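set_option autoImplicit false

namespace Pool.Agent.P.MP_3f5ded_co.UG.B8

/-! The clauses that describe a colouring of the block, generated from a hint. -/

/-- number of an atom -/
def cd (k a b c d : Nat) : Nat :=
  Nat.add (Nat.mul (Nat.add (Nat.mul (Nat.add (Nat.mul (Nat.add (Nat.mul k 8) a) 16) b) 16) c) 16) d

def aXR (j v w c : Nat) : Nat := cd 1 j (Nat.sub v (Nat.sub v w)) (Nat.add w (Nat.sub v w)) c
def aX (v w c : Nat) : Nat := cd 1 0 (Nat.sub v (Nat.sub v w)) (Nat.add w (Nat.sub v w)) c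
def aM (v c : Nat) : Nat := cd 2 0 0 v c
def aP (v c : Nat) : Nat := cd 3 0 0 v c
def aL (j v c : Nat) : Nat := cd 4 j 0 v c
def aU (j v c : Nat) : Nat := cd 5 j 0 v c
def aD (j t c : Nat) : Nat := cd 6 j 0 t c
def aE (j v : Nat) : Nat := cd 7 j 0 v 0
def aR (o a c v : Nat) : Nat := cd 8 o (Nat.add (Nat.mul 8 a) (Nat.div c 16)) (Nat.mod c 16) v
def aK (o p l a : Nat) : Nat := cd 9 o p l a

def pos (x : Nat) : Nat := Nat.mul 2 x
def neg (x : Nat) : Nat := Nat.succ (Nat.mul 2 x)

def pL (j v c : Nat) : List Nat := cond (Nat.beq j 1) [neg (aM v c)] (cond (Nat.ble 6 j) [] [pos (aL j v c)])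
def nL (j v c : Nat) : List Nat := cond (Nat.beq j 1) [pos (aM v c)] [neg (aL j v c)]
def pP (v c : Nat) : List Nat := cond (Nat.ble v 5) [pos (aP v c)] []

/-- `v w` is an edge of the block -/
def eb (v w : Nat) : Bool := cond (Nat.ble v 8) (cond (Nat.ble w 8) (cond (Nat.beq v w) false
  (cond (Nat.ble 6 v) true (cond (Nat.beq (Nat.div v 2) (Nat.div w 2)) false true))) false) false

/-- partner -/
def pr (v : Nat) : Nat := Nat.sub (Nat.succ v) (Nat.mul 2 (Nat.mod v 2))

/-- next colour -/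
def nx (c : Nat) : Nat := Nat.mod (Nat.succ c) 9

/-- a bit -/
def bt (s k : Nat) : Bool := Nat.beq (Nat.mod (Nat.shiftRight s k) 2) 1

/-- a digit in base four -/
def dg (b c d e k : Nat) : Nat := Nat.mod (Nat.shiftRight
  (Nat.add b (Nat.mul 32 (Nat.add c (Nat.mul 32 (Nat.add d (Nat.mul 32 e)))))) (Nat.mul 2 k)) 4

/-- automorphisms -/
def aut (g v : Nat) : Nat := Nat.mod (Nat.shiftRight 0x67801234576801234568701234586701234578601234587601234567810234576810234568710234586710234578610234587610234567801324576801324568701324586701324578601324587601324567810324576810324568710324586710324578610324587610324567801235476801235468701235486701235478601235487601235467810235476810235468710235486710235478610235487610235467801325476801325468701325486701325478601325487601325467810325476810325468710325486710325478610325487610325467823014576823014568723014586723014578623014587623014567832014576832014568732014586732014578632014587632014567823104576823104568723104586723104578623104587623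10456783210457683210456873210458673210457863210458763210456782301547682301546872301548672301547862301548762301546783201547683201546873201548673201547863201548763201546782310547682310546872310548672310547862310548762310546783210547683210546873210548673210547863210548763210546780145237680145236870145238670145237860145238760145236781045237681045236871045238671045237861045238761045236780154237680154236870154238670154237860154238760154236781054237681054236871054238671054237861054238761054236780145327680145326870145328670145327860145328760145326781045327681045326871045328671045327861045328761045326780154327680154326870154328670154327860154328760154326781054327681054326871054328671054327861054328761054326784501237684501236874501238674501237864501238764501236785401237685401236875401238675401237865401238765401236784510237684510236874510238674510237864510238764510236785410237685410236875410238675410237865410238765410236784501327684501326874501328674501327864501328764501326785401327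68540132687540132867540132786540132876540132678451032768451032687451032867451032786451032876451032678541032768541032687541032867541032786541032876541032678234501768234501687234501867234501786234501876234501678324501768324501687324501867324501786324501876324501678235401768235401687235401867235401786235401876235401678325401768325401687325401867325401786325401876325401678234510768234510687234510867234510786234510876234510678324510768324510687324510867324510786324510876324510678235410768235410687235410867235410786235410876235410678325410768325410687325410867325410786325410876325410678452301768452301687452301867452301786452301876452301678542301768542301687542301867542301786542301876542301678453201768453201687453201867453201786453201876453201678543201768543201687543201867543201786543201876543201678452310768452310687452310867452310786452310876452310678542310768542310687542310867542310786542310876542310678453210768453210687453210867453210786453210876453210678543210768543210687543210867543210786543210876543210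 (Nat.add (Nat.mul 36 g) (Nat.mul 4 v))) 16

/-- the matchings with four edges, up to automorphisms -/
def pa4 (i s : Nat) : Nat := Nat.mod (Nat.shiftRight 0x5310731054105321732154317531 (Nat.add (Nat.mul 16 i) (Nat.mul 4 s))) 16
def pb4 (i s : Nat) : Nat := Nat.mod (Nat.shiftRight 0x8742854287328746854687628642 (Nat.add (Nat.mul 16 i) (Nat.mul 4 s))) 16

/-- the naming of the ports -/
def nm (a b c t : Nat) : Nat :=
  cond (Nat.ble 3 t) (cond (Nat.ble 5 t) (cond (Nat.ble 6 t) a (pr c)) (cond (Nat.ble 4 t) (pr b) (pr a)))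
    (cond (Nat.ble 2 t) c (cond (Nat.ble 1 t) b a))

def r9 : List Nat := [0, 1, 2, 3, 4, 5, 6, 7, 8]
def r4 : List Nat := [0, 1, 2, 3]

/-- a side condition -/
def gd (b : Bool) (l : List Nat) : List Nat := cond b l [0]

def f0 (_s a b _c _d _e : Nat) : List Nat :=
  gd (eb a b)
    (r9.map fun k => pos (aX a b k))

def f1 (_s a b c d _e : Nat) : List Nat :=
  gd (eb a b) (gd (Nat.ble (Nat.succ c) d) (gd (Nat.ble d 8)
    [neg (aX a b c), neg (aX a b d)]))

def f2 (_s a _b _c _d _e : Nat) : List Nat :=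
  gd (Nat.ble a 8)
    (r9.map fun k => pos (aM a k))

def f3 (_s a b c _d _e : Nat) : List Nat :=
  gd (Nat.ble a 8) (gd (Nat.ble (Nat.succ b) c) (gd (Nat.ble c 8)
    [neg (aM a b), neg (aM a c)]))

def f4 (_s a _b _c _d _e : Nat) : List Nat :=
  gd (Nat.ble a 5)
    (r9.map fun k => pos (aP a k))

def f5 (_s a b c _d _e : Nat) : List Nat :=
  gd (Nat.ble a 5) (gd (Nat.ble (Nat.succ b) c) (gd (Nat.ble c 8)
    [neg (aP a b), neg (aP a c)]))

def f6 (_s a b _c _d _e : Nat) : List Nat :=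
  gd (Nat.ble a 8) (gd (Nat.ble b 8)
    (((r9.filter fun w => eb a w).map fun w => pos (aX a w b)) ++ pos (aM a b) :: pP a b))

def f7 (_s a b c d _e : Nat) : List Nat :=
  gd (eb a b) (gd (eb a c) (gd (Nat.ble (Nat.succ b) c) (gd (Nat.ble d 8)
    [neg (aX a b d), neg (aX a c d)])))

def f8 (_s a b c _d _e : Nat) : List Nat :=
  gd (eb a b) (gd (Nat.ble c 8)
    [neg (aX a b c), neg (aM a c)])

def f9 (_s a b c _d _e : Nat) : List Nat :=
  gd (eb a b) (gd (Nat.ble c 8)
    [neg (aX a b c), neg (aP a c)])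

def f10 (_s a b _c _d _e : Nat) : List Nat :=
  gd (Nat.ble a 5) (gd (Nat.ble b 8)
    [neg (aM a b), neg (aP a b)])

def f11 (s a b c _d _e : Nat) : List Nat :=
  gd (Nat.ble 2 a) (gd (Nat.ble a 5) (gd (Nat.ble b 8) (gd (Nat.ble c 8) (gd (bt s 17)
    (neg (aL a b c) :: pL (Nat.sub a 1) b c)))))

def f12 (_s a b c _d _e : Nat) : List Nat :=
  gd (Nat.ble a 5) (gd (Nat.ble b 8) (gd (Nat.ble c 8)
    [neg (aL a b c), neg (aM b c)]))

def f13 (_s a b c _d _e : Nat) : List Nat :=
  gd (Nat.ble a 5) (gd (Nat.ble b 8) (gd (Nat.ble c 7)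
    [neg (aL a b c), pos (aM b (Nat.succ c)), pos (aL a b (Nat.succ c))]))

def f14 (_s a b c d _e : Nat) : List Nat :=
  gd (Nat.ble a 5) (gd (eb b c) (gd (Nat.ble d 8)
    [neg (aX b c d), neg (aL a c d), pos (aL a b d)]))

def f15 (_s a b c d _e : Nat) : List Nat :=
  gd (Nat.ble a 5) (gd (eb b c) (gd (Nat.ble d 7)
    [neg (aX b c (Nat.succ d)), neg (aL a c d), pos (aL a b (Nat.succ d))]))

def f16 (s a b _c _d _e : Nat) : List Nat :=
  gd (Nat.ble 1 a) (gd (Nat.ble a 5) (gd (Nat.ble b 8) (gd (bt s 17)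
    (nL a b 8 ++ pos (aM b 0) :: pL (Nat.succ a) b 0))))

def f17 (s a b c _d _e : Nat) : List Nat :=
  gd (Nat.ble 1 a) (gd (Nat.ble a 5) (gd (Nat.ble (Nat.succ b) c) (gd (Nat.ble c 8) (gd (bt s 17)
    (nL a b 0 ++ (nL a c 0 ++ (pL (Nat.succ a) b 0 ++ (pL (Nat.succ a) c 0 ++
      cond (eb b c) [pos (aX b c 0)] []))))))))

def f18 (s a _b _c _d _e : Nat) : List Nat :=
  gd (Nat.ble a 5) (gd (bt s 17)
    [neg (aP a 0), pos (aL 2 a 0)])

def f19 (s a b _c _d _e : Nat) : List Nat :=
  gd (Nat.ble 1 a) (gd (Nat.ble a 4) (gd (Nat.ble b 8) (gd (bt s 17)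
    (neg (aE a b) :: pL a b 0))))

def f20 (_s a b _c _d _e : Nat) : List Nat :=
  gd (Nat.ble a 4) (gd (Nat.ble b 8)
    [neg (aE a b), neg (aL (Nat.succ a) b 0)])

def f21 (s a b _c _d _e : Nat) : List Nat :=
  gd (Nat.ble 1 a) (gd (Nat.ble a 4) (gd (Nat.ble b 8) (gd (bt s 17)
    (pos (aE a b) :: (nL a b 0 ++ [pos (aL (Nat.succ a) b 0)])))))

def f22 (_s a b _c _d _e : Nat) : List Nat :=
  gd (Nat.ble 1 a) (gd (Nat.ble a 4) (gd (Nat.ble b 8)
    (neg (aL (Nat.succ a) b 0) :: r9.map fun w => pos (aE a w))))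

def f23 (_s a b _c _d _e : Nat) : List Nat :=
  gd (Nat.ble a 8) (gd (Nat.ble b 8)
    (neg (aU 0 a b) :: pos (aM a b) :: pP a b))

def f24 (_s a b _c _d _e : Nat) : List Nat :=
  gd (Nat.ble a 8) (gd (Nat.ble b 8)
    [pos (aU 0 a b), neg (aM a b)])

def f25 (_s a b _c _d _e : Nat) : List Nat :=
  gd (Nat.ble a 5) (gd (Nat.ble b 8)
    [pos (aU 0 a b), neg (aP a b)])

def f26 (_s a b c _d _e : Nat) : List Nat :=
  gd (Nat.ble a 5) (gd (Nat.ble b 5) (gd (Nat.ble c 8)
    [neg (aL a b c), neg (aP b c), pos (aU a b c)]))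

def f27 (_s a b c _d _e : Nat) : List Nat :=
  gd (Nat.ble a 5) (gd (Nat.ble b 8) (gd (Nat.ble c 8)
    (neg (aL a b c) :: neg (aU a b c) :: pP b c)))

def f28 (_s a b c _d _e : Nat) : List Nat :=
  gd (Nat.ble a 5) (gd (Nat.ble b 8) (gd (Nat.ble c 8)
    [pos (aL a b c), neg (aL a b (nx c)), pos (aU a b c)]))

def f29 (_s a b c _d _e : Nat) : List Nat :=
  gd (Nat.ble a 5) (gd (Nat.ble b 8) (gd (Nat.ble c 8)
    [pos (aL a b c), neg (aM b (nx c)), pos (aU a b c)]))

def f30 (_s a b c _d _e : Nat) : List Nat :=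
  gd (Nat.ble a 5) (gd (Nat.ble b 5) (gd (Nat.ble c 8)
    [pos (aL a b c), neg (aP b (nx c)), pos (aU a b c)]))

def f31 (_s a b c _d _e : Nat) : List Nat :=
  gd (Nat.ble a 5) (gd (Nat.ble b 8) (gd (Nat.ble c 8)
    (pos (aL a b c) :: pos (aL a b (nx c)) :: pos (aM b (nx c)) :: neg (aU a b c) :: pP b (nx c))))

def f32 (_s a b _c _d _e : Nat) : List Nat :=
  gd (Nat.ble a 5) (gd (Nat.ble b 8)
    (r9.map fun v => pos (aU a v b)))

def f33 (_s a b c d e : Nat) : List Nat :=
  gd (Nat.ble a 5) (gd (Nat.ble b 8) (gd (Nat.ble c 4) (gd (Nat.beq (r9.filter fun v => bt (Nat.add d (Nat.mul 32 e)) v).length (Nat.mul 2 c))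
    (((r9.filter fun v => bt (Nat.add d (Nat.mul 32 e)) v).map fun v => neg (aU a v b)) ++
      cond (Nat.ble c 3) [pos (aD a c b)] []))))

def f34 (_s a b c _d _e : Nat) : List Nat :=
  gd (Nat.ble a 5) (gd (Nat.ble b 8) (gd (Nat.ble c 2)
    [neg (aD a (Nat.succ c) b), pos (aD a c b)]))

def f35 (_s a b c d _e : Nat) : List Nat :=
  gd (Nat.ble a 5) (gd (eb b c) (gd (Nat.ble d 8)
    [neg (aX b c d), neg (aL a b d), pos (aXR a b c d)]))

def f36 (_s a b c d _e : Nat) : List Nat :=
  gd (Nat.ble a 5) (gd (eb b c) (gd (Nat.ble d 8)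
    [neg (aX b c (nx d)), pos (aL a b (nx d)), pos (aXR a b c d)]))

def f37 (_s a b c d e : Nat) : List Nat :=
  gd (Nat.ble a 5) (gd (Nat.ble 4 (r9.map (dg b c d e)).sum)
    ((r9.filter fun k => Nat.ble 1 (dg b c d e k)).map fun k => neg (aD a (dg b c d e k) k)))

def f38 (_s a b _c _d _e : Nat) : List Nat :=
  gd (Nat.ble a 5) (gd (Nat.ble b 8)
    [neg (aP a b), pos (aR a 0 b a)])

def f39 (_s a b c _d _e : Nat) : List Nat :=
  gd (Nat.ble a 5) (gd (Nat.ble b 31) (gd (Nat.ble c 8)
    [neg (aR a 0 b c), pos (aR a 1 b c)]))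

def f40 (_s a b c d _e : Nat) : List Nat :=
  gd (Nat.ble a 5) (gd (Nat.ble b 1) (gd (Nat.ble c 30) (gd (Nat.ble d 8)
    [neg (aR a b c d), pos (aM d (nx c)), pos (aR a b (Nat.succ c) d)])))

def f41 (_s a b c d e : Nat) : List Nat :=
  gd (Nat.ble a 5) (gd (Nat.ble b 1) (gd (Nat.ble c 31) (gd (eb d e)
    [neg (aR a b c d), neg (aX d e (Nat.mod c 9)), pos (aR a b c e)])))

def f42 (_s a b c _d _e : Nat) : List Nat :=
  gd (Nat.ble a 5) (gd (Nat.ble b 29) (gd (Nat.ble c 8)
    [neg (aR a 0 b c), neg (aM c (nx b)), pos (aR a 1 (Nat.add b 2) c)]))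

def f43 (_s a b c d e : Nat) : List Nat :=
  gd (Nat.ble a 5) (gd (Nat.ble b 5) (gd (Nat.ble c 8) (gd (Nat.ble d 1) (gd (Nat.ble e 8)
    [neg (aP a e), neg (aP b (Nat.mod (Nat.add (Nat.add e c) d) 9)), neg (aR a d (Nat.add (Nat.add e c) d) b),
      pos (aK a b c d)]))))

def f44 (_s a b c d _e : Nat) : List Nat :=
  gd (Nat.ble a 5) (gd (Nat.ble b 5) (gd (Nat.ble c 5) (gd (eb a b) (gd (eb a c) (gd (eb b c) (gd (Nat.ble d 5)
    ([0, 1, 2, 3, 4, 5].map fun q =>
      neg (aK (nm a b c q) (nm a b c (Nat.succ q)) (cond (Nat.beq q 5) 7 2) (cond (Nat.beq q d) 1 0)))))))))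

def f45 (s a b c d e : Nat) : List Nat :=
  gd (Nat.ble a 6) (gd (Nat.ble b 5) (gd (Nat.ble c 8) (gd (Nat.ble d 31) (gd (Nat.ble e 8) (gd (bt s (Nat.add 9 a))
    (r4.map fun q => neg (aXR b (aut (Nat.add d (Nat.mul 32 e)) (pa4 a q)) (aut (Nat.add d (Nat.mul 32 e)) (pb4 a q)) c)))))))

def f46 (s a b _c _d _e : Nat) : List Nat :=
  gd (Nat.ble a 3) (gd (Nat.ble 2 b) (gd (Nat.ble b 5) (gd (bt s (Nat.add 5 a)) (gd (bt s 17)
    (neg (aL b (pa4 (Nat.mod s 8) a) 0) :: (r4.filter fun q => !Nat.beq q a).flatMap fun q =>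
      pL (Nat.succ b) (pa4 (Nat.mod s 8) q) 0)))))

def f47 (s a b c _d _e : Nat) : List Nat :=
  gd (Nat.ble a 5) (gd (Nat.ble 6 b) (gd (Nat.ble b 8) (gd (Nat.ble c 8) (gd (bt s 16)
    (neg (aU a b c) :: (r9.filter fun w => !Nat.beq w b).map fun w => pos (aU a w c))))))

def f48 (s a _b _c _d _e : Nat) : List Nat :=
  gd (Nat.ble a 3) (gd (bt s 17)
    [pos (aX (pa4 (Nat.mod s 8) a) (pb4 (Nat.mod s 8) a) 0)])

def f49 (s _a _b _c _d _e : Nat) : List Nat :=
  gd (bt s 17)
    [neg (aL 2 (pa4 (Nat.mod s 8) (Nat.mod (Nat.div s 8) 4)) 0)]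

def f50 (s a _b _c _d _e : Nat) : List Nat :=
  gd (Nat.ble a 5) (gd (bt s 18)
    [neg (aU 0 a 0)])

def f51 (s a b _c _d _e : Nat) : List Nat :=
  gd (Nat.ble (Nat.succ a) b) (gd (Nat.ble b 8) (gd (bt s 18)
    [neg (aU 0 a 0), neg (aU 0 b 0)]))

def g0 (t : Nat) : Nat → Nat → Nat → Nat → Nat → Nat → List Nat :=
  cond (Nat.ble 4 t) (cond (Nat.ble 6 t) (cond (Nat.ble 7 t) f7 f6) (cond (Nat.ble 5 t) f5 f4)) (cond (Nat.ble 2 t) (cond (Nat.ble 3 t) f3 f2) (cond (Nat.ble 1 t) f1 f0))

def g1 (t : Nat) : Nat → Nat → Nat → Nat → Nat → Nat → List Nat :=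
  cond (Nat.ble 4 t) (cond (Nat.ble 6 t) (cond (Nat.ble 7 t) f15 f14) (cond (Nat.ble 5 t) f13 f12)) (cond (Nat.ble 2 t) (cond (Nat.ble 3 t) f11 f10) (cond (Nat.ble 1 t) f9 f8))

def g2 (t : Nat) : Nat → Nat → Nat → Nat → Nat → Nat → List Nat :=
  cond (Nat.ble 4 t) (cond (Nat.ble 6 t) (cond (Nat.ble 7 t) f23 f22) (cond (Nat.ble 5 t) f21 f20)) (cond (Nat.ble 2 t) (cond (Nat.ble 3 t) f19 f18) (cond (Nat.ble 1 t) f17 f16))

def g3 (t : Nat) : Nat → Nat → Nat → Nat → Nat → Nat → List Nat :=
  cond (Nat.ble 4 t) (cond (Nat.ble 6 t) (cond (Nat.ble 7 t) f31 f30) (cond (Nat.ble 5 t) f29 f28)) (cond (Nat.ble 2 t) (cond (Nat.ble 3 t) f27 f26) (cond (Nat.ble 1 t) f25 f24))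

def g4 (t : Nat) : Nat → Nat → Nat → Nat → Nat → Nat → List Nat :=
  cond (Nat.ble 4 t) (cond (Nat.ble 6 t) (cond (Nat.ble 7 t) f39 f38) (cond (Nat.ble 5 t) f37 f36)) (cond (Nat.ble 2 t) (cond (Nat.ble 3 t) f35 f34) (cond (Nat.ble 1 t) f33 f32))

def g5 (t : Nat) : Nat → Nat → Nat → Nat → Nat → Nat → List Nat :=
  cond (Nat.ble 4 t) (cond (Nat.ble 6 t) (cond (Nat.ble 7 t) f47 f46) (cond (Nat.ble 5 t) f45 f44)) (cond (Nat.ble 2 t) (cond (Nat.ble 3 t) f43 f42) (cond (Nat.ble 1 t) f41 f40))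

def g6 (t : Nat) : Nat → Nat → Nat → Nat → Nat → Nat → List Nat :=
  cond (Nat.ble 2 t) (cond (Nat.ble 3 t) f51 f50) (cond (Nat.ble 1 t) f49 f48)

def fam (t : Nat) : Nat → Nat → Nat → Nat → Nat → Nat → Nat → List Nat :=
  cond (Nat.ble 3 t) (cond (Nat.ble 5 t) (cond (Nat.ble 6 t) g6 g5) (cond (Nat.ble 4 t) g4 g3)) (cond (Nat.ble 1 t) (cond (Nat.ble 2 t) g2 g1) g0)

noncomputable section

/-- the list is an initial part of the digits -/
def cmp (l : List Nat) : Nat → Nat → Nat :=
  List.rec (motive := fun _ => Nat → Nat → Nat) (fun _ _ => 0) (fun x _ ih n d =>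
    Nat.rec (motive := fun _ => Nat) 1 (fun m _ => Nat.rec (motive := fun _ => Nat) 1
      (fun y _ => cond (Nat.beq (Nat.succ y) x) (ih m (Nat.div d 1048576)) 1) (Nat.mod d 1048576)) n) l

/-- evaluate first -/
def fr (x : Nat) (f : Nat → Nat) : Nat := Nat.rec (motive := fun _ => Nat) (f 0) (fun p _ => f (Nat.succ p)) x

/-- test of the clause `c` with the hint `h` at the stage `s` -/
def chk (s c h : Nat) : Nat :=
  fr (Nat.mod (Nat.shiftRight h 3) 8) fun t => fr (Nat.mod h 8) fun u =>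
  fr (Nat.mod (Nat.shiftRight h 6) 32) fun a => fr (Nat.mod (Nat.shiftRight h 11) 32) fun b =>
  fr (Nat.mod (Nat.shiftRight h 16) 32) fun k => fr (Nat.mod (Nat.shiftRight h 21) 32) fun d =>
  fr (Nat.mod (Nat.shiftRight h 26) 32) fun e => cmp (fam t u s a b k d e) 1024 (Nat.shiftRight c 56)

end

end Pool.Agent.P.MP_3f5ded_co.UG.B8
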