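import Pool.Agent.P.MP_3f5ded_co.B8Lab

set_option autoImplicit false

namespace Pool.Agent.P.MP_3f5ded_co.UG.B8

open Finset

variable {r : ℝ} {L : Lab}

/-- `v` misses the colour `c`. -/
def Ms (L : Lab) (v c : ℕ) : Prop := ∀ w, It v w → L.col v w ≠ c

/-- The port of `v` has the colour `c`. -/
def Ps (L : Lab) (v c : ℕ) : Prop := v < 6 ∧ L.col v (pr v) = c

lemma mem8 {v w : ℕ} (hv : v < 9) : w ∈ (range 9).erase v ↔ It v w := by
  simp only [mem_erase, mem_range, It]
  omega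

lemma card8 {v : ℕ} (hv : v < 9) : ((range 9).erase v).card = 8 := by
  rw [card_erase_of_mem (mem_range.2 hv), card_range]

lemma malo (L : Lab) {v : ℕ} (hv : v < 9) : ∃ c < 9, Ms L v c := by
  by_contra n
  have : range 9 ⊆ ((range 9).erase v).image (L.col v) := fun c hc => by
    by_contra m
    exact n ⟨c, mem_range.1 hc, fun w a e => m (mem_image.2 ⟨w, (mem8 hv).2 a, e⟩)⟩
  have := (card_le_card this).trans card_image_le
  rw [card8 hv, card_range] at this
  omega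

lemma Valid.mamo (h : Valid r L) {v b c : ℕ} (hv : v < 9) (hb : b < 9) (hc : c < 9)
    (m1 : Ms L v b) (m2 : Ms L v c) : b = c := by
  by_contra n
  have := card_le_card_of_injOn (s := (range 9).erase v) (t := ((range 9).erase b).erase c) (L.col v)
    (fun w a => by
      have a := (mem8 hv).1 a
      simp only [coe_erase, Set.mem_sdiff, mem_coe, mem_range, Set.mem_singleton_iff]
      exact ⟨⟨h.lt v w a, m1 w a⟩, m2 w a⟩)
    fun w a z b e => h.prop v w z ((mem8 hv).1 a) ((mem8 hv).1 b) e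
  rw [card8 hv, card_erase_of_mem (by simp; omega), card8 hb] at this
  omega

/-- No edge of colour `c` at `v`. -/
def Tok (f : ℕ → ℕ → ℕ) (v c : ℕ) : Prop := ∀ w, Ed v w → f v w ≠ c

open Classical in
/-- The number of vertices without an edge of colour `c`. -/
noncomputable def ntok (f : ℕ → ℕ → ℕ) (c : ℕ) : ℕ := ((range 9).filter fun v => Tok f v c).card

lemma Valid.odd (h : Valid r L) (c : ℕ) : ntok L.col c % 2 = 1 := by
  classical
  set P := (range 9 ×ˢ range 9).filter fun p => Ed p.1 p.2 ∧ L.col p.1 p.2 = c with hP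
  have m : ∀ p, p ∈ P ↔ Ed p.1 p.2 ∧ L.col p.1 p.2 = c := fun p => by
    simp only [hP, mem_filter, mem_product, mem_range]
    exact ⟨fun x => x.2, fun x => ⟨⟨x.1.1, x.1.2.1⟩, x⟩⟩
  have e1 : ∑ _p ∈ P, (1 : ZMod 2) = 0 := sum_involution (fun p _ => p.swap) (fun _ _ => rfl)
    (fun p a _ e => ((m p).1 a).1.2.2.1 (congrArg Prod.snd e))
    (fun p a => (m _).2 ⟨((m p).1 a).1.symm, (h.csym _ _ ((m p).1 a).1).symm.trans ((m p).1 a).2⟩)
    fun _ _ => rfl
  have e2 : P.image Prod.fst = (range 9).filter fun v => ¬ Tok L.col v c := by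
    ext v
    simp only [mem_image, m, mem_filter, mem_range, Tok, not_forall, not_not]
    exact ⟨fun ⟨p, a, e⟩ => e ▸ ⟨a.1.1, p.2, a.1, a.2⟩, fun ⟨_, w, a, b⟩ => ⟨(v, w), ⟨a, b⟩, rfl⟩⟩
  have e3 : (P.image Prod.fst).card = P.card := card_image_of_injOn fun p a q b e => by
    have a := (m p).1 a
    have b := (m q).1 b
    refine Prod.ext e (h.prop p.1 _ _ a.1.it (e ▸ b.1.it) ?_)
    rw [a.2, e, b.2]
  have e4 := card_filter_add_card_filter_not (s := range 9) fun v => Tok L.col v c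
  rw [sum_const, nsmul_one, ZMod.natCast_eq_zero_iff] at e1
  rw [← e2, e3, card_range] at e4
  unfold ntok
  omega

lemma tok_cases {v c : ℕ} (t : Tok L.col v c) : Ms L v c ∨ Ps L v c := by
  by_contra n
  refine n (.inl fun w a e => ?_)
  rcases a.cases with x | ⟨x, rfl⟩
  · exact t w x e
  · exact n (.inr ⟨x, e⟩)

lemma Valid.total (h : Valid r L) : ∑ c ∈ range 9, ntok L.col c ≤ 15 := by
  classical
  unfold ntok
  simp only [card_filter]
  rw [sum_comm]
  simp only [← card_filter]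
  have e : ∀ v ∈ range 9, ((range 9).filter fun c => Tok L.col v c).card ≤ if v < 6 then 2 else 1 := by
    intro v hv
    have hv := mem_range.1 hv
    obtain ⟨m, hm, a⟩ := malo L hv
    split_ifs with x
    · refine (card_le_card (t := {m, L.col v (pr v)}) fun c hc => ?_).trans card_le_two
      rw [mem_filter, mem_range] at hc
      rcases tok_cases hc.2 with y | y
      · simp [h.mamo hv hc.1 hm y a]
      · simp [y.2]
    · refine (card_le_card (t := {m}) fun c hc => ?_).trans (card_singleton _).le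
      rw [mem_filter, mem_range] at hc
      rcases tok_cases hc.2 with y | y
      · simp [h.mamo hv hc.1 hm y a]
      · exact absurd y.1 x
  exact (sum_le_sum e).trans (by decide)

/-- The times of the items of colour zero. -/
def T0 (L : Lab) : Finset ℤ :=
  ((range 9 ×ˢ range 9).filter fun p => p.1 ≠ p.2 ∧ L.col p.1 p.2 = 0).image fun p => L.tm p.1 p.2

lemma mem_T0 {t : ℤ} : t ∈ T0 L ↔ ∃ v w, It v w ∧ L.col v w = 0 ∧ L.tm v w = t := by
  simp only [T0, mem_image, mem_filter, mem_product, mem_range, It, Prod.exists]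
  exact ⟨fun ⟨v, w, a, b⟩ => ⟨v, w, ⟨a.1.1, a.1.2, a.2.1⟩, a.2.2, b⟩,
    fun ⟨v, w, a, b, c⟩ => ⟨v, w, ⟨⟨a.1, a.2.1⟩, a.2.2, b⟩, c⟩⟩

/-- The level of a time. -/
def lvl (L : Lab) (t : ℤ) : ℕ := ((T0 L).filter (· ≤ t)).card

lemma lvl_mono {s t : ℤ} (h : s ≤ t) : lvl L s ≤ lvl L t :=
  card_le_card fun _ a => mem_filter.2 ⟨(mem_filter.1 a).1, (mem_filter.1 a).2.trans h⟩

lemma lvl_lt {s t : ℤ} (h : s < t) (m : t ∈ T0 L) : lvl L s < lvl L t :=
  card_lt_card ⟨fun _ a => mem_filter.2 ⟨(mem_filter.1 a).1, (mem_filter.1 a).2.trans h.le⟩,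
    fun a => absurd (mem_filter.1 (a (mem_filter.2 ⟨m, le_rfl⟩))).2 (not_le.2 h)⟩

lemma lvl_pos {s t : ℤ} (h : s ≤ t) (m : s ∈ T0 L) : 1 ≤ lvl L t :=
  card_pos.2 ⟨s, mem_filter.2 ⟨m, h⟩⟩

lemma lvl_le (t : ℤ) : lvl L t ≤ (T0 L).card := card_filter_le _ _

lemma lvl_cont {j : ℕ} (hj : 1 ≤ j) (n : ℕ) : ∀ t, lvl L t = j + n → ∃ s ∈ T0 L, lvl L s = j := by
  have top : ∀ t, 1 ≤ lvl L t → ∃ s ∈ T0 L, lvl L s = lvl L t ∧ lvl L (s - 1) + 1 = lvl L t := fun t p => by
    obtain ⟨s, a, b⟩ := exists_max_image ((T0 L).filter (· ≤ t)) id (card_pos.1 p)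
    have a' := mem_filter.1 a
    have e : (T0 L).filter (· ≤ s) = (T0 L).filter (· ≤ t) := by
      ext x
      exact ⟨fun y => mem_filter.2 ⟨(mem_filter.1 y).1, (mem_filter.1 y).2.trans a'.2⟩,
        fun y => mem_filter.2 ⟨(mem_filter.1 y).1, b x y⟩⟩
    refine ⟨s, a'.1, congrArg card e, ?_⟩
    unfold lvl
    rw [← card_erase_add_one a, ← e]
    congr 2
    ext x
    simp only [mem_filter, mem_erase]
    exact ⟨fun y => ⟨by omega, y.1, by omega⟩, fun y => ⟨y.2.1, by omega⟩⟩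
  induction n with
  | zero =>
    intro t e
    obtain ⟨s, a, b, -⟩ := top t (by omega)
    exact ⟨s, a, b.trans e⟩
  | succ n ih =>
    intro t e
    obtain ⟨s, -, -, b⟩ := top t (by omega)
    exact ih (s - 1) (by omega)

/-- The colouring after moving the origin to the `j`-th item of colour zero. -/
def cj (L : Lab) (j v w : ℕ) : ℕ := if j ≤ lvl L (L.tm v w) then L.col v w else (L.col v w + 8) % 9

lemma cj_zero (L : Lab) : cj L 0 = L.col := by
  funext v w
  simp [cj]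

lemma Valid.cut (h : Valid r L) (j : ℕ) : ∃ L', Valid r L' ∧ L'.col = cj L j := by
  obtain ⟨L', B, a, -, b, -⟩ := h.recut (fun t => j ≤ lvl L t) fun _ _ x y => y.trans (lvl_mono x)
  refine ⟨L', a, ?_⟩
  funext v w
  rw [b, cj]
  congr

/-- The edges of the matching number `i` have the colour zero. -/
def Pat (L : Lab) (i : ℕ) : Prop := ∀ s < 4, L.col (pa4 i s) (pb4 i s) = 0

/-- The time of an edge of the matching. -/
def ptm (L : Lab) (i s : ℕ) : ℤ := L.tm (pa4 i s) (pb4 i s)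

/-- The edge number `t` does not come first. -/
def NoF (r : ℝ) (i t : ℕ) : Prop := ∀ L, Valid r L → Pat L i → ¬ ∀ s < 4, ptm L i t ≤ ptm L i s

/-- The matching does not occur. -/
def NoP (r : ℝ) (i : ℕ) : Prop := ∀ L, Valid r L → ¬ Pat L i

/-- A vertex without port is never the only vertex outside a colour class. -/
def NoL (r : ℝ) : Prop := ∀ L, Valid r L → (∀ w < 6, ¬ Tok L.col w 0) →
  ¬ ∀ v w, v < w → w < 9 → Tok L.col v 0 → ¬ Tok L.col w 0

/-- Normal form. -/
def NF (L : Lab) : Prop :=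
  (T0 L).card ≤ 5 ∧ ∃ a b, Ed a b ∧ L.col a b = 0 ∧ ∀ v w, It v w → L.tm a b ≤ L.tm v w

lemma pat_e {i s : ℕ} (hi : i < 7) (hs : s < 4) : Ed (pa4 i s) (pb4 i s) := by
  have : ∀ i < 7, ∀ s < 4, Ed (pa4 i s) (pb4 i s) := by decide +kernel
  exact this i hi s hs

lemma pat_ne {i s t : ℕ} (hi : i < 7) (hs : s < 4) (ht : t < 4) (n : s ≠ t) :
    pa4 i s ≠ pa4 i t ∧ pa4 i s ≠ pb4 i t := by
  have : ∀ i < 7, ∀ s < 4, ∀ t < 4, s ≠ t → pa4 i s ≠ pa4 i t ∧ pa4 i s ≠ pb4 i t := by decide +kernel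
  exact this i hi s hs t ht n

lemma Valid.pt_ne (h : Valid r L) {i s t : ℕ} (hi : i < 7) (hs : s < 4) (ht : t < 4) (n : s ≠ t) :
    ptm L i t ≠ ptm L i s := fun e => by
  have := pat_ne hi hs ht n
  rcases h.inj _ _ _ _ (pat_e hi ht).it (pat_e hi hs).it e with x | x
  · exact this.1 x.1
  · exact this.2 x.1

lemma Valid.card5 (h : Valid r L) {i : ℕ} (hi : i < 7) (p : Pat L i) : (T0 L).card ≤ 5 := by
  have cov : ∀ i < 7, ∃ u < 9, ∀ v < 9, v = u ∨ ∃ s < 4, v = pa4 i s ∨ v = pb4 i s := by decide +kernel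
  obtain ⟨u, -, hu⟩ := cov i hi
  have ex : ∃ t, ∀ w, It u w → L.col u w = 0 → L.tm u w = t := by
    by_cases x : ∃ w, It u w ∧ L.col u w = 0
    · obtain ⟨w, a, b⟩ := x
      exact ⟨_, fun z c d => by rw [h.prop u z w c a (d.trans b.symm)]⟩
    · exact ⟨0, fun w a b => absurd ⟨w, a, b⟩ x⟩
  obtain ⟨t, ht⟩ := ex
  refine (card_le_card (t := insert t ((range 4).image (ptm L i))) fun x hx => ?_).trans
    ((card_insert_le _ _).trans (Nat.succ_le_succ (card_image_le.trans (card_range 4).le)))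
  obtain ⟨v, w, a, b, rfl⟩ := mem_T0.1 hx
  rcases hu v a.1 with rfl | ⟨s, hs, rfl | rfl⟩
  · exact mem_insert.2 (.inl (ht w a b))
  · refine mem_insert_of_mem (mem_image.2 ⟨s, mem_range.2 hs, ?_⟩)
    rw [h.prop _ w _ a (pat_e hi hs).it (b.trans (p s hs).symm), ptm]
  · refine mem_insert_of_mem (mem_image.2 ⟨s, mem_range.2 hs, ?_⟩)
    have e := pat_e hi hs
    rw [h.prop _ w _ a e.symm.it (b.trans ((p s hs).symm.trans (h.csym _ _ e))), ptm, h.tsym _ _ e]

/-- Normalisation: the first edge of the matching becomes the first item. -/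
lemma Valid.norm (h : Valid r L) {i t : ℕ} (hi : i < 7) (ht : t < 4) (p : Pat L i)
    (f : ∀ s < 4, ptm L i t ≤ ptm L i s) :
    ∃ L', Valid r L' ∧ Pat L' i ∧ NF L' ∧ lvl L' (ptm L' i t) ≤ 1 := by
  obtain ⟨L', B, a, b, c, d⟩ := h.recut (fun x => ptm L i t ≤ x) fun _ _ x y => y.trans x
  have p' : Pat L' i := fun s hs => (c _ _).trans ((if_pos (f s hs)).trans (p s hs))
  have e : ptm L' i t = ptm L i t := (d _ _).trans (if_pos (f t ht))
  have g : ∀ v w, It v w → ptm L' i t ≤ L'.tm v w := fun v w x => by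
    rw [e, d]
    split_ifs with y
    · exact y
    · exact (b v w _ _ x (pat_e hi ht).it).le
  refine ⟨L', a, p', ⟨a.card5 hi p', _, _, pat_e hi ht, p' t ht, g⟩, ?_⟩
  refine (card_le_card (t := {ptm L' i t}) fun x hx => ?_).trans (card_singleton _).le
  obtain ⟨v, w, y, -, rfl⟩ := mem_T0.1 (mem_filter.1 hx).1
  exact mem_singleton.2 (le_antisymm (mem_filter.1 hx).2 (g v w y))

lemma NoF.last {i t : ℕ} (n : NoF r i t) (h : Valid r L) (p : Pat L i) :
    ¬ ∀ s < 4, ptm L i s ≤ ptm L i t := fun f => by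
  obtain ⟨L', a, b, c⟩ := h.mir
  exact n L' a (fun s hs => b _ _ (p s hs)) fun s hs => by
    simpa only [ptm, c, neg_le_neg_iff] using f s hs

/-- If all edges but one can be neither first nor last, the matching does not occur. -/
lemma NoP.of {i u : ℕ} (hi : i < 7) (n : ∀ t < 4, t ≠ u → NoF r i t) : NoP r i := fun L h p => by
  obtain ⟨a, ha, a'⟩ := exists_min_image (range 4) (ptm L i) ⟨0, by simp⟩
  obtain ⟨b, hb, b'⟩ := exists_max_image (range 4) (ptm L i) ⟨0, by simp⟩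
  simp only [mem_range] at ha hb a' b'
  by_cases x : a = u
  · by_cases y : b = u
    · have e := h.pt_ne hi (s := 0) (t := 1) (by omega) (by omega) (by omega)
      have := a' 0 (by omega)
      have := a' 1 (by omega)
      have := b' 0 (by omega)
      have := b' 1 (by omega)
      rw [x] at *
      rw [y] at *
      omega
    · exact (n b hb y).last h p b'
  · exact n a ha x L h p a'

/-- An automorphism that fixes the matching. -/
lemma NoF.aut {i t u : ℕ} {g : ℕ → ℕ} (hi : i < 7) (n : NoF r i t) (hg : Aut g)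
    (e : ∀ s < 4, ∃ q < 4, (s = t → q = u) ∧
      (g (pa4 i s) = pa4 i q ∧ g (pb4 i s) = pb4 i q ∨ g (pa4 i s) = pb4 i q ∧ g (pb4 i s) = pa4 i q))
    (ht : t < 4) : NoF r i u := fun L h p f => by
  have k : ∀ s < 4, ∃ q < 4, (s = t → q = u) ∧ (L.act g).col (pa4 i s) (pb4 i s) = 0 ∧
      ptm (L.act g) i s = ptm L i q := fun s hs => by
    obtain ⟨q, hq, x, ⟨y, z⟩ | ⟨y, z⟩⟩ := e s hs
    · exact ⟨q, hq, x, by simp only [Lab.act, y, z, p q hq], by simp only [Lab.act, ptm, y, z]⟩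
    · have ed := pat_e hi hq
      exact ⟨q, hq, x, by simp only [Lab.act, y, z, ← h.csym _ _ ed, p q hq],
        by simp only [Lab.act, ptm, y, z, ← h.tsym _ _ ed]⟩
  refine n _ (h.act hg) (fun s hs => (k s hs).choose_spec.2.2.1) fun s hs => ?_
  obtain ⟨q, hq, -, -, x⟩ := k s hs
  obtain ⟨q', -, y, -, z⟩ := k t ht
  rw [x, z, y rfl]
  exact f q hq

lemma aut_ok {g : ℕ} (h : g < 288) : Aut (aut g) := by
  have : ∀ g < 288, (∀ v < 9, aut g v < 9 ∧ (v < 6 → aut g v < 6 ∧ aut g (pr v) = pr (aut g v)) ∧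
    (6 ≤ v → 6 ≤ aut g v)) ∧ ∀ v < 9, ∀ w < 9, aut g v = aut g w → v = w := by decide +kernel
  exact this g h

end Pool.Agent.P.MP_3f5ded_co.UG.B8
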