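import Pool.Agent.P.MP_3f5ded_co.B8Sem

set_option autoImplicit false
set_option linter.unusedSimpArgs false
set_option linter.unusedVariables false

namespace Pool.Agent.P.MP_3f5ded_co.UG.B8

open Finset RRup

variable {r : ℝ} {L : Lab} {s : ℕ}

lemma nbeq {a b : ℕ} (h : a ≠ b) : (!Nat.beq a b) = true := by
  cases e : Nat.beq a b
  · rfl
  · exact absurd (Nat.eq_of_beq_eq_true e) h

lemma nmod (a b : ℕ) : Nat.mod a b = a % b := rfl

lemma s0 (hv : V r s L) (a b c d e : ℕ) : G r L (f0 s a b c d e) := by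
  refine .gd fun h1 => .of ?_
  have h := hv.val
  simp only [Nat.ble_eq, Nat.beq_eq, eb_iff, Nat.succ_eq_add_one, Nat.mul_eq] at h1
  exact sat_mapP.2 ⟨_, m9.2 (h.lt a b h1.it), (wX h h1 (by have := h.lt a b h1.it; omega)).2 rfl⟩

lemma s1 (hv : V r s L) (a b c d e : ℕ) : G r L (f1 s a b c d e) := by
  refine .gd fun h1 => .gd fun h2 => .gd fun h3 => .of ?_
  have h := hv.val
  simp only [Nat.ble_eq, Nat.beq_eq, eb_iff, Nat.succ_eq_add_one, Nat.mul_eq] at h1 h2 h3
  have := h1.1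
  have := h1.2.1
  simp (disch := omega) only [sat_neg, sat_nil, or_false,
    wX h h1]
  by_contra n
  simp only [not_or, not_not] at n
  omega

lemma s2 (hv : V r s L) (a b c d e : ℕ) : G r L (f2 s a b c d e) := by
  refine .gd fun h1 => .of ?_
  have h := hv.val
  simp only [Nat.ble_eq, Nat.beq_eq, eb_iff, Nat.succ_eq_add_one, Nat.mul_eq] at h1
  obtain ⟨k, x, y⟩ := malo L (show a < 9 by omega)
  exact sat_mapP.2 ⟨k, m9.2 x, (wM (by omega) (by omega)).mpr y⟩

lemma s3 (hv : V r s L) (a b c d e : ℕ) : G r L (f3 s a b c d e) := by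
  refine .gd fun h1 => .gd fun h2 => .gd fun h3 => .of ?_
  have h := hv.val
  simp only [Nat.ble_eq, Nat.beq_eq, eb_iff, Nat.succ_eq_add_one, Nat.mul_eq] at h1 h2 h3
  simp (disch := omega) only [sat_neg, sat_nil, or_false,
    wM]
  by_contra n
  simp only [not_or, not_not] at n
  have := h.mamo (by omega) (by omega) (by omega) n.1 n.2
  omega

lemma s4 (hv : V r s L) (a b c d e : ℕ) : G r L (f4 s a b c d e) := by
  refine .gd fun h1 => .of ?_
  have h := hv.val
  simp only [Nat.ble_eq, Nat.beq_eq, eb_iff, Nat.succ_eq_add_one, Nat.mul_eq] at h1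
  have := h.lt a _ (it_pr (show a < 6 by omega))
  exact sat_mapP.2 ⟨_, m9.2 this, (wP (by omega) (by omega)).mpr ⟨by omega, rfl⟩⟩

lemma s5 (hv : V r s L) (a b c d e : ℕ) : G r L (f5 s a b c d e) := by
  refine .gd fun h1 => .gd fun h2 => .gd fun h3 => .of ?_
  have h := hv.val
  simp only [Nat.ble_eq, Nat.beq_eq, eb_iff, Nat.succ_eq_add_one, Nat.mul_eq] at h1 h2 h3
  simp (disch := omega) only [sat_neg, sat_nil, or_false,
    wP]
  by_contra n
  simp only [not_or, not_not] at n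
  have := n.1.2
  have := n.2.2
  omega

lemma s6 (hv : V r s L) (a b c d e : ℕ) : G r L (f6 s a b c d e) := by
  refine .gd fun h1 => .gd fun h2 => .of ?_
  have h := hv.val
  simp only [Nat.ble_eq, Nat.beq_eq, eb_iff, Nat.succ_eq_add_one, Nat.mul_eq] at h1 h2
  simp (disch := omega) only [sat_pos, sat_app, sat_nil, or_false,
    wM, sat_pP]
  by_contra n
  simp only [not_or, not_not] at n
  obtain ⟨w, i, x⟩ := ms_not n.2.1
  rcases i.cases with y | ⟨y, rfl⟩
  · exact n.1 (sat_mapP.2 ⟨w, List.mem_filter.2 ⟨m9.2 y.2.1, eb_iff.2 y⟩, (wX h y (by omega)).2 x⟩)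
  · exact n.2.2 ⟨y, x⟩

lemma s7 (hv : V r s L) (a b c d e : ℕ) : G r L (f7 s a b c d e) := by
  refine .gd fun h1 => .gd fun h2 => .gd fun h3 => .gd fun h4 => .of ?_
  have h := hv.val
  simp only [Nat.ble_eq, Nat.beq_eq, eb_iff, Nat.succ_eq_add_one, Nat.mul_eq] at h1 h2 h3 h4
  have := h1.1
  have := h1.2.1
  have := h2.1
  have := h2.2.1
  simp (disch := omega) only [sat_neg, sat_nil, or_false,
    wX h h1, wX h h2]
  by_contra n
  simp only [not_or, not_not] at n
  have := h.prop a b c h1.it h2.it (n.1.trans n.2.symm)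
  omega

lemma s8 (hv : V r s L) (a b c d e : ℕ) : G r L (f8 s a b c d e) := by
  refine .gd fun h1 => .gd fun h2 => .of ?_
  have h := hv.val
  simp only [Nat.ble_eq, Nat.beq_eq, eb_iff, Nat.succ_eq_add_one, Nat.mul_eq] at h1 h2
  have := h1.1
  have := h1.2.1
  simp (disch := omega) only [sat_neg, sat_nil, or_false,
    wX h h1, wM]
  by_contra n
  simp only [not_or, not_not] at n
  exact n.2 b h1.it n.1

lemma s9 (hv : V r s L) (a b c d e : ℕ) : G r L (f9 s a b c d e) := by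
  refine .gd fun h1 => .gd fun h2 => .of ?_
  have h := hv.val
  simp only [Nat.ble_eq, Nat.beq_eq, eb_iff, Nat.succ_eq_add_one, Nat.mul_eq] at h1 h2
  have := h1.1
  have := h1.2.1
  simp (disch := omega) only [sat_neg, sat_nil, or_false,
    wX h h1, wP]
  by_contra n
  simp only [not_or, not_not] at n
  exact h1.ne_pr n.2.1 (h.prop a _ _ h1.it (it_pr n.2.1) (n.1.trans n.2.2.symm))

lemma s10 (hv : V r s L) (a b c d e : ℕ) : G r L (f10 s a b c d e) := by
  refine .gd fun h1 => .gd fun h2 => .of ?_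
  have h := hv.val
  simp only [Nat.ble_eq, Nat.beq_eq, eb_iff, Nat.succ_eq_add_one, Nat.mul_eq] at h1 h2
  simp (disch := omega) only [sat_neg, sat_nil, or_false,
    wM, wP]
  by_contra n
  simp only [not_or, not_not] at n
  exact n.1 _ (it_pr n.2.1) n.2.2

lemma s11 (hv : V r s L) (a b c d e : ℕ) : G r L (f11 s a b c d e) := by
  refine .gd fun h1 => .gd fun h2 => .gd fun h3 => .gd fun h4 => .gd fun h5 => .of ?_
  have h := hv.val
  simp only [Nat.ble_eq, Nat.beq_eq, eb_iff, Nat.succ_eq_add_one, Nat.mul_eq] at h1 h2 h3 h4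
  have nf := (hv.nf h5).2.1
  simp only [Nat.sub_eq]
  simp (disch := omega) only [sat_neg, sat_nil, or_false,
    wL, sat_pL nf]
  by_contra n
  simp only [not_or, not_not] at n
  obtain ⟨⟨w, x, y, z⟩, m⟩ := n
  exact m ⟨w, x, y, by omega⟩

lemma s12 (hv : V r s L) (a b c d e : ℕ) : G r L (f12 s a b c d e) := by
  refine .gd fun h1 => .gd fun h2 => .gd fun h3 => .of ?_
  have h := hv.val
  simp only [Nat.ble_eq, Nat.beq_eq, eb_iff, Nat.succ_eq_add_one, Nat.mul_eq] at h1 h2 h3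
  simp (disch := omega) only [sat_neg, sat_nil, or_false,
    wM, wL]
  by_contra n
  simp only [not_or, not_not] at n
  obtain ⟨⟨w, x, y, -⟩, m⟩ := n
  exact m w x y

lemma s13 (hv : V r s L) (a b c d e : ℕ) : G r L (f13 s a b c d e) := by
  refine .gd fun h1 => .gd fun h2 => .gd fun h3 => .of ?_
  have h := hv.val
  simp only [Nat.ble_eq, Nat.beq_eq, eb_iff, Nat.succ_eq_add_one, Nat.mul_eq] at h1 h2 h3
  simp only [Nat.succ_eq_add_one]
  simp (disch := omega) only [sat_pos, sat_neg, sat_nil, or_false,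
    wM, wL]
  by_contra n
  simp only [not_or, not_not] at n
  obtain ⟨z, i, x⟩ := ms_not n.2.1
  exact n.2.2 ⟨z, i, x, n.1.up h i (by omega)⟩

lemma s14 (hv : V r s L) (a b c d e : ℕ) : G r L (f14 s a b c d e) := by
  refine .gd fun h1 => .gd fun h2 => .gd fun h3 => .of ?_
  have h := hv.val
  simp only [Nat.ble_eq, Nat.beq_eq, eb_iff, Nat.succ_eq_add_one, Nat.mul_eq] at h1 h2 h3
  have := h2.1
  have := h2.2.1
  simp (disch := omega) only [sat_pos, sat_neg, sat_nil, or_false,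
    wX h h2, wL]
  by_contra n
  simp only [not_or, not_not] at n
  exact n.2.2 ⟨c, h2.it, n.1, h.tsym _ _ h2 ▸ n.2.1.uniq h h2.symm.it (h.csym _ _ h2 ▸ n.1)⟩

lemma s15 (hv : V r s L) (a b c d e : ℕ) : G r L (f15 s a b c d e) := by
  refine .gd fun h1 => .gd fun h2 => .gd fun h3 => .of ?_
  have h := hv.val
  simp only [Nat.ble_eq, Nat.beq_eq, eb_iff, Nat.succ_eq_add_one, Nat.mul_eq] at h1 h2 h3
  have := h2.1
  have := h2.2.1
  simp only [Nat.succ_eq_add_one]
  simp (disch := omega) only [sat_pos, sat_neg, sat_nil, or_false,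
    wX h h2, wL]
  by_contra n
  simp only [not_or, not_not] at n
  exact n.2.2 ⟨c, h2.it, n.1, h.tsym _ _ h2 ▸ n.2.1.up h h2.symm.it (by rw [← h.csym _ _ h2]; omega)⟩

lemma s16 (hv : V r s L) (a b c d e : ℕ) : G r L (f16 s a b c d e) := by
  refine .gd fun h1 => .gd fun h2 => .gd fun h3 => .gd fun h4 => .of ?_
  have h := hv.val
  simp only [Nat.ble_eq, Nat.beq_eq, eb_iff, Nat.succ_eq_add_one, Nat.mul_eq] at h1 h2 h3
  have nf := (hv.nf h4).2.1
  simp only [Nat.succ_eq_add_one]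
  simp (disch := omega) only [sat_pos, sat_app, sat_nil, or_false,
    wM, sat_pL nf, sat_nL nf]
  by_contra n
  simp only [not_or, not_not] at n
  obtain ⟨z, i, x⟩ := ms_not n.2.1
  obtain ⟨t, y, w⟩ := n.1.lt h i x
  exact n.2.2 ⟨z, i, x, y.trans_lt (lvl_lt w (mem_T0.2 ⟨_, _, i, x, rfl⟩))⟩

lemma s17 (hv : V r s L) (a b c d e : ℕ) : G r L (f17 s a b c d e) := by
  refine .gd fun h1 => .gd fun h2 => .gd fun h3 => .gd fun h4 => .gd fun h5 => .of ?_
  have h := hv.val
  simp only [Nat.ble_eq, Nat.beq_eq, eb_iff, Nat.succ_eq_add_one, Nat.mul_eq] at h1 h2 h3 h4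
  have nf := (hv.nf h5).2.1
  simp only [Nat.succ_eq_add_one]
  simp (disch := omega) only [sat_pos, sat_app, sat_nil, or_false,
    sat_pL nf, sat_nL nf]
  by_contra n
  simp only [not_or, not_not] at n
  obtain ⟨⟨w, i, x, y⟩, ⟨z, i', x', y'⟩, p, q, m⟩ := n
  rcases lt_trichotomy (L.tm b w) (L.tm c z) with t | t | t
  · exact q ⟨z, i', x', y.trans_lt (lvl_lt t (mem_T0.2 ⟨_, _, i', x', rfl⟩))⟩
  · rcases h.inj _ _ _ _ i i' t with ⟨u, -⟩ | ⟨rfl, -, u⟩
    · omega
    · exact m (sat_cond.2 (.inl ⟨eb_iff.2 u, sat_pos.2 (.inl ((wX h u (by omega)).2 x))⟩))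
  · exact p ⟨w, i, x, y'.trans_lt (lvl_lt t (mem_T0.2 ⟨_, _, i, x, rfl⟩))⟩

lemma s18 (hv : V r s L) (a b c d e : ℕ) : G r L (f18 s a b c d e) := by
  refine .gd fun h1 => .gd fun h2 => .of ?_
  have h := hv.val
  simp only [Nat.ble_eq, Nat.beq_eq, eb_iff, Nat.succ_eq_add_one, Nat.mul_eq] at h1
  have nf := (hv.nf h2).2.1
  simp (disch := omega) only [sat_pos, sat_neg, sat_nil, or_false,
    wP, wL]
  by_contra n
  simp only [not_or, not_not] at n
  obtain ⟨⟨p, q⟩, m⟩ := n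
  obtain ⟨-, x, y, u, v, w⟩ := id nf
  refine m ⟨_, it_pr p, q, (nf.pos u.it).trans_lt (lvl_lt ((w _ _ (it_pr p)).lt_of_ne fun t => ?_)
    (mem_T0.2 ⟨_, _, it_pr p, q, rfl⟩))⟩
  rcases h.inj _ _ _ _ u.it (it_pr p) t with ⟨rfl, rfl⟩ | ⟨rfl, rfl, -⟩
  · exact u.ne_pr p rfl
  · exact u.symm.ne_pr p rfl

lemma s19 (hv : V r s L) (a b c d e : ℕ) : G r L (f19 s a b c d e) := by
  refine .gd fun h1 => .gd fun h2 => .gd fun h3 => .gd fun h4 => .of ?_
  have h := hv.val
  simp only [Nat.ble_eq, Nat.beq_eq, eb_iff, Nat.succ_eq_add_one, Nat.mul_eq] at h1 h2 h3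
  have nf := (hv.nf h4).2.1
  simp (disch := omega) only [sat_neg, sat_nil, or_false,
    wE, sat_pL nf]
  by_contra n
  simp only [not_or, not_not] at n
  exact n.2 n.1.1

lemma s20 (hv : V r s L) (a b c d e : ℕ) : G r L (f20 s a b c d e) := by
  refine .gd fun h1 => .gd fun h2 => .of ?_
  have h := hv.val
  simp only [Nat.ble_eq, Nat.beq_eq, eb_iff, Nat.succ_eq_add_one, Nat.mul_eq] at h1 h2
  simp only [Nat.succ_eq_add_one]
  simp (disch := omega) only [sat_neg, sat_nil, or_false,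
    wL, wE]
  by_contra n
  simp only [not_or, not_not] at n
  exact n.1.2 n.2

lemma s21 (hv : V r s L) (a b c d e : ℕ) : G r L (f21 s a b c d e) := by
  refine .gd fun h1 => .gd fun h2 => .gd fun h3 => .gd fun h4 => .of ?_
  have h := hv.val
  simp only [Nat.ble_eq, Nat.beq_eq, eb_iff, Nat.succ_eq_add_one, Nat.mul_eq] at h1 h2 h3
  have nf := (hv.nf h4).2.1
  simp only [Nat.succ_eq_add_one]
  simp (disch := omega) only [sat_pos, sat_app, sat_nil, or_false,
    wL, wE, sat_nL nf]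
  by_contra n
  simp only [not_or, not_not] at n
  exact n.1 ⟨n.2.1, n.2.2⟩

lemma s22 (hv : V r s L) (a b c d e : ℕ) : G r L (f22 s a b c d e) := by
  refine .gd fun h1 => .gd fun h2 => .gd fun h3 => .of ?_
  have h := hv.val
  simp only [Nat.ble_eq, Nat.beq_eq, eb_iff, Nat.succ_eq_add_one, Nat.mul_eq] at h1 h2 h3
  simp only [Nat.succ_eq_add_one]
  simp (disch := omega) only [sat_pos, sat_neg, sat_nil, or_false,
    wL, wE]
  by_contra n
  simp only [not_or, not_not] at n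
  obtain ⟨⟨w, -, -, x⟩, m⟩ := n
  obtain ⟨t, y, z⟩ := lvl_cont (L := L) (j := a) (by omega) (lvl L (L.tm b w) - a) (L.tm b w) (by omega)
  obtain ⟨v, w, i, u, rfl⟩ := mem_T0.1 y
  have := i.1
  refine m (sat_mapP.2 ⟨v, m9.2 this, (wE (by omega) (by omega)).mpr ⟨⟨w, i, u, z.ge⟩, fun l => ?_⟩⟩)
  have := l.uniq h i u
  omega

lemma s23 (hv : V r s L) (a b c d e : ℕ) : G r L (f23 s a b c d e) := by
  refine .gd fun h1 => .gd fun h2 => .of ?_
  have h := hv.val
  simp only [Nat.ble_eq, Nat.beq_eq, eb_iff, Nat.succ_eq_add_one, Nat.mul_eq] at h1 h2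
  simp (disch := omega) only [sat_pos, sat_neg, sat_nil, or_false, cj_zero,
    wM, wU, sat_pP]
  by_contra n
  simp only [not_or, not_not] at n
  exact (tok_cases n.1).elim n.2.1 n.2.2

lemma s24 (hv : V r s L) (a b c d e : ℕ) : G r L (f24 s a b c d e) := by
  refine .gd fun h1 => .gd fun h2 => .of ?_
  have h := hv.val
  simp only [Nat.ble_eq, Nat.beq_eq, eb_iff, Nat.succ_eq_add_one, Nat.mul_eq] at h1 h2
  simp (disch := omega) only [sat_pos, sat_neg, sat_nil, or_false, cj_zero,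
    wM, wU]
  by_contra n
  simp only [not_or, not_not] at n
  exact n.1 fun w x => n.2 w x.it

lemma s25 (hv : V r s L) (a b c d e : ℕ) : G r L (f25 s a b c d e) := by
  refine .gd fun h1 => .gd fun h2 => .of ?_
  have h := hv.val
  simp only [Nat.ble_eq, Nat.beq_eq, eb_iff, Nat.succ_eq_add_one, Nat.mul_eq] at h1 h2
  simp (disch := omega) only [sat_pos, sat_neg, sat_nil, or_false, cj_zero,
    wP, wU]
  by_contra n
  simp only [not_or, not_not] at n
  exact n.1 fun w x y => x.ne_pr n.2.1 (h.prop a _ _ x.it (it_pr n.2.1) (y.trans n.2.2.symm))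

lemma s26 (hv : V r s L) (a b c d e : ℕ) : G r L (f26 s a b c d e) := by
  refine .gd fun h1 => .gd fun h2 => .gd fun h3 => .of ?_
  have h := hv.val
  simp only [Nat.ble_eq, Nat.beq_eq, eb_iff, Nat.succ_eq_add_one, Nat.mul_eq] at h1 h2 h3
  simp (disch := omega) only [sat_pos, sat_neg, sat_nil, or_false,
    wP, wL, wU]
  by_contra n
  simp only [not_or, not_not] at n
  obtain ⟨l, ⟨p, q⟩, m⟩ := n
  refine m fun w x y => ?_
  rcases h.cj_eq x.it y with ⟨-, z⟩ | ⟨u, z⟩
  · exact x.ne_pr p (h.prop b _ _ x.it (it_pr p) (z.trans q.symm))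
  · exact u (l.up h x.it z)

lemma s27 (hv : V r s L) (a b c d e : ℕ) : G r L (f27 s a b c d e) := by
  refine .gd fun h1 => .gd fun h2 => .gd fun h3 => .of ?_
  have h := hv.val
  simp only [Nat.ble_eq, Nat.beq_eq, eb_iff, Nat.succ_eq_add_one, Nat.mul_eq] at h1 h2 h3
  simp (disch := omega) only [sat_neg, sat_nil, or_false,
    wL, wU, sat_pP]
  by_contra n
  simp only [not_or, not_not] at n
  obtain ⟨⟨w, i, x, y⟩, m, p⟩ := n
  rcases i.cases with z | ⟨z, rfl⟩
  · exact m w z ((if_pos y).trans x)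
  · exact p ⟨z, x⟩

lemma s28 (hv : V r s L) (a b c d e : ℕ) : G r L (f28 s a b c d e) := by
  refine .gd fun h1 => .gd fun h2 => .gd fun h3 => .of ?_
  have h := hv.val
  simp only [Nat.ble_eq, Nat.beq_eq, eb_iff, Nat.succ_eq_add_one, Nat.mul_eq] at h1 h2 h3
  simp only [nx_eq]
  simp (disch := omega) only [sat_pos, sat_neg, sat_nil, or_false,
    wL, wU]
  by_contra n
  simp only [not_or, not_not] at n
  obtain ⟨l, l', m⟩ := n
  refine m fun w x y => ?_
  rcases h.cj_eq x.it y with ⟨u, z⟩ | ⟨u, z⟩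
  · exact l ⟨w, x.it, z, u⟩
  · exact u (l'.uniq h x.it z)

lemma s29 (hv : V r s L) (a b c d e : ℕ) : G r L (f29 s a b c d e) := by
  refine .gd fun h1 => .gd fun h2 => .gd fun h3 => .of ?_
  have h := hv.val
  simp only [Nat.ble_eq, Nat.beq_eq, eb_iff, Nat.succ_eq_add_one, Nat.mul_eq] at h1 h2 h3
  simp only [nx_eq]
  simp (disch := omega) only [sat_pos, sat_neg, sat_nil, or_false,
    wM, wL, wU]
  by_contra n
  simp only [not_or, not_not] at n
  obtain ⟨l, l', m⟩ := n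
  refine m fun w x y => ?_
  rcases h.cj_eq x.it y with ⟨u, z⟩ | ⟨-, z⟩
  · exact l ⟨w, x.it, z, u⟩
  · exact l' w x.it z

lemma s30 (hv : V r s L) (a b c d e : ℕ) : G r L (f30 s a b c d e) := by
  refine .gd fun h1 => .gd fun h2 => .gd fun h3 => .of ?_
  have h := hv.val
  simp only [Nat.ble_eq, Nat.beq_eq, eb_iff, Nat.succ_eq_add_one, Nat.mul_eq] at h1 h2 h3
  simp only [nx_eq]
  simp (disch := omega) only [sat_pos, sat_neg, sat_nil, or_false,
    wP, wL, wU]
  by_contra n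
  simp only [not_or, not_not] at n
  obtain ⟨l, ⟨p, q⟩, m⟩ := n
  refine m fun w x y => ?_
  rcases h.cj_eq x.it y with ⟨u, z⟩ | ⟨-, z⟩
  · exact l ⟨w, x.it, z, u⟩
  · exact x.ne_pr p (h.prop b _ _ x.it (it_pr p) (z.trans q.symm))

lemma s31 (hv : V r s L) (a b c d e : ℕ) : G r L (f31 s a b c d e) := by
  refine .gd fun h1 => .gd fun h2 => .gd fun h3 => .of ?_
  have h := hv.val
  simp only [Nat.ble_eq, Nat.beq_eq, eb_iff, Nat.succ_eq_add_one, Nat.mul_eq] at h1 h2 h3
  simp only [nx_eq]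
  simp (disch := omega) only [sat_pos, sat_neg, sat_nil, or_false,
    wM, wL, wU, sat_pP]
  by_contra n
  simp only [not_or, not_not] at n
  obtain ⟨-, l, m, t, p⟩ := n
  obtain ⟨w, i, x⟩ := ms_not m
  rcases i.cases with z | ⟨z, rfl⟩
  · exact t w z ((if_neg fun y => l ⟨w, i, x, y⟩).trans (by omega))
  · exact p ⟨z, x⟩

lemma s32 (hv : V r s L) (a b c d e : ℕ) : G r L (f32 s a b c d e) := by
  refine .gd fun h1 => .gd fun h2 => .of ?_
  have h := hv.val
  simp only [Nat.ble_eq, Nat.beq_eq, eb_iff, Nat.succ_eq_add_one, Nat.mul_eq] at h1 h2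
  obtain ⟨v, x⟩ := card_pos.1 (show 0 < ntok (cj L a) b by have := h.odd' a b; omega)
  classical
  have x := mem_filter.1 x
  have := mem_range.1 x.1
  exact sat_mapP.2 ⟨v, m9.2 this, (wU (by omega) (by omega) (by omega)).mpr x.2⟩

lemma s33 (hv : V r s L) (a b c d e : ℕ) : G r L (f33 s a b c d e) := by
  refine .gd fun h1 => .gd fun h2 => .gd fun h3 => .gd fun h4 => .of ?_
  have h := hv.val
  simp only [Nat.ble_eq, Nat.beq_eq, eb_iff, Nat.succ_eq_add_one, Nat.mul_eq] at h1 h2 h3 h4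
  simp (disch := omega) only [sat_pos, sat_neg, sat_app, sat_nil, or_false,
    wU, wD]
  by_contra n
  simp only [not_or, not_not] at n
  classical
  obtain ⟨x, y⟩ := n
  have x := not_not.1 (mt sat_mapN.2 x)
  have k : 2 * c ≤ ntok (cj L a) b := by
    rw [← h4, ← List.toFinset_card_of_nodup (List.Nodup.filter _ (by decide))]
    refine card_le_card fun v hv => ?_
    have hv := List.mem_toFinset.1 hv
    have := m9.1 (List.mem_filter.1 hv).1
    exact mem_filter.2 ⟨mem_range.2 this, (wU (by omega) (by omega) (by omega)).mp (x v hv)⟩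
  have := h.odd' a b
  by_cases z : c ≤ 3
  · exact y (sat_cond.2 (.inl ⟨Nat.ble_eq.mpr z, sat_pos.2 (.inl
      ((wD (by omega) (by omega) (by omega)).mpr (by omega)))⟩))
  · have := h.budget a (fun k => if k = b then 4 else 0) fun k _ => by
      split_ifs with u
      · rw [u]
        omega
      · omega
    have f : ∀ b < 9, (r9.map fun k => if k = b then 4 else 0).sum = 4 := by decide
    rw [f b (by omega)] at this
    omega

lemma s34 (hv : V r s L) (a b c d e : ℕ) : G r L (f34 s a b c d e) := by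
  refine .gd fun h1 => .gd fun h2 => .gd fun h3 => .of ?_
  have h := hv.val
  simp only [Nat.ble_eq, Nat.beq_eq, eb_iff, Nat.succ_eq_add_one, Nat.mul_eq] at h1 h2 h3
  simp only [Nat.succ_eq_add_one]
  simp (disch := omega) only [sat_pos, sat_neg, sat_nil, or_false,
    wD]
  by_contra n
  simp only [not_or, not_not] at n
  omega

lemma s35 (hv : V r s L) (a b c d e : ℕ) : G r L (f35 s a b c d e) := by
  refine .gd fun h1 => .gd fun h2 => .gd fun h3 => .of ?_
  have h := hv.val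
  simp only [Nat.ble_eq, Nat.beq_eq, eb_iff, Nat.succ_eq_add_one, Nat.mul_eq] at h1 h2 h3
  have := h2.1
  have := h2.2.1
  simp (disch := omega) only [sat_pos, sat_neg, sat_nil, or_false,
    wX h h2, wXR h _ h2, wL]
  by_contra n
  simp only [not_or, not_not] at n
  exact n.2.2 ((if_pos (n.2.1.uniq h h2.it n.1)).trans n.1)

lemma s36 (hv : V r s L) (a b c d e : ℕ) : G r L (f36 s a b c d e) := by
  refine .gd fun h1 => .gd fun h2 => .gd fun h3 => .of ?_
  have h := hv.val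
  simp only [Nat.ble_eq, Nat.beq_eq, eb_iff, Nat.succ_eq_add_one, Nat.mul_eq] at h1 h2 h3
  have := h2.1
  have := h2.2.1
  simp only [nx_eq]
  simp (disch := omega) only [sat_pos, sat_neg, sat_nil, or_false,
    wX h h2, wXR h _ h2, wL]
  by_contra n
  simp only [not_or, not_not] at n
  exact n.2.2 ((if_neg fun y => n.2.1 ⟨c, h2.it, n.1, y⟩).trans (by omega))

lemma s37 (hv : V r s L) (a b c d e : ℕ) : G r L (f37 s a b c d e) := by
  refine .gd fun h1 => .gd fun h2 => .of ?_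
  have h := hv.val
  simp only [Nat.ble_eq, Nat.beq_eq, eb_iff, Nat.succ_eq_add_one, Nat.mul_eq] at h1 h2
  refine sat_mapN.2 fun x => ?_
  have := h.budget a (dg b c d e) fun k hk y => by
    have : dg b c d e k < 4 := Nat.mod_lt _ (by norm_num)
    exact (wD (by omega) (by omega) (by omega)).mp (x k (List.mem_filter.2 ⟨m9.2 hk, Nat.ble_eq.mpr y⟩))
  omega

lemma s38 (hv : V r s L) (a b c d e : ℕ) : G r L (f38 s a b c d e) := by
  refine .gd fun h1 => .gd fun h2 => .of ?_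
  have h := hv.val
  simp only [Nat.ble_eq, Nat.beq_eq, eb_iff, Nat.succ_eq_add_one, Nat.mul_eq] at h1 h2
  simp (disch := omega) only [sat_pos, sat_neg, sat_nil, or_false,
    wP, wR]
  by_contra n
  simp only [not_or, not_not] at n
  exact n.2 ⟨_, 0, it_pr n.1.1, n.1.2.symm, by simp [n.1.2]⟩

lemma s39 (hv : V r s L) (a b c d e : ℕ) : G r L (f39 s a b c d e) := by
  refine .gd fun h1 => .gd fun h2 => .gd fun h3 => .of ?_
  have h := hv.val
  simp only [Nat.ble_eq, Nat.beq_eq, eb_iff, Nat.succ_eq_add_one, Nat.mul_eq] at h1 h2 h3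
  simp (disch := omega) only [sat_pos, sat_neg, sat_nil, or_false,
    wR]
  by_contra n
  simp only [not_or, not_not] at n
  obtain ⟨⟨w, q, x, y, z⟩, m⟩ := n
  exact m ⟨w, q, x, y, by push_cast at z ⊢; linarith⟩

lemma s40 (hv : V r s L) (a b c d e : ℕ) : G r L (f40 s a b c d e) := by
  refine .gd fun h1 => .gd fun h2 => .gd fun h3 => .gd fun h4 => .of ?_
  have h := hv.val
  simp only [Nat.ble_eq, Nat.beq_eq, eb_iff, Nat.succ_eq_add_one, Nat.mul_eq] at h1 h2 h3 h4
  simp only [nx_eq, Nat.succ_eq_add_one]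
  simp (disch := omega) only [sat_pos, sat_neg, sat_nil, or_false,
    wM, wR]
  by_contra n
  simp only [not_or, not_not] at n
  obtain ⟨z, i, x⟩ := ms_not n.2.1
  exact n.2.2 (n.1.step h i one_pos (by norm_num) x)

lemma s41 (hv : V r s L) (a b c d e : ℕ) : G r L (f41 s a b c d e) := by
  refine .gd fun h1 => .gd fun h2 => .gd fun h3 => .gd fun h4 => .of ?_
  have h := hv.val
  simp only [Nat.ble_eq, Nat.beq_eq, eb_iff, Nat.succ_eq_add_one, Nat.mul_eq] at h1 h2 h3 h4
  have := h4.1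
  have := h4.2.1
  simp only [nmod]
  simp (disch := omega) only [sat_pos, sat_neg, sat_nil, or_false,
    wX h h4, wR]
  by_contra n
  simp only [not_or, not_not] at n
  obtain ⟨⟨w, q, i, x, y⟩, z, m⟩ := n
  have := h.lt d w i
  have := h.prop d w e i h4.it (by omega)
  subst this
  exact m ⟨d, q, h4.symm.it, h.csym _ _ h4 ▸ x, h.psym _ _ h4 ▸ y⟩

lemma s42 (hv : V r s L) (a b c d e : ℕ) : G r L (f42 s a b c d e) := by
  refine .gd fun h1 => .gd fun h2 => .gd fun h3 => .of ?_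
  have h := hv.val
  simp only [Nat.ble_eq, Nat.beq_eq, eb_iff, Nat.succ_eq_add_one, Nat.mul_eq] at h1 h2 h3
  simp only [nx_eq, Nat.add_eq]
  simp (disch := omega) only [sat_pos, sat_neg, sat_nil, or_false,
    wM, wR]
  by_contra n
  simp only [not_or, not_not] at n
  obtain ⟨z, i, x⟩ := ms_not (L := L) (v := c) (c := (b + 2) % 9) fun m => by
    have := h.mamo (by omega) (by omega) (by omega) m n.2.1
    omega
  exact n.2.2 (n.1.step h i two_pos (by norm_num) x)

lemma s43 (hv : V r s L) (a b c d e : ℕ) : G r L (f43 s a b c d e) := by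
  refine .gd fun h1 => .gd fun h2 => .gd fun h3 => .gd fun h4 => .gd fun h5 => .of ?_
  have h := hv.val
  simp only [Nat.ble_eq, Nat.beq_eq, eb_iff, Nat.succ_eq_add_one, Nat.mul_eq] at h1 h2 h3 h4 h5
  simp only [Nat.add_eq, nmod]
  simp (disch := omega) only [sat_pos, sat_neg, sat_nil, or_false,
    wP, wR, wK]
  by_contra n
  simp only [not_or, not_not] at n
  obtain ⟨⟨-, p⟩, ⟨p', q⟩, ⟨w, k, i, x, y⟩, m⟩ := n
  have := h.lt b w i
  have := h.prop b w _ i (it_pr p') (by omega)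
  subst this
  refine m ⟨k, by omega, ?_⟩
  rw [p] at y
  push_cast at y
  linarith

lemma s44 (hv : V r s L) (a b c d e : ℕ) : G r L (f44 s a b c d e) := by
  refine .gd fun h1 => .gd fun h2 => .gd fun h3 => .gd fun h4 => .gd fun h5 => .gd fun h6 => .gd fun h7 => .of ?_
  have h := hv.val
  simp only [Nat.ble_eq, Nat.beq_eq, eb_iff, Nat.succ_eq_add_one, Nat.mul_eq] at h1 h2 h3 h4 h5 h6 h7
  refine sat_mapN.2 fun x => h.ncon ?_
  have A : a < 6 := by omega
  have B : b < 6 := by omega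
  have C : c < 6 := by omega
  have := pr_lt A
  have := pr_lt B
  have := pr_lt C
  have u : ∀ q, cond (Nat.beq q d) 1 0 = if q = d then 1 else 0 := fun q => by simp
  simp only [List.forall_mem_cons, u] at x
  obtain ⟨x0, x1, x2, x3, x4, x5, -⟩ := x
  obtain ⟨q0, y0, z0⟩ := (wK (o := a) (p := b) (l := 2) (by omega) (by omega) (by omega) (by split_ifs <;> omega)).mp x0
  obtain ⟨q1, y1, z1⟩ := (wK (o := b) (p := c) (l := 2) (by omega) (by omega) (by omega) (by split_ifs <;> omega)).mp x1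
  obtain ⟨q2, y2, z2⟩ := (wK (o := c) (p := pr a) (l := 2) (by omega) (by omega) (by omega) (by split_ifs <;> omega)).mp x2
  obtain ⟨q3, y3, z3⟩ := (wK (o := pr a) (p := pr b) (l := 2) (by omega) (by omega) (by omega) (by split_ifs <;> omega)).mp x3
  obtain ⟨q4, y4, z4⟩ := (wK (o := pr b) (p := pr c) (l := 2) (by omega) (by omega) (by omega) (by split_ifs <;> omega)).mp x4
  obtain ⟨q5, y5, z5⟩ := (wK (o := pr c) (p := a) (l := 7) (by omega) (by omega) (by omega) (by split_ifs <;> omega)).mp x5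
  have t : q0 + q1 + q2 + q3 + q4 + q5 = 2 := by split_ifs at y0 y1 y2 y3 y4 y5 <;> omega
  have t : (q0 : ℝ) + q1 + q2 + q3 + q4 + q5 = 2 := by exact_mod_cast t
  have t' := congrArg (· * r) t
  refine ⟨a, b, c, 0, q0, q0 + q1, q0 + q1 + q2, q0 + q1 + q2 + q3, q0 + q1 + q2 + q3 + q4, A, B, C,
    by have := h4.2.2.2; omega, by have := h5.2.2.2; omega, by have := h6.2.2.2; omega, ?_⟩
  push_cast at z0 z1 z2 z3 z4 z5 ⊢
  refine ⟨?_, ?_, ?_, ?_, ?_, ?_⟩ <;> linarith

lemma s45 (hv : V r s L) (a b c d e : ℕ) : G r L (f45 s a b c d e) := by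
  refine .gd fun h1 => .gd fun h2 => .gd fun h3 => .gd fun h4 => .gd fun h5 => .gd fun h6 => .of ?_
  have h := hv.val
  simp only [Nat.ble_eq, Nat.beq_eq, eb_iff, Nat.succ_eq_add_one, Nat.mul_eq] at h1 h2 h3 h4 h5
  refine sat_mapN.2 fun x => ?_
  have g := aut_ok (show d + 32 * e < 288 by omega)
  obtain ⟨L', u, v⟩ := h.cutrot b (show c < 9 by omega)
  refine hv.kp a (by omega) h6 _ (u.act g) fun q hq => ?_
  have ed := pat_e (show a < 7 by omega) hq
  have ed' := (g.ed ed.it).2 ed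
  exact (v _ _ ed'.it).2 ((wXR h (by omega) ed' (by omega)).1 (x q (m4.2 hq)))

lemma s46 (hv : V r s L) (a b c d e : ℕ) : G r L (f46 s a b c d e) := by
  refine .gd fun h1 => .gd fun h2 => .gd fun h3 => .gd fun h4 => .gd fun h5 => .of ?_
  have h := hv.val
  simp only [Nat.ble_eq, Nat.beq_eq, eb_iff, Nat.succ_eq_add_one, Nat.mul_eq] at h1 h2 h3
  obtain ⟨i7, nf, p, -⟩ := hv.nf h5
  have ea := pat_e i7 (show a < 4 by omega)
  have := ea.1
  change Sat r L (neg (aL b (pa4 (s % 8) a) 0) :: _)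
  rw [sat_neg, wL (by omega) (by omega) (by omega), sat_flat]
  by_contra n
  rw [not_or, not_not] at n
  refine (hv.kf a (by omega) h4).last h p fun q hq => not_lt.1 fun t => n.2 ⟨q, List.mem_filter.2 ⟨m4.2 hq, ?_⟩, ?_⟩
  · exact nbeq fun x => lt_irrefl _ (x ▸ t)
  · have eq := pat_e i7 hq
    have := eq.1
    exact (sat_pL nf (v := pa4 (s % 8) q) (by omega) (by omega)).2 ⟨_, eq.it, p q hq,
      (n.1.uniq h ea.it (p a (by omega))).trans_lt (lvl_lt t (mem_T0.2 ⟨_, _, eq.it, p q hq, rfl⟩))⟩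

lemma s47 (hv : V r s L) (a b c d e : ℕ) : G r L (f47 s a b c d e) := by
  refine .gd fun h1 => .gd fun h2 => .gd fun h3 => .gd fun h4 => .gd fun h5 => .of ?_
  have h := hv.val
  simp only [Nat.ble_eq, Nat.beq_eq, eb_iff, Nat.succ_eq_add_one, Nat.mul_eq] at h1 h2 h3 h4
  simp (disch := omega) only [sat_pos, sat_neg, sat_nil, or_false,
    wU]
  by_contra n
  simp only [not_or, not_not] at n
  obtain ⟨L', u, v⟩ := h.cutrot a (show c < 9 by omega)
  have k : ∀ w < 9, w ≠ b → ¬ Tok L'.col w 0 := fun w x y t => n.2 (sat_mapP.2 ⟨w, List.mem_filter.2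
    ⟨m9.2 x, nbeq y⟩, (wU (by omega) (by omega) (by omega)).mpr
      fun z ed q => t z ed ((v _ _ ed.it).2 q)⟩)
  refine hv.nl h5 L' u (fun w x => k w (by omega) (by omega)) fun x y p q t1 t2 => ?_
  by_cases z : x = b
  · exact k y q (by omega) t2
  · exact k x (by omega) z t1

lemma s48 (hv : V r s L) (a b c d e : ℕ) : G r L (f48 s a b c d e) := by
  refine .gd fun h1 => .gd fun h2 => .of ?_
  have h := hv.val
  simp only [Nat.ble_eq, Nat.beq_eq, eb_iff, Nat.succ_eq_add_one, Nat.mul_eq] at h1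
  obtain ⟨i7, -, p, -⟩ := hv.nf h2
  exact sat_pos.2 (.inl ((wX h (pat_e i7 (show a < 4 by omega)) (by omega)).2 (p a (by omega))))

lemma s49 (hv : V r s L) (a b c d e : ℕ) : G r L (f49 s a b c d e) := by
  refine .gd fun h1 => .of ?_
  have h := hv.val
  obtain ⟨i7, -, p, q⟩ := hv.nf h1
  have t : s / 8 % 4 < 4 := by omega
  have ed := pat_e i7 t
  have := ed.1
  refine sat_neg.2 (.inl fun x => ?_)
  have x := ((wL (v := pa4 (s % 8) (s / 8 % 4)) (by omega) (by omega) (by omega)).mp x).uniq h ed.it (p _ t)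
  exact absurd (x.trans q) (by omega)

lemma s50 (hv : V r s L) (a b c d e : ℕ) : G r L (f50 s a b c d e) := by
  refine .gd fun h1 => .gd fun h2 => .of ?_
  have h := hv.val
  simp only [Nat.ble_eq, Nat.beq_eq, eb_iff, Nat.succ_eq_add_one, Nat.mul_eq] at h1
  simp (disch := omega) only [sat_neg, sat_nil, or_false, cj_zero,
    wU]
  intro n
  exact (hv.lo h2).1 a (by omega) n

lemma s51 (hv : V r s L) (a b c d e : ℕ) : G r L (f51 s a b c d e) := by
  refine .gd fun h1 => .gd fun h2 => .gd fun h3 => .of ?_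
  have h := hv.val
  simp only [Nat.ble_eq, Nat.beq_eq, eb_iff, Nat.succ_eq_add_one, Nat.mul_eq] at h1 h2
  simp (disch := omega) only [sat_neg, sat_nil, or_false, cj_zero,
    wU]
  by_contra n
  simp only [not_or, not_not] at n
  exact (hv.lo h3).2 a b (by omega) (by omega) n.1 n.2

lemma cf {α : Type} (P : α → Prop) {b : Bool} {x y : α} (hx : P x) (hy : P y) : P (cond b x y) := by
  cases b <;> assumption

/-- All lists of a family are satisfied. -/
def GF (r : ℝ) (s : ℕ) (L : Lab) (f : ℕ → ℕ → ℕ → ℕ → ℕ → ℕ → List ℕ) : Prop :=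
  ∀ a b c d e, G r L (f s a b c d e)

lemma tf0 (hv : V r s L) (u : ℕ) : GF r s L (g0 u) :=
  cf (GF r s L) (cf (GF r s L) (cf (GF r s L) (s7 hv) (s6 hv)) (cf (GF r s L) (s5 hv) (s4 hv)))
    (cf (GF r s L) (cf (GF r s L) (s3 hv) (s2 hv)) (cf (GF r s L) (s1 hv)
    (s0 hv)))

lemma tf1 (hv : V r s L) (u : ℕ) : GF r s L (g1 u) :=
  cf (GF r s L) (cf (GF r s L) (cf (GF r s L) (s15 hv) (s14 hv)) (cf (GF r s L) (s13 hv)
    (s12 hv))) (cf (GF r s L) (cf (GF r s L) (s11 hv) (s10 hv)) (cf (GF r s L) (s9 hv)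
    (s8 hv)))

lemma tf2 (hv : V r s L) (u : ℕ) : GF r s L (g2 u) :=
  cf (GF r s L) (cf (GF r s L) (cf (GF r s L) (s23 hv) (s22 hv)) (cf (GF r s L) (s21 hv)
    (s20 hv))) (cf (GF r s L) (cf (GF r s L) (s19 hv) (s18 hv)) (cf (GF r s L) (s17 hv)
    (s16 hv)))

lemma tf3 (hv : V r s L) (u : ℕ) : GF r s L (g3 u) :=
  cf (GF r s L) (cf (GF r s L) (cf (GF r s L) (s31 hv) (s30 hv)) (cf (GF r s L) (s29 hv)
    (s28 hv))) (cf (GF r s L) (cf (GF r s L) (s27 hv) (s26 hv)) (cf (GF r s L) (s25 hv)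
    (s24 hv)))

lemma tf4 (hv : V r s L) (u : ℕ) : GF r s L (g4 u) :=
  cf (GF r s L) (cf (GF r s L) (cf (GF r s L) (s39 hv) (s38 hv)) (cf (GF r s L) (s37 hv)
    (s36 hv))) (cf (GF r s L) (cf (GF r s L) (s35 hv) (s34 hv)) (cf (GF r s L) (s33 hv)
    (s32 hv)))

lemma tf5 (hv : V r s L) (u : ℕ) : GF r s L (g5 u) :=
  cf (GF r s L) (cf (GF r s L) (cf (GF r s L) (s47 hv) (s46 hv)) (cf (GF r s L) (s45 hv)
    (s44 hv))) (cf (GF r s L) (cf (GF r s L) (s43 hv) (s42 hv)) (cf (GF r s L) (s41 hv)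
    (s40 hv)))

lemma tf6 (hv : V r s L) (u : ℕ) : GF r s L (g6 u) :=
  cf (GF r s L) (cf (GF r s L) (s51 hv) (s50 hv)) (cf (GF r s L) (s49 hv)
    (s48 hv))

lemma fam_ok (hv : V r s L) (t : ℕ) : ∀ u, GF r s L (fam t u) :=
  cf (fun f : ℕ → _ => ∀ u, GF r s L (f u)) (cf (fun f : ℕ → _ => ∀ u, GF r s L (f u)) (cf
    (fun f : ℕ → _ => ∀ u, GF r s L (f u)) (tf6 hv) (tf5 hv)) (cf (fun f : ℕ → _ => ∀ u, GF r s L
    (f u)) (tf4 hv) (tf3 hv))) (cf (fun f : ℕ → _ => ∀ u, GF r s L (f u)) (cf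
    (fun f : ℕ → _ => ∀ u, GF r s L (f u)) (tf2 hv) (tf1 hv)) (tf0 hv))

theorem sound (r : ℝ) (s c h : ℕ) (e : chk s c h = 0) : Univ (V r s) (fun L => W r L) c := fun L hv => by
  simp only [chk, fr_eq] at e
  obtain ⟨a, b⟩ := cmp_ok _ _ _ e
  obtain ⟨l, x, y⟩ := fam_ok hv _ _ _ _ _ _ _ a
  exact ⟨l, (memC_iff c l).2 (.inr (b l x)), y⟩

end Pool.Agent.P.MP_3f5ded_co.UG.B8
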