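import Pool.Agent.P.MP_3f5ded_co.PCore
import Pool.Agent.P.MP_3f5ded_co.B8s319488D0

set_option autoImplicit false
set_option maxRecDepth 100000

namespace Pool.Agent.P.MP_3f5ded_co.R.B8s319488

open RRup T

noncomputable section

noncomputable def tA : T := (l (nat_lit 0x140382806020100401c0803028080500a0a010140182802050020a0000c028180403006060080c00818000200a040100801810020200204000043c00868010ce02018042c008180101002118041c008160108e0205c0413808570106e02098041400836010ac0201c0424008120100a02054041200834010280200804128083501026020100401800000000012))

noncomputable def ta (a : Nat) : Nat := fw (nat_lit 19) tA a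

noncomputable def tD : U := tD0

noncomputable def D (z : Nat) : Nat := fx tD z

end

end Pool.Agent.P.MP_3f5ded_co.R.B8s319488
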