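import Pool.Agent.P.MP_3f5ded_co.B8Chk
import Pool.Agent.P.MP_3f5ded_co.B8s319488D

set_option autoImplicit false
set_option maxRecDepth 100000

namespace Pool.Agent.P.MP_3f5ded_co.R.B8s319488

open RRup T

noncomputable section

noncomputable def ht0 : U := (U.e (n (nat_lit 6) (n (nat_lit 3) (n (nat_lit 1) (l (nat_lit 0x8330e003668103b0107001b04021e00e380019a418f0061c000c52207a300f4031e8823d0887a430e0056400ac400c78300f0411e0443d21c70023200460005900072001e4000c800b90013200013000013))
(n (nat_lit 2) (l (nat_lit 0x82087811078094781807728c7708877104772007701078194780887810478200780107828c7001d800218041f3519c73100751a073110730a0751987310475018730207419c7301874020741a07301c700014000014))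
(l (nat_lit 0x70147728078014782807720c771907820c7819073014752007501c77194772047700c77090782047809077184772887708c7711478184782887808c7811477284771107709477208771807800c78284700014000015))))
(n (nat_lit 4) (l (nat_lit 0x31187408c7309071014720a0731207209c7311c72014751007409c7411c7209870009900098209070005900058620c761907609476284760087628c761007619476090762047800878100700198041b300014000016))
(n (nat_lit 5) (l (nat_lit 0x6228f4021c8083d1187a238f0401e9023a09474038f4481e8c23d08c72018ec251d00c3a02072038e4061e0043a01072040f4261e9043d0a07a138f0481e0503c18476138f0261e08c3b098700013000017))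
(l (nat_lit 0x26000b6920005b458002da280016d12000b68e0005b468002da300016d04000d6808006b4140035a06001ad02000d68d0006b4600035b200012d1d000d68d8006b5c40035ade001ad6e000d6b60006b5d40035aee001ad73000d6bb0006b43c0025a1a0012d1100096860004b4380025a200012d0001d000018)))))
(n (nat_lit 9) (n (nat_lit 7) (l (nat_lit 0xe0000d6f10006b4b80035af6001ad7d000d6c88004b64c0025a0c0016d0a000b6840005b410002da040016d00000b6b80006b5b40035a3c0016d22000b6900005b4840035a46001ad1f000d68f0006b4880035a40001ad19000d68e0006b5d00035ae4001ad10000b6870005b430002da500016d0001d000019))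
(n (nat_lit 8) (l (nat_lit 0x9500096ca0004b6480025ac8001ad62000d6b00006b5940035af4001add9000d6ee0006b7740035bb6001adda000d6ec0006b4a8002da5c0016d2c000b6960006b4a80035a5e001ad2d000d6958006b4fc0025a820012ddf000d6f08006b4f80025a780012dde000d6f18006b5000025a7a0012d0001d00001a))
(l (nat_lit 0x9000d6838006b4200035a14001ad06000d6858006b4d00025a640012d3300096988004b4c00025a6a0012d6a000d6c40006b6140035b08001ad86000d6c48006b61c0035af0001ad79000d6be0006b79c0035bd2001ade6000d6f20006b7a00035bca001add5000d6eb8006b7500035ba4001ad0001d00001b))))
(n (nat_lit 10) (l (nat_lit 0x63000d6d00004b6780025b3a0012d9f00096d08004b6700025b8e001adca000d6880006b4380035a22001ad0100096818004b4140025a000012d0400096810004b4340035a1e001adec000d6f50006b7b80035bd6001adef000d6f68006b4500035a2a001ad12000d6898006b4580035a2e001ad0001d00001c))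
(n (nat_lit 11) (l (nat_lit 0x80000d6c10006b5f80035b02001ad7f000d6c18006b63c0035b14001ad8e000d6c60006b62c0035b1a001ad25000d6920006b4a00035a4c001ad27000d6948006b72c0035b92001add6000d6e98006b4000035a18001ad6b000d6b30006b5a40035ad0001ad67000d6e40006b7180035ac2001ad0001d00001d))
(l (nat_lit 0x86000002300000618000038c0000206000006300000018000028c0000106cc000d6e70006b7340035ba0001add1000d6e78006b7000035b8a001adc2000d6e20006b7040035b86001ad0001d00001e)))))))

theorem kt0 : ptz (Pool.Agent.P.MP_3f5ded_co.UG.B8.chk 319488) D (off (nat_lit 0) (fx ht0)) ta (nat_lit 116) (nat_lit 0) (nat_lit 373) = 0 := by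
  decide +kernel

end

end Pool.Agent.P.MP_3f5ded_co.R.B8s319488
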