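import Pool.Agent.P.MP_3f5ded_co.PRup
import Pool.Agent.P.MP_3f5ded_co.B8s131078T0
import Pool.Agent.P.MP_3f5ded_co.B8s131078R1
import Pool.Agent.P.MP_3f5ded_co.B8s131078R2
import Pool.Agent.P.MP_3f5ded_co.B8s131190T0
import Pool.Agent.P.MP_3f5ded_co.B8s131190R1
import Pool.Agent.P.MP_3f5ded_co.B8s131190R2
import Pool.Agent.P.MP_3f5ded_co.B8s163845T0
import Pool.Agent.P.MP_3f5ded_co.B8s163845R1
import Pool.Agent.P.MP_3f5ded_co.B8s163845R2
import Pool.Agent.P.MP_3f5ded_co.B8s180244T0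
import Pool.Agent.P.MP_3f5ded_co.B8s180244R1
import Pool.Agent.P.MP_3f5ded_co.B8s180244R2
import Pool.Agent.P.MP_3f5ded_co.B8s180612T0
import Pool.Agent.P.MP_3f5ded_co.B8s180612R1
import Pool.Agent.P.MP_3f5ded_co.B8s180612R2
import Pool.Agent.P.MP_3f5ded_co.B8s253969T0
import Pool.Agent.P.MP_3f5ded_co.B8s253969R1
import Pool.Agent.P.MP_3f5ded_co.B8s253969R2
import Pool.Agent.P.MP_3f5ded_co.B8s253969R3
import Pool.Agent.P.MP_3f5ded_co.B8s254345T0
import Pool.Agent.P.MP_3f5ded_co.B8s254345R1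
import Pool.Agent.P.MP_3f5ded_co.B8s254345R2
import Pool.Agent.P.MP_3f5ded_co.B8s254995T0
import Pool.Agent.P.MP_3f5ded_co.B8s254995R1
import Pool.Agent.P.MP_3f5ded_co.B8s254995R2
import Pool.Agent.P.MP_3f5ded_co.B8s254995R3
import Pool.Agent.P.MP_3f5ded_co.B8s255371T0
import Pool.Agent.P.MP_3f5ded_co.B8s255371R1
import Pool.Agent.P.MP_3f5ded_co.B8s255371R2
import Pool.Agent.P.MP_3f5ded_co.B8s259072T0
import Pool.Agent.P.MP_3f5ded_co.B8s259072R1
import Pool.Agent.P.MP_3f5ded_co.B8s259112T0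
import Pool.Agent.P.MP_3f5ded_co.B8s259112R1
import Pool.Agent.P.MP_3f5ded_co.B8s259192T0
import Pool.Agent.P.MP_3f5ded_co.B8s259192R1
import Pool.Agent.P.MP_3f5ded_co.B8s259594T0
import Pool.Agent.P.MP_3f5ded_co.B8s259594R1
import Pool.Agent.P.MP_3f5ded_co.B8s259802T0
import Pool.Agent.P.MP_3f5ded_co.B8s259802R1
import Pool.Agent.P.MP_3f5ded_co.B8s319488T0
import Pool.Agent.P.MP_3f5ded_co.B8s319488R1
import Pool.Agent.P.MP_3f5ded_co.B8s65024T0
import Pool.Agent.P.MP_3f5ded_co.B8s65024R1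

set_option autoImplicit false

namespace Pool.Agent.P.MP_3f5ded_co.R.B8s131078

open RRup T

noncomputable section

variable {C : Type} {V : C → Prop} {W : C → Nat → Prop}

theorem done (h0 : ∀ x, V x → W x 0)
    (Hth : ∀ c h, (Pool.Agent.P.MP_3f5ded_co.UG.B8.chk 131078) c h = 0 → Univ V W c) :
    ∀ x, ¬ V x := by
  have t : ta 0 % 524288 = 0 := by decide +kernel
  have ut0 : UpD V W ta 2060 D 3999 := ptz_ok Hth kt0 UpD.zero
  have u1 : UpD V W ta 2060 D 6311 := pblk_ok h0 t (by decide) k1 ut0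
  have u2 : UpD V W ta 2060 D 12594 := pblk_ok h0 t (by decide) k2 u1
  exact UpD.empty (z := 12593) u2 (by decide +kernel)

end

end Pool.Agent.P.MP_3f5ded_co.R.B8s131078

namespace Pool.Agent.P.MP_3f5ded_co.R.B8s131190

open RRup T

noncomputable section

variable {C : Type} {V : C → Prop} {W : C → Nat → Prop}

theorem done (h0 : ∀ x, V x → W x 0)
    (Hth : ∀ c h, (Pool.Agent.P.MP_3f5ded_co.UG.B8.chk 131190) c h = 0 → Univ V W c) :
    ∀ x, ¬ V x := by
  have t : ta 0 % 524288 = 0 := by decide +kernel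
  have ut0 : UpD V W ta 1910 D 3004 := ptz_ok Hth kt0 UpD.zero
  have u1 : UpD V W ta 1910 D 4865 := pblk_ok h0 t (by decide) k1 ut0
  have u2 : UpD V W ta 1910 D 6525 := pblk_ok h0 t (by decide) k2 u1
  exact UpD.empty (z := 6524) u2 (by decide +kernel)

end

end Pool.Agent.P.MP_3f5ded_co.R.B8s131190

namespace Pool.Agent.P.MP_3f5ded_co.R.B8s163845

open RRup T

noncomputable section

variable {C : Type} {V : C → Prop} {W : C → Nat → Prop}

theorem done (h0 : ∀ x, V x → W x 0)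
    (Hth : ∀ c h, (Pool.Agent.P.MP_3f5ded_co.UG.B8.chk 163845) c h = 0 → Univ V W c) :
    ∀ x, ¬ V x := by
  have t : ta 0 % 524288 = 0 := by decide +kernel
  have ut0 : UpD V W ta 2052 D 3982 := ptz_ok Hth kt0 UpD.zero
  have u1 : UpD V W ta 2052 D 6198 := pblk_ok h0 t (by decide) k1 ut0
  have u2 : UpD V W ta 2052 D 10205 := pblk_ok h0 t (by decide) k2 u1
  exact UpD.empty (z := 10204) u2 (by decide +kernel)

end

end Pool.Agent.P.MP_3f5ded_co.R.B8s163845

namespace Pool.Agent.P.MP_3f5ded_co.R.B8s180244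

open RRup T

noncomputable section

variable {C : Type} {V : C → Prop} {W : C → Nat → Prop}

theorem done (h0 : ∀ x, V x → W x 0)
    (Hth : ∀ c h, (Pool.Agent.P.MP_3f5ded_co.UG.B8.chk 180244) c h = 0 → Univ V W c) :
    ∀ x, ¬ V x := by
  have t : ta 0 % 524288 = 0 := by decide +kernel
  have ut0 : UpD V W ta 2180 D 4150 := ptz_ok Hth kt0 UpD.zero
  have u1 : UpD V W ta 2180 D 6438 := pblk_ok h0 t (by decide) k1 ut0
  have u2 : UpD V W ta 2180 D 12442 := pblk_ok h0 t (by decide) k2 u1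
  exact UpD.empty (z := 12441) u2 (by decide +kernel)

end

end Pool.Agent.P.MP_3f5ded_co.R.B8s180244

namespace Pool.Agent.P.MP_3f5ded_co.R.B8s180612

open RRup T

noncomputable section

variable {C : Type} {V : C → Prop} {W : C → Nat → Prop}

theorem done (h0 : ∀ x, V x → W x 0)
    (Hth : ∀ c h, (Pool.Agent.P.MP_3f5ded_co.UG.B8.chk 180612) c h = 0 → Univ V W c) :
    ∀ x, ¬ V x := by
  have t : ta 0 % 524288 = 0 := by decide +kernel
  have ut0 : UpD V W ta 1748 D 2928 := ptz_ok Hth kt0 UpD.zero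
  have u1 : UpD V W ta 1748 D 4759 := pblk_ok h0 t (by decide) k1 ut0
  have u2 : UpD V W ta 1748 D 5943 := pblk_ok h0 t (by decide) k2 u1
  exact UpD.empty (z := 5942) u2 (by decide +kernel)

end

end Pool.Agent.P.MP_3f5ded_co.R.B8s180612

namespace Pool.Agent.P.MP_3f5ded_co.R.B8s253969

open RRup T

noncomputable section

variable {C : Type} {V : C → Prop} {W : C → Nat → Prop}

theorem done (h0 : ∀ x, V x → W x 0)
    (Hth : ∀ c h, (Pool.Agent.P.MP_3f5ded_co.UG.B8.chk 253969) c h = 0 → Univ V W c) :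
    ∀ x, ¬ V x := by
  have t : ta 0 % 524288 = 0 := by decide +kernel
  have ut0 : UpD V W ta 2464 D 5776 := ptz_ok Hth kt0 UpD.zero
  have u1 : UpD V W ta 2464 D 8160 := pblk_ok h0 t (by decide) k1 ut0
  have u2 : UpD V W ta 2464 D 13208 := pblk_ok h0 t (by decide) k2 u1
  have u3 : UpD V W ta 2464 D 16738 := pblk_ok h0 t (by decide) k3 u2
  exact UpD.empty (z := 16737) u3 (by decide +kernel)

end

end Pool.Agent.P.MP_3f5ded_co.R.B8s253969

namespace Pool.Agent.P.MP_3f5ded_co.R.B8s254345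

open RRup T

noncomputable section

variable {C : Type} {V : C → Prop} {W : C → Nat → Prop}

theorem done (h0 : ∀ x, V x → W x 0)
    (Hth : ∀ c h, (Pool.Agent.P.MP_3f5ded_co.UG.B8.chk 254345) c h = 0 → Univ V W c) :
    ∀ x, ¬ V x := by
  have t : ta 0 % 524288 = 0 := by decide +kernel
  have ut0 : UpD V W ta 2446 D 4957 := ptz_ok Hth kt0 UpD.zero
  have u1 : UpD V W ta 2446 D 7127 := pblk_ok h0 t (by decide) k1 ut0
  have u2 : UpD V W ta 2446 D 10714 := pblk_ok h0 t (by decide) k2 u1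
  exact UpD.empty (z := 10713) u2 (by decide +kernel)

end

end Pool.Agent.P.MP_3f5ded_co.R.B8s254345

namespace Pool.Agent.P.MP_3f5ded_co.R.B8s254995

open RRup T

noncomputable section

variable {C : Type} {V : C → Prop} {W : C → Nat → Prop}

theorem done (h0 : ∀ x, V x → W x 0)
    (Hth : ∀ c h, (Pool.Agent.P.MP_3f5ded_co.UG.B8.chk 254995) c h = 0 → Univ V W c) :
    ∀ x, ¬ V x := by
  have t : ta 0 % 524288 = 0 := by decide +kernel
  have ut0 : UpD V W ta 2770 D 5772 := ptz_ok Hth kt0 UpD.zero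
  have u1 : UpD V W ta 2770 D 8274 := pblk_ok h0 t (by decide) k1 ut0
  have u2 : UpD V W ta 2770 D 12447 := pblk_ok h0 t (by decide) k2 u1
  have u3 : UpD V W ta 2770 D 15328 := pblk_ok h0 t (by decide) k3 u2
  exact UpD.empty (z := 15327) u3 (by decide +kernel)

end

end Pool.Agent.P.MP_3f5ded_co.R.B8s254995

namespace Pool.Agent.P.MP_3f5ded_co.R.B8s255371

open RRup T

noncomputable section

variable {C : Type} {V : C → Prop} {W : C → Nat → Prop}

theorem done (h0 : ∀ x, V x → W x 0)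
    (Hth : ∀ c h, (Pool.Agent.P.MP_3f5ded_co.UG.B8.chk 255371) c h = 0 → Univ V W c) :
    ∀ x, ¬ V x := by
  have t : ta 0 % 524288 = 0 := by decide +kernel
  have ut0 : UpD V W ta 2636 D 5040 := ptz_ok Hth kt0 UpD.zero
  have u1 : UpD V W ta 2636 D 7204 := pblk_ok h0 t (by decide) k1 ut0
  have u2 : UpD V W ta 2636 D 10114 := pblk_ok h0 t (by decide) k2 u1
  exact UpD.empty (z := 10113) u2 (by decide +kernel)

end

end Pool.Agent.P.MP_3f5ded_co.R.B8s255371

namespace Pool.Agent.P.MP_3f5ded_co.R.B8s259072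

open RRup T

noncomputable section

variable {C : Type} {V : C → Prop} {W : C → Nat → Prop}

theorem done (h0 : ∀ x, V x → W x 0)
    (Hth : ∀ c h, (Pool.Agent.P.MP_3f5ded_co.UG.B8.chk 259072) c h = 0 → Univ V W c) :
    ∀ x, ¬ V x := by
  have t : ta 0 % 524288 = 0 := by decide +kernel
  have ut0 : UpD V W ta 2016 D 4044 := ptz_ok Hth kt0 UpD.zero
  have u1 : UpD V W ta 2016 D 5886 := pblk_ok h0 t (by decide) k1 ut0
  exact UpD.empty (z := 5885) u1 (by decide +kernel)

end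

end Pool.Agent.P.MP_3f5ded_co.R.B8s259072

namespace Pool.Agent.P.MP_3f5ded_co.R.B8s259112

open RRup T

noncomputable section

variable {C : Type} {V : C → Prop} {W : C → Nat → Prop}

theorem done (h0 : ∀ x, V x → W x 0)
    (Hth : ∀ c h, (Pool.Agent.P.MP_3f5ded_co.UG.B8.chk 259112) c h = 0 → Univ V W c) :
    ∀ x, ¬ V x := by
  have t : ta 0 % 524288 = 0 := by decide +kernel
  have ut0 : UpD V W ta 1772 D 3569 := ptz_ok Hth kt0 UpD.zero
  have u1 : UpD V W ta 1772 D 4921 := pblk_ok h0 t (by decide) k1 ut0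
  exact UpD.empty (z := 4920) u1 (by decide +kernel)

end

end Pool.Agent.P.MP_3f5ded_co.R.B8s259112

namespace Pool.Agent.P.MP_3f5ded_co.R.B8s259192

open RRup T

noncomputable section

variable {C : Type} {V : C → Prop} {W : C → Nat → Prop}

theorem done (h0 : ∀ x, V x → W x 0)
    (Hth : ∀ c h, (Pool.Agent.P.MP_3f5ded_co.UG.B8.chk 259192) c h = 0 → Univ V W c) :
    ∀ x, ¬ V x := by
  have t : ta 0 % 524288 = 0 := by decide +kernel
  have ut0 : UpD V W ta 2102 D 2553 := ptz_ok Hth kt0 UpD.zero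
  have u1 : UpD V W ta 2102 D 3366 := pblk_ok h0 t (by decide) k1 ut0
  exact UpD.empty (z := 3365) u1 (by decide +kernel)

end

end Pool.Agent.P.MP_3f5ded_co.R.B8s259192

namespace Pool.Agent.P.MP_3f5ded_co.R.B8s259594

open RRup T

noncomputable section

variable {C : Type} {V : C → Prop} {W : C → Nat → Prop}

theorem done (h0 : ∀ x, V x → W x 0)
    (Hth : ∀ c h, (Pool.Agent.P.MP_3f5ded_co.UG.B8.chk 259594) c h = 0 → Univ V W c) :
    ∀ x, ¬ V x := by
  have t : ta 0 % 524288 = 0 := by decide +kernel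
  have ut0 : UpD V W ta 2476 D 4872 := ptz_ok Hth kt0 UpD.zero
  have u1 : UpD V W ta 2476 D 7394 := pblk_ok h0 t (by decide) k1 ut0
  exact UpD.empty (z := 7393) u1 (by decide +kernel)

end

end Pool.Agent.P.MP_3f5ded_co.R.B8s259594

namespace Pool.Agent.P.MP_3f5ded_co.R.B8s259802

open RRup T

noncomputable section

variable {C : Type} {V : C → Prop} {W : C → Nat → Prop}

theorem done (h0 : ∀ x, V x → W x 0)
    (Hth : ∀ c h, (Pool.Agent.P.MP_3f5ded_co.UG.B8.chk 259802) c h = 0 → Univ V W c) :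
    ∀ x, ¬ V x := by
  have t : ta 0 % 524288 = 0 := by decide +kernel
  have ut0 : UpD V W ta 1772 D 1886 := ptz_ok Hth kt0 UpD.zero
  have u1 : UpD V W ta 1772 D 2306 := pblk_ok h0 t (by decide) k1 ut0
  exact UpD.empty (z := 2305) u1 (by decide +kernel)

end

end Pool.Agent.P.MP_3f5ded_co.R.B8s259802

namespace Pool.Agent.P.MP_3f5ded_co.R.B8s319488

open RRup T

noncomputable section

variable {C : Type} {V : C → Prop} {W : C → Nat → Prop}

theorem done (h0 : ∀ x, V x → W x 0)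
    (Hth : ∀ c h, (Pool.Agent.P.MP_3f5ded_co.UG.B8.chk 319488) c h = 0 → Univ V W c) :
    ∀ x, ¬ V x := by
  have t : ta 0 % 524288 = 0 := by decide +kernel
  have ut0 : UpD V W ta 116 D 373 := ptz_ok Hth kt0 UpD.zero
  have u1 : UpD V W ta 116 D 538 := pblk_ok h0 t (by decide) k1 ut0
  exact UpD.empty (z := 537) u1 (by decide +kernel)

end

end Pool.Agent.P.MP_3f5ded_co.R.B8s319488

namespace Pool.Agent.P.MP_3f5ded_co.R.B8s65024

open RRup T

noncomputable section

variable {C : Type} {V : C → Prop} {W : C → Nat → Prop}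

theorem done (h0 : ∀ x, V x → W x 0)
    (Hth : ∀ c h, (Pool.Agent.P.MP_3f5ded_co.UG.B8.chk 65024) c h = 0 → Univ V W c) :
    ∀ x, ¬ V x := by
  have t : ta 0 % 524288 = 0 := by decide +kernel
  have ut0 : UpD V W ta 442 D 3525 := ptz_ok Hth kt0 UpD.zero
  have u1 : UpD V W ta 442 D 5161 := pblk_ok h0 t (by decide) k1 ut0
  exact UpD.empty (z := 5160) u1 (by decide +kernel)

end

end Pool.Agent.P.MP_3f5ded_co.R.B8s65024

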