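import Pool.Agent.P.MP_3f5ded_co.ULDefs

set_option autoImplicit false

namespace Pool.Agent.P.MP_3f5ded_co.UG

namespace B8

/-- The partner of a port. -/
def pa : Fin 6 → Fin 6 := ![1, 0, 3, 2, 5, 4]

/-- The vertex of a port. -/
def vx : Fin 6 → Fin 9 := ![0, 1, 2, 3, 4, 5]

/-- The three missing edges `01`, `23`, `45` of the block on nine vertices. -/
def Mis (x y : Fin 9) : Prop := x.1 < 6 ∧ x.1 / 2 = y.1 / 2

instance (x y : Fin 9) : Decidable (Mis x y) := by unfold Mis; infer_instance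

/-- A colouring of the block, ports included: `C x y` is the colour at `x` of the edge `xy`, or of
the port of `x` when `xy` is missing. -/
structure Cl (r : ℝ) (C : Fin 9 → Fin 9 → ℝ) : Prop where
  sym : ∀ x y, y ≠ x → ¬ Mis x y → Cg r (C x y) (C y x)
  far : ∀ x y y', y ≠ x → y' ≠ x → y ≠ y' → Far r (C x y) (C x y')

/-- Six ports on a helix that winds twice, with steps `2, 2, 2, 2, 2, 7`; partners are three steps
apart. -/
def R6 (r : ℝ) (x : Fin 6 → ℝ) : Prop :=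
  ∃ (p : Fin 6 → Fin 6) (y : Fin 6 → ℝ), Function.Injective p ∧ p 3 = pa (p 0) ∧ p 4 = pa (p 1) ∧
    p 5 = pa (p 2) ∧ (∀ i, Cg r (x (p i)) (y i)) ∧ y 0 + 2 ≤ y 1 ∧ y 1 + 2 ≤ y 2 ∧
    y 2 + 2 ≤ y 3 ∧ y 3 + 2 ≤ y 4 ∧ y 4 + 2 ≤ y 5 ∧ y 5 + 7 ≤ y 0 + 2 * r

/-- Rigidity of the block. -/
def Rigid : Prop :=
  ∀ (r : ℝ) (C : Fin 9 → Fin 9 → ℝ), 1 ≤ r → r < 9 → Cl r C → R6 r fun p => C (vx p) (vx (pa p))

end B8

end Pool.Agent.P.MP_3f5ded_co.UG
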