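import Pool.Agent.P.MP_3f5ded_co.B8Lab
import Pool.Agent.P.MP_3f5ded_co.U8Defs

set_option autoImplicit false

namespace Pool.Agent.P.MP_3f5ded_co.UG.B8

open Finset

/-- A number for each item. -/
def idn (v w : ℕ) : ℕ := if Ed v w ∧ w < v then 9 * w + v else 9 * v + w

open Classical in
/-- Times from reals, ties being broken. -/
noncomputable def rk (f : ℕ → ℕ → ℝ) (v w : ℕ) : ℤ :=
  100 * (((range 9 ×ˢ range 9).filter fun p => f p.1 p.2 < f v w).card : ℤ) + idn v w

lemma idn_lt {v w : ℕ} (h : It v w) : idn v w < 100 := by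
  unfold idn It at *
  split_ifs <;> omega

lemma rk_lt {f : ℕ → ℕ → ℝ} {v w a b : ℕ} (h : It v w) (e : f v w < f a b) : rk f v w < rk f a b := by
  classical
  have := idn_lt h
  have : ((range 9 ×ˢ range 9).filter fun p => f p.1 p.2 < f v w).card <
      ((range 9 ×ˢ range 9).filter fun p => f p.1 p.2 < f a b).card :=
    card_lt_card ⟨fun p x => mem_filter.2 ⟨(mem_filter.1 x).1, (mem_filter.1 x).2.trans e⟩, fun x =>
      lt_irrefl _ (mem_filter.1 (@x (v, w) (mem_filter.2 ⟨by simp [h.1, h.2.1], e⟩))).2⟩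
  unfold rk
  omega

lemma valid_of {r : ℝ} (r9 : r < 9) (φ : ℕ → ℕ → ℝ) (h0 : ∀ v w, 0 ≤ φ v w) (h1 : ∀ v w, φ v w < 1)
    (sym : ∀ v w, Ed v w → φ v w = φ w v)
    (sep : ∀ v w z, It v w → It v z → w ≠ z → φ v w ≤ φ v z →
      r * φ v w + 1 ≤ r * φ v z ∧ r * φ v z + 1 ≤ r * φ v w + r)
    (n : ¬ Con r fun v => r * φ v (pr v)) (r0 : 0 < r) : ∃ L, Valid r L := by
  have fl : ∀ v w, ((⌊9 * φ v w⌋₊ : ℕ) : ℝ) ≤ 9 * φ v w ∧ 9 * φ v w < ⌊9 * φ v w⌋₊ + 1 := fun v w =>
    ⟨Nat.floor_le (by have := h0 v w; positivity), Nat.lt_floor_add_one _⟩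
  have sp : ∀ v w z, It v w → It v z → w ≠ z → φ v w ≤ φ v z →
      9 * φ v w + 1 < 9 * φ v z ∧ 9 * φ v z + 1 < 9 * φ v w + 9 := fun v w z a b c d => by
    obtain ⟨x, y⟩ := sep v w z a b c d
    have p : φ v w < φ v z := lt_of_mul_lt_mul_left (a := r) (by linarith) r0.le
    have := h0 v w
    have := h1 v z
    constructor <;> nlinarith
  have lt : ∀ v w, ⌊9 * φ v w⌋₊ < 9 := fun v w =>
    (Nat.floor_lt' (by norm_num)).2 (by have := h1 v w; push_cast; linarith)
  refine ⟨⟨fun v w => ⌊9 * φ v w⌋₊, rk fun v w => 9 * φ v w - ⌊9 * φ v w⌋₊, fun v w => r * φ v w⟩, ?_⟩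
  constructor
  · exact fun v w _ => lt v w
  · intro v w a
    simp only [sym v w a]
  · intro v w a
    have : idn v w = idn w v := by
      have := a.2.2.1
      simp only [idn, a, a.symm, true_and]
      split_ifs <;> omega
    simp only [rk, sym v w a, this]
  · intro v w a
    simp only [sym v w a]
  · intro v w z a b e
    by_contra c
    have x := fl v w
    have y := fl v z
    dsimp only at e
    rw [e] at x
    rcases le_total (φ v w) (φ v z) with d | d
    · linarith [(sp v w z a b c d).1]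
    · linarith [(sp v z w b a (Ne.symm c) d).1]
  · intro v w z a b e
    dsimp only at e ⊢
    have l := lt v w
    have c : w ≠ z := fun c => by
      rw [c] at e l
      omega
    have x := fl v w
    have y := fl v z
    refine rk_lt a ?_
    by_cases k : ⌊9 * φ v w⌋₊ = 8
    · rw [k] at e x ⊢
      rw [e] at y ⊢
      norm_num at x y ⊢
      rcases le_total (φ v w) (φ v z) with d | d
      · linarith
      · linarith [(sp v z w b a c.symm d).2]
    · rw [Nat.mod_eq_of_lt (by omega)] at e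
      rw [e] at y ⊢
      push_cast at y ⊢
      rcases le_total (φ v w) (φ v z) with d | d
      · linarith [(sp v w z a b c d).1]
      · linarith
  · intro v w a b i1 i2 e
    have := idn_lt i1
    have := idn_lt i2
    have : idn v w = idn a b := by
      simp only [rk] at e
      omega
    unfold idn at this
    unfold It Ed at *
    split_ifs at this <;> omega
  · intro v w z a b e
    refine sep v w z a b (fun c => by rw [c] at e; exact lt_irrefl _ e) (not_lt.1 fun d => ?_)
    exact absurd (Nat.floor_le_floor (show 9 * φ v z ≤ 9 * φ v w by linarith)) (not_le.2 e)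
  · exact n

theorem rigid_of (H : ∀ r L, ¬ Valid r L) : Rigid := fun r C r1 r9 h => by
  by_contra n
  have r0 : 0 < r := by linarith
  let F : ℕ → Fin 9 := Fin.ofNat 9
  have hF : ∀ v, v < 9 → (F v).1 = v := fun v hv => Nat.mod_eq_of_lt hv
  have ne : ∀ v w, v < 9 → w < 9 → v ≠ w → F v ≠ F w := fun v w a b c e =>
    c (by rw [← hF v a, e, hF w b])
  have dec : ∀ x : ℝ, x = r * Int.fract (x / r) + (⌊x / r⌋ : ℤ) * r := fun x => by
    rw [Int.fract]
    field_simp
    ring
  obtain ⟨L, hL⟩ := valid_of r9 (fun v w => Int.fract (C (F v) (F w) / r)) (fun _ _ => Int.fract_nonneg _)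
    (fun _ _ => Int.fract_lt_one _) (fun v w a => by
      obtain ⟨k, e⟩ := h.sym (F v) (F w) (ne _ _ a.2.1 a.1 a.2.2.1.symm) (by
        rw [Mis, hF v a.1, hF w a.2.1]
        have := a.2.2.2
        omega)
      rw [e, add_div, mul_div_cancel_right₀ _ r0.ne', Int.fract_add_intCast])
    (fun v w z a b c d => by
      have f := h.far (F v) (F w) (F z) (ne _ _ a.2.1 a.1 a.2.2.symm) (ne _ _ b.2.1 b.1 b.2.2.symm)
        (ne _ _ a.2.1 b.2.1 c)
      have x := dec (C (F v) (F w))
      have y := dec (C (F v) (F z))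
      have f0 := f (⌊C (F v) (F w) / r⌋ - ⌊C (F v) (F z) / r⌋)
      have f1 := f (⌊C (F v) (F w) / r⌋ - ⌊C (F v) (F z) / r⌋ - 1)
      have := mul_le_mul_of_nonneg_left d r0.le
      have := mul_nonneg r0.le (Int.fract_nonneg (C (F v) (F w) / r))
      have := mul_lt_mul_of_pos_left (Int.fract_lt_one (C (F v) (F z) / r)) r0
      push_cast at f0 f1
      constructor
      · rcases le_abs'.1 f0 with t | t <;> linarith
      · rcases le_abs'.1 f1 with t | t <;> linarith)
    (fun ⟨a, b, c, k0, k1, k2, k3, k4, k5, ha, hb, hc, h1, h2, h3, i⟩ => n (by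
      have e : ∀ p : Fin 6, vx p = F p.1 ∧ vx (pa p) = F (pr p.1) ∧ (pa p).1 = pr p.1 := by decide
      have g : ∀ (p : Fin 6) (k : ℤ), Cg r (C (vx p) (vx (pa p)))
          (r * Int.fract (C (F p.1) (F (pr p.1)) / r) + k * r) := fun p k =>
        ⟨⌊C (F p.1) (F (pr p.1)) / r⌋ - k, by
          rw [(e p).1, (e p).2.1]
          have := dec (C (F p.1) (F (pr p.1)))
          push_cast
          linarith⟩
      have j : ∀ a b c : Fin 6, a.1 / 2 ≠ b.1 / 2 → a.1 / 2 ≠ c.1 / 2 → b.1 / 2 ≠ c.1 / 2 →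
          Function.Injective ![a, b, c, pa a, pa b, pa c] := by decide +kernel
      refine ⟨![⟨a, ha⟩, ⟨b, hb⟩, ⟨c, hc⟩, pa ⟨a, ha⟩, pa ⟨b, hb⟩, pa ⟨c, hc⟩], ![_, _, _, _, _, _],
        j _ _ _ h1 h2 h3, rfl, rfl, rfl, fun t => ?_, i⟩
      fin_cases t
      · exact g ⟨a, ha⟩ k0
      · exact g ⟨b, hb⟩ k1
      · exact g ⟨c, hc⟩ k2
      · have := g (pa ⟨a, ha⟩) k3
        rw [(e ⟨a, ha⟩).2.2] at this
        exact this
      · have := g (pa ⟨b, hb⟩) k4
        rw [(e ⟨b, hb⟩).2.2] at this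
        exact this
      · have := g (pa ⟨c, hc⟩) k5
        rw [(e ⟨c, hc⟩).2.2] at this
        exact this)) r0
  exact H r L hL

end Pool.Agent.P.MP_3f5ded_co.UG.B8
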