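import Pool.Agent.P.MP_3f5ded_co.B8Fam
import Pool.Agent.P.MP_3f5ded_co.B8Zero
import Pool.Agent.P.MP_3f5ded_co.B8Glue

set_option autoImplicit false

namespace Pool.Agent.P.MP_3f5ded_co.UG.B8

variable {r : ℝ} {s : ℕ}

lemma nof {i t : ℕ} (H : ∀ L, ¬ V r s L) (lf lp : List ℕ)
    (e : s % 8 = i ∧ s / 8 % 4 = t ∧ i < 7 ∧ ¬ bt s 18 = true ∧ (∀ t < 4, bt s (5 + t) = true → t ∈ lf) ∧
      ∀ i < 7, bt s (9 + i) = true → i ∈ lp)
    (hf : ∀ t ∈ lf, NoF r i t) (hp : ∀ i ∈ lp, NoP r i) (hl : bt s 16 = true → NoL r) : NoF r i t := by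
  obtain ⟨rfl, rfl, i7, lo, x, y⟩ := e
  intro L h p f
  obtain ⟨L', a, b, c, d⟩ := h.norm i7 (Nat.mod_lt _ (by norm_num)) p f
  exact H L' ⟨a, fun _ => ⟨i7, c, b, d⟩, fun t u v => hf t (x t u v), fun t u v => hp t (y t u v), hl,
    fun z => absurd z lo⟩

lemma nop {i u : ℕ} (l : List ℕ) (e : i < 7 ∧ ∀ t < 4, t ≠ u → t ∈ l) (hf : ∀ t ∈ l, NoF r i t) : NoP r i :=
  .of e.1 fun t a b => hf t (e.2 t a b)

lemma non (H : ∀ L, ¬ V r s L) (lp : List ℕ)
    (e : ¬ bt s 17 = true ∧ ¬ bt s 16 = true ∧ (∀ t < 4, ¬ bt s (5 + t) = true) ∧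
      ∀ i < 7, bt s (9 + i) = true → i ∈ lp) (hp : ∀ i ∈ lp, NoP r i) (L : Lab) (h : Valid r L)
    (lo : bt s 18 = true → (∀ w < 6, ¬ Tok L.col w 0) ∧
      ∀ v w, v < w → w < 9 → Tok L.col v 0 → ¬ Tok L.col w 0) : False :=
  H L ⟨h, fun x => absurd x e.1, fun t u v => absurd v (e.2.2.1 t u), fun t u v => hp t (e.2.2.2 t u v),
    fun x => absurd x e.2.1, lo⟩

theorem no_valid (r : ℝ) : ∀ L, ¬ Valid r L := by
  have f60 : NoF r 6 0 := nof (R.B8s131078.done (fun _ _ => W_zero) (sound r 131078)) [] []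
    (by decide +kernel) (List.forall_mem_nil _)
    (List.forall_mem_nil _)
    (fun x => absurd x (by decide +kernel))
  have f61 : NoF r 6 1 := f60.aut (by decide) (aut_ok (g := 73) (by decide)) (by decide +kernel) (by decide)
  have f62 : NoF r 6 2 := nof (R.B8s131190.done (fun _ _ => W_zero) (sound r 131190)) [0, 1] []
    (by decide +kernel) (List.forall_mem_cons.2 ⟨f60, List.forall_mem_cons.2 ⟨f61, List.forall_mem_nil _⟩⟩)
    (List.forall_mem_nil _)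
    (fun x => absurd x (by decide +kernel))
  have f63 : NoF r 6 3 := f62.aut (by decide) (aut_ok (g := 73) (by decide)) (by decide +kernel) (by decide)
  have p6 : NoP r 6 := nop (u := 3) [0, 1, 2] (by decide)
    (List.forall_mem_cons.2 ⟨f60, List.forall_mem_cons.2 ⟨f61, List.forall_mem_cons.2 ⟨f62, List.forall_mem_nil _⟩⟩⟩)
  have f50 : NoF r 5 0 := nof (R.B8s163845.done (fun _ _ => W_zero) (sound r 163845)) [] [6]
    (by decide +kernel) (List.forall_mem_nil _)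
    (List.forall_mem_cons.2 ⟨p6, List.forall_mem_nil _⟩)
    (fun x => absurd x (by decide +kernel))
  have f51 : NoF r 5 1 := f50.aut (by decide) (aut_ok (g := 72) (by decide)) (by decide +kernel) (by decide)
  have f52 : NoF r 5 2 := f50.aut (by decide) (aut_ok (g := 180) (by decide)) (by decide +kernel) (by decide)
  have p5 : NoP r 5 := nop (u := 3) [0, 1, 2] (by decide)
    (List.forall_mem_cons.2 ⟨f50, List.forall_mem_cons.2 ⟨f51, List.forall_mem_cons.2 ⟨f52, List.forall_mem_nil _⟩⟩⟩)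
  have f42 : NoF r 4 2 := nof (R.B8s180244.done (fun _ _ => W_zero) (sound r 180244)) [] [5, 6]
    (by decide +kernel) (List.forall_mem_nil _)
    (List.forall_mem_cons.2 ⟨p5, List.forall_mem_cons.2 ⟨p6, List.forall_mem_nil _⟩⟩)
    (fun x => absurd x (by decide +kernel))
  have f43 : NoF r 4 3 := f42.aut (by decide) (aut_ok (g := 7) (by decide)) (by decide +kernel) (by decide)
  have f40 : NoF r 4 0 := nof (R.B8s180612.done (fun _ _ => W_zero) (sound r 180612)) [2, 3] [5, 6]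
    (by decide +kernel) (List.forall_mem_cons.2 ⟨f42, List.forall_mem_cons.2 ⟨f43, List.forall_mem_nil _⟩⟩)
    (List.forall_mem_cons.2 ⟨p5, List.forall_mem_cons.2 ⟨p6, List.forall_mem_nil _⟩⟩)
    (fun x => absurd x (by decide +kernel))
  have f41 : NoF r 4 1 := f40.aut (by decide) (aut_ok (g := 36) (by decide)) (by decide +kernel) (by decide)
  have p4 : NoP r 4 := nop (u := 3) [0, 1, 2] (by decide)
    (List.forall_mem_cons.2 ⟨f40, List.forall_mem_cons.2 ⟨f41, List.forall_mem_cons.2 ⟨f42, List.forall_mem_nil _⟩⟩⟩)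
  have nl : NoL r := fun L h a b => non (R.B8s319488.done (fun _ _ => W_zero) (sound r 319488)) [4, 5, 6]
    (by decide +kernel) (List.forall_mem_cons.2 ⟨p4, List.forall_mem_cons.2 ⟨p5, List.forall_mem_cons.2 ⟨p6, List.forall_mem_nil _⟩⟩⟩) L h fun _ => ⟨a, b⟩
  have f12 : NoF r 1 2 := nof (R.B8s253969.done (fun _ _ => W_zero) (sound r 253969)) [] [4, 5, 6]
    (by decide +kernel) (List.forall_mem_nil _)
    (List.forall_mem_cons.2 ⟨p4, List.forall_mem_cons.2 ⟨p5, List.forall_mem_cons.2 ⟨p6, List.forall_mem_nil _⟩⟩⟩)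
    (fun _ => nl)
  have f13 : NoF r 1 3 := f12.aut (by decide) (aut_ok (g := 7) (by decide)) (by decide +kernel) (by decide)
  have f11 : NoF r 1 1 := nof (R.B8s254345.done (fun _ _ => W_zero) (sound r 254345)) [2, 3] [4, 5, 6]
    (by decide +kernel) (List.forall_mem_cons.2 ⟨f12, List.forall_mem_cons.2 ⟨f13, List.forall_mem_nil _⟩⟩)
    (List.forall_mem_cons.2 ⟨p4, List.forall_mem_cons.2 ⟨p5, List.forall_mem_cons.2 ⟨p6, List.forall_mem_nil _⟩⟩⟩)
    (fun _ => nl)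
  have p1 : NoP r 1 := nop (u := 0) [1, 2, 3] (by decide)
    (List.forall_mem_cons.2 ⟨f11, List.forall_mem_cons.2 ⟨f12, List.forall_mem_cons.2 ⟨f13, List.forall_mem_nil _⟩⟩⟩)
  have f32 : NoF r 3 2 := nof (R.B8s254995.done (fun _ _ => W_zero) (sound r 254995)) [] [1, 4, 5, 6]
    (by decide +kernel) (List.forall_mem_nil _)
    (List.forall_mem_cons.2 ⟨p1, List.forall_mem_cons.2 ⟨p4, List.forall_mem_cons.2 ⟨p5, List.forall_mem_cons.2 ⟨p6, List.forall_mem_nil _⟩⟩⟩⟩)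
    (fun _ => nl)
  have f33 : NoF r 3 3 := f32.aut (by decide) (aut_ok (g := 49) (by decide)) (by decide +kernel) (by decide)
  have f31 : NoF r 3 1 := nof (R.B8s255371.done (fun _ _ => W_zero) (sound r 255371)) [2, 3] [1, 4, 5, 6]
    (by decide +kernel) (List.forall_mem_cons.2 ⟨f32, List.forall_mem_cons.2 ⟨f33, List.forall_mem_nil _⟩⟩)
    (List.forall_mem_cons.2 ⟨p1, List.forall_mem_cons.2 ⟨p4, List.forall_mem_cons.2 ⟨p5, List.forall_mem_cons.2 ⟨p6, List.forall_mem_nil _⟩⟩⟩⟩)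
    (fun _ => nl)
  have p3 : NoP r 3 := nop (u := 0) [1, 2, 3] (by decide)
    (List.forall_mem_cons.2 ⟨f31, List.forall_mem_cons.2 ⟨f32, List.forall_mem_cons.2 ⟨f33, List.forall_mem_nil _⟩⟩⟩)
  have f00 : NoF r 0 0 := nof (R.B8s259072.done (fun _ _ => W_zero) (sound r 259072)) [] [1, 3, 4, 5, 6]
    (by decide +kernel) (List.forall_mem_nil _)
    (List.forall_mem_cons.2 ⟨p1, List.forall_mem_cons.2 ⟨p3, List.forall_mem_cons.2 ⟨p4, List.forall_mem_cons.2 ⟨p5, List.forall_mem_cons.2 ⟨p6, List.forall_mem_nil _⟩⟩⟩⟩⟩)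
    (fun _ => nl)
  have f01 : NoF r 0 1 := nof (R.B8s259112.done (fun _ _ => W_zero) (sound r 259112)) [0] [1, 3, 4, 5, 6]
    (by decide +kernel) (List.forall_mem_cons.2 ⟨f00, List.forall_mem_nil _⟩)
    (List.forall_mem_cons.2 ⟨p1, List.forall_mem_cons.2 ⟨p3, List.forall_mem_cons.2 ⟨p4, List.forall_mem_cons.2 ⟨p5, List.forall_mem_cons.2 ⟨p6, List.forall_mem_nil _⟩⟩⟩⟩⟩)
    (fun _ => nl)
  have f03 : NoF r 0 3 := nof (R.B8s259192.done (fun _ _ => W_zero) (sound r 259192)) [0, 1] [1, 3, 4, 5, 6]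
    (by decide +kernel) (List.forall_mem_cons.2 ⟨f00, List.forall_mem_cons.2 ⟨f01, List.forall_mem_nil _⟩⟩)
    (List.forall_mem_cons.2 ⟨p1, List.forall_mem_cons.2 ⟨p3, List.forall_mem_cons.2 ⟨p4, List.forall_mem_cons.2 ⟨p5, List.forall_mem_cons.2 ⟨p6, List.forall_mem_nil _⟩⟩⟩⟩⟩)
    (fun _ => nl)
  have p0 : NoP r 0 := nop (u := 2) [0, 1, 3] (by decide)
    (List.forall_mem_cons.2 ⟨f00, List.forall_mem_cons.2 ⟨f01, List.forall_mem_cons.2 ⟨f03, List.forall_mem_nil _⟩⟩⟩)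
  have f21 : NoF r 2 1 := nof (R.B8s259594.done (fun _ _ => W_zero) (sound r 259594)) [] [0, 1, 3, 4, 5, 6]
    (by decide +kernel) (List.forall_mem_nil _)
    (List.forall_mem_cons.2 ⟨p0, List.forall_mem_cons.2 ⟨p1, List.forall_mem_cons.2 ⟨p3, List.forall_mem_cons.2 ⟨p4, List.forall_mem_cons.2 ⟨p5, List.forall_mem_cons.2 ⟨p6, List.forall_mem_nil _⟩⟩⟩⟩⟩⟩)
    (fun _ => nl)
  have f22 : NoF r 2 2 := f21.aut (by decide) (aut_ok (g := 18) (by decide)) (by decide +kernel) (by decide)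
  have f23 : NoF r 2 3 := nof (R.B8s259802.done (fun _ _ => W_zero) (sound r 259802)) [1, 2] [0, 1, 3, 4, 5, 6]
    (by decide +kernel) (List.forall_mem_cons.2 ⟨f21, List.forall_mem_cons.2 ⟨f22, List.forall_mem_nil _⟩⟩)
    (List.forall_mem_cons.2 ⟨p0, List.forall_mem_cons.2 ⟨p1, List.forall_mem_cons.2 ⟨p3, List.forall_mem_cons.2 ⟨p4, List.forall_mem_cons.2 ⟨p5, List.forall_mem_cons.2 ⟨p6, List.forall_mem_nil _⟩⟩⟩⟩⟩⟩)
    (fun _ => nl)
  have p2 : NoP r 2 := nop (u := 0) [1, 2, 3] (by decide)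
    (List.forall_mem_cons.2 ⟨f21, List.forall_mem_cons.2 ⟨f22, List.forall_mem_cons.2 ⟨f23, List.forall_mem_nil _⟩⟩⟩)
  exact fun L h => non (R.B8s65024.done (fun _ _ => W_zero) (sound r 65024)) [0, 1, 2, 3, 4, 5, 6]
    (by decide +kernel) (List.forall_mem_cons.2 ⟨p0, List.forall_mem_cons.2 ⟨p1, List.forall_mem_cons.2 ⟨p2, List.forall_mem_cons.2 ⟨p3, List.forall_mem_cons.2 ⟨p4, List.forall_mem_cons.2 ⟨p5, List.forall_mem_cons.2 ⟨p6, List.forall_mem_nil _⟩⟩⟩⟩⟩⟩⟩) L h fun x => absurd x (by decide +kernel)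

/-- The block on nine vertices is rigid. -/
theorem rigid : Rigid := rigid_of no_valid

end Pool.Agent.P.MP_3f5ded_co.UG.B8
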