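import Mathlib
import Pool.Agent.P.MP_3f5ded_co.B8Chk

set_option autoImplicit false

namespace Pool.Agent.P.MP_3f5ded_co.UG.B8

open Finset

/-- `w` names an item (an edge or the port) at the vertex `v`. -/
def It (v w : ℕ) : Prop := v < 9 ∧ w < 9 ∧ v ≠ w

/-- `v w` is an edge of the block. -/
def Ed (v w : ℕ) : Prop := v < 9 ∧ w < 9 ∧ v ≠ w ∧ (6 ≤ v ∨ v / 2 ≠ w / 2)

instance (v w : ℕ) : Decidable (Ed v w) := by unfold Ed; infer_instance

lemma pr_eq (v : ℕ) : pr v = v + 1 - 2 * (v % 2) := rfl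

lemma nx_eq (c : ℕ) : nx c = (c + 1) % 9 := rfl

lemma Ed.it {v w : ℕ} (h : Ed v w) : It v w := ⟨h.1, h.2.1, h.2.2.1⟩

lemma Ed.symm {v w : ℕ} (h : Ed v w) : Ed w v := by unfold Ed at *; omega

lemma it_pr {v : ℕ} (h : v < 6) : It v (pr v) := by unfold It; rw [pr_eq]; omega

lemma It.cases {v w : ℕ} (h : It v w) : Ed v w ∨ (v < 6 ∧ w = pr v) := by
  unfold It Ed at *; rw [pr_eq]; omega

lemma Ed.ne_pr {v w : ℕ} (h : Ed v w) (hv : v < 6) : w ≠ pr v := by
  unfold Ed at *; rw [pr_eq]; omega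

lemma pr_pr (v : ℕ) : pr (pr v) = v := by simp only [pr_eq]; omega

/-- The conclusion: the six ports lie on a helix. -/
def Con (r : ℝ) (x : ℕ → ℝ) : Prop :=
  ∃ (a b c : ℕ) (k0 k1 k2 k3 k4 k5 : ℤ), a < 6 ∧ b < 6 ∧ c < 6 ∧ a / 2 ≠ b / 2 ∧ a / 2 ≠ c / 2 ∧
    b / 2 ≠ c / 2 ∧ x a + k0 * r + 2 ≤ x b + k1 * r ∧ x b + k1 * r + 2 ≤ x c + k2 * r ∧
    x c + k2 * r + 2 ≤ x (pr a) + k3 * r ∧ x (pr a) + k3 * r + 2 ≤ x (pr b) + k4 * r ∧
    x (pr b) + k4 * r + 2 ≤ x (pr c) + k5 * r ∧ x (pr c) + k5 * r + 7 ≤ x a + k0 * r + 2 * r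

lemma pr_lt {v : ℕ} (h : v < 6) : pr v < 6 := by rw [pr_eq]; omega

lemma pr_div (v : ℕ) : pr v / 2 = v / 2 := by rw [pr_eq]; omega

lemma Con.shift {r : ℝ} {x y : ℕ → ℝ} (h : Con r y) (m : ℕ → ℤ) (e : ∀ v, v < 6 → y v = x v + m v * r) :
    Con r x := by
  obtain ⟨a, b, c, k0, k1, k2, k3, k4, k5, ha, hb, hc, h1, h2, h3, h⟩ := h
  rw [e a ha, e b hb, e c hc, e _ (pr_lt ha), e _ (pr_lt hb), e _ (pr_lt hc)] at h
  refine ⟨a, b, c, k0 + m a, k1 + m b, k2 + m c, k3 + m (pr a), k4 + m (pr b), k5 + m (pr c),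
    ha, hb, hc, h1, h2, h3, ?_⟩
  push_cast
  obtain ⟨i1, i2, i3, i4, i5, i6⟩ := h
  refine ⟨?_, ?_, ?_, ?_, ?_, ?_⟩ <;> linarith

lemma Con.neg {r : ℝ} {x : ℕ → ℝ} (h : Con r fun v => -x v) : Con r x := by
  obtain ⟨a, b, c, k0, k1, k2, k3, k4, k5, ha, hb, hc, h1, h2, h3, i1, i2, i3, i4, i5, i6⟩ := h
  refine ⟨pr c, pr b, pr a, -k5, -k4, -k3, -k2, -k1, -k0, pr_lt hc, pr_lt hb, pr_lt ha, ?_, ?_, ?_, ?_⟩
  · simp only [pr_div]; omega
  · simp only [pr_div]; omega
  · simp only [pr_div]; omega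
  simp only [pr_pr]
  push_cast
  refine ⟨?_, ?_, ?_, ?_, ?_, ?_⟩ <;> linarith

/-- Colour, time and position of the items. -/
structure Lab where
  col : ℕ → ℕ → ℕ
  tm : ℕ → ℕ → ℤ
  ps : ℕ → ℕ → ℝ

/-- What a colouring with `r < 9` whose ports are not on a helix gives. -/
structure Valid (r : ℝ) (L : Lab) : Prop where
  lt : ∀ v w, It v w → L.col v w < 9
  csym : ∀ v w, Ed v w → L.col v w = L.col w v
  tsym : ∀ v w, Ed v w → L.tm v w = L.tm w v
  psym : ∀ v w, Ed v w → L.ps v w = L.ps w v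
  prop : ∀ v w z, It v w → It v z → L.col v w = L.col v z → w = z
  arc : ∀ v w z, It v w → It v z → L.col v z = (L.col v w + 1) % 9 → L.tm v w < L.tm v z
  inj : ∀ v w a b, It v w → It a b → L.tm v w = L.tm a b → (a = v ∧ b = w) ∨ (a = w ∧ b = v ∧ Ed v w)
  step : ∀ v w z, It v w → It v z → L.col v w < L.col v z →
    L.ps v w + 1 ≤ L.ps v z ∧ L.ps v z + 1 ≤ L.ps v w + r
  ncon : ¬ Con r fun v => L.ps v (pr v)

variable {r : ℝ} {L : Lab}

lemma bound (L : Lab) : ∃ B : ℤ, ∀ v w a b, It v w → It a b → L.tm a b < L.tm v w + B := by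
  refine ⟨1 + 2 * ∑ p ∈ range 9 ×ˢ range 9, |L.tm p.1 p.2|, fun v w a b h1 h2 => ?_⟩
  have e : ∀ v w, It v w → |L.tm v w| ≤ ∑ p ∈ range 9 ×ˢ range 9, |L.tm p.1 p.2| := fun v w h =>
    single_le_sum (f := fun p : ℕ × ℕ => |L.tm p.1 p.2|) (fun _ _ => abs_nonneg _)
      (show (v, w) ∈ _ from by simp [h.1, h.2.1])
  have := abs_le.1 (e v w h1)
  have := abs_le.1 (e a b h2)
  omega

open Classical in
/-- Move the origin: the early items go to the previous colour. -/
lemma Valid.recut (h : Valid r L) (Q : ℤ → Prop) (hQ : ∀ s t, s ≤ t → Q s → Q t) :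
    ∃ (L' : Lab) (B : ℤ), Valid r L' ∧ (∀ v w a b, It v w → It a b → L.tm a b < L.tm v w + B) ∧
      (∀ v w, L'.col v w = if Q (L.tm v w) then L.col v w else (L.col v w + 8) % 9) ∧
      ∀ v w, L'.tm v w = if Q (L.tm v w) then L.tm v w else L.tm v w + B := by
  obtain ⟨B, hB⟩ := bound L
  refine ⟨⟨fun v w => if Q (L.tm v w) then L.col v w else (L.col v w + 8) % 9,
    fun v w => if Q (L.tm v w) then L.tm v w else L.tm v w + B,
    fun v w => if ¬ Q (L.tm v w) ∧ L.col v w = 0 then L.ps v w + r else L.ps v w⟩, B, ?_, hB,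
    fun _ _ => rfl, fun _ _ => rfl⟩
  have key : ∀ v w z, It v w → It v z → Q (L.tm v w) → ¬ Q (L.tm v z) →
      L.col v w ≠ (L.col v z + 8) % 9 := fun v w z a b q1 q2 e => by
    have := h.lt v z b
    exact q2 (hQ _ _ (h.arc v w z a b (by omega)).le q1)
  constructor
  · intro v w a
    have := h.lt v w a
    dsimp only
    split_ifs <;> omega
  · intro v w a
    simp only [h.csym v w a, h.tsym v w a]
  · intro v w a
    simp only [h.tsym v w a]
  · intro v w a
    simp only [h.csym v w a, h.tsym v w a, h.psym v w a]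
  · intro v w z a b
    have := h.lt v w a
    have := h.lt v z b
    dsimp only
    split_ifs with q1 q2 q2
    · exact h.prop v w z a b
    · exact fun e => absurd e (key v w z a b q1 q2)
    · exact fun e => absurd e.symm (key v z w b a q2 q1)
    · exact fun e => h.prop v w z a b (by omega)
  · intro v w z a b
    have := h.lt v w a
    have := h.lt v z b
    have := hB v z v w b a
    dsimp only
    split_ifs with q1 q2 q2
    · exact h.arc v w z a b
    · intro e
      have := h.prop v w z a b (by omega)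
      subst this
      contradiction
    · intro _
      assumption
    · intro e
      have := h.arc v w z a b (by omega)
      omega
  · intro v w a b i1 i2
    have := hB v w a b i1 i2
    have := hB a b v w i2 i1
    dsimp only
    split_ifs
    · exact h.inj v w a b i1 i2
    · omega
    · omega
    · exact fun e => h.inj v w a b i1 i2 (by omega)
  · intro v w z a b
    have l1 := h.lt v w a
    have l2 := h.lt v z b
    have s1 := h.step v w z a b
    have s2 := h.step v z w b a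
    have p := h.prop v w z a b
    dsimp only
    intro e
    have ne : L.col v w ≠ L.col v z := fun x => by
      have := p x
      subst this
      omega
    by_cases q1 : Q (L.tm v w) <;> by_cases q2 : Q (L.tm v z) <;>
      by_cases z1 : L.col v w = 0 <;> by_cases z2 : L.col v z = 0 <;>
      simp only [q1, q2, z1, z2, if_true, if_false, not_true, not_false_iff,
        and_true, and_false] at e ⊢ <;>
      first
        | omega
        | exact s1 (by omega)
        | (have := s2 (by omega); constructor <;> linarith)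
  · intro c
    refine h.ncon (c.shift (fun v => if ¬ Q (L.tm v (pr v)) ∧ L.col v (pr v) = 0 then 1 else 0) fun v _ => ?_)
    dsimp only
    split_ifs <;> simp

lemma Valid.rot (h : Valid r L) (c : ℕ) :
    ∃ L', Valid r L' ∧ ∀ v w, It v w → (L'.col v w + c) % 9 = L.col v w := by
  induction c with
  | zero => exact ⟨L, h, fun v w a => Nat.mod_eq_of_lt (h.lt v w a)⟩
  | succ c ih =>
    obtain ⟨L1, h1, e1⟩ := ih
    obtain ⟨L2, B, h2, -, e2, -⟩ := h1.recut (fun _ => False) fun _ _ _ x => x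
    refine ⟨L2, h2, fun v w a => ?_⟩
    have := e1 v w a
    rw [e2, if_neg not_false]
    omega

/-- Reflection that fixes the colour zero. -/
lemma Valid.mir (h : Valid r L) :
    ∃ L', Valid r L' ∧ (∀ v w, L.col v w = 0 → L'.col v w = 0) ∧ ∀ v w, L'.tm v w = -L.tm v w := by
  refine ⟨⟨fun v w => (9 - L.col v w) % 9, fun v w => -L.tm v w,
    fun v w => if L.col v w = 0 then -L.ps v w - r else -L.ps v w⟩, ?_, fun v w e => by simp [e],
    fun _ _ => rfl⟩
  constructor
  · intro v w _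
    exact Nat.mod_lt _ (by norm_num)
  · intro v w a
    simp only [h.csym v w a]
  · intro v w a
    simp only [h.tsym v w a]
  · intro v w a
    simp only [h.csym v w a, h.psym v w a]
  · intro v w z a b e
    have := h.lt v w a
    have := h.lt v z b
    dsimp only at e
    exact h.prop v w z a b (by omega)
  · intro v w z a b e
    have := h.lt v w a
    have := h.lt v z b
    dsimp only at e ⊢
    have := h.arc v z w b a (by omega)
    omega
  · intro v w a b i1 i2 e
    exact h.inj v w a b i1 i2 (neg_injective e)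
  · intro v w z a b e
    have := h.lt v w a
    have := h.lt v z b
    have s1 := h.step v w z a b
    have s2 := h.step v z w b a
    dsimp only at e ⊢
    split_ifs
    · omega
    · have := s1 (by omega)
      constructor <;> linarith
    · omega
    · have := s2 (by omega)
      constructor <;> linarith
  · intro c
    refine h.ncon (Con.neg (c.shift (fun v => if L.col v (pr v) = 0 then -1 else 0) fun v _ => ?_))
    dsimp only
    split_ifs <;> simp [sub_eq_add_neg]

/-- Automorphisms of the block. -/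
def Aut (g : ℕ → ℕ) : Prop :=
  (∀ v < 9, g v < 9 ∧ (v < 6 → g v < 6 ∧ g (pr v) = pr (g v)) ∧ (6 ≤ v → 6 ≤ g v)) ∧
    ∀ v < 9, ∀ w < 9, g v = g w → v = w

lemma Aut.it {g : ℕ → ℕ} (h : Aut g) {v w : ℕ} (a : It v w) : It (g v) (g w) :=
  ⟨(h.1 v a.1).1, (h.1 w a.2.1).1, fun e => a.2.2 (h.2 v a.1 w a.2.1 e)⟩

lemma Aut.ed {g : ℕ → ℕ} (h : Aut g) {v w : ℕ} (a : It v w) : Ed (g v) (g w) ↔ Ed v w := by
  constructor
  · intro e
    rcases a.cases with x | ⟨x, rfl⟩
    · exact x
    · exact absurd ((h.1 v a.1).2.1 x).2 (e.ne_pr ((h.1 v a.1).2.1 x).1)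
  · intro e
    rcases (h.it a).cases with x | ⟨x, y⟩
    · exact x
    · have l : v < 6 := by
        by_contra n
        have := (h.1 v a.1).2.2 (by omega)
        omega
      rw [← ((h.1 v a.1).2.1 l).2] at y
      exact absurd (h.2 w a.2.1 _ (by have := pr_lt l; omega) y) (e.ne_pr l)

/-- The labelling read through an automorphism. -/
def Lab.act (L : Lab) (g : ℕ → ℕ) : Lab :=
  ⟨fun v w => L.col (g v) (g w), fun v w => L.tm (g v) (g w), fun v w => L.ps (g v) (g w)⟩

lemma Valid.act (h : Valid r L) {g : ℕ → ℕ} (hg : Aut g) : Valid r (L.act g) := by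
  constructor
  · exact fun v w a => h.lt _ _ (hg.it a)
  · exact fun v w a => h.csym _ _ ((hg.ed a.it).2 a)
  · exact fun v w a => h.tsym _ _ ((hg.ed a.it).2 a)
  · exact fun v w a => h.psym _ _ ((hg.ed a.it).2 a)
  · exact fun v w z a b e => hg.2 w a.2.1 z b.2.1 (h.prop _ _ _ (hg.it a) (hg.it b) e)
  · exact fun v w z a b e => h.arc _ _ _ (hg.it a) (hg.it b) e
  · intro v w a b i1 i2 e
    rcases h.inj _ _ _ _ (hg.it i1) (hg.it i2) e with ⟨x, y⟩ | ⟨x, y, z⟩
    · exact .inl ⟨hg.2 _ i2.1 _ i1.1 x, hg.2 _ i2.2.1 _ i1.2.1 y⟩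
    · exact .inr ⟨hg.2 _ i2.1 _ i1.2.1 x, hg.2 _ i2.2.1 _ i1.1 y, (hg.ed i1).1 z⟩
  · exact fun v w z a b e => h.step _ _ _ (hg.it a) (hg.it b) e
  · rintro ⟨a, b, c, k0, k1, k2, k3, k4, k5, ha, hb, hc, h1, h2, h3, i⟩
    have e : ∀ a b, a < 6 → b < 6 → a / 2 ≠ b / 2 → g a / 2 ≠ g b / 2 := fun a b ha hb x => by
      have := (hg.ed (v := a) (w := b) (by unfold It; omega)).2 (by unfold Ed; omega)
      have := ((hg.1 a (by omega)).2.1 ha).1
      unfold Ed at *
      omega
    have f : ∀ a, a < 6 → g (pr a) = pr (g a) := fun a ha => ((hg.1 a (by omega)).2.1 ha).2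
    have l : ∀ a, a < 6 → g a < 6 := fun a ha => ((hg.1 a (by omega)).2.1 ha).1
    refine h.ncon ⟨g a, g b, g c, k0, k1, k2, k3, k4, k5, l a ha, l b hb, l c hc, e a b ha hb h1,
      e a c ha hc h2, e b c hb hc h3, ?_⟩
    simpa only [Lab.act, pr_pr, f a ha, f b hb, f c hc] using i

end Pool.Agent.P.MP_3f5ded_co.UG.B8
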