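set_option autoImplicit false

namespace Pool.Agent.P.MP_3f5ded_co.RRup

/-! The tests that are evaluated on the certificates; they are proved sound in the next files. -/

/-- search trees of numbers -/
inductive T : Type
  | l : Nat → T
  | n : Nat → T → T → T

/-- search trees of search trees -/
inductive U : Type
  | e : T → U
  | f : Nat → U → U → U

/-- a function in a box -/
inductive Bo : Type
  | mk : (Nat → Nat) → Bo

/-- a long number is written in pieces of 2048 bits -/
def jn (a b : Nat) : Nat := Nat.add (Nat.shiftLeft a (nat_lit 2048)) b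

noncomputable section

/-- `8 f` applications of `s` -/
def itr {α : Type} (s : α → α) (z : α) (f : Nat) : α :=
  Nat.rec z (fun _ k => s (s (s (s (s (s (s (s k)))))))) f

/-- the set of small literals -/
def low (c : Nat) : Nat := Nat.mod c (nat_lit 72057594037927936)

/-- the other literals -/
def dig (c : Nat) : Nat := Nat.shiftRight c (nat_lit 56)

def memS (l : Nat) (k : Nat → Bool) (c : Nat) : Bool := Nat.rec (motive := fun _ => Bool) false
  (fun p _ => Bool.rec (k (Nat.div c (nat_lit 1048576))) true (Nat.beq (Nat.succ p) l)) (Nat.mod c (nat_lit 1048576))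

/-- membership of a literal in a clause -/
def memC (c l : Nat) : Bool := Bool.rec (itr (memS l) (fun _ => false) (nat_lit 128) (dig c)) true
  (Nat.beq (Nat.mod (Nat.shiftRight (low c) l) (nat_lit 2)) (nat_lit 1))

/-- union of the values at `n` indices from `b - 1` on -/
def lin (p : Nat → Nat) (b n : Nat) : Nat := Nat.rec (motive := fun _ => Nat) (nat_lit 0)
  (fun t ih => Nat.lor (Nat.rec (motive := fun _ => Nat) (nat_lit 1) (fun i _ => p i) (Nat.add b t)) ih) n

/-- union of the values at all indices in a range -/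
def allZ (p : Nat → Nat) (lo hi : Nat) : Nat := lin (fun a => (fun b => lin p (Nat.succ b)
  (Nat.sub (nat_lit 128) (Nat.sub (nat_lit 128) (Nat.sub hi b)))) (Nat.add lo (Nat.mul (nat_lit 128) a))) (nat_lit 1)
  (Nat.succ (Nat.div (Nat.sub hi lo) (nat_lit 128)))

/-- a clause of an earlier block, or one of the clauses `ow` to be proved -/
def cl (D ow : Nat → Nat) (m z : Nat) : Nat := Nat.rec (motive := fun _ => Nat) (D z)
  (fun j _ => ow j) (Nat.sub (Nat.succ z) m)

/-- the digits of clause `q / kp`, the one at place `q % kp` being moved to the end -/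
def rm (C : Nat → Nat) (kp q : Nat) : Nat :=
  (fun d s => (fun x => Nat.add (Nat.shiftLeft (Nat.add (Nat.mod d (Nat.shiftLeft (nat_lit 1) s))
      (Nat.shiftLeft (Nat.shiftRight d (Nat.add s (nat_lit 20))) s)) (nat_lit 20)) (Nat.add x (Nat.sub (nat_lit 1) x)))
    (Nat.mod (Nat.shiftRight d s) (nat_lit 1048576))) (dig (C (Nat.div q kp))) (Nat.mul (nat_lit 20) (Nat.mod q kp))

/-- the clauses that contain the set `F` -/
def sup (ow : Nat → Nat) (F n : Nat) : Nat := allZ (fun i => Nat.shiftLeft
  (Nat.sub (nat_lit 1) (Nat.xor (Nat.lor F (low (ow i))) (low (ow i)))) (Nat.succ i)) (nat_lit 0) n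

/-- clauses that contain the small literal `x` -/
def col (ow oc : Nat → Nat) (F n x : Nat) : Nat :=
  itr (fun k h W => Nat.rec (motive := fun _ => Nat) W (fun i _ => k (Nat.div h n) (Nat.lor W
    (Nat.shiftLeft (Nat.mod (Nat.shiftRight (low (ow i)) x) (nat_lit 2)) (Nat.succ i)))) (Nat.mod h n))
    (fun _ W => W) (nat_lit 100000) (oc x) (Nat.mul (Nat.mod (Nat.shiftRight F x) (nat_lit 2)) (sup ow F n))

/-- clauses that contain the set `S` -/
def av (c : Nat → Nat) (A S : Nat) : Nat := Nat.rec (motive := fun _ => Nat)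
  (Nat.mul (Nat.sub (nat_lit 1) (Nat.shiftRight S (nat_lit 56))) A) (fun x ih => Nat.rec (motive := fun _ => Nat) ih
    (fun _ _ => Nat.land (c x) ih) (Nat.mod (Nat.shiftRight S x) (nat_lit 2))) (nat_lit 56)

/-- the clauses for which clause `q / kp` may be used -/
def ra (C a : Nat → Nat) (A m kp q : Nat) : Nat :=
  (fun s => Nat.shiftLeft (Nat.shiftRight (Nat.rec (motive := fun _ => Nat) A
    (fun S _ => Nat.shiftLeft (a (Nat.succ S)) (nat_lit 19)) (low (C (Nat.div q kp)))) s) s)
    (Nat.add (Nat.sub (Nat.succ (Nat.div q kp)) m) (nat_lit 20))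

/-- end of the propagation with clause `q`, and start with the next clause -/
def nxt (R A : Nat → Nat) (w Q : Nat) (k : Nat → Nat → Nat → Nat → Nat → Nat → Nat) (h q u W a t : Nat) : Nat :=
  (fun W' => Nat.rec (motive := fun _ => Nat) W' (fun q' _ => k (Nat.div (Nat.div h w) Q) q' u W' (nat_lit 0) (A q'))
    (Nat.mod (Nat.div h w) Q)) (Nat.lor W (Nat.rec (motive := fun _ => Nat) t (fun _ _ => nat_lit 0)
      (Nat.xor (R q) (Nat.add (Nat.shiftLeft a (nat_lit 20)) u))))

/-- A record is a literal (twenty bits) and a set of clauses under whose negation the literal is false.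
These are the records obtained from earlier records `v j` by unit propagation.  In the loop the literals
`a` are false for the clauses in `t`; at the end `u` is true for them. -/
def ver (R A od : Nat → Nat) (K w Q : Nat) (H : Nat → Bo) : Bo :=
  (fun v => (fun (s : (Nat → Nat → Nat → Nat → Nat → Nat → Nat) → Nat → Nat → Nat → Nat → Nat → Nat → Nat) =>
    (fun k => Bo.mk fun j => Nat.rec (motive := fun _ => Nat) (nat_lit 0) (fun q _ =>
      (fun h => Nat.rec (motive := fun _ => Nat)
        ((fun u => k (Nat.div h w) q u (Nat.xor u (nat_lit 1)) (nat_lit 0) (A q)) (Nat.land (R q) (nat_lit 1048575)))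
        (fun p _ => k (Nat.div h w) q (Nat.xor (Nat.land (v p) (nat_lit 1048575)) (nat_lit 1)) (v p) (nat_lit 0) (A q))
        (Nat.mod h w)) (Nat.div (od j) Q)) (Nat.mod (od j) Q))
      (s (s (s (s (s (s (s (s (itr s (fun _ _ _ W _ _ => W) (nat_lit 100000)))))))))))
    fun k h q u W a t => Nat.rec (motive := fun _ => Nat) (nxt R A w Q k h q u W a t)
      (fun j _ => k (Nat.div h w) q u W (Nat.add (Nat.shiftLeft a (nat_lit 20))
        (Nat.land (v j) (nat_lit 1048575))) (Nat.land t (v j))) (Nat.mod h w))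
    fun j => Nat.rec (motive := fun _ => Nat) (nat_lit 0) (fun r _ => Bo.rec (motive := fun _ => Nat)
      (fun f => Nat.lor (f j) (nat_lit 0)) (H r)) (Nat.div j K)

/-- record `j`, found in its round -/
def val (H : Nat → Bo) (K j : Nat) : Nat := Nat.rec (motive := fun _ => Nat) (nat_lit 0)
  (fun r _ => Bo.rec (motive := fun _ => Nat) (fun f => Nat.lor (f j) (nat_lit 0)) (H r)) (Nat.div j K)

/-- a record read from the clauses to be proved -/
def ini (ow od c : Nat → Nat) (n kp j : Nat) : Nat :=
  (fun x => itr (fun k h W => Nat.rec (motive := fun _ => Nat) W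
    (fun i _ => k (Nat.div (Nat.div h n) kp) (Nat.lor W (Nat.shiftLeft (Nat.sub (Nat.sub (nat_lit 1) (Nat.sub (nat_lit 1) x))
      (Nat.xor x (Nat.mod (Nat.shiftRight (dig (ow i)) (Nat.mul (nat_lit 20) (Nat.mod (Nat.div h n) kp))) (nat_lit 1048576))))
      (Nat.add (nat_lit 20) i)))) (Nat.mod h n)) (fun _ W => W) (nat_lit 100000) (Nat.div (od j) (nat_lit 1048576))
      (Nat.rec (motive := fun _ => Nat) (Nat.lor x (Nat.shiftLeft (Nat.shiftRight (c x) (nat_lit 1)) (nat_lit 20)))
        (fun _ _ => x) (Nat.div x (nat_lit 64))))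
    (Nat.mod (od j) (nat_lit 1048576))

/-- the records, round after round -/
def hs (V : (Nat → Bo) → Bo) (I : Nat → Nat) (b n : Nat) : Nat → Bo :=
  Nat.rec (motive := fun _ => Nat → Bo) (fun _ => Bo.mk I) (fun r ih r' =>
    Bool.rec (motive := fun _ => Bo) (ih r') (V ih) (Nat.beq r' (Nat.add r b))) n

/-- zero if no digit vanishes -/
def nz : Nat → Nat := itr (fun k c => Nat.rec (motive := fun _ => Nat) c
  (fun _ _ => k (Nat.div c (nat_lit 1048576))) (Nat.mod c (nat_lit 1048576))) (fun _ => (nat_lit 1)) (nat_lit 128)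

/-- the images of the digits are the digits `d` -/
def im (π : Nat → Nat) (d : Nat) : Nat → Nat → Nat := itr (fun k c a =>
  Nat.rec (motive := fun _ => Nat) (Nat.lor c (Nat.xor a d)) (fun p _ => Nat.rec (motive := fun _ => Nat) (nat_lit 1)
    (fun y _ => k (Nat.div c (nat_lit 1048576)) (Nat.add (Nat.shiftLeft a (nat_lit 20)) (Nat.succ y))) (π (Nat.succ p)))
    (Nat.mod c (nat_lit 1048576))) (fun _ _ => (nat_lit 1)) (nat_lit 128)

/-- the images of the set `S` are in the set `S'` -/
def il (π : Nat → Nat) (S S' : Nat) : Nat := Nat.lor (Nat.shiftRight S (nat_lit 56))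
  (lin (fun l => Nat.rec (motive := fun _ => Nat) (nat_lit 0) (fun _ _ => Nat.sub (nat_lit 1)
    (Nat.mod (Nat.shiftRight S' (π l)) (nat_lit 2))) (Nat.mod (Nat.shiftRight S l) (nat_lit 2))) (nat_lit 1) (nat_lit 56))

/-- clause `d` is the image of a clause with number below `m` -/
def img (π : Nat → Nat → Nat) (C : Nat → Nat) (m d h : Nat) : Nat :=
  Nat.rec (motive := fun _ => Nat) (nat_lit 1) (fun g _ => Nat.rec (motive := fun _ => Nat) (nat_lit 1) (fun S _ =>
    Nat.rec (motive := fun _ => Nat) (nat_lit 1) (fun S' _ => Nat.lor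
      (Nat.lor (Nat.lor (il (π g) S S') (Nat.sub (Nat.succ (Nat.div h (nat_lit 64))) m))
        (im (π g) (dig d) (dig (C (Nat.div h (nat_lit 64)))) (nat_lit 0))) (nat_lit 0)) (Nat.succ (low d)))
    (Nat.succ (low (C (Nat.div h (nat_lit 64)))))) (Nat.mod h (nat_lit 64))

/-- a block proves the `n` clauses `ow`, among them those from `m` to `m'` -/
def block (π : Nat → Nat → Nat) (D ow od oc au ex : Nat → Nat) (m m' F n kp K w Q b r j : Nat) : Nat :=
  Nat.rec (motive := fun _ => Nat) (nat_lit 1) (fun A _ =>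
    (fun C => (fun Z => Nat.lor (Nat.lor (Nat.mod Z (nat_lit 1048576))
      (allZ (fun i => Nat.rec (motive := fun _ => Nat) (img π C (Nat.add m i) (ow i) (au i)) (fun _ _ => nat_lit 0)
        (Nat.mod (Nat.shiftRight Z (Nat.add (nat_lit 20) i)) (nat_lit 2))) (nat_lit 0) n))
      (allZ (fun z => Nat.lor (Nat.lor (Nat.sub (Nat.succ (ex z)) n) (Nat.xor (ow (ex z)) (D z)))
        (nz (dig (D z)))) m m'))
      (val (hs (ver (rm C kp) (ra C (av (col ow oc F (Nat.succ n)) A) A m kp) od K w Q)
        (ini ow od (col ow oc F (Nat.succ n)) (Nat.succ n) kp) b r) K j)) (cl D ow m))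
    (Nat.shiftLeft (nat_lit 1) (Nat.add n (nat_lit 20)))

/-- test of a row of the table of images -/
def wk (S : Nat → Nat → Bool) (R : Nat) : Nat := Nat.rec (motive := fun _ => Nat) (nat_lit 0) (fun _ _ =>
  lin (fun g => Nat.rec (motive := fun _ => Nat) (nat_lit 0) (fun y _ => Bool.rec (nat_lit 1) (nat_lit 0) (S g (Nat.succ y)))
    (Nat.mod (Nat.shiftRight R (Nat.mul (nat_lit 20) g)) (nat_lit 1048576))) (nat_lit 1) (nat_lit 63)) R

/-- the table of images -/
def pi (row : Nat → Nat) (L g l : Nat) : Nat :=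
  Nat.sub (Nat.mod (Nat.shiftRight (row l) (Nat.mul (nat_lit 20) g)) (nat_lit 1048576))
    (Nat.mul (Nat.sub (Nat.succ l) L) (nat_lit 1048576))

def T.get (t : T) (i : Nat) : Nat :=
  @T.rec (fun _ => Nat) (fun a => Nat.shiftRight a (nat_lit 24)) (fun p _ _ x y => @Bool.rec (fun _ => Nat) x y (Nat.ble p i)) t

/-- entry `i` of a table whose leaves hold `k` entries after their offsets -/
def pg (k : Nat) (t : T) (i : Nat) : Nat := @Nat.rec (fun _ => Nat) (nat_lit 0)
  (fun q _ => (fun o => Nat.mod (Nat.shiftRight (t.get q) (Nat.mod o (nat_lit 1048576)))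
    (Nat.shiftLeft (nat_lit 1) (Nat.sub (Nat.mod (Nat.div o (nat_lit 1048576)) (nat_lit 1048576)) (Nat.mod o (nat_lit 1048576)))))
    (Nat.shiftRight (Nat.mod (t.get q) (Nat.shiftLeft (nat_lit 1) (Nat.mul (nat_lit 20) (Nat.succ k)))) (Nat.mul (nat_lit 20) (Nat.mod i k))))
  (Nat.div (Nat.add i k) k)

/-- entry `i` of a table whose leaves hold 64 entries of `w` bits -/
def fw (w : Nat) (t : T) (i : Nat) : Nat := @Nat.rec (fun _ => Nat) (nat_lit 0)
  (fun q _ => Nat.mod (Nat.shiftRight (t.get q) (Nat.mul w (Nat.mod i (nat_lit 64)))) (Nat.shiftLeft (nat_lit 1) w))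
  (Nat.div (Nat.add i (nat_lit 64)) (nat_lit 64))

/-- leaf `q`, looked up in a group of sixteen -/
def U.get (u : U) (q : Nat) : Nat := @Nat.rec (fun _ => Nat) (nat_lit 0) (fun p _ => T.get
  (@U.rec (fun _ => T) (fun t => t) (fun k _ _ x y => @Bool.rec (fun _ => T) x y (Nat.ble k p)) u) q)
  (Nat.succ (Nat.div q (nat_lit 16)))

/-- entry `i` of a table whose leaves hold a width and 32 entries -/
def fx (u : U) (i : Nat) : Nat := @Nat.rec (fun _ => Nat) (nat_lit 0)
  (fun q _ => Nat.mod (Nat.shiftRight (Nat.shiftRight (u.get q) (nat_lit 20))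
    (Nat.mul (Nat.mod (u.get q) (nat_lit 1048576)) (Nat.mod i (nat_lit 32))))
    (Nat.shiftLeft (nat_lit 1) (Nat.mod (u.get q) (nat_lit 1048576)))) (Nat.succ (Nat.div i (nat_lit 32)))

/-- a table read from position `b` on -/
def off (b : Nat) (f : Nat → Nat) (i : Nat) : Nat := f (Nat.sub i b)

/-- a clause given directly or by its number -/
def own (D : Nat → Nat) (m b : Nat) (f : Nat → Nat) (i : Nat) : Nat := (fun c => @Nat.rec (fun _ => Nat)
  (Nat.div c (nat_lit 2)) (fun _ _ => D (Nat.add m (Nat.div c (nat_lit 2)))) (Nat.mod c (nat_lit 2))) (f (Nat.sub i b))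

/-- the test `chk` of clause `z` with its hint -/
def thz (chk : Nat → Nat → Nat) (D h : Nat → Nat) (z : Nat) : Nat := chk (D z) (h z)

/-- a block without images -/
def blk (D ow od oc ex : Nat → Nat) (m m' n kp K w Q b r j : Nat) : Nat :=
  block (pi (fun _ => nat_lit 0) (nat_lit 0)) D ow od oc (fun _ => nat_lit 0) ex m m' (nat_lit 0) n kp K w Q b r j

end

end Pool.Agent.P.MP_3f5ded_co.RRup
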