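import Mathlib
import Pool.Agent.P.MP_3f5ded_co.GCore

namespace Pool.Agent.P.MP_3f5ded_co.RRup

/-! Clausal derivations by unit propagation, in blocks.  A clause is a number: ten bits for a
width, a set of small literals of that width, then literals as digits in base `2 ^ 20`.  The clauses
of a block are proved together, one bit for each.  Tests return zero on success. -/

/-- truth of a literal -/
def Tr (P : ℕ → Prop) (l : ℕ) : Prop := if l % 2 = 0 then P (l / 2) else ¬ P (l / 2)

variable {P : ℕ → Prop}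

theorem Tr_even (v : ℕ) : Tr P (2 * v) ↔ P v := by
  unfold Tr
  rw [if_pos (by omega), show 2 * v / 2 = v by omega]

theorem Tr_odd (v : ℕ) : Tr P (2 * v + 1) ↔ ¬ P v := by
  unfold Tr
  rw [if_neg (by omega), show (2 * v + 1) / 2 = v by omega]

theorem Tr_xor {l : ℕ} (h : Tr P l) : ¬ Tr P (l ^^^ 1) := by
  rcases Nat.even_or_odd' l with ⟨v, rfl | rfl⟩
  · rw [Nat.xor_one_of_even (by simp), Tr_odd, not_not]
    rwa [Tr_even] at h
  · rw [Nat.xor_one_of_odd (by simp), add_tsub_cancel_right, Tr_even]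
    rwa [Tr_odd] at h

noncomputable section

theorem itr_eq {α : Type} (s : α → α) (z : α) (f : ℕ) : itr s z f = s^[8 * f] z := by
  induction f with
  | zero => rfl
  | succ f ih =>
    rw [show 8 * (f + 1) = 8 + 8 * f by ring, Function.iterate_add_apply, ← ih]
    rfl

theorem low_lt {c l : ℕ} (h : (low c).testBit l = true) : l < 1024 := by
  have e : low c = c % 2 ^ 56 := rfl
  rw [e, Nat.testBit_mod_two_pow, Bool.and_eq_true, decide_eq_true_eq] at h
  omega

/-- `l` is among the first `n` digits, before any zero -/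
def MemD (l : ℕ) : ℕ → ℕ → Prop
  | 0, _ => False
  | n + 1, c => c % 1048576 ≠ 0 ∧ (c % 1048576 = l ∨ MemD l n (c / 1048576))

theorem memS_iff (l n : ℕ) : ∀ c, (memS l)^[n] (fun _ => false) c = true ↔ MemD l n c := by
  induction n with
  | zero => simp [MemD]
  | succ n ih =>
    intro c
    rw [Function.iterate_succ_apply', MemD, ← ih]
    change Nat.rec (motive := fun _ => Bool) false (fun p _ => Bool.rec
      ((memS l)^[n] (fun _ => false) (c / 1048576)) true (Nat.beq (p + 1) l)) (c % 1048576) = true ↔ _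
    cases c % 1048576 with
    | zero => simp
    | succ p =>
      rw [← Nat.beq_eq (x := p + 1)]
      cases h : Nat.beq (p + 1) l <;> simp [h]

theorem bit_iff (F l : ℕ) : F >>> l % 2 = 1 ↔ F.testBit l = true := by
  rw [← decide_eq_true_eq (p := _ % 2 = 1), ← Nat.testBit_zero, Nat.testBit_shiftRight, add_zero]

theorem memC_iff (c l : ℕ) :
    memC c l = true ↔ (low c).testBit l = true ∨ MemD l 1024 (dig c) := by
  have e : memC c l = Bool.rec (itr (memS l) (fun _ => false) 128 (dig c)) true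
    (Nat.beq (low c >>> l % 2) 1) := rfl
  rw [e, itr_eq, ← memS_iff, ← bit_iff, ← Nat.beq_eq]
  generalize (memS l)^[8 * 128] (fun _ => false) (dig c) = b
  cases Nat.beq (low c >>> l % 2) 1 <;> simp

/-- a clause holds -/
def SatG (P : ℕ → Prop) (c : ℕ) : Prop := ∃ l, memC c l = true ∧ Tr P l

/-- `l` is a digit -/
def Dg (l d : ℕ) : Prop := l ≠ 0 ∧ ∃ k, d >>> (20 * k) % 2 ^ 20 = l

theorem Dg.zero {l : ℕ} : ¬ Dg l 0 := fun ⟨h, _, e⟩ => h (by simpa using e.symm)

theorem Dg_iff {l d : ℕ} : Dg l d ↔ l ≠ 0 ∧ (d % 1048576 = l ∨ Dg l (d / 1048576)) := by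
  have e : ∀ k, d >>> (20 * (k + 1)) = (d / 1048576) >>> (20 * k) := fun k => by
    rw [show 20 * (k + 1) = 20 + 20 * k by ring, Nat.shiftRight_add, Nat.shiftRight_eq_div_pow d 20]
  constructor
  · rintro ⟨h, _ | k, e1⟩
    · exact ⟨h, .inl e1⟩
    · exact ⟨h, .inr ⟨h, k, e k ▸ e1⟩⟩
  · rintro ⟨h, e1 | ⟨-, k, e1⟩⟩
    · exact ⟨h, 0, e1⟩
    · exact ⟨h, k + 1, (e k).symm ▸ e1⟩

theorem MemD.dg {l : ℕ} (n : ℕ) : ∀ d, MemD l n d → Dg l d := by
  induction n with
  | zero => exact fun _ h => h.elim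
  | succ n ih =>
    rintro d ⟨h, e | e⟩
    · exact Dg_iff.2 ⟨e ▸ h, .inl e⟩
    · exact Dg_iff.2 ⟨(ih _ e).1, .inr (ih _ e)⟩

def nzS (k : ℕ → ℕ) (c : ℕ) : ℕ := Nat.rec (motive := fun _ => ℕ) c
  (fun _ _ => k (c / 1048576)) (c % 1048576)

theorem nz_ok {l d : ℕ} (h : nz d = 0) (hl : Dg l d) : MemD l 1024 d := by
  rw [show nz = nzS^[1024] fun _ => 1 from itr_eq nzS _ 128] at h
  generalize 1024 = n at h
  induction n generalizing d with
  | zero => exact absurd h (by simp)
  | succ n ih =>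
    rw [Function.iterate_succ_apply', nzS] at h
    cases e : d % 1048576 with
    | zero =>
      rw [e] at h
      rw [show d = 0 from h] at hl
      exact absurd hl Dg.zero
    | succ p =>
      rw [e] at h
      exact ⟨by omega, (Dg_iff.1 hl).2.imp_right fun x => ih x h⟩

theorem Dg.cut {l d s k : ℕ} (h : l ≠ 0) (e : d >>> (20 * k) % 2 ^ 20 = l) (hk : k ≠ s) :
    Dg l (d % 1 <<< (20 * s) + (d >>> (20 * s + 20)) <<< (20 * s)) := by
  have b : ∀ t, (d % 1 <<< (20 * s) + (d >>> (20 * s + 20)) <<< (20 * s)).testBit t =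
      if t < 20 * s then d.testBit t else d.testBit (t + 20) := fun t => by
    rw [Nat.one_shiftLeft, Nat.shiftLeft_eq, add_comm, mul_comm,
      Nat.testBit_two_pow_mul_add _ (Nat.mod_lt _ (by positivity)), Nat.testBit_mod_two_pow,
      Nat.testBit_shiftRight]
    split_ifs with x
    · simp [x]
    · congr 1; omega
  refine ⟨h, if k < s then k else k - 1, e ▸ Nat.eq_of_testBit_eq fun t => ?_⟩
  simp only [Nat.testBit_mod_two_pow, Nat.testBit_shiftRight, b]
  by_cases x : t < 20
  · split_ifs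
    · rfl
    · omega
    · omega
    · congr 2; omega
  · simp [x]

theorem sub_xor {a b : ℕ} (h : 1 - (a ^^^ b) ≠ 0) : a = b := Nat.xor_eq_zero_iff.1 (by omega)

theorem or_sub {a b l : ℕ} (h : a ||| b = b) (hl : a.testBit l = true) : b.testBit l = true := by
  rw [← h, Nat.testBit_or, hl, Bool.true_or]

theorem lin_ok {p : ℕ → ℕ} {b : ℕ} (n : ℕ) : lin p (b + 1) n = 0 → ∀ t, t < n → p (b + t) = 0 := by
  induction n with
  | zero => exact fun _ t ht => absurd ht (Nat.not_lt_zero t)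
  | succ n ih =>
    intro h t ht
    have e : lin p (b + 1) (n + 1) = Nat.rec (motive := fun _ => ℕ) 1 (fun i _ => p i)
      (b + 1 + n) ||| lin p (b + 1) n := rfl
    rw [e, show b + 1 + n = b + n + 1 by ring, Nat.or_eq_zero_iff] at h
    rcases Nat.lt_succ_iff_lt_or_eq.1 ht with h1 | rfl
    · exact ih h.2 t h1
    · exact h.1

theorem allZ_ok {p : ℕ → ℕ} {lo hi : ℕ} (h : allZ p lo hi = 0) (i : ℕ) (h1 : lo ≤ i)
    (h2 : i < hi) : p i = 0 := by
  have h3 := lin_ok (b := 0) ((hi - lo) / 128 + 1) h ((i - lo) / 128) (by omega)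
  rw [zero_add] at h3
  have h4 := lin_ok (b := lo + 128 * ((i - lo) / 128))
    (128 - (128 - (hi - (lo + 128 * ((i - lo) / 128))))) h3 ((i - lo) % 128) (by omega)
  rwa [show lo + 128 * ((i - lo) / 128) + (i - lo) % 128 = i by omega] at h4

theorem lin_bit {p : ℕ → ℕ} {b k : ℕ} (n : ℕ) (h : (lin p (b + 1) n).testBit k = true) :
    ∃ i, (p i).testBit k = true := by
  induction n with
  | zero => exact absurd h (by simp [lin])
  | succ n ih =>
    have e : lin p (b + 1) (n + 1) = Nat.rec (motive := fun _ => ℕ) 1 (fun i _ => p i)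
      (b + 1 + n) ||| lin p (b + 1) n := rfl
    rw [e, show b + 1 + n = b + n + 1 by ring, Nat.testBit_or, Bool.or_eq_true] at h
    exact h.elim (fun h => ⟨_, h⟩) ih

theorem allZ_bit {p : ℕ → ℕ} {lo hi k : ℕ} (h : (allZ p lo hi).testBit k = true) :
    ∃ i, (p i).testBit k = true := by
  obtain ⟨_, h⟩ := lin_bit (b := 0) _ h
  exact lin_bit _ h

theorem bit_one {e s k : ℕ} (he : e ≤ 1) (h : (e <<< s).testBit k = true) : e = 1 ∧ k = s := by
  rw [Nat.testBit_shiftLeft, Bool.and_eq_true, decide_eq_true_eq] at h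
  have u := Nat.ge_two_pow_of_testBit h.2
  have : k - s < 2 ^ (k - s) := Nat.lt_two_pow_self
  omega

section
variable {C ow R A : ℕ → ℕ} {m F kp i : ℕ}

/-- a clause holds, read by places -/
def SatP (P : ℕ → Prop) (c : ℕ) : Prop := ∃ l, ((low c).testBit l = true ∨ Dg l (dig c)) ∧ Tr P l

theorem rm_ok {q a u : ℕ} (hu : u < 1048576) (hc : ∃ l, Dg l (dig (C (q / kp))) ∧ Tr P l)
    (e : rm C kp q = a <<< 20 + u) (ha : ∀ l, Dg l a → ¬ Tr P l) : Tr P u := by
  unfold rm at e
  change (dig (C (q / kp)) % 1 <<< (20 * (q % kp)) +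
    (dig (C (q / kp)) >>> (20 * (q % kp) + 20)) <<< (20 * (q % kp))) <<< 20 +
    (dig (C (q / kp)) >>> (20 * (q % kp)) % 2 ^ 20 +
      (1 - dig (C (q / kp)) >>> (20 * (q % kp)) % 2 ^ 20)) = _ at e
  generalize dig (C (q / kp)) = d at e hc
  generalize q % kp = s at e
  obtain ⟨l, ⟨h, k, h'⟩, t⟩ := hc
  have y : d >>> (20 * s) % 2 ^ 20 < 1048576 := Nat.mod_lt _ (by norm_num)
  rw [Nat.shiftLeft_eq _ 20, Nat.shiftLeft_eq _ 20] at e
  by_cases z : k = s
  · subst z
    rwa [show u = l by omega]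
  · refine absurd t (ha l ?_)
    rw [show a = d % 1 <<< (20 * s) + (d >>> (20 * s + 20)) <<< (20 * s) by omega]
    exact Dg.cut h h' z

def colS (ow : ℕ → ℕ) (n x : ℕ) (k : ℕ → ℕ → ℕ) (h W : ℕ) : ℕ := Nat.rec (motive := fun _ => ℕ) W
  (fun i _ => k (h / n) (W ||| (low (ow i) >>> x % 2) <<< (i + 1))) (h % n)

theorem col_ok {oc : ℕ → ℕ} {n x : ℕ} : (col ow oc F n x).testBit (i + 1) = true →
    (low (ow i)).testBit x = true := by
  have e : col ow oc F n x = itr (colS ow n x) (fun _ W => W) 100000 (oc x) (F >>> x % 2 * sup ow F n) := rfl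
  rw [e, itr_eq]
  have key : ∀ f h W, (W.testBit (i + 1) = true → (low (ow i)).testBit x = true) →
      ((colS ow n x)^[f] (fun _ W => W) h W).testBit (i + 1) = true → (low (ow i)).testBit x = true := by
    intro f
    induction f with
    | zero => exact fun _ _ h => h
    | succ f ih =>
      intro h W a
      rw [Function.iterate_succ_apply', colS]
      cases h % n with
      | zero => exact a
      | succ j =>
        refine ih _ _ fun t => ?_
        rw [Nat.testBit_or, Bool.or_eq_true] at t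
        refine t.elim a fun t => ?_
        obtain ⟨u, v⟩ := bit_one (by omega) t
        rw [show i = j by omega]
        exact (bit_iff _ _).1 u
  refine key _ _ _ fun t => ?_
  rcases Nat.mod_two_eq_zero_or_one (F >>> x) with u | u <;> rw [u] at t
  · simp at t
  rw [one_mul] at t
  obtain ⟨j, t⟩ := allZ_bit t
  obtain ⟨v, w⟩ := bit_one (Nat.sub_le _ _) t
  rw [show i = j by omega]
  exact or_sub (sub_xor (fun z => zero_ne_one (z.symm.trans v))) ((bit_iff _ _).1 u)

theorem av_ok {c : ℕ → ℕ} {a S k : ℕ} (h : (av c a S).testBit k = true) (x : ℕ)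
    (hx : S.testBit x = true) : (c x).testBit k = true := by
  unfold av at h
  have key : ∀ n, (Nat.rec (motive := fun _ => ℕ) ((1 - S >>> 56) * a) (fun x ih => Nat.rec (motive := fun _ => ℕ) ih
      (fun _ _ => c x &&& ih) (S >>> x % 2)) n).testBit k = true →
      S >>> 56 = 0 ∧ (x < n → (c x).testBit k = true) := by
    intro n
    induction n with
    | zero =>
      refine fun h => ⟨?_, fun h => absurd h (Nat.not_lt_zero _)⟩
      by_contra y
      rw [show 1 - S >>> 56 = 0 by omega] at h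
      simp at h
    | succ n ih =>
      intro h
      change (Nat.rec (motive := fun _ => ℕ) _ _ (S >>> n % 2)).testBit k = true at h
      cases e : S >>> n % 2 with
      | zero =>
        rw [e] at h
        refine ⟨(ih h).1, fun y => (ih h).2 (lt_of_le_of_ne (by omega) ?_)⟩
        rintro rfl
        rw [(bit_iff _ _).2 hx] at e
        omega
      | succ s =>
        rw [e] at h
        change (c n &&& _).testBit k = true at h
        rw [Nat.testBit_and, Bool.and_eq_true] at h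
        refine ⟨(ih h.2).1, fun y => ?_⟩
        rcases Nat.lt_succ_iff_lt_or_eq.1 y with y | rfl
        exacts [(ih h.2).2 y, h.1]
  obtain ⟨u, v⟩ := key 56 h
  refine v (lt_of_not_ge fun y => ?_)
  rw [show x = 56 + (x - 56) by omega, ← Nat.testBit_shiftRight, u] at hx
  simp at hx

theorem ra_ok {a : ℕ → ℕ} {A q k : ℕ} (h : (ra C a A m kp q).testBit k = true) :
    20 ≤ k ∧ q / kp < m + (k - 20) ∧
      (low (C (q / kp)) = 0 ∨ (a (low (C (q / kp)))).testBit (k - 20 + 1) = true) := by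
  change ((Nat.rec (motive := fun _ => ℕ) A (fun S _ => a (S + 1) <<< 19) (low (C (q / kp))) >>>
    (q / kp + 1 - m + 20)) <<< (q / kp + 1 - m + 20)).testBit k = true at h
  rw [Nat.testBit_shiftLeft, Bool.and_eq_true, decide_eq_true_eq, Nat.testBit_shiftRight] at h
  refine ⟨by omega, by omega, ?_⟩
  obtain ⟨u, h⟩ := h
  rw [Nat.add_sub_cancel' u] at h
  cases e : low (C (q / kp)) with
  | zero => exact .inl rfl
  | succ S =>
    rw [e] at h
    change (a (S + 1) <<< 19).testBit k = true at h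
    rw [Nat.testBit_shiftLeft, Bool.and_eq_true] at h
    exact .inr ((show k - 19 = k - 20 + 1 by omega) ▸ h.2)

/-- the record is right for clause `i` -/
def Good (P : ℕ → Prop) (i Z : ℕ) : Prop := Z.testBit (20 + i) = true → ¬ Tr P (Z % 1048576)

theorem Good.zero : Good P i 0 := fun h => absurd h (by simp)

theorem Good.or {W X : ℕ} (h : Good P i W) (hs : ∀ k, X.testBit k = true → 20 ≤ k)
    (hX : X.testBit (20 + i) = true → ¬ Tr P (W % 1048576)) :
    (W ||| X) % 1048576 = W % 1048576 ∧ Good P i (W ||| X) := by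
  have e : (W ||| X) % 2 ^ 20 = W % 2 ^ 20 := Nat.eq_of_testBit_eq fun t => by
    simp only [Nat.testBit_mod_two_pow, Nat.testBit_or]
    by_cases x : t < 20
    · rw [show X.testBit t = false by
        rw [← Bool.not_eq_true]
        exact fun y => by have := hs t y; omega, Bool.or_false]
    · simp [x]
  refine ⟨e, fun b => ?_⟩
  rw [show (W ||| X) % 1048576 = W % 1048576 from e]
  rw [Nat.testBit_or, Bool.or_eq_true] at b
  exact b.elim h hX

/-- the state of a propagation with clause `q` -/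
def Ok (P : ℕ → Prop) (R : ℕ → ℕ) (i q a t : ℕ) : Prop := (∀ k, t.testBit k = true → 20 ≤ k) ∧
  (t.testBit (20 + i) = true → (∀ l, Dg l a → ¬ Tr P l) ∧
    ∀ a u, u < 1048576 → R q = a <<< 20 + u → (∀ l, Dg l a → ¬ Tr P l) → Tr P u)

theorem fin_ok {u q a t W : ℕ} (hu : u = W % 1048576 ^^^ 1) (ha : Ok P R i q a t) (hW : Good P i W) :
    ∀ X, X = W ||| Nat.rec (motive := fun _ => ℕ) t (fun _ _ => 0) (R q ^^^ (a <<< 20 + u)) →
      X % 1048576 = W % 1048576 ∧ Good P i X := by
  rintro _ rfl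
  cases x : R q ^^^ (a <<< 20 + u) with
  | succ _ => exact hW.or (fun _ h => absurd h (by simp)) fun h => absurd h (by simp)
  | zero =>
    refine hW.or ha.1 fun b => ?_
    have y : u < 2 ^ 20 := hu ▸ Nat.xor_lt_two_pow (Nat.mod_lt _ (by norm_num)) (by norm_num)
    have := Tr_xor ((ha.2 b).2 a u y (Nat.xor_eq_zero_iff.1 x) (ha.2 b).1)
    rwa [hu, Nat.xor_assoc, Nat.xor_self, Nat.xor_zero] at this

def Bo.f : Bo → ℕ → ℕ
  | .mk f => f

theorem val_ok {H : ℕ → Bo} (hH : ∀ r j, Good P i ((H r).f j)) (K j : ℕ) : Good P i (val H K j) := by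
  unfold val
  cases Nat.div j K with
  | zero => exact Good.zero
  | succ r =>
    have := hH r j
    change Good P i (Bo.rec (motive := fun _ => ℕ) (fun f => f j ||| 0) (H r))
    cases e : H r
    rw [e] at this
    exact (congrArg (Good P i) (Nat.or_zero _)).mpr this

/-- a sound continuation -/
def Inv (P : ℕ → Prop) (R : ℕ → ℕ) (i : ℕ) (k : ℕ → ℕ → ℕ → ℕ → ℕ → ℕ → ℕ) : Prop :=
  ∀ h q u W a t, u = W % 1048576 ^^^ 1 → Good P i W → Ok P R i q a t → Good P i (k h q u W a t)

theorem nxt_ok (hR : ∀ q, Ok P R i q 0 (A q)) {k : ℕ → ℕ → ℕ → ℕ → ℕ → ℕ → ℕ} (hk : Inv P R i k)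
    (w Q : ℕ) : Inv P R i (nxt R A w Q k) := by
  intro h q u W a t hu hW ha
  obtain ⟨x, y⟩ := fin_ok hu ha hW _ rfl
  unfold nxt
  cases Nat.mod (Nat.div h w) Q with
  | zero => exact y
  | succ q => exact hk _ _ _ _ _ _ (x.symm ▸ hu) y (hR q)

def stp (v R A : ℕ → ℕ) (w Q : ℕ) (k : ℕ → ℕ → ℕ → ℕ → ℕ → ℕ → ℕ) (h q u W a t : ℕ) : ℕ :=
  Nat.rec (motive := fun _ => ℕ) (nxt R A w Q k h q u W a t)
    (fun j _ => k (h / w) q u W (a <<< 20 + (v j &&& (2 ^ 20 - 1))) (t &&& v j)) (h % w)

theorem stp_ok {v : ℕ → ℕ} (hR : ∀ q, Ok P R i q 0 (A q)) (hv : ∀ j, Good P i (v j)) (w Q n : ℕ) :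
    Inv P R i ((stp v R A w Q)^[n] fun _ _ _ W _ _ => W) := by
  induction n with
  | zero => exact fun _ _ _ _ _ _ _ h _ => h
  | succ n ih =>
    intro h q u W a t hu hW ha
    rw [Function.iterate_succ_apply', stp]
    cases h % w with
    | zero => exact nxt_ok hR ih w Q _ _ _ _ _ _ hu hW ha
    | succ j =>
      refine ih _ _ _ _ _ _ hu hW ⟨fun k b => ?_, fun b => ?_⟩ <;> rw [Nat.testBit_and, Bool.and_eq_true] at b
      · exact ha.1 k b.1
      refine ⟨fun l d => ?_, (ha.2 b.1).2⟩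
      rw [Nat.and_two_pow_sub_one_eq_mod, Nat.shiftLeft_eq] at d
      have y : v j % 2 ^ 20 < 1048576 := Nat.mod_lt _ (by norm_num)
      rcases (Dg_iff.1 d).2 with d | d
      · rw [show l = v j % 1048576 by omega]
        exact hv _ b.2
      · rw [show (a * 2 ^ 20 + v j % 2 ^ 20) / 1048576 = a by omega] at d
        exact (ha.2 b.1).1 l d

theorem Good.small {x : ℕ} (y : x < 2 ^ 20) : Good P i x := fun b => by
  have := Nat.ge_two_pow_of_testBit b
  rw [pow_add] at this
  nlinarith [Nat.one_le_two_pow (n := i)]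

theorem ver_ok {H : ℕ → Bo} {od : ℕ → ℕ} (hR : ∀ q, Ok P R i q 0 (A q)) (hH : ∀ r j, Good P i ((H r).f j))
    (K w Q j : ℕ) : Good P i ((ver R A od K w Q H).f j) := by
  have e : (ver R A od K w Q H).f j = (fun k : ℕ → ℕ → ℕ → ℕ → ℕ → ℕ → ℕ =>
      Nat.rec (motive := fun _ => ℕ) 0 (fun q _ => Nat.rec (motive := fun _ => ℕ)
        (k (od j / Q / w) q (R q &&& (2 ^ 20 - 1)) ((R q &&& (2 ^ 20 - 1)) ^^^ 1) 0 (A q))
        (fun p _ => k (od j / Q / w) q ((val H K p &&& (2 ^ 20 - 1)) ^^^ 1) (val H K p) 0 (A q))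
        (od j / Q % w)) (od j % Q))
      ((stp (val H K) R A w Q)^[8] (itr (stp (val H K) R A w Q) (fun _ _ _ W _ _ => W) 100000)) := rfl
  rw [e, itr_eq, ← Function.iterate_add_apply]
  have g := stp_ok hR (val_ok hH K) w Q (8 + 8 * 100000)
  cases od j % Q with
  | zero => exact Good.zero
  | succ q =>
    cases od j / Q % w with
    | zero =>
      have y : (R q &&& (2 ^ 20 - 1)) ^^^ 1 < 2 ^ 20 := Nat.xor_lt_two_pow
        (Nat.and_two_pow_sub_one_eq_mod _ 20 ▸ Nat.mod_lt _ (by norm_num)) (by norm_num)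
      refine g _ _ _ _ _ _ ?_ (Good.small y) (hR q)
      rw [Nat.mod_eq_of_lt (b := 1048576) y, Nat.xor_assoc, Nat.xor_self, Nat.xor_zero]
    | succ p =>
      exact g _ _ _ _ _ _ (congrArg (· ^^^ 1) (Nat.and_two_pow_sub_one_eq_mod _ 20)) (val_ok hH K p) (hR q)

def iniS (ow : ℕ → ℕ) (n kp x : ℕ) (k : ℕ → ℕ → ℕ) (h W : ℕ) : ℕ := Nat.rec (motive := fun _ => ℕ) W
  (fun i _ => k (h / n / kp) (W ||| (1 - (1 - x) - (x ^^^ (dig (ow i) >>> (20 * (h / n % kp)) % 2 ^ 20))) <<<
    (20 + i))) (h % n)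

theorem ini_ok {od c : ℕ → ℕ} (hG : ∀ l, Dg l (dig (ow i)) → ¬ Tr P l)
    (hc : ∀ l, (c l).testBit (i + 1) = true → ¬ Tr P l) (n j : ℕ) :
    Good P i (ini ow od c n kp j) := by
  have e : ini ow od c n kp j = itr (iniS ow n kp (od j % 1048576)) (fun _ W => W) 100000 (od j / 1048576)
    (Nat.rec (motive := fun _ => ℕ) (od j % 1048576 ||| (c (od j % 1048576) >>> 1) <<< 20)
      (fun _ _ => od j % 1048576) (od j % 1048576 / 64)) := rfl
  have y : od j % 1048576 < 1048576 := Nat.mod_lt _ (by norm_num)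
  rw [e, itr_eq]
  generalize od j % 1048576 = x at y
  have key : ∀ f h W, W % 1048576 = x → Good P i W →
      Good P i ((iniS ow n kp x)^[f] (fun _ W => W) h W) := by
    intro f
    induction f with
    | zero => exact fun _ _ _ h => h
    | succ f ih =>
      intro h W a b
      rw [Function.iterate_succ_apply', iniS]
      cases h % n with
      | zero => exact b
      | succ i' =>
        refine (fun (z : _ ∧ _) => ih _ _ (z.1.trans a) z.2) (b.or (fun k t => ?_) fun t => ?_) <;>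
          obtain ⟨u, v⟩ := bit_one (by omega) t
        · omega
        rw [← show i = i' by omega] at u
        generalize e : (x ^^^ (dig (ow i) >>> (20 * (h / n % kp)) % 2 ^ 20)) = v at u
        rw [show v = 0 by omega] at e
        exact a ▸ hG x ⟨by omega, _, (Nat.xor_eq_zero_iff.1 e).symm⟩
  have g : Good P i x := Good.small y
  cases x / 64 with
  | succ _ => exact key _ _ _ (Nat.mod_eq_of_lt y) g
  | zero =>
    refine (fun (z : _ ∧ _) => key _ _ _ (z.1.trans (Nat.mod_eq_of_lt y)) z.2)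
      (g.or (fun k t => ?_) fun t => ?_) <;>
      rw [Nat.testBit_shiftLeft, Bool.and_eq_true, decide_eq_true_eq] at t
    · exact t.1
    rw [Nat.testBit_shiftRight, add_tsub_cancel_left, add_comm 1 i] at t
    rw [Nat.mod_eq_of_lt y]
    exact hc x t.2

theorem hs_ok {V : (ℕ → Bo) → Bo} {I : ℕ → ℕ} (hI : ∀ j, Good P i (I j))
    (hV : ∀ H : ℕ → Bo, (∀ r j, Good P i ((H r).f j)) → ∀ j, Good P i ((V H).f j)) (b n : ℕ) :
    ∀ r j, Good P i ((hs V I b n r).f j) := by
  induction n with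
  | zero => exact fun _ => hI
  | succ n ih =>
    intro r j
    change Good P i ((Bool.rec (motive := fun _ => Bo) (hs V I b n r) (V (hs V I b n))
      (Nat.beq r (n + b))).f j)
    cases Nat.beq r (n + b)
    exacts [ih r j, hV _ ih j]

end

def imS (π : ℕ → ℕ) (d : ℕ) (k : ℕ → ℕ → ℕ) (c a : ℕ) : ℕ :=
  Nat.rec (motive := fun _ => ℕ) (c ||| (a ^^^ d)) (fun p _ => Nat.rec (motive := fun _ => ℕ) 1
    (fun y _ => k (c / 1048576) (a <<< 20 + (y + 1))) (π (p + 1))) (c % 1048576)

theorem im_eq (π : ℕ → ℕ) (d : ℕ) : im π d = (imS π d)^[1024] fun _ _ => 1 :=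
  itr_eq (imS π d) _ 128

theorem im_ok {π : ℕ → ℕ} (hπ : ∀ l, π l < 1048576) {d : ℕ} (n : ℕ) : ∀ c a,
    (imS π d)^[n] (fun _ _ => 1) c a = 0 → (∀ y, Dg y a → Dg y d) ∧ ∀ l, Dg l c → Dg (π l) d := by
  induction n with
  | zero => exact fun _ _ h => absurd h (by simp)
  | succ n ih =>
    intro c a h
    rw [Function.iterate_succ_apply', imS] at h
    cases e : c % 1048576 with
    | zero =>
      rw [e] at h
      obtain ⟨rfl, h'⟩ := Nat.or_eq_zero_iff.1 (show c ||| (a ^^^ d) = 0 from h)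
      exact ⟨fun y hy => Nat.xor_eq_zero_iff.1 h' ▸ hy, fun l hl => absurd hl Dg.zero⟩
    | succ p =>
      rw [e] at h
      change Nat.rec (motive := fun _ => ℕ) 1 _ (π (p + 1)) = 0 at h
      have b := hπ (p + 1)
      cases e' : π (p + 1) with
      | zero => rw [e'] at h; exact absurd h (by simp)
      | succ y =>
        rw [e'] at h
        obtain ⟨u, v⟩ := ih _ _ h
        have w : (a <<< 20 + (y + 1)) % 1048576 = y + 1 ∧ (a <<< 20 + (y + 1)) / 1048576 = a := by
          rw [Nat.shiftLeft_eq]; omega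
        refine ⟨fun z hz => u z (Dg_iff.2 ⟨hz.1, .inr (w.2.symm ▸ hz)⟩), fun l hl => ?_⟩
        rcases (Dg_iff.1 hl).2 with x | x
        · rw [← x, e, e']
          exact u _ (Dg_iff.2 ⟨by omega, .inl w.1⟩)
        · exact v l x

theorem il_ok {π : ℕ → ℕ} {S S' l : ℕ} (h : il π S S' = 0) (hl : S.testBit l = true) :
    S'.testBit (π l) = true := by
  obtain ⟨u, v⟩ := Nat.or_eq_zero_iff.1 h
  have y : l < 56 := lt_of_not_ge fun y => by
    rw [show l = 56 + (l - 56) by omega, ← Nat.testBit_shiftRight, show S >>> 56 = 0 from u] at hl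
    simp at hl
  have w := lin_ok (b := 0) 56 v l y
  rw [zero_add] at w
  change Nat.rec (motive := fun _ => ℕ) 0 (fun _ _ => 1 - S' >>> π l % 2) (S >>> l % 2) = 0 at w
  rw [(bit_iff _ _).2 hl] at w
  exact (bit_iff _ _).1 (by change 1 - _ = 0 at w; omega)

theorem wk_ok {S : ℕ → ℕ → Bool} {R : ℕ} (h : wk S R = 0) (g : ℕ) (hg : g < 63)
    (h1 : R >>> (20 * g) % 1048576 ≠ 0) : S g (R >>> (20 * g) % 1048576) = true := by
  cases R with
  | zero => simp at h1
  | succ R =>
    have h2 := lin_ok (b := 0) (p := fun g => Nat.rec (motive := fun _ => ℕ) 0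
      (fun y _ => Bool.rec 1 0 (S g (y + 1))) ((R + 1) >>> (20 * g) % 1048576)) 63 h g hg
    rw [zero_add] at h2
    cases h3 : (R + 1) >>> (20 * g) % 1048576 with
    | zero => exact absurd h3 h1
    | succ y =>
      rw [h3] at h2
      cases h4 : S g (y + 1) with
      | true => rfl
      | false => simp [h4] at h2

end

section sound

variable {C : Type*} {V : C → Prop} {W : C → ℕ → Prop} {act : ℕ → C → C} {D : ℕ → ℕ}

/-- a clause holds in every valid configuration -/
def Univ (V : C → Prop) (W : C → ℕ → Prop) (c : ℕ) : Prop := ∀ x, V x → SatG (W x) c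

/-- all clauses with number below `m` hold -/
def Upto (V : C → Prop) (W : C → ℕ → Prop) (D : ℕ → ℕ) (m : ℕ) : Prop :=
  ∀ z, z < m → Univ V W (D z)

theorem Upto.zero : Upto V W D 0 := fun _ h => absurd h (Nat.not_lt_zero _)

theorem rec_zero {b : Bool} (h : (Bool.rec 1 0 b : ℕ) = 0) : b = true := by
  cases b
  · exact absurd h (by simp)
  · rfl

/-- clauses accepted by a sound test -/
theorem theory_ok {m m' : ℕ} {p : ℕ → ℕ → ℕ} (hp : ∀ z c, p z c = 0 → Univ V W c)
    (h : allZ (fun z => p z (D z)) m m' = 0) (hD : Upto V W D m) : Upto V W D m' :=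
  fun z hz => (Nat.lt_or_ge z m).elim (hD z) fun h1 => hp z _ (allZ_ok h z h1 hz)

/-- the rows below `L` of the table of images are sound -/
def Rows (V : C → Prop) (W : C → ℕ → Prop) (act : ℕ → C → C) (row : ℕ → ℕ) (L : ℕ) : Prop :=
  ∀ l, l < L → ∀ g, g < 63 → ∀ x, V x → Tr (W (act g x)) l →
    row l >>> (20 * g) % 1048576 ≠ 0 → Tr (W x) (row l >>> (20 * g) % 1048576)

theorem Rows.zero {row : ℕ → ℕ} : Rows V W act row 0 := fun _ h => absurd h (Nat.not_lt_zero _)

theorem rows_ok {S : ℕ → ℕ → ℕ → Bool} {row : ℕ → ℕ} {L L' : ℕ}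
    (hS : ∀ g a b x, S g a b = true → V x → Tr (W (act g x)) a → Tr (W x) b)
    (h : allZ (fun l => wk (fun g y => S g l y) (row l)) L L' = 0)
    (hR : Rows V W act row L) : Rows V W act row L' := fun l hl g hg x hx ht h1 =>
  (Nat.lt_or_ge l L).elim (fun h2 => hR l h2 g hg x hx ht h1) fun h2 =>
    hS _ _ _ x (wk_ok (allZ_ok h l h2 hl) g hg h1) hx ht

theorem hor {a b : ℕ} (h : Nat.lor a b = 0) : a = 0 ∧ b = 0 := Nat.or_eq_zero_iff.1 h

theorem block_ok (hact : ∀ g x, V x → V (act g x)) (h0 : ∀ x, V x → W x 0) {row : ℕ → ℕ} {L : ℕ}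
    (hR : Rows V W act row L) {ow od oc au ex : ℕ → ℕ} {m m' F n kp K w Q b r j : ℕ}
    (h : block (pi row L) D ow od oc au ex m m' F n kp K w Q b r j = 0) (hD : Upto V W D m) :
    Upto V W D m' := by
  unfold block at h
  obtain ⟨A, hA⟩ : ∃ A, Nat.shiftLeft 1 (Nat.add n 20) = A + 1 :=
    Nat.exists_eq_succ_of_ne_zero (by rw [show Nat.shiftLeft 1 _ = 2 ^ (n + 20) from Nat.one_shiftLeft _]; positivity)
  rw [show Nat.shiftLeft (nat_lit 1) (Nat.add n (nat_lit 20)) = A + 1 from hA] at h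
  obtain ⟨h1, h2⟩ := hor h
  obtain ⟨h1, h3⟩ := hor h1
  have e : ∀ g l, pi row L g l = row l >>> (20 * g) % 1048576 - (l + 1 - L) * 1048576 := fun _ _ => rfl
  have hπ : ∀ g, g < 63 → ∀ x, V x → ∀ l, Tr (W (act g x)) l → Tr (W x) (pi row L g l) := by
    intro g hg x hx l ht
    by_cases h4 : pi row L g l = 0
    · rw [h4, show 0 = 2 * 0 from rfl, Tr_even]
      exact h0 x hx
    rw [e] at h4 ⊢
    have h5 : l < L := by omega
    rw [show l + 1 - L = 0 by omega, zero_mul, Nat.sub_zero] at h4 ⊢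
    exact hR l h5 g hg x hx ht h4
  have hB : ∀ g l, pi row L g l < 1048576 := fun g l => by rw [e]; omega
  generalize pi row L = π at h3 hπ hB
  have key : ∀ i, i < n → ∀ x, V x → SatP (W x) (ow i) := by
    intro i
    induction i using Nat.strong_induction_on with
    | _ i ih =>
      intro hi x hx
      have hC : ∀ z, z < m + i → ∀ x, V x → SatP (W x) (cl D ow m z) := fun z hz x hx => by
        unfold cl
        cases e : Nat.sub (Nat.succ z) m with
        | zero =>
          obtain ⟨l, a, t⟩ := hD z (by change z + 1 - m = 0 at e; omega) x hx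
          exact ⟨l, ((memC_iff _ _).1 a).imp_right (MemD.dg _ _), t⟩
        | succ k =>
          change z + 1 - m = k + 1 at e
          exact ih k (by omega) (by omega) x hx
      have h4 := allZ_ok h3 i (Nat.zero_le i) hi
      generalize cl D ow m = C at h1 h4 hC
      by_contra hc
      have g := val_ok (hs_ok (P := W x) (i := i) (ini_ok (od := od) (kp := kp) (c := col ow oc F (n + 1))
          (fun l a t => hc ⟨l, .inr a, t⟩) (fun l a t => hc ⟨l, .inl (col_ok a), t⟩) (n + 1))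
        (fun H hH => ver_ok (od := od) (R := rm C kp) (A := ra C (av (col ow oc F (n + 1)) A) A m kp) (fun q => ⟨fun k t => (ra_ok t).1, fun t =>
            ⟨fun _ d => absurd d Dg.zero, fun a u hu => rm_ok hu (by
              obtain ⟨-, y, z⟩ := ra_ok t
              rw [add_tsub_cancel_left] at y z
              obtain ⟨l, a | a, t⟩ := hC _ y x hx
              · exact absurd ⟨l, .inl (col_ok (av_ok (z.resolve_left fun e => by simp [e] at a) l a)), t⟩ hc
              · exact ⟨l, a, t⟩)⟩⟩) hH K w Q) b r) K j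
      revert h1 h4 g
      generalize val _ K j = Z
      intro h1 h4 g
      cases h5 : Nat.mod (Nat.shiftRight Z (Nat.add 20 i)) 2 with
      | succ s =>
        refine g ((bit_iff _ _).1 (by change Z >>> (20 + i) % 2 = s + 1 at h5; omega)) ?_
        rw [show Z % 1048576 = 2 * 0 from h1, Tr_even]
        exact h0 x hx
      | zero =>
        rw [h5] at h4
        change img π C (m + i) (ow i) (au i) = 0 at h4
        unfold img at h4
        cases h6 : Nat.mod (au i) 64 with
        | zero => rw [h6] at h4; exact absurd h4 (by simp)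
        | succ g =>
          rw [h6] at h4
          obtain ⟨h7, h8⟩ := hor (hor h4).1
          obtain ⟨h7, h9⟩ := hor h7
          rw [im_eq] at h8
          obtain ⟨l, a, t⟩ := hC _ (Nat.le_of_sub_eq_zero h9) _ (hact g x hx)
          exact hc ⟨_, a.imp (il_ok h7) ((im_ok (hB g) 1024 _ _ h8).2 l),
            hπ g (by change au i % 64 = g + 1 at h6; omega) x hx l t⟩
  intro z hz x hx
  rcases Nat.lt_or_ge z m with h4 | h4
  · exact hD z h4 x hx
  obtain ⟨h5, h8⟩ := hor (allZ_ok h2 z h4 hz)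
  obtain ⟨h5, h7⟩ := hor h5
  obtain ⟨l, a, t⟩ := key (ex z) (Nat.le_of_sub_eq_zero h5) x hx
  rw [Nat.xor_eq_zero_iff.1 h7] at a
  exact ⟨l, (memC_iff _ _).2 (a.imp_right (nz_ok h8)), t⟩

theorem blk_ok (h0 : ∀ x, V x → W x 0) {ow od oc ex : ℕ → ℕ} {m m' n kp K w Q b r j : ℕ}
    (h : blk D ow od oc ex m m' n kp K w Q b r j = 0) (hD : Upto V W D m) : Upto V W D m' :=
  block_ok (act := fun _ x => x) (fun _ _ v => v) h0 Rows.zero h hD

theorem thz_ok {chk : ℕ → ℕ → ℕ} {h : ℕ → ℕ} {m m' : ℕ} (hc : ∀ c h, chk c h = 0 → Univ V W c)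
    (e : allZ (thz chk D h) m m' = 0) (u : Upto V W D m) : Upto V W D m' :=
  theory_ok (p := fun z c => chk c (h z)) (fun z c => hc c (h z)) e u

theorem root_ok {z m c : ℕ} (u : Upto V W D m) (h : z < m) (e : D z = c) : Univ V W c := e ▸ u z h

theorem Univ.empty (h : Univ V W 0) (x : C) : ¬ V x := fun v => by
  obtain ⟨l, a, -⟩ := h x v
  rcases (memC_iff _ _).1 a with b | b
  · exact absurd b (by rw [show low 0 = 0 from rfl]; simp)
  · exact b.1 rfl

/-- the clause whose digits are the list `s` -/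
def enc : List ℕ → ℕ
  | [] => 0
  | a :: s => a + 1048576 * enc s

theorem MemD.enc {l : ℕ} : ∀ (s : List ℕ) (n : ℕ), s.length ≤ n → (∀ a ∈ s, 0 < a ∧ a < 1048576) → l ∈ s →
    MemD l n (enc s)
  | [], _, _, _, h => absurd h (by simp)
  | a :: s, 0, h, _, _ => absurd h (by simp)
  | a :: s, n + 1, h, b, e => by
    have c := b a (by simp)
    have e1 : RRup.enc (a :: s) % 1048576 = a := by rw [RRup.enc]; omega
    have e2 : RRup.enc (a :: s) / 1048576 = RRup.enc s := by rw [RRup.enc]; omega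
    rw [MemD, e1, e2]
    refine ⟨by omega, (List.mem_cons.1 e).imp Eq.symm fun e => MemD.enc s n (by simpa using h)
      (fun x y => b x (by simp [y])) e⟩

/-- a clause whose digits are a list that holds a true literal -/
theorem SatG.of_list {c : ℕ} {s : List ℕ} (e : dig c = enc s) (h : s.length ≤ 1024)
    (b : ∀ a ∈ s, 0 < a ∧ a < 1048576) (t : ∃ l ∈ s, Tr P l) : SatG P c := by
  obtain ⟨l, m, t⟩ := t
  exact ⟨l, (memC_iff _ _).2 (.inr (e ▸ MemD.enc s 1024 h b m)), t⟩

end sound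

end Pool.Agent.P.MP_3f5ded_co.RRup
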