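import Pool.Agent.P.MP_3f5ded_co.PCore
import Pool.Agent.P.MP_3f5ded_co.B8s65024D0

set_option autoImplicit false
set_option maxRecDepth 100000

namespace Pool.Agent.P.MP_3f5ded_co.R.B8s65024

open RRup T

noncomputable section

noncomputable def tA : T := (n (nat_lit 2) (n (nat_lit 1) (l (nat_lit 0x108c820dc4433988271100c22060441ba08130108e22048c41b2083631030620dcc4041880801008621e00409008483108e620d844122083831006820d8041218816310300201d041a208073102c8205cc402208131104822098c413a08670104c82051040208817110046204d043408803110080201c0401808033107002050440b808160102422098440920813360026c0041800a000000000a3))
(l (nat_lit 0x10ac02160042b808250100a62054c40a80805110ae820d50412988251106a620d4040a888254100a02055041a888484100a821e1040408827310ce2209004130080201070221a0c41b808684102c22021040120818410d002118c423008341100c62118441a18867410902201c441c208281104e021e0c423808781102e8211d0401088284100c8205004140084801068020a0c4030081430000a4)))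
(n (nat_lit 3) (l (nat_lit 0x20062400c08012100232004240080800a1001320022400408002100032000240000804210081200e6a02114040a8064500c2a02014039a8071500c6a01808030280832010040185401028070200e8401c48031a804350068a004540002807450062a000d40082802150028a004d40122802360022a01014019a803050082a000540022804410b082160442c18856110ac6215cc42b8885640000a5))
(l (nat_lit 0x180443008660104c0201803430066600c4c018180243004660084c010180143002660044c008180043000660004c00010083200e0401908022100432008240100801a100330000a6))))

noncomputable def ta (a : Nat) : Nat := fw (nat_lit 19) tA a

noncomputable def tD : U := tD0

noncomputable def D (z : Nat) : Nat := fx tD z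

end

end Pool.Agent.P.MP_3f5ded_co.R.B8s65024
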