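import Pool.Agent.P.MP_3f5ded_co.B9Norm

set_option autoImplicit false

namespace Pool.Agent.P.MP_3f5ded_co.UG.N9

open Finset

variable {r : ℝ} {L : Lab} {g : Equiv.Perm ℕ}

/-- The level of an item. -/
noncomputable def lv (L : Lab) (v w : ℕ) : ℕ := lvl L (L.tm v w)

/-- New times from prescribed levels. -/
def Lab.ret (L : Lab) (f : ℕ → ℕ → ℕ) : Lab :=
  ⟨L.adj, L.col, fun v w => (4096 * f v w + 256 * L.col v w + idn v w : ℕ), L.ps⟩

lemma Valid.ret (h : Valid r L) (p : Pull L) (f : ℕ → ℕ → ℕ) (sym : ∀ v w, Ed L v w → f v w = f w v)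
    (arc : ∀ v w z, It L v w → It L v z → L.col v z = (L.col v w + 1) % 10 →
      f v w ≤ f v z ∧ (L.col v z = 0 → f v w < f v z))
    (inj : ∀ v w a b, It L v w → It L a b → L.col v w = 0 → L.col a b = 0 → f v w = f a b →
      L.tm v w = L.tm a b)
    (pos : ∀ v w, It L v w → 1 ≤ f v w) (one : f 0 11 = 1) :
    Valid r (L.ret f) ∧ Pull (L.ret f) ∧ Fst (L.ret f) ∧ ∀ v w, It L v w → lv (L.ret f) v w ≤ f v w := by
  have is : ∀ v w, Ed L v w → idn v w = idn w v := fun v w a => by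
    have := h.ne a
    unfold idn
    split_ifs <;> omega
  have eq : ∀ v w a b, It L v w → It L a b → L.tm v w = L.tm a b → (L.ret f).tm v w = (L.ret f).tm a b :=
    fun v w a b x y e => by
      rcases h.inj _ _ _ _ x y e with ⟨rfl, rfl⟩ | ⟨rfl, rfl, u⟩
      · rfl
      · simp only [Lab.ret, sym _ _ u, h.csym _ _ u, is _ _ u]
  refine ⟨⟨h.r0, h.sym, h.irr, h.e01, h.n02, h.n12, h.e2, h.deg, h.lt, h.csym,
    fun v w a => eq _ _ _ _ a.it (h.sym _ _ a).it (h.tsym _ _ a), h.psym, h.prop, fun v w z x y e => ?_,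
    fun v w a b x y e => ?_, h.step, h.ncon⟩, ⟨p.z0, p.z1, p.pre⟩, fun v w x => ?_, fun v w x => ?_⟩
  · have := arc v w z x y e
    have := h.lt v w x
    have := idn_lt x.lt
    change L.col v z = (L.col v w + 1) % 10 at e
    simp only [Lab.ret]
    omega
  · have l1 := x.lt
    have l2 := y.lt
    have := idn_lt l1
    have := idn_lt l2
    have : idn v w = idn a b := by
      simp only [Lab.ret] at e
      omega
    have : (a = v ∧ b = w) ∨ (a = w ∧ b = v) := by
      unfold idn at this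
      split_ifs at this <;> omega
    exact this.imp_right fun z => ⟨z.1, z.2, x.ed (.inr (by omega))⟩
  · have := pos v w x
    have := p.z0
    by_cases e : f v w = 1 ∧ L.col v w = 0
    · exact (eq _ _ _ _ x p0 (inj _ _ _ _ x p0 e.2 p.z0 (e.1.trans one.symm))).ge
    · have : idn 0 11 = 11 := rfl
      simp only [Lab.ret]
      omega
  · unfold lv lvl
    refine (card_le_card_of_injOn (t := Icc 1 (f v w)) (fun t : ℤ => t.toNat / 4096) (fun t y => ?_)
      fun s y t z e => ?_).trans (Nat.card_Icc 1 _).le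
    · obtain ⟨y, z⟩ := mem_filter.1 (mem_coe.1 y)
      obtain ⟨a, b, i, c, rfl⟩ := mem_T0.1 y
      have := pos a b i
      have := h.lt v w x
      have := idn_lt x.lt
      have := idn_lt i.lt
      change L.col a b = 0 at c
      simp only [Lab.ret, coe_Icc, Set.mem_Icc] at z ⊢
      omega
    · obtain ⟨a, b, i, c, rfl⟩ := mem_T0.1 (mem_filter.1 (mem_coe.1 y)).1
      obtain ⟨a', b', i', c', rfl⟩ := mem_T0.1 (mem_filter.1 (mem_coe.1 z)).1
      refine eq _ _ _ _ i i' (inj _ _ _ _ i i' c c' ?_)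
      have := idn_lt i.lt
      have := idn_lt i'.lt
      change L.col a b = 0 at c
      change L.col a' b' = 0 at c'
      simp only [Lab.ret] at e
      omega

/-- The item `v w` has a neighbour of the colour `c` whose level is at least `j`. -/
def Nb (L : Lab) (j v w c : ℕ) : Prop := Ls L j v c ∨ (Ed L v w ∧ Ls L j w c)

/-- The order of the items is chosen with small levels. -/
structure Can (L : Lab) : Prop where
  lm : ∀ j v w c, 2 ≤ j → It L v w → L.col v w = c + 1 → j ≤ lv L v w → Nb L j v w c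
  co1 : ∀ j, 2 ≤ j → lv L 1 12 = j + 1 → Ls L j 1 9
  co2 : ∀ j w, 2 ≤ j → It L 2 w → L.col 2 w = 0 → lv L 2 w = j + 1 → lv L 1 12 ≠ j → Nb L j 2 w 9

lemma lv_eq {v w a b : ℕ} (x : It L v w) (y : It L a b) (c : L.col v w = 0)
    (d : L.col a b = 0) (e : lv L v w = lv L a b) : L.tm v w = L.tm a b := by
  rcases lt_trichotomy (L.tm v w) (L.tm a b) with t | t | t
  · exact absurd e (lvl_lt t (mem_T0.2 ⟨_, _, y, d, rfl⟩)).ne
  · exact t
  · exact absurd e (lvl_lt t (mem_T0.2 ⟨_, _, x, c, rfl⟩)).ne'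

lemma Valid.lv_arc (h : Valid r L) {v w z : ℕ} (x : It L v w) (y : It L v z)
    (e : L.col v z = (L.col v w + 1) % 10) : lv L v w ≤ lv L v z ∧ (L.col v z = 0 → lv L v w < lv L v z) :=
  ⟨lvl_mono (h.arc v w z x y e).le, fun c => lvl_lt (h.arc v w z x y e) (mem_T0.2 ⟨_, _, y, c, rfl⟩)⟩

lemma Fst.one (f : Fst L) (p : Pull L) : lv L 0 11 = 1 := by
  refine le_antisymm ?_ (lvl_pos le_rfl (mem_T0.2 ⟨0, 11, p0, p.z0, rfl⟩))
  unfold lv lvl
  refine (card_le_card (t := {L.tm 0 11}) fun t ht => ?_).trans (card_singleton _).le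
  obtain ⟨v, w, y, -, rfl⟩ := mem_T0.1 (mem_filter.1 ht).1
  exact mem_singleton.2 (le_antisymm (mem_filter.1 ht).2 (f v w y))

/-- One item goes to the level `j`, the other items follow the map `φ`. -/
lemma Valid.move (h : Valid r L) (p : Pull L) (f : Fst L) {a b j c : ℕ} (i : It L a b) (φ : ℕ → ℕ)
    (hc : L.col a b = (c + 1) % 10) (c10 : c < 10) (j1 : 1 ≤ j) (n1 : lv L a b ≠ 1) (m : ∀ s, s ≤ φ s)
    (m1 : φ 1 = 1) (m2 : ∀ s t, s ≤ t → φ s ≤ φ t)
    (m3 : ∀ s t, s < t → (L.col a b = 0 → t ≠ lv L a b) → φ s < φ t)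
    (m4 : L.col a b = 0 → j < lv L a b ∧ ∀ s, φ s ≠ j) (m5 : j ≤ lv L a b)
    (n : ∀ v z, It L v z → L.col v z = c → v = a ∨ (v = b ∧ Ed L a b) →
      φ (lv L v z) ≤ j ∧ (L.col a b = 0 → φ (lv L v z) < j)) :
    ∃ L', Valid r L' ∧ Pull L' ∧ Fst L' ∧ L'.adj = L.adj ∧ L'.col = L.col ∧
      ∀ v w, It L v w → lv L' v w ≤ if L.tm v w = L.tm a b then j else φ (lv L v w) := by
  have l1 := f.one p
  have ce : ∀ v w, It L v w → L.tm v w = L.tm a b → L.col v w = L.col a b ∧ lv L v w = lv L a b ∧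
      (v = a ∨ (v = b ∧ Ed L a b)) := fun v w x e => by
    refine ⟨?_, congrArg (lvl L) e, ?_⟩ <;>
      rcases h.inj _ _ _ _ i x e.symm with ⟨rfl, rfl⟩ | ⟨rfl, rfl, u⟩
    exacts [rfl, (h.csym _ _ u).symm, .inl rfl, .inr ⟨rfl, u⟩]
  have ne : ∀ v w, It L v w → L.col v w = 0 → L.tm v w ≠ L.tm a b → L.col a b = 0 → lv L v w ≠ lv L a b :=
    fun v w x y z u e => z (lv_eq x i y u e)
  obtain ⟨x, y, z, w⟩ := h.ret p (fun v w => if L.tm v w = L.tm a b then j else φ (lv L v w))
    (fun v w e => by simp only [lv, h.tsym _ _ e]) (fun v w z x y e => by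
      have k := h.lv_arc x y e
      have := h.arc v w z x y e
      have := h.lt v w x
      split_ifs with s t t
      · omega
      · have := ce v w x s
        have := m (lv L v z)
        omega
      · have u := ce v z y t
        have := n v w x (by omega) u.2.2
        omega
      · exact ⟨m2 _ _ k.1, fun u => m3 _ _ (k.2 u) (ne v z y u t)⟩)
    (fun v w u z x y c d e => by
      split_ifs at e with s t t
      · exact s.trans t.symm
      · exact absurd e.symm ((m4 ((ce v w x s).1.symm.trans c)).2 _)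
      · exact absurd e ((m4 ((ce u z y t).1.symm.trans d)).2 _)
      · rcases lt_trichotomy (lv L v w) (lv L u z) with q | q | q
        · exact absurd e (m3 _ _ q (ne u z y d t)).ne
        · exact lv_eq x y c d q
        · exact absurd e (m3 _ _ q (ne v w x c s)).ne')
    (fun v w x => by
      split_ifs
      · exact j1
      · exact (lvl_pos (f v w x) (mem_T0.2 ⟨0, 11, p0, p.z0, rfl⟩)).trans (m _))
    (by rw [if_neg fun e => n1 ((ce 0 11 p0 e).2.1.symm.trans l1), l1, m1])
  exact ⟨_, x, y, z, rfl, rfl, w⟩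

open Classical in
/-- The quantity that is minimised. -/
noncomputable def mes (L : Lab) : ℕ ×ₗ ℕ ×ₗ ℕ :=
  toLex (lv L 1 12, toLex (∑ w ∈ range 16 with It L 2 w ∧ L.col 2 w = 0, lv L 2 w,
    ∑ p ∈ range 11 ×ˢ range 16 with It L p.1 p.2, lv L p.1 p.2))

lemma Valid.can (h : Valid r L) (p : Pull L) (f : Fst L) :
    ∃ L', Valid r L' ∧ Pull L' ∧ Fst L' ∧ Can L' := by
  classical
  obtain ⟨L, ⟨h, p, f⟩, mn⟩ := (InvImage.wf mes wellFounded_lt).has_min
    {L | Valid r L ∧ Pull L ∧ Fst L} ⟨L, h, p, f⟩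
  have nb : ∀ j a b c v z, ¬ Nb L j a b c → It L v z → L.col v z = c → v = a ∨ (v = b ∧ Ed L a b) →
      lv L v z < j := fun j a b c v z n x y e => not_le.1 fun q => by
    rcases e with rfl | ⟨rfl, e⟩
    exacts [n (.inl ⟨z, x, y, q⟩), n (.inr ⟨e, z, x, y, q⟩)]
  have it : ∀ L' : Lab, L'.adj = L.adj → It L' = It L := fun L' e => by
    funext v w
    simp only [It, Ed, e]
  have sw : ∀ j a b, 2 ≤ j → It L a b → L.col a b = 0 → lv L a b = j + 1 → ¬ Nb L j a b 9 →
      ∃ L', Valid r L' ∧ Pull L' ∧ Fst L' ∧ L'.adj = L.adj ∧ L'.col = L.col ∧ lv L' a b ≤ j ∧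
        (lv L 1 12 ≠ j → lv L' 1 12 ≤ lv L 1 12) := fun j a b j2 i c e n => by
    obtain ⟨L', x, y, z, u, v, w⟩ := h.move p f (j := j) (c := 9) i (fun s => if s = j then j + 1 else s) c
      (by omega) (by omega) (by omega) (fun s => by split_ifs <;> omega) (if_neg (by omega))
      (fun s t _ => by split_ifs <;> omega) (fun s t _ q => by have := q c; split_ifs <;> omega)
      (fun _ => ⟨by omega, fun s => by split_ifs <;> omega⟩) (by omega) fun v z x y q => by
        have := nb j a b 9 v z n x y q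
        split_ifs <;> omega
    refine ⟨L', x, y, z, u, v, (w a b i).trans_eq (if_pos rfl), fun q => (w 1 12 p1).trans ?_⟩
    split_ifs with t
    · have : lv L 1 12 = lv L a b := congrArg (lvl L) t
      omega
    · rfl
  refine ⟨L, h, p, f, fun j a b c j2 i e l => ?_, fun j j2 e => ?_, fun j w j2 i c e q => ?_⟩
  · by_contra n
    have := h.lt a b i
    obtain ⟨L', x, y, z, u, v, w⟩ := h.move p f (j := j - 1) (c := c) i id (by omega) (by omega) (by omega)
      (by omega) (fun _ => le_rfl) rfl (fun _ _ q => q) (fun _ _ q _ => q) (by omega) (by omega)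
      fun v z x y q => by
        have := nb j a b c v z n x y q
        simp only [id]
        omega
    have k : ∀ v w, It L v w → lv L' v w ≤ lv L v w := fun v z q => (w v z q).trans (by
      split_ifs with t
      · have : lv L v z = lv L a b := congrArg (lvl L) t
        omega
      · rfl)
    refine mn L' ⟨x, y, z⟩ ?_
    simp only [InvImage, mes, it L' u, v, Prod.Lex.toLex_lt_toLex]
    refine (k 1 12 p1).lt_or_eq.imp_right fun s => ⟨s, (sum_le_sum fun w q =>
      k 2 w (mem_filter.1 q).2.1).lt_or_eq.imp_right fun s => ⟨s, sum_lt_sum (fun w q =>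
        k _ _ (mem_filter.1 q).2) ⟨(a, b), by simp [i, i.lt.1, i.lt.2], ?_⟩⟩⟩
    have := (w a b i).trans_eq (if_pos rfl)
    dsimp only
    omega
  · by_contra n
    obtain ⟨L', x, y, z, -, -, w, -⟩ := sw j 1 12 j2 p1 p.z1 e fun q =>
      q.elim n fun q => absurd q.1.2.1 (by omega)
    refine mn L' ⟨x, y, z⟩ ?_
    simp only [InvImage, mes, Prod.Lex.toLex_lt_toLex]
    exact .inl (by omega)
  · by_contra n
    obtain ⟨L', x, y, z, u, v, s, t⟩ := sw j 2 w j2 i c e n
    refine mn L' ⟨x, y, z⟩ ?_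
    have : (range 16).filter (fun w => It L 2 w ∧ L.col 2 w = 0) = {w} :=
      eq_singleton_iff_unique_mem.2 ⟨by simp [i, c, i.lt.2], fun a q =>
        h.prop 2 a w (mem_filter.1 q).2.1 i ((mem_filter.1 q).2.2.trans c.symm)⟩
    simp only [InvImage, mes, it L' u, v, Prod.Lex.toLex_lt_toLex, this, sum_singleton]
    exact (t q).lt_or_eq.imp_right fun s => ⟨s, .inl (by omega)⟩

lemma Can.act (c : Can L) (hg : Aut g) (a : g 1 = 1) (b : g 12 = 12) : Can (L.act g) := by
  have t := hg.two.1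
  have lv' : ∀ v w, lv (L.act g) v w = lv L (g v) (g w) := fun v w => by
    rw [lv, lvl, hg.T0]
    rfl
  have ls : ∀ j v c, Ls L j (g v) c → Ls (L.act g) j v c := fun j v c ⟨w, x, y, z⟩ => by
    obtain ⟨w, rfl⟩ := g.surjective w
    exact ⟨w, hg.it.2 x, y, z.trans_eq (lv' v w).symm⟩
  have nb : ∀ j v w c, Nb L j (g v) (g w) c → Nb (L.act g) j v w c := fun j v w c x =>
    x.imp (ls _ _ _) fun y => ⟨hg.ed.2 y.1, ls _ _ _ y.2⟩
  refine ⟨fun j v w d x y z u => nb _ _ _ _ (c.lm j _ _ d x (hg.it.1 y) z (lv' v w ▸ u)),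
    fun j x y => ls _ _ _ ?_, fun j w x y z u v => nb _ _ _ _ ?_⟩
  · rw [lv', a, b] at y
    rw [a]
    exact c.co1 j x y
  · rw [lv', a, b] at v
    rw [lv', t] at u
    rw [hg.it, t] at y
    rw [t]
    exact c.co2 j _ x y (by simpa only [Lab.act, t] using z) u v

end Pool.Agent.P.MP_3f5ded_co.UG.N9
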