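set_option autoImplicit false

namespace Pool.Agent.P.MP_3f5ded_co.UG.N9

/-! The clauses that describe a colouring of the block, generated from a hint. -/

/-- number of an atom -/
def cd (k a b c d : Nat) : Nat :=
  Nat.add (Nat.mul (Nat.add (Nat.mul (Nat.add (Nat.mul (Nat.add (Nat.mul k 8) a) 16) b) 16) c) 16) d

def aX (v w c : Nat) : Nat := cd 1 0 (Nat.sub v (Nat.sub v w)) (Nat.add w (Nat.sub v w)) c
def aM (v c : Nat) : Nat := cd 2 0 0 v c
def aP (p c : Nat) : Nat := cd 3 0 0 p c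
def aL (j v c : Nat) : Nat := cd 4 j 0 v c
def aU (j v c : Nat) : Nat := cd 5 j 0 v c
def aD (j t c : Nat) : Nat := cd 6 j 0 t c
def aE (j v : Nat) : Nat := cd 7 j 0 v 0
def aR (o a c v : Nat) : Nat := cd 8 o (Nat.add (Nat.mul 8 a) (Nat.div c 16)) (Nat.mod c 16) v
def aK (o p l a : Nat) : Nat := cd 9 o p l a
def aN (v w : Nat) : Nat := cd 10 0 0 (Nat.sub v (Nat.sub v w)) (Nat.add w (Nat.sub v w))
def aT (v c : Nat) : Nat := cd 11 0 0 v c
def aG (j v : Nat) : Nat := cond (Nat.ble 7 j) (aL 7 v 0) (aE j v)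

def pos (x : Nat) : Nat := Nat.mul 2 x
def neg (x : Nat) : Nat := Nat.succ (Nat.mul 2 x)

def pL (j v c : Nat) : List Nat := cond (Nat.beq j 1) [neg (aM v c)] (cond (Nat.ble 8 j) [] [pos (aL j v c)])
def nL (j v c : Nat) : List Nat := cond (Nat.beq j 1) [pos (aM v c)] [neg (aL j v c)]
def pP (v c : Nat) : List Nat := cond (Nat.ble v 2) [pos (aT v c)] []

/-- `v w` can be an edge -/
def eb (v w : Nat) : Bool := cond (Nat.beq v w) false (!Nat.beq (Nat.add w (Nat.sub v w)) 2)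

/-- `v w` is an edge, for `v < w` -/
def fx (v w : Nat) : Bool := cond (Nat.beq v 2) true (Nat.beq w 1)

/-- the vertex of a port -/
def ow (p : Nat) : Nat := Nat.mod (Nat.shiftRight 0x02110 (Nat.mul 4 p)) 16

/-- next colour -/
def nx (c : Nat) : Nat := Nat.mod (Nat.succ c) 10

/-- previous colour -/
def pv (c : Nat) : Nat := Nat.mod (Nat.add c 9) 10

def r11 : List Nat := [0, 1, 2, 3, 4, 5, 6, 7, 8, 9, 10]
def r10 : List Nat := [0, 1, 2, 3, 4, 5, 6, 7, 8, 9]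
def r5 : List Nat := [0, 1, 2, 3, 4]

/-- a bit -/
def bt (c d e k : Nat) : Bool :=
  Nat.beq (Nat.mod (Nat.shiftRight (Nat.add c (Nat.mul 32 (Nat.add d (Nat.mul 32 e)))) k) 2) 1

/-- a set of vertices -/
def sb (c d e : Nat) : List Nat := r11.filter (bt c d e)

/-- a digit in base four -/
def dg (b c d e k : Nat) : Nat := Nat.mod (Nat.shiftRight
  (Nat.add b (Nat.mul 32 (Nat.add c (Nat.mul 32 (Nat.add d (Nat.mul 32 e)))))) (Nat.mul 2 k)) 4

/-- the cases -/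
def cb (s : Nat) : List Nat := List.getD [
  [65584, 33344, 34144, 34688, 35232, 237600, 241680],
  [65584, 33344, 34144, 34688, 35232, 237600, 245776],
  [65584, 33344, 34144, 34688, 35232, 237600],
  [65584, 33344, 34144, 34688, 35232, 241696, 237584],
  [65584, 33344, 34144, 34688, 35232, 241696],
  [65584, 33344, 34144, 34688, 35232, 245792, 237584],
  [65584, 33344, 34144, 34688, 35232, 245792],
  [65584, 33344, 34144, 34688, 35232, 249888, 237584],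
  [65584, 33344, 34144, 34688, 35232, 249888],
  [65584, 33344, 34144, 34688, 35232, 237584],
  [65584, 33344, 34144, 34688, 35232],
  [360480, 33600, 34144, 34688, 35232, 237584],
  [360480, 33600, 34144, 34688, 35232],
  [65584, 65600, 65616, 33376, 34688, 35232, 237584],
  [65584, 65600, 65616, 33376, 34688, 35232],
  [65584, 65600, 360480, 34144, 34688, 35232],
  [65568, 33600, 34144, 34688, 35232],
  [65584, 65600, 65568, 34144, 34688, 35232]] s []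

/-- a side condition -/
def gd (b : Bool) (l : List Nat) : List Nat := cond b l [0]

def f0 (_s a b _c _d _e : Nat) : List Nat :=
  gd (Nat.ble (Nat.succ a) b) (gd (Nat.ble b 10)
    ((r10.map fun k => pos (aX a b k)) ++ cond (fx a b) [] [pos (aN a b)]))

def f1 (_s a b c d _e : Nat) : List Nat :=
  gd (Nat.ble a 10) (gd (Nat.ble b 10) (gd (Nat.ble (Nat.succ c) d) (gd (Nat.ble d 9)
    [neg (aX a b c), neg (aX a b d)])))

def f2 (_s a b c _d _e : Nat) : List Nat :=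
  gd (Nat.ble a 10) (gd (Nat.ble b 10) (gd (Nat.ble c 9)
    [neg (aX a b c), neg (aN a b)]))

def f3 (_s a _b _c _d _e : Nat) : List Nat :=
  gd (Nat.ble a 10)
    (r10.map fun k => pos (aM a k))

def f4 (_s a b c _d _e : Nat) : List Nat :=
  gd (Nat.ble a 10) (gd (Nat.ble (Nat.succ b) c) (gd (Nat.ble c 9)
    [neg (aM a b), neg (aM a c)]))

def f5 (_s a _b _c _d _e : Nat) : List Nat :=
  gd (Nat.ble a 4)
    (r10.map fun k => pos (aP a k))

def f6 (_s a b c _d _e : Nat) : List Nat :=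
  gd (Nat.ble a 4) (gd (Nat.ble (Nat.succ b) c) (gd (Nat.ble c 9)
    [neg (aP a b), neg (aP a c)]))

def f7 (_s a b _c _d _e : Nat) : List Nat :=
  gd (Nat.ble a 4) (gd (Nat.ble b 9)
    [neg (aP a b), pos (aT (ow a) b)])

def f8 (_s a b _c _d _e : Nat) : List Nat :=
  gd (Nat.ble a 2) (gd (Nat.ble b 9)
    (neg (aT a b) :: (r5.filter fun p => Nat.beq (ow p) a).map fun p => pos (aP p b)))

def f9 (_s a b c _d _e : Nat) : List Nat :=
  gd (Nat.ble (Nat.succ a) b) (gd (Nat.ble b 4) (gd (Nat.ble c 9) (gd (Nat.beq (ow a) (ow b))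
    [neg (aP a c), neg (aP b c)])))

def f10 (_s a b _c _d _e : Nat) : List Nat :=
  gd (Nat.ble a 10) (gd (Nat.ble b 9)
    (((r11.filter fun w => eb a w).map fun w => pos (aX a w b)) ++ pos (aM a b) :: pP a b))

def f11 (_s a b c d _e : Nat) : List Nat :=
  gd (Nat.ble a 10) (gd (Nat.ble (Nat.succ b) c) (gd (Nat.ble c 10) (gd (Nat.ble d 9)
    [neg (aX a b d), neg (aX a c d)])))

def f12 (_s a b c _d _e : Nat) : List Nat :=
  gd (Nat.ble a 10) (gd (Nat.ble b 10) (gd (Nat.ble c 9)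
    [neg (aX a b c), neg (aM a c)]))

def f13 (_s a b c _d _e : Nat) : List Nat :=
  gd (Nat.ble a 10) (gd (Nat.ble b 10) (gd (Nat.ble c 9)
    [neg (aX a b c), neg (aT a c)]))

def f14 (_s a b _c _d _e : Nat) : List Nat :=
  gd (Nat.ble a 10) (gd (Nat.ble b 9)
    [neg (aM a b), neg (aT a b)])

def f15 (_s a b c _d _e : Nat) : List Nat :=
  gd (Nat.ble 2 a) (gd (Nat.ble a 7) (gd (Nat.ble b 10) (gd (Nat.ble c 9)
    (neg (aL a b c) :: pL (Nat.sub a 1) b c))))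

def f16 (_s a b c _d _e : Nat) : List Nat :=
  gd (Nat.ble a 7) (gd (Nat.ble b 10) (gd (Nat.ble c 9)
    [neg (aL a b c), neg (aM b c)]))

def f17 (_s a b c _d _e : Nat) : List Nat :=
  gd (Nat.ble a 7) (gd (Nat.ble b 10) (gd (Nat.ble c 8)
    [neg (aL a b c), pos (aM b (Nat.succ c)), pos (aL a b (Nat.succ c))]))

def f18 (_s a b c d _e : Nat) : List Nat :=
  gd (Nat.ble a 7) (gd (Nat.ble b 10) (gd (Nat.ble c 10) (gd (Nat.ble d 9)
    [neg (aX b c d), neg (aL a c d), pos (aL a b d)])))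

def f19 (_s a b c d _e : Nat) : List Nat :=
  gd (Nat.ble a 7) (gd (Nat.ble b 10) (gd (Nat.ble c 10) (gd (Nat.ble d 8)
    [neg (aX b c (Nat.succ d)), neg (aL a c d), pos (aL a b (Nat.succ d))])))

def f20 (_s a b _c _d _e : Nat) : List Nat :=
  gd (Nat.ble 1 a) (gd (Nat.ble a 7) (gd (Nat.ble b 10)
    (nL a b 9 ++ pos (aM b 0) :: pL (Nat.succ a) b 0)))

def f21 (_s a b c _d _e : Nat) : List Nat :=
  gd (Nat.ble 1 a) (gd (Nat.ble a 7) (gd (Nat.ble (Nat.succ b) c) (gd (Nat.ble c 10)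
    (nL a b 0 ++ (nL a c 0 ++ (pL (Nat.succ a) b 0 ++ (pL (Nat.succ a) c 0 ++
      cond (eb b c) [pos (aX b c 0)] [])))))))

def f22 (_s a b c _d _e : Nat) : List Nat :=
  gd (Nat.ble 1 a) (gd (Nat.ble a 7) (gd (Nat.ble b 10) (gd (Nat.ble c 9)
    (neg (aL a b c) :: r11.map fun w => pos (aL a w 0)))))

def f23 (_s a b _c _d _e : Nat) : List Nat :=
  gd (Nat.ble 1 a) (gd (Nat.ble a 6) (gd (Nat.ble b 10)
    (neg (aE a b) :: pL a b 0)))

def f24 (_s a b _c _d _e : Nat) : List Nat :=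
  gd (Nat.ble a 6) (gd (Nat.ble b 10)
    [neg (aE a b), neg (aL (Nat.succ a) b 0)])

def f25 (_s a b _c _d _e : Nat) : List Nat :=
  gd (Nat.ble 1 a) (gd (Nat.ble a 6) (gd (Nat.ble b 10)
    (pos (aE a b) :: (nL a b 0 ++ [pos (aL (Nat.succ a) b 0)]))))

def f26 (_s a b _c _d _e : Nat) : List Nat :=
  gd (Nat.ble 1 a) (gd (Nat.ble a 6) (gd (Nat.ble b 10)
    (neg (aL (Nat.succ a) b 0) :: r11.map fun w => pos (aE a w))))

def f27 (_s a b _c _d _e : Nat) : List Nat :=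
  gd (Nat.ble a 10) (gd (Nat.ble b 9)
    (neg (aU 0 a b) :: pos (aM a b) :: pP a b))

def f28 (_s a b _c _d _e : Nat) : List Nat :=
  gd (Nat.ble a 10) (gd (Nat.ble b 9)
    [pos (aU 0 a b), neg (aM a b)])

def f29 (_s a b _c _d _e : Nat) : List Nat :=
  gd (Nat.ble a 10) (gd (Nat.ble b 9)
    [pos (aU 0 a b), neg (aT a b)])

def f30 (_s a b c _d _e : Nat) : List Nat :=
  gd (Nat.ble a 7) (gd (Nat.ble b 10) (gd (Nat.ble c 9)
    [neg (aL a b c), neg (aT b c), pos (aU a b c)]))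

def f31 (_s a b c _d _e : Nat) : List Nat :=
  gd (Nat.ble a 7) (gd (Nat.ble b 10) (gd (Nat.ble c 9)
    (neg (aL a b c) :: neg (aU a b c) :: pP b c)))

def f32 (_s a b c _d _e : Nat) : List Nat :=
  gd (Nat.ble a 7) (gd (Nat.ble b 10) (gd (Nat.ble c 9)
    [pos (aL a b c), neg (aL a b (nx c)), pos (aU a b c)]))

def f33 (_s a b c _d _e : Nat) : List Nat :=
  gd (Nat.ble a 7) (gd (Nat.ble b 10) (gd (Nat.ble c 9)
    [pos (aL a b c), neg (aM b (nx c)), pos (aU a b c)]))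

def f34 (_s a b c _d _e : Nat) : List Nat :=
  gd (Nat.ble a 7) (gd (Nat.ble b 10) (gd (Nat.ble c 9)
    [pos (aL a b c), neg (aT b (nx c)), pos (aU a b c)]))

def f35 (_s a b c _d _e : Nat) : List Nat :=
  gd (Nat.ble a 7) (gd (Nat.ble b 10) (gd (Nat.ble c 9)
    (pos (aL a b c) :: pos (aL a b (nx c)) :: pos (aM b (nx c)) :: neg (aU a b c) :: pP b (nx c))))

def f36 (_s a b _c _d _e : Nat) : List Nat :=
  gd (Nat.ble a 7) (gd (Nat.ble b 9)
    (r11.map fun v => pos (aU a v b)))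

def f37 (_s a b c d e : Nat) : List Nat :=
  gd (Nat.ble a 7) (gd (Nat.ble b 9)
    (((sb c d e).map fun v => neg (aU a v b)) ++
      cond (Nat.ble (sb c d e).length 7) [pos (aD a (Nat.div (sb c d e).length 2) b)] []))

def f38 (_s a b c _d _e : Nat) : List Nat :=
  gd (Nat.ble a 7) (gd (Nat.ble b 9) (gd (Nat.ble c 2)
    [neg (aD a (Nat.succ c) b), pos (aD a c b)]))

def f39 (_s a b c d e : Nat) : List Nat :=
  gd (Nat.ble a 7) (gd (Nat.ble 4 (r10.map (dg b c d e)).sum)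
    ((r10.filter fun k => Nat.ble 1 (dg b c d e k)).map fun k => neg (aD a (dg b c d e k) k)))

def f40 (_s a b c d e : Nat) : List Nat :=
  gd (Nat.ble a 7) (gd (Nat.ble b 9) (gd (Nat.beq (Nat.mod (sb c d e).length 2) 0)
    (((sb c d e).map fun v => neg (aU a v b)) ++
      (r11.filter fun v => !bt c d e v).map fun v => pos (aU a v b))))

def f41 (_s a b _c _d _e : Nat) : List Nat :=
  gd (Nat.ble a 4) (gd (Nat.ble b 9)
    [neg (aP a b), pos (aR a 0 b (ow a))])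

def f42 (_s a b c _d _e : Nat) : List Nat :=
  gd (Nat.ble a 4) (gd (Nat.ble b 31) (gd (Nat.ble c 10)
    [neg (aR a 0 b c), pos (aR a 1 b c)]))

def f43 (_s a b c d _e : Nat) : List Nat :=
  gd (Nat.ble a 4) (gd (Nat.ble b 1) (gd (Nat.ble c 30) (gd (Nat.ble d 10)
    [neg (aR a b c d), pos (aM d (nx c)), pos (aR a b (Nat.succ c) d)])))

def f44 (_s a b c d e : Nat) : List Nat :=
  gd (Nat.ble a 4) (gd (Nat.ble b 1) (gd (Nat.ble c 31) (gd (Nat.ble d 10) (gd (Nat.ble e 10)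
    [neg (aR a b c d), neg (aX d e (Nat.mod c 10)), pos (aR a b c e)]))))

def f45 (_s a b c _d _e : Nat) : List Nat :=
  gd (Nat.ble a 4) (gd (Nat.ble b 29) (gd (Nat.ble c 10)
    [neg (aR a 0 b c), neg (aM c (nx b)), pos (aR a 1 (Nat.add b 2) c)]))

def f46 (_s a b c d e : Nat) : List Nat :=
  gd (Nat.ble a 4) (gd (Nat.ble b 4) (gd (Nat.ble c 9) (gd (Nat.ble d 1) (gd (Nat.ble e 9)
    [neg (aP a e), neg (aP b (Nat.mod (Nat.add (Nat.add e c) d) 10)),
      neg (aR a d (Nat.add (Nat.add e c) d) (ow b)), pos (aK a b c d)]))))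

def f47 (_s a b _c _d _e : Nat) : List Nat :=
  gd (Nat.ble 2 a) (gd (Nat.ble a 4) (gd (Nat.ble b 2) (gd (Nat.beq (Nat.mod a 2) 0)
    [neg (aK a (Nat.sub 6 a) 5 (cond (Nat.beq b 0) 1 0)), neg (aK (Nat.sub 6 a) 3 7 (cond (Nat.beq b 1) 1 0)),
      neg (aK 3 a 7 (cond (Nat.beq b 2) 1 0))])))

def f48 (_s a _b _c _d _e : Nat) : List Nat :=
  gd (Nat.ble 3 a) (gd (Nat.ble a 10)
    ((r11.filter fun w => cond (Nat.beq w 2) false (!Nat.beq w a)).map fun w => pos (aN a w)))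

def f49 (_s a b c _d _e : Nat) : List Nat :=
  gd (Nat.ble 3 a) (gd (Nat.ble a 10) (gd (Nat.ble (Nat.succ b) c) (gd (Nat.ble c 10) (gd (!Nat.beq b a) (gd (!Nat.beq c a)
    [neg (aN a b), neg (aN a c)])))))

def f50 (_s a b _c _d _e : Nat) : List Nat :=
  gd (Nat.ble a 1) (gd (Nat.ble 3 b) (gd (Nat.ble b 10)
    ((r11.filter fun w => cond (Nat.ble 3 w) (!Nat.beq w b) false).map fun w => pos (aN a w))))

def f51 (_s a b c d _e : Nat) : List Nat :=
  gd (Nat.ble a 1) (gd (Nat.ble 3 b) (gd (Nat.ble (Nat.succ b) c) (gd (Nat.ble (Nat.succ c) d) (gd (Nat.ble d 10)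
    [neg (aN a b), neg (aN a c), neg (aN a d)]))))

def f52 (_s a _b _c _d _e : Nat) : List Nat :=
  gd (Nat.ble a 1)
    [pos (aP a 0)]

def f53 (_s a _b _c _d _e : Nat) : List Nat :=
  gd (Nat.ble a 0)
    [neg (aL 2 0 0)]

def f54 (_s a b _c _d _e : Nat) : List Nat :=
  gd (Nat.ble 3 a) (gd (Nat.ble (Nat.succ a) b) (gd (Nat.ble b 10)
    [neg (aM b 0), pos (aM a 0)]))

def f55 (_s a b _c _d _e : Nat) : List Nat :=
  gd (Nat.ble 3 a) (gd (Nat.ble (Nat.succ a) b) (gd (Nat.ble b 10)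
    [neg (aX 2 b 0), pos (aM a 0)]))

def f56 (_s a b c _d _e : Nat) : List Nat :=
  gd (Nat.ble 3 a) (gd (Nat.ble (Nat.succ a) b) (gd (Nat.ble b 10) (gd (Nat.ble c 9)
    (neg (aM a 0) :: neg (aM b 0) :: neg (aX a 2 c) ::
      (r10.filter fun k => Nat.ble c k).map fun k => pos (aX b 2 k)))))

def f57 (_s a b c _d _e : Nat) : List Nat :=
  gd (Nat.ble 3 a) (gd (Nat.ble (Nat.succ a) b) (gd (Nat.ble b 10) (gd (Nat.ble c 7)
    [neg (aL c a 0), pos (aX 2 a 0), pos (aL c b 0)])))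

def f58 (_s a b c d _e : Nat) : List Nat :=
  gd (Nat.ble 3 a) (gd (Nat.ble (Nat.succ a) b) (gd (Nat.ble b 10) (gd (Nat.ble (Nat.succ d) c) (gd (Nat.ble c 10)
    (neg (aX a b 0) :: neg (aX a c 9) :: neg (aX b d 9) :: cond (eb c d) [pos (aX c d 0)] [])))))

def f59 (_s a b _c _d _e : Nat) : List Nat :=
  gd (Nat.ble 3 a) (gd (Nat.ble (Nat.succ a) b) (gd (Nat.ble b 10)
    [neg (aX a b 0), neg (aM a 9), pos (aM b 9)]))

def f60 (s a _b _c _d _e : Nat) : List Nat :=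
  gd (Nat.ble a 31)
    [pos ((cb s).getD a 0)]

def f61 (s a b _c _d _e : Nat) : List Nat :=
  gd (Nat.ble (Nat.succ (Nat.add a (Nat.mul 32 b))) s)
    ((cb (Nat.add a (Nat.mul 32 b))).map fun x => neg x)

def f62 (_s a b c _d _e : Nat) : List Nat :=
  gd (Nat.ble a 10) (gd (Nat.ble b 10) (gd (Nat.ble c 9)
    [neg (aX a b c), neg (aM a (pv c)), neg (aM b (pv c))]))

def f63 (_s a b _c _d _e : Nat) : List Nat :=
  gd (Nat.ble 2 a) (gd (Nat.ble a 4) (gd (Nat.ble b 9)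
    [neg (aP a b), neg (aM (ow a) (pv b))]))

def f64 (_s a b c d _e : Nat) : List Nat :=
  gd (Nat.ble 2 a) (gd (Nat.ble a 7) (gd (Nat.ble b 10) (gd (Nat.ble c 10) (gd (Nat.ble d 8)
    [neg (aX b c (Nat.succ d)), neg (aL a b (Nat.succ d)), pos (aL a b d), pos (aL a c d)]))))

def f65 (_s a b c _d _e : Nat) : List Nat :=
  gd (Nat.ble 2 a) (gd (Nat.ble a 7) (gd (Nat.ble b 10) (gd (Nat.ble c 8)
    [neg (aT b (Nat.succ c)), neg (aL a b (Nat.succ c)), pos (aL a b c)])))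

def f66 (_s a _b _c _d _e : Nat) : List Nat :=
  gd (Nat.ble 2 a) (gd (Nat.ble a 6)
    [neg (aG (Nat.succ a) 1), pos (aL a 1 9)])

def f67 (_s a _b _c _d _e : Nat) : List Nat :=
  gd (Nat.ble 2 a) (gd (Nat.ble a 6)
    [neg (aG (Nat.succ a) 2), pos (aE a 1), neg (aT 2 0), pos (aL a 2 9)])

def f68 (_s a b _c _d _e : Nat) : List Nat :=
  gd (Nat.ble 2 a) (gd (Nat.ble a 6) (gd (Nat.ble b 10)
    [neg (aG (Nat.succ a) 2), pos (aE a 1), neg (aX 2 b 0), pos (aL a 2 9), pos (aL a b 9)]))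

def g0 (t : Nat) : Nat → Nat → Nat → Nat → Nat → Nat → List Nat :=
  cond (Nat.ble 4 t) (cond (Nat.ble 6 t) (cond (Nat.ble 7 t) f7 f6) (cond (Nat.ble 5 t) f5 f4)) (cond (Nat.ble 2 t) (cond (Nat.ble 3 t) f3 f2) (cond (Nat.ble 1 t) f1 f0))

def g1 (t : Nat) : Nat → Nat → Nat → Nat → Nat → Nat → List Nat :=
  cond (Nat.ble 4 t) (cond (Nat.ble 6 t) (cond (Nat.ble 7 t) f15 f14) (cond (Nat.ble 5 t) f13 f12)) (cond (Nat.ble 2 t) (cond (Nat.ble 3 t) f11 f10) (cond (Nat.ble 1 t) f9 f8))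

def g2 (t : Nat) : Nat → Nat → Nat → Nat → Nat → Nat → List Nat :=
  cond (Nat.ble 4 t) (cond (Nat.ble 6 t) (cond (Nat.ble 7 t) f23 f22) (cond (Nat.ble 5 t) f21 f20)) (cond (Nat.ble 2 t) (cond (Nat.ble 3 t) f19 f18) (cond (Nat.ble 1 t) f17 f16))

def g3 (t : Nat) : Nat → Nat → Nat → Nat → Nat → Nat → List Nat :=
  cond (Nat.ble 4 t) (cond (Nat.ble 6 t) (cond (Nat.ble 7 t) f31 f30) (cond (Nat.ble 5 t) f29 f28)) (cond (Nat.ble 2 t) (cond (Nat.ble 3 t) f27 f26) (cond (Nat.ble 1 t) f25 f24))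

def g4 (t : Nat) : Nat → Nat → Nat → Nat → Nat → Nat → List Nat :=
  cond (Nat.ble 4 t) (cond (Nat.ble 6 t) (cond (Nat.ble 7 t) f39 f38) (cond (Nat.ble 5 t) f37 f36)) (cond (Nat.ble 2 t) (cond (Nat.ble 3 t) f35 f34) (cond (Nat.ble 1 t) f33 f32))

def g5 (t : Nat) : Nat → Nat → Nat → Nat → Nat → Nat → List Nat :=
  cond (Nat.ble 4 t) (cond (Nat.ble 6 t) (cond (Nat.ble 7 t) f47 f46) (cond (Nat.ble 5 t) f45 f44)) (cond (Nat.ble 2 t) (cond (Nat.ble 3 t) f43 f42) (cond (Nat.ble 1 t) f41 f40))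

def g6 (t : Nat) : Nat → Nat → Nat → Nat → Nat → Nat → List Nat :=
  cond (Nat.ble 4 t) (cond (Nat.ble 6 t) (cond (Nat.ble 7 t) f55 f54) (cond (Nat.ble 5 t) f53 f52)) (cond (Nat.ble 2 t) (cond (Nat.ble 3 t) f51 f50) (cond (Nat.ble 1 t) f49 f48))

def g7 (t : Nat) : Nat → Nat → Nat → Nat → Nat → Nat → List Nat :=
  cond (Nat.ble 4 t) (cond (Nat.ble 6 t) (cond (Nat.ble 7 t) f63 f62) (cond (Nat.ble 5 t) f61 f60)) (cond (Nat.ble 2 t) (cond (Nat.ble 3 t) f59 f58) (cond (Nat.ble 1 t) f57 f56))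

def g8 (t : Nat) : Nat → Nat → Nat → Nat → Nat → Nat → List Nat :=
  cond (Nat.ble 2 t) (cond (Nat.ble 3 t) (cond (Nat.ble 4 t) f68 f67) f66) (cond (Nat.ble 1 t) f65 f64)

def fam (t : Nat) : Nat → Nat → Nat → Nat → Nat → Nat → Nat → List Nat :=
  cond (Nat.ble 4 t) (cond (Nat.ble 6 t) (cond (Nat.ble 7 t) (cond (Nat.ble 8 t) g8 g7) g6) (cond (Nat.ble 5 t) g5 g4)) (cond (Nat.ble 2 t) (cond (Nat.ble 3 t) g3 g2) (cond (Nat.ble 1 t) g1 g0))

noncomputable section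

/-- the list is an initial part of the digits -/
def cmp (l : List Nat) : Nat → Nat → Nat :=
  List.rec (motive := fun _ => Nat → Nat → Nat) (fun _ _ => 0) (fun x _ ih n d =>
    Nat.rec (motive := fun _ => Nat) 1 (fun m _ => Nat.rec (motive := fun _ => Nat) 1
      (fun y _ => cond (Nat.beq (Nat.succ y) x) (ih m (Nat.div d 1048576)) 1) (Nat.mod d 1048576)) n) l

/-- evaluate first -/
def fr (x : Nat) (f : Nat → Nat) : Nat := Nat.rec (motive := fun _ => Nat) (f 0) (fun p _ => f (Nat.succ p)) x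

/-- test of the clause `c` with the hint `h` at the stage `s` -/
def chk (s c h : Nat) : Nat :=
  fr (Nat.mod (Nat.shiftRight h 3) 16) fun t => fr (Nat.mod h 8) fun u =>
  fr (Nat.mod (Nat.shiftRight h 7) 32) fun a => fr (Nat.mod (Nat.shiftRight h 12) 32) fun b =>
  fr (Nat.mod (Nat.shiftRight h 17) 32) fun k => fr (Nat.mod (Nat.shiftRight h 22) 32) fun d =>
  fr (Nat.mod (Nat.shiftRight h 27) 32) fun e => cmp (fam t u s a b k d e) 1024 (Nat.shiftRight c 56)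

end

end Pool.Agent.P.MP_3f5ded_co.UG.N9
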