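import Pool.Agent.P.MP_3f5ded_co.B9Lab

set_option autoImplicit false

namespace Pool.Agent.P.MP_3f5ded_co.UG.N9

open Finset

variable {r : ℝ} {L : Lab}

/-- `v` misses the colour `c`. -/
def Ms (L : Lab) (v c : ℕ) : Prop := ∀ w, It L v w → L.col v w ≠ c

/-- A port of `v` has the colour `c`. -/
def Ps (L : Lab) (v c : ℕ) : Prop := ∃ w, Pt v w ∧ L.col v w = c

lemma ms_not {v c : ℕ} (n : ¬ Ms L v c) : ∃ w, It L v w ∧ L.col v w = c := by
  by_contra m
  exact n fun w a e => m ⟨w, a, e⟩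

lemma Valid.dle (h : Valid r L) {v : ℕ} (hv : v < 11) (S : Finset ℕ) (a : ∀ w ∈ S, It L v w) :
    S.card ≤ 9 := h.deg v hv ▸ card_le_card fun w x => mem_its.2 (a w x)

lemma Valid.dge (h : Valid r L) {v : ℕ} (hv : v < 11) (S : Finset ℕ) (a : ∀ w, It L v w → w ∈ S) :
    9 ≤ S.card := h.deg v hv ▸ card_le_card fun w x => a w (mem_its.1 x)

lemma Valid.malo (h : Valid r L) {v : ℕ} (hv : v < 11) : ∃ c < 10, Ms L v c := by
  by_contra n
  have : range 10 ⊆ (its L v).image (L.col v) := fun c hc => by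
    by_contra m
    exact n ⟨c, mem_range.1 hc, fun w a e => m (mem_image.2 ⟨w, mem_its.2 a, e⟩)⟩
  have := (card_le_card this).trans card_image_le
  rw [h.deg v hv, card_range] at this
  omega

lemma Valid.mamo (h : Valid r L) {v b c : ℕ} (hv : v < 11) (hb : b < 10) (hc : c < 10)
    (m1 : Ms L v b) (m2 : Ms L v c) : b = c := by
  by_contra n
  have := card_le_card_of_injOn (s := its L v) (t := ((range 10).erase b).erase c) (L.col v)
    (fun w a => by
      have a := mem_its.1 a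
      simp only [coe_erase, Set.mem_sdiff, mem_coe, mem_range, Set.mem_singleton_iff]
      exact ⟨⟨h.lt v w a, m1 w a⟩, m2 w a⟩)
    fun w a z b e => h.prop v w z (mem_its.1 a) (mem_its.1 b) e
  rw [h.deg v hv, card_erase_of_mem (by simp; omega), card_erase_of_mem (by simpa), card_range] at this
  omega

lemma Valid.ne (h : Valid r L) {v w : ℕ} (e : Ed L v w) : v ≠ w := fun x => h.irr v (by rwa [← x] at e)

lemma Valid.nf1 (h : Valid r L) {v : ℕ} (hv : v < 11) : ∃ w < 11, w ≠ v ∧ ¬ Ed L v w := by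
  by_contra n
  have := h.dle hv ((range 11).erase v) fun w x => by
    by_contra m
    exact n ⟨w, mem_range.1 (mem_erase.1 x).2, (mem_erase.1 x).1, fun y => m y.it⟩
  rw [card_erase_of_mem (mem_range.2 hv), card_range] at this
  omega

lemma Valid.nf2 (h : Valid r L) {v w z : ℕ} (a : 3 ≤ v) (hv : v < 11) (hz : z < 11) (n : w < z) (nw : v ≠ w)
    (nz : v ≠ z) (x : ¬ Ed L v w) (y : ¬ Ed L v z) : False := by
  have := h.dge hv ((((range 11).erase v).erase w).erase z) fun u i => by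
    have e := i.ed (.inl a)
    simp only [mem_erase, mem_range]
    exact ⟨fun q => y (q ▸ e), fun q => x (q ▸ e), (h.ne e).symm, e.2.1⟩
  rw [card_erase_of_mem (by simp; omega), card_erase_of_mem (by simp; omega),
    card_erase_of_mem (mem_range.2 hv), card_range] at this
  omega

lemma Valid.nf3 (h : Valid r L) {v w : ℕ} (hv : v < 2) (a : 3 ≤ w) (b : w < 11) :
    ∃ z < 11, 3 ≤ z ∧ z ≠ w ∧ ¬ Ed L v z := by
  by_contra n
  have := h.dle (v := v) (by omega) (({1 - v, 11 + v, 15 - 2 * v} ∪ Ico 3 11).erase w) fun z x => by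
    simp only [mem_erase, mem_union, mem_insert, mem_singleton, mem_Ico] at x
    rcases x.2 with (y | y | y) | y
    · obtain rfl | rfl : v = 0 ∨ v = 1 := by omega
      exacts [y ▸ h.e01.it, y ▸ (h.sym _ _ h.e01).it]
    · exact .inr (by unfold Pt; omega)
    · exact .inr (by unfold Pt; omega)
    · by_contra m
      exact n ⟨z, y.2, y.1, x.1, fun e => m e.it⟩
  rw [card_erase_of_mem (by simp; omega)] at this
  obtain rfl | rfl : v = 0 ∨ v = 1 := by omega
  all_goals exact absurd this (by decide)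

lemma Valid.nf4 (h : Valid r L) {v a b c : ℕ} (hv : v < 2) (h1 : 3 ≤ a) (h2 : a < b) (h3 : b < c)
    (h4 : c < 11) (x : ¬ Ed L v a) (y : ¬ Ed L v b) (z : ¬ Ed L v c) : False := by
  have := h.dge (v := v) (by omega)
    (((({1 - v, 11 + v, 15 - 2 * v} ∪ Ico 3 11).erase a).erase b).erase c) fun u i => by
    simp only [mem_erase, mem_union, mem_insert, mem_singleton, mem_Ico]
    rcases i with e | e
    · have := h.ne e
      have := e.2.1
      have : u ≠ 2 := fun q => by
        obtain rfl | rfl : v = 0 ∨ v = 1 := by omega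
        exacts [h.n02 (q ▸ e), h.n12 (q ▸ e)]
      exact ⟨fun q => z (q ▸ e), fun q => y (q ▸ e), fun q => x (q ▸ e), by omega⟩
    · unfold Pt at e
      omega
  rw [card_erase_of_mem (by simp; omega), card_erase_of_mem (by simp; omega),
    card_erase_of_mem (by simp; omega)] at this
  obtain rfl | rfl : v = 0 ∨ v = 1 := by omega
  all_goals exact absurd this (by decide)

/-- No edge of colour `c` at `v`. -/
def Tok (L : Lab) (f : ℕ → ℕ → ℕ) (v c : ℕ) : Prop := ∀ w, Ed L v w → f v w ≠ c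

open Classical in
/-- The number of vertices without an edge of colour `c`. -/
noncomputable def ntok (L : Lab) (f : ℕ → ℕ → ℕ) (c : ℕ) : ℕ :=
  ((range 11).filter fun v => Tok L f v c).card

lemma Valid.odd (h : Valid r L) (c : ℕ) : ntok L L.col c % 2 = 1 := by
  classical
  set P := (range 11 ×ˢ range 11).filter fun p => Ed L p.1 p.2 ∧ L.col p.1 p.2 = c with hP
  have m : ∀ p, p ∈ P ↔ Ed L p.1 p.2 ∧ L.col p.1 p.2 = c := fun p => by
    simp only [hP, mem_filter, mem_product, mem_range]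
    exact ⟨fun x => x.2, fun x => ⟨⟨x.1.1, x.1.2.1⟩, x⟩⟩
  have e1 : ∑ _p ∈ P, (1 : ZMod 2) = 0 := sum_involution (fun p _ => p.swap) (fun _ _ => rfl)
    (fun p a _ e => h.ne ((m p).1 a).1 (congrArg Prod.snd e))
    (fun p a => (m _).2 ⟨h.sym _ _ ((m p).1 a).1, (h.csym _ _ ((m p).1 a).1).symm.trans ((m p).1 a).2⟩)
    fun _ _ => rfl
  have e2 : P.image Prod.fst = (range 11).filter fun v => ¬ Tok L L.col v c := by
    ext v
    simp only [mem_image, m, mem_filter, mem_range, Tok, not_forall, not_not]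
    exact ⟨fun ⟨p, a, e⟩ => e ▸ ⟨a.1.1, p.2, a.1, a.2⟩, fun ⟨_, w, a, b⟩ => ⟨(v, w), ⟨a, b⟩, rfl⟩⟩
  have e3 : (P.image Prod.fst).card = P.card := card_image_of_injOn fun p a q b e => by
    have a := (m p).1 a
    have b := (m q).1 b
    refine Prod.ext e (h.prop p.1 _ _ a.1.it (e ▸ b.1.it) ?_)
    rw [a.2, e, b.2]
  have e4 := card_filter_add_card_filter_not (s := range 11) fun v => Tok L L.col v c
  rw [sum_const, nsmul_one, ZMod.natCast_eq_zero_iff] at e1
  rw [← e2, e3, card_range] at e4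
  unfold ntok
  omega

lemma tok_cases {v c : ℕ} (t : Tok L L.col v c) : Ms L v c ∨ Ps L v c := by
  by_contra n
  exact n (.inl fun w a e => a.elim (fun x => t w x e) fun x => n (.inr ⟨w, x, e⟩))

lemma Valid.total (h : Valid r L) : ∑ c ∈ range 10, ntok L L.col c ≤ 16 := by
  classical
  unfold ntok
  simp only [card_filter]
  rw [sum_comm]
  simp only [← card_filter]
  have e : ∀ v ∈ range 11, ((range 10).filter fun c => Tok L L.col v c).card ≤
      if v < 2 then 3 else if v = 2 then 2 else 1 := by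
    intro v hv
    have hv := mem_range.1 hv
    obtain ⟨m, hm, a⟩ := h.malo hv
    have k : ∀ S : Finset ℕ, (∀ w, Pt v w → w ∈ S) →
        ((range 10).filter fun c => Tok L L.col v c).card ≤ S.card + 1 := fun S hS => by
      refine (card_le_card (t := insert m (S.image (L.col v))) fun c hc => ?_).trans
        ((card_insert_le _ _).trans (Nat.succ_le_succ card_image_le))
      rw [mem_filter, mem_range] at hc
      rcases tok_cases hc.2 with y | ⟨w, y, z⟩
      · simp [h.mamo hv hc.1 hm y a]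
      · exact mem_insert_of_mem (mem_image.2 ⟨w, hS w y, z⟩)
    split_ifs with x y
    · exact (k {11 + v, 15 - 2 * v} fun w p => by simp [Pt] at p ⊢; omega).trans
        (Nat.succ_le_succ card_le_two)
    · exact k {14} fun w p => by simp [Pt] at p ⊢; omega
    · exact k ∅ fun w p => by simp [Pt] at p ⊢; omega
  exact (sum_le_sum e).trans (by decide)

open Classical in
/-- The times of the items of colour zero. -/
noncomputable def T0 (L : Lab) : Finset ℤ :=
  ((range 11 ×ˢ range 16).filter fun p => It L p.1 p.2 ∧ L.col p.1 p.2 = 0).image fun p => L.tm p.1 p.2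

lemma mem_T0 {t : ℤ} : t ∈ T0 L ↔ ∃ v w, It L v w ∧ L.col v w = 0 ∧ L.tm v w = t := by
  simp only [T0, mem_image, mem_filter, mem_product, mem_range, Prod.exists]
  exact ⟨fun ⟨v, w, a, b⟩ => ⟨v, w, a.2.1, a.2.2, b⟩,
    fun ⟨v, w, a, b, c⟩ => ⟨v, w, ⟨a.lt, a, b⟩, c⟩⟩

/-- The level of a time. -/
noncomputable def lvl (L : Lab) (t : ℤ) : ℕ := ((T0 L).filter (· ≤ t)).card

lemma lvl_mono {s t : ℤ} (h : s ≤ t) : lvl L s ≤ lvl L t :=
  card_le_card fun _ a => mem_filter.2 ⟨(mem_filter.1 a).1, (mem_filter.1 a).2.trans h⟩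

lemma lvl_lt {s t : ℤ} (h : s < t) (m : t ∈ T0 L) : lvl L s < lvl L t :=
  card_lt_card ⟨fun _ a => mem_filter.2 ⟨(mem_filter.1 a).1, (mem_filter.1 a).2.trans h.le⟩,
    fun a => absurd (mem_filter.1 (a (mem_filter.2 ⟨m, le_rfl⟩))).2 (not_le.2 h)⟩

lemma lvl_pos {s t : ℤ} (h : s ≤ t) (m : s ∈ T0 L) : 1 ≤ lvl L t :=
  card_pos.2 ⟨s, mem_filter.2 ⟨m, h⟩⟩

lemma lvl_le (t : ℤ) : lvl L t ≤ (T0 L).card := card_filter_le _ _

lemma lvl_cont {j : ℕ} (hj : 1 ≤ j) (n : ℕ) : ∀ t, lvl L t = j + n → ∃ s ∈ T0 L, lvl L s = j := by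
  have top : ∀ t, 1 ≤ lvl L t → ∃ s ∈ T0 L, lvl L s = lvl L t ∧ lvl L (s - 1) + 1 = lvl L t := fun t p => by
    obtain ⟨s, a, b⟩ := exists_max_image ((T0 L).filter (· ≤ t)) id (card_pos.1 p)
    have a' := mem_filter.1 a
    have e : (T0 L).filter (· ≤ s) = (T0 L).filter (· ≤ t) := by
      ext x
      exact ⟨fun y => mem_filter.2 ⟨(mem_filter.1 y).1, (mem_filter.1 y).2.trans a'.2⟩,
        fun y => mem_filter.2 ⟨(mem_filter.1 y).1, b x y⟩⟩
    refine ⟨s, a'.1, congrArg card e, ?_⟩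
    unfold lvl
    rw [← card_erase_add_one a, ← e]
    congr 2
    ext x
    simp only [mem_filter, mem_erase]
    exact ⟨fun y => ⟨by omega, y.1, by omega⟩, fun y => ⟨y.2.1, by omega⟩⟩
  induction n with
  | zero =>
    intro t e
    obtain ⟨s, a, b, -⟩ := top t (by omega)
    exact ⟨s, a, b.trans e⟩
  | succ n ih =>
    intro t e
    obtain ⟨s, -, -, b⟩ := top t (by omega)
    exact ih (s - 1) (by omega)

/-- `v` has an item of colour `c` whose level is at least `j`. -/
def Ls (L : Lab) (j v c : ℕ) : Prop := ∃ w, It L v w ∧ L.col v w = c ∧ j ≤ lvl L (L.tm v w)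

/-- The colouring after moving the origin to the `j`-th item of colour zero. -/
noncomputable def cj (L : Lab) (j v w : ℕ) : ℕ :=
  if j ≤ lvl L (L.tm v w) then L.col v w else (L.col v w + 9) % 10

lemma cj_zero (L : Lab) : cj L 0 = L.col := by
  funext v w
  simp [cj]

lemma Valid.cut (h : Valid r L) (j : ℕ) :
    (∀ c, ntok L (cj L j) c % 2 = 1) ∧ ∑ c ∈ range 10, ntok L (cj L j) c ≤ 16 := by
  obtain ⟨B, a⟩ := h.recut (fun t => j ≤ lvl L t) fun v w z x y e q => q.trans (lvl_mono (h.arc v w z x y e).le)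
  have e : (L.cut r (fun t => j ≤ lvl L t) B).col = cj L j := by
    funext v w
    simp only [Lab.cut, cj]
    congr
  exact ⟨fun c => by have := a.odd c; rwa [e] at this, by have := a.total; rwa [e] at this⟩

lemma Valid.card7 (h : Valid r L) : (T0 L).card ≤ 7 := by
  classical
  have ex : ∀ v, ∃ t, ∀ w, It L v w → L.col v w = 0 → L.tm v w = t := fun v => by
    by_cases x : ∃ w, It L v w ∧ L.col v w = 0
    · obtain ⟨w, a, b⟩ := x
      exact ⟨_, fun z c d => by rw [h.prop v z w c a (d.trans b.symm)]⟩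
    · exact ⟨0, fun w a b => absurd ⟨w, a, b⟩ x⟩
  choose f hf using ex
  set S := (Ico 3 11).filter fun v => ∃ w, 3 ≤ w ∧ Ed L v w ∧ L.col v w = 0 with hS
  have m : ∀ v w, 3 ≤ v → 3 ≤ w → Ed L v w → L.col v w = 0 → v ∈ S := fun v w a b c d =>
    mem_filter.2 ⟨mem_Ico.2 ⟨a, c.1⟩, w, b, c, d⟩
  have k : 2 * (S.image f).card ≤ S.card := mul_card_image_le_card S 2 fun t ht => by
    obtain ⟨v, a, rfl⟩ := mem_image.1 ht
    obtain ⟨b, w, c, d, e⟩ := mem_filter.1 a
    have e' := (h.csym _ _ d).symm.trans e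
    refine one_lt_card.2 ⟨v, mem_filter.2 ⟨a, rfl⟩, w, mem_filter.2
      ⟨m w v c (mem_Ico.1 b).1 (h.sym _ _ d) e', ?_⟩, h.ne d⟩
    rw [← hf v w d.it e, ← hf w v (h.sym _ _ d).it e', h.tsym _ _ d]
  have k' : S.card ≤ 8 := card_filter_le _ _
  have : T0 L ⊆ {f 0, f 1, f 2} ∪ S.image f := fun t ht => by
    obtain ⟨v, w, a, b, rfl⟩ := mem_T0.1 ht
    have lo : ∀ v w, v < 3 → It L v w → L.col v w = 0 → L.tm v w ∈ ({f 0, f 1, f 2} : Finset ℤ) :=
      fun v w x y z => by
        rw [hf v w y z]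
        interval_cases v <;> simp
    by_cases x : v < 3
    · exact mem_union_left _ (lo v w x a b)
    have e := a.ed (.inl (not_lt.1 x))
    by_cases y : w < 3
    · exact mem_union_left _ (h.tsym _ _ e ▸ lo w v y (h.sym _ _ e).it (h.csym _ _ e ▸ b))
    · exact mem_union_right _ (mem_image.2 ⟨v, m v w (by omega) (by omega) e b, (hf v w a b).symm⟩)
  have := (card_le_card this).trans (card_union_le _ _)
  have : ({f 0, f 1, f 2} : Finset ℤ).card ≤ 3 := card_le_three
  omega

end Pool.Agent.P.MP_3f5ded_co.UG.N9
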