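import Pool.Agent.P.MP_3f5ded_co.B9Sem

set_option autoImplicit false
set_option linter.unusedSimpArgs false
set_option linter.unusedVariables false

namespace Pool.Agent.P.MP_3f5ded_co.UG.N9

open Finset RRup

variable {r : ℝ} {L : Lab} {s : ℕ}

lemma nbq {a b : ℕ} (h : a ≠ b) : Nat.beq a b = false := by
  cases e : Nat.beq a b
  · rfl
  · exact absurd (Nat.eq_of_beq_eq_true e) h

lemma nmod (a b : ℕ) : Nat.mod a b = a % b := rfl

lemma sb_card (c d e : ℕ) : (sb c d e).toFinset.card = (sb c d e).length :=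
  List.toFinset_card_of_nodup (List.Nodup.filter _ (by decide))

open Classical in
lemma sb_sub {a b c d e : ℕ} (ha : a < 8) (hb : b < 16) (x : ∀ v ∈ sb c d e, W r L (aU a v b)) :
    (sb c d e).toFinset ⊆ (range 11).filter fun v => Tok L (cj L a) v b := fun v hv => by
  have hv := List.mem_toFinset.1 hv
  have := m11.1 (List.mem_filter.1 hv).1
  exact mem_filter.2 ⟨mem_range.2 this, (wU ha (by omega) hb).mp (x v hv)⟩

lemma s0 (hv : V r s L) (a b c d e : ℕ) : G r L (f0 s a b c d e) := by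
  refine .gd fun h1 => .gd fun h2 => .of ?_
  have nf := hv.nf
  have h := nf.val
  simp only [Nat.ble_eq, Nat.beq_eq, Nat.succ_eq_add_one, nmod] at h1 h2
  rw [sat_app, sat_cond]
  by_cases x : Ed L a b
  · have := h.lt a b x.it
    exact .inl (sat_mapP.2 ⟨_, m10.2 this, (wX h (by omega) (by omega) (by omega)).2 ⟨x, rfl⟩⟩)
  · refine .inr (.inr ⟨fun y => x ?_, sat_pos.2 (.inl ((wN h (by omega) (by omega)).2 x))⟩)
    have : a = 2 ∨ b = 1 := by
      by_contra n
      simp [fx, nbq (not_or.1 n).1, nbq (not_or.1 n).2] at y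
    obtain rfl | rfl := this
    · exact h.e2 b (by omega) (by omega)
    · obtain rfl : a = 0 := by omega
      exact h.e01

lemma s1 (hv : V r s L) (a b c d e : ℕ) : G r L (f1 s a b c d e) := by
  refine .gd fun h1 => .gd fun h2 => .gd fun h3 => .gd fun h4 => .of ?_
  have nf := hv.nf
  have h := nf.val
  simp only [Nat.ble_eq, Nat.beq_eq, Nat.succ_eq_add_one, nmod] at h1 h2 h3 h4
  simp (disch := omega) only [sat_pos, sat_neg, sat_app, sat_nil, or_false, cj_zero, nx_eq, pv_eq, nmod,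
    Nat.succ_eq_add_one, Nat.add_eq, Nat.sub_eq, wX h, wN h, wM, wP, wT, wL, wU, wD, wE, wR, wK, sat_pP,
    sat_pL nf, sat_nL nf]
  by_contra n
  simp only [not_or, not_not] at n
  have := n.1.2
  have := n.2.2
  omega

lemma s2 (hv : V r s L) (a b c d e : ℕ) : G r L (f2 s a b c d e) := by
  refine .gd fun h1 => .gd fun h2 => .gd fun h3 => .of ?_
  have nf := hv.nf
  have h := nf.val
  simp only [Nat.ble_eq, Nat.beq_eq, Nat.succ_eq_add_one, nmod] at h1 h2 h3
  simp (disch := omega) only [sat_pos, sat_neg, sat_app, sat_nil, or_false, cj_zero, nx_eq, pv_eq, nmod,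
    Nat.succ_eq_add_one, Nat.add_eq, Nat.sub_eq, wX h, wN h, wM, wP, wT, wL, wU, wD, wE, wR, wK, sat_pP,
    sat_pL nf, sat_nL nf]
  by_contra n
  simp only [not_or, not_not] at n
  exact n.2 n.1.1

lemma s3 (hv : V r s L) (a b c d e : ℕ) : G r L (f3 s a b c d e) := by
  refine .gd fun h1 => .of ?_
  have nf := hv.nf
  have h := nf.val
  simp only [Nat.ble_eq, Nat.beq_eq, Nat.succ_eq_add_one, nmod] at h1
  obtain ⟨k, x, y⟩ := h.malo (show a < 11 by omega)
  exact sat_mapP.2 ⟨k, m10.2 x, (wM (by omega) (by omega)).mpr y⟩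

lemma s4 (hv : V r s L) (a b c d e : ℕ) : G r L (f4 s a b c d e) := by
  refine .gd fun h1 => .gd fun h2 => .gd fun h3 => .of ?_
  have nf := hv.nf
  have h := nf.val
  simp only [Nat.ble_eq, Nat.beq_eq, Nat.succ_eq_add_one, nmod] at h1 h2 h3
  simp (disch := omega) only [sat_pos, sat_neg, sat_app, sat_nil, or_false, cj_zero, nx_eq, pv_eq, nmod,
    Nat.succ_eq_add_one, Nat.add_eq, Nat.sub_eq, wX h, wN h, wM, wP, wT, wL, wU, wD, wE, wR, wK, sat_pP,
    sat_pL nf, sat_nL nf]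
  by_contra n
  simp only [not_or, not_not] at n
  have := h.mamo (by omega) (by omega) (by omega) n.1 n.2
  omega

lemma s5 (hv : V r s L) (a b c d e : ℕ) : G r L (f5 s a b c d e) := by
  refine .gd fun h1 => .of ?_
  have nf := hv.nf
  have h := nf.val
  simp only [Nat.ble_eq, Nat.beq_eq, Nat.succ_eq_add_one, nmod] at h1
  have : pc L a < 10 := h.lt _ _ (pt_ow (show a < 5 by omega)).it
  exact sat_mapP.2 ⟨_, m10.2 this, (wP (by omega) (by omega)).mpr rfl⟩

lemma s6 (hv : V r s L) (a b c d e : ℕ) : G r L (f6 s a b c d e) := by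
  refine .gd fun h1 => .gd fun h2 => .gd fun h3 => .of ?_
  have nf := hv.nf
  have h := nf.val
  simp only [Nat.ble_eq, Nat.beq_eq, Nat.succ_eq_add_one, nmod] at h1 h2 h3
  simp (disch := omega) only [sat_pos, sat_neg, sat_app, sat_nil, or_false, cj_zero, nx_eq, pv_eq, nmod,
    Nat.succ_eq_add_one, Nat.add_eq, Nat.sub_eq, wX h, wN h, wM, wP, wT, wL, wU, wD, wE, wR, wK, sat_pP,
    sat_pL nf, sat_nL nf]
  by_contra n
  simp only [not_or, not_not] at n
  omega

lemma s7 (hv : V r s L) (a b c d e : ℕ) : G r L (f7 s a b c d e) := by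
  refine .gd fun h1 => .gd fun h2 => .of ?_
  have nf := hv.nf
  have h := nf.val
  simp only [Nat.ble_eq, Nat.beq_eq, Nat.succ_eq_add_one, nmod] at h1 h2
  have := ow_lt (show a < 5 by omega)
  simp (disch := omega) only [sat_pos, sat_neg, sat_app, sat_nil, or_false, cj_zero, nx_eq, pv_eq, nmod,
    Nat.succ_eq_add_one, Nat.add_eq, Nat.sub_eq, wX h, wN h, wM, wP, wT, wL, wU, wD, wE, wR, wK, sat_pP,
    sat_pL nf, sat_nL nf]
  by_contra n
  simp only [not_or, not_not] at n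
  exact n.2 ⟨_, pt_ow (by omega), n.1⟩

lemma s8 (hv : V r s L) (a b c d e : ℕ) : G r L (f8 s a b c d e) := by
  refine .gd fun h1 => .gd fun h2 => .of ?_
  have nf := hv.nf
  have h := nf.val
  simp only [Nat.ble_eq, Nat.beq_eq, Nat.succ_eq_add_one, nmod] at h1 h2
  simp (disch := omega) only [sat_pos, sat_neg, sat_app, sat_nil, or_false, cj_zero, nx_eq, pv_eq, nmod,
    Nat.succ_eq_add_one, Nat.add_eq, Nat.sub_eq, wX h, wN h, wM, wP, wT, wL, wU, wD, wE, wR, wK, sat_pP,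
    sat_pL nf, sat_nL nf]
  by_contra n
  simp only [not_or, not_not] at n
  obtain ⟨⟨w, x, y⟩, m⟩ := n
  obtain ⟨p, u, rfl, rfl⟩ := x.ow
  exact m (sat_mapP.2 ⟨p, List.mem_filter.2 ⟨m5.2 u, Nat.beq_refl _⟩, (wP (by omega) (by omega)).mpr y⟩)

lemma s9 (hv : V r s L) (a b c d e : ℕ) : G r L (f9 s a b c d e) := by
  refine .gd fun h1 => .gd fun h2 => .gd fun h3 => .gd fun h4 => .of ?_
  have nf := hv.nf
  have h := nf.val
  simp only [Nat.ble_eq, Nat.beq_eq, Nat.succ_eq_add_one, nmod] at h1 h2 h3 h4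
  simp (disch := omega) only [sat_pos, sat_neg, sat_app, sat_nil, or_false, cj_zero, nx_eq, pv_eq, nmod,
    Nat.succ_eq_add_one, Nat.add_eq, Nat.sub_eq, wX h, wN h, wM, wP, wT, wL, wU, wD, wE, wR, wK, sat_pP,
    sat_pL nf, sat_nL nf]
  by_contra n
  simp only [not_or, not_not] at n
  have := h.prop (ow a) (11 + a) (11 + b) (pt_ow (by omega)).it (h4 ▸ (pt_ow (p := b) (by omega)).it)
    (n.1.trans (by rw [h4]; exact n.2.symm))
  omega

lemma s10 (hv : V r s L) (a b c d e : ℕ) : G r L (f10 s a b c d e) := by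
  refine .gd fun h1 => .gd fun h2 => .of ?_
  have nf := hv.nf
  have h := nf.val
  simp only [Nat.ble_eq, Nat.beq_eq, Nat.succ_eq_add_one, nmod] at h1 h2
  simp (disch := omega) only [sat_pos, sat_neg, sat_app, sat_nil, or_false, cj_zero, nx_eq, pv_eq, nmod,
    Nat.succ_eq_add_one, Nat.add_eq, Nat.sub_eq, wX h, wN h, wM, wP, wT, wL, wU, wD, wE, wR, wK, sat_pP,
    sat_pL nf, sat_nL nf]
  by_contra n
  simp only [not_or, not_not] at n
  obtain ⟨w, i, x⟩ := ms_not n.2.1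
  rcases i with y | y
  · have := y.2.1
    exact n.1 (sat_mapP.2 ⟨w, List.mem_filter.2 ⟨m11.2 this, h.eb y⟩,
      (wX h (by omega) (by omega) (by omega)).2 ⟨y, x⟩⟩)
  · exact n.2.2 ⟨w, y, x⟩

lemma s11 (hv : V r s L) (a b c d e : ℕ) : G r L (f11 s a b c d e) := by
  refine .gd fun h1 => .gd fun h2 => .gd fun h3 => .gd fun h4 => .of ?_
  have nf := hv.nf
  have h := nf.val
  simp only [Nat.ble_eq, Nat.beq_eq, Nat.succ_eq_add_one, nmod] at h1 h2 h3 h4
  simp (disch := omega) only [sat_pos, sat_neg, sat_app, sat_nil, or_false, cj_zero, nx_eq, pv_eq, nmod,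
    Nat.succ_eq_add_one, Nat.add_eq, Nat.sub_eq, wX h, wN h, wM, wP, wT, wL, wU, wD, wE, wR, wK, sat_pP,
    sat_pL nf, sat_nL nf]
  by_contra n
  simp only [not_or, not_not] at n
  have := h.prop a b c n.1.1.it n.2.1.it (n.1.2.trans n.2.2.symm)
  omega

lemma s12 (hv : V r s L) (a b c d e : ℕ) : G r L (f12 s a b c d e) := by
  refine .gd fun h1 => .gd fun h2 => .gd fun h3 => .of ?_
  have nf := hv.nf
  have h := nf.val
  simp only [Nat.ble_eq, Nat.beq_eq, Nat.succ_eq_add_one, nmod] at h1 h2 h3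
  simp (disch := omega) only [sat_pos, sat_neg, sat_app, sat_nil, or_false, cj_zero, nx_eq, pv_eq, nmod,
    Nat.succ_eq_add_one, Nat.add_eq, Nat.sub_eq, wX h, wN h, wM, wP, wT, wL, wU, wD, wE, wR, wK, sat_pP,
    sat_pL nf, sat_nL nf]
  by_contra n
  simp only [not_or, not_not] at n
  exact n.2 b n.1.1.it n.1.2

lemma s13 (hv : V r s L) (a b c d e : ℕ) : G r L (f13 s a b c d e) := by
  refine .gd fun h1 => .gd fun h2 => .gd fun h3 => .of ?_
  have nf := hv.nf
  have h := nf.val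
  simp only [Nat.ble_eq, Nat.beq_eq, Nat.succ_eq_add_one, nmod] at h1 h2 h3
  simp (disch := omega) only [sat_pos, sat_neg, sat_app, sat_nil, or_false, cj_zero, nx_eq, pv_eq, nmod,
    Nat.succ_eq_add_one, Nat.add_eq, Nat.sub_eq, wX h, wN h, wM, wP, wT, wL, wU, wD, wE, wR, wK, sat_pP,
    sat_pL nf, sat_nL nf]
  by_contra n
  simp only [not_or, not_not] at n
  obtain ⟨⟨x, y⟩, w, u, v⟩ := n
  exact x.npt (h.prop a w b u.it x.it (v.trans y.symm) ▸ u)

lemma s14 (hv : V r s L) (a b c d e : ℕ) : G r L (f14 s a b c d e) := by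
  refine .gd fun h1 => .gd fun h2 => .of ?_
  have nf := hv.nf
  have h := nf.val
  simp only [Nat.ble_eq, Nat.beq_eq, Nat.succ_eq_add_one, nmod] at h1 h2
  simp (disch := omega) only [sat_pos, sat_neg, sat_app, sat_nil, or_false, cj_zero, nx_eq, pv_eq, nmod,
    Nat.succ_eq_add_one, Nat.add_eq, Nat.sub_eq, wX h, wN h, wM, wP, wT, wL, wU, wD, wE, wR, wK, sat_pP,
    sat_pL nf, sat_nL nf]
  by_contra n
  simp only [not_or, not_not] at n
  obtain ⟨m, w, u, v⟩ := n
  exact m w u.it v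

lemma s15 (hv : V r s L) (a b c d e : ℕ) : G r L (f15 s a b c d e) := by
  refine .gd fun h1 => .gd fun h2 => .gd fun h3 => .gd fun h4 => .of ?_
  have nf := hv.nf
  have h := nf.val
  simp only [Nat.ble_eq, Nat.beq_eq, Nat.succ_eq_add_one, nmod] at h1 h2 h3 h4
  simp (disch := omega) only [sat_pos, sat_neg, sat_app, sat_nil, or_false, cj_zero, nx_eq, pv_eq, nmod,
    Nat.succ_eq_add_one, Nat.add_eq, Nat.sub_eq, wX h, wN h, wM, wP, wT, wL, wU, wD, wE, wR, wK, sat_pP,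
    sat_pL nf, sat_nL nf]
  by_contra n
  simp only [not_or, not_not] at n
  obtain ⟨⟨w, x, y, z⟩, m⟩ := n
  exact m ⟨w, x, y, by omega⟩

lemma s16 (hv : V r s L) (a b c d e : ℕ) : G r L (f16 s a b c d e) := by
  refine .gd fun h1 => .gd fun h2 => .gd fun h3 => .of ?_
  have nf := hv.nf
  have h := nf.val
  simp only [Nat.ble_eq, Nat.beq_eq, Nat.succ_eq_add_one, nmod] at h1 h2 h3
  simp (disch := omega) only [sat_pos, sat_neg, sat_app, sat_nil, or_false, cj_zero, nx_eq, pv_eq, nmod,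
    Nat.succ_eq_add_one, Nat.add_eq, Nat.sub_eq, wX h, wN h, wM, wP, wT, wL, wU, wD, wE, wR, wK, sat_pP,
    sat_pL nf, sat_nL nf]
  by_contra n
  simp only [not_or, not_not] at n
  obtain ⟨⟨w, x, y, -⟩, m⟩ := n
  exact m w x y

lemma s17 (hv : V r s L) (a b c d e : ℕ) : G r L (f17 s a b c d e) := by
  refine .gd fun h1 => .gd fun h2 => .gd fun h3 => .of ?_
  have nf := hv.nf
  have h := nf.val
  simp only [Nat.ble_eq, Nat.beq_eq, Nat.succ_eq_add_one, nmod] at h1 h2 h3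
  simp (disch := omega) only [sat_pos, sat_neg, sat_app, sat_nil, or_false, cj_zero, nx_eq, pv_eq, nmod,
    Nat.succ_eq_add_one, Nat.add_eq, Nat.sub_eq, wX h, wN h, wM, wP, wT, wL, wU, wD, wE, wR, wK, sat_pP,
    sat_pL nf, sat_nL nf]
  by_contra n
  simp only [not_or, not_not] at n
  obtain ⟨z, i, x⟩ := ms_not n.2.1
  exact n.2.2 ⟨z, i, x, n.1.up h i (by omega)⟩

lemma s18 (hv : V r s L) (a b c d e : ℕ) : G r L (f18 s a b c d e) := by
  refine .gd fun h1 => .gd fun h2 => .gd fun h3 => .gd fun h4 => .of ?_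
  have nf := hv.nf
  have h := nf.val
  simp only [Nat.ble_eq, Nat.beq_eq, Nat.succ_eq_add_one, nmod] at h1 h2 h3 h4
  simp (disch := omega) only [sat_pos, sat_neg, sat_app, sat_nil, or_false, cj_zero, nx_eq, pv_eq, nmod,
    Nat.succ_eq_add_one, Nat.add_eq, Nat.sub_eq, wX h, wN h, wM, wP, wT, wL, wU, wD, wE, wR, wK, sat_pP,
    sat_pL nf, sat_nL nf]
  by_contra n
  simp only [not_or, not_not] at n
  obtain ⟨x, l, m⟩ := n
  exact m ⟨c, x.1.it, x.2, h.tsym _ _ x.1 ▸ l.uniq h (x.symm h).1.it (x.symm h).2⟩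

lemma s19 (hv : V r s L) (a b c d e : ℕ) : G r L (f19 s a b c d e) := by
  refine .gd fun h1 => .gd fun h2 => .gd fun h3 => .gd fun h4 => .of ?_
  have nf := hv.nf
  have h := nf.val
  simp only [Nat.ble_eq, Nat.beq_eq, Nat.succ_eq_add_one, nmod] at h1 h2 h3 h4
  simp (disch := omega) only [sat_pos, sat_neg, sat_app, sat_nil, or_false, cj_zero, nx_eq, pv_eq, nmod,
    Nat.succ_eq_add_one, Nat.add_eq, Nat.sub_eq, wX h, wN h, wM, wP, wT, wL, wU, wD, wE, wR, wK, sat_pP,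
    sat_pL nf, sat_nL nf]
  by_contra n
  simp only [not_or, not_not] at n
  obtain ⟨x, l, m⟩ := n
  exact m ⟨c, x.1.it, x.2, h.tsym _ _ x.1 ▸ l.up h (x.symm h).1.it (by rw [(x.symm h).2]; omega)⟩

lemma s20 (hv : V r s L) (a b c d e : ℕ) : G r L (f20 s a b c d e) := by
  refine .gd fun h1 => .gd fun h2 => .gd fun h3 => .of ?_
  have nf := hv.nf
  have h := nf.val
  simp only [Nat.ble_eq, Nat.beq_eq, Nat.succ_eq_add_one, nmod] at h1 h2 h3
  simp (disch := omega) only [sat_pos, sat_neg, sat_app, sat_nil, or_false, cj_zero, nx_eq, pv_eq, nmod,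
    Nat.succ_eq_add_one, Nat.add_eq, Nat.sub_eq, wX h, wN h, wM, wP, wT, wL, wU, wD, wE, wR, wK, sat_pP,
    sat_pL nf, sat_nL nf]
  by_contra n
  simp only [not_or, not_not] at n
  obtain ⟨z, i, x⟩ := ms_not n.2.1
  obtain ⟨t, y, w⟩ := n.1.lt h i x
  exact n.2.2 ⟨z, i, x, y.trans_lt (lvl_lt w (mem_T0.2 ⟨_, _, i, x, rfl⟩))⟩

lemma s21 (hv : V r s L) (a b c d e : ℕ) : G r L (f21 s a b c d e) := by
  refine .gd fun h1 => .gd fun h2 => .gd fun h3 => .gd fun h4 => .of ?_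
  have nf := hv.nf
  have h := nf.val
  simp only [Nat.ble_eq, Nat.beq_eq, Nat.succ_eq_add_one, nmod] at h1 h2 h3 h4
  simp (disch := omega) only [sat_pos, sat_neg, sat_app, sat_nil, or_false, cj_zero, nx_eq, pv_eq, nmod,
    Nat.succ_eq_add_one, Nat.add_eq, Nat.sub_eq, wX h, wN h, wM, wP, wT, wL, wU, wD, wE, wR, wK, sat_pP,
    sat_pL nf, sat_nL nf]
  by_contra n
  simp only [not_or, not_not] at n
  obtain ⟨⟨w, i, x, y⟩, ⟨z, i', x', y'⟩, p, q, m⟩ := n
  rcases lt_trichotomy (L.tm b w) (L.tm c z) with t | t | t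
  · exact q ⟨z, i', x', y.trans_lt (lvl_lt t (mem_T0.2 ⟨_, _, i', x', rfl⟩))⟩
  · rcases h.inj _ _ _ _ i i' t with ⟨u, -⟩ | ⟨rfl, -, u⟩
    · omega
    · exact m (sat_eb h (by omega) ⟨u, x⟩)
  · exact p ⟨w, i, x, y'.trans_lt (lvl_lt t (mem_T0.2 ⟨_, _, i, x, rfl⟩))⟩

lemma s22 (hv : V r s L) (a b c d e : ℕ) : G r L (f22 s a b c d e) := by
  refine .gd fun h1 => .gd fun h2 => .gd fun h3 => .gd fun h4 => .of ?_
  have nf := hv.nf
  have h := nf.val
  simp only [Nat.ble_eq, Nat.beq_eq, Nat.succ_eq_add_one, nmod] at h1 h2 h3 h4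
  simp (disch := omega) only [sat_pos, sat_neg, sat_app, sat_nil, or_false, cj_zero, nx_eq, pv_eq, nmod,
    Nat.succ_eq_add_one, Nat.add_eq, Nat.sub_eq, wX h, wN h, wM, wP, wT, wL, wU, wD, wE, wR, wK, sat_pP,
    sat_pL nf, sat_nL nf]
  by_contra n
  simp only [not_or, not_not] at n
  obtain ⟨⟨w, -, -, x⟩, m⟩ := n
  obtain ⟨t, y, z⟩ := lvl_cont (L := L) (j := a) (by omega) (lvl L (L.tm b w) - a) (L.tm b w) (by omega)
  obtain ⟨v, w, i, u, rfl⟩ := mem_T0.1 y
  have := i.lt.1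
  exact m (sat_mapP.2 ⟨v, m11.2 this, (wL (by omega) (by omega) (by omega)).mpr ⟨w, i, u, z.ge⟩⟩)

lemma s23 (hv : V r s L) (a b c d e : ℕ) : G r L (f23 s a b c d e) := by
  refine .gd fun h1 => .gd fun h2 => .gd fun h3 => .of ?_
  have nf := hv.nf
  have h := nf.val
  simp only [Nat.ble_eq, Nat.beq_eq, Nat.succ_eq_add_one, nmod] at h1 h2 h3
  simp (disch := omega) only [sat_pos, sat_neg, sat_app, sat_nil, or_false, cj_zero, nx_eq, pv_eq, nmod,
    Nat.succ_eq_add_one, Nat.add_eq, Nat.sub_eq, wX h, wN h, wM, wP, wT, wL, wU, wD, wE, wR, wK, sat_pP,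
    sat_pL nf, sat_nL nf]
  by_contra n
  simp only [not_or, not_not] at n
  exact n.2 n.1.1

lemma s24 (hv : V r s L) (a b c d e : ℕ) : G r L (f24 s a b c d e) := by
  refine .gd fun h1 => .gd fun h2 => .of ?_
  have nf := hv.nf
  have h := nf.val
  simp only [Nat.ble_eq, Nat.beq_eq, Nat.succ_eq_add_one, nmod] at h1 h2
  simp (disch := omega) only [sat_pos, sat_neg, sat_app, sat_nil, or_false, cj_zero, nx_eq, pv_eq, nmod,
    Nat.succ_eq_add_one, Nat.add_eq, Nat.sub_eq, wX h, wN h, wM, wP, wT, wL, wU, wD, wE, wR, wK, sat_pP,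
    sat_pL nf, sat_nL nf]
  by_contra n
  simp only [not_or, not_not] at n
  exact n.1.2 n.2

lemma s25 (hv : V r s L) (a b c d e : ℕ) : G r L (f25 s a b c d e) := by
  refine .gd fun h1 => .gd fun h2 => .gd fun h3 => .of ?_
  have nf := hv.nf
  have h := nf.val
  simp only [Nat.ble_eq, Nat.beq_eq, Nat.succ_eq_add_one, nmod] at h1 h2 h3
  simp (disch := omega) only [sat_pos, sat_neg, sat_app, sat_nil, or_false, cj_zero, nx_eq, pv_eq, nmod,
    Nat.succ_eq_add_one, Nat.add_eq, Nat.sub_eq, wX h, wN h, wM, wP, wT, wL, wU, wD, wE, wR, wK, sat_pP,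
    sat_pL nf, sat_nL nf]
  by_contra n
  simp only [not_or, not_not] at n
  exact n.1 ⟨n.2.1, n.2.2⟩

lemma s26 (hv : V r s L) (a b c d e : ℕ) : G r L (f26 s a b c d e) := by
  refine .gd fun h1 => .gd fun h2 => .gd fun h3 => .of ?_
  have nf := hv.nf
  have h := nf.val
  simp only [Nat.ble_eq, Nat.beq_eq, Nat.succ_eq_add_one, nmod] at h1 h2 h3
  simp (disch := omega) only [sat_pos, sat_neg, sat_app, sat_nil, or_false, cj_zero, nx_eq, pv_eq, nmod,
    Nat.succ_eq_add_one, Nat.add_eq, Nat.sub_eq, wX h, wN h, wM, wP, wT, wL, wU, wD, wE, wR, wK, sat_pP,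
    sat_pL nf, sat_nL nf]
  by_contra n
  simp only [not_or, not_not] at n
  obtain ⟨⟨w, -, -, x⟩, m⟩ := n
  obtain ⟨t, y, z⟩ := lvl_cont (L := L) (j := a) (by omega) (lvl L (L.tm b w) - a) (L.tm b w) (by omega)
  obtain ⟨v, w, i, u, rfl⟩ := mem_T0.1 y
  have := i.lt.1
  refine m (sat_mapP.2 ⟨v, m11.2 this, (wE (by omega) (by omega)).mpr ⟨⟨w, i, u, z.ge⟩, fun l => ?_⟩⟩)
  have := l.uniq h i u
  omega

lemma s27 (hv : V r s L) (a b c d e : ℕ) : G r L (f27 s a b c d e) := by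
  refine .gd fun h1 => .gd fun h2 => .of ?_
  have nf := hv.nf
  have h := nf.val
  simp only [Nat.ble_eq, Nat.beq_eq, Nat.succ_eq_add_one, nmod] at h1 h2
  simp (disch := omega) only [sat_pos, sat_neg, sat_app, sat_nil, or_false, cj_zero, nx_eq, pv_eq, nmod,
    Nat.succ_eq_add_one, Nat.add_eq, Nat.sub_eq, wX h, wN h, wM, wP, wT, wL, wU, wD, wE, wR, wK, sat_pP,
    sat_pL nf, sat_nL nf]
  by_contra n
  simp only [not_or, not_not] at n
  exact (tok_cases n.1).elim n.2.1 n.2.2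

lemma s28 (hv : V r s L) (a b c d e : ℕ) : G r L (f28 s a b c d e) := by
  refine .gd fun h1 => .gd fun h2 => .of ?_
  have nf := hv.nf
  have h := nf.val
  simp only [Nat.ble_eq, Nat.beq_eq, Nat.succ_eq_add_one, nmod] at h1 h2
  simp (disch := omega) only [sat_pos, sat_neg, sat_app, sat_nil, or_false, cj_zero, nx_eq, pv_eq, nmod,
    Nat.succ_eq_add_one, Nat.add_eq, Nat.sub_eq, wX h, wN h, wM, wP, wT, wL, wU, wD, wE, wR, wK, sat_pP,
    sat_pL nf, sat_nL nf]
  by_contra n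
  simp only [not_or, not_not] at n
  exact n.1 fun w x => n.2 w x.it

lemma s29 (hv : V r s L) (a b c d e : ℕ) : G r L (f29 s a b c d e) := by
  refine .gd fun h1 => .gd fun h2 => .of ?_
  have nf := hv.nf
  have h := nf.val
  simp only [Nat.ble_eq, Nat.beq_eq, Nat.succ_eq_add_one, nmod] at h1 h2
  simp (disch := omega) only [sat_pos, sat_neg, sat_app, sat_nil, or_false, cj_zero, nx_eq, pv_eq, nmod,
    Nat.succ_eq_add_one, Nat.add_eq, Nat.sub_eq, wX h, wN h, wM, wP, wT, wL, wU, wD, wE, wR, wK, sat_pP,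
    sat_pL nf, sat_nL nf]
  by_contra n
  simp only [not_or, not_not] at n
  obtain ⟨m, z, u, v⟩ := n
  exact m fun w x y => x.npt (h.prop a z w u.it x.it (v.trans y.symm) ▸ u)

lemma s30 (hv : V r s L) (a b c d e : ℕ) : G r L (f30 s a b c d e) := by
  refine .gd fun h1 => .gd fun h2 => .gd fun h3 => .of ?_
  have nf := hv.nf
  have h := nf.val
  simp only [Nat.ble_eq, Nat.beq_eq, Nat.succ_eq_add_one, nmod] at h1 h2 h3
  simp (disch := omega) only [sat_pos, sat_neg, sat_app, sat_nil, or_false, cj_zero, nx_eq, pv_eq, nmod,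
    Nat.succ_eq_add_one, Nat.add_eq, Nat.sub_eq, wX h, wN h, wM, wP, wT, wL, wU, wD, wE, wR, wK, sat_pP,
    sat_pL nf, sat_nL nf]
  by_contra n
  simp only [not_or, not_not] at n
  obtain ⟨l, ⟨p, q, t⟩, m⟩ := n
  refine m fun w x y => ?_
  rcases h.cj_eq x.it y with ⟨-, z⟩ | ⟨u, z⟩
  · exact x.npt (h.prop b p w q.it x.it (t.trans z.symm) ▸ q)
  · exact u (l.up h x.it z)

lemma s31 (hv : V r s L) (a b c d e : ℕ) : G r L (f31 s a b c d e) := by
  refine .gd fun h1 => .gd fun h2 => .gd fun h3 => .of ?_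
  have nf := hv.nf
  have h := nf.val
  simp only [Nat.ble_eq, Nat.beq_eq, Nat.succ_eq_add_one, nmod] at h1 h2 h3
  simp (disch := omega) only [sat_pos, sat_neg, sat_app, sat_nil, or_false, cj_zero, nx_eq, pv_eq, nmod,
    Nat.succ_eq_add_one, Nat.add_eq, Nat.sub_eq, wX h, wN h, wM, wP, wT, wL, wU, wD, wE, wR, wK, sat_pP,
    sat_pL nf, sat_nL nf]
  by_contra n
  simp only [not_or, not_not] at n
  obtain ⟨⟨w, i, x, y⟩, m, p⟩ := n
  rcases i with z | z
  · exact m w z ((if_pos y).trans x)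
  · exact p ⟨w, z, x⟩

lemma s32 (hv : V r s L) (a b c d e : ℕ) : G r L (f32 s a b c d e) := by
  refine .gd fun h1 => .gd fun h2 => .gd fun h3 => .of ?_
  have nf := hv.nf
  have h := nf.val
  simp only [Nat.ble_eq, Nat.beq_eq, Nat.succ_eq_add_one, nmod] at h1 h2 h3
  simp (disch := omega) only [sat_pos, sat_neg, sat_app, sat_nil, or_false, cj_zero, nx_eq, pv_eq, nmod,
    Nat.succ_eq_add_one, Nat.add_eq, Nat.sub_eq, wX h, wN h, wM, wP, wT, wL, wU, wD, wE, wR, wK, sat_pP,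
    sat_pL nf, sat_nL nf]
  by_contra n
  simp only [not_or, not_not] at n
  obtain ⟨l, l', m⟩ := n
  refine m fun w x y => ?_
  rcases h.cj_eq x.it y with ⟨u, z⟩ | ⟨u, z⟩
  · exact l ⟨w, x.it, z, u⟩
  · exact u (l'.uniq h x.it z)

lemma s33 (hv : V r s L) (a b c d e : ℕ) : G r L (f33 s a b c d e) := by
  refine .gd fun h1 => .gd fun h2 => .gd fun h3 => .of ?_
  have nf := hv.nf
  have h := nf.val
  simp only [Nat.ble_eq, Nat.beq_eq, Nat.succ_eq_add_one, nmod] at h1 h2 h3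
  simp (disch := omega) only [sat_pos, sat_neg, sat_app, sat_nil, or_false, cj_zero, nx_eq, pv_eq, nmod,
    Nat.succ_eq_add_one, Nat.add_eq, Nat.sub_eq, wX h, wN h, wM, wP, wT, wL, wU, wD, wE, wR, wK, sat_pP,
    sat_pL nf, sat_nL nf]
  by_contra n
  simp only [not_or, not_not] at n
  obtain ⟨l, l', m⟩ := n
  refine m fun w x y => ?_
  rcases h.cj_eq x.it y with ⟨u, z⟩ | ⟨-, z⟩
  · exact l ⟨w, x.it, z, u⟩
  · exact l' w x.it z

lemma s34 (hv : V r s L) (a b c d e : ℕ) : G r L (f34 s a b c d e) := by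
  refine .gd fun h1 => .gd fun h2 => .gd fun h3 => .of ?_
  have nf := hv.nf
  have h := nf.val
  simp only [Nat.ble_eq, Nat.beq_eq, Nat.succ_eq_add_one, nmod] at h1 h2 h3
  simp (disch := omega) only [sat_pos, sat_neg, sat_app, sat_nil, or_false, cj_zero, nx_eq, pv_eq, nmod,
    Nat.succ_eq_add_one, Nat.add_eq, Nat.sub_eq, wX h, wN h, wM, wP, wT, wL, wU, wD, wE, wR, wK, sat_pP,
    sat_pL nf, sat_nL nf]
  by_contra n
  simp only [not_or, not_not] at n
  obtain ⟨l, ⟨p, q, t⟩, m⟩ := n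
  refine m fun w x y => ?_
  rcases h.cj_eq x.it y with ⟨u, z⟩ | ⟨-, z⟩
  · exact l ⟨w, x.it, z, u⟩
  · exact x.npt (h.prop b p w q.it x.it (t.trans z.symm) ▸ q)

lemma s35 (hv : V r s L) (a b c d e : ℕ) : G r L (f35 s a b c d e) := by
  refine .gd fun h1 => .gd fun h2 => .gd fun h3 => .of ?_
  have nf := hv.nf
  have h := nf.val
  simp only [Nat.ble_eq, Nat.beq_eq, Nat.succ_eq_add_one, nmod] at h1 h2 h3
  simp (disch := omega) only [sat_pos, sat_neg, sat_app, sat_nil, or_false, cj_zero, nx_eq, pv_eq, nmod,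
    Nat.succ_eq_add_one, Nat.add_eq, Nat.sub_eq, wX h, wN h, wM, wP, wT, wL, wU, wD, wE, wR, wK, sat_pP,
    sat_pL nf, sat_nL nf]
  by_contra n
  simp only [not_or, not_not] at n
  obtain ⟨-, l, m, t, p⟩ := n
  obtain ⟨w, i, x⟩ := ms_not m
  rcases id i with z | z
  · exact t w z ((if_neg fun y => l ⟨w, i, x, y⟩).trans (by omega))
  · exact p ⟨w, z, x⟩

lemma s36 (hv : V r s L) (a b c d e : ℕ) : G r L (f36 s a b c d e) := by
  refine .gd fun h1 => .gd fun h2 => .of ?_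
  have nf := hv.nf
  have h := nf.val
  simp only [Nat.ble_eq, Nat.beq_eq, Nat.succ_eq_add_one, nmod] at h1 h2
  obtain ⟨v, x⟩ := card_pos.1 (show 0 < ntok L (cj L a) b by have := (h.cut a).1 b; omega)
  classical
  have x := mem_filter.1 x
  have := mem_range.1 x.1
  exact sat_mapP.2 ⟨v, m11.2 this, (wU (by omega) (by omega) (by omega)).mpr x.2⟩

lemma s37 (hv : V r s L) (a b c d e : ℕ) : G r L (f37 s a b c d e) := by
  refine .gd fun h1 => .gd fun h2 => .of ?_
  have nf := hv.nf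
  have h := nf.val
  simp only [Nat.ble_eq, Nat.beq_eq, Nat.succ_eq_add_one, nmod] at h1 h2
  rw [sat_app, sat_mapN, sat_cond, Nat.ble_eq, or_iff_not_imp_left, not_not]
  intro x
  have k := card_le_card (sb_sub (show a < 8 by omega) (show b < 16 by omega) x)
  rw [sb_card] at k
  change _ ≤ ntok L (cj L a) b at k
  have := (h.cut a).1 b
  by_cases z : (sb c d e).length ≤ 7
  · change (_ ∧ Sat r L [pos (aD a ((sb c d e).length / 2) b)]) ∨ _
    exact .inl ⟨z, sat_pos.2 (.inl ((wD (by omega) (by omega) (by omega)).mpr (by omega)))⟩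
  · have := h.budget a (fun k => if k = b then 4 else 0) fun k _ => by
      split_ifs with u
      · rw [u]
        omega
      · omega
    have f : ∀ b < 10, (r10.map fun k => if k = b then 4 else 0).sum = 4 := by decide
    rw [f b (by omega)] at this
    omega

lemma s38 (hv : V r s L) (a b c d e : ℕ) : G r L (f38 s a b c d e) := by
  refine .gd fun h1 => .gd fun h2 => .gd fun h3 => .of ?_
  have nf := hv.nf
  have h := nf.val
  simp only [Nat.ble_eq, Nat.beq_eq, Nat.succ_eq_add_one, nmod] at h1 h2 h3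
  simp (disch := omega) only [sat_pos, sat_neg, sat_app, sat_nil, or_false, cj_zero, nx_eq, pv_eq, nmod,
    Nat.succ_eq_add_one, Nat.add_eq, Nat.sub_eq, wX h, wN h, wM, wP, wT, wL, wU, wD, wE, wR, wK, sat_pP,
    sat_pL nf, sat_nL nf]
  by_contra n
  simp only [not_or, not_not] at n
  omega

lemma s39 (hv : V r s L) (a b c d e : ℕ) : G r L (f39 s a b c d e) := by
  refine .gd fun h1 => .gd fun h2 => .of ?_
  have nf := hv.nf
  have h := nf.val
  simp only [Nat.ble_eq, Nat.beq_eq, Nat.succ_eq_add_one, nmod] at h1 h2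
  refine sat_mapN.2 fun x => ?_
  have := h.budget a (dg b c d e) fun k hk y => by
    have : dg b c d e k < 4 := Nat.mod_lt _ (by norm_num)
    exact (wD (by omega) (by omega) (by omega)).mp (x k (List.mem_filter.2 ⟨m10.2 hk, Nat.ble_eq.mpr y⟩))
  omega

lemma s40 (hv : V r s L) (a b c d e : ℕ) : G r L (f40 s a b c d e) := by
  refine .gd fun h1 => .gd fun h2 => .gd fun h3 => .of ?_
  have nf := hv.nf
  have h := nf.val
  simp only [Nat.ble_eq, Nat.beq_eq, Nat.succ_eq_add_one, nmod] at h1 h2 h3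
  classical
  rw [sat_app, sat_mapN, sat_mapP, or_iff_not_imp_left, not_not]
  intro x
  by_contra n
  have k := (sb_sub (show a < 8 by omega) (show b < 16 by omega) x).antisymm fun v y => by
    have y := mem_filter.1 y
    have := mem_range.1 y.1
    refine List.mem_toFinset.2 (List.mem_filter.2 ⟨m11.2 this, ?_⟩)
    by_contra z
    exact n ⟨v, List.mem_filter.2 ⟨m11.2 this, by simpa using z⟩,
      (wU (by omega) (by omega) (by omega)).mpr y.2⟩
  have k := congrArg card k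
  rw [sb_card] at k
  have := (h.cut a).1 b
  unfold ntok at this
  omega

lemma s41 (hv : V r s L) (a b c d e : ℕ) : G r L (f41 s a b c d e) := by
  refine .gd fun h1 => .gd fun h2 => .of ?_
  have nf := hv.nf
  have h := nf.val
  simp only [Nat.ble_eq, Nat.beq_eq, Nat.succ_eq_add_one, nmod] at h1 h2
  have := ow_lt (show a < 5 by omega)
  simp (disch := omega) only [sat_pos, sat_neg, sat_app, sat_nil, or_false, cj_zero, nx_eq, pv_eq, nmod,
    Nat.succ_eq_add_one, Nat.add_eq, Nat.sub_eq, wX h, wN h, wM, wP, wT, wL, wU, wD, wE, wR, wK, sat_pP,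
    sat_pL nf, sat_nL nf]
  by_contra n
  simp only [not_or, not_not] at n
  exact n.2 ⟨_, 0, (pt_ow (by omega)).it, n.1.symm, by simp [n.1, px]⟩

lemma s42 (hv : V r s L) (a b c d e : ℕ) : G r L (f42 s a b c d e) := by
  refine .gd fun h1 => .gd fun h2 => .gd fun h3 => .of ?_
  have nf := hv.nf
  have h := nf.val
  simp only [Nat.ble_eq, Nat.beq_eq, Nat.succ_eq_add_one, nmod] at h1 h2 h3
  simp (disch := omega) only [sat_pos, sat_neg, sat_app, sat_nil, or_false, cj_zero, nx_eq, pv_eq, nmod,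
    Nat.succ_eq_add_one, Nat.add_eq, Nat.sub_eq, wX h, wN h, wM, wP, wT, wL, wU, wD, wE, wR, wK, sat_pP,
    sat_pL nf, sat_nL nf]
  by_contra n
  simp only [not_or, not_not] at n
  obtain ⟨⟨w, q, x, y, z⟩, m⟩ := n
  exact m ⟨w, q, x, y, by push_cast at z ⊢; linarith⟩

lemma s43 (hv : V r s L) (a b c d e : ℕ) : G r L (f43 s a b c d e) := by
  refine .gd fun h1 => .gd fun h2 => .gd fun h3 => .gd fun h4 => .of ?_
  have nf := hv.nf
  have h := nf.val
  simp only [Nat.ble_eq, Nat.beq_eq, Nat.succ_eq_add_one, nmod] at h1 h2 h3 h4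
  simp (disch := omega) only [sat_pos, sat_neg, sat_app, sat_nil, or_false, cj_zero, nx_eq, pv_eq, nmod,
    Nat.succ_eq_add_one, Nat.add_eq, Nat.sub_eq, wX h, wN h, wM, wP, wT, wL, wU, wD, wE, wR, wK, sat_pP,
    sat_pL nf, sat_nL nf]
  by_contra n
  simp only [not_or, not_not] at n
  obtain ⟨z, i, x⟩ := ms_not n.2.1
  exact n.2.2 (n.1.step h i one_pos (by norm_num) x)

lemma s44 (hv : V r s L) (a b c d e : ℕ) : G r L (f44 s a b c d e) := by
  refine .gd fun h1 => .gd fun h2 => .gd fun h3 => .gd fun h4 => .gd fun h5 => .of ?_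
  have nf := hv.nf
  have h := nf.val
  simp only [Nat.ble_eq, Nat.beq_eq, Nat.succ_eq_add_one, nmod] at h1 h2 h3 h4 h5
  simp (disch := omega) only [sat_pos, sat_neg, sat_app, sat_nil, or_false, cj_zero, nx_eq, pv_eq, nmod,
    Nat.succ_eq_add_one, Nat.add_eq, Nat.sub_eq, wX h, wN h, wM, wP, wT, wL, wU, wD, wE, wR, wK, sat_pP,
    sat_pL nf, sat_nL nf]
  by_contra n
  simp only [not_or, not_not] at n
  obtain ⟨⟨w, q, i, x, y⟩, ⟨u, z⟩, m⟩ := n
  have := h.lt d w i
  have := h.prop d w e i u.it (by omega)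
  subst this
  exact m ⟨d, q, (h.sym _ _ u).it, h.csym _ _ u ▸ x, h.psym _ _ u ▸ y⟩

lemma s45 (hv : V r s L) (a b c d e : ℕ) : G r L (f45 s a b c d e) := by
  refine .gd fun h1 => .gd fun h2 => .gd fun h3 => .of ?_
  have nf := hv.nf
  have h := nf.val
  simp only [Nat.ble_eq, Nat.beq_eq, Nat.succ_eq_add_one, nmod] at h1 h2 h3
  simp (disch := omega) only [sat_pos, sat_neg, sat_app, sat_nil, or_false, cj_zero, nx_eq, pv_eq, nmod,
    Nat.succ_eq_add_one, Nat.add_eq, Nat.sub_eq, wX h, wN h, wM, wP, wT, wL, wU, wD, wE, wR, wK, sat_pP,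
    sat_pL nf, sat_nL nf]
  by_contra n
  simp only [not_or, not_not] at n
  obtain ⟨z, i, x⟩ := ms_not (L := L) (v := c) (c := (b + 2) % 10) fun m => by
    have := h.mamo (by omega) (by omega) (by omega) m n.2.1
    omega
  exact n.2.2 (n.1.step h i two_pos (by norm_num) x)

lemma s46 (hv : V r s L) (a b c d e : ℕ) : G r L (f46 s a b c d e) := by
  refine .gd fun h1 => .gd fun h2 => .gd fun h3 => .gd fun h4 => .gd fun h5 => .of ?_
  have nf := hv.nf
  have h := nf.val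
  simp only [Nat.ble_eq, Nat.beq_eq, Nat.succ_eq_add_one, nmod] at h1 h2 h3 h4 h5
  have := ow_lt (show b < 5 by omega)
  simp (disch := omega) only [sat_pos, sat_neg, sat_app, sat_nil, or_false, cj_zero, nx_eq, pv_eq, nmod,
    Nat.succ_eq_add_one, Nat.add_eq, Nat.sub_eq, wX h, wN h, wM, wP, wT, wL, wU, wD, wE, wR, wK, sat_pP,
    sat_pL nf, sat_nL nf]
  by_contra n
  simp only [not_or, not_not] at n
  obtain ⟨p, q, ⟨w, k, i, x, y⟩, m⟩ := n
  have := h.lt _ w i
  have := h.prop _ w _ i (pt_ow (show b < 5 by omega)).it (by unfold pc at q; omega)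
  subst this
  refine m ⟨k, by unfold pc at *; omega, ?_⟩
  rw [p] at y
  push_cast at y
  unfold px at *
  linarith

lemma s47 (hv : V r s L) (a b c d e : ℕ) : G r L (f47 s a b c d e) := by
  refine .gd fun h1 => .gd fun h2 => .gd fun h3 => .gd fun h4 => .of ?_
  have nf := hv.nf
  have h := nf.val
  simp only [Nat.ble_eq, Nat.beq_eq, Nat.succ_eq_add_one, nmod] at h1 h2 h3 h4
  have u : ∀ q, cond (Nat.beq b q) 1 0 = if b = q then 1 else 0 := fun q => by simp
  have k : ∀ x y, Ks r L x y 5 (if b = 0 then 1 else 0) → Ks r L y 3 7 (if b = 1 then 1 else 0) →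
      Ks r L 3 x 7 (if b = 2 then 1 else 0) → Con0 r (px L x) (px L y) (px L 3) := by
    rintro x y ⟨q0, y0, z0⟩ ⟨q1, y1, z1⟩ ⟨q2, y2, z2⟩
    have t : q0 + q1 + q2 = 2 := by split_ifs at y0 y1 y2 <;> omega
    have t : (q0 : ℝ) + q1 + q2 = 2 := by exact_mod_cast t
    have t' := congrArg (· * r) t
    refine ⟨q0, q0 + q1, ?_⟩
    push_cast at z0 z1 z2 ⊢
    refine ⟨?_, ?_, ?_⟩ <;> linarith
  simp only [u, Nat.sub_eq]
  rw [sat_neg, sat_neg, sat_neg, wK (by omega) (by omega) (by omega) (by split_ifs <;> omega),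
    wK (by omega) (by omega) (by omega) (by split_ifs <;> omega),
    wK (by omega) (by omega) (by omega) (by split_ifs <;> omega)]
  by_contra n
  simp only [not_or, not_not] at n
  have := k _ _ n.1 n.2.1 n.2.2.1
  obtain rfl | rfl : a = 2 ∨ a = 4 := by omega
  exacts [h.ncon (.inl this), h.ncon (.inr this)]

lemma s48 (hv : V r s L) (a b c d e : ℕ) : G r L (f48 s a b c d e) := by
  refine .gd fun h1 => .gd fun h2 => .of ?_
  have nf := hv.nf
  have h := nf.val
  simp only [Nat.ble_eq, Nat.beq_eq, Nat.succ_eq_add_one, nmod] at h1 h2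
  obtain ⟨w, x, y, z⟩ := h.nf1 (show a < 11 by omega)
  have : w ≠ 2 := fun q => z (q ▸ h.sym _ _ (h.e2 a h1 (by omega)))
  exact sat_mapP.2 ⟨w, List.mem_filter.2 ⟨m11.2 x, by simp [nbq this, nbq y]⟩,
    (wN h (by omega) (by omega)).2 z⟩

lemma s49 (hv : V r s L) (a b c d e : ℕ) : G r L (f49 s a b c d e) := by
  refine .gd fun h1 => .gd fun h2 => .gd fun h3 => .gd fun h4 => .gd fun h5 => .gd fun h6 => .of ?_
  have nf := hv.nf
  have h := nf.val
  simp only [Nat.ble_eq, Nat.beq_eq, Nat.succ_eq_add_one, nmod] at h1 h2 h3 h4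
  simp (disch := omega) only [sat_pos, sat_neg, sat_app, sat_nil, or_false, cj_zero, nx_eq, pv_eq, nmod,
    Nat.succ_eq_add_one, Nat.add_eq, Nat.sub_eq, wX h, wN h, wM, wP, wT, wL, wU, wD, wE, wR, wK, sat_pP,
    sat_pL nf, sat_nL nf]
  by_contra n
  simp only [not_or, not_not] at n
  exact h.nf2 h1 (by omega) (by omega) h3 (fun q => by simp [q] at h5) (fun q => by simp [q] at h6) n.1 n.2

lemma s50 (hv : V r s L) (a b c d e : ℕ) : G r L (f50 s a b c d e) := by
  refine .gd fun h1 => .gd fun h2 => .gd fun h3 => .of ?_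
  have nf := hv.nf
  have h := nf.val
  simp only [Nat.ble_eq, Nat.beq_eq, Nat.succ_eq_add_one, nmod] at h1 h2 h3
  obtain ⟨w, x, y, z, u⟩ := h.nf3 (v := a) (w := b) (by omega) (by omega) (by omega)
  exact sat_mapP.2 ⟨w, List.mem_filter.2 ⟨m11.2 x, by simp [Nat.ble_eq.mpr y, nbq z]⟩,
    (wN h (by omega) (by omega)).2 u⟩

lemma s51 (hv : V r s L) (a b c d e : ℕ) : G r L (f51 s a b c d e) := by
  refine .gd fun h1 => .gd fun h2 => .gd fun h3 => .gd fun h4 => .gd fun h5 => .of ?_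
  have nf := hv.nf
  have h := nf.val
  simp only [Nat.ble_eq, Nat.beq_eq, Nat.succ_eq_add_one, nmod] at h1 h2 h3 h4 h5
  simp (disch := omega) only [sat_pos, sat_neg, sat_app, sat_nil, or_false, cj_zero, nx_eq, pv_eq, nmod,
    Nat.succ_eq_add_one, Nat.add_eq, Nat.sub_eq, wX h, wN h, wM, wP, wT, wL, wU, wD, wE, wR, wK, sat_pP,
    sat_pL nf, sat_nL nf]
  by_contra n
  simp only [not_or, not_not] at n
  exact h.nf4 (by omega) h2 h3 h4 (by omega) n.1 n.2.1 n.2.2

lemma s52 (hv : V r s L) (a b c d e : ℕ) : G r L (f52 s a b c d e) := by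
  refine .gd fun h1 => .of ?_
  have nf := hv.nf
  have h := nf.val
  simp only [Nat.ble_eq, Nat.beq_eq, Nat.succ_eq_add_one, nmod] at h1
  refine sat_pos.2 (.inl ((wP (by omega) (by omega)).mpr ?_))
  obtain rfl | rfl : a = 0 ∨ a = 1 := by omega
  exacts [nf.pull.z0, nf.pull.z1]

lemma s53 (hv : V r s L) (a b c d e : ℕ) : G r L (f53 s a b c d e) := by
  refine .gd fun h1 => .of ?_
  have nf := hv.nf
  have h := nf.val
  simp only [Nat.ble_eq, Nat.beq_eq, Nat.succ_eq_add_one, nmod] at h1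
  refine sat_neg.2 (.inl fun x => ?_)
  have x := ((wL (by omega) (by omega) (by omega)).mp x).uniq h p0 nf.pull.z0
  exact absurd (x.trans_eq (nf.fst.one nf.pull)) (by omega)

lemma s54 (hv : V r s L) (a b c d e : ℕ) : G r L (f54 s a b c d e) := by
  refine .gd fun h1 => .gd fun h2 => .gd fun h3 => .of ?_
  have nf := hv.nf
  have h := nf.val
  simp only [Nat.ble_eq, Nat.beq_eq, Nat.succ_eq_add_one, nmod] at h1 h2 h3
  simp (disch := omega) only [sat_pos, sat_neg, sat_app, sat_nil, or_false, cj_zero, nx_eq, pv_eq, nmod,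
    Nat.succ_eq_add_one, Nat.add_eq, Nat.sub_eq, wX h, wN h, wM, wP, wT, wL, wU, wD, wE, wR, wK, sat_pP,
    sat_pL nf, sat_nL nf]
  by_contra n
  simp only [not_or, not_not] at n
  obtain ⟨κ, μ, k, k3, o⟩ := nf.srt
  have o1 := o a b h1 (by omega) (by omega)
  have := (k.le a).2
  have := (k.le b).2
  have := k.tok b (by omega) (by omega) n.1
  have := h.lt _ _ (h.sym _ _ (h.e2 b (by omega) (by omega))).it
  rcases k.cls h h1 (by omega) with x | x | ⟨w, x⟩
  exacts [n.2 x.1, by omega, by omega]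

lemma s55 (hv : V r s L) (a b c d e : ℕ) : G r L (f55 s a b c d e) := by
  refine .gd fun h1 => .gd fun h2 => .gd fun h3 => .of ?_
  have nf := hv.nf
  have h := nf.val
  simp only [Nat.ble_eq, Nat.beq_eq, Nat.succ_eq_add_one, nmod] at h1 h2 h3
  simp (disch := omega) only [sat_pos, sat_neg, sat_app, sat_nil, or_false, cj_zero, nx_eq, pv_eq, nmod,
    Nat.succ_eq_add_one, Nat.add_eq, Nat.sub_eq, wX h, wN h, wM, wP, wT, wL, wU, wD, wE, wR, wK, sat_pP,
    sat_pL nf, sat_nL nf]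
  by_contra n
  simp only [not_or, not_not] at n
  obtain ⟨κ, μ, k, k3, o⟩ := nf.srt
  have o1 := o a b h1 (by omega) (by omega)
  have := (k.le a).2
  have := (k.le b).2
  have := k.two b (by omega) (by omega) (n.1.symm h).2
  rcases k.cls h h1 (by omega) with x | x | ⟨w, x⟩
  · exact n.2 x.1
  · have := h.prop 2 a b x.1.1.it n.1.1.it (x.1.2.trans n.1.2.symm)
    omega
  · omega

lemma s56 (hv : V r s L) (a b c d e : ℕ) : G r L (f56 s a b c d e) := by
  refine .gd fun h1 => .gd fun h2 => .gd fun h3 => .gd fun h4 => .of ?_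
  have nf := hv.nf
  have h := nf.val
  simp only [Nat.ble_eq, Nat.beq_eq, Nat.succ_eq_add_one, nmod] at h1 h2 h3 h4
  simp (disch := omega) only [sat_pos, sat_neg, sat_app, sat_nil, or_false, cj_zero, nx_eq, pv_eq, nmod,
    Nat.succ_eq_add_one, Nat.add_eq, Nat.sub_eq, wX h, wN h, wM, wP, wT, wL, wU, wD, wE, wR, wK, sat_pP,
    sat_pL nf, sat_nL nf]
  by_contra n
  simp only [not_or, not_not] at n
  obtain ⟨κ, μ, k, k3, o⟩ := nf.srt
  have o1 := o a b h1 (by omega) (by omega)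
  have := (k.le a).2
  have := (k.le b).2
  have := k.tok a h1 (by omega) n.1
  have := k.tok b (by omega) (by omega) n.2.1
  have := n.2.2.1.2
  have u := h.sym _ _ (h.e2 b (by omega) (by omega))
  have := h.lt _ _ u.it
  exact n.2.2.2 (sat_mapP.2 ⟨_, List.mem_filter.2 ⟨m10.2 this, Nat.ble_eq.mpr (by omega)⟩,
    (wX h (by omega) (by omega) (by omega)).2 ⟨u, rfl⟩⟩)

lemma s57 (hv : V r s L) (a b c d e : ℕ) : G r L (f57 s a b c d e) := by
  refine .gd fun h1 => .gd fun h2 => .gd fun h3 => .gd fun h4 => .of ?_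
  have nf := hv.nf
  have h := nf.val
  simp only [Nat.ble_eq, Nat.beq_eq, Nat.succ_eq_add_one, nmod] at h1 h2 h3 h4
  simp (disch := omega) only [sat_pos, sat_neg, sat_app, sat_nil, or_false, cj_zero, nx_eq, pv_eq, nmod,
    Nat.succ_eq_add_one, Nat.add_eq, Nat.sub_eq, wX h, wN h, wM, wP, wT, wL, wU, wD, wE, wR, wK, sat_pP,
    sat_pL nf, sat_nL nf]
  by_contra n
  simp only [not_or, not_not] at n
  obtain ⟨κ, μ, k, k3, o⟩ := nf.srt
  have o1 := o a b h1 (by omega) (by omega)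
  have := (k.le a).2
  have := (k.le b).2
  obtain ⟨⟨w, i, x, y⟩, p, q⟩ := n
  have u := i.ed (.inl h1)
  have := k.gen a w h1 u (fun t => p (Xs.symm h ⟨t ▸ u, t ▸ x⟩)) x
  rcases k.cls h (v := b) (by omega) (by omega) with z | z | ⟨v, z, t⟩
  exacts [by omega, by omega, q ⟨v, z.1.it, z.2, by omega⟩]

lemma s58 (hv : V r s L) (a b c d e : ℕ) : G r L (f58 s a b c d e) := by
  refine .gd fun h1 => .gd fun h2 => .gd fun h3 => .gd fun h4 => .gd fun h5 => .of ?_
  have nf := hv.nf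
  have h := nf.val
  simp only [Nat.ble_eq, Nat.beq_eq, Nat.succ_eq_add_one, nmod] at h1 h2 h3 h4 h5
  simp (disch := omega) only [sat_pos, sat_neg, sat_app, sat_nil, or_false, cj_zero, nx_eq, pv_eq, nmod,
    Nat.succ_eq_add_one, Nat.add_eq, Nat.sub_eq, wX h, wN h, wM, wP, wT, wL, wU, wD, wE, wR, wK, sat_pP,
    sat_pL nf, sat_nL nf]
  by_contra n
  simp only [not_or, not_not] at n
  obtain ⟨κ, μ, k, k3, o⟩ := nf.srt
  have o1 := o a b h1 (by omega) (by omega)
  have := (k.le a).2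
  have := (k.le b).2
  obtain ⟨x, y, z, m⟩ := n
  have := k.gen a b h1 x.1 (by omega) x.2
  have := k.gen b a (by omega) (x.symm h).1 (by omega) (x.symm h).2
  rw [← h.tsym _ _ x.1] at this
  have := k.ed a c y.1 y.2
  have := k.ed b d z.1 z.2
  have := k3 c
  have := k3 d
  by_cases c3 : c < 3
  · omega
  have kc := k.cls h (v := c) (by omega) (by omega)
  by_cases d3 : d < 3
  · rcases kc with u | u | ⟨v, u⟩ <;> omega
  have := o d c (by omega) (by omega) (by omega)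
  have := (k.le c).2
  have := (k.le d).2
  have ec := (h.e2 c (by omega) (by omega)).it
  have ed := (h.e2 d (by omega) (by omega)).it
  rcases kc with u | u | ⟨v, u, p⟩ <;>
    rcases k.cls h (v := d) (by omega) (by omega) with u' | u' | ⟨v', u', p'⟩ <;> try omega
  · have := h.prop 2 c d ec ed (by omega)
    omega
  · have := h.prop 2 c d ec ed (u.1.2.trans u'.1.2.symm)
    omega
  · rcases lt_trichotomy (L.tm c v) (L.tm d v') with t | t | t
    · have := lvl_lt t (mem_T0.2 ⟨_, _, u'.1.it, u'.2, rfl⟩)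
      omega
    · rcases h.inj _ _ _ _ u.1.it u'.1.it t with ⟨q, -⟩ | ⟨rfl, -, -⟩
      · omega
      · exact m (sat_eb h (by omega) u)
    · have := lvl_lt t (mem_T0.2 ⟨_, _, u.1.it, u.2, rfl⟩)
      omega

lemma s59 (hv : V r s L) (a b c d e : ℕ) : G r L (f59 s a b c d e) := by
  refine .gd fun h1 => .gd fun h2 => .gd fun h3 => .of ?_
  have nf := hv.nf
  have h := nf.val
  simp only [Nat.ble_eq, Nat.beq_eq, Nat.succ_eq_add_one, nmod] at h1 h2 h3
  simp (disch := omega) only [sat_pos, sat_neg, sat_app, sat_nil, or_false, cj_zero, nx_eq, pv_eq, nmod,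
    Nat.succ_eq_add_one, Nat.add_eq, Nat.sub_eq, wX h, wN h, wM, wP, wT, wL, wU, wD, wE, wR, wK, sat_pP,
    sat_pL nf, sat_nL nf]
  by_contra n
  simp only [not_or, not_not] at n
  obtain ⟨κ, μ, k, k3, o⟩ := nf.srt
  have o1 := o a b h1 (by omega) (by omega)
  have := (k.le a).2
  have := (k.le b).2
  obtain ⟨x, y, m⟩ := n
  have := k.gen a b h1 x.1 (by omega) x.2
  have := k.gen b a (by omega) (x.symm h).1 (by omega) (x.symm h).2
  rw [← h.tsym _ _ x.1] at this
  have := k.ms a h1 (by omega) y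
  obtain ⟨w, i, z⟩ := ms_not m
  have := k.ed b w (i.ed (.inl (by omega))) z
  have := (k.le w).1
  omega

lemma s60 (hv : V r s L) (a b c d e : ℕ) : G r L (f60 s a b c d e) := by
  refine .gd fun h1 => .of ?_
  have nf := hv.nf
  have h := nf.val
  simp only [Nat.ble_eq, Nat.beq_eq, Nat.succ_eq_add_one, nmod] at h1
  refine sat_pos.2 (.inl ?_)
  rw [List.getD_eq_getElem?_getD]
  cases x : (cb s)[a]? with
  | none => exact W_zero
  | some y => exact hv.cur y (List.mem_of_getElem? x)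

lemma s61 (hv : V r s L) (a b c d e : ℕ) : G r L (f61 s a b c d e) := by
  refine .gd fun h1 => .of ?_
  have nf := hv.nf
  have h := nf.val
  simp only [Nat.ble_eq, Nat.beq_eq, Nat.succ_eq_add_one, nmod] at h1
  exact (sat_mapN (f := id)).2 (hv.old _ h1)

lemma s62 (hv : V r s L) (a b c d e : ℕ) : G r L (f62 s a b c d e) := by
  refine .gd fun h1 => .gd fun h2 => .gd fun h3 => .of ?_
  have nf := hv.nf
  have h := nf.val
  simp only [Nat.ble_eq, Nat.beq_eq, Nat.succ_eq_add_one, nmod] at h1 h2 h3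
  simp (disch := omega) only [sat_pos, sat_neg, sat_app, sat_nil, or_false, cj_zero, nx_eq, pv_eq, nmod,
    Nat.succ_eq_add_one, Nat.add_eq, Nat.sub_eq, wX h, wN h, wM, wP, wT, wL, wU, wD, wE, wR, wK, sat_pP,
    sat_pL nf, sat_nL nf]
  by_contra n
  simp only [not_or, not_not] at n
  obtain ⟨⟨x, rfl⟩, p, q⟩ := n
  exact (nf.pull.pre a b x.it (by omega) (by omega)).elim (· p) (·.2 q)

lemma s63 (hv : V r s L) (a b c d e : ℕ) : G r L (f63 s a b c d e) := by
  refine .gd fun h1 => .gd fun h2 => .gd fun h3 => .of ?_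
  have nf := hv.nf
  have h := nf.val
  simp only [Nat.ble_eq, Nat.beq_eq, Nat.succ_eq_add_one, nmod] at h1 h2 h3
  have := ow_lt (show a < 5 by omega)
  simp (disch := omega) only [sat_pos, sat_neg, sat_app, sat_nil, or_false, cj_zero, nx_eq, pv_eq, nmod,
    Nat.succ_eq_add_one, Nat.add_eq, Nat.sub_eq, wX h, wN h, wM, wP, wT, wL, wU, wD, wE, wR, wK, sat_pP,
    sat_pL nf, sat_nL nf]
  by_contra n
  simp only [not_or, not_not] at n
  obtain ⟨rfl, p⟩ := n
  have x := pt_ow (show a < 5 by omega)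
  exact (nf.pull.pre _ _ x.it (by omega) (by omega)).elim (· p) (·.1.npt x)

lemma s64 (hv : V r s L) (a b c d e : ℕ) : G r L (f64 s a b c d e) := by
  refine .gd fun h1 => .gd fun h2 => .gd fun h3 => .gd fun h4 => .gd fun h5 => .of ?_
  have nf := hv.nf
  have h := nf.val
  simp only [Nat.ble_eq, Nat.beq_eq, Nat.succ_eq_add_one, nmod] at h1 h2 h3 h4 h5
  simp (disch := omega) only [sat_pos, sat_neg, sat_app, sat_nil, or_false, cj_zero, nx_eq, pv_eq, nmod,
    Nat.succ_eq_add_one, Nat.add_eq, Nat.sub_eq, wX h, wN h, wM, wP, wT, wL, wU, wD, wE, wR, wK, sat_pP,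
    sat_pL nf, sat_nL nf]
  by_contra n
  simp only [not_or, not_not] at n
  obtain ⟨x, l, p, q⟩ := n
  exact (nf.can.lm a b c d h1 x.1.it x.2 (l.uniq h x.1.it x.2)).elim p fun y => q y.2

lemma s65 (hv : V r s L) (a b c d e : ℕ) : G r L (f65 s a b c d e) := by
  refine .gd fun h1 => .gd fun h2 => .gd fun h3 => .gd fun h4 => .of ?_
  have nf := hv.nf
  have h := nf.val
  simp only [Nat.ble_eq, Nat.beq_eq, Nat.succ_eq_add_one, nmod] at h1 h2 h3 h4
  simp (disch := omega) only [sat_pos, sat_neg, sat_app, sat_nil, or_false, cj_zero, nx_eq, pv_eq, nmod,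
    Nat.succ_eq_add_one, Nat.add_eq, Nat.sub_eq, wX h, wN h, wM, wP, wT, wL, wU, wD, wE, wR, wK, sat_pP,
    sat_pL nf, sat_nL nf]
  by_contra n
  simp only [not_or, not_not] at n
  obtain ⟨⟨w, x, y⟩, l, p⟩ := n
  exact (nf.can.lm a b w c h1 x.it y (l.uniq h x.it y)).elim p fun z => z.1.npt x

lemma s66 (hv : V r s L) (a b c d e : ℕ) : G r L (f66 s a b c d e) := by
  refine .gd fun h1 => .gd fun h2 => .of ?_
  have nf := hv.nf
  have h := nf.val
  simp only [Nat.ble_eq, Nat.beq_eq, Nat.succ_eq_add_one, nmod] at h1 h2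
  simp (disch := omega) only [sat_pos, sat_neg, sat_app, sat_nil, or_false, cj_zero, nx_eq, pv_eq, nmod,
    Nat.succ_eq_add_one, Nat.add_eq, Nat.sub_eq, wX h, wN h, wM, wP, wT, wL, wU, wD, wE, wR, wK, sat_pP,
    sat_pL nf, sat_nL nf]
  by_contra n
  simp only [not_or, not_not] at n
  exact n.2 (nf.can.co1 a h1 (wG h (by omega) (by omega) n.1 p1 nf.pull.z1))

lemma s67 (hv : V r s L) (a b c d e : ℕ) : G r L (f67 s a b c d e) := by
  refine .gd fun h1 => .gd fun h2 => .of ?_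
  have nf := hv.nf
  have h := nf.val
  simp only [Nat.ble_eq, Nat.beq_eq, Nat.succ_eq_add_one, nmod] at h1 h2
  simp (disch := omega) only [sat_pos, sat_neg, sat_app, sat_nil, or_false, cj_zero, nx_eq, pv_eq, nmod,
    Nat.succ_eq_add_one, Nat.add_eq, Nat.sub_eq, wX h, wN h, wM, wP, wT, wL, wU, wD, wE, wR, wK, sat_pP,
    sat_pL nf, sat_nL nf]
  by_contra n
  simp only [not_or, not_not] at n
  obtain ⟨g, u, ⟨w, x, y⟩, p⟩ := n
  exact (nf.can.co2 a w h1 x.it y (wG h (by omega) (by omega) g x.it y) fun q =>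
    u (ex_of h p1 nf.pull.z1 q)).elim p fun z => z.1.npt x

lemma s68 (hv : V r s L) (a b c d e : ℕ) : G r L (f68 s a b c d e) := by
  refine .gd fun h1 => .gd fun h2 => .gd fun h3 => .of ?_
  have nf := hv.nf
  have h := nf.val
  simp only [Nat.ble_eq, Nat.beq_eq, Nat.succ_eq_add_one, nmod] at h1 h2 h3
  simp (disch := omega) only [sat_pos, sat_neg, sat_app, sat_nil, or_false, cj_zero, nx_eq, pv_eq, nmod,
    Nat.succ_eq_add_one, Nat.add_eq, Nat.sub_eq, wX h, wN h, wM, wP, wT, wL, wU, wD, wE, wR, wK, sat_pP,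
    sat_pL nf, sat_nL nf]
  by_contra n
  simp only [not_or, not_not] at n
  obtain ⟨g, u, x, p, q⟩ := n
  exact (nf.can.co2 a b h1 x.1.it x.2 (wG h (by omega) (by omega) g x.1.it x.2) fun q =>
    u (ex_of h p1 nf.pull.z1 q)).elim p fun z => q z.2

lemma cf {α : Type} (P : α → Prop) {b : Bool} {x y : α} (hx : P x) (hy : P y) : P (cond b x y) := by
  cases b <;> assumption

/-- All lists of a family are satisfied. -/
def GF (r : ℝ) (s : ℕ) (L : Lab) (f : ℕ → ℕ → ℕ → ℕ → ℕ → ℕ → List ℕ) : Prop :=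
  ∀ a b c d e, G r L (f s a b c d e)

/-- All lists of eight families are satisfied. -/
def GG (r : ℝ) (s : ℕ) (L : Lab) (f : ℕ → ℕ → ℕ → ℕ → ℕ → ℕ → ℕ → List ℕ) : Prop := ∀ u, GF r s L (f u)

lemma t0 (hv : V r s L) : GG r s L g0 := fun u =>
  cf (GF r s L) (cf (GF r s L) (cf (GF r s L) (s7 hv) (s6 hv)) (cf (GF r s L) (s5 hv) (s4 hv))) (cf
    (GF r s L) (cf (GF r s L) (s3 hv) (s2 hv)) (cf (GF r s L) (s1 hv) (s0 hv)))

lemma t1 (hv : V r s L) : GG r s L g1 := fun u =>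
  cf (GF r s L) (cf (GF r s L) (cf (GF r s L) (s15 hv) (s14 hv)) (cf (GF r s L) (s13 hv) (s12 hv)))
    (cf (GF r s L) (cf (GF r s L) (s11 hv) (s10 hv)) (cf (GF r s L) (s9 hv) (s8 hv)))

lemma t2 (hv : V r s L) : GG r s L g2 := fun u =>
  cf (GF r s L) (cf (GF r s L) (cf (GF r s L) (s23 hv) (s22 hv)) (cf (GF r s L) (s21 hv) (s20 hv)))
    (cf (GF r s L) (cf (GF r s L) (s19 hv) (s18 hv)) (cf (GF r s L) (s17 hv) (s16 hv)))

lemma t3 (hv : V r s L) : GG r s L g3 := fun u =>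
  cf (GF r s L) (cf (GF r s L) (cf (GF r s L) (s31 hv) (s30 hv)) (cf (GF r s L) (s29 hv) (s28 hv)))
    (cf (GF r s L) (cf (GF r s L) (s27 hv) (s26 hv)) (cf (GF r s L) (s25 hv) (s24 hv)))

lemma t4 (hv : V r s L) : GG r s L g4 := fun u =>
  cf (GF r s L) (cf (GF r s L) (cf (GF r s L) (s39 hv) (s38 hv)) (cf (GF r s L) (s37 hv) (s36 hv)))
    (cf (GF r s L) (cf (GF r s L) (s35 hv) (s34 hv)) (cf (GF r s L) (s33 hv) (s32 hv)))

lemma t5 (hv : V r s L) : GG r s L g5 := fun u =>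
  cf (GF r s L) (cf (GF r s L) (cf (GF r s L) (s47 hv) (s46 hv)) (cf (GF r s L) (s45 hv) (s44 hv)))
    (cf (GF r s L) (cf (GF r s L) (s43 hv) (s42 hv)) (cf (GF r s L) (s41 hv) (s40 hv)))

lemma t6 (hv : V r s L) : GG r s L g6 := fun u =>
  cf (GF r s L) (cf (GF r s L) (cf (GF r s L) (s55 hv) (s54 hv)) (cf (GF r s L) (s53 hv) (s52 hv)))
    (cf (GF r s L) (cf (GF r s L) (s51 hv) (s50 hv)) (cf (GF r s L) (s49 hv) (s48 hv)))

lemma t7 (hv : V r s L) : GG r s L g7 := fun u =>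
  cf (GF r s L) (cf (GF r s L) (cf (GF r s L) (s63 hv) (s62 hv)) (cf (GF r s L) (s61 hv) (s60 hv)))
    (cf (GF r s L) (cf (GF r s L) (s59 hv) (s58 hv)) (cf (GF r s L) (s57 hv) (s56 hv)))

lemma t8 (hv : V r s L) : GG r s L g8 := fun u =>
  cf (GF r s L) (cf (GF r s L) (cf (GF r s L) (s68 hv) (s67 hv)) (s66 hv)) (cf (GF r s L) (s65 hv)
    (s64 hv))

lemma fam_ok (hv : V r s L) (t : ℕ) : GG r s L (fam t) :=
  cf (GG r s L) (cf (GG r s L) (cf (GG r s L) (cf (GG r s L) (t8 hv) (t7 hv)) (t6 hv)) (cf (GG r s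
    L) (t5 hv) (t4 hv))) (cf (GG r s L) (cf (GG r s L) (t3 hv) (t2 hv)) (cf (GG r s L) (t1 hv) (t0
    hv)))

theorem sound (r : ℝ) (s c h : ℕ) (e : chk s c h = 0) : Univ (V r s) (fun L => W r L) c := fun L hv => by
  simp only [chk, fr_eq] at e
  obtain ⟨a, b⟩ := cmp_ok _ _ _ e
  obtain ⟨l, x, y⟩ := fam_ok hv _ _ _ _ _ _ _ a
  exact ⟨l, (memC_iff c l).2 (.inr (b l x)), y⟩

end Pool.Agent.P.MP_3f5ded_co.UG.N9
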