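import Pool.Agent.P.MP_3f5ded_co.PRup
import Pool.Agent.P.MP_3f5ded_co.B9s0T0
import Pool.Agent.P.MP_3f5ded_co.B9s0R1
import Pool.Agent.P.MP_3f5ded_co.B9s0R2
import Pool.Agent.P.MP_3f5ded_co.B9s1T0
import Pool.Agent.P.MP_3f5ded_co.B9s1R1
import Pool.Agent.P.MP_3f5ded_co.B9s1R2
import Pool.Agent.P.MP_3f5ded_co.B9s1R3
import Pool.Agent.P.MP_3f5ded_co.B9s1R4
import Pool.Agent.P.MP_3f5ded_co.B9s1R5
import Pool.Agent.P.MP_3f5ded_co.B9s1R6
import Pool.Agent.P.MP_3f5ded_co.B9s2T0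
import Pool.Agent.P.MP_3f5ded_co.B9s2T1
import Pool.Agent.P.MP_3f5ded_co.B9s2R1
import Pool.Agent.P.MP_3f5ded_co.B9s2R2
import Pool.Agent.P.MP_3f5ded_co.B9s2R3
import Pool.Agent.P.MP_3f5ded_co.B9s2R4
import Pool.Agent.P.MP_3f5ded_co.B9s2R5
import Pool.Agent.P.MP_3f5ded_co.B9s2R6
import Pool.Agent.P.MP_3f5ded_co.B9s2R7
import Pool.Agent.P.MP_3f5ded_co.B9s2R8
import Pool.Agent.P.MP_3f5ded_co.B9s3T0
import Pool.Agent.P.MP_3f5ded_co.B9s3R1
import Pool.Agent.P.MP_3f5ded_co.B9s3R2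
import Pool.Agent.P.MP_3f5ded_co.B9s3R3
import Pool.Agent.P.MP_3f5ded_co.B9s3R4
import Pool.Agent.P.MP_3f5ded_co.B9s4T0
import Pool.Agent.P.MP_3f5ded_co.B9s4R1
import Pool.Agent.P.MP_3f5ded_co.B9s4R2
import Pool.Agent.P.MP_3f5ded_co.B9s4R3
import Pool.Agent.P.MP_3f5ded_co.B9s4R4
import Pool.Agent.P.MP_3f5ded_co.B9s5T0
import Pool.Agent.P.MP_3f5ded_co.B9s5R1
import Pool.Agent.P.MP_3f5ded_co.B9s5R2
import Pool.Agent.P.MP_3f5ded_co.B9s5R3
import Pool.Agent.P.MP_3f5ded_co.B9s5R4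
import Pool.Agent.P.MP_3f5ded_co.B9s5R5
import Pool.Agent.P.MP_3f5ded_co.B9s5R6
import Pool.Agent.P.MP_3f5ded_co.B9s6T0
import Pool.Agent.P.MP_3f5ded_co.B9s6R1
import Pool.Agent.P.MP_3f5ded_co.B9s6R2
import Pool.Agent.P.MP_3f5ded_co.B9s6R3
import Pool.Agent.P.MP_3f5ded_co.B9s6R4
import Pool.Agent.P.MP_3f5ded_co.B9s6R5
import Pool.Agent.P.MP_3f5ded_co.B9s7T0
import Pool.Agent.P.MP_3f5ded_co.B9s7R1
import Pool.Agent.P.MP_3f5ded_co.B9s7R2
import Pool.Agent.P.MP_3f5ded_co.B9s7R3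
import Pool.Agent.P.MP_3f5ded_co.B9s7R4
import Pool.Agent.P.MP_3f5ded_co.B9s7R5
import Pool.Agent.P.MP_3f5ded_co.B9s7R6
import Pool.Agent.P.MP_3f5ded_co.B9s7R7
import Pool.Agent.P.MP_3f5ded_co.B9s8T0
import Pool.Agent.P.MP_3f5ded_co.B9s8R1
import Pool.Agent.P.MP_3f5ded_co.B9s8R2
import Pool.Agent.P.MP_3f5ded_co.B9s8R3
import Pool.Agent.P.MP_3f5ded_co.B9s8R4
import Pool.Agent.P.MP_3f5ded_co.B9s8R5
import Pool.Agent.P.MP_3f5ded_co.B9s8R6
import Pool.Agent.P.MP_3f5ded_co.B9s9T0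
import Pool.Agent.P.MP_3f5ded_co.B9s9R1
import Pool.Agent.P.MP_3f5ded_co.B9s9R2
import Pool.Agent.P.MP_3f5ded_co.B9s9R3
import Pool.Agent.P.MP_3f5ded_co.B9s9R4
import Pool.Agent.P.MP_3f5ded_co.B9s10T0
import Pool.Agent.P.MP_3f5ded_co.B9s10R1
import Pool.Agent.P.MP_3f5ded_co.B9s10R2
import Pool.Agent.P.MP_3f5ded_co.B9s10R3
import Pool.Agent.P.MP_3f5ded_co.B9s10R4
import Pool.Agent.P.MP_3f5ded_co.B9s10R5
import Pool.Agent.P.MP_3f5ded_co.B9s11T0
import Pool.Agent.P.MP_3f5ded_co.B9s11R1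
import Pool.Agent.P.MP_3f5ded_co.B9s11R2
import Pool.Agent.P.MP_3f5ded_co.B9s11R3
import Pool.Agent.P.MP_3f5ded_co.B9s12T0
import Pool.Agent.P.MP_3f5ded_co.B9s12R1
import Pool.Agent.P.MP_3f5ded_co.B9s12R2
import Pool.Agent.P.MP_3f5ded_co.B9s12R3
import Pool.Agent.P.MP_3f5ded_co.B9s13T0
import Pool.Agent.P.MP_3f5ded_co.B9s13R1
import Pool.Agent.P.MP_3f5ded_co.B9s13R2
import Pool.Agent.P.MP_3f5ded_co.B9s13R3
import Pool.Agent.P.MP_3f5ded_co.B9s14T0
import Pool.Agent.P.MP_3f5ded_co.B9s14R1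
import Pool.Agent.P.MP_3f5ded_co.B9s14R2
import Pool.Agent.P.MP_3f5ded_co.B9s14R3
import Pool.Agent.P.MP_3f5ded_co.B9s15T0
import Pool.Agent.P.MP_3f5ded_co.B9s15T1
import Pool.Agent.P.MP_3f5ded_co.B9s15R1
import Pool.Agent.P.MP_3f5ded_co.B9s15R2
import Pool.Agent.P.MP_3f5ded_co.B9s15R3
import Pool.Agent.P.MP_3f5ded_co.B9s15R4
import Pool.Agent.P.MP_3f5ded_co.B9s15R5
import Pool.Agent.P.MP_3f5ded_co.B9s15R6
import Pool.Agent.P.MP_3f5ded_co.B9s15R7
import Pool.Agent.P.MP_3f5ded_co.B9s15R8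
import Pool.Agent.P.MP_3f5ded_co.B9s16T0
import Pool.Agent.P.MP_3f5ded_co.B9s16R1
import Pool.Agent.P.MP_3f5ded_co.B9s16R2
import Pool.Agent.P.MP_3f5ded_co.B9s17T0
import Pool.Agent.P.MP_3f5ded_co.B9s17R1
import Pool.Agent.P.MP_3f5ded_co.B9s17R2
import Pool.Agent.P.MP_3f5ded_co.B9s18T0
import Pool.Agent.P.MP_3f5ded_co.B9s18R1

set_option autoImplicit false

namespace Pool.Agent.P.MP_3f5ded_co.R.B9s0

open RRup T

noncomputable section

variable {C : Type} {V : C → Prop} {W : C → Nat → Prop}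

theorem done (h0 : ∀ x, V x → W x 0)
    (Hth : ∀ c h, (Pool.Agent.P.MP_3f5ded_co.UG.N9.chk 0) c h = 0 → Univ V W c) :
    ∀ x, ¬ V x := by
  have t : ta 0 % 524288 = 0 := by decide +kernel
  have ut0 : UpD V W ta 3442 D 5980 := ptz_ok Hth kt0 UpD.zero
  have u1 : UpD V W ta 3442 D 8239 := pblk_ok h0 t (by decide) k1 ut0
  have u2 : UpD V W ta 3442 D 12724 := pblk_ok h0 t (by decide) k2 u1
  exact UpD.empty (z := 12723) u2 (by decide +kernel)

end

end Pool.Agent.P.MP_3f5ded_co.R.B9s0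

namespace Pool.Agent.P.MP_3f5ded_co.R.B9s1

open RRup T

noncomputable section

variable {C : Type} {V : C → Prop} {W : C → Nat → Prop}

theorem done (h0 : ∀ x, V x → W x 0)
    (Hth : ∀ c h, (Pool.Agent.P.MP_3f5ded_co.UG.N9.chk 1) c h = 0 → Univ V W c) :
    ∀ x, ¬ V x := by
  have t : ta 0 % 524288 = 0 := by decide +kernel
  have ut0 : UpD V W ta 3798 D 8294 := ptz_ok Hth kt0 UpD.zero
  have u1 : UpD V W ta 3798 D 11078 := pblk_ok h0 t (by decide) k1 ut0
  have u2 : UpD V W ta 3798 D 17639 := pblk_ok h0 t (by decide) k2 u1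
  have u3 : UpD V W ta 3798 D 20488 := pblk_ok h0 t (by decide) k3 u2
  have u4 : UpD V W ta 3798 D 22734 := pblk_ok h0 t (by decide) k4 u3
  have u5 : UpD V W ta 3798 D 25609 := pblk_ok h0 t (by decide) k5 u4
  have u6 : UpD V W ta 3798 D 29193 := pblk_ok h0 t (by decide) k6 u5
  exact UpD.empty (z := 29192) u6 (by decide +kernel)

end

end Pool.Agent.P.MP_3f5ded_co.R.B9s1

namespace Pool.Agent.P.MP_3f5ded_co.R.B9s2

open RRup T

noncomputable section

variable {C : Type} {V : C → Prop} {W : C → Nat → Prop}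

theorem done (h0 : ∀ x, V x → W x 0)
    (Hth : ∀ c h, (Pool.Agent.P.MP_3f5ded_co.UG.N9.chk 2) c h = 0 → Univ V W c) :
    ∀ x, ¬ V x := by
  have t : ta 0 % 524288 = 0 := by decide +kernel
  have ut0 : UpD V W ta 4104 D 5192 := ptz_ok Hth kt0 UpD.zero
  have ut1 : UpD V W ta 4104 D 10383 := ptz_ok Hth kt1 ut0
  have u1 : UpD V W ta 4104 D 13490 := pblk_ok h0 t (by decide) k1 ut1
  have u2 : UpD V W ta 4104 D 22530 := pblk_ok h0 t (by decide) k2 u1
  have u3 : UpD V W ta 4104 D 26168 := pblk_ok h0 t (by decide) k3 u2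
  have u4 : UpD V W ta 4104 D 29666 := pblk_ok h0 t (by decide) k4 u3
  have u5 : UpD V W ta 4104 D 32764 := pblk_ok h0 t (by decide) k5 u4
  have u6 : UpD V W ta 4104 D 34970 := pblk_ok h0 t (by decide) k6 u5
  have u7 : UpD V W ta 4104 D 37162 := pblk_ok h0 t (by decide) k7 u6
  have u8 : UpD V W ta 4104 D 40051 := pblk_ok h0 t (by decide) k8 u7
  exact UpD.empty (z := 40050) u8 (by decide +kernel)

end

end Pool.Agent.P.MP_3f5ded_co.R.B9s2

namespace Pool.Agent.P.MP_3f5ded_co.R.B9s3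

open RRup T

noncomputable section

variable {C : Type} {V : C → Prop} {W : C → Nat → Prop}

theorem done (h0 : ∀ x, V x → W x 0)
    (Hth : ∀ c h, (Pool.Agent.P.MP_3f5ded_co.UG.N9.chk 3) c h = 0 → Univ V W c) :
    ∀ x, ¬ V x := by
  have t : ta 0 % 524288 = 0 := by decide +kernel
  have ut0 : UpD V W ta 3868 D 8507 := ptz_ok Hth kt0 UpD.zero
  have u1 : UpD V W ta 3868 D 11109 := pblk_ok h0 t (by decide) k1 ut0
  have u2 : UpD V W ta 3868 D 16905 := pblk_ok h0 t (by decide) k2 u1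
  have u3 : UpD V W ta 3868 D 20374 := pblk_ok h0 t (by decide) k3 u2
  have u4 : UpD V W ta 3868 D 23661 := pblk_ok h0 t (by decide) k4 u3
  exact UpD.empty (z := 23660) u4 (by decide +kernel)

end

end Pool.Agent.P.MP_3f5ded_co.R.B9s3

namespace Pool.Agent.P.MP_3f5ded_co.R.B9s4

open RRup T

noncomputable section

variable {C : Type} {V : C → Prop} {W : C → Nat → Prop}

theorem done (h0 : ∀ x, V x → W x 0)
    (Hth : ∀ c h, (Pool.Agent.P.MP_3f5ded_co.UG.N9.chk 4) c h = 0 → Univ V W c) :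
    ∀ x, ¬ V x := by
  have t : ta 0 % 524288 = 0 := by decide +kernel
  have ut0 : UpD V W ta 3644 D 7249 := ptz_ok Hth kt0 UpD.zero
  have u1 : UpD V W ta 3644 D 9866 := pblk_ok h0 t (by decide) k1 ut0
  have u2 : UpD V W ta 3644 D 15449 := pblk_ok h0 t (by decide) k2 u1
  have u3 : UpD V W ta 3644 D 17627 := pblk_ok h0 t (by decide) k3 u2
  have u4 : UpD V W ta 3644 D 20369 := pblk_ok h0 t (by decide) k4 u3
  exact UpD.empty (z := 20368) u4 (by decide +kernel)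

end

end Pool.Agent.P.MP_3f5ded_co.R.B9s4

namespace Pool.Agent.P.MP_3f5ded_co.R.B9s5

open RRup T

noncomputable section

variable {C : Type} {V : C → Prop} {W : C → Nat → Prop}

theorem done (h0 : ∀ x, V x → W x 0)
    (Hth : ∀ c h, (Pool.Agent.P.MP_3f5ded_co.UG.N9.chk 5) c h = 0 → Univ V W c) :
    ∀ x, ¬ V x := by
  have t : ta 0 % 524288 = 0 := by decide +kernel
  have ut0 : UpD V W ta 3754 D 8192 := ptz_ok Hth kt0 UpD.zero
  have u1 : UpD V W ta 3754 D 10973 := pblk_ok h0 t (by decide) k1 ut0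
  have u2 : UpD V W ta 3754 D 18874 := pblk_ok h0 t (by decide) k2 u1
  have u3 : UpD V W ta 3754 D 21254 := pblk_ok h0 t (by decide) k3 u2
  have u4 : UpD V W ta 3754 D 24933 := pblk_ok h0 t (by decide) k4 u3
  have u5 : UpD V W ta 3754 D 27774 := pblk_ok h0 t (by decide) k5 u4
  have u6 : UpD V W ta 3754 D 30539 := pblk_ok h0 t (by decide) k6 u5
  exact UpD.empty (z := 30538) u6 (by decide +kernel)

end

end Pool.Agent.P.MP_3f5ded_co.R.B9s5

namespace Pool.Agent.P.MP_3f5ded_co.R.B9s6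

open RRup T

noncomputable section

variable {C : Type} {V : C → Prop} {W : C → Nat → Prop}

theorem done (h0 : ∀ x, V x → W x 0)
    (Hth : ∀ c h, (Pool.Agent.P.MP_3f5ded_co.UG.N9.chk 6) c h = 0 → Univ V W c) :
    ∀ x, ¬ V x := by
  have t : ta 0 % 524288 = 0 := by decide +kernel
  have ut0 : UpD V W ta 3910 D 9047 := ptz_ok Hth kt0 UpD.zero
  have u1 : UpD V W ta 3910 D 11834 := pblk_ok h0 t (by decide) k1 ut0
  have u2 : UpD V W ta 3910 D 18488 := pblk_ok h0 t (by decide) k2 u1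
  have u3 : UpD V W ta 3910 D 22157 := pblk_ok h0 t (by decide) k3 u2
  have u4 : UpD V W ta 3910 D 26237 := pblk_ok h0 t (by decide) k4 u3
  have u5 : UpD V W ta 3910 D 29363 := pblk_ok h0 t (by decide) k5 u4
  exact UpD.empty (z := 29362) u5 (by decide +kernel)

end

end Pool.Agent.P.MP_3f5ded_co.R.B9s6

namespace Pool.Agent.P.MP_3f5ded_co.R.B9s7

open RRup T

noncomputable section

variable {C : Type} {V : C → Prop} {W : C → Nat → Prop}

theorem done (h0 : ∀ x, V x → W x 0)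
    (Hth : ∀ c h, (Pool.Agent.P.MP_3f5ded_co.UG.N9.chk 7) c h = 0 → Univ V W c) :
    ∀ x, ¬ V x := by
  have t : ta 0 % 524288 = 0 := by decide +kernel
  have ut0 : UpD V W ta 4110 D 9279 := ptz_ok Hth kt0 UpD.zero
  have u1 : UpD V W ta 4110 D 12264 := pblk_ok h0 t (by decide) k1 ut0
  have u2 : UpD V W ta 4110 D 20479 := pblk_ok h0 t (by decide) k2 u1
  have u3 : UpD V W ta 4110 D 23599 := pblk_ok h0 t (by decide) k3 u2
  have u4 : UpD V W ta 4110 D 27830 := pblk_ok h0 t (by decide) k4 u3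
  have u5 : UpD V W ta 4110 D 31057 := pblk_ok h0 t (by decide) k5 u4
  have u6 : UpD V W ta 4110 D 34548 := pblk_ok h0 t (by decide) k6 u5
  have u7 : UpD V W ta 4110 D 37290 := pblk_ok h0 t (by decide) k7 u6
  exact UpD.empty (z := 37289) u7 (by decide +kernel)

end

end Pool.Agent.P.MP_3f5ded_co.R.B9s7

namespace Pool.Agent.P.MP_3f5ded_co.R.B9s8

open RRup T

noncomputable section

variable {C : Type} {V : C → Prop} {W : C → Nat → Prop}

theorem done (h0 : ∀ x, V x → W x 0)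
    (Hth : ∀ c h, (Pool.Agent.P.MP_3f5ded_co.UG.N9.chk 8) c h = 0 → Univ V W c) :
    ∀ x, ¬ V x := by
  have t : ta 0 % 524288 = 0 := by decide +kernel
  have ut0 : UpD V W ta 3766 D 8549 := ptz_ok Hth kt0 UpD.zero
  have u1 : UpD V W ta 3766 D 11278 := pblk_ok h0 t (by decide) k1 ut0
  have u2 : UpD V W ta 3766 D 18581 := pblk_ok h0 t (by decide) k2 u1
  have u3 : UpD V W ta 3766 D 20799 := pblk_ok h0 t (by decide) k3 u2
  have u4 : UpD V W ta 3766 D 24535 := pblk_ok h0 t (by decide) k4 u3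
  have u5 : UpD V W ta 3766 D 27979 := pblk_ok h0 t (by decide) k5 u4
  have u6 : UpD V W ta 3766 D 30960 := pblk_ok h0 t (by decide) k6 u5
  exact UpD.empty (z := 30959) u6 (by decide +kernel)

end

end Pool.Agent.P.MP_3f5ded_co.R.B9s8

namespace Pool.Agent.P.MP_3f5ded_co.R.B9s9

open RRup T

noncomputable section

variable {C : Type} {V : C → Prop} {W : C → Nat → Prop}

theorem done (h0 : ∀ x, V x → W x 0)
    (Hth : ∀ c h, (Pool.Agent.P.MP_3f5ded_co.UG.N9.chk 9) c h = 0 → Univ V W c) :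
    ∀ x, ¬ V x := by
  have t : ta 0 % 524288 = 0 := by decide +kernel
  have ut0 : UpD V W ta 3692 D 7485 := ptz_ok Hth kt0 UpD.zero
  have u1 : UpD V W ta 3692 D 10076 := pblk_ok h0 t (by decide) k1 ut0
  have u2 : UpD V W ta 3692 D 16189 := pblk_ok h0 t (by decide) k2 u1
  have u3 : UpD V W ta 3692 D 18139 := pblk_ok h0 t (by decide) k3 u2
  have u4 : UpD V W ta 3692 D 20580 := pblk_ok h0 t (by decide) k4 u3
  exact UpD.empty (z := 20579) u4 (by decide +kernel)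

end

end Pool.Agent.P.MP_3f5ded_co.R.B9s9

namespace Pool.Agent.P.MP_3f5ded_co.R.B9s10

open RRup T

noncomputable section

variable {C : Type} {V : C → Prop} {W : C → Nat → Prop}

theorem done (h0 : ∀ x, V x → W x 0)
    (Hth : ∀ c h, (Pool.Agent.P.MP_3f5ded_co.UG.N9.chk 10) c h = 0 → Univ V W c) :
    ∀ x, ¬ V x := by
  have t : ta 0 % 524288 = 0 := by decide +kernel
  have ut0 : UpD V W ta 3842 D 8295 := ptz_ok Hth kt0 UpD.zero
  have u1 : UpD V W ta 3842 D 10878 := pblk_ok h0 t (by decide) k1 ut0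
  have u2 : UpD V W ta 3842 D 17896 := pblk_ok h0 t (by decide) k2 u1
  have u3 : UpD V W ta 3842 D 20056 := pblk_ok h0 t (by decide) k3 u2
  have u4 : UpD V W ta 3842 D 22014 := pblk_ok h0 t (by decide) k4 u3
  have u5 : UpD V W ta 3842 D 24292 := pblk_ok h0 t (by decide) k5 u4
  exact UpD.empty (z := 24291) u5 (by decide +kernel)

end

end Pool.Agent.P.MP_3f5ded_co.R.B9s10

namespace Pool.Agent.P.MP_3f5ded_co.R.B9s11

open RRup T

noncomputable section

variable {C : Type} {V : C → Prop} {W : C → Nat → Prop}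

theorem done (h0 : ∀ x, V x → W x 0)
    (Hth : ∀ c h, (Pool.Agent.P.MP_3f5ded_co.UG.N9.chk 11) c h = 0 → Univ V W c) :
    ∀ x, ¬ V x := by
  have t : ta 0 % 524288 = 0 := by decide +kernel
  have ut0 : UpD V W ta 3592 D 7217 := ptz_ok Hth kt0 UpD.zero
  have u1 : UpD V W ta 3592 D 9715 := pblk_ok h0 t (by decide) k1 ut0
  have u2 : UpD V W ta 3592 D 14769 := pblk_ok h0 t (by decide) k2 u1
  have u3 : UpD V W ta 3592 D 17371 := pblk_ok h0 t (by decide) k3 u2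
  exact UpD.empty (z := 17370) u3 (by decide +kernel)

end

end Pool.Agent.P.MP_3f5ded_co.R.B9s11

namespace Pool.Agent.P.MP_3f5ded_co.R.B9s12

open RRup T

noncomputable section

variable {C : Type} {V : C → Prop} {W : C → Nat → Prop}

theorem done (h0 : ∀ x, V x → W x 0)
    (Hth : ∀ c h, (Pool.Agent.P.MP_3f5ded_co.UG.N9.chk 12) c h = 0 → Univ V W c) :
    ∀ x, ¬ V x := by
  have t : ta 0 % 524288 = 0 := by decide +kernel
  have ut0 : UpD V W ta 3820 D 8745 := ptz_ok Hth kt0 UpD.zero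
  have u1 : UpD V W ta 3820 D 11400 := pblk_ok h0 t (by decide) k1 ut0
  have u2 : UpD V W ta 3820 D 16978 := pblk_ok h0 t (by decide) k2 u1
  have u3 : UpD V W ta 3820 D 21800 := pblk_ok h0 t (by decide) k3 u2
  exact UpD.empty (z := 21799) u3 (by decide +kernel)

end

end Pool.Agent.P.MP_3f5ded_co.R.B9s12

namespace Pool.Agent.P.MP_3f5ded_co.R.B9s13

open RRup T

noncomputable section

variable {C : Type} {V : C → Prop} {W : C → Nat → Prop}

theorem done (h0 : ∀ x, V x → W x 0)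
    (Hth : ∀ c h, (Pool.Agent.P.MP_3f5ded_co.UG.N9.chk 13) c h = 0 → Univ V W c) :
    ∀ x, ¬ V x := by
  have t : ta 0 % 524288 = 0 := by decide +kernel
  have ut0 : UpD V W ta 3430 D 7188 := ptz_ok Hth kt0 UpD.zero
  have u1 : UpD V W ta 3430 D 9511 := pblk_ok h0 t (by decide) k1 ut0
  have u2 : UpD V W ta 3430 D 15103 := pblk_ok h0 t (by decide) k2 u1
  have u3 : UpD V W ta 3430 D 18524 := pblk_ok h0 t (by decide) k3 u2
  exact UpD.empty (z := 18523) u3 (by decide +kernel)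

end

end Pool.Agent.P.MP_3f5ded_co.R.B9s13

namespace Pool.Agent.P.MP_3f5ded_co.R.B9s14

open RRup T

noncomputable section

variable {C : Type} {V : C → Prop} {W : C → Nat → Prop}

theorem done (h0 : ∀ x, V x → W x 0)
    (Hth : ∀ c h, (Pool.Agent.P.MP_3f5ded_co.UG.N9.chk 14) c h = 0 → Univ V W c) :
    ∀ x, ¬ V x := by
  have t : ta 0 % 524288 = 0 := by decide +kernel
  have ut0 : UpD V W ta 3854 D 8183 := ptz_ok Hth kt0 UpD.zero
  have u1 : UpD V W ta 3854 D 10530 := pblk_ok h0 t (by decide) k1 ut0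
  have u2 : UpD V W ta 3854 D 14840 := pblk_ok h0 t (by decide) k2 u1
  have u3 : UpD V W ta 3854 D 18319 := pblk_ok h0 t (by decide) k3 u2
  exact UpD.empty (z := 18318) u3 (by decide +kernel)

end

end Pool.Agent.P.MP_3f5ded_co.R.B9s14

namespace Pool.Agent.P.MP_3f5ded_co.R.B9s15

open RRup T

noncomputable section

variable {C : Type} {V : C → Prop} {W : C → Nat → Prop}

theorem done (h0 : ∀ x, V x → W x 0)
    (Hth : ∀ c h, (Pool.Agent.P.MP_3f5ded_co.UG.N9.chk 15) c h = 0 → Univ V W c) :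
    ∀ x, ¬ V x := by
  have t : ta 0 % 524288 = 0 := by decide +kernel
  have ut0 : UpD V W ta 3866 D 5433 := ptz_ok Hth kt0 UpD.zero
  have ut1 : UpD V W ta 3866 D 10866 := ptz_ok Hth kt1 ut0
  have u1 : UpD V W ta 3866 D 13974 := pblk_ok h0 t (by decide) k1 ut1
  have u2 : UpD V W ta 3866 D 23151 := pblk_ok h0 t (by decide) k2 u1
  have u3 : UpD V W ta 3866 D 27611 := pblk_ok h0 t (by decide) k3 u2
  have u4 : UpD V W ta 3866 D 29753 := pblk_ok h0 t (by decide) k4 u3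
  have u5 : UpD V W ta 3866 D 32876 := pblk_ok h0 t (by decide) k5 u4
  have u6 : UpD V W ta 3866 D 35095 := pblk_ok h0 t (by decide) k6 u5
  have u7 : UpD V W ta 3866 D 37342 := pblk_ok h0 t (by decide) k7 u6
  have u8 : UpD V W ta 3866 D 39919 := pblk_ok h0 t (by decide) k8 u7
  exact UpD.empty (z := 39918) u8 (by decide +kernel)

end

end Pool.Agent.P.MP_3f5ded_co.R.B9s15

namespace Pool.Agent.P.MP_3f5ded_co.R.B9s16

open RRup T

noncomputable section

variable {C : Type} {V : C → Prop} {W : C → Nat → Prop}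

theorem done (h0 : ∀ x, V x → W x 0)
    (Hth : ∀ c h, (Pool.Agent.P.MP_3f5ded_co.UG.N9.chk 16) c h = 0 → Univ V W c) :
    ∀ x, ¬ V x := by
  have t : ta 0 % 524288 = 0 := by decide +kernel
  have ut0 : UpD V W ta 3880 D 7350 := ptz_ok Hth kt0 UpD.zero
  have u1 : UpD V W ta 3880 D 9675 := pblk_ok h0 t (by decide) k1 ut0
  have u2 : UpD V W ta 3880 D 14190 := pblk_ok h0 t (by decide) k2 u1
  exact UpD.empty (z := 14189) u2 (by decide +kernel)

end

end Pool.Agent.P.MP_3f5ded_co.R.B9s16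

namespace Pool.Agent.P.MP_3f5ded_co.R.B9s17

open RRup T

noncomputable section

variable {C : Type} {V : C → Prop} {W : C → Nat → Prop}

theorem done (h0 : ∀ x, V x → W x 0)
    (Hth : ∀ c h, (Pool.Agent.P.MP_3f5ded_co.UG.N9.chk 17) c h = 0 → Univ V W c) :
    ∀ x, ¬ V x := by
  have t : ta 0 % 524288 = 0 := by decide +kernel
  have ut0 : UpD V W ta 3546 D 5881 := ptz_ok Hth kt0 UpD.zero
  have u1 : UpD V W ta 3546 D 8007 := pblk_ok h0 t (by decide) k1 ut0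
  have u2 : UpD V W ta 3546 D 10085 := pblk_ok h0 t (by decide) k2 u1
  exact UpD.empty (z := 10084) u2 (by decide +kernel)

end

end Pool.Agent.P.MP_3f5ded_co.R.B9s17

namespace Pool.Agent.P.MP_3f5ded_co.R.B9s18

open RRup T

noncomputable section

variable {C : Type} {V : C → Prop} {W : C → Nat → Prop}

theorem done (h0 : ∀ x, V x → W x 0)
    (Hth : ∀ c h, (Pool.Agent.P.MP_3f5ded_co.UG.N9.chk 18) c h = 0 → Univ V W c) :
    ∀ x, ¬ V x := by
  have t : ta 0 % 524288 = 0 := by decide +kernel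
  have ut0 : UpD V W ta 3094 D 4433 := ptz_ok Hth kt0 UpD.zero
  have u1 : UpD V W ta 3094 D 6486 := pblk_ok h0 t (by decide) k1 ut0
  exact UpD.empty (z := 6485) u1 (by decide +kernel)

end

end Pool.Agent.P.MP_3f5ded_co.R.B9s18

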