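import Pool.Agent.P.MP_3f5ded_co.USDefs

set_option autoImplicit false

namespace Pool.Agent.P.MP_3f5ded_co.UG

namespace B9

/-- The eight missing edges `01`, `23`, `46`, `47`, `48`, `56`, `59`, `5a`, smaller end first. -/
def Ms (x y : Fin 11) : Prop :=
  (x = 0 ∧ y = 1) ∨ (x = 2 ∧ y = 3) ∨ (x = 4 ∧ (y = 6 ∨ y = 7 ∨ y = 8)) ∨
    (x = 5 ∧ (y = 6 ∨ y = 9 ∨ y = 10))

/-- The edges of the block on eleven vertices. -/
def G (x y : Fin 11) : Prop := x ≠ y ∧ ¬ Ms x y ∧ ¬ Ms y x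

instance (x y : Fin 11) : Decidable (Ms x y) := by unfold Ms; infer_instance

instance (x y : Fin 11) : Decidable (G x y) := by unfold G; infer_instance

/-- The vertex of a port; the ports `0, 1, 2` are live, the ports `3, 4` are capped. -/
def ow : Fin 5 → Fin 11 := ![5, 4, 6, 5, 4]

/-- A colouring of the block: `c x y` is the colour at `x` of the edge `xy`, and `π p` is the
colour of the port `p`. -/
structure Cl (r : ℝ) (c : Fin 11 → Fin 11 → ℝ) (π : Fin 5 → ℝ) : Prop where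
  sym : ∀ u v, G u v → Cg r (c u v) (c v u)
  far : ∀ v u u', G v u → G v u' → u ≠ u' → Far r (c v u) (c v u')
  pf : ∀ p u, G (ow p) u → Far r (π p) (c (ow p) u)
  pp : ∀ p p', p ≠ p' → ow p = ow p' → Far r (π p) (π p')

/-- Rigidity of the capped block: the live ports have the gaps `4, 2, 2` (plus `r - 9`). -/
def Rigid : Prop :=
  ∀ (r : ℝ) (c : Fin 11 → Fin 11 → ℝ) (π : Fin 5 → ℝ), 1 ≤ r → r < 10 → Cl r c π →
    cd r (π 3) (π 4) ≤ r - 9 → TL 9 ![2, 2, 4] r ![π 0, π 1, π 2]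

end B9

end Pool.Agent.P.MP_3f5ded_co.UG
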