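import Pool.Agent.P.MP_3f5ded_co.B9Lab
import Pool.Agent.P.MP_3f5ded_co.U9Defs

set_option autoImplicit false

namespace Pool.Agent.P.MP_3f5ded_co.UG.N9

open Finset

open Classical in
/-- Times from reals, ties being broken. -/
noncomputable def rk (f : ℕ → ℕ → ℝ) (v w : ℕ) : ℤ :=
  256 * (((range 11 ×ˢ range 16).filter fun p => f p.1 p.2 < f v w).card : ℤ) + idn v w

lemma rk_lt {f : ℕ → ℕ → ℝ} {v w a b : ℕ} (h : v < 11 ∧ w < 16) (e : f v w < f a b) :
    rk f v w < rk f a b := by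
  classical
  have := idn_lt h
  have : ((range 11 ×ˢ range 16).filter fun p => f p.1 p.2 < f v w).card <
      ((range 11 ×ˢ range 16).filter fun p => f p.1 p.2 < f a b).card :=
    card_lt_card ⟨fun p x => mem_filter.2 ⟨(mem_filter.1 x).1, (mem_filter.1 x).2.trans e⟩, fun x =>
      lt_irrefl _ (mem_filter.1 (@x (v, w) (mem_filter.2 ⟨by simp [h.1, h.2], e⟩))).2⟩
  unfold rk
  omega

/-- The old name of a vertex. -/
def ov (v : ℕ) : Fin 11 := if v < 3 then Fin.ofNat 11 (v + 4) else if v < 7 then Fin.ofNat 11 (v - 3)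
  else Fin.ofNat 11 v

/-- The old name of a port. -/
def op (w : ℕ) : Fin 5 := if w = 11 then 4 else if w = 12 then 3 else if w = 13 then 0
  else if w = 14 then 2 else 1

/-- The labelling given by points of the unit interval. -/
noncomputable def lab (r : ℝ) (φ : ℕ → ℕ → ℝ) : Lab :=
  ⟨fun v w => B9.G (ov v) (ov w), fun v w => ⌊10 * φ v w⌋₊,
    rk fun v w => 10 * φ v w - ⌊10 * φ v w⌋₊, fun v w => r * φ v w⟩

instance (v w : ℕ) : Decidable (Pt v w) := by unfold Pt; infer_instance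

lemma valid_of {r : ℝ} (r1 : 1 ≤ r) (r9 : r < 10) (φ : ℕ → ℕ → ℝ) (h0 : ∀ v w, 0 ≤ φ v w)
    (h1 : ∀ v w, φ v w < 1) (sym : ∀ v w, Ed (lab r φ) v w → φ v w = φ w v)
    (sep : ∀ v w z, It (lab r φ) v w → It (lab r φ) v z → w ≠ z → φ v w ≤ φ v z →
      r * φ v w + 1 ≤ r * φ v z ∧ r * φ v z + 1 ≤ r * φ v w + r)
    (n : ¬ Con r (r * φ 1 13) (r * φ 0 15) (r * φ 2 14)) : Valid r (lab r φ) := by
  have r0 : 0 < r := by linarith
  have fl : ∀ v w, ((⌊10 * φ v w⌋₊ : ℕ) : ℝ) ≤ 10 * φ v w ∧ 10 * φ v w < ⌊10 * φ v w⌋₊ + 1 := fun v w =>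
    ⟨Nat.floor_le (by have := h0 v w; positivity), Nat.lt_floor_add_one _⟩
  have sp : ∀ v w z, It (lab r φ) v w → It (lab r φ) v z → w ≠ z → φ v w ≤ φ v z →
      10 * φ v w + 1 < 10 * φ v z ∧ 10 * φ v z + 1 < 10 * φ v w + 10 := fun v w z a b c d => by
    obtain ⟨x, y⟩ := sep v w z a b c d
    have p : φ v w < φ v z := lt_of_mul_lt_mul_left (a := r) (by linarith) r0.le
    have := h0 v w
    have := h1 v z
    constructor <;> nlinarith
  have lt : ∀ v w, ⌊10 * φ v w⌋₊ < 10 := fun v w =>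
    (Nat.floor_lt' (by norm_num)).2 (by have := h1 v w; push_cast; linarith)
  have ne : ∀ v w, Ed (lab r φ) v w → v ≠ w := fun v w a e => a.2.2.1 (by rw [e])
  refine ⟨r1, fun v w a => ⟨a.2.1, a.1, a.2.2.1.symm, a.2.2.2.2, a.2.2.2.1⟩, fun v a => ne v v a rfl,
    ⟨by omega, by omega, (by decide : B9.G (ov 0) (ov 1))⟩,
    fun a => (by decide : ¬ B9.G (ov 0) (ov 2)) a.2.2, fun a => (by decide : ¬ B9.G (ov 1) (ov 2)) a.2.2,
    fun v a b => ⟨by omega, b, (by decide : ∀ v < 11, 3 ≤ v → B9.G (ov 2) (ov v)) v b a⟩,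
    fun v a => ?_, fun v w _ => lt v w, ?_, ?_, ?_, ?_, ?_, ?_, ?_, n⟩
  · have : ∀ v < 11, ((range 16).filter fun w => (v < 11 ∧ w < 11 ∧ B9.G (ov v) (ov w)) ∨ Pt v w).card = 9 := by
      decide +kernel
    rw [← this v a]
    refine congrArg card (Finset.ext fun w => ?_)
    rw [mem_its, mem_filter, mem_range]
    exact ⟨fun x => ⟨x.lt.2, x⟩, fun x => x.2⟩
  · intro v w a
    simp only [lab, sym v w a]
  · intro v w a
    have : idn v w = idn w v := by
      have := ne v w a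
      unfold idn
      split_ifs <;> omega
    simp only [lab, rk, sym v w a, this]
  · intro v w a
    simp only [lab, sym v w a]
  · intro v w z a b e
    by_contra c
    have x := fl v w
    have y := fl v z
    simp only [lab] at e
    rw [e] at x
    rcases le_total (φ v w) (φ v z) with d | d
    · linarith [(sp v w z a b c d).1]
    · linarith [(sp v z w b a (Ne.symm c) d).1]
  · intro v w z a b e
    simp only [lab] at e ⊢
    have l := lt v w
    have c : w ≠ z := fun c => by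
      rw [c] at e l
      omega
    have x := fl v w
    have y := fl v z
    refine rk_lt a.lt ?_
    by_cases k : ⌊10 * φ v w⌋₊ = 9
    · rw [k] at e x ⊢
      rw [e] at y ⊢
      norm_num at x y ⊢
      rcases le_total (φ v w) (φ v z) with d | d
      · linarith
      · linarith [(sp v z w b a c.symm d).2]
    · rw [Nat.mod_eq_of_lt (by omega)] at e
      rw [e] at y ⊢
      push_cast at y ⊢
      rcases le_total (φ v w) (φ v z) with d | d
      · linarith [(sp v w z a b c d).1]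
      · linarith
  · intro v w a b i1 i2 e
    have l1 := i1.lt
    have l2 := i2.lt
    have := idn_lt l1
    have := idn_lt l2
    have : idn v w = idn a b := by
      simp only [lab, rk] at e
      omega
    have : (a = v ∧ b = w) ∨ (a = w ∧ b = v) := by
      unfold idn at this
      split_ifs at this <;> omega
    exact this.imp_right fun x => ⟨x.1, x.2, i1.ed (.inr (by omega))⟩
  · intro v w z a b e
    refine sep v w z a b (fun c => by rw [c] at e; exact lt_irrefl _ e) (not_lt.1 fun d => ?_)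
    exact absurd (Nat.floor_le_floor (show 10 * φ v z ≤ 10 * φ v w by linarith)) (not_le.2 e)

theorem rigid_of (H : ∀ r L, Valid r L → L.col 0 11 = 0 → L.col 1 12 = 0 → False) : B9.Rigid :=
    fun r C π r1 r9 h hc => by
  by_contra n
  have r0 : 0 < r := by linarith
  obtain ⟨k, hk⟩ : ∃ k : ℤ, |π 3 - π 4 - k * r| ≤ r - 9 := ⟨_, hc⟩
  obtain ⟨o, o1, o2, o3, o4⟩ : ∃ o, o ≤ π 4 ∧ π 4 - o ≤ r - 9 ∧ o ≤ π 3 - k * r ∧ π 3 - k * r - o ≤ r - 9 := by
    obtain ⟨a, b⟩ := abs_le.1 hk
    rcases le_total (π 4) (π 3 - k * r) with x | x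
    · exact ⟨π 4, by linarith, by linarith, by linarith, by linarith⟩
    · exact ⟨π 3 - k * r, by linarith, by linarith, by linarith, by linarith⟩
  let D : ℕ → ℕ → ℝ := fun v w => if w < 11 then C (ov v) (ov w) else π (op w)
  let φ : ℕ → ℕ → ℝ := fun v w => Int.fract ((D v w - o) / r)
  have dec : ∀ v w, D v w - o = r * φ v w + (⌊(D v w - o) / r⌋ : ℤ) * r := fun v w => by
    simp only [φ, Int.fract]
    field_simp
    ring
  have far : ∀ v w z, It (lab r φ) v w → It (lab r φ) v z → w ≠ z → Far r (D v w) (D v z) := by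
    have a : ∀ v < 11, ∀ w < 16, Pt v w → B9.ow (op w) = ov v ∧ ¬ w < 11 := by decide +kernel
    have b : ∀ w < 11, ∀ z < 11, w ≠ z → ov w ≠ ov z := by decide +kernel
    have c : ∀ w < 16, ∀ z < 16, w < 11 ∨ z < 11 ∨ w = z ∨ op w ≠ op z := by decide +kernel
    intro v w z i j e
    have l := i.lt
    have m := j.lt
    rcases i with i | i <;> rcases j with j | j
    · simp only [D, i.2.1, j.2.1, if_true]
      exact h.far _ _ _ i.2.2 j.2.2 (b w i.2.1 z j.2.1 e)
    · obtain ⟨x, y⟩ := a v l.1 z m.2 j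
      simp only [D, i.2.1, y, if_true, if_false]
      intro t
      have := h.pf (op z) (ov w) (x ▸ i.2.2) (-t)
      rw [x, ← abs_neg] at this
      exact this.trans_eq (congrArg abs (by push_cast; ring))
    · obtain ⟨x, y⟩ := a v l.1 w l.2 i
      simp only [D, j.2.1, y, if_true, if_false]
      exact x ▸ h.pf (op w) (ov z) (x ▸ j.2.2)
    · obtain ⟨x, y⟩ := a v l.1 w l.2 i
      obtain ⟨x', y'⟩ := a v l.1 z m.2 j
      simp only [D, y, y', if_false]
      exact h.pp _ _ ((((c w l.2 z m.2).resolve_left y).resolve_left y').resolve_left e) (x.trans x'.symm)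
  have z : ∀ x : ℝ, 0 ≤ x → x ≤ r - 9 → ⌊10 * Int.fract (x / r)⌋₊ = 0 := fun x a b => by
    have : x / r < 1 / 10 := by
      rw [div_lt_iff₀ r0]
      linarith
    rw [Int.fract_eq_self.2 ⟨by positivity, by linarith⟩]
    exact Nat.floor_eq_zero.2 (by linarith)
  refine H r (lab r φ) (valid_of r1 r9 φ (fun _ _ => Int.fract_nonneg _) (fun _ _ => Int.fract_lt_one _)
    (fun v w a => ?_) (fun v w z a b c d => ?_) fun c => n ?_) (z (π 4 - o) (by linarith) o2) ?_
  · obtain ⟨k, e⟩ := h.sym (ov v) (ov w) a.2.2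
    simp only [φ, D, a.1, a.2.1, if_true]
    rw [e, add_sub_right_comm, add_div, mul_div_cancel_right₀ _ r0.ne', Int.fract_add_intCast]
  · have f := far v w z a b c
    have x := dec v w
    have y := dec v z
    have f0 := f (⌊(D v w - o) / r⌋ - ⌊(D v z - o) / r⌋)
    have f1 := f (⌊(D v w - o) / r⌋ - ⌊(D v z - o) / r⌋ - 1)
    have := mul_le_mul_of_nonneg_left d r0.le
    have : 0 ≤ r * φ v w := mul_nonneg r0.le (Int.fract_nonneg _)
    have : r * φ v z < r * 1 := mul_lt_mul_of_pos_left (Int.fract_lt_one _) r0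
    push_cast at f0 f1
    constructor
    · rcases le_abs'.1 f0 with t | t <;> linarith
    · rcases le_abs'.1 f1 with t | t <;> linarith
  · have x0 : π 0 - o = _ := dec 1 13
    have x1 : π 1 - o = _ := dec 0 15
    have x2 : π 2 - o = _ := dec 2 14
    generalize ⌊(D 1 13 - o) / r⌋ = a at x0
    generalize ⌊(D 0 15 - o) / r⌋ = b at x1
    generalize ⌊(D 2 14 - o) / r⌋ = d at x2
    rcases c with ⟨s, t, c1, c2, c3⟩ | ⟨s, t, c1, c2, c3⟩
    · refine .inr ⟨π 2 + (t + a - d - 1 : ℤ) * r, π 1 + (s + a - b : ℤ) * r, ⟨-(t + a - d - 1), ?_⟩,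
        ⟨-(s + a - b), ?_⟩, ?_, ?_, ?_⟩ <;> simp <;> linarith
    · refine .inl ⟨π 1 + (a - b - s + 1 : ℤ) * r, π 2 + (t + a - d - s : ℤ) * r, ⟨-(a - b - s + 1), ?_⟩,
        ⟨-(t + a - d - s), ?_⟩, ?_, ?_, ?_⟩ <;> simp <;> linarith
  · have := z (π 3 - k * r - o) (by linarith) o4
    rwa [sub_right_comm, sub_div, mul_div_cancel_right₀ _ r0.ne', Int.fract_sub_intCast] at this

end Pool.Agent.P.MP_3f5ded_co.UG.N9
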