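import Pool.Agent.P.MP_3f5ded_co.B9Fam
import Pool.Agent.P.MP_3f5ded_co.B9Zero
import Pool.Agent.P.MP_3f5ded_co.B9Glue

set_option autoImplicit false

namespace Pool.Agent.P.MP_3f5ded_co.UG.N9

lemma no_valid {r : ℝ} (H : ∀ s ≤ 18, ∀ L, ¬ V r s L) (L : Lab) (h : Valid r L) (z0 : L.col 0 11 = 0)
    (z1 : L.col 1 12 = 0) : False := by
  classical
  obtain ⟨L, n⟩ := h.nf z0 z1
  have e : ∀ x ∈ cb 18, W r L x := List.forall_mem_nil _
  have e' : ∃ s, ∀ x ∈ cb s, W r L x := ⟨_, e⟩
  exact H (Nat.find e') (Nat.find_min' e' e) L ⟨n, Nat.find_spec e', fun _ => Nat.find_min e'⟩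

/-- The capped block on eleven vertices is rigid. -/
theorem rigid : B9.Rigid := rigid_of fun r => no_valid fun s hs => by
  interval_cases s
  · exact R.B9s0.done (fun _ _ => W_zero) (sound r 0)
  · exact R.B9s1.done (fun _ _ => W_zero) (sound r 1)
  · exact R.B9s2.done (fun _ _ => W_zero) (sound r 2)
  · exact R.B9s3.done (fun _ _ => W_zero) (sound r 3)
  · exact R.B9s4.done (fun _ _ => W_zero) (sound r 4)
  · exact R.B9s5.done (fun _ _ => W_zero) (sound r 5)
  · exact R.B9s6.done (fun _ _ => W_zero) (sound r 6)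
  · exact R.B9s7.done (fun _ _ => W_zero) (sound r 7)
  · exact R.B9s8.done (fun _ _ => W_zero) (sound r 8)
  · exact R.B9s9.done (fun _ _ => W_zero) (sound r 9)
  · exact R.B9s10.done (fun _ _ => W_zero) (sound r 10)
  · exact R.B9s11.done (fun _ _ => W_zero) (sound r 11)
  · exact R.B9s12.done (fun _ _ => W_zero) (sound r 12)
  · exact R.B9s13.done (fun _ _ => W_zero) (sound r 13)
  · exact R.B9s14.done (fun _ _ => W_zero) (sound r 14)
  · exact R.B9s15.done (fun _ _ => W_zero) (sound r 15)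
  · exact R.B9s16.done (fun _ _ => W_zero) (sound r 16)
  · exact R.B9s17.done (fun _ _ => W_zero) (sound r 17)
  · exact R.B9s18.done (fun _ _ => W_zero) (sound r 18)

end Pool.Agent.P.MP_3f5ded_co.UG.N9
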