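import Mathlib

set_option autoImplicit false

namespace Pool.Agent.P.MP_3f5ded_co.UG.N9

open Finset

/-- The ports: `11, 15` at the vertex `0`, `12, 13` at the vertex `1`, `14` at the vertex `2`. -/
def Pt (v w : ℕ) : Prop := (v = 0 ∧ (w = 11 ∨ w = 15)) ∨ (v = 1 ∧ (w = 12 ∨ w = 13)) ∨ (v = 2 ∧ w = 14)

/-- Edges, and colour, time and position of the items. -/
structure Lab where
  adj : ℕ → ℕ → Prop
  col : ℕ → ℕ → ℕ
  tm : ℕ → ℕ → ℤ
  ps : ℕ → ℕ → ℝ

/-- `v w` is an edge. -/
def Ed (L : Lab) (v w : ℕ) : Prop := v < 11 ∧ w < 11 ∧ L.adj v w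

/-- `w` names an item (an edge or a port) at the vertex `v`. -/
def It (L : Lab) (v w : ℕ) : Prop := Ed L v w ∨ Pt v w

/-- Three points with the steps `5, 7, 7` in two turns. -/
def Con0 (r x y z : ℝ) : Prop :=
  ∃ k l : ℤ, x + 5 ≤ y + k * r ∧ y + k * r + 7 ≤ z + l * r ∧ z + l * r + 7 ≤ x + 2 * r

/-- The conclusion. -/
def Con (r x y z : ℝ) : Prop := Con0 r x y z ∨ Con0 r y x z

lemma Con0.shift {r x y z : ℝ} (a b c : ℤ) (h : Con0 r (x + a * r) (y + b * r) (z + c * r)) :
    Con0 r x y z := by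
  obtain ⟨k, l, p, q, s⟩ := h
  refine ⟨k + b - a, l + c - a, ?_, ?_, ?_⟩ <;> push_cast <;> linarith

lemma Con.shift {r x y z : ℝ} (a b c : ℤ) (h : Con r (x + a * r) (y + b * r) (z + c * r)) :
    Con r x y z := h.imp (.shift a b c) (.shift b a c)

open Classical in
/-- The items at a vertex. -/
noncomputable def its (L : Lab) (v : ℕ) : Finset ℕ := (range 16).filter (It L v)

/-- What a colouring with `r < 10` without the conclusion gives. -/
structure Valid (r : ℝ) (L : Lab) : Prop where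
  r0 : 1 ≤ r
  sym : ∀ v w, Ed L v w → Ed L w v
  irr : ∀ v, ¬ Ed L v v
  e01 : Ed L 0 1
  n02 : ¬ Ed L 0 2
  n12 : ¬ Ed L 1 2
  e2 : ∀ v, 3 ≤ v → v < 11 → Ed L 2 v
  deg : ∀ v < 11, (its L v).card = 9
  lt : ∀ v w, It L v w → L.col v w < 10
  csym : ∀ v w, Ed L v w → L.col v w = L.col w v
  tsym : ∀ v w, Ed L v w → L.tm v w = L.tm w v
  psym : ∀ v w, Ed L v w → L.ps v w = L.ps w v
  prop : ∀ v w z, It L v w → It L v z → L.col v w = L.col v z → w = z
  arc : ∀ v w z, It L v w → It L v z → L.col v z = (L.col v w + 1) % 10 → L.tm v w < L.tm v z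
  inj : ∀ v w a b, It L v w → It L a b → L.tm v w = L.tm a b →
    (a = v ∧ b = w) ∨ (a = w ∧ b = v ∧ Ed L v w)
  step : ∀ v w z, It L v w → It L v z → L.col v w < L.col v z →
    L.ps v w + 1 ≤ L.ps v z ∧ L.ps v z + 1 ≤ L.ps v w + r
  ncon : ¬ Con r (L.ps 1 13) (L.ps 0 15) (L.ps 2 14)

variable {r : ℝ} {L : Lab}

lemma Ed.it {v w : ℕ} (h : Ed L v w) : It L v w := .inl h

lemma Pt.it {v w : ℕ} (h : Pt v w) : It L v w := .inr h

lemma It.lt {v w : ℕ} (h : It L v w) : v < 11 ∧ w < 16 := by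
  rcases h with h | h
  · exact ⟨h.1, h.2.1.trans (by norm_num)⟩
  · unfold Pt at h
    omega

lemma Ed.npt {v w : ℕ} (h : Ed L v w) : ¬ Pt v w := by
  have := h.2.1
  unfold Pt
  omega

lemma It.ed {v w : ℕ} (h : It L v w) (a : 3 ≤ v ∨ w < 11) : Ed L v w :=
  h.resolve_right (by unfold Pt; omega)

lemma mem_its {v w : ℕ} : w ∈ its L v ↔ It L v w := by
  classical
  exact mem_filter.trans ⟨fun x => x.2, fun x => ⟨mem_range.2 x.lt.2, x⟩⟩

lemma p0 : It L 0 11 := .inr (by simp [Pt])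
lemma p1 : It L 1 12 := .inr (by simp [Pt])

/-- A number for each item. -/
def idn (v w : ℕ) : ℕ := if w < v then 16 * w + v else 16 * v + w

lemma idn_lt {v w : ℕ} (h : v < 11 ∧ w < 16) : idn v w < 256 := by
  unfold idn
  split_ifs <;> omega

lemma bound (L : Lab) : ∃ B : ℤ, ∀ v w a b, It L v w → It L a b → L.tm a b < L.tm v w + B := by
  refine ⟨1 + 2 * ∑ p ∈ range 11 ×ˢ range 16, |L.tm p.1 p.2|, fun v w a b h1 h2 => ?_⟩
  have e : ∀ v w, It L v w → |L.tm v w| ≤ ∑ p ∈ range 11 ×ˢ range 16, |L.tm p.1 p.2| := fun v w h =>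
    single_le_sum (f := fun p : ℕ × ℕ => |L.tm p.1 p.2|) (fun _ _ => abs_nonneg _)
      (show (v, w) ∈ _ from by simp [h.lt.1, h.lt.2])
  have := abs_le.1 (e v w h1)
  have := abs_le.1 (e a b h2)
  omega

open Classical in
/-- The items whose time is outside `Q` go to the previous colour. -/
noncomputable def Lab.cut (L : Lab) (r : ℝ) (Q : ℤ → Prop) (B : ℤ) : Lab :=
  ⟨L.adj, fun v w => if Q (L.tm v w) then L.col v w else (L.col v w + 9) % 10,
    fun v w => if Q (L.tm v w) then L.tm v w else L.tm v w + B,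
    fun v w => if ¬ Q (L.tm v w) ∧ L.col v w = 0 then L.ps v w + r else L.ps v w⟩

lemma Valid.recut (h : Valid r L) (Q : ℤ → Prop)
    (hQ : ∀ v w z, It L v w → It L v z → L.col v z = (L.col v w + 1) % 10 → Q (L.tm v w) → Q (L.tm v z)) :
    ∃ B, Valid r (L.cut r Q B) := by
  classical
  obtain ⟨B, hB⟩ := bound L
  refine ⟨B, ?_⟩
  have key : ∀ v w z, It L v w → It L v z → Q (L.tm v w) → ¬ Q (L.tm v z) →
      L.col v w ≠ (L.col v z + 9) % 10 := fun v w z a b q1 q2 e => by
    have := h.lt v z b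
    exact q2 (hQ v w z a b (by omega) q1)
  refine ⟨h.r0, h.sym, h.irr, h.e01, h.n02, h.n12, h.e2, h.deg, ?_, ?_, ?_, ?_, ?_, ?_, ?_, ?_, ?_⟩
  · intro v w a
    have := h.lt v w a
    simp only [Lab.cut]
    split_ifs <;> omega
  · intro v w a
    simp only [Lab.cut, h.csym v w a, h.tsym v w a]
  · intro v w a
    simp only [Lab.cut, h.tsym v w a]
  · intro v w a
    simp only [Lab.cut, h.csym v w a, h.tsym v w a, h.psym v w a]
  · intro v w z a b
    have := h.lt v w a
    have := h.lt v z b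
    simp only [Lab.cut]
    split_ifs with q1 q2 q2
    · exact h.prop v w z a b
    · exact fun e => absurd e (key v w z a b q1 q2)
    · exact fun e => absurd e.symm (key v z w b a q2 q1)
    · exact fun e => h.prop v w z a b (by omega)
  · intro v w z a b
    have := h.lt v w a
    have := h.lt v z b
    have := hB v z v w b a
    simp only [Lab.cut]
    split_ifs with q1 q2 q2
    · exact h.arc v w z a b
    · intro e
      have := h.prop v w z a b (by omega)
      subst this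
      contradiction
    · intro _
      assumption
    · intro e
      have := h.arc v w z a b (by omega)
      omega
  · intro v w a b i1 i2
    have := hB v w a b i1 i2
    have := hB a b v w i2 i1
    simp only [Lab.cut]
    split_ifs
    · exact h.inj v w a b i1 i2
    · omega
    · omega
    · exact fun e => h.inj v w a b i1 i2 (by omega)
  · intro v w z a b
    have l1 := h.lt v w a
    have l2 := h.lt v z b
    have s1 := h.step v w z a b
    have s2 := h.step v z w b a
    have p := h.prop v w z a b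
    simp only [Lab.cut]
    intro e
    have ne : L.col v w ≠ L.col v z := fun x => by
      have := p x
      subst this
      omega
    by_cases q1 : Q (L.tm v w) <;> by_cases q2 : Q (L.tm v z) <;>
      by_cases z1 : L.col v w = 0 <;> by_cases z2 : L.col v z = 0 <;>
      simp only [q1, q2, z1, z2, if_true, if_false, not_true, not_false_iff,
        and_true, and_false] at e ⊢ <;>
      first
        | omega
        | exact s1 (by omega)
        | (have := s2 (by omega); constructor <;> linarith)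
  · intro c
    have e : ∀ v w, ∃ k : ℤ, (L.cut r Q B).ps v w = L.ps v w + k * r := fun v w => by
      simp only [Lab.cut]
      split_ifs
      · exact ⟨1, by simp⟩
      · exact ⟨0, by simp⟩
    obtain ⟨a, ha⟩ := e 1 13
    obtain ⟨b, hb⟩ := e 0 15
    obtain ⟨d, hd⟩ := e 2 14
    rw [ha, hb, hd] at c
    exact h.ncon (c.shift a b d)

/-- Renamings that respect the ports. -/
structure Aut (g : Equiv.Perm ℕ) : Prop where
  lt : ∀ v, g v < 11 ↔ v < 11
  ge : ∀ v, 3 ≤ g v ↔ 3 ≤ v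
  pt : ∀ v w, Pt (g v) (g w) ↔ Pt v w
  two : g 2 = 2 ∧ g 14 = 14
  z : (g 0 = 0 ∧ g 1 = 1 ∧ g 11 = 11 ∧ g 12 = 12 ∧ g 13 = 13 ∧ g 15 = 15) ∨
    (g 0 = 1 ∧ g 1 = 0 ∧ g 11 = 12 ∧ g 12 = 11 ∧ g 13 = 15 ∧ g 15 = 13)

/-- The labelling read through a renaming. -/
def Lab.act (L : Lab) (g : Equiv.Perm ℕ) : Lab :=
  ⟨fun v w => L.adj (g v) (g w), fun v w => L.col (g v) (g w), fun v w => L.tm (g v) (g w),
    fun v w => L.ps (g v) (g w)⟩

variable {g : Equiv.Perm ℕ}

lemma Aut.ed (h : Aut g) {v w : ℕ} : Ed (L.act g) v w ↔ Ed L (g v) (g w) := by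
  simp only [Ed, h.lt, Lab.act]

lemma Aut.it (h : Aut g) {v w : ℕ} : It (L.act g) v w ↔ It L (g v) (g w) := by
  simp only [It, h.ed, h.pt]

lemma Valid.act (h : Valid r L) (hg : Aut g) : Valid r (L.act g) := by
  obtain ⟨t, t'⟩ := hg.two
  refine ⟨h.r0, ?_, ?_, ?_, ?_, ?_, ?_, ?_, ?_, ?_, ?_, ?_, ?_, ?_, ?_, ?_, ?_⟩ <;>
    try simp only [hg.ed, hg.it]
  · exact fun v w => h.sym _ _
  · exact fun v => h.irr _
  · rcases hg.z with x | x <;> rw [x.1, x.2.1]
    exacts [h.e01, h.sym _ _ h.e01]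
  · rcases hg.z with x | x <;> rw [x.1, t]
    exacts [h.n02, h.n12]
  · rcases hg.z with x | x <;> rw [x.2.1, t]
    exacts [h.n12, h.n02]
  · rw [t]
    exact fun v a b => h.e2 _ ((hg.ge v).2 a) ((hg.lt v).2 b)
  · intro v a
    rw [← h.deg (g v) ((hg.lt v).2 a)]
    exact card_bijective g g.bijective fun w => by rw [mem_its, mem_its, hg.it]
  · exact fun v w a => h.lt _ _ a
  · exact fun v w a => h.csym _ _ a
  · exact fun v w a => h.tsym _ _ a
  · exact fun v w a => h.psym _ _ a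
  · exact fun v w z a b e => g.injective (h.prop _ _ _ a b e)
  · exact fun v w z a b e => h.arc _ _ _ a b e
  · intro v w a b i1 i2 e
    rcases h.inj _ _ _ _ i1 i2 e with ⟨x, y⟩ | ⟨x, y, z⟩
    · exact .inl ⟨g.injective x, g.injective y⟩
    · exact .inr ⟨g.injective x, g.injective y, z⟩
  · exact fun v w z a b e => h.step _ _ _ a b e
  · simp only [Lab.act, t, t']
    rcases hg.z with x | x <;> rw [x.1, x.2.1, x.2.2.2.2.1, x.2.2.2.2.2]
    exacts [h.ncon, fun c => h.ncon c.symm]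

end Pool.Agent.P.MP_3f5ded_co.UG.N9
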