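import Pool.Agent.P.MP_3f5ded_co.B9Cnt

set_option autoImplicit false

namespace Pool.Agent.P.MP_3f5ded_co.UG.N9

open Finset

variable {r : ℝ} {L : Lab} {g : Equiv.Perm ℕ}

/-- The item `v w` has a neighbour of the previous colour. -/
def Pre (L : Lab) (v w : ℕ) : Prop :=
  ¬ Ms L v ((L.col v w + 9) % 10) ∨ (Ed L v w ∧ ¬ Ms L w ((L.col v w + 9) % 10))

/-- The capped ports have the colour zero, all other items have been moved back as far as possible. -/
structure Pull (L : Lab) : Prop where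
  z0 : L.col 0 11 = 0
  z1 : L.col 1 12 = 0
  pre : ∀ v w, It L v w → w ≠ 11 → w ≠ 12 → Pre L v w

/-- A height that drops when an item is moved back. -/
def ht (r : ℝ) (L : Lab) (v w : ℕ) : ℝ := L.col v w * r - 10 * L.ps v w

lemma Valid.ht1 (h : Valid r L) {v w z : ℕ} (a : It L v w) (b : It L v z) :
    ht r L v w - 10 * r ≤ ht r L v z := by
  have r0 := h.r0
  unfold ht
  rcases lt_trichotomy (L.col v w) (L.col v z) with x | x | x
  · have := (h.step v w z a b x).2
    have : (L.col v w : ℝ) ≤ L.col v z := by exact_mod_cast x.le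
    nlinarith
  · rw [h.prop v w z a b x]
    linarith
  · have := (h.step v z w b a x).1
    have : (L.col v w : ℝ) ≤ 10 := by exact_mod_cast (h.lt v w a).le
    have : (0 : ℝ) ≤ L.col v z := Nat.cast_nonneg _
    nlinarith

lemma Valid.ht2 (h : Valid r L) {v w : ℕ} {x : ℝ} (e : Ed L v w) (a : ∀ z, It L v z → x ≤ ht r L v z) :
    ∀ z, It L w z → x - 10 * r ≤ ht r L w z := fun z b => by
  have := h.ht1 (h.sym _ _ e).it b
  have := a w e.it
  unfold ht at *
  rw [h.csym _ _ e, h.psym _ _ e] at this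
  linarith

lemma Valid.ht3 (h : Valid r L) {v w : ℕ} (a : It L v w) : ht r L 0 11 - 40 * r ≤ ht r L v w := by
  have r0 := h.r0
  have a0 : ∀ z, It L 0 z → ht r L 0 11 - 10 * r ≤ ht r L 0 z := fun z => h.ht1 p0
  obtain ⟨u, u3, e⟩ : ∃ u, 3 ≤ u ∧ Ed L 0 u := by
    by_contra n
    exact h.nf4 (v := 0) (a := 3) (b := 4) (c := 5) (by omega) (by omega) (by omega) (by omega) (by omega)
      (fun e => n ⟨3, by omega, e⟩) (fun e => n ⟨4, by omega, e⟩) fun e => n ⟨5, by omega, e⟩
  have a2 := h.ht2 (h.sym _ _ (h.e2 u u3 e.2.1)) (h.ht2 e a0)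
  obtain rfl | rfl | rfl | x : v = 0 ∨ v = 1 ∨ v = 2 ∨ 3 ≤ v := by omega
  · linarith [a0 w a]
  · linarith [h.ht2 h.e01 a0 w a]
  · linarith [a2 w a]
  · linarith [h.ht2 (h.e2 v x a.lt.1) a2 w a]

open Classical in
/-- The potential. -/
noncomputable def pot (r : ℝ) (L : Lab) : ℝ :=
  ∑ p ∈ range 11 ×ˢ range 16 with It L p.1 p.2, (ht r L p.1 p.2 - (ht r L 0 11 - 40 * r))

lemma Valid.pull (n : ℕ) : ∀ L, Valid r L → L.col 0 11 = 0 → L.col 1 12 = 0 → pot r L < n →
    ∃ L', Valid r L' ∧ Pull L' := by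
  classical
  induction n with
  | zero =>
    intro L h _ _ p
    exact absurd p (not_lt.2 (by
      rw [Nat.cast_zero]
      exact sum_nonneg fun p x => sub_nonneg.2 (h.ht3 (mem_filter.1 x).2)))
  | succ n ih =>
    intro L h z0 z1 p
    by_cases x : ∀ v w, It L v w → w ≠ 11 → w ≠ 12 → Pre L v w
    · exact ⟨L, h, z0, z1, x⟩
    simp only [not_forall, Pre, not_or, not_not, not_and] at x
    obtain ⟨v, w, i, n1, n2, m, m'⟩ := x
    obtain ⟨B, h'⟩ := h.recut (· ≠ L.tm v w) fun a b c x y e q t => by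
      have := h.lt a b x
      rcases h.inj _ _ _ _ i y t.symm with ⟨rfl, rfl⟩ | ⟨rfl, rfl, u⟩
      · exact m b x (by omega)
      · exact m' u b x (by rw [h.csym _ _ u]; omega)
    have k : ∀ a b, Pt a b → b ≤ 12 → L.tm a b ≠ L.tm v w := fun a b x y t => by
      rcases h.inj _ _ _ _ i x.it t.symm with ⟨-, rfl⟩ | ⟨-, rfl, u⟩
      · unfold Pt at x
        omega
      · have := u.1
        unfold Pt at x
        omega
    have k0 := k 0 11 (by simp [Pt]) (by omega)
    have e : ∀ a b, It L a b → ht r (L.cut r (· ≠ L.tm v w) B) a b =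
        ht r L a b - if L.tm a b = L.tm v w then r else 0 := fun a b x => by
      have := h.lt a b x
      simp only [ht, Lab.cut]
      by_cases t : L.tm a b = L.tm v w
      · by_cases c : L.col a b = 0
        · simp [t, c]
          ring
        · obtain ⟨d, hd⟩ : ∃ d, L.col a b = d + 1 := ⟨L.col a b - 1, by omega⟩
          simp [t, hd, show (d + 1 + 9) % 10 = d by omega]
          ring
      · simp [t]
    refine ih _ h' ((if_pos k0).trans z0) ((if_pos (k 1 12 (by simp [Pt]) le_rfl)).trans z1) ?_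
    have r0 := h.r0
    have : pot r (L.cut r (· ≠ L.tm v w) B) = pot r L -
        ∑ p ∈ range 11 ×ˢ range 16 with It L p.1 p.2, if L.tm p.1 p.2 = L.tm v w then r else 0 := by
      rw [pot, pot, ← sum_sub_distrib]
      refine sum_congr rfl fun p x => ?_
      rw [e _ _ (mem_filter.1 x).2, e _ _ p0, if_neg k0]
      ring
    have := single_le_sum (s := (range 11 ×ˢ range 16).filter fun p => It L p.1 p.2)
      (f := fun p : ℕ × ℕ => if L.tm p.1 p.2 = L.tm v w then r else 0)
      (fun p _ => by split_ifs <;> linarith) (a := (v, w)) (by simp [i, i.lt.1, i.lt.2])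
    simp only [if_true] at this
    push_cast at p
    linarith

lemma Aut.ms (hg : Aut g) {v c : ℕ} : Ms (L.act g) v c ↔ Ms L (g v) c := by
  simp only [Ms, hg.it]
  exact ⟨fun x w => by simpa [Lab.act] using x (g.symm w), fun x w => x (g w)⟩

lemma Pull.act (p : Pull L) (hg : Aut g) : Pull (L.act g) := by
  refine ⟨?_, ?_, fun v w i a b => ?_⟩
  · rcases hg.z with x | x <;> simp only [Lab.act, x.1, x.2.2.1, p.z0, p.z1]
  · rcases hg.z with x | x <;> simp only [Lab.act, x.2.1, x.2.2.2.1, p.z0, p.z1]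
  · have k : ∀ u, g w = g u → w = u := fun u => (g.injective ·)
    have := p.pre _ _ (hg.it.1 i) (fun e => by
      rcases hg.z with x | x
      exacts [a (k _ (e.trans x.2.2.1.symm)), b (k _ (e.trans x.2.2.2.1.symm))]) fun e => by
      rcases hg.z with x | x
      exacts [b (k _ (e.trans x.2.2.2.1.symm)), a (k _ (e.trans x.2.2.1.symm))]
    simp only [Pre, hg.ms, hg.ed]
    exact this

/-- The first capped port comes first. -/
def Fst (L : Lab) : Prop := ∀ v w, It L v w → L.tm 0 11 ≤ L.tm v w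

/-- The exchange of the vertices `0` and `1`. -/
def sw : Equiv.Perm ℕ := Equiv.swap 0 1 * Equiv.swap 11 12 * Equiv.swap 13 15

lemma aut_sw : Aut sw := by
  have e : ∀ v, (v = 0 ∧ sw v = 1) ∨ (v = 1 ∧ sw v = 0) ∨ (v = 11 ∧ sw v = 12) ∨ (v = 12 ∧ sw v = 11) ∨
      (v = 13 ∧ sw v = 15) ∨ (v = 15 ∧ sw v = 13) ∨ (sw v = v ∧ 2 ≤ v ∧ (v < 11 ∨ v = 14 ∨ 16 ≤ v)) := fun v => by
    by_cases x : v < 16
    · interval_cases v <;> decide
    · have k : ∀ a b, a < 16 → b < 16 → Equiv.swap a b v = v := fun a b _ _ =>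
        Equiv.swap_apply_of_ne_of_ne (by omega) (by omega)
      have : sw v = v := by simp (disch := omega) only [sw, Equiv.Perm.mul_apply, k]
      omega
  exact ⟨fun v => by have := e v; omega, fun v => by have := e v; omega,
    fun v w => by have := e v; have := e w; unfold Pt; omega, by decide, .inr (by decide)⟩

lemma Valid.fst (h : Valid r L) (p : Pull L) : ∃ L', Valid r L' ∧ Pull L' ∧ Fst L' := by
  classical
  obtain ⟨⟨a, b⟩, x, y⟩ := exists_min_image ((range 11 ×ˢ range 16).filter fun p => It L p.1 p.2)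
    (fun p => L.tm p.1 p.2) ⟨(0, 11), by simp [p0]⟩
  have x : It L a b := (mem_filter.1 x).2
  have y : ∀ v w, It L v w → L.tm a b ≤ L.tm v w := fun v w i => y (v, w) (by simp [i, i.lt.1, i.lt.2])
  have k : ∀ v w, It L v w → L.tm v w = L.tm a b → Ms L v ((L.col v w + 9) % 10) := fun v w i e z j c => by
    have := h.lt v w i
    have := h.arc v z w j i (by omega)
    have := y v z j
    omega
  have q : ∀ c, 11 ≤ b → b ≤ 12 → b = 11 + c → a = c := fun c u v w => by
    have := x.resolve_left fun e => absurd e.2.1 (by omega)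
    unfold Pt at this
    omega
  by_cases b1 : b = 11
  · obtain rfl := q 0 (by omega) (by omega) b1
    subst b1
    exact ⟨L, h, p, y⟩
  by_cases b2 : b = 12
  · obtain rfl := q 1 (by omega) (by omega) b2
    subst b2
    exact ⟨_, h.act aut_sw, p.act aut_sw, fun v w i => y _ _ (aut_sw.it.1 i)⟩
  rcases p.pre a b x b1 b2 with m | ⟨e, m⟩
  · exact absurd (k a b x rfl) m
  · exact absurd (h.csym _ _ e ▸ k b a (h.sym _ _ e).it (h.tsym _ _ e).symm) m

lemma Aut.T0 (hg : Aut g) : T0 (L.act g) = T0 L := by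
  ext t
  simp only [mem_T0, hg.it]
  exact ⟨fun ⟨v, w, x⟩ => ⟨g v, g w, x⟩, fun ⟨v, w, x⟩ => ⟨g.symm v, g.symm w, by simpa [Lab.act] using x⟩⟩

end Pool.Agent.P.MP_3f5ded_co.UG.N9
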