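import Pool.Agent.P.MP_3f5ded_co.B9Srt
import Pool.Agent.P.MP_3f5ded_co.B9Chk
import Pool.Agent.P.MP_3f5ded_co.GRup

set_option autoImplicit false

namespace Pool.Agent.P.MP_3f5ded_co.UG.N9

open Finset RRup

/-- The colour of a port. -/
def pc (L : Lab) (p : ℕ) : ℕ := L.col (ow p) (11 + p)

/-- The position of a port. -/
def px (L : Lab) (p : ℕ) : ℝ := L.ps (ow p) (11 + p)

/-- A walk from the port `o` to the item of `v` of lifted colour `c` that loses at most `a`. -/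
def Rs (r : ℝ) (L : Lab) (o a c v : ℕ) : Prop := ∃ w q : ℕ, It L v w ∧ c = L.col v w + 10 * q ∧
  px L o + c ≤ L.ps v w + q * r + pc L o + a

/-- The port `p` is at least `l` after the port `o`. -/
def Ks (r : ℝ) (L : Lab) (o p l a : ℕ) : Prop := ∃ q : ℕ,
  pc L o + l + a = pc L p + 10 * q ∧ px L o + l ≤ px L p + q * r

/-- Meaning of the atoms. -/
def Wk (r : ℝ) (L : Lab) : ℕ → ℕ → ℕ → ℕ → ℕ → Prop
  | 1, _, b, c, d => Ed L b c ∧ L.col b c = d
  | 2, _, _, c, d => Ms L c d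
  | 3, _, _, c, d => pc L c = d
  | 4, a, _, c, d => Ls L a c d
  | 5, a, _, c, d => Tok L (cj L a) c d
  | 6, a, _, c, d => 2 * c + 1 ≤ ntok L (cj L a) d
  | 7, a, _, c, _ => Ls L a c 0 ∧ ¬ Ls L (a + 1) c 0
  | 8, a, b, c, d => Rs r L a (b / 8) (16 * (b % 8) + c) d
  | 9, a, b, c, d => Ks r L a b c d
  | 10, _, _, c, d => ¬ Ed L c d
  | 11, _, _, c, d => Ps L c d
  | _, _, _, _, _ => True

def W (r : ℝ) (L : Lab) (x : ℕ) : Prop :=
  Wk r L (x / 32768) (x / 4096 % 8) (x / 256 % 16) (x / 16 % 16) (x % 16)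

variable {r : ℝ} {L : Lab}

lemma W_zero : W r L 0 := trivial

lemma W_cd {k a b c d : ℕ} (ha : a < 8) (hb : b < 16) (hc : c < 16) (hd : d < 16) :
    W r L (cd k a b c d) = Wk r L k a b c d := by
  have e : cd k a b c d = (((k * 8 + a) * 16 + b) * 16 + c) * 16 + d := rfl
  unfold W
  congr 1 <;> omega

/-- The edge `v w` has the colour `c`. -/
def Xs (L : Lab) (v w c : ℕ) : Prop := Ed L v w ∧ L.col v w = c

lemma Xs.symm (h : Valid r L) {v w c : ℕ} (x : Xs L v w c) : Xs L w v c :=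
  ⟨h.sym _ _ x.1, h.csym _ _ x.1 ▸ x.2⟩

lemma wX (h : Valid r L) {v w c : ℕ} (hv : v < 16) (hw : w < 16) (hc : c < 16) :
    W r L (aX v w c) ↔ Xs L v w c := by
  change W r L (cd 1 0 (v - (v - w)) (w + (v - w)) c) ↔ _
  rw [W_cd (by omega) (by omega) (by omega) hc]
  rcases le_total v w with x | x
  · rw [show v - (v - w) = v by omega, show w + (v - w) = w by omega]
    rfl
  · rw [show v - (v - w) = w by omega, show w + (v - w) = v by omega]
    exact ⟨Xs.symm h, Xs.symm h⟩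

lemma wN (h : Valid r L) {v w : ℕ} (hv : v < 16) (hw : w < 16) : W r L (aN v w) ↔ ¬ Ed L v w := by
  change W r L (cd 10 0 0 (v - (v - w)) (w + (v - w))) ↔ _
  rw [W_cd (by omega) (by omega) (by omega) (by omega)]
  rcases le_total v w with x | x
  · rw [show v - (v - w) = v by omega, show w + (v - w) = w by omega]
    rfl
  · rw [show v - (v - w) = w by omega, show w + (v - w) = v by omega]
    exact not_congr ⟨h.sym _ _, h.sym _ _⟩

lemma wM {v c : ℕ} (hv : v < 16) (hc : c < 16) : W r L (aM v c) = Ms L v c :=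
  W_cd (by norm_num) (by norm_num) hv hc

lemma wP {v c : ℕ} (hv : v < 16) (hc : c < 16) : W r L (aP v c) = (pc L v = c) :=
  W_cd (by norm_num) (by norm_num) hv hc

lemma wT {v c : ℕ} (hv : v < 16) (hc : c < 16) : W r L (aT v c) = Ps L v c :=
  W_cd (by norm_num) (by norm_num) hv hc

lemma wL {j v c : ℕ} (hj : j < 8) (hv : v < 16) (hc : c < 16) : W r L (aL j v c) = Ls L j v c :=
  W_cd hj (by norm_num) hv hc

lemma wU {j v c : ℕ} (hj : j < 8) (hv : v < 16) (hc : c < 16) : W r L (aU j v c) = Tok L (cj L j) v c :=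
  W_cd hj (by norm_num) hv hc

lemma wD {j v c : ℕ} (hj : j < 8) (hv : v < 16) (hc : c < 16) :
    W r L (aD j v c) = (2 * v + 1 ≤ ntok L (cj L j) c) :=
  W_cd hj (by norm_num) hv hc

lemma wE {j v : ℕ} (hj : j < 8) (hv : v < 16) : W r L (aE j v) = (Ls L j v 0 ∧ ¬ Ls L (j + 1) v 0) :=
  W_cd hj (by norm_num) hv (by norm_num)

lemma wR {o a c v : ℕ} (ho : o < 8) (ha : a < 2) (hc : c < 32) (hv : v < 16) :
    W r L (aR o a c v) = Rs r L o a c v := by
  change W r L (cd 8 o (8 * a + c / 16) (c % 16) v) = _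
  rw [W_cd ho (by omega) (by omega) hv]
  change Rs r L o _ _ v = _
  congr 1 <;> omega

lemma wK {o p l a : ℕ} (ho : o < 8) (hp : p < 16) (hl : l < 16) (ha : a < 16) :
    W r L (aK o p l a) = Ks r L o p l a :=
  W_cd ho hp hl ha

/-- Some literal of the list holds. -/
def Sat (r : ℝ) (L : Lab) (l : List ℕ) : Prop := ∃ x ∈ l, Tr (W r L) x

lemma sat_nil : Sat r L [] ↔ False := by simp [Sat]

lemma sat_pos {x : ℕ} {l : List ℕ} : Sat r L (pos x :: l) ↔ W r L x ∨ Sat r L l := by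
  rw [← Tr_even (P := W r L)]
  exact List.exists_mem_cons_iff _ _ _

lemma sat_neg {x : ℕ} {l : List ℕ} : Sat r L (neg x :: l) ↔ ¬ W r L x ∨ Sat r L l := by
  rw [← Tr_odd (P := W r L)]
  exact List.exists_mem_cons_iff _ _ _

lemma sat_app {k l : List ℕ} : Sat r L (k ++ l) ↔ Sat r L k ∨ Sat r L l := by
  simp only [Sat, List.mem_append, or_and_right, exists_or]

lemma sat_mapP {l : List ℕ} {f : ℕ → ℕ} : Sat r L (l.map fun x => pos (f x)) ↔ ∃ x ∈ l, W r L (f x) := by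
  induction l with
  | nil => simp [Sat]
  | cons a l ih => rw [List.map_cons, sat_pos, ih, List.exists_mem_cons_iff]

lemma sat_mapN {l : List ℕ} {f : ℕ → ℕ} :
    Sat r L (l.map fun x => neg (f x)) ↔ ¬ ∀ x ∈ l, W r L (f x) := by
  induction l with
  | nil => simp [Sat]
  | cons a l ih => rw [List.map_cons, sat_neg, ih, List.forall_mem_cons, not_and_or]

lemma sat_flat {l : List ℕ} {f : ℕ → List ℕ} : Sat r L (l.flatMap f) ↔ ∃ x ∈ l, Sat r L (f x) := by
  induction l with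
  | nil => simp [Sat]
  | cons a l ih => rw [List.flatMap_cons, sat_app, ih, List.exists_mem_cons_iff]

lemma sat_cond {b : Bool} {k l : List ℕ} :
    Sat r L (cond b k l) ↔ (b = true ∧ Sat r L k) ∨ (¬ b = true ∧ Sat r L l) := by
  cases b <;> simp

lemma m11 {x : ℕ} : x ∈ r11 ↔ x < 11 := by
  simp only [r11, List.mem_cons, List.not_mem_nil, or_false]
  omega

lemma m10 {x : ℕ} : x ∈ r10 ↔ x < 10 := by
  simp only [r10, List.mem_cons, List.not_mem_nil, or_false]
  omega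

lemma m5 {x : ℕ} : x ∈ r5 ↔ x < 5 := by
  simp only [r5, List.mem_cons, List.not_mem_nil, or_false]
  omega

lemma nx_eq (c : ℕ) : nx c = (c + 1) % 10 := rfl

lemma pv_eq (c : ℕ) : pv c = (c + 9) % 10 := rfl

lemma pt_ow {p : ℕ} (h : p < 5) : Pt (ow p) (11 + p) := by
  interval_cases p <;> simp [Pt, ow]

lemma ow_lt {p : ℕ} (h : p < 5) : ow p < 3 := by
  have := pt_ow h
  unfold Pt at this
  omega

lemma Pt.ow {v w : ℕ} (h : Pt v w) : ∃ p < 5, ow p = v ∧ w = 11 + p := by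
  rcases h with ⟨rfl, rfl | rfl⟩ | ⟨rfl, rfl | rfl⟩ | ⟨rfl, rfl⟩
  exacts [⟨0, by decide⟩, ⟨4, by decide⟩, ⟨1, by decide⟩, ⟨2, by decide⟩, ⟨3, by decide⟩]

lemma Valid.eb (h : Valid r L) {v w : ℕ} (e : Ed L v w) : eb v w = true := by
  have : ∀ v < 11, ∀ w < 11, v = w ∨ (v = 2 ∧ w < 2) ∨ (w = 2 ∧ v < 2) ∨ N9.eb v w = true := by decide
  have k : ∀ v < 2, ¬ Ed L v 2 := fun v x => by
    interval_cases v
    exacts [h.n02, h.n12]
  rcases this v e.1 w e.2.1 with x | ⟨rfl, x⟩ | ⟨rfl, x⟩ | x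
  exacts [absurd x (h.ne e), absurd (h.sym _ _ e) (k w x), absurd e (k v x), x]

lemma sat_pP {v c : ℕ} (hc : c < 16) : Sat r L (pP v c) ↔ Ps L v c := by
  rw [pP, sat_cond, Nat.ble_eq, sat_nil, sat_pos, sat_nil]
  constructor
  · rintro (⟨a, b | b⟩ | b)
    · rwa [wT (by omega) hc] at b
    · exact b.elim
    · exact b.2.elim
  · intro a
    have : v ≤ 2 := by
      obtain ⟨w, x, -⟩ := a
      unfold Pt at x
      omega
    exact .inl ⟨this, .inl (by rwa [wT (by omega) hc])⟩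

lemma sat_eb (h : Valid r L) {v w c : ℕ} (hc : c < 16) (x : Xs L v w c) :
    Sat r L (cond (eb v w) [pos (aX v w c)] []) :=
  sat_cond.2 (.inl ⟨h.eb x.1, sat_pos.2 (.inl ((wX h (x.1.1.trans (by omega)) x.1.it.lt.2 hc).2 x))⟩)

lemma NF.pos (n : NF r L) {v w : ℕ} (i : It L v w) : 1 ≤ lvl L (L.tm v w) :=
  lvl_pos (n.fst v w i) (mem_T0.2 ⟨0, 11, p0, n.pull.z0, rfl⟩)

lemma NF.one (n : NF r L) {v c : ℕ} : Ls L 1 v c ↔ ¬ Ms L v c :=
  ⟨fun ⟨w, a, b, _⟩ m => m w a b, fun m => (ms_not m).imp fun _ a => ⟨a.1, a.2, n.pos a.1⟩⟩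

lemma sat_pL (n : NF r L) {j v c : ℕ} (hv : v < 16) (hc : c < 16) : Sat r L (pL j v c) ↔ Ls L j v c := by
  simp only [pL, sat_cond, Nat.ble_eq, Nat.beq_eq, sat_nil, sat_pos, sat_neg, wM hv hc, or_false, and_false,
    false_or]
  by_cases a : j = 1
  · simp [a, n.one]
  · by_cases b : 8 ≤ j
    · refine iff_of_false (by simp [a, b]) fun ⟨w, _, _, x⟩ => ?_
      have := x.trans ((lvl_le _).trans n.val.card7)
      omega
    · simp [a, b, wL (by omega : j < 8) hv hc]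

lemma sat_nL (n : NF r L) {j v c : ℕ} (hj : j < 8) (hv : v < 16) (hc : c < 16) :
    Sat r L (nL j v c) ↔ ¬ Ls L j v c := by
  simp only [nL, sat_cond, Nat.beq_eq, sat_nil, sat_pos, sat_neg, wM hv hc, wL hj hv hc, or_false]
  by_cases a : j = 1 <;> simp [a, n.one]

lemma Ls.uniq (h : Valid r L) {j v c w : ℕ} (l : Ls L j v c) (i : It L v w) (e : L.col v w = c) :
    j ≤ lvl L (L.tm v w) := by
  obtain ⟨z, a, b, d⟩ := l
  rwa [h.prop v w z i a (e.trans b.symm)]

lemma Ls.lt (h : Valid r L) {j v c w : ℕ} (l : Ls L j v c) (i : It L v w) (e : L.col v w = (c + 1) % 10) :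
    ∃ t, j ≤ lvl L t ∧ t < L.tm v w := by
  obtain ⟨z, a, b, d⟩ := l
  exact ⟨_, d, h.arc v z w a i (b ▸ e)⟩

lemma Ls.up (h : Valid r L) {j v c w : ℕ} (l : Ls L j v c) (i : It L v w) (e : L.col v w = (c + 1) % 10) :
    j ≤ lvl L (L.tm v w) := by
  obtain ⟨t, a, b⟩ := l.lt h i e
  exact a.trans (lvl_mono b.le)

lemma wG (h : Valid r L) {j v w : ℕ} (hj : j < 8) (hv : v < 16) (x : W r L (aG j v)) (i : It L v w)
    (c : L.col v w = 0) : lv L v w = j := by
  by_cases a : 7 ≤ j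
  · rw [aG, Nat.ble_eq.mpr a, cond_true, wL (by omega) hv (by omega)] at x
    have := (x.uniq h i c).antisymm' ((lvl_le _).trans h.card7)
    unfold lv
    omega
  · rw [aG, Bool.eq_false_iff.2 (mt Nat.ble_eq.mp a), cond_false, wE hj hv] at x
    exact (x.1.uniq h i c).antisymm' (not_lt.1 fun y => x.2 ⟨w, i, c, y⟩)

lemma ex_of (h : Valid r L) {j v w : ℕ} (i : It L v w) (c : L.col v w = 0) (e : lv L v w = j) :
    Ls L j v 0 ∧ ¬ Ls L (j + 1) v 0 :=
  ⟨⟨w, i, c, e.ge⟩, fun x => absurd ((x.uniq h i c).trans_eq e) (by omega)⟩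

/-- An edge of colour `c` in a cut. -/
lemma Valid.cj_eq (h : Valid r L) {j v w c : ℕ} (i : It L v w) (e : cj L j v w = c) :
    (j ≤ lvl L (L.tm v w) ∧ L.col v w = c) ∨ (¬ j ≤ lvl L (L.tm v w) ∧ L.col v w = (c + 1) % 10) := by
  have := h.lt v w i
  unfold cj at e
  split_ifs at e with x
  · exact .inl ⟨x, e⟩
  · exact .inr ⟨x, by omega⟩

lemma Valid.budget (h : Valid r L) (j : ℕ) (f : ℕ → ℕ)
    (hf : ∀ c < 10, 1 ≤ f c → 2 * f c + 1 ≤ ntok L (cj L j) c) : (r10.map f).sum ≤ 3 := by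
  obtain ⟨o, t⟩ := h.cut j
  have e : ∀ c < 10, 2 * f c + 1 ≤ ntok L (cj L j) c := fun c hc => by
    have := hf c hc
    have := o c
    omega
  have := e 0 (by omega)
  have := e 1 (by omega)
  have := e 2 (by omega)
  have := e 3 (by omega)
  have := e 4 (by omega)
  have := e 5 (by omega)
  have := e 6 (by omega)
  have := e 7 (by omega)
  have := e 8 (by omega)
  have := e 9 (by omega)
  simp only [sum_range_succ, sum_range_zero] at t
  simp only [r10, List.map, List.sum_cons, List.sum_nil]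
  omega

lemma Rs.step (h : Valid r L) {o a c v z d : ℕ} (R : Rs r L o a c v) (i : It L v z) (d0 : 0 < d)
    (d9 : d < 10) (e : L.col v z = (c + d) % 10) : Rs r L o (a + (d - 1)) (c + d) v := by
  obtain ⟨w, q, x, y, p⟩ := R
  have := h.lt v w x
  obtain ⟨d, rfl⟩ : ∃ k, d = k + 1 := ⟨d - 1, by omega⟩
  by_cases k : L.col v w + (d + 1) < 10
  · refine ⟨z, q, i, by omega, ?_⟩
    have := (h.step v w z x i (by omega)).1
    push_cast
    linarith
  · refine ⟨z, q + 1, i, by omega, ?_⟩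
    have := (h.step v z w i x (by omega)).2
    push_cast
    linarith

lemma Key.cls {κ μ : ℕ → ℕ} (k : Key L κ μ) (h : Valid r L) {v : ℕ} (a : 3 ≤ v) (b : v < 11) :
    (Ms L v 0 ∧ κ v = 3 + L.col 2 v ∧ κ v < 13) ∨ (Xs L 2 v 0 ∧ κ v = 13) ∨
      ∃ w, Xs L v w 0 ∧ κ v = 14 + lvl L (L.tm v w) := by
  have e := h.e2 v a b
  have c := h.csym _ _ e
  by_cases m : Ms L v 0
  · have := h.lt _ _ e.it
    have := k.tok v a b m
    exact .inl ⟨m, by omega, by omega⟩
  obtain ⟨w, i, x⟩ := ms_not m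
  by_cases y : w = 2
  · exact .inr (.inl ⟨⟨e, c.trans (y ▸ x)⟩, k.two v a b (y ▸ x)⟩)
  · exact .inr (.inr ⟨w, ⟨i.ed (.inl a), x⟩, k.gen v w a (i.ed (.inl a)) y x⟩)

/-- What is known at the stage `s`. -/
structure V (r : ℝ) (s : ℕ) (L : Lab) : Prop where
  nf : NF r L
  cur : ∀ x ∈ cb s, W r L x
  old : ∀ t < s, ¬ ∀ x ∈ cb t, W r L x

/-- A list without zero is satisfied. -/
def G (r : ℝ) (L : Lab) (l : List ℕ) : Prop := 0 ∉ l → Sat r L l

lemma G.gd {b : Bool} {l : List ℕ} (h : b = true → G r L l) : G r L (gd b l) := by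
  cases b
  · exact fun x => absurd (List.mem_singleton.2 rfl) x
  · exact h rfl

lemma G.of {l : List ℕ} (h : Sat r L l) : G r L l := fun _ => h

lemma cmp_ok (l : List ℕ) : ∀ n d, cmp l n d = 0 → 0 ∉ l ∧ ∀ x ∈ l, MemD x n d := by
  induction l with
  | nil => simp
  | cons x l ih =>
    intro n d h
    cases n with
    | zero => exact absurd h one_ne_zero
    | succ n =>
      change Nat.rec (motive := fun _ => ℕ) 1 (fun y _ => cond (Nat.beq (y + 1) x)
        (cmp l n (d / 1048576)) 1) (d % 1048576) = 0 at h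
      cases e : d % 1048576 with
      | zero =>
        rw [e] at h
        exact absurd h one_ne_zero
      | succ y =>
        rw [e] at h
        change cond (Nat.beq (y + 1) x) _ 1 = 0 at h
        cases b : Nat.beq (y + 1) x
        · rw [b] at h
          exact absurd h one_ne_zero
        · rw [b] at h
          have b := Nat.eq_of_beq_eq_true b
          obtain ⟨p, q⟩ := ih n _ h
          refine ⟨by simp [p]; omega, fun z hz => ⟨by omega, ?_⟩⟩
          rcases List.mem_cons.1 hz with rfl | hz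
          · exact .inl (e.trans b)
          · exact .inr (q z hz)

lemma fr_eq (x : ℕ) (f : ℕ → ℕ) : fr x f = f x := by cases x <;> rfl

end Pool.Agent.P.MP_3f5ded_co.UG.N9
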