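import Pool.Agent.P.MP_3f5ded_co.B9Can

set_option autoImplicit false

namespace Pool.Agent.P.MP_3f5ded_co.UG.N9

open Finset

variable {r : ℝ} {L : Lab} {g : Equiv.Perm ℕ}

/-- Keys for the order of the vertices. -/
structure Key (L : Lab) (κ μ : ℕ → ℕ) : Prop where
  lo : ∀ v < 3, κ v < 3
  tok : ∀ v, 3 ≤ v → v < 11 → Ms L v 0 → κ v = 3 + L.col v 2
  two : ∀ v, 3 ≤ v → v < 11 → L.col v 2 = 0 → κ v = 13
  gen : ∀ v w, 3 ≤ v → Ed L v w → w ≠ 2 → L.col v w = 0 → κ v = 14 + lvl L (L.tm v w)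
  ed : ∀ v w, Ed L v w → L.col v w = 9 → μ v = κ w
  ms : ∀ v, 3 ≤ v → v < 11 → Ms L v 9 → μ v = 99
  le : ∀ v, κ v ≤ 21 ∧ μ v ≤ 99

lemma Valid.key (h : Valid r L) : ∃ κ μ, Key L κ μ ∧ ∀ v < 3, κ v = v := by
  have a : ∀ v, ∃ k, k ≤ 21 ∧ (v < 3 → k = v) ∧ (3 ≤ v → v < 11 → (Ms L v 0 → k = 3 + L.col v 2) ∧
      (L.col v 2 = 0 → k = 13) ∧ ∀ w, Ed L v w → w ≠ 2 → L.col v w = 0 → k = 14 + lvl L (L.tm v w)) := by
    intro v
    by_cases x : 3 ≤ v ∧ v < 11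
    swap
    · exact ⟨min v 3, by omega, by omega, by omega⟩
    have e := (h.sym _ _ (h.e2 v x.1 x.2)).it
    by_cases m : Ms L v 0
    · have := h.lt _ _ e
      exact ⟨_, by omega, by omega, fun _ _ => ⟨fun _ => rfl, fun y => absurd y (m 2 e),
        fun w y _ z => absurd z (m w y.it)⟩⟩
    obtain ⟨w, i, c⟩ := ms_not m
    by_cases y : w = 2
    · exact ⟨13, by omega, by omega, fun _ _ => ⟨fun z => absurd z m, fun _ => rfl,
        fun z u n d => absurd ((h.prop v z w u.it i (d.trans c.symm)).trans y) n⟩⟩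
    · have := (lvl_le (L := L) (L.tm v w)).trans h.card7
      exact ⟨14 + lvl L (L.tm v w), by omega, by omega, fun _ _ => ⟨fun z => absurd z m,
        fun z => absurd (h.prop v w 2 i e (c.trans z.symm)) y,
        fun z u n d => by rw [h.prop v z w u.it i (d.trans c.symm)]⟩⟩
  choose κ a using a
  have b : ∀ v, ∃ k, k ≤ 99 ∧ (∀ w, Ed L v w → L.col v w = 9 → k = κ w) ∧ (Ms L v 9 → k = 99) := by
    intro v
    by_cases x : ∃ w, Ed L v w ∧ L.col v w = 9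
    · obtain ⟨w, e, c⟩ := x
      exact ⟨κ w, by have := (a w).1; omega, fun z u d => by rw [h.prop v z w u.it e.it (d.trans c.symm)],
        fun m => absurd c (m w e.it)⟩
    · exact ⟨99, le_rfl, fun w e c => absurd ⟨w, e, c⟩ x, fun _ => rfl⟩
  choose μ b using b
  exact ⟨κ, μ, ⟨fun v x => by have := (a v).2.1 x; omega, fun v x y => ((a v).2.2 x y).1,
    fun v x y => ((a v).2.2 x y).2.1, fun v w x e => ((a v).2.2 x e.1).2.2 w e, fun v => (b v).2.1,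
    fun v _ _ => (b v).2.2, fun v => ⟨(a v).1, (b v).1⟩⟩, fun v => (a v).2.1⟩

lemma Key.act {κ μ : ℕ → ℕ} (k : Key L κ μ) (hg : Aut g) : Key (L.act g) (κ ∘ g) (μ ∘ g) := by
  have t := hg.two.1
  refine ⟨fun v x => k.lo _ (by have := hg.ge v; omega), fun v x y m => ?_, fun v x y m => ?_,
    fun v w x e n c => ?_, fun v w e c => k.ed _ _ (hg.ed.1 e) c,
    fun v x y m => k.ms _ ((hg.ge v).2 x) ((hg.lt v).2 y) (hg.ms.1 m), fun v => k.le _⟩
  · simpa only [Lab.act, t, Function.comp] using k.tok _ ((hg.ge v).2 x) ((hg.lt v).2 y) (hg.ms.1 m)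
  · exact k.two _ ((hg.ge v).2 x) ((hg.lt v).2 y) (by simpa only [Lab.act, t] using m)
  · rw [lvl, hg.T0]
    exact k.gen _ _ ((hg.ge v).2 x) (hg.ed.1 e) (fun q => n (g.injective (q.trans t.symm))) c

/-- The vertices are sorted. -/
def Srt (L : Lab) : Prop := ∃ κ μ, Key L κ μ ∧ (∀ v < 3, κ v = v) ∧
  ∀ u w, 3 ≤ u → u ≤ w → w < 11 → 100 * κ u + μ u ≤ 100 * κ w + μ w

/-- Normal form. -/
structure NF (r : ℝ) (L : Lab) : Prop where
  val : Valid r L
  pull : Pull L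
  fst : Fst L
  can : Can L
  srt : Srt L

theorem Valid.nf (h : Valid r L) (z0 : L.col 0 11 = 0) (z1 : L.col 1 12 = 0) : ∃ L', NF r L' := by
  obtain ⟨n, hn⟩ := exists_nat_gt (pot r L)
  obtain ⟨L, h, p⟩ := Valid.pull n L h z0 z1 hn
  obtain ⟨L, h, p, f⟩ := h.fst p
  obtain ⟨L, h, p, f, cn⟩ := h.can p f
  obtain ⟨κ, μ, k, k3⟩ := h.key
  let ι : Fin 8 ↪ ℕ := ⟨fun i => i + 3, fun _ _ e => Fin.ext (Nat.add_right_cancel e)⟩
  let F : Fin 8 → ℕ := fun i => 100 * κ (ι i) + μ (ι i)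
  let g := (Tuple.sort F).viaEmbedding ι
  have a : ∀ v, 3 ≤ v → v < 11 → ∃ i, v = ι i := fun v x y => ⟨⟨v - 3, by omega⟩, (Nat.sub_add_cancel x).symm⟩
  have b : ∀ v, v < 3 ∨ 11 ≤ v → g v = v := fun v x =>
    Equiv.Perm.viaEmbedding_apply_of_notMem _ _ _ fun ⟨i, e⟩ => by
      have : i.1 + 3 = v := e
      omega
  have c : ∀ v, (3 ≤ v ∧ v < 11 ∧ 3 ≤ g v ∧ g v < 11) ∨ ((v < 3 ∨ 11 ≤ v) ∧ g v = v) := fun v => by
    by_cases x : v < 3 ∨ 11 ≤ v
    · exact .inr ⟨x, b v x⟩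
    · obtain ⟨i, rfl⟩ := a v (by omega) (by omega)
      have : g (ι i) = (Tuple.sort F i).1 + 3 := Equiv.Perm.viaEmbedding_apply _ _ _
      omega
  have hg : Aut g := ⟨fun v => by have := c v; omega, fun v => by have := c v; omega,
    fun v w => by have := c v; have := c w; unfold Pt; omega, ⟨b _ (by omega), b _ (by omega)⟩,
    .inl ⟨b _ (by omega), b _ (by omega), b _ (by omega), b _ (by omega), b _ (by omega), b _ (by omega)⟩⟩
  refine ⟨_, h.act hg, p.act hg, fun v w i => ?_, cn.act hg (b 1 (by omega)) (b 12 (by omega)), _, _, k.act hg,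
    fun v x => (congrArg κ (b v (.inl x))).trans (k3 v x), fun u w x y z => ?_⟩
  · simpa only [Lab.act, b 0 (by omega), b 11 (by omega)] using f _ _ (hg.it.1 i)
  · obtain ⟨i, rfl⟩ := a u x (by omega)
    obtain ⟨j, rfl⟩ := a w (by omega) z
    simpa only [Function.comp, g, Equiv.Perm.viaEmbedding_apply] using
      Tuple.monotone_sort F (show i ≤ j from Nat.le_of_add_le_add_right y)

end Pool.Agent.P.MP_3f5ded_co.UG.N9
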