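import Mathlib

set_option autoImplicit false

namespace Pool.Agent.P.MP_3f5ded_co

/-- Circular distance at least one on the circle of length `r`. -/
def Far (r x y : ℝ) : Prop := ∀ n : ℤ, 1 ≤ |x - y - n * r|

/-- Circular distance at most `δ` on the circle of length `r`. -/
def Near (r δ x y : ℝ) : Prop := ∃ n : ℤ, |x - y - n * r| ≤ δ

lemma Near.refl (r x : ℝ) : Near r 0 x x := ⟨0, by simp⟩

lemma Near.of_abs {r δ x y : ℝ} (h : |x - y| ≤ δ) : Near r δ x y := ⟨0, by simpa using h⟩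

lemma Near.symm {r δ x y : ℝ} (h : Near r δ x y) : Near r δ y x := by
  obtain ⟨n, hn⟩ := h
  refine ⟨-n, ?_⟩
  have : y - x - ((-n : ℤ) : ℝ) * r = -(x - y - n * r) := by push_cast; ring
  rw [this, abs_neg]; exact hn

lemma Near.trans {r δ η x y z : ℝ} (h : Near r δ x y) (h' : Near r η y z) :
    Near r (δ + η) x z := by
  obtain ⟨n, hn⟩ := h
  obtain ⟨m, hm⟩ := h'
  refine ⟨n + m, ?_⟩
  have : x - z - ((n + m : ℤ) : ℝ) * r = (x - y - n * r) + (y - z - m * r) := by push_cast; ring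
  rw [this]
  exact (abs_add_le _ _).trans (add_le_add hn hm)

lemma Near.mono {r δ η x y : ℝ} (h : Near r δ x y) (h' : δ ≤ η) : Near r η x y := by
  obtain ⟨n, hn⟩ := h
  exact ⟨n, hn.trans h'⟩

lemma Near.trans0 {r δ x y z : ℝ} (h : Near r δ x y) (h' : Near r 0 y z) : Near r δ x z := by
  simpa using h.trans h'

lemma Near.trans0' {r δ x y z : ℝ} (h : Near r 0 x y) (h' : Near r δ y z) : Near r δ x z := by
  simpa using h.trans h'

lemma Far.symm {r x y : ℝ} (h : Far r x y) : Far r y x := by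
  intro n
  have : y - x - n * r = -(x - y - ((-n : ℤ) : ℝ) * r) := by push_cast; ring
  rw [this, abs_neg]; exact h _

lemma Far.le {r δ x y : ℝ} (h : Far r x y) (h' : Near r δ x y) : 1 ≤ δ := by
  obtain ⟨n, hn⟩ := h'
  exact (h n).trans hn

lemma Far.congr {r x y x' y' : ℝ} (h : Far r x y) (hx : Near r 0 x x') (hy : Near r 0 y y') :
    Far r x' y' := by
  intro n
  obtain ⟨a, ha⟩ := hx
  obtain ⟨b, hb⟩ := hy
  have ha' := abs_nonpos_iff.mp ha
  have hb' := abs_nonpos_iff.mp hb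
  have := h (n + a - b)
  have e : x - y - ((n + a - b : ℤ) : ℝ) * r = x' - y' - n * r := by push_cast; linarith
  rwa [e] at this

lemma Far.of_bounds {r x y : ℝ} (h1 : 1 ≤ y - x) (h2 : y - x ≤ r - 1) : Far r x y := by
  intro n
  have hr : 0 ≤ r := by linarith
  rcases le_or_gt 0 n with hn | hn
  · have : (0 : ℝ) ≤ n := by exact_mod_cast hn
    have : 0 ≤ n * r := mul_nonneg this hr
    rw [le_abs]; right; linarith
  · have : (n : ℝ) ≤ -1 := by exact_mod_cast (show n ≤ -1 by omega)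
    have : n * r ≤ -1 * r := mul_le_mul_of_nonneg_right this hr
    rw [le_abs]; left; linarith

lemma Near.always {r δ : ℝ} (hr : 0 < r) (h : r ≤ δ) (x y : ℝ) : Near r δ x y := by
  refine ⟨⌊(x - y) / r⌋, ?_⟩
  have h1 := Int.floor_le ((x - y) / r)
  have h2 := Int.lt_floor_add_one ((x - y) / r)
  rw [le_div_iff₀ hr] at h1
  rw [div_lt_iff₀ hr] at h2
  rw [abs_le]; constructor <;> linarith

/-- A frame: the lifted, sorted colours around a vertex of degree `k`. -/
structure Fr (k : ℕ) (r : ℝ) (f : ℤ → ℝ) : Prop where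
  step : ∀ i, f i + 1 ≤ f (i + 1)
  per : ∀ i, f (i + k) = f i + r

namespace Fr
variable {k : ℕ} {r : ℝ} {f g : ℤ → ℝ}

lemma monoN (h : Fr k r f) (i : ℤ) (n : ℕ) : f i + n ≤ f (i + n) := by
  induction n with
  | zero => simp
  | succ n ih =>
    have := h.step (i + n)
    push_cast
    rw [← add_assoc i]
    linarith

lemma mono (h : Fr k r f) {i j : ℤ} (hij : i ≤ j) : f i + (j - i) ≤ f j := by
  obtain ⟨n, rfl⟩ := Int.le.dest hij
  have := h.monoN i n
  push_cast
  linarith

lemma perZ (h : Fr k r f) (i n : ℤ) : f (i + n * k) = f i + n * r := by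
  induction n using Int.induction_on generalizing i with
  | zero => simp
  | succ n ih =>
    have e : i + ((n : ℤ) + 1) * k = (i + n * k) + k := by ring
    rw [e, h.per, ih]; push_cast; ring
  | pred n ih =>
    have e : i + (-(n : ℤ)) * k = (i + (-(n : ℤ) - 1) * k) + k := by ring
    have := ih i
    rw [e, h.per] at this
    push_cast at this ⊢; linarith

lemma upper (h : Fr k r f) {i j : ℤ} (hj : j ≤ i + k) : f j ≤ f i + (j - i) + (r - k) := by
  have := h.mono hj
  rw [h.per] at this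
  push_cast at this
  linarith

lemma eps_nonneg (h : Fr k r f) : 0 ≤ r - k := by
  have := h.monoN 0 k
  rw [h.per] at this
  linarith

lemma aligned (hf : Fr k r f) (hg : Fr k r g) (hk : 0 < k) {i0 : ℤ} (h : f i0 = g i0) (i : ℤ) :
    |f i - g i| ≤ r - k := by
  have hk' : (0 : ℤ) < k := by exact_mod_cast hk
  set n := (i - i0) / k with hn
  set j := i0 + (i - i0) % k with hj
  have e : i = j + n * k := by
    have := Int.emod_add_mul_ediv (i - i0) k
    rw [hj, hn]; linarith
  have h0 : i0 ≤ j := by have := Int.emod_nonneg (i - i0) hk'.ne'; omega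
  have h1 : j ≤ i0 + k := by have := Int.emod_lt_of_pos (i - i0) hk'; omega
  rw [e, hf.perZ, hg.perZ]
  have a1 := hf.mono h0
  have a2 := hg.mono h0
  have a3 := hf.upper h1
  have a4 := hg.upper h1
  rw [abs_le]; constructor <;> linarith

lemma close (h : Fr k r f) {i j : ℤ} {m : ℤ} (hm : 0 < m) (hd : |f i - f j| < m) : |i - j| < m := by
  rw [abs_lt] at hd ⊢
  have hm' : (0 : ℝ) < m := by exact_mod_cast hm
  constructor
  · by_contra hc
    push Not at hc
    have := h.mono (show i ≤ j by omega)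
    have h2 : ((i : ℝ) - j) ≤ -m := by exact_mod_cast hc
    linarith
  · by_contra hc
    push Not at hc
    have := h.mono (show j ≤ i by omega)
    have h2 : (m : ℝ) ≤ (i : ℝ) - j := by exact_mod_cast hc
    linarith

end Fr

/-- Two frames that stay within `δ` of each other. -/
def Al (δ : ℝ) (f g : ℤ → ℝ) : Prop := ∀ i, |f i - g i| ≤ δ

lemma Al.symm {δ : ℝ} {f g : ℤ → ℝ} (h : Al δ f g) : Al δ g f := fun i => by
  rw [abs_sub_comm]; exact h i

lemma Al.trans {δ η : ℝ} {f g h : ℤ → ℝ} (h1 : Al δ f g) (h2 : Al η g h) : Al (δ + η) f h :=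
  fun i => (abs_sub_le _ _ _).trans (add_le_add (h1 i) (h2 i))

lemma Al.mono {δ η : ℝ} {f g : ℤ → ℝ} (h1 : Al δ f g) (h : δ ≤ η) : Al η f g :=
  fun i => (h1 i).trans h

lemma Al.refl {δ : ℝ} (h : 0 ≤ δ) (f : ℤ → ℝ) : Al δ f f := fun i => by simpa using h

lemma near_lift {k : ℕ} {r δ η : ℝ} {f g : ℤ → ℝ} (hg : Fr k r g) (ha : Al δ f g) {i j : ℤ}
    (hn : Near r η (f i) (g j)) {m : ℤ} (hm : 0 < m) (hs : δ + η < m) :
    ∃ n : ℤ, |i - (j + n * k)| < m ∧ |f i - g (j + n * k)| ≤ η := by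
  obtain ⟨n, hn⟩ := hn
  have e : f i - g j - n * r = f i - g (j + n * k) := by rw [hg.perZ]; ring
  rw [e] at hn
  refine ⟨n, hg.close hm ?_, hn⟩
  have := ha i
  have h2 := abs_sub_le (g i) (f i) (g (j + n * k))
  rw [abs_sub_comm (g i) (f i)] at h2
  linarith

lemma near_match {k : ℕ} {r δ η : ℝ} {f g : ℤ → ℝ} (hg : Fr k r g) (ha : Al δ f g) {i j : ℤ}
    (hn : Near r η (f i) (g j)) (hs : δ + η < 1) (hi : 0 ≤ i) (hi' : i < k) (hj : 0 ≤ j)
    (hj' : j < k) : i = j ∧ |f i - g j| ≤ η := by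
  obtain ⟨n, h1, h2⟩ := near_lift hg ha hn (m := 1) one_pos (by simpa using hs)
  have e : i = j + n * k := by rw [abs_lt] at h1; omega
  have hn0 : n = 0 := by
    rcases lt_trichotomy n 0 with h | h | h
    · have : n * k ≤ -1 * k := mul_le_mul_of_nonneg_right (by omega) (by omega)
      omega
    · exact h
    · have : 1 * (k : ℤ) ≤ n * k := mul_le_mul_of_nonneg_right (by omega) (by omega)
      omega
  subst hn0
  simp at e h2
  exact ⟨e, h2⟩

/-- The data of a frame at a vertex whose ports form the finite set `S`. -/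
structure Good {A : Type} (k : ℕ) (r : ℝ) (S : Finset A) (c : A → ℝ) (f : ℤ → ℝ) (κ : A → ℤ) :
    Prop where
  fr : Fr k r f
  lo : ∀ y ∈ S, 0 ≤ κ y
  hi : ∀ y ∈ S, κ y < k
  near : ∀ y ∈ S, Near r 0 (c y) (f (κ y))
  inj : ∀ y ∈ S, ∀ z ∈ S, κ y = κ z → y = z

lemma Good.image {A : Type} {k : ℕ} {r : ℝ} {S : Finset A} {c : A → ℝ} {f : ℤ → ℝ} {κ : A → ℤ}
    (h : Good k r S c f κ) (hS : S.card = k) : S.image κ = Finset.Ico (0 : ℤ) k := by
  apply Finset.eq_of_subset_of_card_le
  · intro i hi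
    obtain ⟨y, hy, rfl⟩ := Finset.mem_image.mp hi
    exact Finset.mem_Ico.mpr ⟨h.lo y hy, h.hi y hy⟩
  · rw [Finset.card_image_of_injOn (fun y hy z hz e => h.inj y hy z hz e), hS]
    simp

lemma Good.surj {A : Type} {k : ℕ} {r : ℝ} {S : Finset A} {c : A → ℝ} {f : ℤ → ℝ} {κ : A → ℤ}
    (h : Good k r S c f κ) (hS : S.card = k) {i : ℤ} (h0 : 0 ≤ i) (h1 : i < k) :
    ∃ y ∈ S, κ y = i := by
  have : i ∈ S.image κ := by rw [h.image hS]; exact Finset.mem_Ico.mpr ⟨h0, h1⟩
  simpa using this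

lemma Good.sum {A : Type} {k : ℕ} {r : ℝ} {S : Finset A} {c : A → ℝ} {f : ℤ → ℝ} {κ : A → ℤ}
    (h : Good k r S c f κ) (hS : S.card = k) : ∑ y ∈ S, κ y = ∑ i ∈ Finset.Ico (0 : ℤ) k, i := by
  rw [← h.image hS, Finset.sum_image (fun y hy z hz e => h.inj y hy z hz e)]

theorem exists_good {A : Type} {k : ℕ} {r : ℝ} (hr : 0 < r) (S : Finset A) (hS : S.card = k)
    (c : A → ℝ) (hc : ∀ y ∈ S, ∀ z ∈ S, y ≠ z → Far r (c y) (c z)) (y0 : A) (hy0 : y0 ∈ S)
    (i0 : ℤ) (h0 : 0 ≤ i0) (h1 : i0 < k) (x : ℝ) (hx : Near r 0 (c y0) x) (hr1 : 1 ≤ r) :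
    ∃ f κ, Good k r S c f κ ∧ κ y0 = i0 ∧ f i0 = x := by
  classical
  have hk : 0 < k := by omega
  have hkz : (0 : ℤ) < k := by exact_mod_cast hk
  set g : A → ℝ := fun y => toIcoMod hr 0 (c y - x) with hg
  have gn : ∀ y, Near r 0 (c y) (x + g y) := by
    intro y
    refine ⟨toIcoDiv hr 0 (c y - x), ?_⟩
    have := toIcoMod_add_toIcoDiv_zsmul hr 0 (c y - x)
    simp only [zsmul_eq_mul] at this
    rw [abs_nonpos_iff]
    simp only [hg]; linarith
  have g0 : ∀ y, 0 ≤ g y := fun y => (toIcoMod_mem_Ico hr 0 _).1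
  have g1 : ∀ y, g y < r := fun y => by simpa using (toIcoMod_mem_Ico hr 0 (c y - x)).2
  have gy0 : g y0 = 0 := by
    obtain ⟨n, hn⟩ := hx
    rw [abs_nonpos_iff] at hn
    simp only [hg]
    rw [toIcoMod_eq_iff]
    exact ⟨⟨le_refl _, by simpa using hr⟩, n, by simp; linarith⟩
  have gfar : ∀ y ∈ S, ∀ z ∈ S, y ≠ z → Far r (g y) (g z) := by
    intro y hy z hz hne n
    have := ((hc y hy z hz hne).congr (gn y) (gn z)) n
    have e : x + g y - (x + g z) - n * r = g y - g z - n * r := by ring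
    rwa [e] at this
  have ginj : Set.InjOn g S := by
    intro y hy z hz e
    by_contra hne
    have := gfar y hy z hz hne 0
    rw [e] at this
    norm_num at this
  have hT : (S.image g).card = k := by rw [Finset.card_image_of_injOn ginj, hS]
  set h := (S.image g).orderEmbOfFin hT with hh
  have hmem : ∀ i, ∃ y ∈ S, g y = h i := fun i => by
    have := Finset.orderEmbOfFin_mem (S.image g) hT i
    exact Finset.mem_image.mp this
  have hsur : ∀ y ∈ S, ∃ i, h i = g y := fun y hy => by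
    have : g y ∈ Set.range h := by
      rw [hh, Finset.range_orderEmbOfFin]
      exact Finset.mem_coe.mpr (Finset.mem_image_of_mem g hy)
    exact this
  have hgap : ∀ i j : Fin k, i < j → h i + 1 ≤ h j := by
    intro i j hij
    obtain ⟨y, hy, ey⟩ := hmem i
    obtain ⟨z, hz, ez⟩ := hmem j
    have hlt : h i < h j := h.strictMono hij
    have hne : y ≠ z := by rintro rfl; rw [ey] at ez; exact hlt.ne ez
    have := gfar y hy z hz hne 0
    rw [ey, ez] at this
    simp only [Int.cast_zero, zero_mul, sub_zero] at this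
    rw [abs_of_neg (by linarith)] at this
    linarith
  have hzero : h ⟨0, hk⟩ = 0 := by
    obtain ⟨i, hi⟩ := hsur y0 hy0
    obtain ⟨y, hy, ey⟩ := hmem ⟨0, hk⟩
    have : h ⟨0, hk⟩ ≤ h i := h.monotone (Nat.zero_le _)
    have := g0 y
    rw [gy0] at hi
    linarith
  have htop : ∀ i, h i ≤ r - 1 := by
    intro i
    obtain ⟨y, hy, ey⟩ := hmem i
    by_cases hne : y = y0
    · rw [← ey, hne, gy0]; linarith
    · have := gfar y hy y0 hy0 hne 1
      rw [gy0, ey] at this
      have h2 := g1 y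
      rw [ey] at h2
      simp only [Int.cast_one, one_mul, sub_zero] at this
      rw [abs_of_neg (by linarith)] at this
      linarith
  have hmod : ∀ i : ℤ, (i % k).toNat < k := fun i => by
    have := Int.emod_lt_of_pos i hkz
    have := Int.emod_nonneg i hkz.ne'
    omega
  set f0 : ℤ → ℝ := fun i => h ⟨(i % k).toNat, hmod i⟩ + ((i / k : ℤ) : ℝ) * r with hf0
  have f0eq : ∀ (j : Fin k) (n : ℤ), f0 (j + n * k) = h j + n * r := by
    intro j n
    have e1 : ((j : ℤ) + n * k) % k = j := by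
      rw [Int.add_mul_emod_self_right]
      exact Int.emod_eq_of_lt (by omega) (by exact_mod_cast j.2)
    have e2 : ((j : ℤ) + n * k) / k = n := by
      rw [Int.add_mul_ediv_right _ _ hkz.ne', Int.ediv_eq_zero_of_lt (by omega) (by exact_mod_cast j.2)]
      simp
    simp only [hf0, e1, e2]
    congr 2
  have dec : ∀ i : ℤ, ∃ (j : Fin k) (n : ℤ), i = j + n * k := by
    intro i
    refine ⟨⟨(i % k).toNat, hmod i⟩, i / k, ?_⟩
    have := Int.emod_add_mul_ediv i k
    have := Int.emod_nonneg i hkz.ne'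
    simp only [Int.toNat_of_nonneg this]
    linarith
  have f0fr : Fr k r f0 := by
    constructor
    · intro i
      obtain ⟨j, n, rfl⟩ := dec i
      by_cases hj : (j : ℕ) + 1 < k
      · have e : (j : ℤ) + n * k + 1 = ((⟨j + 1, hj⟩ : Fin k) : ℤ) + n * k := by push_cast; ring
        rw [e, f0eq, f0eq]
        have := hgap j ⟨j + 1, hj⟩ (by simp [Fin.lt_def])
        linarith
      · have e : (j : ℤ) + n * k + 1 = ((⟨0, hk⟩ : Fin k) : ℤ) + (n + 1) * k := by
          have := j.2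
          have : (j : ℤ) + 1 = k := by omega
          push_cast; linarith
        rw [e, f0eq, f0eq, hzero]
        have := htop j
        push_cast; linarith
    · intro i
      obtain ⟨j, n, rfl⟩ := dec i
      have e : (j : ℤ) + n * k + k = j + (n + 1) * k := by ring
      rw [e, f0eq, f0eq]; push_cast; ring
  have hsur' : ∀ y, ∃ i : Fin k, y ∈ S → h i = g y := fun y => by
    by_cases hy : y ∈ S
    · obtain ⟨i, hi⟩ := hsur y hy
      exact ⟨i, fun _ => hi⟩
    · exact ⟨⟨0, hk⟩, fun h => absurd h hy⟩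
  choose ρ hρ using hsur'
  refine ⟨fun i => x + f0 (i - i0), fun y => (ρ y + i0) % k, ⟨⟨?_, ?_⟩, ?_, ?_, ?_, ?_⟩, ?_, ?_⟩
  · intro i
    have := f0fr.step (i - i0)
    have e : i + 1 - i0 = i - i0 + 1 := by ring
    rw [e]; linarith
  · intro i
    have := f0fr.per (i - i0)
    have e : i + k - i0 = i - i0 + k := by ring
    rw [e]; linarith
  · intro y _; exact Int.emod_nonneg _ hkz.ne'
  · intro y _; exact Int.emod_lt_of_pos _ hkz
  · intro y hy
    refine (gn y).trans0 ?_
    have e : ((ρ y : ℤ) + i0) % k - i0 = ρ y + (-(((ρ y : ℤ) + i0) / k)) * k := by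
      have := Int.emod_add_mul_ediv ((ρ y : ℤ) + i0) k
      linarith
    simp only [e, f0eq, hρ y hy]
    refine ⟨((ρ y : ℤ) + i0) / k, ?_⟩
    rw [abs_nonpos_iff]; push_cast; ring
  · intro y hy z hz e
    have e' : ((ρ y : ℤ)) % k = (ρ z : ℤ) % k := by
      have := Int.ModEq.add_right_cancel' i0 (show (ρ y : ℤ) + i0 ≡ ρ z + i0 [ZMOD k] from e)
      exact this
    rw [Int.emod_eq_of_lt (by omega) (by exact_mod_cast (ρ y).2),
      Int.emod_eq_of_lt (by omega) (by exact_mod_cast (ρ z).2)] at e'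
    have e'' : ρ y = ρ z := Fin.ext (by exact_mod_cast e')
    apply ginj hy hz
    rw [← hρ y hy, ← hρ z hz, e'']
  · have : ρ y0 = ⟨0, hk⟩ := by
      apply h.injective
      rw [hρ y0 hy0, gy0, hzero]
    simp only [this]
    simpa using Int.emod_eq_of_lt h0 h1
  · have := f0eq ⟨0, hk⟩ 0
    simp only [sub_self]
    simp at this
    rw [this, hzero]; simp

end Pool.Agent.P.MP_3f5ded_co
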