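import Pool.Agent.P.MP_3f5ded_co.EQ1

set_option autoImplicit false

namespace Pool.Agent.P.MP_3f5ded_co.UG

open Finset

/-- Different integers that are at least `a` have a large sum. -/
lemma sum_inj_ge {ι : Type} {s : Finset ι} {g : ι → ℤ} {a : ℤ} (h : ∀ i ∈ s, a ≤ g i)
    (inj : ∀ i ∈ s, ∀ j ∈ s, g i = g j → i = j) :
    (s.card : ℤ) * (2 * a + s.card - 1) ≤ 2 * ∑ i ∈ s, g i := by
  classical
  have h1 := sum_range_le_sum (s := s.image g) (c := a) (by simpa using h)
  rw [sum_image inj, card_image_of_injOn inj, sum_add_distrib] at h1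
  have h2 : ∀ n : ℕ, 2 * ∑ i ∈ range n, (i : ℤ) = n * (n - 1) := fun n => by
    induction n with
    | zero => simp
    | succ n ih => rw [sum_range_succ, mul_add, ih]; push_cast; ring
  have h3 := h2 s.card
  simp only [sum_const, card_range, nsmul_eq_mul] at h1
  linarith

namespace PM
variable {W : Type} {k : ℕ} {r : ℝ} {Fe : W → W → Prop} (P : PM W k r Fe)

open Classical in
/-- The number of steps of `x` from its item `y` to its next item `y'`. -/
noncomputable def st (x y y' : W) : ℤ :=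
  if h : y ≠ x ∧ y' ≠ x then ((P.sur x y' h.2).choose - (P.sur x y h.1).choose) % k else 0

variable {P} {x y y' c d : W} {n n' : ℤ}

lemma st_spec (h' : y' ≠ x) (e : P.it x n = y) : 0 ≤ P.st x y y' ∧ P.st x y y' < k ∧
    P.it x (n + P.st x y y') = y' := by
  have h : y ≠ x := e ▸ P.ne x n
  have hk : (0 : ℤ) < k := by exact_mod_cast P.k_pos x
  rw [st, dif_pos ⟨h, h'⟩]
  refine ⟨Int.emod_nonneg _ hk.ne', Int.emod_lt_of_pos _ hk, ?_⟩
  refine ((P.inj x _ _).2 ?_).trans (P.sur x y' h').choose_spec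
  obtain ⟨j, hj⟩ := (P.inj x _ _).1 (e.trans (P.sur x y h).choose_spec.symm)
  have := Int.emod_add_mul_ediv ((P.sur x y' h').choose - (P.sur x y h).choose) k
  exact ⟨j + ((P.sur x y' h').choose - (P.sur x y h).choose) / k, by linarith⟩

lemma st_eq (e : P.it x n = y) (e' : P.it x n' = y') (h1 : n ≤ n') (h2 : n' < n + k) :
    P.st x y y' = n' - n := by
  obtain ⟨a, b, g⟩ := st_spec (e' ▸ P.ne x n') e
  have := P.uniq (g.trans e'.symm) (by omega) (by omega)
  omega

lemma st_pos (h : y ≠ x) (h' : y' ≠ x) (e : y ≠ y') : 1 ≤ P.st x y y' ∧ P.st x y y' < k := by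
  obtain ⟨n, a⟩ := P.sur x y h
  obtain ⟨h1, h2, h3⟩ := st_spec h' a
  refine ⟨?_, h2⟩
  by_contra g
  rw [show P.st x y y' = 0 by omega, add_zero] at h3
  exact e (a.symm.trans h3)

lemma st_self (h : y ≠ x) : P.st x y y = 0 := by
  obtain ⟨n, a⟩ := P.sur x y h
  have := P.k_pos x
  rw [st_eq a a le_rfl (by omega), sub_self]

/-- There and back is one period. -/
lemma st_add (h : y ≠ x) (h' : y' ≠ x) (e : y ≠ y') : P.st x y y' + P.st x y' y = k := by
  obtain ⟨n, a⟩ := P.sur x y h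
  obtain ⟨h1, h2, h3⟩ := st_spec h' a
  have := st_pos (P := P) h h' e
  rw [st_eq h3 ((P.it_add x n).trans a) (by omega) (by omega)]
  ring

lemma st_inj (h : y ≠ x) (hc : c ≠ x) (hd : d ≠ x) (e : P.st x y c = P.st x y d) : c = d := by
  obtain ⟨n, a⟩ := P.sur x y h
  exact (st_spec hc a).2.2.symm.trans (e ▸ (st_spec hd a).2.2)

lemma st_inj' (h : y ≠ x) (hc : c ≠ x) (hd : d ≠ x) (e : P.st x c y = P.st x d y) : c = d := by
  by_cases e1 : c = y
  · subst e1
    by_contra g
    have := st_pos (P := P) hd h (Ne.symm g)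
    rw [st_self h] at e; omega
  by_cases e2 : d = y
  · subst e2
    have := st_pos (P := P) hc h e1
    rw [st_self h] at e; omega
  have := st_add (P := P) hc h e1
  have := st_add (P := P) hd h e2
  exact st_inj (P := P) h hc hd (by omega)

/-- Steps are additive up to one period. -/
lemma st_tri (h : y ≠ x) (hc : c ≠ x) (hd : d ≠ x) :
    (P.st x y c ≤ P.st x y d ∧ P.st x y c + P.st x c d = P.st x y d) ∨
      (P.st x y d < P.st x y c ∧ P.st x y c + P.st x c d = P.st x y d + k) := by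
  obtain ⟨n, a⟩ := P.sur x y h
  obtain ⟨a1, a2, a3⟩ := st_spec hc a
  obtain ⟨b1, b2, b3⟩ := st_spec hd a
  rcases le_or_gt (P.st x y c) (P.st x y d) with g | g
  · exact Or.inl ⟨g, by rw [st_eq a3 b3 (by omega) (by omega)]; ring⟩
  · exact Or.inr ⟨g, by rw [st_eq a3 ((P.it_add x _).trans b3) (by omega) (by omega)]; ring⟩

lemma on_st (hc : c ≠ x) (hd : d ≠ x) (h : y ≠ x) :
    P.On x c d y ↔ 0 < P.st x c d ∧ P.st x c d < P.st x c y := by
  constructor
  · rintro ⟨n1, n, n2, a, b, g, e1, e, e2⟩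
    rw [st_eq e1 e (by omega) (by omega), st_eq e1 e2 (by omega) g]; omega
  · rintro ⟨a, b⟩
    obtain ⟨n, e⟩ := P.sur x c hc
    obtain ⟨a1, a2, a3⟩ := st_spec hd e
    obtain ⟨b1, b2, b3⟩ := st_spec h e
    exact ⟨n, _, _, by omega, by omega, by omega, e, a3, b3⟩

/-- The steps round a triangle. -/
lemma st_walk (h1 : P.Ad x y) (h2 : P.Ad y c) (h3 : P.Ad c x) :
    P.st y x c + P.st c y x + P.st x c y + (k + 1) * P.mu x y c = k ∨
      P.st y x c + P.st c y x + P.st x c y + (k + 1) * P.mu x y c = 2 * k := by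
  obtain ⟨n1, n2, m1, m2, l1, l2, j, a, b, g, hj, e⟩ := walk3 h1 h2 h3
  rw [st_eq a.2.2.1 a.2.2.2 a.1.le a.2.1, st_eq b.2.2.1 b.2.2.2 b.1.le b.2.1,
    st_eq g.2.2.1 g.2.2.2 g.1.le g.2.1]
  rcases hj with rfl | rfl
  · left; linarith
  · right; linarith

/-- A short triangle has `k - 1` steps. -/
lemma Sh.st (h : P.Sh x y c) : P.st y x c + P.st c y x + P.st x c y + 1 = k ∧
    1 ≤ P.st y x c ∧ 1 ≤ P.st c y x ∧ 1 ≤ P.st x c y := by
  have a := st_pos (P := P) h.a1.1.symm h.a2.1 h.a3.1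
  have b := st_pos (P := P) h.a2.1.symm h.a3.1 h.a1.1
  have g := st_pos (P := P) h.a3.1.symm h.a1.1 h.a2.1
  have := st_walk h.a1 h.a2 h.a3
  rw [h.e] at this
  omega

lemma rev_ad : P.rev.Ad x y ↔ P.Ad x y := Iff.rfl

lemma rev_mu : P.rev.mu x y c = -P.mu x y c := by simp only [mu, rev]; ring

lemma rev_sh : P.rev.Sh x y c ↔ P.Sh y x c := by
  constructor
  · rintro ⟨a, b, g, e⟩
    rw [rev_ad] at a b g
    exact ⟨a.symm, g.symm, b.symm, by rw [mu_swap a b g, ← rev_mu, e]⟩
  · rintro ⟨a, b, g, e⟩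
    exact ⟨a.symm, g.symm, b.symm, by rw [rev_mu, mu_swap a b g, e]; rfl⟩

lemma rev_st : P.rev.st x y y' = P.st x y' y := by
  by_cases h : y ≠ x ∧ y' ≠ x
  · obtain ⟨n, e⟩ := P.sur x y' h.2
    obtain ⟨a, b, g⟩ := st_spec h.1 e
    rw [st_eq (P := P.rev) (n := -(n + P.st x y' y)) (n' := -n) (by simpa [rev] using g)
      (by simpa [rev] using e) (by omega) (by omega)]
    ring
  · rw [st, dif_neg h, st, dif_neg fun g => h g.symm]

lemma rev_on : P.rev.On x c d y ↔ P.On x y d c := by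
  constructor <;> rintro ⟨n1, n, n2, a, b, g, e1, e, e2⟩
  · exact ⟨-n2, -n, -n1, by omega, by omega, by omega, e2, e, e1⟩
  · exact ⟨-n2, -n, -n1, by omega, by omega, by omega, by simpa [rev] using e2,
      by simpa [rev] using e, by simpa [rev] using e1⟩

/-- Lemma S. All but two items of `c` are edges to `F` or `L`, and all triangles `c, l, f` are
short. Then `c` reads `F` before `L`, every `l` reads `c` and then the first vertex `f` of `F`,
and `f` reads `L` just before `c`. -/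
theorem lemS {F L : Finset W} (hF : F.Nonempty) (hL : L.Nonempty) (card : F.card + L.card + 2 = k)
    (h : ∀ l ∈ L, ∀ f ∈ F, P.Sh c l f) : ∃ f ∈ F, (∀ g ∈ F, P.st c f g < F.card) ∧
      ∀ l ∈ L, (F.card : ℤ) ≤ P.st c f l ∧ P.st l c f = 1 ∧ P.st f l c + P.st c f l + 2 = k := by
  classical
  obtain ⟨l0, hl0⟩ := hL
  have nF : ∀ f ∈ F, f ≠ c := fun f hf => (h l0 hl0 f hf).a3.1.symm
  obtain ⟨f0, hf0⟩ := hF
  have nL : ∀ l ∈ L, l ≠ c := fun l hl => (h l hl f0 hf0).a1.1
  have three : ∀ l ∈ L, ∀ f ∈ F, 3 ≤ P.st c l f := fun l hl f hf => by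
    have := (h l hl f hf).st
    have := st_add (P := P) (nL l hl) (nF f hf) (h l hl f hf).a2.1.symm
    omega
  obtain ⟨f, hf, hm⟩ := F.exists_min_image (P.st c l0) ⟨f0, hf0⟩
  obtain ⟨n, e⟩ := P.sur c f (nF f hf)
  have dj : Disjoint F L := disjoint_left.2 fun a ha hb => (h a hb a ha).a2.1 rfl
  -- every vertex of `F` and `L` comes at most `k - 3` steps after `f`
  have up : ∀ v ∈ F ∪ L, P.st c f v + 3 ≤ k := fun v hv => by
    rcases mem_union.1 hv with g | g
    · have a := hm v g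
      have b := three l0 hl0 f hf
      have d := st_tri (P := P) (nL l0 hl0) (nF f hf) (nF v g)
      have := (st_pos (P := P) (nL l0 hl0) (nF v g) (h l0 hl0 v g).a2.1.symm).2
      omega
    · have := (h v g f hf).st; omega
  have nU : ∀ v ∈ F ∪ L, v ≠ c := fun v hv => (mem_union.1 hv).elim (nF v) (nL v)
  have full : ∀ t : ℤ, 0 ≤ t → t + 3 ≤ k → P.it c (n + t) ∈ F ∪ L := fun t t1 t2 => by
    have im : (F ∪ L).image (P.st c f) = Icc 0 ((k : ℤ) - 3) := by
      refine eq_of_subset_of_card_le (fun s hs => ?_) ?_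
      · obtain ⟨v, hv, rfl⟩ := mem_image.1 hs
        have := up v hv
        exact mem_Icc.2 ⟨(st_spec (nU v hv) e).1, by omega⟩
      · rw [card_image_of_injOn fun a ha b hb g => st_inj (nF f hf) (nU a ha) (nU b hb) g,
          card_union_of_disjoint dj, Int.card_Icc]
        omega
    obtain ⟨v, hv, g⟩ := mem_image.1 (im ▸ mem_Icc.2 ⟨t1, by omega⟩ : t ∈ (F ∪ L).image (P.st c f))
    rw [← g, (st_spec (nU v hv) e).2.2]; exact hv
  have stay : ∀ l ∈ L, ∀ t : ℤ, P.st c f l ≤ t → t + 3 ≤ k → P.it c (n + t) ∈ L := by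
    intro l hl t t1
    induction t, t1 using Int.leInduction with
    | base => intro _; rw [(st_spec (nL l hl) e).2.2]; exact hl
    | succ t t1 ih =>
      intro t2
      have a := (st_spec (nL l hl) e).1
      refine (mem_union.1 (full (t + 1) (by omega) t2)).resolve_left fun g => ?_
      have := three _ (ih (by omega)) _ g
      rw [st_eq rfl rfl (by omega) (by omega)] at this
      omega
  have bef : ∀ l ∈ L, ∀ g ∈ F, P.st c f g < P.st c f l := fun l hl g hg => by
    by_contra a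
    have := stay l hl _ (not_lt.1 a) (up g (mem_union_left _ hg))
    rw [(st_spec (nF g hg) e).2.2] at this
    exact disjoint_left.1 dj hg this
  have low : ∀ l ∈ L, (F.card : ℤ) ≤ P.st c f l := fun l hl => by
    have := card_le_card_of_injOn (s := F) (t := Ico 0 (P.st c f l)) (P.st c f)
      (fun g hg => mem_coe.2 (mem_Ico.2 ⟨(st_spec (nF g hg) e).1, bef l hl g hg⟩))
      fun a ha b hb g => st_inj (nF f hf) (nF a ha) (nF b hb) g
    rw [Int.card_Ico] at this
    have := (st_spec (nL l hl) e).1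
    omega
  have s1 := sum_inj_ge low fun a ha b hb g => st_inj (nF f hf) (nL a ha) (nL b hb) g
  have s2 := sum_inj_ge (s := L) (g := fun l => P.st f l c) (a := 1)
    (fun l hl => (h l hl f hf).st.2.2.1) fun a ha b hb g =>
      st_inj' (nF f hf).symm (h a ha f hf).a2.1.symm (h b hb f hf).a2.1.symm g
  have s3 : ∑ l ∈ L, (P.st l c f - 1) + ∑ l ∈ L, P.st f l c + ∑ l ∈ L, P.st c f l =
      L.card * (F.card + L.card) := by
    rw [← sum_add_distrib, ← sum_add_distrib, ← nsmul_eq_mul, ← sum_const]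
    exact sum_congr rfl fun l hl => by have := (h l hl f hf).st; omega
  have pos : ∀ l ∈ L, 0 ≤ P.st l c f - 1 := fun l hl => by have := (h l hl f hf).st; omega
  have s4 := (sum_eq_zero_iff_of_nonneg pos).1 (le_antisymm (by nlinarith) (sum_nonneg pos))
  refine ⟨f, hf, fun g hg => ?_, fun l hl => ⟨low l hl, by have := s4 l hl; omega, ?_⟩⟩
  · by_contra a
    have := card_le_card_of_injOn (s := L) (t := Ioc (F.card : ℤ) (k - 3)) (P.st c f)
      (fun l hl => mem_coe.2 (mem_Ioc.2 ⟨by have := bef l hl g hg; omega,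
        by have := up l (mem_union_right _ hl); omega⟩))
      fun a ha b hb g => st_inj (nF f hf) (nL a ha) (nL b hb) g
    rw [Int.card_Ioc] at this
    have := card_pos.2 ⟨l0, hl0⟩
    omega
  · have := s4 l hl
    have := (h l hl f hf).st
    omega

/-- Lemma S read backwards: every `f` reads the last vertex `l` of `L` and then `c`. -/
theorem lemS' {F L : Finset W} (hF : F.Nonempty) (hL : L.Nonempty) (card : F.card + L.card + 2 = k)
    (h : ∀ l ∈ L, ∀ f ∈ F, P.Sh c l f) : ∃ l ∈ L, (∀ g ∈ L, P.st c g l < L.card) ∧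
      ∀ f ∈ F, (L.card : ℤ) ≤ P.st c f l ∧ P.st f l c = 1 ∧ P.st l c f + P.st c f l + 2 = k := by
  simpa only [rev_st] using lemS (P := P.rev) (c := c) hL hF (by omega)
    fun f hf l hl => rev_sh.2 (h l hl f hf).rot.rot

end PM

end Pool.Agent.P.MP_3f5ded_co.UG
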