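import Pool.Agent.P.MP_3f5ded_co.EQ0
import Pool.Agent.P.MP_3f5ded_co.EQS

set_option autoImplicit false

namespace Pool.Agent.P.MP_3f5ded_co.UG

open Finset

namespace PM
variable {W : Type} {k : ℕ} {r : ℝ} {Fe : W → W → Prop} (P : PM W k r Fe)

/-- A shifted edge from the tail `h` to the head `l`. -/
structure De (z h l : W) : Prop where
  hz : h ≠ z
  lz : l ≠ z
  ad : P.Ad h l
  one : P.sh h l = 1

/-- The vertex `y` is good for the edge `h l`. -/
structure Gd (z h l y : W) : Prop where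
  yz : y ≠ z
  ah : P.Ad y h
  al : P.Ad y l
  sh0 : P.sh y h = 0
  sl0 : P.sh y l = 0

open Classical in
/-- The part of the cost bound that the core uses: `ch` of one item plus `cl` of one item. -/
def Ce (U : Finset W) (z : W) : Prop :=
  ∀ h l x x', P.De z h l → ¬ P.Gd z h l x → ¬ P.De z h x → ¬ P.Gd z h l x' → ¬ P.De z x' l →
    (U.filter fun u => P.On h u x l).card + (U.filter fun u => P.On l h x' u).card ≤ 2

/-- The normal form of case C: tails `v, a, B`, heads `w, b, A`, the rest `U`. -/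
structure NF [Fintype W] [DecidableEq W] (U : Finset W) (z v a B w b A : W) : Prop where
  h4 : H4 k Fe (insert v (insert w U)) z a A b B
  vw : v ≠ w
  vU : v ∉ U
  wU : w ∉ U
  sh : ∀ x y, x ≠ z → y ≠ z → P.Ad x y → P.sh x y = 0 ∨
    ((x = v ∨ x = a ∨ x = B) ∧ (y = w ∨ y = b ∨ y = A) ∧ P.sh x y = 1) ∨
    ((y = v ∨ y = a ∨ y = B) ∧ (x = w ∨ x = b ∨ x = A) ∧ P.sh x y = -1)
  dvw : P.sh v w = 1
  dab : P.sh a b = 1
  dBA : P.sh B A = 0

variable {P} {U : Finset W} {z h l y v a B w b A : W}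

lemma rev_de : P.rev.De z l h ↔ P.De z h l := by
  constructor
  · rintro ⟨a1, a2, a3, a4⟩
    have a5 : P.Ad l h := a3
    exact ⟨a2, a1, a5.symm, by rw [a5.sh]; exact a4⟩
  · rintro ⟨a1, a2, a3, a4⟩
    exact ⟨a2, a1, a3.symm, by simp only [rev]; rw [a3.sh, neg_neg, a4]⟩

lemma rev_gd : P.rev.Gd z l h y ↔ P.Gd z h l y := by
  constructor
  · rintro ⟨a1, a2, a3, a4, a5⟩
    exact ⟨a1, a3, a2, neg_eq_zero.1 a5, neg_eq_zero.1 a4⟩
  · rintro ⟨a1, a2, a3, a4, a5⟩
    exact ⟨a1, a3, a2, neg_eq_zero.2 a5, neg_eq_zero.2 a4⟩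

lemma Ce.rev (c : P.Ce U z) : P.rev.Ce U z := fun h l x x' d g1 d1 g2 d2 => by
  have := c l h x' x (rev_de.1 d) (rev_gd.not.1 g2) (rev_de.not.1 d2) (rev_gd.not.1 g1)
    (rev_de.not.1 d1)
  classical
  rw [filter_congr fun u _ => rev_on (P := P) (x := h) (c := u), filter_congr fun u _ =>
    rev_on (P := P) (x := l) (y := u)]
  omega

variable [Fintype W] [DecidableEq W]

/-- The mirror image. -/
lemma NF.rev (n : P.NF U z v a B w b A) : P.rev.NF U z w b A v a B := by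
  have h := n.h4
  refine ⟨by rw [insert_comm]; exact h.swp, n.vw.symm, n.wU, n.vU, fun x y a1 a2 a3 => ?_, ?_, ?_, ?_⟩
  · have := n.sh x y a1 a2 a3
    simp only [PM.rev]
    rcases this with e | ⟨e1, e2, e⟩ | ⟨e1, e2, e⟩
    · exact Or.inl (by omega)
    · exact Or.inr (Or.inr ⟨e2, e1, by omega⟩)
    · exact Or.inr (Or.inl ⟨e2, e1, by omega⟩)
  · have : P.Ad v w := h.adRR P (by simp) (by simp) n.vw.symm
    simp only [PM.rev]; rw [this.sh, neg_neg, n.dvw]
  · simp only [PM.rev]; rw [(h.adab P).sh, neg_neg, n.dab]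
  · simp only [PM.rev]; rw [(h.adAB P).symm.sh, neg_neg, n.dBA]

lemma NF.cardU (n : P.NF U z v a B w b A) : U.card + 6 = k := by
  have := n.h4.cardR
  rw [card_insert_of_notMem (by simp [n.vw, n.vU]), card_insert_of_notMem n.wU] at this
  omega

end PM

end Pool.Agent.P.MP_3f5ded_co.UG
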