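import Pool.Agent.P.MP_3f5ded_co.EQF
import Pool.Agent.P.MP_3f5ded_co.CC0

set_option autoImplicit false

namespace Pool.Agent.P.MP_3f5ded_co.UG

open Finset

/-- A symmetric relation with few pairs and few triples that span exactly one pair has at most
one unordered pair. -/
lemma one_edge {W : Type} [DecidableEq W] {R : Finset W} {S : W → W → Prop} {N : W → W → W → ℤ}
    (sy : ∀ x y, S x y → S y x) (ir : ∀ x, ¬ S x x) (hn : 8 ≤ R.card)
    (h6 : ∑ y ∈ R, ∑ w ∈ R, ind (S y w) ≤ 6) (N0 : ∀ x y w, 0 ≤ N x y w)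
    (N1 : ∀ x y w, N y w x = N x y w)
    (N2 : ∀ x ∈ R, ∀ y ∈ R, ∀ w ∈ R, S y w → ¬ S x y → ¬ S x w → 1 ≤ N x y w)
    (hN : ∑ x ∈ R, ∑ y ∈ R, ∑ w ∈ R, N x y w ≤ 6 * R.card) {v w p q : W} (hv : v ∈ R) (hw : w ∈ R)
    (hp : p ∈ R) (hq : q ∈ R) (s1 : S v w) (s2 : S p q) : (p = v ∧ q = w) ∨ (p = w ∧ q = v) := by
  classical
  by_contra ne
  set G := (R ×ˢ R).filter fun e => S e.1 e.2 with hG
  have mem : ∀ x y, (x, y) ∈ G ↔ x ∈ R ∧ y ∈ R ∧ S x y := fun x y => by simp [hG, and_assoc]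
  have g6 : G.card ≤ 6 := by
    rw [← sum_product', sum_ind] at h6; exact_mod_cast h6
  have g4 : 4 ≤ G.card := by
    have vw : v ≠ w := fun e => ir v (e ▸ s1)
    have pq : p ≠ q := fun e => ir p (e ▸ s2)
    have : ({(v, w), (w, v), (p, q), (q, p)} : Finset (W × W)).card = 4 := by
      rw [card_insert_of_notMem (by simp; tauto), card_insert_of_notMem (by simp; tauto),
        card_pair (by simp; tauto)]
    rw [← this]
    refine card_le_card fun e he => ?_
    simp only [mem_insert, mem_singleton] at he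
    rcases he with rfl | rfl | rfl | rfl <;> rw [mem]
    exacts [⟨hv, hw, s1⟩, ⟨hw, hv, sy _ _ s1⟩, ⟨hp, hq, s2⟩, ⟨hq, hp, sy _ _ s2⟩]
  have bad : ∀ e ∈ G, 2 * (R.filter fun x => S x e.1 ∨ S x e.2).card ≤ G.card + 2 := by
    rintro ⟨y, w⟩ he
    rw [mem] at he
    have a1 : (R.filter fun x => S x y ∨ S x w).card ≤ (G.filter fun e => e.2 = y ∨ e.2 = w).card :=
      card_le_card_of_surjOn Prod.fst fun x hx => by
        simp only [coe_filter, Set.mem_ofPred_eq] at hx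
        rcases hx.2 with g | g
        · exact ⟨(x, y), by simp [mem, hx.1, he.1, g], rfl⟩
        · exact ⟨(x, w), by simp [mem, hx.1, he.2.1, g], rfl⟩
    have a2 : (R.filter fun x => S x y ∨ S x w).card ≤ (G.filter fun e => e.1 = y ∨ e.1 = w).card :=
      card_le_card_of_surjOn Prod.snd fun x hx => by
        simp only [coe_filter, Set.mem_ofPred_eq] at hx
        rcases hx.2 with g | g
        · exact ⟨(y, x), by simp [mem, hx.1, he.1, sy _ _ g], rfl⟩
        · exact ⟨(w, x), by simp [mem, hx.1, he.2.1, sy _ _ g], rfl⟩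
    have a3 := card_union_add_card_inter (G.filter fun e => e.2 = y ∨ e.2 = w)
      (G.filter fun e => e.1 = y ∨ e.1 = w)
    have a4 := card_le_card (union_subset (filter_subset (fun e => e.2 = y ∨ e.2 = w) G)
      (filter_subset (fun e => e.1 = y ∨ e.1 = w) G))
    have a5 : ((G.filter fun e => e.2 = y ∨ e.2 = w) ∩ G.filter fun e => e.1 = y ∨ e.1 = w).card ≤
        2 := (card_le_card (t := {(y, w), (w, y)}) (by
      rintro ⟨c, d⟩ h
      simp only [mem_inter, mem_filter, mem, mem_insert, mem_singleton, Prod.mk.injEq] at h ⊢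
      have : c ≠ d := fun e => ir c (e ▸ h.1.1.2.2)
      grind)).trans card_le_two
    simp only
    omega
  let M : W → W → W → ℤ := fun x y w => ind (S y w ∧ ¬ S x y ∧ ¬ S x w)
  have m1 : ∀ x ∈ R, ∀ y ∈ R, ∀ w ∈ R, M x y w + M y w x + M w x y ≤ N x y w :=
    fun x hx y hy w hw => by
    have a := ind_cases (S y w ∧ ¬ S x y ∧ ¬ S x w)
    have b := ind_cases (S w x ∧ ¬ S y w ∧ ¬ S y x)
    have c := ind_cases (S x y ∧ ¬ S w x ∧ ¬ S w y)
    have := N0 x y w
    have := N2 x hx y hy w hw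
    have := N1 x y w ▸ N2 y hy w hw x hx
    have := N1 x y w ▸ N1 y w x ▸ N2 w hw x hx y hy
    have := sy w y
    have := sy y w
    have := sy x w
    have := sy w x
    simp only [M]
    grind
  have m2 := sum_le_sum fun x hx => sum_le_sum fun y hy => sum_le_sum fun w hw => m1 x hx y hy w hw
  simp only [sum_add_distrib] at m2
  have e1 : ∑ x ∈ R, ∑ y ∈ R, ∑ w ∈ R, M w x y = ∑ x ∈ R, ∑ y ∈ R, ∑ w ∈ R, M x y w :=
    (sum_congr rfl fun _ _ => sum_comm).trans sum_comm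
  have e2 : ∑ x ∈ R, ∑ y ∈ R, ∑ w ∈ R, M y w x = ∑ x ∈ R, ∑ y ∈ R, ∑ w ∈ R, M x y w :=
    sum_comm.trans (sum_congr rfl fun _ _ => sum_comm)
  have m3 : (G.card : ℤ) * (2 * R.card - G.card - 2) ≤ 2 * ∑ x ∈ R, ∑ y ∈ R, ∑ w ∈ R, M w x y := by
    rw [← sum_product', mul_sum, ← nsmul_eq_mul, ← sum_const]
    refine (sum_le_sum fun e he => ?_).trans (sum_le_sum_of_subset_of_nonneg (filter_subset _ _)
      fun e _ _ => mul_nonneg (by norm_num) (sum_nonneg fun _ _ => ind_nonneg _))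
    have b := bad e he
    have c := card_filter_add_card_filter_not (s := R) fun x => S x e.1 ∨ S x e.2
    have s : S e.1 e.2 := (mem_filter.1 he).2
    have d : ∑ w ∈ R, M w e.1 e.2 = (R.filter fun x => ¬ (S x e.1 ∨ S x e.2)).card := by
      rw [sum_ind]; congr 2; ext; simp [s]
    omega
  rw [e1] at m3
  rw [e1, e2] at m2
  have n8 : (8 : ℤ) ≤ R.card := by exact_mod_cast hn
  have : G.card = 4 ∨ G.card = 5 ∨ G.card = 6 := by omega
  rcases this with g | g | g <;> rw [g] at m3 <;> push_cast at m3 <;> omega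

namespace PM
variable {W : Type} {k : ℕ} {r : ℝ} {Fe : W → W → Prop} (P : PM W k r Fe)

lemma relift_mu (j : W → ℤ) (x y c : W) : (P.relift j).mu x y c = P.mu x y c := by
  simp only [mu, relift]; ring

lemma relift_sh (j : W → ℤ) {x y c : W} : (P.relift j).Sh x y c ↔ P.Sh x y c :=
  ⟨fun h => ⟨h.a1, h.a2, h.a3, (P.relift_mu j x y c).symm.trans h.e⟩,
    fun h => ⟨h.a1, h.a2, h.a3, (P.relift_mu j x y c).trans h.e⟩⟩

/-- The clique `R` is wound by the single edge `v w`. -/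
structure Wd [DecidableEq W] (R U : Finset W) (v w : W) : Prop where
  eq : R = insert v (insert w U)
  vw : v ≠ w
  vU : v ∉ U
  wU : w ∉ U
  one : P.sh v w = 1
  zero : ∀ x ∈ R, ∀ y ∈ U, y ≠ x → P.sh x y = 0 ∧ P.sh y x = 0

variable (z a A b B : W)

/-- The loss that belongs to one vertex `u` and the shifted edge `v w`. -/
noncomputable def L1 (v w u : W) : ℤ :=
  (P.Phi1 z a A b B u + 1) + P.Phi2 z a A b B u v + P.Phi2 z a A b B u w +
    (P.Phi3 z a A b B u v w - 1)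

/-- The loss that belongs to two vertices `x, y` and the shifted edge `v w`. -/
noncomputable def L2 (v w x y : W) : ℤ :=
  P.Phi2 z a A b B x y + P.Phi3 z a A b B x y v + P.Phi3 z a A b B x y w + P.K4 x y v w

/-- The loss that belongs to the shifted edge `v w` alone. -/
noncomputable def L0 (v w : W) : ℤ :=
  (P.Phi1 z a A b B v + 1) + (P.Phi1 z a A b B w + 1) + P.Phi2 z a A b B v w

lemma phi1_swa (u : W) : P.Phi1 z A a b B u = P.Phi1 z a A b B u := by
  unfold Phi1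
  rw [P.K4_23 u a A b, P.K4_23 u a A B]
  ring

lemma phi2_swa (x y : W) : P.Phi2 z A a b B x y = P.Phi2 z a A b B x y := by
  unfold Phi2
  rw [P.K4_34 x y a A]
  ring

lemma phi2_swb (x y : W) : P.Phi2 z a A B b x y = P.Phi2 z a A b B x y := by
  unfold Phi2
  rw [P.K4_34 x y b B]
  ring

lemma phi2_swp (x y : W) : P.Phi2 z b B a A x y = P.Phi2 z a A b B x y := by
  unfold Phi2
  rw [P.K4_34 x y a b, P.K4_34 x y A b, P.K4_34 x y a B, P.K4_34 x y A B]
  ring

lemma phi3_12 (x y w : W) : P.Phi3 z a A b B y x w = P.Phi3 z a A b B x y w := by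
  simp only [Phi3, P.K4_12 x y, P.J3_swap z x y]

lemma phi3_23 (x y w : W) : P.Phi3 z a A b B x w y = P.Phi3 z a A b B x y w := by
  simp only [Phi3, P.K4_23 x y w, P.J3_swap' z x y w]

lemma phi2_rep (x : W) : P.Phi2 z a A b B x x = 0 := by
  have n : ¬ P.Ad x x := fun g => g.1 rfl
  simp only [Phi2, K4_rep, J3_zero n, add_zero]

lemma phi3_rep (x y : W) : P.Phi3 z a A b B x x y = 0 := by
  have n : ¬ P.Ad x x := fun g => g.1 rfl
  simp only [Phi3, K4_rep, J3_zero n, add_zero]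

variable {P} {p q s d : W}

lemma K4_four (h1 : P.Sh p q s) (h2 : P.Sh p s d) (h3 : P.Sh p q d) (h4 : P.Sh q s d) :
    2 ≤ P.K4 p q s d := by
  have e1 := twin h1 h3 h2.a2.1.symm
  have e2 := anti h2 h1.rot.rot
  have e3 := twin h2.rot.rot h3.rot.rot h1.a2.1
  have e4 := twin h1.rot h4 h2.a3.1
  have e5 := anti h3.rot h4.rot.rot
  have e6 := twin h2.rot h4.rot h1.a1.1.symm
  rw [K4, f4, f4, f4, f4, g4_pos h1 h2.a3.1.symm h3.a2.1 h2.a2.1, g4_neg h1.not_swap,
    g4_pos h3 h1.a3.1.symm h1.a2.1 h2.a2.1.symm, g4_neg h3.not_swap,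
    g4_pos h2 h1.a1.1 h1.a2.1.symm h3.a2.1.symm, g4_neg h2.not_swap,
    g4_pos h4 h1.a1.1.symm h1.a3.1 h2.a3.1, g4_neg h4.not_swap]
  unfold met
  omega

/-- An edge that is split by two partners. -/
lemma pair_both {x y c : W} (h : ¬ P.Ad c d) (e : d ≠ c) (h1 : P.Ad x y) (h2 : P.Ad y c)
    (h3 : P.Ad c x) (h4 : P.Ad y d) (h5 : P.Ad d x) (m1 : P.mu x y c ≠ 0) (m2 : P.mu x y d ≠ 0)
    (z : W) : 2 ≤ P.K4 x y c d + P.J3 z x y c + P.J3 z x y d := by
  rw [K4_miss h]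
  have p := f4_pair h1 h2 h3 h4 h5 e m1 m2
  have := P.met_nonneg x y c z
  have := P.met_nonneg y x c z
  have := P.met_nonneg x y d z
  have := P.met_nonneg y x d z
  rcases J3_cases h1 h2 h3 z with a' | ⟨a', -, a2⟩ | ⟨a', -, a2⟩ <;>
    rcases J3_cases h1 h4 h5 z with b' | ⟨b', -, b2⟩ | ⟨b', -, b2⟩ <;> omega

end PM

namespace St
open PM
variable {W : Type} [Fintype W] [DecidableEq W] {k : ℕ} {r : ℝ} {Fe : W → W → Prop}
  {z a A b B : W} {R U : Finset W} (h : St k Fe z a A b B R) {x y u v w : W}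
include h

omit [DecidableEq W] in
lemma J3_le (P : PM W k r Fe) : ∑ x ∈ R, ∑ y ∈ R, ∑ w ∈ R, P.J3 z x y w ≤ 6 * R.card := by
  have c := h.count_le P
  have c2 : 0 ≤ ∑ x ∈ R, ∑ y ∈ R, P.Phi2 z a A b B x y :=
    sum_nonneg fun x hx => sum_nonneg fun y hy => h.Phi2_nonneg P hx hy
  have c1 := card_nsmul_le_sum R (P.Phi1 z a A b B) (-1) fun u hu => (h.phi1_row hu).1
  simp only [nsmul_eq_mul] at c1
  linarith

omit [Fintype W] [DecidableEq W] in
lemma J3_pos (P : PM W k r Fe) (hx : x ∈ R) (hy : y ∈ R) (hw : w ∈ R) (e1 : y ≠ x) (e2 : w ≠ y)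
    (e3 : x ≠ w) (m : P.mu x y w ≠ 0) : 1 ≤ P.J3 z x y w := by
  have := P.met_nonneg x y w z
  have := P.met_nonneg y x w z
  rcases J3_cases (h.adR P hx hy e1) (h.adR P hy hw e2) (h.adR P hw hx e3) z with g | g | g <;> omega

/-- A wound clique is wound by one edge. -/
theorem exists_wd (hk : 12 ≤ k) (P : PM W k r Fe) (n : ¬ P.NoSh R) :
    ∃ j U v w, (P.relift j).Wd R U v w := by
  have cR := h.card
  obtain ⟨o, ho, h6⟩ : ∃ o ∈ R, ∑ y ∈ R, ∑ w ∈ R, P.J3 z o y w ≤ 6 :=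
    exists_le_of_sum_le (card_pos.1 (by omega)) (by
      rw [sum_const, nsmul_eq_mul, mul_comm]; exact h.J3_le P)
  let j : W → ℤ := fun x => if x = o then 0 else P.sh o x
  have z0 : ∀ x ∈ R, x ≠ o → (P.relift j).sh o x = 0 ∧ (P.relift j).sh x o = 0 := fun x hx e => by
    have := (h.adR P ho hx e).sh
    simp only [relift, j, e, if_true, if_false]
    omega
  generalize hQ : P.relift j = Q at z0
  have mu : ∀ x y c, P.mu x y c = Q.mu x y c := fun x y c => hQ ▸ (P.relift_mu j x y c).symm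
  let S : W → W → Prop := fun x y => x ∈ R ∧ y ∈ R ∧ y ≠ x ∧ Q.sh x y ≠ 0
  have sy : ∀ x y, S x y → S y x := fun x y s =>
    ⟨s.2.1, s.1, s.2.2.1.symm, by rw [(h.adR Q s.1 s.2.1 s.2.2.1).sh]; exact neg_ne_zero.2 s.2.2.2⟩
  have N2 : ∀ x ∈ R, ∀ y ∈ R, ∀ w ∈ R, S y w → ¬ S x y → ¬ S x w → 1 ≤ P.J3 z x y w :=
    fun x hx y hy w hw s n1 n2 => by
    have e1 : y ≠ x := fun e => n2 (e ▸ s)
    have e3 : x ≠ w := fun e => n1 (e ▸ sy _ _ s)
    refine h.J3_pos P hx hy hw e1 s.2.2.1 e3 ?_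
    have a1 : Q.sh x y = 0 := by_contra fun g => n1 ⟨hx, hy, e1, g⟩
    have a2 : Q.sh w x = 0 := by_contra fun g => n2 (sy _ _ ⟨hw, hx, e3, g⟩)
    rw [mu, PM.mu, a1, a2]
    simpa using s.2.2.2
  have no : ∀ x, ¬ S o x := fun x s => s.2.2.2 (z0 x s.2.1 s.2.2.1).1
  have key := fun v w p q => @one_edge W _ R S (P.J3 z) sy (fun x s => s.2.2.1 rfl) (by omega)
    ((sum_le_sum fun y hy => sum_le_sum fun w hw => by
      rcases ind_cases (S y w) with g | g
      · rw [g.2]; exact N2 o ho y hy w hw g.1 (no y) (no w)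
      · rw [g.2]; exact P.J3_nonneg _ _ _ _).trans h6)
    (P.J3_nonneg z) (P.J3_rot z) N2 (h.J3_le P) v w p q
  have fin : ∀ v w, S v w → Q.sh v w = 1 → ∃ U, Q.Wd R U v w := fun v w s e => by
    refine ⟨(R.erase v).erase w, ?_, s.2.2.1.symm, by simp, by simp, e, fun x hx y hy n => ?_⟩
    · rw [insert_erase (mem_erase.2 ⟨s.2.2.1, s.2.1⟩), insert_erase s.1]
    · simp only [mem_erase] at hy
      have : Q.sh x y = 0 := by_contra fun g => by
        have := key v w x y s.1 s.2.1 hx hy.2.2 s ⟨hx, hy.2.2, n, g⟩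
        tauto
      exact ⟨this, by rw [(h.adR Q hx hy.2.2 n).sh, this]; rfl⟩
  obtain ⟨v, w, s⟩ : ∃ v w, S v w := by
    by_contra c
    push Not at c
    refine n fun x hx y hy c' hc s => ?_
    have a1 : Q.sh x y = 0 := by_contra fun g => c _ _ ⟨hx, hy, s.a1.1, g⟩
    have a2 : Q.sh y c' = 0 := by_contra fun g => c _ _ ⟨hy, hc, s.a2.1, g⟩
    have a3 : Q.sh c' x = 0 := by_contra fun g => c _ _ ⟨hc, hx, s.a3.1, g⟩
    have := s.e
    rw [mu, PM.mu] at this
    omega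
  have vo : v ≠ o := fun e => no w (e ▸ s)
  have wo : w ≠ o := fun e => no v (e ▸ sy _ _ s)
  have m := mu_cases (h.adR Q ho s.1 vo) (h.adR Q s.1 s.2.1 s.2.2.1) (h.adR Q s.2.1 ho wo.symm)
  rw [PM.mu, (z0 v s.1 vo).1, (z0 w s.2.1 wo).2] at m
  have := s.2.2.2
  have := (h.adR Q s.1 s.2.1 s.2.2.1).sh
  subst hQ
  rcases m with m | m | m
  · obtain ⟨U, g⟩ := fin w v (sy _ _ s) (by omega)
    exact ⟨j, U, w, v, g⟩
  · omega
  · obtain ⟨U, g⟩ := fin v w s (by omega)
    exact ⟨j, U, v, w, g⟩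

/-- The count, grouped round the two vertices `v` and `w`: the loss is at most two. -/
theorem loss (P : PM W k r Fe) (e : R = insert v (insert w U)) (vw : v ≠ w) (vU : v ∉ U)
    (wU : w ∉ U) : 2 * P.L0 z a A b B v w + 2 * ∑ u ∈ U, P.L1 z a A b B v w u +
      ∑ x ∈ U, ∑ y ∈ U, P.L2 z a A b B v w x y ≤ 4 := by
  cases Subsingleton.elim ‹DecidableEq W› fun a b => Classical.propDecidable (a = b)
  classical
  have c := h.count P
  have e' : R = U ∪ {v, w} := by rw [e]; ext; simp only [mem_insert, mem_union, mem_singleton]; tauto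
  have d : Disjoint U {v, w} := by simp [vU, wU]
  have sub : ∀ x ∈ U, x ∈ R := fun x hx => e' ▸ mem_union_left _ hx
  have hv : v ∈ R := by simp [e]
  have hw : w ∈ R := by simp [e]
  have p1 : 0 ≤ ∑ x ∈ U, ∑ y ∈ U, ∑ c ∈ U, ∑ d ∈ U, P.K4 x y c d :=
    sum_nonneg fun x hx => sum_nonneg fun y hy => sum_nonneg fun c hc => sum_nonneg fun d hd =>
      h.K4R_nonneg P (sub x hx) (sub y hy) (sub c hc) (sub d hd)
  have p2 : ∀ d ∈ R, 0 ≤ ∑ x ∈ U, ∑ y ∈ U, ∑ c ∈ U, P.K4 x y c d := fun d hd =>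
    sum_nonneg fun x hx => sum_nonneg fun y hy => sum_nonneg fun c hc =>
      h.K4R_nonneg P (sub x hx) (sub y hy) (sub c hc) hd
  have p3 : 0 ≤ ∑ x ∈ U, ∑ y ∈ U, ∑ c ∈ U, P.Phi3 z a A b B x y c :=
    sum_nonneg fun x hx => sum_nonneg fun y hy => sum_nonneg fun c hc =>
      h.Phi3_nonneg P (sub x hx) (sub y hy) (sub c hc)
  have p4 := p2 v hv
  have p5 := p2 w hw
  have k23 : ∀ u x y : W, P.K4 u x x y = 0 := fun u x y => by rw [K4_12, K4_23, K4_rep]
  have k34 : ∀ u x y : W, P.K4 u x y y = 0 := fun u x y => by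
    rw [K4_23, K4_12, K4_34, K4_23, K4_rep]
  have k24 : ∀ u x y : W, P.K4 u x y x = 0 := fun u x y => by rw [K4_34, k23]
  have f23 : ∀ u x : W, P.Phi3 z a A b B u x x = 0 := fun u x => by
    rw [phi3_12, phi3_23, phi3_rep]
  have f13 : ∀ u x : W, P.Phi3 z a A b B x u x = 0 := fun u x => by rw [phi3_23, phi3_rep]
  conv at c => lhs; rw [e']
  rw [sum_sym4 _ _ _ P.K4_12 P.K4_23 P.K4_34 d,
    sum_sym3 _ _ _ (P.phi3_12 z a A b B) (P.phi3_23 z a A b B) d,
    sum_sym2 _ _ _ (fun x y => phi2_comm x y) d, sum_union d] at c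
  simp only [sum_pair vw, k23, k34, k24, phi3_rep, phi2_rep, f23, f13, add_zero,
    zero_add, sum_const_zero, sum_add_distrib, P.K4_34 _ _ v w, P.phi3_23 z a A b B _ v w,
    phi2_comm (P := P) v w] at c
  simp only [L0, L1, L2, sum_add_distrib, sum_sub_distrib]
  linarith

omit [Fintype W] in
lemma L_nonneg {P : PM W k r Fe} (d : P.Wd R U v w) : 0 ≤ P.L0 z a A b B v w ∧
    (∀ u ∈ U, 0 ≤ P.Phi1 z a A b B u + 1 ∧ 0 ≤ P.Phi2 z a A b B u v ∧ 0 ≤ P.Phi2 z a A b B u w ∧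
      P.Sh u v w ∧ 1 ≤ P.J3 z u v w ∧ P.J3 z u v w ≤ P.Phi3 z a A b B u v w) ∧
    ∀ x ∈ U, ∀ y ∈ U, 0 ≤ P.L2 z a A b B v w x y := by
  have hv : v ∈ R := by simp [d.eq]
  have hw : w ∈ R := by simp [d.eq]
  have sub : ∀ x ∈ U, x ∈ R := fun x hx => by simp [d.eq, hx]
  refine ⟨?_, fun u hu => ?_, fun x hx y hy => ?_⟩
  · have := (h.phi1_row (P := P) hv).1
    have := (h.phi1_row (P := P) hw).1
    have := h.Phi2_nonneg P hv hw
    unfold L0; omega
  · have n1 : u ≠ v := fun e => d.vU (e ▸ hu)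
    have n2 : u ≠ w := fun e => d.wU (e ▸ hu)
    have m : P.mu u v w = 1 := by
      rw [PM.mu, (d.zero v hv u hu n1).2, (d.zero w hw u hu n2).1, d.one]; rfl
    have := (h.phi1_row (P := P) (sub u hu)).1
    exact ⟨by omega, h.Phi2_nonneg P (sub u hu) hv, h.Phi2_nonneg P (sub u hu) hw,
      ⟨h.adR P (sub u hu) hv n1.symm, h.adR P hv hw d.vw.symm, h.adR P hw (sub u hu) n2, m⟩,
      h.J3_pos P (sub u hu) hv hw n1.symm d.vw.symm n2 (by omega),
      h.J3_le_Phi3 P (sub u hu) hv hw⟩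
  · have := h.Phi2_nonneg P (sub x hx) (sub y hy)
    have := h.Phi3_nonneg P (sub x hx) (sub y hy) hv
    have := h.Phi3_nonneg P (sub x hx) (sub y hy) hw
    have := h.K4R_nonneg P (sub x hx) (sub y hy) hv hw
    unfold L2; omega

/-- Some vertex of `U` outside a set of three has no loss with the shifted edge. -/
lemma exists_clean (hk : 12 ≤ k) {P : PM W k r Fe} (d : P.Wd R U v w) (X : Finset W)
    (hX : X.card ≤ 3) : ∃ u ∈ U, u ∉ X ∧ P.L1 z a A b B v w u = 0 := by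
  have l := h.loss P d.eq d.vw d.vU d.wU
  obtain ⟨l0, l1, l2⟩ := h.L_nonneg d
  have p : ∀ u ∈ U, 0 ≤ P.L1 z a A b B v w u := fun u hu => by
    have := l1 u hu; unfold L1; omega
  have := sum_nonneg fun x hx => sum_nonneg fun y hy => l2 x hx y hy
  have cU : U.card + 6 = k := by
    have := h.card
    rw [d.eq, card_insert_of_notMem (by simp [d.vw, d.vU]), card_insert_of_notMem d.wU] at this
    omega
  by_contra c
  push Not at c
  have a1 := card_nsmul_le_sum (U \ X) (fun u => P.L1 z a A b B v w u) 1 fun u hu => by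
    have := c u (mem_sdiff.1 hu).1 (mem_sdiff.1 hu).2
    have := p u (mem_sdiff.1 hu).1
    omega
  have a2 := sum_le_sum_of_subset_of_nonneg (f := P.L1 z a A b B v w) (sdiff_subset (s := U) (t := X))
    fun u hu _ => p u hu
  have a3 := le_card_sdiff X U
  simp only [nsmul_eq_mul, mul_one] at a1
  omega

omit [Fintype W] in
/-- A clean vertex `u` that is level with the special vertex `a`: at most one of the edges `v a`
and `a w` is shifted, and forwards. -/
lemma clean_a {P : PM W k r Fe} (d : P.Wd R U v w) (hu : u ∈ U) (k4 : P.K4 u v w a ≤ 1)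
    (e : P.sh a u = 0) : (P.sh v a = 0 ∧ P.sh a w = 0) ∨ (P.sh v a = 1 ∧ P.sh a w = 0) ∨
      (P.sh v a = 0 ∧ P.sh a w = 1) := by
  have hv : v ∈ R := by simp [d.eq]
  have hw : w ∈ R := by simp [d.eq]
  have hu' : u ∈ R := by simp [d.eq, hu]
  have s := ((h.L_nonneg d).2.1 u hu).2.2.2.1
  have z1 := d.zero v hv u hu s.a1.1.symm
  have z2 := d.zero w hw u hu s.a3.1
  have o := d.one
  have ua := h.ada P hu'
  have va := h.ada P hv
  have wa := h.ada P hw
  have := ua.sh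
  have := va.sh
  have := wa.sh
  have := s.a2.sh
  have c1 := mu_cases s.a1 va ua.symm
  have c2 := mu_cases ua wa.symm s.a3
  have c3 := mu_cases va wa.symm s.a2.symm
  by_contra g
  unfold PM.mu at c1 c2 c3
  have : (P.sh v a = 1 ∧ P.sh a w = 1) ∨ (P.sh v a = 1 ∧ P.sh a w = -1) ∨
      (P.sh v a = -1 ∧ P.sh a w = 1) := by omega
  rcases this with t | t | t
  · have := K4_four (p := u) (q := v) (s := a) (d := w) ⟨s.a1, va, ua.symm, by unfold PM.mu; omega⟩
      ⟨ua, wa.symm, s.a3, by unfold PM.mu; omega⟩ s ⟨va, wa.symm, s.a2.symm, by unfold PM.mu; omega⟩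
    rw [K4_34] at this; omega
  · have := K4_four (p := u) (q := v) (s := w) (d := a) s
      ⟨s.a3.symm, wa, ua.symm, by unfold PM.mu; have := s.a3.sh; omega⟩
      ⟨s.a1, va, ua.symm, by unfold PM.mu; omega⟩ ⟨s.a2, wa, va.symm, by unfold PM.mu; omega⟩
    omega
  · have := K4_four (p := u) (q := a) (s := v) (d := w) ⟨ua, va.symm, s.a1.symm, by unfold PM.mu; omega⟩
      s ⟨ua, wa.symm, s.a3, by unfold PM.mu; omega⟩ ⟨va.symm, s.a2, wa, by unfold PM.mu; omega⟩
    rw [K4_23, K4_34] at this; omega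

end St

namespace H4
open PM
variable {W : Type} [Fintype W] [DecidableEq W] {k : ℕ} {r : ℝ} {Fe : W → W → Prop}
  {z a A b B : W} {R U : Finset W} (h : H4 k Fe R z a A b B) {P : PM W k r Fe} {u v w : W}
include h

/-- The normal form, when the names are chosen. -/
lemma nf_named (d : P.Wd R U v w) (hu : u ∈ U) (cl : P.L1 z a A b B v w u = 0)
    (lv : ∀ x ∈ U, P.sh a x = 0 ∧ P.sh A x = 0 ∧ P.sh b x = 0 ∧ P.sh B x = 0)
    (m1 : P.sh a b = 1) (m2 : P.sh a B = 0) (m3 : P.sh A b = 0) (m4 : P.sh A B = 0) :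
    P.NF U z v a B w b A := by
  have s := h.st
  have hv : v ∈ R := by simp [d.eq]
  have hw : w ∈ R := by simp [d.eq]
  have sub : ∀ x ∈ U, x ∈ R := fun x hx => by simp [d.eq, hx]
  have hu' := sub u hu
  obtain ⟨l1, l2, l3, t, l4, l5⟩ := (s.L_nonneg d).2.1 u hu
  have z1 := d.zero v hv u hu t.a1.1.symm
  have z2 := d.zero w hw u hu t.a3.1
  have q1 := s.K4a_nonneg P hu' hv hw
  have q2 := s.swapA.K4a_nonneg P hu' hv hw
  have q3 := s.swapP.K4a_nonneg P hu' hv hw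
  have q4 := s.swapP.swapA.K4a_nonneg P hu' hv hw
  unfold L1 at cl
  have e3 : P.Phi3 z a A b B u v w = P.J3 z u v w := by omega
  unfold Phi3 at e3
  obtain ⟨u1, u2, u3, u4⟩ := lv u hu
  have c1 := s.clean_a d hu (by omega) u1
  have c2 := s.swapA.clean_a d hu (by omega) u2
  have c3 := s.swapP.clean_a d hu (by omega) u3
  have c4 := s.swapP.swapA.clean_a d hu (by omega) u4
  have pv := s.phi2_parts (P := P) hu' hv t.a1.1
  have pw := s.phi2_parts (P := P) hu' hw t.a3.1.symm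
  have ev : P.Phi2 z a A b B u v = 0 := by omega
  have ew : P.Phi2 z a A b B u w = 0 := by omega
  have ab := s.adab P
  have aB := s.adaB P
  have Ab := s.adAb P
  have AB := s.adAB P
  have ua := s.ada P hu'
  have uA := s.adA P hu'
  have ub := s.adb P hu'
  have uB := s.adB P hu'
  have va := s.ada P hv
  have vA := s.adA P hv
  have vb := s.adb P hv
  have vB := s.adB P hv
  have wa := s.ada P hw
  have wA := s.adA P hw
  have wb := s.adb P hw
  have wB := s.adB P hw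
  have h1 := And.intro ab.sh (And.intro aB.sh (And.intro Ab.sh AB.sh))
  have h2 := And.intro ua.sh (And.intro uA.sh (And.intro ub.sh uB.sh))
  have h3 := And.intro va.sh (And.intro vA.sh (And.intro vb.sh vB.sh))
  have h4 := And.intro wa.sh (And.intro wA.sh (And.intro wb.sh wB.sh))
  have sab : P.Sh u a b := ⟨ua, ab, ub.symm, by unfold PM.mu; omega⟩
  have n1 : P.sh v a = 0 := by
    by_contra g
    have := mu_le va ab vb.symm
    unfold PM.mu at this
    have := K4_four (p := u) (q := v) (s := a) (d := b) ⟨t.a1, va, ua.symm, by unfold PM.mu; omega⟩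
      sab ⟨t.a1, vb, ub.symm, by unfold PM.mu; omega⟩ ⟨va, ab, vb.symm, by unfold PM.mu; omega⟩
    unfold Phi2 at ev; omega
  have n2 : P.sh b w = 0 := by
    by_contra g
    have := mu_le ab wb.symm wa
    unfold PM.mu at this
    have := K4_four (p := u) (q := a) (s := b) (d := w) sab ⟨ub, wb.symm, t.a3, by unfold PM.mu; omega⟩
      ⟨ua, wa.symm, t.a3, by unfold PM.mu; omega⟩ ⟨ab, wb.symm, wa, by unfold PM.mu; omega⟩
    rw [K4_34, K4_23] at this
    unfold Phi2 at ew; omega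
  have n3 : P.sh v B = 0 := by
    by_contra g
    have g' : P.sh v b = 0 := by
      by_contra g'
      have := pair_both (s.nbB P) s.bB.symm t.a1 vb ub.symm vB uB.symm (by unfold PM.mu; omega)
        (by unfold PM.mu; omega) z
      unfold Phi2 at ev; omega
    have := s.swapA.swapB.phi2_P2' hv hu' ⟨uB.symm, t.a1, vB, by unfold PM.mu; omega⟩
      ⟨aB.symm, va.symm, vB, by unfold PM.mu; omega⟩ sab.rot
      ⟨ab, vb.symm, va, by unfold PM.mu; omega⟩
    rw [phi2_swb, phi2_swa, St.phi2_comm] at this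
    omega
  have n4 : P.sh A w = 0 := by
    by_contra g
    have g' : P.sh a w = 0 := by
      by_contra g'
      have := pair_both (s.naA P) s.aA.symm t.a3.symm wa ua.symm wA uA.symm (by unfold PM.mu; omega)
        (by unfold PM.mu; omega) z
      unfold Phi2 at ew; omega
    have := s.swapA.swapB.phi2_P2 hw hu' ⟨wA.symm, t.a3, uA, by unfold PM.mu; omega⟩
      ⟨wA.symm, wb, Ab.symm, by unfold PM.mu; omega⟩ sab.rot
      ⟨ab, wb.symm, wa, by unfold PM.mu; omega⟩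
    rw [phi2_swb, phi2_swa, St.phi2_comm] at this
    omega
  have o := d.one
  have o' := t.a2.sh
  refine ⟨d.eq ▸ h, d.vw, d.vU, d.wU, fun x y xz yz xy => ?_, d.one, m1, by omega⟩
  have all : ∀ x, x ≠ z → x = a ∨ x = A ∨ x = b ∨ x = B ∨ x = v ∨ x = w ∨ x ∈ U := fun x e => by
    have := s.all x
    rw [d.eq] at this
    simpa [e] using this
  have zU : ∀ x y, x ≠ z → y ∈ U → P.Ad x y → P.sh x y = 0 := fun x y xz hy xy => by
    have := lv y hy
    rcases all x xz with rfl | rfl | rfl | rfl | rfl | rfl | hx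
    exacts [this.1, this.2.1, this.2.2.1, this.2.2.2, (d.zero _ hv y hy xy.1).1,
      (d.zero _ hw y hy xy.1).1, (d.zero _ (sub x hx) y hy xy.1).1]
  by_cases hy : y ∈ U
  · exact Or.inl (zU x y xz hy xy)
  by_cases hx : x ∈ U
  · exact Or.inl (by rw [xy.symm.sh, zU y x yz hx xy.symm]; rfl)
  have na := s.naA P
  have nb := s.nbB P
  clear cl e3 pv pw ev ew q1 q2 q3 q4 l1 l2 l3 l4 l5 h2 z1 z2 u1 u2 u3 u4
  rcases all x xz with rfl | rfl | rfl | rfl | rfl | rfl | hx' <;>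
    rcases all y yz with rfl | rfl | rfl | rfl | rfl | rfl | hy'
  all_goals first
    | exact absurd hx' hx | exact absurd hy' hy | exact absurd rfl xy.1 | exact absurd xy na
    | exact absurd xy nb | exact absurd xy.symm na | exact absurd xy.symm nb
    | exact Or.inl (by omega)
    | (simp only [true_or, or_true, true_and]; omega)

/-- If no special vertex splits `U`, the colouring has the normal form of case C. -/
theorem nf_unsplit (d : P.Wd R U v w) (na : ¬ P.Spl U a) (nA : ¬ P.Spl U A) (nb : ¬ P.Spl U b)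
    (nB : ¬ P.Spl U B) : ∃ j a' A' b' B', (P.relift j).NF U z v a' B' w b' A' := by
  have s := h.st
  have sub : ∀ x ∈ U, x ∈ R := fun x hx => by simp [d.eq, hx]
  obtain ⟨o, ho, -⟩ := s.exists_clean h.big d ∅ (by simp)
  let j : W → ℤ := fun x => if x ∈ R then 0 else -P.sh x o
  have d' : (P.relift j).Wd R U v w := by
    have hv : v ∈ R := by simp [d.eq]
    have hw : w ∈ R := by simp [d.eq]
    refine ⟨d.eq, d.vw, d.vU, d.wU, by simp [relift, j, hv, hw, d.one], fun x hx y hy e => ?_⟩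
    simpa [relift, j, hx, sub y hy] using d.zero x hx y hy e
  have lv : ∀ c, c ∉ R → (∀ x ∈ R, P.Ad x c) → ¬ P.Spl U c → ∀ x ∈ U, (P.relift j).sh c x = 0 :=
    fun c hc ad n x hx => by
    simp only [relift, j, hc, sub x hx, if_true, if_false]
    by_cases e : x = o
    · rw [e]; ring
    have xo := s.adR P (sub x hx) (sub o ho) (Ne.symm e)
    have z0 := d.zero x (sub x hx) o ho (Ne.symm e)
    have a1 := (ad x (sub x hx)).sh
    have a2 := (ad o (sub o ho)).sh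
    rcases mu_cases (ad x (sub x hx)).symm xo (ad o (sub o ho)) with g | g | g
    · exact absurd ⟨o, ho, x, hx, (ad o (sub o ho)).symm, xo.symm, ad x (sub x hx), by
        unfold PM.mu at *; omega⟩ n
    · unfold PM.mu at g; omega
    · exact absurd ⟨x, hx, o, ho, (ad x (sub x hx)).symm, xo, ad o (sub o ho), g⟩ n
  have l1 := lv a s.aR (fun x hx => s.ada P hx) na
  have l2 := lv A s.AR (fun x hx => s.adA P hx) nA
  have l3 := lv b s.bR (fun x hx => s.adb P hx) nb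
  have l4 := lv B s.BR (fun x hx => s.adB P hx) nB
  refine ⟨j, ?_⟩
  generalize P.relift j = Q at *
  obtain ⟨u, hu, -, cl⟩ := s.exists_clean h.big d' ∅ (by simp)
  have hu' := sub u hu
  have e1 : Q.Phi1 z a A b B u = -1 := by
    have := (s.L_nonneg d').2.1 u hu
    unfold L1 at cl; omega
  obtain ⟨-, r1, r2, r3⟩ := s.phi1_row (P := Q) hu'
  have t : ∀ c e, Q.Ad u c → Q.sh c u = 0 → Q.sh e u = 0 → Q.mu u c e = Q.sh c e :=
    fun c e ad g g' => by have := ad.sh; unfold PM.mu; omega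
  have c1 := mu_cases (s.ada Q hu') (s.adab Q) (s.adb Q hu').symm
  have c2 := mu_cases (s.ada Q hu') (s.adaB Q) (s.adB Q hu').symm
  have c3 := mu_cases (s.adA Q hu') (s.adAb Q) (s.adb Q hu').symm
  have c4 := mu_cases (s.adA Q hu') (s.adAB Q) (s.adB Q hu').symm
  rw [t a b (s.ada Q hu') (l1 u hu) (l3 u hu)] at r1 r2 r3 c1
  rw [t a B (s.ada Q hu') (l1 u hu) (l4 u hu)] at r1 r2 r3 c2
  rw [t A b (s.adA Q hu') (l2 u hu) (l3 u hu)] at r1 r2 r3 c3
  rw [t A B (s.adA Q hu') (l2 u hu) (l4 u hu)] at r1 r2 r3 c4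
  have s1 := (s.adab Q).sh
  have s2 := (s.adaB Q).sh
  have s3 := (s.adAb Q).sh
  have s4 := (s.adAB Q).sh
  have swa : ∀ a A b B, Q.L1 z A a b B v w u = Q.L1 z a A b B v w u := fun a A b B => by
    simp only [L1, Q.phi1_swa z a A, Q.phi2_swa z a A, Phi3]; ring
  have swp : ∀ a A b B, St k Fe z a A b B R → Q.L1 z b B a A v w u = Q.L1 z a A b B v w u :=
    fun a A b B s => by
    simp only [L1, Q.phi2_swp z a A, Phi3, s.Phi1_eq Q, s.swapP.Phi1_eq Q, Q.f4_swap' u a, Q.f4_swap' u A,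
      Q.J3_swap' z u a, Q.J3_swap' z u A]; ring
  have k1 := fun m1 m2 m3 m4 => h.nf_named d' hu cl
    (fun x hx => ⟨l1 x hx, l2 x hx, l3 x hx, l4 x hx⟩) m1 m2 m3 m4
  have k2 := fun m1 m2 m3 m4 => h.swa.nf_named d' hu ((swa ..).trans cl)
    (fun x hx => ⟨l2 x hx, l1 x hx, l3 x hx, l4 x hx⟩) m1 m2 m3 m4
  have cp := (swp _ _ _ _ s).trans cl
  have k3 := fun m1 m2 m3 m4 => h.swp.nf_named d' hu cp
    (fun x hx => ⟨l3 x hx, l4 x hx, l1 x hx, l2 x hx⟩) m1 m2 m3 m4
  have cq := (swa ..).trans cp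
  have k4 := fun m1 m2 m3 m4 => h.swp.swa.nf_named d' hu cq
    (fun x hx => ⟨l4 x hx, l3 x hx, l1 x hx, l2 x hx⟩) m1 m2 m3 m4
  have cb := (swp _ _ _ _ s.swapP.swapA).trans cq
  have k5 := fun m1 m2 m3 m4 => h.swb.nf_named d' hu cb
    (fun x hx => ⟨l1 x hx, l2 x hx, l4 x hx, l3 x hx⟩) m1 m2 m3 m4
  have cc := (swa ..).trans cb
  have k6 := fun m1 m2 m3 m4 => h.swb.swa.nf_named d' hu cc
    (fun x hx => ⟨l2 x hx, l1 x hx, l4 x hx, l3 x hx⟩) m1 m2 m3 m4
  have k7 := fun m1 m2 m3 m4 => h.swa.swp.nf_named d' hu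
    ((swp _ _ _ _ s.swapA).trans ((swa ..).trans cl))
    (fun x hx => ⟨l3 x hx, l4 x hx, l2 x hx, l1 x hx⟩) m1 m2 m3 m4
  have k8 := fun m1 m2 m3 m4 => h.swb.swa.swp.nf_named d' hu
    ((swp _ _ _ _ s.swapB.swapA).trans cc)
    (fun x hx => ⟨l4 x hx, l3 x hx, l2 x hx, l1 x hx⟩) m1 m2 m3 m4
  have : (Q.sh a B = 0 ∧ Q.sh A b = 0 ∧ Q.sh A B = 0 ∧ Q.sh a b ≠ 0) ∨
      (Q.sh a b = 0 ∧ Q.sh A b = 0 ∧ Q.sh A B = 0 ∧ Q.sh a B ≠ 0) ∨
      (Q.sh a b = 0 ∧ Q.sh a B = 0 ∧ Q.sh A B = 0 ∧ Q.sh A b ≠ 0) ∨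
      (Q.sh a b = 0 ∧ Q.sh a B = 0 ∧ Q.sh A b = 0 ∧ Q.sh A B ≠ 0) := by
    by_cases g1 : Q.sh a b = 0 <;> by_cases g2 : Q.sh a B = 0 <;> by_cases g3 : Q.sh A b = 0 <;>
      by_cases g4 : Q.sh A B = 0 <;> simp [g1, g2, g3, g4, e1] at r1 r2 r3 ⊢
  clear r1 r2 r3
  rcases this with g | g | g | g
  · rcases c1 with c | c | c
    exacts [⟨_, _, _, _, k3 (by omega) (by omega) (by omega) (by omega)⟩, absurd c g.2.2.2,
      ⟨_, _, _, _, k1 (by omega) (by omega) (by omega) (by omega)⟩]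
  · rcases c2 with c | c | c
    exacts [⟨_, _, _, _, k4 (by omega) (by omega) (by omega) (by omega)⟩, absurd c g.2.2.2,
      ⟨_, _, _, _, k5 (by omega) (by omega) (by omega) (by omega)⟩]
  · rcases c3 with c | c | c
    exacts [⟨_, _, _, _, k7 (by omega) (by omega) (by omega) (by omega)⟩, absurd c g.2.2.2,
      ⟨_, _, _, _, k2 (by omega) (by omega) (by omega) (by omega)⟩]
  · rcases c4 with c | c | c
    exacts [⟨_, _, _, _, k8 (by omega) (by omega) (by omega) (by omega)⟩, absurd c g.2.2.2,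
      ⟨_, _, _, _, k6 (by omega) (by omega) (by omega) (by omega)⟩]

end H4

end Pool.Agent.P.MP_3f5ded_co.UG
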