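import Pool.Agent.P.MP_3f5ded_co.CA

set_option autoImplicit false

namespace Pool.Agent.P.MP_3f5ded_co.UG

open Finset

namespace PM
variable {W : Type} {k : ℕ} {r : ℝ} {Fe : W → W → Prop} (P : PM W k r Fe)

/-- A clique on four vertices different from `z`. -/
structure Cq4 (z p q s d : W) : Prop where
  pz : p ≠ z
  qz : q ≠ z
  sz : s ≠ z
  dz : d ≠ z
  pq : P.Ad p q
  ps : P.Ad p s
  pd : P.Ad p d
  qs : P.Ad q s
  qd : P.Ad q d
  sd : P.Ad s d

open Classical in
/-- The excess of a clique on four vertices, zero for other quadruples. -/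
noncomputable def K4c (z p q s d : W) : ℤ := if P.Cq4 z p q s d then P.K4 p q s d else 0

/-- All four triangles are wound. -/
def All4 (p q s d : W) : Prop :=
  P.mu p q s ≠ 0 ∧ P.mu p q d ≠ 0 ∧ P.mu p s d ≠ 0 ∧ P.mu q s d ≠ 0

variable {P} {z p q s d : W}

lemma Cq4.s12 (c : P.Cq4 z p q s d) : P.Cq4 z q p s d :=
  ⟨c.qz, c.pz, c.sz, c.dz, c.pq.symm, c.qs, c.qd, c.ps, c.pd, c.sd⟩

lemma Cq4.s23 (c : P.Cq4 z p q s d) : P.Cq4 z p s q d :=
  ⟨c.pz, c.sz, c.qz, c.dz, c.ps, c.pq, c.pd, c.qs.symm, c.sd, c.qd⟩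

lemma Cq4.s34 (c : P.Cq4 z p q s d) : P.Cq4 z p q d s :=
  ⟨c.pz, c.qz, c.dz, c.sz, c.pq, c.pd, c.ps, c.qd, c.qs, c.sd.symm⟩

lemma Cq4.nonneg (c : P.Cq4 z p q s d) : 0 ≤ P.K4 p q s d := K4_nonneg c.pq c.ps c.pd c.qs c.qd c.sd

lemma Cq4.a12 (c : P.Cq4 z p q s d) (h : P.All4 p q s d) : P.All4 q p s d := by
  unfold All4 at *
  rw [mu_swap c.pq c.qs c.ps.symm, mu_swap c.pq c.qd c.pd.symm]
  omega

lemma Cq4.a23 (c : P.Cq4 z p q s d) (h : P.All4 p q s d) : P.All4 p s q d := by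
  unfold All4 at *
  rw [mu_sw c.pq c.qs c.ps.symm, mu_swap c.qs c.sd c.qd.symm]
  omega

lemma Cq4.a34 (c : P.Cq4 z p q s d) (h : P.All4 p q s d) : P.All4 p q d s := by
  unfold All4 at *
  rw [mu_sw c.ps c.sd c.pd.symm, mu_sw c.qs c.sd c.qd.symm]
  omega

/-- Four wound triangles on a clique cost two. -/
lemma Cq4.two (c : P.Cq4 z p q s d) (h : P.All4 p q s d) : 2 ≤ P.K4 p q s d := by
  have co := cocycle (q := q) (d := d) c.ps c.qd
  have t : ∀ {x y c}, P.Ad x y → P.Ad y c → P.Ad x c → P.mu x y c ≠ 0 →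
      (P.mu x y c = 1 ∧ P.Sh x y c) ∨ (P.mu x y c = -1 ∧ P.Sh x c y) := fun a b c e => by
    have := mu_sw a b c.symm
    rcases mu_cases a b c.symm with g | g | g
    exacts [Or.inr ⟨g, c, b.symm, a.symm, by omega⟩, absurd g e, Or.inl ⟨g, a, b, c.symm, g⟩]
  rcases t c.pq c.qs c.ps h.1 with ⟨a, a'⟩ | ⟨a, a'⟩ <;>
    rcases t c.ps c.sd c.pd h.2.2.1 with ⟨b, b'⟩ | ⟨b, b'⟩ <;>
    rcases t c.pq c.qd c.pd h.2.1 with ⟨g, c'⟩ | ⟨g, c'⟩ <;>
    rcases t c.qs c.sd c.qd h.2.2.2 with ⟨e, e'⟩ | ⟨e, e'⟩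
  any_goals omega
  · exact K4_four a' b' c' e'
  · exact P.K4_34 p q s d ▸ K4_four c' b' a' e'
  · exact P.K4_34 p q s d ▸ P.K4_23 p q d s ▸ K4_four c' a' b' e'.rot.rot
  · exact P.K4_23 p q s d ▸ K4_four a' c' b' e'.rot.rot
  · exact P.K4_23 p q s d ▸ P.K4_34 p s q d ▸ K4_four b' c' a' e'.rot
  · exact P.K4_34 p q s d ▸ P.K4_23 p q d s ▸ P.K4_34 p d q s ▸ K4_four b' a' c' e'.rot

lemma K4c_nonneg (P : PM W k r Fe) (z p q s d : W) : 0 ≤ P.K4c z p q s d := by
  unfold K4c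
  split_ifs with c
  exacts [c.nonneg, le_rfl]

lemma K4c_le (h : 0 ≤ P.K4 p q s d) (z : W) : P.K4c z p q s d ≤ P.K4 p q s d := by
  unfold K4c
  split_ifs
  exacts [le_rfl, h]

lemma K4c_12 (P : PM W k r Fe) (z p q s d : W) : P.K4c z q p s d = P.K4c z p q s d :=
  by classical exact if_congr ⟨Cq4.s12, Cq4.s12⟩ (P.K4_12 p q s d) rfl

lemma K4c_23 (P : PM W k r Fe) (z p q s d : W) : P.K4c z p s q d = P.K4c z p q s d :=
  by classical exact if_congr ⟨Cq4.s23, Cq4.s23⟩ (P.K4_23 p q s d) rfl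

lemma K4c_34 (P : PM W k r Fe) (z p q s d : W) : P.K4c z p q d s = P.K4c z p q s d :=
  by classical exact if_congr ⟨Cq4.s34, Cq4.s34⟩ (P.K4_34 p q s d) rfl

lemma Cq4.card [DecidableEq W] (c : P.Cq4 z p q s d) : ({p, q, s, d} : Finset W).card = 4 := by
  rw [card_insert_of_notMem (by simp [c.pq.1.symm, c.ps.1.symm, c.pd.1.symm]),
    card_insert_of_notMem (by simp [c.qs.1.symm, c.qd.1.symm]), card_pair c.sd.1.symm]

/-- The twenty-four orderings of a clique. -/
lemma Cq4.sum [DecidableEq W] (c : P.Cq4 z p q s d) {T : Finset W} (e : T = {p, q, s, d}) :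
    ∑ x ∈ T, ∑ y ∈ T, ∑ u ∈ T, ∑ v ∈ T, P.K4c z x y u v = 24 * P.K4 p q s d := by
  have s4 : ∀ f : W → ℤ, ∑ x ∈ T, f x = f p + f q + f s + f d := fun f => by
    rw [e, sum_insert (by simp [c.pq.1.symm, c.ps.1.symm, c.pd.1.symm]),
      sum_insert (by simp [c.qs.1.symm, c.qd.1.symm]), sum_pair c.sd.1.symm]
    ring
  have k12 : ∀ x y u, P.K4c z x x y u = 0 := fun x y u => if_neg fun g => g.pq.1 rfl
  have k13 : ∀ x y u, P.K4c z x y x u = 0 := fun x y u => if_neg fun g => g.ps.1 rfl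
  have k14 : ∀ x y u, P.K4c z x y u x = 0 := fun x y u => if_neg fun g => g.pd.1 rfl
  have k23 : ∀ x y u, P.K4c z x y y u = 0 := fun x y u => if_neg fun g => g.qs.1 rfl
  have k24 : ∀ x y u, P.K4c z x y u y = 0 := fun x y u => if_neg fun g => g.qd.1 rfl
  have k34 : ∀ x y u, P.K4c z x y u u = 0 := fun x y u => if_neg fun g => g.sd.1 rfl
  have e0 : P.K4c z p q s d = P.K4 p q s d := if_pos c
  have a := P.K4c_12 z
  have b := P.K4c_23 z
  have g := P.K4c_34 z
  simp only [s4, k12, k13, k14, k23, k24, k34, add_zero, zero_add]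
  simp only [a p q, a p s, a p d, a q s, a q d, a s d, g _ _ p q, g _ _ p s, g _ _ p d, g _ _ q s,
    g _ _ q d, g _ _ s d, b p q s, b p q d, b q p s, b q p d, b s p d, e0]
  ring

end PM

namespace St
open PM
variable {W : Type} [Fintype W] [DecidableEq W] {k : ℕ} {r : ℝ} {Fe : W → W → Prop}
  {z a A b B : W} {R U : Finset W} (h : St k Fe z a A b B R) {P : PM W k r Fe} {x y u v w : W}
include h

lemma sum_K4c (e : P.Wd R U v w) : ∑ p ∈ univ.erase z, ∑ q ∈ univ.erase z, ∑ s ∈ univ.erase z,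
    ∑ d ∈ univ.erase z, P.K4c z p q s d ≤ 48 := by
  cases Subsingleton.elim ‹DecidableEq W› fun a b => Classical.propDecidable (a = b)
  classical
  have c := h.count P
  have na := h.naA P
  have nb := h.nbB P
  have z3 : ∀ u, ∀ s ∈ ({a, A, b, B} : Finset W), ∀ t ∈ ({a, A, b, B} : Finset W),
      ∀ d ∈ ({a, A, b, B} : Finset W), P.K4c z u s t d = 0 := fun u s hs t ht d hd =>
    if_neg fun g => by
      have g1 := g.qs
      have g2 := g.qd
      have g3 := g.sd
      simp only [mem_insert, mem_singleton] at hs ht hd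
      rcases hs with rfl | rfl | rfl | rfl <;> rcases ht with rfl | rfl | rfl | rfl <;>
        rcases hd with rfl | rfl | rfl | rfl
      all_goals first
        | exact g1.1 rfl | exact g2.1 rfl | exact g3.1 rfl | exact na g1 | exact na g2 | exact na g3
        | exact nb g1 | exact nb g2 | exact nb g3 | exact na g1.symm | exact na g2.symm
        | exact na g3.symm | exact nb g1.symm | exact nb g2.symm | exact nb g3.symm
  have z4 : ∀ X : Finset W, ∑ u ∈ X, ∑ s ∈ ({a, A, b, B} : Finset W),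
      ∑ t ∈ ({a, A, b, B} : Finset W), ∑ d ∈ ({a, A, b, B} : Finset W), P.K4c z u s t d = 0 :=
    fun X => sum_eq_zero fun u _ => sum_eq_zero fun s hs => sum_eq_zero fun t ht =>
      sum_eq_zero fun d hd => z3 u s hs t ht d hd
  have b4 : ∑ x ∈ R, ∑ y ∈ R, ∑ u ∈ R, ∑ v ∈ R, P.K4c z x y u v ≤
      ∑ x ∈ R, ∑ y ∈ R, ∑ u ∈ R, ∑ v ∈ R, P.K4 x y u v :=
    sum_le_sum fun x hx => sum_le_sum fun y hy => sum_le_sum fun u hu => sum_le_sum fun v hv =>
      K4c_le (h.K4R_nonneg P hx hy hu hv) z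
  have b3 : ∑ x ∈ R, ∑ y ∈ R, ∑ u ∈ R, ∑ s ∈ ({a, A, b, B} : Finset W), P.K4c z x y u s +
      ∑ x ∈ R, ∑ y ∈ R, ∑ u ∈ R, P.J3 z x y u ≤
      ∑ x ∈ R, ∑ y ∈ R, ∑ u ∈ R, P.Phi3 z a A b B x y u := by
    simp only [← sum_add_distrib]
    refine sum_le_sum fun x hx => sum_le_sum fun y hy => sum_le_sum fun u hu => ?_
    have := K4c_le (h.K4a_nonneg P hx hy hu) z
    have := K4c_le (h.swapA.K4a_nonneg P hx hy hu) z
    have := K4c_le (h.swapP.K4a_nonneg P hx hy hu) z
    have := K4c_le (h.swapP.swapA.K4a_nonneg P hx hy hu) z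
    rw [h.sum4, Phi3]
    omega
  have b2 : ∑ x ∈ R, ∑ y ∈ R, ∑ s ∈ ({a, A, b, B} : Finset W), ∑ t ∈ ({a, A, b, B} : Finset W),
      P.K4c z x y s t ≤ 2 * ∑ x ∈ R, ∑ y ∈ R, P.Phi2 z a A b B x y := by
    simp only [mul_sum]
    refine sum_le_sum fun x hx => sum_le_sum fun y hy => ?_
    simp only [h.sum4]
    rw [pairs (P.K4c z x y) (P.K4c_34 z x y) fun s => if_neg fun g => g.sd.1 rfl,
      show P.K4c z x y a A = 0 from if_neg fun g => na g.sd,
      show P.K4c z x y b B = 0 from if_neg fun g => nb g.sd]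
    by_cases g : y = x
    · have n : ∀ s t, P.K4c z x y s t = 0 := fun s t => if_neg fun c => c.pq.1 g
      have := h.Phi2_nonneg P hx hy
      simp only [n]; omega
    have p := h.phi2_parts (P := P) hx hy g
    have := K4c_le p.2.2.1 z
    have := K4c_le p.2.2.2.1 z
    have := K4c_le p.2.2.2.2.1 z
    have := K4c_le p.2.2.2.2.2 z
    unfold Phi2
    omega
  have b1 := card_nsmul_le_sum R (fun u => P.Phi1 z a A b B u) (-1) fun u hu => (h.phi1_row hu).1
  have e' : R = U ∪ {v, w} := by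
    rw [e.eq]; ext; simp only [mem_insert, mem_union, mem_singleton]; tauto
  have d : Disjoint U {v, w} := by simp [e.vU, e.wU]
  have cR : R.card = U.card + 2 := by rw [e', card_union_of_disjoint d, card_pair e.vw]
  have j : 6 * (U.card : ℤ) ≤ ∑ x ∈ R, ∑ y ∈ R, ∑ u ∈ R, P.J3 z x y u := by
    have j1 := card_nsmul_le_sum U (fun u => P.J3 z u v w) 1 fun u hu =>
      ((h.L_nonneg e).2.1 u hu).2.2.2.2.1
    have n := fun X Y Z : Finset W => sum_nonneg (s := X) fun x _ => sum_nonneg (s := Y) fun y _ =>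
      sum_nonneg (s := Z) fun u _ => P.J3_nonneg z x y u
    have n1 := n U U U
    have n2 := n U U {v, w}
    have n3 := n {v, w} {v, w} {v, w}
    have n4 : ∑ u ∈ U, 2 * P.J3 z u v w ≤
        ∑ u ∈ U, ∑ x ∈ ({v, w} : Finset W), ∑ y ∈ ({v, w} : Finset W), P.J3 z u x y :=
      sum_le_sum fun u _ => by
        have := P.J3_nonneg z u v v
        have := P.J3_nonneg z u w w
        simp only [sum_pair e.vw, P.J3_swap' z u v w]
        omega
    conv => rhs; rw [e', sum_sym3 _ _ _ (P.J3_swap z) (P.J3_swap' z) d]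
    rw [← mul_sum] at n4
    simp only [nsmul_eq_mul] at j1
    linarith
  rw [h.erase, sum_sym4 R _ _ (P.K4c_12 z) (P.K4c_23 z) (P.K4c_34 z) h.disj, z4, z4]
  simp only [nsmul_eq_mul, cR] at b1
  push_cast at b1
  linarith

/-- Three different cliques have excess at most two. -/
theorem k4_three (e : P.Wd R U v w) {p q s d p' q' s' d' p'' q'' s'' d'' : W} (c : P.Cq4 z p q s d)
    (c' : P.Cq4 z p' q' s' d') (c'' : P.Cq4 z p'' q'' s'' d'')
    (n1 : ({p, q, s, d} : Finset W) ≠ {p', q', s', d'})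
    (n2 : ({p, q, s, d} : Finset W) ≠ {p'', q'', s'', d''})
    (n3 : ({p', q', s', d'} : Finset W) ≠ {p'', q'', s'', d''}) :
    P.K4 p q s d + P.K4 p' q' s' d' + P.K4 p'' q'' s'' d'' ≤ 2 := by
  have t := h.sum_K4c e
  have ex : ∀ {p q s d : W}, P.Cq4 z p q s d → ∀ T : Finset W, T = {p, q, s, d} →
      ∑ x ∈ univ.erase z, ∑ y ∈ univ.erase z, ∑ u ∈ univ.erase z, ∑ v ∈ univ.erase z,
        (if x ∈ T ∧ y ∈ T ∧ u ∈ T ∧ v ∈ T then P.K4c z x y u v else 0) = 24 * P.K4 p q s d :=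
    fun c T e => by
    have sub : univ.erase z ∩ T = T := inter_eq_right.2 fun x hx => by
      simp only [e, mem_insert, mem_singleton] at hx
      rcases hx with rfl | rfl | rfl | rfl <;> simp [c.pz, c.qz, c.sz, c.dz]
    simp only [ite_and, sum_ite_irrel, sum_const_zero, sum_ite_mem, sub]
    exact c.sum e
  have e1 := ex c _ rfl
  have e2 := ex c' _ rfl
  have e3 := ex c'' _ rfl
  have k1 := c.card
  have k2 := c'.card
  have k3 := c''.card
  generalize ({p, q, s, d} : Finset W) = T1 at *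
  generalize ({p', q', s', d'} : Finset W) = T2 at *
  generalize ({p'', q'', s'', d''} : Finset W) = T3 at *
  have : 24 * P.K4 p q s d + 24 * P.K4 p' q' s' d' + 24 * P.K4 p'' q'' s'' d'' ≤ 48 := by
    rw [← e1, ← e2, ← e3]
    simp only [← sum_add_distrib]
    refine (sum_le_sum fun x _ => sum_le_sum fun y _ => sum_le_sum fun u _ =>
      sum_le_sum fun v _ => ?_).trans t
    have n := P.K4c_nonneg z x y u v
    by_cases g : P.Cq4 z x y u v
    · have key : ∀ T : Finset W, T.card = 4 → x ∈ T ∧ y ∈ T ∧ u ∈ T ∧ v ∈ T → {x, y, u, v} = T :=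
        fun T k m => eq_of_subset_of_card_le (by simp [insert_subset_iff, m]) (by rw [k, g.card])
      have := key T1 k1
      have := key T2 k2
      have := key T3 k3
      split_ifs <;> first | omega | grind
    · rw [show P.K4c z x y u v = 0 from if_neg g]; simp
  omega

lemma phi2_le (e : P.Wd R U v w) (hx : x ∈ R) (hy : y ∈ R) (g : x ≠ y) :
    P.Phi1 z a A b B x + P.Phi1 z a A b B y + P.Phi2 z a A b B x y ≤ 0 := by
  have l := h.loss P e.eq e.vw e.vU e.wU
  obtain ⟨l0, l1, l2⟩ := h.L_nonneg e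
  have p : ∀ u ∈ U, 0 ≤ P.L1 z a A b B v w u := fun u hu => by
    have := l1 u hu; unfold L1; omega
  have s1 := sum_nonneg p
  have s2 := sum_nonneg fun x hx => sum_nonneg fun y hy => l2 x hx y hy
  have hv : v ∈ R := by simp [e.eq]
  have hw : w ∈ R := by simp [e.eq]
  have sub : ∀ x ∈ U, x ∈ R := fun x hx => by simp [e.eq, hx]
  have r1 := (h.phi1_row (P := P) hv).1
  have r2 := (h.phi1_row (P := P) hw).1
  have r3 := h.Phi2_nonneg P hv hw
  have t0 : P.Phi1 z a A b B v + P.Phi1 z a A b B w + P.Phi2 z a A b B v w ≤ 0 := by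
    unfold L0 at l; omega
  have t1 : ∀ u ∈ U, P.Phi1 z a A b B u + P.Phi1 z a A b B v + P.Phi2 z a A b B u v ≤ 0 ∧
      P.Phi1 z a A b B u + P.Phi1 z a A b B w + P.Phi2 z a A b B u w ≤ 0 := fun u hu => by
    have s := single_le_sum p hu
    have := l1 u hu
    generalize ∑ u ∈ U, P.L1 z a A b B v w u = S at l s s1
    unfold L1 at s; unfold L0 at l; omega
  rw [e.eq] at hx hy
  simp only [mem_insert] at hx hy
  rcases hx with rfl | rfl | hx <;> rcases hy with rfl | rfl | hy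
  · exact absurd rfl g
  · exact t0
  · rw [phi2_comm]; have := (t1 y hy).1; omega
  · rw [phi2_comm]; omega
  · exact absurd rfl g
  · rw [phi2_comm]; have := (t1 y hy).2; omega
  · exact (t1 x hx).1
  · exact (t1 x hx).2
  have a0 := add_le_sum p hx hy g
  have := l1 x hx
  have := l1 y hy
  have a1 := single_le_sum (l2 x hx) hy
  have a2 := single_le_sum (l2 y hy) hx
  have a3 := add_le_sum (f := fun x => ∑ y ∈ U, P.L2 z a A b B v w x y)
    (fun x hx => sum_nonneg (l2 x hx)) hx hy g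
  have := h.Phi3_nonneg P (sub x hx) (sub y hy) hv
  have := h.Phi3_nonneg P (sub x hx) (sub y hy) hw
  have := h.K4R_nonneg P (sub x hx) (sub y hy) hv hw
  have := h.Phi3_nonneg P (sub y hy) (sub x hx) hv
  have := h.Phi3_nonneg P (sub y hy) (sub x hx) hw
  have := h.K4R_nonneg P (sub y hy) (sub x hx) hv hw
  have := phi2_comm (P := P) (z := z) (a := a) (A := A) (b := b) (B := B) x y
  generalize ∑ u ∈ U, P.L1 z a A b B v w u = S at l a0
  generalize ∑ y ∈ U, P.L2 z a A b B v w x y = S1 at a1 a3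
  generalize ∑ u ∈ U, P.L2 z a A b B v w y u = S2 at a2 a3
  unfold L2 at a1 a2
  unfold L1 at a0
  omega

omit [Fintype W] [DecidableEq W] in
lemma both_le (hx : x ∈ R) (hy : y ∈ R) (e : y ≠ x) (m1 : P.mu x y a ≠ 0) (m2 : P.mu x y A ≠ 0) :
    2 + P.K4 x y a b ≤ P.Phi2 z a A b B x y := by
  have := h.phi2_parts (P := P) hx hy e
  have := pair_both (h.naA P) h.aA.symm (h.adR P hx hy e) (h.ada P hy) (h.ada P hx).symm
    (h.adA P hy) (h.adA P hx).symm m1 m2 z
  unfold Phi2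
  omega

lemma no_four_uvw (e : P.Wd R U v w) (hu : u ∈ U) (c : P.Cq4 z u v w a) : ¬ P.All4 u v w a := by
  intro g
  have l := h.loss P e.eq e.vw e.vU e.wU
  obtain ⟨l0, l1, l2⟩ := h.L_nonneg e
  have p : ∀ u ∈ U, 0 ≤ P.L1 z a A b B v w u := fun u hu => by
    have := l1 u hu; unfold L1; omega
  have s1 := single_le_sum p hu
  have s2 := sum_nonneg fun x hx => sum_nonneg fun y hy => l2 x hx y hy
  have hv : v ∈ R := by simp [e.eq]
  have hw : w ∈ R := by simp [e.eq]
  have hu' : u ∈ R := by simp [e.eq, hu]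
  have t := c.two g
  have := l1 u hu
  have := (h.phi1_row (P := P) hv).1
  have := (h.phi1_row (P := P) hw).1
  have := h.swapA.K4a_nonneg P hu' hv hw
  have := h.swapP.K4a_nonneg P hu' hv hw
  have := h.swapP.swapA.K4a_nonneg P hu' hv hw
  have b1 := h.both_le hu' hv c.pq.1 g.2.1
  have b2 := h.both_le hu' hw c.ps.1 g.2.2.1
  have b3 := h.both_le hv hw c.qs.1 g.2.2.2
  have := (h.phi2_parts (P := P) hu' hv c.pq.1).2.2.1
  have := (h.phi2_parts (P := P) hu' hw c.ps.1).2.2.1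
  have := (h.phi2_parts (P := P) hv hw c.qs.1).2.2.1
  have := h.Phi2_nonneg P hv hw
  have co := cocycle (q := v) (d := A) c.ps (h.adA P hv)
  have := g.1
  generalize ∑ u ∈ U, P.L1 z a A b B v w u = S at l s1
  unfold L0 at l
  unfold L1 Phi3 at s1
  by_cases g1 : P.mu u v A = 0 <;> by_cases g2 : P.mu u w A = 0 <;> by_cases g3 : P.mu v w A = 0
  · omega
  all_goals first | (have := b1 g1; omega) | (have := b2 g2; omega) | (have := b3 g3; omega)

omit [Fintype W] h in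
lemma wd_tri (e : P.Wd R U v w) (hx : x ∈ R) (hy : y ∈ R) (hu : u ∈ R) (n1 : y ≠ x) (n2 : u ≠ y)
    (n3 : x ≠ u) (m : P.mu x y u ≠ 0) : (x = v ∨ y = v ∨ u = v) ∧ (x = w ∨ y = w ∨ u = w) := by
  have z : ∀ x ∈ R, ∀ y ∈ R, y ≠ x → P.sh x y ≠ 0 → (x = v ∨ x = w) ∧ (y = v ∨ y = w) :=
    fun x hx y hy n g => by
      have hx' := hx
      have hy' := hy
      rw [e.eq] at hx' hy'
      simp only [mem_insert, ← or_assoc] at hx' hy'
      exact ⟨hx'.resolve_right fun c => g (e.zero y hy x c n.symm).2,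
        hy'.resolve_right fun c => g (e.zero x hx y c n).1⟩
  have := z x hx y hy n1
  have := z y hy u hu n2
  have := z u hu x hx n3
  unfold PM.mu at m
  grind

lemma no_four_a (e : P.Wd R U v w) (hx : x ∈ R) (hy : y ∈ R) (hu : u ∈ R) (c : P.Cq4 z x y u a) :
    ¬ P.All4 x y u a := by
  intro g
  have t := wd_tri e hx hy hu c.pq.1 c.qs.1 c.ps.1.symm g.1
  have m : ∀ x ∈ R, x ≠ v → x ≠ w → x ∈ U := fun x hx n1 n2 => by
    rw [e.eq] at hx; simpa [n1, n2] using hx
  have vw := e.vw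
  obtain ⟨rfl | rfl | rfl, rfl | rfl | rfl⟩ := t
  any_goals exact vw rfl
  · exact h.no_four_uvw e (m u hu c.ps.1 c.qs.1) c.s23.s12 (c.s23.a12 (c.a23 g))
  · exact h.no_four_uvw e (m y hy c.pq.1 c.qs.1.symm) c.s12 (c.a12 g)
  · exact h.no_four_uvw e (m u hu c.qs.1 c.ps.1) c.s12.s23.s12 (c.s12.s23.a12 (c.s12.a23 (c.a12 g)))
  · exact h.no_four_uvw e (m x hx c.pq.1.symm c.ps.1.symm) c g
  · exact h.no_four_uvw e (m y hy c.qs.1.symm c.pq.1) c.s12.s23 (c.s12.a23 (c.a12 g))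
  · exact h.no_four_uvw e (m x hx c.ps.1.symm c.pq.1.symm) c.s23 (c.a23 g)

lemma no_four_ab (e : P.Wd R U v w) (hx : x ∈ R) (hy : y ∈ R) (c : P.Cq4 z x y a b) :
    ¬ P.All4 x y a b := by
  intro g
  have t := c.two g
  have l := h.phi2_le e hx hy c.pq.1.symm
  have r1 := h.phi1_row (P := P) hx
  have r2 := h.phi1_row (P := P) hy
  have b2 := h.swapP.both_le hx hy c.pq.1 g.2.1
  rw [phi2_swp, K4_34] at b2
  have m2 : P.mu x y B = 0 := by_contra fun n => by have := b2 n; omega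
  have co := cocycle (q := y) (d := B) c.ps (h.adB P hy)
  have p := h.phi2_parts (P := P) hx hy c.pq.1
  have two : ∀ u ∈ R, P.mu u a b ≠ 0 → P.mu u a B ≠ 0 → 0 ≤ P.Phi1 z a A b B u := fun u hu n1 n2 => by
    obtain ⟨-, r1, r2, -⟩ := h.phi1_row (P := P) hu
    by_cases n : P.mu u A b ≠ 0 ∨ P.mu u A B ≠ 0
    · have := r2 n1 n2 n; omega
    · push Not at n; exact r1 (by simp [n1, n2, n])
  have := two x hx g.2.2.1
  have := two y hy g.2.2.2
  have := g.1
  unfold Phi2 at l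
  omega

/-- No clique of the block without `z` has four wound triangles. -/
theorem no_four (e : P.Wd R U v w) {p q s d : W} (c : P.Cq4 z p q s d) :
    P.mu p q s = 0 ∨ P.mu p q d = 0 ∨ P.mu p s d = 0 ∨ P.mu q s d = 0 := by
  have na := h.naA P
  have nb := h.nbB P
  have sp : ∀ x, x ≠ z → x ∉ R → x = a ∨ x = A ∨ x = b ∨ x = B := fun x n m => by
    simpa [n, m] using h.all x
  have k3 : ∀ {p q s d}, P.Cq4 z p q s d → p ∈ R → q ∈ R → s ∈ R → ¬ P.All4 p q s d :=
    fun {p q s d} c hp hq hs g => by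
    by_cases hd : d ∈ R
    · have := wd_tri e hp hq hs c.pq.1 c.qs.1 c.ps.1.symm g.1
      have := wd_tri e hp hq hd c.pq.1 c.qd.1 c.pd.1.symm g.2.1
      have := wd_tri e hp hs hd c.ps.1 c.sd.1 c.pd.1.symm g.2.2.1
      have := wd_tri e hq hs hd c.qs.1 c.sd.1 c.qd.1.symm g.2.2.2
      have := c.pq.1; have := c.ps.1; have := c.pd.1; have := c.qs.1; have := c.qd.1; have := c.sd.1
      grind
    rcases sp d c.dz hd with rfl | rfl | rfl | rfl
    exacts [h.no_four_a e hp hq hs c g, h.swapA.no_four_a e hp hq hs c g,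
      h.swapP.no_four_a e hp hq hs c g, h.swapP.swapA.no_four_a e hp hq hs c g]
  have k2 : ∀ {p q s d}, P.Cq4 z p q s d → p ∈ R → q ∈ R → ¬ P.All4 p q s d :=
    fun {p q s d} c hp hq g => by
    by_cases hs : s ∈ R
    · exact k3 c hp hq hs g
    by_cases hd : d ∈ R
    · exact k3 c.s34 hp hq hd (c.a34 g)
    have sd := c.sd
    rcases sp s c.sz hs with rfl | rfl | rfl | rfl <;> rcases sp d c.dz hd with rfl | rfl | rfl | rfl
    all_goals first
      | exact sd.1 rfl | exact na sd | exact nb sd | exact na sd.symm | exact nb sd.symm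
      | exact h.no_four_ab e hp hq c g | exact h.swapA.no_four_ab e hp hq c g
      | exact h.swapB.no_four_ab e hp hq c g | exact h.swapA.swapB.no_four_ab e hp hq c g
      | exact h.swapP.no_four_ab e hp hq c g | exact h.swapP.swapA.no_four_ab e hp hq c g
      | exact h.swapP.swapB.no_four_ab e hp hq c g
      | exact h.swapP.swapA.swapB.no_four_ab e hp hq c g
  have k0 : ∀ {p q s d}, P.Cq4 z p q s d → q ∉ R → s ∉ R → d ∉ R → False :=
    fun {p q s d} c hq hs hd => by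
    have g1 := c.qs
    have g2 := c.qd
    have g3 := c.sd
    rcases sp q c.qz hq with rfl | rfl | rfl | rfl <;> rcases sp s c.sz hs with rfl | rfl | rfl | rfl <;>
      rcases sp d c.dz hd with rfl | rfl | rfl | rfl
    all_goals first
      | exact g1.1 rfl | exact g2.1 rfl | exact g3.1 rfl | exact na g1 | exact na g2 | exact na g3
      | exact nb g1 | exact nb g2 | exact nb g3 | exact na g1.symm | exact na g2.symm
      | exact na g3.symm | exact nb g1.symm | exact nb g2.symm | exact nb g3.symm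
  have k1 : ∀ {p q s d}, P.Cq4 z p q s d → p ∈ R → ¬ P.All4 p q s d := fun {p q s d} c hp g => by
    by_cases hq : q ∈ R
    · exact k2 c hp hq g
    by_cases hs : s ∈ R
    · exact k2 c.s23 hp hs (c.a23 g)
    by_cases hd : d ∈ R
    · exact k2 c.s34.s23 hp hd (c.s34.a23 (c.a34 g))
    exact k0 c hq hs hd
  by_contra n
  have g : P.All4 p q s d := by unfold All4; omega
  by_cases hq : q ∈ R
  · exact k1 c.s12 hq (c.a12 g)
  by_cases hs : s ∈ R
  · exact k1 c.s23.s12 hs (c.s23.a12 (c.a23 g))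
  by_cases hd : d ∈ R
  · exact k1 c.s34.s23.s12 hd (c.s34.s23.a12 (c.s34.a23 (c.a34 g)))
  exact k0 c hq hs hd

end St

end Pool.Agent.P.MP_3f5ded_co.UG
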