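import Pool.Agent.P.MP_3f5ded_co.EQ1

set_option autoImplicit false

namespace Pool.Agent.P.MP_3f5ded_co.UG

open Finset
open scoped Classical

/-- The indicator of a proposition. -/
noncomputable def ind (p : Prop) : ℤ := if p then 1 else 0

lemma ind_cases (p : Prop) : (p ∧ ind p = 1) ∨ (¬ p ∧ ind p = 0) := by
  unfold ind
  by_cases h : p <;> simp [h]

lemma ind_nonneg (p : Prop) : 0 ≤ ind p := by rcases ind_cases p with h | h <;> omega

lemma ind_pos {p : Prop} (h : p) : ind p = 1 := if_pos h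

lemma ind_neg {p : Prop} (h : ¬ p) : ind p = 0 := if_neg h

lemma sum_ind {W : Type} (s : Finset W) (p : W → Prop) :
    ∑ d ∈ s, ind (p d) = ((s.filter p).card : ℤ) := by
  unfold ind
  rw [sum_boole]

lemma bt1 {a b c : ℤ} (h1 : a ≤ b) (h2 : a ≤ c) : Bt a b c ↔ a < b ∧ b < c := by unfold Bt; omega

lemma bt2 {a b c : ℤ} (h1 : b ≤ a) (h2 : b ≤ c) : Bt a b c ↔ b < c ∧ c < a := by unfold Bt; omega

lemma bt3 {a b c : ℤ} (h1 : c ≤ a) (h2 : c ≤ b) : Bt a b c ↔ c < a ∧ a < b := by unfold Bt; omega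

namespace PM
variable {W : Type} {k : ℕ} {r : ℝ} {Fe : W → W → Prop} (P : PM W k r Fe)

/-- The number of corners of the triangle `x y c` whose item towards `d` lies on the arc. -/
noncomputable def met (x y c d : W) : ℤ :=
  ind (P.On x c d y) + ind (P.On y x d c) + ind (P.On c y d x)

/-- The excess of a fourth vertex on a short triangle. -/
noncomputable def g4 (x y c d : W) : ℤ :=
  if P.Sh x y c ∧ d ≠ x ∧ d ≠ y ∧ d ≠ c then P.met x y c d - 1 else 0

/-- The constant term of a short triangle and its items towards `z`. -/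
noncomputable def h3 (z x y c : W) : ℤ := if P.Sh x y c then 1 + P.met x y c z else 0

/-- Both orientations. -/
noncomputable def f4 (p q s d : W) : ℤ := P.g4 p q s d + P.g4 q p s d

/-- The excess of four vertices. -/
noncomputable def K4 (p q s d : W) : ℤ := P.f4 p q s d + P.f4 p q d s + P.f4 p s d q + P.f4 q s d p

/-- The constant term of three vertices. -/
noncomputable def J3 (z p q s : W) : ℤ := P.h3 z p q s + P.h3 z q p s

/-- The four special vertices and one vertex of the clique. -/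
noncomputable def Phi1 (z a A b B u : W) : ℤ :=
  P.K4 u a A b + P.K4 u a A B + P.K4 u a b B + P.K4 u A b B +
    (P.J3 z u a b + P.J3 z u a B + P.J3 z u A b + P.J3 z u A B)

/-- The four special vertices and two vertices of the clique. -/
noncomputable def Phi2 (z a A b B x y : W) : ℤ :=
  (P.K4 x y a A + P.J3 z x y a + P.J3 z x y A) + (P.K4 x y b B + P.J3 z x y b + P.J3 z x y B) +
    (P.K4 x y a b + P.K4 x y a B + P.K4 x y A b + P.K4 x y A B)

/-- The four special vertices and three vertices of the clique. -/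
noncomputable def Phi3 (z a A b B x y w : W) : ℤ :=
  P.K4 x y w a + P.K4 x y w A + P.K4 x y w b + P.K4 x y w B + P.J3 z x y w

variable {P} {x y c d c' z : W}

lemma met_rot (P : PM W k r Fe) (x y c d : W) : P.met y c x d = P.met x y c d := by
  unfold met; ring

lemma met_nonneg (P : PM W k r Fe) (x y c d : W) : 0 ≤ P.met x y c d :=
  add_nonneg (add_nonneg (ind_nonneg _) (ind_nonneg _)) (ind_nonneg _)

lemma g4_rot (P : PM W k r Fe) (x y c d : W) : P.g4 y c x d = P.g4 x y c d := by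
  unfold g4
  rw [P.met_rot x y c d, sh_rot]
  exact if_congr (by tauto) rfl rfl

lemma h3_rot (P : PM W k r Fe) (z x y c : W) : P.h3 z y c x = P.h3 z x y c := by
  unfold h3
  rw [P.met_rot x y c z, sh_rot]

lemma g4_pos (h : P.Sh x y c) (h1 : d ≠ x) (h2 : d ≠ y) (h3 : d ≠ c) :
    P.g4 x y c d = P.met x y c d - 1 := if_pos ⟨h, h1, h2, h3⟩

lemma g4_neg (h : ¬ P.Sh x y c) (d : W) : P.g4 x y c d = 0 := if_neg fun g => h g.1

lemma h3_pos (h : P.Sh x y c) (z : W) : P.h3 z x y c = 1 + P.met x y c z := if_pos h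

lemma h3_neg (h : ¬ P.Sh x y c) (z : W) : P.h3 z x y c = 0 := if_neg h

lemma h3_nonneg (P : PM W k r Fe) (z x y c : W) : 0 ≤ P.h3 z x y c := by
  unfold h3
  have := P.met_nonneg x y c z
  split_ifs <;> omega

lemma f4_swap (P : PM W k r Fe) (p q s d : W) : P.f4 q p s d = P.f4 p q s d := add_comm _ _

lemma f4_rot (P : PM W k r Fe) (p q s d : W) : P.f4 q s p d = P.f4 p q s d := by
  unfold f4
  rw [P.g4_rot p q s d, P.g4_rot s q p d |>.symm]

lemma f4_swap' (P : PM W k r Fe) (p q s d : W) : P.f4 p s q d = P.f4 p q s d := by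
  rw [P.f4_swap s p q d, ← P.f4_rot s p q d]

lemma J3_swap (P : PM W k r Fe) (z p q s : W) : P.J3 z q p s = P.J3 z p q s := add_comm _ _

lemma J3_rot (P : PM W k r Fe) (z p q s : W) : P.J3 z q s p = P.J3 z p q s := by
  unfold J3
  rw [P.h3_rot z p q s, P.h3_rot z s q p |>.symm]

lemma J3_swap' (P : PM W k r Fe) (z p q s : W) : P.J3 z p s q = P.J3 z p q s := by
  rw [P.J3_swap z s p q, ← P.J3_rot z s p q]

lemma J3_nonneg (P : PM W k r Fe) (z p q s : W) : 0 ≤ P.J3 z p q s :=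
  add_nonneg (P.h3_nonneg _ _ _ _) (P.h3_nonneg _ _ _ _)

lemma K4_12 (P : PM W k r Fe) (p q s d : W) : P.K4 q p s d = P.K4 p q s d := by
  unfold K4
  rw [P.f4_swap p q s d, P.f4_swap p q d s]
  ring

lemma K4_23 (P : PM W k r Fe) (p q s d : W) : P.K4 p s q d = P.K4 p q s d := by
  unfold K4
  rw [P.f4_swap' p q s d, P.f4_swap q s d p]
  ring

lemma K4_34 (P : PM W k r Fe) (p q s d : W) : P.K4 p q d s = P.K4 p q s d := by
  unfold K4
  rw [P.f4_swap' p s d q, P.f4_swap' q s d p]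
  ring

lemma not_sh_of {p q s : W} (h : ¬ P.Ad p q) : ¬ P.Sh p q s ∧ ¬ P.Sh q p s :=
  ⟨fun g => h g.a1, fun g => h g.a1.symm⟩

lemma f4_zero {p q : W} (h : ¬ P.Ad p q) (s d : W) : P.f4 p q s d = 0 := by
  unfold f4
  rw [g4_neg (not_sh_of h).1, g4_neg (not_sh_of h).2, add_zero]

lemma J3_zero {p q : W} (h : ¬ P.Ad p q) (z s : W) : P.J3 z p q s = 0 := by
  unfold J3
  rw [h3_neg (not_sh_of h).1, h3_neg (not_sh_of h).2, add_zero]

lemma K4_rep (P : PM W k r Fe) (p s d : W) : P.K4 p p s d = 0 := by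
  have h : ¬ P.Ad p p := fun g => g.1 rfl
  have e : P.f4 p s d p = 0 := by
    unfold f4 g4
    rw [if_neg (by simp), if_neg (by simp), add_zero]
  unfold K4
  rw [f4_zero h, f4_zero h, e, add_zero, add_zero, add_zero]

include P in
lemma finite (x : W) : Finite W :=
  Finite.of_surjective (fun n : Option (Fin k) => n.elim x fun i => P.it x i) fun w => by
    by_cases g : w = x
    · exact ⟨none, g.symm⟩
    · obtain ⟨n, n1, n2, n3⟩ := P.win g 0
      exact ⟨some ⟨n.toNat, by omega⟩, by simp [Int.toNat_of_nonneg n1, n3]⟩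

/-- Two short triangles with the same orientation on the edge `x y`. -/
lemma twin (h : P.Sh x y c) (h' : P.Sh x y c') (e : c ≠ c') :
    ind (P.On x c c' y) + ind (P.On x c' c y) = 1 ∧ ind (P.On y x c' c) + ind (P.On y x c c') = 1 := by
  have := P.finite x
  obtain ⟨L, t, T, m⟩ := P.exists_tm h.a1.1
  have y1 := T.sym _ _ h.a1
  have m1 := m x c h.a3.1.symm
  have m2 := m x c' h'.a3.1.symm
  have m3 := y1 ▸ m y c h.a2.1
  have m4 := y1 ▸ m y c' h'.a2.1
  have n1 := T.ne h.a3.1.symm h'.a3.1.symm e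
  have n2 := T.ne h.a3.1.symm h.a1.1 h.a2.1
  have n3 := T.ne h'.a3.1.symm h.a1.1 h'.a2.1
  have n4 := T.ne h.a2.1 h'.a2.1 e
  have n5 := T.ne h.a2.1 h.a1.1.symm h.a3.1.symm
  have n6 := T.ne h'.a2.1 h.a1.1.symm h'.a3.1.symm
  unfold ind
  rw [T.on h.a3.1.symm h'.a3.1.symm h.a1.1, T.on h'.a3.1.symm h.a3.1.symm h.a1.1,
    T.on h.a1.1.symm h'.a2.1 h.a2.1, T.on h.a1.1.symm h.a2.1 h'.a2.1, bt3 m1 m2, bt3 m2 m1,
    bt1 m4 m3, bt1 m3 m4]
  constructor <;> split_ifs <;> omega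

/-- Two short triangles with opposite orientations on the edge `x y`. -/
lemma anti (h : P.Sh x y c) (h' : P.Sh y x c') :
    2 ≤ ind (P.On x c c' y) + ind (P.On x y c c') + ind (P.On y x c' c) + ind (P.On y c' c x) := by
  have := P.finite x
  have e : c ≠ c' := fun g => h.not_swap (g ▸ h')
  obtain ⟨L, t, T, m⟩ := P.exists_tm h.a1.1
  have y1 := T.sym _ _ h.a1
  have m1 := m x c h.a3.1.symm
  have m2 := m x c' h'.a2.1
  have m3 := y1 ▸ m y c h.a2.1
  have m4 := y1 ▸ m y c' h'.a3.1.symm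
  have n1 := T.ne h.a3.1.symm h'.a2.1 e
  have n4 := T.ne h.a2.1 h'.a3.1.symm e
  have s1 := T.sh3 h
  have s2 := T.sh3 h'
  rw [T.sym _ _ h.a3, bt1 m1 (m y c h.a2.1)] at s1
  rw [T.sym _ _ h'.a3, bt1 m4 (y1 ▸ m2)] at s2
  unfold ind
  rw [T.on h.a3.1.symm h'.a2.1 h.a1.1, T.on h.a1.1 h.a3.1.symm h'.a2.1,
    T.on h.a1.1.symm h'.a3.1.symm h.a2.1, T.on h'.a3.1.symm h.a2.1 h.a1.1.symm, bt3 m1 m2,
    bt1 m1 m2, bt1 m4 m3, bt3 m4 m3]
  split_ifs <;> omega

/-- Lemma W for twins, with the two extra incidences. -/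
lemma met_twin (h : P.Sh x y c) (h' : P.Sh x y c') (e : c ≠ c') : P.met x y c c' + P.met x y c' c =
    2 + ind (P.On c y c' x) + ind (P.On c' y c x) := by
  have := twin h h' e
  unfold met
  omega

/-- Lemma W for opposite orientations. -/
lemma met_anti (h : P.Sh x y c) (h' : P.Sh y x c') : 2 + ind (P.On c y c' x) + ind (P.On c' x c y) ≤
    P.met x y c c' + P.met y x c' c := by
  have := anti h h'
  unfold met
  omega

/-- The value of `f4` by the winding. -/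
lemma f4_cases (h1 : P.Ad x y) (h2 : P.Ad y c) (h3 : P.Ad c x) (d1 : d ≠ x) (d2 : d ≠ y)
    (d3 : d ≠ c) : (P.mu x y c = 0 ∧ P.f4 x y c d = 0) ∨
      (P.mu x y c = 1 ∧ P.Sh x y c ∧ P.f4 x y c d = P.met x y c d - 1) ∨
      (P.mu x y c = -1 ∧ P.Sh y x c ∧ P.f4 x y c d = P.met y x c d - 1) := by
  have s := mu_swap h1 h2 h3
  unfold f4
  rcases mu_cases h1 h2 h3 with e | e | e
  · have g : P.Sh y x c := ⟨h1.symm, h3.symm, h2.symm, by omega⟩
    exact Or.inr (Or.inr ⟨e, g, by rw [g4_neg g.not_swap, g4_pos g d2 d1 d3, zero_add]⟩)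
  · refine Or.inl ⟨e, ?_⟩
    rw [g4_neg fun g => by have := g.e; omega, g4_neg fun g => by have := g.e; omega, add_zero]
  · have g : P.Sh x y c := ⟨h1, h2, h3, e⟩
    exact Or.inr (Or.inl ⟨e, g, by rw [g4_neg g.not_swap, g4_pos g d1 d2 d3, add_zero]⟩)

/-- The value of `J3` by the winding. -/
lemma J3_cases (h1 : P.Ad x y) (h2 : P.Ad y c) (h3 : P.Ad c x) (z : W) :
    (P.mu x y c = 0 ∧ P.J3 z x y c = 0) ∨
      (P.mu x y c = 1 ∧ P.Sh x y c ∧ P.J3 z x y c = 1 + P.met x y c z) ∨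
      (P.mu x y c = -1 ∧ P.Sh y x c ∧ P.J3 z x y c = 1 + P.met y x c z) := by
  have s := mu_swap h1 h2 h3
  unfold J3
  rcases mu_cases h1 h2 h3 with e | e | e
  · have g : P.Sh y x c := ⟨h1.symm, h3.symm, h2.symm, by omega⟩
    exact Or.inr (Or.inr ⟨e, g, by rw [h3_neg g.not_swap, h3_pos g, zero_add]⟩)
  · refine Or.inl ⟨e, ?_⟩
    rw [h3_neg fun g => by have := g.e; omega, h3_neg fun g => by have := g.e; omega, add_zero]
  · have g : P.Sh x y c := ⟨h1, h2, h3, e⟩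
    exact Or.inr (Or.inl ⟨e, g, by rw [h3_neg g.not_swap, h3_pos g, add_zero]⟩)

/-- Lemma W: two wound triangles on a common edge. -/
lemma f4_pair (h1 : P.Ad x y) (h2 : P.Ad y c) (h3 : P.Ad c x) (h4 : P.Ad y d) (h5 : P.Ad d x)
    (e : d ≠ c) (m1 : P.mu x y c ≠ 0) (m2 : P.mu x y d ≠ 0) : 0 ≤ P.f4 x y c d + P.f4 x y d c := by
  have i1 := ind_nonneg (P.On c y d x)
  have i2 := ind_nonneg (P.On d y c x)
  have i3 := ind_nonneg (P.On c x d y)
  have i4 := ind_nonneg (P.On d x c y)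
  rcases f4_cases h1 h2 h3 h5.1.symm h4.1 e with a | ⟨-, a, a'⟩ | ⟨-, a, a'⟩
  · exact absurd a.1 m1
  all_goals rcases f4_cases h1 h4 h5 h3.1.symm h2.1 e.symm with b | ⟨-, b, b'⟩ | ⟨-, b, b'⟩
  · exact absurd b.1 m2
  · have := met_twin a b e.symm; omega
  · have := met_anti a b; omega
  · exact absurd b.1 m2
  · have := met_anti b a; omega
  · have := met_twin a b e.symm; omega

lemma f4_flat (m : P.mu x y c = 0) (h1 : P.Ad x y) (h2 : P.Ad y c) (h3 : P.Ad c x) (d : W) :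
    P.f4 x y c d = 0 := by
  have s := mu_swap h1 h2 h3
  unfold f4
  rw [g4_neg fun g => by have := g.e; omega, g4_neg fun g => by have := g.e; omega, add_zero]

lemma mu_sw (h1 : P.Ad x y) (h2 : P.Ad y c) (h3 : P.Ad c x) : P.mu x c y = -P.mu x y c := by
  rw [← mu_swap h1 h2 h3, P.mu_rot y x c]

lemma cocycle {p q s : W} (h2 : P.Ad p s) (h5 : P.Ad q d) :
    P.mu p q s + P.mu p s d = P.mu p q d + P.mu q s d := by
  unfold mu
  rw [h2.sh, h5.sh]
  ring

/-- The excess of a clique on four vertices is not negative. -/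
lemma K4_nonneg {p q s : W} (h1 : P.Ad p q) (h2 : P.Ad p s) (h3 : P.Ad p d) (h4 : P.Ad q s)
    (h5 : P.Ad q d) (h6 : P.Ad s d) : 0 ≤ P.K4 p q s d := by
  have e1 := f4_pair h1 h4 h2.symm h5 h3.symm h6.1
  have e2 := f4_pair h2 h4.symm h1.symm h6 h3.symm h5.1
  have e3 := f4_pair h3 h5.symm h1.symm h6.symm h2.symm h4.1
  have e4 := f4_pair h4 h2.symm h1 h6 h5.symm h3.1
  have e5 := f4_pair h5 h3.symm h1 h6.symm h4.symm h2.1
  have e6 := f4_pair h6 h3.symm h2 h5.symm h4 h1.1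
  have z1 := fun m => f4_flat m h1 h4 h2.symm d
  have z2 := fun m => f4_flat m h1 h5 h3.symm s
  have z3 := fun m => f4_flat m h2 h6 h3.symm q
  have z4 := fun m => f4_flat m h4 h6 h5.symm p
  rw [P.f4_swap' p q s d] at e2
  rw [P.f4_swap' p q d s, P.f4_swap' p s d q] at e3
  rw [P.f4_rot p q s d] at e4
  rw [P.f4_rot p q d s, P.f4_swap' q s d p] at e5
  rw [P.f4_rot p s d q, P.f4_rot q s d p] at e6
  have c1 := mu_cases h1 h4 h2.symm
  have c2 := mu_cases h1 h5 h3.symm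
  have c3 := mu_cases h2 h6 h3.symm
  have c4 := mu_cases h4 h6 h5.symm
  rw [mu_sw h1 h4 h2.symm] at e2
  rw [mu_sw h1 h5 h3.symm, mu_sw h2 h6 h3.symm] at e3
  rw [P.mu_rot p q s] at e4
  rw [P.mu_rot p q d, mu_sw h4 h6 h5.symm] at e5
  rw [P.mu_rot p s d, P.mu_rot q s d] at e6
  have c := cocycle h2 h5
  unfold K4
  generalize P.mu p q s = m1 at *
  generalize P.mu p q d = m2 at *
  generalize P.mu p s d = m3 at *
  generalize P.mu q s d = m4 at *
  rcases c1 with rfl | rfl | rfl <;> rcases c2 with rfl | rfl | rfl <;>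
    rcases c3 with rfl | rfl | rfl <;> rcases c4 with rfl | rfl | rfl <;> simp at * <;> omega

lemma K4_nonneg' {p q s : W} (h1 : p = q ∨ P.Ad p q) (h2 : p = s ∨ P.Ad p s) (h3 : p = d ∨ P.Ad p d)
    (h4 : q = s ∨ P.Ad q s) (h5 : q = d ∨ P.Ad q d) (h6 : s = d ∨ P.Ad s d) : 0 ≤ P.K4 p q s d := by
  rcases h1 with rfl | h1
  · rw [K4_rep]
  rcases h2 with rfl | h2
  · rw [K4_23, K4_rep]
  rcases h3 with rfl | h3
  · rw [K4_34, K4_23, K4_rep]
  rcases h4 with rfl | h4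
  · rw [K4_12, K4_23, K4_rep]
  rcases h5 with rfl | h5
  · rw [K4_12, K4_34, K4_23, K4_rep]
  rcases h6 with rfl | h6
  · rw [K4_23, K4_12, K4_34, K4_23, K4_rep]
  exact K4_nonneg h1 h2 h3 h4 h5 h6

/-- Four vertices with one missing edge `c d`. -/
lemma K4_miss (h : ¬ P.Ad c d) (x y : W) : P.K4 x y c d = P.f4 x y c d + P.f4 x y d c := by
  unfold K4
  rw [← P.f4_rot x c d y, ← P.f4_rot y c d x, f4_zero h, f4_zero h, add_zero, add_zero]

/-- An edge of the clique and two partners. -/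
lemma pair_nonneg (h : ¬ P.Ad c d) (e : d ≠ c) (h1 : P.Ad x y) (h2 : P.Ad y c) (h3 : P.Ad c x)
    (h4 : P.Ad y d) (h5 : P.Ad d x) (z : W) :
    0 ≤ P.K4 x y c d + P.J3 z x y c + P.J3 z x y d := by
  rw [K4_miss h]
  have p := f4_pair h1 h2 h3 h4 h5 e
  have a := f4_cases h1 h2 h3 h5.1.symm h4.1 e
  have b := f4_cases h1 h4 h5 h3.1.symm h2.1 e.symm
  have a' := J3_cases h1 h2 h3 z
  have b' := J3_cases h1 h4 h5 z
  have := P.met_nonneg x y c d
  have := P.met_nonneg y x c d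
  have := P.met_nonneg x y d c
  have := P.met_nonneg y x d c
  have := P.met_nonneg x y c z
  have := P.met_nonneg y x c z
  have := P.met_nonneg x y d z
  have := P.met_nonneg y x d z
  rcases a with a | ⟨a, -, a1⟩ | ⟨a, -, a1⟩ <;> rcases b with b | ⟨b, -, b1⟩ | ⟨b, -, b1⟩ <;>
    rcases a' with a' | ⟨a', -, a2⟩ | ⟨a', -, a2⟩ <;>
    rcases b' with b' | ⟨b', -, b2⟩ | ⟨b', -, b2⟩ <;> omega

section Count
variable [Fintype W]

lemma point (hk : Fintype.card W = k + 1) (hx : x ≠ z) (hy : y ≠ z) (hc : c ≠ z) :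
    ∑ d ∈ univ.erase z, P.g4 x y c d + P.h3 z x y c = 0 := by
  by_cases h : P.Sh x y c
  · have e1 : ∑ d, P.met x y c d = k - 4 := by
      unfold met
      rw [sum_add_distrib, sum_add_distrib, sum_ind, sum_ind, sum_ind]
      exact h.card
    have e2 : ∀ d, P.g4 x y c d = P.met x y c d - 1 + (ind (d = x) + ind (d = y) + ind (d = c)) := by
      intro d
      have n1 := h.a1.1
      have n2 := h.a2.1
      have n3 := h.a3.1
      have z0 : d = x ∨ d = y ∨ d = c → P.met x y c d = 0 := fun g => by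
        unfold met
        rw [ind_neg fun o => by have := o.ne; tauto, ind_neg fun o => by have := o.ne; tauto,
          ind_neg fun o => by have := o.ne; tauto]
        rfl
      unfold g4
      by_cases a : d = x
      · rw [if_neg (by tauto), z0 (by tauto), ind_pos a, ind_neg (a ▸ n1.symm), ind_neg (a ▸ n3)]
        rfl
      by_cases b : d = y
      · rw [if_neg (by tauto), z0 (by tauto), ind_pos b, ind_neg a, ind_neg (b ▸ n2.symm)]
        rfl
      by_cases e : d = c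
      · rw [if_neg (by tauto), z0 (by tauto), ind_pos e, ind_neg a, ind_neg b]
        rfl
      rw [if_pos ⟨h, a, b, e⟩, ind_neg a, ind_neg b, ind_neg e]
      simp
    have e3 : ∀ v : W, ∑ d, ind (d = v) = 1 := fun v => by unfold ind; simp
    have e4 : ∑ d, P.g4 x y c d = -2 := by
      simp only [e2, sum_add_distrib, sum_sub_distrib, e1, e3, sum_const, card_univ, hk]
      simp
      ring
    rw [← add_sum_erase _ _ (mem_univ z), g4_pos h hx.symm hy.symm hc.symm] at e4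
    rw [h3_pos h]
    omega
  · rw [h3_neg h, sum_eq_zero fun d _ => g4_neg h d, add_zero]

/-- The count over all of the graph without `z`. -/
theorem count0 (hk : Fintype.card W = k + 1) (z : W) :
    ∑ p ∈ univ.erase z, ∑ q ∈ univ.erase z, ∑ s ∈ univ.erase z, ∑ d ∈ univ.erase z, P.K4 p q s d +
      4 * ∑ p ∈ univ.erase z, ∑ q ∈ univ.erase z, ∑ s ∈ univ.erase z, P.J3 z p q s = 0 := by
  generalize hH : univ.erase z = H
  have e0 : ∑ p ∈ H, ∑ q ∈ H, ∑ s ∈ H, ∑ d ∈ H, P.g4 p q s d +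
      ∑ p ∈ H, ∑ q ∈ H, ∑ s ∈ H, P.h3 z p q s = 0 := by
    simp only [← sum_add_distrib]
    subst hH
    exact sum_eq_zero fun p hp => sum_eq_zero fun q hq => sum_eq_zero fun s hs =>
      point hk (ne_of_mem_erase hp) (ne_of_mem_erase hq) (ne_of_mem_erase hs)
  have e1 : ∑ p ∈ H, ∑ q ∈ H, ∑ s ∈ H, ∑ d ∈ H, P.f4 p q s d =
      2 * ∑ p ∈ H, ∑ q ∈ H, ∑ s ∈ H, ∑ d ∈ H, P.g4 p q s d := by
    simp only [f4, sum_add_distrib]
    rw [sum_comm (f := fun p q => ∑ s ∈ H, ∑ d ∈ H, P.g4 q p s d)]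
    ring
  have e2 : ∑ p ∈ H, ∑ q ∈ H, ∑ s ∈ H, P.J3 z p q s =
      2 * ∑ p ∈ H, ∑ q ∈ H, ∑ s ∈ H, P.h3 z p q s := by
    simp only [J3, sum_add_distrib]
    rw [sum_comm (f := fun p q => ∑ s ∈ H, P.h3 z q p s)]
    ring
  have e3 : ∑ p ∈ H, ∑ q ∈ H, ∑ s ∈ H, ∑ d ∈ H, P.f4 p q d s =
      ∑ p ∈ H, ∑ q ∈ H, ∑ s ∈ H, ∑ d ∈ H, P.f4 p q s d :=
    sum_congr rfl fun p _ => sum_congr rfl fun q _ => sum_comm
  have e4 : ∑ p ∈ H, ∑ q ∈ H, ∑ s ∈ H, ∑ d ∈ H, P.f4 p s d q =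
      ∑ p ∈ H, ∑ q ∈ H, ∑ s ∈ H, ∑ d ∈ H, P.f4 p q s d :=
    sum_congr rfl fun p _ => sum_comm.trans (sum_congr rfl fun q _ => sum_comm)
  have e5 : ∑ p ∈ H, ∑ q ∈ H, ∑ s ∈ H, ∑ d ∈ H, P.f4 q s d p =
      ∑ p ∈ H, ∑ q ∈ H, ∑ s ∈ H, ∑ d ∈ H, P.f4 p q s d :=
    sum_comm.trans (sum_congr rfl fun q _ => sum_comm.trans (sum_congr rfl fun s _ => sum_comm))
  simp only [K4, sum_add_distrib]
  rw [e3, e4, e5, e1, e2]
  linarith

end Count

end PM

end Pool.Agent.P.MP_3f5ded_co.UG
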