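import Pool.Agent.P.MP_3f5ded_co.CC0
import Pool.Agent.P.MP_3f5ded_co.EQ2

set_option autoImplicit false

namespace Pool.Agent.P.MP_3f5ded_co.UG

open Finset
open scoped Classical

namespace PM
variable {W : Type} {k : ℕ} {r : ℝ} {Fe : W → W → Prop} (P : PM W k r Fe)

/-- Unit of cost at `u`. -/
def Cu (z h l u x : W) : Prop := ¬ P.De z h x ∧ ¬ P.De z x l ∧ P.On u l x h

/-- Unit of cost at the tail. -/
def Ch (z h l u x : W) : Prop := ¬ P.Gd z h l x ∧ ¬ P.De z h x ∧ P.On h u x l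

/-- Unit of cost at the head. -/
def Cq (z h l u x : W) : Prop := ¬ P.Gd z h l x ∧ ¬ P.De z x l ∧ P.On l h x u

/-- Unit of cost at a good vertex outside `U`. -/
def Cy (U : Finset W) (z h l u y : W) : Prop := y ∉ U ∧ P.Gd z h l y ∧ P.On y l u h

/-- The units on the triangle `h, l, u`. -/
noncomputable def ce [Fintype W] (z h l u : W) : ℤ :=
  ∑ x, (ind (P.Cu z h l u x) + ind (P.Ch z h l u x) + ind (P.Cq z h l u x))

/-- The cost of the edge `h l`. -/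
noncomputable def cE [Fintype W] (U : Finset W) (z h l : W) : ℤ := ∑ u ∈ U, P.ce z h l u

/-- The units of the last kind. -/
noncomputable def cY [Fintype W] (U : Finset W) (z h l : W) : ℤ :=
  ∑ u ∈ U, ∑ y, ind (P.Cy U z h l u y)

/-- The total cost. -/
noncomputable def cost [Fintype W] (U : Finset W) (z : W) : ℤ :=
  ∑ p ∈ univ.filter fun p : W × W => P.De z p.1 p.2, (P.cE U z p.1 p.2 + P.cY U z p.1 p.2)

/-- A vertex without units. -/
structure Cln (U : Finset W) (z u : W) : Prop where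
  mem : u ∈ U
  cu : ∀ h l x, P.De z h l → ¬ P.Cu z h l u x
  ch : ∀ h l x, P.De z h l → ¬ P.Ch z h l u x
  cl : ∀ h l x, P.De z h l → ¬ P.Cq z h l u x
  cy : ∀ h l x, P.De z h l → ¬ P.Cy U z h l u x

/-- How often `x` lies on the arc at `u`, at the tail, at the head. -/
noncomputable def Mu (U : Finset W) (h l x : W) : ℤ := ∑ u ∈ U, ind (P.On u l x h)
noncomputable def Mh (U : Finset W) (h l x : W) : ℤ := ∑ u ∈ U, ind (P.On h u x l)
noncomputable def Ml (U : Finset W) (h l x : W) : ℤ := ∑ u ∈ U, ind (P.On l h x u)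

/-- The shifted items of `x` are the items at the levels from `f` to `g`. -/
def Blk (z x : W) (f g : ℤ) : Prop :=
  (∀ m, f ≤ m → m ≤ g → P.De z x (P.it x m) ∨ P.De z (P.it x m) x) ∧
    ∀ y, P.De z x y ∨ P.De z y x → ∃ m, f ≤ m ∧ m ≤ g ∧ P.it x m = y

/-- The part of the setting that does not depend on the pattern of shifted edges. -/
structure BP (U : Finset W) (z : W) : Prop where
  card : U.card + 6 = k
  big : 12 ≤ k
  uz : ∀ u ∈ U, u ≠ z
  ug : ∀ u ∈ U, ∀ x, x ≠ z → x ≠ u → P.Ad u x ∧ P.sh u x = 0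
  hh : ∀ h l l', P.De z h l → P.De z h l' → l' ≠ l → P.Ad l l' ∧ P.sh l l' = 0
  tt : ∀ h h' l, P.De z h l → P.De z h' l → h' ≠ h → P.Ad h h' ∧ P.sh h h' = 0
  bip : ∀ h l x, P.De z h l → ¬ P.De z l x

/-- Low cost. -/
structure LC [Fintype W] (U : Finset W) (z : W) : Prop extends P.BP U z where
  cost : P.cost U z ≤ 2

variable {P} {U : Finset W} {z h l h' l' u x y : W}

lemma rev_Cu : P.rev.Cu z h l u x ↔ P.Cu z l h u x := by
  unfold Cu; rw [rev_de, rev_de, rev_on]; tauto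

lemma rev_Ch : P.rev.Ch z h l u x ↔ P.Cq z l h u x := by
  unfold Ch Cq; rw [rev_de, rev_gd, rev_on]

lemma rev_Cq : P.rev.Cq z h l u x ↔ P.Ch z l h u x := by
  unfold Ch Cq; rw [rev_de, rev_gd, rev_on]

lemma rev_Cy : P.rev.Cy U z h l u x ↔ P.Cy U z l h u x := by
  unfold Cy; rw [rev_gd, rev_on]

lemma rev_Mu : P.rev.Mu U h l x = P.Mu U l h x := by simp only [Mu, rev_on]
lemma rev_Mh : P.rev.Mh U h l x = P.Ml U l h x := by simp only [Mh, Ml, rev_on]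
lemma rev_Ml : P.rev.Ml U h l x = P.Mh U l h x := by simp only [Mh, Ml, rev_on]

lemma Cln.rev (c : P.Cln U z u) : P.rev.Cln U z u :=
  ⟨c.mem, fun h l x d => rev_Cu.not.2 (c.cu l h x (rev_de.1 d)),
    fun h l x d => rev_Ch.not.2 (c.cl l h x (rev_de.1 d)),
    fun h l x d => rev_Cq.not.2 (c.ch l h x (rev_de.1 d)),
    fun h l x d => rev_Cy.not.2 (c.cy l h x (rev_de.1 d))⟩

lemma Blk.rev {f g : ℤ} (b : P.Blk z x f g) : P.rev.Blk z x (-g) (-f) :=
  ⟨fun m h1 h2 => by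
    rw [rev_de, rev_de, or_comm]; exact b.1 (-m) (by omega) (by omega), fun y hy => by
    obtain ⟨m, m1, m2, e⟩ := b.2 y (by simpa only [rev_de, or_comm] using hy)
    exact ⟨-m, by omega, by omega, by simpa [PM.rev] using e⟩⟩

lemma De.sh3 (d : P.De z h l) (g : P.Gd z h l y) : P.Sh h l y :=
  ⟨d.ad, g.al.symm, g.ah, by
    have := g.al.sh
    unfold mu
    rw [d.one, this, g.sh0, g.sl0]; rfl⟩

namespace BP

lemma rev (s : P.BP U z) : P.rev.BP U z :=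
  ⟨s.card, s.big, s.uz, fun u hu x a b => (s.ug u hu x a b).imp id neg_eq_zero.2,
    fun h l l' a b e => (s.tt l l' h (rev_de.1 a) (rev_de.1 b) e).imp id neg_eq_zero.2,
    fun h h' l a b e => (s.hh l h h' (rev_de.1 a) (rev_de.1 b) e).imp id neg_eq_zero.2,
    fun h l x a b => s.bip x l h (rev_de.1 b) (rev_de.1 a)⟩

lemma tU (s : P.BP U z) (d : P.De z h l) : h ∉ U := fun g => by
  have := (s.ug h g l d.lz d.ad.1).2
  have := d.one
  omega

lemma hU (s : P.BP U z) (d : P.De z h l) : l ∉ U := s.rev.tU (rev_de.2 d)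

/-- Every vertex of `U` is good. -/
lemma gd (s : P.BP U z) (d : P.De z h l) (hu : u ∈ U) : P.Gd z h l u :=
  have a := s.ug u hu h d.hz fun e => s.tU d (e ▸ hu)
  have b := s.ug u hu l d.lz fun e => s.hU d (e ▸ hu)
  ⟨s.uz u hu, a.1, b.1, a.2, b.2⟩

lemma sh3 (s : P.BP U z) (d : P.De z h l) (hu : u ∈ U) : P.Sh h l u := d.sh3 (s.gd d hu)

end BP

section
variable [Fintype W]

lemma ce_nonneg (P : PM W k r Fe) (z h l u : W) : 0 ≤ P.ce z h l u :=
  sum_nonneg fun _ _ => add_nonneg (add_nonneg (ind_nonneg _) (ind_nonneg _)) (ind_nonneg _)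

lemma cE_nonneg (P : PM W k r Fe) (U : Finset W) (z h l : W) : 0 ≤ P.cE U z h l :=
  sum_nonneg fun _ _ => P.ce_nonneg _ _ _ _

lemma cY_nonneg (P : PM W k r Fe) (U : Finset W) (z h l : W) : 0 ≤ P.cY U z h l :=
  sum_nonneg fun _ _ => sum_nonneg fun _ _ => ind_nonneg _

lemma rev_ce : P.rev.ce z h l u = P.ce z l h u := by
  simp only [ce, rev_Cu, rev_Ch, rev_Cq]
  exact sum_congr rfl fun _ _ => by ring

lemma rev_cE : P.rev.cE U z h l = P.cE U z l h := by simp only [cE, rev_ce]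

lemma rev_cY : P.rev.cY U z h l = P.cY U z l h := by simp only [cY, rev_Cy]

lemma rev_cost : P.rev.cost U z = P.cost U z := by
  simp only [cost, rev_cE, rev_cY, rev_de]
  exact sum_equiv (Equiv.prodComm W W) (by simp) (by simp)

/-- The units with the item `x`. -/
lemma ce_one (P : PM W k r Fe) (z h l u x : W) :
    ind (P.Cu z h l u x) + ind (P.Ch z h l u x) + ind (P.Cq z h l u x) ≤ P.ce z h l u :=
  single_le_sum (f := fun x => ind (P.Cu z h l u x) + ind (P.Ch z h l u x) + ind (P.Cq z h l u x))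
    (fun _ _ => add_nonneg (add_nonneg (ind_nonneg _) (ind_nonneg _)) (ind_nonneg _)) (mem_univ x)

/-- The units with the items of a set. -/
lemma ce_sub (P : PM W k r Fe) (z h l u : W) (X : Finset W) :
    ∑ x ∈ X, (ind (P.Cu z h l u x) + ind (P.Ch z h l u x) + ind (P.Cq z h l u x)) ≤ P.ce z h l u :=
  sum_le_sum_of_subset_of_nonneg (subset_univ _)
    fun _ _ _ => add_nonneg (add_nonneg (ind_nonneg _) (ind_nonneg _)) (ind_nonneg _)

namespace LC

lemma rev (s : P.LC U z) : P.rev.LC U z := ⟨s.toBP.rev, (rev_cost (P := P)).trans_le s.cost⟩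

/-- The cost of a set of shifted edges. -/
lemma sum_le (s : P.LC U z) (E : Finset (W × W)) (hE : ∀ p ∈ E, P.De z p.1 p.2) :
    ∑ p ∈ E, P.cE U z p.1 p.2 ≤ 2 :=
  ((sum_le_sum fun p _ => le_add_of_nonneg_right (P.cY_nonneg U z p.1 p.2)).trans
    (sum_le_sum_of_subset_of_nonneg (fun p hp => mem_filter.2 ⟨mem_univ _, hE p hp⟩)
      fun p _ _ => add_nonneg (P.cE_nonneg U z p.1 p.2) (P.cY_nonneg U z p.1 p.2))).trans s.cost

lemma c1 (s : P.LC U z) (d : P.De z h l) : P.cE U z h l ≤ 2 := by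
  simpa using s.sum_le {(h, l)} (by simpa using d)

lemma c2 (s : P.LC U z) (d : P.De z h l) (d' : P.De z h' l') (e : (h, l) ≠ (h', l')) :
    P.cE U z h l + P.cE U z h' l' ≤ 2 := by
  simpa [sum_pair e] using s.sum_le {(h, l), (h', l')} (by simp [d, d'])

lemma c3 (s : P.LC U z) {h'' l'' : W} (d : P.De z h l) (d' : P.De z h' l') (d'' : P.De z h'' l'')
    (e : (h, l) ≠ (h', l')) (e' : (h, l) ≠ (h'', l'')) (e'' : (h', l') ≠ (h'', l'')) :
    P.cE U z h l + P.cE U z h' l' + P.cE U z h'' l'' ≤ 2 := by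
  have := s.sum_le {(h, l), (h', l'), (h'', l'')} (by simp [d, d', d''])
  rw [sum_insert (by simp only [mem_insert, mem_singleton, not_or]; exact ⟨e, e'⟩),
    sum_pair e''] at this
  linarith

/-- At most two vertices of `U` are not clean. -/
lemma dirty (s : P.LC U z) : (U.filter fun u => ¬ P.Cln U z u).card ≤ 2 := by
  have h1 : P.cost U z = ∑ u ∈ U, ∑ p ∈ univ.filter fun p : W × W => P.De z p.1 p.2,
      (P.ce z p.1 p.2 u + ∑ y, ind (P.Cy U z p.1 p.2 u y)) := by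
    rw [sum_comm]
    exact sum_congr rfl fun p _ => by rw [cE, cY, sum_add_distrib]
  have nn : ∀ u (p : W × W), 0 ≤ P.ce z p.1 p.2 u + ∑ y, ind (P.Cy U z p.1 p.2 u y) := fun u p =>
    add_nonneg (P.ce_nonneg _ _ _ _) (sum_nonneg fun _ _ => ind_nonneg _)
  have h2 : ∑ u ∈ U, ind (¬ P.Cln U z u) ≤ P.cost U z := by
    rw [h1]
    refine sum_le_sum fun u hu => ?_
    rcases ind_cases (¬ P.Cln U z u) with g | g
    · rw [g.2]
      by_contra c
      have z0 : ∀ h l, P.De z h l → P.ce z h l u + ∑ y, ind (P.Cy U z h l u y) ≤ 0 := fun h l d => by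
        have := single_le_sum (f := fun p : W × W => P.ce z p.1 p.2 u + ∑ y, ind (P.Cy U z p.1 p.2 u y))
          (fun p _ => nn u p) (show (h, l) ∈ univ.filter fun p : W × W => P.De z p.1 p.2 by simpa using d)
        simp only at this
        omega
      have z1 : ∀ h l x, P.De z h l → ind (P.Cu z h l u x) = 0 ∧ ind (P.Ch z h l u x) = 0 ∧
          ind (P.Cq z h l u x) = 0 ∧ ind (P.Cy U z h l u x) = 0 := fun h l x d => by
        have := z0 h l d
        have := P.ce_one z h l u x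
        have := single_le_sum (f := fun y => ind (P.Cy U z h l u y)) (fun _ _ => ind_nonneg _)
          (mem_univ x)
        have := ind_nonneg (P.Cu z h l u x)
        have := ind_nonneg (P.Ch z h l u x)
        have := ind_nonneg (P.Cq z h l u x)
        have := ind_nonneg (P.Cy U z h l u x)
        omega
      refine g.1 ⟨hu, fun h l x d a => ?_, fun h l x d a => ?_, fun h l x d a => ?_,
        fun h l x d a => ?_⟩ <;> have := z1 h l x d <;> have := ind_pos a <;> omega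
    · rw [g.2]; exact sum_nonneg fun p _ => nn u p
  rw [sum_ind, filter_congr_decidable] at h2
  have := s.cost
  omega

/-- A clean vertex outside a set of at most three vertices. -/
lemma exists_cln (s : P.LC U z) (X : Finset W) (hX : X.card ≤ 3) : ∃ u, u ∉ X ∧ P.Cln U z u := by
  by_contra c
  have h1 : U ⊆ X ∪ U.filter fun u => ¬ P.Cln U z u := fun u hu => by
    by_cases g : u ∈ X
    · exact mem_union_left _ g
    · exact mem_union_right _ (mem_filter.2 ⟨hu, fun a => c ⟨u, g, a⟩⟩)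
  have := (card_le_card h1).trans (card_union_le _ _)
  have := s.dirty
  have := s.card
  have := s.big
  omega

end LC

/-- The bound in the form used by the core. -/
lemma LC.ce (s : P.LC U z) : P.Ce U z := fun h l x x' d g1 d1 g2 d2 => by
  have h1 : ∑ u ∈ U, (ind (P.On h u x l) + ind (P.On l h x' u)) ≤ P.cE U z h l := by
    refine sum_le_sum fun u _ => ?_
    have a : ind (P.On h u x l) = ind (P.Ch z h l u x) := by simp [ind, Ch, g1, d1]
    have b : ind (P.On l h x' u) = ind (P.Cq z h l u x') := by simp [ind, Cq, g2, d2]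
    have := ind_nonneg (P.Cu z h l u x)
    have := ind_nonneg (P.Cq z h l u x)
    have := ind_nonneg (P.Cu z h l u x')
    have := ind_nonneg (P.Ch z h l u x')
    by_cases e : x = x'
    · subst e
      have := P.ce_one z h l u x
      omega
    · have := P.ce_sub z h l u {x, x'}
      rw [sum_pair e] at this
      omega
  rw [sum_add_distrib, sum_ind, sum_ind] at h1
  exact_mod_cast h1.trans (s.c1 d)

namespace NF
variable [DecidableEq W] {v w a A b B : W}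

/-- The list of all vertices. -/
lemma cases (s : P.NF U z v a B w b A) (x : W) :
    x ∈ U ∨ x = z ∨ x = v ∨ x = a ∨ x = B ∨ x = w ∨ x = b ∨ x = A := by
  have := s.h4.mem x
  simp only [mem_insert] at this
  tauto

/-- The seven named vertices are different and outside `U`. -/
lemma nes (s : P.NF U z v a B w b A) : (z ≠ v ∧ z ≠ a ∧ z ≠ B ∧ z ≠ w ∧ z ≠ b ∧ z ≠ A) ∧
    (v ≠ a ∧ v ≠ B ∧ v ≠ w ∧ v ≠ b ∧ v ≠ A) ∧ (a ≠ B ∧ a ≠ w ∧ a ≠ b ∧ a ≠ A) ∧
    (B ≠ w ∧ B ≠ b ∧ B ≠ A) ∧ (w ≠ b ∧ w ≠ A) ∧ b ≠ A ∧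
    (z ∉ U ∧ v ∉ U ∧ a ∉ U ∧ B ∉ U ∧ w ∉ U ∧ b ∉ U ∧ A ∉ U) := by
  have h := s.h4
  have h1 := (h.mem v).1 (by simp)
  have h2 := (h.mem w).1 (by simp)
  have h3 : ∀ u ∈ U, u ≠ z ∧ u ≠ a ∧ u ≠ A ∧ u ≠ b ∧ u ≠ B := fun u hu => (h.mem u).1 (by simp [hu])
  exact ⟨⟨h1.1.symm, h.za, h.zB, h2.1.symm, h.zb, h.zA⟩,
    ⟨h1.2.1, h1.2.2.2.2, s.vw, h1.2.2.2.1, h1.2.2.1⟩, ⟨h.aB, h2.2.1.symm, h.ab, h.aA⟩,
    ⟨h2.2.2.2.2.symm, h.bB.symm, h.AB.symm⟩, ⟨h2.2.2.2.1, h2.2.2.1⟩, h.Ab.symm,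
    fun g => (h3 _ g).1 rfl, s.vU, fun g => (h3 _ g).2.1 rfl, fun g => (h3 _ g).2.2.2.2 rfl, s.wU,
    fun g => (h3 _ g).2.2.2.1 rfl, fun g => (h3 _ g).2.2.1 rfl⟩

/-- The edges between the named vertices. -/
lemma ads (s : P.NF U z v a B w b A) : (P.Ad v a ∧ P.Ad v B ∧ P.Ad v w ∧ P.Ad v b ∧ P.Ad v A) ∧
    (P.Ad a B ∧ P.Ad a w ∧ P.Ad a b ∧ ¬ P.Ad a A) ∧ (P.Ad B w ∧ ¬ P.Ad B b ∧ P.Ad B A) ∧
    (P.Ad w b ∧ P.Ad w A) ∧ P.Ad b A := by
  have h := s.h4
  have hv : v ∈ insert v (insert w U) := by simp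
  have hw : w ∈ insert v (insert w U) := by simp
  exact ⟨⟨h.adRa P hv, h.adRB P hv, h.adRR P hv hw s.vw.symm, h.adRb P hv, h.adRA P hv⟩,
    ⟨h.adaB P, (h.adRa P hw).symm, h.adab P,
      fun g => g.2 ((h.fe a A h.za.symm h.zA.symm).2 (by simp))⟩,
    ⟨(h.adRB P hw).symm, fun g => g.2 ((h.fe B b h.zB.symm h.zb.symm).2 (by simp)),
      (h.adAB P).symm⟩, ⟨h.adRb P hw, h.adRA P hw⟩, (h.adAb P).symm⟩

/-- The shifts between the named vertices. -/
lemma shs (s : P.NF U z v a B w b A) : (P.sh v a = 0 ∧ P.sh v B = 0 ∧ P.sh a B = 0) ∧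
    (P.sh w b = 0 ∧ P.sh w A = 0 ∧ P.sh b A = 0) ∧ (P.sh v b = 0 ∨ P.sh v b = 1) ∧
    (P.sh v A = 0 ∨ P.sh v A = 1) ∧ (P.sh a w = 0 ∨ P.sh a w = 1) ∧
    (P.sh B w = 0 ∨ P.sh B w = 1) := by
  obtain ⟨⟨z1, z2, z3, z4, z5, z6⟩, ⟨n1, n2, n3, n4, n5⟩, ⟨n6, n7, n8, n9⟩, ⟨m1, m2, m3⟩, ⟨m4, m5⟩,
    m6, -⟩ := s.nes
  obtain ⟨⟨a1, a2, a3, a4, a5⟩, ⟨a6, a7, a8, a9⟩, ⟨b1, b2, b3⟩, ⟨b4, b5⟩, b6⟩ := s.ads
  have := s.sh _ _ z1.symm z2.symm a1
  have := s.sh _ _ z1.symm z3.symm a2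
  have := s.sh _ _ z2.symm z3.symm a6
  have := s.sh _ _ z4.symm z5.symm b4
  have := s.sh _ _ z4.symm z6.symm b5
  have := s.sh _ _ z5.symm z6.symm b6
  have := s.sh _ _ z1.symm z5.symm a4
  have := s.sh _ _ z1.symm z6.symm a5
  have := s.sh _ _ z2.symm z4.symm a7
  have := s.sh _ _ z3.symm z4.symm b1
  grind

lemma ug (s : P.NF U z v a B w b A) (hu : u ∈ U) (hx : x ≠ z) (e : x ≠ u) :
    P.Ad u x ∧ P.sh u x = 0 := by
  have h1 := (s.h4.mem u).1 (by simp [hu])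
  have h2 : P.Ad u x := ⟨e, by rw [s.h4.fe u x h1.1 hx]; tauto⟩
  have := s.sh u x h1.1 hx h2
  have : u ≠ v := fun g => s.vU (g ▸ hu)
  have : u ≠ w := fun g => s.wU (g ▸ hu)
  exact ⟨h2, by tauto⟩

/-- The list of all shifted edges. -/
lemma D_iff (s : P.NF U z v a B w b A) : P.De z h l ↔ (h = v ∧ l = w) ∨ (h = a ∧ l = b) ∨
    (h = v ∧ l = b ∧ P.sh v b = 1) ∨ (h = v ∧ l = A ∧ P.sh v A = 1) ∨
    (h = a ∧ l = w ∧ P.sh a w = 1) ∨ (h = B ∧ l = w ∧ P.sh B w = 1) := by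
  obtain ⟨⟨z1, z2, z3, z4, z5, z6⟩, -⟩ := s.nes
  obtain ⟨⟨a1, a2, a3, a4, a5⟩, ⟨a6, a7, a8, a9⟩, ⟨b1, b2, b3⟩, ⟨b4, b5⟩, b6⟩ := s.ads
  constructor
  · rintro ⟨p, q, d, e⟩
    have := s.dBA
    rcases s.sh h l p q d with g | ⟨rfl | rfl | rfl, rfl | rfl | rfl, g⟩ | ⟨-, -, g⟩
    all_goals first | omega | exact absurd d a9 | exact absurd d b2 | simp [e]
  · rintro (⟨rfl, rfl⟩ | ⟨rfl, rfl⟩ | ⟨rfl, rfl, e⟩ | ⟨rfl, rfl, e⟩ | ⟨rfl, rfl, e⟩ | ⟨rfl, rfl, e⟩)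
    exacts [⟨z1.symm, z4.symm, a3, s.dvw⟩, ⟨z2.symm, z5.symm, a8, s.dab⟩, ⟨z1.symm, z5.symm, a4, e⟩,
      ⟨z1.symm, z6.symm, a5, e⟩, ⟨z2.symm, z4.symm, a7, e⟩, ⟨z3.symm, z4.symm, b1, e⟩]

lemma Dvw (s : P.NF U z v a B w b A) : P.De z v w := s.D_iff.2 (by simp)
lemma Dab (s : P.NF U z v a B w b A) : P.De z a b := s.D_iff.2 (by simp)
lemma Dvb (s : P.NF U z v a B w b A) (e : P.sh v b = 1) : P.De z v b := s.D_iff.2 (by simp [e])
lemma DvA (s : P.NF U z v a B w b A) (e : P.sh v A = 1) : P.De z v A := s.D_iff.2 (by simp [e])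
lemma Daw (s : P.NF U z v a B w b A) (e : P.sh a w = 1) : P.De z a w := s.D_iff.2 (by simp [e])
lemma DBw (s : P.NF U z v a B w b A) (e : P.sh B w = 1) : P.De z B w := s.D_iff.2 (by simp [e])

lemma bp (s : P.NF U z v a B w b A) : P.BP U z := by
  obtain ⟨-, ⟨n1, n2, n3, n4, n5⟩, ⟨n6, n7, n8, n9⟩, ⟨m1, m2, m3⟩, ⟨m4, m5⟩, m6, z0, -⟩ := s.nes
  obtain ⟨⟨a1, a2, a3, a4, a5⟩, ⟨a6, a7, a8, a9⟩, ⟨b1, b2, b3⟩, ⟨b4, b5⟩, b6⟩ := s.ads
  obtain ⟨⟨c1, c2, c3⟩, ⟨c4, c5, c6⟩, -⟩ := s.shs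
  have := a1.sh; have := a2.sh; have := a6.sh; have := b4.sh; have := b5.sh; have := b6.sh
  have := a1.symm; have := a2.symm; have := a6.symm; have := b4.symm; have := b5.symm
  have := b6.symm
  refine ⟨s.cardU, s.h4.big, fun u hu e => z0 (e ▸ hu),
    fun u hu x p q => s.ug hu p q, fun h l l' d d' e => ?_, fun h h' l d d' e => ?_,
    fun h l x d d' => ?_⟩
  all_goals
    rw [s.D_iff] at d d'
    grind

end NF

end

end PM

end Pool.Agent.P.MP_3f5ded_co.UG
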