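import Pool.Agent.P.MP_3f5ded_co.CC1

set_option autoImplicit false

namespace Pool.Agent.P.MP_3f5ded_co.UG

open Finset
open scoped Classical

lemma ind_split {p q : Prop} : ind p = ind (q ∧ p) + ind (¬ q ∧ p) := by
  unfold ind
  by_cases a : p <;> by_cases b : q <;> simp [a, b]

lemma ind_congr {p q : Prop} (h : p ↔ q) : ind p = ind q := by rw [propext h]

/-- A tournament on a set has half of the ordered pairs. -/
lemma sum_tour {W : Type} (U : Finset W) (f : W → W → ℤ) (h0 : ∀ x ∈ U, f x x = 0)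
    (h1 : ∀ x ∈ U, ∀ y ∈ U, x ≠ y → f x y + f y x = 1) :
    2 * ∑ x ∈ U, ∑ y ∈ U, f x y = U.card * (U.card - 1) := by
  have e : ∑ x ∈ U, ∑ y ∈ U, f x y = ∑ x ∈ U, ∑ y ∈ U, f y x := sum_comm
  have g : ∀ x ∈ U, ∑ y ∈ U, (f x y + f y x) = U.card - 1 := fun x hx => by
    rw [← add_sum_erase _ _ hx, h0 x hx,
      sum_congr rfl fun y hy => h1 x hx y (mem_of_mem_erase hy) (ne_of_mem_erase hy).symm,
      sum_const, card_erase_of_mem hx, nsmul_eq_mul, Nat.cast_sub (card_pos.2 ⟨x, hx⟩)]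
    simp
  rw [two_mul]
  nth_rewrite 2 [e]
  rw [← sum_add_distrib, sum_congr rfl fun x hx => sum_add_distrib.symm.trans (g x hx), sum_const,
    nsmul_eq_mul]

namespace PM
variable {W : Type} {k : ℕ} {r : ℝ} {Fe : W → W → Prop} {P : PM W k r Fe} {U : Finset W}
  {z h l h' l' u x y c p : W}

/-- After the item `p` one of two items comes first. -/
lemma pair1 (P : PM W k r Fe) (hp : p ≠ c) (hx : x ≠ c) (hy : y ≠ c) (a : p ≠ x) (b : p ≠ y)
    (e : x ≠ y) : ind (P.On c p x y) + ind (P.On c p y x) = 1 := by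
  have := st_pos (P := P) hp hx a
  have := st_pos (P := P) hp hy b
  have : P.st c p x ≠ P.st c p y := fun g => e (st_inj hp hx hy g)
  unfold ind
  rw [on_st hp hx hy, on_st hp hy hx]
  split_ifs <;> omega

/-- Before the item `p` one of two items comes last. -/
lemma pair2 (P : PM W k r Fe) (hp : p ≠ c) (hx : x ≠ c) (hy : y ≠ c) (a : p ≠ x) (b : p ≠ y)
    (e : x ≠ y) : ind (P.On c x y p) + ind (P.On c y x p) = 1 := by
  simpa only [rev_on, add_comm] using P.rev.pair1 hp hx hy a b e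

/-- Two triangles on the directed edge `x y`. -/
lemma met_pair (P : PM W k r Fe) {d : W} (a : x ≠ y) (b : c ≠ x) (e : c ≠ y) (f : d ≠ x) (g : d ≠ y)
    (i : c ≠ d) : 2 ≤ P.met x y c d + P.met x y d c := by
  have := P.pair2 a.symm b f e.symm g.symm i
  have := P.pair1 a e g b.symm f.symm i
  have := ind_nonneg (P.On c y d x)
  have := ind_nonneg (P.On d y c x)
  unfold met
  omega

variable [Fintype W] [DecidableEq W]

lemma Sh.sum_met (s : P.Sh x y c) : ∑ d, P.met x y c d = k - 4 := by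
  simp only [met, sum_add_distrib, sum_ind]
  exact s.card

/-- The free part of the meetings of `x`. -/
noncomputable def Fr (P : PM W k r Fe) (U : Finset W) (z h l x : W) : ℤ :=
  ∑ u ∈ U, (ind ((P.De z h x ∨ P.De z x l) ∧ P.On u l x h) +
    ind ((P.Gd z h l x ∨ P.De z h x) ∧ P.On h u x l) + ind ((P.Gd z h l x ∨ P.De z x l) ∧ P.On l h x u))

namespace BP

/-- The identity of one shifted edge. -/
theorem pe (s : P.BP U z) (d : P.De z h l) :
    3 * (U.card : ℤ) = P.cE U z h l + ∑ x ∈ Uᶜ, P.Fr U z h l x := by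
  have h1 : ∑ u ∈ U, ∑ x, P.met h l u x = U.card * (k - 4) := by
    rw [sum_congr rfl fun u hu => (s.sh3 d hu).sum_met, sum_const, nsmul_eq_mul]
  have h2 : ∑ u ∈ U, ∑ x, P.met h l u x = P.cE U z h l + ∑ x, P.Fr U z h l x := by
    unfold cE ce Fr
    rw [sum_comm (s := univ), ← sum_add_distrib]
    refine sum_congr rfl fun u _ => ?_
    rw [← sum_add_distrib]
    refine sum_congr rfl fun x _ => ?_
    unfold met Cu Ch Cq
    rw [ind_split (p := P.On u l x h) (q := P.De z h x ∨ P.De z x l),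
      ind_split (p := P.On h u x l) (q := P.Gd z h l x ∨ P.De z h x),
      ind_split (p := P.On l h x u) (q := P.Gd z h l x ∨ P.De z x l)]
    simp only [not_or, and_assoc]
    ring
  have n1 : ∀ u ∈ U, u ≠ h := fun u hu e => s.tU d (e ▸ hu)
  have n2 : ∀ u ∈ U, u ≠ l := fun u hu e => s.hU d (e ▸ hu)
  have h3 := sum_tour U (fun x u => ind (P.On h u x l)) (fun x _ => ind_neg fun g => g.ne.2.1 rfl)
    fun x hx y hy e => P.pair2 d.ad.1 (n1 y hy) (n1 x hx) (n2 y hy).symm (n2 x hx).symm e.symm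
  have h4 := sum_tour U (fun x u => ind (P.On l h x u)) (fun x _ => ind_neg fun g => g.ne.2.2.1 rfl)
    fun x hx y hy e => P.pair1 d.ad.1.symm (n2 x hx) (n2 y hy) (n1 x hx).symm (n1 y hy).symm e
  have h5 : ∑ x ∈ U, P.Fr U z h l x =
      ∑ x ∈ U, ∑ u ∈ U, ind (P.On h u x l) + ∑ x ∈ U, ∑ u ∈ U, ind (P.On l h x u) := by
    rw [← sum_add_distrib]
    refine sum_congr rfl fun x hx => ?_
    rw [← sum_add_distrib]
    refine sum_congr rfl fun u _ => ?_
    rw [ind_neg fun g => g.1.elim (fun a => s.hU a hx) fun a => s.tU a hx, zero_add,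
      ind_congr (and_iff_right (Or.inl (s.gd d hx))), ind_congr (and_iff_right (Or.inl (s.gd d hx)))]
  have h6 := sum_add_sum_compl U (P.Fr U z h l)
  have h7 : (k : ℤ) = U.card + 6 := by have := s.card; omega
  rw [h7] at h1
  nlinarith

/-- A good vertex outside `U`. -/
theorem gy (s : P.BP U z) (d : P.De z h l) (g : P.Gd z h l y) (hy : y ∉ U) :
    P.Mh U h l y + P.Ml U h l y + 2 =
      U.card + ∑ u ∈ U, ind (P.On y l u h) + ∑ x ∈ Uᶜ, P.met h l y x := by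
  have h1 := (d.sh3 g).sum_met
  rw [← sum_add_sum_compl U] at h1
  have h2 : P.Mh U h l y + P.Ml U h l y + ∑ u ∈ U, P.met h l y u =
      U.card * 2 + ∑ u ∈ U, ind (P.On y l u h) := by
    unfold Mh Ml
    rw [← nsmul_eq_mul, ← sum_const, ← sum_add_distrib, ← sum_add_distrib, ← sum_add_distrib]
    refine sum_congr rfl fun u hu => ?_
    have n1 : u ≠ h := fun e => s.tU d (e ▸ hu)
    have n2 : u ≠ l := fun e => s.hU d (e ▸ hu)
    have n3 : u ≠ y := fun e => hy (e ▸ hu)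
    have := P.pair2 d.ad.1 n1 g.ah.1.symm n2.symm g.al.1 n3
    have := P.pair1 d.ad.1.symm n2 g.al.1.symm n1.symm g.ah.1 n3
    unfold met
    omega
  have := s.card
  omega

/-- Two tails on one head. -/
theorem twT (s : P.BP U z) (d : P.De z h l) (d' : P.De z h' l) (e : h ≠ h') :
    P.Mu U h l h' + P.Mu U h' l h = U.card ∧ P.Ml U h l h' + P.Ml U h' l h = U.card := by
  unfold Mu Ml
  rw [← sum_add_distrib, ← sum_add_distrib, ← mul_one (U.card : ℤ), ← nsmul_eq_mul, ← sum_const]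
  constructor <;> refine sum_congr rfl fun u hu => ?_
  · exact P.pair1 (s.gd d hu).al.1 (s.gd d' hu).ah.1 (s.gd d hu).ah.1 d'.ad.1 d.ad.1 e.symm
  · exact P.pair2 (s.gd d hu).al.1.symm d.ad.1.symm d'.ad.1.symm (s.gd d hu).ah.1.symm
      (s.gd d' hu).ah.1.symm e

/-- Two heads on one tail. -/
theorem twH (s : P.BP U z) (d : P.De z h l) (d' : P.De z h l') (e : l ≠ l') :
    P.Mu U h l l' + P.Mu U h l' l = U.card ∧ P.Mh U h l l' + P.Mh U h l' l = U.card := by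
  simpa only [rev_Mu, rev_Ml] using s.rev.twT (rev_de.2 d) (rev_de.2 d') e

end BP

omit [Fintype W] [DecidableEq W] in
lemma Fr_zero (a : ¬ P.De z h x) (b : ¬ P.De z x l) (g : ¬ P.Gd z h l x) : P.Fr U z h l x = 0 :=
  sum_eq_zero fun u _ => by simp [ind, a, b, g]

omit [Fintype W] [DecidableEq W] in
lemma Fr_gd (a : ¬ P.De z h x) (b : ¬ P.De z x l) (g : P.Gd z h l x) :
    P.Fr U z h l x = P.Mh U h l x + P.Ml U h l x := by
  unfold Fr Mh Ml
  rw [← sum_add_distrib]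
  exact sum_congr rfl fun u _ => by simp [ind, a, b, g]

omit [Fintype W] [DecidableEq W] in
lemma Fr_twT (a : ¬ P.De z h x) (b : P.De z x l) : P.Fr U z h l x = P.Mu U h l x + P.Ml U h l x := by
  have g : ¬ P.Gd z h l x := fun g => by have := g.sl0; have := b.one; omega
  unfold Fr Mu Ml
  rw [← sum_add_distrib]
  exact sum_congr rfl fun u _ => by simp [ind, a, b, g]

omit [Fintype W] [DecidableEq W] in
lemma Fr_twH (a : P.De z h x) (b : ¬ P.De z x l) : P.Fr U z h l x = P.Mu U h l x + P.Mh U h l x := by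
  have g : ¬ P.Gd z h l x := fun g => by
    have := g.sh0; have := a.one; have := a.ad.sh; omega
  unfold Fr Mu Mh
  rw [← sum_add_distrib]
  exact sum_congr rfl fun u _ => by simp [ind, a, b, g]

omit [Fintype W] [DecidableEq W] in
lemma Fr_h (d : P.De z h l) : P.Fr U z h l h = 0 :=
  sum_eq_zero fun u _ => by
    rw [ind_neg fun g => g.2.ne.2.2.1 rfl, ind_neg fun g => g.2.ne.1 rfl,
      ind_neg fun g => g.2.ne.2.1 rfl]; rfl

omit [Fintype W] [DecidableEq W] in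
lemma Fr_l (d : P.De z h l) : P.Fr U z h l l = 0 :=
  sum_eq_zero fun u _ => by
    rw [ind_neg fun g => g.2.ne.2.1 rfl, ind_neg fun g => g.2.ne.2.2.1 rfl,
      ind_neg fun g => g.2.ne.1 rfl]; rfl

omit [Fintype W] [DecidableEq W] in
lemma Fr_z : P.Fr U z h l z = 0 := Fr_zero (fun g => g.lz rfl) (fun g => g.hz rfl) fun g => g.yz rfl

omit [Fintype W] [DecidableEq W] in
/-- A vertex of the same kind as the tail. -/
lemma Fr_T (a : x ≠ z) (d : P.De z h l) (b : P.Ad x h) (c : P.Ad x l) (e : P.sh x h = 0)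
    (f : P.sh x l = 0 ∨ P.sh x l = 1) : P.Fr U z h l x =
      (if P.sh x l = 1 then P.Mu U h l x else P.Mh U h l x) + P.Ml U h l x := by
  have g : ¬ P.De z h x := fun g => by have := g.one; have := b.sh; omega
  split_ifs with i
  · exact Fr_twT g ⟨a, d.lz, c, i⟩
  · exact Fr_gd g (fun j => i j.one) ⟨a, b, c, e, by omega⟩

omit [Fintype W] [DecidableEq W] in
/-- A vertex of the same kind as the head. -/
lemma Fr_H (a : x ≠ z) (d : P.De z h l) (b : P.Ad h x) (c : P.Ad x l) (e : P.sh x l = 0)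
    (f : P.sh h x = 0 ∨ P.sh h x = 1) : P.Fr U z h l x =
      (if P.sh h x = 1 then P.Mu U h l x else P.Ml U h l x) + P.Mh U h l x := by
  have g : ¬ P.De z x l := fun g => by have := g.one; omega
  split_ifs with i
  · exact Fr_twH ⟨d.hz, a, b, i⟩ g
  · rw [add_comm]
    exact Fr_gd (fun j => i j.one) g ⟨a, b.symm, c, by have := b.sh; omega, e⟩

omit [Fintype W] [DecidableEq W] in
lemma Fr_PT (b : ¬ P.Ad x l) (e : P.sh h x = 0) : P.Fr U z h l x = 0 :=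
  Fr_zero (fun g => by have := g.one; omega) (fun g => b g.ad) fun g => b g.al

omit [Fintype W] [DecidableEq W] in
lemma Fr_PH (b : ¬ P.Ad h x) (e : P.sh x l = 0) : P.Fr U z h l x = 0 :=
  Fr_zero (fun g => b g.ad) (fun g => by have := g.one; omega) fun g => b g.ah.symm

namespace NF
variable {v w a A b B : W}

lemma sumc (s : P.NF U z v a B w b A) (f : W → ℤ) :
    ∑ x ∈ Uᶜ, f x = f z + f v + f a + f B + f w + f b + f A := by
  obtain ⟨⟨z1, z2, z3, z4, z5, z6⟩, ⟨n1, n2, n3, n4, n5⟩, ⟨n6, n7, n8, n9⟩, ⟨m1, m2, m3⟩, ⟨m4, m5⟩,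
    m6, u0, u1, u2, u3, u4, u5, u6⟩ := s.nes
  have e : Uᶜ = {z, v, a, B, w, b, A} := by
    ext x
    simp only [mem_compl, mem_insert, mem_singleton]
    refine ⟨fun g => (s.cases x).resolve_left g, ?_⟩
    rintro (rfl | rfl | rfl | rfl | rfl | rfl | rfl) <;> assumption
  rw [e, sum_insert (by simp [*]), sum_insert (by simp [*]), sum_insert (by simp [*]),
    sum_insert (by simp [*]), sum_insert (by simp [*]), sum_pair m6]
  ring

section
variable (s : P.NF U z v a B w b A)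
include s

theorem pe_vw : 3 * (U.card : ℤ) = P.cE U z v w +
    ((if P.sh a w = 1 then P.Mu U v w a else P.Mh U v w a) + P.Ml U v w a) +
    ((if P.sh B w = 1 then P.Mu U v w B else P.Mh U v w B) + P.Ml U v w B) +
    ((if P.sh v b = 1 then P.Mu U v w b else P.Ml U v w b) + P.Mh U v w b) +
    ((if P.sh v A = 1 then P.Mu U v w A else P.Ml U v w A) + P.Mh U v w A) := by
  obtain ⟨⟨z1, z2, z3, z4, z5, z6⟩, -⟩ := s.nes
  obtain ⟨⟨a1, a2, a3, a4, a5⟩, ⟨a6, a7, a8, a9⟩, ⟨b1, b2, b3⟩, ⟨b4, b5⟩, b6⟩ := s.ads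
  obtain ⟨⟨c1, c2, c3⟩, ⟨c4, c5, c6⟩, c7, c8, c9, c0⟩ := s.shs
  have d := s.Dvw
  rw [s.bp.pe d, s.sumc, Fr_z, Fr_h d, Fr_l d,
    Fr_T z2.symm d a1.symm a7 (by rw [a1.sh, c1]; rfl) c9,
    Fr_T z3.symm d a2.symm b1 (by rw [a2.sh, c2]; rfl) c0,
    Fr_H z5.symm d a4 b4.symm (by rw [b4.sh, c4]; rfl) c7,
    Fr_H z6.symm d a5 b5.symm (by rw [b5.sh, c5]; rfl) c8]
  ring

theorem pe_ab : 3 * (U.card : ℤ) = P.cE U z a b +
    ((if P.sh v b = 1 then P.Mu U a b v else P.Mh U a b v) + P.Ml U a b v) +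
    ((if P.sh a w = 1 then P.Mu U a b w else P.Ml U a b w) + P.Mh U a b w) := by
  obtain ⟨⟨z1, z2, z3, z4, z5, z6⟩, -⟩ := s.nes
  obtain ⟨⟨a1, a2, a3, a4, a5⟩, ⟨a6, a7, a8, a9⟩, ⟨b1, b2, b3⟩, ⟨b4, b5⟩, b6⟩ := s.ads
  obtain ⟨⟨c1, c2, c3⟩, ⟨c4, c5, c6⟩, c7, c8, c9, c0⟩ := s.shs
  have d := s.Dab
  rw [s.bp.pe d, s.sumc, Fr_z, Fr_h d, Fr_l d, Fr_T z1.symm d a1 a4 c1 c7, Fr_PT b2 c3,
    Fr_H z4.symm d a7 b4 c4 c9, Fr_PH a9 (by rw [b6.sh, c6]; rfl)]
  ring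

theorem pe_vb (e : P.sh v b = 1) : 3 * (U.card : ℤ) = P.cE U z v b +
    (P.Mu U v b a + P.Ml U v b a) + (P.Mu U v b w + P.Mh U v b w) +
    ((if P.sh v A = 1 then P.Mu U v b A else P.Ml U v b A) + P.Mh U v b A) := by
  obtain ⟨⟨z1, z2, z3, z4, z5, z6⟩, -⟩ := s.nes
  obtain ⟨⟨a1, a2, a3, a4, a5⟩, ⟨a6, a7, a8, a9⟩, ⟨b1, b2, b3⟩, ⟨b4, b5⟩, b6⟩ := s.ads
  obtain ⟨⟨c1, c2, c3⟩, ⟨c4, c5, c6⟩, c7, c8, c9, c0⟩ := s.shs
  have d := s.Dvb e
  rw [s.bp.pe d, s.sumc, Fr_z, Fr_h d, Fr_l d,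
    Fr_T z2.symm d a1.symm a8 (by rw [a1.sh, c1]; rfl) (Or.inr s.dab), Fr_PT b2 c2,
    Fr_H z4.symm d a3 b4 c4 (Or.inr s.dvw), Fr_H z6.symm d a5 b6.symm (by rw [b6.sh, c6]; rfl) c8,
    if_pos s.dab, if_pos s.dvw]
  ring

theorem pe_vA (e : P.sh v A = 1) : 3 * (U.card : ℤ) = P.cE U z v A +
    (P.Mh U v A B + P.Ml U v A B) + (P.Mu U v A w + P.Mh U v A w) +
    ((if P.sh v b = 1 then P.Mu U v A b else P.Ml U v A b) + P.Mh U v A b) := by
  obtain ⟨⟨z1, z2, z3, z4, z5, z6⟩, -⟩ := s.nes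
  obtain ⟨⟨a1, a2, a3, a4, a5⟩, ⟨a6, a7, a8, a9⟩, ⟨b1, b2, b3⟩, ⟨b4, b5⟩, b6⟩ := s.ads
  obtain ⟨⟨c1, c2, c3⟩, ⟨c4, c5, c6⟩, c7, c8, c9, c0⟩ := s.shs
  have d := s.DvA e
  rw [s.bp.pe d, s.sumc, Fr_z, Fr_h d, Fr_l d, Fr_PT a9 c1,
    Fr_T z3.symm d a2.symm b3 (by rw [a2.sh, c2]; rfl) (Or.inl s.dBA),
    Fr_H z4.symm d a3 b5 c5 (Or.inr s.dvw), Fr_H z5.symm d a4 b6 c6 c7,
    if_neg (by rw [s.dBA]; simp), if_pos s.dvw]
  ring

theorem pe_aw (e : P.sh a w = 1) : 3 * (U.card : ℤ) = P.cE U z a w +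
    (P.Mu U a w b + P.Mh U a w b) + (P.Mu U a w v + P.Ml U a w v) +
    ((if P.sh B w = 1 then P.Mu U a w B else P.Mh U a w B) + P.Ml U a w B) := by
  have e1 := s.ads.2.1.2.1.sh
  have e2 := s.ads.2.2.1.1.sh
  have := s.rev.pe_vb (show -P.sh w a = 1 by omega)
  simp only [rev_cE, rev_Mu, rev_Mh, rev_Ml] at this
  rwa [if_congr (show P.rev.sh w B = 1 ↔ P.sh B w = 1 by simp only [PM.rev]; omega) rfl rfl] at this

theorem pe_Bw (e : P.sh B w = 1) : 3 * (U.card : ℤ) = P.cE U z B w +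
    (P.Ml U B w A + P.Mh U B w A) + (P.Mu U B w v + P.Ml U B w v) +
    ((if P.sh a w = 1 then P.Mu U B w a else P.Mh U B w a) + P.Ml U B w a) := by
  have e1 := s.ads.2.1.2.1.sh
  have e2 := s.ads.2.2.1.1.sh
  have := s.rev.pe_vA (show -P.sh w B = 1 by omega)
  simp only [rev_cE, rev_Mu, rev_Mh, rev_Ml] at this
  rwa [if_congr (show P.rev.sh w a = 1 ↔ P.sh a w = 1 by simp only [PM.rev]; omega) rfl rfl] at this

end

end NF

end PM

end Pool.Agent.P.MP_3f5ded_co.UG
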