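import Pool.Agent.P.MP_3f5ded_co.CCa

set_option autoImplicit false

namespace Pool.Agent.P.MP_3f5ded_co.UG

open Finset
open scoped Classical

/-- Four different vertices. -/
def Dif {W : Type} (a b c d : W) : Prop := a ≠ b ∧ a ≠ c ∧ a ≠ d ∧ b ≠ c ∧ b ≠ d ∧ c ≠ d

namespace PM
variable {W : Type} {k : ℕ} {r : ℝ} {Fe : W → W → Prop} {P : PM W k r Fe} {U : Finset W}
  {z h l h' l' u x y y' : W}

lemma pairE (P : PM W k r Fe) (d : Dif h l y y') : 2 ≤ P.met h l y y' + P.met h l y' y :=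
  P.met_pair d.1 d.2.1.symm d.2.2.2.1.symm d.2.2.1.symm d.2.2.2.2.1.symm d.2.2.2.2.2

lemma pairH (P : PM W k r Fe) (d : Dif y h l l') : 2 ≤ P.met h l y l' + P.met h l' y l := by
  rw [P.met_rot y h l, P.met_rot y h l']; exact P.pairE d

lemma pairT (P : PM W k r Fe) (d : Dif l y h h') : 2 ≤ P.met h l y h' + P.met h' l y h := by
  rw [← P.met_rot h l y, ← P.met_rot h' l y]; exact P.pairE d

lemma pairM (P : PM W k r Fe) (d : Dif l y h l') : 2 ≤ P.met h l y l' + P.met y l' l h := by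
  rw [← P.met_rot h l y, P.met_rot l y l']; exact P.pairE d

variable [Fintype W] [DecidableEq W]

/-- The items outside `U` on the arcs of a triangle. -/
noncomputable def Sm (P : PM W k r Fe) (U : Finset W) (h l y : W) : ℤ := ∑ x ∈ Uᶜ, P.met h l y x

/-- What a vertex outside `U` takes from the identity of an edge. -/
noncomputable def Gr (P : PM W k r Fe) (U : Finset W) (z h l x : W) : ℤ :=
  if P.Gd z h l x then U.card - 2 + P.Sm U h l x else P.Fr U z h l x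

theorem BP.pq (s : P.BP U z) (d : P.De z h l) :
    P.cE U z h l + P.cY U z h l + ∑ x ∈ Uᶜ, P.Gr U z h l x = 3 * U.card := by
  have e : P.cY U z h l = ∑ y ∈ Uᶜ, ∑ u ∈ U, ind (P.Cy U z h l u y) := by
    rw [cY, sum_comm, ← sum_add_sum_compl U, sum_eq_zero fun y hy => sum_eq_zero fun u _ =>
      ind_neg fun g => g.1 hy, zero_add]
  rw [s.pe d, e, add_assoc, ← sum_add_distrib]
  congr 1
  refine sum_congr rfl fun y hy => ?_
  have hy := mem_compl.1 hy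
  unfold Gr
  split_ifs with g
  · have := s.gy d g hy
    rw [Fr_gd (fun a => by have := a.one; have := g.sh0; have := g.ah.sh; omega)
      (fun a => by have := a.one; have := g.sl0; omega) g,
      sum_congr rfl fun u _ => ind_congr (show P.Cy U z h l u y ↔ P.On y l u h by simp [Cy, hy, g])]
    unfold Sm
    omega
  · rw [sum_eq_zero fun u _ => ind_neg fun a => g a.2.1, zero_add]

lemma Gr_z : P.Gr U z h l z = 0 := (if_neg fun g => g.yz rfl).trans Fr_z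
lemma Gr_h (d : P.De z h l) : P.Gr U z h l h = 0 := (if_neg fun g => g.ah.1 rfl).trans (Fr_h d)
lemma Gr_l (d : P.De z h l) : P.Gr U z h l l = 0 := (if_neg fun g => g.al.1 rfl).trans (Fr_l d)

lemma Gr_T (a : x ≠ z) (d : P.De z h l) (b : P.Ad x h) (c : P.Ad x l) (e : P.sh x h = 0)
    (f : P.sh x l = 0 ∨ P.sh x l = 1) : P.Gr U z h l x =
      if P.sh x l = 1 then P.Mu U h l x + P.Ml U h l x else U.card - 2 + P.Sm U h l x := by
  unfold Gr
  by_cases i : P.sh x l = 1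
  · rw [if_neg fun g => by have := g.sl0; omega, Fr_T a d b c e f, if_pos i, if_pos i]
  · rw [if_pos ⟨a, b, c, e, by omega⟩, if_neg i]

lemma Gr_H (a : x ≠ z) (d : P.De z h l) (b : P.Ad h x) (c : P.Ad x l) (e : P.sh x l = 0)
    (f : P.sh h x = 0 ∨ P.sh h x = 1) : P.Gr U z h l x =
      if P.sh h x = 1 then P.Mu U h l x + P.Mh U h l x else U.card - 2 + P.Sm U h l x := by
  unfold Gr
  have := b.sh
  by_cases i : P.sh h x = 1
  · rw [if_neg fun g => by have := g.sh0; omega, Fr_H a d b c e f, if_pos i, if_pos i]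
  · rw [if_pos ⟨a, b.symm, c, by omega, e⟩, if_neg i]

lemma Gr_PT (b : ¬ P.Ad x l) (e : P.sh h x = 0) : P.Gr U z h l x = 0 :=
  (if_neg fun g => b g.al).trans (Fr_PT b e)

lemma Gr_PH (b : ¬ P.Ad h x) (e : P.sh x l = 0) : P.Gr U z h l x = 0 :=
  (if_neg fun g => b g.ah.symm).trans (Fr_PH b e)

namespace NF
variable {v w a A b B : W} (s : P.NF U z v a B w b A)
include s

lemma cost_eq : P.cost U z = (P.cE U z v w + P.cY U z v w) + (P.cE U z a b + P.cY U z a b) +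
    (if P.sh v b = 1 then P.cE U z v b + P.cY U z v b else 0) +
    (if P.sh v A = 1 then P.cE U z v A + P.cY U z v A else 0) +
    (if P.sh a w = 1 then P.cE U z a w + P.cY U z a w else 0) +
    (if P.sh B w = 1 then P.cE U z B w + P.cY U z B w else 0) := by
  obtain ⟨-, ⟨n1, n2, n3, n4, n5⟩, ⟨n6, n7, n8, n9⟩, ⟨m1, m2, m3⟩, ⟨m4, m5⟩, m6, -⟩ := s.nes
  have e : (univ.filter fun p : W × W => P.De z p.1 p.2) =
      ({(v, w), (a, b), (v, b), (v, A), (a, w), (B, w)} : Finset (W × W)).filter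
        fun p => P.De z p.1 p.2 := by
    ext ⟨h, l⟩
    simp only [mem_filter, mem_univ, true_and, mem_insert, mem_singleton, Prod.mk.injEq]
    exact ⟨fun g => ⟨by have := s.D_iff.1 g; tauto, g⟩, fun g => g.2⟩
  have := n1.symm; have := m4.symm; have := m5.symm; have := m6.symm
  rw [cost, e, sum_filter, sum_insert (by simp [*]), sum_insert (by simp [*]),
    sum_insert (by simp [*]), sum_insert (by simp [*]), sum_pair (by simp [*]), if_pos s.Dvw,
    if_pos s.Dab, if_congr (show P.De z v b ↔ _ from ⟨De.one, s.Dvb⟩) rfl rfl,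
    if_congr (show P.De z v A ↔ _ from ⟨De.one, s.DvA⟩) rfl rfl,
    if_congr (show P.De z a w ↔ _ from ⟨De.one, s.Daw⟩) rfl rfl,
    if_congr (show P.De z B w ↔ _ from ⟨De.one, s.DBw⟩) rfl rfl]
  ring

lemma tri (h l y : W) : P.Sm U h l y = P.met h l y z + P.met h l y v + P.met h l y a +
    P.met h l y B + P.met h l y w + P.met h l y b + P.met h l y A ∧ 0 ≤ P.met h l y z ∧
    0 ≤ P.met h l y v ∧ 0 ≤ P.met h l y a ∧ 0 ≤ P.met h l y B ∧ 0 ≤ P.met h l y w ∧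
    0 ≤ P.met h l y b ∧ 0 ≤ P.met h l y A :=
  ⟨s.sumc _, P.met_nonneg .., P.met_nonneg .., P.met_nonneg .., P.met_nonneg .., P.met_nonneg ..,
    P.met_nonneg .., P.met_nonneg ..⟩

/-- The cost table. -/
theorem cost_le : P.cost U z ≤ if P.sh a w = 0 ∧ P.sh v b = 0 then -2 else 2 := by
  obtain ⟨⟨z1, z2, z3, z4, z5, z6⟩, ⟨n1, n2, n3, n4, n5⟩, ⟨n6, n7, n8, n9⟩, ⟨m1, m2, m3⟩, ⟨m4, m5⟩,
    m6, -⟩ := s.nes
  obtain ⟨⟨a1, a2, a3, a4, a5⟩, ⟨a6, a7, a8, a9⟩, ⟨b1, b2, b3⟩, ⟨b4, b5⟩, b6⟩ := s.ads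
  obtain ⟨⟨c1, c2, c3⟩, ⟨c4, c5, c6⟩, c7, c8, c9, c0⟩ := s.shs
  have e1 : P.sh a v = 0 := by rw [a1.sh, c1]; rfl
  have e2 : P.sh B v = 0 := by rw [a2.sh, c2]; rfl
  have e3 : P.sh B a = 0 := by rw [a6.sh, c3]; rfl
  have e4 : P.sh b w = 0 := by rw [b4.sh, c4]; rfl
  have e5 : P.sh A w = 0 := by rw [b5.sh, c5]; rfl
  have e6 : P.sh A b = 0 := by rw [b6.sh, c6]; rfl
  have t := s.bp
  have o1 := s.dvw
  have o2 := s.dab
  have o3 := s.dBA
  have q1 := t.pq s.Dvw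
  rw [s.sumc, Gr_z, Gr_h s.Dvw, Gr_l s.Dvw, Gr_T z2.symm s.Dvw a1.symm a7 e1 c9,
    Gr_T z3.symm s.Dvw a2.symm b1 e2 c0, Gr_H z5.symm s.Dvw a4 b4.symm e4 c7,
    Gr_H z6.symm s.Dvw a5 b5.symm e5 c8] at q1
  have q2 := t.pq s.Dab
  rw [s.sumc, Gr_z, Gr_h s.Dab, Gr_l s.Dab, Gr_T z1.symm s.Dab a1 a4 c1 c7, Gr_PT b2 c3,
    Gr_H z4.symm s.Dab a7 b4 c4 c9, Gr_PH a9 e6] at q2
  have q3 := fun e => (t.pq (s.Dvb e)).symm.trans (by
    rw [s.sumc, Gr_z, Gr_h (s.Dvb e), Gr_l (s.Dvb e),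
      Gr_T z2.symm (s.Dvb e) a1.symm a8 e1 (Or.inr o2), Gr_PT b2 c2,
      Gr_H z4.symm (s.Dvb e) a3 b4 c4 (Or.inr o1), Gr_H z6.symm (s.Dvb e) a5 b6.symm e6 c8,
      if_pos o1, if_pos o2])
  have q4 := fun e => (t.pq (s.DvA e)).symm.trans (by
    rw [s.sumc, Gr_z, Gr_h (s.DvA e), Gr_l (s.DvA e), Gr_PT a9 c1,
      Gr_T z3.symm (s.DvA e) a2.symm b3 e2 (Or.inl o3), Gr_H z4.symm (s.DvA e) a3 b5 c5 (Or.inr o1),
      Gr_H z5.symm (s.DvA e) a4 b6 c6 c7, if_pos o1, if_neg (show ¬ P.sh B A = 1 by omega)])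
  have q5 := fun e => (t.pq (s.Daw e)).symm.trans (by
    rw [s.sumc, Gr_z, Gr_h (s.Daw e), Gr_l (s.Daw e), Gr_T z1.symm (s.Daw e) a1 a3 c1 (Or.inr o1),
      Gr_T z3.symm (s.Daw e) a6.symm b1 e3 c0, Gr_H z5.symm (s.Daw e) a8 b4.symm e4 (Or.inr o2),
      Gr_PH a9 e5, if_pos o1, if_pos o2])
  have q6 := fun e => (t.pq (s.DBw e)).symm.trans (by
    rw [s.sumc, Gr_z, Gr_h (s.DBw e), Gr_l (s.DBw e), Gr_T z1.symm (s.DBw e) a2 a3 c2 (Or.inr o1),
      Gr_T z2.symm (s.DBw e) a6 a7 c3 c9, Gr_PH b2 e4,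
      Gr_H z6.symm (s.DBw e) b3 b5.symm e5 (Or.inl o3), if_pos o1,
      if_neg (show ¬ P.sh B A = 1 by omega)])
  have w1 := fun e => t.twT s.Dvw (s.Daw e) n1
  have w2 := fun e => t.twT s.Dvw (s.DBw e) n2
  have w3 := fun e e' => t.twT (s.Daw e) (s.DBw e') n6
  have w4 := fun e => t.twT (s.Dvb e) s.Dab n1
  have w5 := fun e => t.twH s.Dvw (s.Dvb e) m4
  have w6 := fun e => t.twH s.Dvw (s.DvA e) m5
  have w7 := fun e e' => t.twH (s.Dvb e) (s.DvA e') m6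
  have w8 := fun e => t.twH (s.Daw e) s.Dab m4
  have p1 := P.pairE (show Dif v w A B from ⟨n3, n5, n2, m5, m1.symm, m3.symm⟩)
  have p2 := P.pairE (show Dif v w a A from ⟨n3, n1, n5, n7.symm, m5, n9⟩)
  have p3 := P.pairE (show Dif v w a B from ⟨n3, n1, n2, n7.symm, m1.symm, n6⟩)
  have p4 := P.pairE (show Dif v w a b from ⟨n3, n1, n4, n7.symm, m4, n8⟩)
  have p5 := P.pairE (show Dif v w b B from ⟨n3, n4, n2, m4, m1.symm, m2.symm⟩)
  have p6 := P.pairE (show Dif v w b A from ⟨n3, n4, n5, m4, m5, m6⟩)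
  have p7 := P.pairE (show Dif B w a A from ⟨m1, n6.symm, m3, n7.symm, m5, n9⟩)
  have p8 := P.pairE (show Dif a b v w from ⟨n8, n1.symm, n7, n4.symm, m4.symm, n3⟩)
  have p9 := P.pairE (show Dif v A b B from ⟨n5, n4, n2, m6.symm, m3.symm, m2.symm⟩)
  have r1 := P.pairH (show Dif A v w b from ⟨n5.symm, m5.symm, m6.symm, n3, n4, m4⟩)
  have r2 := P.pairH (show Dif B v w A from ⟨n2.symm, m1, m3, n3, n5, m5⟩)
  have r3 := P.pairH (show Dif b v w A from ⟨n4.symm, m4.symm, m6, n3, n5, m5⟩)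
  have r4 := P.pairT (show Dif w B v a from ⟨m1.symm, n3.symm, n7.symm, n2.symm, n6.symm, n1⟩)
  have r5 := P.pairT (show Dif w a v B from ⟨n7.symm, n3.symm, m1.symm, n1.symm, n6, n2⟩)
  have r6 := P.pairT (show Dif w A v B from ⟨m5, n3.symm, m1.symm, n5.symm, m3.symm, n2⟩)
  have r7 := P.pairM (show Dif A B v w from ⟨m3.symm, n5.symm, m5.symm, n2.symm, m1, n3⟩)
  have r8 := P.pairM (show Dif w a v b from ⟨n7.symm, n3.symm, m4, n1.symm, n8, n4⟩)
  have r9 := P.pairM (show Dif b v a A from ⟨n4.symm, n8.symm, m6, n1, n5, n9⟩)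
  have r0 := P.pairM (show Dif w a B b from ⟨n7.symm, m1.symm, m4, n6, n8, m2⟩)
  have ra := P.pairM (show Dif b v a w from ⟨n4.symm, n8.symm, m4.symm, n1, n3, n7⟩)
  have t1 := s.tri v w a
  have t2 := s.tri v w B
  have t3 := s.tri v w b
  have t4 := s.tri v w A
  have t5 := s.tri a b v
  have t6 := s.tri a b w
  have t7 := s.tri v b A
  have t8 := s.tri v A B
  have t9 := s.tri v A b
  have ta := s.tri a w B
  have tb := s.tri B w A
  have tc := s.tri B w a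
  rw [s.cost_eq]
  rcases c7 with c7 | c7 <;> rcases c8 with c8 | c8 <;> rcases c9 with c9 | c9 <;>
    rcases c0 with c0 | c0 <;>
    simp only [c7, c8, c9, c0, zero_ne_one, one_ne_zero, if_true, if_false, forall_const,
      IsEmpty.forall_iff, and_true, and_false, and_self] at q1 q2 q3 q4 q5 q6 w1 w2 w3 w4 w5 w6 w7 w8 ⊢ <;>
    omega

/-- The cost is at most two. -/
theorem lc : P.LC U z := ⟨s.bp, s.cost_le.trans (by split_ifs <;> omega)⟩

/-- One of the edges `a w`, `v b` is shifted. -/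
theorem bit : P.sh a w = 1 ∨ P.sh v b = 1 := by
  have h1 := s.cost_le
  have h2 : 0 ≤ P.cost U z :=
    sum_nonneg fun p _ => add_nonneg (P.cE_nonneg U z p.1 p.2) (P.cY_nonneg U z p.1 p.2)
  obtain ⟨-, -, c7, -, c9, -⟩ := s.shs
  split_ifs at h1 <;> omega

end NF

end PM

end Pool.Agent.P.MP_3f5ded_co.UG
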