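import Pool.Agent.P.MP_3f5ded_co.EQS

set_option autoImplicit false

namespace Pool.Agent.P.MP_3f5ded_co.UG

open Finset

namespace PM
variable {W : Type} {k : ℕ} {r : ℝ} {Fe : W → W → Prop} {P : PM W k r Fe} {h l l' u u' x y : W}

/-- Three different items of a vertex stand in one of the two cyclic orders. -/
lemma on_or (a : l ≠ h) (b : u ≠ h) (c : l' ≠ h) (d : u ≠ l) (e : u ≠ l') (f : l ≠ l') :
    P.On h l u l' ∨ P.On h l' u l := by
  rw [on_st a b c, on_st c b a]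
  have := st_pos (P := P) a b d.symm
  have := st_pos (P := P) c b e.symm
  have := st_tri (P := P) a c b
  have := st_add (P := P) a c f
  have : P.st h l l' ≠ P.st h l u := fun g => e (st_inj a c b g).symm
  omega

lemma On.rot (o : P.On h l u l') : P.On h u l' l := by
  obtain ⟨n1, n, n2, a, b, c, e1, e, e2⟩ := o
  exact ⟨n, n2, n1 + k, b, c, by omega, e, e2, (P.it_add h n1).trans e1⟩

lemma On.ne' (o : P.On h l u l') : l ≠ h ∧ l' ≠ h := by
  obtain ⟨n1, n, n2, -, -, -, rfl, -, rfl⟩ := o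
  exact ⟨P.ne _ _, P.ne _ _⟩

lemma On.not_rev (o : P.On h l u l') : ¬ P.On h l' u l := fun g => by
  have n := o.ne
  have m := o.ne'
  rw [on_st m.1 n.1 m.2] at o
  rw [on_st m.2 n.1 m.1] at g
  have := st_tri (P := P) m.1 m.2 n.1
  have := st_add (P := P) m.1 m.2 n.2.2.2
  omega

/-- An item between `l` and `l'` lies between an outer item `u` and `l'`. -/
lemma On.outer (o : P.On h l' u l) (g : P.On h l y l') : P.On h u y l' := by
  have n := o.ne
  have m := o.ne'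
  have n' := g.ne
  rw [on_st m.1 n.1 m.2] at o
  rw [on_st m.2 n'.1 m.1] at g
  rw [on_st n.1 n'.1 m.1]
  have := st_tri (P := P) m.1 n.1 m.2
  have := st_tri (P := P) n.1 m.2 n'.1
  have := st_tri (P := P) n.1 m.2 m.1
  have := st_add (P := P) m.1 n.1 n.2.1.symm
  have := st_add (P := P) m.1 m.2 n.2.2.2
  obtain ⟨i, e⟩ := P.sur h u n.1
  have := (st_spec n'.1 e).1
  omega


/-- Two good vertices on different arcs cost a unit. -/
theorem split_loc [Finite W] (s : P.Sh u h l') (s' : P.Sh u' h l) (a : P.Ad u u') (o : P.On h l u l')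
    (o' : P.On h l' u' l) : P.On u l' u' h ∨ P.On u' l u h := by
  obtain ⟨L, t, m, mn⟩ := P.exists_tm s.a2.1
  have b1 := m.sh3 s
  have b2 := m.sh3 s'
  rw [m.on s'.a2.1 s.a1.1.symm s.a2.1] at o
  rw [m.on s.a2.1 s'.a1.1.symm s'.a2.1] at o'
  rw [m.on s.a3.1.symm a.1 s.a1.1, m.on s'.a3.1.symm a.1.symm s'.a1.1]
  have := m.sym _ _ a
  have := m.sym _ _ s.a1
  have := m.sym _ _ s.a3
  have := m.sym _ _ s'.a1
  have := m.sym _ _ s'.a3
  have := mn _ _ s.a1.1
  have := mn _ _ s'.a1.1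
  have := mn _ _ s'.a2.1
  have := mn _ _ a.1
  unfold Bt at *
  omega

/-- Twins: the edge `u l'` comes before the edge `h l`. -/
theorem twin_loc {L t : W → W → ℤ} (m : P.Tm L t) (s : P.Sh u h l) (s' : P.Sh u h l')
    (a : P.Ad l l') (o : P.On h l' u l) (c : ¬ P.On l h l' u) (c' : ¬ P.On l' h l u) :
    Bt (t h u) (t u l') (t l l') ∧ Bt (t h u) (t l l') (t h l) ∧ Bt (t h u) (t u l) (t l l') := by
  have b1 := m.sh3 s
  have b2 := m.sh3 s'
  rw [m.on s'.a2.1 s.a1.1.symm s.a2.1] at o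
  rw [m.on s.a2.1.symm a.1 s.a3.1] at c
  rw [m.on s'.a2.1.symm a.1.symm s'.a3.1] at c'
  have := m.sym _ _ a
  have := m.sym _ _ s.a1
  have := m.sym _ _ s.a2
  have := m.sym _ _ s.a3
  have := m.sym _ _ s'.a2
  have := m.sym _ _ s'.a3
  have := m.ne a.1 s.a3.1 s'.a3.1.symm
  have := m.ne a.1 s.a2.1.symm s'.a2.1
  have := m.ne a.1.symm s'.a3.1 s.a3.1.symm
  have := m.ne a.1.symm s'.a2.1.symm s.a2.1
  unfold Bt at *
  omega

/-- A good vertex between two twins costs a unit. -/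
theorem block_loc [Finite W] (s : P.Sh u h l) (s' : P.Sh u h l') (a : P.Ad l l') (o : P.On h l' u l)
    (c : ¬ P.On l h l' u) (c' : ¬ P.On l' h l u) (g : P.On h l y l') (sy : P.Sh y h l')
    (ay : P.Ad y u) : P.On y l' u h ∨ P.On u l' y h := by
  obtain ⟨L, t, m, mn⟩ := P.exists_tm s.a1.1.symm
  obtain ⟨b1, b2, -⟩ := twin_loc m s s' a o c c'
  have b3 := m.sh3 sy
  rw [m.on s'.a2.1 s.a1.1.symm s.a2.1] at o
  rw [m.on s.a2.1 sy.a1.1.symm s'.a2.1] at g
  rw [m.on sy.a3.1.symm ay.1 sy.a1.1, m.on s'.a3.1.symm ay.1.symm s.a1.1]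
  have := m.sym _ _ ay
  have := m.sym _ _ s.a1
  have := m.sym _ _ sy.a1
  have := m.sym _ _ sy.a3
  have := mn _ _ s.a2.1
  have := mn _ _ s'.a2.1
  have := mn _ _ sy.a1.1
  have := mn _ _ a.1
  have := mn _ _ s'.a3.1.symm
  have := mn _ _ ay.1
  have := m.ne ay.1 sy.a1.1 s.a1.1.symm
  have := m.ne ay.1 sy.a3.1.symm s'.a3.1
  unfold Bt at *
  omega

/-- If there are at most two units and six good vertices, these lie on one arc. -/
theorem split_cnt {U : Finset W} {A : W → Prop} {f g : W → W → ℤ} (hU : 6 ≤ U.card)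
    (f0 : ∀ u ∈ U, ∀ x ∈ U, 0 ≤ f u x) (g0 : ∀ u ∈ U, ∀ x ∈ U, 0 ≤ g u x)
    (loc : ∀ u ∈ U, ∀ x ∈ U, A u → ¬ A x → 1 ≤ f u x + g x u)
    (cnt : ∑ u ∈ U, ∑ x ∈ U, (f u x + g u x) ≤ 2) : (∀ u ∈ U, A u) ∨ ∀ u ∈ U, ¬ A u := by
  classical
  by_contra c
  push Not at c
  obtain ⟨⟨x, hx, nx⟩, ⟨u, hu, au⟩⟩ := c
  have e : ∑ u ∈ U, ∑ x ∈ U, (f u x + g u x) = ∑ u ∈ U, ∑ x ∈ U, (f u x + g x u) := by
    simp only [sum_add_distrib]
    rw [sum_comm (f := g)]
  have c1 := card_pos.2 ⟨u, mem_filter.2 ⟨hu, au⟩⟩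
  have c2 := card_pos.2 ⟨x, (mem_filter (p := fun v => ¬ A v)).2 ⟨hx, nx⟩⟩
  have c3 := card_filter_add_card_filter_not (s := U) A
  have l1 : ∀ u ∈ U.filter A, ((U.filter fun v => ¬ A v).card : ℤ) ≤ ∑ x ∈ U, (f u x + g x u) :=
    fun u hu => by
      obtain ⟨a, b⟩ := mem_filter.1 hu
      refine le_trans ?_ (sum_le_sum_of_subset_of_nonneg (filter_subset (fun v => ¬ A v) U)
        fun x hx _ => add_nonneg (f0 u a x hx) (g0 x hx u a))
      simpa using card_nsmul_le_sum (U.filter fun v => ¬ A v) (fun x => f u x + g x u) 1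
        fun x hx => loc u a x (mem_filter.1 hx).1 b (mem_filter.1 hx).2
  have l2 := card_nsmul_le_sum _ _ _ l1
  have l3 := sum_le_sum_of_subset_of_nonneg (filter_subset A U)
    (f := fun u => ∑ x ∈ U, (f u x + g x u))
    fun u hu _ => sum_nonneg fun x hx => add_nonneg (f0 u hu x hx) (g0 x hx u hu)
  rw [nsmul_eq_mul] at l2
  have : ((U.filter A).card : ℤ) * (U.filter fun v => ¬ A v).card ≤ 2 := by linarith
  nlinarith

open Classical in
/-- SPLIT: the good vertices lie on one of the two arcs between twins. -/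
theorem split [Finite W] {U : Finset W} (hU : 6 ≤ U.card) (ll : l ≠ l')
    (s : ∀ u ∈ U, P.Sh u h l) (s' : ∀ u ∈ U, P.Sh u h l')
    (a : ∀ u ∈ U, ∀ x ∈ U, x ≠ u → P.Ad u x)
    (cnt : ∑ u ∈ U, ∑ x ∈ U, ((if P.On u l' x h then (1 : ℤ) else 0) +
      if P.On u l x h then 1 else 0) ≤ 2) :
    (∀ u ∈ U, P.On h l u l') ∨ ∀ u ∈ U, P.On h l' u l := by
  have oo : ∀ u ∈ U, P.On h l u l' ∨ P.On h l' u l := fun u hu =>
    on_or (s u hu).a2.1 (s u hu).a1.1.symm (s' u hu).a2.1 (s u hu).a3.1 (s' u hu).a3.1 ll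
  refine (split_cnt (A := fun u => P.On h l u l') hU (fun _ _ _ _ => by split_ifs <;> simp)
    (fun _ _ _ _ => by split_ifs <;> simp) (fun u hu x hx p q => ?_) cnt).imp_right
    fun g u hu => (oo u hu).resolve_left (g u hu)
  have := split_loc (s' u hu) (s x hx) (a u hu x hx fun e => q (e ▸ p)) p ((oo x hx).resolve_left q)
  split_ifs <;> simp_all

/-- If all items between `l` and `l'` lie in a set, the arc is short. -/
theorem st_le_card {D : Finset W} (a : l ≠ h) (b : l' ≠ h) (e : l ≠ l')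
    (g : ∀ y, P.On h l y l' → y ∈ D) : P.st h l l' ≤ D.card + 1 := by
  classical
  obtain ⟨n, e1⟩ := P.sur h l a
  obtain ⟨-, b2, b3⟩ := st_spec b e1
  have p := st_pos (P := P) a b e
  have := card_le_card_of_injOn (s := Ioo n (n + P.st h l l')) (t := D) (P.it h)
    (fun i hi => by
      have := mem_Ioo.1 (mem_coe.1 hi)
      exact g _ ⟨n, i, _, this.1, this.2, by omega, e1, rfl, b3⟩)
    fun i hi j hj g => by
      have := mem_Ioo.1 (mem_coe.1 hi)
      have := mem_Ioo.1 (mem_coe.1 hj)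
      exact P.uniq g (by omega) (by omega)
  rw [Int.card_Ioo] at this
  omega

end PM

end Pool.Agent.P.MP_3f5ded_co.UG
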