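import Pool.Agent.P.MP_3f5ded_co.CC1
import Pool.Agent.P.MP_3f5ded_co.CCc

set_option autoImplicit false

namespace Pool.Agent.P.MP_3f5ded_co.UG

open Finset
open scoped Classical

namespace PM
variable {W : Type} {k : ℕ} {r : ℝ} {Fe : W → W → Prop} {P : PM W k r Fe} {U : Finset W}
  {z h l l' u x y c d : W} {n n' m m' f g : ℤ}

lemma Ad.it0 (a : P.Ad x y) (s : P.sh x y = 0) (e : P.it x n = y) :
    P.it y n = x ∧ P.T y n = P.T x n := by
  simpa [s] using And.intro (P.it_co a.2 e) (P.T_co a.2 e)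

lemma De.it (d : P.De z h l) (e : P.it h n = l) :
    P.it l (n + (k + 1)) = h ∧ P.T l (n + (k + 1)) = P.T h n := by
  simpa [d.one] using And.intro (P.it_co d.ad.2 e) (P.T_co d.ad.2 e)

lemma De.it' (d : P.De z h l) (e : P.it l m = h) : P.it h (m - (k + 1)) = l := by
  have := P.it_co d.ad.symm.2 e
  rwa [d.ad.sh, d.one, mul_neg_one, ← sub_eq_add_neg] at this

/-- The position of an item with a known level. -/
lemma on_lev {n1 n2 : ℤ} (e1 : P.it x n1 = c) (e : P.it x n = d) (e2 : P.it x n2 = y)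
    (h1 : n1 < n2) (h2 : n2 < n1 + k) (h3 : n ≤ n1 + k) (h4 : n2 ≤ n + k) :
    P.On x c d y ↔ n1 < n ∧ n < n2 := by
  rw [on_iff e1 e2 h1 h2]
  refine ⟨fun ⟨m, a, b, g⟩ => ?_, fun g => ⟨n, g.1, g.2, e⟩⟩
  have := P.uniq (g.trans e.symm) (by omega) (by omega)
  omega

/-- The head is met before the tail. -/
lemma De.lt (d : P.De z h l) (g : P.Gd z h l u) (e : P.it h n = l) (e1 : P.it u m = l)
    (e2 : P.it u m' = h) (h1 : m < n + (k + 1)) (h2 : n < m') : m < m' := by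
  have a := (g.al.it0 g.sl0 e1).2
  have b := (g.ah.it0 g.sh0 e2).2
  have c := (d.it e).2
  have := P.T_mono l h1
  have := P.T_mono h h2
  exact (P.T_mono u).lt_iff_lt.1 (by linarith)

namespace BP

lemma nD (s : P.BP U z) (hu : u ∈ U) : ¬ P.De z x u ∧ ¬ P.De z u x :=
  ⟨fun d => s.hU d hu, fun d => s.tU d hu⟩

/-- The items of `U` lie outside a block. -/
lemma out (s : P.BP U z) (b : P.Blk z x f g) (xz : x ≠ z) (xU : x ∉ U) (hu : u ∈ U) :
    ∃ m, g < m ∧ m < f + k ∧ P.it x m = u ∧ P.it u m = x := by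
  have ne : x ≠ u := fun e => xU (e ▸ hu)
  obtain ⟨m, a1, a2, e⟩ := P.win ne.symm (g + 1)
  have a := s.ug u hu x xz ne
  refine ⟨m, a1, not_le.1 fun c => ?_, e, (a.1.symm.it0 (by rw [a.1.sh, a.2]; rfl) e).1⟩
  have := b.1 (m - k) (by omega) (by omega)
  rw [P.it_sub, e] at this
  exact this.elim (s.nD hu).1 (s.nD hu).2

lemma ex (s : P.BP U z) : ∃ u, u ∈ U := by
  have := s.card
  have := s.big
  exact card_pos.1 (by omega)

lemma len (s : P.BP U z) (b : P.Blk z x f g) (xz : x ≠ z) (xU : x ∉ U) : g + 1 < f + k := by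
  obtain ⟨u, hu⟩ := s.ex
  obtain ⟨m, a1, a2, -⟩ := s.out b xz xU hu
  omega

/-- The length of a block. -/
lemma blk_card (s : P.BP U z) (b : P.Blk z x f g) (xz : x ≠ z) (xU : x ∉ U) (fg : f ≤ g)
    {S : Finset W} (hS : ∀ y, P.De z x y ∨ P.De z y x ↔ y ∈ S) : g + 1 = f + S.card := by
  have := s.len b xz xU
  have e : S = (Icc f g).image (P.it x) := by
    ext y
    simp only [mem_image, mem_Icc, ← hS, and_assoc]
    exact ⟨b.2 y, fun ⟨m, a1, a2, e⟩ => e ▸ b.1 m a1 a2⟩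
  rw [e, card_image_of_injOn fun i hi j hj e => by
    simp only [coe_Icc, Set.mem_Icc] at hi hj
    exact P.uniq e (by omega) (by omega), Int.card_Icc]
  omega

/-- The share of a twin at the tail. -/
lemma Mh_eq (s : P.BP U z) (b : P.Blk z h f g) (xz : h ≠ z) (xU : h ∉ U) (e : P.it h n = l)
    (e' : P.it h n' = l') (h1 : f ≤ n) (h2 : n ≤ g) (h3 : f ≤ n') (h4 : n' ≤ g) :
    P.Mh U h l l' = if n' < n then (U.card : ℤ) else 0 := by
  have key : ∀ u ∈ U, P.On h u l' l ↔ n' < n := fun u hu => by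
    obtain ⟨m, a1, a2, a3, -⟩ := s.out b xz xU hu
    rw [on_lev a3 ((P.it_add h n').trans e') ((P.it_add h n).trans e) (by omega) (by omega)
      (by omega) (by omega)]
    omega
  unfold Mh
  split_ifs with c
  · rw [sum_congr rfl fun u hu => ind_pos ((key u hu).2 c)]; simp
  · exact sum_eq_zero fun u hu => ind_neg fun a => c ((key u hu).1 a)

/-- The share of a twin at the head. -/
lemma Ml_eq (s : P.BP U z) (b : P.Blk z l f g) (xz : l ≠ z) (xU : l ∉ U) (e : P.it l n = h)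
    (e' : P.it l n' = x) (h1 : f ≤ n) (h2 : n ≤ g) (h3 : f ≤ n') (h4 : n' ≤ g) :
    P.Ml U h l x = if n < n' then (U.card : ℤ) else 0 := by
  rw [← rev_Mh, s.rev.Mh_eq b.rev xz xU (n := -n) (n' := -n') (by simpa [PM.rev] using e)
    (by simpa [PM.rev] using e') (by omega) (by omega) (by omega) (by omega)]
  simp only [neg_lt_neg_iff]

end BP

variable [Fintype W]

namespace LC

/-- SPLIT. -/
lemma side (s : P.LC U z) (d : P.De z h l) (d' : P.De z h l') (e : l ≠ l') :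
    (∀ u ∈ U, P.On h l u l') ∨ ∀ u ∈ U, P.On h l' u l := by
  have := s.card
  have := s.big
  refine split (by omega) e (fun u hu => (s.sh3 d hu).rot.rot) (fun u hu => (s.sh3 d' hu).rot.rot)
    (fun u hu x hx a => (s.ug u hu x (s.uz x hx) a).1) (le_trans ?_
      (s.c2 d' d fun a => e (Prod.ext_iff.1 a).2.symm))
  have key : ∀ l u, ∑ x ∈ U, (if P.On u l x h then (1 : ℤ) else 0) ≤ P.ce z h l u := fun l u =>
    le_trans (sum_le_sum fun x hx => by
      have := ind_nonneg (P.Ch z h l u x)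
      have := ind_nonneg (P.Cq z h l u x)
      have := ind_nonneg (P.Cu z h l u x)
      split_ifs with c
      · have := ind_pos (p := P.Cu z h l u x) ⟨(s.nD hx).1, (s.nD hx).2, c⟩
        omega
      · omega) (P.ce_sub z h l u U)
  rw [cE, cE, ← sum_add_distrib]
  exact sum_le_sum fun u _ => by rw [sum_add_distrib]; exact add_le_add (key l' u) (key l u)

/-- BLOCK. -/
lemma between (s : P.LC U z) (d : P.De z h l) (d' : P.De z h l') (o : ∀ u ∈ U, P.On h l' u l)
    (g : P.On h l y l') : P.De z h y := by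
  by_contra c
  obtain ⟨u, -, cu⟩ := s.exists_cln ∅ (by simp)
  have ou := o u cu.mem
  have gy : P.Gd z h l' y := by
    by_contra a
    exact cu.ch h l' y d' ⟨a, c, ou.outer g⟩
  have yU : y ∉ U := fun a => (o y a).not_rev g
  have a := s.hh h l l' d d' g.ne.2.2.2.symm
  have n1 : ¬ P.Gd z h l l' := fun b => by
    have := b.sh0
    have := d'.ad.sh
    have := d'.one
    omega
  have n2 : ¬ P.Gd z h l' l := fun b => by
    have := b.sh0
    have := d.ad.sh
    have := d.one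
    omega
  rcases block_loc (s.sh3 d cu.mem).rot.rot (s.sh3 d' cu.mem).rot.rot a.1 ou
    (fun b => cu.cl h l l' d ⟨n1, s.bip h l' l d', b⟩)
    (fun b => cu.cl h l' l d' ⟨n2, s.bip h l l' d, b⟩) g (d'.sh3 gy).rot.rot
    (s.ug u cu.mem y gy.yz fun e => yU (e ▸ cu.mem)).1.symm with b | b
  · exact cu.cy h l' y d' ⟨yU, gy, b⟩
  · refine cu.cu h l' y d' ⟨c, fun a => ?_, b⟩
    have := a.one
    have := gy.sl0
    omega

/-- The shifted items of a tail are consecutive. -/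
theorem blk (s : P.LC U z) (d : P.De z h l) (e : P.it h n = l) :
    ∃ f g, f ≤ n ∧ n ≤ g ∧ P.Blk z h f g := by
  obtain ⟨u, hu⟩ := s.ex
  have ne : u ≠ h := fun a => s.tU d (a ▸ hu)
  obtain ⟨m, a1, a2, a3⟩ := P.win ne n
  have nm : ¬ P.De z h (P.it h m) := a3 ▸ (s.nD hu).1
  have a4 : n ≠ m := fun a => nm (a ▸ e ▸ d)
  obtain ⟨f, ⟨f1, f2⟩, f3⟩ := Int.exists_least_of_bdd (P := fun i => m - k < i ∧ P.De z h (P.it h i))
    ⟨m - k, fun i a => a.1.le⟩ ⟨n, by omega, e ▸ d⟩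
  obtain ⟨g, ⟨g1, g2⟩, g3⟩ := Int.exists_greatest_of_bdd (P := fun i => i < m ∧ P.De z h (P.it h i))
    ⟨m, fun i a => a.1.le⟩ ⟨n, by omega, e ▸ d⟩
  have fn := f3 n ⟨by omega, e ▸ d⟩
  have gn := g3 n ⟨by omega, e ▸ d⟩
  refine ⟨f, g, fn, gn, fun i i1 i2 => Or.inl ?_, fun y hy => ?_⟩
  · rcases i1.eq_or_lt with rfl | i1
    · exact f2
    rcases i2.eq_or_lt with rfl | i2
    · exact g2
    have o : P.On h (P.it h g) u (P.it h f) :=
      ⟨g, m, f + k, g1, by omega, by omega, rfl, a3, P.it_add h f⟩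
    exact s.between f2 g2 ((s.side f2 g2 o.ne.2.2.2.symm).resolve_left fun a => o.not_rev (a u hu))
      ⟨f, i, g, i1, i2, by omega, rfl, rfl, rfl⟩
  · have dy := hy.resolve_right fun a => s.bip y h l a d
    obtain ⟨i, i1, i2, i3⟩ := P.win dy.ad.1 (m - k + 1)
    have : i ≠ m := fun a => nm (a ▸ i3 ▸ dy)
    exact ⟨i, f3 i ⟨by omega, i3 ▸ dy⟩, g3 i ⟨by omega, i3 ▸ dy⟩, i3⟩

/-- The shifted items of a head are consecutive. -/
theorem blk' (s : P.LC U z) (d : P.De z h l) (e : P.it l m = h) :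
    ∃ f g, f ≤ m ∧ m ≤ g ∧ P.Blk z l f g := by
  obtain ⟨f, g, a1, a2, b⟩ := s.rev.blk (rev_de.2 d) (n := -m) (by simpa [PM.rev] using e)
  refine ⟨-g, -f, by omega, by omega, fun i i1 i2 => ?_, fun y hy => ?_⟩
  · have := b.1 (-i) (by omega) (by omega)
    rw [rev_de, rev_de, show P.rev.it l (-i) = P.it l i by simp [PM.rev]] at this
    exact this.symm
  · obtain ⟨i, i1, i2, i3⟩ := b.2 y (by simpa only [rev_de, or_comm] using hy)
    exact ⟨-i, by omega, by omega, i3⟩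

lemma twin0 (s : P.LC U z) (d : P.De z h l) (d' : P.De z h l') (b : P.Blk z h f g)
    (e : P.it h n = l) (e' : P.it h n' = l') (h1 : f ≤ n) (h2 : n < n') (h3 : n' ≤ g) :
    ∃ m, P.it l m = l' ∧ P.it l' m = l ∧ n' + 1 < m ∧ m < n + (k + 1) := by
  obtain ⟨u, -, cu⟩ := s.exists_cln ∅ (by simp)
  have len := s.len b d.hz (s.tU d)
  have ll : l' ≠ l := fun a => by
    have := P.uniq (e'.trans (a.trans e.symm)) (by omega) (by omega)
    omega
  have a := s.hh h l l' d d' ll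
  have a' := s.hh h l' l d' d ll.symm
  -- the level of the edge seen from one end
  have one : ∀ l l' n, P.De z h l → P.De z h l' → P.it h n = l → l' ≠ l → P.Ad l l' →
      ∃ j m, n + 1 < j ∧ j < m ∧ m < n + (k + 1) ∧ P.it l j = u ∧ P.it l m = l' := by
    intro l l' n d d' e ll a
    have gu := s.gd d cu.mem
    have e1 := (d.it e).1
    have e0 : P.it l (n + 1) = h := by rw [← P.it_add, ← e1]; congr 1; ring
    obtain ⟨j, j1, j2, j3, -⟩ := P.next (n + 1) gu.al.1.symm (e0 ▸ gu.ah.1)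
    obtain ⟨m, m1, m2, m3, -⟩ := P.next (n + 1) ll (e0 ▸ d'.ad.1.symm)
    have c : ¬ P.On l h l' u := fun b => cu.cl h l l' d ⟨fun b => by
      have := b.sh0
      have := d'.ad.sh
      have := d'.one
      omega, s.bip h l' l d', b⟩
    rw [on_lev e0 m3 j3 j1 j2 (by omega) (by omega)] at c
    have : j ≠ m := fun a => s.hU d' (m3 ▸ a ▸ j3 ▸ cu.mem)
    exact ⟨j, m, j1, by omega, by omega, j3, m3⟩
  obtain ⟨j, m, j1, j2, j3, j4, j5⟩ := one l l' n d d' e ll a.1
  obtain ⟨j', m', i1, i2, i3, i4, i5⟩ := one l' l n' d' d e' ll.symm a'.1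
  obtain ⟨t, t1, t2, t3, t4⟩ := s.out b d.hz (s.tU d) cu.mem
  have gu := s.gd d cu.mem
  have b1 := a.1.it0 a.2 j5
  have b2 := gu.al.symm.it0 (by rw [gu.al.sh, gu.sl0]; rfl) j4
  have b3 := (gu.ah.it0 gu.sh0 t4).2
  have b4 := (d'.it e').2
  have c1 := P.T_mono l' i3
  have c2 := P.T_mono h (show n' < t by omega)
  have c3 := P.T_mono u (show t < j + k by omega)
  have c4 := P.T_mono l j2
  have c5 := P.T_per u j
  have c6 := P.T_per l' m
  have c7 : m' < m + k := (P.T_mono l').lt_iff_lt.1 (by linarith [b1.2, b2.2])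
  have := P.uniq (b1.1.trans i5.symm) (by omega) c7
  exact ⟨m, j5, b1.1, by omega, j3⟩

/-- TWIN in levels: the edge between two heads of one tail has one level. -/
theorem twin (s : P.LC U z) (d : P.De z h l) (d' : P.De z h l') (b : P.Blk z h f g)
    (e : P.it h n = l) (e' : P.it h n' = l') (h1 : f ≤ n) (h2 : n ≤ g) (h3 : f ≤ n') (h4 : n' ≤ g)
    (ne : n ≠ n') : ∃ m, P.it l m = l' ∧ P.it l' m = l ∧ n + 1 < m ∧ n' + 1 < m ∧
      m < n + (k + 1) ∧ m < n' + (k + 1) := by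
  rcases lt_or_gt_of_ne ne with c | c
  · obtain ⟨m, a1, a2, a3, a4⟩ := s.twin0 d d' b e e' h1 c h4
    exact ⟨m, a1, a2, by omega, a3, a4, by omega⟩
  · obtain ⟨m, a1, a2, a3, a4⟩ := s.twin0 d' d b e' e h3 c h2
    exact ⟨m, a2, a1, a3, by omega, by omega, a4⟩

/-- Lemma X. `h l`, `h l'`, `x l'` are shifted; if `u` meets `x` before `l`, then `l'` lies on
the arc at `l`. -/
theorem xl (s : P.LC U z) (d : P.De z h l) (d' : P.De z h l') (dx : P.De z x l') (b : P.Blk z h f g)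
    {f' g' j i : ℤ} (b' : P.Blk z l' f' g') (e : P.it h n = l) (e' : P.it h n' = l')
    (ex : P.it x m = l') (h1 : f ≤ n) (h2 : n ≤ g) (h3 : f ≤ n') (h4 : n' ≤ g) (ne : n ≠ n')
    (h5 : f' ≤ m + (k + 1)) (h6 : n' + (k + 1) ≤ g') (hu : u ∈ U)
    (e1 : P.it u i = x) (e2 : P.it u j = l) (h8 : m < i) (h9 : i < j) (h10 : j < n + (k + 1)) :
    P.Cq z h l u l' := by
  obtain ⟨t, t1, t2, t3, t4, t5, t6⟩ := s.twin d d' b e e' h1 h2 h3 h4 ne
  have c0 : t < f' := not_le.1 fun c => by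
    have := b'.1 t c (by omega)
    rw [t2] at this
    exact this.elim (s.bip h l' l d') (s.bip h l l' d)
  have gu := s.gd d hu
  have gx := s.gd dx hu
  have a := s.hh h l l' d d' (t1 ▸ P.ne l t)
  have b1 := (a.1.it0 a.2 t1).2
  have b2 := (dx.it ex).2
  have b3 := (gx.ah.it0 gx.sh0 e1).2
  have b4 := gu.al.it0 gu.sl0 e2
  have c1 := P.T_mono l' (show t < m + (k + 1) by omega)
  have c2 := P.T_mono x h8
  have c3 := P.T_mono u h9
  have c4 : t < j := (P.T_mono l).lt_iff_lt.1 (by linarith [b4.2])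
  refine ⟨fun b => ?_, s.bip h l' l d', n + 1, t, j, t3, c4, by omega, ?_, t1, b4.1⟩
  · have := b.sh0
    have := d'.ad.sh
    have := d'.one
    omega
  · rw [← P.it_add, ← (d.it e).1]; congr 1; ring

end LC

end PM

end Pool.Agent.P.MP_3f5ded_co.UG
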