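import Pool.Agent.P.MP_3f5ded_co.CCc
import Pool.Agent.P.MP_3f5ded_co.EQ2

set_option autoImplicit false

namespace Pool.Agent.P.MP_3f5ded_co.UG

open Finset

namespace PM
variable {W : Type} {k : ℕ} {r : ℝ} {Fe : W → W → Prop} {P : PM W k r Fe} {a b v w u x : W}

/-- The last step of the case where `a w` is not shifted. -/
lemma sec3_core (s : P.Sh a v w) (ab : P.Ad a b) (bv : P.Ad b v) (m : P.mu a b v = 0)
    (f1 : P.st b a v = 1) (o : P.On a w b v) (blk : P.On v b a w → P.st v w b ≤ 2) : False := by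
  have n := o.ne
  have h1 := s.st
  have h2 := st_walk ab bv s.a1.symm
  rw [m, mul_zero] at h2
  have av := s.a1.1
  have aw := s.a3.1.symm
  have vw := s.a2.1
  rw [on_st aw ab.1 av] at o
  rw [on_st bv.1.symm av.symm vw] at blk
  have := st_tri (P := P) aw ab.1 av
  have := st_add (P := P) ab.1 av bv.1.symm
  have := st_pos (P := P) ab.1 av bv.1.symm
  have := st_pos (P := P) bv.1.symm av.symm ab.1
  have := st_tri (P := P) bv.1.symm av.symm vw
  have := st_add (P := P) bv.1.symm vw n.2.1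
  have := st_pos (P := P) bv.1.symm vw n.2.1
  omega

/-- From `a, u, w, b` and not `a, u, v, b` to the order `w, b, v`. -/
lemma sec3_order (o : P.On a u w b) (o' : ¬ P.On a u v b) (va : v ≠ a) (vu : v ≠ u) (vb : v ≠ b) :
    P.On a w b v := by
  have n := o.ne
  have m := o.ne'
  rw [on_st m.1 n.1 m.2] at o
  rw [on_st m.1 va m.2] at o'
  rw [on_st n.1 m.2 va]
  have := st_tri (P := P) m.1 n.1 m.2
  have := st_tri (P := P) m.1 n.1 va
  have := st_pos (P := P) m.1 va vu.symm
  have := st_pos (P := P) n.1 m.2 n.2.2.1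
  have : P.st a u v ≠ P.st a u b := fun g => vb (st_inj m.1 va m.2 g)
  omega

/-- Next to each other: an item after `a` is an item after `v`. -/
lemma on_next (f : P.st b a v = 1 ∨ P.st b v a = 1) (ab : a ≠ b) (vb : v ≠ b) (va : v ≠ a)
    (uv : u ≠ v) (wv : w ≠ v) (o : P.On b a w u) : P.On b v w u := by
  have n := o.ne
  have m := o.ne'
  rw [on_st m.1 n.1 m.2] at o
  rw [on_st vb n.1 m.2]
  have := st_tri (P := P) ab vb n.1
  have := st_tri (P := P) ab vb m.2
  have := st_add (P := P) ab vb va.symm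
  have := st_pos (P := P) vb n.1 wv.symm
  have := st_pos (P := P) ab m.2 n.2.2.2
  have : P.st b a v ≠ P.st b a u := fun g => uv (st_inj ab vb m.2 g).symm
  have : P.st b a v ≠ P.st b a w := fun g => wv (st_inj ab vb n.1 g).symm
  omega

lemma not_on_prev (f : P.st b v a = 1) (vb : v ≠ b) (o : P.On b a v u) : False := by
  have n := o.ne
  have m := o.ne'
  rw [on_st m.1 n.1 m.2] at o
  have := st_add (P := P) m.1 vb n.2.1.symm
  have := st_pos (P := P) m.1 m.2 n.2.2.2
  omega

lemma sum_ind_le (U : Finset W) (p : W → Prop) : ∑ u ∈ U, ind (p u) ≤ U.card := by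
  simpa using sum_le_card_nsmul U (fun u => ind (p u)) 1 fun u _ => by
    rcases ind_cases (p u) with g | g <;> omega

lemma sum_ind_nonneg (U : Finset W) (p : W → Prop) : 0 ≤ ∑ u ∈ U, ind (p u) :=
  sum_nonneg fun _ _ => ind_nonneg _

/-- The case where `v b` is shifted and `a w` is not, from the count on the edge `a b`. -/
theorem sec3 {U : Finset W} {c1 c2 : ℤ} (hU : 6 ≤ U.card) (vU : v ∉ U) (s : P.Sh a v w)
    (ab : P.Ad a b) (bv : P.Ad b v) (m : P.mu a b v = 0)
    (pe : 3 * (U.card : ℤ) = c1 + ∑ u ∈ U, ind (P.On u b v a) + ∑ u ∈ U, ind (P.On b a v u) +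
      ∑ u ∈ U, ind (P.On b a w u) + ∑ u ∈ U, ind (P.On a u w b))
    (c : c1 + c2 ≤ 2) (h1 : ∑ u ∈ U, ind (P.On a u v b) ≤ c1)
    (h2 : ∑ u ∈ U, ind (P.On b v w u) ≤ c2) (f : P.st b a v = 1 ∨ P.st b v a = 1)
    (blk : P.On v b a w → P.st v w b ≤ 2) : False := by
  have e1 : ∑ u ∈ U, ind (P.On b a w u) ≤ ∑ u ∈ U, ind (P.On b v w u) := sum_le_sum fun u hu => by
    rcases ind_cases (P.On b a w u) with g | g
    · rw [g.2, ind_pos (on_next f ab.1.symm bv.1 s.a1.1 (fun e => vU (e ▸ hu)) s.a2.1 g.1)]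
    · rw [g.2]; exact ind_nonneg _
  have e2 := sum_ind_le U fun u => P.On u b v a
  have e3 := sum_ind_le U fun u => P.On b a v u
  have e4 := sum_ind_le U fun u => P.On a u w b
  have e5 := sum_ind_nonneg U fun u => P.On a u v b
  have e6 := sum_ind_nonneg U fun u => P.On b v w u
  rcases f with f | f
  · have : ¬ ∑ u ∈ U, ind (P.On a u w b) ≤ ∑ u ∈ U, ind (P.On a u v b) := by omega
    refine this (sum_le_sum fun u hu => ?_)
    rcases ind_cases (P.On a u w b) with g | g
    · rcases ind_cases (P.On a u v b) with g' | g'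
      · omega
      · exact (sec3_core s ab bv m f (sec3_order g.1 g'.1 s.a1.1 (fun e => vU (e ▸ hu)) bv.1)
          blk).elim
    · rw [g.2]; exact ind_nonneg _
  · have : ∑ u ∈ U, ind (P.On b a v u) = 0 := sum_eq_zero fun u _ => ind_neg (not_on_prev f bv.1)
    omega

end PM

end Pool.Agent.P.MP_3f5ded_co.UG
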