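import Pool.Agent.P.MP_3f5ded_co.CCa
import Pool.Agent.P.MP_3f5ded_co.CCd3a

set_option autoImplicit false

namespace Pool.Agent.P.MP_3f5ded_co.UG

open Finset

namespace PM
variable {W : Type} {k : ℕ} {r : ℝ} {Fe : W → W → Prop} {P : PM W k r Fe} {U : Finset W}
  {z v a B w b A x : W} {f g : ℤ}

/-- A block is not longer than the list of the shifted items. -/
lemma Blk.len [DecidableEq W] (h : P.Blk z x f g) {S : Finset W} (hk : S.card < k)
    (hS : ∀ y, P.De z x y ∨ P.De z y x → y ∈ S) : g < f + S.card := by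
  by_contra c
  have := card_le_card_of_injOn (s := Icc f (f + S.card)) (t := S) (P.it x)
    (fun i hi => by
      have := mem_Icc.1 (mem_coe.1 hi)
      exact hS _ (h.1 i this.1 (by omega)))
    fun i hi j hj e => by
      have := mem_Icc.1 (mem_coe.1 hi)
      have := mem_Icc.1 (mem_coe.1 hj)
      exact P.uniq e (by omega) (by omega)
  rw [Int.card_Icc] at this
  omega

variable [Fintype W] [DecidableEq W]

/-- If `v b` is shifted, then `a w` is shifted. -/
theorem NF.al (n : P.NF U z v a B w b A) (c : P.LC U z) (dvb : P.sh v b = 1) {f' g' : ℤ}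
    (kb : P.Blk z b f g) (kv : P.Blk z v f' g') : P.sh a w = 1 := by
  obtain ⟨⟨z1, z2, z3, z4, z5, z6⟩, ⟨n1, n2, n3, n4, n5⟩, ⟨n6, n7, n8, n9⟩, ⟨m1, m2, m3⟩, ⟨m4, m5⟩,
    m6, -, vU, -⟩ := n.nes
  obtain ⟨⟨a1, a2, a3, a4, a5⟩, ⟨a6, a7, a8, a9⟩, ⟨b1, b2, b3⟩, ⟨b4, b5⟩, b6⟩ := n.ads
  obtain ⟨⟨c1, c2, c3⟩, ⟨c4, c5, c6⟩, c7, c8, c9, c0⟩ := n.shs
  refine c9.resolve_left fun daw => ?_
  have hk := c.big
  have hU := c.card
  have pe := n.pe_ab
  rw [if_pos dvb, if_neg (by omega)] at pe
  have s1 := a1.sh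
  have s4 := a4.sh
  have s7 := a7.sh
  have s3 := a3.sh
  have e1 := n.dvw
  have e2 := n.dab
  refine sec3 (c1 := P.cE U z a b) (c2 := P.cE U z v b) (by omega) vU
    ⟨a1.symm, a3, a7.symm, by unfold mu; omega⟩ a8 a4.symm (by unfold mu; omega)
    (by simp only [Mu, Mh, Ml] at pe; omega) (c.c2 n.Dab (n.Dvb dvb) (by simp [n1.symm]))
    (sum_le_sum fun u _ => ?_) (sum_le_sum fun u _ => ?_) ?_ fun o => ?_
  · have := P.ce_one z a b u v
    have := ind_nonneg (P.Cu z a b u v)
    have := ind_nonneg (P.Cq z a b u v)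
    rcases ind_cases (P.On a u v b) with q | q
    · have := ind_pos (show P.Ch z a b u v from
        ⟨fun t => by have := t.sl0; omega, fun t => by have := t.one; omega, q.1⟩)
      omega
    · have := ind_nonneg (P.Ch z a b u v)
      omega
  · have := P.ce_one z v b u w
    have := ind_nonneg (P.Cu z v b u w)
    have := ind_nonneg (P.Ch z v b u w)
    rcases ind_cases (P.On b v w u) with q | q
    · have := ind_pos (show P.Cq z v b u w from
        ⟨fun t => by have := t.sh0; omega, fun t => by have := t.one; omega, q.1⟩)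
      omega
    · have := ind_nonneg (P.Cq z v b u w)
      omega
  · have l := kb.len (S := {a, v}) (by rw [card_pair n1.symm]; omega) fun y hy => by
      simp only [n.D_iff] at hy
      simp only [mem_insert, mem_singleton]
      grind
    rw [card_pair n1.symm] at l
    obtain ⟨i, i1, i2, i3⟩ := kb.2 a (Or.inr n.Dab)
    obtain ⟨j, j1, j2, j3⟩ := kb.2 v (Or.inr (n.Dvb dvb))
    have : i ≠ j := fun e => n1 (j3.symm.trans (e ▸ i3))
    rcases lt_or_gt_of_ne this with q | q
    · left; rw [st_eq i3 j3 q.le (by omega)]; omega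
    · right; rw [st_eq j3 i3 q.le (by omega)]; omega
  · have c3 : ({w, b, A} : Finset W).card = 3 := by
      rw [card_insert_of_notMem (by simp [m4, m5]), card_pair m6]
    have l := kv.len (S := {w, b, A}) (by omega) fun y hy => by
      simp only [n.D_iff] at hy
      simp only [mem_insert, mem_singleton]
      grind
    rw [c3] at l
    obtain ⟨i, i1, i2, i3⟩ := kv.2 w (Or.inl n.Dvw)
    obtain ⟨j, j1, j2, j3⟩ := kv.2 b (Or.inl (n.Dvb dvb))
    have : i ≠ j := fun e => m4 (i3.symm.trans (e ▸ j3))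
    rcases lt_or_gt_of_ne this with q | q
    · rw [st_eq i3 j3 q.le (by omega)]; omega
    · obtain ⟨m, o1, o2, o3⟩ := (on_iff j3 i3 q (by omega)).1 o
      have := kv.1 m (by omega) (by omega)
      rw [o3] at this
      rcases this with t | t <;> have := t.one <;> omega

end PM

end Pool.Agent.P.MP_3f5ded_co.UG
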