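import Pool.Agent.P.MP_3f5ded_co.CCc2

set_option autoImplicit false

namespace Pool.Agent.P.MP_3f5ded_co.UG

open Finset
open scoped Classical

namespace PM
variable {W : Type} {k : ℕ} {r : ℝ} {Fe : W → W → Prop} [Fintype W] (P : PM W k r Fe)

/-- The four edges `vw, vb, ab, aw` are shifted, `vA` if `p` holds, `Bw` if `q` holds. -/
structure S4 (U : Finset W) (z v a B w b A : W) (p q : Prop) : Prop extends P.LC U z where
  hD : ∀ h l, P.De z h l ↔ (h = v ∧ l = w) ∨ (h = a ∧ l = b) ∨ (h = v ∧ l = b) ∨ (h = a ∧ l = w) ∨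
    (p ∧ h = v ∧ l = A) ∨ (q ∧ h = B ∧ l = w)
  nt : v ≠ a ∧ v ≠ B ∧ a ≠ B
  nh : w ≠ b ∧ w ≠ A ∧ b ≠ A
  nv : v ≠ w ∧ v ≠ b ∧ v ≠ A
  na : a ≠ w ∧ a ≠ b ∧ a ≠ A
  nB : B ≠ w ∧ B ≠ b ∧ B ≠ A

/-- The levels of the shifted edges and the blocks. -/
structure Fr4 (z v a B w b A : W) (p q : Prop) (n1 n2 n3 n4 nA nB fv gv fa ga fw gw fb gb : ℤ) :
    Prop where
  e1 : P.it v n1 = w
  e2 : P.it v n2 = b
  e3 : P.it a n3 = b
  e4 : P.it a n4 = w
  eA : p → P.it v nA = A ∧ fv ≤ nA ∧ nA ≤ gv ∧ nA ≠ n1 ∧ nA ≠ n2 ∧ gv = fv + 2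
  eB : q → P.it B nB = w ∧ fw ≤ nB + (k + 1) ∧ nB + (k + 1) ≤ gw ∧ nB ≠ n1 ∧ nB ≠ n4 ∧ gw = fw + 2
  bv : P.Blk z v fv gv
  ba : P.Blk z a fa ga
  bw : P.Blk z w fw gw
  bb : P.Blk z b fb gb
  iv : fv ≤ n1 ∧ n1 ≤ gv ∧ fv ≤ n2 ∧ n2 ≤ gv ∧ n1 ≠ n2
  ia : fa ≤ n3 ∧ n3 ≤ ga ∧ fa ≤ n4 ∧ n4 ≤ ga ∧ n3 ≠ n4 ∧ ga = fa + 1
  iw : fw ≤ n1 + (k + 1) ∧ n1 + (k + 1) ≤ gw ∧ fw ≤ n4 + (k + 1) ∧ n4 + (k + 1) ≤ gw ∧ n1 ≠ n4
  ib : fb ≤ n2 + (k + 1) ∧ n2 + (k + 1) ≤ gb ∧ fb ≤ n3 + (k + 1) ∧ n3 + (k + 1) ≤ gb ∧ n2 ≠ n3 ∧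
    gb = fb + 1
  sv : ¬ p → gv = fv + 1
  sw : ¬ q → gw = fw + 1

variable {P} {U : Finset W} {z v a B w b A u : W} {p q : Prop}
  {n1 n2 n3 n4 nA nB fv gv fa ga fw gw fb gb : ℤ}

namespace S4

lemma rev (s : P.S4 U z v a B w b A p q) : P.rev.S4 U z w b A v a B q p :=
  ⟨s.toLC.rev, fun h l => by rw [rev_de, s.hD]; tauto, s.nh, s.nt,
    ⟨s.nv.1.symm, s.na.1.symm, s.nB.1.symm⟩, ⟨s.nv.2.1.symm, s.na.2.1.symm, s.nB.2.1.symm⟩,
    ⟨s.nv.2.2.symm, s.na.2.2.symm, s.nB.2.2.symm⟩⟩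

lemma d1 (s : P.S4 U z v a B w b A p q) : P.De z v w := by simp [s.hD]
lemma d2 (s : P.S4 U z v a B w b A p q) : P.De z v b := by simp [s.hD]
lemma d3 (s : P.S4 U z v a B w b A p q) : P.De z a b := by simp [s.hD]
lemma d4 (s : P.S4 U z v a B w b A p q) : P.De z a w := by simp [s.hD]
lemma dA (s : P.S4 U z v a B w b A p q) (h : p) : P.De z v A := by simp [s.hD, h]
lemma dB (s : P.S4 U z v a B w b A p q) (h : q) : P.De z B w := by simp [s.hD, h]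

lemma sizes (s : P.S4 U z v a B w b A p q) {f g : ℤ} (fg : f ≤ g) :
    (P.Blk z a f g → g = f + 1) ∧ (P.Blk z v f g → (p → g = f + 2) ∧ (¬ p → g = f + 1)) := by
  obtain ⟨t1, t2, t3⟩ := s.nt
  obtain ⟨h1, h2, h3⟩ := s.nh
  obtain ⟨v1, v2, v3⟩ := s.nv
  obtain ⟨a1, a2, a3⟩ := s.na
  refine ⟨fun c => ?_, fun c => ⟨fun hp => ?_, fun hp => ?_⟩⟩
  · have := s.blk_card c s.d3.hz (s.tU s.d3) fg (S := {w, b}) fun y => by
      simp only [s.hD, mem_insert, mem_singleton]; grind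
    rw [card_pair h1] at this
    omega
  · have := s.blk_card c s.d1.hz (s.tU s.d1) fg (S := {A, w, b}) fun y => by
      simp only [s.hD, mem_insert, mem_singleton]; grind
    rw [card_insert_of_notMem (by simp [h2.symm, h3.symm]), card_pair h1] at this
    omega
  · have := s.blk_card c s.d1.hz (s.tU s.d1) fg (S := {w, b}) fun y => by
      simp only [s.hD, mem_insert, mem_singleton]; grind
    rw [card_pair h1] at this
    omega

/-- The levels close up. -/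
theorem frame (s : P.S4 U z v a B w b A p q) : ∃ n1 n2 n3 n4 nA nB fv gv fa ga fw gw fb gb,
    P.Fr4 z v a B w b A p q n1 n2 n3 n4 nA nB fv gv fa ga fw gw fb gb := by
  have big := s.big
  obtain ⟨n1, e1⟩ := P.sur v w s.nv.1.symm
  obtain ⟨fv, gv, v1, v2, bv⟩ := s.blk s.d1 e1
  obtain ⟨n2, v3, v4, e2⟩ := bv.2 b (Or.inl s.d2)
  obtain ⟨fb, gb, b1, b2, bb⟩ := s.blk' s.d2 (s.d2.it e2).1
  obtain ⟨m3, b3, b4, f3⟩ := bb.2 a (Or.inr s.d3)
  have e3 := s.d3.it' f3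
  obtain ⟨fa, ga, a1, a2, ba⟩ := s.blk s.d3 e3
  obtain ⟨n4, a3, a4, e4⟩ := ba.2 w (Or.inl s.d4)
  have f4 := (s.d4.it e4).1
  obtain ⟨fw, gw, w1, w2, bw⟩ := s.blk' s.d4 f4
  obtain ⟨m1, w3, w4, f1⟩ := bw.2 v (Or.inr s.d1)
  have sa := (s.sizes (a1.trans a2)).1 ba
  have sv := (s.sizes (v1.trans v2)).2 bv
  have sb := (s.rev.sizes (by omega)).1 bb.rev
  have sw := (s.rev.sizes (by omega)).2 bw.rev
  have gv2 : gv ≤ fv + 2 := by by_cases c : p <;> [have := sv.1 c; have := sv.2 c] <;> omega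
  have gw2 : gw ≤ fw + 2 := by by_cases c : q <;> [have := sw.1 c; have := sw.2 c] <;> omega
  have f1' := (s.d1.it e1).1
  obtain rfl : m1 = n1 + (k + 1) := P.uniq (f1.trans f1'.symm) (by omega) (by omega)
  have hA : ∃ nA, p → P.it v nA = A ∧ fv ≤ nA ∧ nA ≤ gv ∧ nA ≠ n1 ∧ nA ≠ n2 ∧ gv = fv + 2 := by
    by_cases c : p
    · obtain ⟨n, c1, c2, c3⟩ := bv.2 A (Or.inl (s.dA c))
      exact ⟨n, fun _ => ⟨c3, c1, c2, fun e => s.nh.2.1 (e1 ▸ e ▸ c3),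
        fun e => s.nh.2.2 (e2 ▸ e ▸ c3), sv.1 c⟩⟩
    · exact ⟨0, fun e => absurd e c⟩
  have hB : ∃ nB, q → P.it B nB = w ∧ fw ≤ nB + (k + 1) ∧ nB + (k + 1) ≤ gw ∧ nB ≠ n1 ∧ nB ≠ n4 ∧
      gw = fw + 2 := by
    by_cases c : q
    · obtain ⟨n, c1, c2, c3⟩ := bw.2 B (Or.inr (s.dB c))
      refine ⟨n - (k + 1), fun _ => ⟨(s.dB c).it' c3, by omega, by omega, fun e => s.nt.2.1 ?_,
        fun e => s.nt.2.2 ?_, by have := sw.1 c; omega⟩⟩
      · rw [← f1', ← c3, ← e, sub_add_cancel]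
      · rw [← f4, ← c3, ← e, sub_add_cancel]
    · exact ⟨0, fun e => absurd e c⟩
  obtain ⟨nA, hA⟩ := hA
  obtain ⟨nB, hB⟩ := hB
  refine ⟨n1, n2, m3 - (k + 1), n4, nA, nB, fv, gv, fa, ga, fw, gw, fb, gb, e1, e2, e3, e4, hA, hB,
    bv, ba, bw, bb, ⟨v1, v2, v3, v4, fun e => s.nh.1 (e1 ▸ e ▸ e2)⟩,
    ⟨a1, a2, a3, a4, fun e => s.nh.1 (e4 ▸ e ▸ e3), sa⟩,
    ⟨w3, w4, w1, w2, fun e => s.nt.1 (f1' ▸ e ▸ f4)⟩,
    ⟨b1, b2, by omega, by omega, fun e => s.nt.1 ?_, by omega⟩, sv.2, fun c => by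
      have := sw.2 c; omega⟩
  rw [← (s.d2.it e2).1, ← f3, e, sub_add_cancel]

end S4

namespace Fr4

lemma rev (s : P.S4 U z v a B w b A p q)
    (m : P.Fr4 z v a B w b A p q n1 n2 n3 n4 nA nB fv gv fa ga fw gw fb gb) :
    P.rev.Fr4 z w b A v a B q p (-(n1 + (k + 1))) (-(n4 + (k + 1))) (-(n3 + (k + 1)))
      (-(n2 + (k + 1))) (-(nB + (k + 1))) (-(nA + (k + 1))) (-gw) (-fw) (-gb) (-fb) (-gv) (-fv)
      (-ga) (-fa) := by
  have i : ∀ x n, P.rev.it x (-n) = P.it x n := fun x n => by simp [PM.rev]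
  have := m.iv; have := m.ia; have := m.iw; have := m.ib
  refine ⟨(i _ _).trans (s.d1.it m.e1).1, (i _ _).trans (s.d4.it m.e4).1,
    (i _ _).trans (s.d3.it m.e3).1, (i _ _).trans (s.d2.it m.e2).1, fun c => ?_, fun c => ?_,
    m.bw.rev, m.bb.rev, m.bv.rev, m.ba.rev, by omega, by omega, by omega, by omega,
    fun c => by have := m.sw c; omega, fun c => by have := m.sv c; omega⟩
  · obtain ⟨c1, c2⟩ := m.eB c
    exact ⟨(i _ _).trans ((s.dB c).it c1).1, by omega⟩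
  · obtain ⟨c1, c2⟩ := m.eA c
    exact ⟨(i _ _).trans ((s.dA c).it c1).1, by omega⟩

variable (s : P.S4 U z v a B w b A p q)
  (m : P.Fr4 z v a B w b A p q n1 n2 n3 n4 nA nB fv gv fa ga fw gw fb gb)
include s m

/-- The levels at a vertex of `U`. -/
lemma lev (hu : u ∈ U) : ∃ ev ea lw lb : ℤ, (P.it u ev = v ∧ P.it u ea = a ∧ P.it u lw = w ∧
    P.it u lb = b) ∧ (gv < ev ∧ ev < fv + k ∧ ga < ea ∧ ea < fa + k ∧ gw < lw + k ∧ lw < fw ∧
    gb < lb + k ∧ lb < fb) ∧ lw < ev ∧ lw < ea ∧ lb < ev ∧ lb < ea ∧ ev ≠ ea ∧ lw ≠ lb := by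
  obtain ⟨ev, v1, v2, -, v3⟩ := s.out m.bv s.d1.hz (s.tU s.d1) hu
  obtain ⟨ea, a1, a2, -, a3⟩ := s.out m.ba s.d3.hz (s.tU s.d3) hu
  obtain ⟨lw, w1, w2, -, w3⟩ := s.out m.bw s.d1.lz (s.hU s.d1) hu
  obtain ⟨lb, b1, b2, -, b3⟩ := s.out m.bb s.d3.lz (s.hU s.d3) hu
  rw [← P.it_sub] at w3 b3
  have := m.iv; have := m.ia; have := m.iw; have := m.ib
  exact ⟨ev, ea, lw - k, lb - k, ⟨v3, a3, w3, b3⟩, by omega,
    s.d1.lt (s.gd s.d1 hu) m.e1 w3 v3 (by omega) (by omega),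
    s.d4.lt (s.gd s.d4 hu) m.e4 w3 a3 (by omega) (by omega),
    s.d2.lt (s.gd s.d2 hu) m.e2 b3 v3 (by omega) (by omega),
    s.d3.lt (s.gd s.d3 hu) m.e3 b3 a3 (by omega) (by omega),
    fun e => s.nt.1 (v3 ▸ e ▸ a3), fun e => s.nh.1 (w3 ▸ e ▸ b3)⟩

/-- The level of `A` at a vertex of `U`, and the units forced by an early `a` or `B`. -/
lemma levA (hp : p) (hu : u ∈ U) {ev : ℤ} (v1 : P.it u ev = v) (v2 : nA < ev) :
    ∃ lA : ℤ, P.it u lA = A ∧ nA + 1 < lA ∧ lA < nA + (k + 1) ∧ lA < ev ∧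
      (∀ i, P.it u i = a → ga < i → i < lA → P.Cq z v A u w ∧ P.Cq z v A u b) ∧
      (q → ∀ i, P.it u i = B → nB < i → i < lA → P.Cq z v A u w) := by
  obtain ⟨c1, c2, c3, c4, c5, c6⟩ := m.eA hp
  have d := s.dA hp
  have gu := s.gd d hu
  have e0 : P.it A (nA + 1) = v := by rw [← P.it_add, ← (d.it c1).1]; congr 1; ring
  obtain ⟨j, j1, j2, j3, -⟩ := P.next (nA + 1) gu.al.1.symm (e0 ▸ gu.ah.1)
  have j4 := (gu.al.symm.it0 (by rw [gu.al.sh, gu.sl0]; rfl) j3).1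
  have := m.iv; have := m.ia; have := m.iw; have := m.ib
  refine ⟨j, j4, j1, by omega, d.lt gu c1 j4 v1 (by omega) v2, fun i i1 i2 i3 => ⟨?_, ?_⟩,
    fun hq i i1 i2 i3 => ?_⟩
  · exact s.xl d s.d1 s.d4 m.bv m.bw c1 m.e1 m.e4 c2 c3 (by omega) (by omega) c4 (by omega)
      (by omega) hu i1 j4 (by omega) i3 (by omega)
  · exact s.xl d s.d2 s.d3 m.bv m.bb c1 m.e2 m.e3 c2 c3 (by omega) (by omega) c5 (by omega)
      (by omega) hu i1 j4 (by omega) i3 (by omega)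
  · obtain ⟨b1, b2⟩ := m.eB hq
    exact s.xl d s.d1 (s.dB hq) m.bv m.bw c1 m.e1 b1 c2 c3 (by omega) (by omega) c4 (by omega)
      (by omega) hu i1 j4 i2 i3 (by omega)

omit m in
lemma cu (hp : p) : (P.On u A a v → P.Cu z v A u a) ∧ (P.On u A B v → P.Cu z v A u B) ∧
    (P.On u b A a → P.Cu z a b u A) ∧ (P.On u w A a → P.Cu z a w u A) := by
  obtain ⟨t1, t2, t3⟩ := s.nt
  obtain ⟨h1, h2, h3⟩ := s.nh
  obtain ⟨v1, v2, v3⟩ := s.nv
  obtain ⟨a1, a2, a3⟩ := s.na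
  obtain ⟨b1, b2, b3⟩ := s.nB
  refine ⟨fun o => ⟨?_, ?_, o⟩, fun o => ⟨?_, ?_, o⟩, fun o => ⟨?_, ?_, o⟩, fun o => ⟨?_, ?_, o⟩⟩ <;>
    rw [s.hD] <;> grind

/-- A clean vertex meets `A` before `w` and `b`. -/
lemma clean (hp : p) (c : P.Cln U z u) : P.On u A w v ∧ P.On u A b v := by
  obtain ⟨ev, ea, lw, lb, ⟨i1, i2, i3, i4⟩, r1, r2⟩ := m.lev s c.mem
  obtain ⟨c1, c2⟩ := m.eA hp
  obtain ⟨lA, j1, j2, j3, j4, j5, -⟩ := m.levA s hp c.mem i1 (by omega)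
  have a1 : lA < ea := lt_of_le_of_ne
    (not_lt.1 fun e => c.cl v A w (s.dA hp) (j5 ea i2 (by omega) e).1)
    fun e => s.na.2.2 (i2 ▸ e ▸ j1)
  have := m.iv; have := m.ia; have := m.iw; have := m.ib
  have a2 : lA < lw := lt_of_le_of_ne (not_lt.1 fun e => c.cu a w A s.d4
    ((cu s hp).2.2.2 ⟨lw, lA, ea, e, a1, by omega, i3, j1, i2⟩)) fun e => s.nh.2.1 (i3 ▸ e ▸ j1)
  have a3 : lA < lb := lt_of_le_of_ne (not_lt.1 fun e => c.cu a b A s.d3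
    ((cu s hp).2.2.1 ⟨lb, lA, ea, e, a1, by omega, i4, j1, i2⟩)) fun e => s.nh.2.2 (i4 ▸ e ▸ j1)
  exact ⟨⟨lA, lw, ev, a2, by omega, by omega, j1, i3, i1⟩,
    ⟨lA, lb, ev, a3, by omega, by omega, j1, i4, i1⟩⟩

/-- The difference of the free parts at `u` of the edges `ab` and `vb`. -/
lemma diff (hp : p) (hu : u ∈ U) :
    ind (P.On u b v a) + ind (P.On u b w a) ≤
      ind (P.On u b a v) + ind (P.On u b w v) + ind (P.On u b A v) + 1 ∧
    ind (P.On u b a v) + ind (P.On u b w v) + ind (P.On u b A v) + 1 ≤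
      ind (P.On u b v a) + ind (P.On u b w a) + 2 * P.ce z v A u + P.ce z a b u := by
  obtain ⟨ev, ea, lw, lb, ⟨i1, i2, i3, i4⟩, r1, r2⟩ := m.lev s hu
  obtain ⟨c1, c2⟩ := m.eA hp
  obtain ⟨lA, j1, j2, j3, j4, j5, -⟩ := m.levA s hp hu i1 (by omega)
  have := m.iv; have := m.ia; have := m.iw; have := m.ib
  rw [on_lev i4 i1 i2 (by omega) (by omega) (by omega) (by omega),
    on_lev i4 i3 i2 (by omega) (by omega) (by omega) (by omega),
    on_lev i4 i2 i1 (by omega) (by omega) (by omega) (by omega),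
    on_lev i4 i3 i1 (by omega) (by omega) (by omega) (by omega),
    on_lev i4 j1 i1 (by omega) (by omega) (by omega) (by omega)]
  have n1 : lA ≠ ea := fun e => s.na.2.2 (i2 ▸ e ▸ j1)
  have k1 : lA < ea → ea < ev → 1 ≤ P.ce z v A u := fun e e' => by
    have := ind_pos ((cu s hp).1 ⟨lA, ea, ev, e, e', by omega, j1, i2, i1⟩)
    have := P.ce_one z v A u a
    have := ind_nonneg (P.Ch z v A u a)
    have := ind_nonneg (P.Cq z v A u a)
    omega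
  have k2 : lb < lA → lA < ea → 1 ≤ P.ce z a b u := fun e e' => by
    have := ind_pos ((cu s hp).2.2.1 ⟨lb, lA, ea, e, e', by omega, i4, j1, i2⟩)
    have := P.ce_one z a b u A
    have := ind_nonneg (P.Ch z a b u A)
    have := ind_nonneg (P.Cq z a b u A)
    omega
  have k3 : ea < lA → 2 ≤ P.ce z v A u := fun e => by
    have := ind_pos (j5 ea i2 (by omega) e).1
    have := ind_pos (j5 ea i2 (by omega) e).2
    have := P.ce_sub z v A u {w, b}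
    rw [sum_pair s.nh.1] at this
    have := ind_nonneg (P.Ch z v A u w)
    have := ind_nonneg (P.Cu z v A u w)
    have := ind_nonneg (P.Ch z v A u b)
    have := ind_nonneg (P.Cu z v A u b)
    omega
  have := P.ce_nonneg z v A u
  have := P.ce_nonneg z a b u
  unfold ind
  split_ifs <;> omega

/-- The tails `a` and `B` come before `v` only at a cost. -/
lemma half (hp : p) (hq : q) (hu : u ∈ U) :
    ind (P.On u w a v) + ind (P.On u w B v) ≤ 2 * P.ce z v A u := by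
  obtain ⟨ev, ea, lw, lb, ⟨i1, i2, i3, i4⟩, r1, r2⟩ := m.lev s hu
  obtain ⟨c1, c2⟩ := m.eA hp
  obtain ⟨b1, b2⟩ := m.eB hq
  obtain ⟨lA, j1, j2, j3, j4, j5, j6⟩ := m.levA s hp hu i1 (by omega)
  have := m.iv; have := m.ia; have := m.iw; have := m.ib
  have gu := s.gd (s.dB hq) hu
  obtain ⟨eB, k1, k2, k3, -⟩ := P.next nB gu.ah.1.symm (b1 ▸ gu.al.1)
  have k4 := (gu.ah.symm.it0 (by rw [gu.ah.sh, gu.sh0]; rfl) k3).1
  rw [on_lev i3 i2 i1 (by omega) (by omega) (by omega) (by omega),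
    on_lev i3 k4 i1 (by omega) (by omega) (by omega) (by omega)]
  have n1 : lA ≠ ea := fun e => s.na.2.2 (i2 ▸ e ▸ j1)
  have n2 : lA ≠ eB := fun e => s.nB.2.2 (k4 ▸ e ▸ j1)
  have one : ∀ x, P.Cu z v A u x ∨ P.Cq z v A u x → 1 ≤ P.ce z v A u := fun x c => by
    have := P.ce_one z v A u x
    have := ind_nonneg (P.Ch z v A u x)
    have := ind_nonneg (P.Cu z v A u x)
    have := ind_nonneg (P.Cq z v A u x)
    rcases c with c | c <;> have := ind_pos c <;> omega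
  have k5 : ea < ev → 1 ≤ P.ce z v A u := fun e => by
    rcases lt_or_gt_of_ne n1 with c | c
    · exact one a (Or.inl ((cu s hp).1 ⟨lA, ea, ev, c, e, by omega, j1, i2, i1⟩))
    · exact one w (Or.inr (j5 ea i2 (by omega) c).1)
  have k6 : eB < ev → 1 ≤ P.ce z v A u := fun e => by
    rcases lt_or_gt_of_ne n2 with c | c
    · exact one B (Or.inl ((cu s hp).2.1 ⟨lA, eB, ev, c, e, by omega, j1, k4, i1⟩))
    · exact one w (Or.inr (j6 hq eB k4 k1 c))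
  have := P.ce_nonneg z v A u
  unfold ind
  split_ifs <;> omega

/-- The free parts at `u` of the edge `vb` when `b` comes before `w` and `v` before `a`. -/
lemma part (hp : p) (hu : u ∈ U) (o1 : ¬ P.On u w b v) (o2 : ¬ P.On u w a v) :
    ind (P.On u b a v) = 0 ∧ ind (P.On u b w v) = 1 ∧ ind (P.On u b A v) ≤ P.ce z a b u := by
  obtain ⟨ev, ea, lw, lb, ⟨i1, i2, i3, i4⟩, r1, r2⟩ := m.lev s hu
  obtain ⟨c1, c2⟩ := m.eA hp
  obtain ⟨lA, j1, j2, j3, j4, -⟩ := m.levA s hp hu i1 (by omega)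
  have := m.iv; have := m.ia; have := m.iw; have := m.ib
  rw [on_lev i3 i4 i1 (by omega) (by omega) (by omega) (by omega)] at o1
  rw [on_lev i3 i2 i1 (by omega) (by omega) (by omega) (by omega)] at o2
  rw [on_lev i4 i2 i1 (by omega) (by omega) (by omega) (by omega),
    on_lev i4 i3 i1 (by omega) (by omega) (by omega) (by omega),
    on_lev i4 j1 i1 (by omega) (by omega) (by omega) (by omega)]
  have k2 : lb < lA → 1 ≤ P.ce z a b u := fun e => by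
    have := ind_pos ((cu s hp).2.2.1 ⟨lb, lA, ea, e, by omega, by omega, i4, j1, i2⟩)
    have := P.ce_one z a b u A
    have := ind_nonneg (P.Ch z a b u A)
    have := ind_nonneg (P.Cq z a b u A)
    omega
  have := P.ce_nonneg z a b u
  unfold ind
  split_ifs <;> omega

/-- The shares of the twins at tails and heads. -/
lemma mh : P.Mh U a b w = (if n4 < n3 then (U.card : ℤ) else 0) ∧
    P.Ml U a b v = (if n3 < n2 then (U.card : ℤ) else 0) ∧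
    P.Ml U v b a = (if n2 < n3 then (U.card : ℤ) else 0) ∧
    P.Mh U v b w = (if n1 < n2 then (U.card : ℤ) else 0) ∧
    P.Mh U v w b = (if n2 < n1 then (U.card : ℤ) else 0) ∧
    (p → P.Mh U v b A = (if nA < n2 then (U.card : ℤ) else 0) ∧
      P.Mh U v w A = (if nA < n1 then (U.card : ℤ) else 0) ∧
      P.Mh U v A w = (if n1 < nA then (U.card : ℤ) else 0) ∧
      P.Mh U v A b = (if n2 < nA then (U.card : ℤ) else 0)) := by
  have := m.iv; have := m.ia; have := m.iw; have := m.ib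
  have g2 := (s.d2.it m.e2).1
  have g3 := (s.d3.it m.e3).1
  refine ⟨s.Mh_eq m.ba s.d3.hz (s.tU s.d3) m.e3 m.e4 (by omega) (by omega) (by omega) (by omega),
    ?_, ?_, s.Mh_eq m.bv s.d1.hz (s.tU s.d1) m.e2 m.e1 (by omega) (by omega) (by omega) (by omega),
    s.Mh_eq m.bv s.d1.hz (s.tU s.d1) m.e1 m.e2 (by omega) (by omega) (by omega) (by omega),
    fun hp => ?_⟩
  · rw [s.Ml_eq m.bb s.d3.lz (s.hU s.d3) g3 g2 (by omega) (by omega) (by omega) (by omega)]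
    simp only [add_lt_add_iff_right]
  · rw [s.Ml_eq m.bb s.d3.lz (s.hU s.d3) g2 g3 (by omega) (by omega) (by omega) (by omega)]
    simp only [add_lt_add_iff_right]
  · obtain ⟨c1, c2⟩ := m.eA hp
    refine ⟨?_, ?_, ?_, ?_⟩
    · exact s.Mh_eq m.bv s.d1.hz (s.tU s.d1) m.e2 c1 (by omega) (by omega) (by omega) (by omega)
    · exact s.Mh_eq m.bv s.d1.hz (s.tU s.d1) m.e1 c1 (by omega) (by omega) (by omega) (by omega)
    · exact s.Mh_eq m.bv s.d1.hz (s.tU s.d1) c1 m.e1 (by omega) (by omega) (by omega) (by omega)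
    · exact s.Mh_eq m.bv s.d1.hz (s.tU s.d1) c1 m.e2 (by omega) (by omega) (by omega) (by omega)

/-- Pattern C4. -/
theorem four (hp : p) (hq : ¬ q)
    (pA : P.Mu U v A w + P.Mh U v A w + P.Mu U v A b + P.Mh U v A b ≤ 3 * U.card)
    (pab : 3 * (U.card : ℤ) = P.cE U z a b + P.Mu U a b v + P.Ml U a b v + P.Mu U a b w +
      P.Mh U a b w)
    (pvb : 3 * (U.card : ℤ) = P.cE U z v b + P.Mu U v b a + P.Ml U v b a + P.Mu U v b w +
      P.Mh U v b w + P.Mu U v b A + P.Mh U v b A) :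
    n3 = n1 ∧ n4 = n2 ∧ ((n1 = nA + 1 ∧ n2 = nA + 2) ∨ (n1 = nA + 2 ∧ n2 = nA + 1)) := by
  obtain ⟨c1, c2⟩ := m.eA hp
  have := m.iv; have := m.ia; have := m.iw; have := m.ib; have := m.sw hq
  have := s.card; have := s.big
  obtain ⟨x1, x2, x3, x4, -, x5⟩ := m.mh s
  obtain ⟨x5, -, x6, x7⟩ := x5 hp
  have cl : ∀ Q : W → Prop, (∀ u, P.Cln U z u → Q u) → (U.card : ℤ) - 2 ≤ ∑ u ∈ U, ind (Q u) :=
    fun Q hQ => by
      have a : ∑ u ∈ U, (1 : ℤ) ≤ ∑ u ∈ U, (ind (Q u) + ind (¬ P.Cln U z u)) :=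
        sum_le_sum fun u _ => by
          have := ind_nonneg (Q u)
          have := ind_nonneg (¬ P.Cln U z u)
          by_cases c : P.Cln U z u
          · have := ind_pos (hQ u c); omega
          · have := ind_pos (p := ¬ P.Cln U z u) c; omega
      rw [sum_add_distrib, sum_ind U fun u => ¬ P.Cln U z u, filter_congr_decidable] at a
      have := s.dirty
      simp only [sum_const, nsmul_eq_mul, mul_one] at a
      omega
  have y1 : (U.card : ℤ) - 2 ≤ P.Mu U v A w := cl _ fun u c => (m.clean s hp c).1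
  have y2 : (U.card : ℤ) - 2 ≤ P.Mu U v A b := cl _ fun u c => (m.clean s hp c).2
  have y3 := sum_le_sum fun u (hu : u ∈ U) => (m.diff s hp hu).1
  have y4 := sum_le_sum fun u (hu : u ∈ U) => (m.diff s hp hu).2
  simp only [sum_add_distrib, sum_const, nsmul_eq_mul, mul_one, ← mul_sum] at y3 y4
  change P.Mu U a b v + P.Mu U a b w ≤ P.Mu U v b a + P.Mu U v b w + P.Mu U v b A + _ at y3
  change P.Mu U v b a + P.Mu U v b w + P.Mu U v b A + _ ≤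
    P.Mu U a b v + P.Mu U a b w + 2 * P.cE U z v A + P.cE U z a b at y4
  have y5 := s.c3 s.d2 (s.dA hp) s.d3 (by simp [s.nh.2.2]) (by simp [s.nt.1]) (by simp [s.nt.1])
  have := P.cE_nonneg U z v b
  have := P.cE_nonneg U z v A
  have := P.cE_nonneg U z a b
  rw [x6, x7] at pA
  rw [x1, x2] at pab
  rw [x3, x4, x5] at pvb
  split_ifs at pA pab pvb <;> omega

/-- The count on `vb` in pattern C5. -/
lemma five0 (hp : p) (o : ∀ u ∈ U, ¬ P.On u w b v ∧ ¬ P.On u w a v)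
    (pvb : 3 * (U.card : ℤ) = P.cE U z v b + P.Mu U v b a + P.Ml U v b a + P.Mu U v b w +
      P.Mh U v b w + P.Mu U v b A + P.Mh U v b A) : gb = fv + 2 + (k + 1) := by
  obtain ⟨c1, c2⟩ := m.eA hp
  have := m.iv; have := m.ib
  have := s.card; have := s.big
  obtain ⟨-, -, x3, x4, -, x5⟩ := m.mh s
  obtain ⟨x5, -⟩ := x5 hp
  have y1 : P.Mu U v b a = 0 := sum_eq_zero fun u hu => (m.part s hp hu (o u hu).1 (o u hu).2).1
  have y2 : P.Mu U v b w = U.card := by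
    rw [Mu, sum_congr rfl fun u hu => (m.part s hp hu (o u hu).1 (o u hu).2).2.1]; simp
  have y3 : P.Mu U v b A ≤ P.cE U z a b :=
    sum_le_sum fun u hu => (m.part s hp hu (o u hu).1 (o u hu).2).2.2
  have y4 : 0 ≤ P.Mu U v b A := sum_nonneg fun _ _ => ind_nonneg _
  have y5 := s.c2 s.d2 s.d3 (by simp [s.nt.1])
  have := P.cE_nonneg U z v b
  rw [x3, x4, x5] at pvb
  split_ifs at pvb <;> omega

/-- Pattern C5. -/
theorem five (hp : p) (hq : q)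
    (pvw : 3 * (U.card : ℤ) = P.cE U z v w + P.Mu U v w b + P.Mh U v w b + P.Mu U v w A +
      P.Mh U v w A + P.Mu U v w a + P.Ml U v w a + P.Mu U v w B + P.Ml U v w B)
    (pvb : 3 * (U.card : ℤ) = P.cE U z v b + P.Mu U v b a + P.Ml U v b a + P.Mu U v b w +
      P.Mh U v b w + P.Mu U v b A + P.Mh U v b A)
    (paw : 3 * (U.card : ℤ) = P.cE U z a w + P.Mu U a w b + P.Mh U a w b + P.Mu U a w v +
      P.Ml U a w v + P.Mu U a w B + P.Ml U a w B) :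
    n3 = n1 ∧ n4 = n2 ∧ ((n1 = nA + 1 ∧ n2 = nA + 2) ∨ (n1 = nA + 2 ∧ n2 = nA + 1)) ∧
      nB = nA + 3 := by
  obtain ⟨c1, c2⟩ := m.eA hp
  obtain ⟨c3, c4⟩ := m.eB hq
  have := m.iv; have := m.ia; have := m.iw; have := m.ib
  have := s.card; have := s.big
  obtain ⟨-, -, -, -, x1, x2⟩ := m.mh s
  obtain ⟨-, x2, -⟩ := x2 hp
  obtain ⟨-, -, -, -, x3, x4⟩ := (m.rev s).mh s.rev
  obtain ⟨-, x4, -⟩ := x4 hq
  rw [rev_Mh] at x3 x4
  have y1 := sum_le_sum fun u (hu : u ∈ U) => m.half s hp hq hu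
  have y2 := sum_le_sum fun u (hu : u ∈ U) => (m.rev s).half s.rev hq hp hu
  simp only [rev_on, rev_ce] at y2
  simp only [sum_add_distrib, ← mul_sum] at y1 y2
  change P.Mu U v w a + P.Mu U v w B ≤ 2 * P.cE U z v A at y1
  change P.Mu U v w b + P.Mu U v w A ≤ 2 * P.cE U z B w at y2
  have y5 := s.c3 s.d1 (s.dA hp) (s.dB hq) (by simp [s.nh.2.1]) (by simp [s.nt.2.1])
    (by simp [s.nt.2.1])
  have nn : ∀ x, 0 ≤ P.Mu U v w x := fun x => sum_nonneg fun _ _ => ind_nonneg _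
  have := nn a; have := nn B; have := nn b; have := nn A
  have := P.cE_nonneg U z v w
  rw [x1, x2, x3, x4] at pvw
  have key : P.Mu U v w a = 0 ∧ P.Mu U v w b = 0 ∧ gw = fv + 3 + (k + 1) := by
    split_ifs at pvw <;> omega
  have o : ∀ x, P.Mu U v w x = 0 → ∀ u ∈ U, ¬ P.On u w x v := fun x e u hu c => by
    have := (sum_eq_zero_iff_of_nonneg fun _ _ => ind_nonneg _).1 e u hu
    rw [ind_pos c] at this
    omega
  have z1 := m.five0 s hp (fun u hu => ⟨o b key.2.1 u hu, o a key.1 u hu⟩) pvb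
  have z2 := (m.rev s).five0 s.rev hq (fun u hu => by
    rw [rev_on, rev_on]; exact ⟨o a key.1 u hu, o b key.2.1 u hu⟩)
    (by simpa only [rev_cE, rev_Mu, rev_Mh, rev_Ml] using paw)
  omega

end Fr4

variable [DecidableEq W]

lemma NF.s4 (n : P.NF U z v a B w b A) (c : P.LC U z) (dvb : P.sh v b = 1) (daw : P.sh a w = 1) :
    P.S4 U z v a B w b A (P.sh v A = 1) (P.sh B w = 1) := by
  obtain ⟨-, ⟨n1, n2, n3, n4, n5⟩, ⟨n6, n7, n8, n9⟩, ⟨m1, m2, m3⟩, ⟨m4, m5⟩, m6, -⟩ := n.nes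
  exact ⟨c, fun h l => by rw [n.D_iff]; tauto, ⟨n1, n2, n6⟩, ⟨m4, m5, m6⟩, ⟨n3, n4, n5⟩,
    ⟨n7, n8, n9⟩, ⟨m1, m2, m3⟩⟩

/-- The input of the core for the pattern C3. -/
theorem NF.lev3 (n : P.NF U z v a B w b A) (c : P.LC U z) (dvb : P.sh v b = 1) (daw : P.sh a w = 1)
    (dvA : P.sh v A = 0) (dBw : P.sh B w = 0) : ∃ n1 n2 n3 n4 : ℤ, P.it v n1 = w ∧ P.it v n2 = b ∧
      P.it a n3 = b ∧ P.it a n4 = w ∧ (n2 = n1 + 1 ∨ n1 = n2 + 1) ∧ (n3 = n2 + 1 ∨ n2 = n3 + 1) ∧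
      (n4 = n3 + 1 ∨ n3 = n4 + 1) ∧ (n1 = n4 + 1 ∨ n4 = n1 + 1) := by
  obtain ⟨n1, n2, n3, n4, nA, nB, fv, gv, fa, ga, fw, gw, fb, gb, m⟩ := (n.s4 c dvb daw).frame
  have := m.iv; have := m.ia; have := m.iw; have := m.ib
  have := m.sv (by omega); have := m.sw (by omega)
  exact ⟨n1, n2, n3, n4, m.e1, m.e2, m.e3, m.e4, by omega⟩

/-- The input of the core for the patterns C4 and C5. -/
theorem NF.lev45 (n : P.NF U z v a B w b A) (c : P.LC U z) (dvb : P.sh v b = 1) (daw : P.sh a w = 1)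
    (dvA : P.sh v A = 1)
    (pA : P.Mu U v A w + P.Mh U v A w + P.Mu U v A b + P.Mh U v A b ≤ 3 * U.card)
    (pab : 3 * (U.card : ℤ) = P.cE U z a b + P.Mu U a b v + P.Ml U a b v + P.Mu U a b w +
      P.Mh U a b w)
    (pvb : 3 * (U.card : ℤ) = P.cE U z v b + P.Mu U v b a + P.Ml U v b a + P.Mu U v b w +
      P.Mh U v b w + P.Mu U v b A + P.Mh U v b A)
    (pvw : P.sh B w = 1 → 3 * (U.card : ℤ) = P.cE U z v w + P.Mu U v w b + P.Mh U v w b +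
      P.Mu U v w A + P.Mh U v w A + P.Mu U v w a + P.Ml U v w a + P.Mu U v w B + P.Ml U v w B)
    (paw : P.sh B w = 1 → 3 * (U.card : ℤ) = P.cE U z a w + P.Mu U a w b + P.Mh U a w b +
      P.Mu U a w v + P.Ml U a w v + P.Mu U a w B + P.Ml U a w B) :
    ∃ s i j : ℤ, ((i = s + 1 ∧ j = s + 2) ∨ (i = s + 2 ∧ j = s + 1)) ∧ P.it v s = A ∧
      P.it v i = w ∧ P.it v j = b ∧ P.it a i = b ∧ P.it a j = w ∧
      (P.sh B w = 1 → P.it B (s + 3) = w) := by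
  have s := n.s4 c dvb daw
  obtain ⟨n1, n2, n3, n4, nA, nB, fv, gv, fa, ga, fw, gw, fb, gb, m⟩ := s.frame
  by_cases hq : P.sh B w = 1
  · obtain ⟨rfl, rfl, e, rfl⟩ := m.five s dvA hq (pvw hq) pvb (paw hq)
    exact ⟨nA, _, _, e, (m.eA dvA).1, m.e1, m.e2, m.e3, m.e4, fun _ => (m.eB hq).1⟩
  · obtain ⟨rfl, rfl, e⟩ := m.four s dvA hq pA pab pvb
    exact ⟨nA, _, _, e, (m.eA dvA).1, m.e1, m.e2, m.e3, m.e4, fun a => absurd a hq⟩

end PM

end Pool.Agent.P.MP_3f5ded_co.UG
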