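import Pool.Agent.P.MP_3f5ded_co.CC0

set_option autoImplicit false

namespace Pool.Agent.P.MP_3f5ded_co.UG

open Finset

/-- The unshifted items of every vertex `x` other than `z` fill the levels from `lo x` to `hi x`. -/
structure CorE {W : Type} (k : ℕ) (Fe : W → W → Prop) (z : W) (it : W → ℤ → W) (lo hi : W → ℤ) :
    Prop where
  sym : ∀ x y, Fe x y → Fe y x
  ne : ∀ x n, it x n ≠ x
  inj : ∀ x n n', x ≠ z → lo x ≤ n → n ≤ hi x → lo x ≤ n' → n' ≤ hi x → it x n = it x n' → n = n'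
  ed : ∀ x n, x ≠ z → lo x ≤ n → n ≤ hi x → it x n ≠ z → ¬ Fe x (it x n) →
    lo (it x n) ≤ n ∧ n ≤ hi (it x n) ∧ it (it x n) n = x
  zz : ∀ x y n n', lo x ≤ n → n ≤ hi x → lo y ≤ n' → n' ≤ hi y → it x n = z → it y n' = z →
    ¬ Fe x z → ¬ Fe y z → (n' = n → x = y) ∧ n' ≠ n + k ∧ n' ≠ n + k + 1
  zs : ∀ x, x ≠ z → ∃ n, lo x ≤ n ∧ n ≤ hi x ∧ it x n = z

section
variable {W : Type} [Fintype W] (Fe : W → W → Prop) (z : W) (it : W → ℤ → W) (lo hi : W → ℤ)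

open Classical in
/-- The vertices present at level `n`. -/
noncomputable def cV (n : ℤ) : Finset W := univ.filter fun x => x ≠ z ∧ lo x ≤ n ∧ n ≤ hi x

open Classical in
/-- The edges to `z` at level `n`. -/
noncomputable def cZ (n : ℤ) : Finset W :=
  univ.filter fun x => lo x ≤ n ∧ n ≤ hi x ∧ it x n = z ∧ ¬ Fe x z

open Classical in
/-- The ports at level `n`. -/
noncomputable def cP (n : ℤ) : Finset W :=
  univ.filter fun x => x ≠ z ∧ lo x ≤ n ∧ n ≤ hi x ∧ Fe x (it x n)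

/-- Edges to `z` minus ports at level `n`. -/
noncomputable def cS (n : ℤ) : ℤ := (cZ Fe z it lo hi n).card - (cP Fe z it lo hi n).card

variable {Fe z it lo hi} {x : W} {n : ℤ}

lemma mem_cV : x ∈ cV z lo hi n ↔ x ≠ z ∧ lo x ≤ n ∧ n ≤ hi x := by simp [cV]
lemma mem_cZ : x ∈ cZ Fe z it lo hi n ↔ lo x ≤ n ∧ n ≤ hi x ∧ it x n = z ∧ ¬ Fe x z := by simp [cZ]
lemma mem_cP : x ∈ cP Fe z it lo hi n ↔ x ≠ z ∧ lo x ≤ n ∧ n ≤ hi x ∧ Fe x (it x n) := by simp [cP]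

end

lemma sum_split (k : ℕ) (hk : 12 ≤ k) (f : ℤ → ℤ) : ∑ n ∈ Icc (2 : ℤ) (2 * k + 1), f n =
    f 2 + f 3 + f k + f (k + 1) + f (k + 2) + f (k + 3) + f (2 * k) + f (2 * k + 1) +
      ∑ j ∈ Icc (4 : ℤ) (k - 1), (f j + f (j + k)) := by
  have e : Icc (2 : ℤ) (2 * k + 1) = insert 2 (insert 3 (insert (k : ℤ) (insert ((k : ℤ) + 1)
      (insert ((k : ℤ) + 2) (insert ((k : ℤ) + 3) (insert (2 * (k : ℤ)) (insert (2 * (k : ℤ) + 1)
      (Icc (4 : ℤ) (k - 1) ∪ (Icc (4 : ℤ) (k - 1)).map (addRightEmbedding (k : ℤ)))))))))) := by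
    ext n
    simp only [map_add_right_Icc, mem_insert, mem_union, mem_Icc]
    omega
  rw [e]
  repeat rw [sum_insert (by simp only [map_add_right_Icc, mem_insert, mem_union, mem_Icc]; omega)]
  rw [sum_union (by rw [disjoint_left]; simp only [map_add_right_Icc, mem_Icc]; omega), sum_map,
    sum_add_distrib]
  simp only [addRightEmbedding_apply]
  ring

lemma sum_le_part {S T : Finset ℤ} {g : ℤ → ℤ} (h : T ⊆ S) (h0 : ∀ j ∈ S, j ∉ T → g j ≤ 0) :
    ∑ j ∈ S, g j ≤ ∑ j ∈ T, g j := by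
  rw [← sum_sdiff h]
  have := sum_nonpos (s := S \ T) (f := g) fun j hj => h0 j (mem_sdiff.1 hj).1 (mem_sdiff.1 hj).2
  omega

/-- Five levels at which only `w, b, A` and at most two other vertices are present. -/
structure Val {W : Type} (Fe : W → W → Prop) (z : W) (lo hi : W → ℤ) (w b A y1 y2 : W)
    (n1 n2 n3 n4 n5 : ℤ) : Prop where
  wz : w ≠ z
  bz : b ≠ z
  Az : A ≠ z
  wb : w ≠ b
  wA : w ≠ A
  bA : b ≠ A
  d : n1 ≠ n2 ∧ n1 ≠ n3 ∧ n1 ≠ n4 ∧ n1 ≠ n5 ∧ n2 ≠ n3 ∧ n2 ≠ n4 ∧ n2 ≠ n5 ∧ n3 ≠ n4 ∧ n3 ≠ n5 ∧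
    n4 ≠ n5
  iw : ∀ n, n = n1 ∨ n = n2 ∨ n = n3 ∨ n = n4 ∨ n = n5 → lo w ≤ n ∧ n ≤ hi w
  ib : ∀ n, n = n1 ∨ n = n2 ∨ n = n3 ∨ n = n4 ∨ n = n5 → lo b ≤ n ∧ n ≤ hi b
  iA : ∀ n, n = n2 ∨ n = n3 ∨ n = n4 ∨ n = n5 → lo A ≤ n ∧ n ≤ hi A
  o1 : ∀ x, x ≠ z → lo x ≤ n1 → n1 ≤ hi x → x = w ∨ x = b
  o2 : ∀ x n, n = n2 ∨ n = n3 → x ≠ z → lo x ≤ n → n ≤ hi x → x = w ∨ x = b ∨ x = A
  o4 : ∀ x, x ≠ z → lo x ≤ n4 → n4 ≤ hi x → x = w ∨ x = b ∨ x = A ∨ x = y1
  o5 : ∀ x, x ≠ z → lo x ≤ n5 → n5 ≤ hi x → x = w ∨ x = b ∨ x = A ∨ x = y1 ∨ x = y2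
  fw : ∀ x, Fe w x → x = z
  fb : ∀ x x', Fe b x → Fe b x' → x ≠ z → x' ≠ z → x = x'

namespace CorE
variable {W : Type} [Fintype W] {k : ℕ} {Fe : W → W → Prop} {z : W} {it : W → ℤ → W}
  {lo hi : W → ℤ} (c : CorE k Fe z it lo hi)
include c

/-- Parity at one level. -/
lemma par (n : ℤ) :
    ((cV z lo hi n).card + (cZ Fe z it lo hi n).card + (cP Fe z it lo hi n).card) % 2 = 0 := by
  classical
  let E := (cV z lo hi n).filter fun x => it x n ≠ z ∧ ¬ Fe x (it x n)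
  have hE : ∀ x ∈ E, it x n ∈ E ∧ it (it x n) n = x := fun x hx => by
    simp only [E, mem_filter, mem_cV] at hx ⊢
    obtain ⟨a1, a2, a3⟩ := c.ed x n hx.1.1 hx.1.2.1 hx.1.2.2 hx.2.1 hx.2.2
    exact ⟨⟨⟨hx.2.1, a1, a2⟩, a3.symm ▸ hx.1.1, by rw [a3]; exact fun f => hx.2.2 (c.sym _ _ f)⟩, a3⟩
  have h1 := sum_involution (s := E) (f := fun _ => (1 : ZMod 2)) (fun x _ => it x n)
    (fun _ _ => by decide) (fun x _ _ => c.ne x n) (fun x hx => (hE x hx).1) fun x hx => (hE x hx).2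
  rw [sum_const, nsmul_eq_mul, mul_one] at h1
  have h2 := Nat.even_iff.1 (ZMod.natCast_eq_zero_iff_even.1 h1)
  have key : cV z lo hi n = E ∪ (cZ Fe z it lo hi n ∪ cP Fe z it lo hi n) := by
    ext x
    simp only [E, mem_union, mem_filter, mem_cV, mem_cZ, mem_cP]
    constructor
    · intro a
      by_cases f : Fe x (it x n)
      · tauto
      by_cases e : it x n = z
      · exact Or.inr (Or.inl ⟨a.2.1, a.2.2, e, e ▸ f⟩)
      · tauto
    · rintro (a | a | a)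
      · exact a.1
      · exact ⟨fun e => c.ne x n (a.2.2.1.trans e.symm), a.1, a.2.1⟩
      · tauto
  have h3 := congrArg card key
  rw [card_union_of_disjoint, card_union_of_disjoint] at h3
  · omega
  all_goals
    rw [disjoint_left]
    intro x a b
    simp only [E, mem_union, mem_filter, mem_cV, mem_cZ, mem_cP] at a b
  · exact a.2.2.2 (a.2.2.1 ▸ b.2.2.2)
  · tauto

lemma z1 (n : ℤ) : (cZ Fe z it lo hi n).card ≤ 1 := card_le_one.2 fun x hx y hy => by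
  rw [mem_cZ] at hx hy
  exact (c.zz x y n n hx.1 hx.2.1 hy.1 hy.2.1 hx.2.2.1 hy.2.2.1 hx.2.2.2 hy.2.2.2).1 rfl

lemma z2 {n n' : ℤ} (e : n' = n + k ∨ n' = n + k + 1) :
    (cZ Fe z it lo hi n).card + (cZ Fe z it lo hi n').card ≤ 1 := by
  have := c.z1 n
  have := c.z1 n'
  by_contra g
  obtain ⟨x, hx⟩ := card_pos.1 (show 0 < (cZ Fe z it lo hi n).card by omega)
  obtain ⟨y, hy⟩ := card_pos.1 (show 0 < (cZ Fe z it lo hi n').card by omega)
  rw [mem_cZ] at hx hy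
  have := (c.zz x y n n' hx.1 hx.2.1 hy.1 hy.2.1 hx.2.2.1 hy.2.2.1 hx.2.2.2 hy.2.2.2).2
  omega

/-- The surplus of edges to `z` over ports. -/
lemma tot {R : Finset W} {a A b B : W} (h : H4 k Fe R z a A b B) {S : Finset ℤ}
    (hS : ∀ x n, x ≠ z → lo x ≤ n → n ≤ hi x → n ∈ S) : 2 ≤ ∑ n ∈ S, cS Fe z it lo hi n := by
  classical
  obtain ⟨N, hN, cN⟩ := h.zf
  have h1 : ((univ.erase z) \ N).card ≤ ∑ n ∈ S, (cZ Fe z it lo hi n).card := by
    rw [← card_sigma]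
    refine card_le_card_of_surjOn (fun s => s.2) fun x hx => ?_
    simp only [coe_sdiff, coe_erase, coe_univ, Set.mem_sdiff, Set.mem_univ, true_and,
      Set.mem_singleton_iff, mem_coe, hN] at hx
    obtain ⟨n, n1, n2, e⟩ := c.zs x hx.1
    exact ⟨⟨n, x⟩, by
      simp [mem_cZ, hS x n hx.1 n1 n2, n1, n2, e, show ¬ Fe x z from fun f => hx.2 (c.sym _ _ f)], rfl⟩
  have h2 : ∑ n ∈ S, (cP Fe z it lo hi n).card ≤
      (insert (a, A) (insert (A, a) (insert (b, B) (insert (B, b) (N ×ˢ {z}))))).card := by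
    rw [← card_sigma]
    refine card_le_card_of_injOn (fun s => (s.2, it s.2 s.1)) (fun s hs => ?_) ?_
    · simp only [coe_sigma, Set.mem_sigma_iff, mem_coe, mem_cP] at hs
      simp only [coe_insert, Set.mem_insert_iff, Prod.mk.injEq, mem_coe, mem_product, hN,
        mem_singleton]
      by_cases e : it s.2 s.1 = z
      · have := c.sym _ _ (e ▸ hs.2.2.2.2); tauto
      · have := (h.fe _ _ hs.2.1 e).1 hs.2.2.2.2; tauto
    · rintro ⟨l, x⟩ hs ⟨l', x'⟩ hs' e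
      simp only [coe_sigma, Set.mem_sigma_iff, mem_coe, mem_cP] at hs hs'
      obtain ⟨rfl, e2⟩ := Prod.mk.inj e
      obtain rfl : l = l' := c.inj _ _ _ hs.2.1 hs.2.2.1 hs.2.2.2.1 hs'.2.2.1 hs'.2.2.2.1 e2
      rfl
  have h3 := le_card_sdiff N (univ.erase z)
  rw [card_erase_of_mem (mem_univ z), card_univ, h.card] at h3
  have a1 := card_insert_le (a, A) (insert (A, a) (insert (b, B) (insert (B, b) (N ×ˢ {z}))))
  have a2 := card_insert_le (A, a) (insert (b, B) (insert (B, b) (N ×ˢ {z})))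
  have a3 := card_insert_le (b, B) (insert (B, b) (N ×ˢ {z}))
  have a4 := card_insert_le (B, b) (N ×ˢ {z})
  rw [card_product, card_singleton] at a4
  unfold cS
  rw [sum_sub_distrib, ← Nat.cast_sum, ← Nat.cast_sum]
  omega

/-- The valley is not tight. -/
lemma valley {w b A y1 y2 : W} {n1 n2 n3 n4 n5 n6 : ℤ} (V : Val Fe z lo hi w b A y1 y2 n1 n2 n3 n4 n5)
    (e1 : (cZ Fe z it lo hi n1).card = 0) (p1 : (cP Fe z it lo hi n1).card = 0)
    (p2 : (cP Fe z it lo hi n2).card = 0) (p3 : (cP Fe z it lo hi n3).card = 0)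
    (p4 : (cP Fe z it lo hi n4).card ≤ 1)
    (p5 : (cP Fe z it lo hi n5).card ≤ (cZ Fe z it lo hi n5).card + (cZ Fe z it lo hi n6).card)
    (e6 : (cZ Fe z it lo hi n4).card + (cZ Fe z it lo hi n6).card ≤ 1) : False := by
  obtain ⟨wz, bz, Az, wb, wA, bA, d, iw, ib, iA, o1, o2, o4, o5, fw, fb⟩ := V
  have nP : ∀ {n x}, (cP Fe z it lo hi n).card = 0 → x ≠ z → lo x ≤ n ∧ n ≤ hi x → ¬ Fe x (it x n) :=
    fun h a i f => by
      rw [card_eq_zero] at h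
      exact notMem_empty _ (h ▸ mem_cP.2 ⟨a, i.1, i.2, f⟩)
  have jw : ∀ n n', n = n1 ∨ n = n2 ∨ n = n3 ∨ n = n4 ∨ n = n5 →
      n' = n1 ∨ n' = n2 ∨ n' = n3 ∨ n' = n4 ∨ n' = n5 → n ≠ n' → it w n ≠ it w n' :=
    fun n n' a a' g e => g (c.inj w n n' wz (iw n a).1 (iw n a).2 (iw n' a').1 (iw n' a').2 e)
  have jb : ∀ n n', n = n1 ∨ n = n2 ∨ n = n3 ∨ n = n4 ∨ n = n5 →
      n' = n1 ∨ n' = n2 ∨ n' = n3 ∨ n' = n4 ∨ n' = n5 → n ≠ n' → it b n ≠ it b n' :=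
    fun n n' a a' g e => g (c.inj b n n' bz (ib n a).1 (ib n a).2 (ib n' a').1 (ib n' a').2 e)
  have jA : ∀ n n', n = n2 ∨ n = n3 ∨ n = n4 ∨ n = n5 →
      n' = n2 ∨ n' = n3 ∨ n' = n4 ∨ n' = n5 → n ≠ n' → it A n ≠ it A n' :=
    fun n n' a a' g e => g (c.inj A n n' Az (iA n a).1 (iA n a).2 (iA n' a').1 (iA n' a').2 e)
  -- first level
  have i1 := iw n1 (by simp)
  have f1 := nP p1 wz i1
  have z1 : it w n1 ≠ z := fun e => by
    rw [card_eq_zero] at e1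
    exact notMem_empty _ (e1 ▸ mem_cZ.2 ⟨i1.1, i1.2, e, e ▸ f1⟩)
  have g1 := c.ed w n1 wz i1.1 i1.2 z1 f1
  have w1 : it w n1 = b := (o1 _ z1 g1.1 g1.2.1).resolve_left (c.ne _ _)
  have b1 : it b n1 = w := w1 ▸ g1.2.2
  -- second and third level
  have lev : ∀ n, n = n2 ∨ n = n3 → (cP Fe z it lo hi n).card = 0 →
      (it w n = z ∧ it b n = A ∧ it A n = b) ∨ (it w n = A ∧ it b n = z ∧ it A n = w) := fun n hn p => by
    have a1 := iw n (by omega)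
    have a2 := ib n (by omega)
    have u1 := jw n n1 (by omega) (by omega) (by omega)
    have u2 := jb n n1 (by omega) (by omega) (by omega)
    rw [w1] at u1
    rw [b1] at u2
    have k1 : it w n ≠ z → it w n = A ∧ it A n = w := fun e => by
      have g := c.ed w n wz a1.1 a1.2 e (nP p wz a1)
      have := ((o2 _ n hn e g.1 g.2.1).resolve_left (c.ne _ _)).resolve_left u1
      exact ⟨this, this ▸ g.2.2⟩
    have k2 : it b n ≠ z → it b n = A ∧ it A n = b := fun e => by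
      have g := c.ed b n bz a2.1 a2.2 e (nP p bz a2)
      have := ((o2 _ n hn e g.1 g.2.1).resolve_left u2).resolve_left (c.ne _ _)
      exact ⟨this, this ▸ g.2.2⟩
    by_cases e : it w n = z
    · refine Or.inl ⟨e, k2 fun e' => wb ?_⟩
      exact (c.zz w b n n a1.1 a1.2 a2.1 a2.2 e e' (e ▸ nP p wz a1) (e' ▸ nP p bz a2)).1 rfl
    · refine Or.inr ⟨(k1 e).1, ?_, (k1 e).2⟩
      by_contra e'
      exact wb ((k1 e).2.symm.trans (k2 e').2)
  have used : ∀ n, n = n4 ∨ n = n5 → (it w n ≠ z ∧ it w n ≠ b ∧ it w n ≠ A) ∧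
      (it b n ≠ z ∧ it b n ≠ w ∧ it b n ≠ A) ∧ it A n ≠ w ∧ it A n ≠ b := fun n hn => by
    have u1 := jw n n1 (by omega) (by omega) (by omega)
    have u2 := jw n n2 (by omega) (by omega) (by omega)
    have u3 := jw n n3 (by omega) (by omega) (by omega)
    have u4 := jb n n1 (by omega) (by omega) (by omega)
    have u5 := jb n n2 (by omega) (by omega) (by omega)
    have u6 := jb n n3 (by omega) (by omega) (by omega)
    have u7 := jA n n2 (by omega) (by omega) (by omega)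
    have u8 := jA n n3 (by omega) (by omega) (by omega)
    have u9 := jw n2 n3 (by omega) (by omega) (by omega)
    rw [w1] at u1
    rw [b1] at u4
    rcases lev n2 (by omega) p2 with ⟨s1, s2, s3⟩ | ⟨s1, s2, s3⟩ <;>
      rcases lev n3 (by omega) p3 with ⟨t1, t2, t3⟩ | ⟨t1, t2, t3⟩
    · exact absurd (s1.trans t1.symm) u9
    · exact ⟨⟨s1 ▸ u2, u1, t1 ▸ u3⟩, ⟨t2 ▸ u6, u4, s2 ▸ u5⟩, t3 ▸ u8, s3 ▸ u7⟩
    · exact ⟨⟨t1 ▸ u3, u1, s1 ▸ u2⟩, ⟨s2 ▸ u5, u4, t2 ▸ u6⟩, s3 ▸ u7, t3 ▸ u8⟩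
    · exact absurd (s1.trans t1.symm) u9
  -- fourth level
  obtain ⟨⟨a1, a2, a3⟩, ⟨a4, a5, a6⟩, a7, a8⟩ := used n4 (by omega)
  have i4 := iw n4 (by omega)
  have j4 := ib n4 (by omega)
  have l4 := iA n4 (by omega)
  have g4 := c.ed w n4 wz i4.1 i4.2 a1 fun f => a1 (fw _ f)
  have w4 : it w n4 = y1 :=
    (((o4 _ a1 g4.1 g4.2.1).resolve_left (c.ne _ _)).resolve_left a2).resolve_left a3
  rw [w4] at g4
  have b4 : Fe b (it b n4) := by
    by_contra f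
    have g := c.ed b n4 bz j4.1 j4.2 a4 f
    rw [(((o4 _ a4 g.1 g.2.1).resolve_left a5).resolve_left (c.ne _ _)).resolve_left a6] at g
    exact wb (g4.2.2.symm.trans g.2.2)
  have fA : ¬ Fe A (it A n4) := fun f =>
    bA (card_le_one.1 p4 b (mem_cP.2 ⟨bz, j4.1, j4.2, b4⟩) A (mem_cP.2 ⟨Az, l4.1, l4.2, f⟩))
  have A4 : it A n4 = z := by
    by_contra e
    have g := c.ed A n4 Az l4.1 l4.2 e fA
    rw [(((o4 _ e g.1 g.2.1).resolve_left a7).resolve_left a8).resolve_left (c.ne _ _)] at g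
    exact wA (g4.2.2.symm.trans g.2.2)
  have z4 := card_pos.2 ⟨A, (mem_cZ (Fe := Fe) (it := it)).2 ⟨l4.1, l4.2, A4, A4 ▸ fA⟩⟩
  -- fifth level
  obtain ⟨⟨c1, c2, c3⟩, ⟨c4, c5, c6⟩, c7, c8⟩ := used n5 (by omega)
  have i5 := iw n5 (by omega)
  have j5 := ib n5 (by omega)
  have l5 := iA n5 (by omega)
  have g5 := c.ed w n5 wz i5.1 i5.2 c1 fun f => c1 (fw _ f)
  have h5 := c.ed b n5 bz j5.1 j5.2 c4 fun f =>
    jb n4 n5 (by omega) (by omega) (by omega) (fb _ _ b4 f a4 c4)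
  have w5 := (((o5 _ c1 g5.1 g5.2.1).resolve_left (c.ne _ _)).resolve_left c2).resolve_left c3
  have b5 := (((o5 _ c4 h5.1 h5.2.1).resolve_left c5).resolve_left (c.ne _ _)).resolve_left c6
  have full : ∀ x, x = y1 ∨ x = y2 → it x n5 = w ∨ it x n5 = b := fun x hx => by
    have ne : it w n5 ≠ it b n5 := fun e => wb (g5.2.2.symm.trans (e ▸ h5.2.2))
    have : x = it w n5 ∨ x = it b n5 := by
      rcases hx with rfl | rfl <;> rcases w5 with e | e <;> rcases b5 with e' | e' <;> simp_all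
    rcases this with rfl | rfl
    exacts [Or.inl g5.2.2, Or.inr h5.2.2]
  have c9 : it A n5 ≠ z := A4 ▸ jA n5 n4 (by omega) (by omega) (by omega)
  have A5 : Fe A (it A n5) := by
    by_contra f
    have g := c.ed A n5 Az l5.1 l5.2 c9 f
    have := full _ ((((o5 _ c9 g.1 g.2.1).resolve_left c7).resolve_left c8).resolve_left (c.ne _ _))
    rw [g.2.2] at this
    exact this.elim wA.symm bA.symm
  have q5 := card_pos.2 ⟨A, (mem_cP (it := it)).2 ⟨Az, l5.1, l5.2, A5⟩⟩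
  obtain ⟨x, hx⟩ := card_pos.1 (show 0 < (cZ Fe z it lo hi n5).card by omega)
  rw [mem_cZ] at hx
  rcases o5 x (fun e => c.ne x n5 (hx.2.2.1.trans e.symm)) hx.1 hx.2.1 with rfl | rfl | rfl | e
  · exact c1 hx.2.2.1
  · exact c4 hx.2.2.1
  · exact c9 hx.2.2.1
  · have := full x e
    rw [hx.2.2.1] at this
    exact this.elim wz.symm bz.symm

/-- A level with an even number of vertices gives no surplus, any level at most one. -/
lemma cS_le (n : ℤ) : cS Fe z it lo hi n ≤ (cV z lo hi n).card % 2 := by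
  have := c.par n
  have := c.z1 n
  unfold cS
  omega

/-- Two levels with at most one edge to `z` and an even number of vertices. -/
lemma cS_two {n n' : ℤ} (e : n' = n + k ∨ n' = n + k + 1)
    (h : ((cV z lo hi n).card + (cV z lo hi n').card) % 2 = 0) :
    cS Fe z it lo hi n + cS Fe z it lo hi n' ≤ 0 := by
  have := c.par n
  have := c.par n'
  have := c.z2 e
  unfold cS
  omega

omit c in
lemma both (hW : Fintype.card W = k + 1) {n n' : ℤ}
    (h : ∀ x, x ≠ z → (lo x ≤ n ∧ n ≤ hi x ↔ ¬ (lo x ≤ n' ∧ n' ≤ hi x))) :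
    (cV z lo hi n).card + (cV z lo hi n').card = k := by
  classical
  rw [← card_union_of_disjoint, show cV z lo hi n ∪ cV z lo hi n' = univ.erase z from ?_,
    card_erase_of_mem (mem_univ z), card_univ, hW]
  · rfl
  · ext x
    have := h x
    simp only [mem_union, mem_cV, mem_erase, mem_univ, and_true]
    tauto
  · rw [disjoint_left]
    intro x a b
    rw [mem_cV] at a b
    exact (h x a.1).1 a.2 b.2

/-- The valley gives no surplus. -/
lemma vsum {w b A y1 y2 : W} {n0 n1 n2 n3 n4 n5 m3 m4 m5 : ℤ}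
    (V : Val Fe z lo hi w b A y1 y2 n1 n2 n3 n4 n5)
    (q3 : ((cV z lo hi m3).card + (cV z lo hi n3).card) % 2 = 0)
    (q4 : ((cV z lo hi m4).card + (cV z lo hi n4).card) % 2 = 0)
    (q5 : ((cV z lo hi m5).card + (cV z lo hi n5).card) % 2 = 0)
    (z0 : (cZ Fe z it lo hi n0).card + (cZ Fe z it lo hi n1).card ≤ 1)
    (z2 : (cZ Fe z it lo hi m3).card + (cZ Fe z it lo hi n2).card ≤ 1)
    (z3 : (cZ Fe z it lo hi m3).card + (cZ Fe z it lo hi n3).card ≤ 1)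
    (z4 : (cZ Fe z it lo hi m4).card + (cZ Fe z it lo hi n4).card ≤ 1)
    (z5 : (cZ Fe z it lo hi m5).card + (cZ Fe z it lo hi n5).card ≤ 1)
    (z6 : (cZ Fe z it lo hi n4).card + (cZ Fe z it lo hi m5).card ≤ 1)
    (q0 : (cV z lo hi n0).card % 2 = 1) (q1 : (cV z lo hi n1).card % 2 = 0)
    (q2 : (cV z lo hi n2).card % 2 = 1) (q6 : (cV z lo hi n3).card % 2 = 1) :
    cS Fe z it lo hi n0 + cS Fe z it lo hi n1 + cS Fe z it lo hi n2 +
      (cS Fe z it lo hi m3 + cS Fe z it lo hi n3) + (cS Fe z it lo hi m4 + cS Fe z it lo hi n4) +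
      (cS Fe z it lo hi m5 + cS Fe z it lo hi n5) ≤ 0 := by
  by_contra g
  have key : ∀ n, ∃ t, t ≤ cS Fe z it lo hi n ∧ cS Fe z it lo hi n ≤ t ∧
      (t + (cV z lo hi n).card) % 2 = 0 := fun n => by
    have := c.par n
    exact ⟨_, le_rfl, le_rfl, by unfold cS; omega⟩
  have a0 := c.cS_le n0
  have a1 := c.cS_le n1
  have a2 := c.cS_le n2
  have two : ∀ n n', ((cV z lo hi n).card + (cV z lo hi n').card) % 2 = 0 →
      (cZ Fe z it lo hi n).card + (cZ Fe z it lo hi n').card ≤ 1 →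
      ∃ t, t ≤ 0 ∧ cS Fe z it lo hi n + cS Fe z it lo hi n' = 2 * t := fun n n' h1 h2 => by
    have := c.par n
    have := c.par n'
    exact ⟨(cS Fe z it lo hi n + cS Fe z it lo hi n') / 2, by unfold cS; omega, by unfold cS; omega⟩
  obtain ⟨t0, b0⟩ := key n0
  obtain ⟨t1, b1⟩ := key n1
  obtain ⟨t2, b2⟩ := key n2
  obtain ⟨t3, b3⟩ := two _ _ q3 z3
  obtain ⟨t4, b4⟩ := two _ _ q4 z4
  obtain ⟨t5, b5⟩ := two _ _ q5 z5
  have s0 : cS Fe z it lo hi n0 = 1 := by omega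
  have s1 : cS Fe z it lo hi n1 = 0 := by omega
  have s2 : cS Fe z it lo hi n2 = 1 := by omega
  have s3 : cS Fe z it lo hi m3 + cS Fe z it lo hi n3 = 0 := by omega
  have s4 : cS Fe z it lo hi m4 + cS Fe z it lo hi n4 = 0 := by omega
  have s5 : cS Fe z it lo hi m5 + cS Fe z it lo hi n5 = 0 := by omega
  clear g a0 a1 a2 b0 b1 b2 b3 b4 b5 q0 q1 q2 q3 q4 q5
  have p3 := c.par n3
  unfold cS at *
  exact c.valley V (by omega) (by omega) (by omega) (by omega) (by omega) (by omega) z6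

end CorE

end Pool.Agent.P.MP_3f5ded_co.UG
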