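import Pool.Agent.P.MP_3f5ded_co.CCe

set_option autoImplicit false

namespace Pool.Agent.P.MP_3f5ded_co.UG

open Finset

/-- One if the level `n` lies between `l` and `h`. -/
def chi (l h n : ℤ) : ℤ := if l ≤ n ∧ n ≤ h then 1 else 0

lemma chi1 {l h n : ℤ} (a : l ≤ n ∧ n ≤ h) : chi l h n = 1 := if_pos a
lemma chi0 {l h n : ℤ} (a : n < l ∨ h < n) : chi l h n = 0 := if_neg (by omega)
lemma chi2 {l h n : ℤ} (a : n ≤ l ∧ l ≤ n + 1 ∧ n ≤ h) : chi l h n = n + 1 - l := by
  unfold chi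
  split_ifs <;> omega
lemma chi3 {l h n : ℤ} (a : h ≤ n ∧ n ≤ h + 1 ∧ l ≤ n) : chi l h n = h + 1 - n := by
  unfold chi
  split_ifs <;> omega

/-- A class of two levels `j`, `j + k` with every vertex present once. -/
lemma CorE.cls {W : Type} [Fintype W] {k : ℕ} {Fe : W → W → Prop} {z : W} {it : W → ℤ → W}
    {lo hi : W → ℤ} (c : CorE k Fe z it lo hi) {R : Finset W} {a A b B : W} (h : H4 k Fe R z a A b B)
    {j : ℤ} (g : ∀ x, x ≠ z → (lo x ≤ j ∧ j ≤ hi x ↔ ¬ (lo x ≤ j + k ∧ j + k ≤ hi x))) :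
    cS Fe z it lo hi j + cS Fe z it lo hi (j + k) ≤ 0 := by
  have a1 := CorE.both h.card g
  have a2 := Nat.even_iff.1 h.even
  exact c.cS_two (Or.inl rfl) (by rw [a1, a2])

/-- The six named vertices and the rest `U`. -/
structure Six {W : Type} [Fintype W] [DecidableEq W] (k : ℕ) (Fe : W → W → Prop) (U : Finset W)
    (z v a B w b A : W) : Prop where
  h4 : H4 k Fe (insert v (insert w U)) z a A b B
  vw : v ≠ w
  vU : v ∉ U
  wU : w ∉ U

namespace Six
variable {W : Type} [Fintype W] [DecidableEq W] {k : ℕ} {Fe : W → W → Prop} {U : Finset W}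
  {z v a B w b A : W} (s : Six k Fe U z v a B w b A)
include s

lemma nv : v ≠ z ∧ v ≠ a ∧ v ≠ A ∧ v ≠ b ∧ v ≠ B := (s.h4.mem v).1 (by simp)
lemma nw : w ≠ z ∧ w ≠ a ∧ w ≠ A ∧ w ≠ b ∧ w ≠ B := (s.h4.mem w).1 (by simp)

lemma nu {u : W} (h : u ∈ U) : (u ≠ z ∧ u ≠ a ∧ u ≠ A ∧ u ≠ b ∧ u ≠ B) ∧ u ≠ v ∧ u ≠ w :=
  ⟨(s.h4.mem u).1 (by simp [h]), fun e => s.vU (e ▸ h), fun e => s.wU (e ▸ h)⟩

lemma cas {x : W} (h : x ≠ z) : x = v ∨ x = a ∨ x = B ∨ x = w ∨ x = b ∨ x = A ∨ x ∈ U := by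
  have := s.h4.mem x
  simp only [mem_insert] at this
  tauto

lemma cardU : U.card + 6 = k := by
  have := s.h4.cardR
  rw [card_insert_of_notMem (by simp [s.vw, s.vU]), card_insert_of_notMem s.wU] at this
  omega

lemma fv {x : W} (f : Fe v x) : x = z := by
  by_contra e
  have := (s.h4.fe v x s.nv.1 e).1 f
  have := s.nv
  tauto

lemma fw {x : W} (f : Fe w x) : x = z := by
  by_contra e
  have := (s.h4.fe w x s.nw.1 e).1 f
  have := s.nw
  tauto

lemma fa {x : W} (f : Fe a x) (e : x ≠ z) : x = A := by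
  have := (s.h4.fe a x s.h4.za.symm e).1 f
  have := s.h4.aA; have := s.h4.ab; have := s.h4.aB
  tauto

lemma fb {x : W} (f : Fe b x) (e : x ≠ z) : x = B := by
  have := (s.h4.fe b x s.h4.zb.symm e).1 f
  have := s.h4.ab.symm; have := s.h4.Ab.symm; have := s.h4.bB
  tauto

open Classical in
lemma card_cV (lo hi : W → ℤ) (n : ℤ) : ((cV z lo hi n).card : ℤ) =
    chi (lo v) (hi v) n + chi (lo a) (hi a) n +
    chi (lo B) (hi B) n + chi (lo w) (hi w) n +
    chi (lo b) (hi b) n + chi (lo A) (hi A) n +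
    (U.filter fun x => lo x ≤ n ∧ n ≤ hi x).card := by
  have h := s.h4
  have nv := s.nv
  have nw := s.nw
  have e : cV z lo hi n = (insert v (insert a (insert B (insert w (insert b (insert A U)))))).filter
      fun x => lo x ≤ n ∧ n ≤ hi x := by
    ext x
    simp only [mem_cV, mem_filter, mem_insert]
    refine and_congr_left fun _ => ⟨s.cas, ?_⟩
    rintro (rfl | rfl | rfl | rfl | rfl | rfl | g)
    exacts [nv.1, h.za.symm, h.zB.symm, nw.1, h.zb.symm, h.zA.symm, (s.nu g).1.1]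
  have ua : a ∉ U := fun g => (s.nu g).1.2.1 rfl
  have uA : A ∉ U := fun g => (s.nu g).1.2.2.1 rfl
  have ub : b ∉ U := fun g => (s.nu g).1.2.2.2.1 rfl
  have uB : B ∉ U := fun g => (s.nu g).1.2.2.2.2 rfl
  rw [e, card_filter, card_filter, sum_insert (by simp [nv, s.vw, s.vU]),
    sum_insert (by simp [h.aB, nw.2.1.symm, h.ab, h.aA, ua]),
    sum_insert (by simp [nw.2.2.2.2.symm, h.bB.symm, h.AB.symm, uB]),
    sum_insert (by simp [nw, s.wU]), sum_insert (by simp [h.Ab.symm, ub]), sum_insert uA]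
  unfold chi
  push_cast
  ring

variable {lo hi : W → ℤ} {n : ℤ}

omit s [Fintype W] [DecidableEq W] in
open Classical in
lemma all (h : ∀ u ∈ U, lo u ≤ n ∧ n ≤ hi u) :
    (U.filter fun x => lo x ≤ n ∧ n ≤ hi x).card = U.card := by rw [filter_true_of_mem h]

omit s [Fintype W] [DecidableEq W] in
open Classical in
lemma non (h : ∀ u ∈ U, ¬ (lo u ≤ n ∧ n ≤ hi u)) :
    (U.filter fun x => lo x ≤ n ∧ n ≤ hi x).card = 0 := by rw [filter_false_of_mem h, card_empty]

variable {it : W → ℤ → W} (c : CorE k Fe z it lo hi)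
include c

/-- A vertex that meets `v` and `w`. -/
lemma mid {x : W} (hx : x ≠ z) (h1 : ∃ n, lo v ≤ n ∧ n ≤ hi v ∧ it v n = x)
    (h2 : ∃ n, lo w ≤ n ∧ n ≤ hi w ∧ it w n = x) :
    (∃ n, lo x ≤ n ∧ n ≤ hi v ∧ it v n = x) ∧ ∃ n, lo w ≤ n ∧ n ≤ hi x ∧ it w n = x := by
  obtain ⟨n, a1, a2, rfl⟩ := h1
  obtain ⟨m, b1, b2, e⟩ := h2
  have g1 := c.ed v n s.nv.1 a1 a2 hx fun f => hx (s.fv f)
  have g2 := c.ed w m s.nw.1 b1 b2 (e ▸ hx) fun f => hx (e ▸ s.fw f)
  exact ⟨⟨n, g1.1, a2, rfl⟩, m, b1, e ▸ g2.2.1, e⟩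

/-- Case C3. -/
theorem c3 {fv fa fw fb : ℤ} (f1 : 0 ≤ fv ∧ fv ≤ 1) (f2 : 0 ≤ fa ∧ fa ≤ 1) (f3 : 0 ≤ fw ∧ fw ≤ 1)
    (f4 : 0 ≤ fb ∧ fb ≤ 1) (ev : Even (fv + fa + fw + fb))
    (lv : lo v = fv + 2 ∧ hi v = fv + k - 1) (la : lo a = fa + 2 ∧ hi a = fa + k - 1)
    (lw : lo w = fw + k + 3 ∧ hi w = fw + 2 * k) (lb : lo b = fb + k + 3 ∧ hi b = fb + 2 * k)
    (m : ∀ x, x = A ∨ x = B ∨ x ∈ U → hi x + 1 = lo x + k ∧ (∃ n, lo v ≤ n ∧ n ≤ hi v ∧ it v n = x) ∧
      ∃ n, lo w ≤ n ∧ n ≤ hi w ∧ it w n = x) : False := by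
  have h := s.h4
  have hk := h.big
  have cU := s.cardU
  have bd : ∀ x, x = A ∨ x = B ∨ x ∈ U → hi x + 1 = lo x + k ∧ 4 ≤ lo x ∧ lo x ≤ k := fun x hx => by
    have xz : x ≠ z := by
      rcases hx with rfl | rfl | g
      exacts [h.zA.symm, h.zB.symm, (s.nu g).1.1]
    obtain ⟨a1, a2, a3⟩ := m x hx
    obtain ⟨⟨n, b1, b2, -⟩, n', b3, b4, -⟩ := s.mid c xz a2 a3
    omega
  have bA := bd A (by simp)
  have bB := bd B (by simp)
  have bU : ∀ u ∈ U, hi u + 1 = lo u + k ∧ 4 ≤ lo u ∧ lo u ≤ k := fun u hu => bd u (by simp [hu])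
  have t := c.tot h (S := Icc (2 : ℤ) (2 * k + 1)) fun x n xz a1 a2 => by
    rw [mem_Icc]
    rcases s.cas xz with e | e | e | e | e | e | g
    any_goals (rw [e] at a1 a2; omega)
    have := bU x g; omega
  have L : ∑ j ∈ Icc (4 : ℤ) (k - 1), (cS Fe z it lo hi j + cS Fe z it lo hi (j + k)) ≤ 0 := by
    refine sum_nonpos fun j hj => c.cls h fun x xz => ?_
    rw [mem_Icc] at hj
    rcases s.cas xz with e | e | e | e | e | e | g
    any_goals (rw [e]; omega)
    have := bU x g; omega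
  have lowc : ∀ n : ℤ, n ≤ 3 ∨ 2 * k ≤ n → ((cV z lo hi n).card : ℤ) =
      chi (lo v) (hi v) n + chi (lo a) (hi a) n +
      chi (lo w) (hi w) n + chi (lo b) (hi b) n := fun n hn => by
    rw [s.card_cV, non fun u hu => by have := bU u hu; omega, chi0 (l := lo B) (by omega),
      chi0 (l := lo A) (by omega)]
    push_cast; ring
  have midc : ∀ n : ℤ, k ≤ n ∧ n ≤ k + 3 → ((cV z lo hi n).card : ℤ) = k - 4 +
      chi (lo v) (hi v) n + chi (lo a) (hi a) n +
      chi (lo w) (hi w) n + chi (lo b) (hi b) n := fun n hn => by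
    rw [s.card_cV, all fun u hu => by have := bU u hu; omega, chi1 (l := lo B) (by omega),
      chi1 (l := lo A) (by omega)]
    omega
  clear bA bB cU
  have nn : ((cV z lo hi 3).card : ℤ) = 2 ∧
      ((cV z lo hi (2 * k)).card : ℤ) = 2 ∧
      ((cV z lo hi (k + 1)).card : ℤ) = k - 4 ∧
      ((cV z lo hi (k + 2)).card : ℤ) = k - 4 ∧
      ((cV z lo hi 2).card : ℤ) = 2 - fv - fa ∧
      ((cV z lo hi (k + 3)).card : ℤ) = k - 2 - fw - fb ∧
      ((cV z lo hi k).card : ℤ) = k - 4 + fv + fa ∧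
      ((cV z lo hi (2 * k + 1)).card : ℤ) = fw + fb := by
    refine ⟨?_, ?_, ?_, ?_, ?_, ?_, ?_, ?_⟩
    · rw [lowc 3 (by omega), chi1 (l := lo v) (by omega), chi1 (l := lo a) (by omega),
        chi0 (l := lo w) (by omega), chi0 (l := lo b) (by omega)]
      omega
    · rw [lowc (2 * k) (by omega), chi0 (l := lo v) (by omega), chi0 (l := lo a) (by omega),
        chi1 (l := lo w) (by omega), chi1 (l := lo b) (by omega)]
      omega
    · rw [midc (k + 1) (by omega), chi0 (l := lo v) (by omega), chi0 (l := lo a) (by omega),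
        chi0 (l := lo w) (by omega), chi0 (l := lo b) (by omega)]
      omega
    · rw [midc (k + 2) (by omega), chi0 (l := lo v) (by omega), chi0 (l := lo a) (by omega),
        chi0 (l := lo w) (by omega), chi0 (l := lo b) (by omega)]
      omega
    · rw [lowc 2 (by omega), chi2 (l := lo v) (by omega), chi2 (l := lo a) (by omega),
        chi0 (l := lo w) (by omega), chi0 (l := lo b) (by omega)]
      omega
    · rw [midc (k + 3) (by omega), chi0 (l := lo v) (by omega), chi0 (l := lo a) (by omega),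
        chi2 (l := lo w) (by omega), chi2 (l := lo b) (by omega)]
      omega
    · rw [midc k (by omega), chi3 (l := lo v) (by omega), chi3 (l := lo a) (by omega),
        chi0 (l := lo w) (by omega), chi0 (l := lo b) (by omega)]
      omega
    · rw [lowc (2 * k + 1) (by omega), chi0 (l := lo v) (by omega), chi0 (l := lo a) (by omega),
        chi3 (l := lo w) (by omega), chi3 (l := lo b) (by omega)]
      omega
  obtain ⟨n1, n2, n3, n4, n5, n6, n7, n8⟩ := nn
  clear lv la lw lb f1 f2 f3 f4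
  have ek := Nat.even_iff.1 h.even
  rw [Int.even_iff] at ev
  have e1 := c.cS_le 3
  have e2 := c.cS_le (2 * k)
  have e3 := c.cS_le (k + 1)
  have e4 := c.cS_le (k + 2)
  have e5 := c.cS_two (n := 2) (n' := k + 3) (by omega) (by omega)
  have e6 := c.cS_two (n := k) (n' := 2 * k + 1) (by omega) (by omega)
  rw [n1] at e1
  rw [n2] at e2
  rw [n3] at e3
  rw [n4] at e4
  rw [sum_split k hk] at t
  clear ev n5 n6 n7 n8
  omega

/-- The upper valley of the cases C4 and C5. -/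
lemma up (lv : lo v = 3 ∧ hi v = k - 1) (la : lo a = 3 ∧ hi a = k) (lA : lo A = k + 2 ∧ hi A = 2 * k)
    (lb : lo b = k + 4 ∧ hi b = 2 * k + 1) (lw : k + 4 ≤ lo w ∧ lo w ≤ k + 5 ∧ hi w = 2 * k + 1)
    (m : ∀ x, x = B ∨ x ∈ U → (x = B ∧ lo x = 4 ∧ hi x = k + 2) ∨
      (hi x + 1 = lo x + k ∧ 5 ≤ lo x ∧ ∃ n, lo x ≤ n ∧ n ≤ k - 1 ∧ it v n = x)) :
    cS Fe z it lo hi (k + 1) + cS Fe z it lo hi (2 * k + 1) + cS Fe z it lo hi (2 * k) +
      (cS Fe z it lo hi (k - 1) + cS Fe z it lo hi (k - 1 + k)) +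
      (cS Fe z it lo hi (k - 2) + cS Fe z it lo hi (k - 2 + k)) +
      (cS Fe z it lo hi (k - 3) + cS Fe z it lo hi (k - 3 + k)) ≤ 0 := by
  have h := s.h4
  have hk := h.big
  have cU := s.cardU
  have bU : ∀ u ∈ U, hi u + 1 = lo u + k ∧ 5 ≤ lo u ∧ lo u ≤ k - 1 := fun u hu => by
    rcases m u (Or.inr hu) with g | ⟨a1, a2, n, a3, a4, -⟩
    · exact absurd g.1 (s.nu hu).1.2.2.2.2
    · omega
  have bB : lo B ≤ k - 1 ∧ k + 2 ≤ hi B ∧ hi B ≤ 2 * k - 2 := by
    rcases m B (Or.inl rfl) with g | ⟨a1, a2, n, a3, a4, -⟩ <;> omega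
  have oth : ∀ x (n : ℤ), x ≠ z → 2 * k - 3 ≤ n → n ≤ hi x → x = w ∨ x = b ∨ x = A ∨
      ∃ j : ℤ, n + 1 ≤ j + k ∧ j ≤ k - 1 ∧ it v j = x := fun x n xz a1 a2 => by
    have key : x = B ∨ x ∈ U → ∃ j : ℤ, n + 1 ≤ j + k ∧ j ≤ k - 1 ∧ it v j = x := fun g => by
      rcases m x g with g | ⟨b1, b2, j, b3, b4, e⟩
      · omega
      · exact ⟨j, by omega, b4, e⟩
    rcases s.cas xz with e | e | e | e | e | e | g
    · rw [e] at a2; omega
    · rw [e] at a2; omega
    · exact Or.inr (Or.inr (Or.inr (key (Or.inl e))))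
    · exact Or.inl e
    · exact Or.inr (Or.inl e)
    · exact Or.inr (Or.inr (Or.inl e))
    · exact Or.inr (Or.inr (Or.inr (key (Or.inr g))))
  have cl : ∀ j : ℤ, k - 3 ≤ j → j ≤ k - 1 →
      ((cV z lo hi j).card + (cV z lo hi (j + k)).card) % 2 = 0 := fun j j1 j2 => by
    rw [CorE.both h.card fun x xz => ?_, Nat.even_iff.1 h.even]
    rcases s.cas xz with e | e | e | e | e | e | g
    · rw [e]; omega
    · rw [e]; omega
    · rcases m x (Or.inl e) with g | ⟨a1, a2, n, a3, a4, -⟩ <;> omega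
    · rw [e]; omega
    · rw [e]; omega
    · rw [e]; omega
    · have := bU x g; omega
  have n0 : ((cV z lo hi (k + 1)).card : ℤ) = k - 5 := by
    rw [s.card_cV, all fun u hu => by have := bU u hu; omega, chi0 (l := lo v) (by omega), chi0 (l := lo a) (by omega),
      chi1 (l := lo B) (by omega), chi0 (l := lo w) (by omega),
      chi0 (l := lo b) (by omega), chi0 (l := lo A) (by omega)]
    omega
  have n1 : ((cV z lo hi (2 * k + 1)).card : ℤ) = 2 := by
    rw [s.card_cV, non fun u hu => by have := bU u hu; omega, chi0 (l := lo v) (by omega), chi0 (l := lo a) (by omega),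
      chi0 (l := lo B) (by omega), chi1 (l := lo w) (by omega),
      chi1 (l := lo b) (by omega), chi0 (l := lo A) (by omega)]
    omega
  have n2 : ((cV z lo hi (2 * k)).card : ℤ) = 3 := by
    rw [s.card_cV, non fun u hu => by have := bU u hu; omega, chi0 (l := lo v) (by omega), chi0 (l := lo a) (by omega),
      chi0 (l := lo B) (by omega), chi1 (l := lo w) (by omega),
      chi1 (l := lo b) (by omega), chi1 (l := lo A) (by omega)]
    omega
  have n3 : ((cV z lo hi (k - 1 + k)).card : ℤ) = 3 := by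
    rw [s.card_cV, non fun u hu => by have := bU u hu; omega, chi0 (l := lo v) (by omega), chi0 (l := lo a) (by omega),
      chi0 (l := lo B) (by omega), chi1 (l := lo w) (by omega),
      chi1 (l := lo b) (by omega), chi1 (l := lo A) (by omega)]
    omega
  have ek := Nat.even_iff.1 h.even
  refine c.vsum (w := w) (b := b) (A := A) (y1 := it v (k - 1)) (y2 := it v (k - 2))
    ⟨s.nw.1, h.zb.symm, h.zA.symm, s.nw.2.2.2.1, s.nw.2.2.1, h.Ab.symm, by omega,
      fun n _ => by omega, fun n _ => by omega, fun n _ => by omega, fun x xz a1 a2 => ?_,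
      fun x n hn xz a1 a2 => ?_, fun x xz a1 a2 => ?_, fun x xz a1 a2 => ?_, fun x => s.fw,
      fun x x' f f' e e' => (s.fb f e).trans (s.fb f' e').symm⟩
    (cl _ (by omega) (by omega)) (cl _ (by omega) (by omega)) (cl _ (by omega) (by omega))
    (c.z2 (by omega)) (c.z2 (by omega)) (c.z2 (by omega)) (c.z2 (by omega)) (c.z2 (by omega))
    (by rw [add_comm]; exact c.z2 (by omega)) (by omega) (by omega) (by omega) (by omega)
  · rcases oth x _ xz (by omega) a2 with e | e | e | ⟨j, b1, b2, -⟩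
    · exact Or.inl e
    · exact Or.inr e
    · rw [e] at a2; omega
    · omega
  · rcases oth x _ xz (by omega) a2 with e | e | e | ⟨j, b1, b2, -⟩
    · exact Or.inl e
    · exact Or.inr (Or.inl e)
    · exact Or.inr (Or.inr e)
    · omega
  · refine (oth x _ xz (by omega) a2).imp_right (Or.imp_right (Or.imp_right ?_))
    rintro ⟨j, b1, b2, e⟩
    rw [← e, show j = k - 1 by omega]
  · refine (oth x _ xz (by omega) a2).imp_right (Or.imp_right (Or.imp_right ?_))
    rintro ⟨j, b1, b2, e⟩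
    rcases (show j = k - 1 ∨ j = k - 2 by omega) with g | g
    exacts [Or.inl (by rw [← e, g]), Or.inr (by rw [← e, g])]

/-- Case C4. -/
theorem c4 (lv : lo v = 3 ∧ hi v = k - 1) (la : lo a = 3 ∧ hi a = k)
    (lA : lo A = k + 2 ∧ hi A = 2 * k) (lb : lo b = k + 4 ∧ hi b = 2 * k + 1)
    (lw : lo w = k + 4 ∧ hi w = 2 * k + 1)
    (m : ∀ x, x = B ∨ x ∈ U → hi x + 1 = lo x + k ∧ (∃ n, lo v ≤ n ∧ n ≤ hi v ∧ it v n = x) ∧
      ∃ n, lo w ≤ n ∧ n ≤ hi w ∧ it w n = x) : False := by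
  have h := s.h4
  have hk := h.big
  have cU := s.cardU
  have bd : ∀ x, x = B ∨ x ∈ U →
      hi x + 1 = lo x + k ∧ 5 ≤ lo x ∧ ∃ n, lo x ≤ n ∧ n ≤ k - 1 ∧ it v n = x := fun x hx => by
    have xz : x ≠ z := by
      rcases hx with rfl | g
      exacts [h.zB.symm, (s.nu g).1.1]
    obtain ⟨a1, a2, a3⟩ := m x hx
    obtain ⟨⟨n, b1, b2, e⟩, n', b3, b4, -⟩ := s.mid c xz a2 a3
    exact ⟨a1, by omega, n, b1, by omega, e⟩
  have val := s.up c lv la lA lb (by omega) fun x hx => Or.inr (bd x hx)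
  have bB : hi B + 1 = lo B + k ∧ 5 ≤ lo B ∧ lo B ≤ k - 1 := by
    obtain ⟨a1, a2, n, a3, a4, -⟩ := bd B (Or.inl rfl); omega
  have bU : ∀ u ∈ U, hi u + 1 = lo u + k ∧ 5 ≤ lo u ∧ lo u ≤ k - 1 := fun u hu => by
    obtain ⟨a1, a2, n, a3, a4, -⟩ := bd u (Or.inr hu); omega
  revert val
  have n0 : ((cV z lo hi 2).card : ℤ) = 0 := by
    rw [s.card_cV, non fun u hu => by have := bU u hu; omega, chi0 (l := lo v) (by omega), chi0 (l := lo a) (by omega),
      chi0 (l := lo B) (by omega), chi0 (l := lo w) (by omega),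
      chi0 (l := lo b) (by omega), chi0 (l := lo A) (by omega)]
    omega
  have n1 : ((cV z lo hi 3).card : ℤ) = 2 := by
    rw [s.card_cV, non fun u hu => by have := bU u hu; omega, chi1 (l := lo v) (by omega), chi1 (l := lo a) (by omega),
      chi0 (l := lo B) (by omega), chi0 (l := lo w) (by omega),
      chi0 (l := lo b) (by omega), chi0 (l := lo A) (by omega)]
    omega
  have n2 : ((cV z lo hi k).card : ℤ) = k - 4 := by
    rw [s.card_cV, all fun u hu => by have := bU u hu; omega, chi0 (l := lo v) (by omega), chi1 (l := lo a) (by omega),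
      chi1 (l := lo B) (by omega), chi0 (l := lo w) (by omega),
      chi0 (l := lo b) (by omega), chi0 (l := lo A) (by omega)]
    omega
  have n3 : ((cV z lo hi (k + 2)).card : ℤ) = k - 4 := by
    rw [s.card_cV, all fun u hu => by have := bU u hu; omega, chi0 (l := lo v) (by omega), chi0 (l := lo a) (by omega),
      chi1 (l := lo B) (by omega), chi0 (l := lo w) (by omega),
      chi0 (l := lo b) (by omega), chi1 (l := lo A) (by omega)]
    omega
  have n4 : ((cV z lo hi (k + 3)).card : ℤ) = k - 4 := by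
    rw [s.card_cV, all fun u hu => by have := bU u hu; omega, chi0 (l := lo v) (by omega), chi0 (l := lo a) (by omega),
      chi1 (l := lo B) (by omega), chi0 (l := lo w) (by omega),
      chi0 (l := lo b) (by omega), chi1 (l := lo A) (by omega)]
    omega
  have t := c.tot h (S := Icc (2 : ℤ) (2 * k + 1)) fun x n xz a1 a2 => by
    rw [mem_Icc]
    rcases s.cas xz with e | e | e | e | e | e | g
    any_goals (rw [e] at a1 a2; omega)
    have := bU x g; omega
  have L := sum_le_part (S := Icc (4 : ℤ) (k - 1)) (T := {(k : ℤ) - 1, (k : ℤ) - 2, (k : ℤ) - 3})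
    (g := fun j => cS Fe z it lo hi j + cS Fe z it lo hi (j + k))
    (fun j hj => by simp only [mem_insert, mem_singleton, mem_Icc] at hj ⊢; omega) fun j hj _ => by
    refine c.cls h fun x xz => ?_
    rw [mem_Icc] at hj
    rcases s.cas xz with e | e | e | e | e | e | g
    any_goals (rw [e]; omega)
    have := bU x g; omega
  rw [sum_insert (by simp only [mem_insert, mem_singleton]; omega),
    sum_pair (by omega)] at L
  clear lv la lA lb lw bB
  intro val
  have ek := Nat.even_iff.1 h.even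
  have e0 := c.cS_le 2
  have e1 := c.cS_le 3
  have e2 := c.cS_le k
  have e3 := c.cS_le (k + 2)
  have e4 := c.cS_le (k + 3)
  rw [n0] at e0
  rw [n1] at e1
  rw [n2] at e2
  rw [n3] at e3
  rw [n4] at e4
  rw [sum_split k hk] at t
  omega

/-- Case C5. -/
theorem c5 (lv : lo v = 3 ∧ hi v = k - 1) (la : lo a = 3 ∧ hi a = k) (lB : lo B = 4 ∧ hi B = k + 2)
    (lA : lo A = k + 2 ∧ hi A = 2 * k) (lb : lo b = k + 4 ∧ hi b = 2 * k + 1)
    (lw : lo w = k + 5 ∧ hi w = 2 * k + 1)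
    (m : ∀ x, x ∈ U → hi x + 1 = lo x + k ∧ (∃ n, lo v ≤ n ∧ n ≤ hi v ∧ it v n = x) ∧
      ∃ n, lo w ≤ n ∧ n ≤ hi w ∧ it w n = x) : False := by
  have h := s.h4
  have hk := h.big
  have cU := s.cardU
  have bd : ∀ x ∈ U, hi x + 1 = lo x + k ∧ (∃ n, lo x ≤ n ∧ n ≤ k - 1 ∧ it v n = x) ∧
      ∃ n : ℤ, k + 5 ≤ n ∧ n ≤ hi x ∧ it w n = x := fun x hx => by
    obtain ⟨a1, a2, a3⟩ := m x hx
    obtain ⟨⟨n, b1, b2, e⟩, n', b3, b4, e'⟩ := s.mid c (s.nu hx).1.1 a2 a3
    exact ⟨a1, ⟨n, b1, by omega, e⟩, n', by omega, b4, e'⟩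
  have bU : ∀ u ∈ U, hi u + 1 = lo u + k ∧ 6 ≤ lo u ∧ lo u ≤ k - 1 := fun u hu => by
    obtain ⟨a1, ⟨n, a2, a3, -⟩, n', a4, a5, -⟩ := bd u hu; omega
  have val := s.up c lv la lA lb (by omega) fun x hx => by
    rcases hx with e | g
    · exact Or.inl ⟨e, e ▸ lB⟩
    · exact Or.inr ⟨(bd x g).1, by have := bU x g; omega, (bd x g).2.1⟩
  revert val
  have one : ∀ j : ℤ, 5 ≤ j → j ≤ k - 1 → ∀ x, x ≠ z →
      (lo x ≤ j ∧ j ≤ hi x ↔ ¬ (lo x ≤ j + k ∧ j + k ≤ hi x)) := fun j j1 j2 x xz => by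
    rcases s.cas xz with e | e | e | e | e | e | g
    any_goals (rw [e]; omega)
    have := bU x g; omega
  have cl : ∀ j : ℤ, 5 ≤ j → j ≤ k - 1 →
      ((cV z lo hi (j + k)).card + (cV z lo hi j).card) % 2 = 0 := fun j j1 j2 => by
    rw [add_comm, CorE.both h.card (one j j1 j2), Nat.even_iff.1 h.even]
  have oth : ∀ x (n : ℤ), x ≠ z → n ≤ 7 → lo x ≤ n → x = v ∨ x = a ∨ x = B ∨
      ∃ j : ℤ, k + 5 ≤ j ∧ j + 1 ≤ n + k ∧ it w j = x := fun x n xz a1 a2 => by
    rcases s.cas xz with e | e | e | e | e | e | g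
    · exact Or.inl e
    · exact Or.inr (Or.inl e)
    · exact Or.inr (Or.inr (Or.inl e))
    · rw [e] at a2; omega
    · rw [e] at a2; omega
    · rw [e] at a2; omega
    · obtain ⟨b1, -, j, b2, b3, e⟩ := bd x g
      exact Or.inr (Or.inr (Or.inr ⟨j, b2, by omega, e⟩))
  have t := c.tot h (S := Icc (2 : ℤ) (2 * k + 1)) fun x n xz a1 a2 => by
    rw [mem_Icc]
    rcases s.cas xz with e | e | e | e | e | e | g
    any_goals (rw [e] at a1 a2; omega)
    have := bU x g; omega
  have L := sum_le_part (S := Icc (4 : ℤ) (k - 1))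
    (T := {4, 5, 6, 7, (k : ℤ) - 1, (k : ℤ) - 2, (k : ℤ) - 3})
    (g := fun j => cS Fe z it lo hi j + cS Fe z it lo hi (j + k))
    (fun j hj => by simp only [mem_insert, mem_singleton, mem_Icc] at hj ⊢; omega) fun j hj g => by
    simp only [mem_insert, mem_singleton, mem_Icc] at hj g
    exact c.cls h (one j (by omega) hj.2)
  iterate 5 rw [sum_insert (by simp only [mem_insert, mem_singleton]; omega)] at L
  rw [sum_pair (by omega)] at L
  revert t L
  have n0 : ((cV z lo hi 2).card : ℤ) = 0 := by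
    rw [s.card_cV, non fun u hu => by have := bU u hu; omega, chi0 (l := lo v) (by omega), chi0 (l := lo a) (by omega),
      chi0 (l := lo B) (by omega), chi0 (l := lo w) (by omega),
      chi0 (l := lo b) (by omega), chi0 (l := lo A) (by omega)]
    omega
  have n1 : ((cV z lo hi k).card : ℤ) = k - 4 := by
    rw [s.card_cV, all fun u hu => by have := bU u hu; omega, chi0 (l := lo v) (by omega), chi1 (l := lo a) (by omega),
      chi1 (l := lo B) (by omega), chi0 (l := lo w) (by omega),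
      chi0 (l := lo b) (by omega), chi0 (l := lo A) (by omega)]
    omega
  have n2 : ((cV z lo hi (k + 2)).card : ℤ) = k - 4 := by
    rw [s.card_cV, all fun u hu => by have := bU u hu; omega, chi0 (l := lo v) (by omega), chi0 (l := lo a) (by omega),
      chi1 (l := lo B) (by omega), chi0 (l := lo w) (by omega),
      chi0 (l := lo b) (by omega), chi1 (l := lo A) (by omega)]
    omega
  have n3 : ((cV z lo hi (4 + k)).card : ℤ) = k - 4 := by
    rw [s.card_cV, all fun u hu => by have := bU u hu; omega, chi0 (l := lo v) (by omega), chi0 (l := lo a) (by omega),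
      chi0 (l := lo B) (by omega), chi0 (l := lo w) (by omega),
      chi1 (l := lo b) (by omega), chi1 (l := lo A) (by omega)]
    omega
  have n4 : ((cV z lo hi (k + 3)).card : ℤ) = k - 5 := by
    rw [s.card_cV, all fun u hu => by have := bU u hu; omega, chi0 (l := lo v) (by omega), chi0 (l := lo a) (by omega),
      chi0 (l := lo B) (by omega), chi0 (l := lo w) (by omega),
      chi0 (l := lo b) (by omega), chi1 (l := lo A) (by omega)]
    omega
  have n5 : ((cV z lo hi 3).card : ℤ) = 2 := by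
    rw [s.card_cV, non fun u hu => by have := bU u hu; omega, chi1 (l := lo v) (by omega), chi1 (l := lo a) (by omega),
      chi0 (l := lo B) (by omega), chi0 (l := lo w) (by omega),
      chi0 (l := lo b) (by omega), chi0 (l := lo A) (by omega)]
    omega
  have n6 : ((cV z lo hi 4).card : ℤ) = 3 := by
    rw [s.card_cV, non fun u hu => by have := bU u hu; omega, chi1 (l := lo v) (by omega), chi1 (l := lo a) (by omega),
      chi1 (l := lo B) (by omega), chi0 (l := lo w) (by omega),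
      chi0 (l := lo b) (by omega), chi0 (l := lo A) (by omega)]
    omega
  have n7 : ((cV z lo hi 5).card : ℤ) = 3 := by
    rw [s.card_cV, non fun u hu => by have := bU u hu; omega, chi1 (l := lo v) (by omega), chi1 (l := lo a) (by omega),
      chi1 (l := lo B) (by omega), chi0 (l := lo w) (by omega),
      chi0 (l := lo b) (by omega), chi0 (l := lo A) (by omega)]
    omega
  have ek := Nat.even_iff.1 h.even
  have low := c.vsum (w := v) (b := a) (A := B) (y1 := it w (k + 5)) (y2 := it w (k + 6))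
    (n0 := k + 3) (n1 := 3) (n2 := 4) (n3 := 5) (n4 := 6) (n5 := 7) (m3 := 5 + k) (m4 := 6 + k)
    (m5 := 7 + k)
    ⟨s.nv.1, h.za.symm, h.zB.symm, s.nv.2.1, s.nv.2.2.2.2, h.aB, by omega,
      fun n _ => by omega, fun n _ => by omega, fun n _ => by omega, fun x xz a1 a2 => ?_,
      fun x n hn xz a1 a2 => ?_, fun x xz a1 a2 => ?_, fun x xz a1 a2 => ?_, fun x => s.fv,
      fun x x' f f' e e' => (s.fa f e).trans (s.fa f' e').symm⟩
    (cl _ (by omega) (by omega)) (cl _ (by omega) (by omega)) (cl _ (by omega) (by omega))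
    (by rw [add_comm]; exact c.z2 (by omega)) (by rw [add_comm]; exact c.z2 (by omega))
    (by rw [add_comm]; exact c.z2 (by omega)) (by rw [add_comm]; exact c.z2 (by omega))
    (by rw [add_comm]; exact c.z2 (by omega)) (c.z2 (by omega))
    (by omega) (by omega) (by omega) (by omega)
  · clear lv la lA lb lw lB n4 n5 n6 n7
    intro t L val
    have e0 := c.cS_le 2
    have e1 := c.cS_le k
    have e2 := c.cS_le (k + 2)
    have e3 := c.cS_le (4 + k)
    rw [n0] at e0
    rw [n1] at e1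
    rw [n2] at e2
    rw [n3] at e3
    rw [sum_split k hk] at t
    omega
  · rcases oth x _ xz (by omega) a1 with e | e | e | ⟨j, b1, b2, -⟩
    · exact Or.inl e
    · exact Or.inr e
    · rw [e] at a1; omega
    · omega
  · rcases oth x _ xz (by omega) a1 with e | e | e | ⟨j, b1, b2, -⟩
    · exact Or.inl e
    · exact Or.inr (Or.inl e)
    · exact Or.inr (Or.inr e)
    · omega
  · refine (oth x _ xz (by omega) a1).imp_right (Or.imp_right (Or.imp_right ?_))
    rintro ⟨j, b1, b2, e⟩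
    rw [← e, show j = k + 5 by omega]
  · refine (oth x _ xz (by omega) a1).imp_right (Or.imp_right (Or.imp_right ?_))
    rintro ⟨j, b1, b2, e⟩
    rcases (show j = k + 5 ∨ j = k + 6 by omega) with g | g
    exacts [Or.inl (by rw [← e, g]), Or.inr (by rw [← e, g])]

end Six

end Pool.Agent.P.MP_3f5ded_co.UG
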