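import Pool.Agent.P.MP_3f5ded_co.CCe2

set_option autoImplicit false

namespace Pool.Agent.P.MP_3f5ded_co.UG

open Finset

namespace PM
variable {W : Type} {k : ℕ} {r : ℝ} {Fe : W → W → Prop} (P : PM W k r Fe)

/-- The item of `x` at level `n` is a shifted edge off `z`. -/
def DI (z x : W) (n : ℤ) : Prop := P.it x n ≠ z ∧ ¬ Fe x (P.it x n) ∧ P.sh x (P.it x n) ≠ 0

/-- The shifted items of `x` fill the levels from `f` to `l`. -/
structure Bk (z x : W) (f l : ℤ) : Prop where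
  len : f ≤ l + 1 ∧ l ≤ f + 3
  di : ∀ n, f ≤ n → n ≤ l → P.DI z x n
  all : ∀ y, y ≠ z → P.Ad x y → P.sh x y ≠ 0 → ∃ n, f ≤ n ∧ n ≤ l ∧ P.it x n = y

variable {P} {U : Finset W} {z v a B w b A x y h : W} {f l n m : ℤ} {X : W → ℤ}

lemma cf_Trev (x : W) (n : ℤ) : P.rev.T x n = -P.T x (-n) := by
  simp only [T, rev]; push_cast; ring

lemma Bk.rev (g : P.Bk z x f l) : P.rev.Bk z x (-l) (-f) := by
  refine ⟨by have := g.len; omega, fun n a1 a2 => ?_, fun y a1 a2 a3 => ?_⟩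
  · obtain ⟨b1, b2, b3⟩ := g.di (-n) (by omega) (by omega)
    exact ⟨b1, b2, neg_ne_zero.2 b3⟩
  · obtain ⟨n, b1, b2, e⟩ := g.all y a1 a2 (neg_ne_zero.1 a3)
    exact ⟨-n, by omega, by omega, by simpa [PM.rev] using e⟩

lemma Bk.iff (g : P.Bk z x f l) {c : ℤ} (c1 : f ≤ c) (c2 : c ≤ l + 1) (n1 : c ≤ n) (n2 : n < c + k) :
    (l + 1 ≤ n ∧ n ≤ f + k - 1) ↔ ¬ P.DI z x n := by
  constructor
  · rintro ⟨a1, a2⟩ ⟨b1, b2, b3⟩
    obtain ⟨m, m1, m2, e⟩ := g.all _ b1 ⟨P.ne x n, b2⟩ b3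
    have := P.uniq e (by omega) (by omega)
    omega
  · intro d
    by_contra e
    rcases le_or_gt n l with a1 | a1
    · exact d (g.di n (by omega) a1)
    · have := g.di (n - k) (by omega) (by omega)
      unfold DI at this
      rw [P.it_sub] at this
      exact d this

lemma De.cf_it (d : P.De z h y) (e : P.it h m = y) :
    P.it y (m + k + 1) = h ∧ P.T y (m + k + 1) = P.T h m := by
  have a1 := P.it_co d.ad.2 e
  have a2 := P.T_co d.ad.2 e
  rw [d.one, mul_one, ← add_assoc] at a1 a2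
  exact ⟨a1, a2⟩

/-- A vertex that is unshifted to the head has passed level `m + 2` before the shifted step. -/
lemma De.cf_arr (d : P.De z h y) (e : P.it h m = y) (hx : x = y ∨ (P.Ad x y ∧ P.sh x y = 0))
    (hn : n ≤ m + 2) (hk : 2 ≤ k) : P.T x n < P.T h m := by
  obtain ⟨a1, a2⟩ := d.cf_it e
  rw [← a2]
  rcases hx with rfl | ⟨b1, b2⟩
  · exact P.T_mono x (by omega)
  · obtain ⟨j, j1, j2, g⟩ := P.win b1.symm.1 (m + 2)
    have j3 : j ≠ m + k + 1 := fun c => by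
      rw [c, a1] at g
      have := d.one
      rw [g] at this; omega
    have c1 := P.T_co b1.symm.2 g
    rw [b1.sh, b2, neg_zero, mul_zero, add_zero] at c1
    exact ((P.T_mono x).monotone (show n ≤ j by omega)).trans_lt (c1 ▸ P.T_mono y (by omega))

lemma cf_cut (P : PM W k r Fe) {S : Finset W} (hS : S.Nonempty) (f l : W → ℤ)
    (t : ∀ x ∈ S, ∀ y ∈ S, P.T x (f x - 1) < P.T y (l y + 1)) :
    ∃ X, P.Cut X ∧ ∀ x ∈ S, f x ≤ X x ∧ X x ≤ l x + 1 := by
  obtain ⟨y, hy, hm⟩ := S.exists_min_image (fun y => P.T y (l y + 1)) hS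
  obtain ⟨X, h1, h2⟩ := P.exists_before (P.T y (l y + 1))
  refine ⟨X, h1, fun x hx => ⟨?_, ?_⟩⟩
  · have := (h2 x _).2 (t x hx y hy); omega
  · exact not_lt.1 ((h2 x _).not.2 (not_lt.2 (hm x hx)))

lemma cf_son (s : ℤ) {c d : W} : (P.shift s).On x c d y ↔ P.On x c d y := by
  constructor <;> rintro ⟨n1, n, n2, a1, a2, a3, e1, e, e2⟩
  · exact ⟨n1 + s, n + s, n2 + s, by omega, by omega, by omega, e1, e, e2⟩
  · exact ⟨n1 - s, n - s, n2 - s, by omega, by omega, by omega, by simpa [shift] using e1,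
      by simpa [shift] using e, by simpa [shift] using e2⟩

lemma Ce.shift (c : P.Ce U z) (s : ℤ) : (P.shift s).Ce U z := fun h l x x' d g1 d1 g2 d2 => by
  have := c h l x x' ⟨d.1, d.2, d.3, d.4⟩ (fun g => g1 ⟨g.1, g.2, g.3, g.4, g.5⟩)
    (fun g => d1 ⟨g.1, g.2, g.3, g.4⟩) (fun g => g2 ⟨g.1, g.2, g.3, g.4, g.5⟩)
    fun g => d2 ⟨g.1, g.2, g.3, g.4⟩
  classical
  rw [filter_congr fun u _ => cf_son (P := P) s (x := h) (c := u), filter_congr fun u _ =>
    cf_son (P := P) s (x := l) (y := u)]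
  exact this

variable [Fintype W] [DecidableEq W]

namespace NF
variable (N : P.NF U z v a B w b A)
include N

lemma shift (s : ℤ) : (P.shift s).NF U z v a B w b A :=
  ⟨N.h4, N.vw, N.vU, N.wU, N.sh, N.dvw, N.dab, N.dBA⟩

lemma six : Six k Fe U z v a B w b A := ⟨N.h4, N.vw, N.vU, N.wU⟩

lemma cf_th (h1 : x = v ∨ x = a ∨ x = B) (h2 : x = w ∨ x = b ∨ x = A) : False := by
  have g := N.h4
  have := N.six.nv; have := N.six.nw; have := N.vw; have := g.aA; have := g.ab; have := g.AB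
  have := g.bB
  rcases h1 with rfl | rfl | rfl <;> rcases h2 with rfl | rfl | rfl <;> tauto

lemma cf_u {u : W} (hu : u ∈ U) (xz : x ≠ z) (e : u ≠ x) : P.Ad x u ∧ P.sh x u = 0 := by
  have g := N.six.nu hu
  have a1 : P.Ad x u := ⟨e, fun f => by have := (N.h4.fe x u xz g.1.1).1 f; tauto⟩
  have := N.sh x u xz g.1.1 a1
  exact ⟨a1, by tauto⟩

lemma cf_de (d : P.De z h y) : (h = v ∨ h = a ∨ h = B) ∧ (y = w ∨ y = b ∨ y = A) := by
  rcases N.sh h y d.hz d.lz d.ad with e | e | e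
  · have := d.one; omega
  · exact ⟨e.1, e.2.1⟩
  · have := d.one; omega

lemma cf_di (xz : x ≠ z) (d : P.DI z x n) : ((x = v ∨ x = a ∨ x = B) ∧ P.De z x (P.it x n)) ∨
    ((x = w ∨ x = b ∨ x = A) ∧ P.De z (P.it x n) x ∧ P.it (P.it x n) (n - (k + 1)) = x) := by
  have a1 : P.Ad x (P.it x n) := ⟨P.ne x n, d.2.1⟩
  rcases N.sh x _ xz d.1 a1 with e | e | e
  · exact absurd e d.2.2
  · exact Or.inl ⟨e.1, xz, d.1, a1, e.2.2⟩
  · refine Or.inr ⟨e.2.1, ⟨d.1, xz, a1.symm, by rw [a1.sh, e.2.2]; rfl⟩, ?_⟩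
    have := P.it_co a1.2 rfl
    rwa [e.2.2, mul_neg, mul_one, ← sub_eq_add_neg] at this

/-- The item just before the block of a tail is good. -/
lemma cf_gd (c : P.Ce U z) (g : P.Bk z h f l) (d : P.De z h y) : P.Gd z h y (P.it h (f - 1)) := by
  classical
  by_contra ng
  have hk := N.h4.big
  have := g.len
  obtain ⟨m, m1, m2, e⟩ := g.all y d.lz d.ad (by rw [d.one]; decide)
  have nd : ¬ P.De z h (P.it h (f - 1)) := fun d' => by
    obtain ⟨j, j1, j2, e'⟩ := g.all _ d'.lz d'.ad (by rw [d'.one]; decide)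
    have := P.uniq e' (by omega) (by omega)
    omega
  have h1 := c h y _ z d ng nd (fun q => q.yz rfl) fun q => q.hz rfl
  have h2 : U.erase (P.it h (f - 1)) ⊆ U.filter fun u => P.On h u (P.it h (f - 1)) y := fun u hu => by
    obtain ⟨u1, u2⟩ := mem_erase.1 hu
    have uh : u ≠ h := fun q => by have := N.six.nu u2; have := (N.cf_de d).1; rw [← q] at this; tauto
    obtain ⟨j, j1, j2, q⟩ := P.win uh (f - k)
    have j3 : j ≠ f - 1 := fun t => u1 (by rw [← t, q])
    have j4 : l < j + k := by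
      by_contra t
      have := (g.di (j + k) (by omega) (by omega)).2.2
      rw [P.it_add, q] at this
      exact this (N.cf_u u2 d.hz uh).2
    exact mem_filter.2 ⟨u2, j, f - 1, m, by omega, by omega, by omega, q, rfl, e⟩
  have h3 := card_le_card h2
  have h4 := pred_card_le_card_erase (s := U) (a := P.it h (f - 1))
  have := N.cardU
  omega

/-- Every tail arrives before every shifted step. -/
lemma cf_arr (c : P.Ce U z) (dvb : P.sh v b = 1) (daw : P.sh a w = 1) (g : P.Bk z h f l)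
    (ht : h = v ∨ h = a ∨ h = B) (fl : f ≤ l) {h' : W} (d : P.De z h' y) (e : P.it h' m = y)
    (hm : f ≤ m + 3) : P.T h (f - 1) < P.T h' m := by
  have g4 := N.h4
  have s := N.six
  have vR : v ∈ insert v (insert w U) := by simp
  have wR : w ∈ insert v (insert w U) := by simp
  have dw : P.De z h w := by
    rcases ht with rfl | rfl | rfl
    · exact ⟨s.nv.1, s.nw.1, g4.adRR P vR wR N.vw.symm, N.dvw⟩
    · exact ⟨g4.za.symm, s.nw.1, (g4.adRa P wR).symm, daw⟩
    · rcases N.cf_di g4.zB.symm (g.di f le_rfl fl) with ⟨-, q⟩ | q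
      · rcases (N.cf_de q).2 with t | t | t
        · exact t ▸ q
        · exact absurd ((g4.fe _ _ q.hz q.lz).2 (by tauto)) q.ad.2
        · have := q.one; rw [t, N.dBA] at this; omega
      · exact (N.cf_th (by simp) q.1).elim
  have gw := N.cf_gd c g dw
  have n1 : P.it h (f - 1) ≠ v := fun t => by have := gw.sl0; rw [t, N.dvw] at this; omega
  have n2 : P.it h (f - 1) ≠ a := fun t => by have := gw.sl0; rw [t, daw] at this; omega
  have n3 : P.it h (f - 1) ≠ B := fun t => by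
    have key : P.De z h b → False := fun q =>
      (N.cf_gd c g q).al.2 ((g4.fe _ _ gw.yz q.lz).2 (by tauto))
    rcases ht with rfl | rfl | rfl
    · exact key ⟨s.nv.1, g4.zb.symm, g4.adRb P vR, dvb⟩
    · exact key ⟨g4.za.symm, g4.zb.symm, g4.adab P, N.dab⟩
    · exact P.ne _ _ t
  have t := P.T_co gw.ah.symm.2 rfl
  rw [gw.ah.sh, gw.sh0, neg_zero, mul_zero, add_zero] at t
  rw [← t]
  refine d.cf_arr e ?_ (by omega) (by have := g4.big; omega)
  generalize P.it h (f - 1) = x at *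
  by_cases q : x = y
  · exact Or.inl q
  have hy := (N.cf_de d).2
  have a1 : P.Ad x y := ⟨Ne.symm q, fun t => by
    rcases (g4.fe _ _ gw.yz d.lz).1 t with t | t | t | t
    · exact n2 t.1
    · exact N.cf_th (by simp [t.2]) hy
    · exact N.cf_th (by simp [t.2]) hy
    · exact n3 t.1⟩
  refine Or.inr ⟨a1, ?_⟩
  rcases N.sh x y gw.yz d.lz a1 with t | t | t
  · exact t
  · tauto
  · exact (N.cf_th t.1 hy).elim

/-- Every head departs after every shifted step. -/
lemma cf_dep (c : P.Ce U z) (dvb : P.sh v b = 1) (daw : P.sh a w = 1) (g : P.Bk z x f l)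
    (ht : x = w ∨ x = b ∨ x = A) (fl : f ≤ l) (d : P.De z h y) (e : P.it h m = y)
    (hm : m + k + 1 ≤ l + 3) : P.T h m < P.T x (l + 1) := by
  have g4 := N.h4
  have := N.rev.cf_arr c.rev (h := x)
    (by simp only [PM.rev]; rw [(g4.adRa P (x := w) (by simp)).symm.sh, neg_neg, daw])
    (by simp only [PM.rev]; rw [(g4.adRb P (x := v) (by simp)).sh, neg_neg, dvb]) g.rev ht (by omega)
    (rev_de.2 d) (m := -(m + k + 1)) (by simpa [PM.rev] using (d.cf_it e).1) (by omega)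
  rw [cf_Trev, cf_Trev, neg_neg, (d.cf_it e).2, show -(-l - 1) = l + 1 by ring] at this
  linarith

/-- The core structure at a moment inside all blocks. -/
lemma cf_cor (c : P.Ce U z) (hX : P.Cut X) {f l : W → ℤ}
    (hb : ∀ x, x ≠ z → P.Bk z x (f x) (l x) ∧ f x ≤ X x ∧ X x ≤ l x + 1)
    (hD : ∀ h y, P.De z h y → ∃ m, P.it h m = y ∧ f h ≤ m ∧ m ≤ l h ∧ f y ≤ m + k + 1 ∧
      m + k + 1 ≤ l y) :
    CorE k Fe z P.it (fun x => l x + 1) (fun x => f x + k - 1) ∧
      ∀ x y, x ≠ z → y ≠ x → y = z ∨ P.sh x y = 0 →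
        ∃ n, l x + 1 ≤ n ∧ n ≤ f x + k - 1 ∧ P.it x n = y := by
  classical
  have hk := N.h4.big
  have sur : ∀ x y, x ≠ z → y ≠ x → y = z ∨ P.sh x y = 0 →
      ∃ n, l x + 1 ≤ n ∧ n ≤ f x + k - 1 ∧ P.it x n = y := fun x y xz e g => by
    obtain ⟨n, n1, n2, q⟩ := P.win e (X x)
    obtain ⟨b1, b2, b3⟩ := hb x xz
    have := (b1.iff b2 b3 n1 n2).2 fun d => by
      unfold DI at d
      rw [q] at d
      exact g.elim d.1 d.2.2
    exact ⟨n, this.1, this.2, q⟩
  refine ⟨⟨P.sym, P.ne, fun x n n' xz a1 a2 a3 a4 e => ?_, fun x n xz a1 a2 e g => ?_,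
    fun x y n n' a1 a2 a3 a4 e e' g g' => ?_, fun x xz => sur x z xz xz.symm (Or.inl rfl)⟩, sur⟩
  · have := (hb x xz).1.len
    exact P.uniq e (by omega) (by omega)
  · obtain ⟨b1, b2, b3⟩ := hb x xz
    have s0 : P.sh x (P.it x n) = 0 := by
      by_contra t
      exact (b1.iff b2 b3 (by omega) (by omega)).1 ⟨a1, a2⟩ ⟨e, g, t⟩
    have w1 := hX.win g rfl (by omega) (by omega)
    have w2 := P.it_co g rfl
    rw [s0, mul_zero, add_zero] at w1 w2
    obtain ⟨c1, c2, c3⟩ := hb _ e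
    have := (c1.iff c2 c3 w1.1 w1.2).2 fun d => d.2.2 (by
      rw [w2, P.sh_neg g (P.ne x n), s0, neg_zero])
    exact ⟨this.1, this.2, w2⟩
  · have xz : x ≠ z := fun t => P.ne x n (e.trans t.symm)
    have yz : y ≠ z := fun t => P.ne y n' (e'.trans t.symm)
    obtain ⟨b1, b2, b3⟩ := hb x xz
    obtain ⟨c1, c2, c3⟩ := hb y yz
    have w1 := hX.win g e (by omega) (by omega)
    have w2 := hX.win g' e' (by omega) (by omega)
    have i1 := P.it_co g e
    have i2 := P.it_co g' e'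
    have key : ∀ j : ℤ, -k < (k + 1) * j → (k + 1) * j < k → j = 0 := fun j j1 j2 => by
      rcases lt_trichotomy j 0 with t | t | t
      · nlinarith
      · exact t
      · nlinarith
    refine ⟨fun t => ?_, fun t => ?_, fun t => ?_⟩
    · have := key (P.sh y z - P.sh x z) (by rw [mul_sub]; omega) (by rw [mul_sub]; omega)
      rw [← i1, ← i2, t, show P.sh y z = P.sh x z by omega]
    · have q : P.sh y z = P.sh x z - 1 := by
        have h1 : -2 < P.sh y z - P.sh x z := by nlinarith [w1.1, w1.2, w2.1, w2.2]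
        have h2 : P.sh y z - P.sh x z < 0 := by nlinarith [w1.1, w1.2, w2.1, w2.2]
        omega
      have xy : y ≠ x := fun u => by rw [u] at q; omega
      obtain ⟨Y, y1, y2, y3⟩ := P.cut_after y n'
      replace y3 := y3 z g' e'
      have y4 := (y1.side g e).not.2 (by rw [y3, q, mul_sub]; omega)
      have ad : P.Ad x y := ⟨xy, fun u => by
        have o1 := N.h4.onea
        have o2 := N.h4.oneb
        have gx : ¬ Fe z x := fun q => g (P.sym _ _ q)
        have gy : ¬ Fe z y := fun q => g' (P.sym _ _ q)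
        rcases (N.h4.fe x y xz yz).1 u with ⟨rfl, rfl⟩ | ⟨rfl, rfl⟩ | ⟨rfl, rfl⟩ | ⟨rfl, rfl⟩ <;> tauto⟩
      have y5 := y1.near ad.2 xy
      have d : P.De z x y := ⟨xz, yz, ad, by
        rcases N.sh x y xz yz ad with u | u | u
        · rw [u] at y5; omega
        · exact u.2.2
        · rw [u.2.2] at y5; omega⟩
      obtain ⟨m, m0, m1, m2, m3, m4⟩ := hD x y d
      have h1 := c x y z z d (fun q => q.yz rfl) (fun q => q.lz rfl) (fun q => q.yz rfl)
        fun q => q.hz rfl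
      have td := N.cf_de d
      have h2 : U ⊆ (U.filter fun u => P.On x u z y) ∪ (Ioo n (m + k)).image (P.it x) := fun u hu => by
        have ux : u ≠ x := fun q => by have := N.six.nu hu; rw [← q] at td; tauto
        obtain ⟨j, j1, j2, q⟩ := sur x u xz ux (Or.inr (N.cf_u hu xz ux).2)
        have j3 : j ≠ n := fun t => (N.six.nu hu).1.1 (by rw [← q, t, e])
        rcases lt_or_gt_of_ne j3 with t | t
        · exact mem_union_left _ (mem_filter.2 ⟨hu, j, n, m + k, t, by omega, by omega, q, e,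
            (P.it_add x m).trans m0⟩)
        · exact mem_union_right _ (mem_image.2 ⟨j, mem_Ioo.2 ⟨t, by omega⟩, q⟩)
      have h3 : U ⊆ (U.filter fun u => P.On y x z u) ∪ (Ioo (m + k + 1) n').image (P.it y) :=
        fun u hu => by
        have ux : u ≠ y := fun q => by have := N.six.nu hu; rw [← q] at td; tauto
        obtain ⟨j, j1, j2, q⟩ := sur y u yz ux (Or.inr (N.cf_u hu yz ux).2)
        have j3 : j ≠ n' := fun t => (N.six.nu hu).1.1 (by rw [← q, t, e'])
        rcases lt_or_gt_of_ne j3 with t | t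
        · exact mem_union_right _ (mem_image.2 ⟨j, mem_Ioo.2 ⟨by omega, t⟩, q⟩)
        · exact mem_union_left _ (mem_filter.2 ⟨hu, m + k + 1, n', j, by omega, t, by omega,
            (d.cf_it m0).1, e', q⟩)
      have h4 := (card_le_card h2).trans ((card_union_le _ _).trans
        (Nat.add_le_add_left card_image_le _))
      have h5 := (card_le_card h3).trans ((card_union_le _ _).trans
        (Nat.add_le_add_left card_image_le _))
      rw [Int.card_Ioo] at h4 h5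
      have := N.cardU
      omega
    · have := key (P.sh y z + 1 - P.sh x z) (by rw [mul_sub, mul_add]; omega)
        (by rw [mul_sub, mul_add]; omega)
      have xy : x = y := by
        rw [← i1, ← i2, t, show P.sh x z = P.sh y z + 1 by omega]
        congr 1; ring
      subst xy
      omega

/-- From the blocks of the vertices in `S` to the core structure. -/
lemma cf_main (c : P.Ce U z) (dvb : P.sh v b = 1) (daw : P.sh a w = 1) {S : Finset W} (vS : v ∈ S)
    {f l : W → ℤ} (hS : ∀ x ∈ S, x ≠ z ∧ P.Bk z x (f x) (l x) ∧ f x ≤ l x ∧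
      ((x = v ∨ x = a ∨ x = B) ∧ 0 ≤ f x ∧ l x ≤ 3 ∨
        (x = w ∨ x = b ∨ x = A) ∧ k + 1 ≤ f x ∧ l x ≤ k + 4))
    (out : ∀ h y, P.De z h y → h ∈ S ∧ y ∈ S)
    (tm : ∀ x ∈ S, ∀ y ∈ S, x = w ∨ x = b ∨ x = A → y = v ∨ y = a ∨ y = B →
      P.T x (f x) ≤ P.T y (l y)) :
    ∃ lo hi, CorE k Fe z P.it lo hi ∧ (∀ x ∈ S, lo x = l x + 1 ∧ hi x = f x + k - 1) ∧
      ∀ x, x ≠ z → x ∉ S → hi x + 1 = lo x + k ∧ ∀ y ∈ S, P.Ad y x →
        ∃ n, lo y ≤ n ∧ n ≤ hi y ∧ P.it y n = x := by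
  have hk := N.h4.big
  have step : ∀ x ∈ S, ∀ n, f x ≤ n → n ≤ l x → ∃ h y m, P.De z h y ∧ P.it h m = y ∧ 0 ≤ m ∧ m ≤ 3 ∧
      P.T h m = P.T x n := fun x hx n n1 n2 => by
    obtain ⟨a1, a2, a3, a4⟩ := hS x hx
    rcases N.cf_di a1 (a2.di n n1 n2) with ⟨t, d⟩ | ⟨t, d, e⟩
    · rcases a4 with q | q
      · exact ⟨_, _, n, d, rfl, by omega, by omega, rfl⟩
      · exact (N.cf_th t q.1).elim
    · rcases a4 with q | q
      · exact (N.cf_th q.1 t).elim
      · refine ⟨_, _, _, d, e, by omega, by omega, ?_⟩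
        rw [← (d.cf_it e).2]; congr 1; ring
  obtain ⟨X, hX, hx⟩ := P.cf_cut ⟨v, vS⟩ f l fun x hx y hy => by
    obtain ⟨a1, a2, a3, a4⟩ := hS x hx
    obtain ⟨b1, b2, b3, b4⟩ := hS y hy
    have u1 : P.T x (f x - 1) < P.T x (f x) := P.T_mono x (by omega)
    have u2 : P.T y (l y) < P.T y (l y + 1) := P.T_mono y (by omega)
    rcases a4 with q | q
    · obtain ⟨h, y', m, d, e, m1, m2, t⟩ := step y hy _ b3 le_rfl
      have := N.cf_arr c dvb daw a2 q.1 a3 d e (by omega)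
      linarith
    rcases b4 with q' | q'
    · have := tm x hx y hy q.1 q'.1
      linarith
    · obtain ⟨h, y', m, d, e, m1, m2, t⟩ := step x hx _ le_rfl a3
      have := N.cf_dep c dvb daw b2 q'.1 b3 d e (by omega)
      linarith
  have zero : ∀ x y, x ≠ z → y ≠ z → x ∉ S → P.Ad x y → P.sh x y = 0 := fun x y xz yz xS ad => by
    rcases N.sh x y xz yz ad with t | t | t
    · exact t
    · exact absurd (out x y ⟨xz, yz, ad, t.2.2⟩).1 xS
    · exact absurd (out y x ⟨yz, xz, ad.symm, by rw [ad.sh, t.2.2]; rfl⟩).2 xS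
  obtain ⟨C, sur⟩ := N.cf_cor c hX (f := fun x => if x ∈ S then f x else X x)
    (l := fun x => if x ∈ S then l x else X x - 1) (fun x xz => by
      by_cases g : x ∈ S
      · simp only [if_pos g]
        exact ⟨(hS x g).2.1, hx x g⟩
      · simp only [if_neg g]
        exact ⟨⟨by omega, fun n a1 a2 => by omega, fun y yz ad t => absurd (zero x y xz yz g ad) t⟩,
          le_rfl, by omega⟩) fun h y d => by
    obtain ⟨g1, g2⟩ := out h y d
    obtain ⟨a1, a2, a3, a4⟩ := hS h g1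
    obtain ⟨b1, b2, b3, b4⟩ := hS y g2
    obtain ⟨m, m1, m2, e⟩ := a2.all y d.lz d.ad (by rw [d.one]; decide)
    obtain ⟨n, n1, n2, e'⟩ := b2.all h d.hz d.ad.symm (by rw [d.ad.sh, d.one]; decide)
    have t := N.cf_de d
    replace a4 := (a4.resolve_right fun q => N.cf_th t.1 q.1).2
    replace b4 := (b4.resolve_left fun q => N.cf_th q.1 t.2).2
    have := P.uniq (e'.trans (d.cf_it e).1.symm) (by omega) (by omega)
    simp only [if_pos g1, if_pos g2]
    exact ⟨m, e, m1, m2, by omega, by omega⟩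
  refine ⟨_, _, C, fun x g => by simp only [if_pos g, and_self], fun x xz g => ⟨?_, fun y hy ad => ?_⟩⟩
  · simp only [if_neg g]; ring
  · exact sur y x (hS y hy).1 ad.1 (Or.inr (by
      rw [ad.symm.sh, zero x y xz (hS y hy).1 g ad.symm, neg_zero]))

lemma cf_fun (c1 c2 c3 c4 c5 c6 : ℤ) :
    ∃ f : W → ℤ, f v = c1 ∧ f a = c2 ∧ f B = c3 ∧ f w = c4 ∧ f b = c5 ∧ f A = c6 := by
  have g := N.h4
  have nv := N.six.nv
  have nw := N.six.nw
  refine ⟨fun x => if x = v then c1 else if x = a then c2 else if x = B then c3 else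
    if x = w then c4 else if x = b then c5 else c6, ?_⟩
  simp [nv.2.1.symm, nv.2.2.2.2.symm, g.aB.symm, N.vw.symm, nw, nv.2.2.2.1.symm, g.ab.symm, g.bB,
    nw.2.2.2.1.symm, nv.2.2.1.symm, g.aA.symm, g.AB, nw.2.2.1.symm, g.Ab]

/-- The block of a tail. -/
lemma cf_tail (ht : h = v ∨ h = a ∨ h = B) (hz : h ≠ z) (len : f ≤ l + 1 ∧ l ≤ f + 3)
    (di : ∀ n, f ≤ n → n ≤ l → P.De z h (P.it h n))
    (all : ∀ y, P.De z h y → ∃ n, f ≤ n ∧ n ≤ l ∧ P.it h n = y) : P.Bk z h f l := by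
  refine ⟨len, fun n a1 a2 => ?_, fun y yz ad t => all y ⟨hz, yz, ad, ?_⟩⟩
  · have d := di n a1 a2
    exact ⟨d.lz, d.ad.2, by rw [d.one]; decide⟩
  · rcases N.sh h y hz yz ad with q | q | q
    exacts [absurd q t, q.2.2, (N.cf_th ht q.2.1).elim]

/-- The block of a head. -/
lemma cf_head (ht : x = w ∨ x = b ∨ x = A) (hz : x ≠ z) (len : f ≤ l + 1 ∧ l ≤ f + 3)
    (di : ∀ n, f ≤ n → n ≤ l → P.De z (P.it x n) x)
    (all : ∀ y, P.De z y x → ∃ n, f ≤ n ∧ n ≤ l ∧ P.it x n = y) : P.Bk z x f l := by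
  refine ⟨len, fun n a1 a2 => ?_, fun y yz ad t => all y ⟨yz, hz, ad.symm, ?_⟩⟩
  · have d := di n a1 a2
    exact ⟨d.hz, d.ad.symm.2, by rw [d.ad.sh, d.one]; decide⟩
  · rcases N.sh x y hz yz ad with q | q | q
    exacts [absurd q t, (N.cf_th q.1 ht).elim, by rw [ad.sh, q.2.2]; rfl]

lemma cf_four (dvb : P.sh v b = 1) (daw : P.sh a w = 1) :
    P.De z v w ∧ P.De z v b ∧ P.De z a b ∧ P.De z a w :=
  ⟨⟨N.six.nv.1, N.six.nw.1, N.h4.adRR P (by simp) (by simp) N.vw.symm, N.dvw⟩,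
    ⟨N.six.nv.1, N.h4.zb.symm, N.h4.adRb P (by simp), dvb⟩,
    ⟨N.h4.za.symm, N.h4.zb.symm, N.h4.adab P, N.dab⟩,
    ⟨N.h4.za.symm, N.six.nw.1, (N.h4.adRa P (by simp)).symm, daw⟩⟩

/-- The list of all possible shifted edges. -/
lemma cf_list (d : P.De z h y) : (h = v ∧ y = w) ∨ (h = v ∧ y = b) ∨ (h = a ∧ y = b) ∨
    (h = a ∧ y = w) ∨ (h = v ∧ y = A) ∨ (h = B ∧ y = w) := by
  obtain ⟨t1, t2⟩ := N.cf_de d
  have n1 : ¬ (h = a ∧ y = A) := fun q => d.ad.2 ((N.h4.fe _ _ d.hz d.lz).2 (Or.inl q))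
  have n2 : ¬ (h = B ∧ y = b) := fun q => d.ad.2 ((N.h4.fe _ _ d.hz d.lz).2 (by tauto))
  have n3 : ¬ (h = B ∧ y = A) := fun q => by
    have := d.one
    rw [q.1, q.2, N.dBA] at this; omega
  tauto

end NF

end PM

end Pool.Agent.P.MP_3f5ded_co.UG
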