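import Pool.Agent.P.MP_3f5ded_co.CCf

set_option autoImplicit false

namespace Pool.Agent.P.MP_3f5ded_co.UG

open Finset

namespace PM
variable {W : Type} {k : ℕ} {r : ℝ} {Fe : W → W → Prop} {P : PM W k r Fe} {U : Finset W}
  {z v a B w b A x y h : W} {f l n m : ℤ}

lemma De.cf_tm (d : P.De z h y) (e : P.it h m = y) (h1 : f ≤ m + k + 1) (h2 : m ≤ l) :
    P.T y f ≤ P.T h l :=
  ((P.T_mono y).monotone h1).trans ((d.cf_it e).2.le.trans ((P.T_mono h).monotone h2))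

variable [Fintype W] [DecidableEq W]

namespace NF
variable (N : P.NF U z v a B w b A)
include N

lemma cf_nes : (v ≠ a ∧ v ≠ B ∧ v ≠ w ∧ v ≠ b ∧ v ≠ A) ∧ (a ≠ B ∧ a ≠ w ∧ a ≠ b ∧ a ≠ A) ∧
    (B ≠ w ∧ B ≠ b ∧ B ≠ A) ∧ (w ≠ b ∧ w ≠ A) ∧ b ≠ A :=
  have g := N.h4
  have nv := N.six.nv
  have nw := N.six.nw
  ⟨⟨nv.2.1, nv.2.2.2.2, N.vw, nv.2.2.2.1, nv.2.2.1⟩, ⟨g.aB, nw.2.1.symm, g.ab, g.aA⟩,
    ⟨nw.2.2.2.2.symm, g.bB.symm, g.AB.symm⟩, ⟨nw.2.2.2.1, nw.2.2.1⟩, g.Ab.symm⟩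

lemma cf_mid (hx : x = A ∨ x = B ∨ x ∈ U) : x ≠ z ∧ (x ≠ v ∧ x ≠ a ∧ x ≠ w ∧ x ≠ b) ∧ P.Ad v x ∧
    P.Ad w x := by
  have g := N.h4
  obtain ⟨⟨a1, a2, a3, a4, a5⟩, ⟨b1, b2, b3, b4⟩, ⟨c1, c2, c3⟩, ⟨d1, d2⟩, e1⟩ := N.cf_nes
  rcases hx with rfl | rfl | u
  · exact ⟨g.zA.symm, ⟨a5.symm, b4.symm, d2.symm, e1.symm⟩, g.adRA P (by simp), g.adRA P (by simp)⟩
  · exact ⟨g.zB.symm, ⟨a2.symm, b1.symm, c1, c2⟩, g.adRB P (by simp), g.adRB P (by simp)⟩
  · have t := N.six.nu u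
    exact ⟨t.1.1, ⟨t.2.1, t.1.2.1, t.2.2, t.1.2.2.2.1⟩, (N.cf_u u N.six.nv.1 t.2.1).1,
      (N.cf_u u N.six.nw.1 t.2.2).1⟩

lemma cf_tail2 {y' : W} {n' : ℤ} (d : P.De z h y) (d' : P.De z h y') (e : P.it h n = y)
    (e' : P.it h n' = y') (hf : (n = f ∧ n' = f + 1) ∨ (n' = f ∧ n = f + 1))
    (all : ∀ u, P.De z h u → u = y ∨ u = y') : P.Bk z h f (f + 1) := by
  refine N.cf_tail (N.cf_de d).1 d.hz (by omega) (fun j j1 j2 => ?_) fun u q => ?_
  · rcases (show j = n ∨ j = n' by omega) with rfl | rfl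
    exacts [e ▸ d, e' ▸ d']
  · rcases all u q with rfl | rfl
    exacts [⟨n, by omega, by omega, e⟩, ⟨n', by omega, by omega, e'⟩]

lemma cf_head2 {h' : W} {n' : ℤ} (d : P.De z h y) (d' : P.De z h' y) (e : P.it h n = y)
    (e' : P.it h' n' = y) (hf : (n = f ∧ n' = f + 1) ∨ (n' = f ∧ n = f + 1))
    (all : ∀ u, P.De z u y → u = h ∨ u = h') : P.Bk z y (f + k + 1) (f + k + 2) := by
  have i := (d.cf_it e).1
  have i' := (d'.cf_it e').1
  refine N.cf_head (N.cf_de d).2 d.lz (by omega) (fun j j1 j2 => ?_) fun u q => ?_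
  · rcases (show j = n + k + 1 ∨ j = n' + k + 1 by omega) with rfl | rfl
    exacts [i.symm ▸ d, i'.symm ▸ d']
  · rcases all u q with rfl | rfl
    exacts [⟨_, by omega, by omega, i⟩, ⟨_, by omega, by omega, i'⟩]

lemma core3' (c : P.Ce U z) (dvb : P.sh v b = 1)
    (daw : P.sh a w = 1) (dvA : P.sh v A = 0) (dBw : P.sh B w = 0) {n1 n2 n3 n4 : ℤ}
    (e1 : P.it v n1 = w) (e2 : P.it v n2 = b) (e3 : P.it a n3 = b) (e4 : P.it a n4 = w)
    (d : (n1 = 1 ∧ n3 = 1 ∧ (n2 = 0 ∨ n2 = 2) ∧ (n4 = 0 ∨ n4 = 2)) ∨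
      (n2 = 1 ∧ n4 = 1 ∧ (n1 = 0 ∨ n1 = 2) ∧ (n3 = 0 ∨ n3 = 2))) : False := by
  obtain ⟨d1, d2, d3, d4⟩ := N.cf_four dvb daw
  obtain ⟨⟨a1, a2, a3, a4, a5⟩, ⟨b1, b2, b3, b4⟩, ⟨c1, c2, c3⟩, ⟨g1, g2⟩, g3⟩ := N.cf_nes
  have li : ∀ h y, P.De z h y → (h = v ∨ h = a) ∧ (y = w ∨ y = b) := fun h y q => by
    have t := q.one
    rcases N.cf_list q with u | u | u | u | u | u
    any_goals tauto
    all_goals (rw [u.1, u.2] at t; omega)
  obtain ⟨fv, hv⟩ : ∃ f, (n1 = f ∧ n2 = f + 1) ∨ (n2 = f ∧ n1 = f + 1) := ⟨min n1 n2, by omega⟩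
  obtain ⟨fb, hb⟩ : ∃ f, (n2 = f ∧ n3 = f + 1) ∨ (n3 = f ∧ n2 = f + 1) := ⟨min n2 n3, by omega⟩
  obtain ⟨fa, ha⟩ : ∃ f, (n3 = f ∧ n4 = f + 1) ∨ (n4 = f ∧ n3 = f + 1) := ⟨min n3 n4, by omega⟩
  obtain ⟨fw, hw⟩ : ∃ f, (n1 = f ∧ n4 = f + 1) ∨ (n4 = f ∧ n1 = f + 1) := ⟨min n1 n4, by omega⟩
  have k1 := N.cf_tail2 d1 d2 e1 e2 hv fun u q => (li _ _ q).2
  have k2 := N.cf_tail2 d3 d4 e3 e4 ha fun u q => (li _ _ q).2.symm
  have k3 := N.cf_head2 d1 d4 e1 e4 hw fun u q => (li _ _ q).1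
  have k4 := N.cf_head2 d2 d3 e2 e3 hb fun u q => (li _ _ q).1
  have r1 : 0 ≤ fv ∧ fv ≤ 1 := by omega
  have r2 : 0 ≤ fa ∧ fa ≤ 1 := by omega
  have r3 : 0 ≤ fw ∧ fw ≤ 1 := by omega
  have r4 : 0 ≤ fb ∧ fb ≤ 1 := by omega
  have ev : Even (fv + fa + fw + fb) := by rw [Int.even_iff]; omega
  have t1 := d1.cf_tm e1 (f := fw + k + 1) (l := fv + 1) (by omega) (by omega)
  have t2 := d2.cf_tm e2 (f := fb + k + 1) (l := fv + 1) (by omega) (by omega)
  have t3 := d3.cf_tm e3 (f := fb + k + 1) (l := fa + 1) (by omega) (by omega)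
  have t4 := d4.cf_tm e4 (f := fw + k + 1) (l := fa + 1) (by omega) (by omega)
  clear d hv hb ha hw
  obtain ⟨f, f1, f2, -, f4, f5, -⟩ := N.cf_fun fv fa 0 (fw + k + 1) (fb + k + 1) 0
  obtain ⟨l, l1, l2, -, l4, l5, -⟩ := N.cf_fun (fv + 1) (fa + 1) 0 (fw + k + 2) (fb + k + 2) 0
  obtain ⟨lo, hi, C, q1, q2⟩ := N.cf_main c dvb daw (S := {v, a, w, b}) (by simp) (f := f) (l := l)
    (fun x hx => by
      simp only [mem_insert, mem_singleton] at hx
      rcases hx with rfl | rfl | rfl | rfl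
      · rw [f1, l1]; exact ⟨d1.hz, k1, by omega, Or.inl ⟨by simp, by omega⟩⟩
      · rw [f2, l2]; exact ⟨d3.hz, k2, by omega, Or.inl ⟨by simp, by omega⟩⟩
      · rw [f4, l4]; exact ⟨d1.lz, k3, by omega, Or.inr ⟨by simp, by omega⟩⟩
      · rw [f5, l5]; exact ⟨d2.lz, k4, by omega, Or.inr ⟨by simp, by omega⟩⟩)
    (fun h y q => by have := li h y q; simp only [mem_insert, mem_singleton]; tauto)
    fun x hx y hy tx ty => by
      simp only [mem_insert, mem_singleton] at hx hy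
      have ux : x = w ∨ x = b := by
        rcases hx with e | e | e | e
        exacts [(N.cf_th (Or.inl e) tx).elim, (N.cf_th (Or.inr (Or.inl e)) tx).elim, Or.inl e, Or.inr e]
      have uy : y = v ∨ y = a := by
        rcases hy with e | e | e | e
        exacts [Or.inl e, Or.inr e, (N.cf_th ty (Or.inl e)).elim, (N.cf_th ty (Or.inr (Or.inl e))).elim]
      rcases ux with e | e <;> rcases uy with e' | e' <;> rw [e, e']
      · rwa [f4, l1]
      · rwa [f4, l2]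
      · rwa [f5, l1]
      · rwa [f5, l2]
  have s1 := q1 v (by simp)
  have s2 := q1 a (by simp)
  have s3 := q1 w (by simp)
  have s4 := q1 b (by simp)
  refine N.six.c3 C r1 r2 r3 r4 ev (by omega) (by omega) (by omega) (by omega) fun x hx => ?_
  obtain ⟨u1, u2, u3, u4⟩ := N.cf_mid hx
  obtain ⟨u5, u6⟩ := q2 x u1 (by simp [u2])
  exact ⟨u5, u6 v (by simp) u3, u6 w (by simp) u4⟩

/-- The four shifted edges `vw, vb, ab, aw` only. -/
theorem core3 (c : P.Ce U z) (dvb : P.sh v b = 1)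
    (daw : P.sh a w = 1) (dvA : P.sh v A = 0) (dBw : P.sh B w = 0) {n1 n2 n3 n4 : ℤ}
    (e1 : P.it v n1 = w) (e2 : P.it v n2 = b) (e3 : P.it a n3 = b) (e4 : P.it a n4 = w)
    (d1 : n2 = n1 + 1 ∨ n1 = n2 + 1) (d2 : n3 = n2 + 1 ∨ n2 = n3 + 1)
    (d3 : n4 = n3 + 1 ∨ n3 = n4 + 1) (d4 : n1 = n4 + 1 ∨ n4 = n1 + 1) : False := by
  obtain ⟨s, hs⟩ : ∃ s, (n1 = s + 1 ∧ n3 = s + 1) ∨ (n2 = s + 1 ∧ n4 = s + 1) := by
    by_cases e : n1 = n3
    exacts [⟨n1 - 1, by omega⟩, ⟨n2 - 1, by omega⟩]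
  exact (N.shift s).core3' (c.shift s) dvb daw dvA dBw (n1 := n1 - s) (n2 := n2 - s) (n3 := n3 - s)
    (n4 := n4 - s) (by simpa [PM.shift] using e1) (by simpa [PM.shift] using e2)
    (by simpa [PM.shift] using e3) (by simpa [PM.shift] using e4) (by omega)

lemma core45' (c : P.Ce U z) (dvb : P.sh v b = 1)
    (daw : P.sh a w = 1) (dvA : P.sh v A = 1) {i j : ℤ}
    (ij : (i = 1 ∧ j = 2) ∨ (i = 2 ∧ j = 1)) (e0 : P.it v 0 = A)
    (e1 : P.it v i = w) (e2 : P.it v j = b) (e3 : P.it a i = b) (e4 : P.it a j = w)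
    (e5 : P.sh B w = 1 → P.it B 3 = w) : False := by
  have g4 := N.h4
  obtain ⟨d1, d2, d3, d4⟩ := N.cf_four dvb daw
  have d0 : P.De z v A := ⟨d1.hz, g4.zA.symm, g4.adRA P (by simp), dvA⟩
  obtain ⟨⟨a1, a2, a3, a4, a5⟩, ⟨b1, b2, b3, b4⟩, ⟨c1, c2, c3⟩, ⟨g1, g2⟩, g3⟩ := N.cf_nes
  have i0 := d0.cf_it e0
  have i1 := d1.cf_it e1
  have i4 := d4.cf_it e4
  have k1 : P.Bk z v 0 2 := by
    refine N.cf_tail (by simp) d1.hz (by omega) (fun n n1 n2 => ?_) fun y q => ?_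
    · rcases (show n = 0 ∨ n = i ∨ n = j by omega) with rfl | rfl | rfl
      exacts [e0 ▸ d0, e1 ▸ d1, e2 ▸ d2]
    · rcases (N.cf_de q).2 with rfl | rfl | rfl
      exacts [⟨i, by omega, by omega, e1⟩, ⟨j, by omega, by omega, e2⟩, ⟨0, by omega, by omega, e0⟩]
  have k2 := N.cf_tail2 d3 d4 e3 e4 (f := 1) (by omega) fun u q => by have := N.cf_list q; tauto
  have k4 := N.cf_head2 d2 d3 e2 e3 (f := 1) (by omega) fun u q => by
    have := N.cf_list q; have := g1.symm; tauto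
  have k5 : P.Bk z A (0 + k + 1) (0 + k + 1) := by
    refine N.cf_head (by simp) d0.lz (by omega) (fun n n1 n2 => ?_) fun y q => ?_
    · rw [show n = 0 + k + 1 by omega, i0.1]; exact d0
    · have := N.cf_list q
      have := g2.symm
      have := g3.symm
      rw [show y = v by tauto]
      exact ⟨_, le_rfl, le_rfl, i0.1⟩
  -- times
  have t1 := d1.cf_tm e1 (f := 1 + k + 1) (l := 2) (by omega) (by omega)
  have t2 := d2.cf_tm e2 (f := 1 + k + 1) (l := 2) (by omega) (by omega)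
  have t3 := d3.cf_tm e3 (f := 1 + k + 1) (l := 1 + 1) (by omega) (by omega)
  have t4 := d4.cf_tm e4 (f := 1 + k + 1) (l := 1 + 1) (by omega) (by omega)
  have t5 := d0.cf_tm e0 (f := 0 + k + 1) (l := 2) (by omega) (by omega)
  have m1 : P.T v 0 ≤ P.T v i := (P.T_mono v).monotone (by omega)
  have t6 : P.T A (0 + k + 1) ≤ P.T a (1 + 1) := by
    rw [i0.2]
    rcases ij with ⟨rfl, rfl⟩ | ⟨rfl, rfl⟩
    · exact m1.trans (i1.2.symm.le.trans t4)
    · exact ((P.T_mono v).monotone (by omega)).trans ((d2.cf_it e2).2.symm.le.trans t3)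
  by_cases dB : P.sh B w = 1
  · have d5 : P.De z B w := ⟨g4.zB.symm, d1.lz, (g4.adRB P (by simp)).symm, dB⟩
    have i5 := d5.cf_it (e5 dB)
    have k3 : P.Bk z w (1 + k + 1) (3 + k + 1) := by
      refine N.cf_head (by simp) d1.lz (by omega) (fun n n1 n2 => ?_) fun y q => ?_
      · rcases (show n = i + k + 1 ∨ n = j + k + 1 ∨ n = 3 + k + 1 by omega) with rfl | rfl | rfl
        exacts [i1.1.symm ▸ d1, i4.1.symm ▸ d4, i5.1.symm ▸ d5]
      · rcases (N.cf_de q).1 with rfl | rfl | rfl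
        exacts [⟨_, by omega, by omega, i1.1⟩, ⟨_, by omega, by omega, i4.1⟩,
          ⟨_, by omega, by omega, i5.1⟩]
    have k6 : P.Bk z B 3 3 := by
      refine N.cf_tail (by simp) d5.hz (by omega) (fun n n1 n2 => ?_) fun y q => ?_
      · rw [show n = 3 by omega, e5 dB]; exact d5
      · have := N.cf_list q
        have := a2.symm
        have := b1.symm
        rw [show y = w by tauto]
        exact ⟨_, le_rfl, le_rfl, e5 dB⟩
    have t7 := d5.cf_tm (e5 dB) (f := 1 + k + 1) (l := 3) (by omega) (by omega)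
    have m2 : ∀ n, n ≤ 2 → P.T w (n + k + 1) ≤ P.T B 3 := fun n hn =>
      d5.cf_tm (e5 dB) (by omega) le_rfl
    have t8 : P.T A (0 + k + 1) ≤ P.T B 3 := by
      rw [i0.2]; exact m1.trans (i1.2.symm.le.trans (m2 i (by omega)))
    have t9 : P.T b (1 + k + 1) ≤ P.T B 3 := by
      rcases ij with ⟨rfl, rfl⟩ | ⟨rfl, rfl⟩
      · exact t3.trans (i4.2.symm.le.trans (m2 2 le_rfl))
      · exact t2.trans (i1.2.symm.le.trans (m2 2 le_rfl))
    clear ij
    obtain ⟨f, f1, f2, f3, f4, f5, f6⟩ := N.cf_fun 0 1 3 (1 + k + 1) (1 + k + 1) (0 + k + 1)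
    obtain ⟨l, l1, l2, l3, l4, l5, l6⟩ := N.cf_fun 2 (1 + 1) 3 (3 + k + 1) (1 + k + 2) (0 + k + 1)
    obtain ⟨lo, hi, C, q1, q2⟩ := N.cf_main c dvb daw (S := {v, a, B, w, b, A}) (by simp) (f := f)
      (l := l) (fun x hx => by
        simp only [mem_insert, mem_singleton] at hx
        rcases hx with rfl | rfl | rfl | rfl | rfl | rfl
        · rw [f1, l1]; exact ⟨d1.hz, k1, by omega, Or.inl ⟨by simp, by omega⟩⟩
        · rw [f2, l2]; exact ⟨d3.hz, k2, by omega, Or.inl ⟨by simp, by omega⟩⟩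
        · rw [f3, l3]; exact ⟨d5.hz, k6, by omega, Or.inl ⟨by simp, by omega⟩⟩
        · rw [f4, l4]; exact ⟨d1.lz, k3, by omega, Or.inr ⟨by simp, by omega⟩⟩
        · rw [f5, l5]; exact ⟨d2.lz, k4, by omega, Or.inr ⟨by simp, by omega⟩⟩
        · rw [f6, l6]; exact ⟨d0.lz, k5, by omega, Or.inr ⟨by simp, by omega⟩⟩)
      (fun h y q => by have := N.cf_de q; simp only [mem_insert, mem_singleton]; tauto)
      fun x _ y _ tx ty => by
        rcases tx with e | e | e <;> rcases ty with e' | e' | e' <;> rw [e, e']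
        · rwa [f4, l1]
        · rwa [f4, l2]
        · rwa [f4, l3]
        · rwa [f5, l1]
        · rwa [f5, l2]
        · rwa [f5, l3]
        · rwa [f6, l1]
        · rwa [f6, l2]
        · rwa [f6, l3]
    have s1 := q1 v (by simp)
    have s2 := q1 a (by simp)
    have s3 := q1 B (by simp)
    have s4 := q1 w (by simp)
    have s5 := q1 b (by simp)
    have s6 := q1 A (by simp)
    refine N.six.c5 C (by omega) (by omega) (by omega) (by omega) (by omega) (by omega) fun x hx => ?_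
    obtain ⟨u1, u2, u3, u4⟩ := N.cf_mid (Or.inr (Or.inr hx))
    obtain ⟨u5, u6⟩ := q2 x u1 (by simp [u2, N.six.nu hx])
    exact ⟨u5, u6 v (by simp) u3, u6 w (by simp) u4⟩
  · have nB : ∀ y, ¬ P.De z B y := fun y q => by
      have := N.cf_list q
      have := a2.symm
      have := b1.symm
      exact dB ((show y = w by tauto) ▸ q.one)
    have k3 := N.cf_head2 d1 d4 e1 e4 (f := 1) (by omega) fun u q => by
      rcases (N.cf_de q).1 with e | e | e
      exacts [Or.inl e, Or.inr e, absurd (e ▸ q) (nB w)]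
    clear ij
    obtain ⟨f, f1, f2, -, f4, f5, f6⟩ := N.cf_fun 0 1 3 (1 + k + 1) (1 + k + 1) (0 + k + 1)
    obtain ⟨l, l1, l2, -, l4, l5, l6⟩ := N.cf_fun 2 (1 + 1) 3 (1 + k + 2) (1 + k + 2) (0 + k + 1)
    obtain ⟨lo, hi, C, q1, q2⟩ := N.cf_main c dvb daw (S := {v, a, w, b, A}) (by simp) (f := f)
      (l := l) (fun x hx => by
        simp only [mem_insert, mem_singleton] at hx
        rcases hx with rfl | rfl | rfl | rfl | rfl
        · rw [f1, l1]; exact ⟨d1.hz, k1, by omega, Or.inl ⟨by simp, by omega⟩⟩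
        · rw [f2, l2]; exact ⟨d3.hz, k2, by omega, Or.inl ⟨by simp, by omega⟩⟩
        · rw [f4, l4]; exact ⟨d1.lz, k3, by omega, Or.inr ⟨by simp, by omega⟩⟩
        · rw [f5, l5]; exact ⟨d2.lz, k4, by omega, Or.inr ⟨by simp, by omega⟩⟩
        · rw [f6, l6]; exact ⟨d0.lz, k5, by omega, Or.inr ⟨by simp, by omega⟩⟩)
      (fun h y q => by
        have := N.cf_de q
        have : h ≠ B := fun e => nB y (e ▸ q)
        simp only [mem_insert, mem_singleton]; tauto)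
      fun x _ y hy tx ty => by
        have yB : y ≠ B := fun e => by
          simp [e, a2.symm, b1.symm, c1, c2, c3] at hy
        replace ty : y = v ∨ y = a := ty.imp_right fun q => q.resolve_right yB
        rcases tx with e | e | e <;> rcases ty with e' | e' <;> rw [e, e']
        · rwa [f4, l1]
        · rwa [f4, l2]
        · rwa [f5, l1]
        · rwa [f5, l2]
        · rwa [f6, l1]
        · rwa [f6, l2]
    have s1 := q1 v (by simp)
    have s2 := q1 a (by simp)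
    have s4 := q1 w (by simp)
    have s5 := q1 b (by simp)
    have s6 := q1 A (by simp)
    refine N.six.c4 C (by omega) (by omega) (by omega) (by omega) (by omega) fun x hx => ?_
    obtain ⟨u1, u2, u3, u4⟩ := N.cf_mid (Or.inr hx)
    have xA : x ≠ A := by
      rcases hx with e | e
      exacts [e ▸ c3, (N.six.nu e).1.2.2.1]
    obtain ⟨u5, u6⟩ := q2 x u1 (by simp [u2, xA])
    exact ⟨u5, u6 v (by simp) u3, u6 w (by simp) u4⟩

/-- The edge `vA` is shifted too, and `Bw` is shifted or not. -/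
theorem core45 (c : P.Ce U z) (dvb : P.sh v b = 1)
    (daw : P.sh a w = 1) (dvA : P.sh v A = 1) {s i j : ℤ}
    (ij : (i = s + 1 ∧ j = s + 2) ∨ (i = s + 2 ∧ j = s + 1)) (e0 : P.it v s = A)
    (e1 : P.it v i = w) (e2 : P.it v j = b) (e3 : P.it a i = b) (e4 : P.it a j = w)
    (e5 : P.sh B w = 1 → P.it B (s + 3) = w) : False :=
  (N.shift s).core45' (c.shift s) dvb daw dvA (i := i - s) (j := j - s) (by omega)
    (by simpa [PM.shift] using e0) (by simpa [PM.shift] using e1) (by simpa [PM.shift] using e2)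
    (by simpa [PM.shift] using e3) (by simpa [PM.shift] using e4)
    fun q => by simpa [PM.shift, add_comm] using e5 q

end NF

end PM

end Pool.Agent.P.MP_3f5ded_co.UG
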