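import Pool.Agent.P.MP_3f5ded_co.CCb
import Pool.Agent.P.MP_3f5ded_co.CCd3
import Pool.Agent.P.MP_3f5ded_co.CCd4
import Pool.Agent.P.MP_3f5ded_co.CCg

set_option autoImplicit false

namespace Pool.Agent.P.MP_3f5ded_co.UG

open Finset

namespace PM
variable {W : Type} {k : ℕ} {r : ℝ} {Fe : W → W → Prop} {P : PM W k r Fe} {U : Finset W}
  {z v a B w b A : W} [Fintype W] [DecidableEq W]

lemma NF.al' (n : P.NF U z v a B w b A) (dvb : P.sh v b = 1) : P.sh a w = 1 := by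
  have d := n.Dvb dvb
  obtain ⟨m, e⟩ := P.sur b v d.ad.1.symm
  obtain ⟨m', e'⟩ := P.sur v b d.ad.1
  obtain ⟨f, g, -, -, kb⟩ := n.lc.blk' d e
  obtain ⟨f', g', -, -, kv⟩ := n.lc.blk d e'
  exact n.al n.lc dvb kb kv

lemma NF.both (n : P.NF U z v a B w b A) : P.sh v b = 1 ∧ P.sh a w = 1 := by
  have e1 := n.ads.2.1.2.1.sh
  have e2 := n.ads.1.2.2.2.1.sh
  rcases n.bit with g | g
  · have : -P.sh b v = 1 := n.rev.al' (show -P.sh w a = 1 by omega)
    exact ⟨by omega, g⟩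
  · exact ⟨g, n.al' g⟩

lemma NF.not_vA (n : P.NF U z v a B w b A) : P.sh v A ≠ 1 := fun dvA => by
  obtain ⟨dvb, daw⟩ := n.both
  have p1 := n.pe_vA dvA
  have p2 := n.pe_ab
  have p3 := n.pe_vb dvb
  have p4 := n.pe_vw
  have p5 := n.pe_aw daw
  simp only [if_pos dvb, if_pos daw, if_pos dvA] at p1 p2 p3 p4
  have c0 := P.cE_nonneg U z v A
  have c1 : 0 ≤ P.Mh U v A B := sum_nonneg fun _ _ => ind_nonneg _
  have c2 : 0 ≤ P.Ml U v A B := sum_nonneg fun _ _ => ind_nonneg _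
  obtain ⟨s, i, j, ij, e0, e1, e2, e3, e4, e5⟩ := n.lev45 n.lc dvb daw dvA (by omega) (by omega) (by omega)
    (fun g => by rw [if_pos g] at p4; omega) fun g => by rw [if_pos g] at p5; omega
  exact n.core45 n.lc.ce dvb daw dvA ij e0 e1 e2 e3 e4 e5

/-- The normal form of case C does not occur. -/
theorem NF.false (n : P.NF U z v a B w b A) : False := by
  obtain ⟨dvb, daw⟩ := n.both
  obtain ⟨-, -, -, c1, -, c2⟩ := n.shs
  have e := n.ads.2.2.1.1.sh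
  have g : -P.sh w B ≠ 1 := n.rev.not_vA
  obtain ⟨n1, n2, n3, n4, e1, e2, e3, e4, d1, d2, d3, d4⟩ :=
    n.lev3 n.lc dvb daw (c1.resolve_right n.not_vA) (by omega)
  exact n.core3 n.lc.ce dvb daw (c1.resolve_right n.not_vA) (by omega) e1 e2 e3 e4 d1 d2 d3 d4

end PM

end Pool.Agent.P.MP_3f5ded_co.UG
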