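import Pool.Agent.P.MP_3f5ded_co.EQL

set_option autoImplicit false

namespace Pool.Agent.P.MP_3f5ded_co.UG

open Finset

lemma pt_r {e0 e1 e2 e3 e4 d0 d1 d2 d3 d4 : ℤ} (h : e0 < e4 ∧ e4 < e3 ∧ e3 < e2 ∧ e2 < e1)
    (m1 : e0 < d1) (m4 : e0 < d4) (m0 : e0 ≤ d0) (m2 : e0 ≤ d2)
    (n0 : d0 ≠ d2 ∧ d0 ≠ d3) (n1 : d1 ≠ e2 ∧ d1 ≠ e4 ∧ d1 ≠ d3 ∧ d1 ≠ d4)
    (n2 : d2 ≠ e3 ∧ d2 ≠ d4 ∧ d2 ≠ e0) (n3 : d3 ≠ e4 ∧ d3 ≠ e1) (n4 : d4 ≠ e2)
    (s0 : Bt e4 d0 e0) (s1 : Bt e0 d1 e1) (s2 : Bt e1 d2 e2) (s3 : Bt e2 d3 e3) (s4 : Bt e3 d4 e4)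
    (a1 : ¬ Bt d3 d1 e2) (a2 : ¬ Bt d4 d2 e3) (a3 : ¬ Bt d0 d3 e4)
    (a4 : ¬ Bt d1 d4 e0) (b1 : ¬ Bt e4 d1 d4) (b2 : ¬ Bt e0 d2 d0)
    (b3 : ¬ Bt e1 d3 d1) (b4 : ¬ Bt e2 d4 d2) : e1 < d2 ∧ d1 < e4 ∧ e4 < d3 ∧ d3 < e3 := by
  have t0 : e4 < d0 := by unfold Bt at s0; omega
  have t1 : d1 < e1 := by unfold Bt at s1; omega
  have t2 : e1 < d2 ∨ d2 < e2 := by unfold Bt at s2; omega
  have t3 : e2 < d3 ∨ d3 < e3 := by unfold Bt at s3; omega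
  have t4 : e3 < d4 ∨ d4 < e4 := by unfold Bt at s4; omega
  have u4 : d4 < d1 := by unfold Bt at a4; omega
  have u2 : d0 < d2 := by unfold Bt at b2; omega
  have u3 : e4 < d3 ∧ d3 < d0 := by unfold Bt at a3; omega
  have v3 : d1 < d3 ∧ d3 < e1 := by unfold Bt at b3; omega
  rcases t2 with t2 | t2
  · have w4 : d4 < e3 := by unfold Bt at a2; omega
    have w1 : d1 < e4 := by unfold Bt at b1; omega
    have w3 : d3 < e2 := by unfold Bt at a1; omega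
    omega
  · exfalso
    have w4 : d2 < d4 := by unfold Bt at b4; omega
    omega

lemma pt_a {ab ea de cd bc yb ey ay db ec be yd cy : ℤ} (h : ab < ea ∧ ea < de ∧ de < cd ∧ cd < bc)
    (m : ab < ay ∧ ab < be) (n1 : ay ≠ ea ∧ ay ≠ ey ∧ ay ≠ yb) (n2 : db ≠ yb ∧ db ≠ be ∧ db ≠ yd ∧ db ≠ de)
    (n3 : ec ≠ be ∧ ec ≠ ey ∧ ec ≠ bc ∧ ec ≠ cy) (n4 : ey ≠ de ∧ yb ≠ bc)
    (s1 : Bt ea be ab) (s2 : Bt ey be yb) (s3 : Bt de yd ey) (s4 : Bt yb cy bc)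
    (w1 : ¬ Bt ea ay ab) (w2 : ¬ Bt ey ay yb) (w3 : ¬ Bt yb db be) (w4 : ¬ Bt be ec ey)
    (w5 : ¬ Bt yd db de) (w6 : ¬ Bt bc ec cy) : Bt yb ey de ∧ Bt yb de cd ∧ Bt yb cd bc := by
  have t1 : ea < be := by unfold Bt at s1; clear * - s1 h m; omega
  have t2 : ay < ea := by unfold Bt at w1; clear * - w1 h m n1; omega
  have t3 : ay < ey ∧ ey < be ∧ (yb < ay ∨ be < yb) := by
    unfold Bt at s2 w2; clear * - s2 w2 t1 t2 n1; omega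
  have t4 : ey < ec ∧ ec < be := by unfold Bt at w4; clear * - w4 t3 n3; omega
  have t6 : ey < de := by
    by_contra g
    have : de < yd ∧ yd < ey := by unfold Bt at s3; clear * - s3 g n4; omega
    unfold Bt at w5 w3; clear * - w5 w3 this t3 n2 t2 h; omega
  have t7 : yb < ay ∨ bc < yb := by
    by_contra g
    have : yb < cy ∧ cy < bc := by unfold Bt at s4; clear * - s4 g n4; omega
    unfold Bt at w6; clear * - w6 this t3 t4 n3 g; omega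
  unfold Bt; clear * - t7 t6 t3 h t2; omega

namespace PM
variable {W : Type} {k : ℕ} {r : ℝ} {Fe : W → W → Prop} (P : PM W k r Fe)

/-- A pentagon: five short triangles in cyclic order. -/
structure P5 (a b c d e : W) : Prop where
  s0 : P.Sh e a b
  s1 : P.Sh a b c
  s2 : P.Sh b c d
  s3 : P.Sh c d e
  s4 : P.Sh d e a
  two : P.sh a b + P.sh b c + P.sh c d + P.sh d e + P.sh e a = 2

/-- The steps round a pentagon. -/
noncomputable def s5 (a b c d e : W) : ℤ :=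
  P.st a e b + P.st b a c + P.st c b d + P.st d c e + P.st e d a

/-- The long way round. -/
def Two (a b c d e : W) : Prop := P.s5 a b c d e = 2 * k - 2

/-- Two twins `c, d` on the edge `x y` whose common edge is off the arcs. -/
def Tw (x y c d : W) : Prop := ¬ P.On c y d x ∧ ¬ P.On d y c x

variable {P} {a b c d e x y : W} {L t : W → W → ℤ}

lemma P5.rot (p : P.P5 a b c d e) : P.P5 b c d e a :=
  ⟨p.s1, p.s2, p.s3, p.s4, p.s0, by have := p.two; omega⟩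

lemma s5_rot : P.s5 b c d e a = P.s5 a b c d e := by unfold s5; ring

lemma Two.rot (h : P.Two a b c d e) : P.Two b c d e a := s5_rot.trans h

lemma tw_of (h : P.Sh x y c) (h' : P.Sh x y d) (e : P.Ad c d) (g : P.K4 x y c d ≤ 0) : P.Tw x y c d := by
  have := K4_tw h h' e
  have := ind_nonneg (P.On c y d x)
  have := ind_nonneg (P.On d y c x)
  exact ⟨fun o => by have := ind_pos o; omega, fun o => by have := ind_pos o; omega⟩

lemma Tm.st (T : P.Tm L t) (h1 : c ≠ x) (h2 : y ≠ x) (h3 : c ≠ y) :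
    (t x c < t x y ∧ P.st x c y = L x y - L x c) ∨ (t x y < t x c ∧ P.st x c y = L x y - L x c + k) := by
  have n := T.Lne h1 h2 h3
  have w1 := T.win x c y h1 h2
  have w2 := T.win x y c h2 h1
  rcases lt_or_gt_of_ne n with g | g
  · exact Or.inl ⟨(T.lt x c y h1 h2).2 g, st_eq (T.it x c h1) (T.it x y h2) g.le w2⟩
  · refine Or.inr ⟨(T.lt x y c h2 h1).2 g, ?_⟩
    rw [st_eq (T.it x c h1) ((P.it_add x _).trans (T.it x y h2)) (by omega) (by omega)]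
    ring

/-- The two values of the steps, read in the times. -/
lemma P5.lap (p : P.P5 a b c d e) (T : P.Tm L t) (hk : 5 ≤ k) :
    (P.s5 a b c d e = k - 2 ∨ P.Two a b c d e) ∧ (P.Two a b c d e ↔
      Bt (t a b) (t e a) (t d e) ∧ Bt (t a b) (t d e) (t c d) ∧ Bt (t a b) (t c d) (t b c)) := by
  have c1 := T.co _ _ p.s1.a1
  have c2 := T.co _ _ p.s2.a1
  have c3 := T.co _ _ p.s3.a1
  have c4 := T.co _ _ p.s4.a1
  have c5 := T.co _ _ p.s0.a1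
  have e1 : L b a - L a b + (L c b - L b c) + (L d c - L c d) + (L e d - L d e) + (L a e - L e a) =
      2 * (k + 1) := by
    rw [c1, c2, c3, c4, c5]
    linear_combination ((k : ℤ) + 1) * p.two
  have y1 := T.sym _ _ p.s1.a1
  have y2 := T.sym _ _ p.s2.a1
  have y3 := T.sym _ _ p.s3.a1
  have y4 := T.sym _ _ p.s4.a1
  have y5 := T.sym _ _ p.s0.a1
  have q1 := T.st p.s0.a1.1.symm p.s0.a2.1 p.s0.a3.1
  have q2 := T.st p.s1.a1.1.symm p.s1.a2.1 p.s1.a3.1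
  have q3 := T.st p.s2.a1.1.symm p.s2.a2.1 p.s2.a3.1
  have q4 := T.st p.s3.a1.1.symm p.s3.a2.1 p.s3.a3.1
  have q5 := T.st p.s4.a1.1.symm p.s4.a2.1 p.s4.a3.1
  have r1 := st_pos (P := P) p.s0.a1.1.symm p.s0.a2.1 p.s0.a3.1
  have r2 := st_pos (P := P) p.s1.a1.1.symm p.s1.a2.1 p.s1.a3.1
  have r3 := st_pos (P := P) p.s2.a1.1.symm p.s2.a2.1 p.s2.a3.1
  have r4 := st_pos (P := P) p.s3.a1.1.symm p.s3.a2.1 p.s3.a3.1
  have r5 := st_pos (P := P) p.s4.a1.1.symm p.s4.a2.1 p.s4.a3.1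
  clear c1 c2 c3 c4 c5
  unfold Two s5 Bt
  rw [← y1] at q2
  rw [← y2] at q3
  rw [← y3] at q4
  rw [← y4] at q5
  rw [← y5] at q1
  clear y1 y2 y3 y4 y5
  rcases q1 with q1 | q1 <;> rcases q2 with q2 | q2 <;> rcases q3 with q3 | q3 <;>
    rcases q4 with q4 | q4 <;> rcases q5 with q5 | q5 <;> omega

variable [Finite W]

/-- The times of a long pentagon. -/
lemma P5.core (p : P.P5 a b c d e) (hk : 5 ≤ k) (h : P.Two a b c d e) (w0 : P.Tw b c a d)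
    (w2 : P.Tw d e c a) (w3 : P.Tw e a d b) (w4 : P.Tw a b e c) : ∃ L t, P.Tm L t ∧
      (t a b < t e a ∧ t e a < t d e ∧ t d e < t c d ∧ t c d < t b c) ∧
      t b c < t d b ∧ t c a < t e a ∧ t a b < t c a ∧ t e a < t e c ∧ t e c < t d e := by
  obtain ⟨L, t, T, m⟩ := P.exists_tm p.s1.a1.1
  have ab := p.s1.a1
  have bc := p.s2.a1
  have cd := p.s3.a1
  have de := p.s4.a1
  have ea := p.s0.a1
  have be := p.s0.a3
  have ca := p.s1.a3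
  have db := p.s2.a3
  have ec := p.s3.a3
  have ad := p.s4.a3
  have g := (p.lap T hk).2.1 h
  have m1 := m e a ea.1
  have m2 := m d e de.1
  have m3 := m c d cd.1
  have m4 := m b c bc.1
  have o : t a b < t e a ∧ t e a < t d e ∧ t d e < t c d ∧ t c d < t b c := by
    unfold Bt at g; omega
  have y1 := T.sym _ _ ab
  have y2 := T.sym _ _ bc
  have y3 := T.sym _ _ cd
  have y4 := T.sym _ _ de
  have y5 := T.sym _ _ ea
  have y6 := T.sym _ _ be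
  have y7 := T.sym _ _ ca
  have y8 := T.sym _ _ db
  have y9 := T.sym _ _ ec
  have y0 := T.sym _ _ ad
  have f1 : t a b < t c a := lt_of_le_of_ne (m c a ca.1) (y7 ▸ T.ne ab.1 ca.1.symm bc.1.symm)
  have f4 : t a b < t a d := lt_of_le_of_ne (m a d ad.1) (T.ne ab.1 ad.1 db.1)
  refine ⟨L, t, T, o, ?_⟩
  have := pt_r (d0 := t b e) (d1 := t c a) (d2 := t d b) (d3 := t e c) (d4 := t a d) o f1 f4
    (m b e be.1) (m d b db.1)
    ⟨y8 ▸ T.ne be.1 db.1.symm de.1, y6 ▸ T.ne be.1.symm ec.1 bc.1.symm⟩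
    ⟨T.ne ca.1 cd.1 ad.1.symm, y7 ▸ y5 ▸ T.ne ca.1.symm ea.1.symm ec.1,
      y9 ▸ T.ne ca.1 ec.1.symm ea.1, y7 ▸ T.ne ca.1.symm ad.1 cd.1.symm⟩
    ⟨T.ne db.1 de.1 be.1.symm, y0 ▸ T.ne db.1 ad.1.symm ab.1,
      y8 ▸ y1 ▸ T.ne db.1.symm ab.1.symm ad.1⟩
    ⟨T.ne ec.1 ea.1 ca.1.symm, y9 ▸ y2 ▸ T.ne ec.1.symm bc.1.symm be.1⟩
    (y0 ▸ y3 ▸ T.ne ad.1.symm cd.1.symm ca.1)
    (T.sh3 p.s0) (T.sh3 p.s1) (T.sh3 p.s2) (T.sh3 p.s3) (T.sh3 p.s4)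
    (fun o => w2.1 ((T.on ec.1.symm ca.1 cd.1).2 (y9 ▸ o)))
    (fun o => w3.1 ((T.on ad.1.symm db.1 de.1).2 (y0 ▸ o)))
    (fun o => w4.1 ((T.on be.1.symm ec.1 ea.1).2 (y6 ▸ o)))
    (fun o => w0.1 ((T.on ca.1.symm ad.1 ab.1).2 (y7 ▸ o)))
    (fun o => w2.2 ((T.on ea.1.symm ca.1.symm ad.1).2 (y5 ▸ y7 ▸ o)))
    (fun o => w3.2 ((T.on ab.1.symm db.1.symm be.1).2 (y1 ▸ y8 ▸ o)))
    (fun o => w4.2 ((T.on bc.1.symm ec.1.symm ca.1).2 (y2 ▸ y9 ▸ o)))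
    (fun o => w0.2 ((T.on cd.1.symm ad.1.symm db.1).2 (y3 ▸ y0 ▸ o)))
  exact ⟨this.1, this.2.1, f1, this.2.2⟩

/-- Lemma R: the first corner of a long pentagon is met twice. -/
lemma P5.twice (p : P.P5 a b c d e) (hk : 5 ≤ k) (h : P.Two a b c d e) (w0 : P.Tw b c a d)
    (w2 : P.Tw d e c a) (w3 : P.Tw e a d b) (w4 : P.Tw a b e c) : 2 ≤ P.met b c d a := by
  obtain ⟨L, t, T, o, f⟩ := p.core hk h w0 w2 w3 w4
  have y1 := T.sym _ _ p.s1.a1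
  have y2 := T.sym _ _ p.s2.a1
  have y8 := T.sym _ _ p.s2.a3
  have o1 : P.On b d a c := (T.on p.s2.a3.1.symm p.s1.a1.1.symm p.s2.a1.1).2 (by unfold Bt; omega)
  have o2 : P.On c b a d := (T.on p.s2.a1.1.symm p.s1.a3.1 p.s3.a1.1).2 (by unfold Bt; omega)
  have := ind_nonneg (P.On d c a b)
  rw [met, ind_pos o1, ind_pos o2]
  omega

/-- Lemma S4: a long pentagon has a violated clique. -/
lemma P5.short (p : P.P5 a b c d e) (hk : 5 ≤ k) (h : P.Two a b c d e) (w0 : P.Tw b c a d)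
    (w1 : P.Tw c d b e) (w2 : P.Tw d e c a) (w3 : P.Tw e a d b) (w4 : P.Tw a b e c) : False := by
  obtain ⟨L, t, T, o, f⟩ := p.core hk h w0 w2 w3 w4
  have y4 := T.sym _ _ p.s4.a1
  have y6 := T.sym _ _ p.s0.a3
  have y8 := T.sym _ _ p.s2.a3
  have n1 := T.ne p.s0.a3.1 p.s2.a3.1.symm p.s4.a1.1
  have n2 := T.ne p.s0.a3.1 p.s2.a1.1 p.s3.a3.1.symm
  have n3 := T.ne p.s0.a3.1.symm p.s3.a3.1 p.s2.a1.1.symm
  have n4 := T.ne p.s0.a3.1.symm p.s4.a1.1.symm p.s2.a3.1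
  have a := (T.on p.s2.a3.1.symm p.s0.a3.1 p.s2.a1.1).not.1 w1.1
  have b := (T.on p.s4.a1.1.symm p.s0.a3.1.symm p.s3.a3.1).not.1 w1.2
  unfold Bt at a b
  omega

/-- Lemma A: a twin of the first corner keeps the long way. -/
lemma P5.keep (p : P.P5 a b c d e) (q : P.P5 y b c d e) (hk : 5 ≤ k) (h : P.Two a b c d e)
    (ay : P.Ad a y) (w : P.Tw b e a y) (w3 : P.Tw e y d b) (w4 : P.Tw y b e c) :
    P.Two y b c d e := by
  obtain ⟨L, t, T, m⟩ := P.exists_tm p.s1.a1.1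
  have ab := p.s1.a1
  have bc := p.s2.a1
  have cd := p.s3.a1
  have de := p.s4.a1
  have ea := p.s0.a1
  have be := p.s0.a3
  have db := p.s2.a3
  have ec := p.s3.a3
  have yb := q.s1.a1
  have ey := q.s0.a1
  have cy := q.s1.a3
  have yd := q.s4.a3
  have g := (p.lap T hk).2.1 h
  have m1 := m e a ea.1
  have m2 := m d e de.1
  have m3 := m c d cd.1
  have m4 := m b c bc.1
  have o : t a b < t e a ∧ t e a < t d e ∧ t d e < t c d ∧ t c d < t b c := by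
    unfold Bt at g; omega
  have y1 := T.sym _ _ ab
  have y2 := T.sym _ _ bc
  have y4 := T.sym _ _ de
  have y5 := T.sym _ _ ea
  have y6 := T.sym _ _ be
  have y8 := T.sym _ _ db
  have y9 := T.sym _ _ ec
  have z1 := T.sym _ _ yb
  have z2 := T.sym _ _ ey
  have z4 := T.sym _ _ yd
  have z5 := T.sym _ _ ay
  refine (q.lap T hk).2.2 (pt_a (ay := t a y) (db := t d b) (ec := t e c) (be := t b e) (yd := t y d)
    (cy := t c y) o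
    ⟨lt_of_le_of_ne (m a y ay.1) (T.ne ab.1 ay.1 yb.1),
      lt_of_le_of_ne (m b e be.1) (y1 ▸ T.ne ab.1.symm be.1 ea.1)⟩
    ⟨y5 ▸ T.ne ay.1 ea.1.symm ey.1, z5 ▸ z2 ▸ T.ne ay.1.symm ey.1.symm ea.1,
      z5 ▸ T.ne ay.1.symm yb.1 ab.1.symm⟩
    ⟨y8 ▸ z1 ▸ T.ne db.1.symm yb.1.symm yd.1, y8 ▸ T.ne db.1.symm be.1 de.1.symm,
      z4 ▸ T.ne db.1 yd.1.symm yb.1, T.ne db.1 de.1 be.1.symm⟩
    ⟨y6 ▸ T.ne ec.1 be.1.symm bc.1, T.ne ec.1 ey.1 cy.1.symm,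
      y9 ▸ y2 ▸ T.ne ec.1.symm bc.1.symm be.1, y9 ▸ T.ne ec.1.symm cy.1 ey.1.symm⟩
    ⟨y4 ▸ T.ne ey.1 de.1.symm yd.1.symm, z1 ▸ T.ne yb.1.symm bc.1 cy.1⟩
    (T.sh3 p.s0) (T.sh3 q.s0) (T.sh3 q.s4) (T.sh3 q.s1)
    (fun o => w.1 ((T.on ea.1.symm ay.1 ab.1).2 (y5 ▸ o)))
    (fun o => w.2 ((T.on ey.1.symm ay.1.symm yb.1).2 (z2 ▸ z5 ▸ o)))
    (fun o => w3.2 ((T.on yb.1.symm db.1.symm be.1).2 (z1 ▸ y8 ▸ o)))
    (fun o => w4.1 ((T.on be.1.symm ec.1 ey.1).2 (y6 ▸ o)))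
    (fun o => w3.1 ((T.on yd.1.symm db.1 de.1).2 (z4 ▸ o)))
    (fun o => w4.2 ((T.on bc.1.symm ec.1.symm cy.1).2 (y2 ▸ y9 ▸ o))))

end PM

end Pool.Agent.P.MP_3f5ded_co.UG
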