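import Pool.Agent.P.MP_3f5ded_co.CP1
import Pool.Agent.P.MP_3f5ded_co.CA2

set_option autoImplicit false

namespace Pool.Agent.P.MP_3f5ded_co.UG

open Finset
open scoped Classical

lemma pt_twin {a0 a1 a2 a3 a4 : ℤ} (s : a0 + a1 + a2 + a3 + a4 = 2)
    (c0 : -1 ≤ a0 ∧ a0 ≤ 1) (c1 : -1 ≤ a1 ∧ a1 ≤ 1) (c2 : -1 ≤ a2 ∧ a2 ≤ 1) (c3 : -1 ≤ a3 ∧ a3 ≤ 1)
    (c4 : -1 ≤ a4 ∧ a4 ≤ 1) (d0 : -1 ≤ a0 + a1 - 1) (d1 : -1 ≤ a1 + a2 - 1) (d2 : -1 ≤ a2 + a3 - 1)
    (d3 : -1 ≤ a3 + a4 - 1) (d4 : -1 ≤ a4 + a0 - 1)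
    (f0 : a0 = 0 ∨ a0 + a1 - 1 = 0 ∨ a1 = 0) (f1 : a1 = 0 ∨ a1 + a2 - 1 = 0 ∨ a2 = 0)
    (f2 : a2 = 0 ∨ a2 + a3 - 1 = 0 ∨ a3 = 0) (f3 : a3 = 0 ∨ a3 + a4 - 1 = 0 ∨ a4 = 0)
    (f4 : a4 = 0 ∨ a4 + a0 - 1 = 0 ∨ a0 = 0) :
    (a1 = 1 ∧ a2 = 0 ∧ a3 = 1) ∨ (a2 = 1 ∧ a3 = 0 ∧ a4 = 1) ∨ (a3 = 1 ∧ a4 = 0 ∧ a0 = 1) ∨
      (a4 = 1 ∧ a0 = 0 ∧ a1 = 1) ∨ (a0 = 1 ∧ a1 = 0 ∧ a2 = 1) := by
  rcases (by omega : a0 = -1 ∨ a0 = 0 ∨ a0 = 1) with rfl | rfl | rfl <;>
    rcases (by omega : a1 = -1 ∨ a1 = 0 ∨ a1 = 1) with rfl | rfl | rfl <;>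
    rcases (by omega : a2 = -1 ∨ a2 = 0 ∨ a2 = 1) with rfl | rfl | rfl <;> omega

namespace PM
variable {W : Type} {k : ℕ} {r : ℝ} {Fe : W → W → Prop} (P : PM W k r Fe) (z : W)

/-- The vertex set of a clique with positive excess. -/
def Vi (Q : Finset W) : Prop := ∃ p q s d, Q = {p, q, s, d} ∧ P.Cq4 z p q s d ∧ 0 < P.K4 p q s d

/-- A pentagon off `z`. -/
structure Pz (a b c d e : W) : Prop extends P.P5 a b c d e where
  az : a ≠ z
  bz : b ≠ z
  cz : c ≠ z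
  dz : d ≠ z
  ez : e ≠ z

/-- The common neighbours of a set. -/
noncomputable def Dn [Fintype W] (S : Finset W) : Finset W :=
  univ.filter fun y => y ≠ z ∧ ∀ x ∈ S, P.Ad y x

/-- What the count gives. -/
structure Bd [Fintype W] : Prop where
  big : 12 ≤ k
  three : ∀ Q1 Q2 Q3, P.Vi z Q1 → P.Vi z Q2 → P.Vi z Q3 → Q1 = Q2 ∨ Q1 = Q3 ∨ Q2 = Q3
  four : ∀ p q s d, P.Cq4 z p q s d → P.mu p q s = 0 ∨ P.mu p q d = 0 ∨ P.mu p s d = 0 ∨ P.mu q s d = 0
  par : ∀ x y y', x ≠ z → y ≠ z → y' ≠ z → y ≠ x → y' ≠ x → ¬ P.Ad x y → ¬ P.Ad x y' → y = y'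
  cnt : ∀ a b c d e, P.Pz z a b c d e → k ≤ (P.Dn z {a, b, c, d, e}).card + 7

variable {P z} {a b c d e x y y' : W} {S : Finset W}

lemma Pz.rot (p : P.Pz z a b c d e) : P.Pz z b c d e a :=
  ⟨p.toP5.rot, p.bz, p.cz, p.dz, p.ez, p.az⟩

lemma s5set (a b c d e : W) : ({b, c, d, e, a} : Finset W) = {a, b, c, d, e} := by
  ext; simp only [mem_insert, mem_singleton]; tauto

lemma tw_or (h : P.Sh x y c) (h' : P.Sh x y d) (e : P.Ad c d) (h1 : x ≠ z) (h2 : y ≠ z) (h3 : c ≠ z)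
    (h4 : d ≠ z) : P.Tw x y c d ∨ P.Vi z {x, y, c, d} := by
  rcases le_or_gt (P.K4 x y c d) 0 with g | g
  · exact Or.inl (tw_of h h' e g)
  · exact Or.inr ⟨x, y, c, d, rfl, ⟨h1, h2, h3, h4, h.a1, h.a3.symm, h'.a3.symm, h.a2, h'.a2, e⟩, g⟩

lemma Pz.own (p : P.Pz z a b c d e) : P.Tw b c a d ∨ P.Vi z {b, c, a, d} :=
  tw_or p.s1.rot p.s2 p.s4.a3 p.bz p.cz p.az p.dz

variable [Fintype W]

lemma mem_Dn : y ∈ P.Dn z S ↔ y ≠ z ∧ ∀ x ∈ S, P.Ad y x := by simp [Dn]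

lemma Dn.not_mem (h : y ∈ P.Dn z S) : y ∉ S := fun g => ((mem_Dn.1 h).2 y g).1 rfl

/-- A common neighbour is a twin of one corner. -/
lemma Pz.twin (p : P.Pz z a b c d e) (B : P.Bd z) (h : y ∈ P.Dn z {a, b, c, d, e}) :
    P.Pz z y b c d e ∨ P.Pz z y c d e a ∨ P.Pz z y d e a b ∨ P.Pz z y e a b c ∨
      P.Pz z y a b c d := by
  obtain ⟨yz, g⟩ := mem_Dn.1 h
  have ya := g a (by simp)
  have yb := g b (by simp)
  have yc := g c (by simp)
  have yd := g d (by simp)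
  have ye := g e (by simp)
  have key : ∀ {a b c : W}, P.Sh a b c → a ≠ z → b ≠ z → c ≠ z → P.Ad y a → P.Ad y b → P.Ad y c →
      (-1 ≤ P.mu y a b ∧ P.mu y a b ≤ 1) ∧ -1 ≤ P.mu y a b + P.mu y b c - 1 ∧
      (P.mu y a b = 0 ∨ P.mu y a b + P.mu y b c - 1 = 0 ∨ P.mu y b c = 0) ∧
      P.mu y a c = P.mu y a b + P.mu y b c - 1 := by
    intro a b c s az bz cz ya yb yc
    have c1 := mu_cases ya s.a1 yb.symm
    have c2 := mu_cases ya s.a3.symm yc.symm
    have co := cocycle (p := y) (q := a) (s := b) (d := c) yb s.a3.symm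
    have f := B.four y a b c ⟨yz, az, bz, cz, ya, yb, yc, s.a1, s.a3.symm, s.a2⟩
    have := s.e
    omega
  obtain ⟨c0, d0, f0, g0⟩ := key p.s1 p.az p.bz p.cz ya yb yc
  obtain ⟨c1, d1, f1, g1⟩ := key p.s2 p.bz p.cz p.dz yb yc yd
  obtain ⟨c2, d2, f2, g2⟩ := key p.s3 p.cz p.dz p.ez yc yd ye
  obtain ⟨c3, d3, f3, g3⟩ := key p.s4 p.dz p.ez p.az yd ye ya
  obtain ⟨c4, d4, f4, g4⟩ := key p.s0 p.ez p.az p.bz ye ya yb
  have s : P.mu y a b + P.mu y b c + P.mu y c d + P.mu y d e + P.mu y e a = 2 := by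
    have := p.two
    have := ya.sh
    have := yb.sh
    have := yc.sh
    have := yd.sh
    have := ye.sh
    unfold mu
    omega
  have mk : ∀ {a b c d e : W}, P.Pz z a b c d e → P.Ad y b → P.Ad y e → P.Ad y c → P.Ad y d →
      P.mu y b c = 1 → P.mu y c d = 0 → P.mu y d e = 1 → P.Pz z y b c d e := by
    intro a b c d e p yb ye yc yd m1 m2 m3
    have t := p.two
    have t0 := p.s0.e
    have := yb.sh
    have := yc.sh
    have := yd.sh
    have := ye.sh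
    have := p.s0.a3.sh
    unfold mu at m1 m2 m3 t0
    exact ⟨⟨⟨ye.symm, yb, p.s0.a3, by unfold mu; omega⟩, ⟨yb, p.s2.a1, yc.symm, m1⟩, p.s2, p.s3,
      ⟨p.s4.a1, ye.symm, yd, by unfold mu; omega⟩, by omega⟩, yz, p.bz, p.cz, p.dz, p.ez⟩
  rcases pt_twin s c0 c1 c2 c3 c4 d0 d1 d2 d3 d4 f0 f1 f2 f3 f4 with t | t | t | t | t
  · exact Or.inl (mk p yb ye yc yd t.1 t.2.1 t.2.2)
  · exact Or.inr (Or.inl (mk p.rot yc ya yd ye t.1 t.2.1 t.2.2))
  · exact Or.inr (Or.inr (Or.inl (mk p.rot.rot yd yb ye ya t.1 t.2.1 t.2.2)))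
  · exact Or.inr (Or.inr (Or.inr (Or.inl (mk p.rot.rot.rot ye yc ya yb t.1 t.2.1 t.2.2))))
  · exact Or.inr (Or.inr (Or.inr (Or.inr (mk p.rot.rot.rot.rot ya yd yb yc t.1 t.2.1 t.2.2))))

/-- A violated clique through `y` inside `S` and `y`. -/
def Bad (P : PM W k r Fe) (z : W) (S : Finset W) (y : W) : Prop :=
  ∃ Q, P.Vi z Q ∧ y ∈ Q ∧ Q ⊆ insert y S

lemma Pz.step (p : P.Pz z a b c d e) (q : P.Pz z y b c d e) (B : P.Bd z) (h : P.Two a b c d e)
    (ay : P.Ad a y) : P.Bad z {a, b, c, d, e} y ∨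
      (P.Vi z {c, d, b, e} ∧ P.Two y b c d e ∧ 2 ≤ P.met b c d y) := by
  have hk : 5 ≤ k := by have := B.big; omega
  rcases tw_or p.s0.rot.rot q.s0.rot.rot ay p.bz p.ez p.az q.az with w | w
  swap
  · exact Or.inl ⟨_, w, by simp, by intro x; simp only [mem_insert, mem_singleton]; tauto⟩
  rcases q.own with w0 | w0
  swap
  · exact Or.inl ⟨_, w0, by simp, by intro x; simp only [mem_insert, mem_singleton]; tauto⟩
  rcases q.rot.rot.own with w2 | w2
  swap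
  · exact Or.inl ⟨_, w2, by simp, by intro x; simp only [mem_insert, mem_singleton]; tauto⟩
  rcases q.rot.rot.rot.own with w3 | w3
  swap
  · exact Or.inl ⟨_, w3, by simp, by intro x; simp only [mem_insert, mem_singleton]; tauto⟩
  rcases q.rot.rot.rot.rot.own with w4 | w4
  swap
  · exact Or.inl ⟨_, w4, by simp, by intro x; simp only [mem_insert, mem_singleton]; tauto⟩
  have t := p.toP5.keep q.toP5 hk h ay w w3 w4
  refine Or.inr ⟨?_, t, q.toP5.twice hk t w0 w2 w3 w4⟩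
  rcases q.rot.own with w1 | w1
  · exact (q.toP5.short hk t w0 w1 w2 w3 w4).elim
  · exact w1

lemma Pz.any (p : P.Pz z a b c d e) (B : P.Bd z) (h : P.Two a b c d e)
    (hy : y ∈ P.Dn z {a, b, c, d, e}) : P.Pz z y b c d e ∨ P.Bad z {a, b, c, d, e} y ∨
      ∃ Q, P.Vi z Q ∧ Q ⊆ {a, b, c, d, e} ∧ a ∈ Q := by
  have g := (mem_Dn.1 hy).2
  rcases p.twin B hy with q | q | q | q | q
  · exact Or.inl q
  · rcases p.rot.step q B h.rot (g b (by simp)).symm with w | w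
    · exact Or.inr (Or.inl (s5set a b c d e ▸ w))
    · exact Or.inr (Or.inr ⟨_, w.1, by intro x; simp only [mem_insert, mem_singleton]; tauto, by simp⟩)
  · rcases p.rot.rot.step q B h.rot.rot (g c (by simp)).symm with w | w
    · exact Or.inr (Or.inl (s5set a b c d e ▸ s5set b c d e a ▸ w))
    · exact Or.inr (Or.inr ⟨_, w.1, by intro x; simp only [mem_insert, mem_singleton]; tauto, by simp⟩)
  · rcases p.rot.rot.rot.step q B h.rot.rot.rot (g d (by simp)).symm with w | w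
    · exact Or.inr (Or.inl (s5set a b c d e ▸ s5set b c d e a ▸ s5set c d e a b ▸ w))
    · exact Or.inr (Or.inr ⟨_, w.1, by intro x; simp only [mem_insert, mem_singleton]; tauto, by simp⟩)
  · rcases p.rot.rot.rot.rot.step q B h.rot.rot.rot.rot (g e (by simp)).symm with w | w
    · exact Or.inr (Or.inl (s5set e a b c d ▸ w))
    · exact Or.inr (Or.inr ⟨_, w.1, by intro x; simp only [mem_insert, mem_singleton]; tauto, by simp⟩)

/-- Too many vertices are met twice. -/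
lemma Sh.twice (s : P.Sh b c d) (hk : 12 ≤ k) {C : Finset W} (hC : k ≤ C.card + 7)
    (h : ∀ y ∈ C, 2 ≤ P.met b c d y) : False := by
  have e1 : ∑ y, P.met b c d y = k - 4 := by
    unfold met
    rw [sum_add_distrib, sum_add_distrib, sum_ind, sum_ind, sum_ind]
    exact s.card
  have a1 : C.card • (2 : ℤ) ≤ ∑ y ∈ C, P.met b c d y := card_nsmul_le_sum C _ 2 h
  have a2 : ∑ y ∈ C, P.met b c d y ≤ ∑ y, P.met b c d y :=
    sum_le_sum_of_subset_of_nonneg (subset_univ C) fun y _ _ => P.met_nonneg b c d y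
  simp only [nsmul_eq_mul] at a1
  omega

omit [Fintype W] in
lemma Pz.na (p : P.Pz z a b c d e) : a ∉ ({c, d, b, e} : Finset W) := by
  simp only [mem_insert, mem_singleton, not_or]
  exact ⟨p.s1.a3.1, p.s4.a3.1.symm, p.s1.a1.1.symm, p.s0.a1.1⟩

lemma Pz.bad (p : P.Pz z a b c d e) (B : P.Bd z) (h : P.Two a b c d e) (v : P.Vi z {c, d, b, e})
    (hy : y ∈ P.Dn z {a, b, c, d, e}) (bad : P.Bad z {a, b, c, d, e} y) : False := by
  have hk : 5 ≤ k := by have := B.big; omega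
  obtain ⟨Q, q1, q2, q3⟩ := bad
  have sub : ({c, d, b, e} : Finset W) ⊆ {a, b, c, d, e} := by
    intro x; simp only [mem_insert, mem_singleton]; tauto
  have own : ∀ Q', P.Vi z Q' → Q' ⊆ {a, b, c, d, e} → a ∈ Q' → False := fun Q' v' s' m => by
    rcases B.three _ _ _ v q1 v' with g | g | g
    · exact Dn.not_mem hy (sub (g ▸ q2))
    · exact p.na (g ▸ m)
    · exact Dn.not_mem hy (s' (g ▸ q2))
  have ss : ∀ {p q s t : W}, p ∈ ({a, b, c, d, e} : Finset W) → q ∈ ({a, b, c, d, e} : Finset W) →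
      s ∈ ({a, b, c, d, e} : Finset W) → t ∈ ({a, b, c, d, e} : Finset W) →
      ({p, q, s, t} : Finset W) ⊆ {a, b, c, d, e} := fun h1 h2 h3 h4 =>
    insert_subset h1 (insert_subset h2 (insert_subset h3 (singleton_subset_iff.2 h4)))
  have ma : 2 ≤ P.met b c d a := p.toP5.twice hk h
    (p.own.resolve_right fun w => own _ w (ss (by simp) (by simp) (by simp) (by simp)) (by simp))
    (p.rot.rot.own.resolve_right fun w => own _ w (ss (by simp) (by simp) (by simp) (by simp)) (by simp))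
    (p.rot.rot.rot.own.resolve_right fun w =>
      own _ w (ss (by simp) (by simp) (by simp) (by simp)) (by simp))
    (p.rot.rot.rot.rot.own.resolve_right fun w =>
      own _ w (ss (by simp) (by simp) (by simp) (by simp)) (by simp))
  have nb : ∀ y' ∈ P.Dn z {a, b, c, d, e}, y' ≠ y → ¬ P.Bad z {a, b, c, d, e} y' :=
    fun y' hy' n ⟨Q', r1, r2, _⟩ => by
      rcases B.three _ _ _ v q1 r1 with g | g | g
      · exact Dn.not_mem hy (sub (g ▸ q2))
      · exact Dn.not_mem hy' (sub (g ▸ r2))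
      · rcases mem_insert.1 (q3 (g ▸ r2)) with g' | g'
        · exact n g'
        · exact Dn.not_mem hy' g'
  refine p.s2.twice B.big (C := insert a ((P.Dn z {a, b, c, d, e}).erase y)) ?_ fun y' hy' => ?_
  · rw [card_insert_of_notMem fun g => Dn.not_mem (mem_of_mem_erase g) (by simp),
      card_erase_add_one hy]
    exact B.cnt _ _ _ _ _ p
  rcases mem_insert.1 hy' with rfl | hy'
  · exact ma
  obtain ⟨n, hy'⟩ := mem_erase.1 hy'
  rcases p.any B h hy' with q | q | ⟨Q', r1, r2, r3⟩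
  · rcases p.step q B h ((mem_Dn.1 hy').2 a (by simp)).symm with w | w
    · exact (nb y' hy' n w).elim
    · exact w.2.2
  · exact (nb y' hy' n q).elim
  · exact (own Q' r1 r2 r3).elim

lemma Pz.good (p : P.Pz z a b c d e) (B : P.Bd z) (h : P.Two a b c d e)
    (nb : ∀ y ∈ P.Dn z {a, b, c, d, e}, ¬ P.Bad z {a, b, c, d, e} y)
    (hy : y ∈ P.Dn z {a, b, c, d, e}) (q : P.Pz z y b c d e) : False := by
  have sub : ({c, d, b, e} : Finset W) ⊆ {a, b, c, d, e} := by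
    intro x; simp only [mem_insert, mem_singleton]; tauto
  have st : ∀ y ∈ P.Dn z {a, b, c, d, e}, P.Pz z y b c d e →
      P.Vi z {c, d, b, e} ∧ P.Two y b c d e ∧ 2 ≤ P.met b c d y := fun y hy q =>
    (p.step q B h ((mem_Dn.1 hy).2 a (by simp)).symm).resolve_left (nb y hy)
  have cross : ∀ y ∈ P.Dn z {a, b, c, d, e}, P.Pz z y b c d e → ∀ y' ∈ P.Dn z {a, b, c, d, e},
      ¬ P.Pz z y' b c d e → ¬ P.Ad y' y := fun y hy q y' hy' n ad => by
    obtain ⟨v, t, -⟩ := st y hy q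
    obtain ⟨Q, r1, r2, r3⟩ := ((p.any B h hy').resolve_left n).resolve_left (nb y' hy')
    have fin : ∀ Q' u, P.Vi z Q' → u ∈ Q' → u ∈ P.Dn z {a, b, c, d, e} → False := fun Q' u v' m hu => by
      rcases B.three _ _ _ v r1 v' with g | g | g
      · exact p.na (g ▸ r3)
      · exact Dn.not_mem hu (sub (g ▸ m))
      · exact Dn.not_mem hu (r2 (g ▸ m))
    have hy'' : y' ∈ P.Dn z {y, b, c, d, e} := mem_Dn.2 ⟨(mem_Dn.1 hy').1, fun x hx => by
      rcases mem_insert.1 hx with rfl | hx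
      · exact ad
      · exact (mem_Dn.1 hy').2 x (mem_insert_of_mem hx)⟩
    rcases (q.any B t hy'').resolve_left n with ⟨Q', s1, s2, -⟩ | ⟨Q', s1, -, s2⟩
    · exact fin Q' y' s1 s2 hy'
    · exact fin Q' y s1 s2 hy
  have cnt := B.cnt _ _ _ _ _ p
  have hk := B.big
  by_cases all : ∀ y' ∈ P.Dn z {a, b, c, d, e}, P.Pz z y' b c d e
  · exact p.s2.twice hk cnt fun y' hy' => (st y' hy' (all y' hy')).2.2
  push Not at all
  obtain ⟨y', hy', n⟩ := all
  have : P.Dn z {a, b, c, d, e} ⊆ {y, y'} := fun u hu => by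
    have uz := (mem_Dn.1 hu).1
    have yz := (mem_Dn.1 hy).1
    have yz' := (mem_Dn.1 hy').1
    have ne : y ≠ y' := fun g => n (g ▸ q)
    simp only [mem_insert, mem_singleton]
    by_cases g : P.Pz z u b c d e
    · exact Or.inl (B.par y' u y yz' uz yz (fun e => n (e ▸ g)) ne (cross u hu g y' hy' n)
        (cross y hy q y' hy' n))
    · exact Or.inr (B.par y u y' yz uz yz' (fun e => g (e ▸ q)) ne.symm
        (fun ad => cross y hy q u hu g ad.symm) fun ad => cross y hy q y' hy' n ad.symm)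
  have := card_le_card this
  have := card_le_two (a := y) (b := y')
  omega

/-- Every pentagon goes the short way. -/
theorem Pz.no_two (p : P.Pz z a b c d e) (B : P.Bd z) : ¬ P.Two a b c d e := fun h => by
  have hk : 5 ≤ k := by have := B.big; omega
  have e1 := s5set a b c d e
  have e2 := (s5set b c d e a).trans e1
  have e3 := (s5set c d e a b).trans e2
  have e4 := (s5set d e a b c).trans e3
  by_cases g : ∃ y ∈ P.Dn z {a, b, c, d, e}, P.Bad z {a, b, c, d, e} y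
  · obtain ⟨y, hy, bad⟩ := g
    refine p.toP5.short hk h (p.own.resolve_right fun w => ?_) (p.rot.own.resolve_right fun w => ?_)
      (p.rot.rot.own.resolve_right fun w => ?_) (p.rot.rot.rot.own.resolve_right fun w => ?_)
      (p.rot.rot.rot.rot.own.resolve_right fun w => ?_)
    · exact p.rot.rot.rot.rot.bad B h.rot.rot.rot.rot w (e4 ▸ hy) (e4 ▸ bad)
    · exact p.bad B h w hy bad
    · exact p.rot.bad B h.rot w (e1 ▸ hy) (e1 ▸ bad)
    · exact p.rot.rot.bad B h.rot.rot w (e2 ▸ hy) (e2 ▸ bad)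
    · exact p.rot.rot.rot.bad B h.rot.rot.rot w (e3 ▸ hy) (e3 ▸ bad)
  push Not at g
  have cnt := B.cnt _ _ _ _ _ p
  have hk := B.big
  obtain ⟨y, hy⟩ : (P.Dn z {a, b, c, d, e}).Nonempty := card_pos.1 (by omega)
  rcases p.twin B hy with q | q | q | q | q
  · exact p.good B h g hy q
  · exact p.rot.good B h.rot (e1 ▸ g) (e1 ▸ hy) q
  · exact p.rot.rot.good B h.rot.rot (e2 ▸ g) (e2 ▸ hy) q
  · exact p.rot.rot.rot.good B h.rot.rot.rot (e3 ▸ g) (e3 ▸ hy) q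
  · exact p.rot.rot.rot.rot.good B h.rot.rot.rot.rot (e4 ▸ g) (e4 ▸ hy) q

end PM

end Pool.Agent.P.MP_3f5ded_co.UG
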