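import Pool.Agent.P.MP_3f5ded_co.CP2

set_option autoImplicit false

namespace Pool.Agent.P.MP_3f5ded_co.UG

open Finset
open scoped Classical

lemma pt_inv {α : Type} [Fintype α] (σ : α → α) (f : α → ℤ) (h2 : ∀ s, σ (σ s) = s)
    (h3 : ∀ s, 0 ≤ f s + f (σ s)) : 0 ≤ ∑ s, f s := by
  have e : ∑ s, f (σ s) = ∑ s, f s :=
    sum_nbij' σ σ (by simp) (by simp) (fun s _ => h2 s) (fun s _ => h2 s) fun _ _ => rfl
  have := sum_nonneg fun s (_ : s ∈ univ) => h3 s
  rw [sum_add_distrib, e] at this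
  omega

namespace PM
variable {W : Type} {k : ℕ} {r : ℝ} {Fe : W → W → Prop} (P : PM W k r Fe) (z : W)

/-- The number of arcs of the pentagon that meet `y`. -/
noncomputable def mt5 (a b c d e y : W) : ℤ :=
  ind (P.On a e y b) + ind (P.On b a y c) + ind (P.On c b y d) + ind (P.On d c y e) + ind (P.On e d y a)

/-- A pentagon and an adjacent twin of its first corner. -/
def Pt (a b c d e y : W) : Prop := P.Pz z a b c d e ∧ P.Pz z y b c d e ∧ P.Ad y a

/-- The excess of a twin of the first corner. -/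
noncomputable def Gt (a b c d e y : W) : ℤ := ind (P.Pt z a b c d e y) * (P.mt5 a b c d e y - 1)

/-- The excess of a common neighbour. -/
noncomputable def Gn [Fintype W] (a b c d e y : W) : ℤ :=
  ind (P.Pz z a b c d e ∧ y ∈ P.Dn z {a, b, c, d, e}) * (P.mt5 a b c d e y - 1)

variable {P z} {a b c d e x y : W}

lemma mt5_rot : P.mt5 b c d e a y = P.mt5 a b c d e y := by unfold mt5; ring

lemma mt5_nonneg : 0 ≤ P.mt5 a b c d e y :=
  add_nonneg (add_nonneg (add_nonneg (add_nonneg (ind_nonneg _) (ind_nonneg _)) (ind_nonneg _))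
    (ind_nonneg _)) (ind_nonneg _)

lemma Gt_pair (P : PM W k r Fe) (z a b c d e y : W) :
    0 ≤ P.Gt z a b c d e y + P.Gt z y b c d e a := by
  unfold Gt
  by_cases q : P.Pt z a b c d e y
  · rw [ind_pos q, ind_pos (show P.Pt z y b c d e a from ⟨q.2.1, q.1, q.2.2.symm⟩)]
    have := (twin q.1.s1.rot q.2.1.s1.rot q.2.2.1).1
    have := (twin q.1.s4 q.2.1.s4 q.2.2.1).2
    have := ind_nonneg (P.On a e y b)
    have := ind_nonneg (P.On c b y d)
    have := ind_nonneg (P.On d c y e)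
    have := ind_nonneg (P.On y e a b)
    have := ind_nonneg (P.On c b a d)
    have := ind_nonneg (P.On d c a e)
    unfold mt5
    omega
  · rw [ind_neg q, ind_neg fun q' : P.Pt z y b c d e a => q ⟨q'.2.1, q'.1, q'.2.2.symm⟩]
    omega

lemma Pt.val (P : PM W k r Fe) (z a b c d e y : W) : ind (P.Pt z a b c d e y) = 0 ∨
    (ind (P.Pt z a b c d e y) = 1 ∧ P.mu y b c = 1 ∧ P.mu y c d = 0 ∧ P.mu y d e = 1) := by
  rcases ind_cases (P.Pt z a b c d e y) with g | g
  · have q := g.1.2.1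
    have := q.two
    have := q.s1.e
    have := q.s4.rot.rot.e
    have := q.s1.a3.sh
    have := q.s4.a3.sh
    unfold mu at *
    omega
  · exact Or.inl g.2

variable [Fintype W]

lemma Pt.mem (q : P.Pt z a b c d e y) : y ∈ P.Dn z {a, b, c, d, e} := by
  refine mem_Dn.2 ⟨q.2.1.az, ?_⟩
  simp only [mem_insert, mem_singleton, forall_eq_or_imp, forall_eq]
  exact ⟨q.2.2, q.2.1.s1.a1, q.2.1.s1.a3.symm, q.2.1.s4.a3, q.2.1.s0.a1.symm⟩

lemma Gn_split (B : P.Bd z) (a b c d e y : W) : P.Gn z a b c d e y = P.Gt z a b c d e y +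
    P.Gt z b c d e a y + P.Gt z c d e a b y + P.Gt z d e a b c y + P.Gt z e a b c d y := by
  have e1 := s5set a b c d e
  have e2 := (s5set b c d e a).trans e1
  have e3 := (s5set c d e a b).trans e2
  have e4 := (s5set d e a b c).trans e3
  have key : ind (P.Pz z a b c d e ∧ y ∈ P.Dn z {a, b, c, d, e}) = ind (P.Pt z a b c d e y) +
      ind (P.Pt z b c d e a y) + ind (P.Pt z c d e a b y) + ind (P.Pt z d e a b c y) +
      ind (P.Pt z e a b c d y) := by
    by_cases p : P.Pz z a b c d e ∧ y ∈ P.Dn z {a, b, c, d, e}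
    · have g := (mem_Dn.1 p.2).2
      have ya := g a (by simp)
      have yb := g b (by simp)
      have yc := g c (by simp)
      have yd := g d (by simp)
      have ye := g e (by simp)
      have s : P.mu y a b + P.mu y b c + P.mu y c d + P.mu y d e + P.mu y e a = 2 := by
        have := p.1.two
        have := ya.sh
        have := yb.sh
        have := yc.sh
        have := yd.sh
        have := ye.sh
        unfold mu
        omega
      have t : ind (P.Pt z a b c d e y) = 1 ∨ ind (P.Pt z b c d e a y) = 1 ∨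
          ind (P.Pt z c d e a b y) = 1 ∨ ind (P.Pt z d e a b c y) = 1 ∨ ind (P.Pt z e a b c d y) = 1 :=
        (p.1.twin B p.2).imp (fun q => ind_pos ⟨p.1, q, ya⟩) (Or.imp (fun q => ind_pos ⟨p.1.rot, q, yb⟩)
          (Or.imp (fun q => ind_pos ⟨p.1.rot.rot, q, yc⟩) (Or.imp
            (fun q => ind_pos ⟨p.1.rot.rot.rot, q, yd⟩) fun q => ind_pos ⟨p.1.rot.rot.rot.rot, q, ye⟩)))
      have := Pt.val P z a b c d e y
      have := Pt.val P z b c d e a y
      have := Pt.val P z c d e a b y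
      have := Pt.val P z d e a b c y
      have := Pt.val P z e a b c d y
      rw [ind_pos p]
      omega
    · rw [ind_neg p, ind_neg fun q : P.Pt z a b c d e y => p ⟨q.1, q.mem⟩,
        ind_neg fun q : P.Pt z b c d e a y => p ⟨q.1.rot.rot.rot.rot, e1 ▸ q.mem⟩,
        ind_neg fun q : P.Pt z c d e a b y => p ⟨q.1.rot.rot.rot, e2 ▸ q.mem⟩,
        ind_neg fun q : P.Pt z d e a b c y => p ⟨q.1.rot.rot, e3 ▸ q.mem⟩,
        ind_neg fun q : P.Pt z e a b c d y => p ⟨q.1.rot, e4 ▸ q.mem⟩]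
      rfl
  unfold Gn Gt
  rw [key, mt5_rot (a := d), mt5_rot (a := c), mt5_rot (a := b), mt5_rot (a := a)]
  ring

lemma sum_on (h1 : c ≠ x) (h2 : d ≠ x) (h3 : c ≠ d) : ∑ y, ind (P.On x c y d) = P.st x c d - 1 := by
  obtain ⟨n, g⟩ := P.sur x c h1
  have := st_pos (P := P) h1 h2 h3
  rw [sum_ind, card_on g (st_spec h2 g).2.2 (by omega) (by omega)]
  ring

lemma Pz.sum (p : P.Pz z a b c d e) (B : P.Bd z) :
    ∑ y, P.Gn z a b c d e y + (P.Dn z {a, b, c, d, e}).card + 7 ≤ k := by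
  have hk := B.big
  obtain ⟨L, t, T, -⟩ := P.exists_tm p.s1.a1.1
  have s := (p.toP5.lap T (by omega)).1.resolve_right (p.no_two B)
  have e1 : ∑ y, P.mt5 a b c d e y = k - 7 := by
    unfold mt5
    simp only [sum_add_distrib]
    rw [sum_on p.s0.a1.1.symm p.s0.a2.1 p.s0.a3.1, sum_on p.s1.a1.1.symm p.s1.a2.1 p.s1.a3.1,
      sum_on p.s2.a1.1.symm p.s2.a2.1 p.s2.a3.1, sum_on p.s3.a1.1.symm p.s3.a2.1 p.s3.a3.1,
      sum_on p.s4.a1.1.symm p.s4.a2.1 p.s4.a3.1]
    unfold s5 at s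
    omega
  have e2 : ∑ y, P.Gn z a b c d e y = ∑ y ∈ P.Dn z {a, b, c, d, e}, (P.mt5 a b c d e y - 1) := by
    rw [← sum_subset (subset_univ (P.Dn z {a, b, c, d, e})) fun y _ hy => by
      rw [Gn, ind_neg fun g => hy g.2, zero_mul]]
    exact sum_congr rfl fun y hy => by rw [Gn, ind_pos ⟨p, hy⟩, one_mul]
  have e3 : ∑ y ∈ P.Dn z {a, b, c, d, e}, P.mt5 a b c d e y ≤ ∑ y, P.mt5 a b c d e y :=
    sum_le_sum_of_subset_of_nonneg (subset_univ _) fun y _ _ => mt5_nonneg
  rw [e2, sum_sub_distrib, sum_const, nsmul_eq_mul]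
  omega

/-- The pentagon count: every pentagon has few common neighbours. -/
theorem Pz.few (p : P.Pz z a b c d e) (B : P.Bd z) : (P.Dn z {a, b, c, d, e}).card + 7 ≤ k := by
  by_contra n
  have up : ∑ s : (W × W × W × W × W) × W,
      P.Gn z s.1.1 s.1.2.1 s.1.2.2.1 s.1.2.2.2.1 s.1.2.2.2.2 s.2 < 0 := by
    rw [Fintype.sum_prod_type]
    refine lt_of_lt_of_eq (sum_lt_sum (g := fun _ => 0) (fun x _ => ?_) ⟨(a, b, c, d, e), mem_univ _, ?_⟩)
      (by simp)
    · by_cases q : P.Pz z x.1 x.2.1 x.2.2.1 x.2.2.2.1 x.2.2.2.2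
      · have := q.sum B
        have := B.cnt _ _ _ _ _ q
        simp only
        omega
      · exact (sum_eq_zero fun y _ => by rw [Gn, ind_neg fun g => q g.1, zero_mul]).le
    · have := p.sum B
      simp only
      omega
  simp only [Gn_split B, sum_add_distrib] at up
  have i0 := pt_inv (fun s : (W × W × W × W × W) × W => ((s.2, s.1.2), s.1.1))
    (fun s => P.Gt z s.1.1 s.1.2.1 s.1.2.2.1 s.1.2.2.2.1 s.1.2.2.2.2 s.2)
    (fun _ => rfl) fun s => P.Gt_pair z _ _ _ _ _ _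
  have i1 := pt_inv (fun s : (W × W × W × W × W) × W => ((s.1.1, s.2, s.1.2.2), s.1.2.1))
    (fun s => P.Gt z s.1.2.1 s.1.2.2.1 s.1.2.2.2.1 s.1.2.2.2.2 s.1.1 s.2)
    (fun _ => rfl) fun s => P.Gt_pair z _ _ _ _ _ _
  have i2 := pt_inv (fun s : (W × W × W × W × W) × W => ((s.1.1, s.1.2.1, s.2, s.1.2.2.2), s.1.2.2.1))
    (fun s => P.Gt z s.1.2.2.1 s.1.2.2.2.1 s.1.2.2.2.2 s.1.1 s.1.2.1 s.2)
    (fun _ => rfl) fun s => P.Gt_pair z _ _ _ _ _ _
  have i3 := pt_inv
    (fun s : (W × W × W × W × W) × W => ((s.1.1, s.1.2.1, s.1.2.2.1, s.2, s.1.2.2.2.2), s.1.2.2.2.1))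
    (fun s => P.Gt z s.1.2.2.2.1 s.1.2.2.2.2 s.1.1 s.1.2.1 s.1.2.2.1 s.2)
    (fun _ => rfl) fun s => P.Gt_pair z _ _ _ _ _ _
  have i4 := pt_inv
    (fun s : (W × W × W × W × W) × W => ((s.1.1, s.1.2.1, s.1.2.2.1, s.1.2.2.2.1, s.2), s.1.2.2.2.2))
    (fun s => P.Gt z s.1.2.2.2.2 s.1.1 s.1.2.1 s.1.2.2.1 s.1.2.2.2.1 s.2)
    (fun _ => rfl) fun s => P.Gt_pair z _ _ _ _ _ _
  omega

lemma card_Dn (P : PM W k r Fe) (z : W) (S M : Finset W)
    (h : ∀ y, y ≠ z → y ∉ S → y ∉ M → ∀ x ∈ S, P.Ad y x) :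
    Fintype.card W ≤ S.card + M.card + (P.Dn z S).card + 1 := by
  have : (univ : Finset W) ⊆ insert z (S ∪ M ∪ P.Dn z S) := fun y _ => by
    simp only [mem_insert, mem_union, mem_Dn]
    by_contra g
    push Not at g
    obtain ⟨x, hx, n⟩ := g.2.2 g.1
    exact n (h y g.1 g.2.1.1 g.2.1.2 x hx)
  have := card_le_card this
  have := card_insert_le z (S ∪ M ∪ P.Dn z S)
  have := card_union_le (S ∪ M) (P.Dn z S)
  have := card_union_le S M
  rw [← card_univ]
  omega

end PM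

namespace St
open PM
variable {W : Type} [Fintype W] {k : ℕ} {r : ℝ} {Fe : W → W → Prop}
  {z a A b B : W} {R U : Finset W} (h : St k Fe z a A b B R) {P : PM W k r Fe} {v w : W}
include h

/-- The bounds of the count in the wound case. -/
lemma bd (hk : 12 ≤ k) (e : P.Wd R U v w) : P.Bd z := by
  refine ⟨hk, ?_, fun p q s d c => h.no_four e c, fun x y y' h1 h2 h3 h4 h5 n n' => ?_,
    fun p q s d t c => ?_⟩
  · rintro _ _ _ ⟨p, q, s, d, rfl, c, g⟩ ⟨p', q', s', d', rfl, c', g'⟩ ⟨p'', q'', s'', d'', rfl, c'', g''⟩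
    by_contra n
    push Not at n
    have := h.k4_three e c c' c'' n.1 n.2.1 n.2.2
    omega
  · have f := (h.fe x y h1 h2).1 (by_contra fun g => n ⟨h4, g⟩)
    have f' := (h.fe x y' h1 h3).1 (by_contra fun g => n' ⟨h5, g⟩)
    have := h.aA
    have := h.ab
    have := h.aB
    have := h.Ab
    have := h.AB
    have := h.bB
    rcases f with ⟨rfl, rfl⟩ | ⟨rfl, rfl⟩ | ⟨rfl, rfl⟩ | ⟨rfl, rfl⟩ <;>
      rcases f' with ⟨g, rfl⟩ | ⟨g, rfl⟩ | ⟨g, rfl⟩ | ⟨g, rfl⟩ <;> simp_all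
  · have := P.card_Dn z {p, q, s, d, t} {if a ∈ ({p, q, s, d, t} : Finset W) then A else a,
      if b ∈ ({p, q, s, d, t} : Finset W) then B else b} fun y yz yS yM x xS => by
      have xz : x ≠ z := by
        have := c.az
        have := c.bz
        have := c.cz
        have := c.dz
        have := c.ez
        simp only [mem_insert, mem_singleton] at xS
        rcases xS with rfl | rfl | rfl | rfl | rfl <;> assumption
      refine ⟨fun g => yS (g ▸ xS), fun g => yM ?_⟩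
      rcases (h.fe y x yz xz).1 g with ⟨rfl, rfl⟩ | ⟨rfl, rfl⟩ | ⟨rfl, rfl⟩ | ⟨rfl, rfl⟩
      · rw [if_neg yS]; exact mem_insert_self _ _
      · rw [if_pos xS]; exact mem_insert_self _ _
      · rw [if_neg yS]; exact mem_insert_of_mem (mem_singleton_self _)
      · rw [if_pos xS]; exact mem_insert_of_mem (mem_singleton_self _)
    have h5 : ({p, q, s, d, t} : Finset W).card ≤ 5 := card_le_five
    have h2 := card_le_two (a := if a ∈ ({p, q, s, d, t} : Finset W) then A else a)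
      (b := if b ∈ ({p, q, s, d, t} : Finset W) then B else b)
    have := h.cardW
    omega

lemma no_spl (hk : 12 ≤ k) (e : P.Wd R U v w) : ¬ P.Spl U a := by
  rintro ⟨x, hx, y, hy, s⟩
  have hv : v ∈ R := by simp [e.eq]
  have hw : w ∈ R := by simp [e.eq]
  have xR : x ∈ R := by simp [e.eq, hx]
  have yR : y ∈ R := by simp [e.eq, hy]
  have rz : ∀ u ∈ R, u ≠ z := fun u hu g => h.zR (g ▸ hu)
  have vw := h.adR P hv hw e.vw.symm
  have va := h.ada P hv
  have wa := h.ada P hw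
  have one := e.one
  have c0 := mu_cases vw wa va.symm
  have key : ∀ u ∈ U, P.Ad u v ∧ P.Ad u w ∧ P.sh u v = 0 ∧ P.sh w u = 0 ∧
      (P.sh u a = P.sh v a ∨ P.sh u a = P.sh w a ∨ P.sh v a = P.sh w a + 1) ∧
      P.sh u a ≤ P.sh w a + 1 ∧ P.sh v a ≤ P.sh u a + 1 := fun u hu => by
    have uR : u ∈ R := by simp [e.eq, hu]
    have n1 : u ≠ v := fun g => e.vU (g ▸ hu)
    have n2 : u ≠ w := fun g => e.wU (g ▸ hu)
    have uv := h.adR P uR hv n1.symm
    have uw := h.adR P uR hw n2.symm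
    have ua := h.ada P uR
    have z1 := e.zero v hv u hu n1
    have z2 := e.zero w hw u hu n2
    have f := h.no_four e (p := u) (q := v) (s := w) (d := a)
      ⟨rz u uR, rz v hv, rz w hw, h.za.symm, uv, uw, ua, vw, va, wa⟩
    have c1 := mu_cases uv va ua.symm
    have c2 := mu_cases uw wa ua.symm
    have := ua.sh
    have := va.sh
    unfold mu at f c1 c2
    exact ⟨uv, uw, z1.2, z2.1, by omega⟩
  obtain ⟨xv, xw, x1, x2, x3⟩ := key x hx
  obtain ⟨yv, yw, y1, y2, y3⟩ := key y hy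
  have z0 := e.zero x xR y hy s.a2.1
  have m := s.e
  have := s.a1.sh
  have := s.a3.sh
  have := va.sh
  have := wa.sh
  have := yv.sh
  unfold mu at m c0
  have p : P.Pz z v w y a x :=
    ⟨⟨⟨xv, vw, xw.symm, by unfold mu; omega⟩, ⟨vw, yw.symm, yv, by unfold mu; omega⟩,
      ⟨yw.symm, s.a3, wa.symm, by unfold mu; omega⟩, s.rot.rot, ⟨s.a1, xv, va, by unfold mu; omega⟩,
      by omega⟩, rz v hv, rz w hw, rz y yR, h.za.symm, rz x xR⟩
  have few := p.few (h.bd hk e)
  have := P.card_Dn z {v, w, y, a, x} {A} fun u uz uS uM t tS => by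
    refine ⟨fun g => uS (g ▸ tS), fun g => ?_⟩
    have tR : t = a ∨ t ∈ R := by
      simp only [mem_insert, mem_singleton] at tS
      rcases tS with rfl | rfl | rfl | rfl | rfl <;> simp [hv, hw, xR, yR]
    rcases tR with rfl | tR
    · rcases (h.fe u t uz h.za.symm).1 g with f | f | f | f
      · exact h.aA f.2
      · exact uM (mem_singleton.2 f.1)
      · exact h.aB f.2
      · exact h.ab f.2
    · rcases (h.fe u t uz (rz t tR)).1 g with f | f | f | f
      · exact h.AR (f.2 ▸ tR)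
      · exact h.aR (f.2 ▸ tR)
      · exact h.BR (f.2 ▸ tR)
      · exact h.bR (f.2 ▸ tR)
  have h5 : ({v, w, y, a, x} : Finset W).card ≤ 5 := card_le_five
  have := h.cardW
  rw [card_singleton] at *
  omega

end St

/-- Part (C): in the wound case no special vertex splits `U`, so the normal form holds. -/
theorem H4.nf {W : Type} [Fintype W] [DecidableEq W] {k : ℕ} {r : ℝ} {Fe : W → W → Prop}
    {R : Finset W} {z a A b B : W} (h : H4 k Fe R z a A b B) (P : PM W k r Fe) (n : ¬ P.NoSh R) :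
    ∃ (Q : PM W k r Fe) (U : Finset W) (v w a' A' b' B' : W), Q.NF U z v a' B' w b' A' := by
  cases Subsingleton.elim ‹DecidableEq W› fun a b => Classical.propDecidable (a = b)
  obtain ⟨j, U, v, w, d⟩ := h.st.exists_wd h.big P n
  obtain ⟨j', a', A', b', B', g⟩ := h.nf_unsplit d (h.st.no_spl h.big d) (h.st.swapA.no_spl h.big d)
    (h.st.swapP.no_spl h.big d) (h.st.swapP.swapA.no_spl h.big d)
  exact ⟨_, U, v, w, a', A', b', B', g⟩

end Pool.Agent.P.MP_3f5ded_co.UG
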