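import Mathlib

set_option autoImplicit false

namespace Pool.Agent.P.MP_3f5ded_co

/-- Relation between two ports at one vertex: classes `i, j` and offsets `o, p`. -/
def R (e : ℝ) (i : ℤ) (o : ℝ) (j : ℤ) (p : ℝ) : Prop :=
  i ≠ j ∧ (i < j → o ≤ p) ∧ (j < i → p ≤ o) ∧ o ≤ p + e ∧ p ≤ o + e

/-- The three relations among three ports at one vertex. -/
def R3 (e : ℝ) (i : ℤ) (o : ℝ) (j : ℤ) (p : ℝ) (l : ℤ) (q : ℝ) : Prop :=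
  R e i o j p ∧ R e i o l q ∧ R e j p l q

lemma core0 {e : ℝ} {ka kL kR ke2 ke3 kb kc kf1 kf2 kf3 kd kz1 kz2 kz3 kz4 : ℤ}
    {oa oL oR oe2 oe3 ob oc of1 of2 of3 od oz1 oz2 oz3 oz4 : ℝ}
    (hu1 : R3 e ka oa kL oL kz1 oz1)
    (hu2 : R3 e kR oR ke2 oe2 kz2 oz2)
    (hu3 : R3 e ke2 oe2 ke3 oe3 kz3 oz3)
    (hu4 : R3 e ke3 oe3 kb ob kz4 oz4)
    (hw1 : R3 e kc oc kf1 of1 kz2 oz2)
    (hw2 : R3 e kf1 of1 kf2 of2 kz4 oz4)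
    (hw3 : R3 e kf2 of2 kf3 of3 kz1 oz1)
    (hw4 : R3 e kf3 of3 kd od kz3 oz3)
    (s1 : (ka = kf2 ∧ kL = kf3) ∨ (ka = kf3 ∧ kL = kf2))
    (s2 : (kR = kc ∧ ke2 = kf1) ∨ (kR = kf1 ∧ ke2 = kc))
    (s3 : (ke2 = kf3 ∧ ke3 = kd) ∨ (ke2 = kd ∧ ke3 = kf3))
    (s4 : (ke3 = kf1 ∧ kb = kf2) ∨ (ke3 = kf2 ∧ kb = kf1))
    (he : 0 ≤ e) (hm : kR = kL) (hRL : oR ≤ oL + e) (hLR : oL ≤ oR + e) :
    ka = kb ∧ kc = kd ∧ oa - ob ≤ 3 * e ∧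
      ob - oa ≤ 3 * e ∧
      oc - od ≤ 2 * e ∧
      od - oc ≤ 2 * e ∧
      (oa - ob) + (oc - od) ≤ 4 * e ∧
      (oa - ob) + (od - oc) ≤ 4 * e ∧
      (ob - oa) + (oc - od) ≤ 4 * e ∧
      (ob - oa) + (od - oc) ≤ 4 * e := by
  rcases s1 with ⟨a1, b1⟩ | ⟨a1, b1⟩ <;> rcases s2 with ⟨a2, b2⟩ | ⟨a2, b2⟩ <;>
    rcases s3 with ⟨a3, b3⟩ | ⟨a3, b3⟩ <;> rcases s4 with ⟨a4, b4⟩ | ⟨a4, b4⟩
  · exact absurd (by omega) hu2.1.1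
  · exact absurd (by omega) hu2.1.1
  · exact absurd (by omega) hu2.1.1
  · exact absurd (by omega) hu1.1.1
  · exact absurd (by omega) hu2.1.1
  · exact absurd (by omega) hu2.1.1
  · refine ⟨by omega, by omega, ?_, ?_, ?_, ?_, ?_, ?_, ?_, ?_⟩
    · rcases lt_or_gt_of_ne hu1.2.1.1 with hc | hc
      · linarith only [hu4.2.2.2.2.2.2, hw2.2.2.2.2.2.1, hw3.2.1.2.2.2.2, hu1.2.1.2.1 (by omega), he]
      · linarith only [hu4.2.2.2.2.2.2, hw2.2.2.2.2.2.1, hw3.2.1.2.2.1 (by omega), hu1.2.1.2.2.2.1, he]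
    · rcases lt_or_gt_of_ne hu1.2.1.1 with hc | hc
      · linarith only [hu1.2.1.2.2.2.2, hw3.2.1.2.1 (by omega), hw2.2.2.2.2.2.2, hu4.2.2.2.2.2.1, he]
      · linarith only [hu1.2.1.2.2.1 (by omega), hw3.2.1.2.2.2.1, hw2.2.2.2.2.2.2, hu4.2.2.2.2.2.1, he]
    · rcases lt_or_gt_of_ne hu1.1.1 with hc | hc
      · rcases lt_or_gt_of_ne hu2.1.1 with hc | hc
        · linarith only [hw4.1.2.1 (by omega), hw3.1.2.1 (by omega), hw2.1.2.2.2.1, hw1.1.2.2.2.1, he]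
        · linarith only [hw4.1.2.2.2.1, hw3.1.2.1 (by omega), hw2.1.2.2.2.1, hw1.1.2.1 (by omega), he]
      · rcases lt_or_gt_of_ne hu2.1.1 with hc | hc
        · linarith only [hw4.1.2.1 (by omega), hw3.1.2.2.2.1, hw2.1.2.1 (by omega), hw1.1.2.2.2.1, he]
        · linarith only [hw4.1.2.2.2.1, hw3.1.2.2.2.1, hw2.1.2.1 (by omega), hw1.1.2.1 (by omega), he]
    · rcases lt_or_gt_of_ne hu1.1.1 with hc | hc
      · rcases lt_or_gt_of_ne hu2.1.1 with hc | hc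
        · linarith only [hw1.1.2.2.1 (by omega), hw2.1.2.2.1 (by omega), hw3.1.2.2.2.2, hw4.1.2.2.2.2, he]
        · linarith only [hw1.1.2.2.2.2, hw2.1.2.2.1 (by omega), hw3.1.2.2.2.2, hw4.1.2.2.1 (by omega), he]
      · rcases lt_or_gt_of_ne hu2.1.1 with hc | hc
        · linarith only [hw1.1.2.2.1 (by omega), hw2.1.2.2.2.2, hw3.1.2.2.1 (by omega), hw4.1.2.2.2.2, he]
        · linarith only [hw1.1.2.2.2.2, hw2.1.2.2.2.2, hw3.1.2.2.1 (by omega), hw4.1.2.2.1 (by omega), he]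
    · rcases lt_or_gt_of_ne hu1.1.1 with hc | hc
      · rcases lt_or_gt_of_ne hu1.2.1.1 with hc | hc
        · rcases lt_or_gt_of_ne hu2.1.1 with hc | hc
          · linarith only [hu4.2.2.2.2.2.2, hw2.2.1.2.2.2.1, hw1.1.2.2.2.1, hw4.1.2.1 (by omega), hw3.2.2.2.2.2.2, hu1.2.1.2.1 (by omega), he]
          · linarith only [hu4.2.2.2.2.2.2, hw2.2.1.2.2.2.1, hw1.1.2.1 (by omega), hw4.1.2.2.2.1, hw3.2.2.2.2.2.2, hu1.2.1.2.1 (by omega), he]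
        · rcases lt_or_gt_of_ne hu2.1.1 with hc | hc
          · linarith only [hu4.2.2.2.2.2.2, hw2.2.1.2.2.2.1, hw1.1.2.2.2.1, hw4.1.2.1 (by omega), hw3.2.2.2.2.1 (by omega), hu1.2.1.2.2.2.1, he]
          · linarith only [hu4.2.2.2.2.2.2, hw2.2.1.2.2.2.1, hw1.1.2.1 (by omega), hw4.1.2.2.2.1, hw3.2.2.2.2.1 (by omega), hu1.2.1.2.2.2.1, he]
      · rcases lt_or_gt_of_ne hu2.1.1 with hc | hc
        · rcases lt_or_gt_of_ne hu2.2.2.1 with hc | hc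
          · linarith only [hu4.1.2.1 (by omega), hu3.1.2.2.2.1, hu2.2.2.2.2.2.2, hw1.2.1.2.1 (by omega), hw4.1.2.1 (by omega), hw3.2.2.2.2.2.2, hu1.2.1.2.2.2.1, he]
          · linarith only [hu4.1.2.1 (by omega), hu3.1.2.2.2.1, hu2.2.2.2.2.1 (by omega), hw1.2.1.2.2.2.1, hw4.1.2.1 (by omega), hw3.2.2.2.2.2.2, hu1.2.1.2.2.2.1, he]
        · rcases lt_or_gt_of_ne hu2.2.2.1 with hc | hc
          · linarith only [hu4.1.2.1 (by omega), hu3.1.2.1 (by omega), hu2.2.2.2.2.2.2, hw1.2.1.2.1 (by omega), hw4.1.2.2.2.1, hw3.2.2.2.2.2.2, hu1.2.1.2.2.2.1, he]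
          · linarith only [hu4.1.2.1 (by omega), hu3.1.2.1 (by omega), hu2.2.2.2.2.1 (by omega), hw1.2.1.2.2.2.1, hw4.1.2.2.2.1, hw3.2.2.2.2.2.2, hu1.2.1.2.2.2.1, he]
    · rcases lt_or_gt_of_ne hu1.1.1 with hc | hc
      · rcases lt_or_gt_of_ne hu1.2.1.1 with hc | hc
        · rcases lt_or_gt_of_ne hu2.1.1 with hc | hc
          · linarith only [hu4.1.2.2.2.1, hu3.2.2.2.2.2.2, hw4.2.2.2.2.2.1, hw1.1.2.2.1 (by omega), hw2.1.2.2.1 (by omega), hw3.2.1.2.2.2.2, hu1.2.1.2.1 (by omega), he]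
          · rcases lt_or_gt_of_ne hu3.2.1.1 with hc | hc
            · linarith only [hu4.1.2.2.2.1, hu3.2.2.2.2.2.2, hw4.2.2.2.1 (by omega), hw1.1.2.2.2.2, hw2.1.2.2.1 (by omega), hw3.2.1.2.2.2.2, hu1.2.1.2.1 (by omega), he]
            · linarith only [hu4.1.2.2.2.1, hu3.2.2.2.2.1 (by omega), hw4.2.2.2.2.2.1, hw1.1.2.2.2.2, hw2.1.2.2.1 (by omega), hw3.2.1.2.2.2.2, hu1.2.1.2.1 (by omega), he]
        · rcases lt_or_gt_of_ne hu2.1.1 with hc | hc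
          · linarith only [hu4.1.2.2.2.1, hu3.2.2.2.2.2.2, hw4.2.2.2.2.2.1, hw1.1.2.2.1 (by omega), hw2.1.2.2.1 (by omega), hw3.2.1.2.2.1 (by omega), hu1.2.1.2.2.2.1, he]
          · rcases lt_or_gt_of_ne hu3.2.1.1 with hc | hc
            · linarith only [hu4.1.2.2.2.1, hu3.2.2.2.2.2.2, hw4.2.2.2.1 (by omega), hw1.1.2.2.2.2, hw2.1.2.2.1 (by omega), hw3.2.1.2.2.1 (by omega), hu1.2.1.2.2.2.1, he]
            · linarith only [hu4.1.2.2.2.1, hu3.2.2.2.2.1 (by omega), hw4.2.2.2.2.2.1, hw1.1.2.2.2.2, hw2.1.2.2.1 (by omega), hw3.2.1.2.2.1 (by omega), hu1.2.1.2.2.2.1, he]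
      · rcases lt_or_gt_of_ne hu1.2.1.1 with hc | hc
        · rcases lt_or_gt_of_ne hu2.1.1 with hc | hc
          · linarith only [hu4.1.2.1 (by omega), hu3.2.2.2.2.2.2, hw4.2.2.2.2.2.1, hw1.1.2.2.1 (by omega), hw2.1.2.2.2.2, hw3.2.1.2.2.2.2, hu1.2.1.2.1 (by omega), he]
          · rcases lt_or_gt_of_ne hu3.2.1.1 with hc | hc
            · linarith only [hu4.1.2.1 (by omega), hu3.2.2.2.2.2.2, hw4.2.2.2.1 (by omega), hw1.1.2.2.2.2, hw2.1.2.2.2.2, hw3.2.1.2.2.2.2, hu1.2.1.2.1 (by omega), he]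
            · linarith only [hu4.1.2.1 (by omega), hu3.2.2.2.2.1 (by omega), hw4.2.1.2.2.2.1, hw3.2.2.2.2.2.2, hu1.2.1.2.1 (by omega), hw1.1.2.2.2.2, hw2.1.2.2.2.2, hw3.1.2.2.1 (by omega), hw4.1.2.2.1 (by omega), he]
        · rcases lt_or_gt_of_ne hu2.1.1 with hc | hc
          · linarith only [hu4.1.2.1 (by omega), hu3.2.2.2.2.2.2, hw4.2.2.2.2.2.1, hw1.1.2.2.1 (by omega), hw2.1.2.2.2.2, hw3.2.1.2.2.1 (by omega), hu1.2.1.2.2.2.1, he]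
          · rcases lt_or_gt_of_ne hu3.2.1.1 with hc | hc
            · linarith only [hu4.1.2.1 (by omega), hu3.2.2.2.2.2.2, hw4.2.2.2.1 (by omega), hw1.1.2.2.2.2, hw2.1.2.2.2.2, hw3.2.1.2.2.1 (by omega), hu1.2.1.2.2.2.1, he]
            · linarith only [hu4.1.2.1 (by omega), hu3.2.2.2.2.1 (by omega), hw4.2.2.2.2.2.1, hw1.1.2.2.2.2, hw2.1.2.2.2.2, hw3.2.1.2.2.1 (by omega), hu1.2.1.2.2.2.1, he]
    · rcases lt_or_gt_of_ne hu1.1.1 with hc | hc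
      · rcases lt_or_gt_of_ne hu1.2.1.1 with hc | hc
        · rcases lt_or_gt_of_ne hu2.1.1 with hc | hc
          · rcases lt_or_gt_of_ne hu3.2.1.1 with hc | hc
            · linarith only [hu1.2.1.2.2.2.2, hw3.2.1.2.1 (by omega), hw2.1.2.2.2.1, hw1.1.2.2.2.1, hw4.2.2.2.2.2.2, hu3.2.2.2.1 (by omega), hu4.1.2.2.1 (by omega), he]
            · linarith only [hu1.2.1.2.2.2.2, hw3.2.1.2.1 (by omega), hw2.1.2.2.2.1, hw1.1.2.2.2.1, hw4.2.2.2.2.1 (by omega), hu3.2.2.2.2.2.1, hu4.1.2.2.1 (by omega), he]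
          · linarith only [hu1.2.1.2.2.2.2, hw3.2.1.2.1 (by omega), hw2.1.2.2.2.1, hw1.1.2.1 (by omega), hw4.2.2.2.2.2.2, hu3.2.2.2.2.2.1, hu4.1.2.2.1 (by omega), he]
        · rcases lt_or_gt_of_ne hu2.1.1 with hc | hc
          · rcases lt_or_gt_of_ne hu3.2.1.1 with hc | hc
            · linarith only [hu1.2.1.2.2.1 (by omega), hw3.2.2.2.2.2.1, hw4.2.1.2.2.2.2, hu3.2.2.2.1 (by omega), hu4.1.2.2.1 (by omega), hw4.1.2.1 (by omega), hw3.1.2.1 (by omega), hw2.1.2.2.2.1, hw1.1.2.2.2.1, he]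
            · linarith only [hu1.2.1.2.2.1 (by omega), hw3.2.1.2.2.2.1, hw2.1.2.2.2.1, hw1.1.2.2.2.1, hw4.2.2.2.2.1 (by omega), hu3.2.2.2.2.2.1, hu4.1.2.2.1 (by omega), he]
          · linarith only [hu1.2.1.2.2.1 (by omega), hw3.2.1.2.2.2.1, hw2.1.2.2.2.1, hw1.1.2.1 (by omega), hw4.2.2.2.2.2.2, hu3.2.2.2.2.2.1, hu4.1.2.2.1 (by omega), he]
      · rcases lt_or_gt_of_ne hu1.2.1.1 with hc | hc
        · rcases lt_or_gt_of_ne hu2.1.1 with hc | hc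
          · rcases lt_or_gt_of_ne hu3.2.1.1 with hc | hc
            · linarith only [hu1.2.1.2.2.2.2, hw3.2.1.2.1 (by omega), hw2.1.2.1 (by omega), hw1.1.2.2.2.1, hw4.2.2.2.2.2.2, hu3.2.2.2.1 (by omega), hu4.1.2.2.2.2, he]
            · linarith only [hu1.2.1.2.2.2.2, hw3.2.1.2.1 (by omega), hw2.1.2.1 (by omega), hw1.1.2.2.2.1, hw4.2.2.2.2.1 (by omega), hu3.2.2.2.2.2.1, hu4.1.2.2.2.2, he]
          · linarith only [hu1.2.1.2.2.2.2, hw3.2.1.2.1 (by omega), hw2.1.2.1 (by omega), hw1.1.2.1 (by omega), hw4.2.2.2.2.2.2, hu3.2.2.2.2.2.1, hu4.1.2.2.2.2, he]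
        · rcases lt_or_gt_of_ne hu2.1.1 with hc | hc
          · rcases lt_or_gt_of_ne hu3.2.1.1 with hc | hc
            · linarith only [hu1.2.1.2.2.1 (by omega), hw3.2.1.2.2.2.1, hw2.1.2.1 (by omega), hw1.1.2.2.2.1, hw4.2.2.2.2.2.2, hu3.2.2.2.1 (by omega), hu4.1.2.2.2.2, he]
            · linarith only [hu1.2.1.2.2.1 (by omega), hw3.2.1.2.2.2.1, hw2.1.2.1 (by omega), hw1.1.2.2.2.1, hw4.2.2.2.2.1 (by omega), hu3.2.2.2.2.2.1, hu4.1.2.2.2.2, he]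
          · linarith only [hu1.2.1.2.2.1 (by omega), hw3.2.1.2.2.2.1, hw2.1.2.1 (by omega), hw1.1.2.1 (by omega), hw4.2.2.2.2.2.2, hu3.2.2.2.2.2.1, hu4.1.2.2.2.2, he]
    · rcases lt_or_gt_of_ne hu1.1.1 with hc | hc
      · rcases lt_or_gt_of_ne hu2.1.1 with hc | hc
        · rcases lt_or_gt_of_ne hu2.2.2.1 with hc | hc
          · linarith only [hu1.2.1.2.2.2.2, hw3.2.2.2.2.2.1, hw4.1.2.2.2.2, hw1.2.1.2.2.2.2, hu2.2.2.2.1 (by omega), hu3.1.2.2.1 (by omega), hu4.1.2.2.1 (by omega), he]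
          · linarith only [hu1.2.1.2.2.2.2, hw3.2.2.2.2.2.1, hw4.1.2.2.2.2, hw1.2.1.2.2.1 (by omega), hu2.2.2.2.2.2.1, hu3.1.2.2.1 (by omega), hu4.1.2.2.1 (by omega), he]
        · rcases lt_or_gt_of_ne hu2.2.2.1 with hc | hc
          · linarith only [hu1.2.1.2.2.2.2, hw3.2.2.2.2.2.1, hw4.1.2.2.1 (by omega), hw1.2.1.2.2.2.2, hu2.2.2.2.1 (by omega), hu3.1.2.2.2.2, hu4.1.2.2.1 (by omega), he]
          · linarith only [hu1.2.1.2.2.2.2, hw3.2.2.2.2.2.1, hw4.1.2.2.1 (by omega), hw1.2.1.2.2.1 (by omega), hu2.2.2.2.2.2.1, hu3.1.2.2.2.2, hu4.1.2.2.1 (by omega), he]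
      · rcases lt_or_gt_of_ne hu1.2.1.1 with hc | hc
        · rcases lt_or_gt_of_ne hu2.1.1 with hc | hc
          · linarith only [hu1.2.1.2.2.2.2, hw3.2.2.2.1 (by omega), hw4.1.2.2.2.2, hw1.1.2.2.1 (by omega), hw2.2.1.2.2.2.2, hu4.2.2.2.2.2.1, he]
          · linarith only [hu1.2.1.2.2.2.2, hw3.2.2.2.1 (by omega), hw4.1.2.2.1 (by omega), hw1.1.2.2.2.2, hw2.2.1.2.2.2.2, hu4.2.2.2.2.2.1, he]
        · rcases lt_or_gt_of_ne hu2.1.1 with hc | hc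
          · linarith only [hu1.2.1.2.2.1 (by omega), hw3.2.2.2.2.2.1, hw4.1.2.2.2.2, hw1.1.2.2.1 (by omega), hw2.2.1.2.2.2.2, hu4.2.2.2.2.2.1, he]
          · linarith only [hu1.2.1.2.2.1 (by omega), hw3.2.2.2.2.2.1, hw4.1.2.2.1 (by omega), hw1.1.2.2.2.2, hw2.2.1.2.2.2.2, hu4.2.2.2.2.2.1, he]
  · exact absurd (by omega) hu1.1.1
  · exact absurd (by omega) hu3.1.1
  · refine ⟨by omega, by omega, ?_, ?_, ?_, ?_, ?_, ?_, ?_, ?_⟩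
    · rcases lt_or_gt_of_ne hu1.1.1 with hc | hc
      · linarith only [hu4.1.2.2.2.1, hu3.1.2.1 (by omega), hu2.1.2.2.2.1, hLR, hu1.1.2.1 (by omega), he]
      · linarith only [hu4.1.2.1 (by omega), hu3.1.2.2.2.1, hu2.1.2.1 (by omega), hLR, hu1.1.2.2.2.1, he]
    · rcases lt_or_gt_of_ne hu1.1.1 with hc | hc
      · linarith only [hu1.1.2.2.2.2, hRL, hu2.1.2.2.1 (by omega), hu3.1.2.2.2.2, hu4.1.2.2.1 (by omega), he]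
      · linarith only [hu1.1.2.2.1 (by omega), hRL, hu2.1.2.2.2.2, hu3.1.2.2.1 (by omega), hu4.1.2.2.2.2, he]
    · rcases lt_or_gt_of_ne hu1.1.1 with hc | hc
      · linarith only [hw4.1.2.1 (by omega), hw3.1.2.2.2.1, hw2.1.2.1 (by omega), hw1.1.2.2.2.1, he]
      · linarith only [hw4.1.2.2.2.1, hw3.1.2.1 (by omega), hw2.1.2.2.2.1, hw1.1.2.1 (by omega), he]
    · rcases lt_or_gt_of_ne hu1.1.1 with hc | hc
      · linarith only [hw1.1.2.2.1 (by omega), hw2.1.2.2.2.2, hw3.1.2.2.1 (by omega), hw4.1.2.2.2.2, he]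
      · linarith only [hw1.1.2.2.2.2, hw2.1.2.2.1 (by omega), hw3.1.2.2.2.2, hw4.1.2.2.1 (by omega), he]
    · rcases lt_or_gt_of_ne hu1.1.1 with hc | hc
      · rcases lt_or_gt_of_ne hu1.2.1.1 with hc | hc
        · linarith only [hu4.2.2.2.2.2.2, hw2.2.1.2.2.2.1, hw1.1.2.2.2.1, hw4.1.2.1 (by omega), hw3.2.2.2.2.2.2, hu1.2.1.2.1 (by omega), he]
        · linarith only [hu4.2.2.2.2.2.2, hw2.2.1.2.2.2.1, hw1.1.2.2.2.1, hw4.1.2.1 (by omega), hw3.2.2.2.2.1 (by omega), hu1.2.1.2.2.2.1, he]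
      · rcases lt_or_gt_of_ne hu1.2.1.1 with hc | hc
        · linarith only [hu4.2.2.2.2.2.2, hw2.2.1.2.2.2.1, hw1.1.2.1 (by omega), hw4.1.2.2.2.1, hw3.2.2.2.2.2.2, hu1.2.1.2.1 (by omega), he]
        · linarith only [hu4.2.2.2.2.2.2, hw2.2.1.2.2.2.1, hw1.1.2.1 (by omega), hw4.1.2.2.2.1, hw3.2.2.2.2.1 (by omega), hu1.2.1.2.2.2.1, he]
    · rcases lt_or_gt_of_ne hu1.1.1 with hc | hc
      · rcases lt_or_gt_of_ne hu1.2.1.1 with hc | hc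
        · rcases lt_or_gt_of_ne hu3.2.2.1 with hc | hc
          · linarith only [hu4.1.2.2.2.1, hu3.2.2.2.2.2.2, hw4.2.2.2.1 (by omega), hw1.1.2.2.1 (by omega), hw2.1.2.2.2.2, hw3.2.1.2.2.2.2, hu1.2.1.2.1 (by omega), he]
          · linarith only [hu4.1.2.2.2.1, hu3.2.2.2.2.1 (by omega), hw4.2.2.2.2.2.1, hw1.1.2.2.1 (by omega), hw2.1.2.2.2.2, hw3.2.1.2.2.2.2, hu1.2.1.2.1 (by omega), he]
        · rcases lt_or_gt_of_ne hu3.2.2.1 with hc | hc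
          · linarith only [hu4.1.2.2.2.1, hu3.2.2.2.2.2.2, hw4.2.2.2.1 (by omega), hw1.1.2.2.1 (by omega), hw2.1.2.2.2.2, hw3.2.1.2.2.1 (by omega), hu1.2.1.2.2.2.1, he]
          · linarith only [hu4.1.2.2.2.1, hu3.2.2.2.2.1 (by omega), hw4.2.2.2.2.2.1, hw1.1.2.2.1 (by omega), hw2.1.2.2.2.2, hw3.2.1.2.2.1 (by omega), hu1.2.1.2.2.2.1, he]
      · rcases lt_or_gt_of_ne hu3.2.2.1 with hc | hc
        · linarith only [hu4.1.2.1 (by omega), hu3.2.2.2.2.2.2, hw4.2.2.2.1 (by omega), hw1.1.2.2.2.2, hw2.1.2.2.1 (by omega), hw3.2.1.2.2.2.2, hu1.2.1.2.2.2.1, he]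
        · linarith only [hu4.1.2.1 (by omega), hu3.2.2.2.2.1 (by omega), hw4.2.2.2.2.2.1, hw1.1.2.2.2.2, hw2.1.2.2.1 (by omega), hw3.2.1.2.2.2.2, hu1.2.1.2.2.2.1, he]
    · rcases lt_or_gt_of_ne hu1.1.1 with hc | hc
      · rcases lt_or_gt_of_ne hu3.2.2.1 with hc | hc
        · linarith only [hu1.2.1.2.2.2.2, hw3.2.1.2.2.2.1, hw2.1.2.1 (by omega), hw1.1.2.2.2.1, hw4.2.2.2.2.2.2, hu3.2.2.2.1 (by omega), hu4.1.2.2.1 (by omega), he]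
        · linarith only [hu1.2.1.2.2.2.2, hw3.2.1.2.2.2.1, hw2.1.2.1 (by omega), hw1.1.2.2.2.1, hw4.2.2.2.2.1 (by omega), hu3.2.2.2.2.2.1, hu4.1.2.2.1 (by omega), he]
      · rcases lt_or_gt_of_ne hu1.2.1.1 with hc | hc
        · rcases lt_or_gt_of_ne hu3.2.2.1 with hc | hc
          · linarith only [hu1.2.1.2.2.2.2, hw3.2.1.2.1 (by omega), hw2.1.2.2.2.1, hw1.1.2.1 (by omega), hw4.2.2.2.2.2.2, hu3.2.2.2.1 (by omega), hu4.1.2.2.2.2, he]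
          · linarith only [hu1.2.1.2.2.2.2, hw3.2.1.2.1 (by omega), hw2.1.2.2.2.1, hw1.1.2.1 (by omega), hw4.2.2.2.2.1 (by omega), hu3.2.2.2.2.2.1, hu4.1.2.2.2.2, he]
        · rcases lt_or_gt_of_ne hu3.2.2.1 with hc | hc
          · linarith only [hu1.2.1.2.2.1 (by omega), hw3.2.1.2.2.2.1, hw2.1.2.2.2.1, hw1.1.2.1 (by omega), hw4.2.2.2.2.2.2, hu3.2.2.2.1 (by omega), hu4.1.2.2.2.2, he]
          · linarith only [hu1.2.1.2.2.1 (by omega), hw3.2.1.2.2.2.1, hw2.1.2.2.2.1, hw1.1.2.1 (by omega), hw4.2.2.2.2.1 (by omega), hu3.2.2.2.2.2.1, hu4.1.2.2.2.2, he]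
    · rcases lt_or_gt_of_ne hu1.1.1 with hc | hc
      · rcases lt_or_gt_of_ne hu1.2.1.1 with hc | hc
        · linarith only [hu1.2.1.2.2.2.2, hw3.2.2.2.1 (by omega), hw4.1.2.2.2.2, hw1.1.2.2.1 (by omega), hw2.2.1.2.2.2.2, hu4.2.2.2.2.2.1, he]
        · linarith only [hu1.2.1.2.2.1 (by omega), hw3.2.2.2.2.2.1, hw4.1.2.2.2.2, hw1.1.2.2.1 (by omega), hw2.2.1.2.2.2.2, hu4.2.2.2.2.2.1, he]
      · rcases lt_or_gt_of_ne hu1.2.1.1 with hc | hc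
        · linarith only [hu1.2.1.2.2.2.2, hw3.2.2.2.1 (by omega), hw4.1.2.2.1 (by omega), hw1.1.2.2.2.2, hw2.2.1.2.2.2.2, hu4.2.2.2.2.2.1, he]
        · linarith only [hu1.2.1.2.2.1 (by omega), hw3.2.2.2.2.2.1, hw4.1.2.2.1 (by omega), hw1.1.2.2.2.2, hw2.2.1.2.2.2.2, hu4.2.2.2.2.2.1, he]
  · exact absurd (by omega) hu3.1.1
  · exact absurd (by omega) hu1.1.1
  · exact absurd (by omega) hu4.1.1
  · exact absurd (by omega) hu4.1.1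
  · exact absurd (by omega) hu1.1.1
  · exact absurd (by omega) hu1.1.1

lemma core1 {e : ℝ} {ka kL kR ke2 ke3 kb kc kf1 kf2 kf3 kd kz1 kz2 kz3 kz4 : ℤ}
    {oa oL oR oe2 oe3 ob oc of1 of2 of3 od oz1 oz2 oz3 oz4 : ℝ}
    (hu1 : R3 e ka oa kL oL kz1 oz1)
    (hu2 : R3 e kR oR ke2 oe2 kz2 oz2)
    (hu3 : R3 e ke2 oe2 ke3 oe3 kz3 oz3)
    (hu4 : R3 e ke3 oe3 kb ob kz4 oz4)
    (hw1 : R3 e kc oc kf1 of1 kz2 oz2)
    (hw2 : R3 e kf1 of1 kf2 of2 kz4 oz4)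
    (hw3 : R3 e kf2 of2 kf3 of3 kz1 oz1)
    (hw4 : R3 e kf3 of3 kd od kz3 oz3)
    (s1 : (ka = kf2 ∧ kL = kf3) ∨ (ka = kf3 ∧ kL = kf2))
    (s2 : (kR = kc ∧ ke2 = kf1) ∨ (kR = kf1 ∧ ke2 = kc))
    (s3 : (ke2 = kf3 ∧ ke3 = kd) ∨ (ke2 = kd ∧ ke3 = kf3))
    (s4 : (ke3 = kf1 ∧ kb = kf2) ∨ (ke3 = kf2 ∧ kb = kf1))
    (he : 0 ≤ e) (hm : kR = kL + 1) : oL - oR ≤ 3 * e := by
  rcases s1 with ⟨a1, b1⟩ | ⟨a1, b1⟩ <;> rcases s2 with ⟨a2, b2⟩ | ⟨a2, b2⟩ <;>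
    rcases s3 with ⟨a3, b3⟩ | ⟨a3, b3⟩ <;> rcases s4 with ⟨a4, b4⟩ | ⟨a4, b4⟩
  · exact absurd (by omega) hu3.1.1
  · rcases lt_or_gt_of_ne hu1.2.2.1 with hc | hc
    · linarith only [hu2.1.2.2.1 (by omega), hu3.2.1.2.2.2.2, hw4.2.1.2.2.2.1, hw3.2.2.2.2.2.2, hu1.2.2.2.1 (by omega), he]
    · linarith only [hu2.1.2.2.1 (by omega), hu3.2.1.2.2.2.2, hw4.2.1.2.2.2.1, hw3.2.2.2.2.1 (by omega), hu1.2.2.2.2.2.1, he]
  · exact absurd (by omega) hu3.1.1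
  · exact absurd (by omega) hu1.1.1
  · rcases lt_or_gt_of_ne hu1.2.2.1 with hc | hc
    · linarith only [hu2.1.2.2.1 (by omega), hu3.2.1.2.2.2.2, hw4.2.1.2.2.2.1, hw3.2.2.2.2.2.2, hu1.2.2.2.1 (by omega), he]
    · linarith only [hu2.1.2.2.1 (by omega), hu3.2.1.2.2.2.2, hw4.2.1.2.2.2.1, hw3.2.2.2.2.1 (by omega), hu1.2.2.2.2.2.1, he]
  · rcases lt_or_gt_of_ne hu1.2.2.1 with hc | hc
    · linarith only [hu2.1.2.2.1 (by omega), hu3.2.1.2.2.2.2, hw4.2.1.2.2.2.1, hw3.2.2.2.2.2.2, hu1.2.2.2.1 (by omega), he]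
    · linarith only [hu2.1.2.2.1 (by omega), hu3.2.1.2.2.2.2, hw4.2.1.2.2.2.1, hw3.2.2.2.2.1 (by omega), hu1.2.2.2.2.2.1, he]
  · omega
  · exact absurd (by omega) hu1.1.1
  · exact absurd (by omega) hu3.1.1
  · rcases lt_or_gt_of_ne hu1.1.1 with hc | hc
    · rcases lt_or_gt_of_ne hu3.2.1.1 with hc | hc
      · linarith only [hu2.1.2.2.1 (by omega), hu3.2.1.2.2.2.2, hw4.2.1.2.1 (by omega), hw3.2.2.2.2.2.2, hu1.2.2.2.2.2.1, he]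
      · linarith only [hu2.1.2.2.1 (by omega), hu3.2.1.2.2.1 (by omega), hw4.2.1.2.2.2.1, hw3.2.2.2.2.2.2, hu1.2.2.2.2.2.1, he]
    · rcases lt_or_gt_of_ne hu1.2.2.1 with hc | hc
      · linarith only [hu2.2.1.2.2.2.2, hw1.2.2.2.2.2.1, hw2.1.2.2.1 (by omega), hw3.2.1.2.2.2.2, hu1.2.2.2.1 (by omega), he]
      · linarith only [hu2.2.1.2.2.2.2, hw1.2.2.2.2.2.1, hw2.1.2.2.1 (by omega), hw3.2.1.2.2.1 (by omega), hu1.2.2.2.2.2.1, he]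
  · exact absurd (by omega) hu3.1.1
  · exact absurd (by omega) hu1.1.1
  · rcases lt_or_gt_of_ne hu1.2.2.1 with hc | hc
    · linarith only [hu2.2.1.2.2.2.2, hw1.2.2.2.2.2.1, hw2.1.2.2.1 (by omega), hw3.2.1.2.2.2.2, hu1.2.2.2.1 (by omega), he]
    · linarith only [hu2.2.1.2.2.2.2, hw1.2.2.2.2.2.1, hw2.1.2.2.1 (by omega), hw3.2.1.2.2.1 (by omega), hu1.2.2.2.2.2.1, he]
  · rcases lt_or_gt_of_ne hu1.2.2.1 with hc | hc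
    · linarith only [hu2.2.1.2.2.2.2, hw1.2.2.2.2.2.1, hw2.1.2.2.1 (by omega), hw3.2.1.2.2.2.2, hu1.2.2.2.1 (by omega), he]
    · linarith only [hu2.2.1.2.2.2.2, hw1.2.2.2.2.2.1, hw2.1.2.2.1 (by omega), hw3.2.1.2.2.1 (by omega), hu1.2.2.2.2.2.1, he]
  · rcases lt_or_gt_of_ne hu1.2.2.1 with hc | hc
    · linarith only [hu2.2.1.2.2.2.2, hw1.2.2.2.2.2.1, hw2.1.2.2.1 (by omega), hw3.2.1.2.2.2.2, hu1.2.2.2.1 (by omega), he]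
    · linarith only [hu2.2.1.2.2.2.2, hw1.2.2.2.2.2.1, hw2.1.2.2.1 (by omega), hw3.2.1.2.2.1 (by omega), hu1.2.2.2.2.2.1, he]
  · exact absurd (by omega) hu1.1.1

lemma core2 {e : ℝ} {ka kL kR ke2 ke3 kb kc kf1 kf2 kf3 kd kz1 kz2 kz3 kz4 : ℤ}
    {oa oL oR oe2 oe3 ob oc of1 of2 of3 od oz1 oz2 oz3 oz4 : ℝ}
    (hu1 : R3 e ka oa kL oL kz1 oz1)
    (hu2 : R3 e kR oR ke2 oe2 kz2 oz2)
    (hu3 : R3 e ke2 oe2 ke3 oe3 kz3 oz3)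
    (hu4 : R3 e ke3 oe3 kb ob kz4 oz4)
    (hw1 : R3 e kc oc kf1 of1 kz2 oz2)
    (hw2 : R3 e kf1 of1 kf2 of2 kz4 oz4)
    (hw3 : R3 e kf2 of2 kf3 of3 kz1 oz1)
    (hw4 : R3 e kf3 of3 kd od kz3 oz3)
    (s1 : (ka = kf2 ∧ kL = kf3) ∨ (ka = kf3 ∧ kL = kf2))
    (s2 : (kR = kc ∧ ke2 = kf1) ∨ (kR = kf1 ∧ ke2 = kc))
    (s3 : (ke2 = kf3 ∧ ke3 = kd) ∨ (ke2 = kd ∧ ke3 = kf3))
    (s4 : (ke3 = kf1 ∧ kb = kf2) ∨ (ke3 = kf2 ∧ kb = kf1))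
    (he : 0 ≤ e) (hm : kR = kL - 1) : oR - oL ≤ 3 * e := by
  rcases s1 with ⟨a1, b1⟩ | ⟨a1, b1⟩ <;> rcases s2 with ⟨a2, b2⟩ | ⟨a2, b2⟩ <;>
    rcases s3 with ⟨a3, b3⟩ | ⟨a3, b3⟩ <;> rcases s4 with ⟨a4, b4⟩ | ⟨a4, b4⟩
  · exact absurd (by omega) hu3.1.1
  · rcases lt_or_gt_of_ne hu1.2.2.1 with hc | hc
    · linarith only [hu1.2.2.2.2.2.2, hw3.2.2.2.1 (by omega), hw4.2.1.2.2.2.2, hu3.2.1.2.2.2.1, hu2.1.2.1 (by omega), he]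
    · linarith only [hu1.2.2.2.2.1 (by omega), hw3.2.2.2.2.2.1, hw4.2.1.2.2.2.2, hu3.2.1.2.2.2.1, hu2.1.2.1 (by omega), he]
  · exact absurd (by omega) hu3.1.1
  · exact absurd (by omega) hu1.1.1
  · rcases lt_or_gt_of_ne hu1.2.2.1 with hc | hc
    · linarith only [hu1.2.2.2.2.2.2, hw3.2.2.2.1 (by omega), hw4.2.1.2.2.2.2, hu3.2.1.2.2.2.1, hu2.1.2.1 (by omega), he]
    · linarith only [hu1.2.2.2.2.1 (by omega), hw3.2.2.2.2.2.1, hw4.2.1.2.2.2.2, hu3.2.1.2.2.2.1, hu2.1.2.1 (by omega), he]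
  · rcases lt_or_gt_of_ne hu1.2.2.1 with hc | hc
    · linarith only [hu1.2.2.2.2.2.2, hw3.2.2.2.1 (by omega), hw4.2.1.2.2.2.2, hu3.2.1.2.2.2.1, hu2.1.2.1 (by omega), he]
    · linarith only [hu1.2.2.2.2.1 (by omega), hw3.2.2.2.2.2.1, hw4.2.1.2.2.2.2, hu3.2.1.2.2.2.1, hu2.1.2.1 (by omega), he]
  · omega
  · exact absurd (by omega) hu1.1.1
  · exact absurd (by omega) hu3.1.1
  · rcases lt_or_gt_of_ne hu1.1.1 with hc | hc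
    · rcases lt_or_gt_of_ne hu1.2.2.1 with hc | hc
      · linarith only [hu1.2.2.2.2.2.2, hw3.2.1.2.1 (by omega), hw2.1.2.1 (by omega), hw1.2.2.2.2.2.2, hu2.2.1.2.2.2.1, he]
      · linarith only [hu1.2.2.2.2.1 (by omega), hw3.2.1.2.2.2.1, hw2.1.2.1 (by omega), hw1.2.2.2.2.2.2, hu2.2.1.2.2.2.1, he]
    · rcases lt_or_gt_of_ne hu3.2.1.1 with hc | hc
      · linarith only [hu1.2.2.2.2.2.2, hw3.2.2.2.2.2.1, hw4.2.1.2.2.2.2, hu3.2.1.2.1 (by omega), hu2.1.2.1 (by omega), he]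
      · linarith only [hu1.2.2.2.2.2.2, hw3.2.2.2.2.2.1, hw4.2.1.2.2.1 (by omega), hu3.2.1.2.2.2.1, hu2.1.2.1 (by omega), he]
  · exact absurd (by omega) hu3.1.1
  · exact absurd (by omega) hu1.1.1
  · rcases lt_or_gt_of_ne hu1.2.2.1 with hc | hc
    · linarith only [hu1.2.2.2.2.2.2, hw3.2.1.2.1 (by omega), hw2.1.2.1 (by omega), hw1.2.2.2.2.2.2, hu2.2.1.2.2.2.1, he]
    · linarith only [hu1.2.2.2.2.1 (by omega), hw3.2.1.2.2.2.1, hw2.1.2.1 (by omega), hw1.2.2.2.2.2.2, hu2.2.1.2.2.2.1, he]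
  · rcases lt_or_gt_of_ne hu1.2.2.1 with hc | hc
    · linarith only [hu1.2.2.2.2.2.2, hw3.2.1.2.1 (by omega), hw2.1.2.1 (by omega), hw1.2.2.2.2.2.2, hu2.2.1.2.2.2.1, he]
    · linarith only [hu1.2.2.2.2.1 (by omega), hw3.2.1.2.2.2.1, hw2.1.2.1 (by omega), hw1.2.2.2.2.2.2, hu2.2.1.2.2.2.1, he]
  · rcases lt_or_gt_of_ne hu1.2.2.1 with hc | hc
    · linarith only [hu1.2.2.2.2.2.2, hw3.2.1.2.1 (by omega), hw2.1.2.1 (by omega), hw1.2.2.2.2.2.2, hu2.2.1.2.2.2.1, he]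
    · linarith only [hu1.2.2.2.2.1 (by omega), hw3.2.1.2.2.2.1, hw2.1.2.1 (by omega), hw1.2.2.2.2.2.2, hu2.2.1.2.2.2.1, he]
  · exact absurd (by omega) hu1.1.1

theorem core {e : ℝ} {ka kL kR ke2 ke3 kb kc kf1 kf2 kf3 kd kz1 kz2 kz3 kz4 : ℤ}
    {oa oL oR oe2 oe3 ob oc of1 of2 of3 od oz1 oz2 oz3 oz4 : ℝ}
    (hu1 : R3 e ka oa kL oL kz1 oz1)
    (hu2 : R3 e kR oR ke2 oe2 kz2 oz2)
    (hu3 : R3 e ke2 oe2 ke3 oe3 kz3 oz3)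
    (hu4 : R3 e ke3 oe3 kb ob kz4 oz4)
    (hw1 : R3 e kc oc kf1 of1 kz2 oz2)
    (hw2 : R3 e kf1 of1 kf2 of2 kz4 oz4)
    (hw3 : R3 e kf2 of2 kf3 of3 kz1 oz1)
    (hw4 : R3 e kf3 of3 kd od kz3 oz3)
    (s1 : (ka = kf2 ∧ kL = kf3) ∨ (ka = kf3 ∧ kL = kf2))
    (s2 : (kR = kc ∧ ke2 = kf1) ∨ (kR = kf1 ∧ ke2 = kc))
    (s3 : (ke2 = kf3 ∧ ke3 = kd) ∨ (ke2 = kd ∧ ke3 = kf3))
    (s4 : (ke3 = kf1 ∧ kb = kf2) ∨ (ke3 = kf2 ∧ kb = kf1))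
    (he : 0 ≤ e) (h4 : 4 * e < 1) (hk : |kL - kR| < 2) (hd : |(kL + oL) - (kR + oR)| ≤ e) :
    ka = kb ∧ kc = kd ∧ |oa - ob| ≤ 3 * e ∧ |oc - od| ≤ 2 * e ∧ |oa - ob| + |oc - od| ≤ 4 * e := by
  rw [abs_lt] at hk
  rw [abs_le] at hd
  have hc : kR = kL ∨ kR = kL + 1 ∨ kR = kL - 1 := by omega
  rcases hc with hm | hm | hm
  · have hm' : (kR : ℝ) = kL := by exact_mod_cast hm
    obtain ⟨g1, g2, g3, g4, g5, g6, g7, g8, g9, g10⟩ :=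
      core0 hu1 hu2 hu3 hu4 hw1 hw2 hw3 hw4 s1 s2 s3 s4 he hm (by linarith) (by linarith)
    refine ⟨g1, g2, abs_le.mpr ⟨by linarith, by linarith⟩, abs_le.mpr ⟨by linarith, by linarith⟩, ?_⟩
    rcases abs_cases (oa - ob) with h | h <;> rcases abs_cases (oc - od) with h' | h' <;>
      linarith [h.1, h'.1]
  · have hm' : (kR : ℝ) = kL + 1 := by exact_mod_cast hm
    have := core1 hu1 hu2 hu3 hu4 hw1 hw2 hw3 hw4 s1 s2 s3 s4 he hm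
    exfalso; linarith
  · have hm' : (kR : ℝ) = kL - 1 := by exact_mod_cast hm
    have := core2 hu1 hu2 hu3 hu4 hw1 hw2 hw3 hw4 s1 s2 s3 s4 he hm
    exfalso; linarith

end Pool.Agent.P.MP_3f5ded_co
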