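import Pool.Agent.P.MP_3f5ded_co.Basic
import Pool.Agent.P.MP_3f5ded_co.Core

set_option autoImplicit false

namespace Pool.Agent.P.MP_3f5ded_co

open Finset Sum

/-- Ports of a vertex of the network: two path ports and `s + 2` spoke ports. -/
abbrev Pt (s : ℕ) : Type := Bool ⊕ Fin (s + 2)

lemma card_Pt (s : ℕ) : (univ : Finset (Pt s)).card = s + 4 := by
  simp; omega

/-- All ports of one vertex are pairwise far. -/
def AllFar {s : ℕ} (r : ℝ) (c : Pt s → ℝ) : Prop := ∀ p q, p ≠ q → Far r (c p) (c q)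

/-- Port `p` has class `i` and offset `o`. -/
def At {s : ℕ} (f : ℤ → ℝ) (κ : Pt s → ℤ) (p : Pt s) (i : ℤ) (o : ℝ) : Prop :=
  κ p = i ∧ f i - i = o

/-- A fat spoke: one rigid strand, all others elastic. -/
def Sp {s : ℕ} (r : ℝ) (u w : Pt s → ℝ) : Prop :=
  Near r 0 (u (inr 0)) (w (inr 0)) ∧ ∀ j, Near r (r - (s + 4 : ℕ)) (u (inr j)) (w (inr j))

variable {s : ℕ} {r : ℝ}

lemma At.self (f : ℤ → ℝ) (κ : Pt s → ℤ) (p : Pt s) : At f κ p (κ p) (f (κ p) - κ p) := ⟨rfl, rfl⟩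

lemma anchor (hr0 : ((s + 4 : ℕ) : ℝ) ≤ r) {c c' : Pt s → ℝ} {f : ℤ → ℝ} {κ : Pt s → ℤ}
    (hG : Good (s + 4) r univ c f κ) (hc' : AllFar r c') {p p' : Pt s} (hn : Near r 0 (c p) (c' p'))
    {i : ℤ} {o : ℝ} (h : At f κ p i o) :
    ∃ g μ, Good (s + 4) r univ c' g μ ∧ At g μ p' i o ∧ Al (r - (s + 4 : ℕ)) f g := by
  have hs : (0 : ℝ) ≤ s := by positivity
  have hr1 : 1 ≤ r := by push_cast at hr0; linarith
  obtain ⟨rfl, rfl⟩ := h
  obtain ⟨g, μ, hg, e1, e2⟩ := exists_good (by linarith) univ (card_Pt s) c'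
    (fun y _ z _ h => hc' y z h) p' (mem_univ _) (κ p) (hG.lo p (mem_univ _)) (hG.hi p (mem_univ _))
    (f (κ p)) (hn.symm.trans0 (hG.near p (mem_univ _))) hr1
  exact ⟨g, μ, hg, ⟨e1, by rw [e2]⟩, hG.fr.aligned hg.fr (by omega) e2.symm⟩

lemma closeE {c c' : Pt s → ℝ} {f g : ℤ → ℝ} {κ μ : Pt s → ℤ}
    (hG : Good (s + 4) r univ c f κ) (hG' : Good (s + 4) r univ c' g μ) {δ : ℝ} (ha : Al δ f g)
    (hδ : δ < 1) {p p' : Pt s} (hn : Near r 0 (c p) (c' p')) {i : ℤ} {o : ℝ} (h : At f κ p i o) :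
    At g μ p' i o ∧ Al (r - (s + 4 : ℕ)) f g := by
  obtain ⟨rfl, rfl⟩ := h
  have nn : Near r 0 (f (κ p)) (g (μ p')) :=
    ((hG.near p (mem_univ _)).symm.trans0 hn).trans0 (hG'.near p' (mem_univ _))
  obtain ⟨e, e'⟩ := near_match hG'.fr ha nn (by linarith) (hG.lo p (mem_univ _))
    (hG.hi p (mem_univ _)) (hG'.lo p' (mem_univ _)) (hG'.hi p' (mem_univ _))
  rw [← e, abs_nonpos_iff, sub_eq_zero] at e'
  exact ⟨⟨e.symm, by rw [e']⟩, hG.fr.aligned hG'.fr (by omega) e'⟩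

lemma spoke (hr : r < (s + 4 : ℕ) + 1 / 4) {c c' : Pt s → ℝ} {f g : ℤ → ℝ} {κ μ : Pt s → ℤ}
    (hG : Good (s + 4) r univ c f κ) (hG' : Good (s + 4) r univ c' g μ)
    (ha : Al (r - (s + 4 : ℕ)) f g) (hs : Sp r c c') {i j i' j' : ℤ} {o p o' p' : ℝ}
    (h1 : At f κ (inl false) i o) (h2 : At f κ (inl true) j p)
    (h3 : At g μ (inl false) i' o') (h4 : At g μ (inl true) j' p') :
    (i = i' ∧ j = j') ∨ (i = j' ∧ j = i') := by
  obtain ⟨rfl, -⟩ := h1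
  obtain ⟨rfl, -⟩ := h2
  obtain ⟨rfl, -⟩ := h3
  obtain ⟨rfl, -⟩ := h4
  have st : ∀ j, κ (inr j) = μ (inr j) := by
    intro j
    have nn := ((hG.near (inr j) (mem_univ _)).symm.trans0' (hs.2 j)).trans0
      (hG'.near (inr j) (mem_univ _))
    exact (near_match hG'.fr ha nn (by linarith) (hG.lo _ (mem_univ _))
      (hG.hi _ (mem_univ _)) (hG'.lo _ (mem_univ _)) (hG'.hi _ (mem_univ _))).1
  have key : ∀ b, κ (inl b) = μ (inl false) ∨ κ (inl b) = μ (inl true) := by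
    intro b
    obtain ⟨y, -, hy⟩ := hG'.surj (card_Pt s) (hG.lo (inl b) (mem_univ _)) (hG.hi _ (mem_univ _))
    rcases y with (_ | _) | j
    · exact Or.inl hy.symm
    · exact Or.inr hy.symm
    · rw [← st] at hy
      exact absurd (hG.inj _ (mem_univ _) _ (mem_univ _) hy) (by simp)
  have ne : κ (inl false) ≠ κ (inl true) := fun e =>
    absurd (hG.inj _ (mem_univ _) _ (mem_univ _) e) (by simp)
  have := key false
  have := key true
  omega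

lemma relR {c : Pt s → ℝ} {f : ℤ → ℝ} {κ : Pt s → ℤ} (hG : Good (s + 4) r univ c f κ)
    {p q : Pt s} (hpq : p ≠ q) {i j : ℤ} {o o' : ℝ} (h1 : At f κ p i o) (h2 : At f κ q j o') :
    R (r - (s + 4 : ℕ)) i o j o' := by
  obtain ⟨rfl, rfl⟩ := h1
  obtain ⟨rfl, rfl⟩ := h2
  have a1 := hG.lo p (mem_univ _)
  have a2 := hG.hi p (mem_univ _)
  have a3 := hG.lo q (mem_univ _)
  have a4 := hG.hi q (mem_univ _)
  refine ⟨fun e => hpq (hG.inj _ (mem_univ _) _ (mem_univ _) e), fun h => ?_, fun h => ?_, ?_, ?_⟩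
  · linarith [hG.fr.mono h.le]
  · linarith [hG.fr.mono h.le]
  · linarith [hG.fr.upper (i := κ q) (j := κ p) (by omega)]
  · linarith [hG.fr.upper (i := κ p) (j := κ q) (by omega)]

lemma relR3 {c : Pt s → ℝ} {f : ℤ → ℝ} {κ : Pt s → ℤ} (hG : Good (s + 4) r univ c f κ)
    {i j l : ℤ} {o p q : ℝ} (h1 : At f κ (inl false) i o) (h2 : At f κ (inl true) j p)
    (h3 : At f κ (inr 0) l q) : R3 (r - (s + 4 : ℕ)) i o j p l q :=
  ⟨relR hG (by simp) h1 h2, relR hG (by simp) h1 h3, relR hG (by simp) h2 h3⟩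

lemma At.near {c : Pt s → ℝ} {f : ℤ → ℝ} {κ : Pt s → ℤ} (hG : Good (s + 4) r univ c f κ)
    {p : Pt s} {i : ℤ} {o : ℝ} (h : At f κ p i o) : Near r 0 (c p) (i + o) := by
  obtain ⟨rfl, rfl⟩ := h
  have := hG.near p (mem_univ _)
  simpa using this

theorem coupler (hr0 : ((s + 4 : ℕ) : ℝ) ≤ r) (hr : r < (s + 4 : ℕ) + 1 / 4)
    {u1 u2 u3 u4 w1 w2 w3 w4 : Pt s → ℝ}
    (hu1 : AllFar r u1) (hu2 : AllFar r u2) (hu3 : AllFar r u3) (hu4 : AllFar r u4)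
    (hw1 : AllFar r w1) (hw2 : AllFar r w2) (hw3 : AllFar r w3) (hw4 : AllFar r w4)
    (z1 : Sp r u1 w3) (z2 : Sp r u2 w1) (z3 : Sp r u3 w4) (z4 : Sp r u4 w2)
    (e1 : Near r (r - (s + 4 : ℕ)) (u1 (inl true)) (u2 (inl false)))
    (e2 : Near r 0 (u2 (inl true)) (u3 (inl false)))
    (e3 : Near r 0 (u3 (inl true)) (u4 (inl false)))
    (f1 : Near r 0 (w1 (inl true)) (w2 (inl false)))
    (f2 : Near r 0 (w2 (inl true)) (w3 (inl false)))
    (f3 : Near r 0 (w3 (inl true)) (w4 (inl false))) :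
    ∃ x y : ℝ, x ≤ 3 * (r - (s + 4 : ℕ)) ∧ y ≤ 2 * (r - (s + 4 : ℕ)) ∧
      x + y ≤ 4 * (r - (s + 4 : ℕ)) ∧ Near r x (u1 (inl false)) (u4 (inl true)) ∧
      Near r y (w1 (inl false)) (w4 (inl true)) := by
  have hs : (0 : ℝ) ≤ s := by positivity
  have hr1 : 1 ≤ r := by push_cast at hr0; linarith
  obtain ⟨F1, K1, G1, k1, -⟩ := exists_good (by linarith) univ (card_Pt s) u1
    (fun y _ z _ h => hu1 y z h) (inl true) (mem_univ _) 1 (by norm_num) (by omega) _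
    (Near.refl _ _) hr1
  have aA := At.self F1 K1 (inl false)
  have aL := At.self F1 K1 (inl true)
  have aZ1 := At.self F1 K1 (inr 0)
  obtain ⟨F7, K7, G7, bZ1, l17⟩ := anchor hr0 G1 hw3 z1.1 aZ1
  have aF2 := At.self F7 K7 (inl false)
  have aF3 := At.self F7 K7 (inl true)
  obtain ⟨F6, K6, G6, bF2, l76⟩ := anchor hr0 G7 hw2 f2.symm aF2
  have aZ4 := At.self F6 K6 (inr 0)
  have aF1 := At.self F6 K6 (inl false)
  obtain ⟨F4, K4, G4, bZ4, l64⟩ := anchor hr0 G6 hu4 z4.1.symm aZ4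
  obtain ⟨F8, K8, G8, bF3, l78⟩ := anchor hr0 G7 hw4 f3 aF3
  have aZ3 := At.self F8 K8 (inr 0)
  obtain ⟨F3, K3, G3, bZ3, l83⟩ := anchor hr0 G8 hu3 z3.1.symm aZ3
  obtain ⟨F5, K5, G5, bF1, l65⟩ := anchor hr0 G6 hw1 f1.symm aF1
  have aZ2 := At.self F5 K5 (inr 0)
  obtain ⟨F2, K2, G2, bZ2, l52⟩ := anchor hr0 G5 hu2 z2.1.symm aZ2
  have aE3 := At.self F3 K3 (inl true)
  obtain ⟨bE3, l34⟩ := closeE G3 G4 (((l83.symm.trans l78.symm).trans l76).trans l64)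
    (by linarith) e3 aE3
  have aE2 := At.self F2 K2 (inl true)
  obtain ⟨bE2, -⟩ := closeE G2 G3 (((l52.symm.trans l65.symm).trans l64).trans l34.symm)
    (by linarith) e2 aE2
  have aR := At.self F2 K2 (inl false)
  have aB := At.self F4 K4 (inl true)
  have aC := At.self F5 K5 (inl false)
  have aD := At.self F8 K8 (inl true)
  have nn : Near r (r - (s + 4 : ℕ)) (F1 (K1 (inl true))) (F2 (K2 (inl false))) :=
    ((G1.near _ (mem_univ _)).symm.trans0' e1).trans0 (G2.near _ (mem_univ _))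
  obtain ⟨n, hn1, hn2⟩ := near_lift G2.fr (((l17.trans l76).trans l65).trans l52) nn (m := 2)
    (by norm_num) (by push_cast at hr ⊢; linarith)
  have hn0 : n = 0 := by
    have a3 := G2.lo (inl false) (mem_univ _)
    have a4 := G2.hi (inl false) (mem_univ _)
    rw [k1, abs_lt] at hn1
    rcases lt_trichotomy n 0 with h | h | h
    · have : n * ((s + 4 : ℕ) : ℤ) ≤ -1 * ((s + 4 : ℕ) : ℤ) :=
        mul_le_mul_of_nonneg_right (by omega) (by omega)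
      omega
    · exact h
    · have : 1 * ((s + 4 : ℕ) : ℤ) ≤ n * ((s + 4 : ℕ) : ℤ) :=
        mul_le_mul_of_nonneg_right (by omega) (by omega)
      omega
  subst hn0
  simp only [zero_mul, add_zero] at hn1 hn2
  obtain ⟨g1, g2, g3, g4, g5⟩ := core (relR3 G1 aA aL aZ1) (relR3 G2 aR aE2 bZ2)
    (relR3 G3 bE2 aE3 bZ3) (relR3 G4 bE3 aB bZ4) (relR3 G5 aC bF1 aZ2) (relR3 G6 aF1 bF2 aZ4)
    (relR3 G7 aF2 aF3 bZ1) (relR3 G8 bF3 aD aZ3)
    (spoke hr G1 G7 l17 z1 aA aL aF2 aF3) (spoke hr G2 G5 l52.symm z2 aR aE2 aC bF1)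
    (spoke hr G3 G8 l83.symm z3 bE2 aE3 bF3 aD) (spoke hr G4 G6 l64.symm z4 bE3 aB aF1 bF2)
    (by linarith) (by linarith) hn1 (by simpa using hn2)
  refine ⟨_, _, g3, g4, g5, ?_, ?_⟩
  · refine ((aA.near G1).trans0' (Near.of_abs (le_of_eq ?_))).trans0 (aB.near G4).symm
    rw [← g1]; congr 1; ring
  · refine ((aC.near G5).trans0' (Near.of_abs (le_of_eq ?_))).trans0 (aD.near G8).symm
    rw [← g2]; congr 1; ring

end Pool.Agent.P.MP_3f5ded_co
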