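import Pool.Agent.P.MP_3f5ded_co.ES2

set_option autoImplicit false

namespace Pool.Agent.P.MP_3f5ded_co.UG

open Finset

namespace PM
variable {W : Type} {k : ℕ} {r r' : ℝ} {Fe : W → W → Prop} {P : PM W k r Fe} {P' : PM W k r' Fe}
  {Q : Finset W} {X X' Y : W → ℤ} {z0 z1 z2 u c : W}

/-- Two models with the same items and shifts. -/
def Same (P : PM W k r Fe) (P' : PM W k r' Fe) : Prop := P'.it = P.it ∧ P'.sh = P.sh

lemma Same.symm (h : P.Same P') : P'.Same P := ⟨h.1.symm, h.2.symm⟩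

lemma Same.trans {r'' : ℝ} {P'' : PM W k r'' Fe} (h : P.Same P') (h' : P'.Same P'') : P.Same P'' :=
  ⟨h'.1.trans h.1, h'.2.trans h.2⟩

lemma Same.has (h : P.Same P') {l : ℤ} : P'.Has Q c l ↔ P.Has Q c l := by
  unfold Has; rw [h.1]

lemma Same.ty (h : P.Same P') {s n : ℤ} : P'.Ty Q s c n ↔ P.Ty Q s c n := by
  unfold Ty; rw [h.1, h.2]

lemma Same.fl (h : P.Same P') (q : P.Fl Q) : P'.Fl Q := ⟨q.cl, by rw [h.2]; exact q.z⟩

lemma Same.dfc [Fintype W] (h : P.Same P') (l : ℤ) : P'.dfc Q l = P.dfc Q l := by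
  classical
  unfold PM.dfc
  congr 2
  · exact filter_congr fun c _ => by rw [h.has]
  · exact filter_congr fun x _ => by rw [h.1]

/-- Every edge is on one side of `X`, in every lap. -/
def Con (P : PM W k r Fe) (X : W → ℤ) : Prop :=
  ∀ x y n, ¬ Fe x y → P.it x n = y → ∀ j : ℤ,
    (n < X x + j * k ↔ n + (k + 1) * P.sh x y < X y + j * k)

lemma Cut.con (h : P.Cut X) : P.Con X := fun _ _ _ f e j => (h.addZ j).side f e

lemma Same.con (h : P.Same P') (g : P.Con X) : P'.Con X := by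
  unfold Con; rw [h.1, h.2]; exact g

/-- Ports may be moved across. -/
lemma Con.adv (h : P.Con X) (le : ∀ w, X w ≤ X' w)
    (pt : ∀ w n, X w ≤ n → n < X' w → Fe w (P.it w n)) : P.Con X' := fun x y n f e j => by
  have key : ∀ w m, ¬ Fe w (P.it w m) → (m < X' w + j * k ↔ m < X w + j * k) := fun w m g => by
    have := le w
    refine ⟨fun a => ?_, fun a => by omega⟩
    by_contra b
    refine g ?_
    rw [(P.inj w m (m - j * k)).2 ⟨-j, by ring⟩]
    exact pt w _ (by omega) (by omega)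
  rw [key x n (e ▸ f), key y _ (by rw [P.it_co f e]; exact fun g => f (P.sym _ _ g))]
  exact h x y n f e j

/-- A consistent family of levels is a moment of a model with the same items and shifts. -/
theorem Con.recut [Fintype W] (h : P.Con X) (hk : 0 < k) :
    ∃ (r' : ℝ) (P' : PM W k r' Fe), P.Same P' ∧ P'.Cut X ∧ ∀ Y, P.Cut Y →
      (∀ w, Y w ≤ X w ∧ X w ≤ Y w + k) → P'.Cut Y := by
  have hk' : (0 : ℤ) < k := by exact_mod_cast hk
  let N : W → ℤ → ℤ := fun x n => (n - X x) / k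
  have hN : ∀ x n j, N x n < j ↔ n < X x + j * k := fun x n j => by
    simp only [N]
    rw [Int.ediv_lt_iff_lt_mul hk']
    omega
  have Nm : ∀ x n, N x n ≤ N x (n + 1) := fun x n => Int.ediv_le_ediv hk' (by omega)
  have Np : ∀ x n, N x (n + k) = N x n + 1 := fun x n => by
    simp only [N]
    rw [show n + k - X x = n - X x + 1 * k by ring, Int.add_mul_ediv_right _ _ hk'.ne']
  have Nc : ∀ x y n, ¬ Fe x y → P.it x n = y → N y (n + (k + 1) * P.sh x y) = N x n :=
    fun x y n f e => eq_of_forall_gt_iff fun j => by rw [hN, hN, h x y n f e j]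
  obtain ⟨B, hB⟩ := (Set.finite_range fun p : W × W => P.T p.1 (X p.1 - 1) - P.T p.2 (X p.2)).bddAbove
  obtain ⟨A, A0, hA⟩ : ∃ A : ℝ, 0 < A ∧ ∀ x y, P.T x (X x - 1) - P.T y (X y) < A :=
    ⟨max B 0 + 1, by positivity, fun x y => by
      have := hB ⟨(x, y), rfl⟩
      linarith [le_max_left B 0]⟩
  have r0 := P.r0
  have d0 : 0 < ((k : ℝ) + 1) / r - 1 := sub_pos.2 ((one_lt_div r0).2 P.r1)
  have Ts : ∀ x n, P.T x n + (((k : ℝ) + 1) / r - 1) ≤ P.T x (n + 1) := fun x n => by
    have := P.step x n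
    unfold T
    push_cast
    nlinarith
  obtain ⟨δ, δ0, hδ⟩ : ∃ δ : ℝ, 0 < δ ∧ δ * (1 + A) = ((k : ℝ) + 1) / r - 1 :=
    ⟨_ / (1 + A), by positivity, div_mul_cancel₀ _ (by positivity)⟩
  let S : W → ℤ → ℝ := fun x n => (P.T x n + A * N x n) / (1 + A)
  let P' : PM W k ((k + 1) / (1 + δ)) Fe :=
    { F := fun x n => (S x n + n) / (1 + δ)
      it := P.it
      sh := P.sh
      r0 := by positivity
      r1 := div_lt_self (by positivity) (by linarith)
      sym := P.sym
      step := fun x n => by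
        have a : (N x n : ℝ) ≤ N x (n + 1) := by exact_mod_cast Nm x n
        have b := Ts x n
        have e : S x n + δ ≤ S x (n + 1) := by
          simp only [S]
          rw [div_add' _ _ _ (by positivity)]
          exact div_le_div_of_nonneg_right (by nlinarith) (by positivity)
        rw [div_add_one (by positivity)]
        refine div_le_div_of_nonneg_right ?_ (by positivity)
        push_cast
        linarith
      per := fun x n => by
        simp only [S]
        rw [P.T_per, Np]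
        push_cast
        field_simp
        ring
      ne := P.ne
      inj := P.inj
      sur := P.sur
      co := fun x y n f e => ⟨P.it_co f e, by
        simp only [S]
        rw [P.T_co f e, Nc x y n f e]
        push_cast
        field_simp
        ring⟩ }
  have hT : ∀ x n, P'.T x n = S x n := fun x n => by
    simp only [T, P']
    field_simp
    ring
  refine ⟨_, P', ⟨rfl, rfl⟩, fun x y n n' a b => ?_, fun Y c w x y n n' a b => ?_⟩
  · rw [hT, hT]
    refine div_lt_div_of_pos_right ?_ (by positivity)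
    have a1 : (N x n : ℝ) ≤ -1 := by
      exact_mod_cast (by have := (hN x n 0).2 (by omega); omega : N x n ≤ -1)
    have b1 : (0 : ℝ) ≤ N y n' := by
      exact_mod_cast (by have := (hN y n' 0).not.2 (by omega); omega : 0 ≤ N y n')
    have a2 := (P.T_mono x).monotone (show n ≤ X x - 1 by omega)
    have b2 := (P.T_mono y).monotone b
    have := hA x y
    nlinarith
  · rw [hT, hT]
    refine div_lt_div_of_pos_right ?_ (by positivity)
    have a1 : (N x n : ℝ) ≤ N y n' := by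
      have := w x
      have := w y
      have := (hN x n 0).2 (by omega)
      have := (hN y n' (-1)).not.2 (by omega)
      exact_mod_cast (by omega : N x n ≤ N y n')
    have := c x y n n' a b
    nlinarith

/-- Advance the levels of `Q` over ports. -/
lemma exists_adv (P : PM W k r Fe) (Q : Finset W) (X : W → ℤ) {B : ℤ} (le : ∀ w ∈ Q, X w ≤ B)
    (nb : ∀ w ∈ Q, ¬ Fe w (P.it w B)) : ∃ X' : W → ℤ, (∀ w, w ∉ Q → X' w = X w) ∧
      (∀ w, X w ≤ X' w) ∧ (∀ w ∈ Q, X' w ≤ B ∧ ¬ Fe w (P.it w (X' w))) ∧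
      ∀ w n, X w ≤ n → n < X' w → Fe w (P.it w n) := by
  have : ∀ w, ∃ m, (w ∉ Q → m = X w) ∧ X w ≤ m ∧ (w ∈ Q → m ≤ B ∧ ¬ Fe w (P.it w m)) ∧
      ∀ n, X w ≤ n → n < m → Fe w (P.it w n) := fun w => by
    by_cases hw : w ∈ Q
    · obtain ⟨m, hm, mn⟩ := Int.exists_least_of_bdd (P := fun n => X w ≤ n ∧ ¬ Fe w (P.it w n))
        ⟨X w, fun n h => h.1⟩ ⟨B, le w hw, nb w hw⟩
      refine ⟨m, fun g => absurd hw g, hm.1, fun _ => ⟨mn B ⟨le w hw, nb w hw⟩, hm.2⟩, fun n a b => ?_⟩
      by_contra g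
      have := mn n ⟨a, g⟩
      omega
    · exact ⟨X w, fun _ => rfl, le_rfl, fun g => absurd g hw, fun n a b => by omega⟩
  choose X' h1 h2 h3 h4 using this
  exact ⟨X', h1, h2, h3, h4⟩

variable [Fintype W] {Pt : Finset (W × W)}

/-- In case III the level `k` carries no port. -/
lemma C0.nok (m : P.C0 Q z0 z1 z2 u Y X) (d : D1 k Fe Q Pt z0 z1 z2) (pos : ∀ w ∈ Q, 1 ≤ X w)
    {w : W} (hw : w ∈ Q) : ¬ Fe w (P.it w 0) := fun f => by
  have hk := d.sz.big
  have h : ¬ P.Has Q z0 0 := fun h => by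
    rcases (m.c0 d).has le_rfl (by omega) h with a | a
    · have := ((m.c0 d).tA a le_rfl).2
      have := pos _ a.1
      omega
    · have := m.idx0 d (by omega) (by omega) a; omega
  have := four_le_dfc d h m.miss1 m.miss2 hw f
  have := m.le3 d (l := 0) le_rfl (by omega)
  omega

/-- Case III: the moment can be chosen so that no port is the first item of a window. -/
theorem C0.lj (m : P.C0 Q z0 z1 z2 u Y X) (d : D1 k Fe Q Pt z0 z1 z2) (pos : ∀ w ∈ Q, 1 ≤ X w) :
    ∃ (r' : ℝ) (P' : PM W k r' Fe) (X' : W → ℤ), P.Same P' ∧ P'.C0 Q z0 z1 z2 u Y X' ∧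
      (∀ w ∈ Q, 1 ≤ X' w) ∧ ∀ w ∈ Q, ¬ Fe w (P'.it w (X' w)) := by
  have hk := d.sz.big
  obtain ⟨Z, cz, a2, a1, xz, zk⟩ := m.z
  obtain ⟨X', x1, x2, x3, x4⟩ := P.exists_adv Q X (B := k - 1)
    (fun w hw => by have := m.hi w hw; omega) fun w hw => m.fl.cl w hw _ (m.mid d hw)
  obtain ⟨Z', y1, y2, y3, y4⟩ := P.exists_adv Q Z zk fun w hw => by
    rw [show (k : ℤ) = 0 + k by ring, P.it_add]
    exact m.nok d pos hw
  have l1 := m.cx.le m.cy.add (x := z0) (by have := m.x0; have := m.y0; omega)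
  have l2 := cz.le m.cx.add (x := z2) (by have := m.x2; omega)
  have l3 := cz.le m.cy.add (x := z1) (by have := m.y1; omega)
  have xz' : ∀ w, X' w ≤ Z' w := fun w => by
    by_cases hw : w ∈ Q
    · by_contra g
      exact (y3 w hw).2 (x4 w _ ((xz w).trans (y2 w)) (not_le.1 g))
    · rw [x1 w hw, y1 w hw]; exact xz w
  obtain ⟨r1, P1, s1, c1, t1⟩ := (m.cx.con.adv x2 x4).recut (by omega)
  obtain ⟨r2, P2, s2, c2, t2⟩ := (s1.con (cz.con.adv y2 y4)).recut (by omega)
  have s := s1.trans s2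
  have cy : P2.Cut Y := t2 Y (t1 Y m.cy fun w => ⟨(m.le w).trans (x2 w), by
    by_cases hw : w ∈ Q
    · have := x3 w hw; have := m.lo w hw; omega
    · rw [x1 w hw]; exact l1 w⟩) fun w => ⟨(m.le w).trans ((xz w).trans (y2 w)), by
    by_cases hw : w ∈ Q
    · have := y3 w hw; have := m.lo w hw; omega
    · rw [y1 w hw]; exact l3 w⟩
  have cx : P2.Cut X' := t2 X' c1 fun w => ⟨xz' w, by
    by_cases hw : w ∈ Q
    · have := y3 w hw; have := pos w hw; have := x2 w; omega
    · rw [x1 w hw, y1 w hw]; exact l2 w⟩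
  refine ⟨r2, P2, X', s, ⟨⟨s.fl m.fl, cy, cx, fun w => (m.le w).trans (x2 w), s.1 ▸ m.i1, s.1 ▸ m.i2,
    s.2 ▸ m.s1, s.2 ▸ m.s2, m.y0, m.y1, (x1 _ d.o0).trans m.x0, (x1 _ d.o2).trans m.x2, m.lo,
    fun w hw => by have := x3 w hw; omega⟩, m.hu, m.yu, s.1 ▸ m.e3, s.2 ▸ m.s3, s.1 ▸ m.port,
    s.has.not.2 m.miss1, s.has.not.2 m.miss2, fun l a b => by rw [s.dfc]; exact m.one l a b, Z', c2,
    (y1 _ d.o2).trans a2, (y1 _ d.o1).trans a1, xz', fun w hw => (y3 w hw).1⟩,
    fun w hw => (pos w hw).trans (x2 w), fun w hw => s.1 ▸ (x3 w hw).2⟩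

end PM

end Pool.Agent.P.MP_3f5ded_co.UG
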