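import Pool.Agent.P.MP_3f5ded_co.EPM2

set_option autoImplicit false

namespace Pool.Agent.P.MP_3f5ded_co.UG

open Finset

namespace PM
variable {W : Type} {k : ℕ} {r : ℝ} {Fe : W → W → Prop} {P : PM W k r Fe} {Q : Finset W}
  {X : W → ℤ} {c c' : W}

lemma T_shift (a : ℤ) (x : W) (n : ℤ) : (P.shift a).T x n = P.T x (n + a) + a := by
  simp only [T, shift]; push_cast; ring

lemma T_relift (j : W → ℤ) (x : W) (n : ℤ) : (P.relift j).T x n = P.T x (n + (k + 1) * j x) := by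
  have := P.r0
  simp only [T, relift]; push_cast; field_simp; ring

lemma T_rev (x : W) (n : ℤ) : P.rev.T x n = -P.T x (-n) := by
  simp only [T, rev]; push_cast; ring

lemma Cut.shift (h : P.Cut X) (a : ℤ) : (P.shift a).Cut fun x => X x - a := fun x y n n' e e' => by
  have := h x y (n + a) (n' + a) (by simp only at e; omega) (by simp only at e'; omega)
  rw [T_shift, T_shift]; linarith

lemma Cut.relift (h : P.Cut X) (j : W → ℤ) : (P.relift j).Cut fun x => X x - (k + 1) * j x :=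
  fun x y n n' e e' => by
  rw [T_relift, T_relift]
  exact h x y _ _ (by simp only at e; omega) (by simp only at e'; omega)

lemma Cut.rev (h : P.Cut X) : P.rev.Cut fun x => 1 - X x := fun x y n n' e e' => by
  have := h y x (-n') (-n) (by simp only at e'; omega) (by simp only at e; omega)
  rw [T_rev, T_rev]; linarith

lemma Fl.shift (q : P.Fl Q) (a : ℤ) : (P.shift a).Fl Q := ⟨q.cl, q.z⟩

lemma Fl.rev (q : P.Fl Q) : P.rev.Fl Q :=
  ⟨q.cl, fun x hx y hy e => by simp only [PM.rev, q.z x hx y hy e, neg_zero]⟩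

lemma Fl.relift (q : P.Fl Q) {j : W → ℤ} (hj : ∀ x ∈ Q, j x = 0) : (P.relift j).Fl Q :=
  ⟨q.cl, fun x hx y hy e => by simp only [PM.relift, q.z x hx y hy e, hj x hx, hj y hy]; rfl⟩

/-- A centre with a constant shift joins the flat clique. -/
lemma Fl.swap (q : P.Fl Q) {a : W} {s : ℤ} (h : ∀ x ∈ Q, x ≠ a → P.sh c x = s)
    (f : ∀ x ∈ Q, x ≠ a → ¬ Fe c x) {Q' : Finset W} (hQ : ∀ x ∈ Q', x ≠ c → x ∈ Q ∧ x ≠ a) :
    P.Flat Q' := by
  classical
  refine ⟨fun x => if x = c then -s else 0, fun x hx y hy e => ?_⟩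
  by_cases a1 : x = c
  · subst a1
    simp [e, h y (hQ y hy e).1 (hQ y hy e).2]
  have b1 := hQ x hx a1
  by_cases a2 : y = c
  · subst a2
    simp [a1, P.sh_neg (f x b1.1 b1.2) a1, h x b1.1 b1.2]
  simp [a1, a2, q.z x b1.1 y (hQ y hy a2).1 e]

variable [Fintype W]

/-- The sizes of a clique with three centres; `Pt` lists the ports of `Q`. -/
structure Sz (k : ℕ) (Fe : W → W → Prop) (Q : Finset W) (Pt : Finset (W × W)) : Prop where
  card : Fintype.card W = k + 1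
  cardQ : Q.card + 2 = k
  even : Even k
  big : 12 ≤ k
  pt : ∀ x ∈ Q, ∀ y, Fe x y → (x, y) ∈ Pt

variable {Pt : Finset (W × W)}

open Classical in
lemma Sz.three (s : Sz k Fe Q Pt) : Qᶜ.card = 3 := by
  have := s.card; have := s.cardQ; rw [card_compl]; omega

lemma Sz.evenQ (s : Sz k Fe Q Pt) : Even Q.card := by
  have := s.cardQ; have := s.even; rw [Nat.even_iff] at *; omega

lemma Sz.ne (s : Sz k Fe Q Pt) : Q.Nonempty := by
  have := s.cardQ; have := s.big; exact card_pos.1 (by omega)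

lemma Fl.odd (q : P.Fl Q) (s : Sz k Fe Q Pt) (l : ℤ) : Odd (P.dfc Q l) :=
  q.dfc_odd s.evenQ (by rw [s.three]; decide) l

lemma Fl.two (q : P.Fl Q) (s : Sz k Fe Q Pt) {l l' : ℤ} (d : ¬ (k : ℤ) ∣ l' - l) :
    P.dfc Q l + P.dfc Q l' + k ≤ 2 * Pt.card + 8 := by
  have h := q.dfc_two s.evenQ (by rw [s.three]; decide) s.pt d (by have := s.big; omega)
  have := s.cardQ
  rw [s.three] at h
  omega

/-- An edge between two centres gives a label with three defects. -/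
lemma Fl.common (q : P.Fl Q) (s : Sz k Fe Q Pt) (h : P.Cut X) (hc : c ∉ Q) (hc' : c' ∉ Q)
    (f : ¬ Fe c c') (e : P.it c (X c) = c') (e' : X c' = X c + (k + 1) * P.sh c c') {L : ℤ}
    (d : (k : ℤ) + 1 ∣ L - X c) (hL : ∀ x ∈ Q, X x ≤ L + k ∧ L < X x + k) : 3 ≤ P.dfc Q L := by
  have m1 := h.miss (Or.inl (e ▸ hc')) d hL
  have m2 := h.miss (c := c') (Or.inl (by rw [e', P.it_co f e]; exact hc))
    (by rw [e', ← sub_sub]; exact d.sub (dvd_mul_right _ _)) hL
  have := two_le_dfc hc hc' (e ▸ (P.ne c _).symm) m1 m2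
  have := Nat.odd_iff.1 (q.odd s L)
  omega

omit [Fintype W] in
lemma not_dvd {a : ℤ} (h1 : 0 < a) (h2 : a < k) : ¬ (k : ℤ) ∣ a := fun d =>
  absurd (Int.le_of_dvd h1 d) (by omega)

/-- Mode (iii): few ports and two adjacent centres. -/
theorem Fl.mode3 (q : P.Fl Q) (s : Sz k Fe Q Pt) (hP : 2 * Pt.card + 6 ≤ k) (hc : c ∉ Q)
    (hc' : c' ∉ Q) (e : c' ≠ c) (f : ¬ Fe c c') : False := by
  obtain ⟨n, hn⟩ := P.sur c c' e
  obtain ⟨X, h, a, b⟩ := P.cut_before c n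
  obtain ⟨L, d, hL⟩ := q.exists_img h s.ne n
  have h3 := q.common s h hc hc' f (a ▸ hn) (a ▸ b c' f hn) (a ▸ d) hL
  have h4 := q.two s (l := L) (l' := L + 1) (not_dvd (by omega) (by omega))
  have := (q.odd s (L + 1)).pos
  omega

section Two
variable {p p' q q' z : W}

/-- The data of mode (ii). -/
structure D2 (k : ℕ) (Fe : W → W → Prop) (Q : Finset W) (Pt : Finset (W × W)) (p p' q q' z : W) :
    Prop where
  sz : Sz k Fe Q Pt
  few : 2 * Pt.card + 4 ≤ k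
  out : ∀ y, y ∉ Q ↔ y = p ∨ y = q' ∨ y = z
  pq : p ≠ q'
  pz : p ≠ z
  qz : q' ≠ z
  fp : ∀ y, Fe p y ↔ y = z ∨ y = p'
  fq : ∀ y, Fe q' y ↔ y = q
  fz : Fe q z
  hq : q ∈ Q

namespace D2
variable (m : D2 k Fe Q Pt p p' q q' z)
include m

lemma np : p ∉ Q := (m.out p).2 (by simp)
lemma nq : q' ∉ Q := (m.out q').2 (by simp)
lemma nz : z ∉ Q := (m.out z).2 (by simp)
lemma ep : ¬ Fe q' p := fun f => m.np ((m.fq p).1 f ▸ m.hq)
lemma ez : ¬ Fe q' z := fun f => m.nz ((m.fq z).1 f ▸ m.hq)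

lemma four (fl : P.Fl Q) {l l' : ℤ} (d : ¬ (k : ℤ) ∣ l' - l) (h : 3 ≤ P.dfc Q l) :
    P.dfc Q l' ≤ 1 := by
  have := fl.two m.sz d
  have := m.few
  omega

/-- The two edges between centres are consecutive items of `q'`. -/
lemma frame (fl : P.Fl Q) {X1 X2 : W → ℤ} (h1 : P.Cut X1) (h2 : P.Cut X2)
    (e1 : P.it q' (X1 q') = p) (e2 : P.it q' (X2 q') = z)
    (x1 : X1 p = X1 q' + (k + 1) * P.sh q' p) (x2 : X2 z = X2 q' + (k + 1) * P.sh q' z)
    (lt1 : X1 q' < X2 q') (lt2 : X2 q' < X1 q' + k) {L1 L2 : ℤ} (d1 : (k : ℤ) + 1 ∣ L1 - X1 q')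
    (d2 : (k : ℤ) + 1 ∣ L2 - X2 q') (w1 : ∀ x ∈ Q, X1 x ≤ L1 + k ∧ L1 < X1 x + k)
    (w2 : ∀ x ∈ Q, X2 x ≤ L2 + k ∧ L2 < X2 x + k) :
    (X2 q' = X1 q' + 1 ∧ L2 = L1 - k) ∨ X2 q' + 1 = X1 q' + k := by
  have a1 := fl.common m.sz h1 m.nq m.np m.ep e1 x1 d1 w1
  have a2 := fl.common m.sz h2 m.nq m.nz m.ez e2 x2 d2 w2
  have d : (k : ℤ) ∣ L2 - L1 := by
    by_contra d
    have := m.four fl d a1; omega
  obtain ⟨j, hj⟩ := d
  have b1 := h1.le h2 lt1 q
  have b2 := h2.le h1.add lt2 q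
  have b3 := w1 q m.hq
  have b4 := w2 q m.hq
  have hk := m.sz.big
  have j1 : -2 < j := by nlinarith
  have j2 : j < 3 := by nlinarith
  obtain ⟨i, hi⟩ : (k : ℤ) + 1 ∣ j + (X2 q' - X1 q') := by
    have := ((d1.sub d2).add (dvd_mul_right ((k : ℤ) + 1) j))
    rwa [show L1 - X1 q' - (L2 - X2 q') + (k + 1) * j = j + (X2 q' - X1 q') by
      linear_combination -hj] at this
  have i1 : -1 < i := by nlinarith
  have i2 : i < 2 := by nlinarith
  rcases (show i = 0 ∨ i = 1 by omega) with rfl | rfl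
  · have : j = -1 := by omega
    subst this
    exact Or.inl ⟨by omega, by omega⟩
  · exact Or.inr (by omega)

lemma core (fl : P.Fl Q) {X1 : W → ℤ} (h1 : P.Cut X1) (xq : X1 q' = -2) (xp : X1 p = -2)
    (e1 : P.it q' (-2) = p) (e2 : P.it q' (-1) = z) (s1 : P.sh q' p = 0) (s2 : P.sh q' z = 0)
    (w1 : ∀ x ∈ Q, X1 x ≤ k - 1 + k ∧ (k : ℤ) - 1 < X1 x + k)
    (nf : ∀ j, ¬ ∀ x ∈ Q, x ≠ q → P.sh q' x = j) : ∀ x ∈ Q, x ≠ p' → P.sh p x = 1 := by
  have hk := m.sz.big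
  obtain ⟨X, h, yq, yz⟩ := P.cut_before q' (-1)
  replace yz : X z = -1 := by simpa [s2] using yz z m.ez e2
  obtain ⟨L, d, w⟩ := fl.exists_img h m.sz.ne (-1)
  have c1 : ∀ L, (k : ℤ) + 1 ∣ L + 2 → (∀ x ∈ Q, X1 x ≤ L + k ∧ L < X1 x + k) → 3 ≤ P.dfc Q L :=
    fun L d => fl.common m.sz h1 m.nq m.np m.ep (xq ▸ e1) (by simp [xp, xq, s1])
      (by simpa [xq] using d)
  have c2 : ∀ L, (k : ℤ) + 1 ∣ L + 1 → (∀ x ∈ Q, X x ≤ L + k ∧ L < X x + k) → 3 ≤ P.dfc Q L :=
    fun L d => fl.common m.sz h m.nq m.nz m.ez (yq ▸ e2) (by simp [yz, yq, s2])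
      (by simpa [yq] using d)
  have a1 := c1 (k - 1) ⟨1, by ring⟩ w1
  have hL : L = -1 := by
    have := m.frame fl h1 h (xq ▸ e1) (yq ▸ e2) (by simp [xp, xq, s1]) (by simp [yz, yq, s2])
      (by omega) (by omega) (L1 := k - 1) ⟨1, by rw [xq]; ring⟩ (yq ▸ d) w1 w
    omega
  subst hL
  have le := h1.le h (x := q') (by omega)
  have rng : ∀ x ∈ Q, 0 ≤ X1 x ∧ X x < k := fun x hx => by
    have := w1 x hx; have := w x hx; omega
  obtain ⟨u, hu, xu⟩ : ∃ u ∈ Q, k ≤ X1 u + 1 := by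
    by_contra c
    push Not at c
    have a2 := c1 (-2) (by simp) fun x hx => by have := c x hx; have := rng x hx; omega
    have := m.four fl (l' := -2 + k) (not_dvd (a := -2 + k - (k - 1 - k)) (by omega) (by omega))
      (by rwa [dfc_per (l' := k - 1) (by simp)])
    rw [← dfc_per (l := -2) (by simp)] at this
    omega
  obtain ⟨v, hv, xv⟩ : ∃ v ∈ Q, X v ≤ 0 := by
    by_contra c
    push Not at c
    have a2 := c2 k (dvd_refl _) fun x hx => by have := c x hx; have := rng x hx; omega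
    have := m.four fl (l' := k) (not_dvd (by omega) (by omega)) a1
    omega
  have ip : P.it p (-2) = q' := by simpa [s1] using P.it_co m.ep e1
  have iz : P.it z (-1) = q' := by simpa [s2] using P.it_co m.ez e2
  have lo : -2 < X p := by simpa [s1] using (h.side m.ep e1).1 (by omega)
  have one : ∀ l : ℤ, 0 ≤ l → l + 2 ≤ k → P.dfc Q l ≤ 1 := fun l l1 l2 =>
    m.four fl (l := -1) (not_dvd (by omega) (by omega)) (by rwa [dfc_per (l' := k - 1) (by simp)])
  have M : P.M2 Q p p' q q' z u v X :=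
    ⟨⟨⟨hk, fl, m.out, m.pq, m.pz, m.qz, h, yq, yz, by omega, ip, e1, e2, iz,
      fun x hx => by have := rng x hx; have := le x; omega, hv, hu,
      by have := rng v hv; have := le v; omega, by have := rng u hu; have := le u; omega⟩,
      one 0 le_rfl (by omega), fun y => (m.fp y).1⟩, (m.fp _).2 (Or.inr rfl), m.fq, m.fz, one⟩
  obtain ⟨Y, g, zq, zp⟩ := P.cut_after q' (-2)
  have l1 := h1.le g (x := q') (by omega)
  exact M.main (M.xp g (by simpa [s1] using zp p m.ep e1)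
    (fun x hx => by have := rng x hx; have := l1 x; omega) (by have := l1 u; omega)) nf

lemma next (fl : P.Fl Q) {n : ℤ} (e1 : P.it q' n = p) (e2 : P.it q' (n + 1) = z) :
    (∃ j, ∀ x ∈ Q, x ≠ q → P.sh q' x = j) ∨ ∃ j, ∀ x ∈ Q, x ≠ p' → P.sh p x = j := by
  classical
  obtain ⟨X, h, xq, xp⟩ := P.cut_before q' n
  replace xp := xp p m.ep e1
  obtain ⟨L, ⟨a, d⟩, w⟩ := fl.exists_img h m.sz.ne n
  let j : W → ℤ := fun x => if x ∈ Q then 0 else if x = q' then 1 - a else P.sh q' x + (1 - a)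
  have j0 : ∀ x ∈ Q, j x = 0 := fun x hx => if_pos hx
  have jq : j q' = 1 - a := by simp [j, m.nq]
  have jp : j p = P.sh q' p + (1 - a) := by simp [j, m.np, m.pq]
  have jz : j z = P.sh q' z + (1 - a) := by simp [j, m.nz, m.qz.symm]
  by_contra c
  rw [not_or] at c
  refine c.2 ⟨1 - j p, fun x hx e => ?_⟩
  have := m.core ((fl.shift (L - (k - 1))).relift j0) ((h.shift _).relift j)
    (by simp only [xq, jq]; linear_combination -d)
    (by simp only [xp, jp]; linear_combination -d)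
    (by rw [← e1]; simp only [PM.relift, PM.shift, jq]; congr 1; linear_combination d)
    (by rw [← e2]; simp only [PM.relift, PM.shift, jq]; congr 1; linear_combination d)
    (by simp only [PM.relift, PM.shift, jq, jp]; ring)
    (by simp only [PM.relift, PM.shift, jq, jz]; ring)
    (fun x hx => by have := w x hx; simp only [j0 x hx]; omega)
    (fun i g => c.1 ⟨i - j q', fun x hx e => by
      have := g x hx e; simp only [PM.relift, PM.shift, j0 x hx] at this; omega⟩) x hx e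
  simp only [PM.relift, PM.shift, j0 x hx] at this
  omega

/-- Mode (ii): one of the two thin centres has a constant shift. -/
theorem mode2 (fl : P.Fl Q) :
    (∃ j, ∀ x ∈ Q, x ≠ q → P.sh q' x = j) ∨ ∃ j, ∀ x ∈ Q, x ≠ p' → P.sh p x = j := by
  obtain ⟨n, e1⟩ := P.sur q' p m.pq
  obtain ⟨n', a1, a2, e2⟩ := P.win (x := q') m.qz.symm n
  have a3 : n' ≠ n := fun e => m.pz (by rw [← e1, ← e, e2])
  obtain ⟨X1, h1, x1, y1⟩ := P.cut_before q' n
  obtain ⟨X2, h2, x2, y2⟩ := P.cut_before q' n'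
  obtain ⟨L1, d1, w1⟩ := fl.exists_img h1 m.sz.ne n
  obtain ⟨L2, d2, w2⟩ := fl.exists_img h2 m.sz.ne n'
  rcases m.frame fl h1 h2 (x1 ▸ e1) (x2 ▸ e2) (x1 ▸ y1 p m.ep e1) (x2 ▸ y2 z m.ez e2) (by omega)
    (by omega) (x1 ▸ d1) (x2 ▸ d2) w1 w2 with ⟨e, -⟩ | e
  · exact m.next fl e1 (by rwa [show n + 1 = n' by omega])
  · have := m.next fl.rev (n := -n) (by simpa [PM.rev] using e1) (by
      rw [← e2, ← P.it_sub]; simp only [PM.rev]; congr 1; omega)
    exact this.imp (fun ⟨j, g⟩ => ⟨-j, fun x hx e => by have := g x hx e; simp only [PM.rev] at this; omega⟩)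
      fun ⟨j, g⟩ => ⟨-j, fun x hx e => by have := g x hx e; simp only [PM.rev] at this; omega⟩

end D2

end Two

end PM

end Pool.Agent.P.MP_3f5ded_co.UG
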