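import Pool.Agent.P.MP_3f5ded_co.UVDefs
import Pool.Agent.P.MP_3f5ded_co.EPM3

set_option autoImplicit false

namespace Pool.Agent.P.MP_3f5ded_co.UG

open Finset

/-- Every colouring gives a particle model. -/
theorem exists_pm {W : Type} [Fintype W] {k : ℕ} {r : ℝ} {Fe : W → W → Prop} {C : W → W → ℝ}
    (hW : Fintype.card W = k + 1) (hk : 0 < k) (h1 : 1 ≤ r) (h2 : r < k + 1)
    (fs : ∀ x y, Fe x y → Fe y x) (sym : ∀ x y, y ≠ x → ¬ Fe x y → Cg r (C x y) (C y x))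
    (far : ∀ x y y', y ≠ x → y' ≠ x → y ≠ y' → Far r (C x y) (C x y')) :
    ∃ P : PM W k r Fe, ∀ x n, Cg r (C x (P.it x n)) (P.F x n) := by
  classical
  have hk' : (0 : ℤ) < k := by exact_mod_cast hk
  have hS : ∀ x : W, (univ.erase x).card = k := fun x => by
    rw [card_erase_of_mem (mem_univ x), card_univ, hW]; rfl
  have g : ∀ x : W, ∃ f κ, Good k r (univ.erase x) (C x) f κ := fun x => by
    obtain ⟨y, hy⟩ : (univ.erase x).Nonempty := card_pos.1 (by rw [hS]; exact hk)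
    obtain ⟨f, κ, h, -⟩ := exists_good (by linarith) _ (hS x) (C x)
      (fun y hy z hz e => far x y z (ne_of_mem_erase hy) (ne_of_mem_erase hz) e) y hy 0 le_rfl hk' _
      (Cg.refl _ _) h1
    exact ⟨f, κ, h⟩
  choose F κ G using g
  have me : ∀ {x y : W}, y ≠ x → y ∈ univ.erase x := fun e => mem_erase.2 ⟨e, mem_univ _⟩
  choose it i1 i2 using fun x (n : ℤ) => (G x).surj (hS x) (Int.emod_nonneg n hk'.ne')
    (Int.emod_lt_of_pos n hk')
  have key : ∀ {x y n}, y ≠ x → (it x n = y ↔ (k : ℤ) ∣ n - κ x y) := fun {x y n} e => by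
    have a := Int.emod_eq_of_lt ((G x).lo y (me e)) ((G x).hi y (me e))
    rw [← Int.modEq_iff_dvd, Int.ModEq, a, ← i2 x n]
    exact ⟨fun b => by rw [b], fun b => (G x).inj _ (i1 x n) _ (me e) b.symm⟩
  have ne : ∀ x n, it x n ≠ x := fun x n => ne_of_mem_erase (i1 x n)
  have s : ∀ x y, ∃ m : ℤ, y ≠ x → ¬ Fe x y → F x (κ x y) = F y (κ y x) + m * r := fun x y => by
    by_cases e : y ≠ x ∧ ¬ Fe x y
    · obtain ⟨m, hm⟩ := ((G x).near y (me e.1)).symm.trans
        ((sym x y e.1 e.2).trans ((G y).near x (me e.1.symm)))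
      exact ⟨m, fun _ _ => hm⟩
    · exact ⟨0, fun a b => absurd ⟨a, b⟩ e⟩
  choose m hm using s
  refine ⟨⟨F, it, fun x y => κ y x + m x y * k - κ x y, by linarith, h2, fs, fun x => (G x).fr.step,
    fun x => (G x).fr.per, ne, fun x n n' => ?_, fun x y e => ⟨κ x y, (key e).2 (by simp)⟩,
    fun x y n f e => ?_⟩, fun x n => ?_⟩
  · rw [eq_comm, key (ne x n), i2, ← Int.modEq_iff_dvd, ← Int.modEq_iff_dvd, Int.ModEq, Int.ModEq,
      Int.emod_emod_of_dvd _ (dvd_refl _)]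
  · have yx : y ≠ x := e ▸ ne x n
    obtain ⟨a, ha⟩ := (key yx).1 e
    have e1 : n + (k + 1) * (κ y x + m x y * k - κ x y) =
        κ y x + (a + m x y + (κ y x + m x y * k - κ x y)) * k := by linear_combination ha
    refine ⟨(key yx.symm).2 ⟨_, by rw [e1, add_sub_cancel_left, mul_comm]⟩, ?_⟩
    rw [e1, (G y).fr.perZ, show n = κ x y + a * k by linear_combination ha, (G x).fr.perZ,
      hm x y yx f]
    push_cast; ring
  · refine ((G x).near _ (i1 x n)).trans ⟨-(n / k), ?_⟩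
    have := (G x).fr.perZ (n % k) (n / k)
    rw [Int.emod_add_ediv_mul] at this
    simp only [i2]
    push_cast; linarith

namespace Spi
variable {W : Type} (S : Spi W) {k : ℕ} {r : ℝ}

lemma fe_symm (x y : W) (h : S.Fe x y) : S.Fe y x := by unfold Fe at *; tauto

/-- The spider with its long legs exchanged. -/
def sw : Spi W := ⟨S.z, S.q, S.q', S.p, S.p', S.L⟩

lemma sw_fe : S.sw.Fe = S.Fe := by
  funext x y; unfold Fe sw; apply propext; tauto

variable [Fintype W] {S} (h : S.Ok k)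
include h

lemma Ok.sw : S.sw.Ok k :=
  ⟨h.card, h.cardL, h.big, h.zq, h.zq', h.zp, h.zp', h.qq', h.pq.symm, h.p'q.symm, h.pq'.symm,
    h.p'q'.symm, h.pp', h.zL, h.qL, h.q'L, h.pL, h.p'L⟩

theorem exists_pm {C : W → W → ℝ} (h1 : 1 ≤ r) (h2 : r < k + 1) (c : S.Cl r C) :
    ∃ P : PM W k r S.Fe, ∀ x n, Cg r (C x (P.it x n)) (P.F x n) :=
  UG.exists_pm h.card (by have := h.big; omega) h1 h2 S.fe_symm c.sym c.far

lemma Ok.fe_p (y : W) : S.Fe S.p y ↔ y = S.z ∨ y = S.p' := by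
  simp [Fe, h.zp.symm, h.pp', h.pq, h.pq']

lemma Ok.fe_p' (y : W) : S.Fe S.p' y ↔ y = S.p := by
  simp [Fe, h.zp'.symm, h.pp'.symm, h.p'q, h.p'q', h.p'L]

lemma Ok.fe_q (y : W) : S.Fe S.q y ↔ y = S.z ∨ y = S.q' := by
  simp [Fe, h.zq.symm, h.pq.symm, h.p'q.symm, h.qq']

lemma Ok.fe_q' (y : W) : S.Fe S.q' y ↔ y = S.q := by
  simp [Fe, h.zq'.symm, h.pq'.symm, h.p'q'.symm, h.qq'.symm, h.q'L]

lemma Ok.fe_z (y : W) : S.Fe S.z y ↔ y = S.p ∨ y = S.q ∨ y ∈ S.L := by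
  simp [Fe, h.zp, h.zp', h.zq, h.zq', h.zL]

variable [DecidableEq W]

omit h in
/-- The clique that is left when `z`, `a`, `b` are removed. -/
def Cq (S : Spi W) (a b : W) : Finset W := univ \ {S.z, a, b}

omit h in
lemma mem_cq {a b x : W} : x ∈ S.Cq a b ↔ x ≠ S.z ∧ x ≠ a ∧ x ≠ b := by simp [Cq]

omit h in
lemma cq_cl {a b : W} (ha : a = S.p ∨ a = S.p') (hb : b = S.q ∨ b = S.q') :
    ∀ x ∈ S.Cq a b, ∀ y ∈ S.Cq a b, ¬ S.Fe x y := fun x hx y hy f => by
  rw [mem_cq] at hx hy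
  unfold Fe at f
  rcases ha with rfl | rfl <;> rcases hb with rfl | rfl <;> tauto

lemma Ok.sz {a b : W} (za : S.z ≠ a) (zb : S.z ≠ b) (ab : a ≠ b) {Pt : Finset (W × W)}
    (pt : ∀ x ∈ S.Cq a b, ∀ y, S.Fe x y → (x, y) ∈ Pt) : PM.Sz k S.Fe (S.Cq a b) Pt := by
  have := h.big
  have := h.cardL
  refine ⟨h.card, ?_, ⟨S.L.card + 5, by omega⟩, h.big, pt⟩
  rw [Cq, card_univ_sdiff, h.card, card_eq_three.2 ⟨_, _, _, za, zb, ab, rfl⟩]
  omega

/-- Mode (iii) does not occur. -/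
theorem Ok.not_flat (P : PM W k r S.Fe) : ¬ P.Flat (S.Cq S.p S.q) := fun f => by
  obtain ⟨j, fl⟩ := f.fl (cq_cl (Or.inl rfl) (Or.inl rfl))
  refine fl.mode3 (Pt := insert (S.p', S.p) (insert (S.q', S.q) (S.L ×ˢ {S.z})))
    (h.sz h.zp h.zq h.pq fun x hx y f => ?_) ?_ (c := S.p) (c' := S.q) (by simp [mem_cq])
    (by simp [mem_cq]) h.pq.symm (by simp [h.fe_p, h.zq.symm, h.p'q.symm])
  · rw [mem_cq] at hx
    simp only [mem_insert, Prod.mk.injEq, mem_product, mem_singleton]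
    unfold Fe at f
    tauto
  · have := card_insert_le (S.p', S.p) (insert (S.q', S.q) (S.L ×ˢ {S.z}))
    have := card_insert_le (S.q', S.q) (S.L ×ˢ {S.z})
    have := h.cardL
    simp only [card_product, card_singleton] at *
    omega

/-- Mode (ii) gives mode (i). -/
theorem Ok.flat_two (P : PM W k r S.Fe) (f : P.Flat (S.Cq S.p S.q')) : P.Flat (S.Cq S.p' S.q') := by
  obtain ⟨j, fl⟩ := f.fl (cq_cl (Or.inl rfl) (Or.inr rfl))
  have D : PM.D2 k S.Fe (S.Cq S.p S.q')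
      (insert (S.p', S.p) (insert (S.q, S.q') (insert (S.q, S.z) (S.L ×ˢ {S.z}))))
      S.p S.p' S.q S.q' S.z := by
    refine ⟨h.sz h.zp h.zq' h.pq' fun x hx y f => ?_, ?_, fun y => by rw [mem_cq]; tauto, h.pq',
      h.zp.symm, h.zq'.symm, h.fe_p, h.fe_q', (h.fe_q _).2 (Or.inl rfl),
      mem_cq.2 ⟨h.zq.symm, h.pq.symm, h.qq'⟩⟩
    · rw [mem_cq] at hx
      simp only [mem_insert, Prod.mk.injEq, mem_product, mem_singleton]
      unfold Fe at f
      tauto
    · have := card_insert_le (S.p', S.p) (insert (S.q, S.q') (insert (S.q, S.z) (S.L ×ˢ {S.z})))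
      have := card_insert_le (S.q, S.q') (insert (S.q, S.z) (S.L ×ˢ {S.z}))
      have := card_insert_le (S.q, S.z) (S.L ×ˢ {S.z})
      have := h.cardL
      simp only [card_product, card_singleton] at *
      omega
  rcases D.mode2 fl with ⟨s, g⟩ | ⟨s, g⟩
  · refine absurd (fl.swap g (fun x _ e => by rwa [h.fe_q']) fun x hx e => ?_).of_relift
      (h.not_flat P)
    rw [mem_cq] at hx ⊢
    tauto
  · refine (fl.swap g (fun x hx e => ?_) fun x hx e => ?_).of_relift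
    · rw [mem_cq] at hx
      rw [h.fe_p]; tauto
    · rw [mem_cq] at hx ⊢
      tauto

/-- If one of the four cliques is flat, the true one is. -/
theorem Ok.flat_true (P : PM W k r S.Fe) {a b : W} (ha : a = S.p ∨ a = S.p')
    (hb : b = S.q ∨ b = S.q') (f : P.Flat (S.Cq a b)) : P.Flat (S.Cq S.p' S.q') := by
  rcases ha with rfl | rfl <;> rcases hb with rfl | rfl
  · exact absurd f (h.not_flat P)
  · exact h.flat_two P f
  · have key : ∀ (Fe : W → W → Prop) (_ : S.sw.Fe = Fe) (P : PM W k r Fe),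
        P.Flat (S.sw.Cq S.q S.p') → P.Flat (S.sw.Cq S.q' S.p') := fun Fe e P g => by
      subst e; exact h.sw.flat_two P g
    have e : ∀ a b, S.sw.Cq a b = S.Cq b a := fun a b => by
      ext x; rw [mem_cq, mem_cq]; simp only [Spi.sw]; tauto
    simpa only [e] using key _ S.sw_fe P (e _ _ ▸ f)
  · exact f

end Spi

end Pool.Agent.P.MP_3f5ded_co.UG
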