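import Mathlib

set_option autoImplicit false

namespace Pool.Agent.P.MP_3f5ded_co.UG

open Finset

/-- The particle model of a colouring of the complete graph minus `Fe`, ports included.
`F x n` is the lifted colour of the item number `n` of `x`, `it x n` names the item (the edge or
the port towards that vertex), `sh x y` is the winding shift of the edge `xy`. -/
structure PM (W : Type) (k : ℕ) (r : ℝ) (Fe : W → W → Prop) where
  F : W → ℤ → ℝ
  it : W → ℤ → W
  sh : W → W → ℤ
  r0 : 0 < r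
  r1 : r < k + 1
  sym : ∀ x y, Fe x y → Fe y x
  step : ∀ x n, F x n + 1 ≤ F x (n + 1)
  per : ∀ x n, F x (n + k) = F x n + r
  ne : ∀ x n, it x n ≠ x
  inj : ∀ x n n', it x n = it x n' ↔ (k : ℤ) ∣ n' - n
  sur : ∀ x y, y ≠ x → ∃ n, it x n = y
  co : ∀ x y n, ¬ Fe x y → it x n = y → it y (n + (k + 1) * sh x y) = x ∧
    F y (n + (k + 1) * sh x y) = F x n + r * sh x y

namespace PM
variable {W : Type} {k : ℕ} {r : ℝ} {Fe : W → W → Prop} (P : PM W k r Fe)

/-- The time of the step of `x` from level `n` to level `n + 1`. -/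
noncomputable def T (x : W) (n : ℤ) : ℝ := (k + 1) / r * P.F x n - n

lemma T_mono (x : W) : StrictMono (P.T x) := by
  refine strictMono_int_of_lt_succ fun n => ?_
  have h1 : 1 < ((k : ℝ) + 1) / r := (one_lt_div P.r0).2 P.r1
  have h2 := P.step x n
  unfold T
  push_cast
  nlinarith

lemma T_per (x : W) (n : ℤ) : P.T x (n + k) = P.T x n + 1 := by
  have := P.r0
  unfold T
  rw [P.per]
  push_cast
  field_simp
  ring

lemma T_co {x y : W} {n : ℤ} (h : ¬ Fe x y) (e : P.it x n = y) :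
    P.T y (n + (k + 1) * P.sh x y) = P.T x n := by
  have := P.r0
  unfold T
  rw [(P.co x y n h e).2]
  push_cast
  field_simp
  ring

lemma it_co {x y : W} {n : ℤ} (h : ¬ Fe x y) (e : P.it x n = y) :
    P.it y (n + (k + 1) * P.sh x y) = x := (P.co x y n h e).1

lemma T_perZ (x : W) (n j : ℤ) : P.T x (n + j * k) = P.T x n + j := by
  induction j using Int.induction_on with
  | zero => simp
  | succ j ih =>
    rw [show n + ((j : ℤ) + 1) * k = n + j * k + k by ring, P.T_per, ih]; push_cast; ring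
  | pred j ih =>
    have := P.T_per x (n + (-(j : ℤ) - 1) * k)
    rw [show n + (-(j : ℤ) - 1) * k + k = n + -(j : ℤ) * k by ring, ih] at this
    push_cast at this ⊢; linarith

include P in
lemma k_pos (x : W) : 0 < k := by
  by_contra h
  have h0 : k = 0 := by omega
  subst h0
  simpa using P.T_per x 0

lemma it_add (x : W) (n : ℤ) : P.it x (n + k) = P.it x n := ((P.inj x _ _).2 (by simp)).symm

lemma it_sub (x : W) (n : ℤ) : P.it x (n - k) = P.it x n := (P.inj x _ _).2 (by simp)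

/-- Two levels less than `k` apart carry different items. -/
lemma uniq {x : W} {n n' : ℤ} (e : P.it x n = P.it x n') (h1 : n < n' + k) (h2 : n' < n + k) :
    n = n' := by
  obtain ⟨c, hc⟩ := (P.inj x n n').1 e
  have hk := P.k_pos x
  rcases lt_trichotomy c 0 with h | h | h
  · nlinarith
  · rw [h] at hc; omega
  · nlinarith

/-- Every item occurs in every window of `k` levels. -/
lemma win {x y : W} (h : y ≠ x) (a : ℤ) : ∃ n, a ≤ n ∧ n < a + k ∧ P.it x n = y := by
  obtain ⟨n, hn⟩ := P.sur x y h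
  have hk : (0 : ℤ) < k := by exact_mod_cast P.k_pos x
  refine ⟨a + (n - a) % k, ?_, ?_, ?_⟩
  · have := Int.emod_nonneg (n - a) hk.ne'; omega
  · have := Int.emod_lt_of_pos (n - a) hk; omega
  · rw [← hn, P.inj]
    exact ⟨(n - a) / k, by have := Int.emod_add_mul_ediv (n - a) k; linarith⟩

lemma sh_neg {x y : W} (h : ¬ Fe x y) (hy : y ≠ x) : P.sh y x = -P.sh x y := by
  obtain ⟨n, hn⟩ := P.sur x y hy
  have h1 := P.T_co (fun f => h (P.sym _ _ f)) (P.it_co h hn)
  rw [P.T_co h hn] at h1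
  have h2 := (P.T_mono x).injective h1
  have h3 : ((k : ℤ) + 1) * (P.sh y x + P.sh x y) = 0 := by linarith
  rcases mul_eq_zero.1 h3 with h4 | h4 <;> omega

/-- Move the particle `x` by `j x` laps. -/
def relift (j : W → ℤ) : PM W k r Fe where
  F x n := P.F x (n + (k + 1) * j x) - r * j x
  it x n := P.it x (n + (k + 1) * j x)
  sh x y := P.sh x y + j x - j y
  r0 := P.r0
  r1 := P.r1
  sym := P.sym
  step x n := by
    have := P.step x (n + (k + 1) * j x)
    rw [show n + 1 + (k + 1) * j x = n + (k + 1) * j x + 1 by ring]; linarith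
  per x n := by
    rw [show n + k + (k + 1) * j x = n + (k + 1) * j x + k by ring, P.per]; ring
  ne x n := P.ne x _
  inj x n n' := by rw [P.inj]; simp
  sur x y h := by
    obtain ⟨n, hn⟩ := P.sur x y h
    exact ⟨n - (k + 1) * j x, by simpa using hn⟩
  co x y n h e := by
    have := P.co x y _ h e
    rw [show n + (k + 1) * (P.sh x y + j x - j y) + (k + 1) * j y =
      n + (k + 1) * j x + (k + 1) * P.sh x y by ring]
    refine ⟨this.1, ?_⟩
    rw [this.2]; push_cast; ring

/-- Renumber all levels. -/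
def shift (c : ℤ) : PM W k r Fe where
  F x n := P.F x (n + c)
  it x n := P.it x (n + c)
  sh := P.sh
  r0 := P.r0
  r1 := P.r1
  sym := P.sym
  step x n := by rw [add_right_comm]; exact P.step x _
  per x n := by rw [add_right_comm]; exact P.per x _
  ne x n := P.ne x _
  inj x n n' := by rw [P.inj]; simp
  sur x y h := by
    obtain ⟨n, hn⟩ := P.sur x y h
    exact ⟨n - c, by simpa using hn⟩
  co x y n h e := by rw [add_right_comm]; exact P.co x y _ h e

/-- Reverse the time. -/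
def rev : PM W k r Fe where
  F x n := -P.F x (-n)
  it x n := P.it x (-n)
  sh x y := -P.sh x y
  r0 := P.r0
  r1 := P.r1
  sym := P.sym
  step x n := by
    have := P.step x (-(n + 1))
    rw [show -(n + 1) + 1 = -n by ring] at this; linarith
  per x n := by
    have := P.per x (-(n + k))
    rw [show -(n + k) + k = -n by ring] at this; linarith
  ne x n := P.ne x _
  inj x n n' := by rw [P.inj, show -n' - -n = -(n' - n) by ring, dvd_neg]
  sur x y h := by
    obtain ⟨n, hn⟩ := P.sur x y h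
    exact ⟨-n, by simpa using hn⟩
  co x y n h e := by
    have := P.co x y _ h e
    rw [show -(n + (k + 1) * -P.sh x y) = -n + (k + 1) * P.sh x y by ring]
    refine ⟨this.1, ?_⟩
    rw [this.2]; push_cast; ring

/-- A moment: `X x` is the level of `x`, all past steps are earlier than all future steps. -/
def Cut (X : W → ℤ) : Prop := ∀ x y n n', n < X x → X y ≤ n' → P.T x n < P.T y n'

lemma exists_level (x : W) (A : ℝ → Prop) (lo : ∀ s t, s ≤ t → A t → A s) {a b : ℝ} (ha : A a)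
    (hb : ¬ A b) : ∃ m, ∀ n, n < m ↔ A (P.T x n) := by
  have h1 : ∃ n, ¬ A (P.T x n) := by
    refine ⟨0 + ⌈b - P.T x 0⌉ * k, fun h => hb (lo _ _ ?_ h)⟩
    rw [P.T_perZ]; linarith [Int.le_ceil (b - P.T x 0)]
  have h2 : ∃ c : ℤ, ∀ n, ¬ A (P.T x n) → c ≤ n := by
    refine ⟨0 + ⌊a - P.T x 0⌋ * k, fun n hn => ?_⟩
    by_contra hc
    have := (P.T_mono x).monotone (not_le.1 hc).le
    rw [P.T_perZ] at this
    exact hn (lo _ _ (by linarith [Int.floor_le (a - P.T x 0)]) ha)
  obtain ⟨m, hm, hmin⟩ := Int.exists_least_of_bdd h2 h1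
  refine ⟨m, fun n => ⟨fun h => ?_, fun h => ?_⟩⟩
  · by_contra hc
    exact absurd (hmin n hc) (not_le.2 h)
  · by_contra hc
    exact hm (lo _ _ ((P.T_mono x).monotone (not_lt.1 hc)) h)

/-- The moment just before the time `θ`. -/
lemma exists_before (θ : ℝ) : ∃ X, P.Cut X ∧ ∀ x n, n < X x ↔ P.T x n < θ := by
  choose X hX using fun x => P.exists_level x (· < θ) (fun _ _ h h' => h.trans_lt h')
    (a := θ - 1) (b := θ) (by linarith) (lt_irrefl _)
  exact ⟨X, fun x y n n' h h' => ((hX x n).1 h).trans_le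
    (not_lt.1 fun c => absurd ((hX y n').2 c) (not_lt.2 h')), hX⟩

/-- The moment just after the time `θ`. -/
lemma exists_after (θ : ℝ) : ∃ X, P.Cut X ∧ ∀ x n, n < X x ↔ P.T x n ≤ θ := by
  choose X hX using fun x => P.exists_level x (· ≤ θ) (fun _ _ h h' => h.trans h')
    (a := θ) (b := θ + 1) le_rfl (by linarith)
  exact ⟨X, fun x y n n' h h' => ((hX x n).1 h).trans_lt
    (not_le.1 fun c => absurd ((hX y n').2 c) (not_lt.2 h')), hX⟩

/-- The moment just before a step; the partner is in place. -/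
lemma cut_before (x : W) (n : ℤ) : ∃ X, P.Cut X ∧ X x = n ∧
    ∀ y, ¬ Fe x y → P.it x n = y → X y = n + (k + 1) * P.sh x y := by
  obtain ⟨X, h1, h2⟩ := P.exists_before (P.T x n)
  have key : ∀ y m, P.T y m = P.T x n → X y = m := fun y m e => by
    have a := (h2 y m).not.2 (by rw [e]; exact lt_irrefl _)
    have b := (h2 y (m - 1)).2 (by rw [← e]; exact P.T_mono y (by omega))
    omega
  exact ⟨X, h1, key x n rfl, fun y h e => key y _ (P.T_co h e)⟩

/-- The moment just after a step. -/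
lemma cut_after (x : W) (n : ℤ) : ∃ X, P.Cut X ∧ X x = n + 1 ∧
    ∀ y, ¬ Fe x y → P.it x n = y → X y = n + (k + 1) * P.sh x y + 1 := by
  obtain ⟨X, h1, h2⟩ := P.exists_after (P.T x n)
  have key : ∀ y m, P.T y m = P.T x n → X y = m + 1 := fun y m e => by
    have a := (h2 y m).2 e.le
    have b := (h2 y (m + 1)).not.2 (by rw [← e]; exact not_le.2 (P.T_mono y (by omega)))
    omega
  exact ⟨X, h1, key x n rfl, fun y h e => key y _ (P.T_co h e)⟩

variable {P} {X X' : W → ℤ} {x y c u v w : W} {n : ℤ}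

/-- A common step is past for both ends or future for both ends. -/
lemma Cut.side (h : P.Cut X) (hf : ¬ Fe x y) (e : P.it x n = y) :
    n < X x ↔ n + (k + 1) * P.sh x y < X y := by
  have := P.T_co hf e
  constructor
  · intro a; by_contra b
    exact absurd (h x y _ _ a (not_lt.1 b)) (by rw [this]; exact lt_irrefl _)
  · intro a; by_contra b
    exact absurd (h y x _ _ a (not_lt.1 b)) (by rw [this]; exact lt_irrefl _)

/-- Moments are linearly ordered. -/
lemma Cut.le (h : P.Cut X) (h' : P.Cut X') (hx : X x < X' x) (y : W) : X y ≤ X' y := by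
  by_contra c
  exact lt_asymm (h y x _ _ (not_le.1 c) le_rfl) (h' x y _ _ hx le_rfl)

/-- One period later. -/
lemma Cut.add (h : P.Cut X) : P.Cut fun x => X x + k := fun x y n n' a b => by
  have := h x y (n - k) (n' - k) (by simp only at a; omega) (by simp only at b; omega)
  have e1 := P.T_per x (n - k)
  have e2 := P.T_per y (n' - k)
  rw [sub_add_cancel] at e1 e2
  linarith

/-- A step in the window of one end lies in the window of the other end. -/
lemma Cut.win (h : P.Cut X) (hf : ¬ Fe x y) (e : P.it x n = y) (h1 : X x ≤ n) (h2 : n < X x + k) :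
    X y ≤ n + (k + 1) * P.sh x y ∧ n + (k + 1) * P.sh x y < X y + k :=
  ⟨not_lt.1 fun a => absurd ((h.side hf e).2 a) (not_lt.2 h1), (h.add.side hf e).1 h2⟩

/-- Lemma M for one edge. -/
lemma Cut.near (h : P.Cut X) (hf : ¬ Fe x y) (hy : y ≠ x) :
    X y - (k + 1) * P.sh x y < X x + k := by
  obtain ⟨n, a, b, e⟩ := P.win hy (X x)
  have := h.win hf e a b
  omega

/-- The clique `Q` with all shifts zero. -/
structure Fl (P : PM W k r Fe) (Q : Finset W) : Prop where
  cl : ∀ x ∈ Q, ∀ y ∈ Q, ¬ Fe x y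
  z : ∀ x ∈ Q, ∀ y ∈ Q, y ≠ x → P.sh x y = 0

/-- The set `Q` is flat: the shifts on it are differences. -/
def Flat (P : PM W k r Fe) (Q : Finset W) : Prop :=
  ∃ j : W → ℤ, ∀ x ∈ Q, ∀ y ∈ Q, y ≠ x → P.sh x y = j y - j x

variable {Q : Finset W}

lemma Flat.fl (h : P.Flat Q) (cl : ∀ x ∈ Q, ∀ y ∈ Q, ¬ Fe x y) : ∃ j, (P.relift j).Fl Q := by
  obtain ⟨j, hj⟩ := h
  exact ⟨j, cl, fun x hx y hy e => by have := hj x hx y hy e; simp only [relift]; omega⟩

lemma Flat.of_relift {j : W → ℤ} (h : (P.relift j).Flat Q) : P.Flat Q := by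
  obtain ⟨i, hi⟩ := h
  exact ⟨fun x => i x + j x, fun x hx y hy e => by
    have := hi x hx y hy e; simp only [relift] at this ⊢; omega⟩

lemma Flat.of_rev (h : P.rev.Flat Q) : P.Flat Q := by
  obtain ⟨i, hi⟩ := h
  exact ⟨fun x => -i x, fun x hx y hy e => by
    have := hi x hx y hy e; simp only [rev] at this ⊢; omega⟩

/-- A clique all of whose triangles have winding zero is flat. -/
lemma flat_of_tri (cl : ∀ x ∈ Q, ∀ y ∈ Q, ¬ Fe x y)
    (h : ∀ x ∈ Q, ∀ y ∈ Q, ∀ z ∈ Q, y ≠ x → z ≠ y → x ≠ z → P.sh x y + P.sh y z + P.sh z x = 0) :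
    P.Flat Q := by
  classical
  rcases Q.eq_empty_or_nonempty with rfl | ⟨o, ho⟩
  · exact ⟨0, by simp⟩
  refine ⟨fun x => if x = o then 0 else P.sh o x, fun x hx y hy e => ?_⟩
  by_cases a : x = o
  · subst a; simp [e]
  by_cases b : y = o
  · subst b; simp [a, P.sh_neg (cl x hx y hy) e]
  have h1 := h o ho x hx y hy a e (Ne.symm b)
  have h2 := P.sh_neg (cl o ho y hy) b
  simp only [a, b, if_false]; omega

namespace Fl

lemma it (q : P.Fl Q) (hx : x ∈ Q) (hy : y ∈ Q) (e : P.it x n = y) : P.it y n = x := by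
  simpa [q.z x hx y hy (e ▸ P.ne x n)] using P.it_co (q.cl x hx y hy) e

lemma side (q : P.Fl Q) (h : P.Cut X) (hx : x ∈ Q) (hy : y ∈ Q) (e : P.it x n = y) :
    n < X x ↔ n < X y := by
  simpa [q.z x hx y hy (e ▸ P.ne x n)] using h.side (q.cl x hx y hy) e

/-- Lemma M. -/
lemma near (q : P.Fl Q) (h : P.Cut X) (hx : x ∈ Q) (hy : y ∈ Q) : X y < X x + k := by
  by_cases e : y = x
  · have := P.k_pos x; rw [e]; omega
  · simpa [q.z x hx y hy e] using h.near (q.cl x hx y hy) e

/-- Lemma M, equality: the next step of the top particle goes with the bottom particle. -/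
lemma top (q : P.Fl Q) (h : P.Cut X) (hv : v ∈ Q) (hu : u ∈ Q) (huv : u ≠ v)
    (e : X u + 1 = X v + k) : P.it v (X u) = u := by
  obtain ⟨n, a, b, f⟩ := P.win huv (X v)
  have := (q.side h hv hu f).not.1 (by omega)
  rwa [show X u = n by omega]

/-- Lemma S, past sweep of the top particle. -/
lemma past (q : P.Fl Q) (h : P.Cut X) (hv : v ∈ Q) (hu : u ∈ Q) (huv : u ≠ v)
    (e : X u + 1 = X v + k) (hw : w ∈ Q) (wu : w ≠ u) (wv : w ≠ v) :
    ∃ l, X v ≤ l ∧ l < X w ∧ l < X u ∧ P.it u l = w := by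
  obtain ⟨n, a, b, f⟩ := P.win wu (X v)
  have g := q.it hv hu (q.top h hv hu huv e)
  have : n ≠ X u := fun c => wv (by rw [← f, c, g])
  exact ⟨n, a, (q.side h hu hw f).1 (by omega), by omega, f⟩

/-- Lemma S, future sweep of the bottom particle. -/
lemma fut (q : P.Fl Q) (h : P.Cut X) (hv : v ∈ Q) (hu : u ∈ Q) (huv : u ≠ v)
    (e : X u + 1 = X v + k) (hw : w ∈ Q) (wu : w ≠ u) (wv : w ≠ v) :
    ∃ l, X v ≤ l ∧ X w ≤ l ∧ l < X u ∧ P.it v l = w := by
  obtain ⟨n, a, b, f⟩ := P.win wv (X v)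
  have g := q.top h hv hu huv e
  have : n ≠ X u := fun c => wu (by rw [← f, c, g])
  exact ⟨n, a, not_lt.1 ((q.side h hv hw f).not.1 (by omega)), by omega, f⟩

/-- Lemma J: a centre needs three steps from a high partner to a low partner. -/
lemma jump (q : P.Fl Q) (hx : x ∈ Q) (hy : y ∈ Q) (fx : ¬ Fe c x) (fy : ¬ Fe c y) {n' : ℤ}
    (e : P.it c n = x) (e' : P.it c n' = y) (hn : n < n') (s : P.sh c x = P.sh c y + 1) :
    n + 3 ≤ n' := by
  obtain ⟨X, h, a, b⟩ := P.cut_after c n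
  have h1 := b x fx e
  have h2 := (h.side fy e').not.1 (by omega)
  have h3 := q.near h hy hx
  rw [s, mul_add] at h1
  omega

lemma arith {k t w i : ℤ} (h1 : 1 ≤ t) (h2 : t < k) (e : t + (k + 1) * w = k * i) (h3 : -k < k * i)
    (h4 : k * i < 2 * k) : False := by
  have a : -1 < i := by nlinarith
  have b : i < 2 := by nlinarith
  have : i = 0 ∨ i = 1 := by omega
  rcases lt_trichotomy w 0 with g | g | g
  · rcases this with rfl | rfl <;> nlinarith
  · subst g; rcases this with rfl | rfl <;> omega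
  · rcases this with rfl | rfl <;> nlinarith

/-- The edges from a centre to `Q` have different labels. -/
lemma lab_inj (q : P.Fl Q) (hx : x ∈ Q) (hy : y ∈ Q) (fx : ¬ Fe x c) (fy : ¬ Fe y c)
    (e : P.it x n = c) (e' : P.it y n = c) : x = y := by
  by_contra hne
  obtain ⟨X, h, a, b⟩ := P.cut_before x n
  have h1 := b c fx e
  have cy : y ≠ c := fun g => P.ne y n (e'.trans g.symm)
  have fy' : ¬ Fe c y := fun g => fy (P.sym _ _ g)
  obtain ⟨m, m1, m2, f⟩ := P.win cy (X c)
  have h2 := h.win fy' f m1 m2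
  have h3 : m ≠ X c := fun g => hne (by rw [← f, g, h1, P.it_co fx e])
  obtain ⟨i, hi⟩ := (P.inj y _ _).1 (e'.trans (P.it_co fy' f).symm)
  have h4 := q.near h hx hy
  have h5 := q.near h hy hx
  exact arith (k := k) (t := m - X c) (w := P.sh x c + P.sh c y) (i := i) (by omega) (by omega)
    (by rw [← hi, h1]; ring) (by omega) (by omega)

end Fl

/-- The centre `c` has an edge to `Q` with label `l`. -/
def Has (P : PM W k r Fe) (Q : Finset W) (c : W) (l : ℤ) : Prop :=
  ∃ x ∈ Q, ¬ Fe x c ∧ P.it x l = c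

lemma Has.per {l l' : ℤ} (h : P.Has Q c l) (d : (k : ℤ) ∣ l' - l) : P.Has Q c l' := by
  obtain ⟨x, hx, f, e⟩ := h
  exact ⟨x, hx, f, ((P.inj x l l').2 d).symm.trans e⟩

/-- Lemma C: the next step of `c` is not an edge to `Q`. -/
lemma Cut.miss (h : P.Cut X) (hc : P.it c (X c) ∉ Q ∨ Fe c (P.it c (X c))) {L : ℤ}
    (d : (k : ℤ) + 1 ∣ L - X c) (hL : ∀ x ∈ Q, X x ≤ L + k ∧ L < X x + k) : ¬ P.Has Q c L := by
  rintro ⟨y, hy, fy, e'⟩
  have cy : y ≠ c := fun g => P.ne y L (e'.trans g.symm)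
  have fy' : ¬ Fe c y := fun g => fy (P.sym _ _ g)
  obtain ⟨m, m1, m2, f⟩ := P.win cy (X c)
  have h2 := h.win fy' f m1 m2
  have h3 : m ≠ X c := fun g => by
    rw [← g, f] at hc
    exact hc.elim (fun a => a hy) fy'
  obtain ⟨i, hi⟩ := (P.inj y _ _).1 (e'.trans (P.it_co fy' f).symm)
  obtain ⟨j, hj⟩ := d
  have h4 := hL y hy
  exact Fl.arith (k := k) (t := m - X c) (w := P.sh c y - j) (i := i) (by omega) (by omega)
    (by rw [← hi]; linarith) (by omega) (by omega)

open Classical in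
/-- The number of defects at a label: centres that miss it and ports of `Q` that carry it. -/
noncomputable def dfc [Fintype W] (P : PM W k r Fe) (Q : Finset W) (l : ℤ) : ℕ :=
  (Qᶜ.filter fun c => ¬ P.Has Q c l).card + (Q.filter fun x => Fe x (P.it x l)).card

section Defect
variable [Fintype W]
open Classical

lemma Fl.has_card (q : P.Fl Q) (l : ℤ) : (Qᶜ.filter fun c => P.Has Q c l).card =
    (Q.filter fun x => P.it x l ∉ Q ∧ ¬ Fe x (P.it x l)).card := by
  symm
  refine card_bij (fun x _ => P.it x l) (fun x hx => ?_) (fun x hx y hy e => ?_) fun c hc => ?_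
  · simp only [mem_filter, mem_compl] at hx ⊢
    exact ⟨hx.2.1, x, hx.1, hx.2.2, rfl⟩
  · simp only [mem_filter] at hx hy
    exact q.lab_inj hx.1 hy.1 hx.2.2 (e ▸ hy.2.2) rfl e.symm
  · simp only [mem_filter, mem_compl] at hc ⊢
    obtain ⟨h1, x, hx, f, e⟩ := hc
    exact ⟨x, ⟨hx, e ▸ h1, e ▸ f⟩, e⟩

lemma Fl.out_card (q : P.Fl Q) (l : ℤ) : (Q.filter fun x => P.it x l ∉ Q).card =
    (Qᶜ.filter fun c => P.Has Q c l).card + (Q.filter fun x => Fe x (P.it x l)).card := by
  rw [q.has_card, ← card_union_of_disjoint (disjoint_filter.2 fun x _ a b => a.2 b)]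
  congr 1
  ext x
  simp only [mem_filter, mem_union]
  constructor
  · intro h; by_cases f : Fe x (P.it x l) <;> tauto
  · rintro (h | h)
    · tauto
    · exact ⟨h.1, fun a => q.cl x h.1 _ a h.2⟩

omit [Fintype W] in
lemma Fl.in_even (q : P.Fl Q) (l : ℤ) : Even (Q.filter fun x => P.it x l ∈ Q).card := by
  have := sum_involution (s := Q.filter fun x => P.it x l ∈ Q) (f := fun _ => (1 : ZMod 2))
    (fun x _ => P.it x l) (fun _ _ => by decide) (fun x _ _ => P.ne x l)
    (fun x hx => by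
      simp only [mem_filter] at hx ⊢
      exact ⟨hx.2, (q.it hx.1 hx.2 rfl).symm ▸ hx.1⟩)
    (fun x hx => by simp only [mem_filter] at hx; exact q.it hx.1 hx.2 rfl)
  rw [sum_const, nsmul_eq_mul, mul_one] at this
  exact ZMod.natCast_eq_zero_iff_even.1 this

/-- Lemma P: with an even clique and an odd number of centres every label has an odd number of
defects. -/
lemma Fl.dfc_odd (q : P.Fl Q) (hQ : Even Q.card) (hC : Odd Qᶜ.card) (l : ℤ) : Odd (P.dfc Q l) := by
  have h1 := q.out_card l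
  have h2 := q.in_even l
  have h3 := card_filter_add_card_filter_not (s := Q) fun x => P.it x l ∈ Q
  have h4 := card_filter_add_card_filter_not (s := Qᶜ) fun c => P.Has Q c l
  unfold dfc
  rw [Nat.even_iff] at hQ h2
  rw [Nat.odd_iff] at hC ⊢
  omega

lemma dfc_per {l l' : ℤ} (d : (k : ℤ) ∣ l' - l) : P.dfc Q l = P.dfc Q l' := by
  unfold dfc
  congr 2
  · exact filter_congr fun c _ => not_congr
      ⟨fun h => h.per d, fun h => h.per (by rw [← neg_sub]; exact d.neg_right)⟩
  · exact filter_congr fun x _ => by rw [(P.inj x l l').2 d]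

/-- The total number of defects, `Pt` lists the ports of `Q`. -/
lemma Fl.dfc_sum (q : P.Fl Q) {Pt : Finset (W × W)} (hP : ∀ x ∈ Q, ∀ y, Fe x y → (x, y) ∈ Pt)
    (a : ℤ) : ∑ l ∈ Ico a (a + k), P.dfc Q l + Q.card * Qᶜ.card ≤ k * Qᶜ.card + 2 * Pt.card := by
  have h1 : ∑ l ∈ Ico a (a + k), (Q.filter fun x => Fe x (P.it x l)).card ≤ Pt.card := by
    rw [← card_sigma]
    refine card_le_card_of_injOn (fun s => (s.2, P.it s.2 s.1)) (fun s hs => ?_) ?_
    · simp only [coe_sigma, Set.mem_sigma_iff, mem_coe, mem_filter] at hs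
      exact hP _ hs.2.1 _ hs.2.2
    · rintro ⟨l, x⟩ hs ⟨l', x'⟩ hs' e
      simp only [coe_sigma, Set.mem_sigma_iff, mem_coe, mem_filter, mem_Ico] at hs hs'
      obtain ⟨rfl, e2⟩ := Prod.mk.inj e
      obtain rfl : l = l' := P.uniq e2 (show l < l' + k by omega) (show l' < l + k by omega)
      rfl
  have h2 : Q.card * Qᶜ.card ≤ ∑ l ∈ Ico a (a + k), (Q.filter fun x => P.it x l ∉ Q).card := by
    rw [← card_sigma, ← card_product]
    refine card_le_card_of_surjOn (fun s => (s.2, P.it s.2 s.1)) ?_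
    rintro ⟨x, c⟩ hs
    simp only [coe_product, Set.mem_prod, mem_coe, mem_compl] at hs
    obtain ⟨n, n1, n2, e⟩ := P.win (x := x) (y := c) (fun g => hs.2 (g ▸ hs.1)) a
    exact ⟨⟨n, x⟩, by simp [n1, n2, e, hs.1, hs.2], by simp [e]⟩
  have h3 : ∑ l ∈ Ico a (a + k), (P.dfc Q l + (Q.filter fun x => P.it x l ∉ Q).card) =
      ∑ l ∈ Ico a (a + k), (Qᶜ.card + 2 * (Q.filter fun x => Fe x (P.it x l)).card) := by
    refine sum_congr rfl fun l _ => ?_
    have h1 := q.out_card l
    have h4 := card_filter_add_card_filter_not (s := Qᶜ) fun c => P.Has Q c l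
    unfold dfc
    omega
  rw [sum_add_distrib, sum_add_distrib, ← mul_sum, sum_const, Int.card_Ico] at h3
  simp only [add_sub_cancel_left, Int.toNat_natCast, smul_eq_mul] at h3
  omega

/-- Two labels together carry at most the surplus of defects. -/
lemma Fl.dfc_two (q : P.Fl Q) (hQ : Even Q.card) (hC : Odd Qᶜ.card) {Pt : Finset (W × W)}
    (hP : ∀ x ∈ Q, ∀ y, Fe x y → (x, y) ∈ Pt) {l l' : ℤ} (d : ¬ (k : ℤ) ∣ l' - l) (hk : 0 < k) :
    P.dfc Q l + P.dfc Q l' + k + Q.card * Qᶜ.card ≤ k * Qᶜ.card + 2 * Pt.card + 2 := by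
  have hk' : (0 : ℤ) < k := by exact_mod_cast hk
  have h := q.dfc_sum hP l
  have m0 := Int.emod_nonneg (l' - l) hk'.ne'
  have m1 := Int.emod_lt_of_pos (l' - l) hk'
  have m2 : (l' - l) % k ≠ 0 := fun e => d (Int.dvd_of_emod_eq_zero e)
  have e : P.dfc Q (l + (l' - l) % k) = P.dfc Q l' :=
    dfc_per ⟨(l' - l) / k, by have := Int.emod_add_mul_ediv (l' - l) k; linarith⟩
  have a1 : l ∈ Ico l (l + k) := mem_Ico.2 ⟨le_rfl, by omega⟩
  have a2 : l + (l' - l) % k ∈ (Ico l (l + k)).erase l :=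
    mem_erase.2 ⟨by omega, mem_Ico.2 ⟨by omega, by omega⟩⟩
  rw [← add_sum_erase _ _ a1, ← add_sum_erase _ _ a2, e] at h
  have h2 := card_nsmul_le_sum (((Ico l (l + k)).erase l).erase (l + (l' - l) % k))
    (fun i => P.dfc Q i) 1 fun i _ => (q.dfc_odd hQ hC i).pos
  rw [card_erase_of_mem a2, card_erase_of_mem a1, Int.card_Ico] at h2
  simp only [add_sub_cancel_left, Int.toNat_natCast, smul_eq_mul] at h2
  omega

/-- Two centres that miss a label are two defects. -/
lemma two_le_dfc {c' : W} {l : ℤ} (hc : c ∉ Q) (hc' : c' ∉ Q) (e : c ≠ c') (m : ¬ P.Has Q c l)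
    (m' : ¬ P.Has Q c' l) : 2 ≤ P.dfc Q l :=
  le_add_right (one_lt_card.2 ⟨c, by simp [hc, m], c', by simp [hc', m'], e⟩)

lemma two_le_dfc' {l : ℤ} (hc : c ∉ Q) (m : ¬ P.Has Q c l) (hx : x ∈ Q) (f : Fe x (P.it x l)) :
    2 ≤ P.dfc Q l :=
  Nat.add_le_add (card_pos.2 ⟨c, by simp [hc, m]⟩) (card_pos.2 ⟨x, by simp [hx, f]⟩)

lemma two_le_dfc'' {l : ℤ} (hx : x ∈ Q) (f : Fe x (P.it x l)) (hy : y ∈ Q) (g : Fe y (P.it y l))
    (e : x ≠ y) : 2 ≤ P.dfc Q l :=
  le_add_left (one_lt_card.2 ⟨x, by simp [hx, f], y, by simp [hy, g], e⟩)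

end Defect

/-- The window of Lemma C contains an image of every site. -/
lemma Fl.exists_img (q : P.Fl Q) (h : P.Cut X) (hQ : Q.Nonempty) (s : ℤ) :
    ∃ L, (k : ℤ) + 1 ∣ L - s ∧ ∀ x ∈ Q, X x ≤ L + k ∧ L < X x + k := by
  obtain ⟨u, hu, top⟩ := Q.exists_max_image X hQ
  have hk : (0 : ℤ) < k + 1 := by positivity
  have m0 := Int.emod_nonneg (s - (X u - k)) hk.ne'
  have m1 := Int.emod_lt_of_pos (s - (X u - k)) hk
  refine ⟨X u - k + (s - (X u - k)) % (k + 1), ⟨-((s - (X u - k)) / (k + 1)), ?_⟩, fun x hx => ?_⟩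
  · have := Int.emod_add_mul_ediv (s - (X u - k)) (k + 1); linarith
  · have := top x hx
    have := q.near h hx hu
    omega

end PM

end Pool.Agent.P.MP_3f5ded_co.UG
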