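import Pool.Agent.P.MP_3f5ded_co.EPM

set_option autoImplicit false

namespace Pool.Agent.P.MP_3f5ded_co.UG

open Finset

namespace PM
variable {W : Type} {k : ℕ} {r : ℝ} {Fe : W → W → Prop} {P : PM W k r Fe} {Q : Finset W}
  {X : W → ℤ} {c x : W} {n : ℤ}

/-- The item `n` of the centre `c` is an edge to `Q` with shift `s`. -/
def Ty (P : PM W k r Fe) (Q : Finset W) (s : ℤ) (c : W) (n : ℤ) : Prop :=
  P.it c n ∈ Q ∧ ¬ Fe c (P.it c n) ∧ P.sh c (P.it c n) = s

lemma Ty.ne {s s' : ℤ} (a : P.Ty Q s c n) (b : P.Ty Q s' c n) : s = s' := a.2.2.symm.trans b.2.2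

lemma Ty.zero (h : P.Cut X) (a : P.Ty Q 0 c n) :
    P.it (P.it c n) n = c ∧ (n < X c ↔ n < X (P.it c n)) := by
  simpa [a.2.2] using And.intro (P.it_co a.2.1 rfl) (h.side a.2.1 rfl)

lemma Ty.one (h : P.Cut X) (a : P.Ty Q 1 c n) : P.it (P.it c n) (n + 1) = c ∧
    (n < X c ↔ n + k + 1 < X (P.it c n)) ∧ (n < X c + k ↔ n + 1 < X (P.it c n)) := by
  have h1 := P.it_co a.2.1 rfl
  have h2 := h.side a.2.1 rfl
  have h3 := h.add.side a.2.1 rfl
  rw [a.2.2] at h1 h2 h3
  refine ⟨?_, by omega, by omega⟩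
  rw [← P.it_add, show n + 1 + k = n + (k + 1) * 1 by ring, h1]

lemma Fl.jump' (q : P.Fl Q) {n' : ℤ} (b : P.Ty Q 1 c n) (a : P.Ty Q 0 c n') (hn : n < n') :
    n + 3 ≤ n' :=
  q.jump b.1 a.1 b.2.1 a.2.1 rfl rfl hn (by rw [b.2.2, a.2.2]; rfl)

lemma Cut.ty (h : P.Cut X) (rng : ∀ x ∈ Q, 0 ≤ X x ∧ X x < k) (Xc : X c = -1) (h1 : -1 ≤ n)
    (h2 : n + 2 ≤ k) (hx : P.it c n ∈ Q) (f : ¬ Fe c (P.it c n)) : P.Ty Q 0 c n ∨ P.Ty Q 1 c n := by
  have a := h.win f rfl (by omega) (by omega)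
  have b := rng _ hx
  have : P.sh c (P.it c n) = 0 ∨ P.sh c (P.it c n) = 1 := by
    have g1 : -1 < P.sh c (P.it c n) := by nlinarith [a.1]
    have g2 : P.sh c (P.it c n) < 2 := by nlinarith [a.2]
    omega
  exact this.imp (fun e => ⟨hx, f, e⟩) fun e => ⟨hx, f, e⟩

lemma Cut.has (h : P.Cut X) (rng : ∀ x ∈ Q, 0 ≤ X x ∧ X x < k) (Xc : X c = -1) {l : ℤ}
    (h1 : 0 ≤ l) (h2 : l < k) (hl : P.Has Q c l) :
    (l + 2 ≤ k ∧ P.Ty Q 0 c l) ∨ P.Ty Q 1 c (l - 1) := by
  obtain ⟨x, hx, f, e⟩ := hl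
  obtain ⟨n, n1, n2, g⟩ := P.win (x := c) (y := x) (fun a => P.ne x l (e.trans a.symm)) (-1)
  have b := rng x hx
  rcases h.ty rng Xc n1 (by omega) (g ▸ hx) (g ▸ fun a => f (P.sym _ _ a)) with a | a
  · have a1 := a.zero h
    rw [g] at a1
    obtain rfl : n = l := P.uniq (a1.1.trans e.symm) (by omega) (by omega)
    exact Or.inl ⟨by omega, a⟩
  · have a1 := a.one h
    rw [g] at a1
    obtain rfl : n + 1 = l := P.uniq (a1.1.trans e.symm) (by omega) (by omega)
    exact Or.inr (by simpa using a)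

/-- The normalised frame with spread `k - 1`: centres `q'`, `p`, `z`, the edges `q'p` and `q'z` are
consecutive at `q'`. -/
structure M0 (P : PM W k r Fe) (Q : Finset W) (p q' z u v : W) (X : W → ℤ) : Prop where
  hk : 12 ≤ k
  fl : P.Fl Q
  out : ∀ y, y ∉ Q ↔ y = p ∨ y = q' ∨ y = z
  pq : p ≠ q'
  pz : p ≠ z
  qz : q' ≠ z
  cut : P.Cut X
  xq : X q' = -1
  xz : X z = -1
  xp' : -1 ≤ X p
  ip : P.it p (-2) = q'
  iq : P.it q' (-2) = p
  iq' : P.it q' (-1) = z
  iz : P.it z (-1) = q'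
  rng : ∀ x ∈ Q, 0 ≤ X x ∧ X x < k
  hv : v ∈ Q
  hu : u ∈ Q
  xv : X v = 0
  xu : X u + 1 = k

/-- The label `0` has one defect and `p` has no port except `p'` and perhaps `z`. -/
structure M1 [Fintype W] (P : PM W k r Fe) (Q : Finset W) (p p' q' z u v : W) (X : W → ℤ) : Prop
    extends P.M0 Q p q' z u v X where
  one0 : P.dfc Q 0 ≤ 1
  fp' : ∀ y, Fe p y → y = z ∨ y = p'

/-- The normalised data of mode (ii). -/
structure M2 [Fintype W] (P : PM W k r Fe) (Q : Finset W) (p p' q q' z u v : W) (X : W → ℤ) :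
    Prop extends P.M1 Q p p' q' z u v X where
  fp : Fe p p'
  fq : ∀ y, Fe q' y ↔ y = q
  fz : Fe q z
  one : ∀ l : ℤ, 0 ≤ l → l + 2 ≤ k → P.dfc Q l ≤ 1

lemma has_of_one [Fintype W] {c' : W} {l : ℤ} (h : P.dfc Q l ≤ 1) (hc : c ∉ Q) (hc' : c' ∉ Q)
    (e : c ≠ c') (a : ¬ P.Has Q c l) : P.Has Q c' l := by
  by_contra b
  have := two_le_dfc hc hc' e a b
  omega

lemma has_of_port [Fintype W] {l : ℤ} (h : P.dfc Q l ≤ 1) (hc : c ∉ Q) (hx : x ∈ Q)
    (f : Fe x (P.it x l)) : P.Has Q c l := by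
  by_contra b
  have := two_le_dfc' hc b hx f
  omega

namespace M0
variable {p q' z u v : W} (m : P.M0 Q p q' z u v X)
include m

lemma np : p ∉ Q := (m.out p).2 (by simp)
lemma nq : q' ∉ Q := (m.out q').2 (by simp)
lemma nz : z ∉ Q := (m.out z).2 (by simp)

lemma uv : u ≠ v := fun e => by have := m.xv; have := m.xu; have := m.hk; rw [e] at *; omega

lemma vu : P.it v (k - 1) = u := by
  have := m.fl.top m.cut m.hv m.hu m.uv (by rw [m.xv, m.xu]; simp)
  rwa [show X u = k - 1 by have := m.xu; omega] at this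

lemma uv' : P.it u (k - 1) = v := m.fl.it m.hv m.hu m.vu

lemma bot (hx : x ∈ Q) (e : X x ≤ 0) : x = v := by
  have a := m.rng x hx
  have b := m.xu
  have ux : u ≠ x := fun g => by have := m.hk; rw [g] at b; omega
  have := m.fl.it hx m.hu (m.fl.top m.cut hx m.hu ux (by omega))
  rw [show X u = k - 1 by omega, m.uv'] at this
  exact this.symm

lemma top (hx : x ∈ Q) (e : k ≤ X x + 1) : x = u := by
  have a := m.rng x hx
  have b := m.xv
  have xv : x ≠ v := fun g => by have := m.hk; rw [g] at e; omega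
  have := m.fl.top m.cut m.hv hx xv (by omega)
  rw [show X x = k - 1 by omega, m.vu] at this
  exact this.symm

end M0

namespace M1
variable [Fintype W] {p p' q' z u v : W} (m : P.M1 Q p p' q' z u v X)
include m

lemma lab0' : P.Has Q p 0 ∧ ∃ c, (c = q' ∨ c = z) ∧ P.Ty Q 0 c 0 ∧ P.it c 0 = v ∧ P.it v 0 = c := by
  have hk := m.hk
  have key : ∀ c, X c = -1 → P.it c (-1) ∉ Q → P.Has Q c 0 →
      P.Ty Q 0 c 0 ∧ P.it c 0 = v ∧ P.it v 0 = c := fun c xc o h => by
    rcases m.cut.has m.rng xc le_rfl (by omega) h with ⟨-, a⟩ | a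
    · have a1 := a.zero m.cut
      have e := m.bot a.1 (by omega)
      exact ⟨a, e, e ▸ a1.1⟩
    · exact absurd a.1 o
  have k1 := key q' m.xq (m.iq' ▸ m.nz)
  have k2 := key z m.xz (m.iz ▸ m.nq)
  by_cases h : P.Has Q q' 0
  · have h2 : ¬ P.Has Q z 0 := fun g => m.qz ((k1 h).2.2.symm.trans (k2 g).2.2)
    exact ⟨has_of_one m.one0 m.nz m.np m.pz.symm h2, _, Or.inl rfl, k1 h⟩
  · exact ⟨has_of_one m.one0 m.nq m.np m.pq.symm h, _, Or.inr rfl,
      k2 (has_of_one m.one0 m.nq m.nz m.qz h)⟩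

lemma lab0 : P.Has Q p 0 ∧ (P.it v 0 = q' ∨ P.it v 0 = z) := by
  obtain ⟨a, c, b, -, -, e⟩ := m.lab0'
  exact ⟨a, e ▸ b⟩

lemma v0 : P.it v 0 ∉ Q := by
  rcases m.lab0.2 with e | e <;> rw [e]
  exacts [m.nq, m.nz]

/-- The centre `p` has not moved since its edge to `q'`. -/
lemma xp {Y : W → ℤ} (g : P.Cut Y) (zp : Y p = -1) (lo : ∀ x ∈ Q, 0 ≤ Y x) (yu : k ≤ Y u + 1) :
    X p = -1 := by
  have hk := m.hk
  have := m.xp'
  by_contra c
  have l2 := g.le m.cut (x := p) (by omega)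
  rcases g.has (Q := Q) (fun x hx => by have := m.rng x hx; have := lo x hx; have := l2 x; omega) zp
    le_rfl (by omega) m.lab0.1 with ⟨-, a⟩ | a
  · have b := a.zero g
    have b1 := lo _ a.1
    have b3 := m.xu
    have b5 := l2 u
    have ne : u ≠ P.it p 0 := fun e => by rw [← e] at b; omega
    have := m.fl.it a.1 m.hu (m.fl.top g a.1 m.hu ne (by omega))
    rw [show Y u = k - 1 by omega, m.uv'] at this
    rw [← this] at b
    rcases m.lab0.2 with e | e
    exacts [m.pq (b.1.symm.trans e), m.pz (b.1.symm.trans e)]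
  · have b := a.one m.cut
    have := m.rng _ a.1
    omega

lemma trip (xp : X p = -1) (h1 : -1 ≤ n) (h2 : n + 3 ≤ k) :
    P.Ty Q 0 p n ∨ P.Ty Q 1 p n ∨ P.it p n = z ∨ P.it p n = p' := by
  by_cases f : Fe p (P.it p n)
  · exact Or.inr (Or.inr (m.fp' _ f))
  by_cases ez : P.it p n = z
  · exact Or.inr (Or.inr (Or.inl ez))
  have hx : P.it p n ∈ Q := by
    by_contra a
    rcases (m.out _).1 a with e | e | e
    · exact P.ne _ _ e
    · have := P.uniq (e.trans m.ip.symm) (by omega) (by omega); omega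
    · exact ez e
  exact (m.cut.ty m.rng xp h1 (by omega) hx f).imp_right Or.inl

lemma pB (xp : X p = -1) : P.Ty Q 1 p (-1) := by
  have hk := m.hk
  rcases m.cut.has m.rng xp le_rfl (by omega) m.lab0.1 with ⟨-, a⟩ | a
  · have a1 := a.zero m.cut
    have e := m.bot a.1 (by omega)
    rw [e] at a1
    rcases m.lab0.2 with g | g
    · exact absurd (a1.1.symm.trans g) m.pq
    · exact absurd (a1.1.symm.trans g) m.pz
  · exact a

/-- The word of `p`: high edges, two ports, low edges, high edges. -/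
lemma word (xp : X p = -1) (hA : ∃ n : ℤ, -1 ≤ n ∧ n + 3 ≤ k ∧ P.Ty Q 0 p n) :
    ∃ i : ℤ, 1 ≤ i ∧ i + 4 ≤ k ∧ P.Ty Q 0 p (i + 1) ∧ (∀ n : ℤ, -1 ≤ n → n ≤ i → ¬ P.Ty Q 0 p n) ∧
      ¬ P.Ty Q 1 p (i - 1) ∧ (∀ n : ℤ, -1 ≤ n → n + 2 ≤ i → P.Ty Q 1 p n) ∧
      (∀ n : ℤ, i + 1 ≤ n → n + 3 ≤ k → P.Ty Q 0 p n ∨ P.Ty Q 1 p n) ∧
      ∀ n : ℤ, n + 3 ≤ k → P.Ty Q 0 p n → ∀ n', i + 1 ≤ n' → n' ≤ n → P.Ty Q 0 p n' := by
  obtain ⟨c, ⟨c1, c2, A⟩, hmin⟩ := Int.exists_least_of_bdd ⟨-1, fun n h => h.1⟩ hA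
  have B := m.pB xp
  have c3 : c ≠ -1 := fun e => by have := (e ▸ A).ne B; omega
  have c4 := m.fl.jump' B A (by omega)
  have nA : ∀ n : ℤ, -1 ≤ n → n < c → ¬ P.Ty Q 0 p n := fun n a b g => by
    have := hmin n ⟨a, by omega, g⟩; omega
  have nB : ∀ n, c - 2 ≤ n → n < c → ¬ P.Ty Q 1 p n := fun n a b g => by
    have := m.fl.jump' g A b; omega
  have po : ∀ n, c - 2 ≤ n → n < c → P.it p n = z ∨ P.it p n = p' := fun n a b => by
    rcases m.trip xp (n := n) (by omega) (by omega) with g | g | g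
    exacts [absurd g (nA n (by omega) b), absurd g (nB n a b), g]
  have AB : ∀ n : ℤ, -1 ≤ n → n + 3 ≤ k → n ≠ c - 1 → n ≠ c - 2 → P.Ty Q 0 p n ∨ P.Ty Q 1 p n :=
    fun n a b g1 g2 => by
    rcases m.trip xp a b with g | g | g
    · exact Or.inl g
    · exact Or.inr g
    have u1 : P.it p n ≠ P.it p (c - 1) := fun e => g1 (P.uniq e (by omega) (by omega))
    have u2 : P.it p n ≠ P.it p (c - 2) := fun e => g2 (P.uniq e (by omega) (by omega))
    have u3 : P.it p (c - 1) ≠ P.it p (c - 2) := fun e => by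
      have := P.uniq e (by omega) (by omega); omega
    rcases po (c - 1) (by omega) (by omega) with e | e <;>
      rcases po (c - 2) (by omega) (by omega) with e' | e' <;> rcases g with g | g <;> simp_all
  refine ⟨c - 1, by omega, by omega, by simpa using A, fun n a b => nA n a (by omega),
    nB _ (by omega) (by omega), fun n a b => ?_,
    fun n a b => AB n (by omega) b (by omega) (by omega), fun n a g n' h1 h2 => ?_⟩
  · exact (AB n a (by omega) (by omega) (by omega)).resolve_left (nA n a (by omega))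
  · induction n', h2 using Int.leInductionDown with
    | base => exact g
    | pred t ht ih =>
      refine (AB _ (by omega) (by omega) (by omega) (by omega)).resolve_right fun b => ?_
      have := m.fl.jump' b (ih (by omega)) (by omega); omega

lemma key (xp : X p = -1) {x : W} (hx : x ∈ Q) (e : x ≠ p') : ∃ n : ℤ, -1 ≤ n ∧ n + 3 ≤ k ∧
    P.it p n = x ∧ (P.Ty Q 0 p n ∨ P.Ty Q 1 p n) := by
  obtain ⟨n, n1, n2, g⟩ := P.win (x := p) (y := x) (fun g => m.np (g ▸ hx)) (-2)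
  have a : n ≠ -2 := fun f => m.nq (by rw [← m.ip, ← f, g]; exact hx)
  refine ⟨n, by omega, by omega, g, ?_⟩
  rcases m.trip xp (n := n) (by omega) (by omega) with f | f | f | f
  exacts [Or.inl f, Or.inr f, absurd (by rw [← f, g]; exact hx) m.nz, absurd (g.symm.trans f) e]

/-- The second spread. -/
lemma second (xp : X p = -1) (hA : ∃ n : ℤ, -1 ≤ n ∧ n + 3 ≤ k ∧ P.Ty Q 0 p n) :
    ∃ (i : ℤ) (v2 : W), 1 ≤ i ∧ (∀ n : ℤ, -1 ≤ n → n ≤ i → ¬ P.Ty Q 0 p n) ∧ ¬ P.Ty Q 1 p (i - 1) ∧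
      v = p' ∧ i + 1 ≤ X v2 ∧ P.it u 0 = v2 ∧ P.Ty Q 1 p (k - 3) := by
  have hk := m.hk
  have xv := m.xv
  have xu := m.xu
  have key := fun x => m.key xp (x := x)
  obtain ⟨i, i1, i4, A, nA, nB, allB, AB, Aint⟩ := m.word xp hA
  obtain ⟨Y, hY, yp, -⟩ := P.cut_after p (i - 2)
  have B := allB (i - 2) (by omega) (by omega)
  have le := m.cut.le hY (x := p) (by omega)
  have s1 := (B.one hY).2.1.1 (by omega)
  have s2 := (A.zero hY).2.not.1 (by omega)
  have s3 := m.fl.near hY A.1 B.1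
  have e0 : Y (P.it p (i - 2)) + 1 = Y (P.it p (i + 1)) + k := by omega
  have uv2 : P.it p (i - 2) ≠ P.it p (i + 1) := fun e => by
    have := P.uniq e (by omega) (by omega); omega
  have t1 := m.fl.top hY A.1 B.1 uv2 e0
  rw [show Y (P.it p (i - 2)) = k + i by omega] at t1
  have sw0 : ∀ d : ℕ, ∀ l, l - (i + 1) ≤ d → i + 1 ≤ l → l + 3 ≤ k → P.Ty Q 0 p l →
      P.it (P.it p (i - 2)) (l - 1) = P.it p l := by
    have base : P.it (P.it p (i - 2)) (i + 1 - 1) = P.it p (i + 1) := by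
      have := m.fl.it A.1 B.1 t1
      rw [← P.it_add, show i + 1 - 1 + k = k + i by ring, this]
    intro d
    induction d with
    | zero => intro l _ _ _ _; rwa [show l = i + 1 by omega]
    | succ d ih =>
      intro l g0 hl g2 g
      by_cases e : l = i + 1
      · rwa [e]
      have y1 := (g.zero hY).2.not.1 (by omega)
      obtain ⟨t, f1, f2, f3, f⟩ := m.fl.past hY A.1 B.1 uv2 e0 g.1
        (fun c => by have := P.uniq c (by omega) (by omega); omega)
        (fun c => e (P.uniq c (by omega) (by omega)))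
      by_cases c : t = l - 1
      · rw [← c, f]
      have := ih (t + 1) (by omega) (by omega) (by omega) (Aint l g2 g _ (by omega) (by omega))
      rw [add_sub_cancel_right, f] at this
      have := P.uniq this (by omega) (by omega); omega
  have sw := fun l => sw0 _ l (Int.self_le_toNat _)
  have sy : ∀ d : ℕ, ∀ t : ℤ, 1 ≤ t → t ≤ i → i - t ≤ d →
      P.it (P.it p (i + 1)) (k + t) = P.it p (t - 2) := by
    intro d
    induction d with
    | zero => intro t _ _ _; rwa [show t = i by omega]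
    | succ d ih =>
      intro t g1 g2 g3
      by_cases e : t = i
      · rwa [e]
      have g := allB (t - 2) (by omega) (by omega)
      have y1 := (g.one hY).2.1.1 (by omega)
      obtain ⟨l, f1, f2, f3, f⟩ := m.fl.fut hY A.1 B.1 uv2 e0 g.1
        (fun c => by have := P.uniq c (by omega) (by omega); omega)
        (fun c => by rw [c] at y1; omega)
      by_cases c : l = k + t
      · rw [← c, f]
      have := ih (l - k) (by omega) (by omega) (by omega)
      rw [add_sub_cancel, f] at this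
      have := P.uniq this (by omega) (by omega); omega
  have sy' : ∀ w ∈ Q, w ≠ P.it p (i - 2) → w ≠ P.it p (i + 1) →
      (∀ n : ℤ, -1 ≤ n → n + 2 ≤ i → P.it p n ≠ w) →
      ∃ l, Y w ≤ l ∧ l ≤ k ∧ P.it w l = P.it p (i + 1) := fun w hw g1 g2 g3 => by
    obtain ⟨l, f1, f2, f3, f⟩ := m.fl.fut hY A.1 B.1 uv2 e0 hw g1 g2
    refine ⟨l, f2, ?_, m.fl.it A.1 hw f⟩
    by_contra c
    have := sy _ (l - k) (by omega) (by omega) (Int.self_le_toNat _)
    rw [add_sub_cancel, f] at this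
    exact g3 _ (by omega) (by omega) this.symm
  have vB : ∀ n : ℤ, -1 ≤ n → n + 3 ≤ k → P.Ty Q 1 p n → P.it p n ≠ v := fun n g1 g2 g e => by
    have := (g.one m.cut).2.2.1 (by omega)
    rw [e] at this; omega
  by_cases b : k - 1 < Y v
  · obtain ⟨l, f1, f2, f⟩ := sy' v m.hv (vB _ (by omega) (by omega) B).symm
      (fun c => by rw [c] at b; omega) fun n g1 g2 => vB n g1 (by omega) (allB n g1 g2)
    rw [show l = 0 + k by omega, P.it_add] at f
    exact (m.v0 (f ▸ A.1)).elim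
  have yu : Y u = k - 1 := by
    have := (m.fl.side hY m.hv m.hu m.vu).not.1 b
    have := le u; omega
  have uu : u ≠ P.it p (i - 2) := fun c => by rw [c] at yu; omega
  have uv : u ≠ P.it p (i + 1) := fun c => by rw [c] at yu; omega
  obtain ⟨t, f1, f2, f3, f⟩ := m.fl.past hY A.1 B.1 uv2 e0 m.hu uu uv
  have f4 := (m.fl.side m.cut B.1 m.hu f).2 (by omega)
  have xw : ∀ l, i + 1 ≤ l → l + 3 ≤ k → P.Ty Q 0 p l → l ≤ X (P.it p l) := fun l g1 g2 g => by
    have : l ≤ t := by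
      by_contra c
      have g' := Aint l g2 g (t + 1) (by omega) (by omega)
      have e := sw (t + 1) (by omega) (by omega) g'
      rw [add_sub_cancel_right, f] at e
      have := (g'.zero hY).2.not.1 (by omega)
      rw [← e] at this; omega
    have := (m.fl.side m.cut B.1 g.1 (sw l g1 g2 g)).1 (by omega)
    omega
  have vp : v = p' := by
    by_contra c
    obtain ⟨n, n1, n2, g, f | f⟩ := key v m.hv c
    · have : i < n := not_le.1 fun a => nA n n1 a f
      have := xw n (by omega) n2 f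
      rw [g] at this; omega
    · exact vB n n1 n2 f g
  have x2 := xw (i + 1) le_rfl (by omega) A
  have uy : ∀ n : ℤ, -1 ≤ n → n + 2 ≤ i → P.it p n ≠ u := fun n g1 g2 e => by
    have := ((allB n g1 g2).one hY).2.1.1 (by omega)
    rw [e] at this; omega
  obtain ⟨l, g1, g2, g⟩ := sy' u m.hu uu uv uy
  have : l ≠ k - 1 := fun c => by rw [c, m.uv'] at g; rw [← g] at x2; omega
  rw [show l = 0 + k by omega, P.it_add] at g
  refine ⟨i, _, i1, nA, nB, vp, x2, g, ?_⟩
  obtain ⟨n, n1, n2, e, f | f⟩ := key u m.hu (vp ▸ m.uv)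
  · have := (f.zero m.cut).2.not.1 (by omega)
    rw [e] at this; omega
  refine (AB _ (by omega) (by omega)).resolve_left fun a => ?_
  have c1 : ¬ n + 2 ≤ i := fun c => uy n n1 c e
  have c2 : n ≠ i - 1 := fun c => nB (c ▸ f)
  have c3 : n ≠ i := fun c => by have := m.fl.jump' f A (by omega); omega
  have := (Aint _ (by omega) a n (by omega) (by omega)).ne f
  omega

end M1

namespace M2
variable [Fintype W] {p p' q q' z u v : W} (m : P.M2 Q p p' q q' z u v X)
include m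

lemma d1 {c c' : W} {l : ℤ} (h1 : 0 ≤ l) (h2 : l + 2 ≤ k) (hc : c ∉ Q) (hc' : c' ∉ Q) (e : c ≠ c')
    (a : ¬ P.Has Q c l) : P.Has Q c' l := has_of_one (m.one l h1 h2) hc hc' e a

lemma d2 {l : ℤ} (h1 : 0 ≤ l) (h2 : l + 2 ≤ k) (hc : c ∉ Q) (hx : x ∈ Q) (f : Fe x (P.it x l)) :
    P.Has Q c l := has_of_port (m.one l h1 h2) hc hx f

lemma triq (h1 : 0 ≤ n) (h2 : n + 3 ≤ k) : P.Ty Q 0 q' n ∨ P.Ty Q 1 q' n ∨ P.it q' n = q := by
  have hx : P.it q' n ∈ Q := by
    by_contra a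
    rcases (m.out _).1 a with e | e | e
    · have := P.uniq (e.trans m.iq.symm) (by omega) (by omega); omega
    · exact P.ne _ _ e
    · have := P.uniq (e.trans m.iq'.symm) (by omega) (by omega); omega
  by_cases f : Fe q' (P.it q' n)
  · exact Or.inr (Or.inr ((m.fq _).1 f))
  · exact (m.cut.ty m.rng m.xq (by omega) (by omega) hx f).imp_right Or.inl

lemma noBA (d : ℕ) : ∀ n n' : ℤ, n' - n ≤ d → 0 ≤ n → n < n' → n' + 3 ≤ k → P.Ty Q 1 q' n →
    ¬ P.Ty Q 0 q' n' := by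
  induction d with
  | zero => intro n n' a _ b; omega
  | succ d ih =>
    intro n n' a h0 b h2 B A
    have j := m.fl.jump' B A b
    rcases m.triq (n := n + 1) (by omega) (by omega) with e | e | e
    · have := m.fl.jump' B e (by omega); omega
    · exact ih _ _ (by omega) (by omega) (by omega) h2 e A
    rcases m.triq (n := n + 2) (by omega) (by omega) with e' | e' | e'
    · have := m.fl.jump' B e' (by omega); omega
    · exact ih _ _ (by omega) (by omega) (by omega) h2 e' A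
    · have := P.uniq (e.trans e'.symm) (by omega) (by omega); omega

lemma both (nf : ∀ j, ¬ ∀ x ∈ Q, x ≠ q → P.sh q' x = j) :
    (∃ n : ℤ, 0 ≤ n ∧ n + 3 ≤ k ∧ P.Ty Q 0 q' n) ∧ ∃ n : ℤ, 0 ≤ n ∧ n + 3 ≤ k ∧ P.Ty Q 1 q' n := by
  have key : ∀ x ∈ Q, x ≠ q → ∃ n : ℤ, 0 ≤ n ∧ n + 3 ≤ k ∧ P.it q' n = x ∧
      (P.Ty Q 0 q' n ∨ P.Ty Q 1 q' n) := fun x hx xq => by
    obtain ⟨n, n1, n2, e⟩ := P.win (x := q') (y := x) (fun g => m.nq (g ▸ hx)) (-2)
    have a : n ≠ -2 := fun g => m.np (by rw [← m.iq, ← g, e]; exact hx)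
    have b : n ≠ -1 := fun g => m.nz (by rw [← m.iq', ← g, e]; exact hx)
    refine ⟨n, by omega, by omega, e, ?_⟩
    rcases m.triq (n := n) (by omega) (by omega) with g | g | g
    exacts [Or.inl g, Or.inr g, absurd (e.symm.trans g) xq]
  constructor
  · by_contra a
    refine nf 1 fun x hx xq => ?_
    obtain ⟨n, n1, n2, e, g | g⟩ := key x hx xq
    exacts [absurd ⟨n, n1, n2, g⟩ a, e ▸ g.2.2]
  · by_contra a
    refine nf 0 fun x hx xq => ?_
    obtain ⟨n, n1, n2, e, g | g⟩ := key x hx xq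
    exacts [e ▸ g.2.2, absurd ⟨n, n1, n2, g⟩ a]

/-- The end of the argument: the bottom particle is `p'`. -/
lemma fin (xp : X p = -1) (nf : ∀ j, ¬ ∀ x ∈ Q, x ≠ q → P.sh q' x = j) {i : ℤ} (i1 : 1 ≤ i)
    (nA : ∀ n : ℤ, -1 ≤ n → n ≤ i → ¬ P.Ty Q 0 p n) (nB : ¬ P.Ty Q 1 p (i - 1)) (vp : v = p')
    {v2 : W} (x2 : i + 1 ≤ X v2) (u0 : P.it u 0 = v2) (pB : P.Ty Q 1 p (k - 3)) :
    False := by
  have hk := m.hk
  have xv := m.xv
  have xu := m.xu
  have e0 : X u + 1 = X v + k := by omega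
  have fvp : Fe v p := P.sym _ _ (vp ▸ m.fp)
  obtain ⟨⟨a, a1, a2, A⟩, b, b1, b2, B⟩ := m.both nf
  -- the last item of q' is the port
  have l1 : P.it u (k - 2) = p := by
    have g := pB.one m.cut
    rw [← m.top pB.1 (by omega), show (k : ℤ) - 2 = k - 3 + 1 by ring]
    exact g.1
  have l2 : P.it q' (k - 3) = q := by
    rcases m.triq (n := k - 3) (by omega) (by omega) with g | g | g
    · have : b ≠ k - 3 := fun e => by have := (e ▸ B).ne g; omega
      exact absurd g (m.noBA _ b _ (Int.self_le_toNat _) b1 (by omega) (by omega) B)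
    · have g' := g.one m.cut
      have := m.xq
      rw [m.top g.1 (by omega), show (k : ℤ) - 3 + 1 = k - 2 by ring, l1] at g'
      exact absurd g'.1 m.pq
    · exact g
  have AB : ∀ n : ℤ, 0 ≤ n → n + 4 ≤ k → P.Ty Q 0 q' n ∨ P.Ty Q 1 q' n := fun n g1 g2 => by
    rcases m.triq g1 (by omega) with g | g | g
    exacts [Or.inl g, Or.inr g, by have := P.uniq (g.trans l2.symm) (by omega) (by omega); omega]
  have A0 : P.Ty Q 0 q' 0 := (AB 0 le_rfl (by omega)).resolve_right fun g => by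
    have : a ≠ 0 := fun e => by have := (e ▸ A).ne g; omega
    exact m.noBA _ 0 a (Int.self_le_toNat _) le_rfl (by omega) a2 g A
  have q0 : P.it q' 0 = v := m.bot A0.1 (by have := A0.zero m.cut; have := m.xq; omega)
  have v0 : P.it v 0 = q' := by have := (A0.zero m.cut).1; rwa [q0] at this
  have pu : ∀ w ∈ Q, w ≠ v → X w ≤ 3 → ∃ l, 0 ≤ l ∧ l < X w ∧ P.it u l = w := fun w hw wv xw => by
    obtain ⟨l, g1, g2, -, g⟩ := m.fl.past m.cut m.hv m.hu m.uv e0 hw
      (fun e => by rw [e] at xw; omega) wv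
    exact ⟨l, by omega, g2, g⟩
  have no1 : ∀ w ∈ Q, X w ≤ 1 → w = v := fun w hw xw => by
    by_contra wv
    obtain ⟨l, g1, g2, g⟩ := pu w hw wv (by omega)
    rw [show l = 0 by omega, u0] at g
    rw [g] at x2; omega
  have nA1 : ¬ P.Ty Q 0 q' 1 := fun g => by
    have := no1 _ g.1 (by have := g.zero m.cut; have := m.xq; omega)
    have := P.uniq (this.trans q0.symm) (by omega) (by omega); omega
  have allB : ∀ n : ℤ, 1 ≤ n → n + 4 ≤ k → P.Ty Q 1 q' n := fun n g1 g2 =>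
    (AB n (by omega) g2).resolve_left fun g => by
      have : n ≠ 1 := fun e => nA1 (e ▸ g)
      exact m.noBA _ 1 n (Int.self_le_toNat _) (by omega) (by omega) (by omega)
        ((AB 1 (by omega) (by omega)).resolve_left nA1) g
  have hR : ∀ x ∈ Q, x ≠ v → x ≠ q → ∃ l : ℤ, 2 ≤ l ∧ l < X x ∧ P.it x l = q' := fun x hx g1 g2 => by
    obtain ⟨n, n1, n2, e⟩ := P.win (x := q') (y := x) (fun g => m.nq (g ▸ hx)) (-2)
    have c1 : n ≠ -2 := fun g => m.np (by rw [← m.iq, ← g, e]; exact hx)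
    have c2 : n ≠ -1 := fun g => m.nz (by rw [← m.iq', ← g, e]; exact hx)
    have c3 : n ≠ 0 := fun g => g1 (by rw [← e, g, q0])
    have c4 : n ≠ k - 3 := fun g => g2 (by rw [← e, g, l2])
    have g := (allB n (by omega) (by omega)).one m.cut
    rw [e] at g
    exact ⟨n + 1, by omega, g.2.2.1 (by have := m.xq; omega), g.1⟩
  have m1 : ¬ P.Has Q q' 1 := fun g => by
    rcases m.cut.has m.rng m.xq (by omega) (by omega) g with ⟨-, g⟩ | g
    · exact nA1 g
    · have := A0.ne g; omega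
  have vin : ∀ l : ℤ, 0 ≤ l → P.it v l ∈ Q → X (P.it v l) ≤ l := fun l g1 g2 =>
    not_lt.1 ((m.fl.side m.cut m.hv g2 rfl).not.1 (by omega))
  have vq : ∀ l : ℤ, 1 ≤ l → l ≤ 3 → P.it v l ≠ q' := fun l g1 g2 e => by
    have := P.uniq (e.trans v0.symm) (by omega) (by omega); omega
  have v1 : P.it v 1 = z := by
    have o : P.it v 1 ∉ Q := fun g => P.ne v 1 (no1 _ g (vin 1 (by omega) g))
    rcases (m.out _).1 o with e | e | e
    · exact absurd (m.d2 (by omega) (by omega) m.nq m.hv (e ▸ fvp)) m1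
    · exact absurd e (vq 1 (by omega) (by omega))
    · exact e
  have fvz : ¬ Fe v z := fun g => m1 (m.d2 (by omega) (by omega) m.nq m.hv (v1 ▸ g))
  have hp : ∀ l : ℤ, 0 ≤ l → l ≤ 3 → P.Has Q p l → i ≠ l := fun l g1 g2 g e => by
    rcases m.cut.has m.rng xp g1 (by omega) g with ⟨-, g⟩ | g
    · exact nA l (by omega) (by omega) g
    · exact nB (e ▸ g)
  have i2 := hp 1 (by omega) (by omega) (m.d1 (by omega) (by omega) m.nq m.np m.pq.symm m1)
  have z1 : P.it z 1 = v := by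
    rcases m.cut.has m.rng m.xz (l := 1) (by omega) (by omega) ⟨v, m.hv, fvz, v1⟩ with ⟨-, g⟩ | g
    · exact no1 _ g.1 (by have := g.zero m.cut; have := m.xz; omega)
    · have g' := g.one m.cut
      have e := m.fl.lab_inj g.1 m.hv (fun f => g.2.1 (P.sym _ _ f)) fvz g'.1 v1
      rw [e] at g'
      have := m.xz; omega
  have low : ∀ w ∈ Q, X w ≤ 2 → w = v ∨ w = q := fun w hw xw => by
    by_contra c
    obtain ⟨l, g1, g2, -⟩ := hR w hw (fun e => c (Or.inl e)) fun e => c (Or.inr e)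
    omega
  have z2 : ¬ P.Has Q z 2 := fun g => by
    rcases m.cut.has m.rng m.xz (by omega) (by omega) g with ⟨-, g⟩ | g
    · rcases low _ g.1 (by have := g.zero m.cut; have := m.xz; omega) with e | e
      · have := P.uniq (e.trans z1.symm) (by omega) (by omega); omega
      · exact g.2.1 (e ▸ P.sym _ _ m.fz)
    · have g' := g.one m.cut
      rw [show (2 : ℤ) - 1 = 1 by rfl, z1] at g'
      have := m.xz; omega
  have vz : ∀ l : ℤ, 2 ≤ l → l ≤ 3 → P.it v l ≠ z := fun l g1 g2 e => by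
    have := P.uniq (e.trans v1.symm) (by omega) (by omega); omega
  have v2' : P.it v 2 = q ∧ q ∈ Q ∧ X q ≤ 2 := by
    by_cases o : P.it v 2 ∈ Q
    · have g := vin 2 (by omega) o
      have e := (low _ o g).resolve_left (P.ne v 2)
      exact ⟨e, e ▸ o, e ▸ g⟩
    rcases (m.out _).1 o with e | e | e
    · exact absurd (m.d2 (by omega) (by omega) m.nz m.hv (e ▸ fvp)) z2
    · exact absurd e (vq 2 (by omega) (by omega))
    · exact absurd e (vz 2 (by omega) (by omega))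
  obtain ⟨w2, hq, xq⟩ := v2'
  have qv : q ≠ v := w2 ▸ P.ne v 2
  have i3 := hp 2 (by omega) (by omega) (m.d1 (by omega) (by omega) m.nz m.np m.pz.symm z2)
  have u1 : P.it u 1 = q := by
    obtain ⟨l, g1, g2, g⟩ := pu q hq qv (by omega)
    have : l ≠ 0 := fun e => by rw [e, u0] at g; rw [g] at x2; omega
    rwa [show l = 1 by omega] at g
  have low3 : ∀ w ∈ Q, X w ≤ 3 → w = v ∨ w = q := fun w hw xw => by
    by_contra c
    obtain ⟨l, g1, g2, g3⟩ := hR w hw (fun e => c (Or.inl e)) fun e => c (Or.inr e)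
    obtain ⟨l', f1, f2, f⟩ := pu w hw (fun e => c (Or.inl e)) xw
    have c0 : l' ≠ 0 := fun e => by rw [e, u0] at f; rw [f] at x2; omega
    have c1 : l' ≠ 1 := fun e => c (Or.inr (by rw [← f, e, u1]))
    have := m.fl.it m.hu hw f
    rw [show l' = l by omega, g3] at this
    exact m.nq (this ▸ m.hu)
  have p1 : Fe v (P.it v 3) := by
    by_cases o : P.it v 3 ∈ Q
    · have e := (low3 _ o (vin 3 (by omega) o)).resolve_left (P.ne v 3)
      have := P.uniq (e.trans w2.symm) (by omega) (by omega); omega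
    rcases (m.out _).1 o with e | e | e
    · exact e ▸ fvp
    · exact absurd e (vq 3 (by omega) (by omega))
    · exact absurd e (vz 3 (by omega) (by omega))
  have p2 : Fe q (P.it q 3) := by
    by_cases o : P.it q 3 ∈ Q
    · have g := not_lt.1 ((m.fl.side m.cut hq o rfl).not.1 (by omega))
      have e := (low3 _ o g).resolve_right (P.ne q 3)
      have := P.uniq (e.trans (m.fl.it m.hv hq w2).symm) (by omega) (by omega); omega
    by_contra f
    rcases (m.out _).1 o with e | e | e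
    · rcases m.cut.has m.rng xp (l := 3) (by omega) (by omega) ⟨q, hq, e ▸ f, e⟩ with ⟨-, g⟩ | g
      · exact nA 3 (by omega) (by omega) g
      · have g' := g.one m.cut
        have e' := m.fl.lab_inj g.1 hq (fun f => g.2.1 (P.sym _ _ f)) (e ▸ f) g'.1 e
        rw [e'] at g'
        omega
    · exact f (e ▸ P.sym _ _ ((m.fq _).2 rfl))
    · exact f (e ▸ m.fz)
  have := two_le_dfc'' m.hv p1 hq p2 qv.symm
  have := m.one 3 (by omega) (by omega)
  omega

theorem main (xp : X p = -1) (nf : ∀ j, ¬ ∀ x ∈ Q, x ≠ q → P.sh q' x = j) :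
    ∀ x ∈ Q, x ≠ p' → P.sh p x = 1 := by
  by_cases hA : ∃ n : ℤ, -1 ≤ n ∧ n + 3 ≤ k ∧ P.Ty Q 0 p n
  · obtain ⟨i, v2, i1, nA, nB, vp, x2, g, pB⟩ := m.second xp hA
    exact (m.fin xp nf i1 nA nB vp x2 g pB).elim
  · intro x hx e
    obtain ⟨n, n1, n2, g, f | f⟩ := m.key xp hx e
    exacts [absurd ⟨n, n1, n2, f⟩ hA, g ▸ f.2.2]

end M2

end PM

end Pool.Agent.P.MP_3f5ded_co.UG
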