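import Pool.Agent.P.MP_3f5ded_co.EQ1

set_option autoImplicit false

namespace Pool.Agent.P.MP_3f5ded_co.UG

open Finset

/-- The block without `z` is a complete graph minus the two edges `a A` and `b B`; `R` is the set
of the other vertices. -/
structure H4 {W : Type} [Fintype W] (k : ℕ) (Fe : W → W → Prop) (R : Finset W) (z a A b B : W) :
    Prop where
  card : Fintype.card W = k + 1
  big : 12 ≤ k
  mem : ∀ x, x ∈ R ↔ x ≠ z ∧ x ≠ a ∧ x ≠ A ∧ x ≠ b ∧ x ≠ B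
  za : z ≠ a
  zA : z ≠ A
  zb : z ≠ b
  zB : z ≠ B
  aA : a ≠ A
  ab : a ≠ b
  aB : a ≠ B
  Ab : A ≠ b
  AB : A ≠ B
  bB : b ≠ B
  fe : ∀ x y, x ≠ z → y ≠ z →
    (Fe x y ↔ (x = a ∧ y = A) ∨ (x = A ∧ y = a) ∨ (x = b ∧ y = B) ∨ (x = B ∧ y = b))
  zz : ¬ Fe z z
  zf : ∃ N : Finset W, (∀ y, y ∈ N ↔ Fe z y) ∧ 2 * N.card + 6 = k
  onea : Fe z a ↔ ¬ Fe z A
  oneb : Fe z b ↔ ¬ Fe z B

namespace H4
variable {W : Type} [Fintype W] {k : ℕ} {r : ℝ} {Fe : W → W → Prop} {R : Finset W} {z a A b B : W}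
  (h : H4 k Fe R z a A b B)
include h

/-- Exchange `a` and `A`. -/
lemma swa : H4 k Fe R z A a b B :=
  ⟨h.card, h.big, fun x => by rw [h.mem]; tauto, h.zA, h.za, h.zb, h.zB, h.aA.symm, h.Ab, h.AB, h.ab,
    h.aB, h.bB, fun x y a b => by rw [h.fe x y a b]; tauto, h.zz, h.zf,
    by have := h.onea; tauto, h.oneb⟩

/-- Exchange the two pairs. -/
lemma swp : H4 k Fe R z b B a A :=
  ⟨h.card, h.big, fun x => by rw [h.mem]; tauto, h.zb, h.zB, h.za, h.zA, h.bB, h.ab.symm, h.Ab.symm,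
    h.aB.symm, h.AB.symm, h.aA, fun x y a b => by rw [h.fe x y a b]; tauto, h.zz, h.zf, h.oneb,
    h.onea⟩

/-- Exchange `b` and `B`. -/
lemma swb : H4 k Fe R z a A B b := h.swp.swa.swp

lemma cardR : R.card + 4 = k := by
  classical
  have e : R = univ \ {z, a, A, b, B} := by ext x; simp [h.mem]
  have c : ({z, a, A, b, B} : Finset W).card = 5 := by
    rw [card_insert_of_notMem (by simp [h.za, h.zA, h.zb, h.zB]),
      card_insert_of_notMem (by simp [h.aA, h.ab, h.aB]), card_insert_of_notMem (by simp [h.Ab, h.AB]),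
      card_pair h.bB]
  have := h.big
  rw [e, card_univ_sdiff, h.card, c]
  omega

lemma even : Even k := by
  obtain ⟨N, -, e⟩ := h.zf
  rw [Nat.even_iff]
  omega

variable (P : PM W k r Fe) {x y : W}

lemma adRR (hx : x ∈ R) (hy : y ∈ R) (e : y ≠ x) : P.Ad x y := by
  rw [h.mem] at hx hy
  exact ⟨e, by rw [h.fe x y hx.1 hy.1]; tauto⟩

lemma adRa (hx : x ∈ R) : P.Ad x a := by
  rw [h.mem] at hx
  exact ⟨hx.2.1.symm, by rw [h.fe x a hx.1 h.za.symm]; tauto⟩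

lemma adRA (hx : x ∈ R) : P.Ad x A := h.swa.adRa P hx
lemma adRb (hx : x ∈ R) : P.Ad x b := h.swp.adRa P hx
lemma adRB (hx : x ∈ R) : P.Ad x B := h.swp.swa.adRa P hx

lemma adab : P.Ad a b := ⟨h.ab.symm, by
  rw [h.fe a b h.za.symm h.zb.symm]
  have := h.aA; have := h.ab; have := h.aB; have := h.Ab
  tauto⟩

lemma adaB : P.Ad a B := h.swb.adab P
lemma adAb : P.Ad A b := h.swa.adab P
lemma adAB : P.Ad A B := h.swa.swb.adab P

end H4

namespace PM
variable {W : Type} {k : ℕ} {r : ℝ} {Fe : W → W → Prop} (P : PM W k r Fe)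

/-- No short triangle inside `R`. -/
def NoSh (R : Finset W) : Prop := ∀ x ∈ R, ∀ y ∈ R, ∀ c ∈ R, ¬ P.Sh x y c

/-- The vertex `s` splits `R`. -/
def Spl (R : Finset W) (s : W) : Prop := ∃ x ∈ R, ∃ y ∈ R, P.Sh s x y

end PM

end Pool.Agent.P.MP_3f5ded_co.UG
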