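import Pool.Agent.P.MP_3f5ded_co.EPM

set_option autoImplicit false

namespace Pool.Agent.P.MP_3f5ded_co.UG

open Finset

/-- Three numbers in this cyclic order. -/
def Bt (a b c : ℤ) : Prop := (a < b ∧ b < c) ∨ (b < c ∧ c < a) ∨ (c < a ∧ a < b)

namespace PM
variable {W : Type} {k : ℕ} {r : ℝ} {Fe : W → W → Prop} (P : PM W k r Fe)

/-- The winding of a triangle. -/
def mu (x y c : W) : ℤ := P.sh x y + P.sh y c + P.sh c x

/-- An edge of the block. -/
def Ad (_P : PM W k r Fe) (x y : W) : Prop := y ≠ x ∧ ¬ Fe x y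

/-- A short triangle. -/
structure Sh (x y c : W) : Prop where
  a1 : P.Ad x y
  a2 : P.Ad y c
  a3 : P.Ad c x
  e : P.mu x y c = 1

/-- At `x`, going forward from the item `c`, the item `d` comes before the item `y`. -/
def On (x c d y : W) : Prop :=
  ∃ n1 n n2 : ℤ, n1 < n ∧ n < n2 ∧ n2 < n1 + k ∧ P.it x n1 = c ∧ P.it x n = d ∧ P.it x n2 = y

variable {P} {x y c d : W}

lemma Ad.symm (h : P.Ad x y) : P.Ad y x := ⟨h.1.symm, fun f => h.2 (P.sym _ _ f)⟩

lemma Ad.sh (h : P.Ad x y) : P.sh y x = -P.sh x y := P.sh_neg h.2 h.1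

lemma mu_rot (P : PM W k r Fe) (x y c : W) : P.mu y c x = P.mu x y c := by unfold mu; ring

lemma mu_swap (h1 : P.Ad x y) (h2 : P.Ad y c) (h3 : P.Ad c x) : P.mu y x c = -P.mu x y c := by
  unfold mu
  rw [h1.sh, h2.sh, h3.sh]
  ring

lemma Sh.rot (h : P.Sh x y c) : P.Sh y c x := ⟨h.a2, h.a3, h.a1, (P.mu_rot x y c).trans h.e⟩

lemma sh_rot : P.Sh y c x ↔ P.Sh x y c := ⟨fun h => h.rot.rot, fun h => h.rot⟩

lemma Sh.not_swap (h : P.Sh x y c) : ¬ P.Sh y x c := fun g => by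
  have := mu_swap h.a1 h.a2 h.a3
  rw [h.e, g.e] at this
  omega

lemma it_perZ (P : PM W k r Fe) (x : W) (n j : ℤ) : P.it x (n + j * k) = P.it x n :=
  ((P.inj x _ _).2 ⟨j, by ring⟩).symm

/-- The items between two given levels. -/
lemma on_iff {n1 n2 : ℤ} (e1 : P.it x n1 = c) (e2 : P.it x n2 = y) (h1 : n1 < n2)
    (h2 : n2 < n1 + k) : P.On x c d y ↔ ∃ n, n1 < n ∧ n < n2 ∧ P.it x n = d := by
  refine ⟨?_, fun ⟨n, a, b, e⟩ => ⟨n1, n, n2, a, b, h2, e1, e, e2⟩⟩
  rintro ⟨m1, m, m2, a, b, g, f1, f, f2⟩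
  obtain ⟨j, hj⟩ := (P.inj x m1 n1).1 (f1.trans e1.symm)
  rw [mul_comm] at hj
  have := P.uniq (((P.it_perZ x m2 j).trans f2).trans e2.symm) (by omega) (by omega)
  exact ⟨m + j * k, by omega, by omega, (P.it_perZ x m j).trans f⟩

open Classical in
lemma card_on [Fintype W] {n1 n2 : ℤ} (e1 : P.it x n1 = c) (e2 : P.it x n2 = y) (h1 : n1 < n2)
    (h2 : n2 < n1 + k) : ((univ.filter fun d => P.On x c d y).card : ℤ) = n2 - n1 - 1 := by
  have : (univ.filter fun d => P.On x c d y) = (Ioo n1 n2).image (P.it x) := by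
    ext d
    simp only [mem_filter, mem_univ, true_and, mem_image, mem_Ioo, on_iff e1 e2 h1 h2, and_assoc]
  rw [this, card_image_of_injOn fun n hn n' hn' e => by
    simp only [coe_Ioo, Set.mem_Ioo] at hn hn'
    exact P.uniq e (by omega) (by omega), Int.card_Ioo]
  omega

lemma On.ne (h : P.On x c d y) : d ≠ x ∧ d ≠ c ∧ d ≠ y ∧ c ≠ y := by
  obtain ⟨n1, n, n2, a, b, g, rfl, rfl, rfl⟩ := h
  refine ⟨P.ne _ _, fun e => ?_, fun e => ?_, fun e => ?_⟩ <;>
    have := P.uniq e (by omega) (by omega) <;> omega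

/-- The next occurrence of an item. -/
lemma next (P : PM W k r Fe) (n : ℤ) (h : y ≠ x) (h' : P.it x n ≠ y) :
    ∃ m, n < m ∧ m < n + k ∧ P.it x m = y ∧ P.T x n < P.T x m ∧ P.T x m < P.T x n + 1 := by
  obtain ⟨m, a, b, e⟩ := P.win h n
  have : n < m := lt_of_le_of_ne a fun g => h' (g ▸ e)
  exact ⟨m, this, b, e, P.T_mono x this, P.T_per x n ▸ P.T_mono x b⟩

/-- The walk around a triangle. -/
lemma walk3 (h1 : P.Ad x y) (h2 : P.Ad y c) (h3 : P.Ad c x) : ∃ n1 n2 m1 m2 l1 l2 j : ℤ,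
    (n1 < n2 ∧ n2 < n1 + k ∧ P.it x n1 = c ∧ P.it x n2 = y) ∧
    (m1 < m2 ∧ m2 < m1 + k ∧ P.it y m1 = x ∧ P.it y m2 = c) ∧
    (l1 < l2 ∧ l2 < l1 + k ∧ P.it c l1 = y ∧ P.it c l2 = x) ∧ (j = 1 ∨ j = 2) ∧
    n2 - n1 + (m2 - m1) + (l2 - l1) + (k + 1) * P.mu x y c = j * k := by
  obtain ⟨n1, e1⟩ := P.sur x c h3.1.symm
  obtain ⟨n2, a1, a2, e2, a3, a4⟩ := P.next n1 h1.1 (e1 ▸ h2.1)
  have f1 := P.it_co h1.2 e2
  obtain ⟨m2, b1, b2, f2, b3, b4⟩ := P.next _ h2.1 (f1 ▸ h3.1)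
  have g1 := P.it_co h2.2 f2
  obtain ⟨l2, c1, c2, g2, c3, c4⟩ := P.next _ h3.1 (g1 ▸ h1.1)
  obtain ⟨j, hj⟩ := (P.inj x _ _).1 (e1.trans (P.it_co h3.2 g2).symm)
  have t := P.T_co h3.2 g2
  rw [P.T_co h1.2 e2] at b3 b4
  rw [P.T_co h2.2 f2] at c3 c4
  rw [show l2 + (k + 1) * P.sh c x = n1 + j * k by linarith, P.T_perZ] at t
  have j1 : (0 : ℝ) < j := by linarith
  have j2 : (j : ℝ) < 3 := by linarith
  have j3 : 0 < j := by exact_mod_cast j1
  have j4 : j < 3 := by exact_mod_cast j2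
  exact ⟨n1, n2, _, m2, _, l2, j, ⟨a1, a2, e1, e2⟩, ⟨b1, b2, f1, f2⟩, ⟨c1, c2, g1, g2⟩, by omega,
    by unfold mu; linarith⟩

lemma mu_le (h1 : P.Ad x y) (h2 : P.Ad y c) (h3 : P.Ad c x) : P.mu x y c ≤ 1 := by
  obtain ⟨n1, n2, m1, m2, l1, l2, j, a, b, c', hj, e⟩ := walk3 h1 h2 h3
  by_contra g
  have : ((k : ℤ) + 1) * 2 ≤ (k + 1) * P.mu x y c := mul_le_mul_of_nonneg_left (by omega) (by omega)
  rcases hj with rfl | rfl <;> omega

lemma mu_cases (h1 : P.Ad x y) (h2 : P.Ad y c) (h3 : P.Ad c x) :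
    P.mu x y c = -1 ∨ P.mu x y c = 0 ∨ P.mu x y c = 1 := by
  have := mu_le h1 h2 h3
  have := mu_le h1.symm h3.symm h2.symm
  have := mu_swap h1 h2 h3
  omega

open Classical in
/-- Exactly `k - 4` items lie on the arcs of a short triangle. -/
lemma Sh.card [Fintype W] (h : P.Sh x y c) :
    ((univ.filter fun d => P.On x c d y).card : ℤ) + (univ.filter fun d => P.On y x d c).card +
      (univ.filter fun d => P.On c y d x).card = k - 4 := by
  obtain ⟨n1, n2, m1, m2, l1, l2, j, a, b, c, hj, e⟩ := walk3 h.a1 h.a2 h.a3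
  rw [card_on a.2.2.1 a.2.2.2 a.1 a.2.1, card_on b.2.2.1 b.2.2.2 b.1 b.2.1,
    card_on c.2.2.1 c.2.2.2 c.1 c.2.1]
  rw [h.e] at e
  rcases hj with rfl | rfl <;> omega

/-- Levels `L` and integer times `t` of all items in the period after a moment. -/
structure Tm (P : PM W k r Fe) (L t : W → W → ℤ) : Prop where
  it : ∀ x y, y ≠ x → P.it x (L x y) = y
  win : ∀ x y d, y ≠ x → d ≠ x → L x y < L x d + k
  co : ∀ x y, P.Ad x y → L y x = L x y + (k + 1) * P.sh x y
  sym : ∀ x y, P.Ad x y → t x y = t y x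
  lt : ∀ x y d, y ≠ x → d ≠ x → (t x y < t x d ↔ L x y < L x d)

lemma exists_rank {ι : Type} [Finite ι] (f : ι → ℝ) : ∃ g : ι → ℤ, ∀ i j, g i < g j ↔ f i < f j := by
  classical
  have := Fintype.ofFinite ι
  have key : ∀ i j, f i < f j →
      (univ.filter fun l => f l < f i).card < (univ.filter fun l => f l < f j).card := fun i j h =>
    card_lt_card ⟨fun l hl => by simp only [mem_filter, mem_univ, true_and] at hl ⊢; linarith,
      fun g => by simpa using g (show i ∈ univ.filter fun l => f l < f j by simpa using h)⟩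
  refine ⟨fun i => (univ.filter fun l => f l < f i).card, fun i j => ⟨fun h => ?_, fun h => ?_⟩⟩
  · by_contra g
    rcases (not_lt.1 g).eq_or_lt with e | e
    · simp only [e, lt_irrefl] at h
    · have := key j i e
      simp only at h
      omega
  · have := key i j h
    simp only
    omega

/-- The period after a moment `X`. -/
lemma Cut.tm [Finite W] {X : W → ℤ} (h : P.Cut X) : ∃ L t, P.Tm L t ∧
    (∀ x y, y ≠ x → X x ≤ L x y ∧ L x y < X x + k) ∧
    ∀ x y u v, t x y < t u v ↔ P.T x (L x y) < P.T u (L u v) := by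
  classical
  have : ∀ x y, ∃ n, y ≠ x → X x ≤ n ∧ n < X x + k ∧ P.it x n = y := fun x y => by
    by_cases e : y = x
    · exact ⟨0, fun g => absurd e g⟩
    · exact (P.win e (X x)).imp fun _ g _ => g
  choose L hL using this
  obtain ⟨g, hg⟩ := exists_rank fun p : W × W => P.T p.1 (L p.1 p.2)
  have co : ∀ x y, P.Ad x y → L y x = L x y + (k + 1) * P.sh x y := fun x y a => by
    obtain ⟨a1, a2, a3⟩ := hL x y a.1
    obtain ⟨b1, b2, b3⟩ := hL y x a.1.symm
    have := h.win a.2 a3 a1 a2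
    exact P.uniq (b3.trans (P.it_co a.2 a3).symm) (by omega) (by omega)
  refine ⟨L, fun x y => g (x, y), ⟨fun x y a => (hL x y a).2.2, fun x y d a b => ?_, co,
    fun x y a => ?_, fun x y d _ _ => (hg _ _).trans (P.T_mono x).lt_iff_lt⟩,
    fun x y a => ⟨(hL x y a).1, (hL x y a).2.1⟩, fun x y u v => hg _ _⟩
  · have := hL x y a
    have := hL x d b
    omega
  · have e : P.T y (L y x) = P.T x (L x y) := by rw [co x y a, P.T_co a.2 (hL x y a.1).2.2]
    have a1 := (hg (x, y) (y, x)).not.2 (by simp only [e, lt_irrefl, not_false_eq_true])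
    have a2 := (hg (y, x) (x, y)).not.2 (by simp only [e, lt_irrefl, not_false_eq_true])
    omega

/-- The period that starts with the item `y` of `x`. -/
lemma exists_tm [Finite W] (P : PM W k r Fe) (h : y ≠ x) :
    ∃ L t, P.Tm L t ∧ ∀ u v, v ≠ u → t x y ≤ t u v := by
  obtain ⟨n, e⟩ := P.sur x y h
  obtain ⟨X, h1, h2⟩ := P.exists_before (P.T x n)
  obtain ⟨L, t, a, b, c⟩ := h1.tm
  refine ⟨L, t, a, fun u v g => not_lt.1 fun f => ?_⟩
  have x1 := (h2 x n).not.2 (lt_irrefl _)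
  have x2 := (h2 x (n - 1)).2 (P.T_mono x (by omega))
  have x3 := b x y h
  have x4 : L x y = n := P.uniq ((a.it x y h).trans e.symm) (by omega) (by omega)
  rw [c, x4, ← h2] at f
  exact absurd (b u v g).1 (not_le.2 f)

namespace Tm
variable {L t : W → W → ℤ}

lemma Lne (h : P.Tm L t) (a : y ≠ x) (b : d ≠ x) (e : y ≠ d) : L x y ≠ L x d := fun g =>
  e ((h.it x y a).symm.trans (g ▸ h.it x d b))

lemma ne (h : P.Tm L t) (a : y ≠ x) (b : d ≠ x) (e : y ≠ d) : t x y ≠ t x d := by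
  have := h.Lne a b e
  have := h.lt x y d a b
  have := h.lt x d y b a
  omega

lemma onL (h : P.Tm L t) (a : c ≠ x) (b : d ≠ x) (e : y ≠ x) :
    P.On x c d y ↔ Bt (L x c) (L x d) (L x y) := by
  have w1 := h.win x c d a b
  have w2 := h.win x d c b a
  have w3 := h.win x y d e b
  have w4 := h.win x d y b e
  have w5 := h.win x y c e a
  have w6 := h.win x c y a e
  have i1 := h.it x c a
  have i2 := h.it x d b
  have i3 := h.it x y e
  constructor
  · intro g
    have g1 := h.Lne a e g.ne.2.2.2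
    rcases lt_or_gt_of_ne g1 with g2 | g2
    · obtain ⟨n, n1, n2, n3⟩ := (on_iff i1 i3 g2 w5).1 g
      have := P.uniq (n3.trans i2.symm) (by omega) (by omega)
      unfold Bt; omega
    · obtain ⟨n, n1, n2, n3⟩ := (on_iff i1 ((P.it_add x _).trans i3) w6 (by omega)).1 g
      rcases lt_or_ge n (L x d + k) with g3 | g3
      · have := P.uniq (n3.trans i2.symm) g3 (by omega)
        unfold Bt; omega
      · have := P.uniq (n3.trans ((P.it_add x _).trans i2).symm) (by omega) (by omega)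
        unfold Bt; omega
  · rintro (g | g | g)
    · exact ⟨_, _, _, g.1, g.2, w5, i1, i2, i3⟩
    · exact ⟨_, L x d + k, L x y + k, w1, by omega, by omega, i1, (P.it_add x _).trans i2,
        (P.it_add x _).trans i3⟩
    · exact ⟨_, _, L x y + k, g.2, w4, by omega, i1, i2, (P.it_add x _).trans i3⟩

/-- The order of the items at a vertex is the order of their times. -/
lemma on (h : P.Tm L t) (a : c ≠ x) (b : d ≠ x) (e : y ≠ x) :
    P.On x c d y ↔ Bt (t x c) (t x d) (t x y) := by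
  rw [h.onL a b e]
  unfold Bt
  rw [h.lt x c d a b, h.lt x d y b e, h.lt x y c e a]

/-- The cyclic order of the times of a short triangle. -/
lemma sh3 (h : P.Tm L t) (s : P.Sh x y c) : Bt (t x y) (t c x) (t y c) := by
  have e := s.e
  have c1 := h.co _ _ s.a1
  have c2 := h.co _ _ s.a2
  have c3 := h.co _ _ s.a3
  have e1 : L y x - L x y + (L c y - L y c) + (L x c - L c x) = k + 1 := by
    unfold mu at e
    rw [c1, c2, c3]
    linear_combination ((k : ℤ) + 1) * e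
  have s1 := h.sym _ _ s.a1
  have s2 := h.sym _ _ s.a2
  have s3 := h.sym _ _ s.a3
  have l1 := h.lt x y c s.a1.1 s.a3.1.symm
  have l2 := h.lt y c x s.a2.1 s.a1.1.symm
  have l3 := h.lt c x y s.a3.1 s.a2.1.symm
  have w1 := h.win x c y s.a3.1.symm s.a1.1
  have w2 := h.win y x c s.a1.1.symm s.a2.1
  have w3 := h.win c y x s.a2.1.symm s.a3.1
  have n1 := h.ne s.a1.1 s.a3.1.symm s.a2.1.symm
  have n2 := h.ne s.a2.1 s.a1.1.symm s.a3.1.symm
  have n3 := h.ne s.a3.1 s.a2.1.symm s.a1.1.symm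
  clear c1 c2 c3 e
  unfold Bt
  omega

/-- A closed walk `x, y, c, d` of winding two: the times run backwards once around. -/
lemma sh4 (h : P.Tm L t) (a1 : P.Ad x y) (a2 : P.Ad y c) (a3 : P.Ad c d) (a4 : P.Ad d x)
    (xc : c ≠ x) (yd : d ≠ y) (e : P.sh x y + P.sh y c + P.sh c d + P.sh d x = 2) :
    Bt (t x y) (t d x) (t c d) ∧ Bt (t x y) (t c d) (t y c) := by
  have c1 := h.co _ _ a1
  have c2 := h.co _ _ a2
  have c3 := h.co _ _ a3
  have c4 := h.co _ _ a4
  have e1 : L y x - L x y + (L c y - L y c) + (L d c - L c d) + (L x d - L d x) = 2 * (k + 1) := by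
    rw [c1, c2, c3, c4]
    linear_combination ((k : ℤ) + 1) * e
  have s1 := h.sym _ _ a1
  have s2 := h.sym _ _ a2
  have s3 := h.sym _ _ a3
  have s4 := h.sym _ _ a4
  have l1 := h.lt x y d a1.1 a4.1.symm
  have l2 := h.lt y c x a2.1 a1.1.symm
  have l3 := h.lt c d y a3.1 a2.1.symm
  have l4 := h.lt d x c a4.1 a3.1.symm
  have w1 := h.win x d y a4.1.symm a1.1
  have w2 := h.win y x c a1.1.symm a2.1
  have w3 := h.win c y d a2.1.symm a3.1
  have w4 := h.win d c x a3.1.symm a4.1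
  have n1 := h.ne a1.1 a4.1.symm yd.symm
  have n2 := h.ne a2.1 a1.1.symm xc
  have n3 := h.ne a3.1 a2.1.symm yd
  have n4 := h.ne a4.1 a3.1.symm xc.symm
  clear c1 c2 c3 c4 e
  unfold Bt
  omega

end Tm

end PM

end Pool.Agent.P.MP_3f5ded_co.UG
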