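import Pool.Agent.P.MP_3f5ded_co.EQ2
import Pool.Agent.P.MP_3f5ded_co.EQ0

set_option autoImplicit false

namespace Pool.Agent.P.MP_3f5ded_co.UG

open Finset
open scoped Classical

/-- The setting of the first step: without `z` only the edges `a A` and `b B` are missing. -/
structure St {W : Type} (k : ℕ) (Fe : W → W → Prop) (z a A b B : W) (R : Finset W) : Prop where
  all : ∀ x, x = z ∨ x = a ∨ x = A ∨ x = b ∨ x = B ∨ x ∈ R
  za : z ≠ a
  zA : z ≠ A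
  zb : z ≠ b
  zB : z ≠ B
  aA : a ≠ A
  ab : a ≠ b
  aB : a ≠ B
  Ab : A ≠ b
  AB : A ≠ B
  bB : b ≠ B
  zR : z ∉ R
  aR : a ∉ R
  AR : A ∉ R
  bR : b ∉ R
  BR : B ∉ R
  card : R.card + 4 = k
  fe : ∀ x y, x ≠ z → y ≠ z →
    (Fe x y ↔ (x = a ∧ y = A) ∨ (x = A ∧ y = a) ∨ (x = b ∧ y = B) ∨ (x = B ∧ y = b))

lemma sum_sym2 {W : Type} (R S : Finset W) (f : W → W → ℤ) (h : ∀ x y, f y x = f x y)
    (d : Disjoint R S) : ∑ x ∈ R ∪ S, ∑ y ∈ R ∪ S, f x y =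
      ∑ x ∈ R, ∑ y ∈ R, f x y + 2 * ∑ x ∈ R, ∑ y ∈ S, f x y + ∑ x ∈ S, ∑ y ∈ S, f x y := by
  simp only [sum_union d, sum_add_distrib]
  rw [sum_comm (s := S) (t := R), sum_congr rfl fun x _ => sum_congr rfl fun y _ => h x y]
  ring

lemma sum_sym3 {W : Type} (R S : Finset W) (f : W → W → W → ℤ) (h : ∀ x y w, f y x w = f x y w)
    (h' : ∀ x y w, f x w y = f x y w) (d : Disjoint R S) :
    ∑ x ∈ R ∪ S, ∑ y ∈ R ∪ S, ∑ w ∈ R ∪ S, f x y w =
      ∑ x ∈ R, ∑ y ∈ R, ∑ w ∈ R, f x y w + 3 * ∑ x ∈ R, ∑ y ∈ R, ∑ w ∈ S, f x y w +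
        3 * ∑ x ∈ R, ∑ y ∈ S, ∑ w ∈ S, f x y w + ∑ x ∈ S, ∑ y ∈ S, ∑ w ∈ S, f x y w := by
  have e1 : ∑ x ∈ S, ∑ y ∈ R, ∑ w ∈ R, f x y w = ∑ x ∈ R, ∑ y ∈ R, ∑ w ∈ S, f x y w :=
    sum_comm.trans (sum_congr rfl fun y _ => sum_comm.trans (sum_congr rfl fun w _ =>
      sum_congr rfl fun x _ => (h y x w).trans (h' y w x)))
  have e2 : ∑ x ∈ S, ∑ y ∈ R, ∑ w ∈ S, f x y w = ∑ x ∈ R, ∑ y ∈ S, ∑ w ∈ S, f x y w :=
    sum_comm.trans (sum_congr rfl fun y _ => sum_congr rfl fun x _ =>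
      sum_congr rfl fun w _ => h y x w)
  rw [sum_congr rfl fun x _ => sum_sym2 R S (f x) (h' x) d]
  simp only [sum_union d, sum_add_distrib, ← mul_sum]
  rw [e1, e2]
  ring

lemma sum_sym4 {W : Type} (R S : Finset W) (f : W → W → W → W → ℤ)
    (h : ∀ x y w v, f y x w v = f x y w v) (h' : ∀ x y w v, f x w y v = f x y w v)
    (h'' : ∀ x y w v, f x y v w = f x y w v) (d : Disjoint R S) :
    ∑ x ∈ R ∪ S, ∑ y ∈ R ∪ S, ∑ w ∈ R ∪ S, ∑ v ∈ R ∪ S, f x y w v =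
      ∑ x ∈ R, ∑ y ∈ R, ∑ w ∈ R, ∑ v ∈ R, f x y w v +
        4 * ∑ x ∈ R, ∑ y ∈ R, ∑ w ∈ R, ∑ v ∈ S, f x y w v +
        6 * ∑ x ∈ R, ∑ y ∈ R, ∑ w ∈ S, ∑ v ∈ S, f x y w v +
        4 * ∑ x ∈ R, ∑ y ∈ S, ∑ w ∈ S, ∑ v ∈ S, f x y w v +
        ∑ x ∈ S, ∑ y ∈ S, ∑ w ∈ S, ∑ v ∈ S, f x y w v := by
  have e1 : ∑ x ∈ S, ∑ y ∈ R, ∑ w ∈ R, ∑ v ∈ R, f x y w v =
      ∑ x ∈ R, ∑ y ∈ R, ∑ w ∈ R, ∑ v ∈ S, f x y w v :=
    sum_comm.trans (sum_congr rfl fun y _ => sum_comm.trans (sum_congr rfl fun w _ =>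
      sum_comm.trans (sum_congr rfl fun v _ => sum_congr rfl fun x _ =>
        (h y x w v).trans ((h' y w x v).trans (h'' y w v x)))))
  have e2 : ∑ x ∈ S, ∑ y ∈ R, ∑ w ∈ R, ∑ v ∈ S, f x y w v =
      ∑ x ∈ R, ∑ y ∈ R, ∑ w ∈ S, ∑ v ∈ S, f x y w v :=
    sum_comm.trans (sum_congr rfl fun y _ => sum_comm.trans (sum_congr rfl fun w _ =>
      sum_congr rfl fun x _ => sum_congr rfl fun v _ => (h y x w v).trans (h' y w x v)))
  have e3 : ∑ x ∈ S, ∑ y ∈ R, ∑ w ∈ S, ∑ v ∈ S, f x y w v =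
      ∑ x ∈ R, ∑ y ∈ S, ∑ w ∈ S, ∑ v ∈ S, f x y w v :=
    sum_comm.trans (sum_congr rfl fun y _ => sum_congr rfl fun x _ =>
      sum_congr rfl fun w _ => sum_congr rfl fun v _ => h y x w v)
  rw [sum_congr rfl fun x _ => sum_sym3 R S (f x) (h' x) (h'' x) d]
  simp only [sum_union d, sum_add_distrib, ← mul_sum]
  rw [e1, e2, e3]
  ring

namespace St
variable {W : Type} {k : ℕ} {r : ℝ} {Fe : W → W → Prop} {z a A b B : W} {R : Finset W}

lemma swapA (h : St k Fe z a A b B R) : St k Fe z A a b B R :=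
  ⟨fun x => by have := h.all x; tauto, h.zA, h.za, h.zb, h.zB, h.aA.symm, h.Ab, h.AB, h.ab, h.aB,
    h.bB, h.zR, h.AR, h.aR, h.bR, h.BR, h.card, fun x y c d => by rw [h.fe x y c d]; tauto⟩

lemma swapP (h : St k Fe z a A b B R) : St k Fe z b B a A R :=
  ⟨fun x => by have := h.all x; tauto, h.zb, h.zB, h.za, h.zA, h.bB, h.ab.symm, h.Ab.symm,
    h.aB.symm, h.AB.symm, h.aA, h.zR, h.bR, h.BR, h.aR, h.AR, h.card,
    fun x y c d => by rw [h.fe x y c d]; tauto⟩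

lemma swapB (h : St k Fe z a A b B R) : St k Fe z a A B b R := h.swapP.swapA.swapP

variable (h : St k Fe z a A b B R) (P : PM W k r Fe) {x y w : W}
include h

lemma adR (hx : x ∈ R) (hy : y ∈ R) (e : y ≠ x) : P.Ad x y := by
  refine ⟨e, fun f => ?_⟩
  rcases (h.fe x y (fun g => h.zR (g ▸ hx)) fun g => h.zR (g ▸ hy)).1 f with g | g | g | g
  exacts [h.aR (g.1 ▸ hx), h.AR (g.1 ▸ hx), h.bR (g.1 ▸ hx), h.BR (g.1 ▸ hx)]

lemma ada (hx : x ∈ R) : P.Ad x a := by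
  refine ⟨fun g => h.aR (g ▸ hx), fun f => ?_⟩
  rcases (h.fe x a (fun g => h.zR (g ▸ hx)) h.za.symm).1 f with g | g | g | g
  exacts [h.aR (g.1 ▸ hx), h.AR (g.1 ▸ hx), h.bR (g.1 ▸ hx), h.BR (g.1 ▸ hx)]

lemma adA (hx : x ∈ R) : P.Ad x A := h.swapA.ada P hx

lemma adb (hx : x ∈ R) : P.Ad x b := h.swapP.ada P hx

lemma adB (hx : x ∈ R) : P.Ad x B := h.swapP.swapA.ada P hx

lemma adab : P.Ad a b := by
  refine ⟨h.ab.symm, fun f => ?_⟩
  rcases (h.fe a b h.za.symm h.zb.symm).1 f with g | g | g | g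
  exacts [h.Ab g.2.symm, h.aA g.1, h.ab g.1, h.aB g.1]

lemma adaB : P.Ad a B := h.swapB.adab P

lemma adAb : P.Ad A b := h.swapA.adab P

lemma adAB : P.Ad A B := h.swapA.swapB.adab P

lemma naA : ¬ P.Ad a A := fun g => g.2 ((h.fe a A h.za.symm h.zA.symm).2 (Or.inl ⟨rfl, rfl⟩))

lemma nbB : ¬ P.Ad b B := h.swapP.naA P

lemma Phi2_nonneg (hx : x ∈ R) (hy : y ∈ R) : 0 ≤ P.Phi2 z a A b B x y := by
  unfold PM.Phi2
  by_cases e : y = x
  · subst e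
    have n : ¬ P.Ad y y := fun g => g.1 rfl
    simp only [PM.K4_rep, PM.J3_zero n, add_zero, le_refl]
  have xy := h.adR P hx hy e
  have p1 := PM.pair_nonneg (h.naA P) h.aA.symm xy (h.ada P hy) (h.ada P hx).symm (h.adA P hy)
    (h.adA P hx).symm z
  have p2 := PM.pair_nonneg (h.nbB P) h.bB.symm xy (h.adb P hy) (h.adb P hx).symm (h.adB P hy)
    (h.adB P hx).symm z
  have p3 := PM.K4_nonneg xy (h.ada P hx) (h.adb P hx) (h.ada P hy) (h.adb P hy) (h.adab P)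
  have p4 := PM.K4_nonneg xy (h.ada P hx) (h.adB P hx) (h.ada P hy) (h.adB P hy) (h.adaB P)
  have p5 := PM.K4_nonneg xy (h.adA P hx) (h.adb P hx) (h.adA P hy) (h.adb P hy) (h.adAb P)
  have p6 := PM.K4_nonneg xy (h.adA P hx) (h.adB P hx) (h.adA P hy) (h.adB P hy) (h.adAB P)
  omega

lemma adR' (hx : x ∈ R) (hy : y ∈ R) : x = y ∨ P.Ad x y :=
  (eq_or_ne x y).imp_right fun e => h.adR P hx hy e.symm

lemma K4a_nonneg (hx : x ∈ R) (hy : y ∈ R) (hw : w ∈ R) : 0 ≤ P.K4 x y w a :=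
  PM.K4_nonneg' (h.adR' P hx hy) (h.adR' P hx hw) (Or.inr (h.ada P hx)) (h.adR' P hy hw)
    (Or.inr (h.ada P hy)) (Or.inr (h.ada P hw))

lemma J3_le_Phi3 (hx : x ∈ R) (hy : y ∈ R) (hw : w ∈ R) :
    P.J3 z x y w ≤ P.Phi3 z a A b B x y w := by
  have p1 := h.K4a_nonneg P hx hy hw
  have p2 := h.swapA.K4a_nonneg P hx hy hw
  have p3 := h.swapP.K4a_nonneg P hx hy hw
  have p4 := h.swapP.swapA.K4a_nonneg P hx hy hw
  unfold PM.Phi3
  omega

lemma Phi3_nonneg (hx : x ∈ R) (hy : y ∈ R) (hw : w ∈ R) : 0 ≤ P.Phi3 z a A b B x y w :=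
  (P.J3_nonneg z x y w).trans (h.J3_le_Phi3 P hx hy hw)

lemma K4R_nonneg {v : W} (hx : x ∈ R) (hy : y ∈ R) (hw : w ∈ R) (hv : v ∈ R) : 0 ≤ P.K4 x y w v :=
  PM.K4_nonneg' (h.adR' P hx hy) (h.adR' P hx hw) (h.adR' P hx hv) (h.adR' P hy hw)
    (h.adR' P hy hv) (h.adR' P hw hv)

lemma erase [Fintype W] : univ.erase z = R ∪ {a, A, b, B} := by
  ext x
  simp only [mem_erase, mem_univ, and_true, mem_union, mem_insert, mem_singleton]
  constructor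
  · intro e
    have := h.all x
    tauto
  · rintro (g | rfl | rfl | rfl | rfl)
    exacts [fun e => h.zR (e ▸ g), h.za.symm, h.zA.symm, h.zb.symm, h.zB.symm]

lemma disj : Disjoint R {a, A, b, B} := by
  simp [disjoint_insert_right, h.aR, h.AR, h.bR, h.BR]

lemma sum4 (f : W → ℤ) : ∑ s ∈ ({a, A, b, B} : Finset W), f s = f a + f A + f b + f B := by
  rw [sum_insert (by simp [h.aA, h.ab, h.aB]), sum_insert (by simp [h.Ab, h.AB]),
    sum_insert (by simp [h.bB]), sum_singleton]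
  ring

lemma cardW [Fintype W] : Fintype.card W = k + 1 := by
  have e := card_erase_add_one (mem_univ z)
  have := h.sum4 fun _ => 1
  have := h.card
  rw [h.erase, card_union_of_disjoint h.disj, card_univ] at e
  simp only [sum_const, nsmul_eq_mul, mul_one] at *
  omega

omit h in
lemma pairs (f : W → W → ℤ) (s : ∀ x y, f y x = f x y) (d : ∀ x, f x x = 0) :
    f a a + f a A + f a b + f a B + (f A a + f A A + f A b + f A B) +
      (f b a + f b A + f b b + f b B) + (f B a + f B A + f B b + f B B) =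
      2 * (f a A + f b B + f a b + f a B + f A b + f A B) := by
  rw [d, d, d, d, s a A, s a b, s a B, s A b, s A B, s b B]
  ring

/-- The count: the excesses of all groups add up to zero. -/
theorem count [Fintype W] : ∑ x ∈ R, ∑ y ∈ R, ∑ w ∈ R, ∑ v ∈ R, P.K4 x y w v +
    4 * ∑ x ∈ R, ∑ y ∈ R, ∑ w ∈ R, P.Phi3 z a A b B x y w +
    12 * ∑ x ∈ R, ∑ y ∈ R, P.Phi2 z a A b B x y + 24 * ∑ u ∈ R, P.Phi1 z a A b B u = 0 := by
  have c := P.count0 h.cardW z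
  have nn : ∀ x : W, ¬ P.Ad x x := fun x g => g.1 rfl
  have k23 : ∀ u x y : W, P.K4 u x x y = 0 := fun u x y => by
    rw [PM.K4_12, PM.K4_23, PM.K4_rep]
  have k34 : ∀ u x y : W, P.K4 u x y y = 0 := fun u x y => by
    rw [PM.K4_23, PM.K4_12, PM.K4_34, PM.K4_23, PM.K4_rep]
  have k24 : ∀ u x y : W, P.K4 u x y x = 0 := fun u x y => by rw [PM.K4_34, k23]
  have j23 : ∀ u x : W, P.J3 z u x x = 0 := fun u x => by rw [← P.J3_rot, PM.J3_zero (nn x)]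
  have two : ∀ x y : W, ∑ s ∈ ({a, A, b, B} : Finset W), ∑ t ∈ ({a, A, b, B} : Finset W),
      P.K4 x y s t = 2 * (P.K4 x y a A + P.K4 x y b B + P.K4 x y a b + P.K4 x y a B +
        P.K4 x y A b + P.K4 x y A B) := fun x y => by
    simp only [h.sum4]
    exact pairs (P.K4 x y) (P.K4_34 x y) (k34 x y)
  have two' : ∀ x : W, ∑ s ∈ ({a, A, b, B} : Finset W), ∑ t ∈ ({a, A, b, B} : Finset W),
      P.J3 z x s t = 2 * (P.J3 z x a b + P.J3 z x a B + P.J3 z x A b + P.J3 z x A B) := fun x => by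
    simp only [h.sum4]
    rw [pairs (P.J3 z x) (P.J3_swap' z x) (j23 x), ← P.J3_rot z x a A, ← P.J3_rot z x b B,
      PM.J3_zero (h.naA P), PM.J3_zero (h.nbB P)]
    ring
  have three : ∀ u : W, ∑ s ∈ ({a, A, b, B} : Finset W), ∑ t ∈ ({a, A, b, B} : Finset W),
      ∑ v ∈ ({a, A, b, B} : Finset W), P.K4 u s t v =
      6 * (P.K4 u a A b + P.K4 u a A B + P.K4 u a b B + P.K4 u A b B) := fun u => by
    rw [h.sum4, two, two, two, two]
    simp only [k23, k24, P.K4_23 u a A b, P.K4_23 u a A B, P.K4_23 u a b A, P.K4_23 u a b B, P.K4_23 u a B A,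
      P.K4_23 u a B b, P.K4_23 u A b B, P.K4_23 u A B b, P.K4_34 u a A b, P.K4_34 u a A B,
      P.K4_34 u a b B, P.K4_34 u A b B]
    ring
  have kz : P.K4 a A b B = 0 := by
    rw [PM.K4_miss (h.nbB P), PM.f4_zero (h.naA P), PM.f4_zero (h.naA P), add_zero]
  have four : ∑ u ∈ ({a, A, b, B} : Finset W), ∑ s ∈ ({a, A, b, B} : Finset W),
      ∑ t ∈ ({a, A, b, B} : Finset W), ∑ v ∈ ({a, A, b, B} : Finset W), P.K4 u s t v = 0 := by
    have k13 : ∀ x y w : W, P.K4 x y x w = 0 := fun x y w => by rw [PM.K4_23, PM.K4_rep]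
    have k14 : ∀ x y w : W, P.K4 x y w x = 0 := fun x y w => by rw [PM.K4_34, k13]
    rw [h.sum4, three, three, three, three]
    simp only [PM.K4_rep, k13, k14]
    rw [P.K4_12 a A b B, P.K4_12 a b A B, P.K4_23 a A b B, P.K4_12 a B A b, P.K4_23 a A B b,
      P.K4_34 a A b B, kz]
    ring
  have three' : ∑ u ∈ ({a, A, b, B} : Finset W), ∑ s ∈ ({a, A, b, B} : Finset W),
      ∑ t ∈ ({a, A, b, B} : Finset W), P.J3 z u s t = 0 := by
    have j0 : ∀ {p q : W} (s : W), ¬ P.Ad p q → P.J3 z p s q = 0 := fun {p q} s n => by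
      rw [P.J3_swap', PM.J3_zero n]
    have n1 := h.naA P
    have n2 := h.nbB P
    have n3 : ¬ P.Ad A a := fun g => n1 g.symm
    have n4 : ¬ P.Ad B b := fun g => n2 g.symm
    rw [h.sum4, two', two', two', two']
    simp only [PM.J3_zero (nn _), PM.J3_zero n1, PM.J3_zero n3, j0 _ (nn _), j0 _ n2, j0 _ n4]
    ring
  rw [h.erase, sum_sym4 R _ _ P.K4_12 P.K4_23 P.K4_34 h.disj,
    sum_sym3 R _ _ (P.J3_swap z) (P.J3_swap' z) h.disj, four, three'] at c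
  simp only [three] at c
  simp only [two, two'] at c
  simp only [h.sum4, ← mul_sum] at c
  simp only [PM.Phi1, PM.Phi2, PM.Phi3, sum_add_distrib] at c ⊢
  linarith

/-- The terms of one vertex, triangle by triangle. -/
lemma Phi1_eq (u : W) : P.Phi1 z a A b B u =
    (P.f4 u a b A + P.f4 u a b B + P.J3 z u a b) + (P.f4 u a B A + P.f4 u a B b + P.J3 z u a B) +
    (P.f4 u A b a + P.f4 u A b B + P.J3 z u A b) + (P.f4 u A B a + P.f4 u A B b + P.J3 z u A B) := by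
  have s1 : ∀ s, P.K4 u a A s = P.f4 u a s A + P.f4 u A s a := fun s => by
    rw [PM.K4_34, PM.K4_23, PM.K4_miss (h.naA P), P.f4_swap' u a s A, P.f4_swap' u A s a]
  unfold PM.Phi1
  rw [s1, s1, PM.K4_miss (h.nbB P), PM.K4_miss (h.nbB P)]
  ring

/-- The count as an inequality. -/
theorem count_le [Fintype W] : 4 * ∑ x ∈ R, ∑ y ∈ R, ∑ w ∈ R, P.J3 z x y w +
    12 * ∑ x ∈ R, ∑ y ∈ R, P.Phi2 z a A b B x y + 24 * ∑ u ∈ R, P.Phi1 z a A b B u ≤ 0 := by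
  have c := h.count P
  have c4 : 0 ≤ ∑ x ∈ R, ∑ y ∈ R, ∑ w ∈ R, ∑ v ∈ R, P.K4 x y w v :=
    sum_nonneg fun x hx => sum_nonneg fun y hy => sum_nonneg fun w hw => sum_nonneg fun v hv =>
      h.K4R_nonneg P hx hy hw hv
  have c3 : ∑ x ∈ R, ∑ y ∈ R, ∑ w ∈ R, P.J3 z x y w ≤
      ∑ x ∈ R, ∑ y ∈ R, ∑ w ∈ R, P.Phi3 z a A b B x y w :=
    sum_le_sum fun x hx => sum_le_sum fun y hy => sum_le_sum fun w hw => h.J3_le_Phi3 P hx hy hw
  linarith

end St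

/-- The setting of the skeleton is the setting of the count. -/
lemma H4.st {W : Type} [Fintype W] {k : ℕ} {Fe : W → W → Prop} {R : Finset W} {z a A b B : W}
    (h : H4 k Fe R z a A b B) : St k Fe z a A b B R := by
  refine ⟨fun x => ?_, h.za, h.zA, h.zb, h.zB, h.aA, h.ab, h.aB, h.Ab, h.AB, h.bB, by simp [h.mem],
    by simp [h.mem], by simp [h.mem], by simp [h.mem], by simp [h.mem], h.cardR, h.fe⟩
  rw [h.mem]
  tauto

end Pool.Agent.P.MP_3f5ded_co.UG
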