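import Pool.Agent.P.MP_3f5ded_co.EQBi

set_option autoImplicit false

namespace Pool.Agent.P.MP_3f5ded_co.UG

open Finset

lemma tw_int {p q r s a A b B : ℤ} (a1 : -1 ≤ a) (a2 : a ≤ 1) (A1 : -1 ≤ A) (A2 : A ≤ 1) (b1 : -1 ≤ b)
    (b2 : b ≤ 1) (B1 : -1 ≤ B) (B2 : B ≤ 1) (hp : p = a - b) (hq : q = a - B) (hr : r = A - b)
    (hs : s = A - B + 1) (p1 : -1 ≤ p) (p2 : p ≤ 1) (q1 : -1 ≤ q) (q2 : q ≤ 1) (r1 : -1 ≤ r)
    (r2 : r ≤ 1) (s2 : s ≤ 1) (n : p.natAbs + q.natAbs + r.natAbs + s.natAbs = 3)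
    (w1 : a = 0 ∨ A = 0) (w2 : b = 0 ∨ B = 0) (w3 : A = 0 ∨ B = 0 ∨ s = 0)
    (w4 : a = -1 → b = -1 → s ≠ 1) (w5 : a = 1 → b = 1 → s ≠ 1) (w6 : a = -1 → q = -1 → s ≠ 1)
    (w7 : b = 1 → r = -1 → s ≠ 1) : A = 0 ∧ B = 0 ∧ ((a = 1 ∧ b = 0) ∨ (a = 0 ∧ b = -1)) := by
  subst hp hq hr hs
  interval_cases a <;> interval_cases A <;> interval_cases b <;> interval_cases B <;> simp_all

lemma s_int {p q r s a A b B : ℤ} (a2 : a ≤ 1) (A2 : A ≤ 1) (b2 : b ≤ 1) (B2 : B ≤ 1)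
    (hp : p = a - b) (hq : q = a - B) (hr : r = A - b) (hs : s = A - B + 1)
    (n : p.natAbs + q.natAbs + r.natAbs + s.natAbs = 1) (m : 0 ≤ a + A + b + B)
    (k1 : ¬ (a = 1 ∧ b = 1 ∧ B = 1 ∧ A = 0)) (k2 : ¬ (a = 1 ∧ b = 1 ∧ B = 1 ∧ A = 1)) :
    A = 0 ∧ b = 0 ∧ ((a = 0 ∧ B = 0) ∨ (a = 0 ∧ B = 1) ∨ (a = 1 ∧ B = 1)) := by
  have a1 : -3 ≤ a := by omega
  have A1 : -3 ≤ A := by omega
  have b1 : -3 ≤ b := by omega
  have B1 : -3 ≤ B := by omega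
  subst hp hq hr hs
  interval_cases a <;> interval_cases b <;> omega

lemma odd_int {p q r s p' q' r' s' : ℤ} (p1 : -1 ≤ p) (p2 : p ≤ 1) (q1 : -1 ≤ q) (q2 : q ≤ 1)
    (r1 : -1 ≤ r) (r2 : r ≤ 1) (s1 : -1 ≤ s) (s2 : s ≤ 1) (e : p - q - r + s = p' - q' - r' + s')
    (n : p'.natAbs + q'.natAbs + r'.natAbs + s'.natAbs = 1) :
    p.natAbs + q.natAbs + r.natAbs + s.natAbs = 1 ∨ p.natAbs + q.natAbs + r.natAbs + s.natAbs = 3 := by
  have o : p - q - r + s = 1 ∨ p - q - r + s = -1 := by omega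
  clear e n
  interval_cases p <;> interval_cases q <;> interval_cases r <;> interval_cases s <;> simp_all

namespace PM
variable {W : Type} {k : ℕ} {r : ℝ} {Fe : W → W → Prop} (P : PM W k r Fe)

/-- Heights of the vertices of a flat clique over the other vertices. -/
structure Al (R : Finset W) (α : W → W → ℤ) : Prop where
  rr : ∀ s, ∀ u ∈ R, ∀ w ∈ R, w ≠ u → P.Ad w s → P.mu u s w = α s u - α s w
  rs : ∀ s t u, P.Ad u t → P.mu u s t = α s u - α t u + P.sh s t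

lemma Al.rev {P : PM W k r Fe} {R : Finset W} {α : W → W → ℤ} (l : P.Al R α) :
    P.rev.Al R fun s u => -α s u :=
  ⟨fun s u hu w hw e g => by rw [rev_mu, l.rr s u hu w hw e g]; ring,
    fun s t u g => by rw [rev_mu, l.rs s t u g]; simp only [PM.rev]; ring⟩

end PM

namespace H4
variable {W : Type} [Fintype W] {k : ℕ} {r : ℝ} {Fe : W → W → Prop} {R : Finset W} {z a A b B : W}
  (h : H4 k Fe R z a A b B) {P : PM W k r Fe} {x y u w e t : W} {α : W → W → ℤ}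
include h

lemma exists_al (hR : P.NoSh R) : ∃ α, P.Al R α := by
  obtain ⟨j, hj⟩ := PM.flat_of_tri (P := P) (Q := R) (fun x hx y hy f => by
      by_cases e : y = x
      · rw [h.mem] at hx
        rw [e, h.fe x x hx.1 hx.1] at f
        tauto
      · exact (h.adRR P hx hy e).2 f) fun x hx y hy c hc e1 e2 e3 => by
    have a1 := h.adRR P hx hy e1
    have a2 := h.adRR P hy hc e2
    have a3 := h.adRR P hc hx e3
    have := PM.mu_swap a1 a2 a3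
    rcases PM.mu_cases a1 a2 a3 with g | g | g
    · exact absurd ⟨a1.symm, a3.symm, a2.symm, by omega⟩ (hR y hy x hx c hc)
    · exact g
    · exact absurd ⟨a1, a2, a3, g⟩ (hR x hx y hy c hc)
  refine ⟨fun s u => P.sh u s + j u, fun s u hu w hw e g => ?_, fun s t u g => ?_⟩
  · rw [PM.mu, g.sh, hj w hw u hu e.symm]; ring
  · rw [PM.mu, g.sh]; ring

/-- The height over `a` decides the triangles through `a`. -/
lemma al_a (l : P.Al R α) (hu : u ∈ R) (hw : w ∈ R) :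
    α a u - α a w ≤ 1 ∧ (P.Sh u a w ↔ α a u - α a w = 1) ∧
      (w ≠ u → P.mu u a w = α a u - α a w ∧ P.mu u w a = α a w - α a u) := by
  by_cases e : w = u
  · subst e
    exact ⟨by omega, ⟨fun g => absurd rfl g.a3.1, fun g => by omega⟩, fun g => absurd rfl g⟩
  have a1 := h.adRa P hu
  have a2 := (h.adRa P hw).symm
  have a3 := h.adRR P hw hu (Ne.symm e)
  have := l.rr a u hu w hw e a2.symm
  have := PM.mu_le a1 a2 a3
  have := PM.mu_sw a1 a2 a3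
  exact ⟨by omega, ⟨fun g => by have := g.e; omega, fun g => ⟨a1, a2, a3, by omega⟩⟩,
    fun _ => by omega⟩

lemma al_ab (l : P.Al R α) (hu : u ∈ R) : P.mu u a b = α a u - α b u + P.sh a b ∧
    -1 ≤ P.mu u a b ∧ P.mu u a b ≤ 1 ∧ P.mu u b a = -P.mu u a b ∧
      (P.mu u a b = 1 → P.Sh u a b) ∧ (P.mu u a b = -1 → P.Sh u b a) := by
  have a1 := h.adRa P hu
  have a2 := h.adab P
  have a3 := (h.adRb P hu).symm
  have := PM.mu_cases a1 a2 a3
  have := PM.mu_sw a1 a2 a3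
  exact ⟨l.rs a b u a3.symm, by omega, by omega, this, fun g => ⟨a1, a2, a3, g⟩,
    fun g => ⟨a3.symm, a2.symm, a1.symm, by omega⟩⟩

omit [Fintype W] h in
lemma nz_swa (u : W) : P.nz A a b B u = P.nz a A b B u := by unfold PM.nz; ring

lemma nz_swp (l : P.Al R α) (hu : u ∈ R) : P.nz b B a A u = P.nz a A b B u := by
  unfold PM.nz
  rw [(h.al_ab l hu).2.2.2.1, (h.swa.al_ab l hu).2.2.2.1, (h.swb.al_ab l hu).2.2.2.1,
    (h.swa.swb.al_ab l hu).2.2.2.1]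
  omega

/-- A vertex with three short triangles that costs nothing next to a single. -/
lemma tw (l : P.Al R α) (he : e ∈ R) (ht : t ∈ R) (e1 : P.mu e a b = 0) (e2 : P.mu e a B = 0)
    (e3 : P.mu e A b = 0) (e4 : P.mu e A B = 1) (n : P.nz a A b B t = 3)
    (c : P.Phi2 z a A b B e t ≤ 0) : α A t = α A e ∧ α B t = α B e ∧
      ((α a t = α a e + 1 ∧ α b t = α b e) ∨ (α a t = α a e ∧ α b t = α b e - 1)) := by
  have ne : t ≠ e := fun g => by
    rw [g, PM.nz, e1, e2, e3, e4] at n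
    omega
  have c' := P.b_Phi2_comm z a A b B e t
  obtain ⟨a1, a2, a3⟩ := h.al_a l he ht
  obtain ⟨a4, a5, -⟩ := h.al_a l ht he
  obtain ⟨A1, -, A3⟩ := h.swa.al_a l he ht
  obtain ⟨A4, -⟩ := h.swa.al_a l ht he
  obtain ⟨b1, b2, b3⟩ := h.swp.al_a l he ht
  obtain ⟨b4, b5, -⟩ := h.swp.al_a l ht he
  obtain ⟨B1, -, B3⟩ := h.swp.swa.al_a l he ht
  obtain ⟨B4, -⟩ := h.swp.swa.al_a l ht he
  obtain ⟨p1, p2, p3, -⟩ := h.al_ab l ht
  obtain ⟨q1, q2, q3, -, -, q6⟩ := h.swb.al_ab l ht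
  obtain ⟨r1, r2, r3, -, -, r6⟩ := h.swa.al_ab l ht
  obtain ⟨s1, s2, s3, -, s5, -⟩ := h.swa.swb.al_ab l ht
  have p0 := (h.al_ab l he).1
  have q0 := (h.swb.al_ab l he).1
  have r0 := (h.swa.al_ab l he).1
  obtain ⟨s0, -, -, -, se, -⟩ := h.swa.swb.al_ab l he
  replace a3 := (a3 ne).2
  replace A3 := (A3 ne).2
  replace b3 := (b3 ne).2
  replace B3 := (B3 ne).2
  have w1 : P.mu e t a = 0 ∨ P.mu e t A = 0 := by
    by_contra! g
    have := h.b_W2 he ht ne g.1 g.2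
    omega
  have w2 : P.mu e t b = 0 ∨ P.mu e t B = 0 := by
    by_contra! g
    have := h.swp.b_W2 he ht ne g.1 g.2
    rw [PM.b_Phi2_swp] at this
    omega
  have w3 : P.mu e t A = 0 ∨ P.mu e t B = 0 ∨ P.mu t A B = 0 := by
    by_contra! g
    have := h.b_all he ht ne g.1 (by omega) g.2.1 g.2.2
    omega
  have w4 : α a e - α a t = 1 → α b e - α b t = 1 → P.mu t A B ≠ 1 := fun f1 f2 f3 => by
    have := h.i_P he ht (a2.2 f1).rot (b2.2 f2).rot (se e4) (s5 f3)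
    omega
  have w5 : α a t - α a e = 1 → α b t - α b e = 1 → P.mu t A B ≠ 1 := fun f1 f2 f3 => by
    have := h.i_P ht he (a5.2 f1).rot (b5.2 f2).rot (s5 f3) (se e4)
    omega
  have w6 : α a e - α a t = 1 → P.mu t a B = -1 → P.mu t A B ≠ 1 := fun f1 f2 f3 => by
    have := h.i_P2 ht he (a2.2 f1).rot (q6 f2).rot.rot (s5 f3) (se e4)
    omega
  have w7 : α b t - α b e = 1 → P.mu t A b = -1 → P.mu t A B ≠ 1 := fun f1 f2 f3 => by
    have := h.i_P2' ht he (b5.2 f1).rot (r6 f2).rot (s5 f3) (se e4)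
    omega
  clear a2 a5 b2 b5 q6 r6 s5 se c c'
  have := tw_int (a := α a t - α a e) (A := α A t - α A e) (b := α b t - α b e)
    (B := α B t - α B e) (by omega) a4 (by omega) A4 (by omega) b4 (by omega) B4
    (by clear w1 w2 w3 w4 w5 w6 w7; omega) (by clear w1 w2 w3 w4 w5 w6 w7; omega)
    (by clear w1 w2 w3 w4 w5 w6 w7; omega) (by clear w1 w2 w3 w4 w5 w6 w7; omega) p2 p3 q2 q3 r2 r3 s3 n
    (w1.imp (fun g => by omega) fun g => by omega) (w2.imp (fun g => by omega) fun g => by omega)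
    (w3.imp (fun g => by omega) (Or.imp_left fun g => by omega))
    (fun f1 f2 => w4 (by omega) (by omega)) w5 (fun f1 => w6 (by omega)) w7
  clear w1 w2 w3 w4 w5 w6 w7 n
  omega

lemma k2 (odd : ∀ u ∈ R, P.nz a A b B u = 1 ∨ P.nz a A b B u = 3) (ht : t ∈ R)
    (n : P.nz a A b B t = 3) : ∃ e ∈ R, P.nz a A b B e = 1 ∧ P.Phi2 z a A b B e t ≤ 0 := by
  classical
  by_contra! c
  have c1 := h.st.count_le P
  have c2 : 0 ≤ ∑ x ∈ R, ∑ y ∈ R, ∑ w ∈ R, P.J3 z x y w :=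
    sum_nonneg fun _ _ => sum_nonneg fun _ _ => sum_nonneg fun _ _ => P.J3_nonneg _ _ _ _
  have nn := fun x hx y hy => h.st.Phi2_nonneg P (x := x) (y := y) hx hy
  have c3 : ∑ x ∈ R.erase t, P.Phi2 z a A b B x t ≤ ∑ x ∈ R.erase t, ∑ y ∈ R, P.Phi2 z a A b B x y :=
    sum_le_sum fun x hx => single_le_sum (nn x (mem_of_mem_erase hx)) ht
  have c4 : ∑ x ∈ R.erase t, P.Phi2 z a A b B x t ≤ ∑ y ∈ R, P.Phi2 z a A b B t y := by
    simp only [← P.b_Phi2_comm z a A b B t]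
    exact sum_le_sum_of_subset_of_nonneg (erase_subset _ _) fun y hy _ => nn y hy t ht
  have c5 : 0 ≤ ∑ x ∈ R.erase t, (P.Phi1 z a A b B x + P.Phi2 z a A b B x t) :=
    sum_nonneg fun x hx => by
      have m := mem_of_mem_erase hx
      have := h.i_G (P := P) m
      have := nn x m t ht
      rcases odd x m with g | g
      · have := c x m g
        omega
      · omega
  have c6 := (h.i_G (P := P) ht).2.2 n
  have c7 := add_sum_erase _ (fun x => ∑ y ∈ R, P.Phi2 z a A b B x y) ht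
  have c8 := add_sum_erase _ (P.Phi1 z a A b B) ht
  rw [sum_add_distrib] at c5
  omega

lemma k3 (l : P.Al R α) {i j : ℤ} (ne : ∃ u ∈ R, α A u = i + 1)
    (s1 : ∀ u ∈ R, (α A u = i ∧ (α a u = j ∨ α a u = j + 1)) ∨
      (α A u = i + 1 ∧ α a u = j + 1 ∧ P.mu u A b = 1 ∧ P.mu u A B = 1))
    (s3 : (∀ u ∈ R, α a u = j + 1 → P.mu u a b = 1) ∨
      ((∃ n ∈ R, α a n = j) ∧ ∀ n ∈ R, α a n = j → P.mu n a b = -1)) : False := by
  classical
  obtain ⟨v, hv, ev⟩ := ne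
  refine h.b_k3 (P := P) (F := R.filter fun u => α A u = i + 1) (U := R.filter fun u => α a u = j + 1)
    (fun u hu => ?_) (filter_subset _ _) ⟨v, mem_filter.2 ⟨hv, ev⟩⟩ (fun u hu => ?_)
    (fun u hu n hn c => ?_) ?_
  · rw [mem_filter] at hu ⊢
    have := s1 u hu.1
    exact ⟨hu.1, by omega⟩
  · rw [mem_filter] at hu
    have := s1 u hu.1
    refine ⟨fun n hn c => ((h.swa.al_a l hu.1 hn).2.1.2 ?_).rot,
      ((h.swa.al_ab l hu.1).2.2.2.2.1 (by omega)).rot,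
      ((h.swa.swb.al_ab l hu.1).2.2.2.2.1 (by omega)).rot⟩
    have := s1 n hn
    have : α A n ≠ i + 1 := fun g => c (mem_filter.2 ⟨hn, g⟩)
    omega
  · rw [mem_filter] at hu
    refine ((h.al_a l hu.1 hn).2.1.2 ?_).rot
    have := s1 n hn
    have : α a n ≠ j + 1 := fun g => c (mem_filter.2 ⟨hn, g⟩)
    omega
  · rcases s3 with s | ⟨⟨n, hn, en⟩, s⟩
    · refine Or.inl fun u hu => ?_
      rw [mem_filter] at hu
      exact ((h.al_ab l hu.1).2.2.2.2.1 (s u hu.1 hu.2)).rot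
    · refine Or.inr ⟨⟨n, hn, fun c => ?_⟩, fun n hn c => ?_⟩
      · have := (mem_filter.1 c).2
        omega
      · refine ((h.al_ab l hn).2.2.2.2.2 (s n hn ?_)).rot.rot
        have := s1 n hn
        have : α a n ≠ j + 1 := fun g => c (mem_filter.2 ⟨hn, g⟩)
        omega

lemma k3' (l : P.Al R α) {i j : ℤ} (ne : ∃ u ∈ R, α A u = i - 1)
    (s1 : ∀ u ∈ R, (α A u = i ∧ (α a u = j ∨ α a u = j - 1)) ∨
      (α A u = i - 1 ∧ α a u = j - 1 ∧ P.mu u A b = -1 ∧ P.mu u A B = -1))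
    (s3 : (∀ u ∈ R, α a u = j - 1 → P.mu u a b = -1) ∨
      ((∃ n ∈ R, α a n = j) ∧ ∀ n ∈ R, α a n = j → P.mu n a b = 1)) : False := by
  refine h.k3 l.rev (i := -i) (j := -j) (ne.imp fun u g => ⟨g.1, by omega⟩) (fun u hu => ?_)
    (s3.imp (fun s u hu g => ?_) fun s => ⟨s.1.imp fun u g => ⟨g.1, by omega⟩, fun u hu g => ?_⟩)
  · have := s1 u hu
    simp only [PM.rev_mu]
    omega
  · rw [PM.rev_mu, s u hu (by omega)]; rfl
  · rw [PM.rev_mu, s.2 u hu (by omega)]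

lemma mus (l : P.Al R α) (he : e ∈ R) (e1 : P.mu e a b = 0) (e2 : P.mu e a B = 0)
    (e3 : P.mu e A b = 0) (e4 : P.mu e A B = 1) (hu : u ∈ R) :
    (P.mu u a b = α a u - α a e - (α b u - α b e) ∧
      P.mu u a B = α a u - α a e - (α B u - α B e) ∧ P.mu u A b = α A u - α A e - (α b u - α b e) ∧
      P.mu u A B = α A u - α A e - (α B u - α B e) + 1) ∧ P.mu u b a = -P.mu u a b ∧
      P.mu u B a = -P.mu u a B ∧ P.mu u b A = -P.mu u A b ∧ P.mu u B A = -P.mu u A B := by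
  have p0 := (h.al_ab l he).1
  have q0 := (h.swb.al_ab l he).1
  have r0 := (h.swa.al_ab l he).1
  have s0 := (h.swa.swb.al_ab l he).1
  obtain ⟨p1, -, -, p2, -⟩ := h.al_ab l hu
  obtain ⟨q1, -, -, q2, -⟩ := h.swb.al_ab l hu
  obtain ⟨r1, -, -, r2, -⟩ := h.swa.al_ab l hu
  obtain ⟨s1, -, -, s2, -⟩ := h.swa.swb.al_ab l hu
  exact ⟨⟨by omega, by omega, by omega, by omega⟩, p2, q2, r2, s2⟩

lemma nz_rot (l : P.Al R α) (hu : u ∈ R) : P.nz B b a A u = P.nz a A b B u := by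
  rw [nz_swa, h.nz_swp l hu]

/-- The singles, seen from the lowest single `e`. -/
lemma sgl (hR : P.NoSh R) (l : P.Al R α)
    (odd : ∀ u ∈ R, P.nz a A b B u = 1 ∨ P.nz a A b B u = 3) (he : e ∈ R) (e1 : P.mu e a b = 0)
    (e2 : P.mu e a B = 0) (e3 : P.mu e A b = 0) (e4 : P.mu e A B = 1) (hu : u ∈ R)
    (n : P.nz a A b B u = 1) (m2 : α a e + α A e + α b e + α B e ≤ α a u + α A u + α b u + α B u) :
    α A u = α A e ∧ α b u = α b e ∧
      ((α a u = α a e ∧ α B u = α B e) ∨ (α a u = α a e ∧ α B u = α B e + 1) ∨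
        (α a u = α a e + 1 ∧ α B u = α B e + 1)) := by
  obtain ⟨⟨m1, m3, m4, m5⟩, m6, m7, m8, m9⟩ := h.mus l he e1 e2 e3 e4 hu
  obtain ⟨a1, a2, -⟩ := h.al_a l hu he
  obtain ⟨A1, A2, -⟩ := h.swa.al_a l hu he
  obtain ⟨b1, b2, -⟩ := h.swp.al_a l hu he
  obtain ⟨B1, B2, -⟩ := h.swp.swa.al_a l hu he
  have k1 : ¬ (α a u - α a e = 1 ∧ α b u - α b e = 1 ∧ α B u - α B e = 1 ∧ α A u - α A e = 0) :=
    fun ⟨g1, g2, g3, g4⟩ => h.swp.swa.i_K1 hR (fun u hu => h.nz_rot l hu ▸ odd u hu) hu he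
      (by omega) (by omega) (by omega) (by omega) (b2.2 g2) (B2.2 g3) (a2.2 g1)
  have k2 : ¬ (α a u - α a e = 1 ∧ α b u - α b e = 1 ∧ α B u - α B e = 1 ∧ α A u - α A e = 1) :=
    fun ⟨g1, g2, g3, g4⟩ => h.i_K1 hR odd hu he (by omega) (by omega) (by omega) (by omega) (A2.2 g4)
      (a2.2 g1) (b2.2 g2)
  have := s_int a1 A1 b1 B1 m1 m3 m4 m5 n (by omega) k1 k2
  clear a2 A2 b2 B2 k1 k2 n m1 m3 m4 m5 m6 m7 m8 m9
  omega

/-- The types of all vertices, seen from the lowest single `e`. -/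
lemma typ (hR : P.NoSh R) (l : P.Al R α)
    (odd : ∀ u ∈ R, P.nz a A b B u = 1 ∨ P.nz a A b B u = 3) (he : e ∈ R) (e1 : P.mu e a b = 0)
    (e2 : P.mu e a B = 0) (e3 : P.mu e A b = 0) (e4 : P.mu e A B = 1)
    (mn : ∀ u ∈ R, P.nz a A b B u = 1 →
      α a e + α A e + α b e + α B e ≤ α a u + α A u + α b u + α B u) (hu : u ∈ R) :
    (α b u = α b e ∧ α A u = α A e ∧ (α B u = α B e ∨ α B u = α B e + 1) ∧
        (α a u = α a e ∨ α a u = α a e + 1)) ∨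
      (α B u = α B e ∧ α a u = α a e ∧ α b u = α b e - 1 ∧ α A u = α A e) ∨
      (α B u = α B e + 1 ∧ α a u = α a e ∧ α b u = α b e ∧ α A u = α A e - 1) ∨
      (α B u = α B e + 1 ∧ α a u = α a e ∧ α b u = α b e + 1 ∧ α A u = α A e) ∨
      (α B u = α B e + 1 ∧ α a u = α a e + 1 ∧ α b u = α b e ∧ α A u = α A e + 1) := by
  rcases odd u hu with n | n
  · obtain ⟨s1, s2, s3⟩ := h.sgl hR l odd he e1 e2 e3 e4 hu n (mn u hu n)
    exact Or.inl ⟨s2, s1, by omega, by omega⟩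
  obtain ⟨v, hv, n1, c⟩ := h.k2 odd hu n
  obtain ⟨⟨m1, m3, m4, m5⟩, m6, m7, m8, m9⟩ := h.mus l he e1 e2 e3 e4 hv
  obtain ⟨s1, s2, ⟨s3, s4⟩ | ⟨s3, s4⟩ | ⟨s3, s4⟩⟩ := h.sgl hR l odd he e1 e2 e3 e4 hv n1 (mn v hv n1)
  · obtain ⟨t1, t2, t3 | t3⟩ := h.tw l hv hu (by omega) (by omega) (by omega) (by omega) n c
    · exact Or.inl (by omega)
    · exact Or.inr (Or.inl (by omega))
  · obtain ⟨t1, t2, t3 | t3⟩ := h.swp.swb.tw l hv hu (by omega) (by omega) (by omega) (by omega)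
      (by rw [h.swa.nz_swp l hu, nz_swa, n]) (by rw [PM.b_Phi2_swp, PM.b_Phi2_swa]; exact c)
    · exact Or.inr (Or.inr (Or.inr (Or.inl (by omega))))
    · exact Or.inr (Or.inr (Or.inl (by omega)))
  · obtain ⟨t1, t2, t3 | t3⟩ := h.swa.swb.tw l hv hu (by omega) (by omega) (by omega) (by omega)
      (by rw [nz_swa, ← h.swb.nz_swp l hu, h.nz_rot l hu, n])
      (by rw [PM.b_Phi2_swa, ← PM.b_Phi2_swp, PM.b_Phi2_swa, PM.b_Phi2_swp]; exact c)
    · exact Or.inr (Or.inr (Or.inr (Or.inr (by omega))))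
    · exact Or.inl (by omega)

/-- The lowest single `e` has the short triangle `e, A, B`. -/
lemma core (hR : P.NoSh R) (l : P.Al R α)
    (odd : ∀ u ∈ R, P.nz a A b B u = 1 ∨ P.nz a A b B u = 3) (he : e ∈ R) (e1 : P.mu e a b = 0)
    (e2 : P.mu e a B = 0) (e3 : P.mu e A b = 0) (e4 : P.mu e A B = 1)
    (mn : ∀ u ∈ R, P.nz a A b B u = 1 →
      α a e + α A e + α b e + α B e ≤ α a u + α A u + α b u + α B u)
    (sp : ((∃ u ∈ R, α a u ≠ α a e) ∧ ∃ u ∈ R, α A u ≠ α A e) ∨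
      ((∃ u ∈ R, α b u ≠ α b e) ∧ ∃ u ∈ R, α B u ≠ α B e)) : False := by
  have M := fun u (hu : u ∈ R) => h.mus l he e1 e2 e3 e4 hu
  have T := fun u (hu : u ∈ R) => h.typ hR l odd he e1 e2 e3 e4 mn hu
  clear e1 e2 e3 e4 mn odd
  by_cases c1 : ∃ u ∈ R, α b u = α b e + 1
  · obtain ⟨v, hv, ev⟩ := c1
    refine h.swp.swa.swb.k3 l (i := α b e) (j := α B e) ⟨v, hv, ev⟩ (fun u hu => ?_)
      (Or.inr ⟨⟨e, he, rfl⟩, fun u hu g => ?_⟩)
    all_goals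
      obtain ⟨⟨m1, m3, m4, m5⟩, m6, m7, m8, m9⟩ := M u hu
      have := (h.swp.al_a l hv hu).1
      rcases T u hu with t | t | t | t | t <;> omega
  by_cases c2 : ∃ u ∈ R, α b u = α b e - 1
  · refine h.swp.swa.swb.k3' l (i := α b e) (j := α B e + 1) c2 (fun u hu => ?_)
      (Or.inl fun u hu g => ?_)
    all_goals
      obtain ⟨⟨m1, m3, m4, m5⟩, m6, m7, m8, m9⟩ := M u hu
      have : α b u ≠ α b e + 1 := fun g => c1 ⟨u, hu, g⟩
      rcases T u hu with t | t | t | t | t <;> omega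
  have c3 : ∀ u ∈ R, α b u = α b e := fun u hu => by
    have : α b u ≠ α b e + 1 := fun g => c1 ⟨u, hu, g⟩
    have : α b u ≠ α b e - 1 := fun g => c2 ⟨u, hu, g⟩
    rcases T u hu with t | t | t | t | t <;> omega
  obtain ⟨⟨w, hw, ew⟩, v, hv, ev⟩ := sp.resolve_right fun ⟨⟨u, hu, g⟩, _⟩ => g (c3 u hu)
  have g : α A v = α A e + 1 ∨ α A v = α A e - 1 := by
    rcases T v hv with t | t | t | t | t <;> omega
  have g' : α a w = α a e + 1 := by
    rcases T w hw with t | t | t | t | t <;> omega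
  clear ew ev
  rcases g with g | g
  · refine h.k3 l (i := α A e) (j := α a e) ⟨v, hv, g⟩ (fun u hu => ?_) (Or.inl fun u hu g => ?_)
    all_goals
      obtain ⟨⟨m1, m3, m4, m5⟩, m6, m7, m8, m9⟩ := M u hu
      have := c3 u hu
      have := (h.swa.al_a l hv hu).1
      rcases T u hu with t | t | t | t | t <;> omega
  · refine h.k3' l (i := α A e) (j := α a e + 1) ⟨v, hv, g⟩ (fun u hu => ?_)
      (Or.inr ⟨⟨w, hw, g'⟩, fun u hu g => ?_⟩)
    all_goals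
      obtain ⟨⟨m1, m3, m4, m5⟩, m6, m7, m8, m9⟩ := M u hu
      have := c3 u hu
      have := (h.swa.al_a l hu hv).1
      rcases T u hu with t | t | t | t | t <;> omega

end H4

/-- `R` flat, two partners cannot both split it. -/
theorem H4.both {W : Type} [Fintype W] [DecidableEq W] {k : ℕ} {r : ℝ} {Fe : W → W → Prop}
    {R : Finset W} {z a A b B : W} (h : H4 k Fe R z a A b B) (P : PM W k r Fe) (hR : P.NoSh R)
    (ha : P.Spl R a) (hA : P.Spl R A) : False := by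
  obtain ⟨α, l⟩ := h.exists_al hR
  obtain ⟨x, hx, y, hy, s⟩ := ha
  obtain ⟨x', hx', y', hy', s'⟩ := hA
  have d := (h.al_a l hy hx).2.1.1 s.rot.rot
  have d' := (h.swa.al_a l hy' hx').2.1.1 s'.rot.rot
  obtain ⟨u, hu, w, hw, c1, c2⟩ : ∃ u ∈ R, ∃ w ∈ R, α a u ≠ α a w ∧ α A u ≠ α A w := by
    by_contra! c
    have := c x hx y hy
    have := c x hx x' hx'
    have := c y hy x' hx'
    have := c x hx y' hy'
    have := c y hy y' hy'
    omega
  have ne : w ≠ u := fun g => c1 (g ▸ rfl)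
  have c4 := ((h.al_a l hu hw).2.2 ne).2
  have c5 := ((h.swa.al_a l hu hw).2.2 ne).2
  have c3 := h.b_W2 (P := P) hu hw ne (by omega) (by omega)
  obtain ⟨v, hv, nv⟩ : ∃ v ∈ R, P.nz a A b B v = 1 := by
    by_contra! c
    have e1 := h.st.count_le P
    have e2 : 0 ≤ ∑ x ∈ R, ∑ y ∈ R, ∑ w ∈ R, P.J3 z x y w :=
      sum_nonneg fun _ _ => sum_nonneg fun _ _ => sum_nonneg fun _ _ => P.J3_nonneg _ _ _ _
    have e3 : 0 ≤ ∑ u ∈ R, P.Phi1 z a A b B u := sum_nonneg fun u hu => (h.i_G hu).2.1 (c u hu)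
    have e4 := single_le_sum (fun y hy => h.st.Phi2_nonneg P hu hy) hw
    have e5 := single_le_sum (f := fun x => ∑ y ∈ R, P.Phi2 z a A b B x y)
      (fun x hx => sum_nonneg fun y hy => h.st.Phi2_nonneg P hx hy) hu
    omega
  have M := fun u hu => And.intro (And.intro (h.al_ab l (u := u) hu) (h.swb.al_ab l hu))
    (And.intro (h.swa.al_ab l hu) (h.swa.swb.al_ab l hu))
  have odd : ∀ u ∈ R, P.nz a A b B u = 1 ∨ P.nz a A b B u = 3 := fun u hu => by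
    obtain ⟨⟨⟨p1, p2, p3, -⟩, q1, q2, q3, -⟩, ⟨r1, r2, r3, -⟩, s1, s2, s3, -⟩ := M u hu
    obtain ⟨⟨⟨p4, p5, p6, -⟩, q4, q5, q6, -⟩, ⟨r4, r5, r6, -⟩, s4, s5, s6, -⟩ := M v hv
    exact odd_int p2 p3 q2 q3 r2 r3 s2 s3 (by omega) nv
  obtain ⟨e, he, mn⟩ := (R.filter fun u => P.nz a A b B u = 1).exists_min_image
    (fun u => α a u + α A u + α b u + α B u) ⟨v, mem_filter.2 ⟨hv, nv⟩⟩
  simp only [mem_filter, and_imp] at he mn
  obtain ⟨he, n⟩ := he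
  have sa : ∃ u ∈ R, α a u ≠ α a e := by
    by_contra! c
    exact c1 ((c u hu).trans (c w hw).symm)
  have sA : ∃ u ∈ R, α A u ≠ α A e := by
    by_contra! c
    exact c2 ((c u hu).trans (c w hw).symm)
  have key : ∀ {a' A' b' B' : W}, H4 k Fe R z a' A' b' B' →
      (∀ u ∈ R, P.nz a' A' b' B' u = P.nz a A b B u) →
      (∀ u, α a' u + α A' u + α b' u + α B' u = α a u + α A u + α b u + α B u) →
      (((∃ u ∈ R, α a' u ≠ α a' e) ∧ ∃ u ∈ R, α A' u ≠ α A' e) ∨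
        ((∃ u ∈ R, α b' u ≠ α b' e) ∧ ∃ u ∈ R, α B' u ≠ α B' e)) → P.mu e A' B' ≠ 1 :=
    fun h' e1 e2 e3 e4 => by
      have := e1 e he
      rw [n, PM.nz] at this
      exact h'.core hR l (fun u hu => e1 u hu ▸ odd u hu) he (by omega) (by omega) (by omega) e4
        (fun u hu g => by rw [e2, e2]; exact mn u hu (e1 u hu ▸ g)) e3
  have n1 := fun u (_ : u ∈ R) => H4.nz_swa (P := P) (a := a) (A := A) (b := b) (B := B) u
  have n2 := fun u (hu : u ∈ R) => h.nz_swp l hu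
  have n3 := fun u (hu : u ∈ R) => (H4.nz_swa u).trans (n2 u hu)
  have n4 := fun u (hu : u ∈ R) => (h.swb.nz_swp l hu).symm.trans (n3 u hu)
  have n5 := fun u (hu : u ∈ R) => (H4.nz_swa u).trans (n4 u hu)
  have k1 := key h (fun _ _ => rfl) (fun _ => rfl) (Or.inl ⟨sa, sA⟩)
  have k2 := key h.swa n1 (fun _ => by ring) (Or.inl ⟨sA, sa⟩)
  have k3 := key h.swb n4 (fun _ => by ring) (Or.inl ⟨sa, sA⟩)
  have k4 := key h.swa.swb n5 (fun _ => by ring) (Or.inl ⟨sA, sa⟩)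
  have k5 := key h.swp n2 (fun _ => by ring) (Or.inr ⟨sa, sA⟩)
  have k6 := key h.swp.swa n3 (fun _ => by ring) (Or.inr ⟨sa, sA⟩)
  have k7 := key h.swa.swp (fun u hu => (h.swa.nz_swp l hu).trans (n1 u hu)) (fun _ => by ring)
    (Or.inr ⟨sA, sa⟩)
  have k8 := key h.swa.swb.swp (fun u hu => (h.swa.swb.nz_swp l hu).trans (n5 u hu))
    (fun _ => by ring) (Or.inr ⟨sA, sa⟩)
  obtain ⟨⟨⟨-, p2, p3, p4, -⟩, -, q2, q3, q4, -⟩, ⟨-, r2, r3, r4, -⟩, -, s2, s3, s4, -⟩ := M e he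
  unfold PM.nz at n
  omega

end Pool.Agent.P.MP_3f5ded_co.UG
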