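import Pool.Agent.P.MP_3f5ded_co.EQS

set_option autoImplicit false

namespace Pool.Agent.P.MP_3f5ded_co.UG

open Finset

lemma card_le_Icc {ι : Type} {s : Finset ι} {g : ι → ℤ} {a b : ℤ} (ab : a ≤ b + 1)
    (h : ∀ i ∈ s, a ≤ g i ∧ g i ≤ b) (inj : ∀ i ∈ s, ∀ j ∈ s, g i = g j → i = j) :
    (s.card : ℤ) ≤ b + 1 - a := by
  have := card_le_card_of_injOn (s := s) (t := Icc a b) g (fun i hi => by simpa using h i hi)
    fun i hi j hj e => inj i hi j hj e
  rw [Int.card_Icc] at this
  omega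

namespace PM
variable {W : Type} {k : ℕ} {r : ℝ} {Fe : W → W → Prop} {P : PM W k r Fe}

/-- A centre with three other items reads one side and then the other side. -/
lemma last_side {a : W} {U M : Finset W} (hU : U.Nonempty) (hM : M.Nonempty)
    (c2 : U.card + M.card + 3 = k) (s2 : ∀ n ∈ M, ∀ u ∈ U, P.Sh a n u) :
    ∃ l ∈ M, ∀ u ∈ U, ∀ n ∈ M, P.st a u n ≤ P.st a u l := by
  classical
  obtain ⟨⟨u0, l⟩, hm, mx⟩ := exists_max_image (U ×ˢ M) (fun q => P.st a q.1 q.2) (hU.product hM)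
  obtain ⟨hu0, hl⟩ := mem_product.1 hm
  have mx' : ∀ u ∈ U, ∀ n ∈ M, P.st a u n ≤ P.st a u0 l := fun u hu n hn =>
    mx (u, n) (mem_product.2 ⟨hu, hn⟩)
  have ua : ∀ u ∈ U, u ≠ a := fun u hu => (s2 l hl u hu).a3.1.symm
  have na : ∀ n ∈ M, n ≠ a := fun n hn => (s2 n hn u0 hu0).a1.1
  have b3 : ∀ u ∈ U, ∀ n ∈ M, 1 ≤ P.st a u n ∧ P.st a u n + 3 ≤ k := fun u hu n hn => by
    have := (s2 n hn u hu).st
    omega
  have p0 : ∀ x, x ≠ a → 0 ≤ P.st a u0 x := fun x hx => by
    obtain ⟨n, e⟩ := P.sur a u0 (ua u0 hu0)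
    exact (st_spec hx e).1
  have hu : ∀ u ∈ U, P.st a u0 u + P.st a u l = P.st a u0 l := fun u hu => by
    by_cases e : u = u0
    · rw [e, st_self (ua u0 hu0), zero_add]
    · have t := st_tri (P := P) (ua u hu) (ua u0 hu0) (na l hl)
      have := st_add (P := P) (ua u hu) (ua u0 hu0) e
      have := st_pos (P := P) (ua u hu) (ua u0 hu0) e
      have := mx' u hu l hl
      omega
  have gap : ∀ u ∈ U, ∀ n ∈ M, (P.st a u0 u ≤ P.st a u0 n ∧
      P.st a u0 u + P.st a u n = P.st a u0 n) ∨ P.st a u0 n + 3 ≤ P.st a u0 u := fun u hu n hn => by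
    have t := st_tri (P := P) (ua u0 hu0) (ua u hu) (na n hn)
    have := b3 u hu n hn
    omega
  refine ⟨l, hl, fun u h n hn => ?_⟩
  have e1 := hu u h
  have e2 := mx' u0 hu0 n hn
  rcases gap u h n hn with g | g
  · omega
  exfalso
  obtain ⟨n', hn', mx2⟩ := exists_max_image (M.filter fun n => P.st a u0 n < P.st a u0 u)
    (fun n => P.st a u0 n) ⟨n, mem_filter.2 ⟨hn, by omega⟩⟩
  obtain ⟨m1, m2⟩ := mem_filter.1 hn'
  have dj : Disjoint U M := disjoint_left.2 fun x h1 h2 => (s2 x h2 x h1).a2.1 rfl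
  have xa : ∀ x ∈ U ∪ M, x ≠ a := fun x hx => (mem_union.1 hx).elim (ua x) (na x)
  have key : ∀ x ∈ U ∪ M, P.st a u0 x + 3 ≤ k ∧
      (P.st a u0 x ≤ P.st a u0 n' ∨ P.st a u0 n' + 3 ≤ P.st a u0 x) := fun x hx => by
    have := b3 u0 hu0 l hl
    rcases mem_union.1 hx with hx | hx
    · have := hu x hx
      have := b3 x hx l hl
      have := gap x hx n' m1
      omega
    · have := mx' u0 hu0 x hx
      have := gap u h n' m1
      by_cases c : P.st a u0 x < P.st a u0 u
      · have := mx2 x (mem_filter.2 ⟨hx, c⟩)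
        omega
      · omega
  have cd := card_le_Icc (s := U ∪ M)
    (g := fun x => if P.st a u0 x ≤ P.st a u0 n' then P.st a u0 x else P.st a u0 x - 2)
    (a := 0) (b := k - 5) (by have := b3 u0 hu0 l hl; omega) (fun x hx => by
      have := key x hx
      have := p0 x (xa x hx)
      have := p0 n' (na n' m1)
      have := gap u h n' m1
      have := key u (mem_union_left _ h)
      split_ifs <;> omega) (fun x hx y hy e => by
      have := key x hx
      have := key y hy
      refine st_inj (P := P) (ua u0 hu0) (xa x hx) (xa y hy) ?_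
      split_ifs at e <;> omega)
  rw [card_union_of_disjoint dj] at cd
  push_cast at cd
  omega

/-- Case K3. -/
theorem K3 {A a : W} {F N U M : Finset W} (hF : F.Nonempty) (hM : M.Nonempty)
    (c1 : F.card + N.card + 2 = k) (s1 : ∀ n ∈ N, ∀ u ∈ F, P.Sh A n u)
    (c2 : U.card + M.card + 3 = k) (s2 : ∀ n ∈ M, ∀ u ∈ U, P.Sh a n u) (FU : F ⊆ U)
    (MN : M ⊆ N) (aN : a ∉ N) (AU : A ∉ U) (aA : a ≠ A) : False := by
  classical
  have ne := aA.symm
  obtain ⟨x, hx, -, S⟩ := lemS hF (hM.mono MN) c1 s1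
  obtain ⟨l, hl, L⟩ := last_side (hF.mono FU) hM c2 s2
  have xU := FU hx
  have lN := MN hl
  have ua : ∀ u ∈ U, u ≠ a := fun u hu => (s2 l hl u hu).a3.1.symm
  have na : ∀ n ∈ M, n ≠ a := fun n hn => (s2 n hn x xU).a1.1
  have ul : ∀ u ∈ U, u ≠ l := fun u hu => (s2 l hl u hu).a2.1
  have uA : ∀ u ∈ U, u ≠ A := fun u hu e => AU (e ▸ hu)
  have al : a ≠ l := (na l hl).symm
  have Al : A ≠ l := (s1 l lN x hx).a1.1.symm
  have low : ∀ u ∈ U, (M.card : ℤ) ≤ P.st a u l := fun u hu => by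
    have := card_le_Icc (s := M) (g := fun n => P.st a u n) (a := 1) (b := P.st a u l)
      (by have := (s2 l hl u hu).st; omega)
      (fun n hn => ⟨(s2 n hn u hu).st.2.2.2, L u hu n hn⟩)
      fun n hn n' hn' e => st_inj (ua u hu) (na n hn) (na n' hn') e
    omega
  have tA : P.st l a A + 1 = P.st l a x ∧ 1 ≤ P.st l a A := by
    have t := st_tri (P := P) al Al (ul x xU)
    have := (S l lN).2.1
    have := st_pos (P := P) al Al ne.symm
    have := st_pos (P := P) al (ul x xU) (ua x xU).symm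
    omega
  have hne : ∀ u ∈ U, P.st l a u ≠ P.st l a A := fun u hu e => uA u hu (st_inj al (ul u hu) Al e)
  set T := U.filter fun u => P.st l a A < P.st l a u with hT
  have xT : x ∈ T := mem_filter.2 ⟨xU, by omega⟩
  have k1 := card_le_Icc (s := U.filter fun u => ¬ P.st l a A < P.st l a u)
    (g := fun u => P.st l a u) (a := 1) (b := P.st l a A - 1) (by omega) (fun u hu => by
      obtain ⟨h1, h2⟩ := mem_filter.1 hu
      have := hne u h1
      have := (s2 l hl u h1).st
      omega) fun u hu v hv e => st_inj al (ul u (mem_filter.1 hu).1) (ul v (mem_filter.1 hv).1) e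
  have k2 := card_filter_add_card_filter_not (s := U) fun u => P.st l a A < P.st l a u
  have i1 : ∀ u ∈ T, ∀ v ∈ T, P.st a u l = P.st a v l → u = v := fun u hu v hv e =>
    st_inj' (na l hl) (ua u (mem_filter.1 hu).1) (ua v (mem_filter.1 hv).1) e
  have k3 := card_le_Icc (s := T) (g := fun u => P.st a u l) (a := M.card)
    (b := k - 3 - P.st l a A) (by
      have := (s2 l hl x xU).st
      have := low x xU
      omega) (fun u hu => by
      obtain ⟨h1, h2⟩ := mem_filter.1 hu
      have := low u h1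
      have := (s2 l hl u h1).st
      omega) i1
  have k4 := sum_inj_ge (s := T) (g := fun u => P.st a u l) (a := M.card)
    (fun u hu => low u (mem_filter.1 hu).1) i1
  have k5 := sum_inj_ge (s := T) (g := fun u => P.st l a u) (a := P.st l a A + 1)
    (fun u hu => (mem_filter.1 hu).2) fun u hu v hv e =>
      st_inj al (ul u (mem_filter.1 hu).1) (ul v (mem_filter.1 hv).1) e
  have q1 : P.st x l a = 1 := by
    by_contra c
    have k6 : ∑ u ∈ T, (P.st a u l + P.st l a u) < ∑ _u ∈ T, ((k : ℤ) - 2) :=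
      sum_lt_sum (fun u hu => by have := (s2 l hl u (mem_filter.1 hu).1).st; omega)
        ⟨x, xT, by have := (s2 l hl x xU).st; omega⟩
    rw [sum_add_distrib, sum_const, nsmul_eq_mul] at k6
    have e : (k : ℤ) = M.card + T.card + P.st l a A + 2 := by
      rw [← hT] at k2
      omega
    rw [e] at k6
    nlinarith
  have ax : a ≠ x := (ua x xU).symm
  have Ax : A ≠ x := (uA x xU).symm
  have nx : ∀ n ∈ insert a N, n ≠ x := fun n hn => by
    rcases mem_insert.1 hn with rfl | hn
    · exact ax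
    · exact (s1 n hn x hx).a2.1.symm
  have bN : ∀ n ∈ N, 1 ≤ P.st x n A ∧ P.st x n A ≤ N.card := fun n hn => by
    have := S n hn
    have := (s1 n hn x hx).st
    omega
  have k7 := card_le_Icc (s := insert a N) (g := fun n => P.st x n A) (a := 1) (b := N.card)
    (by omega) (fun n hn => by
      rcases mem_insert.1 hn with rfl | hn
      · have t := st_tri (P := P) (ul x xU).symm ax Ax
        have := bN l lN
        have := st_pos (P := P) ax Ax ne.symm
        omega
      · exact bN n hn) fun n hn n' hn' e => st_inj' Ax (nx n hn) (nx n' hn') e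
  rw [card_insert_of_notMem aN] at k7
  push_cast at k7
  omega

/-- The mirror image of case K3. -/
theorem K3rev {A a : W} {F N U M : Finset W} (hF : F.Nonempty) (hM : M.Nonempty)
    (c1 : F.card + N.card + 2 = k) (s1 : ∀ n ∈ N, ∀ u ∈ F, P.Sh A u n)
    (c2 : U.card + M.card + 3 = k) (s2 : ∀ n ∈ M, ∀ u ∈ U, P.Sh a u n) (FU : F ⊆ U)
    (MN : M ⊆ N) (aN : a ∉ N) (AU : A ∉ U) (aA : a ≠ A) : False :=
  K3 (P := P.rev) hF hM c1 (fun n hn u hu => rev_sh.2 (s1 n hn u hu).rot.rot) c2
    (fun n hn u hu => rev_sh.2 (s2 n hn u hu).rot.rot) FU MN aN AU aA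

end PM

end Pool.Agent.P.MP_3f5ded_co.UG
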