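import Pool.Agent.P.MP_3f5ded_co.EQ0
import Pool.Agent.P.MP_3f5ded_co.EQ2
import Pool.Agent.P.MP_3f5ded_co.EQK3

set_option autoImplicit false

namespace Pool.Agent.P.MP_3f5ded_co.UG

open Finset

namespace PM
variable {W : Type} {k : ℕ} {r : ℝ} {Fe : W → W → Prop} {P : PM W k r Fe} {x y c d p q s z : W}

lemma f4_sh (h : P.Sh x y c) (h1 : d ≠ x) (h2 : d ≠ y) (h3 : d ≠ c) :
    P.f4 x y c d = P.met x y c d - 1 := by
  rw [f4, g4_pos h h1 h2 h3, g4_neg h.not_swap, add_zero]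

lemma K4_cyc (h1 : P.Sh p q s) (h2 : P.Sh p s d) (h3 : P.Sh p q d) (h4 : P.Sh q s d) :
    2 ≤ P.K4 p q s d := by
  have e1 := twin h1 h3 h2.a2.1.symm
  have e2 := anti h2 h1.rot.rot
  have e3 := twin h2.rot.rot h3.rot.rot h1.a2.1
  have e4 := twin h1.rot h4 h2.a3.1
  have e5 := anti h3.rot h4.rot.rot
  have e6 := twin h2.rot h4.rot h1.a1.1.symm
  rw [K4, f4_sh h1 h2.a3.1.symm h3.a2.1 h2.a2.1, f4_sh h3 h1.a3.1.symm h1.a2.1 h2.a2.1.symm,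
    f4_sh h2 h1.a1.1 h1.a2.1.symm h3.a2.1.symm, f4_sh h4 h1.a1.1.symm h1.a3.1 h2.a3.1]
  unfold met
  omega

/-- Four short triangles on four vertices. -/
lemma K4_all (h1 : P.Ad p q) (h2 : P.Ad p s) (h3 : P.Ad p d) (h4 : P.Ad q s) (h5 : P.Ad q d)
    (h6 : P.Ad s d) (m1 : P.mu p q s ≠ 0) (m2 : P.mu p s d ≠ 0) (m3 : P.mu p q d ≠ 0)
    (m4 : P.mu q s d ≠ 0) : 2 ≤ P.K4 p q s d := by
  have co := cocycle (q := q) (d := d) h2 h5
  have t : ∀ {x y c}, P.Ad x y → P.Ad y c → P.Ad x c → P.mu x y c ≠ 0 →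
      (P.mu x y c = 1 ∧ P.Sh x y c) ∨ (P.mu x y c = -1 ∧ P.Sh x c y) := fun a b c e => by
    have := mu_sw a b c.symm
    rcases mu_cases a b c.symm with g | g | g
    exacts [Or.inr ⟨g, c, b.symm, a.symm, by omega⟩, absurd g e, Or.inl ⟨g, a, b, c.symm, g⟩]
  rcases t h1 h4 h2 m1 with ⟨a, a'⟩ | ⟨a, a'⟩ <;> rcases t h2 h6 h3 m2 with ⟨b, b'⟩ | ⟨b, b'⟩ <;>
    rcases t h1 h5 h3 m3 with ⟨c, c'⟩ | ⟨c, c'⟩ <;> rcases t h4 h6 h5 m4 with ⟨e, e'⟩ | ⟨e, e'⟩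
  any_goals omega
  · exact K4_cyc a' b' c' e'
  · exact P.K4_34 p q s d ▸ K4_cyc c' b' a' e'
  · exact P.K4_34 p q s d ▸ P.K4_23 p q d s ▸ K4_cyc c' a' b' e'.rot.rot
  · exact P.K4_23 p q s d ▸ K4_cyc a' c' b' e'.rot.rot
  · exact P.K4_23 p q s d ▸ P.K4_34 p s q d ▸ K4_cyc b' c' a' e'.rot
  · exact P.K4_34 p q s d ▸ P.K4_23 p q d s ▸ P.K4_34 p d q s ▸ K4_cyc b' a' c' e'.rot

/-- A pair that is split by two partners. -/
lemma pair_two (h : ¬ P.Ad c d) (e : d ≠ c) (h1 : P.Ad x y) (h2 : P.Ad y c) (h3 : P.Ad c x)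
    (h4 : P.Ad y d) (h5 : P.Ad d x) (m1 : P.mu x y c ≠ 0) (m2 : P.mu x y d ≠ 0) (z : W) :
    2 ≤ P.K4 x y c d + P.J3 z x y c + P.J3 z x y d := by
  rw [K4_miss h]
  have p := f4_pair h1 h2 h3 h4 h5 e m1 m2
  have a' := J3_cases h1 h2 h3 z
  have b' := J3_cases h1 h4 h5 z
  have := P.met_nonneg x y c z
  have := P.met_nonneg y x c z
  have := P.met_nonneg x y d z
  have := P.met_nonneg y x d z
  rcases a' with a' | ⟨a', -, a2⟩ | ⟨a', -, a2⟩ <;>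
    rcases b' with b' | ⟨b', -, b2⟩ | ⟨b', -, b2⟩ <;> omega

variable (P) (z a A b B : W)

lemma b_Phi1_swa (u : W) : P.Phi1 z A a b B u = P.Phi1 z a A b B u := by
  unfold Phi1
  rw [P.K4_23 u a A b, P.K4_23 u a A B]
  ring

lemma b_Phi1_swp (u : W) : P.Phi1 z b B a A u = P.Phi1 z a A b B u := by
  unfold Phi1
  rw [P.K4_34 u b a B, P.K4_23 u a b B, P.K4_34 u b A B, P.K4_23 u A b B, P.K4_23 u a b A,
    P.K4_34 u a A b, P.K4_23 u a B A, P.K4_34 u a A B, P.J3_swap' z u a b, P.J3_swap' z u A b,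
    P.J3_swap' z u a B, P.J3_swap' z u A B]
  ring

lemma b_Phi2_swa (x y : W) : P.Phi2 z A a b B x y = P.Phi2 z a A b B x y := by
  unfold Phi2
  rw [P.K4_34 x y a A]
  ring

lemma b_Phi2_swp (x y : W) : P.Phi2 z b B a A x y = P.Phi2 z a A b B x y := by
  unfold Phi2
  rw [P.K4_34 x y a b, P.K4_34 x y A b, P.K4_34 x y a B, P.K4_34 x y A B]
  ring

lemma b_Phi2_comm (x y : W) : P.Phi2 z a A b B y x = P.Phi2 z a A b B x y := by
  simp only [Phi2, P.K4_12 x y, P.J3_swap z x y]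

end PM

namespace H4
variable {W : Type} [Fintype W] {k : ℕ} {r : ℝ} {Fe : W → W → Prop} {R : Finset W} {z a A b B : W}
  (h : H4 k Fe R z a A b B) {P : PM W k r Fe} {x y : W}
include h

lemma b_nad : ¬ P.Ad a A := fun g => g.2 ((h.fe a A h.za.symm h.zA.symm).2 (Or.inl ⟨rfl, rfl⟩))

/-- The six parts of the pair term. -/
lemma b_parts (hx : x ∈ R) (hy : y ∈ R) (e : y ≠ x) :
    0 ≤ P.K4 x y a A + P.J3 z x y a + P.J3 z x y A ∧ 0 ≤ P.K4 x y b B + P.J3 z x y b + P.J3 z x y B ∧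
      0 ≤ P.K4 x y a b ∧ 0 ≤ P.K4 x y a B ∧ 0 ≤ P.K4 x y A b ∧ 0 ≤ P.K4 x y A B :=
  have xy := h.adRR P hx hy e
  ⟨PM.pair_nonneg h.b_nad h.aA.symm xy (h.adRa P hy) (h.adRa P hx).symm (h.adRA P hy)
      (h.adRA P hx).symm z,
    PM.pair_nonneg h.swp.b_nad h.bB.symm xy (h.adRb P hy) (h.adRb P hx).symm (h.adRB P hy)
      (h.adRB P hx).symm z,
    PM.K4_nonneg xy (h.adRa P hx) (h.adRb P hx) (h.adRa P hy) (h.adRb P hy) (h.adab P),
    PM.K4_nonneg xy (h.adRa P hx) (h.adRB P hx) (h.adRa P hy) (h.adRB P hy) (h.adaB P),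
    PM.K4_nonneg xy (h.adRA P hx) (h.adRb P hx) (h.adRA P hy) (h.adRb P hy) (h.adAb P),
    PM.K4_nonneg xy (h.adRA P hx) (h.adRB P hx) (h.adRA P hy) (h.adRB P hy) (h.adAB P)⟩

lemma b_nn (hx : x ∈ R) (hy : y ∈ R) (e : y ≠ x) : 0 ≤ P.Phi2 z a A b B x y := by
  have := h.b_parts (P := P) hx hy e
  unfold PM.Phi2
  omega

lemma b_W2 (hx : x ∈ R) (hy : y ∈ R) (e : y ≠ x) (m1 : P.mu x y a ≠ 0) (m2 : P.mu x y A ≠ 0) :
    2 ≤ P.Phi2 z a A b B x y := by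
  have := h.b_parts (P := P) hx hy e
  have := PM.pair_two h.b_nad h.aA.symm (h.adRR P hx hy e) (h.adRa P hy) (h.adRa P hx).symm
    (h.adRA P hy) (h.adRA P hx).symm m1 m2 z
  unfold PM.Phi2
  omega

lemma b_all (hx : x ∈ R) (hy : y ∈ R) (e : y ≠ x) (m1 : P.mu x y A ≠ 0) (m2 : P.mu x A B ≠ 0)
    (m3 : P.mu x y B ≠ 0) (m4 : P.mu y A B ≠ 0) : 2 ≤ P.Phi2 z a A b B x y := by
  have := h.b_parts (P := P) hx hy e
  have := PM.K4_all (h.adRR P hx hy e) (h.adRA P hx) (h.adRB P hx) (h.adRA P hy) (h.adRB P hy)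
    (h.adAB P) m1 m2 m3 m4
  unfold PM.Phi2
  omega

/-- Case K3 in the setting of the block. -/
lemma b_k3 {F U : Finset W} (FU : F ⊆ U) (UR : U ⊆ R) (ne : F.Nonempty)
    (s1 : ∀ u ∈ F, (∀ n ∈ R, n ∉ F → P.Sh A n u) ∧ P.Sh A b u ∧ P.Sh A B u)
    (s2 : ∀ u ∈ U, ∀ n ∈ R, n ∉ U → P.Sh a n u)
    (s3 : (∀ u ∈ U, P.Sh a b u) ∨ ((∃ n ∈ R, n ∉ U) ∧ ∀ n ∈ R, n ∉ U → P.Sh a n b)) : False := by
  classical
  have nb : b ∉ R := fun g => ((h.mem b).1 g).2.2.2.1 rfl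
  have nB : B ∉ R := fun g => ((h.mem B).1 g).2.2.2.2 rfl
  have na : a ∉ R := fun g => ((h.mem a).1 g).2.1 rfl
  have nA : A ∉ R := fun g => ((h.mem A).1 g).2.2.1 rfl
  have cR := h.cardR
  have c1 := card_sdiff_add_card_eq_card (FU.trans UR)
  have c2 := card_sdiff_add_card_eq_card UR
  have c3 : F.card + (insert b (insert B (R \ F))).card + 2 = k := by
    rw [card_insert_of_notMem (by simp [nb, h.bB]), card_insert_of_notMem (by simp [nB])]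
    omega
  have t1 : ∀ n ∈ insert b (insert B (R \ F)), ∀ u ∈ F, P.Sh A n u := fun n hn u hu => by
    simp only [mem_insert, mem_sdiff] at hn
    rcases hn with rfl | rfl | hn
    exacts [(s1 u hu).2.1, (s1 u hu).2.2, (s1 u hu).1 n hn.1 hn.2]
  have aN : a ∉ insert b (insert B (R \ F)) := by simp [na, h.ab, h.aB]
  have sub : R \ U ⊆ insert b (insert B (R \ F)) := fun n hn =>
    mem_insert_of_mem (mem_insert_of_mem (sdiff_subset_sdiff subset_rfl FU hn))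
  rcases s3 with s3 | ⟨⟨n, n1, n2⟩, s3⟩
  · refine PM.K3 (U := U) (M := insert b (R \ U)) ne (insert_nonempty _ _) c3 t1 ?_
      (fun n hn u hu => ?_) FU (insert_subset (mem_insert_self _ _) sub) aN
      (fun g => nA (UR g)) h.aA
    · rw [card_insert_of_notMem (by simp [nb])]
      omega
    · rcases mem_insert.1 hn with rfl | hn
      exacts [s3 u hu, s2 u hu n (mem_sdiff.1 hn).1 (mem_sdiff.1 hn).2]
  · refine PM.K3 (U := insert b U) (M := R \ U) ne ⟨n, mem_sdiff.2 ⟨n1, n2⟩⟩ c3 t1 ?_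
      (fun n hn u hu => ?_) (FU.trans (subset_insert _ _)) sub aN ?_ h.aA
    · rw [card_insert_of_notMem fun g => nb (UR g)]
      omega
    · rcases mem_insert.1 hu with rfl | hu
      exacts [s3 n (mem_sdiff.1 hn).1 (mem_sdiff.1 hn).2,
        s2 u hu n (mem_sdiff.1 hn).1 (mem_sdiff.1 hn).2]
    · simp only [mem_insert, not_or]
      exact ⟨h.Ab, fun g => nA (UR g)⟩

end H4

end Pool.Agent.P.MP_3f5ded_co.UG
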