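import Pool.Agent.P.MP_3f5ded_co.EQS
import Pool.Agent.P.MP_3f5ded_co.EQ0

set_option autoImplicit false

namespace Pool.Agent.P.MP_3f5ded_co.UG

open Finset

namespace PM
variable {W : Type} {k : ℕ} {r : ℝ} {Fe : W → W → Prop} {P : PM W k r Fe}
variable {z a A b B x w y c d o : W}

lemma st_rng (h : c ≠ x) (h' : d ≠ x) : 0 ≤ P.st x c d ∧ P.st x c d < k := by
  obtain ⟨n, e⟩ := P.sur x c h
  exact ⟨(st_spec h' e).1, (st_spec h' e).2.1⟩

lemma st_ne (h : o ≠ x) (hc : c ≠ x) (hd : d ≠ x) (e : c ≠ d) : P.st x o c ≠ P.st x o d :=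
  fun g => e (st_inj h hc hd g)

/-- The order of the items at `x`, read from the item `o`. -/
lemma on_pos (h : o ≠ x) (hc : c ≠ x) (hd : d ≠ x) (hy : y ≠ x) :
    P.On x c d y ↔ Bt (P.st x o c) (P.st x o d) (P.st x o y) := by
  have := st_tri (P := P) h hc hd
  have := st_tri (P := P) h hc hy
  have := st_rng (P := P) h hc
  have := st_rng (P := P) h hd
  have := st_rng (P := P) h hy
  rw [on_st hc hd hy]
  unfold Bt
  omega

lemma item_at (h : o ≠ x) {t : ℤ} (t0 : 0 ≤ t) (t1 : t < k) : ∃ v, v ≠ x ∧ P.st x o v = t := by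
  obtain ⟨n, e⟩ := P.sur x o h
  exact ⟨_, P.ne x (n + t), by rw [st_eq e rfl (by omega) (by omega)]; ring⟩

/-- Pigeonhole along an arc. -/
lemma ph (h : o ≠ x) {p q lo hi : ℤ} (g : W → ℤ) (Q : W → Prop) (p0 : 0 ≤ p) (pq : p ≤ q)
    (qk : q < k) (hg : ∀ v, v ≠ x → p ≤ P.st x o v → P.st x o v ≤ q → Q v ∧ lo ≤ g v ∧ g v ≤ hi)
    (inj : ∀ u v, Q u → Q v → g u = g v → u = v) : q - p ≤ hi - lo := by
  obtain ⟨n, e⟩ := P.sur x o h
  have key : ∀ t ∈ Icc p q, P.st x o (P.it x (n + t)) = t := fun t ht => by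
    rw [mem_Icc] at ht
    rw [st_eq e rfl (by omega) (by omega)]; ring
  have k2 := fun t (ht : t ∈ Icc p q) => hg _ (P.ne x (n + t))
    (by rw [key t ht]; exact (mem_Icc.1 ht).1) (by rw [key t ht]; exact (mem_Icc.1 ht).2)
  have := card_le_card_of_injOn (s := Icc p q) (t := Icc lo hi) (fun t => g (P.it x (n + t)))
    (fun t ht => mem_coe.2 (mem_Icc.2 (k2 t ht).2)) fun s hs t ht f => by
      rw [← key s hs, ← key t ht, inj _ _ (k2 s hs).1 (k2 t ht).1 f]
  rw [Int.card_Icc, Int.card_Icc] at this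
  omega

/-- Lemma L. -/
lemma lemL [Finite W] (s1 : P.Sh x A y) (s2 : P.Sh y b A) (s3 : P.Sh y a w) (s4 : P.Sh y b w)
    (s5 : P.Sh x A w) (xb : P.Ad x b) (aA : a ≠ A) :
    P.On x y b A ∨ P.On b y x A ∨ P.On A b w y ∨ P.On y A w x ∨ P.On w a A y ∨ P.On y w A a := by
  obtain ⟨L, t, T, m⟩ := P.exists_tm s1.a2.1
  have xA := s1.a1.1
  have Ay := s1.a2.1
  have yx := s1.a3.1
  have yb := s2.a1.1
  have bA := s2.a2.1
  have ya := s3.a1.1
  have aw := s3.a2.1
  have wy := s3.a3.1
  have Aw := s5.a2.1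
  have wx := s5.a3.1
  rw [T.on yx.symm xb.1 xA, T.on yb.symm xb.1.symm bA, T.on bA.symm Aw Ay,
    T.on Ay.symm wy.symm yx, T.on aw.symm Aw.symm wy, T.on wy.symm Ay.symm ya]
  have b1 := T.sh3 s1
  have b2 := T.sh3 s2
  have b3 := T.sh3 s3
  have e1 := T.sym _ _ s1.a1
  have e2 := T.sym _ _ s1.a2
  have e3 := T.sym _ _ s1.a3
  have e4 := T.sym _ _ s2.a1
  have e5 := T.sym _ _ s2.a2
  have e6 := T.sym _ _ s3.a2
  have e7 := T.sym _ _ s3.a3
  have e8 := T.sym _ _ s5.a2
  have e9 := T.sym _ _ xb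
  by_contra hc
  simp only [not_or] at hc
  obtain ⟨h1, h2, h3, h4, h5, h6⟩ := hc
  have c1 : t A y < t b A ∧ t b A < t y b := by
    have := m _ _ yb; have := m _ _ bA; unfold Bt at b2; omega
  have c2 : t A y < t x A ∧ t x A < t y x := by
    have := m _ _ xA; have := m _ _ yx; unfold Bt at b1; omega
  have c3 : t b A < t x b := by
    have := T.ne xb.1.symm bA xA.symm; unfold Bt at h2; omega
  have c4 : t x b < t y x := by
    have := T.ne xb.1 yx.symm yb; unfold Bt at h1; omega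
  have c5 : t y x < t w y := by
    have := T.ne wy.symm yx wx.symm; have := T.ne wy.symm Ay.symm Aw; have := m _ _ wy
    unfold Bt at h4; omega
  have c6 : t A w < t b A := by
    have := T.ne Aw bA.symm s4.a2.1; unfold Bt at h3; omega
  have c7 : t w y < t y a := by
    have := T.ne ya Ay.symm aA; have := T.ne ya wy.symm aw.symm; have := m _ _ ya
    unfold Bt at h6; omega
  unfold Bt at b3 h5
  omega

/-- Tie, step (1): `w` reads `A, a, x`. -/
lemma tie1 [Finite W] (s1 : P.Sh x A w) (s2 : P.Sh x a w) (s3 : P.Sh B a w) (s4 : P.Sh x A B)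
    (aA : a ≠ A) (h1 : ¬ P.On w A B x) (h2 : ¬ P.On w a A B) (h3 : ¬ P.On B w A a)
    (h4 : ¬ P.On B w x a) (h5 : ¬ P.On B A w x) : P.On w A a x := by
  obtain ⟨L, t, T, m⟩ := P.exists_tm s1.a3.1
  have xA := s1.a1.1
  have Aw := s1.a2.1
  have wx := s1.a3.1
  have xa := s2.a1.1
  have aw := s2.a2.1
  have Ba := s3.a1.1
  have wB := s3.a3.1
  have AB := s4.a2.1
  have Bx := s4.a3.1
  rw [T.on Aw.symm wB wx] at h1
  rw [T.on aw.symm Aw.symm wB] at h2
  rw [T.on wB.symm AB.symm Ba] at h3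
  rw [T.on wB.symm Bx Ba] at h4
  rw [T.on AB.symm wB.symm Bx] at h5
  rw [T.on Aw.symm aw.symm wx]
  have b1 := T.sh3 s1
  have b3 := T.sh3 s3
  have b4 := T.sh3 s4
  have e1 := T.sym _ _ s1.a2
  have e2 := T.sym _ _ s2.a2
  have e3 := T.sym _ _ s3.a3
  have e4 := T.sym _ _ s4.a2
  have n1 := T.ne wB Aw.symm AB
  have n2 := T.ne wB wx Bx.symm
  have n3 := T.ne Aw.symm aw.symm aA.symm
  have n4 := T.ne AB.symm wB.symm Aw.symm
  have n5 := T.ne AB.symm Ba aA.symm
  have n6 := T.ne Bx wB.symm wx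
  have n7 := T.ne Bx Ba xa.symm
  have n8 := T.ne aw.symm wx xa
  have m1 := m _ _ xA
  have m2 := m _ _ Aw
  have m3 := m _ _ aw
  have m4 := m _ _ Ba
  have m5 := m _ _ wB
  have m6 := m _ _ AB
  have m7 := m _ _ Bx
  unfold Bt at *
  omega

/-- One half of the facts on the pair `x, w` in the tie. -/
structure Z0 (P : PM W k r Fe) (z a A b B x w : W) : Prop where
  s1 : P.Sh x A B
  s2 : P.Sh x A w
  s3 : P.Sh x b w
  fl : P.mu A x b = 0
  o1 : ¬ P.On w A B x
  o2 : ¬ P.On B A w x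
  o3 : ¬ P.On x B a A
  o4 : ¬ P.On B A a x
  o5 : ¬ P.On x w z A
  o6 : ¬ P.On x B z A
  o7 : ¬ P.On x w z a
  o8 : ¬ P.On x w z b
  o9 : ¬ P.On A x a w
  o10 : ¬ P.On A x z w
  o11 : ¬ P.On A x a B
  o12 : ¬ P.On A x z B
  o13 : ¬ P.On A x b w
  o14 : ¬ P.On A x b B
  o15 : ¬ P.On b x A w
  o16 : ¬ P.On b x B w
  o17 : ¬ P.On b x z w

/-- The facts on a third vertex `y` in the tie. -/
structure Z2 (P : PM W k r Fe) (z a A b B x w y : W) : Prop where
  s1 : P.Sh x A y
  s2 : P.Sh y b A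
  s3 : P.Sh y a w
  s4 : P.Sh y b w
  o1 : ¬ P.On x y z A
  o2 : ¬ P.On A x a y
  o3 : ¬ P.On A x z y
  o4 : ¬ P.On A b a y
  o5 : ¬ P.On A b z y
  o6 : ¬ P.On b y B A
  o7 : ¬ P.On b y z A
  o8 : ¬ P.On b y a A
  o9 : ¬ P.On b y B w
  o10 : ¬ P.On b y z w
  o11 : ¬ P.On b y a w
  o12 : ¬ P.On y w x a
  o13 : ¬ P.On y w x b
  o14 : ¬ P.On w a z y
  o15 : ¬ P.On a y A w
  o16 : ¬ P.On a y z w

/-- Tie, step (2): from `z` on, `x` reads `N`, then `A`, then `a` and `b`. -/
lemma tie2 [Fintype W] {R : Finset W} (h : H4 k Fe R z a A b B) (hx : x ∈ R) (hw : w ∈ R)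
    (N : W → Prop) (cov : ∀ v, v = z ∨ v = a ∨ v = A ∨ v = b ∨ v = x ∨ N v) (Nw : N w)
    (hN : ∀ v, N v → P.Sh x A v ∧ ¬ P.On x v z A ∧ v ≠ z) (p1 : P.On x w A a) (p2 : P.On w A a x)
    (o7 : ¬ P.On x w z a) (o8 : ¬ P.On x w z b) :
    (∀ v, N v → P.st x z v < P.st x z A) ∧ P.st x z A < P.st x z b ∧ P.st x A b ≤ 2 := by
  have X := (h.mem x).1 hx
  have Y := (h.mem w).1 hw
  have zx := X.1.symm
  have ax := X.2.1.symm
  have Ax := X.2.2.1.symm
  have bx := X.2.2.2.1.symm
  have wx : w ≠ x := (hN w Nw).1.a3.1.symm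
  have z0 := st_self (P := P) zx
  have pa := st_pos (P := P) zx ax h.za
  have pA := st_pos (P := P) zx Ax h.zA
  have pb := st_pos (P := P) zx bx h.zb
  have pw := st_pos (P := P) zx wx Y.1.symm
  have f1 : ∀ v, N v → P.st x z v < P.st x z A := fun v hv => by
    obtain ⟨s, o, e⟩ := hN v hv
    have vx := s.a3.1.symm
    rw [on_pos zx vx zx Ax, z0] at o
    have := st_pos (P := P) zx vx e.symm
    have := st_ne (P := P) zx vx Ax s.a2.1
    unfold Bt at o; omega
  rw [on_pos zx wx Ax ax] at p1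
  rw [on_pos zx wx zx ax, z0] at o7
  rw [on_pos zx wx zx bx, z0] at o8
  have f2 := f1 w Nw
  have f3 : P.st x z A < P.st x z a := by unfold Bt at p1 o7; omega
  have f4 : P.st x z w < P.st x z b := by
    have := st_ne (P := P) zx wx bx Y.2.2.2.1
    unfold Bt at o8; omega
  have aft : ∀ t : ℤ, P.st x z A < t → t < k → t = P.st x z a ∨ t = P.st x z b := fun t t1 t2 => by
    obtain ⟨v, vx, e⟩ := item_at (P := P) zx (t := t) (by omega) t2
    rcases cov v with g | g | g | g | g | g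
    · rw [g] at e; omega
    · exact Or.inl (g ▸ e.symm)
    · rw [g] at e; omega
    · exact Or.inr (g ▸ e.symm)
    · exact absurd g vx
    · have := f1 v g; omega
  have f5 : P.st x z A < P.st x z b := by
    by_contra g
    have g1 := st_ne (P := P) zx Ax bx h.Ab
    have g2 : (k : ℤ) ≤ P.st x z A + 2 := by
      by_contra g3
      have := aft (k - 1) (by omega) (by omega)
      have := aft (k - 2) (by omega) (by omega)
      omega
    have := ph (P := P) zx (p := 1) (q := P.st x z w) (lo := 1) (hi := P.st x z w - 1) (P.st A x)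
      (fun v => v ≠ A) (by omega) pw.1 pw.2 (fun v vx v1 v2 => ?_)
      fun u v hu hv e => st_inj Ax.symm hu hv e
    · omega
    have nv : N v := by
      rcases cov v with g | g | g | g | g | g
      any_goals rw [g] at v1 v2; omega
      · exact absurd g vx
      · exact g
    have s := (hN v nv).1
    have s1 := s.st
    have s2 := st_tri (P := P) zx vx Ax
    have s3 := f1 v nv
    refine ⟨s.a2.1, by omega, ?_⟩
    by_cases e : v = w
    · subst e
      rw [on_st s.a2.1.symm Y.2.1.symm vx.symm] at p2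
      omega
    · have := st_ne (P := P) zx vx wx e
      omega
  refine ⟨f1, f5, ?_⟩
  have s2 := st_tri (P := P) zx Ax bx
  by_contra g
  have := aft (P.st x z A + 1) (by omega) (by omega)
  have := aft (P.st x z A + 2) (by omega) (by omega)
  omega

/-- The tie is impossible. -/
theorem tie [Fintype W] [DecidableEq W] {R : Finset W} (h : H4 k Fe R z a A b B) (hx : x ∈ R)
    (hw : w ∈ R) (u : P.Z0 z a A b B x w) (u' : P.rev.Z0 z A a b B w x)
    (hS : ∀ y ∈ R, y ≠ x → y ≠ w → P.Z2 z a A b B x w y ∨ P.rev.Z2 z A a b B w x y)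
    (ex : ∃ y ∈ R, P.Z2 z a A b B x w y) : False := by
  classical
  have X := (h.mem x).1 hx
  have Y := (h.mem w).1 hw
  have hk := h.big
  have xaw : P.Sh x a w := (rev_sh.1 u'.s2).rot.rot
  have Baw : P.Sh B a w := (rev_sh.1 u'.s1).rot.rot
  have p2 : P.On w A a x := tie1 u.s2 xaw Baw u.s1 h.aA u.o1 (by simpa only [rev_on] using u'.o3)
    (by simpa only [rev_on] using u'.o4) (by simpa only [rev_on] using u'.o2) u.o2
  have p1 : P.On x w A a := rev_on.1 (tie1 u'.s2 (rev_sh.2 u.s2.rot) (rev_sh.2 u.s1.rot) u'.s1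
    h.aA.symm u'.o1 (by simpa only [rev_on] using u.o3) (by simpa only [rev_on] using u.o4)
    (by simpa only [rev_on] using u.o2) u'.o2)
  set N : W → Prop := fun v => v = B ∨ (v ∈ R ∧ v ≠ x) with hNd
  have cov : ∀ v, v = z ∨ v = a ∨ v = A ∨ v = b ∨ v = x ∨ N v := fun v => by
    have := h.mem v
    simp only [hNd]; tauto
  have hN : ∀ v, N v → (P.Sh x A v ∧ ¬ P.On x v z A ∧ v ≠ z) ∧ ¬ P.On A x a v ∧ ¬ P.On A x z v ∧
      v ≠ a ∧ v ≠ b := by
    rintro v (rfl | ⟨hv, vx⟩)
    · exact ⟨⟨u.s1, u.o6, h.zB.symm⟩, u.o11, u.o12, h.aB.symm, h.bB.symm⟩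
    have V := (h.mem v).1 hv
    by_cases e : v = w
    · subst e
      exact ⟨⟨u.s2, u.o5, V.1⟩, u.o9, u.o10, V.2.1, V.2.2.2.1⟩
    rcases hS v hv vx e with t | t
    · exact ⟨⟨t.s1, t.o1, V.1⟩, t.o2, t.o3, V.2.1, V.2.2.2.1⟩
    · exact ⟨⟨(rev_sh.1 t.s3).rot.rot, by simpa only [rev_on] using t.o14, V.1⟩,
        by simpa only [rev_on] using t.o15, by simpa only [rev_on] using t.o16, V.2.1, V.2.2.2.1⟩
  have wx : w ≠ x := u.s2.a3.1.symm
  have Nw : N w := Or.inr ⟨hw, wx⟩
  obtain ⟨f1, f2, f3⟩ := tie2 h hx hw N cov Nw (fun v hv => (hN v hv).1) p1 p2 u.o7 u.o8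
  -- the reading at `A`, from `x` on
  have xA := X.2.2.1
  have aA := h.aA
  have zA := h.zA
  have bA := h.Ab.symm
  have q0 := st_self (P := P) xA
  have qa := st_pos (P := P) xA aA X.2.1
  have qz := st_pos (P := P) xA zA X.1
  have qb := st_pos (P := P) xA bA X.2.2.2.1
  have az := st_ne (P := P) xA aA zA h.za.symm
  have ab := st_ne (P := P) xA aA bA h.ab
  have zb := st_ne (P := P) xA zA bA h.zb
  have g1 : ∀ v, N v → 1 ≤ P.st A x v ∧ P.st A x v < P.st A x a ∧ P.st A x v < P.st A x z ∧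
      P.st A x v ≠ P.st A x b := fun v hv => by
    obtain ⟨⟨s, -, vz⟩, o1, o2, va, vb⟩ := hN v hv
    have vA := s.a2.1
    rw [on_st xA aA vA] at o1
    rw [on_st xA zA vA] at o2
    have := st_ne (P := P) xA vA aA va
    have := st_ne (P := P) xA vA zA vz
    have := s.st
    exact ⟨by omega, by omega, by omega, st_ne xA vA bA vb⟩
  -- the reading at `b`: `w` and the mirror vertices lie between `x` and `A`
  have xb := X.2.2.2.1
  have g2 : ∀ v ∈ R, v ≠ x → P.Z2 z a A b B x w v ∨ ¬ P.On b x A v := fun v hv vx => by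
    by_cases e : v = w
    · exact Or.inr (e ▸ u.o15)
    · exact (hS v hv vx e).imp_right fun t => by simpa only [rev_on] using t.o11
  obtain ⟨y, hy, t⟩ := ex
  have Ny : N y := Or.inr ⟨hy, t.s1.a3.1.symm⟩
  have gy := g1 y Ny
  rcases lt_or_gt_of_ne ab with c | c
  · -- `b` comes last at `A`
    have c1 : P.st A x z < P.st A x b := by
      have o := t.o5
      rw [on_pos xA bA zA t.s1.a2.1] at o
      unfold Bt at o; omega
    have c2 : P.st A x b = k - 1 := by
      obtain ⟨v, vA, e⟩ := item_at (P := P) xA (t := k - 1) (by omega) (by omega)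
      rcases cov v with g | g | g | g | g | g
      any_goals rw [g] at e; omega
      · exact absurd g vA
      · have := g1 v g; omega
    have c3 := st_add (P := P) xA bA xb
    have c4 := st_walk (h.adRA P hx).symm (h.adRb P hx) (h.adAb P).symm
    rw [u.fl] at c4
    have Ab := h.Ab
    have c5 := st_add (P := P) xb Ab xA
    have c6 := st_pos (P := P) xA.symm xb.symm Ab
    have c6' := st_pos (P := P) xb Ab xA
    have c7 : ∀ v ∈ R, v ≠ x → P.st b A x < P.st b A v := fun v hv vx => by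
      have V := (h.mem v).1 hv
      have vb := V.2.2.2.1
      have n := st_ne (P := P) Ab vb xb vx
      have m := st_pos (P := P) Ab vb V.2.2.1.symm
      rcases g2 v hv vx with s | s
      · have := s.s2.st
        have := st_add (P := P) vb Ab V.2.2.1
        have := st_ne (P := P) bA V.2.2.1 xA vx
        omega
      · rw [on_pos Ab xb Ab vb, st_self Ab] at s
        unfold Bt at s; omega
    have V := (h.mem y).1 hy
    have yb := V.2.2.2.1
    have wb := Y.2.2.2.1
    have c8 := c7 y hy t.s1.a3.1.symm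
    have c9 := c7 w hw wx
    have yw := st_ne (P := P) Ab yb wb t.s3.a3.1
    have key : ∀ o, o ≠ b → o ≠ A → o ≠ x → o ≠ y → o ≠ w → ¬ P.On b y o A → ¬ P.On b y o w →
        ¬ P.On b x o w → 1 ≤ P.st b A o ∧ (P.st b A y < P.st b A w → P.st b A o < P.st b A x) ∧
          (P.st b A w < P.st b A y → P.st b A w < P.st b A o) := fun o ob oA ox oy ow o1 o2 o3 => by
      rw [on_pos Ab yb ob Ab, st_self Ab] at o1
      rw [on_pos Ab yb ob wb] at o2
      rw [on_pos Ab xb ob wb] at o3
      have := st_pos (P := P) Ab ob oA.symm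
      have := st_ne (P := P) Ab ob xb ox
      have := st_ne (P := P) Ab ob yb oy
      have := st_ne (P := P) Ab ob wb ow
      unfold Bt at o1 o2 o3
      omega
    have k1 := key B h.bB.symm h.AB.symm X.2.2.2.2.symm V.2.2.2.2.symm Y.2.2.2.2.symm t.o6 t.o9 u.o16
    have k2 := key z h.zb zA X.1.symm V.1.symm Y.1.symm t.o7 t.o10 u.o17
    have k3 := key a h.ab aA X.2.1.symm V.2.1.symm Y.2.1.symm t.o8 t.o11
      (by simpa only [rev_on] using u'.o15)
    have n1 := st_ne (P := P) Ab h.bB.symm h.zb h.zB.symm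
    have n2 := st_ne (P := P) Ab h.bB.symm h.ab h.aB.symm
    have n3 := st_ne (P := P) Ab h.zb h.ab h.za
    obtain ⟨v, vb, e⟩ := item_at (P := P) Ab (t := 1) (by omega) (by omega)
    have A0 := st_self (P := P) Ab
    rcases cov v with g | g | g | g | g | g | g
    any_goals rw [g] at e; omega
    · exact vb g
    · have := c7 v g.1 g.2; omega
  -- `b` comes before the two outer items at `A`
  have wA := Y.2.2.1
  have gw := g1 w Nw
  have d1 : P.st A x w < P.st A x b := by
    have o := u.o13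
    rw [on_st xA bA wA] at o
    omega
  have d2 : ∀ v, P.Z2 z a A b B x w v → N v → P.st A x b < P.st A x v := fun v s hv => by
    have o := s.o4
    have := g1 v hv
    rw [on_pos xA bA aA s.s1.a2.1] at o
    unfold Bt at o; omega
  have d3 := d2 y t Ny
  have d4 : (k : ℤ) - 2 ≤ P.st A x a ∧ (k : ℤ) - 2 ≤ P.st A x z := by
    have top : ∀ s : ℤ, (k : ℤ) - 2 ≤ s → s < k → s = P.st A x a ∨ s = P.st A x z ∨
        (s < P.st A x a ∧ s < P.st A x z) := fun s s1 s2 => by
      obtain ⟨v, vA, e⟩ := item_at (P := P) xA (t := s) (by omega) s2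
      rcases cov v with g | g | g | g | g | g
      any_goals rw [g] at e; omega
      · exact absurd g vA
      · have := g1 v g; omega
    have := top (k - 1) (by omega) (by omega)
    have := top (k - 2) (by omega) (by omega)
    omega
  have d5 : ∀ v ∈ R, P.Z2 z a A b B x w v → P.On b v x A ∧ 3 ≤ P.st v A b := fun v hv s => by
    have V := (h.mem v).1 hv
    have vx := s.s1.a3.1.symm
    have Nv : N v := Or.inr ⟨hv, vx⟩
    have gv := g1 v Nv
    have bv := d2 v s Nv
    have sv := s.s1.st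
    have one : P.st v A x = 1 := by
      by_contra g
      have := ph (P := P) xA (p := P.st A x v) (q := k - 3) (lo := 1) (hi := k - 3 - P.st A x v)
        (fun n => P.st x n A) (fun n => n ≠ x) (by omega) (by omega) (by omega)
        (fun n nA n1 n2 => ?_) fun m n hm hn e => st_inj' xA.symm hm hn e
      · omega
      have nn : N n := by
        rcases cov n with g | g | g | g | g | g
        any_goals rw [g] at n1 n2; omega
        · exact absurd g nA
        · exact g
      have s' := (hN n nn).1.1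
      have s1 := s'.st
      refine ⟨s'.a3.1.symm, by omega, ?_⟩
      by_cases e : n = v
      · subst e; omega
      · have := st_ne (P := P) xA nA V.2.2.1 e
        omega
    have Av := V.2.2.1.symm
    have wv := s.s3.a3.1.symm
    have av := V.2.1.symm
    have bv' := V.2.2.2.1.symm
    have tw := st_pos (P := P) Av wv wA.symm
    have ta := st_pos (P := P) Av av aA.symm
    have tb := st_pos (P := P) Av bv' h.Ab
    have m1 := st_ne (P := P) Av wv vx.symm wx
    have m2 := st_ne (P := P) Av av vx.symm X.2.1.symm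
    have m3 := st_ne (P := P) Av bv' vx.symm xb.symm
    have m4 := st_ne (P := P) Av bv' wv Y.2.2.2.1.symm
    have o12 := s.o12
    have o13 := s.o13
    rw [on_pos Av wv vx.symm av] at o12
    rw [on_pos Av wv vx.symm bv'] at o13
    refine ⟨?_, by unfold Bt at o13; omega⟩
    rcases lemL s.s1 s.s2 s.s3 s.s4 u.s2 (h.adRb P hx) aA with l | l | l | l | l | l
    · rw [on_pos X.1.symm vx xb.symm xA.symm] at l
      have := f1 v Nv
      unfold Bt at l; omega
    · exact l
    · rw [on_pos xA bA wA V.2.2.1] at l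
      unfold Bt at l; omega
    · rw [on_st Av wv vx.symm] at l
      omega
    · have zw := Y.1.symm
      have aw := Y.2.1.symm
      have o7 : ¬ P.On w A z x := by simpa only [rev_on] using u'.o7
      have o14 := s.o14
      rw [on_pos zw aw wA.symm wv.symm] at l
      rw [on_pos zw wA.symm aw wx.symm] at p2
      rw [on_pos zw wA.symm zw wx.symm, st_self zw] at o7
      rw [on_pos zw aw zw wv.symm, st_self zw] at o14
      have := st_pos (P := P) zw aw h.za
      have := st_pos (P := P) zw wA.symm h.zA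
      have := st_pos (P := P) zw wx.symm X.1.symm
      have := st_pos (P := P) zw wv.symm V.1.symm
      unfold Bt at l p2 o7 o14; omega
    · rw [on_pos Av wv Av av, st_self Av] at l
      unfold Bt at l o12; omega
  -- all of `R` lies between the first such vertex and `A` at `b`
  have Bb := h.bB.symm
  have Ab := h.Ab
  obtain ⟨y0, hy0, hm⟩ := (R.filter fun v => P.Z2 z a A b B x w v).exists_min_image (P.st b B)
    ⟨y, mem_filter.2 ⟨hy, t⟩⟩
  obtain ⟨hy1, t0⟩ := mem_filter.1 hy0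
  have e1 : ∀ v ∈ R, P.Z2 z a A b B x w v → P.st b B v < P.st b B x ∧ P.st b B x < P.st b B A := by
    intro v hv s
    have V := (h.mem v).1 hv
    have o := s.o6
    have l := (d5 v hv s).1
    rw [on_pos Bb V.2.2.2.1 Bb Ab, st_self Bb] at o
    rw [on_pos Bb V.2.2.2.1 xb Ab] at l
    have := st_pos (P := P) Bb V.2.2.2.1 V.2.2.2.2.symm
    have := st_pos (P := P) Bb Ab h.AB.symm
    unfold Bt at o l; omega
  have e2 := e1 y0 hy1 t0
  have e3 := card_le_card_of_injOn (s := R) (t := Ico (P.st b B y0) (P.st b B A)) (P.st b B)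
    (fun v hv => mem_coe.2 (mem_Ico.2 ?_)) fun m hm n hn e =>
      st_inj Bb ((h.mem m).1 hm).2.2.2.1 ((h.mem n).1 hn).2.2.2.1 e
  · have V := (h.mem y0).1 hy1
    have := h.cardR
    have := st_tri (P := P) Bb V.2.2.2.1 Ab
    have := t0.s2.st
    have := (d5 y0 hy1 t0).2
    rw [Int.card_Ico] at e3
    omega
  by_cases vx : v = x
  · rw [vx]; omega
  have V := (h.mem v).1 hv
  rcases g2 v hv vx with s | s
  · have := hm v (mem_filter.2 ⟨hv, s⟩)
    have := e1 v hv s
    omega
  · rw [on_pos Bb xb Ab V.2.2.2.1] at s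
    have := st_ne (P := P) Bb V.2.2.2.1 xb vx
    have := st_ne (P := P) Bb V.2.2.2.1 Ab V.2.2.1
    unfold Bt at s; omega

end PM

end Pool.Agent.P.MP_3f5ded_co.UG
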