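import Pool.Agent.P.MP_3f5ded_co.EQ3
import Pool.Agent.P.MP_3f5ded_co.EQK1a

set_option autoImplicit false

namespace Pool.Agent.P.MP_3f5ded_co.UG

open Finset

lemma ind_le {p : Prop} (h : ind p ≤ 0) : ¬ p := fun g => by rw [ind_pos g] at h; omega

/-- A sum over ordered pairs and triples dominates the terms that contain `x` or `w`. -/
lemma group {W : Type} [DecidableEq W] {R : Finset W} {x w : W} (hx : x ∈ R) (hw : w ∈ R)
    (e : w ≠ x) (g : W → ℤ) (f : W → W → ℤ) (t : W → W → W → ℤ)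
    (f0 : ∀ p ∈ R, ∀ q ∈ R, 0 ≤ f p q) (fs : ∀ p q, f q p = f p q)
    (t0 : ∀ p ∈ R, ∀ q ∈ R, ∀ s ∈ R, 0 ≤ t p q s) (t1 : ∀ p q s, t q p s = t p q s)
    (t2 : ∀ p q s, t p s q = t p q s)
    (h : 4 * ∑ p ∈ R, ∑ q ∈ R, ∑ s ∈ R, t p q s + 12 * ∑ p ∈ R, ∑ q ∈ R, f p q +
      24 * ∑ u ∈ R, g u ≤ 0) :
    g x + g w + f x w + ∑ y ∈ (R.erase x).erase w, (g y + f x y + f y w + t x y w) ≤ 0 := by
  have hS : ∀ y ∈ (R.erase x).erase w, y ∈ R := fun y hy => mem_of_mem_erase (mem_of_mem_erase hy)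
  have row : ∀ u : W → ℤ, ∑ q ∈ R, u q = u x + u w + ∑ y ∈ (R.erase x).erase w, u y := fun u => by
    rw [← add_sum_erase R u hx, ← add_sum_erase (R.erase x) u (mem_erase.2 ⟨e, hw⟩), add_assoc]
  generalize (R.erase x).erase w = S at *
  have two : ∀ u : W → W → ℤ, (∀ p ∈ R, ∀ q ∈ R, 0 ≤ u p q) → (∀ p q, u q p = u p q) →
      2 * u x w + 2 * ∑ y ∈ S, u x y + 2 * ∑ y ∈ S, u y w ≤ ∑ p ∈ R, ∑ q ∈ R, u p q := by
    intro u u0 us
    have a1 := u0 x hx x hx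
    have a2 := u0 w hw w hw
    have a3 : ∑ y ∈ S, (u x y + u y w) ≤ ∑ y ∈ S, ∑ q ∈ R, u y q := sum_le_sum fun y hy => by
      have := sum_nonneg fun q hq => u0 y (hS y hy) q (hS q hq)
      rw [row, us x y]; omega
    rw [row, row (u x), row (u w), us x w, sum_congr rfl fun y _ => us y w]
    rw [sum_add_distrib] at a3
    omega
  have b1 := two f f0 fs
  have b2 := two (t x) (t0 x hx) fun p q => t2 x p q
  have b3 := two (t w) (t0 w hw) fun p q => t2 w p q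
  have b4 : ∑ y ∈ S, 2 * t x y w ≤ ∑ y ∈ S, ∑ p ∈ R, ∑ q ∈ R, t y p q := sum_le_sum fun y hy => by
    have := two (t y) (t0 y (hS y hy)) fun p q => t2 y p q
    have := sum_nonneg fun q hq => t0 y (hS y hy) x hx q (hS q hq)
    have := sum_nonneg fun q hq => t0 y (hS y hy) q (hS q hq) w hw
    rw [← t1 x y w]; omega
  have c1 := t0 x hx x hx w hw
  have c2 := t0 w hw x hx w hw
  have c3 := sum_nonneg fun q hq => t0 x hx x hx q (hS q hq)
  have c4 := sum_nonneg fun q hq => t0 w hw q (hS q hq) w hw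
  have c5 : ∑ y ∈ S, t w x y = ∑ y ∈ S, t x y w :=
    sum_congr rfl fun y _ => by rw [t1 x w y, t2 x y w]
  rw [row fun p => ∑ q ∈ R, ∑ s ∈ R, t p q s, row g] at h
  rw [← mul_sum] at b4
  simp only [sum_add_distrib]
  omega

lemma k1_arith {m1 m2 m3 m4 da dA db dB ea eA eb : ℤ}
    (s : (m1 ≠ 0 ∧ m2 = 0 ∧ m3 = 0 ∧ m4 = 0) ∨ (m1 = 0 ∧ m2 ≠ 0 ∧ m3 = 0 ∧ m4 = 0) ∨
      (m1 = 0 ∧ m2 = 0 ∧ m3 ≠ 0 ∧ m4 = 0) ∨ (m1 = 0 ∧ m2 = 0 ∧ m3 = 0 ∧ m4 ≠ 0))
    (q1 : ¬ (da ≠ 0 ∧ dA ≠ 0)) (q2 : ¬ (ea ≠ 0 ∧ eA ≠ 0)) (c1 : da + ea = -1) (c2 : dA + eA = -1)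
    (c3 : db + eb = -1) (r1 : da = -1 ∨ da = 0 ∨ da = 1) (r2 : dA = -1 ∨ dA = 0 ∨ dA = 1)
    (r3 : db = -1 ∨ db = 0 ∨ db = 1) (r4 : ea = -1 ∨ ea = 0 ∨ ea = 1)
    (r5 : eA = -1 ∨ eA = 0 ∨ eA = 1) (r6 : eb = -1 ∨ eb = 0 ∨ eb = 1) (e1 : da = db + m1)
    (e2 : da = dB + m2) (e3 : dA = db + m3) (e4 : dA + 1 = dB + m4) :
    dA = -1 ∧ ea = -1 ∧ m2 = 0 ∧ m4 = 0 ∧ ((eb = -1 ∧ m3 = -1 ∧ m1 = 0) ∨ (db = -1 ∧ m1 = 1 ∧ m3 = 0)) := by
  have h1 : (da = -1 ∧ dA = 0) ∨ (da = 0 ∧ dA = -1) := by omega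
  have h2 : db = -1 ∨ db = 0 := by omega
  clear q1 q2 r1 r2 r3 r4 r5 r6
  rcases h1 with ⟨rfl, rfl⟩ | ⟨rfl, rfl⟩ <;> rcases h2 with rfl | rfl <;> omega

namespace PM
variable {W : Type} {k : ℕ} {r : ℝ} {Fe : W → W → Prop} {P : PM W k r Fe}
variable {z a A b B x w y c d : W}

lemma k1_f4 (h : P.Sh x y c) (h1 : d ≠ x) (h2 : d ≠ y) (h3 : d ≠ c) :
    P.f4 x y c d = P.met x y c d - 1 := by
  rw [f4, g4_pos h h1 h2 h3, g4_neg h.not_swap, add_zero]

lemma k1_J3 (h : P.Sh x y c) (z : W) : P.J3 z x y c = 1 + P.met x y c z := by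
  rw [J3, h3_pos h, h3_neg h.not_swap, add_zero]

lemma k1_J0 (m : P.mu x y c = 0) (h1 : P.Ad x y) (h2 : P.Ad y c) (h3 : P.Ad c x) (z : W) :
    P.J3 z x y c = 0 := by
  rcases J3_cases h1 h2 h3 z with g | g | g <;> omega

lemma met_le (h : P.met x y c d ≤ 0) : ¬ P.On x c d y ∧ ¬ P.On y x d c ∧ ¬ P.On c y d x := by
  have := ind_nonneg (P.On x c d y)
  have := ind_nonneg (P.On y x d c)
  have := ind_nonneg (P.On c y d x)
  unfold met at h
  exact ⟨ind_le (by omega), ind_le (by omega), ind_le (by omega)⟩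

/-- A clique on four vertices whose short triangles are twins. -/
lemma K4_twin (h : P.Sh x y c) (h' : P.Sh x y d) (ad : P.Ad c d)
    (m : P.mu x c d = 0 ∨ P.mu y c d = 0) :
    P.K4 x y c d = ind (P.On c y d x) + ind (P.On d y c x) := by
  have co := cocycle (q := y) (d := d) h.a3.symm h'.a2
  have := met_twin h h' ad.1.symm
  rw [h.e, h'.e] at co
  rw [K4, k1_f4 h h'.a3.1.symm h'.a2.1 ad.1, k1_f4 h' h.a3.1.symm h.a2.1 ad.1.symm,
    f4_flat (by omega) h.a3.symm ad h'.a3, f4_flat (by omega) h.a2 ad h'.a2.symm]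
  omega

/-- An edge that is split by `c` and not by its partner `d`. -/
lemma pair_one (n : ¬ P.Ad c d) (e : d ≠ c) (h : P.Sh x c y) (h4 : P.Ad y d) (h5 : P.Ad d x)
    (z : W) : P.met x c y d + P.met x c y z ≤ P.K4 x y c d + P.J3 z x y c + P.J3 z x y d := by
  rw [K4_miss n, P.f4_swap' x c y d, P.J3_swap' z x c y, k1_f4 h h5.1.symm e h4.1, k1_J3 h]
  have a := f4_cases h.a3.symm h4 h5 h.a1.1 h.a2.1.symm e.symm
  have a' := J3_cases h.a3.symm h4 h5 z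
  have := P.met_nonneg x y d c
  have := P.met_nonneg y x d c
  have := P.met_nonneg x y d z
  have := P.met_nonneg y x d z
  rcases a with a | ⟨a, -, a1⟩ | ⟨a, -, a1⟩ <;> rcases a' with b | ⟨b, -, b1⟩ | ⟨b, -, b1⟩ <;> omega

lemma k1_two (h : ¬ P.Ad c d) (e : d ≠ c) (h1 : P.Ad x y) (h2 : P.Ad y c) (h3 : P.Ad c x)
    (h4 : P.Ad y d) (h5 : P.Ad d x) (m1 : P.mu x y c ≠ 0) (m2 : P.mu x y d ≠ 0) (z : W) :
    2 ≤ P.K4 x y c d + P.J3 z x y c + P.J3 z x y d := by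
  rw [K4_miss h]
  have p := f4_pair h1 h2 h3 h4 h5 e m1 m2
  have a' := J3_cases h1 h2 h3 z
  have b' := J3_cases h1 h4 h5 z
  have := P.met_nonneg x y c z
  have := P.met_nonneg y x c z
  have := P.met_nonneg x y d z
  have := P.met_nonneg y x d z
  rcases a' with a' | ⟨a', -, a2⟩ | ⟨a', -, a2⟩ <;>
    rcases b' with b' | ⟨b', -, b2⟩ | ⟨b', -, b2⟩ <;> omega

/-- The term of one triangle through two special vertices. -/
lemma tri_ge (h1 : P.Ad x y) (h2 : P.Ad y c) (h3 : P.Ad c x) {d d' : W} (d1 : d ≠ x) (d2 : d ≠ y)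
    (d3 : d ≠ c) (e1 : d' ≠ x) (e2 : d' ≠ y) (e3 : d' ≠ c) (z : W) :
    -1 ≤ P.f4 x y c d + P.f4 x y c d' + P.J3 z x y c ∧
      (P.mu x y c = 0 → P.f4 x y c d + P.f4 x y c d' + P.J3 z x y c = 0) := by
  have := P.met_nonneg x y c d
  have := P.met_nonneg y x c d
  have := P.met_nonneg x y c d'
  have := P.met_nonneg y x c d'
  have := P.met_nonneg x y c z
  have := P.met_nonneg y x c z
  rcases f4_cases h1 h2 h3 d1 d2 d3 with a | ⟨a, -, a1⟩ | ⟨a, -, a1⟩ <;>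
    rcases f4_cases h1 h2 h3 e1 e2 e3 with b | ⟨b, -, b1⟩ | ⟨b, -, b1⟩ <;>
    rcases J3_cases h1 h2 h3 z with g | ⟨g, -, g1⟩ | ⟨g, -, g1⟩ <;> omega

lemma rev_met (P : PM W k r Fe) (x y c d : W) : P.rev.met x y c d = P.met y x c d := by
  simp only [met, rev_on]; ring

lemma rev_g4 (P : PM W k r Fe) (x y c d : W) : P.rev.g4 x y c d = P.g4 y x c d := by
  classical
  unfold g4
  by_cases h : P.Sh y x c ∧ d ≠ y ∧ d ≠ x ∧ d ≠ c
  · rw [if_pos h, if_pos ⟨rev_sh.2 h.1, h.2.2.1, h.2.1, h.2.2.2⟩, rev_met]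
  · rw [if_neg h, if_neg fun g => h ⟨rev_sh.1 g.1, g.2.2.1, g.2.1, g.2.2.2⟩]

lemma rev_h3 (P : PM W k r Fe) (z x y c : W) : P.rev.h3 z x y c = P.h3 z y x c := by
  by_cases h : P.Sh y x c
  · rw [h3_pos h, h3_pos (rev_sh.2 h), rev_met]
  · rw [h3_neg h, h3_neg fun g => h (rev_sh.1 g)]

lemma rev_f4 (P : PM W k r Fe) (x y c d : W) : P.rev.f4 x y c d = P.f4 x y c d := by
  rw [f4, f4, rev_g4, rev_g4, add_comm]

lemma rev_J3 (P : PM W k r Fe) (z x y c : W) : P.rev.J3 z x y c = P.J3 z x y c := by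
  rw [J3, J3, rev_h3, rev_h3, add_comm]

variable (P) (z a A b B x w y)

/-- Exactly one of the four triangles through `y` and two special vertices is wound. -/
def Sg : Prop :=
  (P.mu y a b ≠ 0 ∧ P.mu y a B = 0 ∧ P.mu y A b = 0 ∧ P.mu y A B = 0) ∨
  (P.mu y a b = 0 ∧ P.mu y a B ≠ 0 ∧ P.mu y A b = 0 ∧ P.mu y A B = 0) ∨
  (P.mu y a b = 0 ∧ P.mu y a B = 0 ∧ P.mu y A b ≠ 0 ∧ P.mu y A B = 0) ∨
  (P.mu y a b = 0 ∧ P.mu y a B = 0 ∧ P.mu y A b = 0 ∧ P.mu y A B ≠ 0)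

/-- The terms on the pair `x, w`. -/
noncomputable def T0 : ℤ := P.Phi1 z a A b B x + P.Phi1 z a A b B w + P.Phi2 z a A b B x w

/-- The terms of a third vertex. -/
noncomputable def TT : ℤ :=
  P.Phi1 z a A b B y + P.Phi2 z a A b B x y + P.Phi2 z a A b B y w + P.Phi3 z a A b B x y w

lemma rev_K4 (p q s d : W) : P.rev.K4 p q s d = P.K4 p q s d := by simp only [K4, rev_f4]

lemma rev_Phi1 : P.rev.Phi1 z A a b B y = P.Phi1 z a A b B y := by
  simp only [Phi1, rev_K4, rev_J3, P.K4_23 y a A]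
  ring

lemma rev_Phi2 : P.rev.Phi2 z A a b B y x = P.Phi2 z a A b B x y := by
  simp only [Phi2, rev_K4, rev_J3, P.K4_12 x y, P.J3_swap z x y, P.K4_34 x y a A]
  ring

lemma Phi3_12 : P.Phi3 z a A b B y x w = P.Phi3 z a A b B x y w := by
  simp only [Phi3, P.K4_12 x y, P.J3_swap z x y]

lemma Phi3_23 : P.Phi3 z a A b B x w y = P.Phi3 z a A b B x y w := by
  simp only [Phi3, P.K4_23 x y w, P.J3_swap' z x y w]

lemma rev_T0 : P.rev.T0 z A a b B w x = P.T0 z a A b B x w := by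
  simp only [T0, rev_Phi1, rev_Phi2]
  ring

lemma rev_TT : P.rev.TT z A a b B w x y = P.TT z a A b B x w y := by
  have : P.rev.Phi3 z A a b B w y x = P.Phi3 z a A b B x y w := by
    rw [← Phi3_12, ← Phi3_23, ← Phi3_12]
    simp only [Phi3, rev_K4, rev_J3]
    ring
  simp only [TT, rev_Phi1, rev_Phi2, this]
  ring

end PM

namespace H4
variable {W : Type} [Fintype W] {k : ℕ} {r : ℝ} {Fe : W → W → Prop} {R : Finset W} {z a A b B : W}
  (h : H4 k Fe R z a A b B) {P : PM W k r Fe} {x y w : W}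
include h

open PM

lemma k1_tri (hy : y ∈ R) : -1 ≤ P.f4 y a b A + P.f4 y a b B + P.J3 z y a b ∧
    (P.mu y a b = 0 → P.f4 y a b A + P.f4 y a b B + P.J3 z y a b = 0) :=
  have Y := (h.mem y).1 hy
  tri_ge (h.adRa P hy) (h.adab P) (h.adRb P hy).symm Y.2.2.1.symm h.aA.symm h.Ab Y.2.2.2.2.symm
    h.aB.symm h.bB.symm z

lemma k1_sg (hy : y ∈ R) (s : P.Sg a A b B y) : -1 ≤ P.Phi1 z a A b B y := by
  have a1 := h.k1_tri (P := P) hy
  have a2 := h.swa.k1_tri (P := P) hy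
  have a3 := h.swb.k1_tri (P := P) hy
  have a4 := h.swa.swb.k1_tri (P := P) hy
  rw [h.st.Phi1_eq P]
  unfold Sg at s
  omega

lemma k1_parts (hx : x ∈ R) (hy : y ∈ R) (e : y ≠ x) :
    0 ≤ P.K4 x y a A + P.J3 z x y a + P.J3 z x y A ∧ 0 ≤ P.K4 x y a b ∧ 0 ≤ P.K4 x y a B :=
  have xy := h.adRR P hx hy e
  ⟨pair_nonneg (h.st.naA P) h.aA.symm xy (h.adRa P hy) (h.adRa P hx).symm (h.adRA P hy)
      (h.adRA P hx).symm z,
    K4_nonneg xy (h.adRa P hx) (h.adRb P hx) (h.adRa P hy) (h.adRb P hy) (h.adab P),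
    K4_nonneg xy (h.adRa P hx) (h.adRB P hx) (h.adRa P hy) (h.adRB P hy) (h.adaB P)⟩

lemma k1_W (hx : x ∈ R) (hy : y ∈ R) (e : y ≠ x) (m1 : P.mu x y a ≠ 0) (m2 : P.mu x y A ≠ 0) :
    2 ≤ P.K4 x y a A + P.J3 z x y a + P.J3 z x y A :=
  k1_two (h.st.naA P) h.aA.symm (h.adRR P hx hy e) (h.adRa P hy) (h.adRa P hx).symm (h.adRA P hy)
    (h.adRA P hx).symm m1 m2 z

lemma k1_W2 (hx : x ∈ R) (hy : y ∈ R) (e : y ≠ x) (m : (P.mu x y a ≠ 0 ∧ P.mu x y A ≠ 0) ∨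
    (P.mu x y b ≠ 0 ∧ P.mu x y B ≠ 0)) : 2 ≤ P.Phi2 z a A b B x y := by
  have a1 := h.k1_parts (P := P) hx hy e
  have a2 := (h.swa.k1_parts (P := P) hx hy e).2
  have a3 := (h.swp.k1_parts (P := P) hx hy e).1
  unfold Phi2
  rcases m with m | m
  · have := h.k1_W hx hy e m.1 m.2; omega
  · have := h.swp.k1_W hx hy e m.1 m.2; omega

lemma k1_flat (hR : P.NoSh R) (hx : x ∈ R) (hy : y ∈ R) (hw : w ∈ R) (e1 : y ≠ x) (e2 : w ≠ y)
    (e3 : x ≠ w) : P.mu x y w = 0 := by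
  have a1 := h.adRR P hx hy e1
  have a2 := h.adRR P hy hw e2
  have a3 := h.adRR P hw hx e3
  have s := mu_swap a1 a2 a3
  rcases mu_cases a1 a2 a3 with g | g | g
  · exact absurd ⟨a1.symm, a3.symm, a2.symm, by omega⟩ (hR y hy x hx w hw)
  · exact g
  · exact absurd ⟨a1, a2, a3, g⟩ (hR x hx y hy w hw)

/-- The terms on the pair. -/
lemma k1_T0 (hx : x ∈ R) (hw : w ∈ R) (s1 : P.Sh x A B) (m1 : P.mu x a b = 0) (m2 : P.mu x a B = 0)
    (m3 : P.mu x A b = 0) (s2 : P.Sh x A w) (s3 : P.Sh x b w) (s4 : P.Sh x a w)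
    (m4 : P.mu x w B = 0) (g : -1 ≤ P.Phi1 z a A b B w) :
    0 ≤ P.T0 z a A b B x w ∧ (P.T0 z a A b B x w ≤ 0 → P.Z0 z a A b B x w) := by
  have X := (h.mem x).1 hx
  have Y := (h.mem w).1 hw
  have e : w ≠ x := s2.a3.1.symm
  have a1 := (h.k1_tri (P := P) hx).2 m1
  have a2 := (h.swa.k1_tri (P := P) hx).2 m3
  have a3 := (h.swb.k1_tri (P := P) hx).2 m2
  have a4 := k1_f4 s1 X.2.1.symm h.aA h.aB
  have a5 := k1_f4 s1 X.2.2.2.1.symm h.Ab.symm h.bB
  have a6 := k1_J3 s1 z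
  have b1 := h.k1_parts (P := P) hx hw e
  have b2 : P.K4 x w a A + P.J3 z x w a + P.J3 z x w A = 2 + ind (P.On a x A w) +
      ind (P.On A x a w) + P.met w x a z + P.met w x A z := by
    have := met_twin s4.rot.rot s2.rot.rot h.aA
    rw [K4_12 P w x, J3_swap P z w x, J3_swap P z w x, K4_miss (h.st.naA P),
      k1_f4 s4.rot.rot Y.2.2.1.symm X.2.2.1.symm h.aA.symm,
      k1_f4 s2.rot.rot Y.2.1.symm X.2.1.symm h.aA, k1_J3 s4.rot.rot, k1_J3 s2.rot.rot]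
    omega
  have b3 := pair_one (h.st.nbB P) h.bB.symm s3 (h.adRB P hw) (h.adRB P hx).symm z
  have b4 := K4_twin s2 s1 (h.adRB P hw) (Or.inl m4)
  have fl : P.mu A x b = 0 := by
    have := mu_swap (h.adRA P hx) (h.adAb P) (h.adRb P hx).symm
    omega
  have b5 := K4_twin s2.rot.rot s3.rot.rot (h.adAb P) (Or.inr m3)
  rw [K4_23] at b4
  rw [K4_12] at b5
  rw [P.met_rot w x a z |>.symm, P.met_rot w x A z |>.symm] at b2
  have n1 := P.met_nonneg x A B a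
  have n2 := P.met_nonneg x A B b
  have n3 := P.met_nonneg x A B z
  have n4 := P.met_nonneg x a w z
  have n5 := P.met_nonneg x A w z
  have n6 := P.met_nonneg x b w B
  have n7 := P.met_nonneg x b w z
  have i1 := ind_nonneg (P.On a x A w)
  have i2 := ind_nonneg (P.On A x a w)
  have i3 := ind_nonneg (P.On w A B x)
  have i4 := ind_nonneg (P.On B A w x)
  have i5 := ind_nonneg (P.On A x b w)
  have i6 := ind_nonneg (P.On b x A w)
  rw [T0, h.st.Phi1_eq P x, Phi2]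
  refine ⟨by omega, fun t => ?_⟩
  have z1 := met_le (show P.met x A B a ≤ 0 by omega)
  have z2 := met_le (show P.met x A B b ≤ 0 by omega)
  have z3 := met_le (show P.met x A B z ≤ 0 by omega)
  have z4 := met_le (show P.met x a w z ≤ 0 by omega)
  have z5 := met_le (show P.met x A w z ≤ 0 by omega)
  have z6 := met_le (show P.met x b w B ≤ 0 by omega)
  have z7 := met_le (show P.met x b w z ≤ 0 by omega)
  exact ⟨s1, s2, s3, fl, ind_le (by omega), ind_le (by omega), z1.1, z1.2.2, z5.1, z3.1, z4.1, z7.1,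
    ind_le (by omega), z5.2.1, z1.2.1, z3.2.1, ind_le (by omega), z2.2.1, ind_le (by omega), z6.2.1,
    z7.2.1⟩

/-- The terms of a third vertex of the second kind. -/
lemma k1_TT (hR : P.NoSh R) (hx : x ∈ R) (hw : w ∈ R) (hy : y ∈ R) (s1 : P.Sh x A y)
    (s2 : P.Sh y b A) (s3 : P.Sh y a w) (s4 : P.Sh y b w) (m1 : P.mu y a b = 0)
    (m2 : P.mu y a B = 0) (m3 : P.mu y A B = 0) (t1 : P.Sh x A w) (t2 : P.Sh x a w)
    (t3 : P.Sh x b w) (m4 : P.mu x A b = 0) (m5 : P.mu w a b = 0) (m6 : P.mu w A b = 0) :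
    0 ≤ P.TT z a A b B x w y ∧ (P.TT z a A b B x w y ≤ 0 → P.Z2 z a A b B x w y) := by
  have X := (h.mem x).1 hx
  have Y := (h.mem y).1 hy
  have yx : y ≠ x := s1.a3.1.symm
  have wy : w ≠ y := s3.a3.1.symm
  have wx : w ≠ x := t1.a3.1.symm
  have a1 := (h.k1_tri (P := P) hy).2 m1
  have a2 := (h.swa.swb.k1_tri (P := P) hy).2 m3
  have a3 := (h.swb.k1_tri (P := P) hy).2 m2
  have a4 := k1_f4 s2 Y.2.1.symm h.ab h.aA
  have a5 := k1_f4 s2 Y.2.2.2.2.symm h.bB.symm h.AB.symm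
  have a6 := k1_J3 s2 z
  rw [f4_swap'] at a4 a5
  rw [J3_swap'] at a6
  have b1 := h.k1_parts (P := P) hx hy yx
  have b2 := (h.swa.k1_parts (P := P) hx hy yx).2.2
  have b3 := (h.swp.k1_parts (P := P) hx hy yx).1
  have b4 := pair_one (h.st.swapA.naA P) h.aA s1 (h.adRa P hy) (h.adRa P hx).symm z
  have b5 := K4_twin s1.rot s2.rot.rot (h.adRb P hx) (Or.inl (by
    have := mu_swap (h.adRA P hx) (h.adAb P) (h.adRb P hx).symm
    omega))
  rw [K4_34] at b4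
  rw [K4_12, K4_23, K4_12] at b5
  have c1 := (h.k1_parts (P := P) hy hw wy).2.2
  have c2 := (h.swa.k1_parts (P := P) hy hw wy).2.2
  have c3 := pair_one (h.st.naA P) h.aA.symm s3 (h.adRA P hw) (h.adRA P hy).symm z
  have c4 := pair_one (h.st.nbB P) h.bB.symm s4 (h.adRB P hw) (h.adRB P hy).symm z
  have c5 := K4_twin s3.rot.rot s4.rot.rot (h.adab P) (Or.inl m5)
  have c6 := K4_twin s2 s4 (h.adRA P hw).symm (Or.inr (by
    have := mu_sw (h.adRA P hw) (h.adAb P) (h.adRb P hw).symm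
    have := P.mu_rot w b A
    omega))
  rw [K4_12] at c5
  rw [K4_23, K4_34, K4_23] at c6
  have f1 := h.k1_flat hR hx hy hw yx wy wx.symm
  have f2 := h.k1_flat hR hw hy hx wy.symm yx.symm wx
  have d1 := K4_twin s3.rot t2.rot (h.adRR P hy hx yx.symm) (Or.inr f2)
  have d2 := K4_twin s1 t1 (h.adRR P hy hw wy) (Or.inl f1)
  have d3 := K4_twin s4.rot t3.rot (h.adRR P hy hx yx.symm) (Or.inr f2)
  have d4 := h.st.swapP.swapA.K4a_nonneg P hx hy hw
  have d5 := P.J3_nonneg z x y w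
  rw [K4_12, K4_23, K4_34, K4_12, K4_23, K4_12] at d1 d3
  rw [K4_23, K4_34] at d2
  have n1 := P.met_nonneg y b A a
  have n2 := P.met_nonneg y b A B
  have n3 := P.met_nonneg y b A z
  have n4 := P.met_nonneg x A y a
  have n5 := P.met_nonneg x A y z
  have n6 := P.met_nonneg y a w z
  have n7 := P.met_nonneg y b w B
  have n8 := P.met_nonneg y b w z
  have i1 := ind_nonneg (P.On a y b w)
  have i2 := ind_nonneg (P.On b y a w)
  have i3 := ind_nonneg (P.On w b A y)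
  have i4 := ind_nonneg (P.On y w x a)
  have i5 := ind_nonneg (P.On x w y a)
  have i6 := ind_nonneg (P.On w A y x)
  have i7 := ind_nonneg (P.On y w x b)
  have i8 := ind_nonneg (P.On x w y b)
  have i9 := ind_nonneg (P.On a y A w)
  have L : 1 + ind (P.On a y A w) ≤ ind (P.On x y b A) + ind (P.On b y x A) + ind (P.On A b w y) +
      ind (P.On y A w x) + P.met y a w A := by
    have := ind_nonneg (P.On x y b A)
    have := ind_nonneg (P.On b y x A)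
    have := ind_nonneg (P.On A b w y)
    have := ind_nonneg (P.On y A w x)
    have := ind_nonneg (P.On w a A y)
    have := ind_nonneg (P.On y w A a)
    unfold met
    rcases lemL s1 s2 s3 s4 t1 (h.adRb P hx) h.aA with l | l | l | l | l | l <;>
      have := ind_pos l <;> omega
  rw [TT, h.st.Phi1_eq P y, Phi2, Phi2, Phi3]
  refine ⟨by omega, fun t => ?_⟩
  have z1 := met_le (show P.met y b A a ≤ 0 by omega)
  have z2 := met_le (show P.met y b A B ≤ 0 by omega)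
  have z3 := met_le (show P.met y b A z ≤ 0 by omega)
  have z4 := met_le (show P.met x A y a ≤ 0 by omega)
  have z5 := met_le (show P.met x A y z ≤ 0 by omega)
  have z6 := met_le (show P.met y a w z ≤ 0 by omega)
  have z7 := met_le (show P.met y b w B ≤ 0 by omega)
  have z8 := met_le (show P.met y b w z ≤ 0 by omega)
  exact ⟨s1, s2, s3, s4, z5.1, z4.2.1, z5.2.1, z1.2.2, z3.2.2, z2.2.1, z3.2.1, z1.2.1, z7.2.1, z8.2.1,
    ind_le (by omega), ind_le (by omega), ind_le (by omega), z6.2.2, ind_le (by omega), z6.2.1⟩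

/-- Case K1: two single vertices are split by both partners. -/
theorem K1 [DecidableEq W] (hR : P.NoSh R)
    (all : ∀ u ∈ R, P.Sg a A b B u ∨ 1 ≤ P.Phi1 z a A b B u) (hx : x ∈ R) (hw : w ∈ R)
    (m1 : P.mu x a b = 0) (m2 : P.mu x a B = 0) (m3 : P.mu x A b = 0) (m4 : P.mu x A B = 1)
    (t1 : P.Sh x A w) (t2 : P.Sh x a w) (t3 : P.Sh x b w) : False := by
  have wx : w ≠ x := t1.a3.1.symm
  have xw := h.adRR P hx hw wx
  have s1 : P.Sh x A B := ⟨h.adRA P hx, h.adAB P, (h.adRB P hx).symm, m4⟩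
  -- windings of the triangles through two special vertices
  have co : ∀ u ∈ R, (P.mu x u a + 0 = P.mu x u b + P.mu u a b ∧
      P.mu x u a + 0 = P.mu x u B + P.mu u a B) ∧ P.mu x u A + 0 = P.mu x u b + P.mu u A b ∧
      P.mu x u A + 1 = P.mu x u B + P.mu u A B := fun u hu =>
    ⟨⟨m1 ▸ cocycle (h.adRa P hx) (h.adRb P hu), m2 ▸ cocycle (h.adRa P hx) (h.adRB P hu)⟩,
      m3 ▸ cocycle (h.adRA P hx) (h.adRb P hu), m4 ▸ cocycle (h.adRA P hx) (h.adRB P hu)⟩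
  have wa := mu_sw t2.a1 t2.a2 t2.a3
  have wA := mu_sw t1.a1 t1.a2 t1.a3
  have wb := mu_sw t3.a1 t3.a2 t3.a3
  rw [t2.e] at wa
  rw [t1.e] at wA
  rw [t3.e] at wb
  have cw := co w hw
  have wB := mu_cases xw (h.adRB P hw) (h.adRB P hx).symm
  have waB := mu_cases (h.adRa P hw) (h.adaB P) (h.adRB P hw).symm
  have gx : -1 ≤ P.Phi1 z a A b B x := h.k1_sg hx (by unfold Sg; omega)
  have gw : -1 ≤ P.Phi1 z a A b B w := h.k1_sg hw (by unfold Sg; omega)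
  have key : ∀ y ∈ (R.erase x).erase w, 0 ≤ P.TT z a A b B x w y ∧ (P.TT z a A b B x w y ≤ 0 →
      P.Z2 z a A b B x w y ∨ P.rev.Z2 z A a b B w x y) := fun y hy' => by
    have yw := ne_of_mem_erase hy'
    have yx := ne_of_mem_erase (mem_of_mem_erase hy')
    have hy := mem_of_mem_erase (mem_of_mem_erase hy')
    have p1 := h.st.Phi2_nonneg P hx hy
    have p2 := h.st.Phi2_nonneg P hy hw
    have p3 := h.st.Phi3_nonneg P hx hy hw
    have pos : ∀ {p : Prop}, 1 ≤ P.TT z a A b B x w y → 0 ≤ P.TT z a A b B x w y ∧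
        (P.TT z a A b B x w y ≤ 0 → p) := fun i => ⟨by omega, fun j => by omega⟩
    rcases all y hy with sg | g
    swap
    · exact pos (by unfold TT; omega)
    have g := h.k1_sg hy sg
    by_cases q1 : P.mu x y a ≠ 0 ∧ P.mu x y A ≠ 0
    · have := h.k1_W2 hx hy yx (Or.inl q1)
      exact pos (by unfold TT; omega)
    by_cases q2 : P.mu y w a ≠ 0 ∧ P.mu y w A ≠ 0
    · have := h.k1_W2 hy hw yw.symm (Or.inl q2)
      exact pos (by unfold TT; omega)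
    have xy := h.adRR P hx hy yx
    have yw' := h.adRR P hy hw yw.symm
    have f := h.k1_flat hR hx hy hw yx yw.symm wx.symm
    have ya := h.adRa P hy
    have yA := h.adRA P hy
    have yb := h.adRb P hy
    have c1 := cocycle (p := x) (q := y) xw ya
    have c2 := cocycle (p := x) (q := y) xw yA
    have c3 := cocycle (p := x) (q := y) xw yb
    have cy := co y hy
    have r1 := mu_cases xy ya (h.adRa P hx).symm
    have r2 := mu_cases xy yA (h.adRA P hx).symm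
    have r3 := mu_cases xy yb (h.adRb P hx).symm
    have r4 := mu_cases yw' (h.adRa P hw) ya.symm
    have r5 := mu_cases yw' (h.adRA P hw) yA.symm
    have r6 := mu_cases yw' (h.adRb P hw) yb.symm
    have ty : P.mu x y A = -1 ∧ P.mu y w a = -1 ∧ P.mu y a B = 0 ∧ P.mu y A B = 0 ∧
        ((P.mu y w b = -1 ∧ P.mu y A b = -1 ∧ P.mu y a b = 0) ∨
          (P.mu x y b = -1 ∧ P.mu y a b = 1 ∧ P.mu y A b = 0)) := by
      exact k1_arith (dB := P.mu x y B) sg q1 q2 (by linarith) (by linarith) (by linarith) r1 r2 r3 r4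
        r5 r6 (by linarith [cy.1.1]) (by linarith [cy.1.2]) (by linarith [cy.2.1]) cy.2.2
    have mk : ∀ {p q s}, P.Ad p q → P.Ad q s → P.Ad p s → P.mu p q s = -1 → P.Sh p s q :=
      fun a1 a2 a3 e => ⟨a3, a2.symm, a1.symm, by rw [mu_sw a1 a2 a3.symm, e]; rfl⟩
    have u1 := mk xy yA (h.adRA P hx) ty.1
    have u2 := mk yw' (h.adRa P hw) ya ty.2.1
    rcases ty.2.2.2.2 with v | v
    · exact (h.k1_TT hR hx hw hy u1 (mk yA (h.adAb P) yb v.2.1) u2 (mk yw' (h.adRb P hw) yb v.1)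
        v.2.2 ty.2.2.1 ty.2.2.2.1 t1 t2 t3 m3 (by omega) (by omega)).imp_right
        fun i j => Or.inl (i j)
    · have := h.swa.k1_TT (P := P.rev) (fun p hp q hq s hs i => hR q hq p hp s hs (rev_sh.1 i))
        hw hx hy (rev_sh.2 u2.rot) (rev_sh.2 (Sh.rot (Sh.rot ⟨ya, h.adab P, yb.symm, v.2.1⟩)))
        (rev_sh.2 u1.rot) (rev_sh.2 (mk xy yb (h.adRb P hx) v.1).rot) (by rw [rev_mu]; omega)
        (by rw [rev_mu]; omega) (by rw [rev_mu]; omega) (rev_sh.2 t2.rot) (rev_sh.2 t1.rot)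
        (rev_sh.2 t3.rot) (by rw [rev_mu]; omega) (by rw [rev_mu]; omega) (by rw [rev_mu]; omega)
      rw [rev_TT] at this
      exact this.imp_right fun i j => Or.inr (i j)
  have cnt : P.T0 z a A b B x w + ∑ y ∈ (R.erase x).erase w, P.TT z a A b B x w y ≤ 0 := by
    refine group hx hw wx (P.Phi1 z a A b B) (P.Phi2 z a A b B) (P.Phi3 z a A b B)
      (fun p hp q hq => h.st.Phi2_nonneg P hp hq) (fun p q => ?_)
      (fun p hp q hq s hs => h.st.Phi3_nonneg P hp hq hs) (fun p q s => P.Phi3_12 z a A b B p s q)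
      (fun p q s => P.Phi3_23 z a A b B p s q) ?_
    · simp only [Phi2, P.K4_12 p q, P.J3_swap z p q]
    · have c := h.st.count P
      have c4 : 0 ≤ ∑ x ∈ R, ∑ y ∈ R, ∑ w ∈ R, ∑ v ∈ R, P.K4 x y w v :=
        sum_nonneg fun x hx => sum_nonneg fun y hy => sum_nonneg fun w hw => sum_nonneg fun v hv =>
          h.st.K4R_nonneg P hx hy hw hv
      omega
  have sn := sum_nonneg fun y hy => (key y hy).1
  by_cases d : P.mu x w B = 0
  swap
  · have a1 := h.k1_W (P := P) hx hw wx (by omega) (by omega)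
    have a2 := h.swp.k1_W hx hw wx (by omega) d
    have a3 := (h.k1_parts (P := P) hx hw wx).2
    have a4 := (h.swa.k1_parts (P := P) hx hw wx).2
    unfold T0 Phi2 at cnt
    omega
  have Baw : P.Sh B a w := by
    have := mu_sw (h.adRa P hw) (h.adaB P) (h.adRB P hw).symm
    exact Sh.rot ⟨h.adRB P hw, (h.adaB P).symm, (h.adRa P hw).symm, by omega⟩
  have z1 := h.k1_T0 hx hw s1 m1 m2 m3 t1 t3 t2 d gw
  have z2 := h.swa.k1_T0 (P := P.rev) hw hx (rev_sh.2 Baw.rot) (by rw [rev_mu]; omega)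
    (by rw [rev_mu]; omega) (by rw [rev_mu]; omega) (rev_sh.2 t2.rot) (rev_sh.2 t3.rot)
    (rev_sh.2 t1.rot) (by rw [rev_mu, mu_swap xw (h.adRB P hw) (h.adRB P hx).symm, d]; rfl)
    (by rw [rev_Phi1]; exact gx)
  rw [rev_T0] at z2
  have z0 := z1.1
  have zero := (sum_eq_zero_iff_of_nonneg fun y hy => (key y hy).1).1 (by omega)
  have hS : ∀ y ∈ R, y ≠ x → y ≠ w → P.Z2 z a A b B x w y ∨ P.rev.Z2 z A a b B w x y :=
    fun y hy e1 e2 =>
      have m := mem_erase.2 ⟨e2, mem_erase.2 ⟨e1, hy⟩⟩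
      (key y m).2 (zero y m).le
  have u := z1.2 (by omega)
  have u' := z2.2 (by omega)
  obtain ⟨y, hy⟩ : ((R.erase x).erase w).Nonempty := by
    have := h.cardR
    have := h.big
    rw [← card_pos, card_erase_of_mem (mem_erase.2 ⟨wx, hw⟩), card_erase_of_mem hx]
    omega
  have yR := mem_of_mem_erase (mem_of_mem_erase hy)
  rcases hS y yR (ne_of_mem_erase (mem_of_mem_erase hy)) (ne_of_mem_erase hy) with t | t
  · exact tie h hx hw u u' hS ⟨y, yR, t⟩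
  · have rr : P.rev.rev = P := by cases P; simp [rev]
    exact tie (P := P.rev) h.swa hw hx u' (rr.symm ▸ u)
      (fun v hv e1 e2 => (hS v hv e2 e1).symm.imp_right fun i => rr.symm ▸ i) ⟨y, yR, t⟩

end H4

end Pool.Agent.P.MP_3f5ded_co.UG
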