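import Pool.Agent.P.MP_3f5ded_co.EQL
import Pool.Agent.P.MP_3f5ded_co.EQK1
import Pool.Agent.P.MP_3f5ded_co.EQBa

set_option autoImplicit false

namespace Pool.Agent.P.MP_3f5ded_co.UG

open Finset

namespace PM
variable {W : Type} {k : ℕ} {r : ℝ} {Fe : W → W → Prop} (P : PM W k r Fe)

/-- The number of short triangles through `u` and two special vertices. -/
def nz (a A b B u : W) : ℕ :=
  (P.mu u a b).natAbs + (P.mu u a B).natAbs + (P.mu u A b).natAbs + (P.mu u A B).natAbs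

end PM

namespace H4
variable {W : Type} [Fintype W] {k : ℕ} {r : ℝ} {Fe : W → W → Prop} {R : Finset W} {z a A b B : W}
  (h : H4 k Fe R z a A b B) {P : PM W k r Fe} {x y u w : W}
include h

lemma i_mu (hu : u ∈ R) : P.mu u a b = -1 ∨ P.mu u a b = 0 ∨ P.mu u a b = 1 :=
  PM.mu_cases (h.adRa P hu) (h.adab P) (h.adRb P hu).symm

lemma i_G (hu : u ∈ R) : -1 ≤ P.Phi1 z a A b B u ∧ (P.nz a A b B u ≠ 1 → 0 ≤ P.Phi1 z a A b B u) ∧
    (P.nz a A b B u = 3 → 1 ≤ P.Phi1 z a A b B u) := by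
  classical
  obtain ⟨r1, r2, r3, r4⟩ := h.st.phi1_row (P := P) hu
  unfold PM.nz
  refine ⟨r1, ?_⟩
  rcases h.i_mu (P := P) hu with e1 | e1 | e1 <;> rcases h.swb.i_mu (P := P) hu with e2 | e2 | e2 <;>
    rcases h.swa.i_mu (P := P) hu with e3 | e3 | e3 <;>
    rcases h.swa.swb.i_mu (P := P) hu with e4 | e4 | e4 <;>
    simp only [e1, e2, e3, e4] at r2 r3 r4 ⊢ <;> simp at r2 r3 r4 ⊢ <;> omega

lemma i_P (hx : x ∈ R) (hy : y ∈ R) (h1 : P.Sh a y x) (h2 : P.Sh b y x) (h3 : P.Sh x A B)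
    (h4 : P.Sh y A B) : 1 ≤ P.Phi2 z a A b B x y := by
  classical
  exact h.st.phi2_P hx hy h1 h2 (Or.inl ⟨h3.rot, h4.rot⟩)

lemma i_P2 (hx : x ∈ R) (hy : y ∈ R) (h1 : P.Sh a x y) (h2 : P.Sh a x B) (h3 : P.Sh x A B)
    (h4 : P.Sh y A B) : 1 ≤ P.Phi2 z a A b B x y := by
  classical
  exact h.st.phi2_P2 hx hy h1 h2 h4.rot h3.rot

lemma i_P2' (hx : x ∈ R) (hy : y ∈ R) (h1 : P.Sh b y x) (h2 : P.Sh b A x) (h3 : P.Sh x A B)
    (h4 : P.Sh y A B) : 1 ≤ P.Phi2 z a A b B x y := by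
  classical
  exact h.st.phi2_P2' hx hy h1 h2 h4.rot h3.rot

lemma i_K1 (hR : P.NoSh R) (odd : ∀ u ∈ R, P.nz a A b B u = 1 ∨ P.nz a A b B u = 3)
    (hx : x ∈ R) (hw : w ∈ R) (x1 : P.mu x a b = 0) (x2 : P.mu x a B = 0) (x3 : P.mu x A b = 0)
    (x4 : P.mu x A B = 1) (s1 : P.Sh x A w) (s2 : P.Sh x a w) (s3 : P.Sh x b w) : False := by
  classical
  refine h.K1 hR (fun u hu => (odd u hu).imp (fun g => ?_) (h.i_G hu).2.2) hx hw x1 x2 x3 x4 s1 s2 s3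
  unfold PM.nz at g
  unfold PM.Sg
  omega

end H4

end Pool.Agent.P.MP_3f5ded_co.UG
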