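import Pool.Agent.P.MP_3f5ded_co.CP3
import Pool.Agent.P.MP_3f5ded_co.CCz

set_option autoImplicit false

namespace Pool.Agent.P.MP_3f5ded_co.UG

open Finset

/-- The clique `R` is flat. -/
theorem H4.noSh {W : Type} [Fintype W] [DecidableEq W] {k : ℕ} {r : ℝ} {Fe : W → W → Prop}
    {R : Finset W} {z a A b B : W} (h : H4 k Fe R z a A b B) (P : PM W k r Fe) : P.NoSh R := by
  by_contra n
  obtain ⟨Q, U, v, w, a', A', b', B', g⟩ := h.nf P n
  exact g.false

end Pool.Agent.P.MP_3f5ded_co.UG
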