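import Pool.Agent.P.MP_3f5ded_co.EQL

set_option autoImplicit false

namespace Pool.Agent.P.MP_3f5ded_co.UG

open Finset

namespace St
open PM
variable {W : Type} [Fintype W] [DecidableEq W] {k : ℕ} {r : ℝ} {Fe : W → W → Prop}
  {z a A b B : W} {R : Finset W} (h : St k Fe z a A b B R) {P : PM W k r Fe} {x y u : W}
include h

omit [Fintype W] [DecidableEq W] in
/-- A special vertex that does not split the clique. -/
lemma mu_zero (hA : ¬ P.Spl R A) (hx : x ∈ R) (hy : y ∈ R) (e : y ≠ x) : P.mu A x y = 0 := by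
  have xy := h.adR P hx hy e
  have s := mu_sw (h.adA P hx).symm xy (h.adA P hy)
  rcases mu_cases (h.adA P hx).symm xy (h.adA P hy) with g | g | g
  · exact absurd ⟨y, hy, x, hx, (h.adA P hy).symm, xy.symm, h.adA P hx, by omega⟩ hA
  · exact g
  · exact absurd ⟨x, hx, y, hy, (h.adA P hx).symm, xy, h.adA P hy, g⟩ hA

omit [Fintype W] [DecidableEq W] in
/-- If `B` does not split, `a` splits by its windings with `B`. -/
lemma mu_diff (hB : ¬ P.Spl R B) (hx : x ∈ R) (hy : y ∈ R) (e : y ≠ x) :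
    P.mu a y x = P.mu x a B - P.mu y a B := by
  have m := h.swapP.mu_zero hB hx hy e
  have := (h.adR P hx hy e).sh
  have := (h.ada P hy).sh
  have := (h.adB P hy).sh
  unfold mu at *
  omega

omit [Fintype W] in
lemma nosh (hR : P.NoSh R) (hB : ¬ P.Spl R B) (m : ∀ u ∈ R, P.mu u a B = 0) :
    P.NoSh (insert a (insert B R)) := by
  have ha : ∀ x ∈ R, ∀ y ∈ R, ¬ P.Sh a x y := fun x hx y hy s => by
    have := h.mu_diff hB hy hx s.a2.1.symm
    rw [s.e, m x hx, m y hy] at this; omega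
  have hb : ∀ x ∈ R, ∀ y ∈ R, ¬ P.Sh B x y := fun x hx y hy s => hB ⟨x, hx, y, hy, s⟩
  have h1 : ∀ x ∈ R, ¬ P.Sh x a B := fun x hx s => by have := s.e; rw [m x hx] at this; omega
  have h2 : ∀ x ∈ R, ¬ P.Sh x B a := fun x hx s => by
    have := mu_sw s.a1 s.a2 s.a3
    rw [m x hx, s.e] at this; omega
  intro x hx y hy c hc s
  have n1 := s.a1.1
  have n2 := s.a2.1
  have n3 := s.a3.1
  simp only [mem_insert] at hx hy hc
  rcases hx with rfl | rfl | hx <;> rcases hy with rfl | rfl | hy <;> rcases hc with rfl | rfl | hc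
  all_goals first
    | exact n1 rfl | exact n2 rfl | exact n3 rfl | exact hR _ hx _ hy _ hc s
    | exact ha _ hy _ hc s | exact ha _ hc _ hx s.rot | exact ha _ hx _ hy s.rot.rot
    | exact hb _ hy _ hc s | exact hb _ hc _ hx s.rot | exact hb _ hx _ hy s.rot.rot
    | exact h1 _ hx s | exact h1 _ hy s.rot | exact h1 _ hc s.rot.rot
    | exact h2 _ hx s | exact h2 _ hy s.rot | exact h2 _ hc s.rot.rot

/-- A vertex whose terms pay for all others. -/
lemma pay {t : W} (ht : t ∈ R) (h1 : 1 ≤ P.Phi1 z a A b B t)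
    (h2 : ∀ u ∈ R, u ≠ t → 0 ≤ P.Phi1 z a A b B u ∨ 1 ≤ P.Phi2 z a A b B u t) : False := by
  have c := h.star P ht
  have : 0 ≤ ∑ u ∈ R.erase t, (P.Phi1 z a A b B u + P.Phi2 z a A b B u t) :=
    sum_nonneg fun u hu => by
      have a1 := (h.phi1_row (P := P) (mem_of_mem_erase hu)).1
      have a2 := h.Phi2_nonneg P (mem_of_mem_erase hu) ht
      have a3 := h2 u (mem_of_mem_erase hu) (ne_of_mem_erase hu)
      omega
  omega

/-- If no vertex gains, no pair loses. -/
lemma tie (h1 : ∀ u ∈ R, 0 ≤ P.Phi1 z a A b B u) (hx : x ∈ R) (hy : y ∈ R) (e : x ≠ y) :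
    P.Phi1 z a A b B y ≤ 0 ∧ P.Phi2 z a A b B x y ≤ 0 := by
  have c := h.star P hy
  have := single_le_sum (f := fun u => P.Phi1 z a A b B u + P.Phi2 z a A b B u y)
    (fun u hu => add_nonneg (h1 u (mem_of_mem_erase hu)) (h.Phi2_nonneg P (mem_of_mem_erase hu) hy))
    (mem_erase.2 ⟨e, hx⟩)
  have := h1 x hx
  have := h1 y hy
  have := h.Phi2_nonneg P hx hy
  omega

omit [Fintype W] in
/-- Case B (ii). -/
lemma caseBii (hA : ¬ P.Spl R A) (hB : ¬ P.Spl R B)
    (m : ∀ u ∈ R, (P.mu u a B = 0 ∨ P.mu u a B = 1) ∧ (P.mu u A b = 0 ∨ P.mu u A b = 1) ∧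
      P.mu u a b = P.mu u a B + P.mu u A b)
    (hx : x ∈ R) (hy : y ∈ R) (mx : P.mu x a B = 1) (my : P.mu y A b = 1) : False := by
  have le : ∀ u ∈ R, P.mu u a b ≤ 1 := fun u hu => mu_le (h.ada P hu) (h.adab P) (h.adb P hu).symm
  have cR := h.card
  have c1 := card_filter_add_card_filter_not (s := R) fun u => P.mu u a B = 1
  have c2 := card_filter_add_card_filter_not (s := R) fun u => P.mu u A b = 1
  have db : ∀ x ∈ R, ∀ y ∈ R, y ≠ x → P.mu b y x = P.mu y A b - P.mu x A b := fun x hx y hy e => by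
    rw [h.swapP.mu_diff hA hx hy e, mu_sw (h.adA P hx) (h.adAb P) (h.adb P hx).symm,
      mu_sw (h.adA P hy) (h.adAb P) (h.adb P hy).symm]
    ring
  have t1 : ∀ l ∈ insert b (insert B (R.filter fun u => ¬ P.mu u a B = 1)),
      ∀ f ∈ R.filter fun u => P.mu u a B = 1, P.Sh a l f := fun l hl f hf => by
    simp only [mem_insert, mem_filter] at hl hf
    have := m f hf.1
    have := le f hf.1
    rcases hl with rfl | rfl | hl
    · exact Sh.rot ⟨h.ada P hf.1, h.adab P, (h.adb P hf.1).symm, by omega⟩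
    · exact Sh.rot ⟨h.ada P hf.1, h.adaB P, (h.adB P hf.1).symm, hf.2⟩
    · have e : l ≠ f := fun g => hl.2 (g ▸ hf.2)
      have := m l hl.1
      exact ⟨(h.ada P hl.1).symm, h.adR P hl.1 hf.1 e.symm, h.ada P hf.1, by
        rw [h.mu_diff hB hf.1 hl.1 e]; omega⟩
  have t2 : ∀ l ∈ R.filter fun u => P.mu u A b = 1,
      ∀ f ∈ insert a (insert A (R.filter fun u => ¬ P.mu u A b = 1)), P.Sh b l f :=
    fun l hl f hf => by
    simp only [mem_insert, mem_filter] at hl hf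
    have := m l hl.1
    have := le l hl.1
    rcases hf with rfl | rfl | hf
    · exact Sh.rot (Sh.rot ⟨h.ada P hl.1, h.adab P, (h.adb P hl.1).symm, by omega⟩)
    · exact Sh.rot (Sh.rot ⟨h.adA P hl.1, h.adAb P, (h.adb P hl.1).symm, hl.2⟩)
    · have e : l ≠ f := fun g => hf.2 (g ▸ hl.2)
      have := m f hf.1
      exact ⟨(h.adb P hl.1).symm, h.adR P hl.1 hf.1 e.symm, h.adb P hf.1, by
        rw [db f hf.1 l hl.1 e]; omega⟩
  obtain ⟨f, hf, -, s1⟩ := lemS ⟨x, mem_filter.2 ⟨hx, mx⟩⟩ (insert_nonempty _ _) (by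
    rw [card_insert_of_notMem (by simp [h.bR, h.bB]), card_insert_of_notMem (by simp [h.BR])]
    omega) t1
  obtain ⟨l, hl, -, s2⟩ := lemS' (insert_nonempty _ _) ⟨y, mem_filter.2 ⟨hy, my⟩⟩ (by
    rw [card_insert_of_notMem (by simp [h.aR, h.aA]), card_insert_of_notMem (by simp [h.AR])]
    omega) t2
  have hf' := mem_filter.1 hf
  have g : f ∈ insert a (insert A (R.filter fun u => ¬ P.mu u A b = 1)) := by
    have := m f hf'.1
    have := le f hf'.1
    exact mem_insert_of_mem (mem_insert_of_mem (mem_filter.2 ⟨hf'.1, by omega⟩))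
  have := P.finite a
  exact bii (t1 b (mem_insert_self _ _) f hf) (t2 l hl f g) (h.ada P (mem_filter.1 hl).1)
    (s1 b (mem_insert_self _ _)).2.1 (s2 f g).2.1

/-- The edge `A B` is shifted, `a` and `b` are not flat. -/
lemma shifted (hA : ¬ P.Spl R A) (hB : ¬ P.Spl R B) (m4 : ∀ u ∈ R, P.mu u A B = 1) (hx : x ∈ R)
    (hy : y ∈ R) (mx : P.mu x a B ≠ 0) (my : P.mu y A b ≠ 0) : False := by
  obtain ⟨c, hc⟩ : ∃ c, ∀ u ∈ R, P.mu u a b = c + P.mu u a B + P.mu u A b :=
    ⟨P.sh a b - P.sh A b + P.sh A B - P.sh a B - 1, fun u hu => by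
      have := m4 u hu; unfold mu at *; omega⟩
  have s4 : ∀ u ∈ R, P.Sh A B u := fun u hu =>
    Sh.rot ⟨h.adA P hu, h.adAB P, (h.adB P hu).symm, m4 u hu⟩
  have r1 := fun u hu => mu_cases (h.ada P (x := u) hu) (h.adab P) (h.adb P hu).symm
  have r2 := fun u hu => mu_cases (h.ada P (x := u) hu) (h.adaB P) (h.adB P hu).symm
  have r3 := fun u hu => mu_cases (h.adA P (x := u) hu) (h.adAb P) (h.adb P hu).symm
  have row : ∀ u ∈ R, ((P.mu u a b = 0 ↔ P.mu u a B = 0) ↔ P.mu u A b ≠ 0) →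
      0 ≤ P.Phi1 z a A b B u := fun u hu g =>
    (h.phi1_row hu).2.1 (by rw [g, m4 u hu]; simp)
  have row3 : ∀ u ∈ R, (P.mu u a b ≠ 0 ∧ P.mu u a B ≠ 0) ∨ (P.mu u A b ≠ 0 ∧ P.mu u a b ≠ 0) ∨
      (P.mu u A b ≠ 0 ∧ P.mu u a B ≠ 0) → 1 ≤ P.Phi1 z a A b B u := fun u hu g => by
    have n : P.mu u A B ≠ 0 := by rw [m4 u hu]; simp
    rcases g with g | g | g
    exacts [(h.phi1_row hu).2.2.1 g.1 g.2 (Or.inr n), (h.phi1_row hu).2.2.2 g.1 n (Or.inl g.2),
      (h.phi1_row hu).2.2.2 g.1 n (Or.inr g.2)]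
  have sa : ∀ x ∈ R, ∀ y ∈ R, P.mu x a B = P.mu y a B + 1 → P.Sh a y x := fun x hx y hy g =>
    have e : y ≠ x := fun e => by rw [e] at g; omega
    ⟨(h.ada P hy).symm, h.adR P hy hx e.symm, h.ada P hx, by rw [h.mu_diff hB hx hy e]; omega⟩
  have sb : ∀ x ∈ R, ∀ y ∈ R, P.mu y A b = P.mu x A b + 1 → P.Sh b y x := fun x hx y hy g =>
    have e : y ≠ x := fun e => by rw [e] at g; omega
    ⟨(h.adb P hy).symm, h.adR P hy hx e.symm, h.adb P hx, by
      rw [h.swapP.mu_diff hA hx hy e, mu_sw (h.adA P hx) (h.adAb P) (h.adb P hx).symm,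
        mu_sw (h.adA P hy) (h.adAb P) (h.adb P hy).symm]; omega⟩
  have pp : ∀ x ∈ R, ∀ y ∈ R, P.mu x a B - P.mu y a B = P.mu y A b - P.mu x A b →
      P.mu x a B = P.mu y a B + 1 ∨ P.mu y a B = P.mu x a B + 1 → 1 ≤ P.Phi2 z a A b B x y := by
    rintro x hx y hy e (g | g)
    · exact h.phi2_P hx hy (sa x hx y hy g) (sb x hx y hy (by omega)) (Or.inl ⟨s4 x hx, s4 y hy⟩)
    · rw [phi2_comm]
      exact h.phi2_P hy hx (sa y hy x hx g) (sb y hy x hx (by omega)) (Or.inl ⟨s4 y hy, s4 x hx⟩)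
  by_cases c0 : c = 0
  · subst c0
    have non : ∀ t ∈ R, P.mu t a B ≠ 0 ∨ P.mu t A b ≠ 0 → 1 ≤ P.Phi1 z a A b B t := fun t ht g =>
      row3 t ht (by have := hc t ht; omega)
    have use : ∀ t ∈ R, P.mu t a B ≠ 0 ∨ P.mu t A b ≠ 0 → (∀ e ∈ R, P.mu e a B = 0 →
        P.mu e A b = 0 → 1 ≤ P.Phi2 z a A b B e t) → False := fun t ht g1 g2 =>
      h.pay ht (non t ht g1) fun u hu _ => by
        by_cases g : P.mu u a B ≠ 0 ∨ P.mu u A b ≠ 0
        · exact Or.inl (by have := non u hu g; omega)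
        · exact Or.inr (g2 u hu (by omega) (by omega))
    have k1 : ∀ t ∈ R, P.mu t a B = 0 ∨ P.mu t A b = 0 := fun t ht => by
      by_contra g
      have := hc t ht
      have := r1 t ht
      have := r2 t ht
      have := r3 t ht
      exact use t ht (by omega) fun e he e1 e2 => pp e he t ht (by omega) (by omega)
    have k2 : ∀ t ∈ R, P.mu t a B ≠ -1 := fun t ht g =>
      use t ht (by omega) fun e he e1 _ => by
        rw [phi2_comm]
        refine h.phi2_P2 ht he (sa e he t ht (by omega)) ⟨(h.ada P ht).symm, h.adB P ht,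
          (h.adaB P).symm, ?_⟩ (s4 e he) (s4 t ht)
        rw [mu_swap (h.ada P ht) (h.adaB P) (h.adB P ht).symm, g]; rfl
    have k3 : ∀ t ∈ R, P.mu t A b ≠ -1 := fun t ht g =>
      use t ht (by omega) fun e he _ e2 => by
        rw [phi2_comm]
        refine h.phi2_P2' ht he (sb t ht e he (by omega)) ⟨(h.adAb P).symm, (h.adA P ht).symm,
          h.adb P ht, ?_⟩ (s4 e he) (s4 t ht)
        rw [P.mu_rot t b A, mu_sw (h.adA P ht) (h.adAb P) (h.adb P ht).symm, g]; rfl
    exact h.caseBii hA hB (fun u hu => by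
      have := hc u hu; have := r2 u hu; have := r3 u hu; have := k2 u hu; have := k3 u hu; omega)
      hx hy (by have := r2 x hx; have := k2 x hx; omega) (by have := r3 y hy; have := k3 y hy; omega)
  have all : ∀ u ∈ R, 0 ≤ P.Phi1 z a A b B u := fun u hu => by
    have := hc u hu
    have := r1 u hu
    have := r2 u hu
    have := r3 u hu
    by_cases g : (P.mu u a b = 0 ↔ P.mu u a B = 0) ↔ P.mu u A b ≠ 0
    · exact row u hu g
    · have := row3 u hu (by omega); omega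
  have one : ∀ u ∈ R, P.Phi1 z a A b B u ≤ 0 := fun u hu => by
    have := h.star P hu
    have : 0 ≤ ∑ v ∈ R.erase u, (P.Phi1 z a A b B v + P.Phi2 z a A b B v u) := sum_nonneg fun v hv =>
      add_nonneg (all v (mem_of_mem_erase hv)) (h.Phi2_nonneg P (mem_of_mem_erase hv) hu)
    omega
  have x1 := mt (row3 x hx) (by have := one x hx; omega)
  have y1 := mt (row3 y hy) (by have := one y hy; omega)
  have := hc x hx
  have := hc y hy
  have := r2 x hx
  have := pp x hx y hy (by omega) (by omega)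
  have := (h.tie all hx hy fun e => by rw [e] at mx; omega).2
  omega

end St

/-- `R` is flat, `A` and `B` do not split it: one of three cliques has no short triangle. -/
theorem H4.unsplit {W : Type} [Fintype W] [DecidableEq W] {k : ℕ} {r : ℝ} {Fe : W → W → Prop}
    {R : Finset W} {z a A b B : W} (h : H4 k Fe R z a A b B) (P : PM W k r Fe) (hR : P.NoSh R)
    (hA : ¬ P.Spl R A) (hB : ¬ P.Spl R B) :
    P.NoSh (insert A (insert B R)) ∨ P.NoSh (insert a (insert B R)) ∨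
      P.NoSh (insert A (insert b R)) := by
  have s := h.st
  by_contra g
  simp only [not_or] at g
  obtain ⟨u, hu, mu⟩ : ∃ u ∈ R, P.mu u A B ≠ 0 := by
    by_contra c
    push Not at c
    exact g.1 (s.swapA.nosh hR hB c)
  obtain ⟨x, hx, mx⟩ : ∃ u ∈ R, P.mu u a B ≠ 0 := by
    by_contra c
    push Not at c
    exact g.2.1 (s.nosh hR hB c)
  have sw : ∀ u ∈ R, P.mu u b A = -P.mu u A b := fun u hu =>
    PM.mu_sw (s.adA P hu) (s.adAb P) (s.adb P hu).symm
  have sw' : ∀ u ∈ R, P.mu u B a = -P.mu u a B := fun u hu =>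
    PM.mu_sw (s.ada P hu) (s.adaB P) (s.adB P hu).symm
  obtain ⟨y, hy, my⟩ : ∃ u ∈ R, P.mu u A b ≠ 0 := by
    by_contra c
    push Not at c
    exact g.2.2 (insert_comm b A R ▸ s.swapP.nosh hR hA fun u hu => by rw [sw u hu, c u hu]; rfl)
  have cst : ∀ v ∈ R, P.mu v A B = P.mu u A B := fun v hv => by
    by_cases e : v = u
    · rw [e]
    have := s.swapA.mu_diff hB hu hv e
    rw [s.mu_zero hA hv hu (Ne.symm e)] at this
    omega
  rcases PM.mu_cases (s.adA P hu) (s.adAB P) (s.adB P hu).symm with e | e | e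
  · refine s.swapP.shifted hB hA (fun v hv => ?_) hy hx (by rw [sw y hy]; omega)
      (by rw [sw' x hx]; omega)
    rw [PM.mu_sw (s.adA P hv) (s.adAB P) (s.adB P hv).symm, cst v hv, e]; rfl
  · exact mu e
  · exact s.shifted hA hB (fun v hv => (cst v hv).trans e) hx hy mx my

end Pool.Agent.P.MP_3f5ded_co.UG
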