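import Pool.Agent.P.MP_3f5ded_co.EQS
import Pool.Agent.P.MP_3f5ded_co.EQ3

set_option autoImplicit false

namespace Pool.Agent.P.MP_3f5ded_co.UG

lemma dk {us ut us' ut' st' i1 i2 i3 i4 : ℤ} (m1 : ut < us) (m2 : ut < us') (m3 : ut < ut')
    (n1 : us ≠ us') (n2 : us ≠ ut') (s2 : Bt us' ut' st')
    (a1 : (Bt ut us' us ∧ i1 = 1) ∨ (¬ Bt ut us' us ∧ i1 = 0))
    (a2 : (Bt ut ut' us ∧ i2 = 1) ∨ (¬ Bt ut ut' us ∧ i2 = 0))
    (a3 : (Bt ut' us us' ∧ i3 = 1) ∨ (¬ Bt ut' us us' ∧ i3 = 0))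
    (a4 : (Bt ut' ut us' ∧ i4 = 1) ∨ (¬ Bt ut' ut us' ∧ i4 = 0)) :
    2 ≤ i1 + i2 + i3 + i4 ∨ (0 ≤ i1 + i2 + i3 + i4 ∧ us < ut' ∧ ut' < st' ∧ st' < us') := by
  rw [bt1 m2.le m1.le] at a1
  rw [bt1 m3.le m1.le] at a2
  rw [bt2 m3.le m2.le] at a4
  unfold Bt at *
  omega

lemma dj {a b c d x i j : ℤ} (h : a < b ∧ b < c ∧ c < d)
    (a1 : (Bt b x a ∧ i = 1) ∨ (¬ Bt b x a ∧ i = 0))
    (a2 : (Bt d x c ∧ j = 1) ∨ (¬ Bt d x c ∧ j = 0)) : 1 ≤ i + j := by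
  unfold Bt at *
  omega

namespace PM
variable {W : Type} [Finite W] {k : ℕ} {r : ℝ} {Fe : W → W → Prop} {P : PM W k r Fe}
  {x y a b A B u s t : W}

/-- The end of case B (ii). -/
lemma bii (h1 : P.Sh a b x) (h2 : P.Sh b y x) (h3 : P.Ad y a) (e1 : P.st b a x = 1)
    (e2 : P.st x y b = 1) : False := by
  obtain ⟨L, t, h, -⟩ := P.exists_tm h1.a1.1
  have m := h.sh4 h1.a3 h1.a1 h2.a1 h2.a2 h1.a2.1.symm h3.1.symm (by
    have := h1.e; have := h2.e; have := h1.a2.sh; unfold mu at *; omega)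
  have s1 := h.sh3 h1
  have s2 := h.sh3 h2
  have o1 := (h.on h1.a1.1.symm h2.a1.1 h1.a2.1).not.1 fun g => by
    rw [on_st h1.a1.1.symm h2.a1.1 h1.a2.1] at g; omega
  have o2 := (h.on h2.a2.1.symm h1.a3.1 h1.a2.1.symm).not.1 fun g => by
    rw [on_st h2.a2.1.symm h1.a3.1 h1.a2.1.symm] at g; omega
  have := h.sym _ _ h1.a1
  have := h.sym _ _ h1.a2
  have := h.sym _ _ h2.a2
  have := h.ne h1.a2.1 h2.a1.1 h2.a2.1
  have := h.ne h1.a2.1.symm h2.a2.1.symm h2.a1.1.symm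
  unfold Bt at *
  omega

/-- Lemma P. -/
lemma lemP (h1 : P.Sh a y x) (h2 : P.Sh b y x) (ab : P.Ad a b) (h3 : P.Sh A B x) (h4 : P.Sh A B y)
    (aA : a ≠ A) (bB : b ≠ B) (o1 : ¬ P.On a x b y) (o2 : ¬ P.On b x a y) (o3 : ¬ P.On y a A x)
    (o5 : ¬ P.On x y B b) (o7 : ¬ P.On x B y A) (o8 : ¬ P.On y B x A) : False := by
  obtain ⟨L, t, h, m⟩ := P.exists_tm h1.a2.1
  have s1 := h.sh3 h1
  have s2 := h.sh3 h2
  have s3 := h.sh3 h3
  have s4 := h.sh3 h4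
  rw [h.on h1.a3.1.symm ab.1 h1.a1.1] at o1
  rw [h.on h2.a3.1.symm ab.1.symm h2.a1.1] at o2
  rw [h.on h1.a1.1.symm h4.a3.1 h1.a2.1] at o3
  rw [h.on h1.a2.1.symm h3.a2.1.symm h2.a3.1] at o5
  rw [h.on h3.a2.1.symm h1.a2.1.symm h3.a3.1] at o7
  rw [h.on h4.a2.1.symm h1.a2.1 h4.a3.1] at o8
  have := h.sym _ _ h1.a1
  have := h.sym _ _ h1.a2
  have := h.sym _ _ h1.a3
  have := h.sym _ _ h2.a1
  have := h.sym _ _ h2.a3
  have := h.sym _ _ ab
  have := h.sym _ _ h3.a2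
  have := h.sym _ _ h4.a2
  have := h.ne h1.a3.1.symm ab.1 h2.a3.1.symm
  have := h.ne h1.a1.1 ab.1 h2.a1.1
  have := h.ne h2.a3.1.symm ab.1.symm h1.a3.1.symm
  have := h.ne h2.a1.1 ab.1.symm h1.a1.1
  have := h.ne h1.a1.1.symm h4.a3.1 aA
  have := h.ne h2.a3.1 h3.a2.1.symm bB
  have := h.ne h1.a2.1 h4.a3.1 h3.a3.1.symm
  have := h.ne h1.a2.1 h4.a2.1.symm h3.a2.1
  have := h.ne h1.a2.1.symm h3.a3.1 h4.a3.1.symm
  have := h.ne h1.a2.1.symm h3.a2.1.symm h4.a2.1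
  have := m a y h1.a1.1
  have := m a x h1.a3.1.symm
  have := m b y h2.a1.1
  have := m b x h2.a3.1.symm
  have := m a b ab.1
  have := m A B h3.a1.1
  have := m x A h3.a3.1
  have := m y A h4.a3.1
  have := m x B h3.a2.1.symm
  have := m y B h4.a2.1.symm
  unfold Bt at *
  omega

/-- Lemma P2. -/
lemma lemP2 (h1 : P.Sh a x y) (h3 : P.Sh A B y) (h4 : P.Sh A B x) (aA : a ≠ A) (aB : a ≠ B)
    (o1 : ¬ P.On x B y A) (o2 : ¬ P.On y B x A) (o3 : ¬ P.On x a A y) (o4 : ¬ P.On y x B a) :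
    False := by
  obtain ⟨L, t, h, m⟩ := P.exists_tm h1.a2.1
  have s1 := h.sh3 h1
  have s3 := h.sh3 h3
  have s4 := h.sh3 h4
  rw [h.on h4.a2.1.symm h1.a2.1 h4.a3.1] at o1
  rw [h.on h3.a2.1.symm h1.a2.1.symm h3.a3.1] at o2
  rw [h.on h1.a1.1.symm h4.a3.1 h1.a2.1] at o3
  rw [h.on h1.a2.1.symm h3.a2.1.symm h1.a3.1] at o4
  have := h.sym _ _ h1.a1
  have := h.sym _ _ h1.a2
  have := h.sym _ _ h3.a2
  have := h.sym _ _ h4.a2
  have := h.ne h1.a1.1.symm h4.a3.1 aA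
  have := h.ne h1.a3.1 h3.a2.1.symm aB
  have := h.ne h1.a2.1 h4.a3.1 h3.a3.1.symm
  have := h.ne h1.a2.1 h4.a2.1.symm h3.a2.1
  have := h.ne h1.a2.1.symm h3.a3.1 h4.a3.1.symm
  have := h.ne h1.a2.1.symm h3.a2.1.symm h4.a2.1
  have := m a x h1.a1.1
  have := m y a h1.a3.1
  have := m A B h3.a1.1
  have := m x A h4.a3.1
  have := m y A h3.a3.1
  have := m x B h4.a2.1.symm
  have := m y B h3.a2.1.symm
  unfold Bt at *
  omega

/-- Lemma D: two short triangles with one common vertex and two cross edges. -/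
lemma lemD {s' t' : W} (h : P.Sh u s t) (h' : P.Sh u s' t') (n1 : s ≠ s') (n2 : s ≠ t')
    (n3 : t ≠ s') (n4 : t ≠ t') (c : (P.Ad s t' ∧ P.Ad t s') ∨ (P.Ad s s' ∧ P.Ad t t')) :
    2 ≤ P.met u s t s' + P.met u s t t' + P.met u s' t' s + P.met u s' t' t := by
  obtain ⟨L, τ, T, m⟩ := P.exists_tm h.a3.1.symm
  have s1 := T.sh3 h
  have s2 := T.sh3 h'
  rw [T.sym _ _ h.a3, bt2 (m u s h.a1.1) (m s t h.a2.1)] at s1
  rw [T.sym _ _ h'.a3] at s2
  have m1 := (m u s h.a1.1).lt_of_ne (T.ne h.a3.1.symm h.a1.1 h.a2.1)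
  have m2 := (m u s' h'.a1.1).lt_of_ne (T.ne h.a3.1.symm h'.a1.1 n3)
  have m3 := (m u t' h'.a3.1.symm).lt_of_ne (T.ne h.a3.1.symm h'.a3.1.symm n4)
  have a1 := ind_cases (P.On u t s' s)
  have a2 := ind_cases (P.On u t t' s)
  have a3 := ind_cases (P.On u t' s s')
  have a4 := ind_cases (P.On u t' t s')
  have b1 := ind_cases (P.On s u s' t)
  have b2 := ind_cases (P.On s u t' t)
  have b3 := ind_cases (P.On t s s' u)
  have b4 := ind_cases (P.On t s t' u)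
  have c1 := ind_cases (P.On s' u s t')
  have c2 := ind_cases (P.On s' u t t')
  have c3 := ind_cases (P.On t' s' s u)
  have c4 := ind_cases (P.On t' s' t u)
  unfold met
  generalize ind (P.On u t s' s) = i1 at *
  generalize ind (P.On u t t' s) = i2 at *
  generalize ind (P.On u t' s s') = i3 at *
  generalize ind (P.On u t' t s') = i4 at *
  generalize ind (P.On s u s' t) = j1 at *
  generalize ind (P.On s u t' t) = j2 at *
  generalize ind (P.On t s s' u) = j3 at *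
  generalize ind (P.On t s t' u) = j4 at *
  generalize ind (P.On s' u s t') = l1 at *
  generalize ind (P.On s' u t t') = l2 at *
  generalize ind (P.On t' s' s u) = l3 at *
  generalize ind (P.On t' s' t u) = l4 at *
  have p : 0 ≤ j1 ∧ 0 ≤ j2 ∧ 0 ≤ j3 ∧ 0 ≤ j4 ∧ 0 ≤ l1 ∧ 0 ≤ l2 ∧ 0 ≤ l3 ∧ 0 ≤ l4 :=
    ⟨by omega, by omega, by omega, by omega, by omega, by omega, by omega, by omega⟩
  rw [T.on h.a3.1.symm h'.a1.1 h.a1.1] at a1
  rw [T.on h.a3.1.symm h'.a3.1.symm h.a1.1] at a2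
  rw [T.on h'.a3.1.symm h.a1.1 h'.a1.1] at a3
  rw [T.on h'.a3.1.symm h.a3.1.symm h'.a1.1] at a4
  rcases dk m1 m2 m3 (T.ne h.a1.1 h'.a1.1 n1) (T.ne h.a1.1 h'.a3.1.symm n2) s2 a1 a2 a3 a4 with
    key | key
  · clear a1 a2 a3 a4 b1 b2 b3 b4 c1 c2 c3 c4; omega
  rcases c with ⟨e, e'⟩ | ⟨e, e'⟩
  · rw [T.on h.a1.1.symm e.1 h.a2.1, ← T.sym _ _ h.a1] at b2
    rw [T.on h.a2.1.symm e'.1 h.a3.1, ← T.sym _ _ h.a2, T.sym _ _ h.a3] at b3
    rw [T.on h'.a1.1.symm e'.1.symm h'.a2.1, ← T.sym _ _ h'.a1, ← T.sym _ _ e'] at c2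
    rw [T.on h'.a2.1.symm e.1.symm h'.a3.1, ← T.sym _ _ h'.a2, T.sym _ _ h'.a3,
      ← T.sym _ _ e] at c3
    have := dj ⟨s1.2, key.2.1, key.2.2.1⟩ b2 c3
    have := dj ⟨s1.1, by omega, key.2.2.2⟩ b3 c2
    clear a1 a2 a3 a4 b1 b2 b3 b4 c1 c2 c3 c4; omega
  · rw [T.on h.a1.1.symm e.1 h.a2.1, ← T.sym _ _ h.a1] at b1
    rw [T.on h.a2.1.symm e'.1 h.a3.1, ← T.sym _ _ h.a2, T.sym _ _ h.a3] at b4
    rw [T.on h'.a1.1.symm e.1.symm h'.a2.1, ← T.sym _ _ h'.a1, ← T.sym _ _ e] at c1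
    rw [T.on h'.a2.1.symm e'.1.symm h'.a3.1, ← T.sym _ _ h'.a2, T.sym _ _ h'.a3,
      ← T.sym _ _ e'] at c4
    have := dj ⟨s1.2, by omega, key.2.2.2⟩ b1 c1
    have := dj ⟨s1.1, by omega, key.2.2.1⟩ b4 c4
    clear a1 a2 a3 a4 b1 b2 b3 b4 c1 c2 c3 c4; omega

omit [Finite W]

/-- Twins in a clique: the edge between the third vertices is counted. -/
lemma K4_tw {c d : W} (h : P.Sh x y c) (h' : P.Sh x y d) (e : P.Ad c d) :
    ind (P.On c y d x) + ind (P.On d y c x) ≤ P.K4 x y c d := by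
  have m := met_twin h h' e.1.symm
  have co := cocycle (q := y) (d := d) h.a3.symm h'.a2
  have p := f4_pair e h'.a3 h.a3.symm h'.a2.symm h.a2 h.a1.1
  have z1 := fun g => f4_flat g h.a3.symm e h'.a3 y
  have z2 := fun g => f4_flat g h.a2 e h'.a2.symm x
  rw [P.mu_rot x c d, P.mu_rot y c d, P.f4_rot x c d y, P.f4_rot y c d x] at p
  rw [h.e, h'.e] at co
  rw [K4, f4, f4, g4_pos h h'.a3.1.symm h'.a2.1 e.1, g4_neg h.not_swap,
    g4_pos h' h.a3.1.symm h.a2.1 e.1.symm, g4_neg h'.not_swap]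
  by_cases g : P.mu x c d = 0
  · rw [z1 g, z2 (by omega)]; omega
  · have := p g (by omega); omega

lemma fJ_nonneg {c d : W} (h1 : P.Ad x y) (h2 : P.Ad y c) (h3 : P.Ad c x) (d1 : d ≠ x) (d2 : d ≠ y)
    (d3 : d ≠ c) (z : W) : 0 ≤ P.f4 x y c d + P.J3 z x y c := by
  have a := f4_cases h1 h2 h3 d1 d2 d3
  have b := J3_cases h1 h2 h3 z
  have := P.met_nonneg x y c d
  have := P.met_nonneg y x c d
  have := P.met_nonneg x y c z
  have := P.met_nonneg y x c z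
  rcases a with a | ⟨a, -, a1⟩ | ⟨a, -, a1⟩ <;> rcases b with b | ⟨b, -, b1⟩ | ⟨b, -, b1⟩ <;> omega

/-- The partner of the third vertex of a short triangle is counted. -/
lemma pair_met {c d : W} (h : P.Sh x y c) (n : ¬ P.Ad c d) (e : d ≠ c) (h4 : P.Ad y d)
    (h5 : P.Ad d x) (z : W) :
    P.met x y c d ≤ P.K4 x y c d + P.J3 z x y c + P.J3 z x y d := by
  have := P.met_nonneg x y c z
  have := fJ_nonneg h.a1 h4 h5 h.a3.1.symm h.a2.1 e.symm z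
  rw [K4_miss n, f4, J3, g4_pos h h5.1.symm h4.1 e, g4_neg h.not_swap, h3_pos h, h3_neg h.not_swap]
  omega

/-- The value of one triangle with two further vertices. -/
lemma tri_val {c d e : W} (h1 : P.Ad x y) (h2 : P.Ad y c) (h3 : P.Ad c x) (d1 : d ≠ x) (d2 : d ≠ y)
    (d3 : d ≠ c) (e1 : e ≠ x) (e2 : e ≠ y) (e3 : e ≠ c) (z : W) :
    (P.mu x y c = 0 ∧ P.f4 x y c d = 0 ∧ P.f4 x y c e = 0 ∧ P.J3 z x y c = 0) ∨
      (P.mu x y c ≠ 0 ∧ -1 ≤ P.f4 x y c d ∧ -1 ≤ P.f4 x y c e ∧ 1 ≤ P.J3 z x y c) := by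
  have a := f4_cases h1 h2 h3 d1 d2 d3
  have a' := f4_cases h1 h2 h3 e1 e2 e3
  have b := J3_cases h1 h2 h3 z
  have := P.met_nonneg x y c d
  have := P.met_nonneg y x c d
  have := P.met_nonneg x y c e
  have := P.met_nonneg y x c e
  have := P.met_nonneg x y c z
  have := P.met_nonneg y x c z
  rcases a with a | ⟨a, -, a1⟩ | ⟨a, -, a1⟩ <;> rcases a' with a' | ⟨a', -, a2⟩ | ⟨a', -, a2⟩ <;>
    rcases b with b | ⟨b, -, b1⟩ | ⟨b, -, b1⟩ <;> omega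

lemma f4_two {c d e : W} (h1 : P.Ad x y) (h2 : P.Ad y c) (h3 : P.Ad c x) (d1 : d ≠ x) (d2 : d ≠ y)
    (d3 : d ≠ c) (e1 : e ≠ x) (e2 : e ≠ y) (e3 : e ≠ c) (m : P.mu x y c ≠ 0) :
    (P.Sh x y c ∧ P.f4 x y c d = P.met x y c d - 1 ∧ P.f4 x y c e = P.met x y c e - 1) ∨
      (P.Sh y x c ∧ P.f4 x y c d = P.met y x c d - 1 ∧ P.f4 x y c e = P.met y x c e - 1) := by
  rcases f4_cases h1 h2 h3 d1 d2 d3 with a | ⟨a, s, a1⟩ | ⟨a, s, a1⟩ <;>
    rcases f4_cases h1 h2 h3 e1 e2 e3 with a' | ⟨a', -, a2⟩ | ⟨a', -, a2⟩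
  any_goals omega
  exacts [Or.inl ⟨s, a1, a2⟩, Or.inr ⟨s, a1, a2⟩]

/-- Lemma D for windings. -/
lemma f4_diag (ua : P.Ad u a) (ub : P.Ad u b) (uA : P.Ad u A) (uB : P.Ad u B) (ab : P.Ad a b)
    (aB : P.Ad a B) (Ab : P.Ad A b) (AB : P.Ad A B) (aA : a ≠ A) (bB : b ≠ B) (m1 : P.mu u a b ≠ 0)
    (m4 : P.mu u A B ≠ 0) : -2 ≤ P.f4 u a b A + P.f4 u a b B + P.f4 u A B a + P.f4 u A B b := by
  have := P.finite u
  rcases f4_two ua ab ub.symm uA.1 aA.symm Ab.1.symm uB.1 aB.1 bB.symm m1 with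
    ⟨s, a1, a2⟩ | ⟨s, a1, a2⟩ <;>
  rcases f4_two uA AB uB.symm ua.1 aA aB.1.symm ub.1 Ab.1 bB m4 with ⟨s', c1, c2⟩ | ⟨s', c1, c2⟩
  · have := lemD s s' aA aB.1.symm Ab.1 bB (Or.inl ⟨aB, Ab.symm⟩); omega
  · have := lemD s s'.rot aB.1.symm aA bB Ab.1 (Or.inr ⟨aB, Ab.symm⟩)
    rw [P.met_rot A u B, P.met_rot A u B] at this; omega
  · have := lemD s.rot s' Ab.1 bB aA aB.1.symm (Or.inr ⟨Ab.symm, aB⟩)
    rw [P.met_rot a u b, P.met_rot a u b] at this; omega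
  · have := lemD s.rot s'.rot bB Ab.1 aB.1.symm aA (Or.inl ⟨Ab.symm, aB⟩)
    rw [P.met_rot a u b, P.met_rot a u b, P.met_rot A u B, P.met_rot A u B] at this; omega

end PM

namespace St
open PM Finset
variable {W : Type} {k : ℕ} {r : ℝ} {Fe : W → W → Prop} {z a A b B : W} {R : Finset W}
  (h : St k Fe z a A b B R) {P : PM W k r Fe} {x y u : W}
include h

/-- The rows of the table for one vertex: no or two wound triangles cost nothing, one gains at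
most one, three or four lose. -/
lemma phi1_row (hu : u ∈ R) : -1 ≤ P.Phi1 z a A b B u ∧
    (((P.mu u a b = 0 ↔ P.mu u a B = 0) ↔ (P.mu u A b = 0 ↔ P.mu u A B = 0)) →
      0 ≤ P.Phi1 z a A b B u) ∧
    (P.mu u a b ≠ 0 → P.mu u a B ≠ 0 → P.mu u A b ≠ 0 ∨ P.mu u A B ≠ 0 → 1 ≤ P.Phi1 z a A b B u) ∧
    (P.mu u A b ≠ 0 → P.mu u A B ≠ 0 → P.mu u a b ≠ 0 ∨ P.mu u a B ≠ 0 →
      1 ≤ P.Phi1 z a A b B u) := by
  have ua := h.ada P hu
  have uA := h.adA P hu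
  have ub := h.adb P hu
  have uB := h.adB P hu
  have v1 := tri_val ua (h.adab P) ub.symm uA.1 h.aA.symm h.Ab uB.1 h.aB.symm h.bB.symm z
  have v2 := tri_val ua (h.adaB P) uB.symm uA.1 h.aA.symm h.AB ub.1 h.ab.symm h.bB z
  have v3 := tri_val uA (h.adAb P) ub.symm ua.1 h.aA h.ab uB.1 h.AB.symm h.bB.symm z
  have v4 := tri_val uA (h.adAB P) uB.symm ua.1 h.aA h.aB ub.1 h.Ab.symm h.bB z
  have p1 := f4_pair ua (h.adab P) ub.symm (h.adaB P) uB.symm h.bB.symm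
  have p2 := f4_pair uA (h.adAb P) ub.symm (h.adAB P) uB.symm h.bB.symm
  have p3 := f4_pair ub (h.adab P).symm ua.symm (h.adAb P).symm uA.symm h.aA.symm
  have p4 := f4_pair uB (h.adaB P).symm ua.symm (h.adAB P).symm uA.symm h.aA.symm
  rw [mu_sw ua (h.adab P) ub.symm, mu_sw uA (h.adAb P) ub.symm, P.f4_swap' u a b,
    P.f4_swap' u A b] at p3
  rw [mu_sw ua (h.adaB P) uB.symm, mu_sw uA (h.adAB P) uB.symm, P.f4_swap' u a B,
    P.f4_swap' u A B] at p4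
  have d1 := f4_diag ua ub uA uB (h.adab P) (h.adaB P) (h.adAb P) (h.adAB P) h.aA h.bB
  have d2 := f4_diag ua uB uA ub (h.adaB P) (h.adab P) (h.adAB P) (h.adAb P) h.aA h.bB.symm
  rw [h.Phi1_eq P]
  rcases v1 with v1 | v1 <;> rcases v2 with v2 | v2 <;> rcases v3 with v3 | v3 <;>
    rcases v4 with v4 | v4 <;> simp only [v1.1, v2.1, v3.1, v4.1, ne_eq, not_true_eq_false,
      not_false_eq_true, neg_eq_zero, forall_const, IsEmpty.forall_iff, iff_self, or_self, or_true,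
      true_or, iff_false, iff_true, true_and, and_true] at * <;> omega

/-- The six parts of the pair term. -/
lemma phi2_parts (hx : x ∈ R) (hy : y ∈ R) (e : y ≠ x) :
    0 ≤ P.K4 x y a A + P.J3 z x y a + P.J3 z x y A ∧ 0 ≤ P.K4 x y b B + P.J3 z x y b + P.J3 z x y B ∧
      0 ≤ P.K4 x y a b ∧ 0 ≤ P.K4 x y a B ∧ 0 ≤ P.K4 x y A b ∧ 0 ≤ P.K4 x y A B :=
  have xy := h.adR P hx hy e
  ⟨pair_nonneg (h.naA P) h.aA.symm xy (h.ada P hy) (h.ada P hx).symm (h.adA P hy)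
      (h.adA P hx).symm z,
    pair_nonneg (h.nbB P) h.bB.symm xy (h.adb P hy) (h.adb P hx).symm (h.adB P hy)
      (h.adB P hx).symm z,
    K4_nonneg xy (h.ada P hx) (h.adb P hx) (h.ada P hy) (h.adb P hy) (h.adab P),
    K4_nonneg xy (h.ada P hx) (h.adB P hx) (h.ada P hy) (h.adB P hy) (h.adaB P),
    K4_nonneg xy (h.adA P hx) (h.adb P hx) (h.adA P hy) (h.adb P hy) (h.adAb P),
    K4_nonneg xy (h.adA P hx) (h.adB P hx) (h.adA P hy) (h.adB P hy) (h.adAB P)⟩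

omit h in
lemma phi2_comm (x y : W) : P.Phi2 z a A b B y x = P.Phi2 z a A b B x y := by
  simp only [Phi2, P.K4_12 x y, P.J3_swap z x y]

/-- Lemma P for the pair term. -/
lemma phi2_P (hx : x ∈ R) (hy : y ∈ R) (h1 : P.Sh a y x) (h2 : P.Sh b y x)
    (h3 : (P.Sh A B x ∧ P.Sh A B y) ∨ (P.Sh B A x ∧ P.Sh B A y)) : 1 ≤ P.Phi2 z a A b B x y := by
  have := P.finite x
  have p := h.phi2_parts (P := P) hy hx h1.a2.1
  have q1 := K4_tw h1.rot h2.rot (h.adab P)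
  have q2 := pair_met h1.rot (h.naA P) h.aA.symm (h.adA P hx) (h.adA P hy).symm z
  have q3 := pair_met h2.rot (h.nbB P) h.bB.symm (h.adB P hx) (h.adB P hy).symm z
  rw [phi2_comm y x]
  by_contra g
  unfold Phi2 at g
  unfold met at q2 q3
  have i1 := ind_cases (P.On a x b y)
  have i2 := ind_cases (P.On b x a y)
  have i3 := ind_cases (P.On y a A x)
  have i4 := ind_cases (P.On x y A a)
  have i5 := ind_cases (P.On y b B x)
  have i6 := ind_cases (P.On x y B b)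
  have := ind_nonneg (P.On a x A y)
  have := ind_nonneg (P.On b x B y)
  have o1 := (i1.resolve_left fun c => by omega).1
  have o2 := (i2.resolve_left fun c => by omega).1
  rcases h3 with h3 | h3
  · have q := K4_tw h3.2 h3.1 h1.a2
    rw [P.K4_23, P.K4_12, P.K4_34, P.K4_23] at q
    have j1 := ind_cases (P.On y B x A)
    have j2 := ind_cases (P.On x B y A)
    exact lemP h1 h2 (h.adab P) h3.1 h3.2 h.aA h.bB o1 o2 (i3.resolve_left fun c => by omega).1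
      (i6.resolve_left fun c => by omega).1 (j2.resolve_left fun c => by omega).1
      (j1.resolve_left fun c => by omega).1
  · have q := K4_tw h3.2 h3.1 h1.a2
    rw [P.K4_12, P.K4_23, P.K4_12, P.K4_34, P.K4_23] at q
    have j1 := ind_cases (P.On y A x B)
    have j2 := ind_cases (P.On x A y B)
    exact lemP h2 h1 (h.adab P).symm h3.1 h3.2 h.bB h.aA o2 o1 (i5.resolve_left fun c => by omega).1
      (i4.resolve_left fun c => by omega).1 (j2.resolve_left fun c => by omega).1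
      (j1.resolve_left fun c => by omega).1

/-- Lemma P2 for the pair term. -/
lemma phi2_P2 (hx : x ∈ R) (hy : y ∈ R) (h1 : P.Sh a x y) (h2 : P.Sh a x B) (h3 : P.Sh A B y)
    (h4 : P.Sh A B x) : 1 ≤ P.Phi2 z a A b B x y := by
  have := P.finite x
  have p := h.phi2_parts (P := P) hx hy h1.a2.1
  have q1 := K4_tw h1 h2 (h.adB P hy)
  have q2 := pair_met h1.rot (h.naA P) h.aA.symm (h.adA P hy) (h.adA P hx).symm z
  have q := K4_tw h4 h3 h1.a2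
  rw [P.K4_23, P.K4_12, P.K4_34, P.K4_23] at q
  rw [P.K4_12, P.K4_23] at q1
  by_contra g
  unfold Phi2 at g
  unfold met at q2
  have i1 := ind_cases (P.On x B y A)
  have i2 := ind_cases (P.On y B x A)
  have i3 := ind_cases (P.On x a A y)
  have i4 := ind_cases (P.On y x B a)
  have := ind_nonneg (P.On y x A a)
  have := ind_nonneg (P.On a y A x)
  have := ind_nonneg (P.On B x y a)
  exact lemP2 h1 h3 h4 h.aA h.aB (i1.resolve_left fun c => by omega).1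
    (i2.resolve_left fun c => by omega).1 (i3.resolve_left fun c => by omega).1
    (i4.resolve_left fun c => by omega).1

/-- The mirror image of Lemma P2. -/
lemma phi2_P2' (hx : x ∈ R) (hy : y ∈ R) (h1 : P.Sh b y x) (h2 : P.Sh b A x) (h3 : P.Sh A B y)
    (h4 : P.Sh A B x) : 1 ≤ P.Phi2 z a A b B x y := by
  have := P.finite x
  have p := h.phi2_parts (P := P) hy hx h1.a2.1
  have q1 := K4_tw h1.rot.rot h2.rot.rot (h.adA P hy)
  have q2 := pair_met h1.rot (h.nbB P) h.bB.symm (h.adB P hx) (h.adB P hy).symm z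
  have q := K4_tw h3 h4 h1.a2
  rw [P.K4_23, P.K4_12, P.K4_34, P.K4_23] at q
  rw [P.K4_23, P.K4_12, P.K4_34] at q1
  rw [phi2_comm y x]
  by_contra g
  unfold Phi2 at g
  unfold met at q2
  have i1 := ind_cases (P.On x B y A)
  have i2 := ind_cases (P.On y B x A)
  have i3 := ind_cases (P.On x y B b)
  have i4 := ind_cases (P.On y b A x)
  have := ind_nonneg (P.On y b B x)
  have := ind_nonneg (P.On b x B y)
  have := ind_nonneg (P.On A b y x)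
  refine lemP2 (P := P.rev) (a := b) (x := x) (y := y) (A := B) (B := A) (rev_sh.2 h1.rot.rot)
    (rev_sh.2 h3) (rev_sh.2 h4) h.bB h.Ab.symm ?_ ?_ ?_ ?_ <;> rw [rev_on]
  exacts [(i1.resolve_left fun c => by omega).1, (i2.resolve_left fun c => by omega).1,
    (i3.resolve_left fun c => by omega).1, (i4.resolve_left fun c => by omega).1]

/-- The count seen from one vertex `t`. -/
lemma star [Fintype W] [DecidableEq W] (P : PM W k r Fe) {t : W} (ht : t ∈ R) :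
    P.Phi1 z a A b B t + ∑ u ∈ R.erase t, (P.Phi1 z a A b B u + P.Phi2 z a A b B u t) ≤ 0 := by
  have c := h.count_le P
  have j : 0 ≤ ∑ x ∈ R, ∑ y ∈ R, ∑ w ∈ R, P.J3 z x y w :=
    sum_nonneg fun _ _ => sum_nonneg fun _ _ => sum_nonneg fun _ _ => P.J3_nonneg _ _ _ _
  have e1 : ∑ u ∈ R.erase t, P.Phi2 z a A b B u t ≤ ∑ y ∈ R, P.Phi2 z a A b B t y := by
    simp only [phi2_comm t]
    exact sum_le_sum_of_subset_of_nonneg (erase_subset _ _) fun y hy _ => h.Phi2_nonneg P ht hy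
  have e2 : ∑ u ∈ R.erase t, P.Phi2 z a A b B u t ≤
      ∑ x ∈ R.erase t, ∑ y ∈ R, P.Phi2 z a A b B x y := sum_le_sum fun x hx =>
    single_le_sum (fun y hy => h.Phi2_nonneg P (mem_of_mem_erase hx) hy) ht
  rw [← add_sum_erase _ (fun x => ∑ y ∈ R, P.Phi2 z a A b B x y) ht,
    ← add_sum_erase _ (fun u => P.Phi1 z a A b B u) ht] at c
  rw [sum_add_distrib]
  omega

end St

end Pool.Agent.P.MP_3f5ded_co.UG
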