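import Pool.Agent.P.MP_3f5ded_co.EQF
import Pool.Agent.P.MP_3f5ded_co.EQB
import Pool.Agent.P.MP_3f5ded_co.EQC
import Pool.Agent.P.MP_3f5ded_co.EPB

set_option autoImplicit false

namespace Pool.Agent.P.MP_3f5ded_co.UG

open Finset

variable {W : Type} [Fintype W] [DecidableEq W] {k : ℕ} {r : ℝ}

omit [Fintype W] [DecidableEq W] in
lemma PM.NoSh.flat {Fe : W → W → Prop} {P : PM W k r Fe} {Q : Finset W} (h : P.NoSh Q)
    (cl : ∀ x ∈ Q, ∀ y ∈ Q, ¬ Fe x y) : P.Flat Q :=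
  PM.flat_of_tri cl fun x hx y hy c hc e1 e2 e3 => by
    have a1 : P.Ad x y := ⟨e1, cl x hx y hy⟩
    have a2 : P.Ad y c := ⟨e2, cl y hy c hc⟩
    have a3 : P.Ad c x := ⟨e3, cl c hc x hx⟩
    have := PM.mu_swap a1 a2 a3
    rcases PM.mu_cases a1 a2 a3 with e | e | e
    · exact absurd ⟨a1.symm, a3.symm, a2.symm, by omega⟩ (h y hy x hx c hc)
    · exact e
    · exact absurd ⟨a1, a2, a3, e⟩ (h x hx y hy c hc)

/-- One of the four large cliques has no short triangle. -/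
theorem H4.one {Fe : W → W → Prop} {R : Finset W} {z a A b B : W} (h : H4 k Fe R z a A b B)
    (P : PM W k r Fe) : ∃ s t, (s = a ∨ s = A) ∧ (t = b ∨ t = B) ∧ P.NoSh (insert s (insert t R)) := by
  have hR := h.noSh P
  have key : ∀ {a A b B : W}, H4 k Fe R z a A b B → ¬ P.Spl R A → ¬ P.Spl R B →
      ∃ s t, (s = a ∨ s = A) ∧ (t = b ∨ t = B) ∧ P.NoSh (insert s (insert t R)) :=
    fun g e1 e2 => by
      rcases g.unsplit P hR e1 e2 with f | f | f
      · exact ⟨_, _, Or.inr rfl, Or.inr rfl, f⟩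
      · exact ⟨_, _, Or.inl rfl, Or.inr rfl, f⟩
      · exact ⟨_, _, Or.inr rfl, Or.inl rfl, f⟩
  by_cases e1 : P.Spl R A <;> by_cases e2 : P.Spl R B
  · obtain ⟨s, t, f1, f2, f⟩ := key h.swa.swb (fun g => h.both P hR g e1) fun g =>
      h.swp.both P hR g e2
    exact ⟨s, t, f1.symm, f2.symm, f⟩
  · obtain ⟨s, t, f1, f2, f⟩ := key h.swa (fun g => h.both P hR g e1) e2
    exact ⟨s, t, f1.symm, f2, f⟩
  · obtain ⟨s, t, f1, f2, f⟩ := key h.swb e1 fun g => h.swp.both P hR g e2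
    exact ⟨s, t, f1, f2.symm, f⟩
  · exact key h e1 e2

namespace Spi
variable {S : Spi W} (h : S.Ok k)
include h

lemma Ok.h4 : H4 k S.Fe (univ \ {S.z, S.p, S.p', S.q, S.q'}) S.z S.p S.p' S.q S.q' := by
  refine ⟨h.card, h.big, fun x => by simp, h.zp, h.zp', h.zq, h.zq', h.pp', h.pq, h.pq', h.p'q,
    h.p'q', h.qq', fun x y a b => by unfold Fe; tauto, ?_, ?_, ?_, ?_⟩
  · simp [h.fe_z, h.zp, h.zq, h.zL]
  · have c : (insert S.p (insert S.q S.L)).card = S.L.card + 2 := by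
      rw [card_insert_of_notMem (by simp [h.pq, h.pL]), card_insert_of_notMem h.qL]
    have := h.cardL
    exact ⟨insert S.p (insert S.q S.L), fun y => by simp [h.fe_z], by omega⟩
  · simp [h.fe_z, h.pp'.symm, h.p'q, h.p'L]
  · simp [h.fe_z, h.pq'.symm, h.qq'.symm, h.q'L]

/-- Step one: the true clique is flat. -/
theorem Ok.step1 (P : PM W k r S.Fe) : P.Flat (S.Cq S.p' S.q') := by
  obtain ⟨s, t, f1, f2, f⟩ := h.h4.one P
  have key : ∀ a b, (a = S.p ∨ a = S.p') → (b = S.q ∨ b = S.q') →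
      (∀ x ∈ S.Cq a b, x ∈ insert s (insert t (univ \ {S.z, S.p, S.p', S.q, S.q'}))) →
      P.Flat (S.Cq S.p' S.q') := fun a b ha hb g =>
    h.flat_true P ha hb (PM.NoSh.flat (fun x hx y hy c hc => f x (g x hx) y (g y hy) c (g c hc))
      (cq_cl ha hb))
  rcases f1 with rfl | rfl <;> rcases f2 with rfl | rfl
  · exact key _ _ (Or.inr rfl) (Or.inr rfl) fun x hx => by rw [mem_cq] at hx; simp; tauto
  · exact key _ _ (Or.inr rfl) (Or.inl rfl) fun x hx => by rw [mem_cq] at hx; simp; tauto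
  · exact key _ _ (Or.inl rfl) (Or.inr rfl) fun x hx => by rw [mem_cq] at hx; simp; tauto
  · exact key _ _ (Or.inl rfl) (Or.inl rfl) fun x hx => by rw [mem_cq] at hx; simp; tauto

end Spi

end Pool.Agent.P.MP_3f5ded_co.UG
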