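import Pool.Agent.P.MP_3f5ded_co.EPB

set_option autoImplicit false

namespace Pool.Agent.P.MP_3f5ded_co.UG

open Finset

namespace PM
variable {W : Type} {k : ℕ} {r : ℝ} {Fe : W → W → Prop} {P : PM W k r Fe} {Q : Finset W}
  {X Y : W → ℤ} {c c' z0 z1 z2 : W} {C : W → W → ℝ}

/-- The model represents the colouring `C`. -/
def Rep (P : PM W k r Fe) (C : W → W → ℝ) : Prop := ∀ x n, Cg r (C x (P.it x n)) (P.F x n)

lemma Rep.shift (h : P.Rep C) (a : ℤ) : (P.shift a).Rep C := fun x _ => h x _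

lemma Rep.relift (h : P.Rep C) (j : W → ℤ) : (P.relift j).Rep C := fun x n =>
  (h x _).trans ⟨j x, by simp only [PM.relift]; ring⟩

lemma Rep.rev (h : P.Rep C) : P.rev.Rep fun x y => -C x y := fun x _ => (h x _).neg

lemma Cut.addZ (h : P.Cut X) (j : ℤ) : P.Cut fun x => X x + j * k := fun x y n n' a b => by
  have := h x y (n - j * k) (n' - j * k) (by simp only at a; omega) (by simp only at b; omega)
  have e1 := P.T_perZ x (n - j * k) j
  have e2 := P.T_perZ y (n' - j * k) j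
  rw [sub_add_cancel] at e1 e2
  linarith

/-- The moment just after a step is the first moment at which the step is past. -/
lemma cut_after' (P : PM W k r Fe) (x : W) (n : ℤ) : ∃ X, P.Cut X ∧ X x = n + 1 ∧
    (∀ y, ¬ Fe x y → P.it x n = y → X y = n + (k + 1) * P.sh x y + 1) ∧
    ∀ X', P.Cut X' → n < X' x → ∀ y, X y ≤ X' y := by
  obtain ⟨X, h1, h2⟩ := P.exists_after (P.T x n)
  have key : ∀ y m, P.T y m = P.T x n → X y = m + 1 := fun y m e => by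
    have a := (h2 y m).2 e.le
    have b := (h2 y (m + 1)).not.2 (by rw [← e]; exact not_le.2 (P.T_mono y (by omega)))
    omega
  refine ⟨X, h1, key x n rfl, fun y h e => key y _ (P.T_co h e), fun X' g a y => ?_⟩
  by_contra b
  exact absurd ((h2 y _).1 (not_le.1 b)) (not_le.2 (g x y _ _ a le_rfl))

/-- Lemma C for the previous step. -/
lemma Cut.miss' (h : P.Cut X) (hc : P.it c (X c - 1) ∉ Q) {L : ℤ}
    (d : (k : ℤ) + 1 ∣ L - (X c - 1)) (hL : ∀ x ∈ Q, X x ≤ L + k ∧ L < X x + k) :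
    ¬ P.Has Q c L := by
  rintro ⟨y, hy, fy, e'⟩
  have cy : y ≠ c := fun g => P.ne y L (e'.trans g.symm)
  have fy' : ¬ Fe c y := fun g => fy (P.sym _ _ g)
  obtain ⟨m, m1, m2, f⟩ := P.win cy (X c)
  have h2 := h.win fy' f m1 m2
  have h3 : m ≠ X c - 1 + k := fun g => hc (by rw [← P.it_add, ← g, f]; exact hy)
  obtain ⟨i, hi⟩ := (P.inj y _ _).1 (e'.trans (P.it_co fy' f).symm)
  obtain ⟨j, hj⟩ := d
  have h4 := hL y hy
  exact Fl.arith (k := k) (t := m - (X c - 1)) (w := P.sh c y - j) (i := i) (by omega) (by omega)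
    (by rw [← hi]; linarith) (by omega) (by omega)

open Classical in
/-- The mirror image: labels `l ↦ k - 2 - l`, indices `n ↦ -3 - n`. -/
noncomputable def mir (P : PM W k r Fe) (Q : Finset W) : PM W k r Fe :=
  (P.rev.shift (2 - k)).relift fun w => if w ∈ Q then 0 else 1

lemma Rep.mir (h : P.Rep C) : (P.mir Q).Rep fun x y => -C x y := (h.rev.shift _).relift _

lemma mir_it {w : W} (hw : w ∈ Q) (l : ℤ) : (P.mir Q).it w l = P.it w (k - 2 - l) := by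
  simp only [mir, relift, shift, rev, if_pos hw]; congr 1; ring

lemma mir_it' {w : W} (hw : w ∉ Q) (l : ℤ) : (P.mir Q).it w l = P.it w (-3 - l) := by
  simp only [mir, relift, shift, rev, if_neg hw]; congr 1; ring

lemma mir_has {l : ℤ} : (P.mir Q).Has Q c l ↔ P.Has Q c (k - 2 - l) :=
  exists_congr fun x => and_congr_right fun hx => by rw [mir_it hx]

/-- The normalised frame: two edges between centres are consecutive at `z0`; `Y` is the moment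
after the first one, `X` the moment before the second one. -/
structure N (P : PM W k r Fe) (Q : Finset W) (z0 z1 z2 : W) (Y X : W → ℤ) : Prop where
  fl : P.Fl Q
  cy : P.Cut Y
  cx : P.Cut X
  le : ∀ w, Y w ≤ X w
  i1 : P.it z0 (-2) = z1
  i2 : P.it z0 (-1) = z2
  s1 : P.sh z0 z1 = 0
  s2 : P.sh z0 z2 = 0
  y0 : Y z0 = -1
  y1 : Y z1 = -1
  x0 : X z0 = -1
  x2 : X z2 = -1
  lo : ∀ w ∈ Q, 0 ≤ Y w
  hi : ∀ w ∈ Q, X w < k

lemma N.mir (m : P.N Q z0 z1 z2 Y X) (n0 : z0 ∉ Q) (n1 : z1 ∉ Q) (n2 : z2 ∉ Q) :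
    ∃ Y' X', (P.mir Q).N Q z0 z2 z1 Y' X' := by
  classical
  refine ⟨_, _, (m.fl.rev.shift _).relift fun x hx => if_pos hx, (m.cx.rev.shift _).relift _,
    (m.cy.rev.shift _).relift _, fun w => by have := m.le w; omega, by rw [mir_it' n0]; exact m.i2,
    by rw [mir_it' n0]; exact m.i1, ?_, ?_, ?_, ?_, ?_, ?_, fun w hw => ?_, fun w hw => ?_⟩
  · simp [PM.mir, relift, shift, rev, n0, n2, m.s2]
  · simp [PM.mir, relift, shift, rev, n0, n1, m.s1]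
  · simp only [if_neg n0, m.x0]; ring
  · simp only [if_neg n2, m.x2]; ring
  · simp only [if_neg n0, m.y0]; ring
  · simp only [if_neg n1, m.y1]; ring
  · have := m.hi w hw; simp only [if_pos hw]; omega
  · have := m.lo w hw; simp only [if_pos hw]; omega

/-- `L` is an image label of the edge `c c'`. -/
def Img (P : PM W k r Fe) (Q : Finset W) (c c' : W) (L : ℤ) (X : W → ℤ) : Prop :=
  P.Cut X ∧ P.it c (X c) = c' ∧ X c' = X c + (k + 1) * P.sh c c' ∧ (k : ℤ) + 1 ∣ L - X c ∧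
    ∀ x ∈ Q, X x ≤ L + k ∧ L < X x + k

lemma Img.symm {L : ℤ} (h : P.Img Q c c' L X) (f : ¬ Fe c c') : P.Img Q c' c L X := by
  obtain ⟨h1, h2, h3, h4, h5⟩ := h
  refine ⟨h1, by rw [h3, P.it_co f h2], ?_, ?_, h5⟩
  · rw [P.sh_neg f (h2 ▸ P.ne c _), h3]; ring
  · rw [h3, ← sub_sub]; exact h4.sub (dvd_mul_right _ _)

lemma Img.per {L : ℤ} (h : P.Img Q c c' L X) (j : ℤ) :
    P.Img Q c c' (L + j * k) fun x => X x + j * k := by
  obtain ⟨h1, h2, h3, h4, h5⟩ := h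
  exact ⟨h1.addZ j, ((P.inj c _ _).2 (by simp)).symm.trans h2, by simp only [h3]; ring,
    by simpa using h4, fun x hx => by have := h5 x hx; simp only; omega⟩

lemma Fl.exists_Img (q : P.Fl Q) (hQ : Q.Nonempty) (e : c' ≠ c) (f : ¬ Fe c c') (a : ℤ) :
    ∃ L X, P.Img Q c c' L X ∧ a ≤ X c ∧ X c < a + k := by
  obtain ⟨n, n1, n2, hn⟩ := P.win e a
  obtain ⟨X, h, a, b⟩ := P.cut_before c n
  obtain ⟨L, d, hL⟩ := q.exists_img h hQ n
  exact ⟨L, X, ⟨h, a ▸ hn, a ▸ b c' f hn, a ▸ d, hL⟩, by omega, by omega⟩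

lemma Img.miss {L : ℤ} (h : P.Img Q c c' L X) (hc' : c' ∉ Q) : ¬ P.Has Q c L :=
  h.1.miss (Or.inl (h.2.1 ▸ hc')) h.2.2.2.1 h.2.2.2.2

/-- Consecutive edges with fitting images give the normalised frame. -/
lemma Img.toN (q : P.Fl Q) {L : ℤ} (h1 : P.Img Q z0 z1 L Y) (h2 : P.Img Q z0 z2 (L - k) X)
    (e : X z0 = Y z0 + 1) (n0 : z0 ∉ Q) (n1 : z1 ∉ Q) (n2 : z2 ∉ Q) (f : ¬ Fe z0 z1) :
    ∃ (P' : PM W k r Fe) (Y X : W → ℤ), (∀ C, P.Rep C → P'.Rep C) ∧ P'.N Q z0 z1 z2 Y X := by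
  classical
  obtain ⟨c1, e1, -, ⟨a, d⟩, w1⟩ := h1
  obtain ⟨c2, e2, x2, -, w2⟩ := h2
  obtain ⟨Z, cz, a0, a1, mn⟩ := P.cut_after' z0 (Y z0)
  replace a1 := a1 z1 f e1
  have l1 := c1.le cz (x := z0) (by omega)
  have l2 := mn X c2 (by omega)
  let j : W → ℤ := fun x => if x ∈ Q then 0 else if x = z0 then 1 - a else P.sh z0 x + (1 - a)
  have j0 : ∀ x ∈ Q, j x = 0 := fun x hx => if_pos hx
  have jq : j z0 = 1 - a := by simp [j, n0]
  have jp : j z1 = P.sh z0 z1 + (1 - a) := by simp [j, n1, e1 ▸ P.ne z0 _]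
  have jz : j z2 = P.sh z0 z2 + (1 - a) := by simp [j, n2, e2 ▸ P.ne z0 _]
  refine ⟨(P.shift (L - (k - 1))).relift j, _, _, fun C h => (h.shift _).relift j,
    (q.shift _).relift j0, (cz.shift _).relift j, (c2.shift _).relift j,
    fun w => by have := l2 w; omega, ?_, ?_, ?_, ?_, ?_, ?_, ?_, ?_, fun x hx => ?_, fun x hx => ?_⟩
  · rw [← e1]; simp only [PM.relift, PM.shift, jq]; congr 1; linear_combination d
  · rw [← e2]; simp only [PM.relift, PM.shift, jq]; congr 1; linear_combination d - e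
  · simp only [PM.relift, PM.shift, jq, jp]; ring
  · simp only [PM.relift, PM.shift, jq, jz]; ring
  · simp only [a0, jq]; linear_combination -d
  · simp only [a1, jp]; linear_combination -d
  · simp only [e, jq]; linear_combination -d
  · simp only [x2, e, jz]; linear_combination -d
  · have := w1 x hx; have := l1 x; simp only [j0 x hx]; omega
  · have := w2 x hx; simp only [j0 x hx]; omega

/-- Two edges at a centre with the same label are consecutive. -/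
lemma Img.norm (q : P.Fl Q) (hQ : Q.Nonempty) (hk : 12 ≤ k) {L1 L2 : ℤ} (h1 : P.Img Q z0 z1 L1 Y)
    (h2 : P.Img Q z0 z2 L2 X) (d : (k : ℤ) ∣ L2 - L1) (n0 : z0 ∉ Q) (n1 : z1 ∉ Q) (n2 : z2 ∉ Q)
    (f1 : ¬ Fe z0 z1) (f2 : ¬ Fe z0 z2) (ne : z1 ≠ z2) :
    ∃ (P' : PM W k r Fe) (Y X : W → ℤ), (∀ C, P.Rep C → P'.Rep C) ∧
      (P'.N Q z0 z1 z2 Y X ∨ P'.N Q z0 z2 z1 Y X) := by
  have hk' : (0 : ℤ) < k := by omega
  have m0 := Int.emod_nonneg (X z0 - Y z0) hk'.ne'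
  have m1 := Int.emod_lt_of_pos (X z0 - Y z0) hk'
  have m2 := Int.emod_add_mul_ediv (X z0 - Y z0) k
  have g := h2.per (-((X z0 - Y z0) / k))
  have d' : (k : ℤ) ∣ L2 + -((X z0 - Y z0) / k) * k - L1 := by
    rw [add_sub_right_comm]; exact d.add (dvd_mul_left _ _)
  have t0 : Y z0 ≤ X z0 + -((X z0 - Y z0) / k) * k := by linarith
  have t1 : X z0 + -((X z0 - Y z0) / k) * k < Y z0 + k := by linarith
  generalize L2 + -((X z0 - Y z0) / k) * k = L at g d'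
  obtain ⟨Z, g, t0, t1⟩ : ∃ Z, P.Img Q z0 z2 L Z ∧ Y z0 ≤ Z z0 ∧ Z z0 < Y z0 + k := ⟨_, g, t0, t1⟩
  have t2 : Y z0 ≠ Z z0 := fun e => ne (by rw [← h1.2.1, e, g.2.1])
  obtain ⟨j, hj⟩ := d'
  obtain ⟨w, hw⟩ := hQ
  have b1 := h1.1.le g.1 (x := z0) (by omega) w
  have b2 := g.1.le h1.1.add (x := z0) t1 w
  have b3 := h1.2.2.2.2 w hw
  have b4 := g.2.2.2.2 w hw
  have j1 : -2 < j := by nlinarith
  have j2 : j < 3 := by nlinarith
  obtain ⟨i, hi⟩ : (k : ℤ) + 1 ∣ j + (Z z0 - Y z0) := by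
    have := ((h1.2.2.2.1.sub g.2.2.2.1).add (dvd_mul_right ((k : ℤ) + 1) j))
    rwa [show L1 - Y z0 - (L - Z z0) + (k + 1) * j = j + (Z z0 - Y z0) by
      linear_combination -hj] at this
  have i1 : -1 < i := by nlinarith
  have i2 : i < 2 := by nlinarith
  rcases (show i = 0 ∨ i = 1 by omega) with rfl | rfl
  · obtain rfl : j = -1 := by omega
    obtain ⟨P', Y', X', a, b⟩ := h1.toN q (by rwa [show L1 - k = L by omega]) (by omega) n0 n1 n2 f1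
    exact ⟨P', Y', X', a, Or.inl b⟩
  · obtain rfl : j = 2 := by omega
    obtain ⟨P', Y', X', a, b⟩ := (g.per (-1)).toN q (by rwa [show L + -1 * k - k = L1 by omega])
      (by omega) n0 n2 n1 f2
    exact ⟨P', Y', X', a, Or.inr b⟩

variable [Fintype W] {Pt : Finset (W × W)}

lemma mir_dfc (l : ℤ) : (P.mir Q).dfc Q l = P.dfc Q (k - 2 - l) := by
  classical
  unfold dfc
  congr 2
  · exact filter_congr fun c _ => by rw [mir_has]
  · exact filter_congr fun x hx => by rw [mir_it hx]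

/-- Three pairwise adjacent centres. -/
structure D1 (k : ℕ) (Fe : W → W → Prop) (Q : Finset W) (Pt : Finset (W × W)) (z0 z1 z2 : W) :
    Prop where
  sz : Sz k Fe Q Pt
  few : 2 * Pt.card + 2 ≤ k
  sym : ∀ x y, Fe x y → Fe y x
  out : ∀ y, y ∉ Q ↔ y = z0 ∨ y = z1 ∨ y = z2
  n01 : z0 ≠ z1
  n02 : z0 ≠ z2
  n12 : z1 ≠ z2
  e01 : ¬ Fe z0 z1
  e02 : ¬ Fe z0 z2
  e12 : ¬ Fe z1 z2

namespace D1
variable (d : D1 k Fe Q Pt z0 z1 z2)
include d

lemma o0 : z0 ∉ Q := (d.out _).2 (by simp)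
lemma o1 : z1 ∉ Q := (d.out _).2 (by simp)
lemma o2 : z2 ∉ Q := (d.out _).2 (by simp)

lemma sw : D1 k Fe Q Pt z0 z2 z1 :=
  ⟨d.sz, d.few, d.sym, fun y => by rw [d.out]; tauto, d.n02, d.n01, d.n12.symm, d.e02, d.e01,
    fun f => d.e12 (d.sym _ _ f)⟩

lemma sw' : D1 k Fe Q Pt z1 z0 z2 :=
  ⟨d.sz, d.few, d.sym, fun y => by rw [d.out]; tauto, d.n01.symm, d.n12, d.n02,
    fun f => d.e01 (d.sym _ _ f), d.e12, d.e02⟩

lemma two (fl : P.Fl Q) {l l' : ℤ} (h : ¬ (k : ℤ) ∣ l' - l) : P.dfc Q l + P.dfc Q l' ≤ 6 := by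
  have := fl.two d.sz h
  have := d.few
  omega

/-- Three labels in one period. -/
lemma three (fl : P.Fl Q) (a : ℤ) {l1 l2 l3 : ℤ} (h1 : a ≤ l1 ∧ l1 < a + k) (h2 : a ≤ l2 ∧ l2 < a + k)
    (h3 : a ≤ l3 ∧ l3 < a + k) (e12 : l1 ≠ l2) (e13 : l1 ≠ l3) (e23 : l2 ≠ l3) :
    P.dfc Q l1 + P.dfc Q l2 + P.dfc Q l3 ≤ 7 := by
  have h := fl.dfc_sum d.sz.pt a
  have a1 : l1 ∈ Ico a (a + k) := mem_Ico.2 h1
  have a2 : l2 ∈ (Ico a (a + k)).erase l1 := mem_erase.2 ⟨e12.symm, mem_Ico.2 h2⟩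
  have a3 : l3 ∈ ((Ico a (a + k)).erase l1).erase l2 :=
    mem_erase.2 ⟨e23.symm, mem_erase.2 ⟨e13.symm, mem_Ico.2 h3⟩⟩
  rw [← add_sum_erase _ _ a1, ← add_sum_erase _ _ a2, ← add_sum_erase _ _ a3, d.sz.three] at h
  have g := card_nsmul_le_sum ((((Ico a (a + k)).erase l1).erase l2).erase l3)
    (fun i => P.dfc Q i) 1 fun i _ => (fl.odd d.sz i).pos
  rw [card_erase_of_mem a3, card_erase_of_mem a2, card_erase_of_mem a1, Int.card_Ico] at g
  simp only [add_sub_cancel_left, Int.toNat_natCast, smul_eq_mul] at g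
  have := d.sz.cardQ
  have := d.sz.big
  have := d.few
  omega

lemma img (fl : P.Fl Q) {L : ℤ} (h : P.Img Q z0 z1 L X) : 3 ≤ P.dfc Q L :=
  fl.common d.sz h.1 d.o0 d.o1 d.e01 h.2.1 h.2.2.1 h.2.2.2.1 h.2.2.2.2

/-- The normalised frame exists. -/
theorem exists_N (fl : P.Fl Q) : ∃ (P' : PM W k r Fe) (Y X : W → ℤ), (∀ C, P.Rep C → P'.Rep C) ∧
    ((P'.N Q z0 z1 z2 Y X ∨ P'.N Q z0 z2 z1 Y X) ∨ (P'.N Q z1 z0 z2 Y X ∨ P'.N Q z1 z2 z0 Y X) ∨
      (P'.N Q z2 z0 z1 Y X ∨ P'.N Q z2 z1 z0 Y X)) := by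
  have hk := d.sz.big
  have hk' : (0 : ℤ) < k := by omega
  obtain ⟨L1, X1, h1, -⟩ := fl.exists_Img d.sz.ne d.n01.symm d.e01 0
  obtain ⟨L2, X2, h2, -⟩ := fl.exists_Img d.sz.ne d.n02.symm d.e02 0
  obtain ⟨L3, X3, h3, -⟩ := fl.exists_Img d.sz.ne d.n12.symm d.e12 0
  by_cases a : (k : ℤ) ∣ L2 - L1
  · obtain ⟨P', Y, X, u, v⟩ := h1.norm fl d.sz.ne hk h2 a d.o0 d.o1 d.o2 d.e01 d.e02 d.n12
    exact ⟨P', Y, X, u, Or.inl v⟩
  by_cases b : (k : ℤ) ∣ L3 - L1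
  · obtain ⟨P', Y, X, u, v⟩ := (h1.symm d.e01).norm fl d.sz.ne hk h3 b d.o1 d.o0 d.o2 d.sw'.e01
      d.e12 d.n02
    exact ⟨P', Y, X, u, Or.inr (Or.inl v)⟩
  by_cases c : (k : ℤ) ∣ L3 - L2
  · obtain ⟨P', Y, X, u, v⟩ := (h2.symm d.e02).norm fl d.sz.ne hk (h3.symm d.e12) c d.o2 d.o0 d.o1
      d.sw.sw'.e01 d.sw.e12 d.n01
    exact ⟨P', Y, X, u, Or.inr (Or.inr v)⟩
  have e : ∀ L : ℤ, P.dfc Q (L % k) = P.dfc Q L := fun L =>
    dfc_per ⟨L / k, by have := Int.emod_add_mul_ediv L k; linarith⟩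
  have w : ∀ L : ℤ, 0 ≤ L % k ∧ L % k < 0 + k := fun L =>
    ⟨Int.emod_nonneg L hk'.ne', by simpa using Int.emod_lt_of_pos L hk'⟩
  have := d.three fl 0 (w L1) (w L2) (w L3) (fun g => a (Int.ModEq.dvd g)) (fun g => b (Int.ModEq.dvd g))
    fun g => c (Int.ModEq.dvd g)
  rw [e, e, e] at this
  have := d.img fl h1
  have := d.sw.img fl h2
  have := d.sw'.sw.img fl h3
  omega

end D1

end PM

end Pool.Agent.P.MP_3f5ded_co.UG
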