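import Pool.Agent.P.MP_3f5ded_co.ES0

set_option autoImplicit false

namespace Pool.Agent.P.MP_3f5ded_co.UG

open Finset

namespace PM
variable {W : Type} {k : ℕ} {r : ℝ} {Fe : W → W → Prop} {P : PM W k r Fe} {Q : Finset W}
  {X Y : W → ℤ} {z0 z1 z2 x y c p q u v : W} [Fintype W] {Pt : Finset (W × W)}

namespace N
variable (m : P.N Q z0 z1 z2 Y X) (d : D1 k Fe Q Pt z0 z1 z2)
include m d

omit d [Fintype W] in
lemma rngX : ∀ w ∈ Q, 0 ≤ X w ∧ X w < k := fun w hw =>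
  ⟨(m.lo w hw).trans (m.le w), m.hi w hw⟩

omit d [Fintype W] in
lemma rngY : ∀ w ∈ Q, 0 ≤ Y w ∧ Y w < k := fun w hw =>
  ⟨m.lo w hw, (m.le w).trans_lt (m.hi w hw)⟩

lemma j1 : P.it z1 (-2) = z0 := by simpa [m.s1] using P.it_co d.e01 m.i1

lemma j2 : P.it z2 (-1) = z0 := by simpa [m.s2] using P.it_co d.e02 m.i2

lemma imgY {L : ℤ} (h : (k : ℤ) + 1 ∣ L + 2) (w : ∀ x ∈ Q, Y x ≤ L + k ∧ L < Y x + k) :
    ¬ P.Has Q z0 L ∧ ¬ P.Has Q z1 L :=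
  ⟨m.cy.miss' (by rw [m.y0]; exact m.i1 ▸ d.o1) (by rw [m.y0]; simpa using h) w,
    m.cy.miss' (by rw [m.y1]; exact m.j1 d ▸ d.o0) (by rw [m.y1]; simpa using h) w⟩

lemma imgX {L : ℤ} (h : (k : ℤ) + 1 ∣ L + 1) (w : ∀ x ∈ Q, X x ≤ L + k ∧ L < X x + k) :
    ¬ P.Has Q z0 L ∧ ¬ P.Has Q z2 L :=
  ⟨m.cx.miss (Or.inl (by rw [m.x0]; exact m.i2 ▸ d.o2)) (by rw [m.x0]; simpa using h) w,
    m.cx.miss (Or.inl (by rw [m.x2]; exact m.j2 d ▸ d.o0)) (by rw [m.x2]; simpa using h) w⟩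

omit m in
lemma big (fl : P.Fl Q) {l : ℤ} (h : 2 ≤ P.dfc Q l) : 3 ≤ P.dfc Q l := by
  have := Nat.odd_iff.1 (fl.odd d.sz l)
  omega

lemma lam : ¬ P.Has Q z0 (-1) ∧ ¬ P.Has Q z1 (-1) ∧ ¬ P.Has Q z2 (-1) := by
  have a := m.imgX d (L := -1) (by simp) fun x hx => by have := m.rngX x hx; omega
  have b := m.imgY d (L := k - 1) ⟨1, by ring⟩ fun x hx => by have := m.rngY x hx; omega
  exact ⟨a.1, fun h => b.2 (h.per (by simp)), a.2⟩

lemma lam3 : 3 ≤ P.dfc Q (-1) :=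
  big d m.fl (two_le_dfc d.o0 d.o1 d.n01 (m.lam d).1 (m.lam d).2.1)

/-- No third label has three defects. -/
lemma third {l l' : ℤ} (h1 : 0 ≤ l) (h2 : l + 2 ≤ k) (h3 : 0 ≤ l') (h4 : l' + 2 ≤ k) (e : l ≠ l')
    (h : 2 ≤ P.dfc Q l) : P.dfc Q l' ≤ 1 := by
  have := d.three m.fl (-1) (l1 := -1) (l2 := l) (l3 := l') (by omega) (by omega) (by omega)
    (by omega) (by omega) e
  have := m.lam3 d
  have := big d m.fl h
  omega

lemma le3 {l : ℤ} (h1 : 0 ≤ l) (h2 : l + 2 ≤ k) : P.dfc Q l ≤ 3 := by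
  have := d.two m.fl (l := -1) (l' := l) (not_dvd (by omega) (by omega))
  have := m.lam3 d
  omega

lemma exu (h : P.dfc Q (k - 2) ≤ 1) : ∃ u ∈ Q, k ≤ Y u + 1 := by
  by_contra c
  push Not at c
  have a := m.imgY d (L := -2) (by simp) fun x hx => by have := c x hx; have := m.lo x hx; omega
  have := two_le_dfc d.o0 d.o1 d.n01 a.1 a.2
  rw [dfc_per (l' := k - 2) (by simp)] at this
  omega

lemma exv (h : P.dfc Q 0 ≤ 1) : ∃ v ∈ Q, X v ≤ 0 := by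
  by_contra c
  push Not at c
  have a := m.imgX d (L := k) (dvd_refl _) fun x hx => by have := c x hx; have := m.hi x hx; omega
  have := two_le_dfc d.o0 d.o2 d.n02 a.1 a.2
  rw [dfc_per (l' := 0) (by simp)] at this
  omega

lemma m0 (hu : u ∈ Q) (yu : k ≤ Y u + 1) (hv : v ∈ Q) (xv : X v ≤ 0) : P.M0 Q z1 z0 z2 u v X :=
  ⟨d.sz.big, m.fl, d.sw'.out, d.n01.symm, d.n12, d.n02, m.cx, m.x0, m.x2, m.y1 ▸ m.le z1, m.j1 d, m.i1,
    m.i2, m.j2 d, m.rngX, hv, hu, by have := m.rngX v hv; omega,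
    by have := m.hi u hu; have := m.le u; omega⟩

/-- The third edge between centres. -/
lemma mu : ∃ μ : ℤ, 0 ≤ μ ∧ μ + 2 ≤ k ∧ ¬ P.Has Q z1 μ ∧ ¬ P.Has Q z2 μ ∧
    (μ = 0 → ∀ u ∈ Q, k ≤ Y u + 1 → P.it z2 0 = z1 ∧ P.sh z2 z1 = 0 ∧ Fe z1 (P.it z1 (-1)) ∧
      ∃ Z, P.Cut Z ∧ Z z2 = 0 ∧ Z z1 = 0 ∧ (∀ w, X w ≤ Z w) ∧ ∀ w ∈ Q, Z w ≤ k) := by
  have hk := d.sz.big
  obtain ⟨L, Z, h, n1, n2⟩ := m.fl.exists_Img d.sz.ne d.n12 d.sw.e12 (-1)
  have m2 := h.miss d.o1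
  have m1 := (h.symm d.sw.e12).miss d.o2
  have e1 := (h.symm d.sw.e12).2.1
  obtain ⟨cz, e2, z1', ⟨a, ha⟩, w⟩ := h
  have n3 : Z z2 ≠ -1 := fun e => d.n01 (by rw [← m.j2 d, ← e, e2])
  have x2 := m.x2
  have l1 := m.cx.le cz (x := z2) (by omega)
  have l2 := cz.le m.cx.add (x := z2) (by omega)
  have b1 : X z1 ≤ k - 2 := by
    have := (m.cx.side (n := -2 + k) d.e01 (by rw [P.it_add, m.i1])).not.1 (by have := m.x0; omega)
    rw [m.s1] at this; omega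
  have b2 := m.le z1
  have b3 := l1 z1
  have b4 := l2 z1
  have y1 := m.y1
  have s1 : -1 < P.sh z2 z1 := by nlinarith
  have s2 : P.sh z2 z1 < 2 := by nlinarith
  have n4 : Z z2 ≠ k - 2 := fun e => by
    have s3 : P.sh z2 z1 < 1 := by nlinarith
    rw [show Z z1 = -2 + k by rw [z1', show P.sh z2 z1 = 0 by omega]; omega, P.it_add, m.j1 d] at e1
    exact d.n02 e1
  obtain ⟨w0, hw⟩ := d.sz.ne
  have c1 := w w0 hw
  have c2 := m.rngX w0 hw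
  have c3 := l1 w0
  have c4 := l2 w0
  have a1 : -2 < a := by nlinarith
  have a2 : a < 3 := by nlinarith
  have dv : (k : ℤ) ∣ L - (Z z2 + a) := ⟨a, by linear_combination ha⟩
  refine ⟨Z z2 + a, ?_, ?_, fun g => m1 (g.per dv), fun g => m2 (g.per dv), fun e u hu yu => ?_⟩
  · rcases (show a = -1 ∨ 0 ≤ a by omega) with rfl | g <;> omega
  · rcases (show a = 2 ∨ a ≤ 1 by omega) with rfl | g <;> omega
  have f1 := w u hu
  have f2 := l1 u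
  have f3 := m.le u
  have a0 : a = 0 := by rcases (show a = -1 ∨ 0 ≤ a by omega) with rfl | g <;> omega
  subst a0
  have z0' : Z z2 = 0 := by omega
  have s0 : P.sh z2 z1 = 0 := by
    by_contra g
    have := m.cy.add.le cz (x := z1) (by rw [z1', show P.sh z2 z1 = 1 by omega]; omega) u
    omega
  rw [s0] at z1'
  refine ⟨z0' ▸ e2, s0, ?_, Z, cz, z0', by omega, l1, fun x hx => by have := w x hx; omega⟩
  by_contra f
  have o : P.it z1 (-1) ∈ Q := by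
    by_contra o
    rcases (d.out _).1 o with g | g | g
    · have := P.uniq (g.trans (m.j1 d).symm) (by omega) (by omega); omega
    · exact P.ne _ _ g
    · have := P.uniq (g.trans e1.symm) (by omega) (by omega); omega
  rcases m.cy.ty m.rngY y1 le_rfl (by omega) o f with g | g
  · have := g.zero m.cy
    have := m.lo _ o
    omega
  · exact m1 (Has.per ⟨_, o, fun t => f (P.sym _ _ t), (g.one m.cy).1⟩ ⟨0, by omega⟩)

end N

omit [Fintype W] in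
lemma M0.past (m : P.M0 Q z1 z0 z2 u v X) {w : W} (hw : w ∈ Q) (wu : w ≠ u) (wv : w ≠ v) :
    ∃ l, 0 ≤ l ∧ l < X w ∧ P.it u l = w := by
  obtain ⟨l, g1, g2, -, g⟩ := m.fl.past m.cut m.hv m.hu m.uv (by have := m.xv; have := m.xu; omega)
    hw wu wv
  exact ⟨l, m.xv ▸ g1, g2, g⟩

omit [Fintype W] in
lemma M0.fut (m : P.M0 Q z1 z0 z2 u v X) {w : W} (hw : w ∈ Q) (wu : w ≠ u) (wv : w ≠ v) :
    ∃ l, X w ≤ l ∧ l + 2 ≤ k ∧ P.it v l = w := by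
  obtain ⟨l, -, g2, g3, g⟩ := m.fl.fut m.cut m.hv m.hu m.uv (by have := m.xv; have := m.xu; omega)
    hw wu wv
  exact ⟨l, g2, by have := m.xu; omega, g⟩

/-- Case II, the common part. -/
lemma M1.two (m : P.M1 Q z1 p z0 z2 u v X) (xp : X z1 = -1) (fx : Fe p z1) (fc : Fe p c)
    (h : (y = z0 ∧ c = z2) ∨ (y = z2 ∧ c = z0)) : ¬ P.Has Q y 1 ∧ Fe v (P.it v 1) := by
  have hk := m.hk
  have xv := m.xv
  have xu := m.xu
  have key : v = p ∧ ∀ w ∈ Q, X w ≤ 1 → w = v := by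
    by_cases hA : ∃ n : ℤ, -1 ≤ n ∧ n + 3 ≤ k ∧ P.Ty Q 0 z1 n
    · obtain ⟨i, v2, i1, -, -, vp, x2, g, -⟩ := m.second xp hA
      refine ⟨vp, fun w hw xw => ?_⟩
      by_contra wv
      obtain ⟨l, g1, g2, e⟩ := m.past hw (fun e => by rw [e] at xw; omega) wv
      rw [show l = 0 by omega, g] at e
      rw [e] at x2; omega
    have B : ∀ w ∈ Q, w ≠ p → ∃ l, 0 ≤ l ∧ l < X w ∧ P.it w l = z1 := fun w hw e => by
      obtain ⟨n, n1, n2, g, f | f⟩ := m.key xp hw e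
      · exact absurd ⟨n, n1, n2, f⟩ hA
      have := f.one m.cut
      rw [g] at this
      exact ⟨n + 1, by omega, by omega, this.1⟩
    have vp : v = p := by
      by_contra e
      obtain ⟨l, g1, g2, -⟩ := B v m.hv e
      omega
    refine ⟨vp, fun w hw xw => ?_⟩
    by_contra wv
    obtain ⟨l, g1, g2, e⟩ := m.past hw (fun e => by rw [e] at xw; omega) wv
    obtain ⟨l', f1, f2, f⟩ := B w hw (vp ▸ wv)
    have := m.fl.it m.hu hw e
    rw [show l = l' by omega, f] at this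
    exact m.np (this ▸ m.hu)
  obtain ⟨rfl, no1⟩ := key
  obtain ⟨-, c', hc, A, e1, e2⟩ := m.lab0'
  have cy : c' = y := by
    have : c' ≠ c := fun e => A.2.1 (by rw [e1, e]; exact P.sym _ _ fc)
    rcases h with ⟨rfl, rfl⟩ | ⟨rfl, rfl⟩ <;> tauto
  subst cy
  have ne : P.it v 1 ≠ c' := fun e => by
    have := P.uniq (e.trans e2.symm) (by omega) (by omega); omega
  have xc : X c' = -1 := by rcases hc with rfl | rfl; exacts [m.xq, m.xz]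
  constructor
  · intro g
    rcases m.cut.has m.rng xc (by omega) (by omega) g with ⟨-, g⟩ | g
    · have g' := g.zero m.cut
      rw [no1 _ g.1 (by omega)] at g'
      exact ne g'.1
    · have := A.ne g; omega
  · have o : P.it v 1 ∉ Q := fun g => P.ne v 1
      (no1 _ g (not_lt.1 ((m.fl.side m.cut m.hv g rfl).not.1 (by omega))))
    rcases (m.out _).1 o with e | e | e
    · exact e ▸ fx
    all_goals rcases h with ⟨rfl, rfl⟩ | ⟨rfl, rfl⟩ <;> first | exact absurd e ne | exact e ▸ fc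

open Classical in
lemma four_le_dfc (d : D1 k Fe Q Pt z0 z1 z2) {l : ℤ} (a : ¬ P.Has Q z0 l) (b : ¬ P.Has Q z1 l)
    (c : ¬ P.Has Q z2 l) (hv : v ∈ Q) (f : Fe v (P.it v l)) : 4 ≤ P.dfc Q l := by
  refine Nat.add_le_add (two_lt_card_iff.2 ⟨z0, z1, z2, ?_, ?_, ?_, d.n01, d.n02, d.n12⟩)
    (card_pos.2 ⟨v, by simp [hv, f]⟩)
  exacts [by simp [d.o0, a], by simp [d.o1, b], by simp [d.o2, c]]

open Classical in
/-- The spider seen from the true clique. -/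
structure Sp (k : ℕ) (Fe : W → W → Prop) (Q : Finset W) (x y c p q : W) : Prop where
  hp : p ∈ Q
  hq : q ∈ Q
  pq : p ≠ q
  fx : ∀ w, Fe w x ↔ w = p
  fy : ∀ w, Fe w y ↔ w = q
  fp : Fe p c
  fq : Fe q c
  few : 2 * (Q.filter fun w => Fe w c).card + 6 ≤ k

omit [Fintype W] in
lemma Sp.sw (s : Sp k Fe Q x y c p q) : Sp k Fe Q y x c q p :=
  ⟨s.hq, s.hp, s.pq.symm, s.fy, s.fx, s.fq, s.fp, s.few⟩

namespace N
variable (m : P.N Q z0 z1 z2 Y X) (d : D1 k Fe Q Pt z0 z1 z2)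
include m d

lemma twoA (h0 : P.dfc Q 0 ≤ 1) (h2 : P.dfc Q (k - 2) ≤ 1) (s : Sp k Fe Q z1 y c p q)
    (h : (y = z0 ∧ c = z2) ∨ (y = z2 ∧ c = z0)) : ¬ P.Has Q y 1 ∧ ∃ v ∈ Q, Fe v (P.it v 1) := by
  obtain ⟨u, hu, yu⟩ := m.exu d h2
  obtain ⟨v, hv, xv⟩ := m.exv d h0
  have M : P.M1 Q z1 p z0 z2 u v X :=
    ⟨m.m0 d hu yu hv xv, h0, fun w f => Or.inr ((s.fx w).1 (P.sym _ _ f))⟩
  have := M.two (M.xp m.cy m.y1 m.lo yu) ((s.fx p).2 rfl) s.fp h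
  exact ⟨this.1, v, hv, this.2⟩

lemma twoB (h0 : P.dfc Q 0 ≤ 1) (h2 : P.dfc Q (k - 2) ≤ 1) (s : Sp k Fe Q z1 z0 z2 p q) :
    False := by
  have hk := d.sz.big
  obtain ⟨a, v, hv, f⟩ := m.twoA d h0 h2 s (Or.inl ⟨rfl, rfl⟩)
  obtain ⟨μ, m1, m2, b, c, -⟩ := m.mu d
  by_cases e : μ = 1
  · subst e
    have := four_le_dfc d a b c hv f
    have := m.le3 d (l := 1) (by omega) (by omega)
    omega
  · have := m.third d m1 m2 (l' := 1) (by omega) (by omega) e (two_le_dfc d.o1 d.o2 d.n12 b c)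
    have := two_le_dfc' d.o0 a hv f
    omega

/-- Case II does not occur. -/
theorem two (h0 : P.dfc Q 0 ≤ 1) (h2 : P.dfc Q (k - 2) ≤ 1)
    (s : Sp k Fe Q z1 z0 z2 p q ∨ Sp k Fe Q z2 z0 z1 p q ∨ Sp k Fe Q z1 z2 z0 p q) : False := by
  have hk := d.sz.big
  obtain ⟨Y', X', m'⟩ := m.mir d.o0 d.o1 d.o2
  have g0 : (P.mir Q).dfc Q 0 ≤ 1 := by rwa [mir_dfc, sub_zero]
  have g2 : (P.mir Q).dfc Q (k - 2) ≤ 1 := by rwa [mir_dfc, sub_self]
  rcases s with s | s | s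
  · exact m.twoB d h0 h2 s
  · exact m'.twoB d.sw g0 g2 s
  obtain ⟨a, v, hv, f⟩ := m.twoA d h0 h2 s (Or.inr ⟨rfl, rfl⟩)
  obtain ⟨a', v', hv', f'⟩ := m'.twoA d.sw g0 g2 s.sw (Or.inr ⟨rfl, rfl⟩)
  have := two_le_dfc' d.o1 a' hv' f'
  rw [mir_dfc] at this
  have := m.third d (l := 1) (l' := k - 2 - 1) (by omega) (by omega) (by omega) (by omega) (by omega)
    (two_le_dfc' d.o2 a hv f)
  omega

end N

end PM

end Pool.Agent.P.MP_3f5ded_co.UG
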