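import Pool.Agent.P.MP_3f5ded_co.ES1

set_option autoImplicit false

namespace Pool.Agent.P.MP_3f5ded_co.UG

open Finset

namespace PM
variable {W : Type} {k : ℕ} {r : ℝ} {Fe : W → W → Prop} {P : PM W k r Fe} {Q : Finset W}
  {X Y : W → ℤ} {z0 z1 z2 x y c p q s u v w : W} {n l : ℤ}

/-- A centre with one port never has a low edge after a high edge. -/
lemma Fl.noBA (fl : P.Fl Q) (hk : 12 ≤ k) {lo hi : ℤ}
    (tri : ∀ n, lo ≤ n → n ≤ hi → P.Ty Q 0 c n ∨ P.Ty Q 1 c n ∨ P.it c n = p) {n n' : ℤ}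
    (h0 : lo ≤ n) (h1 : n < n') (h2 : n' ≤ hi) (B : P.Ty Q 1 c n) : ¬ P.Ty Q 0 c n' := by
  have key : ∀ d : ℕ, ∀ n : ℤ, n' - n ≤ d → lo ≤ n → n < n' → P.Ty Q 1 c n → ¬ P.Ty Q 0 c n' := by
    intro d
    induction d with
    | zero => intro n a _ b; omega
    | succ d ih =>
      intro n a h0 b B A
      have j := fl.jump' B A b
      rcases tri (n + 1) (by omega) (by omega) with e | e | e
      · have := fl.jump' B e (by omega); omega
      · exact ih _ (by omega) (by omega) (by omega) e A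
      rcases tri (n + 2) (by omega) (by omega) with e' | e' | e'
      · have := fl.jump' B e' (by omega); omega
      · exact ih _ (by omega) (by omega) (by omega) e' A
      · have := P.uniq (e.trans e'.symm) (by omega) (by omega); omega
  exact key _ n (Int.self_le_toNat _) h0 h1 B

/-- A centre whose window is `[-1, k - 2]`. -/
structure Cen (P : PM W k r Fe) (Q : Finset W) (X : W → ℤ) (c : W) : Prop where
  out : c ∉ Q
  cut : P.Cut X
  lo : -1 ≤ X c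
  hi : X c ≤ 0
  ex : ∃ Z, P.Cut Z ∧ (∀ w ∈ Q, 0 ≤ Z w ∧ Z w < k) ∧ Z c = -1

namespace Cen
variable (h : P.Cen Q X c)
include h

lemma tA (a : P.Ty Q 0 c n) (h0 : 0 ≤ n) : P.it (P.it c n) n = c ∧ X (P.it c n) ≤ n := by
  have := a.zero h.cut
  have := h.hi
  exact ⟨by tauto, by omega⟩

lemma tB (a : P.Ty Q 1 c n) (h0 : n + 2 ≤ k) :
    P.it (P.it c n) (n + 1) = c ∧ n + 1 < X (P.it c n) := by
  have := a.one h.cut
  have := h.lo
  exact ⟨by tauto, by omega⟩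

lemma has (h1 : 0 ≤ l) (h2 : l < k) (g : P.Has Q c l) : P.Ty Q 0 c l ∨ P.Ty Q 1 c (l - 1) := by
  obtain ⟨Z, a, b, e⟩ := h.ex
  exact (a.has b e h1 h2 g).imp_left And.right

lemma ty (h1 : -1 ≤ n) (h2 : n + 2 ≤ k) (hx : P.it c n ∈ Q) (f : ¬ Fe c (P.it c n)) :
    P.Ty Q 0 c n ∨ P.Ty Q 1 c n := by
  obtain ⟨Z, a, b, e⟩ := h.ex
  exact a.ty b e h1 h2 hx f

lemma adj (hw : w ∈ Q) (f : ¬ Fe w c) : ∃ n : ℤ, -1 ≤ n ∧ n + 2 ≤ k ∧ P.it c n = w ∧
    (P.Ty Q 0 c n ∨ P.Ty Q 1 c n) := by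
  obtain ⟨n, n1, n2, e⟩ := P.win (x := c) (y := w) (fun g => h.out (g ▸ hw)) (-1)
  exact ⟨n, n1, by omega, e, h.ty n1 (by omega) (e ▸ hw) (e ▸ fun g => f (P.sym _ _ g))⟩

lemma hasA (a : P.Ty Q 0 c n) : P.Has Q c n :=
  ⟨_, a.1, fun t => a.2.1 (P.sym _ _ t), (a.zero h.cut).1⟩

lemma hasB (a : P.Ty Q 1 c n) : P.Has Q c (n + 1) :=
  ⟨_, a.1, fun t => a.2.1 (P.sym _ _ t), (a.one h.cut).1⟩

end Cen

variable [Fintype W] {Pt : Finset (W × W)}

/-- Cases I and III: the third edge has index `0`. -/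
structure C0 (P : PM W k r Fe) (Q : Finset W) (z0 z1 z2 u : W) (Y X : W → ℤ) : Prop
    extends P.N Q z0 z1 z2 Y X where
  hu : u ∈ Q
  yu : k ≤ Y u + 1
  e3 : P.it z2 0 = z1
  s3 : P.sh z2 z1 = 0
  port : Fe z1 (P.it z1 (-1))
  miss1 : ¬ P.Has Q z1 0
  miss2 : ¬ P.Has Q z2 0
  one : ∀ l : ℤ, 1 ≤ l → l + 2 ≤ k → P.dfc Q l ≤ 1
  z : ∃ Z, P.Cut Z ∧ Z z2 = 0 ∧ Z z1 = 0 ∧ (∀ w, X w ≤ Z w) ∧ ∀ w ∈ Q, Z w ≤ k

lemma N.c0 (m : P.N Q z0 z1 z2 Y X) (d : D1 k Fe Q Pt z0 z1 z2) (h0 : 2 ≤ P.dfc Q 0)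
    (h2 : P.dfc Q (k - 2) ≤ 1) : ∃ u, P.C0 Q z0 z1 z2 u Y X := by
  have hk := d.sz.big
  obtain ⟨u, hu, yu⟩ := m.exu d h2
  obtain ⟨μ, m1, m2, b, c, e⟩ := m.mu d
  have one : ∀ l : ℤ, 1 ≤ l → l + 2 ≤ k → P.dfc Q l ≤ 1 := fun l a b =>
    m.third d le_rfl (by omega) (by omega) b (by omega) h0
  obtain rfl : μ = 0 := by
    by_contra g
    have := one μ (by omega) m2
    have := two_le_dfc d.o1 d.o2 d.n12 b c
    omega
  obtain ⟨f1, f2, f3, f4⟩ := e rfl u hu yu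
  exact ⟨u, m, hu, yu, f1, f2, f3, b, c, one, f4⟩

namespace C0
variable (m : P.C0 Q z0 z1 z2 u Y X) (d : D1 k Fe Q Pt z0 z1 z2)
include m d

lemma e3' : P.it z1 0 = z2 := by simpa [m.s3] using P.it_co d.sw.e12 m.e3

lemma c0 : P.Cen Q X z0 := ⟨d.o0, m.cx, m.x0.ge, by rw [m.x0]; omega, X, m.cx, m.rngX, m.x0⟩

lemma c2 : P.Cen Q X z2 := ⟨d.o2, m.cx, m.x2.ge, by rw [m.x2]; omega, X, m.cx, m.rngX, m.x2⟩

lemma c1 : P.Cen Q X z1 := by
  refine ⟨d.o1, m.cx, m.y1 ▸ m.le z1, ?_, Y, m.cy, m.rngY, m.y1⟩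
  simpa [m.s3] using (m.cx.side d.sw.e12 m.e3).not.1 (by rw [m.x2]; omega)

omit d in
lemma xu : X u + 1 = k := by
  have := m.hi u m.hu; have := m.le u; have := m.yu; omega

lemma tri0 (f : ∀ w, Fe w z0 ↔ w = p) (n : ℤ) (h1 : 0 ≤ n) (h2 : n ≤ k - 3) :
    P.Ty Q 0 z0 n ∨ P.Ty Q 1 z0 n ∨ P.it z0 n = p := by
  by_cases g : Fe z0 (P.it z0 n)
  · exact Or.inr (Or.inr ((f _).1 (P.sym _ _ g)))
  refine ((m.c0 d).ty (by omega) (by omega) ?_ g).imp_right Or.inl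
  by_contra a
  rcases (d.out _).1 a with e | e | e
  · exact P.ne _ _ e
  · have := P.uniq (e.trans m.i1.symm) (by omega) (by omega); omega
  · have := P.uniq (e.trans m.i2.symm) (by omega) (by omega); omega

lemma in2 (h1 : 1 ≤ n) (h2 : n ≤ k - 2) : P.it z2 n ∈ Q := by
  by_contra a
  rcases (d.out _).1 a with e | e | e
  · have := P.uniq (e.trans (m.j2 d).symm) (by omega) (by omega); omega
  · have := P.uniq (e.trans m.e3.symm) (by omega) (by omega); omega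
  · exact P.ne _ _ e

lemma tri2 (f : ∀ w, Fe w z2 ↔ w = p) (n : ℤ) (h1 : 1 ≤ n) (h2 : n ≤ k - 2) :
    P.Ty Q 0 z2 n ∨ P.Ty Q 1 z2 n ∨ P.it z2 n = p := by
  by_cases g : Fe z2 (P.it z2 n)
  · exact Or.inr (Or.inr ((f _).1 (P.sym _ _ g)))
  exact ((m.c2 d).ty (by omega) (by omega) (m.in2 d h1 h2) g).imp_right Or.inl

lemma tri1 (f : ∀ w, Fe w z1 ↔ w = p) (n : ℤ) (h1 : 1 ≤ n) (h2 : n ≤ k - 3) :
    P.Ty Q 0 z1 n ∨ P.Ty Q 1 z1 n := by
  refine (m.c1 d).ty (by omega) (by omega) ?_ fun g => ?_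
  · by_contra a
    rcases (d.out _).1 a with e | e | e
    · have := P.uniq (e.trans (m.j1 d).symm) (by omega) (by omega); omega
    · exact P.ne _ _ e
    · have := P.uniq (e.trans (m.e3' d).symm) (by omega) (by omega); omega
  · have := P.uniq (((f _).1 (P.sym _ _ g)).trans ((f _).1 (P.sym _ _ m.port)).symm) (by omega)
      (by omega)
    omega

/-- Indices of the edges from the centres to `Q`. -/
lemma idx0 {s : ℤ} (h1 : -1 ≤ n) (h2 : n + 2 ≤ k) (a : P.Ty Q s z0 n) : 0 ≤ n ∧ n + 3 ≤ k := by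
  have b : n ≠ -1 := fun e => d.o2 (by rw [← m.i2, ← e]; exact a.1)
  have c : n ≠ -2 + k := fun e => d.o1 (by rw [← m.i1, ← P.it_add, ← e]; exact a.1)
  omega

lemma idx1 {s : ℤ} (h1 : -1 ≤ n) (h2 : n + 2 ≤ k) (a : P.Ty Q s z1 n) : 1 ≤ n ∧ n + 3 ≤ k := by
  have b : n ≠ -1 := fun e => a.2.1 (e ▸ m.port)
  have b' : n ≠ 0 := fun e => d.o2 (by rw [← m.e3' d, ← e]; exact a.1)
  have c : n ≠ -2 + k := fun e => d.o0 (by rw [← m.j1 d, ← P.it_add, ← e]; exact a.1)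
  omega

lemma idx2 {s : ℤ} (h1 : -1 ≤ n) (a : P.Ty Q s z2 n) : 1 ≤ n := by
  have b : n ≠ -1 := fun e => d.o0 (by rw [← m.j2 d, ← e]; exact a.1)
  have b' : n ≠ 0 := fun e => d.o1 (by rw [← m.e3, ← e]; exact a.1)
  omega

/-- The level `k - 1` is a perfect matching of `Q`. -/
lemma mid (hw : w ∈ Q) : P.it w (k - 1) ∈ Q := by
  by_contra o
  have e : P.it w (k - 1) = P.it w (-1) := (P.inj w _ _).2 ⟨-1, by ring⟩
  rw [e] at o
  obtain ⟨a, b, c⟩ := m.lam d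
  by_cases f : Fe w (P.it w (-1))
  · have := four_le_dfc d a b c hw f
    have := d.two m.fl (l := -1) (l' := 0) (not_dvd (by omega) (by have := d.sz.big; omega))
    have := N.big d m.fl (two_le_dfc d.o1 d.o2 d.n12 m.miss1 m.miss2)
    omega
  rcases (d.out _).1 o with g | g | g
  exacts [a ⟨w, hw, g ▸ f, g⟩, b ⟨w, hw, g ▸ f, g⟩, c ⟨w, hw, g ▸ f, g⟩]

end C0

/-- Case I. -/
structure C1 (P : PM W k r Fe) (Q : Finset W) (z0 z1 z2 u v : W) (Y X : W → ℤ) : Prop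
    extends P.C0 Q z0 z1 z2 u Y X where
  hv : v ∈ Q
  xv : X v = 0

namespace C1
variable (m : P.C1 Q z0 z1 z2 u v Y X) (d : D1 k Fe Q Pt z0 z1 z2)
include m d

lemma M : P.M0 Q z1 z0 z2 u v X := m.m0 d m.hu m.yu m.hv m.xv.le

lemma v0 : P.Ty Q 0 z0 0 ∧ P.it z0 0 = v := by
  have hk := d.sz.big
  by_cases h : P.Has Q z0 0
  · rcases (m.c0 d).has le_rfl (by omega) h with a | a
    · exact ⟨a, (m.M d).bot a.1 ((m.c0 d).tA a le_rfl).2⟩
    · have := m.idx0 d (by omega) (by omega) a; omega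
  have o : P.it v 0 ∉ Q := fun g => P.ne v 0 ((m.M d).bot g
    (not_lt.1 ((m.fl.side m.cx m.hv g rfl).not.1 (by rw [m.xv]; omega))))
  by_cases f : Fe v (P.it v 0)
  · have := four_le_dfc d h m.miss1 m.miss2 m.hv f
    have := m.le3 d (l := 0) le_rfl (by omega)
    omega
  rcases (d.out _).1 o with g | g | g
  exacts [absurd ⟨v, m.hv, g ▸ f, g⟩ h, absurd ⟨v, m.hv, g ▸ f, g⟩ m.miss1,
    absurd ⟨v, m.hv, g ▸ f, g⟩ m.miss2]

lemma topB (hc : P.Cen Q X c) (b : P.Ty Q 1 c (k - 3)) : P.it c (k - 3) = u ∧ P.it u (k - 2) = c := by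
  have g := hc.tB b (by omega)
  have e := (m.M d).top b.1 (by omega)
  rw [e, show (k : ℤ) - 3 + 1 = k - 2 by ring] at g
  exact ⟨e, g.1⟩

/-- The label `k - 2`. -/
lemma lab2 : P.Ty Q 0 z2 (k - 2) ∧ ((P.Ty Q 1 z0 (k - 3) ∧ ¬ P.Has Q z1 (k - 2)) ∨
    (P.Ty Q 1 z1 (k - 3) ∧ ¬ P.Has Q z0 (k - 2))) := by
  have hk := d.sz.big
  have o := m.one (k - 2) (by omega) (by omega)
  have e : (k : ℤ) - 2 - 1 = k - 3 := by ring
  have k0 : P.Has Q z0 (k - 2) → P.Ty Q 1 z0 (k - 3) := fun h =>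
    e ▸ ((m.c0 d).has (by omega) (by omega) h).resolve_left fun a => by
      have := m.idx0 d (by omega) (by omega) a; omega
  have k1 : P.Has Q z1 (k - 2) → P.Ty Q 1 z1 (k - 3) := fun h =>
    e ▸ ((m.c1 d).has (by omega) (by omega) h).resolve_left fun a => by
      have := m.idx1 d (by omega) (by omega) a; omega
  have k2 : P.it u (k - 2) ≠ z2 → P.Has Q z2 (k - 2) → P.Ty Q 0 z2 (k - 2) := fun g h =>
    ((m.c2 d).has (by omega) (by omega) h).resolve_right fun a => g (m.topB d (m.c2 d) (e ▸ a)).2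
  by_cases h : P.Has Q z0 (k - 2)
  · have g := (m.topB d (m.c0 d) (k0 h)).2
    have h1 : ¬ P.Has Q z1 (k - 2) := fun a => d.n01 (g.symm.trans (m.topB d (m.c1 d) (k1 a)).2)
    exact ⟨k2 (g ▸ d.n02) (has_of_one o d.o1 d.o2 d.n12 h1), Or.inl ⟨k0 h, h1⟩⟩
  · have b := k1 (has_of_one o d.o0 d.o1 d.n01 h)
    exact ⟨k2 ((m.topB d (m.c1 d) b).2 ▸ d.n12) (has_of_one o d.o0 d.o2 d.n02 h), Or.inr ⟨b, h⟩⟩

lemma at2 (hw : w ∈ Q) (wu : w ≠ u) (xw : k ≤ X w + 2) : P.it v (k - 2) = w := by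
  have hk := d.sz.big
  obtain ⟨l, l1, l2, e⟩ := (m.M d).fut hw wu fun e => by rw [e, m.xv] at xw; omega
  rwa [show (k : ℤ) - 2 = l by omega]

/-- An owner cannot be the top particle. -/
lemma kill (hs : P.Cen Q X s) (b : P.Ty Q 1 s (k - 3))
    (own : ∀ t, t ∉ Q → t = s ∨ Fe u t)
    (no : ∀ w ∈ Q, w ≠ u → k ≤ X w + 2 → P.it w (k - 3) ∉ Q ∧ P.it w (k - 3) ≠ s) : False := by
  have hk := d.sz.big
  have xu := m.xu
  obtain ⟨e1, e2⟩ := m.topB d hs b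
  have o : P.it u (k - 3) ∉ Q := fun g => by
    have := (m.fl.side m.cx m.hu g rfl).1 (by omega)
    exact (no _ g (P.ne u _) (by omega)).1 (by rw [m.fl.it m.hu g rfl]; exact m.hu)
  have f := (own _ o).resolve_left fun e => by
    have := P.uniq (e.trans e2.symm) (by omega) (by omega); omega
  rcases hs.has (by omega) (by omega)
    (has_of_port (m.one (k - 3) (by omega) (by omega)) hs.out m.hu f) with a | a
  · have := a.ne b; omega
  · have g := hs.tB a (by omega)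
    rw [sub_add_cancel] at g
    refine (no _ a.1 (fun e => ?_) (by omega)).2 g.1
    have := P.uniq (e.trans e1.symm) (by omega) (by omega); omega

omit [Fintype W] m d in
lemma own (sp : Sp k Fe Q x y c p q) (h : ∀ t, t ∉ Q → t = x ∨ t = y ∨ t = c) (t : W) (ht : t ∉ Q) :
    t = y ∨ Fe p t := by
  rcases h t ht with e | e | e
  exacts [Or.inr (e ▸ (sp.fx p).2 rfl), Or.inl e, Or.inr (e ▸ sp.fp)]

/-- The centre `z2` is not a thin one. -/
theorem not_two (sp : Sp k Fe Q z2 y c p q) (h : (y = z0 ∧ c = z1) ∨ (y = z1 ∧ c = z0)) : False := by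
  have hk := d.sz.big
  have xu := m.xu
  obtain ⟨A, l2⟩ := m.lab2 d
  have allA : ∀ w ∈ Q, w ≠ p → ∃ n, X w ≤ n ∧ n + 2 ≤ k ∧ P.it w n = z2 := fun w hw e => by
    obtain ⟨n, n1, n2, g, a | a⟩ := (m.c2 d).adj hw fun f => e ((sp.fx w).1 f)
    · have := (m.c2 d).tA a (by have := m.idx2 d n1 a; omega)
      rw [g] at this
      exact ⟨n, this.2, n2, this.1⟩
    · have : n ≠ k - 2 := fun e => by have := (e ▸ a).ne A; omega
      exact absurd A (m.fl.noBA hk (m.tri2 d sp.fx) (m.idx2 d n1 a) (by omega) le_rfl a)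
  have up : u = p := by
    by_contra e
    obtain ⟨n, n1, n2, -⟩ := allA u m.hu e
    omega
  have no : ∀ w ∈ Q, w ≠ u → k ≤ X w + 2 → False := fun w hw wu xw => by
    obtain ⟨n, n1, n2, e⟩ := allA w hw (up ▸ wu)
    have := m.fl.it m.hv hw (m.at2 d hw wu xw)
    rw [show (k : ℤ) - 2 = n by omega, e] at this
    exact d.o2 (this ▸ m.hv)
  have ow := own sp fun t ht => by
    have := (d.out t).1 ht
    rcases h with ⟨rfl, rfl⟩ | ⟨rfl, rfl⟩ <;> tauto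
  rw [← up] at ow
  have fin : ∀ s, P.Cen Q X s → P.Ty Q 1 s (k - 3) → False := fun s hs b => by
    have e := (m.topB d hs b).1
    have sy := (ow s hs.out).resolve_right fun f => b.2.1 (e ▸ P.sym _ _ f)
    exact m.kill d hs b (sy ▸ ow) fun w hw wu xw => (no w hw wu xw).elim
  exact l2.elim (fun a => fin _ (m.c0 d) a.1) fun a => fin _ (m.c1 d) a.1

lemma uq (sp : Sp k Fe Q z0 z1 z2 p q) : u ≠ q := fun uq => by
  have hk := d.sz.big
  rcases (m.lab2 d).2 with ⟨b, h⟩ | ⟨b, -⟩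
  swap
  · exact b.2.1 (by rw [(m.topB d (m.c1 d) b).1]; exact P.sym _ _ ((sp.fy u).2 uq))
  have A : P.Ty Q 0 z1 (k - 3) := (m.tri1 d sp.fy _ (by omega) le_rfl).resolve_right fun a =>
    h (by have := (m.c1 d).hasB a; rwa [show (k : ℤ) - 3 + 1 = k - 2 by ring] at this)
  refine m.kill d (m.c0 d) b (uq ▸ own sp.sw fun t ht => by have := (d.out t).1 ht; tauto)
    fun w hw wu xw => False.elim ?_
  obtain ⟨n, n1, n2, g, a | a⟩ := (m.c1 d).adj hw fun f => wu (((sp.fy w).1 f).trans uq.symm)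
  · have i := m.idx1 d n1 n2 a
    have := (m.c1 d).tA a (by omega)
    rw [g] at this; omega
  · have i := m.idx1 d n1 n2 a
    have : n ≠ k - 3 := fun e => by have := (e ▸ a).ne A; omega
    exact m.fl.noBA (p := p) hk (fun n a b => (m.tri1 d sp.fy n a b).imp_right Or.inl) i.1 (by omega)
      le_rfl a A

/-- A high edge of `z0` forces its port to the last index. -/
lemma port0 (f : ∀ w, Fe w z0 ↔ w = p) (h : ¬ P.Has Q z0 (k - 2)) (n1 : 0 ≤ n) (n2 : n + 3 ≤ k)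
    (a : P.Ty Q 1 z0 n) : P.it z0 (k - 3) = p ∧ P.Ty Q 1 z0 (k - 4) := by
  have hk := d.sz.big
  have nB : ¬ P.Ty Q 1 z0 (k - 3) := fun a =>
    h (by have := (m.c0 d).hasB a; rwa [show (k : ℤ) - 3 + 1 = k - 2 by ring] at this)
  have : n ≠ k - 3 := fun e => nB (e ▸ a)
  have e : P.it z0 (k - 3) = p := by
    rcases m.tri0 d f (k - 3) (by omega) le_rfl with g | g | g
    exacts [absurd g (m.fl.noBA hk (m.tri0 d f) n1 (by omega) le_rfl a), absurd g nB, g]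
  refine ⟨e, ?_⟩
  rcases m.tri0 d f (k - 4) (by omega) (by omega) with g | g | g
  · have : n ≠ k - 4 := fun e => by have := (e ▸ a).ne g; omega
    exact absurd g (m.fl.noBA hk (m.tri0 d f) n1 (by omega) (by omega) a)
  · exact g
  · have := P.uniq (g.trans e.symm) (by omega) (by omega); omega

lemma up (sp : Sp k Fe Q z0 z1 z2 p q) : u ≠ p := fun up => by
  have hk := d.sz.big
  rcases (m.lab2 d).2 with ⟨b, -⟩ | ⟨b, h⟩
  · exact b.2.1 (by rw [(m.topB d (m.c0 d) b).1]; exact P.sym _ _ ((sp.fx u).2 up))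
  refine m.kill d (m.c1 d) b (up ▸ own sp fun t ht => (d.out t).1 ht) fun w hw wu xw => ?_
  obtain ⟨n, n1, n2, g, a | a⟩ := (m.c0 d).adj hw fun f => wu (((sp.fx w).1 f).trans up.symm)
  · have i := m.idx0 d n1 n2 a
    have := (m.c0 d).tA a (by omega)
    rw [g] at this; omega
  have i := m.idx0 d n1 n2 a
  have B := (m.port0 d sp.fx h i.1 i.2 a).2
  have g := (m.c0 d).tB B (by omega)
  have e := m.at2 d B.1 (fun e => B.2.1 (by rw [e]; exact P.sym _ _ ((sp.fx u).2 up))) (by omega)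
  rw [← e, m.at2 d hw wu xw, show (k : ℤ) - 4 + 1 = k - 3 by ring] at g
  rw [g.1]
  exact ⟨d.o0, d.n01⟩

end C1

/-- The words of the two thin centres in case I. -/
structure W1 (P : PM W k r Fe) (Q : Finset W) (x y c p q u v : W) (Y X : W → ℤ) (a b : ℤ) : Prop
    extends P.C1 Q x y c u v Y X where
  sp : Sp k Fe Q x y c p q
  up : u ≠ p
  uq : u ≠ q
  a1 : 1 ≤ a
  ak : a + 4 ≤ k
  b1 : 1 ≤ b
  bk : b + 3 ≤ k
  xA : ∀ n, 0 ≤ n → n < a → P.Ty Q 0 x n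
  xB : ∀ n, a ≤ n → n + 4 ≤ k → P.Ty Q 1 x n
  xp : P.it x (k - 3) = p
  yA : ∀ n, 1 ≤ n → n < b → P.Ty Q 0 y n
  yB : ∀ n, b ≤ n → n + 3 ≤ k → P.Ty Q 1 y n
  cA : P.Ty Q 0 c (k - 2)

omit [Fintype W] in
lemma Fl.word (fl : P.Fl Q) (hk : 12 ≤ k) {lo hi : ℤ} (h : lo ≤ hi)
    (tri : ∀ n, lo ≤ n → n ≤ hi → P.Ty Q 0 c n ∨ P.Ty Q 1 c n) (B : P.Ty Q 1 c hi) :
    ∃ a, lo ≤ a ∧ a ≤ hi ∧ (∀ n, lo ≤ n → n < a → P.Ty Q 0 c n) ∧
      ∀ n, a ≤ n → n ≤ hi → P.Ty Q 1 c n := by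
  obtain ⟨a, ⟨a1, a2, b⟩, mn⟩ := Int.exists_least_of_bdd (P := fun n => lo ≤ n ∧ n ≤ hi ∧ P.Ty Q 1 c n)
    ⟨lo, fun n h => h.1⟩ ⟨hi, h, le_rfl, B⟩
  refine ⟨a, a1, a2, fun n n1 n2 => (tri n n1 (by omega)).resolve_right fun g => ?_,
    fun n n1 n2 => (tri n (by omega) n2).resolve_left fun g => ?_⟩
  · have := mn n ⟨n1, by omega, g⟩; omega
  · have : n ≠ a := fun e => by have := (e ▸ g).ne b; omega
    exact fl.noBA (p := c) hk (fun n a b => (tri n a b).imp_right Or.inl) a1 (by omega) n2 b g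

theorem C1.words (m : P.C1 Q x y c u v Y X) (d : D1 k Fe Q Pt x y c) (sp : Sp k Fe Q x y c p q) :
    ∃ a b, P.W1 Q x y c p q u v Y X a b := by
  have hk := d.sz.big
  have xu := m.xu
  have up := m.up d sp
  have uq := m.uq d sp
  have yB : P.Ty Q 1 y (k - 3) := (m.tri1 d sp.fy _ (by omega) le_rfl).resolve_left fun A => by
    obtain ⟨n, n1, n2, g, a | a⟩ := (m.c1 d).adj m.hu fun f => uq ((sp.fy u).1 f)
    · have i := m.idx1 d n1 n2 a
      have := (m.c1 d).tA a (by omega)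
      rw [g] at this; omega
    · have i := m.idx1 d n1 n2 a
      have : n ≠ k - 3 := fun e => by have := (e ▸ a).ne A; omega
      exact m.fl.noBA (p := p) hk (fun n a b => (m.tri1 d sp.fy n a b).imp_right Or.inl) i.1
        (by omega) le_rfl a A
  have h : ¬ P.Has Q x (k - 2) := by
    rcases (m.lab2 d).2 with ⟨-, h⟩ | ⟨-, h⟩
    · exact absurd (by have := (m.c1 d).hasB yB; rwa [show (k : ℤ) - 3 + 1 = k - 2 by ring] at this) h
    · exact h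
  obtain ⟨xp, xB⟩ : P.it x (k - 3) = p ∧ P.Ty Q 1 x (k - 4) := by
    obtain ⟨n, n1, n2, g, a | a⟩ := (m.c0 d).adj m.hu fun f => up ((sp.fx u).1 f)
    · have i := m.idx0 d n1 n2 a
      have := (m.c0 d).tA a (by omega)
      rw [g] at this; omega
    · have i := m.idx0 d n1 n2 a
      exact m.port0 d sp.fx h i.1 i.2 a
  obtain ⟨a, a1, a2, a3, a4⟩ := m.fl.word hk (lo := 0) (by omega) (fun n n1 n2 => by
    rcases m.tri0 d sp.fx n n1 (by omega) with g | g | g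
    exacts [Or.inl g, Or.inr g, by have := P.uniq (g.trans xp.symm) (by omega) (by omega); omega]) xB
  obtain ⟨b, b1, b2, b3, b4⟩ := m.fl.word hk (lo := 1) (by omega) (m.tri1 d sp.fy) yB
  have : a ≠ 0 := fun e => by have := (m.v0 d).1.ne (a4 0 (by omega) (by omega)); omega
  exact ⟨a, b, m, sp, up, uq, by omega, by omega, b1, by omega, a3, fun n g g' => a4 n g (by omega),
    xp, b3, fun n g g' => b4 n g (by omega), (m.lab2 d).1⟩

end PM

end Pool.Agent.P.MP_3f5ded_co.UG
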