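import Pool.Agent.P.MP_3f5ded_co.EPM3

set_option autoImplicit false

namespace Pool.Agent.P.MP_3f5ded_co.UG

open Finset

namespace PM
variable {W : Type} {k : ℕ} {r : ℝ} {Fe : W → W → Prop} {P : PM W k r Fe} {Q : Finset W}
  {X : W → ℤ} {x y c p q : W} {a b : ℤ}

open Classical in
/-- The layout of the entries in case I. -/
structure Lay (P : PM W k r Fe) (Q : Finset W) (X : W → ℤ) (x y c p q : W) (a b : ℤ) : Prop where
  hk : 12 ≤ k
  even : Even k
  cardQ : Q.card + 2 = k
  fl : P.Fl Q
  cut : P.Cut X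
  rng : ∀ w ∈ Q, 0 ≤ X w ∧ X w < k
  out : ∀ w, w ∉ Q ↔ w = x ∨ w = y ∨ w = c
  xy : x ≠ y
  xc : x ≠ c
  yc : y ≠ c
  hp : p ∈ Q
  hq : q ∈ Q
  fx : ∀ w, Fe w x ↔ w = p
  fy : ∀ w, Fe w y ↔ w = q
  fp : Fe p c
  fq : Fe q c
  few : 2 * (Q.filter fun w => Fe w c).card + 6 ≤ k
  mid : ∀ w ∈ Q, P.it w (k - 1) ∈ Q
  a1 : 1 ≤ a
  ab : a + 2 ≤ b
  bk : b + 3 ≤ k
  xp : X p = a ∨ X p = a + 1
  xq : X q = b ∨ X q = b + 1
  xo : ∀ w ∈ Q, w ≠ p → w ≠ q → X w < a ∨ (a + 2 ≤ X w ∧ X w < b) ∨ b + 2 ≤ X w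
  inj : ∀ w ∈ Q, ∀ w' ∈ Q, X w = X w' → w = w'
  xA : ∀ w ∈ Q, X w < a → ∃ l, X w ≤ l ∧ l + 2 ≤ k ∧ P.it w l = x
  xB : ∀ w ∈ Q, a + 2 ≤ X w → ∃ l, 0 ≤ l ∧ l < X w ∧ P.it w l = x
  yA : ∀ w ∈ Q, X w < b → ∃ l, X w ≤ l ∧ l + 2 ≤ k ∧ P.it w l = y
  yB : ∀ w ∈ Q, b + 2 ≤ X w → ∃ l, 0 ≤ l ∧ l < X w ∧ P.it w l = y
  cA : ∀ w ∈ Q, ¬ Fe w c → ∃ l, X w ≤ l ∧ l + 2 ≤ k ∧ P.it w l = c

/-- The label of the item of `w` towards `z`. -/
lemma exists_lab (P : PM W k r Fe) : ∃ lab : W → W → ℤ, ∀ w z, z ≠ w →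
    0 ≤ lab w z ∧ lab w z < k ∧ P.it w (lab w z) = z ∧
      ∀ l : ℤ, 0 ≤ l → l < k → P.it w l = z → l = lab w z := by
  have : ∀ w z, ∃ n : ℤ, z ≠ w → 0 ≤ n ∧ n < k ∧ P.it w n = z := fun w z => by
    by_cases e : z = w
    · exact ⟨0, fun h => absurd e h⟩
    · obtain ⟨n, h1, h2, h3⟩ := P.win e 0
      exact ⟨n, fun _ => ⟨h1, by omega, h3⟩⟩
  choose lab h using this
  exact ⟨lab, fun w z e => ⟨(h w z e).1, (h w z e).2.1, (h w z e).2.2, fun l l0 l1 f =>
    P.uniq (f.trans (h w z e).2.2.symm) (by have := h w z e; omega) (by have := h w z e; omega)⟩⟩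

/-- Items with labels in an interval. -/
lemma card_lab {w : W} {f : W → ℤ} {S : Finset W} {i j : ℤ} (hij : i ≤ j)
    (h : ∀ z ∈ S, P.it w (f z) = z ∧ i ≤ f z ∧ f z < j) : (S.card : ℤ) ≤ j - i := by
  have := card_le_card_of_injOn (s := S) (t := Ico i j) f (fun z hz => by simpa using (h z hz).2)
    fun z hz z' hz' e => by rw [← (h z hz).1, e, (h z' hz').1]
  rw [Int.card_Ico] at this
  omega

lemma card_four [DecidableEq W] {S : Finset W} (hx : x ∉ S) (hy : y ∉ S) (hc : c ∉ S) (xy : x ≠ y) (xc : x ≠ c)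
    (yc : y ≠ c) (g : W → Prop) [DecidablePred g] :
    (((insert x (insert y (insert c S))).filter g).card : ℤ) =
      (S.filter g).card + (if g x then 1 else 0) + (if g y then 1 else 0) + if g c then 1 else 0 := by
  simp only [card_filter]
  rw [sum_insert (by simp [hx, xy, xc]), sum_insert (by simp [hy, yc]), sum_insert hc]
  push_cast
  ring

/-- The rank of an entry. -/
def rk (a b l : ℤ) : ℤ := if l ≤ a then l else if l ≤ b then l - 1 else l - 2

lemma Lay.sum_rk (m : P.Lay Q X x y c p q a b) (f : ℤ → ℤ) :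
    ∑ w ∈ Q, f (rk a b (X w)) = ∑ i ∈ range Q.card, f i := by
  have h1 := m.a1
  have h2 := m.ab
  have h3 := m.bk
  have h4 := m.cardQ
  have h5 := m.xp
  have h6 := m.xq
  have hi : Set.InjOn (fun w => (rk a b (X w)).toNat) Q := fun w hw w' hw' e => by
    have a1 := m.xo w hw
    have a2 := m.xo w' hw'
    have a3 := m.rng w hw
    have a4 := m.rng w' hw'
    refine m.inj w hw w' hw' ?_
    simp only [rk] at e
    by_cases b1 : w = p <;> by_cases b2 : w = q <;> by_cases b3 : w' = p <;> by_cases b4 : w' = q <;>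
      simp only [b1, b2, b3, b4, ne_eq, not_true_eq_false, not_false_eq_true, forall_const,
        false_imp_iff] at * <;> split_ifs at e <;> omega
  have hs : Q.image (fun w => (rk a b (X w)).toNat) = range Q.card :=
    eq_of_subset_of_card_le (image_subset_iff.2 fun w hw => by
      have := m.rng w hw
      simp only [rk, mem_range]
      split_ifs <;> omega) (by rw [card_range, card_image_of_injOn hi])
  rw [← hs, sum_image hi]
  refine sum_congr rfl fun w hw => congrArg f ?_
  have := m.rng w hw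
  simp only [rk]
  split_ifs <;> omega

lemma cut_ar {X k t A B ix iy ic d ρ : ℤ} {E G : Prop} [Decidable E] [Decidable G] {o : ℤ}
    (hE : E ↔ ρ < t) (hA : A + ix + iy + ic ≤ k - 1 - X) (hB : B + (1 - ix) + (1 - iy) + (1 - ic) ≤ X - 0)
    (hd : X = ρ + d) (h1 : ρ < t → d - 3 + ix + iy + ic + (if G then 0 else 1) ≤ o)
    (h2 : t ≤ ρ → 3 - d - ix - iy - ic + (if G then 0 else 1) ≤ o) :
    (if E then B + 1 else A) + 1 + (if G then 0 else 1) ≤
      (if E then ρ + 1 else k - 3 - ρ) + (if E then 1 else 0) + o := by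
  by_cases e : E
  · have := h1 (hE.1 e)
    simp only [e, if_true]
    omega
  · have := h2 (not_lt.1 (mt hE.2 e))
    simp only [e, if_false]
    omega

open Classical in
/-- The count behind the cut lemma. -/
lemma Lay.core (m : P.Lay Q X x y c p q a b) : ∀ w ∈ Q, (w = p → X w = a ∧ k ≤ 2 * a + 2) ∧
    (w = q → X w = b) ∧ ∀ l, X w ≤ l → l + 2 ≤ k → ¬ Fe w (P.it w l) := by
  obtain ⟨lab, hl⟩ := P.exists_lab
  obtain ⟨t, ht⟩ : ∃ t, Q.card = t + t := ⟨k / 2 - 1, by
    have := m.cardQ; have := Nat.even_iff.1 m.even; omega⟩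
  have hk := m.cardQ
  have a1 := m.a1
  have ab := m.ab
  have bk := m.bk
  have nx := (m.out x).2 (by simp)
  have ny := (m.out y).2 (by simp)
  have nc := (m.out c).2 (by simp)
  have pq : p ≠ q := fun e => by have := m.xp; have := m.xq; rw [e] at *; omega
  let E : W → Prop := fun w => rk a b (X w) < t
  let A : W → ℤ := fun w => ((Q.erase w).filter fun z => X w ≤ lab w z ∧ lab w z + 2 ≤ k).card
  let B : W → ℤ := fun w => ((Q.erase w).filter fun z => lab w z < X w).card
  have s1 : ∑ w ∈ Q, (if E w then rk a b (X w) + 1 else k - 3 - rk a b (X w)) = (t : ℤ) * t := by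
    rw [m.sum_rk fun i => if i < t then i + 1 else k - 3 - i, ht, sum_range_add, ← sum_add_distrib,
      sum_congr rfl (g := fun _ => (t : ℤ)) fun i hi => ?_]
    · simp
    · rw [mem_range] at hi
      split_ifs <;> omega
  have s2 : ∑ w ∈ Q, (if E w then 1 else 0 : ℤ) = t := by
    rw [m.sum_rk fun i => if i < t then 1 else 0, ht, sum_range_add, ← sum_add_distrib,
      sum_congr rfl (g := fun _ => (1 : ℤ)) fun i hi => ?_]
    · simp
    · rw [mem_range] at hi
      split_ifs <;> omega
  have s3 : ((Q.filter E).card : ℤ) = t := (sum_boole _ _).symm.trans s2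
  have s4 : ((Q.filter fun w => ¬ E w).card : ℤ) = t := by
    have := card_filter_add_card_filter_not (s := Q) E
    omega
  have s5 : (t : ℤ) * t ≤ ∑ w ∈ Q, if E w then B w + 1 else A w := by
    rw [sum_ite]
    calc (t : ℤ) * t = ∑ _w ∈ Q.filter E, ∑ _z ∈ Q.filter fun w => ¬ E w, (1 : ℤ) := by
          simp only [sum_const, nsmul_eq_mul, mul_one, s3, s4]
      _ ≤ ∑ w ∈ Q.filter E, ∑ z ∈ Q.filter fun w => ¬ E w,
          ((if lab w z < X w ∨ lab w z + 1 = k then 1 else 0) +
            if X z ≤ lab z w ∧ lab z w + 2 ≤ k then 1 else 0 : ℤ) := by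
          refine sum_le_sum fun w hw => sum_le_sum fun z hz => ?_
          rw [mem_filter] at hw hz
          have e : z ≠ w := fun e => hz.2 (e ▸ hw.2)
          obtain ⟨h1, h2, h3, -⟩ := hl w z e
          have h4 := (hl z w e.symm).2.2.2 _ h1 h2 (m.fl.it hw.1 hz.1 h3)
          have h5 := m.fl.side m.cut hw.1 hz.1 h3
          split_ifs <;> omega
      _ ≤ _ := by
          simp only [sum_add_distrib]
          rw [sum_comm (s := Q.filter E) (f := fun w z => if X z ≤ lab z w ∧ _ then _ else _),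
            ← sum_add_distrib]
          refine add_le_add (sum_le_sum fun w hw => ?_) (sum_le_sum fun z hz => ?_)
          · rw [mem_filter] at hw
            rw [sum_boole, filter_or]
            have h1 := card_union_le ((Q.filter fun w => ¬ E w).filter fun z => lab w z < X w)
              ((Q.filter fun w => ¬ E w).filter fun z => lab w z + 1 = k)
            have h2 : ((Q.filter fun w => ¬ E w).filter fun z => lab w z < X w).card ≤
                ((Q.erase w).filter fun z => lab w z < X w).card :=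
              card_le_card (filter_subset_filter _ fun z hz => by
                rw [mem_filter] at hz
                exact mem_erase.2 ⟨fun e => hz.2 (e ▸ hw.2), hz.1⟩)
            have h3 := card_lab (P := P) (w := w) (f := lab w) (i := k - 1) (j := k)
              (S := (Q.filter fun w => ¬ E w).filter fun z => lab w z + 1 = k) (by omega)
              fun z hz => by
                simp only [mem_filter] at hz
                have := hl w z fun e => hz.1.2 (e ▸ hw.2)
                exact ⟨this.2.2.1, by omega, by omega⟩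
            simp only [B]
            omega
          · rw [mem_filter] at hz
            rw [sum_boole]
            exact Int.ofNat_le.2 (card_le_card (filter_subset_filter _ fun w hw => by
              rw [mem_filter] at hw
              exact mem_erase.2 ⟨fun e => hz.2 (e ▸ hw.2), hw.1⟩))
  let G : W → Prop := fun w => (w = p → X w = a ∧ k ≤ 2 * a + 2) ∧
    (w = q → X w = b) ∧ ∀ l, X w ≤ l → l + 2 ≤ k → ¬ Fe w (P.it w l)
  have s6 : ∀ w ∈ Q, (if E w then B w + 1 else A w) + 1 + (if G w then 0 else 1) ≤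
      (if E w then rk a b (X w) + 1 else k - 3 - rk a b (X w)) + (if E w then 1 else 0) +
        (if Fe w c then 1 else 0) + (if p = w then 1 else 0) + if q = w then 1 else 0 := by
    intro w hw
    have r1 := m.rng w hw
    have o : ∀ z, z ∉ Q → z ≠ w := fun z hz e => hz (e ▸ hw)
    have ne : ∀ z ∈ insert x (insert y (insert c (Q.erase w))), z ≠ w := fun z hz => by
      simp only [mem_insert, mem_erase] at hz
      rcases hz with e | e | e | e
      exacts [e ▸ o x nx, e ▸ o y ny, e ▸ o c nc, e.1]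
    have f4 := card_four (S := Q.erase w) (by simp [nx]) (by simp [ny]) (by simp [nc]) m.xy m.xc m.yc
    have hA := card_lab (P := P) (w := w) (f := lab w) (i := X w) (j := k - 1)
      (S := (insert x (insert y (insert c (Q.erase w)))).filter fun z =>
        X w ≤ lab w z ∧ lab w z + 2 ≤ k) (by omega) fun z hz => by
          rw [mem_filter] at hz
          exact ⟨(hl w z (ne z hz.1)).2.2.1, hz.2.1, by omega⟩
    have hB := card_lab (P := P) (w := w) (f := lab w) (i := 0) (j := X w)
      (S := (insert x (insert y (insert c (Q.erase w)))).filter fun z => lab w z < X w) r1.1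
      fun z hz => by
        rw [mem_filter] at hz
        exact ⟨(hl w z (ne z hz.1)).2.2.1, (hl w z (ne z hz.1)).1, hz.2⟩
    rw [f4] at hA hB
    have md : ∀ z, z ∉ Q → lab w z + 2 ≤ k := fun z hz => by
      obtain ⟨h1, h2, h3, -⟩ := hl w z (o z hz)
      by_contra e
      exact hz (h3 ▸ (show (k : ℤ) - 1 = lab w z by omega) ▸ m.mid w hw)
    have lo : ∀ z, z ∉ Q → (∃ l, X w ≤ l ∧ l + 2 ≤ k ∧ P.it w l = z) → X w ≤ lab w z :=
      fun z hz ⟨l, h1, h2, h3⟩ => (hl w z (o z hz)).2.2.2 l (by omega) (by omega) h3 ▸ h1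
    have hi : ∀ z, z ∉ Q → (∃ l, 0 ≤ l ∧ l < X w ∧ P.it w l = z) → lab w z < X w :=
      fun z hz ⟨l, h1, h2, h3⟩ => (hl w z (o z hz)).2.2.2 l h1 (by omega) h3 ▸ h2
    have x1 := fun e => lo x nx (m.xA w hw e)
    have x2 := fun e => hi x nx (m.xB w hw e)
    have y1 := fun e => lo y ny (m.yA w hw e)
    have y2 := fun e => hi y ny (m.yB w hw e)
    have c1 := fun e => lo c nc (m.cA w hw e)
    have ind : ∀ z, z ∉ Q → ∃ i : ℤ, (if X w ≤ lab w z ∧ lab w z + 2 ≤ k then 1 else 0) = i ∧
        (if lab w z < X w then 1 else 0) = 1 - i ∧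
          (X w ≤ lab w z ∧ i = 1 ∨ lab w z < X w ∧ i = 0) := fun z hz => by
      have := md z hz
      exact ⟨_, rfl, by split_ifs <;> omega, by split_ifs <;> omega⟩
    obtain ⟨ix, i1, i2, i3⟩ := ind x nx
    obtain ⟨iy, j1, j2, j3⟩ := ind y ny
    obtain ⟨ic, l1, l2, l3⟩ := ind c nc
    rw [i1, j1, l1] at hA
    rw [i2, j2, l2] at hB
    clear i1 i2 j1 j2 l1 l2
    have hr : (X w ≤ a ∧ rk a b (X w) = X w) ∨ (a < X w ∧ X w ≤ b ∧ rk a b (X w) = X w - 1) ∨
        (b < X w ∧ rk a b (X w) = X w - 2) := by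
      simp only [rk]
      split_ifs <;> omega
    have g : ¬ G w → (w = p ∧ (X w ≠ a ∨ 2 * a + 2 < k ∨ X w ≤ lab w x)) ∨
        (w = q ∧ (X w ≠ b ∨ X w ≤ lab w y)) ∨ (Fe w c ∧ X w ≤ lab w c) := fun g => by
      by_contra! e
      refine g ⟨fun f => ⟨(e.1 f).1, (e.1 f).2.1⟩, fun f => (e.2.1 f).1, fun l h1 h2 f => ?_⟩
      have h3 := fun z hz => (hl w z (o z hz)).2.2.2 l (by omega) (by omega)
      rcases (m.out _).1 fun d => m.fl.cl w hw _ d f with d | d | d
      · have := (e.1 ((m.fx w).1 (d ▸ f))).2.2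
        have := h3 x nx d
        omega
      · have := (e.2.1 ((m.fy w).1 (d ▸ f))).2
        have := h3 y ny d
        omega
      · have := e.2.2 (d ▸ f)
        have := h3 c nc d
        omega
    change A w + _ + _ + _ ≤ _ at hA
    change B w + _ + _ + _ ≤ _ at hB
    rw [add_assoc (_ + _), add_assoc (_ + _), ← add_assoc (ite (Fe w c) _ _)]
    refine cut_ar (d := X w - rk a b (X w)) Iff.rfl hA hB (by ring) ?_ ?_ <;> clear hA hB
    all_goals
      intro e4
      by_cases wp : p = w
      · have := wp ▸ m.xp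
        have wq : q ≠ w := fun e => pq (wp.trans e.symm)
        rw [if_pos wp, if_neg wq, if_pos (wp ▸ m.fp : Fe w c)]
        simp only [wp, wq.symm, wp ▸ m.fp, true_and, false_and, false_or] at g
        split_ifs with gw
        · omega
        · have := g gw
          omega
      by_cases wq : q = w
      · have := wq ▸ m.xq
        rw [if_pos wq, if_neg wp, if_pos (wq ▸ m.fq : Fe w c)]
        simp only [wq, Ne.symm wp, wq ▸ m.fq, true_and, false_and, false_or] at g
        split_ifs with gw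
        · omega
        · have := g gw
          omega
      · have := m.xo w hw (Ne.symm wp) (Ne.symm wq)
        rw [if_neg wq, if_neg wp]
        simp only [Ne.symm wp, Ne.symm wq, false_and, false_or] at g
        split_ifs with gw fc fc
        · omega
        · have := c1 fc
          omega
        · have := (g gw).2
          omega
        · exact absurd (g gw).1 fc
  have s7 := sum_le_sum s6
  simp only [sum_add_distrib, s1, s2, sum_ite_eq, m.hp, m.hq, if_true, sum_const, nsmul_eq_mul,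
    mul_one] at s7
  rw [sum_boole] at s7
  have s8 := m.few
  intro w hw
  by_contra g
  have := single_le_sum (f := fun w => if G w then (0 : ℤ) else 1)
    (fun w _ => by split_ifs <;> omega) hw
  rw [if_neg g] at this
  omega

/-- The cut lemma: the owners enter early and no port is low. -/
theorem Lay.cut_lemma (m : P.Lay Q X x y c p q a b) :
    X p = a ∧ X q = b ∧ ∀ w ∈ Q, ∀ l, X w ≤ l → l + 2 ≤ k → ¬ Fe w (P.it w l) :=
  ⟨((m.core p m.hp).1 rfl).1, (m.core q m.hq).2.1 rfl, fun w hw => (m.core w hw).2.2⟩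

/-- The first hole comes late. -/
theorem Lay.late (m : P.Lay Q X x y c p q a b) : (k : ℤ) ≤ 2 * a + 2 := ((m.core p m.hp).1 rfl).2

end PM

end Pool.Agent.P.MP_3f5ded_co.UG
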