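import Pool.Agent.P.MP_3f5ded_co.ES4
import Pool.Agent.P.MP_3f5ded_co.ESCut

set_option autoImplicit false

namespace Pool.Agent.P.MP_3f5ded_co.UG

open Finset

namespace PM
variable {W : Type} {k : ℕ} {r : ℝ} {Fe : W → W → Prop} {P : PM W k r Fe} {Q : Finset W}
  {X Y : W → ℤ} {x y c c' p q u v w : W} {a b n l : ℤ}

lemma it_injOn (P : PM W k r Fe) (x : W) {i j : ℤ} (h : j < i + k) : Set.InjOn (P.it x) (Icc i j) :=
  fun s hs t ht e => by
    simp only [coe_Icc, Set.mem_Icc] at hs ht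
    exact P.uniq e (by omega) (by omega)

/-- Two families of items below and above a level. -/
lemma cover {i j i' j' : ℤ} (h : j < i + k) (h' : j' < i' + k) (g : i ≤ j + 1) (g' : i' ≤ j' + 1)
    (f1 : ∀ n, i ≤ n → n ≤ j → P.it x n ∈ Q ∧ X (P.it x n) ≤ l)
    (f2 : ∀ n, i' ≤ n → n ≤ j' → P.it y n ∈ Q ∧ l < X (P.it y n)) :
    j + 1 - i + (j' + 1 - i') ≤ Q.card ∧ (Q.card ≤ j + 1 - i + (j' + 1 - i') → ∀ w ∈ Q,
      (X w ≤ l → ∃ n, i ≤ n ∧ n ≤ j ∧ P.it x n = w) ∧
        (l < X w → ∃ n, i' ≤ n ∧ n ≤ j' ∧ P.it y n = w)) := by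
  classical
  have sub : (Icc i j).image (P.it x) ∪ (Icc i' j').image (P.it y) ⊆ Q := fun w hw => by
    simp only [mem_union, mem_image, mem_Icc] at hw
    rcases hw with ⟨n, hn, rfl⟩ | ⟨n, hn, rfl⟩
    exacts [(f1 n hn.1 hn.2).1, (f2 n hn.1 hn.2).1]
  have cd : (((Icc i j).image (P.it x) ∪ (Icc i' j').image (P.it y)).card : ℤ) =
      j + 1 - i + (j' + 1 - i') := by
    rw [card_union_of_disjoint, card_image_of_injOn (P.it_injOn x h),
      card_image_of_injOn (P.it_injOn y h'), Int.card_Icc, Int.card_Icc]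
    · omega
    · rw [disjoint_left]
      intro w h1 h2
      simp only [mem_image, mem_Icc] at h1 h2
      obtain ⟨n, hn, rfl⟩ := h1
      obtain ⟨n', hn', e⟩ := h2
      have := (f1 n hn.1 hn.2).2
      have := (f2 n' hn'.1 hn'.2).2
      rw [e] at this; omega
  refine ⟨by have := card_le_card sub; omega, fun t w hw => ?_⟩
  rw [← eq_of_subset_of_card_le sub (by omega)] at hw
  simp only [mem_union, mem_image, mem_Icc] at hw
  rcases hw with ⟨n, hn, rfl⟩ | ⟨n, hn, rfl⟩
  · exact ⟨fun _ => ⟨n, hn.1, hn.2, rfl⟩, fun e => by have := (f1 n hn.1 hn.2).2; omega⟩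
  · exact ⟨fun e => by have := (f2 n hn.1 hn.2).2; omega, fun _ => ⟨n, hn.1, hn.2, rfl⟩⟩

/-- The number of particles of `Q` at levels up to `l`. -/
def cnt (Q : Finset W) (X : W → ℤ) (l : ℤ) : ℕ := (Q.filter fun w => X w ≤ l).card

lemma cnt_eq {i j : ℤ} (h : j < i + k) (g : i ≤ j + 1)
    (f : ∀ w, w ∈ Q ∧ X w ≤ l ↔ ∃ n, i ≤ n ∧ n ≤ j ∧ P.it x n = w) :
    (cnt Q X l : ℤ) = j + 1 - i := by
  classical
  rw [cnt, show (Q.filter fun w => X w ≤ l) = (Icc i j).image (P.it x) from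
    ext fun w => by simp only [mem_filter, mem_image, mem_Icc, f, and_assoc],
    card_image_of_injOn (P.it_injOn x h), Int.card_Icc]
  omega

lemma cnt_eq' {i j : ℤ} (h : j < i + k) (g : i ≤ j + 1)
    (f : ∀ w, w ∈ Q ∧ l < X w ↔ ∃ n, i ≤ n ∧ n ≤ j ∧ P.it x n = w) :
    (cnt Q X l : ℤ) + (j + 1 - i) = Q.card := by
  classical
  rw [← card_filter_add_card_filter_not (s := Q) fun w => X w ≤ l,
    show (Q.filter fun w => ¬ X w ≤ l) = (Icc i j).image (P.it x) from
    ext fun w => by simp only [mem_filter, mem_image, mem_Icc, not_le, f, and_assoc],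
    card_image_of_injOn (P.it_injOn x h), Int.card_Icc, cnt]
  omega

lemma cnt_congr {l' : ℤ} (h : ∀ w ∈ Q, X w ≤ l ↔ X w ≤ l') : cnt Q X l = cnt Q X l' := by
  unfold cnt; rw [filter_congr h]

open Classical in
/-- Parity at one level. -/
lemma Fl.par (fl : P.Fl Q) (hX : P.Cut X) (out : ∀ w, w ∉ Q ↔ w = x ∨ w = y ∨ w = c) (xy : x ≠ y)
    (xc : x ≠ c) (yc : y ≠ c) (cen : ∀ s, s ∉ Q → P.Cen Q X s) (h0 : 0 ≤ l) (h1 : l + 2 ≤ k)
    (np : ∀ w ∈ Q, X w ≤ l → ¬ Fe w (P.it w l)) :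
    Even (cnt Q X l + (if P.Ty Q 0 x l then 1 else 0) + (if P.Ty Q 0 y l then 1 else 0) +
      (if P.Ty Q 0 c l then 1 else 0)) := by
  have h2 : Even ((Q.filter fun w => X w ≤ l).filter fun w => P.it w l ∈ Q).card := by
    have := sum_involution (s := (Q.filter fun w => X w ≤ l).filter fun w => P.it w l ∈ Q)
      (f := fun _ => (1 : ZMod 2)) (fun x _ => P.it x l) (fun _ _ => by decide)
      (fun x _ _ => P.ne x l) (fun x hx => by
        simp only [mem_filter] at hx ⊢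
        exact ⟨⟨hx.2, not_lt.1 ((fl.side hX hx.1.1 hx.2 rfl).not.1 (not_lt.2 hx.1.2))⟩,
          (fl.it hx.1.1 hx.2 rfl).symm ▸ hx.1.1⟩)
      (fun x hx => by simp only [mem_filter] at hx; exact fl.it hx.1.1 hx.2 rfl)
    rw [sum_const, nsmul_eq_mul, mul_one] at this
    exact ZMod.natCast_eq_zero_iff_even.1 this
  have key : ∀ w ∈ Q, X w ≤ l → P.it w l ∉ Q → P.Ty Q 0 (P.it w l) l ∧ P.it (P.it w l) l = w :=
    fun w hw xw o => by
    have f := np w hw xw
    rcases (cen _ o).has h0 (by omega) ⟨w, hw, f, rfl⟩ with g | g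
    · exact ⟨g, fl.lab_inj g.1 hw (fun t => g.2.1 (P.sym _ _ t)) f ((cen _ o).tA g h0).1 rfl⟩
    · have g' := (cen _ o).tB g (by omega)
      rw [sub_add_cancel] at g'
      rw [fl.lab_inj g.1 hw (fun t => g.2.1 (P.sym _ _ t)) f g'.1 rfl] at g'
      omega
  have h3 : ((Q.filter fun w => X w ≤ l).filter fun w => ¬ P.it w l ∈ Q).card =
      (({x, y, c} : Finset W).filter fun s => P.Ty Q 0 s l).card := by
    refine card_bij (fun w _ => P.it w l) (fun w hw => ?_) (fun w hw w' hw' e => ?_) fun s hs => ?_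
    · simp only [mem_filter, mem_insert, mem_singleton] at hw ⊢
      exact ⟨(out _).1 hw.2, (key w hw.1.1 hw.1.2 hw.2).1⟩
    · simp only [mem_filter] at hw hw'
      rw [← (key w hw.1.1 hw.1.2 hw.2).2, e, (key w' hw'.1.1 hw'.1.2 hw'.2).2]
    · simp only [mem_filter, mem_insert, mem_singleton] at hs ⊢
      have o := (out s).2 hs.1
      have := (cen s o).tA hs.2 h0
      exact ⟨P.it s l, ⟨⟨hs.2.1, this.2⟩, this.1.symm ▸ o⟩, this.1⟩
  have h4 := card_filter_add_card_filter_not (s := Q.filter fun w => X w ≤ l) fun w => P.it w l ∈ Q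
  rw [h3, card_filter _ ({x, y, c} : Finset W), sum_insert (by simp [xy, xc]),
    sum_insert (by simp [yc]), sum_singleton] at h4
  unfold cnt
  rw [Nat.even_iff] at h2 ⊢
  omega

variable [Fintype W] {Pt : Finset (W × W)}

namespace W1
variable (m : P.W1 Q x y c p q u v Y X a b) (d : D1 k Fe Q Pt x y c)
include m d

lemma tx (h0 : 0 ≤ n) (h1 : n + 2 ≤ k) : P.Ty Q 0 x n ↔ n < a := by
  refine ⟨fun g => ?_, m.xA n h0⟩
  by_contra e
  have i := m.idx0 d (by omega) h1 g
  have : n ≠ k - 3 := fun e => g.2.1 (by rw [e, m.xp]; exact P.sym _ _ ((m.sp.fx p).2 rfl))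
  have := g.ne (m.xB n (by omega) (by omega)); omega

lemma ty (h0 : 0 ≤ n) (h1 : n + 2 ≤ k) : P.Ty Q 0 y n ↔ 1 ≤ n ∧ n < b := by
  refine ⟨fun g => ?_, fun g => m.yA n g.1 g.2⟩
  have i := m.idx1 d (by omega) h1 g
  by_contra e
  have := g.ne (m.yB n (by omega) (by omega)); omega

lemma missx : ¬ P.Has Q x a := fun g => by
  have := m.a1; have := m.ak
  rcases (m.c0 d).has (by omega) (by omega) g with g | g
  · have := (m.tx d (by omega) (by omega)).1 g; omega
  · have := (m.xA (a - 1) (by omega) (by omega)).ne g; omega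

lemma missy : ¬ P.Has Q y b := fun g => by
  have := m.b1; have := m.bk
  rcases (m.c1 d).has (by omega) (by omega) g with g | g
  · have := (m.ty d (by omega) (by omega)).1 g; omega
  · have := m.idx1 d (by omega) (by omega) g
    have := (m.yA (b - 1) (by omega) (by omega)).ne g; omega

lemma xw (hw : w ∈ Q) (e : w ≠ p) : ∃ n, P.it x n = w ∧
    ((0 ≤ n ∧ n < a ∧ X w ≤ n ∧ P.it w n = x) ∨ (a ≤ n ∧ n + 4 ≤ k ∧ n + 1 < X w ∧ P.it w (n + 1) = x)) := by
  obtain ⟨n, n1, n2, g, t⟩ := (m.c0 d).adj hw fun f => e ((m.sp.fx w).1 f)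
  have i : 0 ≤ n ∧ n + 3 ≤ k := t.elim (m.idx0 d n1 n2) (m.idx0 d n1 n2)
  have : n ≠ k - 3 := fun c => e (by rw [← g, c, m.xp])
  refine ⟨n, g, ?_⟩
  by_cases h : n < a
  · have := (m.c0 d).tA (m.xA n i.1 h) i.1
    rw [g] at this
    exact Or.inl ⟨i.1, h, this.2, this.1⟩
  · have := (m.c0 d).tB (m.xB n (by omega) (by omega)) n2
    rw [g] at this
    exact Or.inr ⟨by omega, by omega, this.2, this.1⟩

lemma yw (hw : w ∈ Q) (e : w ≠ q) : ∃ n, P.it y n = w ∧
    ((1 ≤ n ∧ n < b ∧ X w ≤ n ∧ P.it w n = y) ∨ (b ≤ n ∧ n + 3 ≤ k ∧ n + 1 < X w ∧ P.it w (n + 1) = y)) := by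
  obtain ⟨n, n1, n2, g, t⟩ := (m.c1 d).adj hw fun f => e ((m.sp.fy w).1 f)
  have i : 1 ≤ n ∧ n + 3 ≤ k := t.elim (m.idx1 d n1 n2) (m.idx1 d n1 n2)
  refine ⟨n, g, ?_⟩
  by_cases h : n < b
  · have := (m.c1 d).tA (m.yA n i.1 h) (by omega)
    rw [g] at this
    exact Or.inl ⟨i.1, h, this.2, this.1⟩
  · have := (m.c1 d).tB (m.yB n (by omega) (by omega)) n2
    rw [g] at this
    exact Or.inr ⟨by omega, by omega, this.2, this.1⟩

lemma sw (l : ℤ) (h1 : 1 ≤ l) (h2 : l < a) : P.it u (l - 1) = P.it x l := by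
  have := m.ak
  have xu := m.xu
  have key : ∀ s : ℕ, ∀ l : ℤ, l ≤ s → 1 ≤ l → l < a → P.it u (l - 1) = P.it x l := by
    intro s
    induction s with
    | zero => intro l _ _ _; omega
    | succ s ih =>
      intro l g0 g1 g2
      have A := m.xA l (by omega) g2
      have t := ((m.c0 d).tA A (by omega)).2
      obtain ⟨t, f1, f2, f⟩ := (m.M d).past A.1 (fun c => by rw [c] at t; omega) fun c => by
        have := P.uniq (c.trans (m.v0 d).2.symm) (by omega) (by omega); omega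
      by_cases c : t = l - 1
      · rw [← c, f]
      have := ih (t + 1) (by omega) (by omega) (by omega)
      rw [add_sub_cancel_right, f] at this
      have := P.uniq this (by omega) (by omega); omega
  exact key _ l (Int.self_le_toNat _) h1 h2

lemma posx (l : ℤ) (h1 : 0 ≤ l) (h2 : l < a) : X (P.it x l) = l := by
  have := m.ak
  have A := m.xA l h1 h2
  have := ((m.c0 d).tA A h1).2
  by_cases e : l = 0
  · have := m.rngX _ A.1; omega
  have := (m.fl.side m.cx m.hu A.1 (m.sw d l (by omega) h2)).1 (by have := m.xu; omega)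
  omega

lemma low (w : W) (hw : w ∈ Q) (h : X w < a) : P.it x (X w) = w := by
  have := m.ak
  by_cases e : w = v
  · rw [e, m.xv, (m.v0 d).2]
  obtain ⟨t, f1, f2, f⟩ := (m.M d).past hw (fun c => by rw [c] at h; have := m.xu; omega) e
  have g := m.sw d (t + 1) (by omega) (by omega)
  rw [add_sub_cancel_right, f] at g
  have := m.posx d (t + 1) (by omega) (by omega)
  rw [← g] at this
  rw [this, ← g]

lemma yu' : P.it y (k - 3) = u := (m.topB d (m.c1 d) (m.yB _ (by have := m.bk; omega) (by omega))).1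

lemma sv (l : ℤ) (h1 : b ≤ l) (h2 : l + 4 ≤ k) : P.it v (l + 2) = P.it y l := by
  have := m.b1
  have xv := m.xv
  have key : ∀ s : ℕ, ∀ l : ℤ, k - 3 - l ≤ s → b ≤ l → l + 4 ≤ k → P.it v (l + 2) = P.it y l := by
    intro s
    induction s with
    | zero => intro l _ _ _; omega
    | succ s ih =>
      intro l g0 g1 g2
      have B := m.yB l g1 (by omega)
      have t := ((m.c1 d).tB B (by omega)).2
      obtain ⟨t, f1, f2, f⟩ := (m.M d).fut B.1 (fun c => by
        have := P.uniq (c.trans (m.yu' d).symm) (by omega) (by omega); omega)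
        fun c => by rw [c] at t; omega
      by_cases c : t = l + 2
      · rw [← c, f]
      have := ih (t - 2) (by omega) (by omega) (by omega)
      rw [sub_add_cancel, f] at this
      have := P.uniq this (by omega) (by omega); omega
  exact key _ l (Int.self_le_toNat _) h1 h2

lemma posh (l : ℤ) (h1 : b ≤ l) (h2 : l + 3 ≤ k) : X (P.it y l) = l + 2 := by
  have := m.b1
  have B := m.yB l h1 h2
  have := ((m.c1 d).tB B (by omega)).2
  by_cases e : l = k - 3
  · have := m.rngX _ B.1; omega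
  have := (m.fl.side m.cx m.hv B.1 (m.sv d l h1 (by omega))).not.1 (by have := m.xv; omega)
  omega

lemma high (w : W) (hw : w ∈ Q) (h : b + 2 ≤ X w) : P.it y (X w - 2) = w ∧ P.it v (X w) = w := by
  have := m.b1
  have xu := m.xu
  by_cases e : w = u
  · rw [e, show X u - 2 = k - 3 by omega, show X u = k - 1 by omega]
    exact ⟨m.yu' d, (m.M d).vu⟩
  obtain ⟨t, f1, f2, f⟩ := (m.M d).fut hw e fun c => by rw [c] at h; have := m.xv; omega
  have g := m.sv d (t - 2) (by omega) (by omega)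
  rw [sub_add_cancel, f] at g
  have := m.posh d (t - 2) (by omega) (by omega)
  rw [← g, sub_add_cancel] at this
  rw [this]
  exact ⟨g.symm, f⟩

lemma lt : a < b := by
  have := m.a1; have := m.ak; have := m.b1; have := m.bk
  have := d.sz.cardQ
  have ne : a ≠ b := fun e => by
    have := two_le_dfc d.o0 d.o1 d.n01 (m.missx d) (e ▸ m.missy d)
    have := m.one a (by omega) (by omega)
    omega
  by_contra c
  have := (cover (P := P) (Q := Q) (X := X) (x := x) (y := y) (l := b) (i := 0) (j := b) (i' := b)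
    (j' := k - 3) (by omega) (by omega) (by omega) (by omega)
    (fun n n1 n2 => ⟨(m.xA n n1 (by omega)).1, by rw [m.posx d n n1 (by omega)]; exact n2⟩)
    fun n n1 n2 => ⟨(m.yB n n1 (by omega)).1, by rw [m.posh d n n1 (by omega)]; omega⟩).1
  omega

lemma midl (h1 : a < l) (h2 : l < b) (hw : w ∈ Q) : (X w ≤ l → ∃ n, 1 ≤ n ∧ n ≤ l ∧ P.it y n = w) ∧
    (l < X w → ∃ n, l - 1 ≤ n ∧ n ≤ k - 4 ∧ P.it x n = w) := by
  have := m.a1; have := m.bk
  have := d.sz.cardQ
  refine (cover (by omega) (by omega) (by omega) (by omega) (fun n n1 n2 => ?_)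
    fun n n1 n2 => ?_).2 (by omega) w hw
  · have A := m.yA n n1 (by omega)
    exact ⟨A.1, by have := (m.c1 d).tA A (by omega); omega⟩
  · have B := m.xB n (by omega) (by omega)
    exact ⟨B.1, by have := (m.c0 d).tB B (by omega); omega⟩

lemma xo1 (hw : w ∈ Q) (e : w ≠ p) : X w < a ∨ a + 2 ≤ X w := by
  obtain ⟨n, -, g | g⟩ := m.xw d hw e <;> omega

lemma xo2 (hw : w ∈ Q) (e : w ≠ q) : X w < b ∨ b + 2 ≤ X w := by
  obtain ⟨n, -, g | g⟩ := m.yw d hw e <;> omega

lemma midy (w : W) (hw : w ∈ Q) (h1 : a + 2 ≤ X w) (h2 : X w < b) : P.it y (X w) = w := by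
  obtain ⟨n, n1, n2, e⟩ := (m.midl d (l := X w) (by omega) h2 hw).1 le_rfl
  have := ((m.c1 d).tA (m.yA n n1 (by omega)) (by omega)).2
  rw [e] at this
  rwa [show X w = n by omega]

lemma midx (w : W) (hw : w ∈ Q) (h1 : a + 2 ≤ X w) (h2 : X w ≤ b) : P.it x (X w - 2) = w := by
  obtain ⟨n, n1, n2, e⟩ := (m.midl d (l := X w - 1) (by omega) (by omega) hw).2 (by omega)
  have := ((m.c0 d).tB (m.xB n (by omega) (by omega)) (by omega)).2
  rw [e] at this
  rwa [show X w - 2 = n by omega]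

lemma posy (l : ℤ) (h1 : a + 2 ≤ l) (h2 : l < b) : X (P.it y l) = l := by
  have := m.a1; have := m.bk
  have A := m.yA l (by omega) h2
  have := ((m.c1 d).tA A (by omega)).2
  by_contra c
  obtain ⟨n, n1, n2, e⟩ := (m.midl d (l := l - 1) (by omega) (by omega) A.1).1 (by omega)
  have := P.uniq e (by omega) (by omega); omega

/-- First items. -/
lemma first (hw : w ∈ Q) (e : w ≠ p) (e' : w ≠ q) : (X w < a ∧ P.it w (X w) = x) ∨
    (a + 2 ≤ X w ∧ X w < b ∧ P.it w (X w) = y) ∨ (b + 2 ≤ X w ∧ P.it w (X w) = v) := by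
  have := m.rngX w hw
  have := m.a1
  rcases m.xo1 d hw e with g | g
  · have := ((m.c0 d).tA (m.xA (X w) (by omega) g) (by omega)).1
    rw [m.low d w hw g] at this
    exact Or.inl ⟨g, this⟩
  rcases m.xo2 d hw e' with g' | g'
  · have := ((m.c1 d).tA (m.yA (X w) (by omega) g') (by omega)).1
    rw [m.midy d w hw g g'] at this
    exact Or.inr (Or.inl ⟨g, g', this⟩)
  · exact Or.inr (Or.inr ⟨g', m.fl.it m.hv hw (m.high d w hw g').2⟩)

lemma cnt1 (h0 : 0 ≤ l) (h : l < a) : (cnt Q X l : ℤ) = l + 1 := by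
  have := m.ak
  rw [cnt_eq (P := P) (x := x) (i := 0) (j := l) (by omega) (by omega) fun w => ⟨fun g => ?_, ?_⟩]
  · ring
  · exact ⟨X w, (m.rngX w g.1).1, g.2, m.low d w g.1 (by omega)⟩
  · rintro ⟨n, n1, n2, rfl⟩
    exact ⟨(m.xA n n1 (by omega)).1, by rw [m.posx d n n1 (by omega)]; exact n2⟩

lemma cnt2 (h0 : a < l) (h : l < b) : (cnt Q X l : ℤ) = l := by
  have := m.a1; have := m.bk
  rw [cnt_eq (P := P) (x := y) (i := 1) (j := l) (by omega) (by omega) fun w => ⟨fun g => ?_, ?_⟩]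
  · ring
  · exact (m.midl d h0 h g.1).1 g.2
  · rintro ⟨n, n1, n2, rfl⟩
    have A := m.yA n n1 (by omega)
    exact ⟨A.1, by have := (m.c1 d).tA A (by omega); omega⟩

lemma cnt3 (h0 : b < l) (h : l + 2 ≤ k) : (cnt Q X l : ℤ) = l - 1 := by
  have := m.b1
  have := d.sz.cardQ
  have := cnt_eq' (P := P) (Q := Q) (X := X) (l := l) (x := y) (i := l - 1) (j := k - 3) (by omega)
    (by omega) fun w => ⟨fun g => ?_, ?_⟩
  · omega
  · have := m.rngX w g.1
    exact ⟨X w - 2, by omega, by omega, (m.high d w g.1 (by omega)).1⟩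
  · rintro ⟨n, n1, n2, rfl⟩
    exact ⟨(m.yB n (by omega) (by omega)).1, by rw [m.posh d n (by omega) (by omega)]; omega⟩

open Classical in
lemma par (h0 : 1 ≤ l) (h1 : l + 2 ≤ k) (np : ∀ w ∈ Q, X w ≤ l → ¬ Fe w (P.it w l)) :
    ((cnt Q X l : ℤ) + (if l < a then 1 else 0) + (if l < b then 1 else 0) +
      (if P.Ty Q 0 c l then 1 else 0)) % 2 = 0 := by
  have := m.fl.par m.cx d.out d.n01 d.n02 d.n12 (l := l) (fun s hs => by
    rcases (d.out s).1 hs with rfl | rfl | rfl
    exacts [m.c0 d, m.c1 d, m.c2 d]) (by omega) h1 np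
  rw [m.tx d (by omega) h1, m.ty d (by omega) h1, Nat.even_iff] at this
  simp only [h0, true_and] at this
  split_ifs at this ⊢ <;> omega

/-- Off the two holes the centre `c` has a low edge exactly at the even levels. -/
lemma par' (h0 : 1 ≤ l) (h1 : l + 2 ≤ k) (la : l ≠ a) (lb : l ≠ b)
    (np : ∀ w ∈ Q, X w ≤ l → ¬ Fe w (P.it w l)) : P.Ty Q 0 c l ↔ l % 2 = 0 := by
  have := m.par d h0 h1 np
  have ab := m.lt d
  have : (cnt Q X l : ℤ) = if l < a then l + 1 else if l < b then l else l - 1 := by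
    split_ifs
    exacts [m.cnt1 d (by omega) ‹_›, m.cnt2 d (by omega) ‹_›, m.cnt3 d (by omega) h1]
  by_cases g : P.Ty Q 0 c l <;> simp only [g, if_true, if_false, true_iff, false_iff] at * <;>
    split_ifs at * <;> omega

omit d in
lemma nop (hc : c' ∉ Q) (h0 : 1 ≤ l) (h1 : l + 2 ≤ k) (g : ¬ P.Has Q c' l) :
    ∀ w ∈ Q, X w ≤ l → ¬ Fe w (P.it w l) := fun _ hw _ f => g (has_of_port (m.one l h0 h1) hc hw f)

lemma hasa : P.Has Q c a :=
  has_of_one (m.one a m.a1 (by have := m.ak; omega)) d.o0 d.o2 d.n02 (m.missx d)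

lemma hasb : P.Has Q c b :=
  has_of_one (m.one b m.b1 (by have := m.bk; omega)) d.o1 d.o2 d.n12 (m.missy d)

lemma heven (h0 : 1 ≤ l) (h1 : l + 2 ≤ k) (e : l % 2 = 0) : P.Has Q c l := by
  by_contra g
  exact g ((m.c2 d).hasA ((m.par' d h0 h1 (fun e => g (e ▸ m.hasa d)) (fun e => g (e ▸ m.hasb d))
    (m.nop d.o2 h0 h1 g)).2 e))

/-- All edges from `c` to `Q` are low. -/
lemma noB (h0 : -1 ≤ n) (h1 : n + 2 ≤ k) : ¬ P.Ty Q 1 c n := fun B => by
  have hk := d.sz.big
  have ek := Nat.even_iff.1 d.sz.even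
  obtain ⟨n, ⟨h0, h1, B⟩, mx⟩ := Int.exists_greatest_of_bdd
    (P := fun n => -1 ≤ n ∧ n + 2 ≤ k ∧ P.Ty Q 1 c n) ⟨k, fun n h => by omega⟩ ⟨n, h0, h1, B⟩
  have n1 := m.idx2 d h0 B
  have : n ≠ k - 2 := fun e => by have := (e ▸ B).ne m.cA; omega
  have j := m.fl.jump' B m.cA (by omega)
  have ev : ∀ l, n + 2 ≤ l → l + 2 ≤ k → l % 2 = 0 → P.Ty Q 0 c l := fun l g1 g2 g =>
    ((m.c2 d).has (by omega) (by omega) (m.heven d (by omega) g2 g)).resolve_right fun t => by
      have := mx _ ⟨by omega, by omega, t⟩; omega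
  have o : n % 2 = 1 := by
    by_contra o
    have := m.fl.jump' B (ev (n + 2) le_rfl (by omega) (by omega)) (by omega); omega
  have A := ev (n + 3) (by omega) (by omega) (by omega)
  obtain ⟨Z, cz, z1, -⟩ := P.cut_after c n
  have s1 := (B.one cz).2.1.1 (by omega)
  have s2 := (A.zero cz).2.not.1 (by omega)
  have s3 := m.fl.near cz A.1 B.1
  have t := m.fl.top cz A.1 B.1 (fun e => by have := P.uniq e (by omega) (by omega); omega) (by omega)
  rw [show Z (P.it c n) = n + 2 + k by omega, P.it_add] at t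
  have t' := m.fl.it A.1 B.1 t
  have g1 := (m.c2 d).tA A (by omega)
  have g2 := (m.c2 d).tB B h1
  have sd := m.fl.side m.cx A.1 B.1 t
  have ow : ∀ {s n}, P.Ty Q s c n → P.it c n ≠ p ∧ P.it c n ≠ q := fun g =>
    ⟨fun e => g.2.1 (by rw [e]; exact P.sym _ _ m.sp.fp),
      fun e => g.2.1 (by rw [e]; exact P.sym _ _ m.sp.fq)⟩
  by_cases h : n + 2 < X (P.it c (n + 3))
  · have f := m.first d A.1 (ow A).1 (ow A).2
    rw [show X (P.it c (n + 3)) = n + 3 by omega, g1.1] at f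
    rcases f with f | f | f
    exacts [d.n02 f.2.symm, d.n12 f.2.2.symm, d.o2 (f.2 ▸ m.hv)]
  · have f := m.first d B.1 (ow B).1 (ow B).2
    rw [show X (P.it c n) = n + 2 by omega, t'] at f
    rcases f with f | f | f
    · exact d.o0 (f.2 ▸ A.1)
    · exact d.o1 (f.2.2 ▸ A.1)
    · have e := m.sv d (n + 1) (by omega) (by omega)
      rw [f.2] at g1
      rw [show n + 1 + 2 = n + 3 by ring, g1.1] at e
      exact d.o2 (e ▸ (m.yB (n + 1) (by omega) (by omega)).1)

lemma cl (h0 : 0 ≤ l) (h1 : l + 2 ≤ k) (g : P.Has Q c l) : P.Ty Q 0 c l :=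
  ((m.c2 d).has h0 (by omega) g).resolve_right (m.noB d (by omega) (by omega))

lemma para : (cnt Q X a : ℤ) % 2 = 0 := by
  have := m.a1; have := m.ak
  have := m.par d m.a1 (by omega) (m.nop d.o0 m.a1 (by omega) (m.missx d))
  simp only [lt_irrefl, m.lt d, m.cl d (by omega) (by omega) (m.hasa d), if_true, if_false] at this
  omega

lemma parb : (cnt Q X b : ℤ) % 2 = 1 := by
  have := m.b1; have := m.bk
  have := m.par d m.b1 (by omega) (m.nop d.o1 m.b1 (by omega) (m.missy d))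
  simp only [lt_irrefl, (m.lt d).not_gt, m.cl d (by omega) (by omega) (m.hasb d), if_true,
    if_false] at this
  omega

lemma ab : a + 2 ≤ b := by
  by_contra h
  have := m.lt d
  have := m.para d
  have := m.parb d
  have : cnt Q X a = cnt Q X b := cnt_congr fun w hw => by
    by_cases e : w = p
    · have := m.xo2 d hw (e ▸ m.sp.pq); omega
    · have := m.xo1 d hw e; omega
  omega

lemma lay : P.Lay Q X x y c p q a b := by
  have ab := m.ab d
  have := m.a1; have := m.bk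
  have xp : X p = a ∨ X p = a + 1 := by
    have h1 : ¬ X p < a := fun g => (m.xA _ (m.rngX p m.sp.hp).1 g).2.1
      (by rw [m.low d p m.sp.hp g]; exact P.sym _ _ ((m.sp.fx p).2 rfl))
    have h2 : ¬ a + 1 < X p := fun g => by
      obtain ⟨n, n1, n2, e⟩ := (m.midl d (l := a + 1) (by omega) (by omega) m.sp.hp).2 g
      exact (m.xB n (by omega) (by omega)).2.1 (by rw [e]; exact P.sym _ _ ((m.sp.fx p).2 rfl))
    omega
  have xq : X q = b ∨ X q = b + 1 := by
    have := m.rngX q m.sp.hq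
    have h1 : ¬ b + 2 ≤ X q := fun g => (m.yB (X q - 2) (by omega) (by omega)).2.1
      (by rw [(m.high d q m.sp.hq g).1]; exact P.sym _ _ ((m.sp.fy q).2 rfl))
    have h2 : ¬ X q ≤ b - 1 := fun g => by
      obtain ⟨n, n1, n2, e⟩ := (m.midl d (l := b - 1) (by omega) (by omega) m.sp.hq).1 g
      exact (m.yA n n1 (by omega)).2.1 (by rw [e]; exact P.sym _ _ ((m.sp.fy q).2 rfl))
    omega
  refine ⟨d.sz.big, d.sz.even, d.sz.cardQ, m.fl, m.cx, m.rngX, d.out, d.n01, d.n02, d.n12, m.sp.hp,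
    m.sp.hq, m.sp.fx, m.sp.fy, m.sp.fp, m.sp.fq, m.sp.few, fun w hw => m.mid d hw, m.a1, ab, m.bk, xp,
    xq, fun w hw e e' => by have := m.xo1 d hw e; have := m.xo2 d hw e'; omega,
    fun w hw w' hw' e => ?_, fun w hw g => ?_, fun w hw g => ?_, fun w hw g => ?_, fun w hw g => ?_,
    fun w hw f => ?_⟩
  · by_cases g : X w < a
    · rw [← m.low d w hw g, e, m.low d w' hw' (e ▸ g)]
    by_cases g1 : X w < a + 2
    · by_contra ne
      by_cases c : w = p
      · have := m.xo1 d hw' fun t => ne (c.trans t.symm); omega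
      · have := m.xo1 d hw c; omega
    by_cases g2 : X w < b
    · rw [← m.midy d w hw (by omega) g2, e, m.midy d w' hw' (by omega) (e ▸ g2)]
    by_cases g3 : X w < b + 2
    · by_contra ne
      by_cases c : w = q
      · have := m.xo2 d hw' fun t => ne (c.trans t.symm); omega
      · have := m.xo2 d hw c; omega
    rw [← (m.high d w hw (by omega)).1, e, (m.high d w' hw' (by omega)).1]
  · obtain ⟨n, -, t | t⟩ := m.xw d hw fun e => by rw [e] at g; omega
    exacts [⟨n, t.2.2.1, by omega, t.2.2.2⟩, by omega]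
  · obtain ⟨n, -, t | t⟩ := m.xw d hw fun e => by rw [e] at g; omega
    exacts [by omega, ⟨n + 1, by omega, t.2.2.1, t.2.2.2⟩]
  · obtain ⟨n, -, t | t⟩ := m.yw d hw fun e => by rw [e] at g; omega
    exacts [⟨n, t.2.2.1, by omega, t.2.2.2⟩, by omega]
  · obtain ⟨n, -, t | t⟩ := m.yw d hw fun e => by rw [e] at g; omega
    exacts [by omega, ⟨n + 1, by omega, t.2.2.1, t.2.2.2⟩]
  · obtain ⟨n, n1, n2, g, t | t⟩ := (m.c2 d).adj hw f
    · have := (m.c2 d).tA t (by have := m.idx2 d n1 t; omega)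
      rw [g] at this
      exact ⟨n, this.2, n2, this.1⟩
    · exact absurd t (m.noB d n1 n2)

theorem w2 : P.W2 Q x y c p q u v Y X a b := by
  have L := m.lay d
  obtain ⟨xp, xq, nolow⟩ := L.cut_lemma
  have ab := m.ab d
  have := m.a1; have := m.bk
  have oa : a % 2 = 1 := by
    have := m.para d
    have := m.cnt2 d (l := a + 1) (by omega) (by omega)
    have : cnt Q X a = cnt Q X (a + 1) := cnt_congr fun w hw => by
      by_cases e : w = p
      · rw [e]; omega
      · have := m.xo1 d hw e; omega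
    omega
  have ob : b % 2 = 1 := by
    have := m.parb d
    have := m.cnt3 d (l := b + 1) (by omega) (by omega)
    have : cnt Q X b = cnt Q X (b + 1) := cnt_congr fun w hw => by
      by_cases e : w = q
      · rw [e]; omega
      · have := m.xo2 d hw e; omega
    omega
  refine ⟨m, ab, Int.odd_iff.2 oa, Int.odd_iff.2 ob, xp, xq, nolow,
    fun n n1 n2 => ⟨?_, m.noB d (by omega) n2⟩, L.xo, m.sw d, m.posx d, m.low d, m.posy d, m.midy d,
    m.midx d, m.posh d, fun w hw g => (m.high d w hw g).1⟩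
  by_cases e : n = a
  · exact iff_of_true (e ▸ m.cl d (by omega) (by omega) (m.hasa d)) (by tauto)
  by_cases e' : n = b
  · exact iff_of_true (e' ▸ m.cl d (by omega) (by omega) (m.hasb d)) (by tauto)
  rw [m.par' d n1 n2 e e' fun w hw g => nolow w hw n g n2, Int.even_iff]
  tauto

end W1

end PM

end Pool.Agent.P.MP_3f5ded_co.UG
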