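import Pool.Agent.P.MP_3f5ded_co.EPB

set_option autoImplicit false

namespace Pool.Agent.P.MP_3f5ded_co.UG

open Finset

namespace PM
variable {W : Type} {k : ℕ} {r : ℝ} {Fe : W → W → Prop}

/-- The final facts of case I. Round = level + 5. -/
structure Fin1 (P : PM W k r Fe) (Q : Finset W) (x y c p q u v : W) (a b : ℤ) : Prop where
  fl : P.Fl Q
  hu : u ∈ Q
  hv : v ∈ Q
  up : u ≠ p
  uq : u ≠ q
  oa : Odd a
  ob : Odd b
  a5 : 5 ≤ a
  ab : a < b
  bk : b + 3 ≤ k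
  x4 : P.it x (-4) = u ∧ P.sh x u = 1
  x3 : P.it x (-3) = p
  x2 : P.it x (-2) = y ∧ P.sh x y = 0
  y1 : P.it y (-1) = q
  y0 : P.it y 0 = c ∧ P.sh y c = 0
  yv : P.it y 1 = v ∧ P.sh y v = 0
  cx : P.it c (-1) = x
  cy : P.it c 0 = y
  cport : ∀ n : ℤ, 1 ≤ n → n + 2 ≤ k → (Fe c (P.it c n) ↔ Odd n ∧ n ≠ a ∧ n ≠ b)
  cA : ∀ n : ℤ, 1 ≤ n → n + 2 ≤ k → ¬ Fe c (P.it c n) → P.Ty Q 0 c n
  port : ∀ w ∈ Q, ∀ t, Fe w t → ∃ l : ℤ, Even l ∧ 0 ≤ l ∧ l + 4 ≤ k ∧ P.it w l = t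
  one : ∀ w ∈ Q, ∀ w' ∈ Q, ∀ l : ℤ, Fe w (P.it w l) → Fe w' (P.it w' l) → w = w'
  last : P.it u (k - 4) = c ∧ Fe u c
  toU : ∀ w ∈ Q, w ≠ u → ∃ j : ℤ, k - 1 ≤ j ∧ j + 4 ≤ 2 * k ∧ P.it w j = u ∧
    ∀ l : ℤ, 0 ≤ l → l + 4 ≤ k → Fe w (P.it w l) → l + k ≤ j
  toV : ∀ w ∈ Q, ∀ t, Fe w t → ∃ j : ℤ, 1 ≤ j ∧ j < k ∧ P.it w j = v
  walk : ∀ w ∈ Q, ∀ l n : ℤ, 0 ≤ l → l + 4 ≤ k → Fe w (P.it w l) → 1 ≤ n → n + 3 ≤ k →
    Fe c (P.it c n) → n ≤ l + 3 → P.it c (n + 1) = w ∨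
      ∃ j, n + 1 ≤ j ∧ j ≤ l + k ∧ P.it w j = P.it c (n + 1)
  ownp : ¬ Fe p (P.it p (k - 6))
  ownq : Fe q (P.it q (k - 6)) → b + 3 = k
  own2 : ∀ l : ℤ, 0 ≤ l → l + 4 ≤ k → Fe p (P.it p l) → l + 2 ≤ a

/-- The offset of an item. -/
def off (P : PM W k r Fe) (w : W) (n : ℤ) : ℝ := P.F w n - n

lemma off_mono (P : PM W k r Fe) (w : W) {n n' : ℤ} (h : n ≤ n') : P.off w n ≤ P.off w n' := by
  induction n', h using Int.leInduction with
  | base => exact le_rfl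
  | succ m _ ih =>
    have := P.step w m
    unfold off at *
    push_cast
    linarith

lemma off_co (P : PM W k r Fe) {w w' : W} {n : ℤ} (f : ¬ Fe w w') (e : P.it w n = w')
    (s : P.sh w w' = 0) : P.off w' n = P.off w n := by
  have := (P.co w w' n f e).2
  rw [s] at this
  unfold off
  simpa using this

lemma Fl.off {P : PM W k r Fe} {Q : Finset W} (q : P.Fl Q) {w w' : W} {n : ℤ} (hw : w ∈ Q)
    (hw' : w' ∈ Q) (e : P.it w n = w') : P.off w' n = P.off w n :=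
  P.off_co (q.cl w hw w' hw') e (q.z w hw w' hw' (e ▸ P.ne w n))

/-- The level of a port. -/
def Lv (P : PM W k r Fe) (Q : Finset W) (x y c : W) (a b : ℤ) (w t : W) (n : ℤ) : Prop :=
  P.it w n = t ∧ ((w = x ∧ n = -3) ∨ (w = y ∧ n = -1) ∨
    (w = c ∧ n % 2 = 1 ∧ 1 ≤ n ∧ n + 3 ≤ k ∧ n ≠ a ∧ n ≠ b) ∨
    (w ∈ Q ∧ n % 2 = 0 ∧ k ≤ n ∧ n + 4 ≤ 2 * k))

namespace Fin1
variable {P : PM W k r Fe} {Q : Finset W} {x y c p q u v : W} {a b : ℤ}
  (f : P.Fin1 Q x y c p q u v a b)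
include f

lemma k8 : (8 : ℤ) ≤ k := by
  have := f.a5
  have := f.ab
  have := f.bk
  omega

omit f in
lemma top_eq : P.off u (2 * k - 4) = P.F u (-4) + (2 * r - 2 * k - 1) + 5 := by
  have e1 := P.per u (-4)
  have e2 := P.per u (-4 + k)
  rw [show (-4 + (k : ℤ) + k) = 2 * k - 4 by ring] at e2
  unfold off
  push_cast
  linarith

lemma lo_x (hx : ¬ Fe x u) : P.F u (-4) + 5 ≤ P.off x (-3) := by
  have e1 := (P.co x u (-4) hx f.x4.1).2
  rw [f.x4.2, show (-4 + ((k : ℤ) + 1) * 1) = -3 + k by ring, P.per] at e1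
  have e2 := P.step u (-4)
  have e3 := P.step x (-4)
  unfold off
  norm_num at e1 e2 e3 ⊢
  linarith

lemma x_y (hx : ¬ Fe x y) : P.off x (-3) ≤ P.off y (-1) := by
  have e1 := P.off_co hx f.x2.1 f.x2.2
  have e2 := P.off_mono x (show (-3 : ℤ) ≤ -2 by norm_num)
  have e3 := P.off_mono y (show (-2 : ℤ) ≤ -1 by norm_num)
  linarith

lemma y_c (hy : ¬ Fe y c) {n : ℤ} (hn : 0 ≤ n) : P.off y (-1) ≤ P.off c n := by
  have e1 := P.off_co hy f.y0.1 f.y0.2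
  have e2 := P.off_mono y (show (-1 : ℤ) ≤ 0 by norm_num)
  have e3 := P.off_mono c hn
  linarith

lemma y_Q (hy : ¬ Fe y v) {w t : W} (hw : w ∈ Q) (ht : Fe w t) {n : ℤ} (hn : (k : ℤ) ≤ n) :
    P.off y (-1) ≤ P.off w n := by
  obtain ⟨j, j1, j2, e⟩ := f.toV w hw t ht
  have e1 := P.off_co hy f.yv.1 f.yv.2
  have e2 := P.off_mono y (show (-1 : ℤ) ≤ 1 by norm_num)
  have e3 := P.off_mono v j1
  have e4 := f.fl.off hw f.hv e
  have e5 := P.off_mono w (show j ≤ n by omega)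
  linarith

lemma Q_top {w : W} (hw : w ∈ Q) {n : ℤ}
    (hn : n + 1 ≤ k ∨ (k ≤ n ∧ n + 4 ≤ 2 * k ∧ Fe w (P.it w n))) :
    P.off w n ≤ P.off u (2 * k - 4) := by
  have := f.k8
  by_cases e : w = u
  · rw [e]
    exact P.off_mono u (by omega)
  · obtain ⟨j, j1, j2, e1, j3⟩ := f.toU w hw e
    have j4 : n ≤ j := by
      rcases hn with hn | ⟨n1, n2, n3⟩
      · omega
      · have := j3 (n - k) (by omega) (by omega) (by rwa [P.it_sub])
        omega
    have e2 := P.off_mono w j4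
    have e3 := f.fl.off hw f.hu e1
    have e4 := P.off_mono u (show j ≤ 2 * k - 4 by omega)
    linarith

lemma c_next {n : ℤ} (h1 : 1 ≤ n) (h2 : n + 3 ≤ k) (h3 : n % 2 = 1) :
    P.it c (n + 1) ∈ Q ∧ P.off c n ≤ P.off (P.it c (n + 1)) (n + 1) := by
  have nf : ¬ Fe c (P.it c (n + 1)) := fun g => by
    have := Int.odd_iff.1 ((f.cport (n + 1) (by omega) (by omega)).1 g).1
    omega
  have ty := f.cA (n + 1) (by omega) (by omega) nf
  have e1 := P.off_co nf rfl ty.2.2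
  have e2 := P.off_mono c (show n ≤ n + 1 by omega)
  exact ⟨ty.1, by linarith⟩

lemma c_top {n : ℤ} (h1 : 1 ≤ n) (h2 : n + 3 ≤ k) (h3 : n % 2 = 1) :
    P.off c n ≤ P.off u (2 * k - 4) := by
  obtain ⟨m, e⟩ := f.c_next h1 h2 h3
  exact e.trans (f.Q_top m (Or.inl (by omega)))

lemma c_Q {n n' : ℤ} {w : W} (h1 : 1 ≤ n) (h2 : n + 3 ≤ k) (h3 : n % 2 = 1)
    (g : Fe c (P.it c n)) (hw : w ∈ Q) (n1 : (k : ℤ) ≤ n') (n2 : n' + 4 ≤ 2 * k)
    (g' : Fe w (P.it w n')) (hn : n + k ≤ n' + 3) : P.off c n ≤ P.off w n' := by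
  obtain ⟨m, e⟩ := f.c_next h1 h2 h3
  rcases f.walk w hw (n' - k) n (by omega) (by omega) (by rwa [P.it_sub]) h1 h2 g (by omega) with
    e1 | ⟨j, j1, j2, e1⟩
  · rw [e1] at e
    exact e.trans (P.off_mono w (by omega))
  · have e2 := P.off_mono (P.it c (n + 1)) j1
    have e3 := f.fl.off hw m e1
    have e4 := P.off_mono w (show j ≤ n' by omega)
    linarith

lemma exists_lv (ke : (k : ℤ) % 2 = 0) (hx : ∀ t, Fe x t → t = p) (hy : ∀ t, Fe y t → t = q)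
    (hc : ∀ t, Fe c t → t ≠ c ∧ t ≠ x ∧ t ≠ y) (hQ : ∀ w, w = x ∨ w = y ∨ w = c ∨ w ∈ Q)
    (w t : W) : ∃ n, Fe w t → P.Lv Q x y c a b w t n := by
  by_cases g : Fe w t
  swap
  · exact ⟨0, fun g' => absurd g' g⟩
  rcases hQ w with rfl | rfl | rfl | hw
  · exact ⟨-3, fun _ => ⟨by rw [hx t g, f.x3], Or.inl ⟨rfl, rfl⟩⟩⟩
  · exact ⟨-1, fun _ => ⟨by rw [hy t g, f.y1], Or.inr (Or.inl ⟨rfl, rfl⟩)⟩⟩
  · obtain ⟨t1, t2, t3⟩ := hc t g
    obtain ⟨n, n1, n2, e⟩ := P.win t1 (-1)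
    have a1 : n ≠ -1 := fun z => t2 (by rw [← e, z, f.cx])
    have a2 : n ≠ 0 := fun z => t3 (by rw [← e, z, f.cy])
    obtain ⟨b1, b2, b3⟩ := (f.cport n (by omega) (by omega)).1 (e ▸ g)
    have := Int.odd_iff.1 b1
    exact ⟨n, fun _ => ⟨e, Or.inr (Or.inr (Or.inl ⟨rfl, this, by omega, by omega, b2, b3⟩))⟩⟩
  · obtain ⟨l, l1, l2, l3, e⟩ := f.port w hw t g
    have := Int.even_iff.1 l1
    exact ⟨l + k, fun _ => ⟨by rw [P.it_add, e],
      Or.inr (Or.inr (Or.inr ⟨hw, by omega, by omega, by omega⟩))⟩⟩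

end Fin1

end PM

/-- The final facts give the helix, with two more facts on its ports. -/
theorem Spi.Ok.hx2_of_fin {W : Type} [Fintype W] [DecidableEq W] {k : ℕ} {r : ℝ} {S : Spi W}
    (h : S.Ok k) (P : PM W k r S.Fe) {C : W → W → ℝ} (hC : ∀ x n, Cg r (C x (P.it x n)) (P.F x n))
    {x y p q u v : W} {a b : ℤ}
    (hn : (x = S.p' ∧ p = S.p ∧ y = S.q' ∧ q = S.q) ∨ (x = S.q' ∧ p = S.q ∧ y = S.p' ∧ q = S.p))
    (f : P.Fin1 (S.Cq S.p' S.q') x y S.z p q u v a b) : ∃ ρ τ t, S.Hx k r C ρ τ t ∧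
      (∀ y y', S.Fe S.p y → S.Fe S.q y' → 2 * k - 3 ≤ ρ S.p y → 2 * k - 3 ≤ ρ S.q y' →
        ∀ w, S.Fe S.z w → ρ S.z w + 2 ≤ k) ∧
      (∀ y y', S.Fe S.z y → S.Fe S.z y' → ρ S.z y ≤ ρ S.z y' → τ S.z y ≤ τ S.z y') := by
  have big := h.big
  have cL := h.cardL
  have ke : (k : ℤ) % 2 = 0 := by omega
  have hx : ∀ t, S.Fe x t ↔ t = p := fun t => by
    rcases hn with ⟨rfl, rfl, -, -⟩ | ⟨rfl, rfl, -, -⟩
    · exact h.fe_p' t
    · exact h.fe_q' t
  have hy : ∀ t, S.Fe y t ↔ t = q := fun t => by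
    rcases hn with ⟨-, -, rfl, rfl⟩ | ⟨-, -, rfl, rfl⟩
    · exact h.fe_q' t
    · exact h.fe_p' t
  have mQ : ∀ w, w ∈ S.Cq S.p' S.q' ↔ w ≠ S.z ∧ w ≠ x ∧ w ≠ y := fun w => by
    rw [Spi.mem_cq]
    rcases hn with ⟨rfl, -, rfl, -⟩ | ⟨rfl, -, rfl, -⟩ <;> tauto
  have xy : x ≠ y := fun e => P.ne x (-2) (f.x2.1.trans e.symm)
  have xz : x ≠ S.z := fun e => P.ne S.z (-1) (f.cx.trans e)
  have yz : y ≠ S.z := fun e => P.ne S.z 0 (f.cy.trans e)
  have nxy : ¬ S.Fe x y := fun g => by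
    have := P.uniq (f.x2.1.trans (((hx y).1 g).trans f.x3.symm)) (by omega) (by omega)
    omega
  have nyz : ¬ S.Fe y S.z := fun g => by
    have := P.uniq (f.y0.1.trans (((hy _).1 g).trans f.y1.symm)) (by omega) (by omega)
    omega
  have nyv : ¬ S.Fe y v := fun g => by
    have := P.uniq (f.yv.1.trans (((hy _).1 g).trans f.y1.symm)) (by omega) (by omega)
    omega
  have nxu : ¬ S.Fe x u := fun g => f.up ((hx u).1 g)
  have pz : p ≠ S.z := by
    rcases hn with ⟨-, rfl, -, -⟩ | ⟨-, rfl, -, -⟩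
    · exact h.zp.symm
    · exact h.zq.symm
  have hc : ∀ t, S.Fe S.z t → t ≠ S.z ∧ t ≠ x ∧ t ≠ y := fun t g => by
    refine ⟨fun e => ?_, fun e => ?_, fun e => ?_⟩
    · rw [e] at g
      rcases (h.fe_z _).1 g with e | e | e
      · exact h.zp e
      · exact h.zq e
      · exact h.zL e
    · rw [e] at g
      exact pz ((hx _).1 (S.fe_symm _ _ g)).symm
    · rw [e] at g
      exact nyz (S.fe_symm _ _ g)
  have hQ : ∀ w, w = x ∨ w = y ∨ w = S.z ∨ w ∈ S.Cq S.p' S.q' := fun w => by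
    rw [mQ]
    tauto
  choose lv hl using f.exists_lv ke (fun t => (hx t).1) (fun t => (hy t).1) hc hQ
  have lx : ∀ t, S.Fe x t → lv x t = -3 := fun t g => by
    rcases (hl x t g).2 with e | e | e | e
    · exact e.2
    · exact absurd e.1 xy
    · exact absurd e.1 xz
    · exact absurd rfl ((mQ x).1 e.1).2.1
  have ly : ∀ t, S.Fe y t → lv y t = -1 := fun t g => by
    rcases (hl y t g).2 with e | e | e | e
    · exact absurd e.1.symm xy
    · exact e.2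
    · exact absurd e.1 yz
    · exact absurd rfl ((mQ y).1 e.1).2.2
  have lz : ∀ t, S.Fe S.z t → lv S.z t % 2 = 1 ∧ 1 ≤ lv S.z t ∧ lv S.z t + 3 ≤ k ∧
      lv S.z t ≠ a ∧ lv S.z t ≠ b := fun t g => by
    rcases (hl S.z t g).2 with e | e | e | e
    · exact absurd e.1.symm xz
    · exact absurd e.1.symm yz
    · exact e.2
    · exact absurd rfl ((mQ S.z).1 e.1).1
  have lq : ∀ w ∈ S.Cq S.p' S.q', ∀ t, S.Fe w t →
      lv w t % 2 = 0 ∧ k ≤ lv w t ∧ lv w t + 4 ≤ 2 * k := fun w hw t g => by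
    rcases (hl w t g).2 with e | e | e | e
    · exact absurd e.1 ((mQ w).1 hw).2.1
    · exact absurd e.1 ((mQ w).1 hw).2.2
    · exact absurd e.1 ((mQ w).1 hw).1
    · exact e.2
  have lzn : ∀ n : ℤ, 1 ≤ n → n + 2 ≤ k → S.Fe S.z (P.it S.z n) → lv S.z (P.it S.z n) = n :=
    fun n n1 n2 g => by
      obtain ⟨-, b1, b2, -⟩ := lz _ g
      exact P.uniq (hl _ _ g).1 (by omega) (by omega)
  have a5 := f.a5
  have ab := f.ab
  have oxy := f.x_y nxy
  have oy : ∀ w t, S.Fe w t → w ≠ x → P.off y (-1) ≤ P.off w (lv w t) := fun w t g wx => by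
    rcases hQ w with e | e | e | hw
    · exact absurd e wx
    · rw [e] at g ⊢
      rw [ly t g]
    · rw [e] at g ⊢
      exact f.y_c nyz (by have := lz t g; omega)
    · exact f.y_Q nyv hw g (lq w hw t g).2.1
  have ox : ∀ w t, S.Fe w t → P.off x (-3) ≤ P.off w (lv w t) := fun w t g => by
    by_cases wx : w = x
    · rw [wx] at g ⊢
      rw [lx t g]
    · exact oxy.trans (oy w t g wx)
  have ot : ∀ w t, S.Fe w t → P.off w (lv w t) ≤ P.off u (2 * k - 4) := fun w t g => by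
    have c1 : P.off y (-1) ≤ P.off u (2 * k - 4) :=
      (f.y_c nyz (show (0 : ℤ) ≤ 1 by norm_num)).trans (f.c_top le_rfl (by omega) (by norm_num))
    rcases hQ w with e | e | e | hw
    · rw [e] at g ⊢
      rw [lx t g]
      exact oxy.trans c1
    · rw [e] at g ⊢
      rw [ly t g]
      exact c1
    · rw [e] at g ⊢
      obtain ⟨b0, b1, b2, -⟩ := lz t g
      exact f.c_top b1 b2 b0
    · obtain ⟨-, b1, b2⟩ := lq w hw t g
      exact f.Q_top hw (Or.inr ⟨b1, b2, by rw [(hl w t g).1]; exact g⟩)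
  have pQ : S.p ∈ S.Cq S.p' S.q' := Spi.mem_cq.2 ⟨h.zp.symm, h.pp', h.pq'⟩
  have qQ : S.q ∈ S.Cq S.p' S.q' := Spi.mem_cq.2 ⟨h.zq.symm, h.p'q.symm, h.qq'⟩
  have six : ∀ w ∈ S.Cq S.p' S.q', ∀ t, S.Fe w t → lv w t + 5 = 2 * k - 1 →
      S.Fe w (P.it w (k - 6)) := fun w _ t g e => by
    rw [show (k : ℤ) - 6 = lv w t - k by omega, P.it_sub, (hl w t g).1]
    exact g
  refine ⟨fun w t => lv w t + 5, fun w t => P.off w (lv w t) - 5, P.F u (-4), ⟨?_, ?_, ?_, ?_, ?_,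
    ?_, ?_, ?_, ?_, ?_, ?_, ?_, ?_, ?_⟩, ?_, ?_⟩
  · intro w t g
    have := hC w (lv w t)
    rw [(hl w t g).1] at this
    obtain ⟨n, e⟩ := this
    refine ⟨n, ?_⟩
    rw [e]
    unfold PM.off
    push_cast
    ring
  · have e1 := lx p ((hx p).2 rfl)
    have e2 := ly q ((hy q).2 rfl)
    rcases hn with ⟨rfl, rfl, rfl, rfl⟩ | ⟨rfl, rfl, rfl, rfl⟩
    · exact Or.inl ⟨by omega, by omega⟩
    · exact Or.inr ⟨by omega, by omega⟩
  · intro t g
    have := lz t g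
    exact ⟨Int.even_iff.2 (by omega), by omega, by omega⟩
  · have g := (f.cport 1 le_rfl (by omega)).2 ⟨by decide, by omega, by omega⟩
    exact ⟨_, g, by rw [lzn 1 le_rfl (by omega) g]; norm_num⟩
  · have g := (f.cport 3 (by norm_num) (by omega)).2 ⟨by decide, by omega, by omega⟩
    exact ⟨_, g, by rw [lzn 3 (by norm_num) (by omega) g]; norm_num⟩
  · intro w t g w1 w2 w3
    have := lq w (Spi.mem_cq.2 ⟨w1, w2, w3⟩) t g
    exact ⟨Int.odd_iff.2 (by omega), by omega, by omega⟩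
  · intro w t w' t' g g' e
    have e' : lv w t = lv w' t' := by omega
    have ww : w = w' := by
      rcases (hl w t g).2 with b | b | b | b <;> rcases (hl w' t' g').2 with b' | b' | b' | b' <;>
        first
        | exact b.1.trans b'.1.symm
        | omega
        | skip
      refine f.one w b.1 w' b'.1 (lv w t) (by rw [(hl w t g).1]; exact g) ?_
      rw [e', (hl w' t' g').1]
      exact g'
    subst ww
    exact ⟨rfl, by rw [← (hl w t g).1, e', (hl w t' g').1]⟩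
  · have g := f.last.2
    have uL : u ∈ S.L := by
      have up := f.up
      have uq := f.uq
      rcases (h.fe_z u).1 (S.fe_symm _ _ g) with e | e | e
      · rcases hn with ⟨-, rfl, -, rfl⟩ | ⟨-, rfl, -, rfl⟩ <;> contradiction
      · rcases hn with ⟨-, rfl, -, rfl⟩ | ⟨-, rfl, -, rfl⟩ <;> contradiction
      · exact e
    obtain ⟨-, b1, b2⟩ := lq u f.hu _ g
    have e : lv u S.z = k - 4 + k :=
      P.uniq ((hl u _ g).1.trans (f.last.1.symm.trans (P.it_add u _).symm)) (by omega) (by omega)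
    refine ⟨u, uL, by omega, ?_⟩
    rw [e, show (k : ℤ) - 4 + k = 2 * k - 4 by ring, PM.Fin1.top_eq (P := P) (u := u)]
    ring
  · intro w t g
    have := ox w t g
    have := f.lo_x nxu
    linarith
  · intro w t g
    have := ot w t g
    have := PM.Fin1.top_eq (P := P) (u := u)
    linarith
  · intro w t w' t' g g' e1 e2
    rcases hQ w with e | e | e | hw
    · rw [e] at g ⊢
      have := ox w' t' g'
      rw [lx t g]
      linarith
    · rw [e] at g e2 ⊢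
      have wx : w' ≠ x := fun z => by
        rw [z] at g' e2
        have := lx t' g'
        have := ly t g
        omega
      have := oy w' t' g' wx
      rw [ly t g]
      linarith
    · rw [e] at g e1
      have := lz t g
      omega
    · have := lq w hw t g
      omega
  · intro t w t' g g' wz e
    obtain ⟨b0, b1, b2, -⟩ := lz t g
    rcases hQ w with z | z | z | hw
    · rw [z] at g' e
      have := lx t' g'
      omega
    · rw [z] at g' e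
      have := ly t' g'
      omega
    · exact absurd z wz
    · obtain ⟨-, c1, c2⟩ := lq w hw t' g'
      have := f.c_Q b1 b2 b0 (by rw [(hl _ t g).1]; exact g) hw c1 c2
        (by rw [(hl w t' g').1]; exact g') (by omega)
      linarith
  · intro t g e
    have g6 := six _ pQ t g e
    rcases hn with ⟨-, rfl, -, -⟩ | ⟨-, -, rfl, rfl⟩
    · exact absurd g6 f.ownp
    · have := ly _ ((hy _).2 rfl)
      omega
  · intro t t' g e g'
    have g6 := six _ qQ t g e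
    rcases hn with ⟨-, -, -, rfl⟩ | ⟨-, rfl, -, -⟩
    · have := f.ownq g6
      have := lz t' g'
      omega
    · exact absurd g6 f.ownp
  · intro t t' g g' e e' w gw
    have key : ∀ s, p ∈ S.Cq S.p' S.q' → S.Fe p s → 2 * (k : ℤ) - 3 ≤ lv p s + 5 →
        lv S.z w + 5 + 2 ≤ k := fun s hp gs es => by
      obtain ⟨b0, b1, b2⟩ := lq p hp s gs
      have := f.own2 (lv p s - k) (by omega) (by omega) (by rw [P.it_sub, (hl p s gs).1]; exact gs)
      have := lz w gw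
      have := Int.odd_iff.1 f.oa
      have := Int.odd_iff.1 f.ob
      have := f.bk
      omega
    rcases hn with ⟨-, rfl, -, -⟩ | ⟨-, rfl, -, -⟩
    · exact key t pQ g e
    · exact key t' qQ g' e'
  · intro t t' _ _ e
    have := P.off_mono S.z (show lv S.z t ≤ lv S.z t' by simpa using e)
    linarith

/-- The final facts give the helix. -/
theorem Spi.Ok.hx_of_fin {W : Type} [Fintype W] [DecidableEq W] {k : ℕ} {r : ℝ} {S : Spi W}
    (h : S.Ok k) (P : PM W k r S.Fe) {C : W → W → ℝ} (hC : ∀ x n, Cg r (C x (P.it x n)) (P.F x n))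
    {x y p q u v : W} {a b : ℤ}
    (hn : (x = S.p' ∧ p = S.p ∧ y = S.q' ∧ q = S.q) ∨ (x = S.q' ∧ p = S.q ∧ y = S.p' ∧ q = S.p))
    (f : P.Fin1 (S.Cq S.p' S.q') x y S.z p q u v a b) : ∃ ρ τ t, S.Hx k r C ρ τ t :=
  let ⟨ρ, τ, t, g, _⟩ := h.hx2_of_fin P hC hn f
  ⟨ρ, τ, t, g⟩

end Pool.Agent.P.MP_3f5ded_co.UG
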