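import Pool.Agent.P.MP_3f5ded_co.ES2
import Pool.Agent.P.MP_3f5ded_co.ESHx

set_option autoImplicit false

namespace Pool.Agent.P.MP_3f5ded_co.UG

open Finset

namespace PM
variable {W : Type} {k : ℕ} {r : ℝ} {Fe : W → W → Prop} {P : PM W k r Fe} {Q : Finset W}
  {X Y : W → ℤ} {x y c p q u v : W} {a b : ℤ} [Fintype W] {Pt : Finset (W × W)}

/-- Case I after the sweeps, the parity argument and the cut lemma. -/
structure W2 (P : PM W k r Fe) (Q : Finset W) (x y c p q u v : W) (Y X : W → ℤ) (a b : ℤ) : Prop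
    extends P.W1 Q x y c p q u v Y X a b where
  ab : a + 2 ≤ b
  oa : Odd a
  ob : Odd b
  Xp : X p = a
  Xq : X q = b
  nolow : ∀ w ∈ Q, ∀ l, X w ≤ l → l + 2 ≤ k → ¬ Fe w (P.it w l)
  call : ∀ n : ℤ, 1 ≤ n → n + 2 ≤ k → (P.Ty Q 0 c n ↔ Even n ∨ n = a ∨ n = b) ∧ ¬ P.Ty Q 1 c n
  xo : ∀ w ∈ Q, w ≠ p → w ≠ q → X w < a ∨ (a + 2 ≤ X w ∧ X w < b) ∨ b + 2 ≤ X w
  sw : ∀ l, 1 ≤ l → l < a → P.it u (l - 1) = P.it x l
  posx : ∀ l, 0 ≤ l → l < a → X (P.it x l) = l
  low : ∀ w ∈ Q, X w < a → P.it x (X w) = w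
  posy : ∀ l, a + 2 ≤ l → l < b → X (P.it y l) = l
  midy : ∀ w ∈ Q, a + 2 ≤ X w → X w < b → P.it y (X w) = w
  midx : ∀ w ∈ Q, a + 2 ≤ X w → X w ≤ b → P.it x (X w - 2) = w
  posh : ∀ l, b ≤ l → l + 3 ≤ k → X (P.it y l) = l + 2
  high : ∀ w ∈ Q, b + 2 ≤ X w → P.it y (X w - 2) = w

namespace W2

/-- The rank `i` of a particle at level `l`. -/
def Rk (a b l i : ℤ) : Prop :=
  (l ≤ a ∧ i = l) ∨ (a + 2 ≤ l ∧ l ≤ b ∧ i = l - 1) ∨ (b + 2 ≤ l ∧ i = l - 2)

variable (m : P.W2 Q x y c p q u v Y X a b) (d : D1 k Fe Q Pt x y c) {w w' : W} {i l n : ℤ}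
include m d

lemma xe (h0 : 0 ≤ n) (h1 : n < a) (e : P.it x n = w) : P.it w n = x ∧ X w ≤ n ∧ ¬ Fe w x := by
  subst e
  have A := m.xA n h0 h1
  have g := (m.c0 d).tA A h0
  exact ⟨g.1, g.2, fun f => A.2.1 (P.sym _ _ f)⟩

lemma xe' (h0 : a ≤ n) (h1 : n + 4 ≤ k) (e : P.it x n = w) :
    P.it w (n + 1) = x ∧ n + 1 < X w ∧ ¬ Fe w x := by
  subst e
  have A := m.xB n h0 h1
  have g := (m.c0 d).tB A (by omega)
  exact ⟨g.1, g.2, fun f => A.2.1 (P.sym _ _ f)⟩

lemma ye (h0 : 1 ≤ n) (h1 : n < b) (e : P.it y n = w) : P.it w n = y ∧ X w ≤ n ∧ ¬ Fe w y := by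
  subst e
  have A := m.yA n h0 h1
  have g := (m.c1 d).tA A (by omega)
  exact ⟨g.1, g.2, fun f => A.2.1 (P.sym _ _ f)⟩

lemma ye' (h0 : b ≤ n) (h1 : n + 3 ≤ k) (e : P.it y n = w) :
    P.it w (n + 1) = y ∧ n + 1 < X w ∧ ¬ Fe w y := by
  subst e
  have A := m.yB n h0 h1
  have g := (m.c1 d).tB A (by omega)
  exact ⟨g.1, g.2, fun f => A.2.1 (P.sym _ _ f)⟩

omit d in
lemma five (hw : w ∈ Q) :
    X w < a ∨ w = p ∨ (a + 2 ≤ X w ∧ X w < b) ∨ w = q ∨ b + 2 ≤ X w := by
  by_cases e : w = p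
  · tauto
  by_cases e' : w = q
  · tauto
  have := m.xo w hw e e'
  tauto

omit d in
lemma rank (hw : w ∈ Q) : ∃ i : ℤ, 0 ≤ i ∧ i + 3 ≤ k ∧ Rk a b (X w) i := by
  have r := m.rngX w hw
  have := m.ab
  have := m.a1
  have := m.bk
  have := m.Xp
  have := m.Xq
  unfold Rk
  rcases m.five hw with e | e | e | e | e
  · exact ⟨X w, by omega⟩
  · subst e; exact ⟨a, by omega⟩
  · exact ⟨X w - 1, by omega⟩
  · subst e; exact ⟨b - 1, by omega⟩
  · exact ⟨X w - 2, by omega⟩

omit d in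
lemma ex (h0 : 0 ≤ i) (h1 : i + 3 ≤ k) : ∃ w ∈ Q, Rk a b (X w) i := by
  have := m.ab
  have := m.a1
  have := m.bk
  unfold Rk
  by_cases c1 : i < a
  · exact ⟨_, (m.xA i h0 c1).1, by have := m.posx i h0 c1; omega⟩
  by_cases c2 : i = a
  · exact ⟨p, m.sp.hp, by have := m.Xp; omega⟩
  by_cases c3 : i + 1 < b
  · exact ⟨_, (m.yA (i + 1) (by omega) c3).1, by have := m.posy (i + 1) (by omega) c3; omega⟩
  by_cases c4 : i + 1 = b
  · exact ⟨q, m.sp.hq, by have := m.Xq; omega⟩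
  · exact ⟨_, (m.yB i (by omega) h1).1, by have := m.posh i (by omega) h1; omega⟩

lemma xy (j : ℤ) (h0 : 0 ≤ j) (h1 : j + 2 ≤ a) : P.it y (j + 1) = P.it x j := by
  have := m.ab
  have := m.bk
  have key : ∀ s : ℕ, ∀ j : ℤ, j < s → 0 ≤ j → j + 2 ≤ a → P.it y (j + 1) = P.it x j := by
    intro s
    induction s with
    | zero => intro j g g'; omega
    | succ s ih =>
      intro j g h0 h1
      have hw := (m.yA (j + 1) (by omega) (by omega)).1
      obtain ⟨e1, e2, -⟩ := m.ye d (n := j + 1) (by omega) (by omega) rfl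
      have r := m.rngX _ hw
      have lo := m.low _ hw (by omega)
      generalize X (P.it y (j + 1)) = t at *
      rcases lt_trichotomy t j with c | c | c
      · have := P.uniq ((ih t (by omega) r.1 (by omega)).trans lo) (by omega) (by omega)
        omega
      · rw [← lo, c]
      · have := (m.xe d r.1 (by omega) lo).1
        rw [show t = j + 1 by omega, e1] at this
        exact absurd this.symm d.n01
  exact key (j + 1).toNat j (by omega) h0 h1

lemma yx (j : ℤ) (h0 : b ≤ j + 1) (h1 : j + 4 ≤ k) : P.it x j = P.it y (j + 1) := by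
  have := m.ab
  have := m.a1
  have key : ∀ s : ℕ, ∀ j : ℤ, k - j < s → b ≤ j + 1 → j + 4 ≤ k → P.it x j = P.it y (j + 1) := by
    intro s
    induction s with
    | zero => intro j g g' g''; omega
    | succ s ih =>
      intro j g h0 h1
      have hw := (m.xB j (by omega) h1).1
      obtain ⟨e1, e2, -⟩ := m.xe' d (n := j) (by omega) h1 rfl
      have r := m.rngX _ hw
      have hb : b + 2 ≤ X (P.it x j) := by
        rcases m.five hw with e | e | e | e | e
        · omega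
        · rw [e, m.Xp] at e2; omega
        · omega
        · rw [e, m.Xq] at e2; omega
        · exact e
      have hi := m.high _ hw hb
      generalize X (P.it x j) = t at *
      rcases lt_trichotomy (t - 2) (j + 1) with c | c | c
      · have := (m.ye' d (by omega) (by omega) hi).1
        rw [show t - 2 = j by omega, e1] at this
        exact absurd this d.n01
      · rw [← c, hi]
      · have := ih (t - 3) (by omega) (by omega) (by omega)
        rw [show t - 3 + 1 = t - 2 by ring, hi] at this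
        have := P.uniq this (by omega) (by omega)
        omega
  exact key (k - j + 1).toNat j (by omega) h0 h1

/-- The levels between the rank and the position carry the edges to `x` and `y`. -/
lemma slot (hw : w ∈ Q) (r : Rk a b (X w) i) (h0 : i ≤ l) (h1 : l < X w) :
    P.it w l ∉ Q ∧ ¬ Fe w (P.it w l) := by
  have := m.ab
  have := m.a1
  have := m.bk
  have g := m.rngX w hw
  rcases r with r | r | r
  · omega
  · have e := m.xe' d (by omega) (by omega) (m.midx w hw r.1 r.2.1)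
    rw [show l = X w - 2 + 1 by omega, e.1]
    exact ⟨d.o0, e.2.2⟩
  have hi := m.high w hw r.1
  by_cases c : l = X w - 1
  · have e := m.ye' d (by omega) (by omega) hi
    rw [show l = X w - 2 + 1 by omega, e.1]
    exact ⟨d.o1, e.2.2⟩
  · have f := m.yx d (X w - 3) (by omega) (by omega)
    rw [show X w - 3 + 1 = X w - 2 by ring, hi] at f
    have e := m.xe' d (by omega) (by omega) f
    rw [show l = X w - 3 + 1 by omega, e.1]
    exact ⟨d.o0, e.2.2⟩

omit d in
lemma nu (r : Rk a b (X w) i) (h : i + 4 ≤ k) : w ≠ u := fun e => by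
  have := m.xu
  have := m.ab
  have := m.bk
  rw [e] at r
  unfold Rk at r
  omega

omit d in
lemma nv (r : Rk a b (X w) i) (h : 1 ≤ i) : w ≠ v := fun e => by
  have := m.a1
  have := m.ab
  rw [e, m.xv] at r
  unfold Rk at r
  omega

/-- The rank `i` meets `u` at the label `i - 1`. -/
lemma toU' (hw : w ∈ Q) (wu : w ≠ u) (wv : w ≠ v) (r : Rk a b (X w) i) : P.it u (i - 1) = w := by
  have hk := d.sz.big
  have := m.ab
  have key : ∀ s : ℕ, ∀ w ∈ Q, ∀ i : ℤ, i < s → w ≠ u → w ≠ v → Rk a b (X w) i →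
      P.it u (i - 1) = w := by
    intro s
    induction s with
    | zero =>
      intro w hw i g _ _ r
      obtain ⟨i', g1, -, r'⟩ := m.rank hw
      unfold Rk at r r'
      omega
    | succ s ih =>
      intro w hw i g wu wv r
      obtain ⟨i', -, g2, r'⟩ := m.rank hw
      obtain rfl : i = i' := by unfold Rk at r r'; omega
      obtain ⟨t, t0, t1, e⟩ := (m.M d).past hw wu wv
      have t2 : t < i := by
        by_contra c
        exact (m.slot d hw r (not_lt.1 c) t1).1 (by rw [m.fl.it m.hu hw e]; exact m.hu)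
      by_cases c : t = i - 1
      · rw [← c, e]
      obtain ⟨w', hw', r'⟩ := m.ex (i := t + 1) (by omega) (by omega)
      have f := ih w' hw' (t + 1) (by omega) (m.nu r' (by omega)) (m.nv r' (by omega)) r'
      rw [add_sub_cancel_right, e] at f
      subst f
      unfold Rk at r r'
      omega
  exact key (i + 1).toNat w hw i (by omega) wu wv r

lemma ulow (h0 : 0 ≤ l) (h1 : l + 5 ≤ k) : P.it u l ∈ Q := by
  obtain ⟨w', hw', r'⟩ := m.ex (i := l + 1) (by omega) (by omega)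
  have f := m.toU' d hw' (m.nu r' (by omega)) (m.nv r' (by omega)) r'
  rw [add_sub_cancel_right] at f
  rwa [f]

/-- The label of a port is below the rank. -/
lemma plab (hw : w ∈ Q) (r : Rk a b (X w) i) (h0 : 0 ≤ l) (h1 : l + 2 ≤ k) (f : Fe w (P.it w l)) :
    l < i ∧ (w ≠ u → l + 2 ≤ i) := by
  have g : l < X w := by
    by_contra c
    exact m.nolow w hw l (not_lt.1 c) h1 f
  have t : l < i := by
    by_contra c
    exact (m.slot d hw r (not_lt.1 c) g).2 f
  refine ⟨t, fun wu => ?_⟩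
  by_contra c
  have e := m.fl.it m.hu hw (m.toU' d hw wu (m.nv r (by omega)) r)
  rw [show l = i - 1 by omega, e] at f
  exact m.fl.cl w hw u m.hu f

lemma cty (h1 : 0 ≤ n) (h2 : n + 2 ≤ k) : ¬ P.Ty Q 1 c n := fun B =>
  (m.call n (m.idx2 d (by omega) B) h2).2 B

lemma prt (hw : w ∈ Q) {t : W} (f : Fe w t) :
    ∃ l : ℤ, Even l ∧ 0 ≤ l ∧ l + 4 ≤ k ∧ P.it w l = t := by
  have hk := d.sz.big
  have := m.ab
  have := m.a1
  have := m.bk
  have g := m.rngX w hw
  obtain ⟨j, j1, j2, e⟩ := P.win (x := w) (y := t) (fun e => m.fl.cl w hw w hw (e ▸ f)) (X w)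
  have j3 : ¬ j + 2 ≤ k := fun c => m.nolow w hw j j1 c (e ▸ f)
  have j4 : j ≠ k - 1 := fun c => m.fl.cl w hw t (by rw [← e, c]; exact m.mid d hw) f
  rw [← P.it_sub] at e
  have j5 : 0 ≤ j - k ∧ j - k + 2 ≤ k := by omega
  generalize j - k = l at e j5
  by_cases z : l = 0
  · exact ⟨l, by rw [z]; exact Even.zero, j5.1, by omega, e⟩
  have o := m.one l (by omega) j5.2
  have hx := (m.c0 d).has j5.1 (by omega) (has_of_port o d.o0 hw (e ▸ f))
  have hy := (m.c1 d).has j5.1 (by omega) (has_of_port o d.o1 hw (e ▸ f))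
  have hc := ((m.c2 d).has j5.1 (by omega) (has_of_port o d.o2 hw (e ▸ f))).resolve_right
    (m.cty d (by omega) (by omega))
  have na : l ≠ a := fun c => by
    subst c
    rcases hx with A | B
    · have := A.ne (m.xB l le_rfl (by omega)); omega
    · have := B.ne (m.xA (l - 1) (by omega) (by omega)); omega
  have nb : l ≠ b := fun c => by
    subst c
    rcases hy with A | B
    · have := A.ne (m.yB l le_rfl (by omega)); omega
    · have := B.ne (m.yA (l - 1) (by omega) (by omega)); omega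
  have nk : l ≠ k - 2 := fun c => by
    rcases hx with A | B
    · have := m.idx0 d (by omega) j5.2 A; omega
    · refine B.2.1 ?_
      rw [show l - 1 = k - 3 by omega, m.xp]
      exact P.sym _ _ ((m.sp.fx p).2 rfl)
  have ev : Even l := (((m.call l (by omega) j5.2).1.1 hc).resolve_right (by tauto))
  refine ⟨l, ev, j5.1, ?_, e⟩
  obtain ⟨s, hs⟩ := ev
  obtain ⟨s', hs'⟩ := d.sz.even
  omega

lemma uniqp (hw : w ∈ Q) (hw' : w' ∈ Q) (f : Fe w (P.it w l)) (f' : Fe w' (P.it w' l)) :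
    w = w' := by
  classical
  have hk := d.sz.big
  obtain ⟨t, -, t0, t1, e⟩ := m.prt d hw f
  rw [← (P.inj w' t l).2 ((P.inj w t l).1 e)] at f'
  rw [← e] at f
  by_contra ne
  by_cases z : t = 0
  · subst z
    have h4 : 2 + 2 ≤ P.dfc Q 0 := Nat.add_le_add
      (one_lt_card.2 ⟨y, by simp [d.o1, m.miss1], c, by simp [d.o2, m.miss2], d.n12⟩)
      (one_lt_card.2 ⟨w, by simp [hw, f], w', by simp [hw', f'], ne⟩)
    have := m.le3 d (l := 0) le_rfl (by omega)
    omega
  · have := two_le_dfc'' hw f hw' f' ne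
    have := m.one t (by omega) (by omega)
    omega

lemma cno (h1 : 1 ≤ n) (h2 : n + 2 ≤ k) (f : ¬ Fe c (P.it c n)) : P.Ty Q 0 c n :=
  ((m.c2 d).ty (by omega) h2 (m.in2 d h1 (by omega)) f).resolve_right (m.call n h1 h2).2

lemma fu : Fe u c := by
  by_contra f
  have := m.xu
  obtain ⟨n, n1, n2, e, A | B⟩ := (m.c2 d).adj m.hu f
  · have := ((m.c2 d).tA A (by have := m.idx2 d n1 A; omega)).2
    rw [e] at this
    omega
  · exact m.cty d (by have := m.idx2 d n1 B; omega) n2 B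

lemma a5 : 5 ≤ a := by
  have r : Rk a b (X p) a := Or.inl ⟨m.Xp.le, m.Xp.symm⟩
  have f1 := (m.sp.fx p).2 rfl
  obtain ⟨l1, ⟨s1, e1⟩, g1, g2, g3⟩ := m.prt d m.sp.hp f1
  obtain ⟨l2, ⟨s2, e2⟩, h1, h2, h3⟩ := m.prt d m.sp.hp m.sp.fp
  have b1 := (m.plab d m.sp.hp r g1 (by omega) (g3 ▸ f1)).2 m.up.symm
  have b2 := (m.plab d m.sp.hp r h1 (by omega) (h3 ▸ m.sp.fp)).2 m.up.symm
  have ne : l1 ≠ l2 := fun e => d.n02 (by rw [← g3, e, h3])
  obtain ⟨s, hs⟩ := m.oa
  omega

lemma nov {t : W} : ¬ Fe v t := fun f => by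
  obtain ⟨l, -, g1, g2, g3⟩ := m.prt d m.hv f
  exact m.nolow v m.hv l (by rw [m.xv]; exact g1) (by omega) (g3 ▸ f)

lemma walk (hw : w ∈ Q) (l0 : 0 ≤ l) (l1 : l + 4 ≤ k) (f : Fe w (P.it w l)) (n1 : 1 ≤ n)
    (n2 : n + 3 ≤ k) (fc : Fe c (P.it c n)) (nl : n ≤ l + 3) : P.it c (n + 1) = w ∨
      ∃ j, n + 1 ≤ j ∧ j ≤ l + k ∧ P.it w j = P.it c (n + 1) := by
  have hk := d.sz.big
  have := m.ab
  have := m.a1
  have := m.bk
  have xu := m.xu
  obtain ⟨sa, ha⟩ := m.oa
  obtain ⟨sb, hb⟩ := m.ob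
  have on : ¬ (Even n ∨ n = a ∨ n = b) := fun g => ((m.call n n1 (by omega)).1.2 g).2.1 fc
  have on' : n % 2 = 1 ∧ n ≠ a ∧ n ≠ b := by rw [Int.even_iff] at on; omega
  have el : l % 2 = 0 := by
    obtain ⟨l', ⟨s, e1⟩, g1, g2, g3⟩ := m.prt d hw f
    have := P.uniq g3 (by omega) (by omega)
    omega
  have A : P.Ty Q 0 c (n + 1) :=
    (m.call (n + 1) (by omega) (by omega)).1.2 (Or.inl (by rw [Int.even_iff]; omega))
  obtain ⟨e1, e2⟩ := (m.c2 d).tA A (by omega)
  have hz := A.1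
  have fz : ¬ Fe (P.it c (n + 1)) c := fun g => A.2.1 (P.sym _ _ g)
  generalize P.it c (n + 1) = z at *
  by_cases zw : z = w
  · exact Or.inl zw
  right
  have zu : z ≠ u := fun e => fz (e ▸ m.fu d)
  obtain ⟨i', i0, i1, r'⟩ := m.rank hz
  have rz := m.rngX z hz
  have bi : i' + 1 ≤ n := by
    unfold Rk at r'
    rcases m.five hz with e | e | e | e | e
    · have lo := m.low z hz e
      have c1 : X z ≠ n + 1 := fun g => d.n02 (by rw [← (m.xe d rz.1 e lo).1, g, e1])
      have c2 : X z ≠ n := fun g => by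
        have t := m.xy d n (by omega) (by omega)
        rw [g] at lo
        rw [lo] at t
        exact d.n12 (by rw [← (m.ye d (by omega) (by omega) t).1, e1])
      omega
    · exact absurd (e ▸ m.sp.fp) fz
    · have c1 : X z ≠ n + 1 := fun g =>
        d.n12 (by rw [← (m.ye d (by omega) e.2 (m.midy z hz e.1 e.2)).1, g, e1])
      omega
    · exact absurd (e ▸ m.sp.fq) fz
    · omega
  obtain ⟨j, j1, j2, e⟩ := P.win zw (X w)
  have wn := m.cx.win (m.fl.cl w hw z hz) e j1 j2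
  rw [m.fl.z w hw z hz zw, mul_zero, add_zero] at wn
  have e' := m.fl.it hw hz e
  obtain ⟨i, -, -, r⟩ := m.rank hw
  have pl := m.plab d hw r l0 (by omega) f
  have rw' := m.rngX w hw
  refine ⟨j, ?_, ?_, e⟩
  · by_contra c
    have wu : w ≠ u := fun g => by rw [g] at j1; omega
    have pl2 := pl.2 wu
    unfold Rk at r
    rcases m.five hw with g | g | g | g | g
    · have lo := m.low w hw g
      have c1 : j ≠ X w := fun t => d.o0 (by rw [← (m.xe d rw'.1 g lo).1, ← t, e]; exact hz)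
      have t := m.xy d (X w) rw'.1 (by omega)
      rw [lo] at t
      have t' := (m.ye d (by omega) (by omega) t).1
      rw [show X w + 1 = j by omega, e] at t'
      exact d.o1 (t' ▸ hz)
    · rw [g, m.Xp] at r j1; omega
    · have t' := (m.ye d (by omega) g.2 (m.midy w hw g.1 g.2)).1
      rw [show X w = j by omega, e] at t'
      exact d.o1 (t' ▸ hz)
    · rw [g, m.Xq] at r j1; omega
    · omega
  · by_contra c
    rw [← P.it_sub] at e'
    have t : j - k < i' := by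
      by_contra c'
      exact (m.slot d hz r' (not_lt.1 c') (by omega)).1 (e' ▸ hw)
    by_cases wu : w = u
    · subst wu
      exact m.fl.cl w hw _ (m.ulow d l0 (by omega)) f
    · have s := m.fl.it m.hu hz (m.toU' d hz zu (m.nv r' (by omega)) r')
      rw [show i' - 1 = j - k by omega, e'] at s
      exact wu s

end W2

theorem W2.fin (m : P.W2 Q x y c p q u v Y X a b) (d : D1 k Fe Q Pt x y c) :
    P.Fin1 Q x y c p q u v a b := by
  have hk := d.sz.big
  have ab := m.ab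
  have bk := m.bk
  have a5 := m.a5 d
  have x4 : P.it x (k - 4) = u := by
    rw [m.yx d (k - 4) (by omega) (by omega), show (k : ℤ) - 4 + 1 = k - 3 by ring]
    exact (m.topB d (m.c1 d) (m.yB _ (by omega) (by omega))).1
  have yv : P.it y 1 = v := (m.xy d 0 le_rfl (by omega)).trans (m.v0 d).2
  refine ⟨m.fl, m.hu, m.hv, m.up, m.uq, m.oa, m.ob, a5, by omega, bk, ⟨?_, ?_⟩, ?_, ⟨m.i1, m.s1⟩,
    (m.sp.fy _).1 (P.sym _ _ m.port), ⟨m.e3' d, ?_⟩, ⟨yv, ?_⟩, m.j2 d, m.e3,
    fun n n1 n2 => ⟨fun f => ?_, fun g => ?_⟩, fun n => m.cno d, fun w hw t => m.prt d hw,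
    fun w hw w' hw' l => m.uniqp d hw hw', ⟨?_, m.fu d⟩, fun w hw wu => ?_, fun w hw t f => ?_,
    fun w hw l n => m.walk d hw, fun f => ?_, fun f => ?_, fun l l0 l1 f =>
      (m.plab d m.sp.hp (i := a) (Or.inl ⟨m.Xp.le, m.Xp.symm⟩) l0 (by omega) f).2 m.up.symm⟩
  · rw [← x4, ← P.it_add, show (-4 : ℤ) + k = k - 4 by ring]
  · rw [← x4]; exact (m.xB _ (by omega) (by omega)).2.2
  · rw [← m.xp, ← P.it_add, show (-3 : ℤ) + k = k - 3 by ring]
  · rw [P.sh_neg d.sw.e12 d.n12, m.s3, neg_zero]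
  · rw [← yv]; exact (m.yA 1 le_rfl (by omega)).2.2
  · have on : ¬ (Even n ∨ n = a ∨ n = b) := fun g => ((m.call n n1 n2).1.2 g).2.1 f
    rw [← Int.not_odd_iff_even] at on
    tauto
  · by_contra f
    have := (m.call n n1 n2).1.1 (m.cno d n1 n2 f)
    rw [← Int.not_odd_iff_even] at this
    tauto
  · obtain ⟨l, -, g1, g2, g3⟩ := m.prt d m.hu (m.fu d)
    by_cases e : l = k - 4
    · rw [← e, g3]
    · exact absurd (g3 ▸ m.ulow d g1 (by omega)) d.o2
  · by_cases wv : w = v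
    · subst wv
      exact ⟨k - 1, le_rfl, by omega, (m.M d).vu, fun l _ _ f => absurd f (m.nov d)⟩
    obtain ⟨i, i0, i1, r⟩ := m.rank hw
    have i2 : i ≠ 0 := fun e => wv ((m.M d).bot hw (by unfold W2.Rk at r; omega))
    refine ⟨i - 1 + k, by omega, by omega, ?_, fun l l0 l1 f => ?_⟩
    · rw [P.it_add]; exact m.fl.it m.hu hw (m.toU' d hw wu wv r)
    · have := (m.plab d hw r l0 (by omega) f).2 wu; omega
  · have wv : w ≠ v := fun e => m.nov d (e ▸ f)
    by_cases wu : w = u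
    · subst wu
      exact ⟨k - 1, by omega, by omega, (m.M d).uv'⟩
    obtain ⟨l, l1, l2, e⟩ := (m.M d).fut hw wu wv
    have : ¬ X w ≤ 0 := fun g => wv ((m.M d).bot hw g)
    exact ⟨l, by omega, by omega, m.fl.it m.hv hw e⟩
  · have := (m.plab d m.sp.hp (i := a) (Or.inl ⟨m.Xp.le, m.Xp.symm⟩) (by omega) (by omega) f).2
      m.up.symm
    omega
  · have := (m.plab d m.sp.hq (i := b - 1) (Or.inr (Or.inl (by have := m.Xq; omega))) (by omega)
      (by omega) f).2 m.uq.symm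
    omega

end PM

end Pool.Agent.P.MP_3f5ded_co.UG
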