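import Pool.Agent.P.MP_3f5ded_co.UVDefs

set_option autoImplicit false

namespace Pool.Agent.P.MP_3f5ded_co.UG

namespace Spi
variable {W : Type} (S : Spi W)

/-- The helix of the first mode with two more facts. -/
structure Hy (k : ℕ) (r : ℝ) (c : W → W → ℝ) (ρ : W → W → ℤ) (τ : W → W → ℝ) (t : ℝ) : Prop
    extends S.Hx k r c ρ τ t where
  own2 : ∀ y y' y'', S.Fe S.p y → S.Fe S.q y' → 2 * k - 3 ≤ ρ S.p y → 2 * k - 3 ≤ ρ S.q y' →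
    S.Fe S.z y'' → ρ S.z y'' ≤ k - 2
  zmono : ∀ y y', S.Fe S.z y → S.Fe S.z y' → ρ S.z y ≤ ρ S.z y' → τ S.z y ≤ τ S.z y'

/-- Some port sits at round `n`. -/
def Lo (ρ : W → W → ℤ) (n : ℤ) : Prop := ∃ x y, S.Fe x y ∧ ρ x y = n

/-- The three centres. -/
def Ce (x : W) : Prop := x = S.z ∨ x = S.p' ∨ x = S.q'

/-- The ports in the second mode. `f` is the vertex that enters first, `f'` its partner; `h` is the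
vertex that enters at level four, `h'` its partner. Rounds are levels: a low port of the clique has
its label as round, every other port has label plus `k`. -/
structure H3 (k : ℕ) (r : ℝ) (c : W → W → ℝ) (ρ : W → W → ℤ) (τ : W → W → ℝ) (t : ℝ)
    (f f' h h' : W) : Prop where
  nm : (f = S.p ∧ f' = S.p' ∧ h = S.q ∧ h' = S.q') ∨ (f = S.q ∧ f' = S.q' ∧ h = S.p ∧ h' = S.p')
  cg : ∀ x y, S.Fe x y → Cg r (c x y) (ρ x y + τ x y)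
  lo : ∀ x y, S.Fe x y → t ≤ τ x y
  hi : ∀ x y, S.Fe x y → S.Ce x ∨ ρ x y ≤ k - 2 → τ x y ≤ t + (2 * r - 2 * k - 1)
  hw : ∀ x y, S.Fe x y → τ x y ≤ t + 2
  inj : ∀ x y x' y', S.Fe x y → S.Fe x' y' → ρ x y = ρ x' y' → x = x' ∧ y = y'
  lab : ∀ x y x' y', S.Fe x y → S.Fe x' y' → ρ x y ≠ ρ x' y' + k
  ry : ρ h' h = 2 * k ∨ ρ h' h = 2 * k - 1
  rx : ρ f' f ≤ 2 * k - 2
  rc : ∀ x y, S.Fe x y → S.Ce x → k + 5 ≤ ρ x y ∧ ρ x y ≤ 2 * k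
  rq : ∀ x y, S.Fe x y → ¬ S.Ce x →
    (2 ≤ ρ x y ∧ ρ x y ≤ k - 2) ∨ (k + 5 ≤ ρ x y ∧ ρ x y ≤ 2 * k - 2)
  t0 : ∃ x y, S.Fe x y ∧ S.Ce x ∧ ρ x y = 2 * k
  t2 : ∃ x y, S.Fe x y ∧ S.Ce x ∧ ρ x y = 2 * k - 2
  walk : ∀ x y x' y', S.Fe x y → S.Fe x' y' → ρ x y ≤ k - 2 → S.Ce x' → ρ x y + k < ρ x' y' →
    τ x y ≤ τ x' y'
  two : ∃ y, S.Fe f y ∧ ρ f y = 2 ∧ τ f y = t
  lf : ∀ y, S.Fe f y → ρ f y ≤ k - 2 ∧ ∀ n : ℤ, 4 ≤ n → n < ρ f y → (S.Lo ρ n ↔ Even n)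
  lh : ∀ y, S.Fe h y → 6 ≤ ρ h y ∧ ρ h y ≤ k - 2
  above : ∀ n : ℤ, n ≤ k - 2 → S.Lo ρ n → n + k < ρ f' f
  iso : ∀ n : ℤ, Odd n → n ≤ k - 2 → S.Lo ρ n → 5 ≤ n ∧ S.Lo ρ (n - 1) ∧ S.Lo ρ (n + 1)
  c1 : ∀ A B : Finset ℤ, (∀ e ∈ A, Even e ∧ k + 4 ≤ 2 * e ∧ e ≤ k - 2 ∧ ¬ S.Lo ρ e) →
    (∀ o : ℤ, Odd o → 5 ≤ o → 2 * o ≤ k + 2 → S.Lo ρ o → o ∈ B) → A.card < B.card

/-- One of the two modes. -/
def Mo (k : ℕ) (r : ℝ) (c : W → W → ℝ) : Prop :=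
  ∃ ρ τ t, S.Hy k r c ρ τ t ∨ ∃ f f' h h', S.H3 k r c ρ τ t f f' h h'

/-- Every colouring of the block is in one of the two modes, read forwards or backwards. -/
def Rigid2 (k : ℕ) : Prop :=
  ∀ (r : ℝ) (C : W → W → ℝ), 1 ≤ r → r < k + 1 → S.Cl r C →
    S.Mo k r C ∨ S.Mo k r (fun x y => -C x y)

/-- The wires between two copies of the block. Free: the ports `(l, z)` and `(z, l)`. -/
structure Wm (l : W) (r : ℝ) (c d : W → W → ℝ) : Prop where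
  zy : ∀ y, S.Fe S.z y → y ≠ l → Cg r (c S.z y) (d y S.z)
  yz : ∀ y, S.Fe S.z y → y ≠ l → Cg r (c y S.z) (d S.z y)
  pa : Cg r (c S.p' S.p) (d S.q S.q')
  pb : Cg r (c S.q S.q') (d S.p' S.p)
  qa : Cg r (c S.q' S.q) (d S.p S.p')
  qb : Cg r (c S.p S.p') (d S.q' S.q)

end Spi

/-- A pole whose second pair is close and whose first pair is about five apart. -/
def IsM (k : ℕ) (A : Pole k (Fin 4)) : Prop :=
  A.Inj ∧ (∀ (r : ℝ) x, 1 ≤ r → r < k + 1 → A.Rel r x →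
      cd r (x 2) (x 3) ≤ 2 * r - 2 * k - 1 ∧
        cd r (x 2) (x 3) + 5 - (2 * r - 2 * k - 1) ≤ cd r (x 0) (x 1)) ∧
    ∀ r v c : ℝ, r < k + 1 → |v| ≤ 2 * r - 2 * k - 1 →
      ∃ a, A.Rel r ![a, a - (|v| + 5 - (2 * r - 2 * k - 1)), c + v, c]

end Pool.Agent.P.MP_3f5ded_co.UG
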