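import Pool.Agent.P.MP_3f5ded_co.ES3
import Pool.Agent.P.MP_3f5ded_co.UWDefs

set_option autoImplicit false

namespace Pool.Agent.P.MP_3f5ded_co.UG

open Finset

namespace PM
variable {W : Type} {k : ℕ} {r : ℝ} {Fe : W → W → Prop} {P : PM W k r Fe} {Q : Finset W}
  {X Y : W → ℤ} {z0 z1 z2 x y p q : W} [Fintype W] {Pt : Finset (W × W)}

/-- The roles of the three centres. -/
def Ro (k : ℕ) (Fe : W → W → Prop) (Q : Finset W) (z0 z1 z2 : W) : Prop :=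
  ∃ p q, Sp k Fe Q z1 z0 z2 p q ∨ Sp k Fe Q z2 z0 z1 p q ∨ Sp k Fe Q z1 z2 z0 p q

omit [Fintype W] in
lemma Ro.sw (h : Ro k Fe Q z0 z1 z2) : Ro k Fe Q z0 z2 z1 := by
  obtain ⟨p, q, h | h | h⟩ := h
  exacts [⟨p, q, Or.inr (Or.inl h)⟩, ⟨p, q, Or.inl h⟩, ⟨q, p, Or.inr (Or.inr h.sw)⟩]

omit [Fintype W] in
lemma Ro.sw' (h : Ro k Fe Q z0 z1 z2) : Ro k Fe Q z1 z0 z2 := by
  obtain ⟨p, q, h | h | h⟩ := h
  exacts [⟨q, p, Or.inl h.sw⟩, ⟨q, p, Or.inr (Or.inr h.sw)⟩, ⟨q, p, Or.inr (Or.inl h.sw)⟩]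

/-- The outcome of step (2). -/
def Out (P : PM W k r Fe) (Q : Finset W) : Prop :=
  ∃ x y c p q u v a b, Sp k Fe Q x y c p q ∧ (∀ w, w ∉ Q ↔ w = x ∨ w = y ∨ w = c) ∧ x ≠ y ∧
    P.Fin1 Q x y c p q u v a b

/-- The other outcome: two neighbouring labels are missed by all three centres. -/
def Out3 (P : PM W k r Fe) (Q : Finset W) : Prop :=
  ∃ z0 z1 z2 u Y X Pt, P.C0 Q z0 z1 z2 u Y X ∧ D1 k Fe Q Pt z0 z1 z2 ∧ (∀ w ∈ Q, 1 ≤ X w) ∧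
    Ro k Fe Q z0 z1 z2

lemma N.out (m : P.N Q z0 z1 z2 Y X) (d : D1 k Fe Q Pt z0 z1 z2) (s : Ro k Fe Q z0 z1 z2)
    (h2 : P.dfc Q (k - 2) ≤ 1) : P.Out Q ∨ P.Out3 Q := by
  obtain ⟨p, q, s⟩ := s
  by_cases h0 : P.dfc Q 0 ≤ 1
  · exact (m.two d h0 h2 s).elim
  obtain ⟨u, c⟩ := m.c0 d (by omega) h2
  by_cases pos : ∀ w ∈ Q, 1 ≤ X w
  · exact Or.inr ⟨_, _, _, _, _, _, _, c, d, pos, p, q, s⟩
  push Not at pos
  obtain ⟨v, hv, xv⟩ := pos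
  have c1 : P.C1 Q z0 z1 z2 u v Y X := ⟨c, hv, by have := m.rngX v hv; omega⟩
  rcases s with s | s | s
  · obtain ⟨a, b, w⟩ := c1.words d s.sw
    exact Or.inl ⟨_, _, _, _, _, _, _, _, _, s.sw, d.out, d.n01, (w.w2 d).fin d⟩
  · exact (c1.not_two d s (Or.inl ⟨rfl, rfl⟩)).elim
  · exact (c1.not_two d s.sw (Or.inr ⟨rfl, rfl⟩)).elim

lemma N.out' (m : P.N Q z0 z1 z2 Y X) (d : D1 k Fe Q Pt z0 z1 z2) (s : Ro k Fe Q z0 z1 z2) :
    (P.Out Q ∨ P.Out3 Q) ∨ ((P.mir Q).Out Q ∨ (P.mir Q).Out3 Q) := by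
  have hk := d.sz.big
  by_cases h2 : P.dfc Q (k - 2) ≤ 1
  · exact Or.inl (m.out d s h2)
  obtain ⟨Y', X', m'⟩ := m.mir d.o0 d.o1 d.o2
  refine Or.inr (m'.out d.sw s.sw ?_)
  rw [mir_dfc, sub_self]
  exact m.third d (l := k - 2) (by omega) (by omega) le_rfl (by omega) (by omega) (by omega)

theorem D1.out' (d : D1 k Fe Q Pt z0 z1 z2) (s : Ro k Fe Q z0 z1 z2) (fl : P.Fl Q) {C : W → W → ℝ}
    (hC : P.Rep C) : ∃ P' : PM W k r Fe, (P'.Out Q ∨ P'.Out3 Q) ∧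
      (P'.Rep C ∨ P'.Rep fun x y => -C x y) := by
  obtain ⟨P', Y, X, h, g⟩ := d.exists_N fl
  have : (P'.Out Q ∨ P'.Out3 Q) ∨ ((P'.mir Q).Out Q ∨ (P'.mir Q).Out3 Q) := by
    rcases g with (g | g) | (g | g) | g | g
    exacts [g.out' d s, g.out' d.sw s.sw, g.out' d.sw' s.sw', g.out' d.sw'.sw s.sw'.sw,
      g.out' d.sw.sw' s.sw.sw', g.out' d.sw.sw'.sw s.sw.sw'.sw]
  exact this.elim (fun a => ⟨_, a, Or.inl (h C hC)⟩) fun a => ⟨_, a, Or.inr (h C hC).mir⟩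

end PM

namespace Spi
variable {W : Type} [Fintype W] [DecidableEq W] {k : ℕ} {r : ℝ} {S : Spi W} (h : S.Ok k)
include h

lemma Ok.d1 : PM.D1 k S.Fe (S.Cq S.p' S.q')
    (insert (S.p, S.p') (insert (S.q, S.q') (insert S.p (insert S.q S.L) ×ˢ {S.z}))) S.z S.p' S.q' := by
  refine ⟨h.sz h.zp' h.zq' h.p'q' fun x hx y f => ?_, ?_, S.fe_symm, fun y => by rw [mem_cq]; tauto,
    h.zp', h.zq', h.p'q', by simp [h.fe_z, h.pp'.symm, h.p'q, h.p'L],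
    by simp [h.fe_z, h.pq'.symm, h.qq'.symm, h.q'L], by simp [h.fe_p', h.pq'.symm]⟩
  · rw [mem_cq] at hx
    simp only [mem_insert, Prod.mk.injEq, mem_product, mem_singleton]
    unfold Fe at f
    tauto
  · have := card_insert_le (S.p, S.p') (insert (S.q, S.q') (insert S.p (insert S.q S.L) ×ˢ {S.z}))
    have := card_insert_le (S.q, S.q') (insert S.p (insert S.q S.L) ×ˢ {S.z})
    have := card_insert_le S.p (insert S.q S.L)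
    have := card_insert_le S.q S.L
    have := h.cardL
    simp only [card_product, card_singleton] at *
    omega

lemma Ok.sp : PM.Sp k S.Fe (S.Cq S.p' S.q') S.p' S.q' S.z S.p S.q := by
  classical
  refine ⟨mem_cq.2 ⟨h.zp.symm, h.pp', h.pq'⟩, mem_cq.2 ⟨h.zq.symm, h.p'q.symm, h.qq'⟩, h.pq,
    fun w => ⟨fun f => (h.fe_p' w).1 (S.fe_symm _ _ f), fun e => e ▸ (h.fe_p _).2 (Or.inr rfl)⟩,
    fun w => ⟨fun f => (h.fe_q' w).1 (S.fe_symm _ _ f), fun e => e ▸ (h.fe_q _).2 (Or.inr rfl)⟩,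
    (h.fe_p _).2 (Or.inl rfl), (h.fe_q _).2 (Or.inl rfl), ?_⟩
  refine le_trans (Nat.add_le_add_right (Nat.mul_le_mul_left 2
    (card_le_card (t := insert S.p (insert S.q S.L)) fun w hw => ?_)) 6) ?_
  · simpa using (h.fe_z w).1 (S.fe_symm _ _ (mem_filter.1 hw).2)
  · have := card_insert_le S.p (insert S.q S.L)
    have := card_insert_le S.q S.L
    have := h.cardL
    omega

/-- The first outcome gives the helix. -/
theorem Ok.hy_of_out (P : PM W k r S.Fe) {C : W → W → ℝ} (R : P.Rep C)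
    (g : P.Out (S.Cq S.p' S.q')) : ∃ ρ τ t, S.Hy k r C ρ τ t := by
  obtain ⟨x, y, c, p, q, u, v, a, b, s, o, xy, F⟩ := g
  have nz : ∀ {t s}, (∀ w, S.Fe w t ↔ w = s) → t ≠ S.z := fun g e =>
    h.pq (((g _).1 (e ▸ h.sp.fp)).trans ((g _).1 (e ▸ h.sp.fq)).symm)
  have ox := (h.d1.out x).1 ((o x).2 (by simp))
  have oy := (h.d1.out y).1 ((o y).2 (by simp))
  obtain rfl : c = S.z := by
    have := (o S.z).1 h.d1.o0
    have := nz s.fx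
    have := nz s.fy
    tauto
  have hn : (x = S.p' ∧ p = S.p ∧ y = S.q' ∧ q = S.q) ∨ (x = S.q' ∧ p = S.q ∧ y = S.p' ∧ q = S.p) := by
    rcases ox.resolve_left (nz s.fx) with rfl | rfl <;>
      rcases oy.resolve_left (nz s.fy) with rfl | rfl
    · exact absurd rfl xy
    · exact Or.inl ⟨rfl, (h.sp.fx p).1 ((s.fx p).2 rfl), rfl, (h.sp.fy q).1 ((s.fy q).2 rfl)⟩
    · exact Or.inr ⟨rfl, (h.sp.fy p).1 ((s.fx p).2 rfl), rfl, (h.sp.fx q).1 ((s.fy q).2 rfl)⟩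
    · exact absurd rfl xy
  obtain ⟨ρ, τ, t, g, g1, g2⟩ := h.hx2_of_fin P R hn F
  exact ⟨ρ, τ, t, g, fun y y' w a b c d e => by have := g1 y y' a b c d w e; omega, g2⟩

/-- Step (2): a flat true clique gives the helix or the other outcome. -/
theorem Ok.step2 (P : PM W k r S.Fe) {C : W → W → ℝ} (hC : P.Rep C)
    (f : P.Flat (S.Cq S.p' S.q')) :
    (∃ ρ τ t, S.Hy k r C ρ τ t ∨ S.Hy k r (fun x y => -C x y) ρ τ t) ∨
      ∃ P' : PM W k r S.Fe, P'.Out3 (S.Cq S.p' S.q') ∧ (P'.Rep C ∨ P'.Rep fun x y => -C x y) := by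
  obtain ⟨j, fl⟩ := f.fl (cq_cl (Or.inr rfl) (Or.inr rfl))
  obtain ⟨P', g | g, R⟩ := h.d1.out' ⟨_, _, Or.inr (Or.inr h.sp)⟩ fl (PM.Rep.relift hC j)
  · rcases R with R | R
    · obtain ⟨ρ, τ, t, g⟩ := h.hy_of_out P' R g
      exact Or.inl ⟨ρ, τ, t, Or.inl g⟩
    · obtain ⟨ρ, τ, t, g⟩ := h.hy_of_out P' R g
      exact Or.inl ⟨ρ, τ, t, Or.inr g⟩
  · exact Or.inr ⟨P', g, R⟩

/-- The two outcomes, for any property `M` of colourings that both outcomes give. -/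
theorem Ok.modes (step1 : ∀ P : PM W k r S.Fe, P.Flat (S.Cq S.p' S.q'))
    {M : (W → W → ℝ) → Prop} (m1 : ∀ C ρ τ t, S.Hy k r C ρ τ t → M C)
    (m3 : ∀ (P : PM W k r S.Fe) C, P.Rep C → P.Out3 (S.Cq S.p' S.q') → M C ∨ M fun x y => -C x y)
    (C : W → W → ℝ) (h1 : 1 ≤ r) (h2 : r < k + 1) (c : S.Cl r C) : M C ∨ M fun x y => -C x y := by
  obtain ⟨P, hC⟩ := exists_pm h h1 h2 c
  rcases h.step2 P hC (step1 P) with ⟨ρ, τ, t, g | g⟩ | ⟨P', g, R | R⟩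
  · exact Or.inl (m1 _ _ _ _ g)
  · exact Or.inr (m1 _ _ _ _ g)
  · exact m3 P' C R g
  · simpa only [neg_neg] using (m3 P' _ R g).symm

end Spi

end Pool.Agent.P.MP_3f5ded_co.UG
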