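import Pool.Agent.P.MP_3f5ded_co.ELJ

set_option autoImplicit false

namespace Pool.Agent.P.MP_3f5ded_co.UG

namespace PM
variable {W : Type} {k : ℕ} {r : ℝ} {Fe : W → W → Prop} [Fintype W]

/-- The words of the three centres in case III, no port is a first item. -/
structure W3 (P : PM W k r Fe) (Q : Finset W) (x y c f h z1 z2 u : W) (Y X : W → ℤ) : Prop
    extends P.C0 Q x z1 z2 u Y X where
  nm : (z1 = y ∧ z2 = c) ∨ (z1 = c ∧ z2 = y)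
  sp : Sp k Fe Q x y c f h
  pos : ∀ w ∈ Q, 1 ≤ X w
  nf : ∀ w ∈ Q, ¬ Fe w (P.it w (X w))
  xB : ∀ n : ℤ, 0 ≤ n → n + 3 ≤ k → ¬ P.Ty Q 0 x n
  ya : P.Ty Q 0 y 1 ∧ P.it y 1 = f
  yb : P.Ty Q 0 y 2
  yB : ∀ n : ℤ, 3 ≤ n → n + 3 ≤ k → P.Ty Q 1 y n
  cB : ∀ n : ℤ, 1 ≤ n → n + 2 ≤ k → ¬ P.Ty Q 0 c n

/-- A low port of `Q` at the level `l`. -/
def LoP (P : PM W k r Fe) (Q : Finset W) (X : W → ℤ) (l : ℤ) : Prop :=
  ∃ w ∈ Q, X w ≤ l ∧ Fe w (P.it w l)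

end PM

end Pool.Agent.P.MP_3f5ded_co.UG
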