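import Pool.Agent.P.MP_3f5ded_co.ES3

set_option autoImplicit false

namespace Pool.Agent.P.MP_3f5ded_co.UG

open Finset

namespace PM
variable {W : Type} {k : ℕ} {r : ℝ} {Fe : W → W → Prop} {P : PM W k r Fe} {Q : Finset W}
  {X Y : W → ℤ} {z0 z1 z2 x y c p q s s' u v w : W} {a b n l : ℤ} {C : W → W → ℝ}

open Classical in
/-- The mirror image of case III: labels `l ↦ k - 1 - l`, indices `n ↦ -2 - n`. -/
noncomputable def mir3 (P : PM W k r Fe) (Q : Finset W) : PM W k r Fe :=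
  (P.rev.shift (1 - k)).relift fun w => if w ∈ Q then 0 else 1

lemma Rep.mir3 (h : P.Rep C) : (P.mir3 Q).Rep fun x y => -C x y := (h.rev.shift _).relift _

lemma mir3_it (hw : w ∈ Q) (l : ℤ) : (P.mir3 Q).it w l = P.it w (k - 1 - l) := by
  simp only [mir3, relift, shift, rev, if_pos hw]; congr 1; ring

lemma mir3_it' (hw : w ∉ Q) (l : ℤ) : (P.mir3 Q).it w l = P.it w (-2 - l) := by
  simp only [mir3, relift, shift, rev, if_neg hw]; congr 1; ring

lemma mir3_has : (P.mir3 Q).Has Q c l ↔ P.Has Q c (k - 1 - l) :=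
  exists_congr fun x => and_congr_right fun hx => by rw [mir3_it hx]

lemma mir3_ty (hc : c ∉ Q) {t : ℤ} : (P.mir3 Q).Ty Q t c n ↔ P.Ty Q (1 - t) c (k - 2 - n) := by
  have e : P.it c (k - 2 - n) = P.it c (-2 - n) := by
    rw [← P.it_add c (-2 - n)]; congr 1; ring
  unfold Ty
  rw [mir3_it' hc, e]
  refine and_congr_right fun h => and_congr_right fun _ => ?_
  simp only [mir3, relift, shift, rev, if_neg hc, if_pos h]
  omega

/-- The word with low edges below `m` and high edges from `m` on. -/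
def Sh3 (P : PM W k r Fe) (Q : Finset W) (s : W) (m : ℤ) : Prop :=
  1 ≤ m ∧ m + 2 ≤ k ∧ (∀ n, 1 ≤ n → n < m → P.Ty Q 0 s n) ∧ (∀ n, m ≤ n → n + 3 ≤ k → P.Ty Q 1 s n) ∧
    ¬ P.Has Q s m ∧ ¬ P.Ty Q 0 s (k - 2) ∧ ¬ P.Ty Q 1 s 0

lemma Fl.sh3 (fl : P.Fl Q) (hk : 12 ≤ k) (h : P.Cen Q X s) (h0 : ¬ P.Ty Q 1 s 0)
    (h1 : ¬ P.Ty Q 0 s (k - 2)) (tri : ∀ n : ℤ, 1 ≤ n → n ≤ k - 3 → P.Ty Q 0 s n ∨ P.Ty Q 1 s n) :
    ∃ m, P.Sh3 Q s m := by
  by_cases B : P.Ty Q 1 s (k - 3)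
  · obtain ⟨m, m1, m2, m3, m4⟩ := fl.word hk (by omega) tri B
    refine ⟨m, m1, by omega, m3, fun n a b => m4 n a (by omega), fun g => ?_, h1, h0⟩
    rcases h.has (by omega) (by omega) g with g | g
    · have := g.ne (m4 m le_rfl m2); omega
    · by_cases e : m = 1
      · exact h0 (by simpa [e] using g)
      · have := g.ne (m3 (m - 1) (by omega) (by omega)); omega
  have A := (tri _ (by omega) le_rfl).resolve_right B
  refine ⟨k - 2, by omega, by omega, fun n a b => (tri n a (by omega)).resolve_right fun g => ?_,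
    fun n a b => by omega, fun g => ?_, h1, h0⟩
  · have : n ≠ k - 3 := fun e => B (e ▸ g)
    exact fl.noBA (p := s) hk (fun n a b => (tri n a b).imp_right Or.inl) a (by omega) le_rfl g A
  · rcases h.has (by omega) (by omega) g with g | g
    · exact h1 g
    · exact B (by rwa [show (k : ℤ) - 2 - 1 = k - 3 by ring] at g)

lemma Sh3.of_mir (hs : s ∉ Q) (h : (P.mir3 Q).Sh3 Q s a) : P.Sh3 Q s (k - 1 - a) := by
  obtain ⟨a1, a2, a3, a4, a5, a6, a7⟩ := h
  refine ⟨by omega, by omega, fun n n1 n2 => ?_, fun n n1 n2 => ?_, by rwa [mir3_has] at a5,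
    by simpa using (mir3_ty hs).not.1 a7, by simpa using (mir3_ty hs).not.1 a6⟩
  · simpa using (mir3_ty hs).1 (a4 (k - 2 - n) (by omega) (by omega))
  · simpa using (mir3_ty hs).1 (a3 (k - 2 - n) (by omega) (by omega))

variable [Fintype W] {Pt : Finset (W × W)}

lemma mir3_dfc (l : ℤ) : (P.mir3 Q).dfc Q l = P.dfc Q (k - 1 - l) := by
  classical
  unfold dfc
  congr 2
  · exact filter_congr fun c _ => by rw [mir3_has]
  · exact filter_congr fun x hx => by rw [mir3_it hx]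

open Classical in
/-- Two thin centres do not both have a mixed word. -/
lemma Sh3.two (h : P.Sh3 Q s a) (h' : P.Sh3 Q s' b) (ab : a < b) (fl : P.Fl Q) (hQ : Q.card + 2 = k)
    (out : ∀ w, w ∉ Q ↔ w = s ∨ w = s' ∨ w = c) (e1 : s ≠ s') (e2 : s ≠ c) (e3 : s' ≠ c)
    (cen : ∀ t, t ∉ Q → P.Cen Q X t) (one : ∀ l : ℤ, 1 ≤ l → l + 2 ≤ k → P.dfc Q l ≤ 1) : False := by
  obtain ⟨a1, a2, a3, a4, a5, a6, -⟩ := h
  obtain ⟨b1, b2, b3, b4, b5, -⟩ := h'
  have os := (out s).2 (by simp)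
  have os' := (out s').2 (by simp)
  have oc := (out c).2 (by simp)
  have lo : ∀ n, 1 ≤ n → n < b → P.it s' n ∈ Q ∧ X (P.it s' n) ≤ n := fun n g g' =>
    ⟨(b3 n g g').1, ((cen _ os').tA (b3 n g g') (by omega)).2⟩
  have hi : ∀ n, a ≤ n → n ≤ k - 3 → P.it s n ∈ Q ∧ n + 1 < X (P.it s n) := fun n g g' =>
    ⟨(a4 n g (by omega)).1, ((cen _ os).tB (a4 n g (by omega)) (by omega)).2⟩
  obtain rfl : b = a + 1 := by
    by_contra g
    have := (cover (P := P) (Q := Q) (X := X) (x := s') (y := s) (l := a + 1) (i := 1) (j := a + 1)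
      (i' := a) (j' := k - 3) (by omega) (by omega) (by omega) (by omega)
      (fun n g g' => by have := lo n g (by omega); exact ⟨this.1, by omega⟩)
      fun n g g' => by have := hi n g g'; exact ⟨this.1, by omega⟩).1
    omega
  have cv : ∀ l, a ≤ l → l ≤ a + 1 → (cnt Q X l : ℤ) = a := fun l l1 l2 => by
    have t := (cover (P := P) (Q := Q) (X := X) (x := s') (y := s) (l := l) (i := 1) (j := a)
      (i' := a) (j' := k - 3) (by omega) (by omega) (by omega) (by omega)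
      (fun n g g' => by have := lo n g (by omega); exact ⟨this.1, by omega⟩)
      fun n g g' => by have := hi n g g'; exact ⟨this.1, by omega⟩).2 (by omega)
    rw [cnt_eq (P := P) (x := s') (i := 1) (j := a) (by omega) (by omega) fun w =>
      ⟨fun g => (t w g.1).1 g.2, ?_⟩]
    · ring
    · rintro ⟨n, g, g', rfl⟩
      have := lo n g (by omega); exact ⟨this.1, by omega⟩
  have o1 := one a a1 a2
  have o2 := one (a + 1) b1 b2
  have p1 := fl.par (cen _ os).cut out e1 e2 e3 cen (l := a) (by omega) a2 fun w hw _ f =>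
    a5 (has_of_port o1 os hw f)
  have p2 := fl.par (cen _ os).cut out e1 e2 e3 cen (l := a + 1) (by omega) b2 fun w hw _ f =>
    b5 (has_of_port o2 os' hw f)
  rw [if_neg fun g => a5 ((cen _ os).hasA g), if_pos (b3 a a1 (by omega))] at p1
  rw [if_neg (c := P.Ty Q 0 s' (a + 1)) fun g => b5 ((cen _ os').hasA g), if_neg] at p2
  swap
  · intro g
    by_cases e : a + 1 = k - 2
    · exact a6 (e ▸ g)
    · have := g.ne (a4 _ (by omega) (by omega)); omega
  have c1 := cv a le_rfl (by omega)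
  have c2 := cv (a + 1) (by omega) le_rfl
  have d1 := (cen _ oc).has (by omega) (by omega) (has_of_one o1 os oc e2 a5)
  have d2 := (cen _ oc).has (by omega) (by omega) (has_of_one o2 os' oc e3 b5)
  rw [add_sub_cancel_right] at d2
  rw [Nat.even_iff] at p1 p2
  by_cases g : P.Ty Q 0 c a
  · rw [if_pos g] at p1
    rw [if_pos (d2.resolve_right fun t => by have := g.ne t; omega)] at p2
    omega
  · rw [if_neg g] at p1
    have A : P.Ty Q 0 c (a + 1) := by
      by_contra t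
      rw [if_neg t] at p2
      omega
    have := fl.jump' (d1.resolve_left g) A (by omega)
    omega

/-- Case III. -/
structure III0 (P : PM W k r Fe) (Q : Finset W) (z0 z1 z2 u : W) (Y X : W → ℤ) : Prop
    extends P.C0 Q z0 z1 z2 u Y X where
  pos : ∀ w ∈ Q, 1 ≤ X w

namespace III0
variable (m : P.III0 Q z0 z1 z2 u Y X) (d : D1 k Fe Q Pt z0 z1 z2)
include m d

lemma cen (t : W) (ht : t ∉ Q) : P.Cen Q X t := by
  rcases (d.out t).1 ht with rfl | rfl | rfl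
  exacts [m.c0 d, m.c1 d, m.c2 d]

lemma mir : ∃ u' Y' X', (P.mir3 Q).III0 Q z2 z1 z0 u' Y' X' := by
  classical
  have hk := d.sz.big
  have d' := d.sw'.sw.sw'
  obtain ⟨Z, cz, z2', z1', l1, l2⟩ := m.z
  obtain ⟨V, cv, a0, a2, mn⟩ := P.cut_after' z0 (-1)
  replace a2 := a2 z2 d.e02 m.i2
  rw [m.s2] at a2
  have l3 := mn Z cz (by
    have := (cz.side d.e02 m.i2).2 (by rw [m.s2]; omega); omega)
  have l4 := m.cx.le cv (x := z0) (by rw [m.x0]; omega)
  have N' : ∃ Y' X', (P.mir3 Q).N Q z2 z1 z0 Y' X' := by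
    refine ⟨_, _, (m.fl.rev.shift _).relift fun x hx => if_pos hx, (cz.rev.shift _).relift _,
      (cv.rev.shift _).relift _, fun w => by have := l3 w; omega,
      by rw [mir3_it' d.o2]; exact m.e3, by rw [mir3_it' d.o2]; exact m.j2 d, ?_, ?_, ?_, ?_, ?_, ?_,
      fun w hw => ?_, fun w hw => ?_⟩
    · simp [PM.mir3, relift, shift, rev, d.o1, d.o2, m.s3]
    · simp [PM.mir3, relift, shift, rev, d.o0, d.o2, P.sh_neg d.e02 d.n02.symm, m.s2]
    · simp only [if_neg d.o2, z2']; ring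
    · simp only [if_neg d.o1, z1']; ring
    · simp only [if_neg d.o2, a2]; ring
    · simp only [if_neg d.o0, a0]; ring
    · have := l2 w hw; simp only [if_pos hw]; omega
    · have := m.pos w hw; have := l4 w; simp only [if_pos hw]; omega
  obtain ⟨Y', X', N'⟩ := N'
  obtain ⟨u', c'⟩ := N'.c0 d' (by
    have := m.lam3 d
    rw [mir3_dfc, sub_zero, ← dfc_per (l := -1) (by simp)]; omega)
    (by rw [mir3_dfc]; exact m.one _ (by omega) (by omega))
  refine ⟨u', Y', X', c', fun w hw => ?_⟩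
  by_contra g
  have := (c'.c0 d').hasA (C1.v0 ⟨c', hw, by have := N'.rngX w hw; omega⟩ d').1
  rw [mir3_has] at this
  exact (m.lam d).2.2 (this.per ⟨-1, by ring⟩)

lemma noA {t : W} (ht : t ∉ Q) : ¬ P.Ty Q 0 t 0 := fun g => by
  have := ((m.cen d t ht).tA g le_rfl).2
  have := m.pos _ g.1
  omega

lemma noB {t : W} (ht : t ∉ Q) : ¬ P.Ty Q 1 t (k - 2) := fun g => by
  have := ((m.cen d t ht).tB g (by omega)).2
  have := m.hi _ g.1
  omega

lemma sh1 (f : ∀ w, Fe w z1 ↔ w = p) : ∃ b, P.Sh3 Q z1 b :=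
  m.fl.sh3 d.sz.big (m.c1 d) (fun g => by have := m.idx1 d (by omega) (by have := d.sz.big; omega) g; omega)
    (fun g => by have := m.idx1 d (by have := d.sz.big; omega) (by omega) g; omega) (m.tri1 d f)

/-- The word of `z0`. -/
lemma word0 (hp : p ∈ Q) (f : ∀ w, Fe w z0 ↔ w = p) : (∃ a, P.Sh3 Q z0 a) ∨ ∃ a : ℤ, 2 ≤ a ∧ a + 2 ≤ k ∧
    P.it z0 (a - 1) = p ∧ ∀ n : ℤ, 0 ≤ n → n + 3 ≤ k → n ≠ a - 1 → P.Ty Q 1 z0 n := by
  have hk := d.sz.big
  have fp : Fe z0 p := P.sym _ _ ((f p).2 rfl)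
  rcases m.tri0 d f 0 le_rfl (by omega) with g | g | g
  · exact absurd g (m.noA d d.o0)
  · obtain ⟨j, j1, j2, e⟩ := P.win (x := z0) (y := p) (fun e => d.o0 (e ▸ hp)) (-2)
    have a1 : j ≠ -2 := fun t => d.e01 (by rw [← m.i1, ← t, e]; exact fp)
    have a2 : j ≠ -1 := fun t => d.e02 (by rw [← m.i2, ← t, e]; exact fp)
    have a3 : j ≠ 0 := fun t => g.2.1 (by rw [← t, e]; exact fp)
    refine Or.inr ⟨j + 1, by omega, by omega, by rwa [add_sub_cancel_right], fun n n1 n2 n3 => ?_⟩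
    rcases m.tri0 d f n n1 (by omega) with t | t | t
    · have : n ≠ 0 := fun c => m.noA d d.o0 (c ▸ t)
      exact absurd t (m.fl.noBA hk (m.tri0 d f) le_rfl (by omega) (by omega) g)
    · exact t
    · have := P.uniq (t.trans e.symm) (by omega) (by omega); omega
  · refine Or.inl (m.fl.sh3 hk (m.c0 d) (fun t => t.2.1 (g ▸ fp))
      (fun t => by have := m.idx0 d (by omega) (by omega) t; omega) fun n n1 n2 => ?_)
    rcases m.tri0 d f n (by omega) n2 with t | t | t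
    exacts [Or.inl t, Or.inr t, by have := P.uniq (t.trans g.symm) (by omega) (by omega); omega]

/-- The word of `z2`. -/
lemma word2 (hq : q ∈ Q) (f : ∀ w, Fe w z2 ↔ w = q) : ∃ b, P.Sh3 Q z2 b ∨ (1 ≤ b ∧ b + 3 ≤ k ∧
    P.it z2 b = q ∧ ∀ n : ℤ, 1 ≤ n → n + 2 ≤ k → n ≠ b → P.Ty Q 0 z2 n) := by
  have hk := d.sz.big
  have fp : Fe z2 q := P.sym _ _ ((f q).2 rfl)
  rcases m.tri2 d f (k - 2) (by omega) le_rfl with g | g | g
  · obtain ⟨j, j1, j2, e⟩ := P.win (x := z2) (y := q) (fun e => d.o2 (e ▸ hq)) (-1)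
    have a1 : j ≠ -1 := fun t => d.e02 (P.sym _ _ (by rw [← m.j2 d, ← t, e]; exact fp))
    have a2 : j ≠ 0 := fun t => d.e12 (P.sym _ _ (by rw [← m.e3, ← t, e]; exact fp))
    have a3 : j ≠ k - 2 := fun t => g.2.1 (by rw [← t, e]; exact fp)
    refine ⟨j, Or.inr ⟨by omega, by omega, e, fun n n1 n2 n3 => ?_⟩⟩
    rcases m.tri2 d f n n1 (by omega) with t | t | t
    · exact t
    · have : n ≠ k - 2 := fun c => m.noB d d.o2 (c ▸ t)
      exact absurd g (m.fl.noBA hk (m.tri2 d f) n1 (by omega) le_rfl t)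
    · have := P.uniq (t.trans e.symm) (by omega) (by omega); omega
  · exact absurd g (m.noB d d.o2)
  · obtain ⟨b, h⟩ := m.fl.sh3 hk (m.c2 d) (fun t => by have := m.idx2 d (by omega) t; omega)
      (fun t => t.2.1 (g ▸ fp)) fun n n1 n2 => by
        rcases m.tri2 d f n n1 (by omega) with t | t | t
        exacts [Or.inl t, Or.inr t, by have := P.uniq (t.trans g.symm) (by omega) (by omega); omega]
    exact ⟨b, Or.inl h⟩

lemma two (h : P.Sh3 Q s a) (h' : P.Sh3 Q s' b) (out : ∀ w, w ∉ Q ↔ w = s ∨ w = s' ∨ w = c)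
    (e1 : s ≠ s') (e2 : s ≠ c) (e3 : s' ≠ c) : False := by
  rcases lt_trichotomy a b with g | g | g
  · exact h.two h' g m.fl d.sz.cardQ out e1 e2 e3 (m.cen d) m.one
  · have := two_le_dfc ((out s).2 (by simp)) ((out s').2 (by simp)) e1 h.2.2.2.2.1 (g ▸ h'.2.2.2.2.1)
    have := m.one a h.1 h.2.1
    omega
  · exact h'.two h g m.fl d.sz.cardQ (fun w => by rw [out]; tauto) e1.symm e3 e2 (m.cen d) m.one

end III0

/-- Case III with `x = z0` all high. -/
structure III1 (P : PM W k r Fe) (Q : Finset W) (x y c p q z1 z2 u : W) (Y X : W → ℤ) (a b : ℤ) : Prop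
    extends P.III0 Q x z1 z2 u Y X where
  sp : Sp k Fe Q x y c p q
  yc : (y = z1 ∧ c = z2) ∨ (y = z2 ∧ c = z1)
  a2 : 2 ≤ a
  ak : a + 2 ≤ k
  xp : P.it x (a - 1) = p
  xB : ∀ n : ℤ, 0 ≤ n → n + 3 ≤ k → n ≠ a - 1 → P.Ty Q 1 x n
  yw : P.Sh3 Q y b ∨ (y = z2 ∧ 1 ≤ b ∧ b + 3 ≤ k ∧ P.it y b = q ∧
    ∀ n : ℤ, 1 ≤ n → n + 2 ≤ k → n ≠ b → P.Ty Q 0 y n)

/-- Some naming of case III has the form `III1`. -/
def HasIII (P : PM W k r Fe) (Q : Finset W) (Pt : Finset (W × W)) : Prop :=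
  ∃ x y c p q z1 z2 u Y X a b, D1 k Fe Q Pt x z1 z2 ∧ P.III1 Q x y c p q z1 z2 u Y X a b

namespace III0
variable (m : P.III0 Q z0 z1 z2 u Y X) (d : D1 k Fe Q Pt z0 z1 z2)
include m d

lemma one' (sp : Sp k Fe Q z0 z1 z2 p q) : P.HasIII Q Pt := by
  obtain ⟨b, h⟩ := m.sh1 d sp.fy
  rcases m.word0 d sp.hp sp.fx with ⟨a, g⟩ | ⟨a, g1, g2, g3, g4⟩
  · exact (m.two d g h d.out d.n01 d.n02 d.n12).elim
  · exact ⟨_, _, _, _, _, _, _, _, _, _, a, b, d, m, sp, Or.inl ⟨rfl, rfl⟩, g1, g2, g3, g4, Or.inl h⟩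

lemma two' (sp : Sp k Fe Q z0 z2 z1 p q) : P.HasIII Q Pt ∨ ∃ a, P.Sh3 Q z0 a := by
  obtain ⟨b, h⟩ := m.word2 d sp.hq sp.fy
  rcases m.word0 d sp.hp sp.fx with g | ⟨a, g1, g2, g3, g4⟩
  · exact Or.inr g
  · exact Or.inl ⟨_, _, _, _, _, _, _, _, _, _, a, b, d, m, sp, Or.inr ⟨rfl, rfl⟩, g1, g2, g3, g4,
      h.imp_right fun t => ⟨rfl, t⟩⟩

/-- Up to the mirror image, `x = z0` has only high edges. -/
theorem hasIII (s : Sp k Fe Q z1 z0 z2 p q ∨ Sp k Fe Q z2 z0 z1 p q ∨ Sp k Fe Q z1 z2 z0 p q) :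
    P.HasIII Q Pt ∨ (P.mir3 Q).HasIII Q Pt := by
  obtain ⟨u', Y', X', m'⟩ := m.mir d
  have d' := d.sw'.sw.sw'
  rcases s with s | s | s
  · exact Or.inl (m.one' d s.sw)
  · rcases m.two' d s.sw with g | ⟨a, g⟩
    · exact Or.inl g
    rcases m'.two' d' s with g' | ⟨b, g'⟩
    · exact Or.inr g'
    exact (m.two d g (g'.of_mir d.o2) d.sw.out d.n02 d.n01 d.n12.symm).elim
  · exact Or.inr (m'.one' d' s.sw)

end III0

end PM

end Pool.Agent.P.MP_3f5ded_co.UG
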