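import Pool.Agent.P.MP_3f5ded_co.ET1
import Pool.Agent.P.MP_3f5ded_co.ET0
import Pool.Agent.P.MP_3f5ded_co.ESHx

set_option autoImplicit false

namespace Pool.Agent.P.MP_3f5ded_co.UG

open Finset

namespace PM
variable {W : Type} {k : ℕ} {r : ℝ} {Fe : W → W → Prop} {P : PM W k r Fe} {Q : Finset W}
  {X Y : W → ℤ} {z1 z2 x y c p q s u v w : W} {a b n l : ℤ}

/-- Two particles of the clique meet inside both windows. -/
lemma Fl.meet (fl : P.Fl Q) (h : P.Cut X) (hw : w ∈ Q) (hv : v ∈ Q) (e : v ≠ w) :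
    ∃ j, X w ≤ j ∧ j < X w + k ∧ X v ≤ j ∧ j < X v + k ∧ P.it w j = v ∧ P.it v j = w := by
  obtain ⟨j, j1, j2, f⟩ := P.win e (X w)
  have := h.win (fl.cl w hw v hv) f j1 j2
  rw [fl.z w hw v hv e, mul_zero, add_zero] at this
  exact ⟨j, j1, j2, this.1, this.2, f, fl.it hw hv f⟩

/-- A low edge to a centre. -/
lemma Cen.low (h : P.Cen Q X s) (fl : P.Fl Q) (hw : w ∈ Q) (h0 : 0 ≤ l) (h1 : l + 2 ≤ k)
    (xw : X w ≤ l) (e : P.it w l = s) (f : ¬ Fe w s) : P.Ty Q 0 s l ∧ P.it s l = w := by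
  rcases h.has h0 (by omega) ⟨w, hw, f, e⟩ with g | g
  · exact ⟨g, fl.lab_inj g.1 hw (fun t => g.2.1 (P.sym _ _ t)) f (h.tA g h0).1 e⟩
  · have g' := h.tB g (by omega)
    rw [sub_add_cancel] at g'
    rw [fl.lab_inj g.1 hw (fun t => g.2.1 (P.sym _ _ t)) f g'.1 e] at g'
    omega

lemma off_B {t : W} (f : ¬ Fe s t) (e : P.it s n = t) (h : P.sh s t = 1) :
    P.off s n = P.off t (n + k + 1) + (k + 1 - r) := by
  have := (P.co s t n f e).2
  rw [h, show n + ((k : ℤ) + 1) * 1 = n + k + 1 by ring] at this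
  unfold off
  push_cast at this ⊢
  linarith

variable [Fintype W] {Pt : Finset (W × W)}

namespace III1
variable (m : P.III1 Q x y c p q z1 z2 u Y X a b) (d : D1 k Fe Q Pt x z1 z2)
include m d

lemma out (w : W) : w ∉ Q ↔ w = x ∨ w = y ∨ w = c := by
  rw [d.out]; rcases m.yc with ⟨rfl, rfl⟩ | ⟨rfl, rfl⟩ <;> tauto

lemma oy : y ∉ Q := (m.out d y).2 (by simp)
lemma oc : c ∉ Q := (m.out d c).2 (by simp)

lemma nes : x ≠ y ∧ x ≠ c ∧ y ≠ c := by
  rcases m.yc with ⟨rfl, rfl⟩ | ⟨rfl, rfl⟩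
  exacts [⟨d.n01, d.n02, d.n12⟩, ⟨d.n02, d.n01, d.n12.symm⟩]

lemma ceny : P.Cen Q X y := m.cen d y (m.oy d)
lemma cenc : P.Cen Q X c := m.cen d c (m.oc d)

lemma idx {t : ℤ} (hs : s = y ∨ s = c) (h1 : -1 ≤ n) (h2 : n + 2 ≤ k) (g : P.Ty Q t s n) : 1 ≤ n := by
  rcases m.yc with ⟨rfl, rfl⟩ | ⟨rfl, rfl⟩ <;> rcases hs with rfl | rfl
  exacts [(m.idx1 d h1 h2 g).1, m.idx2 d h1 g, m.idx2 d h1 g, (m.idx1 d h1 h2 g).1]

lemma xA (h1 : -1 ≤ n) (h2 : n + 2 ≤ k) : ¬ P.Ty Q 0 x n := fun g => by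
  have i := m.idx0 d h1 h2 g
  have : n ≠ a - 1 := fun e => g.2.1 (by rw [e, m.xp]; exact P.sym _ _ ((m.sp.fx p).2 rfl))
  have := g.ne (m.xB n i.1 i.2 this)
  omega

lemma xw (hw : w ∈ Q) (e : w ≠ p) : ∃ n : ℤ, 0 ≤ n ∧ n + 3 ≤ k ∧ P.it x n = w ∧ P.Ty Q 1 x n ∧
    n + 1 < X w ∧ P.it w (n + 1) = x := by
  obtain ⟨n, n1, n2, g, t | t⟩ := (m.c0 d).adj hw fun f => e ((m.sp.fx w).1 f)
  · exact absurd t (m.xA d n1 n2)
  · have i := m.idx0 d n1 n2 t
    have := (m.c0 d).tB t n2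
    rw [g] at this
    exact ⟨n, i.1, i.2, g, t, this.2, this.1⟩

lemma one_p (hw : w ∈ Q) (e : X w ≤ 1) : w = p := by
  by_contra g
  obtain ⟨n, _, _, _, _, _, _⟩ := m.xw d hw g
  omega

lemma two_w (hw : w ∈ Q) (e : X w ≤ 2) (g : w ≠ p) : P.it x 0 = w ∧ P.it w 1 = x := by
  obtain ⟨n, _, _, t, _, _, t'⟩ := m.xw d hw g
  obtain rfl : n = 0 := by omega
  exact ⟨t, t'⟩

lemma mc1 : ¬ P.Has Q c 1 := fun g => by
  have hk := d.sz.big
  rcases (m.cenc d).has (by omega) (by omega) g with g | g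
  · exact g.2.1 (by rw [m.one_p d g.1 ((m.cenc d).tA g (by omega)).2]; exact P.sym _ _ m.sp.fp)
  · have := m.idx d (Or.inr rfl) (by omega) (by omega) g; omega

lemma ya : P.Ty Q 0 y 1 ∧ P.it y 1 = p ∧ P.it p 1 = y ∧ X p = 1 := by
  have hk := d.sz.big
  rcases (m.ceny d).has (by omega) (by omega) (has_of_one (m.one 1 le_rfl (by omega)) (m.oc d)
    (m.oy d) (m.nes d).2.2.symm (m.mc1 d)) with g | g
  · have t := (m.ceny d).tA g (by omega)
    have e := m.one_p d g.1 t.2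
    rw [e] at t
    exact ⟨g, e, t.1, by have := m.pos p m.sp.hp; omega⟩
  · have := m.idx d (Or.inl rfl) (by omega) (by omega) g; omega

/-- After its first item `p` has only ports outside `Q`. -/
lemma pout (h1 : 2 ≤ l) (h2 : l ≤ k) (o : P.it p l ∉ Q) : Fe p (P.it p l) := by
  rcases (m.out d _).1 o with e | e | e
  · exact e ▸ (m.sp.fx p).2 rfl
  · have := P.uniq (e.trans (m.ya d).2.2.1.symm) (by omega) (by omega); omega
  · exact e ▸ m.sp.fp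

lemma p2 (np : ¬ Fe p (P.it p 2)) : P.it p 2 ∈ Q ∧ X (P.it p 2) ≤ 2 ∧ P.it (P.it p 2) 2 = p := by
  have hk := d.sz.big
  have o : P.it p 2 ∈ Q := by_contra fun o => np (m.pout d le_rfl (by omega) o)
  exact ⟨o, not_lt.1 ((m.fl.side m.cx m.sp.hp o rfl).not.1 (by rw [(m.ya d).2.2.2]; omega)),
    m.fl.it m.sp.hp o rfl⟩

lemma y2 (g : P.Has Q y 2) : P.Ty Q 0 y 2 ∧ P.it y 2 = P.it x 0 ∧ P.it (P.it x 0) 2 = y := by
  have hk := d.sz.big
  rcases (m.ceny d).has (by omega) (by omega) g with g | g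
  · have t := (m.ceny d).tA g (by omega)
    have e := (m.two_w d g.1 t.2 fun e => by
      have := P.uniq (e.trans (m.ya d).2.1.symm) (by omega) (by omega); omega).1
    exact ⟨g, e.symm, e ▸ t.1⟩
  · have := (m.ya d).1.ne g; omega

/-- The first edge of `c` is high. -/
lemma cB1 : P.Ty Q 1 c 1 := by
  have hk := d.sz.big
  have o := m.one 2 (by omega) (by omega)
  have key : ¬ Fe p (P.it p 2) → P.it (P.it x 0) 2 = p := fun np => by
    obtain ⟨g1, g2, g3⟩ := m.p2 d np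
    rw [(m.two_w d g1 g2 (P.ne p 2)).1, g3]
  by_cases h : P.Has Q c 2
  · refine ((m.cenc d).has (by omega) (by omega) h).resolve_left fun g => ?_
    have t := (m.cenc d).tA g (by omega)
    have e := (m.two_w d g.1 t.2 fun e => g.2.1 (e ▸ P.sym _ _ m.sp.fp)).1
    rw [← e] at t
    by_cases hy : P.Has Q y 2
    · exact (m.nes d).2.2 ((m.y2 d hy).2.2.symm.trans t.1)
    · exact m.oc d (by
        rw [← t.1, key fun f => hy (has_of_port o (m.oy d) m.sp.hp f)]; exact m.sp.hp)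
  · exact (m.oy d (by
      rw [← (m.y2 d (has_of_one o (m.oc d) (m.oy d) (m.nes d).2.2.symm h)).2.2,
        key fun f => h (has_of_port o (m.oc d) m.sp.hp f)]; exact m.sp.hp)).elim

/-- The all-low word of `y` is the mirror image of the word of `x`. -/
lemma cA (e : y = z2) (b1 : 1 ≤ b) (b2 : b + 3 ≤ k) (b3 : P.it y b = q)
    (b4 : ∀ n : ℤ, 1 ≤ n → n + 2 ≤ k → n ≠ b → P.Ty Q 0 y n) : P.Ty Q 0 c (k - 3) := by
  subst e
  obtain rfl : c = z1 := by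
    rcases m.yc with ⟨e, -⟩ | ⟨-, e⟩
    exacts [absurd e.symm d.n12, e]
  obtain ⟨u', Y', X', m'⟩ := m.mir d
  have d' := d.sw'.sw.sw'
  obtain ⟨b', h⟩ := m'.word2 d' m.sp.hp m.sp.fx
  have t : (P.mir3 Q).III1 Q y x c q p c x u' Y' X' (k - 1 - b) b' :=
    ⟨m', m.sp.sw, Or.inr ⟨rfl, rfl⟩, by omega, by omega,
      by rw [mir3_it' d.o2, ← b3, ← P.it_sub y b]; congr 1; ring,
      fun n n1 n2 n3 => (mir3_ty d.o2).2 (b4 _ (by omega) (by omega) (by omega)),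
      h.imp_right fun t => ⟨rfl, t⟩⟩
  have := (mir3_ty d.o1).1 (t.cB1 d')
  rwa [show (k : ℤ) - 2 - 1 = k - 3 by ring] at this

/-- A jump of `c` needs a large `r`. -/
lemma nj (hr : 3 * r < 3 * k + 2) (h1 : 1 ≤ n) (h2 : n + 2 ≤ k) : ¬ P.Ty Q 0 c n := fun A => by
  have hk := d.sz.big
  have B := m.cB1 d
  obtain ⟨y1, y2, y3, y4⟩ := m.ya d
  obtain ⟨j, j1, j2, j3, j4, -, e⟩ := m.fl.meet m.cx B.1 m.sp.hp fun e =>
    B.2.1 (e ▸ P.sym _ _ m.sp.fp)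
  obtain ⟨i, i1, i2, i3, i4, -⟩ := m.xw d A.1 fun e => A.2.1 (e ▸ P.sym _ _ m.sp.fp)
  have e1 := P.off_co y1.2.1 rfl y1.2.2
  rw [y2] at e1
  have e2 := P.off_mono p (show 1 ≤ j by omega)
  have e3 := m.fl.off m.sp.hp B.1 e
  have e4 := P.off_mono (P.it c 1) (show j ≤ 1 + k + 1 by omega)
  have e5 := off_B B.2.1 rfl B.2.2
  have e6 := P.off_mono c h1
  have e7 := P.off_co A.2.1 rfl A.2.2
  have e8 := P.off_mono (P.it c n) (show n ≤ i + k + 1 by omega)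
  have e9 := off_B i4.2.1 rfl i4.2.2
  rw [i3] at e9
  have f1 := P.off_mono x (show i ≤ -2 + k by omega)
  have f2 : P.off x (-2 + k) = P.off x (-2) + (r - k) := by
    unfold off; rw [P.per]; push_cast; ring
  have f3 : P.off x (-2) ≤ P.off y 1 := by
    rcases m.yc with ⟨rfl, -⟩ | ⟨rfl, -⟩
    · rw [← P.off_co d.e01 m.i1 m.s1]; exact P.off_mono _ (by omega)
    · refine (P.off_mono x (show (-2 : ℤ) ≤ -1 by omega)).trans ?_
      rw [← P.off_co d.e02 m.i2 m.s2]; exact P.off_mono _ (by omega)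
  linarith

lemma yw' (h : P.Sh3 Q y b) (hw : w ∈ Q) (e : w ≠ q) : ∃ n : ℤ, P.it y n = w ∧
    ((1 ≤ n ∧ n < b ∧ X w ≤ n ∧ P.it w n = y) ∨
      (b ≤ n ∧ n + 3 ≤ k ∧ n + 1 < X w ∧ P.it w (n + 1) = y)) := by
  obtain ⟨n, n1, n2, g, t⟩ := (m.ceny d).adj hw fun f => e ((m.sp.fy w).1 f)
  have i : 1 ≤ n := t.elim (m.idx d (Or.inl rfl) n1 n2) (m.idx d (Or.inl rfl) n1 n2)
  have : n ≠ k - 2 := fun e => t.elim (fun t => h.2.2.2.2.2.1 (e ▸ t)) fun t =>
    m.noB d (m.oy d) (e ▸ t)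
  refine ⟨n, g, ?_⟩
  by_cases c : n < b
  · have := (m.ceny d).tA (h.2.2.1 n i c) (by omega)
    rw [g] at this
    exact Or.inl ⟨i, c, this.2, this.1⟩
  · have := (m.ceny d).tB (h.2.2.2.1 n (by omega) (by omega)) n2
    rw [g] at this
    exact Or.inr ⟨by omega, by omega, this.2, this.1⟩

lemma b3 (h : P.Sh3 Q y b) : 3 ≤ b := by
  have hk := d.sz.big
  obtain ⟨y1, y2, y3, y4⟩ := m.ya d
  have b1 := h.1
  have b2 : b ≠ 1 := fun e => by have := y1.ne (h.2.2.2.1 1 (by omega) (by omega)); omega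
  by_contra g
  obtain rfl : b = 2 := by omega
  have lo : ∀ w ∈ Q, X w ≤ 3 → w ≠ p → w = q := fun w hw xw wp => by
    by_contra e
    obtain ⟨n, f, t | t⟩ := m.yw' d h hw e
    · exact wp (by rw [← f, show n = 1 by omega, y2])
    · omega
  obtain ⟨g1, g2, g3⟩ := m.p2 d fun f =>
    h.2.2.2.2.1 (has_of_port (m.one 2 (by omega) (by omega)) (m.oy d) m.sp.hp f)
  have e := lo _ g1 (by omega) (P.ne p 2)
  rw [e] at g2 g3
  have f1 : Fe p (P.it p 3) := m.pout d (by omega) (by omega) fun o => by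
    have := P.uniq ((lo _ o (not_lt.1 ((m.fl.side m.cx m.sp.hp o rfl).not.1 (by omega)))
      (P.ne p 3)).trans e.symm) (by omega) (by omega)
    omega
  have f2 : Fe q (P.it q 3) := by
    have o : P.it q 3 ∉ Q := fun o => by
      have t : P.it q 3 = p := by_contra fun t => P.ne q 3
        (lo _ o (not_lt.1 ((m.fl.side m.cx m.sp.hq o rfl).not.1 (by omega))) t)
      have := P.uniq (t.trans g3.symm) (by omega) (by omega)
      omega
    by_contra f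
    rcases (m.out d _).1 o with t | t | t
    · exact m.xA d (by omega) (by omega)
        ((m.c0 d).low m.fl m.sp.hq (by omega) (by omega) (by omega) t (t ▸ f)).1
    · exact f (t ▸ (m.sp.fy q).2 rfl)
    · exact f (t ▸ m.sp.fq)
  have := two_le_dfc'' m.sp.hp f1 m.sp.hq f2 m.sp.pq
  have := m.one 3 (by omega) (by omega)
  omega

/-- With three early entries, two particles do not enter last. -/
lemma top (h : P.Sh3 Q y b) (b4 : 4 ≤ b) (hv : v ∈ Q) (hw : w ∈ Q) (xv : k ≤ X v + 1)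
    (xw : k ≤ X w + 1) : v = w := by
  have hk := d.sz.big
  obtain ⟨y1, y2, y3, y4⟩ := m.ya d
  have A2 := h.2.2.1 2 (by omega) (by omega)
  have A3 := h.2.2.1 3 (by omega) (by omega)
  have t2 := ((m.ceny d).tA A2 (by omega)).2
  have t3 := ((m.ceny d).tA A3 (by omega)).2
  have n2 : P.it y 2 ≠ p := fun e => by
    have := P.uniq (e.trans y2.symm) (by omega) (by omega); omega
  have n3 : P.it y 3 ≠ p := fun e => by
    have := P.uniq (e.trans y2.symm) (by omega) (by omega); omega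
  have n4 : P.it y 3 ≠ P.it y 2 := fun e => by have := P.uniq e (by omega) (by omega); omega
  obtain ⟨s1, s2⟩ := m.two_w d A2.1 t2 n2
  obtain ⟨i, i1, -, i3, -, i4, i5⟩ := m.xw d A3.1 n3
  obtain rfl : i = 1 := by
    have : i ≠ 0 := fun e => n4 (by rw [← i3, e, s1])
    omega
  have key : ∀ v ∈ Q, k ≤ X v + 1 → P.it (P.it y 3) (k + 1) = v := fun v hv xv => by
    obtain ⟨j1, a1, -, -, a2, a3, -⟩ := m.fl.meet m.cx hv m.sp.hp fun e => by rw [← e] at xv; omega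
    obtain ⟨j2, b1, -, -, b2, b3, b5⟩ := m.fl.meet m.cx hv A2.1 fun e => by rw [← e] at xv; omega
    obtain ⟨j3, c1, -, -, c2, c3, c5⟩ := m.fl.meet m.cx hv A3.1 fun e => by rw [← e] at xv; omega
    have : j2 ≠ 1 + k := fun e => d.o0 (by rw [← s2, ← P.it_add, ← e, b5]; exact hv)
    have : j3 ≠ 1 + 1 + k := fun e => d.o0 (by rw [← i5, ← P.it_add, ← e, c5]; exact hv)
    have : j1 ≠ j2 := fun e => n2 (by rw [← b3, ← e, a3])
    have : j1 ≠ j3 := fun e => n3 (by rw [← c3, ← e, a3])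
    have : j2 ≠ j3 := fun e => n4 (by rw [← c3, ← e, b3])
    rwa [show (k : ℤ) + 1 = j3 by omega]
  exact (key v hv xv).symm.trans (key w hw xw)

lemma last (h : P.Sh3 Q y b) (hc : ¬ P.Ty Q 0 c (k - 2)) : ∃ v ∈ Q, ∃ w ∈ Q, v ≠ w ∧ k ≤ X v + 1 ∧
    k ≤ X w + 1 := by
  have hk := d.sz.big
  have o := m.one (k - 2) (by omega) (by omega)
  have key : ∀ s, s ∉ Q → P.Has Q s (k - 2) → ∃ v ∈ Q, k ≤ X v + 1 ∧ P.it v (k - 2) = s :=
    fun s hs g => by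
    have B := ((m.cen d s hs).has (by omega) (by omega) g).resolve_left fun t => by
      rcases (m.out d s).1 hs with rfl | rfl | rfl
      exacts [m.xA d (by omega) (by omega) t, h.2.2.2.2.2.1 t, hc t]
    have := (m.cen d s hs).tB B (by omega)
    rw [sub_add_cancel] at this
    exact ⟨_, B.1, by omega, this.1⟩
  have fin : ∀ s t, s ∉ Q → t ∉ Q → s ≠ t → P.Has Q s (k - 2) → P.Has Q t (k - 2) →
      ∃ v ∈ Q, ∃ w ∈ Q, v ≠ w ∧ k ≤ X v + 1 ∧ k ≤ X w + 1 := fun s t hs ht e g g' => by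
    obtain ⟨v, hv, v1, v2⟩ := key s hs g
    obtain ⟨w, hw, w1, w2⟩ := key t ht g'
    exact ⟨v, hv, w, hw, fun f => e (by rw [← v2, f, w2]), v1, w1⟩
  obtain ⟨n1, n2, n3⟩ := m.nes d
  by_cases hx : P.Has Q x (k - 2)
  · by_cases hy : P.Has Q y (k - 2)
    · exact fin x y d.o0 (m.oy d) n1 hx hy
    · exact fin x c d.o0 (m.oc d) n2 hx (has_of_one o (m.oy d) (m.oc d) n3 hy)
  · exact fin y c (m.oy d) (m.oc d) n3 (has_of_one o d.o0 (m.oy d) n1 hx)
      (has_of_one o d.o0 (m.oc d) n2 hx)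

/-- Without a low edge of `c` the word of `y` is known. -/
theorem words (cB : ∀ n : ℤ, 1 ≤ n → n + 2 ≤ k → ¬ P.Ty Q 0 c n) : P.Sh3 Q y 3 := by
  have hk := d.sz.big
  rcases m.yw with h | ⟨e, b1, b2, b3, b4⟩
  · have := m.b3 d h
    by_cases g : b = 3
    · exact g ▸ h
    obtain ⟨v, hv, w, hw, e, v1, w1⟩ := m.last d h (cB _ (by omega) (by omega))
    exact absurd (m.top d h (by omega) hv hw v1 w1) e
  · exact absurd (m.cA d e b1 b2 b3 b4) (cB _ (by omega) (by omega))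

theorem w3 (cB : ∀ n : ℤ, 1 ≤ n → n + 2 ≤ k → ¬ P.Ty Q 0 c n) :
    ∃ (r' : ℝ) (P' : PM W k r' Fe) (X' : W → ℤ), P.Same P' ∧ P'.W3 Q x y c p q z1 z2 u Y X' := by
  have hk := d.sz.big
  obtain ⟨r', P', X', s, c0, pos, nf⟩ := m.lj d m.pos
  have h := m.words d cB
  refine ⟨r', P', X', s, c0, ?_, m.sp, pos, nf, fun n n1 n2 => s.ty.not.2 (m.xA d (by omega) (by omega)),
    ⟨s.ty.2 (m.ya d).1, by rw [s.1]; exact (m.ya d).2.1⟩, s.ty.2 (h.2.2.1 2 (by omega) (by omega)),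
    fun n n1 n2 => s.ty.2 (h.2.2.2.1 n n1 n2), fun n n1 n2 => s.ty.not.2 (cB n n1 n2)⟩
  rcases m.yc with ⟨rfl, rfl⟩ | ⟨rfl, rfl⟩
  exacts [Or.inl ⟨rfl, rfl⟩, Or.inr ⟨rfl, rfl⟩]

end III1

end PM

end Pool.Agent.P.MP_3f5ded_co.UG
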