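import Pool.Agent.P.MP_3f5ded_co.ETG
import Pool.Agent.P.MP_3f5ded_co.ESHx
import Pool.Agent.P.MP_3f5ded_co.UWDefs

set_option autoImplicit false

namespace Pool.Agent.P.MP_3f5ded_co.UG

open Finset

namespace PM
variable {W : Type} {k : ℕ} {r r' : ℝ} {Fe : W → W → Prop} {P : PM W k r' Fe} {Q : Finset W}
  {X Y : W → ℤ} {x y c f h z1 z2 u w z : W} {n l : ℤ} {C : W → W → ℝ} {o : W → ℤ → ℝ}

/-- Offsets of a colouring `C` on the circle of length `r` along the items of `P`. -/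
structure Off (P : PM W k r' Fe) (r : ℝ) (C : W → W → ℝ) (o : W → ℤ → ℝ) : Prop where
  r1 : r < k + 1
  mono : ∀ w {n n' : ℤ}, n ≤ n' → o w n ≤ o w n'
  per : ∀ w n, o w (n + k) = o w n + (r - k)
  co0 : ∀ {w w' n}, ¬ Fe w w' → P.it w n = w' → P.sh w w' = 0 → o w' n = o w n
  co1 : ∀ {w w' n}, ¬ Fe w w' → P.it w n = w' → P.sh w w' = 1 →
    o w' (n + k + 1) = o w n + (r - k - 1)
  rep : ∀ w n, Cg r (C w (P.it w n)) (n + o w n)

lemma Same.off {P0 : PM W k r Fe} (s : P0.Same P) (hC : P0.Rep C) : P.Off r C P0.off := by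
  refine ⟨P0.r1, fun w _ _ => P0.off_mono w, fun w n => ?_, fun f e g => ?_, fun {w w' n} f e g => ?_,
    fun w n => ?_⟩
  · unfold PM.off
    rw [P0.per]
    push_cast
    ring
  · exact P0.off_co f (s.1 ▸ e) (s.2 ▸ g)
  · have := (P0.co w w' n f (s.1 ▸ e)).2
    rw [← s.2, g, show n + ((k : ℤ) + 1) * 1 = n + k + 1 by ring] at this
    unfold PM.off
    rw [this]
    push_cast
    ring
  · rw [s.1]
    have := hC w n
    unfold PM.off
    rwa [add_sub_cancel]

lemma Off.qq (O : P.Off r C o) (q : P.Fl Q) {w' : W} (hw : w ∈ Q) (hw' : w' ∈ Q)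
    (e : P.it w n = w') : o w' n = o w n :=
  O.co0 (q.cl w hw w' hw') e (q.z w hw w' hw' (e ▸ P.ne w n))

lemma Off.tB (O : P.Off r C o) (b : P.Ty Q 1 z n) :
    o (P.it z n) (n + k + 1) = o z n + (r - k - 1) := O.co1 b.2.1 rfl b.2.2

variable [Fintype W] {Pt : Finset (W × W)}

namespace W3
variable (m : P.W3 Q x y c f h z1 z2 u Y X) (d : D1 k Fe Q Pt x z1 z2) (O : P.Off r C o)
include m d

/-- The labels of the ports of `Q`. -/
lemma qrange (hw : w ∈ Q) (h0 : X w ≤ n) (h1 : n < X w + k) (p : Fe w (P.it w n)) :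
    (2 ≤ n ∧ n ≤ k - 2) ∨ (k + 5 ≤ n ∧ n ≤ 2 * k - 2) := by
  have hk := d.sz.big
  have a := m.pos w hw
  have b := m.hi w hw
  have n1 : n ≠ k - 1 := fun e => m.fl.cl w hw _ (m.mid d hw) (e ▸ p)
  have n2 : n ≠ 0 + k := fun e => m.nok d m.pos hw (by rwa [e, P.it_add] at p)
  have n3 : n ≠ 1 := fun e => m.mc1 d (m.pall hw le_rfl (by omega) (e ▸ p) (m.oc d))
  by_cases g : n < k
  · omega
  rw [← P.it_sub] at p
  have n4 : n - k ≠ 1 := fun e => m.mc1 d (m.pall hw le_rfl (by omega) (e ▸ p) (m.oc d))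
  have n5 : n - k ≠ 3 := fun e => m.my3 d (m.pall hw (by omega) (by omega) (e ▸ p) (m.oy d))
  have n6 : n - k ≠ 2 := fun e => by
    have := m.pone hw m.sp.hp (by omega) (by omega) (e ▸ p) (m.f2 d)
    have := m.xf d
    subst w
    omega
  have n7 : n - k ≠ 4 := fun e => by
    obtain ⟨v, hv, xv, pv⟩ := m.lo4 d
    have := m.pone hw hv (by omega) (by omega) (e ▸ p) pv
    subst w
    omega
  omega

/-- A port of a centre is a label that the centre misses. -/
lemma cmiss (hz : z ∉ Q) (h0 : 0 ≤ n) (h1 : n + 3 ≤ k) (p : Fe z (P.it z n)) :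
    ¬ P.Has Q z (n + 1) := fun g => by
  have := m.hasB d hz (Or.inl fun e => by
    subst e
    have := m.yh d h0 (by omega) p
    omega) (by omega) (by omega) g
  rw [add_sub_cancel_right] at this
  exact this.2.1 p

lemma crange (hz : z ∉ Q) (h0 : 0 ≤ n) (h1 : n < k) (p : Fe z (P.it z n)) : 4 ≤ n := by
  have hk := d.sz.big
  by_contra g
  have a := m.cmiss d hz h0 (by omega) p
  have zy : z ≠ y := fun e => by
    subst e
    have := m.yh d h0 (by omega) p
    omega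
  rcases (show n = 0 ∨ n = 1 ∨ n = 2 ∨ n = 3 by omega) with rfl | rfl | rfl | rfl
  · refine a (has_of_one (m.one 1 le_rfl (by omega)) (m.oc d) hz (fun e => ?_) (m.mc1 d))
    subst e
    rw [(m.yc d).2.1] at p
    exact (m.yc d).2.2.2 (P.sym _ _ p)
  · exact a (m.pall m.sp.hp (by omega) (by omega) (m.f2 d) hz)
  · exact a (has_of_one (m.one 3 (by omega) (by omega)) (m.oy d) hz zy.symm (m.my3 d))
  · obtain ⟨v, hv, -, pv⟩ := m.lo4 d
    exact a (m.pall hv (by omega) (by omega) pv hz)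

lemma cone {z' : W} (hz : z ∉ Q) (hz' : z' ∉ Q) (h0 : 0 ≤ n) (h1 : n < k) (p : Fe z (P.it z n))
    (p' : Fe z' (P.it z' n)) : z = z' := by
  by_contra e
  by_cases g : n + 3 ≤ k
  · have := two_le_dfc hz hz' e (m.cmiss d hz h0 g p) (m.cmiss d hz' h0 g p')
    have := m.one (n + 1) (by omega) (by omega)
    omega
  rcases (show n = -2 + k ∨ n = -1 + k by omega) with rfl | rfl <;> rw [P.it_add] at p p'
  · have key : ∀ z, z ∉ Q → Fe z (P.it z (-2)) → z = z2 := fun z hz p => by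
      rcases (d.out z).1 hz with rfl | rfl | rfl
      exacts [absurd (m.i1 ▸ p) d.e01, absurd (m.j1 d ▸ p) d.sw'.e01, rfl]
    exact e ((key z hz p).trans (key z' hz' p').symm)
  · have key : ∀ z, z ∉ Q → Fe z (P.it z (-1)) → z = z1 := fun z hz p => by
      rcases (d.out z).1 hz with rfl | rfl | rfl
      exacts [absurd (m.i2 ▸ p) d.e02, rfl, absurd (m.j2 d ▸ p) d.sw.sw'.e01]
    exact e ((key z hz p).trans (key z' hz' p').symm)

lemma xle (h0 : 0 ≤ n) (h1 : n < k) (p : Fe x (P.it x n)) : n + 3 ≤ k := by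
  by_contra g
  rcases (show n = -2 + k ∨ n = -1 + k by omega) with rfl | rfl <;> rw [P.it_add] at p
  exacts [d.e01 (m.i1 ▸ p), d.e02 (m.i2 ▸ p)]

include O

lemma olow (hw : w ∈ Q) (h0 : X w ≤ n) (h1 : 3 ≤ n) : o f 2 ≤ o w n := by
  have key : ∀ s : ℕ, ∀ w ∈ Q, X w ≤ s → ∀ n, X w ≤ n → 3 ≤ n → o f 2 ≤ o w n := by
    intro s
    induction s with
    | zero => intro w hw a; have := m.pos w hw; omega
    | succ s ih =>
      intro w hw a n b b'
      by_cases g : X w ≤ 3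
      · rcases m.le3' d hw g with rfl | rfl
        · exact O.mono _ (by omega)
        · have := O.qq m.fl m.sp.hp hw (m.f3 d)
          linarith [O.mono f (show (2 : ℤ) ≤ 3 by omega), O.mono (P.it y 2) b']
      obtain ⟨e1, e2⟩ := m.first d hw (by omega)
      have := ih _ e1 (by omega) (X w) e2.le (by omega)
      linarith [O.qq m.fl hw e1 (n := X w) rfl, O.mono w b]
  exact key _ w hw (Int.self_le_toNat _) n h0 h1

lemma oB (h0 : 0 ≤ n) (b : P.Ty Q 1 z n) : o f 2 ≤ o z n + (r - k - 1) := by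
  have := m.hi _ b.1
  have := d.sz.big
  rw [← O.tB b]
  exact m.olow d O b.1 (by omega) (by omega)

lemma clo (hz : z ∉ Q) (h0 : 4 ≤ n) : o f 2 ≤ o z n + (r - k - 1) := by
  have hk := d.sz.big
  obtain ⟨v, hv, -, pv⟩ := m.lo4 d
  have := m.oB d O (by omega) (m.hasB d hz (Or.inr (by omega)) (by omega) (by omega)
    (m.pall hv (by omega) (by omega) pv hz))
  linarith [O.mono z (show (4 : ℤ) - 1 ≤ n by omega)]

lemma chi (hz : z ∉ Q) (h1 : n < k) : o z n + (r - k - 1) ≤ o f 2 + (2 * r - 2 * k - 1) := by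
  have a : o y 0 ≤ o f 2 := by
    have := O.co0 m.ya.1.2.1 rfl m.ya.1.2.2
    rw [m.ya.2] at this
    linarith [O.mono y (show (0 : ℤ) ≤ 1 by omega), O.mono f (show (1 : ℤ) ≤ 2 by omega)]
  have b : o c 0 = o y 0 := O.co0 (m.yc d).2.2.2 (m.yc d).1 (m.yc d).2.2.1
  have e : o z (-1) ≤ o y 0 := by
    rcases (m.out d z).1 hz with rfl | rfl | rfl
    · have := O.co0 d.e02 m.i2 m.s2
      have := O.mono z2 (show (-1 : ℤ) ≤ 0 by omega)
      rcases m.nm with ⟨-, rfl⟩ | ⟨-, rfl⟩ <;> linarith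
    · exact O.mono _ (by omega)
    · exact b ▸ O.mono _ (by omega)
  linarith [O.mono z (show n ≤ -1 + k by omega), O.per z (-1)]

/-- A low port is not later than a port of a centre with a larger label. -/
lemma walk (hw : w ∈ Q) (h0 : X w ≤ l) (h1 : l + 2 ≤ k) (p : Fe w (P.it w l)) (hz : z ∉ Q)
    (h2 : l ≤ n) (h3 : 3 ≤ n) : o w l ≤ o z n + (r - k - 1) := by
  have hk := d.sz.big
  have pw := m.pos w hw
  obtain ⟨j, j1, j2, j3, b⟩ : ∃ j, l - 1 ≤ j ∧ j ≤ n ∧ j + 2 ≤ k ∧ P.Ty Q 1 z j := by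
    by_cases g : 3 ≤ l
    · exact ⟨l - 1, le_rfl, by omega, by omega,
        m.hasB d hz (Or.inr g) (by omega) h1 (m.pall hw (by omega) h1 p hz)⟩
    · obtain ⟨v, hv, -, pv⟩ := m.lo4 d
      exact ⟨4 - 1, by omega, by omega, by omega, m.hasB d hz (Or.inr (by omega)) (by omega)
        (by omega) (m.pall hv (by omega) (by omega) pv hz)⟩
  have t := ((m.cen d hz).tB b j3).2
  obtain ⟨i, i1, i2, e⟩ := P.win (x := w) (y := P.it z j) (fun e => by rw [e] at t; omega) (X w)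
  have := (m.fl.side m.cx hw b.1 e).not.1 (by omega)
  linarith [O.mono w (show l ≤ i by omega), O.qq m.fl hw b.1 e, O.tB b, O.mono z j2,
    O.mono (P.it z j) (show i ≤ j + k + 1 by omega)]

lemma ohw (hw : w ∈ Q) (h1 : n < X w + k) : o w n ≤ o f 2 + 2 := by
  have xf := (m.xf d).1
  have r1 := O.r1
  have a : o w (X w) ≤ o f (2 + k) := by
    by_cases e : w = f
    · rw [e]
      exact O.mono f (by omega)
    obtain ⟨i, i1, i2, e⟩ := P.win e 1
    have := (m.fl.side m.cx m.sp.hp hw e).not.1 (by omega)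
    linarith [O.qq m.fl m.sp.hp hw e, O.mono w (show X w ≤ i by omega),
      O.mono f (show i ≤ 2 + k by omega)]
  linarith [O.mono w h1.le, O.per w (X w), O.per f 2]

end W3

end PM

/-- The words of case III give the port facts of the second mode. -/
theorem Spi.Ok.h3_of_w3 {W : Type} [Fintype W] [DecidableEq W] {k : ℕ} {r r' : ℝ} {S : Spi W}
    (h : S.Ok k) {P0 : PM W k r S.Fe} {P : PM W k r' S.Fe} (s : P0.Same P) {C : W → W → ℝ}
    (hC : P0.Rep C) {x y c f g z1 z2 u : W} {Y X : W → ℤ} {Pt : Finset (W × W)}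
    (m : P.W3 (S.Cq S.p' S.q') x y c f g z1 z2 u Y X)
    (d : PM.D1 k S.Fe (S.Cq S.p' S.q') Pt x z1 z2) : ∃ ρ τ t, S.H3 k r C ρ τ t f x g y := by
  have hk := h.big
  have O := s.off hC
  generalize P0.off = o at O
  have ce : ∀ w, S.Ce w ↔ w ∉ S.Cq S.p' S.q' := fun w => by
    rw [Spi.mem_cq]
    unfold Spi.Ce
    tauto
  have fz : S.Fe S.p S.z ∧ S.Fe S.q S.z := ⟨(h.fe_p _).2 (Or.inl rfl), (h.fe_q _).2 (Or.inl rfl)⟩
  have nz : ∀ {t s}, (∀ w, S.Fe w t ↔ w = s) → t ≠ S.z := fun g e =>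
    h.pq (((g _).1 (e ▸ fz.1)).trans ((g _).1 (e ▸ fz.2)).symm)
  have hn : (f = S.p ∧ x = S.p' ∧ g = S.q ∧ y = S.q') ∨ (f = S.q ∧ x = S.q' ∧ g = S.p ∧ y = S.p') := by
    have fx := S.fe_symm _ _ ((m.sp.fx f).2 rfl)
    have fy := S.fe_symm _ _ ((m.sp.fy g).2 rfl)
    rcases ((ce x).2 d.o0).resolve_left (nz m.sp.fx) with rfl | rfl <;>
      rcases ((ce y).2 (m.oy d)).resolve_left (nz m.sp.fy) with rfl | rfl
    · exact absurd rfl (m.nes d).1
    · exact Or.inl ⟨(h.fe_p' f).1 fx, rfl, (h.fe_q' g).1 fy, rfl⟩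
    · exact Or.inr ⟨(h.fe_q' f).1 fx, rfl, (h.fe_p' g).1 fy, rfl⟩
    · exact absurd rfl (m.nes d).1
  generalize S.Cq S.p' S.q' = Q at *
  have : ∀ w t, ∃ n, S.Fe w t → (if w ∈ Q then X w else 0) ≤ n ∧
      n < (if w ∈ Q then X w else 0) + k ∧ P.it w n = t := fun w t => by
    by_cases e : S.Fe w t
    · obtain ⟨n, hn⟩ := P.win (x := w) (y := t) (fun e' => by
        rw [e'] at e
        by_cases hw : w ∈ Q
        · exact m.fl.cl w hw w hw e
        · rcases (m.out d w).1 hw with t | t | t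
          · exact hw ((m.sp.fx w).1 (t ▸ e) ▸ m.sp.hp)
          · exact hw ((m.sp.fy w).1 (t ▸ e) ▸ m.sp.hq)
          · rcases (ce w).2 hw with a | a | a <;> rw [a] at e
            · rcases (h.fe_z _).1 e with b | b | b
              exacts [h.zp b, h.zq b, h.zL b]
            · exact h.pp' ((h.fe_p' _).1 e).symm
            · exact h.qq' ((h.fe_q' _).1 e).symm) (if w ∈ Q then X w else 0)
      exact ⟨n, fun _ => hn⟩
    · exact ⟨0, fun e' => absurd e' e⟩
  choose lv hl using this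
  let ρ : W → W → ℤ := fun w t => if w ∈ Q then lv w t else lv w t + k + 1
  let τ : W → W → ℝ := fun w t => if w ∈ Q then o w (lv w t) else o w (lv w t) + (r - k - 1)
  have lq : ∀ {w t}, S.Fe w t → w ∈ Q → X w ≤ lv w t ∧ lv w t < X w + k ∧ P.it w (lv w t) = t ∧
      S.Fe w (P.it w (lv w t)) ∧ ρ w t = lv w t ∧ τ w t = o w (lv w t) ∧
      ((2 ≤ lv w t ∧ lv w t ≤ k - 2) ∨ (k + 5 ≤ lv w t ∧ lv w t ≤ 2 * k - 2)) := fun {w t} e hw => by
    have := hl w t e
    rw [if_pos hw] at this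
    have p : S.Fe w (P.it w (lv w t)) := this.2.2.symm ▸ e
    exact ⟨this.1, this.2.1, this.2.2, p, if_pos hw, if_pos hw, m.qrange d hw this.1 this.2.1 p⟩
  have lc : ∀ {w t}, S.Fe w t → w ∉ Q → 4 ≤ lv w t ∧ lv w t < k ∧ P.it w (lv w t) = t ∧
      S.Fe w (P.it w (lv w t)) ∧ ρ w t = lv w t + k + 1 ∧
      τ w t = o w (lv w t) + (r - k - 1) := fun {w t} e hw => by
    have := hl w t e
    rw [if_neg hw, zero_add] at this
    have p : S.Fe w (P.it w (lv w t)) := this.2.2.symm ▸ e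
    exact ⟨m.crange d hw this.1 this.2.1 p, this.2.1, this.2.2, p, if_neg hw, if_neg hw⟩
  have atq : ∀ {w n}, w ∈ Q → X w ≤ n → n < X w + k → S.Fe w (P.it w n) → lv w (P.it w n) = n :=
    fun {w n} hw a b p => by
      obtain ⟨a1, a2, a3, -⟩ := lq p hw
      exact P.uniq a3 (by omega) (by omega)
  have atc : ∀ {w} {n : ℤ}, w ∉ Q → 0 ≤ n → n < k → S.Fe w (P.it w n) → ρ w (P.it w n) = n + k + 1 :=
    fun {w n} hw a b p => by
      obtain ⟨a1, a2, a3, -, a5, -⟩ := lc p hw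
      rw [a5, P.uniq a3 (by omega) (by omega)]
  have loI : ∀ n : ℤ, n ≤ k → (S.Lo ρ n ↔ P.LoP Q X n) := fun n hn => by
    constructor
    · rintro ⟨w, t, e, rfl⟩
      by_cases hw : w ∈ Q
      · obtain ⟨a1, -, -, a4, a5, -⟩ := lq e hw
        exact ⟨w, hw, a5 ▸ a1, a5 ▸ a4⟩
      · have := lc e hw
        omega
    · rintro ⟨w, hw, a, p⟩
      have := m.pos w hw
      exact ⟨w, _, p, (lq p hw).2.2.2.2.1.trans (atq hw a (by omega) p)⟩
  have lab : ∀ {w t w' t'}, S.Fe w t → S.Fe w' t' → ρ w t = ρ w' t' ∨ ρ w t = ρ w' t' + k →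
      w = w' ∧ t = t' := by
    have qc : ∀ {w t w' t'}, S.Fe w t → S.Fe w' t' → w ∈ Q → w' ∉ Q →
        ρ w t ≠ ρ w' t' ∧ ρ w t + k ≠ ρ w' t' := fun {w t w' t'} e e' hw hw' => by
      obtain ⟨-, -, -, a4, a5, -, a7⟩ := lq e hw
      obtain ⟨b1, b2, -, b4, b5, -⟩ := lc e' hw'
      have key : lv w' t' + 3 ≤ k → ¬ S.Fe w (P.it w (lv w' t' + 1)) := fun a p =>
        m.cmiss d hw' (by omega) a b4 (m.pall hw (by omega) (by omega) p hw')
      refine ⟨fun z => key (by omega) ?_, fun z => key (by omega) ?_⟩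
      · rwa [show lv w' t' + 1 = lv w t - k by omega, P.it_sub]
      · rwa [show lv w' t' + 1 = lv w t by omega]
    intro w t w' t' e e' z
    by_cases hw : w ∈ Q <;> by_cases hw' : w' ∈ Q
    · obtain ⟨-, -, a3, a4, a5, -, a7⟩ := lq e hw
      obtain ⟨-, -, b3, b4, b5, -, b7⟩ := lq e' hw'
      have dv : (k : ℤ) ∣ lv w' t' - lv w t := by
        rcases z with z | z
        exacts [⟨0, by omega⟩, ⟨-1, by omega⟩]
      have ww : w = w' := by
        rw [(P.inj w _ _).2 dv] at a4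
        rcases b7 with b | b
        · exact m.pone hw hw' (by omega) (by omega) a4 b4
        · rw [← P.it_sub] at a4 b4
          exact m.pone hw hw' (by omega) (by omega) a4 b4
      subst ww
      exact ⟨rfl, by rw [← a3, (P.inj w _ _).2 dv, b3]⟩
    · have := qc e e' hw hw'
      have := lq e hw
      have := lc e' hw'
      omega
    · have := qc e' e hw' hw
      omega
    · obtain ⟨a1, a2, a3, a4, a5, -⟩ := lc e hw
      obtain ⟨b1, b2, b3, b4, b5, -⟩ := lc e' hw'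
      have z' : lv w t = lv w' t' := by omega
      have ww := m.cone d hw hw' (by omega) a2 a4 (z' ▸ b4)
      subst ww
      exact ⟨rfl, by rw [← a3, z', b3]⟩
  have fx : S.Fe x f := S.fe_symm _ _ ((m.sp.fx f).2 rfl)
  have fy : S.Fe y g := S.fe_symm _ _ ((m.sp.fy g).2 rfl)
  obtain ⟨x1, x2, x3, x4, x5, -⟩ := lc fx d.o0
  obtain ⟨y1, y2, -, y4, y5, y6⟩ := lc fy (m.oy d)
  have x6 := m.xle d (by omega) x2 x4
  have y7 := m.yh d (by omega) y2 y4
  have xf := (m.xf d).1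
  have l2 := atq m.sp.hp (n := 2) (by omega) (by omega) (m.f2 d)
  have walk : ∀ w t w' t', S.Fe w t → S.Fe w' t' → ρ w t ≤ k - 2 → w' ∉ Q → ρ w t + k < ρ w' t' →
      τ w t ≤ τ w' t' := fun w t w' t' e e' a hw' b => by
    have hw : w ∈ Q := by_contra fun hw => by have := lc e hw; omega
    obtain ⟨a1, -, -, a4, a5, a6, -⟩ := lq e hw
    obtain ⟨b1, -, -, -, b5, b6⟩ := lc e' hw'
    rw [a6, b6]
    exact m.walk d O hw a1 (by omega) a4 hw' (by omega) (by omega)
  refine ⟨ρ, τ, o f 2, hn, fun w t e => ?_, fun w t e => ?_, fun w t e a => ?_, fun w t e => ?_,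
    fun w t w' t' e e' a => lab e e' (Or.inl a), fun w t w' t' e e' a => ?_, by omega, by omega,
    fun w t e a => ?_, fun w t e a => ?_, ?_, ?_,
    fun w t w' t' e e' a b => walk w t w' t' e e' a ((ce w').1 b), ?_, fun t e => ?_, fun t e => ?_,
    fun n a b => ?_, fun n a b e => ?_, fun A B hA hB => m.c1' d A B
      (fun e he => by have := hA e he; rwa [loI e (by omega)] at this)
      fun n a b e t => hB n a b e ((loI n (by omega)).2 t)⟩
  · by_cases hw : w ∈ Q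
    · obtain ⟨-, -, a3, -, a5, a6, -⟩ := lq e hw
      have := O.rep w (lv w t)
      rwa [a3, ← a6, ← a5] at this
    · obtain ⟨-, -, a3, -, a5, a6⟩ := lc e hw
      have := O.rep w (lv w t)
      rw [a3] at this
      refine this.trans (Cg.down ?_)
      rw [a5, a6]
      push_cast
      ring
  · by_cases hw : w ∈ Q
    · obtain ⟨a1, -, -, a4, -, a6, a7⟩ := lq e hw
      rw [a6]
      by_cases z : lv w t = 2
      · rw [z] at a4 ⊢
        rw [m.pone hw m.sp.hp (by omega) (by omega) a4 (m.f2 d)]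
      · exact m.olow d O hw a1 (by omega)
    · obtain ⟨a1, -, -, -, -, a6⟩ := lc e hw
      exact a6 ▸ m.clo d O hw a1
  · by_cases hw : w ∈ Q
    · have b := a.resolve_left fun b => (ce w).1 b hw
      exact (walk w t y g e fy b (m.oy d) (by omega)).trans (y6 ▸ m.chi d O (m.oy d) y2)
    · obtain ⟨-, a2, -, -, -, a6⟩ := lc e hw
      exact a6 ▸ m.chi d O hw a2
  · by_cases hw : w ∈ Q
    · obtain ⟨-, a2, -, -, -, a6, -⟩ := lq e hw
      exact a6 ▸ m.ohw d O hw a2
    · obtain ⟨-, a2, -, -, -, a6⟩ := lc e hw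
      linarith [m.chi d O hw a2, O.r1]
  · obtain ⟨rfl, rfl⟩ := lab e e' (Or.inr a)
    omega
  · have := lc e ((ce w).1 a)
    omega
  · have := lq e (by_contra fun hw => a ((ce w).2 hw))
    omega
  · have p : S.Fe z1 (P.it z1 (-1 + k)) := by rw [P.it_add]; exact m.port
    exact ⟨z1, _, p, (ce _).2 d.o1, by
      have := atc (n := -1 + k) d.o1 (by omega) (by omega) p; omega⟩
  · rcases m.top2 d with p | p
    · exact ⟨x, _, p, (ce _).2 d.o0, by
        have := atc (n := k - 3) d.o0 (by omega) (by omega) p; omega⟩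
    · exact ⟨c, _, p, (ce _).2 (m.oc d), by
        have := atc (n := k - 3) (m.oc d) (by omega) (by omega) p; omega⟩
  · obtain ⟨-, -, -, -, a5, a6, -⟩ := lq (m.f2 d) m.sp.hp
    exact ⟨_, m.f2 d, a5.trans l2, by rw [a6, l2]⟩
  · obtain ⟨a1, a2, -, a4, a5, -, a7⟩ := lq e m.sp.hp
    refine ⟨by omega, fun n a b => ?_⟩
    rw [loI n (by omega), Int.even_iff]
    exact m.lf d a4 (by omega) (by omega) (by omega)
  · obtain ⟨a1, a2, -, a4, a5, -, a7⟩ := lq e m.sp.hq
    have xh := m.xh d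
    have : lv g t ≠ 4 := fun z => m.nf g m.sp.hq (by rwa [xh, ← z])
    have : lv g t ≠ 5 := fun z => m.h5 d (z ▸ a4)
    omega
  · by_contra z
    exact m.above d (by omega) x6 x3 (by omega) (by omega) ((loI n (by omega)).1 b)
  · have o1 := Int.odd_iff.1 a
    have n3 : 3 ≤ n := by
      obtain ⟨w, t, e, z⟩ := e
      by_cases hw : w ∈ Q
      · have := lq e hw; omega
      · have := lc e hw; omega
    have := m.iso d o1 n3 (by omega) ((loI n (by omega)).1 e)
    rwa [loI _ (by omega), loI _ (by omega)]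

end Pool.Agent.P.MP_3f5ded_co.UG
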