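import Pool.Agent.P.MP_3f5ded_co.ET2
import Pool.Agent.P.MP_3f5ded_co.ETH
import Pool.Agent.P.MP_3f5ded_co.ES9
import Pool.Agent.P.MP_3f5ded_co.EQZ

set_option autoImplicit false

namespace Pool.Agent.P.MP_3f5ded_co.UG

namespace Spi
variable {W : Type} [Fintype W] [DecidableEq W] {k : ℕ} {r : ℝ} {S : Spi W} (h : S.Ok k)
include h

/-- The three outcomes: the helix, case III in the form `III1`. -/
theorem Ok.modes1 {M : (W → W → ℝ) → Prop} (m1 : ∀ C ρ τ t, S.Hy k r C ρ τ t → M C)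
    (m3 : ∀ (P : PM W k r S.Fe) C Pt, P.Rep C → P.HasIII (S.Cq S.p' S.q') Pt → M C)
    (C : W → W → ℝ) (h1 : 1 ≤ r) (h2 : r < k + 1) (c : S.Cl r C) : M C ∨ M fun x y => -C x y :=
  h.modes (fun P => h.step1 P) m1 (fun P C R ⟨_, _, _, _, _, _, Pt, c0, d, pos, _, _, s⟩ =>
    (PM.III0.hasIII ⟨c0, pos⟩ d s).imp (m3 P C Pt R) (m3 _ _ Pt R.mir3)) C h1 h2 c

/-- Below `k + 2 / 3` every colouring is in one of the two modes. -/
theorem Ok.mo_low (hr : 3 * r < 3 * k + 2) (C : W → W → ℝ) (h1 : 1 ≤ r) (c : S.Cl r C) :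
    S.Mo k r C ∨ S.Mo k r fun x y => -C x y := by
  refine h.modes1 (fun C ρ τ t g => ⟨ρ, τ, t, Or.inl g⟩) (fun P C Pt R g => ?_) C h1 (by linarith) c
  obtain ⟨x, y, c, p, q, z1, z2, u, Y, X, a, b, d, m⟩ := g
  obtain ⟨r', P', X', s, w⟩ := m.w3 d fun n => m.nj d hr
  obtain ⟨ρ, τ, t, g⟩ := h.h3_of_w3 s R w d
  exact ⟨ρ, τ, t, Or.inr ⟨_, _, _, _, g⟩⟩

end Spi

end Pool.Agent.P.MP_3f5ded_co.UG
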