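import Pool.Agent.P.MP_3f5ded_co.ES2

set_option autoImplicit false

namespace Pool.Agent.P.MP_3f5ded_co.UG

open Finset

namespace PM
variable {W : Type} {k : ℕ} {r : ℝ} {Fe : W → W → Prop} {P : PM W k r Fe} {Q E : Finset W}
  {X : W → ℤ}

open Classical

/-- The number of vertices that have entered at level `l`. -/
noncomputable def cA (Q : Finset W) (X : W → ℤ) (l : ℤ) : ℕ := (Q.filter fun w => X w ≤ l).card

/-- The number of entered vertices of `S` whose item at level `l` leaves `Q`. -/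
noncomputable def nq (P : PM W k r Fe) (Q S : Finset W) (X : W → ℤ) (l : ℤ) : ℕ :=
  (S.filter fun w => X w ≤ l ∧ P.it w l ∉ Q).card

lemma Fl.ent (fl : P.Fl Q) (cut : P.Cut X) {w : W} {l : ℤ} (hw : w ∈ Q) (h : P.it w l ∈ Q) :
    X (P.it w l) ≤ l ↔ X w ≤ l := by
  have := fl.side cut hw h rfl
  omega

lemma nq_add (S : Finset W) (l : ℤ) :
    (S.filter fun w => X w ≤ l ∧ P.it w l ∈ Q).card + P.nq Q S X l = cA S X l := by
  have := card_filter_add_card_filter_not (s := S.filter fun w => X w ≤ l) fun w => P.it w l ∈ Q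
  simpa only [filter_filter, nq, cA] using this

/-- Parity of a level. -/
lemma Fl.nq_par (fl : P.Fl Q) (cut : P.Cut X) (l : ℤ) : P.nq Q Q X l % 2 = cA Q X l % 2 := by
  have := sum_involution (s := Q.filter fun w => X w ≤ l ∧ P.it w l ∈ Q) (f := fun _ => (1 : ZMod 2))
    (fun x _ => P.it x l) (fun _ _ => by decide) (fun x _ _ => P.ne x l)
    (fun x hx => by
      simp only [mem_filter] at hx ⊢
      exact ⟨hx.2.2, (fl.ent cut hx.1 hx.2.2).2 hx.2.1, (fl.it hx.1 hx.2.2 rfl).symm ▸ hx.1⟩)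
    (fun x hx => by simp only [mem_filter] at hx; exact fl.it hx.1 hx.2.2 rfl)
  rw [sum_const, nsmul_eq_mul, mul_one] at this
  have h1 := Nat.even_iff.1 (ZMod.natCast_eq_zero_iff_even.1 this)
  have h2 := nq_add (P := P) (Q := Q) (X := X) Q l
  omega

/-- One level of the cut lemma. -/
lemma Fl.cut_one (fl : P.Fl Q) (cut : P.Cut X) (hE : E ⊆ Q) (l : ℤ) :
    cA E X l + P.nq Q (Q \ E) X l ≤ cA (Q \ E) X l + P.nq Q E X l +
      (E.filter fun w => P.it w l ∈ E).card := by
  have h1 := nq_add (P := P) (Q := Q) (X := X) E l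
  have h2 := nq_add (P := P) (Q := Q) (X := X) (Q \ E) l
  have h3 := card_filter_add_card_filter_not (s := E.filter fun w => X w ≤ l ∧ P.it w l ∈ Q)
    fun w => P.it w l ∈ E
  have h4 : ((E.filter fun w => X w ≤ l ∧ P.it w l ∈ Q).filter fun w => P.it w l ∈ E).card ≤
      (E.filter fun w => P.it w l ∈ E).card :=
    card_le_card (filter_subset_filter _ (filter_subset _ _))
  have h5 : ((E.filter fun w => X w ≤ l ∧ P.it w l ∈ Q).filter fun w => ¬ P.it w l ∈ E).card ≤
      ((Q \ E).filter fun w => X w ≤ l ∧ P.it w l ∈ Q).card := by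
    refine card_le_card_of_injOn (fun w => P.it w l) (fun w hw => ?_) fun w hw w' hw' e => ?_
    · simp only [coe_filter, mem_filter, mem_sdiff, Set.mem_ofPred_eq] at hw ⊢
      obtain ⟨⟨a, b, c⟩, d⟩ := hw
      exact ⟨⟨c, d⟩, (fl.ent cut (hE a) c).2 b, (fl.it (hE a) c rfl).symm ▸ hE a⟩
    · simp only [coe_filter, mem_filter, Set.mem_ofPred_eq] at hw hw' e
      rw [← fl.it (hE hw.1.1) hw.1.2.2 rfl, e, fl.it (hE hw'.1.1) hw'.1.2.2 rfl]
  omega

/-- Inner edges of `E` during one period. -/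
lemma inner_le {a b : ℤ} (h : b ≤ a + k) :
    ∑ l ∈ Ico a b, (E.filter fun w => P.it w l ∈ E).card ≤ E.card * (E.card - 1) := by
  simp only [card_filter]
  rw [sum_comm, ← smul_eq_mul, ← sum_const]
  refine sum_le_sum fun w hw => ?_
  rw [← card_filter, ← card_erase_of_mem hw]
  refine card_le_card_of_injOn (fun l => P.it w l) (fun l hl => ?_) fun l hl l' hl' e => ?_
  · simp only [coe_filter, Set.mem_ofPred_eq, coe_erase] at hl ⊢
    exact ⟨hl.2, P.ne w l⟩
  · simp only [coe_filter, Set.mem_ofPred_eq, mem_Ico] at hl hl'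
    exact P.uniq e (by omega) (by omega)

/-- The cut lemma in levels: `E` consists of the first `t` vertices to enter. -/
theorem Fl.cut_lev (fl : P.Fl Q) (cut : P.Cut X) {t : ℕ} {m a b : ℤ} (h1 : cA Q X m ≤ t)
    (h2 : t ≤ cA Q X (m + 1)) (h : b ≤ a + k) :
    ∑ l ∈ Ico a b, (if l ≤ m then (cA Q X l : ℤ) - P.nq Q Q X l else
      2 * t - cA Q X l - P.nq Q Q X l + 2 * P.nq Q (Q.filter fun w => m + 1 < X w) X l) ≤
      t * (t - 1) := by
  obtain ⟨E, e1, e2, e3⟩ := exists_subsuperset_card_eq (s := Q.filter fun w => X w ≤ m)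
    (t := Q.filter fun w => X w ≤ m + 1) (n := t)
    (fun w hw => by simp only [mem_filter] at hw ⊢; exact ⟨hw.1, by omega⟩) h1 h2
  have hE : E ⊆ Q := e2.trans (filter_subset _ _)
  have h3 := inner_le (P := P) (E := E) h
  have h4 : ((∑ l ∈ Ico a b, (E.filter fun w => P.it w l ∈ E).card : ℕ) : ℤ) ≤ t * (t - 1) := by
    rw [e3] at h3
    rcases t with _ | t
    · omega
    · rw [Nat.add_sub_cancel] at h3
      have : ((t + 1 : ℕ) : ℤ) - 1 = t := by push_cast; ring
      rw [this]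
      exact_mod_cast h3
  refine le_trans ?_ h4
  rw [Nat.cast_sum]
  refine sum_le_sum fun l _ => ?_
  have c := fl.cut_one cut hE l
  have sp : ∀ (g : W → Prop) [DecidablePred g], (E.filter g).card + ((Q \ E).filter g).card = (Q.filter g).card :=
    fun g _ => by
      rw [← card_union_of_disjoint (disjoint_filter_filter disjoint_sdiff), ← filter_union,
        union_sdiff_of_subset hE]
  have s1 : cA E X l + cA (Q \ E) X l = cA Q X l := sp _
  have s2 : P.nq Q E X l + P.nq Q (Q \ E) X l = P.nq Q Q X l := sp _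
  split_ifs with g
  · have : cA (Q \ E) X l = 0 := card_eq_zero.2 (filter_eq_empty_iff.2 fun w hw x => by
      rw [mem_sdiff] at hw
      exact hw.2 (e1 (mem_filter.2 ⟨hw.1, by omega⟩)))
    omega
  · have : cA E X l = t := e3 ▸ congrArg card (filter_eq_self.2 fun w hw => by
      have := (mem_filter.1 (e2 hw)).2
      omega)
    have : P.nq Q (Q.filter fun w => m + 1 < X w) X l ≤ P.nq Q (Q \ E) X l :=
      card_le_card (filter_subset_filter _ fun w hw => by
        rw [mem_filter] at hw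
        exact mem_sdiff.2 ⟨hw.1, fun x => by have := (mem_filter.1 (e2 x)).2; omega⟩)
    omega

lemma tele (g f : ℤ → ℤ) {a b : ℤ} (h : a ≤ b) (e : ∀ l, a ≤ l → l < b → f l = g (l + 1) - g l) :
    ∑ l ∈ Ico a b, f l = g b - g a := by
  induction b, h using Int.leInduction with
  | base => simp
  | succ b h ih =>
    rw [← insert_Ico_right_eq_Ico_add_one h, sum_insert (by simp), e b h (by omega),
      ih fun l x y => e l x (by omega)]
    ring

/-- The central cut. Levels `k - 1` and `k` are perfect matchings, and at the levels from `3` to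
`k - 2` the number of entered vertices is `l - 1` or `l - 2`. -/
theorem Fl.cut_mid (fl : P.Fl Q) (cut : P.Cut X) {t : ℕ} (ht : k = 2 * t) (hk : 12 ≤ k)
    (hQ : Q.card + 2 = k) (hi : ∀ w ∈ Q, X w < k)
    (mid : ∀ w ∈ Q, P.it w (k - 1) ∈ Q ∧ P.it w k ∈ Q)
    (hA : ∀ l : ℤ, 3 ≤ l → l ≤ k - 2 → l ≤ cA Q X l + 2 ∧ cA Q X l + 1 ≤ l)
    (h2 : ∀ l : ℤ, 3 ≤ l → l ≤ k - 2 → P.nq Q Q X l ≤ 2) :
    1 + ((Icc ((t : ℤ) + 2) (k - 2)).filter fun l => Even l ∧ P.nq Q Q X l = 0).card ≤
      ((Icc (3 : ℤ) (t + 1)).filter fun l => Odd l ∧ P.nq Q Q X l = 1).card +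
        ((Icc (3 : ℤ) (k - 2)).filter fun l => P.nq Q Q X l = 2).card := by
  have a1 := hA (t + 1) (by omega) (by omega)
  have a2 := hA (t + 1 + 1) (by omega) (by omega)
  have c := fl.cut_lev cut (t := t) (m := t + 1) (a := 3) (b := k + 1) (by omega) (by omega)
    (by omega)
  have top : ∀ l : ℤ, k - 1 ≤ l → l ≤ k → cA Q X l = Q.card ∧ P.nq Q Q X l = 0 := fun l a b =>
    ⟨congrArg card (filter_eq_self.2 fun w hw => by have := hi w hw; omega),
      card_eq_zero.2 (filter_eq_empty_iff.2 fun w hw g => g.2 (by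
        rcases (show l = k - 1 ∨ l = k by omega) with e | e <;> rw [e]
        exacts [(mid w hw).1, (mid w hw).2]))⟩
  have key : ∀ l ∈ Ico (3 : ℤ) (k + 1),
      (if l ≤ t + 1 then 2 * ((l - 1) / 2) else if l ≤ k - 2 then 2 * t - 2 * (l / 2) else 2) +
        2 * (if (t + 2 ≤ l ∧ l ≤ k - 2) ∧ Even l ∧ P.nq Q Q X l = 0 then 1 else 0) ≤
      (if l ≤ t + 1 then (cA Q X l : ℤ) - P.nq Q Q X l else 2 * t - cA Q X l - P.nq Q Q X l +
        2 * P.nq Q (Q.filter fun w => (t : ℤ) + 1 + 1 < X w) X l) +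
        2 * (if (3 ≤ l ∧ l ≤ t + 1) ∧ Odd l ∧ P.nq Q Q X l = 1 then 1 else 0) +
        2 * (if (3 ≤ l ∧ l ≤ k - 2) ∧ P.nq Q Q X l = 2 then 1 else 0) := fun l hl => by
    rw [mem_Ico] at hl
    have p := fl.nq_par cut l
    have b1 := hA l hl.1
    have b2 := h2 l hl.1
    have b3 := top l
    simp only [Int.even_iff, Int.odd_iff]
    split_ifs <;> omega
  have s := sum_le_sum key
  simp only [sum_add_distrib, ← mul_sum, sum_boole] at s
  have base : ∑ l ∈ Ico (3 : ℤ) (k + 1), (if l ≤ t + 1 then 2 * ((l - 1) / 2) else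
      if l ≤ k - 2 then 2 * t - 2 * (l / 2) else 2 : ℤ) = t * (t - 1) + 2 := by
    have := tele (fun l => if l ≤ t + 2 then (l - 2) * (l - 2) - l % 2 else
      2 * (t * (t - 1)) - (2 * t + 1 - l) * (2 * t + 1 - l) + (l + 1) % 2 + 4 * ((l - 1) / k))
      (fun l => 2 * if l ≤ t + 1 then 2 * ((l - 1) / 2) else
        if l ≤ k - 2 then 2 * t - 2 * (l / 2) else 2) (a := 3) (b := k + 1) (by omega) fun l a b => by
      have e1 : (l + 1 - 2) * (l + 1 - 2) = (l - 2) * (l - 2) + 2 * l - 3 := by ring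
      have e2 : (2 * t + 1 - l) * (2 * t + 1 - l) =
        (2 * t + 1 - (l + 1)) * (2 * t + 1 - (l + 1)) + 4 * t - 2 * l + 1 := by ring
      have e3 : (l - 1) / k = 0 := Int.ediv_eq_zero_of_lt (by omega) (by omega)
      have e4 : l < k → (l + 1 - 1) / k = 0 := fun g => Int.ediv_eq_zero_of_lt (by omega) (by omega)
      have e5 : l = k → (l + 1 - 1) / k = 1 := fun g => by
        rw [g, add_sub_cancel_right]; exact Int.ediv_self (by omega)
      have e6 : l = t + 2 → (l - 2) * (l - 2) + (2 * t + 1 - l) * (2 * t + 1 - l) =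
        2 * (t * (t - 1)) + 1 := fun g => by rw [g]; ring
      split_ifs <;> omega
    rw [← mul_sum, if_neg (by omega), if_pos (by omega), add_sub_cancel_right,
      Int.ediv_self (by omega), show (2 * t + 1 - (k + 1) : ℤ) = 0 by omega] at this
    omega
  have f1 : ∀ (a b : ℤ) (g : ℤ → Prop) [DecidablePred g], 3 ≤ a → b ≤ k →
      ((Ico (3 : ℤ) (k + 1)).filter fun l => (a ≤ l ∧ l ≤ b) ∧ g l) = (Icc a b).filter g :=
    fun a b g _ x y => by
      ext l
      simp only [mem_filter, mem_Ico, mem_Icc]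
      exact ⟨fun h => h.2, fun h => ⟨by omega, h⟩⟩
  rw [base, f1 _ _ _ (by omega) (by omega), f1 _ _ _ (by omega) (by omega),
    f1 _ _ _ (by omega) (by omega)] at s
  omega

end PM

end Pool.Agent.P.MP_3f5ded_co.UG
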