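import Pool.Agent.P.MP_3f5ded_co.ET2
import Pool.Agent.P.MP_3f5ded_co.ETG

set_option autoImplicit false

namespace Pool.Agent.P.MP_3f5ded_co.UG

open Finset

namespace PM
variable {W : Type} {k : ℕ} {r : ℝ} {Fe : W → W → Prop} {P : PM W k r Fe} {Q : Finset W}
  {X Y Z : W → ℤ} {z1 z2 x y c p q s u v w : W} {a b i n n' l : ℤ}

/-- Future partners of a vertex are below a level. -/
lemma Fl.lowc (fl : P.Fl Q) (cut : P.Cut Z) (hw : w ∈ Q) (h0 : Z w ≤ i) (h1 : i ≤ l) (h2 : l < i + k)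
    (hT : ∀ n, i < n → n ≤ l → P.it w n ∈ Q) : l - i + 1 ≤ cA Q Z l ∧ (cA Q Z l ≤ l - i + 1 →
      ∀ v ∈ Q, Z v ≤ l → v ≠ w → ∃ n, i < n ∧ n ≤ l ∧ P.it w n = v) := by
  classical
  have sub : (Icc (i + 1) l).image (P.it w) ⊆ (Q.filter fun v => Z v ≤ l).erase w := fun v hv => by
    simp only [mem_image, mem_Icc] at hv
    obtain ⟨n, hn, rfl⟩ := hv
    have g := hT n (by omega) hn.2
    have := (fl.ent cut hw g).2 (by omega)
    exact mem_erase.2 ⟨P.ne w n, mem_filter.2 ⟨g, by omega⟩⟩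
  have c1 := P.card_img w (i := i + 1) (j := l) (by omega) (by omega)
  have c3 := card_erase_add_one (mem_filter.2 ⟨hw, by omega⟩ : w ∈ Q.filter fun v => Z v ≤ l)
  have c4 := card_le_card sub
  unfold cA
  refine ⟨by omega, fun g v hv zv e => ?_⟩
  have : v ∈ (Icc (i + 1) l).image (P.it w) := by
    rw [eq_of_subset_of_card_le sub (by omega)]
    exact mem_erase.2 ⟨e, mem_filter.2 ⟨hv, zv⟩⟩
  simp only [mem_image, mem_Icc] at this
  obtain ⟨n, hn, e⟩ := this
  exact ⟨n, by omega, hn.2, e⟩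

/-- Past partners of a vertex are above a level. -/
lemma Fl.highc (fl : P.Fl Q) (cut : P.Cut Z) (hw : w ∈ Q) (T : Finset W) (h0 : i < Z w) (h1 : l ≤ i)
    (h2 : i ≤ l + k) (hT : ∀ n, l ≤ n → n < i → P.it w n ∉ Q → P.it w n ∈ T) :
    cA Q Z l + (i - l + 1) ≤ Q.card + T.card ∧ (Q.card + T.card ≤ cA Q Z l + (i - l + 1) →
      ∀ v ∈ Q, l < Z v → v ≠ w → ∃ n, l ≤ n ∧ n < i ∧ P.it w n = v) := by
  classical
  have sub : (Icc l (i - 1)).image (P.it w) ⊆ (Q.filter fun v => l < Z v).erase w ∪ T := fun v hv => by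
    simp only [mem_image, mem_Icc] at hv
    obtain ⟨n, hn, rfl⟩ := hv
    by_cases g : P.it w n ∈ Q
    · have := (fl.side cut hw g rfl).1 (by omega)
      exact mem_union_left _ (mem_erase.2 ⟨P.ne w n, mem_filter.2 ⟨g, by omega⟩⟩)
    · exact mem_union_right _ (hT n hn.1 (by omega) g)
  have c1 := P.card_img w (i := l) (j := i - 1) (by omega) (by omega)
  have c2 := card_union_le ((Q.filter fun v => l < Z v).erase w) T
  have c3 := card_erase_add_one (mem_filter.2 ⟨hw, by omega⟩ : w ∈ Q.filter fun v => l < Z v)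
  have c4 := card_le_card sub
  have c5 := cA_add Q Z l
  refine ⟨by omega, fun g v hv zv e => ?_⟩
  have : v ∈ (Icc l (i - 1)).image (P.it w) := by
    rw [eq_of_subset_of_card_le sub (by omega)]
    exact mem_union_left _ (mem_erase.2 ⟨e, mem_filter.2 ⟨hv, zv⟩⟩)
  simp only [mem_image, mem_Icc] at this
  obtain ⟨n, hn, e⟩ := this
  exact ⟨n, hn.1, by omega, e⟩

lemma cA_ins (E : Finset W) (h : l ≤ i) (hE : ∀ v ∈ E, v ∈ Q ∧ l < X v ∧ X v ≤ i) :
    cA Q X l + E.card ≤ cA Q X i := by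
  classical
  unfold cA
  rw [← card_union_of_disjoint (disjoint_left.2 fun v hv g => by
    have := (mem_filter.1 hv).2; have := hE v g; omega)]
  refine card_le_card fun v hv => ?_
  rcases mem_union.1 hv with g | g
  · rw [mem_filter] at g ⊢; exact ⟨g.1, by omega⟩
  · exact mem_filter.2 ⟨(hE v g).1, (hE v g).2.2⟩

lemma Fl.evn (fl : P.Fl Q) (cut : P.Cut Z) (h : ∀ w ∈ Q, P.it w l ∈ Q) : (cA Q Z l : ℤ) % 2 = 0 := by
  classical
  have a := fl.nq_par cut l
  have : P.nq Q Q Z l = 0 := card_eq_zero.2 (filter_eq_empty_iff.2 fun w hw g => g.2 (h w hw))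
  omega

variable [Fintype W] {Pt : Finset (W × W)}

/-- The level `k` is a perfect matching of `Q`. -/
lemma III0.topk (m : P.III0 Q x z1 z2 u Y X) (d : D1 k Fe Q Pt x z1 z2) (hw : w ∈ Q) : P.it w k ∈ Q := by
  have hk := d.sz.big
  rw [show P.it w k = P.it w 0 by rw [← P.it_add w 0, zero_add]]
  by_contra o
  have g : P.Has Q (P.it w 0) 0 := ⟨w, hw, m.nok d m.pos hw, rfl⟩
  rcases (d.out _).1 o with e | e | e
  · rcases (m.cen d _ o).has le_rfl (by omega) g with t | t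
    · exact m.noA d o t
    · rw [e] at t
      have := m.idx0 d (by omega) (by omega) t; omega
  exacts [m.miss1 (e ▸ g), m.miss2 (e ▸ g)]

namespace III1
variable (m : P.III1 Q x y c p q z1 z2 u Y X a b) (d : D1 k Fe Q Pt x z1 z2)
include m d

omit d in
lemma pall (hw : w ∈ Q) (h0 : 1 ≤ l) (h1 : l + 2 ≤ k) (f : Fe w (P.it w l)) (hs : s ∉ Q) :
    P.Has Q s l := has_of_port (m.one l h0 h1) hs hw f

omit d in
lemma pone (hw : w ∈ Q) (hv : v ∈ Q) (h0 : 1 ≤ l) (h1 : l + 2 ≤ k) (f : Fe w (P.it w l))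
    (f' : Fe v (P.it v l)) : w = v := by
  by_contra e
  have := two_le_dfc'' hw f hv f' e
  have := m.one l h0 h1
  omega

lemma yc0 : P.it y 0 = c ∧ P.it c 0 = y ∧ P.sh y c = 0 ∧ ¬ Fe y c := by
  have s : P.sh z1 z2 = 0 := by rw [P.sh_neg d.sw.e12 d.n12, m.s3, neg_zero]
  rcases m.yc with ⟨rfl, rfl⟩ | ⟨rfl, rfl⟩
  exacts [⟨m.e3' d, m.e3, s, d.e12⟩, ⟨m.e3, m.e3' d, m.s3, d.sw.e12⟩]

/-- A neighbour of `c` has no port. -/
lemma nop (hw : w ∈ Q) (f : ¬ Fe c w) (n : ℤ) : ¬ Fe w (P.it w n) := fun g => by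
  rcases (m.out d _).1 (fun o => m.fl.cl w hw _ o g) with e | e | e <;> rw [e] at g
  · exact f (P.sym _ _ ((m.sp.fx w).1 g ▸ m.sp.fp))
  · exact f (P.sym _ _ ((m.sp.fy w).1 g ▸ m.sp.fq))
  · exact f (P.sym _ _ g)

/-- The word of `c`. -/
lemma cword (h0 : 1 ≤ n) (h1 : n + 3 ≤ k) : Fe c (P.it c n) ∨ P.Ty Q 0 c n ∨ P.Ty Q 1 c n := by
  refine or_iff_not_imp_left.2 fun f => (m.cenc d).ty (by omega) (by omega) ?_ f
  rcases m.yc with ⟨-, rfl⟩ | ⟨-, rfl⟩
  · exact m.in2 d h0 (by omega)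
  by_contra o
  rcases (d.out _).1 o with e | e | e
  · have := P.uniq (e.trans (m.j1 d).symm) (by omega) (by omega); omega
  · exact P.ne _ _ e
  · have := P.uniq (e.trans (m.e3' d).symm) (by omega) (by omega); omega

lemma cAle (h0 : 1 ≤ l) (h1 : l < k) : (PM.cA Q X l : ℤ) ≤ l := by
  classical
  have sub : (Q.filter fun v => X v ≤ l).erase p ⊆ (Icc 0 (l - 2)).image (P.it x) := fun v hv => by
    rw [mem_erase, mem_filter] at hv
    obtain ⟨n, n1, -, e, -, n2, -⟩ := m.xw d hv.2.1 hv.1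
    exact mem_image.2 ⟨n, mem_Icc.2 ⟨n1, by omega⟩, e⟩
  have c1 := P.card_img x (i := 0) (j := l - 2) (by omega) (by omega)
  have c2 := card_le_card sub
  have c3 := card_erase_add_one (mem_filter.2 ⟨m.sp.hp, by rw [(m.ya d).2.2.2]; exact h0⟩ :
    p ∈ Q.filter fun v => X v ≤ l)
  unfold PM.cA
  omega

open Classical in
lemma tf (h0 : 1 ≤ l) (h1 : l ≤ k) : l ≤ PM.cA Q X l + 2 ∧ ((PM.cA Q X l : ℤ) + 2 ≤ l →
    ∀ v, (v ∈ Q ∧ X v ≤ l ∧ v ≠ p) ∨ v ∉ Q → ∃ n, 1 ≤ n ∧ n ≤ l ∧ P.it p n = v) := by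
  have xf := (m.ya d).2.2.2
  have := m.fl.tight m.cx m.sp.hp Qᶜ (l := l) (by omega) (by omega) fun n _ _ g => mem_compl.2 g
  rw [d.sz.three, xf] at this
  exact ⟨by omega, fun g v hv => this.2 (by omega) v (hv.imp_right mem_compl.2)⟩

/-- The items with the label one that leave `Q`. -/
lemma lab1 (hw : w ∈ Q) (o : P.it w 1 ∉ Q) : w = p ∨ w = P.it x 0 := by
  have hk := d.sz.big
  have f : ¬ Fe w (P.it w 1) := fun f => m.mc1 d (m.pall hw le_rfl (by omega) f (m.oc d))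
  have B := m.xB 0 le_rfl (by omega) (by have := m.a2; omega)
  rcases (m.out d _).1 o with e | e | e
  · exact Or.inr (m.fl.lab_inj hw B.1 (e ▸ f) (fun t => B.2.1 (P.sym _ _ t)) e
      ((m.c0 d).tB B (by omega)).1)
  · obtain ⟨y1, y2, y3, -⟩ := m.ya d
    exact Or.inl (m.fl.lab_inj hw m.sp.hp (e ▸ f) (fun t => y1.2.1 (y2 ▸ P.sym _ _ t)) e y3)
  · exact absurd ⟨w, hw, e ▸ f, e⟩ (m.mc1 d)

/-- Between a high edge and a later low edge of `c` there is a jump. -/
lemma exj (B : P.Ty Q 1 c n) (A : P.Ty Q 0 c n') (h0 : 1 ≤ n) (h1 : n < n') (h2 : n' + 2 ≤ k) :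
    ∃ i i', n ≤ i ∧ i < i' ∧ i' ≤ n' ∧ P.Ty Q 1 c i ∧ P.Ty Q 0 c i' ∧
      ∀ j, i < j → j < i' → Fe c (P.it c j) := by
  obtain ⟨i', ⟨a1, a2, a3⟩, mn⟩ := Int.exists_least_of_bdd
    (P := fun j => n < j ∧ j ≤ n' ∧ P.Ty Q 0 c j) ⟨n, fun j h => h.1.le⟩ ⟨n', h1, le_rfl, A⟩
  obtain ⟨i, ⟨b1, b2, b3⟩, mx⟩ := Int.exists_greatest_of_bdd
    (P := fun j => n ≤ j ∧ j < i' ∧ P.Ty Q 1 c j) ⟨i', fun j h => h.2.1.le⟩ ⟨n, le_rfl, a1, B⟩
  refine ⟨i, i', b1, b2, a2, b3, a3, fun j j1 j2 => ?_⟩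
  rcases m.cword d (n := j) (by omega) (by omega) with g | g | g
  · exact g
  · have := mn j ⟨by omega, by omega, g⟩; omega
  · have := mx j ⟨by omega, j2, g⟩; omega

lemma gapm (h0 : 1 ≤ n) (h2 : n' + 2 ≤ k) (g : ∀ j, n < j → j < n' → Fe c (P.it c j)) (h3 : n + 1 < l)
    (h4 : l < n') : ¬ P.Has Q c l := fun t => by
  rcases (m.cenc d).has (by omega) (by omega) t with t | t
  exacts [t.2.1 (g _ (by omega) h4), t.2.1 (g _ (by omega) (by omega))]

end III1

/-- Case III with the word low, then high for `y`. -/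
structure IV (P : PM W k r Fe) (Q : Finset W) (x y c p q z1 z2 u : W) (Y X : W → ℤ) (a b : ℤ) : Prop
    extends P.III1 Q x y c p q z1 z2 u Y X a b where
  sh : P.Sh3 Q y b

namespace IV
variable (m : P.IV Q x y c p q z1 z2 u Y X a b) (d : D1 k Fe Q Pt x z1 z2)
include m d

lemma b3' : 3 ≤ b := m.b3 d m.sh

omit d in
lemma yA (h0 : 1 ≤ n) (h1 : n < b) : P.Ty Q 0 y n := m.sh.2.2.1 n h0 h1

omit d in
lemma yB (h0 : b ≤ n) (h1 : n + 3 ≤ k) : P.Ty Q 1 y n := m.sh.2.2.2.1 n h0 h1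

lemma w2 : P.it x 0 ∈ Q ∧ X (P.it x 0) = 2 ∧ P.it (P.it x 0) 2 = y ∧ P.it (P.it x 0) 1 = x ∧
    P.it x 0 ≠ p ∧ P.it y 2 = P.it x 0 := by
  have hk := d.sz.big
  have A := m.yA (n := 2) (by omega) (by have := m.b3' d; omega)
  obtain ⟨-, e, g⟩ := m.y2 d ((m.ceny d).hasA A)
  have t := (m.ceny d).tA A (by omega)
  have B := m.xB 0 le_rfl (by omega) (by have := m.a2; omega)
  have s := (m.c0 d).tB B (by omega)
  rw [e] at t
  exact ⟨B.1, by omega, g, s.1, fun f => B.2.1 (f ▸ P.sym _ _ ((m.sp.fx p).2 rfl)), e⟩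

lemma noA' (hs : s ∉ Q) (h1 : -1 ≤ n) (h2 : n + 2 ≤ k) (g : P.Ty Q 0 s n) :
    (s = y ∧ 1 ≤ n ∧ n < b) ∨ s = c := by
  rcases (m.out d s).1 hs with rfl | rfl | rfl
  · exact absurd g (m.xA d h1 h2)
  · refine Or.inl ⟨rfl, m.idx d (Or.inl rfl) h1 h2 g, ?_⟩
    by_contra t
    have : n ≠ k - 2 := fun e => m.sh.2.2.2.2.2.1 (e ▸ g)
    have := g.ne (m.yB (by omega) (by omega))
    omega
  · exact Or.inr rfl

lemma cAlow (h0 : 1 ≤ l) (h1 : l < b) : (cA Q X l : ℤ) = l ∧ X (P.it y l) = l := by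
  classical
  have bk := m.sh.2.1
  have key : ∀ j, 0 ≤ j → j ≤ l → (∀ n, 1 ≤ n → n ≤ l → X (P.it y n) ≤ j) → l ≤ cA Q X j :=
    fun j _ _ g => by
    have c1 := P.card_img y (i := 1) (j := l) (by omega) (by omega)
    have : ((Icc 1 l).image (P.it y)).card ≤ cA Q X j := card_le_card fun v hv => by
      simp only [mem_image, mem_Icc] at hv
      obtain ⟨n, hn, rfl⟩ := hv
      exact mem_filter.2 ⟨(m.yA hn.1 (by omega)).1, g n hn.1 hn.2⟩
    omega
  have le : ∀ n, 1 ≤ n → n ≤ l → X (P.it y n) ≤ n := fun n a b =>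
    ((m.ceny d).tA (m.yA a (by omega)) (by omega)).2
  refine ⟨le_antisymm (m.cAle d h0 (by omega)) (key l (by omega) le_rfl fun n a b => (le n a b).trans b), ?_⟩
  by_contra g
  have t := le l h0 le_rfl
  have := m.pos _ (m.yA h0 h1).1
  have := key (l - 1) (by omega) (by omega) fun n a b => by
    by_cases e : n = l
    · rw [e]; omega
    · have := le n a b; omega
  have := m.cAle d (l := l - 1) (by omega) (by omega)
  omega

open Classical in
lemma tw (_ : 2 ≤ l) (h1 : l ≤ k) (g : (cA Q X l : ℤ) + 2 ≤ l) (v : W)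
    (hv : (v ∈ Q ∧ X v ≤ l ∧ v ≠ P.it x 0) ∨ v = y ∨ v = c) :
    ∃ n, 2 ≤ n ∧ n ≤ l ∧ P.it (P.it x 0) n = v := by
  have xw := m.w2 d
  have := m.fl.tight m.cx xw.1 {y, c} (l := l) (by omega) (by omega) fun n a b g => by
    have := ((m.out d _).1 g).resolve_left fun e => by
      have := P.uniq (e.trans xw.2.2.2.1.symm) (by omega) (by omega); omega
    simpa using this
  have c2 := card_le_two (a := y) (b := c)
  rw [xw.2.1] at this
  exact this.2 (by omega) v (hv.imp_right (by simp))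

/-- Hall's condition for the high edges of `y`. -/
lemma yrun (h0 : b < l) (h1 : l < k) : (cA Q X l : ℤ) + 1 ≤ l ∧ (l ≤ cA Q X l + 1 → ∀ w ∈ Q, l < X w →
    ∃ n, l - 1 ≤ n ∧ n + 3 ≤ k ∧ P.it y n = w) := by
  have := d.sz.cardQ
  have := m.b3' d
  have t := (m.ceny d).run (l := l - 1) (by omega) (by omega) fun n a b => m.yB (by omega) b
  rw [sub_add_cancel] at t
  exact ⟨by omega, fun g => t.2 (by omega)⟩

/-- After a level with few vertices two vertices enter and meet the first two vertices. -/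
lemma ent (h0 : 2 ≤ l) (h1 : l + 2 ≤ k) (g : (cA Q X l : ℤ) + 2 ≤ l) :
    (P.it p (l + 1) ∈ Q ∧ X (P.it p (l + 1)) = l + 1) ∧
      (P.it (P.it x 0) (l + 1) ∈ Q ∧ X (P.it (P.it x 0) (l + 1)) = l + 1) ∧
      P.it p (l + 1) ≠ P.it (P.it x 0) (l + 1) := by
  have xf := m.ya d
  have xw := m.w2 d
  have a : P.it p (l + 1) ∈ Q ∧ X (P.it p (l + 1)) = l + 1 := by
    have t := (m.tf d (by omega) (by omega)).2 g (P.it p (l + 1))
    have t' : ¬ ∃ n, 1 ≤ n ∧ n ≤ l ∧ P.it p n = P.it p (l + 1) := fun ⟨n, a, b, e⟩ => by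
      have := P.uniq e (by omega) (by omega); omega
    have o : P.it p (l + 1) ∈ Q := by_contra fun o => t' (t (Or.inr o))
    have := (m.fl.ent m.cx m.sp.hp o).2 (by omega)
    have : ¬ X (P.it p (l + 1)) ≤ l := fun s => t' (t (Or.inl ⟨o, s, P.ne p _⟩))
    exact ⟨o, by omega⟩
  have b : P.it (P.it x 0) (l + 1) ∈ Q ∧ X (P.it (P.it x 0) (l + 1)) = l + 1 := by
    have t := m.tw d h0 (by omega) g (P.it (P.it x 0) (l + 1))
    have t' : ¬ ∃ n, 2 ≤ n ∧ n ≤ l ∧ P.it (P.it x 0) n = P.it (P.it x 0) (l + 1) :=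
      fun ⟨n, a, b, e⟩ => by have := P.uniq e (by omega) (by omega); omega
    have o : P.it (P.it x 0) (l + 1) ∈ Q := by_contra fun o => t' (t (Or.inr
      (((m.out d _).1 o).resolve_left fun e => by
        have := P.uniq (e.trans xw.2.2.2.1.symm) (by omega) (by omega); omega)))
    have := (m.fl.ent m.cx xw.1 o).2 (by omega)
    have : ¬ X (P.it (P.it x 0) (l + 1)) ≤ l := fun s => t' (t (Or.inl ⟨o, s, P.ne _ _⟩))
    exact ⟨o, by omega⟩
  refine ⟨a, b, fun e => xw.2.2.2.2.1 ?_⟩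
  rw [← m.fl.it xw.1 b.1 rfl, ← e, m.fl.it m.sp.hp a.1 rfl]

lemma isoG (h0 : 2 ≤ l) (h1 : l + 2 ≤ k) (g : (cA Q X l : ℤ) + 2 ≤ l) : l ≤ cA Q X (l + 1) := by
  obtain ⟨a, b, e⟩ := m.ent d h0 h1 g
  have := cA_two a.1 b.1 e a.2 b.2
  have := (m.tf d (l := l) (by omega) (by omega)).1
  omega

/-- Parity at a label that `c` misses. -/
lemma gpar (h0 : 1 ≤ l) (h1 : l + 2 ≤ k) (g : ¬ P.Has Q c l) :
    (cA Q X l : ℤ) % 2 = if l < b then 1 else 0 := by
  obtain ⟨n1, n2, n3⟩ := m.nes d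
  have t := m.fl.par m.cx (m.out d) n1 n2 n3 (m.cen d) (l := l) (by omega) h1 fun w hw _ f =>
    g (m.pall hw h0 h1 f (m.oc d))
  rw [if_neg (m.xA d (by omega) h1), if_neg (c := P.Ty Q 0 c l) fun t => g ((m.cenc d).hasA t),
    Nat.even_iff] at t
  change (cA Q X l + 0 + _ + 0) % 2 = 0 at t
  by_cases e : l < b
  · rw [if_pos (m.yA h0 e)] at t
    rw [if_pos e]; omega
  · rw [if_neg fun g => (m.noA' d (m.oy d) (by omega) h1 g).elim (fun z => e z.2.2) n3] at t
    rw [if_neg e]; omega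

/-- Two missed labels in a row lie above `b`. -/
lemma gab (h0 : 1 ≤ l) (h1 : l + 3 ≤ k) (g : ¬ P.Has Q c l) (g' : ¬ P.Has Q c (l + 1)) : b < l := by
  have key : ∀ j : ℤ, 1 ≤ j → j + 2 ≤ k → ¬ P.Has Q c j → j ≠ b := fun j a e t z =>
    m.sh.2.2.2.2.1 (z ▸ has_of_one (m.one j a e) (m.oc d) (m.oy d) (m.nes d).2.2.symm t)
  have := key l h0 (by omega) g
  have := key (l + 1) (by omega) (by omega) g'
  by_contra t
  have a1 := m.gpar d h0 (by omega) g
  have a2 := m.gpar d (l := l + 1) (by omega) (by omega) g'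
  rw [if_pos (by omega), (m.cAlow d (by omega) (by omega)).1] at a1 a2
  omega

/-- An even missed label above `b` has few vertices. -/
lemma gG (h0 : b < l) (h1 : l + 2 ≤ k) (g : ¬ P.Has Q c l) (e : l % 2 = 0) :
    (cA Q X l : ℤ) + 2 ≤ l := by
  have := m.b3' d
  have a := m.gpar d (by omega) h1 g
  have := (m.yrun d h0 (by omega)).1
  rw [if_neg (by omega)] at a
  omega

/-- With three early vertices no two levels with few vertices are two apart. -/
lemma noGG (b4 : 4 ≤ b) (h0 : 3 ≤ l) (h1 : l + 4 ≤ k) (g : (cA Q X l : ℤ) + 2 ≤ l)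
    (g' : (cA Q X (l + 2) : ℤ) + 2 ≤ l + 2) : False := by
  classical
  obtain ⟨⟨a1, a2⟩, ⟨b1, b2⟩, e⟩ := m.ent d (by omega) (by omega) g
  obtain ⟨s1, s2, -, -, s5, s6⟩ := m.w2 d
  have xf := (m.ya d).2.2.2
  have A := m.yA (n := 3) (by omega) (by omega)
  have x3 := (m.cAlow d (l := 3) (by omega) (by omega)).2
  obtain ⟨i, i1, -, -, -, i4, i5⟩ := m.xw d A.1 fun e => by rw [e] at x3; omega
  have f1 : P.it (P.it p (l + 1)) (l + 2) = P.it x 0 := by
    obtain ⟨n, n1, n2, t⟩ := m.tw d (l := l + 2) (by omega) (by omega) g' _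
      (Or.inl ⟨a1, by omega, fun t => by rw [t] at a2; omega⟩)
    have := (m.fl.side m.cx s1 a1 t).not.1 (by omega)
    have : n ≠ l + 1 := fun z => e (by rw [← t, z])
    rw [← m.fl.it s1 a1 t, show n = l + 2 by omega]
  have f2 : P.it (P.it (P.it x 0) (l + 1)) (l + 2) = p := by
    obtain ⟨n, n1, n2, t⟩ := (m.tf d (l := l + 2) (by omega) (by omega)).2 g' _
      (Or.inl ⟨b1, by omega, fun t => by rw [t] at b2; omega⟩)
    have := (m.fl.side m.cx m.sp.hp b1 t).not.1 (by omega)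
    have : n ≠ l + 1 := fun z => e (by rw [← t, z])
    rw [← m.fl.it m.sp.hp b1 t, show n = l + 2 by omega]
  have f3 := m.fl.it m.sp.hp a1 rfl
  have f4 := m.fl.it s1 b1 rfl
  have c0 := (m.tf d (l := l) (by omega) (by omega)).1
  have sub : (Icc 3 (l + 2)).image (P.it (P.it y 3)) ⊆
      (Q.filter fun v => X v ≤ l).erase (P.it y 3) ∪ {y, c} := fun v hv => by
    simp only [mem_image, mem_Icc] at hv
    obtain ⟨n, hn, rfl⟩ := hv
    by_cases o : P.it (P.it y 3) n ∈ Q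
    · refine mem_union_left _ (mem_erase.2 ⟨P.ne _ n, mem_filter.2 ⟨o, ?_⟩⟩)
      by_contra t
      have le := (m.fl.ent m.cx A.1 o).2 (by omega)
      have back := m.fl.it A.1 o rfl
      have n1 : P.it (P.it y 3) n ≠ P.it p (l + 1) := fun z => by
        rw [z] at back
        rcases (show n = l + 1 ∨ n = l + 2 by omega) with z | z <;> rw [z] at back
        · rw [← back, f3] at x3; omega
        · rw [← back, f1] at x3; omega
      have n2 : P.it (P.it y 3) n ≠ P.it (P.it x 0) (l + 1) := fun z => by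
        rw [z] at back
        rcases (show n = l + 1 ∨ n = l + 2 by omega) with z | z <;> rw [z] at back
        · rw [← back, f4] at x3; omega
        · rw [← back, f2] at x3; omega
      have := cA_ins (Q := Q) (X := X) (l := l) (i := l + 2)
        {P.it (P.it y 3) n, P.it p (l + 1), P.it (P.it x 0) (l + 1)} (by omega) fun v hv => by
          simp only [mem_insert, mem_singleton] at hv
          rcases hv with rfl | rfl | rfl
          exacts [⟨o, by omega, by omega⟩, ⟨a1, by omega, by omega⟩, ⟨b1, by omega, by omega⟩]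
      rw [card_eq_three.2 ⟨_, _, _, n1, n2, e, rfl⟩] at this
      omega
    · have := ((m.out d _).1 o).resolve_left fun e => by
        have := P.uniq (e.trans i5.symm) (by omega) (by omega); omega
      exact mem_union_right _ (by simpa using this)
  have c1 := P.card_img (P.it y 3) (i := 3) (j := l + 2) (by omega) (by omega)
  have c2 := card_union_le ((Q.filter fun v => X v ≤ l).erase (P.it y 3)) {y, c}
  have c3 := card_erase_add_one (mem_filter.2 ⟨A.1, by omega⟩ : P.it y 3 ∈ Q.filter fun v => X v ≤ l)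
  have c4 := card_le_card sub
  have c5 := card_le_two (a := y) (b := c)
  unfold cA at g
  omega

/-- A partner of `c` whose edge to `y` has a small label. -/
lemma ypast (hw : w ∈ Q) (h0 : 1 ≤ i) (h1 : i < l) (h2 : l < X w) (e : P.it w i = y) (wq : w ≠ q) :
    b + 2 ≤ l ∧ (cA Q X l : ℤ) + 2 ≤ l ∧ X w = l + 1 ∧ P.it y (l - 2) = w ∧ l ≤ cA Q X (l - 1) + 2 := by
  have hi := m.hi w hw
  have b3 := m.b3' d
  have bk := m.sh.2.1
  obtain ⟨n, n1, ⟨-, _, n2, n3⟩ | ⟨n2, n3, n4, n5⟩⟩ := m.yw' d m.sh hw wq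
  · have := P.uniq (n3.trans e.symm) (by omega) (by omega); omega
  obtain rfl : i = n + 1 := P.uniq (e.trans n5.symm) (by omega) (by omega)
  have key : ∀ j, n + 1 < j → j < X w → (cA Q X j : ℤ) + 2 ≤ j := fun j a e => by
    obtain ⟨r1, r2⟩ := m.yrun d (l := j) (by omega) (by omega)
    by_contra t
    obtain ⟨n', _, _, t⟩ := r2 (by omega) w hw e
    have := P.uniq (t.trans n1.symm) (by omega) (by omega); omega
  have g := key l h1 h2
  have g1 := m.isoG d (l := l) (by omega) (by omega) g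
  have g2 := m.isoG d (l := l - 1) (by omega) (by omega)
  rw [sub_add_cancel] at g2
  have := key (l + 1) (by omega)
  have := key (l - 1)
  exact ⟨by omega, g, by omega, by rw [← n1, show l - 2 = n by omega], by omega⟩

/-- A jump of `c` skips at least four labels. -/
lemma jump0 (B : P.Ty Q 1 c n) (A : P.Ty Q 0 c n') (h0 : 1 ≤ n) (h1 : n < n') (h2 : n' + 2 ≤ k)
    (g : ∀ j, n < j → j < n' → Fe c (P.it c j)) : n + 6 ≤ n' := by
  classical
  by_contra lt
  have hk := d.sz.big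
  have cq := d.sz.cardQ
  have ek := Nat.even_iff.1 d.sz.even
  have b3 := m.b3' d
  have j3 := m.fl.jump' B A h1
  have gap : ∀ j, n + 1 < j → j < n' → ¬ P.Has Q c j := fun j => m.gapm d h0 h2 g
  obtain ⟨w1, xw⟩ := (m.cenc d).tB B (by omega)
  obtain ⟨v1, xv⟩ := (m.cenc d).tA A (by omega)
  obtain ⟨Z, cz, zc, zw⟩ := P.cut_after c n
  replace zw := zw _ B.2.1 rfl
  rw [B.2.2] at zw
  have zv := (A.zero cz).2.not.1 (by omega)
  have hw := B.1
  have hv := A.1
  have nw := m.nop d hw B.2.1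
  have nv := m.nop d hv A.2.1
  have wp : P.it c n ≠ p := fun e => B.2.1 (e ▸ P.sym _ _ m.sp.fp)
  have wq : P.it c n ≠ q := fun e => B.2.1 (e ▸ P.sym _ _ m.sp.fq)
  have vp : P.it c n' ≠ p := fun e => A.2.1 (e ▸ P.sym _ _ m.sp.fp)
  have vq : P.it c n' ≠ q := fun e => A.2.1 (e ▸ P.sym _ _ m.sp.fq)
  generalize P.it c n = w at *
  generalize P.it c n' = v at *
  obtain ⟨s1, s2, s3, s4, s5, s6⟩ := m.w2 d
  obtain ⟨y1, y2, y3, y4⟩ := m.ya d
  have vin : ∀ j, n' < j → j ≤ k → P.it v j ∈ Q := fun j a e => by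
    by_contra o
    have : j ≠ k := fun z => o (z ▸ m.topk d hv)
    have : j ≠ k - 1 := fun z => o (z ▸ m.mid d hv)
    obtain ⟨t, t'⟩ := (m.cen d _ o).low m.fl hv (l := j) (by omega) (by omega) (by omega) rfl (nv j)
    rcases m.noA' d o (by omega) (by omega) t with z | z
    · have := (m.cAlow d z.2.1 z.2.2).2
      rw [← z.1, t'] at this; omega
    · have := P.uniq (z.trans v1.symm) (by omega) (by have := m.pos v hv; omega); omega
  have wout : ∀ j : ℤ, k - 1 ≤ j → j < n + 1 + k → P.it w j ∉ Q →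
      k < j ∧ (P.it w (j - k) = x ∨ P.it w (j - k) = y) := fun j a e o => by
    have : j ≠ k := fun z => o (z ▸ m.topk d hw)
    have : j ≠ k - 1 := fun z => o (z ▸ m.mid d hw)
    refine ⟨by omega, ?_⟩
    rw [P.it_sub]
    rcases (m.out d _).1 o with z | z | z
    exacts [Or.inl z, Or.inr z, by
      have := P.uniq (z.trans ((P.it_add w _).trans w1).symm) (by omega) (by omega); omega]
  have e0 := m.fl.evn cz (l := k - 1) fun w hw => m.mid d hw
  have e1 := m.fl.evn cz (l := k) fun w hw => m.topk d hw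
  have l0 := (m.fl.lowc cz hv (i := n') (l := k - 1) (by omega) (by omega) (by omega)
    fun j a e => vin j a (by omega)).1
  have l1 := (m.fl.lowc cz hv (i := n') (l := k) (by omega) (by omega) (by omega) vin).1
  have hc : ∀ T : Finset W, (∀ j, 1 ≤ j → j ≤ n → P.it w j = x ∨ P.it w j = y → P.it w j ∈ T) →
      ∀ l : ℤ, k - 1 ≤ l → l ≤ k + 1 → cA Q Z l + (n + 1 + k - l + 1) ≤ Q.card + T.card ∧
        (Q.card + T.card ≤ cA Q Z l + (n + 1 + k - l + 1) →
          ∀ v ∈ Q, l < Z v → v ≠ w → ∃ j, l ≤ j ∧ j < n + 1 + k ∧ P.it w j = v) :=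
    fun T hT l a e => m.fl.highc cz hw T (by omega) (by omega) (by omega) fun j a' e' o => by
      obtain ⟨t, t'⟩ := wout j (by omega) e' o
      rw [← P.it_sub]
      exact hT _ (by omega) (by omega) t'
  have past : ∀ t ∈ Q, t ≠ v → X t + k ≤ Z t → ∃ j, X v ≤ j ∧ j < n' ∧ P.it v j = t := fun t ht e z => by
    obtain ⟨j, j1, -, -, j2, j3, -⟩ := m.fl.meet m.cx hv ht e
    have := (m.fl.side cz hv ht j3).2 (by omega)
    have : j ≠ n' := fun z => m.oc d (by rw [← v1, ← z, j3]; exact ht)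
    exact ⟨j, j1, by omega, j3⟩
  have xpast : ∀ j, 1 ≤ j → j ≤ n → P.it w j = x → k + 1 < Z (P.it x 0) := fun j a e t => by
    obtain ⟨i, i1, i2, i3, i4, i5, i6⟩ := m.xw d hw wp
    obtain rfl : j = i + 1 := P.uniq (t.trans i6.symm) (by omega) (by omega)
    have := (i4.one cz).2.1
    rw [i3] at this
    have := ((m.xB 0 le_rfl (by omega) (by have := m.a2; omega)).one cz).2.1
    omega
  have h20 := (hc {x, y} (fun j _ _ t => by simpa using t) (k - 1) (by omega) (by omega)).1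
  have h21 := (hc {x, y} (fun j _ _ t => by simpa using t) k (by omega) (by omega)).1
  have c2 := card_le_two (a := x) (b := y)
  have gb := m.gab d (l := n + 2) (by omega) (by omega) (gap _ (by omega) (by omega))
    (gap _ (by omega) (by omega))
  by_cases yp : ∃ j, 1 ≤ j ∧ j ≤ n ∧ P.it w j = y
  · obtain ⟨j, j1, j2, j4⟩ := yp
    obtain ⟨a1, a2, a3, a4, a5⟩ := m.ypast d hw (l := n + 1) j1 (by omega) xw j4 wq
    have a6 := m.isoG d (l := n + 1) (by omega) (by omega) a2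
    have a7 := m.gpar d (l := n + 1 + 1) (by omega) (by omega) (gap _ (by omega) (by omega))
    have a8 := (m.yrun d (l := n + 1 + 1) (by omega) (by omega)).1
    rw [if_neg (by omega)] at a7
    have a9 := m.gG d (l := n + 1 + 2) (by omega) (by omega) (gap _ (by omega) (by omega)) (by omega)
    by_cases b4 : 4 ≤ b
    · exact m.noGG d b4 (by omega) (by omega) a2 a9
    obtain ⟨i, i1, -, -, -, i5, i6⟩ := m.xw d hw wp
    have : i ≠ n := fun z => (m.nes d).2.1 (by rw [← i6, z, w1])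
    have z2 := xpast (i + 1) (by omega) (by omega) i6
    have zy : ∀ i, 3 ≤ i → i ≤ n - 1 → i + k + 1 < Z (P.it y i) := fun i a e => by
      have t := ((m.yB (n := n + 1 - 2) (by omega) (by omega)).one cz).2.1
      rw [a4] at t
      exact ((m.yB (n := i) (by omega) (by omega)).one cz).2.1.1 (by omega)
    have xv' : n + 2 ≤ X v := by
      by_contra t
      obtain ⟨i, e, ⟨i1, i2, -⟩ | ⟨i1, -, i2, -⟩⟩ := m.yw' d m.sh hv vq
      · rcases (show i = 1 ∨ i = 2 by omega) with rfl | rfl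
        · exact vp (e.symm.trans y2)
        · rw [← s6, e] at z2; omega
      · have := zy i (by omega) (by omega)
        rw [e] at this; omega
    have B0 := m.yB (n := n - 2) (by omega) (by omega)
    have x0 : X (P.it y (n - 2)) = n := by
      have := ((m.ceny d).tB B0 (by omega)).2
      by_contra t
      obtain ⟨i, _, _, t⟩ := (m.yrun d (l := n) (by omega) (by omega)).2
        (by rw [add_sub_cancel_right] at a5; omega) _ B0.1 (by omega)
      have := P.uniq t (by omega) (by omega); omega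
    have := zy (n - 2) (by omega) (by omega)
    obtain ⟨j1, _, _, f1⟩ := past w hw (fun e => by rw [e] at zw; omega) (by omega)
    obtain ⟨j2, _, _, f2⟩ := past _ s1 (fun e => by rw [e] at s2; omega) (by omega)
    obtain ⟨j3, _, _, f3⟩ := past _ B0.1 (fun e => by rw [e] at x0; omega) (by omega)
    have : j1 ≠ j2 := fun e => by rw [← f2, ← e, f1] at s2; omega
    have : j1 ≠ j3 := fun e => by rw [← f3, ← e, f1] at x0; omega
    have : j2 ≠ j3 := fun e => by rw [← f3, ← e, f2] at x0; omega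
    obtain ⟨j4, _, _, f4⟩ := (m.tf d (l := n + 1 + 2) (by omega) (by omega)).2 a9 v
      (Or.inl ⟨hv, by omega, vp⟩)
    have := (m.fl.side m.cx m.sp.hp hv f4).not.1 (by omega)
    replace f4 := m.fl.it m.sp.hp hv f4
    have : j1 ≠ j4 := fun e => wp (by rw [← f1, e, f4])
    have : j2 ≠ j4 := fun e => s5 (by rw [← f2, e, f4])
    have : j3 ≠ j4 := fun e => by rw [← f3, e, f4] at x0; omega
    omega
  have hx := hc {x} fun j a e t => mem_singleton.2 (t.resolve_right fun z => yp ⟨j, a, e, z⟩)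
  rw [card_singleton] at hx
  have h10 := (hx (k - 1) (by omega) (by omega)).1
  have h11 := (hx k (by omega) (by omega)).1
  by_cases xp : ∃ j, 1 ≤ j ∧ j ≤ n ∧ P.it w j = x
  swap
  · have h0 := hc ∅ fun j a e t => (t.elim (fun z => xp ⟨j, a, e, z⟩) fun z => yp ⟨j, a, e, z⟩).elim
    have h00 := (h0 (k - 1) (by omega) (by omega)).1
    have h01 := (h0 k (by omega) (by omega)).1
    rw [card_empty] at h00 h01
    omega
  obtain ⟨j, j1, j2, j4⟩ := xp
  have z2 := xpast j j1 j2 j4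
  have zp : Z p ≤ k + 1 := by
    obtain ⟨c1, c2, c3, c4⟩ := m.yc0 d
    have t1 := cz.side (n := 0 + k) c4 ((P.it_add y 0).trans c1)
    have t2 := cz.side (n := 1 + k) y1.2.1 (P.it_add y 1)
    rw [y1.2.2, y2] at t2
    rw [c3] at t1
    omega
  have lab : ∀ t ∈ Q, P.it t (k + 1) ∉ Q → t = p ∨ t = P.it x 0 := fun t ht o =>
    m.lab1 d ht (by rwa [← P.it_add, add_comm])
  have e2 : P.nq Q Q Z (k + 1) = 1 := card_eq_one.2 ⟨p, eq_singleton_iff_unique_mem.2
    ⟨mem_filter.2 ⟨m.sp.hp, zp, by rw [add_comm, P.it_add, y3]; exact m.oy d⟩, fun t ht => by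
      rw [mem_filter] at ht
      exact (lab t ht.1 ht.2.2).resolve_right fun e => by rw [e] at ht; omega⟩⟩
  have e3 := m.fl.nq_par cz (k + 1)
  obtain ⟨l2, l3⟩ := m.fl.lowc cz hv (i := n') (l := k + 1) (by omega) (by omega) (by omega)
    fun j a e => by
      by_cases z : j = k + 1
      · rw [z]
        by_contra o
        exact (lab v hv o).elim vp fun e => by rw [← e] at z2; omega
      · exact vin j a (by omega)
  obtain ⟨h12, h13⟩ := hx (k + 1) (by omega) (by omega)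
  have h14 : ¬ ((Q.card : ℤ) + (1 : ℕ) ≤ cA Q Z (k + 1) + (n + 1 + k - (k + 1) + 1)) := fun t => by
    have ne : P.it x 0 ≠ w := fun e => by rw [← e] at xw; omega
    obtain ⟨i, _, _, t⟩ := h13 t _ s1 z2 ne
    obtain ⟨i', _, _, _, _, t', t''⟩ := m.fl.meet m.cx hw s1 ne
    have : i' ≠ 1 + k := fun z => d.o0 (by rw [← s4, ← P.it_add, ← z, t'']; exact hw)
    have := P.uniq (t.trans t'.symm) (by omega) (by omega); omega
  obtain ⟨i, _, _, f⟩ := l3 (by omega) p m.sp.hp zp vp.symm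
  have a9 := m.gG d (l := n' - 1) (by omega) (by omega) (gap _ (by omega) (by omega)) (by omega)
  obtain ⟨⟨a1, a2⟩, ⟨b1, b2⟩, e⟩ := m.ent d (by omega) (by omega) a9
  rw [sub_add_cancel] at a1 a2 b1 b2 e
  by_cases t : X v = n'
  · have := cA_three (X := X) (l := n' - 1) hv a1 b1
      (fun z => m.oc d (by rw [← v1, z, m.fl.it m.sp.hp a1 rfl]; exact m.sp.hp))
      (fun z => m.oc d (by rw [← v1, z, m.fl.it s1 b1 rfl]; exact s1)) e (by omega) (by omega) (by omega)
    rw [sub_add_cancel] at this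
    have := (m.yrun d (l := n') (by omega) (by omega)).1
    have := (m.tf d (l := n' - 1) (by omega) (by omega)).1
    omega
  obtain ⟨i', _, _, f'⟩ := (m.tf d (l := n' - 1) (by omega) (by omega)).2 a9 v (Or.inl ⟨hv, by omega, vp⟩)
  have : i' ≠ 1 := fun z => m.oy d (by rw [← y3, ← z, f']; exact hv)
  have := P.uniq (f.trans (m.fl.it m.sp.hp hv f').symm) (by omega) (by omega)
  omega

/-- From a high edge of `c` to a later low edge there are six steps. -/
theorem jump (B : P.Ty Q 1 c n) (A : P.Ty Q 0 c n') (h0 : 1 ≤ n) (h1 : n < n') (h2 : n' + 2 ≤ k) :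
    n + 6 ≤ n' := by
  obtain ⟨i, i', a1, a2, a3, b1, b2, g⟩ := m.exj d B A h0 h1 h2
  have := m.jump0 d b1 b2 (by omega) a2 (by omega) g
  omega

/-- The word of `y` has two low edges. -/
theorem three : b = 3 := by
  have hk := d.sz.big
  have := m.b3' d
  by_contra g
  have A : P.Ty Q 0 c (k - 2) := by
    by_contra t
    obtain ⟨v, hv, w, hw, e, v1, w1⟩ := m.last d m.sh t
    exact e (m.top d m.sh (by omega) hv hw v1 w1)
  obtain ⟨i, i', a1, a2, a3, b1, b2, t⟩ := m.exj d (m.cB1 d) A le_rfl (by omega) (by omega)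
  have := m.jump0 d b1 b2 a1 a2 (by omega) t
  have gap : ∀ j, i + 1 < j → j < i' → ¬ P.Has Q c j := fun j => m.gapm d a1 (by omega) t
  have gb := m.gab d (l := i + 2) (by omega) (by omega) (gap _ (by omega) (by omega))
    (gap _ (by omega) (by omega))
  obtain ⟨l, l1, l2, l3⟩ : ∃ l, i + 2 ≤ l ∧ l ≤ i + 3 ∧ l % 2 = 0 :=
    ⟨i + 2 + i % 2, by omega, by omega, by omega⟩
  exact m.noGG d (l := l) (by omega) (by omega) (by omega)
    (m.gG d (by omega) (by omega) (gap _ (by omega) (by omega)) l3)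
    (m.gG d (by omega) (by omega) (gap _ (by omega) (by omega)) (by omega))

end IV

end PM

end Pool.Agent.P.MP_3f5ded_co.UG
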