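import Pool.Agent.P.MP_3f5ded_co.ETH
import Pool.Agent.P.MP_3f5ded_co.ET2

set_option autoImplicit false

namespace Pool.Agent.P.MP_3f5ded_co.UG

open Finset

namespace PM
variable {W : Type} {k : ℕ} {r : ℝ} {Fe : W → W → Prop} {P : PM W k r Fe} {Q : Finset W}
  {X Y : W → ℤ} {x y c f h z1 z2 u w z : W} {n l : ℤ} [Fintype W] {Pt : Finset (W × W)}

/-- The words of the thin centres in case III; the word of `c` is free. -/
structure W4 (P : PM W k r Fe) (Q : Finset W) (x y c f h z1 z2 u : W) (Y X : W → ℤ) : Prop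
    extends P.C0 Q x z1 z2 u Y X where
  nm : (z1 = y ∧ z2 = c) ∨ (z1 = c ∧ z2 = y)
  sp : Sp k Fe Q x y c f h
  pos : ∀ w ∈ Q, 1 ≤ X w
  nf : ∀ w ∈ Q, ¬ Fe w (P.it w (X w))
  xB : ∀ n : ℤ, 0 ≤ n → n + 3 ≤ k → ¬ P.Ty Q 0 x n
  ya : P.Ty Q 0 y 1 ∧ P.it y 1 = f
  yb : P.Ty Q 0 y 2
  yB : ∀ n : ℤ, 3 ≤ n → n + 3 ≤ k → P.Ty Q 1 y n
  cb : P.Ty Q 1 c 1

theorem III1.w4 {p q : W} {a b : ℤ} (m : P.III1 Q x y c p q z1 z2 u Y X a b)
    (d : D1 k Fe Q Pt x z1 z2) (h : P.Sh3 Q y 3) :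
    ∃ (r' : ℝ) (P' : PM W k r' Fe) (X' : W → ℤ), P.Same P' ∧ P'.W4 Q x y c p q z1 z2 u Y X' := by
  have hk := d.sz.big
  obtain ⟨r', P', X', s, c0, pos, nf⟩ := m.lj d m.pos
  refine ⟨r', P', X', s, c0, ?_, m.sp, pos, nf, fun n n1 n2 => s.ty.not.2 (m.xA d (by omega) (by omega)),
    ⟨s.ty.2 (m.ya d).1, by rw [s.1]; exact (m.ya d).2.1⟩, s.ty.2 (h.2.2.1 2 (by omega) (by omega)),
    fun n n1 n2 => s.ty.2 (h.2.2.2.1 n n1 n2), s.ty.2 (m.cB1 d)⟩
  rcases m.yc with ⟨rfl, rfl⟩ | ⟨rfl, rfl⟩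
  exacts [Or.inl ⟨rfl, rfl⟩, Or.inr ⟨rfl, rfl⟩]

namespace W4
variable (m : P.W4 Q x y c f h z1 z2 u Y X) (d : D1 k Fe Q Pt x z1 z2)
include m d

lemma out (w : W) : w ∉ Q ↔ w = x ∨ w = y ∨ w = c := by
  rw [d.out]
  rcases m.nm with ⟨rfl, rfl⟩ | ⟨rfl, rfl⟩ <;> tauto

lemma oy : y ∉ Q := (m.out d y).2 (by simp)
lemma oc : c ∉ Q := (m.out d c).2 (by simp)

lemma nes : x ≠ y ∧ x ≠ c ∧ y ≠ c := by
  rcases m.nm with ⟨rfl, rfl⟩ | ⟨rfl, rfl⟩
  exacts [⟨d.n01, d.n02, d.n12⟩, ⟨d.n02, d.n01, d.n12.symm⟩]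

lemma cen (hz : z ∉ Q) : P.Cen Q X z := by
  rcases (d.out z).1 hz with rfl | rfl | rfl
  exacts [m.c0 d, m.c1 d, m.c2 d]

lemma yc : P.it y 0 = c ∧ P.it c 0 = y ∧ P.sh y c = 0 ∧ ¬ Fe y c := by
  have s : P.sh z1 z2 = 0 := by rw [P.sh_neg d.sw.e12 d.n12, m.s3, neg_zero]
  rcases m.nm with ⟨rfl, rfl⟩ | ⟨rfl, rfl⟩
  exacts [⟨m.e3' d, m.e3, s, d.e12⟩, ⟨m.e3, m.e3' d, m.s3, d.sw.e12⟩]

lemma idx {s : ℤ} (hz : z ∉ Q) (h1 : -1 ≤ n) (h2 : n + 2 ≤ k) (a : P.Ty Q s z n) :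
    0 ≤ n ∧ (z ≠ x → 1 ≤ n) := by
  rcases (d.out z).1 hz with rfl | rfl | rfl
  · exact ⟨(m.idx0 d h1 h2 a).1, fun e => absurd rfl e⟩
  · have := m.idx1 d h1 h2 a; omega
  · have := m.idx2 d h1 a; omega

lemma yty (h1 : 1 ≤ n) (h2 : n + 3 ≤ k) : ¬ Fe y (P.it y n) := by
  rcases (show n = 1 ∨ n = 2 ∨ 3 ≤ n by omega) with rfl | rfl | g
  exacts [m.ya.1.2.1, m.yb.2.1, (m.yB n g h2).2.1]

/-- The port of `y`. -/
lemma yh (h0 : 0 ≤ n) (h1 : n < k) (e : Fe y (P.it y n)) : (k : ℤ) ≤ n + 2 := by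
  by_contra g
  by_cases z : n = 0
  · rw [z, (m.yc d).1] at e
    exact (m.yc d).2.2.2 e
  · exact m.yty d (by omega) (by omega) e

lemma noA (hz : z ∉ Q) (zc : z ≠ c) (h1 : -1 ≤ n) (h2 : n + 2 ≤ k) (a : P.Ty Q 0 z n) :
    z = y ∧ (n = 1 ∨ n = 2) := by
  have i := m.idx d hz h1 h2 a
  rcases (m.out d z).1 hz with rfl | rfl | rfl
  · exact absurd a (m.xB n i.1 (m.idx0 d h1 h2 a).2)
  · have i1 := i.2 (m.nes d).1.symm
    refine ⟨rfl, ?_⟩
    by_contra g
    by_cases e : n + 3 ≤ k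
    · have := a.ne (m.yB n (by omega) e); omega
    rcases m.nm with ⟨rfl, -⟩ | ⟨-, rfl⟩
    · exact e (m.idx1 d h1 h2 a).2
    obtain ⟨j, j1, j2, e'⟩ := P.win (x := z2) (y := h) (fun t => hz (t ▸ m.sp.hq)) 0
    have p : Fe z2 (P.it z2 j) := by rw [e']; exact P.sym _ _ ((m.sp.fy h).2 rfl)
    have := m.yh d j1 (by omega) p
    have : j ≠ n := fun t => a.2.1 (t ▸ p)
    rw [show j = -1 + k by omega, P.it_add, m.j2 d] at e'
    exact d.o0 (e' ▸ m.sp.hq)
  · exact absurd rfl zc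

/-- Low items that leave `Q`. -/
lemma lowit (hw : w ∈ Q) (h0 : X w ≤ l) (h1 : l < k) (o : P.it w l ∉ Q) (p : ¬ Fe w (P.it w l)) :
    (P.it w l = y ∧ (l = 1 ∨ l = 2)) ∨ (P.it w l = c ∧ P.Ty Q 0 c l ∧ P.it c l = w) := by
  have := m.pos w hw
  have : l ≠ k - 1 := fun e => o (e ▸ m.mid d hw)
  have a := (m.cen d o).low m.fl hw (by omega) (by omega) h0 rfl p
  by_cases e : P.it w l = c
  · exact Or.inr ⟨e, e ▸ a⟩
  · exact Or.inl (m.noA d o e (by omega) (by omega) a.1)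

/-- Edges to the centres. -/
lemma adjB (hw : w ∈ Q) (hz : z ∉ Q) (zc : z ≠ c) (p : ¬ Fe w z) : (z = y ∧ (w = f ∨ w = P.it y 2)) ∨
    ∃ n, 0 ≤ n ∧ (z = y → 3 ≤ n) ∧ P.it z n = w ∧ n + 1 < X w ∧ P.it w (n + 1) = z := by
  obtain ⟨n, n1, n2, e, a | a⟩ := (m.cen d hz).adj hw p
  · obtain ⟨rfl, rfl | rfl⟩ := m.noA d hz zc n1 n2 a
    exacts [Or.inl ⟨rfl, Or.inl (e.symm.trans m.ya.2)⟩, Or.inl ⟨rfl, Or.inr e.symm⟩]
  · have g := (m.cen d hz).tB a n2
    have i := m.idx d hz n1 n2 a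
    rw [e] at g
    refine Or.inr ⟨n, i.1, fun t => ?_, e, g.2, g.1⟩
    subst t
    have := i.2 (m.nes d).1.symm
    by_contra b
    rcases (show n = 1 ∨ n = 2 by omega) with rfl | rfl
    · have := a.ne m.ya.1; omega
    · have := a.ne m.yb; omega

lemma xf : X f = 1 ∧ P.it f 1 = y := by
  have := (m.cen d (m.oy d)).tA m.ya.1 (by omega)
  rw [m.ya.2] at this
  have := m.pos f m.sp.hp
  exact ⟨by omega, by tauto⟩

lemma two_le (hw : w ∈ Q) (e : w ≠ f) : ∃ n, 0 ≤ n ∧ n + 1 < X w ∧ P.it w (n + 1) = x := by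
  rcases m.adjB d hw d.o0 (m.nes d).2.1 fun t => e ((m.sp.fx w).1 t) with g | ⟨n, g⟩
  exacts [absurd g.1 (m.nes d).1, ⟨n, g.1, g.2.2.2⟩]

lemma wf : P.it y 2 ≠ f := fun e => by
  have := P.uniq (e.trans m.ya.2.symm) (by have := d.sz.big; omega) (by have := d.sz.big; omega)
  omega

lemma xw : X (P.it y 2) = 2 ∧ P.it (P.it y 2) 2 = y ∧ P.it (P.it y 2) 1 = x := by
  have a := (m.cen d (m.oy d)).tA m.yb (by omega)
  obtain ⟨n, n1, n2, e⟩ := m.two_le d m.yb.1 (m.wf d)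
  rw [show n + 1 = 1 by omega] at e
  exact ⟨by omega, a.1, e⟩

lemma five_le (hw : w ∈ Q) (e1 : w ≠ f) (e2 : w ≠ P.it y 2) (e3 : w ≠ h) : 5 ≤ X w := by
  rcases m.adjB d hw (m.oy d) (m.nes d).2.2 fun t => e3 ((m.sp.fy w).1 t) with g | ⟨n, g⟩
  · tauto
  · have := g.2.1 rfl; omega

lemma hasB (hz : z ∉ Q) (zc : z ≠ c) (zy : z ≠ y ∨ 3 ≤ l) (h0 : 0 ≤ l) (h1 : l + 2 ≤ k) (g : P.Has Q z l) :
    P.Ty Q 1 z (l - 1) :=
  ((m.cen d hz).has h0 (by omega) g).resolve_left fun a => by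
    have := m.noA d hz zc (by omega) h1 a
    rcases zy with e | e
    · exact e this.1
    · omega

lemma my3 : ¬ P.Has Q y 3 := fun g => by
  have := (m.hasB d (m.oy d) (m.nes d).2.2 (Or.inr le_rfl) (by omega) (by have := d.sz.big; omega) g).ne m.yb
  omega

lemma mc1 : ¬ P.Has Q c 1 := fun g => by
  have hk := d.sz.big
  rcases (m.cen d (m.oc d)).has (by omega) (by omega) g with a | a
  · have := ((m.cen d (m.oc d)).tA a (by omega)).2
    by_cases e : P.it c 1 = f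
    · exact a.2.1 (e ▸ P.sym _ _ m.sp.fp)
    · obtain ⟨n, _, _, _⟩ := m.two_le d a.1 e
      omega
  · exact m.oy d ((m.yc d).2.1 ▸ a.1)

/-- The main centre has high edges at the labels `2` and `3`. -/
lemma cb2 : P.Ty Q 1 c 2 := by
  have hk := d.sz.big
  refine ((m.cen d (m.oc d)).has (l := 3) (by omega) (by omega) (has_of_one
    (m.one 3 (by omega) (by omega)) (m.oy d) (m.oc d) (m.nes d).2.2 (m.my3 d))).resolve_left fun a => ?_
  have := m.fl.jump' m.cb a (by omega)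
  omega

lemma cA5 (h0 : -1 ≤ n) (h1 : n ≤ 4) : ¬ P.Ty Q 0 c n := fun a => by
  have hk := d.sz.big
  have := (m.idx d (m.oc d) h0 (by omega) a).2 (m.nes d).2.1.symm
  rcases (show n = 1 ∨ n = 2 ∨ 2 < n by omega) with rfl | rfl | g
  · have := a.ne m.cb; omega
  · have := a.ne (m.cb2 d); omega
  · have := m.fl.jump' (m.cb2 d) a g; omega

/-- Low items up to level four. -/
lemma lowit4 (hw : w ∈ Q) (h0 : X w ≤ l) (h1 : l ≤ 4) (o : P.it w l ∉ Q) (p : ¬ Fe w (P.it w l)) :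
    P.it w l = y ∧ (l = 1 ∨ l = 2) := by
  have := m.pos w hw
  have := d.sz.big
  exact (m.lowit d hw h0 (by omega) o p).resolve_right fun a => m.cA5 d (by omega) h1 a.2.1

omit d in
lemma pall (hw : w ∈ Q) (h0 : 1 ≤ l) (h1 : l + 2 ≤ k) (p : Fe w (P.it w l)) (hz : z ∉ Q) :
    P.Has Q z l := has_of_port (m.one l h0 h1) hz hw p

omit d in
lemma pone {w' : W} (hw : w ∈ Q) (hw' : w' ∈ Q) (h0 : 1 ≤ l) (h1 : l + 2 ≤ k) (p : Fe w (P.it w l))
    (p' : Fe w' (P.it w' l)) : w = w' := by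
  by_contra e
  have := two_le_dfc'' hw p hw' p' e
  have := m.one l h0 h1
  omega

lemma in3 (hw : w ∈ Q) (g : X w ≤ 3) : P.it w 3 ∈ Q ∧ X (P.it w 3) ≤ 3 := by
  have hk := d.sz.big
  have : P.it w 3 ∈ Q := by
    by_contra o
    have := m.lowit4 d hw g (by omega) o fun p =>
      m.my3 d (m.pall hw (by omega) (by omega) p (m.oy d))
    omega
  exact ⟨this, (m.fl.ent m.cx hw this).2 g⟩

lemma wh : P.it y 2 ≠ h := fun e => m.yb.2.1 (e ▸ P.sym _ _ ((m.sp.fy h).2 rfl))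

lemma h4 : 4 ≤ X h := by
  by_contra g
  have key : ∀ w ∈ Q, X w ≤ 3 → w = f ∨ w = P.it y 2 ∨ w = h := fun w hw t => by
    by_contra e
    push Not at e
    have := m.five_le d hw e.1 e.2.1 e.2.2
    omega
  have a := m.in3 d m.sp.hp (by have := m.xf d; omega)
  have b := m.in3 d m.yb.1 (by have := m.xw d; omega)
  have e := m.in3 d m.sp.hq (by omega)
  have a' := m.fl.it m.sp.hp a.1 rfl
  have b' := m.fl.it m.yb.1 b.1 rfl
  have e' := m.fl.it m.sp.hq e.1 rfl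
  have := m.wf d
  have := m.wh d
  have := m.sp.pq
  have := P.ne f 3
  have := P.ne (P.it y 2) 3
  have := P.ne h 3
  rcases key _ a.1 a.2 with t | t | t <;> rcases key _ e.1 e.2 with s | s | s <;>
    rcases key _ b.1 b.2 with v | v | v <;> simp_all

lemma le3' (hw : w ∈ Q) (g : X w ≤ 3) : w = f ∨ w = P.it y 2 := by
  by_contra e
  push Not at e
  by_cases t : w = h
  · have := m.h4 d; rw [t] at g; omega
  · have := m.five_le d hw e.1 e.2 t; omega

lemma f3 : P.it f 3 = P.it y 2 := by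
  have a := m.in3 d m.sp.hp (by have := m.xf d; omega)
  exact (m.le3' d a.1 a.2).resolve_left (P.ne f 3)

lemma f2 : Fe f (P.it f 2) := by
  have hk := d.sz.big
  have xf := m.xf d
  by_contra p
  by_cases o : P.it f 2 ∈ Q
  · have := (m.fl.ent m.cx m.sp.hp o).2 (by omega)
    have e := (m.le3' d o (by omega)).resolve_left (P.ne f 2)
    have := P.uniq (e.trans (m.f3 d).symm) (by omega) (by omega)
    omega
  · have := P.uniq ((m.lowit4 d m.sp.hp (by omega) (by omega) o p).1.trans xf.2.symm) (by omega)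
      (by omega)
    omega

lemma xh : X h = 4 := by
  have hk := d.sz.big
  have xf := m.xf d
  have xw := m.xw d
  have := m.h4 d
  by_contra g
  have f3 := m.f3 d
  have key : ∀ w w', w ∈ Q → X w ≤ 3 → P.it w 3 = w' → (∀ v, v = f ∨ v = P.it y 2 → v ≠ w → v = w') →
      Fe w (P.it w 4) := fun w w' hw t e s => by
    by_contra p
    by_cases o : P.it w 4 ∈ Q
    · have b := (m.fl.ent m.cx hw o).2 (by omega)
      have : P.it w 4 = f ∨ P.it w 4 = P.it y 2 := by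
        by_contra e
        push Not at e
        by_cases t : P.it w 4 = h
        · rw [t] at b; omega
        · have := m.five_le d o e.1 e.2 t; omega
      have := P.uniq ((s _ this (P.ne w 4)).trans e.symm) (by omega) (by omega)
      omega
    · have := m.lowit4 d hw (by omega) (by omega) o p
      omega
  exact m.wf d (m.pone m.yb.1 m.sp.hp (by omega) (by omega)
    (key _ f m.yb.1 (by omega) (m.fl.it m.sp.hp m.yb.1 f3) (by tauto))
    (key f _ m.sp.hp (by omega) f3 (by tauto)))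

open Classical in
lemma tf (h0 : 1 ≤ l) (h1 : l ≤ k) : l ≤ cA Q X l + 2 ∧ ((cA Q X l : ℤ) + 2 ≤ l →
    ∀ v, (v ∈ Q ∧ X v ≤ l ∧ v ≠ f) ∨ v ∉ Q → ∃ n, 1 ≤ n ∧ n ≤ l ∧ P.it f n = v) := by
  have xf := (m.xf d).1
  have := m.fl.tight m.cx m.sp.hp Qᶜ (l := l) (by omega) (by omega) fun n _ _ g => mem_compl.2 g
  rw [d.sz.three, xf] at this
  exact ⟨by omega, fun g v hv => this.2 (by omega) v (hv.imp_right mem_compl.2)⟩

open Classical in
lemma tw (h0 : 2 ≤ l) (h1 : l ≤ k) (g : (cA Q X l : ℤ) + 2 ≤ l) (v : W)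
    (hv : (v ∈ Q ∧ X v ≤ l ∧ v ≠ P.it y 2) ∨ v = y ∨ v = c) :
    ∃ n, 2 ≤ n ∧ n ≤ l ∧ P.it (P.it y 2) n = v := by
  have xw := m.xw d
  have := m.fl.tight m.cx m.yb.1 {y, c} (l := l) (by omega) (by omega) fun n a b g => by
    have := ((m.out d _).1 g).resolve_left fun e => by
      have := P.uniq (e.trans xw.2.2.symm) (by omega) (by omega); omega
    simpa using this
  have c2 := card_le_two (a := y) (b := c)
  rw [xw.1] at this
  exact this.2 (by omega) v (hv.imp_right (by simp))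

lemma cup (h0 : 3 ≤ l) (h1 : l < k) : (cA Q X l : ℤ) + 1 ≤ l := by
  classical
  have := d.sz.cardQ
  by_cases e : l = 3
  · have : cA Q X l ≤ ({f, P.it y 2} : Finset W).card := card_le_card fun w hw => by
      rw [mem_filter] at hw
      simpa using m.le3' d hw.1 (by omega)
    have := card_le_two (a := f) (b := P.it y 2)
    omega
  have := ((m.cen d (m.oy d)).run (l := l - 1) (by omega) (by omega)
    fun n a b => m.yB n (by omega) b).1
  rw [sub_add_cancel] at this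
  omega

/-- After a level with few vertices two vertices enter and meet `f` and the second vertex. -/
lemma ent (h0 : 2 ≤ l) (h1 : l + 2 ≤ k) (g : (cA Q X l : ℤ) + 2 ≤ l) :
    (P.it f (l + 1) ∈ Q ∧ X (P.it f (l + 1)) = l + 1) ∧
      (P.it (P.it y 2) (l + 1) ∈ Q ∧ X (P.it (P.it y 2) (l + 1)) = l + 1) ∧
      P.it f (l + 1) ≠ P.it (P.it y 2) (l + 1) := by
  have xf := m.xf d
  have xw := m.xw d
  have a : P.it f (l + 1) ∈ Q ∧ X (P.it f (l + 1)) = l + 1 := by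
    have t := (m.tf d (by omega) (by omega)).2 g (P.it f (l + 1))
    have t' : ¬ ∃ n, 1 ≤ n ∧ n ≤ l ∧ P.it f n = P.it f (l + 1) := fun ⟨n, a, b, e⟩ => by
      have := P.uniq e (by omega) (by omega); omega
    have o : P.it f (l + 1) ∈ Q := by_contra fun o => t' (t (Or.inr o))
    have := (m.fl.ent m.cx m.sp.hp o).2 (by omega)
    have : ¬ X (P.it f (l + 1)) ≤ l := fun s => t' (t (Or.inl ⟨o, s, P.ne f _⟩))
    exact ⟨o, by omega⟩
  have b : P.it (P.it y 2) (l + 1) ∈ Q ∧ X (P.it (P.it y 2) (l + 1)) = l + 1 := by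
    have t := m.tw d h0 (by omega) g (P.it (P.it y 2) (l + 1))
    have t' : ¬ ∃ n, 2 ≤ n ∧ n ≤ l ∧ P.it (P.it y 2) n = P.it (P.it y 2) (l + 1) :=
      fun ⟨n, a, b, e⟩ => by have := P.uniq e (by omega) (by omega); omega
    have o : P.it (P.it y 2) (l + 1) ∈ Q := by_contra fun o => t' (t (Or.inr
      (((m.out d _).1 o).resolve_left fun e => by
        have := P.uniq (e.trans xw.2.2.symm) (by omega) (by omega); omega)))
    have := (m.fl.ent m.cx m.yb.1 o).2 (by omega)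
    have : ¬ X (P.it (P.it y 2) (l + 1)) ≤ l := fun s => t' (t (Or.inl ⟨o, s, P.ne _ _⟩))
    exact ⟨o, by omega⟩
  refine ⟨a, b, fun e => m.wf d ?_⟩
  rw [← m.fl.it m.yb.1 b.1 rfl, ← e, m.fl.it m.sp.hp a.1 rfl]

lemma isoG (h0 : 2 ≤ l) (h1 : l + 2 ≤ k) (g : (cA Q X l : ℤ) + 2 ≤ l) : l ≤ cA Q X (l + 1) := by
  obtain ⟨a, b, e⟩ := m.ent d h0 h1 g
  have := cA_two a.1 b.1 e a.2 b.2
  have := (m.tf d (l := l) (by omega) (by omega)).1
  omega

/-- The first item of a vertex goes to an older vertex or to `c`. -/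
lemma first (hw : w ∈ Q) (g : 4 ≤ X w) : (P.it w (X w) ∈ Q ∧ X (P.it w (X w)) < X w) ∨
    (P.it w (X w) = c ∧ P.Ty Q 0 c (X w) ∧ P.it c (X w) = w) := by
  have hi := m.hi w hw
  by_cases o : P.it w (X w) ∈ Q
  swap
  · exact Or.inr ((m.lowit d hw le_rfl hi o (m.nf w hw)).resolve_left (by omega))
  refine Or.inl ⟨o, ?_⟩
  have le := (m.fl.ent m.cx hw o).2 le_rfl
  by_contra e
  obtain ⟨l, hl⟩ : ∃ l, X w = l + 1 := ⟨X w - 1, by ring⟩
  have back := m.fl.it hw o rfl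
  have c1 := cA_two hw o (P.ne w _).symm hl (by omega)
  have c2 := m.cup d (l := l + 1) (by omega) (by omega)
  obtain ⟨a, -, -⟩ := m.ent d (l := l) (by omega) (by omega) (by omega)
  have a' := m.fl.it m.sp.hp a.1 rfl
  have xf := (m.xf d).1
  have c3 := (m.tf d (l := l) (by omega) (by omega)).1
  have := cA_three hw o a.1 (P.ne w _).symm (fun t => by rw [← t, ← hl] at a'; rw [a'] at e; omega)
    (fun t => by rw [← t, ← hl, back] at a'; rw [a'] at g; omega) hl (by omega) a.2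
  omega

open Classical in
/-- The low items that leave `Q`: a port and an edge to `c`. -/
lemma nqP (h0 : 3 ≤ l) (h1 : l + 2 ≤ k) : P.nq Q Q X l =
    (if P.LoP Q X l then 1 else 0) + if P.Ty Q 0 c l then 1 else 0 := by
  have e := card_filter_add_card_filter_not (s := Q.filter fun w => X w ≤ l ∧ P.it w l ∉ Q)
    fun w => Fe w (P.it w l)
  have e1 : ((Q.filter fun w => X w ≤ l ∧ P.it w l ∉ Q).filter fun w => Fe w (P.it w l)).card =
      if P.LoP Q X l then 1 else 0 := by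
    split_ifs with g
    · obtain ⟨w, hw, a, p⟩ := g
      refine card_eq_one.2 ⟨w, eq_singleton_iff_unique_mem.2 ⟨?_, fun v hv => ?_⟩⟩
      · exact mem_filter.2 ⟨mem_filter.2 ⟨hw, a, fun o => m.fl.cl w hw _ o p⟩, p⟩
      · simp only [mem_filter] at hv
        exact m.pone hv.1.1 hw (by omega) h1 hv.2 p
    · refine card_eq_zero.2 (filter_eq_empty_iff.2 fun v hv p => g ?_)
      rw [mem_filter] at hv
      exact ⟨v, hv.1, hv.2.1, p⟩
  have e2 : ((Q.filter fun w => X w ≤ l ∧ P.it w l ∉ Q).filter fun w => ¬ Fe w (P.it w l)).card =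
      if P.Ty Q 0 c l then 1 else 0 := by
    have key : ∀ v ∈ (Q.filter fun w => X w ≤ l ∧ P.it w l ∉ Q).filter fun w => ¬ Fe w (P.it w l),
        P.Ty Q 0 c l ∧ P.it c l = v := fun v hv => by
      simp only [mem_filter] at hv
      exact ((m.lowit d hv.1.1 hv.1.2.1 (by omega) hv.1.2.2 hv.2).resolve_left (by omega)).2
    split_ifs with g
    · have t := (m.cen d (m.oc d)).tA g (by omega)
      refine card_eq_one.2 ⟨P.it c l, eq_singleton_iff_unique_mem.2 ⟨?_, fun v hv => (key v hv).2.symm⟩⟩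
      refine mem_filter.2 ⟨mem_filter.2 ⟨g.1, t.2, ?_⟩, ?_⟩ <;> rw [t.1]
      exacts [m.oc d, fun p => g.2.1 (P.sym _ _ p)]
    · exact card_eq_zero.2 (eq_empty_of_forall_notMem fun v hv => g (key v hv).1)
  rw [← e1, ← e2, e, nq]

/-- Parity of a level. -/
lemma par (h0 : 3 ≤ l) (h1 : l + 2 ≤ k) :
    (cA Q X l : ℤ) % 2 = 0 ↔ (P.LoP Q X l ↔ P.Ty Q 0 c l) := by
  have a := m.nqP d h0 h1
  have := m.fl.nq_par m.cx l
  by_cases g : P.LoP Q X l <;> by_cases g' : P.Ty Q 0 c l <;> simp only [g, g', if_true, if_false,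
    iff_true, iff_false, not_true, not_false_iff] at a ⊢ <;> omega

lemma parL (h0 : 3 ≤ l) (h1 : l + 2 ≤ k) (nA : ¬ P.Ty Q 0 c l) :
    P.LoP Q X l ↔ (cA Q X l : ℤ) % 2 = 1 := by
  have := m.par d h0 h1
  simp only [nA, iff_false] at this
  rw [← not_iff_not, ← this]
  omega

lemma lo4 : P.LoP Q X 4 := by
  have hk := d.sz.big
  rw [m.parL d (by omega) (by omega) (m.cA5 d (by omega) le_rfl)]
  have a := m.cup d (l := 4) (by omega) (by omega)
  have b := (m.tf d (l := 4) (by omega) (by omega)).1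
  by_contra g
  obtain ⟨n, n1, n2, e⟩ := m.tw d (l := 4) (by omega) (by omega) (by omega) h
    (Or.inl ⟨m.sp.hq, (m.xh d).le, (m.wh d).symm⟩)
  obtain ⟨n', n1', n2', e'⟩ := (m.tf d (l := 4) (by omega) (by omega)).2 (by omega) h
    (Or.inl ⟨m.sp.hq, (m.xh d).le, m.sp.pq.symm⟩)
  have xh := m.xh d
  have := (m.fl.side m.cx m.yb.1 m.sp.hq e).not.1 (by have := m.xw d; omega)
  have := (m.fl.side m.cx m.sp.hp m.sp.hq e').not.1 (by have := m.xf d; omega)
  refine m.wf d ?_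
  rw [← m.fl.it m.yb.1 m.sp.hq e, ← m.fl.it m.sp.hp m.sp.hq e', show n = n' by omega]

lemma cb3 : P.Ty Q 1 c 3 := by
  have hk := d.sz.big
  obtain ⟨v, hv, -, pv⟩ := m.lo4 d
  exact ((m.cen d (m.oc d)).has (l := 4) (by omega) (by omega)
    (m.pall hv (by omega) (by omega) pv (m.oc d))).resolve_left (m.cA5 d (by omega) le_rfl)

lemma cA6 (h0 : -1 ≤ n) (h1 : n ≤ 5) : ¬ P.Ty Q 0 c n := fun a => by
  by_cases g : n ≤ 4
  · exact m.cA5 d h0 g a
  · have := m.fl.jump' (m.cb3 d) a (by omega); omega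

lemma h5 : ¬ Fe h (P.it h 5) := fun p => by
  have hk := d.sz.big
  have xh := m.xh d
  have g := (m.parL d (l := 5) (by omega) (by omega) (m.cA6 d (by omega) le_rfl)).1 ⟨h, m.sp.hq, by omega, p⟩
  have a := m.cup d (l := 5) (by omega) (by omega)
  obtain ⟨n, n1, n2, e⟩ := m.tw d (l := 5) (by omega) (by omega) (by omega) h
    (Or.inl ⟨m.sp.hq, by omega, (m.wh d).symm⟩)
  obtain ⟨n', n1', n2', e'⟩ := (m.tf d (l := 5) (by omega) (by omega)).2 (by omega) h
    (Or.inl ⟨m.sp.hq, by omega, m.sp.pq.symm⟩)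
  have := (m.fl.side m.cx m.yb.1 m.sp.hq e).not.1 (by have := m.xw d; omega)
  have := (m.fl.side m.cx m.sp.hp m.sp.hq e').not.1 (by have := m.xf d; omega)
  have b := m.fl.it m.yb.1 m.sp.hq e
  have b' := m.fl.it m.sp.hp m.sp.hq e'
  have : n ≠ 5 := fun t => m.fl.cl h m.sp.hq _ m.yb.1 (by rw [← b, t]; exact p)
  have : n' ≠ 5 := fun t => m.fl.cl h m.sp.hq _ m.sp.hp (by rw [← b', t]; exact p)
  refine m.wf d ?_
  rw [← b, ← b', show n = n' by omega]

/-- Below a port of `f` no level has few vertices. -/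
lemma noG {j : ℤ} (p : Fe f (P.it f j)) (h0 : 3 ≤ l) (h1 : l < j) (h2 : j + 2 ≤ k) :
    (cA Q X l : ℤ) + 1 = l := by
  have a := m.cup d h0 (by omega)
  have : ¬ (cA Q X l : ℤ) + 2 ≤ l := fun g => by
    obtain ⟨n, n1, n2, e⟩ := (m.tf d (by omega) (by omega)).2 g (P.it f j)
      (Or.inr fun o => m.fl.cl f m.sp.hp _ o p)
    have := P.uniq e (by omega) (by omega)
    omega
  omega

lemma xty (h0 : 0 ≤ n) (h1 : n + 3 ≤ k) (e : P.it x n ≠ f) : P.Ty Q 1 x n := by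
  rcases m.tri0 d m.sp.fx n h0 (by omega) with g | g | g
  exacts [absurd g (m.xB n h0 h1), g, absurd g e]

lemma alt (h0 : 4 ≤ l) (h1 : l + 2 ≤ k) (B : ∀ n, l - 1 ≤ n → n + 3 ≤ k → P.Ty Q 1 x n)
    (g : l ≤ cA Q X (l + 1)) : (cA Q X l : ℤ) + 2 ≤ l := by
  have := d.sz.cardQ
  have key : ∀ z, z ∉ Q → (∀ n, l - 1 ≤ n → n + 3 ≤ k → P.Ty Q 1 z n) →
      P.it z (l - 1) ∈ Q ∧ X (P.it z (l - 1)) = l + 1 ∧ P.it (P.it z (l - 1)) l = z := fun z hz B => by
    have b := B (l - 1) le_rfl (by omega)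
    have t := (m.cen d hz).tB b (by omega)
    rw [sub_add_cancel] at t
    refine ⟨b.1, ?_, t.1⟩
    by_contra e
    obtain ⟨n, n1, n2, e⟩ := ((m.cen d hz).run (l := l) (by omega) h1
      fun n a b => B n (by omega) b).2 (by omega) _ b.1 (by omega)
    have := P.uniq e (by omega) (by omega)
    omega
  have a := key x d.o0 B
  have b := key y (m.oy d) fun n a b => m.yB n (by omega) b
  have := cA_two a.1 b.1 (fun e => (m.nes d).1 (by rw [← a.2.2, e, b.2.2])) a.2.1 b.2.1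
  have := m.cup d (l := l + 1) (by omega) (by omega)
  omega

/-- Above the label of the port of `x` the number of entered vertices is even. -/
lemma above {a : ℤ} (a0 : 3 ≤ a) (e : P.it x a = f) (h0 : a + 1 < l) (h1 : l + 1 ≤ k) :
    (cA Q X l : ℤ) % 2 = 0 := by
  have ek := Nat.even_iff.1 d.sz.even
  have cq := d.sz.cardQ
  have key : ∀ s : ℕ, ∀ l : ℤ, k - 1 - l ≤ s → a + 1 < l → l + 1 ≤ k → (cA Q X l : ℤ) % 2 = 0 := by
    intro s
    induction s with
    | zero =>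
      intro l b _ _
      have : cA Q X l = Q.card :=
        congrArg card (filter_eq_self.2 fun w hw => by have := m.hi w hw; omega)
      omega
    | succ s ih =>
      intro l b b1 b2
      by_cases t : l + 1 = k
      · have : cA Q X l = Q.card :=
          congrArg card (filter_eq_self.2 fun w hw => by have := m.hi w hw; omega)
        omega
      have i := ih (l + 1) (by omega) (by omega) (by omega)
      have c1 := m.cup d (l := l) (by omega) (by omega)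
      have c2 := m.cup d (l := l + 1) (by omega) (by omega)
      have c3 := (m.tf d (l := l) (by omega) (by omega)).1
      have c4 := (m.tf d (l := l + 1) (by omega) (by omega)).1
      have c5 := m.isoG d (l := l) (by omega) (by omega)
      have c6 := m.alt d (l := l) (by omega) (by omega) fun n a b => m.xty d (by omega) b fun g => by
        have := P.uniq (g.trans e.symm) (by omega) (by omega); omega
      omega
  exact key _ l (Int.self_le_toNat _) (by omega) (by omega)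

/-- No port of `Q` has the label of the port of `x`. -/
lemma nopa {a : ℤ} (a0 : 0 ≤ a) (a1 : a + 3 ≤ k) (e : P.it x a = f) (hw : w ∈ Q) :
    ¬ Fe w (P.it w (a + 1)) := fun p => by
  by_cases g : a = 0
  · exact m.mc1 d (m.pall hw (by omega) (by omega) (by rwa [g] at p) (m.oc d))
  have := m.hasB d d.o0 (m.nes d).2.1 (Or.inl (m.nes d).1) (by omega) (by omega)
    (m.pall hw (by omega) (by omega) p d.o0)
  refine this.2.1 ?_
  rw [add_sub_cancel_right, e]
  exact P.sym _ _ ((m.sp.fx f).2 rfl)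

lemma cin (h0 : 1 ≤ n) (h1 : n + 3 ≤ k) (p : ¬ Fe c (P.it c n)) :
    P.Ty Q 0 c n ∨ P.Ty Q 1 c n := by
  refine (m.cen d (m.oc d)).ty (by omega) (by omega) ?_ p
  rcases m.nm with ⟨-, rfl⟩ | ⟨rfl, -⟩
  · exact m.in2 d h0 (by omega)
  by_contra a
  rcases (d.out _).1 a with e | e | e
  · have := P.uniq (e.trans (m.j1 d).symm) (by omega) (by omega); omega
  · exact P.ne _ _ e
  · have := P.uniq (e.trans (m.e3' d).symm) (by omega) (by omega); omega

/-- The label `k - 2` does not carry three high edges. -/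
lemma top2 (g : P.it x (k - 3) ≠ f) : ¬ P.Ty Q 1 c (k - 3) := fun e => by
  have hk := d.sz.big
  have cq := d.sz.cardQ
  have a := m.xty d (n := k - 3) (by omega) (by omega) g
  have b := m.yB (k - 3) (by omega) (by omega)
  have a' := (m.cen d d.o0).tB a (by omega)
  have b' := (m.cen d (m.oy d)).tB b (by omega)
  have e' := (m.cen d (m.oc d)).tB e (by omega)
  have := m.hi _ a.1
  have := m.hi _ b.1
  have := m.hi _ e.1
  have := cA_three (X := X) (l := k - 2) a.1 b.1 e.1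
    (fun t => (m.nes d).1 (by rw [← a'.1, t, b'.1])) (fun t => (m.nes d).2.1 (by rw [← a'.1, t, e'.1]))
    (fun t => (m.nes d).2.2 (by rw [← b'.1, t, e'.1])) (by omega) (by omega) (by omega)
  have := m.cup d (l := k - 2 + 1) (by omega) (by omega)
  have := (m.tf d (l := k - 2) (by omega) (by omega)).1
  omega

end W4

end PM

end Pool.Agent.P.MP_3f5ded_co.UG
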