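import Pool.Agent.P.MP_3f5ded_co.EU1
import Pool.Agent.P.MP_3f5ded_co.EU4

set_option autoImplicit false

namespace Pool.Agent.P.MP_3f5ded_co.UG

open Finset

namespace PM
variable {W : Type} {k : ℕ} {r : ℝ} {Fe : W → W → Prop} {P : PM W k r Fe} {Q : Finset W}
  {X Y : W → ℤ} {x y c f h z1 z2 u w z : W} {a n n' l : ℤ}

open Classical in
/-- The low cut for the first `t` vertices. -/
theorem Fl.cut_low (fl : P.Fl Q) (cut : P.Cut X) {t : ℕ} (ht : 3 ≤ t) (hk : 2 * t ≤ k)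
    (hA : ∀ l : ℤ, 3 ≤ l → l ≤ 2 * t → l ≤ cA Q X l + 2 ∧ cA Q X l + 1 ≤ l)
    (h2 : ∀ l : ℤ, 3 ≤ l → l ≤ 2 * t → P.nq Q Q X l ≤ 2) :
    ((Icc ((t : ℤ) + 2) (2 * t)).filter fun l => Even l ∧ P.nq Q Q X l = 0).card ≤
      ((Icc (3 : ℤ) (t + 1)).filter fun l => Odd l ∧ P.nq Q Q X l = 1).card +
        ((Icc (3 : ℤ) (2 * t)).filter fun l => P.nq Q Q X l = 2).card := by
  have a1 := hA (t + 1) (by omega) (by omega)
  have a2 := hA (t + 1 + 1) (by omega) (by omega)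
  have c := fl.cut_lev cut (t := t) (m := t + 1) (a := 3) (b := 2 * t + 1) (by omega) (by omega)
    (by omega)
  have key : ∀ l ∈ Ico (3 : ℤ) (2 * t + 1),
      (if l ≤ t + 1 then 2 * ((l - 1) / 2) else 2 * t - 2 * (l / 2)) +
        2 * (if (t + 2 ≤ l ∧ l ≤ 2 * t) ∧ Even l ∧ P.nq Q Q X l = 0 then 1 else 0) ≤
      (if l ≤ t + 1 then (cA Q X l : ℤ) - P.nq Q Q X l else 2 * t - cA Q X l - P.nq Q Q X l +
        2 * P.nq Q (Q.filter fun w => (t : ℤ) + 1 + 1 < X w) X l) +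
        2 * (if (3 ≤ l ∧ l ≤ t + 1) ∧ Odd l ∧ P.nq Q Q X l = 1 then 1 else 0) +
        2 * (if (3 ≤ l ∧ l ≤ 2 * t) ∧ P.nq Q Q X l = 2 then 1 else 0) := fun l hl => by
    rw [mem_Ico] at hl
    have p := fl.nq_par cut l
    have b1 := hA l hl.1 (by omega)
    have b2 := h2 l hl.1 (by omega)
    simp only [Int.even_iff, Int.odd_iff]
    split_ifs <;> omega
  have s := sum_le_sum key
  simp only [sum_add_distrib, ← mul_sum, sum_boole] at s
  have base : ∑ l ∈ Ico (3 : ℤ) (2 * t + 1), (if l ≤ t + 1 then 2 * ((l - 1) / 2) else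
      2 * t - 2 * (l / 2) : ℤ) = t * (t - 1) := by
    have := tele (fun l => if l ≤ t + 2 then (l - 2) * (l - 2) - l % 2 else
      2 * (t * (t - 1)) - (2 * t + 1 - l) * (2 * t + 1 - l) + (l + 1) % 2)
      (fun l => 2 * if l ≤ t + 1 then 2 * ((l - 1) / 2) else 2 * t - 2 * (l / 2))
      (a := 3) (b := 2 * t + 1) (by omega) fun l a b => by
      have e1 : (l + 1 - 2) * (l + 1 - 2) = (l - 2) * (l - 2) + 2 * l - 3 := by ring
      have e2 : (2 * t + 1 - l) * (2 * t + 1 - l) =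
        (2 * t + 1 - (l + 1)) * (2 * t + 1 - (l + 1)) + 4 * t - 2 * l + 1 := by ring
      have e6 : l = t + 2 → (l - 2) * (l - 2) + (2 * t + 1 - l) * (2 * t + 1 - l) =
        2 * (t * (t - 1)) + 1 := fun g => by rw [g]; ring
      split_ifs <;> omega
    rw [← mul_sum, if_neg (by omega), if_pos (by omega), sub_self] at this
    omega
  have f1 : ∀ (a b : ℤ) (g : ℤ → Prop) [DecidablePred g], 3 ≤ a → b ≤ 2 * t →
      ((Ico (3 : ℤ) (2 * t + 1)).filter fun l => (a ≤ l ∧ l ≤ b) ∧ g l) = (Icc a b).filter g :=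
    fun a b g _ x y => by
      ext l
      simp only [mem_filter, mem_Ico, mem_Icc]
      exact ⟨fun h => h.2, fun h => ⟨by omega, h⟩⟩
  rw [base, f1 _ _ _ (by omega) (by omega), f1 _ _ _ (by omega) (by omega),
    f1 _ _ _ (by omega) (by omega)] at s
  omega

variable [Fintype W] {Pt : Finset (W × W)}

namespace W4
variable (m : P.W4 Q x y c f h z1 z2 u Y X) (d : D1 k Fe Q Pt x z1 z2)
include m d

lemma toIV : ∃ a, P.IV Q x y c f h z1 z2 u Y X a 3 := by
  have hk := d.sz.big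
  have fp : Fe x f := P.sym _ _ ((m.sp.fx f).2 rfl)
  obtain ⟨j, j1, j2, e⟩ := P.win (x := x) (y := f) (fun e => d.o0 (e ▸ m.sp.hp)) (-2)
  have a1 : j ≠ -2 := fun t => d.e01 (by rw [← m.i1, ← t, e]; exact fp)
  have a2 : j ≠ -1 := fun t => d.e02 (by rw [← m.i2, ← t, e]; exact fp)
  have a3 : j ≠ 0 := fun t => (m.hasB d d.o0 (m.nes d).2.1 (Or.inl (m.nes d).1) (l := 1) (by omega)
    (by omega) (has_of_one (m.one 1 le_rfl (by omega)) (m.oc d) d.o0 (m.nes d).2.1.symm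
      (m.mc1 d))).2.1 (by rw [sub_self, ← t, e]; exact fp)
  have s : P.Sh3 Q y 3 := ⟨by omega, by omega, fun n a b => by
      rcases (show n = 1 ∨ n = 2 by omega) with rfl | rfl
      exacts [m.ya.1, m.yb], m.yB, m.my3 d,
    fun g => by have := (m.noA d (m.oy d) (m.nes d).2.2 (by omega) (by omega) g).2; omega,
    fun g => by have := (m.idx d (m.oy d) (by omega) (by omega) g).2 (m.nes d).1.symm; omega⟩
  refine ⟨j + 1, ⟨⟨m.toC0, m.pos⟩, m.sp, ?_, by omega, by omega, by rwa [add_sub_cancel_right],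
    fun n n1 n2 n3 => m.xty d n1 n2 fun g => ?_, Or.inl s⟩, s⟩
  · rcases m.nm with ⟨rfl, rfl⟩ | ⟨rfl, rfl⟩
    exacts [Or.inl ⟨rfl, rfl⟩, Or.inr ⟨rfl, rfl⟩]
  · have := P.uniq (g.trans e.symm) (by omega) (by omega); omega

/-- From a high edge of `c` to a later low edge there are six steps. -/
theorem jump6 (B : P.Ty Q 1 c n) (A : P.Ty Q 0 c n') (h0 : 1 ≤ n) (h1 : n < n') (h2 : n' + 2 ≤ k) :
    n + 6 ≤ n' := by
  obtain ⟨a, g⟩ := m.toIV d
  exact g.jump d B A h0 h1 h2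

lemma cA9 (h0 : -1 ≤ n) (h1 : n ≤ 8) : ¬ P.Ty Q 0 c n := fun a => by
  have := d.sz.big
  by_cases g : n ≤ 4
  · exact m.cA5 d h0 g a
  · have := m.jump6 d (m.cb3 d) a (by omega) (by omega) (by omega); omega

lemma nopc (hw : w ∈ Q) (g : ¬ Fe c w) (n : ℤ) : ¬ Fe w (P.it w n) := by
  obtain ⟨a, t⟩ := m.toIV d
  exact t.nop d hw g n

/-- A label that all three centres have carries a port. -/
lemma hasp (hx : P.Has Q x l) (hy : P.Has Q y l) (hc : P.Has Q c l) : ∃ w ∈ Q, Fe w (P.it w l) := by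
  classical
  have o := (m.fl.odd d.sz l).pos
  unfold dfc at o
  rw [card_eq_zero.2 (filter_eq_empty_iff.2 fun s hs g => by
    rcases (m.out d s).1 (mem_compl.1 hs) with rfl | rfl | rfl
    exacts [g hx, g hy, g hc]), zero_add] at o
  obtain ⟨w, hw⟩ := card_pos.1 o
  exact ⟨w, mem_filter.1 hw⟩

lemma c4 : cA Q X 4 = 3 := by
  have hk := d.sz.big
  have := (m.parL d (l := 4) (by omega) (by omega) (m.cA5 d (by omega) le_rfl)).1 (m.lo4 d)
  have := m.cup d (l := 4) (by omega) (by omega)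
  have := (m.tf d (l := 4) (by omega) (by omega)).1
  omega

/-- Two levels with few vertices at distance two. -/
lemma gg (h0 : 3 ≤ l) (h1 : l + 4 ≤ k) (g : (cA Q X l : ℤ) + 2 ≤ l)
    (g' : (cA Q X (l + 2) : ℤ) + 2 ≤ l + 2) : P.it (P.it f (l + 1)) (l + 2) = P.it y 2 ∧
      P.it (P.it (P.it y 2) (l + 1)) (l + 2) = f := by
  obtain ⟨⟨a1, a2⟩, ⟨b1, b2⟩, e⟩ := m.ent d (by omega) (by omega) g
  have xw := (m.xw d).1
  have xf := (m.xf d).1
  constructor
  · obtain ⟨n, n1, n2, t⟩ := m.tw d (l := l + 2) (by omega) (by omega) g' _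
      (Or.inl ⟨a1, by omega, fun t => by rw [t] at a2; omega⟩)
    have := (m.fl.side m.cx m.yb.1 a1 t).not.1 (by omega)
    have : n ≠ l + 1 := fun z => e (by rw [← t, z])
    rw [← m.fl.it m.yb.1 a1 t, show n = l + 2 by omega]
  · obtain ⟨n, n1, n2, t⟩ := (m.tf d (l := l + 2) (by omega) (by omega)).2 g' _
      (Or.inl ⟨b1, by omega, fun t => by rw [t] at b2; omega⟩)
    have := (m.fl.side m.cx m.sp.hp b1 t).not.1 (by omega)
    have : n ≠ l + 1 := fun z => e (by rw [← t, z])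
    rw [← m.fl.it m.sp.hp b1 t, show n = l + 2 by omega]

lemma hport (h0 : 6 ≤ l) (h1 : l ≤ 7) (g : (cA Q X 5 : ℤ) + 2 ≤ 5) (g' : cA Q X l ≤ 5)
    (e1 : P.it (P.it f 6) l ≠ h) (e2 : P.it (P.it (P.it y 2) 6) l ≠ h) : Fe h (P.it h l) := by
  classical
  have hk := d.sz.big
  have xh := m.xh d
  have xw := (m.xw d).1
  have xf := (m.xf d).1
  obtain ⟨⟨a1, a2⟩, ⟨b1, b2⟩, e⟩ := m.ent d (l := 5) (by omega) (by omega) g
  by_contra p
  by_cases o : P.it h l ∈ Q
  swap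
  · rcases m.lowit d m.sp.hq (by omega) (by omega) o p with t | t
    · omega
    · exact p (t.1 ▸ m.sp.fq)
  have le := (m.fl.ent m.cx m.sp.hq o).2 (by omega)
  have back := m.fl.it m.sp.hq o rfl
  have n1 : P.it h l ≠ f := fun z => by
    obtain ⟨n, _, _, t⟩ := (m.tf d (l := 5) (by omega) (by omega)).2 g h
      (Or.inl ⟨m.sp.hq, by omega, m.sp.pq.symm⟩)
    have := P.uniq (t.trans (z ▸ back).symm) (by omega) (by omega); omega
  have n2 : P.it h l ≠ P.it y 2 := fun z => by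
    obtain ⟨n, _, _, t⟩ := m.tw d (l := 5) (by omega) (by omega) g h
      (Or.inl ⟨m.sp.hq, by omega, (m.wh d).symm⟩)
    have := P.uniq (t.trans (z ▸ back).symm) (by omega) (by omega); omega
  have := m.five_le d o n1 n2 (P.ne h l)
  have := cA_ins (Q := Q) (X := X) (l := 4) (i := l)
    {P.it h l, P.it f (5 + 1), P.it (P.it y 2) (5 + 1)} (by omega) fun v hv => by
      simp only [mem_insert, mem_singleton] at hv
      rcases hv with rfl | rfl | rfl
      exacts [⟨o, by omega, by omega⟩, ⟨a1, by omega, by omega⟩, ⟨b1, by omega, by omega⟩]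
  have f1 : P.it h l ≠ P.it f (5 + 1) := fun z => e1 (by rw [z] at back; exact back)
  have f2 : P.it h l ≠ P.it (P.it y 2) (5 + 1) := fun z => e2 (by rw [z] at back; exact back)
  rw [card_eq_three.2 ⟨_, _, _, f1, f2, e, rfl⟩, m.c4 d] at this
  omega

/-- The owner of the ports at the levels six and seven. -/
lemma h6 (g : (cA Q X 5 : ℤ) + 2 ≤ 5) : Fe h (P.it h 6) := by
  have hk := d.sz.big
  obtain ⟨⟨a1, -⟩, ⟨b1, -⟩, -⟩ := m.ent d (l := 5) (by omega) (by omega) g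
  have := m.cup d (l := 6) (by omega) (by omega)
  exact m.hport d le_rfl (by omega) g (by omega)
    (fun z => m.sp.pq ((m.fl.it m.sp.hp a1 rfl).symm.trans z))
    fun z => m.wh d ((m.fl.it m.yb.1 b1 rfl).symm.trans z)

lemma h7 (g : (cA Q X 5 : ℤ) + 2 ≤ 5) (g' : (cA Q X 7 : ℤ) + 2 ≤ 7) : Fe h (P.it h 7) := by
  have hk := d.sz.big
  obtain ⟨a, b⟩ := m.gg d (l := 5) (by omega) (by omega) g g'
  exact m.hport d (by omega) le_rfl g (by omega) (fun z => m.wh d (a.symm.trans z))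
    fun z => m.sp.pq (b.symm.trans z)

/-- The last four vertices. -/
lemma four' (a0 : 3 ≤ a) (a1 : a + 5 ≤ k) (e : P.it x a = f) (g : (cA Q X (k - 4) : ℤ) + 2 ≤ k - 4)
    (hl : l = k - 5 ∨ l = k - 4) : (cA Q X l : ℤ) = k - 6 ∧ (l ≠ a + 1 → ∀ w ∈ Q, l < X w →
      P.it w l ≠ x → P.it w l ≠ y → w = P.it x (k - 3) ∨ w = P.it x (k - 4)) ∧
      ∀ w, w = P.it x (k - 3) ∨ w = P.it x (k - 4) → w ∈ Q ∧ l < X w ∧ P.it w l ≠ x ∧ P.it w l ≠ y := by
  classical
  have hk := d.sz.big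
  have cq := d.sz.cardQ
  have xB : ∀ n : ℤ, 0 ≤ n → n + 3 ≤ k → n ≠ a → P.Ty Q 1 x n := fun n b b' t => m.xty d b b' fun g => by
    have := P.uniq (g.trans e.symm) (by omega) (by omega); omega
  have c1 := m.cup d (l := k - 5) (by omega) (by omega)
  have c2 := m.isoG d (l := k - 5) (by omega) (by omega)
  have c3 := (m.tf d (l := k - 4) (by omega) (by omega)).1
  have c4 := m.isoG d (l := k - 4) (by omega) (by omega) g
  have c5 := m.cup d (l := k - 4 + 1) (by omega) (by omega)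
  rw [show (k : ℤ) - 5 + 1 = k - 4 by ring] at c2
  have cl : (cA Q X l : ℤ) = k - 6 := by rcases hl with rfl | rfl <;> omega
  have u : ∀ w, w = P.it x (k - 3) ∨ w = P.it x (k - 4) →
      w ∈ Q ∧ l < X w ∧ P.it w l ≠ x ∧ P.it w l ≠ y := fun w hw => by
    obtain ⟨n, n1, n2, rfl⟩ : ∃ n : ℤ, k - 4 ≤ n ∧ n ≤ k - 3 ∧ w = P.it x n := by
      rcases hw with t | t
      exacts [⟨_, by omega, le_rfl, t⟩, ⟨_, le_rfl, by omega, t⟩]
    have B := xB n (by omega) (by omega) (by omega)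
    have t := (m.cen d d.o0).tB B (by omega)
    obtain ⟨j, j1, j2, s⟩ := ((m.cen d (m.oy d)).run (l := k - 4) (by omega) (by omega)
      fun n a b => m.yB n (by omega) b).2 (by omega) _ B.1 (by omega)
    have t' := ((m.cen d (m.oy d)).tB (m.yB j (by omega) j2) (by omega)).1
    rw [s] at t'
    exact ⟨B.1, by omega, fun z => by have := P.uniq (z.trans t.1.symm) (by omega) (by omega); omega,
      fun z => by have := P.uniq (z.trans t'.symm) (by omega) (by omega); omega⟩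
  refine ⟨cl, fun la w hw xw n1 n2 => ?_, u⟩
  by_contra z
  push Not at z
  have B := xB (l - 1) (by omega) (by omega) (by omega)
  have B' := m.yB (l - 1) (by omega) (by omega)
  have t := (m.cen d d.o0).tB B (by omega)
  have t' := (m.cen d (m.oy d)).tB B' (by omega)
  rw [sub_add_cancel] at t t'
  obtain ⟨p1, p2, p3, p4⟩ := u _ (Or.inl rfl)
  obtain ⟨q1, q2, q3, q4⟩ := u _ (Or.inr rfl)
  have e0 : P.it x (k - 3) ≠ P.it x (k - 4) := fun z => by
    have := P.uniq z (by omega) (by omega); omega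
  have kx : ∀ {s : W}, P.it s l ≠ x → s ≠ P.it x (l - 1) := fun g z => g (by rw [z, t.1])
  have ky : ∀ {s : W}, P.it s l ≠ y → s ≠ P.it y (l - 1) := fun g z => g (by rw [z, t'.1])
  have := cA_ins (Q := Q) (X := X) (l := l) (i := k)
    {w, P.it x (k - 3), P.it x (k - 4), P.it x (l - 1), P.it y (l - 1)} (by omega) fun v hv => by
      simp only [mem_insert, mem_singleton] at hv
      have : v ∈ Q ∧ l < X v := by
        rcases hv with rfl | rfl | rfl | rfl | rfl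
        exacts [⟨hw, xw⟩, ⟨p1, p2⟩, ⟨q1, q2⟩, ⟨B.1, t.2⟩, ⟨B'.1, t'.2⟩]
      exact ⟨this.1, this.2, (m.hi v this.1).le⟩
  rw [card_insert_of_notMem (by simp [z.1, z.2, kx n1, ky n2]),
    card_insert_of_notMem (by simp [e0, kx p3, ky p4]),
    card_eq_three.2 ⟨_, _, _, kx q3, ky q4, ky (by rw [t.1]; exact (m.nes d).1), rfl⟩] at this
  have := cA_add Q X k
  omega

/-- The centre `c` has a high edge near the top. -/
theorem top5a (a0 : 3 ≤ a) (a1 : a + 5 ≤ k) (e : P.it x a = f) (g : (cA Q X (k - 4) : ℤ) + 2 ≤ k - 4) :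
    P.Ty Q 1 c (k - 5) ∨ P.Ty Q 1 c (k - 6) := by
  have hk := d.sz.big
  have ek := Nat.even_iff.1 d.sz.even
  have key : ∀ l : ℤ, l = k - 5 ∨ l = k - 4 → ¬ P.Ty Q 1 c (l - 1) →
      P.it (P.it x (k - 3)) l = P.it x (k - 4) := fun l hl nB => by
    obtain ⟨cl, t, u⟩ := m.four' d a0 a1 e g hl
    have par := (m.par d (l := l) (by omega) (by omega)).1 (by omega)
    have A : P.Has Q c l → P.Ty Q 0 c l := fun t =>
      ((m.cen d (m.oc d)).has (by omega) (by omega) t).resolve_right nB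
    have lo : ∀ w ∈ Q, l < X w → ¬ Fe w (P.it w l) ∧ P.it w l ≠ c := fun w hw xw => by
      have p : ¬ Fe w (P.it w l) := fun p => by
        obtain ⟨v, hv, xv, p'⟩ := par.2 (A (m.pall hw (by omega) (by omega) p (m.oc d)))
        rw [m.pone hw hv (by omega) (by omega) p p'] at xw; omega
      refine ⟨p, fun z => ?_⟩
      have a := A ⟨w, hw, z ▸ p, z⟩
      have s := (m.cen d (m.oc d)).tA a (by omega)
      rw [m.fl.lab_inj a.1 hw (fun t => a.2.1 (P.sym _ _ t)) (z ▸ p) s.1 z] at s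
      omega
    have la : l ≠ a + 1 := fun z => by
      have hc : P.Has Q c l := has_of_one (m.one l (by omega) (by omega)) d.o0 (m.oc d) (m.nes d).2.1
        fun s => (m.hasB d d.o0 (m.nes d).2.1 (Or.inl (m.nes d).1) (by omega) (by omega) s).2.1 (by
          rw [z, add_sub_cancel_right, e]; exact P.sym _ _ ((m.sp.fx f).2 rfl))
      obtain ⟨v, hv, -, p⟩ := par.2 (A hc)
      exact m.nopa d (by omega) (by omega) e hv (z ▸ p)
    obtain ⟨p1, p2, p3, p4⟩ := u _ (Or.inl rfl)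
    have o : P.it (P.it x (k - 3)) l ∈ Q := by
      by_contra o
      rcases (m.out d _).1 o with z | z | z
      exacts [p3 z, p4 z, (lo _ p1 p2).2 z]
    have back := m.fl.it p1 o rfl
    exact (t la _ o ((m.fl.side m.cx p1 o rfl).1 p2) (fun z => d.o0 (by rw [← z, back]; exact p1))
      fun z => m.oy d (by rw [← z, back]; exact p1)).resolve_left (P.ne _ l)
  by_contra t
  push Not at t
  have := P.uniq ((key _ (Or.inl rfl) (by rw [show (k : ℤ) - 5 - 1 = k - 6 by ring]; exact t.2)).trans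
    (key _ (Or.inr rfl) (by rw [show (k : ℤ) - 4 - 1 = k - 5 by ring]; exact t.1)).symm)
    (by omega) (by omega)
  omega

theorem top5b (a0 : 3 ≤ a) (a1 : a + 7 ≤ k) (e : P.it x a = f) (B : P.Ty Q 1 c (k - 5))
    (B' : P.Ty Q 1 c (k - 6)) : False := by
  have hk := d.sz.big
  have ek := Nat.even_iff.1 d.sz.even
  have g : (cA Q X (k - 4) : ℤ) + 2 ≤ k - 4 := by
    have := m.above d a0 e (l := k - 4) (by omega) (by omega)
    have := m.cup d (l := k - 4) (by omega) (by omega)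
    omega
  have key : ∀ l : ℤ, l = k - 5 ∨ l = k - 4 → P.Ty Q 1 c (l - 1) →
      (P.it c (l - 1) = P.it x (k - 3) ∨ P.it c (l - 1) = P.it x (k - 4)) ∧
        ∃ w ∈ Q, (w = P.it x (k - 3) ∨ w = P.it x (k - 4)) ∧ Fe c w := fun l hl B => by
    obtain ⟨cl, t, -⟩ := m.four' d a0 (by omega) e g hl
    have s := (m.cen d (m.oc d)).tB B (by omega)
    have hx := (m.cen d d.o0).hasB (m.xty d (n := l - 1) (by omega) (by omega) fun g => by
      have := P.uniq (g.trans e.symm) (by omega) (by omega); omega)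
    have hy := (m.cen d (m.oy d)).hasB (m.yB (l - 1) (by omega) (by omega))
    have hc := (m.cen d (m.oc d)).hasB B
    rw [sub_add_cancel] at s hx hy hc
    obtain ⟨w, hw, p⟩ := m.hasp d hx hy hc
    have fc : Fe c w := by_contra fun z => m.nopc d hw z l p
    have xw : l < X w := by
      by_contra z
      have A := ((m.par d (l := l) (by omega) (by omega)).1 (by omega)).1 ⟨w, hw, by omega, p⟩
      have := m.fl.jump' B A (by omega)
      omega
    refine ⟨t (by omega) _ B.1 s.2 (s.1.symm ▸ (m.nes d).2.1.symm) (s.1.symm ▸ (m.nes d).2.2.symm),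
      w, hw, t (by omega) w hw xw (fun z => ?_) fun z => ?_, fc⟩
    · rw [(m.sp.fx w).1 (z ▸ p), (m.xf d).1] at xw; omega
    · rw [(m.sp.fy w).1 (z ▸ p), m.xh d] at xw; omega
  obtain ⟨s1, w, -, s2, s3⟩ := key _ (Or.inl rfl) (by rwa [show (k : ℤ) - 5 - 1 = k - 6 by ring])
  obtain ⟨t1, -⟩ := key _ (Or.inr rfl) (by rwa [show (k : ℤ) - 4 - 1 = k - 5 by ring])
  rw [show (k : ℤ) - 5 - 1 = k - 6 by ring] at s1
  rw [show (k : ℤ) - 4 - 1 = k - 5 by ring] at t1
  have n0 : P.it c (k - 6) ≠ P.it c (k - 5) := fun z => by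
    have := P.uniq z (by omega) (by omega); omega
  have n1 : w ≠ P.it c (k - 6) := fun z => B'.2.1 (z ▸ s3)
  have n2 : w ≠ P.it c (k - 5) := fun z => B.2.1 (z ▸ s3)
  rcases s1 with s1 | s1 <;> rcases t1 with t1 | t1 <;> rcases s2 with s2 | s2 <;>
    first | exact n0 (s1.trans t1.symm) | exact n1 (s2.trans s1.symm) | exact n2 (s2.trans t1.symm)

/-- No low edge of `c` near the top. -/
theorem t3 (a0 : 3 ≤ a) (a1 : a + 6 ≤ k) (e : P.it x a = f) (h0 : (k : ℤ) - 5 ≤ n) (h1 : n + 2 ≤ k) :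
    ¬ P.Ty Q 0 c n := fun A => by
  have hk := d.sz.big
  have ek := Nat.even_iff.1 d.sz.even
  have := m.above d a0 e (l := k - 4) (by omega) (by omega)
  have := m.cup d (l := k - 4) (by omega) (by omega)
  rcases m.top5a d a0 (by omega) e (by omega) with B | B
  · have : n ≠ k - 5 := fun z => by have := A.ne (z ▸ B); omega
    have := m.jump6 d B A (by omega) (by omega) h1; omega
  · have := m.jump6 d B A (by omega) (by omega) h1; omega

lemma nq2 (h0 : 3 ≤ l) (h1 : l + 2 ≤ k) : P.nq Q Q X l ≤ 2 ∧ (¬ P.Ty Q 0 c l →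
    P.nq Q Q X l ≤ 1 ∧ (P.nq Q Q X l = 1 ↔ P.LoP Q X l)) := by
  rw [m.nqP d h0 h1]
  split_ifs with a b b <;> simp [a, b]

/-- Odd levels with a low port have low ports on both sides. -/
lemma iso' (o : l % 2 = 1) (h0 : 3 ≤ l) (h1 : l + 2 ≤ k)
    (nA : ∀ n, l - 1 ≤ n → n ≤ l + 1 → ¬ P.Ty Q 0 c n) (g : P.LoP Q X l) :
    5 ≤ l ∧ P.LoP Q X (l - 1) ∧ P.LoP Q X (l + 1) := by
  have ek := Nat.even_iff.1 d.sz.even
  have : l ≠ 3 := fun e => by
    obtain ⟨w, hw, -, p⟩ := g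
    exact m.my3 d (e ▸ m.pall hw (by omega) h1 p (m.oy d))
  rw [m.parL d h0 h1 (nA _ (by omega) (by omega))] at g
  rw [m.parL d (by omega) (by omega) (nA _ (by omega) (by omega)),
    m.parL d (by omega) (by omega) (nA _ (by omega) (by omega))]
  have a := m.cup d h0 (by omega)
  have b := m.isoG d (l := l) (by omega) h1 (by omega)
  have a1 := m.cup d (l := l + 1) (by omega) (by omega)
  have a2 := m.cup d (l := l - 1) (by omega) (by omega)
  have a3 := (m.tf d (l := l - 1) (by omega) (by omega)).1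
  have b2 := m.isoG d (l := l - 1) (by omega) (by omega)
  rw [sub_add_cancel] at b2
  omega

/-- Two triples of neighbouring low ports. -/
theorem oo : ∃ o o' : ℤ, 5 ≤ o ∧ o + 2 ≤ o' ∧ o' + 3 ≤ k ∧ P.LoP Q X (o - 1) ∧ P.LoP Q X o ∧
    P.LoP Q X (o + 1) ∧ P.LoP Q X (o' - 1) ∧ P.LoP Q X o' ∧ P.LoP Q X (o' + 1) := by
  classical
  have hk := d.sz.big
  have hA : ∀ l : ℤ, 3 ≤ l → l ≤ k - 2 → l ≤ cA Q X l + 2 ∧ cA Q X l + 1 ≤ l := fun l a b =>
    ⟨(m.tf d (by omega) (by omega)).1, m.cup d a (by omega)⟩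
  suffices H : ∃ t : ℤ, t + 4 ≤ k ∧ (∀ n, 2 ≤ n → n ≤ t + 2 → ¬ P.Ty Q 0 c n) ∧
      1 < ((Icc (3 : ℤ) (t + 1)).filter fun l => Odd l ∧ P.nq Q Q X l = 1).card by
    obtain ⟨t, t1, t2, t3⟩ := H
    have key : ∀ o ∈ (Icc (3 : ℤ) (t + 1)).filter fun l => Odd l ∧ P.nq Q Q X l = 1, o % 2 = 1 ∧
        o + 3 ≤ k ∧ P.LoP Q X o ∧ 5 ≤ o ∧ P.LoP Q X (o - 1) ∧ P.LoP Q X (o + 1) := fun o ho => by
      rw [mem_filter, mem_Icc, Int.odd_iff] at ho
      have g := ((m.nq2 d ho.1.1 (by omega)).2 (t2 _ (by omega) (by omega))).2.1 ho.2.2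
      exact ⟨ho.2.1, by omega, g, m.iso' d ho.2.1 ho.1.1 (by omega)
        (fun n a b => t2 n (by omega) (by omega)) g⟩
    obtain ⟨o, ho, o', ho', e⟩ := one_lt_card.1 t3
    obtain ⟨a1, a2, a3, a4, a5, a6⟩ := key o ho
    obtain ⟨b1, b2, b3, b4, b5, b6⟩ := key o' ho'
    rcases lt_or_gt_of_ne e with g | g
    exacts [⟨o, o', a4, by omega, b2, a5, a3, a6, b5, b3, b6⟩,
      ⟨o', o, b4, by omega, a2, b5, b3, b6, a5, a3, a6⟩]
  have ml : ∀ j : ℤ, j + 2 ≤ k → (∀ n, 2 ≤ n → n ≤ j → ¬ P.Ty Q 0 c n) →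
      ((Icc (3 : ℤ) j).filter fun l => P.nq Q Q X l = 2).card = 0 := fun j a b =>
    card_eq_zero.2 (filter_eq_empty_iff.2 fun l hl => by
      rw [mem_Icc] at hl
      have := ((m.nq2 d hl.1 (by omega)).2 (b _ (by omega) hl.2)).1
      omega)
  obtain ⟨a, iv⟩ := m.toIV d
  by_cases ex : ∃ n : ℤ, 2 ≤ n ∧ n + 2 ≤ k ∧ P.Ty Q 0 c n
  · obtain ⟨n, ⟨n1, n2, A⟩, mn⟩ := Int.exists_least_of_bdd
      (P := fun n => 2 ≤ n ∧ n + 2 ≤ k ∧ P.Ty Q 0 c n) ⟨2, fun n h => h.1⟩ ex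
    have nA : ∀ j, 2 ≤ j → j < n → ¬ P.Ty Q 0 c j := fun j a b g => by
      have := mn j ⟨a, by omega, g⟩; omega
    have n9 : 9 ≤ n := by_contra fun g => m.cA9 d (by omega) (by omega) A
    obtain ⟨i, i', a1, a2, a3, b1, b2, g⟩ := iv.exj d (m.cb3 d) A (by omega) (by omega) n2
    obtain rfl : i' = n := by_contra fun e => nA i' (by omega) (by omega) b2
    have := m.jump6 d b1 b2 (by omega) a2 n2
    obtain ⟨t, ht⟩ : ∃ t : ℕ, (t : ℤ) = (i' - 1) / 2 := ⟨((i' - 1) / 2).toNat, by omega⟩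
    have c := m.fl.cut_low m.cx (t := t) (by omega) (by omega) (fun l a b => hA l a (by omega))
      fun l a b => (m.nq2 d a (by omega)).1
    have gap : ∀ j, i' - 4 ≤ j → j < i' → P.nq Q Q X j = 0 := fun j a b => by
      have t := iv.gapm d (l := j) (by omega) n2 g (by omega) b
      rw [m.nqP d (by omega) (by omega), if_neg (nA j (by omega) b), if_neg fun ⟨w, hw, _, p⟩ =>
        t (m.pall hw (by omega) (by omega) p (m.oc d))]
    have := one_lt_card.2 (show ∃ a ∈ (Icc ((t : ℤ) + 2) (2 * t)).filter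
        fun l => Even l ∧ P.nq Q Q X l = 0, ∃ b ∈ (Icc ((t : ℤ) + 2) (2 * t)).filter
        fun l => Even l ∧ P.nq Q Q X l = 0, a ≠ b from
      ⟨2 * t, mem_filter.2 ⟨mem_Icc.2 ⟨by omega, le_rfl⟩, ⟨t, by ring⟩, gap _ (by omega) (by omega)⟩,
        2 * t - 2, mem_filter.2 ⟨mem_Icc.2 ⟨by omega, by omega⟩, ⟨t - 1, by ring⟩,
          gap _ (by omega) (by omega)⟩, by omega⟩)
    rw [ml _ (by omega) fun j a b => nA j a (by omega)] at c
    exact ⟨t, by omega, fun j a b => nA j a (by omega), by omega⟩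
  have nA : ∀ j : ℤ, 2 ≤ j → j + 2 ≤ k → ¬ P.Ty Q 0 c j := fun j a b g => ex ⟨j, a, b, g⟩
  obtain ⟨t, ht⟩ := d.sz.even
  have c := m.fl.cut_mid m.cx (t := t) (by omega) hk d.sz.cardQ m.hi
    (fun w hw => ⟨m.mid d hw, iv.topk d hw⟩) hA fun l a b => (m.nq2 d a (by omega)).1
  rw [ml _ (by omega) fun j a b => nA j a (by omega)] at c
  have xp := iv.xp
  have a4 : 4 ≤ a := by
    have := iv.a2
    by_contra g
    have t := fun w hw => m.nopa d (a := a - 1) (w := w) (by omega) (by omega) xp hw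
    rw [sub_add_cancel] at t
    rcases (show a = 2 ∨ a = 3 by omega) with rfl | rfl
    · exact t f m.sp.hp (m.f2 d)
    · exact (m.hasB d d.o0 (m.nes d).2.1 (Or.inl (m.nes d).1) (l := 3) (by omega) (by omega)
        (has_of_one (m.one 3 (by omega) (by omega)) (m.oy d) d.o0 (m.nes d).1.symm (m.my3 d))).2.1
        (xp ▸ P.sym _ _ ((m.sp.fx f).2 rfl))
  have := card_pos.2 (show ((Icc ((t : ℤ) + 2) (k - 2)).filter
      fun l => Even l ∧ P.nq Q Q X l = 0).Nonempty from ⟨k - 2, mem_filter.2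
    ⟨mem_Icc.2 ⟨by omega, le_rfl⟩, ⟨t - 1, by omega⟩, by
      obtain ⟨s1, s2⟩ := (m.nq2 d (l := k - 2) (by omega) (by omega)).2 (nA _ (by omega) (by omega))
      by_contra z
      have lo := s2.1 (by omega)
      by_cases e : a = k - 2
      · obtain ⟨w, hw, -, p⟩ := lo
        exact m.nopa d (a := a - 1) (by omega) (by omega) xp hw (by rwa [sub_add_cancel, e])
      · have := iv.ak
        have := m.above d (a := a - 1) (l := k - 2) (by omega) xp (by omega) (by omega)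
        rw [m.parL d (by omega) (by omega) (nA _ (by omega) (by omega))] at lo
        omega⟩⟩)
  exact ⟨t, by omega, fun j a b => nA j a (by omega), by omega⟩

end W4

end PM

end Pool.Agent.P.MP_3f5ded_co.UG
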