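import Pool.Agent.P.MP_3f5ded_co.EU4
import Pool.Agent.P.MP_3f5ded_co.EU1

set_option autoImplicit false

namespace Pool.Agent.P.MP_3f5ded_co.UG

open Finset

namespace PM
variable {W : Type} {k : ℕ} {r r' : ℝ} {Fe : W → W → Prop} {P : PM W k r' Fe} {Q : Finset W}
  {X Y : W → ℤ} {x y c f h z1 z2 u w z : W} {n n' l a : ℤ} {C : W → W → ℝ} {o : W → ℤ → ℝ}
  [Fintype W] {Pt : Finset (W × W)}

/-- Case III with the jump lemma. -/
structure W5 (P : PM W k r Fe) (Q : Finset W) (x y c f h z1 z2 u : W) (Y X : W → ℤ) : Prop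
    extends P.W4 Q x y c f h z1 z2 u Y X where
  jmp : ∀ n n' : ℤ, P.Ty Q 1 c n → P.Ty Q 0 c n' → 1 ≤ n → n < n' → n' + 2 ≤ k → n + 6 ≤ n'

theorem III1.w5 {P : PM W k r Fe} {p q : W} {a b : ℤ} (m : P.III1 Q x y c p q z1 z2 u Y X a b)
    (d : D1 k Fe Q Pt x z1 z2) (h : P.Sh3 Q y b) :
    ∃ (r' : ℝ) (P' : PM W k r' Fe) (X' : W → ℤ), P.Same P' ∧ P'.W5 Q x y c p q z1 z2 u Y X' := by
  have t : P.IV Q x y c p q z1 z2 u Y X a b := ⟨m, h⟩
  obtain ⟨r', P', X', s, g⟩ := m.w4 d (t.three d ▸ h)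
  exact ⟨r', P', X', s, g, fun n n' B A => t.jump d (s.ty.1 B) (s.ty.1 A)⟩

namespace W4
variable (m : P.W4 Q x y c f h z1 z2 u Y X) (d : D1 k Fe Q Pt x z1 z2) (O : P.Off r C o)
include m d

/-- The labels of the ports of `Q`. -/
lemma qrange (hw : w ∈ Q) (h0 : X w ≤ n) (h1 : n < X w + k) (p : Fe w (P.it w n)) :
    (2 ≤ n ∧ n ≤ k - 2 ∧ n ≠ 3) ∨ (k + 5 ≤ n ∧ n ≤ 2 * k - 2) := by
  have hk := d.sz.big
  have a := m.pos w hw
  have b := m.hi w hw
  have n1 : n ≠ k - 1 := fun e => m.fl.cl w hw _ (m.mid d hw) (e ▸ p)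
  have n2 : n ≠ 0 + k := fun e => m.nok d m.pos hw (by rwa [e, P.it_add] at p)
  have n3 : n ≠ 1 := fun e => m.mc1 d (m.pall hw le_rfl (by omega) (e ▸ p) (m.oc d))
  have n8 : n ≠ 3 := fun e => m.my3 d (m.pall hw (by omega) (by omega) (e ▸ p) (m.oy d))
  by_cases g : n < k
  · omega
  rw [← P.it_sub] at p
  have n4 : n - k ≠ 1 := fun e => m.mc1 d (m.pall hw le_rfl (by omega) (e ▸ p) (m.oc d))
  have n5 : n - k ≠ 3 := fun e => m.my3 d (m.pall hw (by omega) (by omega) (e ▸ p) (m.oy d))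
  have n6 : n - k ≠ 2 := fun e => by
    have := m.pone hw m.sp.hp (by omega) (by omega) (e ▸ p) (m.f2 d)
    have := m.xf d
    subst w
    omega
  have n7 : n - k ≠ 4 := fun e => by
    obtain ⟨v, hv, xv, pv⟩ := m.lo4 d
    have := m.pone hw hv (by omega) (by omega) (e ▸ p) pv
    subst w
    omega
  omega

/-- Every centre has a high edge with label four. -/
lemma b4 (hz : z ∉ Q) : P.Ty Q 1 z 3 := by
  have hk := d.sz.big
  by_cases e : z = c
  · exact e ▸ m.cb3 d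
  obtain ⟨v, hv, -, pv⟩ := m.lo4 d
  exact m.hasB d hz e (l := 4) (Or.inr (by omega)) (by omega) (by omega)
    (m.pall hv (by omega) (by omega) pv hz)

lemma crange (hz : z ∉ Q) (h0 : 0 ≤ n) (h1 : n < k) (p : Fe z (P.it z n)) : 4 ≤ n := by
  have hk := d.sz.big
  by_contra g
  have n3 : n ≠ 3 := fun e => (m.b4 d hz).2.1 (e ▸ p)
  rcases (m.out d z).1 hz with rfl | rfl | rfl
  · have key : ∀ l : ℤ, 1 ≤ l → l ≤ 3 → P.Has Q z l → n ≠ l - 1 := fun l a b t e =>
      (m.hasB d hz (m.nes d).2.1 (Or.inl (m.nes d).1) (by omega) (by omega) t).2.1 (e ▸ p)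
    have := key 1 le_rfl (by omega) (has_of_one (m.one 1 le_rfl (by omega)) (m.oc d) hz
      (m.nes d).2.1.symm (m.mc1 d))
    have := key 2 (by omega) (by omega) (m.pall m.sp.hp (by omega) (by omega) (m.f2 d) hz)
    have := key 3 (by omega) le_rfl (has_of_one (m.one 3 (by omega) (by omega)) (m.oy d) hz
      (m.nes d).1.symm (m.my3 d))
    omega
  · have := m.yh d h0 h1 p
    omega
  · rcases (show n = 0 ∨ n = 1 ∨ n = 2 by omega) with rfl | rfl | rfl
    · rw [(m.yc d).2.1] at p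
      exact (m.yc d).2.2.2 (P.sym _ _ p)
    · exact m.cb.2.1 p
    · exact (m.cb2 d).2.1 p

lemma ctop (hz : z ∉ Q) (p : Fe z (P.it z (-1))) : z = z1 := by
  rcases (d.out z).1 hz with rfl | rfl | rfl
  exacts [absurd (m.i2 ▸ p) d.e02, rfl, absurd (m.j2 d ▸ p) d.sw.sw'.e01]

lemma xle (h0 : 0 ≤ n) (h1 : n < k) (p : Fe x (P.it x n)) : n + 3 ≤ k := by
  by_contra g
  rcases (show n = -2 + k ∨ n = -1 + k by omega) with rfl | rfl <;> rw [P.it_add] at p
  exacts [d.e01 (m.i1 ▸ p), d.e02 (m.i2 ▸ p)]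

open Classical in
/-- A label of all three centres carries a port. -/
lemma hasP (a0 : 0 ≤ a) (a1 : a + 3 ≤ k) (e : P.it x a = f) (h0 : 4 ≤ l) (h1 : l + 2 ≤ k)
    (h2 : l ≠ a + 1) (g : P.Has Q c l) : ∃ w ∈ Q, Fe w (P.it w l) := by
  have hx := (m.cen d d.o0).hasB (m.xty d (n := l - 1) (by omega) (by omega) fun t => by
    have := P.uniq (t.trans e.symm) (by omega) (by omega); omega)
  have hy := (m.cen d (m.oy d)).hasB (m.yB (l - 1) (by omega) (by omega))
  rw [sub_add_cancel] at hx hy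
  have e1 : (Qᶜ.filter fun c => ¬ P.Has Q c l).card = 0 :=
    card_eq_zero.2 (filter_eq_empty_iff.2 fun t ht => not_not.2 (by
      rcases (m.out d t).1 (mem_compl.1 ht) with rfl | rfl | rfl <;> assumption))
  have := Nat.odd_iff.1 (m.fl.odd d.sz l)
  unfold dfc at this
  obtain ⟨w, hw⟩ := card_pos.1 (show 0 < (Q.filter fun x => Fe x (P.it x l)).card by omega)
  exact ⟨w, mem_filter.1 hw⟩

/-- A label that `c` misses has an even number of entered vertices. -/
lemma missE (h0 : 3 ≤ l) (h1 : l + 2 ≤ k) (g : ¬ P.Has Q c l) : (cA Q X l : ℤ) % 2 = 0 :=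
  (m.par d h0 h1).2 (iff_of_false (fun ⟨_, hw, _, p⟩ => g (m.pall hw (by omega) h1 p (m.oc d)))
    fun a => g ((m.cen d (m.oc d)).hasA a))

/-- Two levels with few vertices at distance two bound the ports of `h`. -/
lemma hG (h0 : 4 ≤ l) (h1 : l + 4 ≤ k) (g : (cA Q X l : ℤ) + 2 ≤ l)
    (g' : (cA Q X (l + 2) : ℤ) ≤ l) (j0 : 4 ≤ n) (j1 : n < 4 + k) (p : Fe h (P.it h n)) :
    n ≤ l + 2 := by
  classical
  obtain ⟨⟨a1, a2⟩, ⟨b1, b2⟩, e⟩ := m.ent d (by omega) (by omega) g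
  have xh := m.xh d
  have xf := (m.xf d).1
  have xw := (m.xw d).1
  have c1 := m.cup d (l := l + 1) (by omega) (by omega)
  have c2 := (m.tf d (l := l) (by omega) (by omega)).1
  have c3 := m.isoG d (by omega) (by omega) g
  have f1 := m.fl.it m.sp.hp a1 rfl
  have f2 := m.fl.it m.yb.1 b1 rfl
  have f3 : P.it (P.it (P.it y 2) (l + 1)) (l + 2) = f := by
    obtain ⟨i, i1, i2, t⟩ := (m.tf d (l := l + 2) (by omega) (by omega)).2 (by omega) _
      (Or.inl ⟨b1, by omega, fun t => by rw [t] at b2; omega⟩)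
    have := (m.fl.ent m.cx m.sp.hp (t ▸ b1)).2 (by omega)
    rw [t] at this
    have : i ≠ l + 1 := fun s => e (s ▸ t)
    exact m.fl.it m.sp.hp b1 ((show i = l + 2 by omega) ▸ t)
  have f4 : P.it (P.it f (l + 1)) (l + 2) = P.it y 2 := by
    obtain ⟨i, i1, i2, t⟩ := m.tw d (l := l + 2) (by omega) (by omega) (by omega) _
      (Or.inl ⟨a1, by omega, fun t => by rw [t] at a2; omega⟩)
    have := (m.fl.ent m.cx m.yb.1 (t ▸ a1)).2 (by omega)
    rw [t] at this
    have : i ≠ l + 1 := fun s => e (s ▸ t).symm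
    exact m.fl.it m.yb.1 a1 ((show i = l + 2 by omega) ▸ t)
  have sub : (Icc 4 (l + 2)).image (P.it h) ⊆ (Q.filter fun v => X v ≤ l).erase h ∪ {y, c} :=
    fun v hv => by
    simp only [mem_image, mem_Icc] at hv
    obtain ⟨i, hi, rfl⟩ := hv
    by_cases t : P.it h i ∈ Q
    · have t1 := (m.fl.ent m.cx m.sp.hq t).2 (by omega)
      have t2 := m.fl.it m.sp.hq t rfl
      refine mem_union_left _ (mem_erase.2 ⟨P.ne h i, mem_filter.2 ⟨t, not_lt.1 fun s => ?_⟩⟩)
      by_cases s' : X (P.it h i) = l + 1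
      · by_cases e1 : P.it h i = P.it f (l + 1)
        · rw [e1] at t2
          rcases (show i = l + 1 ∨ i = l + 2 by omega) with rfl | rfl
          exacts [m.sp.pq (f1.symm.trans t2), m.wh d (f4.symm.trans t2)]
        by_cases e2 : P.it h i = P.it (P.it y 2) (l + 1)
        · rw [e2] at t2
          rcases (show i = l + 1 ∨ i = l + 2 by omega) with rfl | rfl
          exacts [m.wh d (f2.symm.trans t2), m.sp.pq (f3.symm.trans t2)]
        have := cA_three t a1 b1 e1 e2 e s' a2 b2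
        omega
      · have := cA_ins (Q := Q) (X := X) (l := l + 1) (i := l + 2) {P.it h i} (by omega) fun v hv => by
          rw [mem_singleton.1 hv]; exact ⟨t, by omega, by omega⟩
        rw [card_singleton] at this
        omega
    · refine mem_union_right _ ?_
      have := ((m.out d _).1 t).resolve_left fun s => m.xB i (by omega) ?_ ?_
      · simpa using this
      all_goals
        have t3 := ((m.cen d d.o0).low m.fl m.sp.hq (by omega) (by omega) (by omega) s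
          fun q => m.sp.pq ((m.sp.fx h).1 q).symm).1
      · exact (m.idx0 d (by omega) (by omega) t3).2
      · exact t3
  have d1 := P.card_img h (i := 4) (j := l + 2) (by omega) (by omega)
  have d2 := card_union_le ((Q.filter fun v => X v ≤ l).erase h) {y, c}
  have d3 := card_erase_add_one (mem_filter.2 ⟨m.sp.hq, by omega⟩ : h ∈ Q.filter fun v => X v ≤ l)
  have d4 := card_le_two (a := y) (b := c)
  have : P.it h n ∈ (Icc 4 (l + 2)).image (P.it h) := by
    rw [eq_of_subset_of_card_le sub (by unfold cA at g; omega)]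
    refine mem_union_right _ ?_
    have := ((m.out d _).1 fun t => m.fl.cl h m.sp.hq _ t p).resolve_left fun s =>
      m.sp.pq ((m.sp.fx h).1 (s ▸ p)).symm
    simpa using this
  simp only [mem_image, mem_Icc] at this
  obtain ⟨i, hi, t⟩ := this
  have := P.uniq t (by omega) (by omega)
  omega

include O

lemma ohigh (hw : w ∈ Q) (h0 : (k : ℤ) ≤ n) : o f 2 ≤ o w n := by
  have hk := d.sz.big
  by_cases e : w = f
  · exact e ▸ O.mono _ (by omega)
  obtain ⟨i, i1, i2, t⟩ := P.win e 1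
  have : i ≠ 1 := fun s => m.oy d (by rw [← (m.xf d).2, ← s, t]; exact hw)
  linarith [O.qq m.fl m.sp.hp hw t, O.mono f (show 2 ≤ i by omega), O.mono w (show i ≤ n by omega)]

lemma oB (h0 : 0 ≤ n) (b : P.Ty Q 1 z n) : o f 2 ≤ o z n + (r - k - 1) := by
  rw [← O.tB b]
  exact m.ohigh d O b.1 (by omega)

lemma olow (hw : w ∈ Q) (h0 : X w ≤ n) (h1 : 3 ≤ n) : o f 2 ≤ o w n := by
  have key : ∀ s : ℕ, ∀ w ∈ Q, X w ≤ s → ∀ n, X w ≤ n → 3 ≤ n → o f 2 ≤ o w n := by
    intro s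
    induction s with
    | zero => intro w hw a; have := m.pos w hw; omega
    | succ s ih =>
      intro w hw a n b b'
      by_cases g : X w ≤ 3
      · rcases m.le3' d hw g with rfl | rfl
        · exact O.mono _ (by omega)
        · have := O.qq m.fl m.sp.hp hw (m.f3 d)
          linarith [O.mono f (show (2 : ℤ) ≤ 3 by omega), O.mono (P.it y 2) b']
      rcases m.first d hw (by omega) with ⟨e1, e2⟩ | ⟨-, e1, e2⟩
      · have := ih _ e1 (by omega) (X w) e2.le (by omega)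
        linarith [O.qq m.fl hw e1 (n := X w) rfl, O.mono w b]
      · have := O.co0 e1.2.1 rfl e1.2.2
        rw [e2] at this
        linarith [m.oB d O (by omega) m.cb, O.mono c (show 1 ≤ X w by omega), O.mono w b, O.r1]
  exact key _ w hw (Int.self_le_toNat _) n h0 h1

lemma clo (hz : z ∉ Q) (h0 : 4 ≤ n) : o f 2 ≤ o z n + (r - k - 1) := by
  linarith [m.oB d O (by omega) (m.b4 d hz), O.mono z (show 3 ≤ n by omega)]

lemma chi (hz : z ∉ Q) (h1 : n < k) : o z n + (r - k - 1) ≤ o f 2 + (2 * r - 2 * k - 1) := by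
  have a : o y 0 ≤ o f 2 := by
    have := O.co0 m.ya.1.2.1 rfl m.ya.1.2.2
    rw [m.ya.2] at this
    linarith [O.mono y (show (0 : ℤ) ≤ 1 by omega), O.mono f (show (1 : ℤ) ≤ 2 by omega)]
  have b : o c 0 = o y 0 := O.co0 (m.yc d).2.2.2 (m.yc d).1 (m.yc d).2.2.1
  have e : o z (-1) ≤ o y 0 := by
    rcases (m.out d z).1 hz with rfl | rfl | rfl
    · have := O.co0 d.e02 m.i2 m.s2
      have := O.mono z2 (show (-1 : ℤ) ≤ 0 by omega)
      rcases m.nm with ⟨-, rfl⟩ | ⟨-, rfl⟩ <;> linarith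
    · exact O.mono _ (by omega)
    · exact b ▸ O.mono _ (by omega)
  linarith [O.mono z (show n ≤ -1 + k by omega), O.per z (-1)]

/-- A low item is not later than a high edge with the same or a larger label. -/
lemma walk {j : ℤ} (hw : w ∈ Q) (h0 : X w ≤ l) (hz : z ∉ Q) (b : P.Ty Q 1 z j) (h1 : l ≤ j + 1)
    (h2 : j + 2 ≤ k) (h3 : j ≤ n) : o w l ≤ o z n + (r - k - 1) := by
  have pw := m.hi w hw
  have t := ((m.cen d hz).tB b h2).2
  obtain ⟨i, i1, i2, e⟩ := P.win (x := w) (y := P.it z j) (fun e => by rw [e] at t; omega) (X w)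
  have := (m.fl.side m.cx hw b.1 e).not.1 (by omega)
  linarith [O.mono w (show l ≤ i by omega), O.qq m.fl hw b.1 e, O.tB b, O.mono z h3,
    O.mono (P.it z j) (show i ≤ j + k + 1 by omega)]

/-- A high port against a high edge with the same label. -/
lemma walkH (hw : w ∈ Q) (h0 : l < X w) (p : Fe w (P.it w l)) (hz : z ∉ Q) (b : P.Ty Q 1 z (l - 1))
    (h2 : l + 1 ≤ k) (h3 : l - 1 ≤ n) (h4 : 0 ≤ l) :
    o w (l + k) ≤ o z n + (r - k - 1) + (r - k) := by
  have pw := m.hi w hw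
  have t := (m.cen d hz).tB b (by omega)
  rw [sub_add_cancel] at t
  obtain ⟨i, i1, i2, e⟩ := P.win (x := w) (y := P.it z (l - 1)) (fun e => by
    rw [e] at t
    exact b.2.1 (by rw [e]; exact P.sym _ _ (t.1 ▸ p))) (X w)
  have e1 := O.qq m.fl hw b.1 e
  have e2 := O.tB b
  rw [show l - 1 + k + 1 = l + k by ring] at e2
  have e3 := O.mono z h3
  by_cases g : i ≤ l + k
  · linarith [O.mono w (show l + k ≤ i + k by omega), O.per w i, O.mono (P.it z (l - 1)) g]
  · linarith [O.mono w (show l + k ≤ i by omega), O.per (P.it z (l - 1)) (l + k),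
      O.mono (P.it z (l - 1)) (show i ≤ l + k + k by omega)]

/-- A high port against a low edge with the same label. -/
lemma walkA (hw : w ∈ Q) (h0 : l < X w) (b : P.Ty Q 0 c l) (h3 : n ≤ l) (h4 : 0 ≤ l) :
    o c n ≤ o w (l + k) := by
  have t := ((m.cen d (m.oc d)).tA b h4).2
  obtain ⟨i, i1, i2, e⟩ := P.win (x := P.it c l) (y := w) (fun e => by rw [← e] at t; omega)
    (X (P.it c l))
  have := (m.fl.side m.cx b.1 hw e).not.1 (by omega)
  linarith [O.mono c h3, O.co0 b.2.1 rfl b.2.2, O.mono (P.it c l) (show l ≤ i by omega),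
    O.qq m.fl b.1 hw e, O.mono w (show i ≤ l + k by omega)]

end W4

namespace W5
variable (m : P.W5 Q x y c f h z1 z2 u Y X) (d : D1 k Fe Q Pt x z1 z2)
include m d

/-- Below a low edge of `c` there are five ports of `c` in a row. -/
lemma gap (A : P.Ty Q 0 c n) (h0 : -1 ≤ n) (h1 : n + 2 ≤ k) : ∃ i, 9 ≤ i ∧ i ≤ n ∧ P.Ty Q 0 c i ∧
    ∀ j, i - 5 ≤ j → j < i → Fe c (P.it c j) := by
  have : ¬ n ≤ 5 := fun g => m.cA6 d h0 g A
  obtain ⟨i, ⟨a1, a2, a3⟩, mn⟩ := Int.exists_least_of_bdd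
    (P := fun j => 3 < j ∧ j ≤ n ∧ P.Ty Q 0 c j) ⟨3, fun j g => g.1.le⟩ ⟨n, by omega, le_rfl, A⟩
  have := m.jmp 3 i (m.cb3 d) a3 (by omega) a1 (by omega)
  refine ⟨i, by omega, a2, a3, fun j j1 j2 => by_contra fun p => ?_⟩
  rcases m.cin d (by omega) (by omega) p with t | t
  · have := mn j ⟨by omega, by omega, t⟩
    omega
  · have := m.jmp j i t a3 (by omega) j2 (by omega)
    omega

/-- Below a low edge of `c` there are two even levels with few vertices. -/
lemma gapE (A : P.Ty Q 0 c n) (h0 : -1 ≤ n) (h1 : n + 2 ≤ k) : ∃ e, 5 ≤ e ∧ e + 2 < n ∧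
    (cA Q X e : ℤ) + 2 ≤ e ∧ (cA Q X (e + 2) : ℤ) ≤ e := by
  obtain ⟨i, i1, i2, -, g⟩ := m.gap d A h0 h1
  have key : ∀ l, i - 4 ≤ l → l < i → l % 2 = 0 → (cA Q X l : ℤ) + 2 ≤ l := fun l a b e => by
    have := m.missE d (l := l) (by omega) (by omega) fun t => by
      rcases (m.cen d (m.oc d)).has (by omega) (by omega) t with t | t
      exacts [t.2.1 (g _ (by omega) b), t.2.1 (g _ (by omega) (by omega))]
    have := m.cup d (l := l) (by omega) (by omega)
    omega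
  have a := key (i - 4 + i % 2) (by omega) (by omega) (by omega)
  have b := key (i - 4 + i % 2 + 2) (by omega) (by omega) (by omega)
  exact ⟨i - 4 + i % 2, by omega, by omega, a, by omega⟩

lemma fA (p : Fe f (P.it f n)) (h1 : n + 2 ≤ k) (h2 : -1 ≤ l) (h3 : l ≤ n) : ¬ P.Ty Q 0 c l :=
  fun A => by
  obtain ⟨e, e1, e2, e3, -⟩ := m.gapE d A h2 (by omega)
  have := m.noG d (l := e) p (by omega) (by omega) h1
  omega

lemma hA (p : Fe h (P.it h n)) (h0 : 4 ≤ n) (h1 : n + 2 ≤ k) (h2 : -1 ≤ l) (h3 : l ≤ n) :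
    ¬ P.Ty Q 0 c l := fun A => by
  obtain ⟨e, e1, e2, e3, e4⟩ := m.gapE d A h2 (by omega)
  have := m.hG d (by omega) (by omega) e3 e4 h0 (by omega) p
  omega

/-- A low port at a label where `c` has no low edge. -/
lemma lowB (a0 : 0 ≤ a) (a1 : a + 3 ≤ k) (e : P.it x a = f) (hw : w ∈ Q) (h0 : X w ≤ n)
    (h1 : n + 2 ≤ k) (p : Fe w (P.it w n)) (nA : ¬ P.Ty Q 0 c n) :
    n ≤ a ∧ P.Ty Q 1 c (n - 1) := by
  have := m.pos w hw
  have a4 := m.crange d d.o0 a0 (by omega) (e ▸ P.sym _ _ ((m.sp.fx f).2 rfl))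
  refine ⟨not_lt.1 fun g => ?_, ((m.cen d (m.oc d)).has (by omega) (by omega)
    (m.pall hw (by omega) h1 p (m.oc d))).resolve_left nA⟩
  have : n ≠ a + 1 := fun t => m.nopa d a0 a1 e hw (t ▸ p)
  have := m.above d (l := n) (by omega) e (by omega) (by omega)
  have := (m.parL d (by omega) h1 nA).1 ⟨w, hw, h0, p⟩
  omega

/-- Below a port of `f` the even levels carry low ports. -/
lemma lf (p : Fe f (P.it f n)) (h0 : 3 ≤ l) (h1 : l < n) (h2 : n + 2 ≤ k) :
    P.LoP Q X l ↔ l % 2 = 0 := by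
  rw [m.parL d h0 (by omega) (m.fA d p h2 (by omega) h1.le)]
  have := m.noG d p h0 h1 h2
  omega

end W5

end PM

end Pool.Agent.P.MP_3f5ded_co.UG
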