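import Pool.Agent.P.MP_3f5ded_co.Net

set_option autoImplicit false

namespace Pool.Agent.P.MP_3f5ded_co

open Finset

/-- Circular `r`-edge-colourability. -/
def Col {V : Type} (G : SimpleGraph V) (r : ℝ) : Prop :=
  ∃ c : G.edgeSet → ℝ, (∀ e, 0 ≤ c e ∧ c e < r) ∧
    ∀ e f : G.edgeSet, e ≠ f → (∃ v : V, v ∈ e.1 ∧ v ∈ f.1) →
      1 ≤ |c e - c f| ∧ |c e - c f| ≤ r - 1

lemma Col.mono {V : Type} {G : SimpleGraph V} {r r' : ℝ} (h : Col G r) (hr : r ≤ r') :
    Col G r' := by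
  obtain ⟨c, h1, h2⟩ := h
  exact ⟨c, fun e => ⟨(h1 e).1, (h1 e).2.trans_le hr⟩, fun e f a b =>
    ⟨(h2 e f a b).1, (h2 e f a b).2.trans (by linarith)⟩⟩

theorem exists_graph {k : ℕ} (H : Net k) (hw : ∀ p, H.w p = 0) :
    ∃ (n : ℕ) (G : SimpleGraph (Fin n)) (_ : DecidableRel G.Adj), G.IsRegularOfDegree k ∧
      ∀ r : ℝ, 0 < r → (Col G r ↔ H.Feas r) := by
  classical
  set e := Fintype.equivFin H.N
  let G : SimpleGraph (Fin (Fintype.card H.N)) :=
    { Adj := fun x y => ∃ p, e (H.nd p) = x ∧ e (H.nd (H.σ p)) = y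
      symm := ⟨by
        rintro x y ⟨p, h1, h2⟩
        exact ⟨H.σ p, h2, by rw [H.inv]; exact h1⟩⟩
      loopless := ⟨by
        rintro x ⟨p, h1, h2⟩
        exact H.noloop p (hw p) (e.injective (h2.trans h1.symm))⟩ }
  let ed : H.Po → G.edgeSet := fun p => ⟨s(e (H.nd p), e (H.nd (H.σ p))), ⟨p, rfl, rfl⟩⟩
  have ed1 : ∀ p, ed (H.σ p) = ed p := by
    intro p
    apply Subtype.ext
    simp only [ed, H.inv]
    exact Sym2.eq_swap
  have ed2 : ∀ p q, ed p = ed q → q = p ∨ q = H.σ p := by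
    intro p q h
    have := congrArg Subtype.val h
    simp only [ed, Sym2.eq_iff, EmbeddingLike.apply_eq_iff_eq] at this
    rcases this with ⟨h1, h2⟩ | ⟨h1, h2⟩
    · exact Or.inl (H.nopar _ _ (hw _) (hw _) h1 h2).symm
    · exact Or.inr (H.nopar _ _ (hw _) (hw _) h2.symm (by rw [H.inv]; exact h1.symm))
  have ed3 : ∀ f : G.edgeSet, ∃ p, ed p = f := by
    rintro ⟨f, hf⟩
    induction f using Sym2.ind with
    | _ x y =>
      have hf' : ∃ p, e (H.nd p) = x ∧ e (H.nd (H.σ p)) = y := hf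
      obtain ⟨p, h1, h2⟩ := hf'
      exact ⟨p, Subtype.ext (by simp only [ed, h1, h2])⟩
  have ed4 : ∀ (f : G.edgeSet) (v), v ∈ f.1 → ∃ p, ed p = f ∧ e (H.nd p) = v := by
    intro f v hv
    obtain ⟨p, rfl⟩ := ed3 f
    simp only [ed, Sym2.mem_iff] at hv
    rcases hv with rfl | rfl
    · exact ⟨p, rfl, rfl⟩
    · exact ⟨H.σ p, ed1 p, rfl⟩
  refine ⟨_, G, inferInstance, fun x => ?_, fun r hr => ⟨?_, ?_⟩⟩
  · have : G.neighborSet x = (fun p => e (H.nd (H.σ p))) '' {p | H.nd p = e.symm x} := by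
      ext y
      simp only [SimpleGraph.mem_neighborSet, G, Set.mem_image, Set.mem_ofPred_eq,
        Equiv.eq_symm_apply]
    refine Eq.trans ?_ (H.deg (e.symm x))
    rw [← SimpleGraph.card_neighborSet_eq_degree, ← Nat.card_eq_fintype_card,
      Nat.card_coe_set_eq, this]
    apply Set.InjOn.ncard_image
    intro p hp q hq h
    exact H.nopar _ _ (hw _) (hw _) (hp.trans hq.symm) (e.injective h)
  · rintro ⟨c, h1, h2⟩
    refine ⟨fun p => c (ed p), fun p q hne hpq => ?_, fun p => ?_⟩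
    · have : ed p ≠ ed q := by
        intro h
        rcases ed2 p q h with rfl | rfl
        · exact hne rfl
        · exact H.noloop p (hw p) hpq.symm
      obtain ⟨a, b⟩ := h2 _ _ this ⟨e (H.nd p), by simp [ed], by simp [ed, hpq]⟩
      rcases abs_cases (c (ed p) - c (ed q)) with h | h
      · exact (Far.of_bounds (by linarith) (by linarith)).symm
      · exact Far.of_bounds (by linarith) (by linarith)
    · simpa [hw, ed1] using Near.refl r _
  · rintro ⟨c, h1, h2⟩
    choose π hπ using ed3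
    have hn : ∀ p, Near r 0 (c p) (toIcoMod hr 0 (c (π (ed p)))) := by
      intro p
      have a : Near r 0 (c p) (c (π (ed p))) := by
        rcases ed2 p _ (hπ (ed p)).symm with h | h <;> rw [h]
        · exact Near.refl _ _
        · simpa [hw] using h2 p
      refine a.trans0 ⟨toIcoDiv hr 0 (c (π (ed p))), ?_⟩
      have := toIcoMod_add_toIcoDiv_zsmul hr 0 (c (π (ed p)))
      simp only [zsmul_eq_mul] at this
      rw [abs_nonpos_iff]; linarith
    have hb : ∀ f, 0 ≤ toIcoMod hr 0 (c (π f)) ∧ toIcoMod hr 0 (c (π f)) < r := fun f =>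
      ⟨(toIcoMod_mem_Ico hr 0 _).1, by simpa using (toIcoMod_mem_Ico hr 0 (c (π f))).2⟩
    refine ⟨fun f => toIcoMod hr 0 (c (π f)), hb, ?_⟩
    rintro f g hne ⟨v, hf, hg⟩
    obtain ⟨p, rfl, hp⟩ := ed4 f v hf
    obtain ⟨q, rfl, hq⟩ := ed4 g v hg
    have := (h1 p q (fun h => hne (by rw [h])) (e.injective (hp.trans hq.symm))).congr (hn p) (hn q)
    have a0 := this 0
    have a1 := this 1
    have a2 := this (-1)
    have b1 := hb (ed p)
    have b2 := hb (ed q)
    push_cast at a0 a1 a2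
    refine ⟨by simpa using a0, ?_⟩
    rw [abs_of_neg (by linarith)] at a1
    rw [abs_of_pos (by linarith)] at a2
    rw [abs_le]; constructor <;> linarith

end Pool.Agent.P.MP_3f5ded_co
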