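import Pool.Agent.P.MP_3f5ded_co.MLemma

set_option autoImplicit false

namespace Pool.Agent.P.MP_3f5ded_co

open Finset

lemma exists_M {k : ℕ} (hk : 4 ≤ k) (he : Even k) :
    ∃ (ν : Option (ZMod (k + 1)) → Option (ZMod (k + 1))) (u v : Option (ZMod (k + 1)))
      (cl : Option (ZMod (k + 1)) → Option (ZMod (k + 1)) → ℕ),
      (∀ x, ν (ν x) = x) ∧ (∀ x, ν x ≠ x) ∧ v ∈ nb ν u ∧ (∀ x y, cl x y = cl y x) ∧
      (∀ x y, cl x y < k) ∧ (∀ x, ∀ y ∈ nb ν x, ∀ z ∈ nb ν x, cl x y = cl x z → y = z) ∧
      cl u v = 0 := by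
  have two : ∀ a : ZMod (k + 1), a + a = 0 → a = 0 := by
    intro a h
    obtain ⟨m, rfl⟩ := he
    have h0 : ((m + m + 1 : ℕ) : ZMod (m + m + 1)) = 0 := ZMod.natCast_self _
    push_cast at h0
    linear_combination (m + 1 : ZMod (m + m + 1)) * h - a * h0
  have : Fact (1 < k + 1) := ⟨by omega⟩
  let ν : Option (ZMod (k + 1)) → Option (ZMod (k + 1)) := fun x =>
    match x with
    | none => some 0
    | some a => if a = 0 then none else some (-a)
  let col : Option (ZMod (k + 1)) → Option (ZMod (k + 1)) → ZMod (k + 1) := fun x y =>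
    match x, y with
    | none, none => 0
    | none, some b => b + b
    | some a, none => a + a
    | some a, some b => a + b
  have c0 : ∀ x, ∀ y ∈ nb ν x, col x y ≠ 0 := by
    intro x y hy
    obtain ⟨h1, h2⟩ := mem_nb.mp hy
    rcases x with _ | a <;> rcases y with _ | b
    · exact absurd rfl h2
    · intro h; exact h1 (by simp [ν, two b h])
    · intro h; exact h1 (by simp [ν, two a h])
    · intro h
      have h' : a + b = 0 := h
      by_cases ha : a = 0
      · subst ha; exact h2 (by simpa using h')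
      · exact h1 (by simp only [ν, if_neg ha]; congr 1; linear_combination h')
  have c1 : ∀ x, ∀ y ∈ nb ν x, ∀ z ∈ nb ν x, col x y = col x z → y = z := by
    intro x y hy z hz h
    obtain ⟨h1, h2⟩ := mem_nb.mp hy
    obtain ⟨h3, h4⟩ := mem_nb.mp hz
    rcases x with _ | a <;> rcases y with _ | b <;> rcases z with _ | c
    · rfl
    · exact absurd rfl h2
    · exact absurd rfl h4
    · have h' : b + b = c + c := h
      have := two (b - c) (by linear_combination h')
      congr 1; linear_combination this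
    · rfl
    · have h' : a + a = a + c := h
      exact absurd (by congr 1; linear_combination -h') h4
    · have h' : a + b = a + a := h
      exact absurd (by congr 1; linear_combination h') h2
    · have h' : a + b = a + c := h
      congr 1; linear_combination h'
  refine ⟨ν, some 0, some 1, fun x y => (col x y).val - 1, ?_, ?_, ?_, ?_, ?_, ?_, ?_⟩
  · rintro (_ | a)
    · simp [ν]
    · by_cases ha : a = 0 <;> simp [ν, ha]
  · rintro (_ | a)
    · simp [ν]
    · by_cases ha : a = 0
      · simp [ν, ha]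
      · simp only [ν, if_neg ha]
        intro h
        exact ha (two a (by have := Option.some.inj h; linear_combination -this))
  · rw [mem_nb]; simp [ν]
  · rintro (_ | a) (_ | b) <;> simp [col, add_comm]
  · intro x y
    have := ZMod.val_lt (col x y)
    show (col x y).val - 1 < k
    omega
  · intro x y hy z hz h
    apply c1 x y hy z hz
    have a1 : (col x y).val ≠ 0 := fun e => c0 x y hy ((ZMod.val_eq_zero _).mp e)
    have a2 : (col x z).val ≠ 0 := fun e => c0 x z hz ((ZMod.val_eq_zero _).mp e)
    apply ZMod.val_injective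
    have h' : (col x y).val - 1 = (col x z).val - 1 := h
    omega
  · simp [col, ZMod.val_one]

lemma M_colour {W : Type} [Fintype W] [DecidableEq W] {k : ℕ} {ν : W → W} {u v : W}
    (huv : v ≠ u) {cl : W → W → ℕ} (hs : ∀ x y, cl x y = cl y x) (hlt : ∀ x y, cl x y < k)
    (hinj : ∀ x, ∀ y ∈ nb ν x, ∀ z ∈ nb ν x, cl x y = cl x z → y = z) (h0 : cl u v = 0)
    {r a b : ℝ} (hab : |a - b| ≤ r - k) :
    ∃ C : W → W → ℝ, C u v = a ∧ C v u = b ∧
      (∀ x y, ¬(x = u ∧ y = v) → ¬(x = v ∧ y = u) → C x y = C y x) ∧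
      ∀ x, ∀ y ∈ nb ν x, ∀ z ∈ nb ν x, y ≠ z → Far r (C x y) (C x z) := by
  set C : W → W → ℝ := fun x y => if x = u ∧ y = v then a else if x = v ∧ y = u then b else
    if cl x y = 0 then min a b else min a b + cl x y + (r - k) with hC
  rw [abs_le] at hab
  have l0 : ∀ x y, cl x y = 0 → min a b ≤ C x y ∧ C x y ≤ min a b + (r - k) := by
    intro x y h
    simp only [hC, h, if_true]
    rcases min_cases a b with e | e <;> rw [e.1] <;> split_ifs <;> constructor <;> linarith [e.2]
  have l1 : ∀ x y, cl x y ≠ 0 → C x y = min a b + cl x y + (r - k) := by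
    intro x y h
    simp only [hC]
    rw [if_neg, if_neg, if_neg h]
    · rintro ⟨rfl, rfl⟩; exact h (by rw [hs, h0])
    · rintro ⟨rfl, rfl⟩; exact h h0
  have key : ∀ x y z, cl x y < cl x z → Far r (C x y) (C x z) := by
    intro x y z h
    have a1 : (cl x y : ℝ) + 1 ≤ cl x z := by exact_mod_cast h
    have a2 : (cl x z : ℝ) + 1 ≤ k := by exact_mod_cast hlt x z
    have a3 : (0 : ℝ) ≤ cl x y := by positivity
    rw [l1 x z (by omega)]
    by_cases hy : cl x y = 0
    · have := l0 x y hy
      apply Far.of_bounds <;> linarith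
    · rw [l1 x y hy]
      apply Far.of_bounds <;> linarith
  refine ⟨C, by simp [hC], by simp [hC, huv], ?_, ?_⟩
  · intro x y h1 h2
    simp only [hC]
    have h3 : ¬(y = u ∧ x = v) := fun h => h2 ⟨h.2, h.1⟩
    have h4 : ¬(y = v ∧ x = u) := fun h => h1 ⟨h.2, h.1⟩
    rw [if_neg h1, if_neg h2, if_neg h3, if_neg h4, hs x y]
  · intro x y hy z hz hne
    rcases lt_trichotomy (cl x y) (cl x z) with h | h | h
    · exact key x y z h
    · exact absurd (hinj x y hy z hz h) hne
    · exact (key x z y h).symm

end Pool.Agent.P.MP_3f5ded_co
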