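import Pool.Agent.P.MP_3f5ded_co.Basic

set_option autoImplicit false

namespace Pool.Agent.P.MP_3f5ded_co

open Finset

variable {W : Type} [Fintype W] [DecidableEq W]

/-- Neighbours of `x` in the cocktail party graph given by `ν`. -/
def nb (ν : W → W) (x : W) : Finset W := (univ.erase x).erase (ν x)

lemma mem_nb {ν : W → W} {x y : W} : y ∈ nb ν x ↔ y ≠ ν x ∧ y ≠ x := by
  simp [nb]

lemma card_nb {k : ℕ} (hW : Fintype.card W = k + 2) {ν : W → W} (hν' : ∀ x, ν x ≠ x) (x : W) :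
    (nb ν x).card = k := by
  rw [nb, card_erase_of_mem (by simp [hν' x]), card_erase_of_mem (by simp), card_univ, hW]
  omega

lemma nb_symm {ν : W → W} (hν : ∀ x, ν (ν x) = x) {x y : W} (h : y ∈ nb ν x) : x ∈ nb ν y := by
  rw [mem_nb] at h ⊢
  refine ⟨fun e => h.1 (by rw [e, hν]), fun e => h.2 e.symm⟩

lemma M_half {k : ℕ} (hk : 4 ≤ k) (hW : Fintype.card W = k + 2) {ν : W → W}
    (hν : ∀ x, ν (ν x) = x) (hν' : ∀ x, ν x ≠ x) {u v : W} (huv : v ∈ nb ν u) {r : ℝ}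
    {C : W → W → ℝ} {F : W → ℤ → ℝ} {κ : W → W → ℤ}
    (hG : ∀ x, Good k r (nb ν x) (C x) (F x) (κ x))
    (hE : ∀ x, ∀ y ∈ nb ν x, ¬(x = u ∧ y = v) → ¬(x = v ∧ y = u) →
      κ x y = κ y x ∧ F x (κ x y) = F y (κ x y))
    (hu : κ u v = 0) (hv : κ v u = 0) : F v 0 ≤ F u 0 + (r - k) := by
  have hvu := nb_symm hν huv
  obtain ⟨h1, h2⟩ := mem_nb.mp huv
  obtain ⟨h3, h4⟩ := mem_nb.mp hvu
  set u' := ν u with hu'
  set v' := ν v with hv'
  have n1 : u' ≠ u := hν' u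
  have n2 : v' ≠ v := hν' v
  have n3 : u' ≠ v' := fun e => h2 (by rw [← hν v, ← hν u, ← hu', ← hv', e])
  have eu : ν u' = u := hν u
  have ev : ν v' = v := hν v
  set A : Finset W := ((nb ν u).erase v).erase v' with hA
  have memA : ∀ w, w ∈ A ↔ w ≠ v' ∧ w ≠ v ∧ w ≠ u' ∧ w ≠ u := by
    intro w; simp [hA, mem_nb, ← hu']
  have v'u : v' ∈ nb ν u := mem_nb.mpr ⟨n3.symm, h3.symm⟩
  have u'v : u' ∈ nb ν v := mem_nb.mpr ⟨n3, h1.symm⟩
  have uv' : u ∈ nb ν v' := nb_symm hν v'u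
  have u'v' : u' ∈ nb ν v' := mem_nb.mpr ⟨by rw [ev]; exact h1.symm, n3⟩
  have vu' : v ∈ nb ν u' := nb_symm hν u'v
  have v'u' : v' ∈ nb ν u' := nb_symm hν u'v'
  have cA : A.card + 2 = k := by
    rw [hA, card_erase_of_mem (mem_erase.mpr ⟨n2, v'u⟩), card_erase_of_mem huv, card_nb hW hν']
    omega
  have A2 : A = ((nb ν v).erase u).erase u' := by
    ext w; rw [memA]; simp [mem_nb, ← hv']; tauto
  have A3 : A = ((nb ν v').erase u).erase u' := by
    ext w; rw [memA]; simp [mem_nb, ev]; tauto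
  set T := ∑ i ∈ Finset.Ico (0 : ℤ) k, i with hT
  have s1 : ∑ w ∈ A, κ u w + κ u v' + κ u v = T := by
    rw [hA, sum_erase_add _ _ (mem_erase.mpr ⟨n2, v'u⟩), sum_erase_add _ _ huv]
    exact (hG u).sum (card_nb hW hν' u)
  have s2 : ∑ w ∈ A, κ v w + κ v u' + κ v u = T := by
    rw [A2, sum_erase_add _ _ (mem_erase.mpr ⟨n1, u'v⟩), sum_erase_add _ _ hvu]
    exact (hG v).sum (card_nb hW hν' v)
  have s3 : ∑ w ∈ A, κ v' w + κ v' u' + κ v' u = T := by
    rw [A3, sum_erase_add _ _ (mem_erase.mpr ⟨n1, u'v'⟩), sum_erase_add _ _ uv']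
    exact (hG v').sum (card_nb hW hν' v')
  have Au : ∀ w ∈ A, w ∈ nb ν u := fun w hw => mem_of_mem_erase (mem_of_mem_erase hw)
  have Av : ∀ w ∈ A, w ∈ nb ν v := fun w hw => by
    rw [A2] at hw; exact mem_of_mem_erase (mem_of_mem_erase hw)
  have Av' : ∀ w ∈ A, w ∈ nb ν v' := fun w hw => by
    rw [A3] at hw; exact mem_of_mem_erase (mem_of_mem_erase hw)
  -- edges
  have Eu : ∀ w ∈ nb ν u, w ≠ v → κ u w = κ w u ∧ F u (κ u w) = F w (κ u w) :=
    fun w hw hne => hE u w hw (fun h => hne h.2) (fun h => h2 h.1.symm)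
  have Ev : ∀ w ∈ nb ν v, w ≠ u → κ v w = κ w v ∧ F v (κ v w) = F w (κ v w) :=
    fun w hw hne => hE v w hw (fun h => h2 h.1) (fun h => hne h.2)
  have Ev' : ∀ w ∈ nb ν v', κ v' w = κ w v' ∧ F v' (κ v' w) = F w (κ v' w) :=
    fun w hw => hE v' w hw (fun h => h3 h.1.symm) (fun h => n2 h.1)
  have start : ∀ w ∈ nb ν u, w ≠ v → F w (κ u w) - κ u w ≤ F u 0 + (r - k) := by
    intro w hw hne
    rw [← (Eu w hw hne).2]
    have := (hG u).fr.upper (i := 0) (j := κ u w) (by have := (hG u).hi w hw; omega)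
    push_cast at this; linarith
  have fin : ∀ w ∈ nb ν v, w ≠ u → F v 0 ≤ F w (κ v w) - κ v w := by
    intro w hw hne
    rw [← (Ev w hw hne).2]
    have := (hG v).fr.mono (i := 0) (j := κ v w) ((hG v).lo w hw)
    push_cast at this; linarith
  have mid : ∀ w (i j : ℤ), i ≤ j → F w i - i ≤ F w j - j := by
    intro w i j hij
    have := (hG w).fr.mono hij
    linarith
  by_cases c1 : ∃ w ∈ A, κ v w ≤ κ u w
  · obtain ⟨w, hw, hle⟩ := c1
    have := (memA w).mp hw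
    linarith [start w (Au w hw) this.2.1, fin w (Av w hw) this.2.2.2, mid w _ _ hle]
  push Not at c1
  have b1 : ∑ w ∈ A, (κ u w + 1) ≤ ∑ w ∈ A, κ v w := sum_le_sum fun w hw => c1 w hw
  rw [sum_add_distrib] at b1
  simp only [sum_const, nsmul_eq_mul, mul_one] at b1
  have cA' : (A.card : ℤ) + 2 = k := by exact_mod_cast cA
  have b2 := (hG u).hi v' v'u
  have b3 := (hG v).lo u' u'v
  have b4 : κ v u' ≠ κ v u := fun e => n1 ((hG v).inj _ u'v _ hvu e)
  have e1 : κ u v' = k - 1 := by omega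
  have e2 : κ v u' = 1 := by omega
  have st := start v' v'u n2
  have e3 := (Eu v' v'u n2).1
  have step2 : ∀ w ∈ nb ν v', F w (κ v' w) - κ v' w ≤ F u 0 + (r - k) := by
    intro w hw
    rw [← (Ev' w hw).2]
    have := (hG v').hi w hw
    linarith [mid v' (κ v' w) (κ u v') (by omega)]
  by_cases c2 : 1 ≤ κ v' u'
  · linarith [step2 u' u'v', fin u' u'v n1, mid u' (κ v u') (κ v' u') (by omega)]
  have e4 : κ v' u' = 0 := by have := (hG v').lo u' u'v'; omega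
  by_cases c3 : ∃ w ∈ A, κ v w ≤ κ v' w
  · obtain ⟨w, hw, hle⟩ := c3
    have := (memA w).mp hw
    linarith [step2 w (Av' w hw), fin w (Av w hw) this.2.2.2, mid w _ _ hle]
  push Not at c3
  exfalso
  have b5 : ∑ w ∈ A, (κ u w + κ v' w + 3) ≤ ∑ w ∈ A, 2 * κ v w := by
    refine sum_le_sum fun w hw => ?_
    have m := (memA w).mp hw
    have := c1 w hw
    have := c3 w hw
    have : κ u w ≠ κ v' w := by
      rw [(Eu w (Au w hw) m.2.1).1, (Ev' w (Av' w hw)).1]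
      intro e
      exact h3 ((hG w).inj _ (nb_symm hν (Au w hw)) _ (nb_symm hν (Av' w hw)) e)
    omega
  rw [sum_add_distrib, sum_add_distrib, ← mul_sum] at b5
  simp only [sum_const, nsmul_eq_mul] at b5
  omega

theorem M_near {k : ℕ} (hk : 4 ≤ k) (he : Even k) (hW : Fintype.card W = k + 2) {ν : W → W}
    (hν : ∀ x, ν (ν x) = x) (hν' : ∀ x, ν x ≠ x) {u v : W} (huv : v ∈ nb ν u) {r : ℝ}
    (hr0 : (k : ℝ) ≤ r) (hr : r < k + 1 / 4) {C : W → W → ℝ}
    (hsym : ∀ x, ∀ y ∈ nb ν x, ¬(x = u ∧ y = v) → ¬(x = v ∧ y = u) → Near r 0 (C x y) (C y x))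
    (hfar : ∀ x, ∀ y ∈ nb ν x, ∀ z ∈ nb ν x, y ≠ z → Far r (C x y) (C x z)) :
    Near r (r - k) (C u v) (C v u) := by
  have hk' : (4 : ℝ) ≤ k := by exact_mod_cast hk
  have hr1 : 1 ≤ r := by linarith
  have hrp : 0 < r := by linarith
  have hvu := nb_symm hν huv
  obtain ⟨h1, h2⟩ := mem_nb.mp huv
  obtain ⟨h3, h4⟩ := mem_nb.mp hvu
  have n1 : ν u ≠ u := hν' u
  have n2 : ν v ≠ v := hν' v
  have n3 : ν u ≠ ν v := fun e => h2 (by rw [← hν v, ← hν u, e])
  have anchor : ∀ x, ∀ y ∈ nb ν x, ¬(x = u ∧ y = v) → ¬(x = v ∧ y = u) → ∀ f κ,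
      Good k r (nb ν x) (C x) f κ → ∃ g μ, Good k r (nb ν y) (C y) g μ ∧ Al (r - k) f g := by
    intro x y hy a1 a2 f κ hG
    obtain ⟨g, μ, hg, -, e⟩ := exists_good hrp (nb ν y) (card_nb hW hν' y) (C y) (hfar y) x
      (nb_symm hν hy) (κ y) (hG.lo y hy) (hG.hi y hy) (f (κ y))
      ((hsym x y hy a1 a2).symm.trans0 (hG.near y hy)) hr1
    exact ⟨g, μ, hg, hG.fr.aligned hg.fr (by omega) e.symm⟩
  obtain ⟨fu, κu, hGu, eu, -⟩ := exists_good hrp (nb ν u) (card_nb hW hν' u) (C u) (hfar u) v huv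
    0 le_rfl (by omega) (C u v) (Near.refl _ _) hr1
  have v'u : ν v ∈ nb ν u := mem_nb.mpr ⟨n3.symm, h3.symm⟩
  obtain ⟨f1, κ1, hG1, a1⟩ := anchor u (ν v) v'u (fun h => n2 h.2) (fun h => h2 h.1.symm) _ _ hGu
  have he0 : 0 ≤ r - k := by linarith
  have gen : ∀ x, x ≠ v → ∃ f κ, Good k r (nb ν x) (C x) f κ ∧ Al (r - k) f1 f ∧
      (x = u → κ v = 0) := by
    intro x hx
    by_cases c1 : x = u
    · subst c1; exact ⟨fu, κu, hGu, a1.symm, fun _ => eu⟩
    by_cases c2 : x = ν v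
    · subst c2; exact ⟨f1, κ1, hG1, Al.refl he0 _, fun h => absurd h c1⟩
    obtain ⟨g, μ, hg, a⟩ := anchor (ν v) x (mem_nb.mpr ⟨by rw [hν]; exact hx, c2⟩)
      (fun h => h3 h.1.symm) (fun h => n2 h.1) _ _ hG1
    exact ⟨g, μ, hg, a, fun h => absurd h c1⟩
  have gen2 : ∀ x, ∃ f κ, Good k r (nb ν x) (C x) f κ ∧
      Al (if x = v then 2 * (r - k) else r - k) f1 f ∧ (x = u → κ v = 0) := by
    intro x
    by_cases hx : x = v
    · obtain ⟨f, κ, hG, a, -⟩ := gen (ν u) h1.symm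
      obtain ⟨g, μ, hg, a'⟩ := anchor (ν u) v (mem_nb.mpr ⟨by rw [hν]; exact h2, h1⟩)
        (fun h => n1 h.1) (fun h => h1 h.1.symm) _ _ hG
      subst hx
      refine ⟨g, μ, hg, ?_, fun h => absurd h h2⟩
      rw [if_pos rfl]; exact (a.trans a').mono (by linarith)
    · simpa [hx] using gen x hx
  choose F κ hG hA hu using gen2
  have hu0 : κ u v = 0 := hu u rfl
  have hE : ∀ x, ∀ y ∈ nb ν x, ¬(x = u ∧ y = v) → ¬(x = v ∧ y = u) →
      κ x y = κ y x ∧ F x (κ x y) = F y (κ x y) := by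
    intro x y hy b1 b2
    have hx := nb_symm hν hy
    have al : Al (3 * (r - k)) (F x) (F y) := by
      refine ((hA x).symm.trans (hA y)).mono ?_
      have := (mem_nb.mp hy).2
      split_ifs with d1 d2
      · exact absurd (d2.trans d1.symm) this
      all_goals linarith
    have nn : Near r 0 (F x (κ x y)) (F y (κ y x)) :=
      (((hG x).near y hy).symm.trans0 (hsym x y hy b1 b2)).trans0 ((hG y).near x hx)
    obtain ⟨e, e'⟩ := near_match (hG y).fr al nn (by linarith) ((hG x).lo y hy) ((hG x).hi y hy)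
      ((hG y).lo x hx) ((hG y).hi x hx)
    refine ⟨e, ?_⟩
    rw [← e, abs_nonpos_iff] at e'
    linarith
  have hv0 : κ v u = 0 := by
    by_contra hne
    have ex : ∀ x, ∃ y ∈ nb ν x, κ x y = 0 := fun x =>
      (hG x).surj (card_nb hW hν' x) le_rfl (by omega)
    choose μ hμ hμ0 using ex
    have key : ∀ x, x ≠ u → μ x ≠ u ∧ μ (μ x) = x := by
      intro x hx
      have b2 : ¬(x = v ∧ μ x = u) := by
        rintro ⟨rfl, e⟩
        apply hne; rw [← e]; exact hμ0 _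
      have e := (hE x (μ x) (hμ x) (fun h => hx h.1) b2).1
      rw [hμ0] at e
      have hx' := nb_symm hν (hμ x)
      refine ⟨fun h => ?_, (hG (μ x)).inj _ (hμ _) _ hx' (by rw [hμ0, ← e])⟩
      apply b2
      refine ⟨?_, h⟩
      rw [h] at e hx'
      exact (hG u).inj _ hx' _ huv (by rw [← e, hu0])
    have s0 : ∑ _x ∈ univ.erase u, (1 : ZMod 2) = 0 := by
      refine sum_involution (fun x _ => μ x) (fun _ _ => by decide) (fun x _ _ => ?_)
        (fun x hx => ?_) (fun x hx => ?_)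
      · exact (mem_nb.mp (hμ x)).2
      · exact mem_erase.mpr ⟨(key x (mem_erase.mp hx).1).1, mem_univ _⟩
      · exact (key x (mem_erase.mp hx).1).2
    rw [sum_const, card_erase_of_mem (mem_univ _), card_univ, hW] at s0
    obtain ⟨m, rfl⟩ := he
    have e : m + m + 2 - 1 = 2 * m + 1 := by omega
    rw [e] at s0
    simp only [nsmul_eq_mul, mul_one] at s0
    push_cast at s0
    have h20 : (2 : ZMod 2) = 0 := by decide
    rw [h20] at s0
    simp at s0
  have g1 := M_half hk hW hν hν' huv hG hE hu0 hv0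
  have g2 := M_half hk hW hν hν' hvu hG (fun x y hy b1 b2 => hE x y hy b2 b1) hv0 hu0
  have q1 := (hG u).near v huv
  have q2 := (hG v).near u hvu
  rw [hu0] at q1
  rw [hv0] at q2
  exact (q1.trans0' (Near.of_abs (abs_le.mpr ⟨by linarith, by linarith⟩))).trans0 q2.symm

end Pool.Agent.P.MP_3f5ded_co
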