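import Pool.Agent.P.MP_3f5ded_co.Graph
import Pool.Agent.P.MP_3f5ded_co.Coupler

set_option autoImplicit false

namespace Pool.Agent.P.MP_3f5ded_co

open Finset Sum

/-- Partner along the fat spoke. -/
def spk : Fin 10 → Fin 10 := ![6, 4, 7, 5, 1, 3, 0, 2, 9, 8]
/-- Vertex at the other end of a path port. -/
def mv (b : Bool) : Fin 10 → Fin 10 :=
  bif b then ![1, 2, 3, 7, 5, 6, 7, 3, 4, 9] else ![8, 0, 1, 2, 8, 4, 5, 6, 0, 9]
/-- Port at the other end of a path port. -/
def mb (b : Bool) : Fin 10 → Bool :=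
  bif b then ![false, false, false, true, false, false, false, true, false, false]
  else ![false, true, true, true, true, true, true, true, false, true]
/-- Change of block along a path port. -/
def ms (b : Bool) : Fin 10 → ℤ :=
  bif b then ![0, 0, 0, -1, 0, 0, 0, 1, -1, 0] else ![0, 0, 0, 0, 1, 0, 0, 0, 0, 0]

/-- Weights of path ports. -/
def wt {L : ℕ} (S : ℕ → ℕ) (W : ℕ) (i : ZMod (L + 1)) (b : Bool) : Fin 10 → ℕ :=
  bif b then ![1, 0, 0, if i = 0 then W else 0, 0, 0, 0, if i + 1 = 0 then W else 0, 0, W]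
  else ![if i = 0 then W else S i.val - S (i.val - 1), 1, 0, 0, 0, 0, 0, 0,
    if i = 0 then W else S i.val - S (i.val - 1), W]

/-- Pairing of ports. -/
def sg {L s : ℕ} : (ZMod (L + 1) × Fin 10) × Pt s → (ZMod (L + 1) × Fin 10) × Pt s
  | ((i, v), inl b) => ((i + (ms b v : ℤ), mv b v), inl (mb b v))
  | ((i, v), inr j) => ((i, spk v), inr j)

/-- Weights. -/
def wg {L s : ℕ} (S : ℕ → ℕ) (W : ℕ) : (ZMod (L + 1) × Fin 10) × Pt s → ℕ
  | ((i, v), inl b) => wt S W i b v
  | (_, inr j) => if j = 0 then 0 else 1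

/-- The chain of couplers. -/
def chain (L s : ℕ) (S : ℕ → ℕ) (W : ℕ) (hW : W ≠ 0) : Net (s + 4) where
  N := ZMod (L + 1) × Fin 10
  Po := (ZMod (L + 1) × Fin 10) × Pt s
  finN := inferInstance
  finP := inferInstance
  nd := Prod.fst
  σ := sg
  w := wg S W
  inv := by
    rintro ⟨⟨i, v⟩, b | j⟩
    · have h1 : ∀ b v, mv (mb b v) (mv b v) = v := by decide
      have h2 : ∀ b v, mb (mb b v) (mv b v) = b := by decide
      have h3 : ∀ b v, ms (mb b v) (mv b v) = -ms b v := by decide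
      simp [sg, h1, h2, h3]
    · have h1 : ∀ v, spk (spk v) = v := by decide
      simp [sg, h1]
  ne := by
    rintro ⟨⟨i, v⟩, b | j⟩
    · have h1 : ∀ b v, mv b v = v → mb b v ≠ b := by decide
      simp only [sg, ne_eq, Prod.mk.injEq, inl.injEq, not_and]
      exact fun h => h1 b v h.2
    · have h1 : ∀ v, spk v ≠ v := by decide
      simp [sg, h1]
  wσ := by
    rintro ⟨⟨i, v⟩, b | j⟩
    · fin_cases v <;> cases b <;> simp [sg, wg, wt, mv, mb, ms]
    · simp [sg, wg]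
  deg := by
    intro v
    have : {p : (ZMod (L + 1) × Fin 10) × Pt s | p.1 = v} = (fun a => (v, a)) '' Set.univ := by
      ext ⟨x, a⟩; simp [eq_comm]
    rw [this, Set.ncard_image_of_injective _ (Prod.mk_right_injective v), Set.ncard_univ]
    simp; omega
  noloop := by
    rintro ⟨⟨i, v⟩, b | j⟩ h
    · have h1 : ∀ b v, mv b v = v → v = 9 := by decide
      intro e
      have := h1 b v (congrArg Prod.snd e)
      subst this
      cases b <;> exact hW h
    · have h1 : ∀ v, spk v ≠ v := by decide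
      exact fun e => h1 v (congrArg Prod.snd e)
  nopar := by
    rintro ⟨⟨i, v⟩, p⟩ ⟨⟨i', v'⟩, q⟩ hp hq e1 e2
    obtain ⟨rfl, rfl⟩ : i = i' ∧ v = v' := Prod.mk.inj e1
    have h1 : ∀ b b' v, mv b v = mv b' v → b = b' ∨ v = 9 := by decide
    have h2 : ∀ b v, mv b v ≠ spk v := by decide
    have e3 := congrArg Prod.snd e2
    rcases p with b | j <;> rcases q with b' | j'
    · rcases h1 b b' v e3 with rfl | rfl
      · rfl
      · cases b <;> exact absurd hp hW
    · exact absurd e3 (h2 b v)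
    · exact absurd e3.symm (h2 b' v)
    · have a1 : j = 0 := by by_contra h; simp [wg, h] at hp
      have a2 : j' = 0 := by by_contra h; simp [wg, h] at hq
      rw [a1, a2]

lemma val_pred {L : ℕ} {i : ZMod (L + 1)} (hi : i ≠ 0) :
    ∃ t, t < L ∧ i.val = t + 1 ∧ (i - 1).val = t := by
  have h1 : i.val ≠ 0 := fun e => hi ((ZMod.val_eq_zero _).mp e)
  have h2 := ZMod.val_lt i
  refine ⟨i.val - 1, by omega, by omega, ?_⟩
  have : i - 1 = ((i.val - 1 : ℕ) : ZMod (L + 1)) := by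
    rw [Nat.cast_sub (by omega)]; simp
  rw [this, ZMod.val_natCast_of_lt (by omega)]

theorem chain_lower {L s : ℕ} (hL : 1 ≤ L) {S : ℕ → ℕ} (hS : Monotone S) (hS0 : S 0 = 0) {W : ℕ}
    (hW : W ≠ 0) {r : ℝ} (hr0 : ((s + 4 : ℕ) : ℝ) ≤ r) (hr : r < (s + 4 : ℕ) + 1 / 4)
    (h : (chain L s S W hW).Feas r) : (L : ℝ) ≤ (r - (s + 4 : ℕ)) * (S L + 4 * L + 1) := by
  obtain ⟨c, hc1, hc2⟩ := h
  replace hc2 : ∀ p, Near r (wg S W p * (r - (s + 4 : ℕ))) (c p) (c (sg p)) := hc2
  have af : ∀ i v, AllFar r (fun p => c ((i, v), p)) := fun i v p q hne =>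
    hc1 _ _ (fun e => hne (congrArg Prod.snd e)) rfl
  have he : 0 ≤ r - (s + 4 : ℕ) := by linarith
  have sp : ∀ i v, Sp r (fun p => c ((i, v), p)) (fun p => c ((i, spk v), p)) := by
    intro i v
    refine ⟨by simpa [wg, sg] using hc2 ((i, v), inr 0), fun j => (hc2 ((i, v), inr j)).mono ?_⟩
    simp only [wg]
    split_ifs <;> simp only [Nat.cast_zero, Nat.cast_one] <;> linarith
  have cp : ∀ i : ZMod (L + 1), ∃ x y : ℝ, x ≤ 3 * (r - (s + 4 : ℕ)) ∧ y ≤ 2 * (r - (s + 4 : ℕ)) ∧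
      x + y ≤ 4 * (r - (s + 4 : ℕ)) ∧ Near r x (c ((i, 0), inl false)) (c ((i, 3), inl true)) ∧
      Near r y (c ((i, 4), inl false)) (c ((i, 7), inl true)) := by
    intro i
    refine coupler hr0 hr (af i 0) (af i 1) (af i 2) (af i 3) (af i 4) (af i 5) (af i 6) (af i 7)
      (sp i 0) (sp i 1) (sp i 2) (sp i 3) ?_ ?_ ?_ ?_ ?_ ?_
    · simpa [wg, sg, wt, mv, mb, ms] using hc2 ((i, 0), inl true)
    · simpa [wg, sg, wt, mv, mb, ms] using hc2 ((i, 1), inl true)
    · simpa [wg, sg, wt, mv, mb, ms] using hc2 ((i, 2), inl true)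
    · simpa [wg, sg, wt, mv, mb, ms] using hc2 ((i, 4), inl true)
    · simpa [wg, sg, wt, mv, mb, ms] using hc2 ((i, 5), inl true)
    · simpa [wg, sg, wt, mv, mb, ms] using hc2 ((i, 6), inl true)
  choose x y hx hy hxy nx ny using cp
  have loop : ∀ t, t < L → 1 ≤ ((S (t + 1) : ℝ) - S t) * (r - (s + 4 : ℕ)) +
      x ((t + 1 : ℕ) : ZMod (L + 1)) + y (t : ZMod (L + 1)) := by
    intro t ht
    set i : ZMod (L + 1) := ((t + 1 : ℕ) : ZMod (L + 1)) with hi
    have hv : i.val = t + 1 := ZMod.val_natCast_of_lt (by omega)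
    have hi0 : i ≠ 0 := fun e => by rw [e] at hv; simp at hv
    have hp : i + -1 = (t : ZMod (L + 1)) := by rw [hi]; push_cast; ring
    have n1 : Near r (((S (t + 1) : ℝ) - S t) * (r - (s + 4 : ℕ))) (c ((i, 8), inl false))
        (c ((i, 0), inl false)) := by
      have := hc2 ((i, 8), inl false)
      rw [← Nat.cast_sub (hS (Nat.le_succ t))]
      simpa [wg, sg, wt, mv, mb, ms, hi0, hv] using this
    have n2 : Near r 0 (c ((i, 3), inl true)) (c (((t : ZMod (L + 1)), 7), inl true)) := by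
      simpa [wg, sg, wt, mv, mb, ms, hi0, hp] using hc2 ((i, 3), inl true)
    have n3 : Near r 0 (c ((i, 8), inl true)) (c (((t : ZMod (L + 1)), 4), inl false)) := by
      simpa [wg, sg, wt, mv, mb, ms, hi0, hp] using hc2 ((i, 8), inl true)
    exact (af i 8 (inl false) (inl true) (by simp)).le
      ((((n1.trans (nx i)).trans0 n2).trans (ny _).symm).trans0 n3.symm)
  have ind : ∀ t, t ≤ L → (t : ℝ) + y (t : ZMod (L + 1)) ≤
      (r - (s + 4 : ℕ)) * (S t + 4 * t + 2) := by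
    intro t
    induction t with
    | zero => intro _; have := hy ((0 : ℕ) : ZMod (L + 1)); rw [hS0]; push_cast at this ⊢; linarith
    | succ t ih =>
      intro ht
      have a1 := ih (by omega)
      have a2 := loop t (by omega)
      have a3 := hxy ((t + 1 : ℕ) : ZMod (L + 1))
      rw [Nat.cast_succ (R := ℝ)]
      linarith
  obtain ⟨t, rfl⟩ : ∃ t, L = t + 1 := ⟨L - 1, by omega⟩
  have a1 := ind t (by omega)
  have a2 := loop t (by omega)
  have a3 := hx ((t + 1 : ℕ) : ZMod (t + 1 + 1))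
  rw [Nat.cast_succ (R := ℝ)]
  linarith

/-- Classes of path ports. -/
def cP (b : Bool) : Fin 10 → ℕ :=
  bif b then ![2, 0, 2, 0, 0, 2, 0, 2, 1, 1] else ![0, 2, 0, 2, 2, 0, 2, 0, 0, 0]
/-- Class of the rigid strand. -/
def cZ : Fin 10 → ℕ := ![1, 1, 1, 3, 1, 3, 1, 1, 2, 2]
/-- Class of the first elastic strand. -/
def cY : Fin 10 → ℕ := ![3, 3, 3, 1, 3, 1, 3, 3, 3, 3]

/-- Classes of all ports. -/
def cls {s : ℕ} (v : Fin 10) : Pt s → ℕ
  | inl b => cP b v
  | inr j => if j.val = 0 then cZ v else if j.val = 1 then cY v else j.val + 2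

lemma cls_lt {s : ℕ} (v : Fin 10) (p : Pt s) : cls v p < s + 4 := by
  have h1 : ∀ b v, cP b v < 4 := by decide
  have h2 : ∀ v, cZ v < 4 ∧ cY v < 4 := by decide
  rcases p with b | j
  · have := h1 b v; simp only [cls]; omega
  · have := h2 v; have := j.2; simp only [cls]; split_ifs <;> omega

lemma cls_inj {s : ℕ} (v : Fin 10) (p q : Pt s) (h : cls v p = cls v q) : p = q := by
  have h1 : ∀ b v, cP b v < 4 ∧ cP b v ≠ cZ v ∧ cP b v ≠ cY v := by decide
  have h2 : ∀ v, cZ v < 4 ∧ cY v < 4 ∧ cZ v ≠ cY v := by decide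
  have h3 : ∀ b b' v, cP b v = cP b' v → b = b' := by decide
  have := h2 v
  rcases p with b | j <;> rcases q with b' | j' <;> simp only [cls] at h
  · rw [h3 b b' v h]
  · have := h1 b v; split_ifs at h <;> omega
  · have := h1 b' v; split_ifs at h <;> omega
  · congr 1; apply Fin.ext; split_ifs at h <;> omega

/-- Offsets, in units of the excess. -/
def off (τ : ℝ) (v : Fin 10) (n : ℕ) : ℝ :=
  if n = 0 then ![0, 1 + τ, 1 + τ, 2 + τ, 2, 2, 1, 1, 0, 0] v
  else if n = 1 then ![1, 2, 1 + τ, 2 + τ, 2, 2, 1, 1 + τ, 0, 0] v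
  else if n = 2 then ![1, 2, 2 + τ, 2 + τ, 3, 2, 2, 1 + τ, 0, 0] v
  else ![1, 2, 2 + τ, 3, 3, 3, 2, 1 + τ, 0, 0] v

lemma off_ge (τ : ℝ) (v : Fin 10) {n : ℕ} (h : 3 ≤ n) : off τ v n = off τ v 3 := by
  simp only [off]
  rw [if_neg (by omega), if_neg (by omega), if_neg (by omega)]
  simp

lemma off_mono {τ : ℝ} (h0 : 0 ≤ τ) (h1 : τ ≤ 1) (v : Fin 10) {n m : ℕ} (h : n < m) :
    off τ v n ≤ off τ v m ∧ off τ v m ≤ off τ v n + 1 := by
  have a : off τ v 0 ≤ off τ v 1 ∧ off τ v 1 ≤ off τ v 2 ∧ off τ v 2 ≤ off τ v 3 ∧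
      off τ v 3 ≤ off τ v 0 + 1 := by
    fin_cases v <;> simp [off] <;> (try refine ⟨?_, ?_⟩) <;> linarith
  obtain ⟨a1, a2, a3, a4⟩ := a
  rcases le_or_gt 3 n with hn | hn
  · rw [off_ge τ v hn, off_ge τ v (show 3 ≤ m by omega)]; constructor <;> linarith
  rcases le_or_gt 3 m with hm | hm
  · rw [off_ge τ v hm]; interval_cases n <;> constructor <;> linarith
  · interval_cases m <;> interval_cases n <;> constructor <;> linarith

lemma off_spk {τ : ℝ} (h0 : 0 ≤ τ) (h1 : τ ≤ 1) (v : Fin 10) (n : ℕ) :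
    |off τ v n - off τ (spk v) n| ≤ 1 := by
  rw [abs_le]
  rcases le_or_gt 3 n with hn | hn
  · rw [off_ge τ v hn, off_ge τ _ hn]
    fin_cases v <;> simp [off, spk] <;> (try refine ⟨?_, ?_⟩) <;> linarith
  · interval_cases n <;> fin_cases v <;> simp [off, spk] <;> (try refine ⟨?_, ?_⟩) <;> linarith

lemma off_spk0 (τ : ℝ) (v : Fin 10) : off τ (spk v) (cZ v) = off τ v (cZ v) := by
  fin_cases v <;> simp [off, spk, cZ]

/-- Base colours. -/
noncomputable def base {L : ℕ} (ε : ℝ) (τ : ℕ → ℝ) (i : ZMod (L + 1)) (v : Fin 10) : ℝ :=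
  if v.val < 8 then i.val * (2 - ε) - τ i.val * ε
  else (i - 1).val * (2 - ε) - τ (i - 1).val * ε + 1 + 3 * ε

theorem chain_upper {L s : ℕ} {S : ℕ → ℕ} (hS : Monotone S) {W : ℕ} (hW : W ≠ 0) {ε ρ : ℝ}
    (hε : 0 < ε) (hρ : (4 + ρ) * ε = 1) (h0 : ∀ t : ℕ, 0 ≤ t * ρ - S t)
    (h1 : ∀ t : ℕ, t * ρ - S t ≤ 1) (hbig : (s + 4 : ℕ) + ε ≤ W * ε) :
    (chain L s S W hW).Feas ((s + 4 : ℕ) + ε) := by
  set τ : ℕ → ℝ := fun t => t * ρ - S t with hτ
  have hr : (0 : ℝ) < (s + 4 : ℕ) + ε := by positivity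
  refine ⟨fun p => base ε τ p.1.1 p.1.2 + cls p.1.2 p.2 + ε * off (τ p.1.1.val) p.1.2 (cls p.1.2 p.2),
    ?_, ?_⟩
  · rintro ⟨⟨i, v⟩, p⟩ ⟨⟨i', v'⟩, q⟩ hne e
    obtain ⟨rfl, rfl⟩ : i = i' ∧ v = v' := Prod.mk.inj e
    have key : ∀ p q : Pt s, cls v p < cls v q → Far ((s + 4 : ℕ) + ε)
        (base ε τ i v + cls v p + ε * off (τ i.val) v (cls v p))
        (base ε τ i v + cls v q + ε * off (τ i.val) v (cls v q)) := by
      intro p q h
      obtain ⟨a1, a2⟩ := off_mono (h0 i.val) (h1 i.val) v h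
      have b1 := mul_le_mul_of_nonneg_left a1 hε.le
      have b2 := mul_le_mul_of_nonneg_left a2 hε.le
      have b3 : (cls v p : ℝ) + 1 ≤ cls v q := by exact_mod_cast h
      have b4 : (cls v q : ℝ) + 1 ≤ (s + 4 : ℕ) := by exact_mod_cast cls_lt v q
      have b5 : (0 : ℝ) ≤ cls v p := by positivity
      apply Far.of_bounds <;> linarith
    rcases lt_trichotomy (cls v p) (cls v q) with h | h | h
    · exact key p q h
    · exact absurd (by rw [cls_inj v p q h]) hne
    · exact (key q p h).symm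
  · intro p
    rw [add_sub_cancel_left]
    show Near _ (wg S W p * ε) _ (base ε τ (sg p).1.1 (sg p).1.2 + cls (sg p).1.2 (sg p).2 +
      ε * off (τ (sg p).1.1.val) (sg p).1.2 (cls (sg p).1.2 (sg p).2))
    obtain ⟨⟨i, v⟩, b | j⟩ := p
    · have big : ∀ x y, Near ((s + 4 : ℕ) + ε) (W * ε) x y := Near.always hr hbig
      have c1 : Near ((s + 4 : ℕ) + ε) (wt S W i false 0 * ε) (base ε τ i 0) (base ε τ i 8) := by
        by_cases hi : i = 0
        · simpa [wt, hi] using big _ _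
        obtain ⟨t, -, e1, e2⟩ := val_pred hi
        apply Near.of_abs
        simp only [wt, base, hτ]
        simp only [hi, e1, e2, cond_false, Matrix.cons_val_zero, if_false, Nat.add_sub_cancel,
          Nat.cast_sub (hS (Nat.le_succ t))]
        rw [if_pos (by decide), if_neg (by decide)]
        have : (S t : ℝ) ≤ S (t + 1) := by exact_mod_cast hS (Nat.le_succ t)
        rw [abs_le]; push_cast
        constructor <;> nlinarith
      have c2 : ∀ i : ZMod (L + 1), Near ((s + 4 : ℕ) + ε) (wt S W i true 3 * ε)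
          (base ε τ i 3 + ε * (2 + τ i.val)) (base ε τ (i - 1) 7 + 2 + ε * (1 + τ (i - 1).val)) := by
        intro i
        by_cases hi : i = 0
        · simpa [wt, hi] using big _ _
        obtain ⟨t, -, e1, e2⟩ := val_pred hi
        apply Near.of_abs
        simp only [base]
        rw [if_pos (by decide), if_pos (by decide), e1, e2]
        simp [wt, hi]; ring
      fin_cases v <;> cases b
      · simpa [wg, sg, mv, mb, ms, cls, cP, off] using c1
      · apply Near.of_abs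
        simp [wg, wt, sg, mv, mb, ms, cls, cP, off, base]
        rw [abs_le]; constructor <;> linarith
      · apply Near.of_abs
        simp [wg, wt, sg, mv, mb, ms, cls, cP, off, base]
        rw [abs_le]; constructor <;> linarith
      · simpa [wg, wt, sg, mv, mb, ms, cls, cP, off, base] using Near.refl _ _
      · simpa [wg, wt, sg, mv, mb, ms, cls, cP, off, base] using Near.refl _ _
      · simpa [wg, wt, sg, mv, mb, ms, cls, cP, off, base] using Near.refl _ _
      · simpa [wg, wt, sg, mv, mb, ms, cls, cP, off, base] using Near.refl _ _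
      · simpa [wg, sg, mv, mb, ms, cls, cP, off, sub_eq_add_neg] using c2 i
      · apply Near.of_abs
        simp [wg, wt, sg, mv, mb, ms, cls, cP, off, base]
        ring
      · simpa [wg, wt, sg, mv, mb, ms, cls, cP, off, base] using Near.refl _ _
      · simpa [wg, wt, sg, mv, mb, ms, cls, cP, off, base] using Near.refl _ _
      · simpa [wg, wt, sg, mv, mb, ms, cls, cP, off, base] using Near.refl _ _
      · simpa [wg, wt, sg, mv, mb, ms, cls, cP, off, base] using Near.refl _ _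
      · simpa [wg, wt, sg, mv, mb, ms, cls, cP, off, base] using Near.refl _ _
      · simpa [wg, wt, sg, mv, mb, ms, cls, cP, off, base] using Near.refl _ _
      · simpa [wg, wt, sg, mv, mb, ms, cls, cP, off] using (c2 (i + 1)).symm
      · simpa [wg, wt, sg, mv, mb, ms, cls, cP, off] using c1.symm
      · apply Near.of_abs
        simp [wg, wt, sg, mv, mb, ms, cls, cP, off, base, sub_eq_add_neg]
        ring
      · simpa [wg, wt] using big _ _
      · simpa [wg, wt] using big _ _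
    · have e1 : base ε τ i (spk v) = base ε τ i v := by fin_cases v <;> simp [base, spk]
      have e2 : cls (spk v) (inr j : Pt s) = cls v (inr j) := by
        have h2 : ∀ v, cZ (spk v) = cZ v ∧ cY (spk v) = cY v := by decide
        simp only [cls, (h2 v).1, (h2 v).2]
      apply Near.of_abs
      simp only [sg, e1, e2, add_sub_add_left_eq_sub, ← mul_sub, abs_mul, abs_of_pos hε, wg]
      split_ifs with hj
      · subst hj
        simp [cls, off_spk0]
      · have := mul_le_mul_of_nonneg_left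
          (off_spk (τ := τ i.val) (h0 i.val) (h1 i.val) v (cls v (inr j : Pt s))) hε.le
        rw [Nat.cast_one, one_mul]
        rwa [mul_one] at this

theorem main (k : ℕ) (hk : 4 ≤ k) (he : Even k) (x : ℚ) (h1 : (k : ℚ) < x) (h2 : x < k + 1 / 4) :
    ∃ (n : ℕ) (G : SimpleGraph (Fin n)) (_ : DecidableRel G.Adj), G.IsRegularOfDegree k ∧
      IsLeast {r : ℝ | 1 ≤ r ∧ Col G r} (x : ℝ) := by
  obtain ⟨s, rfl⟩ : ∃ s, k = s + 4 := ⟨k - 4, by omega⟩
  set ε : ℝ := x - (s + 4 : ℕ) with hεd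
  have h1' : ((s + 4 : ℕ) : ℝ) < x := by exact_mod_cast h1
  have h2' : (x : ℝ) < (s + 4 : ℕ) + 1 / 4 := by
    have : ((x : ℚ) : ℝ) < (((s + 4 : ℕ) + 1 / 4 : ℚ) : ℝ) := by exact_mod_cast h2
    push_cast at this ⊢; linarith
  have hε : 0 < ε := by linarith
  set ρ : ℝ := 1 / ε - 4 with hρd
  have hρ : (4 + ρ) * ε = 1 := by rw [hρd]; field_simp; ring
  have hρ0 : 0 < ρ := by by_contra h; push Not at h; nlinarith
  obtain ⟨L, hL, M, hM⟩ : ∃ L : ℕ, 1 ≤ L ∧ ∃ M : ℤ, (L : ℝ) * ρ = M := by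
    set y : ℚ := 1 / (x - (s + 4 : ℕ)) - 4 with hy
    refine ⟨y.den, y.pos, y.num, ?_⟩
    have : ρ = (y : ℝ) := by rw [hρd, hy, hεd]; push_cast; ring
    rw [this]
    exact_mod_cast Rat.den_mul_eq_num y
  set S : ℕ → ℕ := fun t => ⌈(t : ℝ) * ρ⌉₊ - 1 with hSd
  have hS : Monotone S := fun a b hab => Nat.sub_le_sub_right
    (Nat.ceil_mono (mul_le_mul_of_nonneg_right (by exact_mod_cast hab) hρ0.le)) 1
  have hS0 : S 0 = 0 := by simp [hSd]
  have hSt : ∀ t : ℕ, 1 ≤ t → (S t : ℝ) = ⌈(t : ℝ) * ρ⌉₊ - 1 := by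
    intro t ht
    have : 0 < (t : ℝ) * ρ := mul_pos (by exact_mod_cast ht) hρ0
    simp only [hSd]
    rw [Nat.cast_sub (Nat.one_le_ceil_iff.mpr this)]; simp
  have g0 : ∀ t : ℕ, 0 ≤ t * ρ - S t := by
    intro t
    rcases Nat.eq_zero_or_pos t with rfl | ht
    · simp [hS0]
    · rw [hSt t ht]
      have := Nat.ceil_lt_add_one (show 0 ≤ (t : ℝ) * ρ by positivity)
      linarith
  have g1 : ∀ t : ℕ, t * ρ - S t ≤ 1 := by
    intro t
    rcases Nat.eq_zero_or_pos t with rfl | ht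
    · simp [hS0]
    · rw [hSt t ht]
      have := Nat.le_ceil ((t : ℝ) * ρ)
      linarith
  have g2 : (S L : ℝ) = L * ρ - 1 := by
    rw [hSt L hL, hM]
    have : (0 : ℝ) ≤ M := by rw [← hM]; positivity
    have hM0 : 0 ≤ M := by exact_mod_cast this
    obtain ⟨M', rfl⟩ := Int.eq_ofNat_of_zero_le hM0
    simp
  obtain ⟨W, hW⟩ := exists_nat_ge (((s + 4 : ℕ) + ε) / ε)
  rw [div_le_iff₀ hε] at hW
  have hW0 : W ≠ 0 := by
    rintro rfl
    have : (0 : ℝ) < (s + 4 : ℕ) + ε := by positivity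
    simp only [Nat.cast_zero, zero_mul] at hW
    linarith
  obtain ⟨H, hH, hF⟩ := exists_rigid hk he (chain L s S W hW0)
  obtain ⟨n, G, dec, hreg, hG⟩ := exists_graph H hH
  have hk0 : (4 : ℝ) ≤ (s + 4 : ℕ) := by exact_mod_cast hk
  refine ⟨n, G, dec, hreg, ⟨by linarith, ?_⟩, ?_⟩
  · rw [hG _ (by linarith), hF _ h1'.le h2']
    have := chain_upper (L := L) hS hW0 hε hρ g0 g1 hW
    rwa [hεd, add_sub_cancel] at this
  · rintro r ⟨-, hr⟩
    by_contra hlt
    push Not at hlt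
    have a1 : ((s + 4 : ℕ) : ℝ) ≤ max r (s + 4 : ℕ) := le_max_right _ _
    have a2 : max r (s + 4 : ℕ) < x := max_lt hlt h1'
    have := hr.mono (le_max_left r ((s + 4 : ℕ) : ℝ))
    rw [hG _ (by linarith), hF _ a1 (by linarith)] at this
    have low := chain_lower hL hS hS0 hW0 a1 (by linarith) this
    rw [g2] at low
    have hL' : (1 : ℝ) ≤ L := by exact_mod_cast hL
    have b1 : max r (s + 4 : ℕ) - (s + 4 : ℕ) < ε := by linarith
    have b2 : (L : ℝ) * ρ - 1 + 4 * L + 1 = L * (4 + ρ) := by ring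
    rw [b2] at low
    have b3 := mul_lt_mul_of_pos_right b1 (show 0 < (L : ℝ) * (4 + ρ) by positivity)
    have b4 : ε * ((L : ℝ) * (4 + ρ)) = L := by linear_combination L * hρ
    linarith

end Pool.Agent.P.MP_3f5ded_co
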