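import Pool.Agent.P.MP_3f5ded_co.MData

set_option autoImplicit false

namespace Pool.Agent.P.MP_3f5ded_co

open Finset Sum

/-- A `k`-regular multigraph given by ports, with a weight on each edge; the edges of weight
zero form a simple graph. -/
structure Net (k : ℕ) : Type 1 where
  N : Type
  Po : Type
  finN : Fintype N
  finP : Fintype Po
  nd : Po → N
  σ : Po → Po
  w : Po → ℕ
  inv : ∀ p, σ (σ p) = p
  ne : ∀ p, σ p ≠ p
  wσ : ∀ p, w (σ p) = w p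
  deg : ∀ v, {p | nd p = v}.ncard = k
  noloop : ∀ p, w p = 0 → nd (σ p) ≠ nd p
  nopar : ∀ p q, w p = 0 → w q = 0 → nd p = nd q → nd (σ p) = nd (σ q) → p = q

instance {k : ℕ} (H : Net k) : Fintype H.N := H.finN
instance {k : ℕ} (H : Net k) : Fintype H.Po := H.finP

/-- Total weight. -/
def Net.total {k : ℕ} (H : Net k) : ℕ := ∑ p, H.w p

/-- Colourings in which an edge of weight `w` may drift by `w (r - k)`. -/
def Net.Feas {k : ℕ} (H : Net k) (r : ℝ) : Prop :=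
  ∃ c : H.Po → ℝ, (∀ p q, p ≠ q → H.nd p = H.nd q → Far r (c p) (c q)) ∧
    ∀ p, Near r (H.w p * (r - k)) (c p) (c (H.σ p))

section ins
variable {k : ℕ} (H : Net k) (p0 : H.Po) {W : Type} [Fintype W] [DecidableEq W] {ν : W → W}

/-- Ports of the inserted gadget. -/
abbrev PM (ν : W → W) : Type := {q : W × W // q.2 ∈ nb ν q.1}

/-- The other end of an edge of the gadget. -/
def sw (hν : ∀ x, ν (ν x) = x) (z : PM ν) : PM ν := ⟨(z.1.2, z.1.1), nb_symm hν z.2⟩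

lemma sw_sw (hν : ∀ x, ν (ν x) = x) (z : PM ν) : sw hν (sw hν z) = z := rfl

lemma sw_ne (hν : ∀ x, ν (ν x) = x) (z : PM ν) : sw hν z ≠ z := by
  intro h
  have := congrArg (fun z : PM ν => z.1.1) h
  exact (mem_nb.mp z.2).2 this

open Classical in
/-- Pairing after insertion. -/
noncomputable def σI (hν : ∀ x, ν (ν x) = x) (a : PM ν) : H.Po ⊕ PM ν → H.Po ⊕ PM ν
  | inl q => if q = p0 then inr a else if q = H.σ p0 then inr (sw hν a) else inl (H.σ q)
  | inr z => if z = a then inl p0 else if z = sw hν a then inl (H.σ p0) else inr (sw hν z)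

open Classical in
/-- Weights after insertion. -/
noncomputable def wI (hν : ∀ x, ν (ν x) = x) (a : PM ν) : H.Po ⊕ PM ν → ℕ
  | inl q => if q = p0 then 0 else if q = H.σ p0 then H.w p0 - 1 else H.w q
  | inr z => if z = sw hν a then H.w p0 - 1 else 0

/-- Vertices of ports after insertion. -/
def ndI : H.Po ⊕ PM ν → H.N ⊕ W
  | inl q => inl (H.nd q)
  | inr z => inr z.1.1

variable (hν : ∀ x, ν (ν x) = x) (a : PM ν)

lemma σ1 : σI H p0 hν a (inl p0) = inr a := by simp [σI]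
lemma σ2 : σI H p0 hν a (inl (H.σ p0)) = inr (sw hν a) := by simp [σI, H.ne p0]
lemma σ3 {q : H.Po} (h1 : q ≠ p0) (h2 : q ≠ H.σ p0) : σI H p0 hν a (inl q) = inl (H.σ q) := by
  simp [σI, h1, h2]
lemma σ4 : σI H p0 hν a (inr a) = inl p0 := by simp [σI]
lemma σ5 : σI H p0 hν a (inr (sw hν a)) = inl (H.σ p0) := by simp [σI, sw_ne hν a]
lemma σ6 {z : PM ν} (h1 : z ≠ a) (h2 : z ≠ sw hν a) : σI H p0 hν a (inr z) = inr (sw hν z) := by
  simp [σI, h1, h2]
lemma w1 : wI H p0 hν a (inl p0) = 0 := by simp [wI]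
lemma w2 : wI H p0 hν a (inl (H.σ p0)) = H.w p0 - 1 := by simp [wI, H.ne p0]
lemma w3 {q : H.Po} (h1 : q ≠ p0) (h2 : q ≠ H.σ p0) : wI H p0 hν a (inl q) = H.w q := by
  simp [wI, h1, h2]
lemma w4 : wI H p0 hν a (inr a) = 0 := by simp [wI, (sw_ne hν a).symm]
lemma w5 : wI H p0 hν a (inr (sw hν a)) = H.w p0 - 1 := by simp [wI]
lemma w6 {z : PM ν} (h2 : z ≠ sw hν a) : wI H p0 hν a (inr z) = 0 := by simp [wI, h2]

lemma casesI (p : H.Po ⊕ PM ν) : p = inl p0 ∨ p = inl (H.σ p0) ∨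
    (∃ q, p = inl q ∧ q ≠ p0 ∧ q ≠ H.σ p0 ∧ H.σ q ≠ p0 ∧ H.σ q ≠ H.σ p0) ∨ p = inr a ∨
    p = inr (sw hν a) ∨
    (∃ z, p = inr z ∧ z ≠ a ∧ z ≠ sw hν a ∧ sw hν z ≠ a ∧ sw hν z ≠ sw hν a) := by
  rcases p with q | z
  · by_cases h1 : q = p0
    · simp [h1]
    by_cases h2 : q = H.σ p0
    · simp [h2]
    refine Or.inr (Or.inr (Or.inl ⟨q, rfl, h1, h2, fun h => h2 ?_, fun h => h1 ?_⟩))
    · rw [← h, H.inv]
    · rw [← H.inv q, h, H.inv]
  · by_cases h1 : z = a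
    · simp [h1]
    by_cases h2 : z = sw hν a
    · simp [h2]
    refine Or.inr (Or.inr (Or.inr (Or.inr (Or.inr
      ⟨z, rfl, h1, h2, fun h => h2 ?_, fun h => h1 ?_⟩))))
    · rw [← h, sw_sw]
    · rw [← sw_sw hν z, h, sw_sw]

/-- The network after inserting one gadget into the edge at `p0`. -/
noncomputable def insertNet (hν' : ∀ x, ν x ≠ x) (hW : Fintype.card W = k + 2) : Net k where
  N := H.N ⊕ W
  Po := H.Po ⊕ PM ν
  finN := inferInstance
  finP := inferInstance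
  nd := ndI H
  σ := σI H p0 hν a
  w := wI H p0 hν a
  inv := by
    intro p
    rcases casesI H p0 hν a p with rfl | rfl | ⟨q, rfl, h1, h2, h3, h4⟩ | rfl | rfl |
      ⟨z, rfl, h1, h2, h3, h4⟩
    · rw [σ1, σ4]
    · rw [σ2, σ5]
    · rw [σ3 _ _ _ _ h1 h2, σ3 _ _ _ _ h3 h4, H.inv]
    · rw [σ4, σ1]
    · rw [σ5, σ2]
    · rw [σ6 _ _ _ _ h1 h2, σ6 _ _ _ _ h3 h4, sw_sw]
  ne := by
    intro p
    rcases casesI H p0 hν a p with rfl | rfl | ⟨q, rfl, h1, h2, h3, h4⟩ | rfl | rfl |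
      ⟨z, rfl, h1, h2, h3, h4⟩
    · rw [σ1]; simp
    · rw [σ2]; simp
    · rw [σ3 _ _ _ _ h1 h2]; simpa using H.ne q
    · rw [σ4]; simp
    · rw [σ5]; simp
    · rw [σ6 _ _ _ _ h1 h2]; simpa using sw_ne hν z
  wσ := by
    intro p
    rcases casesI H p0 hν a p with rfl | rfl | ⟨q, rfl, h1, h2, h3, h4⟩ | rfl | rfl |
      ⟨z, rfl, h1, h2, h3, h4⟩
    · rw [σ1, w1, w4]
    · rw [σ2, w2, w5]
    · rw [σ3 _ _ _ _ h1 h2, w3 _ _ _ _ h1 h2, w3 _ _ _ _ h3 h4, H.wσ]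
    · rw [σ4, w1, w4]
    · rw [σ5, w2, w5]
    · rw [σ6 _ _ _ _ h1 h2, w6 _ _ _ _ h2, w6 _ _ _ _ h4]
  deg := by
    rintro (v | x)
    · have : {p : H.Po ⊕ PM ν | ndI H p = inl v} = inl '' {p | H.nd p = v} := by
        ext (q | z) <;> simp [ndI]
      rw [this, Set.ncard_image_of_injective _ inl_injective, H.deg]
    · refine Eq.trans ?_ (card_nb hW hν' x)
      rw [← Set.ncard_coe_finset]
      symm
      refine Set.ncard_congr (fun y hy => inr ⟨(x, y), hy⟩) (fun y hy => rfl) ?_ ?_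
      · intro y z _ _ h
        simpa using h
      · rintro (q | ⟨⟨x', y⟩, hz⟩) h
        · simp [ndI] at h
        · simp only [Set.mem_ofPred_eq, ndI, inr.injEq] at h
          subst h
          exact ⟨y, hz, rfl⟩
  noloop := by
    intro p hp
    rcases casesI H p0 hν a p with rfl | rfl | ⟨q, rfl, h1, h2, h3, h4⟩ | rfl | rfl |
      ⟨z, rfl, h1, h2, h3, h4⟩
    · rw [σ1]; simp [ndI]
    · rw [σ2]; simp [ndI]
    · rw [σ3 _ _ _ _ h1 h2]
      rw [w3 _ _ _ _ h1 h2] at hp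
      simpa [ndI] using H.noloop q hp
    · rw [σ4]; simp [ndI]
    · rw [σ5]; simp [ndI]
    · rw [σ6 _ _ _ _ h1 h2]; simpa [ndI, sw] using (mem_nb.mp z.2).2
  nopar := by
    intro p p' hp hp' e1 e2
    have hane : a.1.2 ≠ a.1.1 := (mem_nb.mp a.2).2
    rcases casesI H p0 hν a p with rfl | rfl | ⟨q, rfl, h1, h2, h3, h4⟩ | rfl | rfl |
      ⟨z, rfl, h1, h2, h3, h4⟩ <;>
    rcases casesI H p0 hν a p' with rfl | rfl | ⟨q', rfl, h1', h2', h3', h4'⟩ | rfl | rfl |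
      ⟨z', rfl, h1', h2', h3', h4'⟩ <;>
    (try rfl) <;> (try (exfalso; simp [ndI] at e1; done))
    · rw [σ1, σ2] at e2; exact absurd (by simpa [ndI, sw] using e2.symm) hane
    · rw [σ1, σ3 _ _ _ _ h1' h2'] at e2; simp [ndI] at e2
    · rw [σ1, σ2] at e2; exact absurd (by simpa [ndI, sw] using e2) hane
    · rw [σ2, σ3 _ _ _ _ h1' h2'] at e2; simp [ndI] at e2
    · rw [σ1, σ3 _ _ _ _ h1 h2] at e2; simp [ndI] at e2
    · rw [σ2, σ3 _ _ _ _ h1 h2] at e2; simp [ndI] at e2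
    · rw [σ3 _ _ _ _ h1 h2, σ3 _ _ _ _ h1' h2'] at e2
      rw [w3 _ _ _ _ h1 h2] at hp
      rw [w3 _ _ _ _ h1' h2'] at hp'
      rw [H.nopar q q' hp hp' (by simpa [ndI] using e1) (by simpa [ndI] using e2)]
    · exact absurd (by simpa [ndI, sw] using e1.symm) hane
    · rw [σ4, σ6 _ _ _ _ h1' h2'] at e2; simp [ndI] at e2
    · exact absurd (by simpa [ndI, sw] using e1) hane
    · rw [σ5, σ6 _ _ _ _ h1' h2'] at e2; simp [ndI] at e2
    · rw [σ4, σ6 _ _ _ _ h1 h2] at e2; simp [ndI] at e2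
    · rw [σ5, σ6 _ _ _ _ h1 h2] at e2; simp [ndI] at e2
    · rw [σ6 _ _ _ _ h1 h2, σ6 _ _ _ _ h1' h2'] at e2
      congr 1
      apply Subtype.ext
      apply Prod.ext
      · simpa [ndI] using e1
      · simpa [ndI, sw] using e2

lemma total_insert (hν' : ∀ x, ν x ≠ x) (hW : Fintype.card W = k + 2) (h0 : H.w p0 ≠ 0) :
    (insertNet H p0 hν a hν' hW).total < H.total := by
  classical
  have e0 : (insertNet H p0 hν a hν' hW).total =
      ∑ q, wI H p0 hν a (inl q) + ∑ z, wI H p0 hν a (inr z) := Fintype.sum_sum_type _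
  have e1 : ∑ z, wI H p0 hν a (inr z) = H.w p0 - 1 := by simp [wI]
  have e2 : ∀ q, H.w q = wI H p0 hν a (inl q) + (if q = p0 then H.w p0 else 0) +
      (if q = H.σ p0 then 1 else 0) := by
    intro q
    by_cases h1 : q = p0
    · subst h1; simp [w1, (H.ne q).symm]
    by_cases h2 : q = H.σ p0
    · subst h2; simp [w2, h1, H.wσ]; omega
    simp [w3 _ _ _ _ h1 h2, h1, h2]
  have e3 : H.total = ∑ q, wI H p0 hν a (inl q) + H.w p0 + 1 := by
    unfold Net.total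
    rw [sum_congr rfl (fun q _ => e2 q), sum_add_distrib, sum_add_distrib]
    simp
  omega

lemma feas_of_insert (hk : 4 ≤ k) (he : Even k) (hν' : ∀ x, ν x ≠ x)
    (hW : Fintype.card W = k + 2) (h0 : H.w p0 ≠ 0) {r : ℝ} (hr0 : (k : ℝ) ≤ r)
    (hr : r < k + 1 / 4) (h : (insertNet H p0 hν a hν' hW).Feas r) : H.Feas r := by
  classical
  obtain ⟨c, hc1, hc2⟩ := h
  replace hc2 : ∀ p, Near r (wI H p0 hν a p * (r - k)) (c p) (c (σI H p0 hν a p)) := hc2
  set C : W → W → ℝ := fun x y => if h : y ∈ nb ν x then c (inr ⟨(x, y), h⟩) else 0 with hC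
  have hCz : ∀ z : PM ν, C z.1.1 z.1.2 = c (inr z) := fun z => by simp only [hC, dif_pos z.2]
  have hM : Near r (r - k) (C a.1.1 a.1.2) (C a.1.2 a.1.1) := by
    refine M_near hk he hW hν hν' a.2 hr0 hr (fun x y hy b1 b2 => ?_) (fun x y hy z hz hne => ?_)
    · have n1 : (⟨(x, y), hy⟩ : PM ν) ≠ a := fun e => b1 (by rw [← e]; exact ⟨rfl, rfl⟩)
      have n2 : (⟨(x, y), hy⟩ : PM ν) ≠ sw hν a := fun e => b2 (by
        rw [← sw_sw hν a, ← e]; exact ⟨rfl, rfl⟩)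
      have := hc2 (inr ⟨(x, y), hy⟩)
      rw [σ6 _ _ _ _ n1 n2, w6 _ _ _ _ n2, ← hCz, ← hCz] at this
      simpa [sw] using this
    · have := hc1 (inr ⟨(x, y), hy⟩) (inr ⟨(x, z), hz⟩)
        (fun e => hne (congrArg (fun t : PM ν => t.1.2) (inr_injective e))) rfl
      rwa [← hCz, ← hCz] at this
  have hM' : Near r (r - k) (c (inr a)) (c (inr (sw hν a))) := by
    rw [← hCz, ← hCz]; exact hM
  have main : Near r (H.w p0 * (r - k)) (c (inl p0)) (c (inl (H.σ p0))) := by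
    have b1 := hc2 (inl p0)
    have b2 := hc2 (inr (sw hν a))
    rw [σ1, w1] at b1
    rw [σ5, w5] at b2
    refine ((b1.trans hM').trans b2).mono (le_of_eq ?_)
    rw [Nat.cast_sub (by omega)]; push_cast; ring
  refine ⟨fun q => c (inl q), fun p q hne e => hc1 _ _ (fun e' => hne (inl_injective e')) (congrArg inl e), ?_⟩
  intro q
  by_cases h1 : q = p0
  · subst h1; exact main
  by_cases h2 : q = H.σ p0
  · subst h2; rw [H.inv, H.wσ]; exact main.symm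
  have := hc2 (inl q)
  rwa [σ3 _ _ _ _ h1 h2, w3 _ _ _ _ h1 h2] at this

lemma insert_of_feas (hν' : ∀ x, ν x ≠ x) (hW : Fintype.card W = k + 2) (h0 : H.w p0 ≠ 0)
    {cl : W → W → ℕ} (hs : ∀ x y, cl x y = cl y x) (hlt : ∀ x y, cl x y < k)
    (hinj : ∀ x, ∀ y ∈ nb ν x, ∀ z ∈ nb ν x, cl x y = cl x z → y = z) (hcl : cl a.1.1 a.1.2 = 0)
    {r : ℝ} (hr0 : (k : ℝ) ≤ r) (h : H.Feas r) : (insertNet H p0 hν a hν' hW).Feas r := by
  obtain ⟨c, hc1, hc2⟩ := h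
  obtain ⟨n, hn⟩ := hc2 p0
  have hw : (1 : ℝ) ≤ H.w p0 := by exact_mod_cast Nat.one_le_iff_ne_zero.mpr h0
  set d := c p0 - c (H.σ p0) - n * r with hd
  have hb : |c p0 - (c p0 - d / H.w p0)| ≤ r - k := by
    rw [sub_sub_cancel, abs_div, abs_of_pos (by linarith : (0 : ℝ) < H.w p0), div_le_iff₀ (by linarith)]
    linarith
  obtain ⟨C, e1, e2, hsym, hfar⟩ := M_colour (mem_nb.mp a.2).2 hs hlt hinj hcl hb
  have main : Near r ((H.w p0 - 1 : ℕ) * (r - k)) (C a.1.2 a.1.1) (c (H.σ p0)) := by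
    refine ⟨n, ?_⟩
    have : C a.1.2 a.1.1 - c (H.σ p0) - n * r = (H.w p0 - 1) * (d / H.w p0) := by
      rw [e2]; field_simp; rw [hd]; ring
    rw [this, abs_mul, abs_of_nonneg (by linarith), Nat.cast_sub (by omega)]
    rw [sub_sub_cancel] at hb
    push_cast
    exact mul_le_mul_of_nonneg_left hb (by linarith)
  refine ⟨Sum.elim c (fun z => C z.1.1 z.1.2), ?_, ?_⟩
  · rintro (p | z) (q | z') hne e
    · exact hc1 p q (fun e' => hne (congrArg inl e')) (inl_injective e)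
    · exact absurd e inl_ne_inr
    · exact absurd e inr_ne_inl
    · obtain ⟨⟨x, y⟩, hy⟩ := z
      obtain ⟨⟨x', y'⟩, hy'⟩ := z'
      have : x = x' := inr_injective e
      subst this
      exact hfar x y hy y' hy' (by rintro rfl; exact hne rfl)
  · intro p
    show Near r (wI H p0 hν a p * (r - k)) _ (Sum.elim c _ (σI H p0 hν a p))
    rcases casesI H p0 hν a p with rfl | rfl | ⟨q, rfl, h1, h2, h3, h4⟩ | rfl | rfl |
      ⟨z, rfl, h1, h2, h3, h4⟩
    · rw [σ1, w1]; simpa [e1] using Near.refl r _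
    · rw [σ2, w2]; exact main.symm
    · rw [σ3 _ _ _ _ h1 h2, w3 _ _ _ _ h1 h2]; exact hc2 q
    · rw [σ4, w4]; simpa [e1] using Near.refl r _
    · rw [σ5, w5]; exact main
    · rw [σ6 _ _ _ _ h1 h2, w6 _ _ _ _ h2]
      have := hsym z.1.1 z.1.2 (fun h => h1 (Subtype.ext (Prod.ext h.1 h.2)))
        (fun h => h2 (Subtype.ext (Prod.ext h.1 h.2)))
      simpa [sw, this] using Near.refl r _

end ins

theorem exists_rigid {k : ℕ} (hk : 4 ≤ k) (he : Even k) (H : Net k) :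
    ∃ H' : Net k, (∀ p, H'.w p = 0) ∧ ∀ r : ℝ, k ≤ r → r < k + 1 / 4 → (H'.Feas r ↔ H.Feas r) := by
  induction hn : H.total using Nat.strong_induction_on generalizing H with
  | _ n ih =>
    by_cases h : ∀ p, H.w p = 0
    · exact ⟨H, h, fun _ _ _ => Iff.rfl⟩
    push Not at h
    obtain ⟨p0, h0⟩ := h
    obtain ⟨ν, u, v, cl, hν, hν', huv, hs, hlt, hinj, hcl⟩ := exists_M hk he
    have hW : Fintype.card (Option (ZMod (k + 1))) = k + 2 := by simp
    obtain ⟨H', h1, h2⟩ := ih _ (hn ▸ total_insert H p0 hν ⟨(u, v), huv⟩ hν' hW h0) _ rfl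
    exact ⟨H', h1, fun r a b => (h2 r a b).trans
      ⟨feas_of_insert H p0 hν _ hk he hν' hW h0 a b,
        insert_of_feas H p0 hν _ hν' hW h0 hs hlt hinj hcl a⟩⟩

end Pool.Agent.P.MP_3f5ded_co
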