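import Pool.Agent.P.MP_3f5ded_co.GCore

set_option autoImplicit false

namespace Pool.Agent.P.MP_3f5ded_co.RRup

/-! Unit propagation on sets of literals, with a record of consequences for each literal. -/

noncomputable section

/-- `c` applied to sixteen applications of `s` -/
def u16 (α T : Type) (s : α → α) (x : α) (c : α → T) : T :=
  c (s (s (s (s (s (s (s (s (s (s (s (s (s (s (s (s x))))))))))))))))

/-- record `p`, found in its round -/
def pv (I od : Nat → Nat) (R : Nat) (H : Nat → Bo) (p : Nat) : Nat := Nat.rec (motive := fun _ => Nat) (I p)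
  (fun r _ => Bo.rec (motive := fun _ => Nat) (fun f => Nat.lor (f p) (nat_lit 0)) (H r)) (Nat.mod (od p) R)

/-- `c` applied to the propagation along hints `h`; `Q` contains the literals not known to be false -/
def prun (T : Type) (E v : Nat → Nat) (A B : Nat) (c : (Nat → Nat → Nat → Nat) → T) : T :=
  (fun (G : Nat → Nat) => (fun (s : (Nat → Nat → Nat → Nat → Nat → Nat → Nat) → Nat → Nat → Nat → Nat → Nat → Nat → Nat) =>
    u16 _ T s (itr s (fun _ _ _ _ _ _ => A) (nat_lit 100000)) fun x => u16 _ T s x fun y => u16 _ T s y fun z =>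
      u16 _ T s z fun k => c fun w h Q => Nat.rec (motive := fun _ => Nat) Q (k w (Nat.div h w) Q (nat_lit 0)) (Nat.mod h w))
    fun k w h Q e q _ => Nat.rec (motive := fun _ => Nat)
      (Nat.rec (motive := fun _ => Nat) (Nat.land Q (G q)) (fun _ _ => A) (Nat.lor e (Nat.land (E q) Q)))
      (k w (Nat.div h w) (Nat.land Q (G q)) (Nat.lor e (Nat.land (E q) Q))) (Nat.mod h w))
    fun q => Nat.rec (motive := fun _ => Nat) (nat_lit 0) (fun p _ => v p) (Nat.xor (Nat.mod q B) (nat_lit 1))

/-- `t` applied to the function that gives the other literals of the clause of a step -/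
def pe (D : Nat → Nat) (B : Nat) (t : (Nat → Nat) → Nat) : Nat :=
  (fun (s : (Nat → Nat → Nat → Nat → Nat) → Nat → Nat → Nat → Nat → Nat) =>
    u16 _ Nat s (itr s (fun _ _ _ _ => nat_lit 1) (nat_lit 128)) fun k => (fun (M : Nat → Nat) => t fun q =>
      Nat.rec (motive := fun _ => Nat) (Nat.xor (nat_lit 1) (Nat.shiftLeft (nat_lit 1) (Nat.mod q B)))
        (fun z _ => Nat.xor (M z) (Nat.shiftLeft (nat_lit 1) (Nat.mod q B))) (Nat.div q B))
      fun z => Nat.rec (motive := fun _ => Nat) (nat_lit 0) (k (Nat.div (D z) B) (nat_lit 1)) (Nat.mod (D z) B))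
    fun k c a p _ => Nat.rec (motive := fun _ => Nat) (Nat.xor (Nat.lor (Nat.lor (Nat.lor a (Nat.shiftLeft (nat_lit 2) p)) (Nat.shiftLeft (nat_lit 1) (Nat.mod c B)))
            (Nat.shiftLeft (nat_lit 1) (Nat.mod (Nat.div c B) B))) (nat_lit 1))
      (k (Nat.div (Nat.div (Nat.div c B) B) B) (Nat.lor (Nat.lor (Nat.lor a (Nat.shiftLeft (nat_lit 2) p)) (Nat.shiftLeft (nat_lit 1) (Nat.mod c B)))
            (Nat.shiftLeft (nat_lit 1) (Nat.mod (Nat.div c B) B)))) (Nat.mod (Nat.div (Nat.div c B) B) B)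

/-- `t` applied to the function that intersects `Z` with the records of the digits of a clause -/
def pi0 (v : Nat → Nat) (B Z : Nat) (t : (Nat → Nat) → Nat) : Nat :=
  (fun (s : (Nat → Nat → Nat → Nat → Nat) → Nat → Nat → Nat → Nat → Nat) =>
    u16 _ Nat s (itr s (fun _ a _ _ => a) (nat_lit 128)) fun x => u16 _ Nat s x fun k =>
      t fun c => Nat.rec (motive := fun _ => Nat) Z (k (Nat.div c B) Z) (Nat.mod c B))
    fun k c a p _ => Nat.rec (motive := fun _ => Nat) (Nat.land a (v p)) (k (Nat.div c B) (Nat.land a (v p))) (Nat.mod c B)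

/-- a block proves the clauses from `m` to `m'` -/
def pblk (D oh od : Nat → Nat) (bh B R m m' : Nat) : Nat :=
  Nat.rec (motive := fun _ => Nat) (nat_lit 1) (fun A _ => pe D B fun E =>
    (fun (I : Nat → Nat) (w : Nat) => (fun (Z : Nat) => (fun (v : Nat → Nat) =>
      pi0 v B Z fun g => prun Nat E v A B fun f =>
        allZ (fun z => f (Nat.succ (Nat.mul (Nat.succ z) B)) (oh z) (g (D z))) m m')
      (pv I od R (hs (fun H => prun Bo E (pv I od R H) A B fun f =>
        Bo.mk fun p => f w (Nat.div (od p) R) (Nat.land Z (I p))) I (nat_lit 0) R)))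
      (prun Nat E I A B fun f => f w bh (Nat.xor A (nat_lit 2))))
      (fun p => Nat.xor A (Nat.shiftLeft (nat_lit 2) p)) (Nat.succ (Nat.mul (Nat.succ m) B)))
    (Nat.shiftLeft (nat_lit 1) B)

/-- the code of the literal `p + 1` -/
def tl (ta : Nat → Nat) (p : Nat) : Nat :=
  Nat.add (Nat.mul (nat_lit 2) (Nat.mod (ta (Nat.div (Nat.succ p) (nat_lit 2))) (nat_lit 524288))) (Nat.mod (Nat.succ p) (nat_lit 2))

/-- the codes of the digits of a clause -/
def trS (B : Nat) (f : Nat → Nat) (k : Nat → Nat) (c : Nat) : Nat := Nat.rec (motive := fun _ => Nat) (nat_lit 0)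
  (fun p _ => Nat.add (f p) (Nat.shiftLeft (k (Nat.div c B)) (nat_lit 20))) (Nat.mod c B)

/-- the test `chk` of the clauses from `m` to `m'` with their hints -/
def ptz (chk : Nat → Nat → Nat) (D h ta : Nat → Nat) (B m m' : Nat) : Nat := (fun (f : Nat → Nat) =>
  allZ (fun z => chk (Nat.shiftLeft (f (D z)) (nat_lit 56)) (h z)) m m') (itr (trS B (tl ta)) (fun _ => nat_lit 0) (nat_lit 128))

end

end Pool.Agent.P.MP_3f5ded_co.RRup
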