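import Pool.Agent.P.MP_3f5ded_co.GRup
import Pool.Agent.P.MP_3f5ded_co.PCore

set_option autoImplicit false

namespace Pool.Agent.P.MP_3f5ded_co.RRup

/-! Soundness of unit propagation on sets of literals. -/

/-- `l` is a digit in base `B`, before any zero -/
inductive Mem (B l : ℕ) : ℕ → Prop
  | hd {c : ℕ} : c % B ≠ 0 → c % B = l → Mem B l c
  | tl {c : ℕ} : c % B ≠ 0 → Mem B l (c / B) → Mem B l c

/-- a clause in base `B` holds -/
def SatD (P : ℕ → Prop) (B c : ℕ) : Prop := ∃ l, Mem B l c ∧ Tr P l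

/-- a set holds a true literal -/
def SatM (P : ℕ → Prop) (B M : ℕ) : Prop := ∃ l < B, M.testBit l = true ∧ Tr P l

/-- a set holds all true literals -/
def Fa (P : ℕ → Prop) (B Q : ℕ) : Prop := ∀ l < B, Tr P l → Q.testBit l = true

/-- records of false literals -/
def Rec (P : ℕ → Prop) (B : ℕ) (v : ℕ → ℕ) : Prop := ∀ p, ¬ Tr P (p + 1) → Fa P B (v p)

variable {P : ℕ → Prop} {B : ℕ}

theorem Fa.and {a b : ℕ} (h : Fa P B a) (g : Fa P B b) : Fa P B (a &&& b) := fun l x t => by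
  rw [Nat.testBit_and, h l x t, g l x t]
  rfl

theorem shl_two (p l : ℕ) : (2 <<< p).testBit l = decide (l = p + 1) := by
  rw [Nat.shiftLeft_eq, ← pow_succ', Nat.testBit_two_pow]
  simp [eq_comm]

theorem SatM.one (h0 : P 0) (hB : 0 < B) : SatM P B 1 := ⟨0, hB, rfl, (Tr_even 0).2 h0⟩

theorem u16_eq {α T : Type} (s : α → α) (x : α) (c : α → T) : u16 α T s x c = c (s^[16] x) := rfl

theorem it_ok {α : Type} {J : α → Prop} {s : α → α} (hs : ∀ k, J k → J (s k)) {z : α} (hz : J z)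
    (n : ℕ) : J (s^[n] z) := by
  induction n with
  | zero => exact hz
  | succ n ih => exact (Function.iterate_succ_apply' s n z).symm ▸ hs _ ih

noncomputable section

def mkS (B : ℕ) (k : ℕ → ℕ → ℕ → ℕ → ℕ) (c a p _i : ℕ) : ℕ := Nat.rec (motive := fun _ => ℕ)
  ((a ||| 2 <<< p ||| 1 <<< (c % B) ||| 1 <<< (c / B % B)) ^^^ 1)
  (k (c / B / B / B) (a ||| 2 <<< p ||| 1 <<< (c % B) ||| 1 <<< (c / B % B))) (c / B / B % B)

def inS (B : ℕ) (v : ℕ → ℕ) (k : ℕ → ℕ → ℕ → ℕ → ℕ) (c a p _i : ℕ) : ℕ :=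
  Nat.rec (motive := fun _ => ℕ) (a &&& v p) (k (c / B) (a &&& v p)) (c % B)

def rS (E G : ℕ → ℕ) (A : ℕ) (k : ℕ → ℕ → ℕ → ℕ → ℕ → ℕ → ℕ) (w h Q e q _i : ℕ) : ℕ :=
  Nat.rec (motive := fun _ => ℕ) (Nat.rec (motive := fun _ => ℕ) (Q &&& G q) (fun _ _ => A)
    (e ||| (E q &&& Q))) (k w (h / w) (Q &&& G q) (e ||| (E q &&& Q))) (h % w)

def pn (v : ℕ → ℕ) (B q : ℕ) : ℕ := Nat.rec (motive := fun _ => ℕ) 0 (fun p _ => v p) (q % B ^^^ 1)

def pM (D : ℕ → ℕ) (B z : ℕ) : ℕ := Nat.rec (motive := fun _ => ℕ) 0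
  ((mkS B)^[16] (itr (mkS B) (fun _ _ _ _ => 1) 128) (D z / B) 1) (D z % B)

def pE (M : ℕ → ℕ) (B q : ℕ) : ℕ := Nat.rec (motive := fun _ => ℕ) (1 ^^^ 1 <<< (q % B))
  (fun z _ => M z ^^^ 1 <<< (q % B)) (q / B)

def pG (v : ℕ → ℕ) (B Z c : ℕ) : ℕ := Nat.rec (motive := fun _ => ℕ) Z
  ((inS B v)^[16] ((inS B v)^[16] (itr (inS B v) (fun _ a _ _ => a) 128)) (c / B) Z) (c % B)

def pF (E v : ℕ → ℕ) (A B w h Q : ℕ) : ℕ := Nat.rec (motive := fun _ => ℕ) Q
  ((rS E (pn v B) A)^[16] ((rS E (pn v B) A)^[16] ((rS E (pn v B) A)^[16] ((rS E (pn v B) A)^[16]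
    (itr (rS E (pn v B) A) (fun _ _ _ _ _ _ => A) 100000)))) w (h / w) Q 0) (h % w)

end

theorem pe_eq (D : ℕ → ℕ) (t : (ℕ → ℕ) → ℕ) : pe D B t = t (pE (pM D B) B) := by
  simp only [pe, u16_eq]
  rfl

theorem pi0_eq (v : ℕ → ℕ) (Z : ℕ) (t : (ℕ → ℕ) → ℕ) : pi0 v B Z t = t (pG v B Z) := by
  simp only [pi0, u16_eq]
  rfl

theorem prun_eq (T : Type) (E v : ℕ → ℕ) (A : ℕ) (c : (ℕ → ℕ → ℕ → ℕ) → T) :
    prun T E v A B c = c (pF E v A B) := by
  simp only [prun, u16_eq]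
  rfl

theorem Mem.cases {l c : ℕ} (h : Mem B l c) : c % B ≠ 0 ∧ (c % B = l ∨ Mem B l (c / B)) := by
  cases h with
  | hd a b => exact ⟨a, .inl b⟩
  | tl a b => exact ⟨a, .inr b⟩

theorem Mem.lt (hB : 0 < B) {l c : ℕ} (h : Mem B l c) : l ≠ 0 ∧ l < B := by
  induction h with
  | hd a b => exact b ▸ ⟨a, Nat.mod_lt _ hB⟩
  | tl _ _ ih => exact ih

theorem pM_ok (h0 : P 0) (hB : 0 < B) {D : ℕ → ℕ} {z : ℕ} (h : SatD P B (D z)) : SatM P B (pM D B z) := by
  obtain ⟨l, m, t⟩ := h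
  have y := m.lt hB
  have key : ∀ k : ℕ → ℕ → ℕ → ℕ → ℕ, (∀ c a p i, a.testBit l = true ∨ p + 1 = l ∨ Mem B l c →
      SatM P B (k c a p i)) → ∀ c a p i, a.testBit l = true ∨ p + 1 = l ∨ Mem B l c →
      SatM P B (mkS B k c a p i) := fun k hk c a p i x => by
    have b : (a ||| 2 <<< p ||| 1 <<< (c % B) ||| 1 <<< (c / B % B)).testBit l = true ∨
        Mem B l (c / B / B) := by
      simp only [Nat.testBit_or, shl_two, Nat.one_shiftLeft, Nat.testBit_two_pow]
      rcases x with x | x | x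
      · simp [x]
      · simp [x]
      · rcases x.cases.2 with x | x
        · simp [x]
        · exact x.cases.2.imp_left fun x => by simp [x]
    unfold mkS
    cases e : c / B / B % B with
    | zero =>
      refine ⟨l, y.2, ?_, t⟩
      have f : Nat.testBit 1 l = false := Nat.testBit_two_pow_of_ne (n := 0) y.1.symm
      exact (Nat.testBit_xor ..).trans (by rw [b.resolve_right fun x => x.cases.1 e, f]; rfl)
    | succ r => exact hk _ _ _ _ (b.imp_right fun x => e ▸ x.cases.2)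
  unfold pM
  cases e : D z % B with
  | zero => exact absurd e m.cases.1
  | succ p =>
    rw [itr_eq]
    exact it_ok key (it_ok key (fun _ _ _ _ _ => .one h0 hB) _) _ _ _ _ _ (.inr (e ▸ m.cases.2))

theorem pG_ok {v : ℕ → ℕ} (hv : Rec P B v) {Z c : ℕ} (h : ¬ SatD P B c) (g : Fa P B Z) :
    Fa P B (pG v B Z c) := by
  have key : ∀ k : ℕ → ℕ → ℕ → ℕ → ℕ, (∀ c a p i, ¬ SatD P B c → ¬ Tr P (p + 1) → Fa P B a →
      Fa P B (k c a p i)) → ∀ c a p i, ¬ SatD P B c → ¬ Tr P (p + 1) → Fa P B a →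
      Fa P B (inS B v k c a p i) := fun k hk c a p i h t g => by
    unfold inS
    cases e : c % B with
    | zero => exact g.and (hv p t)
    | succ r =>
      exact hk _ _ _ _ (fun ⟨l, m, t⟩ => h ⟨l, .tl (by omega) m, t⟩)
        (fun t => h ⟨_, .hd (by omega) e, t⟩) (g.and (hv p t))
  unfold pG
  cases e : c % B with
  | zero => exact g
  | succ r =>
    rw [itr_eq]
    exact it_ok key (it_ok key (it_ok key (fun _ _ _ _ _ _ g => g) _) _) _ _ _ _ _
      (fun ⟨l, m, t⟩ => h ⟨l, .tl (by omega) m, t⟩) (fun t => h ⟨_, .hd (by omega) e, t⟩) g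

theorem step_ok (h0 : P 0) (hB : 0 < B) {M v : ℕ → ℕ} {z : ℕ} (hv : Rec P B v)
    (hM : ∀ y < z, SatM P B (M y)) {q Q : ℕ} (x : q < (z + 1) * B) (g : Fa P B Q)
    (e : pE M B q &&& Q = 0) : Fa P B (pn v B q) := by
  have d : q / B < z + 1 := (Nat.div_lt_iff_lt_mul hB).2 x
  obtain ⟨N, ⟨l, a, b, t⟩, f⟩ : ∃ N, SatM P B N ∧ pE M B q = N ^^^ 1 <<< (q % B) := by
    unfold pE
    cases y : q / B with
    | zero => exact ⟨_, .one h0 hB, rfl⟩
    | succ r => exact ⟨_, hM r (by omega), rfl⟩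
  have u := congrArg (·.testBit l) e
  simp only [f] at u
  rw [Nat.testBit_and, Nat.testBit_xor, b, g l a t, Nat.one_shiftLeft, Nat.testBit_two_pow] at u
  have s := Tr_xor (show Tr P (q % B) by
    rwa [show q % B = l by simpa using u])
  unfold pn
  cases y : q % B ^^^ 1 with
  | zero => exact absurd ((Tr_even 0).2 h0) (by rwa [y] at s)
  | succ p => exact hv p (y ▸ s)

theorem prun_ok (h0 : P 0) (hB : 0 < B) {M v : ℕ → ℕ} {A z : ℕ} (hA : Fa P B A) (hv : Rec P B v)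
    (hM : ∀ y < z, SatM P B (M y)) (h : ℕ) {Q : ℕ} (hQ : Fa P B Q) :
    Fa P B (pF (pE M B) v A B ((z + 1) * B + 1) h Q) := by
  generalize hw : (z + 1) * B = w
  have y : ∀ h, h % (w + 1) < w + 1 := fun h => Nat.mod_lt h (Nat.succ_pos w)
  have key : ∀ k : ℕ → ℕ → ℕ → ℕ → ℕ → ℕ → ℕ, (∀ h Q e q i, q < w → (e = 0 → Fa P B Q) →
      Fa P B (k (w + 1) h Q e q i)) → ∀ h Q e q i, q < w → (e = 0 → Fa P B Q) →
      Fa P B (rS (pE M B) (pn v B) A k (w + 1) h Q e q i) := fun k hk h Q e q i x g => by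
    have f : e ||| (pE M B q &&& Q) = 0 → Fa P B (Q &&& pn v B q) := fun z => by
      rw [Nat.or_eq_zero_iff] at z
      exact (g z.1).and (step_ok h0 hB hv hM (hw ▸ x) (g z.1) z.2)
    have := y h
    unfold rS
    cases b : h % (w + 1) with
    | zero =>
      cases c : e ||| (pE M B q &&& Q) with
      | zero => exact f c
      | succ _ => exact hA
    | succ r => exact hk _ _ _ _ _ (by omega) f
  have := y h
  unfold pF
  cases b : h % (w + 1) with
  | zero => exact hQ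
  | succ r =>
    rw [itr_eq]
    exact it_ok key (it_ok key (it_ok key (it_ok key (it_ok key (fun _ _ _ _ _ _ _ => hA) _) _) _) _) _
      _ _ _ _ _ (by omega) fun _ => hQ

theorem pv_ok {I od : ℕ → ℕ} {H : ℕ → Bo} (hI : Rec P B I) (hH : ∀ r, Rec P B (H r).f) (R : ℕ) :
    Rec P B (pv I od R H) := fun p t => by
  unfold pv
  cases Nat.mod (od p) R with
  | zero => exact hI p t
  | succ r =>
    have := hH r p t
    change Fa P B (Bo.rec (motive := fun _ => ℕ) (fun f => f p ||| 0) (H r))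
    cases e : H r
    rw [e] at this
    exact (congrArg (Fa P B) (Nat.or_zero _)).mpr this

theorem hs_rec {V : (ℕ → Bo) → Bo} {I : ℕ → ℕ} (hI : Rec P B I)
    (hV : ∀ H : ℕ → Bo, (∀ r, Rec P B (H r).f) → Rec P B (V H).f) (b n : ℕ) :
    ∀ r, Rec P B (hs V I b n r).f := by
  induction n with
  | zero => exact fun _ => hI
  | succ n ih =>
    intro r
    change Rec P B (Bool.rec (motive := fun _ => Bo) (hs V I b n r) (V (hs V I b n))
      (Nat.beq r (n + b))).f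
    cases Nat.beq r (n + b)
    exacts [ih r, hV _ ih]

theorem pblk_sat (h0 : P 0) (hB : 0 < B) {D oh od : ℕ → ℕ} {bh R m m' : ℕ}
    (h : pblk D oh od bh B R m m' = 0) (hD : ∀ z < m, SatD P B (D z)) : ∀ z < m', SatD P B (D z) := by
  obtain ⟨A, e⟩ : ∃ A, Nat.shiftLeft 1 B = A + 1 :=
    Nat.exists_eq_add_one.2 (by rw [Nat.shiftLeft_eq', Nat.one_shiftLeft]; positivity)
  have hA : ∀ l < B, A.testBit l = true := fun l x => by
    rw [Nat.shiftLeft_eq', Nat.one_shiftLeft] at e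
    rw [show A = 2 ^ B - 1 by omega, Nat.testBit_two_pow_sub_one, decide_eq_true x]
  have fA : Fa P B A := fun l x _ => hA l x
  have hI : Rec P B fun p => A ^^^ 2 <<< p := fun p t l x s => by
    rw [Nat.testBit_xor, hA l x, shl_two, decide_eq_false fun y : l = p + 1 => t (y ▸ s)]
    rfl
  unfold pblk at h
  rw [show Nat.shiftLeft (nat_lit 1) B = A + 1 from e] at h
  simp only [pe_eq, pi0_eq, prun_eq] at h
  intro z
  induction z using Nat.strong_induction_on with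
  | _ z ih =>
    intro hz
    refine (Nat.lt_or_ge z m).elim (hD z) fun hm => by_contra fun c => ?_
    have hM : ∀ y < z, SatM P B (pM D B y) := fun y x => pM_ok h0 hB (ih y x (x.trans hz))
    have hM' := fun y (x : y < m) => hM y (x.trans_le hm)
    have hZ := prun_ok h0 hB fA hI hM' bh (hI 0 fun t => (Tr_odd 0).1 t h0)
    have hv := pv_ok (od := od) hI (hs_rec (V := fun H => Bo.mk fun p => _) hI (fun H g p t =>
      prun_ok h0 hB fA (pv_ok (od := od) hI g R) hM' (od p / R) (hZ.and (hI p t))) 0 R) R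
    have := prun_ok h0 hB fA hv hM (oh z) (pG_ok hv c hZ) 0 hB ((Tr_even 0).2 h0)
    exact absurd ((congrArg (·.testBit 0) (allZ_ok h z hm hz)).symm.trans this) (by simp)

theorem tr_ok {f : ℕ → ℕ} (hf : ∀ p, f p < 1048576) {l : ℕ} (n : ℕ) : ∀ c k,
    MemD l k ((trS B f)^[n] (fun _ => 0) c) → ∃ p, Mem B (p + 1) c ∧ f p = l := by
  have z : ∀ k, ¬ MemD l k 0 := fun k h => (MemD.dg k _ h).zero
  induction n with
  | zero => exact fun _ k h => (z k h).elim
  | succ n ih =>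
    intro c k h
    rw [Function.iterate_succ_apply'] at h
    change MemD l k (Nat.rec (motive := fun _ => ℕ) 0
      (fun p _ => f p + (trS B f)^[n] (fun _ => 0) (c / B) <<< 20) (c % B)) at h
    cases e : c % B with
    | zero => exact (z k (by rwa [e] at h)).elim
    | succ p =>
      rw [e] at h
      have y := hf p
      cases k with
      | zero => exact h.elim
      | succ k =>
        simp only [MemD, Nat.shiftLeft_eq] at h
        rcases h.2 with x | x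
        · exact ⟨p, .hd (by omega) e, by omega⟩
        · obtain ⟨r, a, b⟩ := ih (c / B) k (by convert x using 1; omega)
          exact ⟨r, .tl (by omega) a, b⟩

variable {C : Type*} {V : C → Prop} {W : C → ℕ → Prop} {D ta : ℕ → ℕ}

/-- all clauses with number below `m` hold -/
def UpD (V : C → Prop) (W : C → ℕ → Prop) (ta : ℕ → ℕ) (B : ℕ) (D : ℕ → ℕ) (m : ℕ) : Prop :=
  ∀ x, V x → ∀ z < m, SatD (fun a => W x (ta a % 524288)) B (D z)

theorem UpD.zero : UpD V W ta B D 0 := fun _ _ _ h => absurd h (Nat.not_lt_zero _)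

theorem pblk_ok (h0 : ∀ x, V x → W x 0) (ht : ta 0 % 524288 = 0) (hB : 0 < B) {oh od : ℕ → ℕ}
    {bh R m m' : ℕ} (h : pblk D oh od bh B R m m' = 0) (u : UpD V W ta B D m) : UpD V W ta B D m' :=
  fun x v => pblk_sat (by simpa [ht] using h0 x v) hB h (u x v)

theorem ptz_ok {chk : ℕ → ℕ → ℕ} {h : ℕ → ℕ} {m m' : ℕ} (hc : ∀ c h, chk c h = 0 → Univ V W c)
    (e : ptz chk D h ta B m m' = 0) (u : UpD V W ta B D m) : UpD V W ta B D m' := fun x v z hz => by
  refine (Nat.lt_or_ge z m).elim (u x v z) fun hm => ?_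
  obtain ⟨l, a, t⟩ := hc _ _ (allZ_ok e z hm hz) x v
  have f : ∀ p, tl ta p = 2 * (ta ((p + 1) / 2) % 524288) + (p + 1) % 2 := fun _ => rfl
  rw [memC_iff, itr_eq] at a
  generalize hd : (trS B (tl ta))^[8 * 128] (fun _ => 0) (D z) = d at a
  have e1 : low (Nat.shiftLeft d 56) = 0 := by
    rw [low, Nat.shiftLeft_eq', Nat.shiftLeft_eq]
    exact Nat.mul_mod_left d (2 ^ 56)
  have e2 : dig (Nat.shiftLeft d 56) = d := Nat.shiftLeft_shiftRight d 56
  rw [e1, e2, ← hd] at a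
  obtain ⟨p, b, rfl⟩ := tr_ok (fun p => by rw [f]; omega) _ _ _ (a.resolve_left (by simp))
  refine ⟨_, b, ?_⟩
  unfold Tr at t ⊢
  rw [f] at t
  rwa [show (2 * (ta ((p + 1) / 2) % 524288) + (p + 1) % 2) % 2 = (p + 1) % 2 by omega,
    show (2 * (ta ((p + 1) / 2) % 524288) + (p + 1) % 2) / 2 = ta ((p + 1) / 2) % 524288 by omega] at t

theorem UpD.empty {z : ℕ} (u : UpD V W ta B D (z + 1)) (e : D z = 0) (x : C) : ¬ V x := fun v => by
  obtain ⟨l, a, -⟩ := u x v z (Nat.lt_succ_self z)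
  rw [e] at a
  cases a <;> simp_all

end Pool.Agent.P.MP_3f5ded_co.RRup
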