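import Pool.Agent.P.MP_3f5ded_co.GCore
import Pool.Agent.P.MP_3f5ded_co.T10D0
import Pool.Agent.P.MP_3f5ded_co.T10D1
import Pool.Agent.P.MP_3f5ded_co.T10D2

set_option autoImplicit false
set_option maxRecDepth 100000

namespace Pool.Agent.P.MP_3f5ded_co.R.T10

open RRup T

noncomputable section

noncomputable def tD : U := (U.f (nat_lit 169) tD0
(U.f (nat_lit 207) tD1
tD2))

noncomputable def D (z : Nat) : Nat := fx tD z

end

end Pool.Agent.P.MP_3f5ded_co.R.T10
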