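import Pool.Agent.P.MP_3f5ded_co.GRup
import Pool.Agent.P.MP_3f5ded_co.T10T0
import Pool.Agent.P.MP_3f5ded_co.T10T1
import Pool.Agent.P.MP_3f5ded_co.T10T2
import Pool.Agent.P.MP_3f5ded_co.T10T3
import Pool.Agent.P.MP_3f5ded_co.T10T4
import Pool.Agent.P.MP_3f5ded_co.T10T5
import Pool.Agent.P.MP_3f5ded_co.T10T6
import Pool.Agent.P.MP_3f5ded_co.T10T7
import Pool.Agent.P.MP_3f5ded_co.T10R8
import Pool.Agent.P.MP_3f5ded_co.T10R9
import Pool.Agent.P.MP_3f5ded_co.T10R10
import Pool.Agent.P.MP_3f5ded_co.T10R11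
import Pool.Agent.P.MP_3f5ded_co.T10R12
import Pool.Agent.P.MP_3f5ded_co.T10R13
import Pool.Agent.P.MP_3f5ded_co.T10R14
import Pool.Agent.P.MP_3f5ded_co.T10R15
import Pool.Agent.P.MP_3f5ded_co.T10R16
import Pool.Agent.P.MP_3f5ded_co.T10R17
import Pool.Agent.P.MP_3f5ded_co.T10R18
import Pool.Agent.P.MP_3f5ded_co.T10R19
import Pool.Agent.P.MP_3f5ded_co.T10R20
import Pool.Agent.P.MP_3f5ded_co.T10R21
import Pool.Agent.P.MP_3f5ded_co.T10R22
import Pool.Agent.P.MP_3f5ded_co.T10R23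
import Pool.Agent.P.MP_3f5ded_co.T10R24
import Pool.Agent.P.MP_3f5ded_co.T10R25
import Pool.Agent.P.MP_3f5ded_co.T10R26
import Pool.Agent.P.MP_3f5ded_co.T10R27
import Pool.Agent.P.MP_3f5ded_co.T10R28
import Pool.Agent.P.MP_3f5ded_co.T10R29
import Pool.Agent.P.MP_3f5ded_co.T10R30
import Pool.Agent.P.MP_3f5ded_co.T10R31
import Pool.Agent.P.MP_3f5ded_co.T10R32
import Pool.Agent.P.MP_3f5ded_co.T10R33
import Pool.Agent.P.MP_3f5ded_co.T10R34
import Pool.Agent.P.MP_3f5ded_co.T10R35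
import Pool.Agent.P.MP_3f5ded_co.T10R36
import Pool.Agent.P.MP_3f5ded_co.T10R37
import Pool.Agent.P.MP_3f5ded_co.T10R38
import Pool.Agent.P.MP_3f5ded_co.T10R39

set_option autoImplicit false
set_option maxRecDepth 100000

namespace Pool.Agent.P.MP_3f5ded_co.R.T10

open RRup T

noncomputable section

variable {C : Type} {V : C → Prop} {W : C → Nat → Prop}

theorem st0 (h0 : ∀ x, V x → W x 0)
    (Hth : ∀ c h, (Pool.Agent.P.MP_3f5ded_co.UG.B10.chk) c h = 0 → Univ V W c)
    (u : Upto V W D 0) : Upto V W D 119154 := by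
  have u0 : Upto V W D 9006 := thz_ok Hth k0 u
  have u1 : Upto V W D 18012 := thz_ok Hth k1 u0
  have u2 : Upto V W D 27018 := thz_ok Hth k2 u1
  have u3 : Upto V W D 36024 := thz_ok Hth k3 u2
  have u4 : Upto V W D 45030 := thz_ok Hth k4 u3
  have u5 : Upto V W D 54036 := thz_ok Hth k5 u4
  have u6 : Upto V W D 63042 := thz_ok Hth k6 u5
  have u7 : Upto V W D 72046 := thz_ok Hth k7 u6
  have u8 : Upto V W D 77102 := blk_ok h0 k8 u7
  have u9 : Upto V W D 82309 := blk_ok h0 k9 u8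
  have u10 : Upto V W D 88889 := blk_ok h0 k10 u9
  have u11 : Upto V W D 93030 := blk_ok h0 k11 u10
  have u12 : Upto V W D 95273 := blk_ok h0 k12 u11
  have u13 : Upto V W D 96933 := blk_ok h0 k13 u12
  have u14 : Upto V W D 97830 := blk_ok h0 k14 u13
  have u15 : Upto V W D 99496 := blk_ok h0 k15 u14
  have u16 : Upto V W D 101284 := blk_ok h0 k16 u15
  have u17 : Upto V W D 104272 := blk_ok h0 k17 u16
  have u18 : Upto V W D 106051 := blk_ok h0 k18 u17
  have u19 : Upto V W D 108185 := blk_ok h0 k19 u18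
  have u20 : Upto V W D 108940 := blk_ok h0 k20 u19
  have u21 : Upto V W D 109462 := blk_ok h0 k21 u20
  have u22 : Upto V W D 110188 := blk_ok h0 k22 u21
  have u23 : Upto V W D 110815 := blk_ok h0 k23 u22
  have u24 : Upto V W D 111418 := blk_ok h0 k24 u23
  have u25 : Upto V W D 111752 := blk_ok h0 k25 u24
  have u26 : Upto V W D 112025 := blk_ok h0 k26 u25
  have u27 : Upto V W D 112460 := blk_ok h0 k27 u26
  have u28 : Upto V W D 114061 := blk_ok h0 k28 u27
  have u29 : Upto V W D 115107 := blk_ok h0 k29 u28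
  have u30 : Upto V W D 115607 := blk_ok h0 k30 u29
  have u31 : Upto V W D 115932 := blk_ok h0 k31 u30
  have u32 : Upto V W D 116132 := blk_ok h0 k32 u31
  have u33 : Upto V W D 116325 := blk_ok h0 k33 u32
  have u34 : Upto V W D 117158 := blk_ok h0 k34 u33
  have u35 : Upto V W D 117562 := blk_ok h0 k35 u34
  have u36 : Upto V W D 118267 := blk_ok h0 k36 u35
  have u37 : Upto V W D 118830 := blk_ok h0 k37 u36
  have u38 : Upto V W D 119153 := blk_ok h0 k38 u37
  have u39 : Upto V W D 119154 := blk_ok h0 k39 u38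
  exact u39

theorem fin141929 (u : Upto V W D 119154) : Univ V W 0 :=
  root_ok (z := 119153) u (by decide +kernel) (by decide +kernel)

theorem done (h0 : ∀ x, V x → W x 0)
    (Hth : ∀ c h, (Pool.Agent.P.MP_3f5ded_co.UG.B10.chk) c h = 0 → Univ V W c) :
    ∀ x, ¬ V x :=
  Univ.empty (fin141929 (st0 h0 Hth Upto.zero))

end

end Pool.Agent.P.MP_3f5ded_co.R.T10
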