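import Pool.Agent.P.MP_3f5ded_co.U10Defs
import Pool.Agent.P.MP_3f5ded_co.TenTab

set_option autoImplicit false

namespace Pool.Agent.P.MP_3f5ded_co.UG.B10

/-- An edge of the block. -/
def ad (x y : Fin 11) : Prop := y ≠ x ∧ ¬ Mis x y

instance (x y : Fin 11) : Decidable (ad x y) := by unfold ad; infer_instance

/-- The winding of a triangle. -/
def mu (d : Fin 11 → Fin 11 → ℤ) (x y c : Fin 11) : ℤ := d x y + d y c + d c x

/-- One for a wound triangle. -/
def wd (d : Fin 11 → Fin 11 → ℤ) (x y c : Fin 11) : ℤ :=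
  if ad x y ∧ ad y c ∧ ad c x ∧ mu d x y c ≠ 0 then 1 else 0

/-- The gain of four vertices with `n` wound triangles. -/
def ph (n : ℤ) : ℤ := if n = 1 then 1 else if n = 4 then -2 else 0

/-- The balance of a shift structure. -/
def GG (d : Fin 11 → Fin 11 → ℤ) : ℤ :=
  (∑ p, ∑ q, ∑ s, ∑ t, if p < q ∧ q < s ∧ s < t then
    ph (wd d p q s + wd d p q t + wd d p s t + wd d q s t) else 0) -
    2 * ∑ p, ∑ q, ∑ s, if p < q ∧ q < s then wd d p q s else 0

/-- What is known about the shifts. -/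
structure Sd (d : Fin 11 → Fin 11 → ℤ) : Prop where
  anti : ∀ x y, ad x y → d y x = -d x y
  rng : ∀ x y c, ad x y → ad y c → ad c x → mu d x y c ≤ 1
  gg : 0 ≤ GG d
  ww : ∃ x y c, wd d x y c = 1

/-- The shift of the edge `x y` in structure `i`. -/
def str (i : ℕ) (x y : Fin 11) : ℤ := (tb i x y : ℤ) - tb i y x

/-- The list of shift structures is complete. -/
def Enum : Prop := ∀ d, Sd d → ∃ i < 265, ∃ (g : Equiv.Perm (Fin 11)) (s : ℤ),
  (∀ x y, Mis (g x) (g y) ↔ Mis x y) ∧ (s = 1 ∨ s = -1) ∧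
    ∀ x y, ad x y → x ≠ 8 → y ≠ 8 → mu d (g x) (g y) (g 8) = s * str i x y

end Pool.Agent.P.MP_3f5ded_co.UG.B10
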