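import Pool.Agent.P.MP_3f5ded_co.TenDef

set_option autoImplicit false

namespace Pool.Agent.P.MP_3f5ded_co.UG.B10.En

/-! Symmetries of shift structures. -/

abbrev V := Fin 11
abbrev DD := V → V → ℤ

theorem ad_symm : ∀ x y : V, ad x y → ad y x := by decide +kernel
theorem ad_irr : ∀ x : V, ¬ ad x x := by decide +kernel
theorem ad8 : ∀ x : V, x ≠ 8 → ad x 8 ∧ ad 8 x := by decide +kernel

def Anti (d : DD) : Prop := ∀ x y, ad x y → d y x = -d x y

def Aut (g : Equiv.Perm V) : Prop := ∀ x y, Mis (g x) (g y) ↔ Mis x y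

theorem Aut.ad {g : Equiv.Perm V} (h : Aut g) (x y : V) : ad (g x) (g y) ↔ ad x y := by
  unfold B10.ad
  rw [h x y, g.injective.ne_iff]

theorem wd01 (d : DD) (x y c : V) : wd d x y c = 0 ∨ wd d x y c = 1 := by
  unfold wd; split_ifs <;> simp

theorem wd_rot (d : DD) (x y c : V) : wd d y c x = wd d x y c := by
  unfold wd
  have : mu d y c x = mu d x y c := by unfold mu; ring
  rw [this]
  exact if_congr (by tauto) rfl rfl

theorem mu_swap {d : DD} (h : Anti d) {x y c : V} (a : ad x y) (b : ad y c) (e : ad c x) :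
    mu d x c y = -mu d x y c := by
  unfold mu
  rw [h _ _ a, h _ _ b, h _ _ e]; ring

theorem wd_swap {d : DD} (h : Anti d) (x y c : V) : wd d x c y = wd d x y c := by
  unfold wd
  refine if_congr ⟨?_, ?_⟩ rfl rfl
  · rintro ⟨a, b, e, m⟩
    refine ⟨ad_symm _ _ e, ad_symm _ _ b, ad_symm _ _ a, ?_⟩
    rw [mu_swap h a b e]; omega
  · rintro ⟨a, b, e, m⟩
    refine ⟨ad_symm _ _ e, ad_symm _ _ b, ad_symm _ _ a, ?_⟩
    rw [mu_swap h a b e]; omega

theorem wd_r1 (d : DD) (x c : V) : wd d x x c = 0 := by simp [wd, ad_irr]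
theorem wd_r2 (d : DD) (x c : V) : wd d c x x = 0 := by simp [wd, ad_irr]
theorem wd_r3 (d : DD) (x c : V) : wd d x c x = 0 := by simp [wd, ad_irr]

theorem six {d : DD} (h : Anti d) (a b c : V) : wd d a c b = wd d a b c ∧ wd d b a c = wd d a b c ∧
    wd d b c a = wd d a b c ∧ wd d c a b = wd d a b c ∧ wd d c b a = wd d a b c := by
  refine ⟨wd_swap h _ _ _, ?_, wd_rot _ _ _ _, (wd_rot _ _ _ _).symm, ?_⟩
  · rw [wd_swap h, wd_rot]
  · rw [wd_swap h, ← wd_rot]

open Classical in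
theorem sm_inv {n : ℕ} (F : (Fin n → V) → ℤ) (hF : ∀ x (σ : Equiv.Perm (Fin n)), F (x ∘ σ) = F x)
    (g : Equiv.Perm V) : (∑ x : Fin n → V, if StrictMono x then F (g ∘ x) else 0) =
      ∑ x : Fin n → V, if StrictMono x then F x else 0 := by
  rw [← Finset.sum_filter, ← Finset.sum_filter]
  have m : ∀ (g : Equiv.Perm V) (x : Fin n → V), StrictMono x →
      StrictMono ((g ∘ x) ∘ Tuple.sort (g ∘ x)) := fun g x hx =>
    (Tuple.monotone_sort _).strictMono_of_injective
      ((g.injective.comp hx.injective).comp (Tuple.sort _).injective)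
  have i : ∀ (g : Equiv.Perm V) (x : Fin n → V), StrictMono x →
      (g.symm ∘ ((g ∘ x) ∘ Tuple.sort (g ∘ x))) ∘
        Tuple.sort (g.symm ∘ ((g ∘ x) ∘ Tuple.sort (g ∘ x))) = x := by
    intro g x hx
    have e : g.symm ∘ ((g ∘ x) ∘ Tuple.sort (g ∘ x)) = x ∘ Tuple.sort (g ∘ x) := by
      funext k; simp
    rw [e]
    have := Tuple.unique_monotone (f := x)
      (σ := Tuple.sort (g ∘ x) * Tuple.sort (x ∘ Tuple.sort (g ∘ x))) (τ := 1)
      (Tuple.monotone_sort (x ∘ Tuple.sort (g ∘ x))) hx.monotone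
    exact this
  refine Finset.sum_nbij' (fun x => (g ∘ x) ∘ Tuple.sort (g ∘ x))
    (fun x => (g.symm ∘ x) ∘ Tuple.sort (g.symm ∘ x)) ?_ ?_ ?_ ?_ ?_
  · intro x hx
    simp only [Finset.mem_filter, Finset.mem_univ, true_and] at hx ⊢
    exact m g x hx
  · intro x hx
    simp only [Finset.mem_filter, Finset.mem_univ, true_and] at hx ⊢
    exact m g.symm x hx
  · intro x hx
    simp only [Finset.mem_filter, Finset.mem_univ, true_and] at hx
    exact i g x hx
  · intro x hx
    simp only [Finset.mem_filter, Finset.mem_univ, true_and] at hx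
    exact i g.symm x hx
  · intro x _
    exact (hF _ _).symm

def e4 : V × V × V × V ≃ (Fin 4 → V) where
  toFun a := ![a.1, a.2.1, a.2.2.1, a.2.2.2]
  invFun x := (x 0, x 1, x 2, x 3)
  left_inv _ := rfl
  right_inv x := by funext k; fin_cases k <;> rfl

def e3 : V × V × V ≃ (Fin 3 → V) where
  toFun a := ![a.1, a.2.1, a.2.2]
  invFun x := (x 0, x 1, x 2)
  left_inv _ := rfl
  right_inv x := by funext k; fin_cases k <;> rfl

open Classical in
theorem conv4 (F : V → V → V → V → ℤ) :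
    (∑ x : Fin 4 → V, if StrictMono x then F (x 0) (x 1) (x 2) (x 3) else 0) =
      ∑ p, ∑ q, ∑ s, ∑ t, if p < q ∧ q < s ∧ s < t then F p q s t else 0 := by
  rw [← e4.sum_comp]
  simp only [Fintype.sum_prod_type]
  refine Finset.sum_congr rfl fun p _ => Finset.sum_congr rfl fun q _ =>
    Finset.sum_congr rfl fun s _ => Finset.sum_congr rfl fun t _ => if_congr ?_ rfl rfl
  simp [e4, Fin.strictMono_iff_lt_succ, Fin.forall_fin_succ]

open Classical in
theorem conv3 (F : V → V → V → ℤ) :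
    (∑ x : Fin 3 → V, if StrictMono x then F (x 0) (x 1) (x 2) else 0) =
      ∑ p, ∑ q, ∑ s, if p < q ∧ q < s then F p q s else 0 := by
  rw [← e3.sum_comp]
  simp only [Fintype.sum_prod_type]
  refine Finset.sum_congr rfl fun p _ => Finset.sum_congr rfl fun q _ =>
    Finset.sum_congr rfl fun s _ => if_congr ?_ rfl rfl
  simp [e3, Fin.strictMono_iff_lt_succ, Fin.forall_fin_succ]

theorem full_inv {n : ℕ} (d : DD) (x : Fin n → V) (σ : Equiv.Perm (Fin n)) :
    (∑ i, ∑ j, ∑ k, wd d ((x ∘ σ) i) ((x ∘ σ) j) ((x ∘ σ) k)) =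
      ∑ i, ∑ j, ∑ k, wd d (x i) (x j) (x k) := by
  rw [← Equiv.sum_comp σ fun i => ∑ j, ∑ k, wd d (x i) (x j) (x k)]
  refine Finset.sum_congr rfl fun i _ => ?_
  rw [← Equiv.sum_comp σ fun j => ∑ k, wd d (x (σ i)) (x j) (x k)]
  refine Finset.sum_congr rfl fun j _ => ?_
  rw [← Equiv.sum_comp σ fun k => wd d (x (σ i)) (x (σ j)) (x k)]
  rfl

theorem full4 {d : DD} (h : Anti d) (x : Fin 4 → V) : (∑ i, ∑ j, ∑ k, wd d (x i) (x j) (x k)) =
    6 * (wd d (x 0) (x 1) (x 2) + wd d (x 0) (x 1) (x 3) + wd d (x 0) (x 2) (x 3) +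
      wd d (x 1) (x 2) (x 3)) := by
  simp only [Fin.sum_univ_four, wd_r1, wd_r2, wd_r3]
  have a := six h (x 0) (x 1) (x 2)
  have b := six h (x 0) (x 1) (x 3)
  have c := six h (x 0) (x 2) (x 3)
  have e := six h (x 1) (x 2) (x 3)
  omega

theorem full3 {d : DD} (h : Anti d) (x : Fin 3 → V) : (∑ i, ∑ j, ∑ k, wd d (x i) (x j) (x k)) =
    6 * wd d (x 0) (x 1) (x 2) := by
  simp only [Fin.sum_univ_three, wd_r1, wd_r2, wd_r3]
  have a := six h (x 0) (x 1) (x 2)
  omega

/-- The image of a structure. -/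
def im (d : DD) (g : Equiv.Perm V) : DD := fun x y => d (g x) (g y)

/-- The reversed structure. -/
def tr (d : DD) : DD := fun x y => d y x

theorem wd_im (d : DD) {g : Equiv.Perm V} (h : Aut g) (x y c : V) :
    wd (im d g) x y c = wd d (g x) (g y) (g c) := by
  unfold wd
  simp only [h.ad]
  rfl

theorem GG_im {d : DD} (hd : Anti d) {g : Equiv.Perm V} (h : Aut g) : GG (im d g) = GG d := by
  have A := sm_inv (n := 4) (fun x => ph (wd d (x 0) (x 1) (x 2) + wd d (x 0) (x 1) (x 3) +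
      wd d (x 0) (x 2) (x 3) + wd d (x 1) (x 2) (x 3))) (fun x σ => by
    have := full_inv d x σ
    rw [full4 hd, full4 hd] at this
    exact congrArg ph (by omega)) g
  have B := sm_inv (n := 3) (fun x => wd d (x 0) (x 1) (x 2)) (fun x σ => by
    have := full_inv d x σ
    rw [full3 hd, full3 hd] at this
    omega) g
  have A1 := conv4 fun p q s t => ph (wd d (g p) (g q) (g s) + wd d (g p) (g q) (g t) +
    wd d (g p) (g s) (g t) + wd d (g q) (g s) (g t))
  have A2 := conv4 fun p q s t => ph (wd d p q s + wd d p q t + wd d p s t + wd d q s t)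
  have B1 := conv3 fun p q s => wd d (g p) (g q) (g s)
  have B2 := conv3 fun p q s => wd d p q s
  simp only [Function.comp_apply] at A B
  rw [A1, A2] at A
  rw [B1, B2] at B
  unfold GG
  simp only [wd_im d h]
  rw [A, B]

theorem GG_congr {d e : DD} (h : ∀ x y c, wd d x y c = wd e x y c) : GG d = GG e := by
  unfold GG
  simp only [h]

theorem Sd_im {d : DD} (hd : Sd d) {g : Equiv.Perm V} (h : Aut g) : Sd (im d g) where
  anti x y a := hd.anti _ _ ((h.ad x y).2 a)
  rng x y c a b e := hd.rng _ _ _ ((h.ad _ _).2 a) ((h.ad _ _).2 b) ((h.ad _ _).2 e)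
  gg := by rw [GG_im hd.anti h]; exact hd.gg
  ww := by
    obtain ⟨x, y, c, e⟩ := hd.ww
    exact ⟨g.symm x, g.symm y, g.symm c, by rw [wd_im d h]; simpa using e⟩

theorem mu_tr (d : DD) (x y c : V) : mu (tr d) x y c = mu d x c y := by
  unfold mu tr; ring

theorem wd_tr {d : DD} (h : Anti d) (x y c : V) : wd (tr d) x y c = wd d x y c := by
  unfold wd
  rw [mu_tr]
  refine if_congr (and_congr_right fun a => and_congr_right fun b => and_congr_right fun e => ?_) rfl rfl
  rw [mu_swap h a b e]; omega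

theorem Sd_tr {d : DD} (hd : Sd d) : Sd (tr d) where
  anti x y a := hd.anti _ _ (ad_symm _ _ a)
  rng x y c a b e := by
    rw [mu_tr]; exact hd.rng _ _ _ (ad_symm _ _ e) (ad_symm _ _ b) (ad_symm _ _ a)
  gg := by rw [GG_congr (wd_tr hd.anti)]; exact hd.gg
  ww := by simpa only [wd_tr hd.anti] using hd.ww

/-- The structure is in the list. -/
def Cc (d : DD) : Prop := ∃ i < 265, ∃ (g : Equiv.Perm V) (s : ℤ),
  (∀ x y, Mis (g x) (g y) ↔ Mis x y) ∧ (s = 1 ∨ s = -1) ∧
    ∀ x y, ad x y → x ≠ 8 → y ≠ 8 → mu d (g x) (g y) (g 8) = s * str i x y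

theorem Cc_im {d : DD} {g : Equiv.Perm V} (h : Aut g) (c : Cc (im d g)) : Cc d := by
  obtain ⟨i, hi, f, s, a, b, e⟩ := c
  exact ⟨i, hi, f.trans g, s, fun x y => (h _ _).trans (a x y), b, e⟩

theorem Cc_tr {d : DD} (h : Anti d) (c : Cc (tr d)) : Cc d := by
  obtain ⟨i, hi, f, s, a, b, e⟩ := c
  refine ⟨i, hi, f, -s, a, by omega, fun x y p q r => ?_⟩
  have := e x y p q r
  rw [mu_tr, mu_swap h ((Aut.ad a _ _).2 p) ((Aut.ad a _ _).2 (ad8 y r).1)
    ((Aut.ad a _ _).2 (ad8 x q).2)] at this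
  linarith

/-- No shift at the vertex `8`. -/
def Nm (d : DD) : Prop := ∀ a, d a 8 = 0 ∧ d 8 a = 0

def nm (d : DD) : DD := fun a b => if a = 8 ∨ b = 8 then 0 else mu d a b 8

theorem mu_nm {d : DD} (h : Anti d) {x y c : V} (a : ad x y) (b : ad y c) (e : ad c x) :
    mu (nm d) x y c = mu d x y c := by
  have a' : y ≠ x := a.1
  have b' : c ≠ y := b.1
  have e' : x ≠ c := e.1
  by_cases hx : x = 8
  · subst hx
    simp only [mu, nm, true_or, or_true, if_true, a', e'.symm, or_self, if_false]; ring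
  by_cases hy : y = 8
  · subst hy
    simp only [mu, nm, true_or, or_true, if_true, hx, b', or_self, if_false]; ring
  by_cases hc : c = 8
  · subst hc
    simp only [mu, nm, true_or, or_true, if_true, hx, hy, or_self, if_false]; ring
  simp only [mu, nm, hx, hy, hc, or_self, if_false]
  have := h _ _ (ad8 x hx).1
  have := h _ _ (ad8 y hy).1
  have := h _ _ (ad8 c hc).1
  omega

theorem wd_nm {d : DD} (h : Anti d) (x y c : V) : wd (nm d) x y c = wd d x y c := by
  unfold wd
  refine if_congr (and_congr_right fun a => and_congr_right fun b => and_congr_right fun e => ?_) rfl rfl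
  rw [mu_nm h a b e]

theorem Sd_nm {d : DD} (hd : Sd d) : Sd (nm d) where
  anti x y a := by
    unfold nm
    by_cases h : x = 8 ∨ y = 8
    · rw [if_pos h, if_pos h.symm]; rfl
    · rw [if_neg h, if_neg fun k => h k.symm]
      rw [not_or] at h
      have := mu_swap hd.anti (ad8 x h.1).2 a (ad8 y h.2).1
      unfold mu at this ⊢
      omega
  rng x y c a b e := by rw [mu_nm hd.anti a b e]; exact hd.rng _ _ _ a b e
  gg := by rw [GG_congr (wd_nm hd.anti)]; exact hd.gg
  ww := by simpa only [wd_nm hd.anti] using hd.ww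

theorem enum_of (h : ∀ d, Sd d → Nm d → Cc d) : Enum := by
  intro d hd
  obtain ⟨i, hi, f, s, a, b, e⟩ := h _ (Sd_nm hd) fun a => by simp [nm]
  refine ⟨i, hi, f, s, a, b, fun x y p q r => ?_⟩
  rw [← e x y p q r, mu_nm hd.anti ((Aut.ad a _ _).2 p) ((Aut.ad a _ _).2 (ad8 y r).1)
    ((Aut.ad a _ _).2 (ad8 x q).2)]

end Pool.Agent.P.MP_3f5ded_co.UG.B10.En
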