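import Pool.Agent.P.MP_3f5ded_co.TenEa

set_option autoImplicit false

namespace Pool.Agent.P.MP_3f5ded_co.UG.B10.En

/-! The balance as a polynomial in the wound triangles. -/

def fo (n : ℕ) : V := ⟨n % 11, Nat.mod_lt _ (by decide)⟩

/-- The number of a triple. -/
def cd (p q s : V) : ℕ := 121 * p.1 + 11 * q.1 + s.1

/-- One for the number zero and for the number of a wound triangle. -/
def oc (d : DD) (c : ℕ) : ℤ := if c = 0 then 1 else wd d (fo (c / 121)) (fo (c / 11)) (fo c)

theorem oc01 (d : DD) (c : ℕ) : oc d c = 0 ∨ oc d c = 1 := by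
  unfold oc; split_ifs
  · exact .inr rfl
  · exact wd01 _ _ _ _

theorem oc_zero (d : DD) : oc d 0 = 1 := if_pos rfl

theorem oc_cd (d : DD) {p q s : V} (h : p ≠ q) : oc d (cd p q s) = wd d p q s := by
  have hp := p.2
  have hq := q.2
  have hs := s.2
  have : p.1 ≠ q.1 ∨ p.1 = q.1 := by omega
  have e1 : fo (cd p q s / 121) = p := Fin.ext (by simp only [fo, cd]; omega)
  have e2 : fo (cd p q s / 11) = q := Fin.ext (by simp only [fo, cd]; omega)
  have e3 : fo (cd p q s) = s := Fin.ext (by simp only [fo, cd]; omega)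
  have e0 : cd p q s ≠ 0 := fun e => h (Fin.ext (by simp only [cd] at e; omega))
  unfold oc
  rw [if_neg e0, e1, e2, e3]

abbrev Mono := ℤ × ℕ × ℕ × ℕ

def mv (d : DD) (m : Mono) : ℤ := m.1 * (oc d m.2.1 * oc d m.2.2.1 * oc d m.2.2.2)

def ev (d : DD) (L : List Mono) : ℤ := (L.map (mv d)).sum

theorem ev_nil (d : DD) : ev d [] = 0 := rfl

theorem ev_cons (d : DD) (m : Mono) (L : List Mono) : ev d (m :: L) = mv d m + ev d L := by
  simp [ev]

theorem ev_append (d : DD) (K L : List Mono) : ev d (K ++ L) = ev d K + ev d L := by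
  simp [ev]

theorem ev_flat {α : Type} (d : DD) (l : List α) (f : α → List Mono) :
    ev d (l.flatMap f) = (l.map fun a => ev d (f a)).sum := by
  induction l with
  | nil => rfl
  | cons a l ih => rw [List.flatMap_cons, ev_append, ih]; simp

theorem ev_fin (d : DD) (f : V → List Mono) :
    ev d ((List.finRange 11).flatMap f) = ∑ a, ev d (f a) := by
  rw [ev_flat, Fin.sum_univ_def]

theorem mu_ge {d : DD} (h : Sd d) {x y c : V} (a : ad x y) (b : ad y c) (e : ad c x) :
    -1 ≤ mu d x y c := by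
  have := h.rng _ _ _ (ad_symm _ _ e) (ad_symm _ _ b) (ad_symm _ _ a)
  rw [mu_swap h.anti a b e] at this
  omega

def K4 (p q s t : V) : Prop := ad p q ∧ ad p s ∧ ad p t ∧ ad q s ∧ ad q t ∧ ad s t

instance (p q s t : V) : Decidable (K4 p q s t) := by unfold K4; infer_instance

def P10 (a b c e : ℕ) : List Mono := [(1, a, 0, 0), (1, b, 0, 0), (1, c, 0, 0), (1, e, 0, 0),
  (-2, b, a, 0), (-2, c, a, 0), (-2, e, a, 0), (-2, c, b, 0), (-2, e, b, 0), (-2, e, c, 0)]

def PQ (p q s t : V) : List Mono := if K4 p q s t then [(-2, cd p s t, cd p q t, cd p q s)]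
  else P10 (cd p q s) (cd p q t) (cd p s t) (cd q s t)

theorem ph_le {d : DD} (h : Sd d) {p q s t : V} (a : p < q) (b : q < s) :
    ph (wd d p q s + wd d p q t + wd d p s t + wd d q s t) ≤ ev d (PQ p q s t) := by
  have e1 := oc_cd d (s := s) a.ne
  have e2 := oc_cd d (s := t) a.ne
  have e3 := oc_cd d (s := t) (a.trans b).ne
  have e4 := oc_cd d (s := t) b.ne
  unfold PQ
  split_ifs with k
  · obtain ⟨pq, ps, pt, qs, qt, st⟩ := k
    simp only [ev_cons, ev_nil, mv, e1, e2, e3]
    have sp := ad_symm _ _ ps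
    have tp := ad_symm _ _ pt
    have tq := ad_symm _ _ qt
    have r1 := h.rng _ _ _ pq qs sp
    have r2 := h.rng _ _ _ pq qt tp
    have r3 := h.rng _ _ _ ps st tp
    have r4 := h.rng _ _ _ qs st tq
    have g1 := mu_ge h pq qs sp
    have g2 := mu_ge h pq qt tp
    have g3 := mu_ge h ps st tp
    have g4 := mu_ge h qs st tq
    have z : mu d p q s - mu d p q t + mu d p s t - mu d q s t = 0 := by
      unfold mu
      rw [h.anti _ _ ps, h.anti _ _ qt]; ring
    simp only [wd, pq, qs, sp, qt, tp, ps, st, tq, true_and]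
    split_ifs <;> simp [ph] <;> omega
  · simp only [P10, ev_cons, ev_nil, mv, e1, e2, e3, e4, oc_zero]
    have : (wd d p q s = 0 ∧ wd d p q t = 0) ∨ (wd d p q s = 0 ∧ wd d p s t = 0) ∨
        (wd d p q t = 0 ∧ wd d p s t = 0) ∨ (wd d p q s = 0 ∧ wd d q s t = 0) ∨
        (wd d p q t = 0 ∧ wd d q s t = 0) ∨ (wd d p s t = 0 ∧ wd d q s t = 0) := by
      have sp := ad_symm s p
      have tp := ad_symm t p
      have tq := ad_symm t q
      unfold K4 at k
      unfold wd
      split_ifs <;> simp <;> tauto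
    rcases wd01 d p q s with u | u <;> rcases wd01 d p q t with v | v <;>
      rcases wd01 d p s t with w | w <;> rcases wd01 d q s t with x | x <;>
      simp [u, v, w, x, ph] at this ⊢

def PG : List Mono :=
  ((List.finRange 11).flatMap fun p => (List.finRange 11).flatMap fun q =>
    (List.finRange 11).flatMap fun s => (List.finRange 11).flatMap fun t =>
      if p < q ∧ q < s ∧ s < t then PQ p q s t else []) ++
  (List.finRange 11).flatMap fun p => (List.finRange 11).flatMap fun q =>
    (List.finRange 11).flatMap fun s => if p < q ∧ q < s then [(-2, cd p q s, 0, 0)] else []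

theorem GG_le {d : DD} (h : Sd d) : GG d ≤ ev d PG := by
  unfold GG PG
  simp only [ev_append, ev_fin, sub_eq_add_neg]
  refine add_le_add ?_ (le_of_eq ?_)
  · refine Finset.sum_le_sum fun p _ => Finset.sum_le_sum fun q _ =>
      Finset.sum_le_sum fun s _ => Finset.sum_le_sum fun t _ => ?_
    split_ifs with k
    · exact ph_le h k.1 k.2.1
    · exact le_rfl
  · rw [← neg_mul]
    simp only [Finset.mul_sum]
    refine Finset.sum_congr rfl fun p _ => Finset.sum_congr rfl fun q _ =>
      Finset.sum_congr rfl fun s _ => ?_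
    split_ifs with k
    · simp only [ev_cons, ev_nil, mv, oc_cd d k.1.ne, oc_zero]; ring
    · simp [ev_nil]

noncomputable section

def frc {α : Type} (n : ℕ) (k : ℕ → α) : α :=
  @Nat.rec (fun _ => α) (k 0) (fun p _ => k (Nat.succ p)) n

def ifz {α : Type} (n : ℕ) (x y : α) : α := @Nat.rec (fun _ => α) x (fun _ _ => y) n

theorem frc_eq {α : Type} (n : ℕ) (k : ℕ → α) : frc n k = k n := by cases n <;> rfl

theorem ifz_eq {α : Type} (n : ℕ) (x y : α) : ifz n x y = if n = 0 then x else y := by
  cases n <;> rfl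

def ins (c : ℤ) (i j k : ℕ) (L : List Mono) : List Mono :=
  @List.rec _ (fun _ => List Mono) [(c, i, j, k)] (fun n r ih =>
    ifz (Nat.xor i n.2.1) (ifz (Nat.add (Nat.xor j n.2.2.1) (Nat.xor k n.2.2.2))
      ((c + n.1, i, j, k) :: r) (n :: ih)) (n :: ih)) L

theorem ev_ins (d : DD) (c : ℤ) (i j k : ℕ) (L : List Mono) :
    ev d (ins c i j k L) = mv d (c, i, j, k) + ev d L := by
  induction L with
  | nil => exact ev_cons _ _ _
  | cons n r ih =>
    change ev d (ifz (i ^^^ n.2.1) (ifz ((j ^^^ n.2.2.1) + (k ^^^ n.2.2.2))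
      ((c + n.1, i, j, k) :: r) (n :: ins c i j k r)) (n :: ins c i j k r)) = _
    simp only [ifz_eq, Nat.add_eq_zero_iff, Nat.xor_eq_zero_iff]
    split_ifs with a b
    · simp only [ev_cons, mv, ← a, ← b.1, ← b.2]; ring
    · simp only [ev_cons, ih]; ring
    · simp only [ev_cons, ih]; ring

/-- Not the number of a triangle. -/
def dead (c : ℕ) : Prop := c ≠ 0 ∧
  ¬ (ad (fo (c / 121)) (fo (c / 11)) ∧ ad (fo (c / 11)) (fo c) ∧ ad (fo c) (fo (c / 121)))

instance (c : ℕ) : Decidable (dead c) := by unfold dead; infer_instance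

theorem oc_dead (d : DD) {c : ℕ} (h : dead c) : oc d c = 0 := by
  unfold oc wd
  rw [if_neg h.1, if_neg]
  exact fun k => h.2 ⟨k.1, k.2.1, k.2.2.1⟩

def s2 {α : Type} (a b : ℕ) (k : ℕ → ℕ → α) : α := ifz (Nat.sub a b) (k b a) (k a b)

def nrm (L : List Mono) : List Mono := @List.rec _ (fun _ => List Mono) [] (fun m _ ih =>
  frc m.2.1 fun i => frc m.2.2.1 fun j => frc m.2.2.2 fun k =>
    if dead i ∨ dead j ∨ dead k then ih else
      s2 i j fun a b => s2 b k fun b c => s2 a b fun a b => ins m.1 a b c ih) L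

theorem ev_nrm (d : DD) (L : List Mono) : ev d (nrm L) = ev d L := by
  induction L with
  | nil => rfl
  | cons m r ih =>
    change ev d (frc m.2.1 fun i => frc m.2.2.1 fun j => frc m.2.2.2 fun k =>
      if dead i ∨ dead j ∨ dead k then nrm r else
        s2 i j fun a b => s2 b k fun b c => s2 a b fun a b => ins m.1 a b c (nrm r)) = _
    simp only [frc_eq]
    split_ifs with a
    · rw [ih, ev_cons, mv]
      rcases a with a | a | a <;> simp [oc_dead d a]
    · simp only [s2, ifz_eq]
      split_ifs <;> simp only [ev_ins, ih, ev_cons, mv] <;> ring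

theorem ev_zero (d : DD) {L : List Mono} (h : ((nrm L).all fun m => m.1 == 0) = true) :
    ev d L = 0 := by
  rw [← ev_nrm]
  generalize nrm L = K at h
  induction K with
  | nil => rfl
  | cons m r ih =>
    simp only [List.all_cons, Bool.and_eq_true, beq_iff_eq] at h
    rw [ev_cons, ih h.2, mv, h.1]; simp

end

end Pool.Agent.P.MP_3f5ded_co.UG.B10.En
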