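import Pool.Agent.P.MP_3f5ded_co.TenEb

set_option autoImplicit false

namespace Pool.Agent.P.MP_3f5ded_co.UG.B10.En

/-! Known shifts, known wound triangles, and the loss that they force. -/

noncomputable section

def rd (M k : ℕ) : ℕ := Nat.mod (Nat.shiftRight M k) 8

def bt (Z n : ℕ) : ℕ := Nat.mod (Nat.shiftRight Z n) 2

def ix (x y : V) : ℕ := 33 * x.1 + 3 * y.1

/-- Bit `33 x + 3 y + v` of `M` says that the edge `x y` has shift `v - 1`. -/
def VM (d : DD) (M : ℕ) : Prop :=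
  ∀ n, M.testBit n = true → d (fo (n / 33)) (fo (n / 3)) = ((n % 3 : ℕ) : ℤ) - 1

def Ds (r : ℕ) (v : ℤ) : Prop := r ∈ [0, 1, 2, 4] ∧ (r ≠ 0 → v = ((r / 2 : ℕ) : ℤ) - 1)

theorem ix_fo (x y : V) {t : ℕ} (h : t < 3) : fo ((ix x y + t) / 33) = x ∧
    fo ((ix x y + t) / 3) = y ∧ (ix x y + t) % 3 = t := by
  have := x.2
  have := y.2
  exact ⟨Fin.ext (by simp only [fo, ix]; omega), Fin.ext (by simp only [fo, ix]; omega),
    by simp only [ix]; omega⟩

theorem rd_ds {d : DD} {M : ℕ} (h : VM d M) (x y : V) : Ds (rd M (ix x y)) (d x y) := by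
  have b : ∀ t < 3, (rd M (ix x y)).testBit t = true → d x y = (t : ℤ) - 1 := by
    intro t ht e
    change ((M >>> ix x y) % 2 ^ 3).testBit t = true at e
    rw [Nat.testBit_mod_two_pow, Nat.testBit_shiftRight, Bool.and_eq_true] at e
    have := h _ e.2
    obtain ⟨a, b, c⟩ := ix_fo x y ht
    rwa [a, b, c] at this
  have b0 := b 0 (by omega)
  have b1 := b 1 (by omega)
  have b2 := b 2 (by omega)
  have l : rd M (ix x y) < 8 := Nat.mod_lt _ (by omega)
  generalize rd M (ix x y) = r at *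
  unfold Ds
  interval_cases r <;> simp [Nat.testBit_succ] at b0 b1 b2 ⊢ <;> omega

theorem VM_or {d : DD} {M N : ℕ} (a : VM d M) (b : VM d N) : VM d (Nat.lor M N) := by
  intro n e
  change (M ||| N).testBit n = true at e
  rw [Nat.testBit_or, Bool.or_eq_true] at e
  exact e.elim (a n) (b n)

theorem VM_pow {d : DD} {x y : V} {t : ℕ} (h : t < 3) (e : d x y = (t : ℤ) - 1) :
    VM d (2 ^ (ix x y + t)) := by
  intro n k
  rw [Nat.testBit_two_pow, decide_eq_true_eq] at k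
  obtain ⟨a, b, c⟩ := ix_fo x y h
  rw [← k, a, b, c, e]

theorem bt_test {Z n : ℕ} (h : bt Z n ≠ 0) : Z.testBit n = true := by
  change (Z >>> n) % 2 ≠ 0 at h
  rw [Nat.testBit_eq_decide_div_mod_eq, ← Nat.shiftRight_eq_div_pow, decide_eq_true_eq]
  omega

variable (τ : ℕ → ℕ)

/-- Bit `n` of `Z` says that triangle `n` is wound. -/
def VZ (d : DD) (Z : ℕ) : Prop := ∀ n, Z.testBit n = true → oc d (τ n) = 1

def dfc (Z : ℕ) (q : List (ℕ × ℕ × ℕ)) : ℕ := @List.rec _ (fun _ => ℕ) 0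
  (fun t _ ih => ifz (bt Z t.2.1) ih (ifz (bt Z t.2.2) ih (Nat.add t.1 ih))) q

inductive Rc
  | c (k1 k2 k3 n : ℕ) (q : List (ℕ × ℕ × ℕ)) (a b e : V)
  | x (k1 k2 k3 k4 i j : ℕ) (u v a b : V)

def cs (p x y z : ℕ) : ℕ := ifz (Nat.land p 119) x (ifz (Nat.land p 20) y z)

/-- The records of one level: zero is a failure, `h` a closed case. -/
def tris (M h : ℕ) (k : ℕ → ℕ → ℕ) (L : List Rc) : ℕ → ℕ → ℕ :=
  @List.rec _ (fun _ => ℕ → ℕ → ℕ) k (fun r _ ih Z f => @Rc.rec (fun _ => ℕ)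
    (fun k1 k2 k3 n q _ _ _ => cs (Nat.mul (Nat.mul (rd M k1) (rd M k2)) (rd M k3)) (ih Z f) h
      (frc (Nat.lor Z (Nat.shiftLeft 1 n)) fun Z' => frc (Nat.add f (dfc Z' q)) fun f' =>
        ifz (Nat.sub f' 16) (ih Z' f') h))
    (fun k1 k2 k3 k4 _ _ _ _ _ _ => ifz (Nat.land (Nat.mul (Nat.mul (rd M k1) (rd M k2))
      (Nat.mul (rd M k3) (rd M k4))) 341) (ih Z f)
      (frc (Nat.succ f) fun f' => ifz (Nat.sub f' 16) (ih Z f') h)) r) L

def Tr (c : ℕ) (u a b : V) : Prop := c = cd u a b ∨ c = cd a u b ∨ c = cd a b u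

def wfR : Rc → Prop
  | .c k1 k2 k3 n _ a b e => τ n = cd a b e ∧ ad a b ∧ ad b e ∧ ad e a ∧ k1 = ix a b ∧
      k2 = ix b e ∧ k3 = ix e a
  | .x k1 k2 k3 k4 i j u v a b => Tr (τ i) u a b ∧ Tr (τ j) v a b ∧ ad a b ∧ ad u a ∧ ad b u ∧
      ad v a ∧ ad b v ∧ k1 = ix u a ∧ k2 = ix a v ∧ k3 = ix v b ∧ k4 = ix b u

instance (r : Rc) : Decidable (wfR τ r) := by
  cases r <;> unfold wfR Tr <;> infer_instance

def PR : Rc → List Mono
  | .c _ _ _ n q _ _ _ => q.map fun t => ((t.1 : ℤ), τ n, τ t.2.1, τ t.2.2)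
  | .x _ _ _ _ i j _ _ _ _ => [(1, 0, 0, 0), (-1, τ i, 0, 0), (-1, τ j, 0, 0), (2, τ i, τ j, 0)]

variable {τ}

theorem PR_ge (d : DD) (r : Rc) : 0 ≤ ev d (PR τ r) := by
  cases r with
  | c k1 k2 k3 n q a b e =>
    simp only [PR]
    induction q with
    | nil => exact le_rfl
    | cons t q ih =>
      rw [List.map_cons, ev_cons, mv]
      have o : ∀ c, 0 ≤ oc d c := fun c => by rcases oc01 d c with u | u <;> omega
      exact add_nonneg (mul_nonneg (Int.natCast_nonneg _)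
        (mul_nonneg (mul_nonneg (o _) (o _)) (o _))) ih
  | x k1 k2 k3 k4 i j u v a b =>
    simp only [PR, ev_cons, ev_nil, mv, oc_zero]
    rcases oc01 d (τ i) with u | u <;> rcases oc01 d (τ j) with v | v <;> simp [u, v]

theorem PT_ge (d : DD) (L : List Rc) : 0 ≤ ev d (L.flatMap (PR τ)) := by
  induction L with
  | nil => exact le_rfl
  | cons r L ih => rw [List.flatMap_cons, ev_append]; exact add_nonneg (PR_ge d r) ih

theorem dfc_le {d : DD} {Z n : ℕ} (z : VZ τ d Z) (w : oc d (τ n) = 1) (q : List (ℕ × ℕ × ℕ)) :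
    (dfc Z q : ℤ) ≤ ev d (q.map fun t => ((t.1 : ℤ), τ n, τ t.2.1, τ t.2.2)) := by
  induction q with
  | nil => exact le_rfl
  | cons t q ih =>
    change ((ifz (bt Z t.2.1) (dfc Z q) (ifz (bt Z t.2.2) (dfc Z q) (t.1 + dfc Z q)) : ℕ) : ℤ) ≤ _
    rw [List.map_cons, ev_cons, mv]
    simp only [ifz_eq, w]
    have p : (0 : ℤ) ≤ t.1 * (1 * oc d (τ t.2.1) * oc d (τ t.2.2)) := by
      rcases oc01 d (τ t.2.1) with u | u <;> rcases oc01 d (τ t.2.2) with v | v <;> simp [u, v]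
    split_ifs with a b
    · omega
    · omega
    · rw [z _ (bt_test a), z _ (bt_test b)]; push_cast; omega

theorem tab3 : ∀ a ∈ [0, 1, 2, 4], ∀ b ∈ [0, 1, 2, 4], ∀ c ∈ [0, 1, 2, 4],
    Nat.land (a * b * c) 119 ≠ 0 → a ≠ 0 ∧ b ≠ 0 ∧ c ≠ 0 ∧ a / 2 + b / 2 + c / 2 ≠ 3 ∧
      (Nat.land (a * b * c) 20 = 0 → a / 2 + b / 2 + c / 2 ≠ 2 ∧ a / 2 + b / 2 + c / 2 ≠ 4) := by
  decide +kernel

theorem tab4 : ∀ a ∈ [0, 1, 2, 4], ∀ b ∈ [0, 1, 2, 4], ∀ c ∈ [0, 1, 2, 4], ∀ e ∈ [0, 1, 2, 4],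
    Nat.land (a * b * (c * e)) 341 ≠ 0 → a ≠ 0 ∧ b ≠ 0 ∧ c ≠ 0 ∧ e ≠ 0 ∧
      (a / 2 + b / 2 + c / 2 + e / 2) % 2 = 0 := by
  decide +kernel

theorem oc_Tr {d : DD} (h : Anti d) {c : ℕ} {u a b : V} (t : Tr c u a b) (p : ad a b) (q : ad u a) :
    oc d c = wd d u a b := by
  have s := six h u a b
  rcases t with t | t | t <;> rw [t]
  · exact oc_cd d q.1.symm
  · rw [oc_cd d q.1]; exact s.2.1
  · rw [oc_cd d p.1.symm]; exact s.2.2.1

variable (τ) in
/-- A state of the search is settled; `b` is the loss of the records that are still to come. -/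
def Gd (d : DD) (G : ℤ) (Q : Prop) (b : ℤ) (M Z f : ℕ) : Prop :=
  VM d M → VZ τ d Z → G + f + b ≤ 16 → Q

theorem tris_ok {d : DD} (hd : Sd d) {G : ℤ} (gg : 0 ≤ G) {Q : Prop} {M h : ℕ} {k : ℕ → ℕ → ℕ}
    {b : ℤ} (hb : 0 ≤ b) (hk : ∀ Z f, k Z f ≠ 0 → Gd τ d G Q b M Z f) (L : List Rc)
    (w : ∀ r ∈ L, wfR τ r) :
    ∀ Z f, tris M h k L Z f ≠ 0 → Gd τ d G Q (ev d (L.flatMap (PR τ)) + b) M Z f := by
  induction L with
  | nil => intro Z f e; simpa [ev_nil] using hk Z f e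
  | cons r L ih =>
    intro Z f e m z g
    have ih := ih fun r k => w r (List.mem_cons_of_mem _ k)
    have w := w r List.mem_cons_self
    have p1 := PR_ge (τ := τ) d r
    have p2 := PT_ge (τ := τ) d L
    rw [List.flatMap_cons, ev_append] at g
    cases r with
    | c k1 k2 k3 n q a b e' =>
      obtain ⟨t, ab, be, ea, rfl, rfl, rfl⟩ := w
      change cs (rd M (ix a b) * rd M (ix b e') * rd M (ix e' a)) (tris M h k L Z f) h
        (frc (Nat.lor Z (1 <<< n)) fun Z' => frc (f + dfc Z' q) fun f' =>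
          ifz (f' - 16) (tris M h k L Z' f') h) ≠ 0 at e
      simp only [cs, frc_eq, ifz_eq] at e
      obtain ⟨a1, a2⟩ := rd_ds m a b
      obtain ⟨b1, b2⟩ := rd_ds m b e'
      obtain ⟨c1, c2⟩ := rd_ds m e' a
      have T := tab3 _ a1 _ b1 _ c1
      have r1 := hd.rng _ _ _ ab be ea
      have r2 := mu_ge hd ab be ea
      unfold mu at r1 r2
      split_ifs at e with x y u
      · exact ih Z f e m z (by omega)
      · obtain ⟨t1, t2, t3, t4, t5⟩ := T x
        have := t5 y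
        have := a2 t1
        have := b2 t2
        have := c2 t3
        omega
      all_goals
        obtain ⟨t1, t2, t3, t4, -⟩ := T x
        have o : oc d (τ n) = 1 := by
          rw [t, oc_cd d ab.1.symm]
          have := a2 t1
          have := b2 t2
          have := c2 t3
          exact if_pos ⟨ab, be, ea, by unfold mu; omega⟩
        have z' : VZ τ d (Nat.lor Z (1 <<< n)) := by
          intro i k
          change (Z ||| 1 <<< n).testBit i = true at k
          rw [Nat.testBit_or, Bool.or_eq_true, Nat.one_shiftLeft, Nat.testBit_two_pow,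
            decide_eq_true_eq] at k
          exact k.elim (z i) fun k => k ▸ o
        have l := dfc_le z' o q
        simp only [PR] at g
      · exact ih _ _ e m z' (by push_cast; omega)
      · omega
    | x k1 k2 k3 k4 i j u v a b =>
      obtain ⟨ti, tj, ab, ua, bu, va, bv, rfl, rfl, rfl, rfl⟩ := w
      change ifz (Nat.land (rd M (ix u a) * rd M (ix a v) * (rd M (ix v b) * rd M (ix b u))) 341)
        (tris M h k L Z f) (frc (f + 1) fun f' => ifz (f' - 16) (tris M h k L Z f') h) ≠ 0 at e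
      simp only [frc_eq, ifz_eq] at e
      obtain ⟨a1, a2⟩ := rd_ds m u a
      obtain ⟨b1, b2⟩ := rd_ds m a v
      obtain ⟨c1, c2⟩ := rd_ds m v b
      obtain ⟨e1, e2⟩ := rd_ds m b u
      have T := tab4 _ a1 _ b1 _ c1 _ e1
      split_ifs at e with x y
      · exact ih Z f e m z (by omega)
      all_goals
        obtain ⟨t1, t2, t3, t4, t5⟩ := T x
        have o : ev d (PR τ (.x (ix u a) (ix a v) (ix v b) (ix b u) i j u v a b)) = 1 := by
          simp only [PR, ev_cons, ev_nil, mv, oc_zero, oc_Tr hd.anti ti ab ua,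
            oc_Tr hd.anti tj ab va]
          have := a2 t1
          have := b2 t2
          have := c2 t3
          have := e2 t4
          have r1 := hd.rng _ _ _ ua ab bu
          have r2 := mu_ge hd ua ab bu
          have r3 := hd.rng _ _ _ va ab bv
          have r4 := mu_ge hd va ab bv
          have := hd.anti _ _ va
          have := hd.anti _ _ bv
          simp only [wd, ua, ab, bu, va, bv, true_and]
          unfold mu at *
          split_ifs <;> omega
      · exact ih _ _ e m z (by push_cast; omega)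
      · omega

variable (τ) in
abbrev Good (d : DD) := Gd τ d (GG d) (Cc d)

end

end Pool.Agent.P.MP_3f5ded_co.UG.B10.En
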