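import Pool.Agent.P.MP_3f5ded_co.TenEc

set_option autoImplicit false

namespace Pool.Agent.P.MP_3f5ded_co.UG.B10.En

/-! The search: symmetric cases, leaves and branching. -/

noncomputable section

def nb (G a : ℕ) : ℕ := Nat.mod (Nat.shiftRight G a) 16

def ms (G : ℕ) (L : List ℕ) : ℕ := @List.rec _ (fun _ => ℕ) 0
  (fun a _ ih => Nat.lor (Nat.shiftLeft 1 (nb G a)) ih) L

def pr (G a b : ℕ) : ℕ :=
  Nat.add (Nat.div (nb G a) 8) (Nat.xor (Nat.div (nb G a) 2) (Nat.div (nb G b) 2))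

/-- Zero if the digits of `G` are a symmetry of the block. -/
def okp (G : ℕ) : ℕ := Nat.add (Nat.xor (ms G [0, 4, 8, 12, 16, 20, 24, 28, 32, 36, 40]) 2047)
  (Nat.add (Nat.add (pr G 0 4) (pr G 8 12)) (Nat.add (pr G 16 20) (pr G 24 28)))

theorem ms_test (G : ℕ) (L : List ℕ) (y : ℕ) :
    (ms G L).testBit y = true ↔ ∃ a ∈ L, nb G a = y := by
  induction L with
  | nil => simp [ms]
  | cons a L ih =>
    change (1 <<< nb G a ||| ms G L).testBit y = true ↔ _
    rw [Nat.testBit_or, Bool.or_eq_true, ih, Nat.one_shiftLeft, Nat.testBit_two_pow]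
    simp

theorem mem4 : ∀ a ∈ [0, 4, 8, 12, 16, 20, 24, 28, 32, 36, 40], ∃ x : V, a = 4 * x.1 := by
  decide +kernel

theorem mem4' : ∀ x : V, 4 * x.1 ∈ [0, 4, 8, 12, 16, 20, 24, 28, 32, 36, 40] := by
  decide +kernel

theorem okp_ok {G : ℕ} (h : okp G = 0) :
    ∃ g : Equiv.Perm V, Aut g ∧ ∀ x, (g x).1 = nb G (4 * x.1) := by
  change (ms G _ ^^^ 2047) + ((pr G 0 4 + pr G 8 12) + (pr G 16 20 + pr G 24 28)) = 0 at h
  simp only [Nat.add_eq_zero_iff, Nat.xor_eq_zero_iff] at h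
  obtain ⟨m, ⟨p0, p1⟩, p2, p3⟩ := h
  have t : ∀ y, y < 11 ↔ ∃ a ∈ [0, 4, 8, 12, 16, 20, 24, 28, 32, 36, 40], nb G a = y := by
    intro y
    rw [← ms_test, m, show 2047 = 2 ^ 11 - 1 by norm_num, Nat.testBit_two_pow_sub_one,
      decide_eq_true_eq]
  have l : ∀ x : V, nb G (4 * x.1) < 11 := fun x => (t _).2 ⟨_, mem4' x, rfl⟩
  have s : Function.Surjective fun x : V => (⟨nb G (4 * x.1), l x⟩ : V) := by
    intro y
    obtain ⟨a, k, e⟩ := (t y.1).1 y.2
    obtain ⟨x, rfl⟩ := mem4 a k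
    exact ⟨x, Fin.ext e⟩
  let g := Equiv.ofBijective _ (Finite.surjective_iff_bijective.1 s)
  have pp : ∀ a b, pr G a b = 0 → nb G a < 8 ∧ nb G a / 2 = nb G b / 2 := by
    intro a b e
    change nb G a / 8 + (nb G a / 2 ^^^ nb G b / 2) = 0 at e
    simp only [Nat.add_eq_zero_iff, Nat.xor_eq_zero_iff] at e
    omega
  have f : ∀ x y, Mis x y → Mis (g x) (g y) := by
    have p0 := pp _ _ p0
    have p1 := pp _ _ p1
    have p2 := pp _ _ p2
    have p3 := pp _ _ p3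
    rintro ⟨x, hx⟩ ⟨y, hy⟩ ⟨a, b⟩
    change nb G (4 * x) < 8 ∧ nb G (4 * x) / 2 = nb G (4 * y) / 2
    change x < 8 at a
    change x / 2 = y / 2 at b
    have : y < 8 := by omega
    interval_cases x <;> interval_cases y <;> simp only [Nat.reduceMul, and_true] <;> omega
  have k : ∀ n x y, Mis x y → Mis ((g ^ n) x) ((g ^ n) y) := by
    intro n
    induction n with
    | zero => exact fun x y h => h
    | succ n ih => intro x y h; rw [pow_succ]; exact ih _ _ (f x y h)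
  refine ⟨g, fun x y => ⟨fun h => ?_, f x y⟩, fun x => rfl⟩
  have := k (orderOf g - 1) _ _ h
  have e : ∀ z, (g ^ (orderOf g - 1)) (g z) = z := by
    intro z
    rw [← Equiv.Perm.mul_apply, ← pow_succ, Nat.sub_add_cancel (orderOf_pos g), pow_orderOf_eq_one]
    rfl
  rwa [e, e] at this

structure Ed where
  k : ℕ
  a : ℕ
  b : ℕ
  j : ℕ
  i : ℕ
  x : V
  y : V

def wfE (e : Ed) : Prop := e.k = ix e.x e.y ∧ e.a = 4 * e.x.1 ∧ e.b = 4 * e.y.1 ∧
  e.j = 11 * e.x.1 + e.y.1 ∧ e.i = 11 * e.y.1 + e.x.1 ∧ ad e.x e.y ∧ e.x ≠ 8 ∧ e.y ≠ 8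

instance (e : Ed) : Decidable (wfE e) := by unfold wfE; infer_instance

def kd (v : ℤ) : ℕ := if v = 0 then 0 else if v = 1 then 2 else 1

def key (d : DD) : List Ed → ℕ
  | [] => 0
  | e :: r => kd (d e.x e.y) * 3 ^ r.length + key d r

theorem key_lt (d : DD) (L : List Ed) : key d L < 3 ^ L.length := by
  induction L with
  | nil => simp [key]
  | cons e r ih =>
    have : kd (d e.x e.y) ≤ 2 := by unfold kd; split_ifs <;> omega
    rw [key, List.length_cons, pow_succ]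
    nlinarith

/-- Zero if the image comes first. -/
def lex (M : ℕ) (f : ℕ → ℕ → ℕ) (L : List Ed) : ℕ := @List.rec _ (fun _ => ℕ) 1
  (fun e _ ih => frc (rd M (f e.a e.b)) fun u => frc (rd M e.k) fun v =>
    ifz (Nat.mul u v) 1 (ifz (Nat.xor u v) ih
      (Nat.sub (Nat.succ (Nat.xor v 2)) (Nat.xor u 2)))) L

theorem lex_ok {d d' : DD} {M : ℕ} {f : ℕ → ℕ → ℕ} (m : VM d M) (L : List Ed)
    (w : ∀ e ∈ L, wfE e ∧ Ds (rd M (f e.a e.b)) (d' e.x e.y)) (h : lex M f L = 0) :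
    key d L < key d' L := by
  induction L with
  | nil => exact absurd h one_ne_zero
  | cons e r ih =>
    have ih := ih fun r k => w r (List.mem_cons_of_mem _ k)
    obtain ⟨w, u1, u2⟩ := w e List.mem_cons_self
    change (frc (rd M (f e.a e.b)) fun u => frc (rd M e.k) fun v => ifz (u * v) 1
      (ifz (u ^^^ v) (lex M f r) ((v ^^^ 2) + 1 - (u ^^^ 2)))) = 0 at h
    simp only [frc_eq, ifz_eq, Nat.xor_eq_zero_iff, mul_eq_zero, w.1] at h
    obtain ⟨v1, v2⟩ := rd_ds m e.x e.y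
    simp only [key]
    split_ifs at h with a b
    · rw [not_or] at a
      rw [u2 a.1, v2 a.2, b]
      have := ih h
      omega
    · rw [not_or] at a
      have : kd (d e.x e.y) + 1 ≤ kd (d' e.x e.y) := by
        rw [u2 a.1, v2 a.2]
        generalize rd M (f e.a e.b) = u at *
        generalize rd M (ix e.x e.y) = v at *
        simp only [List.mem_cons, List.not_mem_nil, or_false] at u1 v1
        rcases u1 with u | u | u | u <;> rcases v1 with v | v | v | v <;> subst u v <;>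
          simp [kd] at a b h ⊢
      have := key_lt d r
      nlinarith

def fx (G a b : ℕ) : ℕ := Nat.add (Nat.mul 33 (nb G a)) (Nat.mul 3 (nb G b))

def sy (E : List Ed) (M c : ℕ) : ℕ := frc (Nat.mod (Nat.div c 2) 17592186044416) fun G =>
  Nat.add (Nat.add (okp G) (Nat.xor (nb G 32) 8))
    (ifz (Nat.mod c 2) (lex M (fx G) E) (lex M (fun a b => fx G b a) E))

/-- All structures that come first are in the list. -/
def IH (E : List Ed) (d : DD) : Prop := ∀ d', Sd d' → Nm d' → key d E < key d' E → Cc d'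

theorem fx_eq {G : ℕ} {g : Equiv.Perm V} (h : ∀ x, (g x).1 = nb G (4 * x.1)) (x y : V) :
    fx G (4 * x.1) (4 * y.1) = ix (g x) (g y) := by
  unfold ix; rw [h, h]; rfl

theorem sy_ok {E : List Ed} (w : ∀ e ∈ E, wfE e) {d : DD} (hd : Sd d) (n : Nm d) (ih : IH E d)
    {M c : ℕ} (m : VM d M) (h : sy E M c = 0) : Cc d := by
  simp only [sy, frc_eq, ifz_eq] at h
  generalize Nat.mod (Nat.div c 2) 17592186044416 = G at h
  change (okp G + (nb G 32 ^^^ 8)) + _ = 0 at h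
  simp only [Nat.add_eq_zero_iff, Nat.xor_eq_zero_iff] at h
  obtain ⟨⟨a, b⟩, h⟩ := h
  obtain ⟨g, a, e⟩ := okp_ok a
  have g8 : g 8 = 8 := Fin.ext ((e 8).trans b)
  have n' : Nm (im d g) := fun x => by simp only [im, g8]; exact n _
  split_ifs at h
  · refine Cc_im a (ih _ (Sd_im hd a) n' (lex_ok m E (fun x k => ⟨w x k, ?_⟩) h))
    rw [(w x k).2.1, (w x k).2.2.1, fx_eq e]
    exact rd_ds m _ _
  · refine Cc_im a (Cc_tr (Sd_im hd a).anti (ih _ (Sd_tr (Sd_im hd a)) (fun x => (n' x).symm)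
      (lex_ok m E (fun x k => ⟨w x k, ?_⟩) h)))
    rw [(w x k).2.1, (w x k).2.2.1, fx_eq e]
    exact rd_ds m _ _

def al (t : Ed → ℕ) (L : List Ed) : ℕ := @List.rec _ (fun _ => ℕ) 0
  (fun e _ ih => Nat.add (t e) ih) L

theorem al_ok {t : Ed → ℕ} {L : List Ed} (h : al t L = 0) : ∀ e ∈ L, t e = 0 := by
  induction L with
  | nil => simp
  | cons e r ih =>
    change t e + al t r = 0 at h
    rw [Nat.add_eq_zero_iff] at h
    simpa [h.1] using ih h.2

def l1 (M G T a b j i : ℕ) : ℕ := Nat.xor (Nat.shiftLeft (Nat.mul (Nat.mul (rd M (fx G a b))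
  (rd M (fx G b 32))) (rd M (fx G 32 a))) (bt T i)) (Nat.shiftLeft 8 (bt T j))

/-- A leaf: the structure without shifts, or the image of an entry of the table. -/
def lf (E : List Ed) (M _Z _f h : ℕ) : ℕ := frc (Nat.mod h 512) fun i =>
  ifz (Nat.sub i 264) (frc (Nat.mod (Nat.div h 1024) 17592186044416) fun G =>
    frc (Nat.mod (Nat.shiftRight tab (Nat.mul 128 i)) 340282366920938463463374607431768211456) fun T =>
      ifz (Nat.add (okp G) (ifz (Nat.mod (Nat.div h 512) 2) (al (fun e => l1 M G T e.a e.b e.j e.i) E)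
        (al (fun e => l1 M G T e.a e.b e.i e.j) E))) (Nat.shiftRight h 54) 0)
    (ifz (al (fun e => Nat.xor (rd M e.k) 2) E) (Nat.div h 512) 0)

theorem tab5 : ∀ a ∈ [0, 1, 2, 4], ∀ b ∈ [0, 1, 2, 4], ∀ c ∈ [0, 1, 2, 4], ∀ u < 2, ∀ v < 2,
    (a * b * c) <<< v = 8 <<< u → a ≠ 0 ∧ b ≠ 0 ∧ c ≠ 0 ∧ a / 2 + b / 2 + c / 2 + v = 3 + u := by
  decide +kernel

theorem bt_tb (i : ℕ) (x y : V) :
    bt (Nat.mod (Nat.shiftRight tab (Nat.mul 128 i)) 340282366920938463463374607431768211456)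
      (11 * x.1 + y.1) = tb i x y := by
  have := x.2
  have := y.2
  have k : ∀ t a b : ℕ, b < 128 → ((t >>> a % 2 ^ 128) >>> b) % 2 = (t >>> (a + b)) % 2 := by
    intro t a b l
    have : ((t >>> a % 2 ^ 128) >>> b).testBit 0 = (t >>> (a + b)).testBit 0 := by
      simp only [Nat.testBit_shiftRight, Nat.testBit_mod_two_pow, add_zero, l, decide_true,
        Bool.true_and]
    simp only [Nat.testBit_zero, decide_eq_decide] at this
    omega
  have := k tab (128 * i) (11 * x.1 + y.1) (by omega)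
  rw [← add_assoc] at this
  exact this

theorem l1_ok {d : DD} {M G T : ℕ} (m : VM d M) {g : Equiv.Perm V}
    (e : ∀ x, (g x).1 = nb G (4 * x.1)) {x y : V} {j i : ℕ}
    (h : l1 M G T (4 * x.1) (4 * y.1) j i = 0) :
    mu d (g x) (g y) (g 8) = (bt T j : ℤ) - bt T i := by
  change (rd M (fx G (4 * x.1) (4 * y.1)) * rd M (fx G (4 * y.1) (4 * (8 : V).1)) *
    rd M (fx G (4 * (8 : V).1) (4 * x.1))) <<< bt T i ^^^ 8 <<< bt T j = 0 at h
  rw [Nat.xor_eq_zero_iff, fx_eq e, fx_eq e, fx_eq e] at h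
  obtain ⟨a1, a2⟩ := rd_ds m (g x) (g y)
  obtain ⟨b1, b2⟩ := rd_ds m (g y) (g 8)
  obtain ⟨c1, c2⟩ := rd_ds m (g 8) (g x)
  obtain ⟨t1, t2, t3, t4⟩ := tab5 _ a1 _ b1 _ c1 _ (Nat.mod_lt _ two_pos) _ (Nat.mod_lt _ two_pos) h
  have := a2 t1
  have := b2 t2
  have := c2 t3
  unfold mu
  change _ + bt T i = 3 + bt T j at t4
  omega

/-- The list holds all edges away from the vertex `8`. -/
def Cov (E : List Ed) : Prop := ∀ x y : V, ad x y → x ≠ 8 → y ≠ 8 →
  ∃ e ∈ E, (e.x = x ∧ e.y = y) ∨ (e.x = y ∧ e.y = x)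

theorem lf_ok {E : List Ed} (w : ∀ e ∈ E, wfE e) (c : Cov E) {d : DD} (hd : Sd d) (n : Nm d)
    {M Z f h : ℕ} (m : VM d M) (k : lf E M Z f h ≠ 0) : Cc d := by
  simp only [lf, frc_eq, ifz_eq] at k
  generalize Nat.mod h 512 = i at k
  generalize Nat.mod (Nat.div h 1024) 17592186044416 = G at k
  have fin : ∀ (g : Equiv.Perm V) (s : ℤ), Aut g →
      (∀ e ∈ E, mu d (g e.x) (g e.y) (g 8) = s * str i e.x e.y) →
      ∀ x y, ad x y → x ≠ 8 → y ≠ 8 → mu d (g x) (g y) (g 8) = s * str i x y := by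
    intro g s a p x y q u v
    obtain ⟨e, k, ⟨rfl, rfl⟩ | ⟨rfl, rfl⟩⟩ := c x y q u v
    · exact p e k
    · have := mu_swap hd.anti ((a.ad _ _).2 (ad8 _ v).2) ((a.ad _ _).2 (ad_symm _ _ q))
        ((a.ad _ _).2 (ad8 _ u).1)
      have p := p e k
      unfold mu str at *
      linarith
  split_ifs at k with a s b b z
  · change okp G + _ = 0 at b
    rw [Nat.add_eq_zero_iff] at b
    obtain ⟨g, p, e⟩ := okp_ok b.1
    refine ⟨i, by change i - 264 = 0 at a; omega, g, 1, p, .inl rfl, fin g 1 p fun x k => ?_⟩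
    have := al_ok b.2 x k
    obtain ⟨-, w1, w2, w3, w4, -⟩ := w x k
    simp only [w1, w2, w3, w4] at this
    rw [l1_ok m e this, bt_tb, bt_tb, str, one_mul]
  · exact absurd rfl k
  · change okp G + _ = 0 at b
    rw [Nat.add_eq_zero_iff] at b
    obtain ⟨g, p, e⟩ := okp_ok b.1
    refine ⟨i, by change i - 264 = 0 at a; omega, g, -1, p, .inr rfl, fin g (-1) p fun x k => ?_⟩
    have := al_ok b.2 x k
    obtain ⟨-, w1, w2, w3, w4, -⟩ := w x k
    simp only [w1, w2, w3, w4] at this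
    rw [l1_ok m e this, bt_tb, bt_tb, str]; ring
  · exact absurd rfl k
  · have o : ∀ e ∈ E, d e.x e.y = 0 := by
      intro e k
      have := al_ok z e k
      change rd M e.k ^^^ 2 = 0 at this
      rw [Nat.xor_eq_zero_iff, (w e k).1] at this
      have t := (rd_ds m e.x e.y).2
      rw [this] at t
      simpa using t
    have o' : ∀ x y, ad x y → d x y = 0 := by
      intro x y q
      by_cases u : x = 8
      · rw [u]; exact (n _).2
      by_cases v : y = 8
      · rw [v]; exact (n _).1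
      obtain ⟨e, k, ⟨rfl, rfl⟩ | ⟨rfl, rfl⟩⟩ := c x y q u v
      · exact o e k
      · rw [hd.anti _ _ (ad_symm _ _ q), o e k]; rfl
    obtain ⟨x, y, t, e⟩ := hd.ww
    unfold wd at e
    split_ifs at e with q
    · exact absurd (by unfold mu; rw [o' _ _ q.1, o' _ _ q.2.1, o' _ _ q.2.2.1]; rfl) q.2.2.2
    · exact absurd e zero_ne_one
  · exact absurd rfl k

structure Lv where
  m0 : ℕ
  m1 : ℕ
  m2 : ℕ
  t : List Rc
  x : V
  y : V

def mk (x y : V) (v : ℕ) : ℕ := Nat.lor (2 ^ (ix x y + v)) (2 ^ (ix y x + (2 - v)))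

def wfL (τ : ℕ → ℕ) (l : Lv) : Prop := ad l.x l.y ∧ l.x ≠ 8 ∧ l.y ≠ 8 ∧ l.m0 = mk l.x l.y 0 ∧
  l.m1 = mk l.x l.y 1 ∧ l.m2 = mk l.x l.y 2 ∧ ∀ r ∈ l.t, wfR τ r

instance (τ : ℕ → ℕ) (l : Lv) : Decidable (wfL τ l) := by unfold wfL; infer_instance

abbrev F4 := ℕ → ℕ → ℕ → ℕ → ℕ

def nd (E : List Ed) (ih : F4) (M h Z f : ℕ) : ℕ :=
  ifz (Nat.mod h 2) (frc (Nat.div h 2) fun h' => ih M Z f h')
    (ifz (sy E M (Nat.div h 2)) (Nat.shiftRight h 46) 0)

def ch (E : List Ed) (ih : F4) (t : List Rc) (m M Z f h : ℕ) : ℕ :=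
  frc (Nat.lor M m) fun M' => tris M' h (nd E ih M' h) t Z f

def sq (n : ℕ) (k : ℕ → ℕ) : ℕ := @Nat.rec (fun _ => ℕ) 0 (fun p _ => k (Nat.succ p)) n

theorem sq_ne {n : ℕ} {k : ℕ → ℕ} (h : sq n k ≠ 0) : n ≠ 0 ∧ k n ≠ 0 := by
  cases n with
  | zero => exact absurd rfl h
  | succ n => exact ⟨Nat.succ_ne_zero _, h⟩

def go (E : List Ed) (base : F4) (L : List Lv) : F4 := @List.rec _ (fun _ => F4) base
  (fun l _ ih M Z f h => sq (ch E ih l.t l.m0 M Z f h) fun h =>
    sq (ch E ih l.t l.m1 M Z f h) fun h => ch E ih l.t l.m2 M Z f h) L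

def PL (τ : ℕ → ℕ) (L : List Lv) : List Mono := L.flatMap fun l => l.t.flatMap (PR τ)

theorem PL_ge (τ : ℕ → ℕ) (d : DD) (L : List Lv) : 0 ≤ ev d (PL τ L) := by
  induction L with
  | nil => exact le_rfl
  | cons r L ih => rw [PL, List.flatMap_cons, ev_append]; exact add_nonneg (PT_ge d _) ih

theorem go_ok {τ : ℕ → ℕ} {E : List Ed} (w : ∀ e ∈ E, wfE e) {d : DD} (hd : Sd d) (n : Nm d)
    (i : IH E d) {base : F4} {b : ℤ} (hb : 0 ≤ b)
    (hk : ∀ M Z f h, base M Z f h ≠ 0 → Good τ d b M Z f) (L : List Lv) (v : ∀ l ∈ L, wfL τ l) :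
    ∀ M Z f h, go E base L M Z f h ≠ 0 → Good τ d (ev d (PL τ L) + b) M Z f := by
  induction L with
  | nil => intro M Z f h e; simpa [PL, ev_nil] using hk M Z f h e
  | cons l L ih =>
    have ih := ih fun r k => v r (List.mem_cons_of_mem _ k)
    obtain ⟨a, x8, y8, e0, e1, e2, v⟩ := v l List.mem_cons_self
    have c : ∀ t : ℕ, t < 3 → d l.x l.y = (t : ℤ) - 1 → ∀ M Z f h,
        ch E (go E base L) l.t (mk l.x l.y t) M Z f h ≠ 0 →
        Good τ d (ev d (PL τ (l :: L)) + b) M Z f := by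
      intro t ht e M Z f h k m z g
      have m' : VM d (Nat.lor M (mk l.x l.y t)) := VM_or m (VM_or (VM_pow ht e)
        (VM_pow (by omega) (by rw [hd.anti _ _ a, e]; omega)))
      rw [ch, frc_eq] at k
      refine tris_ok hd hd.gg (add_nonneg (PL_ge τ d L) hb) (fun Z f k => ?_) l.t v Z f k m' z ?_
      · simp only [nd, frc_eq, ifz_eq] at k
        split_ifs at k with p q
        · exact ih _ _ _ _ k
        · exact fun m _ _ => sy_ok w hd n i m q
        · exact absurd rfl k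
      · rw [PL, List.flatMap_cons, ev_append] at g
        rw [PL]; omega
    intro M Z f h k
    change sq (ch E (go E base L) l.t l.m0 M Z f h) (fun h =>
      sq (ch E (go E base L) l.t l.m1 M Z f h) fun h =>
        ch E (go E base L) l.t l.m2 M Z f h) ≠ 0 at k
    obtain ⟨k0, k⟩ := sq_ne k
    obtain ⟨k1, k2⟩ := sq_ne k
    have r1 := hd.rng _ _ _ a (ad8 _ y8).1 (ad8 _ x8).2
    have r2 := mu_ge hd a (ad8 _ y8).1 (ad8 _ x8).2
    simp only [mu, (n _).1, (n _).2] at r1 r2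
    rw [e0] at k0
    rw [e1] at k1
    rw [e2] at k2
    have : d l.x l.y = -1 ∨ d l.x l.y = 0 ∨ d l.x l.y = 1 := by omega
    rcases this with e | e | e
    · exact c 0 (by omega) (by omega) _ _ _ _ k0
    · exact c 1 (by omega) (by omega) _ _ _ _ k1
    · exact c 2 (by omega) (by omega) _ _ _ _ k2

/-- States of the search with their hints. -/
abbrev St := ℕ × ℕ × ℕ × ℕ

def fs (S : List St) (M Z f h : ℕ) : ℕ := @List.rec _ (fun _ => ℕ) 0 (fun s _ ih =>
  ifz (Nat.xor M s.1) (ifz (Nat.add (Nat.xor Z s.2.1) (Nat.xor f s.2.2.1)) h 0) ih) S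

theorem fs_ok {S : List St} {M Z f h : ℕ} (k : fs S M Z f h ≠ 0) :
    ∃ s ∈ S, M = s.1 ∧ Z = s.2.1 ∧ f = s.2.2.1 := by
  induction S with
  | nil => exact absurd rfl k
  | cons s S ih =>
    change ifz (M ^^^ s.1) (ifz ((Z ^^^ s.2.1) + (f ^^^ s.2.2.1)) h 0) (fs S M Z f h) ≠ 0 at k
    simp only [ifz_eq, Nat.add_eq_zero_iff, Nat.xor_eq_zero_iff] at k
    split_ifs at k with a b
    · exact ⟨s, List.mem_cons_self, a, b.1, b.2⟩
    · exact absurd rfl k
    · obtain ⟨t, u, v⟩ := ih k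
      exact ⟨t, List.mem_cons_of_mem _ u, v⟩

/-- All states of the list are settled by their hints. -/
def Run (E : List Ed) (L : List Lv) (S : List St) : Prop :=
  ∀ s ∈ S, go E (lf E) L s.1 s.2.1 s.2.2.1 s.2.2.2 ≠ 0

instance (E : List Ed) (L : List Lv) (S : List St) : Decidable (Run E L S) := by
  unfold Run; infer_instance

theorem Run.app {E : List Ed} {L : List Lv} {S T : List St} (a : Run E L S) (b : Run E L T) :
    Run E L (S ++ T) := fun s k => (List.mem_append.1 k).elim (a s) (b s)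

theorem enum_main {τ : ℕ → ℕ} (t0 : τ 0 = 0) {E : List Ed} (w : ∀ e ∈ E, wfE e) (c : Cov E)
    {L K : List Lv} (wL : ∀ l ∈ L, wfL τ l) (wK : ∀ l ∈ K, wfL τ l)
    (p : ((nrm (PG ++ (PL τ L ++ (PL τ K ++ [(-16, 0, 0, 0)])))).all fun m => m.1 == 0) = true)
    {M h : ℕ} (m1 : M < 2 ^ 363)
    (m2 : ∀ n < 363, M.testBit n = true → n % 3 = 1 ∧ (fo (n / 33) = 8 ∨ fo (n / 3) = 8))
    {S : List St} (r : Run E K S) (top : go E (fs S) L M 1 0 h ≠ 0) : Enum := by
  refine enum_of ?_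
  suffices ∀ k d, 3 ^ E.length - key d E = k → Sd d → Nm d → Cc d from fun d => this _ d rfl
  intro k
  induction k using Nat.strong_induction_on with
  | _ k ih =>
  intro d e hd n
  have i : IH E d := fun d' a b l => ih _ (by have := key_lt d' E; omega) d' rfl a b
  have g1 : ∀ M Z f h, fs S M Z f h ≠ 0 → Good τ d (ev d (PL τ K) + 0) M Z f := by
    intro M Z f h k
    obtain ⟨s, u, rfl, rfl, rfl⟩ := fs_ok k
    exact go_ok w hd n i le_rfl (fun M Z f h k m _ _ => lf_ok w c hd n m k) K wK _ _ _ _ (r s u)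
  refine go_ok w hd n i (add_nonneg (PL_ge τ d K) le_rfl) g1 L wL _ _ _ _ top (fun j k => ?_)
    (fun j k => ?_) ?_
  · have l : j < 363 := by
      by_contra l
      rw [Nat.testBit_lt_two_pow (m1.trans_le (Nat.pow_le_pow_right two_pos (not_lt.1 l)))] at k
      exact absurd k (by simp)
    obtain ⟨a, b | b⟩ := m2 j l k <;> rw [a, b]
    · exact (n _).2
    · exact (n _).1
  · rw [Nat.testBit_one_eq_true_iff_self_eq_zero.1 k, t0, oc_zero]
  · have := ev_zero d p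
    have := GG_le hd
    simp only [ev_append, ev_cons, ev_nil, mv, oc_zero] at *
    omega

end

end Pool.Agent.P.MP_3f5ded_co.UG.B10.En
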