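import Pool.Agent.P.MP_3f5ded_co.TenSem

set_option autoImplicit false
set_option linter.unusedSimpArgs false
set_option linter.unusedVariables false

namespace Pool.Agent.P.MP_3f5ded_co.UG.B10

open Finset RRup PM

set_option synthInstance.maxSize 1024 in
lemma inj8 : ∀ a b : Fin 8, ¬ a.1 / 2 = b.1 / 2 → ∀ c : Fin 8, ¬ a.1 / 2 = c.1 / 2 → ¬ b.1 / 2 = c.1 / 2 →
    ∀ w : Fin 8, ¬ a.1 / 2 = w.1 / 2 → ¬ b.1 / 2 = w.1 / 2 → ¬ c.1 / 2 = w.1 / 2 →
      Function.Injective ![a, b, c, w, pa b, pa c, pa w, pa a] := by decide +kernel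

open scoped Classical

variable {r : ℝ} {x : St r}

lemma tr_eq (l s : ℕ) : tr l s = (l + s + 9) % 10 := rfl
lemma nx_eq (l : ℕ) : nx l = (l + 1) % 10 := rfl
lemma pr_eq (v : ℕ) : pr v = v + 1 - 2 * (v % 2) := rfl
lemma nmod (a b : ℕ) : Nat.mod a b = a % b := rfl
lemma hf_iff {a b : ℕ} : hf a b = true ↔ a / 2 = b / 2 := Nat.beq_eq ▸ Iff.rfl
lemma dg_lt (q k : ℕ) : dg q k < 11 := Nat.mod_lt _ (by norm_num)
lemma pr_lt {a : ℕ} (h : a ≤ 7) : pr a < 11 := by rw [pr_eq]; omega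

lemma m10 {a : ℕ} : a ∈ r10 ↔ a < 10 := by
  simp only [r10, List.mem_cons, List.not_mem_nil, or_false]
  omega

lemma m11 {a : ℕ} : a ∈ r11 ↔ a < 11 := by
  simp only [r11, List.mem_cons, List.not_mem_nil, or_false]
  omega

lemma T_lt {P : PM (Fin 11) 10 r Mis} {u v : Fin 11} {a b a' b' : ℤ} (j : ℤ) (h : P.T u a < P.T v b)
    (ha : a' ≤ a + j * 10) (hb : b + j * 10 ≤ b') : P.T u a' < P.T v b' := by
  have := (P.T_mono u).monotone ha
  have := (P.T_mono v).monotone hb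
  rw [T_eq j rfl] at *
  linarith

lemma nA_le {a b c t : ℕ} {n n' : ℤ} (ha : a < 11) (hb : b < 11) (hc : c < 11) (ht : t ≤ 10)
    (h : ¬ Sat x (nA a b c t)) (g : n < n' ∧ n' < n + (10 : ℕ) ∧ x.P.it (fi a) n = fi b ∧ x.P.it (fi a) n' = fi c) :
    n + t ≤ n' := by
  unfold nA at h
  cases e : Nat.ble t 1 <;> rw [e] at h
  · have : ¬ t ≤ 1 := fun f => by rw [Nat.ble_eq.mpr f] at e; cases e
    simp (disch := omega) only [cond_false, sat_neg, sat_nil, wA, imp_false, not_not] at h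
    exact h.le (by omega) g.2.2.1 g.2.2.2 g.1 (by omega)
  · have := Nat.ble_eq.mp e
    omega

lemma cn_succ (j z : ℕ) : cn x.P j (z + 1) = cn x.P j z + if Oc x.P (xq j z) then 1 else 0 := by
  unfold cn
  rw [range_add_one, filter_insert]
  split_ifs
  · rw [card_insert_of_notMem (by simp)]
  · rfl

lemma smono {f : ℕ → ℕ} {n : ℕ} (h : ∀ k < n, k ≤ 0 ∨ f (k - 1) + 1 ≤ f k) :
    ∀ b a, a < b → b < n → f a < f b := fun b => by
  induction b with
  | zero => omega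
  | succ b ih =>
    intro a h1 h2
    have := h _ h2
    have := ih a
    rw [add_tsub_cancel_right] at *
    rcases (Nat.lt_succ_iff.1 h1).eq_or_lt with rfl | g <;> omega

lemma fi_vx (a : Fin 8) : fi a = vx a ∧ fi (pr a) = vx (pa a) ∧ pr a = pa a := by revert a; decide

/-- All lists of a family are satisfied. -/
def GF (x : St r) (f : ℕ → ℕ → ℕ → ℕ → ℕ → ℕ → ℕ → ℕ → ℕ → ℕ → ℕ → ℕ → List ℕ) : Prop :=
  ∀ a b c w l m s u v e i z, a < 11 → b < 11 → c < 11 → w < 11 → l < 10 → m < 10 → s < 3 → u < 3 → v < 3 →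
    e < 41 → i < 265 → G x (f a b c w l m s u v e i z)

lemma p0 (h : V x) : GF x f0 := by
  intro a b c w l m s u v e i z ha hb hc hw hl hm hs hu hv he hi
  refine .gn fun g1 => .of ?_
  simp (disch := omega) only [Nat.ble_eq, Nat.beq_eq, eb_fi, Nat.add_eq, Nat.mul_eq, hf_iff] at g1
  obtain ⟨n, n1, n2, n3⟩ := x.P.win ((fi_inj hb ha).not.2 g1) 0
  obtain ⟨n, rfl⟩ := Int.eq_ofNat_of_zero_le n1
  exact sat_map (m10.2 (by omega)) ((wX ha hb (by omega)).mpr n3)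

lemma p1 (h : V x) : GF x f1 := by
  intro a b c w l m s u v e i z ha hb hc hw hl hm hs hu hv he hi
  refine .gn fun g1 => .of ?_
  simp (disch := omega) only [Nat.ble_eq, Nat.beq_eq, eb_fi, Nat.add_eq, Nat.mul_eq, hf_iff] at g1
  simp (disch := omega) only [sat_pos, sat_neg, sat_nil, tr_eq, nx_eq, nmod, Nat.add_eq, Nat.mul_eq,
    Nat.sub_eq, Nat.succ_eq_add_one, wX]
  intro h1 h2
  have := x.P.uniq (h1.trans h2.symm) (by omega) (by omega)
  omega

lemma p2 (h : V x) : GF x f2 := by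
  intro a b c w l m s u v e i z ha hb hc hw hl hm hs hu hv he hi
  refine .of ?_
  refine sat_map (a := x.P.it (fi a) l) (List.mem_filter.2 ⟨m11.2 (Fin.is_lt _), ?_⟩)
    ((wX ha (Fin.is_lt _) (by omega)).mpr (fi_fin _).symm)
  have := x.P.ne (fi a) l
  rw [Ne, Fin.ext_iff, fi_val ha] at this
  simp only [Bool.not_eq_true', ← Bool.not_eq_true, Nat.beq_eq]
  exact this

lemma p3 (h : V x) : GF x f3 := by
  intro a b c w l m s u v e i z ha hb hc hw hl hm hs hu hv he hi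
  refine .gn fun g1 => .of ?_
  simp (disch := omega) only [Nat.ble_eq, Nat.beq_eq, eb_fi, Nat.add_eq, Nat.mul_eq, hf_iff] at g1
  simp (disch := omega) only [sat_pos, sat_neg, sat_nil, tr_eq, nx_eq, nmod, Nat.add_eq, Nat.mul_eq,
    Nat.sub_eq, Nat.succ_eq_add_one, wX]
  exact fun h1 h2 => g1 ((fi_inj hb hc).1 (h1.symm.trans h2))

lemma p4 (h : V x) : GF x f4 := by
  intro a b c w l m s u v e i z ha hb hc hw hl hm hs hu hv he hi
  refine .gd fun g1 => .of ?_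
  simp (disch := omega) only [Nat.ble_eq, Nat.beq_eq, eb_fi, Nat.add_eq, Nat.mul_eq, hf_iff] at g1
  simp (disch := omega) only [sat_pos, sat_neg, sat_nil, tr_eq, nx_eq, nmod, Nat.add_eq, Nat.mul_eq,
    Nat.sub_eq, Nat.succ_eq_add_one, wX, wS ha hb hs g1]
  exact fun h1 h2 n => n ((it_dvd (by omega)).trans (co' g1 h2 h1).1)

lemma p5 (h : V x) : GF x f5 := by
  intro a b c w l m s u v e i z ha hb hc hw hl hm hs hu hv he hi
  refine .of ?_
  exact sat_pos.2 fun n => absurd ((wX (by decide) (by decide) (by decide)).mpr h.z) n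

lemma p6 (h : V x) : GF x f6 := by
  intro a b c w l m s u v e i z ha hb hc hw hl hm hs hu hv he hi
  refine .gd fun g1 => .gn fun g2 => .of ?_
  simp (disch := omega) only [Nat.ble_eq, Nat.beq_eq, eb_fi, Nat.add_eq, Nat.mul_eq, hf_iff] at g1 g2
  simp (disch := omega) only [sat_pos, sat_neg, sat_nil, tr_eq, nx_eq, nmod, Nat.add_eq, Nat.mul_eq,
    Nat.sub_eq, Nat.succ_eq_add_one, wS ha hb hs g1, wS ha hb hu g1]
  omega

lemma p7 (h : V x) : GF x f7 := by
  intro a b c w l m s u v e i z ha hb hc hw hl hm hs hu hv he hi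
  refine .gd fun g1 => .of ?_
  simp (disch := omega) only [Nat.ble_eq, Nat.beq_eq, eb_fi, Nat.add_eq, Nat.mul_eq, hf_iff] at g1
  simp (disch := omega) only [sat_pos, sat_neg, sat_nil, tr_eq, nx_eq, nmod, Nat.add_eq, Nat.mul_eq,
    Nat.sub_eq, Nat.succ_eq_add_one, wI]
  rintro rfl n
  rcases h.sr ha hb with p | p
  · exact n ((wS ha hb hs p.1).2 (by omega))
  · omega

lemma p8 (h : V x) : GF x f8 := by
  intro a b c w l m s u v e i z ha hb hc hw hl hm hs hu hv he hi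
  refine .gd fun g1 => .of ?_
  simp (disch := omega) only [Nat.ble_eq, Nat.beq_eq, eb_fi, Nat.add_eq, Nat.mul_eq, hf_iff] at g1
  simp (disch := omega) only [sat_pos, sat_neg, sat_nil, tr_eq, nx_eq, nmod, Nat.add_eq, Nat.mul_eq,
    Nat.sub_eq, Nat.succ_eq_add_one, wS ha hb hs g1]
  refine fun h1 => sat_map (a := x.i) (List.mem_filter.2 ⟨List.mem_range.2 h.lt, Nat.beq_eq.mpr ?_⟩)
    ((wI h.lt).2 rfl)
  rcases h.sr ha hb with p | p
  · omega
  · exact absurd g1 p.1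

lemma p9 (h : V x) : GF x f9 := by
  intro a b c w l m s u v e i z ha hb hc hw hl hm hs hu hv he hi
  refine .of ?_
  exact sat_map (List.mem_range.2 h.lt) ((wI h.lt).2 rfl)

lemma p10 (h : V x) : GF x f10 := by
  intro a b c w l m s u v e i z ha hb hc hw hl hm hs hu hv he hi
  refine .gd fun g1 => .of ?_
  simp (disch := omega) only [Nat.ble_eq, Nat.beq_eq, eb_fi, Nat.add_eq, Nat.mul_eq, hf_iff] at g1
  simp (disch := omega) only [sat_pos, sat_neg, sat_nil, tr_eq, nx_eq, nmod, Nat.add_eq, Nat.mul_eq,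
    Nat.sub_eq, Nat.succ_eq_add_one, wS ha hb _ g1]
  rcases h.sr ha hb with p | p
  · omega
  · exact absurd g1 p.1

lemma p11 (h : V x) : GF x f11 := by
  intro a b c w l m s u v e i z ha hb hc hw hl hm hs hu hv he hi
  refine .gd fun g1 => .of ?_
  simp (disch := omega) only [Nat.ble_eq, Nat.beq_eq, eb_fi, Nat.add_eq, Nat.mul_eq, hf_iff] at g1
  simp (disch := omega) only [sat_pos, sat_neg, sat_nil, tr_eq, nx_eq, nmod, Nat.add_eq, Nat.mul_eq,
    Nat.sub_eq, Nat.succ_eq_add_one, wG]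
  exact fun h1 n => n (T_lt 0 h1 (by omega) (by omega))

lemma p12 (h : V x) : GF x f12 := by
  intro a b c w l m s u v e i z ha hb hc hw hl hm hs hu hv he hi
  refine .gd fun g1 => .of ?_
  simp (disch := omega) only [Nat.ble_eq, Nat.beq_eq, eb_fi, Nat.add_eq, Nat.mul_eq, hf_iff] at g1
  simp (disch := omega) only [sat_pos, sat_neg, sat_nil, tr_eq, nx_eq, nmod, Nat.add_eq, Nat.mul_eq,
    Nat.sub_eq, Nat.succ_eq_add_one, wG]
  exact fun h1 n => n (T_lt (-((l + 1) / 10 : ℕ)) h1 (by omega) (by omega))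

lemma p13 (h : V x) : GF x f13 := by
  intro a b c w l m s u v e i z ha hb hc hw hl hm hs hu hv he hi
  refine .gd fun g1 => .gd fun g2 => .gd fun g3 => .of ?_
  simp (disch := omega) only [Nat.ble_eq, Nat.beq_eq, eb_fi, Nat.add_eq, Nat.mul_eq, hf_iff] at g1 g2 g3
  simp (disch := omega) only [sat_pos, sat_neg, sat_nil, tr_eq, nx_eq, nmod, Nat.add_eq, Nat.mul_eq,
    Nat.sub_eq, Nat.succ_eq_add_one, wG, wX, wS hb hc hs g1]
  exact fun h1 h2 h3 n => n (T_lt (2 - s - ((l + s + 9) / 10 : ℕ)) (h3.trans_eq (co' g1 h2 h1).2.2.symm)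
    (by omega) (by omega))

lemma p14 (h : V x) : GF x f14 := by
  intro a b c w l m s u v e i z ha hb hc hw hl hm hs hu hv he hi
  refine .gd fun g1 => .of ?_
  simp (disch := omega) only [Nat.ble_eq, Nat.beq_eq, eb_fi, Nat.add_eq, Nat.mul_eq, hf_iff] at g1
  simp (disch := omega) only [sat_pos, sat_neg, sat_nil, tr_eq, nx_eq, nmod, Nat.add_eq, Nat.mul_eq,
    Nat.sub_eq, Nat.succ_eq_add_one, wG, wX, wS hb ha hs g1]
  exact fun h1 h2 n => n ((x.P.T_mono _ (by omega)).trans_eq (co' g1 h2 h1).2.2)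

lemma p15 (h : V x) : GF x f15 := by
  intro a b c w l m s u v e i z ha hb hc hw hl hm hs hu hv he hi
  refine .gd fun g1 => .of ?_
  simp (disch := omega) only [Nat.ble_eq, Nat.beq_eq, eb_fi, Nat.add_eq, Nat.mul_eq, hf_iff] at g1
  simp (disch := omega) only [sat_pos, sat_neg, sat_nil, tr_eq, nx_eq, nmod, Nat.add_eq, Nat.mul_eq,
    Nat.sub_eq, Nat.succ_eq_add_one, wG, wX, wS hb ha hs g1]
  exact fun h1 h2 h3 => h3.not_ge ((co' g1 h2 h1).2.2.ge.trans ((x.P.T_mono _).monotone (by omega)))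

lemma p16 (h : V x) : GF x f16 := by
  intro a b c w l m s u v e i z ha hb hc hw hl hm hs hu hv he hi
  refine .gd fun g1 => .of ?_
  simp (disch := omega) only [Nat.ble_eq, Nat.beq_eq, eb_fi, Nat.add_eq, Nat.mul_eq, hf_iff] at g1
  simp (disch := omega) only [sat_pos, sat_neg, sat_nil, tr_eq, nx_eq, nmod, Nat.add_eq, Nat.mul_eq,
    Nat.sub_eq, Nat.succ_eq_add_one, wG, wX, wS hb ha hs g1]
  exact fun h1 h2 n => n (T_lt (-((l + 1) / 10 : ℕ)) ((co' g1 h2 h1).2.2.trans_lt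
    (x.P.T_mono _ (lt_add_one _))) (by omega) (by omega))

lemma p17 (h : V x) : GF x f17 := by
  intro a b c w l m s u v e i z ha hb hc hw hl hm hs hu hv he hi
  refine .gd fun g1 => .of ?_
  simp (disch := omega) only [Nat.ble_eq, Nat.beq_eq, eb_fi, Nat.add_eq, Nat.mul_eq, hf_iff] at g1
  simp (disch := omega) only [sat_pos, sat_neg, sat_nil, tr_eq, nx_eq, nmod, Nat.add_eq, Nat.mul_eq,
    Nat.sub_eq, Nat.succ_eq_add_one, wG, wS hb ha hs g1]
  obtain ⟨n, n1, n2, n3⟩ := x.P.win g1.1 (l - 9)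
  exact fun h1 k => k ((x.P.T_mono _ (by omega)).trans_le ((co' g1 n3 h1).2.2.le.trans
    ((x.P.T_mono _).monotone (by omega))))

lemma p18 (h : V x) : GF x f18 := by
  intro a b c w l m s u v e i z ha hb hc hw hl hm hs hu hv he hi
  refine .gd fun g1 => .gd fun g2 => .of ?_
  simp (disch := omega) only [Nat.ble_eq, Nat.beq_eq, eb_fi, Nat.add_eq, Nat.mul_eq, hf_iff] at g1 g2
  simp (disch := omega) only [sat_pos, sat_neg, sat_nil, tr_eq, nx_eq, nmod, Nat.add_eq, Nat.mul_eq,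
    Nat.sub_eq, Nat.succ_eq_add_one, wG, wS hb ha hs g1]
  obtain ⟨n, n1, n2, n3⟩ := x.P.win g1.1 l
  exact fun h1 k => k.not_ge (((x.P.T_mono _).monotone n1).trans ((co' g1 n3 h1).2.2.ge.trans
    ((x.P.T_mono _).monotone (by omega))))

lemma p19 (h : V x) : GF x f19 := by
  intro a b c w l m s u v e i z ha hb hc hw hl hm hs hu hv he hi
  refine .gd fun g1 => .of ?_
  simp (disch := omega) only [Nat.ble_eq, Nat.beq_eq, eb_fi, Nat.add_eq, Nat.mul_eq, hf_iff] at g1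
  simp (disch := omega) only [sat_pos, sat_neg, sat_nil, tr_eq, nx_eq, nmod, Nat.add_eq, Nat.mul_eq,
    Nat.sub_eq, Nat.succ_eq_add_one, wX, wA]
  exact fun h1 h2 n => n ⟨l, l + m, h1, (it_dvd (n' := ((l + m) % 10 : ℕ)) (by omega)).trans h2, le_rfl, by omega⟩

lemma p20 (h : V x) : GF x f20 := by
  intro a b c w l m s u v e i z ha hb hc hw hl hm hs hu hv he hi
  refine .gd fun g1 => .of ?_
  simp (disch := omega) only [Nat.ble_eq, Nat.beq_eq, eb_fi, Nat.add_eq, Nat.mul_eq, hf_iff] at g1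
  simp (disch := omega) only [sat_pos, sat_neg, sat_nil, tr_eq, nx_eq, nmod, Nat.add_eq, Nat.mul_eq,
    Nat.sub_eq, Nat.succ_eq_add_one, wX, wA]
  intro h1 h2 h3
  have := h3.le (by omega) h1 ((it_dvd (n := l + m) (n' := ((l + m) % 10 : ℕ)) (by omega)).trans h2)
    (by omega) (by omega)
  omega

lemma p21 (h : V x) : GF x f21 := by
  intro a b c w l m s u v e i z ha hb hc hw hl hm hs hu hv he hi
  refine .gd fun g1 => .of ?_
  simp (disch := omega) only [Nat.ble_eq, Nat.beq_eq, eb_fi, Nat.add_eq, Nat.mul_eq, hf_iff] at g1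
  simp (disch := omega) only [sat_pos, sat_neg, sat_nil, tr_eq, nx_eq, nmod, Nat.add_eq, Nat.mul_eq,
    Nat.sub_eq, Nat.succ_eq_add_one, wA]
  exact fun ⟨n, n', a1, a2, a3, a4⟩ k => k ⟨n, n', a1, a2, by omega, a4⟩

lemma p22 (h : V x) : GF x f22 := by
  intro a b c w l m s u v e i z ha hb hc hw hl hm hs hu hv he hi
  refine .gd fun g1 => .gn fun g2 => .gn fun g3 => .of ?_
  simp (disch := omega) only [Nat.ble_eq, Nat.beq_eq, eb_fi, Nat.add_eq, Nat.mul_eq, hf_iff] at g1 g2 g3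
  simp (disch := omega) only [sat_pos, sat_neg, sat_nil, tr_eq, nx_eq, nmod, Nat.add_eq, Nat.mul_eq,
    Nat.sub_eq, Nat.succ_eq_add_one, wA, wO]
  rintro ⟨n, n', a1, a2, a3, a4⟩ h2 h3
  obtain ⟨k, k1, k2, k3, -⟩ := x.P.next n ((fi_inj hw ha).not.2 g2) (a1 ▸ (fi_inj hb hw).not.2 g3)
  exact h3 ⟨n, k, n', k1, not_le.1 fun q => h2 ⟨n, k, a1, k3, by omega, k2⟩, a4, a1, k3, a2⟩

lemma p23 (h : V x) : GF x f23 := by
  intro a b c w l m s u v e i z ha hb hc hw hl hm hs hu hv he hi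
  refine .gd fun g1 => .gd fun g2 => .gd fun g3 => .gd fun g4 => .of ?_
  simp (disch := omega) only [Nat.ble_eq, Nat.beq_eq, eb_fi, Nat.add_eq, Nat.mul_eq, hf_iff] at g1 g2 g3 g4
  simp (disch := omega) only [sat_pos, sat_neg, sat_nil, tr_eq, nx_eq, nmod, Nat.add_eq, Nat.mul_eq,
    Nat.sub_eq, Nat.succ_eq_add_one, wM, wS ha hb hs g1, wS hb hc hu g2, wS hc ha hv g3]
  exact fun h1 h2 h3 n => n ⟨g1, g2, g3, by unfold PM.mu; omega⟩

lemma p24 (h : V x) : GF x f24 := by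
  intro a b c w l m s u v e i z ha hb hc hw hl hm hs hu hv he hi
  refine .gd fun g1 => .of ?_
  simp (disch := omega) only [Nat.ble_eq, Nat.beq_eq, eb_fi, Nat.add_eq, Nat.mul_eq, hf_iff] at g1
  simp (disch := omega) only [sat_pos, sat_neg, sat_nil, tr_eq, nx_eq, nmod, Nat.add_eq, Nat.mul_eq,
    Nat.sub_eq, Nat.succ_eq_add_one, wM, sat_app]
  intro h1 h2 h3
  by_contra h4
  obtain ⟨n1, n2, m1, m2, l1, l2, j, p, q, t, hj, k⟩ := walk3 h1.a1 h1.a2 h1.a3
  have := nA_le ha hc hb (by omega) h2 p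
  have := nA_le hb ha hc (by omega) h3 q
  have := nA_le hc hb ha (by omega) h4 t
  rw [h1.e] at k
  omega

lemma p25 (h : V x) : GF x f25 := by
  intro a b c w l m s u v e i z ha hb hc hw hl hm hs hu hv he hi
  refine .gd fun g1 => .gd fun g2 => .of ?_
  rw [Nat.beq_eq] at g1
  simp (disch := omega) only [sat_pos, sat_neg, sat_nil, tr_eq, nx_eq, nmod, Nat.add_eq, Nat.mul_eq,
    Nat.sub_eq, Nat.succ_eq_add_one, wI, wO]
  rintro rfl o
  have d1 : dg (a + 11 * b + 121 * w + 1331 * c) 1 = a := by change _ / 1 % 11 = a; omega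
  have d2 : dg (a + 11 * b + 121 * w + 1331 * c) 11 = b := by change _ / 11 % 11 = b; omega
  have d3 : dg (a + 11 * b + 121 * w + 1331 * c) 121 = w := by change _ / 121 % 11 = w; omega
  have d4 : dg (a + 11 * b + 121 * w + 1331 * c) 1331 = c := by change _ / 1331 % 11 = c; omega
  have := h.card {a + 11 * b + 121 * w + 1331 * c} fun q hq => by
    rw [mem_singleton.1 hq, Oc, d1, d2, d3, d4]
    exact ⟨by omega, g2, o⟩
  rw [card_singleton] at this
  omega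

lemma p26 (h : V x) : GF x f26 := by
  intro a b c w l m s u v e i z ha hb hc hw hl hm hs hu hv he hi
  refine .gd fun g1 => .gd fun g2 => .gd fun g3 => .of ?_
  simp (disch := omega) only [Nat.ble_eq, Nat.beq_eq, eb_fi, Nat.add_eq, Nat.mul_eq, hf_iff] at g1 g2 g3
  simp (disch := omega) only [sat_pos, sat_neg, sat_nil, tr_eq, nx_eq, nmod, Nat.add_eq, Nat.mul_eq,
    Nat.sub_eq, Nat.succ_eq_add_one, wE, cn_succ]
  omega

lemma p27 (h : V x) : GF x f27 := by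
  intro a b c w l m s u v e i z ha hb hc hw hl hm hs hu hv he hi
  refine .gd fun g1 => .gd fun g2 => .of ?_
  simp (disch := omega) only [Nat.ble_eq, Nat.beq_eq, eb_fi, Nat.add_eq, Nat.mul_eq, hf_iff] at g1 g2
  simp (disch := omega) only [sat_pos, sat_neg, sat_nil, tr_eq, nx_eq, nmod, Nat.add_eq, Nat.mul_eq,
    Nat.sub_eq, Nat.succ_eq_add_one, wO (dg_lt _ _) (dg_lt _ _) (dg_lt _ _) (dg_lt _ _)]
  intro (o : Oc x.P (xq i z))
  have := cn_succ (x := x) i z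
  rw [if_pos o] at this
  cases k : Nat.ble 1 l
  · have : ¬ 1 ≤ l := fun f => by rw [Nat.ble_eq.mpr f] at k; cases k
    simp (disch := omega) only [cond_false, List.nil_append, sat_pos, sat_nil, wE]
    omega
  · have := Nat.ble_eq.mp k
    simp (disch := omega) only [cond_true, List.cons_append, List.nil_append, sat_neg, sat_pos, sat_nil, wE]
    omega

lemma p28 (h : V x) : GF x f28 := by
  intro a b c w l m s u v e i z ha hb hc hw hl hm hs hu hv he hi
  refine .gd fun g1 => .gd fun g2 => .gd fun g3 => .of ?_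
  rw [Nat.ble_eq] at g1 g2
  simp only [nmod] at g2 g3
  simp (disch := omega) only [sat_pos, sat_neg, sat_nil, tr_eq, nx_eq, nmod, Nat.add_eq, Nat.mul_eq,
    Nat.sub_eq, Nat.succ_eq_add_one, wI, wE]
  rintro rfl o
  simp only [List.all_eq_true, List.mem_range, Bool.cond_eq_ite, Bool.ite_eq_true_distrib, Nat.ble_eq,
    Bool.false_eq_true, if_false_right, if_true_left] at g3
  have := h.card _ fun q hq => by
    obtain ⟨k, hk, rfl⟩ := mem_image.1 (show q ∈ ((range (z % 512)).filter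
      fun k => Oc x.P (xq (Nat.div z 512) k)).image (xq (Nat.div z 512)) from hq)
    rw [mem_filter, mem_range] at hk
    exact ⟨(g3 k hk.1).2.1, (g3 k hk.1).1, hk.2⟩
  have t := smono (f := xq (Nat.div z 512)) fun k hk => or_iff_not_imp_left.2 (g3 k hk).2.2
  rw [card_image_of_injOn fun p hp q hq f => by
    have := t p q
    have := t q p
    have := mem_range.1 (mem_filter.1 (mem_coe.1 hp)).1
    have := mem_range.1 (mem_filter.1 (mem_coe.1 hq)).1
    omega] at this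
  exact absurd this (not_le.2 o)

lemma p29 (h : V x) : GF x f29 := by
  intro a b c w l m s u v e i z ha hb hc hw hl hm hs hu hv he hi
  refine .gd fun g1 => .gd fun g2 => .gd fun g3 => .of ?_
  rw [Nat.beq_eq] at g1 g2
  simp only [List.all_eq_true, m11, Bool.cond_eq_ite, Bool.ite_eq_true_distrib, Nat.ble_eq, Nat.beq_eq,
    Bool.false_eq_true, if_false_right, if_true_left] at g3
  have lt : ∀ p < 11, gv z p < 11 := fun p hp => Nat.lt_succ_of_le (g3 p hp).1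
  simp (disch := omega) only [sat_neg, sat_nil, wI, wO _ _ ha (lt a ha)]
  rintro rfl o
  have iv : Function.Involutive fun p : Fin 11 => fi (gv z p) := fun p => by
    simp only [fi_val (lt p p.2), (g3 p p.2).2.1, fi_fin]
  have k : ∀ p q : Fin 11, (ad (fi (gv z p)) (fi (gv z q)) ↔ ad p q) ∧
      (ad p q → str x.i (fi (gv z p)) (fi (gv z q)) = str x.i p q) := fun p q => by
    have t := (g3 p p.2).2.2.2 q q.2
    have t1 := sr_eq h.lt (fi (gv z p)) (fi (gv z q))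
    rw [fi_val (lt p p.2), fi_val (lt q q.2)] at t1
    rcases t1 with t1 | t1 <;> rcases sr_eq h.lt p q with t2 | t2
    · exact ⟨iff_of_true t1.1 t2.1, fun _ => by omega⟩
    · omega
    · omega
    · exact ⟨iff_of_false t1.1 t2.1, fun f => absurd f t2.1⟩
  refine h.sy iv.toPerm (fi a) (fun p q => (k p q).1) (fun p q => (k p q).2) (congrArg fi g1) (congrArg fi g2)
    (fun p hp => ?_) (by simp only [Function.Involutive.coe_toPerm, fi_val ha]; exact o)
  rw [Fin.lt_def, fi_val ha] at hp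
  exact (congrArg fi ((g3 p p.2).2.2.1 (by omega))).trans (fi_fin p)

lemma p30 (h : V x) : GF x f30 := by
  intro a b c w l m s u v e i z ha hb hc hw hl hm hs hu hv he hi
  refine .gd fun g1 => .of ?_
  simp (disch := omega) only [Nat.ble_eq, Nat.beq_eq, eb_fi, Nat.add_eq, Nat.mul_eq, hf_iff] at g1
  simp (disch := omega) only [sat_pos, sat_neg, sat_nil, tr_eq, nx_eq, nmod, Nat.add_eq, Nat.mul_eq,
    Nat.sub_eq, Nat.succ_eq_add_one, wI, wR, wX ha (pr_lt g1)]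
  exact fun _ h2 n => n ⟨l, h2, by simp, by simp⟩

lemma p31 (h : V x) : GF x f31 := by
  intro a b c w l m s u v e i z ha hb hc hw hl hm hs hu hv he hi
  refine .gd fun g1 => .of ?_
  simp (disch := omega) only [Nat.ble_eq, Nat.beq_eq, eb_fi, Nat.add_eq, Nat.mul_eq, hf_iff] at g1
  simp (disch := omega) only [sat_pos, sat_neg, sat_nil, tr_eq, nx_eq, nmod, Nat.add_eq, Nat.mul_eq,
    Nat.sub_eq, Nat.succ_eq_add_one, wR]
  rintro ⟨n, a1, a2, a3⟩ k
  refine k ⟨n, a1, by omega, ?_⟩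
  have := x.P.step (fi b) (n + m + 11 * (u - 1))
  push_cast
  rw [show n + (m + 1) + 11 * (u - 1) = n + m + 11 * ((u : ℤ) - 1) + 1 by ring]
  linarith

lemma p32 (h : V x) : GF x f32 := by
  intro a b c w l m s u v e i z ha hb hc hw hl hm hs hu hv he hi
  refine .gd fun g1 => .gd fun g2 => .gd fun g3 => .gd fun g4 => .of ?_
  simp (disch := omega) only [Nat.ble_eq, Nat.beq_eq, eb_fi, Nat.add_eq, Nat.mul_eq, hf_iff] at g1 g2 g3 g4
  simp (disch := omega) only [sat_pos, sat_neg, sat_nil, tr_eq, nx_eq, nmod, Nat.add_eq, Nat.mul_eq,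
    Nat.sub_eq, Nat.succ_eq_add_one, wR, wX, wS hb hc hs g2]
  rintro ⟨n, a1, a2, a3⟩ h2 h3 k
  refine k ⟨n, a1, by omega, ?_⟩
  have := (co' g2 ((it_dvd (n := n + m + 11 * (u - 1)) (by omega)).trans h3) h2).2.1
  push_cast [Nat.cast_sub g3] at this ⊢
  rw [show n + m + 11 * (u + s - 1 - 1) = n + m + 11 * ((u : ℤ) - 1) + 11 * (s - 1) by ring]
  linarith

lemma p33 (h : V x) : GF x f33 := by
  intro a b c w l m s u v e i z ha hb hc hw hl hm hs hu hv he hi
  refine .gd fun g1 => .gd fun g2 => .of ?_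
  simp (disch := omega) only [Nat.ble_eq, Nat.beq_eq, eb_fi, Nat.add_eq, Nat.mul_eq, hf_iff] at g1 g2
  simp (disch := omega) only [sat_pos, sat_neg, sat_nil, tr_eq, nx_eq, nmod, Nat.add_eq, Nat.mul_eq,
    Nat.sub_eq, Nat.succ_eq_add_one, wR, wL, wX hb (pr_lt g2)]
  rintro ⟨n, a1, a2, a3⟩ h2 k
  exact k ⟨n, u - 1, by omega, by omega, a1, (it_dvd (by omega)).trans h2, by push_cast; exact a3⟩

lemma p34 (h : V x) : GF x f34 := by
  intro a b c w l m s u v e i z ha hb hc hw hl hm hs hu hv he hi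
  refine .gd fun g1 => .gd fun g2 => .gd fun g3 => .gd fun g4 => .gn fun g5 => .gn fun g6 => .gn fun g7 => .gn fun g8 => .gn fun g9 => .gn fun g10 => .of ?_
  simp (disch := omega) only [Nat.ble_eq, Nat.beq_eq, eb_fi, Nat.add_eq, Nat.mul_eq, hf_iff] at g1 g2 g3 g4 g5 g6 g7 g8 g9 g10
  have := pr_lt g1
  have := pr_lt g2
  have := pr_lt g3
  have := pr_lt g4
  simp (disch := omega) only [sat_neg, sat_nil, wL]
  obtain ⟨a, rfl⟩ : ∃ p : Fin 8, p = a := ⟨⟨a, by omega⟩, rfl⟩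
  obtain ⟨b, rfl⟩ : ∃ p : Fin 8, p = b := ⟨⟨b, by omega⟩, rfl⟩
  obtain ⟨c, rfl⟩ : ∃ p : Fin 8, p = c := ⟨⟨c, by omega⟩, rfl⟩
  obtain ⟨w, rfl⟩ : ∃ p : Fin 8, p = w := ⟨⟨w, by omega⟩, rfl⟩
  simp only [fun p => (fi_vx p).2.2, fun p => (fi_vx p).1]
  intro h0 h1 h2 h3 h4 h5 h6 h7
  obtain ⟨n, z0, p0, q0, e0, e1, f0⟩ := h0
  obtain ⟨z1, p1, q1, e2, f1⟩ := h1.at e1
  obtain ⟨z2, p2, q2, e3, f2⟩ := h2.at e2
  obtain ⟨z3, p3, q3, e4, f3⟩ := h3.at e3
  obtain ⟨z4, p4, q4, e5, f4⟩ := h4.at e4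
  obtain ⟨z5, p5, q5, e6, f5⟩ := h5.at e5
  obtain ⟨z6, p6, q6, e7, f6⟩ := h6.at e6
  obtain ⟨z7, p7, q7, e8, f7⟩ := h7.at e7
  have := (x.P.inj _ _ _).1 (e0.trans e8.symm)
  have zz : z0 + z1 + z2 + z3 + z4 + z5 + z6 + z7 = -1 := by omega
  replace f7 := f7.trans_eq (F_eq (n := n) 1 (by omega))
  have zr : r * z0 + r * z1 + r * z2 + r * z3 + r * z4 + r * z5 + r * z6 + r * z7 = -r := by
    have : (z0 + z1 + z2 + z3 + z4 + z5 + z6 + z7 : ℝ) = -1 := by exact_mod_cast zz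
    linear_combination r * this
  have cg : ∀ {p q : Fin 11} {k : ℤ} (j : ℤ), x.P.it p k = q → Cg r (x.C p q) (x.P.F p k - r * j) :=
    fun j e => (e ▸ h.rep _ _).trans ⟨j, by ring⟩
  refine h.nr ⟨![a, b, c, w, pa b, pa c, pa w, pa a], ![_, _, _, _, _, _, _, _], ?_, rfl, rfl, rfl, rfl,
    Fin.forall_fin_succ.2 ⟨cg 0 e0, Fin.forall_fin_succ.2 ⟨cg z0 e1, Fin.forall_fin_succ.2 ⟨cg (z0 + z1) e2,
      Fin.forall_fin_succ.2 ⟨cg (z0 + z1 + z2) e3, Fin.forall_fin_succ.2 ⟨cg (z0 + z1 + z2 + z3) e4,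
      Fin.forall_fin_succ.2 ⟨cg (z0 + z1 + z2 + z3 + z4) e5, Fin.forall_fin_succ.2
      ⟨cg (z0 + z1 + z2 + z3 + z4 + z5) e6, Fin.forall_fin_one.2
      (cg (z0 + z1 + z2 + z3 + z4 + z5 + z6) e7)⟩⟩⟩⟩⟩⟩⟩, ?_⟩
  · exact inj8 a b g5 c g6 g8 w g7 g9 g10
  · simp only [Matrix.cons_val]
    push_cast at *
    refine ⟨?_, ?_, ?_, ?_, ?_, ?_, ?_, ?_⟩ <;> linarith

lemma cf {b : Bool} {f g : ℕ → ℕ → ℕ → ℕ → ℕ → ℕ → ℕ → ℕ → ℕ → ℕ → ℕ → ℕ → List ℕ} (hf : GF x f) (hg : GF x g) :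
    GF x (cond b f g) := by
  cases b <;> assumption

lemma fam_ok (h : V x) (t : ℕ) : GF x (fam t) :=
  cf (cf (cf (cf (cf (cf (p34 h) (p33 h)) (p32 h)) (cf (p31 h) (p30 h))) (cf (cf (p29 h) (p28 h))
    (cf (p27 h) (p26 h)))) (cf (cf (cf (cf (p25 h) (p24 h)) (p23 h)) (cf (p22 h) (p21 h))) (cf (cf
    (p20 h) (p19 h)) (cf (p18 h) (p17 h))))) (cf (cf (cf (cf (cf (p16 h) (p15 h)) (p14 h)) (cf (p13
    h) (p12 h))) (cf (cf (p11 h) (p10 h)) (cf (p9 h) (p8 h)))) (cf (cf (cf (p7 h) (p6 h)) (cf (p5 h)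
    (p4 h))) (cf (cf (p3 h) (p2 h)) (cf (p1 h) (p0 h)))))

theorem sound (r : ℝ) (c h : ℕ) (e : chk c h = 0) : Univ (V (r := r)) W c := fun x hv => by
  obtain ⟨a, b⟩ := cmp_ok _ _ _ e
  have m : ∀ {n k : ℕ}, 0 < k → Nat.mod n k < k := fun g => Nat.mod_lt _ g
  obtain ⟨l, p, q⟩ := fam_ok hv _ _ _ _ _ _ _ _ _ _ _ _ _ (dg_lt _ _) (dg_lt _ _) (dg_lt _ _) (dg_lt _ _)
    (m (by omega)) (m (by omega)) (m (by omega)) (m (by omega)) (m (by omega)) (m (by omega)) (m (by omega)) a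
  exact ⟨l, (memC_iff c l).2 (.inr (b l p)), q⟩

end Pool.Agent.P.MP_3f5ded_co.UG.B10
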