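import Pool.Agent.P.MP_3f5ded_co.TenChk
import Pool.Agent.P.MP_3f5ded_co.TenEe

set_option autoImplicit false

namespace Pool.Agent.P.MP_3f5ded_co.UG.B10

/-! Tests of the tables. -/

theorem sm_eq_zero {n : ℕ} {f : ℕ → ℕ} (h : sm n f = 0) : ∀ j < n, f j = 0 := by
  induction n with
  | zero => simp
  | succ n ih =>
    change sm n f + f n = 0 at h
    rw [Nat.add_eq_zero_iff] at h
    intro j l
    rcases Nat.lt_succ_iff_lt_or_eq.1 l with l | rfl
    · exact ih h.1 j l
    · exact h.2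

theorem fr_eq' (x : ℕ) (f : ℕ → ℕ) : fr x f = f x := by cases x <;> rfl

theorem eb_iff : ∀ x y : Fin 11, eb x y = true ↔ ad x y := by decide +kernel

open En

theorem t4_ok : (sm 265 fun i => fr (row i) fun r =>
    fr (Nat.mod (Nat.shiftRight tab (Nat.mul 128 i)) 340282366920938463463374607431768211456) fun T =>
    Nat.add (sm 11 fun x => Nat.add (bt T (Nat.add (Nat.mul 11 x) 8)) (bt T (Nat.add 88 x)))
      (sm 11 fun x => sm 11 fun y => Nat.xor (sr r x y) (cond (eb x y)
        (Nat.sub (Nat.succ (bt T (Nat.add (Nat.mul 11 x) y))) (bt T (Nat.add (Nat.mul 11 y) x))) 8))) = 0 := by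
  decide +kernel

/-- The rows of the table of shifts. -/
theorem sr_row {i : ℕ} (h : i < 265) (x y : Fin 11) :
    ((sr (row i) x y : ℕ) : ℤ) = if ad x y then str i x y + 1 else 8 := by
  have := sm_eq_zero t4_ok i h
  simp only [fr_eq'] at this
  have := sm_eq_zero (sm_eq_zero (Nat.add_eq_zero_iff.1 this).2 x x.2) y y.2
  have e := Nat.xor_eq_zero_iff.1 this
  have a := bt_tb i x y
  have b := bt_tb i y x
  have l : tb i y x < 2 := Nat.mod_lt _ two_pos
  change sr _ _ _ = cond _ (bt _ (11 * x.1 + y.1) + 1 - bt _ (11 * y.1 + x.1)) 8 at e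
  rw [e, a, b, str]
  by_cases k : ad x y
  · rw [if_pos k, (eb_iff x y).2 k, cond_true]; omega
  · rw [if_neg k, Bool.eq_false_iff.2 fun e => k ((eb_iff x y).1 e), cond_false]; rfl

/-- No shift at the vertex `8`. -/
theorem str8 {i : ℕ} (h : i < 265) (x : Fin 11) : str i x 8 = 0 ∧ str i 8 x = 0 := by
  have := sm_eq_zero t4_ok i h
  simp only [fr_eq'] at this
  have := sm_eq_zero (Nat.add_eq_zero_iff.1 this).1 x x.2
  have a := bt_tb i x 8
  have b := bt_tb i 8 x
  change bt _ (11 * x.1 + (8 : Fin 11).1) + bt _ (11 * (8 : Fin 11).1 + x.1) = 0 at this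
  rw [a, b] at this
  unfold str
  omega

noncomputable def mm (r : ℕ) (n : ℕ) : ℕ := @Nat.rec (fun _ => ℕ) 0 (fun j ih => Nat.lor ih
  (fr (Nat.mod (Nat.shiftRight r (Nat.mul 4 j)) 16) fun v =>
    ifz (Nat.div v 4) (Nat.shiftLeft 1 (Nat.add (Nat.mul 3 j) v)) 0)) n

theorem gg_ok : (sm 265 fun i => fr (row i) fun r => fr (mm r 121) fun M => Nat.sub 1
    (tris M 1 (fun _ _ => 0) ((L1 ++ L2).flatMap Lv.t) 1 (Nat.succ (gb i)))) = 0 := by
  decide +kernel

theorem mm_ok {i : ℕ} (h : i < 265) {d : Fin 11 → Fin 11 → ℤ}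
    (e : ∀ a b, ad a b → d a b = str i a b) : ∀ n ≤ 121, VM d (mm (row i) n) := by
  intro n
  induction n with
  | zero => intro _ j k; simp [mm] at k
  | succ n ih =>
    intro l
    refine VM_or (ih (by omega)) ?_
    rw [fr_eq', ifz_eq]
    have s := sr_row h (fo (n / 11)) (fo n)
    have q : 11 * (fo (n / 11)).1 + (fo n).1 = n := by simp only [fo]; omega
    change ((row i >>> (4 * (11 * (fo (n / 11)).1 + (fo n).1)) % 16 : ℕ) : ℤ) = _ at s
    rw [q] at s
    change VM d (if row i >>> (4 * n) % 16 / 4 = 0 then 1 <<< (3 * n + row i >>> (4 * n) % 16) else 0)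
    generalize row i >>> (4 * n) % 16 = v at *
    split_ifs with k
    · have a : tb i (fo (n / 11)) (fo n) < 2 := Nat.mod_lt _ two_pos
      rw [Nat.one_shiftLeft, show 3 * n = ix (fo (n / 11)) (fo n) by unfold ix; omega]
      split_ifs at s with b
      · exact VM_pow (by unfold str at s; omega) (by rw [e _ _ b]; omega)
      · omega
    · intro j k; simp at k

/-- The balance of the structures of the table. -/
theorem gg_le {i : ℕ} (h : i < 265) {d : Fin 11 → Fin 11 → ℤ} (hd : Sd d)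
    (e : ∀ a b, ad a b → d a b = str i a b) : GG d ≤ gb i := by
  by_contra c
  have := sm_eq_zero gg_ok i h
  simp only [fr_eq'] at this
  change 1 - tris _ _ _ _ _ (gb i + 1) = 0 at this
  refine tris_ok (τ := ta) hd (G := GG d - (gb i + 1)) (by omega) (Q := False) (h := 1)
    (k := fun _ _ => 0) le_rfl (fun _ _ k => absurd rfl k) ((L1 ++ L2).flatMap Lv.t) (fun r k => ?_)
    1 (gb i + 1) (by omega) (mm_ok h e 121 le_rfl) (fun j k => ?_) ?_
  · obtain ⟨l, a, b⟩ := List.mem_flatMap.1 k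
    exact ((List.mem_append.1 a).elim (w1 l) (w2 l)).2.2.2.2.2.2 r b
  · rw [Nat.testBit_one_eq_true_iff_self_eq_zero.1 k]; exact oc_zero d
  · have := ev_zero d pol
    have := GG_le hd
    rw [List.flatMap_assoc, List.flatMap_append]
    simp only [PL, ev_append, ev_cons, ev_nil, mv, oc_zero] at *
    push_cast
    omega

end Pool.Agent.P.MP_3f5ded_co.UG.B10
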