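import Pool.Agent.P.MP_3f5ded_co.EQBa
import Pool.Agent.P.MP_3f5ded_co.TenDef

set_option autoImplicit false

namespace Pool.Agent.P.MP_3f5ded_co.UG.B10

open Finset PM

section Ord
variable {W : Type} [Fintype W] [LinearOrder W]

lemma ins1 (f : W → W → ℤ) (h : ∀ p, f p p = 0) :
    ∑ p, ∑ d, f p d = ∑ p, ∑ q, if p < q then f p q + f q p else 0 := by
  have e : ∀ p d, f p d = (if p < d then f p d else 0) + if d < p then f p d else 0 := fun p d => by
    rcases lt_trichotomy p d with g | rfl | g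
    · simp [g, g.not_gt]
    · simp [h]
    · simp [g, g.not_gt]
  rw [sum_congr rfl fun p _ => sum_congr rfl fun d _ => e p d]
  simp only [sum_add_distrib, ite_add_zero]
  rw [sum_comm (f := fun p d => if d < p then f p d else 0)]

lemma ins2 (f : W → W → W → ℤ) (h : ∀ p q, f p q p = 0 ∧ f p q q = 0) :
    ∑ p, ∑ q, ∑ d, (if p < q then f p q d else 0) =
      ∑ p, ∑ q, ∑ s, if p < q ∧ q < s then f p q s + f p s q + f q s p else 0 := by
  have e : ∀ p q d, (if p < q then f p q d else 0) = (if p < q ∧ q < d then f p q d else 0) +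
      (if p < d ∧ d < q then f p q d else 0) + if d < p ∧ p < q then f p q d else 0 := fun p q d => by
    by_cases a : p < q
    · rcases lt_trichotomy p d with g | rfl | g
      · rcases lt_trichotomy q d with b | rfl | b
        · simp [a, g, b, g.not_gt, b.not_gt]
        · simp [(h p q).2]
        · simp [a, g, b, g.not_gt, b.not_gt]
      · simp [(h p q).1]
      · simp [a, g, g.not_gt, (g.trans a).not_gt]
    · rw [if_neg a, if_neg fun g => a g.1, if_neg fun g => a (g.1.trans g.2), if_neg fun g => a g.2]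
      rfl
  simp only [e, sum_add_distrib, ite_add_zero]
  congr 1
  · congr 1
    exact sum_congr rfl fun p _ => sum_comm
  · exact ((sum_comm.trans (sum_congr rfl fun q _ => sum_comm))).symm

lemma ins3 (f : W → W → W → W → ℤ) (h : ∀ p q s, f p q s p = 0 ∧ f p q s q = 0 ∧ f p q s s = 0) :
    ∑ p, ∑ q, ∑ s, ∑ d, (if p < q ∧ q < s then f p q s d else 0) =
      ∑ p, ∑ q, ∑ s, ∑ t, if p < q ∧ q < s ∧ s < t then
        f p q s t + f p q t s + f p s t q + f q s t p else 0 := by
  have e : ∀ p q s d, (if p < q ∧ q < s then f p q s d else 0) =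
      (if p < q ∧ q < s ∧ s < d then f p q s d else 0) + (if p < q ∧ q < d ∧ d < s then f p q s d else 0) +
      (if p < d ∧ d < q ∧ q < s then f p q s d else 0) +
      if d < p ∧ p < q ∧ q < s then f p q s d else 0 := fun p q s d => by
    by_cases a : p < q ∧ q < s
    · obtain ⟨a, a'⟩ := a
      rcases lt_trichotomy p d with g | rfl | g
      · rcases lt_trichotomy q d with b | rfl | b
        · rcases lt_trichotomy s d with c | rfl | c
          · simp [a, a', g, b, c, g.not_gt, b.not_gt, c.not_gt]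
          · simp [(h p q s).2.2]
          · simp [a, a', g, b, c, g.not_gt, b.not_gt, c.not_gt]
        · simp [(h p q s).2.1]
        · simp [a, a', g, b, g.not_gt, b.not_gt, (b.trans a').not_gt]
      · simp [(h p q s).1]
      · simp [a, a', g, g.not_gt, (g.trans a).not_gt, ((g.trans a).trans a').not_gt]
    · rw [if_neg a, if_neg fun g => a ⟨g.1, g.2.1⟩, if_neg fun g => a ⟨g.1, g.2.1.trans g.2.2⟩,
        if_neg fun g => a ⟨g.1.trans g.2.1, g.2.2⟩, if_neg fun g => a g.2]
      rfl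
  simp only [e, sum_add_distrib, ite_add_zero]
  congr 1
  · congr 1
    · congr 1
      exact sum_congr rfl fun p _ => sum_congr rfl fun q _ => sum_comm
    · exact sum_congr rfl fun p _ => (sum_comm.trans (sum_congr rfl fun q _ => sum_comm)).symm
  · exact (sum_comm.trans (sum_congr rfl fun q _ => sum_comm.trans
      (sum_congr rfl fun s _ => sum_comm))).symm

end Ord

variable {r : ℝ} (P : PM (Fin 11) 10 r Mis)

/-- An incidence that the balance has to pay for. -/
def Ex (x y c w : Fin 11) : Prop :=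
  P.Sh x y c ∧ wd P.sh x y w = 0 ∧ wd P.sh x c w = 0 ∧ P.On x c w y

noncomputable def e2 (p q s w : Fin 11) : ℤ := ind (Ex P p q s w) + ind (Ex P q p s w)

noncomputable def e6 (p q s w : Fin 11) : ℤ := e2 P p q s w + e2 P p s q w + e2 P q s p w

variable {P} {x y c w : Fin 11}

lemma wd_eq (x y c : Fin 11) : wd P.sh x y c = ind (P.Sh x y c) + ind (P.Sh y x c) := by
  unfold wd
  split_ifs with h
  · obtain ⟨h1, h2, h3, h4⟩ := h
    have s := mu_swap (P := P) h1 h2 h3
    rcases mu_cases (P := P) h1 h2 h3 with e | e | e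
    · have g : P.Sh y x c := ⟨Ad.symm h1, Ad.symm h3, Ad.symm h2, by omega⟩
      rw [ind_neg g.not_swap, ind_pos g, zero_add]
    · exact absurd e h4
    · have g : P.Sh x y c := ⟨h1, h2, h3, e⟩
      rw [ind_neg g.not_swap, ind_pos g, add_zero]
  · rw [ind_neg fun g : P.Sh x y c => h ⟨g.a1, g.a2, g.a3, fun e => by
      have := g.e.symm.trans e; omega⟩, ind_neg fun g : P.Sh y x c => h ⟨g.a1.symm, g.a3.symm, g.a2.symm,
      fun e => by
        have := mu_swap g.a1.symm g.a3.symm g.a2.symm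
        rw [g.e, show P.mu x y c = 0 from e] at this
        omega⟩, add_zero]

lemma wd_swap (x y c : Fin 11) : wd P.sh y x c = wd P.sh x y c := by rw [wd_eq, wd_eq, add_comm]

lemma wd_rot (x y c : Fin 11) : wd P.sh y c x = wd P.sh x y c := by
  rw [wd_eq, wd_eq, sh_rot, ← sh_rot (x := c)]

lemma wd_swap' (x y c : Fin 11) : wd P.sh x c y = wd P.sh x y c := by rw [← wd_swap, wd_rot c x y]

lemma wd_cases (d : Fin 11 → Fin 11 → ℤ) (x y c : Fin 11) : wd d x y c = 0 ∨ wd d x y c = 1 := by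
  unfold wd; split_ifs <;> simp

lemma wd_sh (h : P.Sh x y c) : wd P.sh x y c = 1 := by
  rw [wd_eq, ind_pos h, ind_neg h.not_swap, add_zero]

lemma wd_one (h : wd P.sh x y c = 1) : P.Sh x y c ∨ P.Sh y x c := by
  rw [wd_eq] at h
  by_contra g
  rw [ind_neg fun a => g (.inl a), ind_neg fun a => g (.inr a)] at h
  omega

lemma e6_swap (x y c w : Fin 11) : e6 P y x c w = e6 P x y c w := by unfold e6 e2; ring

lemma e6_rot (x y c w : Fin 11) : e6 P y c x w = e6 P x y c w := by unfold e6 e2; ring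

lemma e6_swap' (x y c w : Fin 11) : e6 P x c y w = e6 P x y c w := by unfold e6 e2; ring

lemma ind_le {p q : Prop} (h : p → q) : ind p ≤ ind q := by
  rcases ind_cases p with a | a
  · rw [a.2, ind_pos (h a.1)]
  · rw [a.2]; exact ind_nonneg q

lemma e6_sh (h : P.Sh x y c) (w : Fin 11) :
    e6 P x y c w = ind (Ex P x y c w) + ind (Ex P y c x w) + ind (Ex P c x y w) := by
  unfold e6 e2
  rw [ind_neg (p := Ex P y x c w) fun g => h.not_swap g.1,
    ind_neg (p := Ex P x c y w) fun g => h.not_swap g.1.rot.rot,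
    ind_neg (p := Ex P c y x w) fun g => h.not_swap g.1.rot]
  ring

lemma flat (h : wd P.sh x y c = 0) (w : Fin 11) : e6 P x y c w = 0 ∧ P.f4 x y c w = 0 := by
  have a : ¬ P.Sh x y c := fun g => by have := wd_sh g; omega
  have b : ¬ P.Sh y x c := fun g => by have := wd_sh g; rw [wd_swap] at this; omega
  refine ⟨?_, by rw [f4, g4_neg a, g4_neg b, add_zero]⟩
  unfold e6 e2
  rw [ind_neg fun g : Ex P x y c w => a g.1, ind_neg fun g : Ex P y x c w => b g.1,
    ind_neg fun g : Ex P x c y w => b g.1.rot.rot, ind_neg fun g : Ex P c x y w => a g.1.rot,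
    ind_neg fun g : Ex P y c x w => a g.1.rot.rot, ind_neg fun g : Ex P c y x w => b g.1.rot]
  rfl

lemma one_sh (h : P.Sh x y c) (h1 : w ≠ x) (h2 : w ≠ y) (h3 : w ≠ c) :
    e6 P x y c w ≤ P.f4 x y c w + 1 := by
  have := ind_le fun g : Ex P x y c w => g.2.2.2
  have := ind_le fun g : Ex P y c x w => g.2.2.2
  have := ind_le fun g : Ex P c x y w => g.2.2.2
  rw [e6_sh h, f4_sh h h1 h2 h3, met]
  omega

lemma one (h1 : w ≠ x) (h2 : w ≠ y) (h3 : w ≠ c) : e6 P x y c w ≤ P.f4 x y c w + wd P.sh x y c := by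
  rcases wd_cases P.sh x y c with h | h
  · have := flat h w
    omega
  · rw [h]
    rcases wd_one h with g | g
    · exact one_sh g h1 h2 h3
    · rw [← e6_swap, ← f4_swap]
      exact one_sh g h2 h1 h3

lemma cor (h : P.Sh x y c) (g : wd P.sh x y w = 1) : e6 P x y c w ≤ ind (P.On c y w x) := by
  rw [e6_sh h, ind_neg fun a : Ex P x y c w => by have := a.2.1; omega,
    ind_neg fun a : Ex P y c x w => by have := a.2.2.1; rw [wd_swap] at this; omega, add_zero, zero_add]
  exact ind_le fun a => a.2.2.2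

lemma two_sh (h : P.Sh x y c) (g : wd P.sh x y w = 1) (e : w ≠ c) :
    e6 P x y c w + e6 P x y w c ≤ P.f4 x y c w + P.f4 x y w c := by
  have a := cor h g
  rcases wd_one g with b | b
  · have := cor b (wd_sh h)
    have := met_twin h b e.symm
    rw [f4_sh h b.a3.1.symm b.a2.1 e, f4_sh b h.a3.1.symm h.a2.1 e.symm]
    omega
  · have := cor b ((wd_swap _ _ _).trans (wd_sh h))
    have := met_anti h b
    rw [f4_sh h b.a2.1 b.a3.1.symm e, ← f4_swap, f4_sh b h.a2.1 h.a3.1.symm e.symm, ← e6_swap x y w]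
    omega

lemma two (e : w ≠ c) (h : wd P.sh x y c = 1) (g : wd P.sh x y w = 1) :
    e6 P x y c w + e6 P x y w c ≤ P.f4 x y c w + P.f4 x y w c := by
  rcases wd_one h with a | a
  · exact two_sh a g e
  · rw [← e6_swap, ← e6_swap x y w, ← f4_swap, ← P.f4_swap x y w]
    exact two_sh a ((wd_swap _ _ _).trans g) e

lemma wd_ad {d : Fin 11 → Fin 11 → ℤ} (h : wd d x y c = 1) :
    ad x y ∧ ad y c ∧ ad c x ∧ mu d x y c ≠ 0 := by
  by_contra g
  rw [wd, if_neg g] at h
  omega

lemma wd_mu (h1 : P.Ad x y) (h2 : P.Ad y c) (h3 : P.Ad c x) :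
    (wd P.sh x y c = 0 ∧ P.mu x y c = 0) ∨ (wd P.sh x y c = 1 ∧ (P.mu x y c = 1 ∨ P.mu x y c = -1)) := by
  have := mu_cases h1 h2 h3
  rcases wd_cases P.sh x y c with h | h
  · refine .inl ⟨h, by_contra fun g => ?_⟩
    rw [wd, if_pos ⟨h1, h2, h3, g⟩] at h
    omega
  · have : P.mu x y c ≠ 0 := (wd_ad h).2.2.2
    omega

/-- Three wound triangles on four vertices force the fourth. -/
lemma three (a : wd P.sh x y c = 1) (b : wd P.sh x y w = 1) (e : wd P.sh x c w = 1) :
    wd P.sh y c w = 1 := by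
  have a' := wd_ad a
  have b' := wd_ad b
  have e' := wd_ad e
  have := wd_mu (P := P) a'.1 a'.2.1 a'.2.2.1
  have := wd_mu (P := P) b'.1 b'.2.1 b'.2.2.1
  have := wd_mu (P := P) e'.1 e'.2.1 e'.2.2.1
  have := wd_mu (P := P) a'.2.1 e'.2.1 (Ad.symm b'.2.1)
  have := cocycle (P := P) (p := x) (q := y) (s := c) (d := w) e'.1 b'.2.1
  omega

lemma four (a : wd P.sh x y c = 1) (b : wd P.sh x y w = 1) (e : wd P.sh x c w = 1) :
    e6 P x y c w = 0 := by
  have f := three a b e
  unfold e6 e2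
  rw [ind_neg fun g : Ex P x y c w => by have := g.2.1; omega,
    ind_neg fun g : Ex P y x c w => by have := g.2.2.1; omega,
    ind_neg fun g : Ex P x c y w => by have := g.2.1; omega,
    ind_neg fun g : Ex P c x y w => by have := g.2.1; rw [wd_swap] at this; omega,
    ind_neg fun g : Ex P y c x w => by have := g.2.1; omega,
    ind_neg fun g : Ex P c y x w => by have := g.2.1; rw [wd_swap] at this; omega]
  rfl

lemma pw {p q s t : Fin 11} (h1 : p < q) (h2 : q < s) (h3 : s < t) :
    e6 P p q s t + e6 P p q t s + e6 P p s t q + e6 P q s t p ≤ P.K4 p q s t +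
      ph (wd P.sh p q s + wd P.sh p q t + wd P.sh p s t + wd P.sh q s t) := by
  have n1 := h1.ne
  have n2 := (h1.trans h2).ne
  have n3 := ((h1.trans h2).trans h3).ne
  have n4 := h2.ne
  have n5 := (h2.trans h3).ne
  have n6 := h3.ne
  have o1 := one (P := P) n3.symm n5.symm n6.symm
  have o2 := one (P := P) n2.symm n4.symm n6
  have o3 := one (P := P) n1.symm n4 n5
  have o4 := one (P := P) n1 n2 n3
  have t1 := two (P := P) (x := p) (y := q) n6.symm
  have t2 := two (P := P) (x := p) (y := s) n5.symm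
  have t3 := two (P := P) (x := p) (y := t) n4.symm
  have t4 := two (P := P) (x := q) (y := s) n3.symm
  have t5 := two (P := P) (x := q) (y := t) n2.symm
  have t6 := two (P := P) (x := s) (y := t) n1.symm
  have r1 := three (P := P) (x := p) (y := q) (c := s) (w := t)
  have r2 := three (P := P) (x := q) (y := p) (c := s) (w := t)
  have r3 := three (P := P) (x := s) (y := p) (c := q) (w := t)
  have r4 := three (P := P) (x := t) (y := p) (c := q) (w := s)
  have f1 := four (P := P) (x := p) (y := q) (c := s) (w := t)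
  have f2 := four (P := P) (x := p) (y := q) (c := t) (w := s)
  have f3 := four (P := P) (x := p) (y := s) (c := t) (w := q)
  have f4 := four (P := P) (x := q) (y := s) (c := t) (w := p)
  have k : wd P.sh p q s = 1 → wd P.sh p q t = 1 → wd P.sh p s t = 1 → wd P.sh q s t = 1 →
      2 ≤ P.K4 p q s t := fun a b c d =>
    K4_all (wd_ad a).1 (wd_ad c).1 (Ad.symm (wd_ad b).2.2.1) (wd_ad a).2.1 (wd_ad b).2.1 (wd_ad c).2.1
      (wd_ad a).2.2.2 (wd_ad c).2.2.2 (wd_ad b).2.2.2 (wd_ad d).2.2.2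
  rw [P.f4_swap' p q s t, e6_swap' p q s t, wd_swap' p q s] at t2
  rw [P.f4_swap' p q t s, P.f4_swap' p s t q, e6_swap' p q t s, e6_swap' p s t q, wd_swap' p q t,
    wd_swap' p s t] at t3
  rw [P.f4_rot p q s t, e6_rot p q s t, wd_rot p q s] at t4
  rw [P.f4_rot p q t s, P.f4_swap' q s t p, e6_rot p q t s, e6_swap' q s t p, wd_rot p q t,
    wd_swap' q s t] at t5
  rw [P.f4_rot p s t q, P.f4_rot q s t p, e6_rot p s t q, e6_rot q s t p, wd_rot p s t, wd_rot q s t] at t6
  rw [wd_swap p q s, wd_swap p q t] at r2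
  rw [wd_rot s p q |>.symm, wd_swap p s t, wd_swap q s t] at r3
  rw [wd_rot t p q |>.symm, wd_rot t p s |>.symm, wd_rot t q s |>.symm] at r4
  rw [wd_swap' p s t] at f2
  rw [wd_swap' p q s, wd_swap' p q t] at f3
  rw [wd_rot p q s, wd_rot p q t] at f4
  unfold K4 at k ⊢
  have c1 := wd_cases P.sh p q s
  have c2 := wd_cases P.sh p q t
  have c3 := wd_cases P.sh p s t
  have c4 := wd_cases P.sh q s t
  clear n1 n2 n3 n4 n5 n6 h1 h2 h3
  generalize wd P.sh p q s = m1 at *
  generalize wd P.sh p q t = m2 at *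
  generalize wd P.sh p s t = m3 at *
  generalize wd P.sh q s t = m4 at *
  rcases c1 with rfl | rfl <;> rcases c2 with rfl | rfl <;> rcases c3 with rfl | rfl <;>
    rcases c4 with rfl | rfl <;> simp [ph] at * <;> omega

lemma g4_sum (x y c : Fin 11) : ∑ d, P.g4 x y c d = -2 * ind (P.Sh x y c) := by
  by_cases h : P.Sh x y c
  · obtain ⟨z, hz⟩ : ∃ z, z ∉ ({x, y, c} : Finset (Fin 11)) := by
      by_contra g
      have := (card_le_card fun z (_ : z ∈ univ) => not_not.1 fun a => g ⟨z, a⟩).trans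
        (card_le_three (a := x) (b := y) (c := c))
      simp at this
    simp only [mem_insert, mem_singleton, not_or] at hz
    have := point (P := P) (by simp) (Ne.symm hz.1) (Ne.symm hz.2.1) (Ne.symm hz.2.2)
    rw [← add_sum_erase _ _ (mem_univ z), g4_pos h hz.1 hz.2.1 hz.2.2, ind_pos h]
    rw [h3_pos h] at this
    have e : ∑ d ∈ univ.erase z, P.g4 x y c d + (1 + P.met x y c z) = 0 :=
      (Subsingleton.elim (fun a b : Fin 11 => Classical.propDecidable (a = b))
        (instDecidableEqFin 11) ▸ this :)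
    omega
  · rw [ind_neg h, sum_eq_zero fun d _ => g4_neg h d, mul_zero]

/-- The balance pays for the incidences. -/
theorem ex_le (P : PM (Fin 11) 10 r Mis) : ∑ x, ∑ y, ∑ c, ∑ w, ind (Ex P x y c w) ≤ GG P.sh := by
  have z : ∀ {x y c w}, ¬ (y ≠ x ∧ c ≠ y ∧ x ≠ c ∧ w ≠ x ∧ w ≠ y ∧ w ≠ c) → ind (Ex P x y c w) = 0 :=
    fun g => ind_neg fun a => g ⟨a.1.a1.1, a.1.a2.1, a.1.a3.1, a.2.2.2.ne.1, a.2.2.2.ne.2.2.1,
      a.2.2.2.ne.2.1⟩
  have e1 : ∑ x, ∑ y, ∑ c, ∑ w, ind (Ex P x y c w) =
      ∑ p, ∑ q, ∑ d, if p < q then ∑ w, e2 P p q d w else 0 := by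
    rw [ins1 _ fun p => sum_eq_zero fun _ _ => sum_eq_zero fun _ _ => z (by simp)]
    refine sum_congr rfl fun p _ => sum_congr rfl fun q _ => ?_
    simp only [e2, sum_add_distrib, sum_ite_irrel, sum_const_zero]
  have e3 : ∑ p, ∑ q, ∑ s, (if p < q ∧ q < s then ∑ w, e2 P p q s w + ∑ w, e2 P p s q w +
      ∑ w, e2 P q s p w else 0) = ∑ p, ∑ q, ∑ s, ∑ d, if p < q ∧ q < s then e6 P p q s d else 0 := by
    simp only [e6, sum_add_distrib, sum_ite_irrel, sum_const_zero]
  have e4 : ∑ p, ∑ q, ∑ s, ∑ d, (if p < q ∧ q < s then P.f4 p q s d else 0) =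
      -2 * ∑ p, ∑ q, ∑ s, if p < q ∧ q < s then wd P.sh p q s else 0 := by
    simp only [mul_sum, sum_ite_irrel, sum_const_zero, f4, sum_add_distrib, g4_sum, wd_eq, mul_ite, mul_add,
      mul_zero]
  rw [ins3 _ fun p q s => by simp [f4, g4]] at e4
  rw [e1, ins2 _ fun p q => ⟨sum_eq_zero fun _ _ => by rw [e2, z (by simp), z (by simp), add_zero],
    sum_eq_zero fun _ _ => by rw [e2, z (by simp), z (by simp), add_zero]⟩, e3,
    ins3 _ fun p q s => by
      refine ⟨?_, ?_, ?_⟩ <;> (unfold e6 e2; rw [z (by simp), z (by simp), z (by simp), z (by simp),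
        z (by simp), z (by simp)]; rfl), GG, sub_eq_add_neg, ← neg_mul, ← e4]
  simp only [← sum_add_distrib]
  refine sum_le_sum fun p _ => sum_le_sum fun q _ => sum_le_sum fun s _ => sum_le_sum fun t _ => ?_
  split_ifs with h
  · exact (pw h.1 h.2.1 h.2.2).trans_eq (add_comm _ _)
  · rfl

end Pool.Agent.P.MP_3f5ded_co.UG.B10
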