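import Pool.Agent.P.MP_3f5ded_co.TenV
import Pool.Agent.P.MP_3f5ded_co.TenGG
import Pool.Agent.P.MP_3f5ded_co.TenEnum

set_option autoImplicit false

namespace Pool.Agent.P.MP_3f5ded_co.UG.B10

/-! Reduction to a normalised counterexample. -/

open Finset PM En

variable {r : ℝ}

/-- Rename the vertices. -/
def pm (P : PM (Fin 11) 10 r Mis) (g : Equiv.Perm (Fin 11)) (h : ∀ u v, ad (g u) (g v) ↔ ad u v) :
    PM (Fin 11) 10 r Mis where
  F x n := P.F (g x) n
  it x n := g.symm (P.it (g x) n)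
  sh x y := P.sh (g x) (g y)
  r0 := P.r0
  r1 := P.r1
  sym := P.sym
  step x n := P.step _ n
  per x n := P.per _ n
  ne x n e := P.ne (g x) n (g.symm_apply_eq.1 e)
  inj x n n' := by rw [g.symm.injective.eq_iff, P.inj]
  sur x y e := by
    obtain ⟨n, hn⟩ := P.sur (g x) (g y) (g.injective.ne e)
    exact ⟨n, by rw [hn, g.symm_apply_apply]⟩
  co x y n f e := by
    have e' := g.symm_apply_eq.1 e
    have a : ad x y := ⟨fun k => P.ne (g x) n (k ▸ e'), f⟩
    have := P.co _ _ n ((h x y).2 a).2 e'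
    exact ⟨by rw [this.1, g.symm_apply_apply], this.2⟩

theorem pm_rep {P : PM (Fin 11) 10 r Mis} {C : Fin 11 → Fin 11 → ℝ} (R : P.Rep C)
    (g : Equiv.Perm (Fin 11)) (h : ∀ u v, ad (g u) (g v) ↔ ad u v) :
    (pm P g h).Rep fun x y => C (g x) (g y) := fun x n => by
  simpa only [pm, Equiv.apply_symm_apply] using R (g x) n

theorem nad : ∀ a b : Fin 11, b ≠ a → ¬ ad a b → ∃ q, a = vx q ∧ b = vx (pa q) := by decide +kernel

theorem vx_nad : ∀ p, vx (pa p) ≠ vx p ∧ ¬ ad (vx p) (vx (pa p)) := by decide +kernel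

theorem vx_inj2 : ∀ p q, vx p = vx q → p = q := by decide +kernel

theorem pa_pa2 : ∀ p, pa (pa p) = p := by decide +kernel

theorem R8_perm {C : Fin 11 → Fin 11 → ℝ} (g : Equiv.Perm (Fin 11))
    (h : ∀ u v, ad (g u) (g v) ↔ ad u v) (k : R8 r fun p => C (g (vx p)) (g (vx (pa p)))) :
    R8 r fun p => C (vx p) (vx (pa p)) := by
  choose σ s1 s2 using fun p => nad _ _ (g.injective.ne (vx_nad p).1)
    fun a => (vx_nad p).2 ((h _ _).1 a)
  have c : ∀ p, σ (pa p) = pa (σ p) := fun p => vx_inj2 _ _ ((s1 _).symm.trans (s2 p))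
  obtain ⟨p, y, i, a, b, d, e, f, k⟩ := k
  refine ⟨fun j => σ (p j), y, fun u v w => i (vx_inj2 _ _ (g.injective ?_)), by simp only [a, c],
    by simp only [b, c], by simp only [d, c], by simp only [e, c], fun j => ?_, k⟩
  · rw [s1, s1]; exact congrArg vx w
  · have := f j
    simp only [s2] at this
    simpa only [s1] using this

theorem R8_neg {x : Fin 8 → ℝ} (k : R8 r fun p => -x p) : R8 r x := by
  obtain ⟨p, y, i, a, b, d, e, f, k0, k1, k2, k3, k4, k5, k6, k7⟩ := k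
  refine ⟨fun j => p j.rev, fun j => -y j.rev, i.comp Fin.rev_injective, ?_, ?_, ?_, ?_,
    fun j => by simpa using (f j.rev).neg, ?_⟩
  · change p 0 = pa (p 7); rw [a, pa_pa2]
  · change p 3 = pa (p 6); rw [e, pa_pa2]
  · change p 2 = pa (p 5); rw [d, pa_pa2]
  · change p 1 = pa (p 4); rw [b, pa_pa2]
  · change -y 7 + 2 ≤ -y 6 ∧ -y 6 + 2 ≤ -y 5 ∧ -y 5 + 2 ≤ -y 4 ∧ -y 4 + 2 ≤ -y 3 ∧
      -y 3 + 2 ≤ -y 2 ∧ -y 2 + 2 ≤ -y 1 ∧ -y 1 + 2 ≤ -y 0 ∧ -y 0 + 7 ≤ -y 7 + 2 * r
    refine ⟨?_, ?_, ?_, ?_, ?_, ?_, ?_, ?_⟩ <;> linarith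

/-- The laps that remove the shifts at the vertex `8`. -/
def j8 (P : PM (Fin 11) 10 r Mis) (x : Fin 11) : ℤ := if x = 8 then 0 else -P.sh x 8

theorem j8_sh (P : PM (Fin 11) 10 r Mis) {x y : Fin 11} (a : ad x y) :
    (P.relift (j8 P)).sh x y = nm P.sh x y := by
  have n : y ≠ x := a.1
  change P.sh x y + j8 P x - j8 P y = _
  unfold j8 nm mu
  by_cases hx : x = 8
  · subst hx
    have := Ad.sh (P := P) a
    simp only [n, if_true, if_false, true_or]; omega
  have := Ad.sh (P := P) (ad8 x hx).1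
  by_cases hy : y = 8
  · subst hy
    simp only [hx, if_true, if_false, or_true]; omega
  simp only [hx, hy, if_false, or_self]; omega

theorem mis_uniq : ∀ x y z : Fin 11, Mis x y → Mis x z → y ≠ x → z ≠ x → y = z := by decide +kernel

theorem not_zero (P : PM (Fin 11) 10 r Mis) (h : ∀ x y, ad x y → P.sh x y = 0) : False := by
  have e : ∀ l : Fin 10, ∃ x, Mis x (P.it x l.1) := fun l => by
    by_contra c
    rw [not_exists] at c
    have := sum_involution (s := univ) (f := fun _ => (1 : ZMod 2)) (fun x _ => P.it x l.1)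
      (fun _ _ => by decide) (fun x _ _ => P.ne x _) (fun _ _ => mem_univ _)
      (fun x _ => by simpa [h x _ ⟨P.ne x _, c x⟩] using P.it_co (c x) rfl)
    simp only [sum_const, card_univ, Fintype.card_fin] at this
    exact absurd this (by decide)
  choose f hf using e
  have i : Function.Injective fun l => (⟨(f l).1, (hf l).1⟩ : Fin 8) := fun l m e => by
    have e' : f l = f m := Fin.ext (by simpa using e)
    have a := hf m
    rw [← e'] at a
    have := P.uniq (mis_uniq _ _ _ (hf l) a (P.ne _ _) (P.ne _ _)) (by omega) (by omega)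
    omega
  simpa using Fintype.card_le_of_injective _ i

/-- The shifts of a model form a shift structure. -/
theorem sd_pm (P : PM (Fin 11) 10 r Mis) : Sd P.sh where
  anti _ _ a := Ad.sh (P := P) a
  rng _ _ _ a b c := mu_le (P := P) a b c
  gg := le_trans (sum_nonneg fun _ _ => sum_nonneg fun _ _ => sum_nonneg fun _ _ =>
    sum_nonneg fun _ _ => ind_nonneg _) (ex_le P)
  ww := by
    by_contra c
    refine not_zero (P.relift (j8 P)) fun x y a => ?_
    rw [j8_sh P a, nm]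
    split_ifs with k
    · rfl
    · rw [not_or] at k
      by_contra m
      exact c ⟨x, y, 8, if_pos ⟨a, (ad8 y k.2).1, (ad8 x k.1).2, m⟩⟩

theorem V.gg {x : St r} (h : V x) : GG x.P.sh ≤ gb x.i := gg_le h.lt (sd_pm _) h.sh

/-- All fields but the last one. -/
def V5 (x : St r) : Prop := x.i < 265 ∧ (∀ a b, ad a b → x.P.sh a b = str x.i a b) ∧
  x.P.it 0 0 = 2 ∧ x.P.Rep x.C ∧ ¬ R8 r fun p => x.C (vx p) (vx (pa p))

theorem exists_V5 {C : Fin 11 → Fin 11 → ℝ} (h1 : 1 ≤ r) (h2 : r < 11) (c : Cl r C)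
    (n : ¬ R8 r fun p => C (vx p) (vx (pa p))) : ∃ x : St r, V5 x := by
  obtain ⟨P, R⟩ := exists_pm (k := 10) (by simp) (by omega) h1 (by push_cast; linarith)
    (by decide +kernel : ∀ x y, Mis x y → Mis y x) c.sym c.far
  obtain ⟨i, l, g, s, a, b, e⟩ := enum _ (sd_pm P)
  have a' := Aut.ad a
  have fin : ∀ (Q : PM (Fin 11) 10 r Mis) (D : Fin 11 → Fin 11 → ℝ), Q.Rep D →
      (∀ a b, ad a b → Q.sh a b = str i a b) → (¬ R8 r fun p => D (vx p) (vx (pa p))) →
      ∃ x : St r, V5 x := fun Q D R s n => by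
    obtain ⟨m, hm⟩ := Q.sur 0 2 (by decide)
    exact ⟨⟨Q.shift m, i, D⟩, l, s, by simpa [shift] using hm, R.shift m, n⟩
  have R1 := (pm_rep R g a').relift (j8 (pm P g a'))
  have s1 : ∀ x y, ad x y → ((pm P g a').relift (j8 (pm P g a'))).sh x y = s * str i x y := by
    intro x y k
    rw [j8_sh _ k, nm]
    split_ifs with q
    · rcases q with rfl | rfl
      · rw [(str8 l y).2, mul_zero]
      · rw [(str8 l x).1, mul_zero]
    · rw [not_or] at q
      exact e x y k q.1 q.2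
  rcases b with rfl | rfl
  · exact fin _ _ R1 (fun x y k => by rw [s1 x y k, one_mul]) fun k => n (R8_perm g a' k)
  · refine fin _ _ R1.rev (fun x y k => ?_) fun k => n (R8_perm g a' (R8_neg k))
    change -((pm P g a').relift _).sh x y = _
    rw [s1 x y k]; ring

theorem exists_V {C : Fin 11 → Fin 11 → ℝ} (h1 : 1 ≤ r) (h2 : r < 11) (c : Cl r C)
    (n : ¬ R8 r fun p => C (vx p) (vx (pa p))) : ∃ x : St r, V x := by
  have wf := Pi.Lex.wellFounded (ι := Fin 11) (α := fun _ => Fin 10) (s := fun _ => (· > ·))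
    (· > ·) fun _ => wellFounded_gt
  obtain ⟨L, ⟨x, ⟨a, b, z, e, f⟩, hL⟩, mn⟩ := wf.has_min
    {L | ∃ x : St r, V5 x ∧ ∀ v, v ≠ 0 → x.P.it 0 (L v).1 = v} (by
      obtain ⟨x, hx⟩ := exists_V5 h1 h2 c n
      have : ∀ v : Fin 11, ∃ l : Fin 10, v ≠ 0 → x.P.it 0 l.1 = v := fun v => by
        by_cases k : v = 0
        · exact ⟨0, fun q => absurd k q⟩
        obtain ⟨m, p, q, u⟩ := x.P.win k 0
        exact ⟨⟨m.toNat, by omega⟩, fun _ => by rw [← u]; congr 1; simp only; omega⟩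
      choose L hL using this
      exact ⟨L, x, hx, hL⟩)
  refine ⟨x, a, b, z, e, f, fun g v p q g0 g2 t o => ?_⟩
  refine mn (fun u => L (g u)) ⟨⟨pm x.P g p, x.i, _⟩, ⟨a, fun u w k => ?_, ?_, pm_rep e g p,
    fun k => f (R8_perm g p k)⟩, fun u k => ?_⟩ ⟨v, fun u k => by simp only [t u k], ?_⟩
  · exact (b _ _ ((p u w).2 k)).trans (q u w k)
  · change g.symm (x.P.it (g 0) 0) = 2
    rw [g0, z, g.symm_apply_eq, g2]
  · change g.symm (x.P.it (g 0) _) = u
    rw [g0, hL _ (g0 ▸ g.injective.ne k), g.symm_apply_apply]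
  · obtain ⟨n1, m, n2, o1, o2, o3, i1, i2, i3⟩ := o
    have d1 := (x.P.inj _ _ _).1 (i1.trans z.symm)
    have d2 := (x.P.inj _ _ _).1 (i2.trans (hL v (i2 ▸ x.P.ne _ _)).symm)
    have d3 := (x.P.inj _ _ _).1 (i3.trans (hL _ (i3 ▸ x.P.ne _ _)).symm)
    change (L v).1 < (L (g v)).1
    have := (L v).2
    have := (L (g v)).2
    push_cast at *
    omega

end Pool.Agent.P.MP_3f5ded_co.UG.B10
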