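import Pool.Agent.P.MP_3f5ded_co.TenFam
import Pool.Agent.P.MP_3f5ded_co.T10G

set_option autoImplicit false

namespace Pool.Agent.P.MP_3f5ded_co.UG.B10

/-- The block on eleven vertices is rigid. -/
theorem rigid : Rigid := fun r C h1 h2 c => by
  by_contra n
  obtain ⟨x, hx⟩ := exists_V h1 h2 c n
  exact R.T10.done (fun _ _ => W_zero) (sound r) x hx

end Pool.Agent.P.MP_3f5ded_co.UG.B10
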