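import Pool.Agent.P.MP_3f5ded_co.TenRed
import Pool.Agent.P.MP_3f5ded_co.GRup

set_option autoImplicit false

namespace Pool.Agent.P.MP_3f5ded_co.UG.B10

open Finset RRup PM
open scoped Classical

lemma sr_eq {i : ℕ} (hi : i < 265) (x y : Fin 11) : (ad x y ∧ (sr (row i) x y : ℤ) = str i x y + 1 ∧
    sr (row i) x y ≤ 2) ∨ (¬ ad x y ∧ sr (row i) x y = 8) := by
  have h := sr_row hi x y
  have : tb i x y < 2 := Nat.mod_lt _ two_pos
  split_ifs at h with e
  · exact .inl ⟨e, h, by unfold str at h; omega⟩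
  · exact .inr ⟨e, by omega⟩

lemma nw_iff {i : ℕ} (hi : i < 265) (x y c : Fin 11) : nw (row i) x y c = true ↔ wd (str i) x y c = 0 := by
  have e : s3 (row i) x y c = sr (row i) x y + sr (row i) y c + sr (row i) c x := rfl
  simp only [nw, wd, mu, Bool.cond_eq_ite, Nat.beq_eq, e]
  rcases sr_eq hi x y with a | a <;> rcases sr_eq hi y c with b | b <;> rcases sr_eq hi c x with d | d <;>
    simp [a.1, b.1, d.1] <;> omega

/-- A number as a vertex. -/
def fi (n : ℕ) : Fin 11 := Fin.ofNat 11 n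

lemma fi_val {n : ℕ} (h : n < 11) : (fi n : ℕ) = n := Nat.mod_eq_of_lt h

lemma fi_fin (v : Fin 11) : fi v = v := Fin.ext (fi_val v.2)

lemma fi_inj {a b : ℕ} (ha : a < 11) (hb : b < 11) : fi a = fi b ↔ a = b := by
  rw [Fin.ext_iff, fi_val ha, fi_val hb]

section
variable {r : ℝ} (P : PM (Fin 11) 10 r Mis)

/-- At `u` the item `y` comes at least `m` places after the item `v`. -/
def Ar (u v y : Fin 11) (m : ℤ) : Prop :=
  ∃ n n', P.it u n = v ∧ P.it u n' = y ∧ n + m ≤ n' ∧ n' < n + 10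

/-- A walk from the port of `o`. -/
def Rs (o t v l z : ℕ) : Prop := ∃ n : ℤ, P.it (fi o) n = fi (pr o) ∧ 10 ∣ n + t + (z - 1) - l ∧
  P.F (fi o) n + t + r * (z - 1) ≤ P.F (fi v) (n + t + 11 * (z - 1))

/-- A walk from the port of `o` to the port of `v`. -/
def Lk (o v : Fin 11) (o' v' : Fin 11) (t : ℕ) : Prop := ∃ n z : ℤ, -1 ≤ z ∧ z ≤ 1 ∧ P.it o n = o' ∧
  P.it v (n + t + 11 * z) = v' ∧ P.F o n + t + r * z ≤ P.F v (n + t + 11 * z)

def Oc (q : ℕ) : Prop := P.On (fi (dg q 1)) (fi (dg q 11)) (fi (dg q 121)) (fi (dg q 1331))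

noncomputable def cn (j a : ℕ) : ℕ := ((range a).filter fun z => Oc P (xq j z)).card

end

variable {r : ℝ}

def W1 (x : St r) (a b c : ℕ) : ℕ → Prop
  | 0 => x.P.it (fi a) c = fi b
  | 1 => x.P.sh (fi a) (fi b) = c - 1
  | 2 => x.P.Sh (fi a) (fi b) (fi c)
  | 3 => Lk x.P (fi a) (fi b) (fi (pr a)) (fi (pr b)) c
  | 4 => x.i = (a * 11 + b) * 11 + c
  | d + 5 => if d ≤ 10 then x.P.On (fi a) (fi b) (fi d) (fi c) else Ar x.P (fi a) (fi b) (fi c) (d - 9)

def Wk (x : St r) : ℕ → ℕ → ℕ → ℕ → ℕ → Prop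
  | 0, a, b, c, d => x.P.T (fi a) (c + d - 21) < x.P.T (fi b) c
  | 1, a, b, c, d => W1 x a b c d
  | _, a, b, c, d => Rs x.P a (d / 3) b c (d % 3)

/-- Meaning of the atoms. -/
def W (x : St r) (n : ℕ) : Prop :=
  if 150000 ≤ n then (n - 150000) % 7 + 1 ≤ cn x.P ((n - 150000) / 7 / 448) ((n - 150000) / 7 % 448)
  else Wk x (n / 54571) (n / 4961 % 11) (n / 451 % 11) (n / 41 % 11) (n % 41)

variable {x : St r} {a b c d : ℕ}

lemma W_zero : W x 0 := by
  rw [W, if_neg (by norm_num)]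
  exact x.P.T_mono _ (by norm_num)

lemma W_cd {k : ℕ} (hk : k ≤ 1 ∨ (k = 2 ∧ a < 8)) (ha : a < 11) (hb : b < 11) (hc : c < 11) (hd : d < 41) :
    W x (cd k a b c d) = Wk x k a b c d := by
  have e : cd k a b c d = (((k * 11 + a) * 11 + b) * 11 + c) * 41 + d := rfl
  rw [W, if_neg (by omega)]
  congr 1 <;> omega

lemma wG (ha : a < 11) (hb : b < 11) (hc : c < 11) (hd : d < 41) :
    W x (aG a b c d) = (x.P.T (fi a) (c + d - 21) < x.P.T (fi b) c) := W_cd (.inl (by omega)) ha hb hc hd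

lemma wX (ha : a < 11) (hb : b < 11) (hc : c < 11) : W x (aX a b c) = (x.P.it (fi a) c = fi b) :=
  W_cd (.inl le_rfl) ha hb hc (by omega)

lemma wS (ha : a < 11) (hb : b < 11) (hc : c < 3) (h : ad (fi a) (fi b)) :
    W x (aS a b c) ↔ x.P.sh (fi a) (fi b) = c - 1 := by
  unfold aS
  cases Nat.ble a b
  · change W x (cd 1 b a (2 - c) 1) ↔ _
    rw [W_cd (.inl le_rfl) hb ha (by omega) (by omega)]
    change x.P.sh (fi b) (fi a) = (2 - c : ℕ) - 1 ↔ _
    rw [Ad.sh (P := x.P) h]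
    omega
  · exact iff_of_eq (W_cd (.inl le_rfl) ha hb (by omega) (by omega))

lemma wM (ha : a < 11) (hb : b < 11) (hc : c < 11) : W x (aM a b c) = x.P.Sh (fi a) (fi b) (fi c) :=
  W_cd (.inl le_rfl) ha hb hc (by omega)

lemma wL (ha : a < 11) (hb : b < 11) (hc : c < 11) :
    W x (aL a b c) = Lk x.P (fi a) (fi b) (fi (pr a)) (fi (pr b)) c :=
  W_cd (.inl le_rfl) ha hb hc (by omega)

lemma wI (ha : a < 265) : W x (aI a) ↔ x.i = a := by
  have e : aI a = cd 1 (a / 121) (a / 11 % 11) (a % 11) 4 := by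
    change 54575 + 41 * a = (((1 * 11 + a / 121) * 11 + a / 11 % 11) * 11 + a % 11) * 41 + 4
    omega
  rw [e, W_cd (.inl le_rfl) (by omega) (by omega) (by omega) (by omega)]
  change x.i = _ ↔ _
  omega

lemma wO (ha : a < 11) (hb : b < 11) (hc : c < 11) (hd : d < 11) :
    W x (aO a b c d) = x.P.On (fi a) (fi b) (fi c) (fi d) := by
  change W x (cd 1 a b d (5 + c)) = _
  rw [W_cd (.inl le_rfl) ha hb hd (by omega), add_comm]
  exact if_pos (by omega)

lemma wA (ha : a < 11) (hb : b < 11) (hc : c < 11) (hd : 2 ≤ d) (hd' : d ≤ 10) :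
    W x (aA a b c d) = Ar x.P (fi a) (fi b) (fi c) d := by
  change W x (cd 1 a b c (14 + d)) = _
  rw [W_cd (.inl le_rfl) ha hb hc (by omega), show 14 + d = (d + 9) + 5 by omega]
  refine (if_neg (by omega)).trans ?_
  congr 1
  push_cast
  ring

lemma wR {e : ℕ} (ha : a < 8) (hb : b ≤ 10) (hc : c < 11) (hd : d < 11) (he : e < 3) :
    W x (aR a b c d e) = Rs x.P a b c d e := by
  change W x (cd 2 a c d (3 * b + e)) = _
  rw [W_cd (.inr ⟨rfl, ha⟩) (by omega) hc hd (by omega)]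
  change Rs x.P a _ c d _ = _
  congr 1 <;> omega

lemma wE (hb : b < 448) (hc : 1 ≤ c) (hc' : c ≤ 7) : W x (aE a b c) = (c ≤ cn x.P a b) := by
  have e : aE a b c = 149999 + (a * 448 + b) * 7 + c := rfl
  rw [W, if_pos (by omega), show (aE a b c - 150000) % 7 + 1 = c by omega,
    show (aE a b c - 150000) / 7 / 448 = a by omega, show (aE a b c - 150000) / 7 % 448 = b by omega]

/-- Some literal of the list holds. -/
def Sat (x : St r) (l : List ℕ) : Prop := ∃ y ∈ l, Tr (W x) y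

lemma sat_nil : Sat x [] ↔ False := by simp [Sat]

lemma sat_pos {l : List ℕ} : Sat x (pos a :: l) ↔ (¬ W x a → Sat x l) := by
  rw [← or_iff_not_imp_left, ← Tr_even (P := W x)]
  exact List.exists_mem_cons_iff _ _ _

lemma sat_neg {l : List ℕ} : Sat x (neg a :: l) ↔ (W x a → Sat x l) := by
  rw [imp_iff_not_or, ← Tr_odd (P := W x)]
  exact List.exists_mem_cons_iff _ _ _

lemma sat_app {k l : List ℕ} : Sat x (k ++ l) ↔ (¬ Sat x k → Sat x l) := by
  simp only [← or_iff_not_imp_left, Sat, List.mem_append, or_and_right, exists_or]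

lemma sat_map {l : List ℕ} {f : ℕ → ℕ} (h : a ∈ l) (g : W x (f a)) : Sat x (l.map fun y => pos (f y)) :=
  ⟨_, List.mem_map_of_mem h, (Tr_even _).2 g⟩

/-- A list without zero is satisfied. -/
def G (x : St r) (l : List ℕ) : Prop := 0 ∉ l → Sat x l

lemma G.gd {b : Bool} {l : List ℕ} (h : b = true → G x l) : G x (gd b l) := by
  cases b
  · exact fun x => absurd (List.mem_singleton.2 rfl) x
  · exact h rfl

lemma G.gn {b : Bool} {l : List ℕ} (h : ¬ b = true → G x l) : G x (gn b l) := by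
  cases b
  · exact h (by simp)
  · exact fun x => absurd (List.mem_singleton.2 rfl) x

lemma G.of {l : List ℕ} (h : Sat x l) : G x l := fun _ => h

lemma cmp_ok (l : List ℕ) : ∀ n d, cmp l n d = 0 → 0 ∉ l ∧ ∀ x ∈ l, MemD x n d := by
  induction l with
  | nil => simp
  | cons x l ih =>
    intro n d h
    cases n with
    | zero => exact absurd h one_ne_zero
    | succ n =>
      change Nat.rec (motive := fun _ => ℕ) 1 (fun y _ => cond (Nat.beq (y + 1) x)
        (cmp l n (d / 1048576)) 1) (d % 1048576) = 0 at h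
      cases e : d % 1048576 with
      | zero =>
        rw [e] at h
        exact absurd h one_ne_zero
      | succ y =>
        rw [e] at h
        change cond (Nat.beq (y + 1) x) _ 1 = 0 at h
        cases b : Nat.beq (y + 1) x
        · rw [b] at h
          exact absurd h one_ne_zero
        · rw [b] at h
          have b := Nat.eq_of_beq_eq_true b
          obtain ⟨p, q⟩ := ih n _ h
          refine ⟨by simp [p]; omega, fun z hz => ⟨by omega, ?_⟩⟩
          rcases List.mem_cons.1 hz with rfl | hz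
          · exact .inl (e.trans b)
          · exact .inr (q z hz)

lemma eb_fi (ha : a < 11) (hb : b < 11) : eb a b = true ↔ ad (fi a) (fi b) := by
  rw [← eb_iff, fi_val ha, fi_val hb]

section
variable {P : PM (Fin 11) 10 r Mis} {u v y : Fin 11} {n n' : ℤ}

lemma it_dvd (h : 10 ∣ n' - n) : P.it u n = P.it u n' := (P.inj u n n').2 h

lemma T_eq (j : ℤ) (h : n' = n + j * 10) : P.T u n' = P.T u n + j := h ▸ P.T_perZ u n j

lemma F_eq (j : ℤ) (h : n' = n + j * 10) : P.F u n' = P.F u n + r * j := by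
  have := T_eq (P := P) (u := u) j h
  have := P.r0
  unfold PM.T at *
  subst h
  push_cast at *
  field_simp at *
  linarith

lemma co' {s : ℤ} (h : ad u v) (e : P.it u n = v) (g : P.sh u v = s) :
    P.it v (n + 11 * s) = u ∧ P.F v (n + 11 * s) = P.F u n + r * s ∧ P.T v (n + 11 * s) = P.T u n := by
  subst g
  exact ⟨(P.co u v n h.2 e).1, (P.co u v n h.2 e).2, P.T_co h.2 e⟩

lemma Ar.le {m : ℤ} (h : Ar P u v y m) (m0 : 0 ≤ m) (e : P.it u n = v) (e' : P.it u n' = y) (a : n < n')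
    (b : n' < n + 10) : n + m ≤ n' := by
  obtain ⟨p, p', h1, h2, h3, h4⟩ := h
  have := (P.inj u _ _).1 (h1.trans e.symm)
  have := (P.inj u _ _).1 (h2.trans e'.symm)
  have : v ≠ y := fun g => by
    have := P.uniq (e.trans (g.trans e'.symm)) (by omega) (by omega)
    omega
  have : p ≠ p' := fun g => this (h1.symm.trans (g ▸ h2))
  omega

lemma Lk.at {u' v' : Fin 11} {t : ℕ} (h : Lk P u v u' v' t) (e : P.it u n = u') : ∃ z : ℤ, -1 ≤ z ∧ z ≤ 1 ∧
    P.it v (n + t + 11 * z) = v' ∧ P.F u n + t + r * z ≤ P.F v (n + t + 11 * z) := by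
  obtain ⟨m, z, h1, h2, h3, h4, h5⟩ := h
  obtain ⟨j, hj⟩ := (P.inj u _ _).1 (h3.trans e.symm)
  refine ⟨z, h1, h2, (it_dvd (n' := m + t + 11 * z) (by omega)).trans h4, ?_⟩
  rw [F_eq (n' := n) (n := m) j (by omega), F_eq (u := v) (n := m + t + 11 * z) j (by omega)]
  linarith

end

lemma V.wd (h : V x) (u v y : Fin 11) : wd x.P.sh u v y = wd (str x.i) u v y := by
  unfold B10.wd mu
  refine if_congr (and_congr_right fun a => and_congr_right fun b => and_congr_right fun c => ?_) rfl rfl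
  rw [h.sh _ _ a, h.sh _ _ b, h.sh _ _ c]

lemma V.sr (h : V x) (ha : a < 11) (hb : b < 11) : (ad (fi a) (fi b) ∧
    (sr (row x.i) a b : ℤ) = x.P.sh (fi a) (fi b) + 1 ∧ sr (row x.i) a b ≤ 2) ∨
    (¬ ad (fi a) (fi b) ∧ sr (row x.i) a b = 8) := by
  have := sr_eq h.lt (fi a) (fi b)
  rw [fi_val ha, fi_val hb] at this
  exact this.imp_left fun g => by rwa [h.sh _ _ g.1]

lemma V.ex (h : V x) (ha : a < 11) (hb : b < 11) (hc : c < 11) (hd : d < 11)
    (e : ex (row x.i) a b c d = true) (o : x.P.On (fi a) (fi b) (fi c) (fi d)) :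
    Ex x.P (fi a) (fi d) (fi b) (fi c) := by
  have n1 := nw_iff h.lt (fi a) (fi d) (fi c)
  have n2 := nw_iff h.lt (fi a) (fi b) (fi c)
  rw [fi_val ha, fi_val hc, ← h.wd] at n1 n2
  rw [fi_val hd] at n1
  rw [fi_val hb] at n2
  simp only [B10.ex, Bool.cond_eq_ite, Nat.beq_eq, Bool.ite_eq_true_distrib, n1, n2, Bool.false_eq_true,
    if_false_right] at e
  have s : s3 (row x.i) a d b = B10.sr (row x.i) a d + B10.sr (row x.i) d b + B10.sr (row x.i) b a := rfl
  refine ⟨?_, e.2.1, e.2.2, o⟩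
  rcases h.sr ha hd with p | p <;> rcases h.sr hd hb with q | q <;> rcases h.sr hb ha with t | t
  · exact ⟨p.1, q.1, t.1, by unfold PM.mu; omega⟩
  all_goals omega

/-- A set of incidences is not larger than the bound. -/
lemma V.card (h : V x) (s : Finset ℕ) (hs : ∀ q ∈ s, q ≤ 14640 ∧
    B10.ex (row x.i) (dg q 1) (dg q 11) (dg q 121) (dg q 1331) = true ∧ Oc x.P q) : s.card ≤ gb x.i := by
  have l : ∀ q k, dg q k < 11 := fun q k => Nat.mod_lt _ (by norm_num)
  have := (ex_le x.P).trans h.gg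
  rw [← Fintype.sum_prod_type', ← Fintype.sum_prod_type', ← Fintype.sum_prod_type', sum_ind] at this
  rw [Nat.cast_le] at this
  refine le_trans (card_le_card_of_injOn
    (fun q => (((fi (dg q 1), fi (dg q 1331)), fi (dg q 11)), fi (dg q 121)))
    (fun q hq => ?_) fun q hq p hp e => ?_) this
  · simp only [coe_filter, mem_univ, true_and, Set.mem_ofPred_eq]
    exact h.ex (l _ _) (l _ _) (l _ _) (l _ _) (hs q hq).2.1 (hs q hq).2.2
  · simp only [Prod.mk.injEq, fi_inj (l _ _) (l _ _)] at e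
    have := (hs q hq).1
    have := (hs p hp).1
    change (((q / 1 % 11 = p / 1 % 11 ∧ q / 1331 % 11 = p / 1331 % 11) ∧ q / 11 % 11 = p / 11 % 11) ∧
      q / 121 % 11 = p / 121 % 11) at e
    omega

end Pool.Agent.P.MP_3f5ded_co.UG.B10
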