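import Pool.Agent.P.MP_3f5ded_co.ES0
import Pool.Agent.P.MP_3f5ded_co.TenId

set_option autoImplicit false

namespace Pool.Agent.P.MP_3f5ded_co.UG.B10

/-- A model, the number of its shift structure and the colouring. -/
structure St (r : ℝ) where
  P : PM (Fin 11) 10 r Mis
  i : ℕ
  C : Fin 11 → Fin 11 → ℝ

/-- A normalised counterexample. -/
structure V {r : ℝ} (x : St r) : Prop where
  lt : x.i < 265
  sh : ∀ a b, ad a b → x.P.sh a b = str x.i a b
  z : x.P.it 0 0 = 2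
  rep : x.P.Rep x.C
  nr : ¬ R8 r fun p => x.C (vx p) (vx (pa p))
  sy : ∀ (g : Equiv.Perm (Fin 11)) (a : Fin 11), (∀ u v, ad (g u) (g v) ↔ ad u v) →
    (∀ u v, ad u v → str x.i (g u) (g v) = str x.i u v) → g 0 = 0 → g 2 = 2 → (∀ v, a < v → g v = v) →
    ¬ x.P.On 0 2 a (g a)

end Pool.Agent.P.MP_3f5ded_co.UG.B10
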