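import Pool.Agent.P.MP_3f5ded_co.U10Defs

set_option autoImplicit false

namespace Pool.Agent.P.MP_3f5ded_co.UG.B10

/-- Places of partners. -/
def Pr (a b : ℤ) : Prop :=
  (a = 0 ∧ b = 7) ∨ (a = 7 ∧ b = 0) ∨ (1 ≤ a ∧ a ≤ 3 ∧ b = a + 3) ∨ (1 ≤ b ∧ b ≤ 3 ∧ a = b + 3)

/-- The helix with ranks `ρ` and lifted colours `y`. -/
structure Hel (r : ℝ) (x : Fin 8 → ℝ) (ρ : Fin 8 → ℤ) (y : Fin 8 → ℝ) : Prop where
  cg : ∀ v, Cg r (x v) (y v)
  rng : ∀ v, 0 ≤ ρ v ∧ ρ v ≤ 7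
  inj : ∀ v w, v ≠ w → ρ v ≠ ρ w
  par : ∀ v, Pr (ρ v) (ρ (pa v))
  lo : ∀ v w, ρ v ≤ ρ w → y v + 2 * (ρ w - ρ v) ≤ y w
  hi : ∀ v w, ρ v ≤ ρ w → y w ≤ y v + 2 * (ρ w - ρ v) + (2 * r - 21)

lemma pa_pa : ∀ p, pa (pa p) = p := by decide

theorem R8.hel {r : ℝ} {x : Fin 8 → ℝ} (h : R8 r x) : ∃ ρ y, Hel r x ρ y := by
  obtain ⟨p, y, hp, p7, p4, p5, p6, hc, h0, h1, h2, h3, h4, h5, h6, h7⟩ := h
  let e := Equiv.ofBijective p (Finite.injective_iff_bijective.1 hp)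
  have he : ∀ i, e.symm (p i) = i := fun i => e.symm_apply_apply i
  have q7 : pa (p 7) = p 0 := by rw [p7, pa_pa]
  have q4 : pa (p 4) = p 1 := by rw [p4, pa_pa]
  have q5 : pa (p 5) = p 2 := by rw [p5, pa_pa]
  have q6 : pa (p 6) = p 3 := by rw [p6, pa_pa]
  have key : ∀ i j : Fin 8, (i.1 : ℤ) ≤ j.1 → y i + 2 * (((j.1 : ℤ) : ℝ) - ((i.1 : ℤ) : ℝ)) ≤ y j ∧
      y j ≤ y i + 2 * (((j.1 : ℤ) : ℝ) - ((i.1 : ℤ) : ℝ)) + (2 * r - 21) := by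
    intro i j
    fin_cases i <;> fin_cases j <;> simp <;> (try constructor) <;> linarith
  refine ⟨fun v => (e.symm v).1, fun v => y (e.symm v), fun v => ?_, fun v => ?_, fun v w a b => ?_,
    fun v => ?_, fun v w a => (key _ _ a).1, fun v w a => (key _ _ a).2⟩
  · have := hc (e.symm v)
    rwa [show p (e.symm v) = v from e.apply_symm_apply v] at this
  · have := (e.symm v).2
    omega
  · exact a (e.symm.injective (Fin.ext (by exact_mod_cast b)))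
  · obtain ⟨i, rfl⟩ := e.surjective v
    change Pr ((e.symm (p i)).1 : ℤ) ((e.symm (pa (p i))).1 : ℤ)
    fin_cases i <;> simp [← p7, ← p4, ← p5, ← p6, q7, q4, q5, q6, he, Pr]

/-- Two links between two blocks: ranks `a, a'` and `b, b'`, difference `n` of the windings. -/
def Tw (a a' b b' n : ℤ) : Prop :=
  (n = 0 ∧ a' - a = b' - b) ∨ (n = 1 ∧ a < a' ∧ b' < b ∧ a' - a + (b - b') = 5) ∨
    (n = -1 ∧ a' < a ∧ b < b' ∧ a - a' + (b' - b) = 5)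

namespace Hel

variable {r : ℝ} {x x' y z : Fin 8 → ℝ} {ρ ρ' : Fin 8 → ℤ}

lemma half (H : Hel r x ρ y) : 21 ≤ 2 * r := by
  have := H.hi 0 0 le_rfl
  linarith

lemma shift (H : Hel r x ρ y) (n : ℤ) : Hel r x ρ fun v => y v + n * r :=
  ⟨fun v => (H.cg v).trans ⟨-n, by push_cast; ring⟩, H.rng, H.inj, H.par,
    fun v w a => by linarith [H.lo v w a], fun v w a => by linarith [H.hi v w a]⟩

lemma align (H : Hel r x ρ y) (K : Hel r x' ρ' z) {v w : Fin 8} (h : Cg r (x v) (x' w)) :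
    ∃ z', Hel r x' ρ' z' ∧ y v = z' w := by
  obtain ⟨n, hn⟩ := (H.cg v).symm.trans (h.trans (K.cg w))
  exact ⟨_, K.shift n, hn⟩

lemma bd (H : Hel r x ρ y) (v w : Fin 8) : ∃ A : ℝ, y w - y v = 2 * ((ρ w - ρ v : ℤ) : ℝ) + A ∧
    -(2 * r - 21) ≤ A ∧ A ≤ 2 * r - 21 ∧ (ρ v ≤ ρ w → 0 ≤ A) ∧ (ρ w ≤ ρ v → A ≤ 0) := by
  have := H.half
  refine ⟨y w - y v - 2 * ((ρ w - ρ v : ℤ) : ℝ), by ring, ?_, ?_, fun a => ?_, fun a => ?_⟩ <;>
    push_cast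
  · rcases le_total (ρ v) (ρ w) with a | a
    · linarith [H.lo v w a]
    · linarith [H.hi w v a]
  · rcases le_total (ρ v) (ρ w) with a | a
    · linarith [H.hi v w a]
    · linarith [H.lo w v a]
  · linarith [H.lo v w a]
  · linarith [H.lo w v a]

end Hel

lemma int_ar {r u : ℝ} {d n : ℤ} (h1 : 21 ≤ 2 * r) (h2 : r < 11) (h : 2 * d + u = n * r)
    (a1 : -(2 * (2 * r - 21)) ≤ u) (a2 : u ≤ 2 * (2 * r - 21)) (b1 : -14 ≤ d) (b2 : d ≤ 14) :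
    (n = 0 ∧ d = 0) ∨ (n = 1 ∧ (d = 5 ∨ d = 6)) ∨ (n = -1 ∧ (d = -5 ∨ d = -6)) ∨ (n = 2 ∧ d = 11) ∨
      (n = -2 ∧ d = -11) := by
  have c1 : (-14 : ℝ) ≤ d := by exact_mod_cast b1
  have c2 : (d : ℝ) ≤ 14 := by exact_mod_cast b2
  have k1 : ∀ a : ℤ, (a : ℝ) < 2 * d → a < 2 * d := fun a g => by exact_mod_cast g
  have k2 : ∀ a : ℤ, 2 * (d : ℝ) < a → 2 * d < a := fun a g => by exact_mod_cast g
  have n1 : n < 3 := by
    have : (n : ℝ) < 3 := by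
      by_contra g
      nlinarith
    exact_mod_cast this
  have n2 : -3 < n := by
    have : (-3 : ℝ) < n := by
      by_contra g
      nlinarith
    exact_mod_cast this
  interval_cases n <;> push_cast at h
  · have := k1 (-24) (by push_cast; linarith)
    have := k2 (-20) (by push_cast; linarith)
    omega
  · have := k1 (-13) (by push_cast; linarith)
    have := k2 (-9) (by push_cast; linarith)
    omega
  · have := k1 (-2) (by push_cast; linarith)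
    have := k2 2 (by push_cast; linarith)
    omega
  · have := k1 9 (by push_cast; linarith)
    have := k2 13 (by push_cast; linarith)
    omega
  · have := k1 20 (by push_cast; linarith)
    have := k2 24 (by push_cast; linarith)
    omega

lemma Hel.pair {r : ℝ} {x x' y z : Fin 8 → ℝ} {ρ ρ' : Fin 8 → ℤ} (H : Hel r x ρ y)
    (K : Hel r x' ρ' z) (hr : r < 11) {v w v' w' : Fin 8} {m n : ℤ} (hv : y v = z v' + m * r)
    (hw : y w = z w' + n * r) : Tw (ρ v) (ρ w) (ρ' v') (ρ' w') (n - m) := by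
  obtain ⟨A, a0, a1, a2, a3, a4⟩ := H.bd v w
  obtain ⟨B, b0, b1, b2, b3, b4⟩ := K.bd v' w'
  have := H.rng v
  have := H.rng w
  have := K.rng v'
  have := K.rng w'
  generalize ρ w = i, ρ v = j, ρ' w' = i', ρ' v' = j' at *
  have e : 2 * ((i - j - (i' - j') : ℤ) : ℝ) + (A - B) = ((n - m : ℤ) : ℝ) * r := by
    push_cast at *
    linarith
  generalize n - m = t at *
  rcases int_ar H.half hr e (by linarith) (by linarith) (by omega) (by omega) with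
    ⟨rfl, d⟩ | ⟨rfl, d | d⟩ | ⟨rfl, d | d⟩ | ⟨rfl, d⟩ | ⟨rfl, d⟩ <;> rw [d] at e <;> push_cast at e
  · exact Or.inl ⟨rfl, by omega⟩
  · refine Or.inr (Or.inl ⟨rfl, lt_of_not_ge fun g => ?_, lt_of_not_ge fun g => ?_, by omega⟩)
    · linarith [a4 g]
    · linarith [b3 g]
  · rcases le_total j i with g | g
    · linarith [a3 g]
    · linarith [b4 (by omega)]
  · refine Or.inr (Or.inr ⟨rfl, lt_of_not_ge fun g => ?_, lt_of_not_ge fun g => ?_, by omega⟩)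
    · linarith [a3 g]
    · linarith [b4 g]
  · rcases le_total j i with g | g
    · linarith [b3 (by omega)]
    · linarith [a4 g]
  · linarith [a3 (by omega), b4 (by omega)]
  · linarith [a4 (by omega), b3 (by omega)]

lemma tw_par {a a' b b' n : ℤ} (p : Pr a a') (q : Pr b b') (h : Tw a a' b b' n) :
    n = 0 ∧ a' - a = b' - b ∧ (a + 3 ≤ a' ∨ a' + 3 ≤ a) := by
  unfold Pr Tw at *
  omega

/-- A link that winds differently from a pair of partners is close to every other link. -/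
lemma tw_near {a a' b b' q q' u u' n m : ℤ} (e : a' - a = b' - b) (f : a + 3 ≤ a' ∨ a' + 3 ≤ a)
    (h : Tw a q b q' n) (h' : Tw a' q b' q' n) (g : Tw a u b u' m) (g' : Tw a' u b' u' m)
    (t : Tw u q u' q' (n - m)) (d : u ≠ q) :
    (n = 1 → u < q ∧ q ≤ u + 4) ∧ (n = -1 → q < u ∧ u ≤ q + 4) := by
  unfold Tw at *
  constructor <;> rintro rfl <;> omega

lemma five {q a b c d e : ℤ} (ha : a < q ∧ q ≤ a + 4) (hb : b < q ∧ q ≤ b + 4)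
    (hc : c < q ∧ q ≤ c + 4) (hd : d < q ∧ q ≤ d + 4) (he : e < q ∧ q ≤ e + 4) (ab : a ≠ b)
    (ac : a ≠ c) (ad : a ≠ d) (ae : a ≠ e) (bc : b ≠ c) (bd : b ≠ d) (be : b ≠ e) (cd : c ≠ d)
    (ce : c ≠ e) (de : d ≠ e) : False := by
  omega

/-- Six links wind in the same way. -/
lemma tw_zero {a a' b b' q q' u u' v v' w w' n nu nv nw : ℤ} (e : a' - a = b' - b)
    (f : a + 3 ≤ a' ∨ a' + 3 ≤ a) (h : Tw a q b q' n ∧ Tw a' q b' q' n)
    (hu : Tw a u b u' nu ∧ Tw a' u b' u' nu) (hv : Tw a v b v' nv ∧ Tw a' v b' v' nv)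
    (hw : Tw a w b w' nw ∧ Tw a' w b' w' nw) (tu : Tw u q u' q' (n - nu))
    (tv : Tw v q v' q' (n - nv)) (tw : Tw w q w' q' (n - nw))
    (d : u ≠ q ∧ v ≠ q ∧ w ≠ q ∧ a ≠ u ∧ a ≠ v ∧ a ≠ w ∧ a' ≠ u ∧ a' ≠ v ∧ a' ≠ w ∧ u ≠ v ∧ u ≠ w ∧
      v ≠ w) : n = 0 ∧ q - a = q' - b := by
  obtain ⟨d1, d2, d3, d4, d5, d6, d7, d8, d9, d10, d11, d12⟩ := d
  have k1 := tw_near e f h.1 h.2 hu.1 hu.2 tu d1
  have k2 := tw_near e f h.1 h.2 hv.1 hv.2 tv d2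
  have k3 := tw_near e f h.1 h.2 hw.1 hw.2 tw d3
  have d0 : a ≠ a' := by clear * - f; omega
  obtain ⟨h1 | ⟨rfl, h1⟩ | ⟨rfl, h1⟩, h2⟩ := h
  · exact h1
  · exact (five (a := a) (b := a') (by clear * - h1; omega)
      (by clear * - h2; unfold Tw at h2; omega) (k1.1 rfl) (k2.1 rfl) (k3.1 rfl) d0 d4 d5 d6 d7 d8 d9
      d10 d11 d12).elim
  · have k4 := k1.2 rfl
    have k5 := k2.2 rfl
    have k6 := k3.2 rfl
    exact (five (q := -q) (a := -a) (b := -a') (c := -u) (d := -v) (e := -w)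
      (by clear * - h1; omega) (by clear * - h2; unfold Tw at h2; omega) (by clear * - k4; omega)
      (by clear * - k5; omega) (by clear * - k6; omega) (neg_injective.ne d0) (neg_injective.ne d4)
      (neg_injective.ne d5) (neg_injective.ne d6) (neg_injective.ne d7) (neg_injective.ne d8)
      (neg_injective.ne d9) (neg_injective.ne d10) (neg_injective.ne d11)
      (neg_injective.ne d12)).elim

/-- The shift between the two blocks is one place. -/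
lemma shift_one {c x a7 a8 a9 y : ℤ} (p1 : Pr x a7) (p2 : Pr (a7 + c) (a8 + c)) (p3 : Pr a8 a9)
    (p4 : Pr (a9 + c) y) (d : a7 ≠ a9) :
    (c = 1 ∧ x = 7 ∧ a7 = 0 ∧ a8 = 3 ∧ a9 = 6 ∧ y = 0) ∨
      (c = -1 ∧ x = 0 ∧ a7 = 7 ∧ a8 = 4 ∧ a9 = 1 ∧ y = 7) := by
  unfold Pr at *
  rcases p2 with p2 | p2 | p2 | p2 <;> rcases p3 with p3 | p3 | p3 | p3 <;> omega

lemma shift_two {c o a o' : ℤ} (p1 : Pr o a) (p2 : Pr (a + c) o')
    (h : (c = 1 ∧ a ≠ 7 ∧ a ≠ 0 ∧ a ≠ 3 ∧ a ≠ 6) ∨ (c = -1 ∧ a ≠ 0 ∧ a ≠ 7 ∧ a ≠ 4 ∧ a ≠ 1)) :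
    o' = o + c ∧ 1 ≤ o ∧ o ≤ 6 ∧ (c = 1 → o ≤ 5) ∧ (c = -1 → 2 ≤ o) := by
  unfold Pr at *
  omega

/-- The distances in the mode. -/
lemma cell_fin {r A B O O' X W m : ℝ} (hr : r < 11) (h1 : A + 2 * m ≤ O) (h2 : O + 2 * (6 - m) ≤ B)
    (h3 : A + 2 * m ≤ O') (h4 : O' + 2 * (6 - m) ≤ B) (h5 : B + 2 ≤ X)
    (h6 : X ≤ A + 14 + (2 * r - 21)) (h7 : B ≤ W + 14 + (2 * r - 21)) (h8 : W + 2 ≤ A) :
    cd r O O' ≤ 2 * r - 21 ∧ cd r O O' + 5 - (2 * r - 21) ≤ cd r X W := by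
  have h0 : 0 < r := by linarith
  have a : cd r O O' ≤ B - A - 12 :=
    (cd_le_of (u := O' - O) h0 (Cg.of_eq (by ring))).trans (abs_le.2 ⟨by linarith, by linarith⟩)
  have b : B - A - 12 + 5 - (2 * r - 21) ≤ cd r X W :=
    le_cd_of (u := W - X + 2 * r) h0 ⟨-2, by push_cast; ring⟩ (by linarith) (by linarith)
  exact ⟨by linarith, by linarith⟩

lemma cd_neg {r : ℝ} (hr : 0 < r) (x y : ℝ) : cd r (-x) (-y) = cd r x y := by
  have key : ∀ a b : ℝ, cd r (-a) (-b) ≤ cd r a b := fun a b => by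
    obtain ⟨u, hu, e⟩ := cd_lift r a b
    rw [← e, ← abs_neg]
    exact cd_le_of hr (hu.neg.trans (Cg.of_eq (by ring)))
  exact le_antisymm (key x y) (by simpa using key (-x) (-y))

/-- Two blocks `(a, b) (o, c) (x, d) (e, f)` and `(a, b) (c, o') (d, e) (f, y)`. -/
theorem cell_nec {r : ℝ} (hr : r < 11) {x x' : Fin 8 → ℝ} (h : R8 r x) (h' : R8 r x')
    (la : Cg r (x 0) (x' 0)) (lb : Cg r (x 1) (x' 1)) (lc : Cg r (x 3) (x' 2))
    (ld : Cg r (x 5) (x' 4)) (le : Cg r (x 6) (x' 5)) (lf : Cg r (x 7) (x' 6)) :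
    cd r (x 2) (x' 3) ≤ 2 * r - 21 ∧ cd r (x 2) (x' 3) + 5 - (2 * r - 21) ≤ cd r (x 4) (x' 7) := by
  obtain ⟨ρ, y, H⟩ := h.hel
  obtain ⟨ρ', z, K⟩ := h'.hel
  obtain ⟨z, K, ea⟩ := H.align K la
  have h0 : 0 < r := by linarith [H.half]
  have ea' : y 0 = z 0 + (0 : ℤ) * r := by simpa using ea
  obtain ⟨nb, eb⟩ := (H.cg 1).symm.trans (lb.trans (K.cg 1))
  obtain ⟨nc, ec⟩ := (H.cg 3).symm.trans (lc.trans (K.cg 2))
  obtain ⟨nd, ed⟩ := (H.cg 5).symm.trans (ld.trans (K.cg 4))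
  obtain ⟨ne, ee⟩ := (H.cg 6).symm.trans (le.trans (K.cg 5))
  obtain ⟨nf, ef⟩ := (H.cg 7).symm.trans (lf.trans (K.cg 6))
  obtain ⟨n0, e, f⟩ := tw_par (H.par 0) (K.par 0) (H.pair K hr ea' eb)
  obtain rfl : nb = 0 := by simpa using n0
  have T : ∀ {w w' : Fin 8} {n : ℤ}, y w = z w' + n * r →
      Tw (ρ 0) (ρ w) (ρ' 0) (ρ' w') n ∧ Tw (ρ 1) (ρ w) (ρ' 1) (ρ' w') n := fun g =>
    ⟨by simpa using H.pair K hr ea' g, by simpa using H.pair K hr eb g⟩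
  have Z : ∀ {q u v w q' u' v' w' : Fin 8} {n nu nv nw : ℤ}, y q = z q' + n * r →
      y u = z u' + nu * r → y v = z v' + nv * r → y w = z w' + nw * r →
      (u ≠ q ∧ v ≠ q ∧ w ≠ q ∧ 0 ≠ u ∧ 0 ≠ v ∧ 0 ≠ w ∧ 1 ≠ u ∧ 1 ≠ v ∧ 1 ≠ w ∧ u ≠ v ∧ u ≠ w ∧
        v ≠ w) → y q = z q' ∧ ρ' q' = ρ q + (ρ' 0 - ρ 0) := by
    intro q u v w q' u' v' w' n nu nv nw a b c d ⟨d1, d2, d3, d4, d5, d6, d7, d8, d9, d10, d11, d12⟩
    obtain ⟨rfl, g⟩ := tw_zero e f (T a) (T b) (T c) (T d) (H.pair K hr b a) (H.pair K hr c a)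
      (H.pair K hr d a) ⟨H.inj _ _ d1, H.inj _ _ d2, H.inj _ _ d3, H.inj _ _ d4, H.inj _ _ d5,
        H.inj _ _ d6, H.inj _ _ d7, H.inj _ _ d8, H.inj _ _ d9, H.inj _ _ d10, H.inj _ _ d11,
        H.inj _ _ d12⟩
    exact ⟨by simpa using a, by clear * - g; omega⟩
  obtain ⟨-, gc⟩ := Z ec ed ee ef (by decide)
  obtain ⟨fd, gd⟩ := Z ed ec ee ef (by decide)
  obtain ⟨-, ge⟩ := Z ee ec ed ef (by decide)
  obtain ⟨ff, gf⟩ := Z ef ec ed ee (by decide)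
  clear Z T e f ea ea' eb ec ed ee ef n0
  generalize ρ' 0 - ρ 0 = c at gc gd ge gf
  have p2 : Pr (ρ' 4) (ρ' 5) := K.par 4
  have p4 : Pr (ρ' 6) (ρ' 7) := K.par 6
  have p8 : Pr (ρ' 2) (ρ' 3) := K.par 2
  rw [gd, ge] at p2
  rw [gf] at p4
  rw [gc] at p8
  have s1 := shift_one (H.par 4) p2 (H.par 6) p4 (H.inj 5 7 (by decide))
  have d4 := H.inj 3 4 (by decide)
  have d5 := H.inj 3 5 (by decide)
  have d6 := H.inj 3 6 (by decide)
  have d7 := H.inj 3 7 (by decide)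
  change (c = 1 ∧ ρ 4 = 7 ∧ ρ 5 = 0 ∧ ρ 6 = 3 ∧ ρ 7 = 6 ∧ ρ' 7 = 0) ∨
    (c = -1 ∧ ρ 4 = 0 ∧ ρ 5 = 7 ∧ ρ 6 = 4 ∧ ρ 7 = 1 ∧ ρ' 7 = 7) at s1
  obtain ⟨o1, o2, o3, o4, o5⟩ := shift_two (show Pr (ρ 2) (ρ 3) from H.par 2) p8
    (by clear * - s1 d4 d5 d6 d7; omega)
  rw [cd_congr h0 (H.cg 2) (K.cg 3), cd_congr h0 (H.cg 4) (K.cg 7)]
  clear p2 p4 p8 d4 d5 d6 d7
  rcases s1 with ⟨rfl, a4, a5, -, a7, b7⟩ | ⟨rfl, a4, a5, -, a7, b7⟩
  · have o6 := o4 rfl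
    have c1 := H.lo 5 2 (by omega)
    have c2 := H.lo 2 7 (by omega)
    have c3 := K.lo 4 3 (by omega)
    have c4 := K.lo 3 6 (by omega)
    have c5 := H.lo 7 4 (by omega)
    have c6 := H.hi 5 4 (by omega)
    have c7 := K.hi 7 6 (by omega)
    have c8 := K.lo 7 4 (by omega)
    simp only [gd, gf, o1, a4, a5, a7, b7, ← fd, ← ff] at c1 c2 c3 c4 c5 c6 c7 c8
    push_cast at c1 c2 c3 c4 c5 c6 c7 c8
    exact cell_fin (A := y 5) (B := y 7) (m := ρ 2) hr (by linarith) (by linarith) (by linarith)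
      (by linarith) (by linarith) (by linarith) (by linarith) (by linarith)
  · have o6 := o5 rfl
    have c1 := H.lo 2 5 (by omega)
    have c2 := H.lo 7 2 (by omega)
    have c3 := K.lo 3 4 (by omega)
    have c4 := K.lo 6 3 (by omega)
    have c5 := H.lo 4 7 (by omega)
    have c6 := H.hi 4 5 (by omega)
    have c7 := K.hi 6 7 (by omega)
    have c8 := K.lo 4 7 (by omega)
    simp only [gd, gf, o1, a4, a5, a7, b7, ← fd, ← ff] at c1 c2 c3 c4 c5 c6 c7 c8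
    push_cast at c1 c2 c3 c4 c5 c6 c7 c8
    rw [← cd_neg h0 (y 2), ← cd_neg h0 (y 4)]
    exact cell_fin (A := -y 5) (B := -y 7) (m := 7 - ρ 2) hr (by linarith) (by linarith)
      (by linarith) (by linarith) (by linarith) (by linarith) (by linarith) (by linarith)

end Pool.Agent.P.MP_3f5ded_co.UG.B10
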