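import Pool.Agent.P.MP_3f5ded_co.U10Defs

set_option autoImplicit false

namespace Pool.Agent.P.MP_3f5ded_co.UG

open Sum

namespace B10

/-- The range of circle lengths in which the block is rigid. -/
def ok10 (r : ℝ) : Prop := 1 ≤ r ∧ r < 11

/-- The place of `w` among the vertices other than `v`. -/
def ix (v w : Fin 11) : Fin 10 :=
  if h : w.1 < v.1 then ⟨w.1, by omega⟩ else ⟨w.1 - 1, by omega⟩

/-- The port of a vertex. -/
def pt : Fin 11 → Fin 8 := ![0, 1, 2, 3, 4, 5, 6, 7, 0, 0, 0]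

/-- The reversal of darts of the block. -/
def rv : (Fin 11 × Fin 10) ⊕ Fin 8 → (Fin 11 × Fin 10) ⊕ Fin 8
  | inl d => if Mis d.1 (d.1.succAbove d.2) then inr (pt d.1)
      else inl (d.1.succAbove d.2, ix (d.1.succAbove d.2) d.1)
  | inr p => inl (vx p, ix (vx p) (vx (pa p)))

lemma rv_inv : ∀ e, rv (rv e) = e := by decide +kernel

lemma rv_in : ∀ d e, rv (inl d) = inl e → e.1 = d.1.succAbove d.2 ∧ d.1 = e.1.succAbove e.2 ∧
    ¬ Mis d.1 e.1 := by decide +kernel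

lemma rv_out : ∀ d p, rv (inl d) = inr p → d.1 = vx p ∧ d.1.succAbove d.2 = vx (pa p) := by
  decide +kernel

lemma ix_spec : ∀ v w : Fin 11, w ≠ v → v.succAbove (ix v w) = w := by decide +kernel

lemma rv_ix : ∀ v w : Fin 11, w ≠ v → ¬ Mis v w → rv (inl (v, ix v w)) = inl (w, ix w v) := by
  decide +kernel

lemma vx_inj : ∀ p q, vx p = vx q → p = q := by decide +kernel

lemma vx_pa : ∀ p, vx (pa p) ≠ vx p := by decide +kernel

/-- The block as a pole. -/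
def blk : Pole 10 (Fin 8) where
  N := Fin 11
  fin := inferInstance
  rv := rv
  inv := rv_inv
  ext := fun _ => ⟨_, rfl⟩
  noloop := fun d e h => by
    rw [(rv_in d e h).1]
    exact Fin.succAbove_ne _ _
  nopar := fun d d' e e' h h' a b => by
    have e1 := (rv_in d e h).1
    have e2 := (rv_in d' e' h').1
    rw [← b, e1, ← a] at e2
    exact Prod.ext a (Fin.succAbove_right_injective e2)

lemma blk_inj : blk.Inj := by
  intro p q d e h h' a
  cases h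
  cases h'
  exact vx_inj _ _ a

lemma blk_rel (r : ℝ) (x : Fin 8 → ℝ) :
    blk.Rel r x ↔ ∃ C, Cl r C ∧ ∀ p, Cg r (C (vx p) (vx (pa p))) (x p) := by
  constructor
  · rintro ⟨c, c1, c2, c3⟩
    refine ⟨fun v w => c (inl (v, ix v w)), ⟨fun v w a b => ?_, fun v w w' a b d => ?_⟩, fun p => ?_⟩
    · have := c2 (inl (v, ix v w))
      rwa [show blk.rv (inl (v, ix v w)) = inl (w, ix w v) from rv_ix v w a b] at this
    · refine c3 v _ _ fun e => d ?_
      rw [← ix_spec v w a, e, ix_spec v w' b]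
    · rw [← c1]
      exact (c2 (inr p)).symm
  · rintro ⟨C, ⟨c1, c2⟩, c3⟩
    refine ⟨Sum.elim (fun d => C d.1 (d.1.succAbove d.2)) x, fun _ => rfl, ?_, fun v s s' h => ?_⟩
    · rintro (d | p)
      · change Cg r _ (Sum.elim _ x (rv (inl d)))
        rcases h : rv (inl d) with e | p
        · obtain ⟨a, b, g⟩ := rv_in d e h
          change Cg r (C d.1 (d.1.succAbove d.2)) (C e.1 (e.1.succAbove e.2))
          rw [← a, ← b]
          exact c1 _ _ (by rw [a]; exact Fin.succAbove_ne _ _) g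
        · obtain ⟨a, b⟩ := rv_out d p h
          change Cg r (C d.1 (d.1.succAbove d.2)) (x p)
          rw [b, a]
          exact c3 p
      · change Cg r (x p) (C (vx p) ((vx p).succAbove (ix (vx p) (vx (pa p)))))
        rw [ix_spec _ _ (vx_pa p)]
        exact (c3 p).symm
    · exact c2 v _ _ (Fin.succAbove_ne _ _) (Fin.succAbove_ne _ _)
        fun e => h (Fin.succAbove_right_injective e)

/-- The rounds of the design; vertex `i < 8` has its port at round `2 i`. -/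
def D : Fin 11 → Fin 11 → ℤ :=
  ![![-6, 1, 2, 3, -6, -5, -4, 0, -2, -3, -1],
    ![1, -5, 3, 4, 2, -4, -2, -5, -3, -1, 0],
    ![2, 3, -3, 5, 6, 4, -3, -2, -1, 0, 1],
    ![3, 4, 5, -1, 7, 8, 6, -1, 0, 1, 2],
    ![15, 8, 6, 7, 6, 9, 10, 11, 12, 13, 14],
    ![16, 17, 10, 8, 9, 8, 11, 12, 13, 14, 15],
    ![17, 19, 18, 12, 10, 11, 10, 13, 14, 15, 16],
    ![14, 16, 19, 20, 11, 12, 13, 11, 15, 17, 18],
    ![19, 18, 20, 21, 12, 13, 14, 15, 12, 16, 17],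
    ![18, 20, 21, 22, 13, 14, 15, 17, 16, 13, 19],
    ![20, 21, 22, 23, 14, 15, 16, 18, 17, 19, 14]]

lemma D_far : ∀ v w w', w ≠ v → w' ≠ v → w ≠ w' →
    (D v w < D v w' ∧ D v w' ≤ D v w + 9) ∨ (D v w' < D v w ∧ D v w ≤ D v w' + 9) := by
  decide +kernel

/-- A renaming `σ` of the vertices that lists the ports in the order `p` of the helix. -/
def Sp (σ : Fin 11 → Fin 11) (p : Fin 8 → Fin 8) : Prop :=
  (∀ v w, σ v = σ w → v = w) ∧ (∀ v w, w ≠ v → ¬ Mis v w → D (σ v) (σ w) = D (σ w) (σ v) ∨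
    D (σ v) (σ w) = D (σ w) (σ v) + 21 ∨ D (σ w) (σ v) = D (σ v) (σ w) + 21) ∧
  (∀ q, ∃ i, p i = q) ∧ ∀ i, D (σ (vx (p i))) (σ (vx (pa (p i)))) = 2 * i.1

instance (σ : Fin 11 → Fin 11) (p : Fin 8 → Fin 8) : Decidable (Sp σ p) := by
  unfold Sp; infer_instance

/-- Colours for all rounds. -/
lemma exists_rounds {r : ℝ} {y : Fin 8 → ℝ} (h0 : y 0 + 2 ≤ y 1) (h1 : y 1 + 2 ≤ y 2)
    (h2 : y 2 + 2 ≤ y 3) (h3 : y 3 + 2 ≤ y 4) (h4 : y 4 + 2 ≤ y 5) (h5 : y 5 + 2 ≤ y 6)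
    (h6 : y 6 + 2 ≤ y 7) (h7 : y 7 + 7 ≤ y 0 + 2 * r) :
    ∃ f : ℤ → ℝ, Fr 21 (2 * r) f ∧ ∀ i : Fin 8, f (2 * i.1) = y i := by
  obtain ⟨b, hb⟩ : ∃ b : ℤ → ℝ, ∀ m, b m = if m < 2 then y 0 + m else if m < 4 then y 1 + (m - 2)
      else if m < 6 then y 2 + (m - 4) else if m < 8 then y 3 + (m - 6)
      else if m < 10 then y 4 + (m - 8) else if m < 12 then y 5 + (m - 10)
      else if m < 14 then y 6 + (m - 12) else y 7 + (m - 14) := ⟨_, fun _ => rfl⟩
  refine ⟨fun t => b (t % 21) + ((t / 21 : ℤ) : ℝ) * (2 * r), ⟨fun t => ?_, fun t => ?_⟩,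
    fun i => ?_⟩
  · rcases (show (t % 21 = 20 ∧ (t + 1) % 21 = 0 ∧ (t + 1) / 21 = t / 21 + 1) ∨
        (t % 21 < 20 ∧ (t + 1) % 21 = t % 21 + 1 ∧ (t + 1) / 21 = t / 21) by omega) with
      ⟨a, c, d⟩ | ⟨a, c, d⟩
    · simp only [a, c, d, hb]
      norm_num
      linarith
    · have e : 0 ≤ t % 21 := by omega
      simp only [c, d]
      generalize t % 21 = m at a e
      have : b m + 1 ≤ b (m + 1) := by
        interval_cases m <;> simp only [hb] <;> norm_num <;> linarith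
      linarith
  · have a : (t + ((21 : ℕ) : ℤ)) % 21 = t % 21 := by omega
    have c : (t + ((21 : ℕ) : ℤ)) / 21 = t / 21 + 1 := by omega
    simp only [a, c]
    push_cast
    ring
  · fin_cases i <;> simp [hb]

/-- A helix of ports extends to a colouring. -/
theorem design {r : ℝ} (hr : r < 11) {σ : Fin 11 → Fin 11} {p : Fin 8 → Fin 8} (h : Sp σ p)
    {x : Fin 8 → ℝ} (y : Fin 8 → ℝ) (hc : ∀ i, Cg r (x (p i)) (y i)) (h0 : y 0 + 2 ≤ y 1)
    (h1 : y 1 + 2 ≤ y 2) (h2 : y 2 + 2 ≤ y 3) (h3 : y 3 + 2 ≤ y 4) (h4 : y 4 + 2 ≤ y 5)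
    (h5 : y 5 + 2 ≤ y 6) (h6 : y 6 + 2 ≤ y 7) (h7 : y 7 + 7 ≤ y 0 + 2 * r) : blk.Rel r x := by
  obtain ⟨f, hf, g⟩ := exists_rounds h0 h1 h2 h3 h4 h5 h6 h7
  obtain ⟨s1, s2, s3, s4⟩ := h
  have f2 : ∀ t, f (t + 21) = f t + 2 * r := hf.per
  have key : ∀ a b : ℤ, a < b → b ≤ a + 9 → Far r (f a) (f b) := by
    intro a b h1 h2
    have a1 := hf.mono h1.le
    have a2 := hf.upper (show b ≤ a + ((21 : ℕ) : ℤ) by omega)
    have a3 : (a : ℝ) + 1 ≤ b := by exact_mod_cast h1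
    have a4 : (b : ℝ) ≤ a + 9 := by exact_mod_cast h2
    push_cast at a2
    exact Far.of_bounds (by linarith) (by linarith)
  refine (blk_rel r x).2 ⟨fun v w => f (D (σ v) (σ w)),
    ⟨fun v w a b => ?_, fun v w w' a b c => ?_⟩, fun q => ?_⟩
  · rcases s2 v w a b with e | e | e
    · exact Cg.of_eq (congrArg f e)
    · exact ⟨2, by rw [e, f2]; push_cast; ring⟩
    · exact ⟨-2, by rw [e, f2]; push_cast; ring⟩
  · rcases D_far _ _ _ (fun e => a (s1 _ _ e)) (fun e => b (s1 _ _ e)) fun e => c (s1 _ _ e) with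
      e | e
    · exact key _ _ e.1 e.2
    · exact (key _ _ e.1 e.2).symm
  · obtain ⟨i, rfl⟩ := s3 q
    exact (Cg.of_eq ((congrArg f (s4 i)).trans (g i))).trans (hc i).symm

/-- The ports of a rigid block lie on a helix. -/
theorem Rigid.nec (h : Rigid) {r : ℝ} (hr : ok10 r) {x : Fin 8 → ℝ} (g : blk.Rel r x) : R8 r x := by
  obtain ⟨C, a, b⟩ := (blk_rel r x).1 g
  obtain ⟨p, y, hp, p7, p4, p5, p6, hc, h⟩ := h r C hr.1 hr.2 a
  exact ⟨p, y, hp, p7, p4, p5, p6, fun i => (b _).symm.trans (hc i), h⟩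

end B10

end Pool.Agent.P.MP_3f5ded_co.UG
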