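import Pool.Agent.P.MP_3f5ded_co.UGJoin

set_option autoImplicit false

namespace Pool.Agent.P.MP_3f5ded_co.UG

open Sum

variable {k : ℕ} {ok : ℝ → Prop}

/-- A long chain of elastic wires imposes no condition at `r0`. -/
theorem exists_free {RE : ℝ → (Fin 2 → ℝ) → Prop} (hE : Real' k ok (Fin 2) true RE) {r0 s0 : ℝ}
    (hok : ok r0) (hr : 0 < r0) (hs : 0 < s0)
    (E2 : ∀ x : Fin 2 → ℝ, cd r0 (x 0) (x 1) ≤ s0 → RE r0 x) :
    ∃ R, Real' k ok (Fin 2) true R ∧ ∀ x, R r0 x := by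
  have step : ∀ a v : ℝ, |v| ≤ s0 → RE r0 ![a, a + v] := fun a v hv =>
    E2 _ ((cd_le_of hr (Cg.refl _ _)).trans hv)
  have key : ∀ W : ℕ, ∃ R, Real' k ok (Fin 2) true R ∧
      ∀ a v : ℝ, |v| ≤ s0 → R r0 ![a, a + (W + 1) * v] := by
    intro W
    induction W with
    | zero => exact ⟨RE, hE, fun a v hv => by simpa using step a v hv⟩
    | succ W ih =>
      obtain ⟨R, h1, h2⟩ := ih
      refine ⟨_, h1.ser hE, fun a v hv => ⟨a + (W + 1) * v, h2 a v hv, ?_⟩⟩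
      have e : a + (((W + 1 : ℕ) : ℝ) + 1) * v = a + (W + 1) * v + v := by
        push_cast
        ring
      change RE r0 ![_, a + (((W + 1 : ℕ) : ℝ) + 1) * v]
      rw [e]
      exact step _ v hv
  obtain ⟨W, hW⟩ := exists_nat_ge (r0 / s0)
  obtain ⟨R, h1, h2⟩ := key W
  refine ⟨R, h1, fun x => ?_⟩
  have hm := toIcoMod_mem_Ico hr 0 (x 1 - x 0)
  have hc := cg_mod hr (x 1 - x 0)
  generalize toIcoMod hr 0 (x 1 - x 0) = u at hm hc
  have hW0 : (0 : ℝ) < W + 1 := by positivity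
  have hu : |u / (W + 1)| ≤ s0 := by
    rw [abs_of_nonneg (div_nonneg hm.1 hW0.le), div_le_iff₀ hW0]
    rw [div_le_iff₀ hs] at hW
    have := hm.2
    nlinarith
  refine h1.cg hok (h2 (x 0) _ hu) fun p => ?_
  fin_cases p
  · exact Cg.refl _ _
  · change Cg r0 (x 0 + (W + 1) * (u / (W + 1))) (x 1)
    rw [mul_div_cancel₀ _ hW0.ne']
    have := (hc.add (x 0)).symm
    rwa [sub_add_cancel, add_comm] at this

/-- A far filter followed by `j` elastic wires. -/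
theorem exists_filt {s φ : ℝ → ℝ} {RE RF : ℝ → (Fin 2 → ℝ) → Prop}
    (hE : Real' k ok (Fin 2) true RE) (hF : Real' k ok (Fin 2) true RF)
    (hpos : ∀ r, ok r → 0 < r) {r0 : ℝ} (hok : ok r0) (hs : 0 < s r0)
    (E1 : ∀ r x, ok r → RE r x → cd r (x 0) (x 1) ≤ s r)
    (E2 : ∀ x : Fin 2 → ℝ, cd r0 (x 0) (x 1) ≤ s r0 → RE r0 x)
    (F1 : ∀ r x, ok r → RF r x → φ r ≤ cd r (x 0) (x 1)) (F2 : ∀ a, RF r0 ![a, a + φ r0])
    (j : ℕ) : ∃ R, Real' k ok (Fin 2) true R ∧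
      (∀ r x, ok r → R r x → φ r - j * s r ≤ cd r (x 0) (x 1)) ∧
      ∀ a, R r0 ![a, a + (φ r0 - j * s r0)] := by
  induction j with
  | zero => exact ⟨RF, hF, fun r x hr h => by simpa using F1 r x hr h, fun a => by simpa using F2 a⟩
  | succ j ih =>
    obtain ⟨R, h1, h2, h3⟩ := ih
    refine ⟨_, h1.ser hE, ?_, fun a => ⟨_, h3 a, E2 _ ?_⟩⟩
    · rintro r x hr ⟨y, a1, a2⟩
      have b1 : φ r - j * s r ≤ cd r (x 0) y := h2 r _ hr a1
      have b2 : cd r y (x 1) ≤ s r := E1 r _ hr a2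
      have b3 := cd_tri (hpos r hr) (x 0) (x 1) y
      rw [cd_symm (hpos r hr) (x 1) y] at b3
      push_cast
      linarith
    · change cd r0 (a + (φ r0 - j * s r0)) (a + (φ r0 - ((j + 1 : ℕ) : ℝ) * s r0)) ≤ s r0
      refine (cd_le_of (u := -s r0) (hpos r0 hok) (Cg.of_eq ?_)).trans ?_
      · push_cast
        ring
      · rw [abs_neg, abs_of_pos hs]

/-- The chain of cells. -/
theorem exists_chain {s φ : ℝ → ℝ} {RE RF : ℝ → (Fin 2 → ℝ) → Prop}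
    {RI : ℝ → (Fin 4 → ℝ) → Prop} (hE : Real' k ok (Fin 2) true RE)
    (hF : Real' k ok (Fin 2) true RF) (hI : Real' k ok (Fin 4) true RI)
    (hpos : ∀ r, ok r → 0 < r) {r0 : ℝ} (hok : ok r0) (hs : 0 < s r0)
    (E1 : ∀ r x, ok r → RE r x → cd r (x 0) (x 1) ≤ s r)
    (E2 : ∀ x : Fin 2 → ℝ, cd r0 (x 0) (x 1) ≤ s r0 → RE r0 x)
    (F1 : ∀ r x, ok r → RF r x → φ r ≤ cd r (x 0) (x 1)) (F2 : ∀ a, RF r0 ![a, a + φ r0])
    (I1 : ∀ r x, ok r → RI r x → cd r (x 0) (x 1) ≤ 2 * s r ∧ cd r (x 2) (x 3) ≤ 2 * s r ∧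
      cd r (x 0) (x 1) + cd r (x 2) (x 3) ≤ 3 * s r)
    (I2 : ∀ u c, s r0 ≤ u → u ≤ 2 * s r0 → ∃ a, RI r0 ![a, a + u, c + (3 * s r0 - u), c])
    (S : ℕ → ℕ) (S0 : S 0 = 0) (S1 : ∀ t, S t ≤ S (t + 1))
    (S2 : ∀ t : ℕ, s r0 ≤ 2 * s r0 + t * (3 * s r0 - φ r0) + S t * s r0 ∧
      2 * s r0 + t * (3 * s r0 - φ r0) + S t * s r0 ≤ 2 * s r0) (t : ℕ) :
    ∃ R, Real' k ok (Fin 2) true R ∧
      (∀ r x, ok r → R r x → cd r (x 0) (x 1) ≤ 2 * s r + t * (3 * s r - φ r) + S t * s r ∧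
        s r ≤ 2 * s r + t * (3 * s r - φ r) + S t * s r) ∧
      ∀ p, R r0 ![p + (2 * s r0 + t * (3 * s r0 - φ r0) + S t * s r0), p] := by
  induction t with
  | zero =>
    obtain ⟨R, h1, h2⟩ := exists_free hE hok (hpos r0 hok) hs E2
    refine ⟨_, h1.cap hI, ?_, fun p => ?_⟩
    · rintro r x hr ⟨a, b, -, a2⟩
      have b1 : cd r (x 0) (x 1) ≤ 2 * s r := (I1 r _ hr a2).2.1
      have b2 := cd_nonneg r (x 0) (x 1)
      rw [S0]
      push_cast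
      constructor <;> linarith
    · obtain ⟨a, ha⟩ := I2 (s r0) p le_rfl (by linarith)
      refine ⟨a, a + s r0, h2 _, ?_⟩
      have e : 2 * s r0 + ((0 : ℕ) : ℝ) * (3 * s r0 - φ r0) + S 0 * s r0 = 3 * s r0 - s r0 := by
        rw [S0]
        push_cast
        ring
      rw [e]
      exact ha
  | succ t ih =>
    obtain ⟨R, h1, h2, h3⟩ := ih
    obtain ⟨j, hj⟩ := Nat.exists_eq_add_of_le (S1 t)
    obtain ⟨G, g1, g2, g3⟩ := exists_filt hE hF hpos hok hs E1 E2 F1 F2 j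
    have hj' : (S (t + 1) : ℝ) = S t + j := by exact_mod_cast hj
    refine ⟨_, (h1.ser g1).cap hI, ?_, fun p => ?_⟩
    · rintro r x hr ⟨a, b, ⟨y, a1, a3⟩, a2⟩
      have b1 : cd r a b ≤ 2 * s r := (I1 r _ hr a2).1
      have b2 : cd r a b + cd r (x 0) (x 1) ≤ 3 * s r := (I1 r _ hr a2).2.2
      have b3 : cd r a y ≤ 2 * s r + t * (3 * s r - φ r) + S t * s r := (h2 r _ hr a1).1
      have b4 : φ r - j * s r ≤ cd r y b := g2 r _ hr a3
      have b5 := cd_tri (hpos r hr) y a b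
      rw [cd_symm (hpos r hr) y a] at b5
      rw [hj']
      push_cast
      constructor <;> linarith
    · obtain ⟨c1, c2⟩ := S2 (t + 1)
      obtain ⟨B, hB⟩ : ∃ B, B = 2 * s r0 + t * (3 * s r0 - φ r0) + S t * s r0 := ⟨_, rfl⟩
      rw [← hB] at h3
      have e : 2 * s r0 + ((t + 1 : ℕ) : ℝ) * (3 * s r0 - φ r0) + S (t + 1) * s r0 =
          3 * s r0 - (φ r0 - j * s r0 - B) := by
        rw [hj', hB]
        push_cast
        ring
      rw [e] at c1 c2 ⊢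
      obtain ⟨a, ha⟩ := I2 (φ r0 - j * s r0 - B) p (by linarith) (by linarith)
      refine ⟨a, _, ⟨a - B, ?_, ?_⟩, ha⟩
      · have := h3 (a - B)
        rwa [sub_add_cancel] at this
      · have := g3 (a - B)
        have e' : a - B + (φ r0 - j * s r0) = a + (φ r0 - j * s r0 - B) := by ring
        rwa [e'] at this

/-- The closed chain is colourable at `r0` and not below. -/
theorem exists_closed {s φ : ℝ → ℝ} {RE RF : ℝ → (Fin 2 → ℝ) → Prop}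
    {RI : ℝ → (Fin 4 → ℝ) → Prop} (hE : Real' k ok (Fin 2) true RE)
    (hF : Real' k ok (Fin 2) true RF) (hI : Real' k ok (Fin 4) true RI)
    (hpos : ∀ r, ok r → 0 < r) {r0 : ℝ} (hok : ok r0) (hs : 0 < s r0)
    (E1 : ∀ r x, ok r → RE r x → cd r (x 0) (x 1) ≤ s r)
    (E2 : ∀ x : Fin 2 → ℝ, cd r0 (x 0) (x 1) ≤ s r0 → RE r0 x)
    (F1 : ∀ r x, ok r → RF r x → φ r ≤ cd r (x 0) (x 1)) (F2 : ∀ a, RF r0 ![a, a + φ r0])
    (I1 : ∀ r x, ok r → RI r x → cd r (x 0) (x 1) ≤ 2 * s r ∧ cd r (x 2) (x 3) ≤ 2 * s r ∧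
      cd r (x 0) (x 1) + cd r (x 2) (x 3) ≤ 3 * s r)
    (I2 : ∀ u c, s r0 ≤ u → u ≤ 2 * s r0 → ∃ a, RI r0 ![a, a + u, c + (3 * s r0 - u), c])
    (L N : ℕ) (hL : 0 < L) (hN : 0 < N) (hq : L * (φ r0 - 3 * s r0) = N * s r0)
    (hm : ∀ r, ok r → r < r0 → φ r0 ≤ φ r ∧ s r < s r0) :
    ∃ R, Real' k ok (Fin 0) true R ∧ (∀ x, R r0 x) ∧ ∀ r x, ok r → r < r0 → ¬ R r x := by
  have hL' : (0 : ℝ) < L := by exact_mod_cast hL
  have hN' : (0 : ℝ) < N := by exact_mod_cast hN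
  obtain ⟨q, hq0, hq1, hq2⟩ : ∃ q : ℝ, 0 < q ∧ L * q = N ∧ φ r0 - 3 * s r0 = q * s r0 := by
    refine ⟨N / L, div_pos hN' hL', mul_div_cancel₀ _ hL'.ne', ?_⟩
    field_simp
    linarith
  have hS : ∀ t : ℕ, t * q - 1 ≤ ((⌈t * q⌉₊ - 1 : ℕ) : ℝ) ∧ ((⌈t * q⌉₊ - 1 : ℕ) : ℝ) ≤ t * q := by
    intro t
    have h0 : 0 ≤ t * q := by positivity
    have h1 := Nat.le_ceil (t * q)
    have h2 := Nat.ceil_lt_add_one h0
    generalize ⌈t * q⌉₊ = n at h1 h2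
    rcases n with _ | n
    · simp only [Nat.zero_sub, Nat.cast_zero] at h1 ⊢
      constructor <;> linarith
    · simp only [Nat.add_sub_cancel]
      push_cast at h1 h2
      constructor <;> linarith
  obtain ⟨R, h1, h2, h3⟩ := exists_chain hE hF hI hpos hok hs E1 E2 F1 F2 I1 I2
    (fun t => ⌈t * q⌉₊ - 1) (by simp)
    (fun t => Nat.sub_le_sub_right (Nat.ceil_mono (by push_cast; linarith)) 1)
    (fun t => by
      obtain ⟨a1, a2⟩ := hS t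
      have e : (3 * s r0 - φ r0) = -q * s r0 := by linarith
      have b1 := mul_le_mul_of_nonneg_right a1 hs.le
      have b2 := mul_le_mul_of_nonneg_right a2 hs.le
      rw [e]
      constructor <;> linarith) L
  obtain ⟨F, f1, f2⟩ := exists_free hE hok (hpos r0 hok) hs E2
  refine ⟨_, h1.clo f1, fun _ => ⟨_, h3 0, f2 _⟩, ?_⟩
  rintro r x hr hlt ⟨y, a1, -⟩
  have b1 := (h2 r y hr a1).2
  obtain ⟨b2, b3⟩ := hm r hr hlt
  have e : ((⌈L * q⌉₊ - 1 : ℕ) : ℝ) = N - 1 := by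
    rw [hq1, Nat.ceil_natCast, Nat.cast_sub hN, Nat.cast_one]
  simp only [e] at b1
  have b4 := mul_le_mul_of_nonneg_left b2 hL'.le
  have b5 := mul_lt_mul_of_pos_left b3 hL'
  have b6 := mul_lt_mul_of_pos_left b3 hN'
  linarith

end Pool.Agent.P.MP_3f5ded_co.UG
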