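import Pool.Agent.P.MP_3f5ded_co.UGDefs

set_option autoImplicit false

namespace Pool.Agent.P.MP_3f5ded_co.UG

open Sum

/-- A fixed point free reversal of darts gives a regular simple graph. -/
theorem close_graph {k : ℕ} {N : Type} [Fintype N] (σ : N × Fin k → N × Fin k)
    (inv : ∀ d, σ (σ d) = d) (noloop : ∀ d, (σ d).1 ≠ d.1)
    (nopar : ∀ d d', d.1 = d'.1 → (σ d).1 = (σ d').1 → d = d') :
    ∃ (n : ℕ) (G : SimpleGraph (Fin n)) (_ : DecidableRel G.Adj), G.IsRegularOfDegree k ∧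
      ∀ r : ℝ, 0 < r → (Col G r ↔ ∃ c : N × Fin k → ℝ, (∀ d, Cg r (c d) (c (σ d))) ∧
        ∀ v s s', s ≠ s' → Far r (c (v, s)) (c (v, s'))) := by
  classical
  set e := Fintype.equivFin N
  let G : SimpleGraph (Fin (Fintype.card N)) :=
    { Adj := fun x y => ∃ p : N × Fin k, e p.1 = x ∧ e (σ p).1 = y
      symm := ⟨by
        rintro x y ⟨p, h1, h2⟩
        exact ⟨σ p, h2, by rw [inv]; exact h1⟩⟩
      loopless := ⟨by
        rintro x ⟨p, h1, h2⟩
        exact noloop p (e.injective (h2.trans h1.symm))⟩ }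
  let ed : N × Fin k → G.edgeSet := fun p => ⟨s(e p.1, e (σ p).1), ⟨p, rfl, rfl⟩⟩
  have ed1 : ∀ p, ed (σ p) = ed p := by
    intro p
    apply Subtype.ext
    simp only [ed, inv]
    exact Sym2.eq_swap
  have ed2 : ∀ p q, ed p = ed q → q = p ∨ q = σ p := by
    intro p q h
    have := congrArg Subtype.val h
    simp only [ed, Sym2.eq_iff, EmbeddingLike.apply_eq_iff_eq] at this
    rcases this with ⟨h1, h2⟩ | ⟨h1, h2⟩
    · exact Or.inl (nopar _ _ h1 h2).symm
    · exact Or.inr (nopar _ _ h2.symm (by rw [inv]; exact h1.symm))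
  have ed3 : ∀ f : G.edgeSet, ∃ p, ed p = f := by
    rintro ⟨f, hf⟩
    induction f using Sym2.ind with
    | _ x y =>
      have hf' : ∃ p : N × Fin k, e p.1 = x ∧ e (σ p).1 = y := hf
      obtain ⟨p, h1, h2⟩ := hf'
      exact ⟨p, Subtype.ext (by simp only [ed, h1, h2])⟩
  have ed4 : ∀ (f : G.edgeSet) (v), v ∈ f.1 → ∃ p, ed p = f ∧ e p.1 = v := by
    intro f v hv
    obtain ⟨p, rfl⟩ := ed3 f
    simp only [ed, Sym2.mem_iff] at hv
    rcases hv with rfl | rfl
    · exact ⟨p, rfl, rfl⟩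
    · exact ⟨σ p, ed1 p, rfl⟩
  refine ⟨_, G, inferInstance, fun x => ?_, fun r hr => ⟨?_, ?_⟩⟩
  · have : G.neighborSet x = Set.range fun s : Fin k => e (σ (e.symm x, s)).1 := by
      ext y
      constructor
      · rintro ⟨⟨v, s⟩, h1, h2⟩
        refine ⟨s, ?_⟩
        have hv : e.symm x = v := by rw [← h1]; exact e.symm_apply_apply v
        rw [hv]; exact h2
      · rintro ⟨s, hs⟩
        exact ⟨(e.symm x, s), e.apply_symm_apply x, hs⟩
    rw [← SimpleGraph.card_neighborSet_eq_degree, ← Nat.card_eq_fintype_card, this,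
      Nat.card_range_of_injective, Nat.card_eq_fintype_card, Fintype.card_fin]
    intro s s' h
    exact congrArg Prod.snd (nopar (e.symm x, s) (e.symm x, s') rfl (e.injective h))
  · rintro ⟨c, h1, h2⟩
    refine ⟨fun p => c (ed p), fun p => Cg.of_eq (congrArg c (ed1 p).symm), fun v s s' hne => ?_⟩
    have : ed (v, s) ≠ ed (v, s') := by
      intro h
      rcases ed2 _ _ h with h' | h'
      · exact hne (congrArg Prod.snd h').symm
      · exact noloop (v, s) (congrArg Prod.fst h').symm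
    obtain ⟨a, b⟩ := h2 _ _ this ⟨e v, by simp [ed], by simp [ed]⟩
    rcases abs_cases (c (ed (v, s)) - c (ed (v, s'))) with h | h
    · exact (Far.of_bounds (by linarith) (by linarith)).symm
    · exact Far.of_bounds (by linarith) (by linarith)
  · rintro ⟨c, h2, h1⟩
    choose π hπ using ed3
    have hn : ∀ p, Cg r (c p) (toIcoMod hr 0 (c (π (ed p)))) := by
      intro p
      have a : Cg r (c p) (c (π (ed p))) := by
        rcases ed2 p _ (hπ (ed p)).symm with h | h <;> rw [h]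
        · exact Cg.refl _ _
        · exact h2 p
      exact a.trans (cg_mod hr _)
    have hb : ∀ f, 0 ≤ toIcoMod hr 0 (c (π f)) ∧ toIcoMod hr 0 (c (π f)) < r := fun f =>
      ⟨(toIcoMod_mem_Ico hr 0 _).1, by simpa using (toIcoMod_mem_Ico hr 0 (c (π f))).2⟩
    refine ⟨fun f => toIcoMod hr 0 (c (π f)), hb, ?_⟩
    rintro f g hne ⟨v, hf, hg⟩
    obtain ⟨⟨u, s⟩, rfl, hp⟩ := ed4 f v hf
    obtain ⟨⟨u', s'⟩, rfl, hq⟩ := ed4 g v hg
    obtain rfl : u = u' := e.injective (hp.trans hq.symm)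
    have := (h1 u s s' (fun h => hne (by rw [h]))).congr (hn _) (hn _)
    have a0 := this 0
    have a1 := this 1
    have a2 := this (-1)
    have b1 := hb (ed (u, s))
    have b2 := hb (ed (u, s'))
    push_cast at a0 a1 a2
    refine ⟨by simpa using a0, ?_⟩
    rw [abs_of_neg (by linarith)] at a1
    rw [abs_of_pos (by linarith)] at a2
    rw [abs_le]; constructor <;> linarith

/-- A pole without ports is a regular simple graph. -/
theorem Real'.close {k : ℕ} {ok : ℝ → Prop} {P : Type} [IsEmpty P] {b : Bool}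
    {R : ℝ → (P → ℝ) → Prop} (h : Real' k ok P b R) :
    ∃ (n : ℕ) (G : SimpleGraph (Fin n)) (_ : DecidableRel G.Adj), G.IsRegularOfDegree k ∧
      ∀ r : ℝ, ok r → 0 < r → ∀ x, (Col G r ↔ R r x) := by
  obtain ⟨A, -, hA⟩ := h
  have hex : ∀ d : A.N × Fin k, ∃ e, A.rv (inl d) = inl e := by
    intro d
    rcases hd : A.rv (inl d) with e | p
    · exact ⟨e, rfl⟩
    · exact isEmptyElim p
  choose σ hσ using hex
  have inv : ∀ d, σ (σ d) = d := by
    intro d
    have h1 := A.inv (inl d)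
    rw [hσ, hσ] at h1
    exact inl_injective h1
  let _ := A.fin
  obtain ⟨n, G, dec, hreg, hG⟩ := close_graph σ inv (fun d => A.noloop d _ (hσ d))
    (fun d d' h1 h2 => A.nopar d d' _ _ (hσ d) (hσ d') h1 h2)
  refine ⟨n, G, dec, hreg, fun r hok hr x => ?_⟩
  rw [hG r hr, ← hA r hok x]
  constructor
  · rintro ⟨c, h1, h2⟩
    refine ⟨Sum.elim c x, fun p => rfl, ?_, h2⟩
    rintro (d | p)
    · rw [hσ]; exact h1 d
    · exact isEmptyElim p
  · rintro ⟨c, -, h1, h2⟩
    exact ⟨fun d => c (inl d), fun d => by simpa only [hσ] using h1 (inl d), h2⟩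

end Pool.Agent.P.MP_3f5ded_co.UG
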