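import Pool.Agent.P.MP_3f5ded_co.UGJoin

set_option autoImplicit false

namespace Pool.Agent.P.MP_3f5ded_co.UG

open Sum

/-- Three points, in one of the two cyclic orders, with all three gaps at most `M`. -/
def TG (r M p q z : ℝ) : Prop :=
  ∃ (e : ℤ) (a b c : ℝ), (e = 1 ∨ e = -1) ∧ a + b + c = r ∧ a ≤ M ∧ b ≤ M ∧ c ≤ M ∧
    Cg r q (p + e * a) ∧ Cg r z (q + e * b) ∧ Cg r p (z + e * c)

lemma tau_iff {r p q z : ℝ} : Tau r p q z ↔ TG r (r - 5) p q z := by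
  constructor
  · rintro (⟨a, b, ⟨n, hn⟩, ⟨m, hm⟩, h1, h2, h3⟩ | ⟨a, b, ⟨n, hn⟩, ⟨m, hm⟩, h1, h2, h3⟩)
    · exact ⟨1, a - p, b - a, p + r - b, Or.inl rfl, by ring, h1, h2, by linarith,
        ⟨n, by push_cast; linarith⟩, ⟨m - n, by push_cast; linarith⟩,
        ⟨-m - 1, by push_cast; linarith⟩⟩
    · exact ⟨-1, p + r - b, b - a, a - p, Or.inr rfl, by ring, by linarith, h2, h1,
        ⟨m + 1, by push_cast; linarith⟩, ⟨n - m, by push_cast; linarith⟩,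
        ⟨-n, by push_cast; linarith⟩⟩
  · rintro ⟨e, a, b, c, rfl | rfl, h0, h1, h2, h3, ⟨n, hn⟩, ⟨m, hm⟩, ⟨l, hl⟩⟩
    · exact Or.inl ⟨p + a, p + a + b, ⟨n, by push_cast at *; linarith⟩,
        ⟨n + m, by push_cast at *; linarith⟩, by linarith, by linarith, by linarith⟩
    · exact Or.inr ⟨p + c, p + c + b, ⟨-l, by push_cast at *; linarith⟩,
        ⟨n - 1, by push_cast at *; linarith⟩, by linarith, by linarith, by linarith⟩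

lemma TG.intro {r M p q z : ℝ} (e n0 n1 n2 : ℤ) (he : e = 1 ∨ e = -1) (hn : n0 + n1 + n2 = 1)
    (h0 : e * (q - p) + n0 * r ≤ M) (h1 : e * (z - q) + n1 * r ≤ M)
    (h2 : e * (p - z) + n2 * r ≤ M) : TG r M p q z := by
  have hn' : (n0 : ℝ) + n1 + n2 = 1 := by exact_mod_cast hn
  refine ⟨e, _, _, _, he, ?_, h0, h1, h2, ⟨-(e * n0), ?_⟩, ⟨-(e * n1), ?_⟩, ⟨-(e * n2), ?_⟩⟩
  · linear_combination r * hn'
  all_goals rcases he with rfl | rfl <;> push_cast <;> ring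

lemma int_mul_five {r : ℝ} (hr : 0 < r) (n : ℤ) :
    n * r ≤ -2 * r ∨ n * r = -r ∨ n * r = 0 ∨ n * r = r ∨ 2 * r ≤ n * r := by
  rcases (by omega : n ≤ -2 ∨ n = -1 ∨ n = 0 ∨ n = 1 ∨ 2 ≤ n) with h | rfl | rfl | rfl | h
  · exact Or.inl (mul_le_mul_of_nonneg_right (by exact_mod_cast h) hr.le)
  · simp
  · simp
  · simp
  · exact Or.inr (Or.inr (Or.inr (Or.inr
      (mul_le_mul_of_nonneg_right (by exact_mod_cast h) hr.le))))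

/-- Signs around a cycle of length five. -/
lemma pet_five {r M : ℝ} (hM : 8 * M < 3 * r) (σ0 σ1 σ2 σ3 σ4 : ℤ) (h0 h1 h2 h3 h4 : ℝ) (n : ℤ)
    (s0 : σ0 = 1 ∨ σ0 = -1) (s1 : σ1 = 1 ∨ σ1 = -1) (s2 : σ2 = 1 ∨ σ2 = -1)
    (s3 : σ3 = 1 ∨ σ3 = -1) (s4 : σ4 = 1 ∨ σ4 = -1)
    (a0 : r - 2 * M ≤ h0) (a1 : r - 2 * M ≤ h1) (a2 : r - 2 * M ≤ h2) (a3 : r - 2 * M ≤ h3)
    (a4 : r - 2 * M ≤ h4) (b0 : h0 ≤ M) (b1 : h1 ≤ M) (b2 : h2 ≤ M) (b3 : h3 ≤ M) (b4 : h4 ≤ M)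
    (hs : σ0 * h0 + σ1 * h1 + σ2 * h2 + σ3 * h3 + σ4 * h4 = n * r) :
    (σ0 + σ1 + σ2 + σ3 + σ4 = 3 ∨ σ0 + σ1 + σ2 + σ3 + σ4 = -3) ∧
      3 * (σ0 * h0 + σ1 * h1 + σ2 * h2 + σ3 * h3 + σ4 * h4) = (σ0 + σ1 + σ2 + σ3 + σ4) * r := by
  have hr : 0 < r := by linarith
  rcases s0 with rfl | rfl <;> rcases s1 with rfl | rfl <;> rcases s2 with rfl | rfl <;>
    rcases s3 with rfl | rfl <;> rcases s4 with rfl | rfl <;> push_cast at hs ⊢ <;>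
    rcases int_mul_five hr n with h | h | h | h | h <;>
    first
      | exact ⟨by decide, by linarith⟩
      | (exfalso; linarith)

/-- The sign patterns of the Petersen pole. -/
lemma pet_signs (e0 e1 e2 e3 e4 e5 e6 e7 : ℤ) (s0 : e0 = 1 ∨ e0 = -1) (s1 : e1 = 1 ∨ e1 = -1) (s2 :
    e2 = 1 ∨ e2 = -1) (s3 : e3 = 1 ∨ e3 = -1) (s4 : e4 = 1 ∨ e4 = -1) (s5 : e5 = 1 ∨ e5 = -1) (s6 :
    e6 = 1 ∨ e6 = -1) (s7 : e7 = 1 ∨ e7 = -1)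
    (c0 : e5 + e7 + (-e4) + e6 + (-e3) = 3 ∨ e5 + e7 + (-e4) + e6 + (-e3) = -3)
    (c1 : e1 + e2 + e7 + e5 + (-e0) = 3 ∨ e1 + e2 + e7 + e5 + (-e0) = -3)
    (c2 : (-e1) + (-e6) + (-e3) + (-e5) + (-e0) = 3 ∨ (-e1) + (-e6) + (-e3) + (-e5) + (-e0) = -3)
    (c3 : e2 + (-e7) + (-e4) + (-e6) + (-e1) = 3 ∨ e2 + (-e7) + (-e4) + (-e6) + (-e1) = -3) :
    (e0 = 1 ∧ e1 = 1 ∧ e2 = 1 ∧ e3 = -1 ∧ e4 = 1 ∧ e5 = 1 ∧ e6 = 1 ∧ e7 = 1) ∨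
    (e0 = 1 ∧ e1 = 1 ∧ e2 = -1 ∧ e3 = 1 ∧ e4 = 1 ∧ e5 = -1 ∧ e6 = 1 ∧ e7 = -1) ∨
    (e0 = 1 ∧ e1 = -1 ∧ e2 = 1 ∧ e3 = -1 ∧ e4 = 1 ∧ e5 = -1 ∧ e6 = -1 ∧ e7 = -1) ∨
    (e0 = -1 ∧ e1 = 1 ∧ e2 = -1 ∧ e3 = 1 ∧ e4 = -1 ∧ e5 = 1 ∧ e6 = 1 ∧ e7 = 1) ∨
    (e0 = -1 ∧ e1 = -1 ∧ e2 = 1 ∧ e3 = -1 ∧ e4 = -1 ∧ e5 = 1 ∧ e6 = -1 ∧ e7 = 1) ∨
    (e0 = -1 ∧ e1 = -1 ∧ e2 = -1 ∧ e3 = 1 ∧ e4 = -1 ∧ e5 = -1 ∧ e6 = -1 ∧ e7 = -1) := by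
  rcases s0 with rfl | rfl <;> rcases s1 with rfl | rfl <;> rcases s2 with rfl | rfl <;> rcases s3
    with rfl | rfl <;> rcases s4 with rfl | rfl <;> rcases s5 with rfl | rfl <;> rcases s6 with rfl
    | rfl <;> rcases s7 with rfl | rfl <;> revert c0 c1 c2 c3 <;> decide

lemma abs_add_abs_le {x y t : ℝ} (h1 : x + y ≤ t) (h2 : x - y ≤ t) (h3 : -x + y ≤ t)
    (h4 : -x - y ≤ t) : |x| + |y| ≤ t := by
  rcases abs_cases x with h | h <;> rcases abs_cases y with h' | h' <;> linarith [h.1, h'.1]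

/-- The two pairs of ports of the Petersen pole are close. -/
lemma pet_lower {r M : ℝ} (hM : 8 * M < 3 * r) (w : Fin 14 → ℝ)
    (t0 : TG r M (w 2) (w 4) (w 6)) (t1 : TG r M (w 4) (w 5) (w 7)) (t2 : TG r M (w 0) (w 5) (w 8))
    (t3 : TG r M (w 1) (w 9) (w 10)) (t4 : TG r M (w 3) (w 11) (w 12)) (t5 : TG r M (w 6) (w 9) (w
    13)) (t6 : TG r M (w 7) (w 11) (w 10)) (t7 : TG r M (w 8) (w 13) (w 12)) :
    cd r (w 0) (w 1) ≤ 2 * (3 * M - r) ∧ cd r (w 3) (w 2) ≤ 2 * (3 * M - r) ∧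
      cd r (w 0) (w 1) + cd r (w 3) (w 2) ≤ 3 * (3 * M - r) := by
  obtain ⟨e0, a0, b0, c0, s0, z0, ha0, hb0, hc0, ⟨na0, pa0⟩, ⟨nb0, pb0⟩, ⟨nc0, pc0⟩⟩ := t0
  obtain ⟨e1, a1, b1, c1, s1, z1, ha1, hb1, hc1, ⟨na1, pa1⟩, ⟨nb1, pb1⟩, ⟨nc1, pc1⟩⟩ := t1
  obtain ⟨e2, a2, b2, c2, s2, z2, ha2, hb2, hc2, ⟨na2, pa2⟩, ⟨nb2, pb2⟩, ⟨nc2, pc2⟩⟩ := t2
  obtain ⟨e3, a3, b3, c3, s3, z3, ha3, hb3, hc3, ⟨na3, pa3⟩, ⟨nb3, pb3⟩, ⟨nc3, pc3⟩⟩ := t3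
  obtain ⟨e4, a4, b4, c4, s4, z4, ha4, hb4, hc4, ⟨na4, pa4⟩, ⟨nb4, pb4⟩, ⟨nc4, pc4⟩⟩ := t4
  obtain ⟨e5, a5, b5, c5, s5, z5, ha5, hb5, hc5, ⟨na5, pa5⟩, ⟨nb5, pb5⟩, ⟨nc5, pc5⟩⟩ := t5
  obtain ⟨e6, a6, b6, c6, s6, z6, ha6, hb6, hc6, ⟨na6, pa6⟩, ⟨nb6, pb6⟩, ⟨nc6, pc6⟩⟩ := t6
  obtain ⟨e7, a7, b7, c7, s7, z7, ha7, hb7, hc7, ⟨na7, pa7⟩, ⟨nb7, pb7⟩, ⟨nc7, pc7⟩⟩ := t7
  have hr : 0 < r := by linarith
  obtain ⟨f0, g0⟩ := pet_five hM e5 e7 (-e4) e6 (-e3) b5 b7 b4 b6 b3 (-nb5 + -nb7 + nb4 + -nb6 +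
    nb3) s5 s7 (by omega) s6 (by omega) (by linarith) (by linarith) (by linarith) (by linarith) (by
    linarith) hb5 hb7 hb4 hb6 hb3 (by push_cast; linarith)
  obtain ⟨f1, g1⟩ := pet_five hM e1 e2 e7 e5 (-e0) a1 b2 a7 c5 b0 (-na1 + -nb2 + -na7 + -nc5 + nb0)
    s1 s2 s7 s5 (by omega) (by linarith) (by linarith) (by linarith) (by linarith) (by linarith) ha1
    hb2 ha7 hc5 hb0 (by push_cast; linarith)
  obtain ⟨f2, g2⟩ := pet_five hM (-e1) (-e6) (-e3) (-e5) (-e0) c1 c6 b3 a5 b0 (nc1 + nc6 + nb3 + na5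
    + nb0) (by omega) (by omega) (by omega) (by omega) (by omega) (by linarith) (by linarith) (by
    linarith) (by linarith) (by linarith) hc1 hc6 hb3 ha5 hb0 (by push_cast; linarith)
  obtain ⟨f3, g3⟩ := pet_five hM e2 (-e7) (-e4) (-e6) (-e1) b2 c7 b4 a6 b1 (-nb2 + nc7 + nb4 + na6 +
    nb1) s2 (by omega) (by omega) (by omega) (by omega) (by linarith) (by linarith) (by linarith)
    (by linarith) (by linarith) hb2 hc7 hb4 ha6 hb1 (by push_cast; linarith)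
  have d1 := cd_le_of (x := w 0) (y := w 1) (u := -e2 * c2 + e7 * a7 - e5 * b5 - e3 * a3) hr
    ⟨-nc2 + na7 + -nb5 + -na3, by push_cast; linarith⟩
  have d2 := cd_le_of (x := w 2) (y := w 3) (u := e0 * a0 - e1 * c1 + e6 * a6 - e4 * a4) hr
    ⟨na0 + -nc1 + na6 + -na4, by push_cast; linarith⟩
  rw [cd_symm hr (w 3)]
  suffices h : |-e2 * c2 + e7 * a7 - e5 * b5 - e3 * a3| ≤ 2 * (3 * M - r) ∧
      |e0 * a0 - e1 * c1 + e6 * a6 - e4 * a4| ≤ 2 * (3 * M - r) ∧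
      |-e2 * c2 + e7 * a7 - e5 * b5 - e3 * a3| +
        |e0 * a0 - e1 * c1 + e6 * a6 - e4 * a4| ≤ 3 * (3 * M - r) from
    ⟨d1.trans h.1, d2.trans h.2.1, (add_le_add d1 d2).trans h.2.2⟩
  clear d1 d2 pa0 pb0 pc0 pa1 pb1 pc1 pa2 pb2 pc2 pa3 pb3 pc3 pa4 pb4 pc4 pa5 pb5 pc5 pa6 pb6 pc6
    pa7 pb7 pc7
  rcases pet_signs e0 e1 e2 e3 e4 e5 e6 e7 s0 s1 s2 s3 s4 s5 s6 s7 f0 f1 f2 f3 with h | h | h | h |
    h | h <;>
    obtain ⟨rfl, rfl, rfl, rfl, rfl, rfl, rfl, rfl⟩ := h <;> push_cast at g0 g1 g2 g3 ⊢ <;>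
    refine ⟨abs_le.2 ⟨by linarith, by linarith⟩, abs_le.2 ⟨by linarith, by linarith⟩,
      abs_add_abs_le (by linarith) (by linarith) (by linarith) (by linarith)⟩

/-- The face of the Petersen pole is attained. -/
lemma pet_upper {r M u : ℝ} (h1 : 3 * M - r ≤ u) (h2 : u ≤ 2 * (3 * M - r))
    (c : ℝ) : ∃ w : Fin 14 → ℝ, w 1 = w 0 + u ∧ w 3 = c + (3 * (3 * M - r) - u) ∧ w 2 = c ∧
      TG r M (w 2) (w 4) (w 6) ∧ TG r M (w 4) (w 5) (w 7) ∧ TG r M (w 0) (w 5) (w 8) ∧ TG r M (w 1)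
      (w 9) (w 10) ∧ TG r M (w 3) (w 11) (w 12) ∧ TG r M (w 6) (w 9) (w 13) ∧ TG r M (w 7) (w 11) (w
      10) ∧ TG r M (w 8) (w 13) (w 12) := by
  refine ⟨![c - 2 * r + 6 * M - u, c - 2 * r + 6 * M, c, c - 3 * r + 9 * M - u, c + M, c + 2 * M, c
    + 2 * M, c - r + 3 * M, c - 2 * r + 7 * M - u, c - r + 4 * M, c - r + 5 * M, c - r + 4 * M, c -
    2 * r + 8 * M - u, c - r + 3 * M], ?_, ?_, rfl, ?_, ?_, ?_, ?_, ?_, ?_, ?_, ?_⟩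
  · change c - 2 * r + 6 * M = c - 2 * r + 6 * M - u + u
    ring
  · change c - 3 * r + 9 * M - u = _
    ring
  · change TG r M (c) (c + M) (c + 2 * M)
    refine TG.intro 1 0 0 1 (by decide) (by decide) ?_ ?_ ?_ <;> push_cast <;> linarith
  · change TG r M (c + M) (c + 2 * M) (c - r + 3 * M)
    refine TG.intro 1 0 1 0 (by decide) (by decide) ?_ ?_ ?_ <;> push_cast <;> linarith
  · change TG r M (c - 2 * r + 6 * M - u) (c + 2 * M) (c - 2 * r + 7 * M - u)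
    refine TG.intro (-1) 1 0 0 (by decide) (by decide) ?_ ?_ ?_ <;> push_cast <;> linarith
  · change TG r M (c - 2 * r + 6 * M) (c - r + 4 * M) (c - r + 5 * M)
    refine TG.intro 1 0 0 1 (by decide) (by decide) ?_ ?_ ?_ <;> push_cast <;> linarith
  · change TG r M (c - 3 * r + 9 * M - u) (c - r + 4 * M) (c - 2 * r + 8 * M - u)
    refine TG.intro 1 0 0 1 (by decide) (by decide) ?_ ?_ ?_ <;> push_cast <;> linarith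
  · change TG r M (c + 2 * M) (c - r + 4 * M) (c - r + 3 * M)
    refine TG.intro (-1) 0 0 1 (by decide) (by decide) ?_ ?_ ?_ <;> push_cast <;> linarith
  · change TG r M (c - r + 3 * M) (c - r + 4 * M) (c - r + 5 * M)
    refine TG.intro 1 0 0 1 (by decide) (by decide) ?_ ?_ ?_ <;> push_cast <;> linarith
  · change TG r M (c - 2 * r + 7 * M - u) (c - r + 3 * M) (c - 2 * r + 8 * M - u)
    refine TG.intro (-1) 0 1 0 (by decide) (by decide) ?_ ?_ ?_ <;> push_cast <;> linarith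

/-- The edges at the eight vertices of the Petersen pole, and at its four ports. -/
def edgI : (Fin 8 × Fin 3) ⊕ Fin 4 → Fin 14
  | inl p => ![![2, 4, 6], ![4, 5, 7], ![0, 5, 8], ![1, 9, 10], ![3, 11, 12], ![6, 9, 13],
      ![7, 11, 10], ![8, 13, 12]] p.1 p.2
  | inr j => ![0, 1, 3, 2] j

/-- One end of each edge of the Petersen pole. -/
def repI : Fin 14 → (Fin 8 × Fin 3) ⊕ Fin 4 :=
  ![inr 0, inr 1, inr 3, inr 2, inl (0, 1), inl (1, 1), inl (0, 2), inl (1, 2), inl (2, 2),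
    inl (3, 1), inl (3, 2), inl (4, 1), inl (4, 2), inl (5, 2)]

/-- The wires of the Petersen pole. -/
def wI : (Fin 8 × Fin 3) ⊕ Fin 4 → (Fin 8 × Fin 3) ⊕ Fin 4
  | inl p => ![![inr 3, inl (1, 0), inl (5, 0)], ![inl (0, 1), inl (2, 1), inl (6, 0)],
      ![inr 0, inl (1, 1), inl (7, 0)], ![inr 1, inl (5, 1), inl (6, 2)],
      ![inr 2, inl (6, 1), inl (7, 2)], ![inl (0, 2), inl (3, 1), inl (7, 1)],
      ![inl (1, 2), inl (4, 1), inl (3, 2)], ![inl (2, 2), inl (5, 2), inl (4, 2)]] p.1 p.2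
  | inr j => ![inl (2, 0), inl (3, 0), inl (4, 0), inl (0, 0)] j

variable {k : ℕ} {ok : ℝ → Prop}

/-- The Petersen pole: the Petersen graph minus two adjacent vertices, with a rigid block at each
vertex. -/
theorem realI {M : ℝ → ℝ} (hT : Real' k ok (Fin 3) true (fun r x => TG r (M r) (x 0) (x 1) (x 2)))
    (hM : ∀ r, ok r → 8 * M r < 3 * r) : ∃ R, Real' k ok (Fin 4) true R ∧
      (∀ r x, ok r → R r x → cd r (x 0) (x 1) ≤ 2 * (3 * M r - r) ∧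
        cd r (x 2) (x 3) ≤ 2 * (3 * M r - r) ∧
        cd r (x 0) (x 1) + cd r (x 2) (x 3) ≤ 3 * (3 * M r - r)) ∧
      ∀ r u c, 3 * M r - r ≤ u → u ≤ 2 * (3 * M r - r) →
        ∃ a, R r ![a, a + u, c + (3 * (3 * M r - r) - u), c] := by
  refine ⟨_, netU hT wI (by decide) (by decide) (by decide) edgI repI (by decide) (by decide)
    (by decide), ?_, ?_⟩
  · rintro r x hr ⟨w, h1, h2⟩
    rw [← h1, ← h1, ← h1, ← h1]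
    exact pet_lower (hM r hr) w (h2 0) (h2 1) (h2 2) (h2 3) (h2 4) (h2 5) (h2 6) (h2 7)
  · intro r u c h1 h2
    obtain ⟨w, a1, a2, a3, t0, t1, t2, t3, t4, t5, t6, t7⟩ := pet_upper h1 h2 c
    refine ⟨w 0, w, fun p => ?_, fun l => ?_⟩
    · fin_cases p
      exacts [rfl, a1, a2, a3]
    · fin_cases l
      exacts [t0, t1, t2, t3, t4, t5, t6, t7]

end Pool.Agent.P.MP_3f5ded_co.UG
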