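import Pool.Agent.P.MP_3f5ded_co.UGBlocks
import Pool.Agent.P.MP_3f5ded_co.UGClose
import Pool.Agent.P.MP_3f5ded_co.UGPet
import Pool.Agent.P.MP_3f5ded_co.UGChain

set_option autoImplicit false

namespace Pool.Agent.P.MP_3f5ded_co.UG

open Sum

/-- The edges of two blocks joined by one wire. -/
def edgH : (Fin 2 × Fin 3) ⊕ Fin 4 → Fin 5
  | inl p => ![![0, 1, 4], ![2, 3, 4]] p.1 p.2
  | inr j => ![0, 1, 2, 3] j

/-- The wires of two blocks joined by one wire. -/
def wH : (Fin 2 × Fin 3) ⊕ Fin 4 → (Fin 2 × Fin 3) ⊕ Fin 4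
  | inl p => ![![inr 0, inr 1, inl (1, 2)], ![inr 2, inr 3, inl (0, 2)]] p.1 p.2
  | inr j => ![inl (0, 0), inl (0, 1), inl (1, 0), inl (1, 1)] j

lemma TG.far {r M p q z : ℝ} (hM : 8 * M < 3 * r) (h : TG r M p q z) : r - 2 * M ≤ cd r p q := by
  obtain ⟨e, a, b, c, rfl | rfl, h0, h1, h2, h3, h4, -, -⟩ := h
  · exact le_cd_of (u := a) (by linarith) (by simpa using h4) (by linarith) (by linarith)
  · exact le_cd_of (u := r - a) (by linarith) (h4.trans (Cg.down (by push_cast; ring)))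
      (by linarith) (by linarith)

/-- One block with its third port capped. -/
theorem realF {k : ℕ} {ok : ℝ → Prop} {M : ℝ → ℝ}
    (hT : Real' k ok (Fin 3) true (fun r x => TG r (M r) (x 0) (x 1) (x 2)))
    (hM : ∀ r, ok r → 8 * M r < 3 * r) {r0 : ℝ} (h0 : r0 ≤ 3 * M r0)
    {F : ℝ → (Fin 2 → ℝ) → Prop} (hF : Real' k ok (Fin 2) true F) (hF' : ∀ x, F r0 x) :
    ∃ R, Real' k ok (Fin 2) true R ∧ (∀ r x, ok r → R r x → r - 2 * M r ≤ cd r (x 0) (x 1)) ∧
      ∀ a, R r0 ![a, a + (r0 - 2 * M r0)] := by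
  refine ⟨_, hF.cap (netU hT wH (by decide) (by decide) (by decide) edgH
    ![inr 0, inr 1, inr 2, inr 3, inl (0, 2)] (by decide) (by decide) (by decide)), ?_, ?_⟩
  · rintro r x hr ⟨a, b, -, w, h1, h2⟩
    have e0 : w 2 = x 0 := h1 2
    have e1 : w 3 = x 1 := h1 3
    rw [← e0, ← e1]
    exact TG.far (hM r hr) (h2 1)
  · intro a
    have t : TG r0 (M r0) a (a + (r0 - 2 * M r0)) (a + (r0 - M r0)) := by
      refine TG.intro 1 0 0 1 (by decide) (by decide) ?_ ?_ ?_ <;> push_cast <;> linarith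
    refine ⟨a, a + (r0 - 2 * M r0), hF' _,
      ![a, a + (r0 - 2 * M r0), a, a + (r0 - 2 * M r0), a + (r0 - M r0)], fun p => ?_, fun l => ?_⟩
    · fin_cases p <;> rfl
    · fin_cases l <;> exact t

lemma exists_ratio {α β : ℚ} (h1 : 0 < α) (h2 : 0 < β) :
    ∃ L N : ℕ, 0 < L ∧ 0 < N ∧ (L : ℝ) * α = N * β := by
  have h3 : 0 < (α / β).num := Rat.num_pos.2 (div_pos h1 h2)
  obtain ⟨N, hN⟩ := Int.eq_ofNat_of_zero_le h3.le
  refine ⟨(α / β).den, N, (α / β).den_pos, by omega, ?_⟩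
  have h4 := Rat.mul_den_eq_num (α / β)
  rw [hN, Int.cast_natCast, div_mul_eq_mul_div, div_eq_iff h2.ne', mul_comm] at h4
  exact_mod_cast h4

lemma realTG : Real' 7 ok7 (Fin 3) true (fun r x => TG r (r - 5) (x 0) (x 1) (x 2)) :=
  realT.congr fun _ _ _ => tau_iff

/-- A closed pole that is colourable at `x` and not below. -/
theorem closed_open (x : ℚ) (h1 : 15 / 2 < x) (h2 : x < 8) :
    ∃ R, Real' 7 ok7 (Fin 0) true R ∧ (∀ y, R x y) ∧ ∀ r y, ok7 r → r < x → ¬ R r y := by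
  have h1' : (15 / 2 : ℝ) < x := by simpa using (Rat.cast_lt (K := ℝ)).2 h1
  have h2' : (x : ℝ) < 8 := by exact_mod_cast h2
  have hok : ok7 x := ⟨h1'.le, h2'⟩
  have hpos : ∀ r, ok7 r → 0 < r := fun r hr => by linarith [hr.1]
  have hM : ∀ r, ok7 r → 8 * (r - 5) < 3 * r := fun r hr => by linarith [hr.2]
  obtain ⟨RI, hI, I1, I2⟩ := realI (M := fun r => r - 5) realTG hM
  have e : ∀ r : ℝ, 3 * (r - 5) - r = 2 * r - 15 := fun r => by ring
  simp only [e] at I1 I2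
  have hs : (0 : ℝ) < 2 * x - 15 := by linarith
  rcases le_or_gt (39 / 5) x with h3 | h3
  · have h3' : (39 / 5 : ℝ) ≤ x := by simpa using (Rat.cast_le (K := ℝ)).2 h3
    obtain ⟨RD, hD, D1, D2⟩ := realD
    obtain ⟨L, N, hL, hN, hq⟩ := exists_ratio (α := 80 - 10 * x) (β := 2 * x - 15)
      (by linarith) (by linarith)
    refine exists_closed (s := fun r => 2 * r - 15) (φ := fun r => 35 - 4 * r) realE hD hI hpos hok
      hs (fun _ _ _ h => h) (fun _ h => h) D1 (fun a => D2 _ _ hok h3' ?_) I1 (I2 x) L N hL hN ?_ ?_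
    · change cd x a (a + (35 - 4 * x)) = _
      rw [cd_min (hpos _ hok) (Cg.refl _ _) (by linarith) (by linarith), min_eq_left (by linarith)]
    · push_cast at hq
      linarith
    · intro r _ hr
      constructor <;> linarith
  · have h3' : (x : ℝ) < 39 / 5 := by simpa using (Rat.cast_lt (K := ℝ)).2 h3
    obtain ⟨F, hF, hF'⟩ := exists_free realE hok (hpos _ hok) hs (fun _ h => h)
    obtain ⟨RD, hD, D1, D2⟩ := realF (M := fun r => r - 5) realTG hM (by linarith) hF hF'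
    obtain ⟨L, N, hL, hN, hq⟩ := exists_ratio (α := 55 - 7 * x) (β := 2 * x - 15)
      (by linarith) (by linarith)
    refine exists_closed (s := fun r => 2 * r - 15) (φ := fun r => r - 2 * (r - 5)) realE hD hI hpos
      hok hs (fun _ _ _ h => h) (fun _ h => h) D1 D2 I1 (I2 x) L N hL hN ?_ ?_
    · push_cast at hq
      linarith
    · intro r _ hr
      constructor <;> linarith

lemma tau_of_rel' {r : ℝ} (hr : 1 ≤ r) (hr' : r < 8) {x : Fin 3 → ℝ} (h : poleT.Rel r x) :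
    Tau r (x 0) (x 1) (x 2) := by
  obtain ⟨c, hx, hc, hf⟩ := h
  have key : ∀ k v, inc k v → Cg r (c (inl (v, sl k v))) (c (inl (eu k, su k))) := by
    intro k v hk
    unfold sl
    split_ifs with h1
    · rw [h1]
      exact Cg.refl _ _
    · have h2 := hc (inl (eu k, su k))
      have h3 : poleT.rv (inl (eu k, su k)) = inl (v, sv k) := by
        rw [← hk.resolve_left h1]
        exact rv_edge k
      rw [h3] at h2
      exact h2.symm
  obtain ⟨m, hm⟩ := exists_mod (r := r) hr (fun k => c (inl (eu k, su k)))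
    fun k k' v hk h1 h2 => (hf v _ _ (sl_ne k k' v hk h1 h2)).congr (key k v h1) (key k' v h2)
  refine m.rigid hr' x fun j v hj => ?_
  have h3 := hc (inr v)
  rw [hx] at h3
  exact (hf (md v) _ 0 (sl_zero _ v hj)).congr ((key _ _ hj).trans (hm j).symm) h3.symm

lemma Tau.ge {r p q z : ℝ} (h : Tau r p q z) : 15 / 2 ≤ r := by
  rcases h with ⟨a, b, -, -, h1, h2, h3⟩ | ⟨a, b, -, -, h1, h2, h3⟩ <;> linarith

/-- The block `T` for all circle lengths below eight. -/
theorem realT' : Real' 7 (fun r => 1 ≤ r ∧ r < 8) (Fin 3) true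
    (fun r x => Tau r (x 0) (x 1) (x 2)) := by
  refine ⟨poleT, fun _ => poleT_inj, fun r hr x => ⟨tau_of_rel' hr.1 hr.2, fun h => ?_⟩⟩
  have hk : ok7 r := ⟨h.ge, hr.2⟩
  rcases h with h | h
  · exact rel_of_tau0 hk h
  · exact rel_neg (rel_of_tau0 hk h.neg)

/-- The wires of two blocks joined by three wires. -/
def wTh : (Fin 2 × Fin 3) ⊕ Fin 0 → (Fin 2 × Fin 3) ⊕ Fin 0
  | inl p => inl (![1, 0] p.1, p.2)
  | inr j => inr j

/-- Every rational in `[15 / 2, 8)` is the least circle length of some `7`-regular graph. -/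
theorem main (x : ℚ) (h1 : 15 / 2 ≤ x) (h2 : x < 8) :
    ∃ (n : ℕ) (G : SimpleGraph (Fin n)) (_ : DecidableRel G.Adj), G.IsRegularOfDegree 7 ∧
      IsLeast {r : ℝ | 1 ≤ r ∧ Col G r} (x : ℝ) := by
  rcases h1.eq_or_lt with rfl | h1
  · obtain ⟨n, G, dec, hreg, hG⟩ := (glueU (Λ := Fin 2) _ (fun _ => realT') wTh (by decide)
      (by decide) (by decide)).close
    have e : (((15 / 2 : ℚ)) : ℝ) = 15 / 2 := by norm_num
    rw [e]
    refine ⟨n, G, dec, hreg, ⟨by norm_num, ?_⟩, ?_⟩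
    · refine (hG _ ⟨by norm_num, by norm_num⟩ (by norm_num) ![]).2
        ⟨Sum.elim (fun p => ![0, 5 / 2, 5] p.2) ![], fun _ => rfl, ?_, fun l => ?_⟩
      · rintro (p | p) <;> exact Cg.refl _ _
      · exact Or.inl ⟨5 / 2, 5, Cg.refl _ _, Cg.refl _ _, by norm_num, by norm_num, by norm_num⟩
    · rintro r ⟨a1, a2⟩
      by_contra hlt
      obtain ⟨c, -, -, h3⟩ := (hG r ⟨a1, by linarith [not_le.1 hlt]⟩ (by linarith) ![]).1 a2
      exact hlt (h3 0).ge
  · obtain ⟨R, hR, a1, a2⟩ := closed_open x h1 h2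
    obtain ⟨n, G, dec, hreg, hG⟩ := hR.close
    have h1' : (15 / 2 : ℝ) < x := by simpa using (Rat.cast_lt (K := ℝ)).2 h1
    have h2' : (x : ℝ) < 8 := by exact_mod_cast h2
    refine ⟨n, G, dec, hreg, ⟨by linarith, (hG _ ⟨h1'.le, h2'⟩ (by linarith) ![]).2 (a1 _)⟩, ?_⟩
    rintro r ⟨-, b2⟩
    by_contra hlt
    have hlt' : r < x := not_le.1 hlt
    have b3 : max r (15 / 2) < x := max_lt hlt' h1'
    have b4 : ok7 (max r (15 / 2)) := ⟨le_max_right _ _, by linarith⟩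
    exact a2 _ ![] b4 b3 ((hG _ b4 (by linarith [b4.1]) ![]).1 (b2.mono (le_max_left _ _)))

end Pool.Agent.P.MP_3f5ded_co.UG
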