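import Pool.Agent.P.MP_3f5ded_co.UEDefs
import Pool.Agent.P.MP_3f5ded_co.UGMain

set_option autoImplicit false

namespace Pool.Agent.P.MP_3f5ded_co.UG

open Sum

/-- The wire ends of a cell. -/
abbrev uecC : Type := ((Unit × (Bool × Bool)) ⊕ (Fin 2 × Fin 2)) ⊕ Fin 2

/-- The wires of a cell. -/
def uecT : uecC → uecC
  | inl (inl (_, (false, false))) => inl (inr (0, 0))
  | inl (inl (_, (false, true))) => inl (inr (0, 1))
  | inl (inl (_, (true, false))) => inl (inr (1, 0))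
  | inl (inl (_, (true, true))) => inr 0
  | inl (inr (l, j)) => ![![inl (inl ((), (false, false))), inl (inl ((), (false, true)))],
      ![inl (inl ((), (true, false))), inr 1]] l j
  | inr j => ![inl (inl ((), (true, true))), inl (inr (1, 1))] j

/-- The edges of a cell. -/
def uecE : uecC → Fin 5
  | inl (inl (_, (false, false))) => 0
  | inl (inl (_, (false, true))) => 1
  | inl (inl (_, (true, false))) => 2
  | inl (inl (_, (true, true))) => 3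
  | inl (inr (l, j)) => ![![0, 1], ![2, 4]] l j
  | inr j => ![3, 4] j

set_option synthInstance.maxSize 1000 in
/-- A cell: `S` on one side of the coupler, `G` on one port of the other side. -/
lemma uec_cell {k : ℕ} {L : Pole k (Bool × Bool)} (hL : L.Tag fun p q => p.1 = q.1)
    {S G : Pole k (Fin 2)} (hS : S.Inj) (hG : G.Inj) :
    ∃ B : Pole k (Fin 2), B.Inj ∧ ∀ (r : ℝ) x, B.Rel r x ↔ ∃ a b y, S.Rel r ![a, b] ∧
      L.Rel r (q4 a b y (x 0)) ∧ G.Rel r ![y, x 1] := by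
  obtain ⟨B, hB1, hB⟩ := net2 (fun _ : Unit => L) (![S, G] : Fin 2 → Pole k (Fin 2))
    (E1 := fun p q => p.1 = q.1) (E2 := Eq) (fun _ => hL)
    (fun l => by
      fin_cases l
      exacts [hS.tag, hG.tag]) uecT (by decide) (by decide) (by decide)
    (by decide) Eq (by decide) uecE ![inl (inr (0, 0)), inl (inr (0, 1)), inl (inr (1, 0)),
      inr 0, inr 1] (by decide) (by decide) (by decide)
  have e1 : ∀ (w : Fin 5 → ℝ) (l : Unit), (fun p => w (uecE (inl (inl (l, p))))) =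
      q4 (w 0) (w 1) (w 2) (w 3) := fun w l => by
    funext p
    rcases p with ⟨_ | _, _ | _⟩ <;> rfl
  have e2 : ∀ (w : Fin 5 → ℝ) (l : Fin 2), (fun p => w (uecE (inl (inr (l, p))))) =
      ![![w 0, w 1], ![w 2, w 4]] l := fun w l => by
    funext p
    fin_cases l <;> fin_cases p <;> rfl
  refine ⟨B, hB1.inj, fun r x => (hB r x).trans ?_⟩
  simp only [e1, e2]
  constructor
  · rintro ⟨w, w1, w2, w3⟩
    have h0 : w 3 = x 0 := w1 0
    have h1 : w 4 = x 1 := w1 1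
    rw [h0] at w2
    rw [h1] at w3
    exact ⟨_, _, _, w3 0, w2 (), w3 1⟩
  · rintro ⟨a, b, y, h1, h2, h3⟩
    refine ⟨![a, b, y, x 0, x 1], fun p => ?_, fun _ => h2, fun l => ?_⟩
    · fin_cases p <;> rfl
    · fin_cases l
      exacts [h1, h3]

/-- A pair of ports with lifts `p < p'`, in either order. -/
lemma uec_pair {r p p' : ℝ} {x : Bool → ℝ} {i : Bool} (h1 : Cg r (x i) p) (h2 : Cg r (x !i) p')
    (h3 : p + 1 ≤ p') (h4 : p' - p ≤ r - 1) :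
    1 ≤ cd r (x false) (x true) ∧ cd r (x false) (x true) ≤ p' - p := by
  have hr : 0 < r := by linarith
  have e : Cg r p' (p + (p' - p)) := Cg.of_eq (by ring)
  have g1 : 1 ≤ cd r p p' := le_cd_of hr e (by linarith) h4
  have g2 : cd r p p' ≤ p' - p := (cd_le_of hr e).trans (abs_of_nonneg (by linarith)).le
  cases i
  · rw [cd_congr hr h1 (show Cg r (x true) p' from h2)]
    exact ⟨g1, g2⟩
  · rw [cd_symm hr, cd_congr hr h1 (show Cg r (x false) p' from h2)]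
    exact ⟨g1, g2⟩

/-- What the coupler says about its two pairs of ports. -/
lemma uec_lr {k m : ℕ} (hk : 6 ≤ k) {r a b c d : ℝ} (h1 : (m + 1) * (r - k) < 1)
    (h : LR r (r - k) (1 - (m + 1) * (r - k)) (q4 a b c d)) :
    1 ≤ cd r a b ∧ 1 ≤ cd r c d ∧ cd r a b + cd r c d ≤ 2 + ((m + 2) * (r - k) - 1) := by
  have hk' : (6 : ℝ) ≤ k := by exact_mod_cast hk
  obtain ⟨β, i, j, p, p', q, q', c1, c2, c3, c4, d1, d2, d3, d4⟩ := h
  have hm : (0 : ℝ) ≤ m := Nat.cast_nonneg m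
  have hs : 0 < r - k := by
    by_contra hc
    have := mul_nonneg hm (neg_nonneg.2 (not_lt.1 hc))
    linarith [not_lt.1 hc]
  have g1 := uec_pair (x := fun t => q4 a b c d (β, t)) c1 c2 d1 (by linarith)
  have g2 := uec_pair (x := fun t => q4 a b c d (!β, t)) c3 c4 d2 (by linarith)
  cases β
  · have g3 : 1 ≤ cd r a b ∧ cd r a b ≤ p' - p := g1
    have g4 : 1 ≤ cd r c d ∧ cd r c d ≤ q' - q := g2
    exact ⟨g3.1, g4.1, by linarith [g3.2, g4.2]⟩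
  · have g3 : 1 ≤ cd r c d ∧ cd r c d ≤ p' - p := g1
    have g4 : 1 ≤ cd r a b ∧ cd r a b ≤ q' - q := g2
    exact ⟨g4.1, g3.1, by linarith [g3.2, g4.2]⟩

/-- The far filter followed by `j` short wires. -/
lemma uec_filt {k m : ℕ} {W K : Pole k (Fin 2)} (hW : IsW k m W) (hK : IsK k m K) (j : ℕ) :
    ∃ G : Pole k (Fin 2), G.Inj ∧ (∀ (r : ℝ) x, 1 ≤ r → (m + 1) * (r - k) < 1 → G.Rel r x →
      3 - (r - k) - j * ((m + 2) * (r - k) - 1) ≤ cd r (x 0) (x 1)) ∧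
      ∀ r a : ℝ, (m + 1) * (r - k) < 1 → 1 ≤ (m + 2) * (r - k) →
        G.Rel r ![a, a + (3 - (r - k) - j * ((m + 2) * (r - k) - 1))] := by
  induction j with
  | zero =>
    exact ⟨K, hK.1, fun r x h1 h2 h => by simpa using hK.2.1 r x h1 h2 h,
      fun r a h1 h2 => by simpa using hK.2.2 r a h1 h2⟩
  | succ j ih =>
    obtain ⟨G, g1, g2, g3⟩ := ih
    obtain ⟨A, a1, a2⟩ := ((g1.real fun _ => True).ser (hW.1.real fun _ => True)).pole
    refine ⟨A, a1, fun r x h1 h2 h => ?_, fun r a h1 h2 => (a2 r _).2 ⟨_, g3 r a h1 h2, ?_⟩⟩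
    · obtain ⟨y, y1, y2⟩ := (a2 r x).1 h
      have hr : 0 < r := by linarith
      have b1 : _ ≤ cd r (x 0) y := g2 r _ h1 h2 y1
      have b2 : cd r y (x 1) ≤ _ := hW.2.1 r _ h1 h2 y2
      have b3 := cd_tri hr (x 0) (x 1) y
      rw [cd_symm hr (x 1) y] at b3
      push_cast
      linarith
    · have := hW.2.2 r (a + (3 - (r - k) - j * ((m + 2) * (r - k) - 1))) h1 h2
      have e : a + (3 - (r - k) - j * ((m + 2) * (r - k) - 1)) - ((m + 2) * (r - k) - 1) =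
          a + (3 - (r - k) - ((j + 1 : ℕ) : ℝ) * ((m + 2) * (r - k) - 1)) := by
        push_cast
        ring
      rw [e] at this
      exact this

/-- The invariant of the chain. -/
def UecI (k m : ℕ) (r0 : ℝ) (u : ℝ → ℝ) (S : Pole k (Fin 2)) : Prop :=
  S.Inj ∧ (∀ (r : ℝ) x, 1 ≤ r → (m + 1) * (r - k) < 1 → S.Rel r x → 1 ≤ cd r (x 0) (x 1) →
    u r ≤ cd r (x 0) (x 1)) ∧ ∀ a, S.Rel r0 ![a, a + u r0]

/-- The extremal point of the coupler. -/
lemma uec_ld {k m : ℕ} {r u a : ℝ} (h1 : 1 ≤ u) (h2 : u ≤ 1 + ((m + 2) * (r - k) - 1)) :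
    LD (r - k) (1 - (m + 1) * (r - k)) a (a + u) (a + u + 1 - (r - k))
      (a + 3 - (1 - (m + 1) * (r - k))) := by
  refine ⟨?_, ?_, ?_, ?_⟩ <;> linarith

/-- One more cell. -/
lemma uec_step {k m : ℕ} (hk : 6 ≤ k) {L : Pole k (Bool × Bool)} (hL : IsL k m L)
    {W K : Pole k (Fin 2)} (hW : IsW k m W) (hK : IsK k m K) {r0 : ℝ}
    (h1 : (m + 1) * (r0 - k) < 1) (h2 : 1 ≤ (m + 2) * (r0 - k)) {u u' : ℝ → ℝ}
    {S : Pole k (Fin 2)} (hS : UecI k m r0 u S) (u1 : 1 ≤ u r0)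
    (u2 : u r0 ≤ 1 + ((m + 2) * (r0 - k) - 1)) (j : ℕ)
    (hu : ∀ r, u' r = u r + (1 - (r - k) - ((m + 2) * (r - k) - 1)) -
      j * ((m + 2) * (r - k) - 1)) : ∃ S', UecI k m r0 u' S' := by
  obtain ⟨G, g1, g2, g3⟩ := uec_filt hW hK j
  obtain ⟨B, b1, hB⟩ := uec_cell hL.1 hS.1 g1
  refine ⟨B, b1, fun r x r1 r2 h _ => ?_, fun a => (hB _ _).2 ?_⟩
  · obtain ⟨a, b, y, c1, c2, c3⟩ := (hB r x).1 h
    have hr : 0 < r := by linarith
    obtain ⟨d1, d2, d3⟩ := uec_lr hk r2 (hL.2.1 r _ r1 r2 c2)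
    have d4 : u r ≤ cd r a b := hS.2.1 r _ r1 r2 c1 d1
    have d5 : _ ≤ cd r y (x 1) := g2 r _ r1 r2 c3
    have d6 := cd_tri hr y (x 0) (x 1)
    rw [hu]
    linarith
  · obtain ⟨p, hp⟩ : ∃ p, a = p + 3 - (1 - (m + 1) * (r0 - k)) :=
      ⟨a - 3 + (1 - (m + 1) * (r0 - k)), by ring⟩
    refine ⟨p, p + u r0, p + u r0 + 1 - (r0 - k), hS.2.2 p, ?_, ?_⟩
    · have := hL.2.2 r0 _ _ _ _ h1 (uec_ld (a := p) u1 u2)
      rw [← hp] at this
      exact this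
    · have := g3 r0 (p + u r0 + 1 - (r0 - k)) h1 h2
      have e : p + u r0 + 1 - (r0 - k) + (3 - (r0 - k) - j * ((m + 2) * (r0 - k) - 1)) =
          a + u' r0 := by
        rw [hu, hp]
        ring
      rw [e] at this
      exact this

/-- Closing the chain. -/
lemma uec_close {k m : ℕ} (hk : 6 ≤ k) {L : Pole k (Bool × Bool)} (hL : IsL k m L)
    {C : Pole k (Fin 2)} (hC : C.Inj) {r0 : ℝ} (h1 : (m + 1) * (r0 - k) < 1)
    (c3 : ∀ a b : ℝ, |b - a| ≤ 2 → C.Rel r0 ![a, b]) (hs : r0 - k ≤ 1) {u : ℝ → ℝ}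
    {S : Pole k (Fin 2)} (hS : UecI k m r0 u S) (u1 : 1 ≤ u r0)
    (u2 : u r0 ≤ 1 + ((m + 2) * (r0 - k) - 1))
    (u3 : ∀ r, r < r0 → 1 + ((m + 2) * (r - k) - 1) < u r) :
    ∃ A : Pole k (Fin 0), (∀ y, A.Rel r0 y) ∧ ∀ (r : ℝ) y, 1 ≤ r → r < r0 → ¬ A.Rel r y := by
  obtain ⟨A, hA⟩ := ulf_cap L hC
  obtain ⟨B, hB⟩ := ulf_clo A hS.1
  refine ⟨B, fun x => (hB _ x).2 ⟨![0, 0 + u r0], (hA _ _ _).2
    ⟨_, _, hL.2.2 r0 _ _ _ _ h1 (uec_ld (a := 0) u1 u2), c3 _ _ ?_⟩, hS.2.2 0⟩,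
    fun r x r1 r2 h => ?_⟩
  · rw [abs_le]
    constructor <;> linarith
  · obtain ⟨y, y1, y2⟩ := (hB r x).1 h
    have e : y = ![y 0, y 1] := by
      funext p
      fin_cases p <;> rfl
    have r3 : (m + 1) * (r - k) < 1 :=
      (mul_le_mul_of_nonneg_left (by linarith) (by positivity)).trans_lt h1
    rw [e] at y1
    obtain ⟨c, d, g1, -⟩ := (hA r _ _).1 y1
    obtain ⟨d1, d2, d3⟩ := uec_lr hk r3 (hL.2.1 r _ r1 r3 g1)
    have d4 := hS.2.1 r y r1 r3 y2 d1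
    linarith [u3 r r2]

/-- The closed chain of couplers is colourable at `x` and not below. -/
theorem exists_ring {k m : ℕ} (hk : 6 ≤ k) (hm : 1 ≤ m) {E : Pole k (Fin 2)} (hE : IsE k E)
    {L : Pole k (Bool × Bool)} (hL : IsL k m L) {W K : Pole k (Fin 2)} (hW : IsW k m W)
    (hK : IsK k m K) (x : ℚ) (h1 : (m + 1) * ((x : ℝ) - k) < 1)
    (h2 : 1 ≤ (m + 2) * ((x : ℝ) - k)) :
    ∃ A : Pole k (Fin 0), (∀ y, A.Rel x y) ∧ ∀ (r : ℝ) y, 1 ≤ r → r < x → ¬ A.Rel r y := by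
  have hk' : (6 : ℝ) ≤ k := by exact_mod_cast hk
  have hm' : (1 : ℝ) ≤ m := by exact_mod_cast hm
  have hs : 0 < (x : ℝ) - k := by
    by_contra hc
    have := mul_nonneg (by positivity : (0 : ℝ) ≤ m + 2) (neg_nonneg.2 (not_lt.1 hc))
    linarith
  have hs2 : 2 * ((x : ℝ) - k) < 1 :=
    (mul_le_mul_of_nonneg_right (by linarith) hs.le).trans_lt h1
  obtain ⟨C, c1, -, c3⟩ := ulf_chain hE (2 * m + 3)
  have c4 : ∀ a b : ℝ, |b - a| ≤ 2 → C.Rel x ![a, b] := fun a b h =>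
    c3 _ a b (by linarith) (h.trans (by push_cast; linarith))
  have hC : UecI k m x (fun _ => 1) C :=
    ⟨c1, fun _ _ _ _ _ h => h, fun a => c4 _ _ (by norm_num)⟩
  have hlt : ∀ r : ℝ, r < x → (m + 2) * (r - k) < (m + 2) * ((x : ℝ) - k) := fun r hr =>
    mul_lt_mul_of_pos_left (by linarith) (by positivity)
  rcases h2.eq_or_lt with h3 | h3
  · exact uec_close hk hL c1 h1 c4 (by linarith) hC le_rfl (by linarith)
      fun r hr => by linarith [hlt r hr]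
  obtain ⟨e0, he0⟩ : ∃ e0 : ℝ, e0 = (m + 2) * ((x : ℝ) - k) - 1 := ⟨_, rfl⟩
  have he : 0 < e0 := by linarith
  obtain ⟨T, N, hT, hN, hq⟩ := exists_ratio (α := 1 - (x - k) - ((m + 2) * (x - k) - 1))
    (β := (m + 2) * (x - k) - 1)
    (by
      have : (0 : ℝ) < 1 - (x - k) - ((m + 2) * (x - k) - 1) := by linarith
      exact_mod_cast this)
    (by
      have : (0 : ℝ) < (m + 2) * (x - k) - 1 := by linarith
      exact_mod_cast this)
  push_cast at hq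
  rw [← he0] at hq
  have hT' : (0 : ℝ) < T := by exact_mod_cast hT
  have hN' : (0 : ℝ) < N := by exact_mod_cast hN
  obtain ⟨q, hq0, hq1, hq2⟩ : ∃ q : ℝ, 0 < q ∧ T * q = N ∧ 1 - ((x : ℝ) - k) - e0 = q * e0 := by
    refine ⟨N / T, div_pos hN' hT', mul_div_cancel₀ _ hT'.ne', ?_⟩
    field_simp
    linarith
  have hS : ∀ t : ℕ, t * q - 1 ≤ ((⌈t * q⌉₊ - 1 : ℕ) : ℝ) ∧ ((⌈t * q⌉₊ - 1 : ℕ) : ℝ) ≤ t * q := by
    intro t
    have h0 : 0 ≤ t * q := by positivity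
    have h1 := Nat.le_ceil (t * q)
    have h2 := Nat.ceil_lt_add_one h0
    generalize ⌈t * q⌉₊ = n at h1 h2
    rcases n with _ | n
    · simp only [Nat.zero_sub, Nat.cast_zero] at h1 ⊢
      constructor <;> linarith
    · simp only [Nat.add_sub_cancel]
      push_cast at h1 h2
      constructor <;> linarith
  obtain ⟨u, hu⟩ : ∃ u : ℕ → ℝ → ℝ, ∀ t r, u t r = 1 + t * (1 - (r - k) - ((m + 2) * (r - k) - 1)) -
      ((⌈t * q⌉₊ - 1 : ℕ) : ℝ) * ((m + 2) * (r - k) - 1) := ⟨_, fun _ _ => rfl⟩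
  have hb : ∀ t, 1 ≤ u t x ∧ u t x ≤ 1 + ((m + 2) * ((x : ℝ) - k) - 1) := fun t => by
    obtain ⟨a1, a2⟩ := hS t
    have b1 := mul_le_mul_of_nonneg_right a1 he.le
    have b2 := mul_le_mul_of_nonneg_right a2 he.le
    rw [hu, ← he0, hq2]
    constructor <;> linarith
  have key : ∀ t, ∃ S, UecI k m x (u t) S := by
    intro t
    induction t with
    | zero =>
      have e : u 0 = fun _ => 1 := by
        funext r
        simp [hu]
      exact ⟨C, e ▸ hC⟩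
    | succ t ih =>
      obtain ⟨S, hS⟩ := ih
      obtain ⟨j, hj⟩ := Nat.exists_eq_add_of_le (show ⌈t * q⌉₊ - 1 ≤ ⌈((t + 1 : ℕ) : ℝ) * q⌉₊ - 1 from
        Nat.sub_le_sub_right (Nat.ceil_mono (by push_cast; linarith)) 1)
      refine uec_step hk hL hW hK h1 h2 hS (hb t).1 (hb t).2 j fun r => ?_
      rw [hu, hu, hj]
      push_cast
      ring
  obtain ⟨S, hS'⟩ := key T
  refine uec_close hk hL c1 h1 c4 (by linarith) hS' (hb T).1 (hb T).2 fun r hr => ?_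
  have e : ((⌈T * q⌉₊ - 1 : ℕ) : ℝ) = N - 1 := by
    rw [hq1, Nat.ceil_natCast, Nat.cast_sub hN, Nat.cast_one]
  have b1 := hlt r hr
  obtain ⟨e1, he1⟩ : ∃ e1 : ℝ, e1 = (m + 2) * (r - k) - 1 := ⟨_, rfl⟩
  have b2 : e1 < e0 := by linarith
  have b3 := mul_lt_mul_of_pos_left b2 hN'
  have b4 := mul_lt_mul_of_pos_left b2 hT'
  have b5 := mul_lt_mul_of_pos_left hr hT'
  rw [hu, e, ← he1]
  linarith

end Pool.Agent.P.MP_3f5ded_co.UG
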