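import Pool.Agent.P.MP_3f5ded_co.UELam

set_option autoImplicit false

namespace Pool.Agent.P.MP_3f5ded_co.UG

open Sum

/-- Two vertices agree about a link between them. -/
def uelC (x y : Fin 7) (a b : Fin 8) : Prop := (uelM a x = y → b = a) ∧ (uelM b y = x → a = b)

instance (x y : Fin 7) (a b : Fin 8) : Decidable (uelC x y a b) := by unfold uelC; infer_instance

lemma uel_cases : ∀ a0 a1, uelC 0 1 a0 a1 → ∀ a2, uelC 0 2 a0 a2 → uelC 1 2 a1 a2 →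
    ∀ a4, uelC 0 4 a0 a4 → uelC 2 4 a2 a4 → ∀ a3, uelC 0 3 a0 a3 → uelC 3 4 a3 a4 →
    ∀ a5, uelC 0 5 a0 a5 → uelC 1 5 a1 a5 → uelC 2 5 a2 a5 →
    ∀ a6, uelC 0 6 a0 a6 → uelC 1 6 a1 a6 → uelC 3 6 a3 a6 →
    (uelM a5 5 = 5 ↔ uelM a6 6 ≠ 6) ∧ (a0 = 3 ∨ a0 = 0 → a1 = 3 ∨ a1 = 0) := by
  decide +kernel

lemma uel_match (T : Fin 7 → Fin 8) (h : ∀ x, uelM (T x) x ≠ x → T (uelM (T x) x) = T x) :
    (uelM (T 5) 5 = 5 ↔ uelM (T 6) 6 ≠ 6) ∧ (T 0 = 3 ∨ T 0 = 0 → T 1 = 3 ∨ T 1 = 0) := by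
  have g : ∀ x y, x ≠ y → uelC x y (T x) (T y) := fun x y e =>
    ⟨fun c => by rw [← c]; exact h x (c ▸ e.symm), fun c => by rw [← c]; exact h y (c ▸ e)⟩
  refine uel_cases (T 0) (T 1) ?_ (T 2) ?_ ?_ (T 4) ?_ ?_ (T 3) ?_ ?_ (T 5) ?_ ?_ ?_ (T 6) ?_ ?_ ?_ <;>
    exact g _ _ (by decide)

/-- Frames of the coupler with equal labels along all links at the hubs. -/
lemma uel_frames {k n : ℕ} (hk : k = 2 * n + 6) {r : ℝ} (hr : 1 ≤ r) (hr' : r < k + 1 / 2)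
    {c : Fin 7 → LS n → ℝ}
    (c2 : ∀ v s, uelD (uelT s) v = true → Cg r (c v s) (c (uelM (uelT s) v) s))
    (c3 : ∀ v s, uelD (uelT s) v = false → v < uelM (uelT s) v →
      cd r (c v s) (c (uelM (uelT s) v) s) ≤ r - k)
    (c5 : ∀ v s s', s ≠ s' → Far r (c v s) (c v s')) :
    ∃ (F : Fin 7 → ℤ → ℝ) (κ : Fin 7 → LS n → ℤ),
      (∀ v, Good k r Finset.univ (c v) (F v) (κ v)) ∧ κ 0 (uelS 5) = 0 ∧
      (∀ v s, uelM (uelT s) v ≠ v → κ (uelM (uelT s) v) s = κ v s) ∧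
      ∀ v s, uelD (uelT s) v = true → F v (κ v s) = F (uelM (uelT s) v) (κ v s) := by
  have hr0 : 0 < r := by linarith
  have hk0 : 0 < k := by omega
  have hc : (Finset.univ : Finset (LS n)).card = k := by simp [hk]; ring
  have u := fun y : LS n => Finset.mem_univ y
  obtain ⟨f0, κ0, G0, z0, -⟩ := exists_good hr0 Finset.univ hc (c 0) (fun y _ z _ => c5 0 y z)
    (uelS 5) (u _) 0 le_rfl (by omega) _ (Cg.refl _ _) hr
  have he : 0 ≤ r - k := G0.fr.eps_nonneg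
  have hT : ∀ t : Fin 8, t < 6 → uelT (uelS t : LS n) = t := by
    intro t
    fin_cases t <;> first | exact fun _ => rfl | exact fun h => absurd h (by decide)
  have gen : ∀ v, ∃ f κ, Good k r Finset.univ (c v) f κ ∧ Al (r - k) f0 f ∧
      (v = 0 → κ (uelS 5) = 0) := by
    intro v
    by_cases e : v = 0
    · subst e
      exact ⟨f0, κ0, G0, Al.refl he _, fun _ => z0⟩
    obtain ⟨t, t1, t2, t3⟩ := (by decide :
      ∀ v : Fin 7, v ≠ 0 → ∃ t, t < 6 ∧ uelD t 0 = true ∧ uelM t 0 = v) v e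
    have g := c2 0 (uelS t) (by rw [hT t t1, t2])
    rw [hT t t1, t3] at g
    obtain ⟨f, κ, G, -, e'⟩ := exists_good hr0 Finset.univ hc (c v) (fun y _ z _ => c5 v y z)
      (uelS t) (u _) (κ0 (uelS t)) (G0.lo _ (u _)) (G0.hi _ (u _)) (f0 (κ0 (uelS t)))
      (g.symm.trans (G0.near _ (u _))) hr
    exact ⟨f, κ, G, G0.fr.aligned G.fr hk0 e'.symm, fun h => absurd h e⟩
  choose F κ hG hA hz using gen
  have hD : ∀ v s, uelD (uelT s) v = true → κ (uelM (uelT s) v) s = κ v s ∧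
      F v (κ v s) = F (uelM (uelT s) v) (κ v s) := by
    intro v s h
    have al := (hA v).symm.trans (hA (uelM (uelT s) v))
    have n1 := (hG v).near s (u _)
    have n2 := (c2 v s h).trans ((hG _).near s (u _))
    have nn : cd r (F v (κ v s)) (F (uelM (uelT s) v) (κ (uelM (uelT s) v) s)) ≤ 0 := by
      simpa using cd_le_of (u := 0) hr0 (by rw [add_zero]; exact n2.symm.trans n1)
    have e := near_match (hG _).fr al nn (by linarith) ((hG v).lo s (u _)) ((hG v).hi s (u _))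
      ((hG _).lo s (u _)) ((hG _).hi s (u _))
    refine ⟨e.symm, ?_⟩
    rw [← e] at n2
    have := abs_le.mp (al (κ v s))
    exact n1.uniq n2 (by linarith [this.2]) (by linarith [this.1])
  have hE : ∀ v s, uelD (uelT s) v = false → v < uelM (uelT s) v →
      κ (uelM (uelT s) v) s = κ v s := by
    intro v s h h'
    obtain ⟨t, t1, t2, t3⟩ := (by decide : ∀ t v, uelM t v ≠ v →
      ∃ t', t' < 6 ∧ uelD t' v = true ∧ uelM t' v = uelM t v) (uelT s) v h'.ne'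
    have g := (hD v (uelS t) (by rw [hT t t1, t2])).2
    rw [hT t t1, t3] at g
    have nn := c3 v s h h'
    rw [cd_congr hr0 ((hG v).near s (u _)) ((hG _).near s (u _))] at nn
    exact (near_match (hG _).fr ((hG v).fr.aligned (hG _).fr hk0 g) nn (by linarith)
      ((hG v).lo s (u _)) ((hG v).hi s (u _)) ((hG _).lo s (u _)) ((hG _).hi s (u _))).symm
  refine ⟨F, κ, hG, hz 0 rfl, fun v s h => ?_, fun v s h => (hD v s h).2⟩
  rcases hd : uelD (uelT s) v with _ | _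
  · rcases lt_or_gt_of_ne h with g | g
    · have := hE (uelM (uelT s) v) s
        ((by decide : ∀ t v, uelD t v = false → uelD t (uelM t v) = false) _ _ hd)
        (by rwa [uelM_inv])
      rw [uelM_inv] at this
      exact this.symm
    · exact hE v s hd g
  · exact (hD v s hd).1

/-- The ports of the coupler satisfy `LR`. -/
lemma uel_bound {k n : ℕ} (hk : k = 2 * n + 6) {r ρ : ℝ} (hr : 1 ≤ r) (hr' : r < k + 1 / 2)
    (hρ : r - k < 1 - ρ) {c : Fin 7 → LS n → ℝ} {x : Bool × Bool → ℝ}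
    (c1 : ∀ p, Cg r (c (cond p.1 6 5) (inl (uelI p))) (x p))
    (c2 : ∀ v s, uelD (uelT s) v = true → Cg r (c v s) (c (uelM (uelT s) v) s))
    (c3 : ∀ v s, uelD (uelT s) v = false → v < uelM (uelT s) v →
      cd r (c v s) (c (uelM (uelT s) v) s) ≤ r - k)
    (c4 : ∀ j, cd r (c 5 (inr (j, false))) (c 6 (inr (j, true))) ≤ ρ)
    (c5 : ∀ v s s', s ≠ s' → Far r (c v s) (c v s')) : LR r (r - k) (1 - ρ - (r - k)) x := by
  have hr0 : 0 < r := by linarith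
  have hk0 : 0 < k := by omega
  have hc : (Finset.univ : Finset (LS n)).card = k := by simp [hk]; ring
  have u := fun y : LS n => Finset.mem_univ y
  obtain ⟨F, κ, hG, z0, hκ, hF⟩ := uel_frames hk hr hr' c2 c3 c5
  have lo := fun v s => (hG v).lo s (u s)
  have hi := fun v s => (hG v).hi s (u s)
  have inj : ∀ v s s', s ≠ s' → κ v s ≠ κ v s' := fun v s s' h e => h ((hG v).inj _ (u _) _ (u _) e)
  have slots : ∀ l : ℤ, 0 ≤ l → l < k → ∃ σ : Fin 7 → LS n, (∀ v, κ v (σ v) = l) ∧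
      (uelM (uelT (σ 5)) 5 = 5 ↔ uelM (uelT (σ 6)) 6 ≠ 6) ∧
      (uelT (σ 0) = 3 ∨ uelT (σ 0) = 0 → uelT (σ 1) = 3 ∨ uelT (σ 1) = 0) := by
    intro l h0 h1
    choose σ _ hσ using fun v => (hG v).surj hc h0 h1
    refine ⟨σ, hσ, uel_match (fun v => uelT (σ v)) fun v h => congrArg uelT ?_⟩
    exact (hG _).inj _ (u _) _ (u _) (by rw [hσ, hκ v _ h, hσ])
  have one : ∀ s s', κ 5 s = κ 6 s' → (uelM (uelT s) 5 = 5 ↔ uelM (uelT s') 6 ≠ 6) := by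
    intro s s' h
    obtain ⟨σ, h1, h2, -⟩ := slots _ (lo 5 s) (hi 5 s)
    rwa [(hG 5).inj _ (u _) _ (u _) (h1 5), (hG 6).inj _ (u _) _ (u _) ((h1 6).trans h)] at h2
  have two : ∀ s, uelT s = 3 ∨ uelT s = 0 → κ 0 s = κ 1 (inl 3) ∨ κ 0 s = κ 1 (inl 0) := by
    intro s h
    obtain ⟨σ, h1, -, h2⟩ := slots _ (lo 0 s) (hi 0 s)
    rw [(hG 0).inj _ (u _) _ (u _) (h1 0)] at h2
    rcases h2 h with g | g
    · exact Or.inl (by rw [← h1 1, uelT_eq (s := σ 1) (by rw [g]; decide), g]; rfl)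
    · exact Or.inr (by rw [← h1 1, uelT_eq (s := σ 1) (by rw [g]; decide), g]; rfl)
  have long : ∀ j, κ 5 (inr (j, false)) ≠ κ 6 (inr (j, true)) := fun j h => by
    have := one _ _ h
    revert this
    rcases j with _ | j <;> simp only [uelT] <;> decide
  have lead : ∀ l : ℤ, 0 ≤ l → l < k → (∃ s, κ 5 s = l ∧ (s = inl 0 ∨ s = inl 1)) ∨
      (∃ s, κ 6 s = l ∧ (s = inl 2 ∨ s = inl 3)) ∨
      F 6 l + (1 - ρ) ≤ F 5 l ∨ F 5 l + (1 - ρ) ≤ F 6 l := by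
    intro l h0 h1
    have key := fun j => uec_lead (ρ := ρ) (hG 5).fr (hG 6).fr
      (by rw [← cd_congr hr0 ((hG 5).near _ (u _)) ((hG 6).near _ (u _))]; exact c4 j)
      (lo 5 _) (hi 5 _) (lo 6 _) (hi 6 _) (long j)
    obtain ⟨σ, g1, g2, -⟩ := slots l h0 h1
    by_cases e : uelM (uelT (σ 5)) 5 = 5
    · rcases uel_free e with ⟨⟨_ | _, _ | _⟩, e1, e2⟩ | ⟨j, _ | _, e1, e2⟩
      · exact Or.inl ⟨_, g1 5, Or.inl e2⟩
      · exact Or.inl ⟨_, g1 5, Or.inr e2⟩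
      · cases e1
      · cases e1
      · rw [← g1 5, e2]
        exact Or.inr (Or.inr ((key j).imp And.left And.left))
      · cases e1
    · rcases uel_free (not_not.1 (mt g2.2 e)) with ⟨⟨_ | _, _ | _⟩, e1, e2⟩ | ⟨j, _ | _, e1, e2⟩
      · cases e1
      · cases e1
      · exact Or.inr (Or.inl ⟨_, g1 6, Or.inl e2⟩)
      · exact Or.inr (Or.inl ⟨_, g1 6, Or.inr e2⟩)
      · cases e1
      · rw [← g1 6, e2]
        exact Or.inr (Or.inr ((key j).imp And.right And.right))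
  have kA1 : κ 5 (inl 2) = κ 0 (inl 2) := hκ 0 (inl 2) (by simp only [uelT]; decide)
  have kA2 : κ 5 (inl 3) = κ 1 (inl 3) := hκ 1 (inl 3) (by simp only [uelT]; decide)
  have kB1 : κ 6 (inl 1) = κ 0 (inl 1) := hκ 0 (inl 1) (by simp only [uelT]; decide)
  have kB2 : κ 6 (inl 0) = κ 1 (inl 0) := hκ 1 (inl 0) (by simp only [uelT]; decide)
  have kY : κ 1 (inr (none, true)) = κ 0 (inr (none, true)) :=
    hκ 0 (inr (none, true)) (by simp only [uelT]; decide)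
  have z1 : κ 0 (inr (none, true)) = 0 := z0
  have p0 : F 0 (κ 0 (inr (none, true))) = F 1 (κ 0 (inr (none, true))) :=
    hF 0 (inr (none, true)) rfl
  have p1 : F 5 (κ 5 (inl 2)) = F 0 (κ 5 (inl 2)) := hF 5 (inl 2) rfl
  have p2 : F 5 (κ 5 (inl 3)) = F 1 (κ 5 (inl 3)) := hF 5 (inl 3) rfl
  have q1 : F 6 (κ 6 (inl 1)) = F 0 (κ 6 (inl 1)) := hF 6 (inl 1) rfl
  have q2 : F 6 (κ 6 (inl 0)) = F 1 (κ 6 (inl 0)) := hF 6 (inl 0) rfl
  have p3 : F 5 (κ 5 (inr (none, true))) = F 2 (κ 5 (inr (none, true))) :=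
    hF 5 (inr (none, true)) rfl
  have q4 : F 6 (κ 6 (inr (none, false))) = F 3 (κ 6 (inr (none, false))) :=
    hF 6 (inr (none, false)) rfl
  have s3 : F 0 (κ 0 (inl 3)) = F 2 (κ 0 (inl 3)) := hF 0 (inl 3) rfl
  have s4 : F 0 (κ 0 (inl 0)) = F 3 (κ 0 (inl 0)) := hF 0 (inl 0) rfl
  have m3 := two (inl 3) (Or.inl rfl)
  have m4 := two (inl 0) (Or.inr rfl)
  rw [← kA2, ← kB2] at m3 m4
  rw [z1] at p0
  have cross : ∀ s s', uelM (uelT s) 5 ≠ 5 → uelM (uelT s') 6 ≠ 6 → κ 5 s ≠ κ 6 s' :=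
    fun s s' h h' e => h ((one s s' e).2 h')
  have vA : ∀ s, uelM (uelT s) 5 ≠ 5 → ∀ f, Fr k r f → Al (r - k) f (F 6) →
      F 5 (κ 5 s) = f (κ 5 s) → κ 6 (inl 2) = κ 5 s ∨ κ 6 (inl 3) = κ 5 s := by
    intro s h f _ al e
    have := abs_le.1 (al (κ 5 s))
    rcases lead _ (lo 5 s) (hi 5 s) with ⟨s', g, g'⟩ | ⟨s', g, rfl | rfl⟩ | g | g
    · obtain rfl := (hG 5).inj _ (u _) _ (u _) g
      rcases g' with rfl | rfl <;> exact absurd rfl h
    · exact Or.inl g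
    · exact Or.inr g
    · linarith [this.2]
    · linarith [this.1]
  have wB : ∀ s, uelM (uelT s) 6 ≠ 6 → ∀ f, Fr k r f → Al (r - k) f (F 5) →
      F 6 (κ 6 s) = f (κ 6 s) → κ 5 (inl 0) = κ 6 s ∨ κ 5 (inl 1) = κ 6 s := by
    intro s h f _ al e
    have := abs_le.1 (al (κ 6 s))
    rcases lead _ (lo 6 s) (hi 6 s) with ⟨s', g, rfl | rfl⟩ | ⟨s', g, g'⟩ | g | g
    · exact Or.inl g
    · exact Or.inr g
    · obtain rfl := (hG 6).inj _ (u _) _ (u _) g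
      rcases g' with rfl | rfl <;> exact absurd rfl h
    · linarith [this.1]
    · linarith [this.2]
  have h2 : uelM (uelT (inl 2 : LS n)) 5 ≠ 5 := by simp only [uelT]; decide
  have h3 : uelM (uelT (inl 3 : LS n)) 5 ≠ 5 := by simp only [uelT]; decide
  have h5 : uelM (uelT (inr (none, true) : LS n)) 5 ≠ 5 := by simp only [uelT]; decide
  have h1 : uelM (uelT (inl 1 : LS n)) 6 ≠ 6 := by simp only [uelT]; decide
  have h0 : uelM (uelT (inl 0 : LS n)) 6 ≠ 6 := by simp only [uelT]; decide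
  have h4 : uelM (uelT (inr (none, false) : LS n)) 6 ≠ 6 := by simp only [uelT]; decide
  have a1 := vA _ h2 _ (hG 0).fr ((hG 0).fr.aligned (hG 6).fr hk0 q1.symm) p1
  have a2 := vA _ h3 _ (hG 1).fr ((hG 1).fr.aligned (hG 6).fr hk0 q2.symm) p2
  have b1 := wB _ h1 _ (hG 0).fr ((hG 0).fr.aligned (hG 5).fr hk0 p1.symm) q1
  have b2 := wB _ h0 _ (hG 1).fr ((hG 1).fr.aligned (hG 5).fr hk0 p2.symm) q2
  have n1 := inj 5 (inl 2) (inl 3) (by simp)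
  have n2 := inj 6 (inl 1) (inl 0) (by simp)
  have n3 := cross _ _ h2 h1
  have n4 := cross _ _ h2 h0
  have n5 := cross _ _ h3 h1
  have n6 := cross _ _ h3 h0
  have o1 := inj 5 (inr (none, true)) (inl 2) (by simp)
  have o2 := inj 5 (inr (none, true)) (inl 3) (by simp)
  have o3 := cross _ _ h5 h1
  have o4 := cross _ _ h5 h0
  have r1 := (cross _ _ h2 h4).symm
  have r2 := (cross _ _ h3 h4).symm
  have r3 := inj 6 (inr (none, false)) (inl 1) (by simp)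
  have r4 := inj 6 (inr (none, false)) (inl 0) (by simp)
  have y1 : 0 < κ 5 (inl 2) ∧ κ 5 (inl 2) < k :=
    ⟨(lo 5 _).lt_of_ne (by rw [kA1, ← z1]; exact inj 0 _ _ (by simp)), hi 5 _⟩
  have y2 : 0 < κ 5 (inl 3) ∧ κ 5 (inl 3) < k :=
    ⟨(lo 5 _).lt_of_ne (by rw [kA2, ← z1, ← kY]; exact inj 1 _ _ (by simp)), hi 5 _⟩
  have y3 : 0 < κ 6 (inl 1) ∧ κ 6 (inl 1) < k :=
    ⟨(lo 6 _).lt_of_ne (by rw [kB1, ← z1]; exact inj 0 _ _ (by simp)), hi 6 _⟩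
  have y4 : 0 < κ 6 (inl 0) ∧ κ 6 (inl 0) < k :=
    ⟨(lo 6 _).lt_of_ne (by rw [kB2, ← z1, ← kY]; exact inj 1 _ _ (by simp)), hi 6 _⟩
  have lead' : ∀ l : ℤ, 0 ≤ l → l < k → l ≠ κ 5 (inl 2) → l ≠ κ 5 (inl 3) → l ≠ κ 6 (inl 1) →
      l ≠ κ 6 (inl 0) → F 6 l + (1 - ρ) ≤ F 5 l ∨ F 5 l + (1 - ρ) ≤ F 6 l := by
    intro l g0 g1 g2 g3 g4 g5
    rcases lead l g0 g1 with ⟨s', g, rfl | rfl⟩ | ⟨s', g, rfl | rfl⟩ | g
    · exact absurd g (by clear * - b1 b2 n2 g4 g5; omega)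
    · exact absurd g (by clear * - b1 b2 n2 g4 g5; omega)
    · exact absurd g (by clear * - a1 a2 n1 g2 g3; omega)
    · exact absurd g (by clear * - a1 a2 n1 g2 g3; omega)
    · exact g
  have nv : ∀ i : Bool, Cg r (x (false, i)) (F 5 (κ 5 (inl (uelI (false, i))))) := fun i =>
    (c1 (false, i)).symm.trans ((hG 5).near _ (u _))
  have nw : ∀ i : Bool, Cg r (x (true, i)) (F 6 (κ 6 (inl (uelI (true, i))))) := fun i =>
    (c1 (true, i)).symm.trans ((hG 6).near _ (u _))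
  have pv : ∀ a b, (κ 6 (inl 1) = a ∧ κ 6 (inl 0) = b) ∨ (κ 6 (inl 0) = a ∧ κ 6 (inl 1) = b) →
      ∃ i : Bool, Cg r (x (false, i)) (F 5 a) ∧ Cg r (x (false, !i)) (F 5 b) := by
    intro a b h
    have : (κ 5 (inl 0) = a ∧ κ 5 (inl 1) = b) ∨ (κ 5 (inl 1) = a ∧ κ 5 (inl 0) = b) := by
      clear * - b1 b2 n2 h; omega
    rcases this with ⟨rfl, rfl⟩ | ⟨rfl, rfl⟩
    · exact ⟨false, nv false, nv true⟩
    · exact ⟨true, nv true, nv false⟩
  have pw : ∀ a b, (κ 5 (inl 2) = a ∧ κ 5 (inl 3) = b) ∨ (κ 5 (inl 3) = a ∧ κ 5 (inl 2) = b) →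
      ∃ i : Bool, Cg r (x (true, i)) (F 6 a) ∧ Cg r (x (true, !i)) (F 6 b) := by
    intro a b h
    have : (κ 6 (inl 2) = a ∧ κ 6 (inl 3) = b) ∨ (κ 6 (inl 3) = a ∧ κ 6 (inl 2) = b) := by
      clear * - a1 a2 n1 h; omega
    rcases this with ⟨rfl, rfl⟩ | ⟨rfl, rfl⟩
    · exact ⟨false, nw false, nw true⟩
    · exact ⟨true, nw true, nw false⟩
  rcases lead' 0 le_rfl (by omega) y1.1.ne y2.1.ne y3.1.ne y4.1.ne with g | g
  · obtain ⟨b, e1, e2, e3⟩ := uec_core (hG 5).fr (hG 6).fr (hG 0).fr (hG 1).fr (hG 2).fr (hG 3).fr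
      hρ y1 y2 y3 y4 ⟨lo 5 _, hi 5 _⟩ ⟨lo 6 _, hi 6 _⟩ ⟨n1, n2, n3, n4, n5, n6⟩ ⟨o1, o2, o3, o4⟩
      ⟨r1, r2, r3, r4⟩ m3 m4 p0 p1 p2 q1 q2 p3 q4 s3 s4 fun l g0 g1 g2 g3 g4 g5 =>
        (lead' l g0 g1 g2 g3 g4 g5).resolve_right (uec_one (hG 5).fr (hG 6).fr hρ g0 g1 g)
    obtain ⟨i, i1, i2⟩ := pv _ _ e1
    obtain ⟨j, j1, j2⟩ := pw _ _ e2
    exact ⟨false, i, j, _, _, _, _, i1, i2, j1, j2, e3⟩
  · obtain ⟨b, e1, e2, e3⟩ := uec_core (hG 6).fr (hG 5).fr (hG 0).fr (hG 1).fr (hG 3).fr (hG 2).fr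
      hρ y3 y4 y1 y2 ⟨lo 6 _, hi 6 _⟩ ⟨lo 5 _, hi 5 _⟩
      ⟨n2, n1, n3.symm, n5.symm, n4.symm, n6.symm⟩ ⟨r3, r4, r1, r2⟩ ⟨o3, o4, o1, o2⟩ m4.symm m3.symm
      p0 q1 q2 p1 p2 q4 p3 s4 s3 fun l g0 g1 g2 g3 g4 g5 =>
        (lead' l g0 g1 g4 g5 g2 g3).resolve_left (uec_one (hG 6).fr (hG 5).fr hρ g0 g1 g)
    obtain ⟨i, i1, i2⟩ := pw _ _ e1
    obtain ⟨j, j1, j2⟩ := pv _ _ e2
    exact ⟨true, i, j, _, _, _, _, i1, i2, j1, j2, e3⟩

/-- The intended label of a slot. -/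
def uelN {n : ℕ} : LS n → ℕ
  | inl i => i
  | inr (none, b) => 4 + b.toNat
  | inr (some j, b) => 6 + 2 * j + b.toNat

/-- The truncated label. -/
def uelR : Fin 8 → Fin 6 := ![0, 1, 2, 3, 4, 5, 5, 5]

/-- The table of the shifts. -/
def uelH : Fin 7 → Fin 6 → Fin 5 :=
  ![![0, 0, 3, 3, 3, 3], ![0, 0, 3, 3, 3, 3], ![2, 3, 3, 3, 3, 4], ![0, 0, 0, 0, 1, 3],
    ![2, 3, 3, 3, 3, 3], ![2, 3, 3, 3, 4, 4], ![0, 0, 0, 1, 1, 1]]

/-- The shifts of the colours. -/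
def uelG (s a b c : ℝ) (v : Fin 7) (i : Fin 6) : ℝ := ![b, c, 0, a, s] (uelH v i)

lemma uelN_lt {n : ℕ} (s : LS n) : uelN s < 2 * n + 6 := by
  rcases s with i | ⟨_ | j, _ | _⟩ <;> simp only [uelN, Bool.toNat_false, Bool.toNat_true] <;> omega

lemma uelN_inj {n : ℕ} {s s' : LS n} (h : uelN s = uelN s') : s = s' := by
  rcases s with i | ⟨_ | j, _ | _⟩ <;> rcases s' with i' | ⟨_ | j', _ | _⟩ <;>
    simp only [uelN, Bool.toNat_false, Bool.toNat_true] at h <;>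
    first
      | rfl
      | omega
      | rw [Fin.ext h]
      | rw [Fin.ext (show j.1 = j'.1 by omega)]

lemma uelR_eq {n : ℕ} (s : LS n) : (uelR (uelT s) : ℕ) = min (uelN s) 5 := by
  rcases s with i | ⟨_ | j, _ | _⟩
  · fin_cases i <;> rfl
  · rfl
  · rfl
  · change 5 = min (6 + 2 * (j : ℕ) + 0) 5
    omega
  · change 5 = min (6 + 2 * (j : ℕ) + 1) 5
    omega

lemma uel_val {s a b c : ℝ} (h1 : 0 ≤ a) (h2 : b ≤ c) (h3 : a - s ≤ b) (h4 : c ≤ 0) (i j : Fin 5)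
    (h : i ≤ j ∨ ¬ (i = 4 ∧ j ≤ 1)) :
    (i ≤ j → ![b, c, 0, a, s] i ≤ ![b, c, 0, a, s] j) ∧
      ![b, c, 0, a, s] i ≤ ![b, c, 0, a, s] j + s := by
  fin_cases i <;> fin_cases j <;>
    first
      | exact absurd h (by decide)
      | (refine ⟨fun g => ?_, by simp <;> linarith⟩
         first
          | exact absurd g (by decide)
          | (simp <;> linarith))

lemma uelG_mono {s a b c : ℝ} (h1 : 0 ≤ a) (h2 : b ≤ c) (h3 : a - s ≤ b) (h4 : c ≤ 0) (v : Fin 7)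
    {i j : Fin 6} (h : i ≤ j) :
    uelG s a b c v i ≤ uelG s a b c v j ∧ uelG s a b c v j ≤ uelG s a b c v i + s := by
  obtain ⟨g1, g2⟩ := (by decide : ∀ v i j, i ≤ j → uelH v i ≤ uelH v j ∧
    ¬ (uelH v j = 4 ∧ uelH v i ≤ 1)) v i j h
  exact ⟨(uel_val h1 h2 h3 h4 _ _ (Or.inl g1)).1 g1, (uel_val h1 h2 h3 h4 _ _ (Or.inr g2)).2⟩

lemma uelG_dir (s a b c : ℝ) (u : Fin 8) (v : Fin 7) (h : uelD u v = true) :
    uelG s a b c v (uelR u) = uelG s a b c (uelM u v) (uelR u) :=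
  congrArg _ ((by decide : ∀ u v, uelD u v = true →
    uelH v (uelR u) = uelH (uelM u v) (uelR u)) u v h)

lemma uelG_near {s a b c : ℝ} (h1 : 0 ≤ a) (h2 : b ≤ c) (h3 : a - s ≤ b) (h4 : c ≤ 0) (u : Fin 8)
    (v : Fin 7) : |uelG s a b c (uelM u v) (uelR u) - uelG s a b c v (uelR u)| ≤ s := by
  obtain ⟨g1, g2⟩ := (by decide : ∀ u v,
    ¬ (uelH v (uelR u) = 4 ∧ uelH (uelM u v) (uelR u) ≤ 1) ∧
      ¬ (uelH (uelM u v) (uelR u) = 4 ∧ uelH v (uelR u) ≤ 1)) u v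
  exact abs_sub_le_iff.2 ⟨sub_le_iff_le_add'.2 (uel_val h1 h2 h3 h4 _ _ (Or.inr g2)).2,
    sub_le_iff_le_add'.2 (uel_val h1 h2 h3 h4 _ _ (Or.inr g1)).2⟩

/-- The wound coupler. -/
theorem exists_L {k m : ℕ} (hk : 6 ≤ k) (he : Even k) (hm : 1 ≤ m) {E : Pole k (Fin 2)}
    (hE : IsE k E) : ∃ A, IsL k m A := by
  obtain ⟨n, hn⟩ : ∃ n, k = 2 * n + 6 := by
    obtain ⟨t, ht⟩ := he
    exact ⟨t - 3, by omega⟩
  obtain ⟨m, rfl⟩ : ∃ t, m = t + 1 := ⟨m - 1, by omega⟩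
  obtain ⟨C, c1, c2, c3⟩ := ulf_chain hE m
  obtain ⟨A, t, hA⟩ := uel_net hn hE.1 c1
  have hm' : (0 : ℝ) ≤ m := Nat.cast_nonneg m
  have hk' : (6 : ℝ) ≤ k := by exact_mod_cast hk
  refine ⟨A, t, fun r x hr h1 h => ?_, fun r p p' q q' h1 h => ?_⟩
  · obtain ⟨c, d1, d2, d3, d4, d5⟩ := (hA r x).1 h
    push_cast at h1 ⊢
    have hr' : r < k + 1 / 2 := by
      by_contra g
      nlinarith
    have := uel_bound hn (ρ := (m + 1) * (r - k)) hr hr' (by linarith) d1 d2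
      (fun v s g g' => hE.2.1 r _ hr hr' (d3 v s g g')) (fun j => c2 r _ hr hr' (d4 j)) d5
    rwa [show 1 - (m + 1) * (r - k) - (r - k) = 1 - (m + 1 + 1) * (r - k) by ring] at this
  · obtain ⟨g1, g2, g3, g4⟩ := h
    push_cast at h1 g4
    obtain ⟨s, hs⟩ : ∃ s, s = r - k := ⟨_, rfl⟩
    rw [← hs] at h1 g3 g4
    have hs0 : 0 < s := by linarith
    have hs1 := mul_nonneg hm' hs0.le
    have e1 : ∀ x y : ℝ, |y - x| ≤ s → E.Rel r ![x, y] := fun x y g =>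
      hE.2.2 r _ ((cd_le_of (u := y - x) (by linarith) (Cg.of_eq (by simp))).trans (hs ▸ g))
    have mono := fun v i j => uelG_mono (s := s) (a := p' - p - 1) (b := q - p - 2)
      (c := q' - p - 3) (by linarith) (by linarith) (by linarith) (by linarith) v (i := i) (j := j)
    refine (hA r _).2 ⟨fun v t => p + uelN t +
      uelG s (p' - p - 1) (q - p - 2) (q' - p - 3) v (uelR (uelT t)), ?_, fun v t g => ?_,
      fun v t g g' => e1 _ _ ?_, fun j => c3 r _ _ (by linarith) ?_, fun v => ?_⟩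
    · rintro ⟨_ | _, _ | _⟩ <;> apply Cg.of_eq <;> simp [uelI, uelN, uelT, uelR, uelG, uelH, q4]
    · exact Cg.of_eq (congrArg _ (uelG_dir _ _ _ _ _ _ g))
    · rw [add_sub_add_left_eq_sub]
      exact uelG_near (by linarith) (by linarith) (by linarith) (by linarith) _ _
    · rw [← hs, abs_le]
      rcases j with _ | j <;> simp [uelN, uelT, uelR, uelG, uelH] <;> constructor <;> linarith
    · have key : ∀ t t' : LS n, uelN t < uelN t' → Far r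
          (p + uelN t + uelG s (p' - p - 1) (q - p - 2) (q' - p - 3) v (uelR (uelT t)))
          (p + uelN t' + uelG s (p' - p - 1) (q - p - 2) (q' - p - 3) v (uelR (uelT t'))) := by
        intro t t' g
        obtain ⟨w1, w2⟩ := mono v (uelR (uelT t)) (uelR (uelT t'))
          (by rw [Fin.le_def, uelR_eq, uelR_eq]; omega)
        have w3 : (uelN t : ℝ) + 1 ≤ uelN t' := by exact_mod_cast g
        have w4 : (uelN t' : ℝ) + 1 ≤ k := by exact_mod_cast hn ▸ uelN_lt t'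
        have w5 : (0 : ℝ) ≤ uelN t := Nat.cast_nonneg _
        exact Far.of_bounds (by linarith) (by linarith)
      intro t t' g
      rcases lt_trichotomy (uelN t) (uelN t') with w | w | w
      · exact key t t' w
      · exact absurd (uelN_inj w) g
      · exact (key t' t w).symm

end Pool.Agent.P.MP_3f5ded_co.UG
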