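import Pool.Agent.P.MP_3f5ded_co.UEDefs

set_option autoImplicit false

namespace Pool.Agent.P.MP_3f5ded_co.UG

open Sum

/-- The eight orders of the four ports of the coupler. -/
def UewD (s d a c g h : ℝ) : Prop :=
  LD s d a c g h ∨ LD s d a c h g ∨ LD s d c a g h ∨ LD s d c a h g ∨
    LD s d g h a c ∨ LD s d g h c a ∨ LD s d h g a c ∨ LD s d h g c a

lemma uew_shift {s d p p' q q' : ℝ} (h : LD s d p p' q q') (t : ℝ) :
    LD s d (p + t) (p' + t) (q + t) (q' + t) := by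
  obtain ⟨h1, h2, h3, h4⟩ := h
  exact ⟨by linarith, by linarith, by linarith, by linarith⟩

lemma uew_cg {r x y : ℝ} (h : Cg r x y) (n : ℤ) : Cg r x (y + n * r) :=
  h.trans ⟨-n, by push_cast; ring⟩

/-- Lifts of the ports with the second port fixed. -/
lemma uew_lift {r s d a c g h : ℝ} (H : LR r s d (q4 a c g h)) :
    ∃ A G K, Cg r a A ∧ Cg r g G ∧ Cg r h K ∧ UewD s d A c G K := by
  obtain ⟨b, i, j, p, p', q, q', h1, h2, h3, h4, h5⟩ := H
  rcases b with _ | _ <;> rcases i with _ | _ <;> rcases j with _ | _ <;>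
    simp only [q4, Bool.not_false, Bool.not_true] at h1 h2 h3 h4
  · obtain ⟨n, rfl⟩ := h2
    exact ⟨_, _, _, uew_cg h1 n, uew_cg h3 n, uew_cg h4 n, Or.inl (uew_shift h5 _)⟩
  · obtain ⟨n, rfl⟩ := h2
    exact ⟨_, _, _, uew_cg h1 n, uew_cg h4 n, uew_cg h3 n, Or.inr (Or.inl (uew_shift h5 _))⟩
  · obtain ⟨n, rfl⟩ := h1
    exact ⟨_, _, _, uew_cg h2 n, uew_cg h3 n, uew_cg h4 n,
      Or.inr (Or.inr (Or.inl (uew_shift h5 _)))⟩
  · obtain ⟨n, rfl⟩ := h1
    exact ⟨_, _, _, uew_cg h2 n, uew_cg h4 n, uew_cg h3 n,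
      Or.inr (Or.inr (Or.inr (Or.inl (uew_shift h5 _))))⟩
  · obtain ⟨n, rfl⟩ := h4
    exact ⟨_, _, _, uew_cg h3 n, uew_cg h1 n, uew_cg h2 n,
      Or.inr (Or.inr (Or.inr (Or.inr (Or.inl (uew_shift h5 _)))))⟩
  · obtain ⟨n, rfl⟩ := h3
    exact ⟨_, _, _, uew_cg h4 n, uew_cg h1 n, uew_cg h2 n,
      Or.inr (Or.inr (Or.inr (Or.inr (Or.inr (Or.inl (uew_shift h5 _))))))⟩
  · obtain ⟨n, rfl⟩ := h4
    exact ⟨_, _, _, uew_cg h3 n, uew_cg h2 n, uew_cg h1 n,
      Or.inr (Or.inr (Or.inr (Or.inr (Or.inr (Or.inr (Or.inl (uew_shift h5 _)))))))⟩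
  · obtain ⟨n, rfl⟩ := h3
    exact ⟨_, _, _, uew_cg h4 n, uew_cg h2 n, uew_cg h1 n,
      Or.inr (Or.inr (Or.inr (Or.inr (Or.inr (Or.inr (Or.inr (uew_shift h5 _)))))))⟩

/-- Rough bounds that hold in all eight orders. -/
lemma uew_rough {s d a c g h : ℝ} (hd : 0 < d) (hs : s < 1 / 2) (H : UewD s d a c g h) :
    d ≤ s ∧ g - c ≤ 3 - d ∧ c - g ≤ 3 - d ∧ h - g ≤ 1 + s - d ∧ g - h ≤ 1 + s - d := by
  rcases H with H | H | H | H | H | H | H | H <;> obtain ⟨_, _, _, _⟩ := H <;>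
    exact ⟨by linarith, by linarith, by linarith, by linarith, by linarith⟩

/-- Two couplers with common inner colours are in the same order. -/
lemma uew_two {s d a a' c g h h' : ℝ} (hd : 0 < d) (hs : s < 1 / 2) (H : UewD s d a c g h)
    (H' : UewD s d a' c g h') (h1 : h' - h ≤ s) (h2 : h - h' ≤ s) :
    a' - a ≤ s - d ∧ a - a' ≤ s - d := by
  rcases H with H | H | H | H | H | H | H | H <;> obtain ⟨_, _, _, _⟩ := H <;>
    rcases H' with H | H | H | H | H | H | H | H <;> obtain ⟨_, _, _, _⟩ := H <;>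
    exact ⟨by linarith, by linarith⟩

/-- A coupler with close inner colours has far outer colours. -/
lemma uew_one {s d a c g h : ℝ} (hd : 0 < d) (hs : s < 1 / 2) (H : UewD s d a c g h)
    (h1 : g - c ≤ 1 - d) (h2 : c - g ≤ 1 - d) :
    (3 - s ≤ h - a ∧ h - a ≤ 3 - d) ∨ (3 - s ≤ a - h ∧ a - h ≤ 3 - d) := by
  rcases H with H | H | H | H | H | H | H | H <;> obtain ⟨_, _, _, _⟩ := H <;>
    first
      | exact Or.inl ⟨by linarith, by linarith⟩
      | exact Or.inr ⟨by linarith, by linarith⟩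

lemma uew_half {m : ℕ} (hm : 1 ≤ m) {s : ℝ} (h : (m + 1) * s < 1) : s < 1 / 2 := by
  have h1 : (1 : ℝ) ≤ m := by exact_mod_cast hm
  by_contra hc
  push Not at hc
  nlinarith

lemma uew_pos {m : ℕ} {s : ℝ} (h : 1 ≤ (m + 2) * s) : 0 < s := by
  have h1 : (0 : ℝ) ≤ m := Nat.cast_nonneg m
  by_contra hc
  push Not at hc
  nlinarith

/-- The wire ends of the short wire. -/
abbrev UewW : Type := ((Fin 2 × (Bool × Bool)) ⊕ (Unit × Fin 2)) ⊕ Fin 2

/-- The wires of the short wire. -/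
def uewWt : UewW → UewW
  | inl (inl (l, (false, false))) => inr l
  | inl (inl (l, (false, true))) => inl (inl (![1, 0] l, (false, true)))
  | inl (inl (l, (true, false))) => inl (inl (![1, 0] l, (true, false)))
  | inl (inl (l, (true, true))) => inl (inr ((), l))
  | inl (inr (_, j)) => inl (inl (j, (true, true)))
  | inr j => inl (inl (j, (false, false)))

/-- The edges of the short wire. -/
def uewWe : UewW → Fin 6
  | inl (inl (l, (false, false))) => ![0, 1] l
  | inl (inl (_, (false, true))) => 2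
  | inl (inl (_, (true, false))) => 3
  | inl (inl (l, (true, true))) => ![4, 5] l
  | inl (inr (_, j)) => ![4, 5] j
  | inr j => ![0, 1] j

set_option synthInstance.maxSize 1000 in
lemma uew_netW {k : ℕ} {L : Pole k (Bool × Bool)} (hL : L.Tag fun p q => p.1 = q.1)
    {E : Pole k (Fin 2)} (hE : E.Inj) :
    ∃ B : Pole k (Fin 2), B.Inj ∧ ∀ (r : ℝ) x, B.Rel r x ↔ ∃ c g h h',
      L.Rel r (q4 (x 0) c g h) ∧ L.Rel r (q4 (x 1) c g h') ∧ E.Rel r ![h, h'] := by
  obtain ⟨B, hB1, hB⟩ := net2 (fun _ : Fin 2 => L) (fun _ : Unit => E) (fun _ => hL)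
    (fun _ => hE.tag) uewWt (by decide) (by decide) (by decide) (by decide) Eq (by decide) uewWe
    ![inr 0, inr 1, inl (inl (0, (false, true))), inl (inl (0, (true, false))),
      inl (inr ((), 0)), inl (inr ((), 1))] (by decide) (by decide) (by decide)
  have e1 : ∀ (w : Fin 6 → ℝ) (l : Fin 2), (fun p => w (uewWe (inl (inl (l, p))))) =
      ![q4 (w 0) (w 2) (w 3) (w 4), q4 (w 1) (w 2) (w 3) (w 5)] l := fun w l => by
    funext p
    fin_cases l <;> rcases p with ⟨_ | _, _ | _⟩ <;> rfl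
  have e2 : ∀ (w : Fin 6 → ℝ) (l : Unit), (fun p => w (uewWe (inl (inr (l, p))))) =
      ![w 4, w 5] := fun w l => by
    funext p
    fin_cases p <;> rfl
  refine ⟨B, hB1.inj, fun r x => (hB r x).trans ?_⟩
  simp only [e1, e2]
  constructor
  · rintro ⟨w, w1, w2, w3⟩
    have h0 : w 0 = x 0 := w1 0
    have h1 : w 1 = x 1 := w1 1
    rw [h0, h1] at w2
    exact ⟨_, _, _, _, w2 0, w2 1, w3 ()⟩
  · rintro ⟨c, g, h, h', h1, h2, h3⟩
    refine ⟨![x 0, x 1, c, g, h, h'], fun p => ?_, fun l => ?_, fun _ => h3⟩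
    · fin_cases p <;> rfl
    · fin_cases l
      exacts [h1, h2]

/-- The wire ends of the far filter. -/
abbrev UewK : Type := ((Unit × (Bool × Bool)) ⊕ (Unit × Fin 2)) ⊕ Fin 2

/-- The wires of the far filter. -/
def uewKt : UewK → UewK
  | inl (inl (_, (false, false))) => inr 0
  | inl (inl (_, (false, true))) => inl (inr ((), 0))
  | inl (inl (_, (true, false))) => inl (inr ((), 1))
  | inl (inl (_, (true, true))) => inr 1
  | inl (inr (_, j)) => ![inl (inl ((), (false, true))), inl (inl ((), (true, false)))] j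
  | inr j => ![inl (inl ((), (false, false))), inl (inl ((), (true, true)))] j

/-- The edges of the far filter. -/
def uewKe : UewK → Fin 4
  | inl (inl (_, (false, false))) => 0
  | inl (inl (_, (false, true))) => 2
  | inl (inl (_, (true, false))) => 3
  | inl (inl (_, (true, true))) => 1
  | inl (inr (_, j)) => ![2, 3] j
  | inr j => ![0, 1] j

set_option synthInstance.maxSize 1000 in
lemma uew_netK {k : ℕ} {L : Pole k (Bool × Bool)} (hL : L.Tag fun p q => p.1 = q.1)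
    {C : Pole k (Fin 2)} (hC : C.Inj) :
    ∃ B : Pole k (Fin 2), B.Inj ∧ ∀ (r : ℝ) x, B.Rel r x ↔ ∃ c g,
      L.Rel r (q4 (x 0) c g (x 1)) ∧ C.Rel r ![c, g] := by
  obtain ⟨B, hB1, hB⟩ := net2 (fun _ : Unit => L) (fun _ : Unit => C) (fun _ => hL)
    (fun _ => hC.tag) uewKt (by decide) (by decide) (by decide) (by decide) Eq (by decide) uewKe
    ![inr 0, inr 1, inl (inr ((), 0)), inl (inr ((), 1))] (by decide) (by decide) (by decide)
  have e1 : ∀ (w : Fin 4 → ℝ) (l : Unit), (fun p => w (uewKe (inl (inl (l, p))))) =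
      q4 (w 0) (w 2) (w 3) (w 1) := fun w l => by
    funext p
    rcases p with ⟨_ | _, _ | _⟩ <;> rfl
  have e2 : ∀ (w : Fin 4 → ℝ) (l : Unit), (fun p => w (uewKe (inl (inr (l, p))))) =
      ![w 2, w 3] := fun w l => by
    funext p
    fin_cases p <;> rfl
  refine ⟨B, hB1.inj, fun r x => (hB r x).trans ?_⟩
  simp only [e1, e2]
  constructor
  · rintro ⟨w, w1, w2, w3⟩
    have h0 : w 0 = x 0 := w1 0
    have h1 : w 1 = x 1 := w1 1
    rw [h0, h1] at w2
    exact ⟨_, _, w2 (), w3 ()⟩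
  · rintro ⟨c, g, h1, h2⟩
    refine ⟨![x 0, x 1, c, g], fun p => ?_, fun _ => h1, fun _ => h2⟩
    fin_cases p <;> rfl

/-- Two couplers form a short wire. -/
theorem exists_W {k m : ℕ} (hk : 6 ≤ k) (hm : 1 ≤ m) {E : Pole k (Fin 2)} (hE : IsE k E)
    {L : Pole k (Bool × Bool)} (hL : IsL k m L) : ∃ A, IsW k m A := by
  have hk' : (6 : ℝ) ≤ k := by exact_mod_cast hk
  obtain ⟨B, b1, hB⟩ := uew_netW hL.1 hE.1
  refine ⟨B, b1, fun r x r1 r2 h => ?_, fun r a r1 r2 => ?_⟩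
  · have hr : 0 < r := by linarith
    have hs := uew_half hm r2
    obtain ⟨c, g, h, h', g1, g2, g3⟩ := (hB r x).1 h
    obtain ⟨A, G, K, a1, a2, a3, a4⟩ := uew_lift (hL.2.1 r _ r1 r2 g1)
    obtain ⟨A', G', K', c1, c2, c3, c4⟩ := uew_lift (hL.2.1 r _ r1 r2 g2)
    have g4 : cd r h h' ≤ r - k := hE.2.1 r _ r1 (by linarith) g3
    obtain ⟨u, u1, u2⟩ := cd_lift r h h'
    rw [← u2, abs_le] at g4
    have e : ((m : ℝ) + 2) * (r - k) - 1 = (r - k) - (1 - (m + 1) * (r - k)) := by ring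
    rw [e]
    have hd : 0 < 1 - ((m : ℝ) + 1) * (r - k) := by linarith
    generalize 1 - ((m : ℝ) + 1) * (r - k) = d at *
    obtain ⟨p1, p2, p3, p4, p5⟩ := uew_rough hd hs a4
    obtain ⟨q1, q2, q3, q4, q5⟩ := uew_rough hd hs c4
    obtain rfl : G = G' := a2.uniq c2 (by linarith) (by linarith)
    have e2 : K' = K + u := c3.uniq (u1.trans (a3.add u)) (by linarith [g4.1]) (by linarith [g4.2])
    obtain ⟨f1, f2⟩ := uew_two hd hs a4 c4 (by linarith [g4.2]) (by linarith [g4.1])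
    rw [cd_congr hr a1 c1]
    exact (cd_le_of (u := A' - A) hr (Cg.of_eq (by ring))).trans
      (abs_le.2 ⟨by linarith, by linarith⟩)
  · have hs := uew_pos r2
    refine (hB r _).2 ⟨a + 1, a + 2 - (r - k), a + 3 - (r - k), a + 3 - (r - k),
      hL.2.2 r a _ _ _ r1 ⟨by linarith, by linarith, by linarith, by linarith⟩,
      hL.2.2 r (a - ((m + 2) * (r - k) - 1)) _ _ _ r1
        ⟨by linarith, by linarith, by linarith, by linarith⟩, hE.2.2 r _ ?_⟩
    exact (cd_le_of (u := 0) (by linarith) (Cg.of_eq (by simp))).trans (by simpa using hs.le)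

/-- A coupler with its inner ports joined is a far filter. -/
theorem exists_K {k m : ℕ} (hk : 6 ≤ k) (hm : 1 ≤ m) {E : Pole k (Fin 2)} (hE : IsE k E)
    {L : Pole k (Bool × Bool)} (hL : IsL k m L) : ∃ A, IsK k m A := by
  have hk' : (6 : ℝ) ≤ k := by exact_mod_cast hk
  obtain ⟨C, c1, c2, c3⟩ := ulf_chain hE m
  obtain ⟨B, b1, hB⟩ := uew_netK hL.1 c1
  refine ⟨B, b1, fun r x r1 r2 h => ?_, fun r a r1 r2 => ?_⟩
  · have hr : 0 < r := by linarith
    have hs := uew_half hm r2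
    obtain ⟨c, g, g1, g2⟩ := (hB r x).1 h
    obtain ⟨A, G, K, a1, a2, a3, a4⟩ := uew_lift (hL.2.1 r _ r1 r2 g1)
    have g4 : cd r c g ≤ (m + 1) * (r - k) := c2 r _ r1 (by linarith) g2
    obtain ⟨u, u1, u2⟩ := cd_lift r c g
    have g5 : |u| ≤ 1 - (1 - ((m : ℝ) + 1) * (r - k)) := by linarith
    have hd : 0 < 1 - ((m : ℝ) + 1) * (r - k) := by linarith
    generalize 1 - ((m : ℝ) + 1) * (r - k) = d at *
    rw [abs_le] at g5
    obtain ⟨p1, p2, p3, p4, p5⟩ := uew_rough hd hs a4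
    have e2 : G = c + u := a2.uniq u1 (by linarith [g5.1]) (by linarith [g5.2])
    rw [cd_congr hr a1 a3]
    rcases uew_one hd hs a4 (by linarith [g5.2]) (by linarith [g5.1]) with f | f
    · exact le_cd_of (u := K - A) hr (Cg.of_eq (by ring)) f.1 (by linarith [f.2])
    · exact le_cd_of (u := K - A + r) hr (Cg.down (by ring)) (by linarith [f.2])
        (by linarith [f.1])
  · have hs := uew_pos r2
    have hs' := uew_half hm r1
    refine (hB r _).2 ⟨a + 1, a + 2 - (r - k),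
      hL.2.2 r a _ _ (a + (3 - (r - k))) r1 ⟨by linarith, by linarith, by linarith, by linarith⟩,
      c3 r _ _ (by linarith) (abs_le.2 ⟨by linarith, by linarith⟩)⟩

end Pool.Agent.P.MP_3f5ded_co.UG
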