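import Pool.Agent.P.MP_3f5ded_co.UGViz

set_option autoImplicit false

namespace Pool.Agent.P.MP_3f5ded_co.UG

open Finset Filter Topology

variable {V : Type}

/-- Colourings with closed constraints. -/
def ColC (G : SimpleGraph V) (r : ℝ) (c : G.edgeSet → ℝ) : Prop :=
  1 ≤ r ∧ (∀ e, 0 ≤ c e ∧ c e ≤ r) ∧
    ∀ e f : G.edgeSet, e ≠ f → (∃ v : V, v ∈ e.1 ∧ v ∈ f.1) →
      1 ≤ |c e - c f| ∧ |c e - c f| ≤ r - 1

lemma ColC.toCol {G : SimpleGraph V} {r r' : ℝ} {c : G.edgeSet → ℝ} (h : ColC G r c)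
    (hr : r < r') : Col G r' :=
  ⟨c, fun e => ⟨(h.2.1 e).1, (h.2.1 e).2.trans_lt hr⟩, fun e f a b =>
    ⟨(h.2.2 e f a b).1, (h.2.2 e f a b).2.trans (by linarith)⟩⟩

/-- The least circle length for closed constraints is attained. -/
lemma exists_min [Finite V] (G : SimpleGraph V) {B : ℝ} (h1 : 1 ≤ B) (h2 : Col G B) :
    ∃ ρ c, ColC G ρ c ∧ ∀ r c', ColC G r c' → ρ ≤ r := by
  let S : Set (ℝ × (G.edgeSet → ℝ)) := {p | p.1 ≤ B ∧ ColC G p.1 p.2}
  have hc : IsClosed S := by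
    simp only [S, ColC, Set.ofPred_and, Set.ofPred_forall]
    refine (isClosed_le (by fun_prop) (by fun_prop)).inter
      ((isClosed_le (by fun_prop) (by fun_prop)).inter (IsClosed.inter
        (isClosed_iInter fun e => ?_) (isClosed_iInter fun e => isClosed_iInter fun f =>
          isClosed_iInter fun _ => isClosed_iInter fun _ => ?_))) <;>
      exact (isClosed_le (by fun_prop) (by fun_prop)).inter (isClosed_le (by fun_prop) (by fun_prop))
  have hk : IsCompact S := (isCompact_Icc (a := ((0 : ℝ), fun _ => (0 : ℝ)))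
      (b := (B, fun _ => B))).of_isClosed_subset hc fun p hp =>
    ⟨⟨by linarith [hp.2.1], fun e => (hp.2.2.1 e).1⟩, hp.1, fun e => (hp.2.2.1 e).2.trans hp.1⟩
  obtain ⟨c, c1, c2⟩ := h2
  obtain ⟨p, hp, hm⟩ := hk.exists_isMinOn ⟨(B, c), le_rfl, h1,
    fun e => ⟨(c1 e).1, (c1 e).2.le⟩, c2⟩ continuous_fst.continuousOn
  refine ⟨p.1, p.2, hp.2, fun r c' h => ?_⟩
  rcases le_total r B with e | e
  · exact hm (a := (r, c')) ⟨e, h⟩
  · exact hp.1.trans e

/-- An additive map that kills `1` and is negative at a given irrational number. -/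
lemma exists_dual {ρ : ℝ} (h : ¬ ∃ q : ℚ, ρ = q) :
    ∃ φ : ℝ →+ ℝ, φ 1 = 0 ∧ φ ρ < 0 := by
  have hx : ρ ∉ Submodule.span ℚ ({1} : Set ℝ) := by
    rw [Submodule.mem_span_singleton]
    rintro ⟨q, hq⟩
    exact h ⟨q, by rw [← hq, Rat.smul_one_eq_cast]⟩
  obtain ⟨f, f1, f2⟩ := Submodule.exists_dual_map_eq_bot_of_notMem hx inferInstance
  have f3 : f 1 = 0 := by
    have : f 1 ∈ (Submodule.span ℚ ({1} : Set ℝ)).map f :=
      Submodule.mem_map_of_mem (Submodule.mem_span_singleton_self _)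
    rwa [f2, Submodule.mem_bot] at this
  have f4 : (0 : ℝ) < (f ρ : ℝ) * f ρ := mul_self_pos.2 (by exact_mod_cast f1)
  refine ⟨⟨⟨fun x => -(f ρ : ℝ) * f x, by simp⟩, fun x y => by simp [mul_add]⟩, by simp [f3], ?_⟩
  change -(f ρ : ℝ) * f ρ < 0
  linarith

lemma ev_nonneg (φ : ℝ →+ ℝ) {u : ℝ} (hu : 0 ≤ u) : ∀ᶠ t in 𝓝 (0 : ℝ), 0 ≤ u + t * φ u := by
  rcases hu.eq_or_lt with rfl | h
  · simp
  · have : ContinuousAt (fun t : ℝ => u + t * φ u) 0 := by fun_prop
    exact (this.eventually (lt_mem_nhds (by simpa using h))).mono fun t ht => ht.le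

/-- At an irrational circle length a colouring can be shrunk. -/
lemma ColC.shrink [Finite V] {G : SimpleGraph V} {ρ : ℝ} {c : G.edgeSet → ℝ} (h : ColC G ρ c)
    (hρ : ¬ ∃ q : ℚ, ρ = q) : ∃ r c', ColC G r c' ∧ r < ρ := by
  obtain ⟨φ, p1, p2⟩ := exists_dual hρ
  have key : ∀ᶠ t in 𝓝 (0 : ℝ), ColC G (ρ + t * φ ρ) (fun e => c e + t * φ (c e)) := by
    refine Eventually.and ?_ (Eventually.and (eventually_all.2 fun e => Eventually.and ?_ ?_)
      (eventually_all.2 fun e => eventually_all.2 fun f => eventually_all.2 fun a =>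
        eventually_all.2 fun b => ?_))
    · refine (ev_nonneg φ (sub_nonneg.2 h.1)).mono fun t ht => ?_
      rw [map_sub, p1] at ht
      linarith
    · exact ev_nonneg φ (h.2.1 e).1
    · refine (ev_nonneg φ (sub_nonneg.2 (h.2.1 e).2)).mono fun t ht => ?_
      rw [map_sub] at ht
      linarith
    · obtain ⟨a1, a2⟩ := h.2.2 e f a b
      obtain ⟨a3, a4⟩ := abs_le.1 a2
      refine Eventually.and ?_ (((ev_nonneg φ (sub_nonneg.2 a3)).and
        (ev_nonneg φ (sub_nonneg.2 a4))).mono fun t ht => ?_)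
      · rcases le_abs.1 a1 with a5 | a5
        all_goals
          refine (ev_nonneg φ (sub_nonneg.2 a5)).mono fun t ht => ?_
          simp only [map_sub, map_neg, p1] at ht
        · exact le_abs.2 (Or.inl (by linarith))
        · exact le_abs.2 (Or.inr (by linarith))
      · simp only [map_sub, map_neg, p1] at ht
        exact abs_le.2 ⟨by linarith [ht.1], by linarith [ht.2]⟩
  obtain ⟨t, h1, h2⟩ := ((key.filter_mono nhdsWithin_le_nhds).and
    (self_mem_nhdsWithin (s := Set.Ioi (0 : ℝ)))).exists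
  exact ⟨_, _, h1, by linarith [mul_neg_of_pos_of_neg h2 p2]⟩

/-- The circular chromatic index is rational. -/
theorem sInf_rat [Finite V] (G : SimpleGraph V) {B : ℝ} (h1 : 1 ≤ B) (h2 : Col G B) :
    ∃ q : ℚ, sInf {r : ℝ | 1 ≤ r ∧ Col G r} = q := by
  obtain ⟨ρ, c, hc, hm⟩ := exists_min G h1 h2
  have e : sInf {r : ℝ | 1 ≤ r ∧ Col G r} = ρ := by
    refine IsGLB.csInf_eq ⟨?_, fun b hb => le_of_forall_gt_imp_ge_of_dense fun r hr =>
      hb ⟨by linarith [hc.1], hc.toCol hr⟩⟩ ⟨B, h1, h2⟩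
    rintro r ⟨a1, c', a2, a3⟩
    exact hm r c' ⟨a1, fun e => ⟨(a2 e).1, (a2 e).2.le⟩, a3⟩
  rw [e]
  by_contra hρ
  obtain ⟨r, c', a1, a2⟩ := hc.shrink hρ
  exact absurd (hm r c' a1) (not_le.2 a2)

/-- The degree of a vertex is a lower bound. -/
theorem Col.degree_le [Fintype V] {G : SimpleGraph V} [DecidableRel G.Adj] {r : ℝ} (h : Col G r)
    (h1 : 1 ≤ r) (v : V) : (G.degree v : ℝ) ≤ r := by
  classical
  obtain ⟨c, -, c2⟩ := h
  let d : G.neighborSet v → ℝ := fun w => c ⟨s(v, w.1), w.2⟩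
  have hd : ∀ w w', w ≠ w' → 1 ≤ |d w - d w'| ∧ |d w - d w'| ≤ r - 1 := fun w w' hne =>
    c2 _ _ (fun e => hne (Subtype.ext (Sym2.congr_right.1 (congrArg Subtype.val e))))
      ⟨v, Sym2.mem_mk_left _ _, Sym2.mem_mk_left _ _⟩
  rw [← SimpleGraph.card_neighborSet_eq_degree]
  rcases isEmpty_or_nonempty (G.neighborSet v) with he | he
  · rw [Fintype.card_eq_zero, Nat.cast_zero]
    linarith
  obtain ⟨m, hm⟩ := Finite.exists_min d
  have hb : ∀ w, d w - d m ≤ r - 1 := fun w => by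
    by_cases e : w = m
    · rw [e]
      linarith
    · exact (le_abs_self _).trans (hd w m e).2
  have h2 : (univ : Finset (G.neighborSet v)).card ≤ (range (⌊r - 1⌋₊ + 1)).card := by
    refine card_le_card_of_injOn (fun w => ⌊d w - d m⌋₊)
      (fun w _ => mem_coe.2 (mem_range.2 (Nat.lt_succ_of_le (Nat.floor_mono (hb w)))))
      fun w _ w' _ e => ?_
    by_contra hne
    have a1 := Nat.floor_le (sub_nonneg.2 (hm w))
    have a2 := Nat.floor_le (sub_nonneg.2 (hm w'))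
    have a3 := Nat.lt_floor_add_one (d w - d m)
    have a4 := Nat.lt_floor_add_one (d w' - d m)
    have a5 : (⌊d w - d m⌋₊ : ℝ) = ⌊d w' - d m⌋₊ := congrArg Nat.cast e
    rcases le_abs.1 (hd w w' hne).1 with a6 | a6 <;> linarith
  rw [card_univ, card_range] at h2
  have h3 : ((Fintype.card (G.neighborSet v) : ℕ) : ℝ) ≤ ⌊r - 1⌋₊ + 1 := by exact_mod_cast h2
  linarith [Nat.floor_le (sub_nonneg.2 h1)]

/-- The known inclusion: the value of a nonempty `k`-regular graph is a rational in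
`[k, k + 1]`. -/
theorem value_mem {n k : ℕ} (G : SimpleGraph (Fin n)) [DecidableRel G.Adj] (hn : 0 < n)
    (h : G.IsRegularOfDegree k) :
    ∃ q : ℚ, sInf {r : ℝ | 1 ≤ r ∧ Col G r} = q ∧ (k : ℚ) ≤ q ∧ q ≤ k + 1 := by
  have h1 : (1 : ℝ) ≤ k + 1 := by linarith [Nat.cast_nonneg (α := ℝ) k]
  have h2 := col_succ G h
  obtain ⟨q, hq⟩ := sInf_rat G h1 h2
  have h3 : (k : ℝ) ≤ q := by
    rw [← hq]
    refine le_csInf ⟨_, h1, h2⟩ fun r hr => ?_
    rw [← h ⟨0, hn⟩]
    exact hr.2.degree_le hr.1 _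
  have h4 : (q : ℝ) ≤ k + 1 := by
    rw [← hq]
    exact csInf_le ⟨1, fun r hr => hr.1⟩ ⟨h1, h2⟩
  exact ⟨q, hq, by exact_mod_cast h3, by exact_mod_cast h4⟩

/-- A graph whose value is not `1` has a vertex. -/
theorem pos_of_value {n : ℕ} (G : SimpleGraph (Fin n)) {x : ℝ} (hx : 1 < x)
    (h : IsLeast {r : ℝ | 1 ≤ r ∧ Col G r} x) : 0 < n := by
  rcases n with _ | n
  · have he : ∀ e : G.edgeSet, False := by
      rintro ⟨e, -⟩
      induction e using Sym2.ind with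
      | _ u v => exact u.elim0
    exact absurd (h.2 ⟨le_rfl, fun _ => 0, fun e => (he e).elim, fun e => (he e).elim⟩)
      (not_le.2 hx)
  · exact n.succ_pos

end Pool.Agent.P.MP_3f5ded_co.UG
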