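import Pool.Agent.P.MP_3f5ded_co.UGMain
import Pool.Agent.P.MP_3f5ded_co.UGRat

set_option autoImplicit false

namespace Pool.Agent.P.MP_3f5ded_co.UG

open Sum

/-- The value `k` is attained by the complete bipartite graph. -/
theorem end_low (k : ℕ) (hk : 1 ≤ k) :
    ∃ (n : ℕ) (G : SimpleGraph (Fin n)) (_ : DecidableRel G.Adj), G.IsRegularOfDegree k ∧
      IsLeast {r : ℝ | 1 ≤ r ∧ Col G r} (k : ℝ) := by
  obtain ⟨m, rfl⟩ : ∃ m, k = m + 1 := ⟨k - 1, by omega⟩
  let e : Fin (m + 1) × Bool ≃ Fin ((m + 1) * 2) :=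
    (Equiv.prodCongr (Equiv.refl _) finTwoEquiv.symm).trans finProdFinEquiv
  let G : SimpleGraph (Fin ((m + 1) * 2)) :=
    { Adj := fun u v => (e.symm u).2 ≠ (e.symm v).2
      symm := ⟨fun _ _ h => h.symm⟩
      loopless := ⟨fun _ h => h rfl⟩ }
  have hreg : ∀ v, G.neighborSet v = Set.range fun i : Fin (m + 1) => e (i, !(e.symm v).2) := by
    intro v
    ext w
    constructor
    · intro h
      refine ⟨(e.symm w).1, e.symm.injective ?_⟩
      rw [e.symm_apply_apply]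
      exact Prod.ext rfl (Bool.eq_not_of_ne (Ne.symm h)).symm
    · rintro ⟨i, rfl⟩
      change _ ≠ (e.symm (e _)).2
      rw [e.symm_apply_apply]
      exact (Bool.not_ne_self _).symm
  have hr : G.IsRegularOfDegree (m + 1) := fun v => by
    rw [← SimpleGraph.card_neighborSet_eq_degree, ← Nat.card_eq_fintype_card, hreg,
      Nat.card_range_of_injective, Nat.card_eq_fintype_card, Fintype.card_fin]
    exact fun i j h => congrArg Prod.fst (e.injective h)
  have hc : VPr G (fun u v => (e.symm u).1 + (e.symm v).1) := by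
    refine ⟨fun u v => add_comm _ _, fun u v w h1 h2 h3 => e.symm.injective
      (Prod.ext (add_left_cancel h3) ?_)⟩
    exact (Bool.eq_not_of_ne (Ne.symm h1)).trans (Bool.eq_not_of_ne (Ne.symm h2)).symm
  refine ⟨_, G, inferInstance, hr, ⟨by exact_mod_cast hk, hc.toCol⟩, fun r h => ?_⟩
  rw [← hr (e (0, true))]
  exact h.2.degree_le h.1 _

/-- A closed pole that is not colourable on `[a, k + 1)` has the value `k + 1`. -/
theorem end_high_of {k : ℕ} {ok : ℝ → Prop} {R : ℝ → (Fin 0 → ℝ) → Prop}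
    (h : Real' k ok (Fin 0) true R) {a : ℝ} (ha : 0 < a) (ha' : a < k + 1)
    (hok : ∀ r, a ≤ r → r < k + 1 → ok r) (hR : ∀ r x, ok r → ¬ R r x) :
    ∃ (n : ℕ) (G : SimpleGraph (Fin n)) (_ : DecidableRel G.Adj), G.IsRegularOfDegree k ∧
      IsLeast {r : ℝ | 1 ≤ r ∧ Col G r} ((k : ℝ) + 1) := by
  obtain ⟨n, G, dec, hreg, hG⟩ := h.close
  refine ⟨n, G, dec, hreg, ⟨by linarith [Nat.cast_nonneg (α := ℝ) k], col_succ G hreg⟩, ?_⟩
  rintro r ⟨-, b2⟩
  by_contra hlt
  have b4 : ok (max r a) := hok _ (le_max_right _ _) (max_lt (not_le.1 hlt) ha')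
  exact hR _ ![] b4 ((hG _ b4 (ha.trans_le (le_max_right _ _)) ![]).1 (b2.mono (le_max_left _ _)))

/-- The value `8` is attained by a `7`-regular graph. -/
theorem end_eight :
    ∃ (n : ℕ) (G : SimpleGraph (Fin n)) (_ : DecidableRel G.Adj), G.IsRegularOfDegree 7 ∧
      IsLeast {r : ℝ | 1 ≤ r ∧ Col G r} (8 : ℝ) := by
  obtain ⟨RD, hD, D1, -⟩ := realD
  obtain ⟨n, G, dec, h1, h2⟩ := end_high_of (hD.clo ((realE.ser realE).ser realE)) (a := 15 / 2)
    (by norm_num) (by norm_num) (fun r a b => ⟨a, by norm_num at b; exact b⟩) (by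
      rintro r x hr ⟨y, a1, u, ⟨v, a2, a3⟩, a4⟩
      have hp : 0 < r := by linarith [hr.1]
      have b1 := D1 r y hr a1
      have b2 : cd r (y 0) v ≤ 2 * r - 15 := a2
      have b3 : cd r v u ≤ 2 * r - 15 := a3
      have b4 : cd r u (y 1) ≤ 2 * r - 15 := a4
      linarith [cd_tri hp (y 0) u (y 1), cd_tri hp (y 0) v u, hr.2])
  exact ⟨n, G, dec, h1, by norm_num at h2; exact h2⟩

/-- Assembly: once the open lower half is known, the values for `k = 7` are determined. -/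
theorem seven_iff (low : ∀ x : ℚ, 7 < x → x < 15 / 2 →
      ∃ (n : ℕ) (G : SimpleGraph (Fin n)) (_ : DecidableRel G.Adj), G.IsRegularOfDegree 7 ∧
        IsLeast {r : ℝ | 1 ≤ r ∧ Col G r} (x : ℝ)) (x : ℝ) :
    (∃ (n : ℕ) (G : SimpleGraph (Fin n)) (_ : DecidableRel G.Adj), 0 < n ∧
      G.IsRegularOfDegree 7 ∧ sInf {r : ℝ | 1 ≤ r ∧ Col G r} = x) ↔
      ∃ q : ℚ, x = q ∧ 7 ≤ q ∧ q ≤ 8 := by
  constructor
  · rintro ⟨n, G, dec, hn, hreg, rfl⟩
    obtain ⟨q, h1, h2, h3⟩ := value_mem G hn hreg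
    exact ⟨q, h1, by exact_mod_cast h2, by norm_num at h3; exact h3⟩
  · rintro ⟨q, rfl, h1, h2⟩
    have key : ∃ (n : ℕ) (G : SimpleGraph (Fin n)) (_ : DecidableRel G.Adj),
        G.IsRegularOfDegree 7 ∧ IsLeast {r : ℝ | 1 ≤ r ∧ Col G r} (q : ℝ) := by
      rcases h1.eq_or_lt with rfl | h1
      · exact_mod_cast end_low 7 (by norm_num)
      rcases h2.eq_or_lt with rfl | h2
      · exact_mod_cast end_eight
      rcases lt_or_ge q (15 / 2) with h3 | h3
      · exact low q h1 h3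
      · exact main q h3 h2
    obtain ⟨n, G, dec, hreg, hl⟩ := key
    have h3 : (7 : ℝ) ≤ q := by exact_mod_cast h1
    exact ⟨n, G, dec, pos_of_value G (by linarith) hl, hreg, hl.csInf_eq⟩

end Pool.Agent.P.MP_3f5ded_co.UG
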