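import Pool.Agent.P.MP_3f5ded_co.ULGlue

set_option autoImplicit false

namespace Pool.Agent.P.MP_3f5ded_co.UG

open Sum

/-- Elastic wires in series. -/
lemma ulf_chain {k : ℕ} {E : Pole k (Fin 2)} (hE : IsE k E) (n : ℕ) :
    ∃ C : Pole k (Fin 2), C.Inj ∧ (∀ (r : ℝ) x, 1 ≤ r → r < k + 1 / 2 → C.Rel r x →
      cd r (x 0) (x 1) ≤ (n + 1) * (r - k)) ∧
      ∀ r a b : ℝ, 0 < r → |b - a| ≤ (n + 1) * (r - k) → C.Rel r ![a, b] := by
  have hE3 : ∀ r a b : ℝ, 0 < r → |b - a| ≤ r - k → E.Rel r ![a, b] := fun r a b hr h =>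
    hE.2.2 r _ ((cd_le_of (u := b - a) hr (Cg.of_eq (by simp))).trans h)
  induction n with
  | zero =>
    exact ⟨E, hE.1, fun r x h1 h2 h => by simpa using hE.2.1 r x h1 h2 h,
      fun r a b hr h => hE3 r a b hr (by simpa using h)⟩
  | succ n ih =>
    obtain ⟨C, c1, c2, c3⟩ := ih
    obtain ⟨A, a1, a2⟩ := ((c1.real fun _ => True).ser (hE.1.real fun _ => True)).pole
    refine ⟨A, a1, fun r x h1 h2 h => ?_, fun r a b hr h => (a2 r _).2 ?_⟩
    · obtain ⟨y, y1, y2⟩ := (a2 r x).1 h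
      have b1 : cd r (x 0) y ≤ _ := c2 r _ h1 h2 y1
      have b2 : cd r y (x 1) ≤ _ := hE.2.1 r _ h1 h2 y2
      have b3 := cd_tri (r := r) (by linarith) (x 0) y (x 1)
      push_cast
      linarith
    · have hn : (0 : ℝ) < n + 2 := by positivity
      obtain ⟨v, hv⟩ : ∃ v : ℝ, b - a = (n + 2) * v := ⟨(b - a) / (n + 2), by field_simp⟩
      have h1 : |v| ≤ r - k := by
        rw [hv, abs_mul, abs_of_pos hn] at h
        push_cast at h
        exact le_of_mul_le_mul_left (h.trans (le_of_eq (by ring))) hn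
      refine ⟨b - v, c3 r a _ hr ?_, hE3 r _ b hr (by simpa using h1)⟩
      have e : b - v - a = (n + 1) * v := by linarith
      rw [e, abs_mul, abs_of_pos (by positivity : (0 : ℝ) < n + 1)]
      exact mul_le_mul_of_nonneg_left h1 (by positivity)

lemma ulf_gap {k : ℕ} {r a c A C : ℝ} {M : ℤ} (hr : 0 < r) (ha : Cg r a A) (hc : Cg r c C)
    (h1 : 1 ≤ M) (h2 : M < k) (h3 : C + M ≤ A) (h4 : A ≤ C + M + (r - k)) :
    1 ≤ cd r c a ∧ (M = 1 ∨ M + 1 = k → cd r c a ≤ 1 + (r - k)) ∧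
      (2 ≤ M ∧ M + 2 ≤ k → 2 ≤ cd r c a) := by
  rw [cd_congr hr hc ha]
  have e : Cg r A (C + (A - C)) := Cg.of_eq (by ring)
  have b1 : (1 : ℝ) ≤ M := by exact_mod_cast h1
  have b2 : (M : ℝ) + 1 ≤ k := by exact_mod_cast h2
  refine ⟨le_cd_of hr e (by linarith) (by linarith), ?_, fun h => ?_⟩
  · rintro (h | h)
    · have b3 : (M : ℝ) = 1 := by exact_mod_cast h
      exact (cd_le_of hr e).trans (abs_le.2 ⟨by linarith, by linarith⟩)
    · have b3 : (M : ℝ) + 1 = k := by exact_mod_cast h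
      exact (cd_le_of (u := A - C - r) hr (Cg.up (by ring))).trans
        (abs_le.2 ⟨by linarith, by linarith⟩)
  · have b3 : (2 : ℝ) ≤ M := by exact_mod_cast h.1
    have b4 : (M : ℝ) + 2 ≤ k := by exact_mod_cast h.2
    exact le_cd_of hr e (by linarith) (by linarith)

lemma ulf_lf {k : ℕ} {r a0 a1 c0 c1 : ℝ} (hr : 0 < r) (h : LF r (XD k r) a0 a1 c0 c1) :
    1 ≤ cd r c0 a0 ∧ ((cd r c0 a0 ≤ 1 + (r - k) ∧ cd r c1 a1 ≤ 1 + (r - k)) ∨
      (2 ≤ cd r c0 a0 ∧ 2 ≤ cd r c1 a1)) := by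
  obtain ⟨M, A0, A1, C0, C1, h1, h2, h3, h4, m1, m2, b1, b2, b3, b4, -⟩ := h
  obtain ⟨g1, g2, g3⟩ := ulf_gap hr h1 h3 m1 m2 b1 b2
  obtain ⟨-, g4, g5⟩ := ulf_gap hr h2 h4 m1 m2 b3 b4
  refine ⟨g1, ?_⟩
  by_cases hM : M = 1 ∨ M + 1 = k
  · exact Or.inl ⟨g2 hM, g4 hM⟩
  · exact Or.inr ⟨g3 (by omega), g5 (by omega)⟩

lemma ulf_pr {k : ℕ} {r a b c d : ℝ} (hr : 0 < r) (h : PR r (XD k r) (q4 a b c d)) :
    1 ≤ cd r a b ∧ ((cd r a b ≤ 1 + (r - k) ∧ cd r c d ≤ 1 + (r - k)) ∨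
      (2 ≤ cd r a b ∧ 2 ≤ cd r c d)) := by
  rcases h with h | h
  · exact ulf_lf hr h
  · rw [cd_symm hr c d]
    exact ulf_lf hr h

/-- The wire ends of a cap. -/
abbrev ulfC : Type := ((Unit × (Bool × Bool)) ⊕ (Unit × Fin 2)) ⊕ Fin 2

/-- The wires of a cap. -/
def ulfCt : ulfC → ulfC
  | inl (inl (_, (false, false))) => inr 0
  | inl (inl (_, (false, true))) => inr 1
  | inl (inl (_, (true, false))) => inl (inr ((), 0))
  | inl (inl (_, (true, true))) => inl (inr ((), 1))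
  | inl (inr (_, j)) => ![inl (inl ((), (true, false))), inl (inl ((), (true, true)))] j
  | inr j => ![inl (inl ((), (false, false))), inl (inl ((), (false, true)))] j

/-- The edges of a cap. -/
def ulfCe : ulfC → Fin 4
  | inl (inl (_, (false, false))) => 0
  | inl (inl (_, (false, true))) => 1
  | inl (inl (_, (true, false))) => 2
  | inl (inl (_, (true, true))) => 3
  | inl (inr (_, j)) => ![2, 3] j
  | inr j => ![0, 1] j

set_option synthInstance.maxSize 1000 in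
/-- One side of a fat link closed by a pole with two ports. -/
lemma ulf_cap {k : ℕ} (X : Pole k (Bool × Bool)) {C : Pole k (Fin 2)} (hC : C.Inj) :
    ∃ A : Pole k (Fin 2), ∀ (r a b : ℝ), A.Rel r ![a, b] ↔
      ∃ c d, X.Rel r (q4 a b c d) ∧ C.Rel r ![c, d] := by
  obtain ⟨A, -, hA⟩ := net2 (fun _ : Unit => X) (fun _ : Unit => C) (fun _ => X.tag_true)
    (fun _ => hC.tag) ulfCt (by decide) (by decide) (by decide) (by decide) (fun _ _ => True)
    (fun _ _ _ _ _ _ _ => trivial) ulfCe ![inr 0, inr 1, inl (inr ((), 0)), inl (inr ((), 1))]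
    (by decide) (by decide) (by decide)
  have e1 : ∀ (w : Fin 4 → ℝ) (l : Unit), (fun p => w (ulfCe (inl (inl (l, p))))) =
      q4 (w 0) (w 1) (w 2) (w 3) := fun w l => by
    funext p
    rcases p with ⟨_ | _, _ | _⟩ <;> rfl
  have e2 : ∀ (w : Fin 4 → ℝ) (l : Unit), (fun p => w (ulfCe (inl (inr (l, p))))) =
      ![w 2, w 3] := fun w l => by
    funext p
    fin_cases p <;> rfl
  refine ⟨A, fun r a b => (hA r _).trans ?_⟩
  simp only [e1, e2]
  constructor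
  · rintro ⟨w, w1, w2, w3⟩
    have h0 : w 0 = a := w1 0
    have h1 : w 1 = b := w1 1
    rw [h0, h1] at w2
    exact ⟨_, _, w2 (), w3 ()⟩
  · rintro ⟨c, d, h1, h2⟩
    refine ⟨![a, b, c, d], fun p => ?_, fun _ => h1, fun _ => h2⟩
    fin_cases p <;> rfl

/-- The wire ends of the far gadget. -/
abbrev ulfF : Type := ((Fin 3 × Fin 2) ⊕ (Unit × (Bool × Bool))) ⊕ Fin 2

/-- The wires of the far gadget. -/
def ulfFt : ulfF → ulfF
  | inl (inl (l, j)) => ![![inl (inr ((), (false, false))), inl (inl (1, 0))],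
      ![inl (inl (0, 1)), inl (inr ((), (false, true)))],
      ![inl (inr ((), (true, false))), inr 1]] l j
  | inl (inr (_, (false, false))) => inl (inl (0, 0))
  | inl (inr (_, (false, true))) => inl (inl (1, 1))
  | inl (inr (_, (true, false))) => inl (inl (2, 0))
  | inl (inr (_, (true, true))) => inr 0
  | inr j => ![inl (inr ((), (true, true))), inl (inl (2, 1))] j

/-- The edges of the far gadget. -/
def ulfFe : ulfF → Fin 6
  | inl (inl (l, j)) => ![![0, 1], ![1, 2], ![3, 5]] l j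
  | inl (inr (_, (false, false))) => 0
  | inl (inr (_, (false, true))) => 2
  | inl (inr (_, (true, false))) => 3
  | inl (inr (_, (true, true))) => 4
  | inr j => ![4, 5] j

set_option synthInstance.maxSize 1000 in
lemma ulf_net {k : ℕ} (A E : Pole k (Fin 2)) (X : Pole k (Bool × Bool)) :
    ∃ B : Pole k (Fin 2), B.Inj ∧ ∀ (r : ℝ) x, B.Rel r x ↔ ∃ a b c d, A.Rel r ![a, b] ∧
      A.Rel r ![b, c] ∧ E.Rel r ![d, x 1] ∧ X.Rel r (q4 a c d (x 0)) := by
  obtain ⟨B, hB1, hB⟩ := net2 (![A, A, E] : Fin 3 → Pole k (Fin 2)) (fun _ : Unit => X)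
    (fun _ => Pole.tag_true _) (fun _ => X.tag_true) ulfFt (by decide) (by decide) (by decide)
    (by decide) Eq (by decide) ulfFe ![inl (inl (0, 0)), inl (inl (0, 1)), inl (inl (1, 1)),
      inl (inl (2, 0)), inr 0, inr 1] (by decide) (by decide) (by decide)
  have e1 : ∀ (w : Fin 6 → ℝ) (l : Unit), (fun p => w (ulfFe (inl (inr (l, p))))) =
      q4 (w 0) (w 2) (w 3) (w 4) := fun w l => by
    funext p
    rcases p with ⟨_ | _, _ | _⟩ <;> rfl
  have e2 : ∀ (w : Fin 6 → ℝ) (l : Fin 3), (fun p => w (ulfFe (inl (inl (l, p))))) =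
      ![![w 0, w 1], ![w 1, w 2], ![w 3, w 5]] l := fun w l => by
    funext p
    fin_cases l <;> fin_cases p <;> rfl
  refine ⟨B, hB1.inj, fun r x => (hB r x).trans ?_⟩
  simp only [e1, e2]
  constructor
  · rintro ⟨w, w1, w2, w3⟩
    have h0 : w 4 = x 0 := w1 0
    have h1 : w 5 = x 1 := w1 1
    rw [h0] at w3
    rw [h1] at w2
    exact ⟨_, _, _, _, w2 0, w2 1, w2 2, w3 ()⟩
  · rintro ⟨a, b, c, d, h1, h2, h3, h4⟩
    refine ⟨![a, b, c, d, x 0, x 1], fun p => ?_, fun l => ?_, fun _ => h4⟩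
    · fin_cases p <;> rfl
    · fin_cases l
      exacts [h1, h2, h3]

/-- The far gadget. -/
theorem exists_F {k : ℕ} (hk : 5 ≤ k) {E : Pole k (Fin 2)} (hE : IsE k E)
    {X : Pole k (Bool × Bool)} (hX : IsX k X) {r0 : ℝ} (h1 : (k : ℝ) < r0) (h2 : r0 < k + 1 / 2) :
    ∃ A, IsF k r0 A := by
  have hk' : (5 : ℝ) ≤ k := by exact_mod_cast hk
  have hs : 0 < r0 - k := by linarith
  obtain ⟨n, n1, n2⟩ : ∃ n : ℕ, 1 ≤ (n + 1) * (r0 - k) ∧ (n + 1) * (r0 - k) < 2 := by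
    have a1 := Nat.lt_floor_add_one (1 / (r0 - k))
    have a2 := Nat.floor_le (by positivity : 0 ≤ 1 / (r0 - k))
    rw [div_lt_iff₀ hs] at a1
    rw [le_div_iff₀ hs] at a2
    exact ⟨_, a1.le, by linarith⟩
  obtain ⟨C, c1, c2, c3⟩ := ulf_chain hE n
  obtain ⟨A, hA⟩ := ulf_cap X c1
  obtain ⟨B, b1, hB⟩ := ulf_net A E X
  refine ⟨B, b1, fun r x r1 r2 h => ?_, fun a => (hB _ _).2 ⟨a, a + 1, a + 2, a + 2, ?_, ?_, ?_,
    (hX.2.2 r0 a h1.le).2⟩⟩
  · have hr : 0 < r := by linarith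
    have key : ∀ a b, A.Rel r ![a, b] → ∃ u, Cg r b (a + u) ∧ 1 ≤ |u| ∧ |u| ≤ 1 + (r - k) := by
      intro a b hab
      obtain ⟨c, d, g1, g2⟩ := (hA r a b).1 hab
      have g3 : cd r c d ≤ _ := c2 r _ (by linarith) (by linarith) g2
      have g4 : ((n : ℝ) + 1) * (r - k) ≤ (n + 1) * (r0 - k) :=
        mul_le_mul_of_nonneg_left (by linarith) (by positivity)
      obtain ⟨g5, g6⟩ := ulf_pr hr (hX.2.1 r _ (by linarith) (by linarith) g1)
      obtain ⟨u, u1, u2⟩ := cd_lift r a b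
      refine ⟨u, u1, u2 ▸ g5, u2 ▸ ?_⟩
      rcases g6 with g6 | g6
      · exact g6.1
      · linarith [g6.2]
    obtain ⟨a, b, c, d, g1, g2, g3, g4⟩ := (hB r x).1 h
    obtain ⟨u, u1, u2, u3⟩ := key a b g1
    obtain ⟨v, v1, v2, v3⟩ := key b c g2
    have w1 : Cg r c (a + (u + v)) := add_assoc a u v ▸ v1.trans (u1.add v)
    have g5 : cd r d (x 1) ≤ r - k := hE.2.1 r _ (by linarith) (by linarith) g3
    obtain ⟨g6, g7⟩ := ulf_pr hr (hX.2.1 r _ (by linarith) (by linarith) g4)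
    have g8 := g6.trans (cd_le_of hr w1)
    have g9 : 2 ≤ cd r a c := by
      rw [abs_le] at u3 v3
      rw [le_abs] at u2 v2 g8
      rcases u2 with u2 | u2 <;> rcases v2 with v2 | v2
      · exact le_cd_of hr w1 (by linarith) (by linarith)
      · rcases g8 with g8 | g8 <;> linarith
      · rcases g8 with g8 | g8 <;> linarith
      · exact le_cd_of (u := u + v + r) hr (w1.trans (Cg.down (by ring))) (by linarith)
          (by linarith)
    have g10 := cd_tri hr d (x 1) (x 0)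
    rw [cd_symm hr (x 1)] at g10
    rcases g7 with g7 | g7
    · linarith [g7.1]
    · linarith [g7.2]
  · exact (hA _ _ _).2 ⟨_, _, (hX.2.2 r0 a h1.le).1, c3 _ _ _ (by linarith) (by simpa using n1)⟩
  · have := (hX.2.2 r0 (a + 1) h1.le).1
    rw [show a + 1 + 1 = a + 2 by ring] at this
    refine (hA _ _ _).2 ⟨_, _, this, c3 _ _ _ (by linarith) ?_⟩
    rw [show a + 1 - (a + 2) = -1 by ring]
    simpa using n1
  · refine hE.2.2 _ _ ((cd_le_of (u := -(r0 - k)) (by linarith) (Cg.of_eq ?_)).trans ?_)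
    · show a + (2 - (r0 - k)) = a + 2 + -(r0 - k)
      ring
    · rw [abs_neg, abs_of_pos hs]

lemma ulf_clo {k : ℕ} (A : Pole k (Fin 2)) {C : Pole k (Fin 2)} (hC : C.Inj) :
    ∃ B : Pole k (Fin 0), ∀ r x, B.Rel r x ↔ ∃ y, A.Rel r y ∧ C.Rel r y := by
  obtain ⟨B, -, hB⟩ := (glueB (A.real fun _ => True) (hC.real fun _ => True) wClo (by decide)
    (by decide) (by decide) (by decide) (fun _ p => p.elim0)).pole
  refine ⟨B, fun r x => (hB r x).trans ⟨?_, ?_⟩⟩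
  · rintro ⟨c, -, h1, h2, h3⟩
    exact ⟨_, h2, h3.cg fun p => h1 (inl (inr p))⟩
  · rintro ⟨y, h1, h2⟩
    refine ⟨Sum.elim (Sum.elim y y) x, fun _ => rfl, ?_, h1, h2⟩
    rintro ((i | i) | i) <;> exact Cg.refl _ _

/-- The closed pole for `k + 1 / 2`. -/
theorem exists_half {k : ℕ} (hk : 5 ≤ k) {E : Pole k (Fin 2)} (hE : IsE k E)
    {X : Pole k (Bool × Bool)} (hX : IsX k X) :
    ∃ A : Pole k (Fin 0), (∀ x, A.Rel (k + 1 / 2) x) ∧
      ∀ (r : ℝ) x, 1 ≤ r → r < k + 1 / 2 → ¬ A.Rel r x := by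
  have hk' : (5 : ℝ) ≤ k := by exact_mod_cast hk
  obtain ⟨C, c1, c2, c3⟩ := ulf_chain hE 1
  obtain ⟨A, hA⟩ := ulf_cap X c1
  obtain ⟨B, hB⟩ := ulf_clo A c1
  refine ⟨B, fun x => (hB _ x).2 ⟨![0, 0 + 1], (hA _ _ _).2
    ⟨_, _, (hX.2.2 _ 0 (by linarith)).1, c3 _ _ _ (by linarith) (by norm_num)⟩,
    c3 _ _ _ (by linarith) (by norm_num)⟩, fun r x r1 r2 h => ?_⟩
  obtain ⟨y, y1, y2⟩ := (hB r x).1 h
  have e : y = ![y 0, y 1] := by
    funext p
    fin_cases p <;> rfl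
  rw [e] at y1
  obtain ⟨c, d, g1, -⟩ := (hA r _ _).1 y1
  have g2 := (ulf_pr (by linarith) (hX.2.1 r _ r1 r2 g1)).1
  have g3 := c2 r y r1 r2 y2
  push_cast at g3
  linarith

end Pool.Agent.P.MP_3f5ded_co.UG
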