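import Pool.Agent.P.MP_3f5ded_co.ULDefs

set_option autoImplicit false

namespace Pool.Agent.P.MP_3f5ded_co.UG

open Sum

lemma card_DS {J K : Type} [Fintype J] [Fintype K] :
    Fintype.card (DS J K) = 3 + Fintype.card J * Fintype.card K := by
  simp only [Fintype.card_option, Fintype.card_sum, Fintype.card_bool, Fintype.card_prod]
  ring

/-- Frames at the two vertices of a dipole. -/
theorem dip_frames {k : ℕ} {J K : Type} [Fintype J] [Fintype K]
    (hk : 3 + Fintype.card J * Fintype.card K = k) {r : ℝ} (hr : 1 ≤ r) (hr' : r < k + 1 / 2)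
    (c : Bool → DS J K → ℝ) (hz : c false none = c true none)
    (hF : ∀ b s s', s ≠ s' → Far r (c b s) (c b s')) (σ : J × K ≃ J × K)
    (hσ : ∀ y, cd r (c false (some (inr y))) (c true (some (inr (σ y)))) ≤ r - k) :
    ∃ (f : Bool → ℤ → ℝ) (κ : Bool → DS J K → ℤ),
      (∀ b, Good k r Finset.univ (c b) (f b) (κ b)) ∧ (∀ b, κ b none = 0) ∧
      f false 0 = f true 0 ∧ (∀ y, κ false (some (inr y)) = κ true (some (inr (σ y)))) ∧
      ((κ false (some (inl false)) = κ true (some (inl false)) ∧
          κ false (some (inl true)) = κ true (some (inl true))) ∨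
        (κ false (some (inl false)) = κ true (some (inl true)) ∧
          κ false (some (inl true)) = κ true (some (inl false)))) := by
  have hr0 : 0 < r := by linarith
  have hc : (Finset.univ : Finset (DS J K)).card = k := by rw [Finset.card_univ, card_DS, hk]
  have hk0 : 0 < k := by omega
  choose f κ hG h0 h1 using fun b => exists_good hr0 Finset.univ hc (c b)
    (fun y _ z _ => hF b y z) none (Finset.mem_univ _) 0 le_rfl (by exact_mod_cast hk0) (c b none)
    (Cg.refl _ _) hr
  have e0 : f false 0 = f true 0 := by rw [h1, h1, hz]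
  have u := fun y : DS J K => Finset.mem_univ y
  have e1 : ∀ y, κ false (some (inr y)) = κ true (some (inr (σ y))) := fun y =>
    near_match (hG true).fr ((hG false).fr.aligned (hG true).fr hk0 e0) (η := r - k)
      (by rw [← cd_congr hr0 ((hG false).near _ (u _)) ((hG true).near _ (u _))]; exact hσ y)
      (by linarith) ((hG false).lo _ (u _)) ((hG false).hi _ (u _)) ((hG true).lo _ (u _))
      ((hG true).hi _ (u _))
  have e2 : ∀ i, ∃ i', κ false (some (inl i)) = κ true (some (inl i')) := by
    intro i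
    obtain ⟨y, -, hy⟩ := (hG true).surj hc ((hG false).lo (some (inl i)) (u _))
      ((hG false).hi _ (u _))
    rcases y with _ | i' | y
    · rw [h0, ← h0 false] at hy
      cases (hG false).inj _ (u _) _ (u _) hy
    · exact ⟨i', hy.symm⟩
    · rw [← σ.apply_symm_apply y, ← e1] at hy
      cases (hG false).inj _ (u _) _ (u _) hy
  refine ⟨f, κ, hG, h0, e0, e1, ?_⟩
  obtain ⟨i, hi⟩ := e2 false
  obtain ⟨j, hj⟩ := e2 true
  cases i <;> cases j
  · cases (hG false).inj _ (u _) _ (u _) (hi.trans hj.symm)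
  · exact Or.inl ⟨hi, hj⟩
  · exact Or.inr ⟨hi, hj⟩
  · cases (hG false).inj _ (u _) _ (u _) (hi.trans hj.symm)

/-- Two labels of two aligned frames. -/
lemma xd_of_frames {k : ℕ} {r : ℝ} {f g : ℤ → ℝ} (hf : Fr k r f) (hg : Fr k r g) (h0 : f 0 = g 0)
    {i j : ℤ} (hij : i < j) (hji : j < i + k) : XD k r (j - i) (f j) (g j) (f i) (g i) := by
  have hk : 0 < k := by omega
  have a1 := abs_le.1 (hf.aligned hg hk h0 i)
  have a2 := abs_le.1 (hf.aligned hg hk h0 j)
  have a3 := hf.mono hij.le
  have a4 := hg.mono hij.le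
  have a5 := hf.upper hji.le
  have a6 := hg.upper hji.le
  refine ⟨by omega, by omega, ?_, ?_, ?_, ?_, ?_, ?_, ?_, ?_⟩ <;> push_cast <;> linarith

end Pool.Agent.P.MP_3f5ded_co.UG
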