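import Pool.Agent.P.MP_3f5ded_co.ULGlue
import Pool.Agent.P.MP_3f5ded_co.ULDip

set_option autoImplicit false

namespace Pool.Agent.P.MP_3f5ded_co.UG

open Sum

lemma uln_box {k : ℕ} {r : ℝ} {f : ℤ → ℝ} (hf : Fr k r f) {i : ℤ} (h0 : 0 ≤ i) (h1 : i < k) :
    f 0 ≤ f i - i ∧ f i - i ≤ f 0 + (r - k) := by
  have a1 := hf.mono' h0
  have a2 := hf.upper (i := 0) (j := i) (by omega)
  simp only [Int.cast_zero] at a1 a2
  constructor <;> linarith

lemma uln_gap {k : ℕ} {r t : ℝ} {f g : ℤ → ℝ} (hf : Fr k r f) (hg : Fr k r g) (h0 : f 0 = g 0)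
    (hr : r < k + 1 / 2) {i j M : ℤ} (hi : 0 ≤ i) (hij : i < j) (hj : j < k) (h1 : 1 ≤ M)
    (h2 : M < k) (h3 : M ≤ t) (h4 : t ≤ M + (r - k)) (hc : Cg r (g j - f i) t) :
    f i - i ≤ g j - j := by
  obtain ⟨a1, a2⟩ := uln_box hf hi (by omega)
  obtain ⟨a3, a4⟩ := uln_box hg (show 0 ≤ j by omega) hj
  have b1 : (0 : ℝ) ≤ i := by exact_mod_cast hi
  have b2 : (i : ℝ) + 1 ≤ j := by exact_mod_cast hij
  have b3 : (j : ℝ) + 1 ≤ k := by exact_mod_cast hj
  have b4 : (1 : ℝ) ≤ M := by exact_mod_cast h1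
  have b5 : (M : ℝ) + 1 ≤ k := by exact_mod_cast h2
  have e := (Cg.refl r _).uniq hc (by linarith) (by linarith)
  have b6 : ((j - i : ℤ) : ℝ) < (M + 1 : ℤ) := by push_cast; linarith
  have b7 := Int.cast_lt.1 b6
  have b8 : (j : ℝ) - i ≤ M := by exact_mod_cast (show j - i ≤ M by omega)
  linarith

lemma uln_sub {r x y x' y' : ℝ} (h : Cg r x x') (h' : Cg r y y') : Cg r (x - y) (x' - y') := by
  obtain ⟨n, hn⟩ := h
  obtain ⟨m, hm⟩ := h'
  exact ⟨n - m, by push_cast; linarith⟩

lemma uln_lf {r : ℝ} {D : ℤ → ℝ → ℝ → ℝ → ℝ → Prop} {a b c d a' b' c' d' : ℝ}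
    (h : LF r D a b c d) (ha : Cg r a a') (hb : Cg r b b') (hc : Cg r c c') (hd : Cg r d d') :
    LF r D a' b' c' d' := by
  obtain ⟨M, A0, A1, C0, C1, h1, h2, h3, h4, h5⟩ := h
  exact ⟨M, A0, A1, C0, C1, ha.symm.trans h1, hb.symm.trans h2, hc.symm.trans h3,
    hd.symm.trans h4, h5⟩

lemma uln_pair {k : ℕ} {r : ℝ} {f g : ℤ → ℝ} (hf : Fr k r f) (hg : Fr k r g) (h0 : f 0 = g 0)
    (hr : r < k + 1 / 2) {a b al be : ℤ} (hab : a ≠ b)
    (h : LF r (XD k r) (g b) (f b) (f a) (g a)) (h1 : 0 ≤ al) (h2 : be < k) (h3 : al ≤ a)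
    (h4 : al ≤ b) (h5 : a ≤ be) (h6 : b ≤ be) :
    f al - al ≤ g be - be ∧ g al - al ≤ f be - be := by
  obtain ⟨M, A0, A1, C0, C1, c1, c2, c3, c4, m1, m2, x1, x2, x3, x4, -⟩ := h
  rcases lt_or_gt_of_ne hab with hl | hl
  · have e1 := uln_gap hf hg h0 hr (by omega) hl (by omega) m1 m2 (by linarith) (by linarith)
      (uln_sub c1 c3)
    have e2 := uln_gap hg hf h0.symm hr (by omega) hl (by omega) m1 m2 (by linarith) (by linarith)
      (uln_sub c2 c4)
    exact ⟨(hf.mono' h3).trans (e1.trans (hg.mono' h6)),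
      (hg.mono' h3).trans (e2.trans (hf.mono' h6))⟩
  · have e1 := uln_gap (t := C1 - A1 + r) (M := k - M) hf hg h0 hr (by omega) hl (by omega)
      (by omega) (by omega) (by push_cast; linarith) (by push_cast; linarith)
      ((uln_sub c4 c2).trans (Cg.down (by ring)))
    have e2 := uln_gap (t := C0 - A0 + r) (M := k - M) hg hf h0.symm hr (by omega) hl (by omega)
      (by omega) (by omega) (by push_cast; linarith) (by push_cast; linarith)
      ((uln_sub c3 c1).trans (Cg.down (by ring)))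
    exact ⟨(hf.mono' h4).trans (e1.trans (hg.mono' h5)),
      (hg.mono' h4).trans (e2.trans (hf.mono' h5))⟩

lemma uln_nd {k : ℕ} {r : ℝ} {f g : ℤ → ℝ} (hf : Fr k r f) (hg : Fr k r g) (h0 : f 0 = g 0)
    (ho : Odd k) {i j : ℤ} (hi0 : 0 ≤ i) (hi : i < k) (hj0 : 0 ≤ j) (hj : j < k) (hij : i ≠ j)
    (hL : ∀ al be : ℤ, (al = i ∧ be = j ∨ al = j ∧ be = i) → k < 2 * (be - al) →
      f al - al ≤ g be - be ∧ g al - al ≤ f be - be) :
    LF r (ND k r) (f j) (g j) (f i) (g i) := by
  obtain ⟨a1, a2⟩ := uln_box hf hi0 hi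
  obtain ⟨a3, a4⟩ := uln_box hf hj0 hj
  obtain ⟨a5, a6⟩ := uln_box hg hi0 hi
  obtain ⟨a7, a8⟩ := uln_box hg hj0 hj
  obtain ⟨t, ht⟩ := ho
  rcases lt_or_gt_of_ne hij with hl | hl
  · refine ⟨j - i, _, _, _, _, Cg.refl _ _, Cg.refl _ _, Cg.refl _ _, Cg.refl _ _,
      xd_of_frames hf hg h0 hl (by omega), ?_⟩
    rcases lt_or_ge (2 * (j - i)) k with h | h
    · exact Or.inl ⟨h, by push_cast; linarith, by push_cast; linarith⟩
    · obtain ⟨b1, b2⟩ := hL i j (Or.inl ⟨rfl, rfl⟩) (by omega)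
      exact Or.inr ⟨by omega, by push_cast; linarith, by push_cast; linarith⟩
  · have p1 := hf.per j
    have p2 := hg.per j
    refine ⟨j + k - i, _, _, _, _, Cg.down (eq_sub_of_add_eq p1.symm),
      Cg.down (eq_sub_of_add_eq p2.symm), Cg.refl _ _, Cg.refl _ _,
      xd_of_frames hf hg h0 (by omega) (by omega), ?_⟩
    rcases lt_or_ge (2 * (j + k - i)) k with h | h
    · obtain ⟨b1, b2⟩ := hL j i (Or.inr ⟨rfl, rfl⟩) (by omega)
      exact Or.inl ⟨h, by push_cast; linarith, by push_cast; linarith⟩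
    · exact Or.inr ⟨by omega, by push_cast; linarith, by push_cast; linarith⟩

lemma uln_att {n : ℕ} {r B : ℝ} (c : DS (Fin n) Bool → ℝ) (e : Bool → ℕ) (he : ∀ b, e b ≤ 1)
    (he' : e false ≠ e true) (h0 : c none = B + 2)
    (h1 : c (some (inl false)) + 1 ≤ c (some (inl true))) (h2 : c (some (inl true)) ≤ B + 1)
    (h3 : B + 2 * n + 3 - r ≤ c (some (inl false)))
    (h4 : ∀ j b, c (some (inr (j, b))) = B + 3 + ((2 * (j : ℕ) + e b : ℕ) : ℝ)) :
    ∀ s s', s ≠ s' → Far r (c s) (c s') := by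
  have hn : (0 : ℝ) ≤ n := n.cast_nonneg
  have h5 : ∀ j b, B + 3 ≤ c (some (inr (j, b))) ∧ c (some (inr (j, b))) ≤ B + 2 * n + 2 := by
    intro j b
    have a1 : ((2 * (j : ℕ) + e b : ℕ) : ℝ) + 1 ≤ 2 * n := by
      have := j.2
      have := he b
      exact_mod_cast (show 2 * (j : ℕ) + e b + 1 ≤ 2 * n by omega)
    have a2 : (0 : ℝ) ≤ ((2 * (j : ℕ) + e b : ℕ) : ℝ) := Nat.cast_nonneg _
    rw [h4]
    constructor <;> linarith
  have hb : ∀ s, B + 2 * n + 3 - r ≤ c s ∧ c s ≤ B + 2 * n + 2 := by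
    rintro (_ | (_ | _) | ⟨j, b⟩)
    · constructor <;> linarith
    · constructor <;> linarith
    · constructor <;> linarith
    · have := h5 j b
      constructor <;> linarith
  have hs : ∀ s s', s ≠ s' → c s + 1 ≤ c s' ∨ c s' + 1 ≤ c s := by
    rintro (_ | (_ | _) | ⟨j, b⟩) (_ | (_ | _) | ⟨j', b'⟩) h
    case some.inr.some.inr =>
      have : 2 * (j : ℕ) + e b ≠ 2 * (j' : ℕ) + e b' := fun h' => h (by
        have := he b
        have := he b'
        obtain rfl : j = j' := Fin.ext (by omega)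
        have : e b = e b' := by omega
        cases b <;> cases b' <;> simp_all)
      rw [h4, h4]
      rcases lt_or_gt_of_ne this with h' | h'
      · have : ((2 * (j : ℕ) + e b : ℕ) : ℝ) + 1 ≤ ((2 * (j' : ℕ) + e b' : ℕ) : ℝ) := by
          exact_mod_cast h'
        left; linarith
      · have : ((2 * (j' : ℕ) + e b' : ℕ) : ℝ) + 1 ≤ ((2 * (j : ℕ) + e b : ℕ) : ℝ) := by
          exact_mod_cast h'
        right; linarith
    all_goals first
      | exact absurd rfl h
      | (left; linarith)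
      | (right; linarith)
      | (left; linarith [(h5 j' b').1])
      | (right; linarith [(h5 j b).1])
  intro s s' h
  have a1 := hb s
  have a2 := hb s'
  rcases hs s s' h with h | h
  · exact Far.of_bounds (by linarith) (by linarith)
  · exact (Far.of_bounds (by linarith) (by linarith)).symm

/-- The node. -/
theorem exists_N {k : ℕ} (hk : 5 ≤ k) (ho : Odd k) {X : Pole k (Bool × Bool)} (hX : IsX k X) :
    ∃ A, IsN k A := by
  obtain ⟨n, hn⟩ : ∃ n, k = 2 * n + 3 := by
    obtain ⟨t, ht⟩ := ho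
    exact ⟨t - 1, by omega⟩
  have hc : 3 + Fintype.card (Fin n) * Fintype.card Bool = k := by simp; omega
  obtain ⟨A, -, hA⟩ := dipole (Fin n) Bool hc X hX.1
  refine ⟨A, fun r x hr hr' h => ?_, fun r P P' Q Q' h1 h2 h3 h4 h5 h6 => ?_⟩
  · obtain ⟨z, w, hw, hF⟩ := (hA r x).1 h
    have hr0 : 0 < r := by linarith
    have hcr : ∀ j, LF r (XD k r) (w j (false, true)) (w j (true, false)) (w j (false, false))
        (w j (true, true)) := fun j => by
      refine (hX.2.1 r _ hr hr' (hw j)).resolve_left ?_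
      rintro ⟨M, A0, A1, C0, C1, c1, c2, -, -, -, -, -, -, -, -, x1, x2, -⟩
      rcases ((hF true (some (inr (j, false))) (some (inr (j, true))) (by simp)).congr c1 c2).or
        with h | h <;> linarith
    have hcd : ∀ u v U V : ℝ, Cg r u U → Cg r v V → U ≤ V + (r - k) → V ≤ U + (r - k) →
        cd r u v ≤ r - k := fun u v U V c1 c2 x1 x2 => by
      rw [cd_congr hr0 c1 c2]
      exact (cd_le_of (u := V - U) hr0 (Cg.of_eq (by ring))).trans
        (abs_le.2 ⟨by linarith, by linarith⟩)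
    obtain ⟨f, κ, hG, hz, h0, hκ, hp⟩ := dip_frames hc hr hr' (vc z x w) rfl hF
      (Equiv.prodCongr (Equiv.refl _) ⟨not, not, Bool.not_not, Bool.not_not⟩) (by
        rintro ⟨j, b⟩
        obtain ⟨M, A0, A1, C0, C1, c1, c2, c3, c4, -, -, -, -, -, -, x1, x2, x3, x4⟩ := hcr j
        cases b
        · exact hcd _ _ _ _ c3 c4 x3 x4
        · exact hcd _ _ _ _ c2 c1 x2 x1)
    have hm := Finset.mem_univ (α := DS (Fin n) Bool)
    have hne : ∀ s s', s ≠ s' → κ false s ≠ κ false s' := fun s s' h e =>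
      h ((hG false).inj _ (hm _) _ (hm _) e)
    have key := uln_nd (hG false).fr (hG true).fr h0 ho ((hG false).lo _ (hm (some (inl false))))
      ((hG false).hi _ (hm _)) ((hG false).lo _ (hm (some (inl true)))) ((hG false).hi _ (hm _))
      (hne _ _ (by simp)) (fun al be hab hl => by
        have l1 := (hG false).lo _ (hm (some (inl false)))
        have l2 := (hG false).lo _ (hm (some (inl true)))
        have l3 := (hG false).hi _ (hm (some (inl false)))
        have l4 := (hG false).hi _ (hm (some (inl true)))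
        by_contra hcon
        have hsub : Finset.Ioo al be ⊆ Finset.univ.image fun j : Fin n =>
            if κ false (some (inr (j, false))) ∈ Finset.Ioo al be then
              κ false (some (inr (j, false))) else κ false (some (inr (j, true))) := by
          intro l hl
          have hl' := Finset.mem_Ioo.1 hl
          obtain ⟨y, -, rfl⟩ := (hG false).surj (by rw [Finset.card_univ, card_DS, hc])
            (i := l) (by omega) (by omega)
          rcases y with _ | (_ | _) | ⟨j, _ | _⟩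
          · have := hz false
            omega
          · omega
          · omega
          · exact Finset.mem_image.2 ⟨j, Finset.mem_univ _, if_pos hl⟩
          · refine Finset.mem_image.2 ⟨j, Finset.mem_univ _, if_neg fun h' => hcon ?_⟩
            have h'' := Finset.mem_Ioo.1 h'
            have n1 := (hG true).near _ (hm (some (inr (j, false))))
            have n2 := (hG true).near _ (hm (some (inr (j, true))))
            rw [← show _ = κ true (some (inr (j, false))) from hκ (j, true)] at n1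
            rw [← show _ = κ true (some (inr (j, true))) from hκ (j, false)] at n2
            exact uln_pair (hG false).fr (hG true).fr h0 hr' (hne _ _ (by simp))
              (uln_lf (hcr j) n1 ((hG false).near _ (hm (some (inr (j, true)))))
                ((hG false).near _ (hm (some (inr (j, false))))) n2)
              (by omega) (by omega) h''.1.le hl'.1.le h''.2.le hl'.2.le
        have := (Finset.card_le_card hsub).trans Finset.card_image_le
        rw [Int.card_Ioo, Finset.card_univ, Fintype.card_fin] at this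
        omega)
    have n1 := ((hG false).near _ (hm (some (inl true)))).symm
    have n2 := ((hG false).near _ (hm (some (inl false)))).symm
    have n3 := ((hG true).near _ (hm (some (inl true)))).symm
    have n4 := ((hG true).near _ (hm (some (inl false)))).symm
    rcases hp with ⟨p1, p2⟩ | ⟨p1, p2⟩
    · exact Or.inl (uln_lf key n1 (p2 ▸ n3) n2 (p1 ▸ n4))
    · exact Or.inr (uln_lf key n1 (p2 ▸ n4) n2 (p1 ▸ n3))
  · have hkr : (k : ℝ) = 2 * n + 3 := by exact_mod_cast hn
    have m1 := le_max_left P' Q'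
    have m2 := le_max_right P' Q'
    have m3 := max_le h3 h5
    have m4 := max_le h4 h6
    generalize max P' Q' = B at *
    refine (hA r _).2 ⟨B - 1 + 2, fun j => q4 (B + 2 + 2 * (j : ℕ)) (B + 2 + 2 * (j : ℕ) + 1)
      (B + 2 + 2 * (j : ℕ) + 1) (B + 2 + 2 * (j : ℕ)), fun j => (hX.2.2 r _ (by linarith)).1, ?_⟩
    rintro (_ | _)
    · refine uln_att (B := B - 1) _ Bool.toNat Bool.toNat_le (by simp) rfl h1
        (show P' ≤ _ by linarith) (show _ ≤ P by linarith) ?_
      rintro j (_ | _) <;> simp [vc, q4] <;> ring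
    · refine uln_att (B := B - 1) _ (fun b => (!b).toNat) (fun _ => Bool.toNat_le _) (by simp) rfl
        h2 (show Q' ≤ _ by linarith) (show _ ≤ Q by linarith) ?_
      rintro j (_ | _) <;> simp [vc, q4] <;> ring

end Pool.Agent.P.MP_3f5ded_co.UG
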