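import Pool.Agent.P.MP_3f5ded_co.ULGlue

set_option autoImplicit false

namespace Pool.Agent.P.MP_3f5ded_co.UG

open Sum

lemma ulp_abs {x y t : ℝ} (h1 : x + y ≤ t) (h2 : x - y ≤ t) (h3 : -x + y ≤ t)
    (h4 : -x - y ≤ t) : |x| + |y| ≤ t := by
  rcases abs_cases x with h | h <;> rcases abs_cases y with h' | h' <;> linarith [h.1, h'.1]

lemma ND.pass {k : ℕ} {r : ℝ} {M : ℤ} {A0 A1 C0 C1 : ℝ} (h : ND k r M A0 A1 C0 C1) :
    A0 ≤ A1 + (r - k) ∧ A1 ≤ A0 + (r - k) ∧ C0 ≤ C1 + (r - k) ∧ C1 ≤ C0 + (r - k) :=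
  h.1.2.2.2.2.2.2

lemma ND.gap {k : ℕ} {r : ℝ} {M : ℤ} {A0 A1 C0 C1 : ℝ} (h : ND k r M A0 A1 C0 C1) :
    C0 + 1 ≤ A0 ∧ A0 + 1 ≤ C0 + r ∧ C1 + 1 ≤ A1 ∧ A1 + 1 ≤ C1 + r := by
  obtain ⟨⟨a0, a0', a1, a2, a3, a4, -⟩, -⟩ := h
  have b1 : (1 : ℝ) ≤ M := by exact_mod_cast a0
  have b2 : (M : ℝ) + 1 ≤ k := by exact_mod_cast a0'
  exact ⟨by linarith, by linarith, by linarith, by linarith⟩

/-- What a node says relative to a small integer `m`. -/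
lemma ND.cutS {k : ℕ} {r : ℝ} {M : ℤ} {A0 A1 C0 C1 : ℝ} (h : ND k r M A0 A1 C0 C1) {m : ℤ}
    (hm : m ≤ M) (h' : 2 * m < k) :
    (M = m ∧ C0 + m ≤ A0 ∧ C1 + m ≤ A1 ∧ A0 ≤ C0 + m + (r - k) ∧ A1 ≤ C1 + m + (r - k) ∧
        A0 ≤ C1 + m + (r - k) ∧ A1 ≤ C0 + m + (r - k)) ∨
      (m < M ∧ C0 + m + 1 ≤ A0 ∧ C1 + m + 1 ≤ A1) := by
  obtain ⟨⟨-, -, a1, a2, a3, a4, -⟩, a6⟩ := h
  rcases hm.eq_or_lt with rfl | hm
  · exact Or.inl ⟨rfl, a1, a3, a2, a4, (a6.resolve_right fun h => by omega).2⟩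
  · have e : (m : ℝ) + 1 ≤ M := by exact_mod_cast hm
    exact Or.inr ⟨hm, by linarith, by linarith⟩

/-- What a node says relative to a large integer `m`. -/
lemma ND.cutL {k : ℕ} {r : ℝ} {M : ℤ} {A0 A1 C0 C1 : ℝ} (h : ND k r M A0 A1 C0 C1) {m : ℤ}
    (hm : m ≤ M) (h' : k ≤ 2 * m) :
    (M = m ∧ C0 + m ≤ A0 ∧ C1 + m ≤ A1 ∧ A0 ≤ C0 + m + (r - k) ∧ A1 ≤ C1 + m + (r - k) ∧
        C1 + m ≤ A0 ∧ C0 + m ≤ A1) ∨
      (m < M ∧ C0 + m + 1 ≤ A0 ∧ C1 + m + 1 ≤ A1 ∧ C1 + m + 1 ≤ A0 ∧ C0 + m + 1 ≤ A1) := by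
  obtain ⟨⟨-, -, a1, a2, a3, a4, -⟩, a6⟩ := h
  obtain ⟨-, a7, a8⟩ := a6.resolve_left fun h => by omega
  rcases hm.eq_or_lt with rfl | hm
  · exact Or.inl ⟨rfl, a1, a3, a2, a4, a7, a8⟩
  · have e : (m : ℝ) + 1 ≤ M := by exact_mod_cast hm
    exact Or.inr ⟨hm, by linarith, by linarith, by linarith, by linarith⟩

/-- All four nodes parallel. -/
lemma ulp_two {k : ℕ} {r : ℝ} (hr : r < k + 1 / 2) {M1 M2 M3 M4 : ℤ}
    {a b c d e1 e2 e3 f1 f2 f3 : ℝ} (h1 : ND k r M1 a f3 e1 f2) (h2 : ND k r M2 e2 f1 e1 c)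
    (h3 : ND k r M3 e2 f3 e3 d) (h4 : ND k r M4 b f1 e3 f2) :
    |b - a| ≤ 2 * (r - k) ∧ |c - d| ≤ 2 * (r - k) ∧ |b - a| + |c - d| ≤ 3 * (r - k) := by
  obtain ⟨m, m1, m2, m3, m4, hm⟩ : ∃ m, m ≤ M1 ∧ m ≤ M2 ∧ m ≤ M3 ∧ m ≤ M4 ∧
      (m = M1 ∨ m = M2 ∨ m = M3 ∨ m = M4) := ⟨min (min M1 M2) (min M3 M4), by omega⟩
  obtain ⟨p1, p2, p3, p4⟩ := h1.pass
  obtain ⟨p5, p6, p7, p8⟩ := h2.pass
  obtain ⟨q1, q2, q3, q4⟩ := h3.pass
  obtain ⟨q5, q6, q7, q8⟩ := h4.pass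
  rcases lt_or_ge (2 * m) k with h | h
  · rcases h1.cutS m1 h with ⟨_, _, _, _, _, _, _⟩ | ⟨_, _, _⟩ <;>
      rcases h2.cutS m2 h with ⟨_, _, _, _, _, _, _⟩ | ⟨_, _, _⟩ <;>
      rcases h3.cutS m3 h with ⟨_, _, _, _, _, _, _⟩ | ⟨_, _, _⟩ <;>
      rcases h4.cutS m4 h with ⟨_, _, _, _, _, _, _⟩ | ⟨_, _, _⟩ <;>
      first
        | (exfalso; omega)
        | (exfalso; linarith)
        | exact ⟨abs_le.2 ⟨by linarith, by linarith⟩, abs_le.2 ⟨by linarith, by linarith⟩,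
            ulp_abs (by linarith) (by linarith) (by linarith) (by linarith)⟩
  · rcases h1.cutL m1 h with ⟨_, _, _, _, _, _, _⟩ | ⟨_, _, _, _, _⟩ <;>
      rcases h2.cutL m2 h with ⟨_, _, _, _, _, _, _⟩ | ⟨_, _, _, _, _⟩ <;>
      rcases h3.cutL m3 h with ⟨_, _, _, _, _, _, _⟩ | ⟨_, _, _, _, _⟩ <;>
      rcases h4.cutL m4 h with ⟨_, _, _, _, _, _, _⟩ | ⟨_, _, _, _, _⟩ <;>
      first
        | (exfalso; omega)
        | (exfalso; linarith)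
        | exact ⟨abs_le.2 ⟨by linarith, by linarith⟩, abs_le.2 ⟨by linarith, by linarith⟩,
            ulp_abs (by linarith) (by linarith) (by linarith) (by linarith)⟩

/-- All four nodes crossed. -/
lemma ulp_one {k : ℕ} {r : ℝ} (hr : r < k + 1 / 2) {M1 M2 M3 M4 : ℤ}
    {a b c d e1 e2 e3 f1 f2 f3 : ℝ} (h1 : ND k r M1 a f2 e1 f3) (h2 : ND k r M2 e2 c e1 f1)
    (h3 : ND k r M3 e2 d e3 f3) (h4 : ND k r M4 b f2 e3 f1) :
    |b - a| ≤ 2 * (r - k) ∧ |c - d| ≤ 2 * (r - k) ∧ |b - a| + |c - d| ≤ 3 * (r - k) := by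
  obtain ⟨m, m1, m4, hm⟩ : ∃ m, m ≤ M1 ∧ m ≤ M4 ∧ (m = M1 ∨ m = M4) := ⟨min M1 M4, by omega⟩
  obtain ⟨n, m2, m3, hn⟩ : ∃ m, m ≤ M2 ∧ m ≤ M3 ∧ (m = M2 ∨ m = M3) := ⟨min M2 M3, by omega⟩
  obtain ⟨p1, p2, p3, p4⟩ := h1.pass
  obtain ⟨p5, p6, p7, p8⟩ := h2.pass
  obtain ⟨q1, q2, q3, q4⟩ := h3.pass
  obtain ⟨q5, q6, q7, q8⟩ := h4.pass
  have g1 : ∃ t, (e1 + t ≤ a ∧ f3 + t ≤ f2 ∧ e3 + t ≤ b ∧ f1 + t ≤ f2 ∧ a ≤ e1 + t + (r - k) ∧
      f2 ≤ f3 + t + (r - k) ∧ b ≤ e3 + t + (r - k) ∧ f2 ≤ f1 + t + (r - k)) ∧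
      ((a ≤ f3 + t + (r - k) ∧ f2 ≤ e1 + t + (r - k) ∧ b ≤ f1 + t + (r - k) ∧
        f2 ≤ e3 + t + (r - k)) ∨ (f3 + t ≤ a ∧ e1 + t ≤ f2 ∧ f1 + t ≤ b ∧ e3 + t ≤ f2)) := by
    rcases lt_or_ge (2 * m) k with h | h
    · rcases h1.cutS m1 h with ⟨_, _, _, _, _, _, _⟩ | ⟨_, _, _⟩ <;>
        rcases h4.cutS m4 h with ⟨_, _, _, _, _, _, _⟩ | ⟨_, _, _⟩ <;>
        first
          | (exfalso; omega)
          | (exfalso; linarith)
          | exact ⟨m, by refine ⟨?_, ?_, ?_, ?_, ?_, ?_, ?_, ?_⟩ <;> assumption,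
              Or.inl (by refine ⟨?_, ?_, ?_, ?_⟩ <;> assumption)⟩
    · rcases h1.cutL m1 h with ⟨_, _, _, _, _, _, _⟩ | ⟨_, _, _, _, _⟩ <;>
        rcases h4.cutL m4 h with ⟨_, _, _, _, _, _, _⟩ | ⟨_, _, _, _, _⟩ <;>
        first
          | (exfalso; omega)
          | (exfalso; linarith)
          | exact ⟨m, by refine ⟨?_, ?_, ?_, ?_, ?_, ?_, ?_, ?_⟩ <;> assumption,
              Or.inr (by refine ⟨?_, ?_, ?_, ?_⟩ <;> assumption)⟩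
  have g2 : ∃ t, (e1 + t ≤ e2 ∧ f1 + t ≤ c ∧ e3 + t ≤ e2 ∧ f3 + t ≤ d ∧ e2 ≤ e1 + t + (r - k) ∧
      c ≤ f1 + t + (r - k) ∧ e2 ≤ e3 + t + (r - k) ∧ d ≤ f3 + t + (r - k)) ∧
      ((e2 ≤ f1 + t + (r - k) ∧ c ≤ e1 + t + (r - k) ∧ e2 ≤ f3 + t + (r - k) ∧
        d ≤ e3 + t + (r - k)) ∨ (f1 + t ≤ e2 ∧ e1 + t ≤ c ∧ f3 + t ≤ e2 ∧ e3 + t ≤ d)) := by
    rcases lt_or_ge (2 * n) k with h | h
    · rcases h2.cutS m2 h with ⟨_, _, _, _, _, _, _⟩ | ⟨_, _, _⟩ <;>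
        rcases h3.cutS m3 h with ⟨_, _, _, _, _, _, _⟩ | ⟨_, _, _⟩ <;>
        first
          | (exfalso; omega)
          | (exfalso; linarith)
          | exact ⟨n, by refine ⟨?_, ?_, ?_, ?_, ?_, ?_, ?_, ?_⟩ <;> assumption,
              Or.inl (by refine ⟨?_, ?_, ?_, ?_⟩ <;> assumption)⟩
    · rcases h2.cutL m2 h with ⟨_, _, _, _, _, _, _⟩ | ⟨_, _, _, _, _⟩ <;>
        rcases h3.cutL m3 h with ⟨_, _, _, _, _, _, _⟩ | ⟨_, _, _, _, _⟩ <;>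
        first
          | (exfalso; omega)
          | (exfalso; linarith)
          | exact ⟨n, by refine ⟨?_, ?_, ?_, ?_, ?_, ?_, ?_, ?_⟩ <;> assumption,
              Or.inr (by refine ⟨?_, ?_, ?_, ?_⟩ <;> assumption)⟩
  obtain ⟨t, ⟨_, _, _, _, _, _, _, _⟩, ⟨_, _, _, _⟩ | ⟨_, _, _, _⟩⟩ := g1 <;>
    obtain ⟨t', ⟨_, _, _, _, _, _, _, _⟩, ⟨_, _, _, _⟩ | ⟨_, _, _, _⟩⟩ := g2 <;>
    exact ⟨abs_le.2 ⟨by linarith, by linarith⟩, abs_le.2 ⟨by linarith, by linarith⟩,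
      ulp_abs (by linarith) (by linarith) (by linarith) (by linarith)⟩

lemma ND.shift {k : ℕ} {r : ℝ} {M : ℤ} {A0 A1 C0 C1 : ℝ} (h : ND k r M A0 A1 C0 C1) (t : ℝ) :
    ND k r M (A0 + t) (A1 + t) (C0 + t) (C1 + t) := by
  obtain ⟨⟨a0, a1, a2, a3, a4, a5, a6, a7, a8, a9⟩, b⟩ := h
  refine ⟨⟨a0, a1, by linarith, by linarith, by linarith, by linarith, by linarith, by linarith,
    by linarith, by linarith⟩, b.imp ?_ ?_⟩ <;>
    exact fun h => ⟨h.1, by linarith [h.2.1], by linarith [h.2.2]⟩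

lemma Cg.shift {r x y : ℝ} (h : Cg r x y) (n : ℤ) : Cg r x (y + n * r) :=
  h.trans ⟨-n, by push_cast; ring⟩

/-- A prescribed lift of the first colour of the second strand. -/
lemma LF.at0 {k : ℕ} {r a0 a1 c0 c1 C : ℝ} (h : LF r (ND k r) a0 a1 c0 c1) (hc : Cg r c0 C) :
    ∃ M A0 A1 C1, Cg r a0 A0 ∧ Cg r a1 A1 ∧ Cg r c1 C1 ∧ ND k r M A0 A1 C C1 := by
  obtain ⟨M, A0, A1, C0, C1, h0, h1, h2, h3, h4⟩ := h
  obtain ⟨n, rfl⟩ := hc.symm.trans h2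
  exact ⟨M, _, _, _, h0.shift n, h1.shift n, h3.shift n, h4.shift _⟩

/-- A prescribed lift of the second colour of the first strand. -/
lemma LF.at1 {k : ℕ} {r a0 a1 c0 c1 A : ℝ} (h : LF r (ND k r) a0 a1 c0 c1) (hc : Cg r a1 A) :
    ∃ M A0 C0 C1, Cg r a0 A0 ∧ Cg r c0 C0 ∧ Cg r c1 C1 ∧ ND k r M A0 A C0 C1 := by
  obtain ⟨M, A0, A1, C0, C1, h0, h1, h2, h3, h4⟩ := h
  obtain ⟨n, rfl⟩ := hc.symm.trans h1
  exact ⟨M, _, _, _, h0.shift n, h2.shift n, h3.shift n, h4.shift _⟩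

lemma ulp_cd {r x y X Y : ℝ} (hr : 0 < r) (hx : Cg r x X) (hy : Cg r y Y) : cd r x y ≤ |Y - X| := by
  rw [cd_congr hr hx hy]
  exact cd_le_of hr (Cg.of_eq (by ring))

lemma LF.cds {k : ℕ} {r a0 a1 c0 c1 : ℝ} (hr : 0 < r) (h : LF r (ND k r) a0 a1 c0 c1) :
    cd r a0 a1 ≤ r - k ∧ cd r a1 a0 ≤ r - k ∧ cd r c0 c1 ≤ r - k ∧ cd r c1 c0 ≤ r - k ∧
      1 ≤ cd r a0 c0 ∧ 1 ≤ cd r a1 c1 := by
  obtain ⟨M, A0, A1, C0, C1, h0, h1, h2, h3, h4⟩ := h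
  obtain ⟨p1, p2, p3, p4⟩ := h4.pass
  obtain ⟨q1, q2, q3, q4⟩ := h4.gap
  refine ⟨(ulp_cd hr h0 h1).trans (abs_le.2 ⟨by linarith, by linarith⟩),
    (ulp_cd hr h1 h0).trans (abs_le.2 ⟨by linarith, by linarith⟩),
    (ulp_cd hr h2 h3).trans (abs_le.2 ⟨by linarith, by linarith⟩),
    (ulp_cd hr h3 h2).trans (abs_le.2 ⟨by linarith, by linarith⟩), ?_, ?_⟩
  · exact Far.le_cd ((Far.of_bounds (x := C0) (y := A0) (by linarith) (by linarith)).symm.congr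
      h0.symm h2.symm)
  · exact Far.le_cd ((Far.of_bounds (x := C1) (y := A1) (by linarith) (by linarith)).symm.congr
      h1.symm h3.symm)

/-- The two pairs of ports of the Petersen pole are close. -/
lemma ulp_bound {k : ℕ} (hk : 5 ≤ k) {r : ℝ} (hr : 0 < r) (hr' : r < k + 1 / 2)
    {a b c d e1 e2 e3 f1 f2 f3 : ℝ} (h1 : PR r (ND k r) (q4 e1 a f2 f3))
    (h2 : PR r (ND k r) (q4 e1 e2 c f1)) (h3 : PR r (ND k r) (q4 e3 e2 d f3))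
    (h4 : PR r (ND k r) (q4 e3 b f2 f1)) :
    cd r a b ≤ 2 * (r - k) ∧ cd r d c ≤ 2 * (r - k) ∧ cd r a b + cd r d c ≤ 3 * (r - k) := by
  have hk' : (5 : ℝ) ≤ k := by exact_mod_cast hk
  have fin : ∀ A B C D, Cg r a A → Cg r b B → Cg r c C → Cg r d D →
      |B - A| ≤ 2 * (r - k) ∧ |C - D| ≤ 2 * (r - k) ∧ |B - A| + |C - D| ≤ 3 * (r - k) →
      cd r a b ≤ 2 * (r - k) ∧ cd r d c ≤ 2 * (r - k) ∧ cd r a b + cd r d c ≤ 3 * (r - k) := by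
    intro A B C D ha hb hc hd h
    have := ulp_cd hr ha hb
    have := ulp_cd hr hd hc
    exact ⟨by linarith [h.1], by linarith [h.2.1], by linarith [h.2.2]⟩
  simp only [PR, q4] at h1 h2 h3 h4
  have t1 := cd_tri hr e2 f3 e1
  have t2 := cd_tri hr f2 e3 f3
  have t3 := cd_tri hr e2 f1 e3
  have t4 := cd_tri hr f1 e1 f2
  have s1 := cd_symm hr f2 f3
  have s2 := cd_symm hr f1 f2
  rcases h1 with h1 | h1
  · obtain ⟨_, _, _, _, _, _⟩ := h1.cds hr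
    rcases h2 with h2 | h2
    · obtain ⟨_, _, _, _, _, _⟩ := h2.cds hr
      rcases h4 with h4 | h4
      · obtain ⟨_, _, _, _, _, _⟩ := h4.cds hr
        rcases h3 with h3 | h3
        · obtain ⟨M1, A, F3, E1, F2, a1, a2, a3, a4, n1⟩ := h1
          obtain ⟨M2, E2, F1, C, b1, b2, b3, n2⟩ := h2.at0 a3
          obtain ⟨M3, E2', E3, D, c1, c2, c3, n3⟩ := h3.at1 a2
          obtain ⟨M4, B, F1', F2', d1, d2, d3, n4⟩ := h4.at0 c2
          obtain ⟨_, _, _, _⟩ := n1.pass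
          obtain ⟨_, _, _, _⟩ := n2.pass
          obtain ⟨_, _, _, _⟩ := n3.pass
          obtain ⟨_, _, _, _⟩ := n4.pass
          obtain ⟨_, _, _, _⟩ := n1.gap
          obtain ⟨_, _, _, _⟩ := n2.gap
          obtain ⟨_, _, _, _⟩ := n3.gap
          obtain ⟨_, _, _, _⟩ := n4.gap
          obtain rfl : E2 = E2' := b1.uniq c1 (by linarith) (by linarith)
          obtain rfl : F2 = F2' := a4.uniq d3 (by linarith) (by linarith)
          obtain rfl : F1 = F1' := b2.uniq d2 (by linarith) (by linarith)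
          exact fin _ _ _ _ a1 d1 b3 c3 (ulp_two hr' n1 n2 n3 n4)
        · obtain ⟨_, _, _, _, _, _⟩ := h3.cds hr
          linarith
      · obtain ⟨_, _, _, _, _, _⟩ := h4.cds hr
        rcases h3 with h3 | h3 <;> obtain ⟨_, _, _, _, _, _⟩ := h3.cds hr <;> linarith
    · obtain ⟨_, _, _, _, _, _⟩ := h2.cds hr
      rcases h4 with h4 | h4 <;> obtain ⟨_, _, _, _, _, _⟩ := h4.cds hr <;> linarith
  · obtain ⟨_, _, _, _, _, _⟩ := h1.cds hr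
    rcases h3 with h3 | h3
    · obtain ⟨_, _, _, _, _, _⟩ := h3.cds hr
      rcases h2 with h2 | h2 <;> obtain ⟨_, _, _, _, _, _⟩ := h2.cds hr <;> linarith
    · obtain ⟨_, _, _, _, _, _⟩ := h3.cds hr
      rcases h4 with h4 | h4
      · obtain ⟨_, _, _, _, _, _⟩ := h4.cds hr
        linarith
      · obtain ⟨_, _, _, _, _, _⟩ := h4.cds hr
        rcases h2 with h2 | h2
        · obtain ⟨_, _, _, _, _, _⟩ := h2.cds hr
          linarith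
        · obtain ⟨M1, A, F2, E1, F3, a1, a2, a3, a4, n1⟩ := h1
          obtain ⟨M2, E2, C, F1, b1, b2, b3, n2⟩ := h2.at0 a3
          obtain ⟨M4, B, E3, F1', d1, d2, d3, n4⟩ := h4.at1 a2
          obtain ⟨M3, E2', D, F3', c1, c2, c3, n3⟩ := h3.at0 d2
          obtain ⟨_, _, _, _⟩ := n1.pass
          obtain ⟨_, _, _, _⟩ := n2.pass
          obtain ⟨_, _, _, _⟩ := n3.pass
          obtain ⟨_, _, _, _⟩ := n4.pass
          obtain ⟨_, _, _, _⟩ := n1.gap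
          obtain ⟨_, _, _, _⟩ := n2.gap
          obtain ⟨_, _, _, _⟩ := n3.gap
          obtain ⟨_, _, _, _⟩ := n4.gap
          obtain rfl : F1 = F1' := b3.uniq d3 (by linarith) (by linarith)
          obtain rfl : F3 = F3' := a4.uniq c3 (by linarith) (by linarith)
          obtain rfl : E2 = E2' := b1.uniq c1 (by linarith) (by linarith)
          exact fin _ _ _ _ a1 d1 b2 c2 (ulp_one hr' n1 n2 n3 n4)

/-- The edges at the four nodes and at the ports. -/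
def ulpE : ((Fin 4 × Bool × Bool) ⊕ (Fin 0 × Fin 0)) ⊕ Fin 4 → Fin 10
  | inl (inl (l, false, false)) => ![4, 4, 6, 6] l
  | inl (inl (l, false, true)) => ![0, 5, 5, 1] l
  | inl (inl (l, true, false)) => ![8, 3, 2, 8] l
  | inl (inl (l, true, true)) => ![9, 7, 9, 7] l
  | inl (inr _) => 0
  | inr j => ![0, 1, 2, 3] j

/-- One end of each edge. -/
def ulpR : Fin 10 → ((Fin 4 × Bool × Bool) ⊕ (Fin 0 × Fin 0)) ⊕ Fin 4 :=
  ![inr 0, inr 1, inr 2, inr 3, inl (inl (0, false, false)), inl (inl (1, false, true)),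
    inl (inl (2, false, false)), inl (inl (1, true, true)), inl (inl (0, true, false)),
    inl (inl (0, true, true))]

/-- The wires. -/
def ulpW : ((Fin 4 × Bool × Bool) ⊕ (Fin 0 × Fin 0)) ⊕ Fin 4 →
    ((Fin 4 × Bool × Bool) ⊕ (Fin 0 × Fin 0)) ⊕ Fin 4
  | inl (inl (l, false, false)) => inl (inl (![1, 0, 3, 2] l, false, false))
  | inl (inl (l, false, true)) =>
      ![inr 0, inl (inl (2, false, true)), inl (inl (1, false, true)), inr 1] l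
  | inl (inl (l, true, false)) =>
      ![inl (inl (3, true, false)), inr 3, inr 2, inl (inl (0, true, false))] l
  | inl (inl (l, true, true)) => inl (inl (![2, 3, 0, 1] l, true, true))
  | inl (inr x) => inl (inr x)
  | inr j => ![inl (inl (0, false, true)), inl (inl (3, false, true)), inl (inl (2, true, false)),
      inl (inl (1, true, false))] j

lemma q4_eta (x : Bool × Bool → ℝ) :
    x = q4 (x (false, false)) (x (false, true)) (x (true, false)) (x (true, true)) := by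
  funext p
  rcases p with ⟨_ | _, _ | _⟩ <;> rfl

set_option synthInstance.maxSize 1024 in
/-- The Petersen pole of four nodes. -/
theorem exists_H {k : ℕ} (hk : 5 ≤ k) {N : Pole k (Bool × Bool)} (hN : IsN k N) :
    ∃ A, IsH k A := by
  obtain ⟨B, t, hB⟩ := net2 (fun _ : Fin 4 => N) (fun l : Fin 0 => l.elim0)
    (E2 := fun _ _ : Fin 0 => True) (fun _ => N.tag_true) (fun l => l.elim0) ulpW (by decide)
    (by decide) (by decide) (by decide) Eq (by decide) ulpE ulpR (by decide) (by decide) (by decide)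
  refine ⟨B, t.inj, fun r x hr hr' h => ?_, fun r u c h1 h2 => ?_⟩
  · obtain ⟨w, w1, w2, -⟩ := (hB r x).1 h
    have g := fun l => hN.1 r _ hr hr' (w2 l)
    rw [← w1, ← w1, ← w1, ← w1]
    exact ulp_bound hk (by linarith) hr' (g 0) (g 1) (g 2) (g 3)
  · obtain ⟨s, hs⟩ : ∃ s, s = r - k := ⟨_, rfl⟩
    rw [← hs] at h1 h2 ⊢
    refine ⟨c + 2 * s - u + 1, (hB r _).2 ⟨![c + 2 * s - u + 1, c + 2 * s - u + 1 + u,
      c + (3 * s - u), c, c + 2 * s - u, c + s + 1, c + s, c + s + 1, c + s,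
      c + 3 * s - u + 1], fun p => ?_, fun l => ?_, fun l => l.elim0⟩⟩
    · fin_cases p <;> rfl
    · rw [q4_eta fun _ => _]
      fin_cases l
      · exact hN.2 r (c + 2 * s - u) (c + 2 * s - u + 1) (c + s) (c + 3 * s - u + 1)
          (by linarith) (by linarith) (by linarith) (by linarith) (by linarith) (by linarith)
      · exact hN.2 r (c + 2 * s - u) (c + s + 1) c (c + s + 1)
          (by linarith) (by linarith) (by linarith) (by linarith) (by linarith) (by linarith)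
      · exact hN.2 r (c + s) (c + s + 1) (c + (3 * s - u)) (c + 3 * s - u + 1)
          (by linarith) (by linarith) (by linarith) (by linarith) (by linarith) (by linarith)
      · exact hN.2 r (c + s) (c + 2 * s - u + 1 + u) (c + s) (c + s + 1)
          (by linarith) (by linarith) (by linarith) (by linarith) (by linarith) (by linarith)

end Pool.Agent.P.MP_3f5ded_co.UG
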