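import Pool.Agent.P.MP_3f5ded_co.ULGlue
import Pool.Agent.P.MP_3f5ded_co.ULDip

set_option autoImplicit false

namespace Pool.Agent.P.MP_3f5ded_co.UG

open Sum

/-- The two ports of the wire. -/
def ulxE : Unit × Bool ≃ Fin 2 where
  toFun p := cond p.2 1 0
  invFun i := ((), decide (i = 1))
  left_inv := by decide
  right_inv := by decide

lemma ulx_lf {k : ℕ} {r : ℝ} {f g : ℤ → ℝ} (hf : Fr k r f) (hg : Fr k r g) (h0 : f 0 = g 0)
    {i j : ℤ} (hi : 0 ≤ i) (hi' : i < k) (hj : 0 ≤ j) (hj' : j < k) (hij : i ≠ j)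
    {a0 a1 c0 c1 : ℝ} (h1 : Cg r a0 (f j)) (h2 : Cg r a1 (g j)) (h3 : Cg r c0 (f i))
    (h4 : Cg r c1 (g i)) : LF r (XD k r) a0 a1 c0 c1 := by
  rcases lt_or_gt_of_ne hij with h | h
  · exact ⟨_, _, _, _, _, h1, h2, h3, h4, xd_of_frames hf hg h0 h (by omega)⟩
  · exact ⟨_, _, _, _, _, h1.trans (Cg.up (hf.per j)).symm, h2.trans (Cg.up (hg.per j)).symm, h3, h4,
      xd_of_frames hf hg h0 (by omega) (by omega)⟩

lemma ulx_far {k : ℕ} {r : ℝ} (hr : (k : ℝ) ≤ r) (y : ℝ) {a b : ℕ} (ha : a < k) (hb : b < k)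
    (hab : a ≠ b) : Far r (y + a) (y + b) := by
  wlog h : a < b generalizing a b
  · exact (this hb ha hab.symm (by omega)).symm
  have h1 : (a : ℝ) + 1 ≤ b := by exact_mod_cast h
  have h2 : (b : ℝ) + 1 ≤ k := by exact_mod_cast hb
  have h3 : (0 : ℝ) ≤ a := Nat.cast_nonneg a
  exact Far.of_bounds (by linarith) (by linarith)

/-- Integer labels of the slots. -/
def ulxL {n : ℕ} (m : ℕ) (b : Bool) : DS (Fin n) Unit → ℕ
  | none => 3 - m
  | some (inl i) => if i = b then 0 else m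
  | some (inr y) => 3 + y.1

lemma ulxL_lt {n m : ℕ} (hm : m = 1 ∨ m = 2) (b : Bool) (s : DS (Fin n) Unit) :
    ulxL m b s < 3 + n := by
  rcases s with _ | i | ⟨j, _⟩
  · simp only [ulxL]; omega
  · simp only [ulxL]; split_ifs <;> omega
  · simp only [ulxL]; omega

lemma ulxL_inj {n m : ℕ} (hm : m = 1 ∨ m = 2) (b : Bool) (s s' : DS (Fin n) Unit)
    (h : ulxL m b s = ulxL m b s') : s = s' := by
  rcases s with _ | i | ⟨j, _⟩ <;> rcases s' with _ | i' | ⟨j', _⟩ <;> simp only [ulxL] at h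
  · rfl
  · split_ifs at h <;> omega
  · omega
  · split_ifs at h <;> omega
  · cases i <;> cases i' <;> cases b <;> first | rfl | (simp at h; omega)
  · split_ifs at h <;> omega
  · omega
  · split_ifs at h <;> omega
  · rw [Fin.ext (show j.1 = j'.1 by omega)]

lemma ulx_vc {n m : ℕ} (y : ℝ) (b : Bool) (s : DS (Fin n) Unit) :
    vc (y + (3 - m : ℕ)) (q4 y (y + m) (y + m) y) (fun j _ => y + (3 + j.1 : ℕ)) b s =
      y + ulxL m b s := by
  rcases s with _ | i | ⟨j, _⟩
  · rfl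
  · cases i <;> cases b <;> simp [vc, q4, ulxL]
  · rfl

/-- The fat link. -/
theorem exists_X {k : ℕ} (hk : 5 ≤ k) {E : Pole k (Fin 2)} (hE : IsE k E) : ∃ A, IsX k A := by
  obtain ⟨B, -, hB⟩ := E.relabel ulxE
  have hc : 3 + Fintype.card (Fin (k - 3)) * Fintype.card Unit = k := by
    rw [Fintype.card_fin, Fintype.card_unit]; omega
  obtain ⟨A, hT, hA⟩ := dipole (Fin (k - 3)) Unit hc B fun _ _ _ _ _ _ _ => rfl
  refine ⟨A, hT, fun r x hr hr' h => ?_, fun r y hr => ?_⟩
  · obtain ⟨z, w, hw, hF⟩ := (hA r x).1 h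
    obtain ⟨f, κ, hG, -, h0, -, hκ⟩ := dip_frames hc hr hr' (vc z x w) rfl hF (Equiv.refl _)
      fun y => hE.2.1 r _ hr hr' ((hB r _).1 (hw y.1))
    have hne : κ false (some (inl false)) ≠ κ false (some (inl true)) := fun e => by
      simpa using (hG false).inj _ (Finset.mem_univ _) _ (Finset.mem_univ _) e
    have hn := fun b i => (hG b).near (some (inl i)) (Finset.mem_univ _)
    have key := @ulx_lf k r _ _ (hG false).fr (hG true).fr h0 _ _
      ((hG false).lo _ (Finset.mem_univ _)) ((hG false).hi _ (Finset.mem_univ _))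
      ((hG false).lo _ (Finset.mem_univ _)) ((hG false).hi _ (Finset.mem_univ _)) hne
    rcases hκ with ⟨e1, e2⟩ | ⟨e1, e2⟩
    · exact Or.inl (key (hn false true) (e2 ▸ hn true true) (hn false false) (e1 ▸ hn true false))
    · exact Or.inr (key (hn false true) (e2 ▸ hn true false) (hn false false) (e1 ▸ hn true true))
  · have hk' : (5 : ℝ) ≤ k := by exact_mod_cast hk
    have key : ∀ m : ℕ, m = 1 ∨ m = 2 → A.Rel r (q4 y (y + m) (y + m) y) := fun m hm => by
      refine (hA r _).2 ⟨y + (3 - m : ℕ), fun j _ => y + (3 + j.1 : ℕ), fun j => ?_,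
        fun b s s' hs => ?_⟩
      · refine (hB r _).2 (hE.2.2 r _ ((cd_le_of (u := 0) (by linarith) ?_).trans ?_))
        · exact Cg.of_eq (add_zero _).symm
        · rw [abs_zero]; linarith
      · rw [ulx_vc, ulx_vc]
        have h1 := ulxL_lt hm b s
        have h2 := ulxL_lt hm b s'
        exact ulx_far hr y (by omega) (by omega) fun e => hs (ulxL_inj hm b s s' e)
    exact ⟨by simpa using key 1 (Or.inl rfl), by simpa using key 2 (Or.inr rfl)⟩

end Pool.Agent.P.MP_3f5ded_co.UG
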