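import Pool.Agent.P.MP_3f5ded_co.ULE
import Pool.Agent.P.MP_3f5ded_co.ULX
import Pool.Agent.P.MP_3f5ded_co.ULN
import Pool.Agent.P.MP_3f5ded_co.ULPet
import Pool.Agent.P.MP_3f5ded_co.ULFar
import Pool.Agent.P.MP_3f5ded_co.UGEnds

set_option autoImplicit false

namespace Pool.Agent.P.MP_3f5ded_co.UG

open Sum

/-- A closed pole that is colourable at `x` and not below gives a graph. -/
theorem least_of_closed {k : ℕ} {ok : ℝ → Prop} {b : Bool} {R : ℝ → (Fin 0 → ℝ) → Prop}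
    (h : Real' k ok (Fin 0) b R) {a x : ℝ} (ha : 1 ≤ a) (hax : a ≤ x)
    (hok : ∀ r, a ≤ r → r ≤ x → ok r) (h1 : ∀ y, R x y) (h2 : ∀ r y, a ≤ r → r < x → ¬ R r y)
    (h3 : a < x ∨ a = 1) :
    ∃ (n : ℕ) (G : SimpleGraph (Fin n)) (_ : DecidableRel G.Adj), G.IsRegularOfDegree k ∧
      IsLeast {r : ℝ | 1 ≤ r ∧ Col G r} x := by
  obtain ⟨n, G, dec, hreg, hG⟩ := h.close
  refine ⟨n, G, dec, hreg, ⟨by linarith, (hG _ (hok x hax le_rfl) (by linarith) ![]).2 (h1 _)⟩, ?_⟩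
  rintro r ⟨b1, b2⟩
  by_contra hlt
  have hlt' : r < x := not_le.1 hlt
  have b3 : max r a < x := by
    rcases h3 with h3 | rfl
    · exact max_lt hlt' h3
    · rwa [max_eq_left b1]
  have b4 : a ≤ max r a := le_max_right _ _
  exact h2 _ ![] b4 b3 ((hG _ (hok _ b4 b3.le) (by linarith) ![]).1 (b2.mono (le_max_left _ _)))

/-- Every rational in `[k, k + 1 / 2]` is the least circle length of some `k`-regular graph. -/
theorem main_odd {k : ℕ} (hk : 5 ≤ k) (ho : Odd k) (x : ℚ) (h1 : (k : ℚ) ≤ x)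
    (h2 : x ≤ k + 1 / 2) :
    ∃ (n : ℕ) (G : SimpleGraph (Fin n)) (_ : DecidableRel G.Adj), G.IsRegularOfDegree k ∧
      IsLeast {r : ℝ | 1 ≤ r ∧ Col G r} (x : ℝ) := by
  have hk' : (5 : ℝ) ≤ k := by exact_mod_cast hk
  obtain ⟨E, hE⟩ := exists_E hk ho
  obtain ⟨X, hX⟩ := exists_X hk hE
  rcases h1.eq_or_lt with rfl | h1
  · refine least_of_closed ((hE.1.real fun _ => True).clo (hE.1.real fun _ => True)) le_rfl
      (by push_cast; linarith) (fun _ _ _ => trivial) (fun _ => ?_) ?_ (Or.inr rfl)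
    · have e : E.Rel ((k : ℚ) : ℝ) ![0, 0] := by
        refine hE.2.2 _ _ ((cd_le_of (u := 0) (by push_cast; linarith) (Cg.of_eq ?_)).trans ?_)
        · simp
        · simp
      exact ⟨_, e, e⟩
    · rintro r y a1 a2 ⟨w, a3, -⟩
      push_cast at a2
      have := hE.2.1 r w a1 (by linarith) a3
      have := cd_nonneg r (w 0) (w 1)
      linarith
  rcases h2.eq_or_lt with rfl | h2
  · obtain ⟨A, a1, a2⟩ := exists_half hk hE hX
    have e : (((k : ℚ) + 1 / 2 : ℚ) : ℝ) = k + 1 / 2 := by push_cast; ring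
    rw [e]
    exact least_of_closed (A.real fun _ => True) le_rfl (by linarith) (fun _ _ _ => trivial) a1 a2
      (Or.inr rfl)
  have h1' : (k : ℝ) < x := by exact_mod_cast h1
  have h2' : (x : ℝ) < k + 1 / 2 := by
    have := (Rat.cast_lt (K := ℝ)).2 h2
    push_cast at this
    exact this
  obtain ⟨N, hN⟩ := exists_N hk ho hX
  obtain ⟨H, hH⟩ := exists_H hk hN
  obtain ⟨F, hF⟩ := exists_F hk hE hX h1' h2'
  obtain ⟨L, M, hL, hM, hq⟩ := exists_ratio (α := 2 - 4 * (x - k)) (β := x - k) (by linarith)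
    (by linarith)
  obtain ⟨R, hR, a1, a2⟩ := exists_closed (k := k) (ok := fun r => (k : ℝ) ≤ r ∧ r ≤ x)
    (s := fun r => r - k) (φ := fun r => 2 - (r - k)) (hE.1.real _) (hF.1.real _) (hH.1.real _)
    (fun r hr => by linarith [hr.1]) (r0 := x) ⟨h1'.le, le_rfl⟩ (by linarith)
    (fun r y hr h => hE.2.1 r y (by linarith [hr.1]) (by linarith [hr.2]) h) (hE.2.2 x)
    (fun r y hr h => hF.2.1 r y hr.1 hr.2 h) hF.2.2
    (fun r y hr h => hH.2.1 r y (by linarith [hr.1]) (by linarith [hr.2]) h) (hH.2.2 x) L M hL hM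
    (by push_cast at hq; linarith) (fun r _ hr => ⟨by linarith, by linarith⟩)
  exact least_of_closed hR (a := k) (by linarith) h1'.le (fun r b1 b2 => ⟨b1, b2⟩) a1
    (fun r y b1 b2 => a2 r y ⟨b1, b2.le⟩ b2) (Or.inl h1')

/-- The values for `k = 7`. -/
theorem main_seven (x : ℝ) :
    (∃ (n : ℕ) (G : SimpleGraph (Fin n)) (_ : DecidableRel G.Adj), 0 < n ∧
      G.IsRegularOfDegree 7 ∧ sInf {r : ℝ | 1 ≤ r ∧ Col G r} = x) ↔
      ∃ q : ℚ, x = q ∧ 7 ≤ q ∧ q ≤ 8 :=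
  seven_iff (fun q h1 h2 => main_odd (by norm_num) (by decide) q (by exact_mod_cast h1.le)
    (by push_cast; linarith)) x

end Pool.Agent.P.MP_3f5ded_co.UG
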