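import Pool.Agent.P.MP_3f5ded_co.UEE
import Pool.Agent.P.MP_3f5ded_co.UELamB
import Pool.Agent.P.MP_3f5ded_co.UEWire
import Pool.Agent.P.MP_3f5ded_co.UEChain
import Pool.Agent.P.MP_3f5ded_co.ULMain

set_option autoImplicit false

namespace Pool.Agent.P.MP_3f5ded_co.UG

open Sum

/-- Every rational in `[k, k + 1 / 2]` is the least circle length of some `k`-regular graph. -/
theorem main_even {k : ℕ} (hk : 6 ≤ k) (he : Even k) (x : ℚ) (h1 : (k : ℚ) ≤ x)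
    (h2 : x ≤ k + 1 / 2) :
    ∃ (n : ℕ) (G : SimpleGraph (Fin n)) (_ : DecidableRel G.Adj), G.IsRegularOfDegree k ∧
      IsLeast {r : ℝ | 1 ≤ r ∧ Col G r} (x : ℝ) := by
  obtain ⟨E, hE⟩ := exists_E_even (k := k) (by omega) he
  rcases h1.eq_or_lt with rfl | h1
  · simpa using end_low k (by omega)
  have hk' : (6 : ℝ) ≤ k := by exact_mod_cast hk
  rcases h2.eq_or_lt with rfl | h2
  · obtain ⟨X, hX⟩ := exists_X (by omega) hE
    obtain ⟨A, a1, a2⟩ := exists_half (by omega) hE hX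
    have e : (((k : ℚ) + 1 / 2 : ℚ) : ℝ) = k + 1 / 2 := by push_cast; ring
    rw [e]
    exact least_of_closed (A.real fun _ => True) le_rfl (by linarith) (fun _ _ _ => trivial) a1 a2
      (Or.inr rfl)
  have h1' : (k : ℝ) < x := by exact_mod_cast h1
  have h2' : (x : ℝ) < k + 1 / 2 := by
    have := (Rat.cast_lt (K := ℝ)).2 h2
    push_cast at this
    exact this
  have hs : 0 < (x : ℝ) - k := by linarith
  obtain ⟨m, hm, m1, m2⟩ : ∃ m : ℕ, 1 ≤ m ∧ (m + 1) * ((x : ℝ) - k) < 1 ∧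
      1 ≤ (m + 2) * ((x : ℝ) - k) := by
    have a1 := Nat.le_ceil (1 / ((x : ℝ) - k))
    have a2 := Nat.ceil_lt_add_one (by positivity : 0 ≤ 1 / ((x : ℝ) - k))
    have a3 : 2 < ⌈1 / ((x : ℝ) - k)⌉₊ := Nat.lt_ceil.2 (by rw [lt_div_iff₀ hs]; push_cast; linarith)
    obtain ⟨m, hm⟩ : ∃ m, ⌈1 / ((x : ℝ) - k)⌉₊ = m + 2 := ⟨⌈1 / ((x : ℝ) - k)⌉₊ - 2, by omega⟩
    rw [hm] at a1 a2 a3
    push_cast at a1 a2
    rw [div_le_iff₀ hs] at a1
    exact ⟨m, by omega, (lt_div_iff₀ hs).1 (by linarith), a1⟩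
  obtain ⟨L, hL⟩ := exists_L hk he hm hE
  obtain ⟨W, hW⟩ := exists_W hk hm hE hL
  obtain ⟨K, hK⟩ := exists_K hk hm hE hL
  obtain ⟨A, a1, a2⟩ := exists_ring hk hm hE hL hW hK x m1 m2
  exact least_of_closed (A.real fun _ => True) le_rfl (by linarith) (fun _ _ _ => trivial) a1 a2
    (Or.inr rfl)

/-- The lower half for every degree at least five. -/
theorem main_lower {k : ℕ} (hk : 5 ≤ k) (x : ℚ) (h1 : (k : ℚ) ≤ x) (h2 : x ≤ k + 1 / 2) :
    ∃ (n : ℕ) (G : SimpleGraph (Fin n)) (_ : DecidableRel G.Adj), G.IsRegularOfDegree k ∧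
      IsLeast {r : ℝ | 1 ≤ r ∧ Col G r} (x : ℝ) := by
  rcases Nat.even_or_odd k with h | h
  · exact main_even (by obtain ⟨t, ht⟩ := h; omega) h x h1 h2
  · exact main_odd hk h x h1 h2

end Pool.Agent.P.MP_3f5ded_co.UG
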