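import Pool.Agent.P.MP_3f5ded_co.USHel

set_option autoImplicit false

namespace Pool.Agent.P.MP_3f5ded_co.UG

open Sum Finset
open scoped Classical

/-- Three points in this cyclic order with gaps at most `C, A, B` plus `r - k`. -/
def TL0 (k : ℕ) (r A B C p q z : ℝ) : Prop :=
  ∃ q' z', Cg r q q' ∧ Cg r z z' ∧ q' - p ≤ C + (r - k) ∧ z' - q' ≤ A + (r - k) ∧
    p + r - z' ≤ B + (r - k)

/-- The port relation of the capped block: the gap between two ports is bounded by the size of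
the third star, in one of the two cyclic orders. -/
def TL (k : ℕ) (μ : Fin 3 → ℕ) (r : ℝ) (x : Fin 3 → ℝ) : Prop :=
  TL0 k r (μ 0) (μ 1) (μ 2) (x 0) (x 1) (x 2) ∨ TL0 k r (μ 0) (μ 2) (μ 1) (x 0) (x 2) (x 1)

/-- Stars of sizes `μ`, ports with owners `ow`, live ports `lv` and caps `pa`. -/
structure Prt {Q Pt : Type} [Fintype Q] [Fintype Pt] (k : ℕ) (μ : Fin 3 → ℕ) (sr : Q → Fin 3)
    (ow : Pt → Fin 3) (lv : Fin 3 → Pt) (pa : Pt → Pt) : Prop where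
  cq : Fintype.card Q + 1 = k
  cs : ∀ i, (univ.filter fun q => sr q = i).card = μ i
  cp : ∀ i, (univ.filter fun p => ow p = i).card + 1 = μ i
  olv : ∀ i, ow (lv i) = i
  inv : ∀ p, pa (pa p) = p
  fix : ∀ p, pa p = p ↔ ∃ i, p = lv i
  dif : ∀ p, pa p ≠ p → ow (pa p) ≠ ow p

/-- The ports are far from everything else at their centres. -/
structure Cen {Q Pt : Type} (r : ℝ) (sr : Q → Fin 3) (ow : Pt → Fin 3) (C : Q → Q ⊕ Fin 3 → ℝ)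
    (w : Fin 3 → ℝ) (π : Pt → ℝ) : Prop where
  pq : ∀ p q, ow p ≠ sr q → Far r (π p) (C q (inr (ow p)))
  pw : ∀ p j, j ≠ ow p → Far r (π p) (w j)
  pp : ∀ p p', p ≠ p' → ow p = ow p' → Far r (π p) (π p')

/-- Colourings of the capped block with live ports `x`. -/
def Full {Q Pt : Type} (k : ℕ) (sr : Q → Fin 3) (ow : Pt → Fin 3) (lv : Fin 3 → Pt) (pa : Pt → Pt)
    (r : ℝ) (x : Fin 3 → ℝ) : Prop :=
  ∃ C w π, Blk r sr C w ∧ Cen r sr ow C w π ∧ (∀ p, pa p ≠ p → cd r (π p) (π (pa p)) ≤ r - k) ∧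
    ∀ i, π (lv i) = x i

/-- Two rounds that one vertex may use. -/
def Ap (k : ℕ) (a b : ℤ) : Prop :=
  ¬(2 * (k : ℤ) + 1) ∣ a - b ∧ ¬(2 * (k : ℤ) + 1) ∣ a - b - k ∧ ¬(2 * (k : ℤ) + 1) ∣ a - b - k - 1

/-- A design: rounds modulo `2 k + 1` for all edges and ports. -/
structure Des {Q Pt : Type} (k : ℕ) (μ : Fin 3 → ℕ) (sr : Q → Fin 3) (ow : Pt → Fin 3)
    (lv : Fin 3 → Pt) (pa : Pt → Pt) (H : Q → Q ⊕ Fin 3 → ℤ) (W : Fin 3 → ℤ) (L : Pt → ℤ) :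
    Prop where
  sym : ∀ q y, y ≠ q → (2 * (k : ℤ) + 1) ∣ H q (inl y) - H y (inl q)
  far : ∀ q e e', Va sr q e → Va sr q e' → e ≠ e' → Ap k (H q e) (H q e')
  zqq : ∀ i q y, i ≠ sr q → i ≠ sr y → q ≠ y → Ap k (H q (inr i)) (H y (inr i))
  zqw : ∀ i q j, i ≠ sr q → j ≠ i → Ap k (H q (inr i)) (W j)
  zww : ∀ i j, i ≠ j → Ap k (W i) (W j)
  pq : ∀ p q, ow p ≠ sr q → Ap k (L p) (H q (inr (ow p)))
  pw : ∀ p j, j ≠ ow p → Ap k (L p) (W j)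
  pp : ∀ p p', p ≠ p' → ow p = ow p' → Ap k (L p) (L p')
  cap : ∀ p, pa p ≠ p → (2 * (k : ℤ) + 1) ∣ L p - L (pa p) - k ∨
    (2 * (k : ℤ) + 1) ∣ L p - L (pa p) - k - 1
  s1 : (2 * (k : ℤ) + 1) ∣ L (lv 1) - L (lv 0) - μ 2 - k - 1
  s2 : (2 * (k : ℤ) + 1) ∣ L (lv 2) - L (lv 1) - μ 0 - k - 1

/-- A block with stars of sizes `μ` has a design. -/
def Nod (k : ℕ) (μ : Fin 3 → ℕ) : Prop :=
  ∃ (Q Pt : Type) (_ : Fintype Q) (_ : Fintype Pt) (sr : Q → Fin 3) (ow : Pt → Fin 3)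
    (lv : Fin 3 → Pt) (pa : Pt → Pt) (H : Q → Q ⊕ Fin 3 → ℤ) (W : Fin 3 → ℤ) (L : Pt → ℤ),
    Prt k μ sr ow lv pa ∧ Des k μ sr ow lv pa H W L

/-- The range of circle lengths in which the blocks are rigid. -/
def okk (k : ℕ) (r : ℝ) : Prop := 1 ≤ r ∧ r < k + 1

end Pool.Agent.P.MP_3f5ded_co.UG
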