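import Pool.Agent.P.MP_3f5ded_co.USCell
import Pool.Agent.P.MP_3f5ded_co.USDefs
import Pool.Agent.P.MP_3f5ded_co.UEMain

set_option autoImplicit false

namespace Pool.Agent.P.MP_3f5ded_co.UG

open Sum

section Drift

variable {k : ℕ} {ok : ℝ → Prop}

/-- A near pair followed by `j` elastic wires. -/
theorem exists_ext {s b : ℝ → ℝ} {Φ : ℝ → Prop} {RE R : ℝ → (Fin 2 → ℝ) → Prop}
    (hE : Real' k ok (Fin 2) true RE) (hR : Real' k ok (Fin 2) true R)
    (hpos : ∀ r, ok r → 0 < r) {r0 : ℝ} (hok : ok r0) (hs : 0 < s r0)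
    (E1 : ∀ r x, ok r → RE r x → cd r (x 0) (x 1) ≤ s r)
    (E2 : ∀ x : Fin 2 → ℝ, cd r0 (x 0) (x 1) ≤ s r0 → RE r0 x)
    (R1 : ∀ r x, ok r → R r x → cd r (x 0) (x 1) ≤ b r ∧ Φ r) (R2 : ∀ p, R r0 ![p, p - b r0])
    (j : ℕ) : ∃ R', Real' k ok (Fin 2) true R' ∧
      (∀ r x, ok r → R' r x → cd r (x 0) (x 1) ≤ b r + j * s r ∧ Φ r) ∧
      ∀ p, R' r0 ![p, p - (b r0 + j * s r0)] := by
  induction j with
  | zero => exact ⟨R, hR, fun r x hr h => by simpa using R1 r x hr h, fun p => by simpa using R2 p⟩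
  | succ j ih =>
    obtain ⟨R', h1, h2, h3⟩ := ih
    refine ⟨_, h1.ser hE, ?_, fun p => ⟨_, h3 p, E2 _ ?_⟩⟩
    · rintro r x hr ⟨y, a1, a2⟩
      have b1 : cd r (x 0) y ≤ b r + j * s r := (h2 r _ hr a1).1
      have b2 : cd r y (x 1) ≤ s r := E1 r _ hr a2
      have b3 := cd_tri (hpos r hr) (x 0) y (x 1)
      refine ⟨?_, (h2 r _ hr a1).2⟩
      push_cast
      linarith
    · change cd r0 (p - (b r0 + j * s r0)) (p - (b r0 + ((j + 1 : ℕ) : ℝ) * s r0)) ≤ s r0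
      refine (cd_le_of (u := -s r0) (hpos r0 hok) (Cg.of_eq ?_)).trans ?_
      · push_cast
        ring
      · rw [abs_neg, abs_of_pos hs]

/-- The chain of drift cells. -/
theorem exists_dchain {s κ β : ℝ → ℝ} {RE : ℝ → (Fin 2 → ℝ) → Prop}
    {RI : ℝ → (Fin 4 → ℝ) → Prop} (hE : Real' k ok (Fin 2) true RE)
    (hI : Real' k ok (Fin 4) true RI) (hpos : ∀ r, ok r → 0 < r) {r0 : ℝ} (hok : ok r0)
    (hs : 0 < s r0) (E1 : ∀ r x, ok r → RE r x → cd r (x 0) (x 1) ≤ s r)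
    (E2 : ∀ x : Fin 2 → ℝ, cd r0 (x 0) (x 1) ≤ s r0 → RE r0 x)
    (I1 : ∀ r x, ok r → RI r x → cd r (x 2) (x 3) ≤ β r + s r ∧
      cd r (x 2) (x 3) ≤ cd r (x 0) (x 1) + κ r ∧ β r ≤ cd r (x 0) (x 1) + κ r)
    (I2 : ∀ v c, β r0 ≤ v → v ≤ β r0 + s r0 → ∃ a, RI r0 ![a, a - (v - κ r0), c + v, c])
    (S : ℕ → ℕ) (S0 : S 0 = 0) (S1 : ∀ t, S t ≤ S (t + 1))
    (S2 : ∀ t : ℕ, 0 ≤ s r0 + t * κ r0 + S t * s r0 ∧ t * κ r0 + S t * s r0 ≤ 0) (t : ℕ) :
    ∃ R, Real' k ok (Fin 2) true R ∧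
      (∀ r x, ok r → R r x → cd r (x 0) (x 1) ≤ β r + s r + t * κ r + S t * s r ∧
        (t ≠ 0 → 0 ≤ s r + t * κ r + S t * s r)) ∧
      ∀ p, R r0 ![p, p - (β r0 + s r0 + t * κ r0 + S t * s r0)] := by
  induction t with
  | zero =>
    obtain ⟨R, h1, h2⟩ := exists_free hE hok (hpos r0 hok) hs E2
    refine ⟨_, h1.cap hI, ?_, fun p => ?_⟩
    · rintro r x hr ⟨a, b, -, a2⟩
      have b1 : cd r (x 0) (x 1) ≤ β r + s r := (I1 r _ hr a2).1
      rw [S0]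
      push_cast
      exact ⟨by linarith, fun h => absurd rfl h⟩
    · obtain ⟨a, ha⟩ := I2 (β r0 + s r0) (p - (β r0 + s r0)) (by linarith) le_rfl
      rw [sub_add_cancel] at ha
      refine ⟨a, a - (β r0 + s r0 - κ r0), h2 _, ?_⟩
      have e : β r0 + s r0 + ((0 : ℕ) : ℝ) * κ r0 + S 0 * s r0 = β r0 + s r0 := by
        rw [S0]
        push_cast
        ring
      rw [e]
      exact ha
  | succ t ih =>
    obtain ⟨R, h1, h2, h3⟩ := ih
    obtain ⟨j, hj⟩ := Nat.exists_eq_add_of_le (S1 t)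
    obtain ⟨G, g1, g2, g3⟩ := exists_ext (b := fun r => β r + s r + t * κ r + S t * s r) hE h1
      hpos hok hs E1 E2 h2 h3 j
    have hj' : (S (t + 1) : ℝ) = S t + j := by exact_mod_cast hj
    refine ⟨_, g1.cap hI, ?_, fun p => ?_⟩
    · rintro r x hr ⟨a, b, a1, a2⟩
      have b1 : cd r (x 0) (x 1) ≤ cd r a b + κ r := (I1 r _ hr a2).2.1
      have b2 : β r ≤ cd r a b + κ r := (I1 r _ hr a2).2.2
      have b3 : cd r a b ≤ β r + s r + t * κ r + S t * s r + j * s r := (g2 r _ hr a1).1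
      rw [hj']
      push_cast
      exact ⟨by linarith, fun _ => by linarith⟩
    · obtain ⟨c1, c2⟩ := S2 (t + 1)
      obtain ⟨v, hv⟩ : ∃ v, v = β r0 + s r0 + ((t + 1 : ℕ) : ℝ) * κ r0 + S (t + 1) * s r0 :=
        ⟨_, rfl⟩
      rw [← hv]
      obtain ⟨a, ha⟩ := I2 v (p - v) (by linarith) (by linarith)
      rw [sub_add_cancel] at ha
      refine ⟨a, _, ?_, ha⟩
      have e : v - κ r0 = β r0 + s r0 + t * κ r0 + S t * s r0 + j * s r0 := by
        rw [hv, hj']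
        push_cast
        ring
      rw [e]
      exact g3 a

/-- The closed drift chain is colourable at `r0` and not below. -/
theorem exists_drift {s κ β : ℝ → ℝ} {RE : ℝ → (Fin 2 → ℝ) → Prop}
    {RI : ℝ → (Fin 4 → ℝ) → Prop} (hE : Real' k ok (Fin 2) true RE)
    (hI : Real' k ok (Fin 4) true RI) (hpos : ∀ r, ok r → 0 < r) {r0 : ℝ} (hok : ok r0)
    (hs : 0 < s r0) (E1 : ∀ r x, ok r → RE r x → cd r (x 0) (x 1) ≤ s r)
    (E2 : ∀ x : Fin 2 → ℝ, cd r0 (x 0) (x 1) ≤ s r0 → RE r0 x)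
    (I1 : ∀ r x, ok r → RI r x → cd r (x 2) (x 3) ≤ β r + s r ∧
      cd r (x 2) (x 3) ≤ cd r (x 0) (x 1) + κ r ∧ β r ≤ cd r (x 0) (x 1) + κ r)
    (I2 : ∀ v c, β r0 ≤ v → v ≤ β r0 + s r0 → ∃ a, RI r0 ![a, a - (v - κ r0), c + v, c])
    (L N : ℕ) (hL : 0 < L) (hN : 0 < N) (hq : L * (-κ r0) = N * s r0)
    (hm : ∀ r, ok r → r < r0 → κ r ≤ κ r0 ∧ s r < s r0) :
    ∃ R, Real' k ok (Fin 0) true R ∧ (∀ x, R r0 x) ∧ ∀ r x, ok r → r < r0 → ¬ R r x := by
  have hL' : (0 : ℝ) < L := by exact_mod_cast hL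
  have hN' : (0 : ℝ) < N := by exact_mod_cast hN
  obtain ⟨q, hq0, hq1, hq2⟩ : ∃ q : ℝ, 0 < q ∧ L * q = N ∧ κ r0 = -q * s r0 := by
    refine ⟨N / L, div_pos hN' hL', mul_div_cancel₀ _ hL'.ne', ?_⟩
    field_simp
    linarith
  have hS : ∀ t : ℕ, t * q - 1 ≤ ((⌈t * q⌉₊ - 1 : ℕ) : ℝ) ∧ ((⌈t * q⌉₊ - 1 : ℕ) : ℝ) ≤ t * q := by
    intro t
    have h0 : 0 ≤ t * q := by positivity
    have h1 := Nat.le_ceil (t * q)
    have h2 := Nat.ceil_lt_add_one h0
    generalize ⌈t * q⌉₊ = n at h1 h2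
    rcases n with _ | n
    · simp only [Nat.zero_sub, Nat.cast_zero] at h1 ⊢
      constructor <;> linarith
    · simp only [Nat.add_sub_cancel]
      push_cast at h1 h2
      constructor <;> linarith
  obtain ⟨R, h1, h2, h3⟩ := exists_dchain hE hI hpos hok hs E1 E2 I1 I2
    (fun t => ⌈t * q⌉₊ - 1) (by simp)
    (fun t => Nat.sub_le_sub_right (Nat.ceil_mono (by push_cast; linarith)) 1)
    (fun t => by
      obtain ⟨a1, a2⟩ := hS t
      have b1 := mul_le_mul_of_nonneg_right a1 hs.le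
      have b2 := mul_le_mul_of_nonneg_right a2 hs.le
      rw [hq2]
      constructor <;> linarith) L
  obtain ⟨F, f1, f2⟩ := exists_free hE hok (hpos r0 hok) hs E2
  refine ⟨_, h1.clo f1, fun _ => ⟨_, h3 0, f2 _⟩, ?_⟩
  rintro r x hr hlt ⟨y, a1, -⟩
  have b1 := (h2 r y hr a1).2 hL.ne'
  obtain ⟨b2, b3⟩ := hm r hr hlt
  have e : ((⌈L * q⌉₊ - 1 : ℕ) : ℝ) = N - 1 := by
    rw [hq1, Nat.ceil_natCast, Nat.cast_sub hN, Nat.cast_one]
  simp only [e] at b1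
  have b4 := mul_le_mul_of_nonneg_left b2 hL'.le
  have b6 := mul_lt_mul_of_pos_left b3 hN'
  linarith

end Drift

lemma TL_iff {k a M : ℕ} {r : ℝ} {x : Fin 3 → ℝ} :
    TL k ![M, M, a] r x ↔ TA r (a + (r - k)) (M + (r - k)) (x 0) (x 1) (x 2) := by
  change TL0 k r M M a _ _ _ ∨ TL0 k r M a M _ _ _ ↔ _
  constructor
  · rintro (⟨u, v, ⟨n, hn⟩, ⟨m, hm⟩, h1, h2, h3⟩ | ⟨u, v, ⟨n, hn⟩, ⟨m, hm⟩, h1, h2, h3⟩)
    · exact ⟨1, u - x 0, v - u, x 0 + r - v, Or.inl rfl, by ring, h1, h2, h3,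
        ⟨n, by push_cast; linarith⟩, ⟨m - n, by push_cast; linarith⟩,
        ⟨-m - 1, by push_cast; linarith⟩⟩
    · exact ⟨-1, x 0 + r - v, v - u, u - x 0, Or.inr rfl, by ring, h3, h2, h1,
        ⟨m + 1, by push_cast; linarith⟩, ⟨n - m, by push_cast; linarith⟩,
        ⟨-n, by push_cast; linarith⟩⟩
  · rintro ⟨e, u, v, w, rfl | rfl, h0, h1, h2, h3, ⟨n, hn⟩, ⟨m, hm⟩, ⟨l, hl⟩⟩
    · exact Or.inl ⟨x 0 + u, x 0 + u + v, ⟨n, by push_cast at *; linarith⟩,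
        ⟨n + m, by push_cast at *; linarith⟩, by linarith, by linarith, by linarith⟩
    · exact Or.inr ⟨x 0 + w, x 0 + w + v, ⟨-l, by push_cast at *; linarith⟩,
        ⟨n - 1, by push_cast at *; linarith⟩, by linarith, by linarith, by linarith⟩

/-- A closed pole that is colourable at `x` and not below. -/
theorem closed_upper {k a M : ℕ} (hk : a + 2 * M + 1 = k) (ha : 2 ≤ a)
    (hM : a + 2 ≤ M ∨ (a = M ∧ 3 ≤ a))
    (hT : Real' k (fun r => 1 ≤ r ∧ r < k + 1) (Fin 3) true (fun r x => TL k ![M, M, a] r x))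
    (x : ℚ) (h1 : (k : ℚ) + 1 / 2 < x) (h2 : x < k + 1) :
    ∃ R, Real' k (fun r => 1 ≤ r ∧ r < k + 1) (Fin 0) true R ∧ (∀ y, R x y) ∧
      ∀ (r : ℝ) y, (1 ≤ r ∧ r < k + 1) → r < x → ¬ R r y := by
  have hT' := hT.congr fun _ _ _ => TL_iff
  have hk' : (a : ℝ) + 2 * M + 1 = k := by exact_mod_cast hk
  have ha' : (2 : ℝ) ≤ a := by exact_mod_cast ha
  have hM' : (a : ℝ) ≤ M := by exact_mod_cast (by omega : a ≤ M)
  have h1' : (k : ℝ) + 1 / 2 < x := by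
    have := (Rat.cast_lt (K := ℝ)).2 h1
    push_cast at this
    exact this
  have h2' : (x : ℝ) < k + 1 := by exact_mod_cast h2
  have hok : 1 ≤ (x : ℝ) ∧ (x : ℝ) < k + 1 := ⟨by linarith, h2'⟩
  have hpos : ∀ r : ℝ, (1 ≤ r ∧ r < k + 1) → 0 < r := fun r hr => by linarith [hr.1]
  have c1 : ∀ r : ℝ, (1 ≤ r ∧ r < k + 1) →
      3 * (a + (r - k) + 2 * (M + (r - k)) - r) < a + (r - k) := fun r hr => by linarith [hr.2]
  obtain ⟨E, hE, E1, E2⟩ := real_dig (A := fun r => a + (r - k)) (B := fun r => M + (r - k)) hT' c1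
    fun _ _ => by linarith
  have hs : (0 : ℝ) < a + (x - k) + 2 * (M + (x - k)) - x := by linarith
  rcases hM with hM | ⟨rfl, h3⟩
  · have hM'' : (a : ℝ) + 2 ≤ M := by exact_mod_cast hM
    have hq : (a : ℚ) + 2 ≤ M := by exact_mod_cast hM
    obtain ⟨I, hI, I1, I2⟩ := real_sq (A := fun r => a + (r - k)) (B := fun r => M + (r - k)) hT' c1
      fun r hr => by linarith [hr.2]
    obtain ⟨L, N, hL, hN, hq⟩ := exists_ratio (α := M - a + 2 - 4 * (x - k))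
      (β := 2 * (x - k) - 1) (by linarith) (by linarith)
    refine exists_drift (s := fun r => a + (r - k) + 2 * (M + (r - k)) - r)
      (κ := fun r => 3 * (a + (r - k)) + 3 * (M + (r - k)) - 2 * r) (β := fun r => a + (r - k))
      hE hI hpos hok hs E1 (fun y => E2 x y hok) I1 (I2 x) L N hL hN ?_ ?_
    · push_cast at hq
      rw [← hk'] at hq ⊢
      linarith
    · intro r _ hr
      constructor <;> linarith
  · have h3' : (3 : ℝ) ≤ a := by exact_mod_cast h3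
    have hq : (3 : ℚ) ≤ a := by exact_mod_cast h3
    have hG : ∀ r : ℝ, (1 ≤ r ∧ r < k + 1) → 8 * (a + (r - k)) < 3 * r := fun r hr => by
      linarith [hr.2]
    obtain ⟨I, hI, I1, I2⟩ := realI (M := fun r => a + (r - k)) hT' hG
    have e : ∀ r : ℝ, 3 * (a + (r - k)) - r = a + (r - k) + 2 * (a + (r - k)) - r := fun r => by
      ring
    simp only [e] at I1 I2
    obtain ⟨F, hF, hF'⟩ := exists_free hE hok (hpos _ hok) hs fun y => E2 x y hok
    obtain ⟨D, hD, D1, D2⟩ := realF (M := fun r => a + (r - k)) hT' hG (by linarith) hF hF'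
    obtain ⟨L, N, hL, hN, hq⟩ := exists_ratio (α := a + 4 - 7 * (x - k))
      (β := 2 * (x - k) - 1) (by linarith) (by linarith)
    refine exists_closed (s := fun r => a + (r - k) + 2 * (a + (r - k)) - r)
      (φ := fun r => r - 2 * (a + (r - k))) hE hD hI hpos hok hs E1 (fun y => E2 x y hok) D1 D2 I1
      (I2 x) L N hL hN ?_ ?_
    · push_cast at hq
      rw [← hk'] at hq ⊢
      linarith
    · intro r _ hr
      constructor <;> linarith

/-- With a rigid block, the values for the degree `k` are all rationals in `[k, k + 1]`. -/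
theorem iff_of_block {k a M : ℕ} (hk : a + 2 * M + 1 = k) (ha : 2 ≤ a)
    (hM : a + 2 ≤ M ∨ (a = M ∧ 3 ≤ a))
    (hT : Real' k (fun r => 1 ≤ r ∧ r < k + 1) (Fin 3) true (fun r x => TL k ![M, M, a] r x))
    (x : ℝ) :
    (∃ (n : ℕ) (G : SimpleGraph (Fin n)) (_ : DecidableRel G.Adj), 0 < n ∧
      G.IsRegularOfDegree k ∧ sInf {r : ℝ | 1 ≤ r ∧ Col G r} = x) ↔
      ∃ q : ℚ, x = q ∧ (k : ℚ) ≤ q ∧ q ≤ k + 1 := by
  constructor
  · rintro ⟨n, G, dec, hn, hreg, rfl⟩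
    exact value_mem G hn hreg
  · rintro ⟨q, rfl, h1, h2⟩
    have hk5 : 5 ≤ k := by omega
    have hk' : (5 : ℝ) ≤ k := by exact_mod_cast hk5
    have h1' : (k : ℝ) ≤ q := by exact_mod_cast h1
    have key : ∃ (n : ℕ) (G : SimpleGraph (Fin n)) (_ : DecidableRel G.Adj),
        G.IsRegularOfDegree k ∧ IsLeast {r : ℝ | 1 ≤ r ∧ Col G r} (q : ℝ) := by
      rcases le_or_gt q (k + 1 / 2) with h3 | h3
      · exact main_lower hk5 q h1 h3
      rcases h2.eq_or_lt with rfl | h2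
      · have e : (a : ℝ) + 2 * M + 1 = k := by exact_mod_cast hk
        have ha' : (2 : ℝ) ≤ a := by exact_mod_cast ha
        have hM' : (a : ℝ) ≤ M := by exact_mod_cast (by omega : a ≤ M)
        obtain ⟨R, hR, a1⟩ := real_never (A := fun r => a + (r - k)) (B := fun r => M + (r - k))
          (hT.congr fun _ _ _ => TL_iff) (fun r hr => by linarith [hr.2]) fun _ _ => by linarith
        exact_mod_cast end_high_of hR one_pos (by linarith) (fun r b1 b2 => ⟨b1, b2⟩) a1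
      · obtain ⟨R, hR, a1, a2⟩ := closed_upper hk ha hM hT q h3 h2
        have h2' : (q : ℝ) < k + 1 := by exact_mod_cast h2
        exact least_of_closed hR le_rfl (by linarith) (fun r b1 b2 => ⟨b1, by linarith⟩) a1
          (fun r y b1 b2 => a2 r y ⟨b1, by linarith⟩ b2) (Or.inr rfl)
    obtain ⟨n, G, dec, hreg, hl⟩ := key
    exact ⟨n, G, dec, pos_of_value G (by linarith) hl, hreg, hl.csInf_eq⟩

/-- Every odd degree at least eleven has a block of one of the two shapes. -/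
theorem iff_odd {k : ℕ} (hk : 11 ≤ k) (ho : Odd k)
    (hB : ∀ a M : ℕ, a = 2 ∨ a = 4 → Even M → 4 ≤ M → a + 2 * M + 1 = k →
      Real' k (fun r => 1 ≤ r ∧ r < k + 1) (Fin 3) true (fun r x => TL k ![M, M, a] r x))
    (x : ℝ) :
    (∃ (n : ℕ) (G : SimpleGraph (Fin n)) (_ : DecidableRel G.Adj), 0 < n ∧
      G.IsRegularOfDegree k ∧ sInf {r : ℝ | 1 ≤ r ∧ Col G r} = x) ↔
      ∃ q : ℚ, x = q ∧ (k : ℚ) ≤ q ∧ q ≤ k + 1 := by
  obtain ⟨t, ht⟩ := ho
  rcases Nat.even_or_odd' t with ⟨u, hu | hu⟩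
  · exact iff_of_block (a := 4) (M := 2 * u - 2) (by omega) (by omega) (by omega)
      (hB _ _ (Or.inr rfl) ⟨u - 1, by omega⟩ (by omega) (by omega)) x
  · exact iff_of_block (a := 2) (M := 2 * u) (by omega) (by omega) (by omega)
      (hB _ _ (Or.inl rfl) ⟨u, by omega⟩ (by omega) (by omega)) x

end Pool.Agent.P.MP_3f5ded_co.UG
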