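import Pool.Agent.P.MP_3f5ded_co.U10Blk
import Pool.Agent.P.MP_3f5ded_co.U10Ar
import Pool.Agent.P.MP_3f5ded_co.USChain

set_option autoImplicit false

namespace Pool.Agent.P.MP_3f5ded_co.UG.B10

open Sum

/-- The wires of the cell. -/
def tC : (Fin 2 × Fin 8) ⊕ Fin 4 → (Fin 2 × Fin 8) ⊕ Fin 4
  | inl p => ![![inl (1, 0), inl (1, 1), inr 2, inl (1, 2), inr 1, inl (1, 4), inl (1, 5),
      inl (1, 6)], ![inl (0, 0), inl (0, 1), inl (0, 3), inr 3, inl (0, 5), inl (0, 6), inl (0, 7),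
      inr 0]] p.1 p.2
  | inr j => inl (![(1, 7), (0, 4), (0, 2), (1, 3)] j)

/-- The edges of the cell. -/
def eC : (Fin 2 × Fin 8) ⊕ Fin 4 → Fin 10
  | inl p => ![![4, 5, 2, 6, 1, 7, 8, 9], ![4, 5, 6, 3, 7, 8, 9, 0]] p.1 p.2
  | inr j => ![0, 1, 2, 3] j

lemma sp_one : Sp ![1, 4, 2, 5, 7, 0, 3, 6, 8, 9, 10] ![5, 0, 2, 6, 1, 3, 7, 4] := by
  decide +kernel

lemma sp_two : Sp ![2, 5, 6, 3, 1, 4, 7, 0, 8, 9, 10] ![7, 4, 0, 3, 5, 1, 2, 6] := by
  decide +kernel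

/-- The colouring of the first block of the cell. -/
lemma des_one {r : ℝ} (hr : r < 11) (w : Fin 10 → ℝ) (z : ℝ) (hz : Cg r (w 1) z)
    (h0 : w 7 + 2 ≤ w 4) (h1 : w 4 + 2 ≤ w 2) (h2 : w 2 + 2 ≤ w 8) (h3 : w 8 + 2 ≤ w 5)
    (h4 : w 5 + 2 ≤ w 6) (h5 : w 6 + 2 ≤ w 9) (h6 : w 9 + 2 ≤ z) (h7 : z + 7 ≤ w 7 + 2 * r) :
    blk.Rel r (fun p => w (eC (inl (0, p)))) := by
  refine design hr sp_one ![w 7, w 4, w 2, w 8, w 5, w 6, w 9, z] (fun i => ?_) h0 h1 h2 h3 h4 h5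
    h6 h7
  fin_cases i
  iterate 7 exact Cg.refl _ _
  exact hz

/-- The colouring of the second block of the cell. -/
lemma des_two {r : ℝ} (hr : r < 11) (w : Fin 10 → ℝ)
    (h0 : w 0 + 2 ≤ w 7) (h1 : w 7 + 2 ≤ w 4) (h2 : w 4 + 2 ≤ w 3) (h3 : w 3 + 2 ≤ w 8)
    (h4 : w 8 + 2 ≤ w 5) (h5 : w 5 + 2 ≤ w 6) (h6 : w 6 + 2 ≤ w 9) (h7 : w 9 + 7 ≤ w 0 + 2 * r) :
    blk.Rel r (fun p => w (eC (inl (1, p)))) := by
  refine design hr sp_two ![w 0, w 7, w 4, w 3, w 8, w 5, w 6, w 9] (fun i => ?_) h0 h1 h2 h3 h4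
    h5 h6 h7
  fin_cases i <;> exact Cg.refl _ _

/-- The colouring of the cell from ten wire colours. -/
lemma des_cell {r : ℝ} (hr : r < 11) (a0 a1 a2 a3 a4 a5 a6 a7 a8 a9 z : ℝ) (hz : Cg r a1 z)
    (h0 : a7 + 2 ≤ a4) (h1 : a4 + 2 ≤ a2) (h2 : a2 + 2 ≤ a8) (h3 : a8 + 2 ≤ a5)
    (h4 : a5 + 2 ≤ a6) (h5 : a6 + 2 ≤ a9) (h6 : a9 + 2 ≤ z) (h7 : z + 7 ≤ a7 + 2 * r)
    (g0 : a0 + 2 ≤ a7) (g2 : a4 + 2 ≤ a3) (g3 : a3 + 2 ≤ a8) (g7 : a9 + 7 ≤ a0 + 2 * r) :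
    ∃ w : Fin 10 → ℝ, (∀ p, w (eC (inr p)) = ![a0, a1, a2, a3] p) ∧
      ∀ l, blk.Rel r (fun p => w (eC (inl (l, p)))) := by
  refine ⟨![a0, a1, a2, a3, a4, a5, a6, a7, a8, a9], fun p => ?_, fun l => ?_⟩
  · fin_cases p <;> rfl
  · fin_cases l
    · exact des_one hr _ z hz h0 h1 h2 h3 h4 h5 h6 h7
    · exact des_two hr _ g0 h0 g2 g3 h3 h4 h5 g7

/-- The cell: its second pair is close and its first pair is about five apart. -/
theorem real_cell (h : Rigid) : ∃ R, Real' 10 ok10 (Fin 4) true R ∧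
    (∀ r x, ok10 r → R r x → cd r (x 2) (x 3) ≤ 2 * r - 21 ∧
      cd r (x 2) (x 3) + 5 - (2 * r - 21) ≤ cd r (x 0) (x 1)) ∧
    ∀ r v c : ℝ, r < 11 → |v| ≤ 2 * r - 21 →
      ∃ a, R r ![a, a - (|v| + 5 - (2 * r - 21)), c + v, c] := by
  refine ⟨_, netU (blk_inj.real ok10) tC (by decide +kernel) (by decide +kernel)
    (by decide +kernel) eC
    ![inr 0, inr 1, inr 2, inr 3, inl (0, 0), inl (0, 1), inl (0, 3), inl (0, 5), inl (0, 6),
      inl (0, 7)] (by decide +kernel) (by decide +kernel) (by decide +kernel), ?_, fun r v c hr hv => ?_⟩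
  · rintro r x hr ⟨w, a1, a2⟩
    rw [cd_symm (by linarith [hr.1]) (x 0), ← a1, ← a1, ← a1, ← a1]
    have e : ∀ p q, eC p = eC q → Cg r (w (eC p)) (w (eC q)) := fun p q g => Cg.of_eq (congrArg w g)
    have n := cell_nec hr.2 (h.nec hr (a2 0)) (h.nec hr (a2 1)) (e _ _ (by decide +kernel))
      (e _ _ (by decide +kernel)) (e _ _ (by decide +kernel)) (e _ _ (by decide +kernel))
      (e _ _ (by decide +kernel)) (e _ _ (by decide +kernel))
    have e2 : eC (inl (0, 2)) = eC (inr 2) := by decide +kernel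
    have e3 : eC (inl (1, 3)) = eC (inr 3) := by decide +kernel
    have e1 : eC (inl (0, 4)) = eC (inr 1) := by decide +kernel
    have e0 : eC (inl (1, 7)) = eC (inr 0) := by decide +kernel
    beta_reduce at n
    rwa [e0, e1, e2, e3] at n
  · obtain ⟨A, s1, s2, s3, s4⟩ : ∃ A : ℝ, A + 4 ≤ c + v ∧ c + v ≤ A + 4 + |v| ∧ A + 4 ≤ c ∧
        c ≤ A + 4 + |v| := by
      rcases abs_cases v with g | g
      · exact ⟨c - 4, by linarith, by linarith, by linarith, by linarith⟩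
      · exact ⟨c + v - 4, by linarith, by linarith, by linarith, by linarith⟩
    have ht : 0 ≤ |v| := abs_nonneg v
    generalize |v| = t at *
    exact ⟨A + t - 2 - (2 * r - 21), des_cell hr _ _ _ _ (A + 2) (A + 8 + t) (A + 10 + t) A
      (A + 6 + t) (A + 12 + t) (A - 7 + 2 * r) ⟨-2, by push_cast; ring⟩ (by linarith) (by linarith)
      (by linarith) (by linarith) (by linarith) (by linarith) (by linarith) (by linarith)
      (by linarith) (by linarith) (by linarith) (by linarith)⟩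

/-- The wire: the first pair of the cell is capped by any pole. -/
theorem real_wire (h : Rigid) {RF : ℝ → (Fin 2 → ℝ) → Prop} (hF : Real' 10 ok10 (Fin 2) true RF) :
    ∃ R, Real' 10 ok10 (Fin 2) true R ∧
      (∀ r x, ok10 r → R r x → cd r (x 0) (x 1) ≤ 2 * r - 21) ∧
      ∀ r x, ok10 r → (∀ y, RF r y) → cd r (x 0) (x 1) ≤ 2 * r - 21 → R r x := by
  obtain ⟨I, hI, I1, I2⟩ := real_cell h
  have hR := hF.cap hI
  refine ⟨_, hR, ?_, fun r x hr f g => ?_⟩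
  · rintro r x hr ⟨a, b, -, g⟩
    exact (I1 r _ hr g).1
  · have hp : 0 < r := by linarith [hr.1]
    obtain ⟨v, hv, e⟩ := cd_lift r (x 1) (x 0)
    rw [cd_symm hp] at e
    obtain ⟨a, ha⟩ := I2 r v (x 1) hr.2 (by rw [e]; exact g)
    refine hR.cg hr (x := ![x 1 + v, x 1]) ⟨a, _, f _, ha⟩ fun j => ?_
    fin_cases j
    exacts [hv.symm, Cg.refl _ _]

/-- A closed pole that is colourable at `x` and not below. -/
theorem closed_ten (h : Rigid) (x : ℚ) (h1 : 21 / 2 < x) (h2 : x < 11) :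
    ∃ R, Real' 10 ok10 (Fin 0) true R ∧ (∀ y, R x y) ∧ ∀ (r : ℝ) y, ok10 r → r < x → ¬ R r y := by
  obtain ⟨W, hW⟩ := exists_E_even (k := 10) (by norm_num) (by decide)
  have h1' : (21 / 2 : ℝ) < x := by simpa using (Rat.cast_lt (K := ℝ)).2 h1
  have h2' : (x : ℝ) < 11 := by exact_mod_cast h2
  have hok : ok10 x := ⟨by linarith, h2'⟩
  obtain ⟨F, hF, f3⟩ := exists_free (hW.1.real ok10) hok (by linarith)
    (show (0 : ℝ) < x - (10 : ℕ) by push_cast; linarith) fun y => hW.2.2 x y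
  obtain ⟨E, hE, E1, E2⟩ := real_wire h hF
  obtain ⟨I, hI, I1, I2⟩ := real_cell h
  obtain ⟨L, N, hL, hN, hq⟩ := exists_ratio (α := 26 - 2 * x) (β := 2 * x - 21) (by linarith)
    (by linarith)
  refine exists_drift (s := fun r => 2 * r - 21) (κ := fun r => 2 * r - 26) (β := fun _ => 0) hE hI
    (fun r hr => by linarith [hr.1]) hok (by linarith) E1 (fun y => E2 x y hok f3) ?_
    (fun v c a1 a2 => ?_) L N hL hN ?_ ?_
  · intro r y hr a
    obtain ⟨b1, b2⟩ := I1 r _ hr a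
    have b5 := cd_nonneg r (y 2) (y 3)
    exact ⟨by linarith, by linarith, by linarith⟩
  · obtain ⟨a, ha⟩ := I2 x v c h2' (by rw [abs_of_nonneg a1]; linarith)
    refine ⟨a, ?_⟩
    rw [abs_of_nonneg a1] at ha
    rwa [show v - (2 * (x : ℝ) - 26) = v + 5 - (2 * x - 21) by ring]
  · push_cast at hq
    linarith
  · intro r _ hr
    constructor <;> linarith

/-- A closed pole that is never colourable below eleven. -/
theorem never_ten (h : Rigid) : ∃ R, Real' 10 ok10 (Fin 0) true R ∧ ∀ r x, ok10 r → ¬ R r x := by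
  obtain ⟨W, hW⟩ := exists_E_even (k := 10) (by norm_num) (by decide)
  obtain ⟨E, hE, E1, -⟩ := real_wire h (hW.1.real ok10)
  obtain ⟨I, hI, I1, -⟩ := real_cell h
  refine ⟨_, (hE.cap hI).clo hE, ?_⟩
  rintro r x hr ⟨y, ⟨a, b, a1, a2⟩, -⟩
  have b1 : cd r a b ≤ 2 * r - 21 := E1 r _ hr a1
  have b2 : cd r (y 0) (y 1) + 5 - (2 * r - 21) ≤ cd r a b := (I1 r _ hr a2).2
  linarith [hr.2, cd_nonneg r (y 0) (y 1)]

/-- With a rigid block, the values for the degree ten are all rationals in `[10, 11]`. -/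
theorem iff_ten (h : Rigid) (x : ℝ) :
    (∃ (n : ℕ) (G : SimpleGraph (Fin n)) (_ : DecidableRel G.Adj), 0 < n ∧
      G.IsRegularOfDegree 10 ∧ sInf {r : ℝ | 1 ≤ r ∧ Col G r} = x) ↔
      ∃ q : ℚ, x = q ∧ ((10 : ℕ) : ℚ) ≤ q ∧ q ≤ (10 : ℕ) + 1 := by
  constructor
  · rintro ⟨n, G, dec, hn, hreg, rfl⟩
    exact value_mem G hn hreg
  · rintro ⟨q, rfl, h1, h2⟩
    have h1' : (10 : ℝ) ≤ q := by exact_mod_cast h1
    have key : ∃ (n : ℕ) (G : SimpleGraph (Fin n)) (_ : DecidableRel G.Adj),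
        G.IsRegularOfDegree 10 ∧ IsLeast {r : ℝ | 1 ≤ r ∧ Col G r} (q : ℝ) := by
      rcases le_or_gt q ((10 : ℕ) + 1 / 2) with h3 | h3
      · exact main_lower (by norm_num) q h1 h3
      rcases h2.eq_or_lt with rfl | h2
      · obtain ⟨R, hR, a1⟩ := never_ten h
        exact_mod_cast end_high_of hR one_pos (by norm_num)
          (fun r b1 b2 => ⟨b1, by push_cast at b2; linarith⟩) a1
      · push_cast at h2 h3
        obtain ⟨R, hR, a1, a2⟩ := closed_ten h q (by linarith) (by linarith)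
        have h2' : (q : ℝ) < 11 := by exact_mod_cast (show q < 11 by linarith)
        exact least_of_closed hR le_rfl (by linarith) (fun r b1 b2 => ⟨b1, by linarith⟩) a1
          (fun r y b1 b2 => a2 r y ⟨b1, by linarith⟩ b2) (Or.inr rfl)
    obtain ⟨n, G, dec, hreg, hl⟩ := key
    exact ⟨n, G, dec, pos_of_value G (by linarith) hl, hreg, hl.csInf_eq⟩

end Pool.Agent.P.MP_3f5ded_co.UG.B10
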