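import Pool.Agent.P.MP_3f5ded_co.U8Blk

set_option autoImplicit false

namespace Pool.Agent.P.MP_3f5ded_co.UG

namespace B8

/-- The helix with ranks `ρ` and lifted colours `y`. -/
structure Hel (r : ℝ) (x : Fin 6 → ℝ) (ρ : Fin 6 → ℤ) (y : Fin 6 → ℝ) : Prop where
  cg : ∀ v, Cg r (x v) (y v)
  rng : ∀ v, 0 ≤ ρ v ∧ ρ v ≤ 5
  inj : ∀ v w, v ≠ w → ρ v ≠ ρ w
  par : ∀ v, ρ (pa v) = ρ v + 3 ∨ ρ v = ρ (pa v) + 3
  lo : ∀ v w, ρ v ≤ ρ w → y v + 2 * (ρ w - ρ v) ≤ y w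
  hi : ∀ v w, ρ v ≤ ρ w → y w ≤ y v + 2 * (ρ w - ρ v) + (2 * r - 17)

lemma pa_pa : ∀ p, pa (pa p) = p := by decide

theorem R6.hel {r : ℝ} {x : Fin 6 → ℝ} (h : R6 r x) : ∃ ρ y, Hel r x ρ y := by
  obtain ⟨p, y, hp, p3, p4, p5, hc, h0, h1, h2, h3, h4, h5⟩ := h
  let e := Equiv.ofBijective p (Finite.injective_iff_bijective.1 hp)
  have he : ∀ i, e.symm (p i) = i := fun i => e.symm_apply_apply i
  have q3 : pa (p 3) = p 0 := by rw [p3, pa_pa]
  have q4 : pa (p 4) = p 1 := by rw [p4, pa_pa]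
  have q5 : pa (p 5) = p 2 := by rw [p5, pa_pa]
  have key : ∀ i j : Fin 6, (i.1 : ℤ) ≤ j.1 → y i + 2 * (((j.1 : ℤ) : ℝ) - ((i.1 : ℤ) : ℝ)) ≤ y j ∧
      y j ≤ y i + 2 * (((j.1 : ℤ) : ℝ) - ((i.1 : ℤ) : ℝ)) + (2 * r - 17) := by
    intro i j
    fin_cases i <;> fin_cases j <;> simp <;> (try constructor) <;> linarith
  refine ⟨fun v => (e.symm v).1, fun v => y (e.symm v), fun v => ?_, fun v => ?_, fun v w a b => ?_,
    fun v => ?_, fun v w a => (key _ _ a).1, fun v w a => (key _ _ a).2⟩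
  · have := hc (e.symm v)
    rwa [show p (e.symm v) = v from e.apply_symm_apply v] at this
  · have := (e.symm v).2
    omega
  · exact a (e.symm.injective (Fin.ext (by exact_mod_cast b)))
  · obtain ⟨i, rfl⟩ := e.surjective v
    change ((e.symm (pa (p i))).1 : ℤ) = (e.symm (p i)).1 + 3 ∨
      ((e.symm (p i)).1 : ℤ) = (e.symm (pa (p i))).1 + 3
    fin_cases i <;> simp [← p3, ← p4, ← p5, q3, q4, q5, he]

namespace Hel

variable {r : ℝ} {x x' y z : Fin 6 → ℝ} {ρ ρ' : Fin 6 → ℤ}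

lemma half (H : Hel r x ρ y) : 17 ≤ 2 * r := by
  have := H.hi 0 0 le_rfl
  linarith

lemma shift (H : Hel r x ρ y) (n : ℤ) : Hel r x ρ fun v => y v + n * r :=
  ⟨fun v => (H.cg v).trans ⟨-n, by push_cast; ring⟩, H.rng, H.inj, H.par,
    fun v w a => by linarith [H.lo v w a], fun v w a => by linarith [H.hi v w a]⟩

lemma neg (H : Hel r x ρ y) : Hel r (fun v => -x v) (fun v => 5 - ρ v) fun v => -y v :=
  ⟨fun v => (H.cg v).neg, fun v => by have := H.rng v; omega,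
    fun v w a b => H.inj v w a (by omega), fun v => by have := H.par v; omega,
    fun v w a => by have := H.lo w v (by omega); push_cast; linarith,
    fun v w a => by have := H.hi w v (by omega); push_cast; linarith⟩

/-- The second helix lifted so that one link has equal lifts. -/
lemma align (H : Hel r x ρ y) (K : Hel r x' ρ' z) {v w : Fin 6} (h : Cg r (x v) (x' w)) :
    ∃ z', Hel r x' ρ' z' ∧ y v = z' w := by
  obtain ⟨n, hn⟩ := (H.cg v).symm.trans (h.trans (K.cg w))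
  exact ⟨_, K.shift n, hn⟩

end Hel

lemma int_ar {r u : ℝ} {d n : ℤ} (h1 : 17 ≤ 2 * r) (h2 : r < 9) (h : 2 * d + u = n * r)
    (a1 : -(2 * (2 * r - 17)) ≤ u) (a2 : u ≤ 2 * (2 * r - 17)) (b1 : -10 ≤ d) (b2 : d ≤ 10) :
    (n = 0 ∧ d = 0) ∨ (n = 1 ∧ (d = 4 ∨ d = 5)) ∨ (n = -1 ∧ (d = -4 ∨ d = -5)) ∨ (n = 2 ∧ d = 9) ∨
      (n = -2 ∧ d = -9) := by
  have c1 : (-10 : ℝ) ≤ d := by exact_mod_cast b1
  have c2 : (d : ℝ) ≤ 10 := by exact_mod_cast b2
  have k1 : ∀ a : ℤ, (a : ℝ) < 2 * d → a < 2 * d := fun a g => by exact_mod_cast g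
  have k2 : ∀ a : ℤ, 2 * (d : ℝ) < a → 2 * d < a := fun a g => by exact_mod_cast g
  have n1 : n < 3 := by
    have : (n : ℝ) < 3 := by
      by_contra g
      nlinarith
    exact_mod_cast this
  have n2 : -3 < n := by
    have : (-3 : ℝ) < n := by
      by_contra g
      nlinarith
    exact_mod_cast this
  interval_cases n <;> push_cast at h
  · have := k1 (-20) (by push_cast; linarith)
    have := k2 (-16) (by push_cast; linarith)
    omega
  · have := k1 (-11) (by push_cast; linarith)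
    have := k2 (-7) (by push_cast; linarith)
    omega
  · have := k1 (-2) (by push_cast; linarith)
    have := k2 2 (by push_cast; linarith)
    omega
  · have := k1 7 (by push_cast; linarith)
    have := k2 11 (by push_cast; linarith)
    omega
  · have := k1 16 (by push_cast; linarith)
    have := k2 20 (by push_cast; linarith)
    omega

namespace Hel

variable {r : ℝ} {x x' y z : Fin 6 → ℝ} {ρ ρ' : Fin 6 → ℤ}

lemma bd (H : Hel r x ρ y) (v w : Fin 6) : ∃ A : ℝ, y w - y v = 2 * ((ρ w - ρ v : ℤ) : ℝ) + A ∧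
    -(2 * r - 17) ≤ A ∧ A ≤ 2 * r - 17 ∧ (ρ v ≤ ρ w → 0 ≤ A) ∧ (ρ w ≤ ρ v → A ≤ 0) := by
  have := H.half
  refine ⟨y w - y v - 2 * ((ρ w - ρ v : ℤ) : ℝ), by ring, ?_, ?_, fun a => ?_, fun a => ?_⟩ <;>
    push_cast
  · rcases le_total (ρ v) (ρ w) with a | a
    · linarith [H.lo v w a]
    · linarith [H.hi w v a]
  · rcases le_total (ρ v) (ρ w) with a | a
    · linarith [H.hi v w a]
    · linarith [H.lo w v a]
  · linarith [H.lo v w a]
  · linarith [H.lo w v a]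

/-- Two links between two blocks. -/
lemma pair (H : Hel r x ρ y) (K : Hel r x' ρ' z) (hr : r < 9) {v w v' w' : Fin 6} {n : ℤ}
    (h : y w - y v = z w' - z v' + n * r) :
    (n = 0 ∧ ρ w - ρ v = ρ' w' - ρ' v') ∨
      (n = 1 ∧ ρ w - ρ v = ρ' w' - ρ' v' + 4 ∧ ρ v < ρ w ∧ ρ' w' < ρ' v') ∨
      (n = -1 ∧ ρ w - ρ v + 4 = ρ' w' - ρ' v' ∧ ρ w < ρ v ∧ ρ' v' < ρ' w') := by
  obtain ⟨A, a0, a1, a2, a3, a4⟩ := H.bd v w
  obtain ⟨B, b0, b1, b2, b3, b4⟩ := K.bd v' w'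
  have := H.rng v
  have := H.rng w
  have := K.rng v'
  have := K.rng w'
  generalize ρ w = i, ρ v = j, ρ' w' = i', ρ' v' = j' at *
  have e : 2 * ((i - j - (i' - j') : ℤ) : ℝ) + (A - B) = n * r := by
    push_cast at *
    linarith
  rcases int_ar H.half hr e (by linarith) (by linarith) (by omega) (by omega) with
    ⟨rfl, d⟩ | ⟨rfl, d | d⟩ | ⟨rfl, d | d⟩ | ⟨rfl, d⟩ | ⟨rfl, d⟩ <;> rw [d] at e <;> push_cast at e
  · exact Or.inl ⟨rfl, by omega⟩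
  · refine Or.inr (Or.inl ⟨rfl, by omega, lt_of_not_ge fun g => ?_, lt_of_not_ge fun g => ?_⟩)
    · linarith [a4 g]
    · linarith [b3 g]
  · rcases le_total j i with g | g
    · linarith [a3 g]
    · linarith [b4 (by omega)]
  · refine Or.inr (Or.inr ⟨rfl, by omega, lt_of_not_ge fun g => ?_, lt_of_not_ge fun g => ?_⟩)
    · linarith [a3 g]
    · linarith [b4 g]
  · rcases le_total j i with g | g
    · linarith [b3 (by omega)]
    · linarith [a4 g]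
  · linarith [a3 (by omega), b4 (by omega)]
  · linarith [a4 (by omega), b3 (by omega)]

/-- Equal signed distance from a common link. -/
lemma same (H : Hel r x ρ y) (K : Hel r x' ρ' z) {e e' v w : Fin 6} (h : y e = z e')
    (g : ρ v - ρ e = ρ' w - ρ' e') : |y v - z w| ≤ 2 * r - 17 := by
  obtain ⟨A, a0, a1, a2, a3, a4⟩ := H.bd e v
  obtain ⟨B, b0, b1, b2, b3, b4⟩ := K.bd e' w
  rw [g] at a0
  rw [abs_le]
  rcases le_total (ρ e) (ρ v) with a | a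
  · constructor <;> linarith [a3 a, b3 (by omega)]
  · constructor <;> linarith [a4 a, b4 (by omega)]

lemma nf0 (H : Hel r x ρ y) (K : Hel r x' ρ' z) (hr : r < 9) {e e' v w : Fin 6} (h : y e = z e')
    (f : Far r (x v) (x' w)) : ρ v - ρ e ≠ ρ' w - ρ' e' := fun g => by
  have a := H.same K h g
  have b := (f.congr (H.cg v) (K.cg w)) 0
  simp only [Int.cast_zero, zero_mul, sub_zero] at b
  linarith

/-- Four steps apart with a common link in between. -/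
lemma nf4 (H : Hel r x ρ y) (K : Hel r x' ρ' z) (hr : r < 9) {e e' v w : Fin 6} (h : y e = z e')
    (f : Far r (x v) (x' w)) : ¬ (ρ e - ρ v + (ρ' w - ρ' e') = 4 ∧ ρ v ≤ ρ e ∧ ρ' e' ≤ ρ' w) := by
  rintro ⟨g, g1, g2⟩
  have g' : (ρ e : ℝ) - ρ v + (ρ' w - ρ' e') = 4 := by exact_mod_cast g
  have b := (f.congr (H.cg v) (K.cg w)) (-1)
  have := H.lo v e g1
  have := H.hi v e g1
  have := K.lo e' w g2
  have := K.hi e' w g2
  push_cast at b
  rcases le_abs.1 b with b | b <;> linarith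

end Hel

lemma toFin {z : ℤ} (h : 0 ≤ z ∧ z ≤ 5) : ∃ i : Fin 6, z = (i.1 : ℤ) :=
  ⟨⟨z.toNat, by omega⟩, by simp only; omega⟩

/-- Three apart. -/
def P3 (a b : ℤ) : Prop := b = a + 3 ∨ a = b + 3

/-- Not four steps apart with a link in between. -/
def N4 (v e e' w : ℤ) : Prop := ¬ (e - v + (w - e') = 4 ∧ v ≤ e ∧ e' ≤ w)

instance (a b : ℤ) : Decidable (P3 a b) := by unfold P3; infer_instance

instance (v e e' w : ℤ) : Decidable (N4 v e e' w) := by unfold N4; infer_instance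

set_option synthInstance.maxSize 4000 in
lemma wire_fin : ∀ s t : Fin 6, P3 s.1 t.1 → ∀ u : Fin 6, (u.1 : ℤ) ≠ s.1 → (u.1 : ℤ) ≠ t.1 →
    ∀ b : Fin 6, P3 u.1 b.1 → ∀ o : Fin 6, (o.1 : ℤ) ≠ s.1 → (o.1 : ℤ) ≠ t.1 → (o.1 : ℤ) ≠ u.1 →
    (o.1 : ℤ) ≠ b.1 → ∀ a : Fin 6, P3 o.1 a.1 → N4 a.1 a.1 a.1 b.1 → N4 b.1 b.1 b.1 a.1 →
    ∀ s' t' : Fin 6, (t.1 : ℤ) - s.1 = t'.1 - s'.1 → ∀ u' : Fin 6, (u.1 : ℤ) - s.1 = u'.1 - s'.1 →
    ∀ c : Fin 6, P3 u'.1 c.1 → ∀ o' : Fin 6, (o'.1 : ℤ) ≠ s'.1 → (o'.1 : ℤ) ≠ t'.1 →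
    (o'.1 : ℤ) ≠ u'.1 → (o'.1 : ℤ) ≠ c.1 → ∀ d : Fin 6, P3 o'.1 d.1 → N4 c.1 c.1 c.1 d.1 →
    N4 d.1 d.1 d.1 c.1 → (a.1 : ℤ) - s.1 ≠ d.1 - s'.1 → (b.1 : ℤ) - s.1 ≠ c.1 - s'.1 →
    N4 a.1 s.1 s'.1 c.1 → N4 a.1 t.1 t'.1 c.1 → N4 c.1 s'.1 s.1 a.1 → N4 c.1 t'.1 t.1 a.1 →
    N4 b.1 s.1 s'.1 d.1 → N4 b.1 t.1 t'.1 d.1 → N4 d.1 s'.1 s.1 b.1 → N4 d.1 t'.1 t.1 b.1 →
    (o.1 : ℤ) - s.1 = o'.1 - s'.1 := by
  decide +kernel

lemma wire_al {s t u s' t' u' n m : ℤ} (a : P3 s t) (b : P3 s' t')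
    (p1 : (n = 0 ∧ t - s = t' - s') ∨ (n = 1 ∧ t - s = t' - s' + 4 ∧ s < t ∧ t' < s') ∨
      (n = -1 ∧ t - s + 4 = t' - s' ∧ t < s ∧ s' < t'))
    (p2 : (m = 0 ∧ u - s = u' - s') ∨ (m = 1 ∧ u - s = u' - s' + 4 ∧ s < u ∧ u' < s') ∨
      (m = -1 ∧ u - s + 4 = u' - s' ∧ u < s ∧ s' < u'))
    (p3 : (m - n = 0 ∧ u - t = u' - t') ∨ (m - n = 1 ∧ u - t = u' - t' + 4 ∧ t < u ∧ u' < t') ∨
      (m - n = -1 ∧ u - t + 4 = u' - t' ∧ u < t ∧ t' < u')) :
    n = 0 ∧ t - s = t' - s' ∧ u - s = u' - s' := by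
  unfold P3 at a b
  omega

/-- The wire: two blocks with three links, four ports at one vertex. -/
theorem wire_nec {r : ℝ} (hr : r < 9) {x x' : Fin 6 → ℝ} (h : R6 r x) (h' : R6 r x')
    (ls : Cg r (x 2) (x' 0)) (lt : Cg r (x 3) (x' 1)) (lu : Cg r (x 4) (x' 2))
    (ab : Far r (x 1) (x 5)) (cd' : Far r (x' 3) (x' 5)) (ac : Far r (x 1) (x' 3))
    (ad : Far r (x 1) (x' 5)) (bc : Far r (x 5) (x' 3)) (bd : Far r (x 5) (x' 5)) :
    cd r (x 0) (x' 4) ≤ 2 * r - 17 := by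
  obtain ⟨ρ, y, H⟩ := h.hel
  obtain ⟨ρ', z, K⟩ := h'.hel
  obtain ⟨z, K, es⟩ := H.align K ls
  obtain ⟨n, et⟩ := (H.cg 3).symm.trans (lt.trans (K.cg 1))
  obtain ⟨m, eu⟩ := (H.cg 4).symm.trans (lu.trans (K.cg 2))
  obtain ⟨rfl, q1, q2⟩ := wire_al (H.par 2) (K.par 0)
    (H.pair K hr (v := 2) (w := 3) (v' := 0) (w' := 1) (n := n) (by linarith))
    (H.pair K hr (v := 2) (w := 4) (v' := 0) (w' := 2) (n := m) (by linarith))
    (H.pair K hr (v := 3) (w := 4) (v' := 1) (w' := 2) (n := m - n) (by push_cast; linarith))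
  have et' : y 3 = z 1 := by simpa using et
  have key : ρ 0 - ρ 2 = ρ' 4 - ρ' 0 := by
    choose i hi using fun v => toFin (H.rng v)
    choose j hj using fun v => toFin (K.rng v)
    have k := wire_fin (i 2) (i 3)
    simp only [← hi] at k
    replace k := k (H.par 2) (i 4)
    simp only [← hi] at k
    replace k := k (H.inj _ _ (by decide)) (H.inj _ _ (by decide)) (i 5)
    simp only [← hi] at k
    replace k := k (H.par 4) (i 0)
    simp only [← hi] at k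
    replace k := k (H.inj _ _ (by decide)) (H.inj _ _ (by decide)) (H.inj _ _ (by decide))
      (H.inj _ _ (by decide)) (i 1)
    simp only [← hi] at k
    replace k := k (H.par 0) (H.nf4 H hr rfl ab) (H.nf4 H hr rfl ab.symm) (j 0) (j 1)
    simp only [← hj] at k
    replace k := k q1 (j 2)
    simp only [← hj] at k
    replace k := k q2 (j 3)
    simp only [← hj] at k
    replace k := k (K.par 2) (j 4)
    simp only [← hj] at k
    replace k := k (K.inj _ _ (by decide)) (K.inj _ _ (by decide)) (K.inj _ _ (by decide))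
      (K.inj _ _ (by decide)) (j 5)
    simp only [← hj] at k
    exact k (K.par 4) (K.nf4 K hr rfl cd') (K.nf4 K hr rfl cd'.symm) (H.nf0 K hr es ad)
      (H.nf0 K hr es bc) (H.nf4 K hr es ac) (H.nf4 K hr et' ac) (K.nf4 H hr es.symm ac.symm)
      (K.nf4 H hr et'.symm ac.symm) (H.nf4 K hr es bd) (H.nf4 K hr et' bd)
      (K.nf4 H hr es.symm bd.symm) (K.nf4 H hr et'.symm bd.symm)
  have hp : 0 < r := by linarith [H.half]
  rw [cd_congr hp (H.cg 0) (K.cg 4)]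
  refine (cd_le hp _ _ 0).trans ?_
  simpa using H.same K es key

end B8

end Pool.Agent.P.MP_3f5ded_co.UG
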