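import Pool.Agent.P.MP_3f5ded_co.U8Defs

set_option autoImplicit false

namespace Pool.Agent.P.MP_3f5ded_co.UG

open Sum

/-- Unit steps add up. -/
lemma step_le {f : ℤ → ℝ} (h : ∀ t, f t + 1 ≤ f (t + 1)) {a b : ℤ} (hab : a ≤ b) :
    f a + (b - a) ≤ f b := by
  induction b, hab using Int.leInduction with
  | base => simp
  | succ n _ ih =>
    have := h n
    push_cast
    linarith

namespace B8

/-- The range of circle lengths in which the block is rigid. -/
def ok8 (r : ℝ) : Prop := 1 ≤ r ∧ r < 9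

/-- The place of `w` among the vertices other than `v`. -/
def ix (v w : Fin 9) : Fin 8 :=
  if h : w.1 < v.1 then ⟨w.1, by omega⟩ else ⟨w.1 - 1, by omega⟩

/-- The port of a vertex. -/
def pt : Fin 9 → Fin 6 := ![0, 1, 2, 3, 4, 5, 0, 0, 0]

/-- The reversal of darts of the block. -/
def rv : (Fin 9 × Fin 8) ⊕ Fin 6 → (Fin 9 × Fin 8) ⊕ Fin 6
  | inl d => if Mis d.1 (d.1.succAbove d.2) then inr (pt d.1)
      else inl (d.1.succAbove d.2, ix (d.1.succAbove d.2) d.1)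
  | inr p => inl (vx p, ix (vx p) (vx (pa p)))

lemma rv_inv : ∀ e, rv (rv e) = e := by decide +kernel

lemma rv_in : ∀ d e, rv (inl d) = inl e → e.1 = d.1.succAbove d.2 ∧ d.1 = e.1.succAbove e.2 ∧
    ¬ Mis d.1 e.1 := by decide +kernel

lemma rv_out : ∀ d p, rv (inl d) = inr p → d.1 = vx p ∧ d.1.succAbove d.2 = vx (pa p) := by
  decide +kernel

lemma ix_spec : ∀ v w : Fin 9, w ≠ v → v.succAbove (ix v w) = w := by decide +kernel

lemma rv_ix : ∀ v w : Fin 9, w ≠ v → ¬ Mis v w → rv (inl (v, ix v w)) = inl (w, ix w v) := by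
  decide +kernel

lemma vx_inj : ∀ p q, vx p = vx q → p = q := by decide +kernel

lemma vx_pa : ∀ p, vx (pa p) ≠ vx p := by decide +kernel

/-- The block as a pole. -/
def blk : Pole 8 (Fin 6) where
  N := Fin 9
  fin := inferInstance
  rv := rv
  inv := rv_inv
  ext := fun _ => ⟨_, rfl⟩
  noloop := fun d e h => by
    rw [(rv_in d e h).1]
    exact Fin.succAbove_ne _ _
  nopar := fun d d' e e' h h' a b => by
    have e1 := (rv_in d e h).1
    have e2 := (rv_in d' e' h').1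
    rw [← b, e1, ← a] at e2
    exact Prod.ext a (Fin.succAbove_right_injective e2)

lemma blk_inj : blk.Inj := by
  intro p q d e h h' a
  cases h
  cases h'
  exact vx_inj _ _ a

lemma blk_rel (r : ℝ) (x : Fin 6 → ℝ) :
    blk.Rel r x ↔ ∃ C, Cl r C ∧ ∀ p, Cg r (C (vx p) (vx (pa p))) (x p) := by
  constructor
  · rintro ⟨c, c1, c2, c3⟩
    refine ⟨fun v w => c (inl (v, ix v w)), ⟨fun v w a b => ?_, fun v w w' a b d => ?_⟩, fun p => ?_⟩
    · have := c2 (inl (v, ix v w))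
      rwa [show blk.rv (inl (v, ix v w)) = inl (w, ix w v) from rv_ix v w a b] at this
    · refine c3 v _ _ fun e => d ?_
      rw [← ix_spec v w a, e, ix_spec v w' b]
    · rw [← c1]
      exact (c2 (inr p)).symm
  · rintro ⟨C, ⟨c1, c2⟩, c3⟩
    refine ⟨Sum.elim (fun d => C d.1 (d.1.succAbove d.2)) x, fun _ => rfl, ?_, fun v s s' h => ?_⟩
    · rintro (d | p)
      · change Cg r _ (Sum.elim _ x (rv (inl d)))
        rcases h : rv (inl d) with e | p
        · obtain ⟨a, b, g⟩ := rv_in d e h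
          change Cg r (C d.1 (d.1.succAbove d.2)) (C e.1 (e.1.succAbove e.2))
          rw [← a, ← b]
          exact c1 _ _ (by rw [a]; exact Fin.succAbove_ne _ _) g
        · obtain ⟨a, b⟩ := rv_out d p h
          change Cg r (C d.1 (d.1.succAbove d.2)) (x p)
          rw [b, a]
          exact c3 p
      · change Cg r (x p) (C (vx p) ((vx p).succAbove (ix (vx p) (vx (pa p)))))
        rw [ix_spec _ _ (vx_pa p)]
        exact (c3 p).symm
    · exact c2 v _ _ (Fin.succAbove_ne _ _) (Fin.succAbove_ne _ _)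
        fun e => h (Fin.succAbove_right_injective e)

/-- The rounds of the design; vertex `i < 6` has its port at round `2 i`. -/
def D : Fin 9 → Fin 9 → ℤ :=
  ![![-5, 1, 2, 0, -5, -4, -1, -2, -3], ![1, -3, 3, 4, 2, -3, 0, -1, -2],
    ![2, 3, -1, 5, 6, 4, 1, 0, -1], ![6, 4, 5, 4, 7, 8, 11, 10, 9],
    ![12, 8, 6, 7, 6, 9, 13, 11, 10], ![13, 14, 10, 8, 9, 8, 15, 12, 11],
    ![16, 17, 18, 11, 13, 15, 11, 14, 12], ![15, 16, 17, 10, 11, 12, 14, 10, 13],
    ![14, 15, 16, 9, 10, 11, 12, 13, 9]]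

lemma D_far : ∀ v w w', w ≠ v → w' ≠ v → w ≠ w' →
    (D v w < D v w' ∧ D v w' ≤ D v w + 7) ∨ (D v w' < D v w ∧ D v w ≤ D v w' + 7) := by
  decide +kernel

lemma D_sym : ∀ v w : Fin 9, ¬ (v.1 < 6 ∧ w.1 < 6 ∧ v.1 % 3 = w.1 % 3) →
    D v w = D w v ∨ D v w = D w v + 17 ∨ D w v = D v w + 17 := by
  decide +kernel

/-- The renaming of the vertices that lists the ports in the order of the helix. -/
def sg (a b c : Fin 6) (v : Fin 9) : Fin 9 :=
  if v = vx a then 0 else if v = vx b then 1 else if v = vx c then 2 else if v = vx (pa a) then 3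
    else if v = vx (pa b) then 4 else if v = vx (pa c) then 5 else v

lemma sg_spec : ∀ a b c : Fin 6, a ≠ b → a ≠ c → b ≠ c → b ≠ pa a → c ≠ pa a → c ≠ pa b →
    (∀ v w, sg a b c v = sg a b c w → v = w) ∧
    (∀ v w, w ≠ v → ¬ Mis v w →
      ¬ ((sg a b c v).1 < 6 ∧ (sg a b c w).1 < 6 ∧ (sg a b c v).1 % 3 = (sg a b c w).1 % 3)) ∧
    D (sg a b c (vx a)) (sg a b c (vx (pa a))) = 0 ∧
    D (sg a b c (vx b)) (sg a b c (vx (pa b))) = 2 ∧
    D (sg a b c (vx c)) (sg a b c (vx (pa c))) = 4 ∧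
    D (sg a b c (vx (pa a))) (sg a b c (vx (pa (pa a)))) = 6 ∧
    D (sg a b c (vx (pa b))) (sg a b c (vx (pa (pa b)))) = 8 ∧
    D (sg a b c (vx (pa c))) (sg a b c (vx (pa (pa c)))) = 10 := by
  decide +kernel

/-- Colours for all rounds. -/
lemma exists_rounds {r : ℝ} {y : Fin 6 → ℝ} (h0 : y 0 + 2 ≤ y 1) (h1 : y 1 + 2 ≤ y 2)
    (h2 : y 2 + 2 ≤ y 3) (h3 : y 3 + 2 ≤ y 4) (h4 : y 4 + 2 ≤ y 5) (h5 : y 5 + 7 ≤ y 0 + 2 * r) :
    ∃ f : ℤ → ℝ, (∀ t, f t + 1 ≤ f (t + 1)) ∧ (∀ t, f (t + 17) = f t + 2 * r) ∧ f 0 = y 0 ∧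
      f 2 = y 1 ∧ f 4 = y 2 ∧ f 6 = y 3 ∧ f 8 = y 4 ∧ f 10 = y 5 := by
  obtain ⟨b, hb⟩ : ∃ b : ℤ → ℝ, ∀ m, b m = if m < 2 then y 0 + m else if m < 4 then y 1 + (m - 2)
      else if m < 6 then y 2 + (m - 4) else if m < 8 then y 3 + (m - 6)
      else if m < 10 then y 4 + (m - 8) else y 5 + (m - 10) := ⟨_, fun _ => rfl⟩
  refine ⟨fun t => b (t % 17) + ((t / 17 : ℤ) : ℝ) * (2 * r), fun t => ?_, fun t => ?_, ?_, ?_, ?_,
    ?_, ?_, ?_⟩
  · rcases (show (t % 17 = 16 ∧ (t + 1) % 17 = 0 ∧ (t + 1) / 17 = t / 17 + 1) ∨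
        (t % 17 < 16 ∧ (t + 1) % 17 = t % 17 + 1 ∧ (t + 1) / 17 = t / 17) by omega) with
      ⟨a, c, d⟩ | ⟨a, c, d⟩
    · simp only [a, c, d, hb]
      norm_num
      linarith
    · have e : 0 ≤ t % 17 := by omega
      simp only [c, d]
      generalize t % 17 = m at a e
      have : b m + 1 ≤ b (m + 1) := by
        interval_cases m <;> simp only [hb] <;> norm_num <;> linarith
      linarith
  · have a : (t + 17) % 17 = t % 17 := by omega
    have c : (t + 17) / 17 = t / 17 + 1 := by omega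
    simp only [a, c]
    push_cast
    ring
  all_goals simp [hb]

/-- Every helix of ports extends to a colouring. -/
theorem design {r : ℝ} (hr : r < 9) {x : Fin 6 → ℝ} (h : R6 r x) :
    ∃ C, Cl r C ∧ ∀ p, Cg r (C (vx p) (vx (pa p))) (x p) := by
  obtain ⟨p, y, hp, p3, p4, p5, hc, h0, h1, h2, h3, h4, h5⟩ := h
  obtain ⟨f, f1, f2, g0, g1, g2, g3, g4, g5⟩ := exists_rounds h0 h1 h2 h3 h4 h5
  obtain ⟨s1, s2, d0, d1, d2, d3, d4, d5⟩ := sg_spec (p 0) (p 1) (p 2) (hp.ne (by decide))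
    (hp.ne (by decide)) (hp.ne (by decide)) (p3 ▸ hp.ne (by decide)) (p3 ▸ hp.ne (by decide))
    (p4 ▸ hp.ne (by decide))
  have key : ∀ a b : ℤ, a < b → b ≤ a + 7 → Far r (f a) (f b) := by
    intro a b h1 h2
    have a1 := step_le f1 h1.le
    have a2 := step_le f1 (show b ≤ a + 17 by omega)
    have a3 : (a : ℝ) + 1 ≤ b := by exact_mod_cast h1
    have a4 : (b : ℝ) ≤ a + 7 := by exact_mod_cast h2
    rw [f2] at a2
    push_cast at a2
    exact Far.of_bounds (by linarith) (by linarith)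
  refine ⟨fun v w => f (D (sg (p 0) (p 1) (p 2) v) (sg (p 0) (p 1) (p 2) w)),
    ⟨fun v w a b => ?_, fun v w w' a b c => ?_⟩, fun q => ?_⟩
  · rcases D_sym _ _ (s2 v w a b) with e | e | e
    · exact Cg.of_eq (congrArg f e)
    · exact ⟨2, by rw [e, f2]; push_cast; ring⟩
    · exact ⟨-2, by rw [e, f2]; push_cast; ring⟩
  · rcases D_far _ _ _ (fun e => a (s1 _ _ e)) (fun e => b (s1 _ _ e)) fun e => c (s1 _ _ e) with
      e | e
    · exact key _ _ e.1 e.2
    · exact (key _ _ e.1 e.2).symm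
  · obtain ⟨i, rfl⟩ := Finite.injective_iff_surjective.1 hp q
    refine Cg.trans (Cg.of_eq ?_) (hc i).symm
    fin_cases i
    · exact (congrArg f d0).trans g0
    · exact (congrArg f d1).trans g1
    · exact (congrArg f d2).trans g2
    · exact (congrArg f (p3 ▸ d3)).trans g3
    · exact (congrArg f (p4 ▸ d4)).trans g4
    · exact (congrArg f (p5 ▸ d5)).trans g5

lemma R6.congr {r : ℝ} {x x' : Fin 6 → ℝ} (h : R6 r x) (e : ∀ p, Cg r (x p) (x' p)) : R6 r x' := by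
  obtain ⟨p, y, hp, p3, p4, p5, hc, h⟩ := h
  exact ⟨p, y, hp, p3, p4, p5, fun i => (e _).symm.trans (hc i), h⟩

/-- A rigid block has the helix as its exact port relation. -/
theorem Rigid.real (h : Rigid) : Real' 8 ok8 (Fin 6) true R6 :=
  ⟨blk, fun _ => blk_inj, fun r hr x => (blk_rel r x).trans
    ⟨fun ⟨C, a, b⟩ => (h r C hr.1 hr.2 a).congr b, design hr.2⟩⟩

end B8

end Pool.Agent.P.MP_3f5ded_co.UG
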