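import Pool.Agent.P.MP_3f5ded_co.U8Ar

set_option autoImplicit false

namespace Pool.Agent.P.MP_3f5ded_co.UG.B8

/-- Two points at the places `i`, `j` of a helix. -/
def St (r : ℝ) (i j : ℤ) (X Y : ℝ) : Prop :=
  (i < j ∧ X + 2 * (j - i) ≤ Y ∧ Y ≤ X + 2 * (j - i) + (2 * r - 17)) ∨
    (j < i ∧ Y + 2 * (i - j) ≤ X ∧ X ≤ Y + 2 * (i - j) + (2 * r - 17))

variable {r : ℝ}

lemma St.symm {i j : ℤ} {X Y : ℝ} (h : St r i j X Y) : St r j i Y X := Or.symm h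

lemma St.ne {i j : ℤ} {X Y : ℝ} (h : St r i j X Y) : i ≠ j := by
  rcases h with h | h <;> omega

lemma St.of_lt {i j : ℤ} {X Y : ℝ} (h : St r i j X Y) (d : ℤ) (e : j = i + d) (hd : 0 < d) :
    X + 2 * d ≤ Y ∧ Y ≤ X + 2 * d + (2 * r - 17) := by
  subst e
  rcases h with ⟨-, h1, h2⟩ | ⟨h0, -⟩
  · push_cast at h1 h2
    constructor <;> linarith
  · omega

lemma St.two {i j : ℤ} {X Y : ℝ} (h : St r i j X Y) (hd : i < j) : X + 2 ≤ Y := by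
  have h1 := (h.of_lt (j - i) (by ring) (by omega)).1
  have h2 : (1 : ℝ) ≤ ((j - i : ℤ) : ℝ) := by exact_mod_cast (show 1 ≤ j - i by omega)
  linarith

lemma Hel.st {x y : Fin 6 → ℝ} {ρ : Fin 6 → ℤ} (H : Hel r x ρ y) (v w : Fin 6) (e : v ≠ w) :
    St r (ρ v) (ρ w) (y v) (y w) := by
  rcases lt_or_gt_of_ne (H.inj v w e) with c | c
  · exact Or.inl ⟨c, H.lo v w c.le, H.hi v w c.le⟩
  · exact Or.inr ⟨c, H.lo w v c.le, H.hi w v c.le⟩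

section Frame

variable {f : ℤ → ℝ}

lemma fr_neg (hf : Fr 8 r f) : Fr 8 r fun i => -f (-i) := by
  refine ⟨fun i => ?_, fun i => ?_⟩
  · have := hf.step (-(i + 1))
    rw [show -(i + 1) + 1 = -i by ring] at this
    linarith
  · have := hf.per (-(i + ((8 : ℕ) : ℤ)))
    rw [show -(i + ((8 : ℕ) : ℤ)) + ((8 : ℕ) : ℤ) = -i by ring] at this
    linarith

lemma fr_le (hf : Fr 8 r f) {i j : ℤ} (h : i ≤ j) : f i ≤ f j := by
  have h1 := hf.mono h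
  have h2 : (i : ℝ) ≤ j := by exact_mod_cast h
  linarith

/-- A short distance needs as many slots. -/
lemma fr_low (hf : Fr 8 r f) (hr : r < 9) {J K m : ℤ} (hm : m ≤ 8)
    (h : f J + m ≤ f K) : J + m ≤ K := by
  by_contra hc
  have h1 := fr_le hf (show K ≤ J + m - 1 by omega)
  have h2 := hf.upper (show J + m - 1 ≤ J + ((8 : ℕ) : ℤ) by push_cast; omega)
  push_cast at h2
  linarith

/-- A long distance needs one slot less. -/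
lemma fr_low' (hf : Fr 8 r f) (hr : r < 9) {J K m : ℤ} (hm : m ≤ 18)
    (h : f J + m ≤ f K) : J + m - 1 ≤ K := by
  by_contra hc
  have h1 := fr_le hf (show K ≤ J + m - 2 by omega)
  have h2 := hf.upper (show J + m - 2 ≤ J + 8 + ((8 : ℕ) : ℤ) by push_cast; omega)
  have h3 : f (J + 8) = f J + r := hf.per J
  push_cast at h2
  linarith

lemma fr_up (hf : Fr 8 r f) {J K m : ℤ} (h0 : 0 ≤ m) (h : f K < f J + m) : K < J + m := by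
  by_contra hc
  have h1 := hf.mono (show J ≤ K by omega)
  have h2 : (J : ℝ) + m ≤ K := by exact_mod_cast (show J + m ≤ K by omega)
  linarith

lemma fr_up' (hf : Fr 8 r f) {J K m : ℤ} (h0 : 0 ≤ m) (h : f K < f J + r + m) : K < J + 8 + m := by
  have h3 : f (J + 8) = f J + r := hf.per J
  exact fr_up hf h0 (h3 ▸ h)

lemma slot_pos (hf : Fr 8 r f) (hr : r < 9) {J K d : ℤ} (h0 : 0 < d) (h5 : d ≤ 5)
    (h : f J + 2 * d ≤ f K ∧ f K ≤ f J + 2 * d + (2 * r - 17)) :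
    (d ≤ 3 ∧ K = J + 2 * d) ∨ (d = 5 ∧ K = J + 9) := by
  obtain ⟨h1, h2⟩ := h
  have a1 : K < J + (2 * d + 1) := fr_up hf (by omega) (by push_cast; linarith)
  rcases (by omega : d ≤ 3 ∨ d = 4 ∨ d = 5) with h3 | rfl | rfl
  · have a2 : J + 2 * d ≤ K := fr_low hf hr (by omega) (by push_cast; linarith)
    omega
  · have a2 : J + 8 ≤ K := fr_low hf hr (by omega) (by push_cast at h1 ⊢; linarith)
    have a3 : K < J + 8 + 0 := fr_up' hf le_rfl (by push_cast at h2 ⊢; linarith)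
    omega
  · have a2 : J + 10 - 1 ≤ K := fr_low' hf hr (by omega) (by push_cast at h1 ⊢; linarith)
    have a3 : K < J + 8 + 2 := fr_up' hf (by omega) (by push_cast at h2 ⊢; linarith)
    omega

/-- The slots of two ports at the places `v`, `w` of one block. -/
def SL (v w J K : ℤ) : Prop :=
  (w ≤ v + 3 ∧ v ≤ w + 3 ∧ K = J + 2 * (w - v)) ∨ (v = 0 ∧ w = 5 ∧ K = J + 9) ∨
    (w = 0 ∧ v = 5 ∧ J = K + 9)

/-- Two ports of one block at one vertex. -/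
lemma slot (hf : Fr 8 r f) (hr : r < 9) {x y : Fin 6 → ℝ} {ρ : Fin 6 → ℤ} (H : Hel r x ρ y)
    (v w : Fin 6) (e : v ≠ w) {J K : ℤ} (hJ : y v = f J) (hK : y w = f K) :
    SL (ρ v) (ρ w) J K := by
  have a := H.st v w e
  rw [hJ, hK] at a
  have := H.rng v
  have := H.rng w
  unfold SL
  rcases lt_or_gt_of_ne a.ne with c | c
  · have := slot_pos hf hr (by omega) (by omega) (a.of_lt (ρ w - ρ v) (by ring) (by omega))
    omega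
  · have := slot_pos hf hr (by omega) (by omega) (a.symm.of_lt (ρ v - ρ w) (by ring) (by omega))
    omega

/-- Ports of two blocks on the two sides of a common port. -/
lemma cross (hf : Fr 8 r f) (hr : r < 9) {q v q' w J K : ℤ} {σ : ℝ} (h1 : St r q v σ (f K))
    (h2 : St r q' w σ (f J)) (c1 : q < v) (c2 : w < q') :
    (v - q + q' - w ≤ 4 → J + 2 * (v - q + q' - w) ≤ K) ∧
      (v - q + q' - w = 6 → J + 11 ≤ K ∧ K ≤ J + 12) := by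
  obtain ⟨a1, a2⟩ := h1.of_lt (v - q) (by ring) (by omega)
  obtain ⟨b1, b2⟩ := h2.symm.of_lt (q' - w) (by ring) (by omega)
  refine ⟨fun h => fr_low hf hr (by omega) (by push_cast at a1 b1 ⊢; linarith), fun h => ?_⟩
  have e : (v : ℝ) - q + q' - w = 6 := by exact_mod_cast h
  push_cast at a1 a2 b1 b2
  have a3 : J + 12 - 1 ≤ K := fr_low' hf hr (by omega) (by push_cast; linarith)
  have a4 : K < J + 8 + 5 := fr_up' hf (by omega) (by push_cast; linarith)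
  omega

end Frame

/-- The places of the first block of the cell. -/
lemma tri_one {s b c Ja Jb Jc : ℤ} (hs : 0 ≤ s ∧ s + 3 ≤ 5) (hb : 0 ≤ b ∧ b ≤ 5)
    (hc : 0 ≤ c ∧ c ≤ 5) (p : P3 b c) (n : b ≠ s ∧ b ≠ s + 3) (ab : SL (s + 3) b Ja Jb)
    (ac : SL (s + 3) c Ja Jc) (bc : SL b c Jb Jc) :
    Jb = Ja + 2 * (b - s - 3) ∧ Jc = Ja + 2 * (c - s - 3) ∧ s < b ∧ s < c := by
  unfold SL P3 at *
  omega

/-- The places of the second block of the cell. -/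
lemma tri_two {d z e w f Jd Je Jf : ℤ} (hd : 0 ≤ d ∧ d + 3 ≤ 5) (hz : 0 ≤ z ∧ z ≤ 5)
    (he : 0 ≤ e ∧ e ≤ 5) (hw : 0 ≤ w ∧ w ≤ 5) (hf : 0 ≤ f ∧ f ≤ 5) (p : P3 z e) (q : P3 w f)
    (n : e ≠ d ∧ e ≠ d + 3 ∧ f ≠ d ∧ f ≠ d + 3 ∧ e ≠ f ∧ e ≠ w) (de : SL d e Jd Je)
    (df : SL d f Jd Jf) (ef : SL e f Je Jf) :
    Je = Jd + 2 * (e - d) ∧ Jf = Jd + 2 * (f - d) ∧ e < d + 3 ∧ f < d + 3 := by
  unfold SL P3 at *
  omega

/-- The only mode of the cell. -/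
lemma cell_int {s b c d e f Ja Jb Jc Jd Je Jf : ℤ} (hs : 0 ≤ s) (hb : b ≤ 5) (hc : c ≤ 5)
    (p : P3 b c) (n : b ≠ s + 3 ∧ c ≠ s + 3) (he : 0 ≤ e) (hf : 0 ≤ f) (hd : d + 3 ≤ 5)
    (n' : e ≠ d ∧ f ≠ d ∧ e ≠ f)
    (t1 : Jb = Ja + 2 * (b - s - 3) ∧ Jc = Ja + 2 * (c - s - 3) ∧ s < b ∧ s < c)
    (t2 : Je = Jd + 2 * (e - d) ∧ Jf = Jd + 2 * (f - d) ∧ e < d + 3 ∧ f < d + 3)
    (ad : Jd + 11 ≤ Ja ∧ Ja ≤ Jd + 12) (m1 : Jd % 8 ≠ Jb % 8) (m2 : Jd % 8 ≠ Jc % 8)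
    (bd : b - s + (d + 3) - d ≤ 4 → Jd + 2 * (b - s + (d + 3) - d) ≤ Jb)
    (be : b - s + (d + 3) - e ≤ 4 → Je + 2 * (b - s + (d + 3) - e) ≤ Jb)
    (bf : b - s + (d + 3) - f ≤ 4 → Jf + 2 * (b - s + (d + 3) - f) ≤ Jb)
    (cd : c - s + (d + 3) - d ≤ 4 → Jd + 2 * (c - s + (d + 3) - d) ≤ Jc)
    (ce : c - s + (d + 3) - e ≤ 4 → Je + 2 * (c - s + (d + 3) - e) ≤ Jc)
    (cf : c - s + (d + 3) - f ≤ 4 → Jf + 2 * (c - s + (d + 3) - f) ≤ Jc) :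
    s = 0 ∧ d = 2 ∧ ((b = 2 ∧ c = 5 ∧ Jd + 16 = Jc + 1) ∨ (b = 5 ∧ c = 2 ∧ Jd + 16 = Jb + 1)) ∧
      ((e = 0 ∧ f = 1) ∨ (e = 1 ∧ f = 0)) := by
  obtain ⟨rfl, rfl, t1⟩ := t1
  obtain ⟨rfl, rfl, t2⟩ := t2
  unfold P3 at p
  obtain rfl : Ja = Jd + 11 := by clear * - hs hb hc p n t1 ad m1 m2; omega
  clear m1 m2 ad
  omega

/-- The distances in the mode. -/
lemma cell_fin {σ X Y C D Z W : ℝ} (hr : r < 9) (h1 : σ + 2 ≤ X) (h2 : X + 6 ≤ Y)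
    (h3 : Y ≤ X + 6 + (2 * r - 17)) (h4 : Y + 2 ≤ C) (h5 : C + 1 ≤ D + 2 * r) (h6 : D + 2 ≤ Z)
    (h7 : Z + 2 ≤ W) (h8 : W ≤ Z + 2 + (2 * r - 17)) (h9 : W + 2 ≤ σ) :
    cd r Z W ≤ 2 + (2 * r - 17) ∧ cd r Z W ≤ cd r X Y + (r - 9) ∧ 2 ≤ cd r X Y + (r - 9) := by
  have h0 : 0 < r := by linarith
  have a : cd r Z W ≤ W - Z :=
    (cd_le_of (u := W - Z) h0 (Cg.of_eq (by ring))).trans (abs_of_nonneg (by linarith)).le
  have b : r - (Y - X) ≤ cd r X Y :=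
    le_cd_of (u := Y - X) h0 (Cg.of_eq (by ring)) (by linarith) (by linarith)
  exact ⟨by linarith, by linarith, by linarith⟩

/-- The cell with the port `a` after the common link. -/
lemma cell_core {f : ℤ → ℝ} (hf : Fr 8 r f) (hr : r < 9) {x x' y z : Fin 6 → ℝ} {ρ ρ' : Fin 6 → ℤ}
    (H : Hel r x ρ y) (K : Hel r x' ρ' z) (es : y 2 = z 0) {Ja Jb Jc Jd Je Jf : ℤ}
    (ea : y 3 = f Ja) (eb : y 4 = f Jb) (ec : y 5 = f Jc) (ed : z 1 = f Jd) (ee : z 3 = f Je)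
    (ef : z 5 = f Jf) (m0 : Far r (x 3) (x' 1)) (m1 : Jd % 8 ≠ Jb % 8) (m2 : Jd % 8 ≠ Jc % 8)
    (o : ρ 3 = ρ 2 + 3) :
    cd r (z 2) (z 4) ≤ 2 + (2 * r - 17) ∧ cd r (z 2) (z 4) ≤ cd r (y 0) (y 1) + (r - 9) ∧
      2 ≤ cd r (y 0) (y 1) + (r - 9) := by
  have h0 : 0 < r := by linarith [H.half]
  have o' : ρ' 0 = ρ' 1 + 3 := by
    have a := H.nf0 K hr es m0
    have b : ρ' 1 = ρ' 0 + 3 ∨ ρ' 0 = ρ' 1 + 3 := K.par 0
    omega
  have p01 : P3 (ρ 0) (ρ 1) := H.par 0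
  have p45 : P3 (ρ 4) (ρ 5) := H.par 4
  have q23 : P3 (ρ' 2) (ρ' 3) := K.par 2
  have q45 : P3 (ρ' 4) (ρ' 5) := K.par 4
  have t1 := tri_one ⟨(H.rng 2).1, o ▸ (H.rng 3).2⟩ (H.rng 4) (H.rng 5) p45
    ⟨H.inj 4 2 (by decide), o ▸ H.inj 4 3 (by decide)⟩ (o ▸ slot hf hr H 3 4 (by decide) ea eb)
    (o ▸ slot hf hr H 3 5 (by decide) ea ec) (slot hf hr H 4 5 (by decide) eb ec)
  have t2 := tri_two ⟨(K.rng 1).1, o' ▸ (K.rng 0).2⟩ (K.rng 2) (K.rng 3) (K.rng 4) (K.rng 5) q23 q45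
    ⟨K.inj 3 1 (by decide), o' ▸ K.inj 3 0 (by decide), K.inj 5 1 (by decide),
      o' ▸ K.inj 5 0 (by decide), K.inj 3 5 (by decide), K.inj 3 4 (by decide)⟩
    (slot hf hr K 1 3 (by decide) ed ee) (slot hf hr K 1 5 (by decide) ed ef)
    (slot hf hr K 3 5 (by decide) ee ef)
  have X : ∀ (v w : Fin 6) (J L : ℤ), 2 ≠ v → 0 ≠ w → y v = f L → z w = f J → ρ 2 < ρ v →
      ρ' w < ρ' 1 + 3 → (ρ v - ρ 2 + (ρ' 1 + 3) - ρ' w ≤ 4 →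
        J + 2 * (ρ v - ρ 2 + (ρ' 1 + 3) - ρ' w) ≤ L) ∧
      (ρ v - ρ 2 + (ρ' 1 + 3) - ρ' w = 6 → J + 11 ≤ L ∧ L ≤ J + 12) := by
    intro v w J L a b c d e g
    have a1 := H.st 2 v a
    have a2 := K.st 0 w b
    rw [c] at a1
    rw [d, ← es, o'] at a2
    exact cross hf hr a1 a2 e g
  have hd : ρ' 1 < ρ' 1 + 3 := by omega
  obtain ⟨s0, d2, k1, k2⟩ := cell_int (H.rng 2).1 (H.rng 4).2 (H.rng 5).2 p45
    ⟨o ▸ H.inj 4 3 (by decide), o ▸ H.inj 5 3 (by decide)⟩ (K.rng 3).1 (K.rng 5).1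
    (o' ▸ (K.rng 0).2) ⟨K.inj 3 1 (by decide), K.inj 5 1 (by decide), K.inj 3 5 (by decide)⟩ t1 t2
    ((X 3 1 _ _ (by decide) (by decide) ea ed (by omega) hd).2 (by omega)) m1 m2
    (X 4 1 _ _ (by decide) (by decide) eb ed t1.2.2.1 hd).1
    (X 4 3 _ _ (by decide) (by decide) eb ee t1.2.2.1 t2.2.2.1).1
    (X 4 5 _ _ (by decide) (by decide) eb ef t1.2.2.1 t2.2.2.2).1
    (X 5 1 _ _ (by decide) (by decide) ec ed t1.2.2.2 hd).1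
    (X 5 3 _ _ (by decide) (by decide) ec ee t1.2.2.2 t2.2.2.1).1
    (X 5 5 _ _ (by decide) (by decide) ec ef t1.2.2.2 t2.2.2.2).1
  clear X t1 t2 m1 m2
  obtain ⟨l, l5, hl⟩ : ∃ l : Fin 6, ρ l = 5 ∧ y l + 1 ≤ z 1 + 2 * r := by
    have g : f (Jd + 16) = f Jd + 2 * r := by
      have := hf.perZ Jd 2
      push_cast at this
      exact this
    rcases k1 with ⟨-, a, b⟩ | ⟨a, -, b⟩
    · exact ⟨5, a, by rw [ec, ed, ← g, b]; exact hf.step _⟩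
    · exact ⟨4, a, by rw [eb, ed, ← g, b]; exact hf.step _⟩
  have A : ∀ v w : Fin 6, ρ v = 1 → ρ w = 4 → ∀ v' w' : Fin 6, ρ' v' = 3 → ρ' w' = 4 →
      cd r (z v') (z w') ≤ 2 + (2 * r - 17) ∧ cd r (z v') (z w') ≤ cd r (y v) (y w) + (r - 9) ∧
        2 ≤ cd r (y v) (y w) + (r - 9) := by
    intro v w a b v' w' c d
    have a1 := H.lo 2 v (by omega)
    have a2 := H.lo v w (by omega)
    have a3 := H.hi v w (by omega)
    have a4 := H.lo w l (by omega)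
    have a5 := K.lo 1 v' (by omega)
    have a6 := K.lo v' w' (by omega)
    have a7 := K.hi v' w' (by omega)
    have a8 := K.lo w' 0 (by omega)
    simp only [a, b, c, d, s0, d2, l5, o'] at a1 a2 a3 a4 a5 a6 a7 a8
    push_cast at a1 a2 a3 a4 a5 a6 a7 a8
    exact cell_fin (σ := y 2) (C := y l) (D := z 1) hr (by linarith) (by linarith) (by linarith)
      (by linarith) hl (by linarith) (by linarith) (by linarith) (by linarith)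
  have k3 : (ρ 0 = 1 ∧ ρ 1 = 4) ∨ (ρ 1 = 1 ∧ ρ 0 = 4) := by
    have := H.inj 0 2 (by decide)
    have := H.inj 0 3 (by decide)
    have := H.inj 0 4 (by decide)
    have := H.inj 0 5 (by decide)
    have := H.rng 0
    have := H.rng 1
    unfold P3 at p01
    omega
  have k4 : (ρ' 2 = 3 ∧ ρ' 4 = 4) ∨ (ρ' 4 = 3 ∧ ρ' 2 = 4) := by
    have := K.rng 2
    have := K.rng 4
    unfold P3 at q23 q45
    omega
  rcases k3 with ⟨a, b⟩ | ⟨a, b⟩ <;> rcases k4 with ⟨c, d⟩ | ⟨c, d⟩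
  · exact A _ _ a b _ _ c d
  · rw [cd_symm h0 (z 2)]
    exact A _ _ a b _ _ c d
  · rw [cd_symm h0 (y 0)]
    exact A _ _ a b _ _ c d
  · rw [cd_symm h0 (z 2), cd_symm h0 (y 0)]
    exact A _ _ a b _ _ c d

lemma cd_neg (hr : 0 < r) (x y : ℝ) : cd r (-x) (-y) = cd r x y := by
  have key : ∀ a b : ℝ, cd r (-a) (-b) ≤ cd r a b := fun a b => by
    obtain ⟨u, hu, e⟩ := cd_lift r a b
    rw [← e, ← abs_neg]
    exact cd_le_of hr (hu.neg.trans (Cg.of_eq (by ring)))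
  exact le_antisymm (key x y) (by simpa using key (-x) (-y))

/-- The slot of a lift. -/
lemma lift_slot {f : ℤ → ℝ} (hf : Fr 8 r f) {c Y : ℝ} {κ : ℤ} (h0 : 0 ≤ κ) (h1 : κ < (8 : ℕ))
    (h : Cg r c (f κ)) (g : Cg r c Y) : ∃ J, Y = f J ∧ J % 8 = κ := by
  obtain ⟨n, hn⟩ := g.symm.trans h
  refine ⟨κ + n * (8 : ℕ), by rw [hf.perZ, hn], ?_⟩
  push_cast at h1 ⊢
  omega

/-- The drift of the cell: the blocks `(x, y) (s, a) (b, c)` and `(s, d) (z, e) (w, f)`, and a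
vertex with the ends `a, b, c, d, e, f` and two more ends. -/
theorem cell_nec (h1 : 1 ≤ r) (hr : r < 9) {x x' : Fin 6 → ℝ} (h : R6 r x) (h' : R6 r x')
    (ls : Cg r (x 2) (x' 0)) {v : Fin 8 → ℝ} (hv : ∀ i j, i ≠ j → Far r (v i) (v j))
    (ea : v 0 = x 3) (eb : v 1 = x 4) (ec : v 2 = x 5) (ed : v 3 = x' 1) (ee : v 4 = x' 3)
    (ef : v 5 = x' 5) :
    cd r (x' 2) (x' 4) ≤ 2 + (2 * r - 17) ∧ cd r (x' 2) (x' 4) ≤ cd r (x 0) (x 1) + (r - 9) ∧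
      2 ≤ cd r (x 0) (x 1) + (r - 9) := by
  have h0 : 0 < r := by linarith
  obtain ⟨ρ, y, H⟩ := h.hel
  obtain ⟨ρ', z, K⟩ := h'.hel
  obtain ⟨z, K, es⟩ := H.align K ls
  obtain ⟨f, κ, G, -⟩ := exists_good (k := 8) h0 Finset.univ (by simp) v
    (fun i _ j _ => hv i j) 0 (Finset.mem_univ _) 0 le_rfl (by norm_num) _ (Cg.refl _ _) h1
  have L : ∀ (i : Fin 8) (Y : ℝ), Cg r (v i) Y → ∃ J, Y = f J ∧ J % 8 = κ i := fun i Y =>
    lift_slot G.fr (G.lo i (Finset.mem_univ _)) (G.hi i (Finset.mem_univ _))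
      (G.near i (Finset.mem_univ _))
  obtain ⟨Ja, a, -⟩ := L 0 _ (ea ▸ H.cg 3)
  obtain ⟨Jb, b, b'⟩ := L 1 _ (eb ▸ H.cg 4)
  obtain ⟨Jc, c, c'⟩ := L 2 _ (ec ▸ H.cg 5)
  obtain ⟨Jd, d, d'⟩ := L 3 _ (ed ▸ K.cg 1)
  obtain ⟨Je, e, -⟩ := L 4 _ (ee ▸ K.cg 3)
  obtain ⟨Jf, g, -⟩ := L 5 _ (ef ▸ K.cg 5)
  have m0 : Far r (x 3) (x' 1) := ea ▸ ed ▸ hv 0 3 (by decide)
  have m1 : Jd % 8 ≠ Jb % 8 := fun m => absurd
    (G.inj 3 (Finset.mem_univ _) 1 (Finset.mem_univ _) (by omega)) (by decide)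
  have m2 : Jd % 8 ≠ Jc % 8 := fun m => absurd
    (G.inj 3 (Finset.mem_univ _) 2 (Finset.mem_univ _) (by omega)) (by decide)
  rw [cd_congr h0 (K.cg 2) (K.cg 4), cd_congr h0 (H.cg 0) (H.cg 1)]
  have hp : ρ 3 = ρ 2 + 3 ∨ ρ 2 = ρ 3 + 3 := H.par 2
  rcases hp with o | o
  · exact cell_core G.fr hr H K es a b c d e g m0 m1 m2 o
  · rw [← cd_neg h0 (z 2), ← cd_neg h0 (y 0)]
    exact cell_core (fr_neg G.fr) hr H.neg K.neg (congrArg _ es) (Ja := -Ja) (Jb := -Jb)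
      (Jc := -Jc) (Jd := -Jd) (Je := -Je) (Jf := -Jf) (by simp [a]) (by simp [b]) (by simp [c])
      (by simp [d]) (by simp [e]) (by simp [g]) m0.neg (by omega) (by omega)
      (by omega)

end Pool.Agent.P.MP_3f5ded_co.UG.B8
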