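import Pool.Agent.P.MP_3f5ded_co.U8Net
import Pool.Agent.P.MP_3f5ded_co.USChain

set_option autoImplicit false

namespace Pool.Agent.P.MP_3f5ded_co.UG.B8

/-- A closed pole that is colourable at `x` and not below. -/
theorem closed_eight (hT : Real' 8 ok8 (Fin 6) true R6) (x : ℚ) (h1 : 17 / 2 < x) (h2 : x < 9) :
    ∃ R, Real' 8 ok8 (Fin 0) true R ∧ (∀ y, R x y) ∧ ∀ (r : ℝ) y, ok8 r → r < x → ¬ R r y := by
  have h1' : (17 / 2 : ℝ) < x := by simpa using (Rat.cast_lt (K := ℝ)).2 h1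
  have h2' : (x : ℝ) < 9 := by exact_mod_cast h2
  have hok : ok8 x := ⟨by linarith, h2'⟩
  obtain ⟨E, hE, E1, E2⟩ := real_wire hT
  obtain ⟨I, hI, I1, I2⟩ := real_cell hT
  obtain ⟨L, N, hL, hN, hq⟩ := exists_ratio (α := 9 - x) (β := 2 * x - 17) (by linarith)
    (by linarith)
  refine exists_drift (s := fun r => 2 * r - 17) (κ := fun r => r - 9) (β := fun _ => 2) hE hI
    (fun r hr => by linarith [hr.1]) hok (by linarith) E1 (fun y => E2 x y hok) I1
    (fun v c => I2 x v c hok) L N hL hN ?_ ?_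
  · push_cast at hq
    linarith
  · intro r _ hr
    constructor <;> linarith

/-- A closed pole that is never colourable below nine. -/
theorem never_eight (hT : Real' 8 ok8 (Fin 6) true R6) :
    ∃ R, Real' 8 ok8 (Fin 0) true R ∧ ∀ r x, ok8 r → ¬ R r x := by
  obtain ⟨E, hE, E1, -⟩ := real_wire hT
  obtain ⟨I, hI, I1, -⟩ := real_cell hT
  refine ⟨_, (hE.cap hI).clo hE, ?_⟩
  rintro r x hr ⟨y, ⟨a, b, a1, a2⟩, -⟩
  have b1 : cd r a b ≤ 2 * r - 17 := E1 r _ hr a1
  have b2 : 2 ≤ cd r a b + (r - 9) := (I1 r _ hr a2).2.2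
  linarith [hr.2]

/-- With a rigid block, the values for the degree eight are all rationals in `[8, 9]`. -/
theorem iff_eight (h : Rigid) (x : ℝ) :
    (∃ (n : ℕ) (G : SimpleGraph (Fin n)) (_ : DecidableRel G.Adj), 0 < n ∧
      G.IsRegularOfDegree 8 ∧ sInf {r : ℝ | 1 ≤ r ∧ Col G r} = x) ↔
      ∃ q : ℚ, x = q ∧ ((8 : ℕ) : ℚ) ≤ q ∧ q ≤ (8 : ℕ) + 1 := by
  constructor
  · rintro ⟨n, G, dec, hn, hreg, rfl⟩
    exact value_mem G hn hreg
  · rintro ⟨q, rfl, h1, h2⟩
    have h1' : (8 : ℝ) ≤ q := by exact_mod_cast h1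
    have key : ∃ (n : ℕ) (G : SimpleGraph (Fin n)) (_ : DecidableRel G.Adj),
        G.IsRegularOfDegree 8 ∧ IsLeast {r : ℝ | 1 ≤ r ∧ Col G r} (q : ℝ) := by
      rcases le_or_gt q ((8 : ℕ) + 1 / 2) with h3 | h3
      · exact main_lower (by norm_num) q h1 h3
      rcases h2.eq_or_lt with rfl | h2
      · obtain ⟨R, hR, a1⟩ := never_eight h.real
        exact_mod_cast end_high_of hR one_pos (by norm_num)
          (fun r b1 b2 => ⟨b1, by push_cast at b2; linarith⟩) a1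
      · push_cast at h2 h3
        obtain ⟨R, hR, a1, a2⟩ := closed_eight h.real q (by linarith) (by linarith)
        have h2' : (q : ℝ) < 9 := by exact_mod_cast (show q < 9 by linarith)
        exact least_of_closed hR le_rfl (by linarith) (fun r b1 b2 => ⟨b1, by linarith⟩) a1
          (fun r y b1 b2 => a2 r y ⟨b1, by linarith⟩ b2) (Or.inr rfl)
    obtain ⟨n, G, dec, hreg, hl⟩ := key
    exact ⟨n, G, dec, pos_of_value G (by linarith) hl, hreg, hl.csInf_eq⟩

end Pool.Agent.P.MP_3f5ded_co.UG.B8
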