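import Pool.Agent.P.MP_3f5ded_co.U8Blk
import Pool.Agent.P.MP_3f5ded_co.U8Cell
import Pool.Agent.P.MP_3f5ded_co.UEMain

set_option autoImplicit false

namespace Pool.Agent.P.MP_3f5ded_co.UG.B8

open Sum

/-- Eight sorted colours, listed in any order. -/
lemma far_sorted {r : ℝ} (g : Fin 8 → ℝ) (h : ∀ i : Fin 7, g i.castSucc + 1 ≤ g i.succ)
    (t : g 7 + 1 ≤ g 0 + r) (σ : Fin 8 → Fin 8) (hσ : Function.Injective σ) (i j : Fin 8)
    (e : i ≠ j) : Far r (g (σ i)) (g (σ j)) := by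
  have m : Monotone fun i : Fin 8 => g i - (i.1 : ℝ) := Fin.monotone_iff_le_succ.2 fun i => by
    have := h i
    simp only [Fin.val_castSucc, Fin.val_succ]
    push_cast
    linarith
  have m' : Monotone g := Fin.monotone_iff_le_succ.2 fun i => by linarith [h i]
  have key : ∀ a b : Fin 8, a < b → Far r (g a) (g b) := fun a b c => by
    have a1 : g a - (a.1 : ℝ) ≤ g b - (b.1 : ℝ) := m c.le
    have a2 : (a.1 : ℝ) + 1 ≤ b.1 := by exact_mod_cast c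
    have a3 : g 0 ≤ g a := m' (Fin.zero_le _)
    have a4 : g b ≤ g 7 := m' (Fin.le_last _)
    exact Far.of_bounds (by linarith) (by linarith)
  rcases lt_or_gt_of_ne (hσ.ne e) with c | c
  · exact key _ _ c
  · exact (key _ _ c).symm

lemma R6.intro {r : ℝ} {x : Fin 6 → ℝ} (p : Fin 6 → Fin 6)
    (hp : Function.Injective p ∧ p 3 = pa (p 0) ∧ p 4 = pa (p 1) ∧ p 5 = pa (p 2))
    {y0 y1 y2 y3 y4 y5 : ℝ} (c0 : Cg r (x (p 0)) y0) (c1 : Cg r (x (p 1)) y1)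
    (c2 : Cg r (x (p 2)) y2) (c3 : Cg r (x (p 3)) y3) (c4 : Cg r (x (p 4)) y4)
    (c5 : Cg r (x (p 5)) y5) (h0 : y0 + 2 ≤ y1) (h1 : y1 + 2 ≤ y2) (h2 : y2 + 2 ≤ y3)
    (h3 : y3 + 2 ≤ y4) (h4 : y4 + 2 ≤ y5) (h5 : y5 + 7 ≤ y0 + 2 * r) : R6 r x :=
  ⟨p, ![y0, y1, y2, y3, y4, y5], hp.1, hp.2.1, hp.2.2.1, hp.2.2.2, fun i => by
    fin_cases i
    exacts [c0, c1, c2, c3, c4, c5], h0, h1, h2, h3, h4, h5⟩

/-- A long elastic chain. -/
lemma exists_long : ∃ F : Pole 8 (Fin 2), F.Inj ∧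
    ∀ r a b : ℝ, 17 / 2 ≤ r → |b - a| ≤ 4 → F.Rel r ![a, b] := by
  obtain ⟨E, hE⟩ := exists_E_even (k := 8) (by norm_num) (by decide)
  obtain ⟨F, f1, -, f2⟩ := ulf_chain hE 7
  exact ⟨F, f1, fun r a b h1 h2 => f2 r a b (by linarith) (by push_cast; linarith)⟩

/-- The wire ends of a vertex with six ports. -/
abbrev W6 : Type := ((Unit × Fin 8) ⊕ (Unit × Fin 2)) ⊕ Fin 6

/-- Its wires. -/
def t6 : W6 → W6
  | inl (inl (_, i)) => ![inr 0, inr 1, inr 2, inr 3, inr 4, inr 5, inl (inr ((), 0)),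
      inl (inr ((), 1))] i
  | inl (inr (_, j)) => inl (inl ((), ![6, 7] j))
  | inr j => inl (inl ((), ![0, 1, 2, 3, 4, 5] j))

/-- Its edges. -/
def e6 : W6 → Fin 8
  | inl (inl (_, i)) => i
  | inl (inr (_, j)) => ![6, 7] j
  | inr j => ![0, 1, 2, 3, 4, 5] j

set_option synthInstance.maxSize 1000 in
/-- A vertex with six ports and two loose ends. -/
lemma exists_V6 : ∃ A : Pole 8 (Fin 6),
    (∀ r x, A.Rel r x → ∃ v : Fin 8 → ℝ, (∀ i j, i ≠ j → Far r (v i) (v j)) ∧ v 0 = x 0 ∧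
      v 1 = x 1 ∧ v 2 = x 2 ∧ v 3 = x 3 ∧ v 4 = x 4 ∧ v 5 = x 5) ∧
    ∀ (r : ℝ) (v : Fin 8 → ℝ), 17 / 2 ≤ r → (∀ i j, i ≠ j → Far r (v i) (v j)) →
      |v 7 - v 6| ≤ 4 → A.Rel r ![v 0, v 1, v 2, v 3, v 4, v 5] := by
  obtain ⟨F, f1, f2⟩ := exists_long
  obtain ⟨V, hV⟩ := exists_vertex (k := 8) (Fin 8) (by simp)
  obtain ⟨B, -, hB⟩ := net2 (fun _ : Unit => V) (fun _ : Unit => F) (fun _ => V.tag_true)
    (fun _ => f1.tag) t6 (by decide) (by decide) (by decide) (by decide) (fun _ _ => True)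
    (fun _ _ _ _ _ _ _ => trivial) e6
    ![inr 0, inr 1, inr 2, inr 3, inr 4, inr 5, inl (inr ((), 0)), inl (inr ((), 1))]
    (by decide) (by decide) (by decide)
  refine ⟨B, fun r x h => ?_, fun r v h1 h2 h3 => (hB r _).2 ⟨v, fun p => ?_,
    fun _ => (hV r _).2 h2, fun _ => ?_⟩⟩
  · obtain ⟨w, w1, w2, -⟩ := (hB r x).1 h
    exact ⟨w, (hV r _).1 (w2 ()), w1 0, w1 1, w1 2, w1 3, w1 4, w1 5⟩
  · fin_cases p <;> rfl
  · refine (f2 r _ _ h1 h3).cg fun p => ?_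
    fin_cases p <;> exact Cg.refl _ _

/-- The wire ends of a vertex with four ports. -/
abbrev W4 : Type := ((Unit × Fin 6) ⊕ (Unit × Fin 2)) ⊕ Fin 4

/-- Its wires. -/
def t4 : W4 → W4
  | inl (inl (_, i)) => ![inr 0, inr 1, inr 2, inr 3, inl (inr ((), 0)), inl (inr ((), 1))] i
  | inl (inr (_, j)) => inl (inl ((), ![4, 5] j))
  | inr j => inl (inl ((), ![0, 1, 2, 3] j))

/-- Its edges. -/
def e4 : W4 → Fin 6
  | inl (inl (_, i)) => i
  | inl (inr (_, j)) => ![4, 5] j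
  | inr j => ![0, 1, 2, 3] j

set_option synthInstance.maxSize 1000 in
/-- A vertex with four ports and four loose ends. -/
lemma exists_V4 : ∃ A : Pole 8 (Fin 4),
    (∀ r x, A.Rel r x → ∃ v : Fin 8 → ℝ, (∀ i j, i ≠ j → Far r (v i) (v j)) ∧ v 0 = x 0 ∧
      v 1 = x 1 ∧ v 2 = x 2 ∧ v 3 = x 3) ∧
    ∀ (r : ℝ) (v : Fin 8 → ℝ), 17 / 2 ≤ r → (∀ i j, i ≠ j → Far r (v i) (v j)) →
      |v 7 - v 6| ≤ 4 → |v 5 - v 4| ≤ 4 → A.Rel r ![v 0, v 1, v 2, v 3] := by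
  obtain ⟨F, f1, f2⟩ := exists_long
  obtain ⟨V, v1, v2⟩ := exists_V6
  obtain ⟨B, -, hB⟩ := net2 (fun _ : Unit => V) (fun _ : Unit => F) (fun _ => V.tag_true)
    (fun _ => f1.tag) t4 (by decide) (by decide) (by decide) (by decide) (fun _ _ => True)
    (fun _ _ _ _ _ _ _ => trivial) e4
    ![inr 0, inr 1, inr 2, inr 3, inl (inr ((), 0)), inl (inr ((), 1))]
    (by decide) (by decide) (by decide)
  refine ⟨B, fun r x h => ?_, fun r v h1 h2 h3 h4 => (hB r _).2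
    ⟨![v 0, v 1, v 2, v 3, v 4, v 5], fun p => ?_, fun _ => v2 r v h1 h2 h3, fun _ => ?_⟩⟩
  · obtain ⟨w, w1, w2, -⟩ := (hB r x).1 h
    obtain ⟨v, a, a0, a1, a2, a3, -⟩ := v1 r _ (w2 ())
    exact ⟨v, a, a0.trans (w1 0), a1.trans (w1 1), a2.trans (w1 2), a3.trans (w1 3)⟩
  · fin_cases p <;> rfl
  · refine (f2 r _ _ h1 h4).cg fun p => ?_
    fin_cases p <;> exact Cg.refl _ _

/-- The wire ends of the wire. -/
abbrev WE : Type := ((Fin 2 × Fin 6) ⊕ (Unit × Fin 4)) ⊕ Fin 2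

/-- Its wires. -/
def tE : WE → WE
  | inl (inl (l, i)) => ![![inr 0, inl (inr ((), 0)), inl (inl (1, 0)), inl (inl (1, 1)),
      inl (inl (1, 2)), inl (inr ((), 1))], ![inl (inl (0, 2)), inl (inl (0, 3)), inl (inl (0, 4)),
      inl (inr ((), 2)), inr 1, inl (inr ((), 3))]] l i
  | inl (inr (_, j)) => inl (inl (![(0, 1), (0, 5), (1, 3), (1, 5)] j))
  | inr j => inl (inl (![(0, 0), (1, 4)] j))

/-- Its edges. -/
def eE : WE → Fin 9
  | inl (inl (l, i)) => ![![0, 5, 2, 3, 4, 6], ![2, 3, 4, 7, 1, 8]] l i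
  | inl (inr (_, j)) => ![5, 6, 7, 8] j
  | inr j => ![0, 1] j

set_option synthInstance.maxSize 1000 in
/-- The elastic wire of reach `2 r - 17`. -/
theorem real_wire (hT : Real' 8 ok8 (Fin 6) true R6) :
    ∃ R, Real' 8 ok8 (Fin 2) true R ∧
      (∀ r x, ok8 r → R r x → cd r (x 0) (x 1) ≤ 2 * r - 17) ∧
      ∀ r x, ok8 r → cd r (x 0) (x 1) ≤ 2 * r - 17 → R r x := by
  obtain ⟨T, t1, t2⟩ := hT
  obtain ⟨V, v1, v2⟩ := exists_V4
  obtain ⟨B, b1, hB⟩ := net2 (fun _ : Fin 2 => T) (fun _ : Unit => V) (fun _ => (t1 rfl).tag)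
    (fun _ => V.tag_true) tE (by decide) (by decide) (by decide) (by decide +kernel) Eq
    (by decide +kernel) eE
    ![inr 0, inr 1, inl (inl (0, 2)), inl (inl (0, 3)), inl (inl (0, 4)), inl (inr ((), 0)),
      inl (inr ((), 1)), inl (inr ((), 2)), inl (inr ((), 3))] (by decide) (by decide) (by decide)
  refine ⟨B.Rel, b1.inj.real _, fun r x hr h => ?_, fun r x hr h => ?_⟩
  · obtain ⟨w, w1, w2, w3⟩ := (hB r x).1 h
    obtain ⟨v, a, a0, a1, a2, a3⟩ := v1 r _ (w3 ())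
    rw [← w1, ← w1]
    exact wire_nec hr.2 ((t2 r hr _).1 (w2 0)) ((t2 r hr _).1 (w2 1)) (Cg.refl _ _) (Cg.refl _ _)
      (Cg.refl _ _) ((a 0 1 (by decide)).congr (.of_eq a0) (.of_eq a1))
      ((a 2 3 (by decide)).congr (.of_eq a2) (.of_eq a3))
      ((a 0 2 (by decide)).congr (.of_eq a0) (.of_eq a2))
      ((a 0 3 (by decide)).congr (.of_eq a0) (.of_eq a3))
      ((a 1 2 (by decide)).congr (.of_eq a1) (.of_eq a2))
      ((a 1 3 (by decide)).congr (.of_eq a1) (.of_eq a3))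
  · obtain ⟨u, hu, e⟩ := cd_lift r (x 0) (x 1)
    obtain ⟨u1, u2⟩ := abs_le.1 (e.le.trans h)
    have h9 := hr.2
    obtain ⟨σ, s1, s2, s3, s4⟩ : ∃ σ : ℝ, σ + 2 ≤ x 0 ∧ x 0 + 2 ≤ σ + 2 * r - 13 ∧
        σ + 2 ≤ x 0 + u ∧ x 0 + u + 2 ≤ σ + 2 * r - 13 := by
      rcases le_total 0 u with c | c
      · exact ⟨x 0 - 2, by linarith, by linarith, by linarith, by linarith⟩
      · exact ⟨x 0 + u - 2, by linarith, by linarith, by linarith, by linarith⟩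
    refine (hB r x).2 ⟨![x 0, x 1, σ, σ + 2 * r - 11, σ + 2 * r - 13, σ - 4, σ - 2, σ + r - 7,
      σ + r - 9], fun p => ?_, fun l => (t2 r hr _).2 ?_, fun _ => ?_⟩
    · fin_cases p <;> rfl
    · fin_cases l
      · exact R6.intro ![1, 5, 2, 0, 4, 3] (by decide) (y0 := σ - 4) (y1 := σ - 2) (y2 := σ)
          (y3 := x 0) (y4 := σ + 2 * r - 13) (y5 := σ + 2 * r - 11) (Cg.refl _ _) (Cg.refl _ _)
          (Cg.refl _ _) (Cg.refl _ _) (Cg.refl _ _) (Cg.refl _ _) (by linarith) (by linarith) s1 s2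
          (by linarith) (by linarith)
      · exact R6.intro ![0, 4, 2, 1, 5, 3] (by decide) (y0 := σ) (y1 := x 0 + u)
          (y2 := σ + 2 * r - 13) (y3 := σ + 2 * r - 11) (y4 := σ + 2 * r - 9)
          (y5 := σ + 2 * r - 7) (Cg.refl _ _) hu (Cg.refl _ _) (Cg.refl _ _)
          (Cg.down (show σ + r - 9 = _ by ring)) (Cg.down (show σ + r - 7 = _ by ring)) s3 s4
          (by linarith) (by linarith) (by linarith) (by linarith)
    · have a := far_sorted (r := r) ![σ - 4, σ - 3, σ - 2, σ + r - 9, σ + r - 8, σ + r - 7,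
        σ + r - 6, σ + r - 5] (fun i => by fin_cases i <;> simp <;> linarith) (by simp; linarith)
        ![0, 2, 5, 3, 1, 4, 6, 7] (by decide)
      refine (v2 r _ (by linarith) a (show |σ + r - 5 - (σ + r - 6)| ≤ 4 from
        abs_le.2 ⟨by linarith, by linarith⟩) (show |σ + r - 8 - (σ - 3)| ≤ 4 from
        abs_le.2 ⟨by linarith, by linarith⟩)).cg fun p => ?_
      fin_cases p <;> exact Cg.refl _ _

/-- The wire ends of the cell. -/
abbrev WI : Type := ((Fin 2 × Fin 6) ⊕ (Unit × Fin 6)) ⊕ Fin 4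

/-- Its wires. -/
def tI : WI → WI
  | inl (inl (l, i)) => ![![inr 0, inr 1, inl (inl (1, 0)), inl (inr ((), 0)), inl (inr ((), 1)),
      inl (inr ((), 2))], ![inl (inl (0, 2)), inl (inr ((), 3)), inr 2, inl (inr ((), 4)), inr 3,
      inl (inr ((), 5))]] l i
  | inl (inr (_, j)) => inl (inl (![(0, 3), (0, 4), (0, 5), (1, 1), (1, 3), (1, 5)] j))
  | inr j => inl (inl (![(0, 0), (0, 1), (1, 2), (1, 4)] j))

/-- Its edges. -/
def eI : WI → Fin 11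
  | inl (inl (l, i)) => ![![0, 1, 4, 5, 6, 7], ![4, 8, 2, 9, 3, 10]] l i
  | inl (inr (_, j)) => ![5, 6, 7, 8, 9, 10] j
  | inr j => ![0, 1, 2, 3] j

set_option synthInstance.maxSize 1000 in
/-- The drift cell. -/
theorem real_cell (hT : Real' 8 ok8 (Fin 6) true R6) :
    ∃ R, Real' 8 ok8 (Fin 4) true R ∧
      (∀ r x, ok8 r → R r x → cd r (x 2) (x 3) ≤ 2 + (2 * r - 17) ∧
        cd r (x 2) (x 3) ≤ cd r (x 0) (x 1) + (r - 9) ∧ 2 ≤ cd r (x 0) (x 1) + (r - 9)) ∧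
      ∀ r v c, ok8 r → 2 ≤ v → v ≤ 2 + (2 * r - 17) →
        ∃ a, R r ![a, a - (v - (r - 9)), c + v, c] := by
  obtain ⟨T, t1, t2⟩ := hT
  obtain ⟨V, v1, v2⟩ := exists_V6
  obtain ⟨B, b1, hB⟩ := net2 (fun _ : Fin 2 => T) (fun _ : Unit => V) (fun _ => (t1 rfl).tag)
    (fun _ => V.tag_true) tI (by decide) (by decide) (by decide) (by decide +kernel) Eq
    (by decide +kernel) eI
    ![inr 0, inr 1, inr 2, inr 3, inl (inl (0, 2)), inl (inr ((), 0)), inl (inr ((), 1)),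
      inl (inr ((), 2)), inl (inr ((), 3)), inl (inr ((), 4)), inl (inr ((), 5))] (by decide)
    (by decide) (by decide)
  refine ⟨B.Rel, b1.inj.real _, fun r x hr h => ?_, fun r v c hr h1 h2 => ?_⟩
  · obtain ⟨w, w1, w2, w3⟩ := (hB r x).1 h
    obtain ⟨v, a, a0, a1, a2, a3, a4, a5⟩ := v1 r _ (w3 ())
    rw [← w1, ← w1, ← w1, ← w1]
    exact cell_nec hr.1 hr.2 ((t2 r hr _).1 (w2 0)) ((t2 r hr _).1 (w2 1)) (Cg.refl _ _) a a0 a1 a2
      a3 a4 a5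
  · have h9 := hr.2
    obtain ⟨σ, hσ⟩ : ∃ σ, σ = c + v + 2 - 2 * r := ⟨_, rfl⟩
    refine ⟨σ + 2, (hB r _).2 ⟨![σ + 2, σ + 2 - (v - (r - 9)), c + v, c, σ, σ + 6, σ + 4, c - 3,
      c - 2, c - 4, σ + 7], fun p => ?_, fun l => (t2 r hr _).2 ?_, fun _ => ?_⟩⟩
    · fin_cases p <;> rfl
    · fin_cases l
      · exact R6.intro ![2, 0, 4, 3, 1, 5] (by decide) (y0 := σ) (y1 := σ + 2) (y2 := σ + 4)
          (y3 := σ + 6) (y4 := c - 5) (y5 := c - 3) (Cg.refl _ _) (Cg.refl _ _)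
          (Cg.refl _ _) (Cg.refl _ _) (Cg.down (show σ + 2 - (v - (r - 9)) = _ by linarith))
          (Cg.refl _ _) (by linarith) (by linarith) (by linarith) (by linarith) (by linarith)
          (by linarith)
      · exact R6.intro ![5, 3, 1, 4, 2, 0] (by decide) (y0 := σ + 7) (y1 := c - 4) (y2 := c - 2)
          (y3 := c) (y4 := c + v) (y5 := σ + 2 * r) (Cg.refl _ _) (Cg.refl _ _) (Cg.refl _ _)
          (Cg.refl _ _) (Cg.refl _ _) ⟨-2, show σ = _ by push_cast; ring⟩ (by linarith)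
          (by linarith) (by linarith) (by linarith) (by linarith) (by linarith)
    · have a := far_sorted (r := r) ![σ + 4, σ + 5, σ + 6, σ + 7, c - 5, c - 4, c - 3, c - 2]
        (fun i => by fin_cases i <;> simp <;> linarith) (by simp; linarith)
        ![2, 0, 6, 7, 5, 3, 1, 4] (by decide)
      refine (v2 r _ (by linarith) a (show |c - 5 - (σ + 5)| ≤ 4 from
        abs_le.2 ⟨by linarith, by linarith⟩)).cg fun p => ?_
      fin_cases p <;> exact Cg.refl _ _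

end Pool.Agent.P.MP_3f5ded_co.UG.B8
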