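import Pool.Agent.P.MP_3f5ded_co.USDefs

set_option autoImplicit false

namespace Pool.Agent.P.MP_3f5ded_co.UG

open Sum

section Step

variable {k : ℕ} {r : ℝ} {T : ℤ → ℝ}

lemma usdes_per (hp : ∀ h, T (h + (2 * k + 1)) = T h + 2 * r) (n h : ℤ) :
    T (h + (2 * k + 1) * n) = T h + 2 * n * r := by
  induction n using Int.induction_on with
  | zero => simp
  | succ n ih =>
    rw [show h + (2 * (k : ℤ) + 1) * (n + 1) = h + (2 * k + 1) * n + (2 * k + 1) by ring, hp, ih]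
    push_cast
    ring
  | pred n ih =>
    have := hp (h + (2 * k + 1) * (-(n : ℤ) - 1))
    rw [show h + (2 * (k : ℤ) + 1) * (-(n : ℤ) - 1) + (2 * k + 1) = h + (2 * k + 1) * (-(n : ℤ))
      by ring, ih] at this
    push_cast at this ⊢
    linarith

lemma usdes_cg (hp : ∀ h, T (h + (2 * k + 1)) = T h + 2 * r) {a b : ℤ}
    (h : (2 * (k : ℤ) + 1) ∣ a - b) : Cg r (T a) (T b) := by
  obtain ⟨n, hn⟩ := h
  refine ⟨2 * n, ?_⟩
  rw [show a = b + (2 * k + 1) * n by linarith, usdes_per hp]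
  push_cast
  ring

lemma usdes_low (hs : ∀ h, T h + 1 ≤ T (h + 1)) (h : ℤ) {j : ℤ} (hj : 0 ≤ j) :
    T h + j ≤ T (h + j) := by
  obtain ⟨n, rfl⟩ := Int.eq_ofNat_of_zero_le hj
  induction n with
  | zero => simp
  | succ n ih =>
    have a1 := ih (Int.natCast_nonneg n)
    have a2 := hs (h + n)
    push_cast at a1 ⊢
    rw [← add_assoc h]
    linarith

lemma usdes_up (hp : ∀ h, T (h + (2 * k + 1)) = T h + 2 * r) (hs : ∀ h, T h + 1 ≤ T (h + 1))
    (h : ℤ) {j : ℤ} (hj : j ≤ 2 * k + 1) : T (h + j) ≤ T h + j + (2 * r - (2 * k + 1)) := by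
  have a1 := usdes_low hs (h + j) (sub_nonneg.2 hj)
  rw [show h + j + (2 * (k : ℤ) + 1 - j) = h + (2 * k + 1) by ring, hp] at a1
  push_cast at a1
  linarith

lemma usdes_far (hp : ∀ h, T (h + (2 * k + 1)) = T h + 2 * r) (hs : ∀ h, T h + 1 ≤ T (h + 1))
    (hr : r < k + 1) {a b : ℤ} (h : Ap k a b) : Far r (T a) (T b) := by
  obtain ⟨h0, h1, h2⟩ := h
  have hP : (0 : ℤ) < 2 * k + 1 := by positivity
  have a1 := Int.emod_nonneg (a - b) hP.ne'
  have a2 := Int.emod_lt_of_pos (a - b) hP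
  have a3 : (2 * (k : ℤ) + 1) ∣ a - b - (a - b) % (2 * k + 1) := Int.dvd_self_sub_emod
  generalize (a - b) % (2 * k + 1) = j at a1 a2 a3
  have n0 : j ≠ 0 := fun e => h0 (by simpa [e] using a3)
  have n1 : j ≠ k := fun e => h1 (by simpa [e] using a3)
  have n2 : j ≠ k + 1 := fun e => h2 (by rw [sub_sub, ← e]; exact a3)
  have c1 : Cg r (T (b + j)) (T a) := (usdes_cg hp (by rw [← sub_sub]; exact a3)).symm
  have l1 := usdes_low hs b a1
  have l2 := usdes_up hp hs b a2.le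
  rcases lt_or_ge j k with h3 | h3
  · have b1 : (1 : ℝ) ≤ j := by exact_mod_cast (by omega : 1 ≤ j)
    have b2 : (j : ℝ) + 1 ≤ k := by exact_mod_cast (by omega : j + 1 ≤ k)
    exact ((Far.of_bounds (x := T b) (y := T (b + j)) (by linarith) (by linarith)).congr
      (Cg.refl _ _) c1).symm
  · have b1 : (k : ℝ) + 2 ≤ j := by exact_mod_cast (by omega : (k : ℤ) + 2 ≤ j)
    have b2 : (j : ℝ) ≤ 2 * k := by exact_mod_cast (by omega : j ≤ 2 * (k : ℤ))
    exact ((Far.of_bounds (x := T b) (y := T (b + j) - r) (by linarith) (by linarith)).congr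
      (Cg.refl _ _) ((Cg.down rfl).trans c1)).symm

lemma usdes_cap (hp : ∀ h, T (h + (2 * k + 1)) = T h + 2 * r) (hs : ∀ h, T h + 1 ≤ T (h + 1))
    (hr : r < k + 1) {a b : ℤ}
    (h : (2 * (k : ℤ) + 1) ∣ a - b - k ∨ (2 * (k : ℤ) + 1) ∣ a - b - k - 1) :
    0 < r ∧ cd r (T a) (T b) ≤ r - k := by
  have hk : (0 : ℝ) ≤ k := Nat.cast_nonneg k
  have l0 := usdes_up hp hs b (j := 0) (by positivity)
  rw [add_zero] at l0
  push_cast at l0
  have h0 : 0 < r := by linarith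
  refine ⟨h0, ?_⟩
  rw [cd_symm h0]
  have key : ∀ j : ℤ, (k : ℤ) ≤ j → j ≤ k + 1 → (2 * (k : ℤ) + 1) ∣ a - (b + j) →
      cd r (T b) (T a) ≤ r - k := by
    intro j j1 j2 hd
    have l1 := usdes_low hs b (j := j) (by omega)
    have l2 := usdes_up hp hs b (j := j) (by omega)
    have b1 : (k : ℝ) ≤ j := by exact_mod_cast j1
    have b2 : (j : ℝ) ≤ k + 1 := by exact_mod_cast j2
    refine (cd_le_of (u := T (b + j) - r - T b) h0
      ((usdes_cg hp hd).trans (Cg.up (by ring)))).trans (abs_le.2 ⟨by linarith, by linarith⟩)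
  rcases h with h | h
  · exact key k le_rfl (by omega) (by rw [← sub_sub]; exact h)
  · exact key (k + 1) (by omega) le_rfl (by rw [← add_assoc, ← sub_sub, ← sub_sub]; exact h)

end Step

section Main

variable {Q Pt : Type} {k : ℕ} {μ : Fin 3 → ℕ} {sr : Q → Fin 3} {ow : Pt → Fin 3}
  {lv : Fin 3 → Pt} {pa : Pt → Pt} {H : Q → Q ⊕ Fin 3 → ℤ} {W : Fin 3 → ℤ} {L : Pt → ℤ}
  {r : ℝ} {x : Fin 3 → ℝ}

lemma usdes_core (hD : Des k μ sr ow lv pa H W L) (hi : Function.Injective lv) (hr : r < k + 1)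
    {T : ℤ → ℝ} (hp : ∀ h, T (h + (2 * k + 1)) = T h + 2 * r) (hs : ∀ h, T h + 1 ≤ T (h + 1))
    (hx : ∀ i, Cg r (T (L (lv i))) (x i)) : Full k sr ow lv pa r x := by
  classical
  obtain ⟨π, h1, h2⟩ : ∃ π : Pt → ℝ, (∀ p, Cg r (T (L p)) (π p)) ∧ ∀ i, π (lv i) = x i := by
    refine ⟨Function.extend lv x fun p => T (L p), fun p => ?_, fun i => hi.extend_apply _ _ i⟩
    by_cases h : ∃ i, lv i = p
    · obtain ⟨i, rfl⟩ := h
      rw [hi.extend_apply]
      exact hx i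
    · rw [Function.extend_apply' _ _ _ h]
      exact Cg.refl _ _
  have f : ∀ {a b : ℤ}, Ap k a b → Far r (T a) (T b) := fun h => usdes_far hp hs hr h
  refine ⟨fun q e => T (H q e), fun j => T (W j), π,
    ⟨fun q y h => usdes_cg hp (hD.sym q y h), fun q e e' a b c => f (hD.far q e e' a b c),
      fun i q y a b c => f (hD.zqq i q y a b c), fun i q j a b => f (hD.zqw i q j a b),
      fun i j a => f (hD.zww i j a)⟩,
    ⟨fun p q a => (f (hD.pq p q a)).congr (h1 p) (Cg.refl _ _),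
      fun p j a => (f (hD.pw p j a)).congr (h1 p) (Cg.refl _ _),
      fun p p' a b => (f (hD.pp p p' a b)).congr (h1 p) (h1 p')⟩, fun p a => ?_, h2⟩
  obtain ⟨h0, h3⟩ := usdes_cap hp hs hr (hD.cap p a)
  rwa [cd_congr h0 (h1 p) (h1 (pa p))] at h3

lemma usdes_one (hD : Des k μ sr ow lv pa H W L) (hi : Function.Injective lv)
    (hμ : μ 0 + μ 1 + μ 2 + 1 = k) (hr : r < k + 1)
    (h : TL0 k r (μ 0) (μ 1) (μ 2) (x 0) (x 1) (x 2)) : Full k sr ow lv pa r x := by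
  obtain ⟨q', z', hq, hz, g2, g0, g1⟩ := h
  have hμ' : (μ 0 : ℝ) + μ 1 + μ 2 + 1 = k := by exact_mod_cast hμ
  have hP : (0 : ℤ) < 2 * k + 1 := by positivity
  obtain ⟨o, o0, o1, o2, om, ob⟩ : ∃ o : ℤ → ℝ, o 0 = 0 ∧
      o (μ 0 + μ 2 + 1) = z' - x 0 - (μ 0 + μ 2 + 1) ∧
      o (μ 2 + k + 1) = q' + r - x 0 - (μ 2 + k + 1) ∧ (∀ u, o u ≤ o (u + 1)) ∧
      ∀ u, o u ≤ 2 * r - (2 * k + 1) := by
    refine ⟨fun u => if u < μ 0 + μ 2 + 1 then 0 else if u < μ 2 + k + 1 then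
      z' - x 0 - (μ 0 + μ 2 + 1) else q' + r - x 0 - (μ 2 + k + 1), ?_, ?_, ?_, fun u => ?_,
      fun u => ?_⟩
    · exact if_pos (by omega)
    · simp only []
      rw [if_neg (by omega), if_pos (by omega)]
    · simp only []
      rw [if_neg (by omega), if_neg (by omega)]
    · simp only []
      split_ifs <;> first | omega | linarith
    · simp only []
      split_ifs <;> linarith
  have ev : ∀ n u : ℤ, 0 ≤ u → u < 2 * k + 1 →
      (u + (2 * (k : ℤ) + 1) * n) % (2 * k + 1) = u ∧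
        (u + (2 * (k : ℤ) + 1) * n) / (2 * k + 1) = n := fun n u a b =>
    ⟨by rw [Int.add_mul_emod_self_left, Int.emod_eq_of_lt a b],
      by rw [Int.add_mul_ediv_left _ _ hP.ne', Int.ediv_eq_zero_of_lt a b, zero_add]⟩
  obtain ⟨T, hT⟩ : ∃ T : ℤ → ℝ, ∀ n u : ℤ, 0 ≤ u → u < 2 * k + 1 →
      T (L (lv 0) + (u + (2 * (k : ℤ) + 1) * n)) = x 0 + u + o u + 2 * n * r := by
    refine ⟨fun h => x 0 + ((h - L (lv 0)) % (2 * k + 1) : ℤ) + o ((h - L (lv 0)) % (2 * k + 1)) +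
      2 * ((h - L (lv 0)) / (2 * k + 1) : ℤ) * r, fun n u a b => ?_⟩
    simp only [add_sub_cancel_left, (ev n u a b).1, (ev n u a b).2]
  have dec : ∀ h : ℤ, ∃ n u : ℤ, 0 ≤ u ∧ u < 2 * k + 1 ∧
      h = L (lv 0) + (u + (2 * (k : ℤ) + 1) * n) := fun h =>
    ⟨(h - L (lv 0)) / (2 * k + 1), (h - L (lv 0)) % (2 * k + 1), Int.emod_nonneg _ hP.ne',
      Int.emod_lt_of_pos _ hP, by rw [Int.emod_add_mul_ediv]; ring⟩
  have hp : ∀ h, T (h + (2 * k + 1)) = T h + 2 * r := by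
    intro h
    obtain ⟨n, u, a, b, rfl⟩ := dec h
    rw [show L (lv 0) + (u + (2 * (k : ℤ) + 1) * n) + (2 * k + 1) =
      L (lv 0) + (u + (2 * (k : ℤ) + 1) * (n + 1)) by ring, hT _ _ a b, hT _ _ a b]
    push_cast
    ring
  refine usdes_core hD hi hr hp (fun h => ?_) fun i => ?_
  · obtain ⟨n, u, a, b, rfl⟩ := dec h
    rw [hT _ _ a b]
    rcases lt_or_ge (u + 1) (2 * k + 1) with c | c
    · rw [show L (lv 0) + (u + (2 * (k : ℤ) + 1) * n) + 1 =
        L (lv 0) + (u + 1 + (2 * (k : ℤ) + 1) * n) by ring, hT _ _ (by omega) c]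
      push_cast
      linarith [om u]
    · have e : u = 2 * k := by omega
      rw [show L (lv 0) + (u + (2 * (k : ℤ) + 1) * n) + 1 =
        L (lv 0) + (0 + (2 * (k : ℤ) + 1) * (n + 1)) by rw [e]; ring, hT _ _ le_rfl hP, o0]
      have e' : (u : ℝ) = 2 * k := by exact_mod_cast e
      push_cast
      linarith [ob u]
  · have t0 := hT 0 0 le_rfl hP
    have t1 := hT 0 (μ 2 + k + 1) (by omega) (by omega)
    have t2 := hT 0 (μ 0 + μ 2 + 1) (by omega) (by omega)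
    rw [o0] at t0
    rw [o1] at t2
    rw [o2] at t1
    rw [mul_zero, add_zero] at t0 t1 t2
    push_cast at t0 t1 t2
    have s1 := hD.s1
    have s2 := hD.s2
    match i with
    | 0 => exact Cg.of_eq (by simpa using t0)
    | 1 =>
      refine (usdes_cg hp (b := L (lv 0) + (μ 2 + k + 1)) ?_).trans
        ((Cg.up (by rw [t1]; ring)).trans hq.symm)
      rwa [show L (lv 1) - (L (lv 0) + (μ 2 + k + 1)) = L (lv 1) - L (lv 0) - μ 2 - k - 1 by ring]
    | 2 =>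
      refine (usdes_cg hp (b := L (lv 0) + (μ 0 + μ 2 + 1)) ?_).trans
        ((Cg.of_eq (by rw [t2]; ring)).trans hz.symm)
      rw [show L (lv 2) - (L (lv 0) + (μ 0 + μ 2 + 1)) = (L (lv 2) - L (lv 1) - μ 0 - k - 1) +
        (L (lv 1) - L (lv 0) - μ 2 - k - 1) + (2 * k + 1) by ring]
      exact (s2.add s1).add dvd_rfl

lemma usdes_neg (h0 : 0 < r) (h : Full k sr ow lv pa r fun i => -x i) :
    Full k sr ow lv pa r x := by
  obtain ⟨C, w, π, h1, h2, h3, h4⟩ := h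
  refine ⟨fun q e => -C q e, fun i => -w i, fun p => -π p, h1.neg,
    ⟨fun p q a => (h2.pq p q a).neg, fun p j a => (h2.pw p j a).neg,
      fun p p' a b => (h2.pp p p' a b).neg⟩, fun p a => ?_, fun i => by simp [h4 i]⟩
  obtain ⟨u, hu, e⟩ := cd_lift r (π p) (π (pa p))
  refine (cd_le_of (u := -u) h0 (hu.neg.trans (Cg.of_eq (by ring)))).trans ?_
  rw [abs_neg, e]
  exact h3 p a

end Main

/-- A design gives colourings for all port colours allowed by the port relation. -/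
theorem Des.full {Q Pt : Type} {k : ℕ} {μ : Fin 3 → ℕ} {sr : Q → Fin 3} {ow : Pt → Fin 3}
    {lv : Fin 3 → Pt} {pa : Pt → Pt} {H : Q → Q ⊕ Fin 3 → ℤ} {W : Fin 3 → ℤ} {L : Pt → ℤ}
    (hD : Des k μ sr ow lv pa H W L) (hi : Function.Injective lv)
    (hμ : μ 0 + μ 1 + μ 2 + 1 = k) {r : ℝ} (hr : r < k + 1) {x : Fin 3 → ℝ} (h : TL k μ r x) :
    Full k sr ow lv pa r x := by
  rcases h with h | ⟨q', z', hq, hz, g2, g0, g1⟩
  · exact usdes_one hD hi hμ hr h
  · have hμ' : (μ 0 : ℝ) + μ 1 + μ 2 + 1 = k := by exact_mod_cast hμ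
    have hk : (0 : ℝ) ≤ k := Nat.cast_nonneg k
    exact usdes_neg (by linarith) (usdes_one hD hi hμ hr ⟨-z' + r, -q' + r,
      hz.neg.trans (Cg.down (by ring)), hq.neg.trans (Cg.down (by ring)), by linarith,
      by linarith, by linarith⟩)

end Pool.Agent.P.MP_3f5ded_co.UG
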