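import Pool.Agent.P.MP_3f5ded_co.ULGlue

set_option autoImplicit false

namespace Pool.Agent.P.MP_3f5ded_co.UG

open Sum

open Classical in
/-- The wires after the slots in the range of `en` are reconnected to new ends. -/
noncomputable def uenT {D Y P : Type} (τ : D ⊕ P → D ⊕ P) (en : Y → D) :
    (D ⊕ Y) ⊕ P → (D ⊕ Y) ⊕ P
  | inr p => Sum.map inl id (τ (inr p))
  | inl (inr y) => inl (inl (en y))
  | inl (inl d) => if h : ∃ y, en y = d then inl (inr h.choose) else Sum.map inl id (τ (inl d))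

lemma uenT_en {D Y P : Type} (τ : D ⊕ P → D ⊕ P) {en : Y → D} (hi : Function.Injective en)
    (y : Y) : uenT τ en (inl (inl (en y))) = inl (inr y) := by
  have h : ∃ y', en y' = en y := ⟨y, rfl⟩
  rw [uenT, dif_pos h, hi h.choose_spec]

lemma uenT_not {D Y P : Type} (τ : D ⊕ P → D ⊕ P) {en : Y → D} {d : D} (h : ¬∃ y, en y = d) :
    uenT τ en (inl (inl d)) = Sum.map inl id (τ (inl d)) := by
  rw [uenT, dif_neg h]

/-- Vertices joined by edges and by poles with two ports. -/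
theorem net_links {k : ℕ} {V S P : Type} [Fintype V] [Fintype S] (hS : Fintype.card S = k)
    (τ : (V × S) ⊕ P → (V × S) ⊕ P) (hinv : ∀ e, τ (τ e) = e)
    (h0 : ∀ p, ∃ d, τ (inr p) = inl d) (dir lo : V × S → Prop)
    (B : V × S → Pole k (Fin 2)) (hB : ∀ d, (B d).Inj)
    (h1 : ∀ d e, τ (inl d) = inl e → dir d → d.1 ≠ e.1 ∧ dir e)
    (h2 : ∀ d e, τ (inl d) = inl e → (lo d ↔ ¬ lo e))
    (h3 : ∀ d e d' e', τ (inl d) = inl e → τ (inl d') = inl e' → dir d → dir d' → d.1 = d'.1 →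
      e.1 = e'.1 → d = d')
    (E0 : P → P → Prop)
    (h4 : ∀ p q d e, τ (inr p) = inl d → τ (inr q) = inl e → d.1 = e.1 → E0 p q) :
    ∃ A : Pole k P, A.Tag E0 ∧ ∀ r x, A.Rel r x ↔ ∃ c : V × S → ℝ,
      (∀ p d, τ (inr p) = inl d → Cg r (c d) (x p)) ∧
      (∀ d e, τ (inl d) = inl e → dir d → Cg r (c d) (c e)) ∧
      (∀ d e, τ (inl d) = inl e → ¬ dir d → lo d → (B d).Rel r ![c d, c e]) ∧
      ∀ v s s', s ≠ s' → Far r (c (v, s)) (c (v, s')) := by
  classical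
  have hs : ∀ a b, τ a = b → τ b = a := fun a b h => by rw [← h, hinv]
  let L := {d : V × S // (∃ e, τ (inl d) = inl e) ∧ ¬ dir d ∧ lo d}
  obtain ⟨en, e0, e1⟩ : ∃ en : L × Fin 2 → V × S, (∀ l, en (l, 0) = l.1) ∧
      ∀ l, τ (inl l.1) = inl (en (l, 1)) :=
    ⟨fun y => ![y.1.1, y.1.2.1.choose] y.2, fun _ => rfl, fun l => l.2.1.choose_spec⟩
  have hi : Function.Injective en := by
    have k01 : ∀ l l' : L, en (l, 0) ≠ en (l', 1) := fun l l' h =>
      (h2 _ _ (e1 l')).1 l'.2.2.2 (by rw [← h, e0]; exact l.2.2.2)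
    have hc : ∀ i : Fin 2, i = 0 ∨ i = 1 := by decide
    rintro ⟨l, i⟩ ⟨l', i'⟩ h
    rcases hc i with rfl | rfl <;> rcases hc i' with rfl | rfl
    · rw [e0, e0] at h
      rw [Subtype.ext h]
    · exact absurd h (k01 _ _)
    · exact absurd h.symm (k01 _ _)
    · have := hs _ _ (e1 l)
      rw [h, hs _ _ (e1 l')] at this
      rw [Subtype.ext (inl_injective this)]
  have hr : ∀ d, (∃ y, en y = d) ↔ (∃ e, τ (inl d) = inl e) ∧ ¬ dir d := by
    intro d
    constructor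
    · have hc : ∀ i : Fin 2, i = 0 ∨ i = 1 := by decide
      rintro ⟨⟨l, i⟩, rfl⟩
      rcases hc i with rfl | rfl
      · rw [e0]
        exact ⟨l.2.1, l.2.2.1⟩
      · exact ⟨⟨_, hs _ _ (e1 l)⟩, fun h => l.2.2.1 (h1 _ _ (hs _ _ (e1 l)) h).2⟩
    · rintro ⟨⟨e, he⟩, hd⟩
      by_cases hl : lo d
      · exact ⟨(⟨d, ⟨e, he⟩, hd, hl⟩, 0), e0 _⟩
      · have he' := hs _ _ he
        refine ⟨(⟨e, ⟨d, he'⟩, fun h => hd (h1 _ _ he' h).2, (h2 _ _ he').2 hl⟩, 1), ?_⟩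
        exact inl_injective ((e1 _).symm.trans he')
  have tp : ∀ p d, τ (inr p) = inl d → uenT τ en (inr p) = inl (inl d) := fun p d h => by
    rw [uenT, h]; rfl
  have tq : ∀ p d, τ (inl d) = inr p → uenT τ en (inl (inl d)) = inr p := fun p d h => by
    rw [uenT_not τ (fun g => by obtain ⟨e, he⟩ := ((hr d).1 g).1; rw [h] at he; cases he), h]; rfl
  have td : ∀ d e, τ (inl d) = inl e → dir d → uenT τ en (inl (inl d)) = inl (inl e) :=
    fun d e h g => by rw [uenT_not τ (fun g' => ((hr d).1 g').2 g), h]; rfl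
  have cs : ∀ d, (∃ y, en y = d) ∨ (∃ p, τ (inl d) = inr p) ∨ ∃ e, τ (inl d) = inl e ∧ dir d := by
    intro d
    rcases h : τ (inl d) with e | p
    · by_cases g : dir d
      · exact Or.inr (Or.inr ⟨e, rfl, g⟩)
      · exact Or.inl ((hr d).2 ⟨⟨e, h⟩, g⟩)
    · exact Or.inr (Or.inl ⟨p, rfl⟩)
  have hT : ∀ x y, uenT τ en (inl x) = inl y →
      (∃ d e, x = inl d ∧ y = inl e ∧ τ (inl d) = inl e ∧ dir d) ∨
        (∃ z, x = inl (en z) ∧ y = inr z) ∨ ∃ z, x = inr z ∧ y = inl (en z) := by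
    rintro (d | z) y h
    · rcases cs d with ⟨z, rfl⟩ | ⟨p, g⟩ | ⟨e, g, g'⟩
      · rw [uenT_en τ hi] at h
        exact Or.inr (Or.inl ⟨z, rfl, (inl_injective h).symm⟩)
      · rw [tq p d g] at h
        cases h
      · rw [td d e g g'] at h
        exact Or.inl ⟨d, e, rfl, (inl_injective h).symm, g, g'⟩
    · exact Or.inr (Or.inr ⟨z, rfl, (inl_injective h).symm⟩)
  obtain ⟨W, hW⟩ := exists_vertex (k := k) S hS
  obtain ⟨A, t, hA⟩ := glue2 (fun _ : V => W) (fun l : L => B l.1) (fun _ => W.tag_true)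
    (fun l => (hB l.1).tag) (uenT τ en)
    (by
      rintro ((d | z) | p)
      · rcases cs d with ⟨z, rfl⟩ | ⟨p, g⟩ | ⟨e, g, g'⟩
        · rw [uenT_en τ hi]; rfl
        · rw [tq p d g, tp p d (hs _ _ g)]
        · rw [td d e g g', td e d (hs _ _ g) (h1 d e g g').2]
      · exact uenT_en τ hi z
      · obtain ⟨d, g⟩ := h0 p
        rw [tp p d g, tq p d (hs _ _ g)])
    (fun p => (h0 p).elim fun d g => ⟨_, tp p d g⟩)
    (by
      intro x y h
      rcases hT x y h with ⟨d, e, rfl, rfl, g, g'⟩ | ⟨z, rfl, rfl⟩ | ⟨z, rfl, rfl⟩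
      · exact fun f => (h1 d e g g').1 (inl_injective f)
      · exact inl_ne_inr
      · exact inr_ne_inl)
    (by
      intro x y x' y' h h' s s'
      rcases hT x y h with ⟨d, e, rfl, rfl, g, g'⟩ | ⟨z, rfl, rfl⟩ | ⟨z, rfl, rfl⟩ <;>
        rcases hT x' y' h' with ⟨d', e', rfl, rfl, f, f'⟩ | ⟨z', rfl, rfl⟩ | ⟨z', rfl, rfl⟩
      · rw [h3 d e d' e' g f g' f' s.1 s'.1]
      · exact s'.elim
      · exact s.elim
      · exact s'.elim
      · rw [Prod.ext s'.1 s'.2]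
      · exact s.elim
      · exact s.elim
      · exact s.elim
      · rw [Prod.ext s.1 s.2])
    E0
    (by
      intro p q x y h h' s
      obtain ⟨d, g⟩ := h0 p
      obtain ⟨e, g'⟩ := h0 q
      rw [tp p d g] at h
      rw [tp q e g'] at h'
      cases h
      cases h'
      exact h4 p q d e g g' s.1)
  refine ⟨A, t, fun r x => (hA r x).trans ⟨?_, ?_⟩⟩
  · rintro ⟨c, c1, c2, c3, c4⟩
    refine ⟨fun d => c (inl (inl d)), fun p d g => ?_, fun d e g g' => ?_, fun d e g g' g'' => ?_,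
      fun v => (hW r _).1 (c3 v)⟩
    · have := c2 (inr p)
      rw [tp p d g, c1] at this
      exact this.symm
    · have := c2 (inl (inl d))
      rwa [td d e g g'] at this
    · refine (c4 ⟨d, ⟨e, g⟩, g', g''⟩).cg (Fin.forall_fin_two.2 ⟨?_, ?_⟩)
      · have := c2 (inl (inr (⟨d, ⟨e, g⟩, g', g''⟩, 0)))
        rwa [uenT, e0] at this
      · have := c2 (inl (inr (⟨d, ⟨e, g⟩, g', g''⟩, 1)))
        rwa [uenT, inl_injective ((e1 ⟨d, ⟨e, g⟩, g', g''⟩).symm.trans g)] at this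
  · rintro ⟨c, c1, c2, c3, c4⟩
    refine ⟨Sum.elim (Sum.elim c fun z => c (en z)) x, fun _ => rfl, ?_,
      fun v => (hW r _).2 (c4 v), fun l => ?_⟩
    · rintro ((d | z) | p)
      · rcases cs d with ⟨z, rfl⟩ | ⟨p, g⟩ | ⟨e, g, g'⟩
        · rw [uenT_en τ hi]
          exact Cg.refl _ _
        · rw [tq p d g]
          exact c1 p d (hs _ _ g)
        · rw [td d e g g']
          exact c2 d e g g'
      · exact Cg.refl _ _
      · obtain ⟨d, g⟩ := h0 p
        rw [tp p d g]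
        exact (c1 p d g).symm
    · refine (c3 l.1 _ (e1 l) l.2.2.1 l.2.2.2).cg (Fin.forall_fin_two.2 ⟨?_, Cg.refl _ _⟩)
      exact Cg.of_eq (congrArg c (e0 l).symm)

end Pool.Agent.P.MP_3f5ded_co.UG
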