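import Pool.Agent.P.MP_3f5ded_co.UGCoh

set_option autoImplicit false

namespace Pool.Agent.P.MP_3f5ded_co.UG

open Finset
open scoped Classical

section Defs
variable {W : Type} (k : ℕ) (κ : W → W → ℤ)

/-- Four distinct vertices. -/
def D4 (u v w z : W) : Prop := u ≠ v ∧ v ≠ w ∧ w ≠ u ∧ z ≠ u ∧ z ≠ v ∧ z ≠ w

/-- Indicator of `On`. -/
noncomputable def onI (x a b y : W) : ℤ := if On k κ x a b y then 1 else 0

/-- How often the walk around `u v w` meets `z`. -/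
noncomputable def met (u v w z : W) : ℤ := onI k κ v u w z + onI k κ w v u z + onI k κ u w v z

/-- Excess of meetings of `z` on a short triangle. -/
noncomputable def gq (u v w z : W) : ℤ :=
  if D4 u v w z ∧ mu k κ u v w = 1 then met k κ u v w z - 1 else 0

/-- The same, shared between the short triangles on the edge `uv`. -/
noncomputable def hq (u v w z : W) : ℤ :=
  if D4 u v w z ∧ mu k κ u v w = 1 ∧ mu k κ u v z = 1 then
    (if mu k κ v w z = 0 then 2 else 1) * (met k κ u v w z - 1) else 0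

end Defs

lemma sum4_rot {W : Type} (Q : Finset W) (f : W → W → W → W → ℤ) :
    ∑ u ∈ Q, ∑ v ∈ Q, ∑ w ∈ Q, ∑ z ∈ Q, f v w u z =
      ∑ u ∈ Q, ∑ v ∈ Q, ∑ w ∈ Q, ∑ z ∈ Q, f u v w z := by
  rw [sum_comm]
  exact sum_congr rfl fun v _ => sum_comm

lemma sum4_swap {W : Type} (Q : Finset W) (f : W → W → W → W → ℤ) :
    ∑ u ∈ Q, ∑ v ∈ Q, ∑ w ∈ Q, ∑ z ∈ Q, f u v z w =
      ∑ u ∈ Q, ∑ v ∈ Q, ∑ w ∈ Q, ∑ z ∈ Q, f u v w z :=
  sum_congr rfl fun _ _ => sum_congr rfl fun _ _ => sum_comm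

lemma sum4_add {W : Type} (Q : Finset W) (f g : W → W → W → W → ℤ) :
    ∑ u ∈ Q, ∑ v ∈ Q, ∑ w ∈ Q, ∑ z ∈ Q, (f u v w z + g u v w z) =
      ∑ u ∈ Q, ∑ v ∈ Q, ∑ w ∈ Q, ∑ z ∈ Q, f u v w z +
        ∑ u ∈ Q, ∑ v ∈ Q, ∑ w ∈ Q, ∑ z ∈ Q, g u v w z := by
  simp only [sum_add_distrib]

lemma sum3_zero {W : Type} {Q : Finset W} {f : W → W → W → ℤ}
    (h0 : ∀ u ∈ Q, ∀ v ∈ Q, ∀ w ∈ Q, 0 ≤ f u v w)
    (h : ∑ u ∈ Q, ∑ v ∈ Q, ∑ w ∈ Q, f u v w ≤ 0) {u v w : W} (hu : u ∈ Q) (hv : v ∈ Q)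
    (hw : w ∈ Q) : f u v w = 0 := by
  have n2 : ∀ u ∈ Q, ∀ v ∈ Q, 0 ≤ ∑ w ∈ Q, f u v w :=
    fun u hu v hv => sum_nonneg fun w hw => h0 u hu v hv w hw
  have n1 : ∀ u ∈ Q, 0 ≤ ∑ v ∈ Q, ∑ w ∈ Q, f u v w :=
    fun u hu => sum_nonneg fun v hv => n2 u hu v hv
  have a1 := single_le_sum n1 hu
  have a2 := single_le_sum (n2 u hu) hv
  have a3 := single_le_sum (h0 u hu v hv) hw
  have := h0 u hu v hv w hw
  omega

namespace Clq
variable {W : Type} {k : ℕ} {r : ℝ} {Q : Finset W} {F : W → ℤ → ℝ} {κ : W → W → ℤ}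
  {u v w z x a b y : W}

lemma split (h : Clq k r Q F κ) (hk : 5 ≤ k) (hr : r < k + 1) (hu : u ∈ Q) (hv : v ∈ Q)
    (hw : w ∈ Q) (hz : z ∈ Q) :
    gq k κ u v w z + gq k κ u v w z = hq k κ u v w z + (hq k κ v w u z + hq k κ w u v z) := by
  by_cases d : D4 u v w z
  · obtain ⟨uv, vw, wu, zu, zv, zw⟩ := id d
    have d1 : D4 v w u z := ⟨vw, wu, uv, zv, zw, zu⟩
    have d2 : D4 w u v z := ⟨wu, uv, vw, zw, zu, zv⟩
    have c := h.cocycle hk hr hu hv hw hz uv vw wu zu zv zw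
    have m1 : met k κ v w u z = met k κ u v w z := by unfold met; ring
    have m2 : met k κ w u v z = met k κ u v w z := by unfold met; ring
    have r1 : mu k κ v w u = mu k κ u v w := mu_rot
    have r2 : mu k κ w u v = mu k κ u v w := mu_rot.symm
    have c1 := mu_cases (k := k) (κ := κ) (u := u) (v := v) (w := z)
    have c2 := mu_cases (k := k) (κ := κ) (u := v) (v := w) (w := z)
    have c3 := mu_cases (k := k) (κ := κ) (u := w) (v := u) (w := z)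
    unfold gq hq
    rw [m1, m2, r1, r2]
    simp only [d, d1, d2, true_and]
    split_ifs <;> omega
  · have d1 : ¬D4 v w u z := fun ⟨a, b, c, e, f, g⟩ => d ⟨c, a, b, g, e, f⟩
    have d2 : ¬D4 w u v z := fun ⟨a, b, c, e, f, g⟩ => d ⟨b, c, a, f, g, e⟩
    simp [gq, hq, d, d1, d2]

lemma onI_pair (h : Clq k r Q F κ) (hx : x ∈ Q) (ha : a ∈ Q) (hb : b ∈ Q) (hy : y ∈ Q)
    (ax : a ≠ x) (bx : b ≠ x) (yx : y ≠ x) (yb : y ≠ b) :
    onI k κ x a b y + onI k κ x a y b = 1 := by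
  have := h.st_add hx ha hb hy ax bx yx yb
  unfold onI
  unfold On at this ⊢
  split_ifs <;> omega

lemma onI_pair' (h : Clq k r Q F κ) (hx : x ∈ Q) (ha : a ∈ Q) (hb : b ∈ Q) (hy : y ∈ Q)
    (ax : a ≠ x) (bx : b ≠ x) (yx : y ≠ x) (ab : a ≠ b) (yb : y ≠ b) (ya : y ≠ a) :
    onI k κ x a b y + onI k κ x y b a = 1 := by
  have h1 := h.st_add hx ha hb hy ax bx yx yb
  have h2 := h.st_add hx hy hb ha yx bx ax ab
  have h3 := h.st_rev hx ha hy ax yx ya.symm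
  have h4 := h.st_pos hx ha hy ax yx ya.symm
  have h5 := h.st_pos hx hy ha yx ax ya
  unfold onI
  unfold On at h1 h2 ⊢
  split_ifs <;> omega

/-- Two short triangles on one edge meet the fourth vertices at least twice. -/
lemma pair (h : Clq k r Q F κ) (hu : u ∈ Q) (hv : v ∈ Q) (hw : w ∈ Q) (hz : z ∈ Q) :
    0 ≤ hq k κ u v w z + hq k κ u v z w ∧
      (D4 u v w z → Short k κ u v w → Short k κ u v z → On k κ w v u z →
        0 < hq k κ u v w z + hq k κ u v z w) := by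
  by_cases d : D4 u v w z
  · obtain ⟨uv, vw, wu, zu, zv, zw⟩ := id d
    have d1 : D4 u v z w := ⟨uv, zv.symm, zu, wu, vw.symm, zw.symm⟩
    have e1 := h.onI_pair hv hu hw hz uv vw.symm zv zw
    have e2 := h.onI_pair' hu hw hv hz wu uv.symm zu vw.symm zv zw
    have e3 := h.mu_rev hv hw hz vw zw.symm zv
    have e4 : 0 ≤ onI k κ w v u z := by unfold onI; split_ifs <;> omega
    have e5 : 0 ≤ onI k κ z v u w := by unfold onI; split_ifs <;> omega
    refine ⟨?_, fun _ s1 s2 o => ?_⟩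
    · unfold hq met
      simp only [d, d1, true_and]
      split_ifs <;> omega
    · have e6 : onI k κ w v u z = 1 := by unfold onI; rw [if_pos o]
      rw [short_iff] at s1 s2
      unfold hq met
      simp only [d, d1, s1, s2, true_and, if_true]
      split_ifs <;> omega
  · have d1 : ¬D4 u v z w := fun ⟨a, b, c, e, f, g⟩ => d ⟨a, f.symm, e, c, b.symm, g.symm⟩
    exact ⟨by simp [hq, d, d1], fun d' => absurd d' d⟩

/-- Clique edges on an arc: at most the inner indices, and all of them in case of equality. -/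
lemma arc_count (h : Clq k r Q F κ) (hx : x ∈ Q) (ha : a ∈ Q) (hb : b ∈ Q) (ax : a ≠ x)
    (bx : b ≠ x) (ab : a ≠ b) {D : Finset W} (hD : ∀ y ∈ D, y ∈ Q ∧ y ≠ x ∧ y ≠ a) :
    ∑ y ∈ D, onI k κ x a b y ≤ st k κ x a b - 1 ∧
      (∑ y ∈ D, onI k κ x a b y = st k κ x a b - 1 →
        ∀ j, 0 < j → j < st k κ x a b → ∃ y ∈ Q, y ≠ x ∧ st k κ x a y = j) := by
  have p := h.st_pos hx ha hb ax bx ab
  have e : ∑ y ∈ D, onI k κ x a b y = ((D.filter fun y => On k κ x a b y).card : ℤ) := by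
    unfold onI
    rw [sum_boole]
  set S := D.filter fun y => On k κ x a b y with hS
  have inj : Set.InjOn (fun y => st k κ x a y) S := fun y hy y' hy' e => by
    have q := hD y (mem_filter.mp hy).1
    have q' := hD y' (mem_filter.mp hy').1
    exact h.st_inj hx q.1 q'.1 q.2.1 q'.2.1 e
  have sb : S.image (fun y => st k κ x a y) ⊆ Ioo 0 (st k κ x a b) := by
    intro j hj
    obtain ⟨y, hy, rfl⟩ := mem_image.mp hj
    have q := hD y (mem_filter.mp hy).1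
    exact mem_Ioo.mpr ⟨h.st_pos hx ha q.1 ax q.2.1 q.2.2.symm, (mem_filter.mp hy).2⟩
  have c1 := card_le_card sb
  have c2 := card_image_of_injOn inj
  have c3 : ((Ioo 0 (st k κ x a b)).card : ℤ) = st k κ x a b - 1 := by
    rw [Int.card_Ioo]; omega
  refine ⟨by omega, fun q j j0 j1 => ?_⟩
  have := eq_of_subset_of_card_le sb (by omega)
  have hj : j ∈ S.image (fun y => st k κ x a y) := this ▸ mem_Ioo.mpr ⟨j0, j1⟩
  obtain ⟨y, hy, e⟩ := mem_image.mp hj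
  have q := hD y (mem_filter.mp hy).1
  exact ⟨y, q.1, q.2.1, e⟩

lemma tri_count (h : Clq k r Q F κ) (hQ : k ≤ Q.card + 1) (hu : u ∈ Q) (hv : v ∈ Q) (hw : w ∈ Q) :
    0 ≤ -∑ z ∈ Q, gq k κ u v w z ∧
      (u ≠ v → v ≠ w → w ≠ u → Short k κ u v w → -∑ z ∈ Q, gq k κ u v w z = 0 →
        Q.card + 1 = k ∧ ∀ j, 0 < j → j < st k κ v u w → ∃ y ∈ Q, y ≠ v ∧ st k κ v u y = j) := by
  by_cases c : u ≠ v ∧ v ≠ w ∧ w ≠ u ∧ Short k κ u v w
  · obtain ⟨uv, vw, wu, s⟩ := c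
    set D := ((Q.erase u).erase v).erase w with hD
    have mem : ∀ y, y ∈ D ↔ y ∈ Q ∧ y ≠ u ∧ y ≠ v ∧ y ≠ w := fun y => by
      simp only [hD, mem_erase]; tauto
    have cD : D.card + 3 = Q.card := by
      have a1 := card_erase_add_one hu
      have a2 := card_erase_add_one (mem_erase.mpr ⟨uv.symm, hv⟩)
      have a3 := card_erase_add_one (mem_erase.mpr ⟨vw.symm, mem_erase.mpr ⟨wu, hw⟩⟩)
      rw [hD]; omega
    have e : ∑ z ∈ Q, gq k κ u v w z = ∑ z ∈ D, (met k κ u v w z - 1) := by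
      rw [← sum_subset (s₁ := D) (fun y hy => ((mem y).mp hy).1)]
      · refine sum_congr rfl fun z hz => ?_
        obtain ⟨-, a1, a2, a3⟩ := (mem z).mp hz
        unfold gq
        rw [if_pos ⟨⟨uv, vw, wu, a1, a2, a3⟩, short_iff.mp s⟩]
      · intro z hz hn
        unfold gq
        rw [if_neg fun ⟨⟨_, _, _, a1, a2, a3⟩, _⟩ => hn ((mem z).mpr ⟨hz, a1, a2, a3⟩)]
    have b1 := h.arc_count hv hu hw uv vw.symm wu.symm (D := D)
      fun y hy => by have := (mem y).mp hy; tauto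
    have b2 := h.arc_count hw hv hu vw wu.symm uv.symm (D := D)
      fun y hy => by have := (mem y).mp hy; tauto
    have b3 := h.arc_count hu hw hv wu uv.symm vw.symm (D := D)
      fun y hy => by have := (mem y).mp hy; tauto
    unfold Short tri at s
    unfold met at e
    rw [sum_sub_distrib, sum_add_distrib, sum_add_distrib, sum_const, nsmul_eq_mul, mul_one] at e
    exact ⟨by omega, fun _ _ _ _ q => ⟨by omega, b1.2 (by omega)⟩⟩
  · refine ⟨?_, fun a1 a2 a3 a4 => absurd ⟨a1, a2, a3, a4⟩ c⟩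
    rw [sum_eq_zero fun z _ => ?_]
    · simp
    · unfold gq
      rw [if_neg fun ⟨⟨a1, a2, a3, _⟩, a4⟩ => c ⟨a1, a2, a3, short_iff.mpr a4⟩]

lemma tie_core (h : Clq k r Q F κ) (hk : 5 ≤ k) (hr : r < k + 1) (hQ : k ≤ Q.card + 1) :
    ∑ u ∈ Q, ∑ v ∈ Q, ∑ w ∈ Q, -∑ z ∈ Q, gq k κ u v w z ≤ 0 ∧
      ∑ u ∈ Q, ∑ v ∈ Q, ∑ w ∈ Q, ∑ z ∈ Q, (hq k κ u v w z + hq k κ u v z w) ≤ 0 := by
  have e1 : ∑ u ∈ Q, ∑ v ∈ Q, ∑ w ∈ Q, ∑ z ∈ Q, (gq k κ u v w z + gq k κ u v w z) =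
      ∑ u ∈ Q, ∑ v ∈ Q, ∑ w ∈ Q, ∑ z ∈ Q,
        (hq k κ u v w z + (hq k κ v w u z + hq k κ w u v z)) :=
    sum_congr rfl fun u hu => sum_congr rfl fun v hv => sum_congr rfl fun w hw =>
      sum_congr rfl fun z hz => h.split hk hr hu hv hw hz
  have r1 := sum4_rot Q (hq k κ)
  have r2 := sum4_rot Q fun u v w z => hq k κ v w u z
  have r3 := sum4_swap Q (hq k κ)
  rw [sum4_add Q (gq k κ) (gq k κ),
    sum4_add Q (hq k κ) fun u v w z => hq k κ v w u z + hq k κ w u v z,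
    sum4_add Q (fun u v w z => hq k κ v w u z) fun u v w z => hq k κ w u v z] at e1
  have p1 : 0 ≤ ∑ u ∈ Q, ∑ v ∈ Q, ∑ w ∈ Q, ∑ z ∈ Q, (hq k κ u v w z + hq k κ u v z w) :=
    sum_nonneg fun u hu => sum_nonneg fun v hv => sum_nonneg fun w hw =>
      sum_nonneg fun z hz => (h.pair hu hv hw hz).1
  have p2 : 0 ≤ ∑ u ∈ Q, ∑ v ∈ Q, ∑ w ∈ Q, -∑ z ∈ Q, gq k κ u v w z :=
    sum_nonneg fun u hu => sum_nonneg fun v hv => sum_nonneg fun w hw =>
      (h.tri_count hQ hu hv hw).1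
  rw [sum4_add Q (hq k κ) fun u v w z => hq k κ u v z w] at p1 ⊢
  simp only [sum_neg_distrib] at p2 ⊢
  constructor <;> omega

/-- TIE, part 1: a short triangle forces `|Q| = k - 1`, and its arcs carry clique edges only. -/
theorem tie_full (h : Clq k r Q F κ) (hk : 5 ≤ k) (hr : r < k + 1) (hQ : k ≤ Q.card + 1)
    (hu : u ∈ Q) (hv : v ∈ Q) (hw : w ∈ Q) (uv : u ≠ v) (vw : v ≠ w) (wu : w ≠ u)
    (s : Short k κ u v w) :
    Q.card + 1 = k ∧ ∀ j, 0 < j → j < st k κ v u w → ∃ y ∈ Q, y ≠ v ∧ st k κ v u y = j :=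
  (h.tri_count hQ hu hv hw).2 uv vw wu s
    (sum3_zero (f := fun u v w => -∑ z ∈ Q, gq k κ u v w z)
      (fun _ hu _ hv _ hw => (h.tri_count hQ hu hv hw).1) (h.tie_core hk hr hQ).1 hu hv hw)

/-- TIE, part 2: for two short triangles on the edge `uv`, the edge `wz` is off the arc of `w`. -/
theorem tie_eps (h : Clq k r Q F κ) (hk : 5 ≤ k) (hr : r < k + 1) (hQ : k ≤ Q.card + 1)
    (hu : u ∈ Q) (hv : v ∈ Q) (hw : w ∈ Q) (hz : z ∈ Q) (uv : u ≠ v) (vw : v ≠ w) (wu : w ≠ u)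
    (zu : z ≠ u) (zv : z ≠ v) (zw : z ≠ w) (s1 : Short k κ u v w) (s2 : Short k κ u v z) :
    ¬On k κ w v u z := by
  intro o
  have p := (h.pair hu hv hw hz).2 ⟨uv, vw, wu, zu, zv, zw⟩ s1 s2 o
  have z0 := sum3_zero (f := fun u v w => ∑ z ∈ Q, (hq k κ u v w z + hq k κ u v z w))
    (fun _ hu _ hv _ hw => sum_nonneg fun z hz => (h.pair hu hv hw hz).1)
    (h.tie_core hk hr hQ).2 hu hv hw
  have := single_le_sum (f := fun z => hq k κ u v w z + hq k κ u v z w)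
    (fun z hz => (h.pair hu hv hw hz).1) hz
  beta_reduce at z0 this
  omega

/-- COHERENCE: a clique with at least `k` vertices has no short triangle. -/
theorem no_short (h : Clq k r Q F κ) (hk : 5 ≤ k) (hr : r < k + 1) (hQ : k ≤ Q.card)
    (hu : u ∈ Q) (hv : v ∈ Q) (hw : w ∈ Q) (uv : u ≠ v) (vw : v ≠ w) (wu : w ≠ u) :
    ¬Short k κ u v w := fun s => by
  have := (h.tie_full hk hr (by omega) hu hv hw uv vw wu s).1
  omega

/-- A closed walk with four corners cannot have `2k - 2` steps. -/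
lemma four_walk (h : Clq k r Q F κ) (hk : 5 ≤ k) (hr : r < k + 1) (hu : u ∈ Q) (hv : v ∈ Q)
    (hw : w ∈ Q) (hz : z ∈ Q) (uv : u ≠ v) (vw : v ≠ w) (zu : z ≠ u) (zw : z ≠ w) :
    st k κ v u w + st k κ w v z + st k κ z w u + st k κ u z v ≠ 2 * k - 2 := by
  intro e
  obtain ⟨t1, a1, b1, c1⟩ := h.corner hv hu hw uv vw.symm
  obtain ⟨t2, a2, b2, c2⟩ := h.corner hw hv hz vw zw
  obtain ⟨t3, a3, b3, c3⟩ := h.corner hz hw hu zw.symm zu.symm
  obtain ⟨t4, a4, b4, c4⟩ := h.corner hu hz hv zu uv.symm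
  have e1 := ((h.cg v hv w hw vw.symm).trans c1).add t2
  have e2 := ((h.cg w hw z hz zw).trans (c2.trans e1)).add t3
  have e3 := ((h.cg z hz u hu zu.symm).trans (c3.trans e2)).add t4
  obtain ⟨n, hn⟩ := (h.cg u hu v hv uv.symm).trans (c4.trans e3)
  have e' : (st k κ v u w : ℝ) + st k κ w v z + st k κ z w u + st k κ u z v = 2 * k - 2 := by
    exact_mod_cast e
  have g0 := (h.fr u hu).eps_nonneg
  have k5 : (5 : ℝ) ≤ k := by exact_mod_cast hk
  rcases le_or_gt n (-2) with c | c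
  · have : (n : ℝ) ≤ -2 := by exact_mod_cast c
    have := mul_le_mul_of_nonneg_right this (show 0 ≤ r by linarith)
    linarith
  · have : (-1 : ℝ) ≤ n := by exact_mod_cast (show -1 ≤ n by omega)
    have := mul_le_mul_of_nonneg_right this (show 0 ≤ r by linarith)
    linarith

/-- TIE, part 3: no two short triangles pass an edge in opposite directions
(so no `K₄` has four short triangles). -/
theorem tie_no4 (h : Clq k r Q F κ) (hk : 5 ≤ k) (hr : r < k + 1) (hQ : k ≤ Q.card + 1)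
    (hu : u ∈ Q) (hv : v ∈ Q) (hw : w ∈ Q) (hz : z ∈ Q) (uv : u ≠ v) (vw : v ≠ w) (wu : w ≠ u)
    (zu : z ≠ u) (zv : z ≠ v) (zw : z ≠ w) (s1 : Short k κ u v z) (s2 : Short k κ v w z) :
    False := by
  have c := h.cocycle hk hr hu hv hw hz uv vw wu zu zv zw
  have c0 := mu_cases (k := k) (κ := κ) (u := u) (v := v) (w := w)
  have c3 := mu_cases (k := k) (κ := κ) (u := w) (v := u) (w := z)
  have m1 := short_iff.mp s1
  have m2 := short_iff.mp s2
  have rv := h.mu_rev hw hu hz wu zu.symm zw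
  have s0 : Short k κ u v w := short_iff.mpr (by omega)
  have s3 : Short k κ w z u := short_iff.mpr (by omega)
  -- orders at `v`, `w`, `z`
  have o1 := h.tie_eps hk hr hQ hz hu hv hw zu uv zv.symm zw.symm wu vw.symm s1.rot.rot s3.rot
  have o2 := h.tie_eps hk hr hQ hu hv hw hz uv vw wu zu zv zw s0 s1
  have o3 := h.tie_eps hk hr hQ hv hw hz hu vw zw.symm zv uv wu.symm zu.symm s2 s0.rot
  have a1 := h.st_add hv hu hz hw uv zv vw.symm zw.symm
  have a1' := h.st_add hv hu hw hz uv vw.symm zv zw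
  have a3 := h.st_add hz hw hv hu zw.symm zv.symm zu.symm uv
  have a3' := h.st_add hz hw hu hv zw.symm zu.symm zv.symm uv.symm
  have f := h.four_walk hk hr hu hv hw hz uv vw zu zw
  unfold Short tri at s1 s2
  unfold On at o1 o3 a1 a1' a3 a3'
  omega

end Clq

end Pool.Agent.P.MP_3f5ded_co.UG
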