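import Pool.Agent.P.MP_3f5ded_co.ULE
import Pool.Agent.P.MP_3f5ded_co.UGTie

set_option autoImplicit false

namespace Pool.Agent.P.MP_3f5ded_co.UG

open Sum Finset

/-- The elastic wire, for all `r < k + 1`. -/
def IsE1 (k : ℕ) (A : Pole k (Fin 2)) : Prop :=
  A.Inj ∧ (∀ (r : ℝ) x, 1 ≤ r → r < k + 1 → A.Rel r x → cd r (x 0) (x 1) ≤ r - k) ∧
    ∀ (r : ℝ) x, cd r (x 0) (x 1) ≤ r - k → A.Rel r x

lemma uge_bound {W : Type} [Fintype W] [DecidableEq W] {k : ℕ} (hk : 5 ≤ k) (ho : Odd k)
    (hW : Fintype.card W = k + 1) {u v : W} (huv : v ≠ u) {r : ℝ} (hr1 : 1 ≤ r)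
    (hr : r < k + 1) {C : W → W → ℝ}
    (hsym : ∀ x y, y ≠ x → ¬(x = u ∧ y = v) → ¬(x = v ∧ y = u) → Cg r (C x y) (C y x))
    (hfar : ∀ x y z, y ≠ x → z ≠ x → y ≠ z → Far r (C x y) (C x z)) :
    cd r (C u v) (C v u) ≤ r - k := by
  have hrp : 0 < r := by linarith
  have hc : ∀ x : W, (univ.erase x).card = k := fun x => by
    rw [card_erase_of_mem (mem_univ _), card_univ, hW]; rfl
  have me : ∀ {x y : W}, y ≠ x → y ∈ univ.erase x := fun h => mem_erase.mpr ⟨h, mem_univ _⟩
  have hf : ∀ x, ∀ y ∈ univ.erase x, ∀ z ∈ univ.erase x, y ≠ z → Far r (C x y) (C x z) :=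
    fun x y hy z hz hne => hfar x y z (mem_erase.mp hy).1 (mem_erase.mp hz).1 hne
  obtain ⟨h, hh⟩ : ((univ.erase u).erase v).Nonempty := by
    rw [← card_pos, card_erase_of_mem (me huv), hc]; omega
  have hhv : h ≠ v := (mem_erase.mp hh).1
  have hhu : h ≠ u := (mem_erase.mp (mem_erase.mp hh).2).1
  have anchor : ∀ x y, y ≠ x → ¬(x = u ∧ y = v) → ¬(x = v ∧ y = u) → ∀ f κ,
      Good k r (univ.erase x) (C x) f κ →
      ∃ g μ, Good k r (univ.erase y) (C y) g μ ∧ Al (r - k) f g ∧ μ x = κ y := by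
    intro x y hy a1 a2 f κ hG
    obtain ⟨g, μ, hg, e0, e⟩ := exists_good hrp (univ.erase y) (hc y) (C y) (hf y) x
      (me hy.symm) (κ y) (hG.lo y (me hy)) (hG.hi y (me hy)) (f (κ y))
      ((hsym x y hy a1 a2).symm.trans (hG.near y (me hy))) hr1
    exact ⟨g, μ, hg, hG.fr.aligned hg.fr (by omega) e.symm, e0⟩
  obtain ⟨fu, κu, hGu, eu, -⟩ := exists_good hrp (univ.erase u) (hc u) (C u) (hf u) v (me huv)
    0 le_rfl (by omega) (C u v) (Cg.refl _ _) hr1
  obtain ⟨f1, κ1, hG1, a1, a0⟩ := anchor u h hhu (fun e => hhv e.2) (fun e => huv e.1.symm) _ _ hGu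
  have he0 : 0 ≤ r - k := hG1.fr.eps_nonneg
  have gen : ∀ x, ∃ f κ, Good k r (univ.erase x) (C x) f κ ∧ Al (r - k) f1 f ∧
      (x = u → κ v = 0) ∧ (x = h → κ = κ1) ∧ (x ≠ h → κ h = κ1 x) := by
    intro x
    by_cases c1 : x = u
    · subst c1
      exact ⟨fu, κu, hGu, a1.symm, fun _ => eu, fun e => absurd e hhu.symm, fun _ => a0.symm⟩
    by_cases c2 : x = h
    · subst c2
      exact ⟨f1, κ1, hG1, Al.refl he0 _, fun e => absurd e c1, fun _ => rfl, fun e => absurd rfl e⟩
    obtain ⟨g, μ, hg, a, e0⟩ := anchor h x c2 (fun e => hhu e.1) (fun e => hhv e.1) _ _ hG1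
    exact ⟨g, μ, hg, a, fun e => absurd e c1, fun e => absurd e c2, fun _ => e0⟩
  choose F κ hG hA hu hh1 hh2 using gen
  have hu0 : κ u v = 0 := hu u rfl
  have hb : ∀ x, x ≠ h → κ x h = κ h x := fun x hx => by rw [hh2 x hx, hh1 h rfl]
  have clq : ∀ a, a = u ∨ a = v → Clq k r (univ.erase a) F κ := fun a ha =>
    ⟨fun x _ => (hG x).fr, fun x _ y _ e => (hG x).lo y (me e), fun x _ y _ e => (hG x).hi y (me e),
      fun x _ y _ z _ e e' => (hG x).inj y (me e) z (me e'), fun x hx y hy e => by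
        have x1 := (mem_erase.mp hx).1
        have y1 := (mem_erase.mp hy).1
        refine ((hG x).near y (me e)).symm.trans ((hsym x y e ?_ ?_).trans
          ((hG y).near x (me e.symm)))
        · rintro ⟨rfl, rfl⟩; tauto
        · rintro ⟨rfl, rfl⟩; tauto⟩
  have hk5 : (5 : ℝ) ≤ k := by exact_mod_cast hk
  have hE : ∀ x y, y ≠ x → ¬(x = u ∧ y = v) → ¬(x = v ∧ y = u) →
      κ x y = κ y x ∧ F x (κ x y) = F y (κ x y) := by
    intro x y hy b1 b2
    have al : Al ((r - k) + (r - k)) (F x) (F y) := (hA x).symm.trans (hA y)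
    have n1 := (hG x).near y (me hy)
    have n2 := (hsym x y hy b1 b2).trans ((hG y).near x (me hy.symm))
    have e : κ x y = κ y x := by
      by_cases c1 : x = h
      · rw [c1] at hy ⊢; exact (hb y hy).symm
      by_cases c2 : y = h
      · rw [c2]; exact hb x c1
      obtain ⟨a, ha, xa, ya⟩ : ∃ a, (a = u ∨ a = v) ∧ x ≠ a ∧ y ≠ a := by
        by_cases d1 : x = u
        · exact ⟨v, Or.inr rfl, d1 ▸ huv.symm, fun e => b1 ⟨d1, e⟩⟩
        by_cases d2 : y = u
        · exact ⟨v, Or.inr rfl, fun e => b2 ⟨e, d2⟩, d2 ▸ huv.symm⟩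
        exact ⟨u, Or.inl rfl, d1, d2⟩
      have ha' : h ≠ a := by rcases ha with rfl | rfl <;> assumption
      have q := clq a ha
      exact q.anchored hr (me ha') (me xa) (me ya) c1 c2 hy (hb x c1) (hb y c2)
        (q.no_short hk hr (hc a).ge (me ha') (me xa) (me ya) (Ne.symm c1) hy.symm c2)
        (q.no_short hk hr (hc a).ge (me ha') (me ya) (me xa) (Ne.symm c2) hy c1)
    refine ⟨e, ?_⟩
    rw [← e] at n2
    have := abs_le.mp (al (κ x y))
    exact n1.uniq n2 (by linarith [this.2]) (by linarith [this.1])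
  have hv0 : κ v u = 0 := by
    by_contra hne
    have ex : ∀ x, ∃ y ∈ univ.erase x, κ x y = 0 := fun x =>
      (hG x).surj (hc x) le_rfl (by omega)
    choose μ hμ hμ0 using ex
    have hμ' : ∀ x, μ x ≠ x := fun x => (mem_erase.mp (hμ x)).1
    have key : ∀ x, x ≠ u → μ x ≠ u ∧ μ (μ x) = x := by
      intro x hx
      have b2 : ¬(x = v ∧ μ x = u) := by
        rintro ⟨rfl, e⟩
        apply hne; rw [← e]; exact hμ0 _
      have e := (hE x (μ x) (hμ' x) (fun h => hx h.1) b2).1
      rw [hμ0] at e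
      have hx' := me (hμ' x).symm
      refine ⟨fun h => ?_, (hG (μ x)).inj _ (hμ _) _ hx' (by rw [hμ0, ← e])⟩
      apply b2
      refine ⟨?_, h⟩
      rw [h] at e hx'
      exact (hG u).inj _ hx' _ (me huv) (by rw [← e, hu0])
    have s0 : ∑ _x ∈ univ.erase u, (1 : ZMod 2) = 0 := by
      refine sum_involution (fun x _ => μ x) (fun _ _ => by decide) (fun x _ _ => hμ' x)
        (fun x hx => ?_) (fun x hx => ?_)
      · exact me (key x (mem_erase.mp hx).1).1
      · exact (key x (mem_erase.mp hx).1).2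
    rw [sum_const, hc] at s0
    obtain ⟨m, rfl⟩ := ho
    simp only [nsmul_eq_mul, mul_one] at s0
    push_cast at s0
    have h20 : (2 : ZMod 2) = 0 := by decide
    rw [h20] at s0
    simp at s0
  have g1 := ule_half hW huv hhu hhv hG (fun x y hy b1 b2 => (hE x y hy b1 b2).2) hu0 hv0
  have g2 := ule_half hW huv.symm hhv hhu hG (fun x y hy b1 b2 => (hE x y hy b2 b1).2) hv0 hu0
  have q1 := (hG u).near v (me huv)
  have q2 := (hG v).near u (me huv.symm)
  rw [hu0] at q1
  rw [hv0] at q2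
  refine (cd_le_of (u := F v 0 - F u 0) hrp (q2.trans ?_)).trans (abs_le.mpr ⟨by linarith, by linarith⟩)
  exact (Cg.of_eq (by ring)).trans (q1.symm.add _)

/-- The complete graph minus an edge is an elastic wire for all `r < k + 1`. -/
theorem exists_E1 {k : ℕ} (hk : 5 ≤ k) (ho : Odd k) : ∃ A, IsE1 k A := by
  obtain ⟨W, _, _, nu, hW, hi, hn, hj⟩ := ule_fact ho
  obtain ⟨u⟩ : Nonempty W := Fintype.card_pos_iff.mp (by omega)
  set z : Fin k := ⟨0, by omega⟩ with hz
  have f2 : ∀ p : Fin 2, p = 0 ∨ p = 1 := by decide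
  refine ⟨ule_pole nu u z hi hn hj, ?_, ?_, ?_⟩
  · intro p q d e h1 h2 h3
    change ule_rv nu u z (inr p) = inl d at h1
    change ule_rv nu u z (inr q) = inl e at h2
    rcases f2 p with rfl | rfl <;> rcases f2 q with rfl | rfl
    · rfl
    · rw [ule_rv_0] at h1; rw [ule_rv_1] at h2
      rw [← inl.inj h1, ← inl.inj h2] at h3
      exact absurd h3.symm (hn _ _)
    · rw [ule_rv_1] at h1; rw [ule_rv_0] at h2
      rw [← inl.inj h1, ← inl.inj h2] at h3
      exact absurd h3 (hn _ _)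
    · rfl
  · rintro r x hr1 hr ⟨c, c1, c2, c3⟩
    change (W × Fin k) ⊕ Fin 2 → ℝ at c
    change ∀ e, Cg r (c e) (c (ule_rv nu u z e)) at c2
    have ex : ∀ a b : W, ∃ l, b ≠ a → nu a l = b := by
      intro a b
      by_cases hb : b = a
      · exact ⟨z, fun h => absurd hb h⟩
      have : univ.image (nu a) = univ.erase a := by
        apply eq_of_subset_of_card_le
        · intro t ht
          obtain ⟨l, -, rfl⟩ := mem_image.mp ht
          exact mem_erase.mpr ⟨hn _ _, mem_univ _⟩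
        · rw [card_image_of_injective _ (fun l l' => hj a l l'), card_erase_of_mem (mem_univ _),
            card_univ, card_univ, hW, Fintype.card_fin]
          omega
      have hb' : b ∈ univ.image (nu a) := this ▸ mem_erase.mpr ⟨hb, mem_univ _⟩
      obtain ⟨l, -, hl⟩ := mem_image.mp hb'
      exact ⟨l, fun _ => hl⟩
    choose lab hl using ex
    have hv : nu u z ≠ u := hn _ _
    have l1 : lab u (nu u z) = z := hj u _ _ (hl _ _ hv)
    have l2 : lab (nu u z) u = z := hj (nu u z) _ _ (by rw [hl _ _ hv.symm, hi])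
    have key := uge_bound hk ho hW hv hr1 hr (C := fun a b => c (inl (a, lab a b)))
      (fun a b hb b1 b2 => by
        have e := hl a b hb
        have e0 := hi a (lab a b)
        rw [e] at e0
        have e' : lab b a = lab a b := hj b _ _ (by rw [hl b a hb.symm, e0])
        have := c2 (inl (a, lab a b))
        rw [ule_rv_o (fun t => b1 ?_) (fun t => b2 ?_)] at this
        · simpa only [e, e'] using this
        · obtain ⟨t1, t2⟩ := Prod.mk.inj t
          exact ⟨t1, by rw [← e, t2, t1]⟩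
        · obtain ⟨t1, t2⟩ := Prod.mk.inj t
          exact ⟨t1, by rw [← e, t2, t1, hi]⟩)
      (fun a b b' hb hb' hne => c3 a _ _ (fun t => hne (by rw [← hl a b hb, t, hl a b' hb'])))
    simp only [l1, l2] at key
    have c1' : ∀ p : Fin 2, c (inr p) = x p := c1
    have d0 := c2 (inr 0)
    have d1 := c2 (inr 1)
    rw [ule_rv_0, c1'] at d0
    rw [ule_rv_1, c1'] at d1
    rwa [cd_congr (by linarith) d0 d1]
  · intro r x hx
    obtain ⟨t, ht, et⟩ := cd_lift r (x 0) (x 1)
    rw [← et, abs_le] at hx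
    have hv : nu u z ≠ u := hn _ _
    set m := min (x 0) (x 0 + t) with hm
    let c : (W × Fin k) ⊕ Fin 2 → ℝ := Sum.elim (fun d => if d = (u, z) then x 0 else
      if d = (nu u z, z) then x 0 + t else if d.2 = z then m else m + (d.2 : ℕ) + (r - k)) x
    have l0 : ∀ w, m ≤ c (inl (w, z)) ∧ c (inl (w, z)) ≤ m + (r - k) := by
      intro w
      simp only [c, Sum.elim_inl, if_true]
      rcases min_cases (x 0) (x 0 + t) with e | e <;> rw [hm, e.1] <;> split_ifs <;>
        constructor <;> linarith [e.2, hx.1, hx.2]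
    have l1 : ∀ w l, l ≠ z → c (inl (w, l)) = m + (l : ℕ) + (r - k) := by
      intro w l h
      simp only [c, Sum.elim_inl]
      rw [if_neg (fun e => h (Prod.mk.inj e).2), if_neg (fun e => h (Prod.mk.inj e).2), if_neg h]
    have key : ∀ w (l l' : Fin k), l < l' → Far r (c (inl (w, l))) (c (inl (w, l'))) := by
      intro w l l' h
      have h' : (l : ℕ) < l' := h
      have a1 : ((l : ℕ) : ℝ) + 1 ≤ (l' : ℕ) := by exact_mod_cast h'
      have a2 : ((l' : ℕ) : ℝ) + 1 ≤ k := by exact_mod_cast l'.2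
      have a3 : (0 : ℝ) ≤ (l : ℕ) := by positivity
      rw [l1 w l' (fun e => by rw [e, hz] at h'; simp at h')]
      by_cases hy : l = z
      · have := l0 w
        rw [hy]
        apply Far.of_bounds <;> linarith
      · rw [l1 w l hy]
        apply Far.of_bounds <;> linarith
    have cu : c (inl (u, z)) = x 0 := by simp [c]
    have cv : c (inl (nu u z, z)) = x 0 + t := by simp [c, hv]
    refine ⟨c, fun _ => rfl, ?_, ?_⟩
    · change ∀ e, Cg r (c e) (c (ule_rv nu u z e))
      rintro (d | p)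
      · by_cases h1 : d = (u, z)
        · rw [h1, ule_rv_u, cu]; exact Cg.refl _ _
        by_cases h2 : d = (nu u z, z)
        · rw [h2, ule_rv_v hv, cv]; exact ht.symm
        have := ule_other hi h1 h2
        rw [ule_rv_o h1 h2]
        apply Cg.of_eq
        simp only [c, Sum.elim_inl]
        rw [if_neg h1, if_neg h2, if_neg this.1, if_neg this.2]
      · rcases f2 p with rfl | rfl
        · rw [ule_rv_0, cu]; exact Cg.refl _ _
        · rw [ule_rv_1, cv]; exact ht
    · intro w l l' hne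
      rcases lt_or_gt_of_ne hne with h | h
      · exact key w l l' h
      · exact (key w l' l h).symm

/-- The same as a port relation. -/
theorem real_E1 {k : ℕ} (hk : 5 ≤ k) (ho : Odd k) :
    Real' k (fun r => 1 ≤ r ∧ r < k + 1) (Fin 2) true fun r x => cd r (x 0) (x 1) ≤ r - k := by
  obtain ⟨A, a1, a2, a3⟩ := exists_E1 hk ho
  exact ⟨A, fun _ => a1, fun r hr x => ⟨a2 r x hr.1 hr.2, a3 r x⟩⟩

end Pool.Agent.P.MP_3f5ded_co.UG
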