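import Pool.Agent.P.MP_3f5ded_co.USDefs
import Pool.Agent.P.MP_3f5ded_co.UGE
import Pool.Agent.P.MP_3f5ded_co.UENet

set_option autoImplicit false

namespace Pool.Agent.P.MP_3f5ded_co.UG

open Sum

/-- Darts with owners, joined by edges and by copies of one pole with two ports. -/
theorem net_darts {k : ℕ} {V D P : Type} [Fintype V] [Finite D] (o : D → V)
    (ho : ∀ v, Nat.card {d // o d = v} = k) (ρ : D ⊕ P → D ⊕ P) (hinv : ∀ e, ρ (ρ e) = e)
    (h0 : ∀ p, ∃ d, ρ (inr p) = inl d) (dir : D → Prop) {E : Pole k (Fin 2)} (hE : E.Inj)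
    (h1 : ∀ d e, ρ (inl d) = inl e → o d ≠ o e ∧ (dir d → dir e))
    (h3 : ∀ d e d' e', ρ (inl d) = inl e → ρ (inl d') = inl e' → dir d → dir d' → o d = o d' →
      o e = o e' → d = d')
    (E0 : P → P → Prop)
    (h4 : ∀ p q d e, ρ (inr p) = inl d → ρ (inr q) = inl e → o d = o e → E0 p q) :
    ∃ A : Pole k P, A.Tag E0 ∧ ∀ r x, (∀ a b, E.Rel r ![a, b] → E.Rel r ![b, a]) →
      (A.Rel r x ↔ ∃ c : D → ℝ, (∀ p d, ρ (inr p) = inl d → Cg r (c d) (x p)) ∧
        (∀ d e, ρ (inl d) = inl e → dir d → Cg r (c d) (c e)) ∧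
        (∀ d e, ρ (inl d) = inl e → ¬ dir d → E.Rel r ![c d, c e]) ∧
        ∀ d d', d ≠ d' → o d = o d' → Far r (c d) (c d')) := by
  classical
  obtain ⟨φ, hφ⟩ : ∃ φ : V × Fin k ≃ D, ∀ d, o (φ d) = d.1 :=
    ⟨((Equiv.sigmaEquivProd V (Fin k)).symm.trans (Equiv.sigmaCongrRight fun v =>
      (Finite.equivFinOfCardEq (ho v)).symm)).trans (Equiv.sigmaFiberEquiv o),
      fun d => ((Finite.equivFinOfCardEq (ho d.1)).symm d.2).2⟩
  let m : (V × Fin k) ⊕ P ≃ D ⊕ P := Equiv.sumCongr φ (Equiv.refl _)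
  have hs : ∀ a b, ρ a = b → ρ b = a := fun a b h => by rw [← h, hinv]
  have m1 : ∀ d e, m.symm (ρ (m (inl d))) = inl e ↔ ρ (inl (φ d)) = inl (φ e) := fun d e =>
    m.symm_apply_eq
  have m2 : ∀ p e, m.symm (ρ (m (inr p))) = inl e ↔ ρ (inr p) = inl (φ e) := fun p e =>
    m.symm_apply_eq
  let n := Fintype.equivFin V
  obtain ⟨A, t, hA⟩ := net_links (V := V) (S := Fin k) (Fintype.card_fin k)
    (fun y => m.symm (ρ (m y)))
    (fun y => by simp only [Equiv.apply_symm_apply, hinv, Equiv.symm_apply_apply])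
    (fun p => (h0 p).elim fun d h => ⟨φ.symm d, (m2 _ _).2 (by rw [h, φ.apply_symm_apply])⟩)
    (fun d => dir (φ d)) (fun d => ∃ e, ρ (inl (φ d)) = inl (φ e) ∧ n d.1 < n e.1) (fun _ => E)
    (fun _ => hE)
    (fun d e h g => by
      have := h1 _ _ ((m1 d e).1 h)
      rw [hφ, hφ] at this
      exact ⟨this.1, this.2 g⟩)
    (fun d e h => by
      have a1 := (m1 d e).1 h
      have a2 := hs _ _ a1
      have a3 := (h1 _ _ a1).1
      rw [hφ, hφ] at a3
      constructor
      · rintro ⟨e', b1, b2⟩ ⟨d', b3, b4⟩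
        rw [φ.injective (inl_injective (b1.symm.trans a1))] at b2
        rw [φ.injective (inl_injective (b3.symm.trans a2))] at b4
        exact lt_asymm b2 b4
      · intro g
        refine ⟨e, a1, lt_of_le_of_ne (not_lt.1 fun b => g ⟨d, a2, b⟩) (n.injective.ne a3)⟩)
    (fun d e d' e' a b g g' c1 c2 => φ.injective (h3 _ _ _ _ ((m1 _ _).1 a) ((m1 _ _).1 b) g g'
      (by rw [hφ, hφ, c1]) (by rw [hφ, hφ, c2])))
    E0 (fun p q d e a b c1 => h4 p q _ _ ((m2 _ _).1 a) ((m2 _ _).1 b) (by rw [hφ, hφ, c1]))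
  refine ⟨A, t, fun r x hsy => (hA r x).trans ⟨?_, ?_⟩⟩
  · rintro ⟨c, c1, c2, c3, c4⟩
    refine ⟨fun d => c (φ.symm d), fun p d h => ?_, fun d e h g => ?_, fun d e h g => ?_,
      fun d d' h g => ?_⟩
    · obtain ⟨d, rfl⟩ := φ.surjective d
      simpa only [φ.symm_apply_apply] using c1 p d ((m2 _ _).2 h)
    · obtain ⟨d, rfl⟩ := φ.surjective d
      obtain ⟨e, rfl⟩ := φ.surjective e
      simpa only [φ.symm_apply_apply] using c2 d e ((m1 _ _).2 h) g
    · obtain ⟨d, rfl⟩ := φ.surjective d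
      obtain ⟨e, rfl⟩ := φ.surjective e
      simp only [φ.symm_apply_apply]
      have a2 := hs _ _ h
      have a3 := (h1 _ _ h).1
      rw [hφ, hφ] at a3
      rcases lt_or_gt_of_ne (n.injective.ne a3) with b | b
      · exact c3 d e ((m1 _ _).2 h) g ⟨e, h, b⟩
      · exact hsy _ _ (c3 e d ((m1 _ _).2 a2) (fun f => g ((h1 _ _ a2).2 f)) ⟨d, a2, b⟩)
    · obtain ⟨⟨v, s⟩, rfl⟩ := φ.surjective d
      obtain ⟨⟨v', s'⟩, rfl⟩ := φ.surjective d'
      rw [hφ, hφ] at g
      obtain rfl : v = v' := g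
      simpa only [φ.symm_apply_apply] using c4 v s s' fun f => h (by rw [f])
  · rintro ⟨c, c1, c2, c3, c4⟩
    exact ⟨fun d => c (φ d), fun p d h => c1 p _ ((m2 _ _).1 h),
      fun d e h g => c2 _ _ ((m1 _ _).1 h) g, fun d e h g _ => c3 _ _ ((m1 _ _).1 h) g,
      fun v s s' h => c4 _ _ (fun f => h (congrArg Prod.snd (φ.injective f))) (by rw [hφ, hφ])⟩

open Classical in
/-- The reversal of darts of a graph with capped and live ports. -/
noncomputable def capRv {V Pt P : Type} {G : V → V → Prop} (hG : ∀ u v, G u v → G v u)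
    (pa : Pt → Pt) (nm : Pt → P) (lv : P → Pt) :
    ({d : V × V // G d.1 d.2} ⊕ Pt) ⊕ P → ({d : V × V // G d.1 d.2} ⊕ Pt) ⊕ P
  | inl (inl d) => inl (inl ⟨(d.1.2, d.1.1), hG _ _ d.2⟩)
  | inl (inr p) => if pa p = p then inr (nm p) else inl (inr (pa p))
  | inr i => inl (inr (lv i))

/-- A graph with ports, some of them capped in pairs by copies of one pole. -/
theorem net_caps {k : ℕ} {V Pt P : Type} [Fintype V] [Finite Pt] (G : V → V → Prop)
    (hG : ∀ u v, G u v → G v u) (hG' : ∀ u v, G u v → u ≠ v) (ow : Pt → V)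
    (hc : ∀ v, Nat.card {u // G v u} + Nat.card {p // ow p = v} = k) (pa : Pt → Pt) (nm : Pt → P)
    (lv : P → Pt) (inv : ∀ p, pa (pa p) = p) (f1 : ∀ i, pa (lv i) = lv i)
    (f2 : ∀ p, pa p = p → lv (nm p) = p) (f3 : ∀ i, nm (lv i) = i)
    (dif : ∀ p, pa p ≠ p → ow (pa p) ≠ ow p) {E : Pole k (Fin 2)} (hE : E.Inj) :
    ∃ A : Pole k P, A.Tag (fun i j => ow (lv i) = ow (lv j)) ∧
      ∀ r x, (∀ a b, E.Rel r ![a, b] → E.Rel r ![b, a]) →
      (A.Rel r x ↔ ∃ (c : V → V → ℝ) (π : Pt → ℝ), (∀ i, π (lv i) = x i) ∧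
        (∀ u v, G u v → Cg r (c u v) (c v u)) ∧ (∀ p, pa p ≠ p → E.Rel r ![π p, π (pa p)]) ∧
        (∀ v u u', G v u → G v u' → u ≠ u' → Far r (c v u) (c v u')) ∧
        (∀ p u, G (ow p) u → Far r (π p) (c (ow p) u)) ∧
        ∀ p p', p ≠ p' → ow p = ow p' → Far r (π p) (π p')) := by
  classical
  have e1 : ∀ p, pa p = p → capRv hG pa nm lv (inl (inr p)) = inr (nm p) := fun p h => if_pos h
  have e2 : ∀ p, pa p ≠ p → capRv hG pa nm lv (inl (inr p)) = inl (inr (pa p)) := fun p h =>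
    if_neg h
  have e3 : ∀ p e, capRv hG pa nm lv (inl (inr p)) = inl e → pa p ≠ p ∧ e = inr (pa p) := by
    intro p e h
    by_cases g : pa p = p
    · rw [e1 p g] at h
      cases h
    · rw [e2 p g] at h
      exact ⟨g, (inl_injective h).symm⟩
  obtain ⟨A, t, hA⟩ := net_darts (k := k) (Sum.elim (fun d : {d : V × V // G d.1 d.2} => d.1.1) ow)
    (fun v => by
      rw [Nat.card_congr Equiv.subtypeSum, Nat.card_sum, ← hc v]
      congr 1
      exact Nat.card_congr ⟨fun d => ⟨d.1.1.2, by obtain ⟨d, rfl⟩ := d; exact d.2⟩, fun u => ⟨⟨(v, u.1), u.2⟩, rfl⟩,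
        by rintro ⟨⟨⟨a, b⟩, h⟩, rfl⟩; rfl, fun _ => rfl⟩)
    (capRv hG pa nm lv)
    (by
      rintro ((d | p) | i)
      · rfl
      · by_cases g : pa p = p
        · rw [e1 p g, capRv, f2 p g]
        · rw [e2 p g, e2 _ (by rw [inv]; exact Ne.symm g), inv]
      · rw [capRv, e1 _ (f1 i), f3])
    (fun i => ⟨_, rfl⟩) (fun d => d.isLeft) hE
    (by
      rintro (d | p) e h
      · cases h
        exact ⟨hG' _ _ d.2, fun _ => rfl⟩
      · obtain ⟨g, rfl⟩ := e3 p e h
        exact ⟨(dif p g).symm, fun f => by cases f⟩)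
    (by
      rintro (d | p) e (d' | p') e' h h' g g' a b
      · cases h
        cases h'
        exact congrArg inl (Subtype.ext (Prod.ext a b))
      · cases g'
      · cases g
      · cases g)
    (fun i j => ow (lv i) = ow (lv j))
    (by
      intro i j d e h h' a
      cases h
      cases h'
      exact a)
  refine ⟨A, t, fun r x hsy => (hA r x hsy).trans ⟨?_, ?_⟩⟩
  · rintro ⟨c, c1, c2, c3, c4⟩
    have hπ : ∀ p, Cg r (c (inr p)) (if pa p = p then x (nm p) else c (inr p)) := fun p => by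
      split_ifs with g
      · exact c1 (nm p) _ (by rw [capRv, f2 p g])
      · exact Cg.refl _ _
    refine ⟨fun u v => if h : G u v then c (inl ⟨(u, v), h⟩) else 0,
      fun p => if pa p = p then x (nm p) else c (inr p), fun i => ?_, fun u v h => ?_,
      fun p g => ?_, fun v u u' h h' g => ?_, fun p u h => ?_, fun p p' g g' => ?_⟩
    · simp only [f1, f3, if_true]
    · simp only [dif_pos h, dif_pos (hG _ _ h)]
      exact c2 (inl ⟨(u, v), h⟩) _ rfl rfl
    · exact (c3 _ _ (e2 p g) (by simp)).cg (Fin.forall_fin_two.2 ⟨hπ _, hπ _⟩)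
    · simp only [dif_pos h, dif_pos h']
      exact c4 _ _ (fun f => g (congrArg (fun d => d.1.2) (inl_injective f))) rfl
    · simp only [dif_pos h]
      exact (c4 (inr p) (inl ⟨(ow p, u), h⟩) inr_ne_inl rfl).congr (hπ p) (Cg.refl _ _)
    · exact (c4 (inr p) (inr p') (inr_injective.ne g) g').congr (hπ p) (hπ p')
  · rintro ⟨c, π, c1, c2, c3, c4, c5, c6⟩
    refine ⟨Sum.elim (fun d => c d.1.1 d.1.2) π, fun i d h => ?_, ?_, ?_, ?_⟩
    · cases h
      exact Cg.of_eq (c1 i)
    · rintro (d | p) e h g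
      · cases h
        exact c2 _ _ d.2
      · cases g
    · rintro (d | p) e h g
      · exact absurd rfl g
      · obtain ⟨g', rfl⟩ := e3 p e h
        exact c3 p g'
    · rintro (⟨⟨v, u⟩, h⟩ | p) (⟨⟨v', u'⟩, h'⟩ | p') g g'
      · obtain rfl : v = v' := g'
        exact c4 v u u' h h' fun f => g (by subst f; rfl)
      · obtain rfl : v = ow p' := g'
        exact (c5 p' u h).symm
      · obtain rfl : ow p = v' := g'
        exact c5 p u' h'
      · exact c6 p p' (fun f => g (by rw [f])) g'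

/-- The complete graph minus three stars. -/
def stG {Q : Type} (sr : Q → Fin 3) : Q ⊕ Fin 3 → Q ⊕ Fin 3 → Prop
  | inl q, e => Va sr q e
  | inr i, inl q => i ≠ sr q
  | inr i, inr j => j ≠ i

/-- The colours of the block as one table. -/
def stC {Q : Type} (C : Q → Q ⊕ Fin 3 → ℝ) (w : Fin 3 → ℝ) : Q ⊕ Fin 3 → Q ⊕ Fin 3 → ℝ
  | inl q, e => C q e
  | inr i, inl q => C q (inr i)
  | inr i, inr j => w (-(i + j))

lemma card_fil {α : Type} [Fintype α] (p : α → Prop) [DecidablePred p] :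
    Nat.card {a // p a} = (Finset.univ.filter p).card := by
  rw [Nat.card_eq_fintype_card, Fintype.card_subtype]

/-- The capped block is a pole. -/
theorem Prt.real {Q Pt : Type} [Fintype Q] [Fintype Pt] {k : ℕ} {μ : Fin 3 → ℕ} {sr : Q → Fin 3}
    {ow : Pt → Fin 3} {lv : Fin 3 → Pt} {pa : Pt → Pt} (hP : Prt k μ sr ow lv pa) (hk : 5 ≤ k)
    (ho : Odd k) : Real' k (okk k) (Fin 3) true (Full k sr ow lv pa) := by
  classical
  obtain ⟨E, E0, E1, E2⟩ := exists_E1 hk ho
  obtain ⟨A, t, hA⟩ := net_caps (k := k) (stG sr)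
    (by rintro (q | i) (y | j) h <;> first | exact h | exact Ne.symm h)
    (by
      rintro (q | i) (y | j) h
      · exact inl_injective.ne (Ne.symm h)
      · exact inl_ne_inr
      · exact inr_ne_inl
      · exact inr_injective.ne (Ne.symm h))
    (fun p => inr (ow p))
    (by
      rintro (q | i)
      · have a1 : Nat.card {p // (inr (ow p) : Q ⊕ Fin 3) = inl q} = 0 :=
          Nat.card_eq_zero.2 (Or.inl ⟨fun p => by cases p.2⟩)
        rw [a1, card_fil, add_zero, ← card_Sv hP.cq sr q]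
        congr 1
        ext e
        rw [mem_Sv, Finset.mem_filter_univ]
        rfl
      · have a1 : Nat.card {p // (inr (ow p) : Q ⊕ Fin 3) = inr i} + 1 = μ i := by
          rw [← hP.cp i, card_fil]
          simp only [inr.injEq]
        have a2 : Nat.card {j // stG sr (inr i) (inr j)} = 2 := by
          change Nat.card {j // j ≠ i} = 2
          rw [card_fil]
          exact (by decide : ∀ i : Fin 3, (Finset.univ.filter fun j => j ≠ i).card = 2) i
        have a3 : μ i + Nat.card {q // stG sr (inr i) (inl q)} + 1 = k := by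
          change μ i + Nat.card {q // i ≠ sr q} + 1 = k
          rw [← hP.cq, ← hP.cs i, card_fil, ← Finset.card_univ,
            ← Finset.card_filter_add_card_filter_not (s := Finset.univ) fun q => sr q = i]
          simp only [ne_eq, eq_comm (a := i)]
        rw [Nat.card_congr Equiv.subtypeSum, Nat.card_sum]
        omega)
    pa ow lv hP.inv (fun i => (hP.fix _).2 ⟨i, rfl⟩)
    (fun p g => by
      obtain ⟨i, rfl⟩ := (hP.fix p).1 g
      rw [hP.olv])
    hP.olv (fun p g => inr_injective.ne (hP.dif p g)) E0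
  refine ⟨A, fun _ => (t.mono fun i j h => ?_).inj, fun r hr x => (hA r x fun a b h => ?_).trans
    ⟨?_, ?_⟩⟩
  · simpa only [hP.olv, inr.injEq] using h
  · refine E2 r _ ?_
    have := E1 r _ hr.1 hr.2 h
    rw [cd_symm (by linarith [hr.1])]
    exact this
  · rintro ⟨c, π, c1, c2, c3, c4, c5, c6⟩
    have hw : ∀ i j : Fin 3, j ≠ i →
        Cg r (c (inr i) (inr (-(i + j)))) (c (inr (j + 1)) (inr (j + 2))) := by
      intro i j h
      rcases (by revert i j; decide : (i = j + 1 ∧ -(i + j) = j + 2) ∨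
        (i = j + 2 ∧ -(i + j) = j + 1)) with ⟨a, b⟩ | ⟨a, b⟩ <;> rw [b, a]
      · exact Cg.refl _ _
      · exact c2 _ _ ((by decide : ∀ j : Fin 3, j + 1 ≠ j + 2) j)
    have ht : ∀ i j : Fin 3, j ≠ i → stG sr (inr i) (inr (-(i + j))) := by
      change ∀ i j : Fin 3, j ≠ i → -(i + j) ≠ i
      decide
    have hz : ∀ i q, i ≠ sr q → Cg r (c (inr i) (inl q)) (c (inl q) (inr i)) := fun i q h =>
      c2 _ _ h
    refine ⟨fun q => c (inl q), fun j => c (inr (j + 1)) (inr (j + 2)), π,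
      ⟨fun q y h => c2 _ _ h, fun q e e' => c4 (inl q) e e', fun i q y a b g => ?_,
        fun i q j a b => ?_, fun i j g => ?_⟩,
      ⟨fun p q a => ?_, fun p j a => ?_, fun p p' a b => c6 p p' a (congrArg inr b)⟩,
      fun p g => E1 r _ hr.1 hr.2 (c3 p g), c1⟩
    · exact (c4 (inr i) (inl q) (inl y) a b (inl_injective.ne g)).congr (hz i q a) (hz i y b)
    · exact (c4 (inr i) (inl q) _ a (ht i j b) inl_ne_inr).congr (hz i q a) (hw i j b)
    · obtain ⟨a1, a2, a3⟩ : i ≠ -(i + j) ∧ j ≠ -(i + j) ∧ -(-(i + j) + i) ≠ -(-(i + j) + j) := by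
        revert i j
        decide
      exact (c4 (inr (-(i + j))) _ _ (ht _ i a1) (ht _ j a2) (inr_injective.ne a3)).congr
        (hw _ i a1) (hw _ j a2)
    · exact (c5 p (inl q) a).congr (Cg.refl _ _) (hz _ q a)
    · exact (c5 p _ (ht _ j a)).congr (Cg.refl _ _) (hw _ j a)
  · rintro ⟨C, w, π, hB, hC, c3, c1⟩
    refine ⟨stC C w, π, c1, ?_, fun p g => E2 r _ (c3 p g), ?_, ?_,
      fun p p' a b => hC.pp p p' a (inr_injective b)⟩
    · rintro (q | i) (y | j) h
      · exact hB.sym q y h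
      · exact Cg.refl _ _
      · exact Cg.refl _ _
      · exact Cg.of_eq (congrArg (fun l => w (-l)) (add_comm i j))
    · have ht : ∀ i j : Fin 3, j ≠ i → -(i + j) ≠ i := by decide
      rintro (q | i) e e' h h' g
      · exact hB.far q e e' h h' g
      · rcases e with y | j <;> rcases e' with y' | j'
        · exact hB.zqq i y y' h h' fun f => g (congrArg inl f)
        · exact hB.zqw i y _ h (ht i j' h')
        · exact (hB.zqw i y' _ h' (ht i j h)).symm
        · exact hB.zww _ _ fun f => g (congrArg inr (add_left_cancel (neg_injective f)))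
    · have ht : ∀ i j : Fin 3, j ≠ i → -(i + j) ≠ i := by decide
      rintro p (q | j) h
      · exact hC.pq p q h
      · exact hC.pw p _ (ht _ j h)

end Pool.Agent.P.MP_3f5ded_co.UG
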