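import Pool.Agent.P.MP_3f5ded_co.U9Defs
import Pool.Agent.P.MP_3f5ded_co.USPole
import Pool.Agent.P.MP_3f5ded_co.USDes

set_option autoImplicit false

namespace Pool.Agent.P.MP_3f5ded_co.UG

open Sum

/-- Colours for all rounds, with three prescribed values. -/
lemma u9_rounds {r : ℝ} {p q z : ℝ} (h : TL0 9 r 2 2 4 p q z) :
    ∃ T : ℤ → ℝ, (∀ h, T (h + (2 * (9 : ℕ) + 1)) = T h + 2 * r) ∧ (∀ h, T h + 1 ≤ T (h + 1)) ∧
      Cg r (T 18) p ∧ Cg r (T 13) q ∧ Cg r (T 6) z := by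
  obtain ⟨q', z', hq, hz, g2, g0, g1⟩ := h
  push_cast at g2 g0 g1
  obtain ⟨b, hb⟩ : ∃ b : ℤ → ℝ, ∀ m, b m = if m < 7 then p + m else if m < 14 then z' + (m - 7)
      else q' + r + (m - 14) := ⟨_, fun _ => rfl⟩
  refine ⟨fun t => b ((t + 1) % 19) + (((t + 1) / 19 : ℤ) : ℝ) * (2 * r), fun t => ?_,
    fun t => ?_, ?_, ?_, ?_⟩
  · have a : (t + (2 * ((9 : ℕ) : ℤ) + 1) + 1) % 19 = (t + 1) % 19 := by omega
    have c : (t + (2 * ((9 : ℕ) : ℤ) + 1) + 1) / 19 = (t + 1) / 19 + 1 := by omega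
    simp only [a, c]
    push_cast
    ring
  · rcases (show ((t + 1) % 19 = 18 ∧ (t + 1 + 1) % 19 = 0 ∧
        (t + 1 + 1) / 19 = (t + 1) / 19 + 1) ∨ ((t + 1) % 19 < 18 ∧
        (t + 1 + 1) % 19 = (t + 1) % 19 + 1 ∧ (t + 1 + 1) / 19 = (t + 1) / 19) by omega) with
      ⟨a, c, d⟩ | ⟨a, c, d⟩
    · simp only [a, c, d, hb]
      norm_num
      linarith
    · have e : 0 ≤ (t + 1) % 19 := by omega
      simp only [c, d]
      generalize (t + 1) % 19 = m at a e
      have : b m + 1 ≤ b (m + 1) := by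
        interval_cases m <;> simp only [hb] <;> norm_num <;> linarith
      linarith
  · exact ⟨2, by simp [hb]⟩
  · refine Cg.trans ⟨1, ?_⟩ hq.symm
    simp [hb]
  · refine Cg.trans ⟨0, ?_⟩ hz.symm
    simp [hb]

namespace B9

/-- The rounds of the edges. -/
def D : Fin 11 → Fin 11 → ℤ :=
  ![![0, 0, 1, 6, 8, 3, 5, 2, 4, 7, 9],
    ![0, 0, 15, 11, 14, 16, 10, 17, 18, 12, 13],
    ![1, 15, 0, 0, 16, 17, 2, 18, 0, 13, 14],
    ![6, 11, 0, 0, 9, 4, 7, 3, 5, 8, 10],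
    ![8, 14, 16, 9, 0, 15, 0, 0, 0, 10, 12],
    ![3, 16, 17, 4, 15, 0, 0, 0, 2, 0, 0],
    ![5, 10, 2, 7, 0, 0, 0, 4, 3, 9, 8],
    ![2, 17, 18, 3, 0, 0, 4, 0, 1, 5, 6],
    ![4, 18, 0, 5, 0, 2, 3, 1, 0, 6, 7],
    ![7, 12, 13, 8, 10, 0, 9, 5, 6, 0, 11],
    ![9, 13, 14, 10, 12, 0, 8, 6, 7, 11, 0]]

/-- The rounds of the ports. -/
def L : Fin 5 → ℤ := ![18, 13, 6, 1, 11]

instance (a b : ℤ) : Decidable (Ap 9 a b) := by unfold Ap; infer_instance

lemma D_sym : ∀ u v, D u v = D v u := by decide +kernel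

lemma D_far : ∀ v u u', G v u → G v u' → u ≠ u' → Ap 9 (D v u) (D v u') := by decide +kernel

lemma D_pf : ∀ p u, G (ow p) u → Ap 9 (L p) (D (ow p) u) := by decide +kernel

lemma D_pp : ∀ p p', p ≠ p' → ow p = ow p' → Ap 9 (L p) (L p') := by decide +kernel

/-- Colourings of the capped block with live ports `x`. -/
def Ful (r : ℝ) (x : Fin 3 → ℝ) : Prop :=
  ∃ c π, Cl r c π ∧ cd r (π 3) (π 4) ≤ r - 9 ∧ π 0 = x 0 ∧ π 1 = x 1 ∧ π 2 = x 2

lemma ful_one {r : ℝ} (hr : r < 10) {x : Fin 3 → ℝ} (h : TL0 9 r 2 2 4 (x 0) (x 1) (x 2)) :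
    Ful r x := by
  obtain ⟨T, hp, hs, t0, t1, t2⟩ := u9_rounds h
  have hr' : r < ((9 : ℕ) : ℝ) + 1 := by push_cast; linarith
  have f : ∀ {a b : ℤ}, Ap 9 a b → Far r (T a) (T b) := fun h => usdes_far hp hs hr' h
  have h1 : ∀ p, Cg r (T (L p)) ((![x 0, x 1, x 2, T 1, T 11] : Fin 5 → ℝ) p) := fun p => by
    fin_cases p
    exacts [t0, t1, t2, Cg.refl _ _, Cg.refl _ _]
  refine ⟨fun u v => T (D u v), ![x 0, x 1, x 2, T 1, T 11],
    ⟨fun u v _ => Cg.of_eq (congrArg T (D_sym u v)), fun v u u' a b c => f (D_far v u u' a b c),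
      fun p u a => (f (D_pf p u a)).congr (h1 p) (Cg.refl _ _),
      fun p p' a b => (f (D_pp p p' a b)).congr (h1 p) (h1 p')⟩, ?_, rfl, rfl, rfl⟩
  have := (usdes_cap hp hs hr' (a := 1) (b := 11) (Or.inl (by decide))).2
  push_cast at this
  exact this

lemma ful_neg {r : ℝ} {x : Fin 3 → ℝ} (h0 : 0 < r) (h : Ful r fun i => -x i) : Ful r x := by
  obtain ⟨c, π, h1, h3, a0, a1, a2⟩ := h
  refine ⟨fun u v => -c u v, fun p => -π p, ⟨fun u v a => (h1.sym u v a).neg,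
    fun v u u' a b e => (h1.far v u u' a b e).neg, fun p u a => (h1.pf p u a).neg,
    fun p p' a b => (h1.pp p p' a b).neg⟩, ?_, by simp [a0], by simp [a1], by simp [a2]⟩
  obtain ⟨u, hu, e⟩ := cd_lift r (π 3) (π 4)
  refine (cd_le_of (u := -u) h0 (hu.neg.trans (Cg.of_eq (by ring)))).trans ?_
  rw [abs_neg, e]
  exact h3

/-- The design gives colourings for all port colours allowed by the port relation. -/
theorem ful {r : ℝ} (h0 : 0 < r) (hr : r < 10) {x : Fin 3 → ℝ} (h : TL 9 ![2, 2, 4] r x) :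
    Ful r x := by
  rcases h with h | h
  · exact ful_one hr (by simpa using h)
  · obtain ⟨q', z', hq, hz, g2, g0, g1⟩ : TL0 9 r 2 4 2 (x 0) (x 2) (x 1) := by simpa using h
    exact ful_neg h0 (ful_one hr ⟨-z' + r, -q' + r,
      hz.neg.trans (Cg.down (by ring)), hq.neg.trans (Cg.down (by ring)), by linarith,
      by linarith, by linarith⟩)

/-- The caps. -/
def pa : Fin 5 → Fin 5 := ![0, 1, 2, 4, 3]

/-- The live ports. -/
def lv : Fin 3 → Fin 5 := ![0, 1, 2]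

/-- The capped block is a pole. -/
theorem real_ful : Real' 9 (okk 9) (Fin 3) true Ful := by
  obtain ⟨E, E0, E1, E2⟩ := exists_E1 (k := 9) (by omega) (by decide)
  obtain ⟨A, t, hA⟩ := net_caps (k := 9) G (by decide +kernel) (by decide +kernel) ow
    (fun v => by
      rw [card_fil, card_fil]
      revert v
      decide +kernel)
    pa ![0, 1, 2, 0, 0] lv (by decide) (by decide) (by decide) (by decide) (by decide) E0
  refine ⟨A, fun _ => (t.mono fun i j h => ?_).inj, fun r hr x => (hA r x fun a b h => ?_).trans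
    ⟨?_, ?_⟩⟩
  · revert i j
    decide
  · refine E2 r _ ?_
    have := E1 r _ hr.1 hr.2 h
    rw [cd_symm (by linarith [hr.1])]
    exact this
  · rintro ⟨c, π, c1, c2, c3, c4, c5, c6⟩
    have := E1 r _ hr.1 hr.2 (c3 3 (by decide))
    push_cast at this
    exact ⟨c, π, ⟨c2, c4, c5, c6⟩, this, c1 0, c1 1, c1 2⟩
  · rintro ⟨c, π, h, h3, a0, a1, a2⟩
    refine ⟨c, π, fun i => ?_, h.sym, fun p g => E2 r _ ?_, h.far, h.pf, h.pp⟩
    · fin_cases i
      exacts [a0, a1, a2]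
    · have g' : p = 3 ∨ p = 4 := by
        revert p
        decide
      push_cast
      rcases g' with rfl | rfl
      · exact h3
      · rw [cd_symm (by linarith [hr.1])] at h3
        exact h3

/-- A rigid block has the exact port relation. -/
theorem Rigid.real (h : Rigid) :
    Real' 9 (okk 9) (Fin 3) true (fun r x => TL 9 ![2, 2, 4] r x) := by
  refine real_ful.congr fun r hr x => ⟨?_, ful (by linarith [hr.1]) ?_⟩
  · rintro ⟨c, π, h1, h3, a0, a1, a2⟩
    have hr2 : r < 10 := by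
      have := hr.2
      push_cast at this
      linarith
    have := h r c π hr.1 hr2 h1 h3
    rw [a0, a1, a2] at this
    exact this
  · have := hr.2
    push_cast at this
    linarith

end B9

end Pool.Agent.P.MP_3f5ded_co.UG
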