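import Pool.Agent.P.MP_3f5ded_co.U9Blk
import Pool.Agent.P.MP_3f5ded_co.USChain

set_option autoImplicit false

namespace Pool.Agent.P.MP_3f5ded_co.UG

open Sum

namespace B9

/-- Three points with one long gap and two short gaps. -/
def T9 (r p q z : ℝ) : Prop := TA r (r - 5) (r - 7) p q z

lemma T9.far {r p q z : ℝ} (hr : r < 10) (h : T9 r p q z) : 2 * r - 19 < cd r p q := by
  obtain ⟨e, a, b, c, he, h0, ha, hb, hc, h4, -, -⟩ := h
  have := le_cd_sgn (m := 14 - r) (by linarith) he h4 (by linarith) (by linarith)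
  linarith

/-- Two blocks that share the ports on the long gap. -/
lemma T9.two {r p q z z' : ℝ} (hr : r < 10) (h : T9 r p q z) (h' : T9 r p q z') :
    cd r z z' ≤ 2 * r - 19 := by
  obtain ⟨e, a, b, c, he, h0, ha, hb, hc, ⟨n, hn⟩, ⟨m, hm⟩, -⟩ := h
  obtain ⟨e', a', b', c', he', h0', ha', hb', hc', ⟨n', hn'⟩, ⟨m', hm'⟩, -⟩ := h'
  have hr0 : 0 < r := by linarith
  have hee : e' = e := by
    rcases he with rfl | rfl <;> rcases he' with rfl | rfl <;> try rfl
    all_goals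
      exfalso
      push_cast at hn hn'
      rcases int_mul_five hr0 (n - n') with h | h | h | h | h <;> push_cast at h <;> linarith
  subst hee
  refine (cd_le_sgn (u := b' - b) hr0 he ⟨m' - m, by push_cast; linarith⟩).trans
    (abs_le.2 ⟨by linarith, by linarith⟩)

lemma sq_fin {r x0 x1 x2 x3 u v : ℝ} {e e' : ℤ} (hr : 0 < r) (he : e = 1 ∨ e = -1)
    (he' : e' = 1 ∨ e' = -1) (d1 : Cg r x0 (x1 + e * u)) (d2 : Cg r x2 (x3 + e' * v))
    (v0 : 0 ≤ v) (v1 : v ≤ 3 * r - 26) (v2 : v ≤ u + (4 * r - 40))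
    (v3 : v ≤ r - u + (4 * r - 40)) (v4 : r - 7 ≤ u + (4 * r - 40))
    (v5 : r - 7 ≤ r - u + (4 * r - 40)) :
    cd r x2 x3 ≤ r - 7 + (2 * r - 19) ∧ cd r x2 x3 ≤ cd r x0 x1 + (4 * r - 40) ∧
      r - 7 ≤ cd r x0 x1 + (4 * r - 40) := by
  have d3 := cd_le_sgn hr he' d2
  rw [abs_of_nonneg v0] at d3
  have d4 := le_cd_sgn (m := v - (4 * r - 40)) hr he d1 (by linarith) (by linarith)
  have d5 := le_cd_sgn (m := r - 7 - (4 * r - 40)) hr he d1 (by linarith) (by linarith)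
  rw [cd_symm hr x2, cd_symm hr x0]
  exact ⟨by linarith, by linarith, by linarith⟩

/-- Signs around the square. -/
lemma sq_sg {r : ℝ} (hr : r < 10) (hr' : 19 ≤ 2 * r) {e0 e1 e2 e3 : ℤ} {a0 a3 c1 c2 : ℝ} (n : ℤ)
    (s0 : e0 = 1 ∨ e0 = -1) (s1 : e1 = 1 ∨ e1 = -1) (s2 : e2 = 1 ∨ e2 = -1)
    (s3 : e3 = 1 ∨ e3 = -1) (l0 : 14 - r ≤ a0) (u0 : a0 ≤ r - 5) (l3 : 14 - r ≤ a3)
    (u3 : a3 ≤ r - 5) (l1 : 12 - r ≤ c1) (u1 : c1 ≤ r - 7) (l2 : 12 - r ≤ c2) (u2 : c2 ≤ r - 7)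
    (hs : e0 * a0 + e1 * c1 + e3 * a3 - e2 * c2 = n * r) :
    e2 = e1 ∧ ((e3 = -e0 ∧ e0 * a0 + e1 * c1 + e3 * a3 - e2 * c2 = 0) ∨
      (e3 = e0 ∧ e0 * a0 + e1 * c1 + e3 * a3 - e2 * c2 = e0 * r)) := by
  have h0 : 0 < r := by linarith
  rcases s0 with rfl | rfl <;> rcases s1 with rfl | rfl <;> rcases s2 with rfl | rfl <;>
    rcases s3 with rfl | rfl <;> push_cast at hs <;>
    rcases int_mul_five h0 n with h | h | h | h | h <;>
    first
      | (exfalso; linarith)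
      | exact ⟨rfl, Or.inl ⟨rfl, by push_cast; linarith⟩⟩
      | exact ⟨rfl, Or.inr ⟨rfl, by push_cast; linarith⟩⟩

/-- The square moves a distance by a fixed drift. -/
lemma sq_low {r : ℝ} (hr : r < 10) (w : Fin 8 → ℝ) (t0 : T9 r (w 4) (w 5) (w 2))
    (t1 : T9 r (w 4) (w 1) (w 6)) (t2 : T9 r (w 5) (w 0) (w 7)) (t3 : T9 r (w 7) (w 6) (w 3)) :
    cd r (w 2) (w 3) ≤ r - 7 + (2 * r - 19) ∧
      cd r (w 2) (w 3) ≤ cd r (w 0) (w 1) + (4 * r - 40) ∧
      r - 7 ≤ cd r (w 0) (w 1) + (4 * r - 40) := by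
  obtain ⟨e0, a0, b0, c0, s0, z0, ha0, hb0, hc0, ⟨na0, pa0⟩, -, ⟨nc0, pc0⟩⟩ := t0
  obtain ⟨e1, a1, b1, c1, s1, z1, ha1, hb1, hc1, ⟨na1, pa1⟩, -, ⟨nc1, pc1⟩⟩ := t1
  obtain ⟨e2, a2, b2, c2, s2, z2, ha2, hb2, hc2, ⟨na2, pa2⟩, -, ⟨nc2, pc2⟩⟩ := t2
  obtain ⟨e3, a3, b3, c3, s3, z3, ha3, hb3, hc3, ⟨na3, pa3⟩, -, ⟨nc3, pc3⟩⟩ := t3
  have h0 : 0 < r := by linarith
  obtain ⟨rfl, g⟩ := sq_sg hr (by linarith) (a0 := a0) (a3 := a3) (c1 := c1) (c2 := c2)
    (nc2 - na0 - nc1 - na3) s0 s1 s2 s3 (by linarith) ha0 (by linarith) ha3 (by linarith) hc1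
    (by linarith) hc2 (by push_cast; linarith)
  have d1 : Cg r (w 0) (w 1 + e0 * (a0 + e0 * e2 * (a2 - a1))) := by
    refine ⟨na0 + na2 - na1, ?_⟩
    rcases s0 with rfl | rfl <;> push_cast at pa0 pa1 pa2 ⊢ <;> linarith
  have d2 : w 2 = w 3 + (e2 * c1 - e0 * c0 + e3 * (r - b3)) +
      ((nc1 + na3 + nc3 - nc0 : ℤ) : ℝ) * r := by
    have : r - b3 = a3 + c3 := by linarith
    rw [this]
    push_cast
    linarith
  clear pa0 pc0 pa1 pc1 pa2 pc2 pa3 pc3
  generalize nc1 + na3 + nc3 - nc0 = n at d2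
  rcases g with ⟨rfl, g⟩ | ⟨rfl, g⟩
  · rcases s0 with rfl | rfl <;> rcases s1 with rfl | rfl <;> push_cast at g d2
    · exact sq_fin (v := c1 + b3 - c0) h0 (Or.inl rfl) (Or.inl rfl) d1
        ⟨n - 1, by push_cast; linarith⟩ (by linarith) (by linarith) (by push_cast; linarith)
        (by push_cast; linarith) (by push_cast; linarith) (by push_cast; linarith)
    · exact sq_fin (v := c0 + c1 - b3) h0 (Or.inl rfl) (Or.inr rfl) d1
        ⟨n - 1, by push_cast; linarith⟩ (by linarith) (by linarith) (by push_cast; linarith)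
        (by push_cast; linarith) (by push_cast; linarith) (by push_cast; linarith)
    · exact sq_fin (v := c0 + c1 - b3) h0 (Or.inr rfl) (Or.inl rfl) d1
        ⟨n + 1, by push_cast; linarith⟩ (by linarith) (by linarith) (by push_cast; linarith)
        (by push_cast; linarith) (by push_cast; linarith) (by push_cast; linarith)
    · exact sq_fin (v := c1 + b3 - c0) h0 (Or.inr rfl) (Or.inr rfl) d1
        ⟨n + 1, by push_cast; linarith⟩ (by linarith) (by linarith) (by push_cast; linarith)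
        (by push_cast; linarith) (by push_cast; linarith) (by push_cast; linarith)
  · rcases s0 with rfl | rfl <;> rcases s1 with rfl | rfl <;> push_cast at g d2
    · exact sq_fin (v := c0 + b3 - c1) h0 (Or.inl rfl) (Or.inr rfl) d1
        ⟨n + 1, by push_cast; linarith⟩ (by linarith) (by linarith) (by push_cast; linarith)
        (by push_cast; linarith) (by push_cast; linarith) (by push_cast; linarith)
    · exact sq_fin (v := r - (c0 + c1 + b3)) h0 (Or.inl rfl) (Or.inl rfl) d1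
        ⟨n, by push_cast; linarith⟩ (by linarith) (by linarith) (by push_cast; linarith)
        (by push_cast; linarith) (by push_cast; linarith) (by push_cast; linarith)
    · exact sq_fin (v := r - (c0 + c1 + b3)) h0 (Or.inr rfl) (Or.inr rfl) d1
        ⟨n, by push_cast; linarith⟩ (by linarith) (by linarith) (by push_cast; linarith)
        (by push_cast; linarith) (by push_cast; linarith) (by push_cast; linarith)
    · exact sq_fin (v := c0 + b3 - c1) h0 (Or.inr rfl) (Or.inl rfl) d1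
        ⟨n - 1, by push_cast; linarith⟩ (by linarith) (by linarith) (by push_cast; linarith)
        (by push_cast; linarith) (by push_cast; linarith) (by push_cast; linarith)

/-- The drift of the square is attained. -/
lemma sq_up {r v : ℝ} (h1 : r - 7 ≤ v) (h2 : v ≤ r - 7 + (2 * r - 19)) (c : ℝ) :
    ∃ w : Fin 8 → ℝ, w 1 = w 0 - (v - (4 * r - 40)) ∧ w 2 = c + v ∧ w 3 = c ∧
      T9 r (w 4) (w 5) (w 2) ∧ T9 r (w 4) (w 1) (w 6) ∧ T9 r (w 5) (w 0) (w 7) ∧
      T9 r (w 7) (w 6) (w 3) := by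
  refine ⟨![c + v + 21 - r, c + 3 * r - 19, c + v, c, c + 2 * r - 14, c + v + 7,
    c + r - 7, c + v + 14 - r], ?_, rfl, rfl, ?_, ?_, ?_, ?_⟩
  · change c + 3 * r - 19 = c + v + 21 - r - _
    ring
  · change T9 r (c + 2 * r - 14) (c + v + 7) (c + v)
    refine TA.intro 0 1 0 (by decide) ?_ ?_ ?_ <;> push_cast <;> linarith
  · change T9 r (c + 2 * r - 14) (c + 3 * r - 19) (c + r - 7)
    refine TA.intro 0 1 0 (by decide) ?_ ?_ ?_ <;> push_cast <;> linarith
  · change T9 r (c + v + 7) (c + v + 21 - r) (c + v + 14 - r)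
    refine TA.intro 0 1 0 (by decide) ?_ ?_ ?_ <;> push_cast <;> linarith
  · change T9 r (c + v + 14 - r) (c + r - 7) c
    exact ⟨-1, 21 - 2 * r + v, r - 7, 2 * r - 14 - v, Or.inr rfl, by ring, by linarith, le_rfl,
      by linarith, ⟨0, by push_cast; ring⟩, ⟨0, by push_cast; ring⟩, ⟨1, by push_cast; ring⟩⟩

/-- The edges of the square. -/
def edg : (Fin 4 × Fin 3) ⊕ Fin 4 → Fin 8
  | inl p => ![![4, 5, 2], ![4, 1, 6], ![5, 0, 7], ![7, 6, 3]] p.1 p.2
  | inr j => ![0, 1, 2, 3] j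

/-- The wires of the square. -/
def wi : (Fin 4 × Fin 3) ⊕ Fin 4 → (Fin 4 × Fin 3) ⊕ Fin 4
  | inl p => ![![inl (1, 0), inl (2, 0), inr 2], ![inl (0, 0), inr 1, inl (3, 1)],
      ![inl (0, 1), inr 0, inl (3, 0)], ![inl (2, 2), inl (1, 2), inr 3]] p.1 p.2
  | inr j => ![inl (2, 1), inl (1, 1), inl (0, 2), inl (3, 2)] j

lemma lt_ten {r : ℝ} (h : okk 9 r) : r < 10 := by
  have := h.2
  push_cast at this
  linarith

section

variable (hT : Real' 9 (okk 9) (Fin 3) true (fun r x => T9 r (x 0) (x 1) (x 2)))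

include hT

/-- The digon of two blocks is an elastic wire. -/
theorem real_dig : ∃ R, Real' 9 (okk 9) (Fin 2) true R ∧
    (∀ r x, okk 9 r → R r x → cd r (x 0) (x 1) ≤ 2 * r - 19) ∧
    ∀ r x, okk 9 r → cd r (x 0) (x 1) ≤ 2 * r - 19 → R r x := by
  have hR := netU hT wD (by decide) (by decide) (by decide) edgD
    ![inr 0, inr 1, inl (0, 0), inl (0, 1)] (by decide) (by decide) (by decide)
  refine ⟨_, hR, ?_, fun r x hr h => ?_⟩
  · rintro r x hr ⟨w, a1, a2⟩
    rw [← a1, ← a1]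
    exact T9.two (lt_ten hr) (a2 0) (a2 1)
  · obtain ⟨p, q, z, a1, a2, a3⟩ := TA.ex_two (A := r - 5) (B := r - 7) (h.trans_eq (by ring))
    refine hR.cg hr (x := ![x 0, z]) ⟨![x 0, z, p, q], fun j => ?_, fun l => ?_⟩ fun j => ?_
    · fin_cases j <;> rfl
    · fin_cases l
      exacts [a2, a3]
    · fin_cases j
      exacts [Cg.refl _ _, a1]

/-- The square of four blocks. -/
theorem real_sq : ∃ R, Real' 9 (okk 9) (Fin 4) true R ∧
    (∀ r x, okk 9 r → R r x → cd r (x 2) (x 3) ≤ r - 7 + (2 * r - 19) ∧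
      cd r (x 2) (x 3) ≤ cd r (x 0) (x 1) + (4 * r - 40) ∧
      r - 7 ≤ cd r (x 0) (x 1) + (4 * r - 40)) ∧
    ∀ r v c, r - 7 ≤ v → v ≤ r - 7 + (2 * r - 19) →
      ∃ a, R r ![a, a - (v - (4 * r - 40)), c + v, c] := by
  refine ⟨_, netU hT wi (by decide) (by decide) (by decide) edg
    ![inr 0, inr 1, inr 2, inr 3, inl (0, 0), inl (0, 1), inl (1, 2), inl (2, 2)] (by decide)
    (by decide) (by decide), ?_, ?_⟩
  · rintro r x hr ⟨w, a1, a2⟩
    rw [← a1, ← a1, ← a1, ← a1]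
    exact sq_low (lt_ten hr) w (a2 0) (a2 1) (a2 2) (a2 3)
  · intro r v c a1 a2
    obtain ⟨w, b1, b2, b3, t0, t1, t2, t3⟩ := sq_up a1 a2 c
    refine ⟨w 0, w, fun p => ?_, fun l => ?_⟩
    · fin_cases p
      exacts [rfl, b1, b2, b3]
    · fin_cases l
      exacts [t0, t1, t2, t3]

/-- A closed pole that is never colourable. -/
theorem real_nev : ∃ R, Real' 9 (okk 9) (Fin 0) true R ∧ ∀ r x, okk 9 r → ¬ R r x := by
  obtain ⟨E, hE, E1, -⟩ := real_dig hT
  refine ⟨_, (hE.cap (netU hT wH (by decide) (by decide) (by decide) edgH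
    ![inr 0, inr 1, inr 2, inr 3, inl (0, 2)] (by decide) (by decide) (by decide))).clo hE, ?_⟩
  rintro r x hr ⟨y, ⟨a, b, -, w, a1, a2⟩, a3⟩
  have e0 : w 2 = y 0 := a1 2
  have e1 : w 3 = y 1 := a1 3
  have b1 := E1 r y hr a3
  rw [← e0, ← e1] at b1
  have b3 : 2 * r - 19 < cd r (w 2) (w 3) := T9.far (lt_ten hr) (a2 1)
  linarith

/-- A closed pole that is colourable at `x` and not below. -/
theorem closed (x : ℚ) (h1 : (19 : ℚ) / 2 < x) (h2 : x < 10) :
    ∃ R, Real' 9 (okk 9) (Fin 0) true R ∧ (∀ y, R x y) ∧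
      ∀ (r : ℝ) y, okk 9 r → r < x → ¬ R r y := by
  have h1' : (19 : ℝ) / 2 < x := by
    have := (Rat.cast_lt (K := ℝ)).2 h1
    push_cast at this
    exact this
  have h2' : (x : ℝ) < 10 := by exact_mod_cast h2
  have hok : okk 9 x := ⟨by linarith, by push_cast; linarith⟩
  have hpos : ∀ r : ℝ, okk 9 r → 0 < r := fun r hr => by linarith [hr.1]
  obtain ⟨E, hE, E1, E2⟩ := real_dig hT
  obtain ⟨I, hI, I1, I2⟩ := real_sq hT
  obtain ⟨L, N, hL, hN, hq⟩ := exists_ratio (α := 40 - 4 * x) (β := 2 * x - 19) (by linarith)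
    (by linarith)
  refine exists_drift (s := fun r => 2 * r - 19) (κ := fun r => 4 * r - 40) (β := fun r => r - 7)
    hE hI hpos hok (by linarith) E1 (fun y => E2 x y hok) I1 (I2 x) L N hL hN ?_ ?_
  · push_cast at hq
    linarith
  · intro r _ hr
    constructor <;> linarith

end

/-- With a rigid block, the values for the degree nine are all rationals in `[9, 10]`. -/
theorem iff_nine (h : Rigid) (x : ℝ) :
    (∃ (n : ℕ) (G : SimpleGraph (Fin n)) (_ : DecidableRel G.Adj), 0 < n ∧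
      G.IsRegularOfDegree 9 ∧ sInf {r : ℝ | 1 ≤ r ∧ Col G r} = x) ↔
      ∃ q : ℚ, x = q ∧ (9 : ℚ) ≤ q ∧ q ≤ 10 := by
  have hT : Real' 9 (okk 9) (Fin 3) true (fun r x => T9 r (x 0) (x 1) (x 2)) :=
    h.real.congr fun r _ x => (TL_iff (k := 9) (a := 4) (M := 2)).trans (by
      unfold T9
      push_cast
      rw [show 4 + (r - 9) = r - 5 by ring, show 2 + (r - 9) = r - 7 by ring])
  constructor
  · rintro ⟨n, G, dec, hn, hreg, rfl⟩
    obtain ⟨q, a, b, c⟩ := value_mem G hn hreg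
    exact ⟨q, a, by exact_mod_cast b, by push_cast at c; linarith⟩
  · rintro ⟨q, rfl, h1, h2⟩
    have h1' : (9 : ℝ) ≤ q := by exact_mod_cast h1
    have key : ∃ (n : ℕ) (G : SimpleGraph (Fin n)) (_ : DecidableRel G.Adj),
        G.IsRegularOfDegree 9 ∧ IsLeast {r : ℝ | 1 ≤ r ∧ Col G r} (q : ℝ) := by
      rcases le_or_gt q (19 / 2) with h3 | h3
      · exact main_lower (k := 9) (by omega) q (by exact_mod_cast h1) (by push_cast; linarith)
      rcases h2.eq_or_lt with rfl | h2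
      · obtain ⟨R, hR, a1⟩ := real_nev hT
        have := end_high_of hR one_pos (by norm_num) (fun r b1 b2 => ⟨b1, b2⟩) a1
        norm_num at this ⊢
        exact this
      · obtain ⟨R, hR, a1, a2⟩ := closed hT q h3 h2
        have h2' : (q : ℝ) < 10 := by exact_mod_cast h2
        exact least_of_closed hR le_rfl (by linarith)
          (fun r b1 b2 => ⟨b1, by push_cast; linarith⟩) a1
          (fun r y b1 b2 => a2 r y ⟨b1, by push_cast; linarith⟩ b2) (Or.inr rfl)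
    obtain ⟨n, G, dec, hreg, hl⟩ := key
    exact ⟨n, G, dec, pos_of_value G (by linarith) hl, hreg, hl.csInf_eq⟩

end B9

end Pool.Agent.P.MP_3f5ded_co.UG
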