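import Pool.Agent.P.MP_3f5ded_co.UEDefs

set_option autoImplicit false

namespace Pool.Agent.P.MP_3f5ded_co.UG

/-- The monotone part of a frame grows by at most `r - k` over a period. -/
lemma Fr.up' {k : ℕ} {r : ℝ} {f : ℤ → ℝ} (h : Fr k r f) {i j : ℤ} (hj : j ≤ i + k) :
    f j - j ≤ f i - i + (r - k) := by
  have := h.upper hj
  linarith

/-- A short link between different labels makes one frame lead at both labels. -/
lemma uec_lead {k : ℕ} {r ρ : ℝ} {f g : ℤ → ℝ} (hf : Fr k r f) (hg : Fr k r g) {i j : ℤ}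
    (h : cd r (f i) (g j) ≤ ρ) (hi : 0 ≤ i) (hi' : i < k) (hj : 0 ≤ j) (hj' : j < k)
    (hij : i ≠ j) : (g i + (1 - ρ) ≤ f i ∧ g j + (1 - ρ) ≤ f j) ∨
      (f i + (1 - ρ) ≤ g i ∧ f j + (1 - ρ) ≤ g j) := by
  obtain ⟨u, ⟨n, hu⟩, e⟩ := cd_lift r (f i) (g j)
  have h3 := abs_le.1 (e.le.trans h)
  have e1 := hg.perZ j (-n)
  have e2 := hf.perZ j (-n)
  have hne : j + -n * k ≠ i := by
    intro e3
    rcases lt_trichotomy n 0 with c | c | c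
    · have : 1 * (k : ℤ) ≤ (-n) * k := mul_le_mul_of_nonneg_right (by omega) (by omega)
      omega
    · subst c
      omega
    · have : (-n) * k ≤ -1 * k := mul_le_mul_of_nonneg_right (by omega) (by omega)
      omega
  generalize j + -n * k = j' at e1 e2 hne
  push_cast at e1 e2
  rcases lt_or_gt_of_ne hne with c | c
  · have a1 := hf.mono c.le
    have a2 := hg.mono c.le
    have a3 : (j' : ℝ) + 1 ≤ i := by exact_mod_cast c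
    exact Or.inr ⟨by linarith [h3.1], by linarith [h3.1]⟩
  · have a1 := hf.mono c.le
    have a2 := hg.mono c.le
    have a3 : (i : ℝ) + 1 ≤ j' := by exact_mod_cast c
    exact Or.inl ⟨by linarith [h3.2], by linarith [h3.2]⟩

/-- The two frames cannot both lead. -/
lemma uec_one {k : ℕ} {r lam : ℝ} {f g : ℤ → ℝ} (hf : Fr k r f) (hg : Fr k r g)
    (hl : r - k < lam) {j : ℤ} (hj : 0 ≤ j) (hj' : j < k) (h1 : g 0 + lam ≤ f 0)
    (h2 : f j + lam ≤ g j) : False := by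
  have a1 := hf.mono' hj
  have a2 := hg.up' (i := 0) (j := j) (by omega)
  have a3 := hf.eps_nonneg
  push_cast at a1 a2
  linarith

lemma uec_int {A1 A2 B1 B2 a b : ℤ}
    (n1 : A1 ≠ A2 ∧ B1 ≠ B2 ∧ A1 ≠ B1 ∧ A1 ≠ B2 ∧ A2 ≠ B1 ∧ A2 ≠ B2) (c1 : B1 < A1) (c2 : B2 < A2)
    (hb : b = B1 ∨ b = B2) (ha : a = A1 ∨ a = A2) (hb1 : b ≤ B1) (hb2 : b ≤ B2) (ha1 : A1 ≤ a)
    (ha2 : A2 ≤ a) (mid : ∀ l, b < l → l < a → l = A1 ∨ l = A2 ∨ l = B1 ∨ l = B2) : a = b + 3 := by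
  have g0 : b + 3 ≤ a := by omega
  refine le_antisymm (not_lt.1 fun c => ?_) g0
  have g1 := mid (b + 1) (by omega) (by omega)
  have g2 := mid (b + 2) (by omega) (by omega)
  have g3 := mid (b + 3) (by omega) c
  clear mid n1 hb1 hb2 ha1 ha2 c1 c2 g0
  omega

/-- The order of the four special labels. -/
lemma uec_core {k : ℕ} {r lam : ℝ} {fv fw f1 f2 f3 f4 : ℤ → ℝ} (hv : Fr k r fv) (hw : Fr k r fw)
    (h1 : Fr k r f1) (h2 : Fr k r f2) (h3 : Fr k r f3) (h4 : Fr k r f4) (hl : r - k < lam)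
    {A1 A2 B1 B2 A3 B4 t3 t4 : ℤ} (a1 : 0 < A1 ∧ A1 < k) (a2 : 0 < A2 ∧ A2 < k)
    (b1 : 0 < B1 ∧ B1 < k) (b2 : 0 < B2 ∧ B2 < k) (a3 : 0 ≤ A3 ∧ A3 < k) (b4 : 0 ≤ B4 ∧ B4 < k)
    (n1 : A1 ≠ A2 ∧ B1 ≠ B2 ∧ A1 ≠ B1 ∧ A1 ≠ B2 ∧ A2 ≠ B1 ∧ A2 ≠ B2)
    (n2 : A3 ≠ A1 ∧ A3 ≠ A2 ∧ A3 ≠ B1 ∧ A3 ≠ B2) (n3 : B4 ≠ A1 ∧ B4 ≠ A2 ∧ B4 ≠ B1 ∧ B4 ≠ B2)
    (m3 : t3 = A2 ∨ t3 = B2) (m4 : t4 = A2 ∨ t4 = B2) (p0 : f1 0 = f2 0) (p1 : fv A1 = f1 A1)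
    (p2 : fv A2 = f2 A2) (q1 : fw B1 = f1 B1) (q2 : fw B2 = f2 B2) (p3 : fv A3 = f3 A3)
    (q4 : fw B4 = f4 B4) (s3 : f1 t3 = f3 t3) (s4 : f1 t4 = f4 t4)
    (hL : ∀ l : ℤ, 0 ≤ l → l < k → l ≠ A1 → l ≠ A2 → l ≠ B1 → l ≠ B2 → fw l + lam ≤ fv l) :
    ∃ b : ℤ, ((B1 = b ∧ B2 = b + 1) ∨ (B2 = b ∧ B1 = b + 1)) ∧
      ((A1 = b + 2 ∧ A2 = b + 3) ∨ (A2 = b + 2 ∧ A1 = b + 3)) ∧
      LD (r - k) (lam - (r - k)) (fv b) (fv (b + 1)) (fw (b + 2)) (fw (b + 3)) := by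
  have l0 := hL 0 le_rfl (a1.1.trans a1.2) a1.1.ne a2.1.ne b1.1.ne b2.1.ne
  have g3 := hL B4 b4.1 b4.2 n3.1 n3.2.1 n3.2.2.1 n3.2.2.2
  have g3' := hL A3 a3.1 a3.2 n2.1 n2.2.1 n2.2.2.1 n2.2.2.2
  have c1 : B1 < A1 := by
    by_contra c
    have := hv.mono' a1.1.le
    have := h1.mono' (not_lt.1 c)
    have := hw.up' (i := 0) (j := B1) (by linarith [b1.2])
    linarith
  have c2 : B2 < A2 := by
    by_contra c
    have := hv.mono' a2.1.le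
    have := h2.mono' (not_lt.1 c)
    have := hw.up' (i := 0) (j := B2) (by linarith [b2.2])
    linarith
  have u1 := h1.up' (i := 0) (j := A1) (by linarith [a1.2])
  have u2 := h2.up' (i := 0) (j := A2) (by linarith [a2.2])
  have u3 := h1.mono' b1.1.le
  have u4 := h2.mono' b2.1.le
  obtain ⟨b, hb, hb1, hb2, hb0, eb⟩ : ∃ b, (b = B1 ∨ b = B2) ∧ b ≤ B1 ∧ b ≤ B2 ∧ 0 < b ∧
      f1 0 - ((0 : ℤ) : ℝ) ≤ fw b - b := by
    rcases le_total B1 B2 with c | c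
    · exact ⟨B1, Or.inl rfl, le_rfl, c, b1.1, by linarith⟩
    · exact ⟨B2, Or.inr rfl, c, le_rfl, b2.1, by linarith⟩
  obtain ⟨a, ha, ha1, ha2, ha0, ea⟩ : ∃ a, (a = A1 ∨ a = A2) ∧ A1 ≤ a ∧ A2 ≤ a ∧ a < k ∧
      fv a - a ≤ f1 0 - ((0 : ℤ) : ℝ) + (r - k) := by
    rcases le_total A1 A2 with c | c
    · exact ⟨A2, Or.inr rfl, c, le_rfl, a2.2, by linarith⟩
    · exact ⟨A1, Or.inl rfl, le_rfl, c, a1.2, by linarith⟩
  have mid : ∀ l, b < l → l < a → l = A1 ∨ l = A2 ∨ l = B1 ∨ l = B2 := by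
    intro l g1 g2
    by_contra c
    simp only [not_or] at c
    have := hL l (hb0.trans g1).le (g2.trans ha0) c.1 c.2.1 c.2.2.1 c.2.2.2
    have := hv.mono' g2.le
    have := hw.mono' g1.le
    linarith
  obtain rfl := uec_int n1 c1 c2 hb ha hb1 hb2 ha1 ha2 mid
  clear mid hL a1 a2 b1 b2
  have k1 : ¬ (B1 = b ∧ A1 = b + 1) := by
    rintro ⟨rfl, rfl⟩
    have g4 := hv.mono' (show B1 ≤ B1 + 1 by omega)
    have t1 : B1 + 1 ≤ t4 ∧ t4 ≤ B1 + 3 := by clear * - m4 n1 hb2 ha2 c2; omega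
    have g5 := h1.mono' t1.1
    rcases lt_or_ge B4 B1 with c | c
    · have := hv.mono' c.le
      have := h4.up' (i := B4) (j := t4) (by linarith [t1.2, b4.1])
      linarith
    · have := hv.up' (i := B1) (j := B4) (by linarith [b4.2])
      have := h4.mono' (show t4 ≤ B4 by clear * - m4 n1 n3 hb2 ha2 c2 ha c; omega)
      linarith
  have k2 : ¬ (B2 = b ∧ A2 = b + 1) := by
    rintro ⟨rfl, rfl⟩
    have t1 : B2 ≤ t3 ∧ t3 ≤ B1 ∧ B1 ≤ B2 + 3 := by clear * - m3 n1 hb1 ha1 c1; omega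
    have g5 := h1.mono' t1.2.1
    rcases lt_or_ge A3 B2 with c | c
    · have := h3.mono' (c.le.trans t1.1)
      have := hw.up' (i := A3) (j := B1) (by linarith [t1.2.2, a3.1])
      linarith
    · have := h3.up' (i := t3) (j := A3) (by linarith [t1.1, a3.2])
      have := hw.mono' (show B1 ≤ A3 by clear * - n1 n2 hb1 ha1 c1 ha c; omega)
      linarith
  refine ⟨b, by clear * - n1 c1 c2 hb ha hb1 hb2 ha1 ha2 k1 k2; omega,
    by clear * - n1 c1 c2 hb ha hb1 hb2 ha1 ha2 k1 k2; omega, hv.step b, ?_, ?_, ?_⟩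
  · have := hw.step (b + 2)
    rwa [show b + 2 + 1 = b + 3 by ring] at this
  · have := hv.mono' (show b + 1 ≤ b + 3 by linarith)
    have := hw.mono' (show b ≤ b + 2 by linarith)
    push_cast at *
    linarith
  · have := hv.mono' hb0.le
    have := hw.up' (i := 0) (j := b + 3) (by linarith)
    push_cast at *
    linarith

end Pool.Agent.P.MP_3f5ded_co.UG
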