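import Pool.Agent.P.MP_3f5ded_co.ULFar

set_option autoImplicit false

namespace Pool.Agent.P.MP_3f5ded_co.UG

open Sum

/-- Two colours `p < p'` followed by two colours `q < q'`. -/
def LD (s d p p' q q' : ℝ) : Prop :=
  p + 1 ≤ p' ∧ q + 1 ≤ q' ∧ p' + 1 - s ≤ q ∧ q' + d ≤ p + 3

/-- The port relation of the wound coupler. -/
def LR (r s d : ℝ) (x : Bool × Bool → ℝ) : Prop :=
  ∃ (b i j : Bool) (p p' q q' : ℝ), Cg r (x (b, i)) p ∧ Cg r (x (b, !i)) p' ∧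
    Cg r (x (!b, j)) q ∧ Cg r (x (!b, !j)) q' ∧ LD s d p p' q q'

/-- The wound coupler. -/
def IsL (k m : ℕ) (A : Pole k (Bool × Bool)) : Prop :=
  A.Tag (fun p q => p.1 = q.1) ∧
    (∀ (r : ℝ) x, 1 ≤ r → (m + 1) * (r - k) < 1 → A.Rel r x →
      LR r (r - k) (1 - (m + 1) * (r - k)) x) ∧
    ∀ r p p' q q' : ℝ, (m + 1) * (r - k) < 1 → LD (r - k) (1 - (m + 1) * (r - k)) p p' q q' →
      A.Rel r (q4 p p' q q')

/-- The short wire. -/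
def IsW (k m : ℕ) (A : Pole k (Fin 2)) : Prop :=
  A.Inj ∧ (∀ (r : ℝ) x, 1 ≤ r → (m + 1) * (r - k) < 1 → A.Rel r x →
      cd r (x 0) (x 1) ≤ (m + 2) * (r - k) - 1) ∧
    ∀ r a : ℝ, (m + 1) * (r - k) < 1 → 1 ≤ (m + 2) * (r - k) →
      A.Rel r ![a, a - ((m + 2) * (r - k) - 1)]

/-- The far filter. -/
def IsK (k m : ℕ) (A : Pole k (Fin 2)) : Prop :=
  A.Inj ∧ (∀ (r : ℝ) x, 1 ≤ r → (m + 1) * (r - k) < 1 → A.Rel r x →
      3 - (r - k) ≤ cd r (x 0) (x 1)) ∧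
    ∀ r a : ℝ, (m + 1) * (r - k) < 1 → 1 ≤ (m + 2) * (r - k) → A.Rel r ![a, a + (3 - (r - k))]

end Pool.Agent.P.MP_3f5ded_co.UG
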