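import Pool.Agent.P.MP_3f5ded_co.ULE

set_option autoImplicit false

namespace Pool.Agent.P.MP_3f5ded_co.UG

open Sum Finset

section
variable {W : Type} [Fintype W] [DecidableEq W]

/-- Neighbours of `x` in the cocktail party graph given by `ν`. -/
def uee_nb (ν : W → W) (x : W) : Finset W := (univ.erase x).erase (ν x)

lemma uee_mem {ν : W → W} {x y : W} : y ∈ uee_nb ν x ↔ y ≠ ν x ∧ y ≠ x := by
  simp [uee_nb]

lemma uee_card {k : ℕ} (hW : Fintype.card W = k + 2) {ν : W → W} (hν' : ∀ x, ν x ≠ x) (x : W) :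
    (uee_nb ν x).card = k := by
  rw [uee_nb, card_erase_of_mem (by simp [hν' x]), card_erase_of_mem (by simp), card_univ, hW]
  omega

lemma uee_symm {ν : W → W} (hν : ∀ x, ν (ν x) = x) {x y : W} (h : y ∈ uee_nb ν x) : x ∈ uee_nb ν y := by
  rw [uee_mem] at h ⊢
  refine ⟨fun e => h.1 (by rw [e, hν]), fun e => h.2 e.symm⟩

lemma uee_half {k : ℕ} (hk : 4 ≤ k) (hW : Fintype.card W = k + 2) {ν : W → W}
    (hν : ∀ x, ν (ν x) = x) (hν' : ∀ x, ν x ≠ x) {u v : W} (huv : v ∈ uee_nb ν u) {r : ℝ}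
    {C : W → W → ℝ} {F : W → ℤ → ℝ} {κ : W → W → ℤ}
    (hG : ∀ x, Good k r (uee_nb ν x) (C x) (F x) (κ x))
    (hE : ∀ x, ∀ y ∈ uee_nb ν x, ¬(x = u ∧ y = v) → ¬(x = v ∧ y = u) →
      κ x y = κ y x ∧ F x (κ x y) = F y (κ x y))
    (hu : κ u v = 0) (hv : κ v u = 0) : F v 0 ≤ F u 0 + (r - k) := by
  have hvu := uee_symm hν huv
  obtain ⟨h1, h2⟩ := uee_mem.mp huv
  obtain ⟨h3, h4⟩ := uee_mem.mp hvu
  set u' := ν u with hu'
  set v' := ν v with hv'
  have n1 : u' ≠ u := hν' u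
  have n2 : v' ≠ v := hν' v
  have n3 : u' ≠ v' := fun e => h2 (by rw [← hν v, ← hν u, ← hu', ← hv', e])
  have eu : ν u' = u := hν u
  have ev : ν v' = v := hν v
  set A : Finset W := ((uee_nb ν u).erase v).erase v' with hA
  have memA : ∀ w, w ∈ A ↔ w ≠ v' ∧ w ≠ v ∧ w ≠ u' ∧ w ≠ u := by
    intro w; simp [hA, uee_mem, ← hu']
  have v'u : v' ∈ uee_nb ν u := uee_mem.mpr ⟨n3.symm, h3.symm⟩
  have u'v : u' ∈ uee_nb ν v := uee_mem.mpr ⟨n3, h1.symm⟩
  have uv' : u ∈ uee_nb ν v' := uee_symm hν v'u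
  have u'v' : u' ∈ uee_nb ν v' := uee_mem.mpr ⟨by rw [ev]; exact h1.symm, n3⟩
  have vu' : v ∈ uee_nb ν u' := uee_symm hν u'v
  have v'u' : v' ∈ uee_nb ν u' := uee_symm hν u'v'
  have cA : A.card + 2 = k := by
    rw [hA, card_erase_of_mem (mem_erase.mpr ⟨n2, v'u⟩), card_erase_of_mem huv, uee_card hW hν']
    omega
  have A2 : A = ((uee_nb ν v).erase u).erase u' := by
    ext w; rw [memA]; simp [uee_mem, ← hv']; tauto
  have A3 : A = ((uee_nb ν v').erase u).erase u' := by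
    ext w; rw [memA]; simp [uee_mem, ev]; tauto
  set T := ∑ i ∈ Finset.Ico (0 : ℤ) k, i with hT
  have s1 : ∑ w ∈ A, κ u w + κ u v' + κ u v = T := by
    rw [hA, sum_erase_add _ _ (mem_erase.mpr ⟨n2, v'u⟩), sum_erase_add _ _ huv]
    exact (hG u).sum (uee_card hW hν' u)
  have s2 : ∑ w ∈ A, κ v w + κ v u' + κ v u = T := by
    rw [A2, sum_erase_add _ _ (mem_erase.mpr ⟨n1, u'v⟩), sum_erase_add _ _ hvu]
    exact (hG v).sum (uee_card hW hν' v)
  have s3 : ∑ w ∈ A, κ v' w + κ v' u' + κ v' u = T := by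
    rw [A3, sum_erase_add _ _ (mem_erase.mpr ⟨n1, u'v'⟩), sum_erase_add _ _ uv']
    exact (hG v').sum (uee_card hW hν' v')
  have Au : ∀ w ∈ A, w ∈ uee_nb ν u := fun w hw => mem_of_mem_erase (mem_of_mem_erase hw)
  have Av : ∀ w ∈ A, w ∈ uee_nb ν v := fun w hw => by
    rw [A2] at hw; exact mem_of_mem_erase (mem_of_mem_erase hw)
  have Av' : ∀ w ∈ A, w ∈ uee_nb ν v' := fun w hw => by
    rw [A3] at hw; exact mem_of_mem_erase (mem_of_mem_erase hw)
  -- edges
  have Eu : ∀ w ∈ uee_nb ν u, w ≠ v → κ u w = κ w u ∧ F u (κ u w) = F w (κ u w) :=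
    fun w hw hne => hE u w hw (fun h => hne h.2) (fun h => h2 h.1.symm)
  have Ev : ∀ w ∈ uee_nb ν v, w ≠ u → κ v w = κ w v ∧ F v (κ v w) = F w (κ v w) :=
    fun w hw hne => hE v w hw (fun h => h2 h.1) (fun h => hne h.2)
  have Ev' : ∀ w ∈ uee_nb ν v', κ v' w = κ w v' ∧ F v' (κ v' w) = F w (κ v' w) :=
    fun w hw => hE v' w hw (fun h => h3 h.1.symm) (fun h => n2 h.1)
  have start : ∀ w ∈ uee_nb ν u, w ≠ v → F w (κ u w) - κ u w ≤ F u 0 + (r - k) := by
    intro w hw hne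
    rw [← (Eu w hw hne).2]
    have := (hG u).fr.upper (i := 0) (j := κ u w) (by have := (hG u).hi w hw; omega)
    push_cast at this; linarith
  have fin : ∀ w ∈ uee_nb ν v, w ≠ u → F v 0 ≤ F w (κ v w) - κ v w := by
    intro w hw hne
    rw [← (Ev w hw hne).2]
    have := (hG v).fr.mono (i := 0) (j := κ v w) ((hG v).lo w hw)
    push_cast at this; linarith
  have mid : ∀ w (i j : ℤ), i ≤ j → F w i - i ≤ F w j - j := by
    intro w i j hij
    have := (hG w).fr.mono hij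
    linarith
  by_cases c1 : ∃ w ∈ A, κ v w ≤ κ u w
  · obtain ⟨w, hw, hle⟩ := c1
    have := (memA w).mp hw
    linarith [start w (Au w hw) this.2.1, fin w (Av w hw) this.2.2.2, mid w _ _ hle]
  push Not at c1
  have b1 : ∑ w ∈ A, (κ u w + 1) ≤ ∑ w ∈ A, κ v w := sum_le_sum fun w hw => c1 w hw
  rw [sum_add_distrib] at b1
  simp only [sum_const, nsmul_eq_mul, mul_one] at b1
  have cA' : (A.card : ℤ) + 2 = k := by exact_mod_cast cA
  have b2 := (hG u).hi v' v'u
  have b3 := (hG v).lo u' u'v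
  have b4 : κ v u' ≠ κ v u := fun e => n1 ((hG v).inj _ u'v _ hvu e)
  have e1 : κ u v' = k - 1 := by omega
  have e2 : κ v u' = 1 := by omega
  have st := start v' v'u n2
  have e3 := (Eu v' v'u n2).1
  have step2 : ∀ w ∈ uee_nb ν v', F w (κ v' w) - κ v' w ≤ F u 0 + (r - k) := by
    intro w hw
    rw [← (Ev' w hw).2]
    have := (hG v').hi w hw
    linarith [mid v' (κ v' w) (κ u v') (by omega)]
  by_cases c2 : 1 ≤ κ v' u'
  · linarith [step2 u' u'v', fin u' u'v n1, mid u' (κ v u') (κ v' u') (by omega)]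
  have e4 : κ v' u' = 0 := by have := (hG v').lo u' u'v'; omega
  by_cases c3 : ∃ w ∈ A, κ v w ≤ κ v' w
  · obtain ⟨w, hw, hle⟩ := c3
    have := (memA w).mp hw
    linarith [step2 w (Av' w hw), fin w (Av w hw) this.2.2.2, mid w _ _ hle]
  push Not at c3
  exfalso
  have b5 : ∑ w ∈ A, (κ u w + κ v' w + 3) ≤ ∑ w ∈ A, 2 * κ v w := by
    refine sum_le_sum fun w hw => ?_
    have m := (memA w).mp hw
    have := c1 w hw
    have := c3 w hw
    have : κ u w ≠ κ v' w := by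
      rw [(Eu w (Au w hw) m.2.1).1, (Ev' w (Av' w hw)).1]
      intro e
      exact h3 ((hG w).inj _ (uee_symm hν (Au w hw)) _ (uee_symm hν (Av' w hw)) e)
    omega
  rw [sum_add_distrib, sum_add_distrib, ← mul_sum] at b5
  simp only [sum_const, nsmul_eq_mul] at b5
  omega

theorem uee_bound {k : ℕ} (hk : 4 ≤ k) (he : Even k) (hW : Fintype.card W = k + 2) {ν : W → W}
    (hν : ∀ x, ν (ν x) = x) (hν' : ∀ x, ν x ≠ x) {u v : W} (huv : v ∈ uee_nb ν u) {r : ℝ}
    (hr1 : 1 ≤ r) (hr : r < k + 1 / 2) {C : W → W → ℝ}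
    (hsym : ∀ x, ∀ y ∈ uee_nb ν x, ¬(x = u ∧ y = v) → ¬(x = v ∧ y = u) → Cg r (C x y) (C y x))
    (hfar : ∀ x, ∀ y ∈ uee_nb ν x, ∀ z ∈ uee_nb ν x, y ≠ z → Far r (C x y) (C x z)) :
    cd r (C u v) (C v u) ≤ r - k := by
  have hrp : 0 < r := by linarith
  have hvu := uee_symm hν huv
  obtain ⟨h1, h2⟩ := uee_mem.mp huv
  obtain ⟨h3, h4⟩ := uee_mem.mp hvu
  have n1 : ν u ≠ u := hν' u
  have n2 : ν v ≠ v := hν' v
  have n3 : ν u ≠ ν v := fun e => h2 (by rw [← hν v, ← hν u, e])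
  have anchor : ∀ x, ∀ y ∈ uee_nb ν x, ¬(x = u ∧ y = v) → ¬(x = v ∧ y = u) → ∀ f κ,
      Good k r (uee_nb ν x) (C x) f κ → ∃ g μ, Good k r (uee_nb ν y) (C y) g μ ∧ Al (r - k) f g := by
    intro x y hy a1 a2 f κ hG
    obtain ⟨g, μ, hg, -, e⟩ := exists_good hrp (uee_nb ν y) (uee_card hW hν' y) (C y) (hfar y) x
      (uee_symm hν hy) (κ y) (hG.lo y hy) (hG.hi y hy) (f (κ y))
      ((hsym x y hy a1 a2).symm.trans (hG.near y hy)) hr1
    exact ⟨g, μ, hg, hG.fr.aligned hg.fr (by omega) e.symm⟩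
  obtain ⟨fu, κu, hGu, eu, -⟩ := exists_good hrp (uee_nb ν u) (uee_card hW hν' u) (C u) (hfar u) v huv
    0 le_rfl (by omega) (C u v) (Cg.refl _ _) hr1
  have v'u : ν v ∈ uee_nb ν u := uee_mem.mpr ⟨n3.symm, h3.symm⟩
  obtain ⟨f1, κ1, hG1, a1⟩ := anchor u (ν v) v'u (fun h => n2 h.2) (fun h => h2 h.1.symm) _ _ hGu
  have he0 : 0 ≤ r - k := hG1.fr.eps_nonneg
  have gen : ∀ x, x ≠ v → ∃ f κ, Good k r (uee_nb ν x) (C x) f κ ∧ Al (r - k) f1 f ∧
      (x = u → κ v = 0) := by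
    intro x hx
    by_cases c1 : x = u
    · subst c1; exact ⟨fu, κu, hGu, a1.symm, fun _ => eu⟩
    by_cases c2 : x = ν v
    · subst c2; exact ⟨f1, κ1, hG1, Al.refl he0 _, fun h => absurd h c1⟩
    obtain ⟨g, μ, hg, a⟩ := anchor (ν v) x (uee_mem.mpr ⟨by rw [hν]; exact hx, c2⟩)
      (fun h => h3 h.1.symm) (fun h => n2 h.1) _ _ hG1
    exact ⟨g, μ, hg, a, fun h => absurd h c1⟩
  obtain ⟨f2, κ2, hG2, a2, -⟩ := gen (ν u) h1.symm
  obtain ⟨f3, κ3, hG3, a3⟩ := anchor (ν u) v (uee_mem.mpr ⟨by rw [hν]; exact h2, h1⟩)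
    (fun h => n1 h.1) (fun h => h1 h.1.symm) _ _ hG2
  have gen2 : ∀ x, ∃ f κ, Good k r (uee_nb ν x) (C x) f κ ∧ (x ≠ v → Al (r - k) f1 f) ∧
      (x = u → κ v = 0) ∧ (x = v → f = f3) ∧ (x = ν u → f = f2) := by
    intro x
    by_cases c1 : x = v
    · subst c1
      exact ⟨f3, κ3, hG3, fun h => absurd rfl h, fun h => absurd h h2, fun _ => rfl,
        fun h => absurd h h1⟩
    by_cases c2 : x = ν u
    · subst c2
      exact ⟨f2, κ2, hG2, fun _ => a2, fun h => absurd h n1, fun h => absurd h c1, fun _ => rfl⟩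
    obtain ⟨f, κ, b1, b2, b3⟩ := gen x c1
    exact ⟨f, κ, b1, fun _ => b2, b3, fun h => absurd h c1, fun h => absurd h c2⟩
  choose F κ hG hA hu hF3 hF2 using gen2
  have hu0 : κ u v = 0 := hu u rfl
  have a4 : Al (r - k) (F (ν u)) (F v) := by
    rw [hF3 v rfl, hF2 _ rfl]
    exact a3
  have mt : ∀ x, ∀ y ∈ uee_nb ν x, ¬(x = u ∧ y = v) → ¬(x = v ∧ y = u) →
      Al ((r - k) + (r - k)) (F x) (F y) → κ x y = κ y x ∧ F x (κ x y) = F y (κ x y) := by
    intro x y hy b1 b2 al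
    have hx := uee_symm hν hy
    have m1 := (hG x).near y hy
    have m2 := (hsym x y hy b1 b2).trans ((hG y).near x hx)
    have nn : cd r (F x (κ x y)) (F y (κ y x)) ≤ 0 := by
      have := cd_le_of (u := 0) hrp (x := F x (κ x y)) (y := F y (κ y x))
        (by rw [add_zero]; exact m2.symm.trans m1)
      simpa using this
    have e := near_match (hG y).fr al nn (by linarith) ((hG x).lo y hy)
      ((hG x).hi y hy) ((hG y).lo x hx) ((hG y).hi x hx)
    refine ⟨e, ?_⟩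
    rw [← e] at m2
    have := abs_le.mp (al (κ x y))
    exact m1.uniq m2 (by linarith [this.2]) (by linarith [this.1])
  have alv : ∀ w, w ≠ v → w ≠ u → w ≠ ν v → Al ((r - k) + (r - k)) (F w) (F v) := by
    intro w w1 w2 w3
    by_cases c : w = ν u
    · rw [c]
      exact a4.mono (by linarith)
    have hw : w ∈ uee_nb ν (ν u) := uee_mem.mpr ⟨by rw [hν]; exact w2, c⟩
    have e := (mt (ν u) w hw (fun h => n1 h.1) (fun h => h1 h.1.symm)
      ((hA _ h1.symm).symm.trans (hA w w1))).2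
    exact Al.trans ((hG w).fr.aligned (hG (ν u)).fr (by omega) e.symm) a4
  have hE : ∀ x, ∀ y ∈ uee_nb ν x, ¬(x = u ∧ y = v) → ¬(x = v ∧ y = u) →
      κ x y = κ y x ∧ F x (κ x y) = F y (κ x y) := by
    intro x y hy b1 b2
    refine mt x y hy b1 b2 ?_
    obtain ⟨d1, d2⟩ := uee_mem.mp hy
    obtain ⟨d3, d4⟩ := uee_mem.mp (uee_symm hν hy)
    by_cases c1 : x = v
    · rw [c1] at d1 d2 ⊢
      exact (alv y d2 (fun h => b2 ⟨c1, h⟩) d1).symm
    by_cases c2 : y = v
    · rw [c2] at d3 ⊢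
      exact alv x c1 (fun h => b1 ⟨h, c2⟩) d3
    exact (hA x c1).symm.trans (hA y c2)
  have hv0 : κ v u = 0 := by
    by_contra hne
    have ex : ∀ x, ∃ y ∈ uee_nb ν x, κ x y = 0 := fun x =>
      (hG x).surj (uee_card hW hν' x) le_rfl (by omega)
    choose μ hμ hμ0 using ex
    have key : ∀ x, x ≠ u → μ x ≠ u ∧ μ (μ x) = x := by
      intro x hx
      have b2 : ¬(x = v ∧ μ x = u) := by
        rintro ⟨rfl, e⟩
        apply hne; rw [← e]; exact hμ0 _
      have e := (hE x (μ x) (hμ x) (fun h => hx h.1) b2).1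
      rw [hμ0] at e
      have hx' := uee_symm hν (hμ x)
      refine ⟨fun h => ?_, (hG (μ x)).inj _ (hμ _) _ hx' (by rw [hμ0, ← e])⟩
      apply b2
      refine ⟨?_, h⟩
      rw [h] at e hx'
      exact (hG u).inj _ hx' _ huv (by rw [← e, hu0])
    have s0 : ∑ _x ∈ univ.erase u, (1 : ZMod 2) = 0 := by
      refine sum_involution (fun x _ => μ x) (fun _ _ => by decide) (fun x _ _ => ?_)
        (fun x hx => ?_) (fun x hx => ?_)
      · exact (uee_mem.mp (hμ x)).2
      · exact mem_erase.mpr ⟨(key x (mem_erase.mp hx).1).1, mem_univ _⟩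
      · exact (key x (mem_erase.mp hx).1).2
    rw [sum_const, card_erase_of_mem (mem_univ _), card_univ, hW] at s0
    obtain ⟨m, rfl⟩ := he
    have e : m + m + 2 - 1 = 2 * m + 1 := by omega
    rw [e] at s0
    simp only [nsmul_eq_mul, mul_one] at s0
    push_cast at s0
    have h20 : (2 : ZMod 2) = 0 := by decide
    rw [h20] at s0
    simp at s0
  have g1 := uee_half hk hW hν hν' huv hG hE hu0 hv0
  have g2 := uee_half hk hW hν hν' hvu hG (fun x y hy b1 b2 => hE x y hy b2 b1) hv0 hu0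
  have q1 := (hG u).near v huv
  have q2 := (hG v).near u hvu
  rw [hu0] at q1
  rw [hv0] at q2
  refine (cd_le_of (u := F v 0 - F u 0) hrp (q2.trans ?_)).trans
    (abs_le.mpr ⟨by linarith, by linarith⟩)
  exact (Cg.of_eq (by ring)).trans (q1.symm.add _)

end

/-- The cocktail party graph minus an edge is an elastic wire. -/
theorem exists_E_even {k : ℕ} (hk : 4 ≤ k) (he : Even k) : ∃ A, IsE k A := by
  obtain ⟨W, _, _, nu0, hW, hi0, hn0, hj0⟩ := ule_fact he.add_one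
  obtain ⟨nu, hnu⟩ : ∃ nu : W → Fin k → W, nu = fun w l => nu0 w l.castSucc := ⟨_, rfl⟩
  obtain ⟨ν, hν⟩ : ∃ ν : W → W, ν = fun w => nu0 w (Fin.last k) := ⟨_, rfl⟩
  have hi : ∀ w l, nu (nu w l) l = w := fun w l => by rw [hnu]; exact hi0 _ _
  have hn : ∀ w l, nu w l ≠ w := fun w l => by rw [hnu]; exact hn0 _ _
  have hj : ∀ w l l', nu w l = nu w l' → l = l' := fun w l l' h => by
    rw [hnu] at h; exact Fin.castSucc_injective _ (hj0 _ _ _ h)
  have hν1 : ∀ w, ν (ν w) = w := fun w => by rw [hν]; exact hi0 _ _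
  have hν2 : ∀ w, ν w ≠ w := fun w => by rw [hν]; exact hn0 _ _
  have hm0 : ∀ w l, nu w l ∈ uee_nb ν w := fun w l => uee_mem.mpr ⟨fun h => by
    rw [hnu, hν] at h; exact (Fin.castSucc_lt_last l).ne (hj0 _ _ _ h), hn w l⟩
  replace hW : Fintype.card W = k + 2 := hW
  obtain ⟨u⟩ : Nonempty W := Fintype.card_pos_iff.mp (by omega)
  set z : Fin k := ⟨0, by omega⟩ with hz
  have f2 : ∀ p : Fin 2, p = 0 ∨ p = 1 := by decide
  refine ⟨ule_pole nu u z hi hn hj, ?_, ?_, ?_⟩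
  · intro p q d e h1 h2 h3
    change ule_rv nu u z (inr p) = inl d at h1
    change ule_rv nu u z (inr q) = inl e at h2
    rcases f2 p with rfl | rfl <;> rcases f2 q with rfl | rfl
    · rfl
    · rw [ule_rv_0] at h1; rw [ule_rv_1] at h2
      rw [← inl.inj h1, ← inl.inj h2] at h3
      exact absurd h3.symm (hn _ _)
    · rw [ule_rv_1] at h1; rw [ule_rv_0] at h2
      rw [← inl.inj h1, ← inl.inj h2] at h3
      exact absurd h3 (hn _ _)
    · rfl
  · rintro r x hr1 hr ⟨c, c1, c2, c3⟩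
    change (W × Fin k) ⊕ Fin 2 → ℝ at c
    change ∀ e, Cg r (c e) (c (ule_rv nu u z e)) at c2
    have ex : ∀ a b : W, ∃ l, b ∈ uee_nb ν a → nu a l = b := by
      intro a b
      by_cases hb : b ∈ uee_nb ν a
      swap
      · exact ⟨z, fun h => absurd h hb⟩
      have : univ.image (nu a) = uee_nb ν a := by
        apply eq_of_subset_of_card_le
        · intro t ht
          obtain ⟨l, -, rfl⟩ := mem_image.mp ht
          exact hm0 _ _
        · rw [card_image_of_injective _ (fun l l' => hj a l l'), uee_card hW hν2, card_univ,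
            Fintype.card_fin]
      have hb' : b ∈ univ.image (nu a) := this ▸ hb
      obtain ⟨l, -, hl⟩ := mem_image.mp hb'
      exact ⟨l, fun _ => hl⟩
    choose lab hl using ex
    have hv := hm0 u z
    have l1 : lab u (nu u z) = z := hj u _ _ (hl _ _ hv)
    have l2 : lab (nu u z) u = z := hj (nu u z) _ _ (by rw [hl _ _ (uee_symm hν1 hv), hi])
    have key := uee_bound hk he hW hν1 hν2 hv hr1 hr (C := fun a b => c (inl (a, lab a b)))
      (fun a b hb b1 b2 => by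
        have e := hl a b hb
        have e0 := hi a (lab a b)
        rw [e] at e0
        have e' : lab b a = lab a b := hj b _ _ (by rw [hl b a (uee_symm hν1 hb), e0])
        have := c2 (inl (a, lab a b))
        rw [ule_rv_o (fun t => b1 ?_) (fun t => b2 ?_)] at this
        · simpa only [e, e'] using this
        · obtain ⟨t1, t2⟩ := Prod.mk.inj t
          exact ⟨t1, by rw [← e, t2, t1]⟩
        · obtain ⟨t1, t2⟩ := Prod.mk.inj t
          exact ⟨t1, by rw [← e, t2, t1, hi]⟩)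
      (fun a b hb b' hb' hne => c3 a _ _ (fun t => hne (by rw [← hl a b hb, t, hl a b' hb'])))
    simp only [l1, l2] at key
    have c1' : ∀ p : Fin 2, c (inr p) = x p := c1
    have d0 := c2 (inr 0)
    have d1 := c2 (inr 1)
    rw [ule_rv_0, c1'] at d0
    rw [ule_rv_1, c1'] at d1
    rwa [cd_congr (by linarith) d0 d1]
  · intro r x hx
    obtain ⟨t, ht, et⟩ := cd_lift r (x 0) (x 1)
    rw [← et, abs_le] at hx
    have hv : nu u z ≠ u := hn _ _
    set m := min (x 0) (x 0 + t) with hm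
    let c : (W × Fin k) ⊕ Fin 2 → ℝ := Sum.elim (fun d => if d = (u, z) then x 0 else
      if d = (nu u z, z) then x 0 + t else if d.2 = z then m else m + (d.2 : ℕ) + (r - k)) x
    have l0 : ∀ w, m ≤ c (inl (w, z)) ∧ c (inl (w, z)) ≤ m + (r - k) := by
      intro w
      simp only [c, Sum.elim_inl, if_true]
      rcases min_cases (x 0) (x 0 + t) with e | e <;> rw [hm, e.1] <;> split_ifs <;>
        constructor <;> linarith [e.2, hx.1, hx.2]
    have l1 : ∀ w l, l ≠ z → c (inl (w, l)) = m + (l : ℕ) + (r - k) := by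
      intro w l h
      simp only [c, Sum.elim_inl]
      rw [if_neg (fun e => h (Prod.mk.inj e).2), if_neg (fun e => h (Prod.mk.inj e).2), if_neg h]
    have key : ∀ w (l l' : Fin k), l < l' → Far r (c (inl (w, l))) (c (inl (w, l'))) := by
      intro w l l' h
      have h' : (l : ℕ) < l' := h
      have a1 : ((l : ℕ) : ℝ) + 1 ≤ (l' : ℕ) := by exact_mod_cast h'
      have a2 : ((l' : ℕ) : ℝ) + 1 ≤ k := by exact_mod_cast l'.2
      have a3 : (0 : ℝ) ≤ (l : ℕ) := by positivity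
      rw [l1 w l' (fun e => by rw [e, hz] at h'; simp at h')]
      by_cases hy : l = z
      · have := l0 w
        rw [hy]
        apply Far.of_bounds <;> linarith
      · rw [l1 w l hy]
        apply Far.of_bounds <;> linarith
    have cu : c (inl (u, z)) = x 0 := by simp [c]
    have cv : c (inl (nu u z, z)) = x 0 + t := by simp [c, hv]
    refine ⟨c, fun _ => rfl, ?_, ?_⟩
    · change ∀ e, Cg r (c e) (c (ule_rv nu u z e))
      rintro (d | p)
      · by_cases h1 : d = (u, z)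
        · rw [h1, ule_rv_u, cu]; exact Cg.refl _ _
        by_cases h2 : d = (nu u z, z)
        · rw [h2, ule_rv_v hv, cv]; exact ht.symm
        have := ule_other hi h1 h2
        rw [ule_rv_o h1 h2]
        apply Cg.of_eq
        simp only [c, Sum.elim_inl]
        rw [if_neg h1, if_neg h2, if_neg this.1, if_neg this.2]
      · rcases f2 p with rfl | rfl
        · rw [ule_rv_0, cu]; exact Cg.refl _ _
        · rw [ule_rv_1, cv]; exact ht
    · intro w l l' hne
      rcases lt_or_gt_of_ne hne with h | h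
      · exact key w l l' h
      · exact (key w l' l h).symm

end Pool.Agent.P.MP_3f5ded_co.UG
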