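import Pool.Agent.P.MP_3f5ded_co.UECore
import Pool.Agent.P.MP_3f5ded_co.UENet

set_option autoImplicit false

namespace Pool.Agent.P.MP_3f5ded_co.UG

open Sum

/-- The slots of a vertex of the coupler. -/
abbrev LS (n : ℕ) : Type := Fin 4 ⊕ Option (Fin n) × Bool

/-- The type of a slot. -/
def uelT {n : ℕ} : LS n → Fin 8
  | inl i => ![0, 1, 2, 3] i
  | inr (none, b) => cond b 5 4
  | inr (some _, b) => cond b 7 6

/-- The partner of a vertex at a slot of a given type. -/
def uelM : Fin 8 → Fin 7 → Fin 7 :=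
  ![![3, 6, 4, 0, 2, 5, 1], ![6, 2, 1, 4, 3, 5, 0], ![5, 2, 1, 4, 3, 0, 6], ![2, 5, 0, 4, 3, 1, 6],
    ![4, 2, 1, 6, 0, 5, 3], ![1, 0, 5, 4, 3, 2, 6], ![1, 0, 4, 6, 2, 5, 3], ![1, 0, 5, 4, 3, 2, 6]]

/-- The links that are edges. -/
def uelD : Fin 8 → Fin 7 → Bool :=
  ![![true, true, true, true, true, false, true], ![true, false, false, false, false, false, true],
    ![true, false, false, false, false, true, false], ![true, true, true, false, false, true, false],
    ![true, true, true, true, true, false, true], ![true, true, true, true, true, true, false],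
    fun _ => false, fun _ => false]

/-- The first end of a link. -/
def uelL (t : Fin 8) (x : Fin 7) : Prop := if uelM t x = x then x = 5 else x < uelM t x

instance (t : Fin 8) (x : Fin 7) : Decidable (uelL t x) := by unfold uelL; infer_instance

/-- The slot of a port. -/
def uelI (p : Bool × Bool) : Fin 4 := cond p.1 (cond p.2 3 2) (cond p.2 1 0)

/-- The other end at a free slot. -/
def uelF {n : ℕ} : LS n → (Fin 7 × LS n) ⊕ Bool × Bool
  | inl i => inr (![(false, false), (false, true), (true, false), (true, true)] i)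
  | inr y => inl (cond y.2 5 6, inr (y.1, !y.2))

/-- The links of the coupler. -/
def uelW {n : ℕ} : (Fin 7 × LS n) ⊕ Bool × Bool → (Fin 7 × LS n) ⊕ Bool × Bool
  | inl d => if uelM (uelT d.2) d.1 = d.1 then uelF d.2 else inl (uelM (uelT d.2) d.1, d.2)
  | inr p => inl (cond p.1 6 5, inl (uelI p))

lemma uelM_inv : ∀ t x, uelM t (uelM t x) = x := by decide

lemma uelW_hub {n : ℕ} {x : Fin 7} {s : LS n} (h : uelM (uelT s) x ≠ x) :
    uelW (inl (x, s)) = inl (uelM (uelT s) x, s) := if_neg h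

lemma uelW_long {n : ℕ} (j : Option (Fin n)) :
    uelW (inl (5, inr (j, false))) = inl (6, inr (j, true)) := by
  rcases j with _ | j <;> rfl

lemma uel_free {n : ℕ} {x : Fin 7} {s : LS n} (h : uelM (uelT s) x = x) :
    (∃ p : Bool × Bool, x = cond p.1 6 5 ∧ s = inl (uelI p)) ∨
      ∃ j b, x = cond b 6 5 ∧ s = inr (j, b) := by
  rcases s with i | ⟨j, b⟩
  · have : ∀ (i : Fin 4) (x : Fin 7), uelM (![0, 1, 2, 3] i) x = x →
        ∃ p : Bool × Bool, x = cond p.1 6 5 ∧ i = uelI p := by decide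
    obtain ⟨p, h1, h2⟩ := this i x h
    exact Or.inl ⟨p, h1, congrArg inl h2⟩
  · refine Or.inr ⟨j, b, ?_, rfl⟩
    have : ∀ (b : Bool) (x : Fin 7), (uelM (cond b 5 4) x = x ∨ uelM (cond b 7 6) x = x) →
        x = cond b 6 5 := by decide
    rcases j with _ | j
    · exact this b x (Or.inl h)
    · exact this b x (Or.inr h)

lemma uelW_inl {n : ℕ} {d e : Fin 7 × LS n} (h : uelW (inl d) = inl e) :
    (uelM (uelT d.2) d.1 ≠ d.1 ∧ e = (uelM (uelT d.2) d.1, d.2)) ∨
      ∃ j b, d = (cond b 6 5, inr (j, b)) ∧ e = (cond b 5 6, inr (j, !b)) := by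
  obtain ⟨x, s⟩ := d
  by_cases c : uelM (uelT s) x = x
  · rcases uel_free c with ⟨⟨_ | _, _ | _⟩, rfl, rfl⟩ | ⟨j, b, rfl, rfl⟩
    · cases h
    · cases h
    · cases h
    · cases h
    · refine Or.inr ⟨j, b, rfl, ?_⟩
      simp only [uelW, if_pos c] at h
      exact (inl_injective h).symm
  · rw [uelW_hub c] at h
    exact Or.inl ⟨c, (inl_injective h).symm⟩

lemma uelW_inv {n : ℕ} (e : (Fin 7 × LS n) ⊕ Bool × Bool) : uelW (uelW e) = e := by
  rcases e with ⟨x, s⟩ | ⟨_ | _, _ | _⟩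
  · by_cases c : uelM (uelT s) x = x
    · rcases uel_free c with ⟨⟨_ | _, _ | _⟩, rfl, rfl⟩ | ⟨_ | j, _ | _, rfl, rfl⟩ <;> rfl
    · rw [uelW_hub c, uelW_hub (by rw [uelM_inv]; exact Ne.symm c), uelM_inv]
  all_goals rfl

/-- The slot of a given type. -/
def uelS {n : ℕ} : Fin 8 → LS n :=
  ![inl 0, inl 1, inl 2, inl 3, inr (none, false), inr (none, true), inl 0, inl 0]

lemma uelT_eq {n : ℕ} {s : LS n} (h : uelT s < 6) : s = uelS (uelT s) := by
  rcases s with i | ⟨_ | j, _ | _⟩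
  · fin_cases i <;> rfl
  · rfl
  · rfl
  · exact absurd h (by simp only [uelT]; decide)
  · exact absurd h (by simp only [uelT]; decide)

lemma uelT_inj {n : ℕ} {s s' : LS n} (h : uelT s = uelT s') (h' : uelT s < 6) : s = s' := by
  rw [uelT_eq h', uelT_eq (h ▸ h' : uelT s' < 6), h]

/-- The coupler as a network. -/
lemma uel_net {k n : ℕ} (hk : k = 2 * n + 6) {E C : Pole k (Fin 2)} (hE : E.Inj) (hC : C.Inj) :
    ∃ A : Pole k (Bool × Bool), A.Tag (fun p q => p.1 = q.1) ∧ ∀ r x, A.Rel r x ↔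
      ∃ c : Fin 7 → LS n → ℝ, (∀ p, Cg r (c (cond p.1 6 5) (inl (uelI p))) (x p)) ∧
        (∀ v s, uelD (uelT s) v = true → Cg r (c v s) (c (uelM (uelT s) v) s)) ∧
        (∀ v s, uelD (uelT s) v = false → v < uelM (uelT s) v →
          E.Rel r ![c v s, c (uelM (uelT s) v) s]) ∧
        (∀ j, C.Rel r ![c 5 (inr (j, false)), c 6 (inr (j, true))]) ∧
        ∀ v s s', s ≠ s' → Far r (c v s) (c v s') := by
  have d1 : ∀ t x, uelD t x = true → uelM t x ≠ x ∧ uelD t (uelM t x) = true := by decide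
  have d2 : ∀ t x, uelM t x ≠ x → (uelL t x ↔ ¬ uelL t (uelM t x)) := by decide
  have d3 : ∀ t t' x, uelD t x = true → uelD t' x = true → uelM t x = uelM t' x →
      t = t' ∧ t < 6 := by decide
  have d4 : ∀ (j : Option (Fin n)) (b : Bool), uelD (uelT (inr (j, b))) (cond b 6 5) = false := by
    rintro (_ | j) (_ | _) <;> rfl
  obtain ⟨A, t, hA⟩ := net_links (k := k) (V := Fin 7) (S := LS n) (by simp [hk]; ring) uelW
    uelW_inv (fun p => ⟨_, rfl⟩) (fun d => uelD (uelT d.2) d.1 = true)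
    (fun d => uelL (uelT d.2) d.1) (fun d => if uelM (uelT d.2) d.1 = d.1 then C else E)
    (fun d => by split_ifs <;> assumption)
    (fun d e h hd => by
      rcases uelW_inl h with ⟨-, rfl⟩ | ⟨j, b, rfl, rfl⟩
      · exact ⟨(d1 _ _ hd).1.symm, (d1 _ _ hd).2⟩
      · simp [d4] at hd)
    (fun d e h => by
      rcases uelW_inl h with ⟨c, rfl⟩ | ⟨_ | j, _ | _, rfl, rfl⟩
      · exact d2 _ _ c
      all_goals simp only [uelT]; decide)
    (fun d e d' e' h h' hd hd' h1 h2 => by
      rcases uelW_inl h with ⟨-, rfl⟩ | ⟨j, b, rfl, rfl⟩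
      · rcases uelW_inl h' with ⟨-, rfl⟩ | ⟨j, b, rfl, rfl⟩
        · rw [← h1] at hd' h2
          obtain ⟨e1, e2⟩ := d3 _ _ _ hd hd' h2
          exact Prod.ext h1 (uelT_inj e1 e2)
        · simp [d4] at hd'
      · simp [d4] at hd)
    (fun p q => p.1 = q.1)
    (by
      rintro ⟨b, i⟩ ⟨b', i'⟩ d e h h' g
      cases h
      cases h'
      cases b <;> cases b' <;> first | rfl | cases g)
  refine ⟨A, t, fun r x => (hA r x).trans ⟨?_, ?_⟩⟩
  · rintro ⟨c, c1, c2, c3, c4⟩
    refine ⟨fun v s => c (v, s), fun p => c1 p _ rfl,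
      fun v s h => c2 (v, s) _ (uelW_hub (d1 _ _ h).1) h, fun v s h h' => ?_, fun j => ?_, c4⟩
    · have := c3 (v, s) _ (uelW_hub h'.ne') (by simp [h]) (by simp [uelL, h'.ne', h'])
      simpa only [if_neg h'.ne'] using this
    · have := c3 _ _ (uelW_long j) (by simpa using d4 j false)
        (by rcases j with _ | j <;> simp only [uelT] <;> decide)
      rcases j with _ | j <;> exact this
  · rintro ⟨c, c1, c2, c3, c4, c5⟩
    refine ⟨fun d => c d.1 d.2, fun p d h => ?_, fun d e h hd => ?_, fun d e h hd hl => ?_, c5⟩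
    · cases h
      exact c1 p
    · rcases uelW_inl h with ⟨-, rfl⟩ | ⟨j, b, rfl, rfl⟩
      · exact c2 _ _ hd
      · simp [d4] at hd
    · rcases uelW_inl h with ⟨g, rfl⟩ | ⟨j, _ | _, rfl, rfl⟩
      · simp only [if_neg g]
        exact c3 _ _ (by simpa using hd) (by simpa [uelL, g] using hl)
      · have := c4 j
        rcases j with _ | j <;> exact this
      · exfalso
        revert hl
        rcases j with _ | j <;> simp only [uelT] <;> decide

end Pool.Agent.P.MP_3f5ded_co.UG
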