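import Pool.Agent.P.MP_3f5ded_co.UGDefs

set_option autoImplicit false

namespace Pool.Agent.P.MP_3f5ded_co.UG

open Sum

/-- Seven sorted points on the circle, unrolled. -/
def QF (r : ℝ) (F : ℕ → ℝ) : Prop := (∀ i, F i + 1 ≤ F (i + 1)) ∧ ∀ i, F (i + 7) = F i + r

/-- The range of the third port. -/
def QL (r : ℝ) (F : ℕ → ℝ) (i : ℕ) (z : ℝ) : Prop :=
  ∃ w, Cg r z w ∧ F i + 5 ≤ w ∧ w ≤ F (i + 2) + r - 5

lemma QF.mono {r : ℝ} {F : ℕ → ℝ} (h : QF r F) {i j : ℕ} (n : ℕ) (e : i + n ≤ j) :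
    F i + n ≤ F j := by
  have k : ∀ m : ℕ, F i + m ≤ F (i + m) := fun m => by
    induction m with
    | zero => simp
    | succ m ih =>
      have := h.1 (i + m)
      push_cast
      rw [← add_assoc i]
      linarith
  obtain ⟨m, rfl⟩ := Nat.exists_eq_add_of_le e
  have := k (n + m)
  have m0 : (0 : ℝ) ≤ m := m.cast_nonneg
  rw [add_assoc i]
  push_cast at this
  linarith

lemma QF.two {r : ℝ} {F : ℕ → ℝ} (hr : ok7 r) (h : QF r F) {i j : ℕ}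
    (h1 : F j - F i ≤ r - 5) (h2 : 10 - r ≤ F j - F i) : j = i + 2 := by
  obtain ⟨r1, r2⟩ := hr
  by_contra hc
  rcases lt_or_gt_of_ne hc with hc | hc
  · have := h.mono (i := j) (j := i + 7) 6 (by omega)
    rw [h.2] at this
    push_cast at this
    linarith
  · have := h.mono (i := i) (j := j) 3 (by omega)
    push_cast at this
    linarith

lemma QF.tau0 {r z : ℝ} {F : ℕ → ℝ} (hr : ok7 r) (h : QF r F) {i j : ℕ} (hi : i < 7) (hj : j < 7)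
    (ht : Tau0 r z (F i) (F j)) : (j = i + 2 ∨ j + 7 = i + 2) ∧ QL r F i z := by
  obtain ⟨q, w, ⟨n, hn⟩, hw, h1, h2, h3⟩ := ht.rot
  have r1 := hr.1
  have r2 := hr.2
  have a1 := h.mono (i := j) (j := i + 7) 1 (by omega)
  have a2 := h.mono (i := i) (j := j + 7) 1 (by omega)
  rw [h.2] at a1 a2
  push_cast at a1 a2
  have n1 : n < 1 := by
    have : (n : ℝ) * r < 1 * r := by linarith
    exact_mod_cast lt_of_mul_lt_mul_right this (by linarith)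
  have n2 : -2 < n := by
    have : (-2 : ℝ) * r < n * r := by linarith
    exact_mod_cast lt_of_mul_lt_mul_right this (by linarith)
  obtain rfl | rfl : n = 0 ∨ n = -1 := by omega
  · push_cast at hn
    have e := h.two hr (i := i) (j := j) (by linarith) (by linarith)
    exact ⟨Or.inl e, w, hw, h3, by rw [← e]; linarith⟩
  · push_cast at hn
    have e := h.two hr (i := i) (j := j + 7) (by rw [h.2]; linarith) (by rw [h.2]; linarith)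
    exact ⟨Or.inr e, w, hw, h3, by rw [← e, h.2]; linarith⟩

lemma QF.tau {r z : ℝ} {F : ℕ → ℝ} (hr : ok7 r) (h : QF r F) {i j : ℕ} (hi : i < 7) (hj : j < 7)
    (ht : Tau r z (F i) (F j)) : ∃ a b, (a = i ∧ b = j ∨ a = j ∧ b = i) ∧
      (b = a + 2 ∨ b + 7 = a + 2) ∧ QL r F a z :=
  ht.elim (fun ht => ⟨i, j, Or.inl ⟨rfl, rfl⟩, h.tau0 hr hi hj ht⟩)
    fun ht => ⟨j, i, Or.inr ⟨rfl, rfl⟩, h.tau0 hr hj hi ht⟩

lemma QF.fin {r x y z : ℝ} {F : ℕ → ℝ} (h : QF r F) (hx : QL r F 2 x) (hy : QL r F 3 y)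
    (hz : QL r F 6 z) : QG0 r (F 0) x y z := by
  obtain ⟨a, a1, a2, a3⟩ := hx
  obtain ⟨b, b1, b2, b3⟩ := hy
  obtain ⟨c, c1, c2, c3⟩ := hz
  have s0 : F 0 + 1 ≤ F 1 := h.1 0
  have s1 : F 1 + 1 ≤ F 2 := h.1 1
  have s2 : F 2 + 1 ≤ F 3 := h.1 2
  have s3 : F 3 + 1 ≤ F 4 := h.1 3
  have s4 : F 4 + 1 ≤ F 5 := h.1 4
  have s5 : F 5 + 1 ≤ F 6 := h.1 5
  have s6 : F 6 + 1 ≤ F 7 := h.1 6
  have s7 : F 7 = F 0 + r := h.2 0
  have s8 : F 8 = F 1 + r := h.2 1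
  norm_num at a3 b3 c3
  refine ⟨F 0 + r - a, b - r - F 0, c - b, a1.trans (Cg.up (by ring)), b1.trans (Cg.up (by ring)),
    c1.trans (Cg.up (by ring)), ?_, ?_, ?_, ?_, ?_, ?_, ?_, ?_⟩ <;> linarith

lemma exists_QF {r : ℝ} (hr : 0 < r) (t : Fin 7 → ℝ) (ht : ∀ i j, i ≠ j → Far r (t i) (t j)) :
    ∃ (F : ℕ → ℝ) (κ : Fin 7 → Fin 7), QF r F ∧ F 0 = t 0 ∧ κ 0 = 0 ∧ Function.Injective κ ∧
      ∀ i, Cg r (t i) (F (κ i)) := by
  let g : Fin 7 → ℝ := fun i => toIcoMod hr (t 0) (t i)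
  have g1 : ∀ i, Cg r (t i) (g i) := fun i => ⟨toIcoDiv hr (t 0) (t i), by
    have := toIcoMod_add_toIcoDiv_zsmul hr (t 0) (t i)
    simp only [zsmul_eq_mul] at this
    simp only [g]
    linarith⟩
  have g2 : ∀ i, t 0 ≤ g i ∧ g i < t 0 + r := fun i => toIcoMod_mem_Ico hr _ _
  have g0 : g 0 = t 0 := toIcoMod_apply_left hr _
  let σ := Tuple.sort g
  have hm : Monotone (g ∘ σ) := Tuple.monotone_sort g
  have hf : ∀ i j, i ≠ j → Far r (g (σ i)) (g (σ j)) := fun i j hij =>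
    (ht _ _ (σ.injective.ne hij)).congr (g1 _) (g1 _)
  have hs : ∀ i j, i < j → g (σ i) + 1 ≤ g (σ j) := fun i j hij => by
    have : g (σ i) ≤ g (σ j) := hm hij.le
    rcases (hf i j hij.ne).or with h | h <;> linarith
  have k0 : σ.symm 0 = 0 := by
    by_contra hc
    have := hs 0 _ (Fin.pos_iff_ne_zero.2 hc)
    rw [σ.apply_symm_apply, g0] at this
    linarith [(g2 (σ 0)).1]
  have f0 : g (σ 0) = t 0 := by rw [← k0, σ.apply_symm_apply, k0, g0]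
  have f6 : g (σ 6) + 1 ≤ g (σ 0) + r := by
    rcases ((hf 6 0 (by decide)).congr (Cg.refl _ _) (Cg.down (x := g (σ 0))
      (y := g (σ 0) + r) (by ring))).or with h | h <;> linarith [(g2 (σ 6)).2]
  refine ⟨fun k => g (σ ⟨k % 7, Nat.mod_lt _ (by norm_num)⟩) + (k / 7 : ℕ) * r, σ.symm,
    ⟨fun i => ?_, fun i => ?_⟩, by simpa using f0, k0, σ.symm.injective, fun i => ?_⟩
  · by_cases h6 : i % 7 = 6
    · have e1 : (i + 1) % 7 = 0 := by omega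
      have e2 : (i + 1) / 7 = i / 7 + 1 := by omega
      simp only [h6, e1, e2]
      push_cast
      change g (σ 6) + _ + 1 ≤ g (σ 0) + _
      linarith
    · have e2 : (i + 1) / 7 = i / 7 := by omega
      have := hs ⟨i % 7, Nat.mod_lt _ (by norm_num)⟩ ⟨(i + 1) % 7, Nat.mod_lt _ (by norm_num)⟩
        (Fin.mk_lt_mk.2 (by omega))
      simp only [e2]
      linarith
  · simp only [Nat.add_mod_right, Nat.add_div_right i (by norm_num : 0 < 7)]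
    push_cast
    ring
  · have h7 := (σ.symm i).2
    simp only [Nat.mod_eq_of_lt h7, Nat.div_eq_of_lt h7, Fin.eta, σ.apply_symm_apply]
    simpa using g1 i

lemma q0_intro {r f x y z : ℝ} (hr : ok7 r) (h : QG0 r f x y z) :
    ∃ a : Fin 7 → ℝ, a 0 = f ∧ (∀ i j, i ≠ j → Far r (a i) (a j)) ∧
      Tau r x (a 2) (a 4) ∧ Tau r y (a 3) (a 5) ∧ Tau r z (a 6) (a 1) := by
  obtain ⟨A, C, G, c1, c2, c3, h1, h2, h3, h4, h5, h6, h7, h8⟩ := h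
  obtain ⟨r1, r2⟩ := hr
  obtain ⟨u, u1, u2, u3, u4⟩ : ∃ u, 0 ≤ u ∧ C + G + 4 - r ≤ u ∧ u ≤ r - 7 - A ∧
      ∀ w, 0 ≤ w → C + G + 4 - r ≤ w → u ≤ w :=
    ⟨max 0 (C + G + 4 - r), le_max_left _ _, le_max_right _ _,
      max_le (by linarith) (by linarith), fun _ => max_le⟩
  obtain ⟨v, v1, v2, v3⟩ : ∃ v, v ≤ r - 7 ∧ v ≤ C + G + r - 11 ∧
      ∀ w, w ≤ r - 7 → w ≤ C + G + r - 11 → w ≤ v :=
    ⟨min (r - 7) (C + G + r - 11), min_le_left _ _, min_le_right _ _, fun _ => le_min⟩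
  have e1 := u4 (C + r - 8) (by linarith) (by linarith)
  have e2 := v3 (1 - A) (by linarith) (by linarith)
  have e3 := v3 C (by linarith) (by linarith)
  have e4 := u4 v (v3 _ (by linarith) (by linarith)) (v3 _ (by linarith) (by linarith))
  refine ⟨![f, f + 1 + u, f + 2 + u, f + 3 + u, f + 4 + v, f + 5 + v, f + 6 + v], rfl, ?_,
    Or.inl (Tau0.rot (Tau0.rot ⟨f + 4 + v, f - A + r, Cg.refl _ _,
      c1.trans (Cg.down (by ring)), ?_, by linarith, ?_⟩)),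
    Or.inl (Tau0.rot (Tau0.rot ⟨f + 5 + v, f + C + r, Cg.refl _ _,
      c2.trans (Cg.down (by ring)), ?_, by linarith, ?_⟩)),
    Or.inl (Tau0.rot (Tau0.rot ⟨f + 1 + u + r, f + C + G + r, Cg.down (add_sub_cancel_right _ _).symm,
      c3.trans (Cg.down (by ring)), ?_, by linarith, ?_⟩))⟩
  · have k : ∀ i j : Fin 7, i < j → Far r
        (![f, f + 1 + u, f + 2 + u, f + 3 + u, f + 4 + v, f + 5 + v, f + 6 + v] i)
        (![f, f + 1 + u, f + 2 + u, f + 3 + u, f + 4 + v, f + 5 + v, f + 6 + v] j) := by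
      intro i j hij
      fin_cases i <;> fin_cases j <;>
        first
        | exact absurd hij (by decide)
        | (refine Far.of_bounds ?_ ?_ <;> simp <;> linarith)
    exact fun i j hij => (lt_or_gt_of_ne hij).elim (k i j) fun h => (k j i h).symm
  all_goals simp
  all_goals linarith

lemma q_perm {r f : ℝ} {a : Fin 7 → ℝ} (h0 : a 0 = f) (h : ∀ i j, i ≠ j → Far r (a i) (a j))
    (π : Fin 7 → Fin 7) (p0 : π 0 = 0) (hπ : ∀ i j, i ≠ j → π i ≠ π j) {x y z : ℝ}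
    (hx : Tau r x (a (π 1)) (a (π 2))) (hy : Tau r y (a (π 3)) (a (π 4)))
    (hz : Tau r z (a (π 5)) (a (π 6))) :
    ∃ t : Fin 7 → ℝ, t 0 = f ∧ (∀ i j, i ≠ j → Far r (t i) (t j)) ∧
      Tau r x (t 1) (t 2) ∧ Tau r y (t 3) (t 4) ∧ Tau r z (t 5) (t 6) :=
  ⟨fun i => a (π i), (congrArg a p0).trans h0, fun i j hij => h _ _ (hπ i j hij), hx, hy, hz⟩

lemma q_match : ∀ a < (7 : ℕ), a ≠ 0 ∧ (a + 2) % 7 ≠ 0 → ∀ b < 7, b ≠ 0 ∧ (b + 2) % 7 ≠ 0 →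
    a ≠ b ∧ a ≠ (b + 2) % 7 ∧ (a + 2) % 7 ≠ b → ∀ c < 7, c ≠ 0 ∧ (c + 2) % 7 ≠ 0 →
    a ≠ c ∧ a ≠ (c + 2) % 7 ∧ (a + 2) % 7 ≠ c → b ≠ c ∧ b ≠ (c + 2) % 7 ∧ (b + 2) % 7 ≠ c →
    (a = 2 ∧ b = 3 ∧ c = 6) ∨ (a = 2 ∧ c = 3 ∧ b = 6) ∨ (b = 2 ∧ a = 3 ∧ c = 6) ∨
      (b = 2 ∧ c = 3 ∧ a = 6) ∨ (c = 2 ∧ a = 3 ∧ b = 6) ∨ (c = 2 ∧ b = 3 ∧ a = 6) := by
  intro a ha h1 b hb h2 h3 c hc h4 h5 h6
  interval_cases a <;> interval_cases b <;>
    first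
    | exact absurd (And.intro h1 (And.intro h2 h3)) (by decide)
    | (interval_cases c <;> revert h4 h5 h6 <;> decide)

/-- A vertex with three blocks `T` on six of its ends: necessity. -/
theorem q_elim {r : ℝ} (hr : ok7 r) (t : Fin 7 → ℝ) (x y z : ℝ)
    (ht : ∀ i j, i ≠ j → Far r (t i) (t j))
    (h1 : Tau r x (t 1) (t 2)) (h2 : Tau r y (t 3) (t 4)) (h3 : Tau r z (t 5) (t 6)) :
    QG r (t 0) x y z := by
  obtain ⟨F, κ, hF, f0, k0, ki, hc⟩ := exists_QF (by linarith [hr.1]) t ht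
  obtain ⟨a, a', a1, a2, a3⟩ := hF.tau hr (κ 1).2 (κ 2).2 (h1.congr (Cg.refl _ _) (hc _) (hc _))
  obtain ⟨b, b', b1, b2, b3⟩ := hF.tau hr (κ 3).2 (κ 4).2 (h2.congr (Cg.refl _ _) (hc _) (hc _))
  obtain ⟨c, c', c1, c2, c3⟩ := hF.tau hr (κ 5).2 (κ 6).2 (h3.congr (Cg.refl _ _) (hc _) (hc _))
  have ne : ∀ i j : Fin 7, i ≠ j → (κ i).1 ≠ (κ j).1 := fun i j h e => h (ki (Fin.ext e))
  have z0 : ∀ i : Fin 7, i ≠ 0 → (κ i).1 ≠ 0 := fun i h e => ne i 0 h (by rw [e, k0]; rfl)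
  have pr : ∀ {a a' : ℕ} {i j : Fin 7}, i ≠ 0 → j ≠ 0 →
      (a = κ i ∧ a' = κ j ∨ a = κ j ∧ a' = κ i) → (a' = a + 2 ∨ a' + 7 = a + 2) →
      a < 7 ∧ a' = (a + 2) % 7 ∧ a ≠ 0 ∧ a' ≠ 0 := by
    intro a a' i j hi hj h h'
    have h3 := (κ i).2
    have h4 := (κ j).2
    rcases h with ⟨rfl, rfl⟩ | ⟨rfl, rfl⟩
    · exact ⟨h3, by omega, z0 i hi, z0 j hj⟩
    · exact ⟨h4, by omega, z0 j hj, z0 i hi⟩
  have df : ∀ {a a' b b' : ℕ} {i j k l : Fin 7}, i ≠ k → i ≠ l → j ≠ k → j ≠ l →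
      (a = κ i ∧ a' = κ j ∨ a = κ j ∧ a' = κ i) → (b = κ k ∧ b' = κ l ∨ b = κ l ∧ b' = κ k) →
      a ≠ b ∧ a ≠ b' ∧ a' ≠ b := by
    intro a a' b b' i j k l e1 e2 e3 e4 h h'
    rcases h with ⟨rfl, rfl⟩ | ⟨rfl, rfl⟩ <;> rcases h' with ⟨rfl, rfl⟩ | ⟨rfl, rfl⟩
    · exact ⟨ne _ _ e1, ne _ _ e2, ne _ _ e3⟩
    · exact ⟨ne _ _ e2, ne _ _ e1, ne _ _ e4⟩
    · exact ⟨ne _ _ e3, ne _ _ e4, ne _ _ e1⟩
    · exact ⟨ne _ _ e4, ne _ _ e3, ne _ _ e2⟩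
  have d1 := df (by decide) (by decide) (by decide) (by decide) a1 b1
  have d2 := df (by decide) (by decide) (by decide) (by decide) a1 c1
  have d3 := df (by decide) (by decide) (by decide) (by decide) b1 c1
  obtain ⟨p1, e1, p2⟩ := pr (by decide) (by decide) a1 a2
  obtain ⟨p3, e2, p4⟩ := pr (by decide) (by decide) b1 b2
  obtain ⟨p5, e3, p6⟩ := pr (by decide) (by decide) c1 c2
  rw [e1] at p2 d1 d2
  rw [e2] at p4 d1 d3
  rw [e3] at p6 d2 d3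
  have := q_match a p1 p2 b p3 p4 d1 c p5 p6 d2 d3
  rw [← f0]
  rcases this with ⟨rfl, rfl, rfl⟩ | ⟨rfl, rfl, rfl⟩ | ⟨rfl, rfl, rfl⟩ | ⟨rfl, rfl, rfl⟩ |
    ⟨rfl, rfl, rfl⟩ | ⟨rfl, rfl, rfl⟩
  · exact Or.inl (hF.fin a3 b3 c3)
  · exact Or.inr (Or.inl (hF.fin a3 c3 b3))
  · exact Or.inr (Or.inr (Or.inl (hF.fin b3 a3 c3)))
  · exact Or.inr (Or.inr (Or.inr (Or.inl (hF.fin b3 c3 a3))))
  · exact Or.inr (Or.inr (Or.inr (Or.inr (Or.inl (hF.fin c3 a3 b3)))))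
  · exact Or.inr (Or.inr (Or.inr (Or.inr (Or.inr (hF.fin c3 b3 a3)))))

/-- A vertex with three blocks `T` on six of its ends: sufficiency. -/
theorem q_intro {r f x y z : ℝ} (hr : ok7 r) (h : QG r f x y z) :
    ∃ t : Fin 7 → ℝ, t 0 = f ∧ (∀ i j, i ≠ j → Far r (t i) (t j)) ∧
      Tau r x (t 1) (t 2) ∧ Tau r y (t 3) (t 4) ∧ Tau r z (t 5) (t 6) := by
  rcases h with h | h | h | h | h | h <;> obtain ⟨a, h0, hf, h1, h2, h3⟩ := q0_intro hr h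
  · exact q_perm h0 hf ![0, 2, 4, 3, 5, 6, 1] rfl (by decide) h1 h2 h3
  · exact q_perm h0 hf ![0, 2, 4, 6, 1, 3, 5] rfl (by decide) h1 h3 h2
  · exact q_perm h0 hf ![0, 3, 5, 2, 4, 6, 1] rfl (by decide) h2 h1 h3
  · exact q_perm h0 hf ![0, 6, 1, 2, 4, 3, 5] rfl (by decide) h3 h1 h2
  · exact q_perm h0 hf ![0, 3, 5, 6, 1, 2, 4] rfl (by decide) h2 h3 h1
  · exact q_perm h0 hf ![0, 6, 1, 3, 5, 2, 4] rfl (by decide) h3 h2 h1

end Pool.Agent.P.MP_3f5ded_co.UG
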