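import Pool.Agent.P.MP_3f5ded_co.UGMod

set_option autoImplicit false

namespace Pool.Agent.P.MP_3f5ded_co.UG

open Sum

/-- Reversal of the darts of `T`; the three ports are the fixed darts. -/
def tb : Fin 9 → Fin 7 → Fin 9 × Fin 7 :=
  ![![(0, 0), (5, 1), (2, 2), (6, 3), (1, 4), (7, 5), (8, 6)],
    ![(1, 0), (2, 1), (4, 1), (7, 3), (0, 4), (8, 5), (3, 6)],
    ![(2, 0), (1, 1), (0, 2), (5, 3), (6, 4), (3, 5), (4, 6)],
    ![(4, 0), (7, 1), (8, 2), (5, 4), (6, 5), (2, 5), (1, 6)],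
    ![(3, 0), (1, 2), (7, 2), (8, 3), (5, 5), (6, 6), (2, 6)],
    ![(8, 0), (0, 1), (6, 2), (2, 3), (3, 3), (4, 4), (7, 6)],
    ![(7, 0), (8, 1), (5, 2), (0, 3), (2, 4), (3, 4), (4, 5)],
    ![(6, 0), (3, 1), (4, 2), (1, 3), (8, 4), (0, 5), (5, 6)],
    ![(5, 0), (6, 1), (3, 2), (4, 3), (7, 4), (1, 5), (0, 6)]]

/-- Slot of an inner edge at its first end. -/
def su : Fin 30 → Fin 7 :=
  ![0, 0, 1, 0, 1, 1, 2, 1, 2, 2, 2, 2, 3, 3, 3, 3, 4, 3, 4, 4, 4, 4, 5, 5, 5, 5, 6, 6, 6, 6]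

/-- Slot of an inner edge at its second end. -/
def sv : Fin 30 → Fin 7 :=
  ![0, 0, 1, 0, 1, 1, 1, 1, 2, 2, 2, 2, 3, 3, 3, 3, 4, 4, 4, 4, 5, 5, 5, 5, 5, 6, 6, 6, 6, 6]

/-- Twice an extremal colouring for `r = 15 / 2`. -/
def k0 : Fin 9 → Fin 7 → ℤ :=
  ![![0, 2, 4, 6, 9, 11, 13],
    ![5, 1, 3, 7, 9, 11, 14],
    ![10, 1, 4, 6, 8, 12, 14],
    ![1, 3, 5, 8, 10, 12, 14],
    ![1, 3, 5, 7, 10, 12, 14],
    ![0, 2, 4, 6, 8, 10, 13],
    ![0, 2, 4, 6, 8, 10, 12],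
    ![0, 3, 5, 7, 9, 11, 13],
    ![0, 2, 5, 7, 9, 11, 13]]

/-- Twice an extremal colouring for `r = 8`. -/
def k1 : Fin 9 → Fin 7 → ℤ :=
  ![![0, 2, 4, 6, 8, 10, 12],
    ![4, 0, 2, 6, 8, 10, 14],
    ![10, 0, 4, 6, 8, 12, 14],
    ![0, 2, 4, 8, 10, 12, 14],
    ![0, 2, 4, 6, 10, 12, 14],
    ![-2, 2, 4, 6, 8, 10, 12],
    ![-2, 0, 4, 6, 8, 10, 12],
    ![-2, 2, 4, 6, 8, 10, 12],
    ![-2, 0, 4, 6, 8, 10, 12]]

/-- Twice an extremal colouring for `r = 8`. -/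
def k2 : Fin 9 → Fin 7 → ℤ :=
  ![![0, 2, 4, 6, 10, 12, 14],
    ![6, 0, 2, 8, 10, 12, 14],
    ![10, 0, 4, 6, 8, 12, 14],
    ![0, 2, 4, 8, 10, 12, 14],
    ![0, 2, 4, 6, 10, 12, 14],
    ![0, 2, 4, 6, 8, 10, 14],
    ![0, 2, 4, 6, 8, 10, 12],
    ![0, 2, 4, 8, 10, 12, 14],
    ![0, 2, 4, 6, 10, 12, 14]]

/-- Twice an extremal colouring for `r = 8`. -/
def k3 : Fin 9 → Fin 7 → ℤ :=
  ![![0, 2, 4, 6, 10, 12, 14],
    ![6, 2, 4, 8, 10, 12, 16],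
    ![12, 2, 4, 6, 8, 14, 16],
    ![2, 4, 6, 8, 10, 14, 16],
    ![2, 4, 6, 8, 10, 12, 16],
    ![0, 2, 4, 6, 8, 10, 14],
    ![0, 2, 4, 6, 8, 10, 12],
    ![0, 4, 6, 8, 10, 12, 14],
    ![0, 2, 6, 8, 10, 12, 14]]

/-- The port at a middle vertex. -/
def pt : Fin 9 → Fin 3 := ![0, 1, 2, 0, 0, 0, 0, 0, 0]

/-- Reversal of darts and ports. -/
def rvT : (Fin 9 × Fin 7) ⊕ Fin 3 → (Fin 9 × Fin 7) ⊕ Fin 3
  | inl d => if tb d.1 d.2 = d then inr (pt d.1) else inl (tb d.1 d.2)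
  | inr m => inl (md m, 0)

lemma rvT_inl {d e : Fin 9 × Fin 7} (h : rvT (inl d) = inl e) :
    e = tb d.1 d.2 ∧ tb d.1 d.2 ≠ d := by
  simp only [rvT] at h
  split_ifs at h with h1
  exact ⟨(inl.inj h).symm, h1⟩

lemma tb_loop : ∀ v s, tb v s ≠ (v, s) → (tb v s).1 ≠ v := by decide +kernel

lemma tb_par : ∀ v s s', tb v s ≠ (v, s) → tb v s' ≠ (v, s') → (tb v s).1 = (tb v s').1 →
    s = s' := by decide +kernel

lemma tb_fix : ∀ v s, tb v s = (v, s) → (v, s) = (md (pt v), 0) := by decide +kernel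

/-- The pole `T`. -/
def poleT : Pole 7 (Fin 3) where
  N := Fin 9
  fin := inferInstance
  rv := rvT
  inv := by decide +kernel
  ext p := ⟨_, rfl⟩
  noloop d e h := by
    obtain ⟨rfl, h1⟩ := rvT_inl h
    exact tb_loop d.1 d.2 h1
  nopar := by
    rintro ⟨v, s⟩ ⟨v', s'⟩ e e' h h' (rfl : v = v') he
    obtain ⟨rfl, h1⟩ := rvT_inl h
    obtain ⟨rfl, h2⟩ := rvT_inl h'
    rw [tb_par v s s' h1 h2 he]

lemma poleT_inj : poleT.Inj := by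
  intro p q d e hp hq h
  obtain rfl : (md p, (0 : Fin 7)) = d := inl.inj hp
  obtain rfl : (md q, (0 : Fin 7)) = e := inl.inj hq
  exact (by decide : ∀ p q, md p = md q → p = q) p q h

/-- The slot of an inner edge at one of its ends. -/
def sl (k : Fin 30) (v : Fin 9) : Fin 7 := if eu k = v then su k else sv k

lemma rv_edge : ∀ k, rvT (inl (eu k, su k)) = inl (ev k, sv k) := by decide +kernel

lemma sl_ne : ∀ k k' v, k ≠ k' → inc k v → inc k' v → sl k v ≠ sl k' v := by decide +kernel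

lemma sl_zero : ∀ k m, inc k (md m) → sl k (md m) ≠ 0 := by decide +kernel

lemma tau_of_rel {r : ℝ} (hr : ok7 r) {x : Fin 3 → ℝ} (h : poleT.Rel r x) :
    Tau r (x 0) (x 1) (x 2) := by
  obtain ⟨c, hx, hc, hf⟩ := h
  have key : ∀ k v, inc k v → Cg r (c (inl (v, sl k v))) (c (inl (eu k, su k))) := by
    intro k v hk
    unfold sl
    split_ifs with h1
    · rw [h1]
      exact Cg.refl _ _
    · have h2 := hc (inl (eu k, su k))
      have h3 : poleT.rv (inl (eu k, su k)) = inl (v, sv k) := by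
        rw [← hk.resolve_left h1]
        exact rv_edge k
      rw [h3] at h2
      exact h2.symm
  obtain ⟨m, hm⟩ := exists_mod (r := r) (by linarith [hr.1]) (fun k => c (inl (eu k, su k)))
    fun k k' v hk h1 h2 => (hf v _ _ (sl_ne k k' v hk h1 h2)).congr (key k v h1) (key k' v h2)
  refine m.rigid hr.2 x fun j v hj => ?_
  have h3 := hc (inr v)
  rw [hx] at h3
  exact (hf (md v) _ 0 (sl_zero _ v hj)).congr ((key _ _ hj).trans (hm j).symm) h3.symm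

lemma rel_of_col {r : ℝ} {x : Fin 3 → ℝ} (col : Fin 9 → Fin 7 → ℝ)
    (h1 : ∀ v s, col (tb v s).1 (tb v s).2 = col v s) (h2 : ∀ m, Cg r (x m) (col (md m) 0))
    (h3 : ∀ v s s', s ≠ s' → Far r (col v s) (col v s')) : poleT.Rel r x := by
  refine ⟨Sum.elim (fun d => col d.1 d.2) x, fun _ => rfl, ?_, h3⟩
  rintro (⟨v, s⟩ | m)
  · change Cg r (col v s) (Sum.elim (fun d : Fin 9 × Fin 7 => col d.1 d.2) x (rvT (inl (v, s))))
    simp only [rvT]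
    split_ifs with h
    · have h4 := (h2 (pt v)).symm
      obtain ⟨h5, h6⟩ := Prod.mk.inj (tb_fix v s h)
      rwa [← h5, ← h6] at h4
    · exact Cg.of_eq (h1 v s).symm
  · exact h2 m

lemma rel_neg {r : ℝ} {x : Fin 3 → ℝ} (h : poleT.Rel r fun m => -x m) : poleT.Rel r x := by
  obtain ⟨c, hx, hc, hf⟩ := h
  exact ⟨fun e => -c e, fun p => by simp [hx p], fun e => (hc e).neg,
    fun v s s' hs => (hf v s s' hs).neg⟩

lemma k_tb : ∀ v s, k0 (tb v s).1 (tb v s).2 = k0 v s ∧ k1 (tb v s).1 (tb v s).2 = k1 v s ∧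
    k2 (tb v s).1 (tb v s).2 = k2 v s ∧ k3 (tb v s).1 (tb v s).2 = k3 v s := by decide +kernel

/-- A difference lies in the allowed window. -/
def Win (R a b n : ℤ) : Prop := 2 ≤ b - a + n * R ∧ b - a + n * R ≤ R - 2

instance (R a b n : ℤ) : Decidable (Win R a b n) := by unfold Win; infer_instance

lemma k_far : ∀ v s s', s ≠ s' → ∃ n ∈ ([-1, 0, 1] : List ℤ), Win 15 (k0 v s) (k0 v s') n ∧
    Win 16 (k1 v s) (k1 v s') n ∧ Win 16 (k2 v s) (k2 v s') n ∧ Win 16 (k3 v s) (k3 v s') n := by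
  decide +kernel

lemma Win.mul {R a b n : ℤ} (h : Win R a b n) {l : ℝ} (hl : 0 ≤ l) :
    l * 2 ≤ l * b - l * a + n * (l * R) ∧ l * b - l * a + n * (l * R) ≤ l * R - l * 2 := by
  have h1 : (2 : ℝ) ≤ b - a + n * R := by exact_mod_cast h.1
  have h2 : (b : ℝ) - a + n * R ≤ R - 2 := by exact_mod_cast h.2
  have h3 := mul_le_mul_of_nonneg_left h1 hl
  have h4 := mul_le_mul_of_nonneg_left h2 hl
  constructor <;> linarith

lemma rel_of_tau0 {r : ℝ} (hr : ok7 r) {x : Fin 3 → ℝ} (h : Tau0 r (x 0) (x 1) (x 2)) :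
    poleT.Rel r x := by
  obtain ⟨q, s, hq, hs, g1, g2, g3⟩ := h
  obtain ⟨l0, e0⟩ : ∃ l, l = 16 - 2 * r := ⟨_, rfl⟩
  obtain ⟨l1, e1⟩ : ∃ l, l = r - 5 - (q - x 0) := ⟨_, rfl⟩
  obtain ⟨l2, e2⟩ : ∃ l, l = r - 5 - (s - q) := ⟨_, rfl⟩
  obtain ⟨l3, e3⟩ : ∃ l, l = s - x 0 - 5 := ⟨_, rfl⟩
  have p0 : 0 ≤ l0 := by linarith [hr.2]
  have p1 : 0 ≤ l1 := by linarith
  have p2 : 0 ≤ l2 := by linarith
  have p3 : 0 ≤ l3 := by linarith
  refine rel_of_col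
    (fun v t => x 0 + (l0 * k0 v t + l1 * k1 v t + l2 * k2 v t + l3 * k3 v t) / 2) ?_ ?_ ?_
  · intro v t
    obtain ⟨a0, a1, a2, a3⟩ := k_tb v t
    simp only [a0, a1, a2, a3]
  · intro m
    have b0 : k0 (md 0) 0 = 0 ∧ k1 (md 0) 0 = 0 ∧ k2 (md 0) 0 = 0 ∧ k3 (md 0) 0 = 0 := by decide
    have b1 : k0 (md 1) 0 = 5 ∧ k1 (md 1) 0 = 4 ∧ k2 (md 1) 0 = 6 ∧ k3 (md 1) 0 = 6 := by decide
    have b2 : k0 (md 2) 0 = 10 ∧ k1 (md 2) 0 = 10 ∧ k2 (md 2) 0 = 10 ∧ k3 (md 2) 0 = 12 := by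
      decide
    obtain rfl | rfl | rfl : m = 0 ∨ m = 1 ∨ m = 2 := by
      revert m
      decide
    · refine Cg.of_eq ?_
      simp only [b0.1, b0.2.1, b0.2.2.1, b0.2.2.2]
      push_cast
      linarith
    · refine hq.trans (Cg.of_eq ?_)
      simp only [b1.1, b1.2.1, b1.2.2.1, b1.2.2.2]
      push_cast
      linarith
    · refine hs.trans (Cg.of_eq ?_)
      simp only [b2.1, b2.2.1, b2.2.2.1, b2.2.2.2]
      push_cast
      linarith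
  · intro v t t' ht
    obtain ⟨n, -, w0, w1, w2, w3⟩ := k_far v t t' ht
    have u0 := w0.mul p0
    have u1 := w1.mul p1
    have u2 := w2.mul p2
    have u3 := w3.mul p3
    push_cast at u0 u1 u2 u3
    have er : n * r = (n * (l0 * 15) + n * (l1 * 16) + n * (l2 * 16) + n * (l3 * 16)) / 2 := by
      rw [e0, e1, e2, e3]
      ring
    refine (Far.of_bounds (y := x 0 + (l0 * k0 v t' + l1 * k1 v t' + l2 * k2 v t' +
      l3 * k3 v t') / 2 + n * r) ?_ ?_).congr (Cg.refl _ _) ⟨n, rfl⟩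
    · linarith [u0.1, u1.1, u2.1, u3.1]
    · linarith [u0.2, u1.2, u2.2, u3.2]

/-- The block `T`. -/
theorem realT : Real' 7 ok7 (Fin 3) true (fun r x => Tau r (x 0) (x 1) (x 2)) := by
  refine ⟨poleT, fun _ => poleT_inj, fun r hr x => ⟨tau_of_rel hr, ?_⟩⟩
  rintro (h | h)
  · exact rel_of_tau0 hr h
  · exact rel_neg (rel_of_tau0 hr h.neg)

end Pool.Agent.P.MP_3f5ded_co.UG
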