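import Pool.Agent.P.MP_3f5ded_co.UGGlue
import Pool.Agent.P.MP_3f5ded_co.UGT
import Pool.Agent.P.MP_3f5ded_co.UGQ

set_option autoImplicit false

namespace Pool.Agent.P.MP_3f5ded_co.UG

open Sum

lemma QG0.ugb_congr {r f x y z f' x' y' z' : ℝ} (h : QG0 r f x y z) (hf : Cg r f f') (hx : Cg r x x')
    (hy : Cg r y y') (hz : Cg r z z') : QG0 r f' x' y' z' := by
  obtain ⟨A, C, G, h1, h2, h3, h4⟩ := h
  exact ⟨A, C, G, hx.symm.trans (h1.trans (hf.sub A)), hy.symm.trans (h2.trans (hf.add C)),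
    hz.symm.trans (h3.trans ((hf.add C).add G)), h4⟩

lemma QG.ugb_congr {r f x y z f' x' y' z' : ℝ} (h : QG r f x y z) (hf : Cg r f f') (hx : Cg r x x')
    (hy : Cg r y y') (hz : Cg r z z') : QG r f' x' y' z' :=
  h.imp (fun h => h.ugb_congr hf hx hy hz) <| Or.imp (fun h => h.ugb_congr hf hx hz hy) <|
    Or.imp (fun h => h.ugb_congr hf hy hx hz) <| Or.imp (fun h => h.ugb_congr hf hy hz hx) <|
      Or.imp (fun h => h.ugb_congr hf hz hx hy) (fun h => h.ugb_congr hf hz hy hx)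

/-- Three blocks `T` side by side. -/
lemma ugb_realT3 : Real' 7 ok7 (Fin 3 × Fin 3) true
    (fun r x => ∀ l, Tau r (x (l, 0)) (x (l, 1)) (x (l, 2))) := by
  refine (glueU (Λ := Fin 3) (fun _ r x => Tau r (x 0) (x 1) (x 2)) (fun _ => realT) Sum.swap
    Sum.swap_swap (fun p => ⟨p, rfl⟩) (fun x y e => by cases e)).congr fun r _ x => ⟨?_, ?_⟩
  · rintro ⟨c, h0, h1, h2⟩ l
    have e : ∀ p, Cg r (c (inl p)) (x p) := fun p => h0 p ▸ h1 (inl p)
    exact (h2 l).congr (e _) (e _) (e _)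
  · intro h
    refine ⟨Sum.elim x x, fun _ => rfl, fun e => ?_, h⟩
    cases e <;> exact Cg.refl _ _

/-- The wires of `Q`. -/
def ugb_wQ : (Fin 7 ⊕ Fin 3 × Fin 3) ⊕ Fin 4 → (Fin 7 ⊕ Fin 3 × Fin 3) ⊕ Fin 4
  | inl (inl i) => ![inr 0, inl (inr (0, 1)), inl (inr (0, 2)), inl (inr (1, 1)), inl (inr (1, 2)),
      inl (inr (2, 1)), inl (inr (2, 2))] i
  | inl (inr p) => ![![inr 1, inl (inl 1), inl (inl 2)], ![inr 2, inl (inl 3), inl (inl 4)],
      ![inr 3, inl (inl 5), inl (inl 6)]] p.1 p.2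
  | inr j => ![inl (inl 0), inl (inr (0, 0)), inl (inr (1, 0)), inl (inr (2, 0))] j

/-- The block `Q`; port `0` is the direct end. -/
theorem realQ : Real' 7 ok7 (Fin 4) true (fun r x => QG r (x 0) (x 1) (x 2) (x 3)) := by
  refine (glueB (realV 7 ok7) ugb_realT3 ugb_wQ (by decide) (by decide) (by decide) (by decide)
    (fun _ => by decide)).congr fun r hr x => ⟨?_, ?_⟩
  · rintro ⟨c, h0, h1, h2, h3⟩
    have e : ∀ j, Cg r (c (ugb_wQ (inr j))) (x j) := fun j => (h0 j ▸ h1 (inr j)).symm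
    have q := q_elim hr (fun i => c (inl (inl i))) (x 1) (x 2) (x 3) h2
      ((h3 0).congr (e 1) (h1 (inl (inr (0, 1)))) (h1 (inl (inr (0, 2)))))
      ((h3 1).congr (e 2) (h1 (inl (inr (1, 1)))) (h1 (inl (inr (1, 2)))))
      ((h3 2).congr (e 3) (h1 (inl (inr (2, 1)))) (h1 (inl (inr (2, 2)))))
    exact q.ugb_congr (e 0) (Cg.refl _ _) (Cg.refl _ _) (Cg.refl _ _)
  · intro h
    obtain ⟨t, h0, h1, h2, h3, h4⟩ := q_intro hr h
    refine ⟨Sum.elim (Sum.elim t fun p => ![![x 1, t 1, t 2], ![x 2, t 3, t 4],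
      ![x 3, t 5, t 6]] p.1 p.2) x, fun _ => rfl, ?_, h1, ?_⟩
    · rintro ((i | ⟨l, p⟩) | j)
      · fin_cases i
        · exact Cg.of_eq h0
        all_goals exact Cg.refl _ _
      · fin_cases l <;> fin_cases p <;> exact Cg.refl _ _
      · fin_cases j
        · exact Cg.of_eq h0.symm
        all_goals exact Cg.refl _ _
    · intro l
      fin_cases l
      · exact h2
      · exact h3
      · exact h4

lemma ugb_int_mul_cases {r : ℝ} (hr : 0 < r) (k : ℤ) : k * r ≤ -r ∨ k * r = 0 ∨ r ≤ k * r := by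
  rcases lt_trichotomy k 0 with h | h | h
  · have h1 : (k : ℝ) ≤ -1 := by exact_mod_cast (show k ≤ -1 by omega)
    have := mul_le_mul_of_nonneg_right h1 hr.le
    left
    linarith
  · right
    left
    rw [h, Int.cast_zero, zero_mul]
  · have h1 : (1 : ℝ) ≤ k := by exact_mod_cast (show 1 ≤ k by omega)
    have := mul_le_mul_of_nonneg_right h1 hr.le
    right
    right
    linarith

lemma ugb_tau0_same {r a b s t : ℝ} (hr : ok7 r) (ha : Tau0 r a s t) (hb : Tau0 r b s t) :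
    cd r a b ≤ 2 * r - 15 := by
  obtain ⟨hr1, hr2⟩ := hr
  obtain ⟨q, u, ⟨n, hn⟩, ⟨n', hn'⟩, h1, h2, h3⟩ := ha
  obtain ⟨q', u', ⟨m, hm⟩, ⟨m', hm'⟩, h4, h5, h6⟩ := hb
  have hr0 : 0 < r := by linarith
  have e : u - q = u' - q' := by
    have := ugb_int_mul_cases hr0 (m' - n' - m + n)
    push_cast at this
    rcases this with h | h | h <;> linarith
  refine (cd_le_of (u := b - q' - (a - q)) hr0 ⟨n - m, by push_cast; linarith⟩).trans ?_
  rw [abs_le]
  constructor <;> linarith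

lemma ugb_tau0_mixed {r a b s t : ℝ} (hr : ok7 r) (ha : Tau0 r a s t) (hb : Tau0 r b t s) : False := by
  obtain ⟨hr1, hr2⟩ := hr
  obtain ⟨q, u, ⟨n, hn⟩, ⟨n', hn'⟩, h1, h2, h3⟩ := ha
  obtain ⟨q', u', ⟨m, hm⟩, ⟨m', hm'⟩, h4, h5, h6⟩ := hb
  have hr0 : 0 < r := by linarith
  have := ugb_int_mul_cases hr0 (m - n' - m' + n)
  push_cast at this
  rcases this with h | h | h <;> linarith

lemma ugb_tau_two {r a b s t : ℝ} (hr : ok7 r) (ha : Tau r a s t) (hb : Tau r b s t) :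
    cd r a b ≤ 2 * r - 15 := by
  rcases ha with ha | ha <;> rcases hb with hb | hb
  · exact ugb_tau0_same hr ha hb
  · exact (ugb_tau0_mixed hr ha hb).elim
  · exact (ugb_tau0_mixed hr ha hb).elim
  · exact ugb_tau0_same hr ha hb

lemma ugb_exists_tau_two {r a b : ℝ} (h : cd r a b ≤ 2 * r - 15) :
    ∃ s t, Tau r a s t ∧ Tau r b s t := by
  obtain ⟨u, hu, e⟩ := cd_lift r a b
  obtain ⟨h1, h2⟩ := abs_le.1 (e.le.trans h)
  have h3 := (abs_nonneg u).trans (e.le.trans h)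
  have h4 : min u 0 ≤ u := min_le_left _ _
  have h5 : min u 0 ≤ 0 := min_le_right _ _
  have h6 : -(2 * r - 15) ≤ min u 0 := le_min h1 (by linarith)
  have h7 : u - (2 * r - 15) ≤ min u 0 := le_min (by linarith) (by linarith)
  refine ⟨a + min u 0 + r - 5, a + min u 0 + 2 * r - 10,
    Or.inl ⟨_, _, Cg.refl _ _, Cg.refl _ _, by linarith, by linarith, by linarith⟩,
    Or.inl (Tau0.congr (p := a + u) ⟨_, _, Cg.refl _ _, Cg.refl _ _, by linarith, by linarith,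
      by linarith⟩ hu.symm (Cg.refl _ _) (Cg.refl _ _))⟩

/-- The wires of the digon. -/
def ugb_wE : (Fin 2 × Fin 3) ⊕ Fin 2 → (Fin 2 × Fin 3) ⊕ Fin 2
  | inl p => ![![inr 0, inl (1, 1), inl (1, 2)], ![inr 1, inl (0, 1), inl (0, 2)]] p.1 p.2
  | inr j => inl (j, 0)

/-- The digon of two blocks `T` is an elastic wire. -/
theorem realE : Real' 7 ok7 (Fin 2) true (fun r x => cd r (x 0) (x 1) ≤ 2 * r - 15) := by
  refine (glueU (Λ := Fin 2) (fun _ r x => Tau r (x 0) (x 1) (x 2)) (fun _ => realT) ugb_wE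
    (by decide) (by decide) (by decide)).congr fun r hr x => ⟨?_, ?_⟩
  · rintro ⟨c, h0, h1, h2⟩
    have e : ∀ j, Cg r (c (inl (j, 0))) (x j) := fun j => (h0 j ▸ h1 (inr j)).symm
    exact ugb_tau_two hr ((h2 0).congr (e 0) (Cg.refl _ _) (Cg.refl _ _))
      ((h2 1).congr (e 1) (h1 (inl (1, 1))) (h1 (inl (1, 2))))
  · intro h
    obtain ⟨s, t, h1, h2⟩ := ugb_exists_tau_two h
    refine ⟨Sum.elim (fun p => ![x p.1, s, t] p.2) x, fun _ => rfl, ?_, ?_⟩
    · rintro (⟨l, p⟩ | j)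
      · fin_cases l <;> fin_cases p <;> exact Cg.refl _ _
      · exact Cg.refl _ _
    · intro l
      fin_cases l
      · exact h1
      · exact h2

lemma QG0.ugb_far23 {r f x y z : ℝ} (hr : ok7 r) (h : QG0 r f x y z) : 11 - r ≤ cd r y z := by
  obtain ⟨hr1, hr2⟩ := hr
  obtain ⟨A, C, G, h1, h2, h3, h4, h5, h6, h7, h8, h9, h10, h11⟩ := h
  exact le_cd_of (u := G) (by linarith) (h3.trans (h2.symm.add G)) h8 (by linarith)

lemma QG0.ugb_far13 {r f x y z : ℝ} (hr : ok7 r) (h : QG0 r f x y z) : 11 - r ≤ cd r x z := by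
  obtain ⟨hr1, hr2⟩ := hr
  obtain ⟨A, C, G, h1, h2, h3, h4, h5, h6, h7, h8, h9, h10, h11⟩ := h
  refine le_cd_of (u := A + C + G) (by linarith)
    (h3.trans ((Cg.of_eq (by ring)).trans (h1.symm.add (A + C + G)))) (by linarith) (by linarith)

lemma QG0.ugb_filter {r f x y z : ℝ} (hr : ok7 r) (h : QG0 r f x y z) (hc : cd r x y ≤ 2 * r - 15) :
    35 - 4 * r ≤ cd r f z := by
  obtain ⟨hr1, hr2⟩ := hr
  obtain ⟨A, C, G, h1, h2, h3, h4, h5, h6, h7, h8, h9, h10, h11⟩ := h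
  have hr0 : 0 < r := by linarith
  rw [cd_min (u := A + C) hr0 (h2.trans ((Cg.of_eq (by ring)).trans (h1.symm.add (A + C))))
    (by linarith) (by linarith), min_le_iff] at hc
  have hAC : A + C ≤ 2 * r - 15 := hc.resolve_right (by intro h; linarith)
  exact le_cd_of (u := C + G) hr0 (h3.trans (Cg.of_eq (by ring))) (by linarith) (by linarith)

lemma QG.ugb_filter {r f z a b : ℝ} (hr : ok7 r) (h : QG r f z a b) (hc : cd r a b ≤ 2 * r - 15) :
    35 - 4 * r ≤ cd r f z := by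
  have hr1 := hr.1
  have hr2 := hr.2
  have hc' : cd r b a ≤ 2 * r - 15 := by rwa [cd_symm (by linarith)]
  rcases h with h | h | h | h | h | h
  · linarith [h.ugb_far23 hr]
  · linarith [h.ugb_far23 hr]
  · linarith [h.ugb_far13 hr]
  · exact h.ugb_filter hr hc
  · linarith [h.ugb_far13 hr]
  · exact h.ugb_filter hr hc'

lemma ugb_exists_filter {r f z : ℝ} (hr : ok7 r) (hr' : 39 / 5 ≤ r) (h : cd r f z = 35 - 4 * r) :
    ∃ a b, QG r f z a b ∧ cd r a b ≤ 2 * r - 15 := by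
  obtain ⟨hr1, hr2⟩ := hr
  have hr0 : 0 < r := by linarith
  obtain ⟨u, hu, e⟩ := cd_lift r f z
  have key : ∀ A C : ℝ, A + C = 2 * r - 15 → cd r (f - A) (f + C) ≤ 2 * r - 15 := by
    intro A C hAC
    have := cd_le_of (x := f - A) (y := f + C) (u := 2 * r - 15) hr0 (Cg.of_eq (by linarith))
    rwa [abs_of_nonneg (by linarith)] at this
  rcases (abs_eq (by linarith)).1 (e.trans h) with h1 | h1
  · refine ⟨f - (3 * r - 23), f + (8 - r), Or.inr (Or.inr (Or.inr (Or.inl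
      ⟨3 * r - 23, 8 - r, 27 - 3 * r, Cg.refl _ _, Cg.refl _ _, hu.trans (Cg.of_eq (by linarith)),
        ?_⟩))), key _ _ (by ring)⟩
    refine ⟨?_, ?_, ?_, ?_, ?_, ?_, ?_, ?_⟩ <;> linarith
  · refine ⟨f - (8 - r), f + (3 * r - 23), Or.inr (Or.inr (Or.inr (Or.inl
      ⟨8 - r, 3 * r - 23, 2 * r - 12, Cg.refl _ _, Cg.refl _ _, hu.trans (Cg.down (by linarith)),
        ?_⟩))), key _ _ (by ring)⟩
    refine ⟨?_, ?_, ?_, ?_, ?_, ?_, ?_, ?_⟩ <;> linarith

/-- The wires of the far filter. -/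
def ugb_wD : (Fin 4 ⊕ Fin 2) ⊕ Fin 2 → (Fin 4 ⊕ Fin 2) ⊕ Fin 2
  | inl (inl i) => ![inr 0, inr 1, inl (inr 0), inl (inr 1)] i
  | inl (inr i) => ![inl (inl 2), inl (inl 3)] i
  | inr j => ![inl (inl 0), inl (inl 1)] j

/-- The far filter: `Q` with a digon on two outputs. -/
theorem realD : ∃ R : ℝ → (Fin 2 → ℝ) → Prop, Real' 7 ok7 (Fin 2) true R ∧
    (∀ r x, ok7 r → R r x → 35 - 4 * r ≤ cd r (x 0) (x 1)) ∧
    (∀ r x, ok7 r → 39 / 5 ≤ r → cd r (x 0) (x 1) = 35 - 4 * r → R r x) := by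
  refine ⟨_, glueB realQ realE ugb_wD (by decide) (by decide) (by decide) (by decide)
    (fun h => by cases h), ?_, ?_⟩
  · rintro r x hr ⟨c, h0, h1, h2, h3⟩
    have e : ∀ j, Cg r (c (ugb_wD (inr j))) (x j) := fun j => (h0 j ▸ h1 (inr j)).symm
    exact (h2.ugb_congr (e 0) (e 1) (h1 (inl (inl 2))) (h1 (inl (inl 3)))).ugb_filter hr h3
  · intro r x hr hr' h
    obtain ⟨a, b, h1, h2⟩ := ugb_exists_filter hr hr' h
    refine ⟨Sum.elim (Sum.elim ![x 0, x 1, a, b] ![a, b]) x, fun _ => rfl, ?_, h1, h2⟩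
    rintro ((i | i) | i) <;> fin_cases i <;> exact Cg.refl _ _

end Pool.Agent.P.MP_3f5ded_co.UG
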