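import Pool.Agent.P.MP_3f5ded_co.ULDefs

set_option autoImplicit false

namespace Pool.Agent.P.MP_3f5ded_co.UG

open Finset

/-- Forward steps from index `i` to index `j` on a cycle of length `k`. -/
def fw (k : ℕ) (i j : ℤ) : ℤ := if i ≤ j then j - i else j - i + k

/-- Steps at `x` from the edge `xa` forward to the edge `xb`. -/
def st {W : Type} (k : ℕ) (κ : W → W → ℤ) (x a b : W) : ℤ := fw k (κ x a) (κ x b)

/-- Steps of the walk `uv → vw → wu → uv` around a triangle. -/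
def tri {W : Type} (k : ℕ) (κ : W → W → ℤ) (u v w : W) : ℤ :=
  st k κ v u w + st k κ w v u + st k κ u w v

/-- A short (wound) triangle. -/
def Short {W : Type} (k : ℕ) (κ : W → W → ℤ) (u v w : W) : Prop := tri k κ u v w = k - 1

/-- At `x` the edge `xy` comes after `xa` and before `xb`. -/
def On {W : Type} (k : ℕ) (κ : W → W → ℤ) (x a b y : W) : Prop := st k κ x a y < st k κ x a b

/-- The winding cocycle. -/
def mu {W : Type} (k : ℕ) (κ : W → W → ℤ) (u v w : W) : ℤ :=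
  if tri k κ u v w = k - 1 then 1 else if tri k κ u v w = 2 * k + 1 then -1 else 0

/-- Frames and edge indices on a clique `Q`. -/
structure Clq {W : Type} (k : ℕ) (r : ℝ) (Q : Finset W) (F : W → ℤ → ℝ) (κ : W → W → ℤ) :
    Prop where
  fr : ∀ x ∈ Q, Fr k r (F x)
  lo : ∀ x ∈ Q, ∀ y ∈ Q, y ≠ x → 0 ≤ κ x y
  hi : ∀ x ∈ Q, ∀ y ∈ Q, y ≠ x → κ x y < k
  inj : ∀ x ∈ Q, ∀ y ∈ Q, ∀ z ∈ Q, y ≠ x → z ≠ x → κ x y = κ x z → y = z
  cg : ∀ x ∈ Q, ∀ y ∈ Q, y ≠ x → Cg r (F x (κ x y)) (F y (κ y x))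

section Fw
variable {k : ℕ} {i j l : ℤ}

lemma fw_self (k : ℕ) (i : ℤ) : fw k i i = 0 := by simp [fw]

lemma fw_nonneg (hi : i < k) (hj : 0 ≤ j) : 0 ≤ fw k i j := by
  unfold fw; split_ifs <;> omega

lemma fw_pos (hi : i < k) (hj : 0 ≤ j) (h : i ≠ j) : 0 < fw k i j := by
  unfold fw; split_ifs <;> omega

lemma fw_lt (hi : 0 ≤ i) (hj : j < k) : fw k i j < k := by
  unfold fw; split_ifs <;> omega

lemma fw_rev (h : i ≠ j) : fw k i j + fw k j i = k := by
  unfold fw; split_ifs <;> omega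

lemma fw_inj (hj : 0 ≤ j) (hj' : j < k) (hl : 0 ≤ l) (hl' : l < k) (h : fw k i j = fw k i l) :
    j = l := by
  unfold fw at h; split_ifs at h <;> omega

/-- Passing through a third index: exact if it lies on the arc, one lap more if not. -/
lemma fw_add (_hi : 0 ≤ i) (_hi' : i < k) (hj : 0 ≤ j) (hj' : j < k) (hl : 0 ≤ l) (hl' : l < k) :
    (fw k i l ≤ fw k i j ∧ fw k i l + fw k l j = fw k i j) ∨
      (fw k i j < fw k i l ∧ fw k i l + fw k l j = fw k i j + k) := by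
  unfold fw; split_ifs <;> omega

/-- The time needed for a number of forward steps. -/
lemma Fr.corner {r : ℝ} {f : ℤ → ℝ} (h : Fr k r f) (hi : 0 ≤ i) (hi' : i < k) (hj : 0 ≤ j)
    (hj' : j < k) :
    ∃ t : ℝ, (fw k i j : ℝ) ≤ t ∧ t ≤ fw k i j + (r - k) ∧ Cg r (f j) (f i + t) := by
  unfold fw
  split_ifs with c
  · have a1 := h.mono c
    have a2 := h.upper (i := i) (j := j) (by omega)
    exact ⟨f j - f i, by push_cast; linarith, by push_cast; linarith, Cg.of_eq (by ring)⟩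
  · have a1 := h.mono (i := i) (j := j + k) (by omega)
    have a2 := h.upper (i := i) (j := j + k) (by omega)
    rw [h.per] at a1 a2
    push_cast at a1 a2
    exact ⟨f j + r - f i, by push_cast; linarith, by push_cast; linarith, Cg.down (by ring)⟩

end Fw

section Basic
variable {W : Type} {k : ℕ} {κ : W → W → ℤ} {u v w z : W}

lemma tri_rot : tri k κ v w u = tri k κ u v w := by unfold tri; ring

lemma Short.rot (h : Short k κ u v w) : Short k κ v w u := by
  unfold Short at h ⊢; rwa [tri_rot]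

lemma mu_rot : mu k κ v w u = mu k κ u v w := by unfold mu; rw [tri_rot]

lemma short_iff : Short k κ u v w ↔ mu k κ u v w = 1 := by
  unfold Short mu
  split_ifs <;> simp_all

lemma mu_cases : mu k κ u v w = 1 ∨ mu k κ u v w = 0 ∨ mu k κ u v w = -1 := by
  unfold mu; split_ifs <;> simp

end Basic

namespace Clq
variable {W : Type} {k : ℕ} {r : ℝ} {Q : Finset W} {F : W → ℤ → ℝ} {κ : W → W → ℤ}
  {u v w z x a b y : W}

lemma sub (h : Clq k r Q F κ) {Q' : Finset W} (hs : Q' ⊆ Q) : Clq k r Q' F κ :=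
  ⟨fun x hx => h.fr x (hs hx), fun x hx y hy => h.lo x (hs hx) y (hs hy),
    fun x hx y hy => h.hi x (hs hx) y (hs hy),
    fun x hx y hy z hz => h.inj x (hs hx) y (hs hy) z (hs hz),
    fun x hx y hy => h.cg x (hs hx) y (hs hy)⟩

lemma st_pos (h : Clq k r Q F κ) (hx : x ∈ Q) (ha : a ∈ Q) (hb : b ∈ Q) (ax : a ≠ x) (bx : b ≠ x)
    (ab : a ≠ b) : 0 < st k κ x a b :=
  fw_pos (h.hi x hx a ha ax) (h.lo x hx b hb bx) fun e => ab (h.inj x hx a ha b hb ax bx e)

lemma st_lt (h : Clq k r Q F κ) (hx : x ∈ Q) (ha : a ∈ Q) (hb : b ∈ Q) (ax : a ≠ x)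
    (bx : b ≠ x) : st k κ x a b < k :=
  fw_lt (h.lo x hx a ha ax) (h.hi x hx b hb bx)

lemma st_rev (h : Clq k r Q F κ) (hx : x ∈ Q) (ha : a ∈ Q) (hb : b ∈ Q) (ax : a ≠ x) (bx : b ≠ x)
    (ab : a ≠ b) : st k κ x a b + st k κ x b a = k :=
  fw_rev fun e => ab (h.inj x hx a ha b hb ax bx e)

lemma st_inj (h : Clq k r Q F κ) (hx : x ∈ Q) (hb : b ∈ Q) (hy : y ∈ Q) (bx : b ≠ x) (yx : y ≠ x)
    (e : st k κ x a b = st k κ x a y) : b = y :=
  h.inj x hx b hb y hy bx yx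
    (fw_inj (h.lo x hx b hb bx) (h.hi x hx b hb bx) (h.lo x hx y hy yx) (h.hi x hx y hy yx) e)

/-- Steps add along the arc, and lose one lap off the arc. -/
lemma st_add (h : Clq k r Q F κ) (hx : x ∈ Q) (ha : a ∈ Q) (hb : b ∈ Q) (hy : y ∈ Q) (ax : a ≠ x)
    (bx : b ≠ x) (yx : y ≠ x) (yb : y ≠ b) :
    (On k κ x a b y ∧ st k κ x a y + st k κ x y b = st k κ x a b) ∨
      (¬On k κ x a b y ∧ On k κ x a y b ∧ st k κ x a y + st k κ x y b = st k κ x a b + k) := by
  have h1 := fw_add (h.lo x hx a ha ax) (h.hi x hx a ha ax) (h.lo x hx b hb bx) (h.hi x hx b hb bx)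
    (h.lo x hx y hy yx) (h.hi x hx y hy yx)
  have h2 : st k κ x a y ≠ st k κ x a b := fun e => yb (h.st_inj hx hy hb yx bx e)
  unfold On
  unfold st at h2 ⊢
  omega

/-- The time spent at a corner of a walk. -/
lemma corner (h : Clq k r Q F κ) (hx : x ∈ Q) (ha : a ∈ Q) (hb : b ∈ Q) (ax : a ≠ x)
    (bx : b ≠ x) : ∃ t : ℝ, (st k κ x a b : ℝ) ≤ t ∧ t ≤ st k κ x a b + (r - k) ∧
      Cg r (F b (κ b x)) (F a (κ a x) + t) := by
  obtain ⟨t, t1, t2, t3⟩ := (h.fr x hx).corner (h.lo x hx a ha ax) (h.hi x hx a ha ax)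
    (h.lo x hx b hb bx) (h.hi x hx b hb bx)
  exact ⟨t, t1, t2, (h.cg x hx b hb bx).symm.trans (t3.trans ((h.cg x hx a ha ax).add t))⟩

lemma tri_rev (h : Clq k r Q F κ) (hu : u ∈ Q) (hv : v ∈ Q) (hw : w ∈ Q) (uv : u ≠ v) (vw : v ≠ w)
    (wu : w ≠ u) : tri k κ u v w + tri k κ u w v = 3 * k := by
  have a1 := h.st_rev hv hu hw uv vw.symm wu.symm
  have a2 := h.st_rev hw hv hu vw wu.symm uv.symm
  have a3 := h.st_rev hu hw hv wu uv.symm vw.symm
  unfold tri
  omega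

lemma tri_cases (h : Clq k r Q F κ) (hr : r < k + 1) (hu : u ∈ Q) (hv : v ∈ Q) (hw : w ∈ Q)
    (uv : u ≠ v) (vw : v ≠ w) (wu : w ≠ u) :
    tri k κ u v w = k - 1 ∨ tri k κ u v w = k ∨ tri k κ u v w = 2 * k ∨
      tri k κ u v w = 2 * k + 1 := by
  obtain ⟨t1, a1, b1, c1⟩ := h.corner hv hu hw uv vw.symm
  obtain ⟨t2, a2, b2, c2⟩ := h.corner hw hv hu vw wu.symm
  obtain ⟨t3, a3, b3, c3⟩ := h.corner hu hw hv wu uv.symm
  have p1 := h.st_pos hv hu hw uv vw.symm wu.symm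
  have p2 := h.st_pos hw hv hu vw wu.symm uv.symm
  have p3 := h.st_pos hu hw hv wu uv.symm vw.symm
  have q1 := h.st_lt hv hu hw uv vw.symm
  have q2 := h.st_lt hw hv hu vw wu.symm
  have q3 := h.st_lt hu hw hv wu uv.symm
  have g0 := (h.fr u hu).eps_nonneg
  have e1 := ((h.cg v hv w hw vw.symm).trans c1).add t2
  have e2 := ((h.cg w hw u hu wu.symm).trans (c2.trans e1)).add t3
  obtain ⟨n, hn⟩ := (h.cg u hu v hv uv.symm).trans (c3.trans e2)
  have hS : ((tri k κ u v w : ℤ) : ℝ) = st k κ v u w + st k κ w v u + st k κ u w v := by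
    unfold tri; push_cast; ring
  have s1 : 0 < tri k κ u v w := by unfold tri; omega
  have s2 : tri k κ u v w < 3 * k := by unfold tri; omega
  have s1' : (0 : ℝ) < (tri k κ u v w : ℤ) := by exact_mod_cast s1
  have s2' : ((tri k κ u v w : ℤ) : ℝ) < 3 * k := by exact_mod_cast s2
  have k0 : (0 : ℝ) ≤ k := by positivity
  have n1 : n < 0 := by
    by_contra c
    have : (0 : ℝ) ≤ n := by exact_mod_cast (show 0 ≤ n by omega)
    have := mul_nonneg this (show 0 ≤ r by linarith)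
    linarith
  have n2 : -3 < n := by
    by_contra c
    have : (n : ℝ) ≤ -3 := by exact_mod_cast (show n ≤ -3 by omega)
    have := mul_le_mul_of_nonneg_right this (show 0 ≤ r by linarith)
    linarith
  rcases (show n = -1 ∨ n = -2 by omega) with rfl | rfl
  · push_cast at hn
    have d1 : tri k κ u v w < k + 1 := by
      have : ((tri k κ u v w : ℤ) : ℝ) < k + 1 := by linarith
      exact_mod_cast this
    have d2 : (k : ℤ) - 2 < tri k κ u v w := by
      have : (k : ℝ) - 2 < ((tri k κ u v w : ℤ) : ℝ) := by linarith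
      exact_mod_cast this
    omega
  · push_cast at hn
    have d1 : tri k κ u v w < 2 * k + 2 := by
      have : ((tri k κ u v w : ℤ) : ℝ) < 2 * k + 2 := by linarith
      exact_mod_cast this
    have d2 : 2 * (k : ℤ) - 1 < tri k κ u v w := by
      have : 2 * (k : ℝ) - 1 < ((tri k κ u v w : ℤ) : ℝ) := by linarith
      exact_mod_cast this
    omega

lemma mu_rev (h : Clq k r Q F κ) (hu : u ∈ Q) (hv : v ∈ Q) (hw : w ∈ Q) (uv : u ≠ v) (vw : v ≠ w)
    (wu : w ≠ u) : mu k κ u w v = -mu k κ u v w := by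
  have := h.tri_rev hu hv hw uv vw wu
  unfold mu
  split_ifs <;> omega

/-- The cocycle identity. -/
lemma cocycle (h : Clq k r Q F κ) (hk : 5 ≤ k) (hr : r < k + 1) (hu : u ∈ Q) (hv : v ∈ Q)
    (hw : w ∈ Q) (hz : z ∈ Q) (uv : u ≠ v) (vw : v ≠ w) (wu : w ≠ u) (zu : z ≠ u) (zv : z ≠ v)
    (zw : z ≠ w) : mu k κ u v w = mu k κ u v z + mu k κ v w z + mu k κ w u z := by
  have a1 := h.st_add hv hu hw hz uv vw.symm zv zw
  have a2 := h.st_add hw hv hu hz vw wu.symm zw zu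
  have a3 := h.st_add hu hw hv hz wu uv.symm zu zv
  have a4 := h.st_add hz hu hv hw zu.symm zv.symm zw.symm vw.symm
  have a5 := h.st_rev hz hu hv zu.symm zv.symm uv
  have E : ∃ j : ℤ, tri k κ u v z + tri k κ v w z + tri k κ w u z = tri k κ u v w + j * k := by
    unfold tri
    rcases a1 with ⟨-, a1⟩ | ⟨-, -, a1⟩ <;> rcases a2 with ⟨-, a2⟩ | ⟨-, -, a2⟩ <;>
      rcases a3 with ⟨-, a3⟩ | ⟨-, -, a3⟩ <;> rcases a4 with ⟨-, a4⟩ | ⟨-, -, a4⟩ <;>
      first
        | exact ⟨1, by omega⟩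
        | exact ⟨2, by omega⟩
        | exact ⟨3, by omega⟩
        | exact ⟨4, by omega⟩
        | exact ⟨5, by omega⟩
  have M : ∀ {p q s : W}, p ∈ Q → q ∈ Q → s ∈ Q → p ≠ q → q ≠ s → s ≠ p →
      ∃ o : ℤ, tri k κ p q s + mu k κ p q s = o * k := by
    intro p q s hp hq hs pq qs sp
    have := h.tri_cases hr hp hq hs pq qs sp
    unfold mu
    rcases this with e | e | e | e <;> rw [e] <;> split_ifs <;>
      first
        | exact ⟨1, by omega⟩
        | exact ⟨2, by omega⟩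
  obtain ⟨j, E⟩ := E
  obtain ⟨o0, m0⟩ := M hu hv hw uv vw wu
  obtain ⟨o1, m1⟩ := M hu hv hz uv zv.symm zu
  obtain ⟨o2, m2⟩ := M hv hw hz vw zw.symm zv
  obtain ⟨o3, m3⟩ := M hw hu hz wu zu.symm zw
  have d : (k : ℤ) ∣ mu k κ u v w - (mu k κ u v z + mu k κ v w z + mu k κ w u z) :=
    ⟨o0 - o1 - o2 - o3 + j, by linear_combination m0 - m1 - m2 - m3 + E⟩
  have c0 := mu_cases (k := k) (κ := κ) (u := u) (v := v) (w := w)
  have c1 := mu_cases (k := k) (κ := κ) (u := u) (v := v) (w := z)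
  have c2 := mu_cases (k := k) (κ := κ) (u := v) (v := w) (w := z)
  have c3 := mu_cases (k := k) (κ := κ) (u := w) (v := u) (w := z)
  have := Int.eq_zero_of_abs_lt_dvd d (by rw [abs_lt]; omega)
  omega

/-- No short triangle: frames anchored at `b` agree on every edge. -/
lemma anchored (h : Clq k r Q F κ) (hr : r < k + 1) (hb : b ∈ Q) (hx : x ∈ Q) (hy : y ∈ Q)
    (xb : x ≠ b) (yb : y ≠ b) (yx : y ≠ x) (ex : κ x b = κ b x) (ey : κ y b = κ b y)
    (n1 : ¬Short k κ b x y) (n2 : ¬Short k κ b y x) : κ x y = κ y x := by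
  have c := h.tri_cases hr hb hx hy xb.symm yx.symm yb
  have d := h.tri_rev hb hx hy xb.symm yx.symm yb
  have l1 := h.lo x hx y hy yx
  have l2 := h.hi x hx y hy yx
  have l3 := h.lo y hy x hx yx.symm
  have l4 := h.hi y hy x hx yx.symm
  unfold Short at n1 n2
  have c' : tri k κ b x y = k ∨ tri k κ b x y = 2 * k := by omega
  unfold tri st fw at c'
  rw [ex, ey] at c'
  split_ifs at c' <;> omega

end Clq

end Pool.Agent.P.MP_3f5ded_co.UG
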