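import Mathlib

set_option autoImplicit false

namespace Pool.Agent.P.MP_3f5ded_co.UG

open Sum

/-- Circular distance at least one on the circle of length `r`. -/
def Far (r x y : ℝ) : Prop := ∀ n : ℤ, 1 ≤ |x - y - n * r|

/-- Equality modulo `r`. -/
def Cg (r x y : ℝ) : Prop := ∃ n : ℤ, x = y + n * r

/-- Three points in this cyclic order, all three gaps at most `r - 5`. -/
def Tau0 (r p q s : ℝ) : Prop :=
  ∃ q' s', Cg r q q' ∧ Cg r s s' ∧ q' - p ≤ r - 5 ∧ s' - q' ≤ r - 5 ∧ p + 5 ≤ s'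

/-- The port relation of the block `T`. -/
def Tau (r p q s : ℝ) : Prop := Tau0 r p q s ∨ Tau0 r p s q

/-- Circular distance. -/
noncomputable def cd (r x y : ℝ) : ℝ := |x - y - (round ((x - y) / r) : ℤ) * r|

/-- Circular `r`-edge-colourability. -/
def Col {V : Type} (G : SimpleGraph V) (r : ℝ) : Prop :=
  ∃ c : G.edgeSet → ℝ, (∀ e, 0 ≤ c e ∧ c e < r) ∧
    ∀ e f : G.edgeSet, e ≠ f → (∃ v : V, v ∈ e.1 ∧ v ∈ f.1) →
      1 ≤ |c e - c f| ∧ |c e - c f| ≤ r - 1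

lemma Col.mono {V : Type} {G : SimpleGraph V} {r r' : ℝ} (h : Col G r) (hr : r ≤ r') :
    Col G r' := by
  obtain ⟨c, h1, h2⟩ := h
  exact ⟨c, fun e => ⟨(h1 e).1, (h1 e).2.trans_le hr⟩, fun e f a b =>
    ⟨(h2 e f a b).1, (h2 e f a b).2.trans (by linarith)⟩⟩

lemma Cg.refl (r x : ℝ) : Cg r x x := ⟨0, by simp⟩

lemma Cg.of_eq {r x y : ℝ} (h : x = y) : Cg r x y := h ▸ Cg.refl r x

lemma Cg.symm {r x y : ℝ} (h : Cg r x y) : Cg r y x := by
  obtain ⟨n, hn⟩ := h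
  exact ⟨-n, by push_cast; linarith⟩

lemma Cg.trans {r x y z : ℝ} (h : Cg r x y) (h' : Cg r y z) : Cg r x z := by
  obtain ⟨n, hn⟩ := h
  obtain ⟨m, hm⟩ := h'
  exact ⟨n + m, by push_cast; linarith⟩

lemma Cg.add {r x y : ℝ} (h : Cg r x y) (t : ℝ) : Cg r (x + t) (y + t) := by
  obtain ⟨n, hn⟩ := h
  exact ⟨n, by linarith⟩

lemma Cg.sub {r x y : ℝ} (h : Cg r x y) (t : ℝ) : Cg r (x - t) (y - t) := by
  obtain ⟨n, hn⟩ := h
  exact ⟨n, by linarith⟩

lemma Cg.neg {r x y : ℝ} (h : Cg r x y) : Cg r (-x) (-y) := by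
  obtain ⟨n, hn⟩ := h
  exact ⟨-n, by push_cast; linarith⟩

lemma Cg.up {r x y : ℝ} (h : x = y + r) : Cg r x y := ⟨1, by simpa using h⟩

lemma Cg.down {r x y : ℝ} (h : x = y - r) : Cg r x y := ⟨-1, by push_cast; linarith⟩

lemma cg_mod {r : ℝ} (hr : 0 < r) (x : ℝ) : Cg r x (toIcoMod hr 0 x) := by
  refine ⟨toIcoDiv hr 0 x, ?_⟩
  have := toIcoMod_add_toIcoDiv_zsmul hr 0 x
  simp only [zsmul_eq_mul] at this
  linarith

lemma Cg.mod_eq {r x y : ℝ} (hr : 0 < r) (h : Cg r x y) : toIcoMod hr 0 x = toIcoMod hr 0 y := by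
  obtain ⟨n, rfl⟩ := h
  rw [← zsmul_eq_mul, toIcoMod_add_zsmul]

lemma Far.symm {r x y : ℝ} (h : Far r x y) : Far r y x := by
  intro n
  have : y - x - n * r = -(x - y - ((-n : ℤ) : ℝ) * r) := by push_cast; ring
  rw [this, abs_neg]; exact h _

lemma Far.congr {r x y x' y' : ℝ} (h : Far r x y) (hx : Cg r x x') (hy : Cg r y y') :
    Far r x' y' := by
  intro n
  obtain ⟨a, ha⟩ := hx
  obtain ⟨b, hb⟩ := hy
  have := h (n + a - b)
  have e : x - y - ((n + a - b : ℤ) : ℝ) * r = x' - y' - n * r := by push_cast; linarith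
  rwa [e] at this

lemma Far.of_bounds {r x y : ℝ} (h1 : 1 ≤ y - x) (h2 : y - x ≤ r - 1) : Far r x y := by
  intro n
  have hr : 0 ≤ r := by linarith
  rcases le_or_gt 0 n with hn | hn
  · have : (0 : ℝ) ≤ n := by exact_mod_cast hn
    have : 0 ≤ n * r := mul_nonneg this hr
    rw [le_abs]; right; linarith
  · have : (n : ℝ) ≤ -1 := by exact_mod_cast (show n ≤ -1 by omega)
    have : n * r ≤ -1 * r := mul_le_mul_of_nonneg_right this hr
    rw [le_abs]; left; linarith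

lemma Far.neg {r x y : ℝ} (h : Far r x y) : Far r (-x) (-y) := by
  intro n
  have : -x - -y - n * r = y - x - n * r := by ring
  rw [this]; exact h.symm n

lemma Far.add {r x y : ℝ} (h : Far r x y) (t : ℝ) : Far r (x + t) (y + t) := by
  intro n
  have : x + t - (y + t) - n * r = x - y - n * r := by ring
  rw [this]; exact h n

lemma Far.or {r x y : ℝ} (h : Far r x y) : x + 1 ≤ y ∨ y + 1 ≤ x := by
  have := h 0
  simp only [Int.cast_zero, zero_mul, sub_zero] at this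
  rcases le_abs.mp this with h | h
  · right; linarith
  · left; linarith

lemma Tau0.congr {r p q s p' q' s' : ℝ} (h : Tau0 r p q s) (hp : Cg r p p') (hq : Cg r q q')
    (hs : Cg r s s') : Tau0 r p' q' s' := by
  obtain ⟨a, b, ha, hb, h1, h2, h3⟩ := h
  obtain ⟨n, hn⟩ := hp
  refine ⟨a - n * r, b - n * r, hq.symm.trans (ha.trans ⟨n, by ring⟩),
    hs.symm.trans (hb.trans ⟨n, by ring⟩), by linarith, by linarith, by linarith⟩

lemma Tau0.rot {r p q s : ℝ} (h : Tau0 r p q s) : Tau0 r q s p := by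
  obtain ⟨a, b, ⟨n, hn⟩, hb, h1, h2, h3⟩ := h
  refine ⟨b + n * r, p + r + n * r, hb.trans ⟨-n, by push_cast; ring⟩,
    ⟨-n - 1, by push_cast; ring⟩, by linarith, by linarith, by linarith⟩

lemma Tau0.neg {r p q s : ℝ} (h : Tau0 r p q s) : Tau0 r (-p) (-s) (-q) := by
  obtain ⟨a, b, ha, hb, h1, h2, h3⟩ := h
  refine ⟨-b + r, -a + r, hb.neg.trans (Cg.down (by ring)), ha.neg.trans (Cg.down (by ring)),
    by linarith, by linarith, by linarith⟩

lemma Tau.congr {r p q s p' q' s' : ℝ} (h : Tau r p q s) (hp : Cg r p p') (hq : Cg r q q')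
    (hs : Cg r s s') : Tau r p' q' s' :=
  h.imp (fun h => h.congr hp hq hs) (fun h => h.congr hp hs hq)

lemma Tau.swap {r p q s : ℝ} (h : Tau r p q s) : Tau r p s q := Or.symm h

lemma Tau.rot {r p q s : ℝ} (h : Tau r p q s) : Tau r q s p :=
  h.imp (fun h => h.rot) (fun h => h.rot.rot)

lemma Tau.neg {r p q s : ℝ} (h : Tau r p q s) : Tau r (-p) (-q) (-s) :=
  Or.symm (h.imp (fun h => h.neg) (fun h => h.neg))

lemma cd_le {r : ℝ} (hr : 0 < r) (x y : ℝ) (n : ℤ) : cd r x y ≤ |x - y - n * r| := by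
  have h := round_le ((x - y) / r) n
  have e : ∀ m : ℤ, |x - y - m * r| = |(x - y) / r - m| * r := by
    intro m
    rw [← abs_of_pos hr, ← abs_mul, abs_of_pos hr]
    congr 1
    field_simp
  unfold cd
  rw [e, e]
  exact mul_le_mul_of_nonneg_right h hr.le

lemma cd_nonneg (r x y : ℝ) : 0 ≤ cd r x y := abs_nonneg _

/-- Upper bound from a lift. -/
lemma cd_le_of {r x y u : ℝ} (hr : 0 < r) (h : Cg r y (x + u)) : cd r x y ≤ |u| := by
  obtain ⟨n, hn⟩ := h
  have := cd_le hr x y (-n)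
  have e : x - y - ((-n : ℤ) : ℝ) * r = -u := by push_cast; linarith
  rwa [e, abs_neg] at this

/-- Lower bound from a lift. -/
lemma le_cd_of {r x y u a : ℝ} (hr : 0 < r) (h : Cg r y (x + u)) (h1 : a ≤ u) (h2 : u ≤ r - a) :
    a ≤ cd r x y := by
  obtain ⟨n, hn⟩ := h
  unfold cd
  set m : ℤ := round ((x - y) / r)
  have e : x - y - m * r = -u - ((n + m : ℤ) : ℝ) * r := by push_cast; linarith
  rw [e]
  rcases le_or_gt 0 (n + m) with hk | hk
  · have : (0 : ℝ) ≤ ((n + m : ℤ) : ℝ) := by exact_mod_cast hk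
    have := mul_nonneg this hr.le
    rw [le_abs]; right; linarith
  · have : ((n + m : ℤ) : ℝ) ≤ -1 := by exact_mod_cast (show n + m ≤ -1 by omega)
    have := mul_le_mul_of_nonneg_right this hr.le
    rw [le_abs]; left; linarith

/-- The distance is attained by a lift. -/
lemma cd_lift (r x y : ℝ) : ∃ u, Cg r y (x + u) ∧ |u| = cd r x y :=
  ⟨-(x - y - (round ((x - y) / r) : ℤ) * r), ⟨-round ((x - y) / r), by push_cast; ring⟩,
    abs_neg _⟩

lemma cd_min {r x y u : ℝ} (hr : 0 < r) (h : Cg r y (x + u)) (h0 : 0 ≤ u) (h1 : u ≤ r) :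
    cd r x y = min u (r - u) := by
  apply le_antisymm
  · refine le_min ?_ ?_
    · simpa [abs_of_nonneg h0] using cd_le_of hr h
    · have := cd_le_of (u := u - r) hr (h.trans (Cg.up (by ring)))
      rwa [abs_of_nonpos (by linarith), neg_sub] at this
  · exact le_cd_of hr h (min_le_left _ _) (by linarith [min_le_right u (r - u)])

lemma cd_symm {r : ℝ} (hr : 0 < r) (x y : ℝ) : cd r x y = cd r y x := by
  have key : ∀ a b : ℝ, cd r a b ≤ cd r b a := by
    intro a b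
    obtain ⟨u, hu, e⟩ := cd_lift r b a
    rw [← e, ← abs_neg]
    refine cd_le_of hr ?_
    have := (hu.sub u).symm
    simpa [sub_eq_add_neg] using this
  exact le_antisymm (key x y) (key y x)

lemma cd_congr {r x y x' y' : ℝ} (hr : 0 < r) (hx : Cg r x x') (hy : Cg r y y') :
    cd r x y = cd r x' y' := by
  have key : ∀ a b a' b' : ℝ, Cg r a a' → Cg r b b' → cd r a b ≤ cd r a' b' := by
    intro a b a' b' ha hb
    obtain ⟨u, hu, e⟩ := cd_lift r a' b'
    rw [← e]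
    exact cd_le_of hr (hb.trans (hu.trans (ha.symm.add u)))
  exact le_antisymm (key _ _ _ _ hx hy) (key _ _ _ _ hx.symm hy.symm)

lemma cd_tri {r : ℝ} (hr : 0 < r) (x y z : ℝ) : cd r x z ≤ cd r x y + cd r y z := by
  obtain ⟨u, hu, e⟩ := cd_lift r x y
  obtain ⟨v, hv, e'⟩ := cd_lift r y z
  rw [← e, ← e']
  refine le_trans (cd_le_of hr (u := u + v) ?_) (abs_add_le _ _)
  have := hv.trans (hu.add v)
  rwa [add_assoc] at this

/-- A `k`-regular simple graph with dangling edges (ports) `P`, given by the reversal of darts. -/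
structure Pole (k : ℕ) (P : Type) : Type 1 where
  N : Type
  fin : Fintype N
  rv : (N × Fin k) ⊕ P → (N × Fin k) ⊕ P
  inv : ∀ e, rv (rv e) = e
  ext : ∀ p, ∃ d, rv (inr p) = inl d
  noloop : ∀ d e, rv (inl d) = inl e → e.1 ≠ d.1
  nopar : ∀ d d' e e', rv (inl d) = inl e → rv (inl d') = inl e' → d.1 = d'.1 → e.1 = e'.1 → d = d'

/-- Ports sit at distinct vertices. -/
def Pole.Inj {k : ℕ} {P : Type} (A : Pole k P) : Prop :=
  ∀ p q d e, A.rv (inr p) = inl d → A.rv (inr q) = inl e → d.1 = e.1 → p = q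

/-- Port colours that extend to a circular colouring. -/
def Pole.Rel {k : ℕ} {P : Type} (A : Pole k P) (r : ℝ) (x : P → ℝ) : Prop :=
  ∃ c : (A.N × Fin k) ⊕ P → ℝ, (∀ p, c (inr p) = x p) ∧ (∀ e, Cg r (c e) (c (A.rv e))) ∧
    ∀ v s s', s ≠ s' → Far r (c (inl (v, s))) (c (inl (v, s')))

/-- The relation `R` is the port relation of some pole, for all `r` with `ok r`. -/
def Real' (k : ℕ) (ok : ℝ → Prop) (P : Type) (b : Bool) (R : ℝ → (P → ℝ) → Prop) : Prop :=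
  ∃ A : Pole k P, (b = true → A.Inj) ∧ ∀ r, ok r → ∀ x, A.Rel r x ↔ R r x

/-- The range of the block `T`. -/
def ok7 (r : ℝ) : Prop := 15 / 2 ≤ r ∧ r < 8

/-- Gaps around the block `Q`: cyclic order `z1, f, z2, z3`. -/
def QG0 (r f z1 z2 z3 : ℝ) : Prop :=
  ∃ A C G, Cg r z1 (f - A) ∧ Cg r z2 (f + C) ∧ Cg r z3 (f + C + G) ∧
    8 - r ≤ A ∧ A ≤ r - 7 ∧ 8 - r ≤ C ∧ C ≤ r - 7 ∧ 11 - r ≤ G ∧ G ≤ 2 * r - 12 ∧
    11 - r ≤ r - A - C - G ∧ r - A - C - G ≤ 2 * r - 12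

/-- The port relation of the block `Q`. -/
def QG (r f x y z : ℝ) : Prop :=
  QG0 r f x y z ∨ QG0 r f x z y ∨ QG0 r f y x z ∨ QG0 r f y z x ∨ QG0 r f z x y ∨ QG0 r f z y x

/-- First ends of the thirty inner edges of `T`. -/
def eu : Fin 30 → Fin 9 :=
  ![5, 6, 1, 3, 0, 6, 1, 3, 0, 5, 3, 4, 0, 2, 1, 4, 2, 3, 0, 7, 3, 4, 0, 1, 2, 4, 0, 5, 1, 2]

/-- Second ends of the thirty inner edges of `T`. -/
def ev : Fin 30 → Fin 9 :=
  ![8, 7, 2, 4, 5, 8, 4, 7, 2, 6, 8, 7, 6, 5, 7, 8, 6, 5, 1, 8, 6, 5, 7, 8, 3, 6, 8, 7, 3, 4]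

/-- Incidence of inner edges and vertices of `T`. -/
def inc (k : Fin 30) (v : Fin 9) : Prop := eu k = v ∨ ev k = v

instance (k : Fin 30) (v : Fin 9) : Decidable (inc k v) := by unfold inc; infer_instance

/-- The three middle vertices. -/
def md : Fin 3 → Fin 9 := ![0, 1, 2]

end Pool.Agent.P.MP_3f5ded_co.UG
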