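import Pool.Agent.P.MP_3f5ded_co.UGDefs

set_option autoImplicit false

namespace Pool.Agent.P.MP_3f5ded_co.UG

open Sum

theorem Real'.congr {k : ℕ} {ok : ℝ → Prop} {P : Type} {b : Bool} {R R' : ℝ → (P → ℝ) → Prop}
    (h : Real' k ok P b R) (e : ∀ r, ok r → ∀ x, R r x ↔ R' r x) : Real' k ok P b R' := by
  obtain ⟨A, h1, h2⟩ := h
  exact ⟨A, h1, fun r hr x => (h2 r hr x).trans (e r hr x)⟩

theorem Real'.mono {k : ℕ} {ok ok' : ℝ → Prop} {P : Type} {b : Bool} {R : ℝ → (P → ℝ) → Prop}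
    (h : Real' k ok P b R) (e : ∀ r, ok' r → ok r) : Real' k ok' P b R := by
  obtain ⟨A, h1, h2⟩ := h
  exact ⟨A, h1, fun r hr x => h2 r (e r hr) x⟩

/-- A single vertex. -/
theorem realV (k : ℕ) (ok : ℝ → Prop) :
    Real' k ok (Fin k) false (fun r x => ∀ s s', s ≠ s' → Far r (x s) (x s')) := by
  refine ⟨⟨Unit, inferInstance, Sum.elim (fun d => inr d.2) (fun s => inl ((), s)), ?_,
    fun p => ⟨_, rfl⟩, ?_, ?_⟩, by simp, fun r _ x => ⟨?_, fun h => ?_⟩⟩
  · rintro (d | s) <;> rfl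
  · intro d e h
    cases h
  · intro d d' e e' h
    cases h
  · rintro ⟨c, h1, h2, h3⟩ s s' hs
    rw [← h1, ← h1]
    exact (h3 () s s' hs).congr (h2 (inr s)).symm (h2 (inr s')).symm
  · refine ⟨Sum.elim (fun d => x d.2) x, fun _ => rfl, ?_, fun _ s s' hs => h s s' hs⟩
    rintro (d | s) <;> exact Cg.refl _ _

section Glue

variable {k : ℕ} {Λ : Type} {P : Λ → Type} {X P0 : Type} (A : ∀ l, Pole k (P l))

/-- The dart at which a port sits. -/
noncomputable def gat (l : Λ) (p : P l) : (A l).N × Fin k := ((A l).ext p).choose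

lemma gat_spec (l : Λ) (p : P l) : (A l).rv (inr p) = inl (gat A l p) :=
  ((A l).ext p).choose_spec

lemma gat_rv (l : Λ) (p : P l) : (A l).rv (inl (gat A l p)) = inr p := by
  rw [← gat_spec, (A l).inv]

lemma gat_eq {l : Λ} {p : P l} {d : (A l).N × Fin k} (h : (A l).rv (inl d) = inr p) :
    d = gat A l p := by
  have e := (A l).inv (inl d)
  rw [h, gat_spec] at e
  exact (inl_injective e).symm

/-- A dart of one pole as a dart of the union. -/
def gup (l : Λ) (d : (A l).N × Fin k) : (Σ l, (A l).N) × Fin k := (⟨l, d.1⟩, d.2)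

/-- The dart of the union at which a port of one of the poles sits. -/
noncomputable def gS (z : Σ l, P l) : (Σ l, (A l).N) × Fin k := gup A z.1 (gat A z.1 z.2)

lemma gS_inj {z z' : Σ l, P l} (h : (gS A z).1 = (gS A z').1) (hi : (A z.1).Inj) : z = z' := by
  obtain ⟨l, p⟩ := z
  obtain ⟨l', p'⟩ := z'
  have e : l = l' := congrArg Sigma.fst h
  subst e
  have e' : (gat A l p).1 = (gat A l p').1 := sigma_mk_injective (β := fun l => (A l).N) h
  rw [hi p p' _ _ (gat_spec A l p) (gat_spec A l p') e']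

variable (φ : X ≃ Σ l, P l) (τ : X ⊕ P0 → X ⊕ P0)

/-- The end of a wire as a dart or a port of the union. -/
noncomputable def gout : X ⊕ P0 → ((Σ l, (A l).N) × Fin k) ⊕ P0 :=
  Sum.map (fun x => gS A (φ x)) id

/-- The reversal of darts in the union. -/
noncomputable def grv : ((Σ l, (A l).N) × Fin k) ⊕ P0 → ((Σ l, (A l).N) × Fin k) ⊕ P0 :=
  Sum.elim (fun d => Sum.elim (fun e => inl (gup A d.1.1 e))
    (fun p => gout A φ (τ (inl (φ.symm ⟨d.1.1, p⟩)))) ((A d.1.1).rv (inl (d.1.2, d.2))))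
    (fun p => gout A φ (τ (inr p)))

lemma grv_up (l : Λ) (d : (A l).N × Fin k) : grv A φ τ (inl (gup A l d)) =
    Sum.elim (fun e => inl (gup A l e)) (fun p => gout A φ (τ (inl (φ.symm ⟨l, p⟩))))
      ((A l).rv (inl d)) := rfl

lemma grv_in {l : Λ} {d e : (A l).N × Fin k} (h : (A l).rv (inl d) = inl e) :
    grv A φ τ (inl (gup A l d)) = inl (gup A l e) := by
  rw [grv_up, h, Sum.elim_inl]

lemma grv_out (y : X ⊕ P0) : grv A φ τ (gout A φ y) = gout A φ (τ y) := by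
  rcases y with x | p
  · change grv A φ τ (inl (gup A _ _)) = _
    rw [grv_up, gat_rv, Sum.elim_inr, Sigma.eta, Equiv.symm_apply_apply]
  · rfl

lemma g_cases (e : ((Σ l, (A l).N) × Fin k) ⊕ P0) : (∃ y, e = gout A φ y) ∨
    ∃ l d d', e = inl (gup A l d) ∧ (A l).rv (inl d) = inl d' := by
  rcases e with ⟨⟨l, v⟩, s⟩ | p
  · rcases h : (A l).rv (inl (v, s)) with d' | p
    · exact Or.inr ⟨l, (v, s), d', rfl, h⟩
    · refine Or.inl ⟨inl (φ.symm ⟨l, p⟩), ?_⟩
      change _ = inl (gS A (φ (φ.symm ⟨l, p⟩)))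
      rw [Equiv.apply_symm_apply]
      change inl (gup A l (v, s)) = inl (gup A l (gat A l p))
      rw [gat_eq A h]
  · exact Or.inl ⟨inr p, rfl⟩

lemma gout_inl {y : X ⊕ P0} {d : (Σ l, (A l).N) × Fin k} (h : gout A φ y = inl d) :
    ∃ x, y = inl x ∧ d = gS A (φ x) := by
  rcases y with x | p
  · exact ⟨x, rfl, (inl_injective h).symm⟩
  · cases h

lemma grv_edge {d e : (Σ l, (A l).N) × Fin k} (h : grv A φ τ (inl d) = inl e) :
    (∃ x y, τ (inl x) = inl y ∧ d = gS A (φ x) ∧ e = gS A (φ y)) ∨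
      ∃ l d0 e0, d = gup A l d0 ∧ e = gup A l e0 ∧ (A l).rv (inl d0) = inl e0 := by
  rcases g_cases A φ (P0 := P0) (inl d) with ⟨y, hy⟩ | ⟨l, d0, e0, h1, h2⟩
  · obtain ⟨x, rfl, hx⟩ := gout_inl A φ hy.symm
    rw [hy, grv_out] at h
    obtain ⟨x', h3, h4⟩ := gout_inl A φ h
    exact Or.inl ⟨x, x', h3, hx, h4⟩
  · rw [h1, grv_in A φ τ h2] at h
    exact Or.inr ⟨l, d0, e0, inl_injective h1, (inl_injective h).symm, h2⟩

end Glue

/-- Gluing a finite family of poles along wires. -/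
theorem glue {k : ℕ} {ok : ℝ → Prop} {Λ : Type} [Fintype Λ] {P : Λ → Type} {X P0 : Type}
    (b : Λ → Bool) (R : ∀ l, ℝ → (P l → ℝ) → Prop) (h : ∀ l, Real' k ok (P l) (b l) (R l))
    (φ : X ≃ Σ l, P l) (τ : X ⊕ P0 → X ⊕ P0) (hinv : ∀ e, τ (τ e) = e)
    (h0 : ∀ p, ∃ x, τ (inr p) = inl x)
    (h1 : ∀ x y, τ (inl x) = inl y →
      (φ x).1 ≠ (φ y).1 ∧ (b (φ x).1 = true ∨ b (φ y).1 = true))
    (h2 : ∀ p q x y, τ (inr p) = inl x → τ (inr q) = inl y → (φ x).1 = (φ y).1 →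
      b (φ x).1 = false → p = q) :
    Real' k ok P0 true (fun r x => ∃ c : X ⊕ P0 → ℝ, (∀ p, c (inr p) = x p) ∧
      (∀ e, Cg r (c e) (c (τ e))) ∧ ∀ l, R l r (fun p => c (inl (φ.symm ⟨l, p⟩)))) := by
  choose A hI hR using h
  have hτ : Function.Injective τ := Function.LeftInverse.injective hinv
  have hfin : ∀ l, Fintype (A l).N := fun l => (A l).fin
  refine ⟨⟨Σ l, (A l).N, inferInstance, grv A φ τ, ?_, ?_, ?_, ?_⟩, fun _ => ?_,
    fun r hr x => ⟨?_, ?_⟩⟩
  · intro e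
    rcases g_cases A φ e with ⟨y, rfl⟩ | ⟨l, d, d', rfl, hd⟩
    · rw [grv_out, grv_out, hinv]
    · rw [grv_in A φ τ hd, grv_in A φ τ (e := d) (by rw [← hd, (A l).inv])]
  · intro p
    obtain ⟨x, hx⟩ := h0 p
    refine ⟨gS A (φ x), ?_⟩
    change gout A φ (τ (inr p)) = _
    rw [hx]
    rfl
  · intro d e h e1
    rcases grv_edge A φ τ h with ⟨x, y, h3, rfl, rfl⟩ | ⟨l, d0, e0, rfl, rfl, h3⟩
    · exact (h1 x y h3).1 (congrArg Sigma.fst e1).symm
    · exact (A l).noloop d0 e0 h3 (sigma_mk_injective (β := fun l => (A l).N) e1)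
  · intro d d' e e' h h' e1 e2
    have f1 : d.1.1 = d'.1.1 := congrArg Sigma.fst e1
    have f2 : e.1.1 = e'.1.1 := congrArg Sigma.fst e2
    rcases grv_edge A φ τ h with ⟨x, y, h3, rfl, rfl⟩ | ⟨l, d0, e0, rfl, rfl, h3⟩ <;>
      rcases grv_edge A φ τ h' with ⟨x', y', h4, rfl, rfl⟩ | ⟨l', d1, e1', rfl, rfl, h4⟩
    · rcases (h1 x y h3).2 with hb | hb
      · rw [gS_inj A e1 (hI _ hb)]
      · have e3 : y = y' := φ.injective (gS_inj A e2 (hI _ hb))
        rw [inl_injective (hτ (h3.trans (e3 ▸ h4.symm)))]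
    · exact absurd (f1.trans f2.symm) (h1 x y h3).1
    · exact absurd (f1.symm.trans f2) (h1 x' y' h4).1
    · have e3 : l = l' := f1
      subst e3
      rw [(A l).nopar d0 d1 e0 e1' h3 h4 (sigma_mk_injective (β := fun l => (A l).N) e1)
        (sigma_mk_injective (β := fun l => (A l).N) e2)]
  · intro p q d e hp hq e1
    obtain ⟨x, h3, rfl⟩ := gout_inl A φ (y := τ (inr p)) hp
    obtain ⟨y, h4, rfl⟩ := gout_inl A φ (y := τ (inr q)) hq
    rcases hb : b (φ x).1 with _ | _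
    · have f1 : (gS A (φ x)).1.1 = (gS A (φ y)).1.1 := congrArg Sigma.fst e1
      exact h2 p q x y h3 h4 f1 hb
    · have e3 : x = y := φ.injective (gS_inj A e1 (hI _ hb))
      exact inr_injective (hτ (h3.trans (e3 ▸ h4.symm)))
  · rintro ⟨c, c1, c2, c3⟩
    refine ⟨fun y => c (gout A φ y), c1, fun y => ?_, fun l => (hR l r hr _).1 ?_⟩
    · have e := c2 (gout A φ y)
      change Cg r _ (c (grv A φ τ _)) at e
      rwa [grv_out] at e
    · refine ⟨Sum.elim (fun d => c (inl (gup A l d))) (fun p => c (inl (gS A ⟨l, p⟩))),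
        fun p => ?_, ?_, fun v s s' hs => c3 ⟨l, v⟩ s s' hs⟩
      · change _ = c (inl (gS A (φ (φ.symm ⟨l, p⟩))))
        rw [Equiv.apply_symm_apply]
        rfl
      · rintro (d | p)
        · rcases hd : (A l).rv (inl d) with d' | p
          · have e : Cg r (c (inl (gup A l d))) (c (grv A φ τ (inl (gup A l d)))) := c2 _
            rwa [grv_in A φ τ hd] at e
          · rw [gat_eq A hd]
            exact Cg.refl _ _
        · rw [gat_spec]
          exact Cg.refl _ _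
  · rintro ⟨c, c1, c2, c3⟩
    choose cl d1 d2 d3 using fun l => (hR l r hr _).2 (c3 l)
    let C : ((Σ l, (A l).N) × Fin k) ⊕ P0 → ℝ :=
      Sum.elim (fun d => cl d.1.1 (inl (d.1.2, d.2))) (fun p => c (inr p))
    have hC : ∀ y, Cg r (C (gout A φ y)) (c y) := by
      rintro (y | p)
      · have e := d2 (φ y).1 (inr (φ y).2)
        rw [d1, gat_spec] at e
        change Cg r (c (inl (φ.symm (φ y)))) _ at e
        rw [Equiv.symm_apply_apply] at e
        exact e.symm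
      · exact Cg.refl _ _
    refine ⟨C, c1, fun e => ?_, fun v s s' hs => d3 v.1 v.2 s s' hs⟩
    change Cg r _ (C (grv A φ τ e))
    rcases g_cases A φ e with ⟨y, rfl⟩ | ⟨l, d, d', rfl, hd⟩
    · rw [grv_out]
      exact (hC y).trans ((c2 y).trans (hC _).symm)
    · rw [grv_in A φ τ hd]
      have e := d2 l (inl d)
      rw [hd] at e
      exact e

/-- Gluing a family of poles with a common port type, all with ports at distinct vertices. -/
theorem glueU {k : ℕ} {ok : ℝ → Prop} {Λ : Type} [Fintype Λ] {P P0 : Type}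
    (R : Λ → ℝ → (P → ℝ) → Prop) (h : ∀ l, Real' k ok P true (R l))
    (τ : (Λ × P) ⊕ P0 → (Λ × P) ⊕ P0) (hinv : ∀ e, τ (τ e) = e)
    (h0 : ∀ p, ∃ x, τ (inr p) = inl x)
    (h1 : ∀ x y, τ (inl x) = inl y → x.1 ≠ y.1) :
    Real' k ok P0 true (fun r x => ∃ c : (Λ × P) ⊕ P0 → ℝ, (∀ p, c (inr p) = x p) ∧
      (∀ e, Cg r (c e) (c (τ e))) ∧ ∀ l, R l r (fun p => c (inl (l, p)))) :=
  glue (P := fun _ => P) (fun _ => true) R h (Equiv.sigmaEquivProd Λ P).symm τ hinv h0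
    (fun x y e => ⟨h1 x y e, Or.inl rfl⟩) (fun _ _ _ _ _ _ _ e => absurd e (by simp))

/-- Two types as a family. -/
def bP (P1 P2 : Type) : Bool → Type
  | false => P1
  | true => P2

/-- A sum of two types as a dependent sum. -/
def bE (P1 P2 : Type) : P1 ⊕ P2 ≃ Σ l, bP P1 P2 l where
  toFun := Sum.elim (fun p => ⟨false, p⟩) (fun p => ⟨true, p⟩)
  invFun
    | ⟨false, p⟩ => inl p
    | ⟨true, p⟩ => inr p
  left_inv := by rintro (p | p) <;> rfl
  right_inv := by rintro ⟨_ | _, p⟩ <;> rfl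

/-- Two relations as a family. -/
def bR {P1 P2 : Type} (R1 : ℝ → (P1 → ℝ) → Prop) (R2 : ℝ → (P2 → ℝ) → Prop) :
    ∀ l, ℝ → (bP P1 P2 l → ℝ) → Prop
  | false => R1
  | true => R2

/-- Gluing two poles; the second has its ports at distinct vertices. -/
theorem glueB {k : ℕ} {ok : ℝ → Prop} {P1 P2 P0 : Type} {b1 : Bool}
    {R1 : ℝ → (P1 → ℝ) → Prop} {R2 : ℝ → (P2 → ℝ) → Prop}
    (g1 : Real' k ok P1 b1 R1) (g2 : Real' k ok P2 true R2)
    (τ : (P1 ⊕ P2) ⊕ P0 → (P1 ⊕ P2) ⊕ P0) (hinv : ∀ e, τ (τ e) = e)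
    (h0 : ∀ p, ∃ x, τ (inr p) = inl x)
    (h1 : ∀ x y, τ (inl (inl x)) ≠ inl (inl y)) (h1' : ∀ x y, τ (inl (inr x)) ≠ inl (inr y))
    (h2 : b1 = false → ∀ p q x y, τ (inr p) = inl (inl x) → τ (inr q) = inl (inl y) → p = q) :
    Real' k ok P0 true (fun r x => ∃ c : (P1 ⊕ P2) ⊕ P0 → ℝ, (∀ p, c (inr p) = x p) ∧
      (∀ e, Cg r (c e) (c (τ e))) ∧ R1 r (fun p => c (inl (inl p))) ∧
      R2 r (fun p => c (inl (inr p)))) := by
  refine (glue (fun l => l || b1) (bR R1 R2) ?_ (bE P1 P2) τ hinv h0 ?_ ?_).congr ?_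
  · rintro (_ | _)
    · exact g1
    · exact g2
  · rintro (x | x) (y | y) e
    · exact absurd e (h1 x y)
    · exact ⟨Bool.false_ne_true, Or.inr rfl⟩
    · exact ⟨Bool.false_ne_true.symm, Or.inl rfl⟩
    · exact absurd e (h1' x y)
  · rintro p q (x | x) (y | y) e e' f hb
    · exact h2 hb p q x y e e'
    · cases f
    · cases f
    · cases hb
  · intro r _ x
    refine exists_congr fun c => and_congr_right fun _ => and_congr_right fun _ => ?_
    exact Bool.forall_bool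

end Pool.Agent.P.MP_3f5ded_co.UG
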