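import Pool.Agent.P.MP_3f5ded_co.UGGlue

set_option autoImplicit false

namespace Pool.Agent.P.MP_3f5ded_co.UG

open Sum

variable {k : ℕ} {ok : ℝ → Prop}

/-- Port relations only depend on the colours modulo `r`. -/
theorem Real'.cg {P : Type} {b : Bool} {R : ℝ → (P → ℝ) → Prop} (h : Real' k ok P b R) {r : ℝ}
    (hr : ok r) {x y : P → ℝ} (hx : R r x) (e : ∀ p, Cg r (x p) (y p)) : R r y := by
  obtain ⟨A, -, h2⟩ := h
  obtain ⟨c, c1, c2, c3⟩ := (h2 r hr x).2 hx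
  have key : ∀ d, Cg r (c d) (Sum.elim (fun d => c (inl d)) y d) := by
    rintro (d | p)
    · exact Cg.refl _ _
    · rw [c1]
      exact e p
  exact (h2 r hr y).1 ⟨Sum.elim (fun d => c (inl d)) y, fun _ => rfl,
    fun d => (key d).symm.trans ((c2 d).trans (key _)), c3⟩

/-- Copies of one pole wired along a table of edges. -/
theorem netU {Λ : Type} [Fintype Λ] {P P0 Ed : Type} {R : ℝ → (P → ℝ) → Prop}
    (h : Real' k ok P true R) (τ : (Λ × P) ⊕ P0 → (Λ × P) ⊕ P0) (hinv : ∀ e, τ (τ e) = e)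
    (h0 : ∀ p, ∃ x, τ (inr p) = inl x) (h1 : ∀ x y, τ (inl x) = inl y → x.1 ≠ y.1)
    (edg : (Λ × P) ⊕ P0 → Ed) (rep : Ed → (Λ × P) ⊕ P0) (e1 : ∀ e, edg (τ e) = edg e)
    (e2 : ∀ e, rep (edg e) = e ∨ rep (edg e) = τ e) (e3 : ∀ p, rep (edg (inr p)) = inr p) :
    Real' k ok P0 true (fun r x => ∃ w : Ed → ℝ, (∀ p, w (edg (inr p)) = x p) ∧
      ∀ l, R r (fun p => w (edg (inl (l, p))))) := by
  refine (glueU (fun _ => R) (fun _ => h) τ hinv h0 h1).congr fun r hr x => ⟨?_, ?_⟩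
  · rintro ⟨c, c1, c2, c3⟩
    refine ⟨fun e => c (rep e), fun p => (congrArg c (e3 p)).trans (c1 p),
      fun l => h.cg hr (c3 l) fun p => ?_⟩
    change Cg r _ (c (rep (edg (inl (l, p)))))
    rcases e2 (inl (l, p)) with e | e <;> rw [e]
    · exact Cg.refl _ _
    · exact c2 _
  · rintro ⟨w, w1, w2⟩
    exact ⟨fun e => w (edg e), w1, fun e => Cg.of_eq (congrArg w (e1 e).symm), w2⟩

/-- The wires of two poles in series. -/
def wSer : (Fin 2 ⊕ Fin 2) ⊕ Fin 2 → (Fin 2 ⊕ Fin 2) ⊕ Fin 2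
  | inl (inl i) => ![inr 0, inl (inr 0)] i
  | inl (inr i) => ![inl (inl 1), inr 1] i
  | inr j => ![inl (inl 0), inl (inr 1)] j

/-- Two poles in series. -/
theorem Real'.ser {R1 R2 : ℝ → (Fin 2 → ℝ) → Prop} (g1 : Real' k ok (Fin 2) true R1)
    (g2 : Real' k ok (Fin 2) true R2) :
    Real' k ok (Fin 2) true (fun r x => ∃ y, R1 r ![x 0, y] ∧ R2 r ![y, x 1]) := by
  refine (glueB g1 g2 wSer (by decide) (by decide) (by decide) (by decide)
    (fun h => by cases h)).congr fun r hr x => ⟨?_, ?_⟩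
  · rintro ⟨c, h0, h1, h2, h3⟩
    have e : ∀ j, Cg r (c (wSer (inr j))) (x j) := fun j => (h0 j ▸ h1 (inr j)).symm
    refine ⟨c (inl (inl 1)), g1.cg hr h2 fun p => ?_, g2.cg hr h3 fun p => ?_⟩
    · fin_cases p
      · exact e 0
      · exact Cg.refl _ _
    · fin_cases p
      · exact h1 (inl (inr 0))
      · exact e 1
  · rintro ⟨y, h1, h2⟩
    refine ⟨Sum.elim (Sum.elim ![x 0, y] ![y, x 1]) x, fun _ => rfl, ?_, h1, h2⟩
    rintro ((i | i) | i) <;> fin_cases i <;> exact Cg.refl _ _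

/-- The wires of a cap on the first two of four ports. -/
def wCap : (Fin 2 ⊕ Fin 4) ⊕ Fin 2 → (Fin 2 ⊕ Fin 4) ⊕ Fin 2
  | inl (inl i) => ![inl (inr 0), inl (inr 1)] i
  | inl (inr i) => ![inl (inl 0), inl (inl 1), inr 0, inr 1] i
  | inr j => ![inl (inr 2), inl (inr 3)] j

/-- A cap on the first two of four ports. -/
theorem Real'.cap {R1 : ℝ → (Fin 2 → ℝ) → Prop} {R2 : ℝ → (Fin 4 → ℝ) → Prop}
    (g1 : Real' k ok (Fin 2) true R1) (g2 : Real' k ok (Fin 4) true R2) :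
    Real' k ok (Fin 2) true (fun r x => ∃ a b, R1 r ![a, b] ∧ R2 r ![a, b, x 0, x 1]) := by
  refine (glueB g1 g2 wCap (by decide) (by decide) (by decide) (by decide)
    (fun h => by cases h)).congr fun r hr x => ⟨?_, ?_⟩
  · rintro ⟨c, h0, h1, h2, h3⟩
    have e : ∀ j, Cg r (c (wCap (inr j))) (x j) := fun j => (h0 j ▸ h1 (inr j)).symm
    refine ⟨c (inl (inl 0)), c (inl (inl 1)), g1.cg hr h2 fun p => ?_, g2.cg hr h3 fun p => ?_⟩
    · fin_cases p <;> exact Cg.refl _ _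
    · fin_cases p
      · exact h1 (inl (inr 0))
      · exact h1 (inl (inr 1))
      · exact e 0
      · exact e 1
  · rintro ⟨a, b, h1, h2⟩
    refine ⟨Sum.elim (Sum.elim ![a, b] ![a, b, x 0, x 1]) x, fun _ => rfl, ?_, h1, h2⟩
    rintro ((i | i) | i) <;> fin_cases i <;> exact Cg.refl _ _

/-- The wires that close two poles. -/
def wClo : (Fin 2 ⊕ Fin 2) ⊕ Fin 0 → (Fin 2 ⊕ Fin 2) ⊕ Fin 0
  | inl (inl i) => inl (inr i)
  | inl (inr i) => inl (inl i)
  | inr j => inr j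

/-- Two poles closed against each other. -/
theorem Real'.clo {R1 R2 : ℝ → (Fin 2 → ℝ) → Prop} (g1 : Real' k ok (Fin 2) true R1)
    (g2 : Real' k ok (Fin 2) true R2) :
    Real' k ok (Fin 0) true (fun r _ => ∃ y, R1 r y ∧ R2 r y) := by
  refine (glueB g1 g2 wClo (by decide) (by decide) (by decide) (by decide)
    (fun h => by cases h)).congr fun r hr x => ⟨?_, ?_⟩
  · rintro ⟨c, -, h1, h2, h3⟩
    exact ⟨_, h2, g2.cg hr h3 fun p => h1 (inl (inr p))⟩
  · rintro ⟨y, h1, h2⟩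
    refine ⟨Sum.elim (Sum.elim y y) x, fun _ => rfl, ?_, h1, h2⟩
    rintro ((i | i) | i) <;> exact Cg.refl _ _

end Pool.Agent.P.MP_3f5ded_co.UG
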