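import Pool.Agent.P.MP_3f5ded_co.UGDefs

set_option autoImplicit false

namespace Pool.Agent.P.MP_3f5ded_co.UG

open Sum

/-- The inner edges of `T` sorted by colour and lifted to the real line. -/
structure Mod (r : ℝ) where
  s : ℤ → ℝ
  e : ℤ → Fin 30
  mono : Monotone s
  per : ∀ j, s (j + 30) = s j + r
  eiff : ∀ i j, e i = e j ↔ (j - i) % 30 = 0
  esurj : ∀ k, ∃ j, e j = k
  touch : ∀ i j v, i < j → inc (e i) v → inc (e j) v → s i + 1 ≤ s j

/-- The residue of an integer modulo thirty. -/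
def res30 (j : ℤ) : Fin 30 := ⟨(j % 30).toNat, by omega⟩

lemma res30_eq {i j : ℤ} : res30 i = res30 j ↔ (j - i) % 30 = 0 := by
  simp only [res30, Fin.mk.injEq]
  omega

lemma res30_le {i j : ℤ} (h : i % 30 ≤ j % 30) : res30 i ≤ res30 j := by
  simp only [res30, Fin.mk_le_mk]
  omega

lemma res30_coe (k : Fin 30) : res30 (k.1 : ℤ) = k := by
  apply Fin.ext
  have := k.2
  simp only [res30]
  omega

/-- Sorting a colouring. -/
theorem exists_mod {r : ℝ} (hr : 1 ≤ r) (col : Fin 30 → ℝ)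
    (h : ∀ k k' v, k ≠ k' → inc k v → inc k' v → Far r (col k) (col k')) :
    ∃ m : Mod r, ∀ j, Cg r (m.s j) (col (m.e j)) := by
  have hr0 : 0 < r := by linarith
  obtain ⟨g, hg⟩ : ∃ g : Fin 30 → ℝ, ∀ k, g k = toIcoMod hr0 0 (col k) := ⟨_, fun _ => rfl⟩
  have g0 : ∀ k, 0 ≤ g k := fun k => hg k ▸ (toIcoMod_mem_Ico hr0 0 (col k)).1
  have g1 : ∀ k, g k < r := fun k => by
    have := (toIcoMod_mem_Ico hr0 0 (col k)).2
    rw [zero_add] at this
    exact hg k ▸ this
  have gc : ∀ k, Cg r (col k) (g k) := fun k => hg k ▸ cg_mod hr0 (col k)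
  obtain ⟨σ, hσ⟩ : ∃ σ : Equiv.Perm (Fin 30), Monotone (g ∘ σ) :=
    ⟨Tuple.sort g, Tuple.monotone_sort g⟩
  obtain ⟨s, hs⟩ : ∃ s : ℤ → ℝ, ∀ j, s j = g (σ (res30 j)) + ((j / 30 : ℤ) : ℝ) * r :=
    ⟨_, fun _ => rfl⟩
  have mono : Monotone s := by
    intro i j hij
    rw [hs, hs]
    rcases (show i / 30 = j / 30 ∨ i / 30 + 1 ≤ j / 30 by omega) with e | e
    · have : g (σ (res30 i)) ≤ g (σ (res30 j)) := hσ (res30_le (by omega))
      rw [e]
      linarith
    · have e' : ((i / 30 : ℤ) : ℝ) + 1 ≤ ((j / 30 : ℤ) : ℝ) := by exact_mod_cast e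
      have := mul_le_mul_of_nonneg_right e' hr0.le
      linarith [g0 (σ (res30 j)), g1 (σ (res30 i))]
  have per : ∀ j, s (j + 30) = s j + r := by
    intro j
    have e1 : res30 (j + 30) = res30 j := res30_eq.2 (by omega)
    have e2 : (j + 30) / 30 = j / 30 + 1 := by omega
    rw [hs, hs, e1, e2]
    push_cast
    ring
  have hc : ∀ j, Cg r (s j) (col (σ (res30 j))) := fun j =>
    Cg.trans ⟨j / 30, hs j⟩ (gc _).symm
  refine ⟨⟨s, fun j => σ (res30 j), mono, per, fun i j => ?_, fun k => ?_, ?_⟩, hc⟩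
  · rw [σ.apply_eq_iff_eq, res30_eq]
  · exact ⟨((σ.symm k).1 : ℤ), by rw [res30_coe, σ.apply_symm_apply]⟩
  · intro i j v hij hi hj
    by_cases e : σ (res30 i) = σ (res30 j)
    · rw [σ.apply_eq_iff_eq, res30_eq] at e
      have h1 := mono (show i + 30 ≤ j by omega)
      rw [per] at h1
      linarith
    · have h1 := (h _ _ v e hi hj).congr (hc i).symm (hc j).symm
      have h2 := mono hij.le
      rcases h1.or with h3 | h3
      · exact h3
      · linarith

end Pool.Agent.P.MP_3f5ded_co.UG
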