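import Pool.Agent.P.MP_3f5ded_co.UGDefs

set_option autoImplicit false

namespace Pool.Agent.P.MP_3f5ded_co.UG

open Sum

/-- The local condition on three consecutive letters. -/
abbrev wordC (a b c : ℕ) : Prop := (b + c = 5 ∨ b + c = 6) ∧ ¬ (a + b = 5 ∧ b + c = 5)

/-- A test for all letters. -/
def wordA (f : ℕ → Bool) : Bool := (List.range 5).all f

lemma word_imp (a b : Bool) : (!a || b) = true ↔ (a = true → b = true) := by
  cases a <;> simp

lemma word_bool :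
    (wordA fun x0 => wordA fun x1 => !decide (x0 + x1 = 6) ||
      wordA fun x2 => !decide (x1 + x2 = 6) ||
      wordA fun x3 => !decide (wordC x1 x2 x3) ||
      wordA fun x4 => !decide (wordC x2 x3 x4) ||
      wordA fun x5 => !decide (wordC x3 x4 x5) ||
      wordA fun x6 => !decide (wordC x4 x5 x6) ||
      wordA fun x7 => !decide (wordC x5 x6 x7) ||
      wordA fun x8 => !decide (wordC x6 x7 x8) ||
      wordA fun x9 => !decide (wordC x7 x8 x9) ||
      wordA fun x10 => !decide (wordC x8 x9 x10) ||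
      wordA fun x11 => !decide (wordC x9 x10 x11) ||
      wordA fun x12 => !decide (wordC x10 x11 x12) ||
      wordA fun x13 => !decide (wordC x11 x12 x13) ||
      wordA fun x14 => !decide (wordC x12 x13 x14) ||
      decide (wordC x13 x14 x0 →
        x0 + x1 + x2 + x3 + x4 + x5 + x6 + x7 + x8 + x9 + x10 + x11 + x12 + x13 + x14 = 42 →
        x2 + x3 = 5 ∧ x4 + x5 = 5 ∧ x7 + x8 = 5 ∧ x9 + x10 = 5 ∧ x12 + x13 = 5 ∧
          x14 + x0 = 5)) = true := by
  decide +kernel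

lemma word_fin :
    ∀ x0 < 5, ∀ x1 < 5, x0 + x1 = 6 → ∀ x2 < 5, x1 + x2 = 6 →
      ∀ x3 < 5, wordC x1 x2 x3 → ∀ x4 < 5, wordC x2 x3 x4 → ∀ x5 < 5, wordC x3 x4 x5 →
      ∀ x6 < 5, wordC x4 x5 x6 → ∀ x7 < 5, wordC x5 x6 x7 → ∀ x8 < 5, wordC x6 x7 x8 →
      ∀ x9 < 5, wordC x7 x8 x9 → ∀ x10 < 5, wordC x8 x9 x10 → ∀ x11 < 5, wordC x9 x10 x11 →
      ∀ x12 < 5, wordC x10 x11 x12 → ∀ x13 < 5, wordC x11 x12 x13 → ∀ x14 < 5, wordC x12 x13 x14 →
      wordC x13 x14 x0 →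
      x0 + x1 + x2 + x3 + x4 + x5 + x6 + x7 + x8 + x9 + x10 + x11 + x12 + x13 + x14 = 42 →
      x2 + x3 = 5 ∧ x4 + x5 = 5 ∧ x7 + x8 = 5 ∧ x9 + x10 = 5 ∧ x12 + x13 = 5 ∧ x14 + x0 = 5 := by
  simpa only [wordA, List.all_eq_true, List.mem_range, word_imp, decide_eq_true_eq]
    using word_bool

lemma word_sum (l : ℤ → ℕ) (per : ∀ i, l (i + 15) = l i) (i : ℤ) :
    ∑ t ∈ Finset.range 15, l (i + t) = ∑ t ∈ Finset.range 15, l t := by
  have step : ∀ i : ℤ,
      ∑ t ∈ Finset.range 15, l (i + 1 + t) = ∑ t ∈ Finset.range 15, l (i + t) := by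
    intro i
    have h1 := Finset.sum_range_succ (fun t : ℕ => l (i + t)) 15
    have h2 := Finset.sum_range_succ' (fun t : ℕ => l (i + t)) 15
    have h3 : ∀ t : ℕ, i + ((t + 1 : ℕ) : ℤ) = i + 1 + t := fun t => by push_cast; ring
    have h4 := per i
    simp only [h3, Nat.cast_ofNat, Nat.cast_zero, add_zero] at h1 h2
    omega
  induction i using Int.induction_on with
  | zero => simp only [zero_add]
  | succ k ih => rw [step, ih]
  | pred k ih => rw [← step, sub_add_cancel, ih]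

/-- Step (6): the word of missing vertices. -/
theorem word (l : ℤ → ℕ) (per : ∀ i, l (i + 15) = l i) (le : ∀ i, l i ≤ 4)
    (h56 : ∀ i, l i + l (i + 1) = 5 ∨ l i + l (i + 1) = 6)
    (h55 : ∀ i, l i + l (i + 1) = 5 → l (i + 1) + l (i + 2) = 5 → False)
    (sum : ∑ t ∈ Finset.range 15, l t = 42)
    (i : ℤ) (h0 : l i + l (i + 1) = 6) (h1 : l (i + 1) + l (i + 2) = 6) :
    l (i + 2) + l (i + 3) = 5 ∧ l (i - 1) + l i = 5 ∧
      ∀ j, l j + l (j + 1) = 6 → l (j + 1) + l (j + 2) = 6 → (j - i) % 5 = 0 := by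
  have hs := (word_sum l per i).trans sum
  have hp : Function.Periodic l 15 := per
  obtain ⟨x, hx⟩ : ∃ x : ℕ → ℕ, ∀ t : ℕ, l (i + t) = x t := ⟨_, fun _ => rfl⟩
  have hx1 : ∀ t : ℕ, l (i + t + 1) = x (t + 1) := fun t =>
    (congrArg l (by push_cast; ring)).trans (hx _)
  have hx2 : ∀ t : ℕ, l (i + t + 2) = x (t + 2) := fun t =>
    (congrArg l (by push_cast; ring)).trans (hx _)
  have hC : ∀ t, wordC (x t) (x (t + 1)) (x (t + 2)) := fun t => by
    have a := h56 (i + t + 1)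
    have b := h55 (i + t)
    rw [show i + t + 1 + 1 = i + t + 2 by ring] at a
    rw [hx] at b
    rw [hx1, hx2] at a b
    exact ⟨a, fun h => b h.1 h.2⟩
  have hl : ∀ t, x t < 5 := fun t => hx t ▸ Nat.lt_succ_of_le (le _)
  have e0 : l i = x 0 := by rw [← hx]; simp
  have e1 : l (i + 1) = x 1 := hx 1
  have e2 : l (i + 2) = x 2 := hx 2
  have e3 : l (i + 3) = x 3 := hx 3
  have e14 : l (i - 1) = x 14 :=
    (per _).symm.trans ((congrArg l (by push_cast; ring)).trans (hx _))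
  have e15 : x 15 = x 0 := by rw [← hx, ← e0]; exact per i
  have c13 : wordC (x 13) (x 14) (x 0) := e15 ▸ hC 13
  simp only [hx, Finset.sum_range_succ, Finset.sum_range_zero, zero_add] at hs
  obtain ⟨p2, p4, p7, p9, p12, p14⟩ := word_fin _ (hl 0) _ (hl 1) (by omega) _ (hl 2) (by omega)
    _ (hl 3) (hC 1) _ (hl 4) (hC 2) _ (hl 5) (hC 3) _ (hl 6) (hC 4) _ (hl 7) (hC 5) _ (hl 8) (hC 6)
    _ (hl 9) (hC 7) _ (hl 10) (hC 8) _ (hl 11) (hC 9) _ (hl 12) (hC 10) _ (hl 13) (hC 11)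
    _ (hl 14) (hC 12) c13 hs
  refine ⟨by omega, by omega, fun j a b => ?_⟩
  obtain ⟨t, ht⟩ := Int.eq_ofNat_of_zero_le (Int.emod_nonneg (j - i) (by norm_num : (15 : ℤ) ≠ 0))
  have hj : ∀ s : ℤ, l (j + s) = l (i + t + s) := fun s =>
    (congrArg l (by simp only [Int.cast_id]; omega)).trans
      (hp.int_mul ((j - i) / 15) (i + t + s))
  have j0 := hj 0
  rw [add_zero, add_zero, hx] at j0
  rw [j0, hj, hx1] at a
  rw [hj, hj, hx1, hx2] at b
  have ht' : t < 15 := by omega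
  interval_cases t <;> simp only [Nat.reduceAdd, Nat.cast_ofNat] at a b ht <;> omega

end Pool.Agent.P.MP_3f5ded_co.UG
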