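import Pool.Agent.P.MP_3f5ded_co.UGSkel
import Pool.Agent.P.MP_3f5ded_co.UGWord
import Pool.Agent.P.MP_3f5ded_co.UGSort

set_option autoImplicit false

namespace Pool.Agent.P.MP_3f5ded_co.UG

open Sum

lemma eu_ne : ∀ k, eu k ≠ ev k := by decide

lemma edge_ext : ∀ k k', inc k (eu k') → inc k (ev k') → k' = k := by decide

lemma leaf_adj : ∀ x y : Fin 9, 3 ≤ x.val → 3 ≤ y.val → x ≠ y → ∃ k, inc k x ∧ inc k y := by
  decide

lemma leaf_deg : ∀ x : Fin 9, 3 ≤ x.val → ∑ k : Fin 30, (if inc k x then 1 else 0) = 7 := by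
  decide

lemma md_inc : ∀ v, ∃ k, inc k (md v) := by decide

lemma md_inj : ∀ u v, md u = md v → u = v := by decide

lemma md_lt : ∀ v, (md v).val < 3 := by decide

lemma inc_eu (k : Fin 30) : inc k (eu k) := Or.inl rfl

lemma inc_ev (k : Fin 30) : inc k (ev k) := Or.inr rfl

lemma ten (l : List (Fin 9)) (h : l.Nodup) : l.length ≤ 9 := by
  simpa using h.length_le_card

lemma fill (k k' : Fin 30) (l : List (Fin 9)) (hl : l.length = 7)
    (hn : (eu k :: ev k :: l).Nodup) (h : ∀ x ∈ l, ¬ inc k' x) : k' = k := by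
  have key : ∀ x, inc k' x → inc k x := by
    intro x hx
    by_contra hc
    have : (x :: eu k :: ev k :: l).Nodup := by
      refine List.nodup_cons.mpr ⟨?_, hn⟩
      simp only [List.mem_cons, not_or]
      exact ⟨fun e => hc (Or.inl e.symm), fun e => hc (Or.inr e.symm), fun e => h x e hx⟩
    have := ten _ this
    simp [hl] at this
  exact edge_ext k k' (key _ (inc_eu _)) (key _ (inc_ev _))

/-- Disjoint edges. -/
def Dj (k k' : Fin 30) : Prop := ∀ v, inc k v → inc k' v → False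

lemma Dj.ne {k k' : Fin 30} (h : Dj k k') :
    eu k ≠ eu k' ∧ eu k ≠ ev k' ∧ ev k ≠ eu k' ∧ ev k ≠ ev k' :=
  ⟨fun e => h _ (inc_eu _) (Or.inl e.symm), fun e => h _ (inc_eu _) (Or.inr e.symm),
    fun e => h _ (inc_ev _) (Or.inl e.symm), fun e => h _ (inc_ev _) (Or.inr e.symm)⟩

lemma ninc {k : Fin 30} {v : Fin 9} (h : ¬ inc k v) : eu k ≠ v ∧ ev k ≠ v := not_or.mp h

lemma two_miss {a b c d : Fin 30} {u v : Fin 9} (huv : u ≠ v) (ab : Dj a b) (ac : Dj a c)
    (ad : Dj a d) (bc : Dj b c) (bd : Dj b d) (cd : Dj c d)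
    (au : ¬ inc a u) (bu : ¬ inc b u) (cu : ¬ inc c u) (du : ¬ inc d u)
    (av : ¬ inc a v) (bv : ¬ inc b v) (cv : ¬ inc c v) (dv : ¬ inc d v) : False := by
  have : [eu a, ev a, eu b, ev b, eu c, ev c, eu d, ev d, u, v].Nodup := by
    simp [eu_ne, huv, ab.ne, ac.ne, ad.ne, bc.ne, bd.ne, cd.ne, ninc au, ninc bu, ninc cu,
      ninc du, ninc av, ninc bv, ninc cv, ninc dv]
  have := ten _ this
  simp at this

lemma three_miss {a b c d : Fin 30} {u v w : Fin 9} (huv : u ≠ v) (huw : u ≠ w) (hvw : v ≠ w)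
    (ab : Dj a b) (ac : Dj a c) (bc : Dj b c) (bd : Dj b d) (cd : Dj c d)
    (au : ¬ inc a u) (bu : ¬ inc b u) (cu : ¬ inc c u) (du : ¬ inc d u)
    (av : ¬ inc a v) (bv : ¬ inc b v) (cv : ¬ inc c v) (dv : ¬ inc d v)
    (aw : ¬ inc a w) (bw : ¬ inc b w) (cw : ¬ inc c w) (dw : ¬ inc d w) : d = a := by
  refine fill a d [eu b, ev b, eu c, ev c, u, v, w] rfl ?_ ?_
  · simp [eu_ne, huv, huw, hvw, ab.ne, ac.ne, bc.ne, ninc au, ninc bu, ninc cu,
      ninc av, ninc bv, ninc cv, ninc aw, ninc bw, ninc cw]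
  · intro x hx
    simp only [List.mem_cons, List.not_mem_nil, or_false] at hx
    rcases hx with rfl | rfl | rfl | rfl | rfl | rfl | rfl
    exacts [bd _ (inc_eu _), bd _ (inc_ev _), cd _ (inc_eu _), cd _ (inc_ev _), du, dv, dw]

lemma one_miss {a b c d e : Fin 30} {v : Fin 9}
    (ab : Dj a b) (ac : Dj a c) (ad : Dj a d) (bc : Dj b c) (bd : Dj b d) (cd : Dj c d)
    (be : Dj b e) (ce : Dj c e) (de : Dj d e)
    (av : ¬ inc a v) (bv : ¬ inc b v) (cv : ¬ inc c v) (dv : ¬ inc d v) (ev' : ¬ inc e v) :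
    e = a := by
  refine fill a e [eu b, ev b, eu c, ev c, eu d, ev d, v] rfl ?_ ?_
  · simp [eu_ne, ab.ne, ac.ne, ad.ne, bc.ne, bd.ne, cd.ne, ninc av, ninc bv, ninc cv, ninc dv]
  · intro x hx
    simp only [List.mem_cons, List.not_mem_nil, or_false] at hx
    rcases hx with rfl | rfl | rfl | rfl | rfl | rfl | rfl
    exacts [be _ (inc_eu _), be _ (inc_ev _), ce _ (inc_eu _), ce _ (inc_ev _),
      de _ (inc_eu _), de _ (inc_ev _), ev']

lemma five {a b c d e : Fin 30}
    (ab : Dj a b) (ac : Dj a c) (ad : Dj a d) (ae : Dj a e) (bc : Dj b c) (bd : Dj b d)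
    (be : Dj b e) (cd : Dj c d) (ce : Dj c e) (de : Dj d e) : False := by
  have : [eu a, ev a, eu b, ev b, eu c, ev c, eu d, ev d, eu e, ev e].Nodup := by
    simp [eu_ne, ab.ne, ac.ne, ad.ne, ae.ne, bc.ne, bd.ne, be.ne, cd.ne, ce.ne, de.ne]
  have := ten _ this
  simp at this

namespace Mod

variable {r : ℝ} (m : Mod r)

/-- Shifting the indices by one. -/
def shift : Mod r where
  s j := m.s (j + 1)
  e j := m.e (j + 1)
  mono := fun a b h => m.mono (by omega)
  per j := by rw [← m.per]; congr 1; ring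
  eiff i j := by rw [m.eiff]; omega
  esurj k := by
    obtain ⟨j, hj⟩ := m.esurj k
    exact ⟨j - 1, by simpa using hj⟩
  touch i j v h := m.touch _ _ v (by omega)

lemma le {i j : ℤ} (h : i ≤ j) : m.s i ≤ m.s j := m.mono h

lemma four (j : ℤ) : m.s j + 1 ≤ m.s (j + 4) := by
  by_contra hc
  have D : ∀ a b : ℤ, j ≤ a → a < b → b ≤ j + 4 → Dj (m.e a) (m.e b) := by
    intro a b h1 h2 h3 v ha hb
    have := m.touch a b v h2 ha hb
    have := m.le h1
    have := m.le h3
    exact hc (by linarith)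
  exact five (D j (j + 1) (by omega) (by omega) (by omega)) (D j (j + 2) (by omega) (by omega) (by omega))
    (D j (j + 3) (by omega) (by omega) (by omega)) (D j (j + 4) (by omega) (by omega) (by omega))
    (D (j + 1) (j + 2) (by omega) (by omega) (by omega))
    (D (j + 1) (j + 3) (by omega) (by omega) (by omega))
    (D (j + 1) (j + 4) (by omega) (by omega) (by omega))
    (D (j + 2) (j + 3) (by omega) (by omega) (by omega))
    (D (j + 2) (j + 4) (by omega) (by omega) (by omega))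
    (D (j + 3) (j + 4) (by omega) (by omega) (by omega))

lemma foursN (j : ℤ) (n : ℕ) : m.s j + n ≤ m.s (j + 4 * n) := by
  induction n with
  | zero => simp
  | succ n ih =>
    have := m.four (j + 4 * n)
    have e : j + 4 * ((n + 1 : ℕ) : ℤ) = j + 4 * n + 4 := by push_cast; ring
    rw [e]; push_cast; linarith

lemma fours {i j n : ℤ} (hn : 0 ≤ n) (h : i + 4 * n ≤ j) : m.s i + n ≤ m.s j := by
  obtain ⟨n, rfl⟩ := Int.eq_ofNat_of_zero_le hn
  have := m.foursN i n
  have := m.le h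
  push_cast; linarith

lemma perZ (j n : ℤ) : m.s (j + 30 * n) = m.s j + n * r := by
  induction n using Int.induction_on generalizing j with
  | zero => simp
  | succ n ih =>
    have e : j + 30 * ((n : ℤ) + 1) = (j + 30 * n) + 30 := by ring
    rw [e, m.per, ih]; push_cast; ring
  | pred n ih =>
    have e : j + 30 * (-(n : ℤ)) = (j + 30 * (-(n : ℤ) - 1)) + 30 := by ring
    have := ih j
    rw [e, m.per] at this
    push_cast at this ⊢; linarith

/-- A step of length `a` gaining `g`. -/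
def St (a : ℤ) (g : ℝ) (j : ℤ) : Prop := m.s j + g ≤ m.s (j + a)

lemma St.per {m : Mod r} {a : ℤ} {g : ℝ} {x y : ℤ} (h : m.St a g x) (e : (y - x) % 30 = 0) :
    m.St a g y := by
  obtain ⟨n, rfl⟩ : ∃ n, y = x + 30 * n := ⟨(y - x) / 30, by omega⟩
  unfold St at h ⊢
  have e : x + 30 * n + a = x + a + 30 * n := by ring
  rw [e, m.perZ, m.perZ]; linarith

lemma St.lap1 {m : Mod r} (hr : r < 8) {a n : ℤ} {g : ℝ} {x : ℤ} (h : m.St a g x) (hn : 0 ≤ n)
    (e : a + 4 * n ≤ 30) (hg : 8 ≤ g + n) : False := by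
  have h1 := m.fours (i := x + a) (j := x + 30) hn (by omega)
  rw [m.per] at h1
  unfold St at h
  linarith

lemma St.lap2 {m : Mod r} (hr : r < 8) {a a' n n' : ℤ} {g g' : ℝ} {x y : ℤ} (h : m.St a g x)
    (h' : m.St a' g' y) (hn : 0 ≤ n) (hn' : 0 ≤ n') (e : (y - x) % 30 = a + 4 * n)
    (e' : a + 4 * n + a' + 4 * n' ≤ 30) (hg : 8 ≤ g + g' + ((n + n' : ℤ) : ℝ)) : False := by
  have h'' := h'.per (y := x + a + 4 * n) (by omega)
  have h1 := m.fours (i := x + a) (j := x + a + 4 * n) hn le_rfl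
  have h2 := m.fours (i := x + a + 4 * n + a') (j := x + 30) hn' (by omega)
  rw [m.per] at h2
  unfold St at h h''
  push_cast at hg
  linarith

/-- The vertex `v` misses the window starting at `j`. -/
def Ms (v : Fin 9) (j : ℤ) : Prop :=
  ¬ inc (m.e j) v ∧ ¬ inc (m.e (j + 1)) v ∧ ¬ inc (m.e (j + 2)) v ∧ ¬ inc (m.e (j + 3)) v

lemma e_per {x y : ℤ} (h : (y - x) % 30 = 0) : m.e x = m.e y := (m.eiff x y).mpr h

lemma Ms.per {m : Mod r} {v : Fin 9} {x y : ℤ} (h : m.Ms v x) (e : (y - x) % 30 = 0) :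
    m.Ms v y := by
  unfold Ms at h ⊢
  rwa [← m.e_per e, ← m.e_per (x := x + 1) (y := y + 1) (by omega),
    ← m.e_per (x := x + 2) (y := y + 2) (by omega), ← m.e_per (x := x + 3) (y := y + 3) (by omega)]

variable (hr : r < 8)
include hr

lemma d12 {i j : ℤ} (h : i < j) (h' : j ≤ i + 2) : Dj (m.e i) (m.e j) := by
  intro v a b
  have h1 := m.touch i j v h a b
  have h2 := m.le h'
  exact St.lap1 (m := m) hr (a := 2) (n := 7) (g := 1) (x := i) (by unfold St; linarith)
    (by omega) (by omega) (by norm_num)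

omit hr in
lemma d3 {i j : ℤ} (h : ¬ m.St 3 1 i) (e : j = i + 3) : Dj (m.e i) (m.e j) := by
  subst e
  exact fun v a b => h (m.touch i _ v (by omega) a b)

lemma JJ (x y : ℤ) (hx : m.St 3 1 x) (hy : m.St 3 1 y) : (y - x) % 30 % 4 ≠ 3 := by
  intro e
  refine St.lap2 hr hx hy (n := ((y - x) % 30 - 3) / 4) (n' := 6 - ((y - x) % 30 - 3) / 4)
    (by omega) (by omega) (by omega) (by omega) ?_
  rw [add_sub_cancel]; norm_num

lemma PJ (x y : ℤ) (hx : m.St 7 2 x) (hy : m.St 3 1 y) (e : (y - x) % 30 % 4 = 3) :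
    (y - x) % 30 = 3 := by
  by_contra hc
  refine St.lap2 hr hx hy (n := ((y - x) % 30 - 7) / 4) (n' := 5 - ((y - x) % 30 - 7) / 4)
    (by omega) (by omega) (by omega) (by omega) ?_
  rw [add_sub_cancel]; norm_num

lemma PP (x y : ℤ) (hx : m.St 7 2 x) (hy : m.St 7 2 y) (e : (y - x) % 30 % 4 = 3) :
    (y - x) % 30 = 3 ∨ (y - x) % 30 = 27 := by
  by_contra hc
  refine St.lap2 hr hx hy (n := ((y - x) % 30 - 7) / 4) (n' := 4 - ((y - x) % 30 - 7) / 4)
    (by omega) (by omega) (by omega) (by omega) ?_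
  rw [add_sub_cancel]; norm_num

lemma M1 (v : Fin 9) (j : ℤ) (h : m.Ms v j) (h' : m.Ms v (j + 1)) :
    m.St 3 1 j ∨ m.St 3 1 (j + 1) := by
  by_contra hc
  obtain ⟨c1, c2⟩ := not_or.mp hc
  have := one_miss (a := m.e j) (b := m.e (j + 1)) (c := m.e (j + 2)) (d := m.e (j + 3))
    (e := m.e (j + 1 + 3)) (m.d12 hr (by omega) (by omega)) (m.d12 hr (by omega) (by omega))
    (m.d3 c1 rfl) (m.d12 hr (by omega) (by omega)) (m.d12 hr (by omega) (by omega))
    (m.d12 hr (by omega) (by omega)) (m.d3 c2 rfl) (m.d12 hr (by omega) (by omega))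
    (m.d12 hr (by omega) (by omega)) h.1 h.2.1 h.2.2.1 h.2.2.2 h'.2.2.2
  rw [m.eiff] at this
  omega

lemma M2 (u v : Fin 9) (j : ℤ) (huv : u ≠ v) (h : m.Ms u j) (h' : m.Ms v j) : m.St 3 1 j := by
  by_contra hc
  exact two_miss huv (m.d12 hr (by omega) (by omega)) (m.d12 hr (by omega) (by omega))
    (m.d3 hc rfl) (m.d12 hr (by omega) (by omega)) (m.d12 hr (by omega) (by omega))
    (m.d12 hr (by omega) (by omega)) h.1 h.2.1 h.2.2.1 h.2.2.2 h'.1 h'.2.1 h'.2.2.1 h'.2.2.2

lemma M3 (j : ℤ) (h : m.Ms (md 0) j) (h' : m.Ms (md 1) j) (h'' : m.Ms (md 2) j) : False := by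
  have := three_miss (by decide) (by decide) (by decide)
    (m.d12 hr (by omega) (by omega)) (m.d12 hr (by omega) (by omega))
    (m.d12 hr (by omega) (by omega)) (m.d12 hr (by omega) (by omega))
    (m.d12 hr (by omega) (by omega)) h.1 h.2.1 h.2.2.1 h.2.2.2 h'.1 h'.2.1 h'.2.2.1 h'.2.2.2
    h''.1 h''.2.1 h''.2.2.1 h''.2.2.2
  rw [m.eiff] at this
  omega

omit hr in
lemma exists_cut (v : Fin 3) (p : ℝ) (hp : ∀ j, inc (m.e j) (md v) → Far r (m.s j) p) :
    ∃ a, inc (m.e a) (md v) ∧ ∀ j, inc (m.e j) (md v) →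
      (j ≤ a → m.s j + 1 ≤ p) ∧ (a < j → p + 1 ≤ m.s j) := by
  classical
  obtain ⟨a, ⟨h1, h2⟩, h3⟩ := Int.exists_greatest_of_bdd
    (P := fun j => inc (m.e j) (md v) ∧ m.s j < p) (by
      obtain ⟨n, hn⟩ := exists_nat_ge (p - m.s 0)
      refine ⟨4 * n, fun z hz => ?_⟩
      by_contra hc
      have := m.fours (i := 0) (j := z) (n := n) (by omega) (by omega)
      push_cast at this
      linarith [hz.2]) (by
      obtain ⟨k, hk⟩ := md_inc v
      obtain ⟨j, rfl⟩ := m.esurj k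
      obtain ⟨n, hn⟩ := exists_nat_gt (m.s j - p)
      refine ⟨j - 60 * n, by rwa [← m.e_per (x := j) (by omega)], ?_⟩
      have := m.fours (i := j - 60 * n) (j := j) (n := n) (by omega) (by omega)
      push_cast at this
      linarith)
  refine ⟨a, h1, fun j hj => ⟨fun h => ?_, fun h => ?_⟩⟩
  · have := m.le h
    rcases (hp j hj).or with h | h <;> linarith
  · have : ¬ m.s j < p := fun hc => by have := h3 j ⟨hj, hc⟩; omega
    rcases (hp j hj).or with h | h
    · exact absurd (by linarith) this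
    · exact h

lemma cut_miss {v : Fin 9} {p : ℝ} {a : ℤ} (h1 : inc (m.e a) v)
    (h2 : ∀ j, inc (m.e j) v → (j ≤ a → m.s j + 1 ≤ p) ∧ (a < j → p + 1 ≤ m.s j)) :
    m.Ms v (a + 1) ∧ m.Ms v (a + 2) ∧ m.Ms v (a + 3) ∧ (m.Ms v (a + 4) ∨ m.St 7 2 a) := by
  have k0 := (h2 a h1).1 le_rfl
  have k : ∀ j, a < j → j ≤ a + 6 → ¬ inc (m.e j) v := by
    intro j b c hj
    have := (h2 j hj).2 b
    have := m.le c
    exact St.lap1 (m := m) hr (a := 6) (n := 6) (g := 2) (x := a) (by unfold St; linarith)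
      (by omega) (by omega) (by norm_num)
  refine ⟨⟨k _ (by omega) (by omega), k _ (by omega) (by omega), k _ (by omega) (by omega),
    k _ (by omega) (by omega)⟩, ⟨k _ (by omega) (by omega), k _ (by omega) (by omega),
    k _ (by omega) (by omega), k _ (by omega) (by omega)⟩, ⟨k _ (by omega) (by omega),
    k _ (by omega) (by omega), k _ (by omega) (by omega), k _ (by omega) (by omega)⟩, ?_⟩
  by_cases h : inc (m.e (a + 4 + 3)) v
  · right
    have := (h2 _ h).2 (by omega)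
    have e : a + 4 + 3 = a + 7 := by ring
    rw [e] at this
    unfold St; linarith
  · exact Or.inl ⟨k _ (by omega) (by omega), k _ (by omega) (by omega),
      k _ (by omega) (by omega), h⟩

/-- Indicator of incidence. -/
def ind (m : Mod r) (v : Fin 9) (j : ℤ) : ℕ := if inc (m.e j) v then 1 else 0

/-- Number of edges at `v` in the pair `i`. -/
def o (m : Mod r) (v : Fin 9) (i : ℤ) : ℕ := m.ind v (2 * i) + m.ind v (2 * i + 1)

/-- Number of leaves in the pair `i`. -/
def l (m : Mod r) (i : ℤ) : ℕ := m.o 3 i + m.o 4 i + m.o 5 i + m.o 6 i + m.o 7 i + m.o 8 i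

omit hr in
lemma deg_sum (v : Fin 9) (hv : 3 ≤ v.val) (j : ℤ) :
    ∑ t ∈ Finset.range 30, m.ind v (j + t) = 7 := by
  rw [Finset.sum_range, ← leaf_deg v hv]
  have inj : Function.Injective (fun t : Fin 30 => m.e (j + (t : ℕ))) := by
    intro a b h
    have := (m.eiff _ _).mp h
    have := a.2
    have := b.2
    exact Fin.ext (by omega)
  exact (Finite.injective_iff_bijective.mp inj).sum_comp (fun k => if inc k v then 1 else 0)

omit hr in
lemma o_sum (v : Fin 9) (hv : 3 ≤ v.val) (i : ℤ) :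
    ∑ t ∈ Finset.range 15, m.o v (i + t) = 7 := by
  have key : ∀ n : ℕ, ∑ t ∈ Finset.range n, m.o v (i + t) =
      ∑ t ∈ Finset.range (2 * n), m.ind v (2 * i + t) := by
    intro n
    induction n with
    | zero => simp
    | succ n ih =>
      rw [Nat.mul_succ, Finset.sum_range_succ, Finset.sum_range_succ, Finset.sum_range_succ, ih,
        add_assoc]
      unfold o
      congr 3 <;> push_cast <;> ring
  rw [key 15]
  exact m.deg_sum v hv _

omit hr in
lemma o_per (v : Fin 9) {x y : ℤ} (h : (y - x) % 15 = 0) : m.o v x = m.o v y := by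
  unfold o ind
  rw [m.e_per (x := 2 * x) (y := 2 * y) (by omega),
    m.e_per (x := 2 * x + 1) (y := 2 * y + 1) (by omega)]

omit hr in
lemma l_le (i : ℤ) : m.l i ≤ 4 := by
  have key : ∀ k : Fin 30, (if inc k 3 then 1 else 0) + (if inc k 4 then 1 else 0) +
      (if inc k 5 then 1 else 0) + (if inc k 6 then 1 else 0) + (if inc k 7 then 1 else 0) +
      (if inc k 8 then 1 else 0) ≤ 2 := by decide
  have h1 := key (m.e (2 * i))
  have h2 := key (m.e (2 * i + 1))
  unfold l o ind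
  omega

variable (odd : ∀ x, m.St 3 1 x → x % 2 = 1)
include odd

lemma w_eq (v : Fin 9) (i : ℤ) :
    (m.Ms v (2 * i) ∧ m.o v i + m.o v (i + 1) = 0) ∨
      (¬ m.Ms v (2 * i) ∧ m.o v i + m.o v (i + 1) = 1) := by
  have n3 : ¬ m.St 3 1 (2 * i) := fun h => by have := odd _ h; omega
  have a1 := m.d12 hr (i := 2 * i) (j := 2 * i + 1) (by omega) (by omega) v
  have a2 := m.d12 hr (i := 2 * i) (j := 2 * i + 2) (by omega) (by omega) v
  have a3 := m.d3 n3 rfl v
  have a4 := m.d12 hr (i := 2 * i + 1) (j := 2 * i + 2) (by omega) (by omega) v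
  have a5 := m.d12 hr (i := 2 * i + 1) (j := 2 * i + 3) (by omega) (by omega) v
  have a6 := m.d12 hr (i := 2 * i + 2) (j := 2 * i + 3) (by omega) (by omega) v
  have e1 : 2 * (i + 1) = 2 * i + 2 := by ring
  have e2 : 2 * i + 2 + 1 = 2 * i + 3 := by ring
  unfold Ms o ind
  rw [e1, e2]
  by_cases b0 : inc (m.e (2 * i)) v <;> by_cases b1 : inc (m.e (2 * i + 1)) v <;>
    by_cases b2 : inc (m.e (2 * i + 2)) v <;> by_cases b3 : inc (m.e (2 * i + 3)) v <;>
    simp [b0, b1, b2, b3] <;> tauto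

lemma l_miss (x : Fin 9) (i : ℤ) (h : m.Ms x (2 * i)) :
    m.l i + m.l (i + 1) = if 3 ≤ x.val then 5 else 6 := by
  have H : ∀ y, m.o y i + m.o y (i + 1) = if y = x then 0 else 1 := by
    intro y
    split_ifs with e
    · subst e
      rcases m.w_eq hr odd y i with c | c
      · exact c.2
      · exact absurd h c.1
    · rcases m.w_eq hr odd y i with c | c
      · have := odd _ (m.M2 hr y x _ e c.1 h)
        omega
      · exact c.2
  have key : ∀ x : Fin 9, (if 3 = x then 0 else 1) + (if 4 = x then 0 else 1) +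
      (if 5 = x then 0 else 1) + (if 6 = x then 0 else 1) + (if 7 = x then 0 else 1) +
      (if 8 = x then 0 else 1) = if 3 ≤ x.val then 5 else 6 := by decide
  rw [← key x, ← H 3, ← H 4, ← H 5, ← H 6, ← H 7, ← H 8]
  unfold l
  ring

lemma l_five (i : ℤ) : (∃ x : Fin 9, 3 ≤ x.val ∧ m.Ms x (2 * i)) ∨ m.l i + m.l (i + 1) = 6 := by
  by_cases h : ∃ x : Fin 9, 3 ≤ x.val ∧ m.Ms x (2 * i)
  · exact Or.inl h
  · right
    have H : ∀ y : Fin 9, 3 ≤ y.val → m.o y i + m.o y (i + 1) = 1 := by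
      intro y hy
      rcases m.w_eq hr odd y i with c | c
      · exact absurd ⟨y, hy, c.1⟩ h
      · exact c.2
    have := H 3 (by decide)
    have := H 4 (by decide)
    have := H 5 (by decide)
    have := H 6 (by decide)
    have := H 7 (by decide)
    have := H 8 (by decide)
    unfold l
    omega

lemma alt (x : Fin 9) (hx : 3 ≤ x.val) (i : ℤ) (h : m.Ms x (2 * i)) (t : ℕ) (ht : t < 15) :
    m.o x (i + t) = if t % 2 = 0 ∧ t ≠ 0 then 1 else 0 := by
  obtain ⟨g, hg⟩ : ∃ g : ℕ → ℕ, ∀ t, g t = m.o x (i + t) := ⟨_, fun _ => rfl⟩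
  have hw : ∀ t, g t + g (t + 1) ≤ 1 := by
    intro t
    have := m.w_eq hr odd x (i + t)
    rw [hg, hg]
    push_cast
    rw [← add_assoc]
    omega
  have h0 : g 0 + g 1 = 0 := by
    rw [hg, hg]
    rcases m.w_eq hr odd x i with c | c
    · simpa using c.2
    · exact absurd h c.1
  have hs := m.o_sum x hx i
  simp only [← hg, Finset.sum_range_succ, Finset.sum_range_zero] at hs
  have := hw 2
  have := hw 3
  have := hw 4
  have := hw 5
  have := hw 6
  have := hw 7
  have := hw 8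
  have := hw 9
  have := hw 10
  have := hw 11
  have := hw 12
  have := hw 13
  rw [← hg]
  norm_num at *
  interval_cases t <;> norm_num <;> omega

lemma l55 (i : ℤ) (h : m.l i + m.l (i + 1) = 5) (h' : m.l (i + 1) + m.l (i + 2) = 5) : False := by
  obtain ⟨x, hx, mx⟩ := (m.l_five hr odd i).resolve_right (by omega)
  obtain ⟨y, hy, my⟩ := (m.l_five hr odd (i + 1)).resolve_right (by rw [add_assoc]; norm_num; omega)
  have ax := m.alt hr odd x hx i mx
  have ay := m.alt hr odd y hy (i + 1) my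
  by_cases e : x = y
  · subst e
    have a1 := ax 2 (by omega)
    have a2 := ay 1 (by omega)
    rw [add_assoc] at a2
    norm_num at a1 a2
    omega
  obtain ⟨k, kx, ky⟩ := leaf_adj x y hx hy e
  obtain ⟨j, rfl⟩ := m.esurj k
  have pos : ∀ v, inc (m.e j) v → 1 ≤ m.o v (j / 2) := by
    intro v hv
    unfold o ind
    rcases (by omega : 2 * (j / 2) = j ∨ 2 * (j / 2) + 1 = j) with c | c
    · rw [c, if_pos hv]; omega
    · rw [c, if_pos hv]; omega
  have a1 := ax ((j / 2 - i) % 15).toNat (by omega)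
  have a2 := ay ((j / 2 - i - 1) % 15).toNat (by omega)
  rw [← m.o_per x (x := j / 2) (by omega)] at a1
  rw [← m.o_per y (x := j / 2) (by omega)] at a2
  have b1 := pos x kx
  have b2 := pos y ky
  split_ifs at a1 a2 <;> omega

lemma wordM (i : ℤ) (h0 : m.l i + m.l (i + 1) = 6) (h1 : m.l (i + 1) + m.l (i + 2) = 6) :
    m.l (i + 2) + m.l (i + 3) = 5 ∧ m.l (i - 1) + m.l i = 5 ∧
      ∀ j, m.l j + m.l (j + 1) = 6 → m.l (j + 1) + m.l (j + 2) = 6 → (j - i) % 5 = 0 := by
  refine word m.l (fun i => ?_) m.l_le (fun i => ?_) (m.l55 hr odd) ?_ i h0 h1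
  · have : ∀ v, m.o v (i + 15) = m.o v i := fun v => m.o_per v (by omega)
    simp only [l, this]
  · rcases m.l_five hr odd i with ⟨x, hx, h⟩ | h
    · left; simpa [hx] using m.l_miss hr odd x i h
    · exact Or.inr h
  · have : ∀ v : Fin 9, 3 ≤ v.val → ∑ t ∈ Finset.range 15, m.o v t = 7 := fun v hv => by
      simpa using m.o_sum v hv 0
    simp only [l, Finset.sum_add_distrib]
    rw [this 3 (by decide), this 4 (by decide), this 5 (by decide), this 6 (by decide),
      this 7 (by decide), this 8 (by decide)]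

lemma l_md (v : Fin 3) (i j : ℤ) (e : j = 2 * i) (h : m.Ms (md v) j) :
    m.l i + m.l (i + 1) = 6 := by
  subst e
  have := md_lt v
  rw [m.l_miss hr odd _ i h, if_neg (by omega)]

lemma not_miss (v : Fin 3) (i : ℤ) (h : m.l i + m.l (i + 1) = 5) : ¬ m.Ms (md v) (2 * i) :=
  fun c => by have := m.l_md hr odd v i _ rfl c; omega

/-- The position of a port relative to the sorted edges. -/
def G (m : Mod r) (i : ℤ) (x : ℝ) : Prop :=
  x + 1 ≤ m.s (2 * i + 7) ∧ m.s (2 * i - 2) + 1 ≤ x ∧ m.St 3 1 (2 * i + 1)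

omit hr odd in
lemma G.shift {m : Mod r} {i j n : ℤ} {x : ℝ} (h : m.G i x) (e : j = i + 15 * n) :
    m.G j (x + n * r) := by
  subst e
  obtain ⟨h1, h2, h3⟩ := h
  have e1 : 2 * (i + 15 * n) + 7 = 2 * i + 7 + 30 * n := by ring
  have e2 : 2 * (i + 15 * n) - 2 = 2 * i - 2 + 30 * n := by ring
  refine ⟨?_, ?_, h3.per (by omega)⟩
  · rw [e1, m.perZ]; linarith
  · rw [e2, m.perZ]; linarith

omit hr odd in
lemma G.five {m : Mod r} {i : ℤ} {x y z : ℝ} (hx : m.G i x) (hz : m.G (i + 5) z)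
    (hy : m.G (i + 10) y) : x + 5 ≤ y := by
  have a1 := hx.1
  have a2 := m.fours (i := 2 * i + 7) (j := 2 * (i + 5) + 1) (n := 1) (by omega) (by omega)
  have a3 := hz.2.2
  have a4 := m.fours (i := 2 * (i + 5) + 1 + 3) (j := 2 * (i + 10) - 2) (n := 1) (by omega)
    (by omega)
  have a5 := hy.2.1
  unfold St at a3
  push_cast at a2 a4
  linarith

omit hr odd in
lemma G.tau {m : Mod r} {i j k : ℤ} {x y z : ℝ} (hx : m.G i x) (hy : m.G j y) (hz : m.G k z)
    (e : (j - i) % 15 = 5) (e' : (k - i) % 15 = 10) : Tau0 r x y z := by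
  have y1 := hy.shift (j := i + 5) (n := -((j - i) / 15)) (by omega)
  have z1 := hz.shift (j := i + 10) (n := -((k - i) / 15)) (by omega)
  have x2 := hx.shift (j := i + 5 + 10) (n := 1) (by omega)
  have y2 := y1.shift (j := i + 10 + 10) (n := 1) (by omega)
  have c1 := hx.five y1 z1
  have c2 := y1.five (by rwa [add_assoc, show (5 : ℤ) + 5 = 10 by norm_num]) x2
  have c3 := z1.five (by rwa [add_right_comm]) y2
  refine ⟨y + ((-((j - i) / 15) : ℤ) : ℝ) * r, _, ⟨(j - i) / 15, ?_⟩, ⟨(k - i) / 15, ?_⟩, ?_, ?_,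
    c1⟩
  · push_cast; ring
  · push_cast; ring
  · rw [Int.cast_one] at c2; linarith
  · rw [Int.cast_one] at c3; linarith

lemma double (v : Fin 3) (p : ℝ) (a i : ℤ)
    (h2 : ∀ j, inc (m.e j) (md v) → (j ≤ a → m.s j + 1 ≤ p) ∧ (a < j → p + 1 ≤ m.s j))
    (ha : m.Ms (md v) (a + 1)) (hi : a + 1 = 2 * i ∨ a + 2 = 2 * i)
    (m0 : m.Ms (md v) (2 * i)) (m2 : m.Ms (md v) (2 * i + 2)) : m.G i p := by
  have l0 := m.l_md hr odd v i _ rfl m0
  have l1 := m.l_md hr odd v (i + 1) _ (by ring) m2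
  obtain ⟨w1, w2, -⟩ := m.wordM hr odd i l0 (by rwa [add_assoc] at l1)
  have n1 := m.not_miss hr odd v (i + 2) (by rwa [add_assoc])
  have n2 := m.not_miss hr odd v (i - 1) (by rwa [sub_add_cancel])
  refine ⟨?_, ?_, ?_⟩
  · by_contra hc
    have k : ∀ j, a < j → j ≤ 2 * i + 7 → ¬ inc (m.e j) (md v) := by
      intro j b c hj
      have := (h2 j hj).2 b
      have := m.le c
      exact hc (by linarith)
    exact n1 ⟨k _ (by omega) (by omega), k _ (by omega) (by omega), k _ (by omega) (by omega),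
      k _ (by omega) (by omega)⟩
  · by_contra hc
    have k : ∀ j, 2 * i - 2 ≤ j → j ≤ a + 3 → ¬ inc (m.e j) (md v) := by
      intro j b c hj
      rcases (by omega : j ≤ a ∨ j = a + 1 ∨ j = a + 1 + 1 ∨ j = a + 1 + 2) with d | d | d | d
      · have := (h2 j hj).1 d
        have := m.le b
        exact hc (by linarith)
      · exact ha.1 (d ▸ hj)
      · exact ha.2.1 (d ▸ hj)
      · exact ha.2.2.1 (d ▸ hj)
    exact n2 ⟨k _ (by omega) (by omega), k _ (by omega) (by omega), k _ (by omega) (by omega),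
      k _ (by omega) (by omega)⟩
  · have m1 : m.Ms (md v) (2 * i + 1) := by
      refine ⟨m0.2.1, ?_, ?_, ?_⟩
      · rw [add_assoc]; exact m0.2.2.1
      · rw [add_assoc]; exact m0.2.2.2
      · have := m2.2.2.1
        rwa [show 2 * i + 2 + 2 = 2 * i + 1 + 3 by ring] at this
    rcases m.M1 hr _ _ m0 m1 with c | c
    · have := odd _ c; omega
    · exact c

omit odd in
lemma rigid_odd (p : Fin 3 → ℝ) (hp : ∀ j v, inc (m.e j) (md v) → Far r (m.s j) (p v))
    (odd : ∀ x, m.St 3 1 x → x % 2 = 1) : Tau r (p 0) (p 1) (p 2) := by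
  choose a a1 a2 using fun v => m.exists_cut v (p v) (fun j => hp j v)
  have ha := fun v => m.cut_miss hr (a1 v) (a2 v)
  have D : ∀ v, ∃ i, m.Ms (md v) (2 * i) ∧ m.Ms (md v) (2 * i + 2) ∧ m.G i (p v) := by
    intro v
    obtain ⟨b1, b2, b3, b4⟩ := ha v
    rcases (by omega : a v % 2 = 1 ∨ a v % 2 = 0) with c | c
    · obtain ⟨i, hi⟩ : ∃ i, a v + 1 = 2 * i := ⟨(a v + 1) / 2, by omega⟩
      have m0 : m.Ms (md v) (2 * i) := hi ▸ b1
      have m2 : m.Ms (md v) (2 * i + 2) := b3.per (by omega)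
      exact ⟨i, m0, m2, m.double hr odd v _ _ i (a2 v) b1 (Or.inl hi) m0 m2⟩
    · obtain ⟨i, hi⟩ : ∃ i, a v + 2 = 2 * i := ⟨(a v + 2) / 2, by omega⟩
      have m0 : m.Ms (md v) (2 * i) := hi ▸ b2
      rcases b4 with b4 | b4
      · have m2 : m.Ms (md v) (2 * i + 2) := b4.per (by omega)
        exact ⟨i, m0, m2, m.double hr odd v _ _ i (a2 v) b1 (Or.inr hi) m0 m2⟩
      · exfalso
        obtain ⟨u, w, hu, hw⟩ := caseN (m.St 3 1) (m.St 7 2) (fun v => m.Ms (md v))
          (fun _ _ _ h e => h.per e) odd (m.PJ hr) (m.PP hr) (fun v => m.M1 hr _)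
          (fun u v j e => m.M2 hr _ _ j (fun h => e (md_inj _ _ h))) a ha v c b4
        have l0 := m.l_md hr odd u (i - 1) _ (by omega) hu
        have l1 := m.l_md hr odd v i _ rfl m0
        have l2 := m.l_md hr odd w (i + 1) _ (by omega) hw
        have := (m.wordM hr odd (i - 1) l0 (by
          rwa [sub_add_cancel, show i - 1 + 2 = i + 1 by ring])).1
        rw [show i - 1 + 2 = i + 1 by ring, show i - 1 + 3 = i + 1 + 1 by ring] at this
        omega
  choose i i0 i2 iG using D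
  have L0 := fun v => m.l_md hr odd v (i v) _ rfl (i0 v)
  have L1 : ∀ v, m.l (i v + 1) + m.l (i v + 2) = 6 := fun v => by
    have := m.l_md hr odd v (i v + 1) _ (by ring) (i2 v)
    rwa [add_assoc] at this
  have W := fun v => (m.wordM hr odd (i 0) (L0 0) (L1 0)).2.2 (i v) (L0 v) (L1 v)
  have N : ∀ u v, u ≠ v → (i v - i u) % 15 ≠ 0 := by
    intro u v e c
    have := odd _ (m.M2 hr _ _ _ (fun h => e (md_inj _ _ h))
      ((i0 u).per (y := 2 * i v) (by omega)) (i0 v))
    omega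
  have w1 := W 1
  have w2 := W 2
  have n1 := N 0 1 (by decide)
  have n2 := N 0 2 (by decide)
  have n3 := N 1 2 (by decide)
  rcases (by omega : (i 1 - i 0) % 15 = 5 ∨ (i 1 - i 0) % 15 = 10) with c | c
  · exact Or.inl ((iG 0).tau (iG 1) (iG 2) c (by omega))
  · exact Or.inr ((iG 0).tau (iG 2) (iG 1) (by omega) c)

end Mod

/-- Rigidity of `T` in the index model. -/
theorem Mod.rigid {r : ℝ} (hr : r < 8) (m : Mod r) (p : Fin 3 → ℝ)
    (hp : ∀ j v, inc (m.e j) (md v) → Far r (m.s j) (p v)) : Tau r (p 0) (p 1) (p 2) := by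
  by_cases h : ∀ x, m.St 3 1 x → x % 2 = 1
  · exact m.rigid_odd hr p hp h
  · push Not at h
    obtain ⟨x, hx, hx'⟩ := h
    choose a a1 a2 using fun v => m.exists_cut v (p v) (fun j => hp j v)
    have par := one_parity (m.St 3 1) (m.St 7 2) (fun v => m.Ms (md v))
      (fun _ _ h e => h.per e) (fun _ _ _ h e => h.per e) (m.JJ hr) (m.PJ hr)
      (fun v => m.M1 hr _) (fun u v j e => m.M2 hr _ _ j (fun h => e (md_inj _ _ h)))
      (m.M3 hr) a (fun v => m.cut_miss hr (a1 v) (a2 v))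
    refine m.shift.rigid_odd hr p (fun j v => hp (j + 1) v) (fun y hy => ?_)
    have hy' : m.St 3 1 (y + 1) := by
      unfold Mod.St at hy ⊢
      rw [add_right_comm]
      exact hy
    have := par x _ hx hy'
    omega

end Pool.Agent.P.MP_3f5ded_co.UG
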