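import Mathlib

set_option autoImplicit false

namespace Pool.Agent.P.MP_3f5ded_co.UG

/-- Cyclic order of three points. -/
def bt {α : Type} [LT α] (a b c : α) : Prop := (a < b ∧ b < c) ∨ (b < c ∧ c < a) ∨ (c < a ∧ a < b)

/-- A clique with times `t` and ranks `l`. -/
structure Cl {V : Type} (Q : Finset V) (k : ℤ) (t : V → V → ℝ) (l : V → V → ℤ) : Prop where
  symm : ∀ x ∈ Q, ∀ y ∈ Q, y ≠ x → t x y = t y x
  lo : ∀ x ∈ Q, ∀ y ∈ Q, y ≠ x → 0 ≤ l x y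
  hi : ∀ x ∈ Q, ∀ y ∈ Q, y ≠ x → l x y < k
  inj : ∀ x ∈ Q, ∀ p ∈ Q, ∀ q ∈ Q, p ≠ x → q ≠ x → p ≠ q → l x p ≠ l x q
  gap : ∀ x ∈ Q, ∀ p ∈ Q, ∀ q ∈ Q, p ≠ x → q ≠ x → l x p ≤ l x q →
    t x p + (l x q - l x p) ≤ t x q ∧ t x q < t x p + (l x q - l x p) + 1

/-- The rank defect of a triangle. -/
def nu {V : Type} (l : V → V → ℤ) (u v w : V) : ℤ :=
  l v u - l u v + (l w v - l v w) + (l u w - l w u)

/-- A corner of a walk. -/
def Cor (a b s t : ℝ) : Prop :=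
  (a + 1 ≤ b ∧ s + (b - a) ≤ t ∧ t < s + (b - a) + 1) ∨
    (b + 1 ≤ a ∧ t + (a - b) ≤ s ∧ s < t + (a - b) + 1)

lemma tri_real {a b c u1 u2 v1 v2 w1 w2 : ℝ} (hu : Cor u1 u2 c a) (hv : Cor v1 v2 a b)
    (hw : Cor w1 w2 b c) : v1 - u2 + (w1 - v2) + (u1 - w2) < 2 ∧
      (1 ≤ v1 - u2 + (w1 - v2) + (u1 - w2) → bt a b c) := by
  unfold Cor bt at *
  grind

lemma lap4_real {a b c d u1 u2 v1 v2 w1 w2 z1 z2 : ℝ} (hu : Cor u1 u2 d a) (hv : Cor v1 v2 a b)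
    (hw : Cor w1 w2 b c) (hz : Cor z1 z2 c d) :
      (bt a b c ∧ bt a c d → -1 < v1 - u2 + (w1 - v2) + (z1 - w2) + (u1 - z2)) ∧
      (2 ≤ v1 - u2 + (w1 - v2) + (z1 - w2) + (u1 - z2) → bt a b c ∧ bt a c d) := by
  unfold Cor bt at *
  grind

lemma lap5_real {a b c d e u1 u2 v1 v2 w1 w2 z1 z2 y1 y2 : ℝ} (hu : Cor u1 u2 e a)
    (hv : Cor v1 v2 a b) (hw : Cor w1 w2 b c) (hz : Cor z1 z2 c d) (hy : Cor y1 y2 d e)
    (h : bt a b c ∧ bt a c d ∧ bt a d e) :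
    -1 < v1 - u2 + (w1 - v2) + (z1 - w2) + (y1 - z2) + (u1 - y2) := by
  unfold Cor bt at *
  grind

lemma k4_order {zu uv vw wz uw : ℝ} (h1 : bt zu uv vw) (h2 : bt zu vw wz)
    (t2 : bt zu uw wz) (a : ¬ bt uw zu uv) (b : ¬ bt vw wz uw) : False := by
  unfold bt at *
  grind

lemma noP_order {e0 e1 e3 e4 d0 d1 d2 d3 d4 : ℝ} (t0 : bt e4 e0 d0)
    (p1 : bt e4 d4 d1) (p2 : bt d4 d1 e0) (p3 : bt e4 d4 e0)
    (w4 : bt d3 d0 e4) (w1 : bt e0 d0 d2) (w2 : bt e1 d1 d3) (w3 : bt d2 d4 e3)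
    (l1 : ¬ (bt e4 d3 e1 ∧ bt e4 e1 e0)) (l2 : ¬ (bt e4 e3 d2 ∧ bt e4 d2 e0))
    (l3 : ¬ (bt d1 d3 d0 ∧ bt d1 d0 d2 ∧ bt d1 d2 d4)) : False := by
  unfold bt at *
  grind

lemma four_order {e3 e4 e0 e1 d0 d3 : ℝ} (t0 : bt e4 e0 d0) (q1 : bt e0 e1 d0)
    (q4 : bt e3 e4 d3) (w4 : bt e3 d3 d0) : bt e3 e4 e0 ∧ bt e3 e0 e1 := by
  unfold bt at *
  grind

lemma five_order {e0 e1 e2 e3 e4 : ℝ} (a : bt e3 e4 e0 ∧ bt e3 e0 e1)
    (b : bt e4 e0 e1 ∧ bt e4 e1 e2) (c : bt e0 e1 e2 ∧ bt e0 e2 e3) :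
    (e0 < e1 ∧ e1 < e2 ∧ e2 < e3 ∧ e3 < e4) ∨ (e1 < e2 ∧ e2 < e3 ∧ e3 < e4 ∧ e4 < e0) ∨
    (e2 < e3 ∧ e3 < e4 ∧ e4 < e0 ∧ e0 < e1) ∨ (e3 < e4 ∧ e4 < e0 ∧ e0 < e1 ∧ e1 < e2) ∨
    (e4 < e0 ∧ e0 < e1 ∧ e1 < e2 ∧ e2 < e3) := by
  unfold bt at *
  grind

lemma bt_total {α : Type} [LinearOrder α] {a b c : α} (ab : a ≠ b) (bc : b ≠ c) (ca : c ≠ a)
    (h : ¬ bt a b c) : bt a c b := by
  unfold bt at *
  grind

lemma bt_rot {α : Type} [LinearOrder α] {a b c : α} (h : bt a b c) : bt b c a := by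
  unfold bt at *
  tauto

/-- Steps from rank `a` to rank `b`. -/
def sp (k a b : ℤ) : ℤ := if a < b then b - a else b - a + k

lemma nu_rot {V : Type} (l : V → V → ℤ) (u v w : V) : nu l u v w = nu l v w u := by
  unfold nu; ring

lemma nu_swap {V : Type} (l : V → V → ℤ) (u v w : V) : nu l u w v = -nu l u v w := by
  unfold nu; ring

lemma nu_coc {V : Type} (l : V → V → ℤ) (u v w z : V) :
    nu l u v w = nu l z v w + nu l u z w + nu l u v z := by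
  unfold nu; ring

lemma nu_ne {V : Type} {l : V → V → ℤ} {u v w : V} (h : nu l u v w = 1) :
    u ≠ v ∧ v ≠ w ∧ w ≠ u := by
  refine ⟨?_, ?_, ?_⟩ <;> rintro rfl <;> unfold nu at h <;> omega

instance (a b c : ℤ) : Decidable (bt a b c) := by unfold bt; infer_instance

/-- One if the edge to `z` lies on the arc of `x` from `p` to `q`. -/
def onA {V : Type} (l : V → V → ℤ) (x p q z : V) : ℤ := if bt (l x p) (l x z) (l x q) then 1 else 0

lemma onA_nonneg {V : Type} (l : V → V → ℤ) (x p q z : V) : 0 ≤ onA l x p q z := by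
  unfold onA; split_ifs <;> omega

lemma onA_left {V : Type} {l : V → V → ℤ} {x p q z : V} (a : l x p ≠ l x z) (b : l x z ≠ l x q)
    (c : l x q ≠ l x p) : onA l x p q z + onA l x z q p = 1 := by
  unfold onA bt; split_ifs <;> omega

lemma onA_right {V : Type} {l : V → V → ℤ} {x p q z : V} (a : l x p ≠ l x z) (b : l x z ≠ l x q)
    (c : l x q ≠ l x p) : onA l x p q z + onA l x p z q = 1 := by
  unfold onA bt; split_ifs <;> omega

/-- The twin rule. -/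
def TW {V : Type} (Q : Finset V) (l : V → V → ℤ) : Prop :=
  ∀ u ∈ Q, ∀ v ∈ Q, ∀ w ∈ Q, ∀ z ∈ Q, nu l u v w = 1 → nu l u v z = 1 → z ≠ w →
    ¬ bt (l w v) (l w z) (l w u)

namespace Cl
variable {V : Type} {Q : Finset V} {k : ℤ} {t : V → V → ℝ} {l : V → V → ℤ}

lemma cor (h : Cl Q k t l) {x p q : V} (hx : x ∈ Q) (hp : p ∈ Q) (hq : q ∈ Q) (px : p ≠ x)
    (qx : q ≠ x) (pq : p ≠ q) : Cor (l x p) (l x q) (t p x) (t x q) := by
  rw [← h.symm x hx p hp px]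
  rcases lt_or_gt_of_ne (h.inj x hx p hp q hq px qx pq) with e | e
  · exact Or.inl ⟨by exact_mod_cast e, h.gap x hx p hp q hq px qx e.le⟩
  · exact Or.inr ⟨by exact_mod_cast e, h.gap x hx q hq p hp qx px e.le⟩

lemma lt_iff (h : Cl Q k t l) {x p q : V} (hx : x ∈ Q) (hp : p ∈ Q) (hq : q ∈ Q) (px : p ≠ x)
    (qx : q ≠ x) : l x p < l x q ↔ t x p < t x q := by
  constructor
  · intro e
    have := (h.gap x hx p hp q hq px qx e.le).1
    have e' : (l x p : ℝ) + 1 ≤ l x q := by exact_mod_cast e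
    linarith
  · intro e
    by_contra e'
    push Not at e'
    have := (h.gap x hx q hq p hp qx px e').1
    have e' : (l x q : ℝ) ≤ l x p := by exact_mod_cast e'
    linarith

lemma bt_iff (h : Cl Q k t l) {x p q s : V} (hx : x ∈ Q) (hp : p ∈ Q) (hq : q ∈ Q) (hs : s ∈ Q)
    (px : p ≠ x) (qx : q ≠ x) (sx : s ≠ x) :
    bt (l x p) (l x q) (l x s) ↔ bt (t x p) (t x q) (t x s) := by
  unfold bt
  rw [h.lt_iff hx hp hq px qx, h.lt_iff hx hq hs qx sx, h.lt_iff hx hs hp sx px]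

lemma nu_le (h : Cl Q k t l) {u v w : V} (hu : u ∈ Q) (hv : v ∈ Q) (hw : w ∈ Q) :
    nu l u v w ≤ 1 := by
  by_cases e : u = v ∨ v = w ∨ w = u
  · rcases e with rfl | rfl | rfl <;> unfold nu <;> omega
  push Not at e
  obtain ⟨a, b, c⟩ := e
  have := (tri_real (h.cor hu hw hv c a.symm b.symm) (h.cor hv hu hw a b.symm c.symm)
    (h.cor hw hv hu b c.symm a.symm)).1
  have h2 : nu l u v w < 2 := by unfold nu; exact_mod_cast this
  omega

lemma nu_ge (h : Cl Q k t l) {u v w : V} (hu : u ∈ Q) (hv : v ∈ Q) (hw : w ∈ Q) :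
    -1 ≤ nu l u v w := by
  have := h.nu_le hu hw hv
  rw [nu_swap] at this
  omega

lemma tri (h : Cl Q k t l) {u v w : V} (hu : u ∈ Q) (hv : v ∈ Q) (hw : w ∈ Q)
    (e : nu l u v w = 1) : bt (t u v) (t v w) (t w u) := by
  obtain ⟨a, b, c⟩ := nu_ne e
  refine (tri_real (h.cor hu hw hv c a.symm b.symm) (h.cor hv hu hw a b.symm c.symm)
    (h.cor hw hv hu b c.symm a.symm)).2 ?_
  unfold nu at e
  exact_mod_cast e.ge

lemma lap4 (h : Cl Q k t l) {u v w z : V} (hu : u ∈ Q) (hv : v ∈ Q) (hw : w ∈ Q) (hz : z ∈ Q)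
    (uv : u ≠ v) (uw : u ≠ w) (uz : u ≠ z) (vw : v ≠ w) (vz : v ≠ z) (wz : w ≠ z) :
    (bt (t u v) (t v w) (t w z) ∧ bt (t u v) (t w z) (t z u) → 0 ≤ nu l u v w + nu l u w z) ∧
    (2 ≤ nu l u v w + nu l u w z → bt (t u v) (t v w) (t w z) ∧ bt (t u v) (t w z) (t z u)) := by
  have := lap4_real (h.cor hu hz hv uz.symm uv.symm vz.symm) (h.cor hv hu hw uv vw.symm uw)
    (h.cor hw hv hz vw wz.symm vz) (h.cor hz hw hu wz uz uw.symm)
  have e : nu l u v w + nu l u w z =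
      l v u - l u v + (l w v - l v w) + (l z w - l w z) + (l u z - l z u) := by unfold nu; ring
  rw [e]
  refine ⟨fun a => ?_, fun a => this.2 (by exact_mod_cast a)⟩
  have h2 : (-1 : ℤ) < l v u - l u v + (l w v - l v w) + (l z w - l w z) + (l u z - l z u) := by
    exact_mod_cast this.1 a
  omega

lemma lap5 (h : Cl Q k t l) {u v w z y : V} (hu : u ∈ Q) (hv : v ∈ Q) (hw : w ∈ Q) (hz : z ∈ Q)
    (hy : y ∈ Q) (uv : u ≠ v) (uw : u ≠ w) (uz : u ≠ z) (uy : u ≠ y) (vw : v ≠ w) (vz : v ≠ z)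
    (vy : v ≠ y) (wz : w ≠ z) (wy : w ≠ y) (zy : z ≠ y)
    (a : bt (t u v) (t v w) (t w z) ∧ bt (t u v) (t w z) (t z y) ∧ bt (t u v) (t z y) (t y u)) :
    0 ≤ nu l u v w + nu l u w z + nu l u z y := by
  have := lap5_real (h.cor hu hy hv uy.symm uv.symm vy.symm) (h.cor hv hu hw uv vw.symm uw)
    (h.cor hw hv hz vw wz.symm vz) (h.cor hz hw hy wz zy.symm wy) (h.cor hy hz hu zy uy uz.symm) a
  have e : nu l u v w + nu l u w z + nu l u z y = l v u - l u v + (l w v - l v w) +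
      (l z w - l w z) + (l y z - l z y) + (l u y - l y u) := by unfold nu; ring
  rw [e]
  have h2 : (-1 : ℤ) < l v u - l u v + (l w v - l v w) +
      (l z w - l w z) + (l y z - l z y) + (l u y - l y u) := by exact_mod_cast this
  omega

lemma k4a (h : Cl Q k t l) (tw : TW Q l) {u v w z : V} (hu : u ∈ Q) (hv : v ∈ Q) (hw : w ∈ Q)
    (hz : z ∈ Q) (a : nu l z u v = 1) (b : nu l z v w = 1) (c : nu l u v w = 1) : False := by
  have d : nu l z u w = 1 := by unfold nu at *; omega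
  obtain ⟨zu, uv, vz⟩ := nu_ne a
  obtain ⟨-, vw, wz⟩ := nu_ne b
  obtain ⟨-, -, wu⟩ := nu_ne c
  obtain ⟨h1, h2⟩ := (h.lap4 hz hu hv hw zu vz.symm wz.symm uv wu.symm vw).2 (by omega)
  have t1 := tw v hv w hw u hu z hz (by rw [← nu_rot]; exact c) (by rw [← nu_rot]; exact b) zu
  have t2 := tw u hu v hv w hw z hz c (by rw [← nu_rot]; exact a) wz.symm
  rw [h.bt_iff hu hw hz hv wu zu uv.symm, h.symm u hu z hz zu] at t1
  rw [h.bt_iff hw hv hz hu vw wz.symm wu.symm, h.symm w hw v hv vw, h.symm w hw u hu wu.symm] at t2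
  exact k4_order h1 h2 (h.tri hz hu hw d) t1 t2

/-- No four vertices span only short triangles. -/
lemma k4 (h : Cl Q k t l) (tw : TW Q l) {u v w z : V} (hu : u ∈ Q) (hv : v ∈ Q) (hw : w ∈ Q)
    (hz : z ∈ Q) (a : nu l u v w = 1) (b : nu l u v z = 1) : nu l z v w = 0 ∧ nu l u z w = 0 := by
  have c := nu_coc l u v w z
  have h1 := h.nu_le hz hv hw
  have h2 := h.nu_ge hz hv hw
  have n1 : nu l z v w ≠ 1 := fun e => h.k4a tw hu hv hw hz (by rw [nu_rot]; exact b) e a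
  have n2 : nu l z v w ≠ -1 := fun e =>
    h.k4a tw hv hz hw hu b (by omega) (by unfold nu at *; omega)
  omega

lemma one (h : Cl Q k t l) (tw : TW Q l) {u v w z : V} (hu : u ∈ Q) (hv : v ∈ Q) (hw : w ∈ Q)
    (hz : z ∈ Q) (a : nu l u v w = 1) :
    (nu l z v w = 1 ∧ nu l u z w = 0 ∧ nu l u v z = 0) ∨
    (nu l z v w = 0 ∧ nu l u z w = 1 ∧ nu l u v z = 0) ∨
    (nu l z v w = 0 ∧ nu l u z w = 0 ∧ nu l u v z = 1) := by
  have c := nu_coc l u v w z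
  have h1 := h.nu_le hz hv hw
  have h2 := h.nu_le hu hz hw
  have h3 := h.nu_le hu hv hz
  have k1 := h.k4 tw hu hv hw hz a
  have k2 := h.k4 tw hv hw hu hz (by rw [← nu_rot]; exact a)
  have k3 := h.k4 tw hw hu hv hz (by rw [nu_rot]; exact a)
  rw [← nu_rot l z v w, nu_rot l z w u, nu_swap l w z u, nu_rot l w z u, nu_rot l z u w,
    nu_swap l u z w, nu_rot l v z u, nu_rot l z u v] at k2
  rw [nu_rot l w u z, nu_rot l z u v, nu_rot l w z v] at k3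
  omega

lemma arc (h : Cl Q k t l) {x p q : V} (hx : x ∈ Q) (hp : p ∈ Q) (hq : q ∈ Q) (px : p ≠ x)
    (qx : q ≠ x) (S : Finset V) (hS : ∀ z ∈ S, z ∈ Q ∧ z ≠ x) :
    ∑ z ∈ S, onA l x p q z ≤ sp k (l x p) (l x q) - 1 := by
  classical
  have a0 := h.lo x hx p hp px
  have a1 := h.hi x hx p hp px
  have b0 := h.lo x hx q hq qx
  have b1 := h.hi x hx q hq qx
  unfold onA
  rw [Finset.sum_boole]
  have : (S.filter fun z => bt (l x p) (l x z) (l x q)).card ≤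
      (Finset.Ioo 0 (sp k (l x p) (l x q))).card := by
    refine Finset.card_le_card_of_injOn (fun z => sp k (l x p) (l x z)) ?_ ?_
    · intro z hz
      obtain ⟨hz, hb⟩ := Finset.mem_filter.mp hz
      have c0 := h.lo x hx z (hS z hz).1 (hS z hz).2
      have c1 := h.hi x hx z (hS z hz).1 (hS z hz).2
      simp only [Finset.coe_Ioo, Set.mem_Ioo]
      unfold bt at hb
      unfold sp
      split_ifs <;> omega
    · intro z hz y hy e
      have hz := (Finset.mem_filter.mp hz).1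
      have hy := (Finset.mem_filter.mp hy).1
      have c0 := h.lo x hx z (hS z hz).1 (hS z hz).2
      have c1 := h.hi x hx z (hS z hz).1 (hS z hz).2
      have d0 := h.lo x hx y (hS y hy).1 (hS y hy).2
      have d1 := h.hi x hx y (hS y hy).1 (hS y hy).2
      by_contra n
      have := h.inj x hx z (hS z hz).1 y (hS y hy).1 (hS z hz).2 (hS y hy).2 n
      simp only [sp] at e
      split_ifs at e <;> omega
  rw [Int.card_Ioo] at this
  have h0 : 1 ≤ sp k (l x p) (l x q) := by unfold sp; split_ifs <;> omega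
  omega

end Cl

lemma twin_key {a0 a1 a2 a3 a4 b0 b1 b2 b3 b4 : ℤ}
    (o0 : (a1 = 1 ∧ b0 = 0 ∧ a0 = 0) ∨ (a1 = 0 ∧ b0 = 1 ∧ a0 = 0) ∨ (a1 = 0 ∧ b0 = 0 ∧ a0 = 1))
    (o1 : (a2 = 1 ∧ b1 = 0 ∧ a1 = 0) ∨ (a2 = 0 ∧ b1 = 1 ∧ a1 = 0) ∨ (a2 = 0 ∧ b1 = 0 ∧ a1 = 1))
    (o2 : (a3 = 1 ∧ b2 = 0 ∧ a2 = 0) ∨ (a3 = 0 ∧ b2 = 1 ∧ a2 = 0) ∨ (a3 = 0 ∧ b2 = 0 ∧ a2 = 1))
    (o3 : (a4 = 1 ∧ b3 = 0 ∧ a3 = 0) ∨ (a4 = 0 ∧ b3 = 1 ∧ a3 = 0) ∨ (a4 = 0 ∧ b3 = 0 ∧ a3 = 1))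
    (o4 : (a0 = 1 ∧ b4 = 0 ∧ a4 = 0) ∨ (a0 = 0 ∧ b4 = 1 ∧ a4 = 0) ∨ (a0 = 0 ∧ b4 = 0 ∧ a4 = 1))
    (s : a0 + a1 + a2 + a3 + a4 = 2) :
    (a1 = 1 ∧ a3 = 1 ∧ b4 = 1) ∨ (b0 = 1 ∧ a2 = 1 ∧ a4 = 1) ∨ (a0 = 1 ∧ b1 = 1 ∧ a3 = 1) ∨
      (a1 = 1 ∧ b2 = 1 ∧ a4 = 1) ∨ (a2 = 1 ∧ b3 = 1 ∧ a0 = 1) := by
  grind

/-- Five vertices whose consecutive triples are short. -/
structure P5 {V : Type} (Q : Finset V) (l : V → V → ℤ) (a b c d e : V) : Prop where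
  ma : a ∈ Q
  mb : b ∈ Q
  mc : c ∈ Q
  md : d ∈ Q
  me : e ∈ Q
  s0 : nu l a b c = 1
  s1 : nu l b c d = 1
  s2 : nu l c d e = 1
  s3 : nu l d e a = 1
  s4 : nu l e a b = 1

namespace P5
variable {V : Type} {Q : Finset V} {k : ℤ} {t : V → V → ℝ} {l : V → V → ℤ} {a b c d e : V}

lemma rot (p : P5 Q l a b c d e) : P5 Q l b c d e a :=
  ⟨p.mb, p.mc, p.md, p.me, p.ma, p.s1, p.s2, p.s3, p.s4, p.s0⟩

lemma ab (p : P5 Q l a b c d e) : a ≠ b := (nu_ne p.s0).1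
lemma ac (p : P5 Q l a b c d e) : a ≠ c := (nu_ne p.s0).2.2.symm
lemma ad (p : P5 Q l a b c d e) : a ≠ d := (nu_ne p.s3).2.2
lemma ae (p : P5 Q l a b c d e) : a ≠ e := (nu_ne p.s3).2.1.symm

lemma twA (p : P5 Q l a b c d e) (h : Cl Q k t l) (tw : TW Q l) : bt (t e a) (t d a) (t a c) := by
  have := tw d p.md e p.me a p.ma c p.mc p.s3 (by rw [← nu_rot]; exact p.s2) p.ac.symm
  have := bt_total (h.inj a p.ma e p.me c p.mc p.ae.symm p.ac.symm p.rot.rot.ac.symm)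
    (h.inj a p.ma c p.mc d p.md p.ac.symm p.ad.symm p.rot.rot.ab)
    (h.inj a p.ma d p.md e p.me p.ad.symm p.ae.symm p.rot.rot.rot.ab) this
  rwa [h.bt_iff p.ma p.me p.md p.mc p.ae.symm p.ad.symm p.ac.symm, h.symm a p.ma e p.me p.ae.symm,
    h.symm a p.ma d p.md p.ad.symm] at this

lemma twB (p : P5 Q l a b c d e) (h : Cl Q k t l) (tw : TW Q l) : bt (t d a) (t a c) (t a b) := by
  have := tw b p.mb c p.mc a p.ma d p.md (by rw [← nu_rot]; exact p.s0) p.s1 p.ad.symm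
  have := bt_total (h.inj a p.ma c p.mc d p.md p.ac.symm p.ad.symm p.rot.rot.ab)
    (h.inj a p.ma d p.md b p.mb p.ad.symm p.ab.symm p.rot.ac.symm)
    (h.inj a p.ma b p.mb c p.mc p.ab.symm p.ac.symm p.rot.ab) this
  rw [h.bt_iff p.ma p.mc p.mb p.md p.ac.symm p.ab.symm p.ad.symm,
    h.symm a p.ma d p.md p.ad.symm] at this
  exact bt_rot (bt_rot this)

lemma z0 (p : P5 Q l a b c d e) (h : Cl Q k t l) (tw : TW Q l) : nu l a c d = 0 := by
  have := (h.k4 tw p.mb p.mc p.md p.ma p.s1 (by rw [← nu_rot]; exact p.s0)).1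
  exact this

lemma z1 (p : P5 Q l a b c d e) (h : Cl Q k t l) (tw : TW Q l) : nu l a b d = 0 := by
  have := p.rot.rot.rot.z0 h tw
  rwa [nu_rot] at this

lemma ordQ (p : P5 Q l a b c d e) (h : Cl Q k t l) (tw : TW Q l) : bt (t e a) (t a b) (t d a) := by
  have p1 := p.rot
  have p2 := p1.rot
  have p3 := p2.rot
  have p4 := p3.rot
  have sy : ∀ {x y}, x ∈ Q → y ∈ Q → x ≠ y → t x y = t y x := fun hx hy n => h.symm _ hx _ hy n.symm
  by_contra hn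
  have n : ∀ {x y}, x ∈ Q → y ∈ Q → x ≠ a → y ≠ a → x ≠ y → t a x ≠ t a y := by
    intro x y hx hy xa ya xy e
    rcases lt_or_gt_of_ne (h.inj a p.ma x hx y hy xa ya xy) with f | f
    · exact ((h.lt_iff p.ma hx hy xa ya).1 f).ne e
    · exact ((h.lt_iff p.ma hy hx ya xa).1 f).ne e.symm
  have hP : bt (t e a) (t d a) (t a b) := by
    refine bt_total ?_ ?_ ?_ hn
    · rw [sy p.me p.ma p4.ab]; exact n p.me p.mb p4.ab p.ab.symm p4.ac
    · rw [sy p.md p.ma p3.ac]; exact n p.mb p.md p.ab.symm p3.ac p1.ac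
    · rw [sy p.md p.ma p3.ac, sy p.me p.ma p4.ab]; exact n p.md p.me p3.ac p4.ab p3.ab
  have t0 := h.tri p.me p.ma p.mb p.s4
  have w4 := p4.twB h tw
  have w1 := p1.twA h tw
  have w2 := p2.twA h tw
  have w3 := p3.twB h tw
  rw [sy p.mb p.me p1.ad] at t0
  rw [sy p.md p.ma p3.ac] at w3
  have hA := p.twA h tw
  have hB := p.twB h tw
  rw [sy p.md p.ma p3.ac] at hP hA hB
  have y0 := p.z0 h tw
  have y1 := p1.z0 h tw
  have y2 := p2.z0 h tw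
  have y3 := p3.z0 h tw
  have y4 := p4.z0 h tw
  have s0 := p.s0
  have s1 := p.s1
  have s2 := p.s2
  have s3 := p.s3
  have s4 := p.s4
  refine noP_order t0 hA hB hP w4 w1 w2 w3 (fun q => ?_) (fun q => ?_) (fun q => ?_)
  · have := (h.lap4 p.ma p.me p.mc p.mb p.ae p.ac p.ab p4.ad p4.ac p2.ae).1 (by
      rw [sy p.ma p.me p.ae, sy p.me p.mc p4.ad, sy p.mc p.mb p2.ae, sy p.mb p.ma p1.ae]; exact q)
    unfold nu at *; omega
  · have := (h.lap4 p.ma p.me p.md p.mb p.ae p.ad p.ab p4.ae p4.ac p3.ad).1 (by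
      rw [sy p.ma p.me p.ae, sy p.me p.md p4.ae, sy p.md p.mb p3.ad, sy p.mb p.ma p1.ae]; exact q)
    unfold nu at *; omega
  · have := h.lap5 p.ma p.mc p.me p.mb p.md p.ac p.ae p.ab p.ad p2.ac p2.ae p2.ab p4.ac p4.ae p1.ac
      (by rw [sy p.md p.ma p3.ac]; exact q)
    unfold nu at *; omega

lemma four (p : P5 Q l a b c d e) (h : Cl Q k t l) (tw : TW Q l) :
    bt (t d e) (t e a) (t a b) ∧ bt (t d e) (t a b) (t b c) := by
  have t0 := h.tri p.me p.ma p.mb p.s4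
  rw [h.symm b p.mb e p.me p.rot.ad.symm] at t0
  exact four_order t0 (p.rot.ordQ h tw) (p.rot.rot.rot.rot.ordQ h tw) (p.rot.rot.rot.rot.twA h tw)

/-- The pentagon walk is one lap with `k - 2` steps. -/
lemma steps (p : P5 Q l a b c d e) (h : Cl Q k t l) (tw : TW Q l) :
    sp k (l a e) (l a b) + sp k (l b a) (l b c) + sp k (l c b) (l c d) + sp k (l d c) (l d e) +
      sp k (l e d) (l e a) = k - 2 := by
  have p1 := p.rot
  have p2 := p1.rot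
  have p3 := p2.rot
  have p4 := p3.rot
  have o := five_order (p.four h tw) (p1.four h tw) (p2.four h tw)
  have i0 := h.lt_iff p.ma p.me p.mb p.ae.symm p.ab.symm
  have i1 := h.lt_iff p.mb p.ma p.mc p1.ae.symm p1.ab.symm
  have i2 := h.lt_iff p.mc p.mb p.md p2.ae.symm p2.ab.symm
  have i3 := h.lt_iff p.md p.mc p.me p3.ae.symm p3.ab.symm
  have i4 := h.lt_iff p.me p.md p.ma p4.ae.symm p4.ab.symm
  rw [h.symm a p.ma e p.me p.ae.symm] at i0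
  rw [h.symm b p.mb a p.ma p1.ae.symm] at i1
  rw [h.symm c p.mc b p.mb p2.ae.symm] at i2
  rw [h.symm d p.md c p.mc p3.ae.symm] at i3
  rw [h.symm e p.me d p.md p4.ae.symm] at i4
  have y0 := p.z0 h tw
  have s0 := p.s0
  have s3 := p.s3
  unfold sp
  unfold nu at y0 s0 s3
  simp only [i0, i1, i2, i3, i4]
  rcases o with ⟨o1, o2, o3, o4⟩ | ⟨o1, o2, o3, o4⟩ | ⟨o1, o2, o3, o4⟩ | ⟨o1, o2, o3, o4⟩ |
    ⟨o1, o2, o3, o4⟩ <;>
  · have o5 := (o1.trans (o2.trans (o3.trans o4))).not_gt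
    simp only [o1, o2, o3, o4, o5, if_true, if_false]
    omega

/-- Every other vertex is a twin of some corner. -/
lemma twin (p : P5 Q l a b c d e) (h : Cl Q k t l) (tw : TW Q l) {z : V} (hz : z ∈ Q) :
    P5 Q l z b c d e ∨ P5 Q l a z c d e ∨ P5 Q l a b z d e ∨ P5 Q l a b c z e ∨
      P5 Q l a b c d z := by
  have o0 := h.one tw p.ma p.mb p.mc hz p.s0
  have o1 := h.one tw p.mb p.mc p.md hz p.s1
  have o2 := h.one tw p.mc p.md p.me hz p.s2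
  have o3 := h.one tw p.md p.me p.ma hz p.s3
  have o4 := h.one tw p.me p.ma p.mb hz p.s4
  have y0 := p.z0 h tw
  have s0 := p.s0
  have s3 := p.s3
  have sum : nu l z a b + nu l z b c + nu l z c d + nu l z d e + nu l z e a = 2 := by
    unfold nu at y0 s0 s3 ⊢; omega
  rw [← nu_rot l z a b] at o0
  rw [← nu_rot l z b c] at o1
  rw [← nu_rot l z c d] at o2
  rw [← nu_rot l z d e] at o3
  rw [← nu_rot l z e a] at o4
  have key := twin_key o0 o1 o2 o3 o4 sum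
  have r : ∀ {x y}, nu l z x y = 1 → nu l x y z = 1 := fun e => by rw [← nu_rot]; exact e
  rcases key with ⟨x, y, w⟩ | ⟨x, y, w⟩ | ⟨x, y, w⟩ | ⟨x, y, w⟩ | ⟨x, y, w⟩
  · exact Or.inl ⟨hz, p.mb, p.mc, p.md, p.me, x, p.s1, p.s2, r y, w⟩
  · exact Or.inr (Or.inl ⟨p.ma, hz, p.mc, p.md, p.me, x, y, p.s2, p.s3, r w⟩)
  · exact Or.inr (Or.inr (Or.inl ⟨p.ma, p.mb, hz, p.md, p.me, r x, y, w, p.s3, p.s4⟩))
  · exact Or.inr (Or.inr (Or.inr (Or.inl ⟨p.ma, p.mb, p.mc, hz, p.me, p.s0, r x, y, w, p.s4⟩)))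
  · exact Or.inr (Or.inr (Or.inr (Or.inr ⟨p.ma, p.mb, p.mc, p.md, hz, p.s0, p.s1, r x, y, w⟩)))

lemma ex1 (p : P5 Q l a b c d e) (h : Cl Q k t l) (tw : TW Q l) {z : V} (q : P5 Q l z b c d e)
    (q' : P5 Q l a z c d e) : False := by
  have := h.one tw p.mb p.mc p.md q.ma p.s1
  have a1 := q.s0
  have a2 := q'.s1
  rw [nu_rot] at a1
  omega

lemma ex2 (p : P5 Q l a b c d e) (h : Cl Q k t l) (tw : TW Q l) {z : V} (q : P5 Q l z b c d e)
    (q' : P5 Q l a b z d e) : False := by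
  have := h.one tw p.ma p.mb p.mc q.ma p.s0
  have a1 := q.s0
  have a2 := q'.s0
  omega

/-- The number of arcs of the pentagon walk that meet `z`. -/
def mt (l : V → V → ℤ) (a b c d e z : V) : ℤ :=
  onA l a e b z + onA l b a c z + onA l c b d z + onA l d c e z + onA l e d a z

lemma mt_rot (l : V → V → ℤ) (a b c d e z : V) : mt l a b c d e z = mt l b c d e a z := by
  unfold mt; ring

lemma swap (p : P5 Q l a b c d e) (h : Cl Q k t l) {z : V} (q : P5 Q l z b c d e) (n : a ≠ z) :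
    2 ≤ mt l a b c d e z + mt l z b c d e a := by
  have p1 := p.rot
  have p4 := p1.rot.rot.rot
  have q1 := q.rot
  have q4 := q1.rot.rot.rot
  have e1 := onA_left (h.inj b p.mb a p.ma z q.ma p.ab q.ab n)
    (h.inj b p.mb z q.ma c p.mc q.ab p1.ab.symm q.ac) (h.inj b p.mb c p.mc a p.ma p1.ab.symm p.ab p.ac.symm)
  have e2 := onA_right (h.inj e p.me d p.md z q.ma p4.ae.symm q.ae q.ad.symm)
    (h.inj e p.me z q.ma a p.ma q.ae p.ae n.symm) (h.inj e p.me a p.ma d p.md p.ae p4.ae.symm p.ad)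
  have := onA_nonneg l a e b z
  have := onA_nonneg l c b d z
  have := onA_nonneg l d c e z
  have := onA_nonneg l z e b a
  have := onA_nonneg l c b d a
  have := onA_nonneg l d c e a
  unfold mt
  omega

lemma mt_sum (p : P5 Q l a b c d e) (h : Cl Q k t l) (tw : TW Q l) (S : Finset V)
    (hS : ∀ z ∈ S, z ∈ Q ∧ z ≠ a ∧ z ≠ b ∧ z ≠ c ∧ z ≠ d ∧ z ≠ e) :
    ∑ z ∈ S, mt l a b c d e z ≤ k - 7 := by
  have p1 := p.rot
  have p2 := p1.rot
  have p3 := p2.rot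
  have p4 := p3.rot
  have := p.steps h tw
  have := h.arc p.ma p.me p.mb p.ae.symm p.ab.symm S fun z hz => ⟨(hS z hz).1, (hS z hz).2.1⟩
  have := h.arc p.mb p.ma p.mc p1.ae.symm p1.ab.symm S fun z hz => ⟨(hS z hz).1, (hS z hz).2.2.1⟩
  have := h.arc p.mc p.mb p.md p2.ae.symm p2.ab.symm S
    fun z hz => ⟨(hS z hz).1, (hS z hz).2.2.2.1⟩
  have := h.arc p.md p.mc p.me p3.ae.symm p3.ab.symm S
    fun z hz => ⟨(hS z hz).1, (hS z hz).2.2.2.2.1⟩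
  have := h.arc p.me p.md p.ma p4.ae.symm p4.ab.symm S
    fun z hz => ⟨(hS z hz).1, (hS z hz).2.2.2.2.2⟩
  unfold mt
  simp only [Finset.sum_add_distrib]
  omega

end P5

lemma inv_sum {α : Type} (S : Finset α) (σ : α → α) (f : α → ℤ) (h1 : ∀ s ∈ S, σ s ∈ S)
    (h2 : ∀ s ∈ S, σ (σ s) = s) (h3 : ∀ s ∈ S, 0 ≤ f s + f (σ s)) : 0 ≤ ∑ s ∈ S, f s := by
  have e : ∑ s ∈ S, f (σ s) = ∑ s ∈ S, f s :=
    Finset.sum_nbij' σ σ h1 h1 h2 h2 (fun _ _ => rfl)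
  have := Finset.sum_nonneg h3
  rw [Finset.sum_add_distrib, e] at this
  omega

open scoped Classical in
/-- Excess of meetings of a twin of the first corner. -/
noncomputable def G0 {V : Type} (Q : Finset V) (l : V → V → ℤ) (a b c d e z : V) : ℤ :=
  if P5 Q l a b c d e ∧ P5 Q l z b c d e ∧ a ≠ z then P5.mt l a b c d e z - 1 else 0

open scoped Classical in
/-- Excess of meetings of a vertex off the pentagon. -/
noncomputable def G1 {V : Type} (Q : Finset V) (l : V → V → ℤ) (a b c d e z : V) : ℤ :=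
  if P5 Q l a b c d e ∧ z ≠ a ∧ z ≠ b ∧ z ≠ c ∧ z ≠ d ∧ z ≠ e then P5.mt l a b c d e z - 1 else 0

namespace Cl
variable {V : Type} {Q : Finset V} {k : ℤ} {t : V → V → ℝ} {l : V → V → ℤ}

lemma G0_pair (h : Cl Q k t l) (a b c d e z : V) :
    0 ≤ G0 Q l a b c d e z + G0 Q l z b c d e a := by
  unfold G0
  by_cases q : P5 Q l a b c d e ∧ P5 Q l z b c d e ∧ a ≠ z
  · rw [if_pos q, if_pos ⟨q.2.1, q.1, q.2.2.symm⟩]
    have := q.1.swap h q.2.1 q.2.2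
    omega
  · rw [if_neg q, if_neg fun q' => q ⟨q'.2.1, q'.1, q'.2.2.symm⟩]
    omega

lemma G1_split (h : Cl Q k t l) (tw : TW Q l) (a b c d e : V) {z : V} (hz : z ∈ Q) :
    G1 Q l a b c d e z = G0 Q l a b c d e z + G0 Q l b c d e a z + G0 Q l c d e a b z +
      G0 Q l d e a b c z + G0 Q l e a b c d z := by
  classical
  unfold G1 G0
  by_cases p : P5 Q l a b c d e
  · have p1 := p.rot
    have p2 := p1.rot
    have p3 := p2.rot
    have p4 := p3.rot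
    rw [← P5.mt_rot l d e a b c, ← P5.mt_rot l c d e a b, ← P5.mt_rot l b c d e a,
      ← P5.mt_rot l a b c d e]
    have x01 : ¬(P5 Q l z b c d e ∧ P5 Q l z c d e a) := fun q =>
      p.ex1 h tw q.1 q.2.rot.rot.rot.rot
    have x12 : ¬(P5 Q l z c d e a ∧ P5 Q l z d e a b) := fun q =>
      p1.ex1 h tw q.1 q.2.rot.rot.rot.rot
    have x23 : ¬(P5 Q l z d e a b ∧ P5 Q l z e a b c) := fun q =>
      p2.ex1 h tw q.1 q.2.rot.rot.rot.rot
    have x34 : ¬(P5 Q l z e a b c ∧ P5 Q l z a b c d) := fun q =>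
      p3.ex1 h tw q.1 q.2.rot.rot.rot.rot
    have x40 : ¬(P5 Q l z a b c d ∧ P5 Q l z b c d e) := fun q =>
      p4.ex1 h tw q.1 q.2.rot.rot.rot.rot
    have x02 : ¬(P5 Q l z b c d e ∧ P5 Q l z d e a b) := fun q => p.ex2 h tw q.1 q.2.rot.rot.rot
    have x13 : ¬(P5 Q l z c d e a ∧ P5 Q l z e a b c) := fun q => p1.ex2 h tw q.1 q.2.rot.rot.rot
    have x24 : ¬(P5 Q l z d e a b ∧ P5 Q l z a b c d) := fun q => p2.ex2 h tw q.1 q.2.rot.rot.rot
    have x30 : ¬(P5 Q l z e a b c ∧ P5 Q l z b c d e) := fun q => p3.ex2 h tw q.1 q.2.rot.rot.rot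
    have x41 : ¬(P5 Q l z a b c d ∧ P5 Q l z c d e a) := fun q => p4.ex2 h tw q.1 q.2.rot.rot.rot
    have tt : P5 Q l z b c d e ∨ P5 Q l z c d e a ∨ P5 Q l z d e a b ∨ P5 Q l z e a b c ∨
        P5 Q l z a b c d := by
      rcases p.twin h tw hz with q | q | q | q | q
      · exact Or.inl q
      · exact Or.inr (Or.inl q.rot)
      · exact Or.inr (Or.inr (Or.inl q.rot.rot))
      · exact Or.inr (Or.inr (Or.inr (Or.inl q.rot.rot.rot)))
      · exact Or.inr (Or.inr (Or.inr (Or.inr q.rot.rot.rot.rot)))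
    rcases tt with q | q | q | q | q
    all_goals
      have n1 := q.ab
      have n2 := q.ac
      have n3 := q.ad
      have n4 := q.ae
      simp only [q, true_and, and_true] at x01 x12 x23 x34 x40 x02 x13 x24 x30 x41
      simp only [*, true_and, false_and, if_false, add_zero, zero_add]
    · exact if_congr ⟨fun g => g.1.symm, fun g => ⟨g.symm, n1, n2, n3, n4⟩⟩ rfl rfl
    · exact if_congr ⟨fun g => g.2.1.symm, fun g => ⟨n4, g.symm, n1, n2, n3⟩⟩ rfl rfl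
    · exact if_congr ⟨fun g => g.2.2.1.symm, fun g => ⟨n3, n4, g.symm, n1, n2⟩⟩ rfl rfl
    · exact if_congr ⟨fun g => g.2.2.2.1.symm, fun g => ⟨n2, n3, n4, g.symm, n1⟩⟩ rfl rfl
    · exact if_congr ⟨fun g => g.2.2.2.2.symm, fun g => ⟨n1, n2, n3, n4, g.symm⟩⟩ rfl rfl
  · have n1 : ¬P5 Q l b c d e a := fun q => p q.rot.rot.rot.rot
    have n2 : ¬P5 Q l c d e a b := fun q => p q.rot.rot.rot
    have n3 : ¬P5 Q l d e a b c := fun q => p q.rot.rot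
    have n4 : ¬P5 Q l e a b c d := fun q => p q.rot
    simp [p, n1, n2, n3, n4]

lemma G1_sum (h : Cl Q k t l) (tw : TW Q l) (hQ : k ≤ Q.card + 1) (a b c d e : V) :
    ∑ z ∈ Q, G1 Q l a b c d e z ≤ 0 ∧ (P5 Q l a b c d e → ∑ z ∈ Q, G1 Q l a b c d e z < 0) := by
  classical
  unfold G1
  by_cases p : P5 Q l a b c d e
  · simp only [p, true_and]
    rw [← Finset.sum_filter, Finset.sum_sub_distrib, Finset.sum_const, nsmul_eq_mul, mul_one]
    set S := Q.filter fun z => z ≠ a ∧ z ≠ b ∧ z ≠ c ∧ z ≠ d ∧ z ≠ e with hS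
    have h1 := p.mt_sum h tw S fun z hz => Finset.mem_filter.mp hz
    have h2 : Q.card ≤ (S ∪ {a, b, c, d, e}).card := by
      refine Finset.card_le_card fun z hz => ?_
      simp only [hS, Finset.mem_union, Finset.mem_filter, Finset.mem_insert, Finset.mem_singleton]
      tauto
    have h3 := Finset.card_union_le S {a, b, c, d, e}
    have h4 : ({a, b, c, d, e} : Finset V).card ≤ 5 := Finset.card_le_five
    exact ⟨by omega, fun _ => by omega⟩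
  · simp [p]

/-- No pentagon. -/
theorem no_pent (h : Cl Q k t l) (tw : TW Q l) (hQ : k ≤ Q.card + 1) {a b c d e : V} :
    ¬P5 Q l a b c d e := by
  intro p
  set T := (Q ×ˢ Q ×ˢ Q ×ˢ Q ×ˢ Q) ×ˢ Q with hT
  have mem : ∀ s : (V × V × V × V × V) × V, s ∈ T ↔ s.1.1 ∈ Q ∧ s.1.2.1 ∈ Q ∧ s.1.2.2.1 ∈ Q ∧
      s.1.2.2.2.1 ∈ Q ∧ s.1.2.2.2.2 ∈ Q ∧ s.2 ∈ Q := fun s => by
    simp only [hT, Finset.mem_product, and_assoc]
  have up : ∑ s ∈ T, G1 Q l s.1.1 s.1.2.1 s.1.2.2.1 s.1.2.2.2.1 s.1.2.2.2.2 s.2 < 0 := by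
    rw [hT, Finset.sum_product]
    refine lt_of_lt_of_eq (Finset.sum_lt_sum (g := fun _ => 0) 
      (fun x _ => (h.G1_sum tw hQ x.1 x.2.1 x.2.2.1 x.2.2.2.1 x.2.2.2.2).1)
      ⟨(a, b, c, d, e), ?_, (h.G1_sum tw hQ a b c d e).2 p⟩) (by simp)
    simp [p.ma, p.mb, p.mc, p.md, p.me]
  rw [Finset.sum_congr rfl fun s hs => h.G1_split tw _ _ _ _ _ ((mem s).1 hs).2.2.2.2.2] at up
  simp only [Finset.sum_add_distrib] at up
  have i0 := inv_sum T (fun s => ((s.2, s.1.2), s.1.1))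
    (fun s => G0 Q l s.1.1 s.1.2.1 s.1.2.2.1 s.1.2.2.2.1 s.1.2.2.2.2 s.2)
    (fun s hs => by rw [mem] at hs ⊢; tauto) (fun _ _ => rfl) fun s _ => h.G0_pair _ _ _ _ _ _
  have i1 := inv_sum T (fun s => ((s.1.1, s.2, s.1.2.2), s.1.2.1))
    (fun s => G0 Q l s.1.2.1 s.1.2.2.1 s.1.2.2.2.1 s.1.2.2.2.2 s.1.1 s.2)
    (fun s hs => by rw [mem] at hs ⊢; tauto) (fun _ _ => rfl) fun s _ => h.G0_pair _ _ _ _ _ _
  have i2 := inv_sum T (fun s => ((s.1.1, s.1.2.1, s.2, s.1.2.2.2), s.1.2.2.1))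
    (fun s => G0 Q l s.1.2.2.1 s.1.2.2.2.1 s.1.2.2.2.2 s.1.1 s.1.2.1 s.2)
    (fun s hs => by rw [mem] at hs ⊢; tauto) (fun _ _ => rfl) fun s _ => h.G0_pair _ _ _ _ _ _
  have i3 := inv_sum T (fun s => ((s.1.1, s.1.2.1, s.1.2.2.1, s.2, s.1.2.2.2.2), s.1.2.2.2.1))
    (fun s => G0 Q l s.1.2.2.2.1 s.1.2.2.2.2 s.1.1 s.1.2.1 s.1.2.2.1 s.2)
    (fun s hs => by rw [mem] at hs ⊢; tauto) (fun _ _ => rfl) fun s _ => h.G0_pair _ _ _ _ _ _
  have i4 := inv_sum T (fun s => ((s.1.1, s.1.2.1, s.1.2.2.1, s.1.2.2.2.1, s.2), s.1.2.2.2.2))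
    (fun s => G0 Q l s.1.2.2.2.2 s.1.1 s.1.2.1 s.1.2.2.1 s.1.2.2.2.1 s.2)
    (fun s hs => by rw [mem] at hs ⊢; tauto) (fun _ _ => rfl) fun s _ => h.G0_pair _ _ _ _ _ _
  omega

/-- Double replacement. -/
lemma dr (h : Cl Q k t l) (tw : TW Q l) (hQ : k ≤ Q.card + 1) {u v w u' v' : V} (hu : u ∈ Q)
    (hv : v ∈ Q) (hw : w ∈ Q) (hu' : u' ∈ Q) (hv' : v' ∈ Q) (s : nu l u v w = 1)
    (s1 : nu l u' v w = 1) (s2 : nu l u v' w = 1) : nu l u' v' w = 1 := by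
  by_contra n
  have a := h.one tw hu hv hw hu' s
  have b := h.one tw hu hv hw hv' s
  have c := h.one tw hu' hv hw hv' s1
  have d := h.one tw hu hv' hw hu' s2
  refine h.no_pent tw hQ (a := u') (b := v) (c := w) (d := u) (e := v')
    ⟨hu', hv, hw, hu, hv', s1, by rw [← nu_rot]; exact s, by rw [nu_rot]; exact s2, ?_, ?_⟩
  · have := nu_rot l u v' u'
    unfold nu at *; omega
  · unfold nu at *; omega

end Cl

end Pool.Agent.P.MP_3f5ded_co.UG
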