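import Pool.Agent.P.MP_3f5ded_co.UGDefs

set_option autoImplicit false

namespace Pool.Agent.P.MP_3f5ded_co.UG

open Sum

theorem sk_res (d : ℤ) : ∃ q t : ℤ, 0 ≤ t ∧ t < 30 ∧ d = 30 * q + t :=
  ⟨d / 30, d % 30, by omega, by omega, by omega⟩

theorem sk_two {d x y : ℤ} (e : y = x + 2) (hp : (x - d) % 2 = 1)
    (h1 : (x - d) % 30 % 4 = 3 → (x - d) % 30 = 3) (h2 : (y - d) % 30 % 4 = 3 → (y - d) % 30 = 3) :
    (x - d) % 30 = 29 ∨ (x - d) % 30 = 1 ∨ (x - d) % 30 = 3 := by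
  obtain ⟨q, t, a0, a1, e⟩ := sk_res (x - d)
  interval_cases t <;> omega

/-- The type of a middle vertex. -/
def SkT (J M : ℤ → Prop) (z : ℤ) : Prop := J z ∧ J (z + 1) ∧ M z ∧ M (z + 1) ∧
  (M (z + 2) ∨ ∀ w, J w → (w - z) % 2 = 1 → (w - z) % 30 = 29 ∨ (w - z) % 30 = 1)

section
variable {J : ℤ → Prop} (Jper : ∀ x y, J x → (y - x) % 30 = 0 → J y)
  (JJ : ∀ x y, J x → J y → (y - x) % 30 % 4 ≠ 3)
include Jper JJ

theorem sk_type {P M : ℤ → Prop} (hb : ∀ z, ∃ w, J w ∧ (w - z) % 2 = 1)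
    (PJ : ∀ x y, P x → J y → (y - x) % 30 % 4 = 3 → (y - x) % 30 = 3)
    (M1 : ∀ j, M j → M (j + 1) → J j ∨ J (j + 1)) {a : ℤ}
    (ha : M (a + 1) ∧ M (a + 2) ∧ M (a + 3) ∧ (M (a + 4) ∨ P a)) : ∃ z, SkT J M z := by
  have hA : ∀ z z' z'', z' = z + 1 → z'' = z + 2 → J z → J z'' → J z' := by
    intro z z' z'' e1 e2 h1 h2
    obtain ⟨w, hw, hp⟩ := hb z
    have := JJ z w h1 hw
    have := JJ z'' w h2 hw
    obtain ⟨q, t, h0, h1, e⟩ := sk_res (w - z)
    exact Jper w z' hw (by interval_cases t <;> omega)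
  obtain ⟨m1, m2, m3, m4⟩ := ha
  have e1 : a + 1 + 1 = a + 2 := by ring
  have e2 : a + 2 + 1 = a + 3 := by ring
  have e3 : a + 3 + 1 = a + 4 := by ring
  have e4 : a + 2 + 2 = a + 4 := by ring
  have e5 : a + 1 + 2 = a + 3 := by ring
  have j1 := M1 (a + 1) m1 (e1 ▸ m2)
  have j2 := M1 (a + 2) m2 (e2 ▸ m3)
  rw [e1] at j1
  rw [e2] at j2
  have k2 : J (a + 2) := j1.elim (fun x => j2.elim id fun y =>
    hA (a + 1) _ _ e1.symm e5.symm x y) id
  rcases m4 with m4 | hP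
  · have j3 := M1 (a + 3) m3 (e3 ▸ m4)
    rw [e3] at j3
    exact ⟨a + 2, k2, e2 ▸ j3.elim id (hA (a + 2) _ _ e2.symm e4.symm k2), m2, e2 ▸ m3,
      Or.inl (e4 ▸ m4)⟩
  · have h : ∀ w, J w → (w - a) % 2 = 1 → (w - a) % 30 = 1 ∨ (w - a) % 30 = 3 := fun w hw hp => by
      have := JJ (a + 2) w k2 hw
      have := PJ a w hP hw
      omega
    obtain ⟨w, hw, hp⟩ := hb a
    rcases h w hw hp with t | t
    · exact ⟨a + 1, Jper w _ hw (by omega), e1 ▸ k2, m1, e1 ▸ m2, Or.inl (e5 ▸ m3)⟩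
    · refine ⟨a + 2, k2, Jper w _ hw (by omega), m2, e2 ▸ m3, Or.inr fun y hy hq => ?_⟩
      have := h y hy (by omega)
      omega

omit Jper in
theorem sk_three {U V W : ℤ → Prop} (Vper : ∀ x y, V x → (y - x) % 30 = 0 → V y)
    (Wper : ∀ x y, W x → (y - x) % 30 = 0 → W y) (M2 : ∀ j, U j → V j → J j)
    (M3 : ∀ j, U j → V j → W j → False) {z y x : ℤ} (hu : SkT J U z) (hv : SkT J V y)
    (hw : SkT J W x) (hp : (y - z) % 2 = 0) : False := by
  have hU : ∀ s s1 t t1, s1 = s + 1 → t1 = t + 1 → J s → J s1 → J t → J t1 → (t - s) % 2 = 0 →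
      (t - s) % 30 = 0 := fun s s1 t t1 e1 e2 h1 h2 h3 h4 h => by
    have := JJ s t1 h1 h4
    have := JJ t s1 h3 h2
    obtain ⟨q, r, a0, a1, e⟩ := sk_res (t - s)
    interval_cases r <;> omega
  obtain ⟨u1, u2, u3, u4, u5⟩ := hu
  obtain ⟨v1, v2, v3, v4, v5⟩ := hv
  obtain ⟨w1, w2, w3, w4, -⟩ := hw
  have e := hU z _ y _ rfl rfl u1 u2 v1 v2 hp
  have n0 : ¬W z := M3 z u3 (Vper y z v3 (by omega))
  have n1 : ¬W (z + 1) := M3 _ u4 (Vper _ _ v4 (by omega))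
  have o : (x - z) % 2 = 1 := by
    by_contra h
    have := hU z _ x _ rfl rfl u1 u2 w1 w2 (by omega)
    exact n0 (Wper x z w3 (by omega))
  have hL : ¬((x - z) % 30 = 29 ∨ (x - z) % 30 = 1) := fun h => h.elim
    (fun h => n0 (Wper _ _ w4 (by omega))) fun h => n1 (Wper _ _ w3 (by omega))
  rcases u5 with u5 | u5
  · rcases v5 with v5 | v5
    · have := hU (z + 1) (z + 2) x _ (by ring) rfl u2 (M2 _ u5 (Vper _ _ v5 (by omega))) w1 w2
        (by omega)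
      omega
    · have := v5 x w1 (by omega)
      omega
  · exact hL (u5 x w1 o)

end

/-- Step (5): the set `J` has one parity. -/
theorem one_parity (J P : ℤ → Prop) (M : Fin 3 → ℤ → Prop)
    (Jper : ∀ x y, J x → (y - x) % 30 = 0 → J y)
    (Mper : ∀ v x y, M v x → (y - x) % 30 = 0 → M v y)
    (JJ : ∀ x y, J x → J y → (y - x) % 30 % 4 ≠ 3)
    (PJ : ∀ x y, P x → J y → (y - x) % 30 % 4 = 3 → (y - x) % 30 = 3)
    (M1 : ∀ v j, M v j → M v (j + 1) → J j ∨ J (j + 1))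
    (M2 : ∀ u v j, u ≠ v → M u j → M v j → J j)
    (M3 : ∀ j, M 0 j → M 1 j → M 2 j → False)
    (a : Fin 3 → ℤ)
    (ha : ∀ v, M v (a v + 1) ∧ M v (a v + 2) ∧ M v (a v + 3) ∧ (M v (a v + 4) ∨ P (a v))) :
    ∀ x y, J x → J y → (y - x) % 2 = 0 := by
  intro x y hx hy
  by_contra hxy
  have hb : ∀ z, ∃ w, J w ∧ (w - z) % 2 = 1 := fun z => by
    by_cases h : (x - z) % 2 = 1
    · exact ⟨x, hx, h⟩
    · exact ⟨y, hy, by omega⟩
  choose z hz using fun v => sk_type Jper JJ hb PJ (M1 v) (ha v)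
  by_cases h1 : (z 1 - z 0) % 2 = 0
  · exact sk_three JJ (Mper 1) (Mper 2) (fun j => M2 0 1 j (by decide)) M3 (hz 0) (hz 1)
      (hz 2) h1
  by_cases h2 : (z 2 - z 0) % 2 = 0
  · exact sk_three JJ (Mper 2) (Mper 1) (fun j => M2 0 2 j (by decide))
      (fun j p q r => M3 j p r q) (hz 0) (hz 2) (hz 1) h2
  · exact sk_three JJ (Mper 2) (Mper 0) (fun j => M2 1 2 j (by decide))
      (fun j p q r => M3 j r p q) (hz 1) (hz 2) (hz 0) (by omega)

/-- Step (7): the exceptional case. -/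
theorem caseN (J P : ℤ → Prop) (M : Fin 3 → ℤ → Prop)
    (Mper : ∀ v x y, M v x → (y - x) % 30 = 0 → M v y)
    (Jodd : ∀ x, J x → x % 2 = 1)
    (PJ : ∀ x y, P x → J y → (y - x) % 30 % 4 = 3 → (y - x) % 30 = 3)
    (PP : ∀ x y, P x → P y → (y - x) % 30 % 4 = 3 → (y - x) % 30 = 3 ∨ (y - x) % 30 = 27)
    (M1 : ∀ v j, M v j → M v (j + 1) → J j ∨ J (j + 1))
    (M2 : ∀ u v j, u ≠ v → M u j → M v j → J j)
    (a : Fin 3 → ℤ)
    (ha : ∀ v, M v (a v + 1) ∧ M v (a v + 2) ∧ M v (a v + 3) ∧ (M v (a v + 4) ∨ P (a v)))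
    (u : Fin 3) (hu : a u % 2 = 0) (hP : P (a u)) :
    ∃ v w, M v (a u) ∧ M w (a u + 4) := by
  have key : ∀ v, u ≠ v → M v (a u) ∨ M v (a u + 4) := fun v huv => by
    obtain ⟨m1, m2, m3, m4⟩ := ha v
    have one : ∀ j k, k = j + 1 → M v j → M v k → (j % 2 = 1 → J j) ∧ (j % 2 = 0 → J k) := by
      rintro j k rfl p q
      refine ⟨fun h => (M1 v j p q).elim id fun r => ?_, fun h => (M1 v j p q).elim (fun r => ?_) id⟩
      all_goals
        have := Jodd _ r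
        omega
    have fin : ∀ j, M v j → (a u - j) % 30 = 0 ∨ (a u + 4 - j) % 30 = 0 →
        M v (a u) ∨ M v (a u + 4) := fun j p h => h.imp (Mper v j _ p) (Mper v j _ p)
    have o1 := one _ _ (by ring) m1 m2
    have o2 := one _ _ (by ring) m2 m3
    by_cases hv : a v % 2 = 0
    · have p1 := PJ _ _ hP (o1.1 (by omega))
      have p2 := PJ _ _ hP (o2.2 (by omega))
      by_cases h0 : (a v - a u) % 30 = 0
      · have := Jodd _ (M2 u v _ huv (ha u).2.1 (Mper v _ _ m2 (by omega)))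
        omega
      · have := sk_two (by ring) (by omega) p1 p2
        clear p1 p2
        exact fin _ m2 (by omega)
    · have p1 := PJ _ _ hP (o1.2 (by omega))
      have h : (a v - a u) % 30 = 27 ∨ (a v - a u) % 30 = 1 ∨ (a v - a u) % 30 = 29 ∨
          (a v - a u) % 30 = 3 := by
        rcases m4 with m4 | m4
        · have p2 := PJ _ _ hP ((one _ _ (by ring) m3 m4).2 (by omega))
          have := sk_two (by ring) (by omega) p1 p2
          clear p1 p2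
          omega
        · have p2 := PP _ _ hP m4
          omega
      rcases h with h | h | h | h
      · exact fin _ m3 (by omega)
      · exact fin _ m3 (by omega)
      · exact fin _ m1 (by omega)
      · exact fin _ m1 (by omega)
  have hd : u ≠ u + 1 ∧ u ≠ u + 2 ∧ u + 1 ≠ u + 2 := by
    clear key hP hu
    revert u
    decide
  rcases key _ hd.1 with p | p <;> rcases key _ hd.2.1 with q | q
  · have := Jodd _ (M2 _ _ _ hd.2.2 p q)
    omega
  · exact ⟨_, _, p, q⟩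
  · exact ⟨_, _, q, p⟩
  · have := Jodd _ (M2 _ _ _ hd.2.2 p q)
    omega

end Pool.Agent.P.MP_3f5ded_co.UG
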