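import Pool.Agent.P.MP_3f5ded_co.UGTie
import Pool.Agent.P.MP_3f5ded_co.UGPent

set_option autoImplicit false

namespace Pool.Agent.P.MP_3f5ded_co.UG

lemma Fr.exists_zero {k : ℕ} {r : ℝ} {f : ℤ → ℝ} (h : Fr k r f) : ∃ s, f (s - 1) < 0 ∧ 0 ≤ f s := by
  have hb : ∃ b : ℤ, ∀ z : ℤ, 0 ≤ f z → b ≤ z := by
    obtain ⟨n, hn⟩ := exists_int_gt (f 0)
    refine ⟨min 0 (-n), fun z hz => ?_⟩
    by_contra c
    push Not at c
    have c1 : z < 0 := lt_of_lt_of_le c (min_le_left _ _)
    have c2 : z < -n := lt_of_lt_of_le c (min_le_right _ _)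
    have := h.mono c1.le
    have c3 : (z : ℝ) < -n := by exact_mod_cast c2
    push_cast at this
    linarith
  have he : ∃ z : ℤ, 0 ≤ f z := by
    obtain ⟨n, hn⟩ := exists_nat_gt (-f 0)
    have := h.monoN 0 n
    exact ⟨0 + n, by linarith⟩
  obtain ⟨s, h1, h2⟩ := Int.exists_least_of_bdd hb he
  refine ⟨s, ?_, h1⟩
  by_contra c
  push Not at c
  have := h2 _ c
  omega

lemma fw_shift {k : ℕ} {a b s : ℤ} (a0 : 0 ≤ a) (a1 : a < k) (b0 : 0 ≤ b) (b1 : b < k)
    (n : a ≠ b) : fw k a b = sp k ((a - s) % k) ((b - s) % k) := by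
  have hk : (0 : ℤ) < k := by omega
  have e1 := Int.emod_add_mul_ediv (a - s) k
  have e2 := Int.emod_add_mul_ediv (b - s) k
  have l1 := Int.emod_nonneg (a - s) hk.ne'
  have l2 := Int.emod_nonneg (b - s) hk.ne'
  have u1 := Int.emod_lt_of_pos (a - s) hk
  have u2 := Int.emod_lt_of_pos (b - s) hk
  set x := (a - s) % k
  set y := (b - s) % k
  have e : b - a = y - x + k * ((b - s) / k - (a - s) / k) := by linarith
  set m := (b - s) / k - (a - s) / k
  have hm : m = -1 ∨ m = 0 ∨ m = 1 := by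
    have h1 : m < 2 := by
      by_contra c
      have : k * 2 ≤ (k : ℤ) * m := mul_le_mul_of_nonneg_left (by omega) hk.le
      omega
    have h2 : -2 < m := by
      by_contra c
      have : (k : ℤ) * m ≤ k * (-2) := mul_le_mul_of_nonneg_left (by omega) hk.le
      omega
    omega
  unfold fw sp
  rcases hm with c | c | c <;> rw [c] at e <;> split_ifs <;> omega

namespace Clq
variable {W : Type} {k : ℕ} {r : ℝ} {Q : Finset W} {F : W → ℤ → ℝ} {κ : W → W → ℤ}
  {u v w x y z : W}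

/-- Ranks and times for a clique with frames. -/
lemma exists_cl (h : Clq k r Q F κ) (hr : r < k + 1) : ∃ t l, Cl Q k t l ∧
    ∀ x ∈ Q, ∀ a ∈ Q, ∀ b ∈ Q, a ≠ x → b ≠ x → a ≠ b → st k κ x a b = sp k (l x a) (l x b) := by
  have hs : ∀ x, ∃ s, x ∈ Q → F x (s - 1) < 0 ∧ 0 ≤ F x s := fun x => by
    by_cases hx : x ∈ Q
    · obtain ⟨s, hs⟩ := (h.fr x hx).exists_zero
      exact ⟨s, fun _ => hs⟩
    · exact ⟨0, fun c => absurd c hx⟩
  choose s hs using hs
  set l : W → W → ℤ := fun x y => (κ x y - s x) % k with hl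
  have kp : ∀ x ∈ Q, ∀ y ∈ Q, y ≠ x → (0 : ℤ) < k := fun x hx y hy n =>
    lt_of_le_of_lt (h.lo x hx y hy n) (h.hi x hx y hy n)
  have lo : ∀ x ∈ Q, ∀ y ∈ Q, y ≠ x → 0 ≤ l x y := fun x hx y hy n =>
    Int.emod_nonneg _ (kp x hx y hy n).ne'
  have hi : ∀ x ∈ Q, ∀ y ∈ Q, y ≠ x → l x y < k := fun x hx y hy n =>
    Int.emod_lt_of_pos _ (kp x hx y hy n)
  have cg : ∀ x ∈ Q, ∀ y, Cg r (F x (κ x y)) (F x (s x + l x y)) := fun x hx y => by
    have e : κ x y = s x + l x y + (κ x y - s x) / k * k := by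
      have := Int.emod_add_mul_ediv (κ x y - s x) k
      simp only [hl]; linarith
    refine ⟨(κ x y - s x) / k, ?_⟩
    rw [← (h.fr x hx).perZ, ← e]
  have rg : ∀ x ∈ Q, ∀ y ∈ Q, y ≠ x → 0 ≤ F x (s x + l x y) ∧ F x (s x + l x y) < r := by
    intro x hx y hy n
    have a := (h.fr x hx).mono (show s x ≤ s x + l x y by have := lo x hx y hy n; omega)
    have b := (h.fr x hx).mono (show s x + l x y ≤ s x - 1 + k by have := hi x hx y hy n; omega)
    rw [(h.fr x hx).per] at b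
    have c : (0 : ℝ) ≤ l x y := by exact_mod_cast lo x hx y hy n
    have d : (l x y : ℝ) + 1 ≤ k := by exact_mod_cast hi x hx y hy n
    have := hs x hx
    push_cast at a b
    constructor <;> linarith
  have key : ∀ x ∈ Q, ∀ a ∈ Q, ∀ b ∈ Q, a ≠ x → b ≠ x → a ≠ b →
      st k κ x a b = sp k (l x a) (l x b) := fun x hx a ha b hb ax bx ab =>
    fw_shift (h.lo x hx a ha ax) (h.hi x hx a ha ax) (h.lo x hx b hb bx) (h.hi x hx b hb bx)
      fun e => ab (h.inj x hx a ha b hb ax bx e)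
  refine ⟨fun x y => F x (s x + l x y), l, ⟨?_, lo, hi, ?_, ?_⟩, key⟩
  · intro x hx y hy n
    have a := rg x hx y hy n
    have b := rg y hy x hx n.symm
    exact Cg.uniq (cg x hx y) ((h.cg x hx y hy n).trans (cg y hy x)) (by linarith) (by linarith)
  · intro x hx p hp q hq px qx pq e
    have a := key x hx p hp q hq px qx pq
    have b := h.st_lt hx hp hq px qx
    rw [e] at a
    unfold sp at a
    simp at a
    omega
  · intro x hx p hp q hq px qx e
    have a := (h.fr x hx).mono (show s x + l x p ≤ s x + l x q by omega)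
    have b := (h.fr x hx).upper (i := s x + l x p) (j := s x + l x q)
      (by have := lo x hx p hp px; have := hi x hx q hq qx; omega)
    push_cast at a b
    constructor <;> linarith

lemma short_nu {t : W → W → ℝ} {l : W → W → ℤ} (c : Cl Q k t l) (hk : 5 ≤ k)
    (e : ∀ x ∈ Q, ∀ a ∈ Q, ∀ b ∈ Q, a ≠ x → b ≠ x → a ≠ b → st k κ x a b = sp k (l x a) (l x b))
    (hu : u ∈ Q) (hv : v ∈ Q) (hw : w ∈ Q) (uv : u ≠ v) (vw : v ≠ w) (wu : w ≠ u) :
    Short k κ u v w ↔ nu l u v w = 1 := by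
  unfold Short tri
  rw [e v hv u hu w hw uv vw.symm wu.symm, e w hw v hv u hu vw wu.symm uv.symm,
    e u hu w hw v hv wu uv.symm vw.symm]
  have a := c.nu_le hu hv hw
  have b := c.nu_ge hu hv hw
  constructor
  · intro s
    unfold sp at s
    unfold nu at a b ⊢
    split_ifs at s <;> omega
  · intro s
    have o := c.tri hu hv hw s
    have i0 := c.lt_iff hv hu hw uv vw.symm
    have i1 := c.lt_iff hw hv hu vw wu.symm
    have i2 := c.lt_iff hu hw hv wu uv.symm
    rw [c.symm v hv u hu uv] at i0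
    rw [c.symm w hw v hv vw] at i1
    rw [c.symm u hu w hw wu] at i2
    unfold sp
    unfold nu at s
    simp only [i0, i1, i2]
    rcases o with ⟨o1, o2⟩ | ⟨o1, o2⟩ | ⟨o1, o2⟩ <;>
    · have o3 := (o1.trans o2).not_gt
      simp only [o1, o2, o3, if_true, if_false]
      omega

lemma tw_of (h : Clq k r Q F κ) (hk : 5 ≤ k) (hr : r < k + 1) (hQ : k ≤ Q.card + 1)
    {t : W → W → ℝ} {l : W → W → ℤ} (c : Cl Q k t l)
    (e : ∀ x ∈ Q, ∀ a ∈ Q, ∀ b ∈ Q, a ≠ x → b ≠ x → a ≠ b → st k κ x a b = sp k (l x a) (l x b)) :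
    TW Q l := by
  intro u hu v hv w hw z hz s1 s2 zw b
  obtain ⟨uv, vw, wu⟩ := nu_ne s1
  obtain ⟨-, vz, zu⟩ := nu_ne s2
  refine h.tie_eps hk hr hQ hu hv hw hz uv vw wu zu vz.symm zw
    ((short_nu c hk e hu hv hw uv vw wu).2 s1) ((short_nu c hk e hu hv hz uv vz zu).2 s2) ?_
  unfold On
  rw [e w hw v hv z hz vw zw vz, e w hw v hv u hu vw wu.symm uv.symm]
  have := c.lo w hw v hv vw
  have := c.hi w hw v hv vw
  have := c.lo w hw z hz zw
  have := c.hi w hw z hz zw
  have := c.lo w hw u hu wu.symm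
  have := c.hi w hw u hu wu.symm
  unfold bt at b
  unfold sp
  split_ifs <;> omega

/-- STRUCTURE, part 1: three classes; the short triangles are those meeting them in cyclic order. -/
theorem classes (h : Clq k r Q F κ) (hk : 5 ≤ k) (hr : r < k + 1) (hQ : k ≤ Q.card + 1)
    (hu : u ∈ Q) (hv : v ∈ Q) (hw : w ∈ Q) (uv : u ≠ v) (vw : v ≠ w) (wu : w ≠ u)
    (s : Short k κ u v w) : ∃ c : W → ZMod 3, c u = 0 ∧ c v = 1 ∧ c w = 2 ∧
      ∀ x ∈ Q, ∀ y ∈ Q, ∀ z ∈ Q, x ≠ y → y ≠ z → z ≠ x →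
        (Short k κ x y z ↔ c y = c x + 1 ∧ c z = c x + 2) := by
  classical
  obtain ⟨t, l, cl, e⟩ := h.exists_cl hr
  have tw := h.tw_of hk hr hQ cl e
  have hQ' : (k : ℤ) ≤ Q.card + 1 := by exact_mod_cast hQ
  have s0 := (short_nu cl hk e hu hv hw uv vw wu).1 s
  have rb : ∀ x ∈ Q, ∀ y ∈ Q, ∀ z ∈ Q, nu l x v w = 1 → nu l u y w = 1 → nu l u v z = 1 →
      nu l x y z = 1 := by
    intro x hx y hy z hz a b d
    have p1 := cl.dr tw hQ' hu hv hw hx hy s0 a b
    have p2 := cl.dr tw hQ' hv hw hu hy hz (by rw [← nu_rot]; exact s0)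
      (by rw [← nu_rot]; exact b) (by rw [← nu_rot]; exact d)
    have p3 := cl.dr tw hQ' hw hu hy hz hx (by rw [nu_rot]; exact b)
      (by rw [nu_rot, nu_rot]; exact p2) (by rw [nu_rot]; exact p1)
    rwa [nu_rot] at p3
  set c : W → ZMod 3 := fun x => if nu l x v w = 1 then 0 else if nu l u x w = 1 then 1 else 2
    with hc
  have cs : ∀ x ∈ Q, (c x = 0 ∧ nu l x v w = 1) ∨ (c x = 1 ∧ nu l u x w = 1) ∨
      (c x = 2 ∧ nu l u v x = 1) := by
    intro x hx
    rcases cl.one tw hu hv hw hx s0 with ⟨a, b, d⟩ | ⟨a, b, d⟩ | ⟨a, b, d⟩ <;> simp [hc, a, b, d]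
  have zero : ∀ x ∈ Q, ∀ y ∈ Q, ∀ z ∈ Q, c x = c y → nu l x y z = 0 := by
    have z1 : ∀ x ∈ Q, ∀ y ∈ Q, ∀ z ∈ Q, c x = c y → c z ≠ c x → nu l x y z = 0 := by
      intro x hx y hy z hz q n
      rcases cs x hx with ⟨a, a'⟩ | ⟨a, a'⟩ | ⟨a, a'⟩ <;>
        rcases cs y hy with ⟨b, b'⟩ | ⟨b, b'⟩ | ⟨b, b'⟩ <;>
        (first | (rw [a, b] at q; exact absurd q (by decide)) | skip) <;>
        rcases cs z hz with ⟨d, d'⟩ | ⟨d, d'⟩ | ⟨d, d'⟩ <;>
        (first | exact absurd (d.trans a.symm) n | skip)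
      · have := cl.one tw hx hz hw hy (rb x hx z hz w hw a' d' s0)
        have := rb y hy z hz w hw b' d' s0
        have := nu_swap l x y z
        have := cl.k4 tw hz hw hx hy (by rw [← nu_rot]; exact rb x hx z hz w hw a' d' s0)
          (by rw [← nu_rot]; exact rb y hy z hz w hw b' d' s0)
        unfold nu at *; omega
      · have := cl.k4 tw hv hz hx hy (by rw [← nu_rot]; exact rb x hx v hv z hz a' s0 d')
          (by rw [← nu_rot]; exact rb y hy v hv z hz b' s0 d')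
        unfold nu at *; omega
      · have := cl.k4 tw hw hz hx hy (by rw [nu_rot]; exact rb z hz x hx w hw d' a' s0)
          (by rw [nu_rot]; exact rb z hz y hy w hw d' b' s0)
        unfold nu at *; omega
      · have := cl.k4 tw hz hu hx hy (by rw [nu_rot]; exact rb u hu x hx z hz s0 a' d')
          (by rw [nu_rot]; exact rb u hu y hy z hz s0 b' d')
        unfold nu at *; omega
      · have := cl.k4 tw hz hv hx hy (rb z hz v hv x hx d' s0 a') (rb z hz v hv y hy d' s0 b')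
        unfold nu at *; omega
      · have := cl.k4 tw hu hz hx hy (rb u hu z hz x hx s0 d' a') (rb u hu z hz y hy s0 d' b')
        unfold nu at *; omega
    intro x hx y hy z hz q
    by_cases n : c z = c x
    · have cu : c u = 0 := by simp [hc, s0]
      have cv : c v = 1 := by
        have : nu l v v w = 0 := by unfold nu; ring
        simp [hc, s0, this]
      obtain ⟨o, ho, no⟩ : ∃ o ∈ Q, c o ≠ c x := by
        by_cases g : c x = 0
        · exact ⟨v, hv, by rw [cv, g]; decide⟩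
        · exact ⟨u, hu, by rw [cu]; exact fun g' => g g'.symm⟩
      have a := z1 x hx y hy o ho q no
      have b := z1 y hy z hz o ho (q.symm.trans n.symm) (q ▸ no)
      have d := z1 z hz x hx o ho n (n ▸ no)
      unfold nu at *; omega
    · exact z1 x hx y hy z hz q n
  refine ⟨c, by simp [hc, s0], ?_, ?_, ?_⟩
  · have : nu l v v w = 0 := by unfold nu; ring
    simp [hc, s0, this]
  · have a : nu l w v w = 0 := by unfold nu; ring
    have b : nu l u w w = 0 := by unfold nu; ring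
    simp [hc, a, b]
  · intro x hx y hy z hz xy yz zx
    rw [short_nu cl hk e hx hy hz xy yz zx]
    have q1 := zero x hx y hy z hz
    have q2 := zero y hy z hz x hx
    have q3 := zero z hz x hx y hy
    have r1 := rb x hx y hy z hz
    have r2 := rb y hy z hz x hx
    have r3 := rb z hz x hx y hy
    have r4 := rb x hx z hz y hy
    have r5 := rb z hz y hy x hx
    have r6 := rb y hy x hx z hz
    have e1 := nu_rot l x y z
    have e2 := nu_rot l y z x
    have e3 := nu_swap l x y z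
    have e4 := nu_swap l y z x
    have e5 := nu_swap l z x y
    rcases cs x hx with ⟨a, a'⟩ | ⟨a, a'⟩ | ⟨a, a'⟩ <;>
      rcases cs y hy with ⟨b, b'⟩ | ⟨b, b'⟩ | ⟨b, b'⟩ <;>
      rcases cs z hz with ⟨d, d'⟩ | ⟨d, d'⟩ | ⟨d, d'⟩ <;>
      rw [a, b] at q1 <;> rw [b, d] at q2 <;> rw [d, a] at q3 <;> rw [a, b, d] <;>
      first
        | exact iff_of_false (by have := q1 rfl; omega) (by decide)
        | exact iff_of_false (by have := q2 rfl; omega) (by decide)
        | exact iff_of_false (by have := q3 rfl; omega) (by decide)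
        | exact iff_of_true (r1 a' b' d') (by decide)
        | exact iff_of_true (by have := r2 b' d' a'; omega) (by decide)
        | exact iff_of_true (by have := r3 d' a' b'; omega) (by decide)
        | exact iff_of_false (by have := r4 a' d' b'; omega) (by decide)
        | exact iff_of_false (by have := r5 d' b' a'; omega) (by decide)
        | exact iff_of_false (by have := r6 b' a' d'; omega) (by decide)

open scoped Classical in
/-- STRUCTURE, part 2: from a suitable start `b`, a vertex reads the next class, then its own class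
and the two outer items, then the previous class. -/
theorem blocks (h : Clq k r Q F κ) (hk : 5 ≤ k) (hr : r < k + 1) (hQ : k ≤ Q.card + 1)
    {c : W → ZMod 3} (hc : ∀ x ∈ Q, ∀ y ∈ Q, ∀ z ∈ Q, x ≠ y → y ≠ z → z ≠ x →
      (Short k κ x y z ↔ c y = c x + 1 ∧ c z = c x + 2)) (sur : ∀ i, ∃ y ∈ Q, c y = i)
    (hx : x ∈ Q) : Q.card + 1 = k ∧ ∃ b : ℤ, ∀ y ∈ Q, y ≠ x →
      (c y = c x + 1 → (κ x y - b) % k < (Q.filter fun q => c q = c x + 1).card) ∧
      (c y = c x → ((Q.filter fun q => c q = c x + 1).card : ℤ) ≤ (κ x y - b) % k ∧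
        (κ x y - b) % k < k - (Q.filter fun q => c q = c x + 2).card) ∧
      (c y = c x + 2 → (k : ℤ) - (Q.filter fun q => c q = c x + 2).card ≤ (κ x y - b) % k) := by
  have z3 : ∀ i j : ZMod 3, j = i ∨ j = i + 1 ∨ j = i + 2 := by decide
  have n1 : ∀ i : ZMod 3, i + 1 ≠ i := by decide
  have n2 : ∀ i : ZMod 3, i + 2 ≠ i := by decide
  have n3 : ∀ i : ZMod 3, i + 2 ≠ i + 1 := by decide
  have a1 : ∀ i : ZMod 3, i = i + 2 + 1 ∧ i + 1 = i + 2 + 2 := by decide
  have a2 : ∀ i : ZMod 3, i + 2 = i + 1 + 1 ∧ i = i + 1 + 2 := by decide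
  set N := Q.filter fun q => c q = c x + 1 with hN
  set P := Q.filter fun q => c q = c x + 2 with hP
  have mN : ∀ z, z ∈ N ↔ z ∈ Q ∧ c z = c x + 1 := fun z => Finset.mem_filter
  have mP : ∀ z, z ∈ P ↔ z ∈ Q ∧ c z = c x + 2 := fun z => Finset.mem_filter
  have xN : ∀ z ∈ N, z ≠ x := fun z hz e => n1 (c x) (by rw [← ((mN z).1 hz).2, e])
  have xP : ∀ z ∈ P, z ≠ x := fun z hz e => n2 (c x) (by rw [← ((mP z).1 hz).2, e])
  have dj : ∀ y ∈ P, ∀ z ∈ N, y ≠ z := fun y hy z hz e =>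
    n3 (c x) (by rw [← ((mP y).1 hy).2, ← ((mN z).1 hz).2, e])
  have sh : ∀ y ∈ P, ∀ z ∈ N, Short k κ y x z := fun y hy z hz =>
    (hc y ((mP y).1 hy).1 x hx z ((mN z).1 hz).1 (xP y hy) (xN z hz).symm (dj y hy z hz).symm).2
      (by rw [((mP y).1 hy).2, ((mN z).1 hz).2]; exact a1 _)
  have full : ∀ y ∈ P, ∀ z ∈ N, Q.card + 1 = k ∧ ∀ j, 0 < j → j < st k κ x y z →
      ∃ q, (q ∈ N ∨ q ∈ P) ∧ st k κ x y q = j := by
    intro y hy z hz
    obtain ⟨yQ, cy⟩ := (mP y).1 hy
    obtain ⟨zQ, cz⟩ := (mN z).1 hz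
    obtain ⟨e, f⟩ := h.tie_full hk hr hQ yQ hx zQ (xP y hy) (xN z hz).symm (dj y hy z hz).symm
      (sh y hy z hz)
    refine ⟨e, fun j j0 j1 => ?_⟩
    obtain ⟨q, hq, qx, eq⟩ := f j j0 j1
    refine ⟨q, ?_, eq⟩
    rcases z3 (c x) (c q) with g | g | g
    · exfalso
      have qz : q ≠ z := fun e => n1 (c x) (by rw [← cz, ← e, g])
      have qy : q ≠ y := fun e => n2 (c x) (by rw [← cy, ← e, g])
      refine h.tie_eps hk hr hQ zQ yQ hx hq (dj y hy z hz).symm (xP y hy) (xN z hz).symm qz qy qx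
        (sh y hy z hz).rot.rot ((hc z zQ y yQ q hq (dj y hy z hz).symm qy.symm qz).2 ?_) ?_
      · rw [cy, cz, g]; exact a2 _
      · unfold On; omega
    · exact Or.inl ((mN q).2 ⟨hq, g⟩)
    · exact Or.inr ((mP q).2 ⟨hq, g⟩)
  obtain ⟨y0, y0Q, cy0⟩ := sur (c x + 2)
  obtain ⟨z0, z0Q, cz0⟩ := sur (c x + 1)
  have y0P := (mP y0).2 ⟨y0Q, cy0⟩
  have z0N := (mN z0).2 ⟨z0Q, cz0⟩
  have eQ := (full y0 y0P z0 z0N).1
  refine ⟨eQ, ?_⟩
  -- the longest short arc
  obtain ⟨⟨y, z⟩, hyz, mx⟩ := Finset.exists_max_image (P ×ˢ N) (fun s => st k κ x s.1 s.2)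
    ⟨(y0, z0), Finset.mem_product.2 ⟨y0P, z0N⟩⟩
  obtain ⟨hy, hz⟩ : y ∈ P ∧ z ∈ N := Finset.mem_product.1 hyz
  have mx' : ∀ p ∈ P, ∀ q ∈ N, st k κ x p q ≤ st k κ x y z := fun p hp q hq =>
    mx (p, q) (Finset.mem_product.2 ⟨hp, hq⟩)
  have yQ := ((mP y).1 hy).1
  have zQ := ((mN z).1 hz).1
  have yx := xP y hy
  have zx := xN z hz
  have cNP : N.card + P.card + 1 ≤ Q.card := by
    have d : Disjoint N P := Finset.disjoint_left.2 fun q a b => dj q b q a rfl
    have := Finset.card_le_card (s := N ∪ P) (t := Q.erase x) fun q hq => by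
      rcases Finset.mem_union.1 hq with a | a
      · exact Finset.mem_erase.2 ⟨xN q a, ((mN q).1 a).1⟩
      · exact Finset.mem_erase.2 ⟨xP q a, ((mP q).1 a).1⟩
    rw [Finset.card_union_of_disjoint d] at this
    have := Finset.card_erase_add_one hx
    omega
  set ps : W → ℤ := fun q => st k κ x y q with hps
  have p0 : ∀ q ∈ Q, q ≠ x → 0 ≤ ps q ∧ ps q < k := fun q hq qx =>
    ⟨fw_nonneg (h.hi x hx y yQ yx) (h.lo x hx q hq qx), h.st_lt hx yQ hq yx qx⟩
  have pinj : ∀ q ∈ Q, ∀ q' ∈ Q, q ≠ x → q' ≠ x → ps q = ps q' → q = q' :=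
    fun q hq q' hq' a b e => h.st_inj hx hq hq' a b e
  have py : ps y = 0 := fw_self _ _
  -- a free position
  have cover : ∀ m : ℤ, (∀ j, 0 ≤ j → j < m → ∃ q, (q ∈ N ∨ q ∈ P) ∧ ps q = j) →
      m ≤ N.card + P.card := by
    intro m hm
    have : Finset.Ico 0 m ⊆ (N ∪ P).image ps := fun j hj => by
      obtain ⟨q, a, b⟩ := hm j (Finset.mem_Ico.1 hj).1 (Finset.mem_Ico.1 hj).2
      exact Finset.mem_image.2 ⟨q, Finset.mem_union.2 a, b⟩
    have c1 := Finset.card_le_card this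
    have c2 := Finset.card_image_le (s := N ∪ P) (f := ps)
    have c3 := Finset.card_union_le N P
    rw [Int.card_Ico] at c1
    omega
  have hit : ∀ j, 0 ≤ j → j ≤ ps z → ∃ q, (q ∈ N ∨ q ∈ P) ∧ ps q = j := by
    intro j j0 j1
    rcases eq_or_lt_of_le j0 with rfl | a
    · exact ⟨y, Or.inr hy, py⟩
    rcases eq_or_lt_of_le j1 with rfl | b
    · exact ⟨z, Or.inl hz, rfl⟩
    exact (full y hy z hz).2 j a b
  -- steps between two items in terms of positions
  have stp : ∀ p ∈ Q, ∀ q ∈ Q, p ≠ x → q ≠ x → st k κ x p q = fw k (ps p) (ps q) := by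
    intro p hp q hq px qx
    have := h.lo x hx p hp px
    have := h.hi x hx p hp px
    have := h.lo x hx q hq qx
    have := h.hi x hx q hq qx
    have := h.lo x hx y yQ yx
    have := h.hi x hx y yQ yx
    simp only [hps, st, fw]
    split_ifs <;> omega
  have ordPN : ∀ p ∈ P, ∀ q ∈ N, ps p < ps q := by
    intro p hp q hq
    have pQ := ((mP p).1 hp).1
    have qQ := ((mN q).1 hq).1
    have a := p0 p pQ (xP p hp)
    have b := p0 q qQ (xN q hq)
    have bz := p0 z zQ zx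
    have ne : ps p ≠ ps q := fun e => dj p hp q hq (pinj p pQ q qQ (xP p hp) (xN q hq) e)
    have nz : ps p ≠ ps z := fun e => dj p hp z hz (pinj p pQ z zQ (xP p hp) zx e)
    by_contra g
    have m1 := mx' p hp z hz
    rw [stp p pQ z zQ (xP p hp) zx] at m1
    have lt : ps p < ps z := by
      change _ ≤ ps z at m1
      unfold fw at m1
      split_ifs at m1 <;> omega
    have := cover k fun j j0 j1 => by
      by_cases d : j ≤ ps z
      · exact hit j j0 d
      obtain ⟨s, hs, e⟩ := (full p hp q hq).2 (j - ps p) (by omega) (by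
        rw [stp p pQ q qQ (xP p hp) (xN q hq)]
        unfold fw
        split_ifs <;> omega)
      have sQ : s ∈ Q ∧ s ≠ x := hs.elim (fun a => ⟨((mN s).1 a).1, xN s a⟩)
        fun a => ⟨((mP s).1 a).1, xP s a⟩
      refine ⟨s, hs, ?_⟩
      rw [stp p pQ s sQ.1 (xP p hp) sQ.2] at e
      have := p0 s sQ.1 sQ.2
      unfold fw at e
      split_ifs at e <;> omega
    omega
  have topN : ∀ q ∈ N, ps q ≤ ps z := fun q hq => mx' y hy q hq
  obtain ⟨w, hw, mn⟩ := Finset.exists_min_image N ps ⟨z, hz⟩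
  have wQ := ((mN w).1 hw).1
  have cP : (P.card : ℤ) = ps w := by
    have e : P.image ps = Finset.Ico 0 (ps w) := by
      ext j
      rw [Finset.mem_image, Finset.mem_Ico]
      constructor
      · rintro ⟨q, hq, rfl⟩
        exact ⟨(p0 q ((mP q).1 hq).1 (xP q hq)).1, ordPN q hq w hw⟩
      · rintro ⟨j0, j1⟩
        obtain ⟨q, a | a, e⟩ := hit j j0 (by have := topN w hw; omega)
        · have := mn q a; omega
        · exact ⟨q, a, e⟩
    have := Finset.card_image_of_injOn (s := P) (f := ps) fun q a q' b e =>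
      pinj q ((mP q).1 a).1 q' ((mP q').1 b).1 (xP q a) (xP q' b) e
    rw [e, Int.card_Ico] at this
    have := (p0 w wQ (xN w hw)).1
    omega
  have cN : (N.card : ℤ) = ps z + 1 - ps w := by
    have e : N.image ps = Finset.Icc (ps w) (ps z) := by
      ext j
      rw [Finset.mem_image, Finset.mem_Icc]
      constructor
      · rintro ⟨q, hq, rfl⟩
        exact ⟨mn q hq, topN q hq⟩
      · rintro ⟨j0, j1⟩
        obtain ⟨q, a | a, e⟩ := hit j (by have := (p0 w wQ (xN w hw)).1; omega) j1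
        · exact ⟨q, a, e⟩
        · have := ordPN q a w hw; omega
    have := Finset.card_image_of_injOn (s := N) (f := ps) fun q a q' b e =>
      pinj q ((mN q).1 a).1 q' ((mN q').1 b).1 (xN q a) (xN q' b) e
    rw [e, Int.card_Icc] at this
    have := topN w hw
    omega
  have age : ∀ q ∈ Q, q ≠ x → (κ x q - κ x w) % k = fw k (ps w) (ps q) := by
    intro q hq qx
    rw [← stp w wQ q hq (xN w hw) qx]
    have := h.lo x hx q hq qx
    have := h.hi x hx q hq qx
    have := h.lo x hx w wQ (xN w hw)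
    have := h.hi x hx w wQ (xN w hw)
    simp only [st, fw]
    split_ifs
    · exact Int.emod_eq_of_lt (by omega) (by omega)
    · rw [← Int.add_emod_right]
      exact Int.emod_eq_of_lt (by omega) (by omega)
  refine ⟨κ x w, fun q hq qx => ?_⟩
  rw [age q hq qx, cP, cN]
  have a := p0 q hq qx
  have b := p0 w wQ (xN w hw)
  have d := topN w hw
  unfold fw
  refine ⟨fun g => ?_, fun g => ?_, fun g => ?_⟩
  · have := mn q ((mN q).2 ⟨hq, g⟩)
    have := topN q ((mN q).2 ⟨hq, g⟩)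
    split_ifs <;> omega
  · have : ps z < ps q := by
      by_contra e
      obtain ⟨s, hs, e'⟩ := hit (ps q) a.1 (by omega)
      have sQ : s ∈ Q ∧ s ≠ x := hs.elim (fun a => ⟨((mN s).1 a).1, xN s a⟩)
        fun a => ⟨((mP s).1 a).1, xP s a⟩
      rw [pinj s sQ.1 q hq sQ.2 qx e'] at hs
      rcases hs with a | a
      · exact n1 (c x) (by rw [← ((mN q).1 a).2, g])
      · exact n2 (c x) (by rw [← ((mP q).1 a).2, g])
    split_ifs <;> omega
  · have := ordPN q ((mP q).2 ⟨hq, g⟩) w hw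
    split_ifs <;> omega

end Clq

end Pool.Agent.P.MP_3f5ded_co.UG
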