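import Pool.Agent.P.MP_3f5ded_co.UGDefs

set_option autoImplicit false

namespace Pool.Agent.P.MP_3f5ded_co.UG

open Finset Function

variable {V K : Type}

/-- A connected piece of a graph of maximum degree two has at most two ends. -/
lemma three_ends [Finite V] (H : SimpleGraph V) (h2 : ∀ v, (H.neighborSet v).ncard ≤ 2) {a b c : V}
    (hab : a ≠ b) (hac : a ≠ c) (hbc : b ≠ c) (ha : (H.neighborSet a).ncard ≤ 1)
    (hb : (H.neighborSet b).ncard ≤ 1) (hc : (H.neighborSet c).ncard ≤ 1)
    (r1 : H.Reachable a b) (r2 : H.Reachable a c) : False := by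
  classical
  let C := H.connectedComponentMk a
  let _ : Fintype C := Fintype.ofFinite _
  have h1 := C.connected_toSimpleGraph.card_vert_le_card_edgeSet_add_one
  have h3 := C.toSimpleGraph.sum_degrees_eq_twice_card_edges
  rw [Nat.card_eq_fintype_card, Nat.card_eq_fintype_card, ← SimpleGraph.edgeFinset_card] at h1
  have hd : ∀ u : C, C.toSimpleGraph.degree u ≤ (H.neighborSet u.1).ncard := by
    intro u
    rw [← SimpleGraph.card_neighborSet_eq_degree, ← Nat.card_eq_fintype_card,
      Nat.card_coe_set_eq]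
    exact Set.ncard_le_ncard_of_injOn Subtype.val (fun v hv => hv) Subtype.val_injective.injOn
  let a' : C := ⟨a, rfl⟩
  let b' : C := ⟨b, SimpleGraph.ConnectedComponent.sound r1.symm⟩
  let c' : C := ⟨c, SimpleGraph.ConnectedComponent.sound r2.symm⟩
  have h4 : ∑ u : C, (C.toSimpleGraph.degree u + (if u = a' then 1 else 0) +
      (if u = b' then 1 else 0) + (if u = c' then 1 else 0)) ≤ ∑ _u : C, 2 := by
    refine sum_le_sum fun u _ => ?_
    have e1 : u = a' ↔ u.1 = a := Subtype.ext_iff
    have e2 : u = b' ↔ u.1 = b := Subtype.ext_iff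
    have e3 : u = c' ↔ u.1 = c := Subtype.ext_iff
    have := hd u
    have := h2 u.1
    simp only [e1, e2, e3]
    split_ifs <;> first | omega | grind
  simp only [sum_add_distrib, sum_ite_eq', mem_univ, if_true, sum_const, card_univ,
    smul_eq_mul] at h4
  omega

/-- A proper edge colouring. -/
def VPr (G : SimpleGraph V) (col : V → V → K) : Prop :=
  (∀ u v, col u v = col v u) ∧ ∀ u v w, G.Adj u v → G.Adj u w → col u v = col u w → v = w

/-- The colour `γ` is missing at `y`. -/
def VMs (G : SimpleGraph V) (col : V → V → K) (y : V) (γ : K) : Prop :=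
  ∀ v, G.Adj y v → col y v ≠ γ

/-- The edges of two colours. -/
def kem (G : SimpleGraph V) (col : V → V → K) (α β : K) : SimpleGraph V where
  Adj u v := G.Adj u v ∧ (col u v = α ∨ col u v = β) ∧ (col v u = α ∨ col v u = β)
  symm := ⟨fun _ _ h => ⟨h.1.symm, h.2.2, h.2.1⟩⟩
  loopless := ⟨fun _ h => h.1.ne rfl⟩

variable {G : SimpleGraph V} {col : V → V → K}

lemma kem_two (h : VPr G col) (α β : K) (v : V) : ((kem G col α β).neighborSet v).ncard ≤ 2 :=
  (Set.ncard_le_ncard_of_injOn (t := {α, β}) (col v) (fun _ hw => hw.2.1)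
    (fun _ hw _ hw' e => h.2 _ _ _ hw.1 hw'.1 e)).trans
    ((Set.ncard_insert_le _ _).trans (by simp))

lemma kem_one (h : VPr G col) (α : K) {β : K} {v : V} (hv : VMs G col v β) :
    ((kem G col α β).neighborSet v).ncard ≤ 1 :=
  (Set.ncard_le_ncard_of_injOn (t := {α}) (col v)
    (fun w hw => hw.2.1.resolve_right (hv w hw.1))
    (fun _ hw _ hw' e => h.2 _ _ _ hw.1 hw'.1 e)).trans (by simp)

/-- Exchanging two colours on one component. -/
lemma kempe [DecidableEq K] (h : VPr G col) (α β : K) (y : V) :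
    ∃ col' : V → V → K, VPr G col' ∧
      (∀ u γ, (kem G col α β).Reachable y u → VMs G col u γ → VMs G col' u (Equiv.swap α β γ)) ∧
      ∀ u γ, ¬ (kem G col α β).Reachable y u → VMs G col u γ → VMs G col' u γ := by
  classical
  let R : V → Prop := fun u => (kem G col α β).Reachable y u
  let col' : V → V → K := fun u v => if R u ∨ R v then Equiv.swap α β (col u v) else col u v
  have e1 : ∀ u v, R u → col' u v = Equiv.swap α β (col u v) := fun u v hu => if_pos (Or.inl hu)
  have e2 : ∀ u v, ¬ R u → G.Adj u v → col' u v = col u v := by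
    intro u v hu huv
    by_cases hv : R v
    · have hn : ¬ (col u v = α ∨ col u v = β) := fun e =>
        hu (hv.trans (SimpleGraph.Adj.reachable (G := kem G col α β) ⟨huv.symm, h.1 u v ▸ e, e⟩))
      rw [not_or] at hn
      exact (if_pos (Or.inr hv)).trans (Equiv.swap_apply_of_ne_of_ne hn.1 hn.2)
    · exact if_neg (not_or.2 ⟨hu, hv⟩)
  refine ⟨col', ⟨fun u v => ?_, fun u v w h1 h2 e => ?_⟩, fun u γ hu hm v hv e => ?_,
    fun u γ hu hm v hv e => ?_⟩
  · simp only [col', h.1 u v, or_comm]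
  · by_cases hu : R u
    · rw [e1 u v hu, e1 u w hu] at e
      exact h.2 u v w h1 h2 ((Equiv.swap α β).injective e)
    · rw [e2 u v hu h1, e2 u w hu h2] at e
      exact h.2 u v w h1 h2 e
  · rw [e1 u v hu] at e
    exact hm v hv ((Equiv.swap α β).injective e)
  · rw [e2 u v hu hv] at e
    exact hm v hv e

lemma exists_miss [Finite V] [Fintype K] (col : V → V → K) {y : V}
    (h : (G.neighborSet y).ncard + 2 ≤ Fintype.card K) (p : K) : ∃ β, β ≠ p ∧ VMs G col y β := by
  by_contra hn
  have hs : (Set.univ : Set K) ⊆ insert p (col y '' G.neighborSet y) := by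
    intro β _
    by_contra hβ
    refine hn ⟨β, fun e => hβ (Or.inl e), fun v hv e => hβ (Or.inr ⟨v, hv, e⟩)⟩
  have h1 := Set.ncard_le_ncard hs
  have h2 := Set.ncard_insert_le p (col y '' G.neighborSet y)
  have h3 := Set.ncard_image_le (f := col y) (s := G.neighborSet y)
  rw [Set.ncard_univ, Nat.card_eq_fintype_card] at h1
  omega

lemma injOn_update [DecidableEq V] {B : Finset V} {t : V} {g : V → K} {γ : K}
    (h : ∀ y ∈ B, ∀ z ∈ B, y ≠ t → z ≠ t → g y = g z → y = z) (hγ : ∀ y ∈ B, y ≠ t → g y ≠ γ) :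
    ∀ y ∈ B, ∀ z ∈ B, update g t γ y = update g t γ z → y = z := by
  intro y hy z hz e
  by_cases h1 : y = t <;> by_cases h2 : z = t
  · rw [h1, h2]
  · rw [h1, update_self, update_of_ne h2] at e
    exact absurd e.symm (hγ z hz h2)
  · rw [h2, update_self, update_of_ne h1] at e
    exact absurd e (hγ y hy h1)
  · rw [update_of_ne h1, update_of_ne h2] at e
    exact h y hy z hz h1 h2 e

/-- The fan argument. -/
lemma fan [Finite V] [DecidableEq V] [Fintype K] (h : VPr G col) (B : Finset V) (α : K)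
    (hB : ∀ y ∈ B, (G.neighborSet y).ncard + 2 ≤ Fintype.card K) (n : ℕ) :
    ∀ (T : Finset V) (t : V) (g : V → K) (p : K), (B \ T).card = n → t ∈ T → t ∈ B →
      (∀ y ∈ B, ∀ z ∈ B, y ≠ t → z ≠ t → g y = g z → y = z) →
      (∀ y ∈ B, y ≠ t → VMs G col y (g y) ∧ g y ≠ α) →
      (∀ y ∈ T, y ∈ B → y ≠ t → ∃ w ∈ T, w ≠ y ∧ VMs G col w (g y) ∧
        (kem G col α (g y)).Reachable y w ∧ (w ≠ t ∨ g y = p)) →
      ∃ (col' : V → V → K) (g' : V → K), VPr G col' ∧
        (∀ y ∈ B, ∀ z ∈ B, g' y = g' z → y = z) ∧ ∀ y ∈ B, VMs G col' y (g' y) := by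
  classical
  induction n using Nat.strong_induction_on with
  | _ n ih =>
  intro T t g p hn htT htB hinj hval hinv
  obtain ⟨β, hβp, hβ⟩ := exists_miss col (hB t htB) p
  by_cases hu : ∃ y ∈ B, y ≠ t ∧ g y = β
  swap
  · refine ⟨col, update g t β, h, injOn_update hinj fun y hy h1 e => hu ⟨y, hy, h1, e⟩,
      fun y hy => ?_⟩
    by_cases h1 : y = t
    · rw [h1, update_self]
      exact hβ
    · rw [update_of_ne h1]
      exact (hval y hy h1).1
  obtain ⟨y, hyB, hyt, rfl⟩ := hu
  by_cases hr : (kem G col α (g y)).Reachable t y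
  swap
  · obtain ⟨col', h1, h2, h3⟩ := kempe h α (g y) t
    refine ⟨col', update g t α, h1, injOn_update hinj fun z hz e => (hval z hz e).2,
      fun z hz => ?_⟩
    by_cases e : z = t
    · rw [e, update_self]
      simpa using h2 t _ (SimpleGraph.Reachable.refl t) hβ
    · rw [update_of_ne e]
      by_cases hz' : (kem G col α (g y)).Reachable t z
      · have := h2 z _ hz' (hval z hz e).1
        rwa [Equiv.swap_apply_of_ne_of_ne (hval z hz e).2
          (fun e' => hr (hinj z hz y hyB e hyt e' ▸ hz'))] at this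
      · exact h3 z _ hz' (hval z hz e).1
  by_cases hyT : y ∈ T
  · obtain ⟨w, -, h1, h2, h3, h4⟩ := hinv y hyT hyB hyt
    exact (three_ends _ (kem_two h α (g y)) hyt h1.symm (h4.resolve_right hβp).symm
      (kem_one h α (hval y hyB hyt).1) (kem_one h α hβ) (kem_one h α h2) hr.symm h3).elim
  refine ih _ ?_ (insert y T) y (update g t (g y)) (g y) rfl (mem_insert_self _ _) hyB ?_ ?_ ?_
  · rw [← hn]
    refine card_lt_card ⟨sdiff_subset_sdiff le_rfl (subset_insert _ _), fun hs => ?_⟩
    simpa using hs (mem_sdiff.2 ⟨hyB, hyT⟩)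
  · intro a ha b hb h1 h2
    refine injOn_update (B := B.erase y) (fun u hu v hv => hinj u (mem_of_mem_erase hu) v
      (mem_of_mem_erase hv)) (fun u hu h3 e => ?_) a (mem_erase.2 ⟨h1, ha⟩) b (mem_erase.2 ⟨h2, hb⟩)
    exact ne_of_mem_erase hu (hinj u (mem_of_mem_erase hu) y hyB h3 hyt e)
  · intro z hz _
    by_cases e : z = t
    · rw [e, update_self]
      exact ⟨hβ, (hval y hyB hyt).2⟩
    · rw [update_of_ne e]
      exact hval z hz e
  · intro z hz hzB hzy
    by_cases e : z = t
    · rw [e, update_self]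
      exact ⟨y, mem_insert_self _ _, hyt, (hval y hyB hyt).1, hr, Or.inr rfl⟩
    · rw [update_of_ne e]
      obtain ⟨w, h0, h1, h2, h3, -⟩ := hinv z ((mem_insert.1 hz).resolve_left hzy) hzB e
      exact ⟨w, mem_insert_of_mem h0, h1, h2, h3, Or.inl fun e' => hyT (e' ▸ h0)⟩

/-- Distinct missing colours after recolouring. -/
lemma exists_sdr [Finite V] [Fintype K] (h : VPr G col) (A : Finset V) :
    A.card ≤ Fintype.card K → (∀ y ∈ A, (G.neighborSet y).ncard + 2 ≤ Fintype.card K) →
      ∃ (col' : V → V → K) (g : V → K), VPr G col' ∧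
        (∀ y ∈ A, ∀ z ∈ A, g y = g z → y = z) ∧ ∀ y ∈ A, VMs G col' y (g y) := by
  classical
  induction A using Finset.induction_on with
  | empty => exact fun _ _ => ⟨col, fun v => col v v, h, by simp, by simp⟩
  | insert t A ht ih =>
    intro h1 h2
    rw [card_insert_of_notMem ht] at h1
    obtain ⟨col', g, a1, a2, a3⟩ := ih (by omega) fun y hy => h2 y (mem_insert_of_mem hy)
    obtain ⟨α, -, hα⟩ := exists_mem_notMem_of_card_lt_card (s := A.image g) (t := univ)
      (lt_of_le_of_lt card_image_le (by rw [card_univ]; omega))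
    have m : ∀ y ∈ insert t A, y ≠ t → y ∈ A := fun y hy e => (mem_insert.1 hy).resolve_left e
    exact fan a1 (insert t A) α h2 _ {t} t g α rfl (mem_singleton_self _) (mem_insert_self _ _)
      (fun y hy z hz e e' => a2 y (m y hy e) z (m z hz e'))
      (fun y hy e => ⟨a3 y (m y hy e), fun e' => hα (mem_image.2 ⟨y, m y hy e, e'⟩)⟩)
      (fun y hy _ e => absurd (mem_singleton.1 hy) e)

/-- The subgraph spanned by a set of vertices. -/
def spn (G : SimpleGraph V) (S : Finset V) : SimpleGraph V where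
  Adj u v := G.Adj u v ∧ u ∈ S ∧ v ∈ S
  symm := ⟨fun _ _ h => ⟨h.1.symm, h.2.2, h.2.1⟩⟩
  loopless := ⟨fun _ h => h.1.ne rfl⟩

/-- Vizing's theorem. -/
theorem vizing [Fintype V] (G : SimpleGraph V) (k : ℕ) (hk : ∀ v, (G.neighborSet v).ncard ≤ k) :
    ∃ col : V → V → Fin (k + 1), VPr G col := by
  classical
  have key : ∀ S : Finset V, ∃ col : V → V → Fin (k + 1), VPr (spn G S) col := by
    intro S
    induction S using Finset.induction_on with
    | empty => exact ⟨fun _ _ => 0, fun _ _ => rfl, fun u v w h => absurd h.2.1 (by simp)⟩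
    | insert x S hx ih =>
      obtain ⟨col0, h0⟩ := ih
      obtain ⟨col, g, a1, a2, a3⟩ := exists_sdr h0 (S.filter (G.Adj x)) (by
        have := Set.ncard_le_ncard (s := ↑(S.filter (G.Adj x))) (t := G.neighborSet x)
          fun v hv => (mem_filter.1 hv).2
        have := hk x
        rw [Set.ncard_coe_finset] at *
        rw [Fintype.card_fin]
        omega) (by
        intro y hy
        have := Set.ncard_lt_ncard (s := (spn G S).neighborSet y) (t := G.neighborSet y)
          ⟨fun v hv => hv.1, fun hs => hx (hs (mem_filter.1 hy).2.symm).2.2⟩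
        have := hk y
        rw [Fintype.card_fin]
        omega)
      have m : ∀ y ∈ insert x S, y ≠ x → y ∈ S := fun y hy e => (mem_insert.1 hy).resolve_left e
      refine ⟨fun u v => if u = x then g v else if v = x then g u else col u v, fun u v => ?_,
        fun u v w h1 h2 e => ?_⟩
      · by_cases h1 : u = x <;> by_cases h2 : v = x <;> simp [h1, h2, a1.1 u v]
      · by_cases hu : u = x
        · subst hu
          simp only [if_true] at e
          exact a2 v (mem_filter.2 ⟨m v h1.2.2 h1.1.ne', h1.1⟩) w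
            (mem_filter.2 ⟨m w h2.2.2 h2.1.ne', h2.1⟩) e
        · have uS := m u h1.2.1 hu
          by_cases hv : v = x <;> by_cases hw : w = x <;> simp only [hu, hv, hw, if_true,
            if_false] at e
          · rw [hv, hw]
          · exact absurd e.symm (a3 u (mem_filter.2 ⟨uS, (hv ▸ h1.1).symm⟩) w
              ⟨h2.1, uS, m w h2.2.2 hw⟩)
          · exact absurd e (a3 u (mem_filter.2 ⟨uS, (hw ▸ h2.1).symm⟩) v
              ⟨h1.1, uS, m v h1.2.2 hv⟩)
          · exact a1.2 u v w ⟨h1.1, uS, m v h1.2.2 hv⟩ ⟨h2.1, uS, m w h2.2.2 hw⟩ e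
  obtain ⟨col, h1, h2⟩ := key univ
  exact ⟨col, h1, fun u v w a b => h2 u v w ⟨a, mem_univ _, mem_univ _⟩ ⟨b, mem_univ _, mem_univ _⟩⟩

/-- A proper colouring with `m` colours is a circular `m`-colouring. -/
lemma VPr.toCol {m : ℕ} {col : V → V → Fin m} (h : VPr G col) : Col G m := by
  refine ⟨fun e => Sym2.lift ⟨fun u v => ((col u v : ℕ) : ℝ), fun u v => by simp only [h.1 u v]⟩ e.1, ?_, ?_⟩
  · rintro ⟨e, he⟩
    induction e using Sym2.ind with
    | _ u v => exact ⟨Nat.cast_nonneg _, Nat.cast_lt.2 (col u v).2⟩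
  · rintro ⟨e, he⟩ ⟨f, hf⟩ hne ⟨v, h1, h2⟩
    obtain ⟨a, rfl⟩ := Sym2.mem_iff_exists.1 h1
    obtain ⟨b, rfl⟩ := Sym2.mem_iff_exists.1 h2
    have h3 : (col v a : ℕ) ≠ col v b := fun e =>
      hne (by rw [Subtype.mk.injEq, h.2 v a b he hf (Fin.ext e)])
    have h4 := (col v a).2
    have h5 := (col v b).2
    have h6 : (1 : ℤ) ≤ |((col v a : ℕ) : ℤ) - (col v b : ℕ)| ∧
        |((col v a : ℕ) : ℤ) - (col v b : ℕ)| ≤ m - 1 := by
      rw [le_abs, abs_le]
      omega
    change 1 ≤ |((col v a : ℕ) : ℝ) - (col v b : ℕ)| ∧ |((col v a : ℕ) : ℝ) - (col v b : ℕ)| ≤ m - 1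
    exact_mod_cast h6

/-- Every `k`-regular graph has a circular `(k + 1)`-edge-colouring. -/
theorem col_succ [Fintype V] (G : SimpleGraph V) [DecidableRel G.Adj] {k : ℕ}
    (h : G.IsRegularOfDegree k) : Col G (k + 1) := by
  obtain ⟨col, hc⟩ := vizing G k fun v => by
    rw [← Nat.card_coe_set_eq, Nat.card_eq_fintype_card, SimpleGraph.card_neighborSet_eq_degree,
      h v]
  exact_mod_cast hc.toCol

end Pool.Agent.P.MP_3f5ded_co.UG
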