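import Pool.Agent.P.MP_3f5ded_co.UGTie

set_option autoImplicit false

namespace Pool.Agent.P.MP_3f5ded_co.UG

/-- Steps `X` of a closed walk with `l` corners that winds `P` times. -/
lemma lap_bounds {k : ℕ} {r T : ℝ} {X n l : ℤ} (hr : r < k + 1) (g0 : 0 ≤ r - k) (x0 : 0 < X)
    (x1 : X < l * k) (h1 : (X : ℝ) ≤ T) (h2 : T ≤ X + l * (r - k)) (hn : T = n * r) :
    0 < n ∧ n < l ∧ n * k + n - l < X ∧ X < n * k + n := by
  have k0 : (0 : ℝ) ≤ k := by positivity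
  have x0' : (0 : ℝ) < X := by exact_mod_cast x0
  have x1' : (X : ℝ) < l * k := by exact_mod_cast x1
  have n0 : 0 < n := by
    by_contra c
    have : (n : ℝ) ≤ 0 := by exact_mod_cast (show n ≤ 0 by omega)
    nlinarith
  have n1 : n < l := by
    by_contra c
    have : (l : ℝ) ≤ n := by exact_mod_cast (show l ≤ n by omega)
    nlinarith
  have n0' : (0 : ℝ) < n := by exact_mod_cast n0
  have n1' : (n : ℝ) < l := by exact_mod_cast n1
  refine ⟨n0, n1, ?_, ?_⟩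
  · have : (n : ℝ) * k + n - l < X := by nlinarith
    exact_mod_cast this
  · have : (X : ℝ) < n * k + n := by nlinarith
    exact_mod_cast this

namespace Clq
variable {W : Type} {k : ℕ} {r : ℝ} {Q : Finset W} {F : W → ℤ → ℝ} {κ : W → W → ℤ}
  {u v w z y : W}

/-- Steps of the closed walk `uv → vw → wz → zu → uv`. -/
lemma walk4 (h : Clq k r Q F κ) (hr : r < k + 1) (hu : u ∈ Q) (hv : v ∈ Q) (hw : w ∈ Q)
    (hz : z ∈ Q) (uv : u ≠ v) (vw : v ≠ w) (wz : w ≠ z) (zu : z ≠ u) (uw : u ≠ w) (vz : v ≠ z)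
    {X : ℤ} (hX : X = st k κ v u w + st k κ w v z + st k κ z w u + st k κ u z v) :
    ((k : ℤ) - 2 ≤ X ∧ X ≤ k) ∨ (2 * (k : ℤ) - 1 ≤ X ∧ X ≤ 2 * k + 1) ∨
      (3 * (k : ℤ) ≤ X ∧ X ≤ 3 * k + 2) := by
  obtain ⟨t1, a1, b1, c1⟩ := h.corner hv hu hw uv vw.symm
  obtain ⟨t2, a2, b2, c2⟩ := h.corner hw hv hz vw wz.symm
  obtain ⟨t3, a3, b3, c3⟩ := h.corner hz hw hu wz zu.symm
  obtain ⟨t4, a4, b4, c4⟩ := h.corner hu hz hv zu uv.symm
  have e1 := ((h.cg v hv w hw vw.symm).trans c1).add t2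
  have e2 := ((h.cg w hw z hz wz.symm).trans (c2.trans e1)).add t3
  have e3 := ((h.cg z hz u hu zu.symm).trans (c3.trans e2)).add t4
  obtain ⟨n, hn⟩ := (h.cg u hu v hv uv.symm).trans (c4.trans e3)
  have p1 := h.st_pos hv hu hw uv vw.symm uw
  have p2 := h.st_pos hw hv hz vw wz.symm vz
  have p3 := h.st_pos hz hw hu wz zu.symm uw.symm
  have p4 := h.st_pos hu hz hv zu uv.symm vz.symm
  have q1 := h.st_lt hv hu hw uv vw.symm
  have q2 := h.st_lt hw hv hz vw wz.symm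
  have q3 := h.st_lt hz hw hu wz zu.symm
  have q4 := h.st_lt hu hz hv zu uv.symm
  have e : (X : ℝ) = st k κ v u w + st k κ w v z + st k κ z w u + st k κ u z v := by
    exact_mod_cast hX
  obtain ⟨n0, n1, d1, d2⟩ := lap_bounds (X := X) (n := -n) (l := 4) (T := t1 + t2 + t3 + t4) hr
    (h.fr u hu).eps_nonneg (by omega) (by omega) (by linarith) (by push_cast; linarith)
    (by push_cast; linarith)
  rcases (show n = -1 ∨ n = -2 ∨ n = -3 by omega) with rfl | rfl | rfl <;> omega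

/-- Steps of the closed walk `uv → vw → wz → zy → yu → uv`. -/
lemma walk5 (h : Clq k r Q F κ) (hr : r < k + 1) (hu : u ∈ Q) (hv : v ∈ Q) (hw : w ∈ Q)
    (hz : z ∈ Q) (hy : y ∈ Q) (uv : u ≠ v) (vw : v ≠ w) (wz : w ≠ z) (zy : z ≠ y) (yu : y ≠ u)
    (uw : u ≠ w) (vz : v ≠ z) (wy : w ≠ y) (zu : z ≠ u) (yv : y ≠ v) {X : ℤ}
    (hX : X = st k κ v u w + st k κ w v z + st k κ z w y + st k κ y z u + st k κ u y v) :
    ((k : ℤ) - 3 ≤ X ∧ X ≤ k) ∨ (2 * (k : ℤ) - 2 ≤ X ∧ X ≤ 2 * k + 1) ∨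
      (3 * (k : ℤ) - 1 ≤ X ∧ X ≤ 3 * k + 2) ∨ (4 * (k : ℤ) ≤ X ∧ X ≤ 4 * k + 3) := by
  obtain ⟨t1, a1, b1, c1⟩ := h.corner hv hu hw uv vw.symm
  obtain ⟨t2, a2, b2, c2⟩ := h.corner hw hv hz vw wz.symm
  obtain ⟨t3, a3, b3, c3⟩ := h.corner hz hw hy wz zy.symm
  obtain ⟨t4, a4, b4, c4⟩ := h.corner hy hz hu zy yu.symm
  obtain ⟨t5, a5, b5, c5⟩ := h.corner hu hy hv yu uv.symm
  have e1 := ((h.cg v hv w hw vw.symm).trans c1).add t2
  have e2 := ((h.cg w hw z hz wz.symm).trans (c2.trans e1)).add t3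
  have e3 := ((h.cg z hz y hy zy.symm).trans (c3.trans e2)).add t4
  have e4 := ((h.cg y hy u hu yu.symm).trans (c4.trans e3)).add t5
  obtain ⟨n, hn⟩ := (h.cg u hu v hv uv.symm).trans (c5.trans e4)
  have p1 := h.st_pos hv hu hw uv vw.symm uw
  have p2 := h.st_pos hw hv hz vw wz.symm vz
  have p3 := h.st_pos hz hw hy wz zy.symm wy
  have p4 := h.st_pos hy hz hu zy yu.symm zu
  have p5 := h.st_pos hu hy hv yu uv.symm yv
  have q1 := h.st_lt hv hu hw uv vw.symm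
  have q2 := h.st_lt hw hv hz vw wz.symm
  have q3 := h.st_lt hz hw hy wz zy.symm
  have q4 := h.st_lt hy hz hu zy yu.symm
  have q5 := h.st_lt hu hy hv yu uv.symm
  have e : (X : ℝ) =
      st k κ v u w + st k κ w v z + st k κ z w y + st k κ y z u + st k κ u y v := by
    exact_mod_cast hX
  obtain ⟨n0, n1, d1, d2⟩ := lap_bounds (X := X) (n := -n) (l := 5)
    (T := t1 + t2 + t3 + t4 + t5) hr (h.fr u hu).eps_nonneg (by omega) (by omega) (by linarith)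
    (by push_cast; linarith) (by push_cast; linarith)
  rcases (show n = -1 ∨ n = -2 ∨ n = -3 ∨ n = -4 by omega) with rfl | rfl | rfl | rfl <;> omega

end Clq

end Pool.Agent.P.MP_3f5ded_co.UG
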