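import Pool.Agent.P.MP_3f5ded_co.UWA2

set_option autoImplicit false

namespace Pool.Agent.P.MP_3f5ded_co.UG

/-- A multiple of `r` that is smaller than `r` in size vanishes. -/
lemma ujb_zero {r x : ℝ} {j : ℤ} (e : x = j * r) (h1 : -r < x) (h2 : x < r) : x = 0 := by
  have r0 : 0 < r := by linarith
  have a : (-1 : ℝ) < j := by nlinarith
  have b : (j : ℝ) < 1 := by nlinarith
  have : j = 0 := by
    have : (-1 : ℤ) < j := by exact_mod_cast a
    have : j < 1 := by exact_mod_cast b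
    omega
  simp [e, this]

/-- Four ports in a row: a thin centre port `c` and a port `u` at places `2, 3`, two ports `v, w`
at places `4, 5`. -/
def Cl4 (g t m c u v w : ℝ) : Prop :=
  ((t + 2 ≤ c ∧ c ≤ t + 2 + g ∧ t + 3 ≤ u ∧ u ≤ t + 3 + g) ∨
    (t + 3 ≤ c ∧ c ≤ t + 3 + g ∧ t + 2 ≤ u ∧ u ≤ t + 2 + g)) ∧
  ((t + 4 ≤ v ∧ v ≤ m + 4 ∧ t + 5 ≤ w ∧ w ≤ m + 5) ∨ (t + 5 ≤ v ∧ v ≤ m + 5 ∧ t + 4 ≤ w ∧ w ≤ m + 4))

/-- Ports of one copy when one thin centre has only high and the other only low edges; `α, β` are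
lifted colours of the two ports with the same index. -/
structure M6 {T : Type} (I : T → Prop) (X Y F H W U l : T) (k : ℕ) (r : ℝ) (α β : T → ℝ)
    (t m m' : ℝ) : Prop where
  iX : I X
  iY : I Y
  iF : I F
  iH : I H
  iW : I W
  iU : I U
  Xl : X ≠ l
  Yl : Y ≠ l
  Fl : F ≠ l
  Hl : H ≠ l
  WU : W ≠ U
  nF : F ≠ X ∧ F ≠ Y
  nH : H ≠ X ∧ H ≠ Y
  nW : W ≠ X ∧ W ≠ Y ∧ W ≠ F
  nU : U ≠ X ∧ U ≠ Y ∧ U ≠ H
  g0 : k ≤ r
  mm : m ≤ 2 - m' + (r - k)
  mg : m ≤ t + (r - k)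
  mg' : m' ≤ 2 - t + (r - k)
  bot : Cl4 (r - k) t m (α Y) (β Y) (β F) (β W) ∨ Cl4 (r - k) t m (α Y) (β F) (β Y) (β W)
  top : Cl4 (r - k) (2 - t) m' (r - α X) (r - β X) (r - β H) (r - β U) ∨
    Cl4 (r - k) (2 - t) m' (r - α X) (r - β H) (r - β X) (r - β U)
  mid : ∀ y, I y → y ≠ X → y ≠ Y → α y = t - 1 ∨ α y = t - 1 + r ∨
    (m + 5 + (k + 1 - r) ≤ α y ∧ m' + 5 + (k + 1 - r) ≤ r - α y)

/-- What is used of a copy whose special vertices have low ports. -/
structure M0 {T : Type} (I : T → Prop) (X Y : T) (k : ℕ) (r : ℝ) (a b : T → ℤ) (α β : T → ℝ)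
    (t : ℝ) : Prop where
  loa : ∀ y, I y → t ≤ α y
  hia : ∀ y, I y → α y ≤ t + (2 * r - 2 * k - 1)
  rc : ∀ y, I y → k + 5 ≤ a y ∧ a y ≤ 2 * k
  ry : a Y = 2 * k ∨ a Y = 2 * k - 1
  rx : a X ≤ 2 * k - 2
  low : ∀ y, y = X ∨ y = Y → 2 ≤ b y ∧ b y + k < a X ∧ t ≤ β y ∧ β y ≤ α X

namespace M6
variable {T : Type} {I : T → Prop} {X Y F H W U X' Y' F' H' W' U' l : T} {k : ℕ}
  {r t m m' t' n n' σ : ℝ} {a' b' : T → ℤ} {α β α' β' : T → ℝ}

/-- The mirror image. -/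
lemma mir (A : M6 I X Y F H W U l k r α β t m m') :
    M6 I Y X H F U W l k r (fun y => r - α y) (fun y => r - β y) (2 - t) m' m :=
  ⟨A.iY, A.iX, A.iH, A.iF, A.iU, A.iW, A.Yl, A.Xl, A.Hl, A.Fl, A.WU.symm, A.nH.symm, A.nF.symm,
    ⟨A.nU.2.1, A.nU.1, A.nU.2.2⟩, ⟨A.nW.2.1, A.nW.1, A.nW.2.2⟩, A.g0, by linarith [A.mm], A.mg',
    by linarith [A.mg], A.top, by simpa only [sub_sub_cancel] using A.bot, fun y a b c => by
      rcases A.mid y a c b with e | e | e
      exacts [Or.inr (Or.inl (by linarith)), Or.inl (by linarith),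
        Or.inr (Or.inr ⟨e.2, by linarith [e.1]⟩)]⟩

lemma jn_mir {a b : T → ℤ} (J : Jn I l r σ 0 b α β') (J' : Jn I l r σ a 0 α' β)
    (hσ : σ = 1 ∨ σ = -1) : Jn I l r (-σ) 0 b (fun y => r - α y) β' ∧
      Jn I l r (-σ) a 0 α' (fun y => r - β y) := by
  constructor <;> intro y h e
  · obtain ⟨j, g⟩ := J y h e
    refine ⟨1 - j, ?_⟩
    simp only [Pi.zero_apply] at g ⊢
    push_cast at g ⊢
    linarith
  · obtain ⟨j, g⟩ := J' y h e
    simp only [Pi.zero_apply] at g ⊢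
    rcases hσ with rfl | rfl
    · exact ⟨j - 1, by push_cast at g ⊢; linarith⟩
    · exact ⟨j + 1, by push_cast at g ⊢; linarith⟩

section
variable (hk : 12 ≤ k) (hr : r < k + 1) (A : M6 I X Y F H W U l k r α β t m m')
include hk hr A

/-- Against a copy with low special ports, equal directions. -/
lemma zero_same (G : M0 I X' Y' k r a' b' α' β' t') (R : (X' = X ∧ Y' = Y) ∨ (X' = Y ∧ Y' = X))
    (J : Jn I l r (-1) 0 b' α β') (J' : Jn I l r (-1) a' 0 α' β) : False := by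
  have k0 : (12 : ℝ) ≤ k := by exact_mod_cast hk
  have g0 := A.g0
  have mm := A.mm
  have mg := A.mg
  have mg' := A.mg'
  obtain ⟨i1, e1⟩ := J' X A.iX A.Xl
  obtain ⟨i2, e2⟩ := J' Y A.iY A.Yl
  simp only [Pi.zero_apply, Int.cast_zero, zero_add] at e1 e2
  have x1 := G.loa X A.iX
  have x2 := G.hia X A.iX
  have y1 := G.loa Y A.iY
  have y2 := G.hia Y A.iY
  obtain ⟨l1, l2, l3, l4⟩ := G.low Y' (Or.inr rfl)
  have l1' : (2 : ℝ) ≤ b' Y' := by exact_mod_cast l1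
  have l2' : (b' Y' : ℝ) + k + 1 ≤ a' X' := by exact_mod_cast l2
  have ry : (2 * k - 1 : ℝ) ≤ a' Y' ∧ (a' Y' : ℝ) ≤ 2 * k := by
    have := G.ry
    exact ⟨by exact_mod_cast (show 2 * (k : ℤ) - 1 ≤ a' Y' by omega),
      by exact_mod_cast (show a' Y' ≤ 2 * (k : ℤ) by omega)⟩
  have rx : (a' X' : ℝ) ≤ 2 * k - 2 := by exact_mod_cast G.rx
  have bt : t + 2 ≤ α Y ∧ α Y ≤ t + 3 + (r - k) ∧ t + 2 ≤ β Y ∧ β Y ≤ t + 5 + (r - k) ∧
      (β Y ≤ t + 3 + (r - k) ∨ β Y ≤ m + 5) := by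
    rcases A.bot with ⟨h | h, -⟩ | ⟨h | h, h' | h'⟩ <;>
      refine ⟨?_, ?_, ?_, ?_, ?_⟩ <;> first | linarith | (left; linarith) | (right; linarith)
  have tp : t + k - 5 ≤ α X ∧ α X ≤ t + k - 4 + (r - k) ∧ t + k - 7 ≤ β X ∧
      β X ≤ t + k - 4 + (r - k) ∧ (t + k - 5 ≤ β X ∨ r - m' - 5 ≤ β X) := by
    rcases A.top with ⟨h | h, -⟩ | ⟨h | h, h' | h'⟩ <;>
      refine ⟨?_, ?_, ?_, ?_, ?_⟩ <;> first | linarith | (left; linarith) | (right; linarith)
  have ord : β Y ≤ β X := by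
    obtain ⟨-, -, -, b1, b2 | b2⟩ := bt <;> obtain ⟨-, -, c1, -, c2 | c2⟩ := tp <;> linarith
  obtain ⟨b1, b2, b3, b4, -⟩ := bt
  obtain ⟨c1, c2, c3, c4, -⟩ := tp
  rcases R with ⟨rfl, rfl⟩ | ⟨rfl, rfl⟩
  · obtain ⟨i3, e3⟩ := J Y' A.iY A.Yl
    simp only [Pi.zero_apply, Int.cast_zero, zero_add] at e3
    have z1 := ujb_zero (r := r) (j := -i3 - i2 + 1)
      (x := b' Y' + β' Y' - (a' Y' + α' Y' - 2 * r) - (α Y' - β Y' + r)) (by push_cast; linarith)
      (by linarith) (by linarith)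
    have z2 := ujb_zero (r := r) (j := i1 - i2 + 1)
      (x := a' X' + α' X' - r - (a' Y' + α' Y' - 2 * r) - (β X' - β Y')) (by push_cast; linarith)
      (by linarith) (by linarith)
    linarith
  · obtain ⟨i3, e3⟩ := J Y' A.iX A.Xl
    obtain ⟨i4, e4⟩ := J' H A.iH A.Hl
    simp only [Pi.zero_apply, Int.cast_zero, zero_add] at e3 e4
    have z2 := ujb_zero (r := r) (j := i2 - i1)
      (x := a' X' + α' X' - r - (a' Y' + α' Y' - 2 * r) - (β X' - β Y' + r)) (by push_cast; linarith)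
      (by linarith) (by linarith)
    have z1 := ujb_zero (r := r) (j := -i3 - i1 + 2)
      (x := b' Y' + β' Y' - (a' Y' + α' Y' - 2 * r) - (α Y' - β Y')) (by push_cast; linarith)
      (by linarith) (by linarith)
    have hh : t + k - 5 ≤ β H ∧ β H ≤ t + k - 5 + (r - k) ∧ β Y' ≤ t + k - 7 + (r - k) := by
      rcases A.top with ⟨h | h, -⟩ | ⟨h | h, h' | h'⟩ <;> refine ⟨?_, ?_, ?_⟩ <;> linarith
    have h1 := G.loa H A.iH
    have h2 := G.hia H A.iH
    obtain ⟨h3, h4⟩ := G.rc H A.iH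
    have h3' : (k : ℝ) + 5 ≤ a' H := by exact_mod_cast h3
    have h4' : (a' H : ℝ) ≤ 2 * k := by exact_mod_cast h4
    have z3 := ujb_zero (r := r) (j := i4 - i1)
      (x := a' H + α' H - (a' Y' + α' Y') - (β H - β Y')) (by push_cast; linarith)
      (by linarith) (by linarith)
    linarith

/-- Against the first mode, when the port `W` is shared. -/
lemma one_half {P Q : T} (he : Even (k : ℤ)) (G : M1 I P Q l k r a' b' α' β' t')
    (R : (P = X ∧ Q = Y) ∨ (P = Y ∧ Q = X)) (hσ : σ = 1 ∨ σ = -1)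
    (J : Jn I l r σ 0 b' α β') (J' : Jn I l r σ a' 0 α' β) (hW : W ≠ l) : False := by
  have k0 : (12 : ℝ) ≤ k := by exact_mod_cast hk
  have g0 := A.g0
  have mm := A.mm
  have mg := A.mg
  have mg' := A.mg'
  have key : ∀ u v, I u → I v → u ≠ l → v ≠ l → a' u < a' v → β v - β u ≤ 1 + (r - k) →
      β u - β v ≤ 1 + (r - k) → a' u = 2 ∧ a' v = k + 2 ∧ 0 < σ * (β v - β u) := by
    intro u v hu hv ul vl lt d1 d2
    obtain ⟨i, e1⟩ := J' u hu ul
    obtain ⟨j, e2⟩ := J' v hv vl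
    simp only [Pi.zero_apply, Int.cast_zero, zero_add] at e1 e2
    obtain ⟨c, hc⟩ := he
    obtain ⟨⟨n, p0⟩, p1, p2⟩ := G.mid u hu
    obtain ⟨⟨n', q0⟩, q1, q2⟩ := G.mid v hv
    have := G.mono u v hu hv lt.le
    have := G.loa u hu
    have := G.hia v hv
    have a1 : (a' u : ℝ) + 2 ≤ a' v := by exact_mod_cast (show a' u + 2 ≤ a' v by omega)
    have a2 : (a' v : ℝ) ≤ a' u + k := by exact_mod_cast (show a' v ≤ a' u + k by omega)
    have s : σ * (β v - β u) ≤ 1 + (r - k) ∧ -(1 + (r - k)) ≤ σ * (β v - β u) := by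
      rcases hσ with rfl | rfl <;> constructor <;> linarith
    have z := ujb_zero (r := r) (j := j - i - 1)
      (x := a' v + α' v - (a' u + α' u) + σ * (β v - β u) - r) (by push_cast; linarith)
      (by linarith) (by linarith)
    have a3 : (a' u : ℝ) + k - 2 < a' v := by linarith
    have a4 : a' u + k - 2 < a' v := by exact_mod_cast a3
    exact ⟨by omega, by omega, by linarith⟩
  have two : ∀ u, I u → a' u = 2 → u = X ∨ u = Y := fun u hu e => by
    rcases G.early with f | f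
    · have := G.inja u P hu G.iP (by omega); rcases R with ⟨rfl, rfl⟩ | ⟨rfl, rfl⟩ <;> tauto
    · have := G.inja u Q hu G.iQ (by omega); rcases R with ⟨rfl, rfl⟩ | ⟨rfl, rfl⟩ <;> tauto
  have pr : ∀ u, I u → u ≠ l → u ≠ W → β W - β u ≤ 1 + (r - k) → β u - β W ≤ 1 + (r - k) →
      a' u = 2 ∧ a' W = k + 2 ∧ 0 < σ * (β W - β u) := fun u hu ul uw d1 d2 => by
    rcases lt_trichotomy (a' u) (a' W) with g | g | g
    · exact key u W hu A.iW ul hW g d1 d2
    · exact absurd (G.inja _ _ hu A.iW g) uw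
    · have := two W A.iW (key W u A.iW hu hW ul g d2 d1).1
      have := A.nW
      tauto
  rcases A.bot with ⟨-, h⟩ | ⟨h, h'⟩
  · have := two F A.iF (pr F A.iF A.Fl A.nW.2.2.symm (by rcases h with h | h <;> linarith)
      (by rcases h with h | h <;> linarith)).1
    have := A.nF
    tauto
  obtain ⟨a1, a2, a3⟩ := pr Y A.iY A.Yl A.nW.2.1.symm (by rcases h' with h | h <;> linarith)
    (by rcases h' with h | h <;> linarith)
  have a1' : (a' Y : ℝ) = 2 := by exact_mod_cast a1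
  have a2' : (a' W : ℝ) = k + 2 := by exact_mod_cast a2
  rcases hσ with rfl | rfl
  · have a4 : a' X = 4 := by
      have := G.early
      rcases R with ⟨rfl, rfl⟩ | ⟨rfl, rfl⟩ <;> omega
    have a4' : (a' X : ℝ) = 4 := by exact_mod_cast a4
    obtain ⟨i, e1⟩ := J' X A.iX A.Xl
    obtain ⟨j, e2⟩ := J' Y A.iY A.Yl
    simp only [Pi.zero_apply, Int.cast_zero, zero_add] at e1 e2
    have := G.mono Y X A.iY A.iX (by omega)
    have := G.loa Y A.iY
    have := G.hia X A.iX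
    have tp : t + k - 7 ≤ β X ∧ β X ≤ t + k - 4 + (r - k) := by
      rcases A.top with ⟨h | h, -⟩ | ⟨-, h' | h'⟩ <;> constructor <;> linarith
    have bt : t + 4 ≤ β Y ∧ β Y ≤ t + 4 + (r - k) := by
      rcases h' with h | h <;> constructor <;> linarith
    have z := ujb_zero (r := r) (j := i - j) (x := a' X + α' X - (a' Y + α' Y) + (β X - β Y))
      (by push_cast; linarith) (by linarith) (by linarith)
    linarith
  · obtain ⟨i, e1⟩ := J Y A.iY A.Yl
    obtain ⟨j, e2⟩ := J' W A.iW hW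
    simp only [Pi.zero_apply, Int.cast_zero, zero_add] at e1 e2
    have b1 : b' Y ≤ 2 * k - 1 := by
      rcases R with ⟨rfl, rfl⟩ | ⟨rfl, rfl⟩
      exacts [G.swap.bP, G.bP]
    have b1' : (b' Y : ℝ) ≤ 2 * k - 1 := by exact_mod_cast b1
    have b2' : (k : ℝ) + 5 ≤ b' Y := by exact_mod_cast (G.late Y A.iY).2.1
    have := G.lob Y A.iY
    have := G.hib Y A.iY
    have := G.loa W A.iW
    have := G.hia W A.iW
    have bt : t + 4 ≤ β W ∧ β W ≤ t + 4 + (r - k) := by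
      rcases h' with h | h <;> constructor <;> linarith
    have bt' : t + 2 ≤ α Y ∧ α Y ≤ t + 3 + (r - k) := by
      rcases h with h | h <;> constructor <;> linarith
    have z := ujb_zero (r := r) (j := -i - j) (x := b' Y + β' Y - (a' W + α' W) - (α Y - β W))
      (by push_cast; linarith) (by linarith) (by linarith)
    linarith

end

section
variable (hk : 12 ≤ k) (hr : r < k + 1) (A : M6 I X Y F H W U l k r α β t m m')
include hk hr A

/-- A port at the main centre is not within four before the low thin port, unless it is the first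
one. -/
lemma before {y : T} (hy : I y) (h1 : y ≠ X) (h2 : y ≠ Y) {x D : ℝ} {j : ℤ} (lo : t + 2 ≤ x)
    (hi : x ≤ m + 5) (e : x - α y - D = j * r) (d0 : 0 < D) (d1 : D < 4) :
    ∃ i : ℤ, α y = t - 1 + i * r ∧ D = x - (t - 1) := by
  have k0 : (12 : ℝ) ≤ k := by exact_mod_cast hk
  have g0 := A.g0
  have mg := A.mg
  have mg' : 2 - t ≤ m' := by
    rcases A.top with ⟨-, h | h⟩ | ⟨-, h | h⟩ <;> linarith
  rcases A.mid y hy h1 h2 with f | f | f
  · have := ujb_zero e (by linarith) (by linarith)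
    exact ⟨0, by simpa using f, by linarith⟩
  · have := ujb_zero (r := r) (j := j + 1) (x := x - (t - 1) - D) (by push_cast; linarith)
      (by linarith) (by linarith)
    exact ⟨1, by simpa using f, by linarith⟩
  · have := ujb_zero e (by linarith) (by linarith)
    linarith

variable (G : M6 I X' Y' F' H' W' U' l k r α' β' t' n n') (J : Jn I l r (-1) 0 0 α β')
  (J' : Jn I l r (-1) 0 0 α' β)
include G J J'

lemma same_a (eX : X' = X) (eY : Y' = Y) :
    Cl4 (r - k) t m (α Y) (β Y) (β F) (β W) := by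
  subst eX eY
  have k0 : (12 : ℝ) ≤ k := by exact_mod_cast hk
  have g0 := A.g0
  have mg := A.mg
  have ng := G.mg
  refine A.bot.resolve_right fun ⟨h, h'⟩ => ?_
  obtain ⟨i1, e1⟩ := J' F A.iF A.Fl
  obtain ⟨i2, e2⟩ := J' Y' A.iY A.Yl
  obtain ⟨i3, e3⟩ := J Y' A.iY A.Yl
  simp only [Pi.zero_apply, Int.cast_zero, zero_add] at e1 e2 e3
  have bt : t' + 2 ≤ α' Y' ∧ α' Y' ≤ n + 5 ∧ t' + 2 ≤ β' Y' ∧ β' Y' ≤ t' + 5 + (r - k) := by
    rcases G.bot with ⟨h | h, h' | h'⟩ | ⟨h | h, h' | h'⟩ <;> refine ⟨?_, ?_, ?_, ?_⟩ <;> linarith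
  obtain ⟨b1, b2, b3, b4⟩ := bt
  obtain ⟨i, f1, f2⟩ := G.before hk hr A.iF A.nF.1 A.nF.2 (D := β Y' - β F) (j := i2 - i1) b1 b2
    (by push_cast; linarith) (by rcases h with h | h <;> rcases h' with h' | h' <;> linarith)
    (by rcases h with h | h <;> rcases h' with h' | h' <;> linarith)
  have hh : 0 < α Y' - β F ∧ α Y' - β F < 2 := by
    rcases h with h | h <;> rcases h' with h' | h' <;> constructor <;> linarith
  have z := ujb_zero (r := r) (j := -i3 - i1 + i) (x := β' Y' - (t' - 1) - (α Y' - β F))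
    (by push_cast; linarith) (by linarith) (by linarith)
  linarith

lemma same_b (eX : X' = Y) (eY : Y' = X) (eF : F' = H) : U = l := by
  subst eX eY eF
  have k0 : (12 : ℝ) ≤ k := by exact_mod_cast hk
  have g0 := A.g0
  have mg' := A.mg'
  have ng := G.mg
  obtain ⟨i1, e1⟩ := J Y' A.iX A.Xl
  simp only [Pi.zero_apply, Int.cast_zero, zero_add] at e1
  rcases G.bot with ⟨h, h'⟩ | ⟨h, h'⟩
  · exfalso
    obtain ⟨i2, e2⟩ := J F' A.iH A.Hl
    obtain ⟨i3, e3⟩ := J' Y' A.iX A.Xl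
    simp only [Pi.zero_apply, Int.cast_zero, zero_add] at e2 e3
    have tp : 2 - t + 2 ≤ r - α Y' ∧ r - α Y' ≤ m' + 5 ∧ 2 - t + 2 ≤ r - β Y' ∧
        r - β Y' ≤ 2 - t + 5 + (r - k) ∧ (r - α Y' < 2 - t + 3 → α Y' - β Y' > 0) := by
      rcases A.top with ⟨h | h, h' | h'⟩ | ⟨h | h, h' | h'⟩ <;>
        refine ⟨?_, ?_, ?_, ?_, fun _ => ?_⟩ <;> linarith
    obtain ⟨c1, c2, c3, c4, c5⟩ := tp
    obtain ⟨i, f1, f2⟩ := A.mir.before hk hr A.iH A.nH.2 A.nH.1 (D := β' F' - β' Y') (j := i2 - i1)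
      c1 c2 (by push_cast; linarith)
      (by rcases h with h | h <;> rcases h' with h' | h' <;> linarith)
      (by rcases h with h | h <;> rcases h' with h' | h' <;> linarith)
    have hh : 0 < α' Y' - β' Y' ∧ α' Y' - β' Y' < 2 ∧ β' F' - β' Y' < 4 := by
      rcases h with h | h <;> rcases h' with h' | h' <;> refine ⟨?_, ?_, ?_⟩ <;> linarith
    have := c5 (by linarith)
    have z := ujb_zero (r := r) (j := i3 + i1) (x := α' Y' - β' Y' - (β Y' - α Y'))
      (by push_cast; linarith) (by linarith) (by linarith)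
    linarith
  · by_contra hU
    obtain ⟨i2, e2⟩ := J' U A.iU hU
    simp only [Pi.zero_apply, Int.cast_zero, zero_add] at e2
    have tp : 0 < α Y' - β U ∧ α Y' - β U < 4 := by
      rcases A.top with ⟨h | h, h' | h'⟩ | ⟨h | h, h' | h'⟩ <;> constructor <;> linarith
    have bt : t' + 4 ≤ β' Y' ∧ β' Y' ≤ n + 5 := by
      rcases h' with h' | h' <;> constructor <;> linarith
    obtain ⟨i, -, f2⟩ := G.before hk hr A.iU A.nU.2.1 A.nU.1 (D := α Y' - β U) (j := -i1 - i2)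
      (by linarith) bt.2 (by push_cast; linarith) tp.1 tp.2
    linarith

/-- Two such copies, equal directions. -/
lemma six_same (R : (X' = X ∧ Y' = Y ∧ F' = F) ∨ (X' = Y ∧ Y' = X ∧ F' = H ∧ H' = F)) : False := by
  rcases R with ⟨rfl, rfl, rfl⟩ | ⟨rfl, rfl, rfl, rfl⟩
  · have k0 : (12 : ℝ) ≤ k := by exact_mod_cast hk
    have g0 := A.g0
    have mg := A.mg
    have ng := G.mg
    obtain ⟨h1, h2⟩ := A.same_a hk hr G J J' rfl rfl
    obtain ⟨h3, h4⟩ := G.same_a hk hr A J' J rfl rfl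
    obtain ⟨i1, e1⟩ := J Y' A.iY A.Yl
    obtain ⟨i2, e2⟩ := J' Y' A.iY A.Yl
    obtain ⟨i3, e3⟩ := J F' A.iF A.Fl
    obtain ⟨i4, e4⟩ := J' F' A.iF A.Fl
    simp only [Pi.zero_apply, Int.cast_zero, zero_add] at e1 e2 e3 e4
    have a : |α Y' - β Y'| < 2 ∧ t + 2 ≤ α Y' ∧ α Y' ≤ t + 3 + (r - k) ∧ 0 < β F' - β Y' ∧
        β F' - β Y' < 4 ∧ β F' ≤ m + 5 ∧ t ≤ m := by
      rw [abs_lt]
      rcases h1 with h | h <;> rcases h2 with h' | h' <;>
        refine ⟨⟨?_, ?_⟩, ?_, ?_, ?_, ?_, ?_, ?_⟩ <;> linarith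
    have b : |α' Y' - β' Y'| < 2 ∧ t' + 2 ≤ α' Y' ∧ α' Y' ≤ t' + 3 + (r - k) ∧ 0 < β' F' - β' Y' ∧
        β' F' - β' Y' < 4 ∧ β' F' ≤ n + 5 ∧ t' ≤ n := by
      rw [abs_lt]
      rcases h3 with h | h <;> rcases h4 with h' | h' <;>
        refine ⟨⟨?_, ?_⟩, ?_, ?_, ?_, ?_, ?_, ?_⟩ <;> linarith
    rw [abs_lt] at a b
    obtain ⟨⟨a1, a2⟩, a3, a4, a5, a6, a7, a8⟩ := a
    obtain ⟨⟨b1, b2⟩, b3, b4, b5, b6, b7, b8⟩ := b
    have z := ujb_zero (r := r) (j := i1 + i2) (x := α Y' - β Y' + (α' Y' - β' Y'))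
      (by push_cast; linarith) (by linarith) (by linarith)
    have key : ∀ {α β : T → ℝ} {H W U : T} {t m m' D : ℝ} {j : ℤ},
        M6 I X' Y' F' H W U l k r α β t m m' → α F' - α Y' - D = j * r → 0 < D → D < 4 →
        t + 2 ≤ α Y' → α Y' ≤ t + 3 + (r - k) → t ≤ m →
        m + 5 + (k + 1 - r) ≤ α F' ∧ α F' - α Y' = D := by
      intro α β H W U t m m' D j A e d0 d1 c1 c2 c3
      have mg' : 2 - t ≤ m' := by
        rcases A.top with ⟨-, h | h⟩ | ⟨-, h | h⟩ <;> linarith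
      rcases A.mid F' A.iF A.nF.1 A.nF.2 with f | f | f
      · have := ujb_zero e (by linarith) (by linarith)
        linarith
      · have := ujb_zero e (by linarith) (by linarith)
        linarith
      · have := ujb_zero e (by linarith) (by linarith)
        exact ⟨f.1, by linarith⟩
    obtain ⟨c1, c2⟩ := key A (D := β' F' - β' Y') (j := i3 - i1) (by push_cast; linarith) b5 b6 a3 a4 a8
    obtain ⟨c3, c4⟩ := key G (D := β F' - β Y') (j := i4 - i2) (by push_cast; linarith) a5 a6 b3 b4 b8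
    linarith
  · have e1 := A.same_b hk hr G J J' rfl rfl rfl
    have K : ∀ {α β' : T → ℝ}, Jn I l r (-1) 0 0 α β' →
        Jn I l r (-1) 0 0 (fun y => r - α y) (fun y => r - β' y) := fun J y a b => by
      obtain ⟨j, g⟩ := J y a b
      simp only [Pi.zero_apply] at g ⊢
      exact ⟨-j, by push_cast at g ⊢; linarith⟩
    exact A.WU ((A.mir.same_b hk hr G.mir (K J) (K J') rfl rfl rfl).trans e1.symm)

end

variable (hk : 12 ≤ k) (hr : r < k + 1) (A : M6 I X Y F H W U l k r α β t m m')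
  (hσ : σ = 1 ∨ σ = -1)
include hk hr A hσ

/-- No copy with low special ports fits. -/
theorem zero (G : M0 I X' Y' k r a' b' α' β' t') (R : (X' = X ∧ Y' = Y) ∨ (X' = Y ∧ Y' = X))
    (J : Jn I l r σ 0 b' α β') (J' : Jn I l r σ a' 0 α' β) : False := by
  rcases id hσ with rfl | rfl
  · obtain ⟨K, K'⟩ := jn_mir J J' hσ
    exact A.mir.zero_same hk hr G R.symm K K'
  · exact A.zero_same hk hr G R J J'

/-- No copy in the first mode fits. -/
theorem one {P Q : T} (he : Even (k : ℤ)) (G : M1 I P Q l k r a' b' α' β' t')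
    (R : (P = X ∧ Q = Y) ∨ (P = Y ∧ Q = X))
    (J : Jn I l r σ 0 b' α β') (J' : Jn I l r σ a' 0 α' β) : False := by
  by_cases hW : W = l
  · obtain ⟨K, K'⟩ := jn_mir J J' hσ
    exact A.mir.one_half hk hr he G R.symm (by rcases hσ with rfl | rfl <;> simp) K K'
      fun e => A.WU (hW.trans e.symm)
  · exact A.one_half hk hr he G R hσ J J' hW

/-- No second copy of the same kind fits. -/
theorem six (G : M6 I X' Y' F' H' W' U' l k r α' β' t' n n')
    (R : (X' = X ∧ Y' = Y ∧ F' = F ∧ H' = H) ∨ (X' = Y ∧ Y' = X ∧ F' = H ∧ H' = F))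
    (J : Jn I l r σ 0 0 α β') (J' : Jn I l r σ 0 0 α' β) : False := by
  rcases id hσ with rfl | rfl
  · obtain ⟨K, K'⟩ := jn_mir J J' hσ
    exact A.mir.six_same hk hr G K K' (by tauto)
  · exact A.six_same hk hr G J J' (by tauto)

end M6

lemma M3.zero {T : Type} {I : T → Prop} {X Y F l : T} {k : ℕ} {r t : ℝ} {a b : T → ℤ} {α β : T → ℝ}
    (H : M3 I X Y F l k r a b α β t) : M0 I X Y k r a b α β t := by
  refine ⟨H.loa, H.hia, H.rc, H.ry, H.rx, fun y h => ?_⟩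
  have i : I y := by rcases h with rfl | rfl; exacts [H.iX, H.iY]
  have m : b y ≤ k - 2 := by
    rcases h with rfl | rfl
    exacts [H.lh.2, (H.lf _ (Or.inl rfl)).1]
  have a1 := H.above _ m ⟨y, i, rfl⟩
  have := H.rq y i
  exact ⟨by omega, a1, H.lob y i, H.walk y X i H.iX m a1⟩

end Pool.Agent.P.MP_3f5ded_co.UG
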