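import Pool.Agent.P.MP_3f5ded_co.ET2
import Pool.Agent.P.MP_3f5ded_co.UJB

set_option autoImplicit false

namespace Pool.Agent.P.MP_3f5ded_co.UG

open Finset

/-- Five early and four late particles cannot all meet. -/
lemma ujc_cnt {k : ℤ} (J : Fin 5 → Fin 4 → ℤ) (row : ∀ e t t', J e t = J e t' → t = t')
    (col : ∀ e e' t, J e t = J e' t → e = e') (e0 : ∀ t, J 0 t ≤ k) (e1 : ∀ t, J 1 t ≤ k)
    (e2 : ∀ t, J 2 t ≤ k + 3 ∧ J 2 t ≠ k + 2) (e3 : ∀ t, J 3 t ≤ k + 2) (e4 : ∀ t, J 4 t ≤ k + 3)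
    (t0 : ∀ e, k - 1 ≤ J e 0) (t1 : ∀ e, k - 1 ≤ J e 1) (t2 : ∀ e, k - 3 ≤ J e 2)
    (t3 : ∀ e, k - 4 ≤ J e 3 ∧ J e 3 ≠ k - 3) : False := by
  have R : ∀ e (t t' : Fin 4), t ≠ t' → J e t ≠ J e t' := fun e t t' h g => h (row e t t' g)
  have C : ∀ (e e' : Fin 5) t, e ≠ e' → J e t ≠ J e' t := fun e e' t h g => h (col e e' t g)
  have A : ∀ t, (∀ e, k - 1 ≤ J e t) → ∀ e, e ≠ 0 → e ≠ 1 → k + 1 ≤ J e t := fun t h e a b => by
    have := C 0 1 t (by decide)
    have := C e 0 t a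
    have := C e 1 t b
    have := h e; have := h 0; have := h 1; have := e0 t; have := e1 t
    omega
  have B : ∀ t, t ≠ 0 → t ≠ 1 → J 0 t ≤ k - 2 ∧ J 1 t ≤ k - 2 ∧ J 2 t ≤ k ∧ J 3 t ≤ k := by
    intro t a b
    refine ⟨?_, ?_, ?_, ?_⟩
    · have := R 0 0 1 (by decide); have := R 0 t 0 a; have := R 0 t 1 b
      have := t0 0; have := t1 0; have := e0 0; have := e0 1; have := e0 t
      omega
    · have := R 1 0 1 (by decide); have := R 1 t 0 a; have := R 1 t 1 b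
      have := t0 1; have := t1 1; have := e1 0; have := e1 1; have := e1 t
      omega
    · have := R 2 0 1 (by decide); have := R 2 t 0 a; have := R 2 t 1 b
      have := A 0 t0 2 (by decide) (by decide); have := A 1 t1 2 (by decide) (by decide)
      have := e2 0; have := e2 1; have := e2 t
      omega
    · have := R 3 0 1 (by decide); have := R 3 t 0 a; have := R 3 t 1 b
      have := A 0 t0 3 (by decide) (by decide); have := A 1 t1 3 (by decide) (by decide)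
      have := e3 0; have := e3 1; have := e3 t
      omega
  have D : ∀ t, t ≠ 0 → t ≠ 1 → (∀ e, e ≠ 0 → e ≠ 1 → k - 1 ≤ J e t) → k + 1 ≤ J 4 t := by
    intro t a b h
    have := B t a b
    have := C 2 3 t (by decide); have := C 4 2 t (by decide); have := C 4 3 t (by decide)
    have := h 2 (by decide) (by decide); have := h 3 (by decide) (by decide)
    have := h 4 (by decide) (by decide)
    omega
  have d2 := D 2 (by decide) (by decide) fun e a b => by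
    have := B 2 (by decide) (by decide)
    have := C 0 1 2 (by decide); have := C e 0 2 a; have := C e 1 2 b
    have := t2 e; have := t2 0; have := t2 1
    omega
  have d3 := D 3 (by decide) (by decide) fun e a b => by
    have := B 3 (by decide) (by decide)
    have := C 0 1 3 (by decide); have := C e 0 3 a; have := C e 1 3 b
    have := t3 e; have := t3 0; have := t3 1
    omega
  have d0 := A 0 t0 4 (by decide) (by decide)
  have d1 := A 1 t1 4 (by decide) (by decide)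
  have := R 4 0 1 (by decide); have := R 4 0 2 (by decide); have := R 4 0 3 (by decide)
  have := R 4 1 2 (by decide); have := R 4 1 3 (by decide); have := R 4 2 3 (by decide)
  have := e4 0; have := e4 1; have := e4 2; have := e4 3
  omega

namespace PM
variable {W : Type} {k : ℕ} {r : ℝ} {Fe : W → W → Prop} {P : PM W k r Fe} {Q : Finset W}
  {X Y : W → ℤ} {x y c p q s u v w : W} {a b n l : ℤ} [Fintype W] {Pt : Finset (W × W)}

/-- Case III with `x` all high and `y` all low. -/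
structure VB (P : PM W k r Fe) (Q : Finset W) (x y c p q u : W) (Y X : W → ℤ) (a b : ℤ) : Prop
    extends P.III1 Q x y c p q c y u Y X a b where
  b1 : 1 ≤ b
  b2 : b + 3 ≤ k
  b3 : P.it y b = q
  b4 : ∀ n : ℤ, 1 ≤ n → n + 2 ≤ k → n ≠ b → P.Ty Q 0 y n

namespace VB
variable (m : P.VB Q x y c p q u Y X a b) (d : D1 k Fe Q Pt x c y)
include m d

lemma mir' : ∃ u' Y' X', (P.mir3 Q).VB Q y x c q p u' Y' X' (k - 1 - b) (k - 1 - a) := by
  obtain ⟨u', Y', X', m'⟩ := m.mir d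
  have b1 := m.b1
  have b2 := m.b2
  have a1 := m.a2
  have a2 := m.ak
  have e : (P.mir3 Q).it x (k - 1 - a) = p := by
    rw [mir3_it' d.o0, ← m.xp, ← P.it_sub x (a - 1)]; congr 1; ring
  have t : ∀ n : ℤ, 1 ≤ n → n + 2 ≤ k → n ≠ k - 1 - a → (P.mir3 Q).Ty Q 0 x n := fun n n1 n2 n3 =>
    (mir3_ty d.o0).2 (m.xB _ (by omega) (by omega) (by omega))
  exact ⟨u', Y', X', ⟨m', m.sp.sw, Or.inr ⟨rfl, rfl⟩, by omega, by omega,
    by rw [mir3_it' d.o2, ← m.b3, ← P.it_sub y b]; congr 1; ring,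
    fun n n1 n2 n3 => (mir3_ty d.o2).2 (m.b4 _ (by omega) (by omega) (by omega)),
    Or.inr ⟨rfl, by omega, by omega, e, t⟩⟩, by omega, by omega, e, t⟩

lemma yv (hw : w ∈ Q) (e : w ≠ q) : ∃ n : ℤ, 1 ≤ n ∧ n + 2 ≤ k ∧ P.it y n = w ∧ X w ≤ n ∧
    P.it w n = y := by
  obtain ⟨n, n1, n2, g, t⟩ := (m.ceny d).adj hw fun f => e ((m.sp.fy w).1 f)
  have i : 1 ≤ n := t.elim (m.idx d (Or.inl rfl) n1 n2) (m.idx d (Or.inl rfl) n1 n2)
  have := (m.ceny d).tA (m.b4 n i n2 fun f => e (by rw [← g, f, m.b3])) (by omega)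
  rw [g] at this
  exact ⟨n, i, n2, g, this.2, this.1⟩

lemma yA (h1 : 1 ≤ n) (h2 : n + 2 ≤ k) (h3 : n ≠ b) :
    P.it y n ∈ Q ∧ P.it (P.it y n) n = y ∧ X (P.it y n) ≤ n :=
  ⟨(m.b4 n h1 h2 h3).1, (m.ceny d).tA (m.b4 n h1 h2 h3) (by omega)⟩

lemma xB' (h1 : 0 ≤ n) (h2 : n + 3 ≤ k) (h3 : n ≠ a - 1) :
    P.it x n ∈ Q ∧ P.it (P.it x n) (n + 1) = x ∧ n + 1 < X (P.it x n) :=
  ⟨(m.xB n h1 h2 h3).1, (m.c0 d).tB (m.xB n h1 h2 h3) (by omega)⟩

lemma mxa : ¬ P.Has Q x a := fun g => by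
  have a1 := m.a2
  have a2 := m.ak
  rcases (m.c0 d).has (by omega) (by omega) g with t | t
  · exact m.xA d (by omega) (by omega) t
  · exact t.2.1 (m.xp ▸ P.sym _ _ ((m.sp.fx p).2 rfl))

lemma myb : ¬ P.Has Q y b := fun g => by
  have b1 := m.b1
  have b2 := m.b2
  have f : Fe y (P.it y b) := m.b3 ▸ P.sym _ _ ((m.sp.fy q).2 rfl)
  rcases (m.ceny d).has (by omega) (by omega) g with t | t
  · exact t.2.1 f
  · have := m.idx d (Or.inl rfl) (by omega) (by omega) t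
    have := t.ne (m.b4 _ this (by omega) (by omega))
    omega

lemma bne : 2 ≤ b := by
  have b1 := m.b1
  have : b ≠ 1 := fun e => m.sp.pq (by rw [← (m.ya d).2.1, ← m.b3, e])
  omega

lemma xq : P.it x (k - 3) = q ∧ a + 3 ≤ k ∧ k ≤ X q + 1 := by
  have hk := d.sz.big
  obtain ⟨u', Y', X', m'⟩ := m.mir' d
  have d' := d.sw'.sw.sw'
  have e := (m'.ya d').2.1
  rw [mir3_it' d.o0, ← P.it_add, show -2 - 1 + (k : ℤ) = k - 3 by ring] at e
  have a := m'.bne d'
  have := (m.xB' d (n := k - 3) (by omega) (by omega) (by omega)).2.2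
  rw [e] at this
  exact ⟨e, by omega, by omega⟩

lemma w2 : P.it x 0 ∈ Q ∧ P.it (P.it x 0) 1 = x ∧ X (P.it x 0) = 2 ∧ P.it x 0 ≠ p ∧ P.it x 0 ≠ q := by
  have hk := d.sz.big
  have a1 := m.a2
  have a2 := m.ak
  obtain ⟨h1, h2, h3⟩ := m.xB' d (n := 0) le_rfl (by omega) (by omega)
  refine ⟨h1, h2, le_antisymm ?_ (by omega), fun e => ?_, fun e => ?_⟩
  · by_cases g : P.Has Q y 2
    · rw [← (m.y2 d g).2.1]
      exact ((m.ceny d).tA (m.y2 d g).1 (by omega)).2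
    · obtain ⟨g1, g2, -⟩ := m.p2 d fun f =>
        g (has_of_port (m.one 2 (by omega) (by omega)) (m.oy d) m.sp.hp f)
      rwa [(m.two_w d g1 g2 (P.ne p 2)).1]
  · have := P.uniq (e.trans m.xp.symm) (by omega) (by omega); omega
  · have := P.uniq (e.trans (m.xq d).1.symm) (by omega) (by omega); omega

lemma u2 : P.it y (k - 2) ∈ Q ∧ P.it (P.it y (k - 2)) (k - 2) = y ∧ k ≤ X (P.it y (k - 2)) + 2 ∧
    P.it y (k - 2) ≠ q := by
  have hk := d.sz.big
  have b1 := m.b1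
  have b2 := m.b2
  obtain ⟨q1, q2, q3⟩ := m.xq d
  obtain ⟨h1, h2, -⟩ := m.yA d (n := k - 2) (by omega) (by omega) (by omega)
  refine ⟨h1, h2, ?_, fun e => by
    have := P.uniq (e.trans m.b3.symm) (by omega) (by omega); omega⟩
  have key : ∀ v ∈ Q, v ≠ q → k ≤ X v + 2 → k ≤ X (P.it y (k - 2)) + 2 := fun v hv e g => by
    obtain ⟨n, -, _, t, _, -⟩ := m.yv d hv e
    rwa [show (k : ℤ) - 2 = n by omega, t]
  by_cases g : a = k - 3
  · have o : P.it q (k - 3) ∈ Q := by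
      by_contra o
      have nf : ¬ Fe q (P.it q (k - 3)) := fun f =>
        m.mxa d (g ▸ has_of_port (m.one _ (by omega) (by omega)) d.o0 m.sp.hq f)
      rcases (m.out d _).1 o with t | t | t
      · exact m.mxa d ⟨q, m.sp.hq, t ▸ nf, g ▸ t⟩
      · exact nf (t ▸ (m.sp.fy q).2 rfl)
      · exact nf (t ▸ m.sp.fq)
    have := (m.fl.side m.cx m.sp.hq o rfl).1 (by omega)
    exact key _ o (P.ne q _) (by omega)
  · obtain ⟨t1, -, t2⟩ := m.xB' d (n := k - 4) (by omega) (by omega) (by omega)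
    exact key _ t1 (fun e => by have := P.uniq (e.trans q1.symm) (by omega) (by omega); omega)
      (by omega)

/-- An early particle meets the last two particles at the levels `k - 1` and `k`. -/
lemma last2 (hs : s = p ∨ s = P.it x 0) (hv : v ∈ Q) (e : v ≠ s) (e1 : v ≠ q)
    (e2 : v ≠ P.it y (k - 2)) : ∃ j, X v ≤ j ∧ j + 2 ≤ k ∧ P.it s j = v ∧ P.it v j = s := by
  have hk := d.sz.big
  obtain ⟨w1, w2, w3, -, w5⟩ := m.w2 d
  obtain ⟨u1, u2, u3, u4⟩ := m.u2 d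
  obtain ⟨-, -, q3⟩ := m.xq d
  have xp := (m.ya d).2.2.2
  have key : ∀ v ∈ Q, v ≠ s → ∃ j, X v ≤ j ∧ j ≤ k ∧ 1 ≤ j ∧ P.it s j = v ∧ P.it v j = s := by
    intro v hv e
    rcases hs with rfl | rfl
    · obtain ⟨j, _, _, _, -, g⟩ := m.fl.meet m.cx m.sp.hp hv e
      exact ⟨j, by omega, by omega, by omega, g⟩
    · obtain ⟨j, _, _, _, -, g⟩ := m.fl.meet m.cx w1 hv e
      have : j ≠ 1 + k := fun t => d.o0 (by rw [← w2, ← P.it_add, ← t, g.1]; exact hv)
      exact ⟨j, by omega, by omega, by omega, g⟩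
  have xs : X s ≤ 2 := by rcases hs with rfl | rfl <;> omega
  obtain ⟨j, j1, j2, j3, j4⟩ := key v hv e
  obtain ⟨i, i1, i2, -, i4, -⟩ := key q m.sp.hq fun t => by rw [t] at q3; omega
  obtain ⟨n, n1, n2, -, n4, n5⟩ := key _ u1 fun t => by rw [t] at u3; omega
  have : n ≠ k - 2 := fun t => m.oy d (by
    rw [t, u2] at n5; rw [n5]; rcases hs with rfl | rfl; exacts [m.sp.hp, w1])
  have : i ≠ n := fun t => u4 (by rw [← n4, ← t, i4])
  have : j ≠ i := fun t => e1 (by rw [← j4.1, t, i4])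
  have : j ≠ n := fun t => e2 (by rw [← j4.1, t, n4])
  exact ⟨j, j1, by omega, j4⟩

lemma ahi : k ≤ a + 4 := by
  have hk := d.sz.big
  by_contra g
  obtain ⟨q1, -, -⟩ := m.xq d
  obtain ⟨w1, -, w3, w4, -⟩ := m.w2 d
  obtain ⟨s1, -, s2⟩ := m.xB' d (n := k - 4) (by omega) (by omega) (by omega)
  obtain ⟨t1, -, t2⟩ := m.xB' d (n := k - 5) (by omega) (by omega) (by omega)
  obtain ⟨n, -, _, n1, _, -⟩ := m.yv d s1 fun e => by
    have := P.uniq (e.trans q1.symm) (by omega) (by omega); omega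
  have tq : P.it x (k - 5) ≠ q := fun e => by
    have := P.uniq (e.trans q1.symm) (by omega) (by omega); omega
  have tu : P.it x (k - 5) ≠ P.it y (k - 2) := fun e => by
    rw [show (k : ℤ) - 2 = n by omega, n1] at e
    have := P.uniq e (by omega) (by omega); omega
  obtain ⟨i, -, _, i1, _, i2⟩ := m.yv d t1 tq
  have : i ≠ k - 2 := fun e => tu (by rw [← i1, e])
  have xp := (m.ya d).2.2.2
  have key : ∀ s, (s = p ∨ s = P.it x 0) → s ∈ Q → X s ≤ 2 → P.it (P.it x (k - 5)) (k - 2) = s := by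
    intro s hs h1 h2
    obtain ⟨j, _, _, -, j2⟩ := m.last2 d hs t1 (fun e => by rw [e] at t2; omega) tq tu
    have : j ≠ i := fun e => m.oy d (by rw [← i2, ← e, j2]; exact h1)
    rwa [show (k : ℤ) - 2 = j by omega]
  exact w4 ((key _ (Or.inr rfl) w1 w3.le).symm.trans (key _ (Or.inl rfl) m.sp.hp (by omega)))

lemma blo : b ≤ 3 := by
  obtain ⟨u', Y', X', m'⟩ := m.mir' d
  have := m'.ahi d.sw'.sw.sw'
  omega

/-- Nobody enters at level three. -/
lemma no3 (hv : v ∈ Q) (h : X v ≤ 3) : v = p ∨ v = P.it x 0 := by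
  have hk := d.sz.big
  by_contra g
  push Not at g
  obtain ⟨n, _, -, n1, -, _, n2⟩ := m.xw d hv g.1
  obtain rfl : n = 1 := by
    have : n ≠ 0 := fun e => g.2 (by rw [← n1, e])
    omega
  obtain ⟨w1, w2, w3, w4, w5⟩ := m.w2 d
  obtain ⟨u1, u2, u3, u4⟩ := m.u2 d
  obtain ⟨-, -, q3⟩ := m.xq d
  have xp := (m.ya d).2.2.2
  have key : ∀ t ∈ Q, (∀ j, X t ≤ j → P.it t j ∈ Q → j < 2 * k - 2 → k ≤ j + 1) → k ≤ X t + 2 →
      P.it v (k + 1) = t := fun t ht h1 h2 => by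
    obtain ⟨j1, -, _, a1, -, -, a2⟩ := m.fl.meet m.cx m.sp.hp ht fun e => by rw [e] at h2; omega
    obtain ⟨j2, -, _, b1, -, b3, b2⟩ := m.fl.meet m.cx w1 ht fun e => by rw [e] at h2; omega
    obtain ⟨j3, -, _, c1, -, c3, c2⟩ := m.fl.meet m.cx hv ht fun e => by rw [e] at h2; omega
    have := h1 j1 a1 (a2 ▸ m.sp.hp) (by omega)
    have := h1 j2 b1 (b2 ▸ w1) (by omega)
    have := h1 j3 c1 (c2 ▸ hv) (by omega)
    have : j2 ≠ 1 + k := fun e => d.o0 (by rw [← w2, ← P.it_add, ← e, b3]; exact ht)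
    have : j3 ≠ 1 + 1 + k := fun e => d.o0 (by rw [← n2, ← P.it_add, ← e, c3]; exact ht)
    have : j1 ≠ j2 := fun e => w4 (by rw [← b2, ← e, a2])
    have : j1 ≠ j3 := fun e => g.1 (by rw [← c2, ← e, a2])
    have : j2 ≠ j3 := fun e => g.2 (by rw [← c2, ← e, b2])
    rwa [show (k : ℤ) + 1 = j3 by omega]
  refine u4 ((key _ u1 (fun j a b _ => ?_) u3).symm.trans (key q m.sp.hq (fun j a _ _ => by omega)
    (by omega)))
  have : j ≠ k - 2 := fun e => m.oy d (by rwa [e, u2] at b)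
  omega

/-- A centre edge of `c` with a small label is high. -/
lemma nxt (h0 : 1 ≤ n) (h1 : n ≤ 3) (B : P.Ty Q 1 c n) (g : P.Has Q c (n + 2)) :
    P.Ty Q 1 c (n + 1) := by
  have hk := d.sz.big
  rcases (m.cenc d).has (by omega) (by omega) g with t | t
  · have := m.fl.jump' B t (by omega); omega
  · rwa [show n + 2 - 1 = n + 1 by ring] at t

lemma side' (hw : w ∈ Q) (h : X w ≤ l) (o : P.it w l ∈ Q) : X (P.it w l) ≤ l :=
  not_lt.1 ((m.fl.side m.cx hw o rfl).not.1 (by omega))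

/-- The levels two and three. -/
lemma lev3 : P.it p b = P.it x 0 ∧ Fe p (P.it p (5 - b)) ∧ P.it (P.it x 0) (5 - b) = y ∧
    P.it y (5 - b) = P.it x 0 ∧ P.Ty Q 1 c 2 := by
  have hk := d.sz.big
  have b1 := m.bne d
  have b2 := m.blo d
  obtain ⟨w1, w2, w3, w4, w5⟩ := m.w2 d
  obtain ⟨y1, y2, y3, xp⟩ := m.ya d
  obtain ⟨s1, s2, s3⟩ := m.yA d (n := 5 - b) (by omega) (by omega) (by omega)
  have e : P.it y (5 - b) = P.it x 0 := (m.no3 d s1 (by omega)).resolve_left fun e => by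
    have := P.uniq (e.trans y2.symm) (by omega) (by omega); omega
  rw [e] at s2
  have key : ∀ l : ℤ, 2 ≤ l → l ≤ 3 → ¬ Fe p (P.it p l) → P.it p l = P.it x 0 := fun l l1 l2 f => by
    have o : P.it p l ∈ Q := by_contra fun o => f (m.pout d l1 (by omega) o)
    exact (m.no3 d o (by have := m.side' d m.sp.hp (by omega) o; omega)).resolve_left (P.ne p l)
  have f : Fe p (P.it p (5 - b)) := by_contra fun f => m.oy d (by
    rw [← s2, m.fl.it m.sp.hp w1 (key _ (by omega) (by omega) f)]; exact m.sp.hp)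
  refine ⟨key b b1 b2 fun f => m.myb d (has_of_port (m.one b (by omega) (by omega)) (m.oy d)
    m.sp.hp f), f, s2, e, m.nxt d (n := 1) le_rfl (by omega) (m.cB1 d) ?_⟩
  rcases (show b = 2 ∨ b = 3 by omega) with rfl | rfl
  · exact has_of_port (m.one 3 (by omega) (by omega)) (m.oc d) m.sp.hp f
  · exact has_of_one (m.one 3 (by omega) (by omega)) (m.oy d) (m.oc d) (m.nes d).2.2 (m.myb d)

/-- The items of the first two particles at the levels four and five. -/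
lemma early (hs : s = p ∨ s = P.it x 0) (h1 : 4 ≤ l) (h2 : l ≤ 5) (A : ¬ P.Ty Q 0 c l)
    (f : ¬ Fe s (P.it s l)) : P.it s l ∈ Q ∧ X (P.it s l) ≤ l ∧ P.it s l ≠ p ∧ P.it s l ≠ P.it x 0 ∧
      P.it s l ≠ P.it y l := by
  have hk := d.sz.big
  have b1 := m.bne d
  have b2 := m.blo d
  obtain ⟨w1, w2, w3, w4, w5⟩ := m.w2 d
  obtain ⟨y1, y2, y3, xp⟩ := m.ya d
  obtain ⟨l1, -, l3, -, -⟩ := m.lev3 d
  have l2 := m.fl.it m.sp.hp w1 l1
  have hq : s ∈ Q ∧ X s ≤ l := by rcases hs with rfl | rfl; exacts [⟨m.sp.hp, by omega⟩, ⟨w1, by omega⟩]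
  have o : P.it s l ∈ Q := by
    rcases hs with rfl | rfl
    · exact by_contra fun o => f (m.pout d (by omega) (by omega) o)
    by_contra o
    rcases (m.out d _).1 o with t | t | t
    · have := P.uniq (t.trans w2.symm) (by omega) (by omega); omega
    · have := P.uniq (t.trans l3.symm) (by omega) (by omega); omega
    · exact A ((m.cenc d).low m.fl w1 (by omega) (by omega) (by omega) t (t ▸ f)).1
  refine ⟨o, m.side' d hq.1 hq.2 o, fun e => ?_, fun e => ?_, fun e => ?_⟩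
  · rcases hs with rfl | rfl
    · exact P.ne _ _ e
    · have := P.uniq (e.trans l2.symm) (by omega) (by omega); omega
  · rcases hs with rfl | rfl
    · have := P.uniq (e.trans l1.symm) (by omega) (by omega); omega
    · exact P.ne _ _ e
  · have := m.fl.it hq.1 o rfl
    rw [e, (m.yA d (n := l) (by omega) (by omega) (by omega)).2.1] at this
    exact m.oy d (this ▸ hq.1)

/-- Particles that enter early are named by the edges of `x`. -/
lemma name (hv : v ∈ Q) (h : X v ≤ l) (e : v ≠ p) (e' : v ≠ P.it x 0) :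
    ∃ n : ℤ, 1 ≤ n ∧ n + 2 ≤ l ∧ P.it x n = v := by
  obtain ⟨n, _, -, n1, -, _, -⟩ := m.xw d hv e
  have : n ≠ 0 := fun t => e' (by rw [← n1, t])
  exact ⟨n, by omega, by omega, n1⟩

lemma yne (h1 : 4 ≤ l) (h2 : l ≤ 5) : P.it y l ≠ p ∧ P.it y l ≠ P.it x 0 := by
  have hk := d.sz.big
  have b1 := m.bne d
  have b2 := m.blo d
  constructor <;> intro e
  · have := P.uniq (e.trans (m.ya d).2.1.symm) (by omega) (by omega); omega
  · have := P.uniq (e.trans (m.lev3 d).2.2.2.1.symm) (by omega) (by omega); omega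

/-- One of the first two particles has a port, the other an inner edge. -/
lemma pick (h1 : 4 ≤ l) (h2 : l ≤ 5) (A : ¬ P.Ty Q 0 c l)
    (two : ∀ v v', (v ∈ Q ∧ X v ≤ l ∧ v ≠ p ∧ v ≠ P.it x 0 ∧ v ≠ P.it y l) →
      (v' ∈ Q ∧ X v' ≤ l ∧ v' ≠ p ∧ v' ≠ P.it x 0 ∧ v' ≠ P.it y l) → v = v') :
    (Fe p (P.it p l) ∧ ¬ Fe (P.it x 0) (P.it (P.it x 0) l)) ∨
      (¬ Fe p (P.it p l) ∧ Fe (P.it x 0) (P.it (P.it x 0) l)) := by
  have hk := d.sz.big
  obtain ⟨w1, -, -, w4, -⟩ := m.w2 d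
  by_cases f : Fe p (P.it p l) <;> by_cases g : Fe (P.it x 0) (P.it (P.it x 0) l)
  · have := two_le_dfc'' m.sp.hp f w1 g w4.symm
    have := m.one l (by omega) (by omega)
    omega
  · exact Or.inl ⟨f, g⟩
  · exact Or.inr ⟨f, g⟩
  · have a1 := m.early d (Or.inl rfl) h1 h2 A f
    have a2 := m.early d (Or.inr rfl) h1 h2 A g
    have e := m.fl.it m.sp.hp a1.1 rfl
    rw [two _ _ a1 a2, m.fl.it w1 a2.1 rfl] at e
    exact absurd e w4

lemma lev4 : ((Fe p (P.it p 4) ∧ ¬ Fe (P.it x 0) (P.it (P.it x 0) 4)) ∨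
    (¬ Fe p (P.it p 4) ∧ Fe (P.it x 0) (P.it (P.it x 0) 4))) ∧ P.Ty Q 1 c 3 ∧
    ∃ s, (s = p ∨ s = P.it x 0) ∧ P.it s 4 ∈ Q ∧ X (P.it s 4) ≤ 4 ∧ P.it s 4 ≠ p ∧
      P.it s 4 ≠ P.it x 0 ∧ P.it s 4 ≠ P.it y 4 := by
  have hk := d.sz.big
  have b2 := m.blo d
  have B := (m.lev3 d).2.2.2.2
  have A : ¬ P.Ty Q 0 c 4 := fun t => by have := m.fl.jump' B t (by omega); omega
  obtain ⟨s1, -, s3⟩ := m.yA d (n := 4) (by omega) (by omega) (by omega)
  obtain ⟨n, _, _, n1⟩ := m.name d s1 s3 (m.yne d le_rfl (by omega)).1 (m.yne d le_rfl (by omega)).2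
  have h := m.pick d (l := 4) le_rfl (by omega) A fun v v' a a' => by
    obtain ⟨i, _, _, i1⟩ := m.name d a.1 a.2.1 a.2.2.1 a.2.2.2.1
    obtain ⟨j, _, _, j1⟩ := m.name d a'.1 a'.2.1 a'.2.2.1 a'.2.2.2.1
    have : i ≠ n := fun e => a.2.2.2.2 (by rw [← i1, e, n1])
    have : j ≠ n := fun e => a'.2.2.2.2 (by rw [← j1, e, n1])
    rw [← i1, ← j1, show i = j by omega]
  have o := m.one 4 (by omega) (by omega)
  refine ⟨h, m.nxt d (n := 2) (by omega) (by omega) B ?_, ?_⟩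
  · exact h.elim (fun h => has_of_port o (m.oc d) m.sp.hp h.1)
      fun h => has_of_port o (m.oc d) (m.w2 d).1 h.2
  · exact h.elim (fun h => ⟨_, Or.inr rfl, m.early d (Or.inr rfl) le_rfl (by omega) A h.2⟩)
      fun h => ⟨_, Or.inl rfl, m.early d (Or.inl rfl) le_rfl (by omega) A h.1⟩

lemma two4 : X (P.it x 1) ≤ 4 ∧ X (P.it x 2) ≤ 4 := by
  have hk := d.sz.big
  have b2 := m.blo d
  obtain ⟨-, -, s, -, t1, t2, t3, t4, t5⟩ := m.lev4 d
  obtain ⟨s1, -, s3⟩ := m.yA d (n := 4) (by omega) (by omega) (by omega)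
  obtain ⟨n, _, _, n1⟩ := m.name d s1 s3 (m.yne d le_rfl (by omega)).1 (m.yne d le_rfl (by omega)).2
  obtain ⟨i, _, _, i1⟩ := m.name d t1 t2 t3 t4
  have : i ≠ n := fun e => t5 (by rw [← i1, e, n1])
  rcases (show (n = 1 ∧ i = 2) ∨ (n = 2 ∧ i = 1) by omega) with ⟨rfl, rfl⟩ | ⟨rfl, rfl⟩ <;>
    rw [n1, i1] <;> exact ⟨by assumption, by assumption⟩

lemma top4 : k ≤ X (P.it y (k - 4)) + 4 ∧ k ≤ X (P.it y (k - 3)) + 4 := by
  have hk := d.sz.big
  have a1 := m.ahi d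
  obtain ⟨u', Y', X', m'⟩ := m.mir' d
  obtain ⟨-, -, s, hs, t1, -, t3, t4, t5⟩ := m'.lev4 d.sw'.sw.sw'
  obtain ⟨u1, -, u3, -⟩ := m.u2 d
  obtain ⟨q1, -, q3⟩ := m.xq d
  have e1 : (P.mir3 Q).it y 0 = P.it y (k - 2) := by
    rw [mir3_it' d.o2, ← P.it_add]; congr 1
  have e2 : (P.mir3 Q).it x 4 = P.it x (k - 6) := by
    rw [mir3_it' d.o0, ← P.it_add]; congr 1
  rw [e1] at hs t4
  have hq : s ∈ Q ∧ (k : ℤ) - 1 - 4 < X s := by
    rcases hs with rfl | rfl
    exacts [⟨m.sp.hq, by omega⟩, ⟨u1, by omega⟩]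
  rw [mir3_it hq.1] at t1 t3 t4 t5
  rw [e2] at t5
  have t2 := (m.fl.side m.cx hq.1 t1 rfl).1 hq.2
  obtain ⟨s1, s2, s3⟩ := m.xB' d (n := k - 6) (by omega) (by omega) (by omega)
  obtain ⟨i, -, _, i1, _, -⟩ := m.yv d t1 t3
  obtain ⟨n, -, _, n1, _, -⟩ := m.yv d s1 fun e => by
    have := P.uniq (e.trans q1.symm) (by omega) (by omega); omega
  have : i ≠ k - 2 := fun e => t4 (by rw [← i1, e])
  have : i ≠ n := fun e => t5 (by rw [← i1, e, n1])
  have : n ≠ k - 2 := fun e => by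
    have e3 : (P.mir3 Q).it x 4 ≠ (P.mir3 Q).it y 0 := (m'.yne d.sw'.sw.sw' le_rfl (by omega)).2
    exact e3 (by rw [e1, e2, ← n1, e])
  rcases (show (n = k - 4 ∧ i = k - 3) ∨ (n = k - 3 ∧ i = k - 4) by omega) with ⟨rfl, rfl⟩ | ⟨rfl, rfl⟩ <;>
    rw [n1, i1] <;> constructor <;> omega

/-- Nobody enters at level five. -/
lemma no5 : 5 < X (P.it x 3) := by
  have hk := d.sz.big
  by_contra g
  have a1 := m.ahi d
  have b1 := m.bne d
  have b2 := m.blo d
  obtain ⟨-, a2, q3⟩ := m.xq d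
  obtain ⟨-, -, u3, -⟩ := m.u2 d
  obtain ⟨t1, t2⟩ := m.top4 d
  obtain ⟨s1, s2⟩ := m.two4 d
  have w3 := (m.w2 d).2.2.1
  have xp := (m.ya d).2.2.2
  let ie : Fin 5 → ℤ := ![a - 1, 0, 1, 2, 3]
  let il : Fin 4 → ℤ := ![b, k - 2, k - 4, k - 3]
  have he : ∀ e, P.it x (ie e) ∈ Q ∧ X (P.it x (ie e)) ≤ 5 := fun e => by
    fin_cases e
    · exact m.xp ▸ ⟨m.sp.hp, by omega⟩
    · exact ⟨(m.xB' d (n := 0) (by omega) (by omega) (by omega)).1, w3.le.trans (by omega)⟩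
    · exact ⟨(m.xB' d (n := 1) (by omega) (by omega) (by omega)).1, s1.trans (by omega)⟩
    · exact ⟨(m.xB' d (n := 2) (by omega) (by omega) (by omega)).1, s2.trans (by omega)⟩
    · exact ⟨(m.xB' d (n := 3) (by omega) (by omega) (by omega)).1, not_lt.1 g⟩
  have hl : ∀ t, P.it y (il t) ∈ Q ∧ k ≤ X (P.it y (il t)) + 4 := fun t => by
    fin_cases t
    · exact m.b3 ▸ ⟨m.sp.hq, by omega⟩
    · exact ⟨(m.yA d (n := k - 2) (by omega) (by omega) (by omega)).1,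
        show (k : ℤ) ≤ X (P.it y (k - 2)) + 4 by omega⟩
    · exact ⟨(m.yA d (n := k - 4) (by omega) (by omega) (by omega)).1, t1⟩
    · exact ⟨(m.yA d (n := k - 3) (by omega) (by omega) (by omega)).1, t2⟩
  choose J j0 j1 j2 j3 j4 j5 using fun e t => m.fl.meet m.cx (he e).1 (hl t).1 fun z => by
    have := (he e).2; have := (hl t).2; rw [z] at this; omega
  have nx : ∀ e t (n : ℤ), 0 ≤ n → n ≤ 3 → ie e = n → J e t ≠ n + 1 + k := fun e t n n1 n2 z f => by
    have := j4 e t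
    rw [f, P.it_add, z, (m.xB' d n1 (by omega) (by omega)).2.1] at this
    exact d.o0 (this ▸ (hl t).1)
  have ny : ∀ e t (n : ℤ), k ≤ n + 4 → n + 2 ≤ k → il t = n → J e t ≠ n := fun e t n n1 n2 z f => by
    have := j5 e t
    rw [f, z, (m.yA d (by omega) n2 (by omega)).2.1] at this
    exact m.oy d (this ▸ (he e).1)
  refine ujc_cnt (k := k) J (fun e t t' z => ?_) (fun e e' t z => ?_) (fun t => ?_) (fun t => ?_)
    (fun t => ?_) (fun t => ?_) (fun t => ?_) (fun e => ?_) (fun e => ?_) (fun e => ?_) fun e => ?_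
  · have z' : P.it y (il t) = P.it y (il t') := by rw [← j4 e t, z, j4]
    have r : ∀ t, 2 ≤ il t ∧ il t ≤ k - 2 := fun t => by fin_cases t <;> simp [il] <;> omega
    have := P.uniq z' (by have := r t; have := r t'; omega) (by have := r t; have := r t'; omega)
    fin_cases t <;> fin_cases t' <;> simp [il] at this ⊢ <;> omega
  · have z' : P.it x (ie e) = P.it x (ie e') := by rw [← j5 e t, z, j5]
    have r : ∀ e, 0 ≤ ie e ∧ ie e ≤ k - 2 := fun e => by fin_cases e <;> simp [ie] <;> omega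
    have := P.uniq z' (by have := r e; have := r e'; omega) (by have := r e; have := r e'; omega)
    fin_cases e <;> fin_cases e' <;> simp [ie] at this ⊢ <;> omega
  · have : J 0 t < X (P.it x (a - 1)) + k := j1 0 t
    rw [m.xp] at this; omega
  · have : J 1 t < X (P.it x 0) + k := j1 1 t
    have := nx 1 t 0 le_rfl (by omega) rfl
    omega
  · have : J 2 t < X (P.it x 1) + k := j1 2 t
    have := nx 2 t 1 (by omega) (by omega) rfl
    omega
  · have : J 3 t < X (P.it x 2) + k := j1 3 t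
    have := nx 3 t 2 (by omega) (by omega) rfl
    omega
  · have : J 4 t < X (P.it x 3) + k := j1 4 t
    have := nx 4 t 3 (by omega) (by omega) rfl
    omega
  · have : X (P.it y b) ≤ J e 0 := j2 e 0
    rw [m.b3] at this; omega
  · have : X (P.it y (k - 2)) ≤ J e 1 := j2 e 1
    have := ny e 1 (k - 2) (by omega) (by omega) rfl
    omega
  · have : X (P.it y (k - 4)) ≤ J e 2 := j2 e 2
    have := ny e 2 (k - 4) (by omega) (by omega) rfl
    omega
  · have : X (P.it y (k - 3)) ≤ J e 3 := j2 e 3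
    have := ny e 3 (k - 3) (by omega) (by omega) rfl
    omega

lemma lev5 : ((Fe p (P.it p 4) ∧ Fe (P.it x 0) (P.it (P.it x 0) 5)) ∨
    (Fe p (P.it p 5) ∧ Fe (P.it x 0) (P.it (P.it x 0) 4))) ∧ P.Ty Q 1 c 4 := by
  have hk := d.sz.big
  have b1 := m.bne d
  have b2 := m.blo d
  obtain ⟨h4, B, -⟩ := m.lev4 d
  obtain ⟨w1, w2, w3, w4, w5⟩ := m.w2 d
  have A : ¬ P.Ty Q 0 c 5 := fun t => by have := m.fl.jump' B t (by omega); omega
  have n5 := m.no5 d
  obtain ⟨s1, -, s3⟩ := m.yA d (n := 5) (by omega) (by omega) (by omega)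
  obtain ⟨n, _, _, n1⟩ := m.name d s1 s3 (m.yne d (by omega) le_rfl).1 (m.yne d (by omega) le_rfl).2
  have : n ≠ 3 := fun e => by rw [← n1, e] at s3; omega
  have h := m.pick d (l := 5) (by omega) le_rfl A fun v v' a a' => by
    obtain ⟨i, _, _, i1⟩ := m.name d a.1 a.2.1 a.2.2.1 a.2.2.2.1
    obtain ⟨j, _, _, j1⟩ := m.name d a'.1 a'.2.1 a'.2.2.1 a'.2.2.2.1
    have : i ≠ n := fun e => a.2.2.2.2 (by rw [← i1, e, n1])
    have : j ≠ n := fun e => a'.2.2.2.2 (by rw [← j1, e, n1])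
    have : i ≠ 3 := fun e => by have := a.2.1; rw [← i1, e] at this; omega
    have : j ≠ 3 := fun e => by have := a'.2.1; rw [← j1, e] at this; omega
    rw [← i1, ← j1, show i = j by omega]
  have o := m.one 5 (by omega) (by omega)
  have pt : ∀ {w v}, w ∈ Q → Fe w v → (v = x ∧ w = p) ∨ (v = y ∧ w = q) ∨ v = c := fun hw f => by
    rcases (m.out d _).1 fun o => m.fl.cl _ hw _ o f with rfl | rfl | rfl
    exacts [Or.inl ⟨rfl, (m.sp.fx _).1 f⟩, Or.inr (Or.inl ⟨rfl, (m.sp.fy _).1 f⟩), Or.inr (Or.inr rfl)]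
  refine ⟨?_, m.nxt d (n := 3) (by omega) le_rfl B (h.elim
    (fun h => has_of_port o (m.oc d) m.sp.hp h.1) fun h => has_of_port o (m.oc d) w1 h.2)⟩
  rcases h4 with g | g <;> rcases h with h | h
  · have pq := m.sp.pq
    have u : ∀ i j : ℤ, 2 ≤ i → i < j → j ≤ 5 → P.it p i ≠ P.it p j := fun i j _ _ _ e => by
      have := P.uniq e (by omega) (by omega); omega
    have u1 := u (5 - b) 4 (by omega) (by omega) (by omega)
    have u2 := u (5 - b) 5 (by omega) (by omega) (by omega)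
    have u3 := u 4 5 (by omega) (by omega) (by omega)
    have := pt m.sp.hp (m.lev3 d).2.1
    have := pt m.sp.hp g.1
    have := pt m.sp.hp h.1
    grind
  · exact Or.inl ⟨g.1, h.2⟩
  · exact Or.inr ⟨h.1, g.2⟩
  · have e1 := ((pt w1 g.2).resolve_left fun t => w4 t.2).resolve_left fun t => w5 t.2
    have e2 := ((pt w1 h.2).resolve_left fun t => w4 t.2).resolve_left fun t => w5 t.2
    have := P.uniq (e1.trans e2.symm) (by omega) (by omega)
    omega

end VB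

end PM

end Pool.Agent.P.MP_3f5ded_co.UG
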