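import Pool.Agent.P.MP_3f5ded_co.UWA3

set_option autoImplicit false

namespace Pool.Agent.P.MP_3f5ded_co.UG

/-- Ports of one copy in the second mode together with the word of the main centre: `B m` says
that it has a high edge with label `m` (index `m - 1`), `A m` that it has a low edge with label `m`
(index `m`). A port of the main centre with index `n` has round `n + 1 + k`. -/
structure M4 {T : Type} (I : T → Prop) (X Y F l : T) (k : ℕ) (r : ℝ) (a b : T → ℤ) (α β : T → ℝ)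
    (t : ℝ) (B A : ℤ → Prop) : Prop where
  iX : I X
  iY : I Y
  iF : I F
  Xl : X ≠ l
  Yl : Y ≠ l
  Fl : F ≠ l
  FY : F ≠ Y
  loa : ∀ y, I y → t ≤ α y
  hia : ∀ y, I y → α y ≤ t + (2 * r - 2 * k - 1)
  lob : ∀ y, I y → t ≤ β y
  hib : ∀ y, I y → b y ≤ k - 2 → β y ≤ t + (2 * r - 2 * k - 1)
  injb : ∀ y y', I y → I y' → b y = b y' → y = y'
  labq : ∀ y y', I y → I y' → b y ≠ b y' + k
  ry : a Y = 2 * k ∨ a Y = 2 * k - 1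
  rx : a X ≤ 2 * k - 2
  rc : ∀ y, I y → k + 5 ≤ a y ∧ a y ≤ 2 * k
  rq : ∀ y, I y → (2 ≤ b y ∧ b y ≤ k - 2 ∧ b y ≠ 3) ∨ (k + 5 ≤ b y ∧ b y ≤ 2 * k - 2)
  top : ∀ y, I y → a y = 2 * k → a Y = 2 * k → y = Y
  word : ∀ n : ℤ, 4 ≤ n → n + 3 ≤ k →
    (∃ y, I y ∧ y ≠ X ∧ y ≠ Y ∧ a y = n + 1 + k) ∨ B (n + 1) ∨ A n
  has : ∀ m : ℤ, 4 ≤ m → m + 2 ≤ k → m + k ≠ a X → B m ∨ A m → ∃ y, I y ∧ (b y = m ∨ b y = m + k)
  excl : ∀ m : ℤ, B m → ¬ A m ∧ ¬ A (m + 1) ∧ ¬ A (m + 2)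
  fh : ∀ y, y = X ∨ y = Y ∨ y = F → b y + k < a X ∧ B (b y)
  four : Lw I b 4 ∧ B 4
  walk : ∀ y y', I y → I y' → b y + k < a y' →
    y' = X ∨ y' = Y ∨ (∃ m, B m ∧ b y ≤ m ∧ m + k < a y') → β y ≤ α y'
  walkH : ∀ y y', I y → I y' → k < b y → b y < a y' → y' = X ∨ y' = Y ∨ B (b y - k) →
    β y ≤ α y' + (r - k)

end Pool.Agent.P.MP_3f5ded_co.UG
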