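import Pool.Agent.P.MP_3f5ded_co.UJC

set_option autoImplicit false

namespace Pool.Agent.P.MP_3f5ded_co.UG

namespace PM
variable {W : Type} {k : ℕ} {r : ℝ} {Fe : W → W → Prop} {P : PM W k r Fe} {Q : Finset W}
  {X Y : W → ℤ} {x y c p q u : W} {a b n : ℤ} [Fintype W] {Pt : Finset (W × W)}

namespace VB
variable (m : P.VB Q x y c p q u Y X a b) (d : D1 k Fe Q Pt x c y)
include m d

/-- The first four edges of `c` are high. -/
lemma cB (h0 : 1 ≤ n) (h1 : n ≤ 4) : P.Ty Q 1 c n := by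
  rcases (show n = 1 ∨ n = 2 ∨ n = 3 ∨ n = 4 by omega) with rfl | rfl | rfl | rfl
  exacts [m.cB1 d, (m.lev3 d).2.2.2.2, (m.lev4 d).2.1, (m.lev5 d).2]

/-- The last four edges of `c` are low. -/
lemma cA' (h0 : (k : ℤ) - 6 ≤ n) (h1 : n + 3 ≤ k) : P.Ty Q 0 c n := by
  obtain ⟨u', Y', X', m'⟩ := m.mir' d
  simpa using (mir3_ty d.o1).1 (m'.cB d.sw'.sw.sw' (n := k - 2 - n) (by omega) (by omega))

/-- The indices of the ports of `c`. -/
lemma cport (f : Fe c (P.it c n)) (h0 : -1 ≤ n) (h1 : n + 2 ≤ k) : n = -1 ∨ (5 ≤ n ∧ n + 7 ≤ k) := by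
  have : n ≠ 0 := fun e => d.e12 (by rw [← m.e3' d, ← e]; exact f)
  have : n ≠ -2 + k := fun e => d.e01 (P.sym _ _ (by rw [← m.j1 d, ← P.it_add, ← e]; exact f))
  have : ¬ (1 ≤ n ∧ n ≤ 4) := fun g => (m.cB d g.1 g.2).2.1 f
  have : ¬ ((k : ℤ) - 6 ≤ n ∧ n + 3 ≤ k) := fun g => (m.cA' d g.1 g.2).2.1 f
  omega

end VB

end PM

end Pool.Agent.P.MP_3f5ded_co.UG
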