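import Pool.Agent.P.MP_3f5ded_co.UJTop
import Pool.Agent.P.MP_3f5ded_co.UJB

set_option autoImplicit false

namespace Pool.Agent.P.MP_3f5ded_co.UG

namespace Spi
variable {W : Type} [Fintype W] [DecidableEq W] {k : ℕ} {r : ℝ} {S : Spi W} {l : W}
  {c d : W → W → ℝ}

/-- Case III with a mixed word of the second thin centre. -/
def Ta (S : Spi W) (k : ℕ) (r : ℝ) (C : W → W → ℝ) : Prop :=
  ∃ (P : PM W k r S.Fe) (Pt : Finset (W × W)) (x y c p q z1 z2 u : W) (Y X : W → ℤ) (a b : ℤ),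
    P.Rep C ∧ PM.D1 k S.Fe (S.Cq S.p' S.q') Pt x z1 z2 ∧
      P.III1 (S.Cq S.p' S.q') x y c p q z1 z2 u Y X a b ∧ P.Sh3 (S.Cq S.p' S.q') y b

/-- Case III where the second thin centre has only low edges. -/
def Tb (S : Spi W) (k : ℕ) (r : ℝ) (C : W → W → ℝ) : Prop :=
  ∃ (P : PM W k r S.Fe) (Pt : Finset (W × W)) (x y c p q z1 z2 u : W) (Y X : W → ℤ) (a b : ℤ),
    P.Rep C ∧ PM.D1 k S.Fe (S.Cq S.p' S.q') Pt x z1 z2 ∧
      P.III1 (S.Cq S.p' S.q') x y c p q z1 z2 u Y X a b ∧ y = z2 ∧ 1 ≤ b ∧ b + 3 ≤ k ∧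
        P.it y b = q ∧ ∀ n : ℤ, 1 ≤ n → n + 2 ≤ k → n ≠ b → P.Ty (S.Cq S.p' S.q') 0 y n

lemma T3.split (h : S.T3 k r c) : S.Ta k r c ∨ S.Tb k r c := by
  obtain ⟨P, Pt, R, x, y, c, p, q, z1, z2, u, Y, X, a, b, d, m⟩ := h
  rcases m.yw with g | g
  · exact Or.inl ⟨P, Pt, x, y, c, p, q, z1, z2, u, Y, X, a, b, R, d, m, g⟩
  · exact Or.inr ⟨P, Pt, x, y, c, p, q, z1, z2, u, Y, X, a, b, R, d, m, g⟩

/-- The list form of the ports that is used against the symmetric shape. -/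
def La (S : Spi W) (k : ℕ) (r : ℝ) (C : W → W → ℝ) : Prop :=
  ∃ (ρ : W → W → ℤ) (τ : W → W → ℝ) (t : ℝ) (X Y : W),
    (∀ x y, S.Fe x y → Cg r (C x y) (ρ x y + τ x y)) ∧
      ((X = S.p' ∧ Y = S.q') ∨ (X = S.q' ∧ Y = S.p')) ∧
        M0 S.Ix X Y k r (S.cA ρ) (S.cB ρ) (S.cA τ) (S.cB τ) t

/-- The list form of the ports in the symmetric shape. -/
def Lb (S : Spi W) (k : ℕ) (r : ℝ) (l : W) (C : W → W → ℝ) : Prop :=
  ∃ (φ : W → W → ℝ) (t m m' : ℝ) (X Y F H V U : W),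
    (∀ x y, S.Fe x y → Cg r (C x y) (φ x y)) ∧
      ((X = S.p' ∧ Y = S.q' ∧ F = S.p ∧ H = S.q) ∨ (X = S.q' ∧ Y = S.p' ∧ F = S.q ∧ H = S.p)) ∧
        M6 S.Ix X Y F H V U l k r (S.cA φ) (S.cB φ) t m m'

/-- What has to be excluded for the mixed shape. -/
structure NoA (S : Spi W) (k : ℕ) (r : ℝ) (l : W) : Prop where
  os : ∀ c d ρ τ t, S.Hy k r c ρ τ t → S.Ta k r d → S.Wm l r c d → False
  oo : ∀ c d ρ τ t, S.Hy k r c ρ τ t → S.Ta k r (fun x y => -d x y) → S.Wm l r c d → False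
  ss : ∀ c d, S.Ta k r c → S.Ta k r d → S.Wm l r c d → False
  so : ∀ c d, S.Ta k r c → S.Ta k r (fun x y => -d x y) → S.Wm l r c d → False

variable (h : S.Ok k) (hl : l ∈ S.L) (hr : r < k + 1) {σ : ℝ} (hσ : σ = 1 ∨ σ = -1)
include h hr hσ

omit [DecidableEq W] in
lemma Ok.lb_la (A : S.Lb k r l c) (G : S.La k r fun x y => -σ * d x y) (w : S.Wm l r c d) :
    False := by
  obtain ⟨φ, t, m, m', X, Y, F, H, V, U, a, n, A⟩ := A
  obtain ⟨ρ, τ, t', X', Y', b, n', G⟩ := G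
  obtain ⟨J, J'⟩ := h.jn (ρ := 0) (τ := φ) hσ w (by simpa using a) b
  exact A.zero h.big hr hσ G (rel (by tauto) n') J J'

omit [DecidableEq W] in
lemma Ok.lb_lb (A : S.Lb k r l c) (G : S.Lb k r l fun x y => -σ * d x y) (w : S.Wm l r c d) :
    False := by
  obtain ⟨φ, t, m, m', X, Y, F, H, V, U, a, n, A⟩ := A
  obtain ⟨φ', t', n1, n2, X', Y', F', H', V', U', b, n', G⟩ := G
  obtain ⟨J, J'⟩ := h.jn (ρ := 0) (τ := φ) (ρ' := 0) (τ' := φ') hσ w (by simpa using a)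
    (by simpa using b)
  refine A.six h.big hr hσ G ?_ J J'
  rcases n with ⟨rfl, rfl, rfl, rfl⟩ | ⟨rfl, rfl, rfl, rfl⟩ <;> tauto

include hl in
omit [DecidableEq W] in
lemma Ok.lb_hy {ρ : W → W → ℤ} {τ : W → W → ℝ} {t' : ℝ} (A : S.Lb k r l c)
    (G : S.Hy k r (fun x y => -σ * d x y) ρ τ t') (w : S.Wm l r c d) : False := by
  obtain ⟨φ, t, m, m', X, Y, F, H, V, U, a, n, A⟩ := A
  obtain ⟨J, J'⟩ := h.jn (ρ := 0) (τ := φ) hσ w (by simpa using a) G.cg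
  refine A.one h.big hr hσ h.even (h.m1 hl G) ?_ J J'
  rcases n with ⟨rfl, rfl, -, -⟩ | ⟨rfl, rfl, -, -⟩ <;> tauto

omit hσ in
include hl in
/-- Case III is excluded between wired copies, from the three remaining inputs. -/
theorem Ok.no3_of (N : S.NoA k r l) (ha : ∀ C, S.Ta k r C → S.La k r C)
    (hb : ∀ C, S.Tb k r C → S.Lb k r l C) : S.No3 k r l := by
  refine ⟨fun c d ρ τ t H G w => ?_, fun c d ρ τ t H G w => ?_, fun c d H G w => ?_,
    fun c d H G w => ?_⟩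
  · rcases G.split with G | G
    · exact N.os _ _ _ _ _ H G w
    · exact h.lb_hy hl hr (Or.inr rfl) (hb _ G) (by simpa using H) w.swap
  · rcases G.split with G | G
    · exact N.oo _ _ _ _ _ H G w
    · exact h.lb_hy hl hr (Or.inl rfl) (hb _ G) (by simpa using H) w.swap.neg
  · rcases H.split with H | H <;> rcases G.split with G | G
    · exact N.ss _ _ H G w
    · exact h.lb_la hr (Or.inr rfl) (hb _ G) (by simpa using ha _ H) w.swap
    · exact h.lb_la hr (Or.inr rfl) (hb _ H) (by simpa using ha _ G) w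
    · exact h.lb_lb hr (Or.inr rfl) (hb _ H) (by simpa using hb _ G) w
  · rcases H.split with H | H <;> rcases G.split with G | G
    · exact N.so _ _ H G w
    · exact h.lb_la hr (Or.inl rfl) (hb _ G) (by simpa using ha _ H) w.swap.neg
    · exact h.lb_la hr (Or.inl rfl) (hb _ H) (by simpa using ha _ G) w
    · exact h.lb_lb hr (Or.inl rfl) (hb _ H) (by simpa using hb _ G) w

end Spi

end Pool.Agent.P.MP_3f5ded_co.UG
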