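import Pool.Agent.P.MP_3f5ded_co.UVDefs

set_option autoImplicit false

namespace Pool.Agent.P.MP_3f5ded_co.UG

/-- Levels of two shared edges when the two copies are read in the same direction. -/
lemma uva_same {k : ℕ} {r β : ℝ} {n j : ℤ} (hr : r < k + 1) (hs : 0 ≤ 2 * r - 2 * k - 1)
    (hk : Even (k : ℤ)) (he : Even n) (h1 : (k : ℤ) + 2 ≤ n) (h2 : n ≤ 4 * k)
    (b1 : -(2 * r - 2 * k - 1) ≤ β) (b2 : β ≤ 2 * (2 * r - 2 * k - 1)) (e : n + β = j * r) :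
    n = 3 * k + 2 ∨ (n = 2 * k + 2 ∧ β < 0) := by
  have k0 : (0 : ℝ) ≤ k := Nat.cast_nonneg k
  have r0 : 0 ≤ r := by linarith
  have a1 : (k : ℝ) + 2 ≤ n := by exact_mod_cast h1
  have a2 : (n : ℝ) ≤ 4 * k := by exact_mod_cast h2
  obtain ⟨a, ha⟩ := hk
  obtain ⟨b, hb⟩ := he
  rcases le_or_gt j 1 with h | h
  · have : (j : ℝ) ≤ 1 := by exact_mod_cast h
    have := mul_le_mul_of_nonneg_right this r0
    linarith
  rcases le_or_gt 4 j with h' | h'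
  · have : (4 : ℝ) ≤ j := by exact_mod_cast h'
    have := mul_le_mul_of_nonneg_right this r0
    linarith
  obtain rfl | rfl : j = 2 ∨ j = 3 := by omega
  · push_cast at e
    have c1 : ((2 * k : ℤ) : ℝ) < n := by push_cast; linarith
    have c2 : (n : ℝ) < ((2 * k + 3 : ℤ) : ℝ) := by push_cast; linarith
    have c3 : n = 2 * k + 2 := by
      have := Int.cast_lt.1 c1
      have := Int.cast_lt.1 c2
      omega
    have c4 : (n : ℝ) = 2 * k + 2 := by exact_mod_cast c3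
    exact Or.inr ⟨c3, by linarith⟩
  · push_cast at e
    have c1 : ((3 * k + 1 : ℤ) : ℝ) < n := by push_cast; linarith
    have c2 : (n : ℝ) < ((3 * k + 4 : ℤ) : ℝ) := by push_cast; linarith
    have := Int.cast_lt.1 c1
    have := Int.cast_lt.1 c2
    omega

/-- Levels of two shared edges when the two copies are read in opposite directions. -/
lemma uva_opp {k : ℕ} {r β : ℝ} {n j : ℤ} (hr : r < k + 1) (hs : 0 ≤ 2 * r - 2 * k - 1)
    (h2k : 2 ≤ k) (hk : Even (k : ℤ)) (he : Even n) (h1 : 0 ≤ n) (h2 : n ≤ 2 * k)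
    (b1 : -(2 * (2 * r - 2 * k - 1)) ≤ β) (b2 : β ≤ 2 * (2 * r - 2 * k - 1)) (e : n + β = j * r) :
    (n = 0 ∧ β = 0) ∨ (n = k ∧ β = r - k) ∨ (n = k + 2 ∧ β = r - k - 2) := by
  have k0 : (2 : ℝ) ≤ k := by exact_mod_cast h2k
  have r0 : 0 ≤ r := by linarith
  have a1 : (0 : ℝ) ≤ n := by exact_mod_cast h1
  have a2 : (n : ℝ) ≤ 2 * k := by exact_mod_cast h2
  obtain ⟨a, ha⟩ := hk
  obtain ⟨b, hb⟩ := he
  rcases le_or_gt j (-1) with h | h
  · have : (j : ℝ) ≤ -1 := by exact_mod_cast h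
    have := mul_le_mul_of_nonneg_right this r0
    linarith
  rcases le_or_gt 2 j with h' | h'
  · have : (2 : ℝ) ≤ j := by exact_mod_cast h'
    have := mul_le_mul_of_nonneg_right this r0
    linarith
  obtain rfl | rfl : j = 0 ∨ j = 1 := by omega
  · push_cast at e
    have c2 : (n : ℝ) < ((2 : ℤ) : ℝ) := by push_cast; linarith
    have c3 : n = 0 := by
      have := Int.cast_lt.1 c2
      omega
    have c4 : (n : ℝ) = 0 := by exact_mod_cast c3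
    exact Or.inl ⟨c3, by linarith⟩
  · push_cast at e
    have c1 : ((k - 1 : ℤ) : ℝ) < n := by push_cast; linarith
    have c2 : (n : ℝ) < ((k + 3 : ℤ) : ℝ) := by push_cast; linarith
    have c3 : n = k ∨ n = k + 2 := by
      have := Int.cast_lt.1 c1
      have := Int.cast_lt.1 c2
      omega
    rcases c3 with c3 | c3
    · have c4 : (n : ℝ) = k := by exact_mod_cast c3
      exact Or.inr (Or.inl ⟨c3, by linarith⟩)
    · have c4 : (n : ℝ) = k + 2 := by exact_mod_cast c3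
      exact Or.inr (Or.inr ⟨c3, by linarith⟩)

namespace Spi
variable {W : Type} {S : Spi W} {k : ℕ} {l : W} {r : ℝ}

lemma fzp : S.Fe S.z S.p := Or.inl ⟨rfl, Or.inl rfl⟩
lemma fzq : S.Fe S.z S.q := Or.inl ⟨rfl, Or.inr (Or.inl rfl)⟩
lemma fzl (h : l ∈ S.L) : S.Fe S.z l := Or.inl ⟨rfl, Or.inr (Or.inr h)⟩
lemma fpp' : S.Fe S.p S.p' := Or.inr (Or.inr (Or.inl ⟨rfl, rfl⟩))
lemma fqq' : S.Fe S.q S.q' := Or.inr (Or.inr (Or.inr (Or.inr (Or.inl ⟨rfl, rfl⟩))))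

lemma Fe.symm {x y : W} (h : S.Fe x y) : S.Fe y x := by
  unfold Fe at h ⊢
  tauto

variable [Fintype W]

lemma Ok.fz (h : S.Ok k) {y : W} : S.Fe S.z y ↔ y = S.p ∨ y = S.q ∨ y ∈ S.L := by
  have := h.zp
  have := h.zp'
  have := h.zq
  have := h.zq'
  have := h.zL
  unfold Fe
  constructor
  · rintro (⟨-, g⟩ | ⟨-, g⟩ | g | g | g | g) <;> tauto
  · exact fun g => Or.inl ⟨rfl, g⟩

lemma Ok.nz (h : S.Ok k) {y : W} (g : S.Fe S.z y) : y ≠ S.z ∧ y ≠ S.p' ∧ y ≠ S.q' := by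
  rcases h.fz.1 g with rfl | rfl | g
  · exact ⟨h.zp.symm, h.pp', h.pq'⟩
  · exact ⟨h.zq.symm, h.p'q.symm, h.qq'⟩
  · exact ⟨fun e => h.zL (e ▸ g), fun e => h.p'L (e ▸ g), fun e => h.q'L (e ▸ g)⟩

lemma Ok.even (h : S.Ok k) : Even (k : ℤ) := ⟨S.L.card + 5, by have := h.cardL; omega⟩

variable {c : W → W → ℝ} {ρ : W → W → ℤ} {τ : W → W → ℝ} {t : ℝ}

/-- At most three even rounds carry no port of the centre other than the one towards `l`. -/
lemma Hx.four (h : S.Ok k) (hl : l ∈ S.L) (H : S.Hx k r c ρ τ t) {a b d e : ℤ} (h6 : 3 ≤ a)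
    (hab : a < b) (hbd : b < d) (hde : d < e) (he : 2 * e ≤ k + 2) :
    ∃ y, S.Fe S.z y ∧ y ≠ l ∧
      (ρ S.z y = 2 * a ∨ ρ S.z y = 2 * b ∨ ρ S.z y = 2 * d ∨ ρ S.z y = 2 * e) := by
  classical
  by_contra hc
  push Not at hc
  have hk := h.cardL
  have hZ : ∀ y ∈ insert S.p (insert S.q (S.L.erase l)), S.Fe S.z y ∧ y ≠ l := by
    intro y hy
    simp only [Finset.mem_insert, Finset.mem_erase] at hy
    rcases hy with rfl | rfl | hy
    · exact ⟨fzp, fun g => h.pL (g ▸ hl)⟩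
    · exact ⟨fzq, fun g => h.qL (g ▸ hl)⟩
    · exact ⟨fzl hy.2, hy.1⟩
  have key := Finset.card_le_card_of_injOn (s := insert S.p (insert S.q (S.L.erase l)))
    (t := ((((Finset.Icc (3 : ℤ) (S.L.card + 6)).erase a).erase b).erase d).erase e)
    (fun y => ρ S.z y / 2) (fun y hy => by
      obtain ⟨g1, g2⟩ := hZ y hy
      obtain ⟨⟨n, g3⟩, g4, g5⟩ := H.mid y g1
      obtain ⟨g6, g7, g8, g9⟩ := hc y g1 g2
      simp only [Finset.coe_erase, Set.mem_sdiff, Finset.coe_Icc, Set.mem_Icc, Set.mem_singleton_iff]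
      omega) (fun y hy y' hy' g => by
      obtain ⟨⟨n, g3⟩, -⟩ := H.mid y (hZ y hy).1
      obtain ⟨⟨n', g4⟩, -⟩ := H.mid y' (hZ y' hy').1
      simp only at g
      exact (H.inj _ _ _ _ (hZ y hy).1 (hZ y' hy').1 (by omega)).2)
  rw [Finset.card_insert_of_notMem (by simp [h.pq, h.pL]),
    Finset.card_insert_of_notMem (by simp [h.qL]), Finset.card_erase_of_mem hl,
    Finset.card_erase_of_mem (by simp; omega), Finset.card_erase_of_mem (by simp; omega),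
    Finset.card_erase_of_mem (by simp; omega), Finset.card_erase_of_mem (by simp; omega),
    Int.card_Icc] at key
  have := Finset.card_pos.2 ⟨l, hl⟩
  omega

/-- Some late port sits at round `2 k - 1`. -/
lemma Hx.top (h : S.Ok k) (H : S.Hx k r c ρ τ t) :
    ρ S.p S.p' = 2 * k - 1 ∨ ρ S.q S.q' = 2 * k - 1 ∨ ∃ y, S.Fe S.z y ∧ ρ y S.z = 2 * k - 1 := by
  classical
  by_contra hc
  push Not at hc
  obtain ⟨c1, c2, c3⟩ := hc
  have hk := h.cardL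
  let T : Finset (W × W) := insert (S.p, S.p') (insert (S.q, S.q')
    ((insert S.p (insert S.q S.L)) ×ˢ {S.z}))
  have hT : ∀ d ∈ T, S.Fe d.1 d.2 ∧ Odd (ρ d.1 d.2) ∧ k + 5 ≤ ρ d.1 d.2 ∧ ρ d.1 d.2 ≤ 2 * k + 1 ∧
      ρ d.1 d.2 ≠ 2 * k - 1 := by
    rintro ⟨y, y'⟩ hd
    simp only [T, Finset.mem_insert, Finset.mem_product, Finset.mem_singleton, Prod.mk.injEq] at hd
    rcases hd with ⟨rfl, rfl⟩ | ⟨rfl, rfl⟩ | ⟨hy, rfl⟩
    · obtain ⟨g1, g2, g3⟩ := H.late _ _ fpp' h.zp.symm h.pp' h.pq'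
      exact ⟨fpp', g1, g2, g3, c1⟩
    · obtain ⟨g1, g2, g3⟩ := H.late _ _ fqq' h.zq.symm h.p'q.symm h.qq'
      exact ⟨fqq', g1, g2, g3, c2⟩
    · have g := h.fz.2 hy
      obtain ⟨g1, g2, g3⟩ := H.late _ _ g.symm (h.nz g).1 (h.nz g).2.1 (h.nz g).2.2
      exact ⟨g.symm, g1, g2, g3, c3 y g⟩
  have key := Finset.card_le_card_of_injOn (s := T)
    (t := (Finset.Icc ((S.L.card : ℤ) + 7) k).erase (k - 1))
    (fun d => ρ d.1 d.2 / 2) (fun d hd => by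
      obtain ⟨-, ⟨n, g3⟩, g4, g5, g6⟩ := hT d hd
      simp only [Finset.coe_erase, Set.mem_sdiff, Finset.coe_Icc, Set.mem_Icc, Set.mem_singleton_iff]
      omega) (fun d hd d' hd' g => by
      obtain ⟨g1, ⟨n, g3⟩, -⟩ := hT d hd
      obtain ⟨g2, ⟨n', g4⟩, -⟩ := hT d' hd'
      simp only at g
      obtain ⟨g5, g6⟩ := H.inj _ _ _ _ g1 g2 (by omega)
      exact Prod.ext g5 g6)
  rw [Finset.card_insert_of_notMem (by simp [h.pq, h.zp', h.zp'.symm]),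
    Finset.card_insert_of_notMem (by simp [h.zq', h.zq'.symm]), Finset.card_product, Finset.card_singleton,
    Finset.card_insert_of_notMem (by simp [h.pq, h.pL]),
    Finset.card_insert_of_notMem h.qL,
    Finset.card_erase_of_mem (by have := h.big; simp; omega), Int.card_Icc] at key
  omega

/-- The direct wires between two copies of the block. -/
structure Wi (S : Spi W) (l : W) (r : ℝ) (c d : W → W → ℝ) : Prop where
  zy : ∀ y, S.Fe S.z y → y ≠ l → Cg r (c S.z y) (d y S.z)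
  yz : ∀ y, S.Fe S.z y → y ≠ l → Cg r (c y S.z) (d S.z y)
  ka : Cg r (c S.q' S.q) (d S.q S.q')
  al : Cg r (c l S.z) (d S.p' S.p)

omit [Fintype W] in
lemma Wi.neg {c d : W → W → ℝ} (h : S.Wi l r c d) :
    S.Wi l r (fun x y => -c x y) (fun x y => -d x y) :=
  ⟨fun y a b => (h.zy y a b).neg, fun y a b => (h.yz y a b).neg, h.ka.neg, h.al.neg⟩

lemma Hx.lz (h : S.Ok k) (H : S.Hx k r c ρ τ t) {y : W} (g : S.Fe S.z y) :
    Odd (ρ y S.z) ∧ k + 5 ≤ ρ y S.z ∧ ρ y S.z ≤ 2 * k + 1 :=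
  H.late _ _ g.symm (h.nz g).1 (h.nz g).2.1 (h.nz g).2.2

lemma Hx.lq (h : S.Ok k) (H : S.Hx k r c ρ τ t) :
    Odd (ρ S.q S.q') ∧ k + 5 ≤ ρ S.q S.q' ∧ ρ S.q S.q' ≤ 2 * k - 1 := by
  obtain ⟨⟨n, g1⟩, g2, g3⟩ := H.late _ _ fqq' h.zq.symm h.p'q.symm h.qq'
  obtain ⟨y, hy, g4, -⟩ := H.last
  have g5 : ρ S.q S.q' ≠ ρ y S.z := fun e => h.zq' (H.inj _ _ _ _ fqq' (fzl hy).symm e).2.symm
  exact ⟨⟨n, g1⟩, g2, by omega⟩

omit [Fintype W] in
lemma Hx.slack (H : S.Hx k r c ρ τ t) : 0 ≤ 2 * r - 2 * k - 1 := by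
  have := H.lo _ _ fzp
  have := H.hi _ _ fzp
  linarith

variable {d : W → W → ℝ} {ρ' : W → W → ℤ} {τ' : W → W → ℝ} {t' : ℝ}

/-- One half of the argument for equal directions: where a shared port of the centre can sit. -/
lemma Hx.side (h : S.Ok k) (hr : r < k + 1) (H : S.Hx k r c ρ τ t) (G : S.Hx k r d ρ' τ' t')
    {x y x' y' u : W} (f : S.Fe x y) (f' : S.Fe x' y') (hx : x' ≠ S.z) (e1 : ρ x y = 2 ∨ ρ x y = 4)
    (e2 : Odd (ρ' x' y') ∧ k + 5 ≤ ρ' x' y' ∧ ρ' x' y' ≤ 2 * k + 1) (w : Cg r (c x y) (d x' y'))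
    (g : S.Fe S.z u) (w' : Cg r (c u S.z) (d S.z u)) :
    ρ' S.z u + k + 1 ≤ ρ' x' y' - ρ x y ∨
      (ρ' x' y' - ρ x y + ρ u S.z - ρ' S.z u = 2 * k + 2 ∧ ρ' x' y' + 5 ≤ ρ' S.z u + k) := by
  obtain ⟨⟨a, a1⟩, a2, a3⟩ := e2
  obtain ⟨⟨b, b1⟩, b2, b3⟩ := H.lz h g
  obtain ⟨⟨e, c1⟩, c2, c3⟩ := G.mid u g
  obtain ⟨n, hn⟩ := h.even
  have hk := h.big
  obtain ⟨i, hi⟩ := (H.cg _ _ f).symm.trans (w.trans (G.cg _ _ f'))
  obtain ⟨j, hj⟩ := (H.cg _ _ g.symm).symm.trans (w'.trans (G.cg _ _ g))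
  have m1 := H.mono _ _ _ _ f g.symm (by omega) (by omega)
  have l1 := H.lo _ _ f
  have l2 := H.hi _ _ g.symm
  have l3 := G.lo _ _ f'
  have l4 := G.hi _ _ f'
  have l5 := G.lo _ _ g
  have l6 := G.hi _ _ g
  rcases uva_same (n := ρ' x' y' - ρ x y + ρ u S.z - ρ' S.z u) (j := j - i)
    (β := τ' x' y' - τ' S.z u + (τ u S.z - τ x y)) hr H.slack h.even
    ⟨a + b + 1 - e - ρ x y / 2, by omega⟩ (by omega) (by omega) (by linarith) (by linarith)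
    (by push_cast; linarith) with k1 | ⟨k1, k2⟩
  · exact Or.inl (by omega)
  · refine Or.inr ⟨k1, ?_⟩
    by_contra hc
    have := G.walk u x' y' g f' hx (by omega)
    linarith

/-- The two copies are never read in the same direction. -/
theorem Hx.same (h : S.Ok k) (hl : l ∈ S.L) (hr : r < k + 1) (H : S.Hx k r c ρ τ t)
    (G : S.Hx k r d ρ' τ' t') (w : S.Wi l r c d) : False := by
  have hk := h.big
  have e1 : ρ S.q' S.q = 2 ∨ ρ S.q' S.q = 4 := by have := H.early; omega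
  have e2 : ρ' S.p' S.p = 2 ∨ ρ' S.p' S.p = 4 := by have := G.early; omega
  obtain ⟨⟨a, a1⟩, a2, a3⟩ := G.lq h
  obtain ⟨⟨b, b1⟩, b2, b3⟩ := H.lz h (fzl hl)
  obtain ⟨n, hn⟩ := h.even
  have s1 := fun u g g' => H.side h hr G fqq'.symm fqq' h.zq.symm e1 ⟨⟨a, a1⟩, a2, by omega⟩ w.ka
    (u := u) g (w.yz u g g')
  have s2 := fun u g g' => G.side h hr H fpp'.symm (fzl hl).symm (h.nz (fzl hl)).1 e2
    ⟨⟨b, b1⟩, b2, b3⟩ w.al.symm (u := u) g (w.zy u g g').symm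
  have key : ρ' S.q S.q' - ρ S.q' S.q + (ρ l S.z - ρ' S.p' S.p) = 3 * k + 2 := by
    obtain ⟨i, hi⟩ := (H.cg _ _ fqq'.symm).symm.trans (w.ka.trans (G.cg _ _ fqq'))
    obtain ⟨j, hj⟩ := (H.cg _ _ (fzl hl).symm).symm.trans (w.al.trans (G.cg _ _ fpp'.symm))
    have m1 := H.mono _ _ _ _ fqq'.symm (fzl hl).symm (by omega) (by omega)
    have m2 := G.mono _ _ _ _ fpp'.symm fqq' (by omega) (by omega)
    have l1 := H.lo _ _ fqq'.symm
    have l2 := H.hi _ _ (fzl hl).symm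
    have l3 := G.lo _ _ fpp'.symm
    have l4 := G.hi _ _ fqq'
    rcases uva_same (n := ρ' S.q S.q' - ρ S.q' S.q + (ρ l S.z - ρ' S.p' S.p)) (j := j - i)
      (β := τ' S.q S.q' - τ' S.p' S.p + (τ l S.z - τ S.q' S.q)) hr H.slack h.even
      ⟨a + b + 1 - ρ S.q' S.q / 2 - ρ' S.p' S.p / 2, by omega⟩ (by omega) (by omega)
      (by linarith [H.slack]) (by linarith) (by push_cast; linarith) with k1 | ⟨-, k2⟩
    · exact k1
    · linarith
  have two : ∀ {c : W → W → ℝ} {ρ : W → W → ℤ} {τ : W → W → ℝ} {t : ℝ}, S.Hx k r c ρ τ t →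
      ∃ y, S.Fe S.z y ∧ y ≠ l ∧ (ρ S.z y = 6 ∨ ρ S.z y = 8) := by
    intro c ρ τ t H
    obtain ⟨y, g1, g2⟩ := H.six
    obtain ⟨y', g3, g4⟩ := H.eight
    by_cases e : y = l
    · exact ⟨y', g3, fun e' => by rw [e, ← e'] at g2; omega, Or.inr g4⟩
    · exact ⟨y, g1, e, Or.inl g2⟩
  obtain ⟨y1, f1, n1, g1⟩ := two G
  obtain ⟨y2, f2, n2, g2⟩ := two H
  have t1 := s1 y1 f1 n1
  have t2 := s2 y2 f2 n2
  obtain ⟨u, hu⟩ : ∃ u, ρ' S.q S.q' - ρ S.q' S.q = k + 2 * u - 1 :=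
    ⟨a + 1 - n - ρ S.q' S.q / 2, by omega⟩
  obtain ⟨y3, f3, n3, g3⟩ := G.four h hl (a := u) (b := u + 1) (d := u + 2) (e := n + 1)
    (by omega) (by omega) (by omega) (by omega) (by omega)
  have t3 := s1 y3 f3 n3
  have t4 : ρ y3 S.z ≠ ρ l S.z := fun e => n3 (H.inj _ _ _ _ f3.symm (fzl hl).symm e).1
  obtain ⟨y4, f4, n4, g4⟩ := H.four h hl (a := n + 2 - u) (b := n + 3 - u) (d := n + 4 - u)
    (e := n + 5 - u) (by omega) (by omega) (by omega) (by omega) (by omega)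
  have t5 := s2 y4 f4 n4
  omega

/-- Opposite directions: the two free pairs share the slack. -/
theorem Hx.opp (h : S.Ok k) (hl : l ∈ S.L) (hr : r < k + 1) (H : S.Hx k r c ρ τ t)
    (G : S.Hx k r (fun x y => -d x y) ρ' τ' t') (w : S.Wi l r c d) :
    cd r (c S.p' S.p) (d l S.z) + cd r (c S.q S.q') (d S.q' S.q) ≤ 2 * r - 2 * k - 1 := by
  have hk := h.big
  have hs := H.slack
  have k0 : (12 : ℝ) ≤ k := by exact_mod_cast hk
  have r0 : 0 < r := by linarith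
  have e1 := H.early
  have e2 := G.early
  obtain ⟨⟨a, a1⟩, a2, a3⟩ := G.lq h
  obtain ⟨n, hn⟩ := h.even
  have sh : ∀ {x y x' y' : W}, S.Fe x y → S.Fe x' y' → Cg r (c x y) (d x' y') →
      ∃ j : ℤ, (ρ x y : ℝ) + ρ' x' y' + (τ x y + τ' x' y') = j * r := by
    intro x y x' y' f f' e
    obtain ⟨i, hi⟩ := (H.cg _ _ f).symm.trans e
    obtain ⟨j, hj⟩ := G.cg _ _ f'
    exact ⟨i - j, by push_cast; linarith⟩
  obtain ⟨i, hi⟩ := sh fqq'.symm fqq' w.ka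
  have lev : ∀ {x y x' y' : W}, S.Fe x y → S.Fe x' y' → Cg r (c x y) (d x' y') →
      Odd (ρ x y + ρ' x' y') → ρ S.q' S.q + ρ' S.q S.q' ≤ ρ x y + ρ' x' y' →
      ρ x y + ρ' x' y' ≤ 3 * k + 3 →
      (ρ x y + ρ' x' y' = ρ S.q' S.q + ρ' S.q S.q' ∧
        τ x y + τ' x' y' = τ S.q' S.q + τ' S.q S.q') ∨
      (ρ x y + ρ' x' y' = ρ S.q' S.q + ρ' S.q S.q' + k ∧
        τ x y + τ' x' y' = τ S.q' S.q + τ' S.q S.q' + (r - k)) ∨
      (ρ x y + ρ' x' y' = ρ S.q' S.q + ρ' S.q S.q' + k + 2 ∧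
        τ x y + τ' x' y' = τ S.q' S.q + τ' S.q S.q' + (r - k - 2)) := by
    intro x y x' y' f f' e ⟨b, b1⟩ b2 b3
    obtain ⟨j, hj⟩ := sh f f' e
    have l1 := H.lo _ _ f
    have l2 := H.hi _ _ f
    have l3 := G.lo _ _ f'
    have l4 := G.hi _ _ f'
    have l5 := H.lo _ _ fqq'.symm
    have l6 := H.hi _ _ fqq'.symm
    have l7 := G.lo _ _ fqq'
    have l8 := G.hi _ _ fqq'
    rcases uva_opp (n := ρ x y + ρ' x' y' - (ρ S.q' S.q + ρ' S.q S.q')) (j := j - i)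
      (β := τ x y + τ' x' y' - (τ S.q' S.q + τ' S.q S.q')) hr hs (by omega) h.even
      ⟨b - a - ρ S.q' S.q / 2, by omega⟩ (by omega) (by omega) (by linarith) (by linarith)
      (by push_cast; linarith) with ⟨k1, k2⟩ | ⟨k1, k2⟩ | ⟨k1, k2⟩
    · exact Or.inl ⟨by omega, by linarith⟩
    · exact Or.inr (Or.inl ⟨by omega, by linarith⟩)
    · exact Or.inr (Or.inr ⟨by omega, by linarith⟩)
  obtain ⟨y, hy, y1, y2⟩ := H.last
  have l5 := H.lo _ _ fqq'.symm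
  have l6 := H.hi _ _ fqq'.symm
  have l7 := G.lo _ _ fqq'
  have l8 := G.hi _ _ fqq'
  have hyl : y = l := by
    by_contra e
    obtain ⟨⟨b, b1⟩, b2, b3⟩ := G.mid y (fzl hy)
    have l3 := G.lo _ _ (fzl hy)
    rcases lev (fzl hy).symm (fzl hy) (w.yz y (fzl hy) e) ⟨k + b, by omega⟩ (by omega) (by omega)
      with ⟨k1, -⟩ | ⟨k1, k2⟩ | ⟨-, k2⟩
    · omega
    · have := G.walk y _ _ (fzl hy) fqq' h.zq.symm (by omega)
      linarith
    · linarith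
  subst hyl
  have l3 := G.lo _ _ fpp'.symm
  have m0 := G.mono _ _ _ _ fpp'.symm fqq' (by omega) (by omega)
  obtain ⟨k1, k2⟩ : ρ y S.z + ρ' S.p' S.p = ρ S.q' S.q + ρ' S.q S.q' ∧
      τ y S.z + τ' S.p' S.p = τ S.q' S.q + τ' S.q S.q' := by
    rcases lev (fzl hy).symm fpp'.symm w.al ⟨k + ρ' S.p' S.p / 2, by omega⟩ (by omega) (by omega)
      with k1 | ⟨-, k2⟩ | ⟨-, k2⟩
    · exact k1
    · linarith
    · linarith
  have v1 : ρ S.p' S.p = 2 := by omega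
  have v2 : ρ S.q' S.q = 4 := by omega
  have v3 : ρ' S.p' S.p = 2 := by omega
  have v4 : ρ' S.q' S.q = 4 := by omega
  have v5 : ρ' S.q S.q' = 2 * k - 1 := by omega
  have v6 : ρ S.q S.q' = 2 * k - 1 := by
    rcases H.top h with g | g | ⟨u, g, g'⟩
    · have := H.ownp _ fpp' g
      omega
    · exact g
    · have e : u ≠ y := fun e => by rw [e] at g'; omega
      obtain ⟨⟨b, b1⟩, b2, b3⟩ := G.mid u g
      have := lev g.symm g (w.yz u g e) ⟨k - 1 + b, by omega⟩ (by omega) (by omega)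
      omega
  obtain ⟨u, hu, u1, u2⟩ := G.last
  have hul : u = y := by
    by_contra e
    obtain ⟨⟨b, b1⟩, b2, b3⟩ := H.mid u (fzl hu)
    have := H.ownq _ u fqq' v6 (fzl hu)
    have := lev (fzl hu) (fzl hu).symm (w.zy u (fzl hu) e) ⟨k + b, by omega⟩ (by omega) (by omega)
    omega
  subst hul
  have m1 := H.mono _ _ _ _ fpp'.symm fqq'.symm (by omega) (by omega)
  have m2 := H.mono _ _ _ _ fqq'.symm fqq' (by omega) (by omega)
  have m3 := G.mono _ _ _ _ fpp'.symm fqq'.symm (by omega) (by omega)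
  have m4 := G.mono _ _ _ _ fqq'.symm fqq' (by omega) (by omega)
  have l1 := H.lo _ _ fpp'.symm
  have l2 := H.hi _ _ fqq'
  obtain ⟨i1, j1⟩ := H.cg _ _ fpp'.symm
  obtain ⟨i2, j2⟩ := G.cg _ _ (fzl hu).symm
  obtain ⟨i3, j3⟩ := H.cg _ _ fqq'
  obtain ⟨i4, j4⟩ := G.cg _ _ fqq'.symm
  rw [v1] at j1
  rw [u1] at j2
  rw [v6] at j3
  rw [v4] at j4
  rw [v2, v5] at hi
  push_cast at j1 j2 j3 j4 hi
  have c1 : cd r (c S.p' S.p) (d u S.z) ≤ |τ' S.p' S.p - t' - (τ S.p' S.p - t)| :=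
    cd_le_of r0 ⟨-i1 - i2 - i, by push_cast; linarith⟩
  have c2 : cd r (c S.q S.q') (d S.q' S.q) ≤
      |τ S.q' S.q + τ' S.q S.q' - τ' S.q' S.q - τ S.q S.q'| :=
    cd_le_of r0 ⟨-i3 - i4 - i, by push_cast; linarith⟩
  have c3 : |τ' S.p' S.p - t' - (τ S.p' S.p - t)| ≤ τ S.q' S.q - t :=
    abs_le.2 ⟨by linarith, by linarith⟩
  have c4 : |τ S.q' S.q + τ' S.q S.q' - τ' S.q' S.q - τ S.q S.q'| ≤
      t + (2 * r - 2 * k - 1) - τ S.q' S.q := abs_le.2 ⟨by linarith, by linarith⟩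
  linarith

lemma uva_cdneg {r : ℝ} (hr : 0 < r) (x y : ℝ) : cd r x y ≤ cd r (-x) (-y) := by
  obtain ⟨u, hu, e⟩ := cd_lift r (-x) (-y)
  rw [← e, ← abs_neg]
  refine cd_le_of hr ?_
  have := hu.neg
  rw [neg_neg] at this
  exact this.trans (Cg.of_eq (by ring))

/-- Two rigid copies wired as mirror images: the two free pairs share the slack. -/
theorem Rigid.pair (h : S.Ok k) (hl : l ∈ S.L) (hR : S.Rigid k) (h1 : 1 ≤ r) (hr : r < k + 1)
    (hc : S.Cl r c) (hd : S.Cl r d) (w : S.Wi l r c d) :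
    cd r (c S.p' S.p) (d l S.z) + cd r (c S.q S.q') (d S.q' S.q) ≤ 2 * r - 2 * k - 1 := by
  obtain ⟨ρ, τ, t, H | H⟩ := hR r c h1 hr hc <;> obtain ⟨ρ', τ', t', G | G⟩ := hR r d h1 hr hd
  · exact (H.same h hl hr G w).elim
  · exact H.opp h hl hr G w
  · have := H.opp h hl hr (d := fun x y => -d x y) (by simpa using G) w.neg
    have a := uva_cdneg (r := r) (by linarith) (c S.p' S.p) (d l S.z)
    have b := uva_cdneg (r := r) (by linarith) (c S.q S.q') (d S.q' S.q)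
    linarith
  · exact (H.same h hl hr G w.neg).elim

end Spi

end Pool.Agent.P.MP_3f5ded_co.UG
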