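import Pool.Agent.P.MP_3f5ded_co.UWA3
import Pool.Agent.P.MP_3f5ded_co.UVAr

set_option autoImplicit false

namespace Pool.Agent.P.MP_3f5ded_co.UG

namespace Spi
variable {W : Type} (S : Spi W)

/-- The indices of the wires. -/
def Ix (y : W) : Prop := S.Fe S.z y ∨ y = S.p' ∨ y = S.q'

open Classical in
/-- The port at a centre with index `y`. -/
noncomputable def pA (y : W) : W × W :=
  if y = S.p' then (S.p', S.p) else if y = S.q' then (S.q', S.q) else (S.z, y)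

open Classical in
/-- The port of the clique with index `y`. -/
noncomputable def pB (y : W) : W × W :=
  if y = S.p' then (S.q, S.q') else if y = S.q' then (S.p, S.p') else (y, S.z)

/-- Values along the ports at the centres. -/
noncomputable def cA {E : Type} (f : W → W → E) (y : W) : E := f (S.pA y).1 (S.pA y).2

/-- Values along the ports of the clique. -/
noncomputable def cB {E : Type} (f : W → W → E) (y : W) : E := f (S.pB y).1 (S.pB y).2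

variable {S} {k : ℕ} {l x y y' : W} {r t t' : ℝ} {c d τ τ' : W → W → ℝ} {ρ ρ' : W → W → ℤ}

lemma Ap : S.pA S.p' = (S.p', S.p) := if_pos rfl
lemma Bp : S.pB S.p' = (S.q, S.q') := if_pos rfl

lemma Wm.neg (w : S.Wm l r c d) : S.Wm l r (fun x y => -c x y) (fun x y => -d x y) :=
  ⟨fun y a b => (w.zy y a b).neg, fun y a b => (w.yz y a b).neg, w.pa.neg, w.pb.neg, w.qa.neg,
    w.qb.neg⟩

variable [Fintype W] (h : S.Ok k)
include h

lemma Ok.Aq : S.pA S.q' = (S.q', S.q) := by simp [pA, h.p'q'.symm]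
lemma Ok.Bq : S.pB S.q' = (S.p, S.p') := by simp [pB, h.p'q'.symm]
lemma Ok.Az (g : S.Fe S.z y) : S.pA y = (S.z, y) := by simp [pA, h.nz g]
lemma Ok.Bz (g : S.Fe S.z y) : S.pB y = (y, S.z) := by simp [pB, h.nz g]

lemma Ok.nce (g : S.Fe S.z y) : ¬ S.Ce y := by
  have := h.nz g
  unfold Ce
  tauto

lemma Ok.feA (g : S.Ix y) : S.Fe (S.pA y).1 (S.pA y).2 ∧ S.Ce (S.pA y).1 := by
  rcases g with g | rfl | rfl
  · rw [h.Az g]; exact ⟨g, Or.inl rfl⟩
  · rw [Ap]; exact ⟨fpp'.symm, Or.inr (Or.inl rfl)⟩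
  · rw [h.Aq]; exact ⟨fqq'.symm, Or.inr (Or.inr rfl)⟩

lemma Ok.feB (g : S.Ix y) : S.Fe (S.pB y).1 (S.pB y).2 ∧ ¬ S.Ce (S.pB y).1 := by
  rcases g with g | rfl | rfl
  · rw [h.Bz g]; exact ⟨g.symm, h.nce g⟩
  · rw [Bp]; exact ⟨fqq', h.nce fzq⟩
  · rw [h.Bq]; exact ⟨fpp', h.nce fzp⟩

lemma Ok.injA (g : S.Ix y) (g' : S.Ix y')
    (e : (S.pA y).1 = (S.pA y').1 ∧ (S.pA y).2 = (S.pA y').2) : y = y' := by
  have := h.zp'
  have := h.zq'
  have := h.p'q'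
  rcases g with g | rfl | rfl <;> rcases g' with g' | rfl | rfl <;>
    simp only [Ap, h.Aq, h.Az, *] at e <;> tauto

lemma Ok.injB (g : S.Ix y) (g' : S.Ix y')
    (e : (S.pB y).1 = (S.pB y').1 ∧ (S.pB y).2 = (S.pB y').2) : y = y' := by
  have := h.zp'
  have := h.zq'
  have := h.p'q'
  rcases g with g | rfl | rfl <;> rcases g' with g' | rfl | rfl <;>
    simp only [Bp, h.Bq, h.Bz, *] at e <;> tauto

lemma Ok.sur (f : S.Fe x y) : ∃ u, S.Ix u ∧ (S.pA u = (x, y) ∨ S.pB u = (x, y)) := by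
  rcases f with ⟨rfl, g⟩ | ⟨rfl, g⟩ | ⟨rfl, rfl⟩ | ⟨rfl, rfl⟩ | ⟨rfl, rfl⟩ | ⟨rfl, rfl⟩
  · exact ⟨y, Or.inl (h.fz.2 g), Or.inl (h.Az (h.fz.2 g))⟩
  · exact ⟨x, Or.inl (h.fz.2 g), Or.inr (h.Bz (h.fz.2 g))⟩
  · exact ⟨_, Or.inr (Or.inr rfl), Or.inr h.Bq⟩
  · exact ⟨_, Or.inr (Or.inl rfl), Or.inl Ap⟩
  · exact ⟨_, Or.inr (Or.inl rfl), Or.inr Bp⟩
  · exact ⟨_, Or.inr (Or.inr rfl), Or.inl h.Aq⟩

lemma Ok.surA (f : S.Fe x y) (g : S.Ce x) : ∃ u, S.Ix u ∧ S.cA ρ u = ρ x y := by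
  obtain ⟨u, hu, e | e⟩ := h.sur f
  · exact ⟨u, hu, by rw [cA, e]⟩
  · exact absurd (by rwa [e]) (h.feB hu).2

lemma Ok.surB (f : S.Fe x y) (g : ¬ S.Ce x) : ∃ u, S.Ix u ∧ S.cB ρ u = ρ x y := by
  obtain ⟨u, hu, e | e⟩ := h.sur f
  · exact absurd (by simpa [e] using (h.feA hu).2) g
  · exact ⟨u, hu, by rw [cB, e]⟩

lemma Ok.wire (w : S.Wm l r c d) (g : S.Ix y) (e : y ≠ l) :
    Cg r (S.cA c y) (S.cB d y) ∧ Cg r (S.cB c y) (S.cA d y) := by
  unfold cA cB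
  rcases g with g | rfl | rfl
  · rw [h.Az g, h.Bz g]; exact ⟨w.zy y g e, w.yz y g e⟩
  · rw [Ap, Bp]; exact ⟨w.pa, w.pb⟩
  · rw [h.Aq, h.Bq]; exact ⟨w.qa, w.qb⟩

/-- The first mode along the wires. -/
lemma Ok.m1 (hl : l ∈ S.L) (H : S.Hy k r c ρ τ t) :
    M1 S.Ix S.p' S.q' l k r (S.cA ρ) (S.cB ρ) (S.cA τ) (S.cB τ) t := by
  classical
  have hk := h.big
  have ep : S.cA ρ S.p' = ρ S.p' S.p := by rw [cA, Ap]
  have eq : S.cA ρ S.q' = ρ S.q' S.q := by rw [cA, h.Aq]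
  have ez : ∀ {E : Type} (f : W → W → E) {y}, S.Fe S.z y → S.cA f y = f S.z y := fun f y g => by
    rw [cA, h.Az g]
  have early := H.early
  have late : ∀ y, S.Ix y → Odd (S.cB ρ y) ∧ k + 5 ≤ S.cB ρ y ∧ S.cB ρ y ≤ 2 * k + 1 := fun y g =>
    H.late _ _ (h.feB g).1 (fun e => (h.feB g).2 (Or.inl e))
      (fun e => (h.feB g).2 (Or.inr (Or.inl e))) fun e => (h.feB g).2 (Or.inr (Or.inr e))
  have injb : ∀ y y', S.Ix y → S.Ix y' → S.cB ρ y = S.cB ρ y' → y = y' := fun y y' g g' e =>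
    h.injB g g' (H.inj _ _ _ _ (h.feB g).1 (h.feB g').1 e)
  have sm : ∀ y, S.Ix y → S.Fe S.z y ∨ S.cA ρ y = 2 ∨ S.cA ρ y = 4 := by
    rintro y (g | rfl | rfl)
    exacts [Or.inl g, Or.inr (by omega), Or.inr (by omega)]
  refine ⟨Or.inr (Or.inl rfl), Or.inr (Or.inr rfl), Or.inl (fzl hl), fun e => h.p'L (e ▸ hl),
    fun e => h.q'L (e ▸ hl), by omega, fun y g => ?_, late,
    fun y y' g g' e => h.injA g g' (H.inj _ _ _ _ (h.feA g).1 (h.feA g').1 e), injb, ?_,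
    fun n ⟨i, hi⟩ n1 n2 => ?_, fun n n1 n2 => ?_, fun y g => H.lo _ _ (h.feA g).1,
    fun y g => H.hi _ _ (h.feA g).1, fun y g => H.lo _ _ (h.feB g).1, fun y g => H.hi _ _ (h.feB g).1,
    fun y y' g g' e => ?_, fun y y' g g' e => ?_, fun e e' y g => ?_⟩
  · rcases sm y g with f | f | f
    · have := H.mid y f
      rw [ez ρ f]
      exact ⟨this.1, by omega, by omega⟩
    · rw [f]; exact ⟨⟨1, rfl⟩, by omega, by omega⟩
    · rw [f]; exact ⟨⟨2, rfl⟩, by omega, by omega⟩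
  · obtain ⟨u, hu, e⟩ := H.last
    exact ⟨u, Or.inl (fzl hu), fun g => h.p'L (g ▸ hu), fun g => h.q'L (g ▸ hu),
      by simpa only [cB, h.Bz (fzl hu)] using e⟩
  · by_contra hc
    push Not at hc
    have hL := h.cardL
    have hT : ∀ y ∈ insert S.p' (insert S.q' (insert S.p (insert S.q S.L))), S.Ix y := fun y g => by
      simp only [Finset.mem_insert, ← h.fz] at g
      unfold Ix
      tauto
    have key := Finset.card_le_card_of_injOn
      (s := insert S.p' (insert S.q' (insert S.p (insert S.q S.L))))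
      (t := (Finset.Icc ((S.L.card : ℤ) + 7) k).erase i) (fun y => S.cB ρ y / 2) (fun y g => by
        obtain ⟨⟨n, g3⟩, g4, g5⟩ := late y (hT y g)
        have := hc y (hT y g)
        simp only [Finset.coe_erase, Set.mem_sdiff, Finset.coe_Icc, Set.mem_Icc, Set.mem_singleton_iff]
        omega) fun y g y' g' e => by
        obtain ⟨⟨n, g3⟩, -⟩ := late y (hT y g)
        obtain ⟨⟨n', g4⟩, -⟩ := late y' (hT y' g')
        simp only at e
        exact injb y y' (hT y g) (hT y' g') (by omega)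
    rw [Finset.card_insert_of_notMem (by simp [h.p'q', h.pp'.symm, h.p'q, h.p'L]),
      Finset.card_insert_of_notMem (by simp [h.pq'.symm, h.qq'.symm, h.q'L]),
      Finset.card_insert_of_notMem (by simp [h.pq, h.pL]), Finset.card_insert_of_notMem h.qL,
      Finset.card_erase_of_mem (by simp; omega), Int.card_Icc] at key
    omega
  · obtain ⟨y, g, e, f⟩ := H.toHx.four h hl (a := n) (b := n + 1) (d := n + 2) (e := n + 3) n1
      (by omega) (by omega) (by omega) (by omega)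
    exact ⟨y, Or.inl g, e, by rw [ez ρ g]; omega⟩
  · by_cases f : S.cA ρ y ≤ 4
    · exact H.mono _ _ _ _ (h.feA g).1 (h.feA g').1 f e
    · have a := (sm y g).resolve_right (by omega)
      have b := (sm y' g').resolve_right (by omega)
      rw [ez ρ a, ez ρ b] at e
      rw [ez τ a, ez τ b]
      exact H.zmono y y' a b e
  · by_cases f : S.cA ρ y ≤ 4
    · exact H.mono _ _ _ _ (h.feA g).1 (h.feB g').1 f (by have := late y' g'; unfold cA cB at *; omega)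
    · have a := (sm y g).resolve_right (by omega)
      rw [ez ρ a] at e
      rw [ez τ a]
      exact H.walk _ _ _ a (h.feB g').1 (fun e => (h.feB g').2 (Or.inl e)) e
  · rcases sm y g with f | f
    · rw [cB, Bp] at e
      rw [cB, h.Bq] at e'
      rw [ez ρ f]
      exact H.own2 _ _ _ fpp' fqq' e' e f
    · omega

/-- The second mode along the wires. -/
lemma Ok.m3 (hl : l ∈ S.L) {f f' g g' : W} (H : S.H3 k r c ρ τ t f f' g g') :
    M3 S.Ix f' g' f l k r (S.cA ρ) (S.cB ρ) (S.cA τ) (S.cB τ) t := by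
  have hk := h.big
  obtain ⟨e1, e2, e3, e4, i1, i2, i3, n1, n2, n3, ff, fg, fe⟩ : S.pA f' = (f', f) ∧ S.pA g' = (g', g) ∧
      S.pB g' = (f, f') ∧ S.pB f' = (g, g') ∧ S.Ix f' ∧ S.Ix g' ∧ S.Fe S.z f ∧ f' ∉ S.L ∧ g' ∉ S.L ∧
      f ∉ S.L ∧ S.Fe f f' ∧ S.Fe g g' ∧ f ≠ g' ∧ ∀ y, S.Fe f y → y = f' ∨ y = S.z := by
    have := h.zp
    have := h.zq
    have := h.pp'
    have := h.pq
    have := h.pq'
    have := h.p'q
    have := h.qq'
    rcases H.nm with ⟨rfl, rfl, rfl, rfl⟩ | ⟨rfl, rfl, rfl, rfl⟩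
    · exact ⟨Ap, h.Aq, h.Bq, Bp, Or.inr (Or.inl rfl), Or.inr (Or.inr rfl), fzp, h.p'L, h.q'L, h.pL,
        fpp', fqq', h.pq', fun y e => by unfold Fe at e; tauto⟩
    · exact ⟨h.Aq, Ap, Bp, h.Bq, Or.inr (Or.inr rfl), Or.inr (Or.inl rfl), fzq, h.q'L, h.p'L, h.qL,
        fqq', fpp', h.p'q.symm, fun y e => by unfold Fe at e; tauto⟩
  have lw : ∀ n : ℤ, n ≤ k + 4 → (Lw S.Ix (S.cB ρ) n ↔ S.Lo ρ n) := fun n m =>
    ⟨fun ⟨u, hu, e⟩ => ⟨_, _, (h.feB hu).1, e⟩, fun ⟨x, y, a, e⟩ =>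
      e ▸ h.surB a fun b => by have := H.rc x y a b; omega⟩
  have bf : ∀ {E : Type} (w : W → W → E), S.cB w g' = w f f' ∧ S.cB w f = w f S.z := fun w => by
    simp only [cB, e3, h.Bz i3, and_self]
  refine ⟨i1, i2, Or.inl i3, fun e => n1 (e ▸ hl), fun e => n2 (e ▸ hl), fun e => n3 (e ▸ hl), fe.1,
    fun y a => H.lo _ _ (h.feA a).1, fun y a => H.hi _ _ (h.feA a).1 (Or.inl (h.feA a).2),
    fun y a => H.lo _ _ (h.feB a).1, fun y a e => H.hi _ _ (h.feB a).1 (Or.inr e),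
    fun y a => H.hw _ _ (h.feB a).1,
    fun y y' a a' e => h.injB a a' (H.inj _ _ _ _ (h.feB a).1 (h.feB a').1 e),
    fun y y' a a' => H.lab _ _ _ _ (h.feA a).1 (h.feB a').1, by simpa only [cA, e2] using H.ry,
    by simpa only [cA, e1] using H.rx, fun y a => H.rc _ _ (h.feA a).1 (h.feA a).2,
    fun y a => H.rq _ _ (h.feB a).1 (h.feB a).2, ?_, ?_,
    fun y y' a a' e e' => H.walk _ _ _ _ (h.feB a).1 (h.feA a').1 e (h.feA a').2 e', ?_,
    fun y a => ?_, by simpa only [cB, e4] using H.lh g' fg,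
    fun n m a => by simpa only [cA, e1] using H.above n m ((lw n (by omega)).1 a), fun n o m a => ?_,
    fun A B a b => H.c1 A B (fun e m => ?_) fun o a1 a2 a3 a4 =>
      b o a1 a2 a3 ((lw o (by omega)).2 a4)⟩
  · obtain ⟨x, y, a, b, e⟩ := H.t0
    exact e ▸ h.surA a b
  · obtain ⟨x, y, a, b, e⟩ := H.t2
    exact e ▸ h.surA a b
  · obtain ⟨y, a, e⟩ := H.two
    rcases fe.2 y a with rfl | rfl
    · exact ⟨g', Or.inl rfl, by rwa [(bf ρ).1, (bf τ).1]⟩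
    · exact ⟨f, Or.inr rfl, by rwa [(bf ρ).2, (bf τ).2]⟩
  · obtain ⟨u, a, e⟩ : ∃ u, S.Fe f u ∧ S.cB ρ y = ρ f u := by
      rcases a with rfl | rfl
      exacts [⟨_, ff, (bf ρ).1⟩, ⟨_, i3.symm, (bf ρ).2⟩]
    obtain ⟨b1, b2⟩ := H.lf u a
    rw [e]
    exact ⟨b1, fun n m m' => (lw n (by omega)).trans (b2 n m m')⟩
  · obtain ⟨b1, b2, b3⟩ := H.iso n o m ((lw n (by omega)).1 a)
    exact ⟨b1, (lw _ (by omega)).2 b2, (lw _ (by omega)).2 b3⟩
  · obtain ⟨b1, b2, b3, b4⟩ := a e m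
    exact ⟨b1, b2, b3, fun w => b4 ((lw e (by omega)).2 w)⟩

/-- One of the two modes, along the wires. -/
lemma Ok.md (hl : l ∈ S.L) (H : S.Mo k r c) : ∃ (ρ : W → W → ℤ) (τ : W → W → ℝ) (t : ℝ),
    (∀ x y, S.Fe x y → Cg r (c x y) (ρ x y + τ x y)) ∧
    (M1 S.Ix S.p' S.q' l k r (S.cA ρ) (S.cB ρ) (S.cA τ) (S.cB τ) t ∨
      ∃ X Y F, ((X = S.p' ∧ Y = S.q') ∨ (X = S.q' ∧ Y = S.p')) ∧
        M3 S.Ix X Y F l k r (S.cA ρ) (S.cB ρ) (S.cA τ) (S.cB τ) t) := by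
  obtain ⟨ρ, τ, t, H | ⟨f, f', g, g', H⟩⟩ := H
  · exact ⟨ρ, τ, t, H.cg, Or.inl (h.m1 hl H)⟩
  · exact ⟨ρ, τ, t, H.cg, Or.inr ⟨f', g', f, by have := H.nm; tauto, h.m3 hl H⟩⟩

lemma Ok.jn {σ : ℝ} (hσ : σ = 1 ∨ σ = -1) (w : S.Wm l r c d)
    (H : ∀ x y, S.Fe x y → Cg r (c x y) (ρ x y + τ x y))
    (G : ∀ x y, S.Fe x y → Cg r (-σ * d x y) (ρ' x y + τ' x y)) :
    Jn S.Ix l r σ (S.cA ρ) (S.cB ρ') (S.cA τ) (S.cB τ') ∧
      Jn S.Ix l r σ (S.cA ρ') (S.cB ρ) (S.cA τ') (S.cB τ) := by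
  constructor <;> intro y g e
  · obtain ⟨i, e1⟩ := H _ _ (h.feA g).1
    obtain ⟨j, e2⟩ := G _ _ (h.feB g).1
    obtain ⟨n, e3⟩ := (h.wire w g e).1
    unfold cA cB at *
    rcases hσ with rfl | rfl
    · exact ⟨n - i - j, by push_cast; linarith⟩
    · exact ⟨n - i + j, by push_cast; linarith⟩
  · obtain ⟨i, e1⟩ := H _ _ (h.feB g).1
    obtain ⟨j, e2⟩ := G _ _ (h.feA g).1
    obtain ⟨n, e3⟩ := (h.wire w g e).2
    unfold cA cB at *
    rcases hσ with rfl | rfl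
    · exact ⟨n - i - j, by push_cast; linarith⟩
    · exact ⟨i - n - j, by push_cast; linarith⟩

omit h [Fintype W] in
lemma rel {X Y X' Y' : W} (a : (X = S.p' ∧ Y = S.q') ∨ (X = S.q' ∧ Y = S.p'))
    (b : (X' = S.p' ∧ Y' = S.q') ∨ (X' = S.q' ∧ Y' = S.p')) :
    (X' = X ∧ Y' = Y) ∨ (X' = Y ∧ Y' = X) := by
  rcases a with ⟨rfl, rfl⟩ | ⟨rfl, rfl⟩ <;> tauto

/-- Equal directions do not occur. -/
theorem Ok.sameM (hl : l ∈ S.L) (hr : r < k + 1) (H : S.Mo k r c) (G : S.Mo k r d)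
    (w : S.Wm l r c d) : False := by
  obtain ⟨ρ, τ, t, a, H⟩ := h.md hl H
  obtain ⟨ρ', τ', t', b, G⟩ := h.md hl G
  obtain ⟨J, J'⟩ := h.jn (σ := -1) (Or.inr rfl) w a (by simpa using b)
  rcases H with H | ⟨X, Y, F, e, H⟩ <;> rcases G with G | ⟨X', Y', F', e', G⟩
  · exact M1.same h.big h.even hr H G J J'
  · exact M1.three h.big h.even hr H G (Or.inr rfl) J
  · exact M1.three h.big h.even hr G H (Or.inr rfl) J'
  · exact M3.same h.big h.even hr H G (rel e e') J J'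

/-- Opposite directions. -/
theorem Ok.oppM (hl : l ∈ S.L) (hr : r < k + 1) (H : S.Mo k r c) (G : S.Mo k r fun x y => -d x y)
    (w : S.Wm l r c d) : cd r (c l S.z) (d l S.z) ≤ 2 * r - 2 * k - 1 ∧
      cd r (c l S.z) (d l S.z) + 5 - (2 * r - 2 * k - 1) ≤ cd r (d S.z l) (c S.z l) := by
  obtain ⟨ρ, τ, t, a, H⟩ := h.md hl H
  obtain ⟨ρ', τ', t', b, G⟩ := h.md hl G
  obtain ⟨J, J'⟩ := h.jn (σ := 1) (Or.inl rfl) w a (by simpa using b)
  rcases H with H | ⟨X, Y, F, e, H⟩ <;> rcases G with G | ⟨X', Y', F', e', G⟩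
  · obtain ⟨u, v, c1, c2, c3, c4, c5⟩ := M1.opp h.big h.even hr H G J J'
    have k0 : (12 : ℝ) ≤ k := by exact_mod_cast h.big
    have := H.slack
    have r0 : 0 < r := by linarith
    simp only [cA, cB, h.Az (fzl hl), h.Bz (fzl hl)] at c1 c2
    have d1 := (b _ _ (fzl hl).symm).neg
    have d2 := (b _ _ (fzl hl)).neg
    rw [neg_neg] at d1 d2
    have e1 := cd_le_of r0 (d1.trans (c1.trans ((a _ _ (fzl hl).symm).symm.add u)))
    have := abs_nonneg u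
    have e2 := cd_min r0 (d2.trans (c2.trans ((a _ _ (fzl hl)).symm.add v))) (by linarith) (by linarith)
    rw [cd_symm r0 (d S.z l), e2]
    exact ⟨by linarith, le_min (by linarith) (by linarith)⟩
  · exact (M1.three h.big h.even hr H G (Or.inl rfl) J).elim
  · exact (M1.three h.big h.even hr G H (Or.inl rfl) J').elim
  · exact (M3.opp h.big h.even hr H G (rel e e') J J').elim

omit h in
/-- Two copies of the block wired crosswise: one free pair is close, the other about five apart. -/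
theorem Rigid2.pair (h : S.Ok k) (hl : l ∈ S.L) (hR : S.Rigid2 k) (h1 : 1 ≤ r) (hr : r < k + 1)
    (hc : S.Cl r c) (hd : S.Cl r d) (w : S.Wm l r c d) :
    cd r (c l S.z) (d l S.z) ≤ 2 * r - 2 * k - 1 ∧
      cd r (c l S.z) (d l S.z) + 5 - (2 * r - 2 * k - 1) ≤ cd r (d S.z l) (c S.z l) := by
  rcases hR r c h1 hr hc with H | H <;> rcases hR r d h1 hr hd with G | G
  · exact (h.sameM hl hr H G w).elim
  · exact h.oppM hl hr H G w
  · have := h.oppM hl hr (d := fun x y => -d x y) H (by simpa using G) w.neg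
    have a := uva_cdneg (r := r) (by linarith) (c l S.z) (d l S.z)
    have b := uva_cdneg (r := r) (by linarith) (-d S.z l) (-c S.z l)
    rw [neg_neg, neg_neg] at b
    exact ⟨by linarith [this.1], by linarith [this.2]⟩
  · exact (h.sameM hl hr H G w.neg).elim

end Spi

end Pool.Agent.P.MP_3f5ded_co.UG
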