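import Pool.Agent.P.MP_3f5ded_co.UJPk1
import Pool.Agent.P.MP_3f5ded_co.UWAr
import Pool.Agent.P.MP_3f5ded_co.UJB

set_option autoImplicit false

namespace Pool.Agent.P.MP_3f5ded_co.UG

lemma M4.m0 {T : Type} {I : T → Prop} {X Y F l : T} {k : ℕ} {r t : ℝ} {a b : T → ℤ} {α β : T → ℝ}
    {B A : ℤ → Prop} (H : M4 I X Y F l k r a b α β t B A) : M0 I X Y k r a b α β t :=
  ⟨H.loa, H.hia, H.rc, H.ry, H.rx, fun y e => by
    have hy : I y := by rcases e with rfl | rfl; exacts [H.iX, H.iY]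
    have g := (H.fh y (by tauto)).1
    exact ⟨by have := H.rq y hy; omega, g, H.lob y hy, H.walk y X hy H.iX g (Or.inl rfl)⟩⟩

namespace Spi
variable {W : Type} {k : ℕ} {r : ℝ} {S : Spi W} {l : W} {c d : W → W → ℝ}

/-- The list form of the ports in the mixed shape of case III. -/
def L7 (S : Spi W) (k : ℕ) (r : ℝ) (l : W) (C : W → W → ℝ) : Prop :=
  ∃ (ρ : W → W → ℤ) (τ : W → W → ℝ) (t : ℝ) (X Y F : W) (B A L U : ℤ → Prop) (st : ℤ),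
    (∀ x y, S.Fe x y → Cg r (C x y) (ρ x y + τ x y)) ∧
      ((X = S.p' ∧ Y = S.q') ∨ (X = S.q' ∧ Y = S.p')) ∧
        M7 S.Ix X Y F l k r (S.cA ρ) (S.cB ρ) (S.cA τ) (S.cB τ) t B A L U st

variable [Fintype W] (h : S.Ok k) (hl : l ∈ S.L)
include h

section
include hl

theorem Ok.l7_of_w5 [DecidableEq W] {r' : ℝ} {P0 : PM W k r S.Fe} {P : PM W k r' S.Fe}
    (s : P0.Same P) (hC : P0.Rep c) {x y z f g z1 z2 u : W} {Y X : W → ℤ} {Pt : Finset (W × W)}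
    (m : P.W5 (S.Cq S.p' S.q') x y z f g z1 z2 u Y X)
    (d : PM.D1 k S.Fe (S.Cq S.p' S.q') Pt x z1 z2) : S.L7 k r l c := by
  have O := s.off hC
  generalize P0.off = o at O
  have ce : ∀ w, w ∉ S.Cq S.p' S.q' ↔ w = S.z ∨ w = S.p' ∨ w = S.q' := fun w => by
    rw [Spi.mem_cq]
    tauto
  have fz : S.Fe S.p S.z ∧ S.Fe S.q S.z := ⟨fzp.symm, fzq.symm⟩
  have nz : ∀ {t s}, (∀ w, S.Fe w t ↔ w = s) → t ≠ S.z := fun g e =>
    h.pq (((g _).1 (e ▸ fz.1)).trans ((g _).1 (e ▸ fz.2)).symm)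
  have hn : (f = S.p ∧ x = S.p' ∧ g = S.q ∧ y = S.q') ∨ (f = S.q ∧ x = S.q' ∧ g = S.p ∧ y = S.p') := by
    have fx := S.fe_symm _ _ ((m.sp.fx f).2 rfl)
    have fy := S.fe_symm _ _ ((m.sp.fy g).2 rfl)
    rcases ((ce x).1 d.o0).resolve_left (nz m.sp.fx) with rfl | rfl <;>
      rcases ((ce y).1 (m.oy d)).resolve_left (nz m.sp.fy) with rfl | rfl
    · exact absurd rfl (m.nes d).1
    · exact Or.inl ⟨(h.fe_p' f).1 fx, rfl, (h.fe_q' g).1 fy, rfl⟩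
    · exact Or.inr ⟨(h.fe_q' f).1 fx, rfl, (h.fe_p' g).1 fy, rfl⟩
    · exact absurd rfl (m.nes d).1
  obtain rfl : z = S.z := by
    have := (ce z).1 (m.oc d)
    obtain ⟨-, n2, n3⟩ := m.nes d
    rcases hn with ⟨-, rfl, -, rfl⟩ | ⟨-, rfl, -, rfl⟩ <;> tauto
  obtain ⟨e1, e2, e3, e4, lf, lg, ix⟩ : S.pA x = (x, f) ∧ S.pA y = (y, g) ∧ S.pB y = (f, x) ∧
      S.pB x = (g, y) ∧ l ≠ f ∧ l ≠ g ∧ ∀ t, S.Ix t ↔ t = x ∨ t = y ∨ S.Fe S.z t := by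
    rcases hn with ⟨rfl, rfl, rfl, rfl⟩ | ⟨rfl, rfl, rfl, rfl⟩
    · exact ⟨Ap, h.Aq, h.Bq, Bp, fun e => h.pL (e ▸ hl), fun e => h.qL (e ▸ hl),
        fun t => by unfold Ix; tauto⟩
    · exact ⟨h.Aq, Ap, Bp, h.Bq, fun e => h.qL (e ▸ hl), fun e => h.pL (e ▸ hl),
        fun t => by unfold Ix; tauto⟩
  have zq : ∀ t, S.Fe S.z t → t ∈ S.Cq S.p' S.q' := fun t e => Spi.mem_cq.2 (h.nz e)
  have ir : ∀ w t, S.Fe w t → t ≠ w := fun w t e e' => by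
    subst e'
    by_cases hw : t ∈ S.Cq S.p' S.q'
    · exact m.fl.cl t hw t hw e
    · rcases (ce t).1 hw with a | a | a <;> rw [a] at e
      · exact (h.nz e).1 rfl
      · exact h.pp' ((h.fe_p' _).1 e).symm
      · exact h.qq' ((h.fe_q' _).1 e).symm
  generalize S.Cq S.p' S.q' = Q at *
  have : ∀ w t, ∃ n, S.Fe w t → (if w ∈ Q then X w else 0) ≤ n ∧
      n < (if w ∈ Q then X w else 0) + k ∧ P.it w n = t := fun w t => by
    by_cases e : S.Fe w t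
    · obtain ⟨n, hn⟩ := P.win (ir w t e) (if w ∈ Q then X w else 0)
      exact ⟨n, fun _ => hn⟩
    · exact ⟨0, fun e' => absurd e' e⟩
  choose lv hv using this
  let ρ : W → W → ℤ := fun w t => if w ∈ Q then lv w t else lv w t + k + 1
  let τ : W → W → ℝ := fun w t => if w ∈ Q then o w (lv w t) else o w (lv w t) + (r - k - 1)
  have lq : ∀ {w t}, S.Fe w t → w ∈ Q → X w ≤ ρ w t ∧ ρ w t < X w + k ∧ P.it w (ρ w t) = t ∧
      τ w t = o w (ρ w t) := fun {w t} e hw => by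
    have := hv w t e
    simp only [ρ, τ, if_pos hw] at this ⊢
    exact ⟨this.1, this.2.1, this.2.2, trivial⟩
  have lc : ∀ {w t}, S.Fe w t → w ∉ Q → k + 1 ≤ ρ w t ∧ ρ w t ≤ 2 * k ∧
      P.it w (ρ w t - k - 1) = t ∧ τ w t = o w (ρ w t - k - 1) + (r - k - 1) := fun {w t} e hw => by
    have := hv w t e
    simp only [ρ, τ, if_neg hw] at this ⊢
    rw [show lv w t + k + 1 - k - 1 = lv w t by ring]
    exact ⟨by omega, by omega, this.2.2, rfl⟩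
  have L : P.Ls x y S.z f g X r o S.Ix (S.cA ρ) (S.cB ρ) (S.cA τ) (S.cB τ) := by
    refine ⟨ix, fun t z s e => ?_, fun t w s e => ?_⟩
    · unfold cA
      rcases e with ⟨rfl, rfl, rfl⟩ | ⟨rfl, rfl, rfl⟩ | ⟨e, rfl, rfl⟩
      · rw [e1]; exact lc (S.fe_symm _ _ ((m.sp.fx _).2 rfl)) d.o0
      · rw [e2]; exact lc (S.fe_symm _ _ ((m.sp.fy _).2 rfl)) (m.oy d)
      · rw [h.Az e]; exact lc e (m.oc d)
    · unfold cB
      rcases e with ⟨rfl, rfl, rfl⟩ | ⟨rfl, rfl, rfl⟩ | ⟨e, rfl, rfl⟩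
      · rw [e4]; exact lq ((m.sp.fy _).2 rfl) m.sp.hq
      · rw [e3]; exact lq ((m.sp.fx _).2 rfl) m.sp.hp
      · rw [h.Bz e]; exact lq e.symm (zq _ e)
  obtain ⟨st, M⟩ := m.m7 d L O (fzl hl) lf lg
  refine ⟨ρ, τ, _, x, y, f, _, _, _, _, st, fun w t e => ?_, by tauto, M⟩
  by_cases hw : w ∈ Q
  · obtain ⟨-, -, a3, a4⟩ := lq e hw
    have := O.rep w (ρ w t)
    rwa [a3, ← a4] at this
  · obtain ⟨-, -, a3, a4⟩ := lc e hw
    have := O.rep w (ρ w t - k - 1)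
    rw [a3] at this
    refine this.trans (Cg.down ?_)
    rw [a4]
    push_cast
    ring

/-- The mixed shape of case III in list form. -/
theorem Ok.l7 [DecidableEq W] {P : PM W k r S.Fe} (hC : P.Rep c) {x y z f g z1 z2 u : W}
    {Y X : W → ℤ} {a b : ℤ} {Pt : Finset (W × W)} (d : PM.D1 k S.Fe (S.Cq S.p' S.q') Pt x z1 z2)
    (m : P.III1 (S.Cq S.p' S.q') x y z f g z1 z2 u Y X a b) (s : P.Sh3 (S.Cq S.p' S.q') y b) :
    S.L7 k r l c := by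
  obtain ⟨r', P', X', e, w⟩ := m.w5 d s
  exact h.l7_of_w5 hl e hC w d

/-- The first mode does not fit to the mixed shape. -/
theorem Ok.hy_l7 (hr : r < k + 1) {σ t : ℝ} (hσ : σ = 1 ∨ σ = -1) {ρ : W → W → ℤ} {τ : W → W → ℝ}
    (H : S.Hy k r c ρ τ t) (G : S.L7 k r l fun x y => -σ * d x y) (w : S.Wm l r c d) : False := by
  obtain ⟨ρ', τ', t', X, Y, F, B, A, L, U, st, b, -, G⟩ := G
  obtain ⟨o, o', g⟩ := G.oo
  exact M1.three5 h.big h.even hr (h.m1 hl H) G.lob G.hib hσ (h.jn hσ w H.cg b).1 g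

end

theorem Ok.ss_l7 (hr : r < k + 1) (H : S.L7 k r l c) (G : S.L7 k r l d) (w : S.Wm l r c d) :
    False := by
  obtain ⟨ρ, τ, t, X, Y, F, B, A, L, U, st, a, e, H⟩ := H
  obtain ⟨ρ', τ', t', X', Y', F', B', A', L', U', st', b, e', G⟩ := G
  obtain ⟨J, J'⟩ := h.jn (σ := -1) (Or.inr rfl) w a (by simpa using b)
  exact M4.same h.big hr H.toM4 G.toM4 (rel e e') J J'

theorem Ok.so_l7 (hr : r < k + 1) (H : S.L7 k r l c) (G : S.L7 k r l fun x y => -d x y)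
    (w : S.Wm l r c d) :
    ∃ (A B L U A' B' L' U' : ℤ → Prop) (x κ q st e x' κ' q' st' e' : ℤ) (nq γ nq' γ' : ℤ → ℤ),
      OWd k A B L U x κ q st e nq γ ∧ OWd k A' B' L' U' x' κ' q' st' e' nq' γ' ∧
      OGl k B L U κ st A' B' U' x' st' e' ∧ OGl k B' L' U' κ' st' A B U x st e := by
  obtain ⟨ρ, τ, t, X, Y, F, B, A, L, U, st, a, e, H⟩ := H
  obtain ⟨ρ', τ', t', X', Y', F', B', A', L', U', st', b, e', G⟩ := G
  obtain ⟨J, J'⟩ := h.jn (σ := 1) (Or.inl rfl) w a (by simpa using b)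
  obtain ⟨_, _, _, _, _, _, _, _, _, _, _, _, _, _, _, _, g⟩ :=
    M7.words h.big hr H G (rel e e') J J'
  exact ⟨_, _, _, _, _, _, _, _, _, _, _, _, _, _, _, _, _, _, _, _, _, _, g⟩

omit h [Fintype W] in
theorem L7.la (H : S.L7 k r l c) : ∃ (ρ : W → W → ℤ) (τ : W → W → ℝ) (t : ℝ) (X Y : W),
    (∀ x y, S.Fe x y → Cg r (c x y) (ρ x y + τ x y)) ∧
      ((X = S.p' ∧ Y = S.q') ∨ (X = S.q' ∧ Y = S.p')) ∧
        M0 S.Ix X Y k r (S.cA ρ) (S.cB ρ) (S.cA τ) (S.cB τ) t := by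
  obtain ⟨ρ, τ, t, X, Y, F, B, A, L, U, st, a, e, H⟩ := H
  exact ⟨ρ, τ, t, X, Y, a, e, H.toM4.m0⟩

end Spi

end Pool.Agent.P.MP_3f5ded_co.UG
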