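import Pool.Agent.P.MP_3f5ded_co.UJF0
import Pool.Agent.P.MP_3f5ded_co.UJPack

set_option autoImplicit false

namespace Pool.Agent.P.MP_3f5ded_co.UG

/-- Two words cannot be glued as exact mirror images. -/
def OppDead (k : ℕ) : Prop :=
  ∀ (A B L U A' B' L' U' : ℤ → Prop) (x κ q st e x' κ' q' st' e' : ℤ) (nq γ nq' γ' : ℤ → ℤ),
    OWd k A B L U x κ q st e nq γ → OWd k A' B' L' U' x' κ' q' st' e' nq' γ' →
      OGl k B L U κ st A' B' U' x' st' e' → OGl k B' L' U' κ' st' A B U x st e → False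

namespace Spi
variable {W : Type} [Fintype W] [DecidableEq W] {k : ℕ} {r : ℝ} {S : Spi W} {l : W}
  {c : W → W → ℝ} (h : S.Ok k) (hl : l ∈ S.L)
include h hl

lemma Ok.ta_l7 (H : S.Ta k r c) : S.L7 k r l c := by
  obtain ⟨P, Pt, x, y, c, p, q, z1, z2, u, Y, X, a, b, R, d, m, g⟩ := H
  exact h.l7 hl R d m g

lemma Ok.noA (hr : r < k + 1) (o : OppDead k) : S.NoA k r l := by
  refine ⟨fun c d ρ τ t H G w => ?_, fun c d ρ τ t H G w => ?_, fun c d H G w => ?_,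
    fun c d H G w => ?_⟩
  · exact h.hy_l7 hl hr (Or.inr rfl) H (by simpa using h.ta_l7 hl G) w
  · exact h.hy_l7 hl hr (Or.inl rfl) H (by simpa using h.ta_l7 hl G) w
  · exact h.ss_l7 hr (h.ta_l7 hl H) (h.ta_l7 hl G) w
  · obtain ⟨_, _, _, _, _, _, _, _, _, _, _, _, _, _, _, _, _, _, _, _, _, _, a1, a2, a3, a4⟩ :=
      h.so_l7 hr (h.ta_l7 hl H) (h.ta_l7 hl G) w
    exact o _ _ _ _ _ _ _ _ _ _ _ _ _ _ _ _ _ _ _ _ _ _ a1 a2 a3 a4

theorem Ok.no3_of' (hr : r < k + 1) (o : OppDead k) (hb : ∀ C, S.Tb k r C → S.Lb k r l C) :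
    S.No3 k r l :=
  h.no3_of hl hr (h.noA hl hr o) (fun _ H => (h.ta_l7 hl H).la) hb

end Spi

end Pool.Agent.P.MP_3f5ded_co.UG
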