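import Pool.Agent.P.MP_3f5ded_co.UJG2
import Pool.Agent.P.MP_3f5ded_co.UJF0

set_option autoImplicit false

namespace Pool.Agent.P.MP_3f5ded_co.UG

namespace Spi
variable {W : Type} [Fintype W] [DecidableEq W] {k : ℕ} {r : ℝ} {S : Spi W} {l : W}

theorem Ok.tb_lb (h : S.Ok k) (hl : l ∈ S.L) (C : W → W → ℝ) (g : S.Tb k r C) : S.Lb k r l C := by
  obtain ⟨P, Pt, x, y, c, p, q, z1, z2, u, Y, X, a, b, R, d, m, rfl, b1, b2, b3, b4⟩ := g
  obtain rfl : c = z1 := by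
    rcases m.yc with ⟨e, -⟩ | ⟨-, e⟩
    exacts [absurd e.symm d.n12, e]
  exact h.m6 hl R ⟨m, b1, b2, b3, b4⟩ d

end Spi

end Pool.Agent.P.MP_3f5ded_co.UG
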