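import Pool.Agent.P.MP_3f5ded_co.UOc

set_option autoImplicit false

namespace Pool.Agent.P.MP_3f5ded_co.UG

open Finset

namespace OC

lemma sum_top (f : ℤ → ℤ) {a b : ℤ} (h : a ≤ b) :
    ∑ l ∈ Ico a (b + 1), f l = ∑ l ∈ Ico a b, f l + f b := by
  rw [← insert_Ico_right_eq_Ico_add_one h, sum_insert (by simp), add_comm]

namespace OP
variable {k : ℕ} {c d : OC} (h : OP k c d) {l n e e' : ℤ} (E : Ev k c e) (E' : Ev k d e')
include h E E'

lemma five : (c.κ ≤ 7 ∧ c.κ ≤ e) ∨ (e = 6 ∧ d.B (k - 5)) := by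
  have hk := h.w.big
  have e6 := h.six E E'
  have e2 := E.2.1
  have s := h.ste E E'
  have key : ∀ l : ℤ, 4 ≤ l → l ≤ e → d.B (k + 2 - l) → l = c.κ := fun l a b x => by
    by_contra y
    have r := h.run E E' a b
    exact ((h.g.pr l (by omega) (by omega)).1 (Or.inl ⟨r.2.1, by omega, y⟩)).2.1 x
  have g := (h.run E E' (l := 6) (by omega) e6).2.2.2
  rw [show (k : ℤ) + 2 - 6 = k - 4 by ring] at g
  rcases h.w'.f5 h.sw.gk (by omega) with t | t
  · have := key 6 (by omega) e6 (by rwa [show (k : ℤ) + 2 - 6 = k - 4 by ring])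
    omega
  · by_cases y : e = 6
    · exact Or.inr ⟨y, t⟩
    · have := key 7 (by omega) (by omega) (by rwa [show (k : ℤ) + 2 - 7 = k - 5 by ring])
      omega

lemma stB : c.B (e + 1) := by
  have s := h.ste E E'
  rcases E.2.2.2 with t | t | t
  · omega
  · exact s ▸ t.1
  · exact absurd t.1 (h.sw.ntop E' E)

lemma eb : e ≤ k + 1 - e' ∧ e ≤ k - 5 := by
  have := h.six E E'
  have := h.sw.six E' E
  have := E.2.1
  have := (h.prof E E' (l := e) (by omega) (by omega)).2.2 le_rfl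
  omega

lemma g0 : c.γ (e + 1) = 0 := by
  have e6 := h.six E E'
  have e1 := h.eb E E'
  have r1 := (h.run E E' (l := e) (by omega) le_rfl).2.2.1
  have r2 := h.w.iso e (by omega) (by omega)
  have r3 := h.w.iso (e + 1) (by omega) (by omega)
  have r5 := h.w.par (e + 1) (by omega) (by omega)
  obtain ⟨r4, r6, -⟩ := h.gam E E' (l := e + 1 + 1) (by omega) (by omega)
  by_contra g
  split_ifs at r4 with u v v
  · have := h.w.ka; omega
  · rcases h.five E E' with t | t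
    · omega
    · have := h.g.ka
      have := h.w.big
      refine h.w'.ab d.a (by omega) (by omega) (r6 u).2 ?_
      rw [show d.a + 1 = k - 5 by omega]
      exact t.2
  · exact h.w.j3 (e + 1) c.a (by omega) (by omega) (by omega) (by omega) (h.stB E E') v.2
  · omega

lemma sum1 (h1 : 4 ≤ l) (h2 : l ≤ e + 1) :
    ∑ i ∈ Ico 4 l, c.γ i = (l - 4) / 2 ∧ ∑ i ∈ Ico 4 l, c.nq i = l - 4 := by
  have := E.2.1
  induction l, h1 using Int.leInduction with
  | base => simp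
  | succ l hl ih =>
    obtain ⟨r1, r2, r3, -⟩ := h.run E E' hl (by omega)
    rw [sum_top _ hl, sum_top _ hl, (ih (by omega)).1, (ih (by omega)).2]
    rcases h.w.hn l hl (by omega) with u | u | u | u
    exacts [absurd u.1 (h.xab hl (by omega) r1), by omega, by omega, absurd r2 u.2.1]

lemma sum2 (h1 : e + 2 ≤ l) (h2 : l ≤ k - 1) : ∃ u v : ℤ,
    ((u = 1 ∧ e + 2 ≤ c.κ ∧ c.κ < l) ∨ (u = 0 ∧ (c.κ < e + 2 ∨ l ≤ c.κ))) ∧
    ((v = 1 ∧ c.A c.a ∧ c.a < l) ∨ (v = 0 ∧ (¬ c.A c.a ∨ l ≤ c.a))) ∧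
    ∑ i ∈ Ico 4 l, c.γ i = (l + 1) / 2 - 3 - u - v := by
  have e6 := h.six E E'
  induction l, h1 using Int.leInduction with
  | base =>
    refine ⟨0, 0, by omega, Or.inr ⟨rfl, ?_⟩, ?_⟩
    · by_cases g : c.A c.a
      exacts [Or.inr (h.lowa E E' g).1, Or.inl g]
    · rw [show e + 2 = e + 1 + 1 by ring, sum_top _ (by omega),
        (h.sum1 E E' (by omega) le_rfl).1, h.g0 E E']
      omega
  | succ l hl ih =>
    obtain ⟨u, v, a, b, s⟩ := ih (by omega)
    have g := (h.gam E E' hl (by omega)).1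
    rw [sum_top _ (by omega), s]
    split_ifs at g with x y y
    · have := h.w.ka; omega
    · refine ⟨1, v, by omega, ?_, by omega⟩
      have := h.w.ka
      exact b.imp (fun t => ⟨t.1, t.2.1, by omega⟩) fun t => ⟨t.1, t.2.imp_right fun _ => by omega⟩
    · refine ⟨u, 1, by omega, Or.inl ⟨rfl, y.2, by omega⟩, ?_⟩
      rcases b with b | b <;> omega
    · refine ⟨u, v, by omega, b.imp (fun t => ⟨t.1, t.2.1, by omega⟩) fun t => ⟨t.1, ?_⟩, by omega⟩
      by_cases z : c.A c.a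
      · have : l ≠ c.a := fun w => y ⟨w, z⟩
        exact t.2.imp_right fun _ => by omega
      · exact Or.inl z

lemma nend (h1 : k + 2 - e' ≤ l) (h2 : l ≤ k - 1) :
    ∑ i ∈ Ico 4 l, c.nq i = ∑ i ∈ Ico 4 (k + 2 - e'), c.nq i := by
  have := E'.2.1
  induction l, h1 using Int.leInduction with
  | base => rfl
  | succ l hl ih =>
    rw [sum_top _ (by omega), ih (by omega), h.late E E' (by omega) (by omega), add_zero]

/-- The two cuts, long middle zone. -/
lemma cut {m t : ℤ} (hm : k = 2 * m) (t0 : t % 2 = 0) (t1 : m - 3 ≤ t) (t2 : t ≤ m - 2)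
    (g : e ≤ t) : (m + 2 ≤ c.κ ∨ (c.A c.a ∧ m + 2 ≤ c.a)) ∧ (c.κ < e + 2 ∨ t < c.κ) := by
  have hk := h.w.big
  have e6 := h.six E E'
  have e7 := h.sw.six E' E
  have c1 := h.w.c1 m hm
  have up := h.w.up t (by omega) t0 (by omega) (by omega)
  rw [h.nend E E' (by omega) le_rfl] at c1
  rw [h.nend E E' (by omega) (by omega)] at up
  obtain ⟨u1, v1, a1, b1, s1⟩ := h.sum2 E E' (l := k - 1) (by omega) (by omega)
  obtain ⟨u2, v2, a2, b2, s2⟩ := h.sum2 E E' (l := m + 2) (by omega) (by omega)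
  obtain ⟨u3, v3, a3, b3, s3⟩ := h.sum2 E E' (l := 2 * t + 2) (by omega) (by omega)
  obtain ⟨u4, v4, a4, b4, s4⟩ := h.sum2 E E' (l := t + 2) (by omega) (by omega)
  rw [s1, s2] at c1
  rw [s3, s4] at up
  clear s1 s2 s3 s4
  have ak := h.ak
  have ka := h.w.ka.2.1
  have x1 : e + 2 ≤ c.κ → c.κ % 2 = 0 := fun u => ((h.gam E E' u (by omega)).2.1 rfl).1
  by_cases y : c.A c.a
  · have y1 := h.lowa E E' y
    have y2 := (h.gam E E' y1.1 (by omega)).2.2 rfl y
    simp only [y, true_and, not_true_eq_false, false_or] at b1 b2 b3 b4 ⊢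
    omega
  · simp only [y, false_and, and_false, false_or, not_false_eq_true, true_or, and_true,
      or_false] at b1 b2 b3 b4 ⊢
    omega

lemma far (y : c.A c.a) : e + 5 ≤ c.a := by
  have e6 := h.six E E'
  have y1 := h.lowa E E' y
  have ak := h.ak
  by_contra w
  exact h.w.j3 (e + 1) c.a (by omega) (by omega) (by omega) (by omega) (h.stB E E') y

lemma nmid (h1 : e + 2 ≤ l) (h2 : l ≤ e + 5) (h3 : l ≤ k - 1) : ∃ u : ℤ,
    ((u = 1 ∧ e + 2 ≤ c.κ ∧ c.κ < l) ∨ u = 0) ∧ ∑ i ∈ Ico 4 l, c.nq i = e - 3 + e % 2 + u := by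
  have e6 := h.six E E'
  have q : ∀ l : ℤ, e + 1 ≤ l → l ≤ e + 4 → l ≤ k - 2 → 0 ≤ c.nq l ∧ c.nq l ≤ 1 := fun l x y z => by
    have := h.w.j3 (e + 1) l (by omega) x (by omega) z (h.stB E E')
    rcases h.w.hn l (by omega) z with u | u | u | u
    exacts [absurd u.1 this, absurd u.1 this, by omega, by omega]
  induction l, h1 using Int.leInduction with
  | base =>
    have p := (h.w.par (e + 1) (by omega) (by omega)).2
    have q1 := q (e + 1) (by omega) (by omega) (by omega)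
    rw [h.g0 E E'] at p
    refine ⟨0, Or.inr rfl, ?_⟩
    rw [show e + 2 = e + 1 + 1 by ring, sum_top _ (by omega), (h.sum1 E E' (by omega) le_rfl).2]
    omega
  | succ l hl ih =>
    obtain ⟨u, a, s⟩ := ih (by omega) (by omega)
    have q1 := q l (by omega) (by omega) (by omega)
    rw [sum_top _ (by omega), s]
    rcases h.zone E E' hl (by omega) with w | ⟨w, -, v | v⟩
    · exact ⟨u, by omega, by omega⟩
    · exact ⟨1, by omega, by omega⟩
    · have := h.far E E' v.2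
      omega

/-- Short middle zone. -/
lemma short {m t : ℤ} (hm : k = 2 * m) (t0 : t % 2 = 0) (t1 : m - 3 ≤ t) (t2 : t ≤ m - 2)
    (g : t < e) (em : e ≤ e') : False := by
  have hk := h.w.big
  have e6 := h.six E E'
  have e7 := h.sw.six E' E
  have eb := h.eb E E'
  have c1 := h.w.c1 m hm
  rw [h.nend E E' (by omega) le_rfl] at c1
  obtain ⟨u1, v1, a1, b1, s1⟩ := h.sum2 E E' (l := k - 1) (by omega) (by omega)
  obtain ⟨u2, v2, a2, b2, s2⟩ := h.sum2 E E' (l := m + 2) (by omega) (by omega)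
  rw [s1, s2] at c1
  clear s1 s2
  have v0 : 0 ≤ v2 ∧ (v1 = 0 ∨ (v1 = 1 ∧ c.a ≤ k + 1 - e' ∧ c.κ + 4 ≤ c.a)) := by
    refine ⟨by omega, b1.symm.imp And.left fun y => ?_⟩
    have y1 := h.lowa E E' y.2.1
    have ak := h.ak
    rcases h.zone E E' y1.1 (by omega) with u | u
    · exact absurd ⟨rfl, y.2.1⟩ u.2.2
    · exact ⟨y.1, u.2.1, y1.2.2⟩
  have x1 : e + 2 ≤ c.κ → c.κ % 2 = 0 := fun u => by
    have := h.ak
    have := h.w.ka
    exact ((h.gam E E' u (by omega)).2.1 rfl).1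
  clear b1 b2
  rcases (show k + 2 - e' = e + 1 ∨ (e + 2 ≤ k + 2 - e' ∧ k + 2 - e' ≤ e + 5) ∨
    k + 2 - e' = e + 5 + 1 by omega) with w | w | w
  · rw [w, (h.sum1 E E' (by omega) le_rfl).2] at c1
    omega
  · obtain ⟨u, a, s⟩ := h.nmid E E' w.1 w.2 (by omega)
    rw [s] at c1
    clear s
    omega
  · obtain ⟨u, a, s⟩ := h.nmid E E' (l := e + 5) (by omega) le_rfl (by omega)
    rw [w, sum_top _ (by omega), s] at c1
    clear s
    have : c.nq (e + 5) ≤ 2 := by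
      rcases h.w.hn (e + 5) (by omega) (by omega) with u | u | u | u <;> omega
    omega

end OP

/-- Two words cannot be glued with the index sum `k + 1`. -/
theorem OP.false {k : ℕ} {c d : OC} (h : OP k c d) : False := by
  obtain ⟨e, E⟩ := h.exe
  obtain ⟨e', E'⟩ := h.sw.exe
  have ev := h.w.ev
  obtain ⟨m, hm⟩ : ∃ m : ℤ, k = 2 * m := ⟨k / 2, by omega⟩
  obtain ⟨t, t0, t1, t2⟩ : ∃ t : ℤ, t % 2 = 0 ∧ m - 3 ≤ t ∧ t ≤ m - 2 :=
    ⟨m - 2 - m % 2, by omega, by omega, by omega⟩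
  have main : ∀ {c d : OC} (h : OP k c d) {e e' : ℤ} (E : OP.Ev k c e) (E' : OP.Ev k d e'),
      e ≤ t → c.A c.a ∧ m + 2 ≤ c.a ∧ c.a % 2 = 0 ∧ e' ≤ t := by
    intro c d h e e' E E' g
    have k1 := h.g.ka
    have k2 := h.g'.ka
    have a1 := h.ak
    have a2 := h.w.ka
    have a3 := h.w'.ka
    rcases (h.cut E E' hm t0 t1 t2 g).1 with u | u
    · have x := (h.gam E E' (l := c.κ) (by omega) (by omega)).2.1 rfl
      have y := h.sw.lowa E' E x.2
      have := (h.sw.cut E' E hm t0 t1 t2 (by omega)).1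
      omega
    · have y := h.lowa E E' u.1
      have z := (h.gam E E' y.1 (by omega)).2.2 rfl u.1
      exact ⟨u.1, u.2, z, by omega⟩
  have eb := h.eb E E'
  by_cases g : e ≤ t
  · obtain ⟨x1, x2, x3, g'⟩ := main h E E' g
    obtain ⟨y1, y2, y3, -⟩ := main h.sw E' E g'
    have k1 := h.g.ka
    have k2 := h.g'.ka
    have l1 := h.lowa E E' x1
    have l2 := h.sw.lowa E' E y1
    have c1 := (h.cut E E' hm t0 t1 t2 g).2
    have c2 := (h.sw.cut E' E hm t0 t1 t2 g').2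
    exact h.face E E' x1 y1 (by omega) (by omega)
  by_cases g' : e' ≤ t
  · exact g (main h.sw E' E g').2.2.2
  by_cases y : e ≤ e'
  · exact h.short E E' hm t0 t1 t2 (by omega) y
  · exact h.sw.short E' E hm t0 t1 t2 (by omega) (by omega)

end OC

/-- The case of index sum `k + 1` is impossible. -/
theorem OWd.opp {k : ℕ} {A B Lo Hi A' B' Lo' Hi' : ℤ → Prop} {a κ q st b a' κ' q' st' b' : ℤ}
    {nq γ nq' γ' : ℤ → ℤ} (w : OWd k A B Lo Hi a κ q st b nq γ)
    (w' : OWd k A' B' Lo' Hi' a' κ' q' st' b' nq' γ') (g : OGl k B Lo Hi κ st A' B' Hi' a' st' b')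
    (g' : OGl k B' Lo' Hi' κ' st' A B Hi a st b) : False :=
  OC.OP.false (c := ⟨A, B, Lo, Hi, a, κ, q, st, b, nq, γ⟩)
    (d := ⟨A', B', Lo', Hi', a', κ', q', st', b', nq', γ'⟩) ⟨w, w', g, g'⟩

end Pool.Agent.P.MP_3f5ded_co.UG
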