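import Pool.Agent.P.MP_3f5ded_co.UJF2
import Pool.Agent.P.MP_3f5ded_co.UOd
import Pool.Agent.P.MP_3f5ded_co.UJG

set_option autoImplicit false

namespace Pool.Agent.P.MP_3f5ded_co.UG

/-- The values for every even degree at least twelve. -/
theorem main_even_all {k : ℕ} (hk : 12 ≤ k) (he : Even k) (x : ℝ) :
    (∃ (n : ℕ) (G : SimpleGraph (Fin n)) (_ : DecidableRel G.Adj), 0 < n ∧
      G.IsRegularOfDegree k ∧ sInf {r : ℝ | 1 ≤ r ∧ Col G r} = x) ↔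
      ∃ q : ℚ, x = q ∧ (k : ℚ) ≤ q ∧ q ≤ k + 1 :=
  iff_evenJ hk he (fun _ _ _ _ _ _ h hl _ hr => h.no3_of' hl hr
    (fun _ _ _ _ _ _ _ _ _ _ _ _ _ _ _ _ _ _ _ _ _ _ w w' g g' => w.opp w' g g')
    (h.tb_lb hl)) x

end Pool.Agent.P.MP_3f5ded_co.UG
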