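import Pool.Agent.P.MP_3f5ded_co.UJE

set_option autoImplicit false

namespace Pool.Agent.P.MP_3f5ded_co.UG

lemma Cl4.add {g t m c u v w : ℝ} (h : Cl4 g t m c u v w) (s : ℝ) {t' m' c' u' v' w' : ℝ}
    (e1 : t' = t + s) (e2 : m' = m + s) (e3 : c' = c + s) (e4 : u' = u + s) (e5 : v' = v + s)
    (e6 : w' = w + s) : Cl4 g t' m' c' u' v' w' := by
  subst e1 e2 e3 e4 e5 e6
  obtain ⟨a, b⟩ := h
  refine ⟨a.imp (fun a => ?_) fun a => ?_, b.imp (fun a => ?_) fun a => ?_⟩ <;>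
    obtain ⟨a1, a2, a3, a4⟩ := a <;> refine ⟨?_, ?_, ?_, ?_⟩ <;> linarith

namespace PM
variable {W : Type} {k : ℕ} {r : ℝ} {Fe : W → W → Prop} {P : PM W k r Fe} {Q : Finset W}
  {X Y : W → ℤ} {x y c p q s u w : W} {a b l n : ℤ}

lemma mir3_F (hw : w ∈ Q) (l : ℤ) : (P.mir3 Q).F w l = -P.F w (k - 1 - l) := by
  simp only [mir3, relift, shift, rev, if_pos hw]
  rw [show -(l + ((k : ℤ) + 1) * 0 + (1 - k)) = k - 1 - l by ring]
  simp

lemma mir3_F' (hw : w ∉ Q) (l : ℤ) : (P.mir3 Q).F w l = -P.F w (k - 2 - l) := by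
  simp only [mir3, relift, shift, rev, if_neg hw]
  rw [show (k : ℤ) - 2 - l = -(l + ((k : ℤ) + 1) * 1 + (1 - k)) + k by ring, P.per]
  push_cast
  ring

lemma off_per (P : PM W k r Fe) (w : W) (n : ℤ) : P.off w (n + k) = P.off w n + (r - k) := by
  unfold off; rw [P.per]; push_cast; ring

variable [Fintype W] {Pt : Finset (W × W)}

namespace VB
variable (m : P.VB Q x y c p q u Y X a b) (d : D1 k Fe Q Pt x c y)
include m d

lemma lo_y (h : 0 ≤ n) : P.off c (-1) ≤ P.off y n := by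
  have e1 := P.off_co d.sw.e12 m.e3 m.s3
  linarith [P.off_mono c (show (-1 : ℤ) ≤ 0 by omega), P.off_mono y h]

lemma hi_y : P.off y b ≤ P.off c (-1) + (r - k) := by
  have hk := d.sz.big
  have b2 := m.blo d
  have A := m.b4 4 (by omega) (by omega) (by omega)
  obtain ⟨i, i1, i2, i3, i4, -⟩ := m.xw d A.1 (m.yne d le_rfl (by omega)).1
  have e1 := P.off_co A.2.1 rfl A.2.2
  have e2 := off_B i4.2.1 rfl i4.2.2
  rw [i3] at e2
  have e3 := P.off_co d.e01 m.i1 m.s1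
  linarith [P.off_mono y (show b ≤ 4 by omega), P.off_mono (P.it y 4) (show 4 ≤ i + k + 1 by omega),
    P.off_mono x (show i ≤ -2 + k by omega), P.off_per x (-2),
    P.off_mono c (show (-2 : ℤ) ≤ -1 by omega), P.r1]

lemma lo_s (hs : s = p ∨ s = P.it x 0) (h : s = p ∧ 1 ≤ l ∨ 3 ≤ l) : P.off c (-1) ≤ P.off s l := by
  have hk := d.sz.big
  have b1 := m.bne d
  have b2 := m.blo d
  obtain ⟨y1, y2, -⟩ := m.ya d
  have e1 := P.off_co y1.2.1 rfl y1.2.2
  rw [y2] at e1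
  have k1 : ∀ l, 1 ≤ l → P.off c (-1) ≤ P.off p l := fun l g => by
    linarith [m.lo_y d (n := 1) (by omega), P.off_mono p g]
  rcases hs with rfl | rfl
  · exact k1 l (by omega)
  · have e2 := m.fl.off m.sp.hp (m.w2 d).1 (m.lev3 d).1
    have : 3 ≤ l := h.resolve_left fun g => (m.w2 d).2.2.2.1 g.1
    linarith [k1 b (by omega), P.off_mono (P.it x 0) (show b ≤ l by omega)]

lemma hi_s (hs : s = p ∨ s = P.it x 0) (h : l ≤ 5) : P.off s l ≤ P.off c 4 - (k + 1 - r) := by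
  have hk := d.sz.big
  have B := m.cB d (n := 4) (by omega) le_rfl
  have t := ((m.cenc d).tB B (by omega)).2
  have : s ∈ Q ∧ X s ≤ 2 := by
    rcases hs with rfl | rfl
    exacts [⟨m.sp.hp, by rw [(m.ya d).2.2.2]; omega⟩, ⟨(m.w2 d).1, (m.w2 d).2.2.1.le⟩]
  obtain ⟨j, -, j1, j2, -, e, -⟩ := m.fl.meet m.cx this.1 B.1 fun e => by rw [e] at t; omega
  have e1 := m.fl.off this.1 B.1 e
  have e2 := off_B B.2.1 rfl B.2.2
  linarith [P.off_mono s (show l ≤ j by omega),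
    P.off_mono (P.it c 4) (show j ≤ 4 + k + 1 by omega)]

omit m in
lemma mg : P.off c 4 - (k + 1 - r) ≤ P.off c (-1) + (r - k) := by
  have hk := d.sz.big
  linarith [P.off_mono c (show (4 : ℤ) ≤ -1 + k by omega), P.off_per c (-1), P.r1]

lemma pxc (f : Fe p (P.it p l)) : P.it p l = x ∨ P.it p l = c := by
  rcases (m.out d _).1 fun o => m.fl.cl _ m.sp.hp _ o f with e | e | e
  exacts [Or.inl e, absurd ((m.sp.fy _).1 (e ▸ f)) m.sp.pq, Or.inr e]

lemma wc (f : Fe (P.it x 0) (P.it (P.it x 0) l)) : P.it (P.it x 0) l = c := by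
  obtain ⟨w1, -, -, w4, w5⟩ := m.w2 d
  rcases (m.out d _).1 fun o => m.fl.cl _ w1 _ o f with e | e | e
  · rw [e] at f; exact absurd ((m.sp.fx _).1 f) w4
  · rw [e] at f; exact absurd ((m.sp.fy _).1 f) w5
  · exact e

/-- The four ports at the bottom. -/
theorem four : Fe (P.it x 0) c ∧ ∃ i j l : ℤ, 2 ≤ i ∧ i ≤ 5 ∧ 2 ≤ j ∧ j ≤ 5 ∧ 4 ≤ l ∧ l ≤ 5 ∧
    P.it p i = x ∧ P.it p j = c ∧ P.it (P.it x 0) l = c ∧
    (Cl4 (r - k) (P.off c (-1)) (P.off c 4 - (k + 1 - r)) (P.F y b) (P.F p i) (P.F p j)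
        (P.F (P.it x 0) l) ∨
      Cl4 (r - k) (P.off c (-1)) (P.off c 4 - (k + 1 - r)) (P.F y b) (P.F p j) (P.F p i)
        (P.F (P.it x 0) l)) := by
  have hk := d.sz.big
  have b1 := m.bne d
  have b2 := m.blo d
  have f1 := (m.lev3 d).2.1
  obtain ⟨j, l, jl, f2, f3⟩ : ∃ j l : ℤ, ((j = 4 ∧ l = 5) ∨ (j = 5 ∧ l = 4)) ∧ Fe p (P.it p j) ∧
      Fe (P.it x 0) (P.it (P.it x 0) l) := by
    rcases (m.lev5 d).1 with g | g
    exacts [⟨4, 5, Or.inl ⟨rfl, rfl⟩, g⟩, ⟨5, 4, Or.inr ⟨rfl, rfl⟩, g⟩]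
  have cl : Cl4 (r - k) (P.off c (-1)) (P.off c 4 - (k + 1 - r)) (P.F y b) (P.F p (5 - b)) (P.F p j)
      (P.F (P.it x 0) l) := by
    have a1 := m.lo_y d (n := b) (by omega)
    have a2 := m.hi_y d
    have a3 := m.lo_s d (l := 5 - b) (Or.inl rfl) (Or.inl ⟨rfl, by omega⟩)
    have a4 := (m.hi_s d (l := 5 - b) (Or.inl rfl) (by omega)).trans (mg (P := P) d)
    have a5 := m.lo_s d (l := j) (Or.inl rfl) (Or.inr (by omega))
    have a6 := m.hi_s d (l := j) (Or.inl rfl) (by omega)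
    have a7 := m.lo_s d (l := l) (Or.inr rfl) (Or.inr (by omega))
    have a8 := m.hi_s d (l := l) (Or.inr rfl) (by omega)
    generalize P.off c (-1) = t at *
    generalize P.off c 4 - (k + 1 - r) = μ at *
    unfold off at a1 a2 a3 a4 a5 a6 a7 a8
    constructor
    · rcases (show b = 2 ∨ b = 3 by omega) with rfl | rfl
      · left; push_cast at *; refine ⟨?_, ?_, ?_, ?_⟩ <;> linarith
      · right; push_cast at *; refine ⟨?_, ?_, ?_, ?_⟩ <;> linarith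
    · rcases jl with ⟨rfl, rfl⟩ | ⟨rfl, rfl⟩
      · left; push_cast at *; refine ⟨?_, ?_, ?_, ?_⟩ <;> linarith
      · right; push_cast at *; refine ⟨?_, ?_, ?_, ?_⟩ <;> linarith
  refine ⟨m.wc d f3 ▸ f3, ?_⟩
  rcases m.pxc d f1 with e1 | e1 <;> rcases m.pxc d f2 with e2 | e2
  · have := P.uniq (e1.trans e2.symm) (by omega) (by omega); omega
  · exact ⟨_, _, l, by omega, by omega, by omega, by omega, by omega, by omega, e1, e2, m.wc d f3,
      Or.inl cl⟩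
  · exact ⟨_, _, l, by omega, by omega, by omega, by omega, by omega, by omega, e2, e1, m.wc d f3,
      Or.inr cl⟩
  · have := P.uniq (e1.trans e2.symm) (by omega) (by omega); omega

/-- The values of all ports. -/
theorem pk : ∃ (φ : W → W → ℝ) (t μ μ' : ℝ) (V U : W),
    (∀ w s, s ≠ w → ∃ n, P.it w n = s ∧ φ w s = P.F w n) ∧ Fe V c ∧ Fe U c ∧ V ≠ U ∧ V ≠ p ∧ U ≠ q ∧
    (k : ℝ) ≤ r ∧ μ ≤ 2 - μ' + (r - k) ∧ μ ≤ t + (r - k) ∧ μ' ≤ 2 - t + (r - k) ∧
    (Cl4 (r - k) t μ (φ y q) (φ p x) (φ p c) (φ V c) ∨ Cl4 (r - k) t μ (φ y q) (φ p c) (φ p x) (φ V c)) ∧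
    (Cl4 (r - k) (2 - t) μ' (r - φ x p) (r - φ q y) (r - φ q c) (r - φ U c) ∨
      Cl4 (r - k) (2 - t) μ' (r - φ x p) (r - φ q c) (r - φ q y) (r - φ U c)) ∧
    ∀ s, Fe c s → s ≠ c → φ c s = t - 1 ∨
      (μ + 5 + (k + 1 - r) ≤ φ c s ∧ μ' + 5 + (k + 1 - r) ≤ r - φ c s) := by
  have hk := d.sz.big
  have b1 := m.bne d
  have b2 := m.blo d
  have a1 := m.ahi d
  have a2 := (m.xq d).2.1
  have : ∀ w s, ∃ n : ℤ, s ≠ w → -1 ≤ n ∧ n < -1 + k ∧ P.it w n = s := fun w s => by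
    by_cases e : s = w
    · exact ⟨0, fun g => absurd e g⟩
    · exact (P.win e (-1)).imp fun n g _ => g
  choose lv hl using this
  have val : ∀ {w s} {n : ℤ}, P.it w n = s → -1 ≤ n → n + 2 ≤ k → P.F w (lv w s) = P.F w n :=
    fun {w s n} e n1 n2 => by
      obtain ⟨g1, g2, g3⟩ := hl w s (e ▸ P.ne w n)
      rw [P.uniq (g3.trans e.symm) (by omega) (by omega)]
  obtain ⟨u', Y', X', m'⟩ := m.mir' d
  have d' := d.sw'.sw.sw'
  obtain ⟨fV, i, j, l, i1, i2, j1, j2, l1, l2, e1, e2, e3, cl⟩ := m.four d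
  obtain ⟨fU, i', j', l', i1', i2', j1', j2', l1', l2', g1, g2, g3, cl'⟩ := m'.four d'
  have mg' := mg (P := P.mir3 Q) d'
  obtain ⟨t1, -, t2, t3⟩ := m.u2 d
  obtain ⟨w1, -, w3, w4, -⟩ := m.w2 d
  have e0 : (P.mir3 Q).it y 0 = P.it y (k - 2) := by
    rw [mir3_it' d.o2, ← P.it_add]; exact congrArg _ (by ring)
  rw [e0] at fU g3 cl'
  rw [mir3_it m.sp.hq] at g1 g2
  rw [mir3_it t1] at g3
  unfold off at cl' mg'
  simp only [mir3_F m.sp.hq, mir3_F t1, mir3_F' d.o0, mir3_F' d.o1] at cl' mg'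
  rw [show (k : ℤ) - 2 - -1 = -1 + k by ring, P.per] at cl' mg'
  rw [show (k : ℤ) - 2 - (k - 1 - a) = a - 1 by ring] at cl'
  have o1 := P.off_mono c (show (4 : ℤ) ≤ k - 2 - 4 by omega)
  have o2 := P.off_mono c (show (0 : ℤ) ≤ 0 + k by omega)
  rw [P.off_per] at o2
  refine ⟨fun w s => P.F w (lv w s), P.off c (-1), P.off c 4 - (k + 1 - r),
    r - P.F c (k - 2 - 4) - 4 - (k + 1 - r), _, _, fun w s e => ⟨_, (hl w s e).2.2, rfl⟩, fV, fU,
    fun e => by rw [← e] at t2; omega, w4, t3, by linarith, ?_, mg (P := P) d, ?_, ?_, ?_, fun s f e => ?_⟩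
  · unfold off at *; push_cast at *; linarith [P.r1]
  · unfold off; push_cast at *; linarith
  · simp only [val m.b3 (by omega) (by omega), val e1 (by omega) (by omega),
      val e2 (by omega) (by omega), val e3 (by omega) (by omega)]
    exact cl
  · simp only [val m.xp (by omega) (by omega), val g1 (by omega) (by omega),
      val g2 (by omega) (by omega), val g3 (by omega) (by omega)]
    refine cl'.imp (fun g => g.add r ?_ ?_ ?_ ?_ ?_ ?_) fun g => g.add r ?_ ?_ ?_ ?_ ?_ ?_ <;>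
      (try unfold off) <;> push_cast <;> ring
  · obtain ⟨n1, n2, n3⟩ := hl c s e
    rcases m.cport d (n3.symm ▸ f) n1 (by omega) with g | g
    · left; simp only [g]; unfold off; push_cast; ring
    · have o3 := P.off_mono c (show 4 ≤ lv c s by omega)
      have o4 := P.off_mono c (show lv c s ≤ k - 2 - 4 by omega)
      have o5 : (5 : ℝ) ≤ lv c s := by exact_mod_cast g.1
      have o6 : (lv c s : ℝ) + 7 ≤ k := by exact_mod_cast g.2
      right
      unfold off at *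
      push_cast at *
      constructor <;> linarith

end VB

end PM

end Pool.Agent.P.MP_3f5ded_co.UG
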