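import Pool.Agent.P.MP_3f5ded_co.UJG1
import Pool.Agent.P.MP_3f5ded_co.UWAr

set_option autoImplicit false

namespace Pool.Agent.P.MP_3f5ded_co.UG

namespace Spi
variable {W : Type} [Fintype W] [DecidableEq W] {k : ℕ} {r : ℝ} {S : Spi W} {l : W}
  {C : W → W → ℝ} {P : PM W k r S.Fe} {Pt : Finset (W × W)} {x y c p q u : W} {Y X : W → ℤ} {a b : ℤ}

/-- The ports of the symmetric shape in list form. -/
theorem Ok.m6 (h : S.Ok k) (hl : l ∈ S.L) (R : P.Rep C)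
    (m : P.VB (S.Cq S.p' S.q') x y c p q u Y X a b) (d : PM.D1 k S.Fe (S.Cq S.p' S.q') Pt x c y) :
    ∃ (φ : W → W → ℝ) (t m m' : ℝ) (X Y F H V U : W),
      (∀ x y, S.Fe x y → Cg r (C x y) (φ x y)) ∧
      ((X = S.p' ∧ Y = S.q' ∧ F = S.p ∧ H = S.q) ∨ (X = S.q' ∧ Y = S.p' ∧ F = S.q ∧ H = S.p)) ∧
        M6 S.Ix X Y F H V U l k r (S.cA φ) (S.cB φ) t m m' := by
  have ce : ∀ w, w ∉ S.Cq S.p' S.q' → w = S.z ∨ w = S.p' ∨ w = S.q' := fun w => by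
    rw [Spi.mem_cq]; tauto
  have fz : S.Fe S.p S.z ∧ S.Fe S.q S.z := ⟨(h.fe_p _).2 (Or.inl rfl), (h.fe_q _).2 (Or.inl rfl)⟩
  have nz : ∀ {t s}, (∀ w, S.Fe w t ↔ w = s) → t ≠ S.z := fun g e =>
    h.pq (((g _).1 (e ▸ fz.1)).trans ((g _).1 (e ▸ fz.2)).symm)
  obtain ⟨n1, n2, n3⟩ := m.nes d
  have hn : (x = S.p' ∧ y = S.q' ∧ p = S.p ∧ q = S.q) ∨ (x = S.q' ∧ y = S.p' ∧ p = S.q ∧ q = S.p) := by
    have fx := S.fe_symm _ _ ((m.sp.fx p).2 rfl)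
    have fy := S.fe_symm _ _ ((m.sp.fy q).2 rfl)
    rcases (ce x d.o0).resolve_left (nz m.sp.fx) with rfl | rfl <;>
      rcases (ce y (m.oy d)).resolve_left (nz m.sp.fy) with rfl | rfl
    · exact absurd rfl n1
    · exact Or.inl ⟨rfl, rfl, (h.fe_p' p).1 fx, (h.fe_q' q).1 fy⟩
    · exact Or.inr ⟨rfl, rfl, (h.fe_q' p).1 fx, (h.fe_p' q).1 fy⟩
    · exact absurd rfl n1
  obtain rfl : c = S.z := by
    rcases ce c (m.oc d) with e | e | e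
    · exact e
    all_goals
      rcases hn with ⟨rfl, rfl, -⟩ | ⟨rfl, rfl, -⟩ <;>
        first | exact absurd e.symm n2 | exact absurd e.symm n3
  obtain ⟨φ, t, μ, μ', V, U, cg, fV, fU, VU, Vp, Uq, g0, mm, mg, mg', bot, top, mid⟩ := m.pk d
  have zp := S.fe_symm _ _ m.sp.fp
  have zq := S.fe_symm _ _ m.sp.fq
  have zV := S.fe_symm _ _ fV
  have zU := S.fe_symm _ _ fU
  have nx : ∀ {w}, S.Fe S.z w → w ≠ x ∧ w ≠ y := fun g => by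
    rcases hn with ⟨rfl, rfl, -⟩ | ⟨rfl, rfl, -⟩
    exacts [(h.nz g).2, (h.nz g).2.symm]
  have ne : ∀ w s, S.Fe w s → s ≠ w := fun w s f e => by
    rw [e] at f
    by_cases hw : w ∈ S.Cq S.p' S.q'
    · exact m.fl.cl w hw w hw f
    rcases ce w hw with g | g | g <;> rw [g] at f
    exacts [(h.nz f).1 rfl, h.pp' ((h.fe_p' _).1 f).symm, h.qq' ((h.fe_q' _).1 f).symm]
  have val : S.cA φ x = φ x p ∧ S.cB φ x = φ q y ∧ S.cA φ y = φ y q ∧ S.cB φ y = φ p x := by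
    rcases hn with ⟨rfl, rfl, rfl, rfl⟩ | ⟨rfl, rfl, rfl, rfl⟩ <;>
      simp only [cA, cB, Ap, Bp, h.Aq, h.Bq, and_self]
  have vB : ∀ {w}, S.Fe S.z w → S.cB φ w = φ w S.z := fun g => by simp only [cB, h.Bz g]
  have nl : x ≠ l ∧ y ≠ l ∧ p ≠ l ∧ q ≠ l := by
    have := h.pL; have := h.p'L; have := h.qL; have := h.q'L
    rcases hn with ⟨rfl, rfl, rfl, rfl⟩ | ⟨rfl, rfl, rfl, rfl⟩ <;>
      refine ⟨?_, ?_, ?_, ?_⟩ <;> rintro rfl <;> contradiction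
  refine ⟨φ, t, μ, μ', x, y, p, q, V, U, fun w s f => ?_, hn, ?_, ?_, Or.inl zp, Or.inl zq, Or.inl zV,
    Or.inl zU, nl.1, nl.2.1, nl.2.2.1, nl.2.2.2, VU, nx zp, nx zq, ⟨(nx zV).1, (nx zV).2, Vp⟩,
    ⟨(nx zU).1, (nx zU).2, Uq⟩, g0, mm, mg, mg', ?_, ?_, fun s i e1 e2 => ?_⟩
  · obtain ⟨n, e1, e2⟩ := cg w s (ne w s f)
    have := R w n
    rwa [e1, ← e2] at this
  · exact Or.inr (hn.imp And.left And.left)
  · exact Or.inr (hn.symm.imp (·.2.1) (·.2.1))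
  · rwa [val.2.2.1, val.2.2.2, vB zp, vB zV]
  · rwa [val.1, val.2.1, vB zq, vB zU]
  · have f : S.Fe S.z s := by
      rcases i with i | i | i
      · exact i
      all_goals rcases hn with ⟨rfl, rfl, -⟩ | ⟨rfl, rfl, -⟩ <;> contradiction
    simp only [cA, h.Az f]
    exact (mid s f (ne _ _ f)).imp_right Or.inr

end Spi

end Pool.Agent.P.MP_3f5ded_co.UG
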