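import Pool.Agent.P.MP_3f5ded_co.UJSame

set_option autoImplicit false

namespace Pool.Agent.P.MP_3f5ded_co.UG

/-- The facts about the second mode that are used against the first mode and against the opposite
direction. -/
structure M5 {T : Type} (I : T → Prop) (X Y F l : T) (k : ℕ) (r : ℝ) (a b : T → ℤ) (α β : T → ℝ)
    (t : ℝ) (B A : ℤ → Prop) : Prop extends M4 I X Y F l k r a b α β t B A where
  two : ∃ y, (y = Y ∨ y = F) ∧ b y = 2
  lf : ∀ y, y = Y ∨ y = F → ∀ n : ℤ, Even n → 4 ≤ n → n < b y → Lw I b n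
  lh : 6 ≤ b X
  t0 : ∃ y, I y ∧ a y = 2 * k
  t1 : a X < 2 * k - 2 → ¬ B (k - 2)
  t3 : a X ≤ 2 * k - 5 → ¬ A (k - 3)
  oo : ∃ o o' : ℤ, o + 2 ≤ o' ∧ o' + 3 ≤ k ∧ Lw I b (o - 1) ∧ Lw I b o ∧ Lw I b (o + 1) ∧
    Lw I b (o' - 1) ∧ Lw I b o' ∧ Lw I b (o' + 1)

namespace M1
variable {T : Type} {I : T → Prop} {P Q l : T} {k : ℕ} {r t t' σ : ℝ}
  {a b b' : T → ℤ} {α β β' : T → ℝ}
  (hk : 12 ≤ k) (he : Even (k : ℤ)) (hr : r < k + 1) (H : M1 I P Q l k r a b α β t)
  (lo : ∀ y, I y → t' ≤ β' y) (hi : ∀ y, I y → b' y ≤ k - 2 → β' y ≤ t' + (2 * r - 2 * k - 1))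
  (hσ : σ = 1 ∨ σ = -1) (J : Jn I l r σ a b' α β')
include hk he hr H lo hi hσ J

/-- Two neighbouring low ports meet the first and the last port of the centres. -/
lemma nb5 {u v : T} (hu : I u) (hv : I v) (ul : u ≠ l) (vl : v ≠ l) (e : b' v = b' u + 1)
    (m : b' v ≤ k - 2) : (a u = 2 ∧ a v = k + 2) ∨ (a u = k + 2 ∧ a v = 2) := by
  obtain ⟨i, e1⟩ := J u hu ul
  obtain ⟨j, e2⟩ := J v hv vl
  obtain ⟨c, hc⟩ := he
  obtain ⟨⟨n, p0⟩, p1, p2⟩ := H.mid u hu
  obtain ⟨⟨n', q0⟩, q1, q2⟩ := H.mid v hv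
  have : a u ≠ a v := fun g => by rw [H.inja _ _ hu hv g] at e; omega
  have := H.loa u hu
  have := H.hia u hu
  have := H.loa v hv
  have := H.hia v hv
  have := lo u hu
  have := hi u hu (by omega)
  have := lo v hv
  have := hi v hv m
  rw [e] at e2
  push_cast at e2
  rcases le_total (a u) (a v) with g | g
  · have := H.mono _ _ hu hv g
    rcases hσ with rfl | rfl
    · have := uw_dif (n := a u - a v - 1) (β := α u - α v + (β' u - β' v)) (j := i - j) hr H.slack hk
        (by omega) (by omega) (by linarith) (by linarith) (by push_cast; linarith)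
      omega
    · have := uw_dif (n := a u - a v + 1) (β := α u - α v - (β' u - β' v)) (j := i - j) hr H.slack hk
        (by omega) (by omega) (by linarith) (by linarith) (by push_cast; linarith)
      omega
  · have := H.mono _ _ hv hu g
    rcases hσ with rfl | rfl
    · have := uw_dif (n := a v - a u + 1) (β := α v - α u - (β' u - β' v)) (j := j - i) hr H.slack hk
        (by omega) (by omega) (by linarith) (by linarith) (by push_cast; linarith)
      omega
    · have := uw_dif (n := a v - a u - 1) (β := α v - α u + (β' u - β' v)) (j := j - i) hr H.slack hk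
        (by omega) (by omega) (by linarith) (by linarith) (by push_cast; linarith)
      omega

/-- The first mode does not fit to two triples of neighbouring low ports. -/
theorem three5 {o o' : ℤ} (h : o + 2 ≤ o' ∧ o' + 3 ≤ k ∧ Lw I b' (o - 1) ∧ Lw I b' o ∧
    Lw I b' (o + 1) ∧ Lw I b' (o' - 1) ∧ Lw I b' o' ∧ Lw I b' (o' + 1)) : False := by
  have pr : ∀ n n' : ℤ, n < n' → n' + 1 ≤ k - 2 → Lw I b' n → Lw I b' (n + 1) → Lw I b' n' →
      Lw I b' (n' + 1) → b' l = n ∨ b' l = n + 1 ∨ b' l = n' ∨ b' l = n' + 1 := by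
    rintro n n' h1 h2 ⟨u, hu, e1⟩ ⟨v, hv, e2⟩ ⟨u', hu', e3⟩ ⟨v', hv', e4⟩
    by_contra c
    have g1 := nb5 hk he hr H lo hi hσ J hu hv (fun g => c (by rw [← g]; omega))
      (fun g => c (by rw [← g]; omega)) (by omega) (by omega)
    have g2 := nb5 hk he hr H lo hi hσ J hu' hv' (fun g => c (by rw [← g]; omega))
      (fun g => c (by rw [← g]; omega)) (by omega) (by omega)
    have : a v' ≠ a u := fun g => by rw [H.inja _ _ hv' hu g] at e4; omega
    have : a v' ≠ a v := fun g => by rw [H.inja _ _ hv' hv g] at e4; omega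
    omega
  obtain ⟨h1, h2, i1, i2, i3, j1, j2, j3⟩ := h
  have := pr (o - 1) o (by omega) (by omega) i1 (by rwa [sub_add_cancel]) i2 i3
  have := pr (o' - 1) o' (by omega) (by omega) j1 (by rwa [sub_add_cancel]) j2 j3
  have := pr (o - 1) o' (by omega) (by omega) i1 (by rwa [sub_add_cancel]) j2 j3
  omega

end M1

/-- A difference of two level sums, one port high. -/
lemma uj_dif {k : ℕ} {r β : ℝ} {n j : ℤ} (hr : r < k + 1) (hs : 0 ≤ 2 * r - 2 * k - 1) (hk : 12 ≤ k)
    (h1 : 2 ≤ n) (h2 : n ≤ 2 * k) (b1 : -(2 * r - 2 * k - 1) ≤ β)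
    (b2 : β ≤ 2 * r - 2 * k - 1 + (r - k)) (e : n + β = j * r) :
    (n = k ∧ β = r - k) ∨ (n = k + 1 ∧ β = r - k - 1) := by
  have k0 : (12 : ℝ) ≤ k := by exact_mod_cast hk
  have r0 : 0 ≤ r := by linarith
  have a1 : (2 : ℝ) ≤ n := by exact_mod_cast h1
  have a2 : (n : ℝ) ≤ 2 * k := by exact_mod_cast h2
  rcases le_or_gt j 0 with h | h
  · have : (j : ℝ) ≤ 0 := by exact_mod_cast h
    have := mul_le_mul_of_nonneg_right this r0
    linarith
  rcases le_or_gt 2 j with h' | h'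
  · have : (2 : ℝ) ≤ j := by exact_mod_cast h'
    have := mul_le_mul_of_nonneg_right this r0
    linarith
  obtain rfl : j = 1 := by omega
  have := uw_btw (n := n) (x := r - β) (a := k - 1) (b := k + 2) (by push_cast; linarith)
    (by push_cast; linarith) (by push_cast at e; linarith)
  have c : ∀ m : ℤ, n = m → (n : ℝ) = m := fun m g => by rw [g]
  obtain g | g : n = k ∨ n = k + 1 := by omega
  · have := c _ g
    exact Or.inl ⟨g, by push_cast at e this; linarith⟩
  · have := c _ g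
    exact Or.inr ⟨g, by push_cast at e this; linarith⟩

namespace M4
variable {T : Type} {I : T → Prop} {X Y F X' Y' F' l : T} {k : ℕ} {r t t' : ℝ}
  {a b a' b' : T → ℤ} {α β α' β' : T → ℝ} {B A B' A' : ℤ → Prop}
  (hk : 12 ≤ k) (hr : r < k + 1) (H : M4 I X Y F l k r a b α β t B A)
  (G : M4 I X' Y' F' l k r a' b' α' β' t' B' A') (R : (X' = X ∧ Y' = Y) ∨ (X' = Y ∧ Y' = X))
  (J : Jn I l r 1 a b' α β') (J' : Jn I l r 1 a' b α' β)
include hk hr H G R J J'

lemma opp_eq : a Y + b' Y = a' Y' + b Y' ∧ α Y + β' Y = α' Y' + β Y' := by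
  obtain ⟨i, e1⟩ := J Y H.iY H.Yl
  obtain ⟨j, e2⟩ := J' Y' G.iY G.Yl
  have := G.low R (Or.inr rfl)
  have := H.low (M3.sw R) (Or.inr rfl)
  have := H.ry
  have := G.ry
  have := H.rx
  have := G.rx
  have := H.walk Y' Y G.iY H.iY (by omega) (by simp)
  have := G.walk Y Y' H.iY G.iY (by omega) (by simp)
  have := H.hia Y H.iY
  have := H.lob Y' G.iY
  have := G.hia Y' G.iY
  have := G.lob Y H.iY
  have := H.slack
  rcases uw_dif (n := a Y + b' Y - (a' Y' + b Y')) (β := α Y + β' Y - (α' Y' + β Y')) (j := i - j) hr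
    H.slack hk (by omega) (by omega) (by linarith) (by linarith) (by push_cast; linarith) with
    g | g | g | g | g | g
  · omega
  · omega
  · exact ⟨by omega, by linarith [g.2]⟩
  · linarith [g.2]
  all_goals omega

/-- Opposite directions: the partner of a low port. -/
lemma opp_cls {y : T} (hy : I y) (yl : y ≠ l) (m : b' y ≤ k - 2) :
    (a y + b' y = a Y + b' Y ∧ α y + β' y = α Y + β' Y) ∨
      (a y + b' y = a Y + b' Y + 1 ∧ a y ≤ b Y' + k) ∨
      a y + b' y = a Y + b' Y - k ∨ a y + b' y = a Y + b' Y - k - 1 := by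
  obtain ⟨e, e'⟩ := opp_eq hk hr H G R J J'
  obtain ⟨i, e1⟩ := J y hy yl
  obtain ⟨j, e2⟩ := J Y H.iY H.Yl
  have := G.low R (Or.inr rfl)
  have h2 := H.low (M3.sw R) (Or.inr rfl)
  have := H.ry
  have := G.ry
  have := H.rx
  have := G.rx
  have := H.rc y hy
  have := G.rq y hy
  have := G.walk y Y' hy G.iY (by omega) (by simp)
  have := H.loa y hy
  have := H.hia y hy
  have := H.lob Y' G.iY
  have := H.hib Y' G.iY (by omega)
  have := G.hia Y' G.iY
  have := G.lob y hy
  rcases uw_dif (n := a y + b' y - (a Y + b' Y)) (β := α y + β' y - (α Y + β' Y)) (j := i - j) hr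
    H.slack hk (by omega) (by omega) (by linarith) (by linarith) (by push_cast; linarith) with
    g | g | g | g | g | g
  · omega
  · omega
  · exact Or.inl ⟨by omega, by linarith [g.2]⟩
  · refine Or.inr (Or.inl ⟨by omega, not_lt.1 fun c => ?_⟩)
    linarith [g.2, H.walk Y' y G.iY hy c (Or.inr (Or.inr ⟨_, h2.2.2.2.1, le_rfl, c⟩))]
  all_goals omega

/-- Opposite directions: the partner of a high port. -/
lemma opp_clsH (s : a Y + b' Y ≤ 2 * k + 2) {y : T} (hy : I y) (yl : y ≠ l) (m : k < b' y) :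
    (a y + b' y = a Y + b' Y + k ∧ α y + β' y = α Y + β' Y + (r - k)) ∨
      (a y + b' y = a Y + b' Y + k + 1 ∧ α y + β' y = α Y + β' Y + (r - k - 1)) := by
  obtain ⟨e, e'⟩ := opp_eq hk hr H G R J J'
  obtain ⟨i, e1⟩ := J y hy yl
  obtain ⟨j, e2⟩ := J Y H.iY H.Yl
  have := G.low R (Or.inr rfl)
  have h2 := H.low (M3.sw R) (Or.inr rfl)
  have := H.ry
  have := G.ry
  have := H.rc y hy
  have := G.rq y hy
  have := G.walkH y Y' hy G.iY m (by omega) (by simp)
  have c : b Y' + k < a y := by omega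
  have := H.walk Y' y G.iY hy c (Or.inr (Or.inr ⟨_, h2.2.2.2.1, le_rfl, c⟩))
  have := H.hia y hy
  have := H.lob Y' G.iY
  have := G.hia Y' G.iY
  have := G.lob y hy
  rcases uj_dif (n := a y + b' y - (a Y + b' Y)) (β := α y + β' y - (α Y + β' Y)) (j := i - j) hr
    H.slack hk (by omega) (by omega) (by linarith) (by linarith) (by push_cast; linarith) with g | g
  · exact Or.inl ⟨by omega, by linarith [g.2]⟩
  · exact Or.inr ⟨by omega, by linarith [g.2]⟩

end M4

namespace M5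
variable {T : Type} {I : T → Prop} {X Y F X' Y' F' l : T} {k : ℕ} {r t t' : ℝ}
  {a b a' b' : T → ℤ} {α β α' β' : T → ℝ} {B A B' A' : ℤ → Prop}
  (hk : 12 ≤ k) (hr : r < k + 1) (H : M5 I X Y F l k r a b α β t B A)
  (G : M5 I X' Y' F' l k r a' b' α' β' t' B' A') (R : (X' = X ∧ Y' = Y) ∨ (X' = Y ∧ Y' = X))
  (J : Jn I l r 1 a b' α β') (J' : Jn I l r 1 a' b α' β)
include hk hr H G R J J'

lemma opp_small : a Y + b' Y ≤ 2 * k + 2 := by
  by_contra c
  have cls : ∀ {y : T}, I y → y ≠ l → b' y ≤ k - 2 → a y + b' y = a Y + b' Y ∨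
      a y + b' y = a Y + b' Y + 1 ∨ a y + b' y = a Y + b' Y - k ∨ a y + b' y = a Y + b' Y - k - 1 :=
    fun hy yl m => (M4.opp_cls hk hr H.toM4 G.toM4 R J J' hy yl m).imp And.left (Or.imp_left And.left)
  obtain ⟨e, -⟩ := M4.opp_eq hk hr H.toM4 G.toM4 R J J'
  have := G.toM4.low R (Or.inr rfl)
  have l2 := H.toM4.low (M3.sw R) (Or.inr rfl)
  have := H.ry
  have := G.ry
  have := G.rx
  obtain ⟨y, hy, yl, e2⟩ : ∃ y, I y ∧ y ≠ l ∧ b' y = 2 := by
    obtain ⟨y, rfl | rfl, e3⟩ := G.two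
    exacts [⟨_, G.iY, G.Yl, e3⟩, ⟨_, G.iF, G.Fl, e3⟩]
  have := cls hy yl (by omega)
  have := H.rc y hy
  have := (G.fh Y' (by simp)).1
  have big : a Y + b' Y ≤ b' Y' + 2 * k := by
    rcases R with ⟨-, rfl⟩ | ⟨-, rfl⟩
    · omega
    · have := cls H.iX H.Xl (by omega)
      have := H.rc _ H.iX
      have := H.rx
      have := G.rq _ H.iX
      omega
  have key : ∀ n : ℤ, Even n → a Y + b' Y ≤ n + 2 * k + 4 → n + 2 * k < a Y + b' Y → b' l = n :=
    fun n ⟨i, h1⟩ h2 h3 => by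
      obtain ⟨u, hu, eu⟩ := G.lf Y' (Or.inl rfl) n ⟨i, h1⟩ (by omega) (by omega)
      by_contra f
      have := cls hu (fun g => f (g ▸ eu)) (by omega)
      have := H.rc u hu
      omega
  rcases Int.even_or_odd' (a Y + b' Y) with ⟨n, g | g⟩
  · have := key (2 * (n - k - 1)) (even_two_mul _) (by omega) (by omega)
    have := key (2 * (n - k - 2)) (even_two_mul _) (by omega) (by omega)
    omega
  · have := key (2 * (n - k)) (even_two_mul _) (by omega) (by omega)
    have := key (2 * (n - k - 1)) (even_two_mul _) (by omega) (by omega)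
    omega

/-- Opposite directions: only the exact mirror with turn two remains. -/
theorem opp_two : X' = X ∧ Y' = Y ∧ a Y = 2 * k ∧ a' Y = 2 * k ∧ b Y = 2 ∧ b' Y = 2 ∧
    α Y + β' Y = α' Y + β Y ∧
    (∀ y, I y → y ≠ l → b' y ≤ k - 2 → a y + b' y = 2 * k + 2 ∧ α y + β' y = α Y + β' Y) ∧
    ∀ y, I y → y ≠ l → k < b' y →
      (a y + b' y = 3 * k + 2 ∧ α y + β' y = α Y + β' Y + (r - k)) ∨
        (a y + b' y = 3 * k + 3 ∧ α y + β' y = α Y + β' Y + (r - k - 1)) := by
  have s := opp_small hk hr H G R J J'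
  obtain ⟨e, e'⟩ := M4.opp_eq hk hr H.toM4 G.toM4 R J J'
  have y1 := G.toM4.low R (Or.inr rfl)
  have y2 := H.toM4.low (M3.sw R) (Or.inr rfl)
  have := H.ry
  have := G.ry
  have := H.lh
  have := G.lh
  obtain ⟨rfl, rfl⟩ : X' = X ∧ Y' = Y := R.resolve_right fun g => by
    obtain ⟨rfl, rfl⟩ := g
    omega
  have L : ∀ y, I y → y ≠ l → b' y ≤ k - 2 →
      a y + b' y = a Y' + b' Y' ∧ α y + β' y = α Y' + β' Y' := fun y hy yl m => by
    have := H.rc y hy
    have := G.rq y hy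
    rcases M4.opp_cls hk hr H.toM4 G.toM4 R J J' hy yl m with g | g | g | g
    · exact g
    all_goals omega
  have U := fun y => M4.opp_clsH hk hr H.toM4 G.toM4 R J J' s (y := y)
  have k2 : a Y' = 2 * k := by
    by_contra c
    have P : ∀ y, I y → a y = 2 * k ∨ a y = 2 * k - 2 → y = l := fun y hy g => by
      by_contra yl
      rcases G.rq y hy with m | m
      · have := (L y hy yl (by omega)).1
        omega
      · rcases U y hy yl (by omega) with u | u <;> omega
    obtain ⟨y, hy, g⟩ := H.t0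
    obtain rfl := P y hy (Or.inl g)
    have := (G.fh X' (by simp)).1
    have := G.rx
    have := (L X' H.iX H.Xl (by omega)).1
    rcases H.word (k - 3) (by omega) (by omega) with ⟨u, hu, -, -, g⟩ | w | w
    · obtain rfl := P u hu (by omega)
      omega
    · exact H.t1 (by omega) ((show (k : ℤ) - 3 + 1 = k - 2 by ring) ▸ w)
    · exact H.t3 (by omega) w
  refine ⟨rfl, rfl, k2, by omega, by omega, by omega, e', fun y hy yl m => ?_, fun y hy yl m => ?_⟩
  · exact ⟨by have := (L y hy yl m).1; omega, (L y hy yl m).2⟩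
  · exact (U y hy yl m).imp (And.imp_left fun g => by omega) (And.imp_left fun g => by omega)

end M5

end Pool.Agent.P.MP_3f5ded_co.UG
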