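import Mathlib

set_option autoImplicit false

namespace Pool.Agent.P.MP_3f5ded_co.UG

open Finset

/-- The word of one copy in the second mode. `A l`, `B l`: the main centre has a low, a high edge
with label `l` (index `l`, `l - 1`). `Lo l`, `Hi l`: a low, a high port of the clique with label `l`.
`a`: the label missed by `x`; `κ`, `q`: the two ports of the partner of `y` (`q` points to the main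
centre); `st`: the label of the free port of the clique; `b`: the index of the free port of the main
centre; `nq l = [A l] + [Lo l]`; `γ l` is `l - 1` minus the number of entered vertices. -/
structure OWd (k : ℕ) (A B Lo Hi : ℤ → Prop) (a κ q st b : ℤ) (nq γ : ℤ → ℤ) : Prop where
  big : 12 ≤ k
  ev : (k : ℤ) % 2 = 0
  hn : ∀ l : ℤ, 4 ≤ l → l ≤ k - 2 → (A l ∧ Lo l ∧ nq l = 2) ∨ (A l ∧ ¬ Lo l ∧ nq l = 1) ∨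
    (¬ A l ∧ Lo l ∧ nq l = 1) ∨ (¬ A l ∧ ¬ Lo l ∧ nq l = 0)
  par : ∀ l : ℤ, 4 ≤ l → l ≤ k - 2 → (γ l = 0 ∨ γ l = 1) ∧ (l + 1 + γ l + nq l) % 2 = 0
  iso : ∀ l : ℤ, 4 ≤ l → l ≤ k - 3 → γ l + γ (l + 1) ≤ 1
  top : a < k - 2 → γ (k - 2) = 1
  f5 : γ (k - 2) = 1 → γ (k - 4) = 1 → B (k - 4) ∨ B (k - 5)
  a3 : ¬ A 3
  l3 : ¬ Lo 3
  bk : ¬ B (k - 1)
  hk : ¬ Hi (k - 1)
  ab : ∀ l : ℤ, 4 ≤ l → l ≤ k - 2 → A l → ¬ B (l + 1)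
  j3 : ∀ l l' : ℤ, 4 ≤ l → l ≤ l' → l' ≤ l + 3 → l' ≤ k - 2 → B l → ¬ A l'
  lh : ∀ l : ℤ, 4 ≤ l → l ≤ k - 2 → Lo l → ¬ Hi l
  has : ∀ l : ℤ, 4 ≤ l → l ≤ k - 2 → (A l ∨ B l ↔ Lo l ∨ Hi l ∨ l = a)
  na : ¬ Lo a ∧ ¬ Hi a ∧ a ≤ k - 2
  four : B 4 ∧ Lo 4
  ka : 6 ≤ κ ∧ κ < a ∧ B κ ∧ Lo κ
  qq : 6 ≤ q ∧ q < a ∧ B q ∧ Lo q ∧ q ≠ κ
  hs : 4 ≤ st ∧ st ≤ k - 2 ∧ (Lo st ∨ Hi st) ∧ st ≠ κ ∧ st ≠ q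
  fr : 3 ≤ b ∧ b ≤ k - 2 ∧ ¬ A b ∧ ¬ B (b + 1)
  c1 : ∀ m : ℤ, k = 2 * m → m + ∑ l ∈ Ico (4 : ℤ) (k - 1), γ l ≤
    ∑ l ∈ Ico (4 : ℤ) (k - 1), nq l + 2 * ∑ l ∈ Ico (4 : ℤ) (m + 2), γ l
  up : ∀ t : ℤ, 4 ≤ t → t % 2 = 0 → k - 6 ≤ 2 * t → 2 * t ≤ k - 4 →
    ∑ l ∈ Ico (4 : ℤ) (2 * t + 2), nq l + ∑ l ∈ Ico (4 : ℤ) (2 * t + 2), γ l ≤
      t + 3 + 2 * ∑ l ∈ Ico (4 : ℤ) (t + 2), γ l

/-- The ports of the clique of one copy meet the ports of the centres of the other copy; the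
indices add up to `k + 1`. -/
structure OGl (k : ℕ) (B Lo Hi : ℤ → Prop) (κ st : ℤ) (A' B' Hi' : ℤ → Prop) (a' st' b' : ℤ) :
    Prop where
  ka : κ + a' = k + 2
  pr : ∀ n : ℤ, 3 ≤ n → n ≤ k - 2 → ((Lo n ∧ n ≠ st ∧ n ≠ κ) ∨ (Hi (n + 1) ∧ n + 1 ≠ st) ↔
    ¬ A' (k + 1 - n) ∧ ¬ B' (k + 2 - n) ∧ k + 1 - n ≠ b')
  one : ∀ n : ℤ, 3 ≤ n → n ≤ k - 2 → Lo n → n ≠ st → n ≠ κ → Hi (n + 1) → n + 1 = st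
  sg : ∀ l : ℤ, 4 ≤ l → l ≤ k - 2 → B l → Lo l → l ≠ st → l ≠ κ → A' (k + 2 - l) →
    Hi' (k + 2 - l) → k + 2 - l = st'

end Pool.Agent.P.MP_3f5ded_co.UG
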