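import Pool.Agent.P.MP_3f5ded_co.UJOne
import Pool.Agent.P.MP_3f5ded_co.UO0

set_option autoImplicit false

namespace Pool.Agent.P.MP_3f5ded_co.UG

/-- The facts about the second mode that are used against the exact mirror with turn two. `L n`,
`U n`: a low, a high port of the clique has the label `n`; `st` is the label of the free port. -/
structure M7 {T : Type} (I : T → Prop) (X Y F l : T) (k : ℕ) (r : ℝ) (a b : T → ℤ) (α β : T → ℝ)
    (t : ℝ) (B A L U : ℤ → Prop) (st : ℤ) : Prop extends M5 I X Y F l k r a b α β t B A where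
  il : I l
  sl : b l = st ∨ b l = st + k
  lo : ∀ n : ℤ, 3 ≤ n → n ≤ k - 2 → (L n ↔ Lw I b n)
  up : ∀ n : ℤ, 4 ≤ n → n ≤ k - 1 → (U n ↔ Lw I b (n + k))
  inja : ∀ y y', I y → I y' → y ≠ X → y ≠ Y → y' ≠ X → y' ≠ Y → a y = a y' → y = y'
  na : ∀ y, I y → y ≠ X → y ≠ Y → a y ≤ 2 * k - 1 → ¬ A (a y - k - 1) ∧ ¬ B (a y - k)
  wtop : a Y = 2 * k → (∃ y, I y ∧ y ≠ X ∧ y ≠ Y ∧ a y = 2 * k - 1) ∨ B (k - 1) ∨ A (k - 2)
  walkA : ∀ y y', I y → I y' → y' ≠ X → y' ≠ Y → k < b y → A (b y - k) → a y' ≤ b y + 1 →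
    α y' ≤ β y + (r - k - 1)
  wd : a Y = 2 * k → a X ≤ 2 * k - 4 → ∀ Φ : ℤ → Prop,
    (∀ g, Φ g → ∃ y, I y ∧ b y = g + k ∧ k < b y ∧ α Y < β y) →
    ∃ q nq γ, OWd k A B (fun n => L n ∨ Φ n) (fun n => U n ∧ ¬ Φ n) (a X - k) (b X) q st
      (a l - k - 1) nq γ

namespace M7
variable {T : Type} {I : T → Prop} {X Y F F' l : T} {k : ℕ} {r t t' C : ℝ}
  {a b a' b' : T → ℤ} {α β α' β' : T → ℝ} {B A L U B' A' L' U' : ℤ → Prop} {st st' : ℤ}

/-- The labels of the high ports that are read as low ports. -/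
def Fo (I : T → Prop) (l : T) (k : ℕ) (a' b : T → ℤ) (g : ℤ) : Prop :=
  ∃ y, I y ∧ y ≠ l ∧ b y = g + k ∧ k < b y ∧ a' y + b y = 3 * k + 2

/-- The exact classes of the wires from the clique of the first copy. -/
structure Ex (I : T → Prop) (l : T) (k : ℕ) (r C : ℝ) (a' b : T → ℤ) (α' β : T → ℝ) : Prop where
  lo : ∀ y, I y → y ≠ l → b y ≤ k - 2 → a' y + b y = 2 * k + 2 ∧ α' y + β y = C
  hi : ∀ y, I y → y ≠ l → k < b y → (a' y + b y = 3 * k + 2 ∧ α' y + β y = C + (r - k)) ∨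
    (a' y + b y = 3 * k + 3 ∧ α' y + β y = C + (r - k - 1))

variable (hk : 12 ≤ k) (hr : r < k + 1) (H : M7 I X Y F l k r a b α β t B A L U st)
  (G : M7 I X Y F' l k r a' b' α' β' t' B' A' L' U' st') (E : Ex I l k r C a' b α' β)
  (E' : Ex I l k r C a b' α β') (y2 : b Y = 2) (y2' : b' Y = 2) (yt' : a' Y = 2 * k)
include hk hr H G E E' y2 y2' yt'

omit y2 yt' in
lemma flo (g : ℤ) (h : Fo I l k a' b g) : ∃ y, I y ∧ b y = g + k ∧ k < b y ∧ α Y < β y := by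
  obtain ⟨y, hy, yl, e1, e2, e3⟩ := h
  refine ⟨y, hy, e1, e2, ?_⟩
  rcases E.hi y hy yl e2 with u | u
  · have := (E'.lo Y H.iY H.Yl (by omega)).2
    have := G.hia y hy
    have := G.lob Y G.iY
    linarith [u.2]
  · omega

lemma gl (s1 : 4 ≤ st) (s2 : st ≤ k - 2) (s2' : st' ≤ k - 2) :
    OGl k B (fun n => L n ∨ Fo I l k a' b n) (fun n => U n ∧ ¬ Fo I l k a' b n) (b X) st A' B'
      (fun n => U' n ∧ ¬ Fo I l k a b' n) (a' X - k) st' (a' l - k - 1) := by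
  have bx := (H.fh X (by simp)).1
  have := H.rx
  have := H.lh
  have ex := (E.lo X H.iX H.Xl (by omega)).1
  have sl := H.sl
  have sl' := G.sl
  -- a paired low port
  have kl : ∀ n : ℤ, 3 ≤ n → n ≤ k - 2 → L n ∨ Fo I l k a' b n → n ≠ st → n ≠ b X →
      ∃ y, I y ∧ y ≠ l ∧ y ≠ X ∧ y ≠ Y ∧ a' y + n = 2 * k + 2 ∧
        ((b y = n ∧ α' y + β y = C) ∨ (b y = n + k ∧ α' y + β y = C + (r - k))) := by
    intro n n1 n2 g e1 e2
    rcases g with g | ⟨y, hy, yl, e3, e4, e5⟩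
    · obtain ⟨y, hy, e⟩ := (H.lo n n1 n2).1 g
      have yl : y ≠ l := fun c => by rw [c] at e; omega
      have := E.lo y hy yl (by omega)
      exact ⟨y, hy, yl, fun c => by rw [c] at e; omega, fun c => by rw [c] at e; omega, by omega,
        Or.inl ⟨e, this.2⟩⟩
    · refine ⟨y, hy, yl, fun c => by rw [c] at e4; omega, fun c => by rw [c] at e4; omega, by omega,
        Or.inr ⟨e3, ?_⟩⟩
      rcases E.hi y hy yl e4 with u | u
      exacts [u.2, by omega]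
  -- a paired high port
  have kh : ∀ {a' b : T → ℤ} {α' β : T → ℝ} {U : ℤ → Prop} {st : ℤ}, Ex I l k r C a' b α' β →
      (∀ n : ℤ, 4 ≤ n → n ≤ k - 1 → (U n ↔ Lw I b (n + k))) → b X ≤ k → b Y ≤ k →
      (b l = st ∨ b l = st + k) → st ≤ k → ∀ n : ℤ, 4 ≤ n → n ≤ k - 1 →
      U n ∧ ¬ Fo I l k a' b n → n ≠ st → ∃ y, I y ∧ y ≠ l ∧ y ≠ X ∧ y ≠ Y ∧ b y = n + k ∧
        a' y + n = 2 * k + 3 ∧ α' y + β y = C + (r - k - 1) := by
    intro a' b α' β U st E up b1 b2 sl s2 n n1 n2 g e1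
    obtain ⟨y, hy, e⟩ := (up n n1 n2).1 g.1
    have yl : y ≠ l := fun c => by rw [c] at e; omega
    rcases E.hi y hy yl (by omega) with u | u
    · exact absurd ⟨y, hy, yl, e, by omega, u.1⟩ g.2
    · exact ⟨y, hy, yl, fun c => by rw [c] at e; omega, fun c => by rw [c] at e; omega, e, by omega,
        u.2⟩
  have kh1 := kh E H.up (by omega) (by omega) sl (by omega)
  have port : ∀ y, I y → y ≠ l → y ≠ X → y ≠ Y → ∀ n : ℤ, 3 ≤ n → a' y + n = 2 * k + 2 →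
      ¬ A' (k + 1 - n) ∧ ¬ B' (k + 2 - n) ∧ k + 1 - n ≠ a' l - k - 1 := fun y hy e1 e2 e3 n n1 e => by
    have := G.na y hy e2 e3 (by omega)
    rw [show a' y - k - 1 = k + 1 - n by omega, show a' y - k = k + 2 - n by omega] at this
    exact ⟨this.1, this.2, fun c => e1 (G.inja y l hy G.il e2 e3 G.Xl.symm G.Yl.symm (by omega))⟩
  refine ⟨by omega, fun n n1 n2 => ⟨?_, fun ⟨g1, g2, g3⟩ => ?_⟩, fun n n1 n2 g e1 e2 g' => ?_,
    fun n n1 n2 g1 g2 e1 e2 g3 g4 => ?_⟩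
  · rintro (⟨g, e1, e2⟩ | ⟨g, e1⟩)
    · obtain ⟨y, hy, u1, u2, u3, u4, -⟩ := kl n n1 n2 g e1 e2
      exact port y hy u1 u2 u3 n n1 u4
    · obtain ⟨y, hy, u1, u2, u3, -, u4, -⟩ := kh1 (n + 1) (by omega) (by omega) g e1
      exact port y hy u1 u2 u3 n n1 (by omega)
  · obtain ⟨y, hy, u2, u3, u4⟩ : ∃ y, I y ∧ y ≠ X ∧ y ≠ Y ∧ a' y + n = 2 * k + 2 := by
      by_cases c : n = 3
      · subst c
        rcases G.wtop yt' with ⟨y, u⟩ | u | u
        · exact ⟨y, u.1, u.2.1, u.2.2.1, by omega⟩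
        · exact absurd (by rwa [show (k : ℤ) + 2 - 3 = k - 1 by ring]) g2
        · exact absurd (by rwa [show (k : ℤ) + 1 - 3 = k - 2 by ring]) g1
      by_cases c' : n = k - 2
      · exact absurd (by rw [show (k : ℤ) + 2 - n = 4 by omega]; exact G.four.2) g2
      rcases G.word (k + 1 - n) (by omega) (by omega) with ⟨y, u⟩ | u | u
      · exact ⟨y, u.1, u.2.1, u.2.2.1, by omega⟩
      · exact absurd (by rwa [show (k : ℤ) + 2 - n = k + 1 - n + 1 by ring]) g2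
      · exact absurd u g1
    have yl : y ≠ l := fun c => g3 (by rw [c] at u4; omega)
    have nl : b y ≠ b l := fun c => yl (H.injb _ _ hy H.il c)
    have n1' := H.labq y l hy H.il
    have n2' := H.labq l y H.il hy
    have nx : b y ≠ b X := fun c => u2 (H.injb _ _ hy H.iX c)
    have n3' := H.labq y X hy H.iX
    rcases H.rq y hy with m | m
    · have := (E.lo y hy yl (by omega)).1
      exact Or.inl ⟨Or.inl ((H.lo n n1 n2).2 ⟨y, hy, by omega⟩), by omega, by omega⟩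
    rcases E.hi y hy yl (by omega) with u | u
    · exact Or.inl ⟨Or.inr ⟨y, hy, yl, by omega, by omega, u.1⟩, by omega, by omega⟩
    · refine Or.inr ⟨⟨(H.up (n + 1) (by omega) (by omega)).2 ⟨y, hy, by omega⟩, ?_⟩, by omega⟩
      rintro ⟨y', hy', -, v1, -, v2⟩
      rw [H.injb y' y hy' hy (by omega)] at v2
      omega
  · by_contra e3
    obtain ⟨y, hy, -, u2, u3, u4, u5⟩ := kl n n1 n2 g e1 e2
    obtain ⟨y', hy', -, v2, v3, v4, v5, -⟩ := kh1 (n + 1) (by omega) (by omega) g' e3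
    rw [G.inja y y' hy hy' u2 u3 v2 v3 (by omega)] at u5
    omega
  · by_contra e3
    have bx' := (G.fh X (by simp)).1
    have := G.rx
    obtain ⟨y, hy, -, u2, u3, u4, u5⟩ := kl n (by omega) n2 g2 e1 e2
    obtain ⟨y', hy', -, v2, v3, v4, v5, v6⟩ := kh E' G.up (by omega) (by omega) sl' (by omega)
      (k + 2 - n) (by omega) (by omega) g4 e3
    have w1 := G.walkA y' y hy' hy u2 u3 (by omega)
      (by rwa [show b' y' - k = k + 2 - n by omega]) (by omega)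
    rcases u5 with u | u
    · have := H.walk y y' hy hy' (by omega) (Or.inr (Or.inr ⟨n, g1, by omega, by omega⟩))
      linarith [u.2]
    · have := H.walkH y y' hy hy' (by omega) (by omega)
        (Or.inr (Or.inr (by rwa [show b y - k = n by omega])))
      linarith [u.2]

end M7

/-- Opposite directions: the two words and the two lists of wires. -/
theorem M7.words {T : Type} {I : T → Prop} {X Y F X' Y' F' l : T} {k : ℕ} {r t t' : ℝ}
    {a b a' b' : T → ℤ} {α β α' β' : T → ℝ} {B A L U B' A' L' U' : ℤ → Prop} {st st' : ℤ}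
    (hk : 12 ≤ k) (hr : r < k + 1) (H : M7 I X Y F l k r a b α β t B A L U st)
    (G : M7 I X' Y' F' l k r a' b' α' β' t' B' A' L' U' st')
    (R : (X' = X ∧ Y' = Y) ∨ (X' = Y ∧ Y' = X)) (J : Jn I l r 1 a b' α β')
    (J' : Jn I l r 1 a' b α' β) :
    ∃ (L U L' U' : ℤ → Prop) (x κ q e x' κ' q' e' : ℤ) (nq γ nq' γ' : ℤ → ℤ),
      OWd k A B L U x κ q st e nq γ ∧ OWd k A' B' L' U' x' κ' q' st' e' nq' γ' ∧
      OGl k B L U κ st A' B' U' x' st' e' ∧ OGl k B' L' U' κ' st' A B U x st e := by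
  obtain ⟨rfl, rfl, e1, e2, e3, e4, e5, e6, e7⟩ := M5.opp_two hk hr H.toM5 G.toM5 R J J'
  obtain ⟨-, -, -, -, -, -, -, f6, f7⟩ := M5.opp_two hk hr G.toM5 H.toM5 (M3.sw R) J' J
  have E' : M7.Ex I l k r (α Y' + β' Y') a b' α β' := ⟨e6, e7⟩
  have E : M7.Ex I l k r (α Y' + β' Y') a' b α' β := e5 ▸ ⟨f6, f7⟩
  have x1 := (G.fh X' (by simp)).1
  have x2 := (H.fh X' (by simp)).1
  have := G.rx
  have := H.rx
  have := G.lh
  have := H.lh
  have := (e6 X' H.iX H.Xl (by omega)).1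
  have := (f6 X' H.iX H.Xl (by omega)).1
  obtain ⟨q, nq, γ, w⟩ := H.wd e1 (by omega) _ (M7.flo hk hr H G E E' e4)
  obtain ⟨q', nq', γ', w'⟩ := G.wd e2 (by omega) _ (M7.flo hk hr G H E' E e3)
  exact ⟨_, _, _, _, _, _, _, _, _, _, _, _, _, _, _, _, w, w',
    M7.gl hk hr H G E E' e3 e4 e2 w.hs.1 w.hs.2.1 w'.hs.2.1,
    M7.gl hk hr G H E' E e4 e3 e1 w'.hs.1 w'.hs.2.1 w.hs.2.1⟩

end Pool.Agent.P.MP_3f5ded_co.UG
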