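import Pool.Agent.P.MP_3f5ded_co.UO2
import Pool.Agent.P.MP_3f5ded_co.EU5

set_option autoImplicit false

namespace Pool.Agent.P.MP_3f5ded_co.UG

namespace PM
variable {W : Type} {k : ℕ} {r r' : ℝ} {Fe : W → W → Prop} {P : PM W k r' Fe} {Q : Finset W}
  {X Y : W → ℤ} {x y c f h z1 z2 u w : W} {n l : ℤ} {C : W → W → ℝ} {o : W → ℤ → ℝ}
  [Fintype W] {Pt : Finset (W × W)}

/-- A high port that is later than the port of `y` is a last item. -/
theorem W4.flo (m : P.W4 Q x y c f h z1 z2 u Y X) (d : D1 k Fe Q Pt x z1 z2) (O : P.Off r C o)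
    (hw : w ∈ Q) (p : Fe w (P.it w l)) (h0 : 0 ≤ l) (h1 : l < X w) (h2 : (k : ℤ) ≤ n + 3)
    (g : o y n + (r - k - 1) < o w (l + k)) : X w = l + 1 := by
  by_contra e
  obtain ⟨j, j1, -, j2, -, b, e1, -⟩ := m.f8 d hw p h0 (by omega)
  have := O.tB b
  rw [e1] at this
  linarith [O.mono w (show l + k ≤ j + k + 1 by omega), O.mono y (show j ≤ n by omega)]

end PM

end Pool.Agent.P.MP_3f5ded_co.UG
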