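import Pool.Agent.P.MP_3f5ded_co.UO3
import Pool.Agent.P.MP_3f5ded_co.UO4
import Pool.Agent.P.MP_3f5ded_co.UO6
import Pool.Agent.P.MP_3f5ded_co.EU2

set_option autoImplicit false

namespace Pool.Agent.P.MP_3f5ded_co.UG

namespace PM
variable {W : Type} {k : ℕ} {r r' : ℝ} {Fe : W → W → Prop} {P : PM W k r' Fe} {Q : Finset W}
  {X Y : W → ℤ} {x y c f h z1 z2 u w z t t' l : W} {n : ℤ} {C : W → W → ℝ} {o : W → ℤ → ℝ}
  {I : W → Prop} {a b : W → ℤ} {α β : W → ℝ}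

/-- The ports listed along the wires. -/
structure Ls (P : PM W k r' Fe) (x y c f h : W) (X : W → ℤ) (r : ℝ) (o : W → ℤ → ℝ) (I : W → Prop)
    (a b : W → ℤ) (α β : W → ℝ) : Prop where
  ix : ∀ t, I t ↔ t = x ∨ t = y ∨ Fe c t
  ca : ∀ t z s, (t = x ∧ z = x ∧ s = f) ∨ (t = y ∧ z = y ∧ s = h) ∨ (Fe c t ∧ z = c ∧ s = t) →
    k + 1 ≤ a t ∧ a t ≤ 2 * k ∧ P.it z (a t - k - 1) = s ∧ α t = o z (a t - k - 1) + (r - k - 1)
  cb : ∀ t w s, (t = x ∧ w = h ∧ s = y) ∨ (t = y ∧ w = f ∧ s = x) ∨ (Fe c t ∧ w = t ∧ s = c) →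
    X w ≤ b t ∧ b t < X w + k ∧ P.it w (b t) = s ∧ β t = o w (b t)

variable [Fintype W] {Pt : Finset (W × W)}

namespace W4
variable (m : P.W4 Q x y c f h z1 z2 u Y X) (d : D1 k Fe Q Pt x z1 z2)
  (s : P.Ls x y c f h X r o I a b α β)
include m d

lemma nfe {z' : W} (hz : z ∉ Q) (hz' : z' ∉ Q) (e : z' ≠ z) : ¬ Fe z z' := by
  have := d.e01
  have := d.e02
  have := d.e12
  have := d.sw'.e01
  have := d.sw.sw'.e01
  have : ¬ Fe z2 z1 := d.sw.e12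
  rcases (d.out z).1 hz with rfl | rfl | rfl <;> rcases (d.out z').1 hz' with rfl | rfl | rfl <;>
    tauto

/-- The main centre has no low edge within three places above a high edge. -/
lemma ex3 (j : ∀ n n' : ℤ, P.Ty Q 1 c n → P.Ty Q 0 c n' → 1 ≤ n → n < n' → n' + 2 ≤ k → n + 6 ≤ n')
    (B : P.Ty Q 1 c n) : ¬ P.Ty Q 0 c (n + 3) := fun A => by
  have hk := d.sz.big
  obtain ⟨i, i1, i2, e⟩ := P.win (P.ne c n) (-1)
  have e' : P.it c (i + 3) = P.it c (n + 3) :=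
    (P.inj c _ _).2 (by simpa using (P.inj c _ _).1 e)
  have B' : P.Ty Q 1 c i := by unfold Ty at B ⊢; rwa [e]
  have A' : P.Ty Q 0 c (i + 3) := by unfold Ty at A ⊢; rwa [e']
  have := (m.idx d (m.oc d) i1 (by omega) B').2 (m.nes d).2.1.symm
  by_cases g : i + 3 + 2 ≤ k
  · have := j _ _ B' A' this (by omega) g
    omega
  · refine m.cA5 d (n := i + 3 - k) (by omega) (by omega) ?_
    unfold Ty at A' ⊢
    rwa [P.it_sub]

include s

lemma inQ (e : Fe c t) : t ∈ Q ∧ t ≠ x ∧ t ≠ y := by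
  have tc : t ≠ c := (s.ca t c t (Or.inr (Or.inr ⟨e, rfl, rfl⟩))).2.2.1 ▸ P.ne c _
  have : t ∈ Q := by_contra fun g => m.nfe d (m.oc d) g tc e
  exact ⟨this, fun g => d.o0 (g ▸ this), fun g => m.oy d (g ▸ this)⟩

lemma lA (ht : I t) : ∃ (z : W) (n : ℤ), z ∉ Q ∧ 4 ≤ n ∧ n < k ∧ a t = n + k + 1 ∧ Fe z (P.it z n) ∧
    α t = o z n + (r - k - 1) ∧ ((t = x ∧ z = x ∧ P.it x n = f) ∨ (t = y ∧ z = y) ∨
      (t ≠ x ∧ t ≠ y ∧ z = c ∧ P.it c n = t)) := by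
  rcases (s.ix t).1 ht with e | e | e
  · obtain ⟨a1, a2, a3, a4⟩ := s.ca t x f (Or.inl ⟨e, rfl, rfl⟩)
    have p : Fe x (P.it x (a t - k - 1)) := a3 ▸ P.sym _ _ ((m.sp.fx f).2 rfl)
    exact ⟨x, _, d.o0, m.crange d d.o0 (by omega) (by omega) p, by omega, by omega, p, a4,
      Or.inl ⟨e, rfl, a3⟩⟩
  · obtain ⟨a1, a2, a3, a4⟩ := s.ca t y h (Or.inr (Or.inl ⟨e, rfl, rfl⟩))
    have p : Fe y (P.it y (a t - k - 1)) := a3 ▸ P.sym _ _ ((m.sp.fy h).2 rfl)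
    exact ⟨y, _, m.oy d, m.crange d (m.oy d) (by omega) (by omega) p, by omega, by omega, p, a4,
      Or.inr (Or.inl ⟨e, rfl⟩)⟩
  · obtain ⟨a1, a2, a3, a4⟩ := s.ca t c t (Or.inr (Or.inr ⟨e, rfl, rfl⟩))
    have p : Fe c (P.it c (a t - k - 1)) := a3.symm ▸ e
    exact ⟨c, _, m.oc d, m.crange d (m.oc d) (by omega) (by omega) p, by omega, by omega, p, a4,
      Or.inr (Or.inr ⟨(m.inQ d s e).2.1, (m.inQ d s e).2.2, rfl, a3⟩)⟩

lemma lB (ht : I t) : ∃ w ∈ Q, X w ≤ b t ∧ b t < X w + k ∧ Fe w (P.it w (b t)) ∧ β t = o w (b t) ∧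
    ((2 ≤ b t ∧ b t ≤ k - 2 ∧ b t ≠ 3) ∨ (k + 5 ≤ b t ∧ b t ≤ 2 * k - 2)) ∧
    ((t = x ∧ w = h ∧ P.it w (b t) = y) ∨ (t = y ∧ w = f ∧ P.it w (b t) = x) ∨
      (w = t ∧ P.it w (b t) = c)) := by
  rcases (s.ix t).1 ht with e | e | e
  · obtain ⟨a1, a2, a3, a4⟩ := s.cb t h y (Or.inl ⟨e, rfl, rfl⟩)
    have p : Fe h (P.it h (b t)) := a3 ▸ (m.sp.fy h).2 rfl
    exact ⟨h, m.sp.hq, a1, a2, p, a4, m.qrange d m.sp.hq a1 a2 p, Or.inl ⟨e, rfl, a3⟩⟩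
  · obtain ⟨a1, a2, a3, a4⟩ := s.cb t f x (Or.inr (Or.inl ⟨e, rfl, rfl⟩))
    have p : Fe f (P.it f (b t)) := a3 ▸ (m.sp.fx f).2 rfl
    exact ⟨f, m.sp.hp, a1, a2, p, a4, m.qrange d m.sp.hp a1 a2 p, Or.inr (Or.inl ⟨e, rfl, a3⟩)⟩
  · obtain ⟨a1, a2, a3, a4⟩ := s.cb t t c (Or.inr (Or.inr ⟨e, rfl, rfl⟩))
    have p : Fe t (P.it t (b t)) := a3 ▸ P.sym _ _ e
    have q := (m.inQ d s e).1
    exact ⟨t, q, a1, a2, p, a4, m.qrange d q a1 a2 p, Or.inr (Or.inr ⟨rfl, a3⟩)⟩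

lemma sA (hz : z ∉ Q) (h0 : 0 ≤ n) (h1 : n < k) (p : Fe z (P.it z n)) :
    ∃ t, I t ∧ a t = n + k + 1 ∧ (z = c → t ≠ x ∧ t ≠ y) := by
  obtain ⟨n1, n2, n3⟩ := m.nes d
  rcases (m.out d z).1 hz with rfl | rfl | rfl
  · obtain ⟨a1, a2, a3, -⟩ := s.ca z z f (Or.inl ⟨rfl, rfl, rfl⟩)
    have := P.uniq (a3.trans ((m.sp.fx _).1 (P.sym _ _ p)).symm) (by omega) (by omega)
    exact ⟨z, (s.ix _).2 (Or.inl rfl), by omega, fun e => absurd e n2⟩
  · obtain ⟨a1, a2, a3, -⟩ := s.ca z z h (Or.inr (Or.inl ⟨rfl, rfl, rfl⟩))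
    have := P.uniq (a3.trans ((m.sp.fy _).1 (P.sym _ _ p)).symm) (by omega) (by omega)
    exact ⟨z, (s.ix _).2 (Or.inr (Or.inl rfl)), by omega, fun e => absurd e n3⟩
  · obtain ⟨a1, a2, a3, -⟩ := s.ca _ z _ (Or.inr (Or.inr ⟨p, rfl, rfl⟩))
    have := P.uniq a3 (by omega) (by omega)
    exact ⟨_, (s.ix _).2 (Or.inr (Or.inr p)), by omega, fun _ => (m.inQ d s p).2⟩

lemma sB (hw : w ∈ Q) (h0 : X w ≤ n) (h1 : n < X w + k) (p : Fe w (P.it w n)) :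
    ∃ t, I t ∧ b t = n ∧ (w = f → t = y ∨ t = f) := by
  rcases (m.out d _).1 (fun g => m.fl.cl w hw _ g p) with e | e | e
  · obtain rfl := (m.sp.fx w).1 (e ▸ p)
    obtain ⟨a1, a2, a3, -⟩ := s.cb y w x (Or.inr (Or.inl ⟨rfl, rfl, rfl⟩))
    exact ⟨y, (s.ix _).2 (Or.inr (Or.inl rfl)), P.uniq (a3.trans e.symm) (by omega) (by omega),
      fun _ => Or.inl rfl⟩
  · obtain rfl := (m.sp.fy w).1 (e ▸ p)
    obtain ⟨a1, a2, a3, -⟩ := s.cb x w y (Or.inl ⟨rfl, rfl, rfl⟩)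
    exact ⟨x, (s.ix _).2 (Or.inl rfl), P.uniq (a3.trans e.symm) (by omega) (by omega),
      fun g => absurd g.symm m.sp.pq⟩
  · have g : Fe c w := P.sym _ _ (e ▸ p)
    obtain ⟨a1, a2, a3, -⟩ := s.cb w w c (Or.inr (Or.inr ⟨g, rfl, rfl⟩))
    exact ⟨w, (s.ix _).2 (Or.inr (Or.inr g)), P.uniq (a3.trans e.symm) (by omega) (by omega),
      Or.inr⟩

lemma loI (h1 : n ≤ k) : P.LoP Q X n ↔ Lw I b n := by
  constructor
  · rintro ⟨w, hw, g, p⟩
    have := m.pos w hw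
    obtain ⟨t, a1, a2, -⟩ := m.sB d s hw g (by omega) p
    exact ⟨t, a1, a2⟩
  · rintro ⟨t, ht, rfl⟩
    obtain ⟨w, hw, a1, -, p, -⟩ := m.lB d s ht
    exact ⟨w, hw, a1, p⟩

lemma upI (h0 : 0 ≤ n) : P.HiP Q X n ↔ Lw I b (n + k) := by
  constructor
  · rintro ⟨w, hw, g, p⟩
    have := m.hi w hw
    obtain ⟨t, a1, a2, -⟩ := m.sB d s hw (n := n + k) (by omega) (by omega) (by rwa [P.it_add])
    exact ⟨t, a1, a2⟩
  · rintro ⟨t, ht, e⟩
    obtain ⟨w, hw, -, a1, p, -⟩ := m.lB d s ht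
    exact ⟨w, hw, by omega, by rwa [e, P.it_add] at p⟩

/-- The port of `x`. -/
lemma px : 4 ≤ a x - k - 1 ∧ a x - k - 1 + 3 ≤ k ∧ P.it x (a x - k - 1) = f := by
  obtain ⟨a1, a2, a3, -⟩ := s.ca x x f (Or.inl ⟨rfl, rfl, rfl⟩)
  have p : Fe x (P.it x (a x - k - 1)) := a3 ▸ P.sym _ _ ((m.sp.fx f).2 rfl)
  exact ⟨m.crange d d.o0 (by omega) (by omega) p, m.xle d (by omega) (by omega) p, a3⟩

/-- The port of `y`. -/
lemma py : 2 * k - 1 ≤ a y ∧ a y ≤ 2 * k ∧ Fe y (P.it y (a y - k - 1)) ∧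
    α y = o y (a y - k - 1) + (r - k - 1) := by
  obtain ⟨a1, a2, a3, a4⟩ := s.ca y y h (Or.inr (Or.inl ⟨rfl, rfl, rfl⟩))
  have p : Fe y (P.it y (a y - k - 1)) := a3 ▸ P.sym _ _ ((m.sp.fy h).2 rfl)
  exact ⟨by have := m.yh d (by omega) (by omega) p; omega, a2, p, a4⟩

lemma yz1 (e : a y = 2 * k) : y = z1 := by
  have p := (m.py d s).2.2.1
  rw [show a y - k - 1 = -1 + k by omega, P.it_add] at p
  exact m.ctop d (m.oy d) p

lemma ltop (ht : I t) (e : a t = 2 * k) (e' : a y = 2 * k) : t = y := by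
  obtain ⟨z, n, hz, -, -, a1, p, -, g⟩ := m.lA d s ht
  rw [show n = -1 + k by omega, P.it_add] at p
  have := (m.ctop d hz p).trans (m.yz1 d s e').symm
  have := m.nes d
  rcases g with g | g | g
  · exact absurd (g.2.1.symm.trans ‹z = y›) this.1
  · exact g.1
  · exact absurd (g.2.2.1.symm.trans ‹z = y›).symm this.2.2

lemma sameB (ht : I t) (ht' : I t') (e : b t = b t' ∨ b t = b t' + k) : b t = b t' ∧ t = t' := by
  have hk := d.sz.big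
  obtain ⟨w, hw, a1, a2, p, -, a3, a4⟩ := m.lB d s ht
  obtain ⟨w', hw', b1, b2, p', -, b3, b4⟩ := m.lB d s ht'
  have i : P.it w (b t) = P.it w (b t') := by
    rcases e with e | e <;> rw [e]
    exact P.it_add _ _
  obtain rfl : w = w' := by
    rw [i] at p
    rcases b3 with g | g
    · exact m.pone hw hw' (by omega) (by omega) p p'
    · rw [← P.it_sub] at p p'
      exact m.pone hw hw' (by omega) (by omega) p p'
  refine ⟨by omega, ?_⟩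
  obtain ⟨n1, n2, n3⟩ := m.nes d
  rw [i] at a4
  rcases a4 with g | g | g <;> rcases b4 with g' | g' | g'
  · exact g.1.trans g'.1.symm
  · exact absurd (g'.2.2.symm.trans g.2.2) n1
  · exact absurd (g.2.2.symm.trans g'.2) n3
  · exact absurd (g.2.2.symm.trans g'.2.2) n1
  · exact g.1.trans g'.1.symm
  · exact absurd (g.2.2.symm.trans g'.2) n2
  · exact absurd (g'.2.2.symm.trans g.2) n3
  · exact absurd (g'.2.2.symm.trans g.2) n2
  · exact g.1.symm.trans g'.1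

/-- A high edge of the centre below its port. -/
lemma below (ht : I t) {j : ℤ} (h0 : 2 ≤ j) (h1 : j + 2 ≤ k) (h2 : j + k < a t)
    (g : t = x ∨ t = y ∨ ∃ i, P.Ty Q 1 c (i - 1) ∧ j ≤ i ∧ i + k < a t) :
    ∃ z n i, z ∉ Q ∧ α t = o z n + (r - k - 1) ∧ P.Ty Q 1 z i ∧ j ≤ i + 1 ∧ i + 2 ≤ k ∧ i ≤ n := by
  have hk := d.sz.big
  obtain ⟨z, n, hz, a1, a2, a3, p, a4, e | e | e⟩ := m.lA d s ht
  · obtain ⟨-, rfl, e⟩ := e
    exact ⟨z, n, j - 1, hz, a4, m.xty d (by omega) (by omega) fun g => by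
      have := P.uniq (g.trans e.symm) (by omega) (by omega); omega, by omega, by omega, by omega⟩
  · obtain ⟨-, rfl⟩ := e
    have := m.yh d (by omega) a2 p
    exact ⟨z, n, k - 3, hz, a4, m.yB _ (by omega) (by omega), by omega, by omega, by omega⟩
  · obtain ⟨i, i1, i2, i3⟩ := (g.resolve_left e.1).resolve_left e.2.1
    exact ⟨z, n, i - 1, hz, a4, e.2.2.1 ▸ i1, by omega, by omega, by omega⟩

end W4

namespace W5
variable (m : P.W5 Q x y c f h z1 z2 u Y X) (d : D1 k Fe Q Pt x z1 z2)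
  (s : P.Ls x y c f h X r o I a b α β) (O : P.Off r C o)
include m d s

lemma pf (e : t = y ∨ t = f) : Fe f (P.it f (b t)) ∧ 2 ≤ b t ∧ b t + 2 ≤ k := by
  have xf := (m.xf d).1
  have key : ∀ v, (t = x ∧ f = h ∧ v = y) ∨ (t = y ∧ f = f ∧ v = x) ∨ (Fe c t ∧ f = t ∧ v = c) →
      Fe f v → Fe f (P.it f (b t)) ∧ 2 ≤ b t ∧ b t + 2 ≤ k := fun v g p => by
    obtain ⟨a1, a2, a3, -⟩ := s.cb t f v g
    have := m.qrange d m.sp.hp a1 a2 (a3 ▸ p)
    exact ⟨a3 ▸ p, by omega, by omega⟩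
  rcases e with e | e
  · exact key x (Or.inr (Or.inl ⟨e, rfl, rfl⟩)) ((m.sp.fx f).2 rfl)
  · exact key c (Or.inr (Or.inr ⟨e ▸ P.sym _ _ m.sp.fp, e.symm, rfl⟩)) m.sp.fp

lemma ph : 6 ≤ b x ∧ b x + k < a x ∧ P.Ty Q 1 c (b x - 1) ∧ P.it h (b x) = y := by
  obtain ⟨x1, x2, x3⟩ := m.px d s
  obtain ⟨a1, a2, a3, -⟩ := s.cb x h y (Or.inl ⟨rfl, rfl, rfl⟩)
  have xh := m.xh d
  have := m.hprt d (by omega) x2 x3 (n := b x) (by omega) (by omega) (a3 ▸ (m.sp.fy h).2 rfl)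
  exact ⟨this.1, by omega, this.2.2.1, a3⟩

include O

theorem m4 (hl : Fe c l) (lf : l ≠ f) :
    M4 I x y f l k r a b α β (o f 2) (fun i => P.Ty Q 1 c (i - 1)) (P.Ty Q 0 c) := by
  have hk := d.sz.big
  obtain ⟨x1, x2, x3⟩ := m.px d s
  obtain ⟨y1, y2, -⟩ := m.py d s
  have l1 := m.inQ d s hl
  have xf := (m.xf d).1
  refine ⟨(s.ix _).2 (Or.inl rfl), (s.ix _).2 (Or.inr (Or.inl rfl)),
    (s.ix _).2 (Or.inr (Or.inr (P.sym _ _ m.sp.fp))), l1.2.1.symm, l1.2.2.symm, lf.symm,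
    fun e => m.oy d (e ▸ m.sp.hp), fun t ht => ?_, fun t ht => ?_, fun t ht => ?_, fun t ht e => ?_,
    fun t t' ht ht' e => (m.sameB d s ht ht' (Or.inl e)).2,
    fun t t' ht ht' e => by have := (m.sameB d s ht ht' (Or.inr e)).1; omega, by omega, by omega,
    fun t ht => ?_, fun t ht => ?_, fun t ht e e' => m.ltop d s ht e e', fun n n1 n2 => ?_,
    fun i i1 i2 i3 g => ?_, fun i B => ⟨fun A => ?_, fun A => ?_, fun A => ?_⟩, fun t e => ?_,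
    ⟨(m.loI d s (by omega)).1 (m.lo4 d), m.cb3 d⟩, fun t t' ht ht' e g => ?_,
    fun t t' ht ht' e e' g => ?_⟩
  · obtain ⟨z, n, hz, a1, -, -, -, a4, -⟩ := m.lA d s ht
    exact a4 ▸ m.clo d O hz a1
  · obtain ⟨z, n, hz, -, a2, -, -, a4, -⟩ := m.lA d s ht
    exact a4 ▸ m.chi d O hz a2
  · obtain ⟨w, hw, a1, -, p, a4, a5, -⟩ := m.lB d s ht
    rw [a4]
    by_cases z : b t = 2
    · rw [z] at p ⊢
      rw [m.pone hw m.sp.hp (by omega) (by omega) p (m.f2 d)]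
    · exact m.olow d O hw a1 (by omega)
  · obtain ⟨w, hw, a1, -, -, a4, -⟩ := m.lB d s ht
    rw [a4]
    exact (m.walk d O hw a1 (m.oy d) (m.yB (k - 3) (by omega) (by omega)) (by omega) (by omega)
      le_rfl).trans (m.chi d O (m.oy d) (by omega))
  · obtain ⟨z, n, hz, a1, a2, a3, -⟩ := m.lA d s ht
    omega
  · obtain ⟨w, hw, -, -, -, -, a5, -⟩ := m.lB d s ht
    exact a5
  · by_cases p : Fe c (P.it c n)
    · obtain ⟨t, a1, a2, a3⟩ := m.sA d s (m.oc d) (by omega) (by omega) p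
      exact Or.inl ⟨t, a1, (a3 rfl).1, (a3 rfl).2, by omega⟩
    · rw [add_sub_cancel_right]
      exact Or.inr (m.cin d (by omega) n2 p).symm
  · have H : P.Has Q c i := by
      rcases g with g | g
      · simpa using (m.cen d (m.oc d)).hasB g
      · exact (m.cen d (m.oc d)).hasA g
    obtain ⟨w, hw, p⟩ := m.hasP d (by omega) x2 x3 i1 i2 (by omega) H
    rcases le_or_gt (X w) i with e | e
    · obtain ⟨t, a1, a2⟩ := (m.loI d s (by omega)).1 ⟨w, hw, e, p⟩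
      exact ⟨t, a1, Or.inl a2⟩
    · obtain ⟨t, a1, a2⟩ := (m.upI d s (by omega)).1 ⟨w, hw, e, p⟩
      exact ⟨t, a1, Or.inr a2⟩
  · have := m.fl.jump' B A (by omega)
    omega
  · have := m.fl.jump' B A (by omega)
    omega
  · exact m.ex3 d m.jmp B (by rwa [show i - 1 + 3 = i + 2 by ring])
  · rcases e with rfl | e
    · exact ⟨(m.ph d s).2.1, (m.ph d s).2.2.1⟩
    · obtain ⟨p, a1, a2⟩ := m.pf d s e
      have := m.lowB d (by omega) x2 x3 m.sp.hp (by omega) a2 p (m.fA d p a2 (by omega) le_rfl)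
      exact ⟨by omega, this.2⟩
  · obtain ⟨w, hw, a1, -, -, a4, a5, -⟩ := m.lB d s ht
    obtain ⟨_, _, -, -, b1, b2, -⟩ := m.lA d s ht'
    obtain ⟨z, n, i, hz, e1, e2, e3, e4, e5⟩ := m.below d s ht' (j := b t) (by omega) (by omega) e g
    rw [a4, e1]
    exact m.walk d O hw a1 hz e2 e3 e4 e5
  · obtain ⟨w, hw, a1, a2, p, a4, a5, -⟩ := m.lB d s ht
    obtain ⟨z, n, hz, b1, b2, b3, p', b4, b5⟩ := m.lA d s ht'
    have := m.walkH d O hw (l := b t - k) (n := n) (by omega) (by rwa [P.it_sub]) hz ?_ (by omega)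
      (by omega) (by omega)
    · rwa [sub_add_cancel, ← a4, ← b4] at this
    rcases b5 with e | e | e
    · obtain ⟨-, rfl, e⟩ := e
      exact m.xty d (by omega) (by omega) fun g => by
        have := P.uniq (g.trans e.symm) (by omega) (by omega); omega
    · exact e.2 ▸ m.yB _ (by omega) (by omega)
    · exact e.2.2.1 ▸ (g.resolve_left e.1).resolve_left e.2.1

theorem m5 (hl : Fe c l) (lf : l ≠ f) :
    M5 I x y f l k r a b α β (o f 2) (fun i => P.Ty Q 1 c (i - 1)) (P.Ty Q 0 c) := by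
  have hk := d.sz.big
  obtain ⟨x1, x2, x3⟩ := m.px d s
  have xf := (m.xf d).1
  refine ⟨m.m4 d s O hl lf, ?_, fun t e n n0 n1 n2 => ?_, (m.ph d s).1, ?_, fun g => ?_, fun g => ?_,
    ?_⟩
  · obtain ⟨t, -, a1, a2⟩ := m.sB d s m.sp.hp (n := 2) (by omega) (by omega) (m.f2 d)
    exact ⟨t, a2 rfl, a1⟩
  · obtain ⟨p, a1, a2⟩ := m.pf d s e
    exact (m.loI d s (by omega)).1 ((m.lf d p (by omega) n2 a2).2 (Int.even_iff.1 n0))
  · obtain ⟨t, a1, a2, -⟩ := m.sA d s d.o1 (n := -1 + k) (by omega) (by omega)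
      (by rw [P.it_add]; exact m.port)
    exact ⟨t, a1, by omega⟩
  · rw [show (k : ℤ) - 2 - 1 = k - 3 by ring]
    exact m.top2 d fun e => by have := P.uniq (e.trans x3.symm) (by omega) (by omega); omega
  · exact m.t3 d (by omega) (by omega) x3 (by omega) (by omega)
  · obtain ⟨i, j, i1, i2, i3, g⟩ := m.oo d
    rw [m.loI d s (by omega), m.loI d s (by omega), m.loI d s (by omega), m.loI d s (by omega),
      m.loI d s (by omega), m.loI d s (by omega)] at g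
    exact ⟨i, j, i2, i3, g⟩

theorem m7 (hl : Fe c l) (lf : l ≠ f) (lh : l ≠ h) : ∃ st,
    M7 I x y f l k r a b α β (o f 2) (fun i => P.Ty Q 1 c (i - 1)) (P.Ty Q 0 c) (P.LoP Q X)
      (P.HiP Q X) st := by
  have hk := d.sz.big
  obtain ⟨x1, x2, x3⟩ := m.px d s
  obtain ⟨y1, y2, -, y4⟩ := m.py d s
  have l1 := m.inQ d s hl
  have il := (s.ix l).2 (Or.inr (Or.inr hl))
  obtain ⟨st, s1, s2, s3, s4⟩ : ∃ st : ℤ, (b l = st ∨ b l = st + k) ∧ 0 ≤ st ∧ st < k ∧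
      Fe l (P.it l st) := by
    obtain ⟨a1, a2, a3, -⟩ := s.cb l l c (Or.inr (Or.inr ⟨hl, rfl, rfl⟩))
    have p : Fe l (P.it l (b l)) := a3 ▸ P.sym _ _ hl
    rcases m.qrange d l1.1 a1 a2 p with g | g
    · exact ⟨b l, Or.inl rfl, by omega, by omega, p⟩
    · exact ⟨b l - k, Or.inr (by ring), by omega, by omega, by rwa [P.it_sub]⟩
  have ac : ∀ t, I t → t ≠ x → t ≠ y → 4 ≤ a t - k - 1 ∧ a t ≤ 2 * k ∧ P.it c (a t - k - 1) = t ∧
      Fe c (P.it c (a t - k - 1)) ∧ α t = o c (a t - k - 1) + (r - k - 1) := fun t ht e e' => by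
    obtain ⟨z, n, -, a1, a2, a3, p, a4, g⟩ := m.lA d s ht
    obtain ⟨-, -, rfl, g⟩ := (g.resolve_left fun g => e g.1).resolve_left fun g => e' g.1
    rw [show a t - k - 1 = n by omega]
    exact ⟨a1, by omega, g, p, a4⟩
  refine ⟨st, m.m5 d s O hl lf, il, s1, fun n _ _ => m.loI d s (by omega),
    fun n _ _ => m.upI d s (by omega), fun t t' ht ht' e1 e2 e3 e4 e => ?_,
    fun t ht e1 e2 _ => ⟨fun A => A.2.1 (ac t ht e1 e2).2.2.2.1, fun B => B.2.1 (ac t ht e1 e2).2.2.2.1⟩,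
    fun e => ?_, fun t t' ht ht' e1 e2 e3 A e4 => ?_, fun e e' Φ hΦ => ?_⟩
  · rw [← (ac t ht e1 e2).2.2.1, e, (ac t' ht' e3 e4).2.2.1]
  · by_cases p : Fe c (P.it c (k - 2))
    · obtain ⟨t, a1, a2, a3⟩ := m.sA d s (m.oc d) (by omega) (by omega) p
      exact Or.inl ⟨t, a1, (a3 rfl).1, (a3 rfl).2, by omega⟩
    have y1 := m.yz1 d s e
    have c2 : z2 = c := by
      rcases m.nm with g | g
      exacts [g.2, absurd (y1.trans g.1) (m.nes d).2.2]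
    have j2 := m.j2 d
    have e3 := m.e3
    rw [c2] at j2 e3
    rw [← P.it_add] at j2 e3
    have : P.it c (k - 2) ∈ Q := by_contra fun g => by
      rcases (m.out d _).1 g with g | g | g
      · have := P.uniq (g.trans j2.symm) (by omega) (by omega); omega
      · have := P.uniq (g.trans (e3.trans y1.symm).symm) (by omega) (by omega); omega
      · exact P.ne _ _ g
    rw [show (k : ℤ) - 1 - 1 = k - 2 by ring]
    exact Or.inr ((m.cen d (m.oc d)).ty (by omega) (by omega) this p).symm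
  · obtain ⟨w, hw, a1, a2, -, a4, -⟩ := m.lB d s ht
    have := m.walkA d O hw (l := b t - k) (n := a t' - k - 1) (by omega) A (by omega) (by omega)
    rw [sub_add_cancel] at this
    linarith [(ac t' ht' e1 e2).2.2.2.2]
  · obtain ⟨l2, l3, -, l4, -⟩ := ac l il l1.2.1 l1.2.2
    have : a l ≠ 2 * k := fun g => l1.2.2 (m.ltop d s il g e)
    obtain ⟨q1, q2, q3, -⟩ := s.cb h h c (Or.inr (Or.inr ⟨P.sym _ _ m.sp.fq, rfl, rfl⟩))
    obtain ⟨k1, k2, -, k3⟩ := m.ph d s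
    have xh := m.xh d
    have := m.owd d Φ (fun g e => ?_) (a := a x - k - 1) (by omega) (by omega) x3 (by omega)
      (by omega) k3 (by omega) (by omega) q3 l1.1 lf lh s2 s3 s4 (by omega) (by omega) l4
    · rw [show a x - k - 1 + 1 = a x - k by ring] at this
      exact ⟨_, _, _, this⟩
    obtain ⟨t, ht, e1, e2, e3⟩ := hΦ g e
    obtain ⟨w, hw, a1, a2, p, a4, -⟩ := m.lB d s ht
    rw [e1, P.it_add] at p
    exact ⟨w, hw, m.flo d O hw p (by omega) (by omega) (n := a y - k - 1) (by omega)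
      (by rwa [← y4, ← e1, ← a4]), p⟩

end W5

end PM

end Pool.Agent.P.MP_3f5ded_co.UG
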