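import Pool.Agent.P.MP_3f5ded_co.UJDefs

set_option autoImplicit false

namespace Pool.Agent.P.MP_3f5ded_co.UG

section Lev
variable {k : ℕ} {r β : ℝ} {n j : ℤ}

/-- A sum of two level differences, one port high. -/
lemma uj_sum3 (hr : r < k + 1) (hs : 0 ≤ 2 * r - 2 * k - 1) (hk : 12 ≤ k)
    (h1 : 2 ≤ n) (h2 : n ≤ 3 * k) (b1 : -(2 * r - 2 * k - 1) - (r - k) ≤ β)
    (b2 : β ≤ 2 * (2 * r - 2 * k - 1)) (e : n + β = j * r) :
    (k ≤ n ∧ n ≤ k + 2) ∨ (2 * k + 1 ≤ n ∧ n ≤ 2 * k + 3) := by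
  have k0 : (12 : ℝ) ≤ k := by exact_mod_cast hk
  have r0 : 0 ≤ r := by linarith
  have a1 : (2 : ℝ) ≤ n := by exact_mod_cast h1
  have a2 : (n : ℝ) ≤ 3 * k := by exact_mod_cast h2
  rcases le_or_gt j 0 with h | h
  · have : (j : ℝ) ≤ 0 := by exact_mod_cast h
    have := mul_le_mul_of_nonneg_right this r0
    linarith
  rcases le_or_gt 3 j with h' | h'
  · have : (3 : ℝ) ≤ j := by exact_mod_cast h'
    have := mul_le_mul_of_nonneg_right this r0
    linarith
  obtain rfl | rfl : j = 1 ∨ j = 2 := by omega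
  · have := uw_btw (n := n) (x := r - β) (a := k - 1) (b := k + 3) (by push_cast; linarith)
      (by push_cast; linarith) (by push_cast at e; linarith)
    omega
  · have := uw_btw (n := n) (x := 2 * r - β) (a := 2 * k) (b := 2 * k + 4) (by push_cast; linarith)
      (by push_cast; linarith) (by push_cast at e; linarith)
    omega

lemma uj_not (hr : r < k + 1) (hs : 0 ≤ 2 * r - 2 * k - 1) (hk : 12 ≤ k) (h1 : n = k + 2)
    (b1 : -(r - k) ≤ β) (b2 : β ≤ 2 * (2 * r - 2 * k - 1)) (e : n + β = j * r) : False := by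
  have k0 : (12 : ℝ) ≤ k := by exact_mod_cast hk
  have r0 : 0 ≤ r := by linarith
  have a1 : (n : ℝ) = k + 2 := by exact_mod_cast h1
  rcases le_or_gt j 1 with h | h
  · have : (j : ℝ) ≤ 1 := by exact_mod_cast h
    have := mul_le_mul_of_nonneg_right this r0
    linarith
  · have : (2 : ℝ) ≤ j := by exact_mod_cast h
    have := mul_le_mul_of_nonneg_right this r0
    linarith

end Lev

namespace M4
variable {T : Type} {I : T → Prop} {X Y F X' Y' F' l : T} {k : ℕ} {r t t' : ℝ}
  {a b a' b' : T → ℤ} {α β α' β' : T → ℝ} {B A B' A' : ℤ → Prop}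
  (hk : 12 ≤ k) (hr : r < k + 1) (H : M4 I X Y F l k r a b α β t B A)
  (G : M4 I X' Y' F' l k r a' b' α' β' t' B' A') (R : (X' = X ∧ Y' = Y) ∨ (X' = Y ∧ Y' = X))

include H in
lemma slack : 0 ≤ 2 * r - 2 * k - 1 := by linarith [H.loa X H.iX, H.hia X H.iX]

include G R in
/-- The partners of the ports of the two thin centres. -/
lemma low {y : T} (h : y = X ∨ y = Y) :
    2 ≤ b' y ∧ b' y ≠ 3 ∧ b' y + k < a' X' ∧ B' (b' y) ∧ I y := by
  have g : y = X' ∨ y = Y' := by rcases R with ⟨rfl, rfl⟩ | ⟨rfl, rfl⟩ <;> tauto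
  have i : I y := by rcases g with rfl | rfl; exacts [G.iX, G.iY]
  have := G.fh y (by tauto)
  have := G.rq y i
  have := G.rx
  exact ⟨by omega, by omega, by omega, by tauto, i⟩

variable (J : Jn I l r (-1) a b' α β') (J' : Jn I l r (-1) a' b α' β)
include hr H G J J'

lemma sum {u v : T} (hu : I u) (hv : I v) (ul : u ≠ l) (vl : v ≠ l)
    (h1 : 2 * k + 2 ≤ a u - b' u + (a' v - b v)) (w : β v ≤ α u)
    (w' : β' u ≤ α' v) : a u - b' u + (a' v - b v) = 3 * k + 2 := by
  obtain ⟨i, e1⟩ := J u hu ul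
  obtain ⟨j, e2⟩ := J' v hv vl
  have := H.rc u hu
  have := G.rc v hv
  have := H.rq v hv
  have := G.rq u hu
  exact (uw_sum (β := α u - β v + (α' v - β' u)) (j := i + j) hr H.slack h1 (by omega) (by linarith)
    (by linarith [H.hia u hu, H.lob v hv, G.hia v hv, G.lob u hu]) (by push_cast; linarith)).1

include R

lemma sumY : a Y - b' Y + (a' Y' - b Y') = 3 * k + 2 := by
  have h1 := G.low R (Or.inr rfl)
  have h2 := H.low (M3.sw R) (Or.inr rfl)
  have := H.ry
  have := G.ry
  have := H.rx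
  have := G.rx
  exact sum hr H G J J' H.iY G.iY H.Yl G.Yl (by omega)
    (H.walk Y' Y G.iY H.iY (by omega) (by simp)) (G.walk Y Y' H.iY G.iY (by omega) (by simp))

/-- The partner of a low port. -/
lemma clsL {y : T} (hy : I y) (yl : y ≠ l) (m : b' y ≤ k - 2) :
    a y - b' y + (a' Y' - b Y') = 3 * k + 2 ∨ (a y ≤ b Y' + k ∧
      a y - b' y + (a' Y' - b Y') = 2 * k + 2) ∨ a y - b' y + (a' Y' - b Y') = 2 * k + 1 := by
  obtain ⟨i, e1⟩ := J y hy yl
  obtain ⟨j, e2⟩ := J' Y' G.iY G.Yl
  have h2 := H.low (M3.sw R) (Or.inr rfl)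
  have := G.ry
  have := H.rx
  have := H.rc y hy
  have := G.rq y hy
  have w := G.walk y Y' hy G.iY (by omega) (by simp)
  have := uw_sum2 (n := a y - b' y + (a' Y' - b Y')) (β := α y - β Y' + (α' Y' - β' y)) (j := i + j) hr
    H.slack (by omega) (by omega) (by linarith [H.loa y hy, H.hib Y' G.iY (by omega)])
    (by linarith [H.hia y hy, H.lob Y' G.iY, G.hia Y' G.iY, G.lob y hy]) (by push_cast; linarith)
  by_cases c : b Y' + k < a y
  · have := fun g => sum hr H G J J' hy G.iY yl G.Yl g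
      (H.walk Y' y G.iY hy c (Or.inr (Or.inr ⟨_, h2.2.2.2.1, le_rfl, c⟩))) w
    omega
  · omega

include hk

/-- The partner of a high port. -/
lemma clsH {y : T} (hy : I y) (yl : y ≠ l) (m : k < b' y) :
    (k ≤ a y - b' y + (a' Y' - b Y') ∧ a y - b' y + (a' Y' - b Y') ≤ k + 2) ∨
      (2 * k + 1 ≤ a y - b' y + (a' Y' - b Y') ∧ a y - b' y + (a' Y' - b Y') ≤ 2 * k + 3) := by
  obtain ⟨i, e1⟩ := J y hy yl
  obtain ⟨j, e2⟩ := J' Y' G.iY G.Yl
  have h2 := H.low (M3.sw R) (Or.inr rfl)
  have := G.ry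
  have := H.rx
  have := H.rc y hy
  have := G.rq y hy
  have w := G.walkH y Y' hy G.iY m (by omega) (by simp)
  exact uj_sum3 (β := α y - β Y' + (α' Y' - β' y)) (j := i + j) hr H.slack hk (by omega) (by omega)
    (by linarith [H.loa y hy, H.hib Y' G.iY (by omega)])
    (by linarith [H.hia y hy, H.lob Y' G.iY, G.hia Y' G.iY, G.lob y hy]) (by push_cast; linarith)

/-- The first window. -/
lemma win1 {ν : ℤ} (e : a Y - b' Y = 2 * k - ν) : 5 ≤ ν ∧ ν + 6 ≤ k ∧ ν + 4 + k = a' X' - b X' + 2 ∧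
    ν + 2 + k ≤ a' l ∧ a' l ≤ ν + 3 + k ∧
    (b' l = ν + 2 ∨ b' l = ν + 2 + k ∨ (B' (ν + 3) ∧ (b' l = ν + 3 ∨ b' l = ν + 3 + k))) := by
  have s := sumY hr H G R J J'
  have y1 := G.low R (Or.inr rfl)
  have y2 := H.low (M3.sw R) (Or.inr rfl)
  have x1 := G.low R (Or.inl rfl)
  have x2 := H.low (M3.sw R) (Or.inl rfl)
  have := H.ry
  have := G.ry
  have := H.rx
  have := G.rx
  have c1 := clsL hr H G R J J' H.iX H.Xl (by omega)
  have c2 := clsL hr G H (M3.sw R) J' J G.iX G.Xl (by omega)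
  have P : ∀ y, I y → ν + 1 + k ≤ a' y → a' y ≤ ν + 3 + k → y = l := fun y hy p q => by
    by_contra yl
    rcases H.rq y hy with g | g
    · have := clsL hr G H (M3.sw R) J' J hy yl (by omega)
      omega
    · have := clsH hk hr G H (M3.sw R) J' J hy yl (by omega)
      omega
  have E : ∀ m, ν + 1 ≤ m → m ≤ ν + 3 → B' m ∨ A' m →
      b' l = m ∨ b' l = m + k ∨ (m = ν + 1 ∧ a Y = 2 * k - 1) := fun m p q w => by
    obtain ⟨y, hy, g⟩ := G.has m (by omega) (by omega) (by omega) w
    by_cases yl : y = l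
    · subst yl; omega
    have := H.rc y hy
    rcases g with g | g
    · have := clsL hr H G R J J' hy yl (by omega)
      omega
    · have := clsH hk hr H G R J J' hy yl (by omega)
      have := fun u v => congrArg b' (H.top y hy u v)
      omega
  have x0 := G.excl _ y1.2.2.2.1
  have n0 : ¬ A' ν := fun g => by
    obtain u | u : b' Y = ν ∨ b' Y + 1 = ν := by omega
    exacts [x0.1 (u ▸ g), x0.2.1 (u ▸ g)]
  have n1 : a Y = 2 * k - 1 → ¬ A' (ν + 1) := fun u g =>
    x0.2.2 ((show ν + 1 = b' Y + 2 by omega) ▸ g)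
  have W : ∀ n, ν ≤ n → n ≤ ν + 2 → a' l = n + 1 + k ∨ B' (n + 1) ∨ A' n := fun n p q =>
    (G.word n (by omega) (by omega)).imp_left fun ⟨y, hy, _, _, g⟩ =>
      P y hy (by omega) (by omega) ▸ g
  have w0 := W ν le_rfl (by omega)
  have w1 := W (ν + 1) (by omega) (by omega)
  have w2 := W (ν + 2) (by omega) (by omega)
  rw [show ν + 1 + 1 = ν + 2 by ring] at w1
  rw [show ν + 2 + 1 = ν + 3 by ring] at w2
  have e1 := E (ν + 1) le_rfl (by omega)
  have e2 := E (ν + 2) (by omega) (by omega)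
  have e3 := E (ν + 3) (by omega) (by omega)
  have z1 := fun g => (G.excl (ν + 1) g).1
  have z2 := fun g => (G.excl (ν + 2) g).1
  have z3 := fun g => (G.excl (ν + 1) g).2.1
  rw [show ν + 1 + 1 = ν + 2 by ring] at z3
  rcases w0 with w0 | w0 | w0
  · rcases w1 with w1 | w1 | w1
    · omega
    · have := e2 (Or.inl w1)
      rcases w2 with w2 | w2 | w2
      · omega
      · have := e3 (Or.inl w2); omega
      · exact (z2 w1 w2).elim
    · have := e1 (Or.inr w1)
      have : a Y ≠ 2 * k - 1 := fun u => n1 u w1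
      rcases w2 with w2 | w2 | w2
      · omega
      · have := e3 (Or.inl w2); omega
      · have := e2 (Or.inr w2); omega
  · have := e1 (Or.inl w0)
    rcases w1 with w1 | w1 | w1
    · rcases w2 with w2 | w2 | w2
      · omega
      · have := e3 (Or.inl w2)
        refine ⟨by omega, by omega, by omega, by omega, by omega, Or.inr (Or.inr ⟨w2, by omega⟩)⟩
      · exact (z3 w0 w2).elim
    · have := e2 (Or.inl w1)
      rcases w2 with w2 | w2 | w2
      · refine ⟨by omega, by omega, by omega, by omega, by omega, by omega⟩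
      · have := e3 (Or.inl w2); omega
      · exact (z2 w1 w2).elim
    · exact (z1 w0 w1).elim
  · exact (n0 w0).elim

/-- Two copies in the second mode, equal directions. -/
theorem same : False := by
  obtain ⟨ν, e⟩ : ∃ ν : ℤ, a Y - b' Y = 2 * k - ν := ⟨2 * k - (a Y - b' Y), by ring⟩
  obtain ⟨ν', e'⟩ : ∃ ν : ℤ, a' Y' - b Y' = 2 * k - ν := ⟨2 * k - (a' Y' - b Y'), by ring⟩
  have s := sumY hr H G R J J'
  obtain ⟨p1, p2, p3, p4, p5, p6⟩ := win1 hk hr H G R J J' e
  obtain ⟨q1, q2, -, -, -, q6⟩ := win1 hk hr G H (M3.sw R) J' J e'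
  have p7 := p6.imp_right (Or.imp_right And.right)
  have q7 := q6.imp_right (Or.imp_right And.right)
  have x2 := H.low (M3.sw R) (Or.inl rfl)
  have y2 := H.low (M3.sw R) (Or.inr rfl)
  have := G.ry
  have := H.rx
  have P : ∀ y, I y → y ≠ l → ν + 4 + k ≤ a' y → a' y ≤ ν + 5 + k → a' y = ν + 4 + k ∧ b y = 2 :=
    fun y hy yl p q => by
    rcases H.rq y hy with g | g
    · have := clsL hr G H (M3.sw R) J' J hy yl (by omega)
      omega
    · have := clsH hk hr G H (M3.sw R) J' J hy yl (by omega)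
      omega
  have E : ∀ y, I y → y ≠ l → ∀ m, ν + 2 ≤ m → m ≤ ν + 5 → b' y = m ∨ b' y = m + k →
      m = ν + 5 ∧ a y = 5 + k := fun y hy yl m p q g => by
    have := H.rc y hy
    rcases g with g | g
    · have := clsL hr H G R J J' hy yl (by omega)
      omega
    · have := clsH hk hr H G R J J' hy yl (by omega)
      omega
  rcases G.word (ν + 4) (by omega) (by omega) with ⟨y, hy, -, -, g⟩ | w | w
  · have := P y hy (fun u => by subst u; omega) (by omega) (by omega)
    omega
  · rw [show ν + 4 + 1 = ν + 5 by ring] at w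
    obtain ⟨y, hy, g⟩ := G.has (ν + 5) (by omega) (by omega) (by omega) (Or.inl w)
    have yl : y ≠ l := fun u => by subst u; omega
    obtain ⟨-, ay⟩ := E y hy yl _ (by omega) le_rfl g
    obtain ⟨⟨u, hu, bu⟩, b4⟩ := H.four
    have ul : u ≠ l := fun v => by subst v; omega
    have c := clsL hr G H (M3.sw R) J' J hu ul (by omega)
    have := G.rc u hu
    have w1 := H.walk u y hu hy (by omega) (Or.inr (Or.inr ⟨4, b4, by omega, by omega⟩))
    rcases g with g | g
    · have := sum hr H G J J' hy hu yl ul (by omega) w1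
        (G.walk y u hy hu (by omega) (Or.inr (Or.inr ⟨_, w, by omega, by omega⟩)))
      omega
    · obtain ⟨i, e1⟩ := J y hy yl
      obtain ⟨j, e2⟩ := J' u hu ul
      have w2 := G.walkH y u hy hu (by omega) (by omega)
        (Or.inr (Or.inr ((show ν + 5 = b' y - k by omega) ▸ w)))
      exact uj_not (n := a y - b' y + (a' u - b u)) (β := α y - β u + (α' u - β' y)) (j := i + j) hr
        H.slack hk (by omega) (by linarith)
        (by linarith [H.hia y hy, H.lob u hu, G.hia u hu, G.lob y hy]) (by push_cast; linarith)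
  · have free : ∀ m, ν + 2 ≤ m → m ≤ ν + 4 → m + k ≠ a' X' → B' m ∨ A' m → b' l = m ∨ b' l = m + k :=
      fun m p q u v => by
      obtain ⟨y, hy, g⟩ := G.has m (by omega) (by omega) u v
      by_cases yl : y = l
      · exact yl ▸ g
      · have := E y hy yl m p (by omega) g
        omega
    have ax : ν + 4 + k = a' X' := by
      by_contra u
      have := free _ (by omega) le_rfl u (Or.inr w)
      omega
    rcases G.word (ν + 3) (by omega) (by omega) with ⟨y, hy, yx, -, g⟩ | v | v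
    · have := P y hy (fun u => by subst u; omega) (by omega) (by omega)
      exact yx (H.injb _ _ hy G.iX (by omega))
    · exact (G.excl _ v).1 ((show ν + 4 = ν + 3 + 1 by ring) ▸ w)
    · have := free _ (by omega) (by omega) (by omega) (Or.inr v)
      rcases p6 with p | p | ⟨p, -⟩
      · omega
      · omega
      · exact (G.excl _ p).1 v

end M4

end Pool.Agent.P.MP_3f5ded_co.UG
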