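import Pool.Agent.P.MP_3f5ded_co.UWSafe
import Pool.Agent.P.MP_3f5ded_co.ET3

set_option autoImplicit false

namespace Pool.Agent.P.MP_3f5ded_co.UG

namespace Spi
variable {W : Type} [Fintype W] [DecidableEq W] {k : ℕ} {r : ℝ} {S : Spi W} {l : W}
  {c d : W → W → ℝ}

/-- The colouring has a particle model in case III. -/
def T3 (S : Spi W) (k : ℕ) (r : ℝ) (C : W → W → ℝ) : Prop :=
  ∃ (P : PM W k r S.Fe) (Pt : Finset (W × W)), P.Rep C ∧ P.HasIII (S.Cq S.p' S.q') Pt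

omit [Fintype W] [DecidableEq W] in
lemma Wm.swap (w : S.Wm l r c d) : S.Wm l r d c :=
  ⟨fun y a b => (w.yz y a b).symm, fun y a b => (w.zy y a b).symm, w.pb.symm, w.pa.symm, w.qb.symm,
    w.qa.symm⟩

/-- What has to be excluded between two wired copies. -/
structure No3 (S : Spi W) (k : ℕ) (r : ℝ) (l : W) : Prop where
  os : ∀ c d ρ τ t, S.Hy k r c ρ τ t → S.T3 k r d → S.Wm l r c d → False
  oo : ∀ c d ρ τ t, S.Hy k r c ρ τ t → S.T3 k r (fun x y => -d x y) → S.Wm l r c d → False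
  ss : ∀ c d, S.T3 k r c → S.T3 k r d → S.Wm l r c d → False
  so : ∀ c d, S.T3 k r c → S.T3 k r (fun x y => -d x y) → S.Wm l r c d → False

theorem Ok.pairJ (h : S.Ok k) (hl : l ∈ S.L) (h1 : 1 ≤ r) (hr : r < k + 1) (N : S.No3 k r l)
    (hc : S.Cl r c) (hd : S.Cl r d) (w : S.Wm l r c d) :
    cd r (c l S.z) (d l S.z) ≤ 2 * r - 2 * k - 1 ∧
      cd r (c l S.z) (d l S.z) + 5 - (2 * r - 2 * k - 1) ≤ cd r (d S.z l) (c S.z l) := by
  have key : ∀ C, S.Cl r C → ((∃ ρ τ t, S.Hy k r C ρ τ t) ∨ S.T3 k r C) ∨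
      ((∃ ρ τ t, S.Hy k r (fun x y => -C x y) ρ τ t) ∨ S.T3 k r fun x y => -C x y) :=
    fun C g => h.modes1 (M := fun C => (∃ ρ τ t, S.Hy k r C ρ τ t) ∨ S.T3 k r C)
      (fun C ρ τ t g => Or.inl ⟨ρ, τ, t, g⟩) (fun P C Pt a b => Or.inr ⟨P, Pt, a, b⟩) C h1 hr g
  have mo : ∀ {C}, (∃ ρ τ t, S.Hy k r C ρ τ t) → S.Mo k r C := fun ⟨ρ, τ, t, g⟩ =>
    ⟨ρ, τ, t, Or.inl g⟩
  have nn : ∀ {C : W → W → ℝ}, S.T3 k r C → S.T3 k r fun x y => - -C x y := fun g => by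
    simpa using g
  rcases key c hc with (H | H) | H | H <;> rcases key d hd with (G | G) | G | G
  · exact h.pairMo hl h1 hr (Or.inl (mo H)) (Or.inl (mo G)) w
  · obtain ⟨ρ, τ, t, H⟩ := H
    exact (N.os _ _ _ _ _ H G w).elim
  · exact h.pairMo hl h1 hr (Or.inl (mo H)) (Or.inr (mo G)) w
  · obtain ⟨ρ, τ, t, H⟩ := H
    exact (N.oo _ _ _ _ _ H G w).elim
  · obtain ⟨ρ, τ, t, G⟩ := G
    exact (N.os _ _ _ _ _ G H w.swap).elim
  · exact (N.ss _ _ H G w).elim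
  · obtain ⟨ρ, τ, t, G⟩ := G
    exact (N.oo _ _ _ _ _ G (nn H) w.swap.neg).elim
  · exact (N.so _ _ H G w).elim
  · exact h.pairMo hl h1 hr (Or.inr (mo H)) (Or.inl (mo G)) w
  · obtain ⟨ρ, τ, t, H⟩ := H
    exact (N.oo _ _ _ _ _ H (nn G) w.neg).elim
  · exact h.pairMo hl h1 hr (Or.inr (mo H)) (Or.inr (mo G)) w
  · obtain ⟨ρ, τ, t, H⟩ := H
    exact (N.os _ _ _ _ _ H G w.neg).elim
  · obtain ⟨ρ, τ, t, G⟩ := G
    exact (N.oo _ _ _ _ _ G H w.swap).elim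
  · exact (N.so _ _ G H w.swap).elim
  · obtain ⟨ρ, τ, t, G⟩ := G
    exact (N.os _ _ _ _ _ G H w.swap.neg).elim
  · exact (N.ss _ _ H G w.neg).elim

end Spi

/-- With case III excluded between wired copies, all rationals in `[k, k + 1]` are values. -/
theorem iff_evenJ {k : ℕ} (hk : 12 ≤ k) (he : Even k)
    (hN : ∀ (W : Type) [Fintype W] [DecidableEq W] (S : Spi W) (l : W) (r : ℝ), S.Ok k → l ∈ S.L →
      1 ≤ r → r < k + 1 → S.No3 k r l) (x : ℝ) :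
    (∃ (n : ℕ) (G : SimpleGraph (Fin n)) (_ : DecidableRel G.Adj), 0 < n ∧
      G.IsRegularOfDegree k ∧ sInf {r : ℝ | 1 ≤ r ∧ Col G r} = x) ↔
      ∃ q : ℚ, x = q ∧ (k : ℚ) ≤ q ∧ q ≤ k + 1 := by
  classical
  obtain ⟨A, hA⟩ := exists_Mb hk he (b := k + 1) fun W _ S l r c d h hl a1 a2 _ hc hd w =>
    h.pairJ hl a1 a2 (hN W S l r h hl a1 a2) hc hd w
  exact iff_evenM hk he ⟨A, hA.1, fun r x a b g => hA.2.1 r x a b b g, hA.2.2⟩ x

end Pool.Agent.P.MP_3f5ded_co.UG
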