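import Pool.Agent.P.MP_3f5ded_co.UGJoin

set_option autoImplicit false

namespace Pool.Agent.P.MP_3f5ded_co.UG

open Sum

/-- A frame: the lifted, sorted colours around a vertex of degree `k`. -/
structure Fr (k : ℕ) (r : ℝ) (f : ℤ → ℝ) : Prop where
  step : ∀ i, f i + 1 ≤ f (i + 1)
  per : ∀ i, f (i + k) = f i + r

namespace Fr
variable {k : ℕ} {r : ℝ} {f g : ℤ → ℝ}

lemma monoN (h : Fr k r f) (i : ℤ) (n : ℕ) : f i + n ≤ f (i + n) := by
  induction n with
  | zero => simp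
  | succ n ih =>
    have := h.step (i + n)
    push_cast
    rw [← add_assoc i]
    linarith

lemma mono (h : Fr k r f) {i j : ℤ} (hij : i ≤ j) : f i + (j - i) ≤ f j := by
  obtain ⟨n, rfl⟩ := Int.le.dest hij
  have := h.monoN i n
  push_cast
  linarith

lemma perZ (h : Fr k r f) (i n : ℤ) : f (i + n * k) = f i + n * r := by
  induction n using Int.induction_on generalizing i with
  | zero => simp
  | succ n ih =>
    have e : i + ((n : ℤ) + 1) * k = (i + n * k) + k := by ring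
    rw [e, h.per, ih]; push_cast; ring
  | pred n ih =>
    have e : i + (-(n : ℤ)) * k = (i + (-(n : ℤ) - 1) * k) + k := by ring
    have := ih i
    rw [e, h.per] at this
    push_cast at this ⊢; linarith

lemma upper (h : Fr k r f) {i j : ℤ} (hj : j ≤ i + k) : f j ≤ f i + (j - i) + (r - k) := by
  have := h.mono hj
  rw [h.per] at this
  push_cast at this
  linarith

lemma eps_nonneg (h : Fr k r f) : 0 ≤ r - k := by
  have := h.monoN 0 k
  rw [h.per] at this
  linarith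

lemma aligned (hf : Fr k r f) (hg : Fr k r g) (hk : 0 < k) {i0 : ℤ} (h : f i0 = g i0) (i : ℤ) :
    |f i - g i| ≤ r - k := by
  have hk' : (0 : ℤ) < k := by exact_mod_cast hk
  set n := (i - i0) / k with hn
  set j := i0 + (i - i0) % k with hj
  have e : i = j + n * k := by
    have := Int.emod_add_mul_ediv (i - i0) k
    rw [hj, hn]; linarith
  have h0 : i0 ≤ j := by have := Int.emod_nonneg (i - i0) hk'.ne'; omega
  have h1 : j ≤ i0 + k := by have := Int.emod_lt_of_pos (i - i0) hk'; omega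
  rw [e, hf.perZ, hg.perZ]
  have a1 := hf.mono h0
  have a2 := hg.mono h0
  have a3 := hf.upper h1
  have a4 := hg.upper h1
  rw [abs_le]; constructor <;> linarith

lemma close (h : Fr k r f) {i j : ℤ} {m : ℤ} (hm : 0 < m) (hd : |f i - f j| < m) : |i - j| < m := by
  rw [abs_lt] at hd ⊢
  have hm' : (0 : ℝ) < m := by exact_mod_cast hm
  constructor
  · by_contra hc
    push Not at hc
    have := h.mono (show i ≤ j by omega)
    have h2 : ((i : ℝ) - j) ≤ -m := by exact_mod_cast hc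
    linarith
  · by_contra hc
    push Not at hc
    have := h.mono (show j ≤ i by omega)
    have h2 : (m : ℝ) ≤ (i : ℝ) - j := by exact_mod_cast hc
    linarith

end Fr

/-- Two frames that stay within `δ` of each other. -/
def Al (δ : ℝ) (f g : ℤ → ℝ) : Prop := ∀ i, |f i - g i| ≤ δ

lemma Al.symm {δ : ℝ} {f g : ℤ → ℝ} (h : Al δ f g) : Al δ g f := fun i => by
  rw [abs_sub_comm]; exact h i

lemma Al.trans {δ η : ℝ} {f g h : ℤ → ℝ} (h1 : Al δ f g) (h2 : Al η g h) : Al (δ + η) f h :=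
  fun i => (abs_sub_le _ _ _).trans (add_le_add (h1 i) (h2 i))

lemma Al.mono {δ η : ℝ} {f g : ℤ → ℝ} (h1 : Al δ f g) (h : δ ≤ η) : Al η f g :=
  fun i => (h1 i).trans h

lemma Al.refl {δ : ℝ} (h : 0 ≤ δ) (f : ℤ → ℝ) : Al δ f f := fun i => by simpa using h

lemma near_match {k : ℕ} {r δ η : ℝ} {f g : ℤ → ℝ} (hg : Fr k r g) (ha : Al δ f g) {i j : ℤ}
    (hn : cd r (f i) (g j) ≤ η) (hs : δ + η < 1) (hi : 0 ≤ i) (hi' : i < k) (hj : 0 ≤ j)
    (hj' : j < k) : i = j := by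
  obtain ⟨u, ⟨n, hu⟩, e⟩ := cd_lift r (f i) (g j)
  have e1 : g (j + (-n) * k) = f i + u := by
    rw [hg.perZ]
    push_cast
    linarith
  have h1 : |i - (j + (-n) * k)| < 1 := by
    refine hg.close one_pos ?_
    have h2 := ha i
    have h3 : |u| ≤ η := e.le.trans hn
    rw [e1]
    rw [abs_le] at h2 h3
    rw [abs_lt]
    push_cast
    constructor <;> linarith
  have e2 : i = j + (-n) * k := by rw [abs_lt] at h1; omega
  have hn0 : n = 0 := by
    rcases lt_trichotomy n 0 with h | h | h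
    · have : 1 * (k : ℤ) ≤ (-n) * k := mul_le_mul_of_nonneg_right (by omega) (by omega)
      omega
    · exact h
    · have : (-n) * k ≤ -1 * k := mul_le_mul_of_nonneg_right (by omega) (by omega)
      omega
  subst hn0
  simpa using e2

/-- The data of a frame at a vertex whose ports form the finite set `S`. -/
structure Good {A : Type} (k : ℕ) (r : ℝ) (S : Finset A) (c : A → ℝ) (f : ℤ → ℝ) (κ : A → ℤ) :
    Prop where
  fr : Fr k r f
  lo : ∀ y ∈ S, 0 ≤ κ y
  hi : ∀ y ∈ S, κ y < k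
  near : ∀ y ∈ S, Cg r (c y) (f (κ y))
  inj : ∀ y ∈ S, ∀ z ∈ S, κ y = κ z → y = z

lemma Good.image {A : Type} {k : ℕ} {r : ℝ} {S : Finset A} {c : A → ℝ} {f : ℤ → ℝ} {κ : A → ℤ}
    (h : Good k r S c f κ) (hS : S.card = k) : S.image κ = Finset.Ico (0 : ℤ) k := by
  apply Finset.eq_of_subset_of_card_le
  · intro i hi
    obtain ⟨y, hy, rfl⟩ := Finset.mem_image.mp hi
    exact Finset.mem_Ico.mpr ⟨h.lo y hy, h.hi y hy⟩
  · rw [Finset.card_image_of_injOn (fun y hy z hz e => h.inj y hy z hz e), hS]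
    simp

lemma Good.surj {A : Type} {k : ℕ} {r : ℝ} {S : Finset A} {c : A → ℝ} {f : ℤ → ℝ} {κ : A → ℤ}
    (h : Good k r S c f κ) (hS : S.card = k) {i : ℤ} (h0 : 0 ≤ i) (h1 : i < k) :
    ∃ y ∈ S, κ y = i := by
  have : i ∈ S.image κ := by rw [h.image hS]; exact Finset.mem_Ico.mpr ⟨h0, h1⟩
  simpa using this

lemma Good.sum {A : Type} {k : ℕ} {r : ℝ} {S : Finset A} {c : A → ℝ} {f : ℤ → ℝ} {κ : A → ℤ}
    (h : Good k r S c f κ) (hS : S.card = k) : ∑ y ∈ S, κ y = ∑ i ∈ Finset.Ico (0 : ℤ) k, i := by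
  rw [← h.image hS, Finset.sum_image (fun y hy z hz e => h.inj y hy z hz e)]

theorem exists_good {A : Type} {k : ℕ} {r : ℝ} (hr : 0 < r) (S : Finset A) (hS : S.card = k)
    (c : A → ℝ) (hc : ∀ y ∈ S, ∀ z ∈ S, y ≠ z → Far r (c y) (c z)) (y0 : A) (hy0 : y0 ∈ S)
    (i0 : ℤ) (h0 : 0 ≤ i0) (h1 : i0 < k) (x : ℝ) (hx : Cg r (c y0) x) (hr1 : 1 ≤ r) :
    ∃ f κ, Good k r S c f κ ∧ κ y0 = i0 ∧ f i0 = x := by
  classical
  have hk : 0 < k := by omega
  have hkz : (0 : ℤ) < k := by exact_mod_cast hk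
  set g : A → ℝ := fun y => toIcoMod hr 0 (c y - x) with hg
  have gn : ∀ y, Cg r (c y) (x + g y) := by
    intro y
    refine ⟨toIcoDiv hr 0 (c y - x), ?_⟩
    have := toIcoMod_add_toIcoDiv_zsmul hr 0 (c y - x)
    simp only [zsmul_eq_mul] at this
    simp only [hg]; linarith
  have g0 : ∀ y, 0 ≤ g y := fun y => (toIcoMod_mem_Ico hr 0 _).1
  have g1 : ∀ y, g y < r := fun y => by simpa using (toIcoMod_mem_Ico hr 0 (c y - x)).2
  have gy0 : g y0 = 0 := by
    obtain ⟨n, hn⟩ := hx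
    simp only [hg]
    rw [toIcoMod_eq_iff]
    exact ⟨⟨le_refl _, by simpa using hr⟩, n, by simp; linarith⟩
  have gfar : ∀ y ∈ S, ∀ z ∈ S, y ≠ z → Far r (g y) (g z) := by
    intro y hy z hz hne n
    have := ((hc y hy z hz hne).congr (gn y) (gn z)) n
    have e : x + g y - (x + g z) - n * r = g y - g z - n * r := by ring
    rwa [e] at this
  have ginj : Set.InjOn g S := by
    intro y hy z hz e
    by_contra hne
    have := gfar y hy z hz hne 0
    rw [e] at this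
    norm_num at this
  have hT : (S.image g).card = k := by rw [Finset.card_image_of_injOn ginj, hS]
  set h := (S.image g).orderEmbOfFin hT with hh
  have hmem : ∀ i, ∃ y ∈ S, g y = h i := fun i => by
    have := Finset.orderEmbOfFin_mem (S.image g) hT i
    exact Finset.mem_image.mp this
  have hsur : ∀ y ∈ S, ∃ i, h i = g y := fun y hy => by
    have : g y ∈ Set.range h := by
      rw [hh, Finset.range_orderEmbOfFin]
      exact Finset.mem_coe.mpr (Finset.mem_image_of_mem g hy)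
    exact this
  have hgap : ∀ i j : Fin k, i < j → h i + 1 ≤ h j := by
    intro i j hij
    obtain ⟨y, hy, ey⟩ := hmem i
    obtain ⟨z, hz, ez⟩ := hmem j
    have hlt : h i < h j := h.strictMono hij
    have hne : y ≠ z := by rintro rfl; rw [ey] at ez; exact hlt.ne ez
    have := gfar y hy z hz hne 0
    rw [ey, ez] at this
    simp only [Int.cast_zero, zero_mul, sub_zero] at this
    rw [abs_of_neg (by linarith)] at this
    linarith
  have hzero : h ⟨0, hk⟩ = 0 := by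
    obtain ⟨i, hi⟩ := hsur y0 hy0
    obtain ⟨y, hy, ey⟩ := hmem ⟨0, hk⟩
    have : h ⟨0, hk⟩ ≤ h i := h.monotone (Nat.zero_le _)
    have := g0 y
    rw [gy0] at hi
    linarith
  have htop : ∀ i, h i ≤ r - 1 := by
    intro i
    obtain ⟨y, hy, ey⟩ := hmem i
    by_cases hne : y = y0
    · rw [← ey, hne, gy0]; linarith
    · have := gfar y hy y0 hy0 hne 1
      rw [gy0, ey] at this
      have h2 := g1 y
      rw [ey] at h2
      simp only [Int.cast_one, one_mul, sub_zero] at this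
      rw [abs_of_neg (by linarith)] at this
      linarith
  have hmod : ∀ i : ℤ, (i % k).toNat < k := fun i => by
    have := Int.emod_lt_of_pos i hkz
    have := Int.emod_nonneg i hkz.ne'
    omega
  set f0 : ℤ → ℝ := fun i => h ⟨(i % k).toNat, hmod i⟩ + ((i / k : ℤ) : ℝ) * r with hf0
  have f0eq : ∀ (j : Fin k) (n : ℤ), f0 (j + n * k) = h j + n * r := by
    intro j n
    have e1 : ((j : ℤ) + n * k) % k = j := by
      rw [Int.add_mul_emod_self_right]
      exact Int.emod_eq_of_lt (by omega) (by exact_mod_cast j.2)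
    have e2 : ((j : ℤ) + n * k) / k = n := by
      rw [Int.add_mul_ediv_right _ _ hkz.ne', Int.ediv_eq_zero_of_lt (by omega) (by exact_mod_cast j.2)]
      simp
    simp only [hf0, e1, e2]
    congr 2
  have dec : ∀ i : ℤ, ∃ (j : Fin k) (n : ℤ), i = j + n * k := by
    intro i
    refine ⟨⟨(i % k).toNat, hmod i⟩, i / k, ?_⟩
    have := Int.emod_add_mul_ediv i k
    have := Int.emod_nonneg i hkz.ne'
    simp only [Int.toNat_of_nonneg this]
    linarith
  have f0fr : Fr k r f0 := by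
    constructor
    · intro i
      obtain ⟨j, n, rfl⟩ := dec i
      by_cases hj : (j : ℕ) + 1 < k
      · have e : (j : ℤ) + n * k + 1 = ((⟨j + 1, hj⟩ : Fin k) : ℤ) + n * k := by push_cast; ring
        rw [e, f0eq, f0eq]
        have := hgap j ⟨j + 1, hj⟩ (by simp [Fin.lt_def])
        linarith
      · have e : (j : ℤ) + n * k + 1 = ((⟨0, hk⟩ : Fin k) : ℤ) + (n + 1) * k := by
          have := j.2
          have : (j : ℤ) + 1 = k := by omega
          push_cast; linarith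
        rw [e, f0eq, f0eq, hzero]
        have := htop j
        push_cast; linarith
    · intro i
      obtain ⟨j, n, rfl⟩ := dec i
      have e : (j : ℤ) + n * k + k = j + (n + 1) * k := by ring
      rw [e, f0eq, f0eq]; push_cast; ring
  have hsur' : ∀ y, ∃ i : Fin k, y ∈ S → h i = g y := fun y => by
    by_cases hy : y ∈ S
    · obtain ⟨i, hi⟩ := hsur y hy
      exact ⟨i, fun _ => hi⟩
    · exact ⟨⟨0, hk⟩, fun h => absurd h hy⟩
  choose ρ hρ using hsur'
  refine ⟨fun i => x + f0 (i - i0), fun y => (ρ y + i0) % k, ⟨⟨?_, ?_⟩, ?_, ?_, ?_, ?_⟩, ?_, ?_⟩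
  · intro i
    have := f0fr.step (i - i0)
    have e : i + 1 - i0 = i - i0 + 1 := by ring
    rw [e]; linarith
  · intro i
    have := f0fr.per (i - i0)
    have e : i + k - i0 = i - i0 + k := by ring
    rw [e]; linarith
  · intro y _; exact Int.emod_nonneg _ hkz.ne'
  · intro y _; exact Int.emod_lt_of_pos _ hkz
  · intro y hy
    refine (gn y).trans ?_
    have e : ((ρ y : ℤ) + i0) % k - i0 = ρ y + (-(((ρ y : ℤ) + i0) / k)) * k := by
      have := Int.emod_add_mul_ediv ((ρ y : ℤ) + i0) k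
      linarith
    simp only [e, f0eq, hρ y hy]
    refine ⟨((ρ y : ℤ) + i0) / k, ?_⟩
    push_cast; ring
  · intro y hy z hz e
    have e' : ((ρ y : ℤ)) % k = (ρ z : ℤ) % k := by
      have := Int.ModEq.add_right_cancel' i0 (show (ρ y : ℤ) + i0 ≡ ρ z + i0 [ZMOD k] from e)
      exact this
    rw [Int.emod_eq_of_lt (by omega) (by exact_mod_cast (ρ y).2),
      Int.emod_eq_of_lt (by omega) (by exact_mod_cast (ρ z).2)] at e'
    have e'' : ρ y = ρ z := Fin.ext (by exact_mod_cast e')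
    apply ginj hy hz
    rw [← hρ y hy, ← hρ z hz, e'']
  · have : ρ y0 = ⟨0, hk⟩ := by
      apply h.injective
      rw [hρ y0 hy0, gy0, hzero]
    simp only [this]
    simpa using Int.emod_eq_of_lt h0 h1
  · have := f0eq ⟨0, hk⟩ 0
    simp only [sub_self]
    simp at this
    rw [this, hzero]; simp


/-- The monotone part of a frame. -/
lemma Fr.mono' {k : ℕ} {r : ℝ} {f : ℤ → ℝ} (h : Fr k r f) {i j : ℤ} (hij : i ≤ j) :
    f i - i ≤ f j - j := by
  have := h.mono hij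
  linarith

/-- Two lifts of one colour that are less than `r` apart are equal. -/
lemma Cg.uniq {r x u v : ℝ} (hu : Cg r x u) (hv : Cg r x v) (h1 : u - v < r) (h2 : v - u < r) :
    u = v := by
  obtain ⟨n, hn⟩ := hu.symm.trans hv
  have hr : 0 < r := by linarith
  rcases lt_trichotomy n 0 with h | rfl | h
  · have h3 : (n : ℝ) ≤ -1 := by exact_mod_cast (show n ≤ -1 by omega)
    have := mul_le_mul_of_nonneg_right h3 hr.le
    linarith
  · simpa using hn
  · have h3 : (1 : ℝ) ≤ n := by exact_mod_cast (show 1 ≤ n by omega)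
    have := mul_le_mul_of_nonneg_right h3 hr.le
    linarith

lemma Far.le_cd {r x y : ℝ} (h : Far r x y) : 1 ≤ cd r x y := h _

lemma far_of_cd {r x y : ℝ} (hr : 0 < r) (h : 1 ≤ cd r x y) : Far r x y :=
  fun n => h.trans (cd_le hr x y n)

/-- Ports at the same vertex are related by `E`. -/
def Pole.Tag {k : ℕ} {P : Type} (A : Pole k P) (E : P → P → Prop) : Prop :=
  ∀ p q d e, A.rv (inr p) = inl d → A.rv (inr q) = inl e → d.1 = e.1 → E p q

lemma Pole.Tag.inj {k : ℕ} {P : Type} {A : Pole k P} (h : A.Tag Eq) : A.Inj := h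

lemma Pole.Inj.tag {k : ℕ} {P : Type} {A : Pole k P} (h : A.Inj) : A.Tag Eq := h

lemma Pole.tag_true {k : ℕ} {P : Type} (A : Pole k P) : A.Tag fun _ _ => True :=
  fun _ _ _ _ _ _ _ => trivial

lemma Pole.Tag.mono {k : ℕ} {P : Type} {A : Pole k P} {E E' : P → P → Prop} (h : A.Tag E)
    (e : ∀ p q, E p q → E' p q) : A.Tag E' :=
  fun p q d d' h1 h2 h3 => e p q (h p q d d' h1 h2 h3)

/-- A pole realises its own port relation. -/
lemma Pole.real {k : ℕ} {P : Type} (A : Pole k P) (ok : ℝ → Prop) : Real' k ok P false A.Rel :=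
  ⟨A, fun h => absurd h (by simp), fun _ _ _ => Iff.rfl⟩

lemma Pole.Inj.real {k : ℕ} {P : Type} {A : Pole k P} (h : A.Inj) (ok : ℝ → Prop) :
    Real' k ok P true A.Rel :=
  ⟨A, fun _ => h, fun _ _ _ => Iff.rfl⟩

/-- Back from a realised relation to a pole. -/
lemma Real'.pole {k : ℕ} {P : Type} {R : ℝ → (P → ℝ) → Prop}
    (h : Real' k (fun _ => True) P true R) : ∃ A : Pole k P, A.Inj ∧ ∀ r x, A.Rel r x ↔ R r x := by
  obtain ⟨A, h1, h2⟩ := h
  exact ⟨A, h1 rfl, fun r x => h2 r trivial x⟩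

lemma Pole.Rel.cg {k : ℕ} {P : Type} {A : Pole k P} {r : ℝ} {x y : P → ℝ} (h : A.Rel r x)
    (e : ∀ p, Cg r (x p) (y p)) : A.Rel r y :=
  (A.real fun _ => True).cg trivial h e

/-- Two wire ends of a gluing of two families may sit at the same vertex. -/
def SV {Λ1 Λ2 P1 P2 : Type} (E1 : P1 → P1 → Prop) (E2 : P2 → P2 → Prop) :
    (Λ1 × P1) ⊕ (Λ2 × P2) → (Λ1 × P1) ⊕ (Λ2 × P2) → Prop
  | inl x, inl y => x.1 = y.1 ∧ E1 x.2 y.2
  | inr x, inr y => x.1 = y.1 ∧ E2 x.2 y.2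
  | inl _, inr _ => False
  | inr _, inl _ => False

instance {Λ1 Λ2 P1 P2 : Type} [DecidableEq Λ1] [DecidableEq Λ2] (E1 : P1 → P1 → Prop)
    (E2 : P2 → P2 → Prop) [DecidableRel E1] [DecidableRel E2] :
    DecidableRel (SV (Λ1 := Λ1) (Λ2 := Λ2) E1 E2) := by
  rintro (x | x) (y | y) <;> unfold SV <;> infer_instance

/-- The slots of a vertex of a dipole. -/
abbrev DS (J K : Type) : Type := Option (Bool ⊕ J × K)

/-- The colours around the vertex `b` of a dipole. -/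
def vc {J K : Type} (z : ℝ) (x : Bool × Bool → ℝ) (w : J → K × Bool → ℝ) (b : Bool) : DS J K → ℝ
  | none => z
  | some (inl i) => x (b, i)
  | some (inr y) => w y.1 (y.2, b)

/-- Two strands `A`, `C` through a fat link. -/
def XD (k : ℕ) (r : ℝ) (M : ℤ) (A0 A1 C0 C1 : ℝ) : Prop :=
  1 ≤ M ∧ M < k ∧ C0 + M ≤ A0 ∧ A0 ≤ C0 + M + (r - k) ∧ C1 + M ≤ A1 ∧ A1 ≤ C1 + M + (r - k) ∧
    A0 ≤ A1 + (r - k) ∧ A1 ≤ A0 + (r - k) ∧ C0 ≤ C1 + (r - k) ∧ C1 ≤ C0 + (r - k)

/-- Two strands `A`, `C` through a node. -/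
def ND (k : ℕ) (r : ℝ) (M : ℤ) (A0 A1 C0 C1 : ℝ) : Prop :=
  XD k r M A0 A1 C0 C1 ∧ ((2 * M < k ∧ A0 ≤ C1 + M + (r - k) ∧ A1 ≤ C0 + M + (r - k)) ∨
    (k < 2 * M ∧ C1 + M ≤ A0 ∧ C0 + M ≤ A1))

/-- Some lifts of the strands `(a0, a1)` and `(c0, c1)` satisfy `D`. -/
def LF (r : ℝ) (D : ℤ → ℝ → ℝ → ℝ → ℝ → Prop) (a0 a1 c0 c1 : ℝ) : Prop :=
  ∃ M A0 A1 C0 C1, Cg r a0 A0 ∧ Cg r a1 A1 ∧ Cg r c0 C0 ∧ Cg r c1 C1 ∧ D M A0 A1 C0 C1

/-- The ports `(b, i)` at the two vertices `b` are matched, in parallel or crossed. -/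
def PR (r : ℝ) (D : ℤ → ℝ → ℝ → ℝ → ℝ → Prop) (x : Bool × Bool → ℝ) : Prop :=
  LF r D (x (false, true)) (x (true, true)) (x (false, false)) (x (true, false)) ∨
    LF r D (x (false, true)) (x (true, false)) (x (false, false)) (x (true, true))

/-- Four port colours. -/
def q4 (a b c d : ℝ) : Bool × Bool → ℝ
  | (false, false) => a
  | (false, true) => b
  | (true, false) => c
  | (true, true) => d

/-- The elastic wire. -/
def IsE (k : ℕ) (A : Pole k (Fin 2)) : Prop :=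
  A.Inj ∧ (∀ (r : ℝ) x, 1 ≤ r → r < k + 1 / 2 → A.Rel r x → cd r (x 0) (x 1) ≤ r - k) ∧
    ∀ (r : ℝ) x, cd r (x 0) (x 1) ≤ r - k → A.Rel r x

/-- The fat link. -/
def IsX (k : ℕ) (A : Pole k (Bool × Bool)) : Prop :=
  A.Tag (fun p q => p.1 = q.1) ∧ (∀ (r : ℝ) x, 1 ≤ r → r < k + 1 / 2 → A.Rel r x → PR r (XD k r) x) ∧
    ∀ r y : ℝ, (k : ℝ) ≤ r →
      A.Rel r (q4 y (y + 1) (y + 1) y) ∧ A.Rel r (q4 y (y + 2) (y + 2) y)

/-- The node. -/
def IsN (k : ℕ) (A : Pole k (Bool × Bool)) : Prop :=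
  (∀ (r : ℝ) x, 1 ≤ r → r < k + 1 / 2 → A.Rel r x → PR r (ND k r) x) ∧
    ∀ r P P' Q Q' : ℝ, P + 1 ≤ P' → Q + 1 ≤ Q' → P' ≤ P + 1 + (r - k) → P' ≤ Q + 1 + (r - k) →
      Q' ≤ P + 1 + (r - k) → Q' ≤ Q + 1 + (r - k) → A.Rel r (q4 P P' Q Q')

/-- The Petersen pole. -/
def IsH (k : ℕ) (A : Pole k (Fin 4)) : Prop :=
  A.Inj ∧ (∀ (r : ℝ) x, 1 ≤ r → r < k + 1 / 2 → A.Rel r x → cd r (x 0) (x 1) ≤ 2 * (r - k) ∧
      cd r (x 2) (x 3) ≤ 2 * (r - k) ∧ cd r (x 0) (x 1) + cd r (x 2) (x 3) ≤ 3 * (r - k)) ∧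
    ∀ r u c : ℝ, r - k ≤ u → u ≤ 2 * (r - k) → ∃ a, A.Rel r ![a, a + u, c + (3 * (r - k) - u), c]

/-- The far gadget, tuned to `r0`. -/
def IsF (k : ℕ) (r0 : ℝ) (A : Pole k (Fin 2)) : Prop :=
  A.Inj ∧ (∀ (r : ℝ) x, (k : ℝ) ≤ r → r ≤ r0 → A.Rel r x → 2 - (r - k) ≤ cd r (x 0) (x 1)) ∧
    ∀ a, A.Rel r0 ![a, a + (2 - (r0 - k))]

end Pool.Agent.P.MP_3f5ded_co.UG
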