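import Pool.Agent.P.MP_3f5ded_co.ULDefs

set_option autoImplicit false

namespace Pool.Agent.P.MP_3f5ded_co.UG

open Sum Finset

lemma ule_half {W : Type} [Fintype W] [DecidableEq W] {k : ℕ} (hW : Fintype.card W = k + 1)
    {u v h : W} (huv : v ≠ u) (hhu : h ≠ u) (hhv : h ≠ v) {r : ℝ}
    {C : W → W → ℝ} {F : W → ℤ → ℝ} {κ : W → W → ℤ}
    (hG : ∀ x, Good k r (univ.erase x) (C x) (F x) (κ x))
    (hE : ∀ x y, y ≠ x → ¬(x = u ∧ y = v) → ¬(x = v ∧ y = u) → F x (κ x y) = F y (κ x y))
    (hu : κ u v = 0) (hv : κ v u = 0) : F v 0 ≤ F u 0 + (r - k) := by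
  have hc : ∀ x : W, (univ.erase x).card = k := fun x => by
    rw [card_erase_of_mem (mem_univ _), card_univ, hW]; rfl
  have me : ∀ {x y : W}, y ≠ x → y ∈ univ.erase x := fun h => mem_erase.mpr ⟨h, mem_univ _⟩
  have s1 := sum_erase_add (univ.erase u) (κ u) (me huv)
  have s2 := sum_erase_add (univ.erase v) (κ v) (me huv.symm)
  rw [(hG u).sum (hc u), hu] at s1
  rw [(hG v).sum (hc v), hv, erase_right_comm] at s2
  obtain ⟨w, hw, hle⟩ := exists_le_of_sum_le (s := (univ.erase u).erase v) (f := κ v) (g := κ u)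
    ⟨h, mem_erase.mpr ⟨hhv, me hhu⟩⟩ (by linarith)
  have wv : w ≠ v := (mem_erase.mp hw).1
  have wu : w ≠ u := (mem_erase.mp (mem_erase.mp hw).2).1
  have e1 := hE u w wu (fun h => wv h.2) (fun h => huv h.1.symm)
  have e2 := hE v w wv (fun h => huv h.1) (fun h => wu h.2)
  have a1 := (hG u).fr.upper (i := 0) (j := κ u w) (by have := (hG u).hi w (me wu); omega)
  have a2 := (hG v).fr.mono (i := 0) (j := κ v w) ((hG v).lo w (me wv))
  have a3 := (hG w).fr.mono hle
  push_cast at a1 a2
  linarith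

lemma ule_bound {W : Type} [Fintype W] [DecidableEq W] {k : ℕ} (hk : 2 ≤ k) (ho : Odd k)
    (hW : Fintype.card W = k + 1) {u v : W} (huv : v ≠ u) {r : ℝ} (hr1 : 1 ≤ r)
    (hr : r < k + 1 / 2) {C : W → W → ℝ}
    (hsym : ∀ x y, y ≠ x → ¬(x = u ∧ y = v) → ¬(x = v ∧ y = u) → Cg r (C x y) (C y x))
    (hfar : ∀ x y z, y ≠ x → z ≠ x → y ≠ z → Far r (C x y) (C x z)) :
    cd r (C u v) (C v u) ≤ r - k := by
  have hrp : 0 < r := by linarith
  have hc : ∀ x : W, (univ.erase x).card = k := fun x => by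
    rw [card_erase_of_mem (mem_univ _), card_univ, hW]; rfl
  have me : ∀ {x y : W}, y ≠ x → y ∈ univ.erase x := fun h => mem_erase.mpr ⟨h, mem_univ _⟩
  have hf : ∀ x, ∀ y ∈ univ.erase x, ∀ z ∈ univ.erase x, y ≠ z → Far r (C x y) (C x z) :=
    fun x y hy z hz hne => hfar x y z (mem_erase.mp hy).1 (mem_erase.mp hz).1 hne
  obtain ⟨h, hh⟩ : ((univ.erase u).erase v).Nonempty := by
    rw [← card_pos, card_erase_of_mem (me huv), hc]; omega
  have hhv : h ≠ v := (mem_erase.mp hh).1
  have hhu : h ≠ u := (mem_erase.mp (mem_erase.mp hh).2).1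
  have anchor : ∀ x y, y ≠ x → ¬(x = u ∧ y = v) → ¬(x = v ∧ y = u) → ∀ f κ,
      Good k r (univ.erase x) (C x) f κ →
      ∃ g μ, Good k r (univ.erase y) (C y) g μ ∧ Al (r - k) f g := by
    intro x y hy a1 a2 f κ hG
    obtain ⟨g, μ, hg, -, e⟩ := exists_good hrp (univ.erase y) (hc y) (C y) (hf y) x
      (me hy.symm) (κ y) (hG.lo y (me hy)) (hG.hi y (me hy)) (f (κ y))
      ((hsym x y hy a1 a2).symm.trans (hG.near y (me hy))) hr1
    exact ⟨g, μ, hg, hG.fr.aligned hg.fr (by omega) e.symm⟩
  obtain ⟨fu, κu, hGu, eu, -⟩ := exists_good hrp (univ.erase u) (hc u) (C u) (hf u) v (me huv)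
    0 le_rfl (by omega) (C u v) (Cg.refl _ _) hr1
  obtain ⟨f1, κ1, hG1, a1⟩ := anchor u h hhu (fun e => hhv e.2) (fun e => huv e.1.symm) _ _ hGu
  have he0 : 0 ≤ r - k := hG1.fr.eps_nonneg
  have gen : ∀ x, ∃ f κ, Good k r (univ.erase x) (C x) f κ ∧ Al (r - k) f1 f ∧
      (x = u → κ v = 0) := by
    intro x
    by_cases c1 : x = u
    · subst c1; exact ⟨fu, κu, hGu, a1.symm, fun _ => eu⟩
    by_cases c2 : x = h
    · subst c2; exact ⟨f1, κ1, hG1, Al.refl he0 _, fun e => absurd e c1⟩
    obtain ⟨g, μ, hg, a⟩ := anchor h x c2 (fun e => hhu e.1) (fun e => hhv e.1) _ _ hG1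
    exact ⟨g, μ, hg, a, fun e => absurd e c1⟩
  choose F κ hG hA hu using gen
  have hu0 : κ u v = 0 := hu u rfl
  have hE : ∀ x y, y ≠ x → ¬(x = u ∧ y = v) → ¬(x = v ∧ y = u) →
      κ x y = κ y x ∧ F x (κ x y) = F y (κ x y) := by
    intro x y hy b1 b2
    have al : Al ((r - k) + (r - k)) (F x) (F y) := (hA x).symm.trans (hA y)
    have n1 := (hG x).near y (me hy)
    have n2 := (hsym x y hy b1 b2).trans ((hG y).near x (me hy.symm))
    have nn : cd r (F x (κ x y)) (F y (κ y x)) ≤ 0 := by
      have := cd_le_of (u := 0) hrp (x := F x (κ x y)) (y := F y (κ y x))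
        (by rw [add_zero]; exact n2.symm.trans n1)
      simpa using this
    have e := near_match (hG y).fr al nn (by linarith) ((hG x).lo y (me hy))
      ((hG x).hi y (me hy)) ((hG y).lo x (me hy.symm)) ((hG y).hi x (me hy.symm))
    refine ⟨e, ?_⟩
    rw [← e] at n2
    have := abs_le.mp (al (κ x y))
    exact n1.uniq n2 (by linarith [this.2]) (by linarith [this.1])
  have hv0 : κ v u = 0 := by
    by_contra hne
    have ex : ∀ x, ∃ y ∈ univ.erase x, κ x y = 0 := fun x =>
      (hG x).surj (hc x) le_rfl (by omega)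
    choose μ hμ hμ0 using ex
    have hμ' : ∀ x, μ x ≠ x := fun x => (mem_erase.mp (hμ x)).1
    have key : ∀ x, x ≠ u → μ x ≠ u ∧ μ (μ x) = x := by
      intro x hx
      have b2 : ¬(x = v ∧ μ x = u) := by
        rintro ⟨rfl, e⟩
        apply hne; rw [← e]; exact hμ0 _
      have e := (hE x (μ x) (hμ' x) (fun h => hx h.1) b2).1
      rw [hμ0] at e
      have hx' := me (hμ' x).symm
      refine ⟨fun h => ?_, (hG (μ x)).inj _ (hμ _) _ hx' (by rw [hμ0, ← e])⟩
      apply b2
      refine ⟨?_, h⟩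
      rw [h] at e hx'
      exact (hG u).inj _ hx' _ (me huv) (by rw [← e, hu0])
    have s0 : ∑ _x ∈ univ.erase u, (1 : ZMod 2) = 0 := by
      refine sum_involution (fun x _ => μ x) (fun _ _ => by decide) (fun x _ _ => hμ' x)
        (fun x hx => ?_) (fun x hx => ?_)
      · exact me (key x (mem_erase.mp hx).1).1
      · exact (key x (mem_erase.mp hx).1).2
    rw [sum_const, hc] at s0
    obtain ⟨m, rfl⟩ := ho
    simp only [nsmul_eq_mul, mul_one] at s0
    push_cast at s0
    have h20 : (2 : ZMod 2) = 0 := by decide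
    rw [h20] at s0
    simp at s0
  have g1 := ule_half hW huv hhu hhv hG (fun x y hy b1 b2 => (hE x y hy b1 b2).2) hu0 hv0
  have g2 := ule_half hW huv.symm hhv hhu hG (fun x y hy b1 b2 => (hE x y hy b2 b1).2) hv0 hu0
  have q1 := (hG u).near v (me huv)
  have q2 := (hG v).near u (me huv.symm)
  rw [hu0] at q1
  rw [hv0] at q2
  refine (cd_le_of (u := F v 0 - F u 0) hrp (q2.trans ?_)).trans (abs_le.mpr ⟨by linarith, by linarith⟩)
  exact (Cg.of_eq (by ring)).trans (q1.symm.add _)

/-- The standard one-factorisation of the complete graph on `Option R`. -/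
def ule_nu {R : Type} [CommRing R] [DecidableEq R] (h : R) : Option R → R → Option R
  | none, l => some (l * h)
  | some a, l => if l = 2 * a then none else some (l - a)

lemma ule_fact {k : ℕ} (ho : Odd k) : ∃ (W : Type) (_ : Fintype W) (_ : DecidableEq W)
    (nu : W → Fin k → W), Fintype.card W = k + 1 ∧ (∀ w l, nu (nu w l) l = w) ∧
      (∀ w l, nu w l ≠ w) ∧ ∀ w l l', nu w l = nu w l' → l = l' := by
  obtain ⟨m, hm⟩ := ho
  have : NeZero k := ⟨by omega⟩
  obtain ⟨h, hh⟩ : ∃ h : ZMod k, 2 * h = 1 := by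
    refine ⟨(m : ZMod k) + 1, ?_⟩
    have := ZMod.natCast_self k
    have e : ((k : ℕ) : ZMod k) = ((2 * m + 1 : ℕ) : ZMod k) := congrArg Nat.cast hm
    rw [e] at this
    push_cast at this
    linear_combination this
  let e : Fin k ≃ ZMod k := (Fintype.equivFinOfCardEq (ZMod.card k)).symm
  refine ⟨Option (ZMod k), inferInstance, inferInstance, fun w l => ule_nu h w (e l),
    by rw [Fintype.card_option, ZMod.card], ?_, ?_, ?_⟩
  · rintro (_ | a) l
    · simp only [ule_nu]
      rw [if_pos (by linear_combination (-(e l)) * hh)]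
    · by_cases c : e l = 2 * a
      · simp only [ule_nu, if_pos c]
        congr 1
        linear_combination h * c + a * hh
      · simp only [ule_nu, if_neg c]
        rw [if_neg (fun c' => c (by linear_combination -c'))]
        congr 1
        ring
  · rintro (_ | a) l
    · simp [ule_nu]
    · by_cases c : e l = 2 * a
      · simp [ule_nu, c]
      · simp only [ule_nu, if_neg c]
        intro c'
        exact c (by linear_combination Option.some.inj c')
  · rintro (_ | a) l l' c
    · simp only [ule_nu] at c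
      exact e.injective (by linear_combination 2 * Option.some.inj c - (e l - e l') * hh)
    · simp only [ule_nu] at c
      apply e.injective
      by_cases c1 : e l = 2 * a <;> by_cases c2 : e l' = 2 * a
      · rw [c1, c2]
      · rw [if_pos c1, if_neg c2] at c; cases c
      · rw [if_neg c1, if_pos c2] at c; cases c
      · rw [if_neg c1, if_neg c2] at c
        linear_combination Option.some.inj c

/-- Dart reversal of the complete graph with one edge cut. -/
def ule_rv {k : ℕ} {W : Type} [DecidableEq W] (nu : W → Fin k → W) (u : W) (z : Fin k) :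
    (W × Fin k) ⊕ Fin 2 → (W × Fin k) ⊕ Fin 2
  | inl d => if d = (u, z) then inr 0 else if d = (nu u z, z) then inr 1 else inl (nu d.1 d.2, d.2)
  | inr p => if p = 0 then inl (u, z) else inl (nu u z, z)

section
variable {k : ℕ} {W : Type} [DecidableEq W] {nu : W → Fin k → W} {u : W} {z : Fin k}

lemma ule_rv_u : ule_rv nu u z (inl (u, z)) = inr 0 := by simp [ule_rv]

lemma ule_rv_v (h : nu u z ≠ u) : ule_rv nu u z (inl (nu u z, z)) = inr 1 := by simp [ule_rv, h]

lemma ule_rv_o {d : W × Fin k} (h1 : d ≠ (u, z)) (h2 : d ≠ (nu u z, z)) :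
    ule_rv nu u z (inl d) = inl (nu d.1 d.2, d.2) := by simp [ule_rv, h1, h2]

lemma ule_rv_0 : ule_rv nu u z (inr 0) = inl (u, z) := by simp [ule_rv]

lemma ule_rv_1 : ule_rv nu u z (inr 1) = inl (nu u z, z) := by simp [ule_rv]

lemma ule_rv_inl {d e : W × Fin k} (h : ule_rv nu u z (inl d) = inl e) :
    e = (nu d.1 d.2, d.2) := by
  simp only [ule_rv] at h
  split_ifs at h
  exact (inl.inj h).symm

omit [DecidableEq W] in
lemma ule_other (hi : ∀ w l, nu (nu w l) l = w) {d : W × Fin k} (h1 : d ≠ (u, z))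
    (h2 : d ≠ (nu u z, z)) :
    (nu d.1 d.2, d.2) ≠ (u, z) ∧ (nu d.1 d.2, d.2) ≠ (nu u z, z) := by
  obtain ⟨w, l⟩ := d
  constructor
  · intro e
    obtain ⟨e1, rfl⟩ := Prod.mk.inj e
    exact h2 (by rw [← e1, hi])
  · intro e
    obtain ⟨e1, rfl⟩ := Prod.mk.inj e
    have := congrArg (fun t => nu t l) e1
    simp only [hi] at this
    exact h1 (by rw [this])

end

/-- The complete graph minus an edge, as a pole. -/
def ule_pole {k : ℕ} {W : Type} [Fintype W] [DecidableEq W] (nu : W → Fin k → W) (u : W)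
    (z : Fin k) (hi : ∀ w l, nu (nu w l) l = w) (hn : ∀ w l, nu w l ≠ w)
    (hj : ∀ w l l', nu w l = nu w l' → l = l') : Pole k (Fin 2) where
  N := W
  fin := inferInstance
  rv := ule_rv nu u z
  inv := by
    rintro (d | p)
    · by_cases h1 : d = (u, z)
      · rw [h1, ule_rv_u, ule_rv_0]
      by_cases h2 : d = (nu u z, z)
      · rw [h2, ule_rv_v (hn _ _), ule_rv_1]
      have := ule_other hi h1 h2
      rw [ule_rv_o h1 h2, ule_rv_o this.1 this.2, hi]
    · rcases (by decide : ∀ p : Fin 2, p = 0 ∨ p = 1) p with rfl | rfl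
      · rw [ule_rv_0, ule_rv_u]
      · rw [ule_rv_1, ule_rv_v (hn _ _)]
  ext := fun p => by
    rcases (by decide : ∀ p : Fin 2, p = 0 ∨ p = 1) p with rfl | rfl
    · exact ⟨_, ule_rv_0⟩
    · exact ⟨_, ule_rv_1⟩
  noloop := fun d e h => by rw [ule_rv_inl h]; exact hn _ _
  nopar := fun d d' e e' h h' h1 h2 => by
    rw [ule_rv_inl h, ule_rv_inl h'] at h2
    simp only [← h1] at h2
    exact Prod.ext h1 (hj _ _ _ h2)

/-- The complete graph minus an edge is an elastic wire. -/
theorem exists_E {k : ℕ} (hk : 5 ≤ k) (ho : Odd k) : ∃ A, IsE k A := by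
  obtain ⟨W, _, _, nu, hW, hi, hn, hj⟩ := ule_fact ho
  obtain ⟨u⟩ : Nonempty W := Fintype.card_pos_iff.mp (by omega)
  set z : Fin k := ⟨0, by omega⟩ with hz
  have f2 : ∀ p : Fin 2, p = 0 ∨ p = 1 := by decide
  refine ⟨ule_pole nu u z hi hn hj, ?_, ?_, ?_⟩
  · intro p q d e h1 h2 h3
    change ule_rv nu u z (inr p) = inl d at h1
    change ule_rv nu u z (inr q) = inl e at h2
    rcases f2 p with rfl | rfl <;> rcases f2 q with rfl | rfl
    · rfl
    · rw [ule_rv_0] at h1; rw [ule_rv_1] at h2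
      rw [← inl.inj h1, ← inl.inj h2] at h3
      exact absurd h3.symm (hn _ _)
    · rw [ule_rv_1] at h1; rw [ule_rv_0] at h2
      rw [← inl.inj h1, ← inl.inj h2] at h3
      exact absurd h3 (hn _ _)
    · rfl
  · rintro r x hr1 hr ⟨c, c1, c2, c3⟩
    change (W × Fin k) ⊕ Fin 2 → ℝ at c
    change ∀ e, Cg r (c e) (c (ule_rv nu u z e)) at c2
    have ex : ∀ a b : W, ∃ l, b ≠ a → nu a l = b := by
      intro a b
      by_cases hb : b = a
      · exact ⟨z, fun h => absurd hb h⟩
      have : univ.image (nu a) = univ.erase a := by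
        apply eq_of_subset_of_card_le
        · intro t ht
          obtain ⟨l, -, rfl⟩ := mem_image.mp ht
          exact mem_erase.mpr ⟨hn _ _, mem_univ _⟩
        · rw [card_image_of_injective _ (fun l l' => hj a l l'), card_erase_of_mem (mem_univ _),
            card_univ, card_univ, hW, Fintype.card_fin]
          omega
      have hb' : b ∈ univ.image (nu a) := this ▸ mem_erase.mpr ⟨hb, mem_univ _⟩
      obtain ⟨l, -, hl⟩ := mem_image.mp hb'
      exact ⟨l, fun _ => hl⟩
    choose lab hl using ex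
    have hv : nu u z ≠ u := hn _ _
    have l1 : lab u (nu u z) = z := hj u _ _ (hl _ _ hv)
    have l2 : lab (nu u z) u = z := hj (nu u z) _ _ (by rw [hl _ _ hv.symm, hi])
    have key := ule_bound (by omega) ho hW hv hr1 hr (C := fun a b => c (inl (a, lab a b)))
      (fun a b hb b1 b2 => by
        have e := hl a b hb
        have e0 := hi a (lab a b)
        rw [e] at e0
        have e' : lab b a = lab a b := hj b _ _ (by rw [hl b a hb.symm, e0])
        have := c2 (inl (a, lab a b))
        rw [ule_rv_o (fun t => b1 ?_) (fun t => b2 ?_)] at this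
        · simpa only [e, e'] using this
        · obtain ⟨t1, t2⟩ := Prod.mk.inj t
          exact ⟨t1, by rw [← e, t2, t1]⟩
        · obtain ⟨t1, t2⟩ := Prod.mk.inj t
          exact ⟨t1, by rw [← e, t2, t1, hi]⟩)
      (fun a b b' hb hb' hne => c3 a _ _ (fun t => hne (by rw [← hl a b hb, t, hl a b' hb'])))
    simp only [l1, l2] at key
    have c1' : ∀ p : Fin 2, c (inr p) = x p := c1
    have d0 := c2 (inr 0)
    have d1 := c2 (inr 1)
    rw [ule_rv_0, c1'] at d0
    rw [ule_rv_1, c1'] at d1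
    rwa [cd_congr (by linarith) d0 d1]
  · intro r x hx
    obtain ⟨t, ht, et⟩ := cd_lift r (x 0) (x 1)
    rw [← et, abs_le] at hx
    have hv : nu u z ≠ u := hn _ _
    set m := min (x 0) (x 0 + t) with hm
    let c : (W × Fin k) ⊕ Fin 2 → ℝ := Sum.elim (fun d => if d = (u, z) then x 0 else
      if d = (nu u z, z) then x 0 + t else if d.2 = z then m else m + (d.2 : ℕ) + (r - k)) x
    have l0 : ∀ w, m ≤ c (inl (w, z)) ∧ c (inl (w, z)) ≤ m + (r - k) := by
      intro w
      simp only [c, Sum.elim_inl, if_true]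
      rcases min_cases (x 0) (x 0 + t) with e | e <;> rw [hm, e.1] <;> split_ifs <;>
        constructor <;> linarith [e.2, hx.1, hx.2]
    have l1 : ∀ w l, l ≠ z → c (inl (w, l)) = m + (l : ℕ) + (r - k) := by
      intro w l h
      simp only [c, Sum.elim_inl]
      rw [if_neg (fun e => h (Prod.mk.inj e).2), if_neg (fun e => h (Prod.mk.inj e).2), if_neg h]
    have key : ∀ w (l l' : Fin k), l < l' → Far r (c (inl (w, l))) (c (inl (w, l'))) := by
      intro w l l' h
      have h' : (l : ℕ) < l' := h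
      have a1 : ((l : ℕ) : ℝ) + 1 ≤ (l' : ℕ) := by exact_mod_cast h'
      have a2 : ((l' : ℕ) : ℝ) + 1 ≤ k := by exact_mod_cast l'.2
      have a3 : (0 : ℝ) ≤ (l : ℕ) := by positivity
      rw [l1 w l' (fun e => by rw [e, hz] at h'; simp at h')]
      by_cases hy : l = z
      · have := l0 w
        rw [hy]
        apply Far.of_bounds <;> linarith
      · rw [l1 w l hy]
        apply Far.of_bounds <;> linarith
    have cu : c (inl (u, z)) = x 0 := by simp [c]
    have cv : c (inl (nu u z, z)) = x 0 + t := by simp [c, hv]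
    refine ⟨c, fun _ => rfl, ?_, ?_⟩
    · change ∀ e, Cg r (c e) (c (ule_rv nu u z e))
      rintro (d | p)
      · by_cases h1 : d = (u, z)
        · rw [h1, ule_rv_u, cu]; exact Cg.refl _ _
        by_cases h2 : d = (nu u z, z)
        · rw [h2, ule_rv_v hv, cv]; exact ht.symm
        have := ule_other hi h1 h2
        rw [ule_rv_o h1 h2]
        apply Cg.of_eq
        simp only [c, Sum.elim_inl]
        rw [if_neg h1, if_neg h2, if_neg this.1, if_neg this.2]
      · rcases f2 p with rfl | rfl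
        · rw [ule_rv_0, cu]; exact Cg.refl _ _
        · rw [ule_rv_1, cv]; exact ht
    · intro w l l' hne
      rcases lt_or_gt_of_ne hne with h | h
      · exact key w l l' h
      · exact (key w l' l h).symm

end Pool.Agent.P.MP_3f5ded_co.UG
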