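import Pool.Agent.P.MP_3f5ded_co.ULDefs

set_option autoImplicit false

namespace Pool.Agent.P.MP_3f5ded_co.UG

open Sum

/-- Renaming the ports. -/
theorem Pole.relabel {k : ℕ} {P Q : Type} (A : Pole k P) (e : Q ≃ P) :
    ∃ B : Pole k Q, (∀ E, A.Tag E → B.Tag fun p q => E (e p) (e q)) ∧
      ∀ r x, B.Rel r x ↔ A.Rel r fun p => x (e.symm p) := by
  let m : (A.N × Fin k) ⊕ Q ≃ (A.N × Fin k) ⊕ P := Equiv.sumCongr (Equiv.refl _) e
  have hm : ∀ y d, m.symm y = inl d → y = inl d := fun y d h => m.symm_apply_eq.1 h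
  refine ⟨⟨A.N, A.fin, fun y => m.symm (A.rv (m y)), fun y => ?_, fun p => ?_,
    fun d d' h => A.noloop d d' (hm _ _ h),
    fun d d' f f' h h' => A.nopar d d' f f' (hm _ _ h) (hm _ _ h')⟩,
    fun E t p q d d' h h' => t _ _ d d' (hm _ _ h) (hm _ _ h'), fun r x => ⟨?_, ?_⟩⟩
  · rw [Equiv.apply_symm_apply, A.inv, Equiv.symm_apply_apply]
  · obtain ⟨d, hd⟩ := A.ext (e p)
    exact ⟨d, m.symm_apply_eq.2 hd⟩
  · rintro ⟨c, c1, c2, c3⟩
    refine ⟨fun y => c (m.symm y), fun p => c1 _, fun y => ?_, c3⟩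
    have := c2 (m.symm y)
    simp only [Equiv.apply_symm_apply] at this
    exact this
  · rintro ⟨c, c1, c2, c3⟩
    refine ⟨fun y => c (m y), fun p => (c1 _).trans (congrArg x (e.symm_apply_apply p)),
      fun y => ?_, c3⟩
    simp only [Equiv.apply_symm_apply]
    exact c2 _

/-- A single vertex. -/
theorem exists_vertex {k : ℕ} (P : Type) [Fintype P] (h : Fintype.card P = k) :
    ∃ A : Pole k P, ∀ r x, A.Rel r x ↔ ∀ s s', s ≠ s' → Far r (x s) (x s') := by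
  obtain ⟨A, -, hA⟩ := realV k fun _ => True
  let e := Fintype.equivFinOfCardEq h
  obtain ⟨B, -, hB⟩ := A.relabel e
  refine ⟨B, fun r x => (hB r x).trans ((hA r trivial _).trans
    ⟨fun g s s' hs => ?_, fun g s s' hs => g _ _ (e.symm.injective.ne hs)⟩)⟩
  simpa using g (e s) (e s') (e.injective.ne hs)

/-- Gluing a finite family of poles along wires. -/
theorem ulg_glueT {k : ℕ} {Λ : Type} [Fintype Λ] {P : Λ → Type} {X P0 : Type}
    (A : ∀ l, Pole k (P l)) (φ : X ≃ Σ l, P l) (τ : X ⊕ P0 → X ⊕ P0) (hinv : ∀ e, τ (τ e) = e)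
    (h0 : ∀ p, ∃ x, τ (inr p) = inl x) (h1 : ∀ x y, τ (inl x) = inl y → (φ x).1 ≠ (φ y).1)
    (S : X → X → Prop) (hS : ∀ x y, (gS A (φ x)).1 = (gS A (φ y)).1 → S x y)
    (h2 : ∀ x y x' y', τ (inl x) = inl y → τ (inl x') = inl y' → S x x' → S y y' → x = x')
    (E0 : P0 → P0 → Prop)
    (h5 : ∀ p q x y, τ (inr p) = inl x → τ (inr q) = inl y → S x y → E0 p q) :
    ∃ B : Pole k P0, B.Tag E0 ∧ ∀ r x, B.Rel r x ↔ ∃ c : X ⊕ P0 → ℝ, (∀ p, c (inr p) = x p) ∧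
      (∀ e, Cg r (c e) (c (τ e))) ∧ ∀ l, (A l).Rel r (fun p => c (inl (φ.symm ⟨l, p⟩))) := by
  have hfin : ∀ l, Fintype (A l).N := fun l => (A l).fin
  refine ⟨⟨Σ l, (A l).N, inferInstance, grv A φ τ, ?_, ?_, ?_, ?_⟩, ?_, fun r x => ⟨?_, ?_⟩⟩
  · intro e
    rcases g_cases A φ e with ⟨y, rfl⟩ | ⟨l, d, d', rfl, hd⟩
    · rw [grv_out, grv_out, hinv]
    · rw [grv_in A φ τ hd, grv_in A φ τ (e := d) (by rw [← hd, (A l).inv])]
  · intro p
    obtain ⟨x, hx⟩ := h0 p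
    refine ⟨gS A (φ x), ?_⟩
    change gout A φ (τ (inr p)) = _
    rw [hx]
    rfl
  · intro d e h e1
    rcases grv_edge A φ τ h with ⟨x, y, h3, rfl, rfl⟩ | ⟨l, d0, e0, rfl, rfl, h3⟩
    · exact h1 x y h3 (congrArg Sigma.fst e1).symm
    · exact (A l).noloop d0 e0 h3 (sigma_mk_injective (β := fun l => (A l).N) e1)
  · intro d d' e e' h h' e1 e2
    have f1 : d.1.1 = d'.1.1 := congrArg Sigma.fst e1
    have f2 : e.1.1 = e'.1.1 := congrArg Sigma.fst e2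
    rcases grv_edge A φ τ h with ⟨x, y, h3, rfl, rfl⟩ | ⟨l, d0, e0, rfl, rfl, h3⟩ <;>
      rcases grv_edge A φ τ h' with ⟨x', y', h4, rfl, rfl⟩ | ⟨l', d1, e1', rfl, rfl, h4⟩
    · rw [h2 x y x' y' h3 h4 (hS _ _ e1) (hS _ _ e2)]
    · exact absurd (f1.trans f2.symm) (h1 x y h3)
    · exact absurd (f1.symm.trans f2) (h1 x' y' h4)
    · have e3 : l = l' := f1
      subst e3
      rw [(A l).nopar d0 d1 e0 e1' h3 h4 (sigma_mk_injective (β := fun l => (A l).N) e1)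
        (sigma_mk_injective (β := fun l => (A l).N) e2)]
  · intro p q d e hp hq e1
    obtain ⟨x, h3, rfl⟩ := gout_inl A φ (y := τ (inr p)) hp
    obtain ⟨y, h4, rfl⟩ := gout_inl A φ (y := τ (inr q)) hq
    exact h5 p q x y h3 h4 (hS _ _ e1)
  · rintro ⟨c, c1, c2, c3⟩
    refine ⟨fun y => c (gout A φ y), c1, fun y => ?_, fun l => ?_⟩
    · have e := c2 (gout A φ y)
      change Cg r _ (c (grv A φ τ _)) at e
      rwa [grv_out] at e
    · refine ⟨Sum.elim (fun d => c (inl (gup A l d))) (fun p => c (inl (gS A ⟨l, p⟩))),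
        fun p => ?_, ?_, fun v s s' hs => c3 ⟨l, v⟩ s s' hs⟩
      · change _ = c (inl (gS A (φ (φ.symm ⟨l, p⟩))))
        rw [Equiv.apply_symm_apply]
        rfl
      · rintro (d | p)
        · rcases hd : (A l).rv (inl d) with d' | p
          · have e : Cg r (c (inl (gup A l d))) (c (grv A φ τ (inl (gup A l d)))) := c2 _
            rwa [grv_in A φ τ hd] at e
          · rw [gat_eq A hd]
            exact Cg.refl _ _
        · rw [gat_spec]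
          exact Cg.refl _ _
  · rintro ⟨c, c1, c2, c3⟩
    choose cl d1 d2 d3 using c3
    let C : ((Σ l, (A l).N) × Fin k) ⊕ P0 → ℝ :=
      Sum.elim (fun d => cl d.1.1 (inl (d.1.2, d.2))) (fun p => c (inr p))
    have hC : ∀ y, Cg r (C (gout A φ y)) (c y) := by
      rintro (y | p)
      · have e := d2 (φ y).1 (inr (φ y).2)
        rw [d1, gat_spec] at e
        change Cg r (c (inl (φ.symm (φ y)))) _ at e
        rw [Equiv.symm_apply_apply] at e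
        exact e.symm
      · exact Cg.refl _ _
    refine ⟨C, c1, fun e => ?_, fun v s s' hs => d3 v.1 v.2 s s' hs⟩
    change Cg r _ (C (grv A φ τ e))
    rcases g_cases A φ e with ⟨y, rfl⟩ | ⟨l, d, d', rfl, hd⟩
    · rw [grv_out]
      exact (hC y).trans ((c2 y).trans (hC _).symm)
    · rw [grv_in A φ τ hd]
      have e := d2 l (inl d)
      rw [hd] at e
      exact e

/-- Two port types as a family. -/
def ulgP (Λ1 Λ2 P1 P2 : Type) : Λ1 ⊕ Λ2 → Type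
  | inl _ => P1
  | inr _ => P2

/-- The ports of two families as a dependent sum. -/
def ulgE (Λ1 Λ2 P1 P2 : Type) : (Λ1 × P1) ⊕ (Λ2 × P2) ≃ Σ l, ulgP Λ1 Λ2 P1 P2 l where
  toFun := Sum.elim (fun p => ⟨inl p.1, p.2⟩) (fun p => ⟨inr p.1, p.2⟩)
  invFun
    | ⟨inl l, p⟩ => inl (l, p)
    | ⟨inr l, p⟩ => inr (l, p)
  left_inv := by rintro (p | p) <;> rfl
  right_inv := by rintro ⟨_ | _, p⟩ <;> rfl

/-- Two families of poles as one family. -/
def ulgA {k : ℕ} {Λ1 Λ2 P1 P2 : Type} (A1 : Λ1 → Pole k P1) (A2 : Λ2 → Pole k P2) :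
    ∀ l, Pole k (ulgP Λ1 Λ2 P1 P2 l)
  | inl l => A1 l
  | inr l => A2 l

lemma ulg_tag {k : ℕ} {Λ : Type} {P : Λ → Type} (A : ∀ l, Pole k (P l)) {l : Λ}
    {E : P l → P l → Prop} (t : (A l).Tag E) {p q : P l}
    (h : (gS A ⟨l, p⟩).1 = (gS A ⟨l, q⟩).1) : E p q :=
  t p q _ _ (gat_spec A l p) (gat_spec A l q) (sigma_mk_injective (β := fun l => (A l).N) h)

/-- Gluing two finite families of poles along wires. -/
theorem glue2 {k : ℕ} {Λ1 Λ2 P1 P2 P0 : Type} [Fintype Λ1] [Fintype Λ2]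
    (A1 : Λ1 → Pole k P1) (A2 : Λ2 → Pole k P2) {E1 : P1 → P1 → Prop} {E2 : P2 → P2 → Prop}
    (t1 : ∀ l, (A1 l).Tag E1) (t2 : ∀ l, (A2 l).Tag E2)
    (τ : ((Λ1 × P1) ⊕ (Λ2 × P2)) ⊕ P0 → ((Λ1 × P1) ⊕ (Λ2 × P2)) ⊕ P0) (hinv : ∀ e, τ (τ e) = e)
    (h0 : ∀ p, ∃ x, τ (inr p) = inl x)
    (h1 : ∀ x y, τ (inl x) = inl y →
      Sum.map Prod.fst Prod.fst x ≠ Sum.map Prod.fst Prod.fst y)
    (h2 : ∀ x y x' y', τ (inl x) = inl y → τ (inl x') = inl y' → SV E1 E2 x x' → SV E1 E2 y y' →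
      x = x')
    (E0 : P0 → P0 → Prop)
    (h3 : ∀ p q x y, τ (inr p) = inl x → τ (inr q) = inl y → SV E1 E2 x y → E0 p q) :
    ∃ B : Pole k P0, B.Tag E0 ∧ ∀ r x, B.Rel r x ↔
      ∃ c : ((Λ1 × P1) ⊕ (Λ2 × P2)) ⊕ P0 → ℝ, (∀ p, c (inr p) = x p) ∧
        (∀ e, Cg r (c e) (c (τ e))) ∧ (∀ l, (A1 l).Rel r fun p => c (inl (inl (l, p)))) ∧
        ∀ l, (A2 l).Rel r fun p => c (inl (inr (l, p))) := by
  obtain ⟨B, t, hB⟩ := ulg_glueT (ulgA A1 A2) (ulgE Λ1 Λ2 P1 P2) τ hinv h0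
    (fun x y h => by
      have := h1 x y h
      rcases x with x | x <;> rcases y with y | y <;> exact this)
    (SV E1 E2) (by
      rintro (⟨l, p⟩ | ⟨l, p⟩) (⟨l', p'⟩ | ⟨l', p'⟩) h <;> have f := congrArg Sigma.fst h
      · obtain rfl : l = l' := inl_injective f
        exact ⟨rfl, ulg_tag (ulgA A1 A2) (l := inl l) (t1 l) h⟩
      · cases f
      · cases f
      · obtain rfl : l = l' := inr_injective f
        exact ⟨rfl, ulg_tag (ulgA A1 A2) (l := inr l) (t2 l) h⟩) h2 E0 h3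
  refine ⟨B, t, fun r x => (hB r x).trans ?_⟩
  exact exists_congr fun c => and_congr_right fun _ => and_congr_right fun _ => Sum.forall

/-- Gluing two finite families of poles along a table of edges. -/
theorem net2 {k : ℕ} {Λ1 Λ2 P1 P2 P0 Ed : Type} [Fintype Λ1] [Fintype Λ2]
    (A1 : Λ1 → Pole k P1) (A2 : Λ2 → Pole k P2) {E1 : P1 → P1 → Prop} {E2 : P2 → P2 → Prop}
    (t1 : ∀ l, (A1 l).Tag E1) (t2 : ∀ l, (A2 l).Tag E2)
    (τ : ((Λ1 × P1) ⊕ (Λ2 × P2)) ⊕ P0 → ((Λ1 × P1) ⊕ (Λ2 × P2)) ⊕ P0) (hinv : ∀ e, τ (τ e) = e)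
    (h0 : ∀ p, ∃ x, τ (inr p) = inl x)
    (h1 : ∀ x y, τ (inl x) = inl y →
      Sum.map Prod.fst Prod.fst x ≠ Sum.map Prod.fst Prod.fst y)
    (h2 : ∀ x y x' y', τ (inl x) = inl y → τ (inl x') = inl y' → SV E1 E2 x x' → SV E1 E2 y y' →
      x = x')
    (E0 : P0 → P0 → Prop)
    (h3 : ∀ p q x y, τ (inr p) = inl x → τ (inr q) = inl y → SV E1 E2 x y → E0 p q)
    (edg : ((Λ1 × P1) ⊕ (Λ2 × P2)) ⊕ P0 → Ed) (rep : Ed → ((Λ1 × P1) ⊕ (Λ2 × P2)) ⊕ P0)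
    (e1 : ∀ e, edg (τ e) = edg e) (e2 : ∀ e, rep (edg e) = e ∨ rep (edg e) = τ e)
    (e3 : ∀ p, rep (edg (inr p)) = inr p) :
    ∃ B : Pole k P0, B.Tag E0 ∧ ∀ r x, B.Rel r x ↔
      ∃ w : Ed → ℝ, (∀ p, w (edg (inr p)) = x p) ∧
        (∀ l, (A1 l).Rel r fun p => w (edg (inl (inl (l, p))))) ∧
        ∀ l, (A2 l).Rel r fun p => w (edg (inl (inr (l, p)))) := by
  obtain ⟨B, t, hB⟩ := glue2 A1 A2 t1 t2 τ hinv h0 h1 h2 E0 h3
  refine ⟨B, t, fun r x => (hB r x).trans ⟨?_, ?_⟩⟩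
  · rintro ⟨c, c1, c2, c3, c4⟩
    have hc : ∀ y, Cg r (c y) (c (rep (edg y))) := fun y => by
      rcases e2 y with e | e <;> rw [e]
      · exact Cg.refl _ _
      · exact c2 _
    exact ⟨fun e => c (rep e), fun p => (congrArg c (e3 p)).trans (c1 p),
      fun l => (c3 l).cg fun p => hc _, fun l => (c4 l).cg fun p => hc _⟩
  · rintro ⟨w, w1, w2⟩
    exact ⟨fun e => w (edg e), w1, fun e => Cg.of_eq (congrArg w (e1 e).symm), w2⟩

/-- The wires of a dipole. -/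
def ulgT (J K : Type) : ((Bool × DS J K) ⊕ (J × (K × Bool))) ⊕ (Bool × Bool) →
    ((Bool × DS J K) ⊕ (J × (K × Bool))) ⊕ (Bool × Bool)
  | inl (inl (b, none)) => inl (inl (!b, none))
  | inl (inl (b, some (inl i))) => inr (b, i)
  | inl (inl (b, some (inr (j, κ)))) => inl (inr (j, (κ, b)))
  | inl (inr (j, (κ, b))) => inl (inl (b, some (inr (j, κ))))
  | inr (b, i) => inl (inl (b, some (inl i)))

/-- Two adjacent vertices with two ports each, joined through copies of `B`. -/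
theorem dipole {k : ℕ} (J K : Type) [Fintype J] [Fintype K]
    (hk : 3 + Fintype.card J * Fintype.card K = k) (B : Pole k (K × Bool))
    (hB : B.Tag fun p q => p.1 = q.1) :
    ∃ A : Pole k (Bool × Bool), A.Tag (fun p q => p.1 = q.1) ∧ ∀ r x, A.Rel r x ↔
      ∃ (z : ℝ) (w : J → K × Bool → ℝ), (∀ j, B.Rel r (w j)) ∧
        ∀ b s s', s ≠ s' → Far r (vc z x w b s) (vc z x w b s') := by
  obtain ⟨V, hV⟩ := exists_vertex (k := k) (DS J K) (by simp [← hk]; omega)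
  obtain ⟨A, t, hA⟩ := glue2 (fun _ : Bool => V) (fun _ : J => B) (fun _ => V.tag_true)
    (fun _ => hB) (ulgT J K)
    (by rintro ((⟨_ | _, _ | i | ⟨j, κ⟩⟩ | ⟨j, κ, b⟩) | ⟨b, i⟩) <;> rfl)
    (fun p => ⟨_, rfl⟩)
    (by rintro (⟨_ | _, _ | i | ⟨j, κ⟩⟩ | ⟨j, κ, b⟩) y h <;> cases h <;> simp)
    (by
      rintro (⟨b, _ | i | ⟨j, κ⟩⟩ | ⟨j, κ, b⟩) y (⟨b', _ | i' | ⟨j', κ'⟩⟩ | ⟨j', κ', b'⟩) y' h h' <;>
        cases h <;> cases h' <;> simp +contextual [SV])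
    (fun p q => p.1 = q.1)
    (by
      rintro ⟨b, i⟩ ⟨b', i'⟩ x y h h' g
      cases h
      cases h'
      exact g.1)
  refine ⟨A, t, fun r x => (hA r x).trans ⟨?_, ?_⟩⟩
  · rintro ⟨c, c1, c2, c3, c4⟩
    refine ⟨c (inl (inl (false, none))), fun j p => c (inl (inr (j, p))), c4, fun b s s' hs => ?_⟩
    have hc : ∀ s, Cg r (c (inl (inl (b, s))))
        (vc (c (inl (inl (false, none)))) x (fun j p => c (inl (inr (j, p)))) b s) := by
      rintro (_ | i | ⟨j, κ⟩)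
      · cases b
        · exact Cg.refl _ _
        · exact c2 _
      · exact (c2 _).trans (Cg.of_eq (c1 _))
      · exact c2 _
    exact ((hV r _).1 (c3 b) s s' hs).congr (hc s) (hc s')
  · rintro ⟨z, w, w1, w2⟩
    refine ⟨Sum.elim (Sum.elim (fun y => vc z x w y.1 y.2) fun y => w y.1 y.2) x, fun _ => rfl, ?_,
      fun b => (hV r _).2 (w2 b), w1⟩
    rintro ((⟨b, _ | i | ⟨j, κ⟩⟩ | ⟨j, κ, b⟩) | ⟨b, i⟩) <;> exact Cg.refl _ _

end Pool.Agent.P.MP_3f5ded_co.UG
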