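import Pool.Agent.P.MP_3f5ded_co.EU4

set_option autoImplicit false

namespace Pool.Agent.P.MP_3f5ded_co.UG

open Finset

namespace PM
variable {W : Type} {k : ℕ} {r : ℝ} {Fe : W → W → Prop} {P : PM W k r Fe} {Q E : Finset W}
  {X : W → ℤ} {x y c f h : W} {τ : ℤ} {t : ℕ}

open Classical

/-- The lack of vertices at a level. -/
noncomputable def gd (Q : Finset W) (X : W → ℤ) (l : ℤ) : ℤ := l - 1 - cA Q X l

/-- The lack below `t + 2` minus the lack above. -/
noncomputable def gam (Q : Finset W) (X : W → ℤ) (t τ : ℤ) : ℤ :=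
  ∑ l ∈ Ico 3 (t + 2), gd Q X l - ∑ l ∈ Ico (t + 2) τ, gd Q X l

/-- The low items of `S` that leave `Q`. -/
noncomputable def nlo (P : PM W k r Fe) (Q S : Finset W) (X : W → ℤ) (τ : ℤ) : ℤ :=
  ∑ l ∈ Ico 3 τ, (P.nq Q S X l : ℤ)

lemma sum_spl (g : ℤ → ℤ) {a b c : ℤ} (h1 : a ≤ b) (h2 : b ≤ c) :
    ∑ l ∈ Ico a c, g l = ∑ l ∈ Ico a b, g l + ∑ l ∈ Ico b c, g l := by
  rw [← Ico_union_Ico_eq_Ico h1 h2, sum_union (Ico_disjoint_Ico_consecutive a b c)]

lemma Fl.cut_set (fl : P.Fl Q) (cut : P.Cut X) (ht : 1 ≤ t) (h1 : 2 * (t : ℤ) + 1 ≤ τ)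
    (h2 : τ ≤ 2 * t + 2) (h3 : τ ≤ k + 1) (e1 : ∀ w ∈ Q, X w ≤ t + 1 → w ∈ E)
    (e2 : ∀ w ∈ E, w ∈ Q ∧ X w ≤ t + 2) (e3 : E.card = t) :
    t - 1 - gam Q X t τ + P.nlo Q Q X τ ≤ 2 * P.nlo Q E X τ := by
  have hE : E ⊆ Q := fun w hw => (e2 w hw).1
  have h4 : ((∑ l ∈ Ico 3 τ, (E.filter fun w => P.it w l ∈ E).card : ℕ) : ℤ) ≤ t * (t - 1) := by
    have h3 := inner_le (P := P) (E := E) (a := 3) (b := τ) (by omega)
    rw [e3] at h3
    have : ((t * (t - 1) : ℕ) : ℤ) = t * (t - 1) := by push_cast [Nat.cast_sub ht]; ring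
    rw [← this]
    exact_mod_cast h3
  rw [Nat.cast_sum] at h4
  have key : ∀ l ∈ Ico 3 τ, (if l < t + 2 then l - 1 - gd Q X l else 2 * t + 1 - l + gd Q X l) +
      P.nq Q Q X l ≤ 2 * (P.nq Q E X l : ℤ) + (E.filter fun w => P.it w l ∈ E).card := fun l _ => by
    have c := fl.cut_one cut hE l
    have sp : ∀ (g : W → Prop) [DecidablePred g],
        (E.filter g).card + ((Q \ E).filter g).card = (Q.filter g).card := fun g _ => by
      rw [← card_union_of_disjoint (disjoint_filter_filter disjoint_sdiff), ← filter_union,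
        union_sdiff_of_subset hE]
    have s1 : cA E X l + cA (Q \ E) X l = cA Q X l := sp _
    have s2 : P.nq Q E X l + P.nq Q (Q \ E) X l = P.nq Q Q X l := sp _
    unfold gd
    split_ifs with g
    · have : cA (Q \ E) X l = 0 := card_eq_zero.2 (filter_eq_empty_iff.2 fun w hw x => by
        rw [mem_sdiff] at hw
        exact hw.2 (e1 w hw.1 (by omega)))
      omega
    · have : cA E X l = t := e3 ▸ congrArg card (filter_eq_self.2 fun w hw => by
        have := (e2 w hw).2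
        omega)
      omega
  have s := sum_le_sum key
  rw [sum_add_distrib, sum_add_distrib, ← mul_sum,
    sum_spl _ (show (3 : ℤ) ≤ t + 2 by omega) (show (t : ℤ) + 2 ≤ τ by omega),
    sum_congr rfl fun l hl => if_pos (mem_Ico.1 hl).2,
    sum_congr rfl fun l hl => if_neg (not_lt.2 (mem_Ico.1 hl).1), sum_sub_distrib,
    sum_add_distrib] at s
  have b1 := tele (fun l => (l - 1) * (l - 2)) (fun l => 2 * (l - 1)) (a := 3) (b := t + 2) (by omega)
    fun l _ _ => by ring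
  have b2 := tele (fun l => -((2 * t + 1 - l) * (2 * t + 2 - l))) (fun l => 2 * (2 * t + 1 - l))
    (a := t + 2) (b := τ) (by omega) fun l _ _ => by ring
  rw [← mul_sum] at b1 b2
  have b3 : (2 * t + 1 - τ) * (2 * t + 2 - τ) = 0 := by
    rcases (show τ = 2 * t + 1 ∨ τ = 2 * t + 2 by omega) with e | e <;> rw [e] <;> ring
  unfold gam nlo
  nlinarith

lemma nlo_le (hE : E ⊆ Q) : P.nlo Q E X τ ≤ P.nlo Q Q X τ :=
  sum_le_sum fun _ _ => Nat.cast_le.2 (card_le_card (filter_subset_filter _ hE))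

/-- The lower bound for the number of low items. -/
theorem Fl.cut_lo (fl : P.Fl Q) (cut : P.Cut X) (ht : 1 ≤ t) (h1 : 2 * (t : ℤ) + 1 ≤ τ)
    (h2 : τ ≤ 2 * t + 2) (h3 : τ ≤ k + 1) (a1 : cA Q X (t + 1) ≤ t) (a2 : t ≤ cA Q X (t + 2)) :
    t - 1 - gam Q X t τ ≤ P.nlo Q Q X τ := by
  obtain ⟨E, e1, e2, e3⟩ := exists_subsuperset_card_eq (s := Q.filter fun w => X w ≤ t + 1)
    (t := Q.filter fun w => X w ≤ t + 2) (n := t)
    (fun w hw => by simp only [mem_filter] at hw ⊢; exact ⟨hw.1, by omega⟩) a1 a2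
  have := fl.cut_set cut ht h1 h2 h3 (E := E) (fun w a b => e1 (mem_filter.2 ⟨a, b⟩))
    (fun w a => mem_filter.1 (e2 a)) e3
  have := nlo_le (P := P) (X := X) (τ := τ) (e2.trans (filter_subset _ _))
  omega

/-- The upper bound. `F` is a set of labels at which `c` is the last item of a vertex. -/
theorem Fl.cut_hi (fl : P.Fl Q) (cut : P.Cut X) (ht : 1 ≤ t) (h1 : 2 * (t : ℤ) + 1 ≤ τ)
    (h2 : τ ≤ 2 * t + 2) (h3 : τ ≤ k + 1) (a1 : cA Q X (t + 1) ≤ t) (a2 : t ≤ cA Q X (t + 2))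
    (low : ∀ w ∈ Q, ∀ l : ℤ, 3 ≤ l → l ≤ k → X w ≤ l → P.it w l ∉ Q →
      P.it w l = c ∨ (w = h ∧ P.it w l = y) ∨ (w = f ∧ P.it w l = x))
    (f2 : P.it f 2 = x ∨ P.it f 2 = c) (fh : f ≠ h) (F : Finset ℤ)
    (hF : ∀ g ∈ F, 1 ≤ g ∧ g ≤ t + 1 ∧ (cA Q X g : ℤ) + 2 ≤ g ∧
      ∃ v ∈ Q, v ≠ f ∧ X v = g + 1 ∧ P.it v g = c) :
    P.nlo Q Q X τ + 2 * F.card ≤ t + 3 + gam Q X t τ := by
  have : Nonempty W := ⟨f⟩
  choose! g1 g2 g3 o o1 o2 o3 o4 using hF
  obtain ⟨E, e1, e2, e3⟩ := exists_subsuperset_card_eq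
    (s := (Q.filter fun w => X w ≤ t + 1) ∪ F.image o)
    (t := Q.filter fun w => X w ≤ t + 2) (n := t)
    (fun w hw => by
      simp only [mem_union, mem_filter, mem_image] at hw ⊢
      rcases hw with g | ⟨g, a, rfl⟩
      · exact ⟨g.1, by omega⟩
      · have := o3 g a; have := g2 g a; exact ⟨o1 g a, by omega⟩)
    (by
      by_cases e : (t : ℤ) + 1 ∈ F
      · have := g3 _ e
        have s : (Q.filter fun w => X w ≤ t + 1) ∪ F.image o ⊆
            insert (o (t + 1)) (Q.filter fun w => X w ≤ t + 1) := fun w hw => by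
          simp only [mem_union, mem_filter, mem_image, mem_insert] at hw ⊢
          rcases hw with g | ⟨g, a, rfl⟩
          · exact Or.inr g
          · by_cases b : g = t + 1
            · exact Or.inl (by rw [b])
            · have := o3 g a; have := g2 g a; exact Or.inr ⟨o1 g a, by omega⟩
        have := (card_le_card s).trans (card_insert_le _ _)
        unfold cA at *
        omega
      · refine le_trans (card_le_card fun w hw => ?_) a1
        simp only [mem_union, mem_filter, mem_image] at hw ⊢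
        rcases hw with g | ⟨g, a, rfl⟩
        · exact g
        · have : g ≠ t + 1 := fun b => e (b ▸ a)
          have := o3 g a; have := g2 g a; exact ⟨o1 g a, by omega⟩) a2
  have hE : E ⊆ Q := e2.trans (filter_subset _ _)
  have c0 := fl.cut_set cut ht h1 h2 h3 (E := E)
    (fun w a b => e1 (mem_union_left _ (mem_filter.2 ⟨a, b⟩))) (fun w a => mem_filter.1 (e2 a)) e3
  have one : ∀ w z (S : Finset ℤ), (∀ l ∈ S, 3 ≤ l ∧ l ≤ k ∧ P.it w l = z) → S.card ≤ 1 :=
    fun w z S hS => card_le_one.2 fun a ha b hb => by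
      have := hS a ha; have := hS b hb
      exact P.uniq (x := w) (by rw [(hS a ha).2.2, (hS b hb).2.2]) (by omega) (by omega)
  have key : ∀ w ∈ E, ((Ico 3 τ).filter fun l => X w ≤ l ∧ P.it w l ∉ Q).card +
      (if w ∈ F.image o then 1 else 0) ≤ 1 + if w = h then 1 else 0 := fun w hw => by
    set S := (Ico 3 τ).filter fun l => X w ≤ l ∧ P.it w l ∉ Q with hS
    have m : ∀ l ∈ S, 3 ≤ l ∧ l ≤ k ∧ X w ≤ l ∧
        (P.it w l = c ∨ (w = h ∧ P.it w l = y) ∨ (w = f ∧ P.it w l = x)) := fun l hl => by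
      simp only [hS, mem_filter, mem_Ico] at hl
      exact ⟨hl.1.1, by omega, hl.2.1, low w (hE hw) l hl.1.1 (by omega) hl.2.1 hl.2.2⟩
    have sp := card_filter_add_card_filter_not (s := S) fun l => P.it w l = c
    have c1 := one w c (S.filter fun l => P.it w l = c) fun l hl => by
      rw [mem_filter] at hl
      exact ⟨(m l hl.1).1, (m l hl.1).2.1, hl.2⟩
    have c2 : w ∈ F.image o → (S.filter fun l => P.it w l = c).card = 0 ∧ w ≠ f := fun g' => by
      obtain ⟨g, a, rfl⟩ := mem_image.1 g'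
      refine ⟨card_eq_zero.2 (filter_eq_empty_iff.2 fun l hl e => ?_), o2 g a⟩
      have := m l hl
      have := o3 g a
      have := g1 g a
      have := P.uniq (e.trans (o4 g a).symm) (by omega) (by omega)
      omega
    by_cases wh : w = h
    · have := one w y (S.filter fun l => ¬ P.it w l = c) fun l hl => by
        rw [mem_filter] at hl
        obtain ⟨a, b, -, e | e | e⟩ := m l hl.1
        exacts [absurd e hl.2, ⟨a, b, e.2⟩, absurd (e.1.symm.trans wh) fh]
      rw [if_pos wh]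
      split_ifs with g
      · have := (c2 g).1; omega
      · omega
    rw [if_neg wh]
    by_cases wf : w = f
    · rw [if_neg fun g => (c2 g).2 wf]
      refine one w (if P.it f 2 = c then x else c) S fun l hl => ?_
      obtain ⟨a, b, -, e⟩ := m l hl
      have u : P.it w l ≠ P.it f 2 := fun e => by
        have := P.uniq (wf ▸ e : P.it f l = P.it f 2) (by omega) (by omega); omega
      refine ⟨a, b, ?_⟩
      split_ifs with g
      · rcases e with e | e | e
        exacts [absurd (e.trans g.symm) u, absurd e.1 wh, e.2]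
      · rcases e with e | e | e
        exacts [e, absurd e.1 wh, absurd (e.2.trans (f2.resolve_right g).symm) u]
    · have : (S.filter fun l => ¬ P.it w l = c).card = 0 :=
        card_eq_zero.2 (filter_eq_empty_iff.2 fun l hl e => by
          obtain ⟨-, -, -, e' | e' | e'⟩ := m l hl
          exacts [e e', wh e'.1, wf e'.1])
      split_ifs with g
      · have := (c2 g).1; omega
      · omega
  have s := sum_le_sum key
  rw [sum_add_distrib, sum_add_distrib, sum_const, sum_ite_mem, sum_const, e3, sum_ite_eq',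
    inter_eq_right.2 (subset_union_right.trans e1), card_image_of_injOn fun a ha b hb e => by
      have := o3 a ha; have := o3 b hb; rw [e] at *; omega] at s
  have n : P.nlo Q E X τ =
      (∑ w ∈ E, ((Ico 3 τ).filter fun l => X w ≤ l ∧ P.it w l ∉ Q).card : ℕ) := by
    unfold nlo nq
    simp only [card_filter]
    rw [sum_comm]
    push_cast
    rfl
  simp only [smul_eq_mul, mul_one] at s
  split_ifs at s <;> omega

variable [Fintype W] {Pt : Finset (W × W)} {Y : W → ℤ} {z1 z2 u w z : W} {n l : ℤ}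

namespace W4
variable (m : P.W4 Q x y c f h z1 z2 u Y X) (d : D1 k Fe Q Pt x z1 z2)
include m d

lemma atk (hw : w ∈ Q) : P.it w k ∈ Q := by
  have hk := d.sz.big
  have e : P.it w k = P.it w 0 := by rw [← P.it_add w 0, zero_add]
  by_contra o
  rw [e] at o
  rcases (m.cen d o).has le_rfl (by omega) ⟨w, hw, m.nok d m.pos hw, rfl⟩ with a | a
  · have := ((m.cen d o).tA a le_rfl).2
    have := m.pos _ a.1
    omega
  · have := m.idx d o (by omega) (by omega) a
    omega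

lemma lowq (w : W) (hw : w ∈ Q) (l : ℤ) (h0 : 3 ≤ l) (h1 : l ≤ k) (h2 : X w ≤ l) (o : P.it w l ∉ Q) :
    P.it w l = c ∨ (w = h ∧ P.it w l = y) ∨ (w = f ∧ P.it w l = x) := by
  by_cases p : Fe w (P.it w l)
  · rcases (m.out d _).1 o with e | e | e
    · exact Or.inr (Or.inr ⟨(m.sp.fx w).1 (e ▸ p), e⟩)
    · exact Or.inr (Or.inl ⟨(m.sp.fy w).1 (e ▸ p), e⟩)
    · exact Or.inl e
  · have : l ≠ k := fun e => o (e ▸ m.atk d hw)
    rcases m.lowit d hw h2 (by omega) o p with a | a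
    · omega
    · exact Or.inl a.1

lemma f2' : P.it f 2 = x ∨ P.it f 2 = c := by
  have p := m.f2 d
  rcases (m.out d _).1 fun o => m.fl.cl f m.sp.hp _ o p with e | e | e
  exacts [Or.inl e, absurd ((m.sp.fy f).1 (e ▸ p)) m.sp.pq, Or.inr e]

lemma cA3 : cA Q X 3 = 2 := by
  have hk := d.sz.big
  have a := m.cup d (l := 3) le_rfl (by omega)
  have : ({f, P.it y 2} : Finset W).card ≤ cA Q X 3 := card_le_card fun w hw => by
    rw [mem_insert, mem_singleton] at hw
    rcases hw with rfl | rfl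
    · exact mem_filter.2 ⟨m.sp.hp, by have := m.xf d; omega⟩
    · exact mem_filter.2 ⟨m.yb.1, by have := m.xw d; omega⟩
  rw [card_pair (m.wf d).symm] at this
  omega

lemma cA4 : cA Q X 4 = 3 := by
  have hk := d.sz.big
  have a := m.cup d (l := 4) (by omega) (by omega)
  have b := (m.tf d (l := 4) (by omega) (by omega)).1
  have := (m.parL d (l := 4) (by omega) (by omega) (m.cA5 d (by omega) le_rfl)).1 (m.lo4 d)
  omega

lemma cAtop (h0 : (k : ℤ) - 1 ≤ l) : (cA Q X l : ℤ) + 2 = k := by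
  have : cA Q X l = Q.card :=
    congrArg card (filter_eq_self.2 fun w hw => by have := m.hi w hw; omega)
  have := d.sz.cardQ
  omega

lemma gd01 (h0 : 3 ≤ l) (h1 : l ≤ k) : gd Q X l = 0 ∨ gd Q X l = 1 := by
  have := (m.tf d (l := l) (by omega) h1).1
  have := m.cAtop d (l := l)
  have := m.cup d h0
  unfold gd
  omega

lemma nq0 (g : l = 3 ∨ l = k - 1 ∨ l = k) : P.nq Q Q X l = 0 :=
  card_eq_zero.2 (filter_eq_empty_iff.2 fun w hw a => a.2 (by
    rcases g with rfl | rfl | rfl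
    exacts [(m.in3 d hw a.1).1, m.mid d hw, m.atk d hw]))

/-- A high run of a centre covers all later vertices when the level is full. -/
lemma runz (hz : z ∉ Q) (h0 : 1 ≤ l) (h1 : l + 1 ≤ k) (B : ∀ n, l - 1 ≤ n → n + 3 ≤ k → P.Ty Q 1 z n)
    (g : l ≤ cA Q X l + 1) (hw : w ∈ Q) (xw : l < X w) :
    ∃ n, l - 1 ≤ n ∧ n + 3 ≤ k ∧ P.it z n = w ∧ n + 1 < X w ∧ P.it w (n + 1) = z ∧ ¬ Fe w z := by
  have := d.sz.cardQ
  have a := ((m.cen d hz).run (l := l - 1) (by omega) (by omega) B).2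
  rw [sub_add_cancel] at a
  obtain ⟨n, n1, n2, e⟩ := a (by omega) w hw (by omega)
  have b := (m.cen d hz).tB (B n n1 n2) (by omega)
  have p := (B n n1 n2).2.1
  rw [e] at b p
  exact ⟨n, n1, n2, e, b.2, b.1, fun t => p (P.sym _ _ t)⟩

/-- The edge to `y` is one of the last two items. -/
lemma ylast (hw : w ∈ Q) (g : 5 ≤ X w) : ∃ n : ℤ, 3 ≤ n ∧ n + 3 ≤ k ∧ X w - 3 ≤ n ∧ n + 1 < X w ∧
    P.it y n = w ∧ P.it w (n + 1) = y ∧ ¬ Fe w y := by
  have hi := m.hi w hw
  have c4 := m.cA4 d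
  by_cases e : X w - 1 ≤ cA Q X (X w - 1) + 1
  · obtain ⟨n, a⟩ := m.runz d (m.oy d) (l := X w - 1) (by omega) (by omega)
      (fun n a b => m.yB n (by omega) b) e hw (by omega)
    exact ⟨n, by omega, a.2.1, by omega, a.2.2.2.1, a.2.2.1, a.2.2.2.2⟩
  · have : X w ≠ 5 := fun t => by rw [t] at e; norm_num at e; omega
    have i := m.isoG d (l := X w - 2) (by omega) (by omega)
    rw [show X w - 2 + 1 = X w - 1 by ring] at i
    obtain ⟨n, a⟩ := m.runz d (m.oy d) (l := X w - 2) (by omega) (by omega)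
      (fun n a b => m.yB n (by omega) b) (by omega) hw (by omega)
    exact ⟨n, by omega, a.2.1, by omega, a.2.2.2.1, a.2.2.1, a.2.2.2.2⟩

/-- The owner of a high port enters at level five or later. -/
lemma hi5 (hw : w ∈ Q) (p : Fe w (P.it w l)) (h0 : 0 ≤ l) (h1 : l < X w) : 4 ≤ l ∧ 5 ≤ X w := by
  have hi := m.hi w hw
  have xf := (m.xf d).1
  have : l ≠ 0 := fun e => m.nok d m.pos hw (e ▸ p)
  have : l ≠ 1 := fun e => m.mc1 d (e ▸ m.pall hw (by omega) (by omega) p (m.oc d))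
  have : l ≠ 3 := fun e => m.my3 d (e ▸ m.pall hw (by omega) (by omega) p (m.oy d))
  have : l ≠ 2 := fun e => by
    rw [m.pone hw m.sp.hp (by omega) (by omega) p (e ▸ m.f2 d)] at h1
    omega
  omega

/-- A high port that is not a last item comes before the edge to `y`. -/
theorem f8 (hw : w ∈ Q) (p : Fe w (P.it w l)) (h0 : 0 ≤ l) (h1 : l + 1 < X w) :
    ∃ n, l ≤ n ∧ 3 ≤ n ∧ n + 3 ≤ k ∧ n + 1 < X w ∧ P.Ty Q 1 y n ∧ P.it y n = w ∧
      P.it w (n + 1) = y := by
  obtain ⟨n, a1, a2, a3, a4, a5, a6, a7⟩ := m.ylast d hw (m.hi5 d hw p h0 (by omega)).2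
  have : l ≠ n + 1 := fun e => a7 (by rw [← a6, ← e]; exact p)
  exact ⟨n, by omega, a1, a2, a4, m.yB n a1 a2, a5, a6⟩

/-- A port that is a last item. -/
theorem lastP (hw : w ∈ Q) (p : Fe w (P.it w l)) (e : X w = l + 1) :
    4 ≤ l ∧ l + 2 ≤ k ∧ (cA Q X l : ℤ) + 2 = l ∧ w ≠ f ∧ w ≠ h ∧ P.it w l = c ∧
      ∀ a : ℤ, 0 ≤ a → a + 3 ≤ k → P.it x a = f → l ≤ a := by
  have hi := m.hi w hw
  have := m.pos w hw
  have h5 := m.hi5 d hw p (by omega) (by omega)
  have xf := (m.xf d).1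
  have xh := m.xh d
  have wf : w ≠ f := fun t => by rw [t] at h5; omega
  have wh : w ≠ h := fun t => by rw [t] at h5; omega
  have t1 := (m.tf d (l := l) (by omega) (by omega)).1
  have g : (cA Q X l : ℤ) + 2 = l := by
    by_contra g
    obtain ⟨n, a1, -, -, a4, a5, a6⟩ := m.runz d (m.oy d) (l := l) (by omega) (by omega)
      (fun n a b => m.yB n (by omega) b) (by omega) hw (by omega)
    rw [show n + 1 = l by omega] at a5
    exact a6 (a5 ▸ p)
  refine ⟨h5.1, by omega, g, wf, wh, ?_, fun a a0 a1 ea => ?_⟩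
  · rcases (m.out d _).1 fun o => m.fl.cl w hw _ o p with e | e | e
    exacts [absurd ((m.sp.fx w).1 (e ▸ p)) wf, absurd ((m.sp.fy w).1 (e ▸ p)) wh, e]
  by_contra b
  have : l ≠ a + 1 := fun t => m.nopa d a0 a1 ea hw (t ▸ p)
  have i := m.isoG d (l := l) (by omega) (by omega) (by omega)
  have key : ∀ z, z ∉ Q → (∀ n, l - 1 ≤ n → n + 3 ≤ k → P.Ty Q 1 z n) →
      P.it z (l - 1) ∈ Q ∧ X (P.it z (l - 1)) = l + 1 ∧ P.it (P.it z (l - 1)) l = z ∧
        P.it z (l - 1) ≠ w := fun z hz B => by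
    have b := B (l - 1) le_rfl (by omega)
    have t := (m.cen d hz).tB b (by omega)
    rw [sub_add_cancel] at t
    refine ⟨b.1, ?_, t.1, fun s => b.2.1 (P.sym _ _ (by
      have := t.1
      rw [s] at this ⊢
      exact this ▸ p))⟩
    by_contra e
    have := m.hi _ b.1
    obtain ⟨n, n1, n2, e, -⟩ := m.runz d hz (l := l + 1) (by omega) (by omega)
      (fun n a b => B n (by omega) b) (by omega) b.1 (by omega)
    have := P.uniq e (by omega) (by omega)
    omega
  have a := key x d.o0 fun n a b => m.xty d (by omega) b fun g => by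
    have := P.uniq (g.trans ea.symm) (by omega) (by omega); omega
  have b := key y (m.oy d) fun n a b => m.yB n (by omega) b
  have := cA_three a.1 b.1 hw (fun e => (m.nes d).1 (by rw [← a.2.2.1, e, b.2.2.1])) a.2.2.2 b.2.2.2
    a.2.1 b.2.1 e
  have := m.cup d (l := l + 1) (by omega) (by omega)
  omega

/-- Both low cuts. The labels in `Φ` carry a port that is a last item; such a port is counted as a
low port, and its label is not short. -/
theorem cut2 (Φ : ℤ → Prop) (hΦ : ∀ g, Φ g → ∃ w ∈ Q, X w = g + 1 ∧ Fe w (P.it w g)) (G N : ℤ → ℤ)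
    (hG : ∀ l : ℤ, 4 ≤ l → l ≤ k → G l = gd Q X l - if Φ l then 1 else 0)
    (hN : ∀ l : ℤ, 4 ≤ l → l ≤ k → N l = P.nq Q Q X l + if Φ l then 1 else 0) {t τ : ℤ} (ht : 3 ≤ t)
    (h1 : 2 * t + 1 ≤ τ) (h2 : τ ≤ 2 * t + 2) (h3 : τ ≤ k + 1) :
    t - 1 - (∑ l ∈ Ico 4 (t + 2), G l - ∑ l ∈ Ico (t + 2) τ, G l) ≤ ∑ l ∈ Ico 4 τ, N l ∧
      ∑ l ∈ Ico 4 τ, N l ≤ t + 3 + (∑ l ∈ Ico 4 (t + 2), G l - ∑ l ∈ Ico (t + 2) τ, G l) := by
  have hk := d.sz.big
  lift t to ℕ using by omega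
  have a1 := m.cup d (l := t + 1) (by omega) (by omega)
  have a2 := (m.tf d (l := t + 2) (by omega) (by omega)).1
  have lo := m.fl.cut_lo m.cx (t := t) (by omega) h1 h2 h3 (by omega) (by omega)
  have up := m.fl.cut_hi m.cx (t := t) (by omega) h1 h2 h3 (by omega) (by omega) (m.lowq d) (m.f2' d)
    m.sp.pq ((Ico 4 ((t : ℤ) + 2)).filter fun l => Φ l) fun g hg => by
      rw [mem_filter, mem_Ico] at hg
      obtain ⟨w, hw, e, p⟩ := hΦ g hg.2
      have := m.lastP d hw p e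
      exact ⟨by omega, by omega, by omega, w, hw, this.2.2.2.1, e, this.2.2.2.2.2.1⟩
  have s : ∀ (g : ℤ → ℤ) (b : ℤ), 4 ≤ b → ∑ l ∈ Ico 3 b, g l = g 3 + ∑ l ∈ Ico 4 b, g l :=
    fun g b hb => by
      rw [sum_spl _ (show (3 : ℤ) ≤ 4 by omega) hb, show Ico (3 : ℤ) 4 = {3} by rfl, sum_singleton]
  have g3 : gd Q X 3 = 0 := by unfold gd; rw [m.cA3 d]; rfl
  unfold gam nlo at lo up
  rw [s _ _ (by omega), s _ _ (by omega), g3, m.nq0 d (Or.inl rfl)] at lo up
  rw [sum_congr rfl fun l hl => hG l (mem_Ico.1 hl).1 (by have := mem_Ico.1 hl; omega),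
    sum_congr rfl fun l (hl : l ∈ Ico ((t : ℤ) + 2) τ) =>
      hG l (by have := mem_Ico.1 hl; omega) (by have := mem_Ico.1 hl; omega),
    sum_congr rfl fun l hl => hN l (mem_Ico.1 hl).1 (by have := mem_Ico.1 hl; omega),
    sum_sub_distrib, sum_sub_distrib, sum_add_distrib,
    sum_spl (fun l => if Φ l then (1 : ℤ) else 0) (show (4 : ℤ) ≤ t + 2 by omega)
      (show (t : ℤ) + 2 ≤ τ by omega), sum_boole, sum_boole]
  omega

end W4

end PM

end Pool.Agent.P.MP_3f5ded_co.UG
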