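import Pool.Agent.P.MP_3f5ded_co.UO2
import Pool.Agent.P.MP_3f5ded_co.EU5
import Pool.Agent.P.MP_3f5ded_co.UO0

set_option autoImplicit false

namespace Pool.Agent.P.MP_3f5ded_co.UG

open Finset

namespace PM
variable {W : Type} {k : ℕ} {r : ℝ} {Fe : W → W → Prop} {P : PM W k r Fe} {Q : Finset W}
  {X Y : W → ℤ} {x y c f h z1 z2 u w : W} {a n l : ℤ} [Fintype W] {Pt : Finset (W × W)}

open Classical

/-- A high port of `Q` with the label `l`. -/
def HiP (P : PM W k r Fe) (Q : Finset W) (X : W → ℤ) (l : ℤ) : Prop :=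
  ∃ w ∈ Q, l < X w ∧ Fe w (P.it w l)

namespace W4
variable (m : P.W4 Q x y c f h z1 z2 u Y X) (d : D1 k Fe Q Pt x z1 z2)
include m d

omit d in
lemma lohi (h0 : 1 ≤ l) (h1 : l + 2 ≤ k) (a : P.LoP Q X l) (b : P.HiP Q X l) : False := by
  obtain ⟨v, hv, xv, p⟩ := a
  obtain ⟨w, hw, xw, p'⟩ := b
  rw [m.pone hv hw h0 h1 p p'] at xv
  omega

/-- A high item `c` at a level with an even number of vertices. -/
lemma highc (hw : w ∈ Q) (h0 : 3 ≤ l) (h1 : l + 2 ≤ k) (xw : l < X w) (e : P.it w l = c)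
    (ev : (cA Q X l : ℤ) % 2 = 0) : P.Ty Q 1 c (l - 1) := by
  have oc := m.oc d
  by_cases p : Fe w (P.it w l)
  · refine ((m.cen d oc).has (by omega) (by omega) (m.pall hw (by omega) h1 p oc)).resolve_left
      fun A => m.lohi (by omega) h1 (((m.par d h0 h1).1 ev).2 A) ⟨w, hw, xw, p⟩
  · rw [e] at p
    refine ((m.cen d oc).has (by omega) (by omega) ⟨w, hw, p, e⟩).resolve_left fun A => ?_
    have g := (m.cen d oc).tA A (by omega)
    rw [m.fl.lab_inj A.1 hw (fun t => A.2.1 (P.sym _ _ t)) p g.1 e] at g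
    omega

/-- The top of the table. -/
theorem f5 (a1 : a + 5 ≤ k) (a0 : 0 ≤ a) (e : P.it x a = f) (g4 : (cA Q X (k - 4) : ℤ) + 6 ≤ k) :
    P.Ty Q 1 c (k - 4 - 1) ∨ P.Ty Q 1 c (k - 5 - 1) := by
  have hk := d.sz.big
  have ek := Nat.even_iff.1 d.sz.even
  have cq := d.sz.cardQ
  have t4 := (m.tf d (l := k - 4) (by omega) (by omega)).1
  have t5 := (m.tf d (l := k - 5) (by omega) (by omega)).1
  have c5 := m.cup d (l := k - 5) (by omega) (by omega)
  have i5 := m.isoG d (l := k - 5) (by omega) (by omega)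
  have i4 := m.isoG d (l := k - 4) (by omega) (by omega) (by omega)
  rw [show (k : ℤ) - 5 + 1 = k - 4 by ring] at i5
  rw [show (k : ℤ) - 4 + 1 = k - 3 by ring] at i4
  have s3 := cA_add Q X (k - 3)
  have s5 := cA_add Q X (k - 5)
  have hz : ∀ z n, z ∉ Q → P.Ty Q 1 z n → n + 2 ≤ k →
      P.it z n ∈ Q ∧ P.it (P.it z n) (n + 1) = z ∧ n + 1 < X (P.it z n) := fun z n hz b g =>
    ⟨b.1, (m.cen d hz).tB b g⟩
  have xb : ∀ n : ℤ, k - 4 ≤ n → n + 3 ≤ k → P.Ty Q 1 x n := fun n b1 b2 =>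
    m.xty d (by omega) b2 fun t => by
      have := P.uniq (t.trans e.symm) (by omega) (by omega); omega
  obtain ⟨p1, p2, p3⟩ := hz x _ d.o0 (xb (k - 3) (by omega) (by omega)) (by omega)
  obtain ⟨q1, q2, q3⟩ := hz y _ (m.oy d) (m.yB (k - 3) (by omega) (by omega)) (by omega)
  obtain ⟨r1, r2, r3⟩ := hz x _ d.o0 (xb (k - 4) (by omega) (by omega)) (by omega)
  obtain ⟨s1, s2, s4⟩ := hz y _ (m.oy d) (m.yB (k - 4) (by omega) (by omega)) (by omega)
  set u1 := P.it x (k - 3) with hu1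
  set u2 := P.it y (k - 3) with hu2
  have ne : u1 ≠ u2 := fun t => (m.nes d).1 (by rw [← p2, t, q2])
  have two : ∀ v ∈ Q, (k : ℤ) - 3 < X v → v = u1 ∨ v = u2 := fun v hv xv => by
    by_contra g
    push Not at g
    have : ({v, u1, u2} : Finset W) ⊆ Q.filter fun w => (k : ℤ) - 3 < X w := fun w hw => by
      simp only [mem_insert, mem_singleton] at hw
      rcases hw with rfl | rfl | rfl
      exacts [mem_filter.2 ⟨hv, xv⟩, mem_filter.2 ⟨p1, by omega⟩, mem_filter.2 ⟨q1, by omega⟩]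
    have := card_le_card this
    rw [card_insert_of_notMem (by simp [g.1, g.2]), card_pair ne] at this
    omega
  rw [(two _ r1 (by omega)).resolve_left fun t => by
    have := P.uniq (t.trans hu1) (by omega) (by omega); omega] at r2
  rw [(two _ s1 (by omega)).resolve_right fun t => by
    have := P.uniq (t.trans hu2) (by omega) (by omega); omega] at s2
  by_contra no
  push Not at no
  have inq : ∀ v l, v = u1 ∨ v = u2 → l = (k : ℤ) - 4 ∨ l = k - 5 → P.it v l ∈ Q := fun v l hv hl => by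
    by_contra o
    have vq : v ∈ Q ∧ l < X v := by rcases hv with rfl | rfl <;> constructor <;> first | assumption | omega
    rcases (m.out d _).1 o with t | t | t
    · rcases hv with rfl | rfl
      · have := P.uniq (t.trans p2.symm) (by omega) (by omega); omega
      · have := P.uniq (t.trans r2.symm) (by omega) (by omega); omega
    · rcases hv with rfl | rfl
      · have := P.uniq (t.trans s2.symm) (by omega) (by omega); omega
      · have := P.uniq (t.trans q2.symm) (by omega) (by omega); omega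
    · have := m.highc d vq.1 (by omega) (by omega) vq.2 t (by rcases hl with rfl | rfl <;> omega)
      rcases hl with rfl | rfl
      exacts [no.1 this, no.2 this]
  have key : ∀ l, l = (k : ℤ) - 4 ∨ l = k - 5 → P.it u1 l = u2 := fun l hl => by
    by_contra g
    have a1 := inq u1 l (Or.inl rfl) hl
    have a2 := inq u2 l (Or.inr rfl) hl
    have b1 := m.fl.it p1 a1 rfl
    have b2 := m.fl.it q1 a2 rfl
    have e1 := (m.fl.ent m.cx p1 a1).not.2 (by omega)
    have e2 := (m.fl.ent m.cx q1 a2).not.2 (by omega)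
    obtain ⟨y1, y2, y3⟩ := hz y _ (m.oy d) (m.yB (l - 1) (by omega) (by omega)) (by omega)
    rw [sub_add_cancel] at y2 y3
    have oy := m.oy d
    have c4 : cA Q X (k - 5) = cA Q X (k - 4) := by omega
    have mono : ∀ v ∈ Q, l < X v → (k : ℤ) - 5 < X v := fun v _ g => by omega
    have n1 : P.it y (l - 1) ≠ u1 := fun t => oy (by rw [← y2, t]; exact a1)
    have n2 : P.it y (l - 1) ≠ u2 := fun t => oy (by rw [← y2, t]; exact a2)
    have n3 : P.it y (l - 1) ≠ P.it u1 l := fun t => oy (by rw [← y2, t, b1]; exact p1)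
    have n4 : P.it y (l - 1) ≠ P.it u2 l := fun t => oy (by rw [← y2, t, b2]; exact q1)
    have n5 : P.it u1 l ≠ P.it u2 l := fun t => ne (by rw [← b1, t, b2])
    have n6 : P.it u2 l ≠ u1 := fun t => g (by rw [← t, b2])
    have : ({P.it y (l - 1), P.it u1 l, P.it u2 l, u1, u2} : Finset W) ⊆
        Q.filter fun w => (k : ℤ) - 5 < X w := fun w hw => by
      simp only [mem_insert, mem_singleton] at hw
      rcases hw with rfl | rfl | rfl | rfl | rfl
      exacts [mem_filter.2 ⟨y1, by omega⟩, mem_filter.2 ⟨a1, by omega⟩, mem_filter.2 ⟨a2, by omega⟩,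
        mem_filter.2 ⟨p1, by omega⟩, mem_filter.2 ⟨q1, by omega⟩]
    have := card_le_card this
    rw [card_insert_of_notMem (by simp [n1, n2, n3, n4]),
      card_insert_of_notMem (by simp [n5, g, P.ne u1 l]),
      card_insert_of_notMem (by simp [n6, P.ne u2 l]), card_pair ne] at this
    omega
  have := P.uniq ((key _ (Or.inl rfl)).trans (key _ (Or.inr rfl)).symm) (by omega) (by omega)
  omega

end W4

namespace W5
variable (m : P.W5 Q x y c f h z1 z2 u Y X) (d : D1 k Fe Q Pt x z1 z2)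
include m d

lemma hprt (a0 : 0 ≤ a) (a1 : a + 3 ≤ k) (e : P.it x a = f) (h0 : 4 ≤ n) (h1 : n < 4 + k)
    (p : Fe h (P.it h n)) : 6 ≤ n ∧ n ≤ a ∧ P.Ty Q 1 c (n - 1) ∧ P.LoP Q X n := by
  have xh := m.xh d
  have hq := m.sp.hq
  have := m.qrange d hq (n := n) (by omega) (by omega) p
  have : n ≠ 4 := fun t => m.nf h hq (by rw [xh, ← t]; exact p)
  have : n ≠ 5 := fun t => m.h5 d (t ▸ p)
  have := m.lowB d a0 a1 e hq (by omega) (by omega) p (m.hA d p h0 (by omega) (by omega) le_rfl)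
  exact ⟨by omega, this.1, this.2, h, hq, by omega, p⟩

/-- The word of a copy. The ports at the labels in `Φ` are last items and count as low ports. -/
theorem owd (Φ : ℤ → Prop) (hΦ : ∀ g, Φ g → ∃ w ∈ Q, X w = g + 1 ∧ Fe w (P.it w g))
    {κ q st b : ℤ} {v : W} (a0 : 0 ≤ a) (a1 : a + 5 ≤ k) (e : P.it x a = f)
    (k0 : 4 ≤ κ) (k1 : κ < 4 + k) (k2 : P.it h κ = y) (q0 : 4 ≤ q) (q1 : q < 4 + k)
    (q2 : P.it h q = c) (hv : v ∈ Q) (vf : v ≠ f) (vh : v ≠ h) (s0 : 0 ≤ st) (s1 : st < k)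
    (s2 : Fe v (P.it v st)) (b0 : 3 ≤ b) (b1 : b + 2 ≤ k) (b2 : Fe c (P.it c b)) :
    OWd k (P.Ty Q 0 c) (fun l => P.Ty Q 1 c (l - 1)) (fun l => P.LoP Q X l ∨ Φ l)
      (fun l => P.HiP Q X l ∧ ¬ Φ l) (a + 1) κ q st b
      (fun l => P.nq Q Q X l + if Φ l then 1 else 0) fun l => gd Q X l - if Φ l then 1 else 0 := by
  have hk := d.sz.big
  have ek := Nat.even_iff.1 d.sz.even
  have oc := m.oc d
  have F : ∀ g, Φ g → 4 ≤ g ∧ g + 2 ≤ k ∧ gd Q X g = 1 ∧ g ≤ a ∧ P.HiP Q X g := fun g t => by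
    obtain ⟨w, hw, xw, p⟩ := hΦ g t
    have := m.lastP d hw p xw
    exact ⟨this.1, this.2.1, by unfold gd; omega, this.2.2.2.2.2.2 a a0 (by omega) e, w, hw,
      by omega, p⟩
  have pt : ∀ l, (P.LoP Q X l ∨ Φ l) ∨ (P.HiP Q X l ∧ ¬ Φ l) ↔ ∃ w ∈ Q, Fe w (P.it w l) := fun l => by
    constructor
    · rintro ((⟨w, a, -, p⟩ | t) | ⟨⟨w, a, -, p⟩, -⟩)
      · exact ⟨w, a, p⟩
      · obtain ⟨w, a, -, p⟩ := hΦ l t
        exact ⟨w, a, p⟩
      · exact ⟨w, a, p⟩
    · rintro ⟨w, a, p⟩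
      by_cases t : Φ l
      · exact Or.inl (Or.inr t)
      · exact (le_or_gt (X w) l).imp (fun g => Or.inl ⟨w, a, g, p⟩) fun g => ⟨⟨w, a, g, p⟩, t⟩
  have pk : Fe h (P.it h κ) := k2 ▸ (m.sp.fy h).2 rfl
  have pq : Fe h (P.it h q) := q2 ▸ m.sp.fq
  have hκ := m.hprt d a0 (by omega) e k0 k1 pk
  have hq := m.hprt d a0 (by omega) e q0 q1 pq
  have a4 := m.crange d d.o0 a0 (by omega) (e ▸ P.sym _ _ ((m.sp.fx f).2 rfl))
  have cut := fun {t τ : ℤ} => m.cut2 d Φ hΦ _ _ (fun _ _ _ => rfl) (fun _ _ _ => rfl) (t := t) (τ := τ)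
  refine ⟨hk, by omega, fun l l0 l1 => ?_, fun l l0 l1 => ?_, fun l l0 l1 => ?_, fun g => ?_,
    fun _ g => ?_, m.cA5 d (by omega) (by omega), ?_, fun g => ?_, ?_, fun l _ _ A B => ?_,
    fun l l' _ _ _ _ B A => ?_, fun l l0 l1 g t => ?_, fun l l0 l1 => ?_, ⟨fun g => ?_, fun g => ?_, by omega⟩,
    ⟨by simpa using m.cb3 d, Or.inl (m.lo4 d)⟩, ⟨hκ.1, by omega, hκ.2.2.1, Or.inl hκ.2.2.2⟩,
    ⟨hq.1, by omega, hq.2.2.1, Or.inl hq.2.2.2, fun t => (m.nes d).2.2 (by rw [← k2, ← t, q2])⟩, ?_,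
    ⟨b0, by omega, fun A => A.2.1 b2, fun B => B.2.1 (by rwa [add_sub_cancel_right])⟩,
    fun t ht => ?_, fun t t0 _ _ t1 => ?_⟩
  · have n := m.nqP d (l := l) (by omega) (by omega)
    have : Φ l → ¬ P.LoP Q X l := fun t g => m.lohi (by omega) (by omega) g (F l t).2.2.2.2
    by_cases A : P.Ty Q 0 c l <;> by_cases L : P.LoP Q X l <;> by_cases t : Φ l <;> simp_all
  · have := m.gd01 d (l := l) (by omega) (by omega)
    have := m.fl.nq_par m.cx l
    have := F l
    unfold gd at *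
    split_ifs with t
    · have := this t; omega
    · omega
  · have := m.isoG d (l := l) (by omega) (by omega)
    have := m.gd01 d (l := l) (by omega) (by omega)
    have := m.gd01 d (l := l + 1) (by omega) (by omega)
    unfold gd at *
    split_ifs <;> omega
  · have := m.cAtop d (l := k - 2 + 1) (by omega)
    have := m.alt d (l := k - 2) (by omega) (by omega) (fun n a b => m.xty d (by omega) b fun g => by
      have := P.uniq (g.trans e.symm) (by omega) (by omega); omega) (by omega)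
    have := m.gd01 d (l := k - 2) (by omega) (by omega)
    rw [if_neg fun t => by have := F _ t; omega]
    unfold gd at *
    omega
  · refine m.f5 d a1 a0 e ?_
    unfold gd at g
    split_ifs at g <;> omega
  · rintro (⟨w, hw, -, p⟩ | t)
    · exact m.my3 d (m.pall hw (by omega) (by omega) p (m.oy d))
    · have := F _ t; omega
  · have := ((m.cen d oc).tB g (by omega)).2
    have := m.hi _ g.1
    omega
  · rintro ⟨⟨w, hw, g, -⟩, -⟩
    have := m.hi w hw
    omega
  · rw [add_sub_cancel_right] at B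
    have := A.ne B
    omega
  · have := m.jmp _ _ B A (by omega) (by omega) (by omega)
    omega
  · exact g.elim (fun g => m.lohi (by omega) (by omega) g t.1) t.2
  · rw [← or_assoc, pt]
    constructor
    · intro g
      have : P.Has Q c l := g.elim (m.cen d oc).hasA fun B => by
        simpa using (m.cen d oc).hasB B
      by_cases t : l = a + 1
      exacts [Or.inr t, Or.inl (m.hasP d a0 (by omega) e l0 (by omega) t this)]
    · intro g
      refine (m.cen d oc).has (by omega) (by omega) ?_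
      rcases g with ⟨w, hw, p⟩ | rfl
      · exact m.pall hw (by omega) (by omega) p oc
      · refine has_of_one (m.one _ (by omega) (by omega)) d.o0 oc (m.nes d).2.1 fun t => ?_
        refine (m.hasB d d.o0 (m.nes d).2.1 (Or.inl (m.nes d).1) (by omega) (by omega) t).2.1 ?_
        rw [add_sub_cancel_right, e]
        exact P.sym _ _ ((m.sp.fx f).2 rfl)
  · obtain ⟨w, hw, p⟩ := (pt _).1 (Or.inl g)
    exact m.nopa d a0 (by omega) e hw p
  · obtain ⟨w, hw, p⟩ := (pt _).1 (Or.inr g)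
    exact m.nopa d a0 (by omega) e hw p
  · have r : 4 ≤ st ∧ st ≤ k - 2 := by
      have := m.hi v hv
      by_cases g : st < X v
      · have := m.hi5 d hv s2 s0 g; omega
      · have := m.qrange d hv (n := st) (by omega) (by have := m.pos v hv; omega) s2
        have : st ≠ 2 := fun t => vf (m.pone hv m.sp.hp (by omega) (by omega) s2 (t ▸ m.f2 d))
        omega
    exact ⟨r.1, r.2, (pt _).2 ⟨v, hv, s2⟩,
      fun t => vh (m.pone hv m.sp.hq (by omega) (by omega) s2 (t ▸ pk)),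
      fun t => vh (m.pone hv m.sp.hq (by omega) (by omega) s2 (t ▸ pq))⟩
  · have c1 := (cut (t := t) (τ := k + 1) (by omega) (by omega) (by omega) le_rfl).1
    have s : ∀ (g : ℤ → ℤ) (i : ℤ), i ≤ k - 1 →
        ∑ l ∈ Ico i (k + 1), g l = ∑ l ∈ Ico i (k - 1), g l + g (k - 1) + g k := fun g i hi => by
      rw [sum_spl g hi (by omega), show Ico ((k : ℤ) - 1) (k + 1) = {(k : ℤ) - 1, (k : ℤ)} by
        ext l; simp only [mem_Ico, mem_insert, mem_singleton]; omega, sum_pair (by omega), add_assoc]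
    have n1 : ¬ Φ (k - 1) := fun t => by have := F _ t; omega
    have n2 : ¬ Φ k := fun t => by have := F _ t; omega
    have g1 : gd Q X (k - 1) = 0 := by have := m.cAtop d (l := k - 1) le_rfl; unfold gd; omega
    have g2 : gd Q X k = 1 := by have := m.cAtop d (l := k) (by omega); unfold gd; omega
    rw [s _ _ (by omega), s _ _ (by omega), if_neg n1, if_neg n2, g1, g2,
      m.nq0 d (Or.inr (Or.inl rfl)), m.nq0 d (Or.inr (Or.inr rfl))] at c1
    rw [sum_spl _ (show (4 : ℤ) ≤ t + 2 by omega) (show t + 2 ≤ k - 1 by omega)]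
    omega
  · have c1 := (cut (t := t) (τ := 2 * t + 2) (by omega) (by omega) le_rfl (by omega)).2
    rw [sum_spl (fun l => gd Q X l - if Φ l then 1 else 0) (show (4 : ℤ) ≤ t + 2 by omega)
      (show t + 2 ≤ 2 * t + 2 by omega)]
    omega

end W5

end PM

end Pool.Agent.P.MP_3f5ded_co.UG
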