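import Pool.Agent.P.MP_3f5ded_co.UO0

set_option autoImplicit false

namespace Pool.Agent.P.MP_3f5ded_co.UG

open Finset

/-- The data of a word. -/
structure OC where
  A : ℤ → Prop
  B : ℤ → Prop
  Lo : ℤ → Prop
  Hi : ℤ → Prop
  a : ℤ
  κ : ℤ
  q : ℤ
  st : ℤ
  b : ℤ
  nq : ℤ → ℤ
  γ : ℤ → ℤ

namespace OC

/-- Two glued words. -/
structure OP (k : ℕ) (c d : OC) : Prop where
  w : OWd k c.A c.B c.Lo c.Hi c.a c.κ c.q c.st c.b c.nq c.γ
  w' : OWd k d.A d.B d.Lo d.Hi d.a d.κ d.q d.st d.b d.nq d.γ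
  g : OGl k c.B c.Lo c.Hi c.κ c.st d.A d.B d.Hi d.a d.st d.b
  g' : OGl k d.B d.Lo d.Hi d.κ d.st c.A c.B c.Hi c.a c.st c.b

def PU (c : OC) (l : ℤ) : Prop := c.B l ∧ c.Lo l ∧ l ≠ c.st ∧ l ≠ c.κ
def M (c : OC) (l : ℤ) : Prop := c.A l ∧ c.Hi l ∧ l ≠ c.st
def E0 (c : OC) (n : ℤ) : Prop :=
  (c.A n ∧ c.Lo n ∧ n ≠ c.st) ∨ (c.B (n + 1) ∧ c.Hi (n + 1) ∧ n + 1 ≠ c.st)
def UP (k : ℕ) (c d : OC) (l : ℤ) : Prop :=
  c.PU l ∨ d.PU (k + 2 - l) ∨ (l = c.κ ∧ d.B d.a) ∨ (l = c.a ∧ c.B c.a)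
def DN (k : ℕ) (c d : OC) (l : ℤ) : Prop := c.M l ∨ d.M (k + 2 - l)
def EE (k : ℕ) (c d : OC) (n : ℤ) : Prop :=
  c.E0 n ∨ d.E0 (k + 1 - n) ∨ (n + 1 = c.κ ∧ d.A d.a) ∨ (n = c.a ∧ c.A c.a)
def U (c : OC) (n : ℤ) : Prop := n = c.b ∨ (c.A n ∧ n = c.st) ∨ (c.B (n + 1) ∧ n + 1 = c.st)

namespace OP
variable {k : ℕ} {c d : OC} (h : OP k c d) {l n : ℤ}
include h

lemma sw : OP k d c := ⟨h.w', h.w, h.g', h.g⟩

lemma up_sw : UP k d c (k + 2 - l) ↔ UP k c d l := by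
  have := h.g.ka
  have := h.g'.ka
  simp only [UP, sub_sub_cancel, show k + 2 - l = d.κ ↔ l = c.a by omega,
    show k + 2 - l = d.a ↔ l = c.κ by omega]
  tauto

omit h in
lemma dn_sw : DN k d c (k + 2 - l) ↔ DN k c d l := by
  simp only [DN, sub_sub_cancel]
  tauto

lemma ee_sw : EE k d c (k + 1 - n) ↔ EE k c d n := by
  have := h.g.ka
  have := h.g'.ka
  simp only [EE, sub_sub_cancel, show k + 1 - n + 1 = d.κ ↔ n = c.a by omega,
    show k + 1 - n = d.a ↔ n + 1 = c.κ by omega]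
  tauto

lemma aa : (c.A c.a ∧ ¬ c.B c.a) ∨ (¬ c.A c.a ∧ c.B c.a) := by
  have := h.w.ka
  have := h.w.na
  have e := (h.w.has c.a (by omega) (by omega)).2 (by tauto)
  have := h.w.j3 c.a c.a (by omega) le_rfl (by omega) (by omega)
  tauto

lemma nk : ¬ c.A c.κ :=
  h.w.j3 c.κ c.κ (by have := h.w.ka; omega) le_rfl (by omega)
    (by have := h.w.ka; have := h.w.na; omega) h.w.ka.2.2.1

/-- Every item of the main centre has exactly one status. -/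
lemma one (h1 : 3 ≤ n) (h2 : n ≤ k - 2) :
    (UP k c d (n + 1) ∧ ¬ DN k c d n ∧ ¬ EE k c d n ∧ ¬ c.U n) ∨
    (¬ UP k c d (n + 1) ∧ DN k c d n ∧ ¬ EE k c d n ∧ ¬ c.U n) ∨
    (¬ UP k c d (n + 1) ∧ ¬ DN k c d n ∧ EE k c d n ∧ ¬ c.U n) ∨
    (¬ UP k c d (n + 1) ∧ ¬ DN k c d n ∧ ¬ EE k c d n ∧ c.U n) := by
  obtain ⟨m, hm⟩ : ∃ m, m = k + 1 - n := ⟨_, rfl⟩
  have m1 : 3 ≤ m := by omega
  have m2 : m ≤ k - 2 := by omega
  have pr := h.g'.pr m (by omega) (by omega)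
  have on := h.g'.one m (by omega) (by omega)
  rw [show k + 1 - m = n by omega, show k + 2 - m = n + 1 by omega] at pr
  have a1 := h.aa
  have a2 := h.sw.aa
  have a3 := h.nk
  have a4 := h.sw.nk
  obtain ⟨-, k2, k3, k4⟩ := h.w.ka
  obtain ⟨n1, n2, -⟩ := h.w.na
  obtain ⟨-, -, s3, s4, -⟩ := h.w.hs
  obtain ⟨-, -, f1, f2⟩ := h.w.fr
  simp only [UP, DN, EE, U, show k + 2 - (n + 1) = m by omega,
    show k + 2 - n = m + 1 by omega, ← hm]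
  have dead : ¬ (¬ c.A n ∧ ¬ c.B (n + 1) ∧ n ≠ c.b) → ¬ d.PU m ∧ ¬ d.M (m + 1) ∧ ¬ d.E0 m :=
    fun g => ⟨fun t => g (pr.1 (Or.inl t.2)), fun t => g (pr.1 (Or.inr t.2)), fun t => g (pr.1
      (t.imp (fun t => ⟨t.2.1, t.2.2, fun e => a4 (e ▸ t.1)⟩) And.right))⟩
  have nB : ¬ c.B (n + 1) → ¬ c.PU (n + 1) ∧ n + 1 ≠ c.κ ∧ ¬ (n + 1 = c.a ∧ c.B c.a) :=
    fun g => ⟨fun t => g t.1, fun e => g (e ▸ k3), fun t => g (t.1 ▸ t.2)⟩
  have nA : ¬ c.A n → ¬ c.M n ∧ ¬ (n = c.a ∧ c.A c.a) :=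
    fun g => ⟨fun t => g t.1, fun t => g (t.1 ▸ t.2)⟩
  by_cases A : c.A n
  · have n4 : 4 ≤ n := by
      have : n ≠ 3 := fun e => h.w.a3 (e ▸ A)
      omega
    have b1 := h.w.ab n n4 h2 A
    have b3 := h.w.lh n n4 h2
    obtain ⟨d1, d2, d3⟩ := dead fun g => g.1 A
    obtain ⟨e1, e2, e3⟩ := nB b1
    have e4 : n ≠ c.b := fun e => f1 (e ▸ A)
    simp only [d1, d2, d3, e1, e2, e3, e4, false_and, or_false, false_or]
    simp only [M, E0, b1, A, false_and, true_and, or_false, not_false_eq_true]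
    rcases (h.w.has n n4 h2).1 (Or.inl A) with g | g | g
    · have u1 : n ≠ c.a := fun e => n1 (e ▸ g)
      clear * - g u1 b3
      tauto
    · have u1 : n ≠ c.a := fun e => n2 (e ▸ g)
      clear * - g u1 b3
      tauto
    · subst g
      have : c.a ≠ c.st := fun e => by rw [← e] at s3; exact s3.elim n1 n2
      simp [n1, n2, A, this]
  by_cases B : c.B (n + 1)
  · have n4 : n + 1 ≤ k - 2 := by
      have : n + 1 ≠ k - 1 := fun e => h.w.bk (e ▸ B)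
      omega
    have b3 := h.w.lh (n + 1) (by omega) n4
    obtain ⟨d1, d2, d3⟩ := dead fun g => g.2.1 B
    obtain ⟨e1, e2⟩ := nA A
    have e4 : n ≠ c.b := fun e => f2 (e ▸ B)
    simp only [d1, d2, d3, e1, e2, e4, false_and, or_false, false_or]
    simp only [PU, E0, B, A, false_and, true_and, false_or, not_false_eq_true]
    have b2 := (h.w.has (n + 1) (by omega) n4).1 (Or.inr B)
    generalize n + 1 = l at *
    rcases b2 with g | g | g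
    · have u1 : l ≠ c.a := fun e => n1 (e ▸ g)
      have u2 := b3 g
      by_cases e : l = c.κ
      · have u3 : l ≠ c.st := fun t => s4 (t.symm.trans e)
        clear * - g u1 u2 e u3 a2
        tauto
      · clear * - g u1 u2 e
        tauto
    · have u1 : l ≠ c.a := fun e => n2 (e ▸ g)
      have u2 : l ≠ c.κ := fun e => b3 (e ▸ k4) g
      clear * - g u1 u2 b3
      tauto
    · subst g
      have u1 : c.a ≠ c.st := fun e => by rw [← e] at s3; exact s3.elim n1 n2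
      have u2 : c.a ≠ c.κ := k2.ne'
      simp [n1, n2, B, u1, u2]
  obtain ⟨e1, e2, e3⟩ := nB B
  obtain ⟨e4, e5⟩ := nA A
  have e6 : ¬ c.E0 n := fun t => t.elim (fun t => A t.1) fun t => B t.1
  by_cases e : n = c.b
  · obtain ⟨d1, d2, d3⟩ := dead fun g => g.2.2 e
    simp only [d1, d2, d3, e1, e2, e3, e4, e5, e6, false_and, or_false, not_false_eq_true, true_and,
      eq_true e, true_or, not_true_eq_false, and_false, or_true]
  simp only [e1, e2, e3, e4, e5, e6, e, B, A, false_and, or_false, false_or,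
    not_false_eq_true, and_true, and_false]
  rcases pr.2 ⟨A, B, e⟩ with L | H
  · have n4 : 4 ≤ m := by
      have : m ≠ 3 := fun e => h.w'.l3 (e ▸ L.1)
      omega
    have b2 := (h.w'.has m n4 (by omega)).2 (Or.inl L.1)
    have b3 := h.w'.j3 m m n4 le_rfl (by omega) (by omega)
    have b4 : ¬ (d.Hi (m + 1) ∧ m + 1 ≠ d.st) := fun t => t.2 (on L.1 L.2.1 L.2.2 t.1)
    have b5 : ¬ d.M (m + 1) := fun t => b4 t.2
    rcases b2 with g | g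
    · exact Or.inr (Or.inr ⟨fun t => b3 t.1 g, b5, Or.inl ⟨g, L.1, L.2.1⟩⟩)
    · exact Or.inl ⟨⟨g, L⟩, b5, fun t => t.elim (fun t => b3 g t.1) fun t => b4 t.2⟩
  · have n4 : m + 1 ≤ k - 2 := by
      have : m + 1 ≠ k - 1 := fun e => h.w'.hk (e ▸ H.1)
      omega
    have b2 := (h.w'.has (m + 1) (by omega) n4).2 (Or.inr (Or.inl H.1))
    have b3 := h.w'.j3 (m + 1) (m + 1) (by omega) le_rfl (by omega) n4
    have b4 : ¬ (d.Lo m ∧ m ≠ d.st ∧ m ≠ d.κ) := fun t => H.2 (on t.1 t.2.1 t.2.2 H.1)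
    have b5 : ¬ (d.A m ∧ d.Lo m ∧ m ≠ d.st) := fun t => b4 ⟨t.2.1, t.2.2, fun e => a4 (e ▸ t.1)⟩
    have b6 : ¬ d.PU m := fun t => b4 t.2
    rcases b2 with g | g
    · exact Or.inr (Or.inl ⟨b6, ⟨g, H⟩, fun t => t.elim b5 fun t => b3 t.1 g⟩)
    · exact Or.inr (Or.inr ⟨b6, fun t => b3 g t.1, Or.inr ⟨g, H⟩⟩)

end OP

end OC

end Pool.Agent.P.MP_3f5ded_co.UG
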