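import Pool.Agent.P.MP_3f5ded_co.UOa

set_option autoImplicit false

namespace Pool.Agent.P.MP_3f5ded_co.UG

open Finset

namespace OC

namespace OP
variable {k : ℕ} {c d : OC} (h : OP k c d) {l n e e' : ℤ}
include h

lemma ak : c.a ≤ k - 4 := by have := h.g'.ka; have := h.w'.ka; omega

lemma gk : c.γ (k - 2) = 1 := h.w.top (by have := h.ak; omega)

lemma xab (h1 : 4 ≤ l) (h2 : l ≤ k - 2) (b : c.B l) : ¬ c.A l := h.w.j3 l l h1 le_rfl (by omega) h2 b

lemma up3 : ¬ UP k c d 3 := by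
  have := h.w.ka
  rintro (t | t | t | t)
  · exact h.w.l3 t.2.1
  · exact h.w'.bk (by have := t.1; rwa [show (k : ℤ) + 2 - 3 = k - 1 by ring] at this)
  · omega
  · omega

lemma dn3 : ¬ DN k c d 3 := by
  rintro (t | t)
  · exact h.w.a3 t.1
  · exact h.w'.hk (by have := t.2.1; rwa [show (k : ℤ) + 2 - 3 = k - 1 by ring] at this)

/-- The last item of the main centre has no partner. -/
lemma utop : c.U (k - 2) := by
  have hk := h.w.big
  have a1 := h.ak
  have a2 := h.w.ka
  have x : ¬ UP k c d (k - 2 + 1) := fun t => h.sw.up3 (by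
    have := h.up_sw.2 t; rwa [show (k : ℤ) + 2 - (k - 2 + 1) = 3 by ring] at this)
  have four := h.w'.four
  have y : ¬ DN k c d (k - 2) := by
    rintro (t | t)
    · have g := h.gk
      have p := (h.w.par (k - 2) (by omega) le_rfl).2
      have := h.w.ev
      have nl : ¬ c.Lo (k - 2) := fun u => h.w.lh _ (by omega) le_rfl u t.2.1
      rcases h.w.hn (k - 2) (by omega) le_rfl with u | u | u | u
      exacts [nl u.2.1, by omega, u.1 t.1, u.1 t.1]
    · rw [show (k : ℤ) + 2 - (k - 2) = 4 by ring] at t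
      exact h.sw.xab le_rfl (by omega) four.1 t.1
  have z : ¬ EE k c d (k - 2) := by
    rintro ((t | t) | t | t | t)
    · have := (h.g.pr (k - 2) (by omega) le_rfl).1 (Or.inl ⟨t.2.1, t.2.2, by omega⟩)
      rw [show (k : ℤ) + 2 - (k - 2) = 4 by ring] at this
      exact this.2.1 four.1
    · exact h.w.bk (by have := t.1; rwa [show (k : ℤ) - 2 + 1 = k - 1 by ring] at this)
    · rw [show (k : ℤ) + 1 - (k - 2) = 3 by ring] at t
      exact t.elim (fun t => h.w'.a3 t.1) fun t => h.w'.lh 4 le_rfl (by omega) four.2 t.2.1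
    · omega
    · omega
  rcases h.one (n := k - 2) (by omega) le_rfl with t | t | t | t
  exacts [absurd t.1 x, absurd t.2.1 y, absurd t.2.2.1 z, t.2.2.2]

/-- The other item without a partner. -/
def Ev (k : ℕ) (c : OC) (e : ℤ) : Prop :=
  3 ≤ e ∧ e ≤ k - 3 ∧ (∀ n : ℤ, 3 ≤ n → n ≤ k - 2 → (c.U n ↔ n = e ∨ n = k - 2)) ∧
    ((c.A c.st ∧ e = c.st) ∨ (c.B c.st ∧ e + 1 = c.st) ∨ (c.A (k - 2) ∧ c.st = k - 2))

lemma exe : ∃ e, Ev k c e := by
  obtain ⟨s1, s2, s3, -⟩ := h.w.hs
  obtain ⟨f1, f2, f3, f4⟩ := h.w.fr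
  have u := h.utop
  rcases (h.w.has c.st s1 s2).2 (by tauto) with g | g
  · have v : ∀ n, c.U n ↔ n = c.b ∨ n = c.st := fun n => or_congr_right
      ⟨fun t => t.elim And.right fun t => absurd g (h.xab s1 s2 (t.2 ▸ t.1)),
        fun t => Or.inl ⟨t ▸ g, t⟩⟩
    have : c.b ≠ c.st := fun t => f3 (t ▸ g)
    rw [v] at u
    rcases u with u | u
    · exact ⟨c.st, by omega, by omega, fun n _ _ => by rw [v]; omega, Or.inl ⟨g, rfl⟩⟩
    · exact ⟨c.b, by omega, by omega, fun n _ _ => by rw [v]; omega, Or.inr (Or.inr ⟨u ▸ g, u.symm⟩)⟩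
  · have v : ∀ n, c.U n ↔ n = c.b ∨ n + 1 = c.st := fun n => or_congr_right
      ⟨fun t => t.elim (fun t => absurd (t.2 ▸ t.1) (h.xab s1 s2 g)) And.right,
        fun t => Or.inr ⟨t ▸ g, t⟩⟩
    have : c.b + 1 ≠ c.st := fun t => f4 (t ▸ g)
    rw [v] at u
    exact ⟨c.st - 1, by omega, by omega, fun n _ _ => by rw [v]; omega,
      Or.inr (Or.inl ⟨g, by ring⟩)⟩

lemma updn (h1 : 4 ≤ l) (h2 : l ≤ k - 2) (u : UP k c d l) : ¬ DN k c d l := by
  have k1 := h.g.ka
  have k2 := h.g'.ka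
  have x : c.B l → ¬ c.M l := fun b t => h.xab h1 h2 b t.1
  have y : d.B (k + 2 - l) → ¬ d.M (k + 2 - l) := fun b t => h.sw.xab (by omega) (by omega) b t.1
  rintro (t | t)
  · rcases u with u | u | u | u
    · exact x u.1 t
    · have := h.g'.sg (k + 2 - l) (by omega) (by omega) u.1 u.2.1 u.2.2.1 u.2.2.2
      rw [sub_sub_cancel] at this
      exact t.2.2 (this t.1 t.2.1)
    · exact x (u.1 ▸ h.w.ka.2.2.1) t
    · exact x (u.1 ▸ u.2) t
  · rcases u with u | u | u | u
    · exact t.2.2 (h.g.sg l h1 h2 u.1 u.2.1 u.2.2.1 u.2.2.2 t.1 t.2.1)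
    · exact y u.1 t
    · exact y (by rw [show k + 2 - l = d.a by omega]; exact u.2) t
    · exact y (by rw [show k + 2 - l = d.κ by omega]; exact h.w'.ka.2.2.1) t

open Classical in
lemma prof0 (E : Ev k c e) (E' : Ev k d e') (h1 : 3 ≤ l) (h2 : l ≤ k - 2) :
    (if UP k c d l then 1 else 0) - (if DN k c d l then 1 else 0) =
      (if 3 < l then 1 else 0) + (if k + 1 - e' < l then 1 else 0) - (if e < l then (1 : ℤ) else 0) := by
  obtain ⟨e1, e2, e3, -⟩ := E
  obtain ⟨f1, f2, f3, -⟩ := E'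
  induction l, h1 using Int.leInduction with
  | base => rw [if_neg h.up3, if_neg h.dn3]; split_ifs <;> omega
  | succ n hn ih =>
    replace ih := ih (by omega)
    have a := h.one hn (by omega)
    have b := h.sw.one (n := k + 1 - n) (by omega) (by omega)
    rw [show k + 1 - n + 1 = k + 2 - n by ring, h.up_sw, h.ee_sw, f3 _ (by omega) (by omega),
      show k + 1 - n = k + 2 - (n + 1) by ring, dn_sw] at b
    rw [e3 n hn (by omega)] at a
    rcases a with a | a | a | a <;> rcases b with b | b | b | b <;>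
      simp only [a.1, a.2.1, b.1, b.2.1, if_true, if_false] at ih ⊢ <;>
      first
      | exact absurd a.2.2.1 b.2.2.1
      | exact absurd b.2.2.1 a.2.2.1
      | (have := a.2.2.2; have := b.2.2.2; split_ifs at ih ⊢ <;> omega)

/-- The profile: shifted pairs, aligned pairs, shifted pairs. -/
lemma prof (E : Ev k c e) (E' : Ev k d e') (h1 : 4 ≤ l) (h2 : l ≤ k - 2) :
    ¬ DN k c d l ∧ (UP k c d l ↔ l ≤ e ∨ k + 1 - e' < l) ∧ (l ≤ e → l ≤ k + 1 - e') := by
  have a := h.prof0 E E' (l := l) (by omega) h2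
  have b := h.updn h1 h2
  by_cases u : UP k c d l <;> by_cases v : DN k c d l <;>
    simp only [u, v, if_true, if_false, true_iff, false_iff, not_true_eq_false, not_false_eq_true,
      true_and, false_and] at a ⊢
  · exact b u v
  all_goals split_ifs at a <;> omega

end OP

end OC

end Pool.Agent.P.MP_3f5ded_co.UG
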