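import Pool.Agent.P.MP_3f5ded_co.UOb

set_option autoImplicit false

namespace Pool.Agent.P.MP_3f5ded_co.UG

open Finset

namespace OC

namespace OP
variable {k : ℕ} {c d : OC} (h : OP k c d) {l n e e' : ℤ} (E : Ev k c e) (E' : Ev k d e')
include h E E'

lemma evn (h1 : 4 ≤ l) (h2 : l ≤ e) (p : c.PU l) : d.nq (k + 2 - l) % 2 = 0 := by
  have e2 := E.2.1
  obtain ⟨x1, -, x3⟩ := h.prof E E' h1 (by omega)
  have g := (h.g.pr l (by omega) (by omega)).1 (Or.inl p.2)
  have s := h.w'.has (k + 2 - l) (by omega) (by omega)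
  rcases h.w'.hn (k + 2 - l) (by omega) (by omega) with u | u | u | u
  · omega
  · rcases s.1 (Or.inl u.1) with t | t | t
    · exact absurd t u.2.1
    · by_cases v : k + 2 - l = d.st
      · rcases (E'.2.2.1 (k + 2 - l) (by omega) (by omega)).1 (Or.inr (Or.inl ⟨u.1, v⟩)) with y | y
        · omega
        · have := h.sw.gk
          have := (h.w'.par (k - 2) (by omega) le_rfl).2
          have := h.w.ev
          rw [y]
          omega
      · exact absurd (Or.inr ⟨u.1, t, v⟩) x1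
    · have := h.g.ka
      exact absurd (by omega) p.2.2.2
  · exact absurd ((s.2 (Or.inl u.2.1)).resolve_left u.1) g.2.1
  · omega

/-- The first zone is a run of high edges with low ports. -/
lemma run (h1 : 4 ≤ l) (h2 : l ≤ e) :
    c.B l ∧ c.Lo l ∧ c.γ l = l % 2 ∧ d.γ (k + 2 - l) = 1 - l % 2 := by
  have e2 := E.2.1
  have ev := h.w.ev
  have one : ∀ l : ℤ, 4 ≤ l → l ≤ k - 2 → c.B l → c.Lo l → c.nq l = 1 := fun l a b x y => by
    rcases h.w.hn l a b with u | u | u | u
    exacts [absurd u.1 (h.xab a b x), u.2.2, u.2.2, absurd y u.2.1]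
  induction l, h1 using Int.leInduction with
  | base =>
    have := one 4 le_rfl (by omega) h.w.four.1 h.w.four.2
    have := h.w.par 4 le_rfl (by omega)
    have := h.sw.gk
    exact ⟨h.w.four.1, h.w.four.2, by omega, by
      rw [show (k : ℤ) + 2 - 4 = k - 2 by ring]; omega⟩
  | succ l hl ih =>
    obtain ⟨b, -, g1, g2⟩ := ih (by omega)
    have u := (h.prof E E' (l := l + 1) (by omega) (by omega)).2.1.2 (Or.inl h2)
    have na := h.w.j3 l (l + 1) hl (by omega) (by omega) (by omega) b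
    have p1 := h.w.par (l + 1) (by omega) (by omega)
    have p2 := h.w'.par (k + 2 - (l + 1)) (by omega) (by omega)
    have i1 := h.w.iso l hl (by omega)
    have i2 := h.w'.iso (k + 2 - (l + 1)) (by omega) (by omega)
    rw [show (k : ℤ) + 2 - (l + 1) + 1 = k + 2 - l by ring] at i2
    have k1 := h.g.ka
    have k2 := h.g'.ka
    have one' : d.B (k + 2 - (l + 1)) → d.Lo (k + 2 - (l + 1)) → d.nq (k + 2 - (l + 1)) = 1 :=
      fun x y => by
      rcases h.w'.hn (k + 2 - (l + 1)) (by omega) (by omega) with u | u | u | u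
      exacts [absurd u.1 (h.sw.xab (by omega) (by omega) x), u.2.2, u.2.2, absurd y u.2.1]
    rcases u with u | u | u | u
    · have := one _ (by omega) (by omega) u.1 u.2.1
      have := h.evn E E' (by omega) h2 u
      exact ⟨u.1, u.2.1, by omega, by omega⟩
    · have t := one' u.1 u.2.1
      have g := (h.g'.pr (k + 2 - (l + 1)) (by omega) (by omega)).1 (Or.inl u.2)
      rw [sub_sub_cancel] at g
      rcases h.w.hn (l + 1) (by omega) (by omega) with v | v | v | v
      · exact absurd v.1 na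
      · exact absurd v.1 na
      · exact absurd (((h.w.has _ (by omega) (by omega)).2 (Or.inl v.2.1)).resolve_left na) g.2.1
      · omega
    · have x : c.B (l + 1) := u.1 ▸ h.w.ka.2.2.1
      have y : c.Lo (l + 1) := u.1 ▸ h.w.ka.2.2.2
      have := one _ (by omega) (by omega) x y
      have z : k + 2 - (l + 1) = d.a := by omega
      refine ⟨x, y, ?_⟩
      rcases h.w'.hn (k + 2 - (l + 1)) (by omega) (by omega) with v | v | v | v
      · exact absurd (z ▸ v.2.1) h.w'.na.1
      · exact absurd v.1 (h.sw.xab (by omega) (by omega) (z ▸ u.2))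
      · exact absurd (z ▸ v.2.1) h.w'.na.1
      · omega
    · have z : k + 2 - (l + 1) = d.κ := by omega
      have := one' (z ▸ h.w'.ka.2.2.1) (z ▸ h.w'.ka.2.2.2)
      rcases h.w.hn (l + 1) (by omega) (by omega) with v | v | v | v
      · exact absurd v.1 na
      · exact absurd v.1 na
      · exact absurd (u.1 ▸ v.2.1) h.w.na.1
      · omega

lemma quiet (h1 : 5 ≤ l) (h2 : l ≤ e) : d.nq (k + 2 - l) = 0 := by
  have e2 := E.2.1
  have ev := h.w.ev
  have g := (h.run E E' (by omega) h2).2.2.2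
  have p := h.w'.par (k + 2 - l) (by omega) (by omega)
  rcases h.w'.hn (k + 2 - l) (by omega) (by omega) with v | v | v | v
  any_goals omega
  have u := h.up_sw.2 ((h.prof E E' (l := l - 1) (by omega) (by omega)).2.1.2 (Or.inl (by omega)))
  rw [show (k : ℤ) + 2 - (l - 1) = k + 2 - l + 1 by ring] at u
  rcases h.sw.one (n := k + 2 - l) (by omega) (by omega) with t | t | t | t
  · by_cases y : k + 2 - l = d.st
    · exact absurd (Or.inr (Or.inl ⟨v.1, y⟩)) t.2.2.2
    · exact absurd (Or.inl (Or.inl ⟨v.1, v.2.1, y⟩)) t.2.2.1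
  all_goals exact absurd u t.1

lemma six : 6 ≤ e := by
  obtain ⟨q1, q2, q3, q4, q5⟩ := h.w.qq
  have := h.ak
  have p : c.PU c.q := ⟨q3, q4, h.w.hs.2.2.2.2.symm, q5⟩
  rcases (h.prof E E' (l := c.q) (by omega) (by omega)).2.1.1 (Or.inl p) with t | t
  · omega
  · exact absurd (h.sw.run E' E (l := k + 2 - c.q) (by omega) (by omega)).1
      ((h.g.pr c.q (by omega) (by omega)).1 (Or.inl p.2)).2.1

lemma ntop : ¬ d.A (k - 2) := by
  have hk := h.w.big
  have g := (h.run E E' (l := 6) (by omega) (h.six E E')).2.2.2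
  rw [show (k : ℤ) + 2 - 6 = k - 4 by ring] at g
  rcases h.w'.f5 h.sw.gk (by omega) with t | t
  exacts [h.w'.j3 _ _ (by omega) (by omega) (by omega) le_rfl t,
    h.w'.j3 _ _ (by omega) (by omega) (by omega) le_rfl t]

lemma late (h1 : k + 1 - e' < l) (h2 : l ≤ k - 2) : c.nq l = 0 := by
  rcases lt_or_eq_of_le h2 with g | g
  · have := h.sw.quiet E' E (l := k + 2 - l) (by omega) (by omega)
    rwa [sub_sub_cancel] at this
  · subst g
    have hk := h.w.big
    have := h.gk
    have := (h.w.par (k - 2) (by omega) le_rfl).2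
    have := h.w.ev
    have x := h.sw.ntop E' E
    rcases h.w.hn (k - 2) (by omega) le_rfl with v | v | v | v
    exacts [absurd v.1 x, absurd v.1 x, by omega, v.2.2]

lemma ste : e + 1 = c.st := by
  have := h.six E E'
  have := E.2.1
  rcases E.2.2.2 with t | t | t
  · exact absurd (t.2 ▸ t.1) (h.xab (by omega) (by omega) (h.run E E' (l := e) (by omega) le_rfl).1)
  · exact t.2
  · exact absurd t.1 (h.sw.ntop E' E)

lemma zone (h1 : e + 2 ≤ l) (h2 : l ≤ k - 2) :
    (c.nq l % 2 = 0 ∧ l ≠ c.κ ∧ ¬ (l = c.a ∧ c.A c.a)) ∨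
      (c.nq l = 1 ∧ l ≤ k + 1 - e' ∧ ((l = c.κ ∧ d.A d.a) ∨ (l = c.a ∧ c.A c.a))) := by
  have := h.six E E'
  have s := h.ste E E'
  have x1 : ¬ c.Lo l → l ≠ c.κ := fun t u => t (u ▸ h.w.ka.2.2.2)
  have x2 : ¬ c.A l → ¬ (l = c.a ∧ c.A c.a) := fun t u => t (u.1 ▸ u.2)
  obtain ⟨y1, y2, -⟩ := h.prof E E' (l := l) (by omega) h2
  have ha := h.w.has l (by omega) h2
  by_cases g : k + 1 - e' < l
  · have := h.late E E' g h2
    rcases h.w.hn l (by omega) h2 with v | v | v | v
    any_goals omega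
    exact Or.inl ⟨by omega, x1 v.2.1, x2 v.1⟩
  have y3 : ¬ UP k c d l := fun t => by have := y2.1 t; omega
  rcases h.w.hn l (by omega) h2 with v | v | v | v
  · exact Or.inl ⟨by omega, fun t => h.nk (t ▸ v.1), fun t => h.w.na.1 (t.1 ▸ v.2.1)⟩
  · rcases ha.1 (Or.inl v.1) with t | t | t
    · exact absurd t v.2.1
    · exact absurd (Or.inl ⟨v.1, t, by omega⟩) y1
    · exact Or.inr ⟨v.2.2, by omega, Or.inr ⟨t, t ▸ v.1⟩⟩
  · by_cases t : l = c.κ
    · refine Or.inr ⟨v.2.2, by omega, Or.inl ⟨t, ?_⟩⟩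
      exact h.sw.aa.elim And.left fun u => absurd (Or.inr (Or.inr (Or.inl ⟨t, u.2⟩))) y3
    · exact absurd (Or.inl ⟨(ha.2 (Or.inl v.2.1)).resolve_left v.1, v.2.1, by omega, t⟩) y3
  · exact Or.inl ⟨by omega, x1 v.2.1, x2 v.1⟩

/-- A low edge at `a`. -/
lemma lowa (g : c.A c.a) : e + 2 ≤ c.a ∧ e' + 2 ≤ d.κ ∧ c.κ + 4 ≤ c.a := by
  have a1 := h.ak
  have a2 := h.w.ka
  have k1 := h.g'.ka
  have s := h.ste E E'
  have s' := h.sw.ste E' E
  have x : ¬ UP k c d c.a := by
    rintro (t | t | t | t)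
    · exact h.w.na.1 t.2.1
    · exact t.2.2.2 (by omega)
    · omega
    · exact h.xab (by omega) (by omega) t.2 g
  have y := (h.prof E E' (l := c.a) (by omega) (by omega)).2.1.not.1 x
  have z : c.a ≠ c.st := fun t => h.w.hs.2.2.1.elim (t ▸ h.w.na.1) (t ▸ h.w.na.2.1)
  have := h.w'.hs.2.2.2.1
  refine ⟨by omega, by omega, ?_⟩
  by_contra t
  exact h.w.j3 c.κ c.a (by omega) (by omega) (by omega) (by omega) a2.2.2.1 g

open Classical in
lemma gam (h1 : e + 2 ≤ l) (h2 : l ≤ k - 2) : c.γ l = 1 - l % 2 - (if l = c.κ then 1 else 0) -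
    (if l = c.a ∧ c.A c.a then 1 else 0) ∧ (l = c.κ → l % 2 = 0 ∧ d.A d.a) ∧
      (l = c.a → c.A c.a → l % 2 = 0) := by
  have := h.six E E'
  have := h.sw.six E' E
  have a2 := h.w.ka
  have p := h.w.par l (by omega) h2
  rcases h.zone E E' h1 h2 with t | t
  · rw [if_neg t.2.1, if_neg t.2.2]
    exact ⟨by omega, fun u => absurd u t.2.1, fun u v => absurd ⟨u, v⟩ t.2.2⟩
  have ev : l % 2 = 0 := by
    by_contra g
    have i := h.w.iso l (by omega) (by omega)
    have p' := h.w.par (l + 1) (by omega) (by omega)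
    rcases h.zone E E' (l := l + 1) (by omega) (by omega) with u | u
    · omega
    · rcases u.2.2 with v | v
      · omega
      · have := h.lowa E E' v.2
        omega
  rcases t.2.2 with u | u
  · rw [if_pos u.1, if_neg (by omega)]
    exact ⟨by omega, fun _ => ⟨ev, u.2⟩, fun _ _ => ev⟩
  · rw [if_neg (by omega), if_pos u]
    exact ⟨by omega, fun _ => by omega, fun _ _ => ev⟩

lemma face (g : c.A c.a) (g' : d.A d.a) (x : c.a = c.κ + 4) (x' : d.a = d.κ + 4) : False := by
  have a1 := h.ak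
  have a2 := h.w.ka
  have a3 := h.sw.ak
  have a4 := h.w'.ka
  have k1 := h.g.ka
  have k2 := h.g'.ka
  have l1 := h.lowa E E' g
  have l2 := h.sw.lowa E' E g'
  rcases h.one (n := c.κ + 1) (by omega) (by omega) with t | t | t | t
  · have := (h.prof E E' (l := c.κ + 1 + 1) (by omega) (by omega)).2.1.1 t.1
    omega
  · exact (h.prof E E' (l := c.κ + 1) (by omega) (by omega)).1 t.2.1
  · rcases t.2.2.1 with (u | u) | (u | u) | u | u
    · exact h.w.j3 c.κ _ (by omega) (by omega) (by omega) (by omega) a2.2.2.1 u.1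
    · exact h.w.j3 _ c.a (by omega) (by omega) (by omega) (by omega) u.1 g
    · exact h.w'.j3 d.κ _ (by omega) (by omega) (by omega) (by omega) a4.2.2.1 u.1
    · exact h.w'.j3 _ d.a (by omega) (by omega) (by omega) (by omega) u.1 g'
    · omega
    · omega
  · have := (E.2.2.1 _ (by omega) (by omega)).1 t.2.2.2
    omega

end OP

end OC

end Pool.Agent.P.MP_3f5ded_co.UG
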