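import Pool.Agent.P.MP_3f5ded_co.UGMain

set_option autoImplicit false

namespace Pool.Agent.P.MP_3f5ded_co.UG

open Sum

/-- Three points, in one of the two cyclic orders, with gaps at most `A, B, B`. -/
def TA (r A B p q z : ℝ) : Prop :=
  ∃ (e : ℤ) (a b c : ℝ), (e = 1 ∨ e = -1) ∧ a + b + c = r ∧ a ≤ A ∧ b ≤ B ∧ c ≤ B ∧
    Cg r q (p + e * a) ∧ Cg r z (q + e * b) ∧ Cg r p (z + e * c)

lemma TA.intro {r A B p q z : ℝ} (n0 n1 n2 : ℤ) (hn : n0 + n1 + n2 = 1)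
    (h0 : q - p + n0 * r ≤ A) (h1 : z - q + n1 * r ≤ B) (h2 : p - z + n2 * r ≤ B) :
    TA r A B p q z := by
  have hn' : (n0 : ℝ) + n1 + n2 = 1 := by exact_mod_cast hn
  refine ⟨1, _, _, _, Or.inl rfl, ?_, h0, h1, h2, ⟨-n0, ?_⟩, ⟨-n1, ?_⟩, ⟨-n2, ?_⟩⟩
  · linear_combination r * hn'
  all_goals push_cast; ring

lemma le_cd_sgn {r x y u m : ℝ} {e : ℤ} (hr : 0 < r) (he : e = 1 ∨ e = -1)
    (h : Cg r y (x + e * u)) (h1 : m ≤ u) (h2 : u ≤ r - m) : m ≤ cd r x y := by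
  rcases he with rfl | rfl
  · exact le_cd_of (u := u) hr (by simpa using h) h1 h2
  · exact le_cd_of (u := r - u) hr (h.trans (Cg.down (by push_cast; ring))) (by linarith)
      (by linarith)

lemma cd_le_sgn {r x y u : ℝ} {e : ℤ} (hr : 0 < r) (he : e = 1 ∨ e = -1)
    (h : Cg r y (x + e * u)) : cd r x y ≤ |u| := by
  refine (cd_le_of hr h).trans ?_
  rcases he with rfl | rfl <;> simp

/-- The two ports on the short gap are far apart. -/
lemma TA.far {r A B p q z : ℝ} (h1 : 3 * (A + 2 * B - r) < A) (h2 : A ≤ B) (h : TA r A B p q z) :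
    0 ≤ A + 2 * B - r ∧ r - 2 * B ≤ cd r p q := by
  obtain ⟨e, a, b, c, he, h0, ha, hb, hc, h4, -, -⟩ := h
  exact ⟨by linarith, le_cd_sgn (by linarith) he h4 (by linarith) (by linarith)⟩

/-- Two blocks that share the ports on the short gap. -/
lemma TA.two {r A B p q z z' : ℝ} (h1 : 3 * (A + 2 * B - r) < A) (h2 : A ≤ B)
    (h : TA r A B p q z) (h' : TA r A B p q z') : cd r z z' ≤ A + 2 * B - r := by
  obtain ⟨e, a, b, c, he, h0, ha, hb, hc, ⟨n, hn⟩, ⟨m, hm⟩, -⟩ := h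
  obtain ⟨e', a', b', c', he', h0', ha', hb', hc', ⟨n', hn'⟩, ⟨m', hm'⟩, -⟩ := h'
  have hr : 0 < r := by linarith
  have hee : e' = e := by
    rcases he with rfl | rfl <;> rcases he' with rfl | rfl <;> try rfl
    all_goals
      exfalso
      push_cast at hn hn'
      rcases int_mul_five hr (n - n') with h | h | h | h | h <;> push_cast at h <;> linarith
  subst hee
  refine (cd_le_sgn (u := b' - b) hr he ⟨m' - m, by push_cast; linarith⟩).trans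
    (abs_le.2 ⟨by linarith, by linarith⟩)

lemma TA.ex_two {r A B z z' : ℝ} (h : cd r z z' ≤ A + 2 * B - r) :
    ∃ p q z'', Cg r z'' z' ∧ TA r A B p q z ∧ TA r A B p q z'' := by
  obtain ⟨u, hu, e⟩ := cd_lift r z z'
  obtain ⟨h1, h2⟩ := abs_le.1 (e.le.trans h)
  rcases le_total 0 u with h3 | h3
  · refine ⟨z - r + B, z - r + A + B, z + u, hu.symm, TA.intro 0 0 1 (by decide) ?_ ?_ ?_,
      TA.intro 0 0 1 (by decide) ?_ ?_ ?_⟩ <;> push_cast <;> linarith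
  · refine ⟨z - B - A, z - B, z + u, hu.symm, TA.intro 0 0 1 (by decide) ?_ ?_ ?_,
      TA.intro 0 0 1 (by decide) ?_ ?_ ?_⟩ <;> push_cast <;> linarith

/-- Signs around the square. -/
lemma sq_signs {r A B : ℝ} (h1 : 3 * (A + 2 * B - r) < A) (h2 : A + 2 * B - r < B - A)
    {e0 e1 e2 e3 : ℤ} {a0 a2 b1 b3 : ℝ} (n : ℤ) (s0 : e0 = 1 ∨ e0 = -1) (s1 : e1 = 1 ∨ e1 = -1)
    (s2 : e2 = 1 ∨ e2 = -1) (s3 : e3 = 1 ∨ e3 = -1) (l0 : r - 2 * B ≤ a0) (u0 : a0 ≤ A)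
    (l2 : r - 2 * B ≤ a2) (u2 : a2 ≤ A) (l1 : r - A - B ≤ b1) (u1 : b1 ≤ B) (l3 : r - A - B ≤ b3)
    (u3 : b3 ≤ B) (hs : e0 * a0 + e1 * b1 - e2 * a2 - e3 * b3 = n * r) :
    e2 = e0 ∧ e3 = e1 ∧ e0 * a0 + e1 * b1 - e2 * a2 - e3 * b3 = 0 := by
  have hr : 0 < r := by linarith
  rcases s0 with rfl | rfl <;> rcases s1 with rfl | rfl <;> rcases s2 with rfl | rfl <;>
    rcases s3 with rfl | rfl <;> push_cast at hs <;>
    rcases int_mul_five hr n with h | h | h | h | h <;>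
    first
      | exact ⟨rfl, rfl, by push_cast; linarith⟩
      | (exfalso; linarith)

/-- The square moves a distance by a fixed drift. -/
lemma sq_lower {r A B : ℝ} (h1 : 3 * (A + 2 * B - r) < A) (h2 : A + 2 * B - r < B - A)
    (w : Fin 8 → ℝ) (t0 : TA r A B (w 4) (w 5) (w 0)) (t1 : TA r A B (w 3) (w 6) (w 4))
    (t2 : TA r A B (w 6) (w 7) (w 1)) (t3 : TA r A B (w 2) (w 7) (w 5)) :
    cd r (w 2) (w 3) ≤ A + (A + 2 * B - r) ∧
      cd r (w 2) (w 3) ≤ cd r (w 0) (w 1) + (3 * A + 3 * B - 2 * r) ∧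
      A ≤ cd r (w 0) (w 1) + (3 * A + 3 * B - 2 * r) := by
  obtain ⟨e0, a0, b0, c0, s0, z0, ha0, hb0, hc0, ⟨na0, pa0⟩, -, ⟨nc0, pc0⟩⟩ := t0
  obtain ⟨e1, a1, b1, c1, s1, z1, ha1, hb1, hc1, -, ⟨nb1, pb1⟩, ⟨nc1, pc1⟩⟩ := t1
  obtain ⟨e2, a2, b2, c2, s2, z2, ha2, hb2, hc2, ⟨na2, pa2⟩, -, ⟨nc2, pc2⟩⟩ := t2
  obtain ⟨e3, a3, b3, c3, s3, z3, ha3, hb3, hc3, -, ⟨nb3, pb3⟩, ⟨nc3, pc3⟩⟩ := t3
  have hr : 0 < r := by linarith
  obtain ⟨rfl, rfl, g⟩ := sq_signs h1 h2 (a0 := a0) (a2 := a2) (b1 := b1) (b3 := b3)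
    (na2 + nb3 - nb1 - na0) s0 s1 s2 s3 (by linarith) ha0 (by linarith) ha2 (by linarith) hb1
    (by linarith) hb3 (by push_cast; linarith)
  have d1 : Cg r (w 1) (w 0 + ((-e3 : ℤ) : ℝ) * (b1 - e2 * e3 * (c0 - c2))) := by
    refine ⟨nc0 - nb1 - nc2, ?_⟩
    rcases s1 with rfl | rfl <;> push_cast at pc0 pb1 pc2 ⊢ <;> linarith
  have d2 : Cg r (w 2) (w 3 + e2 * (a0 + e2 * e3 * (c3 - c1))) := by
    refine ⟨na0 + nc3 - nc1, ?_⟩
    rcases s0 with rfl | rfl <;> push_cast at pc1 pa0 pc3 ⊢ <;> linarith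
  have d3 := cd_le_sgn hr s0 d2
  have d4 := fun m => le_cd_sgn (m := m) hr (by omega) d1
  rw [cd_symm hr (w 2)]
  clear d1 d2 pa0 pc0 pb1 pc1 pa2 pc2 pb3 pc3
  have d5 := d4 (a0 + e2 * e3 * (c3 - c1) - (3 * A + 3 * B - 2 * r))
  have d6 := d4 (A - (3 * A + 3 * B - 2 * r))
  clear d4
  rcases s0 with rfl | rfl <;> rcases s1 with rfl | rfl <;> push_cast at d3 d5 d6 g <;>
    rw [abs_of_nonneg (by linarith)] at d3 <;>
    exact ⟨by linarith, by linarith [d5 (by linarith) (by linarith)],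
      by linarith [d6 (by linarith) (by linarith)]⟩

/-- The drift of the square is attained. -/
lemma sq_upper {r A B v : ℝ} (h1 : A ≤ v) (h2 : v ≤ A + (A + 2 * B - r)) (c : ℝ) :
    ∃ w : Fin 8 → ℝ, w 1 = w 0 - (v - (3 * A + 3 * B - 2 * r)) ∧ w 2 = c + v ∧ w 3 = c ∧
      TA r A B (w 4) (w 5) (w 0) ∧ TA r A B (w 3) (w 6) (w 4) ∧ TA r A B (w 6) (w 7) (w 1) ∧
      TA r A B (w 2) (w 7) (w 5) := by
  refine ⟨![c + v - A - 2 * B, c + 2 * A + B - 2 * r, c + v, c, c + v - A - B, c + v - B,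
    c + A - r, c + 2 * A - r], ?_, rfl, rfl, ?_, ?_, ?_, ?_⟩
  · change c + 2 * A + B - 2 * r = c + v - A - 2 * B - _
    ring
  · change TA r A B (c + v - A - B) (c + v - B) (c + v - A - 2 * B)
    refine TA.intro 0 1 0 (by decide) ?_ ?_ ?_ <;> push_cast <;> linarith
  · change TA r A B c (c + A - r) (c + v - A - B)
    refine TA.intro 1 0 0 (by decide) ?_ ?_ ?_ <;> push_cast <;> linarith
  · change TA r A B (c + A - r) (c + 2 * A - r) (c + 2 * A + B - 2 * r)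
    refine TA.intro 0 1 0 (by decide) ?_ ?_ ?_ <;> push_cast <;> linarith
  · change TA r A B (c + v) (c + 2 * A - r) (c + v - B)
    refine TA.intro 1 0 0 (by decide) ?_ ?_ ?_ <;> push_cast <;> linarith

/-- The edges of the digon. -/
def edgD : (Fin 2 × Fin 3) ⊕ Fin 2 → Fin 4
  | inl p => ![![2, 3, 0], ![2, 3, 1]] p.1 p.2
  | inr j => ![0, 1] j

/-- The wires of the digon. -/
def wD : (Fin 2 × Fin 3) ⊕ Fin 2 → (Fin 2 × Fin 3) ⊕ Fin 2
  | inl p => ![![inl (1, 0), inl (1, 1), inr 0], ![inl (0, 0), inl (0, 1), inr 1]] p.1 p.2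
  | inr j => inl (j, 2)

/-- The edges of the square. -/
def edgS : (Fin 4 × Fin 3) ⊕ Fin 4 → Fin 8
  | inl p => ![![4, 5, 0], ![3, 6, 4], ![6, 7, 1], ![2, 7, 5]] p.1 p.2
  | inr j => ![0, 1, 2, 3] j

/-- The wires of the square. -/
def wS : (Fin 4 × Fin 3) ⊕ Fin 4 → (Fin 4 × Fin 3) ⊕ Fin 4
  | inl p => ![![inl (1, 2), inl (3, 2), inr 0], ![inr 3, inl (2, 0), inl (0, 0)],
      ![inl (1, 1), inl (3, 1), inr 1], ![inr 2, inl (2, 1), inl (0, 1)]] p.1 p.2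
  | inr j => ![inl (0, 2), inl (2, 2), inl (3, 0), inl (1, 0)] j

variable {k : ℕ} {ok : ℝ → Prop} {A B : ℝ → ℝ}

/-- The digon of two blocks is an elastic wire. -/
theorem real_dig
    (hT : Real' k ok (Fin 3) true (fun r x => TA r (A r) (B r) (x 0) (x 1) (x 2)))
    (h1 : ∀ r, ok r → 3 * (A r + 2 * B r - r) < A r) (h2 : ∀ r, ok r → A r ≤ B r) :
    ∃ R, Real' k ok (Fin 2) true R ∧
      (∀ r x, ok r → R r x → cd r (x 0) (x 1) ≤ A r + 2 * B r - r) ∧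
      ∀ r x, ok r → cd r (x 0) (x 1) ≤ A r + 2 * B r - r → R r x := by
  have hR := netU hT wD (by decide) (by decide) (by decide) edgD
    ![inr 0, inr 1, inl (0, 0), inl (0, 1)] (by decide) (by decide) (by decide)
  refine ⟨_, hR, ?_, fun r x hr h => ?_⟩
  · rintro r x hr ⟨w, a1, a2⟩
    rw [← a1, ← a1]
    exact TA.two (h1 r hr) (h2 r hr) (a2 0) (a2 1)
  · obtain ⟨p, q, z, a1, a2, a3⟩ := TA.ex_two h
    refine hR.cg hr (x := ![x 0, z]) ⟨![x 0, z, p, q], fun j => ?_, fun l => ?_⟩ fun j => ?_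
    · fin_cases j <;> rfl
    · fin_cases l
      exacts [a2, a3]
    · fin_cases j
      exacts [Cg.refl _ _, a1]

/-- The square of four blocks. -/
theorem real_sq
    (hT : Real' k ok (Fin 3) true (fun r x => TA r (A r) (B r) (x 0) (x 1) (x 2)))
    (h1 : ∀ r, ok r → 3 * (A r + 2 * B r - r) < A r)
    (h2 : ∀ r, ok r → A r + 2 * B r - r < B r - A r) :
    ∃ R, Real' k ok (Fin 4) true R ∧
      (∀ r x, ok r → R r x → cd r (x 2) (x 3) ≤ A r + (A r + 2 * B r - r) ∧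
        cd r (x 2) (x 3) ≤ cd r (x 0) (x 1) + (3 * A r + 3 * B r - 2 * r) ∧
        A r ≤ cd r (x 0) (x 1) + (3 * A r + 3 * B r - 2 * r)) ∧
      ∀ r v c, A r ≤ v → v ≤ A r + (A r + 2 * B r - r) →
        ∃ a, R r ![a, a - (v - (3 * A r + 3 * B r - 2 * r)), c + v, c] := by
  refine ⟨_, netU hT wS (by decide) (by decide) (by decide) edgS
    ![inr 0, inr 1, inr 2, inr 3, inl (0, 0), inl (0, 1), inl (1, 1), inl (2, 1)] (by decide)
    (by decide) (by decide), ?_, ?_⟩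
  · rintro r x hr ⟨w, a1, a2⟩
    rw [← a1, ← a1, ← a1, ← a1]
    exact sq_lower (h1 r hr) (h2 r hr) w (a2 0) (a2 1) (a2 2) (a2 3)
  · intro r v c a1 a2
    obtain ⟨w, b1, b2, b3, t0, t1, t2, t3⟩ := sq_upper a1 a2 c
    refine ⟨w 0, w, fun p => ?_, fun l => ?_⟩
    · fin_cases p
      exacts [rfl, b1, b2, b3]
    · fin_cases l
      exacts [t0, t1, t2, t3]

/-- A closed pole that is never colourable. -/
theorem real_never
    (hT : Real' k ok (Fin 3) true (fun r x => TA r (A r) (B r) (x 0) (x 1) (x 2)))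
    (h1 : ∀ r, ok r → 3 * (A r + 2 * B r - r) < A r) (h2 : ∀ r, ok r → A r ≤ B r) :
    ∃ R, Real' k ok (Fin 0) true R ∧ ∀ r x, ok r → ¬ R r x := by
  obtain ⟨E, hE, E1, -⟩ := real_dig hT h1 h2
  refine ⟨_, (hE.cap (netU hT wH (by decide) (by decide) (by decide) edgH
    ![inr 0, inr 1, inr 2, inr 3, inl (0, 2)] (by decide) (by decide) (by decide))).clo hE, ?_⟩
  rintro r x hr ⟨y, ⟨a, b, -, w, a1, a2⟩, a3⟩
  have e0 : w 2 = y 0 := a1 2
  have e1 : w 3 = y 1 := a1 3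
  have b1 := E1 r y hr a3
  rw [← e0, ← e1] at b1
  obtain ⟨b2, b3⟩ : _ ∧ r - 2 * B r ≤ cd r (w 2) (w 3) := TA.far (h1 r hr) (h2 r hr) (a2 1)
  linarith [h1 r hr]

end Pool.Agent.P.MP_3f5ded_co.UG
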