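import Pool.Agent.P.MP_3f5ded_co.USDefs

set_option autoImplicit false

namespace Pool.Agent.P.MP_3f5ded_co.UG

open Sum Finset

/-- Distinct rounds of one window of `k` consecutive rounds, up to one period. -/
def Ap3 (k a b : ℤ) : Prop :=
  (-k < a - b ∧ a - b < k ∧ a - b ≠ 0) ∨
    (-k < a - b - (2 * k + 1) ∧ a - b - (2 * k + 1) < k ∧ a - b - (2 * k + 1) ≠ 0) ∨
    (-k < a - b + (2 * k + 1) ∧ a - b + (2 * k + 1) < k ∧ a - b + (2 * k + 1) ≠ 0)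

theorem not_dvd_small {P d : ℤ} (h1 : -P < d) (h2 : d < P) (h0 : d ≠ 0) : ¬P ∣ d := by
  intro h
  exact h0 (Int.eq_zero_of_abs_lt_dvd h (abs_lt.2 ⟨h1, h2⟩))

theorem ap_win {k : ℕ} {a b d t : ℤ} (e : a - b = d + t * (2 * (k : ℤ) + 1)) (h1 : -(k : ℤ) < d)
    (h2 : d < k) (h0 : d ≠ 0) : Ap k a b := by
  have key : ∀ u : ℤ, (2 * (k : ℤ) + 1) ∣ a - b - u → (2 * (k : ℤ) + 1) ∣ d - u := by
    intro u h
    have : d - u = (a - b - u) - t * (2 * (k : ℤ) + 1) := by rw [e]; ring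
    rw [this]
    exact dvd_sub h (Dvd.intro_left t rfl)
  refine ⟨fun h => ?_, fun h => ?_, fun h => ?_⟩
  · exact not_dvd_small (d := d - 0) (by omega) (by omega) (by omega) (key 0 (by simpa using h))
  · exact not_dvd_small (d := d - k) (by omega) (by omega) (by omega) (key k h)
  · exact not_dvd_small (d := d - (k + 1)) (by omega) (by omega) (by omega)
      (key (k + 1) (by rwa [← sub_sub]))

theorem Ap3.ap {k : ℕ} {a b : ℤ} (h : Ap3 k a b) : Ap k a b := by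
  rcases h with h | h | h
  · exact ap_win (t := 0) (by ring) h.1 h.2.1 h.2.2
  · exact ap_win (t := 1) (by ring) h.1 h.2.1 h.2.2
  · exact ap_win (t := -1) (by ring) h.1 h.2.1 h.2.2

theorem dvd3 {P d : ℤ} (h : d = 0 ∨ d = P ∨ d = -P) : P ∣ d := by
  rcases h with h | h | h <;> rw [h]
  · exact dvd_zero _
  · exact (dvd_refl _).neg_right

/-- Leaves of stars of sizes `M, M, a`. -/
abbrev Qd (M a : ℕ) : Type := Fin M ⊕ Fin M ⊕ Fin a

/-- The star of a leaf. -/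
def srd {M a : ℕ} : Qd M a → Fin 3
  | inl _ => 0
  | inr (inl _) => 1
  | inr (inr _) => 2

theorem srd_card (M a : ℕ) (i : Fin 3) :
    (univ.filter fun q : Qd M a => srd q = i).card = ![M, M, a] i := by
  rw [card_filter, Fintype.sum_sum_type, Fintype.sum_sum_type]
  fin_cases i <;> simp [srd]

/-- Rounds at the leaves, sizes `M, M, 2`. -/
def H2 (M : ℕ) : Qd M 2 → Qd M 2 ⊕ Fin 3 → ℤ
  | inl i, inl (inl j) => 2 * M + 8 + (i : ℕ) + (j : ℕ)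
  | inl i, inl (inr (inl j)) => M + 7 + (i : ℕ) + (j : ℕ)
  | inl i, inl (inr (inr j)) => 3 * M + 8 + (i : ℕ) + (j : ℕ)
  | inl i, inr t => if t = 1 then 2 * M + 8 + 2 * (i : ℕ) else 2 * M + 7 + (i : ℕ)
  | inr (inl i), inl (inl j) => M + 7 + (i : ℕ) + (j : ℕ)
  | inr (inl i), inl (inr (inl j)) => 6 + (i : ℕ) + (j : ℕ)
  | inr (inl i), inl (inr (inr j)) => 4 + (i : ℕ) + (j : ℕ)
  | inr (inl i), inr t => if t = 0 then 6 + 2 * (i : ℕ) else M + 6 + (i : ℕ)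
  | inr (inr i), inl (inl j) => 1 - M + (i : ℕ) + (j : ℕ)
  | inr (inr i), inl (inr (inl j)) => 4 + (i : ℕ) + (j : ℕ)
  | inr (inr i), inl (inr (inr j)) => 2 + (i : ℕ) + (j : ℕ)
  | inr (inr i), inr t => if t = 0 then 2 + 2 * (i : ℕ) else 1 + (i : ℕ)

/-- Rounds of the edges between centres, sizes `M, M, 2`. -/
def W2 (M : ℕ) (j : Fin 3) : ℤ := if j = 0 then 3 * M + 7 else if j = 1 then M + 5 else 3

/-- Ports: three live ones and `M - 2` capped pairs. -/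
abbrev P2 (M : ℕ) : Type := Fin 3 ⊕ Fin (M - 2) ⊕ Fin (M - 2)

/-- Owners. -/
def ow2 {M : ℕ} : P2 M → Fin 3
  | inl i => i
  | inr (inl _) => 0
  | inr (inr _) => 1

/-- Caps. -/
def pa2 {M : ℕ} : P2 M → P2 M
  | inl i => inl i
  | inr (inl j) => inr (inr j)
  | inr (inr j) => inr (inl j)

/-- Rounds of the ports. -/
def L2 (M : ℕ) : P2 M → ℤ
  | inl i => if i = 0 then M + 3 else if i = 1 then 3 * M + 9 else 2 * M + 6
  | inr (inl j) => if 2 * (j : ℕ) + 4 ≤ M then 5 + 2 * (j : ℕ) else 9 + 2 * (j : ℕ)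
  | inr (inr j) => if 2 * (j : ℕ) + 4 ≤ M then 2 * M + 9 + 2 * (j : ℕ) else 2 * M + 13 + 2 * (j : ℕ)

theorem prt2 (M : ℕ) (h4 : 4 ≤ M) :
    Prt (2 * M + 3) ![M, M, 2] (srd : Qd M 2 → Fin 3) (ow2 : P2 M → Fin 3) inl pa2 where
  cq := by simp [Qd]; omega
  cs := fun i => by convert srd_card M 2 i
  cp := fun i => by
    rw [card_filter, Fintype.sum_sum_type, Fintype.sum_sum_type, Fin.sum_univ_three]
    fin_cases i <;> simp [ow2] <;> omega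
  olv := fun _ => rfl
  inv := by rintro (i | j | j) <;> rfl
  fix := by rintro (i | j | j) <;> simp [pa2]
  dif := by rintro (i | j | j) <;> simp [pa2, ow2]

theorem des2 (M : ℕ) (h4 : 4 ≤ M) (he : Even M) :
    Des (2 * M + 3) ![M, M, 2] (srd : Qd M 2 → Fin 3) (ow2 : P2 M → Fin 3) inl pa2 (H2 M) (W2 M)
      (L2 M) := by
  obtain ⟨n, hn⟩ := he
  refine ⟨?_, ?_, ?_, ?_, ?_, ?_, ?_, ?_, ?_, ?_, ?_⟩
  · rintro (⟨i, hi⟩ | ⟨i, hi⟩ | ⟨i, hi⟩) (⟨j, hj⟩ | ⟨j, hj⟩ | ⟨j, hj⟩) _ <;> apply dvd3 <;>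
      simp only [H2] <;> push_cast <;> omega
  · rintro (⟨i, hi⟩ | ⟨i, hi⟩ | ⟨i, hi⟩) ((⟨j, hj⟩ | ⟨j, hj⟩ | ⟨j, hj⟩) | ⟨t, ht⟩)
      ((⟨l, hl⟩ | ⟨l, hl⟩ | ⟨l, hl⟩) | ⟨u, hu⟩) h1 h2 h3 <;> apply Ap3.ap <;>
      simp only [Va, srd, ne_eq, inl.injEq, inr.injEq, Fin.ext_iff, Fin.val_zero, Fin.val_one,
        Fin.val_two, reduceCtorEq, not_false_eq_true] at h1 h2 h3 <;>
      simp only [H2, Ap3, Fin.ext_iff, Fin.val_zero, Fin.val_one] <;> push_cast <;>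
      (try split_ifs) <;> omega
  · rintro ⟨t, ht⟩ (⟨i, hi⟩ | ⟨i, hi⟩ | ⟨i, hi⟩) (⟨j, hj⟩ | ⟨j, hj⟩ | ⟨j, hj⟩) h1 h2 h3 <;>
      apply Ap3.ap <;>
      simp only [srd, ne_eq, inl.injEq, inr.injEq, Fin.ext_iff, Fin.val_zero, Fin.val_one,
        Fin.val_two, reduceCtorEq, not_false_eq_true] at h1 h2 h3 <;>
      simp only [H2, Ap3, Fin.ext_iff, Fin.val_zero, Fin.val_one] <;> push_cast <;>
      (try split_ifs) <;> omega
  · rintro ⟨t, ht⟩ (⟨i, hi⟩ | ⟨i, hi⟩ | ⟨i, hi⟩) ⟨u, hu⟩ h1 h2 <;> apply Ap3.ap <;>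
      simp only [srd, ne_eq, Fin.ext_iff, Fin.val_zero, Fin.val_one, Fin.val_two] at h1 h2 <;>
      simp only [H2, W2, Ap3, Fin.ext_iff, Fin.val_zero, Fin.val_one] <;> push_cast <;>
      (try split_ifs) <;> omega
  · rintro ⟨t, ht⟩ ⟨u, hu⟩ h1
    apply Ap3.ap
    simp only [ne_eq, Fin.ext_iff] at h1
    simp only [W2, Ap3, Fin.ext_iff, Fin.val_zero, Fin.val_one]
    push_cast
    split_ifs <;> omega
  · rintro (⟨t, ht⟩ | ⟨j, hj⟩ | ⟨j, hj⟩) (⟨i, hi⟩ | ⟨i, hi⟩ | ⟨i, hi⟩) h1 <;> apply Ap3.ap <;>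
      simp only [srd, ow2, ne_eq, Fin.ext_iff, Fin.val_zero, Fin.val_one, Fin.val_two,
        not_true_eq_false] at h1 <;>
      simp only [H2, L2, ow2, Ap3, Fin.ext_iff, Fin.val_zero, Fin.val_one, ↓reduceIte] <;> push_cast <;>
      (try split_ifs) <;> omega
  · rintro (⟨t, ht⟩ | ⟨j, hj⟩ | ⟨j, hj⟩) ⟨u, hu⟩ h1 <;> apply Ap3.ap <;>
      simp only [ow2, ne_eq, Fin.ext_iff, Fin.val_zero, Fin.val_one] at h1 <;>
      simp only [W2, L2, Ap3, Fin.ext_iff, Fin.val_zero, Fin.val_one] <;> push_cast <;>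
      (try split_ifs) <;> omega
  · rintro (⟨t, ht⟩ | ⟨j, hj⟩ | ⟨j, hj⟩) (⟨u, hu⟩ | ⟨l, hl⟩ | ⟨l, hl⟩) h1 h2 <;> apply Ap3.ap <;>
      simp only [ow2, ne_eq, inl.injEq, inr.injEq, Fin.ext_iff, Fin.val_zero, Fin.val_one,
        reduceCtorEq, not_false_eq_true] at h1 h2 <;>
      simp only [L2, Ap3, Fin.ext_iff, Fin.val_zero, Fin.val_one] <;> push_cast <;>
      (try split_ifs) <;> omega
  · rintro (t | ⟨j, hj⟩ | ⟨j, hj⟩) h1
    · exact absurd rfl h1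
    · left
      apply dvd3
      simp only [L2, pa2]
      push_cast
      split_ifs <;> omega
    · right
      apply dvd3
      simp only [L2, pa2]
      push_cast
      split_ifs <;> omega
  · apply dvd3
    simp [L2]
    omega
  · apply dvd3
    simp [L2]
    omega

/-- A design of sizes `M, M, 2`. -/
theorem exists_des2 (M : ℕ) (h4 : 4 ≤ M) (he : Even M) :
    ∃ (Q Pt : Type) (_ : Fintype Q) (_ : Fintype Pt) (sr : Q → Fin 3) (ow : Pt → Fin 3)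
      (lv : Fin 3 → Pt) (pa : Pt → Pt) (H : Q → Q ⊕ Fin 3 → ℤ) (W : Fin 3 → ℤ) (L : Pt → ℤ),
      Prt (2 * M + 3) ![M, M, 2] sr ow lv pa ∧ Des (2 * M + 3) ![M, M, 2] sr ow lv pa H W L :=
  ⟨_, _, _, _, _, _, _, _, _, _, _, prt2 M h4, des2 M h4 he⟩

end Pool.Agent.P.MP_3f5ded_co.UG
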