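import Pool.Agent.P.MP_3f5ded_co.USD2

set_option autoImplicit false

namespace Pool.Agent.P.MP_3f5ded_co.UG

open Sum Finset

/-- The swap of the rounds `M - 3` and `M - 2`. -/
def sw (M r : ℕ) : ℤ := if r + 3 = M then r + 1 else if r + 2 = M then r - 1 else r

/-- Rounds at the leaves, sizes `M, M, 4`. -/
def HD4 (M : ℕ) : Qd M 4 → Qd M 4 ⊕ Fin 3 → ℤ
  | inl i, inl (inl j) => 2 * M + 12 + (i : ℕ) + (j : ℕ)
  | inl i, inl (inr (inl j)) => M + 11 + (i : ℕ) + (j : ℕ)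
  | inl i, inl (inr (inr j)) => 3 * M + 12 + (i : ℕ) + (j : ℕ)
  | inl i, inr t => if t = 1 then 2 * M + 12 + 2 * (i : ℕ) else 2 * M + 11 + (i : ℕ)
  | inr (inl i), inl (inl j) => M + 11 + (i : ℕ) + (j : ℕ)
  | inr (inl i), inl (inr (inl j)) =>
      if (i : ℕ) + 2 < M ∧ (j : ℕ) + 2 < M then 10 + sw M (i + j) else 11 + (i : ℕ) + (j : ℕ)
  | inr (inl i), inl (inr (inr j)) => 6 + (i : ℕ) + (j : ℕ)
  | inr (inl i), inr t =>
      if t = 0 then (if (i : ℕ) + 2 < M then 10 + sw M (2 * i) else 10 + (i : ℕ))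
      else if (i : ℕ) = 0 then M + 7 else if (i : ℕ) + 2 < M then M + 8 + (i : ℕ)
      else 11 + 2 * (i : ℕ)
  | inr (inr i), inl (inl j) => 1 - M + (i : ℕ) + (j : ℕ)
  | inr (inr i), inl (inr (inl j)) => 6 + (i : ℕ) + (j : ℕ)
  | inr (inr i), inl (inr (inr j)) => 2 + (i : ℕ) + (j : ℕ)
  | inr (inr i), inr t => if t = 0 then 2 + 2 * (i : ℕ) else 1 + (i : ℕ)

/-- Rounds of the edges between centres, sizes `M, M, 4`. -/
def W4 (M : ℕ) (j : Fin 3) : ℤ := if j = 0 then 3 * M + 11 else if j = 1 then 2 * M + 6 else 5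

/-- Ports: three live ones, `M - 3` caps between the large centres, two caps at the small one. -/
abbrev P4 (M : ℕ) : Type := Fin 3 ⊕ Fin (M - 3) ⊕ Fin (M - 3) ⊕ Fin 2 ⊕ Fin 2

/-- Owners. -/
def ow4 {M : ℕ} : P4 M → Fin 3
  | inl i => i
  | inr (inl _) => 0
  | inr (inr (inl _)) => 1
  | inr (inr (inr (inl j))) => if j = 0 then 0 else 1
  | inr (inr (inr (inr _))) => 2

/-- Caps. -/
def pa4 {M : ℕ} : P4 M → P4 M
  | inl i => inl i
  | inr (inl j) => inr (inr (inl j))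
  | inr (inr (inl j)) => inr (inl j)
  | inr (inr (inr (inl j))) => inr (inr (inr (inr j)))
  | inr (inr (inr (inr j))) => inr (inr (inr (inl j)))

/-- Rounds of the ports. -/
def L4 (M : ℕ) : P4 M → ℤ
  | inl i => if i = 0 then M + 5 else if i = 1 then 3 * M + 15 else 2 * M + 10
  | inr (inl j) => if 2 * (j : ℕ) + 4 ≤ M then 7 + 2 * (j : ℕ) else 13 + 2 * (j : ℕ)
  | inr (inr (inl j)) =>
      if 2 * (j : ℕ) + 4 ≤ M then 2 * M + 13 + 2 * (j : ℕ) else 2 * M + 19 + 2 * (j : ℕ)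
  | inr (inr (inr (inl j))) => if j = 0 then 3 else 3 * M + 13
  | inr (inr (inr (inr j))) => if j = 0 then 2 * M + 8 else M + 8

theorem prt4 (M : ℕ) (h4 : 4 ≤ M) :
    Prt (2 * M + 5) ![M, M, 4] (srd : Qd M 4 → Fin 3) (ow4 : P4 M → Fin 3) inl pa4 where
  cq := by simp [Qd]; omega
  cs := fun i => by convert srd_card M 4 i
  cp := fun i => by
    rw [card_filter, Fintype.sum_sum_type, Fintype.sum_sum_type, Fintype.sum_sum_type,
      Fintype.sum_sum_type, Fin.sum_univ_three, Fin.sum_univ_two]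
    fin_cases i <;> simp [ow4] <;> omega
  olv := fun _ => rfl
  inv := by rintro (i | j | j | j | j) <;> rfl
  fix := by rintro (i | j | j | j | j) <;> simp [pa4]
  dif := by
    rintro (i | j | j | j | j) <;> simp only [pa4, ow4] <;> intro h
    · exact absurd rfl h
    · decide
    · decide
    · split_ifs <;> decide
    · split_ifs <;> decide

theorem far4 (M : ℕ) (h4 : 4 ≤ M) (he : Even M) (q : Qd M 4) (e e' : Qd M 4 ⊕ Fin 3)
    (h1 : Va srd q e) (h2 : Va srd q e') (h3 : e ≠ e') :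
    Ap (2 * M + 5) (HD4 M q e) (HD4 M q e') := by
  obtain ⟨n, hn⟩ := he
  apply Ap3.ap
  rcases q with ⟨i, hi⟩ | ⟨i, hi⟩ | ⟨i, hi⟩ <;>
    rcases e with (⟨j, hj⟩ | ⟨j, hj⟩ | ⟨j, hj⟩) | ⟨t, ht⟩ <;>
    rcases e' with (⟨l, hl⟩ | ⟨l, hl⟩ | ⟨l, hl⟩) | ⟨u, hu⟩ <;>
    simp only [Va, srd, ne_eq, inl.injEq, inr.injEq, Fin.ext_iff, Fin.val_zero, Fin.val_one,
      Fin.val_two, reduceCtorEq, not_false_eq_true] at h1 h2 h3 <;>
    simp only [HD4, sw, Ap3, Fin.ext_iff, Fin.val_zero, Fin.val_one] <;> push_cast <;>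
    (try split_ifs) <;> omega

theorem des4 (M : ℕ) (h4 : 4 ≤ M) (he : Even M) :
    Des (2 * M + 5) ![M, M, 4] (srd : Qd M 4 → Fin 3) (ow4 : P4 M → Fin 3) inl pa4 (HD4 M) (W4 M)
      (L4 M) := by
  refine ⟨?_, far4 M h4 he, ?_, ?_, ?_, ?_, ?_, ?_, ?_, ?_, ?_⟩ <;> obtain ⟨n, hn⟩ := he
  · rintro (⟨i, hi⟩ | ⟨i, hi⟩ | ⟨i, hi⟩) (⟨j, hj⟩ | ⟨j, hj⟩ | ⟨j, hj⟩) _ <;> apply dvd3 <;>
      simp only [HD4, sw] <;> push_cast <;> (try split_ifs) <;> omega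
  · rintro ⟨t, ht⟩ (⟨i, hi⟩ | ⟨i, hi⟩ | ⟨i, hi⟩) (⟨j, hj⟩ | ⟨j, hj⟩ | ⟨j, hj⟩) h1 h2 h3 <;>
      apply Ap3.ap <;>
      simp only [srd, ne_eq, inl.injEq, inr.injEq, Fin.ext_iff, Fin.val_zero, Fin.val_one,
        Fin.val_two, reduceCtorEq, not_false_eq_true] at h1 h2 h3 <;>
      simp only [HD4, sw, Ap3, Fin.ext_iff, Fin.val_zero, Fin.val_one] <;> push_cast <;>
      (try split_ifs) <;> omega
  · rintro ⟨t, ht⟩ (⟨i, hi⟩ | ⟨i, hi⟩ | ⟨i, hi⟩) ⟨u, hu⟩ h1 h2 <;> apply Ap3.ap <;>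
      simp only [srd, ne_eq, Fin.ext_iff, Fin.val_zero, Fin.val_one, Fin.val_two] at h1 h2 <;>
      simp only [HD4, sw, W4, Ap3, Fin.ext_iff, Fin.val_zero, Fin.val_one] <;> push_cast <;>
      (try split_ifs) <;> omega
  · rintro ⟨t, ht⟩ ⟨u, hu⟩ h1
    apply Ap3.ap
    simp only [ne_eq, Fin.ext_iff] at h1
    simp only [W4, Ap3, Fin.ext_iff, Fin.val_zero, Fin.val_one]
    push_cast
    split_ifs <;> omega
  · rintro (⟨t, ht⟩ | ⟨j, hj⟩ | ⟨j, hj⟩ | j | ⟨j, hj⟩) (⟨i, hi⟩ | ⟨i, hi⟩ | ⟨i, hi⟩) h1 <;>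
      (try fin_cases j) <;> apply Ap3.ap <;>
      simp only [srd, ow4, ne_eq, Fin.ext_iff, Fin.val_zero, Fin.val_one, Fin.val_two,
        not_true_eq_false, ↓reduceIte, one_ne_zero] at h1 <;>
      simp only [HD4, sw, L4, ow4, Ap3, Fin.ext_iff, Fin.val_zero, Fin.val_one, Fin.val_two,
        ↓reduceIte, one_ne_zero] <;>
      push_cast <;> (try split_ifs) <;> omega
  · rintro (⟨t, ht⟩ | ⟨j, hj⟩ | ⟨j, hj⟩ | j | ⟨j, hj⟩) ⟨u, hu⟩ h1 <;> (try fin_cases j) <;>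
      apply Ap3.ap <;>
      simp only [ow4, ne_eq, Fin.ext_iff, Fin.val_zero, Fin.val_one, Fin.val_two, ↓reduceIte,
        one_ne_zero] at h1 <;>
      simp only [W4, L4, Ap3, Fin.ext_iff, Fin.val_zero, Fin.val_one, ↓reduceIte, one_ne_zero] <;>
      push_cast <;> (try split_ifs) <;> omega
  · rintro (⟨t, ht⟩ | ⟨j, hj⟩ | ⟨j, hj⟩ | j | ⟨j, hj⟩)
      (⟨u, hu⟩ | ⟨l, hl⟩ | ⟨l, hl⟩ | l | ⟨l, hl⟩) h1 h2 <;> (try fin_cases j) <;>
      (try fin_cases l) <;> apply Ap3.ap <;>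
      simp only [ow4, ne_eq, inl.injEq, inr.injEq, Fin.ext_iff, Fin.val_zero, Fin.val_one,
        Fin.val_two, reduceCtorEq, not_false_eq_true, not_true_eq_false, ↓reduceIte,
        one_ne_zero] at h1 h2 <;>
      simp only [L4, Ap3, Fin.ext_iff, Fin.val_zero, Fin.val_one, ↓reduceIte, one_ne_zero] <;>
      push_cast <;> (try split_ifs) <;> omega
  · rintro (t | ⟨j, hj⟩ | ⟨j, hj⟩ | j | j) h1
    · exact absurd rfl h1
    · left
      apply dvd3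
      simp only [L4, pa4]
      push_cast
      split_ifs <;> omega
    · right
      apply dvd3
      simp only [L4, pa4]
      push_cast
      split_ifs <;> omega
    · simp only [L4, pa4]
      push_cast
      split_ifs
      · right
        apply dvd3
        omega
      · left
        apply dvd3
        omega
    · simp only [L4, pa4]
      push_cast
      split_ifs
      · left
        apply dvd3
        omega
      · right
        apply dvd3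
        omega
  · apply dvd3
    simp [L4]
    omega
  · apply dvd3
    simp [L4]
    omega

/-- A design of sizes `M, M, 4`. -/
theorem exists_des4 (M : ℕ) (h4 : 4 ≤ M) (he : Even M) :
    ∃ (Q Pt : Type) (_ : Fintype Q) (_ : Fintype Pt) (sr : Q → Fin 3) (ow : Pt → Fin 3)
      (lv : Fin 3 → Pt) (pa : Pt → Pt) (H : Q → Q ⊕ Fin 3 → ℤ) (W : Fin 3 → ℤ) (L : Pt → ℤ),
      Prt (2 * M + 5) ![M, M, 4] sr ow lv pa ∧ Des (2 * M + 5) ![M, M, 4] sr ow lv pa H W L :=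
  ⟨_, _, _, _, _, _, _, _, _, _, _, prt4 M h4, des4 M h4 he⟩

end Pool.Agent.P.MP_3f5ded_co.UG
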