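import Pool.Agent.P.MP_3f5ded_co.USUnit

set_option autoImplicit false

namespace Pool.Agent.P.MP_3f5ded_co.UG

/-- The index of the item of `z` in the unit `n`. -/
def Tk.idx {k : ℤ} {r : ℝ} (t : Tk k r) (F : Fin 3 → ℤ → ℤ) (z : Fin 3) (n : ℤ) : ℤ :=
  n - F z (t.sg n)

/-- The unit `n` lies between two cells of one segment. -/
def Tk.Co {k : ℤ} {r : ℝ} (t : Tk k r) (n : ℤ) : Prop := n + 1 < t.N (t.sg n + 1)

lemma Tk.Co.sg {k : ℤ} {r : ℝ} {t : Tk k r} {n : ℤ} (h : t.Co n) : t.sg (n + 1) = t.sg n := by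
  have := t.sg_succ n
  unfold Tk.Co at h
  omega

lemma Tk.Co.tb {k : ℤ} {r : ℝ} {t : Tk k r} {n : ℤ} (h : t.Co n) : t.tb (n + 1) = t.tb n + 2 := by
  unfold Tk.tb
  rw [h.sg]; ring

lemma Tk.sig_lt {k : ℤ} {r : ℝ} (t : Tk k r) {c d : ℤ} (h : t.sig c < t.sig d) : c < d := by
  by_contra g
  have := t.Nmono (show d ≤ c by omega)
  unfold Tk.sig at h
  omega

namespace Units
variable {k : ℤ} {r : ℝ} {t : Tk k r} {ζ : ℤ → ℤ} {zc : ℤ → Fin 3} {F : Fin 3 → ℤ → ℤ}

lemma F_mono (h : Units t zc F) (z : Fin 3) {c d : ℤ} (g : c ≤ d) :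
    F z c ≤ F z d ∧ F z d ≤ F z c + (d - c) := by
  induction d, g using Int.leInduction with
  | base => simp
  | succ n _ ih =>
    have := h.Fs z n
    split_ifs at this <;> omega

lemma ne2 (h : Units t zc F) (c : ℤ) : zc c ≠ zc (c + 2) := fun e => h.ne (c + 2) (by
  rw [show c + 2 + 1 = c + 3 by ring, h.per]; exact e.symm)

lemma cases (h : Units t zc F) (z : Fin 3) (c : ℤ) : z = zc c ∨ z = zc (c + 1) ∨ z = zc (c + 2) := by
  have a := h.ne c
  have b := h.ne (c + 1)
  have d := h.ne2 c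
  rw [show c + 1 + 1 = c + 2 by ring] at b
  omega

lemma F_per (h : Units t zc F) (z : Fin 3) (c : ℤ) : F z (c + 3) = F z c + 2 := by
  have a := h.Fs z c
  have b := h.Fs z (c + 1)
  have d := h.Fs z (c + 2)
  have e := h.cases z (c + 1)
  have n1 := h.ne (c + 1)
  have n2 := h.ne (c + 2)
  have n3 := h.ne2 (c + 1)
  rw [show c + 1 + 1 = c + 2 by ring] at b e n1
  rw [show c + 2 + 1 = c + 3 by ring] at d n2
  rw [show c + 1 + 2 = c + 3 by ring] at e n3
  split_ifs at a b d <;> omega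

lemma idx_per (h : Units t zc F) (z : Fin 3) (n : ℤ) :
    t.idx F z (n + (k + 2)) = t.idx F z n + k := by
  unfold Tk.idx
  rw [t.sg_per, h.F_per]; ring

lemma idx_succ (h : Units t zc F) (z : Fin 3) (n : ℤ) :
    (Alw t zc z n ∧ t.idx F z (n + 1) = t.idx F z n + 1) ∨
    (¬Alw t zc z n ∧ t.idx F z (n + 1) = t.idx F z n ∧ n + 1 = t.N (t.sg n + 1) ∧
      z ≠ zc (t.sg n + 1)) := by
  unfold Tk.idx Alw
  have a := h.Fs z (t.sg n)
  rcases t.sg_succ n with ⟨e, g⟩ | ⟨e, g⟩
  · rw [e]; exact Or.inl ⟨Or.inl g, by ring⟩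
  · rw [e, a]
    by_cases s : z = zc (t.sg n + 1)
    · rw [if_pos s]; exact Or.inl ⟨Or.inr s, by ring⟩
    · rw [if_neg s]; exact Or.inr ⟨fun x => x.elim (by omega) s, by ring, g, s⟩

lemma idx_mono (h : Units t zc F) (z : Fin 3) {n n' : ℤ} (g : n ≤ n') :
    t.idx F z n ≤ t.idx F z n' := by
  induction n', g using Int.leInduction with
  | base => simp
  | succ m _ ih =>
    have := h.idx_succ z m
    omega

lemma idx_lt (h : Units t zc F) {z : Fin 3} {n n' : ℤ} (a : Alw t zc z n) (g : n < n') :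
    t.idx F z n < t.idx F z n' := by
  have := h.idx_mono z (show n + 1 ≤ n' by omega)
  rcases h.idx_succ z n with ⟨-, e⟩ | ⟨e, -⟩
  · omega
  · exact absurd a e

lemma idx_inj (h : Units t zc F) {z : Fin 3} {n n' : ℤ} (a : Alw t zc z n) (a' : Alw t zc z n')
    (e : t.idx F z n = t.idx F z n') : n = n' := by
  rcases lt_trichotomy n n' with g | g | g
  · have := h.idx_lt a g; omega
  · exact g
  · have := h.idx_lt a' g; omega

lemma idx_run (h : Units t zc F) {z : Fin 3} {n n' : ℤ} (g : n ≤ n')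
    (a : ∀ x, n ≤ x → x < n' → Alw t zc z x) : t.idx F z n' = t.idx F z n + (n' - n) := by
  induction n', g using Int.leInduction with
  | base => simp
  | succ m hm ih =>
    have := ih fun x x0 x1 => a x x0 (by omega)
    rcases h.idx_succ z m with ⟨-, e⟩ | ⟨e, -⟩
    · omega
    · exact absurd (a m hm (by omega)) e

lemma surj (h : Units t zc F) (z : Fin 3) (i : ℤ) : ∃ n, Alw t zc z n ∧ t.idx F z n = i := by
  have n0 := t.N0
  have hb : ∃ b : ℤ, ∀ n : ℤ, t.idx F z n ≤ i → n ≤ b := by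
    refine ⟨max 0 (2 * (i + F z 0)), fun n hn => ?_⟩
    by_contra g
    have s := t.sgs n
    have c0 : 0 ≤ t.sg n := by
      have := t.sg_mono (show t.N 0 ≤ n by omega)
      rwa [(t.sg_N 0).1] at this
    have := t.Nmono c0
    have := h.F_mono z c0
    unfold Tk.idx at hn
    omega
  have he : ∃ n : ℤ, t.idx F z n ≤ i := by
    refine ⟨min (-1) (2 * (i + F z 0 - 1)), ?_⟩
    set n := min (-1) (2 * (i + F z 0 - 1)) with hn
    have s := t.sgs n
    have c0 : t.sg n + 1 ≤ 0 := by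
      have := t.sg_mono (show n ≤ t.N 0 - 1 by omega)
      rw [(t.sg_N 0).2] at this
      omega
    have := t.Nmono c0
    have := h.F_mono z (show t.sg n ≤ 0 by omega)
    unfold Tk.idx
    omega
  obtain ⟨n, h1, h2⟩ := Int.exists_greatest_of_bdd hb he
  have h3 : ¬t.idx F z (n + 1) ≤ i := fun g => by have := h2 _ g; omega
  rcases h.idx_succ z n with ⟨a, e⟩ | ⟨-, e, -⟩
  · exact ⟨n, a, by omega⟩
  · omega

/-- The unit of a leaf item. -/
lemma qunit (h : Units t zc F) (hH : Host t ζ) {z : Fin 3} {i : ℤ} (q : t.Q z i) :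
    ∃ n, t.Co n ∧ t.idx F z n = i ∧ t.ch z i = 2 * n ∧
      (t.tau z i = t.tb n + 1 ∨ t.tau z i = t.tb n + 2) := by
  obtain ⟨n, e | ⟨e, g⟩⟩ := t.cell (t.tau z i)
  · have s := t.sgs n
    have o := hH.off q (t.sg n)
    have e' := e
    unfold Tk.tb at e'
    have g : t.N (t.sg n) < n := by unfold Tk.sig at o; omega
    have s1 : t.sg (n - 1) = t.sg n := t.sg_eq (by omega) (by omega)
    have := t.ch_be q e g
    have := h.qb z i n q e
    refine ⟨n - 1, by unfold Tk.Co; rw [s1]; omega, by unfold Tk.idx; rw [s1]; omega, by omega,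
      Or.inr ?_⟩
    unfold Tk.tb
    rw [s1]; omega
  · have := h.qa z i n q e
    exact ⟨n, g, by unfold Tk.idx; omega, t.ch_al q e g, Or.inl e⟩

lemma qidx (h : Units t zc F) (hH : Host t ζ) {z : Fin 3} {n : ℤ} (a : Alw t zc z n)
    (q : t.Q z (t.idx F z n)) : t.Co n ∧ t.ch z (t.idx F z n) = 2 * n ∧
      (t.tau z (t.idx F z n) = t.tb n + 1 ∨ t.tau z (t.idx F z n) = t.tb n + 2) := by
  obtain ⟨m, c, e, g⟩ := h.qunit hH q
  obtain rfl := h.idx_inj (Or.inl c) a e
  exact ⟨c, g⟩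

lemma occ_al (h : Units t zc F) {z : Fin 3} {n : ℤ} (o : t.occ z (t.tb n + 1)) :
    t.Q z (t.idx F z n) ∧ t.tau z (t.idx F z n) = t.tb n + 1 := by
  obtain ⟨i, q, e⟩ := o
  obtain rfl : i = t.idx F z n := h.qa z i n q e
  exact ⟨q, e⟩

lemma occ_be (h : Units t zc F) {z : Fin 3} {n : ℤ} (c : t.Co n) (o : t.occ z (t.tb n + 2)) :
    t.Q z (t.idx F z n) ∧ t.tau z (t.idx F z n) = t.tb n + 2 := by
  obtain ⟨i, q, e⟩ := o
  have := h.qb z i (n + 1) q (by rw [c.tb]; exact e)
  rw [c.sg] at this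
  obtain rfl : i = t.idx F z n := by unfold Tk.idx; omega
  exact ⟨q, e⟩

/-- The last leaf item before a given item. -/
lemma prev (h : Units t zc F) (hH : Host t ζ) {z : Fin 3} {n : ℤ} (a : Alw t zc z n) :
    ∃ i m, t.Q z i ∧ t.Co m ∧ t.idx F z m = i ∧ t.ch z i = 2 * m ∧ i ≤ t.idx F z n ∧
      t.idx F z n - t.hh ≤ i ∧ t.tau z i ≤ t.tb m + 2 ∧ (∀ j, t.Q z j → j ≤ t.idx F z n → j ≤ i) ∧
      (n - m = t.idx F z n - i ∨
        (n - m = t.idx F z n - i + 1 ∧ t.wu z i = -1 ∧ m + 1 < n)) := by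
  obtain ⟨i0, q0, l0, u0⟩ := t.gl z (t.idx F z n)
  obtain ⟨i, ⟨q, u⟩, mx⟩ := Int.exists_greatest_of_bdd
    (P := fun j => t.Q z j ∧ j ≤ t.idx F z n) ⟨_, fun j hj => hj.2⟩ ⟨i0, q0, u0⟩
  obtain ⟨m, c, e, g, g'⟩ := h.qunit hH q
  have l := mx i0 ⟨q0, u0⟩
  have mn : m ≤ n := by
    by_contra s
    have := h.idx_lt a (show n < m by omega)
    omega
  have key : ∀ x, m < x → x < n → ¬Alw t zc z x → x = m + 1 ∧ t.wu z i = -1 := by
    intro x x0 x1 na
    obtain ⟨-, -, e1, e2⟩ := (h.idx_succ z x).resolve_left fun s => na s.1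
    obtain ⟨b1, b2⟩ := t.tb_N (t.sg x + 1)
    have mp := t.Mpos (t.sg x)
    have ns := t.Ns (t.sg x)
    have s1 : t.sg (x - 1) = t.sg x := t.sg_eq (by omega) (by omega)
    have c1 : t.Co (x - 1) := by unfold Tk.Co; rw [s1]; omega
    rcases h.mark _ z e2 with o | o
    · have tb1 := c1.tb
      rw [sub_add_cancel] at tb1
      rw [← b2, ← e1, add_sub_cancel_right, tb1] at o
      obtain ⟨q1, t1⟩ := h.occ_be c1 o
      have := mx _ ⟨q1, h.idx_mono z (by omega)⟩
      have := h.idx_mono z (show m ≤ x - 1 by omega)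
      have e3 : t.idx F z (x - 1) = i := by omega
      have := h.idx_inj (Or.inl c1) (Or.inl c) (e3.trans e.symm)
      rw [e3] at t1
      rw [← e1, add_sub_cancel_right] at b2
      have mq := t.Mpos (t.sg x + 1 + 1)
      have := (t.near_neg (c := t.sg x + 1) (x := 1) q (by omega) (by omega) (by omega)
        (by rw [add_sub_cancel_right]; omega) (by omega)).2
      omega
    · rw [← b1, ← e1] at o
      have := mx _ ⟨(h.occ_al o).1, h.idx_mono z (by omega)⟩
      have := h.idx_lt (z := z) (Or.inl c) (show m < x + 1 by omega)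
      omega
  refine ⟨i, m, q, c, e, g, u, by omega, by omega, fun j a b => mx j ⟨a, b⟩, ?_⟩
  by_cases s : m + 1 < n ∧ ¬Alw t zc z (m + 1)
  · have a1 := h.idx_succ z m
    have a2 := (h.idx_succ z (m + 1)).resolve_left fun x => s.2 x.1
    have a3 := h.idx_run (z := z) (show m + 1 + 1 ≤ n by omega) fun x x0 x1 => by
      by_contra na
      have := (key x (by omega) x1 na).1
      omega
    have a4 : Alw t zc z m := Or.inl c
    have := (key (m + 1) (by omega) s.1 s.2).2
    rcases a1 with ⟨-, a1⟩ | ⟨a1, -⟩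
    · exact Or.inr ⟨by omega, this, s.1⟩
    · exact absurd a4 a1
  · have := h.idx_run (z := z) mn fun x x0 x1 => by
      rcases eq_or_lt_of_le x0 with rfl | x2
      · exact Or.inl c
      · by_contra na
        obtain rfl := (key x x2 x1 na).1
        exact s ⟨x1, na⟩
    exact Or.inl (by omega)

/-- The first leaf item after a given item. -/
lemma next (h : Units t zc F) (hH : Host t ζ) {z : Fin 3} {n : ℤ} (a : Alw t zc z n) :
    ∃ i m, t.Q z i ∧ t.Co m ∧ t.idx F z m = i ∧ t.ch z i = 2 * m ∧ t.idx F z n ≤ i ∧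
      i ≤ t.idx F z n + t.hh ∧ t.tb m + 1 ≤ t.tau z i ∧ (∀ j, t.Q z j → t.idx F z n ≤ j → i ≤ j) ∧
      (m - n = i - t.idx F z n ∨
        (m - n = i - t.idx F z n + 1 ∧ t.wu z i = 1 ∧ n + 1 < m)) := by
  obtain ⟨i0, q0, l0, u0⟩ := t.gr z (t.idx F z n)
  obtain ⟨i, ⟨q, u⟩, mx⟩ := Int.exists_least_of_bdd
    (P := fun j => t.Q z j ∧ t.idx F z n ≤ j) ⟨_, fun j hj => hj.2⟩ ⟨i0, q0, l0⟩
  obtain ⟨m, c, e, g, g'⟩ := h.qunit hH q
  have l := mx i0 ⟨q0, l0⟩
  have mn : n ≤ m := by
    by_contra s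
    have := h.idx_lt (z := z) (Or.inl c) (show m < n by omega)
    omega
  have key : ∀ x, n < x → x < m → ¬Alw t zc z x → x + 1 = m ∧ t.wu z i = 1 := by
    intro x x0 x1 na
    obtain ⟨-, -, e1, e2⟩ := (h.idx_succ z x).resolve_left fun s => na s.1
    obtain ⟨b1, b2⟩ := t.tb_N (t.sg x + 1)
    have mp := t.Mpos (t.sg x)
    have ns := t.Ns (t.sg x)
    have s1 : t.sg (x - 1) = t.sg x := t.sg_eq (by omega) (by omega)
    have c1 : t.Co (x - 1) := by unfold Tk.Co; rw [s1]; omega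
    rcases h.mark _ z e2 with o | o
    · have tb1 := c1.tb
      rw [sub_add_cancel] at tb1
      rw [← b2, ← e1, add_sub_cancel_right, tb1] at o
      have := mx _ ⟨(h.occ_be c1 o).1, h.idx_mono z (by omega)⟩
      have := h.idx_lt (z := z) (Or.inl c1) (show x - 1 < m by omega)
      omega
    · rw [← b1, ← e1] at o
      obtain ⟨q1, t1⟩ := h.occ_al o
      have := mx _ ⟨q1, h.idx_mono z (by omega)⟩
      have := h.idx_mono z (show x + 1 ≤ m by omega)
      have e3 : t.idx F z (x + 1) = i := by omega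
      have mq := t.Mpos (t.sg x + 1)
      have mq' := t.Mpos (t.sg x + 1 + 1)
      have ns' := t.Ns (t.sg x + 1)
      have s2 : t.sg (x + 1) = t.sg x + 1 := t.sg_eq (by omega) (by omega)
      have c2 : t.Co (x + 1) := by unfold Tk.Co; rw [s2]; omega
      have := h.idx_inj (Or.inl c2) (Or.inl c) (e3.trans e.symm)
      rw [e3] at t1
      rw [← e1] at b1
      have := (t.near_pos (c := t.sg x + 1) (x := 1) q (by omega) (by omega) (by omega)
        (by omega) (by omega)).2
      omega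
  refine ⟨i, m, q, c, e, g, u, by omega, by omega, fun j a b => mx j ⟨a, b⟩, ?_⟩
  by_cases s : n + 1 < m ∧ ¬Alw t zc z (m - 1)
  · have a2 := (h.idx_succ z (m - 1)).resolve_left fun x => s.2 x.1
    rw [sub_add_cancel] at a2
    have a3 := h.idx_run (z := z) (show n ≤ m - 1 by omega) fun x x0 x1 => by
      rcases eq_or_lt_of_le x0 with rfl | x2
      · exact a
      · by_contra na
        have := (key x x2 (by omega) na).1
        omega
    have := (key (m - 1) (by omega) (by omega) s.2).2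
    exact Or.inr ⟨by omega, this, s.1⟩
  · have := h.idx_run (z := z) mn fun x x0 x1 => by
      rcases eq_or_lt_of_le x0 with rfl | x2
      · exact a
      · by_contra na
        obtain rfl := (key x x2 x1 na).1
        exact s ⟨by omega, by rwa [add_sub_cancel_right]⟩
    exact Or.inl (by omega)

/-- The unit never lags behind the time, for all items. -/
lemma echi (h : Units t zc F) (hH : Host t ζ) {z z' : Fin 3} {n n' ν : ℤ} (a : Alw t zc z n)
    (a' : Alw t zc z' n') (h0 : 0 ≤ ν) (h1 : ν ≤ 3)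
    (g : t.G z (t.idx F z n) + ν ≤ t.G z' (t.idx F z' n')) : ν ≤ n' - n := by
  obtain ⟨i, m, q, -, -, c, l, b, -, -, s⟩ := h.prev hH a
  obtain ⟨i', m', q', -, -, c', l', b', -, -, s'⟩ := h.next hH a'
  have g1 := t.Gmono z l
  have g2 := t.Gmono z' l'
  have hk := t.hk
  have f : ∀ x : ℤ, x ≤ t.idx F z n - i + ν + (i' - t.idx F z' n') → t.G z i + x ≤ t.G z' i' := by
    intro x hx
    have : (x : ℝ) ≤ ((t.idx F z n - i + ν + (i' - t.idx F z' n') : ℤ) : ℝ) := by exact_mod_cast hx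
    push_cast at *
    linarith
  have j0 := t.chi q q' (by omega) (by omega) (f _ le_rfl)
  have j1 := t.jumpL q q' (by omega) (f _ le_rfl)
  have j2 := t.jumpR q q' (by omega) (f _ le_rfl)
  have j3 := t.jump2 q q' (by omega) (f _ le_rfl)
  have x1 := fun x => t.short (ν := 1) q q' (by omega) (f 1 x)
  have x2 := fun x => t.short (ν := 2) q q' (by omega) (f 2 x)
  have y := t.tau_eq z i
  have y' := t.tau_eq z' i'
  have w := t.sig_lt (c := t.wc z i) (d := t.wc z' i')
  have p := h.idx_lt a (show n < n + 1 by omega)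
  rcases s with s | ⟨s, u, v⟩ <;> rcases s' with s' | ⟨s', u', v'⟩ <;> omega

/-- A chain into the second half of the window `c` from a unit before its centre. -/
lemma echiR (h : Units t zc F) (hH : Host t ζ) {z z' : Fin 3} {n i' ν : ℤ} (a : Alw t zc z n)
    (q' : t.Q z' i') (hn : n < t.N (t.wc z' i')) (hu : 0 < t.wu z' i') (h1 : ν ≤ 5)
    (g : t.G z (t.idx F z n) + ν ≤ t.G z' i') : 2 * ν + 2 ≤ t.ch z' i' - 2 * n := by
  obtain ⟨i, m, q, co, e, c, l, b, tl, -, s⟩ := h.prev hH a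
  have g1 := t.Gmono z l
  have hk := t.hk
  have k0 := t.k11
  have f : t.G z i + ((t.idx F z n - i + ν : ℤ) : ℝ) ≤ t.G z' i' := by push_cast at *; linarith
  have j2 := t.jumpR q q' (by omega) f hu
  have j3 := t.jump2 q q' (by omega) f
  have mn : m + 1 < t.N (t.wc z' i') := by
    have : m ≤ n := by omega
    by_contra x
    have e1 : m = t.N (t.wc z' i') - 1 := by omega
    unfold Tk.Co at co
    rw [e1, (t.sg_N _).2] at co
    simp only [sub_add_cancel] at co
    omega
  have b2 := (t.tb_N (t.wc z' i')).2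
  have b3 := t.tb_lt (show m + 1 ≤ t.N (t.wc z' i') - 1 by omega)
  have b4 := co.tb
  have y := t.tau_eq z i
  rcases s with s | ⟨s, u, v⟩
  · omega
  · have : t.wc z i < t.wc z' i' := by
      by_contra x
      have := t.Nmono (show t.wc z' i' ≤ t.wc z i by omega)
      unfold Tk.ch Tk.tau tkf at c
      rw [if_neg (by omega)] at c
      omega
    omega

/-- A chain from the first half of the window `c` to a unit not before its centre. -/
lemma echiL (h : Units t zc F) (hH : Host t ζ) {z z' : Fin 3} {n' i ν : ℤ} (a : Alw t zc z' n')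
    (q : t.Q z i) (hn : t.N (t.wc z i) - 1 ≤ n') (hu : t.wu z i < 0) (h1 : ν ≤ 5)
    (g : t.G z i + ν ≤ t.G z' (t.idx F z' n')) : 2 * ν + 2 ≤ 2 * n' - t.ch z i := by
  obtain ⟨i', m, q', co, e, c, l, b, tl, -, s⟩ := h.next hH a
  have g1 := t.Gmono z' l
  have hk := t.hk
  have k0 := t.k11
  have f : t.G z i + ((i' - t.idx F z' n' + ν : ℤ) : ℝ) ≤ t.G z' i' := by push_cast at *; linarith
  have j2 := t.jumpL q q' (by omega) f hu
  have j3 := t.jump2 q q' (by omega) f hu
  have mn : t.N (t.wc z i) ≤ m := by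
    have : n' ≤ m := by omega
    by_contra x
    have e1 : m = t.N (t.wc z i) - 1 := by omega
    unfold Tk.Co at co
    rw [e1, (t.sg_N _).2] at co
    simp only [sub_add_cancel] at co
    omega
  have b2 := (t.tb_N (t.wc z i)).1
  have b3 := t.tb_lt mn
  rcases s with s | ⟨s, u, v⟩
  · omega
  · have : t.wc z i < t.wc z' i' := by
      by_contra x
      have := t.Nmono (show t.wc z' i' ≤ t.wc z i by omega)
      unfold Tk.ch Tk.tau tkf at c
      rw [if_pos (by omega)] at c
      omega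
    omega

lemma inc_unit (h : Units t zc F) (hH : Host t ζ) {z : Fin 3} {i n : ℤ} (a : t.InC z i n) :
    ∃ m, t.Co m ∧ t.idx F z m = i ∧ t.ch z i = 2 * m ∧ n - 1 ≤ m ∧ m ≤ n := by
  obtain ⟨m, c, e, g, g'⟩ := h.qunit hH a.1
  refine ⟨m, c, e, g, ?_, ?_⟩
  · by_contra x
    have := t.tb_lt (show m + 1 ≤ n - 1 by omega)
    have := t.tb_lt (show n - 1 ≤ n by omega)
    have := c.tb
    have := a.2
    omega
  · by_contra x
    have := t.tb_lt (show n ≤ m by omega)
    have := a.2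
    omega

/-- Both ends of an edge between two centres lie in one unit next to its zero cell. -/
lemma wunit (h : Units t zc F) (hH : Host t ζ) (j : ℤ) : ∃ v, ζ j - 1 ≤ v ∧ v ≤ ζ j ∧ t.Co v ∧
    ∀ z, z ≠ t.o j → t.wi j z = t.idx F z v := by
  have ex : ∀ x : Fin 3, ∃ p q : Fin 3, p ≠ x ∧ q ≠ x ∧ p ≠ q := by decide
  obtain ⟨p, q, hp, hq, pq⟩ := ex (t.o j)
  obtain ⟨v, av, ev⟩ := h.surj p (t.wi j p)
  have all : ∀ z, z ≠ t.o j → Alw t zc z v ∧ t.wi j z = t.idx F z v := by
    intro z hz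
    obtain ⟨u, au, eu⟩ := h.surj z (t.wi j z)
    have e1 := (t.wis j p hp).1
    have e2 := (t.wis j z hz).1
    have := h.echi hH (ν := 0) av au le_rfl (by omega) (by rw [ev, eu, e1, e2]; simp)
    have := h.echi hH (ν := 0) au av le_rfl (by omega) (by rw [ev, eu, e1, e2]; simp)
    obtain rfl : u = v := by omega
    exact ⟨au, eu.symm⟩
  obtain ⟨x, i, n, x', i', n', a, a', l1, l2, l3, -, g1, g2⟩ := hH.anc j
  obtain ⟨m, c, e, -, b1, b2⟩ := h.inc_unit hH a
  obtain ⟨m', c', e', -, b1', b2'⟩ := h.inc_unit hH a'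
  have e1 := (t.wis j p hp).1
  have := h.echi hH (z := x) (ν := ζ j - n) (Or.inl c) av (by omega) (by omega)
    (by rw [e, ev, e1]; exact g1)
  have := h.echi hH (z' := x') (ν := n' - ζ j) av (Or.inl c') (by omega) (by omega)
    (by rw [e', ev, e1]; exact g2)
  refine ⟨v, by omega, by omega, ?_, fun z hz => (all z hz).2⟩
  rcases (all p hp).1 with s | s
  · exact s
  rcases (all q hq).1 with s' | s'
  · exact s'
  · exact absurd (s.trans s'.symm) pq

/-- No centre passes from the first tick of a cell to the second tick of the next cell. -/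
lemma noswitch (h : Units t zc F) {z : Fin 3} {n : ℤ} (c : t.Co n) (a : t.occ z (t.tb n))
    (b : t.occ z (t.tb n + 3)) : False := by
  obtain ⟨i, q, e⟩ := a
  obtain ⟨i', q', e'⟩ := b
  have tb := c.tb
  have x := h.qb z i n q e
  have y := h.qa z i' (n + 1) q' (by rw [tb]; exact e'.trans (by ring))
  rw [c.sg] at y
  have g := t.Gmono z (show i ≤ i' by omega)
  rw [show i' - i = 2 by omega] at g
  have := t.short q q' (by omega) g
  unfold Tk.tau at this
  omega

end Units

end Pool.Agent.P.MP_3f5ded_co.UG
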