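import Pool.Agent.P.MP_3f5ded_co.USEchi

set_option autoImplicit false

namespace Pool.Agent.P.MP_3f5ded_co.UG

namespace Tk
variable {k : ℤ} {r : ℝ} (t : Tk k r)

lemma cnt_two {x : ℤ} (h : 2 ≤ t.cnt x) {p q : Fin 3} (e : p ≠ q) : t.occ p x ∨ t.occ q x := by
  rw [cnt_eq] at h
  have b0 := indT_cases (t.occ 0 x)
  have b1 := indT_cases (t.occ 1 x)
  have b2 := indT_cases (t.occ 2 x)
  fin_cases p <;> fin_cases q <;> simp only [Fin.zero_eta, Fin.mk_one, Fin.reduceFinMk] at e ⊢ <;>
    grind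

lemma g_mono {a b : ℤ} (h : a ≤ b) : a - t.sg a ≤ b - t.sg b := by
  induction b, h using Int.leInduction with
  | base => simp
  | succ m _ ih =>
    have := t.sg_succ m
    omega

/-- Every level has a unit inside a segment. -/
lemma exco (g : ℤ) : ∃ n, t.Co n ∧ n - t.sg n = g := by
  have n0 := t.N0
  have hb : ∃ b : ℤ, ∀ n : ℤ, n - t.sg n ≤ g → n ≤ b := by
    refine ⟨max 0 (2 * g), fun n hn => ?_⟩
    by_contra x
    have s := t.sgs n
    have c0 : 0 ≤ t.sg n := by
      have := t.sg_mono (show t.N 0 ≤ n by omega)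
      rwa [(t.sg_N 0).1] at this
    have := t.Nmono c0
    omega
  have he : ∃ n : ℤ, n - t.sg n ≤ g := by
    refine ⟨min (-1) (2 * g - 2), ?_⟩
    set n := min (-1) (2 * g - 2) with hn
    have s := t.sgs n
    have c0 : t.sg n + 1 ≤ 0 := by
      have := t.sg_mono (show n ≤ t.N 0 - 1 by omega)
      rw [(t.sg_N 0).2] at this
      omega
    have := t.Nmono c0
    omega
  obtain ⟨n, h1, h2⟩ := Int.exists_greatest_of_bdd hb he
  have h3 : ¬n + 1 - t.sg (n + 1) ≤ g := fun x => by have := h2 _ x; omega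
  have := t.sg_succ n
  exact ⟨n, by unfold Co; omega, by omega⟩

lemma S_mono {c d : ℤ} (h : c ≤ d) : t.N c - c ≤ t.N d - d := by
  have := t.Nmono h
  omega

variable {t}

lemma Co.seg {n : ℤ} (h : t.Co n) (d : ℤ) :
    (t.N d - d ≤ n - t.sg n → d ≤ t.sg n) ∧ (n - t.sg n < t.N d - d → t.sg n < d) := by
  have s := t.sgs n
  unfold Co at h
  constructor
  · intro a
    by_contra x
    have := t.S_mono (show t.sg n + 1 ≤ d by omega)
    omega
  · intro a
    by_contra x
    have := t.S_mono (show d ≤ t.sg n by omega)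
    omega

variable (t)

lemma Mmul (c x : ℤ) : t.M (c + 3 * x) = t.M c := by
  induction x using Int.induction_on with
  | zero => simp
  | succ n ih => rw [show c + 3 * ((n : ℤ) + 1) = c + 3 * n + 3 by ring, t.Mper, ih]
  | pred n ih =>
    rw [← t.Mper, show c + 3 * (-(n : ℤ) - 1) + 3 = c + 3 * -n by ring, ih]

/-- A zero cell on the level `g`. -/
def Zg (g : ℤ) : Prop := ∃ n, t.Zc n ∧ n - t.sg n = g

end Tk

namespace Host
variable {k : ℤ} {r : ℝ} {t : Tk k r} {ζ : ℤ → ℤ}

lemma S_even (h : Host t ζ) (c : ℤ) : (t.N c - c) % 2 = 0 := by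
  induction c using Int.induction_on with
  | zero => simp [t.N0]
  | succ n ih =>
    have := t.Ns n
    have := h.even n
    omega
  | pred n ih =>
    have a := t.Ns (-(n : ℤ) - 1)
    have := h.even (-(n : ℤ) - 1)
    rw [sub_add_cancel] at a
    omega

lemma par (h : Host t ζ) (n : ℤ) : t.cnt (t.tb n) % 2 = t.A (n - t.sg n) % 2 ∧
    t.cnt (t.tb n + 1) % 2 = t.A (n - t.sg n) % 2 := by
  have a := t.par_cell n
  have b := t.A_N (t.sg n) (n - t.N (t.sg n))
  rw [show n - t.N (t.sg n) + (t.N (t.sg n) - t.sg n) = n - t.sg n by ring] at b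
  have := h.S_even (t.sg n)
  have := h.even (t.sg n)
  have := h.even (t.sg n + 1)
  have := h.even (t.sg n + 2)
  omega

lemma Amul (h : Host t ζ) (c g x : ℤ) : t.A (g + t.M c * x) % 2 = t.A g % 2 := by
  have e := h.even c
  induction x using Int.induction_on with
  | zero => simp
  | succ n ih =>
    rw [show g + t.M c * ((n : ℤ) + 1) = g + t.M c * n + t.M c by ring, t.Aper]
    omega
  | pred n ih =>
    rw [show g + t.M c * (-(n : ℤ) - 1) = g + t.M c * -n - t.M c by ring, t.Aper']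
    omega

lemma no4g (h : Host t ζ) {a b c d : ℤ} (ha : t.Zg a) (hb : t.Zg b) (hc : t.Zg c) (hd : t.Zg d)
    (ab : a < b) (bc : b < c) (cd : c < d) : a + (k - 1) ≤ d := by
  obtain ⟨a, ha, rfl⟩ := ha
  obtain ⟨b, hb, rfl⟩ := hb
  obtain ⟨c, hc, rfl⟩ := hc
  obtain ⟨d, hd, rfl⟩ := hd
  have key : ∀ x y, x - t.sg x < y - t.sg y → x < y := fun x y g => by
    by_contra e
    have := t.g_mono (show y ≤ x by omega)
    omega
  have := t.g_mono (h.no4 ha hb hc hd (key _ _ ab) (key _ _ bc) (key _ _ cd))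
  rw [t.sg_per] at this
  omega

lemma inj (h : Host t ζ) {i j : ℤ} (e : ζ i = ζ j) : i = j := by
  rcases lt_trichotomy i j with g | g | g
  · have := h.mono g.le; omega
  · exact g
  · have := h.mono g.le; omega

end Host

lemma fin3_other (x : Fin 3) : ∃ p q : Fin 3, p ≠ x ∧ q ≠ x ∧ p ≠ q := by
  revert x; decide

namespace Units
variable {k : ℤ} {r : ℝ} {t : Tk k r} {ζ : ℤ → ℤ} {zc : ℤ → Fin 3} {F : Fin 3 → ℤ → ℤ}

/-- Some cell is odd. -/
lemma nu_pos (h : Units t zc F) (hH : Host t ζ) : ∃ g, t.A g % 2 = 1 := by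
  by_contra x
  have ev : ∀ n, t.cnt (t.tb n) % 2 = 0 ∧ t.cnt (t.tb n + 1) % 2 = 0 := fun n => by
    have := hH.par n
    have : ¬t.A (n - t.sg n) % 2 = 1 := fun e => x ⟨_, e⟩
    omega
  have two : ∀ c, ∃ a b, t.N c ≤ a ∧ a < b ∧ b < t.N (c + 1) ∧ t.Zc a ∧ t.Zc b := by
    intro c
    have ns := t.Ns c
    have mp := t.Mpos c
    have co : ∀ n, t.N c ≤ n → n + 1 < t.N (c + 1) → t.Co n := fun n a b => by
      unfold Tk.Co; rw [t.sg_eq a (by omega)]; exact b
    have s0 := hH.sig c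
    have s1 := hH.sig (c + 1)
    rw [← (t.tb_N c).1] at s0
    rw [show t.sig (c + 1) = t.tb (t.N (c + 1) - 1) + 1 by rw [(t.tb_N (c + 1)).2]; ring] at s1
    have up : ∀ n, t.N c ≤ n → n < t.N (c + 1) → (∀ m, t.N c ≤ m → m < n → ¬t.Zc m) →
        t.cnt (t.tb n) = 0 := by
      intro n h0
      induction n, h0 using Int.leInduction with
      | base => exact fun _ _ => s0
      | succ m hm ih =>
        intro a b
        have := ih (by omega) fun y y0 y1 => b y y0 (by omega)
        have := (t.cell_sum m).resolve_left (b m hm (by omega))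
        have := t.cnt_adj (t.tb m + 1)
        have := t.cnt_adj (t.tb m + 1 + 1)
        have e := ev (m + 1)
        rw [(co m hm a).tb, show t.tb m + 2 = t.tb m + 1 + 1 by ring] at e ⊢
        omega
    have dn : ∀ n, n ≤ t.N (c + 1) - 1 → t.N c ≤ n → (∀ m, n < m → m < t.N (c + 1) → ¬t.Zc m) →
        t.cnt (t.tb n + 1) = 0 := by
      intro n h0
      induction n, h0 using Int.leInductionDown with
      | base => exact fun _ _ => s1
      | pred m hm ih =>
        intro a b
        have := ih (by omega) fun y y0 y1 => b y (by omega) y1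
        have := (t.cell_sum m).resolve_left (b m (by omega) (by omega))
        have e1 := (co (m - 1) a (by omega)).tb
        rw [sub_add_cancel] at e1
        have a1 := t.cnt_adj (t.tb (m - 1) + 1)
        rw [show t.tb (m - 1) + 1 + 1 = t.tb m by omega] at a1
        have := ev (m - 1)
        omega
    have ex : ∃ n, t.N c ≤ n ∧ n < t.N (c + 1) ∧ t.Zc n := by
      by_contra y
      have z : ∀ n, t.N c ≤ n → n < t.N (c + 1) → ¬t.Zc n := fun n a b d => y ⟨n, a, b, d⟩
      exact z (t.N (c + 1) - 1) (by omega) (by omega)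
        ⟨up _ (by omega) (by omega) fun m a b => z m a (by omega), s1⟩
    obtain ⟨a, ⟨a0, a1, a2⟩, am⟩ := Int.exists_least_of_bdd
      (P := fun n => t.N c ≤ n ∧ n < t.N (c + 1) ∧ t.Zc n) ⟨_, fun n hn => hn.1⟩ ex
    obtain ⟨b, ⟨b0, b1, b2⟩, bm⟩ := Int.exists_greatest_of_bdd
      (P := fun n => t.N c ≤ n ∧ n < t.N (c + 1) ∧ t.Zc n) ⟨_, fun n hn => hn.2.1.le⟩ ex
    refine ⟨a, b, a0, lt_of_le_of_ne (bm a ⟨a0, a1, a2⟩) fun e => ?_, b1, a2, b2⟩
    subst e
    obtain ⟨j, rfl⟩ := hH.all a a2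
    obtain ⟨v, v0, v1, cv, hv⟩ := h.wunit hH j
    obtain ⟨p, q, hp, hq, pq⟩ := fin3_other (t.o j)
    have nq : ∀ z, z ≠ t.o j → ¬t.Q z (t.idx F z v) := fun z hz => hv z hz ▸ (t.wis j z hz).2
    rcases (show v + 1 = ζ j ∨ v = ζ j by omega) with e | e
    · have s := cv.sg
      rw [e, t.sg_eq a0 a1] at s
      have sv := t.sgs v
      rw [← s] at sv
      have nz : ∀ m, t.N c ≤ m → m ≤ v → ¬t.Zc m := fun m x0 x1 d => by
        have := am m ⟨x0, by omega, d⟩
        omega
      have := up v sv.1 sv.2 fun m x0 x1 => nz m x0 x1.le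
      have := (t.cell_sum v).resolve_left (nz v sv.1 le_rfl)
      rcases t.cnt_two (x := t.tb v + 1) (by omega) pq with o | o
      · exact nq p hp (h.occ_al o).1
      · exact nq q hq (h.occ_al o).1
    · have cv' := cv
      unfold Tk.Co at cv'
      rw [e, t.sg_eq a0 a1] at cv'
      have nz : ∀ m, v + 1 ≤ m → m < t.N (c + 1) → ¬t.Zc m := fun m x0 x1 d => by
        have := bm m ⟨by omega, x1, d⟩
        omega
      have := dn (v + 1) (by omega) (by omega) fun m x0 x1 => nz m x0.le x1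
      have y := (t.cell_sum (v + 1)).resolve_left (nz _ le_rfl (by omega))
      rw [cv.tb] at y this
      rcases t.cnt_two (x := t.tb v + 2) (by omega) pq with o | o
      · exact nq p hp (h.occ_be cv o).1
      · exact nq q hq (h.occ_be cv o).1
  obtain ⟨a, b, a0, ab, b1, za, zb⟩ := two 0
  obtain ⟨c, d, c0, cd, d1, zc', zd⟩ := two (0 + 1)
  have := hH.no4 za zb zc' zd ab (by omega) cd
  have := t.Nper 0
  have := t.Nmono (show (0 : ℤ) + 1 + 1 ≤ 0 + 3 by omega)
  omega

/-- With a class of size two the parity alternates. -/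
lemma alt (h : Units t zc F) (hH : Host t ζ) {c : ℤ} (e : t.M c = 2) (g : ℤ) :
    t.A g % 2 = g % 2 := by
  obtain ⟨x, hx⟩ := h.nu_pos hH
  have a0 := t.A0
  have a1 := hH.Amul c (x % 2) (x / 2)
  have a2 := hH.Amul c (g % 2) (g / 2)
  rw [e] at a1 a2
  rw [show x % 2 + 2 * (x / 2) = x by omega] at a1
  rw [show g % 2 + 2 * (g / 2) = g by omega] at a2
  rcases (show x % 2 = 0 ∨ x % 2 = 1 by omega) with y | y <;> rw [y] at a1
  · omega
  · rcases (show g % 2 = 0 ∨ g % 2 = 1 by omega) with w | w <;> rw [w] at a2 <;> omega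

/-- A window of size two has a zero cell at its centre. -/
lemma two_zero (h : Units t zc F) (hH : Host t ζ) {c : ℤ} (e : t.M (c + 1) = 2) :
    t.Zg (t.N c - c) := by
  have w := t.wsum c
  rw [e, show Finset.Ico (0 : ℤ) 2 = {0, 1} by decide, Finset.sum_pair (by decide)] at w
  have n0 := t.Ns (c - 1)
  have n1 := t.Ns c
  have m0 := hH.M2 (c - 1)
  have m1 := hH.M2 c
  rw [sub_add_cancel] at n0
  have se := hH.S_even c
  have s1 : t.sg (t.N c - 2) = c - 1 := t.sg_eq (by omega) (by rw [sub_add_cancel]; omega)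
  have s2 : t.sg (t.N c + 1) = c := t.sg_eq (by omega) (by omega)
  obtain ⟨s3, s4⟩ := t.sg_N c
  obtain ⟨b3, b4⟩ := t.tb_N c
  have e1 : tkf t.N c (1 - 2 * 2 + 2 * 0) = t.tb (t.N c - 2) := by unfold tkf Tk.tb; rw [s1]; ring
  have e2 : tkf t.N c (1 + 2 * 0) = t.tb (t.N c) + 1 := by unfold tkf Tk.tb; rw [s3]; ring
  have e3 : tkf t.N c (1 - 2 * 2 + 2 * 1) = t.tb (t.N c - 1) := by unfold tkf Tk.tb; rw [s4]; ring
  have e4 : tkf t.N c (1 + 2 * 1) = t.tb (t.N c + 1) + 1 := by unfold tkf Tk.tb; rw [s2]; ring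
  rw [e1, e2, e3, e4] at w
  change t.cnt _ + t.cnt _ + (t.cnt _ + t.cnt _) = _ at w
  have p1 := hH.par (t.N c - 2)
  have p2 := hH.par (t.N c)
  have p3 := hH.par (t.N c - 1)
  have p4 := hH.par (t.N c + 1)
  rw [h.alt hH e] at p1 p2 p3 p4
  have c1 := t.cell_sum (t.N c - 2)
  have c4 := t.cell_sum (t.N c + 1)
  have := (t.cnt_adj (t.tb (t.N c - 2))).1
  have := (t.cnt_adj (t.tb (t.N c - 2) + 1)).1
  have := (t.cnt_adj (t.tb (t.N c + 1))).1
  have := (t.cnt_adj (t.tb (t.N c + 1) + 1)).1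
  have := (t.cnt_adj (t.tb (t.N c - 1))).1
  have := (t.cnt_adj (t.tb (t.N c) + 1)).1
  have z := hH.sig c
  unfold Tk.Zc at c1 c4
  by_cases y : t.cnt (t.tb (t.N c) + 1) = 0
  · exact ⟨t.N c, ⟨by rw [b3]; exact z, y⟩, by rw [s3]⟩
  · exact ⟨t.N c - 1, ⟨by omega, by rw [b4, sub_add_cancel]; exact z⟩, by rw [s4]; ring⟩

/-- Two nonzero cells without one centre have the same shape. -/
lemma same (h : Units t zc F) {n : ℤ} (c : t.Co n) (a : ¬t.Zc n) (b : ¬t.Zc (n + 1)) {x : Fin 3}
    (g : ∀ j, ¬t.InC x j n ∧ ¬t.InC x j (n + 1)) : t.cnt (t.tb n) = t.cnt (t.tb (n + 1)) := by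
  have key : ∀ p, t.occ p (t.tb n) ↔ t.occ p (t.tb (n + 1)) := by
    intro p
    by_cases e : p = x
    · subst e
      exact ⟨fun ⟨i, q, y⟩ => absurd ⟨q, Or.inl y⟩ (g i).1,
        fun ⟨i, q, y⟩ => absurd ⟨q, Or.inl y⟩ (g i).2⟩
    · obtain ⟨i, q, y⟩ := (t.cell_two a e).resolve_right fun ⟨i, y⟩ => (g i).1 y
      obtain ⟨i', q', y'⟩ := (t.cell_two b e).resolve_right fun ⟨i, y⟩ => (g i).2 y
      constructor
      · intro o
        rcases y' with y' | y'
        · exact ⟨i', q', y'⟩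
        · exact (h.noswitch c o ⟨i', q', y'.trans (by rw [c.tb]; ring)⟩).elim
      · intro o
        rcases y with y | y
        · exact ⟨i, q, y⟩
        · rw [c.tb, show t.tb n + 2 = t.tb n + 1 + 1 by ring] at o
          exact (t.not_adj p _ ⟨⟨i, q, y⟩, o⟩).elim
  rw [Tk.cnt_eq, Tk.cnt_eq, propext (key 0), propext (key 1), propext (key 2)]

/-- No long run of units without one centre. -/
lemma norun (h : Units t zc F) (hH : Host t ζ) (c a : ℤ)
    (g : ∀ n, t.Co n → a ≤ n - t.sg n → n - t.sg n < a + t.M c + t.M (c + 2) →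
      t.Zc n ∨ t.Zc (n + 1) ∨ ∃ x, ∀ j, ¬t.InC x j n ∧ ¬t.InC x j (n + 1)) : False := by
  have m0 := hH.M2 c
  have m1 := hH.M2 (c + 1)
  have m2 := hH.M2 (c + 2)
  have ms := t.Msum c
  have k0 := t.k11
  have chg : ∀ n, t.Co n → a ≤ n - t.sg n → n - t.sg n < a + t.M c + t.M (c + 2) →
      (t.A (n - t.sg n) % 2 = 0 → t.A (n - t.sg n + 1) % 2 = 1 → t.Zc n) ∧
      (t.A (n - t.sg n) % 2 = 1 → t.A (n - t.sg n + 1) % 2 = 0 → t.Zc (n + 1)) := by
    intro n co x0 x1
    have p := hH.par n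
    have p' := hH.par (n + 1)
    rw [co.sg, show n + 1 - t.sg n = n - t.sg n + 1 by ring] at p'
    have key : t.A (n - t.sg n) % 2 ≠ t.A (n - t.sg n + 1) % 2 → t.Zc n ∨ t.Zc (n + 1) := by
      intro ne
      by_contra y
      obtain ⟨y0, y1⟩ := not_or.1 y
      obtain ⟨x, hx⟩ := ((g n co x0 x1).resolve_left y0).resolve_left y1
      have := h.same co y0 y1 hx
      omega
    constructor
    · intro u v
      refine (key (by omega)).resolve_right fun y => ?_
      have := y.1
      omega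
    · intro u v
      refine (key (by omega)).resolve_left fun y => ?_
      have := y.1
      omega
  have up : ∀ x, a ≤ x → x < a + t.M c + t.M (c + 2) → t.A x % 2 = 0 → t.A (x + 1) % 2 = 1 →
      t.Zg x := by
    intro x x0 x1 u v
    obtain ⟨n, co, rfl⟩ := t.exco x
    exact ⟨n, (chg n co x0 x1).1 u v, rfl⟩
  have dn : ∀ x, a ≤ x → x < a + t.M c + t.M (c + 2) → t.A x % 2 = 1 → t.A (x + 1) % 2 = 0 →
      t.Zg (x + 1) := by
    intro x x0 x1 u v
    obtain ⟨n, co, rfl⟩ := t.exco x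
    exact ⟨n + 1, (chg n co x0 x1).2 u v, by rw [co.sg]; ring⟩
  obtain ⟨e, he, hm⟩ : ∃ e, (e = c ∨ e = c + 2) ∧ 2 * t.M e ≤ t.M c + t.M (c + 2) := by
    rcases le_total (t.M c) (t.M (c + 2)) with y | y
    · exact ⟨c, Or.inl rfl, by omega⟩
    · exact ⟨c + 2, Or.inr rfl, by omega⟩
  have me := hH.M2 e
  have red : ∀ b x, ∃ y w, b ≤ y ∧ y < b + t.M e ∧ x = y + t.M e * w := fun b x =>
    ⟨b + (x - b) % t.M e, (x - b) / t.M e, by have := Int.emod_nonneg (x - b) (show t.M e ≠ 0 by omega); omega,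
      by have := Int.emod_lt_of_pos (x - b) (show 0 < t.M e by omega); omega,
      by have := Int.emod_add_mul_ediv (x - b) (t.M e); omega⟩
  have sh : ∀ x, t.A (x + t.M e) % 2 = t.A x % 2 := fun x => by
    have := hH.Amul e x 1
    rwa [mul_one] at this
  have dv : ∀ x y, t.A x % 2 = 0 → t.A (x + 1) % 2 = 1 → t.A y % 2 = 1 → t.A (y + 1) % 2 = 0 →
      t.M e ∣ y + 1 - x := by
    intro x y u v u' v'
    obtain ⟨x, w, x0, x1, rfl⟩ := red a x
    obtain ⟨y, w', y0, y1, rfl⟩ := red a y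
    rw [hH.Amul] at u u'
    rw [add_right_comm, hH.Amul] at v v'
    have z1 := up x x0 (by omega) u v
    have z2 := dn y y0 (by omega) u' v'
    have z3 := up (x + t.M e) (by omega) (by omega) (by rw [sh]; exact u)
      (by rw [add_right_comm, sh]; exact v)
    have z4 := dn (y + t.M e) (by omega) (by omega) (by rw [sh]; exact u')
      (by rw [add_right_comm, sh]; exact v')
    rcases (show y + 1 = x ∨ y + 1 = x + t.M e ∨ y + 1 < x ∨ (x < y + 1 ∧ y + 1 < x + t.M e) by
      omega) with s | s | s | s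
    · exact ⟨w' - w, by rw [← s]; ring⟩
    · exact ⟨w' - w + 1, by rw [show y = x + t.M e - 1 by omega]; ring⟩
    · have := hH.no4g z2 z1 z4 z3 (by omega) (by omega) (by omega)
      omega
    · have := hH.no4g z1 z2 z3 z4 (by omega) (by omega) (by omega)
      omega
  have e2 : t.M e = 2 := by
    obtain ⟨g0, hg⟩ := h.nu_pos hH
    obtain ⟨g0, w, g1, g2, rfl⟩ := red 0 g0
    rw [hH.Amul] at hg
    have a0 := t.A0
    have a1 := sh 0
    rw [zero_add] at a1
    obtain ⟨x, ⟨x0, x1⟩, xm⟩ := Int.exists_greatest_of_bdd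
      (P := fun x => x ≤ g0 ∧ t.A x % 2 = 0) ⟨_, fun n hn => hn.1⟩ ⟨0, g1, by omega⟩
    obtain ⟨y, ⟨y0, y1⟩, ym⟩ := Int.exists_least_of_bdd
      (P := fun x => g0 ≤ x ∧ t.A x % 2 = 0) ⟨_, fun n hn => hn.1⟩ ⟨t.M e, by omega, by omega⟩
    have xl := xm 0 ⟨g1, by omega⟩
    have yl := ym (t.M e) ⟨by omega, by omega⟩
    have mid : ∀ u, x < u → u < y → t.A u % 2 = 1 := fun u u0 u1 => by
      by_contra s
      rcases le_total u g0 with s' | s'
      · have := xm u ⟨s', by omega⟩; omega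
      · have := ym u ⟨s', by omega⟩; omega
    have xg : x ≠ g0 := fun s => by rw [s] at x1; omega
    have yg : y ≠ g0 := fun s => by rw [s] at y1; omega
    have d := dv x (y - 1) x1 (mid _ (by omega) (by omega)) (mid _ (by omega) (by omega))
      (by rw [sub_add_cancel]; exact y1)
    have := Int.le_of_dvd (by omega) d
    have b1 := mid (-1 + t.M e) (by omega) (by omega)
    rw [sh] at b1
    have b2 := t.hall hH.M2 b1
    by_contra s
    have := mid 2 (by omega) (by omega)
    omega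
  have al := h.alt hH e2
  have ev : ∀ x, a ≤ x → x ≤ a + t.M c + t.M (c + 2) → x % 2 = 0 → t.Zg x := by
    intro x x0 x1 x2
    rcases eq_or_lt_of_le x1 with s | s
    · have := dn (x - 1) (by omega) (by omega) (by rw [al]; omega) (by rw [al]; omega)
      rwa [sub_add_cancel] at this
    · exact up x x0 s (by rw [al]; omega) (by rw [al]; omega)
  obtain ⟨n, co, hn⟩ := t.exco a
  obtain ⟨d, hd⟩ : ∃ d, t.sg n = d := ⟨_, rfl⟩
  have sn := t.sgs n
  have co' := co
  unfold Tk.Co at co'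
  rw [hd] at sn co' hn
  have nd := t.Ns d
  have nd' := t.Ns (d + 1)
  have md := hH.M2 d
  have md' := hH.M2 (d + 1)
  have sd := hH.S_even d
  have sd' := hH.S_even (d + 1)
  have big : a + t.M c + t.M (c + 2) ≤ t.N (d + 1) - (d + 1) := by
    by_contra s
    have s1 : t.sg (t.N (d + 1) - 2) = d := t.sg_eq (by omega) (by omega)
    have s2 := (t.sg_N (d + 1)).1
    have z1 := (chg (t.N (d + 1) - 2) (by unfold Tk.Co; rw [s1]; omega) (by omega) (by omega)).2
      (by rw [al]; omega) (by rw [al]; omega)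
    have z2 := (chg (t.N (d + 1)) (by unfold Tk.Co; rw [s2]; omega) (by omega) (by omega)).1
      (by rw [al]; omega) (by rw [al]; omega)
    rw [show t.N (d + 1) - 2 + 1 = t.N (d + 1) - 1 by ring] at z1
    exact h.nodz (d + 1) ⟨z1, z2⟩
  obtain ⟨w, hw⟩ : ∃ w, d = c + 1 + 3 * w := by
    have a0 := t.Mmul c ((d - c) / 3)
    have a2 := t.Mmul (c + 2) ((d - c) / 3)
    rcases (show d = c + 3 * ((d - c) / 3) ∨ d = c + 1 + 3 * ((d - c) / 3) ∨
      d = c + 2 + 3 * ((d - c) / 3) by omega) with s | s | s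
    · rw [← s] at a0; omega
    · exact ⟨_, s⟩
    · rw [← s] at a2; omega
  have d0 : t.M d = t.M (c + 1) := by rw [hw, t.Mmul]
  have d1 : t.M (d + 1) = t.M (c + 2) := by
    rw [show d + 1 = c + 2 + 3 * w by omega, t.Mmul]
  have d2 : t.M (d + 1 + 1) = t.M c := by
    rw [show d + 1 + 1 = c + 3 * (w + 1) by omega, t.Mmul]
  have k1 := fun y => h.two_zero hH (c := d) (d1.trans y)
  have k2 := fun y => h.two_zero hH (c := d + 1) (d2.trans y)
  have e0 := hH.even c
  have e1 := hH.even (c + 2)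
  have or2 : t.M c = 2 ∨ t.M (c + 2) = 2 := by rcases he with rfl | rfl <;> omega
  by_cases L : 6 ≤ t.M c + t.M (c + 2)
  · rcases (show a % 2 = 0 ∨ a % 2 = 1 by omega) with s | s
    · have := hH.no4g (ev a (by omega) (by omega) (by omega))
        (ev (a + 2) (by omega) (by omega) (by omega)) (ev (a + 4) (by omega) (by omega) (by omega))
        (ev (a + 6) (by omega) (by omega) (by omega)) (by omega) (by omega) (by omega)
      omega
    · have z1 := ev (a + 1) (by omega) (by omega) (by omega)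
      have z3 := ev (a + 3) (by omega) (by omega) (by omega)
      have z5 := ev (a + 5) (by omega) (by omega) (by omega)
      rcases or2 with y | y
      · have := hH.no4g z1 z3 z5 (k2 y) (by omega) (by omega) (by omega)
        omega
      · have := hH.no4g (k1 y) z1 z3 z5 (by omega) (by omega) (by omega)
        omega
  · have y1 := k1 (by omega)
    have y2 := k2 (by omega)
    rcases (show a % 2 = 1 ∨ a = t.N d - d ∨ (a % 2 = 0 ∧ t.N d - d < a) by omega) with s | s | s
    · have := hH.no4g y1 (ev (a + 1) (by omega) (by omega) (by omega))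
        (ev (a + 3) (by omega) (by omega) (by omega)) y2 (by omega) (by omega) (by omega)
      omega
    · have := hH.no4g y1 (ev (a + 2) (by omega) (by omega) (by omega))
        (ev (a + 4) (by omega) (by omega) (by omega)) y2 (by omega) (by omega) (by omega)
      omega
    · have := hH.no4g y1 (ev a (by omega) (by omega) (by omega))
        (ev (a + 2) (by omega) (by omega) (by omega)) y2 (by omega) (by omega) (by omega)
      omega

/-- No bad pair around a run without one centre. -/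
lemma nobad (h : Units t zc F) (hH : Host t ζ) {z z' : Fin 3} {i i' : ℤ} (q : t.Q z i)
    (q' : t.Q z' i') (e : t.wc z' i' = t.wc z i + 3)
    (b : t.wu z i - t.wu z' i' ≤ 2 * t.M (t.wc z i + 1) - 2)
    (g : ∀ n, t.Co n → t.tau z i < t.tb n → t.tb n + 3 < t.tau z' i' →
      t.Zc n ∨ t.Zc (n + 1) ∨ ∃ x, ∀ j, ¬t.InC x j n ∧ ¬t.InC x j (n + 1)) : False := by
  have w := t.win z i q
  have w' := t.win z' i' q'
  have y := t.tau_eq z i
  have y' := t.tau_eq z' i'
  rw [e] at w' y'
  generalize t.wc z i = c at *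
  unfold Tk.sig at y y'
  have p1 := t.Mper (c + 1)
  rw [show c + 3 + 1 = c + 1 + 3 by ring, p1] at w'
  have np := t.Nper c
  have ms := t.Msum c
  have n1 := t.two (c - 2)
  have n2 := t.two (c + 3)
  have p2 := t.Mper (c - 2)
  rw [sub_add_cancel] at n1
  rw [show c - 2 + 3 = c + 1 by ring] at p2
  rw [show c + 3 + 1 = c + 1 + 3 by ring, p1] at n2
  have := t.Mpos (c - 2 + 1)
  have := t.Mpos (c + 3)
  have := t.Mpos c
  have := t.Mpos (c + 2)
  refine h.norun hH c (t.N c - c + if t.wu z i < -1 then (t.wu z i + 3) / 2 else (t.wu z i + 1) / 2)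
    fun n co x0 x1 => ?_
  have s1 := (co.seg c).1
  have s2 := (co.seg (c - 2)).1
  have s3 := (co.seg (c + 3)).2
  have s4 := (co.seg (c + 3 + 2)).2
  refine g n co ?_ ?_ <;> unfold Tk.tb <;> split_ifs at x0 x1 <;> omega

/-- Along a centre the ticks advance by two in every step at least. -/
lemma N1 (h : Units t zc F) (hH : Host t ζ) {z : Fin 3} {i i' : ℤ} (q : t.Q z i) (q' : t.Q z i')
    (g : i ≤ i') : t.tau z i - 2 * i ≤ t.tau z i' - 2 * i' := by
  obtain ⟨n, hn⟩ : ∃ n : ℕ, i' - i ≤ n := ⟨(i' - i).toNat, by omega⟩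
  induction n generalizing i with
  | zero => obtain rfl : i = i' := by omega
            rfl
  | succ n ih =>
    rcases eq_or_lt_of_le g with rfl | g'
    · rfl
    obtain ⟨i0, q0, l0, u0⟩ := t.gr z (i + 1)
    obtain ⟨j, ⟨qj, lj⟩, mj⟩ := Int.exists_least_of_bdd
      (P := fun j => t.Q z j ∧ i + 1 ≤ j) ⟨_, fun j hj => hj.2⟩ ⟨i0, q0, l0⟩
    have j0 := mj i0 ⟨q0, l0⟩
    have j1 := mj i' ⟨q', by omega⟩
    have := ih qj j1 (by omega)
    have hk := t.hk
    have k0 := t.k11
    rcases t.T1 z i z j (j - i) q qj (by omega) (t.Gmono z (by omega)) with a | ⟨a, -, d⟩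
    · unfold Tk.tau at *; omega
    · refine (h.nobad hH q qj a d fun n co x0 x1 => Or.inr (Or.inr ⟨z, fun y => ?_⟩)).elim
      have tb := co.tb
      have key : ∀ qy : t.Q z y, t.tau z i < t.tau z y → t.tau z y < t.tau z j → False :=
        fun qy u v => by
          have := t.lt_of_tau q qy u
          have := t.lt_of_tau qy qj v
          have := mj y ⟨qy, by omega⟩
          omega
      exact ⟨fun s => key s.1 (by have := s.2; omega) (by have := s.2; omega),
        fun s => key s.1 (by have := s.2; omega) (by have := s.2; omega)⟩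

/-- The same along a chain through an edge between two centres. -/
lemma N2 (h : Units t zc F) (hH : Host t ζ) {j : ℤ} {z z' : Fin 3} {i i' : ℤ} (hz : z ≠ t.o j)
    (hz' : z' ≠ t.o j) (q : t.Q z i) (q' : t.Q z' i') (g : i ≤ t.wi j z) (g' : t.wi j z' ≤ i') :
    t.tau z i - 2 * i + 2 * t.wi j z ≤ t.tau z' i' - 2 * i' + 2 * t.wi j z' := by
  obtain ⟨i0, q0, l0, u0⟩ := t.gl z (t.wi j z)
  obtain ⟨a, ⟨qa, la⟩, ma⟩ := Int.exists_greatest_of_bdd
    (P := fun x => t.Q z x ∧ x ≤ t.wi j z) ⟨_, fun x hx => hx.2⟩ ⟨i0, q0, u0⟩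
  obtain ⟨i1, q1, l1, u1⟩ := t.gr z' (t.wi j z')
  obtain ⟨b, ⟨qb, lb⟩, mb⟩ := Int.exists_least_of_bdd
    (P := fun x => t.Q z' x ∧ t.wi j z' ≤ x) ⟨_, fun x hx => hx.2⟩ ⟨i1, q1, l1⟩
  have a0 := ma i0 ⟨q0, u0⟩
  have b0 := mb i1 ⟨q1, l1⟩
  have a1 := h.N1 hH q qa (ma i ⟨q, g⟩)
  have b1 := h.N1 hH qb q' (mb i' ⟨q', g'⟩)
  have hk := t.hk
  have g1 := t.Gmono z la
  have g2 := t.Gmono z' lb
  rw [(t.wis j z hz).1] at g1
  rw [(t.wis j z' hz').1] at g2
  rcases t.T1 z a z' b (t.wi j z - a + (b - t.wi j z')) qa qb (by omega)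
    (by push_cast at *; linarith) with x | ⟨x, -, d⟩
  · unfold Tk.tau at *; omega
  · refine (h.nobad hH qa qb x d fun n co x0 x1 => ?_).elim
    obtain ⟨v, v0, v1, cv, hv⟩ := h.wunit hH j
    have tb := co.tb
    rcases lt_trichotomy n v with s | s | s
    · refine Or.inr (Or.inr ⟨z, fun y => ?_⟩)
      have key : ∀ m, t.InC z y m → m ≤ v → t.tau z a < t.tau z y → False := fun m c u w => by
        obtain ⟨m', -, e, -, -, u'⟩ := h.inc_unit hH c
        have := h.idx_mono z (show m' ≤ v by omega)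
        have := hv z hz
        have := ma y ⟨c.1, by omega⟩
        have := t.lt_of_tau qa c.1 w
        omega
      exact ⟨fun c => key _ c (by omega) (by have := c.2; omega),
        fun c => key _ c (by omega) (by have := c.2; omega)⟩
    · have := hH.zero j
      rcases (show ζ j = n ∨ ζ j = n + 1 by omega) with y | y <;> rw [y] at this
      · exact Or.inl this
      · exact Or.inr (Or.inl this)
    · refine Or.inr (Or.inr ⟨z', fun y => ?_⟩)
      have key : ∀ m, t.InC z' y m → v < m → t.tau z' y < t.tau z' b → False := fun m c u w => by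
        obtain ⟨m', -, e, -, u', -⟩ := h.inc_unit hH c
        have := h.idx_mono z' (show v ≤ m' by omega)
        have := hv z' hz'
        have := mb y ⟨c.1, by omega⟩
        have := t.lt_of_tau c.1 qb w
        omega
      exact ⟨fun c => key _ c (by omega) (by have := c.2; omega),
        fun c => key _ c (by omega) (by have := c.2; omega)⟩

end Units

end Pool.Agent.P.MP_3f5ded_co.UG
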