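import Pool.Agent.P.MP_3f5ded_co.USHost
import Pool.Agent.P.MP_3f5ded_co.USNu

set_option autoImplicit false

namespace Pool.Agent.P.MP_3f5ded_co.UG

lemma tele (f : ℤ → ℤ) {n : ℤ} (h : 0 ≤ n) :
    ∑ ρ ∈ Finset.Ico 0 n, (f (ρ + 1) - f ρ) = f n - f 0 := by
  induction n, h using Int.leInduction with
  | base => simp
  | succ m hm ih =>
    rw [← Finset.insert_Ico_right_eq_Ico_add_one hm, Finset.sum_insert (by simp), ih]
    ring

lemma sum_gt {a f : ℤ → ℤ} {n x : ℤ} (x0 : 0 ≤ x) (x1 : x < n) (e : f n = f 0)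
    (h : ∀ ρ, 0 ≤ ρ → ρ < n → 2 + (f (ρ + 1) - f ρ) ≤ a ρ) (hx : 2 + (f (x + 1) - f x) < a x) :
    2 * n < ∑ ρ ∈ Finset.Ico 0 n, a ρ := by
  have := Finset.sum_lt_sum (s := Finset.Ico 0 n) (f := fun ρ => 2 + (f (ρ + 1) - f ρ)) (g := a)
    (fun ρ hρ => h ρ (Finset.mem_Ico.1 hρ).1 (Finset.mem_Ico.1 hρ).2)
    ⟨x, Finset.mem_Ico.2 ⟨x0, x1⟩, hx⟩
  rw [Finset.sum_add_distrib, tele f (by omega), Finset.sum_const, Int.card_Ico, nsmul_eq_mul,
    Int.toNat_of_nonneg (by omega)] at this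
  omega

lemma Tk.o_cases {k : ℤ} {r : ℝ} (t : Tk k r) (j : ℤ) (z : Fin 3) :
    z = t.o j ∨ z = t.o (j + 1) ∨ z = t.o (j + 2) := by
  have a := t.one j
  have b := t.one (j + 1)
  have d := t.one (j + 2)
  rw [show j + 1 + 1 = j + 2 by ring] at b
  rw [show j + 2 + 1 = j + 3 by ring, t.oper] at d
  omega

/-- Two zero cells with the same edge are a lap apart. -/
lemma Host.far {k : ℤ} {r : ℝ} {t : Tk k r} {ζ : ℤ → ℤ} (h : Host t ζ) {i j : ℤ} (g : ζ i < ζ j)
    (e : t.o i = t.o j) : ζ i + (k + 2) ≤ ζ j := by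
  have ij : i < j := by
    by_contra x
    have := h.mono (show j ≤ i by omega)
    omega
  rcases (show j = i + 1 ∨ j = i + 2 ∨ i + 3 ≤ j by omega) with rfl | rfl | x
  · exact absurd e (t.one i)
  · have d := t.one (i + 2)
    rw [show i + 2 + 1 = i + 3 by ring, t.oper] at d
    exact absurd e.symm d
  · have := h.mono x
    have := h.per i
    omega

namespace Units
variable {k : ℤ} {r : ℝ} {t : Tk k r} {ζ : ℤ → ℤ} {zc : ℤ → Fin 3} {F : Fin 3 → ℤ → ℤ}

lemma F_own (h : Units t zc F) (c : ℤ) : F (zc c) (c - 1) = F (zc c) c := by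
  have := h.Fs (zc c) (c - 1)
  rw [sub_add_cancel, if_pos rfl] at this
  omega

lemma F_oth (h : Units t zc F) {z : Fin 3} {c : ℤ} (e : z ≠ zc c) : F z c = F z (c - 1) + 1 := by
  have := h.Fs z (c - 1)
  rwa [sub_add_cancel, if_neg e] at this

/-- The item of a marked centre at the shared tick. -/
lemma marker (h : Units t zc F) {z : Fin 3} {c : ℤ} (e : z ≠ zc c) :
    ∃ i m, t.Q z i ∧ t.Co m ∧ t.idx F z m = i ∧ t.N c - 2 ≤ m ∧ m ≤ t.N c ∧
      t.sig c - 1 ≤ t.tau z i ∧ t.tau z i ≤ t.sig c + 1 ∧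
      t.tau z i - 2 * i = 2 * F z c + 1 - c := by
  have n0 := t.Ns (c - 1)
  have n1 := t.Ns c
  have m0 := t.Mpos (c - 1)
  have m1 := t.Mpos c
  rw [sub_add_cancel] at n0
  have f := h.F_oth e
  obtain ⟨s3, s4⟩ := t.sg_N c
  obtain ⟨b3, b4⟩ := t.tb_N c
  rcases h.mark c z e with o | o
  · have s1 : t.sg (t.N c - 2) = c - 1 := t.sg_eq (by omega) (by rw [sub_add_cancel]; omega)
    have co : t.Co (t.N c - 2) := by unfold Tk.Co; rw [s1, sub_add_cancel]; omega
    have tb := co.tb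
    rw [show t.N c - 2 + 1 = t.N c - 1 by ring] at tb
    rw [← b4, tb] at o
    obtain ⟨q, y⟩ := h.occ_be co o
    refine ⟨_, _, q, co, rfl, by omega, by omega, by omega, by omega, ?_⟩
    rw [y]
    unfold Tk.idx Tk.tb
    rw [s1]
    omega
  · rw [← b3] at o
    obtain ⟨q, y⟩ := h.occ_al o
    refine ⟨_, _, q, by unfold Tk.Co; rw [s3]; omega, rfl, by omega, by omega, by omega, by omega,
      ?_⟩
    rw [y]
    unfold Tk.idx Tk.tb
    rw [s3]
    omega

lemma prevm (h : Units t zc F) (c : ℤ) :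
    ∃ i m, t.Q (zc c) i ∧ t.Co m ∧ t.idx F (zc c) m = i ∧ m ≤ t.N (c - 1) ∧
      t.tau (zc c) i ≤ t.sig (c - 1) + 1 ∧ t.tau (zc c) i - 2 * i = 2 * F (zc c) c + 2 - c := by
  have e := h.ne (c - 1)
  rw [sub_add_cancel] at e
  obtain ⟨i, m, q, co, a, -, b, -, d, f⟩ := h.marker e.symm
  have := h.F_own c
  exact ⟨i, m, q, co, a, b, d, by omega⟩

lemma nextm (h : Units t zc F) (c : ℤ) :
    ∃ i m, t.Q (zc c) i ∧ t.Co m ∧ t.idx F (zc c) m = i ∧ t.N (c + 1) - 2 ≤ m ∧
      t.sig (c + 1) - 1 ≤ t.tau (zc c) i ∧ t.tau (zc c) i - 2 * i = 2 * F (zc c) c + 2 - c := by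
  obtain ⟨i, m, q, co, a, b, -, d, -, f⟩ := h.marker (h.ne c)
  have := h.F_oth (h.ne c)
  rw [add_sub_cancel_right] at this
  exact ⟨i, m, q, co, a, b, d, by omega⟩

/-- In its own segment a centre uses first ticks only. -/
lemma side_be (h : Units t zc F) (hH : Host t ζ) {n : ℤ} : ¬t.occ (zc (t.sg n)) (t.tb n + 1) := by
  rintro ⟨i, q, e⟩
  have e' : t.tau _ i = t.tb n + 1 := e
  have a := h.qa _ i n q e
  obtain ⟨i0, m, q0, -, -, -, b, d⟩ := h.prevm (t.sg n)
  have s := t.sgs n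
  have s1 := t.sig_succ (t.sg n - 1)
  have := t.Mpos (t.sg n - 1)
  have := t.tb_sig n
  rw [sub_add_cancel] at s1
  have := h.N1 hH q0 q (t.lt_of_tau q0 q (by omega)).le
  unfold Tk.tb at e'
  omega

/-- In the segment before its own a centre uses second ticks only. -/
lemma side_al (h : Units t zc F) (hH : Host t ζ) {n : ℤ} : ¬t.occ (zc (t.sg n + 1)) (t.tb n) := by
  rintro ⟨i, q, e⟩
  have e' : t.tau _ i = t.tb n := e
  have a := h.qb _ i n q e
  obtain ⟨i0, m, q0, -, -, -, b, d⟩ := h.nextm (t.sg n + 1)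
  have s := t.sgs n
  have s0 := t.sig_succ (t.sg n)
  have s1 := t.sig_succ (t.sg n + 1)
  have := t.Mpos (t.sg n + 1)
  have := t.tb_sig n
  have := t.Ns (t.sg n)
  have := h.N1 hH q q0 (t.lt_of_tau q q0 (by omega)).le
  have f := h.F_own (t.sg n + 1)
  rw [add_sub_cancel_right] at f
  unfold Tk.tb at e'
  omega

/-- Inside a segment no centre goes from a first tick to a second tick. -/
lemma side_mid (h : Units t zc F) (hH : Host t ζ) {z : Fin 3} {n n' : ℤ} (a : t.occ z (t.tb n))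
    (b : t.occ z (t.tb n' + 1)) (s : t.sg n = t.sg n') (g : n ≤ n') : False := by
  obtain ⟨i, q, e⟩ := a
  obtain ⟨i', q', f⟩ := b
  have e' : t.tau _ i = t.tb n := e
  have f' : t.tau _ i' = t.tb n' + 1 := f
  have := h.qb _ i n q e
  have := h.qa _ i' n' q' f
  have := h.N1 hH q q' (by rw [s] at *; omega)
  unfold Tk.tb at e' f'
  rw [s] at *
  omega

/-- No chain from the upper level through an edge between centres to the lower level. -/
lemma cross (h : Units t zc F) (hH : Host t ζ) {j v : ℤ} {z z' : Fin 3} {i i' m m' : ℤ}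
    (hz : z ≠ t.o j) (hz' : z' ≠ t.o j) (hv : ∀ z, z ≠ t.o j → t.wi j z = t.idx F z v)
    (q : t.Q z i) (q' : t.Q z' i') (e : t.idx F z m = i) (e' : t.idx F z' m' = i') (l : m ≤ v)
    (l' : v ≤ m') (y : t.tau z i - 2 * i = 2 * F z (t.sg v) + 2 - t.sg v)
    (y' : t.tau z' i' - 2 * i' = 2 * F z' (t.sg v) + 1 - t.sg v) : False := by
  have a := h.idx_mono z l
  have b := h.idx_mono z' l'
  have c := hv z hz
  have d := hv z' hz'
  have := h.N2 hH hz hz' q q' (by omega) (by omega)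
  unfold Tk.idx at c d
  omega

/-- The unit of an edge lies in the segment of its zero cell. -/
lemma wunit' (h : Units t zc F) (hH : Host t ζ) (j : ℤ) : ∃ v, ζ j - 1 ≤ v ∧ v ≤ ζ j ∧ t.Co v ∧
    t.sg v = t.sg (ζ j) ∧ ∀ z, z ≠ t.o j → t.wi j z = t.idx F z v := by
  obtain ⟨v, a, b, c, d⟩ := h.wunit hH j
  refine ⟨v, a, b, c, ?_, d⟩
  rcases (show ζ j = v ∨ ζ j = v + 1 by omega) with e | e <;> rw [e]
  exact c.sg.symm

/-- The edge between the centres of a segment and of the next one is not in this segment. -/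
lemma F2 (h : Units t zc F) (hH : Host t ζ) (j : ℤ) : t.o j ≠ zc (t.sg (ζ j) + 2) := by
  intro e
  obtain ⟨v, -, -, co, s, hv⟩ := h.wunit' hH j
  rw [← s] at e
  obtain ⟨i, m, q, -, a, b, -, d⟩ := h.prevm (t.sg v)
  obtain ⟨i', m', q', -, a', b', -, d'⟩ := h.nextm (t.sg v + 1)
  have f := h.F_own (t.sg v + 1)
  rw [add_sub_cancel_right] at f
  have sv := t.sgs v
  have := t.Nmono (show t.sg v - 1 ≤ t.sg v by omega)
  have := t.Nmono (show t.sg v + 1 ≤ t.sg v + 1 + 1 by omega)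
  have n1 := h.ne (t.sg v + 1)
  rw [show t.sg v + 1 + 1 = t.sg v + 2 by ring] at n1
  exact h.cross hH (e ▸ h.ne2 _) (e ▸ n1) hv q q' a a' (by omega) (by omega) d (by omega)

lemma alw_sig (c : ℤ) : Alw t zc (zc c) (t.N c - 1) :=
  Or.inr (by rw [(t.sg_N c).2, sub_add_cancel])

lemma not_co (c : ℤ) : ¬t.Co (t.N c - 1) := by
  unfold Tk.Co
  rw [(t.sg_N c).2]
  simp

lemma big_or (h : Units t zc F) (hH : Host t ζ) :
    (∀ c, 4 ≤ t.M c) ∨ ∀ n, t.Zc n → (n - t.sg n) % 2 = 0 := by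
  by_cases x : ∃ c, t.M c = 2
  · obtain ⟨c, e⟩ := x
    refine Or.inr fun n z => ?_
    have := hH.par n
    rw [h.alt hH e, z.1] at this
    omega
  · refine Or.inl fun c => ?_
    have : t.M c ≠ 2 := fun e => x ⟨c, e⟩
    have := hH.M2 c
    have := hH.even c
    omega

/-- A zero cell just after a shared tick hosts the edge of the two marked centres. -/
lemma host_first (h : Units t zc F) (hH : Host t ζ) {j c : ℤ} (e : ζ j = t.N c) :
    t.o j = zc c := by
  by_contra x
  have hz : zc c ≠ t.o j := fun y => x y.symm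
  obtain ⟨v, v0, v1, co, hv⟩ := h.wunit hH j
  have vc : v = t.N c := by
    by_contra y
    exact not_co c ((show v = t.N c - 1 by omega) ▸ co)
  subst vc
  obtain ⟨p, i, n, p', i', n', a, a', l1, l2, l3, zz, -, g2⟩ := hH.anc j
  have n0 := t.Ns c
  have m0 := hH.M2 c
  have m1 := hH.M2 (c + 1)
  have s0 := (t.sg_N c).1
  have s1 : t.sg (t.N c + 1) = c := t.sg_eq (by omega) (by omega)
  have sm : n' - t.N c ≤ t.M c ∧ n' - t.N c ≤ t.M (c + 1) := by
    rcases h.big_or hH with y | y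
    · have := y c
      have := y (c + 1)
      omega
    · have := y _ (e ▸ hH.zero j)
      have : ¬t.Zc (t.N c + 1) := fun w => by have := y _ w; omega
      have : n' = t.N c + 1 := by
        by_contra w
        exact this (zz _ (by omega) (by omega))
      omega
  have s2 : t.sg n' = c := t.sg_eq (by omega) (by omega)
  obtain ⟨m, cm, em, ch, b1, b2⟩ := h.inc_unit hH a'
  have w1 := (t.wis j _ hz).1
  rw [hv _ hz] at w1
  have := h.echi hH (z := zc c) (z' := p') (ν := n' - ζ j) (Or.inl co) (Or.inl cm) (by omega)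
    (by omega) (by rw [em, w1]; exact g2)
  have al : t.tau p' i' = t.tb n' + 1 := by
    refine a'.2.resolve_left fun y => ?_
    have := t.ch_be a'.1 y (by rw [s2]; omega)
    omega
  obtain ⟨w2, u2⟩ := t.near_pos (c := c) (x := 2 * (n' - t.N c) + 1) a'.1
    (by rw [al]; unfold Tk.tb Tk.sig; omega) (by omega) (by omega) (by omega) (by omega)
  have st := t.step (zc c) (t.idx F (zc c) (t.N c - 1))
  rcases h.idx_succ (zc c) (t.N c - 1) with ⟨-, y⟩ | ⟨y, -⟩
  · rw [← y, sub_add_cancel, w1] at st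
    have := h.echiR hH (ν := n' - ζ j + 1) (alw_sig c) a'.1 (by rw [w2]; omega) (by omega) (by omega)
      (by push_cast at *; linarith)
    omega
  · exact y (alw_sig c)

/-- The same for a zero cell just before a shared tick. -/
lemma host_last (h : Units t zc F) (hH : Host t ζ) {j c : ℤ} (e : ζ j = t.N c - 1) :
    t.o j = zc c := by
  by_contra x
  have hz : zc c ≠ t.o j := fun y => x y.symm
  obtain ⟨v, v0, v1, co, hv⟩ := h.wunit hH j
  have vc : v = t.N c - 2 := by
    by_contra y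
    exact not_co c ((show v = t.N c - 1 by omega) ▸ co)
  subst vc
  obtain ⟨p, i, n, p', i', n', a, a', l1, l2, l3, zz, g1, -⟩ := hH.anc j
  have n0 := t.Ns (c - 1)
  rw [sub_add_cancel] at n0
  have m0 := hH.M2 (c - 1)
  have m1 := hH.M2 (c + 1)
  have s0 := (t.sg_N c).2
  have s1 : t.sg (t.N c - 2) = c - 1 := t.sg_eq (by omega) (by rw [sub_add_cancel]; omega)
  have sm : t.N c - 1 - n ≤ t.M (c - 1) ∧ t.N c - 1 - n ≤ t.M (c + 1) := by
    rcases h.big_or hH with y | y
    · have := y (c - 1)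
      have := y (c + 1)
      omega
    · have := y _ (e ▸ hH.zero j)
      have : ¬t.Zc (t.N c - 2) := fun w => by have := y _ w; omega
      have : n = t.N c - 2 := by
        by_contra w
        exact this (zz _ (by omega) (by omega))
      omega
  have s2 : t.sg n = c - 1 := t.sg_eq (by omega) (by rw [sub_add_cancel]; omega)
  obtain ⟨m, cm, em, ch, b1, b2⟩ := h.inc_unit hH a
  have w1 := (t.wis j _ hz).1
  rw [hv _ hz] at w1
  have := h.echi hH (z := p) (z' := zc c) (ν := ζ j - n) (Or.inl cm) (Or.inl co) (by omega)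
    (by omega) (by rw [em, w1]; exact g1)
  have be : t.tau p i = t.tb n := by
    refine a.2.resolve_right fun y => ?_
    have := t.ch_al a.1 y (by rw [s2, sub_add_cancel]; omega)
    omega
  obtain ⟨w2, u2⟩ := t.near_neg (c := c) (x := 2 * (t.N c - n) - 1) a.1
    (by rw [be]; unfold Tk.tb Tk.sig; omega) (by omega) (by omega) (by omega) (by omega)
  have st := t.step (zc c) (t.idx F (zc c) (t.N c - 2))
  rcases h.idx_succ (zc c) (t.N c - 2) with ⟨-, y⟩ | ⟨y, -⟩
  · rw [← y, show t.N c - 2 + 1 = t.N c - 1 by ring, w1] at st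
    have := h.echiL hH (ν := ζ j - n + 1) (alw_sig c) a.1 (by rw [w2]) (by omega) (by omega)
      (by push_cast at *; linarith)
    omega
  · exact y (Or.inl co)

/-- The item of a centre at its shared tick is its free port. -/
lemma F1 (h : Units t zc F) (hH : Host t ζ) (c : ℤ) :
    ∃ L : ℤ, t.idx F (zc c) (t.N c - 1) = t.fi (zc c) + L * k := by
  by_contra x
  have n0 := t.Ns (c - 1)
  have n1 := t.Ns c
  rw [sub_add_cancel] at n0
  have m0 := hH.M2 (c - 1)
  have m1 := hH.M2 c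
  obtain ⟨s3, s4⟩ := t.sg_N c
  obtain ⟨b3, b4⟩ := t.tb_N c
  have s1 : t.sg (t.N c - 2) = c - 1 := t.sg_eq (by omega) (by rw [sub_add_cancel]; omega)
  have c1 : t.Co (t.N c - 2) := by unfold Tk.Co; rw [s1, sub_add_cancel]; omega
  have c2 : t.Co (t.N c) := by unfold Tk.Co; rw [s3]; omega
  obtain ⟨z', i', ne, ⟨nq, nw⟩, ab⟩ := t.cap (zc c) (t.idx F (zc c) (t.N c - 1))
    ⟨fun q => not_co c (h.qidx hH (alw_sig c) q).1, fun j hz e => by
      obtain ⟨v, -, -, co, hv⟩ := h.wunit hH j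
      rw [hv _ hz] at e
      exact not_co c (h.idx_inj (Or.inl co) (alw_sig c) e ▸ co)⟩ fun L e => x ⟨L, e⟩
  obtain ⟨u, au, rfl⟩ := h.surj z' i'
  have y1 := ((h.idx_succ (zc c) (t.N c - 2)).resolve_right fun y => y.1 (Or.inl c1)).2
  have y2 := ((h.idx_succ (zc c) (t.N c - 1)).resolve_right fun y => y.1 (alw_sig c)).2
  have st1 := t.step (zc c) (t.idx F (zc c) (t.N c - 2))
  have st2 := t.step (zc c) (t.idx F (zc c) (t.N c - 1))
  rw [← y1, show t.N c - 2 + 1 = t.N c - 1 by ring] at st1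
  rw [← y2, sub_add_cancel] at st2
  obtain ⟨ab1, ab2⟩ := abs_lt.1 ab
  have u1 := h.echi hH (z := zc c) (ν := 0) (Or.inl c1) au le_rfl (by omega)
    (by push_cast; linarith)
  have u2 := h.echi hH (z' := zc c) (ν := 0) au (Or.inl c2) le_rfl (by omega)
    (by push_cast; linarith)
  have z0 := hH.sig c
  rcases (show u = t.N c - 2 ∨ u = t.N c - 1 ∨ u = t.N c by omega) with rfl | rfl | rfl
  · rcases t.cell_sum (t.N c - 1) with z | z
    · obtain ⟨j, e⟩ := hH.all _ z
      have o := h.host_last hH e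
      obtain ⟨v, v0, v1, co, hv⟩ := h.wunit hH j
      have vc : v = t.N c - 2 := by
        by_contra y
        exact not_co c ((show v = t.N c - 1 by omega) ▸ co)
      exact nw j (o ▸ ne) (vc ▸ hv z' (o ▸ ne))
    · rw [b4, sub_add_cancel] at z
      have o := (t.cnt_two (x := t.sig c - 1) (by omega) ne).resolve_right (h.unm c).1
      have tb := c1.tb
      rw [show t.N c - 2 + 1 = t.N c - 1 by ring] at tb
      rw [← b4, tb] at o
      exact nq (h.occ_be c1 o).1
  · rcases au with y | y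
    · exact not_co c y
    · rw [s4, sub_add_cancel] at y
      exact ne y
  · rcases t.cell_sum (t.N c) with z | z
    · obtain ⟨j, e⟩ := hH.all _ z
      have o := h.host_first hH e
      obtain ⟨v, v0, v1, co, hv⟩ := h.wunit hH j
      have vc : v = t.N c := by
        by_contra y
        exact not_co c ((show v = t.N c - 1 by omega) ▸ co)
      exact nw j (o ▸ ne) (vc ▸ hv z' (o ▸ ne))
    · rw [b3] at z
      have o := (t.cnt_two (x := t.sig c + 1) (by omega) ne).resolve_right (h.unm c).2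
      rw [← b3] at o
      exact nq (h.occ_al o).1

/-- The gap between two free ports. -/
lemma gap (h : Units t zc F) (hH : Host t ζ) (c : ℤ) :
    t.G (zc (c + 1)) (t.idx F (zc (c + 1)) (t.N (c + 1) - 1)) -
      t.G (zc c) (t.idx F (zc c) (t.N c - 1)) ≤ t.M c + (r - k) := by
  obtain ⟨j, j0, j1, e⟩ : ∃ j, t.N c ≤ ζ j ∧ ζ j < t.N c + (k + 2) ∧ zc (c + 2) = t.o j := by
    obtain ⟨j, hj, jm⟩ := Int.exists_least_of_bdd (P := fun j => t.N c ≤ ζ j)
      ⟨min 0 (t.N c - ζ 0), fun j hj => by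
        by_contra y
        have := hH.mono (show j ≤ 0 by omega)
        omega⟩
      ⟨max 0 (t.N c - ζ 0), by
        have := hH.mono (show 0 ≤ max 0 (t.N c - ζ 0) by omega)
        omega⟩
    have a : ¬t.N c ≤ ζ (j - 1) := fun y => by have := jm _ y; omega
    have b := hH.per (j - 1)
    rw [show j - 1 + 3 = j + 2 by ring] at b
    have := hH.mono (show j ≤ j + 1 by omega)
    have := hH.mono (show j + 1 ≤ j + 2 by omega)
    rcases t.o_cases j (zc (c + 2)) with y | y | y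
    · exact ⟨j, hj, by omega, y⟩
    · exact ⟨j + 1, by omega, by omega, y⟩
    · exact ⟨j + 2, by omega, by omega, y⟩
  obtain ⟨v, -, -, co, s, hv⟩ := h.wunit' hH j
  have np := t.Nper c
  have f2 := h.F2 hH j
  have sc : t.sg v = c + 1 ∨ t.sg v = c + 2 := by
    have a := t.sg_mono j0
    have b := t.sg_mono (show ζ j ≤ t.N (c + 3) - 1 by omega)
    rw [(t.sg_N _).1] at a
    rw [(t.sg_N _).2] at b
    have : t.sg (ζ j) ≠ c := fun y => f2 (by rw [y]; exact e.symm)
    omega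
  have n1 := h.ne (c + 1)
  rw [show c + 1 + 1 = c + 2 by ring] at n1
  have hz : zc c ≠ t.o j := e ▸ h.ne2 c
  have hz' : zc (c + 1) ≠ t.o j := e ▸ n1
  have w := (t.wis j _ hz).1
  have w' := (t.wis j _ hz').1
  rw [hv _ hz] at w
  rw [hv _ hz'] at w'
  have sv := t.sgs v
  have l1 : t.N (c + 1) ≤ v := by
    have := t.Nmono (show c + 1 ≤ t.sg v by omega)
    omega
  have l2 : v ≤ t.N c - 1 + (k + 2) := by
    have := t.Nmono (show t.sg v + 1 ≤ c + 3 by omega)
    omega
  have g1 := t.Gmono (zc (c + 1)) (h.idx_mono (zc (c + 1)) (show t.N (c + 1) - 1 ≤ v by omega))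
  have g2 := t.Gmono (zc c) (h.idx_mono (zc c) l2)
  have key : t.idx F (zc (c + 1)) v - t.idx F (zc (c + 1)) (t.N (c + 1) - 1) +
      (t.idx F (zc c) (t.N c - 1 + (k + 2)) - t.idx F (zc c) v) = k - t.M c := by
    rw [h.idx_per]
    unfold Tk.idx
    rw [(t.sg_N _).2, (t.sg_N _).2]
    have := t.Ns c
    have := h.F_own c
    have := h.F_own (c + 1)
    have a := h.F_oth n1
    have b := h.F_oth (h.ne c)
    have d := h.F_oth (h.ne2 c)
    rw [show c + 2 - 1 = c + 1 by ring] at a d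
    rw [add_sub_cancel_right] at b
    rcases sc with y | y <;> rw [y] <;> omega
  rw [h.idx_per, t.per] at g2
  rw [h.idx_per] at key
  have key' := congrArg (Int.cast : ℤ → ℝ) key
  push_cast at *
  linarith

lemma lower (hH : Host t ζ) {n : ℤ} (z : ¬t.Zc n) :
    (t.cnt (t.tb n) ≤ 1 → 2 - t.A (n - t.sg n) % 2 ≤ t.cnt (t.tb n + 1)) ∧
      (t.cnt (t.tb n + 1) ≤ 1 → 2 - t.A (n - t.sg n) % 2 ≤ t.cnt (t.tb n)) := by
  have := hH.par n
  have := (t.cell_sum n).resolve_left z
  have := t.cnt_adj (t.tb n)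
  have := t.cnt_adj (t.tb n + 1)
  omega

lemma le_one {x : ℤ} {p q : Fin 3} (e : p ≠ q) (a : ¬t.occ p x) (b : ¬t.occ q x) : t.cnt x ≤ 1 := by
  by_contra y
  exact (t.cnt_two (by omega) e).elim a b

lemma A_shift (hH : Host t ζ) (c g : ℤ) : t.A (t.N c + g - c) % 2 = t.A g % 2 := by
  have := t.A_N c g
  have := hH.S_even c
  rw [show t.N c + g - c = g + (t.N c - c) by ring]
  omega

/-- The third centre has no late second tick in a segment. -/
lemma tail (h : Units t zc F) (hH : Host t ζ) {n : ℤ} (o : t.occ (zc (t.sg n + 2)) (t.tb n + 1))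
    (g : t.N (t.sg n) + t.M (t.sg n + 1) < n) : False := by
  obtain ⟨s, hs⟩ : ∃ s, t.sg n = s := ⟨_, rfl⟩
  have sn := t.sgs n
  rw [hs] at o g sn
  have n1 := h.ne (s + 1)
  rw [show s + 1 + 1 = s + 2 by ring] at n1
  have ns := t.Ns s
  have ms := t.Msum s
  have m0 := hH.M2 s
  have m1 := hH.M2 (s + 1)
  have m2 := hH.M2 (s + 2)
  have sg : ∀ x, t.N s ≤ x → x ≤ n → t.sg x = s := fun x a b => t.sg_eq a (by omega)
  have b1 : ∀ x, t.N s ≤ x → x ≤ n → t.cnt (t.tb x) ≤ 1 := fun x a b =>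
    le_one n1 (sg x a b ▸ h.side_al hH) fun y => h.side_mid hH y o (by rw [sg x a b, hs]) b
  have host : ∀ j, t.N s ≤ ζ j → ζ j < n → t.o j = zc s := by
    intro j a b
    have f2 := h.F2 hH j
    obtain ⟨v, v0, v1, co, sv, hv⟩ := h.wunit' hH j
    rw [sg _ a b.le] at f2 sv
    rcases h.cases (t.o j) s with y | y | y
    · exact y
    · obtain ⟨i, m, q, -, e, l, -, d⟩ := h.prevm s
      obtain ⟨q', e'⟩ := h.occ_al o
      have := t.Nmono (show s - 1 ≤ s by omega)
      refine (h.cross hH (y ▸ h.ne s) (y ▸ n1.symm) hv q q' e rfl (by omega) (by omega)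
        (by rw [sv]; exact d) ?_).elim
      rw [e', sv]
      unfold Tk.idx Tk.tb
      rw [hs]; ring
    · exact absurd y f2
  have z1 : t.Zc (t.N s + t.M (s + 1)) := by
    have a := t.gap_zero s
    have b := hH.par (t.N s + t.M (s + 1))
    have d := b1 (t.N s + t.M (s + 1)) (by omega) (by omega)
    have e : t.tb (t.N s + t.M (s + 1)) + 1 = t.sig s + (2 * t.M (s + 1) + 1) := by
      unfold Tk.tb Tk.sig; rw [sg _ (by omega) (by omega)]; ring
    have := (t.cnt_adj (t.tb (t.N s + t.M (s + 1)))).1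
    rw [← e] at a
    exact ⟨by omega, a⟩
  obtain ⟨j, ej⟩ := hH.all _ z1
  have oj := host j (by omega) (by omega)
  have nz : ∀ x, t.N s - 1 ≤ x → x < t.N s + t.M (s + 1) → ¬t.Zc x := by
    intro x a b z
    obtain ⟨i, rfl⟩ := hH.all x z
    have oi : t.o i = zc s := by
      rcases eq_or_lt_of_le a with y | y
      · exact h.host_last hH y.symm
      · exact host i (by omega) (by omega)
    have := hH.far (i := i) (j := j) (by omega) (oi.trans oj.symm)
    omega
  have sec : ∀ ρ, 0 ≤ ρ → ρ < t.M (s + 1) →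
      2 - t.A ρ % 2 ≤ cnf t.N t.Q t.wc t.wu (tkf t.N s (1 + 2 * ρ)) := by
    intro ρ a b
    have := (lower hH (nz (t.N s + ρ) (by omega) (by omega))).1 (b1 _ (by omega) (by omega))
    rw [sg _ (by omega) (by omega), A_shift hH] at this
    rwa [show tkf t.N s (1 + 2 * ρ) = t.tb (t.N s + ρ) + 1 by
      unfold tkf Tk.tb; rw [sg _ (by omega) (by omega)]; ring]
  have a0 := t.A0
  have a1 := hH.Amul (s + 1) 0 1
  rw [zero_add, mul_one] at a1
  refine (sum_gt (f := fun ρ => t.A ρ % 2) (x := t.M (s + 1) - 1) (by omega) (by omega) a1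
    (fun ρ a b => ?_) ?_).ne (t.wsum s).symm
  · have := sec ρ a b
    have := t.par1 s ρ a b
    have := (t.cnt_adj (tkf t.N s (1 - 2 * t.M (s + 1) + 2 * ρ))).1
    unfold Tk.cnt at this
    omega
  · have := sec (t.M (s + 1) - 1) (by omega) (by omega)
    have c := (t.cell_sum _).resolve_left (nz (t.N s - 1) le_rfl (by omega))
    rw [(t.tb_N s).2, sub_add_cancel, hH.sig] at c
    rw [show tkf t.N s (1 - 2 * t.M (s + 1) + 2 * (t.M (s + 1) - 1)) = t.sig s - 1 by
      unfold tkf Tk.sig; ring, sub_add_cancel]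
    unfold Tk.cnt at c
    omega

/-- The third centre has no early first tick in a segment. -/
lemma head (h : Units t zc F) (hH : Host t ζ) {n : ℤ} (o : t.occ (zc (t.sg n + 2)) (t.tb n))
    (g : n + t.M (t.sg n + 2) + 1 < t.N (t.sg n + 1)) : False := by
  obtain ⟨s, hs⟩ : ∃ s, t.sg n = s := ⟨_, rfl⟩
  have sn := t.sgs n
  rw [hs] at o g sn
  have n1 := h.ne (s + 1)
  rw [show s + 1 + 1 = s + 2 by ring] at n1
  have ns := t.Ns s
  have ns' := t.Ns (s + 1)
  have ms := t.Msum s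
  have m0 := hH.M2 s
  have m1 := hH.M2 (s + 1)
  have m2 := hH.M2 (s + 2)
  have sg : ∀ x, n ≤ x → x < t.N (s + 1) → t.sg x = s := fun x a b => t.sg_eq (by omega) b
  have b1 : ∀ x, n ≤ x → x < t.N (s + 1) → t.cnt (t.tb x + 1) ≤ 1 := fun x a b =>
    le_one (h.ne2 s) (sg x a b ▸ h.side_be hH) fun y => h.side_mid hH o y (by rw [sg x a b, hs]) a
  have host : ∀ j, n ≤ ζ j → ζ j < t.N (s + 1) → t.o j = zc (s + 1) := by
    intro j a b
    have f2 := h.F2 hH j
    obtain ⟨v, v0, v1, co, sv, hv⟩ := h.wunit' hH j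
    rw [sg _ a b] at f2 sv
    rcases h.cases (t.o j) s with y | y | y
    · obtain ⟨i', m', q', -, e', l', -, d'⟩ := h.nextm (s + 1)
      obtain ⟨i, q, e⟩ := o
      have e0 : t.tau _ i = t.tb n := e
      have x0 := h.qb _ i n q e
      have x1 : t.N s < n := by
        have := hH.off q s
        unfold Tk.tb at e0
        unfold Tk.sig at this
        omega
      have x2 : t.sg (n - 1) = s := t.sg_eq (by omega) (by omega)
      have f := h.F_own (s + 1)
      rw [add_sub_cancel_right] at f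
      refine (h.cross (m := n - 1) hH (y ▸ (h.ne2 s).symm) (y ▸ (h.ne s).symm) hv q q'
        (by unfold Tk.idx; rw [x2, x0, hs]) e' (by omega) (by omega) ?_ (by rw [sv]; omega)).elim
      rw [e0, sv, x0, hs]
      unfold Tk.tb
      rw [hs]; ring
    · exact y
    · exact absurd y f2
  have z1 : t.Zc (t.N (s + 1) - 1 - t.M (s + 2)) := by
    have a := t.gap_zero (s - 1)
    have b := hH.par (t.N (s + 1) - 1 - t.M (s + 2))
    have d := b1 (t.N (s + 1) - 1 - t.M (s + 2)) (by omega) (by omega)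
    have n0 := t.Ns (s - 1)
    have p0 := t.Mper (s - 1)
    rw [sub_add_cancel] at a n0
    rw [show s - 1 + 3 = s + 2 by ring] at p0
    have e : t.tb (t.N (s + 1) - 1 - t.M (s + 2)) = t.sig (s - 1) + (2 * t.M s + 1) := by
      unfold Tk.tb Tk.sig; rw [sg _ (by omega) (by omega)]; omega
    have := (t.cnt_adj (t.tb (t.N (s + 1) - 1 - t.M (s + 2)) + 1)).1
    rw [← e] at a
    exact ⟨a, by omega⟩
  obtain ⟨j, ej⟩ := hH.all _ z1
  have oj := host j (by omega) (by omega)
  have nz : ∀ x, t.N (s + 1) - 1 - t.M (s + 2) < x → x ≤ t.N (s + 1) → ¬t.Zc x := by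
    intro x a b z
    obtain ⟨i, rfl⟩ := hH.all x z
    have oi : t.o i = zc (s + 1) := by
      rcases eq_or_lt_of_le b with y | y
      · exact h.host_first hH y
      · exact host i (by omega) y
    have := hH.far (i := j) (j := i) (by omega) (oj.trans oi.symm)
    omega
  have fst : ∀ ρ, 0 ≤ ρ → ρ < t.M (s + 2) → 2 - t.A (ρ + 1) % 2 ≤
      cnf t.N t.Q t.wc t.wu (tkf t.N (s + 1) (1 - 2 * t.M (s + 2) + 2 * ρ)) := by
    intro ρ a b
    have := (lower hH (nz (t.N (s + 1) - t.M (s + 2) + ρ) (by omega) (by omega))).2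
      (b1 _ (by omega) (by omega))
    have sh := hH.Amul (s + 2) (ρ + 1) (-1)
    rw [sg _ (by omega) (by omega), show t.N (s + 1) - t.M (s + 2) + ρ - s =
      t.N (s + 1) + (ρ + 1 + t.M (s + 2) * -1) - (s + 1) by ring, A_shift hH, sh] at this
    rwa [show tkf t.N (s + 1) (1 - 2 * t.M (s + 2) + 2 * ρ) = t.tb (t.N (s + 1) - t.M (s + 2) + ρ) by
      unfold tkf Tk.tb; rw [sg _ (by omega) (by omega)]; ring]
  have a0 := t.A0
  have a1 := hH.Amul (s + 2) 0 1
  rw [zero_add, mul_one] at a1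
  have w := t.wsum (s + 1)
  have p2 := t.par2 (s + 1)
  have ev := hH.even (s + 2)
  rw [show s + 1 + 1 = s + 2 by ring] at w p2
  refine (sum_gt (f := fun ρ => -(t.A ρ % 2)) (x := 0) le_rfl (by omega) (by simp only [a1])
    (fun ρ a b => ?_) ?_).ne w.symm
  · have := fst ρ a b
    have := p2 ρ a b
    have := (t.cnt_adj (tkf t.N (s + 1) (1 + 2 * ρ))).1
    unfold Tk.cnt at this
    omega
  · have := fst 0 le_rfl (by omega)
    have c := (t.cell_sum _).resolve_left (nz (t.N (s + 1)) (by omega) le_rfl)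
    rw [(t.tb_N (s + 1)).1, hH.sig] at c
    rw [show tkf t.N (s + 1) (1 + 2 * 0) = t.sig (s + 1) + 1 by unfold tkf Tk.sig; ring]
    unfold Tk.cnt at c
    omega

/-- A centre has no leaf item in its own window. -/
lemma F3 (h : Units t zc F) (hH : Host t ζ) {c i : ℤ} (q : t.Q (zc c) i) : t.wc (zc c) i ≠ c := by
  intro e
  have w := t.win _ i q
  rw [e] at w
  obtain ⟨n, hn⟩ := t.cell (t.tau (zc c) i)
  have sn := t.sgs n
  have ns := t.Ns (t.sg n)
  have tb := t.tb_sig n
  have l := t.loc (c := t.sg n) (x := t.tau (zc c) i - t.sig (t.sg n)) q (by ring) (by omega)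
    (by omega)
  rw [e] at l
  rcases l with ⟨a, b⟩ | ⟨a, b⟩ | ⟨a, b⟩ | ⟨a, b⟩
  · exact h.side_be hH (n := n) ⟨i, a ▸ q, by rw [← a]; change t.tau _ _ = _; omega⟩
  · exact h.side_al hH (n := n) ⟨i, a ▸ q, by rw [← a]; change t.tau _ _ = _; omega⟩
  · have p := h.per c
    rw [show c + 1 = t.sg n by omega] at w
    have y : zc (t.sg n + 2) = zc c := by rw [← p, show c + 3 = t.sg n + 2 by omega]
    exact h.head hH (n := n) ⟨i, y ▸ q, by rw [y]; change t.tau _ _ = _; omega⟩ (by omega)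
  · have p := t.Mper (t.sg n)
    rw [show c + 1 = t.sg n + 3 by omega] at w
    exact h.tail hH (n := n) ⟨i, a ▸ q, by rw [← a]; change t.tau _ _ = _; omega⟩ (by omega)

end Units

theorem Tk.out {k : ℤ} {r : ℝ} (t : Tk k r) : t.Out := by
  obtain ⟨ζ, hH⟩ := t.exists_host
  obtain ⟨zc, F, h⟩ := hH.exists_units
  refine ⟨zc, fun c => t.idx F (zc c) (t.N c - 1), fun c => ⟨h.per c, h.ne c⟩, h.F1 hH,
    fun c => ?_, h.gap hH, fun c i q => h.F3 hH q⟩
  show t.idx F (zc (c + 3)) (t.N (c + 3) - 1) = _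
  rw [h.per, t.Nper, show t.N c + (k + 2) - 1 = t.N c - 1 + (k + 2) by ring, h.idx_per]

end Pool.Agent.P.MP_3f5ded_co.UG
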