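import Pool.Agent.P.MP_3f5ded_co.USHel

set_option autoImplicit false

namespace Pool.Agent.P.MP_3f5ded_co.UG

open Sum Finset
open scoped Classical

lemma fill_Ico {A : Type} {S : Finset A} {f : A → ℤ} {lo n : ℤ} (hc : (S.card : ℤ) = n)
    (hr : ∀ e ∈ S, lo ≤ f e ∧ f e < lo + n) (hi : ∀ e ∈ S, ∀ e' ∈ S, f e = f e' → e = e') {l : ℤ}
    (l0 : lo ≤ l) (l1 : l < lo + n) : ∃ e ∈ S, f e = l := by
  have sb : S.image f ⊆ Ico lo (lo + n) := fun j hj => by
    obtain ⟨e, he, rfl⟩ := mem_image.mp hj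
    exact mem_Ico.mpr (hr e he)
  have c := card_image_of_injOn (s := S) (f := f) fun e he e' he' d => hi e he e' he' d
  have := eq_of_subset_of_card_le sb (by rw [Int.card_Ico]; omega)
  exact mem_image.mp (this ▸ mem_Ico.mpr ⟨l0, l1⟩)

/-- An involution has as many fixed points as points, modulo two. -/
lemma card_fix_par {A : Type} (S : Finset A) (f : A → A) (h1 : ∀ x ∈ S, f x ∈ S)
    (h2 : ∀ x ∈ S, f (f x) = x) : ((S.filter fun x => f x = x).card : ℤ) % 2 = S.card % 2 := by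
  have s0 : ∑ _x ∈ S.filter (fun x => ¬f x = x), (1 : ZMod 2) = 0 :=
    sum_involution (fun x _ => f x) (fun _ _ => by decide) (fun x hx _ => (mem_filter.mp hx).2)
      (fun x hx => by
        obtain ⟨a, b⟩ := mem_filter.mp hx
        exact mem_filter.mpr ⟨h1 x a, by rw [h2 x a]; exact Ne.symm b⟩)
      fun x hx => h2 x (mem_filter.mp hx).1
  rw [sum_const, nsmul_eq_mul, mul_one, ZMod.natCast_eq_zero_iff_even] at s0
  have := card_filter_add_card_filter_not (s := S) fun x => f x = x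
  obtain ⟨n, hn⟩ := s0
  omega

/-- The least starts of the three classes. -/
structure Sta {Q : Type} (k : ℕ) (cl : Q → Fin 3) (m : Fin 3 → ℕ) (σ : Q → ℤ) (S : Fin 3 → ℤ) :
    Prop where
  lo : ∀ q, S (cl q) ≤ σ q
  hi : ∀ q, σ q < S (cl q) + m (cl q)
  nx : ∀ j, S (j + 1) + lf j (j + 1) * (2 * k + 1) = S j + k - m (j + 1)
  ex : ∀ j, ∃ q, cl q = j ∧ σ q = S j

/-- The number of leaves of the class `j` that start before the index `g`. -/
noncomputable def nB {Q : Type} [Fintype Q] (cl : Q → Fin 3) (σ : Q → ℤ) (S : Fin 3 → ℤ) (j : Fin 3)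
    (g : ℤ) : ℤ := (univ.filter fun q => cl q = j ∧ σ q - S j < g).card

/-- The label `a` lies in the middle block of the leaf `q`. -/
def Ow {Q : Type} (cl : Q → Fin 3) (m : Fin 3 → ℕ) (σ : Q → ℤ) (q : Q) (a : ℤ) : Prop :=
  σ q + m (cl q - 1) ≤ a ∧ a ≤ σ q + m (cl q - 1) + m (cl q)

/-- The edges between leaves and centres. -/
def outP {Q : Type} [Fintype Q] (sr : Q → Fin 3) : Finset (Q × Fin 3) :=
  univ.filter fun p => p.2 ≠ sr p.1

lemma mem_outP {Q : Type} [Fintype Q] {sr : Q → Fin 3} {p : Q × Fin 3} :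
    p ∈ outP sr ↔ p.2 ≠ sr p.1 := by simp [outP]

lemma card_outP {Q : Type} [Fintype Q] (sr : Q → Fin 3) (D : Finset Q) :
    ((outP sr).filter fun p => p.1 ∈ D).card = 2 * D.card := by
  rw [card_eq_sum_card_fiberwise (s := (outP sr).filter fun p => p.1 ∈ D) (t := D) (f := Prod.fst)
    fun p hp => (mem_filter.mp hp).2, sum_congr rfl (g := fun _ => 2), sum_const, smul_eq_mul, mul_comm]
  intro q hq
  have : ((outP sr).filter fun p => p.1 ∈ D).filter (fun p => p.1 = q) =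
      (univ.erase (sr q)).image fun i => (q, i) := by
    ext ⟨y, i⟩
    simp only [mem_filter, mem_outP, mem_image, mem_erase, mem_univ, and_true, Prod.mk.injEq]
    constructor
    · rintro ⟨⟨a, -⟩, rfl⟩; exact ⟨i, a, rfl, rfl⟩
    · rintro ⟨j, a, rfl, rfl⟩; exact ⟨⟨a, hq⟩, rfl⟩
  rw [this, card_image_of_injective _ fun _ _ e => (Prod.ext_iff.mp e).2,
    card_erase_of_mem (mem_univ _), card_univ, Fintype.card_fin]

/-- The number of edges to centres at the label `l`. -/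
noncomputable def nL {Q : Type} [Fintype Q] (sr : Q → Fin 3) (H : Q → Q ⊕ Fin 3 → ℤ) (l : ℤ) : ℤ :=
  ((outP sr).filter fun p => H p.1 (inr p.2) = l).card

lemma f3a : ∀ i j : Fin 3, (j + 1 = i ↔ j = i - 1) ∧ i + 1 ≠ i ∧ i + 1 - 1 = i ∧ i - 1 + 1 = i ∧
    lf i i = 0 := by decide

lemma f3c (i : Fin 3) : i = 0 ∨ i = 1 ∨ i = 2 := by revert i; decide

namespace Hel
variable {Q : Type} [Fintype Q] {k : ℕ} {r : ℝ} {sr : Q → Fin 3} {C : Q → Q ⊕ Fin 3 → ℝ}
  {cl : Q → Fin 3} {m : Fin 3 → ℕ} {σ : Q → ℤ} {H : Q → Q ⊕ Fin 3 → ℤ} {T : Q → ℤ → ℝ}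
  {S : Fin 3 → ℤ} {q y : Q}

omit [Fintype Q] in
lemma ne_next (e : cl y = cl q + 1) : y ≠ q := fun d => (f3a (cl q) 0).2.1 (by rw [← e, d])

lemma late_fill (h : Hel k r sr C cl m σ H T) {l : ℤ} (l0 : σ q + k - m (cl q + 1) ≤ l)
    (l1 : l < σ q + k) : ∃ y, cl y = cl q + 1 ∧ H q (inl y) = l := by
  obtain ⟨y, a, b⟩ := fill_Ico (S := univ.filter fun y => cl y = cl q + 1) (f := fun y => H q (inl y))
    (lo := σ q + k - m (cl q + 1)) (n := m (cl q + 1)) (by rw [h.card]) (fun y hy => by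
      have e := (mem_filter.mp hy).2
      have := h.late q y e
      rw [e] at this
      omega) (fun y hy z hz d => inl.inj (h.inj q (inl y) (inl z) (ne_next (mem_filter.mp hy).2)
        (ne_next (mem_filter.mp hz).2) d)) l0 (by omega)
  exact ⟨y, (mem_filter.mp a).2, b⟩

lemma early_fill (h : Hel k r sr C cl m σ H T) {j : Fin 3} (e : cl q = j + 1) {l : ℤ} (l0 : σ q ≤ l)
    (l1 : l < σ q + m j) : ∃ y, cl y = j ∧ H q (inl y) = l := by
  have n : ∀ y ∈ univ.filter fun y => cl y = j, cl q = cl y + 1 := fun y hy => by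
    rw [(mem_filter.mp hy).2, e]
  obtain ⟨y, a, b⟩ := fill_Ico (S := univ.filter fun y => cl y = j) (f := fun y => H q (inl y))
    (lo := σ q) (n := m j) (by rw [h.card]) (fun y hy => by
      have := h.early q y (n y hy).symm
      rwa [(mem_filter.mp hy).2] at this)
      (fun y hy z hz d => inl.inj (h.inj q (inl y) (inl z) (ne_next (n y hy)).symm
        (ne_next (n z hz)).symm d)) l0 l1
  exact ⟨y, (mem_filter.mp a).2, b⟩

lemma own_fill (h : Hel k r sr C cl m σ H T) {l : ℤ} (o : Ow cl m σ q l) :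
    ∃ e, H q e = l ∧ Va sr q e ∧ ∀ y, e = inl y → cl y = cl q := by
  have mem : ∀ e ∈ ((univ.filter fun y => cl y = cl q).erase q).disjSum (univ.erase (sr q)),
      Va sr q e ∧ ∀ y, e = inl y → cl y = cl q := by
    rintro (y | i) he
    · obtain ⟨a, b⟩ := mem_erase.mp (inl_mem_disjSum.mp he)
      exact ⟨a, fun z d => inl.inj d ▸ (mem_filter.mp b).2⟩
    · exact ⟨(mem_erase.mp (inr_mem_disjSum.mp he)).1, fun _ d => by cases d⟩
  obtain ⟨e, a, b⟩ := fill_Ico (f := H q) (lo := σ q + m (cl q - 1)) (n := m (cl q) + 1)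
    (S := ((univ.filter fun y => cl y = cl q).erase q).disjSum (univ.erase (sr q))) (by
      have := card_erase_add_one (s := univ.filter fun y => cl y = cl q) (a := q) (by simp)
      rw [card_disjSum, card_erase_of_mem (mem_univ (sr q)), card_univ, Fintype.card_fin,
        ← h.card]
      omega) (by
      rintro (y | i) he
      · have := h.own q y (mem _ he).1 ((mem _ he).2 y rfl)
        omega
      · have := h.out q i (mem _ he).1
        omega) (fun e he e' he' d => h.inj q e e' (mem e he).1 (mem e' he').1 d) o.1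
      (by have := o.2; omega)
  exact ⟨e, b, mem e a⟩

lemma exists_sta (h : Hel k r sr C cl m σ H T) : ∃ S, Sta k cl m σ S := by
  have ex : ∀ j, ∃ q, cl q = j ∧ ∀ y, cl y = j → σ q ≤ σ y := fun j => by
    obtain ⟨q, a, b⟩ := exists_min_image (univ.filter fun q => cl q = j) σ
      (card_pos.mp (by rw [h.card]; exact h.pos j))
    exact ⟨q, (mem_filter.mp a).2, fun y e => b y (mem_filter.mpr ⟨mem_univ _, e⟩)⟩
  choose b b1 b2 using ex
  have nx : ∀ j, σ (b (j + 1)) + lf j (j + 1) * (2 * k + 1) = σ (b j) + k - m (j + 1) := fun j => by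
    have := h.pos j
    have := h.pos (j + 1)
    obtain ⟨y, e1, e2⟩ := h.late_fill (q := b j) le_rfl (by rw [b1]; omega)
    obtain ⟨x, e3, e4⟩ := h.early_fill (b1 (j + 1)) le_rfl (by omega)
    have e5 : cl (b (j + 1)) = cl x + 1 := by rw [b1, e3]
    have a1 := h.lab _ y (ne_next e1)
    have a2 := (h.early y _ e1.symm).1
    have a3 := h.lab x _ (ne_next e5)
    have a4 := (h.late x _ e5).1
    rw [b1] at e1 e2
    have a5 := b2 _ y e1
    have a6 := b2 _ x e3
    rw [b1, e1] at a1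
    rw [b1, e3] at a3
    rw [b1] at a4
    omega
  refine ⟨fun j => σ (b j), fun q => b2 _ q rfl, fun q => ?_, nx, fun j => ⟨b j, b1 j, rfl⟩⟩
  have e : cl q = cl (b (cl q - 1)) + 1 := by rw [b1, (f3a _ 0).2.2.2.1]
  have a1 := h.lab _ q (ne_next e)
  have a2 := (h.early q _ e.symm).1
  have a3 := (h.late _ q e).2
  have a4 := nx (cl q - 1)
  rw [(f3a _ 0).2.2.2.1] at a4
  rw [b1] at a1
  omega

lemma nB_zero (s : Sta k cl m σ S) (j : Fin 3) {g : ℤ} (hg : g ≤ 0) : nB cl σ S j g = 0 := by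
  unfold nB
  rw [filter_eq_empty_iff.mpr, card_empty, Nat.cast_zero]
  rintro q - ⟨rfl, b⟩
  have := s.lo q
  omega

lemma nB_full (h : Hel k r sr C cl m σ H T) (s : Sta k cl m σ S) (j : Fin 3) {g : ℤ}
    (hg : m j ≤ g) : nB cl σ S j g = m j := by
  unfold nB
  rw [← h.card j]
  congr 2
  ext q
  simp only [mem_filter, mem_univ, true_and]
  refine and_iff_left_of_imp ?_
  rintro rfl
  have := s.hi q
  omega

lemma nB_sub (j : Fin 3) {g g' : ℤ} (hg : g' ≤ g) :
    ((univ.filter fun q => cl q = j ∧ g' ≤ σ q - S j ∧ σ q - S j < g).card : ℤ) =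
      nB cl σ S j g - nB cl σ S j g' := by
  have := card_filter_add_card_filter_not (s := univ.filter fun q => cl q = j ∧ σ q - S j < g)
    fun q => σ q - S j < g'
  rw [filter_filter, filter_filter, filter_congr (q := fun q => cl q = j ∧ σ q - S j < g')
    fun q _ => by omega, filter_congr (p := fun q => (cl q = j ∧ σ q - S j < g) ∧ ¬σ q - S j < g')
    (q := fun q => cl q = j ∧ g' ≤ σ q - S j ∧ σ q - S j < g) fun q _ => by omega] at this
  unfold nB
  omega

/-- The same number of leaves is active on both sides at every cross label. -/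
lemma cross (h : Hel k r sr C cl m σ H T) (s : Sta k cl m σ S) (j : Fin 3) (g : ℤ) :
    nB cl σ S j g - nB cl σ S j (g - m (j + 1)) =
      nB cl σ S (j + 1) g - nB cl σ S (j + 1) (g - m j) := by
  rw [← nB_sub j (by omega), ← nB_sub (j + 1) (by omega)]
  have nx := s.nx j
  have key : ∀ x y, cl x = j → cl y = j + 1 → y ≠ x ∧
      H x (inl y) = H y (inl x) + lf j (j + 1) * (2 * k + 1) ∧
      (σ y ≤ H y (inl x) ∧ H y (inl x) < σ y + m j) ∧
      σ x + k - m (j + 1) ≤ H x (inl y) ∧ H x (inl y) < σ x + k := by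
    rintro x y rfl e
    have a := h.lab x y (ne_next e)
    have b := h.late x y e
    rw [e] at a b
    exact ⟨ne_next e, a, h.early y x e.symm, b⟩
  congr 1
  refine le_antisymm
    (card_le_card_of_forall_subsingleton (fun x y => H y (inl x) = S (j + 1) + g - 1) ?_ ?_)
    (card_le_card_of_forall_subsingleton (fun y x => H y (inl x) = S (j + 1) + g - 1) ?_ ?_)
  · intro x hx
    obtain ⟨a, b, c⟩ := (mem_filter.mp hx).2
    obtain ⟨y, e1, e2⟩ := h.late_fill (q := x) (l := S j + k - m (j + 1) + g - 1)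
      (by rw [a]; omega) (by omega)
    rw [a] at e1
    have := key x y a e1
    exact ⟨y, mem_filter.mpr ⟨mem_univ _, e1, by omega, by omega⟩, by omega⟩
  · rintro y hy x ⟨hx, e⟩ x' ⟨hx', e'⟩
    have b := (mem_filter.mp hy).2.1
    exact inl.inj (h.inj y (inl x) (inl x') (key x y (mem_filter.mp hx).2.1 b).1.symm
      (key x' y (mem_filter.mp hx').2.1 b).1.symm (e.trans e'.symm))
  · intro y hy
    obtain ⟨a, b, c⟩ := (mem_filter.mp hy).2
    obtain ⟨x, e1, e2⟩ := h.early_fill a (l := S (j + 1) + g - 1) (by omega) (by omega)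
    have := key x y e1 a
    exact ⟨x, mem_filter.mpr ⟨mem_univ _, e1, by omega, by omega⟩, e2⟩
  · rintro x hx y ⟨hy, e⟩ y' ⟨hy', e'⟩
    have a := key x y (mem_filter.mp hx).2.1 (mem_filter.mp hy).2.1
    have a' := key x y' (mem_filter.mp hx).2.1 (mem_filter.mp hy').2.1
    exact inl.inj (h.inj x (inl y) (inl y') a.1 a'.1 (by omega))

/-- One counting function for the starts of all three classes. -/
lemma exists_A (h : Hel k r sr C cl m σ H T) (s : Sta k cl m σ S) : ∃ A : ℤ → ℤ,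
    (∀ j g, A (g + m j) = A g + m j) ∧
      ∀ j (g : ℤ), 0 ≤ g → g ≤ m j → A g = nB cl σ S j g := by
  set A : Fin 3 → ℤ → ℤ := fun j g => g / m j * m j + nB cl σ S j (g % m j) with hA
  have p : ∀ j, (0 : ℤ) < m j := fun j => by exact_mod_cast h.pos j
  have a1 : ∀ j g, A j (g + m j) = A j g + m j := fun j g => by
    simp only [hA]
    rw [Int.add_emod_right, Int.add_ediv_of_dvd_right dvd_rfl, Int.ediv_self (p j).ne']
    ring
  have a0 : ∀ j, A j 0 = 0 := fun j => by simp [hA, nB_zero s j le_rfl]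
  have a2 : ∀ j (g : ℤ), 0 ≤ g → g ≤ m j → A j g = nB cl σ S j g := fun j g g0 g1 => by
    rcases lt_or_eq_of_le g1 with c | rfl
    · simp only [hA]
      rw [Int.emod_eq_of_lt g0 c, Int.ediv_eq_zero_of_lt g0 c]
      ring
    · have := a1 j 0
      rw [zero_add, a0] at this
      rw [this, h.nB_full s j le_rfl, zero_add]
  have a3 : ∀ j (n : ℕ) g, A j (g + n * m j) = A j g + n * m j := fun j n g => by
    induction n with
    | zero => simp
    | succ n ih =>
      push_cast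
      rw [show g + (n + 1) * m j = g + n * m j + m j by ring, a1, ih]
      ring
  set P : Fin 3 → ℤ → ℤ := fun j g => if g ≤ 0 then 0 else A j g with hP
  have b1 : ∀ j g, P j g - P j (g - m j) = nB cl σ S j g := fun j g => by
    have := p j
    have e := a1 j (g - m j)
    rw [sub_add_cancel] at e
    simp only [hP]
    split_ifs with c d d
    · rw [nB_zero s j c]; rfl
    · omega
    · rw [a2 j g (by omega) (by omega), sub_zero]
    · rw [h.nB_full s j (by omega)]; omega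
  have b2 : ∀ j (n : ℕ) (g : ℤ), g ≤ n → P j g = P (j + 1) g := fun j n => by
    induction n with
    | zero => intro g c; simp only [hP]; rw [if_pos (by simpa using c), if_pos (by simpa using c)]
    | succ n ih =>
      intro g c
      have := p j
      have := p (j + 1)
      have e := h.cross s j g
      rw [← b1, ← b1, ← b1, ← b1, ih (g - m j) (by omega), ih (g - m (j + 1)) (by omega),
        ih (g - m (j + 1) - m j) (by omega), sub_right_comm g (m j)] at e
      omega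
  have b3 : ∀ j g, A j g = A (j + 1) g := fun j g => by
    set n := g.natAbs + 1 with hn
    have e1 := a3 j (n * m (j + 1)) g
    have e2 := a3 (j + 1) (n * m j) g
    have c : 0 < g + (n * m (j + 1) : ℕ) * m j := by
      have : (n : ℤ) * 1 ≤ n * (m (j + 1) * m j) :=
        mul_le_mul_of_nonneg_left (mul_pos (p _) (p _)) (by omega)
      push_cast
      rw [mul_assoc]
      omega
    have e3 := b2 j _ _ (Int.le_natAbs (a := g + (n * m (j + 1) : ℕ) * m j))
    have e4 : ((n * m j : ℕ) : ℤ) * m (j + 1) = (n * m (j + 1) : ℕ) * m j := by push_cast; ring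
    simp only [hP] at e3
    rw [if_neg c.not_ge, if_neg c.not_ge] at e3
    rw [e4] at e2
    omega
  have b4 : ∀ j g, A 0 g = A j g := fun j g => by
    rcases f3c j with rfl | rfl | rfl
    · rfl
    · exact b3 0 g
    · exact (b3 0 g).trans (b3 1 g)
  exact ⟨A 0, fun j g => by rw [b4 j, b4 j g, a1], fun j g g0 g1 => by rw [b4 j, a2 j g g0 g1]⟩

lemma hall_lo (h : Hel k r sr C cl m σ H T) (s : Sta k cl m σ S) (h2 : 2 ≤ m 1) :
    2 ≤ nB cl σ S 1 2 := by
  obtain ⟨x, a, b⟩ := s.ex 0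
  have nx := s.nx 0
  have := card_le_card_of_forall_subsingleton (s := Ico (0 : ℤ) 2)
    (t := univ.filter fun q => cl q = 1 ∧ σ q - S 1 < 2) (fun l y => H x (inl y) = S 1 + l)
    (fun l hl => by
      obtain ⟨l0, l1⟩ := mem_Ico.mp hl
      change S 1 + 0 * _ = S 0 + k - m 1 at nx
      obtain ⟨y, e1, e2⟩ := h.late_fill (q := x) (l := S 1 + l)
        (by rw [a]; change _ - (m 1 : ℤ) ≤ _; omega) (by omega)
      have a1 := h.lab x y (ne_next e1)
      have a2 := (h.early y x e1.symm).1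
      rw [a] at e1
      rw [a, e1] at a1
      change _ = _ + 0 * _ at a1
      exact ⟨y, mem_filter.mpr ⟨mem_univ _, e1, by omega⟩, e2⟩)
    fun y _ l ⟨_, e⟩ l' ⟨_, e'⟩ => by omega
  unfold nB
  simp only [Int.card_Ico] at this
  omega

lemma hall_hi (h : Hel k r sr C cl m σ H T) (s : Sta k cl m σ S) (h2 : 2 ≤ m 0)
    (hy : nB cl σ S 1 (m 1 - 1) ≠ m 1) : nB cl σ S 0 2 ≤ 2 := by
  have c := nB_sub (cl := cl) (σ := σ) (S := S) 1 (show (m 1 : ℤ) - 1 ≤ m 1 by omega)
  rw [h.nB_full s 1 le_rfl] at c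
  obtain ⟨y, hy⟩ := card_ne_zero.mp (show (univ.filter fun q =>
    cl q = 1 ∧ (m 1 : ℤ) - 1 ≤ σ q - S 1 ∧ σ q - S 1 < m 1).card ≠ 0 by omega)
  obtain ⟨a, b, -⟩ := (mem_filter.mp hy).2
  have nx := s.nx 0
  change S 1 + 0 * _ = S 0 + k - m 1 at nx
  have := card_le_card_of_forall_subsingleton (s := Ico (2 : ℤ) (m 0))
    (t := univ.filter fun q => cl q = 0 ∧ 2 ≤ σ q - S 0 ∧ σ q - S 0 < m 0)
    (fun l x => H y (inl x) = σ y + l) (fun l hl => by
      obtain ⟨l0, l1⟩ := mem_Ico.mp hl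
      obtain ⟨x, e1, e2⟩ := h.early_fill (j := 0) a (l := σ y + l) (by omega) (by omega)
      have e3 : cl y = cl x + 1 := by rw [a, e1]; rfl
      have a1 := h.lab x y (ne_next e3)
      have a2 := (h.late x y e3).2
      have a3 := s.hi x
      rw [e1] at a3
      rw [a, e1] at a1
      change _ = _ + 0 * _ at a1
      exact ⟨x, mem_filter.mpr ⟨mem_univ _, e1, by omega, by omega⟩, e2⟩)
    fun x _ l ⟨_, e⟩ l' ⟨_, e'⟩ => by omega
  have d := nB_sub (cl := cl) (σ := σ) (S := S) 0 (show (2 : ℤ) ≤ m 0 by omega)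
  rw [h.nB_full s 0 le_rfl] at d
  simp only [Int.card_Ico] at this
  omega

lemma mono1 (h : Hel k r sr C cl m σ H T) {a b : ℤ} (e : cl y = cl q + 1) (oa : Ow cl m σ q a)
    (ob : Ow cl m σ y b) :
    T q a - a ≤ T y b - b + lf (cl q) (cl y) * (2 * r - (2 * k + 1)) := by
  have a1 := h.late q y e
  have a2 := h.early y q e.symm
  have a3 := h.tot' (cl q)
  have a4 := h.tim q y (ne_next e)
  have a5 : (H q (inl y) : ℝ) = H y (inl q) + lf (cl q) (cl y) * (2 * k + 1) := by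
    exact_mod_cast h.lab q y (ne_next e)
  unfold Ow at oa ob
  rw [e] at a1
  rw [e, (f3a _ 0).2.2.1] at ob
  have b1 := (h.fr q).mono' (show a ≤ H q (inl y) by omega)
  have b2 := (h.fr y).mono' (show H y (inl q) ≤ b by omega)
  linarith

lemma mono0 (h : Hel k r sr C cl m σ H T) {a b : ℤ} (e : cl y = cl q) (oa : Ow cl m σ q a)
    (ob : Ow cl m σ y b) (d : b + m (cl q) ≤ a) : T y b - b ≤ T q a - a := by
  by_cases c : y = q
  · subst c
    exact (h.fr y).mono' (by omega)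
  have a1 := h.own q y c e
  have a2 := h.own y q (Ne.symm c) e.symm
  have a4 := h.tim q y c
  have a5 := h.lab q y c
  unfold Ow at oa ob
  rw [e] at a2 ob
  rw [e, (f3a _ 0).2.2.2.2] at a4 a5
  have b1 := (h.fr y).mono' (show b ≤ H y (inl q) by omega)
  have b2 := (h.fr q).mono' (show H q (inl y) ≤ a by omega)
  have a6 : (H q (inl y) : ℝ) = H y (inl q) := by exact_mod_cast (show _ = _ by omega)
  push_cast at a4
  linarith

lemma monoT (h : Hel k r sr C cl m σ H T) (s : Sta k cl m σ S) {a b t : ℤ} (oa : Ow cl m σ q a)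
    (ob : Ow cl m σ y b) (e : ((cl y : ℕ) : ℤ) < (cl q : ℕ) + 3 * t) :
    T y b - b ≤ T q a - a + t * (2 * r - (2 * k + 1)) := by
  choose p p1 _ using s.ex
  have o : ∀ j, Ow cl m σ (p j) (σ (p j) + m (cl (p j) - 1)) := fun j => ⟨le_rfl, by omega⟩
  have c01 := h.mono1 (q := p 0) (y := p 1) (by rw [p1, p1]; rfl) (o 0) (o 1)
  have c12 := h.mono1 (q := p 1) (y := p 2) (by rw [p1, p1]; rfl) (o 1) (o 2)
  have c20 := h.mono1 (q := p 2) (y := p 0) (by rw [p1, p1]; rfl) (o 2) (o 0)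
  have cy := h.mono1 (q := y) (y := p (cl y + 1)) (p1 _) ob (o _)
  have cq := h.mono1 (q := p (cl q - 1)) (y := q) (by rw [p1, (f3a _ 0).2.2.2.1]) (o _) oa
  have cd := fun e => h.mono1 (q := y) (y := q) e ob oa
  generalize (2 * r - (2 * k + 1)) = u at *
  set O : Fin 3 → ℝ := fun j => T (p j) (σ (p j) + m (cl (p j) - 1)) - ((σ (p j) +
    m (cl (p j) - 1) : ℤ) : ℝ) with hO
  change O 0 ≤ O 1 + _ at c01
  change O 1 ≤ O 2 + _ at c12
  change O 2 ≤ O 0 + _ at c20
  change _ ≤ O (cl y + 1) + _ at cy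
  change O (cl q - 1) ≤ _ at cq
  clear_value O
  rw [p1, p1] at c01 c12 c20
  rw [p1] at cy cq
  have l : lf 0 1 = 0 ∧ lf 1 2 = 0 ∧ lf 2 0 = 1 := by decide
  have n : (0 + 1 : Fin 3) = 1 ∧ (1 + 1 : Fin 3) = 2 ∧ (2 + 1 : Fin 3) = 0 ∧ (0 - 1 : Fin 3) = 2 ∧
      (1 - 1 : Fin 3) = 0 ∧ (2 - 1 : Fin 3) = 1 := by decide
  simp only [l, Int.cast_zero, Int.cast_one, zero_mul, one_mul, add_zero] at c01 c12 c20
  have u0 : 0 ≤ u := by linarith
  have t0 : 0 ≤ t := by have := (cl q).2; omega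
  have t1 : t = 0 ∨ u ≤ t * u := by
    rcases eq_or_lt_of_le t0 with c | c
    · exact Or.inl c.symm
    · exact Or.inr (le_mul_of_one_le_left u0 (by exact_mod_cast c))
  rcases f3c (cl y) with c | c | c <;> rcases f3c (cl q) with d | d | d <;>
    simp only [c, d, l, n, Int.cast_zero, Int.cast_one, zero_mul, one_mul, add_zero,
      forall_true_left] at cy cq cd e <;>
    rcases t1 with rfl | t1 <;>
    first
      | (simp at e; done)
      | (simp only [Int.cast_zero, zero_mul, add_zero]; linarith)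
      | linarith

omit [Fintype Q] in
lemma range (s : Sta k cl m σ S) {a : ℤ} (o : Ow cl m σ q a) :
    (cl q = 0 ∧ S 0 + m 2 ≤ a ∧ a < S 0 + m 2 + 2 * m 0) ∨
      (cl q = 1 ∧ S 1 + m 0 ≤ a ∧ a < S 1 + m 0 + 2 * m 1) ∨
      (cl q = 2 ∧ S 2 + m 1 ≤ a ∧ a < S 2 + m 1 + 2 * m 2) := by
  have b1 := s.lo q
  have b2 := s.hi q
  unfold Ow at o
  rcases f3c (cl q) with c | c | c <;> rw [c] at b1 b2 o
  · change _ + (m 2 : ℤ) ≤ _ ∧ _ ≤ _ + (m 2 : ℤ) + _ at o; omega
  · change _ + (m 0 : ℤ) ≤ _ ∧ _ ≤ _ + (m 0 : ℤ) + _ at o; omega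
  · change _ + (m 1 : ℤ) ≤ _ ∧ _ ≤ _ + (m 1 : ℤ) + _ at o; omega

/-- A label of the window of the class `j` determines the label and the class of a leaf. -/
lemma lab_eq (h : Hel k r sr C cl m σ H T) (s : Sta k cl m σ S) {a ρ n : ℤ} {j : Fin 3}
    (o : Ow cl m σ q a) (h0 : 0 ≤ ρ) (h1 : ρ < 2 * m j)
    (e : 2 * (S j + m (j - 1) + ρ - a) = n * (2 * k + 1)) :
    a = S j + m (j - 1) + ρ ∧ cl q = j := by
  have tt := h.tot
  have n0 := s.nx 0
  have n1 := s.nx 1
  change S 1 + 0 * _ = S 0 + k - m 1 at n0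
  change S 2 + 0 * _ = S 1 + k - m 2 at n1
  have ra := range s o
  obtain ⟨t, ht⟩ : ∃ t, n = 2 * t := by
    refine ⟨n / 2, ?_⟩
    have : n * (2 * k + 1) = 2 * (n * k) + n := by ring
    omega
  have e2 : n * (2 * k + 1) = 2 * (t * (2 * k + 1)) := by rw [ht]; ring
  have c : t * (2 * k + 1) ≤ -1 * (2 * k + 1) ∨ t * (2 * k + 1) = 0 ∨
      1 * (2 * k + 1) ≤ t * (2 * k + 1) := by
    rcases lt_trichotomy t 0 with d | d | d
    · exact Or.inl (mul_le_mul_of_nonneg_right (by omega) (by omega))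
    · exact Or.inr (Or.inl (by rw [d, zero_mul]))
    · exact Or.inr (Or.inr (mul_le_mul_of_nonneg_right (by omega) (by omega)))
  have v : (0 : Fin 3) - 1 = 2 ∧ (1 : Fin 3) - 1 = 0 ∧ (2 : Fin 3) - 1 = 1 := by decide
  rcases f3c j with rfl | rfl | rfl <;> simp only [v] at e ⊢ <;>
    rcases ra with ⟨c1, _⟩ | ⟨c1, _⟩ | ⟨c1, _⟩ <;> rw [c1] <;> omega

/-- The edges inside a class pair the active leaves. -/
lemma par (h : Hel k r sr C cl m σ H T) (s : Sta k cl m σ S) {ρ : ℤ} {j : Fin 3} (h0 : 0 ≤ ρ)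
    (h1 : ρ < 2 * m j) : nL sr H (S j + m (j - 1) + ρ) % 2 =
      (nB cl σ S j (ρ + 1) - nB cl σ S j (ρ - m j)) % 2 := by
  rw [← nB_sub j (by omega)]
  set l := S j + m (j - 1) + ρ with hl
  set D := univ.filter fun q => cl q = j ∧ ρ - m j ≤ σ q - S j ∧ σ q - S j < ρ + 1 with hD
  have mD : ∀ q, q ∈ D ↔ cl q = j ∧ Ow cl m σ q l := fun q => by
    simp only [hD, mem_filter, mem_univ, true_and, Ow]
    refine and_congr_right fun c => ?_
    rw [c]
    omega
  have ex : ∀ q, ∃ e, q ∈ D → H q e = l ∧ Va sr q e ∧ ∀ y, e = inl y → cl y = cl q := fun q => by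
    by_cases c : q ∈ D
    · obtain ⟨e, he⟩ := h.own_fill ((mD q).mp c).2
      exact ⟨e, fun _ => he⟩
    · exact ⟨inl q, fun d => absurd d c⟩
  choose μ hμ using ex
  set ν : Q → Q := fun q => (μ q).elim id fun _ => q with hν
  have key : ∀ q ∈ D, ν q ∈ D ∧ ν (ν q) = q := fun q hq => by
    obtain ⟨a1, a2, a3⟩ := hμ q hq
    rcases e : μ q with y | i
    · rw [e] at a1 a2
      have c := a3 y e
      have a4 := h.lab q y a2
      rw [c, (f3a _ 0).2.2.2.2] at a4
      have yD : y ∈ D := (mD y).mpr ⟨c.trans ((mD q).mp hq).1, by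
        rw [← a1, a4, zero_mul, add_zero]; exact h.own y q (Ne.symm a2) c.symm⟩
      have := h.inj y (μ y) (inl q) (hμ y yD).2.1 (Ne.symm a2) (by rw [(hμ y yD).1]; omega)
      simp [hν, e, this, yD]
    · simp [hν, e, hq]
  rw [← card_fix_par D ν (fun q hq => (key q hq).1) fun q hq => (key q hq).2]
  unfold nL
  congr 2
  refine card_bij (fun p _ => p.1) ?_ ?_ ?_
  · intro p hp
    obtain ⟨a, b⟩ := mem_filter.mp hp
    have o : Ow cl m σ p.1 (H p.1 (inr p.2)) := h.out _ _ (mem_outP.mp a)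
    have pD : p.1 ∈ D := (mD _).mpr ⟨(h.lab_eq s (n := 0) o h0 h1 (by omega)).2, b ▸ o⟩
    have := h.inj _ (μ p.1) (inr p.2) (hμ _ pD).2.1 (mem_outP.mp a) (by rw [(hμ _ pD).1, b])
    exact mem_filter.mpr ⟨pD, by simp [hν, this]⟩
  · rintro ⟨q, i⟩ hp ⟨y, i'⟩ hs rfl
    obtain ⟨a, b⟩ := mem_filter.mp hp
    obtain ⟨a', b'⟩ := mem_filter.mp hs
    exact Prod.ext rfl (inr.inj (h.inj q (inr i) (inr i') (mem_outP.mp a) (mem_outP.mp a')
      (b.trans b'.symm)))
  · intro q hq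
    obtain ⟨c, d⟩ := mem_filter.mp hq
    obtain ⟨a1, a2, -⟩ := hμ q c
    rcases e : μ q with y | i <;> rw [e] at a1 a2
    · exact absurd (by simpa [hν, e] using d) a2
    · exact ⟨(q, i), mem_filter.mpr ⟨mem_outP.mpr a2, a1⟩, rfl⟩

/-- The window of a class holds two edges to centres for each leaf. -/
lemma wsum (h : Hel k r sr C cl m σ H T) (s : Sta k cl m σ S) (j : Fin 3) :
    ∑ ρ ∈ Ico (0 : ℤ) (m j), (nL sr H (S j + m (j - 1) + ρ) +
      nL sr H (S j + m (j - 1) + (m j + ρ))) = 2 * m j := by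
  set b := S j + m (j - 1) with hb
  have c := card_outP sr (univ.filter fun q => cl q = j)
  have rg : ∀ p ∈ (outP sr).filter fun p => p.1 ∈ univ.filter fun q => cl q = j,
      b ≤ H p.1 (inr p.2) ∧ H p.1 (inr p.2) < b + 2 * m j := fun p hp => by
    obtain ⟨a, e⟩ := mem_filter.mp hp
    have a1 := h.out _ _ (mem_outP.mp a)
    have a2 := s.lo p.1
    have a3 := s.hi p.1
    rw [(mem_filter.mp e).2] at a1 a2 a3
    omega
  rw [h.card, card_eq_sum_card_fiberwise (t := Ico (0 : ℤ) (m j))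
    (f := fun p => if H p.1 (inr p.2) < b + m j then H p.1 (inr p.2) - b
      else H p.1 (inr p.2) - b - m j) fun p hp => by
        have := rg p hp
        simp only [coe_Ico, Set.mem_Ico]
        split_ifs <;> omega] at c
  rw [show (2 * m j : ℤ) = (2 * m j : ℕ) by push_cast; ring, ← c, Nat.cast_sum]
  refine sum_congr rfl fun ρ hρ => ?_
  obtain ⟨r0, r1⟩ := mem_Ico.mp hρ
  unfold nL
  rw [← Nat.cast_add, ← card_union_of_disjoint (disjoint_filter.mpr fun p _ a b => by omega),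
    ← filter_or, filter_filter]
  congr 2
  refine filter_congr fun p hp => ⟨fun e => ?_, fun ⟨e1, e2⟩ => ?_⟩
  · have o : Ow cl m σ p.1 (H p.1 (inr p.2)) := h.out _ _ (mem_outP.mp hp)
    refine ⟨mem_filter.mpr ⟨mem_univ _, ?_⟩, by split_ifs <;> omega⟩
    rcases e with e | e
    · exact (h.lab_eq s (n := 0) (ρ := ρ) o r0 (by omega) (by omega)).2
    · exact (h.lab_eq s (n := 0) (ρ := m j + ρ) o (by omega) (by omega) (by omega)).2
  · split_ifs at e2 <;> omega

/-- TICK LEMMA. -/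
lemma tick (h : Hel k r sr C cl m σ H T) (s : Sta k cl m σ S) (hr : r < k + 1) {a b Δ ν : ℤ}
    (oa : Ow cl m σ q a) (ob : Ow cl m σ y b) (hν : ν ≤ k + 2) (g : T q a + ν ≤ T y b + Δ * r) :
    2 * ν ≤ 2 * (b - a) + Δ * (2 * k + 1) ∨
      (cl y = cl q ∧ Δ = 1 ∧ 2 * (b - a) + (2 * k + 1) = 2 * ν - 1 ∧ a - b < m (cl q)) := by
  by_contra hc
  rw [not_or, not_le] at hc
  obtain ⟨h1, h2⟩ := hc
  have tt := h.tot
  have n0 := s.nx 0
  have n1 := s.nx 1
  change S 1 + 0 * _ = S 0 + k - m 1 at n0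
  change S 2 + 0 * _ = S 1 + k - m 2 at n1
  have ra := range s oa
  have rb := range s ob
  -- an offset bound with `2 t + Δ = l` ends the proof
  have fin : ∀ t l : ℤ, 2 * t + Δ = l → 0 < l → 2 * (b - a) + Δ * (2 * k + 1) + l ≤ 2 * ν →
      T y b - b ≤ T q a - a + t * (2 * r - (2 * k + 1)) → False := fun t l e l0 d o => by
    have e' : (Δ : ℝ) = l - 2 * t := by exact_mod_cast (show Δ = l - 2 * t by omega)
    have d' : 2 * ((b : ℝ) - a) + Δ * (2 * k + 1) + l ≤ 2 * ν := by exact_mod_cast d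
    have l' : (0 : ℝ) < l := by exact_mod_cast l0
    have := mul_pos l' (show 0 < k + 1 - r by linarith)
    rw [e'] at g d'
    nlinarith
  have big : Δ ≤ 2 := by
    by_contra c
    have : 3 * (2 * (k : ℤ) + 1) ≤ Δ * (2 * k + 1) :=
      mul_le_mul_of_nonneg_right (by omega) (by omega)
    omega
  have v : ((0 : Fin 3) : ℕ) = 0 ∧ ((1 : Fin 3) : ℕ) = 1 ∧ ((2 : Fin 3) : ℕ) = 2 := by decide
  have lt3 := (cl y).2
  obtain ⟨e, he | he⟩ := Int.even_or_odd' Δ
  · have ev : Δ * (2 * k + 1) = 2 * (e * (2 * k + 1)) := by rw [he]; ring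
    by_cases c : ((cl y : ℕ) : ℤ) < (cl q : ℕ) + 3 * (1 - e)
    · exact fin (1 - e) 2 (by omega) (by omega) (by omega) (h.monoT s oa ob c)
    have e1 : Δ = 2 := by omega
    rw [e1] at h1
    have e2 : cl y = cl q := by
      rcases ra with ⟨c1, _⟩ | ⟨c1, _⟩ | ⟨c1, _⟩ <;> rcases rb with ⟨c2, _⟩ | ⟨c2, _⟩ | ⟨c2, _⟩ <;>
        rw [c1, c2] at c ⊢ <;> omega
    have := h.tot' (cl q)
    exact fin 0 2 (by omega) (by omega) (by rw [e1]; omega)
      (by simpa using h.mono0 e2 oa ob (by omega))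
  · have ev : Δ * (2 * k + 1) = 2 * (e * (2 * k + 1) + k) + 1 := by rw [he]; ring
    by_cases c : ((cl y : ℕ) : ℤ) < (cl q : ℕ) + 3 * -e
    · exact fin (-e) 1 (by omega) (by omega) (by omega) (h.monoT s oa ob c)
    have e1 : Δ = 1 := by omega
    have e2 : cl y = cl q := by
      rw [e1] at h1
      rcases ra with ⟨c1, _⟩ | ⟨c1, _⟩ | ⟨c1, _⟩ <;> rcases rb with ⟨c2, _⟩ | ⟨c2, _⟩ | ⟨c2, _⟩ <;>
        rw [c1, c2] at c ⊢ <;> omega
    by_cases d : b + m (cl q) ≤ a
    · exact fin 0 1 (by omega) (by omega) (by omega) (by simpa using h.mono0 e2 oa ob d)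
    by_cases d' : 2 * (b - a) + (2 * k + 1) = 2 * ν - 1
    · exact h2 ⟨e2, e1, d', by omega⟩
    · exact fin 1 3 (by omega) (by omega) (by rw [e1] at h1 ⊢; omega)
        (h.monoT s oa ob (by rw [e2]; omega))

end Hel

end Pool.Agent.P.MP_3f5ded_co.UG
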