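import Pool.Agent.P.MP_3f5ded_co.USHA
import Pool.Agent.P.MP_3f5ded_co.USEnd

set_option autoImplicit false

namespace Pool.Agent.P.MP_3f5ded_co.UG

open Sum Finset
open scoped Classical

/-- The items of a frame, indexed by all integers. -/
lemma Good.items {A : Type} {k : ℕ} {r : ℝ} {S : Finset A} {c : A → ℝ} {f : ℤ → ℝ} {κ : A → ℤ}
    (h : Good k r S c f κ) (hS : S.card = k) (hk : 0 < k) : ∃ it : ℤ → A,
      (∀ i, it i ∈ S ∧ Cg r (c (it i)) (f i)) ∧ (∀ i n, it (i + n * k) = it i) ∧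
      (∀ i j, it i = it j → (k : ℤ) ∣ i - j) ∧
      ∀ e ∈ S, ∀ y, Cg r (c e) y → ∃ i, it i = e ∧ f i = y := by
  have hk' : (0 : ℤ) < k := by exact_mod_cast hk
  choose it h1 h2 using fun i : ℤ =>
    h.surj hS (Int.emod_nonneg i hk'.ne') (Int.emod_lt_of_pos i hk')
  refine ⟨it, fun i => ⟨h1 i, (h.near _ (h1 i)).trans (Cg.symm ⟨i / k, ?_⟩)⟩,
    fun i n => h.inj _ (h1 _) _ (h1 _) (by rw [h2, h2, Int.add_mul_emod_self_right]),
    fun i j e => ?_, fun e he y hy => ?_⟩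
  · rw [h2, ← h.fr.perZ]
    congr 1
    have := Int.emod_add_mul_ediv i k
    linarith
  · have := h2 i
    rw [e, h2] at this
    exact Int.dvd_of_emod_eq_zero (Int.emod_eq_emod_iff_emod_sub_eq_zero.mp this.symm)
  · obtain ⟨n, hn⟩ := hy.symm.trans (h.near e he)
    refine ⟨κ e + n * k, h.inj _ (h1 _) _ he ?_, by rw [h.fr.perZ, hn]⟩
    rw [h2, Int.add_mul_emod_self_right, Int.emod_eq_of_lt (h.lo e he) (h.hi e he)]

lemma Fr.inj {k : ℕ} {r : ℝ} {f : ℤ → ℝ} (h : Fr k r f) {i j : ℤ} (e : f i = f j) : i = j := by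
  have := h.close (i := i) (j := j) one_pos (by simp [e])
  rw [abs_lt] at this
  omega

/-- Sizes of the segments. -/
def mM (m : Fin 3 → ℕ) (c : ℤ) : ℤ := if c % 3 = 0 then m 1 else if c % 3 = 1 then m 0 else m 2

/-- First cells of the segments. -/
def mN (k : ℕ) (m : Fin 3 → ℕ) (c : ℤ) : ℤ :=
  c / 3 * (k + 2) + if c % 3 = 0 then 0 else if c % 3 = 1 then (m 1 : ℤ) + 1 else m 1 + m 0 + 2

lemma mN_succ {k : ℕ} {m : Fin 3 → ℕ} (h : m 0 + m 1 + m 2 + 1 = k) (c : ℤ) :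
    mN k m (c + 1) = mN k m c + mM m c + 1 := by
  unfold mN mM
  rcases (show (c + 1) / 3 = c / 3 ∨ (c + 1) / 3 = c / 3 + 1 by omega) with e | e
  · rw [e]; split_ifs <;> omega
  · rw [e, add_one_mul]; split_ifs <;> omega

lemma mM_cl (m : Fin 3 → ℕ) (a : Fin 3) (j : ℤ) : mM m (2 * (a : ℕ) + 3 * j + 1) = m a := by
  unfold mM
  rcases f3c a with rfl | rfl | rfl <;> simp only [Fin.val_zero, Fin.val_one, Fin.val_two] <;>
    split_ifs <;> omega

lemma ex_cl (c : ℤ) : ∃ (a : Fin 3) (j : ℤ), c = 2 * (a : ℕ) + 3 * j := by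
  rcases (show c % 3 = 0 ∨ c % 3 = 1 ∨ c % 3 = 2 by omega) with e | e | e
  · exact ⟨0, c / 3, by simp only [Fin.val_zero]; omega⟩
  · exact ⟨2, c / 3 - 1, by simp only [Fin.val_two]; omega⟩
  · exact ⟨1, c / 3, by simp only [Fin.val_one]; omega⟩

lemma tkf_cl {Q : Type} {k : ℕ} {cl : Q → Fin 3} {m : Fin 3 → ℕ} {σ : Q → ℤ} {S : Fin 3 → ℤ}
    (h : m 0 + m 1 + m 2 + 1 = k) (s : Sta k cl m σ S) (a : Fin 3) (j l : ℤ) :
    tkf (mN k m) (2 * (a : ℕ) + 3 * j) (2 * (l - S a - m (a - 1) - m a) + 1) =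
      2 * l + j * (2 * k + 1) - (2 * (S 0 + m 2 + m 0) - 1) := by
  have n0 := s.nx 0
  have n1 := s.nx 1
  change S 1 + 0 * _ = S 0 + k - m 1 at n0
  change S 2 + 0 * _ = S 1 + k - m 2 at n1
  have e : j * (2 * k + 1) = 2 * (j * (k + 2)) - 3 * j := by ring
  have v : (0 : Fin 3) - 1 = 2 ∧ (1 : Fin 3) - 1 = 0 ∧ (2 : Fin 3) - 1 = 1 := by decide
  unfold tkf mN
  rcases f3c a with rfl | rfl | rfl <;> simp only [Fin.val_zero, Fin.val_one, Fin.val_two, v]
  · rw [show (2 * ((0 : ℕ) : ℤ) + 3 * j) / 3 = j by omega]; split_ifs <;> omega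
  · rw [show (2 * ((1 : ℕ) : ℤ) + 3 * j) / 3 = j by omega]; split_ifs <;> omega
  · rw [show (2 * ((2 : ℕ) : ℤ) + 3 * j) / 3 = j + 1 by omega, add_one_mul]; split_ifs <;> omega

lemma ex_seg {f : ℤ → ℤ} (h : ∀ c, f c + 1 ≤ f (c + 1)) (n : ℤ) : ∃ c, f c ≤ n ∧ n < f (c + 1) := by
  have mo : ∀ {c d : ℤ}, c ≤ d → f c + (d - c) ≤ f d := fun {c d} g => by
    induction d, g using Int.leInduction with
    | base => simp
    | succ e _ ih => have := h e; omega
  obtain ⟨c, h1, h2⟩ := Int.exists_greatest_of_bdd (P := fun c => f c ≤ n)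
    ⟨max 0 (n - f 0), fun c hc => by
      by_contra g
      have := mo (show 0 ≤ c by omega)
      omega⟩
    ⟨min 0 (n - f 0), by have := mo (show min 0 (n - f 0) ≤ 0 by omega); omega⟩
  exact ⟨c, h1, by by_contra g; have := h2 (c + 1) (by omega); omega⟩

/-- NECESSITY for the capped three-star block: the free ports are in cyclic order, and the gap
between two of them is at most the star size of the third centre plus `r - k`. -/
theorem Blk.nec {Q Pt : Type} [Fintype Q] [Fintype Pt] {k : ℕ} {r : ℝ} {sr : Q → Fin 3}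
    {C : Q → Q ⊕ Fin 3 → ℝ} {w : Fin 3 → ℝ} (h : Blk r sr C w) (hk : 11 ≤ k) (ho : Odd k)
    (hQ : Fintype.card Q + 1 = k) (hr1 : 1 ≤ r) (hr : r < k + 1) (x : Pt → ℝ) (pc : Pt → Fin 3)
    (a : Fin 3 → ℕ) (ha : ∀ z, (univ.filter fun q => sr q = z).card = a z)
    (hp : ∀ z, (univ.filter fun p => pc p = z).card + 1 = a z) (h2 : ∀ z, 2 * a z + 3 ≤ k)
    (f1 : ∀ p q, pc p ≠ sr q → Far r (x p) (C q (inr (pc p))))
    (f2 : ∀ p j, j ≠ pc p → Far r (x p) (w j))
    (f3 : ∀ p p', p ≠ p' → pc p = pc p' → Far r (x p) (x p'))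
    (fp : Fin 3 → Pt) (hfp : ∀ z, pc (fp z) = z)
    (cap : ∀ p, (∀ z, p ≠ fp z) → ∃ p', pc p' ≠ pc p ∧ cd r (x p) (x p') < 1) :
    ∃ (u v : Fin 3) (y1 y2 : ℝ), ((u = 1 ∧ v = 2) ∨ (u = 2 ∧ v = 1)) ∧ Cg r (x (fp u)) y1 ∧
      Cg r (x (fp v)) y2 ∧ y1 - x (fp 0) ≤ a v + (r - k) ∧ y2 - y1 ≤ a 0 + (r - k) ∧
      x (fp 0) + r - y2 ≤ a u + (r - k) := by
  obtain ⟨cl, m, σ, H, T, hel⟩ := h.hel (by omega) ho hQ hr1 hr
  obtain ⟨S, s⟩ := hel.exists_sta
  obtain ⟨A, A1, A2⟩ := hel.exists_A s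
  have hrp : 0 < r := by linarith
  have tt := hel.tot
  have cancel : ∀ {n n' : ℤ}, (n : ℝ) * r = n' * r → n = n' := fun e => by
    exact_mod_cast mul_right_cancel₀ hrp.ne' e
  -- frames at the centres
  set NQ : Fin 3 → Finset (Fin 3 ⊕ Pt) := fun z =>
    (univ.erase z).disjSum (univ.filter fun p => pc p = z) with hNQ
  set Sz : Fin 3 → Finset (Q ⊕ Fin 3 ⊕ Pt) := fun z =>
    (univ.filter fun q => ¬sr q = z).disjSum (NQ z) with hSz
  set col : Fin 3 → Q ⊕ Fin 3 ⊕ Pt → ℝ := fun z =>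
    Sum.elim (fun q => C q (inr z)) (Sum.elim w x) with hcol
  have m1 : ∀ {z q}, inl q ∈ Sz z ↔ z ≠ sr q := fun {z q} => by simp [hSz, eq_comm]
  have m2 : ∀ {z j}, inr (inl j) ∈ Sz z ↔ j ≠ z := fun {z j} => by simp [hSz, hNQ]
  have m3 : ∀ {z p}, inr (inr p) ∈ Sz z ↔ pc p = z := fun {z p} => by simp [hSz, hNQ]
  have cNQ : ∀ z, (NQ z).card = a z + 1 := fun z => by
    have := hp z
    simp only [hNQ]
    rw [card_disjSum, card_erase_of_mem (mem_univ z), card_univ, Fintype.card_fin]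
    omega
  have cSz : ∀ z, (Sz z).card = k := fun z => by
    have := card_filter_add_card_filter_not (s := univ) fun q => sr q = z
    rw [ha, card_univ] at this
    simp only [hSz]
    rw [card_disjSum, cNQ]
    omega
  have far : ∀ z, ∀ e ∈ Sz z, ∀ e' ∈ Sz z, e ≠ e' → Far r (col z e) (col z e') := by
    rintro z (q | j | p) he (q' | j' | p') he' n
    · exact h.zqq z q q' (m1.mp he) (m1.mp he') fun d => n (by rw [d])
    · exact h.zqw z q j' (m1.mp he) (m2.mp he')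
    · obtain rfl := m3.mp he'
      exact (f1 p' q (m1.mp he)).symm
    · exact (h.zqw z q' j (m1.mp he') (m2.mp he)).symm
    · exact h.zww j j' fun d => n (by rw [d])
    · obtain rfl := m3.mp he'
      exact (f2 p' j (m2.mp he)).symm
    · obtain rfl := m3.mp he
      exact f1 p q' (m1.mp he')
    · obtain rfl := m3.mp he
      exact f2 p j' (m2.mp he')
    · exact f3 p p' (fun d => n (by rw [d])) ((m3.mp he).trans (m3.mp he').symm)
  choose G κ gd _ _ using fun z => exists_good hrp (Sz z) (cSz z) (col z) (far z) _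
    (m3.mpr (hfp z)) 0 le_rfl (by omega) _ (Cg.refl _ _) hr1
  choose it i1 i2 i3 i4 using fun z => (gd z).items (cSz z) (by omega)
  have iper : ∀ z i, it z (i + k) = it z i := fun z i => by simpa using i2 z i 1
  obtain ⟨b0⟩ : Nonempty Q := Fintype.card_pos_iff.mp (by omega)
  set lq : Fin 3 → ℤ → Q := fun z i => (it z i).elim id fun _ => b0 with hlq
  set QQ : Fin 3 → ℤ → Prop := fun z i => it z i = inl (lq z i) with hQQ
  have q0 : ∀ {z i q}, it z i = inl q → lq z i = q ∧ QQ z i := fun {z i q} e => by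
    simp [hQQ, hlq, e]
  have q1 : ∀ {z i}, QQ z i → z ≠ sr (lq z i) := fun {z i} e => m1.mp (e ▸ (i1 z i).1)
  have ow : ∀ {z q}, z ≠ sr q → Ow cl m σ q (H q (inr z)) := fun e => hel.out _ _ e
  have exl : ∀ z i, ∃ n : ℤ, QQ z i → G z i = T (lq z i) (H (lq z i) (inr z)) + n * r := by
    intro z i
    by_cases c : QQ z i
    · have e := (i1 z i).2
      rw [c] at e
      obtain ⟨n, hn⟩ := e.symm.trans (hel.cg (lq z i) (inr z) (q1 c))
      exact ⟨n, fun _ => hn⟩
    · exact ⟨0, fun d => absurd d c⟩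
  choose lap hl using exl
  have lift : ∀ z q (n : ℤ), z ≠ sr q → ∃ i, QQ z i ∧ lq z i = q ∧ lap z i = n := fun z q n e => by
    obtain ⟨i, e1, e2⟩ := i4 z (inl q) (m1.mpr e) (T q (H q (inr z)) + n * r)
      ((hel.cg q (inr z) e).trans (Cg.symm ⟨n, rfl⟩))
    obtain ⟨e3, e4⟩ := q0 e1
    have := hl z i e4
    rw [e3, e2] at this
    exact ⟨i, e4, e3, cancel (add_left_cancel this).symm⟩
  set wc : Fin 3 → ℤ → ℤ := fun z i => 2 * (cl (lq z i) : ℕ) + 3 * lap z i with hwc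
  set wu : Fin 3 → ℤ → ℤ := fun z i => 2 * (H (lq z i) (inr z) - S (cl (lq z i)) -
    m (cl (lq z i) - 1) - m (cl (lq z i))) + 1 with hwu
  set s0 : ℤ := 2 * (S 0 + m 2 + m 0) - 1 with hs0
  have tk : ∀ z i, tkf (mN k m) (wc z i) (wu z i) =
      2 * H (lq z i) (inr z) + lap z i * (2 * k + 1) - s0 := fun z i => tkf_cl tt s _ _ _
  have T1 : ∀ z i z' i' (ν : ℤ), QQ z i → QQ z' i' → ν ≤ k + 2 → G z i + ν ≤ G z' i' →
      2 * ν ≤ tkf (mN k m) (wc z' i') (wu z' i') - tkf (mN k m) (wc z i) (wu z i) ∨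
        (wc z' i' = wc z i + 3 ∧
          tkf (mN k m) (wc z' i') (wu z' i') - tkf (mN k m) (wc z i) (wu z i) = 2 * ν - 1 ∧
          wu z i - wu z' i' ≤ 2 * mM m (wc z i + 1) - 2) := by
    intro z i z' i' ν e e' hν g
    rw [hl z i e, hl z' i' e'] at g
    have := hel.tick s hr (Δ := lap z' i' - lap z i) (ow (q1 e)) (ow (q1 e')) hν
      (by push_cast; linarith)
    rw [tk, tk]
    rcases this with c | ⟨c1, c2, c3, c4⟩
    · exact Or.inl (by linarith)
    · refine Or.inr ⟨by simp only [hwc, c1]; omega, ?_, ?_⟩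
      · rw [show lap z' i' = lap z i + 1 by omega]; linarith
      · simp only [hwc, hwu, mM_cl, c1]; omega
  have occ : ∀ z t, ocf (mN k m) QQ wc wu z t ↔
      ∃ q, z ≠ sr q ∧ ∃ n : ℤ, t = 2 * H q (inr z) + n * (2 * k + 1) - s0 := fun z t =>
    ⟨fun ⟨i, e1, e2⟩ => ⟨_, q1 e1, _, e2.symm.trans (tk z i)⟩, fun ⟨q, e1, n, e2⟩ => by
      obtain ⟨i, e3, e4, e5⟩ := lift z q n e1
      exact ⟨i, e3, by rw [tk, e4, e5, e2]⟩⟩
  have cn : ∀ t, cnf (mN k m) QQ wc wu t = ((outP sr).filter fun p =>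
      ∃ n : ℤ, t = 2 * H p.1 (inr p.2) + n * (2 * k + 1) - s0).card := fun t => by
    have e : cnf (mN k m) QQ wc wu t = (univ.filter fun z => ocf (mN k m) QQ wc wu z t).card := by
      rw [← sum_boole, Fin.sum_univ_three]; rfl
    rw [e]
    congr 1
    refine (card_bij (fun p _ => p.2) ?_ ?_ ?_).symm
    · intro p hp
      obtain ⟨c, d⟩ := mem_filter.mp hp
      exact mem_filter.mpr ⟨mem_univ _, (occ _ _).mpr ⟨p.1, mem_outP.mp c, d⟩⟩
    · rintro ⟨q, z⟩ hp ⟨y, z'⟩ hs rfl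
      obtain ⟨c, n, d⟩ := mem_filter.mp hp
      obtain ⟨c', n', d'⟩ := mem_filter.mp hs
      obtain ⟨i, e1, e2, e3⟩ := lift z q n (mem_outP.mp c)
      obtain ⟨i', e1', e2', e3'⟩ := lift z y n' (mem_outP.mp c')
      have key : ∀ {i i'}, QQ z i → QQ z i' → i < i' →
          tkf (mN k m) (wc z i) (wu z i) < tkf (mN k m) (wc z i') (wu z i') := fun {i i'} b b' g => by
        have := (gd z).fr.mono g.le
        have g' : (i : ℝ) + 1 ≤ i' := by exact_mod_cast g
        have := T1 z i z i' 1 b b' (by omega) (by push_cast; linarith)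
        omega
      have u1 := key e1 e1'
      have u2 := key e1' e1
      rw [tk, tk, e2, e3, e2', e3'] at u1 u2
      dsimp only at d d'
      have : i = i' := by omega
      rw [← e2, ← e2', this]
    · intro z hz
      obtain ⟨q, c, d⟩ := (occ _ _).mp (mem_filter.mp hz).2
      exact ⟨(q, z), mem_filter.mpr ⟨mem_outP.mpr c, d⟩, rfl⟩
  have cw : ∀ (j : Fin 3) (n ρ : ℤ), 0 ≤ ρ → ρ < 2 * m j →
      cnf (mN k m) QQ wc wu (tkf (mN k m) (2 * (j : ℕ) + 3 * n) (1 - 2 * m j + 2 * ρ)) =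
        nL sr H (S j + m (j - 1) + ρ) := fun j n ρ r0 r1 => by
    rw [show 1 - 2 * (m j : ℤ) + 2 * ρ = 2 * (S j + m (j - 1) + ρ - S j - m (j - 1) - m j) + 1 by
      ring, tkf_cl tt s, cn]
    unfold nL
    congr 2
    refine filter_congr fun p hp => ⟨fun ⟨n', e⟩ => ?_, fun e => ⟨n, by rw [e]⟩⟩
    exact (hel.lab_eq s (n := n' - n) (ow (mem_outP.mp hp)) r0 r1 (by linarith)).1
  have cw2 : ∀ (j : Fin 3) (n ρ : ℤ), 0 ≤ ρ → ρ < m j →
      cnf (mN k m) QQ wc wu (tkf (mN k m) (2 * (j : ℕ) + 3 * n) (1 + 2 * ρ)) =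
        nL sr H (S j + m (j - 1) + (m j + ρ)) := fun j n ρ r0 r1 => by
    rw [← cw j n _ (by omega) (by omega)]
    congr 2
    ring
  -- the edges between the centres
  obtain ⟨W, κw, gw, -⟩ := exists_good (k := 3) hrp univ (by simp) w
    (fun i _ j _ => h.zww i j) 0 (mem_univ _) 0 le_rfl (by omega) _ (Cg.refl _ _) hr1
  obtain ⟨o, o1, o2, o3, o4⟩ := gw.items (by simp) (by omega)
  have exw : ∀ j z, ∃ i, z ≠ o j → it z i = inr (inl (o j)) ∧ G z i = W j := fun j z => by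
    by_cases c : z = o j
    · exact ⟨0, fun d => absurd c d⟩
    · obtain ⟨i, e⟩ := i4 z _ (m2.mpr (Ne.symm c)) _ (o1 j).2
      exact ⟨i, fun _ => e⟩
  choose w0 hw0 using exw
  set wi : ℤ → Fin 3 → ℤ := fun j z => w0 (j % 3) z + j / 3 * k with hwi
  have hw : ∀ j z, z ≠ o j → it z (wi j z) = inr (inl (o j)) ∧ G z (wi j z) = W j := fun j z c => by
    have e : j = j % 3 + j / 3 * (3 : ℕ) := by omega
    have e1 : o j = o (j % 3) := by rw [← o2 (j % 3) (j / 3), ← e]
    have e2 := hw0 (j % 3) z (e1 ▸ c)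
    simp only [hwi]
    rw [i2, (gd z).fr.perZ, e2.1, e2.2, ← gw.fr.perZ, ← e, e1]
    exact ⟨rfl, rfl⟩
  have nq : ∀ {z i e}, it z i = inr e → ¬QQ z i := fun e d => by cases e.symm.trans d
  have po : ∀ z i, pof QQ o wi z i ↔ ∃ p, it z i = inr (inr p) := fun z i => by
    refine ⟨fun ⟨c, d⟩ => ?_, fun ⟨p, e⟩ => ⟨nq e, fun j c d => ?_⟩⟩
    · obtain ⟨b1, b2⟩ := i1 z i
      rcases e : it z i with q | j | p
      · exact absurd (q0 e).2 c
      · rw [e] at b1 b2
        obtain ⟨n, rfl, e2⟩ := o4 j (mem_univ _) _ b2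
        have c' := (m2.mp b1).symm
        exact absurd ((gd z).fr.inj ((hw n z c').2.trans e2)) (d n c')
      · exact ⟨p, rfl⟩
    · have := (hw j z c).1
      rw [d, e] at this
      cases this
  choose fi fi1 fi2 using fun z => i4 z _ (m3.mpr (hfp z)) _ (Cg.refl _ _)
  have gap : ∀ z lo, ∃ i, QQ z i ∧ lo ≤ i ∧ i ≤ lo + (k - 1) / 2 := fun z lo => by
    by_contra c
    push Not at c
    have := card_le_card_of_injOn (s := Icc lo (lo + (k - 1) / 2))
      (t := (NQ z).map Function.Embedding.inr) (it z) (fun i hi => by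
        obtain ⟨b1, b2⟩ := mem_Icc.mp hi
        have b3 := (i1 z i).1
        rcases e : it z i with q | e'
        · exact absurd (c i (q0 e).2 b1) (by omega)
        · rw [e] at b3
          exact mem_map_of_mem _ (inr_mem_disjSum.mp b3)) fun i hi j hj e => by
        obtain ⟨b1, b2⟩ := mem_Icc.mp hi
        obtain ⟨b3, b4⟩ := mem_Icc.mp hj
        have := Int.eq_zero_of_abs_lt_dvd (i3 z i j e) (by rw [abs_lt]; omega)
        omega
    rw [card_map, cNQ, Int.card_Icc] at this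
    have := h2 z
    omega
  have Mj : ∀ c, ∃ j, mM m c = m j := fun c => by
    unfold mM
    split_ifs <;> exact ⟨_, rfl⟩
  have Mp : ∀ c, 1 ≤ mM m c := fun c => by
    obtain ⟨j, e⟩ := Mj c
    have := hel.pos j
    omega
  choose sg hsg using ex_seg (f := mN k m) fun c => by
    have := mN_succ tt c
    have := Mp c
    omega
  obtain ⟨zc, y, z1, z2, z3, z4, z5⟩ := Tk.out (k := k) (r := r)
    { M := mM m, N := mN k m, sg := sg, A := A, G := G, Q := QQ, wc := wc, wu := wu, W := W,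
      o := o, wi := wi, fi := fi, hh := (k - 1) / 2
      k11 := by omega
      kodd := by obtain ⟨n, rfl⟩ := ho; omega
      hr := by exact_mod_cast hr
      Mpos := Mp
      Msum := fun c => by unfold mM; split_ifs <;> omega
      N0 := by simp [mN]
      Ns := mN_succ tt
      sgs := hsg
      A0 := by rw [A2 0 0 le_rfl (by omega), Hel.nB_zero s 0 le_rfl]
      Aper := fun c g => by obtain ⟨j, e⟩ := Mj c; rw [e, A1]
      hall := fun c d => by
        have c0 : (2 : ℤ) ≤ m 0 := c 1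
        have c1 : (2 : ℤ) ≤ m 1 := c 0
        have e1 := A1 1 (-1)
        rw [A2 1 _ (by omega) (by omega), neg_add_eq_sub] at e1
        have := hel.hall_lo s (by omega)
        have := hel.hall_hi s (by omega) (by omega)
        have := A2 0 2 (by omega) c0
        have := A2 1 2 (by omega) c1
        omega
      step := fun z => (gd z).fr.step
      per := fun z => (gd z).fr.per
      Qper := fun z i => by simp only [hQQ, hlq, iper]
      wper := fun z i e => by
        have e1 : lq z (i + k) = lq z i := by simp only [hlq, iper]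
        have e2 := hl z (i + k) (by simp only [hQQ]; rw [e1, iper]; exact e)
        rw [(gd z).fr.per, hl z i e, e1] at e2
        have e3 : lap z (i + k) = lap z i + 1 := cancel (by push_cast; linarith)
        simp only [hwc, hwu, e1, e3, and_true]
        ring
      win := fun z i e => by
        have b1 := ow (q1 e)
        have b2 := s.lo (lq z i)
        have b3 := s.hi (lq z i)
        unfold Ow at b1
        simp only [hwc, hwu, mM_cl]
        omega
      T1 := T1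
      par1 := fun c ρ r0 r1 => by
        obtain ⟨j, n, rfl⟩ := ex_cl c
        rw [mM_cl] at r1 ⊢
        rw [cw j n ρ r0 (by omega), hel.par s r0 (by omega), Hel.nB_zero s j (g := ρ - m j)
          (by omega), A2 j _ (by omega) (by omega), sub_zero]
      par2 := fun c ρ r0 r1 => by
        obtain ⟨j, n, rfl⟩ := ex_cl c
        rw [mM_cl] at r1 ⊢
        rw [cw2 j n ρ r0 r1, hel.par s (by omega) (by omega), hel.nB_full s j (by omega),
          add_sub_cancel_left, A2 j _ r0 r1.le]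
      wsum := fun c => by
        obtain ⟨j, n, rfl⟩ := ex_cl c
        rw [mM_cl]
        refine (sum_congr rfl fun ρ hρ => ?_).trans (hel.wsum s j)
        obtain ⟨r0, r1⟩ := mem_Ico.mp hρ
        rw [cw j n ρ r0 (by omega), cw2 j n ρ r0 r1]
      tot := by
        have p : (0 : ℤ) < 2 * k + 1 := by omega
        have c := card_outP sr univ
        rw [filter_true_of_mem fun _ _ => mem_univ _, card_univ,
          card_eq_sum_card_fiberwise (t := Ico (0 : ℤ) (2 * k + 1))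
          (f := fun p => (2 * H p.1 (inr p.2) - s0) % (2 * k + 1)) fun _ _ =>
            mem_Ico.mpr ⟨Int.emod_nonneg _ p.ne', Int.emod_lt_of_pos _ p⟩] at c
        rw [show 2 * ((k : ℤ) - 1) = (2 * Fintype.card Q : ℕ) by omega, ← c, Nat.cast_sum]
        refine sum_congr rfl fun t ht => ?_
        obtain ⟨t0, t1⟩ := mem_Ico.mp ht
        rw [cn]
        congr 2
        refine filter_congr fun q _ => ⟨fun ⟨n, e⟩ => ?_, fun e => ?_⟩
        · rw [← Int.emod_eq_of_lt t0 t1, e, add_sub_right_comm, Int.add_mul_emod_self_right]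
        · have := Int.emod_add_mul_ediv (2 * H q.1 (inr q.2) - s0) (2 * k + 1)
          exact ⟨-((2 * H q.1 (inr q.2) - s0) / (2 * k + 1)), by linarith⟩
      Wstep := gw.fr.step
      Wper := gw.fr.per
      oper := fun j => by simpa using o2 j 1
      one := fun j e => by have := o3 _ _ e; omega
      wis := fun j z c => ⟨(hw j z c).2, nq (hw j z c).1⟩
      wiper := fun j z => by
        simp only [hwi]
        rw [show (j + 3) % 3 = j % 3 by omega, show (j + 3) / 3 = j / 3 + 1 by omega]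
        ring
      hk := by omega
      gl := fun z i => by
        obtain ⟨j, b1, b2, b3⟩ := gap z (i - (k - 1) / 2)
        exact ⟨j, b1, b2, by omega⟩
      gr := gap
      cap := fun z i c d => by
        obtain ⟨p, e⟩ := (po z i).mp c
        obtain ⟨b1, b2⟩ := i1 z i
        rw [e] at b1 b2
        obtain rfl := m3.mp b1
        obtain ⟨p', b3, b4⟩ := cap p fun z' b => by
          obtain ⟨L, hL⟩ := i3 (pc p) i (fi (pc p)) (by rw [e, fi1, b, hfp])
          exact d L (by linarith)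
        obtain ⟨u, b5, b6⟩ := cd_lift r (x p) (x p')
        obtain ⟨i', b7, b8⟩ := i4 (pc p') (inr (inr p')) (m3.mpr rfl) _ (b5.trans (b2.add u))
        exact ⟨_, i', b3, (po _ _).mpr ⟨p', b7⟩, by rw [b8, add_sub_cancel_left, b6]; exact b4⟩ }
  dsimp only at z2 z4 z5
  have sz : ∀ c, ((mM m (c + 1) : ℤ) : ℝ) ≤ a (zc c) := fun c => by
    have b := z5 c
    generalize zc c = z at b ⊢
    obtain ⟨j, n, rfl⟩ := ex_cl c
    rw [mM_cl, ← hel.card, ← ha]
    have : (univ.filter fun q => cl q = j) ⊆ univ.filter fun q => sr q = z := fun q hq => by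
      refine mem_filter.mpr ⟨mem_univ _, ?_⟩
      by_contra d
      obtain ⟨i, e1, e2, e3⟩ := lift z q n (Ne.symm d)
      exact b i e1 (by simp only [hwc, e2, e3, (mem_filter.mp hq).2])
    exact_mod_cast card_le_card this
  have cy : ∀ c, Cg r (G (zc c) (y c)) (x (fp (zc c))) := fun c => by
    obtain ⟨L, e⟩ := z2 c
    exact ⟨L, by rw [e, (gd _).fr.perZ, fi2]; rfl⟩
  have n3 : ∀ c, zc (c + 1 + 1) ≠ zc c := fun c => by
    have := (z1 (c + 1 + 1)).2
    rwa [show c + 1 + 1 + 1 = c + 3 by ring, (z1 c).1] at this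
  have d1 : ∀ a b c : Fin 3, a ≠ b → b ≠ c → c ≠ a → a = 0 ∨ b = 0 ∨ c = 0 := by decide
  have d2 : ∀ b c : Fin 3, 0 ≠ b → b ≠ c → c ≠ 0 → (b = 1 ∧ c = 2) ∨ (b = 2 ∧ c = 1) := by decide
  obtain ⟨c, hc⟩ : ∃ c, zc c = 0 := by
    rcases d1 _ _ _ (z1 0).2 (z1 (0 + 1)).2 (n3 0) with e | e | e <;> exact ⟨_, e⟩
  obtain ⟨n, hn⟩ := cy c
  have g0 := z4 c
  have g1 := z4 (c + 1)
  have g2 := z4 (c + 1 + 1)
  have s1 := sz c
  have s2 := sz (c + 1)
  have s3 := sz (c - 1)
  rw [show c + 1 + 1 + 1 = c + 3 by ring, (z1 c).1, z3, (gd _).fr.per] at g2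
  rw [sub_add_cancel, ← (z1 (c - 1)).1, show c - 1 + 3 = c + 1 + 1 by ring] at s3
  have sh : ∀ u : ℝ, Cg r u (u - n * r) := fun u => ⟨n, by ring⟩
  refine ⟨zc (c + 1), zc (c + 1 + 1), _, _, d2 _ _ (hc ▸ (z1 c).2) (z1 _).2 (hc ▸ n3 c),
    (cy _).symm.trans (sh _), (cy _).symm.trans (sh _), ?_, ?_, ?_⟩ <;>
    rw [hc] at * <;> push_cast at * <;> linarith

end Pool.Agent.P.MP_3f5ded_co.UG
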