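import Pool.Agent.P.MP_3f5ded_co.UGWalk
import Pool.Agent.P.MP_3f5ded_co.UGStr

set_option autoImplicit false

namespace Pool.Agent.P.MP_3f5ded_co.UG

open Sum Finset

/-- The items at a leaf `q`: the other leaves and the two centres other than `sr q`. -/
def Va {Q : Type} (sr : Q → Fin 3) (q : Q) : Q ⊕ Fin 3 → Prop
  | inl y => y ≠ q
  | inr i => i ≠ sr q

/-- A colouring of the three-star block without its ports: `C q e` are the colours at the leaves,
`w i` is the colour of the edge between the two centres other than `i`. -/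
structure Blk {Q : Type} (r : ℝ) (sr : Q → Fin 3) (C : Q → Q ⊕ Fin 3 → ℝ) (w : Fin 3 → ℝ) :
    Prop where
  sym : ∀ q y, y ≠ q → Cg r (C q (inl y)) (C y (inl q))
  far : ∀ q e e', Va sr q e → Va sr q e' → e ≠ e' → Far r (C q e) (C q e')
  zqq : ∀ i q y, i ≠ sr q → i ≠ sr y → q ≠ y → Far r (C q (inr i)) (C y (inr i))
  zqw : ∀ i q j, i ≠ sr q → j ≠ i → Far r (C q (inr i)) (w j)
  zww : ∀ i j, i ≠ j → Far r (w i) (w j)

/-- Lap difference between the two ends of an edge of the clique. -/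
def lf (a b : Fin 3) : ℤ := if a = 2 ∧ b = 0 then 1 else if a = 0 ∧ b = 2 then -1 else 0

/-- The helix of a wound clique: classes `cl` of sizes `m` in the order of their starts `σ`,
labels `H`, and lifted times `T`. A leaf meets first the earlier class, then its own class and
its two centres, then the later class. -/
structure Hel {Q : Type} [Fintype Q] (k : ℕ) (r : ℝ) (sr : Q → Fin 3) (C : Q → Q ⊕ Fin 3 → ℝ)
    (cl : Q → Fin 3) (m : Fin 3 → ℕ) (σ : Q → ℤ) (H : Q → Q ⊕ Fin 3 → ℤ) (T : Q → ℤ → ℝ) :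
    Prop where
  card : ∀ j, (univ.filter fun q => cl q = j).card = m j
  pos : ∀ j, 0 < m j
  tot : m 0 + m 1 + m 2 + 1 = k
  fr : ∀ q, Fr k r (T q)
  cg : ∀ q e, Va sr q e → Cg r (C q e) (T q (H q e))
  inj : ∀ q e e', Va sr q e → Va sr q e' → H q e = H q e' → e = e'
  early : ∀ q y, cl y + 1 = cl q → σ q ≤ H q (inl y) ∧ H q (inl y) < σ q + m (cl y)
  own : ∀ q y, y ≠ q → cl y = cl q →
    σ q + m (cl q - 1) ≤ H q (inl y) ∧ H q (inl y) ≤ σ q + m (cl q - 1) + m (cl q)
  out : ∀ q i, i ≠ sr q →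
    σ q + m (cl q - 1) ≤ H q (inr i) ∧ H q (inr i) ≤ σ q + m (cl q - 1) + m (cl q)
  late : ∀ q y, cl y = cl q + 1 → σ q + k - m (cl y) ≤ H q (inl y) ∧ H q (inl y) < σ q + k
  lab : ∀ q y, y ≠ q → H q (inl y) = H y (inl q) + lf (cl q) (cl y) * (2 * k + 1)
  tim : ∀ q y, y ≠ q → T q (H q (inl y)) = T y (H y (inl q)) + lf (cl q) (cl y) * (2 * r)

/-- The items at a leaf, as a finite set. -/
def Sv {Q : Type} [Fintype Q] [DecidableEq Q] (sr : Q → Fin 3) (q : Q) : Finset (Q ⊕ Fin 3) :=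
  (univ.erase (inl q)).erase (inr (sr q))

lemma mem_Sv {Q : Type} [Fintype Q] [DecidableEq Q] {sr : Q → Fin 3} {q : Q} {e : Q ⊕ Fin 3} :
    e ∈ Sv sr q ↔ Va sr q e := by
  cases e <;> simp [Sv, Va]

lemma card_Sv {Q : Type} [Fintype Q] [DecidableEq Q] {k : ℕ} (hQ : Fintype.card Q + 1 = k)
    (sr : Q → Fin 3) (q : Q) : (Sv sr q).card = k := by
  have a1 := card_erase_add_one (mem_univ (inl q : Q ⊕ Fin 3))
  have a2 := card_erase_add_one (s := univ.erase (inl q : Q ⊕ Fin 3)) (a := inr (sr q)) (by simp)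
  rw [card_univ, Fintype.card_sum, Fintype.card_fin] at a1
  unfold Sv
  omega

/-- Two frames that agree somewhere: one step forward takes at most `1 + (r - k)`. -/
lemma Fr.next {k : ℕ} {r : ℝ} {f g : ℤ → ℝ} (hf : Fr k r f) (hg : Fr k r g) (hk : 0 < k) {i0 : ℤ}
    (h : f i0 = g i0) (l : ℤ) : g (l + 1) ≤ f l + 1 + (r - k) := by
  have hk' : (0 : ℤ) < k := by exact_mod_cast hk
  set n := (l - i0) / k with hn
  set j := i0 + (l - i0) % k with hj
  have e : l = j + n * k := by
    have := Int.emod_add_mul_ediv (l - i0) k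
    rw [hj, hn]; linarith
  have h0 : i0 ≤ j := by have := Int.emod_nonneg (l - i0) hk'.ne'; omega
  have h1 : j + 1 ≤ i0 + k := by have := Int.emod_lt_of_pos (l - i0) hk'; omega
  rw [show l + 1 = j + 1 + n * k by omega, e, hf.perZ, hg.perZ]
  have a1 := hf.mono h0
  have a4 := hg.upper h1
  push_cast at a4
  linarith

/-- A colour far from an end at every label but `f` lies near the label `f`. -/
lemma flat_win {Q : Type} {k : ℕ} {r x : ℝ} {F : Q → ℤ → ℝ} (hk : 2 ≤ k) (hr : r < k + 1)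
    (hF : ∀ q, Fr k r (F q)) (nx : ∀ q y l, F y (l + 1) ≤ F q l + 1 + (r - k)) (b : Q) {f : ℤ}
    (hx : ∀ n : ℕ, 1 ≤ n → n < k → ∃ q, Far r x (F q (f + n))) :
    ∃ t, Cg r x t ∧ F b f - (r - k) ≤ t ∧ t ≤ F b f + (r - k) := by
  have k2 : (2 : ℝ) ≤ k := by exact_mod_cast hk
  have g0 := (hF b).eps_nonneg
  have hrp : 0 < r := by linarith
  obtain ⟨q1, h1⟩ := hx 1 le_rfl (by omega)
  push_cast at h1
  set t := toIocMod hrp (F q1 (f + 1) - 1) x with ht
  obtain ⟨t1, t2⟩ := toIocMod_mem_Ioc hrp (F q1 (f + 1) - 1) x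
  have cg : Cg r x t := ⟨toIocDiv hrp (F q1 (f + 1) - 1) x, by
    have := toIocMod_add_toIocDiv_zsmul hrp (F q1 (f + 1) - 1) x
    rw [zsmul_eq_mul] at this
    linarith⟩
  have ind : ∀ n : ℕ, n + 1 < k → ∃ q, F q (f + n + 1) + 1 ≤ t := by
    intro n
    induction n with
    | zero =>
      intro _
      refine ⟨q1, ?_⟩
      have := (h1.congr cg (Cg.refl _ _)).or
      push_cast
      rw [add_zero]
      rcases this with c | c <;> linarith
    | succ n ih =>
      intro hn
      obtain ⟨q, hq⟩ := ih (by omega)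
      obtain ⟨y, hy⟩ := hx (n + 1 + 1) (by omega) hn
      refine ⟨y, ?_⟩
      have := (hy.congr cg (Cg.refl _ _)).or
      have e := nx q y (f + n + 1)
      push_cast at this ⊢
      rw [show f + (n + 1 + 1) = f + n + 1 + 1 by ring] at this
      rw [show f + (n + 1) + 1 = f + n + 1 + 1 by ring]
      rcases this with c | c <;> linarith
  obtain ⟨m, rfl⟩ : ∃ m, k = m + 2 := ⟨k - 2, by omega⟩
  obtain ⟨q, hq⟩ := ind m (by omega)
  have a1 := nx q b (f + m + 1)
  have a2 := (hF b).per f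
  have a3 := nx b q1 f
  rw [show f + ((m + 2 : ℕ) : ℤ) = f + m + 1 + 1 by push_cast; ring] at a2
  exact ⟨t - r, cg.trans (Cg.up (by ring)), by linarith, by linarith⟩

/-- A block has no colouring in which both ends of every clique edge carry the same label. -/
lemma flat_false {Q : Type} [Fintype Q] [DecidableEq Q] {k : ℕ} {r : ℝ} {sr : Q → Fin 3}
    {C : Q → Q ⊕ Fin 3 → ℝ} {w : Fin 3 → ℝ} {F : Q → ℤ → ℝ} {κ : Q → Q ⊕ Fin 3 → ℤ}
    (h : Blk r sr C w) (hk : 2 ≤ k) (ho : Odd k) (hQ : Fintype.card Q + 1 = k) (hr : r < k + 1)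
    (hG : ∀ q, Good k r (Sv sr q) (C q) (F q) (κ q))
    (hE : ∀ x y, y ≠ x → κ x (inl y) = κ y (inl x) ∧ F x (κ x (inl y)) = F y (κ x (inl y))) :
    False := by
  have ag : ∀ q y, ∃ i, F q i = F y i := fun q y => by
    by_cases c : y = q
    · exact ⟨0, by rw [c]⟩
    · exact ⟨_, (hE q y c).2⟩
  have nx : ∀ q y l, F y (l + 1) ≤ F q l + 1 + (r - k) := fun q y l =>
    (ag q y).elim fun _ e => (hG q).fr.next (hG y).fr (by omega) e l
  have al : ∀ q y l, |F q l - F y l| ≤ r - k := fun q y l =>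
    (ag q y).elim fun _ e => (hG q).fr.aligned (hG y).fr (by omega) e l
  set P : Finset (Q × Fin 3) := univ.filter fun p => p.2 ≠ sr p.1 with hP
  have mP : ∀ p, p ∈ P ↔ p.2 ≠ sr p.1 := fun p => by simp [hP]
  set lb : Q × Fin 3 → ℤ := fun p => κ p.1 (inr p.2) with hlb
  have cP : P.card = 2 * Fintype.card Q := by
    have e := card_eq_sum_card_fiberwise (s := P) (t := univ) (f := Prod.fst) fun _ _ => mem_univ _
    rw [e, sum_congr rfl (g := fun _ => 2), sum_const, card_univ, smul_eq_mul, mul_comm]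
    intro q _
    have : P.filter (fun p => p.1 = q) = (univ.erase (sr q)).image fun i => (q, i) := by
      ext ⟨y, i⟩
      simp only [mem_filter, mP, mem_image, mem_erase, mem_univ, and_true, Prod.mk.injEq]
      constructor
      · rintro ⟨a, rfl⟩; exact ⟨i, a, rfl, rfl⟩
      · rintro ⟨j, a, rfl, rfl⟩; exact ⟨a, rfl⟩
    rw [this, card_image_of_injective _ fun _ _ e => (Prod.ext_iff.mp e).2,
      card_erase_of_mem (mem_univ _), card_univ, Fintype.card_fin]
  have sv : ∀ p ∈ P, inr p.2 ∈ Sv sr p.1 := fun p hp => mem_Sv.mpr ((mP p).mp hp)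
  have dif : ∀ p ∈ P, ∀ s ∈ P, lb p = lb s → p.2 = s.2 → p = s := by
    rintro ⟨q, i⟩ hp ⟨y, j⟩ hs e rfl
    by_contra c
    have qy : q ≠ y := fun e => c (by rw [e])
    have f1 := (h.zqq i q y ((mP _).mp hp) ((mP _).mp hs) qy).congr ((hG q).near _ (sv _ hp))
      ((hG y).near _ (sv _ hs))
    have a := abs_le.mp (al q y (κ q (inr i)))
    change κ q (inr i) = κ y (inr i) at e
    rw [← e] at f1
    rcases f1.or with d | d <;> linarith [a.1, a.2]
  have ev : ∀ l ∈ Ico (0 : ℤ) k, Even (P.filter fun p => lb p = l).card := by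
    intro l hl
    obtain ⟨l0, l1⟩ := mem_Ico.mp hl
    choose μ hμ hμ0 using fun q => (hG q).surj (card_Sv hQ sr q) l0 l1
    set ν : Q → Q := fun q => (μ q).elim id fun _ => q with hν
    set B := univ.filter fun q => ν q ≠ q with hB
    have mB : ∀ q, q ∈ B ↔ ν q ≠ q := fun q => by simp [hB]
    have key : ∀ q, ν q ≠ q → μ q = inl (ν q) := fun q c => by
      rcases e : μ q with y | i
      · simp [hν, e]
      · exact absurd (by simp [hν, e]) c
    have inv : ∀ q, ν q ≠ q → ν (ν q) = q := fun q c => by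
      have e := (hE q (ν q) c).1
      rw [← key q c, hμ0] at e
      have := (hG (ν q)).inj _ (hμ _) (inl q) (mem_Sv.mpr c.symm) (by rw [hμ0, ← e])
      simp only [hν] at this ⊢
      rw [this]; rfl
    have s0 : ∑ _x ∈ B, (1 : ZMod 2) = 0 :=
      sum_involution (fun x _ => ν x) (fun _ _ => by decide) (fun x hx _ => (mB x).mp hx)
        (fun x hx => (mB _).mpr (by rw [inv x ((mB x).mp hx)]; exact ((mB x).mp hx).symm))
        fun x hx => inv x ((mB x).mp hx)
    rw [sum_const, nsmul_eq_mul, mul_one, ZMod.natCast_eq_zero_iff_even] at s0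
    have c1 : (P.filter fun p => lb p = l).card = Bᶜ.card := by
      refine card_bij (fun p _ => p.1) ?_ ?_ ?_
      · intro p hp
        obtain ⟨a, b⟩ := mem_filter.mp hp
        have := (hG p.1).inj _ (hμ _) _ (sv p a) (by rw [hμ0]; exact b.symm)
        rw [mem_compl, mB, not_not]
        simp [hν, this]
      · rintro ⟨q, i⟩ hp ⟨y, j⟩ hs rfl
        obtain ⟨a, b⟩ := mem_filter.mp hp
        obtain ⟨a', b'⟩ := mem_filter.mp hs
        have := (hG q).inj _ (sv _ a) _ (sv _ a') (b.trans b'.symm)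
        exact Prod.ext rfl (inr.inj this)
      · intro q hq
        rw [mem_compl, mB, not_not] at hq
        have a := mem_Sv.mp (hμ q)
        have b := hμ0 q
        rcases e : μ q with y | i
        · rw [e] at a
          exact absurd (by simpa [hν, e] using hq) a
        · rw [e] at a b
          exact ⟨(q, i), mem_filter.mpr ⟨(mP _).mpr a, b⟩, rfl⟩
    have c2 := card_add_card_compl B
    rw [c1]
    obtain ⟨m, hm⟩ := ho
    obtain ⟨n, hn⟩ := s0
    exact ⟨m - n, by omega⟩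
  have le3 : ∀ l, (P.filter fun p => lb p = l).card ≤ 3 := fun l => by
    have := card_le_card_of_injOn (s := P.filter fun p => lb p = l) (t := univ) Prod.snd
      (fun _ _ => mem_univ _) fun p hp s hs e => by
        obtain ⟨a, b⟩ := mem_filter.mp hp
        obtain ⟨a', b'⟩ := mem_filter.mp hs
        exact dif p a s a' (b.trans b'.symm) e
    simpa using this
  have sm := card_eq_sum_card_fiberwise (s := P) (t := Ico (0 : ℤ) k) (f := lb) fun p hp =>
    mem_Ico.mpr ⟨(hG p.1).lo _ (sv p hp), (hG p.1).hi _ (sv p hp)⟩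
  set E := (Ico (0 : ℤ) k).filter fun l => (P.filter fun p => lb p = l).card ≠ 0 with hE'
  have cE : k ≤ E.card + 1 := by
    rw [← sum_filter_ne_zero] at sm
    have := sum_le_card_nsmul E (fun l => (P.filter fun p => lb p = l).card) 2 fun l hl => by
      obtain ⟨n, hn⟩ := ev l (mem_filter.mp hl).1
      have := le3 l
      omega
    rw [← sm, smul_eq_mul] at this
    omega
  obtain ⟨f, f0, f1, hf⟩ : ∃ f : ℤ, 0 ≤ f ∧ f < k ∧ ∀ l : ℤ, 0 ≤ l → l < k → l ≠ f → l ∈ E := by
    by_cases c : ∃ f : ℤ, 0 ≤ f ∧ f < k ∧ f ∉ E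
    · obtain ⟨f, f0, f1, c⟩ := c
      refine ⟨f, f0, f1, fun l l0 l1 n => ?_⟩
      by_contra d
      have := card_le_card (s := insert l (insert f E)) (t := Ico (0 : ℤ) k) fun j hj => by
        rcases mem_insert.mp hj with rfl | hj
        · exact mem_Ico.mpr ⟨l0, l1⟩
        rcases mem_insert.mp hj with rfl | hj
        · exact mem_Ico.mpr ⟨f0, f1⟩
        · exact (mem_filter.mp hj).1
      rw [card_insert_of_notMem (by simp [n, d]), card_insert_of_notMem c, Int.card_Ico] at this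
      omega
    · exact ⟨0, le_rfl, by omega, fun l l0 l1 _ => by
        by_contra d
        exact c ⟨l, l0, l1, d⟩⟩
  have fr : ∀ j l, l ∈ E → ∃ q, Far r (w j) (F q l) := by
    intro j l hl
    obtain ⟨a, b⟩ := mem_filter.mp hl
    obtain ⟨n, hn⟩ := ev l a
    obtain ⟨p, hp, s, hs, ps⟩ := one_lt_card.mp
      (show 1 < (P.filter fun p => lb p = l).card by omega)
    obtain ⟨p1, p2⟩ := mem_filter.mp hp
    obtain ⟨s1, s2⟩ := mem_filter.mp hs
    have one : ∀ p ∈ P, lb p = l → j ≠ p.2 → ∃ q, Far r (w j) (F q l) := fun p hp e n =>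
      ⟨p.1, e ▸ (h.zqw p.2 p.1 j ((mP p).mp hp) n).symm.congr (Cg.refl _ _)
        ((hG p.1).near _ (sv p hp))⟩
    by_cases c : j = p.2
    · exact one s s1 s2 fun e => ps (dif p p1 s s1 (p2.trans s2.symm) (c.symm.trans e))
    · exact one p p1 p2 c
  obtain ⟨b⟩ : Nonempty Q := Fintype.card_pos_iff.mp (by omega)
  have win : ∀ j, ∃ t, Cg r (w j) t ∧ F b f - (r - k) ≤ t ∧ t ≤ F b f + (r - k) := fun j => by
    refine flat_win hk hr (fun q => (hG q).fr) nx b fun n n1 n2 => ?_
    by_cases c : f + n < k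
    · exact fr j _ (hf _ (by omega) c (by omega))
    · obtain ⟨q, hq⟩ := fr j _ (hf (f + n - k) (by omega) (by omega) (by omega))
      have := (hG q).fr.per (f + n - k)
      rw [sub_add_cancel] at this
      exact ⟨q, hq.congr (Cg.refl _ _) (Cg.down (by linarith))⟩
  choose t t0 t1 t2 using win
  have d01 := ((h.zww 0 1 (by decide)).congr (t0 0) (t0 1)).or
  have d12 := ((h.zww 1 2 (by decide)).congr (t0 1) (t0 2)).or
  have d02 := ((h.zww 0 2 (by decide)).congr (t0 0) (t0 2)).or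
  have := t1 0
  have := t1 1
  have := t1 2
  have := t2 0
  have := t2 1
  have := t2 2
  rcases d01 with a | a <;> rcases d12 with c | c <;> rcases d02 with d | d <;> linarith

lemma fw_eq_mod {k : ℕ} {i j : ℤ} (i0 : 0 ≤ i) (i1 : i < k) (j0 : 0 ≤ j) (j1 : j < k) :
    fw k i j = (j - i) % k := by
  unfold fw
  split_ifs
  · exact (Int.emod_eq_of_lt (by omega) (by omega)).symm
  · rw [← Int.add_emod_right]
    exact (Int.emod_eq_of_lt (by omega) (by omega)).symm

lemma fw_mod {k : ℕ} {i j : ℤ} (s : ℤ) (i0 : 0 ≤ i) (i1 : i < k) (j0 : 0 ≤ j) (j1 : j < k) :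
    fw k ((i - s) % k) ((j - s) % k) = fw k i j := by
  have hk : (0 : ℤ) < k := by omega
  rw [fw_eq_mod i0 i1 j0 j1, fw_eq_mod (Int.emod_nonneg _ hk.ne') (Int.emod_lt_of_pos _ hk)
    (Int.emod_nonneg _ hk.ne') (Int.emod_lt_of_pos _ hk), ← Int.sub_emod]
  congr 1
  ring

/-- Moving the start of a frame. -/
lemma Good.shift {A : Type} {k : ℕ} {r : ℝ} {S : Finset A} {c : A → ℝ} {f : ℤ → ℝ} {κ : A → ℤ}
    (h : Good k r S c f κ) (hk : 0 < k) (b : ℤ) :
    Good k r S c (fun i => f (b + i)) fun e => (κ e - b) % k := by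
  have hk' : (0 : ℤ) < k := by exact_mod_cast hk
  refine ⟨⟨fun i => ?_, fun i => ?_⟩, fun _ _ => Int.emod_nonneg _ hk'.ne',
    fun _ _ => Int.emod_lt_of_pos _ hk', fun y hy => (h.near y hy).trans ⟨(κ y - b) / k, ?_⟩,
    fun y hy z hz e => h.inj y hy z hz ?_⟩
  · rw [← add_assoc]; exact h.fr.step _
  · rw [← add_assoc]; exact h.fr.per _
  · rw [← h.fr.perZ]
    congr 1
    have := Int.emod_add_mul_ediv (κ y - b) k
    linarith
  · have a := fw_mod b (h.lo y hy) (h.hi y hy) (h.lo z hz) (h.hi z hz)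
    have := h.lo y hy
    have := h.hi y hy
    have := h.lo z hz
    have := h.hi z hz
    rw [e, fw_self] at a
    unfold fw at a
    split_ifs at a <;> omega

/-- An antisymmetric cocycle on a complete graph is a difference. -/
lemma exists_pot {W : Type} (b : W) (f : W → W → ℤ) (h1 : ∀ x y, y ≠ x → f x y + f y x = 0)
    (h2 : ∀ x y z, x ≠ y → y ≠ z → z ≠ x → f x y + f y z + f z x = 0) :
    ∃ σ : W → ℤ, ∀ x y, y ≠ x → σ x - σ y = f x y := by
  classical
  refine ⟨fun x => if x = b then 0 else f x b, fun x y n => ?_⟩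
  by_cases c : x = b
  · have := h1 x y n
    rw [c] at n this ⊢
    simp only [if_true, if_neg n]
    omega
  by_cases d : y = b
  · simp [c, d]
  have := h2 x y b n.symm d (Ne.symm c)
  have := h1 x b (Ne.symm c)
  have := h1 y b (Ne.symm d)
  have := h1 x y n
  simp only [if_neg c, if_neg d]
  omega

/-- Label sums around the triangles of a wound clique. -/
lemma Clq.rsum {W : Type} [Fintype W] {k : ℕ} {r : ℝ} {F : W → ℤ → ℝ} {κ : W → W → ℤ}
    (h : Clq k r univ F κ) (hk : 5 ≤ k) (hr : r < k + 1) {cl : W → Fin 3} (sur : ∀ j, ∃ y, cl y = j)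
    (sh : ∀ x y z, x ≠ y → y ≠ z → z ≠ x → (Short k κ x y z ↔ cl y + 1 = cl x ∧ cl z + 2 = cl x))
    (o1 : ∀ x y z, z ≠ x → cl y + 1 = cl x → cl z = cl x → κ x y < κ x z)
    (o2 : ∀ x y z, y ≠ x → cl y = cl x → cl z = cl x + 1 → κ x y < κ x z)
    (o3 : ∀ x y z, cl y + 1 = cl x → cl z = cl x + 1 → κ x y < κ x z)
    {x y z : W} (xy : x ≠ y) (yz : y ≠ z) (zx : z ≠ x) :
    κ x y - κ y x + (κ y z - κ z y) + (κ z x - κ x z) =
      (lf (cl x) (cl y) + lf (cl y) (cl z) + lf (cl z) (cl x)) * (2 * k + 1) := by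
  have u := @mem_univ W _
  have n1 : ∀ {x y}, cl y = cl x + 1 → x ≠ y := fun {x y} e c => by
    rw [c] at e; revert e; generalize cl y = a; revert a; decide
  have n2 : ∀ {x y}, cl y = cl x + 2 → x ≠ y := fun {x y} e c => by
    rw [c] at e; revert e; generalize cl y = a; revert a; decide
  have t1 : ∀ a : Fin 3, a + 1 + 1 = a + 2 ∧ a + 2 + 1 = a ∧ a + 1 + 2 = a ∧ a + 2 + 2 = a + 1 ∧
      a + 1 ≠ a ∧ a + 2 ≠ a ∧ a + 2 ≠ a + 1 := by decide
  have R1 : ∀ x y z, cl y = cl x + 1 → cl z = cl x + 2 →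
      κ x y - κ y x + (κ y z - κ z y) + (κ z x - κ x z) = 2 * k + 1 := by
    intro x y z a b
    obtain ⟨e1, e2, e3, e4, -⟩ := t1 (cl x)
    have xy := n1 a
    have xz := n2 b
    have yz : y ≠ z := n1 (by rw [a, b, e1])
    have s := (sh x z y xz yz.symm xy.symm).mpr ⟨by rw [b, e2], by rw [a, e3]⟩
    have d := h.tri_rev (u x) (u y) (u z) xy yz xz.symm
    have p1 := o3 y x z a.symm (by rw [a, b, e1])
    have p2 := o3 z y x (by rw [a, b, e1]) (by rw [b, e2])
    have p3 := o3 x z y (by rw [b, e2]) a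
    unfold Short at s
    rw [s] at d
    unfold tri st fw at d
    rw [if_pos p1.le, if_pos p2.le, if_pos p3.le] at d
    omega
  have A : ∀ x y z, y ≠ x → cl y = cl x → cl z = cl x + 1 →
      κ x y - κ y x + (κ y z - κ z y) + (κ z x - κ x z) = 0 ∨
        κ x y - κ y x + (κ y z - κ z y) + (κ z x - κ x z) = k := by
    intro x y z yx a b
    obtain ⟨e1, e2, e3, e4, e5, e6, e7⟩ := t1 (cl x)
    obtain ⟨v, c⟩ := sur (cl x + 2)
    have xz := n1 b
    have xv := n2 c
    have yz : y ≠ z := n1 (by rw [a, b])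
    have yv : y ≠ v := n2 (by rw [a, c])
    have zv : z ≠ v := n1 (by rw [b, c, e1])
    have w4 := h.walk4 hr (u v) (u x) (u y) (u z) xv.symm yx.symm yz zv yv.symm xz rfl
    have tc := h.tri_cases hr (u x) (u y) (u z) yx.symm yz xz.symm
    have d := h.tri_rev (u x) (u y) (u z) yx.symm yz xz.symm
    have s1 : ¬Short k κ x y z := fun s => e5 (by
      have := ((sh x y z yx.symm yz xz.symm).mp s).1
      rwa [a] at this)
    have s2 : ¬Short k κ x z y := fun s => e6 (by
      have := ((sh x z y xz yz.symm yx).mp s).2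
      rwa [a] at this)
    have r1 := R1 x z v b c
    have p1 := o1 x v y yx (by rw [c, e2]) a
    have p2 := o2 y x z yx.symm a.symm (by rw [a, b])
    have p3 := o3 z y v (by rw [a, b]) (by rw [b, c, e1])
    have p4 := o3 v z x (by rw [b, c, e1]) (by rw [c, e2])
    have p5 := o2 x y z yx a b
    unfold Short at s1 s2
    have tc' : tri k κ x y z = k ∨ tri k κ x y z = 2 * k := by omega
    unfold tri st fw at tc'
    unfold st fw at w4
    rw [if_pos p1.le, if_pos p2.le, if_pos p3.le, if_pos p4.le] at w4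
    rw [if_pos p2.le, if_neg p5.not_ge] at tc'
    split_ifs at tc' <;> omega
  have R2 : ∀ x y z, y ≠ x → cl y = cl x → cl z = cl x + 1 →
      κ x y - κ y x + (κ y z - κ z y) + (κ z x - κ x z) = 0 := by
    intro x y z yx a b
    have := A x y z yx a b
    have := A y x z yx.symm a.symm (by rw [a, b])
    omega
  have R3 : ∀ x y z, y ≠ x → cl y = cl x → cl z = cl x + 2 →
      κ x y - κ y x + (κ y z - κ z y) + (κ z x - κ x z) = 0 := by
    intro x y z yx a b
    obtain ⟨v, c⟩ := sur (cl x + 1)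
    have := R2 x y v yx a c
    have := R1 x v z c b
    have := R1 y v z (by rw [a, c]) (by rw [a, b])
    omega
  have cs : ∀ a b : Fin 3, b = a ∨ b = a + 1 ∨ b = a + 2 := by decide
  have l0 : ∀ a : Fin 3, lf a a = 0 ∧ lf a (a + 1) + lf (a + 1) a = 0 ∧
      lf a (a + 2) + lf (a + 2) a = 0 ∧ lf (a + 1) (a + 1) = 0 ∧ lf (a + 2) (a + 2) = 0 ∧
      lf a (a + 1) + lf (a + 1) (a + 2) + lf (a + 2) a = 1 ∧
      lf a (a + 2) + lf (a + 2) (a + 1) + lf (a + 1) a = -1 := by decide
  obtain ⟨e1, e2, e3, e4, -⟩ := t1 (cl x)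
  obtain ⟨q1, q2, q3, q4, q5, q6, q7⟩ := l0 (cl x)
  rcases cs (cl x) (cl y) with a | a | a <;> rcases cs (cl x) (cl z) with b | b | b <;> rw [a, b]
  · obtain ⟨v, c⟩ := sur (cl x + 1)
    have := R2 x y v xy.symm a c
    have := R2 y z v yz.symm (by rw [a, b]) (by rw [a, c])
    have := R2 z x v zx.symm b.symm (by rw [b, c])
    rw [q1]; omega
  · rw [R2 x y z xy.symm a b, add_assoc, q1, q2]; simp
  · rw [R3 x y z xy.symm a b, add_assoc, q1, q3]; simp
  · have := R2 z x y zx.symm b.symm (by rw [a, b])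
    rw [q1, q2]; omega
  · have := R3 y z x yz.symm (by rw [a, b]) (by rw [a, e3])
    rw [q4, add_zero, q2]; omega
  · rw [R1 x y z a b, q6, one_mul]
  · have := R3 z x y zx.symm b.symm (by rw [a, b])
    rw [q1, q3]; omega
  · have := R1 x z y b a
    rw [q7]; omega
  · have := R2 y z x yz.symm (by rw [a, b]) (by rw [a, e2])
    rw [q5, add_zero, q3]; omega

lemma Fr.dev {k : ℕ} {r : ℝ} {f : ℤ → ℝ} (h : Fr k r f) {i j : ℤ} (i1 : i < k) (j0 : 0 ≤ j) :
    f i - f j ≤ i - j + (r - k) := by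
  have := h.upper (i := j) (j := i) (by omega)
  linarith

/-- Every colouring of the block with `r < k + 1` is a helix. -/
theorem Blk.hel {Q : Type} [Fintype Q] {k : ℕ} {r : ℝ} {sr : Q → Fin 3} {C : Q → Q ⊕ Fin 3 → ℝ}
    {w : Fin 3 → ℝ} (h : Blk r sr C w) (hk : 7 ≤ k) (ho : Odd k) (hQ : Fintype.card Q + 1 = k)
    (hr1 : 1 ≤ r) (hr : r < k + 1) : ∃ cl m σ H T, Hel k r sr C cl m σ H T := by
  classical
  have hrp : 0 < r := by linarith
  have k7 : (7 : ℝ) ≤ k := by exact_mod_cast hk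
  have u := @mem_univ Q _
  have sv : ∀ {x y : Q}, y ≠ x → inl y ∈ Sv sr x := fun e => mem_Sv.mpr e
  have hf : ∀ x, ∀ y ∈ Sv sr x, ∀ z ∈ Sv sr x, y ≠ z → Far r (C x y) (C x z) :=
    fun x y hy z hz => h.far x y z (mem_Sv.mp hy) (mem_Sv.mp hz)
  have clq : ∀ {F : Q → ℤ → ℝ} {κ : Q → Q ⊕ Fin 3 → ℤ}, (∀ q, Good k r (Sv sr q) (C q) (F q) (κ q)) →
      Clq k r univ F fun x y => κ x (inl y) := fun hG =>
    ⟨fun x _ => (hG x).fr, fun x _ y _ e => (hG x).lo _ (sv e), fun x _ y _ e => (hG x).hi _ (sv e),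
      fun x _ y _ z _ e e' d => inl.inj ((hG x).inj _ (sv e) _ (sv e') d), fun x _ y _ e =>
        ((hG x).near _ (sv e)).symm.trans ((h.sym x y e).trans ((hG y).near _ (sv e.symm)))⟩
  obtain ⟨b, b', bb⟩ := Fintype.exists_pair_of_one_lt_card (α := Q) (by omega)
  obtain ⟨f1, κ1, hG1, -⟩ := exists_good hrp (Sv sr b) (card_Sv hQ sr b) (C b) (hf b) _ (sv bb.symm)
    0 le_rfl (by omega) _ (Cg.refl _ _) hr1
  have gen : ∀ x, ∃ f κ, Good k r (Sv sr x) (C x) f κ ∧ Al (r - k) f1 f ∧ (x = b → κ = κ1) ∧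
      (x ≠ b → κ (inl b) = κ1 (inl x)) := by
    intro x
    by_cases c : x = b
    · subst c
      exact ⟨f1, κ1, hG1, Al.refl hG1.fr.eps_nonneg _, fun _ => rfl, fun e => absurd rfl e⟩
    obtain ⟨g, μ, hg, e0, e⟩ := exists_good hrp (Sv sr x) (card_Sv hQ sr x) (C x) (hf x) _
      (sv (Ne.symm c)) _ (hG1.lo _ (sv c)) (hG1.hi _ (sv c)) _
      ((h.sym b x c).symm.trans (hG1.near _ (sv c))) hr1
    exact ⟨g, μ, hg, hG1.fr.aligned hg.fr (by omega) e.symm, fun e => absurd e c, fun _ => e0⟩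
  choose F κ hG hA h1 h2 using gen
  have hb : ∀ x, x ≠ b → κ x (inl b) = κ b (inl x) := fun x hx => by rw [h2 x hx, h1 b rfl]
  have q := clq hG
  have hQ' : k ≤ (univ : Finset Q).card + 1 := by rw [card_univ]; omega
  by_cases fl : ∀ x y z, x ≠ y → y ≠ z → z ≠ x → ¬Short k (fun x y => κ x (inl y)) x y z
  · refine (flat_false h (by omega) ho hQ hr hG fun x y yx => ?_).elim
    have e : κ x (inl y) = κ y (inl x) := by
      by_cases c1 : x = b
      · rw [c1] at yx ⊢; exact (hb y yx).symm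
      by_cases c2 : y = b
      · rw [c2]; exact hb x c1
      exact q.anchored hr (u b) (u x) (u y) c1 c2 yx (hb x c1) (hb y c2)
        (fl b x y (Ne.symm c1) yx.symm c2) (fl b y x (Ne.symm c2) yx c1)
    refine ⟨e, ?_⟩
    have n := q.cg x (u x) y (u y) yx
    have := abs_le.mp (((hA x).symm.trans (hA y)) (κ x (inl y)))
    beta_reduce at n
    rw [← e] at n
    exact (Cg.refl _ _).uniq n (by linarith [this.2]) (by linarith [this.1])
  push Not at fl
  obtain ⟨x0, y0, z0, xy0, yz0, zx0, s0⟩ := fl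
  obtain ⟨c, c0, c1, c2, hc⟩ := q.classes (by omega) hr hQ' (u x0) (u y0) (u z0) xy0 yz0 zx0 s0
  have z3 : ∀ i : ZMod 3, i = 0 ∨ i = 1 ∨ i = 2 := by decide
  have sur : ∀ i, ∃ y ∈ (univ : Finset Q), c y = i := fun i => by
    rcases z3 i with rfl | rfl | rfl
    exacts [⟨x0, u _, c0⟩, ⟨y0, u _, c1⟩, ⟨z0, u _, c2⟩]
  choose s hs using fun x => (q.blocks (by omega) hr hQ' hc sur (u x)).2
  set cl : Q → Fin 3 := fun x => (-c x : ZMod 3) with hcl
  set m : Fin 3 → ℕ := fun j => (univ.filter fun q => cl q = j).card with hm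
  set G : Q → ℤ → ℝ := fun x i => F x (s x + i) with hGd
  set a : Q → Q ⊕ Fin 3 → ℤ := fun x e => (κ x e - s x) % k with ha
  have gd : ∀ x, Good k r (Sv sr x) (C x) (G x) (a x) := fun x => (hG x).shift (by omega) _
  have v1 : ∀ x y, c y = c x + 1 ↔ cl y + 1 = cl x := fun x y => by
    simp only [hcl]; generalize c x = i; generalize c y = j; revert i j; decide
  have v0 : ∀ x y, c y = c x ↔ cl y = cl x := fun x y => by
    simp only [hcl]; generalize c x = i; generalize c y = j; revert i j; decide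
  have v2 : ∀ x y, c y = c x + 2 ↔ cl y = cl x + 1 := fun x y => by
    simp only [hcl]; generalize c x = i; generalize c y = j; revert i j; decide
  have t1 : ∀ i j : Fin 3, (j + 1 = i ↔ j = i - 1) ∧ (j = i + 1 ↔ j + 2 = i) ∧ i + 1 ≠ i ∧
      (j = i ∨ j + 1 = i ∨ j = i + 1) := by decide
  have m1 : ∀ x, (univ.filter fun q => c q = c x + 1).card = m (cl x - 1) := fun x => by
    simp only [hm, v1, (t1 _ _).1]
  have m2 : ∀ x, (univ.filter fun q => c q = c x + 2).card = m (cl x + 1) := fun x => by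
    simp only [hm, v2]
  have sur' : ∀ j, ∃ y, cl y = j := fun j => by
    obtain ⟨y, -, e⟩ := sur (-j)
    exact ⟨y, by simp only [hcl, e]; clear e; revert j; decide⟩
  have tot : m 0 + m 1 + m 2 + 1 = k := by
    have := card_eq_sum_card_fiberwise (s := univ) (t := univ) (f := cl) fun _ _ => mem_univ _
    rw [Fin.sum_univ_three, card_univ] at this
    simp only [hm]
    omega
  have tot' : ∀ j, m (j - 1) + m j + m (j + 1) + 1 = k := fun j => by
    fin_cases j
    · change m 2 + m 0 + m 1 + 1 = k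
      omega
    · exact tot
    · change m 1 + m 2 + m 0 + 1 = k
      omega
  have ne1 : ∀ {x y}, cl y + 1 = cl x → y ≠ x := fun {x y} e d => (t1 (cl x) 0).2.2.1 (by rwa [d] at e)
  have ne2 : ∀ {x y}, cl y = cl x + 1 → y ≠ x := fun e => (ne1 e.symm).symm
  have b1 : ∀ x y, cl y + 1 = cl x → a x (inl y) < m (cl x - 1) := fun x y e => by
    rw [← m1]; exact (hs x y (u y) (ne1 e)).1 ((v1 x y).mpr e)
  have b0 : ∀ x y, y ≠ x → cl y = cl x →
      (m (cl x - 1) : ℤ) ≤ a x (inl y) ∧ a x (inl y) < k - m (cl x + 1) := fun x y n e => by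
    rw [← m1, ← m2]; exact (hs x y (u y) n).2.1 ((v0 x y).mpr e)
  have b2 : ∀ x y, cl y = cl x + 1 → (k : ℤ) - m (cl x + 1) ≤ a x (inl y) := fun x y e => by
    rw [← m2]; exact (hs x y (u y) (ne2 e)).2.2 ((v2 x y).mpr e)
  have fill : ∀ x i j (lo : ℤ), i ≠ sr x → j ≠ cl x →
      (∀ y, cl y = j → lo ≤ a x (inl y) ∧ a x (inl y) < lo + m j) →
      ¬(lo ≤ a x (inr i) ∧ a x (inr i) < lo + m j) := by
    intro x i j lo hi hj hy hz
    have mem : ∀ e ∈ insert (inr i) ((univ.filter fun q => cl q = j).map Function.Embedding.inl),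
        e ∈ Sv sr x ∧ lo ≤ a x e ∧ a x e < lo + m j := by
      intro e he
      rcases mem_insert.mp he with rfl | he
      · exact ⟨mem_Sv.mpr hi, hz⟩
      · obtain ⟨y, y1, rfl⟩ := mem_map.mp he
        have y2 := (mem_filter.mp y1).2
        exact ⟨sv fun d => hj (by rw [← y2, d]), hy y y2⟩
    have := card_le_card_of_injOn (t := Ico lo (lo + m j)) (a x)
      (fun e he => mem_Ico.mpr (mem e he).2)
      fun e he e' he' d => (gd x).inj e (mem e he).1 e' (mem e' he').1 d
    rw [card_insert_of_notMem (by simp), card_map, Int.card_Ico] at this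
    simp only [hm] at this
    omega
  have q' := clq gd
  have stq : ∀ x y z, y ≠ x → z ≠ x → st k (fun x y => a x (inl y)) x y z =
      st k (fun x y => κ x (inl y)) x y z := fun x y z yx zx =>
    fw_mod _ ((hG x).lo _ (sv yx)) ((hG x).hi _ (sv yx)) ((hG x).lo _ (sv zx)) ((hG x).hi _ (sv zx))
  have R := fun x y z => q'.rsum (by omega) hr sur' (fun x y z xy yz zx => by
      rw [← (t1 _ _).2.1, ← v1, ← v2, ← hc x (u x) y (u y) z (u z) xy yz zx]
      unfold Short tri
      rw [stq y x z xy yz.symm, stq z y x yz zx.symm, stq x z y zx xy.symm])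
    (fun x y z n e e' => (b1 x y e).trans_le (b0 x z n e').1)
    (fun x y z n e e' => (b0 x y n e).2.trans_le (b2 x z e'))
    (fun x y z e e' => by
      have := b1 x y e
      have := b2 x z e'
      have := tot' (cl x)
      omega) (x := x) (y := y) (z := z)
  have lr : ∀ i j, lf j i = -lf i j := by decide
  have l1 : ∀ i j l, -1 ≤ lf i j + lf j l + lf l i ∧ lf i j + lf j l + lf l i ≤ 1 := by decide
  obtain ⟨σ, hσ⟩ := exists_pot b
    (fun x y => lf (cl x) (cl y) * (2 * k + 1) - (a x (inl y) - a y (inl x)))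
    (fun x y _ => by rw [lr (cl x)]; ring) fun x y z xy yz zx => by
      have := R x y z xy yz zx
      beta_reduce at this
      linarith
  have hn : ∀ x y, ∃ n : ℤ, y ≠ x → G x (a x (inl y)) = G y (a y (inl x)) + n * r := fun x y => by
    by_cases c : y = x
    · exact ⟨0, fun d => absurd c d⟩
    · obtain ⟨n, e⟩ := q'.cg x (u x) y (u y) c
      exact ⟨n, fun _ => e⟩
  choose n hn using hn
  have zero : ∀ N : ℤ, -r < N * r → N * r < r → N = 0 := fun N d1 d2 => by
    have e1 : (-1 : ℝ) < N := by by_contra d; nlinarith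
    have e2 : (N : ℝ) < 1 := by by_contra d; nlinarith
    have : (-1 : ℤ) < N := by exact_mod_cast e1
    have : N < 1 := by exact_mod_cast e2
    omega
  have g0 := hG1.fr.eps_nonneg
  obtain ⟨ν, hν⟩ := exists_pot b (fun x y => 2 * lf (cl x) (cl y) - n x y)
    (fun x y yx => by
      have e1 := hn x y yx
      have e2 := hn y x yx.symm
      have := zero (n x y + n y x) (by push_cast; linarith) (by push_cast; linarith)
      rw [lr (cl x)]
      omega) fun x y z xy yz zx => by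
      have e := R x y z xy yz zx
      have dv : ∀ x y z, y ≠ x → z ≠ x → G x (a x (inl y)) - G x (a x (inl z)) ≤
          a x (inl y) - a x (inl z) + (r - k) := fun x y z yx zx =>
        (gd x).fr.dev ((gd x).hi _ (sv yx)) ((gd x).lo _ (sv zx))
      have d1 := dv x y z xy.symm zx
      have d2 := dv x z y zx xy.symm
      have d3 := dv y z x yz.symm xy
      have d4 := dv y x z xy yz.symm
      have d5 := dv z x y zx.symm yz
      have d6 := dv z y x yz zx.symm
      have e1 := hn x y xy.symm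
      have e2 := hn y z yz.symm
      have e3 := hn z x zx.symm
      have l := l1 (cl x) (cl y) (cl z)
      set L := lf (cl x) (cl y) + lf (cl y) (cl z) + lf (cl z) (cl x) with hL
      have e' : (a x (inl y) : ℝ) - a y (inl x) + (a y (inl z) - a z (inl y)) +
          (a z (inl x) - a x (inl z)) = L * (2 * k + 1) := by exact_mod_cast e
      have : n x y + n y z + n z x - 2 * L = 0 := by
        rcases (show L = -1 ∨ L = 0 ∨ L = 1 by omega) with d | d | d <;> rw [d] at e' ⊢ <;>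
          push_cast at e' <;>
          exact zero _ (by push_cast; linarith) (by push_cast; linarith)
      omega
  refine ⟨cl, m, σ, fun x e => σ x + a x e, fun x i => G x (i - σ x) + ν x * r,
    fun _ => by simp only [hm], fun j => ?_, tot, fun x => ⟨fun i => ?_, fun i => ?_⟩,
    fun x e he => ?_, fun x e e' he he' d => ?_, fun x y e => ?_, fun x y yx e => ?_,
    fun x i hi => ?_, fun x y e => ?_, fun x y yx => ?_, fun x y yx => ?_⟩
  · obtain ⟨y, e⟩ := sur' j
    exact card_pos.mpr ⟨y, mem_filter.mpr ⟨u y, e⟩⟩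
  · have := (gd x).fr.step (i - σ x)
    rw [show i + 1 - σ x = i - σ x + 1 by ring]
    linarith
  · rw [show i + k - σ x = i - σ x + k by ring, (gd x).fr.per]
    ring
  · rw [add_sub_cancel_left]
    exact ((gd x).near e (mem_Sv.mpr he)).trans (Cg.symm ⟨ν x, rfl⟩)
  · exact (gd x).inj e (mem_Sv.mpr he) e' (mem_Sv.mpr he') (add_left_cancel d)
  · have := b1 x y e
    have := (gd x).lo _ (sv (ne1 e))
    rw [(t1 _ _).1.mp e]
    omega
  · have := b0 x y yx e
    have := tot' (cl x)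
    omega
  · have p1 := fill x i (cl x - 1) 0 hi (by generalize cl x = j; revert j; decide) fun y e => by
      have e' := (t1 _ _).1.mpr e
      have := b1 x y e'
      have := (gd x).lo _ (sv (ne1 e'))
      omega
    have p2 := fill x i (cl x + 1) (k - m (cl x + 1)) hi (t1 _ 0).2.2.1 fun y e => by
      have := b2 x y e
      have := (gd x).hi _ (sv (ne2 e))
      omega
    have := (gd x).lo _ (mem_Sv.mpr (show Va sr x (inr i) from hi))
    have := (gd x).hi _ (mem_Sv.mpr (show Va sr x (inr i) from hi))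
    have := tot' (cl x)
    omega
  · have := b2 x y e
    have := (gd x).hi _ (sv (ne2 e))
    rw [e]
    omega
  · have := hσ x y yx
    beta_reduce at this
    omega
  · have e1 := hn x y yx
    have e2 : (ν x : ℝ) - ν y = 2 * lf (cl x) (cl y) - n x y := by exact_mod_cast hν x y yx
    rw [add_sub_cancel_left, add_sub_cancel_left, e1]
    linear_combination e2 * r

section Sym
variable {Q : Type} [Fintype Q] {k : ℕ} {r : ℝ} {sr : Q → Fin 3} {C : Q → Q ⊕ Fin 3 → ℝ}
  {cl : Q → Fin 3} {m : Fin 3 → ℕ} {σ : Q → ℤ} {H : Q → Q ⊕ Fin 3 → ℤ} {T : Q → ℤ → ℝ}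

lemma Hel.tot' (h : Hel k r sr C cl m σ H T) (j : Fin 3) :
    m (j - 1) + m j + m (j + 1) + 1 = k := by
  have := h.tot
  fin_cases j
  · change m 2 + m 0 + m 1 + 1 = k
    omega
  · exact this
  · change m 1 + m 2 + m 0 + 1 = k
    omega

/-- One lap for the class `0`, none for the others. -/
def z0 (j : Fin 3) : ℤ := if j = 0 then 1 else 0

/-- Rotation: the first class becomes the last one. -/
theorem Hel.rot (h : Hel k r sr C cl m σ H T) :
    Hel k r sr C (fun q => cl q - 1) (fun j => m (j + 1))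
      (fun q => σ q + z0 (cl q) * (2 * k + 1)) (fun q e => H q e + z0 (cl q) * (2 * k + 1))
      fun q i => T q (i - z0 (cl q) * (2 * k + 1)) + z0 (cl q) * (2 * r) := by
  have t1 : ∀ a b : Fin 3, (a - 1 = b ↔ a = b + 1) ∧ a - 1 + 1 = a ∧ a - 1 - 1 + 1 = a - 1 ∧
      (a - 1 + 1 = b - 1 → a + 1 = b) ∧ (a - 1 = b - 1 → a = b) ∧ (a - 1 = b - 1 + 1 → a = b + 1) ∧
      lf (a - 1) (b - 1) = lf a b + z0 a - z0 b := by decide
  refine ⟨fun j => ?_, fun j => h.pos _, ?_, fun q => ⟨fun i => ?_, fun i => ?_⟩, fun q e he => ?_,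
    fun q e e' he he' d => h.inj q e e' he he' (add_right_cancel d), fun q y e => ?_,
    fun q y n e => ?_, fun q i n => ?_, fun q y e => ?_, fun q y n => ?_, fun q y n => ?_⟩
  · simp only [(t1 _ _).1, h.card]
  · have := h.tot
    change m 1 + m 2 + m 0 + 1 = k
    omega
  · rw [add_sub_right_comm]
    linarith [(h.fr q).step (i - z0 (cl q) * (2 * k + 1))]
  · rw [add_sub_right_comm, (h.fr q).per]
    ring
  · rw [add_sub_cancel_right]
    exact (h.cg q e he).trans (Cg.symm ⟨z0 (cl q) * 2, by push_cast; ring⟩)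
  · have := h.early q y ((t1 _ _).2.2.2.1 e)
    rw [(t1 _ 0).2.1]
    omega
  · have := h.own q y n ((t1 _ _).2.2.2.2.1 e)
    rw [(t1 _ 0).2.1, (t1 _ 0).2.1]
    omega
  · have := h.out q i n
    rw [(t1 _ 0).2.1, (t1 _ 0).2.1]
    omega
  · have := h.late q y ((t1 _ _).2.2.2.2.2.1 e)
    rw [(t1 _ 0).2.1]
    omega
  · rw [h.lab q y n, (t1 _ _).2.2.2.2.2.2]
    ring
  · rw [add_sub_cancel_right, add_sub_cancel_right, h.tim q y n, (t1 _ _).2.2.2.2.2.2]
    push_cast
    ring

/-- Reversal of time. -/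
theorem Hel.rev (h : Hel k r sr C cl m σ H T) :
    Hel k r sr (fun q e => -C q e) (fun q => 2 - cl q) (fun j => m (2 - j))
      (fun q => -(σ q + k - 1)) (fun q e => -H q e) fun q i => -T q (-i) := by
  have t1 : ∀ a b : Fin 3, (2 - a = b ↔ a = 2 - b) ∧ 2 - (2 - a) = a ∧ 2 - (2 - a - 1) = a + 1 ∧
      (2 - a + 1 = 2 - b → a = b + 1) ∧ (2 - a = 2 - b → a = b) ∧
      (2 - a = 2 - b + 1 → a + 1 = b) ∧ lf (2 - a) (2 - b) = -lf a b := by decide
  refine ⟨fun j => ?_, fun j => h.pos _, ?_, fun q => ⟨fun i => ?_, fun i => ?_⟩, fun q e he => ?_,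
    fun q e e' he he' d => h.inj q e e' he he' (neg_injective d), fun q y e => ?_,
    fun q y n e => ?_, fun q i n => ?_, fun q y e => ?_, fun q y n => ?_, fun q y n => ?_⟩
  · simp only [(t1 _ _).1, h.card]
  · have := h.tot
    change m 2 + m 1 + m 0 + 1 = k
    omega
  · have := (h.fr q).step (-(i + 1))
    rw [show -(i + 1) + 1 = -i by ring] at this
    linarith
  · have := (h.fr q).per (-(i + k))
    rw [show -(i + k) + k = -i by ring] at this
    linarith
  · rw [neg_neg]
    exact (h.cg q e he).neg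
  · have := h.late q y ((t1 _ _).2.2.2.1 e)
    rw [(t1 _ 0).2.1]
    omega
  · have := h.own q y n ((t1 _ _).2.2.2.2.1 e)
    have := h.tot' (cl q)
    rw [(t1 _ 0).2.2.1, (t1 _ 0).2.1]
    omega
  · have := h.out q i n
    have := h.tot' (cl q)
    rw [(t1 _ 0).2.2.1, (t1 _ 0).2.1]
    omega
  · have := h.early q y ((t1 _ _).2.2.2.2.2.1 e)
    rw [(t1 _ 0).2.1]
    omega
  · rw [h.lab q y n, (t1 _ _).2.2.2.2.2.2]
    ring
  · rw [neg_neg, neg_neg, h.tim q y n, (t1 _ _).2.2.2.2.2.2]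
    push_cast
    ring

omit [Fintype Q] in
lemma Blk.neg {w : Fin 3 → ℝ} (h : Blk r sr C w) : Blk r sr (fun q e => -C q e) fun i => -w i :=
  ⟨fun q y n => (h.sym q y n).neg, fun q e e' a b c => (h.far q e e' a b c).neg,
    fun i q y a b c => (h.zqq i q y a b c).neg, fun i q j a b => (h.zqw i q j a b).neg,
    fun i j a => (h.zww i j a).neg⟩

end Sym

end Pool.Agent.P.MP_3f5ded_co.UG
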