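import Pool.Agent.P.MP_3f5ded_co.USTk

set_option autoImplicit false

namespace Pool.Agent.P.MP_3f5ded_co.UG

namespace Tk
variable {k : ℤ} {r : ℝ} (t : Tk k r)

/-- Some leaf item of the cell `n` lies one unit before `W j`. -/
def Bef (j n : ℤ) : Prop := ∃ z i, t.InC z i n ∧ t.G z i + 1 ≤ t.W j

lemma InC_nz {z : Fin 3} {i n : ℤ} (h : t.InC z i n) : ¬t.Zc n := by
  rintro ⟨a, b⟩
  rcases h.2 with e | e
  · exact t.cnt_zero.1 a z ⟨i, h.1, e⟩
  · exact t.cnt_zero.1 b z ⟨i, h.1, e⟩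

lemma InC_per {z : Fin 3} {i n : ℤ} : t.InC z (i + k) (n + (k + 2)) ↔ t.InC z i n := by
  unfold InC
  rw [t.Qper, t.tb_per]
  refine and_congr_right fun h => ?_
  rw [t.tau_per h]
  omega

lemma Bef_per (j n : ℤ) : t.Bef (j + 3) (n + (k + 2)) ↔ t.Bef j n := by
  constructor
  · rintro ⟨z, i, h, g⟩
    refine ⟨z, i - k, t.InC_per.1 (by rwa [sub_add_cancel]), ?_⟩
    have a := t.per z (i - k)
    rw [sub_add_cancel] at a
    rw [t.Wper] at g
    linarith
  · rintro ⟨z, i, h, g⟩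
    refine ⟨z, i + k, t.InC_per.2 h, ?_⟩
    rw [t.Wper, t.per]
    linarith

lemma exists_n0 (j : ℤ) : ∃ n, t.Bef j n ∧ ∀ m, t.Bef j m → m ≤ n := by
  have he : ∃ n, t.Bef j n := by
    obtain ⟨L, hL⟩ := exists_nat_ge (t.G 0 0 - t.W j + 1)
    obtain ⟨i, hi, -, h2⟩ := t.gl 0 (-(L : ℤ))
    have a := t.Gmono 0 (show i ≤ 0 by omega)
    have b : (L : ℝ) ≤ ((0 - i : ℤ) : ℝ) := by exact_mod_cast (show (L : ℤ) ≤ 0 - i by omega)
    obtain ⟨n, hn⟩ := t.cell (t.tau 0 i)
    exact ⟨n, 0, i, ⟨hi, hn.imp id fun h => h.1⟩, by linarith⟩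
  have hb : ∃ b : ℤ, ∀ n : ℤ, t.Bef j n → n ≤ b := by
    obtain ⟨L, hL⟩ := exists_nat_ge (t.W j - t.G 0 0)
    obtain ⟨i, hi, h2, -⟩ := t.gr 0 (L : ℤ)
    have a := t.Gmono 0 (show 0 ≤ i by omega)
    have b : (L : ℝ) ≤ ((i - 0 : ℤ) : ℝ) := by exact_mod_cast (show (L : ℤ) ≤ i - 0 by omega)
    refine ⟨max 0 (t.tau 0 i - t.tb 0), ?_⟩
    rintro n ⟨z, l, h, g⟩
    have s := t.short (ν := 1) h.1 hi (by omega) (by push_cast; linarith)
    by_contra e
    have := t.tb_lt (show 0 ≤ n by omega)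
    have := h.2
    omega
  exact Int.exists_greatest_of_bdd hb he

lemma exists_n1 {n : ℤ} (h : ¬t.Zc n) :
    ∃ m, (n < m ∧ ¬t.Zc m) ∧ ∀ x, n < x → x < m → t.Zc x := by
  have := t.k11
  obtain ⟨m, h1, h2⟩ := Int.exists_least_of_bdd (P := fun m => n < m ∧ ¬t.Zc m)
    ⟨n, fun z hz => hz.1.le⟩ ⟨n + (k + 2), by omega, fun g => h ((t.Zc_per n).1 g)⟩
  refine ⟨m, h1, fun x a b => ?_⟩
  by_contra g
  have := h2 x ⟨a, g⟩
  omega

/-- In a nonzero cell beyond the last one before `W j` some item lies one unit after `W j`. -/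
lemma aft {j n : ℤ} (h : ¬t.Zc n) (g : ¬t.Bef j n) : ∃ z i, t.InC z i n ∧ t.W j + 1 ≤ t.G z i := by
  have key : ∀ z i, z ≠ t.o j → t.InC z i n → t.W j + 1 ≤ t.G z i := by
    intro z i hz hi
    obtain ⟨a, b⟩ := t.wis j z hz
    rcases lt_trichotomy i (t.wi j z) with e | e | e
    · exfalso
      refine g ⟨z, i, hi, ?_⟩
      have c := t.Gmono z e.le
      have d : (1 : ℝ) ≤ ((t.wi j z - i : ℤ) : ℝ) := by
        exact_mod_cast (show 1 ≤ t.wi j z - i by omega)
      linarith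
    · exact absurd (e ▸ hi.1) b
    · have c := t.Gmono z e.le
      have d : (1 : ℝ) ≤ ((i - t.wi j z : ℤ) : ℝ) := by
        exact_mod_cast (show 1 ≤ i - t.wi j z by omega)
      linarith
  have hp : ∀ o : Fin 3, o + 1 ≠ o + 2 ∧ o + 1 ≠ o ∧ o + 2 ≠ o := by decide
  obtain ⟨a, b, c⟩ := hp (t.o j)
  rcases t.cell_two h a with ⟨i, hi⟩ | ⟨i, hi⟩
  · exact ⟨_, i, hi, key _ i b hi⟩
  · exact ⟨_, i, hi, key _ i c hi⟩

lemma Zc_perL (n L : ℤ) : t.Zc (n + L * (k + 2)) ↔ t.Zc n := by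
  induction L using Int.induction_on with
  | zero => simp
  | succ m ih => rw [show n + (m + 1 : ℤ) * (k + 2) = n + m * (k + 2) + (k + 2) by ring, t.Zc_per, ih]
  | pred m ih =>
    rw [← ih, ← t.Zc_per (n + (-(m : ℤ) - 1) * (k + 2))]
    rw [show n + (-(m : ℤ) - 1) * (k + 2) + (k + 2) = n + -(m : ℤ) * (k + 2) by ring]

lemma sg_zero : t.sg 0 = 0 := by
  have a := t.Ns 0
  have := t.Mpos 0
  have := t.N0
  exact t.sg_eq (by omega) (by omega)

/-- The cells cover every tick once and the shared ticks twice. -/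
lemma cell_count (n : ℕ) :
    ∑ m ∈ Finset.Ico (0 : ℤ) n, (t.cnt (t.tb m) + t.cnt (t.tb m + 1)) =
      ∑ x ∈ Finset.Ico (0 : ℤ) (t.tb n), t.cnt x +
        ∑ c ∈ Finset.Ico (0 : ℤ) (t.sg n), t.cnt (t.sig (c + 1)) := by
  induction n with
  | zero => simp [tb, t.sg_zero]
  | succ n ih =>
    have b0 : t.tb 0 = 0 := by simp [tb, t.sg_zero]
    have b1 := (t.tb_lt (show (0 : ℤ) ≤ n by omega)).1
    have b2 := t.sg_mono (show (0 : ℤ) ≤ n by omega)
    rw [t.sg_zero] at b2
    have ins : ∀ (f : ℤ → ℤ) (a : ℤ), 0 ≤ a →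
        ∑ m ∈ Finset.Ico 0 (a + 1), f m = ∑ m ∈ Finset.Ico 0 a, f m + f a := by
      intro f a ha
      rw [← Finset.insert_Ico_right_eq_Ico_add_one ha, Finset.sum_insert (by simp), add_comm]
    push_cast
    rw [ins _ _ (by omega), ih]
    rcases t.sg_succ n with ⟨a, b⟩ | ⟨a, b⟩
    · rw [a, show t.tb (n + 1) = t.tb n + 1 + 1 by unfold tb; omega, ins _ _ (by omega),
        ins _ _ (by omega)]
      ring
    · rw [a, show t.tb (n + 1) = t.tb n + 1 by unfold tb; omega, ins _ _ (by omega),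
        ins _ _ b2, show t.sig (t.sg n + 1) = t.tb n + 1 by unfold tb sig; omega]
      ring

open scoped Classical in
/-- At most three zero cells in a lap; three force empty shared ticks. -/
lemma zero_count :
    2 * (((Finset.Ico (0 : ℤ) (k + 2)).filter t.Zc).card : ℤ) +
      (t.cnt (t.sig 1) + t.cnt (t.sig 2) + t.cnt (t.sig 3)) = 6 := by
  have := t.k11
  have h := t.cell_count (k + 2).toNat
  rw [Int.toNat_of_nonneg (by omega)] at h
  have b0 : t.tb 0 = 0 := by simp [tb, t.sg_zero]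
  have b1 := t.tb_per 0
  have b2 := t.sg_per 0
  rw [zero_add] at b1 b2
  rw [b0, zero_add] at b1
  rw [t.sg_zero, zero_add] at b2
  have b3 : ∑ x ∈ Finset.Ico (0 : ℤ) (2 * k + 1), t.cnt x = 2 * (k - 1) := t.tot
  rw [b1, b2, b3, show Finset.Ico (0 : ℤ) 3 = {0, 1, 2} by decide] at h
  have b4 : ∑ m ∈ Finset.Ico (0 : ℤ) (k + 2), (t.cnt (t.tb m) + t.cnt (t.tb m + 1)) =
      ∑ m ∈ Finset.Ico (0 : ℤ) (k + 2), (2 - 2 * if t.Zc m then 1 else 0) := by
    refine Finset.sum_congr rfl fun m _ => ?_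
    split_ifs with g
    · rw [g.1, g.2]; rfl
    · rw [(t.cell_sum m).resolve_left g]; rfl
  have b5 : ∑ m ∈ Finset.Ico (0 : ℤ) (k + 2), (if t.Zc m then (1 : ℤ) else 0) =
      (((Finset.Ico (0 : ℤ) (k + 2)).filter t.Zc).card : ℤ) := Finset.sum_boole _ _
  rw [b4, Finset.sum_sub_distrib, ← Finset.mul_sum, b5] at h
  generalize (((Finset.Ico (0 : ℤ) (k + 2)).filter t.Zc).card : ℤ) = y at h ⊢
  simp only [Finset.sum_const, Int.card_Ico, sub_zero, nsmul_eq_mul] at h
  rw [Int.toNat_of_nonneg (by omega)] at h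
  rw [Finset.sum_insert (by decide), Finset.sum_insert (by decide), Finset.sum_singleton] at h
  norm_num at h
  omega

end Tk

/-- Three zero cells in every lap, one for each edge between two centres. -/
theorem Tk.exists_host {k : ℤ} {r : ℝ} (t : Tk k r) : ∃ ζ, Host t ζ := by
  classical
  have hk := t.k11
  choose n0 b0 g0 using t.exists_n0
  have nz : ∀ j, ¬t.Zc (n0 j) := fun j => by
    obtain ⟨z, i, h, -⟩ := b0 j
    exact t.InC_nz h
  choose n1 b1 g1 using fun j => t.exists_n1 (nz j)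
  have mono : ∀ i j, i ≤ j → n0 i ≤ n0 j := fun i j h => by
    obtain ⟨z, l, a, b⟩ := b0 i
    have c := t.Wmono h
    have d : (0 : ℝ) ≤ ((j - i : ℤ) : ℝ) := by exact_mod_cast (show 0 ≤ j - i by omega)
    exact g0 j _ ⟨z, l, a, by linarith⟩
  have per : ∀ j, n0 (j + 3) = n0 j + (k + 2) := fun j => by
    have a := g0 (j + 3) _ ((t.Bef_per j (n0 j)).2 (b0 j))
    have b := g0 j (n0 (j + 3) - (k + 2))
      ((t.Bef_per j _).1 (by rw [sub_add_cancel]; exact b0 (j + 3)))
    omega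
  have af : ∀ j, ∃ z i, t.InC z i (n1 j) ∧ t.W j + 1 ≤ t.G z i := fun j =>
    t.aft (b1 j).2 fun g => by
      have := g0 j _ g
      have := (b1 j).1
      omega
  obtain ⟨ρ, hρ⟩ : ∃ ρ : ℤ → ℤ, ∀ j, ρ j =
      if n0 (j - 1) = n0 j then (if n0 (j - 2) = n0 j then 2 else 1) else 0 := ⟨_, fun _ => rfl⟩
  have r0 : ∀ j, 0 ≤ ρ j ∧ ρ j ≤ 2 ∧ n0 (j - ρ j) = n0 j := fun j => by
    rw [hρ]
    split_ifs with a b
    · exact ⟨by omega, by omega, b⟩
    · exact ⟨by omega, by omega, a⟩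
    · exact ⟨by omega, by omega, by rw [sub_zero]⟩
  have left : ∀ j, ∃ z i, t.InC z i (n0 j) ∧ t.G z i + ((1 + ρ j : ℤ) : ℝ) ≤ t.W j := fun j => by
    obtain ⟨a, b, c⟩ := r0 j
    obtain ⟨z, i, h, g⟩ := b0 (j - ρ j)
    rw [c] at h
    have d := t.Wmono (show j - ρ j ≤ j by omega)
    refine ⟨z, i, h, ?_⟩
    push_cast at d ⊢
    linarith
  have zl : ∀ j, n0 j + 1 + ρ j < n1 j := fun j => by
    obtain ⟨a, b, -⟩ := r0 j
    obtain ⟨z, i, h, g⟩ := left j
    obtain ⟨z', i', h', g'⟩ := af j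
    have s := t.short (ν := ρ j + 2) h.1 h'.1 (by omega) (by push_cast at g ⊢; linarith)
    have u := (t.tb_lt (b1 j).1.le).2
    have := h.2
    have := h'.2
    omega
  have st : ∀ j, n0 (j + 1) = n0 j → ρ (j + 1) = ρ j + 1 := fun j h => by
    have a := per (j - 2)
    have b := mono (j - 2) (j - 1) (by omega)
    have c := mono (j - 1) j (by omega)
    rw [show j - 2 + 3 = j + 1 by ring] at a
    rw [hρ, hρ, add_sub_cancel_right, show j + 1 - 2 = j - 1 by ring]
    split_ifs <;> omega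
  obtain ⟨ζ, hζ⟩ : ∃ ζ : ℤ → ℤ, ∀ j, ζ j = n0 j + 1 + ρ j := ⟨_, fun _ => rfl⟩
  have zero : ∀ j, t.Zc (ζ j) := fun j => by
    have := r0 j
    have := zl j
    exact g1 j _ (by rw [hζ]; omega) (by rw [hζ]; omega)
  have lt : ∀ j, ζ j < ζ (j + 1) := fun j => by
    have a := mono j (j + 1) (by omega)
    have := r0 (j + 1)
    have := zl j
    rw [hζ, hζ]
    rcases a.eq_or_lt with e | e
    · have := st j e.symm
      omega
    · by_contra g
      exact nz (j + 1) (g1 j _ e (by omega))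
  have zper : ∀ j, ζ (j + 3) = ζ j + (k + 2) := fun j => by
    have a := per j
    have b := per (j - 1)
    have c := per (j - 2)
    rw [hζ, hζ, hρ, hρ, show j + 3 - 1 = j - 1 + 3 by ring, show j + 3 - 2 = j - 2 + 3 by ring]
    split_ifs <;> omega
  have zmono : ∀ i j, i ≤ j → ζ i + (j - i) ≤ ζ j := fun i j g => by
    induction j, g using Int.leInduction with
    | base => simp
    | succ n _ ih =>
      have := lt n
      omega
  have zperL : ∀ j L, ζ (j + 3 * L) = ζ j + L * (k + 2) := fun j L => by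
    induction L using Int.induction_on with
    | zero => simp
    | succ m ih =>
      rw [show j + 3 * ((m : ℤ) + 1) = j + 3 * m + 3 by ring, zper, ih]; ring
    | pred m ih =>
      have a := zper (j + 3 * (-(m : ℤ) - 1))
      rw [show j + 3 * (-(m : ℤ) - 1) + 3 = j + 3 * -(m : ℤ) by ring, ih] at a
      linarith
  have res : ∀ n, t.Zc n → n % (k + 2) ∈ (Finset.Ico (0 : ℤ) (k + 2)).filter t.Zc := fun n h => by
    refine Finset.mem_filter.2 ⟨Finset.mem_Ico.2
      ⟨Int.emod_nonneg _ (by omega), Int.emod_lt_of_pos _ (by omega)⟩, ?_⟩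
    rw [← t.Zc_perL _ (n / (k + 2)), show n % (k + 2) + n / (k + 2) * (k + 2) = n by
      rw [mul_comm]; exact Int.emod_add_mul_ediv n (k + 2)]
    exact h
  have ne : ∀ a b : ℤ, a < b → b < a + (k + 2) → a % (k + 2) ≠ b % (k + 2) := fun a b h g e => by
    have := (Int.emod_eq_emod_iff_emod_sub_eq_zero.1 e.symm)
    rw [Int.emod_eq_of_lt (by omega) (by omega)] at this
    omega
  have l0 := lt 0
  have l1 := lt 1
  have l2 := lt 2
  have l3 := zper 0
  norm_num at l0 l1 l2 l3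
  have sub : ({ζ 0 % (k + 2), ζ 1 % (k + 2), ζ 2 % (k + 2)} : Finset ℤ) ⊆
      (Finset.Ico (0 : ℤ) (k + 2)).filter t.Zc := by
    intro x hx
    simp only [Finset.mem_insert, Finset.mem_singleton] at hx
    rcases hx with rfl | rfl | rfl <;> exact res _ (zero _)
  have c3 : ({ζ 0 % (k + 2), ζ 1 % (k + 2), ζ 2 % (k + 2)} : Finset ℤ).card = 3 :=
    Finset.card_eq_three.2 ⟨_, _, _, ne _ _ (by omega) (by omega), ne _ _ (by omega) (by omega),
      ne _ _ (by omega) (by omega), rfl⟩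
  have cl := Finset.card_le_card sub
  have zc := t.zero_count
  have p1 := (t.cnt_adj (t.sig 1)).1
  have p2 := (t.cnt_adj (t.sig 2)).1
  have p3 := (t.cnt_adj (t.sig 3)).1
  have eq := Finset.eq_of_subset_of_card_le sub (by omega)
  have all : ∀ n, t.Zc n → ∃ j, ζ j = n := fun n h => by
    have a := res n h
    rw [← eq] at a
    simp only [Finset.mem_insert, Finset.mem_singleton] at a
    have key : ∀ j, n % (k + 2) = ζ j % (k + 2) → ∃ j, ζ j = n := fun j e => by
      obtain ⟨L, hL⟩ := Int.dvd_of_emod_eq_zero (Int.emod_eq_emod_iff_emod_sub_eq_zero.1 e)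
      exact ⟨j + 3 * L, by rw [zperL]; linarith⟩
    rcases a with a | a | a <;> exact key _ a
  have sper : ∀ c, t.cnt (t.sig (c + 3)) = t.cnt (t.sig c) := fun c => by
    have := t.Nper c
    rw [show t.sig (c + 3) = t.sig c + (2 * k + 1) by unfold Tk.sig; omega, t.cnt_per]
  have sig : ∀ c, t.cnt (t.sig c) = 0 := by
    have key : ∀ c : ℤ, t.cnt (t.sig (c + 1)) = 0 ∧ t.cnt (t.sig (c + 2)) = 0 ∧
        t.cnt (t.sig (c + 3)) = 0 := by
      intro c
      induction c using Int.induction_on with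
      | zero => norm_num; omega
      | succ m ih =>
        have a := sper (m + 1)
        rw [show (m : ℤ) + 1 + 1 = m + 2 by ring, show (m : ℤ) + 1 + 2 = m + 3 by ring, a]
        exact ⟨ih.2.1, ih.2.2, ih.1⟩
      | pred m ih =>
        have a := sper (-(m : ℤ))
        rw [show -(m : ℤ) - 1 + 1 = -m by ring, show -(m : ℤ) - 1 + 2 = -m + 1 by ring,
          show -(m : ℤ) - 1 + 3 = -m + 2 by ring, ← a]
        exact ⟨ih.2.2, ih.1, ih.2.1⟩
    intro c
    have := (key (c - 1)).1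
    rwa [sub_add_cancel] at this
  have even : ∀ c, t.M c % 2 = 0 := fun c => by
    have a := t.Ns (c - 1)
    have := t.Mpos (c - 1)
    have e : t.sg (t.N (c - 1)) = c - 1 := t.sg_eq le_rfl (by omega)
    have b := (t.par_cell (t.N (c - 1))).1
    rw [e, show t.tb (t.N (c - 1)) = t.sig (c - 1) by unfold Tk.tb Tk.sig; rw [e], sig, sub_self,
      t.A0] at b
    have d := t.Msum (c - 1)
    rw [sub_add_cancel] at d
    have := t.kodd
    omega
  refine ⟨ζ, zero, lt, zper, all, sig, even, fun j => ?_⟩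
  obtain ⟨z, i, h, g⟩ := left j
  have a1 := zl j
  have a2 := r0 j
  have a3 := hζ j
  obtain ⟨j', hj⟩ := all (n1 j - 1) (g1 j _ (by omega) (by omega))
  have jj : j ≤ j' := by
    by_contra e
    have := zmono j' j (by omega)
    omega
  have a4 := r0 j'
  have a5 := hζ j'
  have e0 : n0 j' = n0 j := by
    have := mono j j' jj
    by_contra e
    exact nz j' (g1 j _ (by omega) (by omega))
  have e1 : n1 j' = n1 j := by
    have u := b1 j
    have v := b1 j'
    rcases lt_trichotomy (n1 j') (n1 j) with e | e | e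
    · exact absurd (g1 j _ (by omega) e) v.2
    · exact e
    · exact absurd (g1 j' _ (by omega) e) u.2
  have e2 : ∀ m, j ≤ m → n0 m = n0 j → ρ m = ρ j + (m - j) := fun m hm => by
    induction m, hm using Int.leInduction with
    | base => simp
    | succ m hm ih =>
      intro e
      have u := mono j m hm
      have v := mono m (m + 1) (by omega)
      have := st m (by omega)
      have := ih (by omega)
      omega
  have e3 := e2 j' jj e0
  obtain ⟨z', i', h', g'⟩ := af j'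
  rw [e1] at h'
  refine ⟨z, i, n0 j, z', i', n1 j, h, h', by omega, by omega, by omega, g1 j, ?_, ?_⟩
  · rwa [show ζ j - n0 j = 1 + ρ j by omega]
  · have w := t.Wmono jj
    rw [show n1 j - ζ j = j' - j + 1 by omega]
    push_cast at w ⊢
    linarith

end Pool.Agent.P.MP_3f5ded_co.UG
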