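import Pool.Agent.P.MP_3f5ded_co.USHT
import Pool.Agent.P.MP_3f5ded_co.USDefs

set_option autoImplicit false

namespace Pool.Agent.P.MP_3f5ded_co.UG

/-- The port relation of the capped three-star block. -/
theorem nec {Q Pt : Type} [Fintype Q] [Fintype Pt] {k : ℕ} {μ : Fin 3 → ℕ} {sr : Q → Fin 3}
    {ow : Pt → Fin 3} {lv : Fin 3 → Pt} {pa : Pt → Pt} (hP : Prt k μ sr ow lv pa) (hk : 11 ≤ k)
    (ho : Odd k) (hm : ∀ i, 2 * μ i + 3 ≤ k) {r : ℝ} (h1 : 1 ≤ r) (hr : r < k + 1) {x : Fin 3 → ℝ}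
    (h : Full k sr ow lv pa r x) : TL k μ r x := by
  obtain ⟨C, w, π, b, c, cap, e⟩ := h
  obtain ⟨u, v, y1, y2, d, a1, a2, a3, a4, a5⟩ := b.nec hk ho hP.cq h1 hr π ow μ
    (fun z => by convert hP.cs z) (fun z => by convert hP.cp z) hm c.pq c.pw c.pp lv hP.olv
    fun p hp => by
      have n : pa p ≠ p := fun d => ((hP.fix p).mp d).elim hp
      exact ⟨pa p, hP.dif p n, (cap p n).trans_lt (by linarith)⟩
  simp only [e] at a1 a2 a3 a4 a5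
  rcases d with ⟨rfl, rfl⟩ | ⟨rfl, rfl⟩
  · exact Or.inl ⟨y1, y2, a1, a2, a3, a4, a5⟩
  · exact Or.inr ⟨y1, y2, a1, a2, a3, a4, a5⟩

end Pool.Agent.P.MP_3f5ded_co.UG
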