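import Pool.Agent.P.MP_3f5ded_co.USChain
import Pool.Agent.P.MP_3f5ded_co.USPole
import Pool.Agent.P.MP_3f5ded_co.USDes
import Pool.Agent.P.MP_3f5ded_co.USNec
import Pool.Agent.P.MP_3f5ded_co.USD4

set_option autoImplicit false

namespace Pool.Agent.P.MP_3f5ded_co.UG

/-- A block with a design has the exact port relation. -/
theorem Nod.real {k : ℕ} {μ : Fin 3 → ℕ} (h : Nod k μ) (hk : 11 ≤ k) (ho : Odd k)
    (hm : ∀ i, 2 * μ i + 3 ≤ k) (hμ : μ 0 + μ 1 + μ 2 + 1 = k) :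
    Real' k (fun r => 1 ≤ r ∧ r < k + 1) (Fin 3) true (fun r x => TL k μ r x) := by
  obtain ⟨Q, Pt, _, _, sr, ow, lv, pa, H, W, L, hP, hD⟩ := h
  have hi : Function.Injective lv := fun i j e => by rw [← hP.olv i, e, hP.olv]
  exact (hP.real (by omega) ho).congr fun r hr x =>
    ⟨nec hP hk ho hm hr.1 hr.2, hD.full hi hμ hr.2⟩

/-- The values for every odd degree at least eleven. -/
theorem main_odd_all {k : ℕ} (hk : 11 ≤ k) (ho : Odd k) (x : ℝ) :
    (∃ (n : ℕ) (G : SimpleGraph (Fin n)) (_ : DecidableRel G.Adj), 0 < n ∧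
      G.IsRegularOfDegree k ∧ sInf {r : ℝ | 1 ≤ r ∧ Col G r} = x) ↔
      ∃ q : ℚ, x = q ∧ (k : ℚ) ≤ q ∧ q ≤ k + 1 := by
  refine iff_odd hk ho (fun a M ha he hM e => Nod.real ?_ hk ho (fun i => ?_) ?_) x
  · rcases ha with rfl | rfl
    · obtain rfl : 2 * M + 3 = k := by omega
      exact exists_des2 M hM he
    · obtain rfl : 2 * M + 5 = k := by omega
      exact exists_des4 M hM he
  · fin_cases i
    · change 2 * M + 3 ≤ k
      omega
    · change 2 * M + 3 ≤ k
      omega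
    · change 2 * a + 3 ≤ k
      omega
  · change M + M + a + 1 = k
    omega

end Pool.Agent.P.MP_3f5ded_co.UG
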