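import Mathlib

set_option autoImplicit false

namespace Pool.Agent.P.MP_3f5ded_co.UG

open scoped Classical

/-- Indicator of a proposition. -/
noncomputable def indT (p : Prop) : ℤ := if p then 1 else 0

/-- The tick of the offset `u` in the window `c`. -/
def tkf (N : ℤ → ℤ) (c u : ℤ) : ℤ := 2 * N c - c + u

/-- The centre `z` has a leaf item at tick `t`. -/
def ocf (N : ℤ → ℤ) (Q : Fin 3 → ℤ → Prop) (wc wu : Fin 3 → ℤ → ℤ) (z : Fin 3) (t : ℤ) : Prop :=
  ∃ i, Q z i ∧ tkf N (wc z i) (wu z i) = t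

/-- The number of centres with a leaf item at tick `t`. -/
noncomputable def cnf (N : ℤ → ℤ) (Q : Fin 3 → ℤ → Prop) (wc wu : Fin 3 → ℤ → ℤ) (t : ℤ) : ℤ :=
  indT (ocf N Q wc wu 0 t) + indT (ocf N Q wc wu 1 t) + indT (ocf N Q wc wu 2 t)

/-- The item `i` of the centre `z` is a port. -/
def pof (Q : Fin 3 → ℤ → Prop) (o : ℤ → Fin 3) (wi : ℤ → Fin 3 → ℤ) (z : Fin 3) (i : ℤ) : Prop :=
  ¬Q z i ∧ ∀ j, z ≠ o j → wi j z ≠ i

/-- The three centres of the block seen from the helix of the leaves. `G z` is the frame of the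
centre `z`; `Q z i` says that its item `i` is an edge to a leaf, at offset `wu` in the window `wc`;
`W` are the edges between centres, `fi` the free ports; `A g` counts the starts below `g`. -/
structure Tk (k : ℤ) (r : ℝ) where
  M : ℤ → ℤ
  N : ℤ → ℤ
  sg : ℤ → ℤ
  A : ℤ → ℤ
  G : Fin 3 → ℤ → ℝ
  Q : Fin 3 → ℤ → Prop
  wc : Fin 3 → ℤ → ℤ
  wu : Fin 3 → ℤ → ℤ
  W : ℤ → ℝ
  o : ℤ → Fin 3
  wi : ℤ → Fin 3 → ℤ
  fi : Fin 3 → ℤ
  hh : ℤ
  k11 : 11 ≤ k
  kodd : k % 2 = 1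
  hr : r < k + 1
  Mpos : ∀ c, 1 ≤ M c
  Msum : ∀ c, M c + M (c + 1) + M (c + 2) + 1 = k
  N0 : N 0 = 0
  Ns : ∀ c, N (c + 1) = N c + M c + 1
  sgs : ∀ n, N (sg n) ≤ n ∧ n < N (sg n + 1)
  A0 : A 0 = 0
  Aper : ∀ c g, A (g + M c) = A g + M c
  hall : (∀ c, 2 ≤ M c) → A (-1) % 2 = 1 → A 2 = 2
  step : ∀ z i, G z i + 1 ≤ G z (i + 1)
  per : ∀ z i, G z (i + k) = G z i + r
  Qper : ∀ z i, Q z (i + k) ↔ Q z i
  wper : ∀ z i, Q z i → wc z (i + k) = wc z i + 3 ∧ wu z (i + k) = wu z i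
  win : ∀ z i, Q z i →
    wu z i % 2 = 1 ∧ -(2 * M (wc z i + 1)) < wu z i ∧ wu z i < 2 * M (wc z i + 1)
  T1 : ∀ z i z' i' (ν : ℤ), Q z i → Q z' i' → ν ≤ k + 2 → G z i + ν ≤ G z' i' →
    2 * ν ≤ tkf N (wc z' i') (wu z' i') - tkf N (wc z i) (wu z i) ∨
      (wc z' i' = wc z i + 3 ∧
        tkf N (wc z' i') (wu z' i') - tkf N (wc z i) (wu z i) = 2 * ν - 1 ∧
        wu z i - wu z' i' ≤ 2 * M (wc z i + 1) - 2)
  par1 : ∀ c ρ, 0 ≤ ρ → ρ < M (c + 1) →
    cnf N Q wc wu (tkf N c (1 - 2 * M (c + 1) + 2 * ρ)) % 2 = A (ρ + 1) % 2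
  par2 : ∀ c ρ, 0 ≤ ρ → ρ < M (c + 1) →
    cnf N Q wc wu (tkf N c (1 + 2 * ρ)) % 2 = (M (c + 1) - A ρ) % 2
  wsum : ∀ c, ∑ ρ ∈ Finset.Ico 0 (M (c + 1)),
    (cnf N Q wc wu (tkf N c (1 - 2 * M (c + 1) + 2 * ρ)) + cnf N Q wc wu (tkf N c (1 + 2 * ρ))) =
      2 * M (c + 1)
  tot : ∑ t ∈ Finset.Ico 0 (2 * k + 1), cnf N Q wc wu t = 2 * (k - 1)
  Wstep : ∀ j, W j + 1 ≤ W (j + 1)
  Wper : ∀ j, W (j + 3) = W j + r
  oper : ∀ j, o (j + 3) = o j
  one : ∀ j, o j ≠ o (j + 1)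
  wis : ∀ j z, z ≠ o j → G z (wi j z) = W j ∧ ¬Q z (wi j z)
  wiper : ∀ j z, wi (j + 3) z = wi j z + k
  hk : 2 * hh + 1 ≤ k
  gl : ∀ z i, ∃ i1, Q z i1 ∧ i - hh ≤ i1 ∧ i1 ≤ i
  gr : ∀ z i, ∃ i1, Q z i1 ∧ i ≤ i1 ∧ i1 ≤ i + hh
  cap : ∀ z i, pof Q o wi z i → (∀ L : ℤ, i ≠ fi z + L * k) →
    ∃ z' i', z' ≠ z ∧ pof Q o wi z' i' ∧ |G z' i' - G z i| < 1

namespace Tk
variable {k : ℤ} {r : ℝ} (t : Tk k r)

/-- The shared tick at the start of the segment `c`. -/
def sig (c : ℤ) : ℤ := 2 * t.N c - c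

/-- The tick of a leaf item. -/
def tau (z : Fin 3) (i : ℤ) : ℤ := tkf t.N (t.wc z i) (t.wu z i)

/-- The centre `z` has a leaf item at tick `x`. -/
def occ (z : Fin 3) (x : ℤ) : Prop := ocf t.N t.Q t.wc t.wu z x

/-- The number of leaf items at tick `x`. -/
noncomputable def cnt (x : ℤ) : ℤ := cnf t.N t.Q t.wc t.wu x

/-- Ports. -/
def port (z : Fin 3) (i : ℤ) : Prop := pof t.Q t.o t.wi z i

/-- The first tick of the cell `n`. -/
def tb (n : ℤ) : ℤ := 2 * n - t.sg n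

/-- A cell without leaf items. -/
def Zc (n : ℤ) : Prop := t.cnt (t.tb n) = 0 ∧ t.cnt (t.tb n + 1) = 0

/-- The leaf item `i` of `z` lies in the cell `n`. -/
def InC (z : Fin 3) (i n : ℤ) : Prop := t.Q z i ∧ (t.tau z i = t.tb n ∨ t.tau z i = t.tb n + 1)

/-- Twice the unit of a leaf item. -/
def ch (z : Fin 3) (i : ℤ) : ℤ := t.tau z i + t.wc z i + (if 0 < t.wu z i then -1 else -3)

end Tk

/-- The zero cells `ζ j` host the edges `W j` between the centres. -/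
structure Host {k : ℤ} {r : ℝ} (t : Tk k r) (ζ : ℤ → ℤ) : Prop where
  zero : ∀ j, t.Zc (ζ j)
  lt : ∀ j, ζ j < ζ (j + 1)
  per : ∀ j, ζ (j + 3) = ζ j + (k + 2)
  all : ∀ n, t.Zc n → ∃ j, ζ j = n
  sig : ∀ c, t.cnt (t.sig c) = 0
  even : ∀ c, t.M c % 2 = 0
  anc : ∀ j, ∃ z i n z' i' n', t.InC z i n ∧ t.InC z' i' n' ∧ n < ζ j ∧ ζ j < n' ∧ n' - n ≤ 4 ∧
    (∀ x, n < x → x < n' → t.Zc x) ∧ t.G z i + ((ζ j - n : ℤ) : ℝ) ≤ t.W j ∧
    t.W j + ((n' - ζ j : ℤ) : ℝ) ≤ t.G z' i'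

/-- Every centre fills the units in order and skips two of the three shared ticks. -/
structure Units {k : ℤ} {r : ℝ} (t : Tk k r) (zc : ℤ → Fin 3) (F : Fin 3 → ℤ → ℤ) : Prop where
  per : ∀ c, zc (c + 3) = zc c
  ne : ∀ c, zc c ≠ zc (c + 1)
  mark : ∀ c z, z ≠ zc c → t.occ z (t.sig c - 1) ∨ t.occ z (t.sig c + 1)
  unm : ∀ c, ¬t.occ (zc c) (t.sig c - 1) ∧ ¬t.occ (zc c) (t.sig c + 1)
  Fs : ∀ z c, F z (c + 1) = F z c + if z = zc (c + 1) then 0 else 1
  qa : ∀ z i n, t.Q z i → t.tau z i = t.tb n + 1 → i = n - F z (t.sg n)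
  qb : ∀ z i n, t.Q z i → t.tau z i = t.tb n → i = n - 1 - F z (t.sg n)
  nodz : ∀ c, ¬(t.Zc (t.N c - 1) ∧ t.Zc (t.N c))

/-- The centre `z` has an item in the unit `n`. -/
def Alw {k : ℤ} {r : ℝ} (t : Tk k r) (zc : ℤ → Fin 3) (z : Fin 3) (n : ℤ) : Prop :=
  n + 1 < t.N (t.sg n + 1) ∨ z = zc (t.sg n + 1)

lemma indT_cases (p : Prop) : (p ∧ indT p = 1) ∨ (¬p ∧ indT p = 0) := by
  unfold indT; by_cases h : p <;> simp [h]

namespace Tk
variable {k : ℤ} {r : ℝ} (t : Tk k r)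

lemma Mper (c : ℤ) : t.M (c + 3) = t.M c := by
  have a := t.Msum c
  have b := t.Msum (c + 1)
  rw [show c + 1 + 1 = c + 2 by ring, show c + 1 + 2 = c + 3 by ring] at b
  omega

lemma Nper (c : ℤ) : t.N (c + 3) = t.N c + (k + 2) := by
  have a := t.Msum c
  have b := t.Ns c
  have d := t.Ns (c + 1)
  have e := t.Ns (c + 2)
  rw [show c + 1 + 1 = c + 2 by ring] at d
  rw [show c + 2 + 1 = c + 3 by ring] at e
  omega

lemma Nmono {c d : ℤ} (h : c ≤ d) : t.N c + 2 * (d - c) ≤ t.N d := by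
  induction d, h using Int.leInduction with
  | base => simp
  | succ n _ ih =>
    have := t.Ns n
    have := t.Mpos n
    omega

lemma sg_eq {c n : ℤ} (h1 : t.N c ≤ n) (h2 : n < t.N (c + 1)) : t.sg n = c := by
  obtain ⟨a, b⟩ := t.sgs n
  rcases lt_trichotomy (t.sg n) c with g | g | g
  · have := t.Nmono (show t.sg n + 1 ≤ c by omega); omega
  · exact g
  · have := t.Nmono (show c + 1 ≤ t.sg n by omega); omega

lemma sg_mono {n n' : ℤ} (h : n ≤ n') : t.sg n ≤ t.sg n' := by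
  by_contra g
  have := t.Nmono (show t.sg n' + 1 ≤ t.sg n by omega)
  have := t.sgs n
  have := t.sgs n'
  omega

lemma sg_per (n : ℤ) : t.sg (n + (k + 2)) = t.sg n + 3 := by
  obtain ⟨a, b⟩ := t.sgs n
  have e1 := t.Nper (t.sg n)
  have e2 := t.Nper (t.sg n + 1)
  refine t.sg_eq (by omega) ?_
  rw [show t.sg n + 3 + 1 = t.sg n + 1 + 3 by ring]
  omega

lemma sg_succ (n : ℤ) : (t.sg (n + 1) = t.sg n ∧ n + 1 < t.N (t.sg n + 1)) ∨
    (t.sg (n + 1) = t.sg n + 1 ∧ n + 1 = t.N (t.sg n + 1)) := by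
  obtain ⟨a, b⟩ := t.sgs n
  rcases lt_or_eq_of_le (show n + 1 ≤ t.N (t.sg n + 1) by omega) with g | g
  · exact Or.inl ⟨t.sg_eq (by omega) g, g⟩
  · have := t.Ns (t.sg n + 1)
    have := t.Mpos (t.sg n + 1)
    exact Or.inr ⟨t.sg_eq (by omega) (by omega), g⟩

lemma tb_per (n : ℤ) : t.tb (n + (k + 2)) = t.tb n + (2 * k + 1) := by
  unfold tb; rw [t.sg_per]; ring

lemma tb_lt {n n' : ℤ} (h : n ≤ n') : t.tb n + (n' - n) ≤ t.tb n' ∧ t.tb n' ≤ t.tb n + 2 * (n' - n) := by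
  induction n', h using Int.leInduction with
  | base => simp
  | succ m _ ih =>
    have := t.sg_succ m
    unfold tb at *
    omega

lemma Gmono (z : Fin 3) {i j : ℤ} (h : i ≤ j) : t.G z i + ((j - i : ℤ) : ℝ) ≤ t.G z j := by
  induction j, h using Int.leInduction with
  | base => simp
  | succ n _ ih =>
    have := t.step z n
    push_cast at ih ⊢
    linarith

lemma Wmono {i j : ℤ} (h : i ≤ j) : t.W i + ((j - i : ℤ) : ℝ) ≤ t.W j := by
  induction j, h using Int.leInduction with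
  | base => simp
  | succ n _ ih =>
    have := t.Wstep n
    push_cast at ih ⊢
    linarith

lemma tau_per {z : Fin 3} {i : ℤ} (h : t.Q z i) : t.tau z (i + k) = t.tau z i + (2 * k + 1) := by
  obtain ⟨a, b⟩ := t.wper z i h
  unfold tau tkf
  rw [a, b, t.Nper]; ring

lemma occ_per (z : Fin 3) (x : ℤ) : t.occ z (x + (2 * k + 1)) ↔ t.occ z x := by
  constructor
  · rintro ⟨i, h, e⟩
    have h' : t.Q z (i - k) := (t.Qper z (i - k)).1 (by simpa using h)
    have := t.tau_per h'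
    rw [sub_add_cancel] at this
    exact ⟨i - k, h', by unfold tau at this; omega⟩
  · rintro ⟨i, h, e⟩
    have := t.tau_per h
    exact ⟨i + k, (t.Qper z i).2 h, by unfold tau at this; omega⟩

lemma cnt_per (x : ℤ) : t.cnt (x + (2 * k + 1)) = t.cnt x := by
  have := fun z => propext (t.occ_per z x)
  unfold occ at this
  unfold cnt cnf
  rw [this 0, this 1, this 2]

lemma Zc_per (n : ℤ) : t.Zc (n + (k + 2)) ↔ t.Zc n := by
  unfold Zc
  rw [t.tb_per, t.cnt_per, show t.tb n + (2 * k + 1) + 1 = t.tb n + 1 + (2 * k + 1) by ring,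
    t.cnt_per]

/-- Short chains are never bad. -/
lemma short {z z' : Fin 3} {i i' ν : ℤ} (h : t.Q z i) (h' : t.Q z' i') (hν : ν ≤ 4)
    (g : t.G z i + ν ≤ t.G z' i') : 2 * ν ≤ t.tau z' i' - t.tau z i := by
  have := t.k11
  rcases t.T1 z i z' i' ν h h' (by omega) g with a | ⟨a, b, d⟩
  · exact a
  · have := t.Nper (t.wc z i)
    have := t.Msum (t.wc z i)
    have := t.Mpos (t.wc z i)
    have := t.Mpos (t.wc z i + 2)
    unfold tau tkf at *
    rw [a] at b ⊢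
    omega

/-- Ticks increase along a centre. -/
lemma tau_lt {z : Fin 3} {i i' : ℤ} (h : t.Q z i) (h' : t.Q z i') (g : i < i') :
    t.tau z i + 2 ≤ t.tau z i' := by
  have a := t.Gmono z g.le
  have b : (1 : ℝ) ≤ ((i' - i : ℤ) : ℝ) := by exact_mod_cast (show 1 ≤ i' - i by omega)
  have := t.short (ν := 1) h h' (by omega) (by push_cast; linarith)
  omega

lemma tau_inj {z : Fin 3} {i i' : ℤ} (h : t.Q z i) (h' : t.Q z i') (g1 : t.tau z i ≤ t.tau z i' + 1)
    (g2 : t.tau z i' ≤ t.tau z i + 1) : i = i' := by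
  rcases lt_trichotomy i i' with g | g | g
  · have := t.tau_lt h h' g; omega
  · exact g
  · have := t.tau_lt h' h g; omega

lemma not_adj (z : Fin 3) (x : ℤ) : ¬(t.occ z x ∧ t.occ z (x + 1)) := by
  rintro ⟨⟨i, h, e⟩, ⟨i', h', e'⟩⟩
  have := t.tau_inj h h' (by unfold tau; omega) (by unfold tau; omega)
  subst this
  omega

lemma cnt_eq (x : ℤ) : t.cnt x = indT (t.occ 0 x) + indT (t.occ 1 x) + indT (t.occ 2 x) := rfl

lemma cnt_adj (x : ℤ) : 0 ≤ t.cnt x ∧ t.cnt x + t.cnt (x + 1) ≤ 3 := by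
  have a0 := t.not_adj 0 x
  have a1 := t.not_adj 1 x
  have a2 := t.not_adj 2 x
  rw [cnt_eq, cnt_eq]
  have b0 := indT_cases (t.occ 0 x)
  have b1 := indT_cases (t.occ 1 x)
  have b2 := indT_cases (t.occ 2 x)
  have c0 := indT_cases (t.occ 0 (x + 1))
  have c1 := indT_cases (t.occ 1 (x + 1))
  have c2 := indT_cases (t.occ 2 (x + 1))
  grind

lemma cnt_zero {x : ℤ} : t.cnt x = 0 ↔ ∀ z, ¬t.occ z x := by
  rw [cnt_eq]
  have b0 := indT_cases (t.occ 0 x)
  have b1 := indT_cases (t.occ 1 x)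
  have b2 := indT_cases (t.occ 2 x)
  rw [Fin.forall_fin_succ, Fin.forall_fin_two]
  change _ ↔ ¬t.occ 0 x ∧ ¬t.occ 1 x ∧ ¬t.occ 2 x
  grind

lemma two (c : ℤ) : t.N (c + 2) = t.N c + t.M c + t.M (c + 1) + 2 := by
  have a := t.Ns c
  have b := t.Ns (c + 1)
  rw [show c + 1 + 1 = c + 2 by ring] at b
  omega

/-- Windows at distance two or more are ordered, up to the two halves of one class. -/
lemma far {c d u v : ℤ} (hu : -(2 * t.M (c + 1)) < u) (hv : v < 2 * t.M (d + 1)) (h : d + 2 ≤ c) :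
    tkf t.N d v < tkf t.N c u ∨ (c = d + 3 ∧ u < 0 ∧ 0 < v) := by
  obtain ⟨e, rfl⟩ : ∃ e, c = e + 2 := ⟨c - 2, by ring⟩
  have a1 := t.two e
  have a2 := t.two d
  have a3 := t.Mper e
  rw [show e + 2 + 1 = e + 3 by ring, a3] at hu
  have := t.Mpos e
  have := t.Mpos d
  have := t.Mpos (e + 1)
  have := t.Mpos (d + 1)
  unfold tkf
  rcases (show e = d ∨ e = d + 1 ∨ d + 2 ≤ e by omega) with g | g | g
  · subst g; omega
  · subst g
    have := t.Ns d
    omega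
  · have := t.Nmono g
    omega

/-- The unit never lags behind the time. -/
lemma chi {z z' : Fin 3} {i i' ν : ℤ} (h : t.Q z i) (h' : t.Q z' i') (h0 : 0 ≤ ν) (hν : ν ≤ k + 2)
    (g : t.G z i + ν ≤ t.G z' i') : 2 * ν ≤ t.ch z' i' - t.ch z i := by
  have a := t.T1 z i z' i' ν h h' hν g
  have w := t.win z i h
  have w' := t.win z' i' h'
  have f := t.far w.2.1 w'.2.2
  unfold ch tau
  generalize t.wc z i = c at *
  generalize t.wc z' i' = d at *
  have n1 := t.Ns d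
  have := t.Mpos d
  unfold tkf at *
  rcases (show d = c ∨ c = d + 1 ∨ c + 1 ≤ d ∨ d + 2 ≤ c by omega) with e | e | e | e
  · subst e; split_ifs <;> omega
  · subst e; split_ifs <;> omega
  · split_ifs <;> omega
  · split_ifs <;> omega

/-- A chain from the first half of a window across its centre gains one unit. -/
lemma jumpL {z z' : Fin 3} {i i' ν : ℤ} (h : t.Q z i) (h' : t.Q z' i') (hν : ν ≤ k + 2)
    (g : t.G z i + ν ≤ t.G z' i') (hu : t.wu z i < 0) (hs : t.sig (t.wc z i) < t.tau z' i') :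
    2 * ν + 2 ≤ t.ch z' i' - t.ch z i := by
  have a := t.T1 z i z' i' ν h h' hν g
  have w := t.win z i h
  have w' := t.win z' i' h'
  have f := t.far (c := t.wc z i) (u := 0) (by have := t.Mpos (t.wc z i + 1); omega) w'.2.2
  unfold ch tau sig at *
  generalize t.wc z i = c at *
  generalize t.wc z' i' = d at *
  have n1 := t.Ns d
  have := t.Mpos d
  unfold tkf at *
  rcases (show d = c ∨ c = d + 1 ∨ c + 1 ≤ d ∨ d + 2 ≤ c by omega) with e | e | e | e
  · subst e; split_ifs <;> omega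
  · subst e; split_ifs <;> omega
  · split_ifs <;> omega
  · split_ifs <;> omega

/-- A chain into the second half of a window across its centre gains one unit. -/
lemma jumpR {z z' : Fin 3} {i i' ν : ℤ} (h : t.Q z i) (h' : t.Q z' i') (hν : ν ≤ k + 2)
    (g : t.G z i + ν ≤ t.G z' i') (hu : 0 < t.wu z' i') (hs : t.tau z i < t.sig (t.wc z' i')) :
    2 * ν + 2 ≤ t.ch z' i' - t.ch z i := by
  have a := t.T1 z i z' i' ν h h' hν g
  have w := t.win z i h
  have w' := t.win z' i' h'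
  have f := t.far (d := t.wc z' i') (v := 0) w.2.1 (by have := t.Mpos (t.wc z' i' + 1); omega)
  unfold ch tau sig at *
  generalize t.wc z i = c at *
  generalize t.wc z' i' = d at *
  have n1 := t.Ns c
  have := t.Mpos c
  unfold tkf at *
  rcases (show d = c ∨ d = c + 1 ∨ c + 2 ≤ d ∨ c = d + 1 ∨ d + 2 ≤ c by omega) with
    e | e | e | e | e
  · subst e; split_ifs <;> omega
  · subst e; split_ifs <;> omega
  · split_ifs <;> omega
  · subst e
    have := t.Ns d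
    have := t.Mpos d
    split_ifs <;> omega
  · split_ifs <;> omega

/-- Both gains add up. -/
lemma jump2 {z z' : Fin 3} {i i' ν : ℤ} (h : t.Q z i) (h' : t.Q z' i') (hν : ν ≤ k + 2)
    (g : t.G z i + ν ≤ t.G z' i') (hu : t.wu z i < 0) (hu' : 0 < t.wu z' i')
    (hs : t.wc z i < t.wc z' i') : 2 * ν + 4 ≤ t.ch z' i' - t.ch z i := by
  have a := t.T1 z i z' i' ν h h' hν g
  have w := t.win z i h
  have w' := t.win z' i' h'
  unfold ch tau tkf at *
  split_ifs <;> omega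

/-- The window of a tick in the segment `c`. -/
lemma loc {z : Fin 3} {i c x : ℤ} (h : t.Q z i) (e : t.tau z i = t.sig c + x) (x0 : 0 ≤ x)
    (x1 : x ≤ 2 * t.M c + 1) :
    (t.wc z i = c ∧ t.wu z i = x) ∨ (t.wc z i = c + 1 ∧ t.wu z i = x - (2 * t.M c + 1)) ∨
    (t.wc z i = c - 1 ∧ t.wu z i = x + (2 * t.M (c + 2) + 1)) ∨
    (t.wc z i = c + 2 ∧ t.wu z i = x - (2 * t.M c + 2 * t.M (c + 1) + 2)) := by
  have w := t.win z i h
  unfold tau sig tkf at e
  generalize t.wc z i = d at *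
  have a1 := t.Ns c
  have a2 := t.two c
  have a3 := t.Ns (c - 1)
  have a4 := t.Mper (c - 1)
  rw [sub_add_cancel] at a3
  rw [show c - 1 + 3 = c + 2 by ring] at a4
  rcases (show d = c ∨ d = c + 1 ∨ d = c - 1 ∨ d = c + 2 ∨ d + 2 ≤ c ∨ c + 1 + 2 ≤ d by omega) with
    g | g | g | g | g | g
  · subst g; omega
  · subst g; omega
  · subst g; omega
  · subst g; omega
  · have := t.far (c := c) (u := 0) (by have := t.Mpos (c + 1); omega) w.2.2 g
    unfold tkf at this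
    omega
  · have := t.far (d := c + 1) (v := 0) w.2.1 (by have := t.Mpos (c + 1 + 1); omega) g
    unfold tkf at this
    omega

lemma tb_sig (n : ℤ) : t.tb n = t.sig (t.sg n) + 2 * (n - t.N (t.sg n)) := by
  unfold tb sig; ring

/-- The unit of an item on the second tick of a cell. -/
lemma ch_al {z : Fin 3} {i n : ℤ} (h : t.Q z i) (e : t.tau z i = t.tb n + 1)
    (hn : n + 1 < t.N (t.sg n + 1)) : t.ch z i = 2 * n := by
  have s := t.sgs n
  have a := t.Ns (t.sg n)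
  have w := t.win z i h
  have := t.loc (c := t.sg n) (x := 2 * (n - t.N (t.sg n)) + 1) h (by rw [e, tb_sig]; ring)
    (by omega) (by omega)
  have := t.Mpos (t.sg n + 1)
  have := t.Mpos (t.sg n + 2)
  unfold ch
  rw [e]
  unfold tb
  split_ifs <;> omega

/-- The unit of an item on the first tick of a cell. -/
lemma ch_be {z : Fin 3} {i n : ℤ} (h : t.Q z i) (e : t.tau z i = t.tb n)
    (hn : t.N (t.sg n) < n) : t.ch z i = 2 * n - 2 := by
  have s := t.sgs n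
  have a := t.Ns (t.sg n)
  have w := t.win z i h
  have := t.loc (c := t.sg n) (x := 2 * (n - t.N (t.sg n))) h (by rw [e, tb_sig])
    (by omega) (by omega)
  have := t.Mpos (t.sg n + 1)
  have := t.Mpos (t.sg n + 2)
  unfold ch
  rw [e]
  unfold tb
  split_ifs <;> omega

/-- Every tick lies in a cell. -/
lemma cell (x : ℤ) : ∃ n, x = t.tb n ∨ (x = t.tb n + 1 ∧ n + 1 < t.N (t.sg n + 1)) := by
  have hb : ∃ b : ℤ, ∀ n : ℤ, t.tb n ≤ x → n ≤ b := by
    refine ⟨max 0 (x - t.tb 0), fun n hn => ?_⟩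
    by_contra g
    have := t.tb_lt (show 0 ≤ n by omega)
    omega
  have he : ∃ n : ℤ, t.tb n ≤ x := by
    refine ⟨min 0 (x - t.tb 0), ?_⟩
    have := t.tb_lt (show min 0 (x - t.tb 0) ≤ 0 by omega)
    omega
  obtain ⟨n, h1, h2⟩ := Int.exists_greatest_of_bdd hb he
  have h3 : ¬t.tb (n + 1) ≤ x := fun g => by have := h2 _ g; omega
  refine ⟨n, ?_⟩
  have := t.sg_succ n
  unfold tb at *
  omega

lemma Aper' (c g : ℤ) : t.A (g - t.M c) = t.A g - t.M c := by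
  have := t.Aper c (g - t.M c)
  rw [sub_add_cancel] at this
  omega

lemma A_N (c g : ℤ) : t.A (g + (t.N c - c)) = t.A g + (t.N c - c) := by
  induction c using Int.induction_on with
  | zero => simp [t.N0]
  | succ n ih =>
    have a := t.Ns n
    have b := t.Aper n (g + (t.N n - n))
    rw [show g + (t.N (n + 1) - (n + 1)) = g + (t.N n - n) + t.M n by omega, b, ih]
    omega
  | pred n ih =>
    have a := t.Ns (-(n : ℤ) - 1)
    rw [sub_add_cancel] at a
    have b := t.Aper' (-(n : ℤ) - 1) (g + (t.N (-n) - -n))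
    rw [show g + (t.N (-(n : ℤ) - 1) - (-(n : ℤ) - 1)) =
      g + (t.N (-n) - -n) - t.M (-(n : ℤ) - 1) by omega, b, ih]
    omega

lemma gap_zero (c : ℤ) : t.cnt (t.sig c + (2 * t.M (c + 1) + 1)) = 0 := by
  refine t.cnt_zero.2 fun z ⟨i, h, e⟩ => ?_
  have w := t.win z i h
  have e' : t.tau z i = t.sig c + (2 * t.M (c + 1) + 1) := e
  have a1 := t.Ns c
  have a2 := t.Mper c
  have := t.Mpos c
  have := t.Mpos (c + 1)
  rcases le_or_gt (t.M (c + 1)) (t.M c) with g | g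
  · rcases t.loc h e' (by omega) (by omega) with ⟨a, b⟩ | ⟨a, b⟩ | ⟨a, b⟩ | ⟨a, b⟩ <;>
      rw [a] at w
    · omega
    · omega
    · omega
    · rw [show c + 2 + 1 = c + 3 by ring] at w; omega
  · have a3 := t.Mper (c + 1)
    rcases t.loc (c := c + 1) (x := 2 * t.M (c + 1) - 2 * t.M c) h
      (by rw [e']; unfold sig; omega) (by omega) (by omega) with
      ⟨a, b⟩ | ⟨a, b⟩ | ⟨a, b⟩ | ⟨a, b⟩ <;> rw [a] at w
    · omega
    · rw [show c + 1 + 1 + 1 = c + 3 by ring] at w; omega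
    · rw [show c + 1 - 1 + 1 = c + 1 by ring] at w
      rw [show c + 1 + 2 = c + 3 by ring] at b
      omega
    · omega

/-- Parity on the second ticks of the segment `c`. -/
lemma par_al {c i : ℤ} (h0 : 0 ≤ i) (h1 : i ≤ t.M c) :
    t.cnt (t.sig c + (2 * i + 1)) % 2 = (t.M (c + 1) + t.A i) % 2 := by
  rcases lt_trichotomy i (t.M (c + 1)) with g | g | g
  · have := t.par2 c i h0 g
    rw [show tkf t.N c (1 + 2 * i) = t.sig c + (2 * i + 1) by unfold tkf sig; ring] at this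
    unfold cnt
    omega
  · have a := t.Aper (c + 1) 0
    rw [zero_add, t.A0] at a
    rw [g, t.gap_zero, a]
    omega
  · have a1 := t.Mper c
    have a2 := t.two c
    have := t.Mpos (c + 1)
    have := t.par1 (c + 2) (i - t.M (c + 1) - 1) (by omega)
      (by rw [show c + 2 + 1 = c + 3 by ring]; omega)
    rw [show c + 2 + 1 = c + 3 by ring, a1, show tkf t.N (c + 2)
      (1 - 2 * t.M c + 2 * (i - t.M (c + 1) - 1)) = t.sig c + (2 * i + 1) by unfold tkf sig; omega,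
      sub_add_cancel, t.Aper'] at this
    unfold cnt
    omega

/-- Parity on the first ticks of the segment `c`. -/
lemma par_be {c i : ℤ} (h0 : 0 ≤ i) (h1 : i ≤ t.M c) :
    t.cnt (t.sig c + 2 * i) % 2 = (t.M c + t.M (c + 2) + t.A i) % 2 := by
  have a1 := t.Ns c
  have a3 := t.Ns (c - 1)
  have a4 := t.Mper (c - 1)
  rw [sub_add_cancel] at a3
  rw [show c - 1 + 3 = c + 2 by ring] at a4
  rcases lt_trichotomy (t.M c - i) (t.M (c + 2)) with g | g | g
  · have := t.par1 (c + 1) (t.M (c + 2) - 1 - (t.M c - i)) (by omega)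
      (by rw [show c + 1 + 1 = c + 2 by ring]; omega)
    rw [show c + 1 + 1 = c + 2 by ring, show tkf t.N (c + 1)
      (1 - 2 * t.M (c + 2) + 2 * (t.M (c + 2) - 1 - (t.M c - i))) = t.sig c + 2 * i by
        unfold tkf sig; omega,
      show t.M (c + 2) - 1 - (t.M c - i) + 1 = i + t.M (c + 2) - t.M c by ring, t.Aper',
      t.Aper] at this
    unfold cnt
    omega
  · have a := t.gap_zero (c - 1)
    rw [sub_add_cancel, show t.sig (c - 1) + (2 * t.M c + 1) = t.sig c + 2 * (t.M c - t.M (c + 2)) by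
      unfold sig; omega] at a
    have b := t.Aper c (0 - t.M (c + 2))
    rw [t.Aper', t.A0] at b
    rw [show i = t.M c - t.M (c + 2) by omega, a,
      show t.M c - t.M (c + 2) = 0 - t.M (c + 2) + t.M c by ring, b]
    omega
  · have := t.par2 (c - 1) (t.M (c + 2) + i) (by have := t.Mpos (c + 2); omega)
      (by rw [sub_add_cancel]; omega)
    rw [sub_add_cancel, show tkf t.N (c - 1) (1 + 2 * (t.M (c + 2) + i)) = t.sig c + 2 * i by
      unfold tkf sig; omega, add_comm (t.M (c + 2)) i, t.Aper] at this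
    unfold cnt
    omega

/-- Parity of the cell `n`. -/
lemma par_cell (n : ℤ) :
    t.cnt (t.tb n) % 2 = (t.M (t.sg n) + t.M (t.sg n + 2) + t.A (n - t.N (t.sg n))) % 2 ∧
      t.cnt (t.tb n + 1) % 2 = (t.M (t.sg n + 1) + t.A (n - t.N (t.sg n))) % 2 := by
  have s := t.sgs n
  have a := t.Ns (t.sg n)
  rw [tb_sig, add_assoc (t.sig _)]
  exact ⟨t.par_be (by omega) (by omega), t.par_al (by omega) (by omega)⟩

/-- A cell holds no leaf item or two. -/
lemma cell_sum (n : ℤ) : t.Zc n ∨ t.cnt (t.tb n) + t.cnt (t.tb n + 1) = 2 := by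
  have := t.par_cell n
  have := t.Msum (t.sg n)
  have := t.kodd
  have := t.cnt_adj (t.tb n)
  have := t.cnt_adj (t.tb n + 1)
  unfold Zc
  omega

/-- In a nonzero cell every centre but one has a leaf item. -/
lemma cell_two {n : ℤ} (h : ¬t.Zc n) {p q : Fin 3} (e : p ≠ q) :
    (∃ i, t.InC p i n) ∨ ∃ i, t.InC q i n := by
  have s := (t.cell_sum n).resolve_left h
  have key : ∀ z, t.occ z (t.tb n) ∨ t.occ z (t.tb n + 1) → ∃ i, t.InC z i n := by
    rintro z (⟨i, a, b⟩ | ⟨i, a, b⟩)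
    · exact ⟨i, a, Or.inl b⟩
    · exact ⟨i, a, Or.inr b⟩
  by_contra g
  push Not at g
  have gp : ¬(t.occ p (t.tb n) ∨ t.occ p (t.tb n + 1)) := fun a => by
    obtain ⟨i, hi⟩ := key p a; exact g.1 i hi
  have gq : ¬(t.occ q (t.tb n) ∨ t.occ q (t.tb n + 1)) := fun a => by
    obtain ⟨i, hi⟩ := key q a; exact g.2 i hi
  have a0 := t.not_adj 0 (t.tb n)
  have a1 := t.not_adj 1 (t.tb n)
  have a2 := t.not_adj 2 (t.tb n)
  rw [cnt_eq, cnt_eq] at s
  have b0 := indT_cases (t.occ 0 (t.tb n))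
  have b1 := indT_cases (t.occ 1 (t.tb n))
  have b2 := indT_cases (t.occ 2 (t.tb n))
  have c0 := indT_cases (t.occ 0 (t.tb n + 1))
  have c1 := indT_cases (t.occ 1 (t.tb n + 1))
  have c2 := indT_cases (t.occ 2 (t.tb n + 1))
  fin_cases p <;> fin_cases q <;> simp only [Fin.zero_eta, Fin.mk_one, Fin.reduceFinMk] at gp gq e <;>
    grind

end Tk

lemma Host.mono {k : ℤ} {r : ℝ} {t : Tk k r} {ζ : ℤ → ℤ} (h : Host t ζ) {i j : ℤ} (g : i ≤ j) :
    ζ i + (j - i) ≤ ζ j := by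
  induction j, g using Int.leInduction with
  | base => simp
  | succ n _ ih =>
    have := h.lt n
    omega

/-- At most three zero cells in a lap. -/
lemma Host.no4 {k : ℤ} {r : ℝ} {t : Tk k r} {ζ : ℤ → ℤ} (h : Host t ζ) {a b c d : ℤ} (ha : t.Zc a)
    (hb : t.Zc b) (hc : t.Zc c) (hd : t.Zc d) (ab : a < b) (bc : b < c) (cd : c < d) :
    a + (k + 2) ≤ d := by
  obtain ⟨i, rfl⟩ := h.all a ha
  obtain ⟨j, rfl⟩ := h.all b hb
  obtain ⟨l, rfl⟩ := h.all c hc
  obtain ⟨m, rfl⟩ := h.all d hd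
  have key : ∀ x y, ζ x < ζ y → x < y := fun x y g => by
    by_contra e
    have := h.mono (show y ≤ x by omega)
    omega
  have := key _ _ ab
  have := key _ _ bc
  have := key _ _ cd
  have := h.mono (show i + 3 ≤ m by omega)
  have := h.per i
  omega

/-- The conclusion about the three centres. -/
def Tk.Out {k : ℤ} {r : ℝ} (t : Tk k r) : Prop :=
  ∃ (zc : ℤ → Fin 3) (y : ℤ → ℤ), (∀ c, zc (c + 3) = zc c ∧ zc c ≠ zc (c + 1)) ∧
    (∀ c, ∃ L : ℤ, y c = t.fi (zc c) + L * k) ∧ (∀ c, y (c + 3) = y c + k) ∧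
    (∀ c, t.G (zc (c + 1)) (y (c + 1)) - t.G (zc c) (y c) ≤ t.M c + (r - k)) ∧
    ∀ c i, t.Q (zc c) i → t.wc (zc c) i ≠ c

end Pool.Agent.P.MP_3f5ded_co.UG
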