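import Pool.Agent.P.MP_3f5ded_co.USTk

set_option autoImplicit false

namespace Pool.Agent.P.MP_3f5ded_co.UG

namespace Tk
variable {k : ℤ} {r : ℝ} (t : Tk k r)

lemma ch_per {z : Fin 3} {i : ℤ} (h : t.Q z i) : t.ch z (i + k) = t.ch z i + 2 * (k + 2) := by
  obtain ⟨a, b⟩ := t.wper z i h
  unfold ch
  rw [t.tau_per h, a, b]; ring

lemma ch_even {z : Fin 3} {i : ℤ} (h : t.Q z i) : t.ch z i % 2 = 0 := by
  have := t.win z i h
  unfold ch tau tkf
  split_ifs <;> omega

lemma Q_sub {z : Fin 3} {i : ℤ} (h : t.Q z i) : t.Q z (i - k) :=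
  (t.Qper z (i - k)).1 (by simpa using h)

lemma phi_mono {z : Fin 3} {i i' : ℤ} (h : t.Q z i) (h' : t.Q z i') (g : i ≤ i') :
    t.ch z i - 2 * i ≤ t.ch z i' - 2 * i' := by
  obtain ⟨n, hn⟩ : ∃ n : ℕ, i' - i ≤ n := ⟨(i' - i).toNat, by omega⟩
  have k0 := t.k11
  induction n using Nat.strong_induction_on generalizing i' with
  | _ n ih =>
    by_cases e : i' - i ≤ k + 2
    · have := t.chi h h' (by omega) e (t.Gmono z g)
      omega
    · have a := t.Q_sub h'
      have b := t.ch_per a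
      rw [sub_add_cancel] at b
      have := ih (n - 1) (by omega) a (by omega) (by omega)
      omega

lemma lt_of_tau {z : Fin 3} {i i' : ℤ} (h : t.Q z i) (h' : t.Q z i') (g : t.tau z i < t.tau z i') :
    i < i' := by
  by_contra e
  rcases eq_or_lt_of_le (show i' ≤ i by omega) with e | e
  · subst e; omega
  · have := t.tau_lt h' h e; omega

/-- The centre has a leaf item next to the shared tick. -/
def Mk (z : Fin 3) (c : ℤ) : Prop := t.occ z (t.sig c - 1) ∨ t.occ z (t.sig c + 1)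

/-- The level of a mark. -/
def MV (z : Fin 3) (c v : ℤ) : Prop := ∃ i, t.Q z i ∧ t.wc z i = c ∧
  ((t.wu z i = -1 ∧ t.ch z i - 2 * i = v) ∨ (t.wu z i = 1 ∧ t.ch z i - 2 * i = v + 2))

lemma sig_succ (c : ℤ) : t.sig (c + 1) = t.sig c + 2 * t.M c + 1 := by
  unfold sig; rw [t.Ns]; ring

lemma sig_per (c : ℤ) : t.sig (c + 3) = t.sig c + (2 * k + 1) := by
  unfold sig; rw [t.Nper]; ring

lemma mk_per (z : Fin 3) (c : ℤ) : t.Mk z (c + 3) ↔ t.Mk z c := by
  unfold Mk
  rw [t.sig_per, show t.sig c + (2 * k + 1) - 1 = t.sig c - 1 + (2 * k + 1) by ring,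
    show t.sig c + (2 * k + 1) + 1 = t.sig c + 1 + (2 * k + 1) by ring, t.occ_per, t.occ_per]

/-- Ticks just after a shared tick lie in its window. -/
lemma near_pos {z : Fin 3} {i c x : ℤ} (h : t.Q z i) (e : t.tau z i = t.sig c + x) (x0 : 0 < x)
    (xo : x % 2 = 1) (x1 : x ≤ 2 * t.M c + 1) (x2 : x ≤ 2 * t.M (c + 1) + 1) :
    t.wc z i = c ∧ t.wu z i = x := by
  have w := t.win z i h
  have a2 := t.Mper c
  rcases t.loc h e x0.le x1 with ⟨a, b⟩ | ⟨a, b⟩ | ⟨a, b⟩ | ⟨a, b⟩
  · exact ⟨a, b⟩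
  · omega
  · omega
  · rw [a, show c + 2 + 1 = c + 3 by ring] at w; omega

/-- Ticks just before a shared tick lie in its window. -/
lemma near_neg {z : Fin 3} {i c x : ℤ} (h : t.Q z i) (e : t.tau z i = t.sig c - x) (x0 : 0 < x)
    (xo : x % 2 = 1) (x1 : x ≤ 2 * t.M (c - 1) + 1) (x2 : x ≤ 2 * t.M (c + 1) + 1) :
    t.wc z i = c ∧ t.wu z i = -x := by
  have w := t.win z i h
  have a1 := t.sig_succ (c - 1)
  rw [sub_add_cancel] at a1
  rcases t.loc (c := c - 1) (x := 2 * t.M (c - 1) + 1 - x) h (by omega) (by omega) (by omega) with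
    ⟨a, b⟩ | ⟨a, b⟩ | ⟨a, b⟩ | ⟨a, b⟩
  · omega
  · constructor <;> omega
  · rw [a, show c - 1 - 1 + 1 = c - 1 by ring] at w
    rw [show c - 1 + 2 = c + 1 by ring] at b
    omega
  · omega

lemma mk_mv {z : Fin 3} {c : ℤ} (h : t.Mk z c) : ∃ v, t.MV z c v := by
  have := t.Mpos c
  have := t.Mpos (c + 1)
  have := t.Mpos (c - 1)
  rcases h with ⟨i, a, b⟩ | ⟨i, a, b⟩
  · obtain ⟨d, e⟩ := t.near_neg (x := 1) a b (by omega) (by omega) (by omega) (by omega)
    exact ⟨_, i, a, d, Or.inl ⟨e, rfl⟩⟩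
  · obtain ⟨d, e⟩ := t.near_pos (x := 1) a b (by omega) (by omega) (by omega) (by omega)
    exact ⟨t.ch z i - 2 * i - 2, i, a, d, Or.inr ⟨e, by ring⟩⟩

lemma tau_eq (z : Fin 3) (i : ℤ) : t.tau z i = t.sig (t.wc z i) + t.wu z i := rfl

variable {t}

lemma MV.even {z : Fin 3} {c v : ℤ} (h : t.MV z c v) : v % 2 = 0 := by
  obtain ⟨i, a, -, b⟩ := h
  have := t.ch_even a
  omega

lemma MV.per {z : Fin 3} {c v : ℤ} (h : t.MV z c v) : t.MV z (c + 3) (v + 4) := by
  obtain ⟨i, a, b, d⟩ := h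
  obtain ⟨e, f⟩ := t.wper z i a
  have := t.ch_per a
  exact ⟨i + k, (t.Qper z i).2 a, by omega, by omega⟩

lemma MV.per' {z : Fin 3} {c v : ℤ} (h : t.MV z c v) : t.MV z (c - 3) (v - 4) := by
  obtain ⟨i, a, b, d⟩ := h
  have a' := t.Q_sub a
  obtain ⟨e, f⟩ := t.wper z _ a'
  have := t.ch_per a'
  rw [sub_add_cancel] at e f this
  exact ⟨i - k, a', by omega, by omega⟩

lemma MV.after {z : Fin 3} {c v i : ℤ} (h : t.MV z c v) (q : t.Q z i) (g : t.sig c < t.tau z i) :
    v + 2 ≤ t.ch z i - 2 * i := by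
  obtain ⟨j, a, b, d⟩ := h
  have e := t.tau_eq z j
  rw [b] at e
  rcases d with ⟨d, f⟩ | ⟨d, f⟩
  · have l := t.lt_of_tau a q (by omega)
    by_cases s : i - j ≤ k + 2
    · have := t.jumpL a q s (t.Gmono z l.le) (by omega) (by rw [b]; exact g)
      omega
    · have a' := t.Q_sub q
      have p := t.ch_per a'
      rw [sub_add_cancel] at p
      have := t.phi_mono a a' (by omega)
      omega
  · have l : j ≤ i := by
      by_contra s
      have := t.tau_lt q a (by omega)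
      omega
    have := t.phi_mono a q l
    omega

lemma MV.before {z : Fin 3} {c v i : ℤ} (h : t.MV z c v) (q : t.Q z i) (g : t.tau z i < t.sig c) :
    t.ch z i - 2 * i ≤ v := by
  obtain ⟨j, a, b, d⟩ := h
  have e := t.tau_eq z j
  rw [b] at e
  rcases d with ⟨d, f⟩ | ⟨d, f⟩
  · have l : i ≤ j := by
      by_contra s
      have := t.tau_lt a q (by omega)
      omega
    have := t.phi_mono q a l
    omega
  · have l := t.lt_of_tau q a (by omega)
    by_cases s : j - i ≤ k + 2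
    · have := t.jumpR q a s (t.Gmono z l.le) (by omega) (by rw [b]; exact g)
      omega
    · have p := t.ch_per q
      have := t.phi_mono ((t.Qper z i).2 q) a (by omega)
      omega

lemma MV.add {z : Fin 3} {c v d v' : ℤ} (h : t.MV z c v) (h' : t.MV z d v')
    (g : d = c + 1 ∨ d = c + 2) : v + 2 ≤ v' := by
  have s1 := t.sig_succ c
  have s2 := t.sig_succ (c + 1)
  have s3 := t.sig_succ (c + 2)
  have s4 := t.sig_per c
  rw [show c + 1 + 1 = c + 2 by ring] at s2
  rw [show c + 2 + 1 = c + 3 by ring] at s3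
  have := t.Mpos c
  have := t.Mpos (c + 1)
  have := t.Mpos (c + 2)
  have sd : t.sig c + 3 ≤ t.sig d ∧ t.sig d + 3 ≤ t.sig c + (2 * k + 1) := by
    rcases g with rfl | rfl <;> omega
  have ha := fun i => h.after (i := i)
  have hb := fun i => h'.before (i := i)
  obtain ⟨i, a, b, e⟩ := h
  obtain ⟨j, a', b', e'⟩ := h'
  have x := t.tau_eq z i
  have y := t.tau_eq z j
  rw [b] at x
  rw [b'] at y
  have p1 := ha j a' (by omega)
  have p2 := hb i a (by omega)
  rcases e with ⟨e, f⟩ | ⟨e, f⟩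
  · rcases e' with ⟨e', f'⟩ | ⟨e', f'⟩
    · omega
    · have l := t.lt_of_tau a a' (by omega)
      have l' := t.lt_of_tau a' ((t.Qper z i).2 a) (by rw [t.tau_per a]; omega)
      have := t.jump2 a a' (by omega) (t.Gmono z l.le) (by omega) (by omega) (by omega)
      omega
  · omega

lemma MV.tight {z : Fin 3} {c v v' : ℤ} (h : t.MV z c v) (h' : t.MV z (c + 1) v') : v' = v + 2 := by
  have a := h.add h' (Or.inl rfl)
  have b := h'.add h.per (Or.inr (by ring))
  omega

lemma MV.tight2 {z : Fin 3} {c v v' : ℤ} (h : t.MV z c v) (h' : t.MV z (c + 2) v') : v' = v + 2 := by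
  have a := h.add h' (Or.inr rfl)
  have b := h'.add h.per (Or.inl (by ring))
  omega

lemma no3 {z : Fin 3} {c : ℤ} (h0 : t.Mk z c) (h1 : t.Mk z (c + 1)) (h2 : t.Mk z (c + 2)) :
    False := by
  obtain ⟨v0, a⟩ := t.mk_mv h0
  obtain ⟨v1, b⟩ := t.mk_mv h1
  obtain ⟨v2, d⟩ := t.mk_mv h2
  have := a.tight b
  have := a.tight2 d
  have := b.add d (Or.inl (by ring))
  omega

variable (t)

lemma sg_N (c : ℤ) : t.sg (t.N c) = c ∧ t.sg (t.N c - 1) = c - 1 := by
  have a := t.Ns c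
  have b := t.Ns (c - 1)
  have := t.Mpos c
  have := t.Mpos (c - 1)
  rw [sub_add_cancel] at b
  exact ⟨t.sg_eq (by omega) (by omega), t.sg_eq (by omega) (by rw [sub_add_cancel]; omega)⟩

lemma tb_N (c : ℤ) : t.tb (t.N c) = t.sig c ∧ t.tb (t.N c - 1) = t.sig c - 1 := by
  unfold tb sig
  rw [(t.sg_N c).1, (t.sg_N c).2]
  constructor <;> ring

end Tk

lemma fin3_both {P R : Fin 3 → Prop} (h1 : ∀ p q, p ≠ q → P p ∨ P q)
    (h2 : ∀ p q, p ≠ q → R p ∨ R q) : ∃ z, P z ∧ R z := by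
  have := h1 0 1 (by decide)
  have := h1 0 2 (by decide)
  have := h1 1 2 (by decide)
  have := h2 0 1 (by decide)
  have := h2 0 2 (by decide)
  have := h2 1 2 (by decide)
  by_contra g
  push Not at g
  have := g 0
  have := g 1
  have := g 2
  tauto

namespace Host
variable {k : ℤ} {r : ℝ} {t : Tk k r} {ζ : ℤ → ℤ}

lemma M2 (h : Host t ζ) (c : ℤ) : 2 ≤ t.M c := by
  have := h.even c
  have := t.Mpos c
  omega

lemma off (h : Host t ζ) {z : Fin 3} {i : ℤ} (q : t.Q z i) (c : ℤ) : t.tau z i ≠ t.sig c :=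
  fun e => t.cnt_zero.1 (h.sig c) z ⟨i, q, e⟩

lemma two_mk (h : Host t ζ) {c : ℤ} (g : ¬(t.Zc (t.N c - 1) ∧ t.Zc (t.N c))) (p q : Fin 3)
    (e : p ≠ q) : t.Mk p c ∨ t.Mk q c := by
  obtain ⟨a, b⟩ := t.tb_N c
  have key : ∀ z i, t.InC z i (t.N c - 1) ∨ t.InC z i (t.N c) → t.Mk z c := by
    rintro z i (⟨x, y⟩ | ⟨x, y⟩)
    · have := h.off x c
      exact Or.inl ⟨i, x, show t.tau z i = _ by omega⟩
    · have := h.off x c
      exact Or.inr ⟨i, x, show t.tau z i = _ by omega⟩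
  rcases not_and_or.1 g with g | g
  · exact (t.cell_two g e).imp (fun ⟨i, x⟩ => key p i (Or.inl x)) fun ⟨i, x⟩ => key q i (Or.inl x)
  · exact (t.cell_two g e).imp (fun ⟨i, x⟩ => key p i (Or.inr x)) fun ⟨i, x⟩ => key q i (Or.inr x)

lemma InC_nz {z : Fin 3} {i n : ℤ} (a : t.InC z i n) : ¬t.Zc n := fun g => by
  rcases a.2 with e | e
  · exact t.cnt_zero.1 g.1 z ⟨i, a.1, e⟩
  · exact t.cnt_zero.1 g.2 z ⟨i, a.1, e⟩

/-- The two cells at a shared tick are not both zero. -/
lemma nodz (h : Host t ζ) (c : ℤ) : ¬(t.Zc (t.N c - 1) ∧ t.Zc (t.N c)) := by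
  rintro ⟨z1, z2⟩
  have n0 := t.Ns (c - 1)
  have n1 := t.Ns c
  have n2 := t.two c
  have n3 := t.Msum c
  have m0 := h.M2 (c - 1)
  have m1 := h.M2 c
  have m2 := h.M2 (c + 1)
  have m3 := h.M2 (c + 2)
  have k0 := t.k11
  have n4 := t.Mper (c - 1)
  rw [show c - 1 + 3 = c + 2 by ring] at n4
  rw [sub_add_cancel] at n0
  obtain ⟨z, k1, k2⟩ := fin3_both
    (h.two_mk (c := c + 1) fun g => by
      have := h.no4 z1 z2 g.1 g.2 (by omega) (by omega) (by omega); omega)
    (h.two_mk (c := c + 2) fun g => by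
      have := h.no4 z1 z2 g.1 g.2 (by omega) (by omega) (by omega); omega)
  obtain ⟨j, hj, hz⟩ : ∃ j, (ζ j = t.N c - 1 ∨ ζ j = t.N c) ∧ z ≠ t.o j := by
    obtain ⟨j, e⟩ := h.all _ z1
    obtain ⟨j', e'⟩ := h.all _ z2
    have : j' = j + 1 := by
      rcases lt_trichotomy j' (j + 1) with g | g | g
      · have := h.mono (show j' ≤ j by omega); omega
      · exact g
      · have := h.mono (show j ≤ j' by omega); omega
    subst this
    by_cases g : z = t.o j
    · exact ⟨j + 1, Or.inr e', by rw [g]; exact t.one j⟩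
    · exact ⟨j, Or.inl e, g⟩
  obtain ⟨p, i, n, p', i', n', a, a', l1, l2, l3, -, g1, g2⟩ := h.anc j
  have b1 : n ≠ t.N c - 1 := fun e => InC_nz a (e ▸ z1)
  have b2 : n' ≠ t.N c := fun e => InC_nz a' (e ▸ z2)
  have sh := t.short (ν := n' - n) a.1 a'.1 l3 (by push_cast at g1 g2 ⊢; linarith)
  have s1 : t.sg n = c - 1 := t.sg_eq (by omega) (by rw [sub_add_cancel]; omega)
  have s2 : t.sg n' = c := t.sg_eq (by omega) (by omega)
  have t1 := a.2
  have t2 := a'.2
  unfold Tk.tb at t1 t2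
  rw [s1] at t1
  rw [s2] at t2
  obtain ⟨w1, u1⟩ := t.near_neg (c := c) (x := 2 * (t.N c - n) - 1) a.1
    (by unfold Tk.sig; omega) (by omega) (by omega) (by omega) (by omega)
  obtain ⟨w2, u2⟩ := t.near_pos (c := c) (x := 2 * (n' - t.N c) + 1) a'.1
    (by unfold Tk.sig; omega) (by omega) (by omega) (by omega) (by omega)
  have c1 : t.ch p i = 2 * n - 2 := by unfold Tk.ch; rw [w1, if_neg (by omega)]; omega
  have c2 : t.ch p' i' = 2 * n' := by unfold Tk.ch; rw [w2, if_pos (by omega)]; omega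
  obtain ⟨v1, x1⟩ := t.mk_mv k1
  obtain ⟨v2, x2⟩ := t.mk_mv k2
  have tt := x1.add x2 (Or.inl (by ring))
  obtain ⟨i1, q1, d1, e1⟩ := x1
  obtain ⟨i0, q0, d0, e0⟩ := x2.per'
  rw [show c + 2 - 3 = c - 1 by ring] at d0
  obtain ⟨gw, nw⟩ := t.wis j z hz
  have y1 := t.tau_eq z i1
  have y0 := t.tau_eq z i0
  rw [d1] at y1
  rw [d0] at y0
  unfold Tk.sig at y1 y0
  have o1 : t.wi j z < i1 := by
    by_contra g
    have := t.Gmono z (show i1 ≤ t.wi j z by omega)
    have ne : i1 ≠ t.wi j z := fun e => nw (e ▸ q1)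
    have r1 : (1 : ℝ) ≤ ((t.wi j z - i1 : ℤ) : ℝ) := by exact_mod_cast (show 1 ≤ t.wi j z - i1 by omega)
    have r2 : (1 : ℝ) ≤ ((n' - ζ j : ℤ) : ℝ) := by exact_mod_cast (show 1 ≤ n' - ζ j by omega)
    have := t.short (ν := 2) q1 a'.1 (by omega) (by push_cast at *; linarith)
    omega
  have o0 : i0 < t.wi j z := by
    by_contra g
    have := t.Gmono z (show t.wi j z ≤ i0 by omega)
    have ne : i0 ≠ t.wi j z := fun e => nw (e ▸ q0)
    have r1 : (1 : ℝ) ≤ ((i0 - t.wi j z : ℤ) : ℝ) := by exact_mod_cast (show 1 ≤ i0 - t.wi j z by omega)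
    have r2 : (1 : ℝ) ≤ ((ζ j - n : ℤ) : ℝ) := by exact_mod_cast (show 1 ≤ ζ j - n by omega)
    have := t.short (ν := 2) a.1 q0 (by omega) (by push_cast at *; linarith)
    omega
  have o2 : i1 < i0 + k :=
    t.lt_of_tau q1 ((t.Qper z i0).2 q0) (by rw [t.tau_per q0]; omega)
  have g3 := t.Gmono z o1.le
  have g4 := t.Gmono z o0.le
  have f1 : t.G p i + ((ζ j - n + (i1 - t.wi j z) : ℤ) : ℝ) ≤ t.G z i1 := by
    push_cast at *; linarith
  have f0 : t.G z i0 + ((t.wi j z - i0 + (n' - ζ j) : ℤ) : ℝ) ≤ t.G p' i' := by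
    push_cast at *; linarith
  have j1 := t.jumpL a.1 q1 (by omega) f1 (by omega) (by rw [w1]; unfold Tk.sig; omega)
  have j2 := t.jump2 a.1 q1 (by omega) f1 (by omega)
  have j3 := t.jumpR q0 a'.1 (by omega) f0 (by omega) (by rw [w2]; unfold Tk.sig; omega)
  have j4 := t.jump2 q0 a'.1 (by omega) f0
  omega

theorem exists_units (h : Host t ζ) : ∃ zc F, Units t zc F := by
  classical
  have two := fun c => h.two_mk (h.nodz c)
  have ex : ∀ c, ∃ z, ¬t.Mk z c := fun c => by
    obtain ⟨z, a, b⟩ := fin3_both (two (c + 1)) (two (c + 2))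
    exact ⟨z, fun g => Tk.no3 g a b⟩
  choose zc hzc using ex
  have mk : ∀ c z, z ≠ zc c → t.Mk z c := fun c z e => (two c z (zc c) e).resolve_right (hzc c)
  have per : ∀ c, zc (c + 3) = zc c := fun c => by
    by_contra e
    exact hzc (c + 3) ((t.mk_per _ _).2 (mk c _ e))
  have ne : ∀ c, zc c ≠ zc (c + 1) := fun c e => by
    obtain ⟨z, a, b⟩ := fin3_both (P := fun z => z ≠ zc c) (fun p q g => by
      by_contra s
      push Not at s
      exact g (s.1.trans s.2.symm)) (two (c + 2))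
    exact Tk.no3 (mk c z a) (mk (c + 1) z (e ▸ a)) b
  have ne2 : ∀ c, zc c ≠ zc (c + 2) := fun c e => ne (c + 2) (by
    rw [show c + 2 + 1 = c + 3 by ring, per]; exact e.symm)
  have exv : ∀ z c, ∃ v, z ≠ zc c → t.MV z c v := fun z c => by
    by_cases e : z = zc c
    · exact ⟨0, fun g => absurd e g⟩
    · obtain ⟨v, hv⟩ := t.mk_mv (mk c z e)
      exact ⟨v, fun _ => hv⟩
  choose V hV using exv
  set F : Fin 3 → ℤ → ℤ := fun z c => if z = zc c then V z (c + 1) / 2 else V z c / 2 + 1 with hF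
  have lvl : ∀ z i c, t.Q z i → t.sig c < t.tau z i → t.tau z i < t.sig (c + 1) →
      t.ch z i - 2 * i = 2 * F z c := by
    intro z i c q g1 g2
    have s0 := t.sig_succ (c - 1)
    have s1 := t.sig_succ (c + 1)
    have := t.Mpos (c - 1)
    have := t.Mpos (c + 1)
    rw [sub_add_cancel] at s0
    simp only [hF]
    by_cases e : z = zc c
    · have x1 := hV z (c + 1) (e ▸ ne c)
      have x0 := hV z (c - 1) (by have := ne (c - 1); rw [sub_add_cancel] at this; exact e ▸ this.symm)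
      have := x0.tight2 (by rw [show c - 1 + 2 = c + 1 by ring]; exact x1)
      have := x0.after q (by omega)
      have := x1.before q g2
      have := x1.even
      rw [if_pos e]; omega
    · have x0 := hV z c e
      have := x0.after q g1
      have := x0.even
      rw [if_neg e]
      by_cases e' : z = zc (c + 1)
      · have x2 := hV z (c + 1 + 1) (e' ▸ ne (c + 1))
        have := x0.tight2 (by rw [show c + 2 = c + 1 + 1 by ring]; exact x2)
        have := x2.before q (by omega)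
        omega
      · have x1 := hV z (c + 1) e'
        have := x0.tight x1
        have := x1.before q g2
        omega
  refine ⟨zc, F, per, ne, mk, fun c => not_or.1 (hzc c), ?_, ?_, ?_, h.nodz⟩
  · intro z c
    simp only [hF]
    by_cases e' : z = zc (c + 1)
    · have e : z ≠ zc c := fun g => ne c (g.symm.trans e')
      have x0 := hV z c e
      have x2 := hV z (c + 1 + 1) (e' ▸ ne (c + 1))
      have := x0.tight2 (by rw [show c + 2 = c + 1 + 1 by ring]; exact x2)
      rw [if_pos e', if_neg e, if_pos e']; omega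
    · rw [if_neg e', if_neg e']
      by_cases e : z = zc c
      · rw [if_pos e]
      · have := (hV z c e).tight (hV z (c + 1) e')
        rw [if_neg e]; omega
  · intro z i n q e
    have s := t.sgs n
    have o := h.off q (t.sg n + 1)
    have e' := e
    unfold Tk.tb at e'
    have g : n + 1 < t.N (t.sg n + 1) := by unfold Tk.sig at o; omega
    have := t.ch_al q e g
    have := lvl z i (t.sg n) q (by unfold Tk.sig; omega) (by unfold Tk.sig; omega)
    omega
  · intro z i n q e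
    have s := t.sgs n
    have o := h.off q (t.sg n)
    have e' := e
    unfold Tk.tb at e'
    have g : t.N (t.sg n) < n := by unfold Tk.sig at o; omega
    have := t.ch_be q e g
    have := lvl z i (t.sg n) q (by unfold Tk.sig; omega) (by unfold Tk.sig; omega)
    omega

end Host

end Pool.Agent.P.MP_3f5ded_co.UG
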