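import Pool.Agent.P.MP_3f5ded_co.USChain

set_option autoImplicit false

namespace Pool.Agent.P.MP_3f5ded_co.UG

open Sum

/-- A pole with two pairs of ports that share the slack `2 r - 2 k - 1`. -/
def IsI (k : ℕ) (A : Pole k (Fin 4)) : Prop :=
  A.Inj ∧ (∀ (r : ℝ) x, 1 ≤ r → r < k + 1 → A.Rel r x →
      cd r (x 0) (x 1) + cd r (x 2) (x 3) ≤ 2 * r - 2 * k - 1) ∧
    ∀ r u v c : ℝ, r < k + 1 → |u| + |v| ≤ 2 * r - 2 * k - 1 → ∃ a, A.Rel r ![a, a + u, c + v, c]

/-- The wires of a vertex with loops through poles. -/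
def wLp (m : ℕ) : ((Unit × (Fin 2 ⊕ Fin m × Fin 2)) ⊕ (Fin m × Fin 2)) ⊕ Fin 2 →
    ((Unit × (Fin 2 ⊕ Fin m × Fin 2)) ⊕ (Fin m × Fin 2)) ⊕ Fin 2
  | inl (inl (_, inl i)) => inr i
  | inl (inl (_, inr y)) => inl (inr y)
  | inl (inr y) => inl (inl ((), inr y))
  | inr i => inl (inl ((), inl i))

/-- The places of the slots around the vertex. -/
def pLp (m : ℕ) : Fin 2 ⊕ Fin m × Fin 2 → ℕ
  | inl i => i
  | inr y => 2 + 2 * y.1 + y.2

/-- A vertex with two ends and all other edges paired through copies of `F`. -/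
theorem exists_Lp {k m : ℕ} (hk : 2 + m * 2 = k) {F : Pole k (Fin 2)} (hF : F.Inj) :
    ∃ A : Pole k (Fin 2), (∀ r x, A.Rel r x → Far r (x 0) (x 1)) ∧
      ∀ r t : ℝ, (k : ℝ) ≤ r → (∀ y, F.Rel r y) → A.Rel r ![t, t + 1] := by
  obtain ⟨V, hV⟩ := exists_vertex (k := k) (Fin 2 ⊕ Fin m × Fin 2) (by simp [← hk])
  obtain ⟨A, -, hA⟩ := glue2 (fun _ : Unit => V) (fun _ : Fin m => F) (fun _ => V.tag_true)
    (fun _ => hF.tag) (wLp m)
    (by rintro ((⟨_, i | y⟩ | y) | i) <;> rfl)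
    (fun p => ⟨_, rfl⟩)
    (by rintro (⟨_, i | y⟩ | y) z h <;> cases h <;> simp)
    (by
      rintro (⟨_, i | y⟩ | y) z (⟨_, i' | y'⟩ | y') z' h h' <;> cases h <;> cases h' <;>
        simp +contextual [SV, Prod.ext_iff])
    (fun _ _ => True) (fun _ _ _ _ _ _ _ => trivial)
  refine ⟨A, fun r x h => ?_, fun r t hr h => (hA r _).2 ?_⟩
  · obtain ⟨c, c1, c2, c3, -⟩ := (hA r x).1 h
    have e : ∀ i, Cg r (c (inl (inl ((), inl i)))) (x i) := fun i =>
      (c2 _).trans (Cg.of_eq (c1 i))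
    exact ((hV r _).1 (c3 ()) (inl 0) (inl 1) (by simp)).congr (e 0) (e 1)
  · have hb : ∀ s, pLp m s + 1 ≤ k := by
      rintro (i | ⟨j, i⟩) <;> simp only [pLp] <;> omega
    have hi : ∀ s s', pLp m s = pLp m s' → s = s' := by
      rintro (i | ⟨j, i⟩) (i' | ⟨j', i'⟩) <;> simp only [pLp] <;> intro e
      · rw [Fin.ext e]
      · omega
      · omega
      · rw [show j = j' from Fin.ext (by omega), show i = i' from Fin.ext (by omega)]
    have key : ∀ s s', pLp m s < pLp m s' → Far r (t + pLp m s) (t + pLp m s') := by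
      intro s s' g
      have a1 : (pLp m s : ℝ) + 1 ≤ pLp m s' := by exact_mod_cast g
      have a2 : (pLp m s' : ℝ) + 1 ≤ k := by exact_mod_cast hb s'
      have a3 : (0 : ℝ) ≤ pLp m s := Nat.cast_nonneg _
      exact Far.of_bounds (by linarith) (by linarith)
    refine ⟨Sum.elim (Sum.elim (fun y => t + pLp m y.2) fun y => t + pLp m (inr y)) ![t, t + 1],
      fun _ => rfl, ?_, fun _ => (hV r _).2 fun s s' g => ?_, fun _ => h _⟩
    · have e : ∀ i : Fin 2, t + pLp m (inl i) = ![t, t + 1] i := by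
        intro i
        fin_cases i <;> simp [pLp]
      rintro ((⟨_, i | y⟩ | y) | i)
      · exact Cg.of_eq (e i)
      · exact Cg.refl _ _
      · exact Cg.refl _ _
      · exact Cg.of_eq (e i).symm
    · rcases lt_or_gt_of_ne (fun e => g (hi s s' e)) with a | a
      · exact key s s' a
      · exact (key s' s a).symm

/-- The wires that lead the second port through a pole. -/
def wTr : (Fin 2 ⊕ Fin 4) ⊕ Fin 4 → (Fin 2 ⊕ Fin 4) ⊕ Fin 4
  | inl (inl i) => ![inr 1, inl (inr 1)] i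
  | inl (inr i) => ![inr 0, inl (inl 1), inr 2, inr 3] i
  | inr j => ![inl (inr 0), inl (inl 0), inl (inr 2), inl (inr 3)] j

section

variable {k : ℕ} {ok : ℝ → Prop}

/-- The second of four ports led through a pole with two ports. -/
theorem Real'.thr {b : Bool} {R1 : ℝ → (Fin 2 → ℝ) → Prop} {R2 : ℝ → (Fin 4 → ℝ) → Prop}
    (g1 : Real' k ok (Fin 2) b R1) (g2 : Real' k ok (Fin 4) true R2) :
    Real' k ok (Fin 4) true (fun r x => ∃ y, R1 r ![x 1, y] ∧ R2 r ![x 0, y, x 2, x 3]) := by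
  refine (glueB g1 g2 wTr (by decide) (by decide) (by decide) (by decide)
    (fun _ => by decide)).congr fun r hr x => ⟨?_, ?_⟩
  · rintro ⟨c, h0, h1, h2, h3⟩
    have e : ∀ j, Cg r (c (wTr (inr j))) (x j) := fun j => (h0 j ▸ h1 (inr j)).symm
    refine ⟨c (inl (inl 1)), g1.cg hr h2 fun p => ?_, g2.cg hr h3 fun p => ?_⟩
    · fin_cases p
      · exact e 1
      · exact Cg.refl _ _
    · fin_cases p
      · exact e 0
      · exact h1 (inl (inr 1))
      · exact e 2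
      · exact e 3
  · rintro ⟨y, h1, h2⟩
    refine ⟨Sum.elim (Sum.elim ![x 1, y] ![x 0, y, x 2, x 3]) x, fun _ => rfl, ?_, h1, h2⟩
    rintro ((i | i) | i) <;> fin_cases i <;> exact Cg.refl _ _

/-- Two poles closed against each other; the first may have both ports at one vertex. -/
theorem Real'.clo' {b : Bool} {R1 R2 : ℝ → (Fin 2 → ℝ) → Prop} (g1 : Real' k ok (Fin 2) b R1)
    (g2 : Real' k ok (Fin 2) true R2) :
    Real' k ok (Fin 0) true (fun r _ => ∃ y, R1 r y ∧ R2 r y) := by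
  refine (glueB g1 g2 wClo (by decide) (by decide) (by decide) (by decide)
    (fun _ => by decide)).congr fun r hr x => ⟨?_, ?_⟩
  · rintro ⟨c, -, h1, h2, h3⟩
    exact ⟨_, h2, g2.cg hr h3 fun p => h1 (inl (inr p))⟩
  · rintro ⟨y, h1, h2⟩
    refine ⟨Sum.elim (Sum.elim y y) x, fun _ => rfl, ?_, h1, h2⟩
    rintro ((i | i) | i) <;> exact Cg.refl _ _

end

/-- The wire of reach `2 r - 2 k - 1`. -/
theorem IsI.wire {k : ℕ} {A : Pole k (Fin 4)} (hA : IsI k A) {W : Pole k (Fin 2)} (hW : IsE k W) :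
    ∃ R, Real' k (okk k) (Fin 2) true R ∧
      (∀ r x, okk k r → R r x → cd r (x 0) (x 1) ≤ 2 * r - 2 * k - 1) ∧
      ∀ r x, okk k r → cd r (x 0) (x 1) ≤ 2 * r - 2 * k - 1 → R r x := by
  have hR := (hW.1.real (okk k)).cap (hA.1.real (okk k))
  refine ⟨_, hR, ?_, fun r x hr h => ?_⟩
  · rintro r x hr ⟨a, b, -, h⟩
    have b1 : cd r a b + cd r (x 0) (x 1) ≤ _ := hA.2.1 r _ hr.1 hr.2 h
    linarith [cd_nonneg r a b]
  · have hp : 0 < r := by linarith [hr.1]
    obtain ⟨v, hv, e⟩ := cd_lift r (x 1) (x 0)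
    rw [cd_symm hp] at e
    obtain ⟨a, ha⟩ := hA.2.2 r 0 v (x 1) hr.2 (by rw [abs_zero, e]; linarith)
    refine hR.cg hr (x := ![x 1 + v, x 1]) ⟨a, a + 0, hW.2.2 r _ ?_, ha⟩ fun j => ?_
    · refine (cd_le_of (u := 0) hp (Cg.refl _ _)).trans ?_
      rw [abs_zero]
      linarith [cd_nonneg r (x 0) (x 1)]
    · fin_cases j
      exacts [hv.symm, Cg.refl _ _]

/-- A closed pole that is colourable at `x` and not below. -/
theorem IsI.closed {k : ℕ} {A : Pole k (Fin 4)} (hA : IsI k A) (hk : 4 ≤ k) (he : Even k) (x : ℚ)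
    (h1 : (k : ℚ) + 1 / 2 < x) (h2 : x < k + 1) :
    ∃ R, Real' k (okk k) (Fin 0) true R ∧ (∀ y, R x y) ∧
      ∀ (r : ℝ) y, okk k r → r < x → ¬ R r y := by
  obtain ⟨W, hW⟩ := exists_E_even hk he
  obtain ⟨E, hE, E1, E2⟩ := hA.wire hW
  have hk' : (4 : ℝ) ≤ k := by exact_mod_cast hk
  have h1' : (k : ℝ) + 1 / 2 < x := by
    have := (Rat.cast_lt (K := ℝ)).2 h1
    push_cast at this
    exact this
  have h2' : (x : ℝ) < k + 1 := by exact_mod_cast h2
  have hok : okk k x := ⟨by linarith, h2'⟩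
  have hpos : ∀ r : ℝ, okk k r → 0 < r := fun r hr => by linarith [hr.1]
  have hs : (0 : ℝ) < 2 * x - 2 * k - 1 := by linarith
  obtain ⟨F, ⟨F', f1, f2⟩, f3⟩ := exists_free hE hok (hpos _ hok) hs fun y => E2 x y hok
  obtain ⟨t, ht⟩ := he
  obtain ⟨V, V1, V2⟩ := exists_Lp (m := t - 1) (by omega) (f1 rfl)
  obtain ⟨L, N, hL, hN, hq⟩ := exists_ratio (α := 2 - 2 * (x - k)) (β := 2 * (x - k) - 1)
    (by linarith) (by linarith)
  refine exists_drift (s := fun r => 2 * r - 2 * k - 1) (κ := fun r => 2 * r - 2 * k - 2)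
    (β := fun _ => 0) hE ((V.real (okk k)).thr (hA.1.real (okk k))) hpos hok hs E1
    (fun y => E2 x y hok) ?_ (fun v c a1 a2 => ?_) L N hL hN ?_ ?_
  · rintro r y hr ⟨b, a1, a2⟩
    have b1 : 1 ≤ cd r (y 1) b := (V1 r _ a1).le_cd
    have b2 : cd r (y 0) b + cd r (y 2) (y 3) ≤ _ := hA.2.1 r _ hr.1 hr.2 a2
    have b3 := cd_tri (hpos r hr) (y 1) (y 0) b
    rw [cd_symm (hpos r hr) (y 1) (y 0)] at b3
    have b4 := cd_nonneg r (y 0) b
    have b5 := cd_nonneg r (y 2) (y 3)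
    exact ⟨by linarith, by linarith, by linarith⟩
  · obtain ⟨a, ha⟩ := hA.2.2 x (2 * x - 2 * k - 1 - v) v c h2' (by
      rw [abs_of_nonneg (by linarith), abs_of_nonneg a1]
      linarith)
    refine ⟨a, _, ?_, ha⟩
    have e : a + (2 * x - 2 * k - 1 - v) = a - (v - (2 * x - 2 * k - 2)) + 1 := by ring
    rw [e]
    exact V2 x _ (by linarith) fun y => (f2 x hok y).2 (f3 y)
  · push_cast at hq
    linarith
  · intro r _ hr
    constructor <;> linarith

/-- With such a pole, the values for an even degree `k` are all rationals in `[k, k + 1]`. -/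
theorem iff_even {k : ℕ} (hk : 6 ≤ k) (he : Even k) (hI : ∃ A, IsI k A) (x : ℝ) :
    (∃ (n : ℕ) (G : SimpleGraph (Fin n)) (_ : DecidableRel G.Adj), 0 < n ∧
      G.IsRegularOfDegree k ∧ sInf {r : ℝ | 1 ≤ r ∧ Col G r} = x) ↔
      ∃ q : ℚ, x = q ∧ (k : ℚ) ≤ q ∧ q ≤ k + 1 := by
  obtain ⟨A, hA⟩ := hI
  constructor
  · rintro ⟨n, G, dec, hn, hreg, rfl⟩
    exact value_mem G hn hreg
  · rintro ⟨q, rfl, h1, h2⟩
    have hk' : (6 : ℝ) ≤ k := by exact_mod_cast hk
    have h1' : (k : ℝ) ≤ q := by exact_mod_cast h1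
    have key : ∃ (n : ℕ) (G : SimpleGraph (Fin n)) (_ : DecidableRel G.Adj),
        G.IsRegularOfDegree k ∧ IsLeast {r : ℝ | 1 ≤ r ∧ Col G r} (q : ℝ) := by
      rcases le_or_gt q (k + 1 / 2) with h3 | h3
      · exact main_lower (by omega) q h1 h3
      rcases h2.eq_or_lt with rfl | h2
      · obtain ⟨W, hW⟩ := exists_E_even (by omega) he
        obtain ⟨E, hE, E1, -⟩ := hA.wire hW
        obtain ⟨t, ht⟩ := he
        obtain ⟨V, V1, -⟩ := exists_Lp (m := t - 1) (by omega) hW.1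
        exact_mod_cast end_high_of ((V.real (okk k)).clo' hE) one_pos (by linarith)
          (fun r b1 b2 => ⟨b1, b2⟩) (by
            rintro r y hr ⟨z, a1, a2⟩
            linarith [(V1 r z a1).le_cd, E1 r z hr a2, hr.2])
      · obtain ⟨R, hR, a1, a2⟩ := hA.closed (by omega) he q h3 h2
        have h2' : (q : ℝ) < k + 1 := by exact_mod_cast h2
        exact least_of_closed hR le_rfl (by linarith) (fun r b1 b2 => ⟨b1, by linarith⟩) a1
          (fun r y b1 b2 => a2 r y ⟨b1, by linarith⟩ b2) (Or.inr rfl)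
    obtain ⟨n, G, dec, hreg, hl⟩ := key
    exact ⟨n, G, dec, pos_of_value G (by linarith) hl, hreg, hl.csInf_eq⟩

end Pool.Agent.P.MP_3f5ded_co.UG
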