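import Pool.Agent.P.MP_3f5ded_co.ULDefs

set_option autoImplicit false

namespace Pool.Agent.P.MP_3f5ded_co.UG

/-- The named vertices of the spider: centre `z`, legs `z - p - p'` and `z - q - q'`, and the
plain leaves `L`. -/
structure Spi (W : Type) where
  z : W
  p : W
  p' : W
  q : W
  q' : W
  L : Finset W

namespace Spi
variable {W : Type} (S : Spi W)

/-- The edges of the spider. They are the missing edges of the block; the ordered pair `(x, y)`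
names a port at `x`. -/
def Fe (x y : W) : Prop :=
  (x = S.z ∧ (y = S.p ∨ y = S.q ∨ y ∈ S.L)) ∨ (y = S.z ∧ (x = S.p ∨ x = S.q ∨ x ∈ S.L)) ∨
    (x = S.p ∧ y = S.p') ∨ (x = S.p' ∧ y = S.p) ∨ (x = S.q ∧ y = S.q') ∨ (x = S.q' ∧ y = S.q)

/-- Sizes and distinctness. -/
structure Ok [Fintype W] (k : ℕ) : Prop where
  card : Fintype.card W = k + 1
  cardL : 2 * S.L.card + 10 = k
  big : 12 ≤ k
  zp : S.z ≠ S.p
  zp' : S.z ≠ S.p'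
  zq : S.z ≠ S.q
  zq' : S.z ≠ S.q'
  pp' : S.p ≠ S.p'
  pq : S.p ≠ S.q
  pq' : S.p ≠ S.q'
  p'q : S.p' ≠ S.q
  p'q' : S.p' ≠ S.q'
  qq' : S.q ≠ S.q'
  zL : S.z ∉ S.L
  pL : S.p ∉ S.L
  p'L : S.p' ∉ S.L
  qL : S.q ∉ S.L
  q'L : S.q' ∉ S.L

/-- A colouring of the complete graph minus the spider, ports included: `C x y` is the colour at
`x` of the edge `xy`, or of the port `(x, y)`. -/
structure Cl (r : ℝ) (C : W → W → ℝ) : Prop where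
  sym : ∀ x y, y ≠ x → ¬ S.Fe x y → Cg r (C x y) (C y x)
  far : ∀ x y y', y ≠ x → y' ≠ x → y ≠ y' → Far r (C x y) (C x y')

/-- The ports lie on a helix: rounds `ρ`, offsets `τ` in `[t, t + s]`, `s = 2 r - 2 k - 1`. -/
structure Hx (k : ℕ) (r : ℝ) (c : W → W → ℝ) (ρ : W → W → ℤ) (τ : W → W → ℝ) (t : ℝ) : Prop where
  cg : ∀ x y, S.Fe x y → Cg r (c x y) (ρ x y + τ x y)
  early : (ρ S.p' S.p = 2 ∧ ρ S.q' S.q = 4) ∨ (ρ S.p' S.p = 4 ∧ ρ S.q' S.q = 2)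
  mid : ∀ y, S.Fe S.z y → Even (ρ S.z y) ∧ 6 ≤ ρ S.z y ∧ ρ S.z y ≤ k + 2
  six : ∃ y, S.Fe S.z y ∧ ρ S.z y = 6
  eight : ∃ y, S.Fe S.z y ∧ ρ S.z y = 8
  late : ∀ x y, S.Fe x y → x ≠ S.z → x ≠ S.p' → x ≠ S.q' →
    Odd (ρ x y) ∧ k + 5 ≤ ρ x y ∧ ρ x y ≤ 2 * k + 1
  inj : ∀ x y x' y', S.Fe x y → S.Fe x' y' → ρ x y = ρ x' y' → x = x' ∧ y = y'
  last : ∃ l ∈ S.L, ρ l S.z = 2 * k + 1 ∧ τ l S.z = t + (2 * r - 2 * k - 1)
  lo : ∀ x y, S.Fe x y → t ≤ τ x y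
  hi : ∀ x y, S.Fe x y → τ x y ≤ t + (2 * r - 2 * k - 1)
  mono : ∀ x y x' y', S.Fe x y → S.Fe x' y' → ρ x y ≤ 4 → ρ x y ≤ ρ x' y' → τ x y ≤ τ x' y'
  walk : ∀ y x' y', S.Fe S.z y → S.Fe x' y' → x' ≠ S.z → ρ S.z y + k ≤ ρ x' y' + 3 →
    τ S.z y ≤ τ x' y'
  ownp : ∀ y, S.Fe S.p y → ρ S.p y = 2 * k - 1 → ρ S.p' S.p = 4
  ownq : ∀ y y', S.Fe S.q y → ρ S.q y = 2 * k - 1 → S.Fe S.z y' → ρ S.z y' ≤ k

/-- Rigidity of the block: the ports of every colouring lie on a helix, read forwards or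
backwards. -/
def Rigid (k : ℕ) : Prop :=
  ∀ (r : ℝ) (C : W → W → ℝ), 1 ≤ r → r < k + 1 → S.Cl r C →
    ∃ ρ τ t, S.Hx k r C ρ τ t ∨ S.Hx k r (fun x y => -C x y) ρ τ t

end Spi

end Pool.Agent.P.MP_3f5ded_co.UG
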