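import Pool.Agent.P.MP_3f5ded_co.UVAr
import Pool.Agent.P.MP_3f5ded_co.UENet

set_option autoImplicit false

namespace Pool.Agent.P.MP_3f5ded_co.UG

open Sum

/-- Valid darts with owners, joined by edges and by copies of one pole with two ports. -/
theorem uv_darts {k : ℕ} {V D P : Type} [Fintype V] [Finite D] (Vd : D → Prop) (o : D → V)
    (ho : ∀ v, Nat.card {d // Vd d ∧ o d = v} = k) (f : D ⊕ P → D ⊕ P)
    (hv : ∀ d e, Vd d → f (inl d) = inl e → Vd e) (h0 : ∀ p, ∃ d, Vd d ∧ f (inr p) = inl d)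
    (i1 : ∀ d, Vd d → f (f (inl d)) = inl d) (i2 : ∀ p, f (f (inr p)) = inr p)
    (dir : D → Prop) {E : Pole k (Fin 2)} (hE : E.Inj)
    (h1 : ∀ d e, Vd d → f (inl d) = inl e → o d ≠ o e ∧ (dir d → dir e))
    (h3 : ∀ d e d' e', Vd d → Vd d' → f (inl d) = inl e → f (inl d') = inl e' → dir d → dir d' →
      o d = o d' → o e = o e' → d = d')
    (h4 : ∀ p q d e, f (inr p) = inl d → f (inr q) = inl e → o d = o e → p = q) :
    ∃ A : Pole k P, A.Inj ∧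
      (∀ r x, A.Rel r x → ∃ c : D → ℝ, (∀ p d, f (inr p) = inl d → Cg r (c d) (x p)) ∧
        (∀ d e, Vd d → f (inl d) = inl e → dir d → Cg r (c d) (c e)) ∧
        ∀ d d', Vd d → Vd d' → d ≠ d' → o d = o d' → Far r (c d) (c d')) ∧
      ∀ r x (c : D → ℝ), (∀ p d, f (inr p) = inl d → Cg r (c d) (x p)) →
        (∀ d e, Vd d → f (inl d) = inl e → dir d → Cg r (c d) (c e)) →
        (∀ d e, Vd d → f (inl d) = inl e → ¬ dir d → E.Rel r ![c d, c e]) →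
        (∀ d d', Vd d → Vd d' → d ≠ d' → o d = o d' → Far r (c d) (c d')) → A.Rel r x := by
  classical
  obtain ⟨φ, p1, p2, p3, p4⟩ : ∃ φ : V × Fin k → D, (∀ a, Vd (φ a)) ∧ (∀ a, o (φ a) = a.1) ∧
      Function.Injective φ ∧ ∀ d, Vd d → ∃ a, φ a = d := by
    let e := fun v => (Finite.equivFinOfCardEq (ho v)).symm
    refine ⟨fun a => (e a.1 a.2).1, fun a => (e a.1 a.2).2.1, fun a => (e a.1 a.2).2.2, ?_,
      fun d h => ⟨(o d, (e (o d)).symm ⟨d, h, rfl⟩), by simp⟩⟩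
    rintro ⟨v, s⟩ ⟨v', s'⟩ h
    obtain rfl : v = v' := (e v s).2.2.symm.trans ((congrArg o h).trans (e v' s').2.2)
    exact congrArg _ ((e v).injective (Subtype.ext h))
  have hj : Function.Injective (Sum.map φ id : (V × Fin k) ⊕ P → D ⊕ P) :=
    Sum.map_injective.2 ⟨p3, Function.injective_id⟩
  have hex : ∀ y : (V × Fin k) ⊕ P, ∃ y', Sum.map φ id y' = f (Sum.map φ id y) := by
    rintro (a | p)
    · rcases h : f (inl (φ a)) with e | q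
      · obtain ⟨b, rfl⟩ := p4 e (hv _ _ (p1 a) h)
        exact ⟨inl b, h.symm⟩
      · exact ⟨inr q, h.symm⟩
    · obtain ⟨d, g, h⟩ := h0 p
      obtain ⟨b, rfl⟩ := p4 d g
      exact ⟨inl b, h.symm⟩
  choose τ hτ using hex
  have m0 : ∀ y y', τ y = y' ↔ f (Sum.map φ id y) = Sum.map φ id y' := fun y y' => by
    rw [← hτ, hj.eq_iff]
  have m1 : ∀ a b, τ (inl a) = inl b ↔ f (inl (φ a)) = inl (φ b) := fun a b => m0 _ _
  have m2 : ∀ p b, τ (inr p) = inl b ↔ f (inr p) = inl (φ b) := fun p b => m0 _ _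
  have hs : ∀ a b, f (inl (φ a)) = inl (φ b) → f (inl (φ b)) = inl (φ a) := fun a b h => by
    rw [← h, i1 _ (p1 a)]
  let n := Fintype.equivFin V
  obtain ⟨A, t, hA⟩ := net_links (V := V) (S := Fin k) (Fintype.card_fin k) τ
    (fun y => (m0 _ _).2 (by
      rw [hτ]
      rcases y with a | p
      exacts [i1 _ (p1 a), i2 p]))
    (fun p => by
      obtain ⟨d, g, h⟩ := h0 p
      obtain ⟨b, rfl⟩ := p4 d g
      exact ⟨b, (m2 _ _).2 h⟩)
    (fun d => dir (φ d)) (fun d => ∃ e, f (inl (φ d)) = inl (φ e) ∧ n d.1 < n e.1) (fun _ => E)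
    (fun _ => hE)
    (fun d e h g => by
      have := h1 _ _ (p1 d) ((m1 d e).1 h)
      rw [p2, p2] at this
      exact ⟨this.1, this.2 g⟩)
    (fun d e h => by
      have a1 := (m1 d e).1 h
      have a2 := hs _ _ a1
      have a3 := (h1 _ _ (p1 d) a1).1
      rw [p2, p2] at a3
      constructor
      · rintro ⟨e', b1, b2⟩ ⟨d', b3, b4⟩
        rw [p3 (inl_injective (b1.symm.trans a1))] at b2
        rw [p3 (inl_injective (b3.symm.trans a2))] at b4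
        exact lt_asymm b2 b4
      · intro g
        refine ⟨e, a1, lt_of_le_of_ne (not_lt.1 fun b => g ⟨d, a2, b⟩) (n.injective.ne a3)⟩)
    (fun d e d' e' a b g g' c1 c2 => p3 (h3 _ _ _ _ (p1 d) (p1 d') ((m1 _ _).1 a) ((m1 _ _).1 b)
      g g' (by rw [p2, p2, c1]) (by rw [p2, p2, c2])))
    Eq (fun p q d e a b c1 => h4 p q _ _ ((m2 _ _).1 a) ((m2 _ _).1 b) (by rw [p2, p2, c1]))
  refine ⟨A, t.inj, fun r x h => ?_, fun r x c c1 c2 c3 c4 => (hA r x).2 ?_⟩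
  · obtain ⟨c, c1, c2, -, c4⟩ := (hA r x).1 h
    have hc : ∀ a, Function.extend φ c 0 (φ a) = c a := p3.extend_apply c 0
    refine ⟨Function.extend φ c 0, fun p d h => ?_, fun d e a h g => ?_, fun d d' a b h g => ?_⟩
    · obtain ⟨d', g, h'⟩ := h0 p
      obtain rfl : d = d' := inl_injective (h.symm.trans h')
      obtain ⟨d, rfl⟩ := p4 d g
      rw [hc]
      exact c1 p d ((m2 _ _).2 h)
    · obtain ⟨e, rfl⟩ := p4 e (hv d e a h)
      obtain ⟨d, rfl⟩ := p4 d a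
      rw [hc, hc]
      exact c2 d e ((m1 _ _).2 h) g
    · obtain ⟨⟨v, s⟩, rfl⟩ := p4 d a
      obtain ⟨⟨v', s'⟩, rfl⟩ := p4 d' b
      rw [p2, p2] at g
      obtain rfl : v = v' := g
      rw [hc, hc]
      exact c4 v s s' fun e => h (by rw [e])
  · exact ⟨fun d => c (φ d), fun p d h => c1 p _ ((m2 _ _).1 h),
      fun d e h g => c2 _ _ (p1 d) ((m1 _ _).1 h) g,
      fun d e h g _ => c3 _ _ (p1 d) ((m1 _ _).1 h) g,
      fun v s s' h => c4 _ _ (p1 _) (p1 _) (fun e => h (congrArg Prod.snd (p3 e))) (by rw [p2, p2])⟩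

namespace Spi
variable {W : Type} {S : Spi W} {k : ℕ} {l : W}

open Classical in
/-- The partner of a dart of the two mirror copies. -/
noncomputable def mir (S : Spi W) (l : W) : (Bool × W × W) ⊕ Fin 4 → (Bool × W × W) ⊕ Fin 4
  | inr j => inl (![(false, S.p', S.p), (true, l, S.z), (false, S.q, S.q'), (true, S.q', S.q)] j)
  | inl (i, x, y) =>
    if ¬ S.Fe x y then inl (i, y, x)
    else if x = S.z then (if y = l then inl (!i, S.p, S.p') else inl (!i, y, S.z))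
    else if y = S.z then
      (if x = l then (if i then inr 1 else inl (true, S.p', S.p)) else inl (!i, S.z, x))
    else if x = S.p then inl (!i, S.z, l)
    else if x = S.p' then (if i then inl (false, l, S.z) else inr 0)
    else if x = S.q then (if i then inl (false, S.q', S.q) else inr 2)
    else if i then inr 3 else inl (true, S.q, S.q')

/-- The values of the partner map. -/
structure Mir (S : Spi W) (l : W) (f : (Bool × W × W) ⊕ Fin 4 → (Bool × W × W) ⊕ Fin 4) :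
    Prop where
  r0 : f (inr 0) = inl (false, S.p', S.p)
  r1 : f (inr 1) = inl (true, l, S.z)
  r2 : f (inr 2) = inl (false, S.q, S.q')
  r3 : f (inr 3) = inl (true, S.q', S.q)
  f0 : ∀ i x y, ¬ S.Fe x y → f (inl (i, x, y)) = inl (i, y, x)
  f1 : ∀ i, f (inl (i, S.z, l)) = inl (!i, S.p, S.p')
  f2 : ∀ i y, S.Fe S.z y → y ≠ l → f (inl (i, S.z, y)) = inl (!i, y, S.z)
  f3 : f (inl (false, l, S.z)) = inl (true, S.p', S.p)
  g3 : f (inl (true, l, S.z)) = inr 1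
  f4 : ∀ i x, S.Fe S.z x → x ≠ l → f (inl (i, x, S.z)) = inl (!i, S.z, x)
  f5 : ∀ i, f (inl (i, S.p, S.p')) = inl (!i, S.z, l)
  f6 : f (inl (true, S.p', S.p)) = inl (false, l, S.z)
  g6 : f (inl (false, S.p', S.p)) = inr 0
  f7 : f (inl (true, S.q, S.q')) = inl (false, S.q', S.q)
  g7 : f (inl (false, S.q, S.q')) = inr 2
  f8 : f (inl (false, S.q', S.q)) = inl (true, S.q, S.q')
  g8 : f (inl (true, S.q', S.q)) = inr 3

variable [Fintype W]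

lemma Ok.mir (h : S.Ok k) (hl : l ∈ S.L) : S.Mir l (S.mir l) := by
  have a0 := (h.nz (fzl hl)).1
  have b1 : S.Fe l S.z := (fzl hl).symm
  have b2 : S.Fe S.p' S.p := fpp'.symm
  have b3 : S.Fe S.q' S.q := fqq'.symm
  refine ⟨rfl, rfl, rfl, rfl, fun i x y g => ?_, fun i => ?_, fun i y g g' => ?_, ?_, ?_,
    fun i x g g' => ?_, fun i => ?_, ?_, ?_, ?_, ?_, ?_, ?_⟩
  · simp [Spi.mir, g]
  · simp [Spi.mir, fzl hl]
  · simp [Spi.mir, g, g']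
  · simp [Spi.mir, b1, a0]
  · simp [Spi.mir, b1, a0]
  · simp [Spi.mir, g.symm, g', (h.nz g).1]
  · simp [Spi.mir, fpp', h.zp.symm, h.zp'.symm]
  · simp [Spi.mir, b2, h.zp.symm, h.zp'.symm, h.pp'.symm]
  · simp [Spi.mir, b2, h.zp.symm, h.zp'.symm, h.pp'.symm]
  · simp [Spi.mir, fqq', h.zq.symm, h.zq'.symm, h.pq.symm, h.p'q.symm]
  · simp [Spi.mir, fqq', h.zq.symm, h.zq'.symm, h.pq.symm, h.p'q.symm]
  · simp [Spi.mir, b3, h.zq.symm, h.zq'.symm, h.pq'.symm, h.p'q'.symm, h.qq'.symm]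
  · simp [Spi.mir, b3, h.zq.symm, h.zq'.symm, h.pq'.symm, h.p'q'.symm, h.qq'.symm]

/-- The kinds of darts. -/
lemma Ok.cls (h : S.Ok k) (l x y : W) : ¬ S.Fe x y ∨ (x = S.z ∧ y = l) ∨
    (x = S.z ∧ S.Fe S.z y ∧ y ≠ l) ∨ (x = l ∧ y = S.z) ∨ (y = S.z ∧ S.Fe S.z x ∧ x ≠ l) ∨
    (x = S.p ∧ y = S.p') ∨ (x = S.p' ∧ y = S.p) ∨ (x = S.q ∧ y = S.q') ∨ (x = S.q' ∧ y = S.q) := by
  by_cases g : S.Fe x y
  · rcases g with ⟨a, g⟩ | ⟨a, g⟩ | g | g | g | g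
    · by_cases e : y = l
      · simp [a, e]
      · simp [a, e, h.fz.2 g]
    · by_cases e : x = l
      · simp [a, e]
      · simp [a, e, h.fz.2 g]
    all_goals simp [g]
  · exact Or.inl g

/-- An inner dart and its partner. -/
lemma Mir.key {f : (Bool × W × W) ⊕ Fin 4 → (Bool × W × W) ⊕ Fin 4} (M : S.Mir l f) (h : S.Ok k)
    (hl : l ∈ S.L) {i i' : Bool} {x y x' y' : W} (hv : y ≠ x)
    (e : f (inl (i, x, y)) = inl (i', x', y')) :
    y' ≠ x' ∧ ((¬ S.Fe x y ∧ i' = i ∧ x' = y ∧ y' = x) ∨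
      (S.Fe x y ∧ i' = !i ∧ ((x = S.z ∧ y = l ∧ x' = S.p ∧ y' = S.p') ∨
        (x = S.p ∧ y = S.p' ∧ x' = S.z ∧ y' = l) ∨
        (i = false ∧ x = l ∧ y = S.z ∧ x' = S.p' ∧ y' = S.p) ∨
        (i = true ∧ x = S.p' ∧ y = S.p ∧ x' = l ∧ y' = S.z) ∨
        (x' = y ∧ y' = x ∧ ((x = S.z ∧ y ≠ l) ∨ (y = S.z ∧ x ≠ l) ∨
          (i = true ∧ x = S.q ∧ y = S.q') ∨ (i = false ∧ x = S.q' ∧ y = S.q)))))) := by
  have a0 := (h.nz (fzl hl)).1
  rcases h.cls l x y with g | ⟨rfl, rfl⟩ | ⟨rfl, g, g'⟩ | ⟨rfl, rfl⟩ | ⟨rfl, g, g'⟩ | ⟨rfl, rfl⟩ |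
    ⟨rfl, rfl⟩ | ⟨rfl, rfl⟩ | ⟨rfl, rfl⟩
  · rw [M.f0 i x y g] at e
    cases e
    exact ⟨hv.symm, Or.inl ⟨g, rfl, rfl, rfl⟩⟩
  · rw [M.f1] at e
    cases e
    exact ⟨h.pp'.symm, Or.inr ⟨fzl hl, rfl, by simp⟩⟩
  · rw [M.f2 i y g g'] at e
    cases e
    exact ⟨hv.symm, Or.inr ⟨g, rfl, by simp [g']⟩⟩
  · cases i
    · rw [M.f3] at e
      cases e
      exact ⟨h.pp', Or.inr ⟨(fzl hl).symm, rfl, by simp⟩⟩
    · rw [M.g3] at e
      cases e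
  · rw [M.f4 i x g g'] at e
    cases e
    exact ⟨hv.symm, Or.inr ⟨g.symm, rfl, by simp [g']⟩⟩
  · rw [M.f5] at e
    cases e
    exact ⟨a0, Or.inr ⟨fpp', rfl, by simp⟩⟩
  · cases i
    · rw [M.g6] at e
      cases e
    · rw [M.f6] at e
      cases e
      exact ⟨a0.symm, Or.inr ⟨fpp'.symm, rfl, by simp⟩⟩
  · cases i
    · rw [M.g7] at e
      cases e
    · rw [M.f7] at e
      cases e
      exact ⟨h.qq', Or.inr ⟨fqq', rfl, by simp⟩⟩
  · cases i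
    · rw [M.f8] at e
      cases e
      exact ⟨h.qq'.symm, Or.inr ⟨fqq'.symm, rfl, by simp⟩⟩
    · rw [M.g8] at e
      cases e

lemma Mir.inv {f : (Bool × W × W) ⊕ Fin 4 → (Bool × W × W) ⊕ Fin 4} (M : S.Mir l f) (h : S.Ok k)
    (i : Bool) (x y : W) : f (f (inl (i, x, y))) = inl (i, x, y) := by
  rcases h.cls l x y with g | ⟨rfl, rfl⟩ | ⟨rfl, g, g'⟩ | ⟨rfl, rfl⟩ | ⟨rfl, g, g'⟩ | ⟨rfl, rfl⟩ |
    ⟨rfl, rfl⟩ | ⟨rfl, rfl⟩ | ⟨rfl, rfl⟩
  · rw [M.f0 i x y g, M.f0 i y x fun e => g e.symm]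
  · rw [M.f1, M.f5, Bool.not_not]
  · rw [M.f2 i y g g', M.f4 _ y g g', Bool.not_not]
  · cases i
    · rw [M.f3, M.f6]
    · rw [M.g3, M.r1]
  · rw [M.f4 i x g g', M.f2 _ x g g', Bool.not_not]
  · rw [M.f5, M.f1, Bool.not_not]
  · cases i
    · rw [M.g6, M.r0]
    · rw [M.f6, M.f3]
  · cases i
    · rw [M.g7, M.r2]
    · rw [M.f7, M.f8]
  · cases i
    · rw [M.f8, M.f7]
    · rw [M.g8, M.r3]

/-- Two mirror copies of the block as a pole with four ports. -/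
theorem net (h : S.Ok k) (hl : l ∈ S.L) {E : Pole k (Fin 2)} (hE : IsE k E) :
    ∃ A : Pole k (Fin 4), A.Inj ∧
      (∀ r x, A.Rel r x → ∃ c d, S.Cl r c ∧ S.Cl r d ∧ S.Wi l r c d ∧ Cg r (c S.p' S.p) (x 0) ∧
        Cg r (d l S.z) (x 1) ∧ Cg r (c S.q S.q') (x 2) ∧ Cg r (d S.q' S.q) (x 3)) ∧
      ∀ (r : ℝ) x c d, (k : ℝ) ≤ r → S.Cl r c → S.Cl r d → S.Wi l r c d →
        Cg r (c S.z l) (d S.p S.p') → Cg r (d S.z l) (c S.p S.p') → Cg r (c S.p' S.p) (x 0) →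
        Cg r (d l S.z) (x 1) → Cg r (c S.q S.q') (x 2) → Cg r (d S.q' S.q) (x 3) → A.Rel r x := by
  classical
  obtain ⟨f, M⟩ : ∃ f, S.Mir l f := ⟨_, h.mir hl⟩
  obtain ⟨a0, a1, a2⟩ := h.nz (fzl hl)
  have a3 : l ≠ S.p := fun e => h.pL (e ▸ hl)
  have a4 : l ≠ S.q := fun e => h.qL (e ▸ hl)
  have b1 := h.zp
  have b2 := h.zp'
  have b3 := h.zq
  have b4 := h.zq'
  have b5 := h.pp'
  have b6 := h.pq
  have b7 := h.pq'
  have b8 := h.p'q
  have b9 := h.p'q'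
  have b0 := h.qq'
  have c1 : S.Fe l S.z := (fzl hl).symm
  have c2 : S.Fe S.p' S.p := fpp'.symm
  have c3 : S.Fe S.z l := fzl hl
  have c4 : S.Fe S.p S.p' := fpp'
  have c5 : ¬ S.Fe S.z S.p' := fun g => (h.nz g).2.1 rfl
  have hr : ∀ j d, f (inr j) = inl d → (j = 0 ∧ d = (false, S.p', S.p)) ∨
      (j = 1 ∧ d = (true, l, S.z)) ∨ (j = 2 ∧ d = (false, S.q, S.q')) ∨
      (j = 3 ∧ d = (true, S.q', S.q)) := by
    intro j d e
    fin_cases j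
    · exact Or.inl ⟨rfl, inl_injective (e.symm.trans M.r0)⟩
    · exact Or.inr (Or.inl ⟨rfl, inl_injective (e.symm.trans M.r1)⟩)
    · exact Or.inr (Or.inr (Or.inl ⟨rfl, inl_injective (e.symm.trans M.r2)⟩))
    · exact Or.inr (Or.inr (Or.inr ⟨rfl, inl_injective (e.symm.trans M.r3)⟩))
  obtain ⟨A, t, A1, A2⟩ := uv_darts (k := k) (fun d : Bool × W × W => d.2.2 ≠ d.2.1)
    (fun d => (d.1, d.2.1))
    (fun v => by
      have e : Nat.card {y // y ≠ v.2} = k := by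
        rw [Nat.card_eq_fintype_card, Fintype.card_subtype_compl, Fintype.card_subtype_eq, h.card]
        rfl
      rw [← e]
      exact Nat.card_congr ⟨fun d => ⟨d.1.2.2, by obtain ⟨d, g, rfl⟩ := d; exact g⟩,
        fun y => ⟨(v.1, v.2, y.1), y.2, rfl⟩, by rintro ⟨⟨a, b, c⟩, g, rfl⟩; rfl, fun _ => rfl⟩)
    f (fun d e g g' => (M.key h hl g g').1)
    (Fin.forall_fin_succ.2 ⟨⟨_, b5, M.r0⟩, Fin.forall_fin_succ.2 ⟨⟨_, a0.symm, M.r1⟩,
      Fin.forall_fin_two.2 ⟨⟨_, b0.symm, M.r2⟩, ⟨_, b0, M.r3⟩⟩⟩⟩)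
    (fun d _ => M.inv h _ _ _)
    (Fin.forall_fin_succ.2 ⟨(congrArg f M.r0).trans M.g6, Fin.forall_fin_succ.2
      ⟨(congrArg f M.r1).trans M.g3, Fin.forall_fin_two.2
        ⟨(congrArg f M.r2).trans M.g7, (congrArg f M.r3).trans M.g8⟩⟩⟩)
    (fun d => ¬ ((d.2.1 = S.z ∧ d.2.2 = l) ∨ (d.2.1 = S.p ∧ d.2.2 = S.p'))) hE.1
    (by
      rintro ⟨i, x, y⟩ ⟨i', x', y'⟩ g e
      have := (M.key h hl g e).2
      simp only [ne_eq, Prod.mk.injEq] at g ⊢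
      cases i <;> grind)
    (by
      rintro ⟨i, x, y⟩ ⟨j, u, v⟩ ⟨i', x', y'⟩ ⟨j', u', v'⟩ g g' e e' d d' o o'
      have k1 := (M.key h hl g e).2
      have k2 := (M.key h hl g' e').2
      simp only [Prod.mk.injEq] at o o' d d' ⊢
      obtain ⟨rfl, rfl⟩ := o
      obtain ⟨rfl, rfl⟩ := o'
      cases i <;> grind)
    (by
      intro p q d e g g' o
      rcases hr p d g with ⟨rfl, rfl⟩ | ⟨rfl, rfl⟩ | ⟨rfl, rfl⟩ | ⟨rfl, rfl⟩ <;>
        rcases hr q e g' with ⟨rfl, rfl⟩ | ⟨rfl, rfl⟩ | ⟨rfl, rfl⟩ | ⟨rfl, rfl⟩ <;>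
        simp only [Prod.mk.injEq] at o <;> grind)
  refine ⟨A, t, fun r x g => ?_, fun r x c d hk hc hd w e1 e2 x0 x1 x2 x3 => ?_⟩
  · obtain ⟨c, u1, u2, u3⟩ := A1 r x g
    have cl : ∀ i, S.Cl r fun x y => c (i, x, y) := fun i =>
      ⟨fun x y a b => u2 (i, x, y) _ a (M.f0 i x y b) (by grind),
        fun x y y' a b e => u3 (i, x, y) (i, x, y') a b (by simpa using e) rfl⟩
    refine ⟨_, _, cl false, cl true, ⟨fun y a b => ?_, fun y a b => ?_, ?_, ?_⟩, u1 _ _ M.r0,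
      u1 _ _ M.r1, u1 _ _ M.r2, u1 _ _ M.r3⟩
    · exact u2 (false, S.z, y) _ (h.nz a).1 (M.f2 _ y a b) (by grind)
    · exact u2 (false, y, S.z) _ (h.nz a).1.symm (M.f4 _ y a b) (by grind)
    · exact u2 (false, S.q', S.q) _ b0 M.f8 (by grind)
    · exact u2 (false, l, S.z) _ a0.symm M.f3 (by grind)
  · refine A2 r x (fun u => (bif u.1 then d else c) u.2.1 u.2.2) (fun j u e => ?_) ?_ ?_ ?_
    · rcases hr j u e with ⟨rfl, rfl⟩ | ⟨rfl, rfl⟩ | ⟨rfl, rfl⟩ | ⟨rfl, rfl⟩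
      exacts [x0, x1, x2, x3]
    · rintro ⟨i, u, v⟩ ⟨i', u', v'⟩ g e dr
      rcases (M.key h hl g e).2 with ⟨n, rfl, rfl, rfl⟩ | ⟨n, rfl, ⟨rfl, rfl, -⟩ | ⟨rfl, rfl, -⟩ |
        ⟨rfl, rfl, rfl, rfl, rfl⟩ | ⟨rfl, rfl, rfl, rfl, rfl⟩ |
        ⟨rfl, rfl, ⟨rfl, n'⟩ | ⟨rfl, n'⟩ | ⟨rfl, rfl, rfl⟩ | ⟨rfl, rfl, rfl⟩⟩⟩
      · cases i'
        exacts [hc.sym _ _ g n, hd.sym _ _ g n]
      · exact absurd (Or.inl ⟨rfl, rfl⟩) dr
      · exact absurd (Or.inr ⟨rfl, rfl⟩) dr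
      · exact w.al
      · exact w.al.symm
      · cases i
        exacts [w.zy _ n n', (w.yz _ n n').symm]
      · cases i
        exacts [w.yz _ n.symm n', (w.zy _ n.symm n').symm]
      · exact w.ka.symm
      · exact w.ka
    · have z : ∀ a b : ℝ, Cg r a b → E.Rel r ![a, b] := fun a b e => by
        have k0 : (12 : ℝ) ≤ k := by exact_mod_cast h.big
        refine hE.2.2 r _ ((cd_le_of (u := 0) (by linarith) (by simpa using e.symm)).trans ?_)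
        rw [abs_zero]
        linarith
      rintro ⟨i, u, v⟩ u' g e dr
      rcases not_not.1 dr with ⟨rfl, rfl⟩ | ⟨rfl, rfl⟩
      · obtain rfl := inl_injective (e.symm.trans (M.f1 i))
        cases i
        exacts [z _ _ e1, z _ _ e2]
      · obtain rfl := inl_injective (e.symm.trans (M.f5 i))
        cases i
        exacts [z _ _ e2.symm, z _ _ e1.symm]
    · rintro ⟨i, u, v⟩ ⟨i', u', v'⟩ g g' n o
      obtain ⟨rfl, rfl⟩ := Prod.mk.inj o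
      have n' : v ≠ v' := fun e => n (by rw [e])
      cases i
      exacts [hc.far _ _ _ g g' n', hd.far _ _ _ g g' n']

end Spi

end Pool.Agent.P.MP_3f5ded_co.UG
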