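import Pool.Agent.P.MP_3f5ded_co.UWDefs

set_option autoImplicit false

namespace Pool.Agent.P.MP_3f5ded_co.UG

section Lev
variable {k : ℕ} {r β : ℝ} {n j : ℤ}

lemma uw_btw {x : ℝ} {a b : ℤ} (h1 : (a : ℝ) < x) (h2 : x < b) (e : (n : ℝ) = x) : a < n ∧ n < b :=
  ⟨Int.cast_lt.1 (e ▸ h1 : (a : ℝ) < n), Int.cast_lt.1 (e ▸ h2 : (n : ℝ) < b)⟩

/-- A difference of two level sums. -/
lemma uw_dif (hr : r < k + 1) (hs : 0 ≤ 2 * r - 2 * k - 1) (hk : 12 ≤ k) (h1 : -2 * (k : ℤ) ≤ n)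
    (h2 : n ≤ 2 * k) (b1 : -(2 * (2 * r - 2 * k - 1)) ≤ β) (b2 : β ≤ 2 * r - 2 * k - 1)
    (e : n + β = j * r) :
    (n = -k - 1 ∧ β = k + 1 - r) ∨ (n = -k ∧ β = k - r) ∨ (n = 0 ∧ β = 0) ∨ (n = 1 ∧ β = -1) ∨
      (n = k + 1 ∧ β = r - k - 1) ∨ (n = k + 2 ∧ β = r - k - 2) := by
  have k0 : (12 : ℝ) ≤ k := by exact_mod_cast hk
  have r0 : 0 ≤ r := by linarith
  have a1 : -2 * (k : ℝ) ≤ n := by exact_mod_cast h1
  have a2 : (n : ℝ) ≤ 2 * k := by exact_mod_cast h2
  rcases le_or_gt j (-2) with h | h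
  · have : (j : ℝ) ≤ -2 := by exact_mod_cast h
    have := mul_le_mul_of_nonneg_right this r0
    linarith
  rcases le_or_gt 2 j with h' | h'
  · have : (2 : ℝ) ≤ j := by exact_mod_cast h'
    have := mul_le_mul_of_nonneg_right this r0
    linarith
  have c : ∀ m : ℤ, n = m → (n : ℝ) = m := fun m g => by rw [g]
  obtain rfl | rfl | rfl : j = -1 ∨ j = 0 ∨ j = 1 := by omega
  · have := uw_btw (n := n) (x := -r - β) (a := -k - 2) (b := -k + 1) (by push_cast; linarith)
      (by push_cast; linarith) (by push_cast at e; linarith)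
    obtain g | g : n = -k - 1 ∨ n = -k := by omega
    · have := c _ g
      exact Or.inl ⟨g, by push_cast at e this; linarith⟩
    · have := c _ g
      exact Or.inr (Or.inl ⟨g, by push_cast at e this; linarith⟩)
  · have := uw_btw (n := n) (x := -β) (a := -1) (b := 2) (by push_cast; linarith)
      (by push_cast; linarith) (by push_cast at e; linarith)
    obtain g | g : n = 0 ∨ n = 1 := by omega
    · have := c _ g
      exact Or.inr (Or.inr (Or.inl ⟨g, by push_cast at e this; linarith⟩))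
    · have := c _ g
      exact Or.inr (Or.inr (Or.inr (Or.inl ⟨g, by push_cast at e this; linarith⟩)))
  · have := uw_btw (n := n) (x := r - β) (a := k) (b := k + 3) (by push_cast; linarith)
      (by push_cast; linarith) (by push_cast at e; linarith)
    obtain g | g : n = k + 1 ∨ n = k + 2 := by omega
    · have := c _ g
      exact Or.inr (Or.inr (Or.inr (Or.inr (Or.inl ⟨g, by push_cast at e this; linarith⟩))))
    · have := c _ g
      exact Or.inr (Or.inr (Or.inr (Or.inr (Or.inr ⟨g, by push_cast at e this; linarith⟩))))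

/-- A sum of two level differences. -/
lemma uw_sum (hr : r < k + 1) (hs : 0 ≤ 2 * r - 2 * k - 1) (h1 : 2 * (k : ℤ) + 2 ≤ n)
    (h2 : n ≤ 4 * k) (b1 : 0 ≤ β) (b2 : β ≤ 2 * (2 * r - 2 * k - 1)) (e : n + β = j * r) :
    n = 3 * k + 2 ∧ β = 3 * (r - k) - 2 := by
  have k0 : (0 : ℝ) ≤ k := Nat.cast_nonneg k
  have r0 : 0 ≤ r := by linarith
  have a1 : 2 * (k : ℝ) + 2 ≤ n := by exact_mod_cast h1
  have a2 : (n : ℝ) ≤ 4 * k := by exact_mod_cast h2
  rcases le_or_gt j 2 with h | h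
  · have : (j : ℝ) ≤ 2 := by exact_mod_cast h
    have := mul_le_mul_of_nonneg_right this r0
    linarith
  rcases le_or_gt 4 j with h' | h'
  · have : (4 : ℝ) ≤ j := by exact_mod_cast h'
    have := mul_le_mul_of_nonneg_right this r0
    linarith
  obtain rfl : j = 3 := by omega
  have := uw_btw (n := n) (x := 3 * r - β) (a := 3 * k + 1) (b := 3 * k + 3) (by push_cast; linarith)
    (by push_cast; linarith) (by push_cast at e; linarith)
  have g : n = 3 * k + 2 := by omega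
  have c : (n : ℝ) = 3 * k + 2 := by exact_mod_cast g
  exact ⟨g, by push_cast at e; linarith⟩

end Lev

/-- Ports of one copy in the first mode, listed along the wires: `a, α` are round and offset of the
port at a centre, `b, β` those of the port of the clique with the same index. -/
structure M1 {T : Type} (I : T → Prop) (P Q l : T) (k : ℕ) (r : ℝ) (a b : T → ℤ) (α β : T → ℝ)
    (t : ℝ) : Prop where
  iP : I P
  iQ : I Q
  il : I l
  Pl : P ≠ l
  Ql : Q ≠ l
  early : (a P = 2 ∧ a Q = 4) ∨ (a P = 4 ∧ a Q = 2)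
  mid : ∀ y, I y → Even (a y) ∧ 2 ≤ a y ∧ a y ≤ k + 2
  late : ∀ y, I y → Odd (b y) ∧ k + 5 ≤ b y ∧ b y ≤ 2 * k + 1
  inja : ∀ y y', I y → I y' → a y = a y' → y = y'
  injb : ∀ y y', I y → I y' → b y = b y' → y = y'
  last : ∃ u, I u ∧ u ≠ P ∧ u ≠ Q ∧ b u = 2 * k + 1 ∧ β u = t + (2 * r - 2 * k - 1)
  surj : ∀ n : ℤ, Odd n → k + 5 ≤ n → n ≤ 2 * k + 1 → ∃ y, I y ∧ b y = n
  four : ∀ n : ℤ, 3 ≤ n → 2 * n + 6 ≤ k + 2 →
    ∃ y, I y ∧ y ≠ l ∧ (a y = 2 * n ∨ a y = 2 * n + 2 ∨ a y = 2 * n + 4 ∨ a y = 2 * n + 6)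
  loa : ∀ y, I y → t ≤ α y
  hia : ∀ y, I y → α y ≤ t + (2 * r - 2 * k - 1)
  lob : ∀ y, I y → t ≤ β y
  hib : ∀ y, I y → β y ≤ t + (2 * r - 2 * k - 1)
  mono : ∀ y y', I y → I y' → a y ≤ a y' → α y ≤ α y'
  walk : ∀ y y', I y → I y' → a y + k ≤ b y' + 3 → α y ≤ β y'
  own : 2 * k - 3 ≤ b P → 2 * k - 3 ≤ b Q → ∀ y, I y → a y ≤ k - 2

/-- Two lists of ports are joined; `σ = 1` or `σ = -1`. -/
def Jn {T : Type} (I : T → Prop) (l : T) (r σ : ℝ) (a b : T → ℤ) (α β : T → ℝ) : Prop :=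
  ∀ y, I y → y ≠ l → ∃ j : ℤ, a y + α y + σ * (b y + β y) = j * r

namespace M1
variable {T : Type} {I : T → Prop} {P Q l : T} {k : ℕ} {r t t' : ℝ} {a b a' b' : T → ℤ}
  {α β α' β' : T → ℝ}

lemma swap (H : M1 I P Q l k r a b α β t) : M1 I Q P l k r a b α β t :=
  { H with
    iP := H.iQ
    iQ := H.iP
    Pl := H.Ql
    Ql := H.Pl
    early := by have := H.early; omega
    last := by
      obtain ⟨u, h1, h2, h3, h4⟩ := H.last
      exact ⟨u, h1, h3, h2, h4⟩
    own := fun h1 h2 => H.own h2 h1 }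

lemma slack (H : M1 I P Q l k r a b α β t) : 0 ≤ 2 * r - 2 * k - 1 := by
  linarith [H.loa P H.iP, H.hia P H.iP]

/-- The ports of the two special vertices are not the last one. -/
lemma bP (H : M1 I P Q l k r a b α β t) : b P ≤ 2 * k - 1 := by
  obtain ⟨u, h1, h2, -, h4, -⟩ := H.last
  obtain ⟨⟨n, e⟩, -, g⟩ := H.late P H.iP
  have : b u ≠ b P := fun g => h2 (H.injb _ _ h1 H.iP g)
  omega

lemma two (H : M1 I P Q l k r a b α β t) : ∃ x x', I x ∧ I x' ∧ x ≠ l ∧ x' ≠ l ∧ a x = 2 ∧ a x' = 4 ∧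
    ((x = P ∧ x' = Q) ∨ (x = Q ∧ x' = P)) := by
  rcases H.early with e | e
  · exact ⟨P, Q, H.iP, H.iQ, H.Pl, H.Ql, e.1, e.2, Or.inl ⟨rfl, rfl⟩⟩
  · exact ⟨Q, P, H.iQ, H.iP, H.Ql, H.Pl, e.2, e.1, Or.inr ⟨rfl, rfl⟩⟩

variable (hk : 12 ≤ k) (he : Even (k : ℤ)) (hr : r < k + 1) (H : M1 I P Q l k r a b α β t)
  (G : M1 I P Q l k r a' b' α' β' t')
include hk he hr H G

/-- Opposite directions: all level sums compared with the sum at round two. -/
lemma opp_cls (J : Jn I l r 1 a b' α β') (J' : Jn I l r 1 a' b α' β) {x : T} (hx : I x) (xl : x ≠ l)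
    (e : a x = 2) {y : T} (hy : I y) (yl : y ≠ l) :
    ((a y + b' y = 2 + b' x ∧ α y + β' y = α x + β' x) ∨
      (a y + b' y = 2 + b' x + k ∧ α y + β' y = α x + β' x + (r - k))) ∧
    ((a' y + b y = 2 + b' x ∧ α' y + β y = α x + β' x) ∨
      (a' y + b y = 2 + b' x + k ∧ α' y + β y = α x + β' x + (r - k))) := by
  obtain ⟨i, e0⟩ := J x hx xl
  obtain ⟨c, hc⟩ := he
  obtain ⟨⟨n0, p0⟩, p1, p2⟩ := G.late x hx
  have := H.loa x hx
  have := G.lob x hx
  have := G.hib x hx
  constructor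
  · obtain ⟨j, e1⟩ := J y hy yl
    obtain ⟨⟨n1, q0⟩, q1, q2⟩ := H.mid y hy
    obtain ⟨⟨n2, q3⟩, q4, q5⟩ := G.late y hy
    have := H.mono x y hx hy (by omega)
    have := H.hia y hy
    have := G.lob y hy
    have := G.hib y hy
    rcases uw_dif (n := a x + b' x - (a y + b' y)) (β := α x + β' x - (α y + β' y)) (j := i - j) hr
      H.slack hk (by omega) (by omega) (by linarith) (by linarith) (by push_cast; linarith) with
      g | g | g | g | g | g
    · omega
    · exact Or.inr ⟨by omega, by linarith [g.2]⟩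
    · exact Or.inl ⟨by omega, by linarith [g.2]⟩
    all_goals omega
  · obtain ⟨j, e1⟩ := J' y hy yl
    obtain ⟨⟨n1, q0⟩, q1, q2⟩ := G.mid y hy
    obtain ⟨⟨n2, q3⟩, q4, q5⟩ := H.late y hy
    have := H.walk x y hx hy (by omega)
    have := H.hib y hy
    have := G.loa y hy
    have := G.hia y hy
    rcases uw_dif (n := a x + b' x - (a' y + b y)) (β := α x + β' x - (α' y + β y)) (j := i - j) hr
      H.slack hk (by omega) (by omega) (by linarith) (by linarith) (by push_cast; linarith) with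
      g | g | g | g | g | g
    · omega
    · exact Or.inr ⟨by omega, by linarith [g.2]⟩
    · exact Or.inl ⟨by omega, by linarith [g.2]⟩
    all_goals omega

/-- Opposite directions: one half of the alignment. -/
lemma opp_half (J : Jn I l r 1 a b' α β') (J' : Jn I l r 1 a' b α' β) {x x' : T} (hx : I x)
    (xl : x ≠ l) (e : a x = 2) (hx' : I x') (xl' : x' ≠ l) (e' : a' x' = 2)
    (m : b' x ≤ 2 * k - 1) : b x' = b' x ∧ α' x' + β x' = α x + β' x ∧ b' x = 2 * k - 1 ∧
      b' l = 2 * k + 1 ∧ β' l = t' + (2 * r - 2 * k - 1) := by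
  have A := fun {y : T} => opp_cls hk he hr H G J J' hx xl e (y := y)
  have B := fun {y : T} => opp_cls hk he hr G H J' J hx' xl' e' (y := y)
  have c1 := (A hx' xl').2
  have c2 := (B hx xl).2
  have c3 : b x' = b' x := by omega
  have c4 : α' x' + β x' = α x + β' x := by
    rcases c1 with g | g
    · exact g.2
    · omega
  have key : ∀ y, I y → y ≠ l → 2 * k - 1 ≤ b' y → a y + b' y = 2 + b' x := fun y hy yl g => by
    rcases (A hy yl).1 with f | f
    · exact f.1
    · have := H.walk y x' hy hx' (by omega)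
      linarith [G.hib y hy, G.loa x' hx', f.2]
  obtain ⟨u, u1, -, -, u4, u5⟩ := G.last
  have ul : u = l := by
    by_contra g
    have := key u u1 g (by omega)
    have := H.mid u u1
    omega
  subst ul
  obtain ⟨c, hc⟩ := he
  obtain ⟨v, v1, v2⟩ := G.surj (2 * k - 1) ⟨k - 1, by ring⟩ (by omega) (by omega)
  have := key v v1 (fun g => by rw [g] at v2; omega) v2.ge
  have := H.mid v v1
  exact ⟨c3, c4, by omega, u4, u5⟩

/-- Opposite directions: the free port of the centre. -/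
lemma opp_free (J : Jn I l r 1 a b' α β') (J' : Jn I l r 1 a' b α' β) {x : T} (hx : I x)
    (xl : x ≠ l) (e : a x = 2) (m : b' x = 2 * k - 1) (ml : b' l = 2 * k + 1)
    (o : ∀ y, I y → a y ≤ k - 2) : a l = k - 2 := by
  obtain ⟨⟨n, g0⟩, g1, -⟩ := H.mid l H.il
  have g2 := o l H.il
  obtain ⟨c, hc⟩ := he
  by_contra g
  obtain ⟨v, v1, v2⟩ := G.surj (2 * k + 1 - a l) ⟨k - n, by omega⟩ (by omega) (by omega)
  have vl : v ≠ l := fun f => by rw [f] at v2; omega
  have := o v v1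
  have := (opp_cls hk ⟨c, hc⟩ hr H G J J' hx xl e v1 vl).1
  exact vl (H.inja _ _ v1 H.il (by omega))

/-- Opposite directions: the relation of the free ports. -/
theorem opp (J : Jn I l r 1 a b' α β') (J' : Jn I l r 1 a' b α' β) :
    ∃ u v : ℝ, Cg r (-(b' l + β' l)) (b l + β l + u) ∧ Cg r (-(a' l + α' l)) (a l + α l + v) ∧
      |u| ≤ 2 * r - 2 * k - 1 ∧ |u| + 5 - (2 * r - 2 * k - 1) ≤ v ∧ v ≤ 7 := by
  obtain ⟨x, y, hx, hy, xl, yl, e, f, w⟩ := H.two
  obtain ⟨x', y', hx', hy', xl', yl', e', f', w'⟩ := G.two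
  have p1 := H.bP
  have p2 := H.swap.bP
  have p3 := G.bP
  have p4 := G.swap.bP
  obtain ⟨a1, a2, a3, a4, a5⟩ := opp_half hk he hr H G J J' hx xl e hx' xl' e'
    (by rcases w with g | g <;> rw [g.1] <;> assumption)
  obtain ⟨-, -, b3, b4, b5⟩ := opp_half hk he hr G H J' J hx' xl' e' hx xl e
    (by rcases w' with g | g <;> rw [g.1] <;> assumption)
  have c1 := (opp_cls hk he hr H G J J' hx xl e hy yl).1
  have c2 := (opp_cls hk he hr H G J J' hx xl e hy' yl').2
  have := G.late y hy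
  have := H.late y' hy'
  have o : ∀ v, I v → a v ≤ k - 2 := by
    rcases w' with ⟨rfl, rfl⟩ | ⟨rfl, rfl⟩ <;> exact H.own (by omega) (by omega)
  have o' : ∀ v, I v → a' v ≤ k - 2 := by
    rcases w with ⟨rfl, rfl⟩ | ⟨rfl, rfl⟩ <;> exact G.own (by omega) (by omega)
  have d1 := opp_free hk he hr H G J J' hx xl e a3 a4 o
  have d2 := opp_free hk he hr G H J' J hx' xl' e' b3 b4 o'
  obtain ⟨j, ej⟩ := J x hx xl
  have w1 := H.walk l x' H.il hx' (by omega)
  have w2 := G.walk l x G.il hx (by omega)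
  have := H.loa x hx
  have := H.hia x hx
  have := G.loa x' hx'
  have := G.lob x hx
  have := G.hib x hx
  have := H.loa l H.il
  have := H.hia l H.il
  have := G.loa l G.il
  have := G.hia l G.il
  rw [e, a3] at ej
  rw [a4, b4, a5, b5, d1, d2]
  push_cast at ej ⊢
  refine ⟨α x + β' x - (2 * r - 2 * k - 1) - t - t', 5 + α x + β' x - α l - α' l,
    ⟨-j - 2, by push_cast; linarith⟩, ⟨-j, by push_cast; linarith⟩, abs_le.2 ⟨by linarith, by linarith⟩,
    ?_, by linarith⟩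
  rcases abs_cases (α x + β' x - (2 * r - 2 * k - 1) - t - t') with g | g <;> linarith [g.1]

/-- Equal directions: where a shared port of the centre can sit. -/
theorem same (J : Jn I l r (-1) a b' α β') (J' : Jn I l r (-1) a' b α' β) : False := by
  obtain ⟨x, y, hx, hy, xl, yl, e, f, w⟩ := H.two
  obtain ⟨x', y', hx', hy', xl', yl', e', f', w'⟩ := G.two
  have s0 := H.slack
  obtain ⟨c, hc⟩ := he
  have sm : ∀ u v, I u → I v → u ≠ l → v ≠ l → a u ≤ 4 → a' v ≤ 4 →
      b' u - a u + (b v - a' v) = 3 * k + 2 ∧ β' u - α' v + (β v - α u) = 3 * (r - k) - 2 :=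
    fun u v hu hv ul vl g g' => by
      obtain ⟨i, e1⟩ := J u hu ul
      obtain ⟨j, e2⟩ := J' v hv vl
      have := H.mid u hu
      have := G.mid v hv
      have := H.late v hv
      have := G.late u hu
      have := H.walk u v hu hv (by omega)
      have := G.walk v u hv hu (by omega)
      exact uw_sum (j := -i - j) hr s0 (by omega) (by omega) (by linarith)
        (by linarith [H.loa u hu, H.hib v hv, G.loa v hv, G.hib u hu]) (by push_cast; linarith)
  obtain ⟨s1, -⟩ := sm x x' hx hx' xl xl' (by omega) (by omega)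
  obtain ⟨s2, s3⟩ := sm x y' hx hy' xl yl' (by omega) (by omega)
  obtain ⟨s4, -⟩ := sm y x' hy hx' yl xl' (by omega) (by omega)
  have p1 : b y' ≤ 2 * k - 1 := by
    rcases w' with g | g <;> rw [g.2]
    exacts [H.swap.bP, H.bP]
  have p2 : b' y ≤ 2 * k - 1 := by
    rcases w with g | g <;> rw [g.2]
    exacts [G.swap.bP, G.bP]
  obtain ⟨⟨n, q0⟩, q1, q2⟩ := H.late x' hx'
  obtain ⟨⟨n', q3⟩, q4, q5⟩ := G.late x hx
  obtain ⟨v, v1, vl, v2⟩ := H.four (n - c) (by omega) (by omega)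
  obtain ⟨i, e1⟩ := J x hx xl
  obtain ⟨j, e2⟩ := J v v1 vl
  obtain ⟨⟨m, q6⟩, q7, q8⟩ := G.late v v1
  have := H.mono x v hx v1 (by omega)
  have := H.walk v y' v1 hy' (by omega)
  have := G.walk y' v hy' v1 (by omega)
  have := H.loa x hx
  have := H.hia v v1
  have := G.lob x hx
  have := G.hib x hx
  have := G.lob v v1
  have := G.hib v v1
  rcases uw_dif (n := b' v - a v - (b' x - a x)) (β := β' v - α v - (β' x - α x)) (j := i - j) hr
    s0 hk (by omega) (by omega) (by linarith) (by linarith) (by push_cast; linarith) with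
    g | g | g | g | g | g
  · omega
  · linarith [g.2]
  all_goals omega

end M1

end Pool.Agent.P.MP_3f5ded_co.UG
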