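import Pool.Agent.P.MP_3f5ded_co.UWA1

set_option autoImplicit false

namespace Pool.Agent.P.MP_3f5ded_co.UG

open Finset

/-- A sum of two level differences, wider window. -/
lemma uw_sum2 {k : ℕ} {r β : ℝ} {n j : ℤ} (hr : r < k + 1) (hs : 0 ≤ 2 * r - 2 * k - 1)
    (h1 : (k : ℤ) + 2 ≤ n) (h2 : n ≤ 4 * k) (b1 : -(2 * r - 2 * k - 1) ≤ β)
    (b2 : β ≤ 2 * (2 * r - 2 * k - 1)) (e : n + β = j * r) :
    n = 3 * k + 2 ∨ n = 3 * k + 3 ∨ n = 2 * k + 1 ∨ n = 2 * k + 2 := by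
  have k0 : (0 : ℝ) ≤ k := Nat.cast_nonneg k
  have r0 : 0 ≤ r := by linarith
  have a1 : (k : ℝ) + 2 ≤ n := by exact_mod_cast h1
  have a2 : (n : ℝ) ≤ 4 * k := by exact_mod_cast h2
  rcases le_or_gt j 1 with h | h
  · have : (j : ℝ) ≤ 1 := by exact_mod_cast h
    have := mul_le_mul_of_nonneg_right this r0
    linarith
  rcases le_or_gt 4 j with h' | h'
  · have : (4 : ℝ) ≤ j := by exact_mod_cast h'
    have := mul_le_mul_of_nonneg_right this r0
    linarith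
  obtain rfl | rfl : j = 2 ∨ j = 3 := by omega
  · have := uw_btw (n := n) (x := 2 * r - β) (a := 2 * k) (b := 2 * k + 3) (by push_cast; linarith)
      (by push_cast; linarith) (by push_cast at e; linarith)
    omega
  · have := uw_btw (n := n) (x := 3 * r - β) (a := 3 * k + 1) (b := 3 * k + 4) (by push_cast; linarith)
      (by push_cast; linarith) (by push_cast at e; linarith)
    omega

/-- Every second integer of an interval. -/
noncomputable def Ev (a b c : ℤ) : Finset ℤ := (Icc a b).image fun i => 2 * i + c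

lemma uw_card (a b c : ℤ) (h : a ≤ b + 1) : ((Ev a b c).card : ℤ) = b + 1 - a := by
  rw [Ev, card_image_of_injective _ fun x y g => by omega, Int.card_Icc]
  omega

lemma uw_mem {a b c x : ℤ} : x ∈ Ev a b c ↔ ∃ i, a ≤ i ∧ i ≤ b ∧ 2 * i + c = x := by
  simp only [Ev, mem_image, mem_Icc, and_assoc]

lemma uw_cover {U A B : Finset ℤ} (f : ℤ → ℤ) (c : ℤ)
    (h : ∀ e ∈ U, e ∈ A ∨ (∃ e' ∈ B, f e' = e) ∨ e = c) : U.card ≤ A.card + B.card + 1 := by
  have h1 : U ⊆ insert c (A ∪ B.image f) := fun e he => by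
    simp only [mem_insert, mem_union, mem_image]
    have := h e he
    tauto
  have := card_le_card h1
  have := card_insert_le c (A ∪ B.image f)
  have := card_union_le A (B.image f)
  have := card_image_le (s := B) (f := f)
  omega

/-- Some port of the clique sits at round `n`. -/
def Lw {T : Type} (I : T → Prop) (b : T → ℤ) (n : ℤ) : Prop := ∃ y, I y ∧ b y = n

/-- Ports of one copy in the second mode, listed along the wires. -/
structure M3 {T : Type} (I : T → Prop) (X Y F l : T) (k : ℕ) (r : ℝ) (a b : T → ℤ) (α β : T → ℝ)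
    (t : ℝ) : Prop where
  iX : I X
  iY : I Y
  iF : I F
  Xl : X ≠ l
  Yl : Y ≠ l
  Fl : F ≠ l
  FY : F ≠ Y
  loa : ∀ y, I y → t ≤ α y
  hia : ∀ y, I y → α y ≤ t + (2 * r - 2 * k - 1)
  lob : ∀ y, I y → t ≤ β y
  hib : ∀ y, I y → b y ≤ k - 2 → β y ≤ t + (2 * r - 2 * k - 1)
  hw : ∀ y, I y → β y ≤ t + 2
  injb : ∀ y y', I y → I y' → b y = b y' → y = y'
  lab : ∀ y y', I y → I y' → a y ≠ b y' + k
  ry : a Y = 2 * k ∨ a Y = 2 * k - 1
  rx : a X ≤ 2 * k - 2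
  rc : ∀ y, I y → k + 5 ≤ a y ∧ a y ≤ 2 * k
  rq : ∀ y, I y → (2 ≤ b y ∧ b y ≤ k - 2) ∨ (k + 5 ≤ b y ∧ b y ≤ 2 * k - 2)
  t0 : ∃ y, I y ∧ a y = 2 * k
  t2 : ∃ y, I y ∧ a y = 2 * k - 2
  walk : ∀ y y', I y → I y' → b y ≤ k - 2 → b y + k < a y' → β y ≤ α y'
  two : ∃ y, (y = Y ∨ y = F) ∧ b y = 2 ∧ β y = t
  lf : ∀ y, y = Y ∨ y = F → b y ≤ k - 2 ∧ ∀ n : ℤ, 4 ≤ n → n < b y → (Lw I b n ↔ Even n)
  lh : 6 ≤ b X ∧ b X ≤ k - 2
  above : ∀ n : ℤ, n ≤ k - 2 → Lw I b n → n + k < a X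
  iso : ∀ n : ℤ, Odd n → n ≤ k - 2 → Lw I b n → 5 ≤ n ∧ Lw I b (n - 1) ∧ Lw I b (n + 1)
  c1 : ∀ A B : Finset ℤ, (∀ e ∈ A, Even e ∧ k + 4 ≤ 2 * e ∧ e ≤ k - 2 ∧ ¬ Lw I b e) →
    (∀ o : ℤ, Odd o → 5 ≤ o → 2 * o ≤ k + 2 → Lw I b o → o ∈ B) → A.card < B.card

namespace M3
variable {T : Type} {I : T → Prop} {P Q X Y F X' Y' F' l : T} {k : ℕ} {r t t' : ℝ}
  {a b a' b' : T → ℤ} {α β α' β' : T → ℝ}

section One
variable (H : M3 I X Y F l k r a b α β t)
include H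

lemma slack : 0 ≤ 2 * r - 2 * k - 1 := by linarith [H.loa X H.iX, H.hia X H.iX]

lemma two' : ∃ y, I y ∧ y ≠ l ∧ b y = 2 ∧ β y = t := by
  obtain ⟨y, rfl | rfl, e⟩ := H.two
  exacts [⟨_, H.iY, H.Yl, e⟩, ⟨_, H.iF, H.Fl, e⟩]

lemma n3 (hk : 12 ≤ k) {y : T} (hy : I y) : b y ≠ 3 := fun e => by
  have := H.iso 3 ⟨1, rfl⟩ (by omega) ⟨y, hy, e⟩
  omega

lemma four (hk : 12 ≤ k) : Lw I b 4 := by
  have key : ∀ y, y = Y ∨ y = F → I y → b y ≠ 2 → Lw I b 4 := fun y h hy e => by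
    have := H.rq y hy
    have := H.n3 hk hy
    by_cases g : b y = 4
    · exact ⟨y, hy, g⟩
    · exact ((H.lf y h).2 4 le_rfl (by omega)).2 ⟨2, rfl⟩
  by_cases e : b Y = 2
  · exact key F (Or.inr rfl) H.iF fun g => H.FY (H.injb _ _ H.iF H.iY (g.trans e.symm))
  · exact key Y (Or.inl rfl) H.iY e

/-- The early odd low ports are not confined to one level. -/
lemma not_one (hk : 12 ≤ k) (he : Even (k : ℤ)) (c : ℤ)
    (h : ∀ o : ℤ, Odd o → 5 ≤ o → 2 * o ≤ k + 2 → Lw I b o → o = c) : False := by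
  have := H.c1 {(k : ℤ) - 2} {c} (fun e g => by
    rw [mem_singleton.1 g]
    exact ⟨he.sub ⟨1, rfl⟩, by omega, le_rfl, fun w => by
      have := H.above _ le_rfl w; have := H.rx; omega⟩) fun o h1 h2 h3 h4 =>
    mem_singleton.2 (h o h1 h2 h3 h4)
  simp at this

/-- Few even levels have no low port. -/
lemma ce (hk : 12 ≤ k) (he : Even (k : ℤ)) (A : Finset ℤ)
    (h : ∀ e ∈ A, Even e ∧ 4 ≤ e ∧ e ≤ k - 2 ∧ ¬ Lw I b e) : 4 * A.card + 8 ≤ k := by
  obtain ⟨m, hm⟩ := he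
  obtain ⟨n, ε, h1, h2⟩ : ∃ n ε : ℤ, (ε = 1 ∨ ε = -1) ∧ 2 * m = 4 * n + 1 - ε := by
    rcases Int.even_or_odd' m with ⟨n, g | g⟩
    exacts [⟨n, 1, Or.inl rfl, by omega⟩, ⟨n, -1, Or.inr rfl, by omega⟩]
  have s1 := card_filter_add_card_filter_not (s := A) fun e => (k : ℤ) + 4 ≤ 2 * e
  have sub : ((A.filter fun e => ¬ (k : ℤ) + 4 ≤ 2 * e).image fun e => e + ε) ⊆
      Ev 2 n 1 := fun x hx => by
    obtain ⟨e, g, rfl⟩ := mem_image.1 hx
    obtain ⟨g1, g2⟩ := mem_filter.1 g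
    obtain ⟨⟨i, g3⟩, g4, -, g5⟩ := h e g1
    have : e ≠ 4 := fun f => g5 (f ▸ H.four hk)
    rcases h1 with rfl | rfl
    exacts [uw_mem.2 ⟨i, by omega, by omega, by omega⟩, uw_mem.2 ⟨i - 1, by omega, by omega, by omega⟩]
  have s2 := card_sdiff_add_card_eq_card sub
  rw [card_image_of_injective _ (add_left_injective ε)] at s2
  have s3 := uw_card 2 n 1 (by omega)
  have s4 := H.c1 (A.filter fun e => (k : ℤ) + 4 ≤ 2 * e) (Ev 2 n 1 \
    (A.filter fun e => ¬ (k : ℤ) + 4 ≤ 2 * e).image fun e => e + ε) (fun e g => by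
      obtain ⟨g1, g2⟩ := mem_filter.1 g
      have := h e g1
      tauto) fun o ⟨i, h3⟩ h4 h5 h6 => by
    refine mem_sdiff.2 ⟨uw_mem.2 ⟨i, by omega, by omega, by omega⟩, fun g => ?_⟩
    obtain ⟨e, g, g'⟩ := mem_image.1 g
    obtain ⟨-, i1, i2⟩ := H.iso o ⟨i, h3⟩ (by omega) h6
    refine (h e (mem_filter.1 g).1).2.2.2 ?_
    rcases h1 with rfl | rfl
    exacts [by rwa [show e = o - 1 by omega], by rwa [show e = o + 1 by omega]]
  omega

end One

end M3

namespace M1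
variable {T : Type} {I : T → Prop} {P Q X Y F l : T} {k : ℕ} {r t t' σ : ℝ}
  {a b a' b' : T → ℤ} {α β α' β' : T → ℝ}
  (hk : 12 ≤ k) (he : Even (k : ℤ)) (hr : r < k + 1) (H : M1 I P Q l k r a b α β t)
  (G : M3 I X Y F l k r a' b' α' β' t') (hσ : σ = 1 ∨ σ = -1) (J : Jn I l r σ a b' α β')
include hk he hr H G hσ J

/-- Two neighbouring low ports meet the first and the last port of the centres. -/
lemma nb {u v : T} (hu : I u) (hv : I v) (ul : u ≠ l) (vl : v ≠ l) (e : b' v = b' u + 1)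
    (m : b' v ≤ k - 2) : (a u = 2 ∧ a v = k + 2) ∨ (a u = k + 2 ∧ a v = 2) := by
  obtain ⟨i, e1⟩ := J u hu ul
  obtain ⟨j, e2⟩ := J v hv vl
  obtain ⟨c, hc⟩ := he
  obtain ⟨⟨n, p0⟩, p1, p2⟩ := H.mid u hu
  obtain ⟨⟨n', q0⟩, q1, q2⟩ := H.mid v hv
  have : a u ≠ a v := fun g => by rw [H.inja _ _ hu hv g] at e; omega
  have := H.loa u hu
  have := H.hia u hu
  have := H.loa v hv
  have := H.hia v hv
  have := G.lob u hu
  have := G.hib u hu (by omega)
  have := G.lob v hv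
  have := G.hib v hv m
  rw [e] at e2
  push_cast at e2
  rcases le_total (a u) (a v) with g | g
  · have := H.mono _ _ hu hv g
    rcases hσ with rfl | rfl
    · have := uw_dif (n := a u - a v - 1) (β := α u - α v + (β' u - β' v)) (j := i - j) hr H.slack hk
        (by omega) (by omega) (by linarith) (by linarith) (by push_cast; linarith)
      omega
    · have := uw_dif (n := a u - a v + 1) (β := α u - α v - (β' u - β' v)) (j := i - j) hr H.slack hk
        (by omega) (by omega) (by linarith) (by linarith) (by push_cast; linarith)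
      omega
  · have := H.mono _ _ hv hu g
    rcases hσ with rfl | rfl
    · have := uw_dif (n := a v - a u + 1) (β := α v - α u - (β' u - β' v)) (j := j - i) hr H.slack hk
        (by omega) (by omega) (by linarith) (by linarith) (by push_cast; linarith)
      omega
    · have := uw_dif (n := a v - a u - 1) (β := α v - α u + (β' u - β' v)) (j := j - i) hr H.slack hk
        (by omega) (by omega) (by linarith) (by linarith) (by push_cast; linarith)
      omega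

/-- The two modes do not fit together. -/
theorem three : False := by
  have pr : ∀ n n' : ℤ, n < n' → n' + 1 ≤ k - 2 → Lw I b' n → Lw I b' (n + 1) → Lw I b' n' →
      Lw I b' (n' + 1) → b' l = n ∨ b' l = n + 1 ∨ b' l = n' ∨ b' l = n' + 1 := by
    rintro n n' h1 h2 ⟨u, hu, e1⟩ ⟨v, hv, e2⟩ ⟨u', hu', e3⟩ ⟨v', hv', e4⟩
    by_contra c
    have g1 := nb hk he hr H G hσ J hu hv (fun g => c (by rw [← g]; omega))
      (fun g => c (by rw [← g]; omega)) (by omega) (by omega)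
    have g2 := nb hk he hr H G hσ J hu' hv' (fun g => c (by rw [← g]; omega))
      (fun g => c (by rw [← g]; omega)) (by omega) (by omega)
    have : a v' ≠ a u := fun g => by rw [H.inja _ _ hv' hu g] at e4; omega
    have : a v' ≠ a v := fun g => by rw [H.inja _ _ hv' hv g] at e4; omega
    omega
  have key : ∀ o : ℤ, Odd o → 2 * o ≤ k + 2 → Lw I b' o →
      Lw I b' (o - 1) ∧ Lw I b' (o + 1) ∧ (b' l = o - 1 ∨ b' l = o ∨ b' l = o + 1) := fun o h1 h2 h3 => by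
    obtain ⟨-, i1, i2⟩ := G.iso o h1 (by omega) h3
    have := pr (o - 1) o (by omega) (by omega) i1 (by rwa [sub_add_cancel]) h3 i2
    exact ⟨i1, i2, by omega⟩
  have ex : ∀ c, ∃ o : ℤ, Odd o ∧ 2 * o ≤ k + 2 ∧ Lw I b' o ∧ o ≠ c := fun c => by
    by_contra g
    exact G.not_one hk he c fun o h1 _ h2 h3 => by_contra fun f => g ⟨o, h1, h2, h3, f⟩
  obtain ⟨o, h1, h2, h3, -⟩ := ex 0
  obtain ⟨o', h4, h5, h6, h7⟩ := ex o
  obtain ⟨i1, i2, i3⟩ := key o h1 h2 h3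
  obtain ⟨j1, j2, j3⟩ := key o' h4 h5 h6
  obtain ⟨n, rfl⟩ := h1
  obtain ⟨n', rfl⟩ := h4
  rcases lt_or_gt_of_ne h7 with g | g
  · have := pr _ _ (show 2 * n' + 1 - 1 < 2 * n + 1 by omega) (by omega) j1 (by rwa [sub_add_cancel]) h3 i2
    omega
  · have := pr _ _ (show 2 * n + 1 - 1 < 2 * n' + 1 by omega) (by omega) i1 (by rwa [sub_add_cancel]) h6 j2
    omega

end M1

end Pool.Agent.P.MP_3f5ded_co.UG
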