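import Pool.Agent.P.MP_3f5ded_co.UWA2

set_option autoImplicit false

namespace Pool.Agent.P.MP_3f5ded_co.UG

open Finset

namespace M3
variable {T : Type} {I : T → Prop} {X Y F X' Y' F' l : T} {k : ℕ} {r t t' : ℝ}
  {a b a' b' : T → ℤ} {α β α' β' : T → ℝ}
  (hk : 12 ≤ k) (he : Even (k : ℤ)) (hr : r < k + 1) (H : M3 I X Y F l k r a b α β t)
  (G : M3 I X' Y' F' l k r a' b' α' β' t') (R : (X' = X ∧ Y' = Y) ∨ (X' = Y ∧ Y' = X))

include G R in
lemma lowY : 2 ≤ b' Y ∧ b' Y ≤ k - 2 := by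
  have := G.lh
  have := (G.lf Y' (Or.inl rfl)).1
  have := G.rq Y' G.iY
  rcases R with ⟨-, rfl⟩ | ⟨rfl, -⟩ <;> omega

omit hk he hr H G in
include R in
lemma sw : (X = X' ∧ Y = Y') ∨ (X = Y' ∧ Y = X') := by
  rcases R with ⟨rfl, rfl⟩ | ⟨rfl, rfl⟩ <;> simp

include hk he hr H G R

section Opp
variable (J : Jn I l r 1 a b' α β') (J' : Jn I l r 1 a' b α' β)
include J J'

omit he in
lemma opp_eq : a Y + b' Y = a' Y' + b Y' ∧ α Y + β' Y = α' Y' + β Y' := by
  obtain ⟨i, e1⟩ := J Y H.iY H.Yl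
  obtain ⟨j, e2⟩ := J' Y' G.iY G.Yl
  have := G.lowY R
  have := H.lowY (sw R)
  have := H.ry
  have := G.ry
  have := H.walk Y' Y G.iY H.iY (by omega) (by omega)
  have := G.walk Y Y' H.iY G.iY (by omega) (by omega)
  have := H.hia Y H.iY
  have := H.lob Y' G.iY
  have := G.hia Y' G.iY
  have := G.lob Y H.iY
  have := H.slack
  rcases uw_dif (n := a Y + b' Y - (a' Y' + b Y')) (β := α Y + β' Y - (α' Y' + β Y')) (j := i - j) hr
    H.slack hk (by omega) (by omega) (by linarith) (by linarith) (by push_cast; linarith) with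
    g | g | g | g | g | g
  · omega
  · omega
  · exact ⟨by omega, by linarith [g.2]⟩
  · linarith [g.2]
  all_goals omega

omit he in
lemma opp_cls {y : T} (hy : I y) (yl : y ≠ l) (m : b' y ≤ k - 2) :
    a y + b' y = a Y + b' Y ∨ (a y + b' y = a Y + b' Y + 1 ∧ α y + β' y = α Y + β' Y - 1) ∨
      a y + b' y = a Y + b' Y - k ∨ a y + b' y = a Y + b' Y - k - 1 := by
  obtain ⟨e, e'⟩ := opp_eq hk hr H G R J J'
  obtain ⟨i, e1⟩ := J y hy yl
  obtain ⟨j, e2⟩ := J Y H.iY H.Yl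
  have := G.lowY R
  have := H.lowY (sw R)
  have := H.ry
  have := G.ry
  have := H.rc y hy
  have := G.rq y hy
  have := G.walk y Y' hy G.iY m (by omega)
  have := H.loa y hy
  have := H.hia y hy
  have := H.lob Y' G.iY
  have := H.hib Y' G.iY (by omega)
  have := G.hia Y' G.iY
  have := G.lob y hy
  rcases uw_dif (n := a y + b' y - (a Y + b' Y)) (β := α y + β' y - (α Y + β' Y)) (j := i - j) hr
    H.slack hk (by omega) (by omega) (by linarith) (by linarith) (by push_cast; linarith) with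
    g | g | g | g | g | g
  · omega
  · omega
  · omega
  · exact Or.inr (Or.inl ⟨by omega, by linarith [g.2]⟩)
  all_goals omega

omit he in
lemma opp_small : a Y + b' Y ≤ 2 * k + 2 := by
  by_contra c
  have cls := fun {y : T} => opp_cls hk hr H G R J J' (y := y)
  obtain ⟨e, -⟩ := opp_eq hk hr H G R J J'
  have := G.lowY R
  have l2 := H.lowY (sw R)
  have := H.ry
  have := G.ry
  obtain ⟨y, hy, yl, e2, -⟩ := G.two'
  have := cls hy yl (by omega)
  have := H.rc y hy
  have big : a Y + b' Y ≤ b' Y' + 2 * k := by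
    rcases R with ⟨-, rfl⟩ | ⟨-, rfl⟩
    · omega
    · have := cls H.iX H.Xl (G.lf _ (Or.inl rfl)).1
      have := H.rc _ H.iX
      have := H.above _ l2.2 ⟨_, H.iX, rfl⟩
      have := G.rq _ H.iX
      omega
  obtain ⟨g1, g2⟩ := G.lf Y' (Or.inl rfl)
  have key : ∀ n : ℤ, Even n → a Y + b' Y ≤ n + 2 * k + 4 → n + 2 * k < a Y + b' Y → b' l = n :=
    fun n ⟨i, h1⟩ h2 h3 => by
      obtain ⟨u, hu, eu⟩ := (g2 n (by omega) (by omega)).2 ⟨i, h1⟩
      by_contra f
      have := cls hu (fun g => f (g ▸ eu)) (by omega)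
      have := H.rc u hu
      omega
  rcases Int.even_or_odd' (a Y + b' Y) with ⟨n, g | g⟩
  · have := key (2 * (n - k - 1)) (even_two_mul _) (by omega) (by omega)
    have := key (2 * (n - k - 2)) (even_two_mul _) (by omega) (by omega)
    omega
  · have := key (2 * (n - k)) (even_two_mul _) (by omega) (by omega)
    have := key (2 * (n - k - 1)) (even_two_mul _) (by omega) (by omega)
    omega

/-- Two copies in the second mode, opposite directions. -/
theorem opp : False := by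
  have s := opp_small hk hr H G R J J'
  have := G.lowY R
  have := H.ry
  have := G.n3 hk H.iY
  have e2 : b' Y = 2 := by omega
  have f2 : β' Y = t' := by
    obtain ⟨y, hy, -, g, g'⟩ := G.two'
    rwa [G.injb _ _ H.iY hy (e2.trans g.symm)]
  have ex : ∀ y, I y → y ≠ l → b' y ≤ k - 2 → a y + b' y = a Y + 2 := fun y hy yl m => by
    have := H.rc y hy
    have := G.rq y hy
    rcases opp_cls hk hr H G R J J' hy yl m with g | g | g | g
    · omega
    · linarith [g.2, H.loa y hy, H.hia Y H.iY, G.lob y hy]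
    all_goals omega
  obtain ⟨m, hm⟩ := id he
  rcases H.ry with e | e
  · classical
    have c1 := uw_card 2 (m - 1) 0 (by omega)
    have ev : ∀ x ∈ Ev 2 (m - 1) 0, Even x ∧ 4 ≤ x ∧ x ≤ k - 2 :=
      fun x hx => by
        obtain ⟨i, h1, h2, h3⟩ := uw_mem.1 hx
        exact ⟨⟨i, by omega⟩, by omega, by omega⟩
    have c2 := H.ce hk he ((Ev 2 (m - 1) 0).filter fun x => ¬ Lw I b x)
      fun x hx => by have := mem_filter.1 hx; have := ev x this.1; tauto
    have c3 := G.ce hk he ((Ev 2 (m - 1) 0).filter fun x => ¬ Lw I b' x)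
      fun x hx => by have := mem_filter.1 hx; have := ev x this.1; tauto
    have := uw_cover (U := Ev 2 (m - 1) 0)
      (A := (Ev 2 (m - 1) 0).filter fun x => ¬ Lw I b' x)
      (B := (Ev 2 (m - 1) 0).filter fun x => ¬ Lw I b x)
      (fun x => k + 2 - x) (b' l) fun x hx => by
      by_cases g : Lw I b' x
      swap
      · exact Or.inl (mem_filter.2 ⟨hx, g⟩)
      obtain ⟨u, hu, eu⟩ := g
      by_cases ul : u = l
      · exact Or.inr (Or.inr (by rw [← eu, ul]))
      obtain ⟨i, h1, h2, h3⟩ := uw_mem.1 hx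
      have := ex u hu ul (by omega)
      refine Or.inr (Or.inl ⟨k + 2 - x, mem_filter.2 ⟨uw_mem.2 ⟨m + 1 - i, by omega, by omega,
        by omega⟩, ?_⟩, by ring⟩)
      rintro ⟨v, hv, g⟩
      exact H.lab u v hu hv (by omega)
    omega
  · obtain ⟨u, hu, ul, eu⟩ : ∃ u, I u ∧ u ≠ l ∧ (a u = 2 * k ∨ a u = 2 * k - 2) := by
      obtain ⟨u, hu, g⟩ := H.t0
      obtain ⟨v, hv, g'⟩ := H.t2
      by_cases f : u = l
      · exact ⟨v, hv, fun c => by rw [c, ← f] at g'; omega, Or.inr g'⟩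
      · exact ⟨u, hu, f, Or.inl g⟩
    rcases G.rq u hu with g | g
    · have := ex u hu ul g.2
      have := G.n3 hk hu
      omega
    obtain ⟨i, e1⟩ := J u hu ul
    obtain ⟨j, e3⟩ := J Y H.iY H.Yl
    have k0 : (12 : ℝ) ≤ k := by exact_mod_cast hk
    have s0 := H.slack
    have a1 : ((k + 2 : ℤ) : ℝ) ≤ (a u + b' u - (a Y + b' Y) : ℤ) := Int.cast_le.2 (by omega)
    have a2 : ((a u + b' u - (a Y + b' Y) : ℤ) : ℝ) ≤ (2 * k - 3 : ℤ) := Int.cast_le.2 (by omega)
    push_cast at a1 a2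
    have := H.loa u hu
    have := H.hia u hu
    have := H.loa Y H.iY
    have := H.hia Y H.iY
    have := G.lob u hu
    have := G.hw u hu
    rcases le_or_gt i (j + 1) with c | c
    · have : (i : ℝ) ≤ j + 1 := by exact_mod_cast c
      have := mul_le_mul_of_nonneg_right this (show 0 ≤ r by linarith)
      linarith
    · have : (j : ℝ) + 2 ≤ i := by exact_mod_cast (show j + 2 ≤ i by omega)
      have := mul_le_mul_of_nonneg_right this (show 0 ≤ r by linarith)
      linarith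

end Opp

section Same
variable (J : Jn I l r (-1) a b' α β') (J' : Jn I l r (-1) a' b α' β)
include J J'

omit he R hk in
lemma same_sum {u v : T} (hu : I u) (hv : I v) (ul : u ≠ l) (vl : v ≠ l) (m : b' u ≤ k - 2)
    (m' : b v ≤ k - 2) (h1 : 2 * k + 2 ≤ a u - b' u + (a' v - b v)) (w : β v ≤ α u)
    (w' : β' u ≤ α' v) : a u - b' u + (a' v - b v) = 3 * k + 2 := by
  obtain ⟨i, e1⟩ := J u hu ul
  obtain ⟨j, e2⟩ := J' v hv vl
  have := H.rc u hu
  have := G.rc v hv
  have := H.rq v hv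
  have := G.rq u hu
  exact (uw_sum (β := α u - β v + (α' v - β' u)) (j := i + j) hr H.slack h1 (by omega) (by linarith)
    (by linarith [H.hia u hu, H.lob v hv, G.hia v hv, G.lob u hu]) (by push_cast; linarith)).1

omit he hk in
lemma same_Y : a Y - b' Y + (a' Y' - b Y') = 3 * k + 2 := by
  have := G.lowY R
  have := H.lowY (sw R)
  have := H.ry
  have := G.ry
  exact same_sum hr H G J J' H.iY G.iY H.Yl G.Yl (by omega) (by omega) (by omega)
    (H.walk Y' Y G.iY H.iY (by omega) (by omega)) (G.walk Y Y' H.iY G.iY (by omega) (by omega))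

omit he hk in
lemma same_cls0 {ν : ℤ} (e : a' Y' - b Y' = 2 * k - ν) {y : T} (hy : I y) (yl : y ≠ l)
    (m : b' y ≤ k - 2) : a y = b' y + k + ν + 2 ∨ a y = b' y + k + ν + 3 ∨ a y = b' y + ν + 1 ∨
      a y = b' y + ν + 2 := by
  obtain ⟨i, e1⟩ := J y hy yl
  obtain ⟨j, e2⟩ := J' Y' G.iY G.Yl
  have := H.lowY (sw R)
  have := G.ry
  have := H.rc y hy
  have := G.rq y hy
  have := G.walk y Y' hy G.iY m (by omega)
  have := uw_sum2 (n := a y - b' y + (a' Y' - b Y')) (β := α y - β Y' + (α' Y' - β' y)) (j := i + j) hr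
    H.slack (by omega) (by omega) (by linarith [H.loa y hy, H.hib Y' G.iY (by omega)])
    (by linarith [H.hia y hy, H.lob Y' G.iY, G.hia Y' G.iY, G.lob y hy]) (by push_cast; linarith)
  omega

omit he hk in
/-- Equal directions: the partner of a low port. -/
lemma same_cls {ν ν' : ℤ} (e : a Y - b' Y = 2 * k - ν) (e' : a' Y' - b Y' = 2 * k - ν') {y : T}
    (hy : I y) (yl : y ≠ l) (m : b' y ≤ k - 2) : (b' y ≤ ν ∧ a y = b' y + k + ν' + 2) ∨
      (ν + 5 ≤ b' y ∧ (a y = b' y + ν' + 1 ∨ a y = b' y + ν' + 2)) := by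
  have s := same_Y hr H G R J J'
  have := G.lowY R
  have := H.lowY (sw R)
  have := H.ry
  have := G.ry
  obtain ⟨u, hu, ul, eu, fu⟩ := G.two'
  obtain ⟨v, hv, vl, ev, fv⟩ := H.two'
  have c1 := same_cls0 hr H G R J J' e' hu ul (by omega)
  have c2 := same_cls0 hr G H (sw R) J' J e hv vl (by omega)
  have := H.rc u hu
  have := G.rc v hv
  have c3 := same_sum hr H G J J' hu hv ul vl (by omega) (by omega) (by omega) (fv ▸ H.loa u hu)
    (fu ▸ G.loa v hv)
  have := H.rc y hy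
  rcases same_cls0 hr H G R J J' e' hy yl m with g | g | g | g
  · omega
  · have := same_sum hr H G J J' hy hv yl vl m (by omega) (by omega) (fv ▸ H.loa y hy)
      (G.walk y v hy hv m (by omega))
    omega
  all_goals omega

end Same

open Classical in
omit hk he hr R in
/-- Equal directions, even turn: one half of the count. -/
lemma even_half {n n' m : ℤ} (hm : (k : ℤ) = m + m) (s : n + n' = m - 1) (h1 : 1 ≤ n) (h2 : 1 ≤ n')
    (cls : ∀ y, I y → y ≠ l → b' y ≤ k - 2 → (b' y ≤ 2 * n ∧ a y = b' y + k + 2 * n' + 2) ∨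
      2 * n + 5 ≤ b' y) :
    n ≤ (((Ev 2 (m - 1) 0).filter fun x => ¬ Lw I b' x).filter fun x => x ≤ 2 * n + 2).card +
      (((Ev 2 (m - 1) 0).filter fun x => ¬ Lw I b x).filter fun x => ¬ x ≤ 2 * n' + 2).card + 1 := by
  have c1 := uw_card 1 (n - 1) 0 (by omega)
  have c2 := card_insert_of_notMem (s := Ev 1 (n - 1) 0) (a := 2 * n + 2) fun g => by
    obtain ⟨i, g⟩ := uw_mem.1 g
    omega
  have := uw_cover (U := insert (2 * n + 2) (Ev 1 (n - 1) 0))
    (A := ((Ev 2 (m - 1) 0).filter fun x => ¬ Lw I b' x).filter fun x => x ≤ 2 * n + 2)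
    (B := ((Ev 2 (m - 1) 0).filter fun x => ¬ Lw I b x).filter fun x => ¬ x ≤ 2 * n' + 2)
    (fun x => x - 2 * n' - 2) (b' l) fun x hx => by
    obtain ⟨i, i1, i2, rfl⟩ : ∃ i, 1 ≤ i ∧ (i < n ∨ i = n + 1) ∧ x = 2 * i := by
      rcases mem_insert.1 hx with g | g
      · exact ⟨n + 1, by omega, by omega, by omega⟩
      · obtain ⟨i, g⟩ := uw_mem.1 g
        exact ⟨i, by omega, by omega, by omega⟩
    by_cases g : Lw I b' (2 * i)
    swap
    · have : i ≠ 1 := fun f => by
        obtain ⟨u, hu, -, eu, -⟩ := G.two'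
        exact g ⟨u, hu, by omega⟩
      exact Or.inl (mem_filter.2 ⟨mem_filter.2 ⟨uw_mem.2 ⟨i, by omega, by omega, by omega⟩, g⟩,
        by omega⟩)
    obtain ⟨u, hu, eu⟩ := g
    by_cases ul : u = l
    · exact Or.inr (Or.inr (by rw [← eu, ul]))
    have := cls u hu ul (by omega)
    refine Or.inr (Or.inl ⟨2 * i + 2 * n' + 2, mem_filter.2 ⟨mem_filter.2 ⟨uw_mem.2 ⟨i + n' + 1,
      by omega, by omega, by omega⟩, ?_⟩, by omega⟩, by ring⟩)
    rintro ⟨v, hv, g⟩
    exact H.lab u v hu hv (by omega)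
  omega

omit hr in
/-- Equal directions, odd turn. -/
lemma odd_half {n n' : ℤ} (s : 2 * n + 2 * n' + 4 = k) (le : n' ≤ n)
    (e : a Y - b' Y = 2 * k - (2 * n + 1)) (e' : a' Y' - b Y' = 2 * k - (2 * n' + 1))
    (cls : ∀ y, I y → y ≠ l → b' y ≤ k - 2 → (b' y ≤ 2 * n + 1 ∧ a y = b' y + k + (2 * n' + 1) + 2) ∨
      (2 * n + 1 + 5 ≤ b' y ∧ (a y = b' y + (2 * n' + 1) + 1 ∨ a y = b' y + (2 * n' + 1) + 2)))
    (cls' : ∀ y, I y → y ≠ l → b y ≤ k - 2 → b y ≤ 2 * n' + 1 ∨ 2 * n' + 1 + 5 ≤ b y) : False := by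
  classical
  have gap : ∀ {b : T → ℤ} {c o : ℤ}, (∀ y, I y → y ≠ l → b y ≤ k - 2 → b y ≤ c ∨ c + 5 ≤ b y) →
      o ≤ k - 2 → Lw I b o → Lw I b (o - 1) → o ≤ c + 1 ∨ c + 5 ≤ o := by
    rintro b c o h h1 ⟨u, hu, eu⟩ ⟨v, hv, ev⟩
    by_cases ul : u = l
    · have := h v hv (fun g => by rw [g, ← ul] at ev; omega) (by omega)
      omega
    · have := h u hu ul (by omega)
      omega
  have O2 : ∀ o : ℤ, Odd o → 2 * o ≤ k + 2 → Lw I b' o → o ≤ 2 * n + 1 := fun o h1 h2 h3 => by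
    have := gap (c := 2 * n + 1) (fun y a b c => by have := cls y a b c; omega) (by omega) h3
      (G.iso o h1 (by omega) h3).2.1
    obtain ⟨i, h1⟩ := h1
    omega
  have O1 : ∀ o : ℤ, Odd o → 2 * o ≤ k + 2 → Lw I b o → o ≤ 2 * n' + 1 ∨ 2 * n' + 7 ≤ o :=
    fun o h1 h2 h3 => by
      have := gap cls' (by omega) h3 (H.iso o h1 (by omega) h3).2.1
      obtain ⟨i, h1⟩ := h1
      omega
  obtain ⟨f1, f2⟩ := G.lf Y' (Or.inl rfl)
  have O3 : ∀ o : ℤ, Odd o → 5 ≤ o → Lw I b' o → b' Y' ≤ o := fun o h1 h2 h3 => by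
    by_contra c
    exact Int.not_even_iff_odd.2 h1 ((f2 o (by omega) (by omega)).1 h3)
  have k1 : b' Y' < 2 * n := by
    by_contra c
    refine G.not_one hk he (2 * n + 1) fun o h1 h2 h3 h4 => ?_
    have := O2 o h1 h3 h4
    have := O3 o h1 h2 h4
    obtain ⟨i, h1⟩ := h1
    omega
  have := H.ry
  have := G.ry
  rcases R with ⟨-, rfl⟩ | ⟨rfl, rfl⟩
  · omega
  have := H.lh
  have ea : a Y' = b' Y' + k + (2 * n' + 1) + 2 := by have := cls Y' H.iX H.Xl f1; omega
  have mO : ∀ (b : T → ℤ) (o : ℤ), o ∈ (Icc (5 : ℤ) k).filter (fun o : ℤ => Odd o ∧ 2 * o ≤ k + 2 ∧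
      Lw I b o) ↔ Odd o ∧ 5 ≤ o ∧ 2 * o ≤ k + 2 ∧ Lw I b o := fun b o => by
    rw [mem_filter, mem_Icc]
    exact ⟨fun h => by tauto, fun h => ⟨⟨h.2.1, by omega⟩, by tauto⟩⟩
  have mO1 := mO b
  have mO2 := mO b'
  generalize (Icc (5 : ℤ) k).filter (fun o : ℤ => Odd o ∧ 2 * o ≤ k + 2 ∧ Lw I b o) = A at mO1
  generalize (Icc (5 : ℤ) k).filter (fun o : ℤ => Odd o ∧ 2 * o ≤ k + 2 ∧ Lw I b' o) = B at mO2
  have ab : ∀ x : ℤ, x ≤ k - 2 → a Y' ≤ x + k → ¬ Lw I b x := fun x h1 h2 h3 => by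
    have := H.above x h1 h3
    omega
  by_cases c : 2 * a Y' ≤ 3 * k + 8
  · have := H.c1 (A.image fun o => if o ≤ 2 * n' + 1 then k + 3 - o else k + 5 - o) A
      (fun x hx => by
        obtain ⟨o, h, rfl⟩ := mem_image.1 hx
        obtain ⟨h1, h2, h3, h4⟩ := (mO1 o).1 h
        have := O1 o h1 h3 h4
        obtain ⟨i, h1⟩ := h1
        split_ifs with g
        · exact ⟨⟨n + n' + 3 - i, by omega⟩, by omega, by omega, ab _ (by omega) (by omega)⟩
        · exact ⟨⟨n + n' + 4 - i, by omega⟩, by omega, by omega, ab _ (by omega) (by omega)⟩)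
      fun o h1 h2 h3 h4 => (mO1 o).2 ⟨h1, h2, h3, h4⟩
    rw [card_image_of_injOn fun x hx y hy g => by
      obtain ⟨h1, -, h3, h4⟩ := (mO1 x).1 hx
      obtain ⟨h5, -, h6, h7⟩ := (mO1 y).1 hy
      have := O1 x h1 h3 h4
      have := O1 y h5 h6 h7
      split_ifs at g <;> omega] at this
    omega
  have c1 := H.c1 ((B.image fun o => o + (2 * n' + 3)).erase k) A (fun x hx => by
      obtain ⟨g, hx⟩ := mem_erase.1 hx
      obtain ⟨o, h, rfl⟩ := mem_image.1 hx
      obtain ⟨h1, h2, h3, h4⟩ := (mO2 o).1 h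
      have := O2 o h1 h3 h4
      have := O3 o h1 h2 h4
      obtain ⟨i, h1⟩ := h1
      exact ⟨⟨i + n' + 2, by omega⟩, by omega, by omega, ab _ (by omega) (by omega)⟩)
    fun o h1 h2 h3 h4 => (mO1 o).2 ⟨h1, h2, h3, h4⟩
  have c2 := pred_card_le_card_erase (s := B.image fun o => o + (2 * n' + 3)) (a := (k : ℤ))
  rw [card_image_of_injective _ (add_left_injective _)] at c2
  have hi : ∀ o : ℤ, o ∈ A → ¬ o ≤ 2 * n' + 1 → b' l = o - (2 * n' + 3) := fun o h g => by
    obtain ⟨h1, h2, h3, h4⟩ := (mO1 o).1 h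
    have := O1 o h1 h3 h4
    obtain ⟨i, h1⟩ := h1
    obtain ⟨u, hu, eu⟩ := (f2 (o - (2 * n' + 3)) (by omega) (by omega)).2 ⟨i - n' - 1, by omega⟩
    by_contra f
    have := cls u hu (fun g => f (g ▸ eu)) (by omega)
    obtain ⟨v, hv, ev⟩ := h4
    exact H.lab u v hu hv (by omega)
  have c3 := G.c1 (A.image fun o => if o ≤ 2 * n' + 1 ∧ b' l ≠ o + (2 * n + 1) then o + (2 * n + 1)
      else 2 * n + 4) B (fun x hx => by
      obtain ⟨o, h, rfl⟩ := mem_image.1 hx
      have g0 := hi o h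
      obtain ⟨h1, h2, h3, h4⟩ := (mO1 o).1 h
      obtain ⟨v, hv, ev⟩ := (H.iso o h1 (by omega) h4).2.1
      obtain ⟨w, hw, ew⟩ := h4
      obtain ⟨i, h1⟩ := h1
      split_ifs with g
      · refine ⟨⟨i + n + 1, by omega⟩, by omega, by omega, ?_⟩
        rintro ⟨u, hu, eu⟩
        have := cls u hu (fun f => g.2 (f ▸ eu)) (by omega)
        have := H.lab u v hu hv
        have := H.lab u w hu hw
        omega
      · refine ⟨⟨n + 2, by omega⟩, by omega, by omega, ?_⟩
        rintro ⟨u, hu, eu⟩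
        have := cls u hu (fun f => by rw [f] at eu; omega) (by omega)
        omega)
    fun o h1 h2 h3 h4 => (mO2 o).2 ⟨h1, h2, h3, h4⟩
  rw [card_image_of_injOn fun x hx y hy g => by
    have := hi x hx
    have := hi y hy
    have := (mO1 x).1 hx
    have := (mO1 y).1 hy
    split_ifs at g <;> omega] at c3
  omega

/-- Two copies in the second mode, equal directions. -/
theorem same (J : Jn I l r (-1) a b' α β') (J' : Jn I l r (-1) a' b α' β) : False := by
  classical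
  have s := same_Y hr H G R J J'
  have := G.lowY R
  have := H.lowY (sw R)
  have := H.ry
  have := G.ry
  obtain ⟨ν, e⟩ : ∃ ν : ℤ, a Y - b' Y = 2 * k - ν := ⟨2 * k - (a Y - b' Y), by ring⟩
  obtain ⟨ν', e'⟩ : ∃ ν : ℤ, a' Y' - b Y' = 2 * k - ν := ⟨2 * k - (a' Y' - b Y'), by ring⟩
  have cls := fun y => same_cls hr H G R J J' e e' (y := y)
  have cls' := fun y => same_cls hr G H (sw R) J' J e' e (y := y)
  obtain ⟨m, hm⟩ := id he
  rcases Int.even_or_odd' ν with ⟨n, rfl | rfl⟩ <;> rcases Int.even_or_odd' ν' with ⟨n', rfl | rfl⟩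
  · have c1 := even_half H G hm (n := n) (n' := n') (by omega) (by omega) (by omega)
      fun y a b c => by have := cls y a b c; omega
    have c2 := even_half G H hm (n := n') (n' := n) (by omega) (by omega) (by omega)
      fun y a b c => by have := cls' y a b c; omega
    have ev : ∀ x ∈ Ev 2 (m - 1) 0, Even x ∧ 4 ≤ x ∧ x ≤ k - 2 := fun x hx => by
      obtain ⟨i, h1, h2, h3⟩ := uw_mem.1 hx
      exact ⟨⟨i, by omega⟩, by omega, by omega⟩
    have c3 := H.ce hk he ((Ev 2 (m - 1) 0).filter fun x => ¬ Lw I b x)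
      fun x hx => by have := mem_filter.1 hx; have := ev x this.1; tauto
    have c4 := G.ce hk he ((Ev 2 (m - 1) 0).filter fun x => ¬ Lw I b' x)
      fun x hx => by have := mem_filter.1 hx; have := ev x this.1; tauto
    have := card_filter_add_card_filter_not (s := (Ev 2 (m - 1) 0).filter fun x => ¬ Lw I b x)
      fun x => x ≤ 2 * n' + 2
    have := card_filter_add_card_filter_not (s := (Ev 2 (m - 1) 0).filter fun x => ¬ Lw I b' x)
      fun x => x ≤ 2 * n + 2
    omega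
  · omega
  · omega
  · rcases le_total n' n with g | g
    · exact odd_half hk he H G R (by omega) g e e' cls fun y a b c => by have := cls' y a b c; omega
    · exact odd_half hk he G H (sw R) (by omega) g e' e cls' fun y a b c => by
        have := cls y a b c; omega

end M3

end Pool.Agent.P.MP_3f5ded_co.UG
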