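import Pool.Agent.P.MP_3f5ded_co.UVChain
import Pool.Agent.P.MP_3f5ded_co.UWDefs

set_option autoImplicit false

namespace Pool.Agent.P.MP_3f5ded_co.UG

/-- The wire of reach `2 r - 2 k - 1`: the first pair of ports is capped by any pole. -/
theorem IsM.wire {k : ℕ} {A : Pole k (Fin 4)} (hA : IsM k A) {RF : ℝ → (Fin 2 → ℝ) → Prop}
    (hF : Real' k (okk k) (Fin 2) true RF) :
    ∃ R, Real' k (okk k) (Fin 2) true R ∧
      (∀ r x, okk k r → R r x → cd r (x 0) (x 1) ≤ 2 * r - 2 * k - 1) ∧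
      ∀ r x, okk k r → (∀ y, RF r y) → cd r (x 0) (x 1) ≤ 2 * r - 2 * k - 1 → R r x := by
  have hR := hF.cap (hA.1.real (okk k))
  refine ⟨_, hR, ?_, fun r x hr f h => ?_⟩
  · rintro r x hr ⟨a, b, -, h⟩
    exact (hA.2.1 r _ hr.1 hr.2 h).1
  · have hp : 0 < r := by linarith [hr.1]
    obtain ⟨v, hv, e⟩ := cd_lift r (x 1) (x 0)
    rw [cd_symm hp] at e
    obtain ⟨a, ha⟩ := hA.2.2 r v (x 1) hr.2 (by rw [e]; exact h)
    refine hR.cg hr (x := ![x 1 + v, x 1]) ⟨a, _, f _, ha⟩ fun j => ?_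
    fin_cases j
    exacts [hv.symm, Cg.refl _ _]

/-- A closed pole that is colourable at `x` and not below. -/
theorem IsM.closed {k : ℕ} {A : Pole k (Fin 4)} (hA : IsM k A) (hk : 4 ≤ k) (he : Even k) (x : ℚ)
    (h1 : (k : ℚ) + 1 / 2 < x) (h2 : x < k + 1) :
    ∃ R, Real' k (okk k) (Fin 0) true R ∧ (∀ y, R x y) ∧
      ∀ (r : ℝ) y, okk k r → r < x → ¬ R r y := by
  obtain ⟨W, hW⟩ := exists_E_even hk he
  have hk' : (4 : ℝ) ≤ k := by exact_mod_cast hk
  have h1' : (k : ℝ) + 1 / 2 < x := by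
    have := (Rat.cast_lt (K := ℝ)).2 h1
    push_cast at this
    exact this
  have h2' : (x : ℝ) < k + 1 := by exact_mod_cast h2
  have hok : okk k x := ⟨by linarith, h2'⟩
  have hpos : ∀ r : ℝ, okk k r → 0 < r := fun r hr => by linarith [hr.1]
  have hs : (0 : ℝ) < 2 * x - 2 * k - 1 := by linarith
  obtain ⟨F, hF, f3⟩ := exists_free (hW.1.real (okk k)) hok (hpos _ hok)
    (show (0 : ℝ) < x - k by linarith) fun y => hW.2.2 x y
  obtain ⟨E, hE, E1, E2⟩ := hA.wire hF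
  obtain ⟨L, N, hL, hN, hq⟩ := exists_ratio (α := 6 - 2 * (x - k)) (β := 2 * (x - k) - 1)
    (by linarith) (by linarith)
  refine exists_drift (s := fun r => 2 * r - 2 * k - 1) (κ := fun r => 2 * r - 2 * k - 6)
    (β := fun _ => 0) hE (hA.1.real (okk k)) hpos hok hs E1
    (fun y => E2 x y hok f3) ?_ (fun v c a1 a2 => ?_) L N hL hN ?_ ?_
  · intro r y hr a
    obtain ⟨b1, b2⟩ := hA.2.1 r _ hr.1 hr.2 a
    have b5 := cd_nonneg r (y 2) (y 3)
    exact ⟨by linarith, by linarith, by linarith⟩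
  · obtain ⟨a, ha⟩ := hA.2.2 x v c h2' (by rw [abs_of_nonneg a1]; linarith)
    refine ⟨a, ?_⟩
    rw [abs_of_nonneg a1] at ha
    rwa [show v - (2 * (x : ℝ) - 2 * k - 6) = v + 5 - (2 * x - 2 * k - 1) by ring]
  · push_cast at hq
    linarith
  · intro r _ hr
    constructor <;> linarith

/-- With such a pole, the values for an even degree `k` are all rationals in `[k, k + 1]`. -/
theorem iff_evenM {k : ℕ} (hk : 12 ≤ k) (he : Even k) (hM : ∃ A, IsM k A) (x : ℝ) :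
    (∃ (n : ℕ) (G : SimpleGraph (Fin n)) (_ : DecidableRel G.Adj), 0 < n ∧
      G.IsRegularOfDegree k ∧ sInf {r : ℝ | 1 ≤ r ∧ Col G r} = x) ↔
      ∃ q : ℚ, x = q ∧ (k : ℚ) ≤ q ∧ q ≤ k + 1 := by
  obtain ⟨A, hA⟩ := hM
  constructor
  · rintro ⟨n, G, dec, hn, hreg, rfl⟩
    exact value_mem G hn hreg
  · rintro ⟨q, rfl, h1, h2⟩
    have hk' : (12 : ℝ) ≤ k := by exact_mod_cast hk
    have h1' : (k : ℝ) ≤ q := by exact_mod_cast h1
    have key : ∃ (n : ℕ) (G : SimpleGraph (Fin n)) (_ : DecidableRel G.Adj),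
        G.IsRegularOfDegree k ∧ IsLeast {r : ℝ | 1 ≤ r ∧ Col G r} (q : ℝ) := by
      rcases le_or_gt q (k + 1 / 2) with h3 | h3
      · exact main_lower (by omega) q h1 h3
      rcases h2.eq_or_lt with rfl | h2
      · obtain ⟨W, hW⟩ := exists_E_even (by omega) he
        obtain ⟨E, hE, E1, -⟩ := hA.wire (hW.1.real (okk k))
        obtain ⟨t, ht⟩ := he
        obtain ⟨V, V1, -⟩ := exists_Lp (m := t - 1) (by omega) hW.1
        exact_mod_cast end_high_of ((V.real (okk k)).clo' hE) one_pos (by linarith)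
          (fun r b1 b2 => ⟨b1, b2⟩) (by
            rintro r y hr ⟨z, a1, a2⟩
            linarith [(V1 r z a1).le_cd, E1 r z hr a2, hr.2])
      · obtain ⟨R, hR, a1, a2⟩ := hA.closed (by omega) he q h3 h2
        have h2' : (q : ℝ) < k + 1 := by exact_mod_cast h2
        exact least_of_closed hR le_rfl (by linarith) (fun r b1 b2 => ⟨b1, by linarith⟩) a1
          (fun r y b1 b2 => a2 r y ⟨b1, by linarith⟩ b2) (Or.inr rfl)
    obtain ⟨n, G, dec, hreg, hl⟩ := key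
    exact ⟨n, G, dec, pos_of_value G (by linarith) hl, hreg, hl.csInf_eq⟩

end Pool.Agent.P.MP_3f5ded_co.UG
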