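import Pool.Agent.P.MP_3f5ded_co.UWDefs

set_option autoImplicit false

namespace Pool.Agent.P.MP_3f5ded_co.UG

/-- The parameters of the design. -/
def UwP (k i y f v : ℤ) : Prop :=
  12 ≤ k ∧ k % 2 = 0 ∧ y + i = f + 3 ∧ ((3 * i = k + 9 ∧ f = k + 2 ∧ v = 0) ∨
    (3 * i = k + 10 ∧ f = k + 2 ∧ v = 1) ∨ (3 * i = k + 5 ∧ f = k ∧ v = 0))

/-- The round of the item between `a` and `b` for `3 ≤ a < b`, with five special values. -/
def uwU (k i y f v e1 e2 e3 e4 e5 a b : ℤ) : ℤ :=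
  if b ≤ k - 2 then
    if a ≤ 3 then (if b ≤ 4 then 3 else b) else if a < i then a + b - 3 else if i < a then a + b - 3
    else if b < y then a + b - 3 else if y < b then a + b - 3 else 2 * y - 3
  else if b ≤ k - 1 then
    if a ≤ 3 then k - 1 else if a ≤ 4 then k + 1 else if a < i then a + k - 2
    else if a ≤ i then f else a + k - 3
  else if b ≤ k then
    if a ≤ 3 then e1 else if a ≤ k - 2 then a + k - 4 else 2 * k - 4
  else if b ≤ k + 1 then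
    if a ≤ 3 then e2 else if a ≤ 4 then e3 else if a + v ≤ i then a + k - 3 else a + k - 2
  else if a ≤ 3 then e4 else if a ≤ 4 then e5 else a + k - 1

/-- The round at the smaller vertex. -/
def uwA (k i y f v a b : ℤ) : ℤ := uwU k i y f v 2 0 4 1 2 a b

/-- The round at the larger vertex. -/
def uwB (k i y f v a b : ℤ) : ℤ :=
  uwU k i y f v (2 * k - 3) (2 * k + 1) (2 * k - 1) (2 * k + 2) (2 * k + 3) a b

/-- The round at `a` of the item towards the centre. -/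
def uwZ (k y f a : ℤ) : ℤ :=
  if a ≤ 3 then 4 else if a < y then 2 * a - 3 else if a ≤ y then f else if a ≤ k - 2 then 2 * a - 3
  else if a ≤ k - 1 then 2 * k + 2 - f else if a ≤ k then 2 * k - 5
  else if a ≤ k + 1 then 2 * y - 3 else 2 * k + 1

/-- The round at the centre of the item towards `b`. -/
def uwC (k y f b : ℤ) : ℤ :=
  if b ≤ 3 then 4 else if 2 * b < k + 8 then 2 * b - 3 else if b < y then 2 * k + 4 - 2 * b
  else if b ≤ y then f else if b ≤ k - 2 then 2 * k + 4 - 2 * b else if b ≤ k - 1 then 2 * k + 2 - f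
  else if b ≤ k then 6 else if b ≤ k + 1 then 2 * k + 4 - 2 * y else k - 2

/-- The first round of a vertex. -/
def uwT (k a : ℤ) : ℤ :=
  if a ≤ 2 then 4 else if a ≤ 3 then 0 else if a ≤ 4 then 2 else if a ≤ k then a
  else if a ≤ k + 1 then k + 2 else k + 4

variable {k i y f v a b b' : ℤ}

lemma UwP.lin (h : UwP k i y f v) : 12 ≤ k ∧ y + i = f + 3 ∧ k + 5 ≤ 3 * i ∧ 3 * i ≤ k + 10 ∧
    k ≤ f ∧ f ≤ k + 2 ∧ 0 ≤ v ∧ v ≤ 1 := by
  unfold UwP at h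
  omega

lemma uwC_win (h : UwP k i y f v) (b1 : 3 ≤ b) (b2 : b ≤ k + 2) :
    4 ≤ uwC k y f b ∧ uwC k y f b < 4 + k := by
  obtain ⟨p1, p2, p3, p4, p5, p6, p7, p8⟩ := h.lin
  unfold uwC
  unfold UwP at h
  omega

lemma uwC_inj (h : UwP k i y f v) (b1 : 3 ≤ b) (b2 : b < b') (b4 : b' ≤ k + 2) :
    uwC k y f b ≠ uwC k y f b' := by
  obtain ⟨p1, p2, p3, p4, p5, p6, p7, p8⟩ := h.lin
  unfold uwC
  unfold UwP at h
  omega

lemma uwZ_win (h : UwP k i y f v) (a1 : 3 ≤ a) (a2 : a ≤ k + 2) :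
    uwT k a ≤ uwZ k y f a ∧ uwZ k y f a < uwT k a + k := by
  obtain ⟨p1, p2, p3, p4, p5, p6, p7, p8⟩ := h.lin
  unfold uwZ uwT
  unfold UwP at h
  omega

lemma uwA_win (h : UwP k i y f v) (a1 : 3 ≤ a) (a2 : a < b) (b2 : b ≤ k + 2) :
    uwT k a ≤ uwA k i y f v a b ∧ uwA k i y f v a b < uwT k a + k := by
  obtain ⟨p1, p2, p3, p4, p5, p6, p7, p8⟩ := h.lin
  unfold uwA uwU uwT
  unfold UwP at h
  omega

lemma uwB_win (h : UwP k i y f v) (a1 : 3 ≤ b) (a2 : b < a) (b2 : a ≤ k + 2) :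
    uwT k a ≤ uwB k i y f v b a ∧ uwB k i y f v b a < uwT k a + k := by
  obtain ⟨p1, p2, p3, p4, p5, p6, p7, p8⟩ := h.lin
  unfold uwB uwU uwT
  unfold UwP at h
  omega

lemma uwA_neZ (h : UwP k i y f v) (a1 : 3 ≤ a) (a2 : a < b) (b2 : b ≤ k + 2) :
    uwA k i y f v a b ≠ uwZ k y f a := by
  obtain ⟨p1, p2, p3, p4, p5, p6, p7, p8⟩ := h.lin
  unfold uwA uwU uwZ
  unfold UwP at h
  omega

lemma uwB_neZ (h : UwP k i y f v) (a1 : 3 ≤ b) (a2 : b < a) (b2 : a ≤ k + 2) :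
    uwB k i y f v b a ≠ uwZ k y f a := by
  obtain ⟨p1, p2, p3, p4, p5, p6, p7, p8⟩ := h.lin
  unfold uwB uwU uwZ
  unfold UwP at h
  omega

lemma uwA_inj (h : UwP k i y f v) (a1 : 3 ≤ a) (a2 : a < b) (b1 : b < b') (b2 : b' ≤ k + 2) :
    uwA k i y f v a b ≠ uwA k i y f v a b' := by
  obtain ⟨p1, p2, p3, p4, p5, p6, p7, p8⟩ := h.lin
  unfold uwA uwU
  unfold UwP at h
  omega

lemma uwB_inj (h : UwP k i y f v) (a1 : 3 ≤ b) (a2 : b < b') (b1 : b' < a) (b2 : a ≤ k + 2) :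
    uwB k i y f v b a ≠ uwB k i y f v b' a := by
  obtain ⟨p1, p2, p3, p4, p5, p6, p7, p8⟩ := h.lin
  unfold uwB uwU
  unfold UwP at h
  omega

lemma uwB_neA (h : UwP k i y f v) (a1 : 3 ≤ b) (a2 : b < a) (b1 : a < b') (b2 : b' ≤ k + 2) :
    uwB k i y f v b a ≠ uwA k i y f v a b' := by
  obtain ⟨p1, p2, p3, p4, p5, p6, p7, p8⟩ := h.lin
  unfold uwA uwB uwU
  unfold UwP at h
  omega

lemma uwA_B (h : UwP k i y f v) (a1 : 3 ≤ a) (a2 : a < b) (b2 : b ≤ k + 2) :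
    uwB k i y f v a b = uwA k i y f v a b ∨ uwB k i y f v a b = uwA k i y f v a b + (2 * k + 1) ∨
      (a = 3 ∧ b = k) ∨ (a = 4 ∧ b = k + 1) := by
  obtain ⟨p1, p2, p3, p4, p5, p6, p7, p8⟩ := h.lin
  unfold uwA uwB uwU
  unfold UwP at h
  omega

lemma uwC_Z (h : UwP k i y f v) (b1 : 3 ≤ b) (b2 : b ≤ k + 2) :
    (uwC k y f b = uwZ k y f b ∧ b < k ∧ (2 * b < k + 8 ∨ b = y ∨ b = k - 1)) ∨
      (uwC k y f b + uwZ k y f b = 2 * k + 1 ∧ 6 ≤ uwC k y f b ∧ uwC k y f b ≤ k - 4 ∧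
        (b = k ∨ b = k + 1 ∨ (k + 8 ≤ 2 * b ∧ b ≤ k - 2 ∧ b ≠ y))) ∨ b = k + 2 := by
  obtain ⟨p1, p2, p3, p4, p5, p6, p7, p8⟩ := h.lin
  unfold uwC uwZ
  unfold UwP at h
  omega

end Pool.Agent.P.MP_3f5ded_co.UG
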