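import Pool.Agent.P.MP_3f5ded_co.UWDa

set_option autoImplicit false

namespace Pool.Agent.P.MP_3f5ded_co.UG

/-- The round at `a` of the item towards `b`; the centre is `2`. -/
def uwR (k i y f v a b : ℤ) : ℤ :=
  if a ≤ 2 then uwC k y f b else if b ≤ 2 then uwZ k y f a
  else if a < b then uwA k i y f v a b else uwB k i y f v b a

section Rounds
variable {k i y f v a b b' : ℤ}

lemma uwR_win (h : UwP k i y f v) (a1 : 2 ≤ a) (a2 : a ≤ k + 2) (b1 : 2 ≤ b) (b2 : b ≤ k + 2)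
    (n : b ≠ a) : uwT k a ≤ uwR k i y f v a b ∧ uwR k i y f v a b < uwT k a + k := by
  unfold uwR
  split_ifs with c1 c2 c3
  · rw [uwT, if_pos c1]
    exact uwC_win h (by omega) b2
  · exact uwZ_win h (by omega) a2
  · exact uwA_win h (by omega) c3 b2
  · exact uwB_win h (by omega) (by omega) a2

lemma uwR_inj (h : UwP k i y f v) (a1 : 2 ≤ a) (a2 : a ≤ k + 2) (b1 : 2 ≤ b) (l : b < b')
    (b2 : b' ≤ k + 2) (n : b ≠ a) (n' : b' ≠ a) : uwR k i y f v a b ≠ uwR k i y f v a b' := by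
  unfold uwR
  split_ifs with c1 c2 c3 c4 c5 c6 c7 c8 c9
  · exact uwC_inj h (by omega) l b2
  · omega
  · exact (uwA_neZ h (by omega) c4 b2).symm
  · exact (uwB_neZ h (by omega) (by omega) a2).symm
  · omega
  · exact uwA_inj h (by omega) c5 l b2
  · omega
  · omega
  · exact uwB_neA h (by omega) (by omega) c9 b2
  · exact uwB_inj h (by omega) l (by omega) a2

lemma uwR_ports (h : UwP k i y f v) : uwR k i y f v 2 (k + 2) = k - 2 ∧
    uwR k i y f v (k + 2) 2 = 2 * k + 1 ∧ uwR k i y f v k 3 = 2 * k - 3 ∧ uwR k i y f v 3 k = 2 ∧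
    uwR k i y f v (k + 1) 4 = 2 * k - 1 ∧ uwR k i y f v 4 (k + 1) = 4 := by
  unfold uwR uwA uwB uwC uwZ uwU UwP at *
  refine ⟨?_, ?_, ?_, ?_, ?_, ?_⟩ <;>
    repeat (first | rw [if_pos (by omega)] | rw [if_neg (by omega)])

end Rounds

/-- A design: rounds for all items of the block, with mirror sums on the ports. -/
structure Spi.Dm {W : Type} (S : Spi W) (k : ℕ) (l : W) (R : W → W → ℤ) : Prop where
  sym : ∀ x y, y ≠ x → ¬ S.Fe x y → R x y = R y x ∨ R x y = R y x + (2 * k + 1) ∨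
    R y x = R x y + (2 * k + 1)
  win : ∀ x y y', y ≠ x → y' ≠ x → y ≠ y' → R x y ≠ R x y' ∧ R x y < R x y' + k
  mir : ∀ y, S.Fe S.z y → y ≠ l → R S.z y + R y S.z = 2 * k + 1 ∧ 6 ≤ R S.z y ∧ R S.z y ≤ k - 4
  zl : R S.z l = k - 2
  lz : R l S.z = 2 * k + 1
  pp : R S.p S.p' = 2 * k - 3
  pp' : R S.p' S.p = 2
  qq : R S.q S.q' = 2 * k - 1
  qq' : R S.q' S.q = 4

theorem exists_Dm {k : ℕ} (hk : 12 ≤ k) (he : Even k) :
    ∃ (W : Type) (_ : Fintype W) (S : Spi W) (l : W) (R : W → W → ℤ),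
      S.Ok k ∧ l ∈ S.L ∧ S.Dm k l R := by
  classical
  obtain ⟨n, hn⟩ := he
  obtain ⟨i, y, f, v, h⟩ : ∃ i y f v : ℤ, UwP k i y f v := by
    obtain h | h | h : k % 3 = 0 ∨ k % 3 = 2 ∨ k % 3 = 1 := by omega
    · exact ⟨(k + 9) / 3, k + 5 - (k + 9) / 3, k + 2, 0, by unfold UwP; omega⟩
    · exact ⟨(k + 10) / 3, k + 5 - (k + 10) / 3, k + 2, 1, by unfold UwP; omega⟩
    · exact ⟨(k + 5) / 3, k + 3 - (k + 5) / 3, k, 0, by unfold UwP; omega⟩
  have hy : (n : ℤ) + 4 ≤ y ∧ y ≤ k - 2 := by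
    unfold UwP at h
    omega
  obtain ⟨g, gi, gw, gs⟩ : ∃ g : Fin (k + 1) → ℤ, (∀ a b, a = b ↔ g a = g b) ∧
      (∀ a, 2 ≤ g a ∧ g a ≤ k + 2) ∧ ∀ a : ℤ, 2 ≤ a → a ≤ k + 2 → ∃ w, g w = a :=
    ⟨fun a => (a.1 : ℤ) + 2, fun a b => by simp only [Fin.ext_iff]; omega, fun a => by simp only; omega,
      fun a a1 a2 => ⟨⟨(a - 2).toNat, by omega⟩, by simp only; omega⟩⟩
  obtain ⟨z, hz⟩ := gs 2 le_rfl (by omega)
  obtain ⟨p, hp⟩ := gs k (by omega) (by omega)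
  obtain ⟨p', hp'⟩ := gs 3 (by omega) (by omega)
  obtain ⟨q, hq⟩ := gs (k + 1) (by omega) (by omega)
  obtain ⟨q', hq'⟩ := gs 4 (by omega) (by omega)
  obtain ⟨l, hl⟩ := gs (k + 2) (by omega) le_rfl
  obtain ⟨L, hL, cL⟩ : ∃ L : Finset (Fin (k + 1)),
      (∀ a, a ∈ L ↔ g a = k + 2 ∨ (g a ≠ y ∧ n + 4 ≤ g a ∧ g a ≤ k - 2)) ∧ 2 * L.card + 10 = k := by
    refine ⟨Finset.univ.filter fun a => g a = k + 2 ∨ (g a ≠ y ∧ n + 4 ≤ g a ∧ g a ≤ k - 2),
      fun a => by simp, ?_⟩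
    rw [← Finset.card_image_of_injective _ fun a b e => (gi a b).2 e,
      show Finset.image g (Finset.univ.filter fun a =>
        g a = k + 2 ∨ (g a ≠ y ∧ n + 4 ≤ g a ∧ g a ≤ k - 2)) =
        insert ((k : ℤ) + 2) ((Finset.Icc ((n : ℤ) + 4) (k - 2)).erase y) from ?_,
      Finset.card_insert_of_notMem (by simp; omega), Finset.card_erase_of_mem (by simp; omega),
      Int.card_Icc]
    · omega
    · ext a
      simp only [Finset.mem_image, Finset.mem_filter, Finset.mem_univ, true_and, Finset.mem_insert,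
        Finset.mem_erase, Finset.mem_Icc]
      refine ⟨fun ⟨w, w1, w2⟩ => w2 ▸ w1, fun e => ?_⟩
      obtain ⟨w, rfl⟩ := gs a (by omega) (by omega)
      exact ⟨w, e, rfl⟩
  have hF : ∀ a b, Spi.Fe ⟨z, p, p', q, q', L⟩ a b ↔
      (g a = 2 ∧ (g b = k ∨ g b = k + 1 ∨ g b = k + 2 ∨ (g b ≠ y ∧ n + 4 ≤ g b ∧ g b ≤ k - 2))) ∨
      (g b = 2 ∧ (g a = k ∨ g a = k + 1 ∨ g a = k + 2 ∨ (g a ≠ y ∧ n + 4 ≤ g a ∧ g a ≤ k - 2))) ∨
      (g a = k ∧ g b = 3) ∨ (g a = 3 ∧ g b = k) ∨ (g a = k + 1 ∧ g b = 4) ∨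
      (g a = 4 ∧ g b = k + 1) := fun a b => by
    simp only [Spi.Fe, hL, gi, hz, hp, hp', hq, hq']
  refine ⟨Fin (k + 1), inferInstance, ⟨z, p, p', q, q', L⟩, l, fun a b => uwR k i y f v (g a) (g b),
    ⟨Fintype.card_fin _, cL, hk, ?_, ?_, ?_, ?_, ?_, ?_, ?_, ?_, ?_, ?_, ?_, ?_, ?_, ?_, ?_⟩,
    (hL _).2 (Or.inl hl),
    ⟨fun a b e e' => ?_, fun a b b' e e' e'' => ?_, fun b e e' => ?_, ?_, ?_, ?_, ?_, ?_, ?_⟩⟩
  iterate 15 (simp only [ne_eq, gi, hL]; omega)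
  · have a1 := gw a
    have b1 := gw b
    rw [ne_eq, gi] at e
    rw [hF] at e'
    simp only [not_or] at e'
    obtain ⟨e1, e2, e3, e4, e5, e6⟩ := e'
    simp only [uwR]
    split_ifs with c1 c2 c3 c4 c5 c6
    · clear e1 e2 e3 e4 e5 e6
      omega
    · have := uwC_Z h (b := g b) (by clear e1 e2 e3 e4 e5 e6; omega) b1.2
      clear e2 e3 e4 e5 e6
      omega
    · have := uwC_Z h (b := g a) (by clear e1 e2 e3 e4 e5 e6; omega) a1.2
      clear e1 e3 e4 e5 e6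
      omega
    · clear e1 e2 e3 e4 e5 e6
      omega
    · have := uwA_B h (a := g a) (b := g b) (by clear e1 e2 e3 e4 e5 e6; omega) c4 b1.2
      clear e1 e2 e3 e5
      omega
    · have := uwA_B h (a := g b) (b := g a) (by clear e1 e2 e3 e4 e5 e6; omega) c6 a1.2
      clear e1 e2 e4 e6
      omega
    · clear e1 e2 e3 e4 e5 e6
      omega
  · have a1 := gw a
    have b1 := gw b
    have b2 := gw b'
    rw [ne_eq, gi] at e e' e''
    have w1 := uwR_win h a1.1 a1.2 b1.1 b1.2 e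
    have w2 := uwR_win h a1.1 a1.2 b2.1 b2.2 e'
    refine ⟨?_, by omega⟩
    rcases lt_or_gt_of_ne e'' with g4 | g4
    · exact uwR_inj h a1.1 a1.2 b1.1 g4 b2.2 e e'
    · exact (uwR_inj h a1.1 a1.2 b2.1 g4 b1.2 e' e).symm
  · have b1 := gw b
    rw [ne_eq, gi] at e'
    rw [hF] at e
    simp only [hz] at e
    have := uwC_Z h (b := g b) (by omega) b1.2
    simp only [uwR, hz]
    split_ifs <;> omega
  all_goals simp only [hz, hp, hp', hq, hq', hl, uwR_ports h]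

/-- A step function with a jump after round `0` and a jump after round `j`. -/
lemma uwd_step {k : ℕ} {j : ℤ} (j0 : 1 ≤ j) (j1 : j < 2 * k) {r A C : ℝ} (h0 : A ≤ 0) (h1 : 0 ≤ C)
    (h2 : C ≤ A + (2 * r - 2 * k - 1)) (y : ℝ) :
    ∃ T : ℤ → ℝ, (∀ x, T x + 1 ≤ T (x + 1)) ∧ (∀ x, T (x + (2 * k + 1)) = T x + 2 * r) ∧
      T 0 = y + A ∧ (∀ x : ℤ, 1 ≤ x → x ≤ j → T x = y + x) ∧
      ∀ x : ℤ, j < x → x ≤ 2 * k → T x = y + x + C := by
  have hP : (0 : ℤ) < 2 * k + 1 := by positivity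
  obtain ⟨o, o0, o1, o3, om⟩ : ∃ o : ℤ → ℝ, o 0 = A ∧ (∀ u : ℤ, 1 ≤ u → u ≤ j → o u = 0) ∧
      (∀ u : ℤ, j < u → o u = C) ∧ ∀ u, o u ≤ o (u + 1) := by
    refine ⟨fun u => if u ≤ 0 then A else if u ≤ j then 0 else C, if_pos le_rfl, fun u a b => ?_,
      fun u a => ?_, fun u => ?_⟩ <;> simp only []
    · rw [if_neg (by omega), if_pos b]
    · rw [if_neg (by omega), if_neg (by omega)]
    · split_ifs <;> first | omega | linarith
  have ev : ∀ n u : ℤ, 0 ≤ u → u < 2 * k + 1 →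
      (u + (2 * (k : ℤ) + 1) * n) % (2 * k + 1) = u ∧
        (u + (2 * (k : ℤ) + 1) * n) / (2 * k + 1) = n := fun n u a b =>
    ⟨by rw [Int.add_mul_emod_self_left, Int.emod_eq_of_lt a b],
      by rw [Int.add_mul_ediv_left _ _ hP.ne', Int.ediv_eq_zero_of_lt a b, zero_add]⟩
  obtain ⟨T, hT⟩ : ∃ T : ℤ → ℝ, ∀ n u : ℤ, 0 ≤ u → u < 2 * k + 1 →
      T (u + (2 * (k : ℤ) + 1) * n) = y + u + o u + 2 * n * r := by
    refine ⟨fun h => y + (h % (2 * k + 1) : ℤ) + o (h % (2 * k + 1)) +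
      2 * (h / (2 * k + 1) : ℤ) * r, fun n u a b => ?_⟩
    simp only [(ev n u a b).1, (ev n u a b).2]
  have dec : ∀ h : ℤ, ∃ n u : ℤ, 0 ≤ u ∧ u < 2 * k + 1 ∧ h = u + (2 * (k : ℤ) + 1) * n :=
    fun h => ⟨h / (2 * k + 1), h % (2 * k + 1), Int.emod_nonneg _ hP.ne',
      Int.emod_lt_of_pos _ hP, by rw [Int.emod_add_mul_ediv]⟩
  have t0 : ∀ x : ℤ, 0 ≤ x → x ≤ 2 * k → T x = y + x + o x := fun x a b => by
    have := hT 0 x a (by omega)
    rw [show x + (2 * (k : ℤ) + 1) * 0 = x by ring] at this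
    rw [this]
    push_cast
    ring
  refine ⟨T, fun h => ?_, fun h => ?_, ?_, fun x a b => ?_, fun x a b => ?_⟩
  · obtain ⟨n, u, a, b, rfl⟩ := dec h
    rw [hT _ _ a b]
    rcases lt_or_ge (u + 1) (2 * k + 1) with c | c
    · rw [show u + (2 * (k : ℤ) + 1) * n + 1 = u + 1 + (2 * (k : ℤ) + 1) * n by ring,
        hT _ _ (by omega) c]
      push_cast
      linarith [om u]
    · have e : u = 2 * k := by omega
      rw [show u + (2 * (k : ℤ) + 1) * n + 1 = 0 + (2 * (k : ℤ) + 1) * (n + 1) by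
        rw [e]; ring, hT _ _ le_rfl hP, o0, o3 u (by omega)]
      have e' : (u : ℝ) = 2 * k := by exact_mod_cast e
      push_cast
      linarith
  · obtain ⟨n, u, a, b, rfl⟩ := dec h
    rw [show u + (2 * (k : ℤ) + 1) * n + (2 * k + 1) = u + (2 * (k : ℤ) + 1) * (n + 1) by ring,
      hT _ _ a b, hT _ _ a b]
    push_cast
    ring
  · rw [t0 0 le_rfl (by omega), o0]
    norm_num
  · rw [t0 x (by omega) (by omega), o1 _ a b, add_zero]
  · rw [t0 x (by omega) b, o3 _ a]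

/-- Rounds in a window give a colouring. -/
lemma uwd_cl {W : Type} {S : Spi W} {k : ℕ} {r : ℝ} (hr : r < k + 1) {R : W → W → ℤ}
    (h1 : ∀ x y, y ≠ x → ¬ S.Fe x y → R x y = R y x ∨ R x y = R y x + (2 * k + 1) ∨
      R y x = R x y + (2 * k + 1))
    (h2 : ∀ x y y', y ≠ x → y' ≠ x → y ≠ y' → R x y ≠ R x y' ∧ R x y < R x y' + k) {T : ℤ → ℝ}
    (hs : ∀ x, T x + 1 ≤ T (x + 1)) (hp : ∀ x, T (x + (2 * k + 1)) = T x + 2 * r) :
    S.Cl r fun x y => T (R x y) := by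
  have low : ∀ a b : ℤ, a ≤ b → T a + (b - a) ≤ T b := fun a b h => by
    obtain ⟨n, rfl⟩ := Int.le.dest h
    induction n with
    | zero => simp
    | succ n ih =>
      have a1 := ih (by omega)
      have a2 := hs (a + n)
      push_cast at a1 ⊢
      rw [← add_assoc a]
      linarith
  have far : ∀ a b : ℤ, a < b → b < a + k → Far r (T a) (T b) := fun a b g1 g2 => by
    have a1 := low a b g1.le
    have a2 := low b (a + (2 * k + 1)) (by omega)
    have a3 : (a : ℝ) + 1 ≤ b := by exact_mod_cast g1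
    have a4 : (b : ℝ) + 1 ≤ a + k := by exact_mod_cast g2
    rw [hp] at a2
    push_cast at a2
    exact Far.of_bounds (by linarith) (by linarith)
  refine ⟨fun x y a b => ?_, fun x y y' a b c => ?_⟩
  · rcases h1 x y a b with e | e | e
    · exact Cg.of_eq (congrArg T e)
    · exact ⟨2, by rw [e, hp]; norm_num⟩
    · exact Cg.symm ⟨2, by rw [e, hp]; norm_num⟩
  · obtain ⟨g1, g2⟩ := h2 x y y' a b c
    rcases lt_or_gt_of_ne g1 with g | g
    · exact far _ _ g (h2 x y' y b a c.symm).2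
    · exact (far _ _ g g2).symm

/-- The mirror pair of blocks has colourings for all allowed port colours. -/
theorem exists_desM {k : ℕ} (hk : 12 ≤ k) (he : Even k) :
    ∃ (W : Type) (_ : Fintype W) (S : Spi W) (l : W), S.Ok k ∧ l ∈ S.L ∧
      ∀ r v y : ℝ, r < k + 1 → |v| ≤ 2 * r - 2 * k - 1 → ∃ c d a, S.Cl r c ∧ S.Cl r d ∧
        S.Wm l r c d ∧ Cg r (d S.z l) a ∧ Cg r (c S.z l) (a - (|v| + 5 - (2 * r - 2 * k - 1))) ∧
        Cg r (c l S.z) (y + v) ∧ Cg r (d l S.z) y := by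
  obtain ⟨W, fW, S, l, R, h, hl, D⟩ := exists_Dm hk he
  refine ⟨W, fW, S, l, h, hl, fun r v y hr hs => ?_⟩
  have v1 := le_abs_self v
  have v2 := neg_abs_le v
  obtain ⟨T, t1, t2, t3, t4, t5⟩ := uwd_step (k := k) (j := k - 3) (by omega) (by omega) (r := r)
    (A := -((|v| - v) / 2)) (C := 2 * r - 2 * k - 1 - |v|) (by linarith) (by linarith)
    (by linarith) (y + (|v| + v) / 2)
  obtain ⟨T', s1, s2, s3, s4, s5⟩ := uwd_step (k := k) (j := k + 3) (by omega) (by omega) (r := r)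
    (A := -((|v| + v) / 2)) (C := 2 * r - 2 * k - 1 - |v|) (by linarith) (by linarith)
    (by linarith) (y + (|v| + v) / 2)
  have e : ∀ x x' : ℤ, (1 ≤ x ∧ x ≤ k - 3 ∨ k + 4 ≤ x ∧ x ≤ 2 * k) → x' = x →
      Cg r (T x) (T' x') := fun x x' a c => Cg.of_eq (by
    rcases a with ⟨a, b⟩ | ⟨a, b⟩
    · rw [c, t4 x a b, s4 x a (by omega)]
    · rw [c, t5 x (by omega) b, s5 x (by omega) b])
  have a1 := D.pp
  have a2 := D.pp'
  have a3 := D.qq
  have a4 := D.qq'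
  refine ⟨fun a b => T (R a b), fun a b => T' (2 * k + 1 - R a b), T' (k + 3),
    uwd_cl hr D.sym D.win t1 t2,
    uwd_cl hr (R := fun a b => 2 * k + 1 - R a b) (fun a b g g' => ?_) (fun a b b' g g' g'' => ?_)
      s1 s2, ⟨fun a g g' => ?_, fun a g g' => ?_, e _ _ (by omega) (by omega),
      e _ _ (by omega) (by omega), e _ _ (by omega) (by omega), e _ _ (by omega) (by omega)⟩,
    ?_, ?_, ?_, ?_⟩
  · have := D.sym a b g g'
    omega
  · have := D.win a b' b g' g g''.symm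
    omega
  · have := D.mir a g g'
    exact e _ _ (by omega) (by omega)
  · have := D.mir a g g'
    exact e _ _ (by omega) (by omega)
  · refine Cg.of_eq ?_
    simp only [D.zl]
    rw [show 2 * (k : ℤ) + 1 - (k - 2) = k + 3 by ring]
  · refine Cg.of_eq ?_
    simp only [D.zl]
    rw [t5 _ (by omega) (by omega), s4 _ (by omega) le_rfl]
    push_cast
    ring
  · refine ⟨2, ?_⟩
    simp only [D.lz]
    have := t2 0
    rw [zero_add] at this
    rw [this, t3]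
    push_cast
    ring
  · refine Cg.of_eq ?_
    simp only [D.lz]
    rw [sub_self, s3]
    ring

end Pool.Agent.P.MP_3f5ded_co.UG
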