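import Pool.Agent.P.MP_3f5ded_co.UVPole
import Pool.Agent.P.MP_3f5ded_co.UWDefs
import Pool.Agent.P.MP_3f5ded_co.UEE

set_option autoImplicit false

namespace Pool.Agent.P.MP_3f5ded_co.UG

open Sum

namespace Spi
variable {W : Type} {S : Spi W} {k : ℕ} {l : W}

open Classical in
/-- The partner of a dart of the two copies in the symmetric wiring. -/
noncomputable def mirM (S : Spi W) (l : W) : (Bool × W × W) ⊕ Fin 4 → (Bool × W × W) ⊕ Fin 4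
  | inr j => inl (![(true, S.z, l), (false, S.z, l), (false, l, S.z), (true, l, S.z)] j)
  | inl (i, x, y) =>
    if ¬ S.Fe x y then inl (i, y, x)
    else if x = S.z then (if y = l then (if i then inr 0 else inr 1) else inl (!i, y, S.z))
    else if y = S.z then (if x = l then (if i then inr 3 else inr 2) else inl (!i, S.z, x))
    else if x = S.p then inl (!i, S.q', S.q)
    else if x = S.p' then inl (!i, S.q, S.q')
    else if x = S.q then inl (!i, S.p', S.p)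
    else inl (!i, S.p, S.p')

/-- The values of the partner map. -/
structure MirM (S : Spi W) (l : W) (f : (Bool × W × W) ⊕ Fin 4 → (Bool × W × W) ⊕ Fin 4) :
    Prop where
  r0 : f (inr 0) = inl (true, S.z, l)
  r1 : f (inr 1) = inl (false, S.z, l)
  r2 : f (inr 2) = inl (false, l, S.z)
  r3 : f (inr 3) = inl (true, l, S.z)
  f0 : ∀ i x y, ¬ S.Fe x y → f (inl (i, x, y)) = inl (i, y, x)
  g0 : f (inl (true, S.z, l)) = inr 0
  g1 : f (inl (false, S.z, l)) = inr 1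
  g2 : f (inl (false, l, S.z)) = inr 2
  g3 : f (inl (true, l, S.z)) = inr 3
  f2 : ∀ i y, S.Fe S.z y → y ≠ l → f (inl (i, S.z, y)) = inl (!i, y, S.z)
  f4 : ∀ i x, S.Fe S.z x → x ≠ l → f (inl (i, x, S.z)) = inl (!i, S.z, x)
  f5 : ∀ i, f (inl (i, S.p, S.p')) = inl (!i, S.q', S.q)
  f6 : ∀ i, f (inl (i, S.p', S.p)) = inl (!i, S.q, S.q')
  f7 : ∀ i, f (inl (i, S.q, S.q')) = inl (!i, S.p', S.p)
  f8 : ∀ i, f (inl (i, S.q', S.q)) = inl (!i, S.p, S.p')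

variable [Fintype W]

lemma Ok.mirM (h : S.Ok k) (hl : l ∈ S.L) : S.MirM l (S.mirM l) := by
  have a0 := (h.nz (fzl hl)).1
  have b1 : S.Fe l S.z := (fzl hl).symm
  have b2 : S.Fe S.p' S.p := fpp'.symm
  have b3 : S.Fe S.q' S.q := fqq'.symm
  refine ⟨rfl, rfl, rfl, rfl, fun i x y g => ?_, ?_, ?_, ?_, ?_, fun i y g g' => ?_,
    fun i x g g' => ?_, fun i => ?_, fun i => ?_, fun i => ?_, fun i => ?_⟩
  · simp [Spi.mirM, g]
  · simp [Spi.mirM, fzl hl]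
  · simp [Spi.mirM, fzl hl]
  · simp [Spi.mirM, b1, a0]
  · simp [Spi.mirM, b1, a0]
  · simp [Spi.mirM, g, g']
  · simp [Spi.mirM, g.symm, g', (h.nz g).1]
  · simp [Spi.mirM, fpp', h.zp.symm, h.zp'.symm]
  · simp [Spi.mirM, b2, h.zp.symm, h.zp'.symm, h.pp'.symm]
  · simp [Spi.mirM, fqq', h.zq.symm, h.zq'.symm, h.pq.symm, h.p'q.symm]
  · simp [Spi.mirM, b3, h.zq.symm, h.zq'.symm, h.pq'.symm, h.p'q'.symm, h.qq'.symm]

/-- An inner dart and its partner. -/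
lemma MirM.key {f : (Bool × W × W) ⊕ Fin 4 → (Bool × W × W) ⊕ Fin 4} (M : S.MirM l f) (h : S.Ok k)
    {i i' : Bool} {x y x' y' : W} (hv : y ≠ x) (e : f (inl (i, x, y)) = inl (i', x', y')) :
    y' ≠ x' ∧ ((¬ S.Fe x y ∧ i' = i ∧ x' = y ∧ y' = x) ∨
      (S.Fe x y ∧ i' = !i ∧ ((x = S.p ∧ y = S.p' ∧ x' = S.q' ∧ y' = S.q) ∨
        (x = S.p' ∧ y = S.p ∧ x' = S.q ∧ y' = S.q') ∨
        (x = S.q ∧ y = S.q' ∧ x' = S.p' ∧ y' = S.p) ∨
        (x = S.q' ∧ y = S.q ∧ x' = S.p ∧ y' = S.p') ∨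
        (x' = y ∧ y' = x ∧ ((x = S.z ∧ y ≠ l) ∨ (y = S.z ∧ x ≠ l)))))) := by
  rcases h.cls l x y with g | ⟨rfl, rfl⟩ | ⟨rfl, g, g'⟩ | ⟨rfl, rfl⟩ | ⟨rfl, g, g'⟩ | ⟨rfl, rfl⟩ |
    ⟨rfl, rfl⟩ | ⟨rfl, rfl⟩ | ⟨rfl, rfl⟩
  · rw [M.f0 i x y g] at e
    cases e
    exact ⟨hv.symm, Or.inl ⟨g, rfl, rfl, rfl⟩⟩
  · cases i
    · rw [M.g1] at e
      cases e
    · rw [M.g0] at e
      cases e
  · rw [M.f2 i y g g'] at e
    cases e
    exact ⟨hv.symm, Or.inr ⟨g, rfl, by simp [g']⟩⟩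
  · cases i
    · rw [M.g2] at e
      cases e
    · rw [M.g3] at e
      cases e
  · rw [M.f4 i x g g'] at e
    cases e
    exact ⟨hv.symm, Or.inr ⟨g.symm, rfl, by simp [g']⟩⟩
  · rw [M.f5] at e
    cases e
    exact ⟨h.qq', Or.inr ⟨fpp', rfl, by simp⟩⟩
  · rw [M.f6] at e
    cases e
    exact ⟨h.qq'.symm, Or.inr ⟨fpp'.symm, rfl, by simp⟩⟩
  · rw [M.f7] at e
    cases e
    exact ⟨h.pp', Or.inr ⟨fqq', rfl, by simp⟩⟩
  · rw [M.f8] at e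
    cases e
    exact ⟨h.pp'.symm, Or.inr ⟨fqq'.symm, rfl, by simp⟩⟩

lemma MirM.inv {f : (Bool × W × W) ⊕ Fin 4 → (Bool × W × W) ⊕ Fin 4} (M : S.MirM l f) (h : S.Ok k)
    (i : Bool) (x y : W) : f (f (inl (i, x, y))) = inl (i, x, y) := by
  rcases h.cls l x y with g | ⟨rfl, rfl⟩ | ⟨rfl, g, g'⟩ | ⟨rfl, rfl⟩ | ⟨rfl, g, g'⟩ | ⟨rfl, rfl⟩ |
    ⟨rfl, rfl⟩ | ⟨rfl, rfl⟩ | ⟨rfl, rfl⟩
  · rw [M.f0 i x y g, M.f0 i y x fun e => g e.symm]
  · cases i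
    · rw [M.g1, M.r1]
    · rw [M.g0, M.r0]
  · rw [M.f2 i y g g', M.f4 _ y g g', Bool.not_not]
  · cases i
    · rw [M.g2, M.r2]
    · rw [M.g3, M.r3]
  · rw [M.f4 i x g g', M.f2 _ x g g', Bool.not_not]
  · rw [M.f5, M.f8, Bool.not_not]
  · rw [M.f6, M.f7, Bool.not_not]
  · rw [M.f7, M.f6, Bool.not_not]
  · rw [M.f8, M.f5, Bool.not_not]

/-- Two copies of the block in the symmetric wiring as a pole with four ports. -/
theorem netM (h : S.Ok k) (hl : l ∈ S.L) :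
    ∃ A : Pole k (Fin 4), A.Inj ∧
      (∀ r x, A.Rel r x → ∃ c d, S.Cl r c ∧ S.Cl r d ∧ S.Wm l r c d ∧ Cg r (d S.z l) (x 0) ∧
        Cg r (c S.z l) (x 1) ∧ Cg r (c l S.z) (x 2) ∧ Cg r (d l S.z) (x 3)) ∧
      ∀ (r : ℝ) x c d, S.Cl r c → S.Cl r d → S.Wm l r c d → Cg r (d S.z l) (x 0) →
        Cg r (c S.z l) (x 1) → Cg r (c l S.z) (x 2) → Cg r (d l S.z) (x 3) → A.Rel r x := by
  classical
  obtain ⟨E, hE⟩ := exists_E_even (k := k) (by have := h.big; omega)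
    ⟨S.L.card + 5, by have := h.cardL; omega⟩
  obtain ⟨f, M⟩ : ∃ f, S.MirM l f := ⟨_, h.mirM hl⟩
  obtain ⟨a0, a1, a2⟩ := h.nz (fzl hl)
  have b1 := h.zp
  have b2 := h.zp'
  have b3 := h.zq
  have b4 := h.zq'
  have b5 := h.pp'
  have b6 := h.pq
  have b7 := h.pq'
  have b8 := h.p'q
  have b9 := h.p'q'
  have b0 := h.qq'
  have hr : ∀ j d, f (inr j) = inl d → (j = 0 ∧ d = (true, S.z, l)) ∨
      (j = 1 ∧ d = (false, S.z, l)) ∨ (j = 2 ∧ d = (false, l, S.z)) ∨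
      (j = 3 ∧ d = (true, l, S.z)) := by
    intro j d e
    fin_cases j
    · exact Or.inl ⟨rfl, inl_injective (e.symm.trans M.r0)⟩
    · exact Or.inr (Or.inl ⟨rfl, inl_injective (e.symm.trans M.r1)⟩)
    · exact Or.inr (Or.inr (Or.inl ⟨rfl, inl_injective (e.symm.trans M.r2)⟩))
    · exact Or.inr (Or.inr (Or.inr ⟨rfl, inl_injective (e.symm.trans M.r3)⟩))
  obtain ⟨A, t, A1, A2⟩ := uv_darts (k := k) (fun d : Bool × W × W => d.2.2 ≠ d.2.1)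
    (fun d => (d.1, d.2.1))
    (fun v => by
      have e : Nat.card {y // y ≠ v.2} = k := by
        rw [Nat.card_eq_fintype_card, Fintype.card_subtype_compl, Fintype.card_subtype_eq, h.card]
        rfl
      rw [← e]
      exact Nat.card_congr ⟨fun d => ⟨d.1.2.2, by obtain ⟨d, g, rfl⟩ := d; exact g⟩,
        fun y => ⟨(v.1, v.2, y.1), y.2, rfl⟩, by rintro ⟨⟨a, b, c⟩, g, rfl⟩; rfl, fun _ => rfl⟩)
    f (fun d e g g' => (M.key h g g').1)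
    (Fin.forall_fin_succ.2 ⟨⟨_, a0, M.r0⟩, Fin.forall_fin_succ.2 ⟨⟨_, a0, M.r1⟩,
      Fin.forall_fin_two.2 ⟨⟨_, a0.symm, M.r2⟩, ⟨_, a0.symm, M.r3⟩⟩⟩⟩)
    (fun d _ => M.inv h _ _ _)
    (Fin.forall_fin_succ.2 ⟨(congrArg f M.r0).trans M.g0, Fin.forall_fin_succ.2
      ⟨(congrArg f M.r1).trans M.g1, Fin.forall_fin_two.2
        ⟨(congrArg f M.r2).trans M.g2, (congrArg f M.r3).trans M.g3⟩⟩⟩)
    (fun _ => True) hE.1
    (by
      rintro ⟨i, x, y⟩ ⟨i', x', y'⟩ g e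
      have := (M.key h g e).2
      simp only [ne_eq, Prod.mk.injEq] at g ⊢
      cases i <;> grind)
    (by
      rintro ⟨i, x, y⟩ ⟨j, u, v⟩ ⟨i', x', y'⟩ ⟨j', u', v'⟩ g g' e e' - - o o'
      have k1 := (M.key h g e).2
      have k2 := (M.key h g' e').2
      simp only [Prod.mk.injEq] at o o' ⊢
      obtain ⟨rfl, rfl⟩ := o
      obtain ⟨rfl, rfl⟩ := o'
      cases i <;> grind)
    (by
      intro p q d e g g' o
      rcases hr p d g with ⟨rfl, rfl⟩ | ⟨rfl, rfl⟩ | ⟨rfl, rfl⟩ | ⟨rfl, rfl⟩ <;>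
        rcases hr q e g' with ⟨rfl, rfl⟩ | ⟨rfl, rfl⟩ | ⟨rfl, rfl⟩ | ⟨rfl, rfl⟩ <;>
        simp only [Prod.mk.injEq] at o <;> grind)
  refine ⟨A, t, fun r x g => ?_, fun r x c d hc hd w x0 x1 x2 x3 => ?_⟩
  · obtain ⟨c, u1, u2, u3⟩ := A1 r x g
    have cl : ∀ i, S.Cl r fun x y => c (i, x, y) := fun i =>
      ⟨fun x y a b => u2 (i, x, y) _ a (M.f0 i x y b) trivial,
        fun x y y' a b e => u3 (i, x, y) (i, x, y') a b (by simpa using e) rfl⟩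
    exact ⟨_, _, cl false, cl true, ⟨fun y a b => u2 (false, S.z, y) _ (h.nz a).1 (M.f2 _ y a b) trivial,
      fun y a b => u2 (false, y, S.z) _ (h.nz a).1.symm (M.f4 _ y a b) trivial,
      u2 (false, S.p', S.p) _ b5 (M.f6 _) trivial, u2 (false, S.q, S.q') _ b0.symm (M.f7 _) trivial,
      u2 (false, S.q', S.q) _ b0 (M.f8 _) trivial, u2 (false, S.p, S.p') _ b5.symm (M.f5 _) trivial⟩,
      u1 _ _ M.r0, u1 _ _ M.r1, u1 _ _ M.r2, u1 _ _ M.r3⟩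
  · refine A2 r x (fun u => (bif u.1 then d else c) u.2.1 u.2.2) (fun j u e => ?_) ?_
      (fun _ _ _ _ g => absurd trivial g) ?_
    · rcases hr j u e with ⟨rfl, rfl⟩ | ⟨rfl, rfl⟩ | ⟨rfl, rfl⟩ | ⟨rfl, rfl⟩
      exacts [x0, x1, x2, x3]
    · rintro ⟨i, u, v⟩ ⟨i', u', v'⟩ g e -
      rcases (M.key h g e).2 with ⟨n, rfl, rfl, rfl⟩ | ⟨n, rfl, ⟨rfl, rfl, rfl, rfl⟩ |
        ⟨rfl, rfl, rfl, rfl⟩ | ⟨rfl, rfl, rfl, rfl⟩ | ⟨rfl, rfl, rfl, rfl⟩ |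
        ⟨rfl, rfl, ⟨rfl, n'⟩ | ⟨rfl, n'⟩⟩⟩
      · cases i'
        exacts [hc.sym _ _ g n, hd.sym _ _ g n]
      · cases i
        exacts [w.qb, w.qa.symm]
      · cases i
        exacts [w.pa, w.pb.symm]
      · cases i
        exacts [w.pb, w.pa.symm]
      · cases i
        exacts [w.qa, w.qb.symm]
      · cases i
        exacts [w.zy _ n n', (w.yz _ n n').symm]
      · cases i
        exacts [w.yz _ n.symm n', (w.zy _ n.symm n').symm]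
    · rintro ⟨i, u, v⟩ ⟨i', u', v'⟩ g g' n o
      obtain ⟨rfl, rfl⟩ := Prod.mk.inj o
      have n' : v ≠ v' := fun e => n (by rw [e])
      cases i
      exacts [hc.far _ _ _ g g' n', hd.far _ _ _ g g' n']

end Spi

end Pool.Agent.P.MP_3f5ded_co.UG
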