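import Pool.Agent.P.MP_3f5ded_co.UWChain
import Pool.Agent.P.MP_3f5ded_co.UWPole
import Pool.Agent.P.MP_3f5ded_co.UWDes
import Pool.Agent.P.MP_3f5ded_co.UWAr

set_option autoImplicit false

namespace Pool.Agent.P.MP_3f5ded_co.UG

section Drift

variable {k : ℕ} {ok : ℝ → Prop}

/-- A near pair followed by `j` elastic wires; upper bounds are only used below `r0`. -/
theorem exists_extB {s b : ℝ → ℝ} {Φ : ℝ → Prop} {RE R : ℝ → (Fin 2 → ℝ) → Prop}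
    (hE : Real' k ok (Fin 2) true RE) (hR : Real' k ok (Fin 2) true R)
    (hpos : ∀ r, ok r → 0 < r) {r0 : ℝ} (hok : ok r0) (hs : 0 < s r0)
    (E1 : ∀ r x, ok r → r < r0 → RE r x → cd r (x 0) (x 1) ≤ s r)
    (E2 : ∀ x : Fin 2 → ℝ, cd r0 (x 0) (x 1) ≤ s r0 → RE r0 x)
    (R1 : ∀ r x, ok r → r < r0 → R r x → cd r (x 0) (x 1) ≤ b r ∧ Φ r)
    (R2 : ∀ p, R r0 ![p, p - b r0]) (j : ℕ) : ∃ R', Real' k ok (Fin 2) true R' ∧
      (∀ r x, ok r → r < r0 → R' r x → cd r (x 0) (x 1) ≤ b r + j * s r ∧ Φ r) ∧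
      ∀ p, R' r0 ![p, p - (b r0 + j * s r0)] := by
  induction j with
  | zero =>
    exact ⟨R, hR, fun r x hr l h => by simpa using R1 r x hr l h, fun p => by simpa using R2 p⟩
  | succ j ih =>
    obtain ⟨R', h1, h2, h3⟩ := ih
    refine ⟨_, h1.ser hE, ?_, fun p => ⟨_, h3 p, E2 _ ?_⟩⟩
    · rintro r x hr l ⟨y, a1, a2⟩
      have b1 : cd r (x 0) y ≤ b r + j * s r := (h2 r _ hr l a1).1
      have b2 : cd r y (x 1) ≤ s r := E1 r _ hr l a2
      have b3 := cd_tri (hpos r hr) (x 0) y (x 1)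
      refine ⟨?_, (h2 r _ hr l a1).2⟩
      push_cast
      linarith
    · change cd r0 (p - (b r0 + j * s r0)) (p - (b r0 + ((j + 1 : ℕ) : ℝ) * s r0)) ≤ s r0
      refine (cd_le_of (u := -s r0) (hpos r0 hok) (Cg.of_eq ?_)).trans ?_
      · push_cast
        ring
      · rw [abs_neg, abs_of_pos hs]

/-- The chain of drift cells; upper bounds are only used below `r0`. -/
theorem exists_dchainB {s κ : ℝ → ℝ} {RE : ℝ → (Fin 2 → ℝ) → Prop}
    {RI : ℝ → (Fin 4 → ℝ) → Prop} (hE : Real' k ok (Fin 2) true RE)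
    (hI : Real' k ok (Fin 4) true RI) (hpos : ∀ r, ok r → 0 < r) {r0 : ℝ} (hok : ok r0)
    (hs : 0 < s r0) (E1 : ∀ r x, ok r → r < r0 → RE r x → cd r (x 0) (x 1) ≤ s r)
    (E2 : ∀ x : Fin 2 → ℝ, cd r0 (x 0) (x 1) ≤ s r0 → RE r0 x)
    (I1 : ∀ r x, ok r → r < r0 → RI r x → cd r (x 2) (x 3) ≤ s r ∧
      cd r (x 2) (x 3) ≤ cd r (x 0) (x 1) + κ r)
    (I2 : ∀ v c, 0 ≤ v → v ≤ s r0 → ∃ a, RI r0 ![a, a - (v - κ r0), c + v, c])
    (S : ℕ → ℕ) (S0 : S 0 = 0) (S1 : ∀ t, S t ≤ S (t + 1))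
    (S2 : ∀ t : ℕ, 0 ≤ s r0 + t * κ r0 + S t * s r0 ∧ t * κ r0 + S t * s r0 ≤ 0) (t : ℕ) :
    ∃ R, Real' k ok (Fin 2) true R ∧
      (∀ r x, ok r → r < r0 → R r x → cd r (x 0) (x 1) ≤ s r + t * κ r + S t * s r ∧ True) ∧
      ∀ p, R r0 ![p, p - (s r0 + t * κ r0 + S t * s r0)] := by
  induction t with
  | zero =>
    obtain ⟨R, h1, h2⟩ := exists_free hE hok (hpos r0 hok) hs E2
    refine ⟨_, h1.cap hI, ?_, fun p => ?_⟩
    · rintro r x hr l ⟨a, b, -, a2⟩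
      have b1 : cd r (x 0) (x 1) ≤ s r := (I1 r _ hr l a2).1
      rw [S0]
      push_cast
      exact ⟨by linarith, trivial⟩
    · obtain ⟨a, ha⟩ := I2 (s r0) (p - s r0) hs.le le_rfl
      rw [sub_add_cancel] at ha
      refine ⟨a, a - (s r0 - κ r0), h2 _, ?_⟩
      have e : s r0 + ((0 : ℕ) : ℝ) * κ r0 + S 0 * s r0 = s r0 := by
        rw [S0]
        push_cast
        ring
      rw [e]
      exact ha
  | succ t ih =>
    obtain ⟨R, h1, h2, h3⟩ := ih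
    obtain ⟨j, hj⟩ := Nat.exists_eq_add_of_le (S1 t)
    obtain ⟨G, g1, g2, g3⟩ := exists_extB (b := fun r => s r + t * κ r + S t * s r) hE h1
      hpos hok hs E1 E2 h2 h3 j
    have hj' : (S (t + 1) : ℝ) = S t + j := by exact_mod_cast hj
    refine ⟨_, g1.cap hI, ?_, fun p => ?_⟩
    · rintro r x hr l ⟨a, b, a1, a2⟩
      have b1 : cd r (x 0) (x 1) ≤ cd r a b + κ r := (I1 r _ hr l a2).2
      have b3 : cd r a b ≤ s r + t * κ r + S t * s r + j * s r := (g2 r _ hr l a1).1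
      rw [hj']
      push_cast
      exact ⟨by linarith, trivial⟩
    · obtain ⟨c1, c2⟩ := S2 (t + 1)
      obtain ⟨v, hv⟩ : ∃ v, v = s r0 + ((t + 1 : ℕ) : ℝ) * κ r0 + S (t + 1) * s r0 := ⟨_, rfl⟩
      rw [← hv]
      obtain ⟨a, ha⟩ := I2 v (p - v) (by linarith) (by linarith)
      rw [sub_add_cancel] at ha
      refine ⟨a, _, ?_, ha⟩
      have e : v - κ r0 = s r0 + t * κ r0 + S t * s r0 + j * s r0 := by
        rw [hv, hj']
        push_cast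
        ring
      rw [e]
      exact g3 a

/-- The closed drift chain is colourable at `r0` and not below. -/
theorem exists_driftB {s κ : ℝ → ℝ} {RE : ℝ → (Fin 2 → ℝ) → Prop}
    {RI : ℝ → (Fin 4 → ℝ) → Prop} (hE : Real' k ok (Fin 2) true RE)
    (hI : Real' k ok (Fin 4) true RI) (hpos : ∀ r, ok r → 0 < r) {r0 : ℝ} (hok : ok r0)
    (hs : 0 < s r0) (E1 : ∀ r x, ok r → r < r0 → RE r x → cd r (x 0) (x 1) ≤ s r)
    (E2 : ∀ x : Fin 2 → ℝ, cd r0 (x 0) (x 1) ≤ s r0 → RE r0 x)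
    (I1 : ∀ r x, ok r → r < r0 → RI r x → cd r (x 2) (x 3) ≤ s r ∧
      cd r (x 2) (x 3) ≤ cd r (x 0) (x 1) + κ r)
    (I2 : ∀ v c, 0 ≤ v → v ≤ s r0 → ∃ a, RI r0 ![a, a - (v - κ r0), c + v, c])
    (L N : ℕ) (hL : 0 < L) (hN : 0 < N) (hq : L * (-κ r0) = N * s r0)
    (hm : ∀ r, ok r → r < r0 → κ r ≤ κ r0 ∧ s r < s r0) :
    ∃ R, Real' k ok (Fin 0) true R ∧ (∀ x, R r0 x) ∧ ∀ r x, ok r → r < r0 → ¬ R r x := by
  have hL' : (0 : ℝ) < L := by exact_mod_cast hL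
  have hN' : (0 : ℝ) < N := by exact_mod_cast hN
  obtain ⟨q, hq0, hq1, hq2⟩ : ∃ q : ℝ, 0 < q ∧ L * q = N ∧ κ r0 = -q * s r0 := by
    refine ⟨N / L, div_pos hN' hL', mul_div_cancel₀ _ hL'.ne', ?_⟩
    field_simp
    linarith
  have hS : ∀ t : ℕ, t * q - 1 ≤ ((⌈t * q⌉₊ - 1 : ℕ) : ℝ) ∧ ((⌈t * q⌉₊ - 1 : ℕ) : ℝ) ≤ t * q := by
    intro t
    have h0 : 0 ≤ t * q := by positivity
    have h1 := Nat.le_ceil (t * q)
    have h2 := Nat.ceil_lt_add_one h0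
    generalize ⌈t * q⌉₊ = n at h1 h2
    rcases n with _ | n
    · simp only [Nat.zero_sub, Nat.cast_zero] at h1 ⊢
      constructor <;> linarith
    · simp only [Nat.add_sub_cancel]
      push_cast at h1 h2
      constructor <;> linarith
  obtain ⟨R, h1, h2, h3⟩ := exists_dchainB hE hI hpos hok hs E1 E2 I1 I2
    (fun t => ⌈t * q⌉₊ - 1) (by simp)
    (fun t => Nat.sub_le_sub_right (Nat.ceil_mono (by push_cast; linarith)) 1)
    (fun t => by
      obtain ⟨a1, a2⟩ := hS t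
      have b1 := mul_le_mul_of_nonneg_right a1 hs.le
      have b2 := mul_le_mul_of_nonneg_right a2 hs.le
      rw [hq2]
      constructor <;> linarith) L
  obtain ⟨F, f1, f2⟩ := exists_free hE hok (hpos r0 hok) hs E2
  refine ⟨_, h1.clo f1, fun _ => ⟨_, h3 0, f2 _⟩, ?_⟩
  rintro r x hr hlt ⟨y, a1, -⟩
  have b1 := (cd_nonneg _ _ _).trans (h2 r y hr hlt a1).1
  obtain ⟨b2, b3⟩ := hm r hr hlt
  have e : ((⌈L * q⌉₊ - 1 : ℕ) : ℝ) = N - 1 := by
    rw [hq1, Nat.ceil_natCast, Nat.cast_sub hN, Nat.cast_one]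
  simp only [e] at b1
  have b4 := mul_le_mul_of_nonneg_left b2 hL'.le
  have b6 := mul_lt_mul_of_pos_left b3 hN'
  linarith

end Drift

/-- The drift pole, with its upper bounds known only below `b`. -/
def IsMb (k : ℕ) (b : ℝ) (A : Pole k (Fin 4)) : Prop :=
  A.Inj ∧ (∀ (r : ℝ) x, 1 ≤ r → r < k + 1 → r < b → A.Rel r x →
      cd r (x 2) (x 3) ≤ 2 * r - 2 * k - 1 ∧
        cd r (x 2) (x 3) + 5 - (2 * r - 2 * k - 1) ≤ cd r (x 0) (x 1)) ∧
    ∀ r v c : ℝ, r < k + 1 → |v| ≤ 2 * r - 2 * k - 1 →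
      ∃ a, A.Rel r ![a, a - (|v| + 5 - (2 * r - 2 * k - 1)), c + v, c]

theorem IsMb.wire {k : ℕ} {b : ℝ} {A : Pole k (Fin 4)} (hA : IsMb k b A)
    {RF : ℝ → (Fin 2 → ℝ) → Prop} (hF : Real' k (okk k) (Fin 2) true RF) :
    ∃ R, Real' k (okk k) (Fin 2) true R ∧
      (∀ r x, okk k r → r < b → R r x → cd r (x 0) (x 1) ≤ 2 * r - 2 * k - 1) ∧
      ∀ r x, okk k r → (∀ y, RF r y) → cd r (x 0) (x 1) ≤ 2 * r - 2 * k - 1 → R r x := by
  have hR := hF.cap (hA.1.real (okk k))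
  refine ⟨_, hR, ?_, fun r x hr f h => ?_⟩
  · rintro r x hr l ⟨a, b, -, h⟩
    exact (hA.2.1 r _ hr.1 hr.2 l h).1
  · have hp : 0 < r := by linarith [hr.1]
    obtain ⟨v, hv, e⟩ := cd_lift r (x 1) (x 0)
    rw [cd_symm hp] at e
    obtain ⟨a, ha⟩ := hA.2.2 r v (x 1) hr.2 (by rw [e]; exact h)
    refine hR.cg hr (x := ![x 1 + v, x 1]) ⟨a, _, f _, ha⟩ fun j => ?_
    fin_cases j
    exacts [hv.symm, Cg.refl _ _]

theorem IsMb.closed {k : ℕ} {b : ℝ} {A : Pole k (Fin 4)} (hA : IsMb k b A) (hk : 4 ≤ k)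
    (he : Even k) (x : ℚ) (h1 : (k : ℚ) + 1 / 2 < x) (h2 : x < k + 1) (h3 : (x : ℝ) ≤ b) :
    ∃ R, Real' k (okk k) (Fin 0) true R ∧ (∀ y, R x y) ∧
      ∀ (r : ℝ) y, okk k r → r < x → ¬ R r y := by
  obtain ⟨W, hW⟩ := exists_E_even hk he
  have hk' : (4 : ℝ) ≤ k := by exact_mod_cast hk
  have h1' : (k : ℝ) + 1 / 2 < x := by
    have := (Rat.cast_lt (K := ℝ)).2 h1
    push_cast at this
    exact this
  have h2' : (x : ℝ) < k + 1 := by exact_mod_cast h2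
  have hok : okk k x := ⟨by linarith, h2'⟩
  have hpos : ∀ r : ℝ, okk k r → 0 < r := fun r hr => by linarith [hr.1]
  have hs : (0 : ℝ) < 2 * x - 2 * k - 1 := by linarith
  obtain ⟨F, hF, f3⟩ := exists_free (hW.1.real (okk k)) hok (hpos _ hok)
    (show (0 : ℝ) < x - k by linarith) fun y => hW.2.2 x y
  obtain ⟨E, hE, E1, E2⟩ := hA.wire hF
  obtain ⟨L, N, hL, hN, hq⟩ := exists_ratio (α := 6 - 2 * (x - k)) (β := 2 * (x - k) - 1)
    (by linarith) (by linarith)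
  refine exists_driftB (s := fun r => 2 * r - 2 * k - 1) (κ := fun r => 2 * r - 2 * k - 6)
    hE (hA.1.real (okk k)) hpos hok hs (fun r y hr l => E1 r y hr (l.trans_le h3))
    (fun y => E2 x y hok f3) ?_ (fun v c a1 a2 => ?_) L N hL hN ?_ ?_
  · intro r y hr l a
    obtain ⟨b1, b2⟩ := hA.2.1 r _ hr.1 hr.2 (l.trans_le h3) a
    exact ⟨by linarith, by linarith⟩
  · obtain ⟨a, ha⟩ := hA.2.2 x v c h2' (by rw [abs_of_nonneg a1]; linarith)
    refine ⟨a, ?_⟩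
    rw [abs_of_nonneg a1] at ha
    rwa [show v - (2 * (x : ℝ) - 2 * k - 6) = v + 5 - (2 * x - 2 * k - 1) by ring]
  · push_cast at hq
    linarith
  · intro r _ hr
    constructor <;> linarith

/-- With such a pole, every rational in `[k, b]` below `k + 1` is a value. -/
theorem IsMb.value {k : ℕ} {b : ℝ} {A : Pole k (Fin 4)} (hA : IsMb k b A) (hk : 6 ≤ k)
    (he : Even k) (x : ℚ) (h1 : (k : ℚ) ≤ x) (h2 : x < k + 1) (h3 : (x : ℝ) ≤ b) :
    ∃ (n : ℕ) (G : SimpleGraph (Fin n)) (_ : DecidableRel G.Adj),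
      G.IsRegularOfDegree k ∧ IsLeast {r : ℝ | 1 ≤ r ∧ Col G r} (x : ℝ) := by
  rcases le_or_gt x (k + 1 / 2) with h4 | h4
  · exact main_lower (by omega) x h1 h4
  · obtain ⟨R, hR, a1, a2⟩ := hA.closed (by omega) he x h4 h2 h3
    have hk' : (6 : ℝ) ≤ k := by exact_mod_cast hk
    have h1' : (k : ℝ) ≤ x := by exact_mod_cast h1
    have h2' : (x : ℝ) < k + 1 := by exact_mod_cast h2
    exact least_of_closed hR le_rfl (by linarith) (fun r b1 b2 => ⟨b1, by linarith⟩) a1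
      (fun r y b1 b2 => a2 r y ⟨b1, by linarith⟩ b2) (Or.inr rfl)

namespace Spi
variable {W : Type} {S : Spi W} {k : ℕ} {l : W} {r : ℝ} {c d : W → W → ℝ}

/-- Two copies wired crosswise, from the modes of the two colourings. -/
theorem Ok.pairMo [Fintype W] (h : S.Ok k) (hl : l ∈ S.L) (h1 : 1 ≤ r) (hr : r < k + 1)
    (hc : S.Mo k r c ∨ S.Mo k r fun x y => -c x y) (hd : S.Mo k r d ∨ S.Mo k r fun x y => -d x y)
    (w : S.Wm l r c d) :
    cd r (c l S.z) (d l S.z) ≤ 2 * r - 2 * k - 1 ∧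
      cd r (c l S.z) (d l S.z) + 5 - (2 * r - 2 * k - 1) ≤ cd r (d S.z l) (c S.z l) := by
  rcases hc with H | H <;> rcases hd with G | G
  · exact (h.sameM hl hr H G w).elim
  · exact h.oppM hl hr H G w
  · have := h.oppM hl hr (d := fun x y => -d x y) H (by simpa using G) w.neg
    have a := uva_cdneg (r := r) (by linarith) (c l S.z) (d l S.z)
    have b := uva_cdneg (r := r) (by linarith) (-d S.z l) (-c S.z l)
    rw [neg_neg, neg_neg] at b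
    exact ⟨by linarith [this.1], by linarith [this.2]⟩
  · exact (h.sameM hl hr H G w.neg).elim

end Spi

/-- The drift pole from the glue property below `b`. -/
theorem exists_Mb {k : ℕ} (hk : 12 ≤ k) (he : Even k) {b : ℝ}
    (hP : ∀ (W : Type) [Fintype W] (S : Spi W) (l : W) (r : ℝ) (c d : W → W → ℝ), S.Ok k → l ∈ S.L →
      1 ≤ r → r < k + 1 → r < b → S.Cl r c → S.Cl r d → S.Wm l r c d →
      cd r (c l S.z) (d l S.z) ≤ 2 * r - 2 * k - 1 ∧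
        cd r (c l S.z) (d l S.z) + 5 - (2 * r - 2 * k - 1) ≤ cd r (d S.z l) (c S.z l)) :
    ∃ A, IsMb k b A := by
  classical
  obtain ⟨W, _, S, l, h, hl, hD⟩ := exists_desM hk he
  obtain ⟨A, a1, a2, a3⟩ := Spi.netM h hl
  refine ⟨A, a1, fun r x h1 hr hb g => ?_, fun r v y hr g => ?_⟩
  · obtain ⟨c, d, hc, hd, w, x0, x1, x2, x3⟩ := a2 r x g
    have hp : 0 < r := by linarith
    rw [← cd_congr hp x0 x1, ← cd_congr hp x2 x3]
    exact hP W S l r c d h hl h1 hr hb hc hd w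
  · obtain ⟨c, d, a, hc, hd, w, x0, x1, x2, x3⟩ := hD r v y hr g
    exact ⟨a, a3 r _ c d hc hd w x0 x1 x2 x3⟩

/-- If the block is in one of the two modes for all lengths below `b`, then every rational in
`[k, b]` below `k + 1` is a value. -/
theorem main_even_below {k : ℕ} (hk : 12 ≤ k) (he : Even k) {b : ℝ}
    (hM : ∀ (W : Type) [Fintype W] (S : Spi W) (r : ℝ) (C : W → W → ℝ), S.Ok k →
      1 ≤ r → r < k + 1 → r < b → S.Cl r C → S.Mo k r C ∨ S.Mo k r fun x y => -C x y)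
    (x : ℚ) (h1 : (k : ℚ) ≤ x) (h2 : x < k + 1) (h3 : (x : ℝ) ≤ b) :
    ∃ (n : ℕ) (G : SimpleGraph (Fin n)) (_ : DecidableRel G.Adj),
      G.IsRegularOfDegree k ∧ IsLeast {r : ℝ | 1 ≤ r ∧ Col G r} (x : ℝ) := by
  obtain ⟨A, hA⟩ := exists_Mb hk he (b := b) fun W _ S l r c d h hl a1 a2 a3 hc hd w =>
    h.pairMo hl a1 a2 (hM W S r c h a1 a2 a3 hc) (hM W S r d h a1 a2 a3 hd) w
  exact hA.value (by omega) he x h1 h2 h3

end Pool.Agent.P.MP_3f5ded_co.UG
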