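import Pool.Agent.P.MP_3f5ded_co.UWSafe
import Pool.Agent.P.MP_3f5ded_co.ET3

set_option autoImplicit false

namespace Pool.Agent.P.MP_3f5ded_co.UG

/-- Even degree at least twelve: all rationals up to `k + 2 / 3` are values. -/
theorem main_two_thirds {k : ℕ} (hk : 12 ≤ k) (he : Even k) (x : ℚ) (h1 : (k : ℚ) ≤ x)
    (h2 : x ≤ k + 2 / 3) :
    ∃ (n : ℕ) (G : SimpleGraph (Fin n)) (_ : DecidableRel G.Adj),
      G.IsRegularOfDegree k ∧ IsLeast {r : ℝ | 1 ≤ r ∧ Col G r} (x : ℝ) := by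
  have h3 : (x : ℝ) ≤ k + 2 / 3 := by
    have := (Rat.cast_le (K := ℝ)).2 h2
    push_cast at this
    exact this
  refine main_even_below hk he (b := k + 2 / 3) (fun W _ S r C h a1 _ a3 c => ?_) x h1
    (by linarith) h3
  classical
  exact h.mo_low (by linarith) C a1 c

end Pool.Agent.P.MP_3f5ded_co.UG
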